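import Mathlib
import Pool.Agent.Lib.MP_ca0fc2_an.TB.Defs

section

/-!
# Abstract geometry of a domain

The gauge `g`, a pseudodistance `q`, and the bound of the oscillation of bounded holomorphic
functions in terms of `q`.
-/

set_option autoImplicit false

open Metric Set MeasureTheory Filter Topology

namespace Pool.Agent.MPca0fc2.CX

/-- The geometric data. The domain is `{g < 1}`. -/
structure Geo (E : Type*) [NormedAddCommGroup E] [InnerProductSpace ℂ E] where
  /-- the gauge -/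
  g : E → ℝ
  /-- the pseudodistance -/
  q : E → E → ℝ
  /-- the radius -/
  R₀ : ℝ
  /-- the constant of the oscillation -/
  Co : ℝ
  R₀_ge : 1 ≤ R₀
  Co_ge : 1 ≤ Co
  g_nonneg : ∀ z, 0 ≤ g z
  g_smul : ∀ (t : ℝ) (z : E), 0 ≤ t → g ((t : ℂ) • z) = t * g z
  g_add : ∀ x y, g (x + y) ≤ g x + g y
  g_le : ∀ z, g z ≤ ‖z‖
  norm_le : ∀ z, ‖z‖ ≤ R₀ * g z
  q_nonneg : ∀ a b, 0 ≤ q a b
  q_symm : ∀ a b, q a b = q b a
  osc : ∀ (t : ℝ) (G : E → ℂ) (B : ℝ), 0 < t → t ≤ 1 → 0 ≤ B →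
    DifferentiableOn ℂ G {w | g w < 1 + t / 16} → (∀ w, g w < 1 + t / 16 → ‖G w‖ ≤ B) →
    ∀ a b, g a ≤ 1 → g b ≤ 1 → ‖G a - G b‖ ≤ 24 * Co * B * (q a b / t) ^ (1 / 4 : ℝ)

namespace Geo

variable {E : Type*} [NormedAddCommGroup E] [InnerProductSpace ℂ E] (𝓖 : Geo E)

/-- the dilated domains -/
def B (r : ℝ) : Set E := {z | 𝓖.g z < r}

/-- The properties of the kernel operator that are used. -/
structure Ker (P : (E → ℂ) → E → ℂ) (CK : ℝ) : Prop where
  pos : 0 < CK
  k1 : ∀ (t X : ℝ) (z : E) (F Φ : E → ℂ) (G G' MΦ : ℝ), 0 < t → t ≤ 1 → 8 ≤ X →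
    1 - t / 8 ≤ 𝓖.g z → 𝓖.g z ≤ 1 - t / 40 → 0 ≤ G → 0 ≤ G' → ContinuousOn F (𝓖.B 1) →
    (∀ w ∈ 𝓖.B 1, (1 - 𝓖.g w) * ‖F w‖ ≤ G * t) →
    DifferentiableOn ℂ Φ {w | w ∈ 𝓖.B 1 ∧ 𝓖.q w z < t * X} →
    (∀ w ∈ 𝓖.B 1, 𝓖.q w z < t * X → ‖Φ w‖ ≤ MΦ) →
    (∀ w ∈ 𝓖.B 1, 𝓖.q w z < t * X →
      (1 - 𝓖.g w) * ‖F w - Φ w‖ ≤ G' * √(t * (𝓖.q w z + t))) →
    ‖P F z - Φ z‖ ≤ CK * (G' + G / √X)
  k2 : ∀ (F : E → ℂ) (C : ℝ), ContinuousOn F (𝓖.B 1) → (∀ w ∈ 𝓖.B 1, ‖F w‖ ≤ C) →
    DifferentiableOn ℂ (P F) (𝓖.B 1)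

end Geo

end Pool.Agent.MPca0fc2.CX
end

section

/-!
# Strongly convex domains: Leray sections and the weighted kernel

Definitions for the campaign CX.
-/

set_option autoImplicit false

open Metric Set MeasureTheory Filter Topology

namespace Pool.Agent.MPca0fc2.CX

/-- `ℂⁿ` with the euclidean norm -/
abbrev En (n : ℕ) := EuclideanSpace ℂ (Fin n)

/-- the `k`-th unit vector -/
noncomputable abbrev ee {n : ℕ} (k : Fin n) : En n := EuclideanSpace.single k (1 : ℂ)

/-- `∂F/∂z_k` -/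
noncomputable def dz {n : ℕ} (k : Fin n) (F : En n → ℂ) (w : En n) : ℂ :=
  (1 / 2) * (fderiv ℝ F w (ee k) - Complex.I * fderiv ℝ F w (Complex.I • ee k))

/-- `∂F/∂z̄_k` -/
noncomputable def db {n : ℕ} (k : Fin n) (F : En n → ℂ) (w : En n) : ℂ :=
  (1 / 2) * (fderiv ℝ F w (ee k) + Complex.I * fderiv ℝ F w (Complex.I • ee k))

/-- the matrix with the columns `θ, ∂̄₁θ, ..., ∂̄ₙθ` -/
noncomputable def mt {n : ℕ} (θ : En n → Fin (n + 1) → ℂ) (w : En n) :
    Matrix (Fin (n + 1)) (Fin (n + 1)) ℂ :=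
  Matrix.of fun a b => Fin.cases (θ w a) (fun k => db k (fun y => θ y a) w) b

/-- its determinant -/
noncomputable def Om {n : ℕ} (θ : En n → Fin (n + 1) → ℂ) (w : En n) : ℂ := (mt θ w).det

/-- the determinant with the column `∂̄_k θ` replaced by `η` -/
noncomputable def Omk {n : ℕ} (θ η : En n → Fin (n + 1) → ℂ) (k : Fin n) (w : En n) : ℂ :=
  ((mt θ w).updateCol k.succ (η w)).det

/-- the vector `(1, w - z)` -/
noncomputable def xv {n : ℕ} (z w : En n) : Fin (n + 1) → ℂ := Fin.cons 1 fun j => w j - z j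

/-- `A = θ · (1, w - z)` -/
noncomputable def Av {n : ℕ} (θ : En n → Fin (n + 1) → ℂ) (z w : En n) : ℂ :=
  ∑ a, θ w a * xv z w a

/-- `(θ₀)₊ ^ m / A ^ (m + n + 1)` -/
noncomputable def fp {n : ℕ} (m : ℕ) (θ : En n → Fin (n + 1) → ℂ) (z w : En n) : ℂ :=
  (((max (θ w 0).re 0) ^ m : ℝ) : ℂ) / (Av θ z w) ^ (m + n + 1)

/-- `θ + t η` -/
noncomputable def lin {n : ℕ} (θ η : En n → Fin (n + 1) → ℂ) (t : ℝ) (w : En n)
    (a : Fin (n + 1)) : ℂ := θ w a + (t : ℂ) * η w a

/-- the Leray section `(-ρ, ∂ρ)` -/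
noncomputable def sec {n : ℕ} (ρ : En n → ℝ) (w : En n) : Fin (n + 1) → ℂ :=
  Fin.cons (-(ρ w : ℂ)) fun j => dz j (fun y => (ρ y : ℂ)) w

/-- the Hermitian form `∑ H_jk v_j v̄_k` -/
noncomputable def hf {n : ℕ} (H : Matrix (Fin n) (Fin n) ℂ) (v : En n) : ℂ :=
  ∑ j, ∑ k, H j k * v j * (starRingEnd ℂ) (v k)

/-- the section `s (r² - h (w - z), ∂h (w - z))` of an ellipsoid with the centre `z` -/
noncomputable def esec {n : ℕ} (H : Matrix (Fin n) (Fin n) ℂ) (r s : ℝ) (z w : En n) :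
    Fin (n + 1) → ℂ :=
  Fin.cons ((s : ℂ) * ((r ^ 2 : ℝ) - hf H (w - z)))
    fun j => (s : ℂ) * ∑ k, H j k * (starRingEnd ℂ) (w k - z k)

/-- A bounded strongly convex domain `{ρ < 0}`, with its centre at the minimum of `ρ`, which
contains the closed unit ball. -/
structure Dm (n : ℕ) where
  /-- the defining function -/
  ρ : En n → ℝ
  sm : ContDiff ℝ 3 ρ
  /-- the constant of strong convexity -/
  c : ℝ
  cpos : 0 < c
  conv : ∀ w z, ρ w + fderiv ℝ ρ w (z - w) + c * ‖z - w‖ ^ 2 ≤ ρ z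
  min0 : ∀ z, ρ 0 ≤ ρ z
  unit : ∀ z, ‖z‖ ≤ 1 → ρ z < 0

namespace Dm

variable {n : ℕ} (𝓓 : Dm n)

/-- the domain -/
def D : Set (En n) := {z | 𝓓.ρ z < 0}

/-- the Leray section -/
noncomputable def th : En n → Fin (n + 1) → ℂ := sec 𝓓.ρ

/-- `A (w, z) = -ρ (w) + ∂ρ (w) · (w - z)` -/
noncomputable def A (w z : En n) : ℂ := Av 𝓓.th z w

/-- `∂ρ (w) · v` -/
noncomputable def pr (w v : En n) : ℂ := ∑ j, dz j (fun y => (𝓓.ρ y : ℂ)) w * v j

/-- the constant of the kernel -/
noncomputable def kap (n m : ℕ) : ℝ := ∫ v in ball (0 : En n) 1, (1 - ‖v‖ ^ 2) ^ m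

/-- the kernel operator -/
noncomputable def P (m : ℕ) (F : En n → ℂ) (z : En n) : ℂ :=
  ((kap n m : ℝ) : ℂ)⁻¹ * ∫ w in 𝓓.D, F w * (fp m 𝓓.th z w * Om 𝓓.th w)

/-- the gauge -/
noncomputable def g (z : En n) : ℝ := gauge 𝓓.D z

end Dm

end Pool.Agent.MPca0fc2.CX
end

section

/-!
Task CX DbA: calculus of the Wirtinger derivative `db`.
PROOFS: unfold `db`, use `fderiv_fun_add`, `fderiv_fun_mul` (or `HasFDerivAt` versions) and `ring`.
`db_neg`: `fderiv_fun_neg` holds without differentiability. `db_prod`: induction on the finset with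
`db_mul`. `db_comp`: `HasDerivAt.comp_hasFDerivAt` with the restriction of scalars of `φ`
(`hφ.hasFDerivAt.restrictScalars ℝ` is `v ↦ φ' * v`), so `fderiv ℝ (φ ∘ F) w v = φ' * fderiv ℝ F w v`.
`db_comp_real`: both sides have real `fderiv`: `fderiv ℝ (fun y => ((φ (F y)):ℂ)) w v =
φ' * fderiv ℝ F w v` (compose with `Complex.ofRealCLM`). `db_holo`:
`hF.hasFDerivAt.restrictScalars ℝ`, and complex linearity gives `L (I • e) = I * L e`, `I * I = -1`.
`db_coord`: holomorphic. `db_conj_coord`: the map is `Complex.conjCLE` composed with a coordinate.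
-/

set_option autoImplicit false

open Metric Set MeasureTheory Filter Topology
open scoped ComplexOrder

namespace Pool.Agent.MPca0fc2.CX

variable {n : ℕ}

theorem db_congr {F G : En n → ℂ} {w : En n} (k : Fin n) (h : F =ᶠ[𝓝 w] G) :
    db k F w = db k G w := by
  rw [db, db, h.fderiv_eq]

theorem dz_congr {F G : En n → ℂ} {w : En n} (k : Fin n) (h : F =ᶠ[𝓝 w] G) :
    dz k F w = dz k G w := by
  rw [dz, dz, h.fderiv_eq]

theorem db_const (k : Fin n) (c : ℂ) (w : En n) : db k (fun _ => c) w = 0 := by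
  simp [db]

theorem dbA_of {F : En n → ℂ} {w : En n} {L : En n →L[ℝ] ℂ} (k : Fin n)
    (h : HasFDerivAt F L w) :
    db k F w = (1 / 2) * (L (ee k) + Complex.I * L (Complex.I • ee k)) := by
  rw [db, h.fderiv]

theorem db_add {F G : En n → ℂ} {w : En n} (k : Fin n) (hF : DifferentiableAt ℝ F w)
    (hG : DifferentiableAt ℝ G w) : db k (fun y => F y + G y) w = db k F w + db k G w := by
  have h : HasFDerivAt (fun y => F y + G y) (fderiv ℝ F w + fderiv ℝ G w) w :=
    hF.hasFDerivAt.add hG.hasFDerivAt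
  rw [dbA_of k h, dbA_of k hF.hasFDerivAt, dbA_of k hG.hasFDerivAt]
  simp only [add_apply]
  ring

theorem db_sub {F G : En n → ℂ} {w : En n} (k : Fin n) (hF : DifferentiableAt ℝ F w)
    (hG : DifferentiableAt ℝ G w) : db k (fun y => F y - G y) w = db k F w - db k G w := by
  have h : HasFDerivAt (fun y => F y - G y) (fderiv ℝ F w - fderiv ℝ G w) w :=
    hF.hasFDerivAt.sub hG.hasFDerivAt
  rw [dbA_of k h, dbA_of k hF.hasFDerivAt, dbA_of k hG.hasFDerivAt]
  simp only [sub_apply]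
  ring

theorem db_neg {F : En n → ℂ} {w : En n} (k : Fin n) : db k (fun y => - F y) w = - db k F w := by
  have h : fderiv ℝ (fun y => - F y) w = - fderiv ℝ F w := fderiv_fun_neg
  rw [db, db, h]
  simp only [neg_apply]
  ring

theorem db_mul {F G : En n → ℂ} {w : En n} (k : Fin n) (hF : DifferentiableAt ℝ F w)
    (hG : DifferentiableAt ℝ G w) :
    db k (fun y => F y * G y) w = db k F w * G w + F w * db k G w := by
  have h : HasFDerivAt (fun y => F y * G y) (F w • fderiv ℝ G w + G w • fderiv ℝ F w) w :=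
    hF.hasFDerivAt.mul hG.hasFDerivAt
  rw [dbA_of k h, dbA_of k hF.hasFDerivAt, dbA_of k hG.hasFDerivAt]
  simp only [add_apply, smul_apply, smul_eq_mul]
  ring

theorem db_const_mul {F : En n → ℂ} {w : En n} (k : Fin n) (c : ℂ)
    (hF : DifferentiableAt ℝ F w) : db k (fun y => c * F y) w = c * db k F w := by
  rw [dbA_of k (hF.hasFDerivAt.const_mul c), dbA_of k hF.hasFDerivAt]
  simp only [smul_apply, smul_eq_mul]
  ring

theorem db_sum {ι : Type*} {s : Finset ι} {F : ι → En n → ℂ} {w : En n} (k : Fin n)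
    (hF : ∀ i ∈ s, DifferentiableAt ℝ (F i) w) :
    db k (fun y => ∑ i ∈ s, F i y) w = ∑ i ∈ s, db k (F i) w := by
  have h : HasFDerivAt (fun y => ∑ i ∈ s, F i y) (∑ i ∈ s, fderiv ℝ (F i) w) w :=
    HasFDerivAt.fun_sum fun i hi => (hF i hi).hasFDerivAt
  rw [dbA_of k h]
  simp only [db, sum_apply, Finset.mul_sum, ← Finset.sum_add_distrib]

theorem db_prod {ι : Type*} [DecidableEq ι] {s : Finset ι} {F : ι → En n → ℂ} {w : En n}
    (k : Fin n) (hF : ∀ i ∈ s, DifferentiableAt ℝ (F i) w) :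
    db k (fun y => ∏ i ∈ s, F i y) w = ∑ i ∈ s, (∏ j ∈ s.erase i, F j w) * db k (F i) w := by
  have key : DifferentiableAt ℝ (fun y => ∏ i ∈ s, F i y) w ∧
      db k (fun y => ∏ i ∈ s, F i y) w =
        ∑ i ∈ s, (∏ j ∈ s.erase i, F j w) * db k (F i) w := by
    induction s using Finset.induction_on with
    | empty =>
      simp only [Finset.prod_empty, Finset.sum_empty]
      exact ⟨differentiableAt_const _, db_const k 1 w⟩
    | insert a s ha ih =>
      have h1 : DifferentiableAt ℝ (F a) w := hF a (Finset.mem_insert_self a s)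
      obtain ⟨h3, h4⟩ := ih fun i hi => hF i (Finset.mem_insert_of_mem hi)
      simp only [Finset.prod_insert ha]
      refine ⟨h1.fun_mul h3, ?_⟩
      rw [db_mul k h1 h3, h4, Finset.sum_insert ha, Finset.erase_insert ha, Finset.mul_sum]
      congr 1
      · ring
      · refine Finset.sum_congr rfl fun i hi => ?_
        have hne : a ≠ i := fun h => ha (h ▸ hi)
        rw [Finset.erase_insert_of_ne hne,
          Finset.prod_insert (fun h => ha (Finset.mem_of_mem_erase h))]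
        ring
  exact key.2

/-- Chain rule with an outer function which is complex differentiable. -/
theorem db_comp {F : En n → ℂ} {w : En n} (k : Fin n) {φ : ℂ → ℂ} {φ' : ℂ}
    (hφ : HasDerivAt φ φ' (F w)) (hF : DifferentiableAt ℝ F w) :
    db k (fun y => φ (F y)) w = φ' * db k F w := by
  have h : HasFDerivAt (fun y => φ (F y)) (φ' • fderiv ℝ F w) w := by
    have h1 := (hφ.hasFDerivAt.restrictScalars ℝ).comp w hF.hasFDerivAt
    refine h1.congr_fderiv ?_
    ext v
    simp [mul_comm]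
  rw [dbA_of k h, dbA_of k hF.hasFDerivAt]
  simp only [smul_apply, smul_eq_mul]
  ring

/-- Chain rule with a real outer function of a real function. -/
theorem db_comp_real {F : En n → ℝ} {w : En n} (k : Fin n) {φ : ℝ → ℝ} {φ' : ℝ}
    (hφ : HasDerivAt φ φ' (F w)) (hF : DifferentiableAt ℝ F w) :
    db k (fun y => ((φ (F y) : ℝ) : ℂ)) w = (φ' : ℂ) * db k (fun y => (F y : ℂ)) w := by
  have h0 : HasFDerivAt (fun y => (F y : ℂ)) (Complex.ofRealCLM.comp (fderiv ℝ F w)) w :=
    Complex.ofRealCLM.hasFDerivAt.comp w hF.hasFDerivAt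
  have h1 : HasFDerivAt (fun y => ((φ (F y) : ℝ) : ℂ))
      (Complex.ofRealCLM.comp (φ' • fderiv ℝ F w)) w :=
    Complex.ofRealCLM.hasFDerivAt.comp w (hφ.comp_hasFDerivAt w hF.hasFDerivAt)
  rw [dbA_of k h1, dbA_of k h0]
  simp only [ContinuousLinearMap.comp_apply, smul_apply, smul_eq_mul,
    Complex.ofRealCLM_apply, Complex.ofReal_mul]
  ring

theorem db_holo {F : En n → ℂ} {w : En n} (k : Fin n) (hF : DifferentiableAt ℂ F w) :
    db k F w = 0 := by
  rw [dbA_of k (hF.hasFDerivAt.restrictScalars ℝ)]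
  simp only [ContinuousLinearMap.coe_restrictScalars', map_smul, smul_eq_mul]
  linear_combination (1 / 2) * (fderiv ℂ F w (ee k)) * Complex.I_mul_I

theorem db_coord (j k : Fin n) (z w : En n) : db k (fun y => y j - z j) w = 0 := by
  refine db_holo k ?_
  fun_prop

theorem db_conj_coord (j k : Fin n) (z w : En n) :
    db k (fun y => (starRingEnd ℂ) (y j - z j)) w = if j = k then 1 else 0 := by
  have h0 : HasFDerivAt (fun y : En n => y j - z j)
      ((EuclideanSpace.proj (𝕜 := ℂ) j : En n →L[ℂ] ℂ).restrictScalars ℝ) w :=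
    (((EuclideanSpace.proj (𝕜 := ℂ) j : En n →L[ℂ] ℂ).restrictScalars ℝ).hasFDerivAt).sub_const
      (z j)
  have h1 : HasFDerivAt (fun y : En n => (starRingEnd ℂ) (y j - z j))
      ((Complex.conjCLE : ℂ →L[ℝ] ℂ).comp
        ((EuclideanSpace.proj (𝕜 := ℂ) j : En n →L[ℂ] ℂ).restrictScalars ℝ)) w :=
    (Complex.conjCLE : ℂ →L[ℝ] ℂ).hasFDerivAt.comp w h0
  rw [dbA_of k h1]
  by_cases h : j = k
  · subst h
    simp
    norm_num
  · simp [h]

end Pool.Agent.MPca0fc2.CX
end

section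

/-!
Task CX DetB: rank one perturbations and the size of a determinant.
PROOFS: `det_add_rank_one`: multilinearity in the columns; two columns proportional to `u` give `0`.
For example: first prove for a finset `s` of columns: replacing the columns in `s` of `M` by
`M_b + c_b u` gives `det M + ∑_{b ∈ s} c_b det (M.updateCol b u)` by induction on `s` with
`Matrix.det_updateCol_add`, `det_updateCol_smul`; in the induction step the term with the column `a`
replaced by `u` does not see the other `c_b u` (subtract multiples of the column `a`: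
`Matrix.det_updateCol_add_smul_self` or a column equal argument `Matrix.det_zero_of_column_eq`).
(Alternatives: the matrix determinant lemma `Matrix.det_add_replicateCol_mul_replicateRow` with the
adjugate, `Matrix.cramer_apply`, and `Matrix.cramer` is linear: `c ⬝ᵥ adjugate M *ᵥ u =
∑ b, c b * cramer M u b`.)
`norm_det_le`: `Matrix.det_apply'`, triangle inequality, `Finset.prod_le_prod`,
`Fintype.card_perm`.
-/

set_option autoImplicit false

open Metric Set MeasureTheory Filter Topology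
open scoped ComplexOrder

namespace Pool.Agent.MPca0fc2.CX

variable {N : ℕ}

theorem detB_aux (M : Matrix (Fin N) (Fin N) ℂ) (u c : Fin N → ℂ) (s : Finset (Fin N)) :
    (Matrix.of fun a b => M a b + if b ∈ s then u a * c b else 0).det =
      M.det + ∑ b ∈ s, c b * (M.updateCol b u).det := by
  induction s using Finset.induction_on with
  | empty =>
    have h : (Matrix.of fun a b => M a b + if b ∈ (∅ : Finset (Fin N)) then u a * c b else 0) =
        M := by
      ext a b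
      rw [Matrix.of_apply, if_neg (Finset.notMem_empty b), add_zero]
    rw [h, Finset.sum_empty, add_zero]
  | insert k s hk ih =>
    rw [Finset.sum_insert hk]
    obtain ⟨A, hA⟩ : ∃ A : Matrix (Fin N) (Fin N) ℂ,
      A = Matrix.of fun a b => M a b + if b ∈ s then u a * c b else 0 := ⟨_, rfl⟩
    rw [← hA] at ih
    have h1 : (Matrix.of fun a b => M a b + if b ∈ insert k s then u a * c b else 0) =
        A.updateCol k (A.col k + c k • u) := by
      ext a b
      rw [Matrix.of_apply, Matrix.updateCol_apply]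
      by_cases hb : b = k
      · subst hb
        rw [if_pos (Finset.mem_insert_self _ _), if_pos rfl, Pi.add_apply, Matrix.col_apply,
          Pi.smul_apply, smul_eq_mul, hA, Matrix.of_apply, if_neg hk, add_zero, mul_comm]
      · rw [if_neg hb, hA, Matrix.of_apply]
        by_cases hs : b ∈ s
        · rw [if_pos hs, if_pos (Finset.mem_insert_of_mem hs)]
        · rw [if_neg hs, if_neg]
          intro h
          exact (Finset.mem_insert.1 h).elim hb hs
    have h2 : (A.updateCol k u).det = (M.updateCol k u).det := by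
      rw [← Matrix.det_transpose, ← Matrix.det_transpose (M.updateCol k u)]
      refine Matrix.det_eq_of_forall_row_eq_smul_add_const (fun b => if b ∈ s then c b else 0) k
        (if_neg hk) fun i j => ?_
      simp only [Matrix.transpose_apply, Matrix.updateCol_apply, if_true]
      by_cases hi : i = k
      · subst hi
        rw [if_pos rfl, if_pos rfl, if_neg hk, zero_mul, add_zero]
      · rw [if_neg hi, if_neg hi, hA, Matrix.of_apply]
        by_cases hs : i ∈ s
        · rw [if_pos hs, if_pos hs, mul_comm]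
        · rw [if_neg hs, if_neg hs, zero_mul]
    have h3 : A.updateCol k (A.col k) = A := by
      ext a b
      rw [Matrix.updateCol_apply]
      by_cases hb : b = k
      · subst hb
        rw [if_pos rfl, Matrix.col_apply]
      · rw [if_neg hb]
    rw [h1, Matrix.det_updateCol_add, Matrix.det_updateCol_smul, h2, h3, ih]
    ring

/-- Rank one perturbations. -/
theorem det_add_rank_one (M : Matrix (Fin N) (Fin N) ℂ) (u c : Fin N → ℂ) :
    (M + Matrix.of fun a b => u a * c b).det = M.det + ∑ b, c b * (M.updateCol b u).det := by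
  rw [← detB_aux]
  congr 1
  ext a b
  rw [Matrix.add_apply, Matrix.of_apply, Matrix.of_apply, if_pos (Finset.mem_univ b)]

/-- The size of a determinant. -/
theorem norm_det_le {M : Matrix (Fin N) (Fin N) ℂ} {K : ℝ} (hK : 0 ≤ K) (h : ∀ i j, ‖M i j‖ ≤ K) :
    ‖M.det‖ ≤ N.factorial * K ^ N := by
  have h1 := Matrix.det_le (A := M) (abv := NormedField.toAbsoluteValue ℂ) (x := K) h
  rw [Fintype.card_fin, nsmul_eq_mul] at h1
  exact h1

end Pool.Agent.MPca0fc2.CX
end

section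

/-!
Task CX AlgA: Cramer's rule.
PROOF: `Matrix.mulVec_cramer (cm θ v) η : cm θ v *ᵥ cramer (cm θ v) η = det • η`, take the product
with `x` (i.e. `∑ a, (·) a * x a`), exchange the sums, `Fin.sum_univ_succ`, `Matrix.cramer_apply`.
-/

set_option autoImplicit false

open Metric Set MeasureTheory Filter Topology
open scoped ComplexOrder

namespace Pool.Agent.MPca0fc2.CX

/-- The matrix with the columns `θ, v₁, ..., vₙ`. -/
def cm {n : ℕ} (θ : Fin (n + 1) → ℂ) (v : Fin n → Fin (n + 1) → ℂ) :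
    Matrix (Fin (n + 1)) (Fin (n + 1)) ℂ :=
  Matrix.of fun a b => Fin.cases (θ a) (fun k => v k a) b

/-- Cramer's rule in the form in which it is used. -/
theorem cramer_id {n : ℕ} (θ η x : Fin (n + 1) → ℂ) (v : Fin n → Fin (n + 1) → ℂ) :
    (∑ a, η a * x a) * (cm θ v).det = (∑ a, θ a * x a) * ((cm θ v).updateCol 0 η).det +
      ∑ k, (∑ a, v k a * x a) * ((cm θ v).updateCol k.succ η).det := by
  have h := Matrix.mulVec_cramer (cm θ v) η
  have h1 : ∀ a, ∑ b, cm θ v a b * ((cm θ v).updateCol b η).det = (cm θ v).det * η a := by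
    intro a
    have h2 := congrFun h a
    simp only [Matrix.mulVec, dotProduct, Matrix.cramer_apply, Pi.smul_apply, smul_eq_mul] at h2
    exact h2
  have h3 : (∑ a, η a * x a) * (cm θ v).det =
      ∑ b, (∑ a, cm θ v a b * x a) * ((cm θ v).updateCol b η).det := by
    calc (∑ a, η a * x a) * (cm θ v).det = ∑ a, ((cm θ v).det * η a) * x a := by
          rw [Finset.sum_mul]
          exact Finset.sum_congr rfl fun a _ => by ring
      _ = ∑ a, ∑ b, cm θ v a b * ((cm θ v).updateCol b η).det * x a := by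
          refine Finset.sum_congr rfl fun a _ => ?_
          rw [← h1 a, Finset.sum_mul]
      _ = ∑ b, ∑ a, cm θ v a b * ((cm θ v).updateCol b η).det * x a := Finset.sum_comm
      _ = ∑ b, (∑ a, cm θ v a b * x a) * ((cm θ v).updateCol b η).det := by
          refine Finset.sum_congr rfl fun b _ => ?_
          rw [Finset.sum_mul]
          exact Finset.sum_congr rfl fun a _ => by ring
  rw [h3, Fin.sum_univ_succ]
  rfl

end Pool.Agent.MPca0fc2.CX
end

section

/-!
Task CX AlgB: the algebraic identity of the homotopy formula.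
PROOF. Write `M = m + n + 1`, `Λ y = φ' y_0 / A^M - M φ (y·x) / A^(M+1)` (linear in `y`), `f = φ / A^M`,
`D = det (cm θ v)`, `D0 = det (updateCol 0 η)`, `D_k = det (updateCol k.succ η)`.
(1) `Λ θ = -(n+1) f` because `θ_0 φ' = m φ` and `θ·x = A`.
(2) Cramer (`cramer_id` used for the two functionals `y ↦ y·x` and `y ↦ y_0`, the latter is
`cramer_id` with `x = Pi.single 0 1`): `Λ η D = Λ θ D0 + ∑ k, Λ (v k) D_k`.
(3) In the right side the term `b = 0`: `(M.updateCol k.succ η).updateCol 0 (v k)` has the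
determinant `-D0`: it is obtained from `updateCol 0 η` by exchanging the columns `0` and `k.succ`
(`Matrix.det_permute'` with `Equiv.swap`, or: the determinant with both columns equal to `η + v k` is
`0`). The sum over `k` gives `-n D0`.
(4) the term `b = k.succ`: `updateCol` twice at the same column is `updateCol k.succ (u k)`.
(5) the terms `b = l.succ`, `l ≠ k`, cancel in pairs: `(k,l)` and `(l,k)` differ by the exchange of
the columns `k.succ` and `l.succ` since `S k l = S l k`; use `Finset.sum_involution` or: the double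
sum `T` satisfies `T = -T`.
(6) Sum up: the left side is `Λ η D + f D0 + f ∑_k det (updateCol k.succ (u k))`, and the right side
is `∑_k Λ (v k) D_k - n f D0 + f ∑_k det (updateCol k.succ (u k))`; the difference is
`Λ θ D0 + (n + 1) f D0 = 0`.
-/

set_option autoImplicit false

open Metric Set MeasureTheory Filter Topology
open scoped ComplexOrder

namespace Pool.Agent.MPca0fc2.CX

/-- exchange of two columns -/
theorem algB_swap {N : ℕ} (M : Matrix (Fin N) (Fin N) ℂ) (i j : Fin N) (hij : i ≠ j)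
    (a b : Fin N → ℂ) :
    ((M.updateCol i a).updateCol j b).det = -((M.updateCol i b).updateCol j a).det := by
  have h : (M.updateCol i a).updateCol j b =
      ((M.updateCol i b).updateCol j a).submatrix id (Equiv.swap i j) := by
    ext r c
    rw [Matrix.submatrix_apply, id]
    by_cases hcj : c = j
    · subst hcj
      rw [Matrix.updateCol_self, Equiv.swap_apply_right, Matrix.updateCol_ne hij,
        Matrix.updateCol_self]
    · by_cases hci : c = i
      · subst hci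
        rw [Matrix.updateCol_ne hij, Matrix.updateCol_self, Equiv.swap_apply_left,
          Matrix.updateCol_self]
      · rw [Equiv.swap_apply_of_ne_of_ne hci hcj, Matrix.updateCol_ne hcj, Matrix.updateCol_ne hci,
          Matrix.updateCol_ne hcj, Matrix.updateCol_ne hci]
  rw [h, Matrix.det_permute', Equiv.Perm.sign_swap hij]
  simp

/-- the terms which cancel in pairs -/
theorem algB_pairs {n : ℕ} (T : Fin n → Fin n → ℂ) (hT : ∀ k l, T k l = -T l k) :
    ∑ k, ∑ l, T k l = 0 := by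
  have h : ∑ k, ∑ l, T k l = -∑ k, ∑ l, T k l := by
    calc ∑ k, ∑ l, T k l = ∑ k, ∑ l, -T l k :=
          Finset.sum_congr rfl fun k _ => Finset.sum_congr rfl fun l _ => hT k l
      _ = -∑ k, ∑ l, T l k := by
          rw [← Finset.sum_neg_distrib]
          exact Finset.sum_congr rfl fun k _ => Finset.sum_neg_distrib _
      _ = -∑ k, ∑ l, T k l := by rw [Finset.sum_comm]
  have h2 : (2 : ℂ) * ∑ k, ∑ l, T k l = 0 := by linear_combination h
  rcases mul_eq_zero.1 h2 with h3 | h3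
  · norm_num at h3
  · exact h3

/-- Cramer's rule for the first coordinate. -/
theorem algB_first {n : ℕ} (θ η : Fin (n + 1) → ℂ) (v : Fin n → Fin (n + 1) → ℂ) :
    η 0 * (cm θ v).det = θ 0 * ((cm θ v).updateCol 0 η).det +
      ∑ k, v k 0 * ((cm θ v).updateCol k.succ η).det := by
  have h := cramer_id θ η (Pi.single 0 1) v
  have h1 : ∀ y : Fin (n + 1) → ℂ, ∑ a, y a * (Pi.single 0 1 : Fin (n + 1) → ℂ) a = y 0 := by
    intro y
    rw [Finset.sum_eq_single (0 : Fin (n + 1))]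
    · simp
    · intro b _ hb
      rw [Pi.single_eq_of_ne hb, mul_zero]
    · simp
  simp only [h1] at h
  exact h

/-- The identity: `φ` is the value of `(θ₀)₊ ^ m`, `φ'` of its derivative, `A = θ · x`, `M = m+n+1`.
The left side is the derivative of `φ A ^ (-M) det (θ | v)` in the direction `θ' = η`, `v' = u`; the
right side is the sum over `k` of the derivatives of `φ A ^ (-M) det (θ | .. η at k ..)` in the
directions `∂̄_k`, where `∂̄_k θ = v_k`, `∂̄_k η = u_k`, `∂̄_k v_l = S_kl`. -/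
theorem hom_id {n m : ℕ} (θ η x : Fin (n + 1) → ℂ) (v u : Fin n → Fin (n + 1) → ℂ)
    (S : Fin n → Fin n → Fin (n + 1) → ℂ) (hS : ∀ k l, S k l = S l k) (φ φ' A : ℂ)
    (hφ : θ 0 * φ' = m * φ) (hA : A = ∑ a, θ a * x a) (hA0 : A ≠ 0) :
    (φ' * η 0 / A ^ (m + n + 1) -
        (m + n + 1 : ℕ) * φ * (∑ a, η a * x a) / A ^ (m + n + 2)) * (cm θ v).det +
      φ / A ^ (m + n + 1) *
        ∑ b, ((cm θ v).updateCol b (Fin.cases η u b)).det =
    ∑ k, ((φ' * v k 0 / A ^ (m + n + 1) -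
        (m + n + 1 : ℕ) * φ * (∑ a, v k a * x a) / A ^ (m + n + 2)) *
          ((cm θ v).updateCol k.succ η).det +
      φ / A ^ (m + n + 1) *
        ∑ b, (((cm θ v).updateCol k.succ η).updateCol b
          (Fin.cases (v k) (fun l => if l = k then u k else S k l) b)).det) := by
  -- the terms `b = 0`
  have hb0 : ∀ k : Fin n, (((cm θ v).updateCol k.succ η).updateCol 0 (v k)).det =
      -((cm θ v).updateCol 0 η).det := by
    intro k
    have h1 : ((cm θ v).updateCol k.succ (v k)) = cm θ v := by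
      ext r c
      by_cases hc : c = k.succ
      · subst hc
        rw [Matrix.updateCol_self]
        rfl
      · rw [Matrix.updateCol_ne hc]
    rw [algB_swap _ _ _ (Fin.succ_ne_zero k), h1]
  -- the other terms
  have hbk : ∀ k : Fin n, (((cm θ v).updateCol k.succ η).updateCol k.succ (u k)).det =
      ((cm θ v).updateCol k.succ (u k)).det := by
    intro k
    rw [Matrix.updateCol_idem]
  let T : Fin n → Fin n → ℂ := fun k l =>
    if l = k then 0 else (((cm θ v).updateCol k.succ η).updateCol l.succ (S k l)).det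
  have hT : ∀ k l, T k l = -T l k := by
    intro k l
    by_cases hkl : l = k
    · subst hkl
      simp [T]
    · have hlk : ¬ k = l := fun h => hkl h.symm
      simp only [T, if_neg hkl, if_neg hlk]
      have hne : k.succ ≠ l.succ := fun h => hlk (Fin.succ_injective n h)
      rw [algB_swap _ _ _ hne, Matrix.updateCol_comm _ hne, hS k l]
  have hTT := algB_pairs T hT
  have hsum : ∀ k : Fin n, ∑ b, (((cm θ v).updateCol k.succ η).updateCol b
      (Fin.cases (v k) (fun l => if l = k then u k else S k l) b)).det =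
      -((cm θ v).updateCol 0 η).det + ((cm θ v).updateCol k.succ (u k)).det + ∑ l, T k l := by
    intro k
    rw [Fin.sum_univ_succ]
    simp only [Fin.cases_zero, Fin.cases_succ]
    rw [hb0 k, add_assoc]
    congr 1
    have h2 : ∀ l : Fin n, (((cm θ v).updateCol k.succ η).updateCol l.succ
        (if l = k then u k else S k l)).det =
        (if l = k then ((cm θ v).updateCol k.succ (u k)).det else 0) + T k l := by
      intro l
      by_cases hlk : l = k
      · subst hlk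
        simp only [T, if_true]
        rw [hbk, add_zero]
      · simp only [T, if_neg hlk]
        rw [zero_add]
    rw [Finset.sum_congr rfl fun l _ => h2 l, Finset.sum_add_distrib, Finset.sum_ite_eq' Finset.univ k]
    simp
  have hL : ∑ b, ((cm θ v).updateCol b (Fin.cases η u b)).det =
      ((cm θ v).updateCol 0 η).det + ∑ k, ((cm θ v).updateCol k.succ (u k)).det := by
    rw [Fin.sum_univ_succ]
    simp only [Fin.cases_zero, Fin.cases_succ]
  have hc1 := cramer_id θ η x v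
  have hc2 := algB_first θ η v
  rw [← hA] at hc1
  rw [hL]
  simp only [hsum]
  generalize hD : (cm θ v).det = D at *
  generalize hD0 : ((cm θ v).updateCol 0 η).det = D0 at *
  have hR : ∑ k : Fin n, ((φ' * v k 0 / A ^ (m + n + 1) -
        (m + n + 1 : ℕ) * φ * (∑ a, v k a * x a) / A ^ (m + n + 2)) *
          ((cm θ v).updateCol k.succ η).det +
      φ / A ^ (m + n + 1) * (-D0 + ((cm θ v).updateCol k.succ (u k)).det + ∑ l, T k l)) =
      φ' / A ^ (m + n + 1) * (∑ k, v k 0 * ((cm θ v).updateCol k.succ η).det) -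
        (m + n + 1 : ℕ) * φ / A ^ (m + n + 2) *
          (∑ k, (∑ a, v k a * x a) * ((cm θ v).updateCol k.succ η).det) +
      φ / A ^ (m + n + 1) * (-(n * D0) + ∑ k, ((cm θ v).updateCol k.succ (u k)).det +
        ∑ k, ∑ l, T k l) := by
    have e0 : ∑ k : Fin n, (-D0) = -(n * D0) := by
      rw [Finset.sum_const, Finset.card_univ, Fintype.card_fin, nsmul_eq_mul]
      ring
    rw [← e0, ← Finset.sum_add_distrib, ← Finset.sum_add_distrib, Finset.mul_sum, Finset.mul_sum,
      Finset.mul_sum, ← Finset.sum_sub_distrib, ← Finset.sum_add_distrib]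
    exact Finset.sum_congr rfl fun k _ => by ring
  rw [hR, hTT]
  have e1 : ∑ k, v k 0 * ((cm θ v).updateCol k.succ η).det = η 0 * D - θ 0 * D0 := by
    rw [hc2]
    ring
  have e2 : ∑ k, (∑ a, v k a * x a) * ((cm θ v).updateCol k.succ η).det =
      (∑ a, η a * x a) * D - A * D0 := by
    rw [hc1]
    ring
  rw [e1, e2]
  have e3 : φ' / A ^ (m + n + 1) * (θ 0 * D0) = m * φ / A ^ (m + n + 1) * D0 := by
    rw [← hφ]
    ring
  have e4 : (m + n + 1 : ℕ) * φ / A ^ (m + n + 2) * (A * D0) =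
      (m + n + 1 : ℕ) * φ / A ^ (m + n + 1) * D0 := by
    have hA2 : A ^ (m + n + 2) = A ^ (m + n + 1) * A := pow_succ A (m + n + 1)
    have hA1 : A ^ (m + n + 1) ≠ 0 := pow_ne_zero _ hA0
    rw [hA2]
    field_simp
  have e5 : ((m + n + 1 : ℕ) : ℂ) = m + n + 1 := by push_cast; ring
  rw [mul_sub, mul_sub, e3, e4, e5]
  ring

end Pool.Agent.MPca0fc2.CX
end

section

/-!
Task CX VolA: negative powers of a function with small sublevel sets.
PROOFS. Layer cake (`lintegral_rpow_eq_lintegral_meas_lt_mul` or `lintegral_eq_lintegral_meas_lt`,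
see the proof of `kernel_low` in the Lib file `SLCut`). First: with `p = k - s > 0`,
`∫ a^(-p) = ∫_0^∞ μ {a^(-p) > u} du ≤ ∫_0^1 μ(X) du + ∫_1^∞ V u^(-k/p) du = μ(X) + V / (k/p - 1) =
μ(X) + V p / s` since `{a^(-p) > u} ⊆ {a < u^(-1/p)}` (up to a null set). Second: with `p = k + s`, on
`{R ≤ a}` we have `a^(-p) ≤ R^(-p)`, so `∫ = ∫_0^{R^(-p)} μ {..> u} du ≤ ∫_0^{R^(-p)} V u^(-k/p) du =
V (p/s) R^(-s)`. (A dyadic decomposition with a worse constant would also do; but then change the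
constants in the statement and tell helper15; in the applications only the powers matter.)
-/

set_option autoImplicit false

open Metric Set MeasureTheory Filter Topology
open scoped ComplexOrder

namespace Pool.Agent.MPca0fc2.CX

/-- Pointwise comparison of sublevel sets. -/
theorem volA_aux1 {y t p : ℝ} (hy : 0 < y) (ht : 0 < t) (hp : 0 < p) (h : t < y ^ (-p)) :
    y < t ^ (-(1 / p)) := by
  have h1 : (y ^ (-p)) ^ (-(1 / p)) < t ^ (-(1 / p)) :=
    Real.rpow_lt_rpow_of_neg ht h (by have := one_div_pos.2 hp; linarith)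
  rw [← Real.rpow_mul hy.le] at h1
  have h2 : -p * -(1 / p) = 1 := by field_simp
  rwa [h2, Real.rpow_one] at h1

/-- Negative powers of a function with small sublevel sets: the integrable case. -/
theorem neg_moment {X : Type*} [MeasurableSpace X] {μ : Measure X} [IsFiniteMeasure μ] {a : X → ℝ}
    (ha : AEMeasurable a μ) (ha0 : ∀ᵐ x ∂μ, 0 < a x) {k V s : ℝ} (hs : 0 < s) (hsk : s < k)
    (hV0 : 0 ≤ V) (hV : ∀ R : ℝ, 0 < R → μ.real {x | a x < R} ≤ V * R ^ k) :
    Integrable (fun x => (a x) ^ (-(k - s))) μ ∧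
      ∫ x, (a x) ^ (-(k - s)) ∂μ ≤ μ.real univ + V * (k - s) / s := by
  obtain ⟨p, hp⟩ : ∃ p, p = k - s := ⟨_, rfl⟩
  rw [← hp]
  have hp0 : 0 < p := by rw [hp]; linarith
  have hk : 0 < k := by linarith
  have hkp : -(k / p) < -1 := by
    have : 1 < k / p := by rw [one_lt_div hp0]; rw [hp]; linarith
    linarith
  have hm : AEMeasurable (fun x => (a x) ^ (-p)) μ := ha.pow_const _
  have hnn : 0 ≤ᵐ[μ] fun x => (a x) ^ (-p) := by
    filter_upwards [ha0] with x hx using Real.rpow_nonneg hx.le _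
  have hle : ∀ t : ℝ, 0 < t → μ {x | t < (a x) ^ (-p)} ≤ ENNReal.ofReal (V * t ^ (-(k / p))) := by
    intro t ht
    have h1 : μ {x | t < (a x) ^ (-p)} ≤ μ {x | a x < t ^ (-(1 / p))} := by
      apply measure_mono_ae
      filter_upwards [ha0] with x hx h
      exact volA_aux1 hx ht hp0 h
    refine h1.trans ?_
    have h2 := hV (t ^ (-(1 / p))) (Real.rpow_pos_of_pos ht _)
    rw [← Real.rpow_mul ht.le] at h2
    have h3 : -(1 / p) * k = -(k / p) := by ring
    rw [h3] at h2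
    rw [← ofReal_measureReal]
    exact ENNReal.ofReal_le_ofReal h2
  have hI1 : IntegrableOn (fun t : ℝ => V * t ^ (-(k / p))) (Ioi 1) :=
    (integrableOn_Ioi_rpow_of_lt hkp one_pos).const_mul V
  have key : ∫⁻ x, ENNReal.ofReal ((a x) ^ (-p)) ∂μ ≤
      ENNReal.ofReal (μ.real univ + V * p / s) := by
    rw [lintegral_eq_lintegral_meas_lt μ hnn hm]
    have hsplit : Ioi (0 : ℝ) = Ioc 0 1 ∪ Ioi 1 := (Ioc_union_Ioi_eq_Ioi zero_le_one).symm
    rw [hsplit]
    refine (lintegral_union_le _ _ _).trans ?_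
    rw [ENNReal.ofReal_add measureReal_nonneg (by positivity)]
    refine add_le_add ?_ ?_
    · calc ∫⁻ t in Ioc (0 : ℝ) 1, μ {x | t < (a x) ^ (-p)} ≤ ∫⁻ _t in Ioc (0 : ℝ) 1, μ univ :=
            lintegral_mono fun t => measure_mono (subset_univ _)
        _ = μ univ := by simp
        _ = ENNReal.ofReal (μ.real univ) := by rw [ofReal_measureReal]
        _ ≤ _ := le_rfl
    · calc ∫⁻ t in Ioi (1 : ℝ), μ {x | t < (a x) ^ (-p)}
          ≤ ∫⁻ t in Ioi (1 : ℝ), ENNReal.ofReal (V * t ^ (-(k / p))) := by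
            refine setLIntegral_mono' measurableSet_Ioi fun t ht => hle t ?_
            exact lt_trans one_pos ht
        _ = ENNReal.ofReal (∫ t in Ioi (1 : ℝ), V * t ^ (-(k / p))) := by
            rw [ofReal_integral_eq_lintegral_ofReal hI1]
            filter_upwards [ae_restrict_mem measurableSet_Ioi] with t ht
            exact mul_nonneg hV0 (Real.rpow_nonneg (le_trans zero_le_one (le_of_lt ht)) _)
        _ = ENNReal.ofReal (V * p / s) := by
            rw [integral_const_mul, integral_Ioi_rpow_of_lt hkp one_pos, Real.one_rpow]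
            congr 1
            have h4 : -(k / p) + 1 = -(s / p) := by
              have hks : k = p + s := by linarith
              rw [hks]
              field_simp
              ring
            rw [h4]
            field_simp
        _ ≤ _ := le_rfl
  refine ⟨⟨hm.aestronglyMeasurable, ?_⟩, ?_⟩
  · rw [hasFiniteIntegral_iff_ofReal hnn]
    exact key.trans_lt ENNReal.ofReal_lt_top
  · rw [integral_eq_lintegral_of_nonneg_ae hnn hm.aestronglyMeasurable]
    have h0 : 0 ≤ μ.real univ + V * p / s := by positivity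
    exact ENNReal.toReal_le_of_le_ofReal h0 key

/-- Negative powers of a function with small sublevel sets: the non-integrable case. -/
theorem neg_moment_far {X : Type*} [MeasurableSpace X] {μ : Measure X} [IsFiniteMeasure μ]
    {a : X → ℝ} (ha : AEMeasurable a μ) {k V s : ℝ} (hs : 0 < s) (hk : 0 < k)
    (hV0 : 0 ≤ V) (hV : ∀ R : ℝ, 0 < R → μ.real {x | a x < R} ≤ V * R ^ k) {R : ℝ} (hR : 0 < R) :
    ∫ x in {x | R ≤ a x}, (a x) ^ (-(k + s)) ∂μ ≤ V * (k + s) / s * R ^ (-s) := by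
  obtain ⟨p, hp⟩ : ∃ p, p = k + s := ⟨_, rfl⟩
  rw [← hp]
  have hp0 : 0 < p := by rw [hp]; linarith
  have hkp : -1 < -(k / p) := by
    have : k / p < 1 := by rw [div_lt_one hp0]; rw [hp]; linarith
    linarith
  have hnull : NullMeasurableSet {x | R ≤ a x} μ := nullMeasurableSet_le aemeasurable_const ha
  have hmem : ∀ᵐ x ∂(μ.restrict {x | R ≤ a x}), R ≤ a x := ae_restrict_mem₀ hnull
  have hm : AEMeasurable (fun x => (a x) ^ (-p)) (μ.restrict {x | R ≤ a x}) :=
    (ha.mono_measure Measure.restrict_le_self).pow_const _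
  have hnn : 0 ≤ᵐ[μ.restrict {x | R ≤ a x}] fun x => (a x) ^ (-p) := by
    filter_upwards [hmem] with x hx using Real.rpow_nonneg (hR.le.trans hx) _
  have hle : ∀ t : ℝ, 0 < t → (μ.restrict {x | R ≤ a x}) {x | t < (a x) ^ (-p)} ≤
      ENNReal.ofReal (V * t ^ (-(k / p))) := by
    intro t ht
    have h1 : (μ.restrict {x | R ≤ a x}) {x | t < (a x) ^ (-p)} ≤
        (μ.restrict {x | R ≤ a x}) {x | a x < t ^ (-(1 / p))} := by
      apply measure_mono_ae
      filter_upwards [hmem] with x hx h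
      exact volA_aux1 (hR.trans_le hx) ht hp0 h
    refine (h1.trans (Measure.restrict_apply_le _ _)).trans ?_
    have h2 := hV (t ^ (-(1 / p))) (Real.rpow_pos_of_pos ht _)
    rw [← Real.rpow_mul ht.le] at h2
    have h3 : -(1 / p) * k = -(k / p) := by ring
    rw [h3] at h2
    rw [← ofReal_measureReal]
    exact ENNReal.ofReal_le_ofReal h2
  have hz : ∀ t : ℝ, R ^ (-p) < t → (μ.restrict {x | R ≤ a x}) {x | t < (a x) ^ (-p)} = 0 := by
    intro t ht
    rw [← nonpos_iff_eq_zero, ← measure_empty (μ := μ.restrict {x | R ≤ a x})]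
    apply measure_mono_ae
    filter_upwards [hmem] with x hx h
    exfalso
    have h1 : (a x) ^ (-p) ≤ R ^ (-p) :=
      Real.rpow_le_rpow_of_nonpos hR hx (by linarith)
    have h2 : t < (a x) ^ (-p) := h
    linarith
  have hRp : 0 < R ^ (-p) := Real.rpow_pos_of_pos hR _
  have hI1 : IntegrableOn (fun t : ℝ => V * t ^ (-(k / p))) (Ioc 0 (R ^ (-p))) := by
    have h5 := (intervalIntegral.intervalIntegrable_rpow' (a := 0) (b := R ^ (-p)) hkp).const_mul V
    rwa [intervalIntegrable_iff_integrableOn_Ioc_of_le hRp.le] at h5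
  have key : ∫⁻ x, ENNReal.ofReal ((a x) ^ (-p)) ∂(μ.restrict {x | R ≤ a x}) ≤
      ENNReal.ofReal (V * p / s * R ^ (-s)) := by
    rw [lintegral_eq_lintegral_meas_lt _ hnn hm]
    have hsplit : Ioi (0 : ℝ) = Ioc 0 (R ^ (-p)) ∪ Ioi (R ^ (-p)) :=
      (Ioc_union_Ioi_eq_Ioi hRp.le).symm
    rw [hsplit]
    refine (lintegral_union_le _ _ _).trans ?_
    have hfar : ∫⁻ t in Ioi (R ^ (-p)), (μ.restrict {x | R ≤ a x}) {x | t < (a x) ^ (-p)} = 0 := by
      rw [setLIntegral_congr_fun measurableSet_Ioi (g := fun _ => 0) fun t ht => hz t ht]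
      simp
    rw [hfar, add_zero]
    calc ∫⁻ t in Ioc 0 (R ^ (-p)), (μ.restrict {x | R ≤ a x}) {x | t < (a x) ^ (-p)}
        ≤ ∫⁻ t in Ioc 0 (R ^ (-p)), ENNReal.ofReal (V * t ^ (-(k / p))) :=
          setLIntegral_mono' measurableSet_Ioc fun t ht => hle t ht.1
      _ = ENNReal.ofReal (∫ t in Ioc 0 (R ^ (-p)), V * t ^ (-(k / p))) := by
          rw [ofReal_integral_eq_lintegral_ofReal hI1]
          filter_upwards [ae_restrict_mem measurableSet_Ioc] with t ht
          exact mul_nonneg hV0 (Real.rpow_nonneg ht.1.le _)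
      _ = ENNReal.ofReal (V * p / s * R ^ (-s)) := by
          rw [integral_const_mul, ← intervalIntegral.integral_of_le hRp.le,
            integral_rpow (Or.inl hkp)]
          have h4 : -(k / p) + 1 = s / p := by rw [hp]; field_simp; ring
          rw [h4, Real.zero_rpow (by positivity), sub_zero, ← Real.rpow_mul hR.le]
          have h6 : -p * (s / p) = -s := by field_simp
          rw [h6]
          congr 1
          field_simp
      _ ≤ _ := le_rfl
  rw [integral_eq_lintegral_of_nonneg_ae hnn hm.aestronglyMeasurable]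
  have h0 : 0 ≤ V * p / s * R ^ (-s) := by positivity
  exact ENNReal.toReal_le_of_le_ofReal h0 key

end Pool.Agent.MPca0fc2.CX
end

section

/-!
Task CX VolB: the volume of a slab.
PROOF. Translate to `z = 0`. Choose `j` with `‖a j‖² ≥ c² / n` (pigeonhole). The set is contained in
`{w : ‖w i‖ ≤ s for i ≠ j, ‖w j + ∑_{i ≠ j} (a i / a j) w i‖ ≤ r / ‖a j‖}`. By Fubini in the coordinate
`j` (`EuclideanSpace.volume_preserving_..`, `MeasureTheory.volume_preserving_piFinSuccAbove` or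
`measurePreserving_piFinSuccAbove` after reordering; or use that the shear map
`w ↦ w + (∑_{i≠j} (a i/a j) w i) e_j` is linear with determinant `1`, so it preserves the volume, and the
image is in a product of discs) the volume is `≤ (π s²)^(n-1) π (r/‖a j‖)² ≤ n π^n s^(2n-2) (r/c)²`.
-/

set_option autoImplicit false

open Metric Set MeasureTheory Filter Topology
open scoped ComplexOrder

namespace Pool.Agent.MPca0fc2.CX

/-- split off the coordinate `j` -/
noncomputable def volB_iso (m : ℕ) (j : Fin (m + 1)) : WithLp 2 (ℂ × En m) ≃ₗᵢ[ℝ] En (m + 1) where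
  toFun p := WithLp.toLp 2 (j.insertNth p.fst fun i => p.snd i)
  invFun w := WithLp.toLp 2 (w j, WithLp.toLp 2 fun i => w (j.succAbove i))
  left_inv p := by
    refine WithLp.ofLp_injective 2 (Prod.ext ?_ ?_)
    · simp
    · ext i
      simp
  right_inv w := by
    ext i
    refine Fin.succAboveCases j ?_ (fun k => ?_) i
    · simp
    · simp
  map_add' p q := by
    ext i
    refine Fin.succAboveCases j ?_ (fun k => ?_) i
    · simp
    · simp
  map_smul' t p := by
    ext i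
    refine Fin.succAboveCases j ?_ (fun k => ?_) i
    · simp
    · simp
  norm_map' p := by
    have h1 : ‖(WithLp.toLp 2 (j.insertNth p.fst fun i => p.snd i) : En (m + 1))‖ ^ 2
        = ‖p‖ ^ 2 := by
      rw [EuclideanSpace.norm_sq_eq, Fin.sum_univ_succAbove _ j, WithLp.prod_norm_sq_eq_of_L2,
        EuclideanSpace.norm_sq_eq]
      simp
    have h2 := (sq_eq_sq₀ (norm_nonneg _) (norm_nonneg _)).1 h1
    exact h2

theorem volB_iso_same {m : ℕ} (j : Fin (m + 1)) (p : WithLp 2 (ℂ × En m)) :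
    volB_iso m j p j = p.fst := by
  show (j.insertNth p.fst fun i => p.snd i : Fin (m + 1) → ℂ) j = p.fst
  simp

theorem volB_iso_ne {m : ℕ} (j : Fin (m + 1)) (p : WithLp 2 (ℂ × En m)) (i : Fin m) :
    volB_iso m j p (j.succAbove i) = p.snd i := by
  show (j.insertNth p.fst fun i => p.snd i : Fin (m + 1) → ℂ) (j.succAbove i) = p.snd i
  simp

theorem volB_prod {m : ℕ} {α : ℂ} (hα : α ≠ 0) {h : En m → ℂ} (hh : Continuous h) {r s : ℝ}
    (hr : 0 < r) (hs : 0 < s) :
    volume {p : ℂ × En m | ‖p.2‖ ≤ s ∧ ‖α * p.1 + h p.2‖ ≤ r} ≤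
      ENNReal.ofReal (Real.pi * (r / ‖α‖) ^ 2 * (Real.pi ^ m * s ^ (2 * m))) := by
  have hα0 : 0 < ‖α‖ := norm_pos_iff.2 hα
  have hcl : IsClosed {p : ℂ × En m | ‖p.2‖ ≤ s ∧ ‖α * p.1 + h p.2‖ ≤ r} := by
    refine IsClosed.inter ?_ ?_
    · exact isClosed_le continuous_snd.norm continuous_const
    · exact isClosed_le (((continuous_const.mul continuous_fst).add
        (hh.comp continuous_snd)).norm) continuous_const
  rw [Measure.volume_eq_prod, Measure.prod_apply_symm hcl.measurableSet]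
  have hsec : ∀ y : En m, volume ((fun x => (x, y)) ⁻¹'
      {p : ℂ × En m | ‖p.2‖ ≤ s ∧ ‖α * p.1 + h p.2‖ ≤ r}) ≤
      (closedBall (0 : En m) s).indicator
        (fun _ => ENNReal.ofReal (Real.pi * (r / ‖α‖) ^ 2)) y := by
    intro y
    by_cases hy : y ∈ closedBall (0 : En m) s
    · rw [indicator_of_mem hy]
      have hsub : ((fun x => (x, y)) ⁻¹' {p : ℂ × En m | ‖p.2‖ ≤ s ∧ ‖α * p.1 + h p.2‖ ≤ r})
          ⊆ closedBall (-(h y / α)) (r / ‖α‖) := by
        intro x hx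
        have hx2 : ‖α * x + h y‖ ≤ r := hx.2
        rw [mem_closedBall, dist_eq_norm, le_div_iff₀ hα0, ← norm_mul]
        have : (x - -(h y / α)) * α = α * x + h y := by
          field_simp
          ring
        rw [this]
        exact hx2
      refine (measure_mono hsub).trans (le_of_eq ?_)
      rw [Complex.volume_closedBall, mul_comm, ENNReal.ofReal_mul Real.pi_pos.le,
        ENNReal.ofReal_pow (by positivity)]
      congr 1
      rw [← NNReal.coe_real_pi, ENNReal.ofReal_coe_nnreal]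
    · rw [indicator_of_notMem hy]
      have : ((fun x => (x, y)) ⁻¹' {p : ℂ × En m | ‖p.2‖ ≤ s ∧ ‖α * p.1 + h p.2‖ ≤ r}) = ∅ := by
        ext x
        simp only [mem_preimage, mem_ofPred_eq, mem_empty_iff_false, iff_false, not_and]
        intro hx
        exact absurd (by simpa using hx) hy
      rw [this, measure_empty]
  refine (lintegral_mono hsec).trans ?_
  rw [lintegral_indicator isClosed_closedBall.measurableSet, lintegral_const,
    Measure.restrict_apply_univ]
  rw [ENNReal.ofReal_mul (p := Real.pi * (r / ‖α‖) ^ 2) (by positivity)]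
  refine mul_le_mul' le_rfl ?_
  have hfr : Module.finrank ℝ (En m) = 2 * m := by
    rw [← Module.finrank_mul_finrank ℝ ℂ (En m), Complex.finrank_real_complex,
      finrank_euclideanSpace_fin]
  rcases Nat.eq_zero_or_pos m with rfl | hm
  · have hb := (stdOrthonormalBasis ℝ (En 0)).volume_parallelepiped
    simp only [pow_zero, mul_zero, mul_one, ENNReal.ofReal_one]
    refine (measure_mono fun x _ => ?_).trans hb.le
    rw [mem_parallelepiped_iff]
    exact ⟨0, ⟨le_rfl, zero_le_one⟩, Subsingleton.elim _ _⟩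
  · have : Nonempty (Fin m) := ⟨⟨0, hm⟩⟩
    have : Nontrivial (En m) := inferInstance
    rw [InnerProductSpace.volume_closedBall_of_dim_even hfr, hfr, ← ENNReal.ofReal_pow hs.le,
      ← ENNReal.ofReal_mul (by positivity)]
    refine ENNReal.ofReal_le_ofReal ?_
    rw [mul_comm]
    refine mul_le_mul_of_nonneg_right ?_ (by positivity)
    refine div_le_self (by positivity) ?_
    exact_mod_cast Nat.factorial_pos m

/-- The volume of a slab. -/
theorem vol_slab {n : ℕ} (a z : En n) {c r s : ℝ} (hc : 0 < c) (hr : 0 < r) (hs : 0 < s)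
    (ha : c ^ 2 ≤ ∑ j, ‖a j‖ ^ 2) :
    volume.real {w : En n | ‖w - z‖ ≤ s ∧ ‖∑ j, a j * (w j - z j)‖ ≤ r} ≤
      n * Real.pi ^ n * s ^ (2 * n - 2) * (r / c) ^ 2 := by
  obtain _ | m := n
  · have : (0 : ℝ) < c ^ 2 := by positivity
    simp at ha
    linarith
  obtain ⟨j, hj⟩ : ∃ j, c ^ 2 / ((m + 1 : ℕ) : ℝ) ≤ ‖a j‖ ^ 2 := by
    by_contra hcon
    push Not at hcon
    have h1 : ∑ j, ‖a j‖ ^ 2 < ∑ _j : Fin (m + 1), c ^ 2 / ((m + 1 : ℕ) : ℝ) :=
      Finset.sum_lt_sum_of_nonempty Finset.univ_nonempty fun i _ => hcon i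
    have h2 : ∑ _j : Fin (m + 1), c ^ 2 / ((m + 1 : ℕ) : ℝ) = c ^ 2 := by
      rw [Finset.sum_const, Finset.card_univ, Fintype.card_fin, nsmul_eq_mul]
      field_simp
    linarith
  have hm0 : (0 : ℝ) < ((m + 1 : ℕ) : ℝ) := by positivity
  have haj : a j ≠ 0 := by
    intro h0
    rw [h0, norm_zero, zero_pow two_ne_zero] at hj
    have : 0 < c ^ 2 / ((m + 1 : ℕ) : ℝ) := by positivity
    linarith
  have hq : (r / ‖a j‖) ^ 2 ≤ ((m + 1 : ℕ) : ℝ) * (r / c) ^ 2 := by
    have hn0 : 0 < ‖a j‖ := norm_pos_iff.2 haj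
    rw [div_pow, div_pow, div_le_iff₀ (by positivity)]
    rw [div_le_iff₀ hm0] at hj
    have : r ^ 2 = r ^ 2 / c ^ 2 * c ^ 2 := by field_simp
    calc r ^ 2 = r ^ 2 / c ^ 2 * c ^ 2 := this
      _ ≤ r ^ 2 / c ^ 2 * (‖a j‖ ^ 2 * ((m + 1 : ℕ) : ℝ)) :=
          mul_le_mul_of_nonneg_left hj (by positivity)
      _ = ((m + 1 : ℕ) : ℝ) * (r ^ 2 / c ^ 2) * ‖a j‖ ^ 2 := by ring
  -- translation
  set S : Set (En (m + 1)) := {v | ‖v‖ ≤ s ∧ ‖∑ i, a i * v i‖ ≤ r} with hS
  have e1 : {w : En (m + 1) | ‖w - z‖ ≤ s ∧ ‖∑ j, a j * (w j - z j)‖ ≤ r} =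
      (fun w => w - z) ⁻¹' S := by
    ext w
    simp [hS]
  have hScl : IsClosed S := by
    refine IsClosed.inter ?_ ?_
    · exact isClosed_le continuous_norm continuous_const
    · refine isClosed_le (Continuous.norm ?_) continuous_const
      refine continuous_finsetSum _ fun i _ => continuous_const.mul ?_
      fun_prop
  have e2 : volume {w : En (m + 1) | ‖w - z‖ ≤ s ∧ ‖∑ j, a j * (w j - z j)‖ ≤ r} = volume S := by
    rw [e1]
    exact (measurePreserving_sub_right volume z).measure_preimage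
      hScl.measurableSet.nullMeasurableSet
  -- coordinates
  have e3 : volume S = volume (volB_iso m j ⁻¹' S) :=
    ((volB_iso m j).measurePreserving.measure_preimage
      hScl.measurableSet.nullMeasurableSet).symm
  set h : En m → ℂ := fun y => ∑ i, a (j.succAbove i) * y i with hh
  have hhc : Continuous h := by
    refine continuous_finsetSum _ fun i _ => continuous_const.mul ?_
    fun_prop
  set T : Set (ℂ × En m) := {p | ‖p.2‖ ≤ s ∧ ‖a j * p.1 + h p.2‖ ≤ r} with hT
  have hTcl : IsClosed T := by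
    refine IsClosed.inter ?_ ?_
    · exact isClosed_le continuous_snd.norm continuous_const
    · exact isClosed_le (((continuous_const.mul continuous_fst).add
        (hhc.comp continuous_snd)).norm) continuous_const
  have e4 : volB_iso m j ⁻¹' S ⊆ (WithLp.ofLp : WithLp 2 (ℂ × En m) → ℂ × En m) ⁻¹' T := by
    intro p hp
    obtain ⟨hp1, hp2⟩ := hp
    have hn : ‖volB_iso m j p‖ = ‖p‖ := (volB_iso m j).norm_map p
    refine ⟨?_, ?_⟩
    · show ‖p.snd‖ ≤ s
      refine le_trans ?_ (hn ▸ hp1)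
      have := WithLp.prod_norm_sq_eq_of_L2 p
      refine (sq_le_sq₀ (norm_nonneg _) (norm_nonneg _)).1 ?_
      rw [this]
      linarith [sq_nonneg ‖p.fst‖]
    · show ‖a j * p.fst + h p.snd‖ ≤ r
      have e5 : ∑ i, a i * (volB_iso m j p) i = a j * p.fst + h p.snd := by
        rw [Fin.sum_univ_succAbove _ j, volB_iso_same]
        simp only [hh, volB_iso_ne]
      rw [← e5]
      exact hp2
  have e6 : volume ((WithLp.ofLp : WithLp 2 (ℂ × En m) → ℂ × En m) ⁻¹' T) = volume T :=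
    (WithLp.volume_preserving_ofLp ℂ (En m)).measure_preimage
      hTcl.measurableSet.nullMeasurableSet
  have key : volume {w : En (m + 1) | ‖w - z‖ ≤ s ∧ ‖∑ j, a j * (w j - z j)‖ ≤ r} ≤
      ENNReal.ofReal (Real.pi * (r / ‖a j‖) ^ 2 * (Real.pi ^ m * s ^ (2 * m))) := by
    rw [e2, e3]
    refine (measure_mono e4).trans ?_
    rw [e6]
    exact volB_prod haj hhc hr hs
  refine (ENNReal.toReal_le_of_le_ofReal (by positivity) key).trans ?_
  have e7 : 2 * (m + 1) - 2 = 2 * m := by omega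
  rw [e7]
  calc Real.pi * (r / ‖a j‖) ^ 2 * (Real.pi ^ m * s ^ (2 * m))
      = (Real.pi ^ (m + 1) * s ^ (2 * m)) * (r / ‖a j‖) ^ 2 := by ring
    _ ≤ (Real.pi ^ (m + 1) * s ^ (2 * m)) * (((m + 1 : ℕ) : ℝ) * (r / c) ^ 2) :=
        mul_le_mul_of_nonneg_left hq (by positivity)
    _ = ((m + 1 : ℕ) : ℝ) * Real.pi ^ (m + 1) * s ^ (2 * m) * (r / c) ^ 2 := by ring

end Pool.Agent.MPca0fc2.CX
end

section

/-! Campaign EQ: from the ball to every strictly pseudoconvex domain. Definitions. -/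

set_option autoImplicit false

open Metric Set Filter Topology

namespace Pool.Agent.MPca0fc2.EQ

open Pool.Agent.MPca0fc2.TB (En Solv IsSol Lh Eh)

variable {n N : ℕ}

/-- the complex linear part `∂ρ_x (w)` of the differential of `ρ` at `x` (so `dρ_x (w) = 2 Re ∂ρ_x (w)`) -/
noncomputable def pd (ρ : En n → ℝ) (x w : En n) : ℂ :=
  (((fderiv ℝ ρ x w : ℝ) : ℂ) - Complex.I * ((fderiv ℝ ρ x (Complex.I • w) : ℝ) : ℂ)) / 2

/-- A strongly convex domain `{ρ < 0}` which osculates the unit ball at the unit vector `e` to the third order. -/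
structure Tg (n : ℕ) where
  /-- the point -/
  e : En n
  he : ‖e‖ = 1
  /-- the defining function -/
  ρ : En n → ℝ
  sm : ContDiff ℝ 3 ρ
  /-- the constant of the strong convexity -/
  c : ℝ
  cpos : 0 < c
  conv : ∀ w z, ρ w + fderiv ℝ ρ w (z - w) + c * ‖z - w‖ ^ 2 ≤ ρ z
  min0 : ∀ z, ρ 0 ≤ ρ z
  half : ∀ z, ‖z‖ ≤ 1 / 2 → ρ z < 0
  /-- the constant of the upper bounds -/
  C : ℝ
  one_le : 1 ≤ C
  osc : ∀ y, |ρ y - (‖y‖ ^ 2 - 1)| ≤ C * ‖y - e‖ ^ 3
  osc1 : ∀ y w, |fderiv ℝ ρ y w - 2 * (inner ℂ y w : ℂ).re| ≤ C * ‖y - e‖ ^ 2 * ‖w‖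
  d1 : ∀ x y, ‖fderiv ℝ ρ x - fderiv ℝ ρ y‖ ≤ C * ‖x - y‖
  d2 : ∀ x y, ‖fderiv ℝ (fderiv ℝ ρ) x - fderiv ℝ (fderiv ℝ ρ) y‖ ≤ C * ‖x - y‖

namespace Tg

/-- the domain -/
def D (T : Tg n) : Set (En n) := {z | T.ρ z < 0}

/-- the gauge of the domain -/
noncomputable def g (T : Tg n) (z : En n) : ℝ := gauge T.D z

/-- the region of the size `d` at `v` -/
def Reg (T : Tg n) (C d : ℝ) (v : En n) : Set (En n) :=
  {y | d / 4 < 1 - T.g y ∧ 1 - T.g y < C * d ^ (249 / 250 : ℝ) ∧ ‖y - v‖ < C * d ^ (249 / 500 : ℝ) ∧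
    ‖pd T.ρ v (y - v)‖ < C * d ^ (249 / 250 : ℝ)}

end Tg

/-- `min (max t 0) 1` -/
noncomputable def clp (t : ℝ) : ℝ := max 0 (min 1 t)

/-- the scales -/
noncomputable def rs (lam : ℝ) (k : ℕ) : ℝ := lam ^ (((6 : ℝ) / 5) ^ k)

/-- the height at which the maps of the generation `k` are frozen near the walls -/
noncomputable def ts (lam : ℝ) (k : ℕ) : ℝ := rs lam k ^ (9 / 4 : ℝ)

/-- the height below which the generation `k` is visible -/
noncomputable def Ts (lam : ℝ) (k : ℕ) : ℝ := rs lam k ^ (43 / 20 : ℝ)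

/-- the relative width of the walls -/
noncomputable def es (lam : ℝ) (k : ℕ) : ℝ := rs lam k ^ (1 / 100 : ℝ)

/-- the cell of `x` in the grid of the size `r` with the (diagonal) shift `s` -/
noncomputable def cell (r s : ℝ) (x : En n) : Fin n → ℤ × ℤ :=
  fun c => (⌊(x c).re / r + s⌋, ⌊(x c).im / r + s⌋)

/-- the relative distance to the walls of the grid -/
noncomputable def wd (r s : ℝ) (x : En n) : ℝ :=
  ⨅ c : Fin n, min |(x c).re / r + s - round ((x c).re / r + s)|
    |(x c).im / r + s - round ((x c).im / r + s)|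

/-- `0` for `w ≤ η`, `1` for `w ≥ 2 η` -/
noncomputable def chi (η w : ℝ) : ℝ := clp (w / η - 1)

/-- `1` for `w ≤ 2 η`, `0` for `w ≥ 3 η` -/
noncomputable def sig (η w : ℝ) : ℝ := clp (3 - w / η)

/-- `1` for `w ≤ 4 η`, `0` for `w ≥ 5 η` -/
noncomputable def xx (η w : ℝ) : ℝ := clp (5 - w / η)

/-- the constant of the distances to the centres -/
def kn (n : ℕ) : ℝ := 4 * (n + 1)

/-- a node: a holomorphic map near the identity and its centre -/
structure Nd (n : ℕ) where
  /-- the map -/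
  Ψ : En n → En n
  /-- the centre -/
  q : En n

/-- the root -/
def root (e : En n) : Nd n := ⟨id, e⟩

/-- A system of maps: `nx k ν c` is the map of the generation `k + 1` which follows the map `ν` of the generation `k` in the
cell `c` of the grid of the size `rs lam (k + 1)`. -/
structure Sys (T : Tg n) (C lam : ℝ) (sh : ℕ → ℝ) where
  /-- the next map -/
  nx : ℕ → Nd n → (Fin n → ℤ × ℤ) → Nd n
  /-- the maps of the generation `k` -/
  Good : ℕ → Nd n → Prop
  good0 : Good 0 (root T.e)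
  good_nx : ∀ k ν c, Good k ν → Good (k + 1) (nx k ν c)
  q1 : ∀ k ν, Good k ν → ‖ν.q‖ = 1
  qe : ∀ k ν, Good k ν → ‖ν.q - T.e‖ ≤ C * lam
  hol : ∀ k ν, Good k ν → Differentiable ℂ ν.Ψ
  lip : ∀ k ν, Good k ν → ∀ y y', ‖y‖ ≤ 4 → ‖y'‖ ≤ 4 → ‖ν.Ψ y - ν.Ψ y' - (y - y')‖ ≤ C * lam * ‖y - y'‖
  nid : ∀ k ν, Good k ν → ∀ y, ‖y‖ ≤ 4 → ‖ν.Ψ y - y‖ ≤ C * lam
  qual : ∀ k ν, Good k ν → ∃ u : En n → ℝ, (∀ y, ‖y‖ ≤ 2 → |u y - 1| ≤ C * lam) ∧
    ∀ y, ‖y‖ ≤ 2 → |T.ρ (ν.Ψ y) - u y * (‖y‖ ^ 2 - 1)| ≤ C * (rs lam k + ‖y - ν.q‖) ^ 3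
  cen : ∀ k ν w, Good k ν → ‖w‖ = 1 → ‖w - ν.q‖ ≤ (kn n + 1) * rs lam k →
    ‖w - (nx k ν (cell (rs lam (k + 1)) (sh (k + 1)) (ν.Ψ w))).q‖ ≤ kn n / 2 * rs lam (k + 1)
  est : ∀ k ν c, Good k ν → ∀ y, ‖y‖ ≤ 2 →
    ‖(nx k ν c).Ψ y - ν.Ψ y‖ ≤ C * (rs lam k ^ 3 + rs lam k * ‖y - (nx k ν c).q‖)
  est' : ∀ k ν c, Good k ν → ∀ y, ‖y‖ ≤ 2 →
    ‖pd T.ρ (ν.Ψ y) ((nx k ν c).Ψ y - ν.Ψ y)‖ ≤
      C * (rs lam k ^ 3 + rs lam k ^ 2 * ‖y - (nx k ν c).q‖ + rs lam k * ‖y - (nx k ν c).q‖ ^ 2)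

/-- the data near `e` -/
structure Dat (T : Tg n) (s : ℝ) (f : En n → En N) : Prop where
  hol : DifferentiableOn ℂ f (T.D ∩ ball T.e s)
  bd : ∀ z ∈ T.D ∩ ball T.e s, ‖f z‖ ≤ 1

/-- `u / |u|` -/
noncomputable def rad (u : En n) : En n := (‖u‖⁻¹ : ℝ) • u

section Side

variable (lam : ℝ) (sh : ℕ → ℝ) (nx : ℕ → Nd n → (Fin n → ℤ × ℤ) → Nd n)

/-- the relative distance of the point `x` to the walls of the generation `k` -/
noncomputable def wk (k : ℕ) (x : En n) : ℝ := wd (rs lam k) (sh k) x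

/-- the cell of the generation `k` -/
noncomputable def ck (k : ℕ) (x : En n) : Fin n → ℤ × ℤ := cell (rs lam k) (sh k) x

/-- the next node, in the cell of the image of `v / |v|` -/
noncomputable def nn (k : ℕ) (ν : Nd n) (v : En n) : Nd n := nx k ν (ck lam sh (k + 1) (ν.Ψ (rad v)))

/-- the cutoff at the walls -/
noncomputable def cw (k : ℕ) (ν : Nd n) (v : En n) : ℝ :=
  chi (es lam (k + 1)) (wk lam sh (k + 1) (ν.Ψ (rad v)))

/-- the shift at the walls -/
noncomputable def sw (k : ℕ) (ν : Nd n) (v : En n) : ℝ :=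
  ts lam (k + 1) * sig (es lam (k + 1)) (wk lam sh (k + 1) (ν.Ψ (rad v))) ^ 4

/-- The transplanted function at `u`, starting from the node `ν` of the generation `k`, with `m` more generations. The
cutoffs and the cells are those of the point `v`. -/
noncomputable def Fz (f : En n → En N) : ℕ → ℕ → Nd n → ℝ → En n → En n → En N
  | 0, k, ν, S, _, u => f (ν.Ψ ((1 - S - ts lam (k + 1)) • u))
  | m + 1, k, ν, S, v, u => (1 - cw lam sh k ν v) • f (ν.Ψ ((1 - S - ts lam (k + 1)) • u)) +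
      cw lam sh k ν v • Fz f m (k + 1) (nn lam sh nx k ν v) (S + sw lam sh k ν v) v u

end Side

/-- The points `u` at which `Fz m k ν S v` is evaluated. -/
structure EV (lam : ℝ) (m k : ℕ) (ν : Nd n) (S : ℝ) (v u : En n) : Prop where
  lt : ‖u‖ < 1
  ge : 1 / 2 ≤ ‖u‖
  S0 : 0 ≤ S
  up : 1 - (1 - S) * ‖u‖ + 2 * ts lam (k + 1) ≤ 6 * lam
  cen : ‖rad v - ν.q‖ ≤ (kn n + 1) * rs lam k
  near : ‖u - rad v‖ ≤ rs lam (k + m) + (1 - ‖u‖)
  v0 : v ≠ 0

/-- The zone of the node `ν` of the generation `k`. -/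
structure Zone (lam : ℝ) (k : ℕ) (ν : Nd n) (y : En n) : Prop where
  lt : ‖y‖ < 1
  lo : ts lam (k + 1) ≤ 4 * (1 - ‖y‖)
  up : 1 - ‖y‖ ≤ 10 * lam
  cen : ‖y - ν.q‖ ≤ (kn n + 4) * (rs lam k + (1 - ‖y‖))

/-- `1 - ⟨w, e⟩` -/
noncomputable def zt (e w : En n) : ℂ := 1 - inner ℂ e w

/-- the holomorphic map of the ball into a small neighbourhood of `e` -/
noncomputable def Ph (lam : ℝ) (e w : En n) : En n :=
  e + (1 / (1 + ((lam ^ (-(7 / 5) : ℝ) : ℝ) : ℂ) * zt e w)) • (w - e)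

/-- the first shift -/
noncomputable def t0 (lam : ℝ) : ℝ := lam ^ (12 / 5 : ℝ)

/-- `1` for `|ζ| ≤ λ² / 2`, `0` for `|ζ| ≥ λ²` -/
noncomputable def c0 (lam : ℝ) (e w : En n) : ℝ := clp (2 - 2 * ‖zt e w‖ / lam ^ 2)

/-- `0` for `|ζ| ≤ λ² / 4`, `1` for `|ζ| ≥ λ² / 2` -/
noncomputable def s0 (lam : ℝ) (e w : En n) : ℝ := clp (4 * ‖zt e w‖ / lam ^ 2 - 1)

/-- the transplanted function on the ball, with the cutoffs of the point `v` -/
noncomputable def FB (T : Tg n) (lam : ℝ) (sh : ℕ → ℝ) (nx : ℕ → Nd n → (Fin n → ℤ × ℤ) → Nd n)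
    (f : En n → En N) (K : ℕ) (v w : En n) : En N :=
  (1 - c0 lam T.e v) • f (Ph lam T.e ((1 - t0 lam) • w)) +
    c0 lam T.e v • Fz lam sh nx f K 0 (root T.e) (t0 lam * s0 lam T.e v ^ 4) v w

/-- the inverse map of a node -/
noncomputable def Nd.inv (ν : Nd n) (z : En n) : En n := by
  classical
  exact if h : ∃ y, ‖y‖ ≤ 3 ∧ ν.Ψ y = z then h.choose else 0

/-- the points `z` at which `ν.inv` is used, at the generation `k` -/
structure ZD (T : Tg n) (lam : ℝ) (k : ℕ) (ν : Nd n) (z : En n) : Prop where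
  lt : T.ρ z < 0
  lo : rs lam (k + 1) ^ (11 / 5 : ℝ) ≤ 4 * (-T.ρ z)
  up : -T.ρ z ≤ 10 * lam
  cen : ‖z - ν.Ψ ν.q‖ ≤ (kn n + 8) * (rs lam k + Real.sqrt (-T.ρ z))

/-- `1` for `-ρ ≤ Ts k`, `0` for `-ρ ≥ 2 Ts k` -/
noncomputable def Yc (T : Tg n) (lam : ℝ) (k : ℕ) (z : En n) : ℝ := clp (2 + T.ρ z / Ts lam k)

/-- `1` for `-ρ ≤ 2 Ts k`, `0` for `-ρ ≥ 4 Ts k` -/
noncomputable def Vc (T : Tg n) (lam : ℝ) (k : ℕ) (z : En n) : ℝ := clp (2 + T.ρ z / (2 * Ts lam k))

/-- The solution `H` on the ball, transplanted to the domain. -/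
noncomputable def Hz (T : Tg n) (lam : ℝ) (sh : ℕ → ℝ) (nx : ℕ → Nd n → (Fin n → ℤ × ℤ) → Nd n)
    (H : En n → En N) : ℕ → ℕ → Nd n → En n → En N
  | 0, _, ν, z => H (ν.inv z)
  | m + 1, k, ν, z => (1 - Yc T lam (k + 1) z) • H (ν.inv z) +
      Yc T lam (k + 1) z • Hz T lam sh nx H m (k + 1) (nx k ν (ck lam sh (k + 1) z)) z

/-- the node of the generation `k + m` in the chain of `v` -/
noncomputable def chn (lam : ℝ) (sh : ℕ → ℝ) (nx : ℕ → Nd n → (Fin n → ℤ × ℤ) → Nd n) :
    ℕ → ℕ → Nd n → En n → Nd n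
  | 0, _, ν, _ => ν
  | m + 1, k, ν, v => chn lam sh nx m (k + 1) (nx k ν (ck lam sh (k + 1) v)) v

/-- `z` is not near the walls of the visible generations `k + 1, ..., k + m` -/
def Leg (T : Tg n) (lam : ℝ) (sh : ℕ → ℝ) (m k : ℕ) (z : En n) : Prop :=
  ∀ l, k < l → l ≤ k + m → -T.ρ z < 2 * Ts lam l → 4 * es lam l ≤ wk lam sh l z

end Pool.Agent.MPca0fc2.EQ
end

section

/-! Campaign EQ, task P1: the scales. -/

set_option autoImplicit false

open Metric Set Filter Topology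

namespace Pool.Agent.MPca0fc2.EQ

theorem rs_pos {lam : ℝ} (h : 0 < lam) (k : ℕ) : 0 < rs lam k := by
  exact Real.rpow_pos_of_pos h _

theorem rs_zero (lam : ℝ) : rs lam 0 = lam := by
  unfold rs
  rw [pow_zero, Real.rpow_one]

theorem rs_succ {lam : ℝ} (h : 0 < lam) (k : ℕ) : rs lam (k + 1) = rs lam k ^ (6 / 5 : ℝ) := by
  unfold rs
  rw [← Real.rpow_mul h.le, pow_succ]

theorem rs_anti {lam : ℝ} (h : 0 < lam) (h1 : lam ≤ 1) : Antitone (rs lam) := by
  intro k l hkl
  unfold rs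
  exact Real.rpow_le_rpow_of_exponent_ge h h1 (pow_le_pow_right₀ (by norm_num) hkl)

theorem rs_le {lam : ℝ} (h : 0 < lam) (h1 : lam ≤ 1) (k : ℕ) : rs lam k ≤ lam := by
  have := rs_anti h h1 (Nat.zero_le k)
  rwa [rs_zero] at this

theorem ts_pos {lam : ℝ} (h : 0 < lam) (k : ℕ) : 0 < ts lam k := by
  exact Real.rpow_pos_of_pos (rs_pos h k) _

theorem Ts_pos {lam : ℝ} (h : 0 < lam) (k : ℕ) : 0 < Ts lam k := by
  exact Real.rpow_pos_of_pos (rs_pos h k) _

theorem es_pos {lam : ℝ} (h : 0 < lam) (k : ℕ) : 0 < es lam k := by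
  exact Real.rpow_pos_of_pos (rs_pos h k) _

theorem ts_succ {lam : ℝ} (h : 0 < lam) (k : ℕ) : ts lam (k + 1) = rs lam k ^ (27 / 10 : ℝ) := by
  unfold ts
  rw [rs_succ h, ← Real.rpow_mul (rs_pos h k).le]
  norm_num

theorem Ts_succ {lam : ℝ} (h : 0 < lam) (k : ℕ) : Ts lam (k + 1) = rs lam k ^ (129 / 50 : ℝ) := by
  unfold Ts
  rw [rs_succ h, ← Real.rpow_mul (rs_pos h k).le]
  norm_num

theorem ts_anti {lam : ℝ} (h : 0 < lam) (h1 : lam ≤ 1) : Antitone (ts lam) := by
  intro k l hkl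
  unfold ts
  exact Real.rpow_le_rpow (rs_pos h l).le (rs_anti h h1 hkl) (by norm_num)

theorem Ts_anti {lam : ℝ} (h : 0 < lam) (h1 : lam ≤ 1) : Antitone (Ts lam) := by
  intro k l hkl
  unfold Ts
  exact Real.rpow_le_rpow (rs_pos h l).le (rs_anti h h1 hkl) (by norm_num)

theorem es_anti {lam : ℝ} (h : 0 < lam) (h1 : lam ≤ 1) : Antitone (es lam) := by
  intro k l hkl
  unfold es
  exact Real.rpow_le_rpow (rs_pos h l).le (rs_anti h h1 hkl) (by norm_num)

private theorem P1_ev {a : ℝ} (ha : 0 < a) : ∀ᶠ lam in 𝓝[>] (0 : ℝ), 0 < lam ∧ lam < a := by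
  filter_upwards [Ioo_mem_nhdsGT ha] with lam h
  exact h

private theorem P1_small (C : ℝ) {α β : ℝ} (h : β < α) :
    ∀ᶠ lam in 𝓝[>] (0 : ℝ), ∀ x, 0 < x → x ≤ lam → C * x ^ α ≤ x ^ β := by
  have hd : 0 < α - β := by linarith
  have hC : 0 < |C| + 1 := by positivity
  have ha : 0 < ((|C| + 1)⁻¹ : ℝ) ^ ((α - β)⁻¹) := Real.rpow_pos_of_pos (inv_pos.2 hC) _
  filter_upwards [P1_ev ha] with lam hl x hx hxl
  have h1 : x ^ (α - β) ≤ (|C| + 1)⁻¹ := by
    calc x ^ (α - β) ≤ (((|C| + 1)⁻¹ : ℝ) ^ ((α - β)⁻¹)) ^ (α - β) :=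
          Real.rpow_le_rpow hx.le (by linarith [hl.2]) hd.le
      _ = (|C| + 1)⁻¹ := by
          rw [← Real.rpow_mul (inv_pos.2 hC).le, inv_mul_cancel₀ hd.ne', Real.rpow_one]
  have h2 : C * x ^ (α - β) ≤ 1 := by
    have h3 : 0 ≤ x ^ (α - β) := (Real.rpow_pos_of_pos hx _).le
    calc C * x ^ (α - β) ≤ (|C| + 1) * x ^ (α - β) :=
          mul_le_mul_of_nonneg_right (by linarith [le_abs_self C]) h3
      _ ≤ (|C| + 1) * (|C| + 1)⁻¹ := mul_le_mul_of_nonneg_left h1 hC.le
      _ = 1 := mul_inv_cancel₀ hC.ne'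
  have h4 : x ^ α = x ^ (α - β) * x ^ β := by
    rw [← Real.rpow_add hx]
    congr 1
    ring
  rw [h4, ← mul_assoc]
  have h5 : 0 ≤ x ^ β := (Real.rpow_pos_of_pos hx _).le
  nlinarith

/-- Each constant is absorbed by a small power of the scales.
PROOF. `C x ^ α ≤ x ^ β` iff `C x ^ (α - β) ≤ 1`, and `x = rs lam k ≤ lam`, so `C lam ^ (α - β) ≤ 1` suffices. -/
theorem small (C : ℝ) {α β : ℝ} (h : β < α) : ∀ᶠ lam in 𝓝[>] (0 : ℝ), ∀ k, C * rs lam k ^ α ≤ rs lam k ^ β := by
  filter_upwards [P1_small C h, P1_ev one_pos] with lam h1 h2 k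
  exact h1 _ (rs_pos h2.1 k) (rs_le h2.1 h2.2.le k)

/-- The same for the powers of any number `x ≤ lam`. -/
theorem small' (C : ℝ) {α β : ℝ} (h : β < α) : ∀ᶠ lam in 𝓝[>] (0 : ℝ), ∀ x, 0 < x → x ≤ lam → C * x ^ α ≤ x ^ β := by
  exact P1_small C h

theorem ev_lt {a : ℝ} (ha : 0 < a) : ∀ᶠ lam in 𝓝[>] (0 : ℝ), 0 < lam ∧ lam < a := by
  exact P1_ev ha

/-- The powers of the scales decrease quickly. PROOF. `rs (k+1) ^ β = rs k ^ β * rs k ^ (β/5)` and `small`. -/
theorem half (C : ℝ) {β : ℝ} (h : 0 < β) : ∀ᶠ lam in 𝓝[>] (0 : ℝ), ∀ k, C * rs lam (k + 1) ^ β ≤ rs lam k ^ β := by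
  filter_upwards [small C (show β < 6 / 5 * β by linarith), ev_lt one_pos] with lam h1 h2 k
  rw [rs_succ h2.1, ← Real.rpow_mul (rs_pos h2.1 k).le]
  exact h1 k

/-- The inequalities between the heights which are used most often (`C` arbitrary):
PROOF. All follow from `small` with `ts (k+1) = rs k ^ 2.7 = rs (k+1) ^ 2.25`, `Ts (k+1) = rs k ^ 2.58 = rs (k+1) ^ 2.15`, `es (k+1) = rs k ^ 0.012`, `rs (k+1) = rs k ^ 1.2`:
`C rs k ^ 3 ≤ ts (k+1)`; `C ts (k+1) ≤ Ts (k+1)`; `C Ts (k+1) ≤ es (k+1) rs (k+1)` (`2.58 > 1.212`); `C rs k rs (k+1) ≤ es (k+1) rs (k+1)` (`2.2 > 1.212`); `C ts (k+2) ≤ ts (k+1)`, `C Ts (k+2) ≤ rs (k+1) ^ (11/5)` (`3.096 > 2.64` in powers of `rs k`),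
`C Ts (k+1) ≤ rs (k+1)`, `C es k ≤ 1`, `C ts (k+1) ≤ lam`. -/
theorem ineqs (C : ℝ) : ∀ᶠ lam in 𝓝[>] (0 : ℝ), 0 < lam ∧ C * lam ≤ 1 ∧ ∀ k, C * rs lam k ^ 3 ≤ ts lam (k + 1) ∧ C * ts lam (k + 1) ≤ Ts lam (k + 1) ∧
    C * Ts lam (k + 1) ≤ es lam (k + 1) * rs lam (k + 1) ∧ C * (rs lam k * rs lam (k + 1)) ≤ es lam (k + 1) * rs lam (k + 1) ∧
    C * ts lam (k + 2) ≤ ts lam (k + 1) ∧ C * Ts lam (k + 2) ≤ rs lam (k + 1) ^ (11 / 5 : ℝ) ∧ C * Ts lam (k + 1) ≤ rs lam (k + 1) ∧
    C * es lam k ≤ 1 ∧ C * ts lam (k + 1) ≤ lam ∧ C * rs lam (k + 1) ≤ rs lam k := by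
  filter_upwards [small' C (show (0 : ℝ) < 1 by norm_num), ev_lt one_pos,
    small C (show (27 / 10 : ℝ) < 3 by norm_num), small C (show (129 / 50 : ℝ) < 27 / 10 by norm_num),
    small C (show (303 / 250 : ℝ) < 129 / 50 by norm_num), small C (show (303 / 250 : ℝ) < 11 / 5 by norm_num),
    small C (show (27 / 10 : ℝ) < 81 / 25 by norm_num), small C (show (66 / 25 : ℝ) < 387 / 125 by norm_num),
    small C (show (6 / 5 : ℝ) < 129 / 50 by norm_num), small C (show (0 : ℝ) < 1 / 100 by norm_num),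
    small C (show (1 : ℝ) < 27 / 10 by norm_num), small C (show (1 : ℝ) < 6 / 5 by norm_num)]
    with lam g0 hl g1 g2 g3 g4 g5 g6 g7 g8 g9 g10
  have hlam := hl.1
  refine ⟨hlam, ?_, fun k => ?_⟩
  · have := g0 lam hlam le_rfl
    rwa [Real.rpow_one, Real.rpow_zero] at this
  have hx := rs_pos hlam k
  have e1 : ts lam (k + 1) = rs lam k ^ (27 / 10 : ℝ) := ts_succ hlam k
  have e2 : Ts lam (k + 1) = rs lam k ^ (129 / 50 : ℝ) := Ts_succ hlam k
  have e3 : rs lam (k + 1) = rs lam k ^ (6 / 5 : ℝ) := rs_succ hlam k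
  have e4 : es lam (k + 1) = rs lam k ^ (3 / 250 : ℝ) := by
    unfold es
    rw [e3, ← Real.rpow_mul hx.le]
    norm_num
  have e5 : ts lam (k + 2) = rs lam k ^ (81 / 25 : ℝ) := by
    rw [ts_succ hlam (k + 1), e3, ← Real.rpow_mul hx.le]
    norm_num
  have e6 : Ts lam (k + 2) = rs lam k ^ (387 / 125 : ℝ) := by
    rw [Ts_succ hlam (k + 1), e3, ← Real.rpow_mul hx.le]
    norm_num
  have e7 : rs lam (k + 1) ^ (11 / 5 : ℝ) = rs lam k ^ (66 / 25 : ℝ) := by
    rw [e3, ← Real.rpow_mul hx.le]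
    norm_num
  have e8 : es lam (k + 1) * rs lam (k + 1) = rs lam k ^ (303 / 250 : ℝ) := by
    rw [e4, e3, ← Real.rpow_add hx]
    norm_num
  have e9 : rs lam k * rs lam (k + 1) = rs lam k ^ (11 / 5 : ℝ) := by
    rw [e3]
    nth_rewrite 1 [← Real.rpow_one (rs lam k)]
    rw [← Real.rpow_add hx]
    norm_num
  have e10 : rs lam k ^ 3 = rs lam k ^ (3 : ℝ) := by
    rw [← Real.rpow_natCast]
    norm_num
  refine ⟨?_, ?_, ?_, ?_, ?_, ?_, ?_, ?_, ?_, ?_⟩
  · rw [e10, e1]; exact g1 k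
  · rw [e1, e2]; exact g2 k
  · rw [e8, e2]; exact g3 k
  · rw [e8, e9]; exact g4 k
  · rw [e5, e1]; exact g5 k
  · rw [e6, e7]; exact g6 k
  · rw [e2, e3]; exact g7 k
  · have := g8 k
    rwa [Real.rpow_zero] at this
  · rw [e1]
    refine le_trans (g9 k) ?_
    rw [Real.rpow_one]
    exact rs_le hlam hl.2.le k
  · rw [e3]
    refine le_trans (g10 k) ?_
    rw [Real.rpow_one]

end Pool.Agent.MPca0fc2.EQ
end

section

/-! Campaign EQ, task W1: cutoffs, grids and walls. -/

set_option autoImplicit false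

open Metric Set Filter Topology

namespace Pool.Agent.MPca0fc2.EQ

open Pool.Agent.MPca0fc2.TB (En)

variable {n : ℕ}

theorem clp_nonneg (t : ℝ) : 0 ≤ clp t := le_max_left _ _

theorem clp_le_one (t : ℝ) : clp t ≤ 1 := max_le zero_le_one (min_le_left _ _)

theorem clp_lip (s t : ℝ) : |clp s - clp t| ≤ |s - t| := by
  have h1 := le_abs_self (s - t)
  have h2 := neg_abs_le (s - t)
  have h3 := abs_nonneg (s - t)
  unfold clp
  rw [abs_le]
  rcases le_total 1 s with hs | hs <;> rcases le_total 1 t with ht | ht <;>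
    rcases le_total 0 s with hs0 | hs0 <;> rcases le_total 0 t with ht0 | ht0 <;>
    simp only [min_eq_left, min_eq_right, max_eq_left, max_eq_right, zero_le_one, hs, ht, hs0, ht0] <;>
    constructor <;> linarith

theorem clp_zero {t : ℝ} (h : t ≤ 0) : clp t = 0 := by
  unfold clp
  rw [min_eq_right (h.trans zero_le_one), max_eq_left h]

theorem clp_one {t : ℝ} (h : 1 ≤ t) : clp t = 1 := by
  unfold clp
  rw [min_eq_left h, max_eq_right zero_le_one]

/-- if `clp t > 0` then `t > 0`; if `clp t < 1` then `t < 1` -/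
theorem clp_pos {t : ℝ} (h : 0 < clp t) : 0 < t := by
  by_contra hn
  rw [clp_zero (not_lt.1 hn)] at h
  exact lt_irrefl _ h

theorem clp_lt {t : ℝ} (h : clp t < 1) : t < 1 := by
  by_contra hn
  rw [clp_one (not_lt.1 hn)] at h
  exact lt_irrefl _ h

theorem chi_lip {η : ℝ} (h : 0 < η) (w w' : ℝ) : |chi η w - chi η w'| ≤ |w - w'| / η := by
  unfold chi
  refine (clp_lip _ _).trans (le_of_eq ?_)
  rw [show w / η - 1 - (w' / η - 1) = (w - w') / η by ring, abs_div, abs_of_pos h]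

theorem sig_lip {η : ℝ} (h : 0 < η) (w w' : ℝ) : |sig η w - sig η w'| ≤ |w - w'| / η := by
  unfold sig
  refine (clp_lip _ _).trans (le_of_eq ?_)
  rw [show 3 - w / η - (3 - w' / η) = -((w - w') / η) by ring, abs_neg, abs_div, abs_of_pos h]

theorem xx_lip {η : ℝ} (h : 0 < η) (w w' : ℝ) : |xx η w - xx η w'| ≤ |w - w'| / η := by
  unfold xx
  refine (clp_lip _ _).trans (le_of_eq ?_)
  rw [show 5 - w / η - (5 - w' / η) = -((w - w') / η) by ring, abs_neg, abs_div, abs_of_pos h]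

/-- `chi < 1` implies `sig = 1`, and `chi > 0` implies `w > η`; `w ≥ 3 η` implies `chi = 1` and `sig = 0` -/
theorem sig_of_chi {η w : ℝ} (h : 0 < η) (hw : chi η w < 1) : sig η w = 1 := by
  have := clp_lt hw
  apply clp_one
  linarith

theorem lt_of_chi {η w : ℝ} (h : 0 < η) (hw : 0 < chi η w) : η < w := by
  have h1 := clp_pos hw
  have h2 : 1 < w / η := by linarith
  rwa [lt_div_iff₀ h, one_mul] at h2

theorem chi_far {η w : ℝ} (h : 0 < η) (hw : 3 * η ≤ w) : chi η w = 1 ∧ sig η w = 0 := by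
  have h3 : 3 ≤ w / η := by rwa [le_div_iff₀ h]
  exact ⟨clp_one (by linarith), clp_zero (by linarith)⟩

/-- `xx < 1` implies `w > 4 η`; `w ≥ 5 η` implies `xx = 0` -/
theorem lt_of_xx {η w : ℝ} (h : 0 < η) (hw : xx η w < 1) : 4 * η < w := by
  have h1 := clp_lt hw
  have h2 : 4 < w / η := by linarith
  rwa [lt_div_iff₀ h] at h2

theorem xx_far {η w : ℝ} (h : 0 < η) (hw : 5 * η ≤ w) : xx η w = 0 := by
  have h3 : 5 ≤ w / η := by rwa [le_div_iff₀ h]
  exact clp_zero (by linarith)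

theorem wd_nonneg (r s : ℝ) (x : En n) : 0 ≤ wd r s x :=
  Real.iInf_nonneg fun _ => le_min (abs_nonneg _) (abs_nonneg _)

private theorem W1_dist_lip (u u' : ℝ) : |u - round u| ≤ |u' - round u'| + |u - u'| := by
  have h1 := round_le u (round u')
  have h2 : |u - round u'| ≤ |u - u'| + |u' - round u'| := by
    have := abs_add_le (u - u') (u' - round u')
    rwa [sub_add_sub_cancel] at this
  linarith

private theorem W1_re (x y : En n) (c : Fin n) : |(x c).re - (y c).re| ≤ ‖x - y‖ := by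
  have h1 : |((x - y) c).re| ≤ ‖(x - y) c‖ := Complex.abs_re_le_norm _
  have h2 : ‖(x - y) c‖ ≤ ‖x - y‖ := PiLp.norm_apply_le (x - y) c
  have h3 : ((x - y) c).re = (x c).re - (y c).re := by simp
  rw [h3] at h1
  exact h1.trans h2

private theorem W1_im (x y : En n) (c : Fin n) : |(x c).im - (y c).im| ≤ ‖x - y‖ := by
  have h1 : |((x - y) c).im| ≤ ‖(x - y) c‖ := Complex.abs_im_le_norm _
  have h2 : ‖(x - y) c‖ ≤ ‖x - y‖ := PiLp.norm_apply_le (x - y) c
  have h3 : ((x - y) c).im = (x c).im - (y c).im := by simp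
  rw [h3] at h1
  exact h1.trans h2

private theorem W1_div {r : ℝ} (hr : 0 < r) (s a b d : ℝ) (h : |a - b| ≤ d) :
    |a / r + s - (b / r + s)| ≤ d / r := by
  rw [show a / r + s - (b / r + s) = (a - b) / r by ring, abs_div, abs_of_pos hr]
  exact div_le_div_of_nonneg_right h hr.le

private theorem W1_wd_le (r s : ℝ) (x : En n) (c : Fin n) :
    wd r s x ≤ min |(x c).re / r + s - round ((x c).re / r + s)|
      |(x c).im / r + s - round ((x c).im / r + s)| :=
  ciInf_le (Set.finite_range _).bddBelow c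

private theorem W1_one_side {r : ℝ} (hr : 0 < r) (s : ℝ) (x y : En n) :
    wd r s x ≤ wd r s y + ‖x - y‖ / r := by
  rcases isEmpty_or_nonempty (Fin n) with he | he
  · have h1 : wd r s x = 0 := by
      unfold wd
      exact Real.iInf_of_isEmpty _
    rw [h1]
    have := wd_nonneg r s y
    positivity
  · obtain ⟨c, hc⟩ := exists_eq_ciInf_of_finite (f := fun c : Fin n =>
      min |(y c).re / r + s - round ((y c).re / r + s)|
        |(y c).im / r + s - round ((y c).im / r + s)|)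
    have h1 := W1_wd_le r s x c
    have h2 : wd r s y = min |(y c).re / r + s - round ((y c).re / r + s)|
        |(y c).im / r + s - round ((y c).im / r + s)| := hc.symm
    rw [h2]
    refine h1.trans ?_
    rw [← min_add_add_right]
    apply min_le_min
    · exact (W1_dist_lip _ _).trans (add_le_add_right (W1_div hr s _ _ _ (W1_re x y c)) _)
    · exact (W1_dist_lip _ _).trans (add_le_add_right (W1_div hr s _ _ _ (W1_im x y c)) _)

/-- The distance to the walls is Lipschitz.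
PROOF. `u ↦ |u - round u|` is 1-Lipschitz (it is the distance to the integers: `round_le`-type lemma `|u - round u| ≤ |u - m|` for each integer `m`); `|(x c).re - (y c).re| ≤ ‖x c - y c‖ ≤ ‖x - y‖`
(`EuclideanSpace.norm_eq` or `PiLp.norm_apply_le`); the infimum over a finite set (`ciInf_le` with `Finite.bddBelow_range`, `le_ciInf` for nonempty; if `n = 0` both are `sInf ∅ = 0`). -/
theorem wd_lip {r : ℝ} (hr : 0 < r) (s : ℝ) (x y : En n) : |wd r s x - wd r s y| ≤ ‖x - y‖ / r := by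
  rw [abs_sub_le_iff]
  have h1 := W1_one_side hr s x y
  have h2 := W1_one_side hr s y x
  rw [norm_sub_rev] at h2
  constructor <;> linarith

private theorem W1_floor {u u' : ℝ} (h : |u - u'| < |u - round u|) : ⌊u⌋ = ⌊u'⌋ := by
  have h1 := round_le u ⌊u⌋
  have h2 := round_le u (⌊u⌋ + 1)
  have h3 := Int.floor_le u
  have h4 := Int.lt_floor_add_one u
  rw [abs_of_nonneg (by linarith : (0 : ℝ) ≤ u - ⌊u⌋)] at h1
  push_cast at h2
  rw [abs_of_nonpos (by linarith : u - (⌊u⌋ + 1) ≤ (0 : ℝ))] at h2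
  have h5 := abs_lt.1 (lt_of_lt_of_le h h1)
  have h6 := abs_lt.1 (lt_of_lt_of_le h h2)
  symm
  rw [Int.floor_eq_iff]
  constructor <;> linarith

/-- Points near `x` are in the same cell.
PROOF. For each real coordinate `u = (x c).re / r + s`, `u' = (y c).re / r + s`: `|u - u'| ≤ ‖x - y‖ / r < wd ≤ |u - round u|`; if `⌊u⌋ ≠ ⌊u'⌋` there is an integer `m` with `min u u' < m ≤ max u u'`, so
`|u - m| ≤ |u - u'| < |u - round u| ≤ |u - m|`, a contradiction. (`n = 0`: functions on an empty type are equal.) -/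
theorem cell_eq {r : ℝ} (hr : 0 < r) (s : ℝ) {x y : En n} (h : ‖x - y‖ < r * wd r s x) : cell r s x = cell r s y := by
  funext c
  have h0 : ‖x - y‖ / r < wd r s x := by
    rw [div_lt_iff₀ hr, mul_comm]
    exact h
  have h1 := W1_wd_le r s x c
  have h2 := lt_of_lt_of_le h0 h1
  unfold cell
  refine Prod.ext ?_ ?_
  · exact W1_floor (lt_of_le_of_lt (W1_div hr s _ _ _ (W1_re x y c)) (lt_of_lt_of_le h2 (min_le_left _ _)))
  · exact W1_floor (lt_of_le_of_lt (W1_div hr s _ _ _ (W1_im x y c)) (lt_of_lt_of_le h2 (min_le_right _ _)))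

private theorem W1_floor_le {r : ℝ} (hr : 0 < r) (s a b : ℝ) (h : ⌊a / r + s⌋ = ⌊b / r + s⌋) :
    (a - b) ^ 2 ≤ r ^ 2 := by
  have h1 := Int.abs_sub_lt_one_of_floor_eq_floor h
  rw [show a / r + s - (b / r + s) = (a - b) / r by ring, abs_div, abs_of_pos hr, div_lt_iff₀ hr,
    one_mul] at h1
  exact sq_le_sq' (by linarith [(abs_lt.1 h1).1]) (by linarith [(abs_lt.1 h1).2])

/-- PROOF. Each real coordinate of `x - y` is `≤ r` in absolute value (`Int.floor` equal), so `‖x - y‖² ≤ 2 n r² ≤ (n + 1)² r²`. -/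
theorem cell_diam {r : ℝ} (hr : 0 < r) (s : ℝ) {x y : En n} (h : cell r s x = cell r s y) : ‖x - y‖ ≤ (n + 1) * r := by
  have h1 : ‖x - y‖ ^ 2 ≤ 2 * n * r ^ 2 := by
    rw [EuclideanSpace.norm_sq_eq]
    calc ∑ c, ‖(x - y) c‖ ^ 2 ≤ ∑ _c : Fin n, 2 * r ^ 2 := by
          apply Finset.sum_le_sum
          intro c _
          have hc := congrFun h c
          unfold cell at hc
          have hc1 := W1_floor_le hr s _ _ (congrArg Prod.fst hc)
          have hc2 := W1_floor_le hr s _ _ (congrArg Prod.snd hc)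
          rw [← Complex.normSq_eq_norm_sq, Complex.normSq_apply]
          have e1 : ((x - y) c).re = (x c).re - (y c).re := by simp
          have e2 : ((x - y) c).im = (x c).im - (y c).im := by simp
          rw [e1, e2]
          nlinarith
      _ = 2 * n * r ^ 2 := by
          rw [Finset.sum_const, Finset.card_univ, Fintype.card_fin, nsmul_eq_mul]
          ring
  have hn0 : (0 : ℝ) ≤ n := Nat.cast_nonneg n
  have h2 : ‖x - y‖ ^ 2 ≤ ((n + 1) * r) ^ 2 := by
    refine h1.trans ?_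
    rw [mul_pow]
    apply mul_le_mul_of_nonneg_right _ (sq_nonneg r)
    nlinarith
  exact (sq_le_sq₀ (norm_nonneg _) (by positivity)).1 h2

private theorem W1_count1 (u : ℝ) {L : ℕ} (hL : 1 ≤ L) {θ : ℝ} (hθ : 0 ≤ θ) :
    ((Finset.univ.filter fun i : Fin L =>
      |u + (i : ℝ) / L - round (u + (i : ℝ) / L)| ≤ θ).card : ℝ) ≤ 2 * θ * L + 1 := by
  have hL0 : (0 : ℝ) < L := by exact_mod_cast hL
  set S := Finset.univ.filter fun i : Fin L => |u + (i : ℝ) / L - round (u + (i : ℝ) / L)| ≤ θ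
  set a : ℝ := -(u * L) - θ * L
  set b : ℝ := -(u * L) + θ * L
  have hcard : S.card ≤ (Finset.Icc ⌈a⌉ ⌊b⌋).card := by
    apply Finset.card_le_card_of_injOn
      (fun i : Fin L => ((i : ℕ) : ℤ) - L * round (u + (i : ℝ) / L))
    · intro i hi
      have hi' : |u + (i : ℝ) / L - round (u + (i : ℝ) / L)| ≤ θ := (Finset.mem_filter.1 hi).2
      have h1 := abs_le.1 hi'
      have e : (u + (i : ℝ) / L - round (u + (i : ℝ) / L)) * L =
          u * L + i - L * round (u + (i : ℝ) / L) := by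
        field_simp
      have h2 : -θ * L ≤ (u + (i : ℝ) / L - round (u + (i : ℝ) / L)) * L :=
        mul_le_mul_of_nonneg_right h1.1 hL0.le
      have h3 : (u + (i : ℝ) / L - round (u + (i : ℝ) / L)) * L ≤ θ * L :=
        mul_le_mul_of_nonneg_right h1.2 hL0.le
      rw [e] at h2 h3
      rw [Finset.coe_Icc, Set.mem_Icc, Int.ceil_le, Int.le_floor]
      push_cast
      constructor
      · simp only [a]; linarith
      · simp only [b]; linarith
    · intro i _ j _ hij
      have hij' : ((i : ℕ) : ℤ) - L * round (u + (i : ℝ) / L) =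
          ((j : ℕ) : ℤ) - L * round (u + (j : ℝ) / L) := hij
      have h1 : ((i : ℕ) : ℤ) % L = ((j : ℕ) : ℤ) % L := by
        have : ((i : ℕ) : ℤ) = ((j : ℕ) : ℤ) + L * (round (u + (i : ℝ) / L) - round (u + (j : ℝ) / L)) := by
          linarith
        rw [this]
        simp
      have hi := i.2
      have hj := j.2
      have h2 : ((i : ℕ) : ℤ) % L = (i : ℕ) := Int.emod_eq_of_lt (by positivity) (by exact_mod_cast hi)
      have h3 : ((j : ℕ) : ℤ) % L = (j : ℕ) := Int.emod_eq_of_lt (by positivity) (by exact_mod_cast hj)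
      rw [h2, h3] at h1
      exact Fin.ext (by exact_mod_cast h1)
  have h4 : ((Finset.Icc ⌈a⌉ ⌊b⌋).card : ℝ) ≤ 2 * θ * L + 1 := by
    rw [Int.card_Icc]
    rcases le_total 0 (⌊b⌋ + 1 - ⌈a⌉) with h | h
    · have e : (((⌊b⌋ + 1 - ⌈a⌉).toNat : ℕ) : ℝ) = ((⌊b⌋ + 1 - ⌈a⌉ : ℤ) : ℝ) := by
        exact_mod_cast congrArg (fun z : ℤ => (z : ℝ)) (Int.toNat_of_nonneg h)
      rw [e]
      push_cast
      have h5 := Int.floor_le b
      have h6 := Int.le_ceil a
      have h7 : b - a = 2 * θ * L := by simp only [a, b]; ring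
      linarith
    · rw [Int.toNat_of_nonpos h]
      push_cast
      positivity
  calc (S.card : ℝ) ≤ ((Finset.Icc ⌈a⌉ ⌊b⌋).card : ℝ) := by exact_mod_cast hcard
    _ ≤ _ := h4

/-- The number of the shifts for which `x` is near a wall.
PROOF. For `i` in the filter there is a real coordinate `u` of `x / r` (`2 n` coordinates; `ciInf` over the nonempty finite type is attained: `exists_eq_ciInf_of_finite`; if `n = 0` use `hn`) with `|u + i/L - round (u + i/L)| ≤ θ`. For a fixed `u`, the integers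
`i - m L`, `m = round (u + i/L)`, lie in `[-u L - θ L, -u L + θ L]`, an interval of the length `2 θ L`, which contains at most `2 θ L + 1` integers (`Int.card_Icc`), and `i ↦ i - m L` is injective on `{0, ..., L - 1}`
(take it modulo `L`). -/
theorem count {r : ℝ} (hn : 1 ≤ n) (hr : 0 < r) (x : En n) {L : ℕ} (hL : 1 ≤ L) {θ : ℝ} (hθ : 0 ≤ θ) :
    ((Finset.univ.filter fun i : Fin L => wd r ((i : ℝ) / L) x ≤ θ).card : ℝ) ≤ 2 * n * (2 * θ * L + 1) := by
  classical
  have : Nonempty (Fin n) := ⟨⟨0, hn⟩⟩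
  set S := Finset.univ.filter fun i : Fin L => wd r ((i : ℝ) / L) x ≤ θ with hS
  have hsub : S ⊆ (Finset.univ : Finset (Fin n)).biUnion fun c =>
      (Finset.univ.filter fun i : Fin L =>
        |(x c).re / r + (i : ℝ) / L - round ((x c).re / r + (i : ℝ) / L)| ≤ θ) ∪
      (Finset.univ.filter fun i : Fin L =>
        |(x c).im / r + (i : ℝ) / L - round ((x c).im / r + (i : ℝ) / L)| ≤ θ) := by
    intro i hi
    have hi' : wd r ((i : ℝ) / L) x ≤ θ := (Finset.mem_filter.1 hi).2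
    obtain ⟨c, hc⟩ := exists_eq_ciInf_of_finite (f := fun c : Fin n =>
      min |(x c).re / r + (i : ℝ) / L - round ((x c).re / r + (i : ℝ) / L)|
        |(x c).im / r + (i : ℝ) / L - round ((x c).im / r + (i : ℝ) / L)|)
    have hc' : min |(x c).re / r + (i : ℝ) / L - round ((x c).re / r + (i : ℝ) / L)|
        |(x c).im / r + (i : ℝ) / L - round ((x c).im / r + (i : ℝ) / L)| ≤ θ := by
      have e : wd r ((i : ℝ) / L) x = _ := hc.symm
      rw [e] at hi'
      exact hi'
    rw [Finset.mem_biUnion]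
    refine ⟨c, Finset.mem_univ _, ?_⟩
    rw [Finset.mem_union, Finset.mem_filter, Finset.mem_filter]
    rcases min_le_iff.1 hc' with h | h
    · exact Or.inl ⟨Finset.mem_univ _, h⟩
    · exact Or.inr ⟨Finset.mem_univ _, h⟩
  have h1 := (Finset.card_le_card hsub).trans Finset.card_biUnion_le
  have h2 : (S.card : ℝ) ≤ ∑ c : Fin n, (2 * (2 * θ * L + 1)) := by
    have h1' := (Nat.cast_le (α := ℝ)).2 h1
    refine h1'.trans ?_
    rw [Nat.cast_sum]
    apply Finset.sum_le_sum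
    intro c _
    have h5 := (Nat.cast_le (α := ℝ)).2 (Finset.card_union_le
      (Finset.univ.filter fun i : Fin L =>
        |(x c).re / r + (i : ℝ) / L - round ((x c).re / r + (i : ℝ) / L)| ≤ θ)
      (Finset.univ.filter fun i : Fin L =>
        |(x c).im / r + (i : ℝ) / L - round ((x c).im / r + (i : ℝ) / L)| ≤ θ))
    refine h5.trans ?_
    rw [Nat.cast_add]
    have a1 := W1_count1 ((x c).re / r) hL hθ
    have a2 := W1_count1 ((x c).im / r) hL hθ
    linarith
  rw [Finset.sum_const, Finset.card_univ, Fintype.card_fin, nsmul_eq_mul] at h2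
  linarith

/-- PROOF. `xx ≤ 1` and `xx = 0` unless `wd < 5 η`: `count` with `θ = 5 η`; `L η ≥ 1`. -/
theorem count_xx {r : ℝ} (hn : 1 ≤ n) (hr : 0 < r) (x : En n) {L : ℕ} (hL : 1 ≤ L) {η : ℝ} (hη : 0 < η) (hLη : 1 ≤ L * η) :
    ∑ i : Fin L, xx η (wd r ((i : ℝ) / L) x) ≤ 22 * n * η * L := by
  have h1 : ∑ i : Fin L, xx η (wd r ((i : ℝ) / L) x) ≤
      ∑ i : Fin L, (if wd r ((i : ℝ) / L) x ≤ 5 * η then (1 : ℝ) else 0) := by
    apply Finset.sum_le_sum
    intro i _
    split_ifs with h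
    · exact clp_le_one _
    · exact le_of_eq (xx_far hη (not_le.1 h).le)
  have h2 := count hn hr x hL (θ := 5 * η) (by positivity)
  have h3 : ∑ i : Fin L, (if wd r ((i : ℝ) / L) x ≤ 5 * η then (1 : ℝ) else 0) =
      ((Finset.univ.filter fun i : Fin L => wd r ((i : ℝ) / L) x ≤ 5 * η).card : ℝ) := by
    rw [Finset.sum_boole]
  rw [h3] at h1
  have hn0 : (0 : ℝ) ≤ n := Nat.cast_nonneg n
  have h4 : 2 * (n : ℝ) * (2 * (5 * η) * L + 1) ≤ 2 * n * (2 * (5 * η) * L + L * η) :=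
    mul_le_mul_of_nonneg_left (by linarith) (by positivity)
  calc _ ≤ _ := h1
    _ ≤ _ := h2
    _ ≤ _ := h4
    _ = 22 * n * η * L := by ring

end Pool.Agent.MPca0fc2.EQ
end

section

/-! Campaign EQ: definitions for the domain side. -/

set_option autoImplicit false

open Metric Set Filter Topology

namespace Pool.Agent.MPca0fc2.EQ

open Pool.Agent.MPca0fc2.TB (En)

variable {n N : ℕ}

/-- the points `z` at which `ν.inv` is used, at the generation `k` -/
structure ZZ (T : Tg n) (lam : ℝ) (k : ℕ) (ν : Nd n) (z : En n) : Prop where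
  lt : T.ρ z < 0
  lo : rs lam (k + 1) ^ (11 / 5 : ℝ) ≤ 4 * (-T.ρ z)
  up : -T.ρ z ≤ lam ^ (1 / 4 : ℝ)
  cen : ‖z - ν.Ψ ν.q‖ ≤ (kn n + 8) * (rs lam k + Real.sqrt (-T.ρ z))

/-- the points `z` at which `Hz m k ν` is evaluated -/
structure DV (T : Tg n) (lam : ℝ) (sh : ℕ → ℝ) (m k : ℕ) (ν : Nd n) (z : En n) : Prop where
  lt : T.ρ z < 0
  up : 4 * (-T.ρ z) ≤ rs lam k
  lo : Ts lam (k + m + 1) ≤ -T.ρ z
  cen : ‖z - ν.Ψ ν.q‖ ≤ kn n * rs lam k
  leg : Leg T lam sh m k z

/-- `y` is one of the points of the ball at which `H` is evaluated in `Hz m k ν z` -/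
def InCh (T : Tg n) (lam : ℝ) (sh : ℕ → ℝ) (nx : ℕ → Nd n → (Fin n → ℤ × ℤ) → Nd n) : ℕ → ℕ → Nd n → En n → En n → Prop
  | 0, _, ν, z, y => y = ν.inv z
  | m + 1, k, ν, z, y => (y = ν.inv z ∧ Ts lam (k + 1) < -T.ρ z) ∨
      (-T.ρ z < 2 * Ts lam (k + 1) ∧ InCh T lam sh nx m (k + 1) (nx k ν (ck lam sh (k + 1) z)) z y)

/-- the unnormalized weight of the shift `i / L` -/
noncomputable def xw (T : Tg n) (lam : ℝ) (L k : ℕ) (i : Fin L) (z : En n) : ℝ :=
  1 - Vc T lam k z * xx (es lam k) (wd (rs lam k) ((i : ℝ) / L) z)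

/-- the weight of the shift `i / L` -/
noncomputable def wt (T : Tg n) (lam : ℝ) (L k : ℕ) (i : Fin L) (z : En n) : ℝ := xw T lam L k i z / ∑ j, xw T lam L k j z

/-- the weight of the shifts `ω` of the generations `1, ..., K` -/
noncomputable def Wt (T : Tg n) (lam : ℝ) (L K : ℕ) (ω : Fin K → Fin L) (z : En n) : ℝ := ∏ l : Fin K, wt T lam L (l + 1) (ω l) z

/-- the shifts -/
noncomputable def shO (L K : ℕ) (ω : Fin K → Fin L) (k : ℕ) : ℝ :=
  if h : 1 ≤ k ∧ k ≤ K then ((ω ⟨k - 1, by omega⟩ : ℕ) : ℝ) / L else 0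

/-- A family of systems and of solutions on the ball, for all shifts. -/
structure Fam (T : Tg n) (Cs lam A : ℝ) (L K N : ℕ) where
  /-- the systems -/
  Sy : ∀ ω : Fin K → Fin L, Sys T Cs lam (shO L K ω)
  /-- the solutions -/
  H : (Fin K → Fin L) → En n → En N
  hol : ∀ ω, DifferentiableOn ℂ (H ω) (ball 0 1)
  bd : ∀ ω, ∀ w ∈ ball (0 : En n) 1, ‖H ω w‖ ≤ A
  L1 : 1 ≤ L
  Le : 1 ≤ L * es lam K

/-- the averaged solution on the domain -/
noncomputable def hs (T : Tg n) {Cs lam A : ℝ} {L K : ℕ} (Φ : Fam T Cs lam A L K N) (z : En n) : En N :=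
  ∑ ω, Wt T lam L K ω z • Hz T lam (shO L K ω) (Φ.Sy ω).nx (Φ.H ω) K 0 (root T.e) z

/-- the isotropic cutoff near `e` -/
noncomputable def X0 (lam : ℝ) (e z : En n) : ℝ := clp (2 - ‖z - e‖ / lam ^ (5 / 2 : ℝ))

/-- the peak function -/
noncomputable def pk (lam : ℝ) (e z : En n) : ℂ := Complex.exp (-(((lam ^ (-6 : ℝ) : ℝ) : ℂ) * zt e z))

/-- the averaged solution, localized near `e` -/
noncomputable def FD (T : Tg n) {Cs lam A : ℝ} {L K : ℕ} (Φ : Fam T Cs lam A L K N) (z : En n) : En N :=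
  (((X0 lam T.e z : ℝ) : ℂ) * pk lam T.e z) • hs T Φ z

/-- the points near `e` at which `hs` is evaluated -/
structure NE (T : Tg n) (lam : ℝ) (K : ℕ) (z : En n) : Prop where
  lt : T.ρ z < 0
  lo : Ts lam (K + 1) ≤ -T.ρ z
  near : ‖z - T.e‖ ≤ lam ^ 2

end Pool.Agent.MPca0fc2.EQ
end

section

/-! Campaign EQ: quadratic osculating maps. Definitions. -/

set_option autoImplicit false

open Metric Set Filter Topology

namespace Pool.Agent.MPca0fc2.EQ

open Pool.Agent.MPca0fc2.TB (En Lh Eh)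

variable {n : ℕ}

/-- A quadratic polynomial map `Ψ` and a real affine function `u`, centred at `q`. -/
structure Cn (n : ℕ) where
  /-- the centre -/
  q : En n
  /-- the value -/
  x : En n
  /-- the linear part -/
  L : En n →L[ℂ] En n
  /-- the quadratic part -/
  b : En n →L[ℂ] En n →L[ℂ] En n
  /-- the value of `u` -/
  u0 : ℝ
  /-- the linear part of `u` -/
  l : En n →L[ℂ] ℂ

/-- the map -/
noncomputable def Cn.Ψ (ν : Cn n) (y : En n) : En n := ν.x + ν.L (y - ν.q) + ν.b (y - ν.q) (y - ν.q)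

/-- the function -/
noncomputable def Cn.u (ν : Cn n) (y : En n) : ℝ := ν.u0 + 2 * (ν.l (y - ν.q)).re

/-- The node is `m`-near the identity. -/
structure Small (T : Tg n) (ν : Cn n) (m : ℝ) : Prop where
  q1 : ‖ν.q‖ = 1
  qe : ‖ν.q - T.e‖ ≤ m
  x : ‖ν.x - ν.q‖ ≤ m
  L : ‖ν.L - 1‖ ≤ m
  b : ‖ν.b‖ ≤ m
  u : |ν.u0 - 1| ≤ m
  l : ‖ν.l‖ ≤ m

/-- The map osculates at the scale `r`. -/
def Ql (T : Tg n) (A : ℝ) (ν : Cn n) (r : ℝ) : Prop :=
  ∀ y, ‖y - ν.q‖ ≤ 4 → |T.ρ (ν.Ψ y) - ν.u y * (‖y‖ ^ 2 - 1)| ≤ A * (r + ‖y - ν.q‖) ^ 3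

/-- the same map and function with the centre `q'` -/
noncomputable def Cn.re (ν : Cn n) (q' : En n) : Cn n where
  q := q'
  x := ν.Ψ q'
  L := ν.L + ν.b (q' - ν.q) + ν.b.flip (q' - ν.q)
  b := ν.b
  u0 := ν.u q'
  l := ν.l

/-- the second derivative of `ρ` -/
noncomputable def Bx (T : Tg n) (x : En n) : En n →L[ℝ] En n →L[ℝ] ℝ := fderiv ℝ (fderiv ℝ T.ρ) x

/-- the part of the order one of `ρ ∘ Ψ - u (|y|² - 1)` at the centre (the real part of twice this) -/
noncomputable def P1 (T : Tg n) (ν : Cn n) (v : En n) : ℂ := pd T.ρ ν.x (ν.L v) - ν.u0 * inner ℂ ν.q v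

/-- the `(2, 0)` part of the order two (the real part of twice this) -/
noncomputable def P2 (T : Tg n) (ν : Cn n) (v : En n) : ℂ :=
  pd T.ρ ν.x (ν.b v v) + Eh (Bx T ν.x) (ν.L v) / 4 - ν.l v * inner ℂ ν.q v

/-- the `(1, 1)` part of the order two -/
noncomputable def P3 (T : Tg n) (ν : Cn n) (v : En n) : ℝ :=
  Lh (Bx T ν.x) (ν.L v) / 2 - ν.u0 * ‖v‖ ^ 2 - 2 * (ν.l v * starRingEnd ℂ (inner ℂ ν.q v)).re

end Pool.Agent.MPca0fc2.EQ
end
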