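import Mathlib
import Pool.Agent.Lib.MP_ca0fc2_an.Mg.G082

section

/-!
Task CX DbB: more on `db`, `dz`.
PROOFS: `fderiv_eq`: `v = ∑ j, ((v j).re • ee j + (v j).im • (I • ee j))` (real scalars), use the real
linearity of `fderiv ℝ F w`; on the other side `dz j F w * v j + db j F w * conj (v j) =
fderiv (ee j) * (v j).re + fderiv (I • ee j) * (v j).im` by expanding (`Complex.ext_iff`-free: write
`v j = re + im I`, `conj = re - im I`, `ring_nf`, `I^2 = -1`).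
`db_real`: `fderiv ℝ (fun y => (ρ y : ℂ)) w v = (fderiv ℝ ρ w v : ℂ)` is real.
`fderiv_real`: from `fderiv_eq` and `db_real`: the sum is `∑ (a_j v_j + conj (a_j v_j))`.
`norm_db_le`: the vectors `ee k` and `I • ee k` have norm `1`.
`contDiff_db`: `ContDiff.fderiv_right` (or `contDiff_succ_iff_fderiv`) and `clm_apply`.
`db_symm`: the second derivative is symmetric (`ContDiffAt.isSymmSndFDerivAt` or
`second_derivative_symmetric`; over `ℝ` with `minSmoothness ℝ 2 = 2`); `fderiv` of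
`y ↦ fderiv ℝ F y v` at `w` applied to `u` is `fderiv ℝ (fderiv ℝ F) w u v`.
-/

set_option autoImplicit false

open Metric Set MeasureTheory Filter Topology
open scoped ComplexOrder

namespace Pool.Agent.MPca0fc2.CX

variable {n : ℕ}

theorem dbB_split (v : En n) (L : En n →L[ℝ] ℂ) :
    L v = ∑ j, (((v j).re : ℂ) * L (ee j) + ((v j).im : ℂ) * L (Complex.I • ee j)) := by
  have h1 : v = ∑ j, v j • ee j := by
    have h2 := (EuclideanSpace.basisFun (Fin n) ℂ).sum_repr v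
    simp only [EuclideanSpace.basisFun_apply, EuclideanSpace.basisFun_repr] at h2
    exact h2.symm
  have h3 : ∀ j, v j • ee j = (v j).re • ee j + (v j).im • (Complex.I • ee j : En n) := by
    intro j
    rw [← Complex.coe_smul (v j).re, ← Complex.coe_smul (v j).im, smul_smul, ← add_smul,
      Complex.re_add_im]
  conv_lhs => rw [h1]
  rw [map_sum]
  refine Finset.sum_congr rfl fun j _ => ?_
  rw [h3, map_add, map_smul, map_smul, Complex.real_smul, Complex.real_smul]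

/-- The derivative in terms of `dz` and `db`. -/
theorem fderiv_eq {F : En n → ℂ} {w : En n} (v : En n) :
    fderiv ℝ F w v = ∑ j, (dz j F w * v j + db j F w * (starRingEnd ℂ) (v j)) := by
  rw [dbB_split v (fderiv ℝ F w)]
  refine Finset.sum_congr rfl fun j _ => ?_
  have h1 : v j = ((v j).re : ℂ) + ((v j).im : ℂ) * Complex.I := (Complex.re_add_im _).symm
  have h2 : (starRingEnd ℂ) (v j) = ((v j).re : ℂ) - ((v j).im : ℂ) * Complex.I := by
    conv_lhs => rw [h1]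
    rw [map_add, map_mul, Complex.conj_ofReal, Complex.conj_ofReal, Complex.conj_I]
    ring
  obtain ⟨x, hx⟩ : ∃ x : ℂ, x = ((v j).re : ℂ) := ⟨_, rfl⟩
  obtain ⟨y, hy⟩ : ∃ y : ℂ, y = ((v j).im : ℂ) := ⟨_, rfl⟩
  rw [← hx, ← hy] at h1 h2
  rw [← hx, ← hy, h2, h1]
  unfold dz db
  linear_combination (fderiv ℝ F w (Complex.I • ee j) * y) * Complex.I_sq

theorem dbB_ofReal {ρ : En n → ℝ} {w : En n} (h : DifferentiableAt ℝ ρ w) (v : En n) :
    fderiv ℝ (fun y => (ρ y : ℂ)) w v = ((fderiv ℝ ρ w v : ℝ) : ℂ) := by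
  have h1 := (Complex.ofRealCLM.hasFDerivAt.comp w h.hasFDerivAt).fderiv
  have h2 : fderiv ℝ (fun y => (ρ y : ℂ)) w = Complex.ofRealCLM.comp (fderiv ℝ ρ w) := h1
  rw [h2]
  rfl

/-- For real functions the two derivatives are conjugate. -/
theorem db_real {ρ : En n → ℝ} {w : En n} (k : Fin n) (h : DifferentiableAt ℝ ρ w) :
    db k (fun y => (ρ y : ℂ)) w = (starRingEnd ℂ) (dz k (fun y => (ρ y : ℂ)) w) := by
  unfold db dz
  rw [dbB_ofReal h, dbB_ofReal h, map_mul, map_sub, map_mul, Complex.conj_ofReal,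
    Complex.conj_ofReal, Complex.conj_I, map_div₀, map_one, map_ofNat]
  ring

theorem fderiv_real {ρ : En n → ℝ} {w : En n} (h : DifferentiableAt ℝ ρ w) (v : En n) :
    fderiv ℝ ρ w v = 2 * (∑ j, dz j (fun y => (ρ y : ℂ)) w * v j).re := by
  have h1 := fderiv_eq (F := fun y => (ρ y : ℂ)) (w := w) v
  rw [dbB_ofReal h] at h1
  have h2 := congrArg Complex.re h1
  rw [Complex.ofReal_re] at h2
  rw [h2, Complex.re_sum, Complex.re_sum, Finset.mul_sum]
  refine Finset.sum_congr rfl fun j _ => ?_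
  rw [db_real j h, ← map_mul, Complex.add_re, Complex.conj_re]
  ring

theorem dbB_norm_ee (k : Fin n) : ‖(ee k : En n)‖ = 1 := by
  rw [PiLp.norm_single, norm_one]

theorem dbB_norm_I_ee (k : Fin n) : ‖(Complex.I • ee k : En n)‖ = 1 := by
  rw [norm_smul, Complex.norm_I, dbB_norm_ee, one_mul]

theorem dbB_le (k : Fin n) (L : En n →L[ℝ] ℂ) :
    ‖L (ee k)‖ ≤ ‖L‖ ∧ ‖Complex.I * L (Complex.I • ee k)‖ ≤ ‖L‖ := by
  constructor
  · have h := L.le_opNorm (ee k)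
    rwa [dbB_norm_ee, mul_one] at h
  · rw [norm_mul, Complex.norm_I, one_mul]
    have h := L.le_opNorm (Complex.I • ee k)
    rwa [dbB_norm_I_ee, mul_one] at h

theorem norm_db_le (k : Fin n) (F : En n → ℂ) (w : En n) : ‖db k F w‖ ≤ ‖fderiv ℝ F w‖ := by
  obtain ⟨h1, h2⟩ := dbB_le k (fderiv ℝ F w)
  unfold db
  rw [norm_mul]
  have h3 : ‖(1 / 2 : ℂ)‖ = 1 / 2 := by norm_num
  rw [h3]
  have h4 := norm_add_le (fderiv ℝ F w (ee k)) (Complex.I * fderiv ℝ F w (Complex.I • ee k))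
  linarith

theorem norm_dz_le (k : Fin n) (F : En n → ℂ) (w : En n) : ‖dz k F w‖ ≤ ‖fderiv ℝ F w‖ := by
  obtain ⟨h1, h2⟩ := dbB_le k (fderiv ℝ F w)
  unfold dz
  rw [norm_mul]
  have h3 : ‖(1 / 2 : ℂ)‖ = 1 / 2 := by norm_num
  rw [h3]
  have h4 := norm_sub_le (fderiv ℝ F w (ee k)) (Complex.I * fderiv ℝ F w (Complex.I • ee k))
  linarith

theorem dbB_contDiff {F : En n → ℂ} {m : ℕ}
    (hF : ContDiff ℝ ((m + 1 : ℕ) : WithTop ℕ∞) F) (v : En n) :
    ContDiff ℝ (m : WithTop ℕ∞) fun y => fderiv ℝ F y v := by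
  have h1 : ContDiff ℝ (m : WithTop ℕ∞) (fderiv ℝ F) := hF.fderiv_right (by push_cast; exact le_rfl)
  exact h1.clm_apply contDiff_const

theorem contDiff_db {F : En n → ℂ} {m : ℕ} (k : Fin n)
    (hF : ContDiff ℝ ((m + 1 : ℕ) : WithTop ℕ∞) F) : ContDiff ℝ (m : WithTop ℕ∞) (db k F) :=
  contDiff_const.mul ((dbB_contDiff hF _).add (contDiff_const.mul (dbB_contDiff hF _)))

theorem contDiff_dz {F : En n → ℂ} {m : ℕ} (k : Fin n)
    (hF : ContDiff ℝ ((m + 1 : ℕ) : WithTop ℕ∞) F) : ContDiff ℝ (m : WithTop ℕ∞) (dz k F) :=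
  contDiff_const.mul ((dbB_contDiff hF _).sub (contDiff_const.mul (dbB_contDiff hF _)))

theorem dbB_second {F : En n → ℂ} (hF : ContDiff ℝ 2 F) (l : Fin n) (w u : En n) :
    fderiv ℝ (fun y => db l F y) w u = (1 / 2) * (fderiv ℝ (fderiv ℝ F) w u (ee l) +
      Complex.I * fderiv ℝ (fderiv ℝ F) w u (Complex.I • ee l)) := by
  have hd : DifferentiableAt ℝ (fderiv ℝ F) w :=
    (hF.fderiv_right (m := 1) (by norm_num)).differentiable one_ne_zero w
  have h1 : ∀ v : En n, HasFDerivAt (fun y => fderiv ℝ F y v)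
      ((ContinuousLinearMap.apply ℝ ℂ v).comp (fderiv ℝ (fderiv ℝ F) w)) w := fun v =>
    (ContinuousLinearMap.apply ℝ ℂ v).hasFDerivAt.comp w hd.hasFDerivAt
  have h2 := (((h1 (ee l)).add ((h1 (Complex.I • ee l)).const_mul Complex.I)).const_mul
    (1 / 2 : ℂ)).fderiv
  have h3 := congrArg (fun T : En n →L[ℝ] ℂ => T u) h2
  exact h3

/-- The mixed derivatives commute. -/
theorem db_symm {F : En n → ℂ} (hF : ContDiff ℝ 2 F) (k l : Fin n) (w : En n) :
    db k (fun y => db l F y) w = db l (fun y => db k F y) w := by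
  have hs : IsSymmSndFDerivAt ℝ F w := hF.contDiffAt.isSymmSndFDerivAt (by simp)
  conv_lhs => unfold db
  conv_rhs => unfold db
  have e1 := dbB_second hF l w (ee k)
  have e2 := dbB_second hF l w (Complex.I • ee k)
  have e3 := dbB_second hF k w (ee l)
  have e4 := dbB_second hF k w (Complex.I • ee l)
  unfold db at e1 e2 e3 e4
  rw [e1, e2, e3, e4, hs.eq (ee k) (ee l), hs.eq (ee k) (Complex.I • ee l),
    hs.eq (Complex.I • ee k) (ee l), hs.eq (Complex.I • ee k) (Complex.I • ee l)]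
  ring

end Pool.Agent.MPca0fc2.CX
end

section

/-!
Task CX GeoA: elementary geometry of strongly convex domains.
PROOFS. `convexOn`: from the first order inequality `conv` (two points `x`, `y`, `w = a x + b y`; use
`conv w x`, `conv w y` and add). `fderiv_pr`: `fderiv_real`. `growth`: `conv 0 z` and
`fderiv ℝ ρ 0 = 0` (minimum: `IsLocalMin.fderiv_eq_zero`). `exists_R`: from `growth`.
`exists_L`: all functions are continuous (`ρ` is `C³`, `contDiff_dz`, `contDiff_db`) hence bounded on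
the compact ball of radius `R`; the Lipschitz bounds from the bounds of the derivatives on the convex
ball (`Convex.norm_image_sub_le_of_norm_fderiv_le`); the last one is Taylor's formula of order two:
`ρ w - ρ z - ρ'(z)(w - z) = ∫ (ρ'(z + s (w - z)) - ρ'(z)) (w - z) ds`, or the mean value inequality for
`s ↦ ρ (z + s (w - z)) - s ρ'(z)(w - z)` with the Lipschitz bound of `fderiv ℝ ρ` on the ball.
The matrix entry bound: `db k (fun y => 𝓓.th y j)` is continuous. `A_eq`: `Fin.sum_univ_succ`,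
`Fin.cons_zero`, `Fin.cons_succ`. `re_A`: `conv w z` and `fderiv_pr`.
-/

set_option autoImplicit false

open Metric Set MeasureTheory Filter Topology
open scoped ComplexOrder

namespace Pool.Agent.MPca0fc2.CX

namespace Dm

variable {n : ℕ} (𝓓 : Dm n)

theorem geoA_cont : Continuous 𝓓.ρ := 𝓓.sm.continuous

theorem geoA_diff : Differentiable ℝ 𝓓.ρ := 𝓓.sm.differentiable (by norm_num)

theorem geoA_pr_neg (z v : En n) : 𝓓.pr z (-v) = -𝓓.pr z v := by
  unfold pr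
  rw [← Finset.sum_neg_distrib]
  refine Finset.sum_congr rfl fun j _ => ?_
  have h : (-v) j = -(v j) := rfl
  rw [h]
  ring

theorem isOpen_D : IsOpen 𝓓.D := by
  unfold D
  exact isOpen_lt 𝓓.geoA_cont continuous_const

theorem convexOn : ConvexOn ℝ univ 𝓓.ρ := by
  refine ⟨convex_univ, ?_⟩
  intro x _ y _ a b ha hb hab
  have hx := 𝓓.conv (a • x + b • y) x
  have hy := 𝓓.conv (a • x + b • y) y
  have hc := 𝓓.cpos
  have h1 : a * fderiv ℝ 𝓓.ρ (a • x + b • y) (x - (a • x + b • y)) +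
      b * fderiv ℝ 𝓓.ρ (a • x + b • y) (y - (a • x + b • y)) = 0 := by
    rw [← smul_eq_mul, ← smul_eq_mul, ← map_smul, ← map_smul, ← map_add]
    have h2 : a • (x - (a • x + b • y)) + b • (y - (a • x + b • y)) = 0 := by
      have h3 : a • (x - (a • x + b • y)) + b • (y - (a • x + b • y)) =
          (a • x + b • y) - (a + b) • (a • x + b • y) := by
        rw [add_smul a b, smul_sub, smul_sub]
        abel
      rw [h3, hab, one_smul, sub_self]
    rw [h2, map_zero]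
  have hx2 : 0 ≤ 𝓓.c * ‖x - (a • x + b • y)‖ ^ 2 := by positivity
  have hy2 : 0 ≤ 𝓓.c * ‖y - (a • x + b • y)‖ ^ 2 := by positivity
  have hx3 : a * (𝓓.ρ (a • x + b • y) + fderiv ℝ 𝓓.ρ (a • x + b • y) (x - (a • x + b • y))) ≤
      a * 𝓓.ρ x := mul_le_mul_of_nonneg_left (by linarith) ha
  have hy3 : b * (𝓓.ρ (a • x + b • y) + fderiv ℝ 𝓓.ρ (a • x + b • y) (y - (a • x + b • y))) ≤
      b * 𝓓.ρ y := mul_le_mul_of_nonneg_left (by linarith) hb
  have h4 : 𝓓.ρ (a • x + b • y) = a * 𝓓.ρ (a • x + b • y) + b * 𝓓.ρ (a • x + b • y) := by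
    rw [← add_mul, hab, one_mul]
  rw [smul_eq_mul, smul_eq_mul]
  rw [mul_add] at hx3 hy3
  linarith

theorem fderiv_pr (w v : En n) : fderiv ℝ 𝓓.ρ w v = 2 * (𝓓.pr w v).re := by
  unfold pr
  exact fderiv_real (𝓓.geoA_diff w) v

/-- growth -/
theorem growth (z : En n) : 𝓓.ρ 0 + 𝓓.c * ‖z‖ ^ 2 ≤ 𝓓.ρ z := by
  have h := 𝓓.conv 0 z
  have h1 : IsLocalMin 𝓓.ρ 0 := Filter.Eventually.of_forall 𝓓.min0
  rw [h1.fderiv_eq_zero, sub_zero] at h
  have h2 : (0 : En n →L[ℝ] ℝ) z = 0 := rfl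
  rw [h2, add_zero] at h
  exact h

/-- `{ρ ≤ 0}` is bounded -/
theorem exists_R : ∃ R : ℝ, 1 ≤ R ∧ ∀ z, 𝓓.ρ z ≤ 0 → ‖z‖ ≤ R := by
  have hc := 𝓓.cpos
  have h0 : 𝓓.ρ 0 < 0 := 𝓓.unit 0 (by rw [norm_zero]; norm_num)
  have hK : 0 ≤ -𝓓.ρ 0 / 𝓓.c := div_nonneg (by linarith) hc.le
  refine ⟨1 + -𝓓.ρ 0 / 𝓓.c, by linarith, ?_⟩
  intro z hz
  have hg := 𝓓.growth z
  have h1 : ‖z‖ ^ 2 ≤ -𝓓.ρ 0 / 𝓓.c := by
    rw [le_div_iff₀ hc]
    linarith
  by_contra hcon
  rw [not_le] at hcon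
  have h2 : 1 < ‖z‖ := by linarith
  have h3 : ‖z‖ ≤ ‖z‖ ^ 2 := by
    rw [sq]
    exact le_mul_of_one_le_left (norm_nonneg z) h2.le
  linarith

theorem geoA_rhoC : ContDiff ℝ 3 (fun y => (𝓓.ρ y : ℂ)) :=
  Complex.ofRealCLM.contDiff.comp 𝓓.sm

theorem geoA_thC (j : Fin (n + 1)) : ContDiff ℝ 2 (fun y => 𝓓.th y j) := by
  refine Fin.cases ?_ (fun k => ?_) j
  · have h : (fun y => 𝓓.th y 0) = fun y => -(𝓓.ρ y : ℂ) := rfl
    rw [h]
    exact (𝓓.geoA_rhoC.neg).of_le (by norm_num)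
  · have h : (fun y => 𝓓.th y k.succ) = dz k (fun y => (𝓓.ρ y : ℂ)) := by
      funext y
      rfl
    rw [h]
    have h2 : ContDiff ℝ ((2 + 1 : ℕ) : WithTop ℕ∞) (fun y => (𝓓.ρ y : ℂ)) := 𝓓.geoA_rhoC
    exact contDiff_dz (m := 2) k h2

theorem geoA_thC2 : ContDiff ℝ 2 (fun y => 𝓓.th y) := contDiff_pi.2 𝓓.geoA_thC

theorem geoA_bdd {G : Type*} [NormedAddCommGroup G] {f : En n → G} (hf : Continuous f) (R : ℝ) :
    ∃ C : ℝ, 0 ≤ C ∧ ∀ w, ‖w‖ ≤ R → ‖f w‖ ≤ C := by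
  obtain ⟨C, hC⟩ := (isCompact_closedBall (0 : En n) R).exists_bound_of_continuousOn
    (f := f) hf.continuousOn
  refine ⟨max C 0, le_max_right _ _, ?_⟩
  intro w hw
  exact (hC w (by rw [mem_closedBall, dist_zero_right]; exact hw)).trans (le_max_left _ _)

theorem geoA_lip {G : Type*} [NormedAddCommGroup G] [NormedSpace ℝ G] {f : En n → G}
    (hf : ContDiff ℝ 1 f) (R : ℝ) :
    ∃ C : ℝ, 0 ≤ C ∧ ∀ w z, ‖w‖ ≤ R → ‖z‖ ≤ R → ‖f w - f z‖ ≤ C * ‖w - z‖ := by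
  obtain ⟨C, hC0, hC⟩ := geoA_bdd (f := fderiv ℝ f) (hf.continuous_fderiv (by norm_num)) R
  refine ⟨C, hC0, ?_⟩
  intro w z hw hz
  refine Convex.norm_image_sub_le_of_norm_fderiv_le (𝕜 := ℝ) (s := closedBall (0 : En n) R)
    (fun x _ => (hf.differentiable (by norm_num)) x) (fun x hx => hC x ?_)
    (convex_closedBall _ _) ?_ ?_
  · rw [mem_closedBall, dist_zero_right] at hx
    exact hx
  · rw [mem_closedBall, dist_zero_right]
    exact hz
  · rw [mem_closedBall, dist_zero_right]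
    exact hw

theorem geoA_coord (v : En n) (j : Fin n) : ‖v j‖ ≤ ‖v‖ := EuclideanSpace.norm_eq v ▸ by
  rw [← Real.sqrt_sq (norm_nonneg (v j))]
  apply Real.sqrt_le_sqrt
  exact Finset.single_le_sum (f := fun i => ‖v i‖ ^ 2) (fun i _ => sq_nonneg _) (Finset.mem_univ j)

/-- The constants: on the ball of radius `R + 1` all derivatives up to the order `2` are bounded
by `L`. -/
theorem exists_L (R : ℝ) : ∃ L : ℝ, 1 ≤ L ∧ ∀ w z : En n, ‖w‖ ≤ R → ‖z‖ ≤ R →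
    (∀ j, ‖𝓓.th w j‖ ≤ L) ∧ (∀ j k, ‖db k (fun y => 𝓓.th y j) w‖ ≤ L) ∧
    |𝓓.ρ w - 𝓓.ρ z| ≤ L * ‖w - z‖ ∧
    (∀ v, ‖𝓓.pr w v‖ ≤ L * ‖v‖) ∧
    (∀ v, ‖𝓓.pr w v - 𝓓.pr z v‖ ≤ L * ‖w - z‖ * ‖v‖) ∧
    (∀ j, ‖𝓓.th w j - 𝓓.th z j‖ ≤ L * ‖w - z‖) ∧
    |𝓓.ρ w - 𝓓.ρ z - fderiv ℝ 𝓓.ρ z (w - z)| ≤ L * ‖w - z‖ ^ 2 := by
  have hdb : ∀ (j : Fin (n + 1)) (k : Fin n),
      Continuous (db k (fun y => 𝓓.th y j)) := by
    intro j k
    have h2 : ContDiff ℝ ((1 + 1 : ℕ) : WithTop ℕ∞) (fun y => 𝓓.th y j) := 𝓓.geoA_thC j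
    exact (contDiff_db (m := 1) k h2).continuous
  obtain ⟨C1, hC10, hC1⟩ := geoA_bdd (f := fun w => 𝓓.th w) 𝓓.geoA_thC2.continuous R
  obtain ⟨C2, hC20, hC2⟩ := geoA_bdd
    (f := fun w => fun (j : Fin (n + 1)) (k : Fin n) => db k (fun y => 𝓓.th y j) w)
    (continuous_pi fun j => continuous_pi fun k => hdb j k) R
  obtain ⟨C3, hC30, hC3⟩ := geoA_lip (f := 𝓓.ρ) (𝓓.sm.of_le (by norm_num)) R
  obtain ⟨C4, hC40, hC4⟩ := geoA_lip (f := fun w => 𝓓.th w) (𝓓.geoA_thC2.of_le (by norm_num)) R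
  have hfd : ContDiff ℝ 1 (fderiv ℝ 𝓓.ρ) :=
    𝓓.sm.fderiv_right (m := 1) (by norm_num)
  obtain ⟨C5, hC50, hC5⟩ := geoA_lip (f := fderiv ℝ 𝓓.ρ) hfd R
  have hn : (0 : ℝ) ≤ (n : ℝ) := Nat.cast_nonneg n
  refine ⟨1 + C1 + C2 + C3 + C4 + C5 + n * C1 + n * C4, ?_, ?_⟩
  · have h1 : 0 ≤ n * C1 := mul_nonneg hn hC10
    have h2 : 0 ≤ n * C4 := mul_nonneg hn hC40
    linarith
  have h1 : 0 ≤ n * C1 := mul_nonneg hn hC10
  have h2 : 0 ≤ n * C4 := mul_nonneg hn hC40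
  intro w z hw hz
  have hwz : 0 ≤ ‖w - z‖ := norm_nonneg _
  have key : ∀ {K x : ℝ}, K ≤ 1 + C1 + C2 + C3 + C4 + C5 + n * C1 + n * C4 → 0 ≤ x →
      K * x ≤ (1 + C1 + C2 + C3 + C4 + C5 + n * C1 + n * C4) * x :=
    fun h hx => mul_le_mul_of_nonneg_right h hx
  refine ⟨?_, ?_, ?_, ?_, ?_, ?_, ?_⟩
  · intro j
    have h3 := (norm_le_pi_norm (𝓓.th w) j).trans (hC1 w hw)
    linarith
  · intro j k
    have h3 := hC2 w hw
    have h4 := norm_le_pi_norm (fun (j : Fin (n + 1)) (k : Fin n) => db k (fun y => 𝓓.th y j) w) j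
    have h5 := norm_le_pi_norm (fun (k : Fin n) => db k (fun y => 𝓓.th y j) w) k
    have h6 := (h5.trans h4).trans h3
    linarith
  · have h3 := hC3 w z hw hz
    rw [Real.norm_eq_abs] at h3
    exact h3.trans (key (by linarith) hwz)
  · intro v
    have hv : 0 ≤ ‖v‖ := norm_nonneg _
    have h3 : ‖𝓓.pr w v‖ ≤ n * C1 * ‖v‖ := by
      unfold pr
      refine (norm_sum_le _ _).trans ?_
      have h4 : ∀ j ∈ (Finset.univ : Finset (Fin n)),
          ‖dz j (fun y => (𝓓.ρ y : ℂ)) w * v j‖ ≤ C1 * ‖v‖ := by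
        intro j _
        rw [norm_mul]
        have h5 : ‖dz j (fun y => (𝓓.ρ y : ℂ)) w‖ ≤ C1 :=
          (norm_le_pi_norm (𝓓.th w) j.succ).trans (hC1 w hw)
        exact mul_le_mul h5 (geoA_coord v j) (norm_nonneg _) hC10
      refine (Finset.sum_le_sum h4).trans ?_
      rw [Finset.sum_const, Finset.card_univ, Fintype.card_fin, nsmul_eq_mul, mul_assoc]
    exact h3.trans (key (by linarith) hv)
  · intro v
    have hv : 0 ≤ ‖v‖ := norm_nonneg _
    have h3 : ‖𝓓.pr w v - 𝓓.pr z v‖ ≤ n * C4 * (‖w - z‖ * ‖v‖) := by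
      unfold pr
      rw [← Finset.sum_sub_distrib]
      refine (norm_sum_le _ _).trans ?_
      have h4 : ∀ j ∈ (Finset.univ : Finset (Fin n)),
          ‖dz j (fun y => (𝓓.ρ y : ℂ)) w * v j - dz j (fun y => (𝓓.ρ y : ℂ)) z * v j‖ ≤
            C4 * (‖w - z‖ * ‖v‖) := by
        intro j _
        rw [← sub_mul, norm_mul]
        have h5 : ‖dz j (fun y => (𝓓.ρ y : ℂ)) w - dz j (fun y => (𝓓.ρ y : ℂ)) z‖ ≤
            C4 * ‖w - z‖ :=
          (norm_le_pi_norm (𝓓.th w - 𝓓.th z) j.succ).trans (hC4 w z hw hz)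
        have h6 := mul_le_mul h5 (geoA_coord v j) (norm_nonneg _) (mul_nonneg hC40 hwz)
        rw [mul_assoc] at h6
        exact h6
      refine (Finset.sum_le_sum h4).trans ?_
      rw [Finset.sum_const, Finset.card_univ, Fintype.card_fin, nsmul_eq_mul, mul_assoc]
    rw [mul_assoc]
    exact h3.trans (key (by linarith) (mul_nonneg hwz hv))
  · intro j
    have h3 := (norm_le_pi_norm (𝓓.th w - 𝓓.th z) j).trans (hC4 w z hw hz)
    have h4 : ‖𝓓.th w j - 𝓓.th z j‖ ≤ C4 * ‖w - z‖ := h3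
    exact h4.trans (key (by linarith) hwz)
  · have hseg : ∀ x ∈ segment ℝ z w, ‖x‖ ≤ R ∧ ‖x - z‖ ≤ ‖w - z‖ := by
      intro x hx
      constructor
      · have h3 : x ∈ closedBall (0 : En n) R := by
          refine (convex_closedBall (0 : En n) R).segment_subset ?_ ?_ hx
          · rw [mem_closedBall, dist_zero_right]
            exact hz
          · rw [mem_closedBall, dist_zero_right]
            exact hw
        rw [mem_closedBall, dist_zero_right] at h3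
        exact h3
      · have h3 : x ∈ closedBall z ‖w - z‖ := by
          refine (convex_closedBall z ‖w - z‖).segment_subset ?_ ?_ hx
          · rw [mem_closedBall, dist_self]
            exact hwz
          · rw [mem_closedBall, dist_eq_norm]
        rw [mem_closedBall, dist_eq_norm] at h3
        exact h3
    have h4 := Convex.norm_image_sub_le_of_norm_fderiv_le' (𝕜 := ℝ) (f := 𝓓.ρ)
      (φ := fderiv ℝ 𝓓.ρ z) (C := C5 * ‖w - z‖) (s := segment ℝ z w) (x := z) (y := w)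
      (fun x _ => 𝓓.geoA_diff x) (fun x hx => by
        have h5 := hC5 x z (hseg x hx).1 hz
        exact h5.trans (mul_le_mul_of_nonneg_left (hseg x hx).2 hC50))
      (convex_segment z w) (left_mem_segment ℝ z w) (right_mem_segment ℝ z w)
    rw [Real.norm_eq_abs] at h4
    have h6 : C5 * ‖w - z‖ * ‖w - z‖ = C5 * ‖w - z‖ ^ 2 := by ring
    rw [h6] at h4
    exact h4.trans (key (by linarith) (by positivity))

theorem A_eq (w z : En n) : 𝓓.A w z = -(𝓓.ρ w : ℂ) + 𝓓.pr w (w - z) := by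
  unfold A Av pr
  rw [Fin.sum_univ_succ]
  have h1 : 𝓓.th w 0 * xv z w 0 = -(𝓓.ρ w : ℂ) := by
    show -(𝓓.ρ w : ℂ) * 1 = _
    rw [mul_one]
  rw [h1]
  rfl

/-- The basic inequality. -/
theorem re_A (w z : En n) : -𝓓.ρ w - 𝓓.ρ z + 𝓓.c * ‖w - z‖ ^ 2 ≤ 2 * (𝓓.A w z).re := by
  have h := 𝓓.conv w z
  rw [𝓓.fderiv_pr] at h
  have h1 : z - w = -(w - z) := by abel
  rw [h1, 𝓓.geoA_pr_neg, norm_neg, Complex.neg_re] at h
  rw [𝓓.A_eq, Complex.add_re, Complex.neg_re, Complex.ofReal_re]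
  linarith

end Dm

end Pool.Agent.MPca0fc2.CX
end

section

/-!
Task CX GeoB: lower and upper bounds of `A`.
PROOFS. Let `R` be from `exists_R`, `L` from `exists_L R`. `re_A` gives `-ρ w`, `-ρ z`, `c ‖w - z‖²`
`≤ 2 ‖A w z‖`. `pr w (w - z) = A w z + ρ w`, so `‖pr w (w-z)‖ ≤ 3 ‖A w z‖`. `‖pr z (w-z)‖ ≤
‖pr w (w-z)‖ + L ‖w - z‖²`. `A z w = -ρ z + pr z (z - w) = -ρ z - pr z (w - z)`.
`A_upper`: `-ρ w ≤ -ρ z + |ρ'(z)(w-z)| + L ‖w-z‖²`, `|ρ'(z)(w-z)| ≤ 2 ‖pr z (w-z)‖`,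
`‖A w z‖ ≤ -ρ w + ‖pr w (w-z)‖`.
-/

set_option autoImplicit false

open Metric Set MeasureTheory Filter Topology
open scoped ComplexOrder

namespace Pool.Agent.MPca0fc2.CX

namespace Dm

variable {n : ℕ} (𝓓 : Dm n)

theorem geoB_aux1 (z v : En n) : 𝓓.pr z (-v) = -𝓓.pr z v := by
  unfold pr
  rw [← Finset.sum_neg_distrib]
  refine Finset.sum_congr rfl fun j _ => ?_
  have h : (-v) j = -(v j) := rfl
  rw [h]
  ring

theorem geoB_aux2 (z w : En n) : ‖𝓓.pr z (z - w)‖ = ‖𝓓.pr z (w - z)‖ := by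
  have h : z - w = -(w - z) := by abel
  rw [h, geoB_aux1, norm_neg]

theorem geoB_aux3 (w z : En n) (hw : 𝓓.ρ w ≤ 0) :
    ‖𝓓.A w z‖ ≤ -𝓓.ρ w + ‖𝓓.pr w (w - z)‖ := by
  rw [𝓓.A_eq w z]
  refine (norm_add_le _ _).trans ?_
  have h : ‖(-(𝓓.ρ w : ℂ))‖ = -𝓓.ρ w := by
    rw [norm_neg, Complex.norm_real, Real.norm_eq_abs, abs_of_nonpos hw]
  rw [h]

theorem geoB_aux4 (w z : En n) (hw : 𝓓.ρ w ≤ 0) :
    ‖𝓓.pr w (w - z)‖ ≤ -𝓓.ρ w + ‖𝓓.A w z‖ := by
  have h1 : 𝓓.pr w (w - z) = (𝓓.ρ w : ℂ) + 𝓓.A w z := by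
    rw [𝓓.A_eq w z]
    ring
  rw [h1]
  refine (norm_add_le _ _).trans ?_
  have h : ‖(𝓓.ρ w : ℂ)‖ = -𝓓.ρ w := by
    rw [Complex.norm_real, Real.norm_eq_abs, abs_of_nonpos hw]
  rw [h]

/-- Consequences of the basic inequality: all quantities are controlled by `|A (w, z)|`. -/
theorem A_lower : ∃ C : ℝ, 1 ≤ C ∧ ∀ w z : En n, 𝓓.ρ w ≤ 0 → 𝓓.ρ z ≤ 0 →
    -𝓓.ρ w ≤ C * ‖𝓓.A w z‖ ∧ -𝓓.ρ z ≤ C * ‖𝓓.A w z‖ ∧ ‖w - z‖ ^ 2 ≤ C * ‖𝓓.A w z‖ ∧
    ‖𝓓.A z w‖ ≤ C * ‖𝓓.A w z‖ ∧ ‖𝓓.pr z (w - z)‖ ≤ C * ‖𝓓.A w z‖ ∧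
    ‖𝓓.pr w (w - z)‖ ≤ C * ‖𝓓.A w z‖ := by
  obtain ⟨R, hR1, hR⟩ := 𝓓.exists_R
  obtain ⟨L, hL1, hL⟩ := 𝓓.exists_L R
  have hc := 𝓓.cpos
  have hLc : 0 ≤ L * (2 / 𝓓.c) := by positivity
  have h2c : 0 ≤ 2 / 𝓓.c := by positivity
  refine ⟨5 + L * (2 / 𝓓.c) + 2 / 𝓓.c, by linarith, ?_⟩
  intro w z hw hz
  obtain ⟨-, -, -, -, h5, -, -⟩ := hL w z (hR w hw) (hR z hz)
  have hre := 𝓓.re_A w z
  have hn : (𝓓.A w z).re ≤ ‖𝓓.A w z‖ := Complex.re_le_norm _
  have ha : 0 ≤ ‖𝓓.A w z‖ := norm_nonneg _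
  have hsq : 0 ≤ ‖w - z‖ ^ 2 := by positivity
  have hcsq : 0 ≤ 𝓓.c * ‖w - z‖ ^ 2 := by positivity
  have h1 : -𝓓.ρ w ≤ 2 * ‖𝓓.A w z‖ := by linarith
  have h2 : -𝓓.ρ z ≤ 2 * ‖𝓓.A w z‖ := by linarith
  have h3 : 𝓓.c * ‖w - z‖ ^ 2 ≤ 2 * ‖𝓓.A w z‖ := by linarith
  have h4 : ‖w - z‖ ^ 2 ≤ 2 / 𝓓.c * ‖𝓓.A w z‖ := by
    rw [div_mul_eq_mul_div, le_div_iff₀ hc]
    linarith
  have h6 : ‖𝓓.pr w (w - z)‖ ≤ 3 * ‖𝓓.A w z‖ := by
    have := 𝓓.geoB_aux4 w z hw
    linarith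
  have h7 : ‖𝓓.pr z (w - z)‖ ≤ ‖𝓓.pr w (w - z)‖ + L * ‖w - z‖ ^ 2 := by
    have h8 := h5 (w - z)
    have h9 : ‖𝓓.pr z (w - z)‖ ≤ ‖𝓓.pr w (w - z)‖ + ‖𝓓.pr w (w - z) - 𝓓.pr z (w - z)‖ := by
      have := norm_sub_norm_le (𝓓.pr z (w - z)) (𝓓.pr w (w - z))
      rw [norm_sub_rev] at this
      linarith
    have h10 : L * ‖w - z‖ * ‖w - z‖ = L * ‖w - z‖ ^ 2 := by ring
    linarith
  have h11 : L * ‖w - z‖ ^ 2 ≤ L * (2 / 𝓓.c) * ‖𝓓.A w z‖ := by
    rw [mul_assoc]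
    exact mul_le_mul_of_nonneg_left h4 (by linarith)
  have h12 : ‖𝓓.pr z (w - z)‖ ≤ (3 + L * (2 / 𝓓.c)) * ‖𝓓.A w z‖ := by
    have : (3 + L * (2 / 𝓓.c)) * ‖𝓓.A w z‖ = 3 * ‖𝓓.A w z‖ + L * (2 / 𝓓.c) * ‖𝓓.A w z‖ := by ring
    linarith
  have h13 : ‖𝓓.A z w‖ ≤ -𝓓.ρ z + ‖𝓓.pr z (w - z)‖ := by
    have := 𝓓.geoB_aux3 z w hz
    rw [𝓓.geoB_aux2 z w] at this
    exact this
  have e1 : 0 ≤ L * (2 / 𝓓.c) * ‖𝓓.A w z‖ := mul_nonneg hLc ha
  have e2 : 0 ≤ 2 / 𝓓.c * ‖𝓓.A w z‖ := mul_nonneg h2c ha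
  have e3 : (5 + L * (2 / 𝓓.c) + 2 / 𝓓.c) * ‖𝓓.A w z‖ =
      5 * ‖𝓓.A w z‖ + L * (2 / 𝓓.c) * ‖𝓓.A w z‖ + 2 / 𝓓.c * ‖𝓓.A w z‖ := by ring
  have e4 : (3 + L * (2 / 𝓓.c)) * ‖𝓓.A w z‖ = 3 * ‖𝓓.A w z‖ + L * (2 / 𝓓.c) * ‖𝓓.A w z‖ := by
    ring
  rw [e3]
  rw [e4] at h12
  refine ⟨by linarith, by linarith, by linarith, by linarith, by linarith, by linarith⟩

/-- Upper bounds for `A` near `z`. -/
theorem A_upper : ∃ C : ℝ, 1 ≤ C ∧ ∀ w z : En n, 𝓓.ρ w ≤ 0 → 𝓓.ρ z ≤ 0 →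
    ‖𝓓.A w z‖ ≤ -𝓓.ρ z + C * (‖𝓓.pr z (w - z)‖ + ‖w - z‖ ^ 2) ∧
    ‖𝓓.A z w‖ ≤ -𝓓.ρ z + ‖𝓓.pr z (w - z)‖ ∧
    -𝓓.ρ w ≤ -𝓓.ρ z + C * (‖𝓓.pr z (w - z)‖ + ‖w - z‖ ^ 2) := by
  obtain ⟨R, hR1, hR⟩ := 𝓓.exists_R
  obtain ⟨L, hL1, hL⟩ := 𝓓.exists_L R
  refine ⟨3 + 2 * L, by linarith, ?_⟩
  intro w z hw hz
  obtain ⟨-, -, -, -, h5, -, h7⟩ := hL w z (hR w hw) (hR z hz)
  have hsq : 0 ≤ ‖w - z‖ ^ 2 := by positivity
  have hp : 0 ≤ ‖𝓓.pr z (w - z)‖ := norm_nonneg _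
  have h8 : |fderiv ℝ 𝓓.ρ z (w - z)| ≤ 2 * ‖𝓓.pr z (w - z)‖ := by
    rw [𝓓.fderiv_pr z (w - z), abs_mul, abs_two]
    exact mul_le_mul_of_nonneg_left (Complex.abs_re_le_norm _) (by norm_num)
  have h9 : -𝓓.ρ w ≤ -𝓓.ρ z + 2 * ‖𝓓.pr z (w - z)‖ + L * ‖w - z‖ ^ 2 := by
    have h10 := (abs_le.mp h7).1
    have h11 := (abs_le.mp h8).1
    linarith
  have h12 : ‖𝓓.pr w (w - z)‖ ≤ ‖𝓓.pr z (w - z)‖ + L * ‖w - z‖ ^ 2 := by
    have h13 := h5 (w - z)
    have h14 := norm_sub_norm_le (𝓓.pr w (w - z)) (𝓓.pr z (w - z))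
    have h15 : L * ‖w - z‖ * ‖w - z‖ = L * ‖w - z‖ ^ 2 := by ring
    linarith
  have h16 := 𝓓.geoB_aux3 w z hw
  have h17 : 0 ≤ L * ‖𝓓.pr z (w - z)‖ := by positivity
  have e1 : (3 + 2 * L) * (‖𝓓.pr z (w - z)‖ + ‖w - z‖ ^ 2) =
      3 * ‖𝓓.pr z (w - z)‖ + 3 * ‖w - z‖ ^ 2 + 2 * (L * ‖𝓓.pr z (w - z)‖) +
        2 * (L * ‖w - z‖ ^ 2) := by ring
  have h18 : 0 ≤ L * ‖w - z‖ ^ 2 := by positivity
  rw [e1]
  refine ⟨by linarith, ?_, by linarith⟩
  have := 𝓓.geoB_aux3 z w hz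
  rw [𝓓.geoB_aux2 z w] at this
  exact this

end Dm

end Pool.Agent.MPca0fc2.CX
end

section

/-!
Task CX GeoC: the gauge of the domain.
PROOFS. Mathlib `Analysis/Convex/Gauge`: `gauge_nonneg`, `gauge_smul_of_nonneg` (the complex scalar
`(t : ℂ)` acts as the real one), `gauge_add_le` (`D` is convex and a neighbourhood of `0`:
`𝓓.unit`), `g_le`: `mul_gauge_le_norm` with the unit ball; `norm_le_g`: `D ⊆ ball 0 R`
(`le_gauge_of_subset_closedBall` or similar), `g_lt_one`: `gauge_lt_one_iff_mem_interior` /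
`gauge_lt_one_eq_self_of_isOpen`; `g_le_one`: `gauge_le_one_iff_mem_closure` and
`closure D = {ρ ≤ 0}` (if `ρ z = 0` then `ρ (t z) < 0` for `t < 1` by convexity and `ρ 0 < 0`), or
directly. `g_comp`: for `z ≠ 0` put `z₁ = z / g z`, then `g z₁ = 1`, `ρ z₁ = 0`, and by convexity on
`[0, z₁]`: `ρ z ≤ (1 - g z) ρ 0`, so `1 - g z ≤ -ρ z / |ρ 0|`; and `-ρ z = ρ z₁ - ρ z ≤ L ‖z₁ - z‖ =
L (1 - g z) ‖z₁‖`. `g_out`: for `g z = s ≥ 1`, `z = s z₁`, `ρ z₁ = 0 ≤ (1 - 1/s) ρ 0 + (1/s) ρ z`, so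
`ρ z ≥ (s - 1) |ρ 0|`.
-/

set_option autoImplicit false

open Metric Set MeasureTheory Filter Topology
open scoped ComplexOrder

namespace Pool.Agent.MPca0fc2.CX

namespace Dm

variable {n : ℕ} (𝓓 : Dm n)

theorem geoC_convex : Convex ℝ 𝓓.D := by
  have h := 𝓓.convexOn.convex_lt 0
  have e : {x ∈ (univ : Set (En n)) | 𝓓.ρ x < 0} = 𝓓.D := by
    ext x; simp [Dm.D]
  rwa [e] at h

theorem geoC_ρ0 : 𝓓.ρ 0 < 0 := 𝓓.unit 0 (by simp)

theorem geoC_nhds : 𝓓.D ∈ 𝓝 (0 : En n) := 𝓓.isOpen_D.mem_nhds 𝓓.geoC_ρ0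

theorem geoC_absorbent : Absorbent ℝ 𝓓.D := absorbent_nhds_zero 𝓓.geoC_nhds

theorem geoC_smul (t : ℝ) (ht : 0 ≤ t) (z : En n) : 𝓓.g (t • z) = t * 𝓓.g z := by
  unfold Dm.g
  rw [gauge_smul_of_nonneg ht]
  rfl

/-- The gauge. -/
theorem g_nonneg (z : En n) : 0 ≤ 𝓓.g z := by
  exact gauge_nonneg z

theorem g_smul (t : ℝ) (ht : 0 ≤ t) (z : En n) : 𝓓.g ((t : ℂ) • z) = t * 𝓓.g z := by
  rw [Complex.coe_smul]
  exact 𝓓.geoC_smul t ht z

theorem g_add (x y : En n) : 𝓓.g (x + y) ≤ 𝓓.g x + 𝓓.g y := by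
  exact gauge_add_le 𝓓.geoC_convex 𝓓.geoC_absorbent x y

theorem g_le (z : En n) : 𝓓.g z ≤ ‖z‖ := by
  have h : Metric.ball (0 : En n) 1 ⊆ 𝓓.D := by
    intro y hy
    rw [mem_ball_zero_iff] at hy
    exact 𝓓.unit y hy.le
  have := mul_gauge_le_norm (x := z) h
  simpa [Dm.g] using this

theorem norm_le_g : ∃ R : ℝ, 1 ≤ R ∧ ∀ z, ‖z‖ ≤ R * 𝓓.g z := by
  obtain ⟨R, hR1, hR⟩ := 𝓓.exists_R
  refine ⟨R, hR1, fun z => ?_⟩
  have hR0 : 0 < R := by linarith
  have hsub : 𝓓.D ⊆ closedBall (0 : En n) R := by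
    intro y hy
    rw [mem_closedBall_zero_iff]
    exact hR y (le_of_lt hy)
  have h := le_gauge_of_subset_closedBall 𝓓.geoC_absorbent hR0.le hsub (x := z)
  rw [div_le_iff₀ hR0] at h
  unfold Dm.g
  linarith

theorem g_lt_one (z : En n) : 𝓓.g z < 1 ↔ 𝓓.ρ z < 0 := by
  unfold Dm.g
  rw [gauge_lt_one_iff_mem_interior 𝓓.geoC_convex 𝓓.geoC_nhds, 𝓓.isOpen_D.interior_eq]
  rfl

theorem g_le_one (z : En n) : 𝓓.g z ≤ 1 ↔ 𝓓.ρ z ≤ 0 := by
  constructor
  · intro h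
    unfold Dm.g at h
    rw [gauge_le_one_iff_mem_closure 𝓓.geoC_convex 𝓓.geoC_nhds] at h
    have hc : IsClosed {x : En n | 𝓓.ρ x ≤ 0} := isClosed_le 𝓓.sm.continuous continuous_const
    have hsub : 𝓓.D ⊆ {x : En n | 𝓓.ρ x ≤ 0} := by
      intro y hy
      have hy' : 𝓓.ρ y < 0 := hy
      exact hy'.le
    exact hc.closure_subset_iff.2 hsub h
  · intro h
    by_contra hg
    push Not at hg
    have hg0 : 0 < 𝓓.g z := by linarith
    set t : ℝ := 1 / 𝓓.g z with ht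
    have ht0 : 0 < t := by positivity
    have ht1 : t < 1 := by rw [ht, div_lt_one hg0]; exact hg
    have h1 := 𝓓.convexOn.2 (mem_univ (0 : En n)) (mem_univ z) (sub_nonneg.2 ht1.le) ht0.le
      (by ring)
    rw [smul_zero, zero_add, smul_eq_mul, smul_eq_mul] at h1
    have h0 := 𝓓.geoC_ρ0
    have h2 : 𝓓.ρ (t • z) < 0 := by nlinarith
    rw [← g_lt_one, 𝓓.geoC_smul t ht0.le, ht, one_div_mul_cancel hg0.ne'] at h2
    exact lt_irrefl _ h2

/-- the point of the boundary on the ray of `z` -/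
theorem geoC_unit (z : En n) (hz : 0 < 𝓓.g z) :
    𝓓.g ((1 / 𝓓.g z) • z) = 1 ∧ 𝓓.ρ ((1 / 𝓓.g z) • z) = 0 := by
  have h1 : 𝓓.g ((1 / 𝓓.g z) • z) = 1 := by
    rw [𝓓.geoC_smul _ (by positivity), one_div_mul_cancel hz.ne']
  refine ⟨h1, le_antisymm ((𝓓.g_le_one _).1 h1.le) ?_⟩
  by_contra h
  push Not at h
  rw [← g_lt_one, h1] at h
  exact lt_irrefl _ h

/-- `-ρ` and `1 - g` are comparable on the domain -/
theorem g_comp : ∃ C : ℝ, 1 ≤ C ∧ ∀ z, 𝓓.ρ z ≤ 0 → 1 - 𝓓.g z ≤ C * (-𝓓.ρ z) ∧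
    -𝓓.ρ z ≤ C * (1 - 𝓓.g z) := by
  obtain ⟨R, hR1, hR⟩ := 𝓓.exists_R
  obtain ⟨R', hR'1, hR'⟩ := 𝓓.norm_le_g
  obtain ⟨L, hL1, hL⟩ := 𝓓.exists_L R
  have h0 := 𝓓.geoC_ρ0
  have hm : 0 < -𝓓.ρ 0 := by linarith
  refine ⟨1 + 1 / (-𝓓.ρ 0) + L * R + (-𝓓.ρ 0), ?_, fun z hz => ?_⟩
  · have : 0 < 1 / (-𝓓.ρ 0) := by positivity
    have : 0 ≤ L * R := by positivity
    linarith
  have hinv : 0 < 1 / (-𝓓.ρ 0) := by positivity
  have hLR : 0 ≤ L * R := by positivity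
  rcases eq_or_lt_of_le (𝓓.g_nonneg z) with hg | hg
  · have hz0 : z = 0 := by
      have := hR' z
      rw [← hg, mul_zero] at this
      exact norm_le_zero_iff.1 this
    subst hz0
    rw [← hg, sub_zero]
    constructor
    · have : 1 / (-𝓓.ρ 0) * (-𝓓.ρ 0) = 1 := one_div_mul_cancel hm.ne'
      nlinarith
    · nlinarith
  · obtain ⟨h1, h2⟩ := 𝓓.geoC_unit z hg
    set z₁ : En n := (1 / 𝓓.g z) • z with hz₁
    have hgz : 𝓓.g z ≤ 1 := (𝓓.g_le_one z).2 hz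
    have hzz : z = 𝓓.g z • z₁ := by
      rw [hz₁, smul_smul, mul_one_div_cancel hg.ne', one_smul]
    have h3 := 𝓓.convexOn.2 (mem_univ (0 : En n)) (mem_univ z₁) (sub_nonneg.2 hgz) hg.le
      (by ring)
    rw [smul_zero, zero_add, ← hzz, smul_eq_mul, smul_eq_mul, h2, mul_zero, add_zero] at h3
    constructor
    · have h4 : 1 - 𝓓.g z = 1 / (-𝓓.ρ 0) * ((1 - 𝓓.g z) * (-𝓓.ρ 0)) := by
        have : 1 / (-𝓓.ρ 0) * (-𝓓.ρ 0) = 1 := one_div_mul_cancel hm.ne'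
        linear_combination -(1 - 𝓓.g z) * this
      have h5 : (1 - 𝓓.g z) * (-𝓓.ρ 0) ≤ -𝓓.ρ z := by linarith
      have h6 : 1 / (-𝓓.ρ 0) * ((1 - 𝓓.g z) * (-𝓓.ρ 0)) ≤ 1 / (-𝓓.ρ 0) * (-𝓓.ρ z) :=
        mul_le_mul_of_nonneg_left h5 hinv.le
      have h7 : 0 ≤ -𝓓.ρ z := by linarith
      nlinarith
    · have hz₁R : ‖z₁‖ ≤ R := hR z₁ h2.le
      have h4 := (hL z₁ z hz₁R (hR z hz)).2.2.1
      rw [h2, zero_sub, abs_neg] at h4
      have h5 : ‖z₁ - z‖ = (1 - 𝓓.g z) * ‖z₁‖ := by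
        have : z₁ - z = (1 - 𝓓.g z) • z₁ := by
          rw [sub_smul, one_smul, ← hzz]
        rw [this, norm_smul, Real.norm_of_nonneg (sub_nonneg.2 hgz)]
      rw [h5] at h4
      have h6 : -𝓓.ρ z ≤ |𝓓.ρ z| := neg_le_abs _
      have h7 : 0 ≤ 1 - 𝓓.g z := sub_nonneg.2 hgz
      have h8 : L * ((1 - 𝓓.g z) * ‖z₁‖) ≤ L * ((1 - 𝓓.g z) * R) := by gcongr
      nlinarith

/-- outside of the domain -/
theorem g_out : ∃ c : ℝ, 0 < c ∧ ∀ z, 0 ≤ 𝓓.ρ z → c * (𝓓.g z - 1) ≤ 𝓓.ρ z := by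
  have h0 := 𝓓.geoC_ρ0
  refine ⟨-𝓓.ρ 0, by linarith, fun z hz => ?_⟩
  have hg : 1 ≤ 𝓓.g z := by
    by_contra h
    push Not at h
    rw [g_lt_one] at h
    linarith
  have hg0 : 0 < 𝓓.g z := by linarith
  obtain ⟨-, h2⟩ := 𝓓.geoC_unit z hg0
  have ht0 : 0 < 1 / 𝓓.g z := by positivity
  have ht1 : 1 / 𝓓.g z ≤ 1 := by rw [div_le_one hg0]; exact hg
  have h3 := 𝓓.convexOn.2 (mem_univ (0 : En n)) (mem_univ z) (sub_nonneg.2 ht1) ht0.le
    (by ring)
  rw [smul_zero, zero_add, smul_eq_mul, smul_eq_mul, h2] at h3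
  have h4 := mul_le_mul_of_nonneg_left h3 hg0.le
  rw [mul_zero] at h4
  have h5 : 𝓓.g z * ((1 - 1 / 𝓓.g z) * 𝓓.ρ 0 + 1 / 𝓓.g z * 𝓓.ρ z) =
      (𝓓.g z - 1) * 𝓓.ρ 0 + 𝓓.ρ z := by
    field_simp
  rw [h5] at h4
  linarith

end Dm

end Pool.Agent.MPca0fc2.CX
end

section

/-!
Task CX DetA: derivatives of determinants.
PROOFS: `Matrix.det_apply'`: `det M = ∑ σ, sign σ * ∏ i, M (σ i) i`. Product rule (`db_prod`, `db_sum`,
`db_const_mul`; `HasDerivAt.fun_finsetProd`/`HasDerivAt.finset_prod` for the real variable), then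
exchange the sums: the term with the factor `i = b` differentiated is the expansion of
`det (M.updateCol b (db ..))`: for `σ`, `∏ i, (updateCol M b u) (σ i) i = u (σ b) * ∏_{i ≠ b} M (σ i) i`
(`Finset.mul_prod_erase`, `Matrix.updateCol_apply`).
-/

set_option autoImplicit false

open Metric Set MeasureTheory Filter Topology
open scoped ComplexOrder

namespace Pool.Agent.MPca0fc2.CX

variable {n N : ℕ}

theorem detA_aux1 (M : Matrix (Fin N) (Fin N) ℂ) (b : Fin N) (u : Fin N → ℂ)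
    (σ : Equiv.Perm (Fin N)) :
    ∏ i, (M.updateCol b u) (σ i) i = (∏ i ∈ Finset.univ.erase b, M (σ i) i) * u (σ b) := by
  rw [← Finset.prod_erase_mul _ _ (Finset.mem_univ b)]
  congr 1
  · refine Finset.prod_congr rfl fun i hi => ?_
    rw [Matrix.updateCol_ne (Finset.ne_of_mem_erase hi)]
  · rw [Matrix.updateCol_self]

theorem detA_aux2 (M M' : Matrix (Fin N) (Fin N) ℂ) :
    ∑ b, (M.updateCol b fun a => M' a b).det =
      ∑ σ : Equiv.Perm (Fin N), (((Equiv.Perm.sign σ : ℤˣ) : ℤ) : ℂ) *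
        ∑ b, (∏ i ∈ Finset.univ.erase b, M (σ i) i) * M' (σ b) b := by
  simp_rw [Matrix.det_apply', detA_aux1, Finset.mul_sum]
  rw [Finset.sum_comm]

/-- `det` is a polynomial in the entries, hence differentiable. -/
theorem det_differentiableAt {M : En n → Matrix (Fin N) (Fin N) ℂ} {w : En n}
    (hM : ∀ i j, DifferentiableAt ℝ (fun y => M y i j) w) :
    DifferentiableAt ℝ (fun y => (M y).det) w := by
  simp_rw [Matrix.det_apply']
  refine DifferentiableAt.fun_sum fun σ _ => ?_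
  refine DifferentiableAt.const_mul ?_ _
  exact (HasFDerivAt.finsetProd fun i _ => (hM (σ i) i).hasFDerivAt).differentiableAt

theorem db_det {M : En n → Matrix (Fin N) (Fin N) ℂ} {w : En n} (k : Fin n)
    (hM : ∀ i j, DifferentiableAt ℝ (fun y => M y i j) w) :
    db k (fun y => (M y).det) w =
      ∑ b, ((M w).updateCol b fun a => db k (fun y => M y a b) w).det := by
  have hp : ∀ σ : Equiv.Perm (Fin N),
      DifferentiableAt ℝ (fun y => ∏ i, M y (σ i) i) w := fun σ =>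
    (HasFDerivAt.finsetProd fun i _ => (hM (σ i) i).hasFDerivAt).differentiableAt
  have h1 := detA_aux2 (M w) (Matrix.of fun a b => db k (fun y => M y a b) w)
  simp only [Matrix.of_apply] at h1
  rw [h1]
  simp_rw [Matrix.det_apply']
  rw [db_sum k fun σ _ => (hp σ).const_mul _]
  refine Finset.sum_congr rfl fun σ _ => ?_
  rw [db_const_mul k _ (hp σ), db_prod k fun i _ => hM (σ i) i]

theorem hasDerivAt_det {M : ℝ → Matrix (Fin N) (Fin N) ℂ} {M' : Matrix (Fin N) (Fin N) ℂ} {t : ℝ}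
    (hM : ∀ i j, HasDerivAt (fun s => M s i j) (M' i j) t) :
    HasDerivAt (fun s => (M s).det) (∑ b, ((M t).updateCol b fun a => M' a b).det) t := by
  rw [detA_aux2]
  simp_rw [Matrix.det_apply']
  refine HasDerivAt.fun_sum fun σ _ => ?_
  refine HasDerivAt.const_mul _ ?_
  have := HasDerivAt.fun_finsetProd (u := Finset.univ) (f := fun i s => M s (σ i) i)
    (f' := fun i => M' (σ i) i) (x := t) fun i _ => hM (σ i) i
  simpa [smul_eq_mul] using this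

end Pool.Agent.MPca0fc2.CX
end

section

/-!
Task CX EndA: the section of an ellipsoid.
PROOFS. `hf H v = star x ⬝ᵥ H *ᵥ x` with `x = star v`. `hf_im`: Hermitian. `hf_lower`: `(hf H v).re` is
continuous and positive on the compact unit sphere, homogeneous (`hf_smul`). `Av_esec`:
`s (r² - h) + s ∑_j (w_j - z_j) ∑_k H_jk conj (w_k - z_k) = s r²`. `Om_esec`: `db k` of the component
`0` is `- s ∑_j H_jk (w_j - z_j)`, `db k` of the component `j` is `s H_jk` (`db_conj_coord`); the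
matrix is `s` times `[[r² - h, -∑_j v_j H_jk], [∑_k H_jk conj v_k, H_jk]]`, `v = w - z`; subtract
`∑_k conj v_k * (column k)` from the column `0` (`Matrix.det_updateCol_add_smul_self` repeatedly or
multiply by a triangular matrix, or a block determinant `Matrix.det_fromBlocks..` with a Schur
complement if `H` is invertible - note that `H` is arbitrary here): the column `0` becomes `(r², 0)`.
-/

set_option autoImplicit false

open Metric Set MeasureTheory Filter Topology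
open scoped ComplexOrder

namespace Pool.Agent.MPca0fc2.CX

variable {n : ℕ}

theorem endA_conj_hf {H : Matrix (Fin n) (Fin n) ℂ} (hH : H.IsHermitian) (v : En n) :
    (starRingEnd ℂ) (hf H v) = hf H v := by
  unfold hf
  rw [map_sum, Finset.sum_comm]
  have h1 : ∀ j, (starRingEnd ℂ) (∑ k, H j k * v j * (starRingEnd ℂ) (v k)) =
      ∑ k, H k j * v k * (starRingEnd ℂ) (v j) := by
    intro j
    rw [map_sum]
    refine Finset.sum_congr rfl fun k _ => ?_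
    rw [map_mul, map_mul, Complex.conj_conj]
    have h2 : (starRingEnd ℂ) (H j k) = H k j := hH.apply k j
    rw [h2]
    ring
  rw [Finset.sum_congr rfl fun j _ => h1 j]

theorem hf_im {H : Matrix (Fin n) (Fin n) ℂ} (hH : H.IsHermitian) (v : En n) : (hf H v).im = 0 :=
  Complex.conj_eq_iff_im.1 (endA_conj_hf hH v)

theorem hf_smul (H : Matrix (Fin n) (Fin n) ℂ) (c : ℂ) (v : En n) :
    hf H (c • v) = (‖c‖ ^ 2 : ℝ) * hf H v := by
  unfold hf
  rw [Finset.mul_sum]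
  refine Finset.sum_congr rfl fun j _ => ?_
  rw [Finset.mul_sum]
  refine Finset.sum_congr rfl fun k _ => ?_
  have h1 : ((‖c‖ ^ 2 : ℝ) : ℂ) = c * (starRingEnd ℂ) c := by
    rw [Complex.mul_conj, Complex.normSq_eq_norm_sq]
  rw [h1, PiLp.smul_apply, PiLp.smul_apply, smul_eq_mul, smul_eq_mul, map_mul]
  ring

theorem endA_coord_contDiff (k : Fin n) : ContDiff ℝ 2 fun w : En n => w k := by
  have h : (fun w : En n => w k) =
      ((EuclideanSpace.proj k : En n →L[ℂ] ℂ).restrictScalars ℝ : En n → ℂ) := rfl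
  rw [h]
  exact ContinuousLinearMap.contDiff _

theorem endA_conj_contDiff (k : Fin n) :
    ContDiff ℝ 2 fun w : En n => (starRingEnd ℂ) (w k) :=
  Complex.conjCLE.contDiff.comp (endA_coord_contDiff k)

theorem endA_hf_contDiff (H : Matrix (Fin n) (Fin n) ℂ) : ContDiff ℝ 2 fun w : En n => hf H w := by
  unfold hf
  refine ContDiff.sum fun j _ => ContDiff.sum fun k _ => ?_
  exact (contDiff_const.mul (endA_coord_contDiff j)).mul (endA_conj_contDiff k)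

theorem endA_hf_eq (H : Matrix (Fin n) (Fin n) ℂ) (v : En n) :
    hf H v = star (fun k => (starRingEnd ℂ) (v k)) ⬝ᵥ
      H.mulVec (fun k => (starRingEnd ℂ) (v k)) := by
  unfold hf dotProduct Matrix.mulVec dotProduct
  refine Finset.sum_congr rfl fun j _ => ?_
  rw [Finset.mul_sum]
  refine Finset.sum_congr rfl fun k _ => ?_
  have h1 : star (fun k => (starRingEnd ℂ) (v k)) j = v j := by
    show star ((starRingEnd ℂ) (v j)) = v j
    exact star_star (v j)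
  rw [h1]
  ring

theorem endA_hf_pos {H : Matrix (Fin n) (Fin n) ℂ} (hH : H.PosDef) {v : En n} (hv : v ≠ 0) :
    0 < (hf H v).re := by
  have h1 : (fun k => (starRingEnd ℂ) (v k)) ≠ 0 := by
    intro h
    apply hv
    ext k
    have h2 := congrFun h k
    have h3 : (starRingEnd ℂ) (v k) = 0 := h2
    rw [map_eq_zero] at h3
    exact h3
  have h2 := hH.dotProduct_mulVec_pos h1
  rw [← endA_hf_eq] at h2
  exact (Complex.pos_iff.1 h2).1

/-- An ellipsoid norm is equivalent to the euclidean norm. -/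
theorem hf_lower {H : Matrix (Fin n) (Fin n) ℂ} (hH : H.PosDef) :
    ∃ c : ℝ, 0 < c ∧ ∀ v : En n, c * ‖v‖ ^ 2 ≤ (hf H v).re := by
  by_cases hne : (sphere (0 : En n) 1).Nonempty
  · have hcont : ContinuousOn (fun v : En n => (hf H v).re) (sphere (0 : En n) 1) :=
      (Complex.continuous_re.comp (endA_hf_contDiff H).continuous).continuousOn
    obtain ⟨u, hu, hmin⟩ := (isCompact_sphere (0 : En n) 1).exists_isMinOn hne hcont
    have hu1 : ‖u‖ = 1 := by simpa using hu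
    have hu0 : u ≠ 0 := by
      intro h
      rw [h, norm_zero] at hu1
      exact zero_ne_one hu1
    refine ⟨(hf H u).re, endA_hf_pos hH hu0, fun v => ?_⟩
    by_cases hv : v = 0
    · subst hv
      have h0 : hf H (0 : En n) = 0 := by
        unfold hf
        simp
      rw [h0, norm_zero]
      simp
    · have hv' : 0 < ‖v‖ := norm_pos_iff.2 hv
      have h1 : v = ((‖v‖ : ℝ) : ℂ) • ((((‖v‖)⁻¹ : ℝ) : ℂ) • v) := by
        rw [smul_smul, ← Complex.ofReal_mul, mul_inv_cancel₀ hv'.ne', Complex.ofReal_one, one_smul]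
      have h2 : (((‖v‖)⁻¹ : ℝ) : ℂ) • v ∈ sphere (0 : En n) 1 := by
        rw [mem_sphere_zero_iff_norm, norm_smul, Complex.norm_real, norm_inv, norm_norm,
          inv_mul_cancel₀ hv'.ne']
      have h3 := hmin h2
      have h4 : (hf H u).re ≤ (hf H ((((‖v‖)⁻¹ : ℝ) : ℂ) • v)).re := h3
      have h5 : (hf H v).re = ‖v‖ ^ 2 * (hf H ((((‖v‖)⁻¹ : ℝ) : ℂ) • v)).re := by
        conv_lhs => rw [h1, hf_smul, Complex.re_ofReal_mul, Complex.norm_real, norm_norm]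
      rw [h5, mul_comm]
      exact mul_le_mul_of_nonneg_left h4 (by positivity)
  · refine ⟨1, one_pos, fun v => ?_⟩
    have hv : v = 0 := by
      by_contra hv
      apply hne
      have hv' : 0 < ‖v‖ := norm_pos_iff.2 hv
      refine ⟨(((‖v‖)⁻¹ : ℝ) : ℂ) • v, ?_⟩
      rw [mem_sphere_zero_iff_norm, norm_smul, Complex.norm_real, norm_inv, norm_norm,
        inv_mul_cancel₀ hv'.ne']
    subst hv
    have h0 : hf H (0 : En n) = 0 := by
      unfold hf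
      simp
    rw [h0, norm_zero]
    simp

theorem hf_upper (H : Matrix (Fin n) (Fin n) ℂ) :
    ∃ C : ℝ, 0 < C ∧ ∀ v : En n, ‖hf H v‖ ≤ C * ‖v‖ ^ 2 := by
  refine ⟨1 + ∑ j, ∑ k, ‖H j k‖, ?_, fun v => ?_⟩
  · have : 0 ≤ ∑ j, ∑ k, ‖H j k‖ :=
      Finset.sum_nonneg fun j _ => Finset.sum_nonneg fun k _ => norm_nonneg _
    linarith
  · have h1 : ‖hf H v‖ ≤ ∑ j, ∑ k, ‖H j k‖ * ‖v‖ ^ 2 := by
      unfold hf
      refine (norm_sum_le _ _).trans (Finset.sum_le_sum fun j _ => ?_)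
      refine (norm_sum_le _ _).trans (Finset.sum_le_sum fun k _ => ?_)
      rw [norm_mul, norm_mul, RCLike.norm_conj, sq, mul_assoc]
      refine mul_le_mul_of_nonneg_left ?_ (norm_nonneg _)
      exact mul_le_mul (PiLp.norm_apply_le v j) (PiLp.norm_apply_le v k) (norm_nonneg _)
        (norm_nonneg _)
    have h2 : ∑ j, ∑ k, ‖H j k‖ * ‖v‖ ^ 2 = (∑ j, ∑ k, ‖H j k‖) * ‖v‖ ^ 2 := by
      rw [Finset.sum_mul]
      exact Finset.sum_congr rfl fun j _ => by rw [Finset.sum_mul]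
    rw [h2] at h1
    have h3 : 0 ≤ ‖v‖ ^ 2 := by positivity
    linarith

theorem hf_one (v : En n) : hf (1 : Matrix (Fin n) (Fin n) ℂ) v = ((‖v‖ ^ 2 : ℝ) : ℂ) := by
  rw [EuclideanSpace.norm_sq_eq, Complex.ofReal_sum]
  unfold hf
  refine Finset.sum_congr rfl fun j _ => ?_
  rw [Finset.sum_eq_single j]
  · rw [Matrix.one_apply_eq, one_mul, Complex.mul_conj, Complex.normSq_eq_norm_sq]
  · intro k _ hk
    rw [Matrix.one_apply_ne (Ne.symm hk), zero_mul, zero_mul]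
  · intro h
    exact absurd (Finset.mem_univ j) h

theorem endA_sub_contDiff (z : En n) : ContDiff ℝ 2 fun w : En n => w - z :=
  contDiff_id.sub contDiff_const

theorem esec_contDiff (H : Matrix (Fin n) (Fin n) ℂ) (r s : ℝ) (z : En n) (a : Fin (n + 1)) :
    ContDiff ℝ 2 fun w => esec H r s z w a := by
  refine Fin.cases ?_ (fun j => ?_) a
  · have h1 : (fun w => esec H r s z w 0) =
        fun w => (s : ℂ) * ((r ^ 2 : ℝ) - hf H (w - z)) := rfl
    rw [h1]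
    exact contDiff_const.mul (contDiff_const.sub ((endA_hf_contDiff H).comp (endA_sub_contDiff z)))
  · have h1 : (fun w => esec H r s z w j.succ) =
        fun w => (s : ℂ) * ∑ k, H j k * (starRingEnd ℂ) (w k - z k) := rfl
    rw [h1]
    refine contDiff_const.mul (ContDiff.sum fun k _ => contDiff_const.mul ?_)
    exact (endA_conj_contDiff k).comp (endA_sub_contDiff z)

theorem Av_esec (H : Matrix (Fin n) (Fin n) ℂ) (r s : ℝ) (z w : En n) :
    Av (esec H r s z) z w = ((s * r ^ 2 : ℝ) : ℂ) := by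
  unfold Av
  rw [Fin.sum_univ_succ]
  have h0 : esec H r s z w 0 * xv z w 0 = (s : ℂ) * ((r ^ 2 : ℝ) - hf H (w - z)) := by
    show (s : ℂ) * ((r ^ 2 : ℝ) - hf H (w - z)) * 1 = _
    rw [mul_one]
  have h1 : ∀ j : Fin n, esec H r s z w j.succ * xv z w j.succ =
      (s : ℂ) * ∑ k, H j k * (w - z) j * (starRingEnd ℂ) ((w - z) k) := by
    intro j
    show (s : ℂ) * (∑ k, H j k * (starRingEnd ℂ) (w k - z k)) * (w j - z j) = _
    rw [mul_assoc, Finset.sum_mul]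
    congr 1
    refine Finset.sum_congr rfl fun k _ => ?_
    rw [PiLp.sub_apply, PiLp.sub_apply]
    ring
  rw [h0, Finset.sum_congr rfl fun j _ => h1 j, ← Finset.mul_sum]
  have h2 : ∑ j, ∑ k, H j k * (w - z) j * (starRingEnd ℂ) ((w - z) k) = hf H (w - z) := rfl
  rw [h2]
  push_cast
  ring

theorem endA_diff_conj (k : Fin n) (z w : En n) :
    DifferentiableAt ℝ (fun y : En n => (starRingEnd ℂ) (y k - z k)) w :=
  (((endA_conj_contDiff k).comp (endA_sub_contDiff z)).differentiable (by norm_num)) w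

theorem endA_diff_coord (k : Fin n) (z w : En n) :
    DifferentiableAt ℝ (fun y : En n => y k - z k) w :=
  (((endA_coord_contDiff k).comp (endA_sub_contDiff z)).differentiable (by norm_num)) w

/-- the derivatives of the components `1, ..., n` -/
theorem endA_db_succ (H : Matrix (Fin n) (Fin n) ℂ) (r s : ℝ) (z w : En n) (j k : Fin n) :
    db k (fun y => esec H r s z y j.succ) w = (s : ℂ) * H j k := by
  have h1 : (fun y => esec H r s z y j.succ) =
      fun y => (s : ℂ) * ∑ l, H j l * (starRingEnd ℂ) (y l - z l) := rfl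
  have hd : ∀ l, DifferentiableAt ℝ (fun y : En n => H j l * (starRingEnd ℂ) (y l - z l)) w :=
    fun l => (endA_diff_conj l z w).const_mul _
  rw [h1, db_const_mul k _ (DifferentiableAt.fun_sum fun l _ => hd l), db_sum k fun l _ => hd l]
  congr 1
  rw [Finset.sum_eq_single k]
  · rw [db_const_mul k _ (endA_diff_conj k z w), db_conj_coord, if_pos rfl, mul_one]
  · intro l _ hl
    rw [db_const_mul k _ (endA_diff_conj l z w), db_conj_coord, if_neg hl, mul_zero]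
  · intro h
    exact absurd (Finset.mem_univ k) h

/-- the derivatives of the component `0` -/
theorem endA_db_zero (H : Matrix (Fin n) (Fin n) ℂ) (r s : ℝ) (z w : En n) (k : Fin n) :
    db k (fun y => esec H r s z y 0) w = -((s : ℂ) * ∑ j, H j k * (w j - z j)) := by
  have h1 : (fun y => esec H r s z y 0) = fun y => (s : ℂ) * (((r ^ 2 : ℝ) : ℂ) -
      ∑ j, ∑ l, H j l * (y j - z j) * (starRingEnd ℂ) (y l - z l)) := rfl
  have hd1 : ∀ j l, DifferentiableAt ℝ (fun y : En n => H j l * (y j - z j)) w :=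
    fun j l => (endA_diff_coord j z w).const_mul _
  have hd : ∀ j l, DifferentiableAt ℝ
      (fun y : En n => H j l * (y j - z j) * (starRingEnd ℂ) (y l - z l)) w :=
    fun j l => (hd1 j l).mul (endA_diff_conj l z w)
  have hd2 : ∀ j, DifferentiableAt ℝ
      (fun y : En n => ∑ l, H j l * (y j - z j) * (starRingEnd ℂ) (y l - z l)) w :=
    fun j => DifferentiableAt.fun_sum fun l _ => hd j l
  have hd3 : DifferentiableAt ℝ
      (fun y : En n => ∑ j, ∑ l, H j l * (y j - z j) * (starRingEnd ℂ) (y l - z l)) w :=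
    DifferentiableAt.fun_sum fun j _ => hd2 j
  have hd4 : DifferentiableAt ℝ (fun y : En n => ((r ^ 2 : ℝ) : ℂ) -
      ∑ j, ∑ l, H j l * (y j - z j) * (starRingEnd ℂ) (y l - z l)) w :=
    (differentiableAt_const _).sub hd3
  rw [h1, db_const_mul k _ hd4,
    db_sub k (differentiableAt_const _) hd3, db_const, zero_sub, mul_neg, db_sum k fun j _ => hd2 j]
  congr 2
  refine Finset.sum_congr rfl fun j _ => ?_
  rw [db_sum k fun l _ => hd j l, Finset.sum_eq_single k]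
  · rw [db_mul k (hd1 j k) (endA_diff_conj k z w), db_const_mul k _ (endA_diff_coord j z w),
      db_coord, db_conj_coord, if_pos rfl, mul_zero, zero_mul, zero_add, mul_one]
  · intro l _ hl
    rw [db_mul k (hd1 j l) (endA_diff_conj l z w), db_const_mul k _ (endA_diff_coord j z w),
      db_coord, db_conj_coord, if_neg hl, mul_zero, zero_mul, mul_zero, add_zero]
  · intro h
    exact absurd (Finset.mem_univ k) h

theorem Om_esec (H : Matrix (Fin n) (Fin n) ℂ) (r s : ℝ) (z w : En n) :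
    Om (esec H r s z) w = ((s ^ (n + 1) * r ^ 2 : ℝ) : ℂ) * H.det := by
  unfold Om
  obtain ⟨M, hM⟩ : ∃ M, M = mt (esec H r s z) w := ⟨_, rfl⟩
  rw [← hM]
  have h00 : M 0 0 = (s : ℂ) * ((r ^ 2 : ℝ) - hf H (w - z)) := by rw [hM]; rfl
  have h0k : ∀ k : Fin n, M 0 k.succ = -((s : ℂ) * ∑ j, H j k * (w j - z j)) := by
    intro k
    rw [← endA_db_zero H r s z w k, hM]
    rfl
  have hj0 : ∀ j : Fin n, M j.succ 0 = (s : ℂ) * ∑ k, H j k * (starRingEnd ℂ) (w k - z k) := by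
    intro j
    rw [hM]
    rfl
  have hjk : ∀ j k : Fin n, M j.succ k.succ = (s : ℂ) * H j k := by
    intro j k
    rw [← endA_db_succ H r s z w j k, hM]
    rfl
  obtain ⟨c, hc⟩ : ∃ c : Fin (n + 1) → ℂ,
    c = Fin.cons 1 fun k => -(starRingEnd ℂ) (w k - z k) := ⟨_, rfl⟩
  have hc0 : c 0 = 1 := by rw [hc]; rfl
  have hck : ∀ k : Fin n, c k.succ = -(starRingEnd ℂ) (w k - z k) := fun k => by rw [hc]; rfl
  have h1 := Matrix.det_updateCol_sum M 0 c
  rw [hc0, one_smul] at h1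
  rw [← h1, Matrix.det_succ_column_zero, Fin.sum_univ_succ]
  have e0 : (M.updateCol 0 fun k => ∑ i, c i • M k i) 0 0 = ((s * r ^ 2 : ℝ) : ℂ) := by
    rw [Matrix.updateCol_self, Fin.sum_univ_succ, hc0, one_smul, h00]
    have e1 : ∀ k : Fin n, c k.succ • M 0 k.succ =
        (s : ℂ) * ∑ j, H j k * (w - z) j * (starRingEnd ℂ) ((w - z) k) := by
      intro k
      rw [hck, h0k, smul_eq_mul, neg_mul_neg, mul_left_comm, Finset.mul_sum]
      congr 1
      refine Finset.sum_congr rfl fun j _ => ?_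
      rw [PiLp.sub_apply, PiLp.sub_apply]
      ring
    rw [Finset.sum_congr rfl fun k _ => e1 k, ← Finset.mul_sum, Finset.sum_comm]
    have e2 : ∑ j, ∑ k, H j k * (w - z) j * (starRingEnd ℂ) ((w - z) k) = hf H (w - z) := rfl
    rw [e2]
    push_cast
    ring
  have e1 : ∀ j : Fin n, (M.updateCol 0 fun k => ∑ i, c i • M k i) j.succ 0 = 0 := by
    intro j
    rw [Matrix.updateCol_self, Fin.sum_univ_succ, hc0, one_smul, hj0]
    have e2 : ∀ k : Fin n, c k.succ • M j.succ k.succ =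
        -((s : ℂ) * (H j k * (starRingEnd ℂ) (w k - z k))) := by
      intro k
      rw [hck, hjk, smul_eq_mul]
      ring
    rw [Finset.sum_congr rfl fun k _ => e2 k, Finset.sum_neg_distrib, ← Finset.mul_sum,
      add_neg_cancel]
  have e3 : ((M.updateCol 0 fun k => ∑ i, c i • M k i).submatrix (Fin.succAbove 0) Fin.succ).det =
      (s : ℂ) ^ n * H.det := by
    have e4 : (M.updateCol 0 fun k => ∑ i, c i • M k i).submatrix (Fin.succAbove 0) Fin.succ =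
        (s : ℂ) • H := by
      ext j k
      rw [Matrix.submatrix_apply, Matrix.smul_apply, smul_eq_mul, Fin.succAbove_zero,
        Matrix.updateCol_ne (Fin.succ_ne_zero k), hjk]
    rw [e4, Matrix.det_smul, Fintype.card_fin]
  rw [e0, e3, Finset.sum_eq_zero]
  · simp only [Fin.val_zero, pow_zero, one_mul, add_zero]
    push_cast
    ring
  · intro j _
    rw [e1, mul_zero, zero_mul]

end Pool.Agent.MPca0fc2.CX
end

section

/-!
Task CX Int: integration by parts.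
PROOF. For a real direction `v`: `∫ fderiv ℝ V w v = 0`. Use
`integral_bilinear_hasLineDerivAt_right_eq_neg_left_of_integrable` (Mathlib,
Analysis/Calculus/LineDeriv/IntegrationByParts) with the bilinear form `(a, b) ↦ a * b`
(`ContinuousLinearMap.mul ℝ ℂ`), `f = 1` (constant, derivative `0`) and `g = V`. Integrability:
`V` is continuous with bounded support; `fderiv ℝ V · v` is measurable (`measurable_fderiv_apply_const`
or `measurable_fderiv`), bounded by `C ‖v‖`, and vanishes for `‖w‖ > R` (there `V` is locally `0`).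
Then split `db k V w` into the two directions.
-/

set_option autoImplicit false

open Metric Set MeasureTheory Filter Topology
open scoped ComplexOrder

namespace Pool.Agent.MPca0fc2.CX

variable {n : ℕ}

/-- The derivative of an everywhere differentiable function with a bounded support and a bounded
derivative has integral zero. -/
theorem integral_db_eq_zero {V : En n → ℂ} (k : Fin n) (hV : Differentiable ℝ V) {C R : ℝ}
    (hC : ∀ w, ‖fderiv ℝ V w‖ ≤ C) (hR : ∀ w, R ≤ ‖w‖ → V w = 0) :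
    ∫ w, db k V w = 0 := by
  have hVi : Integrable V := by
    refine hV.continuous.integrable_of_hasCompactSupport ?_
    refine HasCompactSupport.intro (isCompact_closedBall (0 : En n) R) fun w hw => hR w ?_
    rw [mem_closedBall_zero_iff, not_le] at hw
    exact hw.le
  have hd0 : ∀ w, w ∉ closedBall (0 : En n) R → fderiv ℝ V w = 0 := by
    intro w hw
    rw [mem_closedBall_zero_iff, not_le] at hw
    have h1 : V =ᶠ[𝓝 w] fun _ => 0 := by
      have h2 : ∀ᶠ y in 𝓝 w, R < ‖y‖ := continuous_norm.continuousAt.eventually_const_lt hw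
      filter_upwards [h2] with y hy
      exact hR y hy.le
    rw [h1.fderiv_eq, fderiv_fun_const]
    rfl
  have hdi : ∀ v, Integrable fun w => fderiv ℝ V w v := by
    intro v
    have h1 : IntegrableOn (fun w => fderiv ℝ V w v) (closedBall (0 : En n) R) := by
      refine Measure.integrableOn_of_bounded (M := C * ‖v‖) measure_closedBall_lt_top.ne
        (measurable_fderiv_apply_const ℝ V v).aestronglyMeasurable ?_
      refine Eventually.of_forall fun w => ?_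
      exact (ContinuousLinearMap.le_opNorm _ _).trans
        (mul_le_mul_of_nonneg_right (hC w) (norm_nonneg _))
    refine h1.integrable_of_forall_notMem_eq_zero fun w hw => ?_
    rw [hd0 w hw]
    rfl
  have key : ∀ v : En n, ∫ w, fderiv ℝ V w v = 0 := by
    intro v
    have h := integral_mul_fderiv_eq_neg_fderiv_mul_of_integrable (𝕜 := ℂ)
      (f := fun _ : En n => (1 : ℂ)) (g := V) (v := v) (μ := volume)
      (by simp) (by simpa using hdi v) (by simpa using hVi)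
      (fun _ _ => differentiableAt_const _) (fun x _ => hV x)
    simpa using h
  unfold db
  rw [integral_const_mul, integral_add (hdi _) ((hdi _).const_mul _), integral_const_mul, key, key]
  simp

end Pool.Agent.MPca0fc2.CX
end
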