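import Mathlib
import Pool.Agent.Lib.MP_ca0fc2_an.Defs

section

/-! Basic definitions: forms of type `(0, q)` on a domain of `ℂⁿ`, the kernel of the homotopy
formula, the geometric hypotheses, the potentials. -/

set_option autoImplicit false

open Metric Set MeasureTheory Filter Topology

namespace Pool.Agent.MPca0fc2.FD

/-- `ℂⁿ` -/
abbrev Ec (n : ℕ) := EuclideanSpace ℂ (Fin n)

/-- basis vectors -/
noncomputable def ee {n : ℕ} (k : Fin n) : Ec n := EuclideanSpace.single k (1 : ℂ)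

/-- `Fin.snoc` without dependent types -/
def sn {α : Type*} {m : ℕ} (f : Fin m → α) (a : α) : Fin (m + 1) → α :=
  Fin.snoc (α := fun _ => α) f a

/-- `Fin.cons` without dependent types -/
def cn {α : Type*} {m : ℕ} (a : α) (f : Fin m → α) : Fin (m + 1) → α :=
  Fin.cons (α := fun _ => α) a f

section forms

variable {n : ℕ} {V : Type*} [NormedAddCommGroup V] [NormedSpace ℂ V]

/-- the conjugate linear part of the real derivative -/
noncomputable def db (G : Ec n → V) (z X : Ec n) : V :=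
  (2⁻¹ : ℂ) • (fderiv ℝ G z X + Complex.I • fderiv ℝ G z (Complex.I • X))

/-- forms of type `(0, q)` with values in `V`, given by their components -/
abbrev Fm (n q : ℕ) (V : Type*) := (Fin q → Fin n) → Ec n → V

/-- the components are antisymmetric -/
def AltF {q : ℕ} (η : Fm n q V) : Prop :=
  ∀ (σ : Equiv.Perm (Fin q)) (I : Fin q → Fin n) (z : Ec n),
    η (I ∘ σ) z = ((Equiv.Perm.sign σ : ℤ) : ℂ) • η I z

/-- the value of a form on vectors -/
noncomputable def ev {q : ℕ} (η : Fm n q V) (z : Ec n) (X : Fin q → Ec n) : V :=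
  ∑ I : Fin q → Fin n, (∏ i, (starRingEnd ℂ) (X i (I i))) • η I z

/-- the operator `∂̄` on forms -/
noncomputable def dbf {q : ℕ} (η : Fm n q V) : Fm n (q + 1) V := fun J z =>
  ∑ i : Fin (q + 1), ((-1 : ℂ) ^ (i : ℕ)) • db (η (J ∘ i.succAbove)) z (ee (J i))

end forms

section kernel

variable {n : ℕ}

/-- the `0`-th component of the section -/
noncomputable def w0 (δ : Ec n → ℝ) (ε τ : ℝ) (ζ : Ec n) : ℝ :=
  (1 - τ) * (ε ^ 2 * δ ζ ^ 2) + τ * δ ζ

/-- the other components of the section -/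
noncomputable def wk (h : Ec n → Ec n → Fin n → ℂ) (τ : ℝ) (z ζ : Ec n) (k : Fin n) : ℂ :=
  (1 - τ) * (starRingEnd ℂ) (ζ k - z k) + τ * h z ζ k

/-- the denominator -/
noncomputable def aa (δ : Ec n → ℝ) (h : Ec n → Ec n → Fin n → ℂ) (ε τ : ℝ) (z ζ : Ec n) : ℂ :=
  w0 δ ε τ ζ + ∑ k, wk h τ z ζ k * (ζ k - z k)

/-- the support function -/
noncomputable def vv (δ : Ec n → ℝ) (h : Ec n → Ec n → Fin n → ℂ) (z ζ : Ec n) : ℂ :=
  δ ζ + ∑ k, h z ζ k * (ζ k - z k)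

/-- the scalar factor of the kernel -/
noncomputable def F0 (δ : Ec n → ℝ) (h : Ec n → Ec n → Fin n → ℂ) (ε τ : ℝ) (z ζ : Ec n) : ℂ :=
  (w0 δ ε τ ζ : ℂ) ^ (n + 8) / aa δ h ε τ z ζ ^ (2 * n + 9)

/-- the scalar factor of the second part of the kernel -/
noncomputable def F1 (δ : Ec n → ℝ) (h : Ec n → Ec n → Fin n → ℂ) (ε τ : ℝ) (z ζ : Ec n) : ℂ :=
  (w0 δ ε τ ζ : ℂ) ^ (n + 8) / aa δ h ε τ z ζ ^ (2 * n + 8)

/-- the first row: the section -/
noncomputable def rx (δ : Ec n → ℝ) (h : Ec n → Ec n → Fin n → ℂ) (ε : ℝ) (q : ℕ) (τ : ℝ)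
    (z ζ : Ec n) : Fin (n + q + 1) → ℂ :=
  sn (Fin.append (wk h τ z ζ) (0 : Fin q → ℂ)) (w0 δ ε τ ζ : ℂ)

/-- the row of a direction `X` of `ζ` -/
noncomputable def rζ (δ : Ec n → ℝ) (h : Ec n → Ec n → Fin n → ℂ) (ε : ℝ) {q : ℕ}
    (I : Fin q → Fin n) (τ : ℝ) (z ζ X : Ec n) : Fin (n + q + 1) → ℂ :=
  sn (Fin.append
      (fun k => (1 - τ) * (starRingEnd ℂ) (X k) + τ * db (fun y => h z y k) ζ X)
      (fun j => (starRingEnd ℂ) (X (I j))))
    (((1 - τ) * (2 * ε ^ 2 * δ ζ) + τ) * db (fun y => (δ y : ℂ)) ζ X)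

/-- the row of a direction `Y` of `z` -/
noncomputable def rz (q : ℕ) (τ : ℝ) (Y : Ec n) : Fin (n + q + 1) → ℂ :=
  sn (Fin.append (fun k => -(1 - τ) * (starRingEnd ℂ) (Y k)) (0 : Fin q → ℂ)) 0

/-- the row of the direction `τ` -/
noncomputable def rτ (δ : Ec n → ℝ) (h : Ec n → Ec n → Fin n → ℂ) (ε : ℝ) (q : ℕ)
    (z ζ : Ec n) : Fin (n + q + 1) → ℂ :=
  sn (Fin.append (fun k => h z ζ k - (starRingEnd ℂ) (ζ k - z k)) (0 : Fin q → ℂ))
    ((δ ζ - ε ^ 2 * δ ζ ^ 2 : ℝ) : ℂ)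

/-- the kernel of the homotopy operator, on the covectors `I` in `ζ` and the vectors `Y` in `z` -/
noncomputable def Ker (δ : Ec n → ℝ) (h : Ec n → Ec n → Fin n → ℂ) (ε : ℝ) {q : ℕ}
    (I : Fin (q + 1) → Fin n) (Y : Fin q → Ec n) (τ : ℝ) (z ζ : Ec n) : ℂ :=
  F0 δ h ε τ z ζ * Matrix.det (cn (rx δ h ε (q + 1) τ z ζ)
    (Fin.append (fun l => rζ δ h ε I τ z ζ (ee l))
      (sn (fun i => rz (q + 1) τ (Y i)) (rτ δ h ε (q + 1) z ζ))))

/-- the kernel without the direction `τ` -/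
noncomputable def Kr0 (δ : Ec n → ℝ) (h : Ec n → Ec n → Fin n → ℂ) (ε : ℝ) {q : ℕ}
    (I : Fin q → Fin n) (Y : Fin q → Ec n) (τ : ℝ) (z ζ : Ec n) : ℂ :=
  F0 δ h ε τ z ζ * Matrix.det (cn (rx δ h ε q τ z ζ)
    (Fin.append (fun l => rζ δ h ε I τ z ζ (ee l)) (fun i => rz q τ (Y i))))

/-- the domain -/
def Om (U : Set (Ec n)) (δ : Ec n → ℝ) : Set (Ec n) := {z | z ∈ U ∧ 0 < δ z}

/-- the normalizing constant -/
noncomputable def cst (n : ℕ) : ℝ := ∫ x : Ec n, ((1 + ‖x‖ ^ 2) ^ (2 * n + 9))⁻¹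

/-- the constant in front of the kernels -/
noncomputable def kn (n : ℕ) : ℂ := (-1) ^ n / (cst n : ℂ)

variable {V : Type*} [NormedAddCommGroup V] [NormedSpace ℂ V]

/-- the homotopy operator -/
noncomputable def Sop (U : Set (Ec n)) (δ : Ec n → ℝ) (h : Ec n → Ec n → Fin n → ℂ) (ε : ℝ)
    {q : ℕ} (η : Fm n (q + 1) V) : Fm n q V := fun J z =>
  (kn n / (q + 1).factorial) • ∑ I : Fin (q + 1) → Fin n,
    ∫ p in Icc (0 : ℝ) 1 ×ˢ Om U δ, Ker δ h ε I (fun i => ee (J i)) p.1 z p.2 • η I p.2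

/-- the approximate identity -/
noncomputable def Rop (U : Set (Ec n)) (δ : Ec n → ℝ) (h : Ec n → Ec n → Fin n → ℂ) (ε : ℝ)
    {q : ℕ} (η : Fm n q V) : Fm n q V := fun J z =>
  ((-1) ^ q * kn n / q.factorial) • ∑ I : Fin q → Fin n,
    ∫ ζ in Om U δ, Kr0 δ h ε I (fun i => ee (J i)) 0 z ζ • η I ζ

/-- the projection onto the holomorphic functions -/
noncomputable def Pop (U : Set (Ec n)) (δ : Ec n → ℝ) (h : Ec n → Ec n → Fin n → ℂ)
    (N : Ec n → V) (z : Ec n) : V :=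
  kn n • ∫ ζ in Om U δ, Kr0 δ h 1 Fin.elim0 Fin.elim0 1 z ζ • N ζ

end kernel

end Pool.Agent.MPca0fc2.FD
end

section

/-! The geometric hypotheses, the potentials of finite sets of points of the disc, and the
exponential weight. -/

set_option autoImplicit false

open Metric Set MeasureTheory Filter Topology

namespace Pool.Agent.MPca0fc2.FD

variable {n : ℕ}

/-- complex directional derivatives: the derivative in the direction `d.1 + i d.2` -/
noncomputable def cd {T V : Type*} [NormedAddCommGroup T] [NormedSpace ℝ T]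
    [NormedAddCommGroup V] [NormedSpace ℂ V] (G : T → V) (p : T) (d : T × T) : V :=
  fderiv ℝ G p d.1 + Complex.I • fderiv ℝ G p d.2

/-- The geometric hypotheses: `{z ∈ U | 0 < δ z}` is a bounded strictly pseudoconvex domain,
`h` is a support function, `c` and `C` are constants. -/
structure Geo (U : Set (Ec n)) (δ : Ec n → ℝ) (h : Ec n → Ec n → Fin n → ℂ) (c C : ℝ) :
    Prop where
  c0 : 0 < c
  c1 : c ≤ 1
  C1 : 1 ≤ C
  opn : IsOpen U
  nb : ∀ z ∈ U, 0 < δ z → ball z c ⊆ U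
  bz : ∀ z ∈ U, ‖z‖ ≤ C
  cpt : IsCompact {z | z ∈ U ∧ 0 ≤ δ z}
  dδ : ContDiffOn ℝ 2 δ U
  dh : ContDiffOn ℝ 2 (fun p : Ec n × Ec n => h p.1 p.2) (U ×ˢ U)
  hol : ∀ ζ ∈ U, DifferentiableOn ℂ (fun z => h z ζ) U
  bδ : ∀ z ∈ U, δ z ≤ C
  bh : ∀ z ∈ U, ∀ ζ ∈ U, ‖h z ζ‖ ≤ C
  bdh : ∀ z ∈ U, ∀ ζ ∈ U, ‖fderiv ℝ (fun p : Ec n × Ec n => h p.1 p.2) (z, ζ)‖ ≤ C
  grad : ∀ z ∈ U, ∀ X : Ec n, fderiv ℝ δ z X = -2 * (∑ k, h z z k * X k).re
  pos : ∀ z ∈ U, ∀ ζ ∈ U, δ z + δ ζ + c * ‖ζ - z‖ ^ 2 ≤ 2 * (vv δ h z ζ).re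
  nd : ∀ z ∈ U, 0 < δ z → δ z < c → c ≤ ‖h z z‖

/-- the anisotropic length of `X` at the point `z` -/
noncomputable def gau (δ : Ec n → ℝ) (h : Ec n → Ec n → Fin n → ℂ) (z X : Ec n) : ℝ :=
  ‖∑ k, h z z k * X k‖ / δ z + ‖X‖ / Real.sqrt (δ z)

/-- the bound for the kernels -/
noncomputable def Kh (δ : Ec n → ℝ) (h : Ec n → Ec n → Fin n → ℂ) (z ζ : Ec n) : ℝ :=
  (δ ζ / ‖vv δ h z ζ‖) ^ (n + 8) *
    (‖vv δ h z ζ‖⁻¹ * (‖ζ - z‖ ^ (2 * n - 1))⁻¹ +
      (Real.sqrt (δ ζ))⁻¹ * (‖vv δ h z ζ‖ ^ 2)⁻¹ * (‖ζ - z‖ ^ (2 * n - 3))⁻¹)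

/-- A holomorphic function `q` with values in the disc, and its Hefer functions `H`. -/
structure QM (U : Set (Ec n)) (δ : Ec n → ℝ) (h : Ec n → Ec n → Fin n → ℂ) (q : Ec n → ℂ)
    (H : Ec n → Ec n → Fin n → ℂ) (c C : ℝ) : Prop where
  hol : DifferentiableOn ℂ q U
  Hhol : DifferentiableOn ℂ (fun p : Ec n × Ec n => H p.1 p.2) (U ×ˢ U)
  Hb : ∀ z ∈ U, ∀ ζ ∈ U, ‖H z ζ‖ ≤ C
  hef : ∀ z ∈ U, ∀ ζ ∈ U, q z - q ζ = ∑ k, H z ζ k * (z k - ζ k)
  lt : ∀ z ∈ U, 0 < δ z → c * δ z ≤ 1 - ‖q z‖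
  tan : ∀ z ∈ U, 0 < δ z → ∀ X : Ec n, ‖fderiv ℂ q z X‖ ≤
    C * (‖∑ k, h z z k * X k‖ + Real.sqrt (1 - ‖q z‖ ^ 2) * ‖X‖)
  b2 : ∀ z ∈ U, ∀ ζ ∈ U, 0 < δ z → 0 < δ ζ → ‖q z - q ζ - fderiv ℂ q ζ (z - ζ)‖ ≤ C * ‖z - ζ‖ ^ 2

/-- the invariant kernel of the disc -/
noncomputable def JJ (x η : ℂ) : ℝ :=
  (1 - ‖x‖ ^ 2) * (1 - ‖η‖ ^ 2) / ‖1 - (starRingEnd ℂ) η * x‖ ^ 2

/-- the positive harmonic function with its conjugate -/
noncomputable def Hf (η x : ℂ) : ℂ := (1 - ‖η‖ ^ 2 : ℝ) / (1 - (starRingEnd ℂ) η * x)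

/-- the kernel of the potentials -/
noncomputable def kap (s : ℝ) (x η : ℂ) : ℝ :=
  ((1 - ‖η‖ ^ 2) / ‖1 - (starRingEnd ℂ) η * x‖) ^ 2 *
    (s / ‖1 - (starRingEnd ℂ) η * x‖) ^ (1 / 4 : ℝ)

/-- finitely many functions, and finitely many points of the disc for each of them -/
structure PD (n : ℕ) where
  R : ℕ
  q : Fin R → Ec n → ℂ
  H : Fin R → Ec n → Ec n → Fin n → ℂ
  S : Fin R → Finset ℂ

/-- the hypotheses on the points and the functions -/
structure PG (P : PD n) (U : Set (Ec n)) (δ : Ec n → ℝ) (h : Ec n → Ec n → Fin n → ℂ)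
    (c C A : ℝ) : Prop where
  A1 : 1 ≤ A
  qm : ∀ r, QM U δ h (P.q r) (P.H r) c C
  sub : ∀ r, ∀ η ∈ P.S r, ‖η‖ < 1
  carl : ∀ r, ∀ x : ℂ, ‖x‖ < 1 → ∑ η ∈ P.S r, JJ x η ≤ A
  triv : ∃ r, (∀ z, P.q r z = 0) ∧ (0 : ℂ) ∈ P.S r
  lt1 : ∀ r, ∀ z ∈ U, 0 ≤ δ z → ‖P.q r z‖ < 1

/-- the potential -/
noncomputable def Ene (P : PD n) (δ : Ec n → ℝ) (z : Ec n) : ℝ :=
  ∑ r, ∑ η ∈ P.S r, kap (δ z) (P.q r z) η

/-- forms bounded by the potential -/
def Bd {V : Type*} [NormedAddCommGroup V] [NormedSpace ℂ V] (U : Set (Ec n)) (δ : Ec n → ℝ)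
    (h : Ec n → Ec n → Fin n → ℂ) (P : PD n) (B : ℝ) {q : ℕ} (η : Fm n q V) : Prop :=
  ∀ z ∈ Om U δ, ∀ X : Fin q → Ec n, ‖ev η z X‖ ≤ B * Ene P δ z * ∏ i, gau δ h z (X i)

/-- a smooth step: `0` for `s ≤ N / 2` and `1` for `s ≥ N` -/
noncomputable def th (N s : ℝ) : ℝ := Real.smoothTransition (2 * (s / N) - 1)

/-- the exponent of the weight -/
noncomputable def Ex (P : PD n) (δ : Ec n → ℝ) (κ : ℝ) (z ζ : Ec n) : ℂ :=
  -κ * ∑ r, ∑ η ∈ P.S r, (th (1 - ‖η‖ ^ 2) (δ ζ) : ℂ) * (Hf η (P.q r z) - Hf η (P.q r ζ))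

/-- the Hefer functions of the exponent: `Ex = - ∑ k, Qh k * (ζ k - z k)` -/
noncomputable def Qh (P : PD n) (δ : Ec n → ℝ) (κ : ℝ) (z ζ : Ec n) (k : Fin n) : ℂ :=
  -κ * ∑ r, ∑ η ∈ P.S r, (th (1 - ‖η‖ ^ 2) (δ ζ) : ℂ) *
    ((1 - ‖η‖ ^ 2 : ℝ) * (starRingEnd ℂ) η / ((1 - (starRingEnd ℂ) η * P.q r z) *
      (1 - (starRingEnd ℂ) η * P.q r ζ))) * P.H r z ζ k

/-- the row of the weight in the direction `X` of `ζ` -/
noncomputable def rq (P : PD n) (δ : Ec n → ℝ) (κ : ℝ) (z ζ X : Ec n) : Fin (n + 0 + 1) → ℂ :=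
  sn (Fin.append (fun k => db (fun y => Qh P δ κ z y k) ζ X) (0 : Fin 0 → ℂ)) 0

/-- the weighted kernel without the direction `τ` -/
noncomputable def KE0 (P : PD n) (δ : Ec n → ℝ) (h : Ec n → Ec n → Fin n → ℂ) (κ ε τ : ℝ)
    (z ζ : Ec n) : ℂ :=
  Complex.exp (Ex P δ κ z ζ) * ((2 * n + 8) * F0 δ h ε τ z ζ *
      Matrix.det (cn (rx δ h ε 0 τ z ζ) (fun l : Fin n => rζ δ h ε Fin.elim0 τ z ζ (ee l))) +
    F1 δ h ε τ z ζ * ∑ j : Fin n, Matrix.det (cn (rx δ h ε 0 τ z ζ)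
      (Function.update (fun l : Fin n => rζ δ h ε Fin.elim0 τ z ζ (ee l)) j
        (rq P δ κ z ζ (ee j)))))

/-- the weighted kernel with the direction `τ` in the place `k` -/
noncomputable def KEk (P : PD n) (δ : Ec n → ℝ) (h : Ec n → Ec n → Fin n → ℂ) (κ ε τ : ℝ)
    (z ζ : Ec n) (k : Fin n) : ℂ :=
  Complex.exp (Ex P δ κ z ζ) * ((2 * n + 8) * F0 δ h ε τ z ζ *
      Matrix.det (cn (rx δ h ε 0 τ z ζ) (Function.update
        (fun l : Fin n => rζ δ h ε Fin.elim0 τ z ζ (ee l)) k (rτ δ h ε 0 z ζ))) +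
    F1 δ h ε τ z ζ * ∑ j ∈ Finset.univ.erase k, Matrix.det (cn (rx δ h ε 0 τ z ζ)
      (Function.update (Function.update (fun l : Fin n => rζ δ h ε Fin.elim0 τ z ζ (ee l)) j
        (rq P δ κ z ζ (ee j))) k (rτ δ h ε 0 z ζ))))

variable {V : Type*} [NormedAddCommGroup V] [NormedSpace ℂ V]

/-- the weighted projection -/
noncomputable def PE (P : PD n) (U : Set (Ec n)) (δ : Ec n → ℝ) (h : Ec n → Ec n → Fin n → ℂ)
    (κ : ℝ) (N : Ec n → V) (z : Ec n) : V :=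
  (kn n / (2 * n + 8)) • ∫ ζ in Om U δ, KE0 P δ h κ 1 1 z ζ • N ζ

/-- the weighted approximate identity -/
noncomputable def RE (P : PD n) (U : Set (Ec n)) (δ : Ec n → ℝ) (h : Ec n → Ec n → Fin n → ℂ)
    (κ ε : ℝ) (N : Ec n → V) (z : Ec n) : V :=
  (kn n / (2 * n + 8)) • ∫ ζ in Om U δ, KE0 P δ h κ ε 0 z ζ • N ζ

/-- the weighted homotopy operator -/
noncomputable def SE (P : PD n) (U : Set (Ec n)) (δ : Ec n → ℝ) (h : Ec n → Ec n → Fin n → ℂ)
    (κ ε : ℝ) (N : Ec n → V) (z : Ec n) : V :=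
  (kn n / (2 * n + 8)) • ∫ p in Icc (0 : ℝ) 1 ×ˢ Om U δ,
    ∑ k, KEk P δ h κ ε p.1 z p.2 k • db N p.2 (ee k)

end Pool.Agent.MPca0fc2.FD
end

section

/-! The class of domains. -/

set_option autoImplicit false

open Metric Set MeasureTheory

namespace Pool.Agent.Lib.MP_ca0fc2_an

/-- `D` is a bounded strictly pseudoconvex domain `{z ∈ U | ρ z < 0}`, with a defining function `ρ`
and a holomorphic support function `h` on a neighbourhood `U` of its closure: `h` is holomorphic in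
the first variable, `h(z, z) = ∂ρ(z)` and
`2 Re ∑ h_k(z, ζ) (ζ_k - z_k) ≥ ρ(ζ) - ρ(z) + c |ζ - z|²`. -/
structure SupportData {n : ℕ} (D U : Set (EuclideanSpace ℂ (Fin n)))
    (ρ : EuclideanSpace ℂ (Fin n) → ℝ)
    (h : EuclideanSpace ℂ (Fin n) → EuclideanSpace ℂ (Fin n) → Fin n → ℂ) (c : ℝ) : Prop where
  c0 : 0 < c
  opn : IsOpen U
  eq : D = {z | z ∈ U ∧ ρ z < 0}
  cpt : IsCompact {z | z ∈ U ∧ ρ z ≤ 0}
  dρ : ContDiffOn ℝ 2 ρ U
  nd : ∀ z ∈ U, ρ z = 0 → fderiv ℝ ρ z ≠ 0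
  dh : ContDiffOn ℝ 2
    (fun p : EuclideanSpace ℂ (Fin n) × EuclideanSpace ℂ (Fin n) => h p.1 p.2) (U ×ˢ U)
  hol : ∀ ζ ∈ U, DifferentiableOn ℂ (fun z => h z ζ) U
  grad : ∀ z ∈ U, ∀ X, fderiv ℝ ρ z X = 2 * (∑ k, h z z k * X k).re
  pos : ∀ z ∈ U, ∀ ζ ∈ U,
    ρ ζ - ρ z + c * ‖ζ - z‖ ^ 2 ≤ 2 * (∑ k, h z ζ k * (ζ k - z k)).re

/-- Strictly pseudoconvex domains with a holomorphic support function. -/
def StrictlyPsc {n : ℕ} (D : Set (EuclideanSpace ℂ (Fin n))) : Prop :=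
  ∃ (U : Set (EuclideanSpace ℂ (Fin n))) (ρ : EuclideanSpace ℂ (Fin n) → ℝ)
    (h : EuclideanSpace ℂ (Fin n) → EuclideanSpace ℂ (Fin n) → Fin n → ℂ) (c : ℝ),
    SupportData D U ρ h c

end Pool.Agent.Lib.MP_ca0fc2_an
end

section

/-! Definitions for the calculus of the kernels. -/

set_option autoImplicit false

open Metric Set MeasureTheory Filter Topology

namespace Pool.Agent.MPca0fc2.FD

variable {n : ℕ}

/-- the space of the triples `(z, τ, ζ)` -/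
abbrev Tn (n : ℕ) := Ec n × ℝ × Ec n

/-- the conjugate direction `X` of `ζ` -/
noncomputable def dζ (X : Ec n) : Tn n × Tn n :=
  ((0, 0, (2⁻¹ : ℝ) • X), (0, 0, (2⁻¹ : ℝ) • (Complex.I • X)))

/-- the conjugate direction `Y` of `z` -/
noncomputable def dz (Y : Ec n) : Tn n × Tn n :=
  (((2⁻¹ : ℝ) • Y, 0, 0), ((2⁻¹ : ℝ) • (Complex.I • Y), 0, 0))

/-- the direction `τ` -/
noncomputable def dt (n : ℕ) : Tn n × Tn n := ((0, 1, 0), (0, 0, 0))

/-- the components -/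
noncomputable def GG (δ : Ec n → ℝ) (h : Ec n → Ec n → Fin n → ℂ) (ε : ℝ) {q : ℕ}
    (I : Fin q → Fin n) (p : Tn n) : Fin (n + q + 1) → ℂ :=
  sn (Fin.append (wk h p.2.1 p.1 p.2.2) (fun j => (starRingEnd ℂ) (p.2.2 (I j))))
    (w0 δ ε p.2.1 p.2.2 : ℂ)

/-- the components which are sections -/
noncomputable def πv (n q : ℕ) : Fin (n + q + 1) → ℂ :=
  sn (Fin.append (fun _ : Fin n => (1 : ℂ)) (fun _ : Fin q => (0 : ℂ))) 1

/-- the kernel with `τ` in the place of the direction `k` of `ζ` -/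
noncomputable def KA (δ : Ec n → ℝ) (h : Ec n → Ec n → Fin n → ℂ) (ε : ℝ) {q : ℕ}
    (I : Fin q → Fin n) (Y : Fin q → Ec n) (k : Fin n) (τ : ℝ) (z ζ : Ec n) : ℂ :=
  F0 δ h ε τ z ζ * Matrix.det (cn (rx δ h ε q τ z ζ)
    (Fin.append (Function.update (fun l => rζ δ h ε I τ z ζ (ee l)) k (rτ δ h ε q z ζ))
      (fun i => rz q τ (Y i))))

/-- the kernel with `τ` in the place of the direction `i` of `z` -/
noncomputable def KB (δ : Ec n → ℝ) (h : Ec n → Ec n → Fin n → ℂ) (ε : ℝ) {q : ℕ}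
    (I : Fin q → Fin n) (Y : Fin q → Ec n) (i : Fin q) (τ : ℝ) (z ζ : Ec n) : ℂ :=
  F0 δ h ε τ z ζ * Matrix.det (cn (rx δ h ε q τ z ζ)
    (Fin.append (fun l => rζ δ h ε I τ z ζ (ee l))
      (Function.update (fun i => rz q τ (Y i)) i (rτ δ h ε q z ζ))))

/-- the closure of the domain -/
def Kc (U : Set (Ec n)) (δ : Ec n → ℝ) : Set (Ec n) := {z | z ∈ U ∧ 0 ≤ δ z}

end Pool.Agent.MPca0fc2.FD
end

section

/-! Pointwise geometry: the support function and the gauge. -/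

set_option autoImplicit false

open Metric Set MeasureTheory Filter Topology

namespace Pool.Agent.MPca0fc2.FD

variable {n : ℕ}
variable {U : Set (Ec n)} {δ : Ec n → ℝ} {h : Ec n → Ec n → Fin n → ℂ} {c C : ℝ}

/-- PROOF. `|X k| ≤ ‖X‖`, `|a k| ≤ ‖a‖`. -/
theorem lin_le (a : Fin n → ℂ) (X : Ec n) : ‖∑ k, a k * X k‖ ≤ n * ‖a‖ * ‖X‖ := by
  calc ‖∑ k, a k * X k‖ ≤ ∑ k, ‖a k * X k‖ := norm_sum_le _ _
    _ ≤ ∑ _k : Fin n, ‖a‖ * ‖X‖ := by
        refine Finset.sum_le_sum fun k _ => ?_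
        rw [norm_mul]
        exact mul_le_mul (norm_le_pi_norm a k) (PiLp.norm_apply_le X k) (norm_nonneg _)
          (norm_nonneg _)
    _ = n * ‖a‖ * ‖X‖ := by
        rw [Finset.sum_const, Finset.card_univ, Fintype.card_fin, nsmul_eq_mul, mul_assoc]

/-- PROOF. `Geo.pos`, and `Re v ≤ ‖v‖`. -/
theorem v_lb (hg : Geo U δ h c C) {z ζ : Ec n} (hz : z ∈ Om U δ) (hζ : ζ ∈ Om U δ) :
    δ z ≤ 2 * ‖vv δ h z ζ‖ ∧ δ ζ ≤ 2 * ‖vv δ h z ζ‖ ∧ c * ‖ζ - z‖ ^ 2 ≤ 2 * ‖vv δ h z ζ‖ ∧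
      0 < ‖vv δ h z ζ‖ := by
  have h1 := hg.pos z hz.1 ζ hζ.1
  have h2 : (vv δ h z ζ).re ≤ ‖vv δ h z ζ‖ := Complex.re_le_norm _
  have h3 : 0 ≤ c * ‖ζ - z‖ ^ 2 := mul_nonneg hg.c0.le (sq_nonneg _)
  have hz0 := hz.2
  have hζ0 := hζ.2
  refine ⟨by linarith, by linarith, by linarith, by linarith⟩

/-- `h` is Lipschitz.
PROOF. If `‖ζ - z‖ < c` then the segment from `z` to `ζ` is in `ball z c ⊆ U` (`Geo.nb`), and for points
`a, b` of it the segment between `(z, a)` and `(z, b)` (or `(a, ζ)`, `(b, ζ)`) is in `U ×ˢ U`, where the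
derivative of `h` is bounded by `C` (`Geo.bdh`): mean value theorem
(`Convex.norm_image_sub_le_of_norm_fderiv_le` on the convex set `ball z c ×ˢ ball z c`, an open
set where `h` is differentiable). If `‖ζ - z‖ ≥ c` then
`‖h .. - h ..‖ ≤ 2 C ≤ (2 C / c) ‖ζ - z‖`. -/
theorem h_lip (n : ℕ) (c C : ℝ) : ∃ C' : ℝ, 0 < C' ∧ ∀ (U : Set (Ec n))
    (δ : Ec n → ℝ) (h : Ec n → Ec n → Fin n → ℂ), Geo U δ h c C → ∀ z ∈ Om U δ, ∀ ζ ∈ Om U δ,
    ‖h z ζ - h ζ ζ‖ ≤ C' * ‖ζ - z‖ ∧ ‖h z ζ - h z z‖ ≤ C' * ‖ζ - z‖ := by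
  refine ⟨|C| + 2 * |C| / |c| + 1, by positivity, fun U δ h hg z hz ζ hζ => ?_⟩
  have hc := hg.c0
  have hC : 0 ≤ C := by linarith [hg.C1]
  have hcc : |c| = c := abs_of_pos hc
  have hCC : |C| = C := abs_of_nonneg hC
  have hq : 0 ≤ 2 * C / c := by positivity
  rw [hcc, hCC]
  have key : ∀ a b a' b' : Ec n, a ∈ U → b ∈ U → a' ∈ U → b' ∈ U →
      (a ∈ ball z c → b ∈ ball z c → a' ∈ ball z c → b' ∈ ball z c →
      ‖h a b - h a' b'‖ ≤ C * ‖(a, b) - (a', b')‖) := by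
    intro a b a' b' _ _ _ _ ha hb ha' hb'
    have hsub : ball z c ⊆ U := hg.nb z hz.1 hz.2
    have hcv : Convex ℝ (ball z c ×ˢ ball z c) := (convex_ball z c).prod (convex_ball z c)
    have hd : ∀ x ∈ ball z c ×ˢ ball z c,
        DifferentiableAt ℝ (fun p : Ec n × Ec n => h p.1 p.2) x := by
      intro x hx
      have hxU : x ∈ U ×ˢ U := ⟨hsub hx.1, hsub hx.2⟩
      exact (hg.dh.contDiffAt ((hg.opn.prod hg.opn).mem_nhds hxU)).differentiableAt (by norm_num)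
    have hb2 : ∀ x ∈ ball z c ×ˢ ball z c,
        ‖fderiv ℝ (fun p : Ec n × Ec n => h p.1 p.2) x‖ ≤ C := by
      intro x hx
      exact hg.bdh x.1 (hsub hx.1) x.2 (hsub hx.2)
    exact hcv.norm_image_sub_le_of_norm_fderiv_le (x := (a', b')) (y := (a, b)) hd hb2
      ⟨ha', hb'⟩ ⟨ha, hb⟩
  rcases lt_or_ge ‖ζ - z‖ c with hlt | hge
  · have hzb : z ∈ ball z c := mem_ball_self hc
    have hζb : ζ ∈ ball z c := by rwa [mem_ball, dist_eq_norm]
    have e1 : ‖((z, ζ) : Ec n × Ec n) - (ζ, ζ)‖ = ‖ζ - z‖ := by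
      rw [Prod.mk_sub_mk, sub_self, Prod.norm_mk, norm_zero, norm_sub_rev,
        max_eq_left (norm_nonneg _)]
    have e2 : ‖((z, ζ) : Ec n × Ec n) - (z, z)‖ = ‖ζ - z‖ := by
      rw [Prod.mk_sub_mk, sub_self, Prod.norm_mk, norm_zero, max_eq_right (norm_nonneg _)]
    have k1 := key z ζ ζ ζ hz.1 hζ.1 hζ.1 hζ.1 hzb hζb hζb hζb
    have k2 := key z ζ z z hz.1 hζ.1 hz.1 hz.1 hzb hζb hzb hzb
    rw [e1] at k1
    rw [e2] at k2
    have hle : C * ‖ζ - z‖ ≤ (C + 2 * C / c + 1) * ‖ζ - z‖ :=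
      mul_le_mul_of_nonneg_right (by linarith) (norm_nonneg _)
    exact ⟨k1.trans hle, k2.trans hle⟩
  · have hle : 2 * C ≤ (C + 2 * C / c + 1) * ‖ζ - z‖ := by
      have h1 : 2 * C = (2 * C / c) * c := by field_simp
      calc 2 * C = (2 * C / c) * c := h1
        _ ≤ (2 * C / c) * ‖ζ - z‖ := mul_le_mul_of_nonneg_left hge hq
        _ ≤ (C + 2 * C / c + 1) * ‖ζ - z‖ :=
          mul_le_mul_of_nonneg_right (by linarith) (norm_nonneg _)
    have b1 := hg.bh z hz.1 ζ hζ.1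
    have b2 := hg.bh ζ hζ.1 ζ hζ.1
    have b3 := hg.bh z hz.1 z hz.1
    have t1 := norm_sub_le (h z ζ) (h ζ ζ)
    have t2 := norm_sub_le (h z ζ) (h z z)
    constructor <;> linarith

/-- PROOF. `v = δ ζ + ∑ h_k(z, ζ) (ζ_k - z_k)`, `lin_le`, `Geo.bh`. -/
theorem v_ub (n : ℕ) (c C : ℝ) : ∃ C' : ℝ, 0 < C' ∧ ∀ (U : Set (Ec n))
    (δ : Ec n → ℝ) (h : Ec n → Ec n → Fin n → ℂ), Geo U δ h c C → ∀ z ∈ Om U δ, ∀ ζ ∈ Om U δ,
    ‖vv δ h z ζ‖ ≤ C' * (δ ζ + ‖ζ - z‖) := by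
  refine ⟨1 + n * |C|, by positivity, fun U δ h hg z hz ζ hζ => ?_⟩
  have hC : 0 ≤ C := by linarith [hg.C1]
  have hCC : |C| = C := abs_of_nonneg hC
  rw [hCC]
  have h1 : ‖∑ k, h z ζ k * (ζ k - z k)‖ ≤ n * C * ‖ζ - z‖ := by
    refine (lin_le (h z ζ) (ζ - z)).trans ?_
    exact mul_le_mul_of_nonneg_right (mul_le_mul_of_nonneg_left (hg.bh z hz.1 ζ hζ.1)
      (Nat.cast_nonneg _)) (norm_nonneg _)
  have h2 : ‖vv δ h z ζ‖ ≤ ‖(δ ζ : ℂ)‖ + ‖∑ k, h z ζ k * (ζ k - z k)‖ := norm_add_le _ _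
  have h3 : ‖(δ ζ : ℂ)‖ = δ ζ := by
    rw [Complex.norm_real, Real.norm_eq_abs, abs_of_pos hζ.2]
  have h4 : 0 ≤ (n : ℝ) * C * δ ζ := by
    have := hζ.2.le
    positivity
  have h5 := norm_nonneg (ζ - z)
  nlinarith

/-- PROOF. `∑ h_k(ζ, ζ) (ζ_k - z_k) = v - δ ζ + ∑ (h_k(ζ, ζ) - h_k(z, ζ)) (ζ_k - z_k)`; the last sum is at
most `n C' ‖ζ - z‖²` by `h_lip`, `lin_le`, and `δ ζ`, `‖ζ - z‖²` are bounded by `v_lb`. The same for
`h(z, z)`. -/
theorem g_le (n : ℕ) (c C : ℝ) : ∃ C' : ℝ, 0 < C' ∧ ∀ (U : Set (Ec n))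
    (δ : Ec n → ℝ) (h : Ec n → Ec n → Fin n → ℂ), Geo U δ h c C → ∀ z ∈ Om U δ, ∀ ζ ∈ Om U δ,
    ‖∑ k, h ζ ζ k * (ζ k - z k)‖ ≤ C' * ‖vv δ h z ζ‖ ∧
      ‖∑ k, h z z k * (ζ k - z k)‖ ≤ C' * ‖vv δ h z ζ‖ := by
  obtain ⟨C1, hC1, hL⟩ := h_lip n c C
  refine ⟨3 + 2 * n * C1 / |c|, by positivity, fun U δ h hg z hz ζ hζ => ?_⟩
  have hc := hg.c0
  rw [abs_of_pos hc]
  obtain ⟨l1, l2⟩ := hL U δ h hg z hz ζ hζ
  obtain ⟨_, v2, v3, v4⟩ := v_lb hg hz hζ
  have hδ : ‖(δ ζ : ℂ)‖ ≤ 2 * ‖vv δ h z ζ‖ := by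
    rw [Complex.norm_real, Real.norm_eq_abs, abs_of_pos hζ.2]
    exact v2
  have hsq : ‖ζ - z‖ ^ 2 ≤ 2 * ‖vv δ h z ζ‖ / c := by
    rw [le_div_iff₀ hc]
    linarith
  have gen : ∀ a : Fin n → ℂ, ‖h z ζ - a‖ ≤ C1 * ‖ζ - z‖ →
      ‖∑ k, a k * (ζ k - z k)‖ ≤ (3 + 2 * n * C1 / c) * ‖vv δ h z ζ‖ := by
    intro a ha
    have e : ∑ k, a k * (ζ k - z k) = vv δ h z ζ - (δ ζ : ℂ) -
        ∑ k, (h z ζ - a) k * ((ζ - z : Ec n) k) := by
      unfold vv
      have : ∑ k, (h z ζ - a) k * ((ζ - z : Ec n) k) =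
          ∑ k, h z ζ k * (ζ k - z k) - ∑ k, a k * (ζ k - z k) := by
        rw [← Finset.sum_sub_distrib]
        refine Finset.sum_congr rfl fun k _ => ?_
        rw [Pi.sub_apply, PiLp.sub_apply]
        ring
      rw [this]
      ring
    have h1 := lin_le (h z ζ - a) (ζ - z)
    have h2 : (n : ℝ) * ‖h z ζ - a‖ * ‖ζ - z‖ ≤ n * C1 * ‖ζ - z‖ ^ 2 := by
      have : (n : ℝ) * ‖h z ζ - a‖ * ‖ζ - z‖ ≤ n * (C1 * ‖ζ - z‖) * ‖ζ - z‖ :=
        mul_le_mul_of_nonneg_right (mul_le_mul_of_nonneg_left ha (Nat.cast_nonneg _))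
          (norm_nonneg _)
      refine this.trans (le_of_eq ?_)
      ring
    have h3 : (n : ℝ) * C1 * ‖ζ - z‖ ^ 2 ≤ n * C1 * (2 * ‖vv δ h z ζ‖ / c) :=
      mul_le_mul_of_nonneg_left hsq (by positivity)
    rw [e]
    have h4 := norm_sub_le (vv δ h z ζ - (δ ζ : ℂ)) (∑ k, (h z ζ - a) k * ((ζ - z : Ec n) k))
    have h5 := norm_sub_le (vv δ h z ζ) (δ ζ : ℂ)
    have h6 : (3 + 2 * n * C1 / c) * ‖vv δ h z ζ‖ =
        3 * ‖vv δ h z ζ‖ + n * C1 * (2 * ‖vv δ h z ζ‖ / c) := by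
      field_simp
    rw [h6]
    linarith
  exact ⟨gen _ l1, gen _ l2⟩

/-- PROOF. From the definition. -/
theorem gau_nonneg {z : Ec n} (hz : 0 < δ z) (X : Ec n) : 0 ≤ gau δ h z X := by
  unfold gau
  positivity

/-- PROOF. From the definition: `gau ≥ ‖X‖ / √δ`. -/
theorem gau_ge {z : Ec n} (hz : 0 < δ z) (X : Ec n) : ‖X‖ ≤ Real.sqrt (δ z) * gau δ h z X := by
  unfold gau
  have hs : 0 < Real.sqrt (δ z) := Real.sqrt_pos.2 hz
  rw [mul_add, mul_div_cancel₀ _ hs.ne']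
  have : 0 ≤ Real.sqrt (δ z) * (‖∑ k, h z z k * X k‖ / δ z) := by positivity
  linarith

/-- PROOF. `lin_le`, `Geo.bh`, and `1 / √δ ≤ √C / δ` as `δ ≤ C`. -/
theorem gau_le (n : ℕ) (c C : ℝ) : ∃ C' : ℝ, 0 < C' ∧ ∀ (U : Set (Ec n))
    (δ : Ec n → ℝ) (h : Ec n → Ec n → Fin n → ℂ), Geo U δ h c C → ∀ z ∈ Om U δ, ∀ X : Ec n,
    gau δ h z X ≤ C' * ‖X‖ / δ z := by
  refine ⟨n * |C| + Real.sqrt |C| + 1, by positivity, fun U δ h hg z hz X => ?_⟩
  have hC : 0 ≤ C := by linarith [hg.C1]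
  have hCC : |C| = C := abs_of_nonneg hC
  rw [hCC]
  have hz0 := hz.2
  have hs : 0 < Real.sqrt (δ z) := Real.sqrt_pos.2 hz0
  have h1 : ‖∑ k, h z z k * X k‖ ≤ n * C * ‖X‖ := by
    refine (lin_le (h z z) X).trans ?_
    exact mul_le_mul_of_nonneg_right (mul_le_mul_of_nonneg_left (hg.bh z hz.1 z hz.1)
      (Nat.cast_nonneg _)) (norm_nonneg _)
  have h2 : ‖X‖ / Real.sqrt (δ z) ≤ Real.sqrt C * ‖X‖ / δ z := by
    rw [div_le_div_iff₀ hs hz0]
    have h3 : Real.sqrt (δ z) ≤ Real.sqrt C := Real.sqrt_le_sqrt (hg.bδ z hz.1)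
    calc ‖X‖ * δ z = ‖X‖ * (Real.sqrt (δ z) * Real.sqrt (δ z)) := by
          rw [Real.mul_self_sqrt hz0.le]
      _ ≤ ‖X‖ * (Real.sqrt C * Real.sqrt (δ z)) := by
          exact mul_le_mul_of_nonneg_left (mul_le_mul_of_nonneg_right h3 hs.le) (norm_nonneg _)
      _ = Real.sqrt C * ‖X‖ * Real.sqrt (δ z) := by ring
  unfold gau
  have h4 : ‖∑ k, h z z k * X k‖ / δ z ≤ n * C * ‖X‖ / δ z :=
    div_le_div_of_nonneg_right h1 hz0.le
  have h5 : (n * C + Real.sqrt C + 1) * ‖X‖ / δ z =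
      n * C * ‖X‖ / δ z + Real.sqrt C * ‖X‖ / δ z + ‖X‖ / δ z := by ring
  have h6 : 0 ≤ ‖X‖ / δ z := by positivity
  rw [h5]
  linarith

/-- PROOF. From the definition. -/
theorem gau_smul (z : Ec n) (a : ℂ) (X : Ec n) :
    gau δ h z (a • X) = ‖a‖ * gau δ h z X := by
  unfold gau
  have h1 : ∑ k, h z z k * (a • X) k = a * ∑ k, h z z k * X k := by
    rw [Finset.mul_sum]
    refine Finset.sum_congr rfl fun k _ => ?_
    rw [PiLp.smul_apply, smul_eq_mul]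
    ring
  rw [h1, norm_mul, norm_smul]
  ring

/-- PROOF. From the definition, triangle inequality. -/
theorem gau_add {z : Ec n} (hz : 0 < δ z) (X Y : Ec n) :
    gau δ h z (X + Y) ≤ gau δ h z X + gau δ h z Y := by
  unfold gau
  have h1 : ∑ k, h z z k * (X + Y) k = ∑ k, h z z k * X k + ∑ k, h z z k * Y k := by
    rw [← Finset.sum_add_distrib]
    refine Finset.sum_congr rfl fun k _ => ?_
    rw [PiLp.add_apply]
    ring
  have hs : 0 < Real.sqrt (δ z) := Real.sqrt_pos.2 hz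
  have h2 : ‖∑ k, h z z k * (X + Y) k‖ / δ z ≤
      (‖∑ k, h z z k * X k‖ + ‖∑ k, h z z k * Y k‖) / δ z := by
    rw [h1]
    exact div_le_div_of_nonneg_right (norm_add_le _ _) hz.le
  have h3 : ‖X + Y‖ / Real.sqrt (δ z) ≤ (‖X‖ + ‖Y‖) / Real.sqrt (δ z) :=
    div_le_div_of_nonneg_right (norm_add_le _ _) hs.le
  rw [add_div] at h2 h3
  linarith

/-- `|∂̄δ X| ≤ |h(z, z) X|`: indeed `db δ z X = - conj (∑ h_k(z, z) X_k)`.
PROOF. `Geo.grad`: `fderiv ℝ δ z X = -2 Re (g X)`, `g X = ∑ h_k(z, z) X_k`, so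
`db δ z X = 2⁻¹ (-2 Re (g X) + I (-2) Re (I g X)) = -Re (g X) + I Im (g X)`. (The function `y ↦ (δ y : ℂ)` has
the derivative `Complex.ofRealCLM ∘ fderiv ℝ δ`, `δ` is differentiable at `z ∈ U`.) -/
theorem db_δ (hg : Geo U δ h c C) {z : Ec n} (hz : z ∈ U) (X : Ec n) :
    db (fun y => (δ y : ℂ)) z X = -(starRingEnd ℂ) (∑ k, h z z k * X k) := by
  have hd : DifferentiableAt ℝ δ z :=
    (hg.dδ.contDiffAt (hg.opn.mem_nhds hz)).differentiableAt (by norm_num)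
  have hf : fderiv ℝ (fun y => (δ y : ℂ)) z = Complex.ofRealCLM.comp (fderiv ℝ δ z) :=
    (Complex.ofRealCLM.hasFDerivAt.comp z hd.hasFDerivAt).fderiv
  have h1 : ∀ Y, fderiv ℝ (fun y => (δ y : ℂ)) z Y =
      ((-2 * (∑ k, h z z k * Y k).re : ℝ) : ℂ) := by
    intro Y
    rw [hf, ContinuousLinearMap.comp_apply, hg.grad z hz Y]
    rfl
  have h2 : ∑ k, h z z k * (Complex.I • X) k = Complex.I * ∑ k, h z z k * X k := by
    rw [Finset.mul_sum]
    refine Finset.sum_congr rfl fun k _ => ?_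
    rw [PiLp.smul_apply, smul_eq_mul]
    ring
  unfold db
  rw [h1, h1, h2]
  generalize ∑ k, h z z k * X k = g
  apply Complex.ext
  · simp
  · simp

end Pool.Agent.MPca0fc2.FD
end

section

/-! Smaller domains `{δ > s}`. -/

set_option autoImplicit false

open Metric Set MeasureTheory Filter Topology

namespace Pool.Agent.MPca0fc2.FD

variable {n : ℕ} {V : Type*} [NormedAddCommGroup V] [NormedSpace ℂ V]
variable {U : Set (Ec n)} {δ : Ec n → ℝ} {h : Ec n → Ec n → Fin n → ℂ} {c C A : ℝ}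

/-- the hypotheses `PG` without the last one -/
structure PG0 (P : PD n) (U : Set (Ec n)) (δ : Ec n → ℝ) (h : Ec n → Ec n → Fin n → ℂ)
    (c C A : ℝ) : Prop where
  A1 : 1 ≤ A
  qm : ∀ r, QM U δ h (P.q r) (P.H r) c C
  sub : ∀ r, ∀ η ∈ P.S r, ‖η‖ < 1
  carl : ∀ r, ∀ x : ℂ, ‖x‖ < 1 → ∑ η ∈ P.S r, JJ x η ≤ A
  triv : ∃ r, (∀ z, P.q r z = 0) ∧ (0 : ℂ) ∈ P.S r

/-- PROOF. All the fields: `cpt`: `{z ∈ U | 0 ≤ δ z - s}` is a closed subset of the compact set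
`{z ∈ U | 0 ≤ δ z}` (`δ` is continuous on `U`); `grad`: the derivative does not change; `pos`:
`vv (δ - s) = vv δ - s`, both sides of the inequality change by `-2 s`; `nd`: `0 < δ z - s < c / 2` and
`s ≤ c / 2` give `0 < δ z < c`. -/
theorem Geo_shift (hg : Geo U δ h c C) {s : ℝ} (hs : 0 ≤ s) (hsc : s ≤ c / 2) :
    Geo U (fun z => δ z - s) h (c / 2) C := by
  have hc := hg.c0
  refine
    { c0 := by linarith
      c1 := by have := hg.c1; linarith
      C1 := hg.C1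
      opn := hg.opn
      nb := fun z hz h0 => (ball_subset_ball (by linarith)).trans (hg.nb z hz (by linarith))
      bz := hg.bz
      cpt := ?_
      dδ := hg.dδ.sub contDiffOn_const
      dh := hg.dh
      hol := hg.hol
      bδ := fun z hz => by have := hg.bδ z hz; linarith
      bh := hg.bh
      bdh := hg.bdh
      grad := ?_
      pos := ?_
      nd := ?_ }
  · have h1 : ContinuousOn δ {z | z ∈ U ∧ 0 ≤ δ z} := hg.dδ.continuousOn.mono fun z hz => hz.1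
    have h2 := h1.preimage_isClosed_of_isClosed hg.cpt.isClosed (isClosed_Ici (a := s))
    have h3 : {z | z ∈ U ∧ 0 ≤ δ z - s} = {z | z ∈ U ∧ 0 ≤ δ z} ∩ δ ⁻¹' Ici s := by
      ext z
      constructor
      · rintro ⟨hz, h0⟩
        exact ⟨⟨hz, by linarith⟩, show s ≤ δ z by linarith⟩
      · rintro ⟨⟨hz, _⟩, h0⟩
        have h4 : s ≤ δ z := h0
        exact ⟨hz, by linarith⟩
    rw [h3]
    exact hg.cpt.of_isClosed_subset h2 inter_subset_left
  · intro z hz X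
    rw [fderiv_sub_const]
    exact hg.grad z hz X
  · intro z hz ζ hζ
    have h1 := hg.pos z hz ζ hζ
    have h2 : (vv (fun z => δ z - s) h z ζ).re = (vv δ h z ζ).re - s := by
      unfold vv
      rw [Complex.add_re, Complex.add_re, Complex.ofReal_re, Complex.ofReal_re]
      ring
    rw [h2]
    have h3 : c / 2 * ‖ζ - z‖ ^ 2 ≤ c * ‖ζ - z‖ ^ 2 :=
      mul_le_mul_of_nonneg_right (by linarith) (by positivity)
    linarith
  · intro z hz h0 h1
    have h2 := hg.nd z hz (by linarith) (by linarith)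
    linarith

/-- PROOF. `Om U (δ - s) ⊆ Om U δ`; `(c / 2) (δ - s) ≤ c δ`. -/
theorem QM_shift {q : Ec n → ℂ} {H : Ec n → Ec n → Fin n → ℂ} (hc : 0 < c)
    (hq : QM U δ h q H c C) {s : ℝ} (hs : 0 ≤ s) : QM U (fun z => δ z - s) h q H (c / 2) C := by
  refine
    { hol := hq.hol
      Hhol := hq.Hhol
      Hb := hq.Hb
      hef := hq.hef
      lt := ?_
      tan := fun z hz h0 => hq.tan z hz (by linarith)
      b2 := fun z hz ζ hζ h0 h1 => hq.b2 z hz ζ hζ (by linarith) (by linarith) }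
  intro z hz h0
  have h1 := hq.lt z hz (by linarith)
  have h2 : c / 2 * (δ z - s) ≤ c * δ z :=
    mul_le_mul (by linarith) (by linarith) (by linarith) hc.le
  linarith

/-- PROOF. `QM_shift`; `lt1`: `0 ≤ δ z - s` gives `0 < δ z`, and `c δ z ≤ 1 - ‖q z‖` (`QM.lt`). -/
theorem PG_shift {P : PD n} (hc : 0 < c) (hP : PG0 P U δ h c C A) {s : ℝ} (hs : 0 < s) :
    PG P U (fun z => δ z - s) h (c / 2) C A := by
  refine
    { A1 := hP.A1
      qm := fun r => QM_shift hc (hP.qm r) hs.le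
      sub := hP.sub
      carl := hP.carl
      triv := hP.triv
      lt1 := ?_ }
  intro r z hz h0
  have h1 : 0 < δ z := by linarith
  have h2 := (hP.qm r).lt z hz h1
  have h3 : 0 < c * δ z := mul_pos hc h1
  linarith

/-- PROOF. From the definitions. -/
theorem Om_shift {s s' : ℝ} (hs : s < s') :
    Kc U (fun z => δ z - s') ⊆ Om U (fun z => δ z - s) := by
  rintro z ⟨hz, h0⟩
  exact ⟨hz, by linarith⟩

theorem K3_kap_nonneg {t : ℝ} (ht : 0 ≤ t) (x η : ℂ) : 0 ≤ kap t x η := by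
  unfold kap
  exact mul_nonneg (sq_nonneg _) (Real.rpow_nonneg (div_nonneg ht (norm_nonneg _)) _)

theorem K3_Ene_nonneg (P : PD n) {z : Ec n} (hz : 0 ≤ δ z) : 0 ≤ Ene P δ z := by
  unfold Ene
  exact Finset.sum_nonneg fun r _ => Finset.sum_nonneg fun η _ => K3_kap_nonneg hz _ _

theorem K3_kap_scale {a b : ℝ} (ha : 0 < a) (hb : 0 < b) (x η : ℂ) :
    kap a x η = (a / b) ^ (1 / 4 : ℝ) * kap b x η := by
  unfold kap
  have h1 : a / ‖1 - (starRingEnd ℂ) η * x‖ = a / b * (b / ‖1 - (starRingEnd ℂ) η * x‖) := by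
    rw [div_mul_div_comm, mul_comm a b, mul_div_mul_left _ _ hb.ne']
  rw [h1, Real.mul_rpow (div_nonneg ha.le hb.le) (div_nonneg hb.le (norm_nonneg _))]
  ring

theorem K3_gau_nonneg {a : ℝ} (ha : 0 < a) (g x : ℝ) (hg : 0 ≤ g) (hx : 0 ≤ x) :
    0 ≤ g / a + x / Real.sqrt a :=
  add_nonneg (div_nonneg hg ha.le) (div_nonneg hx (Real.sqrt_nonneg a))

theorem K3_gau_scale {a b u g x : ℝ} (hb : 0 < b) (hu : 1 ≤ u) (hu4 : u ^ 4 = a / b)
    (hg : 0 ≤ g) (hx : 0 ≤ x) :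
    g / a + x / Real.sqrt a ≤ (u ^ 2)⁻¹ * (g / b + x / Real.sqrt b) := by
  have hu0 : 0 < u := by linarith
  have ha : a = b * u ^ 4 := by
    rw [hu4]
    field_simp
  have h1 : Real.sqrt a = Real.sqrt b * u ^ 2 := by
    rw [ha, Real.sqrt_mul hb.le]
    congr 1
    have h2 : u ^ 4 = (u ^ 2) ^ 2 := by ring
    rw [h2, Real.sqrt_sq (by positivity)]
  have hsb : 0 < Real.sqrt b := Real.sqrt_pos.mpr hb
  have h3 : x / Real.sqrt a = (u ^ 2)⁻¹ * (x / Real.sqrt b) := by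
    rw [h1]
    field_simp
  have h4 : g / a ≤ (u ^ 2)⁻¹ * (g / b) := by
    have h5 : g / a = (u ^ 2)⁻¹ * ((u ^ 2)⁻¹ * (g / b)) := by
      rw [ha]
      field_simp
    rw [h5]
    refine mul_le_mul_of_nonneg_left ?_ (by positivity)
    refine mul_le_of_le_one_left (div_nonneg hg hb.le) ?_
    exact inv_le_one_of_one_le₀ (one_le_pow₀ hu)
  rw [h3, mul_add]
  linarith

omit [NormedAddCommGroup V] [NormedSpace ℂ V] in
theorem K3_pow {u : ℝ} (hu : 1 ≤ u) {q : ℕ} (hq : 1 ≤ q) : u * ((u ^ 2)⁻¹) ^ q ≤ 1 := by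
  have hu0 : 0 < u := by linarith
  have h1 : (u ^ 2)⁻¹ ≤ 1 := inv_le_one_of_one_le₀ (one_le_pow₀ hu)
  have h0 : 0 ≤ (u ^ 2)⁻¹ := by positivity
  have h2 : ((u ^ 2)⁻¹) ^ q ≤ ((u ^ 2)⁻¹) ^ 1 := pow_le_pow_of_le_one h0 h1 hq
  rw [pow_one] at h2
  have h3 : u * ((u ^ 2)⁻¹) ^ q ≤ u * (u ^ 2)⁻¹ := mul_le_mul_of_nonneg_left h2 hu0.le
  have h4 : u * (u ^ 2)⁻¹ = u⁻¹ := by field_simp
  rw [h4] at h3
  exact h3.trans (inv_le_one_of_one_le₀ hu)

theorem K3_ev_add {q : ℕ} (η η' : Fm n q V) (z : Ec n) (X : Fin q → Ec n) :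
    ev (fun I z => η I z + η' I z) z X = ev η z X + ev η' z X := by
  unfold ev
  rw [← Finset.sum_add_distrib]
  exact Finset.sum_congr rfl fun I _ => smul_add _ _ _

theorem K3_ev_sub {q : ℕ} (η η' : Fm n q V) (z : Ec n) (X : Fin q → Ec n) :
    ev (fun I z => η I z - η' I z) z X = ev η z X - ev η' z X := by
  unfold ev
  rw [← Finset.sum_sub_distrib]
  exact Finset.sum_congr rfl fun I _ => smul_sub _ _ _

/-- The classes `Bd` on smaller domains.
PROOF. Let `a = δ z - s > b = δ z - s' > 0`. `kap a = (a / b)^(1/4) kap b`, so `Ene` with `a` is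
`(a / b)^(1/4)` times `Ene` with `b`; `gau` with `a` is at most `√(b / a) gau` with `b`
(`|g X| / a = (b / a) |g X| / b ≤ √(b / a) |g X| / b`). Since `q ≥ 1`, the product with `a` is at most
`(a / b)^(1/4) (b / a)^(q / 2) ≤ 1` times the product with `b`. (`Ene ≥ 0` by `P.sub`: write the
hypothesis `hP` for the signs.) -/
theorem Bd_shift {P : PD n} (hP : ∀ r, ∀ η ∈ P.S r, ‖η‖ < 1) {s s' B : ℝ} (hs : s ≤ s')
    (hB : 0 ≤ B) {q : ℕ} (hq : 1 ≤ q) {η : Fm n q V} (hη : Bd U (fun z => δ z - s) h P B η) :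
    Bd U (fun z => δ z - s') h P B η := by
  rintro z ⟨hz, hb0⟩ X
  have hb : 0 < δ z - s' := hb0
  have ha : 0 < δ z - s := by linarith
  have hab : 1 ≤ (δ z - s) / (δ z - s') := by
    rw [le_div_iff₀ hb]
    linarith
  have h1 := hη z ⟨hz, ha⟩ X
  obtain ⟨u, hu⟩ : ∃ u : ℝ, u = ((δ z - s) / (δ z - s')) ^ (1 / 4 : ℝ) := ⟨_, rfl⟩
  have hu1 : 1 ≤ u := by
    rw [hu]
    exact Real.one_le_rpow hab (by norm_num)
  have hu4 : u ^ 4 = (δ z - s) / (δ z - s') := by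
    rw [hu, ← Real.rpow_natCast, ← Real.rpow_mul (by linarith)]
    norm_num
  have hE : Ene P (fun z => δ z - s) z = u * Ene P (fun z => δ z - s') z := by
    unfold Ene
    rw [Finset.mul_sum]
    refine Finset.sum_congr rfl fun r _ => ?_
    rw [Finset.mul_sum]
    refine Finset.sum_congr rfl fun η _ => ?_
    rw [hu]
    exact K3_kap_scale ha hb _ _
  have hE0 : 0 ≤ Ene P (fun z => δ z - s') z := K3_Ene_nonneg P hb.le
  have hg0 : ∀ i, 0 ≤ gau (fun z => δ z - s') h z (X i) := fun i =>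
    K3_gau_nonneg hb _ _ (norm_nonneg _) (norm_nonneg _)
  have hg1 : ∀ i, 0 ≤ gau (fun z => δ z - s) h z (X i) := fun i =>
    K3_gau_nonneg ha _ _ (norm_nonneg _) (norm_nonneg _)
  have hg2 : ∀ i, gau (fun z => δ z - s) h z (X i) ≤
      (u ^ 2)⁻¹ * gau (fun z => δ z - s') h z (X i) := fun i =>
    K3_gau_scale hb hu1 hu4 (norm_nonneg _) (norm_nonneg _)
  have hp : ∏ i, gau (fun z => δ z - s) h z (X i) ≤
      ((u ^ 2)⁻¹) ^ q * ∏ i, gau (fun z => δ z - s') h z (X i) := by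
    refine (Finset.prod_le_prod (fun i _ => hg1 i) fun i _ => hg2 i).trans (le_of_eq ?_)
    rw [Finset.prod_mul_distrib, Finset.prod_const, Finset.card_univ, Fintype.card_fin]
  have hp0 : 0 ≤ ∏ i, gau (fun z => δ z - s') h z (X i) :=
    Finset.prod_nonneg fun i _ => hg0 i
  refine h1.trans ?_
  rw [hE]
  have hu0 : 0 ≤ u := by linarith
  have h2 : B * (u * Ene P (fun z => δ z - s') z) * ∏ i, gau (fun z => δ z - s) h z (X i) ≤
      B * (u * Ene P (fun z => δ z - s') z) *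
        (((u ^ 2)⁻¹) ^ q * ∏ i, gau (fun z => δ z - s') h z (X i)) :=
    mul_le_mul_of_nonneg_left hp (mul_nonneg hB (mul_nonneg hu0 hE0))
  refine h2.trans ?_
  have h3 : B * (u * Ene P (fun z => δ z - s') z) *
        (((u ^ 2)⁻¹) ^ q * ∏ i, gau (fun z => δ z - s') h z (X i)) =
      (u * ((u ^ 2)⁻¹) ^ q) * (B * Ene P (fun z => δ z - s') z *
        ∏ i, gau (fun z => δ z - s') h z (X i)) := by ring
  rw [h3]
  exact mul_le_of_le_one_left (mul_nonneg (mul_nonneg hB hE0) hp0) (K3_pow hu1 hq)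

/-- PROOF. Triangle inequality, `ev` is additive. -/
theorem Bd_add {P : PD n} {B B' : ℝ} {q : ℕ} {η η' : Fm n q V} (hη : Bd U δ h P B η)
    (hη' : Bd U δ h P B' η') : Bd U δ h P (B + B') (fun I z => η I z + η' I z) := by
  intro z hz X
  rw [K3_ev_add]
  refine (norm_add_le _ _).trans ?_
  have h1 := hη z hz X
  have h2 := hη' z hz X
  have h3 : (B + B') * Ene P δ z * ∏ i, gau δ h z (X i) =
      B * Ene P δ z * ∏ i, gau δ h z (X i) + B' * Ene P δ z * ∏ i, gau δ h z (X i) := by ring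
  rw [h3]
  exact add_le_add h1 h2

/-- PROOF. As `Bd_add`. -/
theorem Bd_sub {P : PD n} {B B' : ℝ} {q : ℕ} {η η' : Fm n q V} (hη : Bd U δ h P B η)
    (hη' : Bd U δ h P B' η') : Bd U δ h P (B + B') (fun I z => η I z - η' I z) := by
  intro z hz X
  rw [K3_ev_sub]
  refine (norm_sub_le _ _).trans ?_
  have h1 := hη z hz X
  have h2 := hη' z hz X
  have h3 : (B + B') * Ene P δ z * ∏ i, gau δ h z (X i) =
      B * Ene P δ z * ∏ i, gau δ h z (X i) + B' * Ene P δ z * ∏ i, gau δ h z (X i) := by ring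
  rw [h3]
  exact add_le_add h1 h2

/-- PROOF. `ev (fun I z => L z (η I z)) z X = L z (ev η z X)`. (If `Ene * ∏ gau` is negative the
hypothesis gives a contradiction or `0`; here `0 ≤ M`.) -/
theorem Bd_op {V' : Type*} [NormedAddCommGroup V'] [NormedSpace ℂ V'] {P : PD n} {B M : ℝ}
    (hM : 0 ≤ M) {q : ℕ} {η : Fm n q V} (hη : Bd U δ h P B η) {L : Ec n → V →L[ℂ] V'}
    (hL : ∀ z ∈ Om U δ, ‖L z‖ ≤ M) : Bd U δ h P (M * B) (fun I z => L z (η I z)) := by
  intro z hz X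
  have h1 : ev (fun I z => L z (η I z)) z X = L z (ev η z X) := by
    unfold ev
    rw [map_sum]
    exact Finset.sum_congr rfl fun I _ => ((L z).map_smul _ _).symm
  rw [h1]
  refine ((L z).le_opNorm _).trans ?_
  have h2 := mul_le_mul (hL z hz) (hη z hz X) (norm_nonneg _) hM
  have h3 : M * B * Ene P δ z * ∏ i, gau δ h z (X i) =
      M * (B * Ene P δ z * ∏ i, gau δ h z (X i)) := by ring
  rw [h3]
  exact h2

/-- PROOF. The product `B * Ene * ∏ gau` is monotone in `B` (`hP` for the sign of `Ene`). -/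
theorem Bd_mono {P : PD n} (hP : ∀ r, ∀ η ∈ P.S r, ‖η‖ < 1) {B B' : ℝ} (hB : B ≤ B') {q : ℕ}
    {η : Fm n q V} (hη : Bd U δ h P B η) : Bd U δ h P B' η := by
  intro z hz X
  refine (hη z hz X).trans ?_
  have h0 : 0 < δ z := hz.2
  have hg0 : ∀ i, 0 ≤ gau δ h z (X i) := fun i =>
    K3_gau_nonneg h0 _ _ (norm_nonneg _) (norm_nonneg _)
  refine mul_le_mul_of_nonneg_right ?_ (Finset.prod_nonneg fun i _ => hg0 i)
  exact mul_le_mul_of_nonneg_right hB (K3_Ene_nonneg P h0.le)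

end Pool.Agent.MPca0fc2.FD
end

section

/-! Identities for determinants. `cn x Y` is the matrix with the first row `x` and the other
rows `Y b`. -/

set_option autoImplicit false

open Metric Set MeasureTheory Filter Topology

namespace Pool.Agent.MPca0fc2.FD

theorem A1_upd_zero {α : Type*} {m : ℕ} (x t : α) (Y : Fin m → α) :
    Function.update (cn x Y) 0 t = cn t Y := by
  funext i
  refine Fin.cases ?_ (fun c => ?_) i
  · rw [Function.update_self]; rfl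
  · rw [Function.update_of_ne (Fin.succ_ne_zero c)]; rfl

theorem A1_upd_succ {α : Type*} {m : ℕ} (x t : α) (Y : Fin m → α) (b : Fin m) :
    Function.update (cn x Y) b.succ t = cn x (Function.update Y b t) := by
  funext i
  refine Fin.cases ?_ (fun c => ?_) i
  · rw [Function.update_of_ne (Fin.succ_ne_zero b).symm]; rfl
  · by_cases h : c = b
    · subst h
      rw [Function.update_self]
      show t = Function.update Y c t c
      rw [Function.update_self]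
    · rw [Function.update_of_ne (fun e => h (Fin.succ_injective _ e))]
      show Y c = Function.update Y b t c
      rw [Function.update_of_ne h]

theorem A1_det {k : ℕ} (v : Fin k → Fin k → ℂ) : Matrix.det v =
    ∑ σ : Equiv.Perm (Fin k), ((Equiv.Perm.sign σ : ℤ) : ℂ) * ∏ i, v (σ i) i :=
  Matrix.det_apply' (M := (v : Matrix (Fin k) (Fin k) ℂ))

theorem A1_cramer {k : ℕ} (M : Matrix (Fin k) (Fin k) ℂ) (t : Fin k → ℂ) :
    M.det • t = ∑ i, (M.updateRow i t).det • M i := by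
  have h := Matrix.mulVec_cramer M.transpose t
  rw [Matrix.det_transpose] at h
  rw [← h, Matrix.mulVec_transpose, Matrix.vecMul_eq_sum]
  refine Finset.sum_congr rfl fun i _ => ?_
  rw [Matrix.cramer_transpose_apply]

theorem A1_anti {ι : Type*} [DecidableEq ι] (A : Finset ι) (f : ι → ι → ℂ)
    (h : ∀ b ∈ A, ∀ b' ∈ A, b ≠ b' → f b b' = -f b' b) :
    ∑ b ∈ A, ∑ b' ∈ A.erase b, f b b' = 0 := by
  have e : ∀ b ∈ A, ∑ b' ∈ A.erase b, f b b' = ∑ b' ∈ A, if b' = b then 0 else f b b' := by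
    intro b hb
    rw [← Finset.add_sum_erase A _ hb, if_pos rfl, zero_add]
    refine Finset.sum_congr rfl fun b' hb' => ?_
    rw [if_neg (Finset.ne_of_mem_erase hb')]
  rw [Finset.sum_congr rfl e]
  have h2 : ∑ b ∈ A, ∑ b' ∈ A, (if b' = b then 0 else f b b') =
      -∑ b ∈ A, ∑ b' ∈ A, (if b' = b then 0 else f b b') := by
    conv_lhs => rw [Finset.sum_comm]
    rw [← Finset.sum_neg_distrib]
    refine Finset.sum_congr rfl fun b hb => ?_
    rw [← Finset.sum_neg_distrib]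
    refine Finset.sum_congr rfl fun b' hb' => ?_
    by_cases hbb : b = b'
    · rw [if_pos hbb, if_pos hbb.symm, neg_zero]
    · rw [if_neg hbb, if_neg (fun e => hbb e.symm)]
      exact h b' hb' b hb (fun e => hbb e.symm)
  exact self_eq_neg.1 h2

/-- Cramer's rule, for vectors.
PROOF. Both sides are linear in `t`. Let `M = Matrix.of (cn x Y)`. If `det M ≠ 0`, the rows of `M`
are a basis of `ℂ^(m+1)`, so it is enough to check the identity for `t = x` and for `t = Y b`: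
for `t = x` all the determinants `det (cn x (update Y b x))` are `0` (two equal rows); for
`t = Y a` we have `det (cn (Y a) Y) = 0`, `det (cn x (update Y b (Y a))) = 0` for `b ≠ a`
(two equal rows) and `update Y a (Y a) = Y`. For all `M`: this is an identity of polynomials. Or
directly: `Matrix.cramer_transpose_apply`/`Matrix.mulVec_cramer`: with `A = Mᵀ`,
`A *ᵥ (A.cramer t) = A.det • t` (`Matrix.mulVec_cramer`), and `A.cramer t i` is the determinant of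
`A` with the column `i` replaced by `t` (`Matrix.cramer_apply`), i.e. of `M` with the row `i`
replaced by `t` (`Matrix.det_transpose`, `Matrix.updateRow_transpose`). Use `Fin.sum_univ_succ` and
the two cases of `i : Fin (m + 1)`: `i = 0` and `i = b.succ`
(`Matrix.updateRow (cn x Y) 0 t = cn t Y`, `Matrix.updateRow (cn x Y) b.succ t =
cn x (Function.update Y b t)`). This last way is short. -/
theorem cramer_vec {m : ℕ} (x t : Fin (m + 1) → ℂ) (Y : Fin m → Fin (m + 1) → ℂ) :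
    Matrix.det (cn x Y) • t = Matrix.det (cn t Y) • x +
      ∑ b, Matrix.det (cn x (Function.update Y b t)) • Y b := by
  refine (A1_cramer (cn x Y) t).trans ?_
  rw [Fin.sum_univ_succ]
  congr 1
  · exact congrArg (fun M : Fin (m + 1) → Fin (m + 1) → ℂ => Matrix.det M • x)
      (A1_upd_zero x t Y)
  · refine Finset.sum_congr rfl fun b _ => ?_
    exact congrArg (fun M : Fin (m + 1) → Fin (m + 1) → ℂ => Matrix.det M • Y b)
      (A1_upd_succ x t Y b)

/-- The derivative of the determinant in the direction of a diagonal matrix.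
PROOF. `Matrix.det_apply` on both sides (the determinant as a sum over permutations `σ` of
`sign σ * ∏ i, M (σ i) i`). The `b`-th determinant: the product of the permutation `σ` contains
the row `b` exactly once, in the column `i` with `σ i = b`, so it is multiplied by
`p i = p (σ⁻¹ b)`. The sum over `b` of `p (σ⁻¹ b)` is `∑ i, p i`. (Write
`∏ i, (update v b (p * v b)) (σ i) i = p (σ⁻¹ b) * ∏ i, v (σ i) i`.) -/
theorem trace_det {m : ℕ} (p : Fin m → ℂ) (v : Fin m → Fin m → ℂ) :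
    ∑ b, Matrix.det (Function.update v b (p * v b)) = (∑ i, p i) * Matrix.det v := by
  have key : ∀ (σ : Equiv.Perm (Fin m)) (b : Fin m),
      ∏ i, Function.update v b (p * v b) (σ i) i = p (σ⁻¹ b) * ∏ i, v (σ i) i := by
    intro σ b
    have h1 : ∀ i, Function.update v b (p * v b) (σ i) i =
        (if i = σ⁻¹ b then p i else 1) * v (σ i) i := by
      intro i
      by_cases h : σ i = b
      · have h' : i = σ⁻¹ b := by rw [← h]; simp
        rw [if_pos h', h, Function.update_self]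
        rfl
      · have h' : ¬ i = σ⁻¹ b := fun e => h (by rw [e]; simp)
        rw [if_neg h', Function.update_of_ne h, one_mul]
    rw [Finset.prod_congr rfl fun i _ => h1 i, Finset.prod_mul_distrib,
      Finset.prod_ite_eq' Finset.univ (σ⁻¹ b) p, if_pos (Finset.mem_univ _)]
  have h2 : ∀ b, Matrix.det (Function.update v b (p * v b)) =
      ∑ σ : Equiv.Perm (Fin m), p (σ⁻¹ b) * (((Equiv.Perm.sign σ : ℤ) : ℂ) * ∏ i, v (σ i) i) := by
    intro b
    rw [A1_det]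
    refine Finset.sum_congr rfl fun σ _ => ?_
    rw [key σ b]
    ring
  rw [Finset.sum_congr rfl fun b _ => h2 b, Finset.sum_comm, A1_det, Finset.mul_sum]
  refine Finset.sum_congr rfl fun σ _ => ?_
  rw [← Finset.sum_mul, Equiv.sum_comp σ⁻¹ p]

/-- `trace_det` for `cn`. PROOF. `trace_det` with `v = cn x Y`, `Fin.sum_univ_succ`. -/
theorem trace_det_cn {m : ℕ} (p x : Fin (m + 1) → ℂ) (Y : Fin m → Fin (m + 1) → ℂ) :
    Matrix.det (cn (p * x) Y) + ∑ b, Matrix.det (cn x (Function.update Y b (p * Y b))) =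
      (∑ i, p i) * Matrix.det (cn x Y) := by
  have h := trace_det p (cn x Y)
  rw [Fin.sum_univ_succ, A1_upd_zero] at h
  rw [← h]
  congr 1
  refine Finset.sum_congr rfl fun b _ => ?_
  rw [A1_upd_succ]
  rfl

/-- Exchange of the first row with the row `b`.
PROOF. `Matrix.det_permute` with the swap of `0` and `b.succ`, `Equiv.Perm.sign_swap`; or
`Matrix.det_updateRow...`. -/
theorem swap_first {m : ℕ} (x t : Fin (m + 1) → ℂ) (Y : Fin m → Fin (m + 1) → ℂ) (b : Fin m) :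
    Matrix.det (cn x (Function.update Y b t)) = -Matrix.det (cn t (Function.update Y b x)) := by
  have h := Matrix.detRowAlternating.map_swap (cn t (Function.update Y b x))
    (Fin.succ_ne_zero b).symm (R := ℂ) (M := Fin (m + 1) → ℂ)
  have e : cn t (Function.update Y b x) ∘ Equiv.swap 0 b.succ = cn x (Function.update Y b t) := by
    funext i
    refine Fin.cases ?_ (fun c => ?_) i
    · rw [Function.comp_apply, Equiv.swap_apply_left]
      show Function.update Y b x b = x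
      rw [Function.update_self]
    · by_cases hc : c = b
      · subst hc
        rw [Function.comp_apply, Equiv.swap_apply_right]
        show t = Function.update Y c t c
        rw [Function.update_self]
      · rw [Function.comp_apply, Equiv.swap_apply_of_ne_of_ne (Fin.succ_ne_zero c)
          (fun e => hc (Fin.succ_injective _ e))]
        show Function.update Y b x c = Function.update Y b t c
        rw [Function.update_of_ne hc, Function.update_of_ne hc]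
  rw [e] at h
  exact h

/-- Exchange of two rows.
PROOF. As `swap_first`, with the swap of `a.succ` and `b.succ`. -/
theorem swap_rows {m : ℕ} (x s t : Fin (m + 1) → ℂ) (Y : Fin m → Fin (m + 1) → ℂ) {a b : Fin m}
    (hab : a ≠ b) :
    Matrix.det (cn x (Function.update (Function.update Y a s) b t)) =
      -Matrix.det (cn x (Function.update (Function.update Y a t) b s)) := by
  have hab' : a.succ ≠ b.succ := fun e => hab (Fin.succ_injective _ e)
  have h := Matrix.detRowAlternating.map_swap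
    (cn x (Function.update (Function.update Y a t) b s)) hab' (R := ℂ) (M := Fin (m + 1) → ℂ)
  have e : cn x (Function.update (Function.update Y a t) b s) ∘ Equiv.swap a.succ b.succ =
      cn x (Function.update (Function.update Y a s) b t) := by
    funext i
    refine Fin.cases ?_ (fun c => ?_) i
    · rw [Function.comp_apply, Equiv.swap_apply_of_ne_of_ne (Fin.succ_ne_zero a).symm
        (Fin.succ_ne_zero b).symm]
      rfl
    · by_cases hc : c = b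
      · subst hc
        rw [Function.comp_apply, Equiv.swap_apply_right]
        show Function.update (Function.update Y a t) c s a =
          Function.update (Function.update Y a s) c t c
        rw [Function.update_self, Function.update_of_ne hab, Function.update_self]
      · by_cases hc' : c = a
        · subst hc'
          rw [Function.comp_apply, Equiv.swap_apply_left]
          show Function.update (Function.update Y c t) b s b =
            Function.update (Function.update Y c s) b t c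
          rw [Function.update_self, Function.update_of_ne hab, Function.update_self]
        · rw [Function.comp_apply, Equiv.swap_apply_of_ne_of_ne
            (fun e => hc' (Fin.succ_injective _ e)) (fun e => hc (Fin.succ_injective _ e))]
          show Function.update (Function.update Y a t) b s c =
            Function.update (Function.update Y a s) b t c
          rw [Function.update_of_ne hc, Function.update_of_ne hc, Function.update_of_ne hc',
            Function.update_of_ne hc']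
  rw [e] at h
  exact h

/-- PROOF. The sum is over the ordered pairs `(b, b')`, `b ≠ b'`. The terms of `(b, b')` and of
`(b', b)` have sum `0`, by `swap_rows` and `hs`. So the sum `S` satisfies `S = -S`
(`Finset.sum_comm'` or `Finset.sum_sigma'` with the involution; e.g. write the inner sum as the sum
over all `b'` of `if b' = b then 0 else ...` and use `Finset.sum_comm`). -/
theorem swap_sum {m : ℕ} (x t : Fin (m + 1) → ℂ) (Y : Fin m → Fin (m + 1) → ℂ)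
    (s : Fin m → Fin m → Fin (m + 1) → ℂ) (hs : ∀ a b, s a b = s b a) :
    ∑ b, ∑ b' ∈ Finset.univ.erase b,
      Matrix.det (cn x (Function.update (Function.update Y b' (s b b')) b t)) = 0 := by
  refine A1_anti Finset.univ (fun b b' =>
    Matrix.det (cn x (Function.update (Function.update Y b' (s b b')) b t))) ?_
  intro b _ b' _ hbb
  show Matrix.det (cn x (Function.update (Function.update Y b' (s b b')) b t)) =
    -Matrix.det (cn x (Function.update (Function.update Y b (s b' b)) b' t))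
  rw [swap_rows x (s b b') t Y hbb.symm, hs b b', Function.update_comm hbb.symm]

/-- The same, with a fixed row `r` in the place `j`, and `b, b' ≠ j`.
PROOF. As `swap_sum`. -/
theorem swap_sum' {m : ℕ} (x t r : Fin (m + 1) → ℂ) (Y : Fin m → Fin (m + 1) → ℂ)
    (s : Fin m → Fin m → Fin (m + 1) → ℂ) (hs : ∀ a b, s a b = s b a) (j : Fin m) :
    ∑ b ∈ Finset.univ.erase j, ∑ b' ∈ (Finset.univ.erase j).erase b,
      Matrix.det (cn x (Function.update (Function.update (Function.update Y j r) b' (s b b'))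
        b t)) = 0 := by
  refine A1_anti (Finset.univ.erase j) (fun b b' =>
    Matrix.det (cn x (Function.update (Function.update (Function.update Y j r) b' (s b b')) b t)))
    ?_
  intro b _ b' _ hbb
  show Matrix.det (cn x (Function.update (Function.update (Function.update Y j r) b' (s b b'))
    b t)) = -Matrix.det (cn x (Function.update (Function.update (Function.update Y j r) b
      (s b' b)) b' t))
  rw [swap_rows x (s b b') t (Function.update Y j r) hbb.symm, hs b b',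
    Function.update_comm hbb.symm]

end Pool.Agent.MPca0fc2.FD
end

section

/-! Directional derivatives in complex directions. -/

set_option autoImplicit false

open Metric Set MeasureTheory Filter Topology

namespace Pool.Agent.MPca0fc2.FD

theorem A2_upd_zero {α : Type*} {m : ℕ} (x t : α) (Y : Fin m → α) :
    Function.update (cn x Y) 0 t = cn t Y := by
  funext i
  refine Fin.cases ?_ (fun c => ?_) i
  · rw [Function.update_self]; rfl
  · rw [Function.update_of_ne (Fin.succ_ne_zero c)]; rfl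

theorem A2_upd_succ {α : Type*} {m : ℕ} (x t : α) (Y : Fin m → α) (b : Fin m) :
    Function.update (cn x Y) b.succ t = cn x (Function.update Y b t) := by
  funext i
  refine Fin.cases ?_ (fun c => ?_) i
  · rw [Function.update_of_ne (Fin.succ_ne_zero b).symm]; rfl
  · by_cases h : c = b
    · subst h
      rw [Function.update_self]
      show t = Function.update Y c t c
      rw [Function.update_self]
    · rw [Function.update_of_ne (fun e => h (Fin.succ_injective _ e))]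
      show Y c = Function.update Y b t c
      rw [Function.update_of_ne h]

/-- the determinant as a continuous multilinear map over the reals -/
noncomputable def A2_detC (m : ℕ) :
    ContinuousMultilinearMap ℝ (fun _ : Fin m => Fin m → ℂ) ℂ where
  toMultilinearMap := (Matrix.detRowAlternating (R := ℂ) (n := Fin m)).toMultilinearMap.restrictScalars ℝ
  cont := by
    have h : Continuous fun M : Matrix (Fin m) (Fin m) ℂ => M.det := continuous_id.matrix_det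
    exact h

theorem A2_detC_apply {m : ℕ} (v : Fin m → Fin m → ℂ) : A2_detC m v = Matrix.det v := rfl

theorem A2_det_has {T : Type*} [NormedAddCommGroup T] [NormedSpace ℝ T] {m : ℕ}
    {R : T → Fin m → Fin m → ℂ} {p : T} (hR : ∀ i, DifferentiableAt ℝ (fun y => R y i) p) :
    HasFDerivAt (fun y => Matrix.det (R y))
      (∑ i, ((A2_detC m).toContinuousLinearMap (fun j => R p j) i).comp
        (fderiv ℝ (fun y => R y i) p)) p :=
  HasFDerivAt.multilinear_comp (f := A2_detC m) fun i => (hR i).hasFDerivAt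

theorem A2_fderiv_det {T : Type*} [NormedAddCommGroup T] [NormedSpace ℝ T] {m : ℕ}
    {R : T → Fin m → Fin m → ℂ} {p : T} (hR : ∀ i, DifferentiableAt ℝ (fun y => R y i) p) (v : T) :
    fderiv ℝ (fun y => Matrix.det (R y)) p v =
      ∑ i, Matrix.det (Function.update (R p) i (fderiv ℝ (fun y => R y i) p v)) := by
  rw [(A2_det_has hR).fderiv, ContinuousLinearMap.sum_apply]
  rfl

variable {T : Type*} [NormedAddCommGroup T] [NormedSpace ℝ T]
variable {V : Type*} [NormedAddCommGroup V] [NormedSpace ℂ V]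

/-- PROOF. `unfold cd`, `fderiv_add`, and `module`/`simp [smul_add]; abel`. -/
theorem cd_add {G H : T → V} {p : T} (hG : DifferentiableAt ℝ G p) (hH : DifferentiableAt ℝ H p)
    (d : T × T) : cd (fun y => G y + H y) p d = cd G p d + cd H p d := by
  unfold cd
  rw [fderiv_fun_add hG hH, ContinuousLinearMap.add_apply, ContinuousLinearMap.add_apply, smul_add]
  abel

/-- PROOF. `fderiv_smul` (with `restrictScalars`; the scalar function is complex valued: use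
`HasFDerivAt.smul` over `ℝ`). -/
theorem cd_smul {F : T → ℂ} {G : T → V} {p : T} (hF : DifferentiableAt ℝ F p)
    (hG : DifferentiableAt ℝ G p) (d : T × T) :
    cd (fun y => F y • G y) p d = cd F p d • G p + F p • cd G p d := by
  unfold cd
  rw [fderiv_fun_smul hF hG]
  simp only [ContinuousLinearMap.add_apply, ContinuousLinearMap.smul_apply,
    ContinuousLinearMap.smulRight_apply, smul_eq_mul]
  module

/-- PROOF. `cd_smul`. -/
theorem cd_mul {F G : T → ℂ} {p : T} (hF : DifferentiableAt ℝ F p)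
    (hG : DifferentiableAt ℝ G p) (d : T × T) :
    cd (fun y => F y * G y) p d = cd F p d * G p + F p * cd G p d := by
  have h := cd_smul hF hG d
  simpa only [smul_eq_mul] using h

/-- PROOF. Induction on the finite set, or `fderiv_sum`. -/
theorem cd_sum {ι : Type*} (s : Finset ι) {G : ι → T → V} {p : T}
    (hG : ∀ i ∈ s, DifferentiableAt ℝ (G i) p) (d : T × T) :
    cd (fun y => ∑ i ∈ s, G i y) p d = ∑ i ∈ s, cd (G i) p d := by
  unfold cd
  rw [fderiv_fun_sum hG]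
  simp only [ContinuousLinearMap.sum_apply, Finset.smul_sum, Finset.sum_add_distrib]

/-- PROOF. `fderiv_pi` or `fderiv_apply`; `cd` commutes with the continuous linear map
`i`-th coordinate. -/
theorem cd_apply {ι : Type*} [Fintype ι] {G : T → ι → V} {p : T} (hG : DifferentiableAt ℝ G p)
    (d : T × T) (i : ι) : cd (fun y => G y i) p d = cd G p d i := by
  unfold cd
  rw [((hasFDerivAt_pi'.1 hG.hasFDerivAt) i).fderiv]
  rfl

/-- PROOF. Chain rule: `fderiv ℝ (fun y => Complex.exp (E y)) p v = exp (E p) * fderiv ℝ E p v`. -/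
theorem cd_exp {E : T → ℂ} {p : T} (hE : DifferentiableAt ℝ E p) (d : T × T) :
    cd (fun y => Complex.exp (E y)) p d = Complex.exp (E p) * cd E p d := by
  unfold cd
  rw [hE.hasFDerivAt.cexp.fderiv]
  simp only [ContinuousLinearMap.smul_apply, smul_eq_mul]
  ring

/-- PROOF. `Filter.EventuallyEq.fderiv_eq`. -/
theorem cd_congr {G H : T → V} {p : T} (h : G =ᶠ[𝓝 p] H) (d : T × T) : cd G p d = cd H p d := by
  unfold cd
  rw [h.fderiv_eq]

/-- Complex directional derivatives commute.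
PROOF. `cd G y d = fderiv ℝ G y d.1 + I • fderiv ℝ G y d.2`. Since `G` is `C²` at `p`, `fderiv ℝ G`
is differentiable at `p`, and `cd (fun y => fderiv ℝ G y v) p e = D²G(e.1, v) + I D²G(e.2, v)`,
`D²G = fderiv ℝ (fderiv ℝ G) p`. Both sides are
`D²(e.1, d.1) + I D²(e.1, d.2) + I D²(e.2, d.1) - D²(e.2, d.2)` up to the symmetry of the second
derivative, `ContDiffAt.isSymmSndFDerivAt` (needs `minSmoothness ℝ 2 ≤ 2`, which is
`by simp [minSmoothness_of_isRCLikeNormedField]`). -/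
theorem cd_comm {G : T → V} {p : T} (hG : ContDiffAt ℝ 2 G p) (d e : T × T) :
    cd (fun y => cd G y d) p e = cd (fun y => cd G y e) p d := by
  have hd : DifferentiableAt ℝ (fderiv ℝ G) p :=
    (hG.fderiv_right (m := 1) (by norm_num)).differentiableAt (by norm_num)
  have hs : IsSymmSndFDerivAt ℝ G p := hG.isSymmSndFDerivAt (by simp)
  have key : ∀ (v u : T × T), cd (fun y => cd G y v) p u =
      (fderiv ℝ (fderiv ℝ G) p u.1 v.1 + Complex.I • fderiv ℝ (fderiv ℝ G) p u.1 v.2) +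
        Complex.I • (fderiv ℝ (fderiv ℝ G) p u.2 v.1 +
          Complex.I • fderiv ℝ (fderiv ℝ G) p u.2 v.2) := by
    intro v u
    have h1 : ∀ a : T, HasFDerivAt (fun y => fderiv ℝ G y a)
        ((fderiv ℝ (fderiv ℝ G) p).flip a) p := by
      intro a
      have := hd.hasFDerivAt.clm_apply (hasFDerivAt_const a p)
      refine this.congr_fderiv ?_
      ext x
      simp
    have h2 : HasFDerivAt (fun y => cd G y v) ((fderiv ℝ (fderiv ℝ G) p).flip v.1 +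
        Complex.I • (fderiv ℝ (fderiv ℝ G) p).flip v.2) p := (h1 v.1).add ((h1 v.2).const_smul _)
    unfold cd
    unfold cd at h2
    rw [h2.fderiv]
    simp
  rw [key, key, hs.eq e.1 d.1, hs.eq e.1 d.2, hs.eq e.2 d.1, hs.eq e.2 d.2]
  module

/-- PROOF. `G` is `C²`, so `fderiv ℝ G` is `C¹` at `p` (`ContDiffAt.fderiv_right`), evaluate. -/
theorem cd_diff {G : T → V} {p : T} (hG : ContDiffAt ℝ 2 G p) (d : T × T) :
    DifferentiableAt ℝ (fun y => cd G y d) p := by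
  have hd : DifferentiableAt ℝ (fderiv ℝ G) p :=
    (hG.fderiv_right (m := 1) (by norm_num)).differentiableAt (by norm_num)
  unfold cd
  exact (hd.clm_apply (differentiableAt_const _)).add
    ((hd.clm_apply (differentiableAt_const _)).const_smul _)

/-- The derivative of a determinant.
PROOF. The determinant is multilinear in the rows: e.g. use `Matrix.det_apply` and the Leibniz rule
for finite products (`HasFDerivAt.finset_prod`), or the derivative of the continuous multilinear map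
`Matrix.detRowAlternating` (`ContinuousMultilinearMap.hasFDerivAt`/`MultilinearMap`), in finite
dimension. -/
theorem cd_det {m : ℕ} {R : T → Fin m → Fin m → ℂ} {p : T}
    (hR : ∀ i, DifferentiableAt ℝ (fun y => R y i) p) (d : T × T) :
    cd (fun y => Matrix.det (R y)) p d =
      ∑ i, Matrix.det (Function.update (R p) i (cd (fun y => R y i) p d)) := by
  unfold cd
  rw [A2_fderiv_det hR, A2_fderiv_det hR, Finset.smul_sum, ← Finset.sum_add_distrib]
  refine Finset.sum_congr rfl fun i _ => ?_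
  have h1 := (Matrix.detRowAlternating (R := ℂ) (n := Fin m)).map_update_add (R p) i
    (fderiv ℝ (fun y => R y i) p d.1) (Complex.I • fderiv ℝ (fun y => R y i) p d.2)
  have h2 := (Matrix.detRowAlternating (R := ℂ) (n := Fin m)).map_update_smul (R p) i
    Complex.I (fderiv ℝ (fun y => R y i) p d.2)
  rw [h2] at h1
  exact h1.symm

/-- PROOF. As in `cd_det`: a polynomial in the entries. -/
theorem det_diff {m : ℕ} {R : T → Fin m → Fin m → ℂ} {p : T}
    (hR : ∀ i, DifferentiableAt ℝ (fun y => R y i) p) :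
    DifferentiableAt ℝ (fun y => Matrix.det (R y)) p := by
  exact (A2_det_has hR).differentiableAt

/-- PROOF. `cd_det` with `R y = cn (x y) (Y y)` and `Fin.sum_univ_succ`;
`Function.update (cn x Y) 0 v = cn v Y`, `Function.update (cn x Y) b.succ v =
cn x (Function.update Y b v)` (`Fin.cons_update`, `Fin.update_cons_zero`). -/
theorem cd_det_cn {m : ℕ} {x : T → Fin (m + 1) → ℂ} {Y : T → Fin m → Fin (m + 1) → ℂ} {p : T}
    (hx : DifferentiableAt ℝ x p) (hY : ∀ b, DifferentiableAt ℝ (fun y => Y y b) p) (d : T × T) :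
    cd (fun y => Matrix.det (cn (x y) (Y y))) p d =
      Matrix.det (cn (cd x p d) (Y p)) +
        ∑ b, Matrix.det (cn (x p) (Function.update (Y p) b (cd (fun y => Y y b) p d))) := by
  have hR : ∀ i, DifferentiableAt ℝ (fun y => cn (x y) (Y y) i) p := by
    intro i
    refine Fin.cases ?_ (fun b => ?_) i
    · exact hx
    · exact hY b
  have h := cd_det (R := fun y => cn (x y) (Y y)) hR d
  rw [Fin.sum_univ_succ, A2_upd_zero] at h
  rw [h]
  congr 1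
  refine Finset.sum_congr rfl fun b _ => ?_
  rw [A2_upd_succ]
  rfl

/-- PROOF. `det_diff`. -/
theorem det_cn_diff {m : ℕ} {x : T → Fin (m + 1) → ℂ} {Y : T → Fin m → Fin (m + 1) → ℂ} {p : T}
    (hx : DifferentiableAt ℝ x p) (hY : ∀ b, DifferentiableAt ℝ (fun y => Y y b) p) :
    DifferentiableAt ℝ (fun y => Matrix.det (cn (x y) (Y y))) p := by
  refine det_diff (R := fun y => cn (x y) (Y y)) fun i => ?_
  refine Fin.cases ?_ (fun b => ?_) i
  · exact hx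
  · exact hY b

end Pool.Agent.MPca0fc2.FD
end

section

set_option autoImplicit false

open Metric Set MeasureTheory Filter Topology
open scoped InnerProductSpace ENNReal

namespace Pool.Agent.MPca0fc2.PT

variable {E : Type*} [NormedAddCommGroup E] [InnerProductSpace ℂ E]

/-! ### the automorphisms of the ball -/

/-- `√(1 - |z|²)` -/
noncomputable def ss (z : E) : ℝ := Real.sqrt (1 - ‖z‖ ^ 2)

/-- the linear map `P_z + s_z Q_z` -/
noncomputable def AA (z : E) : E →L[ℂ] E :=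
  ((ss z : ℝ) : ℂ) • ContinuousLinearMap.id ℂ E +
    (((1 + ss z)⁻¹ : ℝ) : ℂ) • (innerSL ℂ z).smulRight z

/-- the automorphism of the ball with `gg z 0 = z` and inverse `gg (-z)` -/
noncomputable def gg (z x : E) : E := (1 + ⟪z, x⟫_ℂ)⁻¹ • (z + AA z x)

/-- the derivative of `gg z` at `x` -/
noncomputable def gg' (z x : E) : E →L[ℂ] E :=
  (1 + ⟪z, x⟫_ℂ)⁻¹ • (AA z - (innerSL ℂ z).smulRight (gg z x))

/-- `1 - |φ_x(y)|²` -/
noncomputable def HH (x y : E) : ℝ := (1 - ‖x‖ ^ 2) * (1 - ‖y‖ ^ 2) / ‖1 - ⟪x, y⟫_ℂ‖ ^ 2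

/-- anisotropic length of the vector `x` at the point `w`, at depth `d` -/
noncomputable def gau (d : ℝ) (w x : E) : ℝ := ‖⟪w, x⟫_ℂ‖ / d + ‖x‖ / Real.sqrt d

/-- the conjugate linear part of the real derivative -/
noncomputable def dbE (N : E → ℂ) (w x : E) : ℂ :=
  (fderiv ℝ N w x + Complex.I * fderiv ℝ N w (Complex.I • x)) / 2

/-! ### radii and dilations -/

/-- the radii -/
noncomputable def rt (θ : ℝ) (k : ℕ) : ℝ := 1 - θ ^ k

/-- the depth of `rt θ k • w` -/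
noncomputable def dl (θ : ℝ) (k : ℕ) (w : E) : ℝ := 1 - rt θ k ^ 2 * ‖w‖ ^ 2

/-- outer radii -/
noncomputable def RC (θ : ℝ) (k : ℕ) : ℝ := 1 + 3 * θ ^ (k + 1) / 4

/-- outer radii -/
noncomputable def RA (θ : ℝ) (k : ℕ) : ℝ := 1 + θ ^ (k + 1) / 2

/-- outer radii -/
noncomputable def RB (θ : ℝ) (k : ℕ) : ℝ := 1 + θ ^ (k + 1) / 4

/-- dilations -/
noncomputable def uk (u : E → ℂ) (θ : ℝ) (k : ℕ) (w : E) : ℂ := u ((rt θ k : ℂ) • w)

/-- a smooth step: `0` on `(-∞, 1]` and `1` on `[2, ∞)` -/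
noncomputable def psi (x : ℝ) : ℝ := Real.smoothTransition (x - 1)

/-- the smooth hysteresis map -/
noncomputable def tau (ρ : ℝ) (y : ℂ) : ℂ := (((max 0 (1 - ρ / ‖y‖)) ^ 2 : ℝ) : ℂ) * y

/-! ### the gradient -/

/-- the square of the invariant gradient -/
noncomputable def IG2 (u : E → ℂ) (z : E) : ℝ :=
  (1 - ‖z‖ ^ 2) * (‖fderiv ℂ u z‖ ^ 2 - ‖fderiv ℂ u z z‖ ^ 2)

section meas

variable [MeasurableSpace E]

/-! ### the weighted Bergman projection -/

/-- the weight -/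
noncomputable def WW (w : E) : ℝ := (1 - ‖w‖ ^ 2) ^ 4

/-- the mass of the weight -/
noncomputable def cW (μ : Measure E) : ℝ := ∫ w in ball (0 : E) 1, WW w ∂μ

/-- the weighted Bergman projection of the unit ball of a space of dimension `m + 1` -/
noncomputable def PQ (μ : Measure E) (m : ℕ) (N : E → ℂ) (z : E) : ℂ :=
  ((cW μ : ℝ) : ℂ)⁻¹ * ∫ w in ball (0 : E) 1,
    ((WW w : ℝ) : ℂ) * N w / (1 - ⟪w, z⟫_ℂ) ^ (m + 6) ∂μ

/-- the same for the ball of radius `R` -/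
noncomputable def PR (μ : Measure E) (m : ℕ) (R : ℝ) (N : E → ℂ) (z : E) : ℂ :=
  PQ μ m (fun w => N ((R : ℂ) • w)) (((R⁻¹ : ℝ) : ℂ) • z)

/-! ### potentials -/

/-- the Carleson condition of the kernel `1 - |φ_w(ξ)|²` -/
def Carl (ν : Measure E) (A : ℝ) : Prop :=
  0 ≤ A ∧ ν (ball (0 : E) 1)ᶜ = 0 ∧
    ∀ w ∈ ball (0 : E) 1, ∫⁻ ξ, ENNReal.ofReal (HH w ξ) ∂ν ≤ ENNReal.ofReal A

/-- the local potential -/
noncomputable def EE (ν : Measure E) (y : E) : ℝ := ∫ ξ, HH y ξ ^ 2 ∂ν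

/-- the holomorphic potential -/
noncomputable def DD (ν : Measure E) (y : E) : ℂ :=
  ∫ ξ, ((1 - ‖ξ‖ ^ 2 : ℝ) : ℂ) / (1 - ⟪ξ, y⟫_ℂ) ∂ν

/-- the measure `|∇ u|^p dλ`, in a space of dimension `m + 1` -/
noncomputable def nu (μ : Measure E) (m : ℕ) (p : ℝ) (u : E → ℂ) : Measure E :=
  (μ.restrict (ball 0 1)).withDensity
    fun ξ => ENNReal.ofReal (IG2 u ξ ^ (p / 2) / (1 - ‖ξ‖ ^ 2) ^ (m + 2))

/-- the dilated local potential -/
noncomputable def Ei (ν : Measure E) (θ : ℝ) (i : ℕ) (w : E) : ℝ := EE ν ((rt θ i : ℂ) • w)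

/-- The hypotheses on `u`. -/
structure HU (ν : Measure E) (u : E → ℂ) (M A p C₀ : ℝ) : Prop where
  hp : 1 ≤ p
  hM : 1 ≤ M
  hC : 0 < C₀
  diff : DifferentiableOn ℂ u (ball 0 1)
  bd : ∀ z ∈ ball (0 : E) 1, ‖u z‖ ≤ M
  carl : Carl ν A
  gr : ∀ y : E, ‖y‖ < 1 → ∀ X : E,
    ‖fderiv ℂ u y X‖ ≤ C₀ * EE ν y ^ (1 / p) * gau (1 - ‖y‖ ^ 2) y X

/-- the aged approximation of `u` at stage `k`, `θ = ϑ ^ 32` -/
noncomputable def vv (ν : Measure E) (u : E → ℂ) (ϑ c : ℝ) (k : ℕ) (w : E) : ℂ :=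
  u 0 + ∑ i ∈ Finset.range k, ((psi (Ei ν (ϑ ^ 32) i w / (c * ϑ ^ (k - i))) : ℝ) : ℂ) *
    (uk u (ϑ ^ 32) (i + 1) w - uk u (ϑ ^ 32) i w)

/-- the base -/
noncomputable def bb (ν : Measure E) (u : E → ℂ) (ϑ c ρ : ℝ) : ℕ → E → ℂ
  | 0 => fun _ => u 0
  | k + 1 => fun w => bb ν u ϑ c ρ k w + tau ρ (vv ν u ϑ c (k + 1) w - bb ν u ϑ c ρ k w)

/-- the sum of the weighted local potentials -/
noncomputable def SE (ν : Measure E) (ϑ : ℝ) (k : ℕ) (w : E) : ℝ :=
  ∑ i ∈ Finset.range (k + 1), ϑ ^ (2 * (k - i)) * Ei ν (ϑ ^ 32) i w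

end meas

end Pool.Agent.MPca0fc2.PT
end

section

set_option autoImplicit false

open Metric Set MeasureTheory Filter Topology
open scoped InnerProductSpace ENNReal

namespace Pool.Agent.MPca0fc2.PT

variable {E : Type*} [NormedAddCommGroup E] [InnerProductSpace ℂ E]

theorem PTDl_rt_nonneg {θ : ℝ} (hθ0 : 0 < θ) (hθ : θ < 1) (i : ℕ) : 0 ≤ rt θ i := by
  unfold rt
  have := pow_le_one₀ (n := i) hθ0.le hθ.le
  linarith

theorem PTDl_rt_mono {θ : ℝ} (hθ0 : 0 < θ) (hθ : θ < 1) {i j : ℕ} (hij : i ≤ j) :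
    rt θ i ≤ rt θ j := by
  unfold rt
  have := pow_le_pow_of_le_one hθ0.le hθ.le hij
  linarith

/-- the basic estimate -/
theorem PTDl_key {θ : ℝ} (hθ0 : 0 < θ) (hθ : θ < 1) {i k : ℕ} (hik : i ≤ k + 1) {w : E}
    (hw : ‖w‖ < RC θ k) : rt θ i * ‖w‖ ≤ 1 - θ ^ i / 4 := by
  have h1 : θ ^ (k + 1) ≤ θ ^ i := pow_le_pow_of_le_one hθ0.le hθ.le hik
  have h2 : θ ^ i ≤ 1 := pow_le_one₀ hθ0.le hθ.le
  have h3 : 0 < θ ^ i := pow_pos hθ0 i
  have h4 : ‖w‖ ≤ 1 + 3 * θ ^ i / 4 := by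
    unfold RC at hw; linarith
  unfold rt
  have h5 : (1 - θ ^ i) * ‖w‖ ≤ (1 - θ ^ i) * (1 + 3 * θ ^ i / 4) :=
    mul_le_mul_of_nonneg_left h4 (by linarith)
  nlinarith

theorem dl_ge {θ : ℝ} (hθ0 : 0 < θ) (hθ : θ < 1) {i k : ℕ} (hik : i ≤ k + 1) {w : E}
    (hw : ‖w‖ < RC θ k) : θ ^ i / 4 ≤ dl θ i w := by
  have h1 := PTDl_key hθ0 hθ hik hw
  have h2 : θ ^ i ≤ 1 := pow_le_one₀ hθ0.le hθ.le
  have h3 : 0 < θ ^ i := pow_pos hθ0 i
  have h4 : 0 ≤ rt θ i * ‖w‖ := mul_nonneg (PTDl_rt_nonneg hθ0 hθ i) (norm_nonneg _)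
  have h5 : (rt θ i * ‖w‖) ^ 2 ≤ (1 - θ ^ i / 4) ^ 2 := pow_le_pow_left₀ h4 h1 2
  unfold dl
  rw [← mul_pow]
  nlinarith

theorem rt_mul_lt {θ : ℝ} (hθ0 : 0 < θ) (hθ : θ < 1) {i k : ℕ} (hik : i ≤ k + 1) {w : E}
    (hw : ‖w‖ < RC θ k) : rt θ i * ‖w‖ < 1 := by
  have h1 := PTDl_key hθ0 hθ hik hw
  have h3 : 0 < θ ^ i := pow_pos hθ0 i
  linarith

theorem dl_anti {θ : ℝ} (hθ0 : 0 < θ) (hθ : θ < 1) {i j : ℕ} (hij : i ≤ j) (w : E) :
    dl θ j w ≤ dl θ i w := by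
  unfold dl
  have h1 : rt θ i ^ 2 ≤ rt θ j ^ 2 :=
    pow_le_pow_left₀ (PTDl_rt_nonneg hθ0 hθ i) (PTDl_rt_mono hθ0 hθ hij) 2
  have h2 := mul_le_mul_of_nonneg_right h1 (sq_nonneg ‖w‖)
  linarith

theorem dl_le_one {θ : ℝ} (i : ℕ) (w : E) : dl θ i w ≤ 1 := by
  unfold dl
  have : 0 ≤ rt θ i ^ 2 * ‖w‖ ^ 2 := by positivity
  linarith

theorem dl_succ {θ : ℝ} (hθ0 : 0 < θ) (hθ : θ < 1) {i : ℕ} {w : E} (hw : ‖w‖ < RC θ i) :
    dl θ i w ≤ 32 / θ * dl θ (i + 1) w := by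
  have h1 := dl_ge hθ0 hθ (le_refl (i + 1)) hw
  have h2 : θ ^ i ≤ 1 := pow_le_one₀ hθ0.le hθ.le
  have h3 : 0 < θ ^ i := pow_pos hθ0 i
  have h2' : θ ^ (i + 1) ≤ 1 := pow_le_one₀ hθ0.le hθ.le
  have h3' : 0 < θ ^ (i + 1) := pow_pos hθ0 _
  have h4 : ‖w‖ ≤ 7 / 4 := by
    unfold RC at hw
    linarith
  have h5 : ‖w‖ ^ 2 ≤ 49 / 16 := by
    have := pow_le_pow_left₀ (norm_nonneg w) h4 2
    linarith
  have h6 : rt θ (i + 1) ^ 2 - rt θ i ^ 2 ≤ 2 * θ ^ i := by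
    unfold rt
    have h7 : θ ^ (i + 1) ≤ θ ^ i := pow_le_pow_of_le_one hθ0.le hθ.le (Nat.le_succ i)
    nlinarith
  have h8 : (rt θ (i + 1) ^ 2 - rt θ i ^ 2) * ‖w‖ ^ 2 ≤ 2 * θ ^ i * (49 / 16) :=
    mul_le_mul h6 h5 (sq_nonneg _) (by positivity)
  have h9 : dl θ i w = dl θ (i + 1) w + (rt θ (i + 1) ^ 2 - rt θ i ^ 2) * ‖w‖ ^ 2 := by
    unfold dl; ring
  have h10 : θ ^ i ≤ 4 / θ * dl θ (i + 1) w := by
    have h11 : θ ^ (i + 1) = θ ^ i * θ := pow_succ θ i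
    rw [h11] at h1
    rw [div_mul_eq_mul_div, le_div_iff₀ hθ0]
    linarith
  have h12 : 0 < dl θ (i + 1) w := by linarith
  have h13 : dl θ (i + 1) w ≤ 1 / θ * dl θ (i + 1) w := by
    have h14 : 1 ≤ 1 / θ := by
      rw [le_div_iff₀ hθ0]; linarith
    nlinarith
  have h15 : 32 / θ * dl θ (i + 1) w = 32 * (1 / θ * dl θ (i + 1) w) := by ring
  have h16 : 4 / θ * dl θ (i + 1) w = 4 * (1 / θ * dl θ (i + 1) w) := by ring
  rw [h15, h9]
  rw [h16] at h10
  linarith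

theorem gau_anti {d d' : ℝ} (hd : 0 < d) (hdd : d ≤ d') (w x : E) :
    gau d' w x ≤ Real.sqrt (d / d') * gau d w x := by
  have hd' : 0 < d' := lt_of_lt_of_le hd hdd
  have s1 : 0 < Real.sqrt d := Real.sqrt_pos.mpr hd
  have s2 : 0 < Real.sqrt d' := Real.sqrt_pos.mpr hd'
  have s3 : Real.sqrt d ≤ Real.sqrt d' := Real.sqrt_le_sqrt hdd
  have q1 : Real.sqrt d * Real.sqrt d = d := Real.mul_self_sqrt hd.le
  have q2 : Real.sqrt d' * Real.sqrt d' = d' := Real.mul_self_sqrt hd'.le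
  have hs : Real.sqrt (d / d') = Real.sqrt d / Real.sqrt d' := Real.sqrt_div hd.le d'
  unfold gau
  rw [hs, mul_add]
  have e1 : Real.sqrt d / Real.sqrt d' * (‖x‖ / Real.sqrt d) = ‖x‖ / Real.sqrt d' := by
    field_simp
  have e2 : Real.sqrt d / Real.sqrt d' * (‖⟪w, x⟫_ℂ‖ / d) =
      ‖⟪w, x⟫_ℂ‖ / (Real.sqrt d * Real.sqrt d') := by
    rw [div_mul_div_comm, div_eq_div_iff (by positivity) (by positivity)]
    calc Real.sqrt d * ‖⟪w, x⟫_ℂ‖ * (Real.sqrt d * Real.sqrt d')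
        = ‖⟪w, x⟫_ℂ‖ * (Real.sqrt d' * (Real.sqrt d * Real.sqrt d)) := by ring
      _ = ‖⟪w, x⟫_ℂ‖ * (Real.sqrt d' * d) := by rw [q1]
  rw [e1, e2]
  have e3 : ‖⟪w, x⟫_ℂ‖ / d' ≤ ‖⟪w, x⟫_ℂ‖ / (Real.sqrt d * Real.sqrt d') := by
    apply div_le_div_of_nonneg_left (norm_nonneg _) (by positivity)
    calc Real.sqrt d * Real.sqrt d' ≤ Real.sqrt d' * Real.sqrt d' :=
          mul_le_mul_of_nonneg_right s3 s2.le
      _ = d' := q2
  linarith

theorem gau_mul {d C : ℝ} (hd : 0 < d) (hC : 1 ≤ C) (w x : E) :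
    gau d w x ≤ C * gau (C * d) w x := by
  have hC0 : 0 < C := by linarith
  have s1 : 0 < Real.sqrt d := Real.sqrt_pos.mpr hd
  have s2 : 1 ≤ Real.sqrt C := Real.one_le_sqrt.mpr hC
  have s2' : 0 < Real.sqrt C := by linarith
  have q2 : Real.sqrt C * Real.sqrt C = C := Real.mul_self_sqrt hC0.le
  unfold gau
  rw [Real.sqrt_mul hC0.le, mul_add]
  have e1 : C * (‖⟪w, x⟫_ℂ‖ / (C * d)) = ‖⟪w, x⟫_ℂ‖ / d := by
    field_simp
  have e2 : C * (‖x‖ / (Real.sqrt C * Real.sqrt d)) = Real.sqrt C * (‖x‖ / Real.sqrt d) := by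
    have : C * (‖x‖ / (Real.sqrt C * Real.sqrt d)) =
      (Real.sqrt C * Real.sqrt C) * (‖x‖ / (Real.sqrt C * Real.sqrt d)) := by rw [q2]
    rw [this]
    field_simp
  rw [e1, e2]
  have e3 : 0 ≤ ‖x‖ / Real.sqrt d := by positivity
  have e4 : ‖x‖ / Real.sqrt d ≤ Real.sqrt C * (‖x‖ / Real.sqrt d) := by nlinarith
  linarith

/-- intermediate radii -/
theorem HH_radial' {r s : ℝ} (hr : 0 ≤ r) (hrs : r ≤ s) {w : E} (hw : s * ‖w‖ < 1) :
    (1 - s ^ 2 * ‖w‖ ^ 2) / (1 - r ^ 2 * ‖w‖ ^ 2) ≤ HH ((r : ℂ) • w) ((s : ℂ) • w) := by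
  have hs : 0 ≤ s := le_trans hr hrs
  have hn : 0 ≤ ‖w‖ := norm_nonneg w
  have hin : ⟪(r : ℂ) • w, (s : ℂ) • w⟫_ℂ = ((r * s * ‖w‖ ^ 2 : ℝ) : ℂ) := by
    have hw2 : ⟪w, w⟫_ℂ = ((‖w‖ ^ 2 : ℝ) : ℂ) := by
      rw [inner_self_eq_norm_sq_to_K]
      simp
    rw [inner_smul_left, inner_smul_right, hw2, Complex.conj_ofReal]
    push_cast
    ring
  have n1 : ‖(r : ℂ) • w‖ = r * ‖w‖ := by
    rw [norm_smul, Complex.norm_real, Real.norm_of_nonneg hr]
  have n2 : ‖(s : ℂ) • w‖ = s * ‖w‖ := by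
    rw [norm_smul, Complex.norm_real, Real.norm_of_nonneg hs]
  have a1 : s ^ 2 * ‖w‖ ^ 2 < 1 := by
    have : (s * ‖w‖) ^ 2 < 1 := by
      have h0 : 0 ≤ s * ‖w‖ := mul_nonneg hs hn
      nlinarith
    rw [mul_pow] at this
    exact this
  have a2 : r * s * ‖w‖ ^ 2 ≤ s ^ 2 * ‖w‖ ^ 2 := by
    apply mul_le_mul_of_nonneg_right _ (sq_nonneg _)
    nlinarith
  have a3 : r ^ 2 * ‖w‖ ^ 2 ≤ r * s * ‖w‖ ^ 2 := by
    apply mul_le_mul_of_nonneg_right _ (sq_nonneg _)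
    nlinarith
  have nn : ‖(1 : ℂ) - ((r * s * ‖w‖ ^ 2 : ℝ) : ℂ)‖ = 1 - r * s * ‖w‖ ^ 2 := by
    have : (1 : ℂ) - ((r * s * ‖w‖ ^ 2 : ℝ) : ℂ) = ((1 - r * s * ‖w‖ ^ 2 : ℝ) : ℂ) := by
      push_cast; ring
    rw [this, Complex.norm_real, Real.norm_of_nonneg (by linarith)]
  unfold HH
  rw [hin, nn, n1, n2, mul_pow, mul_pow]
  have p1 : 0 < 1 - s ^ 2 * ‖w‖ ^ 2 := by linarith
  have p2 : 0 < 1 - r ^ 2 * ‖w‖ ^ 2 := by linarith
  have p3 : 0 < 1 - r * s * ‖w‖ ^ 2 := by linarith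
  rw [div_le_div_iff₀ p2 (by positivity)]
  have p4 : (1 - r * s * ‖w‖ ^ 2) ^ 2 ≤ (1 - r ^ 2 * ‖w‖ ^ 2) ^ 2 :=
    pow_le_pow_left₀ p3.le (by linarith) 2
  calc (1 - s ^ 2 * ‖w‖ ^ 2) * (1 - r * s * ‖w‖ ^ 2) ^ 2
      ≤ (1 - s ^ 2 * ‖w‖ ^ 2) * (1 - r ^ 2 * ‖w‖ ^ 2) ^ 2 :=
        mul_le_mul_of_nonneg_left p4 p1.le
    _ = (1 - r ^ 2 * ‖w‖ ^ 2) * (1 - s ^ 2 * ‖w‖ ^ 2) * (1 - r ^ 2 * ‖w‖ ^ 2) := by ring

theorem HH_radial {θ : ℝ} (hθ0 : 0 < θ) (hθ : θ < 1) {i j : ℕ} (hij : i ≤ j) {w : E}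
    (hw : rt θ j * ‖w‖ < 1) :
    dl θ j w / dl θ i w ≤ HH ((rt θ i : ℂ) • w) ((rt θ j : ℂ) • w) := by
  exact HH_radial' (PTDl_rt_nonneg hθ0 hθ i) (PTDl_rt_mono hθ0 hθ hij) hw

end Pool.Agent.MPca0fc2.PT
end

section

set_option autoImplicit false

open Metric Set MeasureTheory Filter Topology
open scoped InnerProductSpace ENNReal

namespace Pool.Agent.MPca0fc2.PT

variable {E : Type*} [NormedAddCommGroup E] [InnerProductSpace ℂ E]

variable [FiniteDimensional ℂ E] [MeasurableSpace E] [BorelSpace E]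

/-- `θ ^ k / (1 - r_k² |w|²)` -/
noncomputable def xk (θ : ℝ) (k : ℕ) (w : E) : ℝ := θ ^ k / dl θ k w

omit [FiniteDimensional ℂ E] [MeasurableSpace E] [BorelSpace E] in
theorem xk_pos {θ : ℝ} (h0 : 0 < θ) (h1 : θ < 1) {k : ℕ} {w : E} (hw : ‖w‖ < RC θ k) :
    0 < xk θ k w := by
  have h := dl_ge h0 h1 (Nat.le_succ k) hw
  have h2 : 0 < θ ^ k := by positivity
  exact div_pos h2 (by linarith)

omit [FiniteDimensional ℂ E] [MeasurableSpace E] [BorelSpace E] in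
theorem dl_pos {θ : ℝ} (h0 : 0 < θ) (h1 : θ < 1) {k : ℕ} {w : E} (hw : ‖w‖ < RC θ k) :
    0 < dl θ k w := by
  have h := dl_ge h0 h1 (Nat.le_succ k) hw
  have h2 : 0 < θ ^ k := by positivity
  linarith

omit [FiniteDimensional ℂ E] [MeasurableSpace E] [BorelSpace E] in
theorem xk_le {θ : ℝ} (h0 : 0 < θ) (h1 : θ < 1) {k : ℕ} {w : E} (hw : ‖w‖ < RC θ k) :
    xk θ k w ≤ 4 := by
  have h := dl_ge h0 h1 (Nat.le_succ k) hw
  unfold xk
  rw [div_le_iff₀ (dl_pos h0 h1 hw)]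
  linarith

omit [FiniteDimensional ℂ E] [MeasurableSpace E] [BorelSpace E] in
theorem xk_le_pow {θ : ℝ} (h0 : 0 < θ) (h1 : θ < 1) {k : ℕ} {w : E} (hw : ‖w‖ < RC θ k) :
    xk θ k w ≤ 2 * xk θ k w ^ (7 / 8 : ℝ) ∧
      xk θ k w ^ (7 / 8 : ℝ) ≤ 2 * xk θ k w ^ (3 / 4 : ℝ) ∧ xk θ k w ^ (7 / 8 : ℝ) ≤ 4 := by
  have hx := xk_pos h0 h1 hw
  have hx4 := xk_le h0 h1 hw
  have h8 : xk θ k w ^ (1 / 8 : ℝ) ≤ 2 := by
    calc xk θ k w ^ (1 / 8 : ℝ) ≤ (4 : ℝ) ^ (1 / 8 : ℝ) :=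
          Real.rpow_le_rpow hx.le hx4 (by norm_num)
      _ ≤ (4 : ℝ) ^ (1 / 2 : ℝ) := Real.rpow_le_rpow_of_exponent_le (by norm_num) (by norm_num)
      _ = 2 := by
          rw [← Real.sqrt_eq_rpow, show (4 : ℝ) = 2 ^ 2 by norm_num,
            Real.sqrt_sq (by norm_num)]
  refine ⟨?_, ?_, ?_⟩
  · have e : xk θ k w = xk θ k w ^ (1 / 8 : ℝ) * xk θ k w ^ (7 / 8 : ℝ) := by
      rw [← Real.rpow_add hx]; norm_num
    calc xk θ k w = xk θ k w ^ (1 / 8 : ℝ) * xk θ k w ^ (7 / 8 : ℝ) := e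
      _ ≤ 2 * xk θ k w ^ (7 / 8 : ℝ) := by gcongr
  · have e : xk θ k w ^ (7 / 8 : ℝ) = xk θ k w ^ (1 / 8 : ℝ) * xk θ k w ^ (3 / 4 : ℝ) := by
      rw [← Real.rpow_add hx]; norm_num
    rw [e]
    gcongr
  · calc xk θ k w ^ (7 / 8 : ℝ) ≤ (4 : ℝ) ^ (7 / 8 : ℝ) :=
          Real.rpow_le_rpow hx.le hx4 (by norm_num)
      _ ≤ (4 : ℝ) ^ (1 : ℝ) := Real.rpow_le_rpow_of_exponent_le (by norm_num) (by norm_num)
      _ = 4 := by norm_num

theorem RC_succ_le {θ : ℝ} (h0 : 0 < θ) (h1 : θ < 1) (k : ℕ) : RC θ k ≤ RC θ (k - 1) := by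
  unfold RC
  rcases Nat.eq_zero_or_pos k with rfl | hk
  · simp
  · have : θ ^ (k + 1) ≤ θ ^ (k - 1 + 1) := pow_le_pow_of_le_one h0.le h1.le (by omega)
    linarith

theorem RA_lt_RC {θ : ℝ} (h0 : 0 < θ) (k : ℕ) : RA θ k < RC θ k := by
  unfold RA RC
  have : 0 < θ ^ (k + 1) := by positivity
  linarith

theorem RB_lt_RA {θ : ℝ} (h0 : 0 < θ) (k : ℕ) : RB θ k < RA θ k := by
  unfold RA RB
  have : 0 < θ ^ (k + 1) := by positivity
  linarith

theorem one_lt_RB {θ : ℝ} (h0 : 0 < θ) (k : ℕ) : 1 < RB θ k := by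
  unfold RB
  have : 0 < θ ^ (k + 1) := by positivity
  linarith

omit [FiniteDimensional ℂ E] [MeasurableSpace E] [BorelSpace E] in
theorem rt_nonneg {θ : ℝ} (h0 : 0 < θ) (h1 : θ < 1) (k : ℕ) : 0 ≤ rt θ k := by
  unfold rt
  have := pow_le_one₀ (n := k) h0.le h1.le
  linarith

omit [FiniteDimensional ℂ E] [MeasurableSpace E] [BorelSpace E] in
theorem rt_smul_mem {θ : ℝ} (h0 : 0 < θ) (h1 : θ < 1) {i k : ℕ} (hik : i ≤ k + 1) {w : E}
    (hw : ‖w‖ < RC θ k) : (rt θ i : ℂ) • w ∈ ball (0 : E) 1 := by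
  rw [mem_ball_zero_iff, norm_smul, Complex.norm_real, Real.norm_eq_abs,
    abs_of_nonneg (rt_nonneg h0 h1 i)]
  exact rt_mul_lt h0 h1 hik hw

omit [FiniteDimensional ℂ E] [MeasurableSpace E] [BorelSpace E] in
theorem uk_diff {θ : ℝ} (h0 : 0 < θ) (h1 : θ < 1) {u : E → ℂ}
    (hu : DifferentiableOn ℂ u (ball 0 1)) {i k : ℕ} (hik : i ≤ k + 1) :
    DifferentiableOn ℂ (uk u θ i) (ball 0 (RC θ k)) := by
  intro w hw
  rw [mem_ball_zero_iff] at hw
  apply DifferentiableAt.differentiableWithinAt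
  have h2 := rt_smul_mem h0 h1 hik hw
  exact (hu.differentiableAt (isOpen_ball.mem_nhds h2)).comp w (by fun_prop)

end Pool.Agent.MPca0fc2.PT
end
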