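import Pool.Agent.Lib.MP_ca0fc2_an.Mg.G047

section

/-! Volumes of the anisotropic sets. -/

set_option autoImplicit false

open Metric Set MeasureTheory Filter Topology

namespace Pool.Agent.MPca0fc2.FD

variable {n : ℕ}

private theorem G3_dδ {U : Set (Ec n)} {δ : Ec n → ℝ} {h : Ec n → Ec n → Fin n → ℂ} {c C : ℝ}
    (hg : Geo U δ h c C) {x : Ec n} (hx : x ∈ U) : DifferentiableAt ℝ δ x :=
  (hg.dδ.contDiffAt (hg.opn.mem_nhds hx)).differentiableAt (by norm_num)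

private theorem G3_coord (X : Ec n) (k : Fin n) : ‖X k‖ ≤ ‖X‖ := PiLp.norm_apply_le X k

private theorem G3_cd (j : Fin n) : Differentiable ℝ (fun ζ : Ec n => ζ j) := by
  fun_prop

private theorem G3_hd {U : Set (Ec n)} {δ : Ec n → ℝ} {h : Ec n → Ec n → Fin n → ℂ} {c C : ℝ}
    (hg : Geo U δ h c C) {z x : Ec n} (hz : z ∈ U) (hx : x ∈ U) :
    DifferentiableAt ℝ (fun ζ => h z ζ) x := by
  have h1 : DifferentiableAt ℝ (fun p : Ec n × Ec n => h p.1 p.2) (z, x) :=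
    (hg.dh.contDiffAt ((hg.opn.prod hg.opn).mem_nhds
      (Set.mk_mem_prod hz hx))).differentiableAt (by norm_num)
  have h2 : DifferentiableAt ℝ (fun ζ : Ec n => (z, ζ)) x :=
    (differentiableAt_const z).prodMk differentiableAt_id
  have h3 : (fun ζ => h z ζ) =
    (fun p : Ec n × Ec n => h p.1 p.2) ∘ (fun ζ : Ec n => (z, ζ)) := rfl
  rw [h3]
  exact DifferentiableAt.comp x h1 h2

private theorem G3_vd {U : Set (Ec n)} {δ : Ec n → ℝ} {h : Ec n → Ec n → Fin n → ℂ} {c C : ℝ}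
    (hg : Geo U δ h c C) {z x : Ec n} (hz : z ∈ U) (hx : x ∈ U) :
    DifferentiableAt ℝ (fun ζ => ∑ j, h z ζ j * (ζ j - z j)) x := by
  have h1 := G3_hd hg hz hx
  refine DifferentiableAt.fun_sum fun j _ => ?_
  have h2 : DifferentiableAt ℝ (fun ζ => h z ζ j) x := (differentiableAt_pi.1 h1) j
  have h3 : DifferentiableAt ℝ (fun ζ : Ec n => ζ j - z j) x :=
    ((G3_cd j) x).sub_const (z j)
  exact h2.mul h3

private theorem G3_wd {U : Set (Ec n)} {δ : Ec n → ℝ} {h : Ec n → Ec n → Fin n → ℂ} {c C : ℝ}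
    (hg : Geo U δ h c C) {z x : Ec n} (hz : z ∈ U) (hx : x ∈ U) :
    DifferentiableAt ℝ (fun ζ => (δ ζ : ℂ) + ((vv δ h z ζ).im : ℝ) * Complex.I) x := by
  have h1 : DifferentiableAt ℝ (fun ζ => (δ ζ : ℂ)) x :=
    Complex.ofRealCLM.differentiableAt.comp x (G3_dδ hg hx)
  have h2 : DifferentiableAt ℝ (fun ζ => (vv δ h z ζ).im) x := by
    have h3 : (fun ζ => (vv δ h z ζ).im) = fun ζ => (∑ j, h z ζ j * (ζ j - z j)).im := by
      funext ζ
      rw [vv, Complex.add_im, Complex.ofReal_im, zero_add]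
    rw [h3]
    exact Complex.imCLM.differentiableAt.comp x (G3_vd hg hz hx)
  have h4 : DifferentiableAt ℝ (fun ζ => (((vv δ h z ζ).im : ℝ) : ℂ)) x :=
    Complex.ofRealCLM.differentiableAt.comp x h2
  exact h1.add (h4.mul_const _)

/-- the derivative of the linear form -/
private theorem G3_lf (g : Fin n → ℂ) (x : Ec n) :
    DifferentiableAt ℝ (fun y : Ec n => 2 * (∑ j, g j * y j).re) x ∧
      ∀ X, fderiv ℝ (fun y : Ec n => 2 * (∑ j, g j * y j).re) x X = 2 * (∑ j, g j * X j).re := by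
  let L : Ec n →ₗ[ℝ] ℝ :=
    { toFun := fun y => 2 * (∑ j, g j * y j).re
      map_add' := fun a b => by
        simp only [PiLp.add_apply, mul_add, Finset.sum_add_distrib, Complex.add_re]
      map_smul' := fun r a => by
        have : ∀ j, g j * (r • a) j = (r : ℂ) * (g j * a j) := fun j => by
          rw [PiLp.smul_apply, Complex.real_smul]
          ring
        simp only [this, ← Finset.mul_sum, Complex.re_ofReal_mul, RingHom.id_apply, smul_eq_mul]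
        ring }
  have h1 : HasFDerivAt (fun y : Ec n => 2 * (∑ j, g j * y j).re) (LinearMap.toContinuousLinearMap L)
      x := (LinearMap.toContinuousLinearMap L).hasFDerivAt
  exact ⟨h1.differentiableAt, fun X => by rw [h1.fderiv]; rfl⟩

/-- `h` is Lipschitz near the diagonal. -/
private theorem G3_hlip {U : Set (Ec n)} {δ : Ec n → ℝ} {h : Ec n → Ec n → Fin n → ℂ} {c C : ℝ}
    (hg : Geo U δ h c C) {z : Ec n} (hz : z ∈ Om U δ) {a b a' b' : Ec n} (ha : a ∈ ball z c)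
    (hb : b ∈ ball z c) (ha' : a' ∈ ball z c) (hb' : b' ∈ ball z c) :
    ‖h a b - h a' b'‖ ≤ C * max ‖a - a'‖ ‖b - b'‖ := by
  have hU : ball z c ⊆ U := hg.nb z hz.1 hz.2
  have hconv : Convex ℝ (ball z c ×ˢ ball z c) := (convex_ball z c).prod (convex_ball z c)
  have hd : ∀ x ∈ ball z c ×ˢ ball z c,
      DifferentiableAt ℝ (fun p : Ec n × Ec n => h p.1 p.2) x := by
    intro x hx
    exact (hg.dh.contDiffAt ((hg.opn.prod hg.opn).mem_nhds ⟨hU hx.1, hU hx.2⟩)).differentiableAt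
      (by norm_num)
  have hb2 : ∀ x ∈ ball z c ×ˢ ball z c,
      ‖fderiv ℝ (fun p : Ec n × Ec n => h p.1 p.2) x‖ ≤ C := by
    intro x hx
    exact hg.bdh x.1 (hU hx.1) x.2 (hU hx.2)
  have := hconv.norm_image_sub_le_of_norm_fderiv_le hd hb2
    (x := (a', b')) (y := (a, b)) ⟨ha', hb'⟩ ⟨ha, hb⟩
  simpa [Prod.norm_def] using this

/-- `δ` is Lipschitz.
PROOF. `Geo.grad`, `Geo.bh`: `‖fderiv ℝ δ z‖ ≤ 2 n C` on `U`. If `‖ζ - z‖ < c` then the segment is in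
`ball z c ⊆ U` and the mean value theorem applies. If `‖ζ - z‖ ≥ c` then
`|δ ζ - δ z| ≤ C ≤ (C / c) ‖ζ - z‖` (both values are in `(0, C]`). -/
theorem δ_lip' (n : ℕ) (c C : ℝ) : ∃ L : ℝ, 0 < L ∧ ∀ (U : Set (Ec n))
    (δ : Ec n → ℝ) (h : Ec n → Ec n → Fin n → ℂ), Geo U δ h c C → ∀ z ∈ Om U δ, ∀ ζ ∈ U,
    0 < δ ζ → |δ ζ - δ z| ≤ L * ‖ζ - z‖ := by
  refine ⟨|2 * n * C| + |C / c| + 1, by positivity, ?_⟩
  intro U δ h hg z hz ζ hζ hζ0
  have hc := hg.c0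
  have hC : 0 < C := lt_of_lt_of_le one_pos hg.C1
  by_cases hlt : ‖ζ - z‖ < c
  · have hU : ball z c ⊆ U := hg.nb z hz.1 hz.2
    have hb : ∀ x ∈ ball z c, ‖fderiv ℝ δ x‖ ≤ 2 * n * C := by
      intro x hx
      refine ContinuousLinearMap.opNorm_le_bound _ (by positivity) fun X => ?_
      rw [hg.grad x (hU hx) X, Real.norm_eq_abs, abs_mul]
      have h1 := Complex.abs_re_le_norm (∑ k, h x x k * X k)
      have h2 := lin_le (h x x) X
      have h3 : (n : ℝ) * ‖h x x‖ * ‖X‖ ≤ n * C * ‖X‖ := by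
        have := hg.bh x (hU hx) x (hU hx)
        gcongr
      have h4 : |(-2 : ℝ)| = 2 := by norm_num
      rw [h4]
      linarith
    have hz' : z ∈ ball z c := mem_ball_self hc
    have hζ' : ζ ∈ ball z c := by rw [mem_ball, dist_eq_norm]; exact hlt
    have := (convex_ball z c).norm_image_sub_le_of_norm_fderiv_le
      (fun x hx => G3_dδ hg (hU hx)) hb hz' hζ'
    rw [Real.norm_eq_abs] at this
    refine this.trans (mul_le_mul_of_nonneg_right ?_ (norm_nonneg _))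
    have h1 := le_abs_self (2 * n * C)
    have h2 := abs_nonneg (C / c)
    linarith
  · push Not at hlt
    have h1 := hg.bδ z hz.1
    have h2 := hg.bδ ζ hζ
    have h3 : 0 < δ z := hz.2
    have h4 : |δ ζ - δ z| ≤ C := abs_le.2 ⟨by linarith, by linarith⟩
    have h5 : C ≤ C / c * ‖ζ - z‖ := by
      rw [div_mul_eq_mul_div, le_div_iff₀ hc]
      exact mul_le_mul_of_nonneg_left hlt hC.le
    refine (h4.trans h5).trans (mul_le_mul_of_nonneg_right ?_ (norm_nonneg _))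
    have h6 := le_abs_self (C / c)
    have h7 := abs_nonneg (2 * n * C)
    linarith

/-- The linear map of the coordinates.
PROOF. Let `Y` be `X` with the coordinate `k` replaced by `y = -2 Re (g X) + I Im (g X)`. Then
`|g X| ≤ 2 |y|`... (`Re (g X) = -Re y / 2`, `Im (g X) = Im y`) and `X_l = Y_l` for `l ≠ k`,
`X_k = (g X - ∑_(l≠k) g_l Y_l) / g_k`, so `|X_k| ≤ (2 |y| + n C ‖Y‖) / c`. So `‖X‖ ≤ C' ‖Y‖`. -/
theorem lin_expand (n : ℕ) (c C : ℝ) (hc : 0 < c) : ∃ κ : ℝ, 0 < κ ∧ ∀ (g : Fin n → ℂ) (k : Fin n),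
    ‖g‖ ≤ C → c ≤ ‖g k‖ → ∀ (X Y : Ec n), (∀ l, l ≠ k → Y l = X l) →
    Y k = ((-2 * (∑ l, g l * X l).re : ℝ) : ℂ) + ((∑ l, g l * X l).im : ℝ) * Complex.I →
    κ * ‖X‖ ≤ ‖Y‖ := by
  have hK : 0 < 2 + (2 + n * |C|) / c := by positivity
  refine ⟨(2 + (2 + n * |C|) / c)⁻¹, inv_pos.2 hK, ?_⟩
  intro g k hgC hgk X Y hl hk
  rw [inv_mul_le_iff₀ hK]
  set G := ∑ l, g l * X l with hG
  have hre : (Y k).re = -2 * G.re := by rw [hk]; simp
  have him : (Y k).im = G.im := by rw [hk]; simp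
  have hYk : ‖Y k‖ ≤ ‖Y‖ := G3_coord Y k
  have hGn : ‖G‖ ≤ 2 * ‖Y‖ := by
    have h1 := Complex.norm_le_abs_re_add_abs_im G
    have h2 := Complex.abs_re_le_norm (Y k)
    have h3 := Complex.abs_im_le_norm (Y k)
    rw [hre, abs_mul] at h2
    rw [him] at h3
    have h4 : |(-2 : ℝ)| = 2 := by norm_num
    rw [h4] at h2
    have h5 := abs_nonneg G.re
    linarith
  have hsplit : g k * X k = G - ∑ l ∈ Finset.univ.erase k, g l * Y l := by
    rw [hG, ← Finset.add_sum_erase Finset.univ _ (Finset.mem_univ k)]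
    have : ∑ l ∈ Finset.univ.erase k, g l * Y l = ∑ l ∈ Finset.univ.erase k, g l * X l :=
      Finset.sum_congr rfl fun l hlk => by rw [hl l (Finset.ne_of_mem_erase hlk)]
    rw [this]
    ring
  have hsum : ‖∑ l ∈ Finset.univ.erase k, g l * Y l‖ ≤ n * |C| * ‖Y‖ := by
    refine (norm_sum_le _ _).trans ?_
    have h1 : ∀ l ∈ Finset.univ.erase k, ‖g l * Y l‖ ≤ |C| * ‖Y‖ := by
      intro l _
      rw [norm_mul]
      have h2 : ‖g l‖ ≤ |C| := ((norm_le_pi_norm g l).trans hgC).trans (le_abs_self C)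
      exact mul_le_mul h2 (G3_coord Y l) (norm_nonneg _) (abs_nonneg _)
    refine (Finset.sum_le_card_nsmul _ _ _ h1).trans ?_
    rw [nsmul_eq_mul, mul_assoc]
    have h3 : ((Finset.univ.erase k).card : ℝ) ≤ n := by
      have := Finset.card_erase_le (s := (Finset.univ : Finset (Fin n))) (a := k)
      rw [Finset.card_univ, Fintype.card_fin] at this
      exact_mod_cast this
    exact mul_le_mul_of_nonneg_right h3 (by positivity)
  have hXk : ‖X k‖ ≤ (2 + n * |C|) / c * ‖Y‖ := by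
    rw [div_mul_eq_mul_div, le_div_iff₀ hc]
    have h1 : ‖g k‖ * ‖X k‖ ≤ 2 * ‖Y‖ + n * |C| * ‖Y‖ := by
      rw [← norm_mul, hsplit]
      exact (norm_sub_le _ _).trans (add_le_add hGn hsum)
    have h2 : c * ‖X k‖ ≤ ‖g k‖ * ‖X k‖ := mul_le_mul_of_nonneg_right hgk (norm_nonneg _)
    nlinarith [h1, h2]
  have hX : X = Y + EuclideanSpace.single k (X k - Y k) := by
    ext l
    by_cases hlk : l = k
    · subst hlk; simp
    · simp [hlk, hl l hlk]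
  have h1 : ‖X‖ ≤ ‖Y‖ + ‖X k - Y k‖ := by
    conv_lhs => rw [hX]
    refine (norm_add_le _ _).trans ?_
    rw [PiLp.norm_single]
  have h2 := norm_sub_le (X k) (Y k)
  nlinarith [h1, h2, hXk, hYk]

/-- The coordinates near a point near the boundary.
Let `z ∈ Om`, `δ z < c`. `g = h(z, z)`, `‖g‖ ≥ c` (`Geo.nd`), so there is `k` with `|g_k| ≥ c` (the sup norm).
`Φ ζ` is `ζ` with the coordinate `k` replaced by `δ ζ + I Im (v(z, ζ))`.
PROOF. Let `B = ball z r₀`, `r₀ ≤ c`, so `B ⊆ U` (`Geo.nb`). The derivative of the coordinate `k` of `Φ` at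
`ζ` in the direction `X` is `dδ(X) + I Im (dv(X))`, where `dδ(X) = -2 Re (h(ζ, ζ) X)` and
`dv(X) = dδ(X) + ∑ (D_ζ h_l X) (ζ_l - z_l) + ∑ h_l(z, ζ) X_l`. Since `‖h(ζ, ζ) - g‖`,
`‖h(z, ζ) - g‖ ≤ C'' r₀` (mean value theorem on `B ×ˢ B`, `Geo.bdh`), the difference of the derivative and of
`-2 Re (g X) + I Im (g X)` is at most `C''' r₀ ‖X‖`. So `Φ - L₀`, where `L₀` is the linear map of
`lin_expand`, is Lipschitz on the convex set `B` with the constant `C''' r₀`, and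
`‖Φ a - Φ b‖ ≥ κ ‖a - b‖ - C''' r₀ ‖a - b‖ ≥ (κ / 2) ‖a - b‖` if `r₀` is small. -/
theorem coord_expand (n : ℕ) (c C : ℝ) (hc : 0 < c) : ∃ r₀ κ : ℝ, 0 < r₀ ∧ r₀ ≤ c ∧ 0 < κ ∧
    ∀ (U : Set (Ec n)) (δ : Ec n → ℝ) (h : Ec n → Ec n → Fin n → ℂ), Geo U δ h c C →
    ∀ z ∈ Om U δ, δ z < c → ∃ (k : Fin n) (Φ : Ec n → Ec n),
      (∀ ζ l, l ≠ k → Φ ζ l = ζ l) ∧
      (∀ ζ, Φ ζ k = (δ ζ : ℂ) + ((vv δ h z ζ).im : ℝ) * Complex.I) ∧
      DifferentiableOn ℝ Φ (ball z r₀) ∧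
      ∀ a ∈ ball z r₀, ∀ b ∈ ball z r₀, κ * ‖a - b‖ ≤ ‖Φ a - Φ b‖ := by
  obtain ⟨κ, hκ, hlin⟩ := lin_expand n c C hc
  have hK : 0 < 8 * n * |C| + 1 := by positivity
  refine ⟨min c (κ / (8 * n * |C| + 1)), κ / 2, by positivity, min_le_left _ _, by positivity, ?_⟩
  intro U δ h hg z hz hzc
  set r₀ := min c (κ / (8 * n * |C| + 1)) with hr₀
  have hr₀pos : 0 < r₀ := by positivity
  have hr₀c : r₀ ≤ c := min_le_left _ _
  have hC : 0 < C := lt_of_lt_of_le one_pos hg.C1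
  have hr₀κ : 4 * n * C * r₀ ≤ κ / 2 := by
    have h1 : r₀ ≤ κ / (8 * n * |C| + 1) := min_le_right _ _
    rw [le_div_iff₀ hK, abs_of_pos hC] at h1
    nlinarith [h1, hr₀pos]
  have hBc : ball z r₀ ⊆ ball z c := ball_subset_ball hr₀c
  have hU : ball z c ⊆ U := hg.nb z hz.1 hz.2
  have hzc' : z ∈ ball z c := mem_ball_self hc
  -- the coordinate
  obtain ⟨k, hk⟩ : ∃ k, c ≤ ‖h z z k‖ := by
    by_contra hcon
    push Not at hcon
    have h1 := hg.nd z hz.1 hz.2 hzc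
    have h2 : ‖h z z‖ < c := (pi_norm_lt_iff hc).2 hcon
    linarith
  set g := h z z with hgdef
  have hgC : ‖g‖ ≤ C := hg.bh z hz.1 z hz.1
  set w : Ec n → ℂ := fun ζ => (δ ζ : ℂ) + ((vv δ h z ζ).im : ℝ) * Complex.I with hw
  have hvim : ∀ ζ, (vv δ h z ζ).im = (∑ j, h z ζ j * (ζ j - z j)).im := by
    intro ζ
    rw [vv, Complex.add_im, Complex.ofReal_im, zero_add]
  refine ⟨k, fun ζ => ζ + (w ζ - ζ k) • ee k, ?_, ?_, ?_, ?_⟩
  · intro ζ l hl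
    simp [ee, hl]
  · intro ζ
    simp [ee, hw]
  · -- differentiability
    intro x hx
    have h1 : DifferentiableAt ℝ w x := G3_wd hg hz.1 (hU (hBc hx))
    have h2 : DifferentiableAt ℝ (fun ζ => (w ζ - ζ k) • (ee k : Ec n)) x :=
      (h1.sub (G3_cd k x)).smul_const _
    exact (differentiableAt_id.add h2).differentiableWithinAt
  · intro a ha b hb
    have haU := hU (hBc ha)
    have hbU := hU (hBc hb)
    have har : ‖a - z‖ ≤ r₀ := by
      have := mem_ball.1 ha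
      rw [dist_eq_norm] at this
      exact this.le
    have hbr : ‖b - z‖ ≤ r₀ := by
      have := mem_ball.1 hb
      rw [dist_eq_norm] at this
      exact this.le
    -- first part
    have hφ1 : |(δ a + 2 * (∑ j, g j * a j).re) - (δ b + 2 * (∑ j, g j * b j).re)| ≤
        2 * n * C * r₀ * ‖a - b‖ := by
      have hd : ∀ x ∈ ball z r₀, DifferentiableAt ℝ
          (fun y : Ec n => δ y + 2 * (∑ j, g j * y j).re) x := fun x hx =>
        (G3_dδ hg (hU (hBc hx))).add (G3_lf g x).1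
      have hb' : ∀ x ∈ ball z r₀, ‖fderiv ℝ
          (fun y : Ec n => δ y + 2 * (∑ j, g j * y j).re) x‖ ≤ 2 * n * C * r₀ := by
        intro x hx
        refine ContinuousLinearMap.opNorm_le_bound _ (by positivity) fun X => ?_
        have e1 : fderiv ℝ (fun y : Ec n => δ y + 2 * (∑ j, g j * y j).re) x X =
            -2 * (∑ j, (h x x - g) j * X j).re := by
          rw [fderiv_fun_add (G3_dδ hg (hU (hBc hx))) (G3_lf g x).1,
            _root_.add_apply, hg.grad x (hU (hBc hx)) X, (G3_lf g x).2]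
          have h2 : ∑ j, (h x x - g) j * X j = (∑ j, h x x j * X j) - ∑ j, g j * X j := by
            rw [← Finset.sum_sub_distrib]
            exact Finset.sum_congr rfl fun j _ => by rw [Pi.sub_apply]; ring
          rw [h2, Complex.sub_re]
          ring
        rw [e1, Real.norm_eq_abs, abs_mul]
        have h4 := Complex.abs_re_le_norm (∑ j, (h x x - g) j * X j)
        have h5 := lin_le (h x x - g) X
        have h6 := G3_hlip hg hz (hBc hx) (hBc hx) hzc' hzc'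
        have h7 : ‖x - z‖ ≤ r₀ := by
          have := mem_ball.1 hx
          rw [dist_eq_norm] at this
          exact this.le
        rw [max_self] at h6
        have h8 : ‖h x x - g‖ ≤ C * r₀ := h6.trans (mul_le_mul_of_nonneg_left h7 hC.le)
        have h9 : (n : ℝ) * ‖h x x - g‖ * ‖X‖ ≤ n * (C * r₀) * ‖X‖ := by gcongr
        have h10 : |(-2 : ℝ)| = 2 := by norm_num
        rw [h10]
        nlinarith [h4, h5, h9]
      have := (convex_ball z r₀).norm_image_sub_le_of_norm_fderiv_le hd hb' hb ha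
      simpa [Real.norm_eq_abs] using this
    -- second part
    have hφ2 : |(∑ j, h z a j * (a j - z j)).im - (∑ j, h z b j * (b j - z j)).im -
        (∑ j, g j * (a j - b j)).im| ≤ 2 * n * C * r₀ * ‖a - b‖ := by
      have e1 : (∑ j, h z a j * (a j - z j)) - (∑ j, h z b j * (b j - z j)) -
          (∑ j, g j * (a j - b j)) =
          (∑ j, (h z a - h z b) j * (a - z) j) + ∑ j, (h z b - g) j * (a - b) j := by
        rw [← Finset.sum_sub_distrib, ← Finset.sum_sub_distrib, ← Finset.sum_add_distrib]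
        refine Finset.sum_congr rfl fun j _ => ?_
        simp only [Pi.sub_apply, PiLp.sub_apply]
        ring
      rw [← Complex.sub_im, ← Complex.sub_im, e1]
      refine (Complex.abs_im_le_norm _).trans ((norm_add_le _ _).trans ?_)
      have h1 := lin_le (h z a - h z b) (a - z)
      have h2 := lin_le (h z b - g) (a - b)
      have h3 := G3_hlip hg hz hzc' (hBc ha) hzc' (hBc hb)
      have h4 := G3_hlip hg hz hzc' (hBc hb) hzc' hzc'
      rw [sub_self, norm_zero, max_eq_right (norm_nonneg _)] at h3 h4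
      have h5 : ‖h z b - g‖ ≤ C * r₀ := h4.trans (mul_le_mul_of_nonneg_left hbr hC.le)
      have h6 : (n : ℝ) * ‖h z a - h z b‖ * ‖a - z‖ ≤ n * (C * ‖a - b‖) * r₀ := by gcongr
      have h7 : (n : ℝ) * ‖h z b - g‖ * ‖a - b‖ ≤ n * (C * r₀) * ‖a - b‖ := by gcongr
      nlinarith [h1, h2, h6, h7]
    -- the linear map
    set X := a - b with hX
    set G := ∑ j, g j * X j with hG
    set Y : Ec n := X + (((-2 * G.re : ℝ) : ℂ) + (G.im : ℝ) * Complex.I - X k) • ee k with hY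
    have hYl : ∀ l, l ≠ k → Y l = X l := by
      intro l hl
      simp [hY, ee, hl]
    have hYk : Y k = ((-2 * G.re : ℝ) : ℂ) + (G.im : ℝ) * Complex.I := by
      simp [hY, ee]
    have hmain := hlin g k hgC hk X Y hYl hYk
    -- the difference
    have hdiff : (a + (w a - a k) • ee k) - (b + (w b - b k) • ee k) =
        Y + ((w a - w b) - (((-2 * G.re : ℝ) : ℂ) + (G.im : ℝ) * Complex.I)) • ee k := by
      rw [hY, hX]
      simp only [PiLp.sub_apply]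
      module
    have hee : ‖(ee k : Ec n)‖ = 1 := by
      rw [ee, PiLp.norm_single, norm_one]
    have hsmall : ‖(w a - w b) - (((-2 * G.re : ℝ) : ℂ) + (G.im : ℝ) * Complex.I)‖ ≤
        4 * n * C * r₀ * ‖X‖ := by
      have hGe : G = (∑ j, g j * a j) - ∑ j, g j * b j := by
        rw [hG, ← Finset.sum_sub_distrib]
        refine Finset.sum_congr rfl fun j _ => ?_
        rw [hX, PiLp.sub_apply]
        ring
      have hGe' : (∑ j, g j * (a j - b j)) = G := by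
        rw [hG]
        refine Finset.sum_congr rfl fun j _ => ?_
        rw [hX, PiLp.sub_apply]
      refine (Complex.norm_le_abs_re_add_abs_im _).trans ?_
      have hre : ((w a - w b) - (((-2 * G.re : ℝ) : ℂ) + (G.im : ℝ) * Complex.I)).re =
          (δ a + 2 * (∑ j, g j * a j).re) - (δ b + 2 * (∑ j, g j * b j).re) := by
        rw [hw]
        simp only [Complex.sub_re, Complex.add_re, Complex.mul_re, Complex.ofReal_re,
          Complex.ofReal_im, Complex.I_re, Complex.I_im]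
        rw [hGe, Complex.sub_re]
        ring
      have him : ((w a - w b) - (((-2 * G.re : ℝ) : ℂ) + (G.im : ℝ) * Complex.I)).im =
          (∑ j, h z a j * (a j - z j)).im - (∑ j, h z b j * (b j - z j)).im -
            (∑ j, g j * (a j - b j)).im := by
        rw [hw, hGe']
        simp only [Complex.sub_im, Complex.add_im, Complex.mul_im, Complex.ofReal_re,
          Complex.ofReal_im, Complex.I_re, Complex.I_im, hvim]
        ring
      rw [hre, him]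
      linarith
    show κ / 2 * ‖X‖ ≤ ‖(a + (w a - a k) • ee k) - (b + (w b - b k) • ee k)‖
    rw [hdiff]
    have h1 : ‖Y‖ ≤ ‖Y + ((w a - w b) - (((-2 * G.re : ℝ) : ℂ) + (G.im : ℝ) * Complex.I)) •
        ee k‖ + ‖((w a - w b) - (((-2 * G.re : ℝ) : ℂ) + (G.im : ℝ) * Complex.I)) •
        (ee k : Ec n)‖ := norm_le_add_norm_add _ _
    rw [norm_smul _ (ee k : Ec n), hee, mul_one] at h1
    have h2 : 4 * n * C * r₀ * ‖X‖ ≤ κ / 2 * ‖X‖ :=
      mul_le_mul_of_nonneg_right hr₀κ (norm_nonneg _)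
    linarith

private theorem G3_meas {Y : Type*} [TopologicalSpace Y] [MeasurableSpace Y] [BorelSpace Y]
    {B : Set (Ec n)} {f : Ec n → Y} (hf : ContinuousOn f B) (hB : MeasurableSet B) {T : Set Y}
    (hT : MeasurableSet T) : MeasurableSet (B ∩ f ⁻¹' T) := by
  have h1 := (continuousOn_iff_continuous_domRestrict.1 hf).measurable hT
  have h2 := hB.subtype_image h1
  have h3 : B ∩ f ⁻¹' T = Subtype.val '' (B.domRestrict f ⁻¹' T) := by
    ext x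
    simp only [mem_inter_iff, mem_preimage, mem_image, Subtype.exists, exists_and_right,
      exists_eq_right]
    exact ⟨fun h => ⟨h.1, h.2⟩, fun ⟨h, h'⟩ => ⟨h, h'⟩⟩
  rw [h3]
  exact h2

private theorem G3_lmeas {U : Set (Ec n)} {δ : Ec n → ℝ} {h : Ec n → Ec n → Fin n → ℂ}
    {c C : ℝ} (hg : Geo U δ h c C) {z : Ec n} (hz : z ∈ U) {B : Set (Ec n)} (hB : IsOpen B)
    (hBU : B ⊆ U) (s t r : ℝ) :
    MeasurableSet {ζ : Ec n | ζ ∈ B ∧ 0 < δ ζ ∧ δ ζ ≤ s ∧ |(vv δ h z ζ).im| ≤ t ∧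
      ‖ζ - z‖ ≤ r} := by
  have h1 : MeasurableSet (B ∩ δ ⁻¹' (Ioc 0 s)) :=
    G3_meas (fun x hx => (G3_dδ hg (hBU hx)).continuousAt.continuousWithinAt) hB.measurableSet
      measurableSet_Ioc
  have h2 : MeasurableSet (B ∩ (fun ζ => (δ ζ : ℂ) + ((vv δ h z ζ).im : ℝ) * Complex.I) ⁻¹'
      {w : ℂ | |w.im| ≤ t}) := by
    refine G3_meas (fun x hx => (G3_wd hg hz (hBU hx)).continuousAt.continuousWithinAt)
      hB.measurableSet ?_
    exact measurableSet_le (Complex.measurable_im.abs) measurable_const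
  have h3 : MeasurableSet {ζ : Ec n | ‖ζ - z‖ ≤ r} :=
    measurableSet_le (measurable_id.sub_const z).norm measurable_const
  have h4 : {ζ : Ec n | ζ ∈ B ∧ 0 < δ ζ ∧ δ ζ ≤ s ∧ |(vv δ h z ζ).im| ≤ t ∧ ‖ζ - z‖ ≤ r} =
      (B ∩ δ ⁻¹' (Ioc 0 s)) ∩ ((B ∩ (fun ζ => (δ ζ : ℂ) + ((vv δ h z ζ).im : ℝ) *
        Complex.I) ⁻¹' {w : ℂ | |w.im| ≤ t}) ∩ {ζ : Ec n | ‖ζ - z‖ ≤ r}) := by
    ext x
    simp only [Set.mem_ofPred_eq, mem_inter_iff, mem_preimage, mem_Ioc, Complex.add_im,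
      Complex.ofReal_im, Complex.mul_im, Complex.ofReal_re, Complex.I_re, Complex.I_im, mul_one,
      mul_zero, zero_add, add_zero]
    tauto
  rw [h4]
  exact h1.inter (h2.inter h3)

/-- The local estimate.
PROOF. `coord_expand`, `vol_expand` with `B = ball z r₀` and
`S = {ζ ∈ ball z r₀ | 0 < δ ζ ≤ s, |Im v| ≤ t, ‖ζ - z‖ ≤ r}` (measurable: the functions are continuous on
the open set `ball z r₀ ⊆ U`), and `vol_box` (`Φ '' S` is contained in the box). -/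
theorem vol_local (hn : 1 ≤ n) (c C : ℝ) (hc : 0 < c) : ∃ r₀ C' : ℝ, 0 < r₀ ∧ r₀ ≤ c ∧ 0 < C' ∧
    ∀ (U : Set (Ec n)) (δ : Ec n → ℝ) (h : Ec n → Ec n → Fin n → ℂ), Geo U δ h c C →
    ∀ z ∈ Om U δ, δ z < c → ∀ s t r : ℝ, 0 < s → 0 < t → 0 < r →
      volume {ζ : Ec n | ζ ∈ ball z r₀ ∧ 0 < δ ζ ∧ δ ζ ≤ s ∧ |(vv δ h z ζ).im| ≤ t ∧ ‖ζ - z‖ ≤ r} ≤
        ENNReal.ofReal (C' * (s * t * r ^ (2 * n - 2))) := by
  obtain ⟨r₀, κ, hr₀, hr₀c, hκ, hco⟩ := coord_expand n c C hc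
  obtain ⟨C₁, hC₁, hbox⟩ := vol_box (n := n) hn
  refine ⟨r₀, C₁ / κ ^ (2 * n), hr₀, hr₀c, by positivity, ?_⟩
  intro U δ h hg z hz hzc s t r hs ht hr
  obtain ⟨k, Φ, hΦl, hΦk, hΦd, hΦe⟩ := hco U δ h hg z hz hzc
  have hBU : ball z r₀ ⊆ U := (ball_subset_ball hr₀c).trans (hg.nb z hz.1 hz.2)
  set S := {ζ : Ec n | ζ ∈ ball z r₀ ∧ 0 < δ ζ ∧ δ ζ ≤ s ∧ |(vv δ h z ζ).im| ≤ t ∧
    ‖ζ - z‖ ≤ r} with hS
  have hSm : MeasurableSet S := G3_lmeas hg hz.1 isOpen_ball hBU s t r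
  have hex := vol_expand (Φ := Φ) isOpen_ball hSm (fun x hx => hx.1) hΦd hκ hΦe
  have hsub : Φ '' S ⊆ {Y : Ec n | 0 < (Y k).re ∧ (Y k).re ≤ s ∧ |(Y k).im| ≤ t ∧
      ∀ l, l ≠ k → ‖Y l - z l‖ ≤ r} := by
    rintro _ ⟨ζ, hζ, rfl⟩
    have h1 : (Φ ζ k).re = δ ζ := by rw [hΦk]; simp
    have h2 : (Φ ζ k).im = (vv δ h z ζ).im := by rw [hΦk]; simp
    refine ⟨by rw [h1]; exact hζ.2.1, by rw [h1]; exact hζ.2.2.1, by rw [h2]; exact hζ.2.2.2.1,
      fun l hl => ?_⟩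
    rw [hΦl ζ l hl, ← PiLp.sub_apply]
    exact (G3_coord (ζ - z) l).trans hζ.2.2.2.2
  have h1 := hex.trans ((measure_mono hsub).trans (hbox k z s t r hs ht hr))
  have hκ2 : 0 < κ ^ (2 * n) := by positivity
  have h2 : volume S = ENNReal.ofReal ((κ ^ (2 * n))⁻¹) *
      (ENNReal.ofReal (κ ^ (2 * n)) * volume S) := by
    rw [← mul_assoc, ← ENNReal.ofReal_mul (by positivity), inv_mul_cancel₀ hκ2.ne',
      ENNReal.ofReal_one, one_mul]
  rw [h2]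
  refine (mul_le_mul_right h1 _).trans ?_
  rw [← ENNReal.ofReal_mul (by positivity)]
  refine ENNReal.ofReal_le_ofReal (le_of_eq ?_)
  field_simp

/-- The volume of the collar.
PROOF. `Om ⊆ closedBall 0 C` (`Geo.bz`). If `s ≥ c` this is `vol_ball`. If `s < c`: let
`T = {ζ ∈ Om | δ ζ ≤ s}`; `cover_balls` with `r = r₀` of `vol_local` gives at most `M` balls `ball x r₀`,
`x ∈ T`. On each of them, `|Im v(x, ζ)| ≤ C + n C r₀` (`Geo.bδ`, `Geo.bh`, `lin_le`), so by `vol_local` the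
volume of `T ∩ ball x r₀` is at most a constant times `s`. -/
theorem vol_collar (hn : 1 ≤ n) (c C : ℝ) (hc : 0 < c) : ∃ C' : ℝ, 0 < C' ∧
    ∀ (U : Set (Ec n)) (δ : Ec n → ℝ) (h : Ec n → Ec n → Fin n → ℂ), Geo U δ h c C →
    ∀ s : ℝ, 0 < s → volume {ζ : Ec n | ζ ∈ Om U δ ∧ δ ζ ≤ s} ≤ ENNReal.ofReal (C' * s) := by
  by_cases hC1 : 1 ≤ C
  swap
  · exact ⟨1, one_pos, fun U δ h hg => absurd hg.C1 hC1⟩
  have hC : 0 < C := lt_of_lt_of_le one_pos hC1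
  obtain ⟨r₀, C₁, hr₀, hr₀c, hC₁, hloc⟩ := vol_local hn c C hc
  obtain ⟨C₂, hC₂, hball⟩ := vol_ball n
  obtain ⟨M, hM⟩ := cover_balls n C r₀ hr₀
  have ht₀ : 0 < n * C * r₀ := by
    have : (0 : ℝ) < n := by exact_mod_cast hn
    positivity
  set K := C₁ * (n * C * r₀ * r₀ ^ (2 * n - 2)) with hK
  have hKpos : 0 < K := by positivity
  refine ⟨C₂ * C ^ (2 * n) / c + M * K + 1, by positivity, ?_⟩
  intro U δ h hg s hs
  have hOmC : Om U δ ⊆ closedBall 0 C := by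
    intro ζ hζ
    rw [mem_closedBall, dist_zero_right]
    exact hg.bz ζ hζ.1
  by_cases hsc : c ≤ s
  · refine ((measure_mono fun ζ hζ => hOmC hζ.1).trans (hball 0 C hC)).trans ?_
    refine ENNReal.ofReal_le_ofReal ?_
    have h1 : C₂ * C ^ (2 * n) ≤ C₂ * C ^ (2 * n) / c * s := by
      rw [div_mul_eq_mul_div, le_div_iff₀ hc]
      exact mul_le_mul_of_nonneg_left hsc (by positivity)
    have h2 : 0 ≤ (M : ℝ) * K * s := by positivity
    nlinarith [h1, h2]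
  · push Not at hsc
    set T := {ζ : Ec n | ζ ∈ Om U δ ∧ δ ζ ≤ s} with hT
    obtain ⟨F, hFM, hFT, hTF⟩ := hM T fun ζ hζ => hOmC hζ.1
    have h1 : T ⊆ ⋃ x ∈ F, (T ∩ ball x r₀) := by
      intro ζ hζ
      obtain ⟨x, hx, hζx⟩ := mem_iUnion₂.1 (hTF hζ)
      exact mem_iUnion₂.2 ⟨x, hx, hζ, hζx⟩
    have h2 : ∀ x ∈ F, volume (T ∩ ball x r₀) ≤ ENNReal.ofReal (K * s) := by
      intro x hx
      have hxT : x ∈ T := hFT hx
      have h3 : T ∩ ball x r₀ ⊆ {ζ : Ec n | ζ ∈ ball x r₀ ∧ 0 < δ ζ ∧ δ ζ ≤ s ∧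
          |(vv δ h x ζ).im| ≤ n * C * r₀ ∧ ‖ζ - x‖ ≤ r₀} := by
        rintro ζ ⟨hζT, hζb⟩
        have h4 : ‖ζ - x‖ ≤ r₀ := by
          have := mem_ball.1 hζb
          rw [dist_eq_norm] at this
          exact this.le
        refine ⟨hζb, hζT.1.2, hζT.2, ?_, h4⟩
        rw [vv, Complex.add_im, Complex.ofReal_im, zero_add]
        refine (Complex.abs_im_le_norm _).trans ?_
        have h5 := lin_le (h x ζ) (ζ - x)
        simp only [PiLp.sub_apply] at h5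
        refine h5.trans ?_
        have h6 := hg.bh x hxT.1.1 ζ hζT.1.1
        gcongr
      refine (measure_mono h3).trans
        ((hloc U δ h hg x hxT.1 (lt_of_le_of_lt hxT.2 hsc) s (n * C * r₀) r₀ hs ht₀ hr₀).trans ?_)
      refine ENNReal.ofReal_le_ofReal (le_of_eq ?_)
      rw [hK]
      ring
    refine (measure_mono h1).trans ((measure_biUnion_finset_le F _).trans ?_)
    refine (Finset.sum_le_card_nsmul _ _ _ h2).trans ?_
    rw [nsmul_eq_mul, ← ENNReal.ofReal_natCast, ← ENNReal.ofReal_mul (by positivity)]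
    refine ENNReal.ofReal_le_ofReal ?_
    have h7 : (F.card : ℝ) ≤ M := by exact_mod_cast hFM
    have h8 : (F.card : ℝ) * (K * s) ≤ M * (K * s) := by gcongr
    have h9 : 0 ≤ C₂ * C ^ (2 * n) / c * s := by positivity
    nlinarith [h8, h9]

/-- The volume of the anisotropic sets.
PROOF. Let `r₀` be the radius of `vol_local`, made smaller so that `L r₀ ≤ c / 2` (`δ_lip'`). Let `S` be the
set, `z ∈ Om`.
(1) `r ≤ r₀ / 2`... (so that `‖ζ - z‖ ≤ r` implies `ζ ∈ ball z r₀`), `δ z < c`: `vol_local`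
(`|Im v| ≤ ‖v‖ ≤ t`).
(2) `r ≤ r₀ / 2`, `δ z ≥ c`: if `S` is not empty, then for `ζ ∈ S`: `δ ζ ≥ c - L r ≥ c / 2`, so `s ≥ c / 2`,
and `t ≥ ‖v‖ ≥ δ z / 2 ≥ c / 2` (`v_lb`); the volume is at most `C'' r^(2n) ≤ C'' r₀² r^(2n-2) ≤
C''' s t r^(2n-2)` (`vol_ball`).
(3) `r > r₀ / 2`: the part of `S` with `‖ζ - z‖ ≤ r₀ / 2` is (1), (2) with `r₀ / 2 ≤ r`. On the other part
`‖v‖ ≥ c (r₀ / 2)² / 2` (`v_lb`), so if it is not empty then `t ≥ c r₀² / 8`, and the volume is at most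
`C'' s` by `vol_collar`, which is `≤ C''' s t r^(2n-2)`. -/
theorem vol_set (hn : 1 ≤ n) (c C : ℝ) : ∃ C' : ℝ, 0 < C' ∧
    ∀ (U : Set (Ec n)) (δ : Ec n → ℝ) (h : Ec n → Ec n → Fin n → ℂ), Geo U δ h c C →
    ∀ z ∈ Om U δ, ∀ s t r : ℝ, 0 < s → 0 < t → 0 < r →
      volume {ζ : Ec n | ζ ∈ Om U δ ∧ δ ζ ≤ s ∧ ‖vv δ h z ζ‖ ≤ t ∧ ‖ζ - z‖ ≤ r} ≤
        ENNReal.ofReal (C' * (s * t * r ^ (2 * n - 2))) := by
  by_cases hc : 0 < c
  swap
  · exact ⟨1, one_pos, fun U δ h hg => absurd hg.c0 hc⟩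
  obtain ⟨r₀, C₁, hr₀, hr₀c, hC₁, hloc⟩ := vol_local hn c C hc
  obtain ⟨C₂, hC₂, hball⟩ := vol_ball n
  obtain ⟨C₃, hC₃, hcol⟩ := vol_collar hn c C hc
  obtain ⟨L, hL, hlip⟩ := δ_lip' n c C
  obtain ⟨m, hm⟩ : ∃ m, 2 * n = m + 2 := ⟨2 * n - 2, by omega⟩
  have hm' : 2 * n - 2 = m := by omega
  set ρ := min r₀ (c / (2 * L)) / 2 with hρ
  have hρ0 : 0 < ρ := by positivity
  have hρr : ρ < r₀ := by
    have : min r₀ (c / (2 * L)) ≤ r₀ := min_le_left _ _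
    have h2 : 0 < min r₀ (c / (2 * L)) := by positivity
    rw [hρ]
    linarith
  have hρL : L * ρ ≤ c / 2 := by
    have h1 : min r₀ (c / (2 * L)) ≤ c / (2 * L) := min_le_right _ _
    have h2 : ρ ≤ c / (2 * L) := by
      rw [hρ]
      have h3 : 0 < min r₀ (c / (2 * L)) := by positivity
      linarith
    calc L * ρ ≤ L * (c / (2 * L)) := by gcongr
      _ = c / 2 := by field_simp
  -- the constants
  set K₁ := C₁ + C₂ * ρ ^ 2 * (4 / c ^ 2) with hK₁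
  have hK₁0 : 0 < K₁ := by positivity
  set K₂ := C₃ * (2 / (c * ρ ^ 2)) / ρ ^ m with hK₂
  have hK₂0 : 0 < K₂ := by positivity
  refine ⟨K₁ + K₂, by positivity, ?_⟩
  intro U δ h hg z hz
  rw [hm']
  -- small radii
  have hA : ∀ s t r : ℝ, 0 < s → 0 < t → 0 < r → r ≤ ρ →
      volume {ζ : Ec n | ζ ∈ Om U δ ∧ δ ζ ≤ s ∧ ‖vv δ h z ζ‖ ≤ t ∧ ‖ζ - z‖ ≤ r} ≤
        ENNReal.ofReal (K₁ * (s * t * r ^ m)) := by
    intro s t r hs ht hr hrρ
    by_cases hzc : δ z < c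
    · have h1 : {ζ : Ec n | ζ ∈ Om U δ ∧ δ ζ ≤ s ∧ ‖vv δ h z ζ‖ ≤ t ∧ ‖ζ - z‖ ≤ r} ⊆
          {ζ : Ec n | ζ ∈ ball z r₀ ∧ 0 < δ ζ ∧ δ ζ ≤ s ∧ |(vv δ h z ζ).im| ≤ t ∧
            ‖ζ - z‖ ≤ r} := by
        rintro ζ ⟨h2, h3, h4, h5⟩
        refine ⟨?_, h2.2, h3, (Complex.abs_im_le_norm _).trans h4, h5⟩
        rw [mem_ball, dist_eq_norm]
        exact lt_of_le_of_lt (h5.trans hrρ) hρr
      refine (measure_mono h1).trans ((hloc U δ h hg z hz hzc s t r hs ht hr).trans ?_)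
      rw [hm']
      refine ENNReal.ofReal_le_ofReal ?_
      refine mul_le_mul_of_nonneg_right ?_ (by positivity)
      rw [hK₁]
      have : 0 ≤ C₂ * ρ ^ 2 * (4 / c ^ 2) := by positivity
      linarith
    · push Not at hzc
      rcases Set.eq_empty_or_nonempty {ζ : Ec n | ζ ∈ Om U δ ∧ δ ζ ≤ s ∧ ‖vv δ h z ζ‖ ≤ t ∧
        ‖ζ - z‖ ≤ r} with he | ⟨ζ, h2, h3, h4, h5⟩
      · rw [he, measure_empty]
        exact zero_le
      · have h6 := hlip U δ h hg z hz ζ h2.1 h2.2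
        have h7 : L * ‖ζ - z‖ ≤ c / 2 := (mul_le_mul_of_nonneg_left (h5.trans hrρ) hL.le).trans hρL
        have h8 := (abs_le.1 (h6.trans h7)).1
        have hs' : c / 2 ≤ s := by linarith
        have h9 := (v_lb hg hz h2).1
        have ht' : c / 2 ≤ t := by linarith
        have h10 : {ζ : Ec n | ζ ∈ Om U δ ∧ δ ζ ≤ s ∧ ‖vv δ h z ζ‖ ≤ t ∧ ‖ζ - z‖ ≤ r} ⊆
            closedBall z r := by
          rintro ζ ⟨_, _, _, h5⟩
          rw [mem_closedBall, dist_eq_norm]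
          exact h5
        refine (measure_mono h10).trans ((hball z r hr).trans ?_)
        refine ENNReal.ofReal_le_ofReal ?_
        rw [hm, pow_add]
        have h11 : r ^ 2 ≤ ρ ^ 2 := by gcongr
        have h12 : 1 ≤ 4 / c ^ 2 * (s * t) := by
          rw [div_mul_eq_mul_div, le_div_iff₀ (by positivity)]
          nlinarith [mul_le_mul hs' ht' (by positivity) hs.le]
        calc C₂ * (r ^ m * r ^ 2) ≤ C₂ * (r ^ m * ρ ^ 2) := by gcongr
          _ = C₂ * ρ ^ 2 * r ^ m * 1 := by ring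
          _ ≤ C₂ * ρ ^ 2 * r ^ m * (4 / c ^ 2 * (s * t)) := by gcongr
          _ = C₂ * ρ ^ 2 * (4 / c ^ 2) * (s * t * r ^ m) := by ring
          _ ≤ K₁ * (s * t * r ^ m) := by
            refine mul_le_mul_of_nonneg_right ?_ (by positivity)
            rw [hK₁]
            linarith
  intro s t r hs ht hr
  by_cases hrρ : r ≤ ρ
  · refine (hA s t r hs ht hr hrρ).trans (ENNReal.ofReal_le_ofReal ?_)
    refine mul_le_mul_of_nonneg_right ?_ (by positivity)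
    linarith
  · push Not at hrρ
    have hpow : ρ ^ m ≤ r ^ m := by gcongr
    have h1 : {ζ : Ec n | ζ ∈ Om U δ ∧ δ ζ ≤ s ∧ ‖vv δ h z ζ‖ ≤ t ∧ ‖ζ - z‖ ≤ r} ⊆
        {ζ : Ec n | ζ ∈ Om U δ ∧ δ ζ ≤ s ∧ ‖vv δ h z ζ‖ ≤ t ∧ ‖ζ - z‖ ≤ ρ} ∪
        {ζ : Ec n | ζ ∈ Om U δ ∧ δ ζ ≤ s ∧ ‖vv δ h z ζ‖ ≤ t ∧ ρ < ‖ζ - z‖} := by
      rintro ζ ⟨h2, h3, h4, h5⟩
      by_cases h6 : ‖ζ - z‖ ≤ ρ
      · exact Or.inl ⟨h2, h3, h4, h6⟩
      · exact Or.inr ⟨h2, h3, h4, not_le.1 h6⟩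
    have h2 := hA s t ρ hs ht hρ0 le_rfl
    have h3 : volume {ζ : Ec n | ζ ∈ Om U δ ∧ δ ζ ≤ s ∧ ‖vv δ h z ζ‖ ≤ t ∧ ρ < ‖ζ - z‖} ≤
        ENNReal.ofReal (K₂ * (s * t * r ^ m)) := by
      rcases Set.eq_empty_or_nonempty {ζ : Ec n | ζ ∈ Om U δ ∧ δ ζ ≤ s ∧ ‖vv δ h z ζ‖ ≤ t ∧
        ρ < ‖ζ - z‖} with he | ⟨ζ, h4, h5, h6, h7⟩
      · rw [he, measure_empty]
        exact zero_le
      · have h8 := (v_lb hg hz h4).2.2.1
        have h9 : ρ ^ 2 ≤ ‖ζ - z‖ ^ 2 := by gcongr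
        have h10 : c * ρ ^ 2 ≤ 2 * t := by
          have : c * ρ ^ 2 ≤ c * ‖ζ - z‖ ^ 2 := by gcongr
          linarith
        have h11 : {ζ : Ec n | ζ ∈ Om U δ ∧ δ ζ ≤ s ∧ ‖vv δ h z ζ‖ ≤ t ∧ ρ < ‖ζ - z‖} ⊆
            {ζ : Ec n | ζ ∈ Om U δ ∧ δ ζ ≤ s} := fun ζ hζ => ⟨hζ.1, hζ.2.1⟩
        refine (measure_mono h11).trans ((hcol U δ h hg s hs).trans ?_)
        refine ENNReal.ofReal_le_ofReal ?_
        have h12 : 1 ≤ 2 / (c * ρ ^ 2) * t := by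
          rw [div_mul_eq_mul_div, le_div_iff₀ (by positivity)]
          linarith
        have h13 : 1 ≤ r ^ m / ρ ^ m := by
          rw [le_div_iff₀ (by positivity), one_mul]
          exact hpow
        calc C₃ * s = C₃ * s * 1 * 1 := by ring
          _ ≤ C₃ * s * (2 / (c * ρ ^ 2) * t) * (r ^ m / ρ ^ m) := by gcongr
          _ = K₂ * (s * t * r ^ m) := by
            rw [hK₂]
            field_simp
    refine (measure_mono h1).trans ((measure_union_le _ _).trans ((add_le_add h2 h3).trans ?_))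
    rw [← ENNReal.ofReal_add (by positivity) (by positivity)]
    refine ENNReal.ofReal_le_ofReal ?_
    have h4 : K₁ * (s * t * ρ ^ m) ≤ K₁ * (s * t * r ^ m) := by gcongr
    linarith

end Pool.Agent.MPca0fc2.FD
end

section

/-! Integrals of the bound of the kernels. -/

set_option autoImplicit false

open Metric Set MeasureTheory Filter Topology

namespace Pool.Agent.MPca0fc2.FD

variable {n : ℕ}

/-- PROOF. Let `i₀` be the real number with `2^(i₀) = √(B / A)`. Then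
`min (A 2^i) (B 2^(-i)) = √(A B) 2^(-|i - i₀|)`, and the sum over the integers `i` of `2^(-|i - i₀|)` is at
most `4` (two geometric series, for `i ≥ i₀` and `i < i₀`). Elementary: let `m` be the smallest natural
number with `B 2^(-m) ≤ A 2^m`; for `i ≥ m` use `B 2^(-i) ≤ √(A B) 2^(-(i - m))` (since
`B 2^(-m) ≤ √(A B)`: `(B 2^(-m))² ≤ A B`), for `i < m` use `A 2^i < √(A B) 2^(-(m - 1 - i))`
(since `A 2^(m-1) < B 2^(-(m-1))`, so `(A 2^(m-1))² < A B`). -/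
theorem min_sum {A B : ℝ} (hA : 0 < A) (hB : 0 < B) :
    Summable (fun i : ℕ => min (A * 2 ^ i) (B / 2 ^ i)) ∧
      ∑' i : ℕ, min (A * 2 ^ i) (B / 2 ^ i) ≤ 4 * Real.sqrt (A * B) := by
  have hgeo : Summable fun i : ℕ => ((1 : ℝ) / 2) ^ i := summable_geometric_two
  have hBe : ∀ i : ℕ, B / 2 ^ i = B * ((1 : ℝ) / 2) ^ i := by
    intro i
    rw [div_pow, one_pow, mul_one_div]
  have hnn : ∀ i : ℕ, 0 ≤ min (A * 2 ^ i) (B / 2 ^ i) := fun i =>
    le_min (by positivity) (by positivity)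
  have hsum : Summable (fun i : ℕ => min (A * 2 ^ i) (B / 2 ^ i)) := by
    refine Summable.of_nonneg_of_le hnn (fun i => ?_) (hgeo.mul_left B)
    exact (min_le_right _ _).trans (le_of_eq (hBe i))
  refine ⟨hsum, ?_⟩
  set S := Real.sqrt (A * B) with hS
  have hS0 : 0 ≤ S := Real.sqrt_nonneg _
  have hex : ∃ m : ℕ, B / 2 ^ m ≤ A * 2 ^ m := by
    obtain ⟨m, hm⟩ := pow_unbounded_of_one_lt (B / A) (by norm_num : (1 : ℝ) < 2)
    refine ⟨m, ?_⟩
    rw [div_lt_iff₀ hA] at hm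
    rw [div_le_iff₀ (by positivity)]
    have h1 : (1 : ℝ) ≤ 2 ^ m := one_le_pow₀ (by norm_num)
    nlinarith [mul_pos hA (by positivity : (0 : ℝ) < 2 ^ m)]
  classical
  set m := Nat.find hex with hm
  have hm1 : B / 2 ^ m ≤ A * 2 ^ m := Nat.find_spec hex
  have hge : ∀ i, min (A * 2 ^ (i + m)) (B / 2 ^ (i + m)) ≤ S * ((1 : ℝ) / 2) ^ i := by
    intro i
    refine (min_le_right _ _).trans ?_
    have h1 : B / 2 ^ (i + m) = (B / 2 ^ m) * ((1 : ℝ) / 2) ^ i := by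
      rw [pow_add, div_pow, one_pow]
      field_simp
    rw [h1]
    refine mul_le_mul_of_nonneg_right ?_ (by positivity)
    rw [hS]
    refine Real.le_sqrt_of_sq_le ?_
    have h2 : 0 < B / 2 ^ m := by positivity
    calc (B / 2 ^ m) ^ 2 = (B / 2 ^ m) * (B / 2 ^ m) := by ring
      _ ≤ (B / 2 ^ m) * (A * 2 ^ m) := by gcongr
      _ = A * B := by field_simp
  have hlt : ∀ i ∈ Finset.range m, min (A * 2 ^ i) (B / 2 ^ i) ≤
      S * ((1 : ℝ) / 2) ^ (m - 1 - i) := by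
    intro i hi
    rw [Finset.mem_range] at hi
    refine (min_le_left _ _).trans ?_
    have h0 : ¬ (B / 2 ^ (m - 1) ≤ A * 2 ^ (m - 1)) := Nat.find_min hex (by omega)
    push Not at h0
    have h1 : A * 2 ^ i = (A * 2 ^ (m - 1)) * ((1 : ℝ) / 2) ^ (m - 1 - i) := by
      have h2 : m - 1 = i + (m - 1 - i) := by omega
      conv_rhs => rw [h2, pow_add, Nat.add_sub_cancel_left]
      rw [div_pow, one_pow]
      field_simp
    rw [h1]
    refine mul_le_mul_of_nonneg_right ?_ (by positivity)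
    rw [hS]
    refine Real.le_sqrt_of_sq_le ?_
    calc (A * 2 ^ (m - 1)) ^ 2 = (A * 2 ^ (m - 1)) * (A * 2 ^ (m - 1)) := by ring
      _ ≤ (A * 2 ^ (m - 1)) * (B / 2 ^ (m - 1)) := by gcongr
      _ = A * B := by field_simp
  rw [← hsum.sum_add_tsum_nat_add m]
  have h1 : ∑ i ∈ Finset.range m, min (A * 2 ^ i) (B / 2 ^ i) ≤ S * 2 := by
    refine (Finset.sum_le_sum hlt).trans ?_
    rw [← Finset.mul_sum, Finset.sum_range_reflect (fun j => ((1 : ℝ) / 2) ^ j) m]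
    exact mul_le_mul_of_nonneg_left (sum_geometric_two_le m) hS0
  have h2 : ∑' i, min (A * 2 ^ (i + m)) (B / 2 ^ (i + m)) ≤ S * 2 := by
    refine (((summable_nat_add_iff m).2 hsum).tsum_le_tsum hge (hgeo.mul_left S)).trans ?_
    rw [tsum_mul_left, tsum_geometric_two]
  linarith

/-- PROOF. Monotonicity of the integral and countable subadditivity: `lintegral_iUnion_le`
(or `lintegral_mono_set`, `measure_iUnion_le`), and on each piece the integral is at most the bound times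
the measure (`setLIntegral_mono'`, `setLIntegral_const`; measurability of the pieces is not needed if you
use `lintegral_mono` for the restricted measure with `ae_restrict_of_forall_mem`, which needs
measurable sets: you may replace a piece by its measurable hull `toMeasurable`; or assume that the
pieces are measurable in your application and use `setLIntegral_mono'`). -/
theorem lint_cover {S : Set (Ec n)} {F : Ec n → ENNReal} {ι : Type*} [Countable ι]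
    (P : ι → Set (Ec n)) (hPm : ∀ i, MeasurableSet (P i)) (b v : ι → ENNReal)
    (hS : ∀ᵐ ζ ∂(volume.restrict S), ∃ i, ζ ∈ P i ∧ F ζ ≤ b i)
    (hv : ∀ i, volume (P i) ≤ v i) :
    ∫⁻ ζ in S, F ζ ≤ ∑' i, b i * v i := by
  have h1 : ∀ᵐ ζ ∂(volume.restrict S), F ζ ≤ ∑' i, (P i).indicator (fun _ => b i) ζ := by
    filter_upwards [hS] with ζ hζ
    obtain ⟨i, hi, hF⟩ := hζ
    refine hF.trans ?_
    have h2 : (P i).indicator (fun _ => b i) ζ = b i := Set.indicator_of_mem hi _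
    calc b i = (P i).indicator (fun _ => b i) ζ := h2.symm
      _ ≤ ∑' i, (P i).indicator (fun _ => b i) ζ := ENNReal.le_tsum i
  calc ∫⁻ ζ in S, F ζ ≤ ∫⁻ ζ in S, ∑' i, (P i).indicator (fun _ => b i) ζ := lintegral_mono_ae h1
    _ ≤ ∫⁻ ζ, ∑' i, (P i).indicator (fun _ => b i) ζ := setLIntegral_le_lintegral _ _
    _ = ∑' i, ∫⁻ ζ, (P i).indicator (fun _ => b i) ζ :=
      lintegral_tsum fun i => (measurable_const.indicator (hPm i)).aemeasurable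
    _ ≤ ∑' i, b i * v i := by
      refine ENNReal.tsum_le_tsum fun i => ?_
      rw [lintegral_indicator_const (hPm i)]
      exact mul_le_mul_right (hv i) _

private theorem G4_dδ {U : Set (Ec n)} {δ : Ec n → ℝ} {h : Ec n → Ec n → Fin n → ℂ} {c C : ℝ}
    (hg : Geo U δ h c C) {x : Ec n} (hx : x ∈ U) : ContinuousAt δ x :=
  ((hg.dδ.contDiffAt (hg.opn.mem_nhds hx)).differentiableAt (by norm_num)).continuousAt

private theorem G4_lmeas {U : Set (Ec n)} {δ : Ec n → ℝ} {h : Ec n → Ec n → Fin n → ℂ}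
    {c C : ℝ} (hg : Geo U δ h c C) (a b : ℝ) :
    MeasurableSet {ζ : Ec n | ζ ∈ Om U δ ∧ a < δ ζ ∧ δ ζ ≤ b} := by
  have hf : ContinuousOn δ U := fun x hx => (G4_dδ hg hx).continuousWithinAt
  have hT : MeasurableSet (Ioi 0 ∩ Ioc a b) := measurableSet_Ioi.inter measurableSet_Ioc
  have h1 := (continuousOn_iff_continuous_domRestrict.1 hf).measurable hT
  have h2 := hg.opn.measurableSet.subtype_image h1
  have h3 : {ζ : Ec n | ζ ∈ Om U δ ∧ a < δ ζ ∧ δ ζ ≤ b} =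
      Subtype.val '' (U.domRestrict δ ⁻¹' (Ioi 0 ∩ Ioc a b)) := by
    ext x
    simp only [mem_inter_iff, mem_preimage, mem_image, Subtype.exists, exists_and_right,
      exists_eq_right]
    exact ⟨fun h => ⟨h.1.1, h.1.2, h.2.1, h.2.2⟩, fun ⟨h, h1, h2, h3⟩ => ⟨⟨h, h1⟩, h2, h3⟩⟩
  rw [h3]
  exact h2

/-- the cancellation of the powers -/
private theorem G4_kh {δ : Ec n → ℝ} {h : Ec n → Ec n → Fin n → ℂ} {z ζ : Ec n}
    (hδ : 0 < δ ζ) (ht : 0 < ‖vv δ h z ζ‖) :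
    Kh δ h z ζ * (‖vv δ h z ζ‖ / δ ζ) ^ (n + 5) = (δ ζ / ‖vv δ h z ζ‖) ^ 3 *
      (‖vv δ h z ζ‖⁻¹ * (‖ζ - z‖ ^ (2 * n - 1))⁻¹ +
      (Real.sqrt (δ ζ))⁻¹ * (‖vv δ h z ζ‖ ^ 2)⁻¹ * (‖ζ - z‖ ^ (2 * n - 3))⁻¹) := by
  rw [Kh]
  have h1 : (δ ζ / ‖vv δ h z ζ‖) ^ (n + 8) * (‖vv δ h z ζ‖ / δ ζ) ^ (n + 5) =
      (δ ζ / ‖vv δ h z ζ‖) ^ 3 := by
    have h2 : n + 8 = 3 + (n + 5) := by ring
    rw [h2, pow_add, mul_assoc, ← mul_pow, div_mul_div_comm, mul_comm (δ ζ),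
      div_self (mul_pos ht hδ).ne', one_pow, mul_one]
  rw [mul_right_comm, h1]

private theorem G4_kh0 {δ : Ec n → ℝ} {h : Ec n → Ec n → Fin n → ℂ} {z ζ : Ec n}
    (hδ : 0 < δ ζ) : 0 ≤ Kh δ h z ζ := by
  rw [Kh]
  positivity

/-- the real number computation of the first kind -/
private theorem G4_b1 {C₁ C₂ T s ρ Q : ℝ} (m : ℕ) (hC₁ : 0 < C₁) (hC₂ : 0 < C₂) (hT : 0 < T)
    (hs : 0 < s) (hρ : 0 < ρ) (hQ : 0 < Q) {W : ℝ}
    (hW1 : W ≤ C₁ * (s * (T * s / 2) * (ρ / Q) ^ (m + 1))) (hW2 : W ≤ C₂ * (ρ / Q) ^ (m + 3)) :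
    (4 / T) ^ 3 * (4 / (T * s) * (2 / (ρ / Q)) ^ (m + 2)) * W ≤
      min (128 * 2 ^ (m + 2) * C₁ * s / (T ^ 3 * ρ) * Q)
        (256 * 2 ^ (m + 2) * C₂ * ρ / (T ^ 4 * s) / Q) := by
  have h0 : 0 ≤ (4 / T) ^ 3 * (4 / (T * s) * (2 / (ρ / Q)) ^ (m + 2)) := by positivity
  refine le_min ?_ ?_
  · refine (mul_le_mul_of_nonneg_left hW1 h0).trans (le_of_eq ?_)
    have h1 : (ρ / Q) ^ (m + 2) = (ρ / Q) ^ (m + 1) * (ρ / Q) := by ring
    have h2 : (0 : ℝ) < (ρ / Q) ^ (m + 1) := by positivity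
    rw [div_pow 2 (ρ / Q), h1]
    field_simp
    norm_num
  · refine (mul_le_mul_of_nonneg_left hW2 h0).trans (le_of_eq ?_)
    have h1 : (ρ / Q) ^ (m + 3) = (ρ / Q) ^ (m + 2) * (ρ / Q) := by ring
    have h2 : (0 : ℝ) < (ρ / Q) ^ (m + 2) := by positivity
    rw [div_pow 2 (ρ / Q), h1]
    field_simp
    norm_num

/-- the real number computation of the second kind -/
private theorem G4_b2 {C₁ T s c Q : ℝ} (m : ℕ) (hC₁ : 0 < C₁) (hT : 1 ≤ T)
    (hs : 0 < s) (hc : 0 < c) (hQ : 0 < Q) {W : ℝ}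
    (hW1 : W ≤ C₁ * (s * (T * s / 2) * (Real.sqrt (T * s / c) / Q) ^ (m + 1))) :
    (4 / T) ^ 3 * (2 / Real.sqrt s * (4 / (T * s)) ^ 2 *
      (2 / (Real.sqrt (T * s / c) / Q)) ^ m) * W ≤
      1024 * 2 ^ m * C₁ / Real.sqrt c / T / Q := by
  have hT0 : 0 < T := by linarith
  set ρ := Real.sqrt (T * s / c) with hρ
  have hρ0 : 0 < ρ := Real.sqrt_pos.2 (by positivity)
  have hss : 0 < Real.sqrt s := Real.sqrt_pos.2 hs
  have hsc : 0 < Real.sqrt c := Real.sqrt_pos.2 hc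
  have hρe : ρ = Real.sqrt T * Real.sqrt s / Real.sqrt c := by
    rw [hρ, Real.sqrt_div' _ hc.le, Real.sqrt_mul hT0.le]
  have h0 : 0 ≤ (4 / T) ^ 3 * (2 / Real.sqrt s * (4 / (T * s)) ^ 2 * (2 / (ρ / Q)) ^ m) := by
    positivity
  refine (mul_le_mul_of_nonneg_left hW1 h0).trans ?_
  have h1 : (ρ / Q) ^ (m + 1) = (ρ / Q) ^ m * (ρ / Q) := by ring
  have h2 : (0 : ℝ) < (ρ / Q) ^ m := by positivity
  have e1 : (4 / T) ^ 3 * (2 / Real.sqrt s * (4 / (T * s)) ^ 2 * (2 / (ρ / Q)) ^ m) *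
      (C₁ * (s * (T * s / 2) * (ρ / Q) ^ (m + 1))) =
      1024 * 2 ^ m * C₁ * (ρ / Real.sqrt s) / T ^ 4 / Q := by
    rw [div_pow 2 (ρ / Q), h1]
    field_simp
    norm_num
  have e2 : ρ / Real.sqrt s = Real.sqrt T / Real.sqrt c := by
    rw [hρe]
    field_simp
  rw [e1, e2]
  have h3 : Real.sqrt T ≤ T ^ 3 := by
    rw [Real.sqrt_le_left (by positivity)]
    have h4 : T ^ 1 ≤ T ^ 6 := pow_le_pow_right₀ hT (by norm_num)
    calc T = T ^ 1 := (pow_one T).symm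
      _ ≤ T ^ 6 := h4
      _ = (T ^ 3) ^ 2 := by ring
  have e3 : 1024 * 2 ^ m * C₁ / Real.sqrt c / T / Q =
      1024 * 2 ^ m * C₁ * (T ^ 3 / Real.sqrt c) / T ^ 4 / Q := by
    field_simp
  rw [e3]
  gcongr

/-- the sum over the pieces -/
private theorem G4_sum {K₁ K₂ : ℝ} (hK₁ : 0 < K₁) (hK₂ : 0 < K₂) (A B : ℕ → ℝ)
    (hA : ∀ j, 0 < A j) (hB : ∀ j, 0 < B j)
    (hAB : ∀ j, 4 * Real.sqrt (A j * B j) ≤ K₁ / 2 ^ j) :
    ∑' p : ℕ × ℕ, ENNReal.ofReal (min (A p.1 * 2 ^ p.2) (B p.1 / 2 ^ p.2) +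
      K₂ / 2 ^ p.1 / 2 ^ p.2) ≤ ENNReal.ofReal (2 * K₁ + 4 * K₂) := by
  have hgeo : Summable fun i : ℕ => ((1 : ℝ) / 2) ^ i := summable_geometric_two
  have h2e : ∀ (x : ℝ) (i : ℕ), x / 2 ^ i = x * ((1 : ℝ) / 2) ^ i := by
    intro x i
    rw [div_pow, one_pow, mul_one_div]
  rw [ENNReal.tsum_prod (f := fun a b => ENNReal.ofReal (min (A a * 2 ^ b) (B a / 2 ^ b) +
      K₂ / 2 ^ a / 2 ^ b))]
  have h1 : ∀ a : ℕ, ∑' b : ℕ, ENNReal.ofReal (min (A a * 2 ^ b) (B a / 2 ^ b) +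
      K₂ / 2 ^ a / 2 ^ b) ≤ ENNReal.ofReal ((K₁ + 2 * K₂) * ((1 : ℝ) / 2) ^ a) := by
    intro a
    obtain ⟨hs, hle⟩ := min_sum (hA a) (hB a)
    have hs2 : Summable (fun b : ℕ => K₂ / 2 ^ a / 2 ^ b) := by
      simp only [h2e _]
      exact hgeo.mul_left _
    have hpos : ∀ b : ℕ, 0 ≤ min (A a * 2 ^ b) (B a / 2 ^ b) + K₂ / 2 ^ a / 2 ^ b := by
      intro b
      have := hA a
      have := hB a
      refine add_nonneg (le_min (by positivity) (by positivity)) (by positivity)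
    rw [← ENNReal.ofReal_tsum_of_nonneg hpos (hs.add hs2)]
    refine ENNReal.ofReal_le_ofReal ?_
    rw [hs.tsum_add hs2]
    have h3 : ∑' b : ℕ, K₂ / 2 ^ a / 2 ^ b = K₂ / 2 ^ a * 2 := by
      simp only [h2e (K₂ / 2 ^ a)]
      rw [tsum_mul_left, tsum_geometric_two]
    rw [h3]
    have h4 := hle.trans (hAB a)
    rw [h2e] at h4
    rw [h2e K₂]
    nlinarith [h4]
  refine (ENNReal.tsum_le_tsum h1).trans ?_
  rw [← ENNReal.ofReal_tsum_of_nonneg (fun a => by positivity) (hgeo.mul_left _)]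
  refine ENNReal.ofReal_le_ofReal ?_
  rw [tsum_mul_left, tsum_geometric_two]
  linarith

/-- The integral of the kernel bound over a layer.
PROOF. Let `t = ‖v‖`, `d = ‖ζ - z‖`. `Kh * (t / δ)^(n+5) = (δ / t)³ (t⁻¹ d^(-(2n-1)) + δ^(-1/2) t^(-2) d^(-(2n-3)))`.
By `v_lb`, `t ≥ δ ζ / 2 > s / 4` and `d² ≤ 2 t / c`. Decompose the layer (up to the point `ζ = z`, which has
measure `0`) into the pieces `P (i, j)`, `i, j ∈ ℕ`: `2^j s / 4 < t ≤ 2^(j+1) s / 4` and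
`2^(-i-1) ρ_j < d ≤ 2^(-i) ρ_j`, `ρ_j = √(2^j s / c)`. Let `r = 2^(-i) ρ_j`. The volume of the piece is at most
`C'' min (2^j s² r^(2n-2)) (r^(2n))` by `vol_set` (with `t = 2^(j+1) s / 4`) and `vol_ball`.
First term: on the piece it is at most a constant times `2^(-3j) (2^j s)⁻¹ r^(-(2n-1))`, so its integral
is at most a constant times `2^(-4j) min (2^j s / r) (r / s) =
2^(-4j) min (A 2^i) (B 2^(-i))`, `A = 2^j s / ρ_j`, `B = ρ_j / s`, `A B = 2^j`; the sum over `i` is at most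
`4 2^(j/2)` by `min_sum`, and `∑_j 2^(-4j + j/2)` converges.
Second term: at most a constant times `2^(-3j) s^(-1/2) (2^j s)^(-2) r^(-(2n-3))` times the volume
`2^j s² r^(2n-2)`: a constant times `2^(-4j) s^(-1/2) r`; the sum over `i` of `r` is `2 ρ_j = 2 √(2^j s / c)`.
(`n ≥ 2`, so `2n - 3 ≥ 1`, `2n - 2 = (2n - 3) + 1`.) Use `lint_cover` for each of the two terms. -/
theorem layer_int (hn : 2 ≤ n) (c C : ℝ) : ∃ C' : ℝ, 0 < C' ∧
    ∀ (U : Set (Ec n)) (δ : Ec n → ℝ) (h : Ec n → Ec n → Fin n → ℂ), Geo U δ h c C →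
    ∀ z ∈ Om U δ, ∀ s : ℝ, 0 < s →
      ∫⁻ ζ in {ζ | ζ ∈ Om U δ ∧ s / 2 < δ ζ ∧ δ ζ ≤ s},
        ENNReal.ofReal (Kh δ h z ζ * (‖vv δ h z ζ‖ / δ ζ) ^ (n + 5)) ≤ ENNReal.ofReal C' := by
  obtain ⟨C₁, hC₁, hset⟩ := vol_set (n := n) (by omega) c C
  obtain ⟨C₂, hC₂, hball⟩ := vol_ball n
  obtain ⟨m, hm⟩ : ∃ m, n = m + 2 ∧ 2 * n - 3 = 2 * m + 1 := ⟨n - 2, by omega, by omega⟩
  obtain ⟨hm0, hm3⟩ := hm
  set N := 2 * m + 1 with hN
  have hn1 : 2 * n - 1 = N + 2 := by omega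
  have hn2 : 2 * n - 2 = N + 1 := by omega
  have hn3 : 2 * n = N + 3 := by omega
  set K₁ := 4 * Real.sqrt (128 * 2 ^ (N + 2) * C₁ * (256 * 2 ^ (N + 2) * C₂)) with hK₁
  have hK₁0 : 0 < K₁ := by
    have : 0 < Real.sqrt (128 * 2 ^ (N + 2) * C₁ * (256 * 2 ^ (N + 2) * C₂)) :=
      Real.sqrt_pos.2 (by positivity)
    positivity
  by_cases hc : 0 < c
  swap
  · exact ⟨1, one_pos, fun U δ h hg => absurd hg.c0 hc⟩
  set K₂ := 1024 * 2 ^ N * C₁ / Real.sqrt c with hK₂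
  have hsc : 0 < Real.sqrt c := Real.sqrt_pos.2 hc
  have hK₂0 : 0 < K₂ := by positivity
  refine ⟨2 * K₁ + 4 * K₂, by positivity, ?_⟩
  intro U δ h hg z hz s hs
  set L := {ζ : Ec n | ζ ∈ Om U δ ∧ s / 2 < δ ζ ∧ δ ζ ≤ s} with hL
  have hLm : MeasurableSet L := G4_lmeas hg _ _
  -- the pieces
  set ρ : ℕ → ℝ := fun j => Real.sqrt (2 ^ j * s / c) with hρ
  have hρ0 : ∀ j, 0 < ρ j := fun j => Real.sqrt_pos.2 (by positivity)
  set V : ℕ × ℕ → Set (Ec n) := fun p => {ζ : Ec n | ζ ∈ Om U δ ∧ δ ζ ≤ s ∧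
    ‖vv δ h z ζ‖ ≤ 2 ^ p.1 * s / 2 ∧ ‖ζ - z‖ ≤ ρ p.1 / 2 ^ p.2} with hV
  have hV1 : ∀ p, volume (V p) ≤ ENNReal.ofReal
      (C₁ * (s * (2 ^ p.1 * s / 2) * (ρ p.1 / 2 ^ p.2) ^ (N + 1))) := by
    intro p
    have hp := hρ0 p.1
    have := hset U δ h hg z hz s (2 ^ p.1 * s / 2) (ρ p.1 / 2 ^ p.2) hs (by positivity)
      (by positivity)
    rwa [hn2] at this
  have hV2 : ∀ p, volume (V p) ≤ ENNReal.ofReal (C₂ * (ρ p.1 / 2 ^ p.2) ^ (N + 3)) := by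
    intro p
    have hp := hρ0 p.1
    have h1 := hball z (ρ p.1 / 2 ^ p.2) (by positivity)
    rw [hn3] at h1
    refine (measure_mono ?_).trans h1
    rintro ζ ⟨_, _, _, h5⟩
    rw [mem_closedBall, dist_eq_norm]
    exact h5
  set W : ℕ × ℕ → ℝ := fun p => min (C₁ * (s * (2 ^ p.1 * s / 2) * (ρ p.1 / 2 ^ p.2) ^ (N + 1)))
    (C₂ * (ρ p.1 / 2 ^ p.2) ^ (N + 3)) with hW
  have hVW : ∀ p, volume (toMeasurable volume (V p)) ≤ ENNReal.ofReal (W p) := by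
    intro p
    rw [measure_toMeasurable]
    rcases min_choice (C₁ * (s * (2 ^ p.1 * s / 2) * (ρ p.1 / 2 ^ p.2) ^ (N + 1)))
      (C₂ * (ρ p.1 / 2 ^ p.2) ^ (N + 3)) with h1 | h1
    · show _ ≤ ENNReal.ofReal (min _ _)
      rw [h1]
      exact hV1 p
    · show _ ≤ ENNReal.ofReal (min _ _)
      rw [h1]
      exact hV2 p
  set b₁ : ℕ × ℕ → ℝ := fun p => (4 / 2 ^ p.1) ^ 3 * (4 / (2 ^ p.1 * s) *
    (2 / (ρ p.1 / 2 ^ p.2)) ^ (N + 2)) with hb₁
  set b₂ : ℕ × ℕ → ℝ := fun p => (4 / 2 ^ p.1) ^ 3 * (2 / Real.sqrt s *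
    (4 / (2 ^ p.1 * s)) ^ 2 * (2 / (ρ p.1 / 2 ^ p.2)) ^ N) with hb₂
  have hss : 0 < Real.sqrt s := Real.sqrt_pos.2 hs
  have hb₁0 : ∀ p, 0 ≤ b₁ p := fun p => by
    have := hρ0 p.1
    rw [hb₁]
    positivity
  have hb₂0 : ∀ p, 0 ≤ b₂ p := fun p => by
    have := hρ0 p.1
    rw [hb₂]
    positivity
  -- the covering
  have hcov : ∀ᵐ ζ ∂(volume.restrict L), ∃ p : ℕ × ℕ, ζ ∈ toMeasurable volume (V p) ∧
      ENNReal.ofReal (Kh δ h z ζ * (‖vv δ h z ζ‖ / δ ζ) ^ (n + 5)) ≤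
        ENNReal.ofReal (b₁ p + b₂ p) := by
    have : Nonempty (Fin n) := ⟨⟨0, by omega⟩⟩
    have hne : ∀ᵐ ζ ∂(volume.restrict L), ζ ≠ z := by
      refine ae_restrict_of_ae ?_
      exact compl_mem_ae_iff.2 (measure_singleton z)
    filter_upwards [ae_restrict_mem hLm, hne] with ζ hζ hζz
    obtain ⟨hζO, hδ1, hδ2⟩ := hζ
    have hδ0 : 0 < δ ζ := hζO.2
    obtain ⟨-, hv2, hv3, hv0⟩ := v_lb hg hz hζO
    set t := ‖vv δ h z ζ‖ with ht
    have hd0 : 0 < ‖ζ - z‖ := norm_pos_iff.2 (sub_ne_zero.2 hζz)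
    set d := ‖ζ - z‖ with hd
    -- choose j
    have h1 : 1 ≤ 4 * t / s := by
      rw [le_div_iff₀ hs]
      linarith
    obtain ⟨j, hj1, hj2⟩ := exists_nat_pow_near h1 (by norm_num : (1 : ℝ) < 2)
    rw [le_div_iff₀ hs] at hj1
    rw [div_lt_iff₀ hs, pow_succ] at hj2
    have hdρ : d ≤ ρ j := by
      refine Real.le_sqrt_of_sq_le ?_
      rw [le_div_iff₀ hc]
      nlinarith
    have h2 : 1 ≤ ρ j / d := by
      rw [le_div_iff₀ hd0]
      linarith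
    obtain ⟨i, hi1, hi2⟩ := exists_nat_pow_near h2 (by norm_num : (1 : ℝ) < 2)
    rw [le_div_iff₀ hd0] at hi1
    rw [div_lt_iff₀ hd0, pow_succ] at hi2
    have hQ : (0 : ℝ) < 2 ^ i := by positivity
    have hT : (0 : ℝ) < 2 ^ j := by positivity
    have hr1 : d ≤ ρ j / 2 ^ i := by
      rw [le_div_iff₀ hQ]
      linarith
    have hr2 : ρ j / 2 ^ i / 2 ≤ d := by
      rw [div_le_iff₀ (by norm_num), div_le_iff₀ hQ]
      linarith
    refine ⟨(j, i), subset_toMeasurable _ _ ⟨hζO, hδ2, ?_, hr1⟩, ?_⟩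
    · show t ≤ 2 ^ j * s / 2
      linarith
    · refine ENNReal.ofReal_le_ofReal ?_
      rw [G4_kh hδ0 hv0, hn1, hm3]
      show (δ ζ / t) ^ 3 * (t⁻¹ * (d ^ (N + 2))⁻¹ + (Real.sqrt (δ ζ))⁻¹ * (t ^ 2)⁻¹ *
        (d ^ N)⁻¹) ≤ (4 / 2 ^ j) ^ 3 * (4 / (2 ^ j * s) * (2 / (ρ j / 2 ^ i)) ^ (N + 2)) +
        (4 / 2 ^ j) ^ 3 * (2 / Real.sqrt s * (4 / (2 ^ j * s)) ^ 2 * (2 / (ρ j / 2 ^ i)) ^ N)
      rw [← mul_add]
      have hρj := hρ0 j
      have h3 : δ ζ / t ≤ 4 / 2 ^ j := by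
        rw [div_le_div_iff₀ hv0 hT]
        nlinarith
      have h4 : t⁻¹ ≤ 4 / (2 ^ j * s) := by
        rw [inv_eq_one_div, div_le_div_iff₀ hv0 (by positivity)]
        linarith
      have h5 : d⁻¹ ≤ 2 / (ρ j / 2 ^ i) := by
        rw [inv_eq_one_div, div_le_div_iff₀ hd0 (by positivity)]
        linarith
      have h6 : (Real.sqrt (δ ζ))⁻¹ ≤ 2 / Real.sqrt s := by
        have h7 : 0 < Real.sqrt (δ ζ) := Real.sqrt_pos.2 hδ0
        rw [inv_eq_one_div, div_le_div_iff₀ h7 hss, one_mul]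
        have h8 : Real.sqrt s ≤ Real.sqrt (4 * δ ζ) := Real.sqrt_le_sqrt (by linarith)
        have h9 : Real.sqrt (4 * δ ζ) = 2 * Real.sqrt (δ ζ) := by
          rw [Real.sqrt_mul (by norm_num), show (4 : ℝ) = 2 ^ 2 by norm_num,
            Real.sqrt_sq (by norm_num)]
        linarith
      rw [← inv_pow d (N + 2), ← inv_pow t 2, ← inv_pow d N]
      gcongr
  refine (lint_cover (fun p => toMeasurable volume (V p))
    (fun p => measurableSet_toMeasurable _ _) (fun p => ENNReal.ofReal (b₁ p + b₂ p))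
    (fun p => ENNReal.ofReal (W p)) hcov hVW).trans ?_
  -- the sum
  have hT1 : ∀ j : ℕ, (1 : ℝ) ≤ 2 ^ j := fun j => one_le_pow₀ (by norm_num)
  have hterm : ∀ p : ℕ × ℕ, ENNReal.ofReal (b₁ p + b₂ p) * ENNReal.ofReal (W p) ≤
      ENNReal.ofReal (min (128 * 2 ^ (N + 2) * C₁ * s / ((2 ^ p.1) ^ 3 * ρ p.1) * 2 ^ p.2)
        (256 * 2 ^ (N + 2) * C₂ * ρ p.1 / ((2 ^ p.1) ^ 4 * s) / 2 ^ p.2) +
        K₂ / 2 ^ p.1 / 2 ^ p.2) := by
    intro p
    rw [← ENNReal.ofReal_mul (add_nonneg (hb₁0 p) (hb₂0 p))]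
    refine ENNReal.ofReal_le_ofReal ?_
    rw [add_mul]
    refine add_le_add ?_ ?_
    · exact G4_b1 N hC₁ hC₂ (by positivity) hs (hρ0 p.1) (by positivity) (min_le_left _ _)
        (min_le_right _ _)
    · exact G4_b2 N hC₁ (hT1 p.1) hs hc (by positivity) (min_le_left _ _)
  refine (ENNReal.tsum_le_tsum hterm).trans ?_
  refine G4_sum hK₁0 hK₂0 (fun j => 128 * 2 ^ (N + 2) * C₁ * s / ((2 ^ j) ^ 3 * ρ j))
    (fun j => 256 * 2 ^ (N + 2) * C₂ * ρ j / ((2 ^ j) ^ 4 * s)) (fun j => ?_) (fun j => ?_)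
    (fun j => ?_)
  · have := hρ0 j
    positivity
  · have := hρ0 j
    positivity
  · have hρj := hρ0 j
    have e1 : 128 * 2 ^ (N + 2) * C₁ * s / ((2 ^ j) ^ 3 * ρ j) *
        (256 * 2 ^ (N + 2) * C₂ * ρ j / ((2 ^ j) ^ 4 * s)) =
        128 * 2 ^ (N + 2) * C₁ * (256 * 2 ^ (N + 2) * C₂) / (2 ^ j) ^ 7 := by
      field_simp
    rw [e1, Real.sqrt_div' _ (by positivity), hK₁, mul_div_assoc]
    refine mul_le_mul_of_nonneg_left ?_ (by norm_num)
    refine div_le_div_of_nonneg_left (Real.sqrt_nonneg _) (by positivity) ?_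
    refine Real.le_sqrt_of_sq_le ?_
    exact pow_le_pow_right₀ (hT1 j) (by norm_num)

/-- The master estimate.
PROOF. `Om U δ` is the union of the layers `s / 2 < δ ≤ s`, `s = 2^(-l) R`, `l ∈ ℕ` (`δ ≤ C ≤ R`). On the layer,
`Kh G ≤ Kh (t / δ)^(n+5) Γ l`, so the integral is at most `ofReal C' * ofReal (Γ l)` by `layer_int`. Sum over
`l` (`lintegral_iUnion_le`). -/
theorem master (hn : 2 ≤ n) (c C : ℝ) : ∃ C' : ℝ, 0 < C' ∧
    ∀ (U : Set (Ec n)) (δ : Ec n → ℝ) (h : Ec n → Ec n → Fin n → ℂ), Geo U δ h c C →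
    ∀ (R : ℝ), C ≤ R → ∀ z ∈ Om U δ, ∀ (G : Ec n → ℝ) (Γ : ℕ → ℝ), (∀ l, 0 ≤ Γ l) →
      (∀ l : ℕ, ∀ ζ ∈ Om U δ, R / 2 ^ (l + 1) < δ ζ → δ ζ ≤ R / 2 ^ l →
        G ζ ≤ (‖vv δ h z ζ‖ / δ ζ) ^ (n + 5) * Γ l) →
      ∫⁻ ζ in Om U δ, ENNReal.ofReal (Kh δ h z ζ * G ζ) ≤
        ENNReal.ofReal C' * ∑' l, ENNReal.ofReal (Γ l) := by
  obtain ⟨C', hC', hlay⟩ := layer_int hn c C
  refine ⟨C', hC', ?_⟩
  intro U δ h hg R hCR z hz G Γ hΓ hG
  have hR : 0 < R := lt_of_lt_of_le (lt_of_lt_of_le one_pos hg.C1) hCR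
  have hcov : Om U δ ⊆ ⋃ l : ℕ, {ζ : Ec n | ζ ∈ Om U δ ∧ R / 2 ^ l / 2 < δ ζ ∧
      δ ζ ≤ R / 2 ^ l} := by
    intro ζ hζ
    have hδ0 : 0 < δ ζ := hζ.2
    have h1 : 1 ≤ R / δ ζ := by
      rw [le_div_iff₀ hδ0]
      have := hg.bδ ζ hζ.1
      linarith
    obtain ⟨l, hl1, hl2⟩ := exists_nat_pow_near h1 (by norm_num : (1 : ℝ) < 2)
    rw [le_div_iff₀ hδ0] at hl1
    rw [div_lt_iff₀ hδ0, pow_succ] at hl2
    have hQ : (0 : ℝ) < 2 ^ l := by positivity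
    refine mem_iUnion.2 ⟨l, hζ, ?_, ?_⟩
    · rw [div_lt_iff₀ (by norm_num), div_lt_iff₀ hQ]
      linarith
    · rw [le_div_iff₀ hQ]
      linarith
  refine (lintegral_mono_set hcov).trans ((lintegral_iUnion_le _ _).trans ?_)
  rw [← ENNReal.tsum_mul_left]
  refine ENNReal.tsum_le_tsum fun l => ?_
  have h1 : ∫⁻ ζ in {ζ : Ec n | ζ ∈ Om U δ ∧ R / 2 ^ l / 2 < δ ζ ∧ δ ζ ≤ R / 2 ^ l},
      ENNReal.ofReal (Kh δ h z ζ * G ζ) ≤
      ∫⁻ ζ in {ζ : Ec n | ζ ∈ Om U δ ∧ R / 2 ^ l / 2 < δ ζ ∧ δ ζ ≤ R / 2 ^ l},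
      ENNReal.ofReal (Kh δ h z ζ * (‖vv δ h z ζ‖ / δ ζ) ^ (n + 5)) * ENNReal.ofReal (Γ l) := by
    refine lintegral_mono_ae ?_
    filter_upwards [ae_restrict_mem (G4_lmeas hg (R / 2 ^ l / 2) (R / 2 ^ l))] with ζ hζ
    obtain ⟨hζO, hδ1, hδ2⟩ := hζ
    have hδ0 : 0 < δ ζ := hζO.2
    have hK := G4_kh0 (h := h) (z := z) hδ0
    rw [← ENNReal.ofReal_mul (by positivity)]
    refine ENNReal.ofReal_le_ofReal ?_
    rw [mul_assoc]
    refine mul_le_mul_of_nonneg_left (hG l ζ hζO ?_ hδ2) hK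
    rw [pow_succ, ← div_div]
    exact hδ1
  refine h1.trans ?_
  rw [lintegral_mul_const' _ _ ENNReal.ofReal_ne_top]
  exact mul_le_mul_left (hlay U δ h hg z hz (R / 2 ^ l) (by positivity)) _

end Pool.Agent.MPca0fc2.FD
end
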