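import Mathlib
import Pool.Agent.Lib.MP_ca0fc2_an.Defs
import Pool.Agent.Lib.MP_ca0fc2_an.DADefs
import Pool.Agent.Lib.MP_ca0fc2_an.SGHDefs
import Pool.Agent.Lib.MP_ca0fc2_an.Mg.G045

section

set_option autoImplicit false

namespace Pool.Agent.MPca0fc2.PT
end Pool.Agent.MPca0fc2.PT

open Metric Set MeasureTheory Filter Topology
open scoped InnerProductSpace ENNReal

namespace Pool.Agent.MPca0fc2.QT

open Pool.Agent.MPca0fc2.PT

/-- partitions of unity on a ball of `ℂ^d` -/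
theorem exists_part (d : ℕ) (R r : ℝ) (hr : 0 < r) :
    ∃ (ι : Type) (_ : Fintype ι) (c : ι → Fin d → ℂ) (χ : ι → (Fin d → ℂ) → ℝ) (L : ℝ),
      0 ≤ L ∧ (∀ i, ContDiff ℝ 2 (χ i)) ∧ (∀ i z, 0 ≤ χ i z) ∧ (∀ i z, χ i z ≤ 1) ∧
      (∀ z, ‖z‖ ≤ R → ∑ i, χ i z = 1) ∧ (∀ i z, r ≤ ‖z - c i‖ → χ i z = 0) ∧
      ∀ i z, ‖fderiv ℝ (χ i) z‖ ≤ L := by
  classical
  obtain ⟨t, ht, hcov⟩ := (isCompact_closedBall (0 : Fin d → ℂ) R).elim_finite_subcover_image
    (b := closedBall (0 : Fin d → ℂ) R) (c := fun c => ball c (r / 2))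
    (fun c _ => isOpen_ball) (fun x hx => mem_iUnion₂.2 ⟨x, hx, mem_ball_self (by positivity)⟩)
  obtain ⟨htf, hcov⟩ := hcov
  let n := htf.toFinset.card
  let c : Fin n → (Fin d → ℂ) := fun i => (htf.toFinset.equivFin.symm i : Fin d → ℂ)
  have hcsurj : ∀ x ∈ t, ∃ i, c i = x := by
    intro x hx
    refine ⟨htf.toFinset.equivFin ⟨x, htf.mem_toFinset.2 hx⟩, ?_⟩
    simp [c]
  let φ : (i : Fin n) → ContDiffBump (c i) := fun i => ⟨r / 2, r, by positivity, by linarith⟩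
  have h0 : ∀ (j : Fin n) (z : Fin d → ℂ), 0 ≤ 1 - φ j z := fun j z => by
    have := (φ j).le_one (x := z); linarith
  have h1 : ∀ (j : Fin n) (z : Fin d → ℂ), 1 - φ j z ≤ 1 := fun j z => by
    have := (φ j).nonneg (x := z); linarith
  let χ : Fin n → (Fin d → ℂ) → ℝ := fun i z =>
    φ i z * ∏ j ∈ Finset.univ with j < i, (1 - φ j z)
  have hsm : ∀ i, ContDiff ℝ 2 (χ i) := by
    intro i
    refine (φ i).contDiff.mul ?_
    exact contDiff_prod (fun j _ => contDiff_const.sub (φ j).contDiff)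
  have hz : ∀ i z, r ≤ ‖z - c i‖ → χ i z = 0 := by
    intro i z h
    have : φ i z = 0 := (φ i).zero_of_le_dist (by rw [dist_eq_norm]; exact h)
    simp [χ, this]
  have hcs : ∀ i, HasCompactSupport (χ i) := by
    intro i
    refine HasCompactSupport.of_support_subset_isCompact (isCompact_closedBall (c i) r) ?_
    intro z hz'
    rw [mem_closedBall, dist_eq_norm]
    by_contra hcon
    exact hz' (hz i z (le_of_lt (not_le.1 hcon)))
  have hbd : ∀ i, ∃ C, ∀ z, ‖fderiv ℝ (χ i) z‖ ≤ C := by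
    intro i
    exact ((hsm i).continuous_fderiv (by norm_num)).bounded_above_of_compact_support
      ((hcs i).fderiv ℝ)
  choose C hC using hbd
  refine ⟨Fin n, inferInstance, c, χ, ∑ i, |C i|, Finset.sum_nonneg (fun i _ => abs_nonneg _),
    hsm, ?_, ?_, ?_, hz, ?_⟩
  · intro i z
    exact mul_nonneg (φ i).nonneg (Finset.prod_nonneg (fun j _ => h0 j z))
  · intro i z
    exact mul_le_one₀ (φ i).le_one (Finset.prod_nonneg (fun j _ => h0 j z))
      (Finset.prod_le_one (fun j _ => h0 j z) (fun j _ => h1 j z))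
  · intro z hzR
    have key := Finset.prod_one_sub_ordered (Finset.univ : Finset (Fin n)) (fun i => φ i z)
    have hz' : z ∈ closedBall (0 : Fin d → ℂ) R := by simpa using hzR
    obtain ⟨x, hx, hzx⟩ := mem_iUnion₂.1 (hcov hz')
    obtain ⟨i, hi⟩ := hcsurj x hx
    have h3 : φ i z = 1 := by
      apply (φ i).one_of_mem_closedBall
      have hzx' : z ∈ closedBall (c i) (r / 2) := by
        rw [hi]; exact ball_subset_closedBall hzx
      exact hzx'
    have h4 : ∏ j : Fin n, (1 - φ j z) = 0 :=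
      Finset.prod_eq_zero (Finset.mem_univ i) (by rw [h3]; ring)
    rw [h4] at key
    have : ∑ i, χ i z = ∑ i ∈ (Finset.univ : Finset (Fin n)), φ i z *
      ∏ j ∈ Finset.univ with j < i, (1 - φ j z) := rfl
    rw [this]
    linarith
  · intro i z
    exact (hC i z).trans ((le_abs_self _).trans
      (Finset.single_le_sum (f := fun i => |C i|) (fun j _ => abs_nonneg _) (Finset.mem_univ i)))

end Pool.Agent.MPca0fc2.QT
end

section

set_option autoImplicit false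

open Metric Set MeasureTheory
open scoped InnerProductSpace

namespace Pool.Agent.Lib.MP_ca0fc2_an

variable {E : Type*} [NormedAddCommGroup E] [InnerProductSpace ℂ E]

/-- The square of the length of the invariant gradient of `u` at the point `z` of the unit ball,
`(1 - |z|²) (|∂u(z)|² - |Ru(z)|²)` with `R = ∑ z_j ∂/∂z_j`. -/
noncomputable def invGrad2 (u : E → ℂ) (z : E) : ℝ :=
  (1 - ‖z‖ ^ 2) * (‖fderiv ℂ u z‖ ^ 2 - ‖fderiv ℂ u z z‖ ^ 2)

/-- The invariant kernel `1 - |φ_w (z)|² = (1 - |w|²) (1 - |z|²) / |1 - ⟨w, z⟩|²`, where `φ_w` is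
the automorphism of the unit ball which exchanges `0` and `w`. -/
noncomputable def invKer (w z : E) : ℝ :=
  (1 - ‖w‖ ^ 2) * (1 - ‖z‖ ^ 2) / ‖1 - ⟪w, z⟫_ℂ‖ ^ 2

/-- The `p`-th power of the length of the invariant gradient of `u` is dominated by the local
potential `∫ invKer (z, ξ)² dν(ξ)` of a measure `ν` on the unit ball which satisfies the condition
`∫ invKer (w, ξ) dν(ξ) ≤ A` for all points `w` of the ball. -/
def CarlesonGradient [MeasurableSpace E] (p A : ℝ) (u : E → ℂ) : Prop :=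
  ∃ ν : Measure E,
    (∀ w ∈ ball (0 : E) 1,
      ∫⁻ ξ in ball (0 : E) 1, ENNReal.ofReal (invKer w ξ) ∂ν ≤ ENNReal.ofReal A) ∧
    ∀ z ∈ ball (0 : E) 1, invGrad2 u z ^ (p / 2) ≤ ∫ ξ in ball (0 : E) 1, invKer z ξ ^ 2 ∂ν

/-- Solvability after `k` successive subdivisions. `CutSolvable f C η p A 0 D` says that the
equation `∑ f_j h_j = 1` is solvable on `D` with the bound `C`; and
`CutSolvable f C η p A (k + 1) D` says that there is a complex line, or a holomorphic function `u`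
on the ball, bounded by `1`, with `CarlesonGradient p A u`, such that all the pieces of `D` cut out
by the cells of size `η` with respect to this line or to this function satisfy
`CutSolvable f C η p A k`. (The line or the function may depend on `D`, so at the next step it may
depend on the piece.) -/
def CutSolvable [MeasurableSpace E] {N : ℕ} (f : Fin N → E → ℂ) (C η p A : ℝ) : ℕ → Set E → Prop
  | 0, D => SolvableOn f D C
  | k + 1, D =>
      (∃ (e : E) (φ ψ : E → E), ‖e‖ = 1 ∧ IsBallAut φ ψ ∧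
        ∀ z₀ ∈ D, CutSolvable f C η p A k (D ∩ lineCell e η φ z₀)) ∨
      ∃ u : E → ℂ, DifferentiableOn ℂ u (ball 0 1) ∧ (∀ z ∈ ball (0 : E) 1, ‖u z‖ ≤ 1) ∧
        CarlesonGradient p A u ∧
        ∀ z₀ ∈ D, CutSolvable f C η p A k (D ∩ {z | ‖u z - u z₀‖ < η})

end Pool.Agent.Lib.MP_ca0fc2_an
end

section

set_option autoImplicit false

open Metric Set MeasureTheory

namespace Pool.Agent.Lib.MP_ca0fc2_an

/-- `u` is holomorphic and bounded by `A` on the unit ball of `ℂⁿ`, and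
`∫ (1 - |φ_w (z)|²) |∇u(z)|^p dλ(z) ≤ A` for all points `w` of the ball, where `|∇u|` is the length
of the invariant gradient and `dλ = (1 - |z|²)^(-n-1) dV` is the invariant measure. -/
def GradCarleson {n : ℕ} (p A : ℝ) (u : EuclideanSpace ℂ (Fin n) → ℂ) : Prop :=
  DifferentiableOn ℂ u (ball 0 1) ∧
  (∀ z ∈ ball (0 : EuclideanSpace ℂ (Fin n)) 1, ‖u z‖ ≤ A) ∧
  ∀ w ∈ ball (0 : EuclideanSpace ℂ (Fin n)) 1,
    ∫⁻ z in ball (0 : EuclideanSpace ℂ (Fin n)) 1,
      ENNReal.ofReal (invKer w z * invGrad2 u z ^ (p / 2) / (1 - ‖z‖ ^ 2) ^ (n + 1)) ≤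
      ENNReal.ofReal A

end Pool.Agent.Lib.MP_ca0fc2_an
end

section

/-! The generators: multipliers, functions with Carleson gradients, slow functions. -/

set_option autoImplicit false

open Metric Set MeasureTheory

namespace Pool.Agent.Lib.MP_ca0fc2_an

/-- `u` is holomorphic and bounded by `K` on the unit ball, with
`(1 - |z|) |∇u(z)| ≤ ω (1 - |z|)`. -/
def Slow {E : Type*} [NormedAddCommGroup E] [InnerProductSpace ℂ E] (K : ℝ) (ω : ℝ → ℝ)
    (u : E → ℂ) : Prop :=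
  DifferentiableOn ℂ u (ball 0 1) ∧ (∀ z ∈ ball (0 : E) 1, ‖u z‖ ≤ K) ∧
    ∀ z ∈ ball (0 : E) 1, (1 - ‖z‖) * ‖fderiv ℂ u z‖ ≤ ω (1 - ‖z‖)

/-- `u` is a multiplier of the Drury-Arveson space, of norm at most `K`, or its invariant gradient
satisfies the Carleson condition with the constants `p` and `K`, or it is a slow function, with the
constants `K` and `ω`. -/
def Gen {n : ℕ} (K p : ℝ) (ω : ℝ → ℝ) (u : EuclideanSpace ℂ (Fin n) → ℂ) : Prop :=
  DAMultiplier K u ∨ GradCarleson p K u ∨ Slow K ω u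

/-- The modulus `ω` is positive on `(0, 1)`, and `∫ exp (- c / ω (t)) dt / t` is finite for all
`c > 0`: for example `ω (t) = o (1 / log log (1 / t))`. -/
def Rate (ω : ℝ → ℝ) : Prop :=
  (∀ t ∈ Ioo (0 : ℝ) 1, 0 < ω t) ∧
    ∀ c : ℝ, 0 < c → IntegrableOn (fun t => Real.exp (-(c / ω t)) / t) (Ioo 0 1)

/-- All multipliers of the Drury-Arveson space, all functions with `GradCarleson p K` for some `p`
and `K`, and all slow functions, with some modulus `ω` such that `∫ exp (- c / ω (t)) dt / t` is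
finite for all `c > 0`. -/
def Gens3 (n : ℕ) : Set (EuclideanSpace ℂ (Fin n) → ℂ) :=
  {u | ∃ (K p : ℝ) (ω : ℝ → ℝ), 1 ≤ p ∧ Rate ω ∧ Gen K p ω u}

/-- The closed subalgebra of `H^∞` of the unit ball (uniform limits on the ball) generated by a set
of functions. -/
def ClosedAlg {n : ℕ} (S : Set (EuclideanSpace ℂ (Fin n) → ℂ)) :
    Set (EuclideanSpace ℂ (Fin n) → ℂ) :=
  {g | DifferentiableOn ℂ g (ball 0 1) ∧ ∀ ε : ℝ, 0 < ε → ∃ q ∈ Algebra.adjoin ℂ S,
    ∀ z ∈ ball (0 : EuclideanSpace ℂ (Fin n)) 1, ‖g z - q z‖ ≤ ε}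

/-- The closed subalgebra of `H^∞` of the unit ball generated by all multipliers, all functions with
Carleson gradients and all slow functions. -/
def Alg3 (n : ℕ) : Set (EuclideanSpace ℂ (Fin n) → ℂ) := ClosedAlg (Gens3 n)

end Pool.Agent.Lib.MP_ca0fc2_an
end

section

/-!
# Slow functions on a domain, and the functions which are nearly constant on the components of their
cells
-/

set_option autoImplicit false

open Metric Set MeasureTheory

namespace Pool.Agent.Lib.MP_ca0fc2_an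

/-- The slow functions on the domain `D`: the functions `u` in `H^∞(D)` such that, with the distance
`δ = δ(z)` of `z` to the complement of `D`, `δ |∇u (z)| ≤ ω (δ)` for all `z` in `D` with `δ < 1`, for
some modulus `ω` with `Rate ω`. -/
def SlowOn {n : ℕ} (D : Set (EuclideanSpace ℂ (Fin n))) : Set (EuclideanSpace ℂ (Fin n) → ℂ) :=
  {u | IsHinf D u ∧ ∃ ω : ℝ → ℝ, Rate ω ∧ ∀ z ∈ D, infDist z Dᶜ < 1 →
    infDist z Dᶜ * ‖fderiv ℂ u z‖ ≤ ω (infDist z Dᶜ)}

/-- The cell of the functions `u i` on `D` with the centres `c i` and the radius `ρ`: all the points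
`z` of `D` with `|u_i (z) - c_i| < ρ` for all `i`. -/
def cellOn {n k : ℕ} (D : Set (EuclideanSpace ℂ (Fin n))) (u : Fin k → EuclideanSpace ℂ (Fin n) → ℂ)
    (c : Fin k → ℂ) (ρ : ℝ) : Set (EuclideanSpace ℂ (Fin n)) :=
  {z | z ∈ D ∧ ∀ i, ‖u i z - c i‖ < ρ}

/-- The functions `g` in `H^∞(D)` with the following property: for every `ε > 0` there are finitely
many functions `u i` in `G` and `ρ > 0` such that `g` varies at most by `ε` on each connected
component of each cell of radius `ρ` of the functions `u i`. -/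
def HullOn {n : ℕ} (D : Set (EuclideanSpace ℂ (Fin n)))
    (G : Set (EuclideanSpace ℂ (Fin n) → ℂ)) : Set (EuclideanSpace ℂ (Fin n) → ℂ) :=
  {g | IsHinf D g ∧ ∀ ε : ℝ, 0 < ε →
    ∃ (k : ℕ) (u : Fin k → EuclideanSpace ℂ (Fin n) → ℂ) (ρ : ℝ), 0 < ρ ∧
      (∀ i, u i ∈ G) ∧ ∀ (c : Fin k → ℂ) (x : EuclideanSpace ℂ (Fin n)),
        ∀ z ∈ connectedComponentIn (cellOn D u c ρ) x, ∀ w ∈ connectedComponentIn (cellOn D u c ρ) x,
          ‖g z - g w‖ ≤ ε}

end Pool.Agent.Lib.MP_ca0fc2_an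
end

section

/-! The functions `g (q (z))`. -/

set_option autoImplicit false

open Metric Set

namespace Pool.Agent.Lib.MP_ca0fc2_an

variable {n : ℕ}

/-- The functions `u = g ∘ q` on `D ∩ B`, where `q` is holomorphic on `B`, `|q| < 1` on `D ∩ B`, and
`g` is a bounded holomorphic function on the unit disc. Here `B` is an open set; if it is a
neighbourhood of a boundary point of `D` then `q` is holomorphic across the boundary. -/
def DiscGen (D B : Set (EuclideanSpace ℂ (Fin n))) : Set (EuclideanSpace ℂ (Fin n) → ℂ) :=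
  {u | ∃ (q : EuclideanSpace ℂ (Fin n) → ℂ) (g : ℂ → ℂ) (M : ℝ), DifferentiableOn ℂ q B ∧
    (∀ z ∈ D ∩ B, ‖q z‖ < 1) ∧ DifferentiableOn ℂ g (ball 0 1) ∧
    (∀ x ∈ ball (0 : ℂ) 1, ‖g x‖ ≤ M) ∧ ∀ z ∈ D ∩ B, u z = g (q z)}

end Pool.Agent.Lib.MP_ca0fc2_an
end

section

/-! The analytic closure of a set of bounded holomorphic functions on a domain. -/

set_option autoImplicit false

open Metric Set

namespace Pool.Agent.Lib.MP_ca0fc2_an

variable {n : ℕ}

/-- The closed subalgebra of `H^∞(D)` (uniform limits on `D`) generated by a set of functions. -/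
def ClosedAlgOn (D : Set (EuclideanSpace ℂ (Fin n))) (S : Set (EuclideanSpace ℂ (Fin n) → ℂ)) :
    Set (EuclideanSpace ℂ (Fin n) → ℂ) :=
  {g | DifferentiableOn ℂ g D ∧ ∀ ε : ℝ, 0 < ε → ∃ q ∈ Algebra.adjoin ℂ S,
    ∀ z ∈ D, ‖g z - q z‖ ≤ ε}

/-- The bounded holomorphic functions `g` on `D` which satisfy an analytic equation over `R`: an
equation `a₀ + a₁ g + a₂ g² + ... = 0` with coefficients in `R` such that `∑ k, (sup |aₖ|) ρᵏ`
converges for some `ρ > sup |g|`, and which is nowhere degenerate: the sum `∑ k, |aₖ| ρᵏ` is bounded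
below on `D`. -/
def AnalyticOverOn (D : Set (EuclideanSpace ℂ (Fin n))) (R : Set (EuclideanSpace ℂ (Fin n) → ℂ)) :
    Set (EuclideanSpace ℂ (Fin n) → ℂ) :=
  {g | DifferentiableOn ℂ g D ∧
    ∃ (a : ℕ → EuclideanSpace ℂ (Fin n) → ℂ) (A : ℕ → ℝ) (M ρ c : ℝ), M < ρ ∧ 0 < c ∧
      (∀ k, a k ∈ R) ∧ (∀ z ∈ D, ‖g z‖ ≤ M) ∧ (∀ k, ∀ z ∈ D, ‖a k z‖ ≤ A k) ∧
      (Summable fun k => A k * ρ ^ k) ∧
      (∀ z ∈ D, c ≤ ∑' k, ‖a k z‖ * ρ ^ k) ∧
      ∀ z ∈ D, ∑' k, a k z * g z ^ k = 0}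

/-- The smallest closed algebra of bounded holomorphic functions on `D` which contains `S` and
contains every bounded holomorphic function which satisfies an analytic equation over it. -/
def AnalyticClosureOn (D : Set (EuclideanSpace ℂ (Fin n)))
    (S : Set (EuclideanSpace ℂ (Fin n) → ℂ)) : Set (EuclideanSpace ℂ (Fin n) → ℂ) :=
  ⋂₀ {T | S ⊆ T ∧ ClosedAlgOn D T ⊆ T ∧ AnalyticOverOn D T ⊆ T}

end Pool.Agent.Lib.MP_ca0fc2_an
end

section

/-! Two facts about holomorphic functions of one variable. -/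

set_option autoImplicit false

open Metric Set Filter Topology

namespace Pool.Agent.MPca0fc2.IN

/-- A function which does not vanish at `γ` and the powers of `y - γ` generate the unit ideal. -/
theorem bezout_one {U : Set ℂ} (hU : IsOpen U) {γ : ℂ} (hγ : γ ∈ U) {q : ℂ → ℂ}
    (hq : DifferentiableOn ℂ q U) (h0 : q γ ≠ 0) (K : ℕ) :
    ∃ R T : ℂ → ℂ, DifferentiableOn ℂ R U ∧ DifferentiableOn ℂ T U ∧
      ∀ y ∈ U, R y * (y - γ) ^ K + T y * q y = 1 := by
  induction K with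
  | zero =>
    exact ⟨fun _ => 1, fun _ => 0, differentiableOn_const _, differentiableOn_const _,
      fun y _ => by simp⟩
  | succ K ih =>
    obtain ⟨R, T, hR, hT, h⟩ := ih
    obtain ⟨c, hc⟩ : ∃ c, c = R γ / q γ := ⟨_, rfl⟩
    obtain ⟨v, hv⟩ : ∃ v : ℂ → ℂ, v = fun y => R y - c * q y := ⟨_, rfl⟩
    have hvd : DifferentiableOn ℂ v U := by
      rw [hv]; exact hR.sub (hq.const_mul c)
    have hv0 : v γ = 0 := by
      rw [hv, hc]
      field_simp
      ring
    refine ⟨dslope v γ, fun y => T y + c * (y - γ) ^ K,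
      (Complex.differentiableOn_dslope (hU.mem_nhds hγ)).2 hvd, ?_, fun y hy => ?_⟩
    · exact hT.add (((differentiableOn_id.sub_const γ).pow K).const_mul c)
    · have h1 := sub_smul_dslope v γ y
      rw [hv0, sub_zero, smul_eq_mul] at h1
      have h2 := h y hy
      have h3 : R y = c * q y + v y := by rw [hv]; ring
      rw [pow_succ]
      calc dslope v γ y * ((y - γ) ^ K * (y - γ)) + (T y + c * (y - γ) ^ K) * q y
          = ((y - γ) * dslope v γ y) * (y - γ) ^ K + c * (y - γ) ^ K * q y + T y * q y := by ring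
        _ = v y * (y - γ) ^ K + c * (y - γ) ^ K * q y + T y * q y := by rw [h1]
        _ = R y * (y - γ) ^ K + T y * q y := by rw [h3]; ring
        _ = 1 := h2

/-- The factorization of a holomorphic function at a zero. -/
theorem factor_one {U : Set ℂ} (hU : IsOpen U) (hUc : IsPreconnected U) {γ : ℂ} (hγ : γ ∈ U)
    {S : ℂ → ℂ} (hS : DifferentiableOn ℂ S U) (h0 : S γ = 0) (hne : ∃ y ∈ U, S y ≠ 0) :
    ∃ K : ℕ, 1 ≤ K ∧ ∃ q : ℂ → ℂ, DifferentiableOn ℂ q U ∧ q γ ≠ 0 ∧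
      ∀ y ∈ U, S y = (y - γ) ^ K * q y := by
  have hA : AnalyticOnNhd ℂ S U := hS.analyticOnNhd hU
  have hAγ := hA γ hγ
  have hord : analyticOrderAt S γ ≠ ⊤ := by
    intro h
    rw [analyticOrderAt_eq_top] at h
    obtain ⟨y, hy, hy0⟩ := hne
    exact hy0 (hA.eqOn_zero_of_preconnected_of_eventuallyEq_zero hUc hγ h hy)
  obtain ⟨g, hg, hg0, hge⟩ := hAγ.analyticOrderAt_ne_top.1 hord
  obtain ⟨K, hK⟩ : ∃ K, K = analyticOrderNatAt S γ := ⟨_, rfl⟩
  rw [← hK] at hge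
  have hK1 : 1 ≤ K := by
    rcases Nat.eq_zero_or_pos K with h | h
    · have := hge.self_of_nhds
      rw [h] at this
      simp only [pow_zero, one_smul] at this
      rw [h0] at this
      exact absurd this.symm hg0
    · exact h
  classical
  refine ⟨K, hK1, fun y => if y = γ then g γ else S y / (y - γ) ^ K, ?_, ?_, ?_⟩
  · intro y hy
    by_cases hyγ : y = γ
    · subst hyγ
      refine DifferentiableAt.differentiableWithinAt ?_
      refine hg.differentiableAt.congr_of_eventuallyEq ?_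
      filter_upwards [hge] with w hw
      by_cases hwy : w = y
      · rw [if_pos hwy, hwy]
      · rw [if_neg hwy, hw, smul_eq_mul, mul_div_cancel_left₀]
        exact pow_ne_zero _ (sub_ne_zero.2 hwy)
    · have h1 : DifferentiableAt ℂ (fun y => S y / (y - γ) ^ K) y :=
        (hS.differentiableAt (hU.mem_nhds hy)).div
          ((differentiableAt_id.sub_const γ).pow K) (pow_ne_zero _ (sub_ne_zero.2 hyγ))
      refine (h1.congr_of_eventuallyEq ?_).differentiableWithinAt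
      filter_upwards [isOpen_ne.mem_nhds hyγ] with w hw
      rw [if_neg hw]
  · beta_reduce
    rw [if_pos rfl]
    exact hg0
  · intro y hy
    by_cases hyγ : y = γ
    · rw [hyγ, h0, sub_self, zero_pow (by omega), zero_mul]
    · beta_reduce
      rw [if_neg hyγ, mul_div_cancel₀]
      exact pow_ne_zero _ (sub_ne_zero.2 hyγ)

/-- A power series with a nonzero coefficient is not zero. -/
theorem series_ne {c : ℕ → ℂ} {A : ℕ → ℝ} {ρ : ℝ} (hρ : 0 < ρ) (hA : ∀ k, ‖c k‖ ≤ A k)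
    (hs : Summable fun k => A k * ρ ^ k) (hne : ∃ k, c k ≠ 0) :
    ∃ y ∈ ball (0 : ℂ) ρ, ∑' k, c k * y ^ k ≠ 0 := by
  classical
  obtain ⟨k₀, hk₀, hmin⟩ : ∃ k₀, c k₀ ≠ 0 ∧ ∀ k < k₀, c k = 0 :=
    ⟨Nat.find hne, Nat.find_spec hne, fun k hk => not_not.1 (Nat.find_min hne hk)⟩
  obtain ⟨sA, hsA⟩ : ∃ s, s = ∑' k, A k * ρ ^ k := ⟨_, rfl⟩
  have hA0 : ∀ k, 0 ≤ A k := fun k => (norm_nonneg _).trans (hA k)
  have hsA0 : 0 ≤ sA := by
    rw [hsA]; exact tsum_nonneg fun k => mul_nonneg (hA0 k) (by positivity)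
  obtain ⟨t, ht⟩ : ∃ t, t = min (1 / 2) (‖c k₀‖ * ρ ^ k₀ / (2 * (sA + 1))) := ⟨_, rfl⟩
  have hc0 : 0 < ‖c k₀‖ := norm_pos_iff.2 hk₀
  have ht0 : 0 < t := by rw [ht]; exact lt_min (by norm_num) (by positivity)
  have ht1 : t ≤ 1 / 2 := by rw [ht]; exact min_le_left _ _
  have ht2 : t * (2 * (sA + 1)) ≤ ‖c k₀‖ * ρ ^ k₀ := by
    rw [← le_div_iff₀ (by positivity), ht]
    exact min_le_right _ _
  obtain ⟨y, hy⟩ : ∃ y : ℂ, y = ((t * ρ : ℝ) : ℂ) := ⟨_, rfl⟩
  have hyn : ‖y‖ = t * ρ := by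
    rw [hy, Complex.norm_real, Real.norm_eq_abs, abs_of_pos (by positivity)]
  refine ⟨y, ?_, fun h => ?_⟩
  · rw [mem_ball_zero_iff, hyn]
    nlinarith
  have hsy : Summable fun k => c k * y ^ k := by
    refine Summable.of_norm_bounded hs fun k => ?_
    rw [norm_mul, norm_pow, hyn]
    refine mul_le_mul (hA k) (pow_le_pow_left₀ (by positivity) (by nlinarith) k) (by positivity)
      (hA0 k)
  have h1 := hsy.sum_add_tsum_nat_add (k₀ + 1)
  rw [h, Finset.sum_range_succ, Finset.sum_eq_zero (fun k hk => by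
    rw [hmin k (Finset.mem_range.1 hk), zero_mul]), zero_add] at h1
  have h2 : ‖∑' k, c (k + (k₀ + 1)) * y ^ (k + (k₀ + 1))‖ ≤ t ^ (k₀ + 1) * sA := by
    have h3 : ∀ k, ‖c (k + (k₀ + 1)) * y ^ (k + (k₀ + 1))‖ ≤
        t ^ (k₀ + 1) * (A (k + (k₀ + 1)) * ρ ^ (k + (k₀ + 1))) := by
      intro k
      rw [norm_mul, norm_pow, hyn, mul_pow, pow_add t]
      have h4 : t ^ k ≤ 1 := pow_le_one₀ ht0.le (by linarith)
      have h5 := hA (k + (k₀ + 1))
      calc ‖c (k + (k₀ + 1))‖ * (t ^ k * t ^ (k₀ + 1) * ρ ^ (k + (k₀ + 1)))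
          ≤ A (k + (k₀ + 1)) * (1 * t ^ (k₀ + 1) * ρ ^ (k + (k₀ + 1))) := by
            have h10 := hA0 (k + (k₀ + 1))
            gcongr
        _ = _ := by ring
    have h6 : Summable fun k => t ^ (k₀ + 1) * (A (k + (k₀ + 1)) * ρ ^ (k + (k₀ + 1))) :=
      ((summable_nat_add_iff (k₀ + 1)).2 hs).mul_left _
    refine (tsum_of_norm_bounded h6.hasSum h3).trans ?_
    rw [tsum_mul_left]
    refine mul_le_mul_of_nonneg_left ?_ (by positivity)
    rw [hsA, ← hs.sum_add_tsum_nat_add (k₀ + 1)]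
    have : 0 ≤ ∑ k ∈ Finset.range (k₀ + 1), A k * ρ ^ k :=
      Finset.sum_nonneg fun k _ => mul_nonneg (hA0 k) (by positivity)
    linarith
  have h7 : ‖c k₀ * y ^ k₀‖ ≤ t ^ (k₀ + 1) * sA := by
    have : c k₀ * y ^ k₀ = -∑' k, c (k + (k₀ + 1)) * y ^ (k + (k₀ + 1)) := by
      linear_combination h1
    rw [this, norm_neg]
    exact h2
  rw [norm_mul, norm_pow, hyn, mul_pow, pow_succ] at h7
  have h8 : 0 < t ^ k₀ := by positivity
  have h9 : ‖c k₀‖ * ρ ^ k₀ ≤ t * sA := by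
    have : t ^ k₀ * (‖c k₀‖ * ρ ^ k₀) ≤ t ^ k₀ * (t * sA) := by nlinarith
    exact le_of_mul_le_mul_left this h8
  nlinarith

end Pool.Agent.MPca0fc2.IN
end

section

/-! Strictly pseudoconvex domains. -/

set_option autoImplicit false

open Metric Set
open scoped ContDiff

namespace Pool.Agent.Lib.MP_ca0fc2_an

variable {n : ℕ}

/-- The Levi form (complex Hessian) of the real function `ρ` at `z` in the direction `X`:
`∑ ∂²ρ/∂z_j∂z̄_k X_j X̄_k = (D²ρ(z)(X, X) + D²ρ(z)(iX, iX)) / 4`. -/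
noncomputable def leviForm (ρ : EuclideanSpace ℂ (Fin n) → ℝ) (z X : EuclideanSpace ℂ (Fin n)) : ℝ :=
  (fderiv ℝ (fderiv ℝ ρ) z X X +
    fderiv ℝ (fderiv ℝ ρ) z (Complex.I • X) (Complex.I • X)) / 4

/-- `D` is a strictly pseudoconvex domain with smooth boundary: `D` is bounded and open,
`D = {z ∈ W | ρ z < 0}` with a real `C^∞` function `ρ` on a neighbourhood `W` of the closure of `D`,
and at every boundary point `dρ ≠ 0` and the Levi form of `ρ` is positive definite on the complex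
tangent space. (`D` need not be connected.) -/
def IsStrictlyPseudoconvex (D : Set (EuclideanSpace ℂ (Fin n))) : Prop :=
  Bornology.IsBounded D ∧ ∃ (W : Set (EuclideanSpace ℂ (Fin n)))
    (ρ : EuclideanSpace ℂ (Fin n) → ℝ), IsOpen W ∧ closure D ⊆ W ∧ ContDiffOn ℝ ∞ ρ W ∧
    D = {z | z ∈ W ∧ ρ z < 0} ∧ ∀ z ∈ frontier D, fderiv ℝ ρ z ≠ 0 ∧
      ∀ X : EuclideanSpace ℂ (Fin n), X ≠ 0 → fderiv ℝ ρ z X = 0 →
        fderiv ℝ ρ z (Complex.I • X) = 0 → 0 < leviForm ρ z X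

end Pool.Agent.Lib.MP_ca0fc2_an
end

section

/-! Definitions: derivatives, test functions, exhaustion functions, defining functions. -/

set_option autoImplicit false

open Metric Set MeasureTheory Filter Topology
open scoped ContDiff

namespace Pool.Agent.MPca0fc2.LV

open Pool.Agent.MPca0fc2.FD (Ec ee)
open Pool.Agent.Lib.MP_ca0fc2_an (leviForm)

variable {n : ℕ}

/-- `∂u/∂z_k` -/
noncomputable def dj (k : Fin n) (u : Ec n → ℂ) (z : Ec n) : ℂ :=
  (fderiv ℝ u z (ee k) - Complex.I * fderiv ℝ u z (Complex.I • ee k)) / 2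

/-- `∂u/∂z̄_k` -/
noncomputable def dk (k : Fin n) (u : Ec n → ℂ) (z : Ec n) : ℂ :=
  (fderiv ℝ u z (ee k) + Complex.I * fderiv ℝ u z (Complex.I • ee k)) / 2

/-- `∂ρ/∂z_k` for a real function `ρ` -/
noncomputable def dr (ρ : Ec n → ℝ) (z : Ec n) (k : Fin n) : ℂ :=
  ((fderiv ℝ ρ z (ee k) : ℂ) - Complex.I * (fderiv ℝ ρ z (Complex.I • ee k) : ℂ)) / 2

/-- `v` is a test function in `Ω` -/
structure TF (Ω : Set (Ec n)) (v : Ec n → ℂ) : Prop where
  sm : ContDiff ℝ ∞ v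
  cpt : HasCompactSupport v
  sub : tsupport v ⊆ Ω

/-- `ψ` is a strictly plurisubharmonic exhaustion function of `Ω` -/
structure PX (Ω : Set (Ec n)) (ψ : Ec n → ℝ) : Prop where
  opn : IsOpen Ω
  sm : ContDiffOn ℝ ∞ ψ Ω
  cpt : ∀ c : ℝ, IsCompact {z | z ∈ Ω ∧ ψ z ≤ c}
  psh : ∀ z ∈ Ω, ∀ X : Ec n, X ≠ 0 → 0 < leviForm ψ z X

/-- `Ω` has a strictly plurisubharmonic exhaustion function -/
def PshEx (Ω : Set (Ec n)) : Prop := ∃ ψ : Ec n → ℝ, PX Ω ψ

/-- the weights `φ`, `σ` and the cut-off functions `η i` -/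
structure WT (Ω : Set (Ec n)) (φ σ : Ec n → ℝ) (η : ℕ → Ec n → ℝ) : Prop where
  opn : IsOpen Ω
  smφ : ContDiffOn ℝ ∞ φ Ω
  smσ : ContDiffOn ℝ ∞ σ Ω
  lev : ∀ z ∈ Ω, ∀ X : Ec n,
    2 * (∑ k, ‖dr σ z k‖ ^ 2 + Real.exp (σ z)) * ‖X‖ ^ 2 ≤ leviForm φ z X
  ηsm : ∀ i, ContDiff ℝ ∞ (η i)
  ηc : ∀ i, HasCompactSupport (η i)
  ηs : ∀ i, tsupport (η i) ⊆ Ω
  η0 : ∀ i z, 0 ≤ η i z
  η1 : ∀ i z, η i z ≤ 1
  ηg : ∀ i, ∀ z ∈ Ω, ∑ k, ‖dr (η i) z k‖ ^ 2 ≤ Real.exp (σ z)
  ηe : ∀ z ∈ Ω, ∀ᶠ i in atTop, η i z = 1 ∧ ∀ k, dr (η i) z k = 0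

/-- `D = {z ∈ U | ρ z < 0}` with a strictly plurisubharmonic function `ρ` on `U` -/
structure DS (D U : Set (Ec n)) (ρ : Ec n → ℝ) (c : ℝ) : Prop where
  c0 : 0 < c
  opn : IsOpen U
  bdd : Bornology.IsBounded U
  sm : ContDiffOn ℝ ∞ ρ U
  eq : D = {z | z ∈ U ∧ ρ z < 0}
  cpt : IsCompact {z | z ∈ U ∧ ρ z ≤ 0}
  nd : ∀ z ∈ U, ρ z = 0 → fderiv ℝ ρ z ≠ 0
  psh : ∀ z ∈ U, ∀ X : Ec n, c * ‖X‖ ^ 2 ≤ leviForm ρ z X

/-- the point of `ℂⁿ⁺¹` with first coordinate `a` -/
noncomputable def cE (a : ℂ) (w : Ec n) : Ec (n + 1) := WithLp.toLp 2 (Fin.cons a w)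

/-- the point of `ℂⁿ` of the other coordinates -/
noncomputable def tl (z : Ec (n + 1)) : Ec n := WithLp.toLp 2 fun i => z i.succ

end Pool.Agent.MPca0fc2.LV
end

section

/-! Wirtinger derivatives. -/

set_option autoImplicit false

open Metric Set MeasureTheory Filter Topology
open scoped ContDiff

namespace Pool.Agent.MPca0fc2.LV

open Pool.Agent.MPca0fc2.FD (Ec ee)

variable {n : ℕ}

/-- PROOF. `fderiv ℝ u z (I • X) = I * fderiv ℝ u z X` for a holomorphic function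
(`DifferentiableAt.fderiv_restrictScalars`). See `FD.db_hol` in FD/B1. -/
theorem dk_hol {u : Ec n → ℂ} {z : Ec n} (hu : DifferentiableAt ℂ u z) (k : Fin n) :
    dk k u z = 0 := by
  have h1 : fderiv ℝ u z = (fderiv ℂ u z).restrictScalars ℝ :=
    (hu.hasFDerivAt.restrictScalars ℝ).fderiv
  unfold dk
  rw [h1]
  simp only [ContinuousLinearMap.coe_restrictScalars', map_smul, smul_eq_mul]
  linear_combination (fderiv ℂ u z (ee k) / 2) * Complex.I_mul_I

/-- PROOF. The real derivative is complex linear: it commutes with `I` on the basis vectors `ee k`, so on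
all vectors. See `FD.hol_of_db` in FD/B9. -/
theorem hol_of_dk {u : Ec n → ℂ} {z : Ec n} (hu : DifferentiableAt ℝ u z) (h : ∀ k, dk k u z = 0) :
    DifferentiableAt ℂ u z := by
  have hb : ∀ k : Fin n, fderiv ℝ u z (Complex.I • ee k) = Complex.I * fderiv ℝ u z (ee k) := by
    intro k
    have h1 := h k
    unfold dk at h1
    linear_combination (-2 * Complex.I) * h1 + fderiv ℝ u z (Complex.I • ee k) * Complex.I_mul_I
  have hc : ∀ (a : ℂ) (k : Fin n), fderiv ℝ u z (a • ee k) = a * fderiv ℝ u z (ee k) := by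
    intro a k
    have e1 : a • ee k = a.re • ee k + a.im • (Complex.I • (ee k : Ec n)) := by
      conv_lhs => rw [← Complex.re_add_im a]
      rw [add_smul, mul_smul]
      rfl
    rw [e1, map_add, map_smul, map_smul, hb]
    conv_rhs => rw [← Complex.re_add_im a]
    rw [Complex.real_smul, Complex.real_smul]
    ring
  have hs : ∀ X : Ec n, X = ∑ k, X k • (ee k : Ec n) := by
    intro X
    ext i
    simp [ee, Pi.single_apply]
  have hI : ∀ (a : ℂ) (X : Ec n), fderiv ℝ u z (a • X) = a * fderiv ℝ u z X := by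
    intro a X
    have h1 : a • X = ∑ k, (a * X k) • (ee k : Ec n) := by
      conv_lhs => rw [hs X]
      rw [Finset.smul_sum]
      apply Finset.sum_congr rfl
      intro k _
      rw [smul_smul]
    conv_rhs => rw [hs X]
    rw [h1, map_sum, map_sum, Finset.mul_sum]
    apply Finset.sum_congr rfl
    intro k _
    rw [hc, hc, mul_assoc]
  rw [differentiableAt_iff_restrictScalars ℝ hu]
  refine ⟨{ toFun := fun X => fderiv ℝ u z X, map_add' := fun X Y => map_add _ X Y,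
            map_smul' := fun a X => hI a X, cont := (fderiv ℝ u z).cont }, ?_⟩
  ext X
  rfl

/-- PROOF. `fderiv_add`. -/
theorem dj_add {u v : Ec n → ℂ} {z : Ec n} (hu : DifferentiableAt ℝ u z) (hv : DifferentiableAt ℝ v z)
    (k : Fin n) : dj k (fun w => u w + v w) z = dj k u z + dj k v z ∧
      dk k (fun w => u w + v w) z = dk k u z + dk k v z := by
  have h1 : fderiv ℝ (fun w => u w + v w) z = fderiv ℝ u z + fderiv ℝ v z :=
    (hu.hasFDerivAt.add hv.hasFDerivAt).fderiv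
  unfold dj dk
  rw [h1]
  simp only [add_apply]
  constructor <;> ring

/-- PROOF. `fderiv_mul`. -/
theorem dj_mul {u v : Ec n → ℂ} {z : Ec n} (hu : DifferentiableAt ℝ u z) (hv : DifferentiableAt ℝ v z)
    (k : Fin n) : dj k (fun w => u w * v w) z = dj k u z * v z + u z * dj k v z ∧
      dk k (fun w => u w * v w) z = dk k u z * v z + u z * dk k v z := by
  have h1 : fderiv ℝ (fun w => u w * v w) z = u z • fderiv ℝ v z + v z • fderiv ℝ u z :=
    (hu.hasFDerivAt.mul hv.hasFDerivAt).fderiv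
  unfold dj dk
  rw [h1]
  simp only [add_apply, smul_apply, smul_eq_mul]
  constructor <;> ring

/-- PROOF. The derivative of the conjugate is the conjugate of the derivative. -/
theorem dj_conj {u : Ec n → ℂ} {z : Ec n} (hu : DifferentiableAt ℝ u z) (k : Fin n) :
    dj k (fun w => (starRingEnd ℂ) (u w)) z = (starRingEnd ℂ) (dk k u z) ∧
      dk k (fun w => (starRingEnd ℂ) (u w)) z = (starRingEnd ℂ) (dj k u z) := by
  have h1 : HasFDerivAt (fun w => (starRingEnd ℂ) (u w))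
      (Complex.conjCLE.toContinuousLinearMap.comp (fderiv ℝ u z)) z :=
    Complex.conjCLE.toContinuousLinearMap.hasFDerivAt.comp z hu.hasFDerivAt
  have h2 : ∀ X, (Complex.conjCLE.toContinuousLinearMap.comp (fderiv ℝ u z)) X =
      (starRingEnd ℂ) (fderiv ℝ u z X) := fun X => rfl
  unfold dj dk
  rw [h1.fderiv, h2, h2]
  simp only [map_div₀, map_add, map_sub, map_mul, Complex.conj_I, map_ofNat]
  constructor <;> ring

/-- PROOF. The derivative of `z ↦ (ρ z : ℂ)` is the derivative of `ρ` composed with the embedding. -/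
theorem dj_real {ρ : Ec n → ℝ} {z : Ec n} (hρ : DifferentiableAt ℝ ρ z) (k : Fin n) :
    dj k (fun w => (ρ w : ℂ)) z = dr ρ z k ∧
      dk k (fun w => (ρ w : ℂ)) z = (starRingEnd ℂ) (dr ρ z k) := by
  have h1 : HasFDerivAt (fun w => (ρ w : ℂ))
      (Complex.ofRealCLM.comp (fderiv ℝ ρ z)) z :=
    Complex.ofRealCLM.hasFDerivAt.comp z hρ.hasFDerivAt
  have h2 : ∀ X, (Complex.ofRealCLM.comp (fderiv ℝ ρ z)) X = ((fderiv ℝ ρ z X : ℝ) : ℂ) :=
    fun X => rfl
  unfold dj dk dr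
  rw [h1.fderiv, h2, h2]
  simp only [map_div₀, map_sub, map_mul, Complex.conj_I, Complex.conj_ofReal, map_ofNat]
  refine ⟨trivial, ?_⟩
  ring

/-- PROOF. `fderiv ℝ u` is `C^∞` on the open set `Ω` (`ContDiffOn.fderiv_of_isOpen`), applied to constant vectors. -/
theorem dj_smooth {Ω : Set (Ec n)} (hΩ : IsOpen Ω) {u : Ec n → ℂ} (hu : ContDiffOn ℝ ∞ u Ω) (k : Fin n) :
    ContDiffOn ℝ ∞ (dj k u) Ω ∧ ContDiffOn ℝ ∞ (dk k u) Ω := by
  have h1 : ContDiffOn ℝ ∞ (fderiv ℝ u) Ω := hu.fderiv_of_isOpen hΩ (by norm_num)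
  have h2 : ∀ X : Ec n, ContDiffOn ℝ ∞ (fun z => fderiv ℝ u z X) Ω := fun X =>
    h1.clm_apply contDiffOn_const
  unfold dj dk
  exact ⟨((h2 _).sub (contDiffOn_const.mul (h2 _))).div_const _,
    ((h2 _).add (contDiffOn_const.mul (h2 _))).div_const _⟩

/-- PROOF. The same for real functions. -/
theorem dr_smooth {Ω : Set (Ec n)} (hΩ : IsOpen Ω) {ρ : Ec n → ℝ} (hρ : ContDiffOn ℝ ∞ ρ Ω) (k : Fin n) :
    ContDiffOn ℝ ∞ (fun z => dr ρ z k) Ω := by
  have h1 : ContDiffOn ℝ ∞ (fderiv ℝ ρ) Ω := hρ.fderiv_of_isOpen hΩ (by norm_num)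
  have h2 : ∀ X : Ec n, ContDiffOn ℝ ∞ (fun z => ((fderiv ℝ ρ z X : ℝ) : ℂ)) Ω := fun X =>
    Complex.ofRealCLM.contDiff.comp_contDiffOn (h1.clm_apply contDiffOn_const)
  unfold dr
  exact ((h2 _).sub (contDiffOn_const.mul (h2 _))).div_const _

/-- PROOF. Symmetry of the second derivative (`ContDiffAt.isSymmSndFDerivAt`). -/
theorem dk_dj_comm {u : Ec n → ℂ} {z : Ec n} (hu : ContDiffAt ℝ 2 u z) (j k : Fin n) :
    dk j (dj k u) z = dj k (dk j u) z := by
  have hsym : IsSymmSndFDerivAt ℝ u z := hu.isSymmSndFDerivAt (by simp)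
  have hd : DifferentiableAt ℝ (fderiv ℝ u) z :=
    (hu.fderiv_right (m := 1) (by norm_num)).differentiableAt (by norm_num)
  have h1 : ∀ X : Ec n, HasFDerivAt (fun w => fderiv ℝ u w X)
      ((fderiv ℝ (fderiv ℝ u) z).flip X) z := by
    intro X
    have := hd.hasFDerivAt.clm_apply (hasFDerivAt_const X z)
    refine this.congr_fderiv ?_
    ext Y
    simp
  have h2 : HasFDerivAt (dj k u) ((2⁻¹ : ℂ) • ((fderiv ℝ (fderiv ℝ u) z).flip (ee k) -
      Complex.I • (fderiv ℝ (fderiv ℝ u) z).flip (Complex.I • ee k))) z := by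
    have h3 := ((h1 (ee k)).sub ((h1 (Complex.I • ee k)).const_mul Complex.I)).const_mul (2⁻¹ : ℂ)
    have h4 : dj k u = fun w => (2⁻¹ : ℂ) * (fderiv ℝ u w (ee k) -
        Complex.I * fderiv ℝ u w (Complex.I • ee k)) := by
      funext w
      unfold dj
      ring
    rw [h4]
    exact h3
  have h3 : HasFDerivAt (dk j u) ((2⁻¹ : ℂ) • ((fderiv ℝ (fderiv ℝ u) z).flip (ee j) +
      Complex.I • (fderiv ℝ (fderiv ℝ u) z).flip (Complex.I • ee j))) z := by
    have h3 := ((h1 (ee j)).add ((h1 (Complex.I • ee j)).const_mul Complex.I)).const_mul (2⁻¹ : ℂ)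
    have h4 : dk j u = fun w => (2⁻¹ : ℂ) * (fderiv ℝ u w (ee j) +
        Complex.I * fderiv ℝ u w (Complex.I • ee j)) := by
      funext w
      unfold dk
      ring
    rw [h4]
    exact h3
  have hl : dk j (dj k u) z = (fderiv ℝ (dj k u) z (ee j) +
      Complex.I * fderiv ℝ (dj k u) z (Complex.I • ee j)) / 2 := rfl
  have hr : dj k (dk j u) z = (fderiv ℝ (dk j u) z (ee k) -
      Complex.I * fderiv ℝ (dk j u) z (Complex.I • ee k)) / 2 := rfl
  rw [hl, hr, h2.fderiv, h3.fderiv]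
  simp only [smul_apply, add_apply,
    sub_apply, ContinuousLinearMap.flip_apply, smul_eq_mul]
  rw [hsym.eq (ee j) (ee k), hsym.eq (ee j) (Complex.I • ee k),
    hsym.eq (Complex.I • ee j) (ee k), hsym.eq (Complex.I • ee j) (Complex.I • ee k)]
  ring

end Pool.Agent.MPca0fc2.LV
end

section

/-! The Hilbert space argument. -/

set_option autoImplicit false

open Metric Set MeasureTheory Filter Topology
open scoped ContDiff InnerProductSpace

namespace Pool.Agent.MPca0fc2.LV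

open Pool.Agent.MPca0fc2.FD (Ec ee)

/-- The Hilbert space argument.
PROOF. Let `P x` be the orthogonal projection of `a x` to the closed subspace `N` (`hN`, complete). `⟪a x, α⟫ = ⟪P x, α⟫`, so
`|⟪a x, α⟫| ≤ ‖b x‖ ‖α‖` by `h`. So `b x ↦ ⟪α, a x⟫` is a well defined continuous linear functional on the range of `b` (if `b x = 0`
then it is `0`); extend it to `H₁` (`exists_extension_norm_eq`), and represent it by `u` (`InnerProductSpace.toDual`). -/
theorem hilb {H₁ H₂ X : Type*} [NormedAddCommGroup H₁] [InnerProductSpace ℂ H₁] [CompleteSpace H₁]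
    [NormedAddCommGroup H₂] [InnerProductSpace ℂ H₂] [CompleteSpace H₂] [AddCommGroup X] [Module ℂ X]
    (a : X →ₗ[ℂ] H₂) (b : X →ₗ[ℂ] H₁) (N : Submodule ℂ H₂) (hN : IsClosed (N : Set H₂))
    (h : ∀ x, ∀ y ∈ N, (∀ t ∈ N, ⟪a x - y, t⟫_ℂ = 0) → ‖y‖ ≤ ‖b x‖) {α : H₂} (hα : α ∈ N) :
    ∃ u : H₁, ∀ x, ⟪b x, u⟫_ℂ = ⟪a x, α⟫_ℂ := by
  haveI : CompleteSpace N := hN.completeSpace_coe
  -- the bound
  have hbd : ∀ x, ‖⟪α, a x⟫_ℂ‖ ≤ ‖α‖ * ‖b x‖ := by
    intro x
    set y : H₂ := N.starProjection (a x) with hy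
    have hyN : y ∈ N := Submodule.starProjection_apply_mem _ _
    have horth : ∀ t ∈ N, ⟪a x - y, t⟫_ℂ = 0 := fun t ht =>
      Submodule.starProjection_inner_eq_zero (a x) t ht
    have h1 := h x y hyN horth
    have h2 : ⟪a x, α⟫_ℂ = ⟪y, α⟫_ℂ := by
      have := horth α hα
      rw [inner_sub_left, sub_eq_zero] at this
      exact this
    have h3 : ‖⟪α, a x⟫_ℂ‖ = ‖⟪y, α⟫_ℂ‖ := by
      rw [← h2, ← inner_conj_symm, RCLike.norm_conj]
    rw [h3]
    calc ‖⟪y, α⟫_ℂ‖ ≤ ‖y‖ * ‖α‖ := norm_inner_le_norm y α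
      _ ≤ ‖b x‖ * ‖α‖ := mul_le_mul_of_nonneg_right h1 (norm_nonneg α)
      _ = ‖α‖ * ‖b x‖ := mul_comm _ _
  -- the functional on the range
  let F : X →ₗ[ℂ] ℂ := ((innerSL ℂ α : H₂ →L[ℂ] ℂ) : H₂ →ₗ[ℂ] ℂ).comp a
  have hF : ∀ x, F x = ⟪α, a x⟫_ℂ := fun x => rfl
  have hker : LinearMap.ker b ≤ LinearMap.ker F := by
    intro x hx
    rw [LinearMap.mem_ker] at hx ⊢
    rw [hF]
    have h1 := hbd x
    rw [hx, norm_zero, mul_zero] at h1
    exact norm_le_zero_iff.1 h1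
  let f0 : (LinearMap.range b) →ₗ[ℂ] ℂ :=
    ((LinearMap.ker b).liftQ F hker).comp (b.quotKerEquivRange.symm : LinearMap.range b →ₗ[ℂ] _)
  have hf0 : ∀ x, f0 ⟨b x, LinearMap.mem_range_self b x⟩ = F x := by
    intro x
    have h1 : b.quotKerEquivRange.symm ⟨b x, LinearMap.mem_range_self b x⟩ =
        (LinearMap.ker b).mkQ x := LinearMap.quotKerEquivRange_symm_apply_image b x _
    show (LinearMap.ker b).liftQ F hker
      (b.quotKerEquivRange.symm ⟨b x, LinearMap.mem_range_self b x⟩) = F x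
    rw [h1]
    exact Submodule.liftQ_apply _ _ _
  have hf0b : ∀ y : LinearMap.range b, ‖f0 y‖ ≤ ‖α‖ * ‖y‖ := by
    rintro ⟨y, x, rfl⟩
    rw [hf0 x, hF]
    exact hbd x
  let f1 : (LinearMap.range b) →L[ℂ] ℂ := f0.mkContinuous ‖α‖ hf0b
  obtain ⟨g, hg, _⟩ := exists_extension_norm_eq (LinearMap.range b) f1
  refine ⟨(InnerProductSpace.toDual ℂ H₁).symm g, fun x => ?_⟩
  have h4 : ⟪(InnerProductSpace.toDual ℂ H₁).symm g, b x⟫_ℂ = ⟪α, a x⟫_ℂ := by
    rw [InnerProductSpace.toDual_symm_apply]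
    have h5 := hg ⟨b x, LinearMap.mem_range_self b x⟩
    have h6 : f1 ⟨b x, LinearMap.mem_range_self b x⟩ = F x := hf0 x
    rw [h6, hF] at h5
    exact h5
  rw [← inner_conj_symm, h4, inner_conj_symm]

end Pool.Agent.MPca0fc2.LV
end

section

/-! Smooth majorants. -/

set_option autoImplicit false

open Metric Set MeasureTheory Filter Topology
open scoped ContDiff

namespace Pool.Agent.MPca0fc2.LV

open Pool.Agent.MPca0fc2.FD (Ec ee)
open Pool.Agent.Lib.MP_ca0fc2_an (leviForm)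

variable {n : ℕ} {Ω : Set (Ec n)} {ψ : Ec n → ℝ}

open scoped Manifold in
/-- A smooth function above a monotone function. -/
private theorem H6b_above {N : ℝ → ℝ} (hN : Monotone N) :
    ∃ g : ℝ → ℝ, ContDiff ℝ ∞ g ∧ ∀ t, N t ≤ g t := by
  obtain ⟨g, hg⟩ := exists_contMDiffMap_forall_mem_convex_of_local_const (n := (⊤ : ℕ∞)) 𝓘(ℝ, ℝ)
    (t := fun x : ℝ => Set.Ici (N x)) (fun x => convex_Ici _) (fun x => by
      refine ⟨N (x + 1), ?_⟩
      filter_upwards [eventually_lt_nhds (show x < x + 1 by linarith)] with y hy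
      exact hN hy.le)
  exact ⟨g, g.contMDiff.contDiff, fun t => hg t⟩

/-- The integral of a smooth function. -/
private theorem H6b_int {g : ℝ → ℝ} (hg : ContDiff ℝ ∞ g) (C t₀ : ℝ) :
    ContDiff ℝ ∞ (fun t => C + ∫ u in t₀..t, g u) ∧
      deriv (fun t => C + ∫ u in t₀..t, g u) = g := by
  have hd : ∀ t, HasDerivAt (fun t => C + ∫ u in t₀..t, g u) (g t) t := by
    intro t
    have h1 := intervalIntegral.integral_hasDerivAt_right
      (hg.continuous.intervalIntegrable t₀ t)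
      (hg.continuous.stronglyMeasurableAtFilter _ _) hg.continuous.continuousAt
    simpa using h1.const_add C
  have he : deriv (fun t => C + ∫ u in t₀..t, g u) = g := funext fun t => (hd t).deriv
  refine ⟨?_, he⟩
  rw [contDiff_infty_iff_deriv]
  refine ⟨fun t => (hd t).differentiableAt, ?_⟩
  rw [he]
  exact hg

/-- Lower bound for the integral over an interval that contains `[t - 1, t]`. -/
private theorem H6b_low {g : ℝ → ℝ} (hg : Continuous g) {t₀ t m : ℝ} (h1 : t₀ ≤ t - 1)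
    (h0 : ∀ u, t₀ ≤ u → 0 ≤ g u) (hm : ∀ u, t - 1 ≤ u → u ≤ t → m ≤ g u) :
    m ≤ ∫ u in t₀..t, g u := by
  have hi : ∀ a b, IntervalIntegrable g volume a b := fun a b => hg.intervalIntegrable a b
  have e : (∫ u in t₀..t, g u) = (∫ u in t₀..(t - 1), g u) + ∫ u in (t - 1)..t, g u :=
    (intervalIntegral.integral_add_adjacent_intervals (hi _ _) (hi _ _)).symm
  have h2 : 0 ≤ ∫ u in t₀..(t - 1), g u :=
    intervalIntegral.integral_nonneg h1 (fun u hu => h0 u hu.1)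
  have h3 : (∫ _u in (t - 1)..t, m) ≤ ∫ u in (t - 1)..t, g u :=
    intervalIntegral.integral_mono_on (by linarith) (by simp) (hi _ _)
      (fun u hu => hm u hu.1 hu.2)
  have h4 : (∫ _u in (t - 1)..t, m) = m := by
    rw [intervalIntegral.integral_const]
    simp
  linarith

/-- PROOF. Let `s(t) = ∫_{-∞}^t Real.smoothTransition` or any smooth convex function which is `0` for `t ≤ 0`, with
`s' ≥ 1` and `s(t) ≥ 1` for `t ≥ 2`, and `s'' ≥ 0`. `κ t = C + C (t - t₀) + ∑_{i ≥ 0} a_i s (t - t₀ - i)` with `a_i ≥ 0` large: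
`C ≥ |M (t₀ + 2)|`, `a_i ≥ |M (t₀ + i + 3)|`: a locally finite sum (for `t < t₀ + i` the terms from `i` on are zero). For
`t ≥ t₀ + 2` let `i` be the integer with `t₀ + i + 2 ≤ t < t₀ + i + 3`: `κ t ≥ a_i ≥ M t` and `κ' t ≥ a_i ≥ M t`; for
`t₀ ≤ t ≤ t₀ + 2`: `κ t ≥ C`, `κ' t ≥ C`. (Smoothness: near a given point only finitely many terms are not zero.) -/
theorem exists_smooth_ge {M : ℝ → ℝ} (hM : Monotone M) (t₀ : ℝ) :
    ∃ κ : ℝ → ℝ, ContDiff ℝ ∞ κ ∧ (∀ t, t₀ ≤ t → M t ≤ κ t) ∧ (∀ t, t₀ ≤ t → M t ≤ deriv κ t) ∧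
      (∀ t, t₀ ≤ t → 0 ≤ deriv κ t) ∧ ∀ t, 0 ≤ deriv (deriv κ) t := by
  have hN : Monotone (fun u => max (M (u + 2)) 0) := by
    intro a b hab
    exact max_le_max (hM (by linarith)) le_rfl
  obtain ⟨g, hg, hNg⟩ := H6b_above hN
  have hg0 : ∀ u, 0 ≤ g u := fun u => (le_max_right _ _).trans (hNg u)
  have hgM : ∀ u, M (u + 2) ≤ g u := fun u => (le_max_left _ _).trans (hNg u)
  set C : ℝ := max (M (t₀ + 2)) 0 with hC
  have hC0 : 0 ≤ C := le_max_right _ _
  have hCM : M (t₀ + 2) ≤ C := le_max_left _ _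
  set k : ℝ → ℝ := fun t => C + ∫ u in t₀..t, g u with hk
  obtain ⟨hk1, hk2⟩ := H6b_int hg C t₀
  rw [← hk] at hk1 hk2
  have hint : ∀ t, t₀ ≤ t → 0 ≤ ∫ u in t₀..t, g u := fun t ht =>
    intervalIntegral.integral_nonneg ht (fun u _ => hg0 u)
  have hkC : ∀ t, t₀ ≤ t → C ≤ k t := fun t ht => by
    have := hint t ht
    simp only [hk]
    linarith
  have hk0 : ∀ t, t₀ ≤ t → 0 ≤ k t := fun t ht => hC0.trans (hkC t ht)
  have hkM : ∀ t, t₀ ≤ t → M (t + 1) ≤ k t := by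
    intro t ht
    rcases le_total t (t₀ + 1) with h | h
    · exact (hM (by linarith)).trans (hCM.trans (hkC t ht))
    · have h1 : M (t + 1) ≤ ∫ u in t₀..t, g u :=
        H6b_low hg.continuous (by linarith) (fun u _ => hg0 u)
          (fun u hu _ => (hM (by linarith)).trans (hgM u))
      simp only [hk]
      linarith
  obtain ⟨hκ1, hκ2⟩ := H6b_int hk1 C t₀
  refine ⟨fun t => C + ∫ u in t₀..t, k u, hκ1, ?_, ?_, ?_, ?_⟩
  · intro t ht
    rcases le_total t (t₀ + 1) with h | h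
    · have h1 : 0 ≤ ∫ u in t₀..t, k u :=
        intervalIntegral.integral_nonneg ht (fun u hu => hk0 u hu.1)
      have h2 : M t ≤ M (t₀ + 2) := hM (by linarith)
      show M t ≤ C + ∫ u in t₀..t, k u
      linarith
    · have h1 : M t ≤ ∫ u in t₀..t, k u :=
        H6b_low hk1.continuous (by linarith) hk0
          (fun u hu _ => (hM (by linarith)).trans (hkM u (by linarith)))
      show M t ≤ C + ∫ u in t₀..t, k u
      linarith
  · intro t ht
    rw [hκ2]
    exact (hM (by linarith)).trans (hkM t ht)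
  · intro t ht
    rw [hκ2]
    exact hk0 t ht
  · intro t
    rw [hκ2, hk2]
    exact hg0 t

end Pool.Agent.MPca0fc2.LV
end

section

/-! A cut-off function. -/

set_option autoImplicit false

open Metric Set MeasureTheory Filter Topology
open scoped ContDiff

namespace Pool.Agent.MPca0fc2.LV

open Pool.Agent.MPca0fc2.FD (Ec ee)

variable {n : ℕ}

/-- A smooth function which is `0` near `Ω \ Ω₁` and `1` near `Ω \ Ω₂` (in `Ω`).
PROOF. `F₂ = Ω \ Ω₁`, `F₁ = Ω \ Ω₂` are disjoint and closed in `Ω`. If `F₁` is empty take `χ = 0` and if `F₂` is empty take `χ = 1`.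
Otherwise let `d₁ z = infDist z F₁`, `d₂ z = infDist z F₂`, `A = {z ∈ Ω | d₁ z < 2 d₂ z}`, `B = {z ∈ Ω | d₂ z < 2 d₁ z}`: open,
`A ∪ B = Ω` (a point of `Ω` in neither has `2 d₂ ≤ d₁`, `2 d₁ ≤ d₂`, so `d₁ = d₂ = 0` and it is in `F₁ ∩ F₂`).
`IsOpen.exists_contDiff_support_eq` (or `exists_smooth_support_eq`) gives smooth `a, b ≥ 0` with supports `A`, `B`; `χ = a / (a + b)`. A point of `F₂` has
`d₂ = 0 < d₁`, so it is not in the closure of `A` in `Ω`: `χ = 0` near it. Similarly `χ = 1` near the points of `F₁`. -/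
theorem exists_cut {Ω Ω₁ Ω₂ : Set (Ec n)} (h1 : IsOpen Ω₁) (h2 : IsOpen Ω₂) (hu : Ω₁ ∪ Ω₂ = Ω) :
    ∃ χ : Ec n → ℝ, ContDiffOn ℝ ∞ χ Ω ∧ (∀ z ∈ Ω, z ∉ Ω₁ → ∀ᶠ y in 𝓝 z, χ y = 0) ∧
      ∀ z ∈ Ω, z ∉ Ω₂ → ∀ᶠ y in 𝓝 z, χ y = 1 := by
  have hΩ : IsOpen Ω := hu ▸ h1.union h2
  rcases Set.eq_empty_or_nonempty (Ω \ Ω₂) with hF1 | hF1
  · refine ⟨fun _ => 0, contDiffOn_const, fun z _ _ => Eventually.of_forall fun _ => rfl, ?_⟩
    intro z hz hz2
    exact absurd (show z ∈ Ω \ Ω₂ from ⟨hz, hz2⟩) (by rw [hF1]; exact Set.notMem_empty z)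
  rcases Set.eq_empty_or_nonempty (Ω \ Ω₁) with hF2 | hF2
  · refine ⟨fun _ => 1, contDiffOn_const, ?_, fun z _ _ => Eventually.of_forall fun _ => rfl⟩
    intro z hz hz2
    exact absurd (show z ∈ Ω \ Ω₁ from ⟨hz, hz2⟩) (by rw [hF2]; exact Set.notMem_empty z)
  set d₁ : Ec n → ℝ := fun z => infDist z (Ω \ Ω₂) with hd₁
  set d₂ : Ec n → ℝ := fun z => infDist z (Ω \ Ω₁) with hd₂
  have hc₁ : Continuous d₁ := continuous_infDist_pt _
  have hc₂ : Continuous d₂ := continuous_infDist_pt _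
  have hp₁ : ∀ z, 0 ≤ d₁ z := fun z => infDist_nonneg
  have hp₂ : ∀ z, 0 ≤ d₂ z := fun z => infDist_nonneg
  -- a point of `Ω₂` has positive distance from `Ω \ Ω₂`
  have hpos₁ : ∀ z ∈ Ω₂, 0 < d₁ z := by
    intro z hz
    have hdisj : z ∉ closure (Ω \ Ω₂) := by
      rw [_root_.mem_closure_iff]
      push Not
      refine ⟨Ω₂, h2, hz, ?_⟩
      rw [Set.eq_empty_iff_forall_notMem]
      rintro y ⟨hy, hy'⟩
      exact hy'.2 hy
    exact (infDist_pos_iff_notMem_closure hF1).1 hdisj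
  have hpos₂ : ∀ z ∈ Ω₁, 0 < d₂ z := by
    intro z hz
    have hdisj : z ∉ closure (Ω \ Ω₁) := by
      rw [_root_.mem_closure_iff]
      push Not
      refine ⟨Ω₁, h1, hz, ?_⟩
      rw [Set.eq_empty_iff_forall_notMem]
      rintro y ⟨hy, hy'⟩
      exact hy'.2 hy
    exact (infDist_pos_iff_notMem_closure hF2).1 hdisj
  set A : Set (Ec n) := Ω ∩ {z | d₁ z < 2 * d₂ z} with hA
  set B : Set (Ec n) := Ω ∩ {z | d₂ z < 2 * d₁ z} with hB
  have hAo : IsOpen A := hΩ.inter (isOpen_lt hc₁ (continuous_const.mul hc₂))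
  have hBo : IsOpen B := hΩ.inter (isOpen_lt hc₂ (continuous_const.mul hc₁))
  have hAB : ∀ z ∈ Ω, z ∈ A ∨ z ∈ B := by
    intro z hz
    by_contra hcon
    rw [not_or] at hcon
    have e1 : ¬ d₁ z < 2 * d₂ z := fun h => hcon.1 ⟨hz, h⟩
    have e2 : ¬ d₂ z < 2 * d₁ z := fun h => hcon.2 ⟨hz, h⟩
    have e3 : d₁ z = 0 := by linarith [hp₁ z, hp₂ z]
    have e4 : d₂ z = 0 := by linarith [hp₁ z, hp₂ z]
    rw [← hu] at hz
    rcases hz with hz | hz
    · exact (hpos₂ z hz).ne' e4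
    · exact (hpos₁ z hz).ne' e3
  obtain ⟨a, ha1, ha2, ha3⟩ := hAo.exists_contDiff_support_eq (n := ⊤)
  obtain ⟨b, hb1, hb2, hb3⟩ := hBo.exists_contDiff_support_eq (n := ⊤)
  have ha0 : ∀ z, 0 ≤ a z := fun z => (ha3 ⟨z, rfl⟩).1
  have hb0 : ∀ z, 0 ≤ b z := fun z => (hb3 ⟨z, rfl⟩).1
  have haA : ∀ z, a z ≠ 0 ↔ z ∈ A := fun z => by rw [← ha1]; rfl
  have hbB : ∀ z, b z ≠ 0 ↔ z ∈ B := fun z => by rw [← hb1]; rfl
  have hab : ∀ z ∈ Ω, a z + b z ≠ 0 := by
    intro z hz h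
    have e1 : a z = 0 := by linarith [ha0 z, hb0 z]
    have e2 : b z = 0 := by linarith [ha0 z, hb0 z]
    rcases hAB z hz with h' | h'
    · exact (haA z).2 h' e1
    · exact (hbB z).2 h' e2
  refine ⟨fun z => a z / (a z + b z), ?_, ?_, ?_⟩
  · exact ContDiffOn.div ha2.contDiffOn (ha2.add hb2).contDiffOn hab
  · intro z hz hz1
    -- `d₂ z = 0 < d₁ z`
    have hz2 : z ∈ Ω₂ := by
      rw [← hu] at hz
      exact hz.resolve_left hz1
    have e1 : 0 < d₁ z := hpos₁ z hz2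
    have e2 : d₂ z = 0 := infDist_zero_of_mem (show z ∈ Ω \ Ω₁ from ⟨hz, hz1⟩)
    have hopen : IsOpen {y | 2 * d₂ y < d₁ y} := isOpen_lt (continuous_const.mul hc₂) hc₁
    have hmem : z ∈ {y | 2 * d₂ y < d₁ y} := by
      show 2 * d₂ z < d₁ z
      rw [e2]; linarith
    filter_upwards [hopen.mem_nhds hmem] with y hy
    have hy' : a y = 0 := by
      by_contra h
      have h' := ((haA y).1 h).2
      have h'' : d₁ y < 2 * d₂ y := h'
      have hy'' : 2 * d₂ y < d₁ y := hy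
      linarith
    rw [hy', zero_div]
  · intro z hz hz2
    have hz1 : z ∈ Ω₁ := by
      rw [← hu] at hz
      exact hz.resolve_right hz2
    have e1 : 0 < d₂ z := hpos₂ z hz1
    have e2 : d₁ z = 0 := infDist_zero_of_mem (show z ∈ Ω \ Ω₂ from ⟨hz, hz2⟩)
    have hopen : IsOpen {y | 2 * d₁ y < d₂ y} := isOpen_lt (continuous_const.mul hc₁) hc₂
    have hmem : z ∈ {y | 2 * d₁ y < d₂ y} := by
      show 2 * d₁ z < d₂ z
      rw [e2]; linarith
    filter_upwards [hopen.mem_nhds hmem, hΩ.mem_nhds hz] with y hy hyΩ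
    have hy' : b y = 0 := by
      by_contra h
      have h' := ((hbB y).1 h).2
      have h'' : d₂ y < 2 * d₁ y := h'
      have hy'' : 2 * d₁ y < d₂ y := hy
      linarith
    have h3 := hab y hyΩ
    rw [hy', add_zero] at h3 ⊢
    exact div_self h3

end Pool.Agent.MPca0fc2.LV
end
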