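import Pool.Agent.Lib.MP_ca0fc2_an.Mg.G045
import Pool.Agent.Lib.MP_ca0fc2_an.Mg.G059

section

/-! The geometric hypotheses for a domain with a support function. -/

set_option autoImplicit false

open Metric Set MeasureTheory Filter Topology

namespace Pool.Agent.MPca0fc2.FD

open Pool.Agent.Lib.MP_ca0fc2_an (SupportData)

variable {n : ℕ}
variable {U : Set (Ec n)} {δ : Ec n → ℝ} {h : Ec n → Ec n → Fin n → ℂ} {c C : ℝ}

/-- PROOF. All the fields are monotone in the constants. -/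
theorem Geo_mono (hg : Geo U δ h c C) {c' C' : ℝ} (h0 : 0 < c') (h1 : c' ≤ c) (h2 : C ≤ C') :
    Geo U δ h c' C' where
  c0 := h0
  c1 := h1.trans hg.c1
  C1 := hg.C1.trans h2
  opn := hg.opn
  nb := fun z hz hd => (ball_subset_ball h1).trans (hg.nb z hz hd)
  bz := fun z hz => (hg.bz z hz).trans h2
  cpt := hg.cpt
  dδ := hg.dδ
  dh := hg.dh
  hol := hg.hol
  bδ := fun z hz => (hg.bδ z hz).trans h2
  bh := fun z hz ζ hζ => (hg.bh z hz ζ hζ).trans h2
  bdh := fun z hz ζ hζ => (hg.bdh z hz ζ hζ).trans h2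
  grad := hg.grad
  pos := fun z hz ζ hζ => by
    have := hg.pos z hz ζ hζ
    have h3 : c' * ‖ζ - z‖ ^ 2 ≤ c * ‖ζ - z‖ ^ 2 := mul_le_mul_of_nonneg_right h1 (by positivity)
    linarith
  nd := fun z hz hd hd' => h1.trans (hg.nd z hz hd (hd'.trans_le h1))

/-- PROOF. All the fields are monotone in the constants. -/
theorem QM_mono {q : Ec n → ℂ} {H : Ec n → Ec n → Fin n → ℂ} (hq : QM U δ h q H c C) {c' C' : ℝ}
    (h1 : c' ≤ c) (h2 : C ≤ C') : QM U δ h q H c' C' where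
  hol := hq.hol
  Hhol := hq.Hhol
  Hb := fun z hz ζ hζ => (hq.Hb z hz ζ hζ).trans h2
  hef := hq.hef
  lt := fun z hz hd => (mul_le_mul_of_nonneg_right h1 hd.le).trans (hq.lt z hz hd)
  tan := fun z hz hd X => (hq.tan z hz hd X).trans
    (mul_le_mul_of_nonneg_right h2 (by positivity))
  b2 := fun z hz ζ hζ hd hd' => (hq.b2 z hz ζ hζ hd hd').trans
    (mul_le_mul_of_nonneg_right h2 (by positivity))

/-- PROOF. The set on the right is compact, so closed, and contains `D`. Conversely let `ρ z = 0`; then the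
gradient is not `0` (`nd`), so there is `X` with `fderiv ℝ ρ z X < 0`, and `ρ (z + t X) < 0`, `z + t X ∈ U` for
small `t > 0`: `z ∈ closure D`. -/
theorem sup_closure {D : Set (Ec n)} {ρ : Ec n → ℝ} (hs : SupportData D U ρ h c) :
    closure D = {z | z ∈ U ∧ ρ z ≤ 0} := by
  apply Subset.antisymm
  · refine closure_minimal ?_ hs.cpt.isClosed
    rw [hs.eq]
    exact fun z hz => ⟨hz.1, hz.2.le⟩
  · rintro z ⟨hzU, hz0⟩
    rcases hz0.lt_or_eq with hlt | heq
    · apply subset_closure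
      rw [hs.eq]
      exact ⟨hzU, hlt⟩
    · have hne := hs.nd z hzU heq
      obtain ⟨X0, hX0⟩ : ∃ X, fderiv ℝ ρ z X ≠ 0 := by
        by_contra hcon
        push Not at hcon
        exact hne (by ext X; simpa using hcon X)
      obtain ⟨X, hX⟩ : ∃ X, fderiv ℝ ρ z X < 0 := by
        rcases lt_or_gt_of_ne hX0 with h1 | h1
        · exact ⟨X0, h1⟩
        · exact ⟨-X0, by rw [map_neg]; linarith⟩
      have hdiff : DifferentiableAt ℝ ρ z :=
        (hs.dρ.contDiffAt (hs.opn.mem_nhds hzU)).differentiableAt (by norm_num)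
      have hline : HasDerivAt (fun t : ℝ => ρ (z + t • X)) (fderiv ℝ ρ z X) 0 := by
        have h1 : HasDerivAt (fun t : ℝ => z + t • X) X 0 := by
          simpa using ((hasDerivAt_id (0 : ℝ)).smul_const X).const_add z
        have h2 : HasFDerivAt ρ (fderiv ℝ ρ z) (z + (0 : ℝ) • X) := by
          simpa using hdiff.hasFDerivAt
        exact h2.comp_hasDerivAt (0 : ℝ) h1
      have hev1 : ∀ᶠ t : ℝ in 𝓝[>] 0, ρ (z + t • X) < 0 := by
        have h3 := (hasDerivAt_iff_tendsto_slope.1 hline).mono_left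
          (nhdsWithin_mono (0 : ℝ) (fun t ht => ne_of_gt ht) : 𝓝[>] (0 : ℝ) ≤ 𝓝[≠] 0)
        have h4 := h3.eventually (gt_mem_nhds hX)
        filter_upwards [h4, self_mem_nhdsWithin] with t ht ht0
        have ht0' : (0 : ℝ) < t := ht0
        rw [slope_def_field] at ht
        simp only [zero_smul, add_zero, heq, sub_zero] at ht
        by_contra hcon
        push Not at hcon
        exact absurd ht (not_lt.2 (div_nonneg hcon ht0'.le))
      have hev2 : ∀ᶠ t : ℝ in 𝓝[>] 0, z + t • X ∈ U := by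
        have hc : ContinuousAt (fun t : ℝ => z + t • X) 0 := by fun_prop
        have : U ∈ 𝓝 (z + (0 : ℝ) • X) := by simpa using hs.opn.mem_nhds hzU
        exact (hc.eventually this).filter_mono nhdsWithin_le_nhds
      have htend : Tendsto (fun t : ℝ => z + t • X) (𝓝[>] 0) (𝓝 z) := by
        have hc : ContinuousAt (fun t : ℝ => z + t • X) 0 := by fun_prop
        have h5 := hc.tendsto
        simp only [zero_smul, add_zero] at h5
        exact h5.mono_left nhdsWithin_le_nhds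
      refine mem_closure_of_tendsto htend ?_
      filter_upwards [hev1, hev2] with t h6 h7
      rw [hs.eq]
      exact ⟨h7, h6⟩

/-- a continuous function on a compact set is bounded -/
private lemma bd_on {E F : Type*} [TopologicalSpace E] [NormedAddCommGroup F] {K : Set E}
    (hK : IsCompact K) {f : E → F} (hf : ContinuousOn f K) : ∃ B : ℝ, ∀ x ∈ K, ‖f x‖ ≤ B := by
  obtain ⟨B, hB⟩ := hK.exists_bound_of_continuousOn hf
  exact ⟨B, hB⟩

/-- The geometric hypotheses hold on a small neighbourhood `U'` of the closure of `D`.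
PROOF. `K = {z ∈ U | ρ z ≤ 0} = closure D` is compact and contained in the open set `U ∩ W`, so there is `r > 0`
with `cthickening r K ⊆ U ∩ W` (`IsCompact.exists_cthickening_subset_open`), a compact set (`K` is compact and the
space is proper: `IsCompact.cthickening`). Let `U' = thickening r K`. `δ = -ρ`. The fields:
`nb`: `0 < δ z` gives `z ∈ K`, so `ball z r ⊆ U'`. `bz`, `bδ`, `bh`, `bdh`: continuous functions on the compact sets
`K' = cthickening r K` and `K' ×ˢ K'` (for `bdh`: `dh` is `C²` on the open set `U ×ˢ U`, so `fderiv` is continuous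
there: `ContDiffOn.continuousOn_fderiv_of_isOpen`). `cpt`: the set `{z ∈ U' | 0 ≤ δ z}` is `K`. `grad`: `grad` of `hs`.
`pos`: `2 Re vv = 2 δ ζ + 2 Re ∑ ≥ 2 δ ζ + ρ ζ - ρ z + c |ζ - z|² = δ ζ + δ z + c |ζ - z|²`. `nd`: on the compact set
`{z ∈ K | ρ z = 0}` the continuous function `‖h z z‖` is positive (if `h z z = 0` then `fderiv ℝ ρ z = 0` by `grad`), so
`≥ m > 0` there; by compactness there is `c₁ > 0` such that `‖h z z‖ ≥ m / 2` for all `z ∈ K` with
`-c₁ ≤ ρ z` (otherwise a sequence `z_i ∈ K` with `ρ z_i → 0` and `‖h z_i z_i‖ < m / 2`, take a convergent subsequence;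
or: the compact set `{z ∈ K | ‖h z z‖ ≤ m / 2}` does not meet `{ρ = 0}`, so `ρ` has a negative maximum on it).
`c'` is the minimum of `r`, `c`, `1`, `c₁`, `m / 2`. `Om U' δ = D` from `K ⊆ U' ⊆ U`. If `K` is empty everything is
trivial (`U' = ∅`, `cthickening` of the empty set is empty). -/
theorem sup_geo {D : Set (Ec n)} {ρ : Ec n → ℝ} (hs : SupportData D U ρ h c) {W : Set (Ec n)}
    (hW : IsOpen W) (hDW : closure D ⊆ W) : ∃ (U' : Set (Ec n)) (c' C' : ℝ),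
    IsCompact (closure U') ∧ closure U' ⊆ U ∩ W ∧ closure D ⊆ U' ∧
      Geo U' (fun z => -ρ z) h c' C' ∧ Om U' (fun z => -ρ z) = D := by
  have hcl := sup_closure hs
  set K : Set (Ec n) := {z | z ∈ U ∧ ρ z ≤ 0} with hKdef
  have hKc : IsCompact K := hs.cpt
  have hKU : K ⊆ U := fun z hz => hz.1
  have hKUW : K ⊆ U ∩ W := fun z hz => ⟨hz.1, hDW (by rw [hcl]; exact hz)⟩
  obtain ⟨r, hr, hrs⟩ := hKc.exists_cthickening_subset_open (hs.opn.inter hW) hKUW
  have hK'c : IsCompact (cthickening r K) := hKc.cthickening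
  set U' : Set (Ec n) := thickening r K with hU'def
  have hU'K' : U' ⊆ cthickening r K := thickening_subset_cthickening r K
  have hU'U : U' ⊆ U := fun z hz => (hrs (hU'K' hz)).1
  have hKU' : K ⊆ U' := self_subset_thickening hr K
  have hK'U : cthickening r K ⊆ U := fun z hz => (hrs hz).1
  have hclU' : closure U' ⊆ cthickening r K := closure_thickening_subset_cthickening r K
  have hprodU : (cthickening r K) ×ˢ (cthickening r K) ⊆ U ×ˢ U :=
    prod_mono hK'U hK'U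
  have hKKc : IsCompact ((cthickening r K) ×ˢ (cthickening r K)) := hK'c.prod hK'c
  -- bounds
  obtain ⟨B1, hB1⟩ := bd_on hK'c (f := fun z : Ec n => z) continuousOn_id
  obtain ⟨B2, hB2⟩ := bd_on hK'c (hs.dρ.continuousOn.mono hK'U)
  obtain ⟨B3, hB3⟩ := bd_on hKKc (hs.dh.continuousOn.mono hprodU)
  obtain ⟨B4, hB4⟩ := bd_on hKKc
    ((hs.dh.continuousOn_fderiv_of_isOpen (hs.opn.prod hs.opn) (by norm_num)).mono hprodU)
  -- nondegeneracy
  have hhd : ContinuousOn (fun z : Ec n => h z z) U := by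
    have h1 : ContinuousOn (fun z : Ec n => ((z, z) : Ec n × Ec n)) U := by fun_prop
    exact hs.dh.continuousOn.comp h1 (fun z hz => ⟨hz, hz⟩)
  have hhz : ∀ z ∈ U, ρ z = 0 → 0 < ‖h z z‖ := by
    intro z hz h0
    rw [norm_pos_iff]
    intro hh0
    apply hs.nd z hz h0
    ext X
    have := hs.grad z hz X
    rw [hh0] at this
    simpa using this
  have hρK : ContinuousOn ρ K := hs.dρ.continuousOn.mono hKU
  have hhK : ContinuousOn (fun z : Ec n => h z z) K := hhd.mono hKU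
  obtain ⟨m, hm0, hm⟩ : ∃ m : ℝ, 0 < m ∧ ∀ z ∈ K, ρ z = 0 → m ≤ ‖h z z‖ := by
    have hZc : IsCompact (K ∩ ρ ⁻¹' {0}) := by
      have : IsClosed (K ∩ ρ ⁻¹' {0}) := hρK.preimage_isClosed_of_isClosed hKc.isClosed
        isClosed_singleton
      exact hKc.of_isClosed_subset this inter_subset_left
    rcases (K ∩ ρ ⁻¹' {0}).eq_empty_or_nonempty with he | hne
    · refine ⟨1, one_pos, fun z hz h0 => ?_⟩
      exact absurd (show z ∈ K ∩ ρ ⁻¹' {0} from ⟨hz, h0⟩) (by rw [he]; exact notMem_empty z)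
    · obtain ⟨z0, hz0, hmin⟩ := hZc.exists_isMinOn hne ((hhK.mono inter_subset_left).norm)
      refine ⟨‖h z0 z0‖, hhz z0 (hKU hz0.1) hz0.2, fun z hz h0 => ?_⟩
      exact hmin (show z ∈ K ∩ ρ ⁻¹' {0} from ⟨hz, h0⟩)
  obtain ⟨c1, hc10, hc1⟩ : ∃ c1 : ℝ, 0 < c1 ∧ ∀ z ∈ K, -c1 < ρ z → m / 2 ≤ ‖h z z‖ := by
    have hLc : IsCompact (K ∩ (fun z : Ec n => ‖h z z‖) ⁻¹' (Iic (m / 2))) := by
      have : IsClosed (K ∩ (fun z : Ec n => ‖h z z‖) ⁻¹' (Iic (m / 2))) :=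
        hhK.norm.preimage_isClosed_of_isClosed hKc.isClosed isClosed_Iic
      exact hKc.of_isClosed_subset this inter_subset_left
    rcases (K ∩ (fun z : Ec n => ‖h z z‖) ⁻¹' (Iic (m / 2))).eq_empty_or_nonempty with he | hne
    · refine ⟨1, one_pos, fun z hz _ => ?_⟩
      by_contra hcon
      push Not at hcon
      exact absurd (show z ∈ K ∩ (fun z : Ec n => ‖h z z‖) ⁻¹' (Iic (m / 2)) from ⟨hz, hcon.le⟩)
        (by rw [he]; exact notMem_empty z)
    · obtain ⟨z0, hz0, hmax⟩ := hLc.exists_isMaxOn hne (hρK.mono inter_subset_left)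
      have hz0neg : ρ z0 < 0 := by
        rcases (show ρ z0 ≤ 0 from hz0.1.2).lt_or_eq with h1 | h1
        · exact h1
        · have h2 := hm z0 hz0.1 h1
          have h3 : ‖h z0 z0‖ ≤ m / 2 := hz0.2
          linarith
      refine ⟨-ρ z0, by linarith, fun z hz hlt => ?_⟩
      by_contra hcon
      push Not at hcon
      have h4 : ρ z ≤ ρ z0 :=
        hmax (show z ∈ K ∩ (fun z : Ec n => ‖h z z‖) ⁻¹' (Iic (m / 2)) from ⟨hz, hcon.le⟩)
      linarith
  -- the constants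
  refine ⟨U', min (min r c) (min (min 1 c1) (m / 2)), max (max 1 B1) (max (max B2 B3) B4),
    hK'c.of_isClosed_subset isClosed_closure hclU', hclU'.trans hrs, by rw [hcl]; exact hKU',
    ?_, ?_⟩
  · have hcr : min (min r c) (min (min 1 c1) (m / 2)) ≤ r :=
      (min_le_left _ _).trans (min_le_left _ _)
    have hcc : min (min r c) (min (min 1 c1) (m / 2)) ≤ c :=
      (min_le_left _ _).trans (min_le_right _ _)
    have hc11 : min (min r c) (min (min 1 c1) (m / 2)) ≤ 1 :=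
      (min_le_right _ _).trans ((min_le_left _ _).trans (min_le_left _ _))
    have hcc1 : min (min r c) (min (min 1 c1) (m / 2)) ≤ c1 :=
      (min_le_right _ _).trans ((min_le_left _ _).trans (min_le_right _ _))
    have hcm : min (min r c) (min (min 1 c1) (m / 2)) ≤ m / 2 :=
      (min_le_right _ _).trans (min_le_right _ _)
    have hC1 : (1 : ℝ) ≤ max (max 1 B1) (max (max B2 B3) B4) :=
      (le_max_left _ _).trans (le_max_left _ _)
    have hCB1 : B1 ≤ max (max 1 B1) (max (max B2 B3) B4) :=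
      (le_max_right _ _).trans (le_max_left _ _)
    have hCB2 : B2 ≤ max (max 1 B1) (max (max B2 B3) B4) :=
      (le_max_left _ _).trans ((le_max_left _ _).trans (le_max_right _ _))
    have hCB3 : B3 ≤ max (max 1 B1) (max (max B2 B3) B4) :=
      (le_max_right _ _).trans ((le_max_left _ _).trans (le_max_right _ _))
    have hCB4 : B4 ≤ max (max 1 B1) (max (max B2 B3) B4) :=
      (le_max_right _ _).trans (le_max_right _ _)
    refine ⟨?_, hc11, hC1, isOpen_thickening, ?_, ?_, ?_, ?_, ?_, ?_, ?_, ?_, ?_, ?_, ?_, ?_⟩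
    · exact lt_min (lt_min hr hs.c0) (lt_min (lt_min one_pos hc10) (by positivity))
    · intro z hz hd
      have hzK : z ∈ K := ⟨hU'U hz, by
        have : 0 < -ρ z := hd
        linarith⟩
      exact (ball_subset_ball hcr).trans (ball_subset_thickening hzK r)
    · intro z hz
      exact (hB1 z (hU'K' hz)).trans hCB1
    · have : {z | z ∈ U' ∧ 0 ≤ -ρ z} = K := by
        ext z
        constructor
        · rintro ⟨h1, h2⟩
          exact ⟨hU'U h1, by linarith⟩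
        · intro hz
          exact ⟨hKU' hz, by have := hz.2; linarith⟩
      rw [this]
      exact hKc
    · exact (hs.dρ.mono hU'U).neg
    · exact hs.dh.mono (prod_mono hU'U hU'U)
    · intro ζ hζ
      exact (hs.hol ζ (hU'U hζ)).mono hU'U
    · intro z hz
      have h1 := hB2 z (hU'K' hz)
      rw [Real.norm_eq_abs] at h1
      have h2 := neg_le_abs (ρ z)
      exact (h2.trans h1).trans hCB2
    · intro z hz ζ hζ
      exact (hB3 (z, ζ) ⟨hU'K' hz, hU'K' hζ⟩).trans hCB3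
    · intro z hz ζ hζ
      exact (hB4 (z, ζ) ⟨hU'K' hz, hU'K' hζ⟩).trans hCB4
    · intro z hz X
      have h1 : fderiv ℝ (fun z => -ρ z) z = -fderiv ℝ ρ z := fderiv_fun_neg
      rw [h1]
      have h2 := hs.grad z (hU'U hz) X
      simp only [_root_.neg_apply, h2]
      ring
    · intro z hz ζ hζ
      have h1 := hs.pos z (hU'U hz) ζ (hU'U hζ)
      have h3 : min (min r c) (min (min 1 c1) (m / 2)) * ‖ζ - z‖ ^ 2 ≤ c * ‖ζ - z‖ ^ 2 :=
        mul_le_mul_of_nonneg_right hcc (by positivity)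
      have h4 : (vv (fun z => -ρ z) h z ζ).re =
          -ρ ζ + (∑ k, h z ζ k * (ζ k - z k)).re := by
        simp only [vv, Complex.add_re, Complex.ofReal_re]
      rw [h4]
      linarith
    · intro z hz hd hd'
      have hzK : z ∈ K := ⟨hU'U hz, by
        have : 0 < -ρ z := hd
        linarith⟩
      have h1 : -ρ z < c1 := lt_of_lt_of_le hd' hcc1
      exact hcm.trans (hc1 z hzK (by linarith))
  · rw [hs.eq]
    ext z
    constructor
    · rintro ⟨h1, h2⟩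
      exact ⟨hU'U h1, by
        have : 0 < -ρ z := h2
        linarith⟩
    · rintro ⟨h1, h2⟩
      exact ⟨hKU' ⟨h1, h2.le⟩, by
        show 0 < -ρ z
        linarith⟩

end Pool.Agent.MPca0fc2.FD
end

section

/-! Pointwise estimates for a function with values in the disc. `V_z = |1 - conj η q(z)|`. -/

set_option autoImplicit false

open Metric Set MeasureTheory Filter Topology

namespace Pool.Agent.MPca0fc2.FD

variable {n : ℕ}

/-- PROOF. `q z - q ζ = (q z - q ζ - dq(ζ) (z - ζ)) + dq(ζ) (z - ζ)`: the first part is at most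
`C ‖z - ζ‖²` (`QM.b2`), the second one at most `C (|h(ζ, ζ) (z - ζ)| + √(1 - |q ζ|²) ‖z - ζ‖)` (`QM.tan`), and
`‖z - ζ‖² ≤ (2 / c) t` (`v_lb`), `|h(ζ, ζ)(z - ζ)| ≤ C' t` (`g_le`). -/
theorem qdiff (n : ℕ) (c C : ℝ) : ∃ C' : ℝ, 0 < C' ∧ ∀ (U : Set (Ec n))
    (δ : Ec n → ℝ) (h : Ec n → Ec n → Fin n → ℂ) (q : Ec n → ℂ) (H : Ec n → Ec n → Fin n → ℂ),
    Geo U δ h c C → QM U δ h q H c C → ∀ z ∈ Om U δ, ∀ ζ ∈ Om U δ,
    ‖q z - q ζ‖ ≤ C' * (‖vv δ h z ζ‖ + Real.sqrt ((1 - ‖q ζ‖ ^ 2) * ‖vv δ h z ζ‖)) := by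
  by_cases hcC : 0 < c ∧ 1 ≤ C
  swap
  · exact ⟨1, one_pos, fun U δ h q H hG => absurd ⟨hG.c0, hG.C1⟩ hcC⟩
  obtain ⟨hc, hC⟩ := hcC
  obtain ⟨C₁, hC₁, hg⟩ := g_le n c C
  have hC0 : 0 < C := by linarith
  refine ⟨C * (2 / c) + C * C₁ + C * Real.sqrt (2 / c), by positivity, ?_⟩
  intro U δ h q H hG hq z hz ζ hζ
  obtain ⟨_, _, h3, h4⟩ := v_lb hG hz hζ
  set t := ‖vv δ h z ζ‖ with ht
  have hζq : ‖q ζ‖ ≤ 1 := by
    have := hq.lt ζ hζ.1 hζ.2
    have h5 : 0 < c * δ ζ := mul_pos hc hζ.2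
    linarith
  have h6 : 0 ≤ 1 - ‖q ζ‖ ^ 2 := by nlinarith [norm_nonneg (q ζ)]
  have h7 : ‖z - ζ‖ ^ 2 ≤ 2 / c * t := by
    rw [norm_sub_rev, div_mul_eq_mul_div, le_div_iff₀ hc]; linarith
  have h8 : ‖z - ζ‖ ≤ Real.sqrt (2 / c * t) := Real.le_sqrt_of_sq_le h7
  have h9 := hq.b2 z hz.1 ζ hζ.1 hz.2 hζ.2
  have h10 := hq.tan ζ hζ.1 hζ.2 (z - ζ)
  have h11 : ‖∑ k, h ζ ζ k * (z - ζ) k‖ ≤ C₁ * t := by
    have h12 := (hg U δ h hG z hz ζ hζ).1
    have h13 : ∑ k, h ζ ζ k * (z - ζ) k = -∑ k, h ζ ζ k * (ζ k - z k) := by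
      rw [← Finset.sum_neg_distrib]
      refine Finset.sum_congr rfl fun k _ => ?_
      simp only [PiLp.sub_apply]; ring
    rw [h13, norm_neg]; exact h12
  have h14 : Real.sqrt (1 - ‖q ζ‖ ^ 2) * ‖z - ζ‖ ≤
      Real.sqrt (2 / c) * Real.sqrt ((1 - ‖q ζ‖ ^ 2) * t) := by
    calc Real.sqrt (1 - ‖q ζ‖ ^ 2) * ‖z - ζ‖ ≤
          Real.sqrt (1 - ‖q ζ‖ ^ 2) * Real.sqrt (2 / c * t) := by gcongr
      _ = Real.sqrt (2 / c) * Real.sqrt ((1 - ‖q ζ‖ ^ 2) * t) := by
          rw [Real.sqrt_mul (by positivity), Real.sqrt_mul h6]; ring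
  have h15 : q z - q ζ = (q z - q ζ - fderiv ℂ q ζ (z - ζ)) + fderiv ℂ q ζ (z - ζ) := by ring
  have h16 : ‖q z - q ζ‖ ≤ C * ‖z - ζ‖ ^ 2 + C * (C₁ * t +
      Real.sqrt (2 / c) * Real.sqrt ((1 - ‖q ζ‖ ^ 2) * t)) := by
    rw [h15]
    refine (norm_add_le _ _).trans (add_le_add h9 (h10.trans ?_))
    gcongr
  have h17 : C * ‖z - ζ‖ ^ 2 ≤ C * (2 / c * t) := by gcongr
  have h18 : 0 ≤ Real.sqrt ((1 - ‖q ζ‖ ^ 2) * t) := Real.sqrt_nonneg _
  set w := Real.sqrt ((1 - ‖q ζ‖ ^ 2) * t) with hw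
  have h19 : 0 ≤ Real.sqrt (2 / c) := Real.sqrt_nonneg _
  set u := Real.sqrt (2 / c) with hu
  have h20 : 0 ≤ C * (2 / c) * w := by positivity
  have h21 : 0 ≤ C * C₁ * w := by positivity
  have h22 : 0 ≤ C * u * t := by positivity
  calc ‖q z - q ζ‖ ≤ C * (2 / c * t) + C * (C₁ * t + u * w) := by linarith
    _ ≤ (C * (2 / c) + C * C₁ + C * u) * (t + w) := by linarith

/-- PROOF. `|1 - conj η x| ≥ 1 - |x|`, `≥ 1 - |η| ≥ (1 - |η|²) / 2`, `≤ 2`. -/
theorem V_basic {η x : ℂ} (hη : ‖η‖ < 1) (hx : ‖x‖ < 1) :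
    1 - ‖x‖ ≤ ‖1 - (starRingEnd ℂ) η * x‖ ∧ 1 - ‖η‖ ^ 2 ≤ 2 * ‖1 - (starRingEnd ℂ) η * x‖ ∧
      ‖1 - (starRingEnd ℂ) η * x‖ ≤ 2 ∧ 0 < 1 - ‖η‖ ^ 2 ∧ 0 < ‖1 - (starRingEnd ℂ) η * x‖ := by
  have h1 : 1 - ‖η‖ * ‖x‖ ≤ ‖1 - (starRingEnd ℂ) η * x‖ := by
    have := norm_sub_norm_le (1 : ℂ) ((starRingEnd ℂ) η * x)
    rw [norm_one, norm_mul, RCLike.norm_conj] at this
    exact this
  have h2 : ‖1 - (starRingEnd ℂ) η * x‖ ≤ 1 + ‖η‖ * ‖x‖ := by
    have := norm_sub_le (1 : ℂ) ((starRingEnd ℂ) η * x)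
    rw [norm_one, norm_mul, RCLike.norm_conj] at this
    exact this
  have h3 := norm_nonneg η
  have h4 := norm_nonneg x
  have h5 : ‖η‖ * ‖x‖ ≤ ‖x‖ := by nlinarith
  have h6 : ‖η‖ * ‖x‖ ≤ ‖η‖ := by nlinarith
  refine ⟨by linarith, by nlinarith, by nlinarith, by nlinarith, by linarith⟩

/-- Comparison of `V_z` and `V_ζ`.
PROOF. `|V_z - V_ζ| ≤ |q z - q ζ| ≤ C₁ (t + √(2 V_ζ t))`, by `qdiff` and `1 - |q ζ|² ≤ 2 (1 - |q ζ|) ≤ 2 V_ζ`. So
`V_z ≤ V_ζ + C₁ t + C₁ (V_ζ + t)`, and `V_ζ ≤ V_z + C₁ t + (V_ζ / 2 + C₁² t)`, so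
`V_ζ ≤ 2 V_z + (2 C₁ + 2 C₁²) t`. -/
theorem V_comp (n : ℕ) (c C : ℝ) : ∃ C' : ℝ, 0 < C' ∧ ∀ (U : Set (Ec n))
    (δ : Ec n → ℝ) (h : Ec n → Ec n → Fin n → ℂ) (q : Ec n → ℂ) (H : Ec n → Ec n → Fin n → ℂ),
    Geo U δ h c C → QM U δ h q H c C → ∀ η : ℂ, ‖η‖ < 1 → ∀ z ∈ Om U δ, ∀ ζ ∈ Om U δ,
    ‖1 - (starRingEnd ℂ) η * q z‖ ≤ C' * (‖1 - (starRingEnd ℂ) η * q ζ‖ + ‖vv δ h z ζ‖) ∧
      ‖1 - (starRingEnd ℂ) η * q ζ‖ ≤ C' * (‖1 - (starRingEnd ℂ) η * q z‖ + ‖vv δ h z ζ‖) := by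
  by_cases hcC : 0 < c ∧ 1 ≤ C
  swap
  · exact ⟨1, one_pos, fun U δ h q H hG => absurd ⟨hG.c0, hG.C1⟩ hcC⟩
  obtain ⟨hc, hC⟩ := hcC
  obtain ⟨C₁, hC₁, hd⟩ := qdiff n c C
  refine ⟨2 + 2 * C₁ + 2 * C₁ ^ 2, by positivity, ?_⟩
  intro U δ h q H hG hq η hη z hz ζ hζ
  have h4 := (v_lb hG hz hζ).2.2.2
  have h5 := hd U δ h q H hG hq z hz ζ hζ
  set t := ‖vv δ h z ζ‖ with ht
  have hlt : ∀ w ∈ Om U δ, ‖q w‖ < 1 := by
    intro w hw
    have h6 := hq.lt w hw.1 hw.2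
    have h7 : 0 < c * δ w := mul_pos hc hw.2
    linarith
  have hVz := V_basic hη (hlt z hz)
  have hVζ := V_basic hη (hlt ζ hζ)
  set a := ‖1 - (starRingEnd ℂ) η * q z‖ with ha
  set b := ‖1 - (starRingEnd ℂ) η * q ζ‖ with hb
  have h8 : 1 - ‖q ζ‖ ^ 2 ≤ 2 * b := by
    have h9 := norm_nonneg (q ζ)
    have h10 := hlt ζ hζ
    nlinarith [hVζ.1]
  have h11 : (1 - ‖q ζ‖ ^ 2) * t ≤ 2 * b * t := by gcongr
  have h12 : Real.sqrt ((1 - ‖q ζ‖ ^ 2) * t) ≤ Real.sqrt (2 * b * t) := Real.sqrt_le_sqrt h11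
  have h13 : ‖q z - q ζ‖ ≤ C₁ * (t + Real.sqrt (2 * b * t)) := h5.trans (by gcongr)
  have h14 : |a - b| ≤ ‖q z - q ζ‖ := by
    refine (abs_norm_sub_norm_le _ _).trans ?_
    have h15 : 1 - (starRingEnd ℂ) η * q z - (1 - (starRingEnd ℂ) η * q ζ) =
        -((starRingEnd ℂ) η * (q z - q ζ)) := by ring
    rw [h15, norm_neg, norm_mul, RCLike.norm_conj]
    have := norm_nonneg (q z - q ζ)
    nlinarith
  have h16 := abs_le.1 (h14.trans h13)
  have hb0 : 0 < b := hVζ.2.2.2.2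
  have ha0 : 0 < a := hVz.2.2.2.2
  constructor
  · have h17 : Real.sqrt (2 * b * t) ≤ b + t := by
      rw [Real.sqrt_le_left (by positivity)]
      nlinarith [sq_nonneg b, sq_nonneg t]
    have h18 : C₁ * Real.sqrt (2 * b * t) ≤ C₁ * (b + t) := by gcongr
    have h19 : 0 ≤ C₁ ^ 2 * (b + t) := by positivity
    have h20 : 0 ≤ C₁ * b := by positivity
    nlinarith [h16.2]
  · have h17 : C₁ * Real.sqrt (2 * b * t) ≤ b / 2 + C₁ ^ 2 * t := by
      have h18 : C₁ * Real.sqrt (2 * b * t) = Real.sqrt (C₁ ^ 2 * (2 * b * t)) := by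
        rw [Real.sqrt_mul (sq_nonneg C₁), Real.sqrt_sq hC₁.le]
      rw [h18, Real.sqrt_le_left (by positivity)]
      nlinarith [sq_nonneg (b / 2 - C₁ ^ 2 * t)]
    have h19 : 0 ≤ (C₁ + C₁ ^ 2) * a := by positivity
    nlinarith [h16.1]

/-- PROOF. `V_comp`, and `V_ζ ≥ 1 - |q ζ| ≥ c δ ζ` (`QM.lt`), `t ≥ δ ζ / 2`:
`V_ζ + t ≤ V_ζ (1 + t / (c δ ζ)) ≤ C'' V_ζ (t / δ ζ)`. -/
theorem V_ratio (n : ℕ) (c C : ℝ) : ∃ C' : ℝ, 0 < C' ∧ ∀ (U : Set (Ec n))
    (δ : Ec n → ℝ) (h : Ec n → Ec n → Fin n → ℂ) (q : Ec n → ℂ) (H : Ec n → Ec n → Fin n → ℂ),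
    Geo U δ h c C → QM U δ h q H c C → ∀ η : ℂ, ‖η‖ < 1 → ∀ z ∈ Om U δ, ∀ ζ ∈ Om U δ,
    ‖1 - (starRingEnd ℂ) η * q z‖ ≤
      C' * ‖1 - (starRingEnd ℂ) η * q ζ‖ * (‖vv δ h z ζ‖ / δ ζ) := by
  by_cases hcC : 0 < c ∧ 1 ≤ C
  swap
  · exact ⟨1, one_pos, fun U δ h q H hG => absurd ⟨hG.c0, hG.C1⟩ hcC⟩
  obtain ⟨hc, hC⟩ := hcC
  obtain ⟨C₁, hC₁, hd⟩ := V_comp n c C
  refine ⟨C₁ * (2 + 1 / c), by positivity, ?_⟩
  intro U δ h q H hG hq η hη z hz ζ hζ
  obtain ⟨_, h2, _, h4⟩ := v_lb hG hz hζ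
  have h5 := (hd U δ h q H hG hq η hη z hz ζ hζ).1
  set t := ‖vv δ h z ζ‖ with ht
  have hδ : 0 < δ ζ := hζ.2
  have h6 := hq.lt ζ hζ.1 hδ
  have hlt : ‖q ζ‖ < 1 := by
    have h7 : 0 < c * δ ζ := mul_pos hc hδ
    linarith
  have hVζ := V_basic hη hlt
  set b := ‖1 - (starRingEnd ℂ) η * q ζ‖ with hb
  have hb0 : 0 < b := hVζ.2.2.2.2
  have h8 : b ≤ 2 * (b * (t / δ ζ)) := by
    have h9 : 1 ≤ 2 * (t / δ ζ) := by
      rw [← mul_div_assoc, le_div_iff₀ hδ]; linarith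
    nlinarith
  have h10 : t ≤ 1 / c * (b * (t / δ ζ)) := by
    have h11 : c * δ ζ ≤ b := by linarith [hVζ.1]
    have h12 : 1 / c * (b * (t / δ ζ)) = b / (c * δ ζ) * t := by field_simp
    rw [h12]
    have h13 : 1 ≤ b / (c * δ ζ) := by rw [le_div_iff₀ (by positivity)]; linarith
    nlinarith
  calc ‖1 - (starRingEnd ℂ) η * q z‖ ≤ C₁ * (b + t) := h5
    _ ≤ C₁ * (2 * (b * (t / δ ζ)) + 1 / c * (b * (t / δ ζ))) := by gcongr
    _ = C₁ * (2 + 1 / c) * b * (t / δ ζ) := by ring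

/-- the bound of the potential in the variable `ζ` by the data at `z`: `a = (N / V)²`, and the
smaller one of `s / V` and `V / s` to the power `1 / 4` -/
noncomputable def kb (s : ℝ) (x η : ℂ) : ℝ :=
  ((1 - ‖η‖ ^ 2) / ‖1 - (starRingEnd ℂ) η * x‖) ^ 2 *
    (min (s / ‖1 - (starRingEnd ℂ) η * x‖) (‖1 - (starRingEnd ℂ) η * x‖ / s)) ^ (1 / 4 : ℝ)

/-- The potential at `ζ` is bounded by the data at `z`.
PROOF. Let `s = δ ζ`, `N = 1 - |η|²`, `ρ = t / s ≥ 1 / 2`. By `V_ratio`, `1 / V_ζ ≤ C₁ ρ / V_z`. So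
`kap(ζ) = (N / V_ζ)² (s / V_ζ)^(1/4) ≤ C₂ ρ^(9/4) (N / V_z)² (s / V_z)^(1/4)` and `ρ^(9/4) ≤ 2 ρ³`
(`ρ ≥ 1/2`). If `V_z ≥ s` this is the claim. If `V_z < s`: `V_ζ ≥ c s` (`QM.lt`), so
`kap(ζ) ≤ c^(-9/4) (N / s)²` (`(s / V_ζ)^(1/4) ≤ c^(-1/4)`), `(N / s)² = (N / V_z)² (V_z / s)² ≤
(N / V_z)² (V_z / s)^(1/4)`, and `1 ≤ 8 ρ³`. -/
theorem kap_le (n : ℕ) (c C : ℝ) : ∃ C' : ℝ, 0 < C' ∧ ∀ (U : Set (Ec n))
    (δ : Ec n → ℝ) (h : Ec n → Ec n → Fin n → ℂ) (q : Ec n → ℂ) (H : Ec n → Ec n → Fin n → ℂ),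
    Geo U δ h c C → QM U δ h q H c C → ∀ η : ℂ, ‖η‖ < 1 → ∀ z ∈ Om U δ, ∀ ζ ∈ Om U δ,
    kap (δ ζ) (q ζ) η ≤ C' * (‖vv δ h z ζ‖ / δ ζ) ^ 3 * kb (δ ζ) (q z) η := by
  by_cases hcC : 0 < c ∧ c ≤ 1 ∧ 1 ≤ C
  swap
  · exact ⟨1, one_pos, fun U δ h q H hG => absurd ⟨hG.c0, hG.c1, hG.C1⟩ hcC⟩
  obtain ⟨hc, hc1, hC⟩ := hcC
  obtain ⟨C₀, hC₀, hd⟩ := V_ratio n c C
  set C₁ := max C₀ 1 with hC₁
  have hC₁1 : 1 ≤ C₁ := le_max_right _ _
  have hC₁0 : 0 < C₁ := by linarith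
  refine ⟨2 * C₁ ^ 3 + 8 / c ^ 3, by positivity, ?_⟩
  intro U δ h q H hG hq η hη z hz ζ hζ
  obtain ⟨_, h2, _, h4⟩ := v_lb hG hz hζ
  have h5 := hd U δ h q H hG hq η hη z hz ζ hζ
  have hδ : 0 < δ ζ := hζ.2
  have hlt : ∀ w ∈ Om U δ, ‖q w‖ < 1 := by
    intro w hw
    have h6 := hq.lt w hw.1 hw.2
    have h7 : 0 < c * δ w := mul_pos hc hw.2
    linarith
  have hVz := V_basic hη (hlt z hz)
  have hVζ := V_basic hη (hlt ζ hζ)
  have h6 := hq.lt ζ hζ.1 hδ
  unfold kap kb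
  set t := ‖vv δ h z ζ‖ with ht
  set a := ‖1 - (starRingEnd ℂ) η * q z‖ with ha
  set b := ‖1 - (starRingEnd ℂ) η * q ζ‖ with hb
  set s := δ ζ with hs
  set N := 1 - ‖η‖ ^ 2 with hN
  have ha0 : 0 < a := hVz.2.2.2.2
  have hb0 : 0 < b := hVζ.2.2.2.2
  have hN0 : 0 < N := hVz.2.2.2.1
  set ρ := t / s with hρ
  have hρ1 : 1 ≤ 2 * ρ := by
    rw [hρ, ← mul_div_assoc, le_div_iff₀ hδ]; linarith
  have hρ0 : 0 < ρ := by linarith
  have h7 : a ≤ C₁ * b * ρ := h5.trans (by gcongr; exact le_max_left _ _)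
  have h8 : 1 / b ≤ C₁ * ρ / a := by
    rw [div_le_div_iff₀ hb0 ha0]; linarith
  have hcs : c * s ≤ b := by linarith [hVζ.1]
  rcases le_or_gt s a with h9 | h9
  · have hmin : min (s / a) (a / s) = s / a := by
      apply min_eq_left
      exact ((div_le_one ha0).2 h9).trans ((one_le_div hδ).2 h9)
    rw [hmin]
    have h10 : N / b ≤ C₁ * ρ * (N / a) := by
      calc N / b = N * (1 / b) := by ring
        _ ≤ N * (C₁ * ρ / a) := by gcongr
        _ = C₁ * ρ * (N / a) := by ring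
    have h11 : s / b ≤ C₁ * ρ * (s / a) := by
      calc s / b = s * (1 / b) := by ring
        _ ≤ s * (C₁ * ρ / a) := by gcongr
        _ = C₁ * ρ * (s / a) := by ring
    have h12 : (C₁ * ρ) ^ (1 / 4 : ℝ) ≤ 2 * C₁ * ρ := by
      have h13 : (1 : ℝ) ≤ 2 * C₁ * ρ := by nlinarith
      calc (C₁ * ρ) ^ (1 / 4 : ℝ) ≤ (2 * C₁ * ρ) ^ (1 / 4 : ℝ) := by
            apply Real.rpow_le_rpow (by positivity) _ (by norm_num)
            nlinarith [mul_pos hC₁0 hρ0]
        _ ≤ (2 * C₁ * ρ) ^ (1 : ℝ) := Real.rpow_le_rpow_of_exponent_le h13 (by norm_num)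
        _ = 2 * C₁ * ρ := Real.rpow_one _
    calc (N / b) ^ 2 * (s / b) ^ (1 / 4 : ℝ) ≤
          (C₁ * ρ * (N / a)) ^ 2 * (C₁ * ρ * (s / a)) ^ (1 / 4 : ℝ) := by gcongr
      _ = (C₁ * ρ) ^ 2 * (C₁ * ρ) ^ (1 / 4 : ℝ) * ((N / a) ^ 2 * (s / a) ^ (1 / 4 : ℝ)) := by
          rw [Real.mul_rpow (by positivity) (by positivity)]; ring
      _ ≤ (C₁ * ρ) ^ 2 * (2 * C₁ * ρ) * ((N / a) ^ 2 * (s / a) ^ (1 / 4 : ℝ)) := by gcongr
      _ = 2 * C₁ ^ 3 * ρ ^ 3 * ((N / a) ^ 2 * (s / a) ^ (1 / 4 : ℝ)) := by ring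
      _ ≤ (2 * C₁ ^ 3 + 8 / c ^ 3) * ρ ^ 3 * ((N / a) ^ 2 * (s / a) ^ (1 / 4 : ℝ)) := by
          gcongr
          have : 0 ≤ 8 / c ^ 3 := by positivity
          linarith
  · have hmin : min (s / a) (a / s) = a / s := by
      apply min_eq_right
      exact ((div_le_one hδ).2 h9.le).trans ((one_le_div ha0).2 h9.le)
    rw [hmin]
    have h10 : N / b ≤ 1 / c * (N / s) := by
      calc N / b ≤ N / (c * s) := by gcongr
        _ = 1 / c * (N / s) := by field_simp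
    have h11 : (s / b) ^ (1 / 4 : ℝ) ≤ 1 / c := by
      have h12 : s / b ≤ 1 / c := by
        rw [div_le_div_iff₀ hb0 hc]; linarith
      have h13 : (1 : ℝ) ≤ 1 / c := by rw [le_div_iff₀ hc]; linarith
      calc (s / b) ^ (1 / 4 : ℝ) ≤ (1 / c) ^ (1 / 4 : ℝ) :=
            Real.rpow_le_rpow (by positivity) h12 (by norm_num)
        _ ≤ (1 / c) ^ (1 : ℝ) := Real.rpow_le_rpow_of_exponent_le h13 (by norm_num)
        _ = 1 / c := Real.rpow_one _
    have h14 : (a / s) ^ 2 ≤ (a / s) ^ (1 / 4 : ℝ) := by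
      rw [← Real.rpow_natCast]
      exact Real.rpow_le_rpow_of_exponent_ge (by positivity) ((div_le_one hδ).2 h9.le)
        (by norm_num)
    have h15 : 1 ≤ 8 * ρ ^ 3 := by
      have : 1 ≤ (2 * ρ) ^ 3 := one_le_pow₀ hρ1
      linarith [this, mul_pow 2 ρ 3]
    have h16 : (N / s) ^ 2 = (N / a) ^ 2 * (a / s) ^ 2 := by field_simp
    calc (N / b) ^ 2 * (s / b) ^ (1 / 4 : ℝ) ≤ (1 / c * (N / s)) ^ 2 * (1 / c) := by gcongr
      _ = 1 / c ^ 3 * ((N / a) ^ 2 * (a / s) ^ 2) := by rw [mul_pow, h16]; ring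
      _ ≤ 1 / c ^ 3 * ((N / a) ^ 2 * (a / s) ^ (1 / 4 : ℝ)) := by gcongr
      _ = 1 / c ^ 3 * 1 * ((N / a) ^ 2 * (a / s) ^ (1 / 4 : ℝ)) := by ring
      _ ≤ 1 / c ^ 3 * (8 * ρ ^ 3) * ((N / a) ^ 2 * (a / s) ^ (1 / 4 : ℝ)) := by gcongr
      _ = 8 / c ^ 3 * ρ ^ 3 * ((N / a) ^ 2 * (a / s) ^ (1 / 4 : ℝ)) := by ring
      _ ≤ (2 * C₁ ^ 3 + 8 / c ^ 3) * ρ ^ 3 * ((N / a) ^ 2 * (a / s) ^ (1 / 4 : ℝ)) := by
          gcongr
          have : 0 ≤ 2 * C₁ ^ 3 := by positivity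
          linarith

/-- PROOF. `kap s x η = (N / V)² (s / V)^(1/4)`: monotone in `s`. -/
theorem kap_mono {s s' : ℝ} (hs : 0 < s) (hss : s ≤ s') (x η : ℂ) : kap s x η ≤ kap s' x η := by
  unfold kap
  gcongr

/-- PROOF. From the definition. -/
theorem kap_nonneg {s : ℝ} (hs : 0 ≤ s) (x η : ℂ) : 0 ≤ kap s x η := by
  unfold kap
  positivity

end Pool.Agent.MPca0fc2.FD
end

section

/-! Sums over finite sets of points of the disc; a summation lemma of Jones. -/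

set_option autoImplicit false

open Metric Set MeasureTheory Filter Topology

namespace Pool.Agent.MPca0fc2.FD

private theorem J2_JJ_nonneg {x η : ℂ} (hx : ‖x‖ < 1) (hη : ‖η‖ < 1) : 0 ≤ JJ x η := by
  unfold JJ
  have h1 : 0 ≤ 1 - ‖x‖ ^ 2 := by nlinarith [norm_nonneg x]
  have h2 : 0 ≤ 1 - ‖η‖ ^ 2 := by nlinarith [norm_nonneg η]
  positivity

private theorem J2_A_nonneg {S : Finset ℂ} {A : ℝ} (hS : ∀ η ∈ S, ‖η‖ < 1)
    (hA : ∀ x : ℂ, ‖x‖ < 1 → ∑ η ∈ S, JJ x η ≤ A) : 0 ≤ A := by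
  refine le_trans ?_ (hA 0 (by simp))
  exact Finset.sum_nonneg fun η hη => J2_JJ_nonneg (by simp) (hS η hη)

/-- The number of points at a given distance.
PROOF. If there is such an `η` then `r ≥ V ≥ 1 - |x|`. CASE `r ≤ 1`: if `x = 0` then `r = 1`... in general let
`x'` be the point `(1 - r) x / |x|` (for `x ≠ 0`; for `x = 0` we have `r ≥ 1` and use the second case). Then
`|x - x'| = |x| - (1 - r) ≤ r` (as `|x| ≥ 1 - r`), `V' = |1 - conj η x'| ≤ V + |x - x'| ≤ 2 r`,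
`1 - |x'|² ≥ r`, so `JJ x' η = (1 - |x'|²) N / V'² ≥ N / (4 r)`, and the sum over the `η` of `N / r` is at
most `4 A`. CASE `r ≥ 1`: `x' = 0`, `JJ 0 η = N`, so the sum of `N / r` is at most `A`. -/
theorem sum_N {S : Finset ℂ} {A : ℝ} (hS : ∀ η ∈ S, ‖η‖ < 1)
    (hA : ∀ x : ℂ, ‖x‖ < 1 → ∑ η ∈ S, JJ x η ≤ A) {x : ℂ} (hx : ‖x‖ < 1) {r : ℝ} (hr : 0 < r) :
    ∑ η ∈ S.filter (fun η => ‖1 - (starRingEnd ℂ) η * x‖ ≤ r), (1 - ‖η‖ ^ 2) ≤ 4 * A * r := by
  have hA0 := J2_A_nonneg hS hA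
  rcases le_or_gt 1 r with h1 | h1
  · -- `x' = 0`
    have h2 := hA 0 (by simp)
    have h3 : ∑ η ∈ S.filter (fun η => ‖1 - (starRingEnd ℂ) η * x‖ ≤ r), (1 - ‖η‖ ^ 2) ≤
        ∑ η ∈ S, JJ 0 η := by
      refine le_trans (Finset.sum_le_sum_of_subset_of_nonneg (Finset.filter_subset _ _) ?_)
        (le_of_eq ?_)
      · intro η hη _
        nlinarith [norm_nonneg η, hS η hη]
      · refine Finset.sum_congr rfl fun η _ => ?_
        simp [JJ]
    nlinarith
  rcases Finset.eq_empty_or_nonempty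
    (S.filter (fun η => ‖1 - (starRingEnd ℂ) η * x‖ ≤ r)) with he | ⟨η₀, hη₀⟩
  · rw [he, Finset.sum_empty]; positivity
  have hx1 : 1 - r ≤ ‖x‖ := by
    rw [Finset.mem_filter] at hη₀
    have := (V_basic (hS η₀ hη₀.1) hx).1
    linarith [hη₀.2]
  have hx0 : 0 < ‖x‖ := by linarith
  set x' : ℂ := (((1 - r) / ‖x‖ : ℝ) : ℂ) * x with hx'
  have hn' : ‖x'‖ = 1 - r := by
    rw [hx', norm_mul, Complex.norm_real, Real.norm_of_nonneg (by
      have : 0 ≤ 1 - r := by linarith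
      positivity)]
    field_simp
  have hd : ‖x - x'‖ ≤ r := by
    have h4 : x - x' = ((1 - (1 - r) / ‖x‖ : ℝ) : ℂ) * x := by
      rw [hx']; push_cast; ring
    have h5 : 0 ≤ 1 - (1 - r) / ‖x‖ := by
      rw [sub_nonneg, div_le_one hx0]; exact hx1
    rw [h4, norm_mul, Complex.norm_real, Real.norm_of_nonneg h5]
    have h6 : (1 - (1 - r) / ‖x‖) * ‖x‖ = ‖x‖ - (1 - r) := by field_simp
    rw [h6]; linarith
  have h7 : ∑ η ∈ S.filter (fun η => ‖1 - (starRingEnd ℂ) η * x‖ ≤ r), (1 - ‖η‖ ^ 2) ≤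
      ∑ η ∈ S.filter (fun η => ‖1 - (starRingEnd ℂ) η * x‖ ≤ r), 4 * r * JJ x' η := by
    refine Finset.sum_le_sum fun η hη => ?_
    rw [Finset.mem_filter] at hη
    have hη1 := hS η hη.1
    have hV := V_basic hη1 (show ‖x'‖ < 1 by rw [hn']; linarith)
    have hV' : ‖1 - (starRingEnd ℂ) η * x'‖ ≤ 2 * r := by
      have h8 : 1 - (starRingEnd ℂ) η * x' =
          (1 - (starRingEnd ℂ) η * x) + (starRingEnd ℂ) η * (x - x') := by ring
      rw [h8]
      refine le_trans (norm_add_le _ _) ?_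
      rw [norm_mul, RCLike.norm_conj]
      have : ‖η‖ * ‖x - x'‖ ≤ 1 * r := by
        apply mul_le_mul hη1.le hd (norm_nonneg _) zero_le_one
      linarith [hη.2]
    have hN : 0 < 1 - ‖η‖ ^ 2 := hV.2.2.2.1
    unfold JJ
    rw [hn', ← mul_div_assoc, le_div_iff₀ (by have := hV.2.2.2.2; positivity)]
    have h9 : ‖1 - (starRingEnd ℂ) η * x'‖ ^ 2 ≤ (2 * r) ^ 2 :=
      pow_le_pow_left₀ (norm_nonneg _) hV' 2
    have h10 : r ≤ 1 - (1 - r) ^ 2 := by nlinarith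
    calc (1 - ‖η‖ ^ 2) * ‖1 - (starRingEnd ℂ) η * x'‖ ^ 2 ≤ (1 - ‖η‖ ^ 2) * (2 * r) ^ 2 := by
          gcongr
      _ = 4 * r * (r * (1 - ‖η‖ ^ 2)) := by ring
      _ ≤ 4 * r * ((1 - (1 - r) ^ 2) * (1 - ‖η‖ ^ 2)) := by gcongr
  refine le_trans h7 ?_
  rw [← Finset.mul_sum]
  have h11 : ∑ η ∈ S.filter (fun η => ‖1 - (starRingEnd ℂ) η * x‖ ≤ r), JJ x' η ≤
      ∑ η ∈ S, JJ x' η := by
    refine Finset.sum_le_sum_of_subset_of_nonneg (Finset.filter_subset _ _) ?_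
    intro η hη _
    exact J2_JJ_nonneg (by rw [hn']; linarith) (hS η hη)
  have h12 := hA x' (by rw [hn']; linarith)
  nlinarith

/-- PROOF. `sum_N`: for `V > r / 2`, `(N / V)² ≤ 2 (N / V) ≤ 4 N / r` as `N ≤ 2 V` (`V_basic`). -/
theorem sum_class {S : Finset ℂ} {A : ℝ} (hS : ∀ η ∈ S, ‖η‖ < 1)
    (hA : ∀ x : ℂ, ‖x‖ < 1 → ∑ η ∈ S, JJ x η ≤ A) {x : ℂ} (hx : ‖x‖ < 1) {r : ℝ} (hr : 0 < r) :
    ∑ η ∈ S.filter (fun η => r / 2 < ‖1 - (starRingEnd ℂ) η * x‖ ∧
        ‖1 - (starRingEnd ℂ) η * x‖ ≤ r),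
      ((1 - ‖η‖ ^ 2) / ‖1 - (starRingEnd ℂ) η * x‖) ^ 2 ≤ 16 * A := by
  have h1 := sum_N hS hA hx hr
  have h2 : ∑ η ∈ S.filter (fun η => r / 2 < ‖1 - (starRingEnd ℂ) η * x‖ ∧
        ‖1 - (starRingEnd ℂ) η * x‖ ≤ r),
      ((1 - ‖η‖ ^ 2) / ‖1 - (starRingEnd ℂ) η * x‖) ^ 2 ≤
      ∑ η ∈ S.filter (fun η => r / 2 < ‖1 - (starRingEnd ℂ) η * x‖ ∧
        ‖1 - (starRingEnd ℂ) η * x‖ ≤ r), 4 / r * (1 - ‖η‖ ^ 2) := by
    refine Finset.sum_le_sum fun η hη => ?_
    rw [Finset.mem_filter] at hη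
    obtain ⟨_, b2, _, b4, b5⟩ := V_basic (hS η hη.1) hx
    have h3 : (1 - ‖η‖ ^ 2) / ‖1 - (starRingEnd ℂ) η * x‖ ≤ 2 := by
      rw [div_le_iff₀ b5]; exact b2
    have h4 : (1 - ‖η‖ ^ 2) / ‖1 - (starRingEnd ℂ) η * x‖ ≤ 2 / r * (1 - ‖η‖ ^ 2) := by
      rw [div_le_iff₀ b5]
      have : 1 ≤ 2 / r * ‖1 - (starRingEnd ℂ) η * x‖ := by
        rw [div_mul_eq_mul_div, le_div_iff₀ hr]; linarith [hη.2.1]
      nlinarith
    have h5 : 0 ≤ (1 - ‖η‖ ^ 2) / ‖1 - (starRingEnd ℂ) η * x‖ := by positivity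
    calc ((1 - ‖η‖ ^ 2) / ‖1 - (starRingEnd ℂ) η * x‖) ^ 2
        = ((1 - ‖η‖ ^ 2) / ‖1 - (starRingEnd ℂ) η * x‖) *
          ((1 - ‖η‖ ^ 2) / ‖1 - (starRingEnd ℂ) η * x‖) := sq _
      _ ≤ 2 * (2 / r * (1 - ‖η‖ ^ 2)) := by gcongr
      _ = 4 / r * (1 - ‖η‖ ^ 2) := by ring
  refine le_trans h2 ?_
  rw [← Finset.mul_sum]
  have h6 : ∑ η ∈ S.filter (fun η => r / 2 < ‖1 - (starRingEnd ℂ) η * x‖ ∧
        ‖1 - (starRingEnd ℂ) η * x‖ ≤ r), (1 - ‖η‖ ^ 2) ≤
      ∑ η ∈ S.filter (fun η => ‖1 - (starRingEnd ℂ) η * x‖ ≤ r), (1 - ‖η‖ ^ 2) := by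
    refine Finset.sum_le_sum_of_subset_of_nonneg ?_ ?_
    · intro η hη
      rw [Finset.mem_filter] at hη ⊢
      exact ⟨hη.1, hη.2.2⟩
    · intro η hη _
      rw [Finset.mem_filter] at hη
      exact (V_basic (hS η hη.1) hx).2.2.2.1.le
  calc 4 / r * ∑ η ∈ S.filter (fun η => r / 2 < ‖1 - (starRingEnd ℂ) η * x‖ ∧
        ‖1 - (starRingEnd ℂ) η * x‖ ≤ r), (1 - ‖η‖ ^ 2) ≤ 4 / r * (4 * A * r) := by
        gcongr; exact h6.trans h1
    _ = 16 * A := by field_simp; ring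

/-- two geometric series -/
private theorem J2_sum_min {V R α : ℝ} (hV : 0 < V) (hR : 0 < R) (hα : 0 < α) :
    Summable (fun l : ℕ => (min (R / 2 ^ l / V) (V / (R / 2 ^ l))) ^ α) ∧
    ∑' l : ℕ, (min (R / 2 ^ l / V) (V / (R / 2 ^ l))) ^ α ≤ 2 / (1 - (1 / 2 : ℝ) ^ α) := by
  set q : ℝ := (1 / 2 : ℝ) ^ α with hq
  have hq0 : 0 < q := by positivity
  have hq1 : q < 1 := Real.rpow_lt_one (by norm_num) (by norm_num) hα
  have hqp : ∀ k : ℕ, ((1 / 2 : ℝ) ^ k) ^ α = q ^ k := by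
    intro k
    rw [hq, ← Real.rpow_natCast, ← Real.rpow_mul (by norm_num), mul_comm,
      Real.rpow_mul (by norm_num), Real.rpow_natCast]
  have hex : ∃ M : ℕ, R / V < 2 ^ M := pow_unbounded_of_one_lt _ (by norm_num)
  classical
  set M := Nat.find hex with hM
  have hM1 : R / V < 2 ^ M := Nat.find_spec hex
  have hM2 : ∀ l < M, 2 ^ l ≤ R / V := fun l hl => not_lt.1 (Nat.find_min hex hl)
  set f : ℕ → ℝ := fun l => (min (R / 2 ^ l / V) (V / (R / 2 ^ l))) ^ α with hf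
  have hf0 : ∀ l, 0 ≤ f l := fun l => by
    rw [hf]; positivity
  have h1 : ∀ l < M, f l ≤ q ^ (M - 1 - l) := by
    intro l hl
    rw [hf, ← hqp]
    refine Real.rpow_le_rpow (by positivity) ?_ hα.le
    refine le_trans (min_le_right _ _) ?_
    have h2 := hM2 (M - 1) (by omega)
    have h3 : (2 : ℝ) ^ (M - 1) = 2 ^ l * 2 ^ (M - 1 - l) := by
      rw [← pow_add]; congr 1; omega
    rw [h3, le_div_iff₀ hV] at h2
    rw [div_le_iff₀ (by positivity), one_div, inv_pow]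
    rw [← div_eq_inv_mul, div_div, le_div_iff₀ (by positivity)]
    calc V * (2 ^ l * 2 ^ (M - 1 - l)) = 2 ^ l * 2 ^ (M - 1 - l) * V := by ring
      _ ≤ R := h2
  have h2 : ∀ l, f (l + M) ≤ q ^ l := by
    intro l
    rw [hf, ← hqp]
    refine Real.rpow_le_rpow (by positivity) ?_ hα.le
    refine le_trans (min_le_left _ _) ?_
    rw [div_lt_iff₀ hV] at hM1
    rw [div_div, div_le_iff₀ (by positivity), one_div, inv_pow, pow_add]
    calc R ≤ 2 ^ M * V := hM1.le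
      _ = (2 ^ l)⁻¹ * (2 ^ l * 2 ^ M * V) := by field_simp
  have hs : Summable (fun l => f (l + M)) :=
    Summable.of_nonneg_of_le (fun l => hf0 _) h2 (summable_geometric_of_lt_one hq0.le hq1)
  have hs' : Summable f := (summable_nat_add_iff M).1 hs
  refine ⟨hs', ?_⟩
  have h3 : ∑' l, f l = ∑ l ∈ Finset.range M, f l + ∑' l, f (l + M) :=
    (Summable.sum_add_tsum_nat_add M hs').symm
  have h4 : ∑' l, f (l + M) ≤ (1 - q)⁻¹ := by
    rw [← tsum_geometric_of_lt_one hq0.le hq1]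
    exact Summable.tsum_le_tsum h2 hs (summable_geometric_of_lt_one hq0.le hq1)
  have h5 : ∑ l ∈ Finset.range M, f l ≤ (1 - q)⁻¹ := by
    calc ∑ l ∈ Finset.range M, f l ≤ ∑ l ∈ Finset.range M, q ^ (M - 1 - l) :=
          Finset.sum_le_sum fun l hl => h1 l (Finset.mem_range.1 hl)
      _ = ∑ l ∈ Finset.range M, q ^ l := Finset.sum_range_reflect (fun l => q ^ l) M
      _ ≤ ∑' l, q ^ l := (summable_geometric_of_lt_one hq0.le hq1).sum_le_tsum _
          (fun l _ => by positivity)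
      _ = (1 - q)⁻¹ := tsum_geometric_of_lt_one hq0.le hq1
  have h6 : ∑' l, f l ≤ (1 - q)⁻¹ + (1 - q)⁻¹ := by rw [h3]; linarith
  calc ∑' l, f l ≤ (1 - q)⁻¹ + (1 - q)⁻¹ := h6
    _ = 2 / (1 - q) := by rw [div_eq_mul_inv]; ring

/-- the weights in increasing order of `V` -/
private theorem J2_tele {ι : Type} (V a : ι → ℝ) (c' : ℝ) (hc : 0 < c')
    (ha : ∀ i, 0 ≤ a i) (s : Finset ι) :
    ∑ i ∈ s, a i * Real.exp (-c' * ∑ j ∈ s with V j ≤ V i, a j) ≤
      (1 - Real.exp (-c' * ∑ j ∈ s, a j)) / c' := by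
  classical
  induction s using Finset.induction_on_max_value V with
  | empty => simp
  | insert i s hi hmax ih =>
    rw [Finset.sum_insert hi, Finset.sum_insert hi]
    have h1 : ∑ x ∈ s, a x * Real.exp (-c' * ∑ j ∈ insert i s with V j ≤ V x, a j) ≤
        ∑ x ∈ s, a x * Real.exp (-c' * ∑ j ∈ s with V j ≤ V x, a j) := by
      refine Finset.sum_le_sum fun x _ => ?_
      refine mul_le_mul_of_nonneg_left (Real.exp_le_exp.2 ?_) (ha x)
      have h2 : ∑ j ∈ s with V j ≤ V x, a j ≤ ∑ j ∈ insert i s with V j ≤ V x, a j :=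
        Finset.sum_le_sum_of_subset_of_nonneg
          (Finset.filter_subset_filter _ (Finset.subset_insert _ _)) (fun j _ _ => ha j)
      nlinarith
    have h3 : ∑ j ∈ insert i s with V j ≤ V i, a j = a i + ∑ j ∈ s, a j := by
      rw [← Finset.sum_insert hi]
      refine Finset.sum_congr ?_ fun _ _ => rfl
      rw [Finset.filter_eq_self]
      intro j hj
      rcases Finset.mem_insert.1 hj with h | h
      · rw [h]
      · exact hmax j h
    rw [h3]
    set T := ∑ j ∈ s, a j with hT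
    have h4 : Real.exp (-c' * T) = Real.exp (c' * a i) * Real.exp (-c' * (a i + T)) := by
      rw [← Real.exp_add]; congr 1; ring
    have h5 : c' * a i + 1 ≤ Real.exp (c' * a i) := Real.add_one_le_exp _
    have h6 : 0 < Real.exp (-c' * (a i + T)) := Real.exp_pos _
    have h7 : a i * Real.exp (-c' * (a i + T)) + (1 - Real.exp (-c' * T)) / c' ≤
        (1 - Real.exp (-c' * (a i + T))) / c' := by
      rw [le_div_iff₀ hc, add_mul, div_mul_cancel₀ _ hc.ne', h4]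
      nlinarith
    linarith

/-- the total weight between `v / 2 ^ m` and `v` -/
private theorem J2_cnt {ι : Type} [Fintype ι] (V a : ι → ℝ) (A' : ℝ)
    (hA : ∀ r : ℝ, 0 < r → ∑ i with r / 2 < V i ∧ V i ≤ r, a i ≤ A')
    (ha : ∀ i, 0 ≤ a i) {v : ℝ} (hv : 0 < v) (m : ℕ) :
    ∑ i with V i ≤ v, a i ≤ ∑ i with V i ≤ v / 2 ^ m, a i + m * A' := by
  classical
  induction m with
  | zero => simp
  | succ m ih =>
    have h1 := hA (v / 2 ^ m) (by positivity)
    have h2 : ∑ i with V i ≤ v / 2 ^ m, a i ≤ ∑ i with V i ≤ v / 2 ^ (m + 1), a i +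
        ∑ i with v / 2 ^ m / 2 < V i ∧ V i ≤ v / 2 ^ m, a i := by
      rw [Finset.sum_filter, Finset.sum_filter, Finset.sum_filter, ← Finset.sum_add_distrib]
      refine Finset.sum_le_sum fun i _ => ?_
      have h3 : v / 2 ^ (m + 1) = v / 2 ^ m / 2 := by rw [pow_succ]; field_simp
      have := ha i
      rw [h3]
      by_cases h4 : V i ≤ v / 2 ^ m
      · by_cases h5 : V i ≤ v / 2 ^ m / 2
        · rw [if_pos h4, if_pos h5]
          split_ifs <;> linarith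
        · rw [if_pos h4, if_neg h5, if_pos ⟨not_le.1 h5, h4⟩]; linarith
      · rw [if_neg h4]
        split_ifs <;> linarith
    push_cast
    linarith

private theorem J2_key {ι : Type} [Fintype ι] (V a : ι → ℝ) (A' c' : ℝ)
    (hV : ∀ i, 0 < V i) (ha : ∀ i, 0 ≤ a i) (hc : 0 < c') (hcA : c' * A' ≤ 1 / 16)
    (hA : ∀ r : ℝ, 0 < r → ∑ i with r / 2 < V i ∧ V i ≤ r, a i ≤ A') {s : ℝ} (hs : 0 < s)
    (i : ι) :
    (min (s / V i) (V i / s)) ^ (1 / 4 : ℝ) * Real.exp (-c' * ∑ j with V j ≤ s / 4, a j) ≤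
      2 * Real.exp (-c' * ∑ j with V j ≤ V i, a j) *
        (min (s / V i) (V i / s)) ^ (1 / 8 : ℝ) := by
  have hVi := hV i
  set μ := min (s / V i) (V i / s) with hμ
  have hμ0 : 0 < μ := lt_min (by positivity) (by positivity)
  have hμ1 : μ ≤ 1 := by
    rcases le_total s (V i) with h | h
    · exact (min_le_left _ _).trans ((div_le_one hVi).2 h)
    · exact (min_le_right _ _).trans ((div_le_one hs).2 h)
  rcases le_or_gt (V i) (s / 4) with h | h
  · have h1 : ∑ j with V j ≤ V i, a j ≤ ∑ j with V j ≤ s / 4, a j := by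
      refine Finset.sum_le_sum_of_subset_of_nonneg ?_ (fun j _ _ => ha j)
      intro j hj
      simp only [Finset.mem_filter, Finset.mem_univ, true_and] at hj ⊢
      exact hj.trans h
    have h2 : Real.exp (-c' * ∑ j with V j ≤ s / 4, a j) ≤
        Real.exp (-c' * ∑ j with V j ≤ V i, a j) := by
      apply Real.exp_le_exp.2; nlinarith
    have h3 : μ ^ (1 / 4 : ℝ) ≤ μ ^ (1 / 8 : ℝ) :=
      Real.rpow_le_rpow_of_exponent_ge hμ0 hμ1 (by norm_num)
    have h4 : 0 < μ ^ (1 / 8 : ℝ) := by positivity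
    calc μ ^ (1 / 4 : ℝ) * Real.exp (-c' * ∑ j with V j ≤ s / 4, a j) ≤
          μ ^ (1 / 8 : ℝ) * Real.exp (-c' * ∑ j with V j ≤ V i, a j) := by gcongr
      _ ≤ 2 * Real.exp (-c' * ∑ j with V j ≤ V i, a j) * μ ^ (1 / 8 : ℝ) := by
          have := Real.exp_pos (-c' * ∑ j with V j ≤ V i, a j)
          nlinarith [mul_pos h4 this]
  · have hy : 1 ≤ V i / (s / 4) := by rw [le_div_iff₀ (by positivity)]; linarith
    obtain ⟨k, hk1, hk2⟩ := exists_nat_pow_near hy (by norm_num : (1 : ℝ) < 2)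
    have h1 := J2_cnt V a A' hA ha hVi (k + 1)
    have h2 : V i / 2 ^ (k + 1) ≤ s / 4 := by
      rw [div_le_iff₀ (by positivity)]
      rw [div_lt_iff₀ (by positivity)] at hk2
      linarith
    have h3 : ∑ j with V j ≤ V i / 2 ^ (k + 1), a j ≤ ∑ j with V j ≤ s / 4, a j := by
      refine Finset.sum_le_sum_of_subset_of_nonneg ?_ (fun j _ _ => ha j)
      intro j hj
      simp only [Finset.mem_filter, Finset.mem_univ, true_and] at hj ⊢
      exact hj.trans h2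
    have h4 : Real.exp (-c' * ∑ j with V j ≤ s / 4, a j) ≤
        Real.exp (-c' * ∑ j with V j ≤ V i, a j) * Real.exp (((k + 1 : ℕ) : ℝ) * (1 / 16)) := by
      rw [← Real.exp_add]
      apply Real.exp_le_exp.2
      have h5 : c' * (((k + 1 : ℕ) : ℝ) * A') ≤ ((k + 1 : ℕ) : ℝ) * (1 / 16) := by
        have : (0 : ℝ) ≤ ((k + 1 : ℕ) : ℝ) := by positivity
        nlinarith
      nlinarith
    have h6 : Real.exp (((k + 1 : ℕ) : ℝ) * (1 / 16)) ≤ 2 * (V i / s) ^ (1 / 8 : ℝ) := by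
      have h7 : (2 : ℝ) ^ (k + 1) ≤ 2 ^ 8 * (V i / s) := by
        rw [le_div_iff₀ (by positivity)] at hk1
        rw [pow_succ, mul_div_assoc', le_div_iff₀ hs]
        nlinarith
      have h8 : Real.exp (((k + 1 : ℕ) : ℝ) * (1 / 16)) ≤ ((2 : ℝ) ^ (k + 1)) ^ (1 / 8 : ℝ) := by
        rw [Real.rpow_def_of_pos (by positivity), Real.log_pow]
        apply Real.exp_le_exp.2
        have := Real.log_two_gt_d9
        have h9 : (0 : ℝ) ≤ ((k + 1 : ℕ) : ℝ) := by positivity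
        nlinarith
      refine h8.trans ?_
      refine (Real.rpow_le_rpow (by positivity) h7 (by norm_num)).trans (le_of_eq ?_)
      rw [Real.mul_rpow (by positivity) (by positivity)]
      congr 1
      rw [← Real.rpow_natCast, ← Real.rpow_mul (by norm_num)]
      norm_num
    have h10 : μ ^ (1 / 4 : ℝ) = μ ^ (1 / 8 : ℝ) * μ ^ (1 / 8 : ℝ) := by
      rw [← Real.rpow_add hμ0]; norm_num
    have h11 : μ ^ (1 / 8 : ℝ) * (V i / s) ^ (1 / 8 : ℝ) ≤ 1 := by
      rw [← Real.mul_rpow hμ0.le (by positivity)]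
      refine Real.rpow_le_one (by positivity) ?_ (by norm_num)
      calc μ * (V i / s) ≤ (s / V i) * (V i / s) := by gcongr; exact min_le_left _ _
        _ = 1 := by field_simp
    have h12 : 0 < μ ^ (1 / 8 : ℝ) := by positivity
    set E := Real.exp (-c' * ∑ j with V j ≤ V i, a j) with hE
    have hE0 : 0 < E := Real.exp_pos _
    calc μ ^ (1 / 4 : ℝ) * Real.exp (-c' * ∑ j with V j ≤ s / 4, a j)
        ≤ μ ^ (1 / 4 : ℝ) * (E * (2 * (V i / s) ^ (1 / 8 : ℝ))) := by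
          gcongr
          exact h4.trans (by gcongr)
      _ = 2 * E * μ ^ (1 / 8 : ℝ) * (μ ^ (1 / 8 : ℝ) * (V i / s) ^ (1 / 8 : ℝ)) := by
          rw [h10]; ring
      _ ≤ 2 * E * μ ^ (1 / 8 : ℝ) * 1 := by gcongr
      _ = 2 * E * μ ^ (1 / 8 : ℝ) := mul_one _

/-- The lemma of Jones.
`V : ι → ℝ` positive, at most `R₀`, with weights `a ≥ 0` and dyadic classes of total weight at most `A'`.
PROOF. Let `s_l = R / 2^l`, and let `k(i)` be the natural number with `R₀ / 2^(k+1) < V i ≤ R₀ / 2^k`;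
`M_k = ∑_(k(i) = k) a i ≤ A'`, `T_k = ∑_(j ≥ k) M_j` (finitely many non zero terms).
(1) For each `l` and `k`: `exp (-c' ∑_(V i ≤ s_l / 4) a i) ≤ exp (-c' T_k) exp (c' A' m)` where `m` is the number of
the classes `j ≥ k` which are not contained in `{V ≤ s_l / 4}`, `m ≤ 2 + (log₂ (R₀ 2^(-k) 4 / s_l))₊`. So
`exp (c' A' m) ≤ e^(3 c' A')· max(1, 4 R₀ 2^(-k) / s_l)^(c' A' / ln 2)`; with `c' A' ≤ 1 / 16` this is at most
`2 max (1, R₀ 2^(-k) / s_l)^(1/8) · 2`.
(2) For fixed `k`, `∑_l (min (s_l / V) (V / s_l))^(1/4) · max (1, R₀ 2^(-k) / s_l)^(1/8)` is bounded by an absolute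
constant, since `V` is comparable with `R₀ 2^(-k)`: two geometric series with the ratios `2^(-1/4)`, `2^(-1/8)`.
So the sum is at most `K₀ ∑_k M_k exp (-c' T_k)`.
(3) `T_k = T_(k+1) + M_k` and `exp (-c' T_(k+1)) - exp (-c' T_k) = exp (-c' T_k) (exp (c' M_k) - 1) ≥
c' M_k exp (-c' T_k)`; telescoping: `∑_k M_k exp (-c' T_k) ≤ 1 / c'`. -/
theorem jones : ∃ K₀ : ℝ, 0 < K₀ ∧ ∀ {ι : Type} [Fintype ι] (V a : ι → ℝ) (A' c' R : ℝ),
    (∀ i, 0 < V i) → (∀ i, 0 ≤ a i) → 0 < R → 0 < c' → c' * A' ≤ 1 / 16 →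
    (∀ r : ℝ, 0 < r → ∑ i with r / 2 < V i ∧ V i ≤ r, a i ≤ A') →
    Summable (fun l : ℕ => (∑ i, a i * (min (R / 2 ^ l / V i) (V i / (R / 2 ^ l))) ^ (1 / 4 : ℝ)) *
      Real.exp (-c' * ∑ i with V i ≤ R / 2 ^ l / 4, a i)) ∧
    ∑' l : ℕ, (∑ i, a i * (min (R / 2 ^ l / V i) (V i / (R / 2 ^ l))) ^ (1 / 4 : ℝ)) *
      Real.exp (-c' * ∑ i with V i ≤ R / 2 ^ l / 4, a i) ≤ K₀ / c' := by
  have hq1 : (1 / 2 : ℝ) ^ (1 / 8 : ℝ) < 1 :=
    Real.rpow_lt_one (by norm_num) (by norm_num) (by norm_num)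
  set K : ℝ := 2 / (1 - (1 / 2 : ℝ) ^ (1 / 8 : ℝ)) with hK
  have hK0 : 0 < K := div_pos two_pos (by linarith)
  refine ⟨2 * K, by positivity, ?_⟩
  intro ι _ V a A' c' R hV ha hR hc hcA hA
  set f : ℕ → ℝ := fun l => (∑ i, a i * (min (R / 2 ^ l / V i) (V i / (R / 2 ^ l))) ^ (1 / 4 : ℝ)) *
      Real.exp (-c' * ∑ i with V i ≤ R / 2 ^ l / 4, a i) with hf
  set g : ℕ → ℝ := fun l => ∑ i, (a i * (2 * Real.exp (-c' * ∑ j with V j ≤ V i, a j))) *
    (min (R / 2 ^ l / V i) (V i / (R / 2 ^ l))) ^ (1 / 8 : ℝ) with hg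
  have hmin : ∀ l i, 0 ≤ min (R / 2 ^ l / V i) (V i / (R / 2 ^ l)) := fun l i =>
    le_min (by have := hV i; positivity) (by have := hV i; positivity)
  have hf0 : ∀ l, 0 ≤ f l := fun l => by
    refine mul_nonneg (Finset.sum_nonneg fun i _ => mul_nonneg (ha i) ?_) (Real.exp_pos _).le
    exact Real.rpow_nonneg (hmin l i) _
  have hfg : ∀ l, f l ≤ g l := by
    intro l
    rw [hf, hg]
    simp only
    rw [Finset.sum_mul]
    refine Finset.sum_le_sum fun i _ => ?_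
    have h1 := J2_key V a A' c' hV ha hc hcA hA (s := R / 2 ^ l) (by positivity) i
    rw [mul_assoc, mul_assoc]
    exact mul_le_mul_of_nonneg_left h1 (ha i)
  have hgs : Summable g :=
    summable_sum fun i _ => (J2_sum_min (hV i) hR (by norm_num : (0 : ℝ) < 1 / 8)).1.mul_left _
  have hfs : Summable f := Summable.of_nonneg_of_le hf0 hfg hgs
  refine ⟨hfs, ?_⟩
  have h2 : ∑' l, g l ≤ ∑ i, (a i * (2 * Real.exp (-c' * ∑ j with V j ≤ V i, a j))) * K := by
    rw [hg, Summable.tsum_finsetSum fun i _ =>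
      (J2_sum_min (hV i) hR (by norm_num : (0 : ℝ) < 1 / 8)).1.mul_left _]
    refine Finset.sum_le_sum fun i _ => ?_
    rw [tsum_mul_left]
    have := ha i
    exact mul_le_mul_of_nonneg_left (J2_sum_min (hV i) hR (by norm_num)).2 (by positivity)
  have h3 := J2_tele V a c' hc ha Finset.univ
  have h4 : ∑ i, (a i * (2 * Real.exp (-c' * ∑ j with V j ≤ V i, a j))) * K =
      2 * K * ∑ i, a i * Real.exp (-c' * ∑ j with V j ≤ V i, a j) := by
    rw [Finset.mul_sum]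
    exact Finset.sum_congr rfl fun i _ => by ring
  calc ∑' l, f l ≤ ∑' l, g l := Summable.tsum_le_tsum hfg hfs hgs
    _ ≤ 2 * K * ∑ i, a i * Real.exp (-c' * ∑ j with V j ≤ V i, a j) := by rw [← h4]; exact h2
    _ ≤ 2 * K * ((1 - Real.exp (-c' * ∑ j, a j)) / c') := by gcongr
    _ ≤ 2 * K * (1 / c') := by
        gcongr
        linarith [Real.exp_pos (-c' * ∑ j, a j)]
    _ = 2 * K / c' := by ring

/-- PROOF. Two geometric series, for `2^(-l) R ≥ V` and `2^(-l) R < V`, each at most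
`1 / (1 - 2^(-1/4)) ≤ 7`. -/
theorem sum_min {V R : ℝ} (hV : 0 < V) (hR : 0 < R) :
    Summable (fun l : ℕ => (min (R / 2 ^ l / V) (V / (R / 2 ^ l))) ^ (1 / 4 : ℝ)) ∧
    ∑' l : ℕ, (min (R / 2 ^ l / V) (V / (R / 2 ^ l))) ^ (1 / 4 : ℝ) ≤ 14 := by
  obtain ⟨h1, h2⟩ := J2_sum_min hV hR (by norm_num : (0 : ℝ) < 1 / 4)
  refine ⟨h1, h2.trans ?_⟩
  have h3 : (1 / 2 : ℝ) ^ (1 / 4 : ℝ) ≤ 6 / 7 := by
    rw [← Real.rpow_le_rpow_iff (z := 4) (by positivity) (by norm_num) (by norm_num),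
      ← Real.rpow_mul (by norm_num)]
    norm_num
  rw [div_le_iff₀ (by linarith)]
  linarith

private theorem J2_one {S : Finset ℂ} {A : ℝ} (hS : ∀ η ∈ S, ‖η‖ < 1)
    (hA : ∀ x : ℂ, ‖x‖ < 1 → ∑ η ∈ S, JJ x η ≤ A) {x : ℂ} (hx : ‖x‖ < 1) {s c : ℝ}
    (hs : 0 < s) (hc : 0 < c) (hcs : c * s ≤ 1 - ‖x‖) :
    ∑ η ∈ S, kap s x η ≤
      16 * A * (2 / c) ^ (1 / 4 : ℝ) * (1 - (1 / 2 : ℝ) ^ (1 / 4 : ℝ))⁻¹ := by
  classical
  have hA0 := J2_A_nonneg hS hA
  set q : ℝ := (1 / 2 : ℝ) ^ (1 / 4 : ℝ) with hq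
  have hq0 : 0 < q := by positivity
  have hq1 : q < 1 := Real.rpow_lt_one (by norm_num) (by norm_num) (by norm_num)
  have hqp : ∀ k : ℕ, ((1 / 2 : ℝ) ^ k) ^ (1 / 4 : ℝ) = q ^ k := by
    intro k
    rw [hq, ← Real.rpow_natCast, ← Real.rpow_mul (by norm_num), mul_comm,
      Real.rpow_mul (by norm_num), Real.rpow_natCast]
  obtain ⟨J, hJ⟩ : ∃ J : ℕ, 2 / (c * s) < 2 ^ J := pow_unbounded_of_one_lt _ (by norm_num)
  rw [div_lt_iff₀ (by positivity)] at hJ
  have h1 : ∀ η ∈ S, kap s x η ≤ ∑ j ∈ Finset.range (J + 1),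
      (if 2 ^ j * (c * s) / 2 < ‖1 - (starRingEnd ℂ) η * x‖ ∧
          ‖1 - (starRingEnd ℂ) η * x‖ ≤ 2 ^ j * (c * s) then
        ((1 - ‖η‖ ^ 2) / ‖1 - (starRingEnd ℂ) η * x‖) ^ 2 else 0) *
        ((2 / c) ^ (1 / 4 : ℝ) * q ^ j) := by
    intro η hη
    obtain ⟨b1, b2, b3, b4, b5⟩ := V_basic (hS η hη) hx
    set V := ‖1 - (starRingEnd ℂ) η * x‖ with hV
    have hex : ∃ j : ℕ, V ≤ 2 ^ j * (c * s) := ⟨J, by linarith⟩
    set j := Nat.find hex with hj
    have hj1 : V ≤ 2 ^ j * (c * s) := Nat.find_spec hex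
    have hjJ : j ≤ J := Nat.find_min' hex (by linarith)
    have hj2 : 2 ^ j * (c * s) / 2 < V := by
      rcases Nat.eq_zero_or_pos j with h0 | h0
      · rw [h0]
        have : 0 < c * s := by positivity
        linarith
      · have h2 := Nat.find_min hex (Nat.sub_one_lt h0.ne')
        rw [not_le] at h2
        have h3 : (2 : ℝ) ^ j = 2 ^ (j - 1) * 2 := by
          rw [← pow_succ]; congr 1; omega
        rw [h3]
        calc 2 ^ (j - 1) * 2 * (c * s) / 2 = 2 ^ (j - 1) * (c * s) := by ring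
          _ < V := h2
    refine le_trans ?_ (Finset.single_le_sum (f := fun j : ℕ =>
      (if 2 ^ j * (c * s) / 2 < V ∧ V ≤ 2 ^ j * (c * s) then
        ((1 - ‖η‖ ^ 2) / V) ^ 2 else 0) * ((2 / c) ^ (1 / 4 : ℝ) * q ^ j)) ?_
      (Finset.mem_range.2 (Nat.lt_succ_of_le hjJ)))
    · rw [if_pos ⟨hj2, hj1⟩]
      unfold kap
      rw [← hV]
      refine mul_le_mul_of_nonneg_left ?_ (by positivity)
      rw [← hqp, ← Real.mul_rpow (by positivity) (by positivity)]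
      refine Real.rpow_le_rpow (by positivity) ?_ (by norm_num)
      rw [div_le_iff₀ b5]
      have h4 : 2 / c * (1 / 2) ^ j * (2 ^ j * (c * s) / 2) = s := by
        rw [one_div, inv_pow]; field_simp
      calc s = 2 / c * (1 / 2) ^ j * (2 ^ j * (c * s) / 2) := h4.symm
        _ ≤ 2 / c * (1 / 2) ^ j * V := by gcongr
    · intro i _
      refine mul_nonneg ?_ (by positivity)
      split_ifs
      · positivity
      · exact le_rfl
  calc ∑ η ∈ S, kap s x η ≤ ∑ η ∈ S, ∑ j ∈ Finset.range (J + 1),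
      (if 2 ^ j * (c * s) / 2 < ‖1 - (starRingEnd ℂ) η * x‖ ∧
          ‖1 - (starRingEnd ℂ) η * x‖ ≤ 2 ^ j * (c * s) then
        ((1 - ‖η‖ ^ 2) / ‖1 - (starRingEnd ℂ) η * x‖) ^ 2 else 0) *
        ((2 / c) ^ (1 / 4 : ℝ) * q ^ j) := Finset.sum_le_sum h1
    _ = ∑ j ∈ Finset.range (J + 1), (∑ η ∈ S.filter (fun η =>
          2 ^ j * (c * s) / 2 < ‖1 - (starRingEnd ℂ) η * x‖ ∧
          ‖1 - (starRingEnd ℂ) η * x‖ ≤ 2 ^ j * (c * s)),
        ((1 - ‖η‖ ^ 2) / ‖1 - (starRingEnd ℂ) η * x‖) ^ 2) *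
        ((2 / c) ^ (1 / 4 : ℝ) * q ^ j) := by
        rw [Finset.sum_comm]
        refine Finset.sum_congr rfl fun j _ => ?_
        rw [← Finset.sum_mul, Finset.sum_filter]
    _ ≤ ∑ j ∈ Finset.range (J + 1), 16 * A * ((2 / c) ^ (1 / 4 : ℝ) * q ^ j) := by
        refine Finset.sum_le_sum fun j _ => ?_
        refine mul_le_mul_of_nonneg_right ?_ (by positivity)
        exact sum_class hS hA hx (r := 2 ^ j * (c * s)) (by positivity)
    _ = 16 * A * (2 / c) ^ (1 / 4 : ℝ) * ∑ j ∈ Finset.range (J + 1), q ^ j := by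
        rw [Finset.mul_sum]
        exact Finset.sum_congr rfl fun j _ => by ring
    _ ≤ 16 * A * (2 / c) ^ (1 / 4 : ℝ) * (1 - q)⁻¹ := by
        gcongr
        rw [← tsum_geometric_of_lt_one hq0.le hq1]
        exact (summable_geometric_of_lt_one hq0.le hq1).sum_le_tsum _
          (fun l _ => by positivity)

/-- The potential is bounded.
PROOF. For each `r`: the sum over `η ∈ S r` of `kap (δ z) x η`, `x = q_r(z)`, `V ≥ 1 - |x| ≥ c δ z`. Dyadic classes
`V ∈ (ρ / 2, ρ]`, `ρ = 2^j c δ z`... (`j = 0, 1, ..`): `(s / V)^(1/4) ≤ (2 / (2^j c))^(1/4)`, and the sum of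
`(N / V)²` is at most `16 A` (`sum_class`). The sum over `j` converges. Then sum over the `P.R` values of `r`. -/
theorem Ene_le (n : ℕ) (c C A : ℝ) (R : ℕ) : ∃ C' : ℝ, 0 < C' ∧ ∀ (U : Set (Ec n))
    (δ : Ec n → ℝ) (h : Ec n → Ec n → Fin n → ℂ) (P : PD n), P.R = R → Geo U δ h c C →
    PG P U δ h c C A → ∀ z ∈ Om U δ, Ene P δ z ≤ C' := by
  set B : ℝ := 16 * A * (2 / c) ^ (1 / 4 : ℝ) * (1 - (1 / 2 : ℝ) ^ (1 / 4 : ℝ))⁻¹ with hB
  refine ⟨|(R : ℝ) * B| + 1, by positivity, ?_⟩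
  intro U δ h P hR hG hP z hz
  have h1 : Ene P δ z ≤ ∑ _r : Fin P.R, B := by
    refine Finset.sum_le_sum fun r _ => ?_
    have hlt := (hP.qm r).lt z hz.1 hz.2
    have hx : ‖P.q r z‖ < 1 := by
      have : 0 < c * δ z := mul_pos hG.c0 hz.2
      linarith
    exact J2_one (hP.sub r) (hP.carl r) hx hz.2 hG.c0 hlt
  rw [Finset.sum_const, Finset.card_univ, Fintype.card_fin, nsmul_eq_mul, hR] at h1
  linarith [le_abs_self ((R : ℝ) * B)]

/-- PROOF. `PG.triv`: the term with `q = 0`, `η = 0` is `kap (δ z) 0 0 = (δ z)^(1/4)`; the other terms are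
`≥ 0` (`kap_nonneg`). -/
theorem Ene_ge {n : ℕ} {U : Set (Ec n)} {δ : Ec n → ℝ} {h : Ec n → Ec n → Fin n → ℂ} {P : PD n}
    {c C A : ℝ} (hP : PG P U δ h c C A) {z : Ec n} (hz : z ∈ Om U δ) :
    (δ z) ^ (1 / 4 : ℝ) ≤ Ene P δ z := by
  obtain ⟨r, hr, h0⟩ := hP.triv
  have hδ : 0 < δ z := hz.2
  have h1 : (δ z) ^ (1 / 4 : ℝ) = kap (δ z) (P.q r z) 0 := by
    rw [hr z]; simp [kap]
  rw [h1]
  refine le_trans ?_ (Finset.single_le_sum (f := fun r => ∑ η ∈ P.S r, kap (δ z) (P.q r z) η)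
    (fun r _ => Finset.sum_nonneg fun η _ => kap_nonneg hδ.le _ _) (Finset.mem_univ r))
  exact Finset.single_le_sum (f := fun η => kap (δ z) (P.q r z) η)
    (fun η _ => kap_nonneg hδ.le _ _) h0

end Pool.Agent.MPca0fc2.FD
end

section

/-! The Levi form in coordinates, and on slices. -/

set_option autoImplicit false

open Metric Set MeasureTheory Filter Topology
open scoped ContDiff

namespace Pool.Agent.MPca0fc2.LV

open Pool.Agent.MPca0fc2.FD (Ec ee)
open Pool.Agent.Lib.MP_ca0fc2_an (leviForm)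

variable {n : ℕ}

private theorem A4_ev {ρ : Ec n → ℝ} {z : Ec n} (hρ : ContDiffAt ℝ 2 ρ z) :
    ∀ᶠ w in 𝓝 z, DifferentiableAt ℝ ρ w := by
  filter_upwards [hρ.eventually (by simp)] with w hw
  exact hw.differentiableAt (by norm_num)

private theorem A4_df {ρ : Ec n → ℝ} {z : Ec n} (hρ : ContDiffAt ℝ 2 ρ z) :
    DifferentiableAt ℝ (fderiv ℝ ρ) z :=
  (hρ.fderiv_right (m := 1) (by norm_num)).differentiableAt (by norm_num)

private theorem A4_sum (X : Ec n) :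
    X = ∑ j, ((X j).re • (ee j : Ec n) + (X j).im • (Complex.I • (ee j : Ec n))) := by
  have h1 : ∀ j, (X j).re • (ee j : Ec n) + (X j).im • (Complex.I • (ee j : Ec n)) =
      EuclideanSpace.single j (X j) := by
    intro j
    ext i
    by_cases h : i = j
    · subst h
      simp [ee]
    · simp [ee, h]
  simp_rw [h1]
  ext i
  simp

private theorem A4_sumI (X : Ec n) :
    Complex.I • X =
      ∑ j, ((X j).re • (Complex.I • (ee j : Ec n)) - (X j).im • (ee j : Ec n)) := by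
  conv_lhs => rw [A4_sum X]
  rw [Finset.smul_sum]
  refine Finset.sum_congr rfl fun j _ => ?_
  rw [smul_add, smul_comm Complex.I (X j).re, smul_comm Complex.I (X j).im, smul_smul Complex.I
    Complex.I, Complex.I_mul_I, neg_smul, one_smul, smul_neg, sub_eq_add_neg]

/-- The Levi form in coordinates.
PROOF. `X = ∑ X_k ee k`. Write `B = fderiv ℝ (fderiv ℝ φ) z`. `dr φ w j = (Dφ(ee j) - I Dφ(I ee j)) / 2`, and
`dk k` of it is `(1/4) (B(e_k, e_j) - I B(e_k, I e_j) + I B(I e_k, e_j) + B(I e_k, I e_j))`. Expand `B (X, X) + B (I X, I X)` with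
`X = ∑ (a_j + I b_j) e_j`, and compare real and imaginary parts; `B` is symmetric. (The sum on the right is real.) -/
theorem lev_coord {φ : Ec n → ℝ} {z : Ec n} (hφ : ContDiffAt ℝ 2 φ z) (X : Ec n) :
    (leviForm φ z X : ℂ) =
      ∑ j, ∑ k, dk k (fun w => dr φ w j) z * X j * (starRingEnd ℂ) (X k) := by
  set B := fderiv ℝ (fderiv ℝ φ) z with hB
  have hsym : ∀ u v : Ec n, B u v = B v u := by
    intro u v
    exact (hφ.isSymmSndFDerivAt (by simp)).eq u v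
  -- the derivative of the coefficients
  have hd : ∀ (j : Fin n) (v : Ec n), fderiv ℝ (fun w => dr φ w j) z v =
      ((B v (ee j) : ℂ) - Complex.I * (B v (Complex.I • ee j) : ℂ)) / 2 := by
    intro j v
    have h1 : ∀ y : Ec n, HasFDerivAt (fun w => ((fderiv ℝ φ w y : ℝ) : ℂ))
        (Complex.ofRealCLM.comp (B.flip y)) z := by
      intro y
      have h2 : HasFDerivAt (fun w => fderiv ℝ φ w y) (B.flip y) z := by
        have h3 := (A4_df hφ).hasFDerivAt.clm_apply (hasFDerivAt_const y z)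
        refine h3.congr_fderiv ?_
        ext u
        simp [hB]
      exact Complex.ofRealCLM.hasFDerivAt.comp z h2
    have h2 := ((h1 (ee j)).sub ((h1 (Complex.I • ee j)).const_smul Complex.I)).const_smul
      (2⁻¹ : ℂ)
    have h3 := h2.congr_of_eventuallyEq (f₁ := fun w => dr φ w j) (by
      filter_upwards with w
      simp only [dr, Pi.smul_apply, Pi.sub_apply, smul_eq_mul]
      ring)
    rw [h3.fderiv]
    simp
    ring
  -- the coefficients
  have hc : ∀ j k : Fin n, dk k (fun w => dr φ w j) z =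
      (((B (ee k) (ee j) + B (Complex.I • ee k) (Complex.I • ee j) : ℝ) : ℂ) +
        Complex.I * ((B (Complex.I • ee k) (ee j) - B (ee k) (Complex.I • ee j) : ℝ) : ℂ)) / 4 := by
    intro j k
    unfold dk
    rw [hd, hd]
    push_cast
    linear_combination (-(1 / 4 : ℂ) * (B (Complex.I • ee k) (Complex.I • ee j) : ℂ)) *
      Complex.I_mul_I
  -- the left side
  have hleft : leviForm φ z X = ∑ j, ∑ k, (((X k).re * (X j).re + (X k).im * (X j).im) *
      (B (ee k) (ee j) + B (Complex.I • ee k) (Complex.I • ee j)) +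
      ((X k).re * (X j).im - (X k).im * (X j).re) *
      (B (ee k) (Complex.I • ee j) - B (Complex.I • ee k) (ee j))) / 4 := by
    unfold leviForm
    rw [← hB]
    have e1 : B X X = ∑ j, ∑ k, ((X k).re * (X j).re * B (ee k) (ee j) +
        (X k).re * (X j).im * B (ee k) (Complex.I • ee j) +
        (X k).im * (X j).re * B (Complex.I • ee k) (ee j) +
        (X k).im * (X j).im * B (Complex.I • ee k) (Complex.I • ee j)) := by
      have e0 : ∀ Y : Ec n, B Y X = ∑ j, ((X j).re * B Y (ee j) +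
          (X j).im * B Y (Complex.I • ee j)) := by
        intro Y
        conv_lhs => rw [A4_sum X]
        simp only [map_sum, map_add, map_smul, smul_eq_mul]
      rw [e0]
      refine Finset.sum_congr rfl fun j _ => ?_
      have e2 : ∀ Y : Ec n, B X Y = ∑ k, ((X k).re * B (ee k) Y +
          (X k).im * B (Complex.I • ee k) Y) := by
        intro Y
        conv_lhs => rw [A4_sum X]
        simp only [map_sum, map_add, map_smul, sum_apply, add_apply,
          smul_apply, smul_eq_mul]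
      rw [e2, e2, Finset.mul_sum, Finset.mul_sum, ← Finset.sum_add_distrib]
      refine Finset.sum_congr rfl fun k _ => ?_
      ring
    have e2 : B (Complex.I • X) (Complex.I • X) = ∑ j, ∑ k,
        ((X k).re * (X j).re * B (Complex.I • ee k) (Complex.I • ee j) -
        (X k).re * (X j).im * B (Complex.I • ee k) (ee j) -
        (X k).im * (X j).re * B (ee k) (Complex.I • ee j) +
        (X k).im * (X j).im * B (ee k) (ee j)) := by
      have e0 : ∀ Y : Ec n, B Y (Complex.I • X) = ∑ j, ((X j).re * B Y (Complex.I • ee j) -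
          (X j).im * B Y (ee j)) := by
        intro Y
        conv_lhs => rw [A4_sumI X]
        simp only [map_sum, map_sub, map_smul, smul_eq_mul]
      rw [e0]
      refine Finset.sum_congr rfl fun j _ => ?_
      have e2 : ∀ Y : Ec n, B (Complex.I • X) Y = ∑ k, ((X k).re * B (Complex.I • ee k) Y -
          (X k).im * B (ee k) Y) := by
        intro Y
        conv_lhs => rw [A4_sumI X]
        simp only [map_sum, map_sub, map_smul, sum_apply, sub_apply,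
          smul_apply, smul_eq_mul]
      rw [e2, e2, Finset.mul_sum, Finset.mul_sum, ← Finset.sum_sub_distrib]
      refine Finset.sum_congr rfl fun k _ => ?_
      ring
    rw [e1, e2, ← Finset.sum_add_distrib, Finset.sum_div]
    refine Finset.sum_congr rfl fun j _ => ?_
    rw [← Finset.sum_add_distrib, Finset.sum_div]
    refine Finset.sum_congr rfl fun k _ => ?_
    ring
  have hterm : ∀ j k : Fin n, dk k (fun w => dr φ w j) z * X j * (starRingEnd ℂ) (X k) =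
      (((((X k).re * (X j).re + (X k).im * (X j).im) *
      (B (ee k) (ee j) + B (Complex.I • ee k) (Complex.I • ee j)) +
      ((X k).re * (X j).im - (X k).im * (X j).re) *
      (B (ee k) (Complex.I • ee j) - B (Complex.I • ee k) (ee j))) / 4 : ℝ) : ℂ) +
      Complex.I * (((((X j).im * (X k).re - (X j).re * (X k).im) *
      (B (ee k) (ee j) + B (Complex.I • ee k) (Complex.I • ee j)) +
      ((X j).re * (X k).re + (X j).im * (X k).im) *
      (B (Complex.I • ee k) (ee j) - B (ee k) (Complex.I • ee j))) / 4 : ℝ) : ℂ) := by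
    intro j k
    rw [hc]
    have hj : X j = ((X j).re : ℂ) + ((X j).im : ℂ) * Complex.I := (Complex.re_add_im _).symm
    have hk : (starRingEnd ℂ) (X k) = ((X k).re : ℂ) - ((X k).im : ℂ) * Complex.I := by
      apply Complex.ext <;> simp
    rw [hk]
    conv_lhs => rw [hj]
    generalize (X j).re = a
    generalize (X j).im = b
    generalize (X k).re = c
    generalize (X k).im = d
    generalize B (ee k) (ee j) = p
    generalize B (Complex.I • ee k) (Complex.I • ee j) = q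
    generalize B (Complex.I • ee k) (ee j) = r
    generalize B (ee k) (Complex.I • ee j) = s
    apply Complex.ext
    · simp
      ring
    · simp
      ring
  simp_rw [hterm]
  rw [hleft]
  simp_rw [Finset.sum_add_distrib]
  have himag : ∑ j, ∑ k, Complex.I * (((((X j).im * (X k).re - (X j).re * (X k).im) *
      (B (ee k) (ee j) + B (Complex.I • ee k) (Complex.I • ee j)) +
      ((X j).re * (X k).re + (X j).im * (X k).im) *
      (B (Complex.I • ee k) (ee j) - B (ee k) (Complex.I • ee j))) / 4 : ℝ) : ℂ) = 0 := by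
    have e1 : ∀ S : ℂ, S = -S → S = 0 := by
      intro S h
      have h2 : 2 * S = 0 := by linear_combination h
      simpa using h2
    apply e1
    conv_lhs => rw [Finset.sum_comm]
    rw [← Finset.sum_neg_distrib]
    refine Finset.sum_congr rfl fun j _ => ?_
    rw [← Finset.sum_neg_distrib]
    refine Finset.sum_congr rfl fun k _ => ?_
    rw [← mul_neg, ← Complex.ofReal_neg]
    congr 2
    rw [hsym (ee j) (ee k), hsym (Complex.I • ee j) (Complex.I • ee k),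
      hsym (Complex.I • ee j) (ee k), hsym (ee j) (Complex.I • ee k)]
    ring
  rw [himag, add_zero]
  push_cast
  rfl

/-- PROOF. `cE a` is affine with linear part `X ↦ cE 0 X`, which commutes with the multiplication by `I`; chain rule
for the second derivative. -/
theorem lev_slice {ψ : Ec (n + 1) → ℝ} (a : ℂ) {w : Ec n} (hψ : ContDiffAt ℝ 2 ψ (cE a w)) (X : Ec n) :
    leviForm (fun y => ψ (cE a y)) w X = leviForm ψ (cE a w) (cE 0 X) := by
  -- the linear part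
  let L : Ec n →L[ℝ] Ec (n + 1) := LinearMap.toContinuousLinearMap
    { toFun := fun y => cE 0 y
      map_add' := by
        intro x y
        ext i
        refine Fin.cases ?_ (fun i => ?_) i <;> simp [cE]
      map_smul' := by
        intro c x
        ext i
        refine Fin.cases ?_ (fun i => ?_) i <;> simp [cE] }
  have hL : ∀ y, L y = cE 0 y := fun y => rfl
  have hLI : ∀ y, L (Complex.I • y) = Complex.I • L y := by
    intro y
    rw [hL, hL]
    ext i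
    refine Fin.cases ?_ (fun i => ?_) i <;> simp [cE]
  have hcE : ∀ y, cE a y = cE a 0 + L y := by
    intro y
    rw [hL]
    ext i
    refine Fin.cases ?_ (fun i => ?_) i <;> simp [cE]
  have hd0 : ∀ y, HasFDerivAt (fun y : Ec n => cE a y) L y := by
    intro y
    have h1 : (fun y : Ec n => cE a y) = fun y => cE a 0 + L y := funext hcE
    rw [h1]
    exact L.hasFDerivAt.const_add (cE a 0)
  have hev : ∀ᶠ y in 𝓝 w, DifferentiableAt ℝ ψ (cE a y) :=
    (hd0 w).continuousAt.eventually (A4_ev hψ)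
  have h1 : fderiv ℝ (fun y => ψ (cE a y)) =ᶠ[𝓝 w] fun y => (fderiv ℝ ψ (cE a y)).comp L := by
    filter_upwards [hev] with y hy
    exact (hy.hasFDerivAt.comp y (hd0 y)).fderiv
  have h2 : HasFDerivAt (fun y => fderiv ℝ ψ (cE a y))
      ((fderiv ℝ (fderiv ℝ ψ) (cE a w)).comp L) w :=
    (A4_df hψ).hasFDerivAt.comp w (hd0 w)
  have h3 : ∀ X Y : Ec n, fderiv ℝ (fderiv ℝ fun y => ψ (cE a y)) w X Y =
      fderiv ℝ (fderiv ℝ ψ) (cE a w) (L X) (L Y) := by
    intro X Y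
    rw [h1.fderiv_eq]
    have h4 := h2.clm_comp (hasFDerivAt_const L w)
    rw [h4.fderiv]
    simp
  unfold leviForm
  rw [h3, h3, hLI, hL]

end Pool.Agent.MPca0fc2.LV
end

section

/-! Slices. -/

set_option autoImplicit false

open Metric Set MeasureTheory Filter Topology
open scoped ContDiff

namespace Pool.Agent.MPca0fc2.LV

open Pool.Agent.MPca0fc2.FD (Ec ee)

variable {n : ℕ}

/-- PROOF. Coordinates. -/
theorem cE_tl (z : Ec (n + 1)) : cE (z 0) (tl z) = z := by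
  ext i
  refine Fin.cases ?_ (fun j => ?_) i
  · simp [cE]
  · simp [cE, tl]

/-- PROOF. Coordinates. -/
theorem tl_cE (a : ℂ) (w : Ec n) : tl (cE a w) = w ∧ (cE a w) 0 = a ∧ ∀ i : Fin n, (cE a w) i.succ = w i := by
  refine ⟨?_, ?_, fun i => ?_⟩
  · ext i
    simp [cE, tl]
  · simp [cE]
  · simp [cE]

/-- The linear part of `cE a`. -/
private noncomputable def G1_L (n : ℕ) : Ec n →L[ℂ] Ec (n + 1) :=
  LinearMap.toContinuousLinearMap
    { toFun := fun w => cE 0 w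
      map_add' := fun x y => by
        ext i
        refine Fin.cases ?_ (fun j => ?_) i
        · simp [cE]
        · simp [cE]
      map_smul' := fun c x => by
        ext i
        refine Fin.cases ?_ (fun j => ?_) i
        · simp [cE]
        · simp [cE] }

private theorem G1_L_apply (w : Ec n) : G1_L n w = cE 0 w := rfl

private theorem G1_cE (a : ℂ) (w : Ec n) : cE a w = cE a 0 + G1_L n w := by
  rw [G1_L_apply]
  ext i
  refine Fin.cases ?_ (fun j => ?_) i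
  · simp [cE]
  · simp [cE]

/-- The linear map `tl`. -/
private noncomputable def G1_T (n : ℕ) : Ec (n + 1) →L[ℂ] Ec n :=
  LinearMap.toContinuousLinearMap
    { toFun := fun z => tl z
      map_add' := fun x y => by
        ext i
        simp [tl]
      map_smul' := fun c x => by
        ext i
        simp [tl] }

private theorem G1_T_apply (z : Ec (n + 1)) : G1_T n z = tl z := rfl

/-- PROOF. Coordinates, affine maps. -/
theorem cE_diff (a : ℂ) : Differentiable ℂ (fun w : Ec n => cE a w) ∧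
    ContDiff ℝ ∞ (fun w : Ec n => cE a w) := by
  have h : (fun w : Ec n => cE a w) = fun w => cE a 0 + G1_L n w := by
    funext w
    exact G1_cE a w
  rw [h]
  constructor
  · exact (G1_L n).differentiable.const_add _
  · exact contDiff_const.add ((G1_L n).restrictScalars ℝ).contDiff

/-- PROOF. A linear map. -/
theorem tl_diff : Differentiable ℂ (fun z : Ec (n + 1) => tl z) ∧
    ContDiff ℝ ∞ (fun z : Ec (n + 1) => tl z) := by
  have h : (fun z : Ec (n + 1) => tl z) = fun z => G1_T n z := by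
    funext z
    rfl
  rw [h]
  constructor
  · exact (G1_T n).differentiable
  · exact ((G1_T n).restrictScalars ℝ).contDiff

/-- A slice of a set with a strictly plurisubharmonic exhaustion function.
PROOF. `ψ ∘ cE a`. The sublevel sets are compact: closed subsets (preimages under the closed embedding `cE a`) of compact sets.
`lev_slice`, `cE 0 X ≠ 0` if `X ≠ 0`. -/
theorem psh_slice {Ω : Set (Ec (n + 1))} (hΩ : PshEx Ω) (a : ℂ) : PshEx {w : Ec n | cE a w ∈ Ω} := by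
  obtain ⟨ψ, hψ⟩ := hΩ
  have hc : Continuous (fun w : Ec n => cE a w) := (cE_diff a).2.continuous
  have ht : Continuous (fun z : Ec (n + 1) => tl z) := tl_diff.2.continuous
  have hemb : IsClosedEmbedding (fun w : Ec n => cE a w) :=
    Function.LeftInverse.isClosedEmbedding (f := fun z : Ec (n + 1) => tl z)
      (fun w => (tl_cE a w).1) ht hc
  refine ⟨fun w => ψ (cE a w), hψ.opn.preimage hc, ?_, ?_, ?_⟩
  · exact hψ.sm.comp (cE_diff a).2.contDiffOn (fun w hw => hw)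
  · intro c
    exact hemb.isCompact_preimage (hψ.cpt c)
  · intro w hw X hX
    have hat : ContDiffAt ℝ 2 ψ (cE a w) :=
      (hψ.sm.contDiffAt (hψ.opn.mem_nhds hw)).of_le
        (by exact WithTop.coe_le_coe.2 (le_top : (2 : ℕ∞) ≤ ⊤))
    rw [lev_slice a hat X]
    apply hψ.psh _ hw
    intro h0
    apply hX
    have h1 : tl (cE 0 X) = X := (tl_cE 0 X).1
    rw [← h1, h0]
    ext i
    simp [tl]

end Pool.Agent.MPca0fc2.LV
end
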