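import Pool.Agent.Lib.MP_ca0fc2_an.FD.Q1
import Pool.Agent.Lib.MP_ca0fc2_an.Mg.G046
import Pool.Agent.Lib.MP_ca0fc2_an.GW.V1
import Pool.Agent.Lib.MP_ca0fc2_an.Mg.G045

section

/-! Small anisotropic neighbourhoods of the points of a strictly pseudoconvex domain. -/

set_option autoImplicit false

open Metric Set MeasureTheory Filter Topology

namespace Pool.Agent.MPca0fc2.BE

open Pool.Agent.MPca0fc2.FD

variable {n : ℕ}

/-- the vectors `X` with `‖X‖² < t δ z` and `|∂δ(z) X| < t δ z` -/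
def Ez (δ : Ec n → ℝ) (h : Ec n → Ec n → Fin n → ℂ) (t : ℝ) (z : Ec n) : Set (Ec n) :=
  {X | ‖X‖ ^ 2 < t * δ z ∧ ‖∑ k, h z z k * X k‖ < t * δ z}

theorem Ez_open (δ : Ec n → ℝ) (h : Ec n → Ec n → Fin n → ℂ) (t : ℝ) (z : Ec n) :
    IsOpen (Ez δ h t z) := by
  have h1 : Continuous fun X : Ec n => ‖X‖ ^ 2 := by fun_prop
  have h2 : Continuous fun X : Ec n => ‖∑ k, h z z k * X k‖ := by fun_prop
  exact (isOpen_lt h1 continuous_const).inter (isOpen_lt h2 continuous_const)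

theorem Ez_bdd (δ : Ec n → ℝ) (h : Ec n → Ec n → Fin n → ℂ) (t : ℝ) (z : Ec n) :
    Bornology.IsBounded (Ez δ h t z) := by
  refine (isBounded_ball (x := (0 : Ec n)) (r := |t * δ z| + 1)).subset fun X hX => ?_
  rw [mem_ball_zero_iff]
  have h1 := hX.1
  have h2 := le_abs_self (t * δ z)
  have h3 := abs_nonneg (t * δ z)
  nlinarith [norm_nonneg X]

theorem Ez_bal {δ : Ec n → ℝ} {h : Ec n → Ec n → Fin n → ℂ} {t : ℝ} {z X : Ec n}
    (hX : X ∈ Ez δ h t z) {u : ℂ} (hu : ‖u‖ ≤ 1) : u • X ∈ Ez δ h t z := by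
  have h1 : ∑ k, h z z k * (u • X) k = u * ∑ k, h z z k * X k := by
    rw [Finset.mul_sum]
    refine Finset.sum_congr rfl fun k _ => ?_
    show h z z k * (u • X k) = _
    rw [smul_eq_mul]
    ring
  constructor
  · refine lt_of_le_of_lt ?_ hX.1
    rw [norm_smul]
    refine pow_le_pow_left₀ (by positivity) ?_ 2
    exact mul_le_of_le_one_left (norm_nonneg _) hu
  · rw [h1, norm_mul]
    exact (mul_le_of_le_one_left (norm_nonneg _) hu).trans_lt hX.2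

end Pool.Agent.MPca0fc2.BE
end

section

/-! The support function near the diagonal. -/

set_option autoImplicit false

open Metric Set MeasureTheory Filter Topology

namespace Pool.Agent.MPca0fc2.BE

open Pool.Agent.MPca0fc2.FD

variable {n : ℕ} {U : Set (Ec n)} {δ : Ec n → ℝ} {h : Ec n → Ec n → Fin n → ℂ} {c C : ℝ}

/-- `δ` is Lipschitz near the points of the domain -/
private theorem N_dlip (hg : Geo U δ h c C) {w x : Ec n} (hw : w ∈ Om U δ) (hx : x ∈ ball w c) :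
    |δ x - δ w| ≤ 2 * n * C * ‖x - w‖ := by
  have hC0 : 0 ≤ C := zero_le_one.trans hg.C1
  have hsub : ball w c ⊆ U := hg.nb w hw.1 hw.2
  have hwb : w ∈ ball w c := mem_ball_self hg.c0
  have hdiff : ∀ a ∈ ball w c, DifferentiableAt ℝ δ a := fun a ha =>
    (hg.dδ.differentiableOn (by norm_num)).differentiableAt (hg.opn.mem_nhds (hsub ha))
  have hbound : ∀ a ∈ ball w c, ‖fderiv ℝ δ a‖ ≤ 2 * n * C := by
    intro a ha
    refine ContinuousLinearMap.opNorm_le_bound _ (by positivity) ?_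
    intro X
    rw [hg.grad a (hsub ha) X, Real.norm_eq_abs, abs_mul, abs_neg, abs_two]
    have h1 := lin_le (h a a) X
    have h2 := hg.bh a (hsub ha) a (hsub ha)
    have h3 : |(∑ k, h a a k * X k).re| ≤ n * C * ‖X‖ := by
      refine (Complex.abs_re_le_norm _).trans (h1.trans ?_)
      exact mul_le_mul_of_nonneg_right (mul_le_mul_of_nonneg_left h2 (Nat.cast_nonneg n))
        (norm_nonneg X)
    calc 2 * |(∑ k, h a a k * X k).re| ≤ 2 * (n * C * ‖X‖) := by linarith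
      _ = 2 * n * C * ‖X‖ := by ring
  exact (convex_ball w c).norm_image_sub_le_of_norm_fderiv_le hdiff hbound hwb hx

/-- `h z` is Lipschitz near the points of the domain -/
private theorem N_hlip (hg : Geo U δ h c C) {z w x : Ec n} (hz : z ∈ U) (hw : w ∈ Om U δ)
    (hx : x ∈ ball w c) : ‖h z x - h z w‖ ≤ C * ‖x - w‖ := by
  have hsub : ball w c ⊆ U := hg.nb w hw.1 hw.2
  have hwb : w ∈ ball w c := mem_ball_self hg.c0
  have hconv : Convex ℝ ({z} ×ˢ ball w c : Set (Ec n × Ec n)) :=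
    (convex_singleton z).prod (convex_ball w c)
  have hopn : IsOpen (U ×ˢ U : Set (Ec n × Ec n)) := hg.opn.prod hg.opn
  have hin : ∀ p ∈ ({z} ×ˢ ball w c : Set (Ec n × Ec n)), p.1 ∈ U ∧ p.2 ∈ U := by
    intro p hp
    have h1 : p.1 = z := hp.1
    exact ⟨by rw [h1]; exact hz, hsub hp.2⟩
  have hdiff : ∀ p ∈ ({z} ×ˢ ball w c : Set (Ec n × Ec n)),
      DifferentiableAt ℝ (fun p : Ec n × Ec n => h p.1 p.2) p := by
    intro p hp
    exact (hg.dh.differentiableOn (by norm_num)).differentiableAt (hopn.mem_nhds (hin p hp))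
  have h1 := hconv.norm_image_sub_le_of_norm_fderiv_le (𝕜 := ℝ) (C := C) hdiff
    (fun p hp => by
      have := hg.bdh p.1 (hin p hp).1 p.2 (hin p hp).2
      exact this)
    (x := (z, w)) (y := (z, x)) ⟨mem_singleton z, hwb⟩ ⟨mem_singleton z, hx⟩
  have h2 : ‖((z, x) : Ec n × Ec n) - (z, w)‖ = ‖x - w‖ := by
    rw [Prod.mk_sub_mk, Prod.norm_mk, sub_self, norm_zero, max_eq_right (norm_nonneg _)]
  rw [h2] at h1
  exact h1

/-- The second variable of the support function.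
PROOF. `vv δ h z ζ = δ ζ + ∑ h z ζ k (ζ k - z k)` (`FD/Defs.lean`). `ball w c ⊆ U` (`Geo.nb`) is convex; the derivatives of
`δ` (`Geo.grad`, `Geo.bh`) and of `h` (`Geo.bdh`) are bounded there, `‖h z ζ‖ ≤ C`, `‖z‖, ‖ζ‖ ≤ C`; mean value theorem
(`Convex.norm_image_sub_le_of_norm_fderiv_le`), as `Q1_hlip` and `δ_taylor` in `FD/Q1.lean`. -/
theorem vv_lip (hg : Geo U δ h c C) : ∃ K > 0, ∀ z ∈ U, ∀ w ∈ Om U δ, ∀ x : Ec n, ‖x - w‖ < c →
    x ∈ U ∧ |δ x - δ w| ≤ K * ‖x - w‖ ∧ ‖vv δ h z x - vv δ h z w‖ ≤ K * ‖x - w‖ := by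
  have hC0 : 0 ≤ C := zero_le_one.trans hg.C1
  refine ⟨3 * n * C + 2 * n * C ^ 2 + 1, by positivity, ?_⟩
  intro z hz w hw x hxw
  have hsub : ball w c ⊆ U := hg.nb w hw.1 hw.2
  have hx : x ∈ ball w c := by rwa [mem_ball, dist_eq_norm]
  have hxU : x ∈ U := hsub hx
  have h1 := N_dlip hg hw hx
  have h2 := N_hlip hg hz hw hx
  have hn : 0 ≤ ‖x - w‖ := norm_nonneg _
  refine ⟨hxU, ?_, ?_⟩
  · refine h1.trans (mul_le_mul_of_nonneg_right ?_ hn)
    have h3 : 0 ≤ (n : ℝ) * C := by positivity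
    have h4 : 0 ≤ (n : ℝ) * C ^ 2 := by positivity
    linarith
  · have e1 : vv δ h z x - vv δ h z w = ((δ x - δ w : ℝ) : ℂ) + ∑ k, h z x k * (x - w) k +
        ∑ k, (h z x - h z w) k * (w - z) k := by
      unfold vv
      have e2 : ∑ k, h z x k * (x k - z k) - ∑ k, h z w k * (w k - z k) =
          ∑ k, h z x k * (x - w) k + ∑ k, (h z x - h z w) k * (w - z) k := by
        rw [← Finset.sum_sub_distrib, ← Finset.sum_add_distrib]
        refine Finset.sum_congr rfl fun k _ => ?_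
        rw [Pi.sub_apply, PiLp.sub_apply, PiLp.sub_apply]
        ring
      rw [add_assoc, ← e2]
      push_cast
      ring
    have h3 : ‖∑ k, h z x k * (x - w) k‖ ≤ n * C * ‖x - w‖ := by
      refine (lin_le (h z x) (x - w)).trans ?_
      exact mul_le_mul_of_nonneg_right (mul_le_mul_of_nonneg_left (hg.bh z hz x hxU)
        (Nat.cast_nonneg n)) hn
    have h4 : ‖∑ k, (h z x - h z w) k * (w - z) k‖ ≤ 2 * n * C ^ 2 * ‖x - w‖ := by
      refine (lin_le (h z x - h z w) (w - z)).trans ?_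
      have h5 : ‖w - z‖ ≤ 2 * C := by
        refine (norm_sub_le _ _).trans ?_
        have := hg.bz w hw.1
        have := hg.bz z hz
        linarith
      calc n * ‖h z x - h z w‖ * ‖w - z‖ ≤ n * (C * ‖x - w‖) * (2 * C) :=
            mul_le_mul (mul_le_mul_of_nonneg_left h2 (Nat.cast_nonneg n)) h5 (norm_nonneg _)
              (by positivity)
        _ = 2 * n * C ^ 2 * ‖x - w‖ := by ring
    have h5 : ‖((δ x - δ w : ℝ) : ℂ)‖ ≤ 2 * n * C * ‖x - w‖ := by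
      rw [Complex.norm_real, Real.norm_eq_abs]
      exact h1
    rw [e1]
    refine (norm_add₃_le).trans ?_
    calc _ ≤ 2 * n * C * ‖x - w‖ + n * C * ‖x - w‖ + 2 * n * C ^ 2 * ‖x - w‖ :=
          add_le_add (add_le_add h5 h3) h4
      _ ≤ (3 * n * C + 2 * n * C ^ 2 + 1) * ‖x - w‖ := by linarith

/-- PROOF. `δ z ≤ C` (`Geo.bδ`). `δ_taylor`: with `K₀` and `‖X‖ < c` (if `t₀ C ≤ c²`):
`|δ (z + X) - δ z| ≤ 2 ‖∑ h z z k X k‖ + K₀ ‖X‖² ≤ (2 + K₀) t₀ δ z ≤ δ z / 2`. And `vv δ h z (z + X) = δ (z + X) +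
∑ h z z k X k + ∑ (h z (z + X) k - h z z k) X k`; the last sum is at most `K₁ ‖X‖²` (`Geo.bdh`, mean value theorem on
`ball z c ⊆ U`). -/
theorem near_E (hg : Geo U δ h c C) : ∃ t₀ K : ℝ, 0 < t₀ ∧ 0 < K ∧ ∀ z ∈ Om U δ,
    ∀ X ∈ Ez δ h t₀ z, z + X ∈ Om U δ ∧ δ z / 2 ≤ δ (z + X) ∧ δ (z + X) ≤ 2 * δ z ∧
      ‖vv δ h z (z + X)‖ ≤ K * δ z := by
  obtain ⟨K₀, hK₀, hT⟩ := δ_taylor n c C
  have hc := hg.c0
  have hC : 0 < C := zero_lt_one.trans_le hg.C1
  set t₀ : ℝ := min (1 / (2 * (2 + K₀))) (c ^ 2 / C) with ht₀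
  have ht₀0 : 0 < t₀ := lt_min (by positivity) (by positivity)
  have ht₀a : t₀ * (2 + K₀) ≤ 1 / 2 := by
    have h1 : t₀ ≤ 1 / (2 * (2 + K₀)) := min_le_left _ _
    rw [le_div_iff₀ (by positivity)] at h1
    linarith
  have ht₀b : t₀ * C ≤ c ^ 2 := by
    have h1 : t₀ ≤ c ^ 2 / C := min_le_right _ _
    rwa [le_div_iff₀ hC] at h1
  refine ⟨t₀, 2 + t₀ + n * C * t₀, ht₀0, by positivity, ?_⟩
  intro z hz X hX
  have hδz : 0 < δ z := hz.2
  have hX1 : ‖X‖ ^ 2 < t₀ * δ z := hX.1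
  have hX2 : ‖∑ k, h z z k * X k‖ < t₀ * δ z := hX.2
  have hXc : ‖X‖ < c := by
    refine lt_of_pow_lt_pow_left₀ 2 hc.le (hX1.trans_le ?_)
    exact (mul_le_mul_of_nonneg_left (hg.bδ z hz.1) ht₀0.le).trans ht₀b
  obtain ⟨hU, hδ⟩ := hT U δ h hg z hz X hXc
  have h1 := abs_le.mp hδ
  have h2 := abs_le.mp ((Complex.abs_re_le_norm (∑ k, h z z k * X k)).trans hX2.le)
  have h3 : K₀ * ‖X‖ ^ 2 ≤ K₀ * (t₀ * δ z) := mul_le_mul_of_nonneg_left hX1.le hK₀.le
  have h4 : t₀ * (2 + K₀) * δ z ≤ 1 / 2 * δ z := mul_le_mul_of_nonneg_right ht₀a hδz.le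
  have h5 : δ z / 2 ≤ δ (z + X) := by nlinarith [h1.1, h2.2]
  have h6 : δ (z + X) ≤ 2 * δ z := by nlinarith [h1.2, h2.1]
  refine ⟨⟨hU, by linarith⟩, h5, h6, ?_⟩
  have hzX : z + X ∈ ball z c := by
    rw [mem_ball, dist_eq_norm, add_sub_cancel_left]
    exact hXc
  have h7 := N_hlip hg hz.1 hz hzX
  rw [add_sub_cancel_left] at h7
  have e1 : vv δ h z (z + X) = (δ (z + X) : ℂ) + ∑ k, h z z k * X k +
      ∑ k, (h z (z + X) - h z z) k * X k := by
    unfold vv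
    rw [add_assoc, ← Finset.sum_add_distrib]
    congr 1
    refine Finset.sum_congr rfl fun k _ => ?_
    rw [Pi.sub_apply, PiLp.add_apply]
    ring
  have h8 : ‖∑ k, (h z (z + X) - h z z) k * X k‖ ≤ n * C * t₀ * δ z := by
    refine (lin_le (h z (z + X) - h z z) X).trans ?_
    calc n * ‖h z (z + X) - h z z‖ * ‖X‖ ≤ n * (C * ‖X‖) * ‖X‖ :=
          mul_le_mul_of_nonneg_right (mul_le_mul_of_nonneg_left h7 (Nat.cast_nonneg n))
            (norm_nonneg X)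
      _ = n * C * ‖X‖ ^ 2 := by ring
      _ ≤ n * C * (t₀ * δ z) := mul_le_mul_of_nonneg_left hX1.le (by positivity)
      _ = n * C * t₀ * δ z := by ring
  have h9 : ‖(δ (z + X) : ℂ)‖ ≤ 2 * δ z := by
    rw [Complex.norm_real, Real.norm_eq_abs, abs_of_nonneg (by linarith)]
    exact h6
  rw [e1]
  refine (norm_add₃_le).trans ?_
  calc _ ≤ 2 * δ z + t₀ * δ z + n * C * t₀ * δ z := add_le_add (add_le_add h9 hX2.le) h8
    _ = (2 + t₀ + n * C * t₀) * δ z := by ring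

end Pool.Agent.MPca0fc2.BE
end

section

/-! The anisotropic length: dilations, levels, the Schwarz lemma. -/

set_option autoImplicit false

open Metric Set MeasureTheory Filter Topology

namespace Pool.Agent.MPca0fc2.GW

open Pool.Agent.MPca0fc2.FD

variable {n : ℕ} {U : Set (Ec n)} {δ : Ec n → ℝ} {h : Ec n → Ec n → Fin n → ℂ} {c C : ℝ}

private theorem V2_mono {a b : Ec n → ℝ} {z : Ec n} (ha : 0 < a z) (hab : a z ≤ b z) (X : Ec n) :
    gau b h z X ≤ Real.sqrt (a z / b z) * gau a h z X ∧ gau b h z X ≤ gau a h z X := by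
  have hb : 0 < b z := ha.trans_le hab
  have hq : a z / b z ≤ 1 := (div_le_one hb).2 hab
  have hq0 : 0 ≤ a z / b z := by positivity
  have hr1 : Real.sqrt (a z / b z) ≤ 1 := Real.sqrt_le_one.mpr hq
  have hr0 : 0 ≤ Real.sqrt (a z / b z) := Real.sqrt_nonneg _
  have hqr : a z / b z ≤ Real.sqrt (a z / b z) := by
    have h1 := Real.mul_self_sqrt hq0
    nlinarith
  have hga : 0 ≤ gau a h z X := gau_nonneg ha X
  have h1 : gau b h z X ≤ Real.sqrt (a z / b z) * gau a h z X := by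
    unfold gau
    have e1 : ‖∑ k, h z z k * X k‖ / b z = a z / b z * (‖∑ k, h z z k * X k‖ / a z) := by
      field_simp
    have e2 : ‖X‖ / Real.sqrt (b z) = Real.sqrt (a z / b z) * (‖X‖ / Real.sqrt (a z)) := by
      rw [Real.sqrt_div ha.le]
      have hs1 : 0 < Real.sqrt (a z) := Real.sqrt_pos.2 ha
      have hs2 : 0 < Real.sqrt (b z) := Real.sqrt_pos.2 hb
      field_simp
    rw [e1, e2, mul_add]
    have h2 : a z / b z * (‖∑ k, h z z k * X k‖ / a z) ≤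
        Real.sqrt (a z / b z) * (‖∑ k, h z z k * X k‖ / a z) :=
      mul_le_mul_of_nonneg_right hqr (by positivity)
    linarith
  refine ⟨h1, h1.trans ?_⟩
  nlinarith

private theorem V2_open (hg : Geo U δ h c C) : IsOpen (Om U δ) :=
  hg.dδ.continuousOn.isOpen_inter_preimage hg.opn isOpen_Ioi

private theorem V2_schwarz0 (n : ℕ) (c C : ℝ) : ∃ K : ℝ, 0 < K ∧ ∀ (U : Set (Ec n)) (δ : Ec n → ℝ)
    (h : Ec n → Ec n → Fin n → ℂ), Geo U δ h c C → ∀ (u : Ec n → ℂ) (M : ℝ),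
    DifferentiableOn ℂ u (Om U δ) → (∀ z ∈ Om U δ, ‖u z‖ ≤ M) → ∀ z ∈ Om U δ, ∀ X : Ec n,
    ‖fderiv ℂ u z X‖ ≤ K * M * gau δ h z X := by
  obtain ⟨K₁, hK₁, hT⟩ := δ_taylor n c C
  by_cases hcC : 0 < c ∧ 1 ≤ C
  swap
  · exact ⟨1, one_pos, fun U δ h hg => (hcC ⟨hg.c0, hg.C1⟩).elim⟩
  obtain ⟨hc, hC⟩ := hcC
  have hC0 : 0 < C := by linarith
  have hsC : 0 < Real.sqrt C := Real.sqrt_pos.2 hC0
  obtain ⟨a, ha, ha1, ha2, ha3⟩ : ∃ a : ℝ, 0 < a ∧ a ≤ 1 ∧ 2 * a + K₁ * a ^ 2 < 1 ∧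
      a * Real.sqrt C < c := by
    refine ⟨min (1 / (K₁ + 3)) (c / (2 * Real.sqrt C)), by positivity, ?_, ?_, ?_⟩
    · refine (min_le_left _ _).trans ?_
      rw [div_le_one (by positivity)]
      linarith
    · set a := min (1 / (K₁ + 3)) (c / (2 * Real.sqrt C)) with hadef
      have h0 : 0 < a := by positivity
      have h1 : a ≤ 1 / (K₁ + 3) := min_le_left _ _
      have h2 : a * (K₁ + 3) ≤ 1 := by
        rwa [le_div_iff₀ (by positivity)] at h1
      have h3 : a ≤ 1 := by nlinarith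
      nlinarith [mul_pos hK₁ h0]
    · have h1 : min (1 / (K₁ + 3)) (c / (2 * Real.sqrt C)) ≤ c / (2 * Real.sqrt C) :=
        min_le_right _ _
      have h2 := mul_le_mul_of_nonneg_right h1 hsC.le
      have h3 : c / (2 * Real.sqrt C) * Real.sqrt C = c / 2 := by field_simp
      rw [h3] at h2
      linarith
  refine ⟨1 / a, by positivity, fun U δ h hg u M hu hM z hz X => ?_⟩
  have hδ := hz.2
  have hopen := V2_open hg
  by_cases hX : X = 0
  · subst hX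
    rw [map_zero, norm_zero]
    have hM0 : 0 ≤ M := (norm_nonneg _).trans (hM z hz)
    have := gau_nonneg (h := h) hδ (0 : Ec n)
    positivity
  have hXn : 0 < ‖X‖ := norm_pos_iff.2 hX
  have hs : 0 < Real.sqrt (δ z) := Real.sqrt_pos.2 hδ
  set g := gau δ h z X with hgdef
  have hg1 : ‖X‖ ≤ Real.sqrt (δ z) * g := gau_ge hδ X
  have hgp : 0 < g := by
    by_contra hcon
    push Not at hcon
    nlinarith
  have hg2 : ‖∑ k, h z z k * X k‖ ≤ δ z * g := by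
    have h1 : ‖∑ k, h z z k * X k‖ / δ z ≤ g := by
      rw [hgdef]
      unfold gau
      have : 0 ≤ ‖X‖ / Real.sqrt (δ z) := by positivity
      linarith
    rw [div_le_iff₀ hδ] at h1
    linarith
  have hr : 0 < a / g := by positivity
  have hin : ∀ l : ℂ, ‖l‖ ≤ a / g → z + l • X ∈ Om U δ := by
    intro l hl
    have hl' : ‖l‖ * g ≤ a := by rwa [le_div_iff₀ hgp] at hl
    have hY : ‖l • X‖ ≤ a * Real.sqrt (δ z) := by
      rw [norm_smul]
      calc ‖l‖ * ‖X‖ ≤ ‖l‖ * (Real.sqrt (δ z) * g) :=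
            mul_le_mul_of_nonneg_left hg1 (norm_nonneg _)
        _ = ‖l‖ * g * Real.sqrt (δ z) := by ring
        _ ≤ a * Real.sqrt (δ z) := mul_le_mul_of_nonneg_right hl' hs.le
    have hYc : ‖l • X‖ < c := by
      refine (hY.trans ?_).trans_lt ha3
      exact mul_le_mul_of_nonneg_left (Real.sqrt_le_sqrt (hg.bδ z hz.1)) ha.le
    obtain ⟨t1, t2⟩ := hT U δ h hg z hz (l • X) hYc
    refine ⟨t1, ?_⟩
    have hY2 : ‖l • X‖ ^ 2 ≤ a ^ 2 * δ z := by
      have h1 := pow_le_pow_left₀ (norm_nonneg _) hY 2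
      rwa [mul_pow, Real.sq_sqrt hδ.le] at h1
    have hS : |(∑ k, h z z k * (l • X) k).re| ≤ a * δ z := by
      refine (Complex.abs_re_le_norm _).trans ?_
      have e : ∑ k, h z z k * (l • X) k = l * ∑ k, h z z k * X k := by
        rw [Finset.mul_sum]
        refine Finset.sum_congr rfl fun k _ => ?_
        rw [PiLp.smul_apply, smul_eq_mul]
        ring
      rw [e, norm_mul]
      calc ‖l‖ * ‖∑ k, h z z k * X k‖ ≤ ‖l‖ * (δ z * g) :=
            mul_le_mul_of_nonneg_left hg2 (norm_nonneg _)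
        _ = ‖l‖ * g * δ z := by ring
        _ ≤ a * δ z := mul_le_mul_of_nonneg_right hl' hδ.le
    have h3 := (abs_le.1 t2).1
    have h4 := (abs_le.1 hS).2
    have h5 : K₁ * ‖l • X‖ ^ 2 ≤ K₁ * (a ^ 2 * δ z) := mul_le_mul_of_nonneg_left hY2 hK₁.le
    have h6 : 0 < (1 - (2 * a + K₁ * a ^ 2)) * δ z := mul_pos (by linarith) hδ
    show 0 < δ (z + l • X)
    nlinarith
  have hd : ∀ l : ℂ, ‖l‖ ≤ a / g → DifferentiableAt ℂ (fun l : ℂ => u (z + l • X)) l := by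
    intro l hl
    have h1 : DifferentiableAt ℂ u (z + l • X) := hu.differentiableAt (hopen.mem_nhds (hin l hl))
    have h2 : DifferentiableAt ℂ (fun l : ℂ => z + l • X) l :=
      (differentiableAt_id.smul_const X).const_add z
    exact h1.comp l h2
  have hdc : DiffContOnCl ℂ (fun l : ℂ => u (z + l • X)) (ball 0 (a / g)) := by
    apply DifferentiableOn.diffContOnCl
    rw [closure_ball _ hr.ne']
    intro l hl
    exact (hd l (by simpa using hl)).differentiableWithinAt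
  have hcau := Complex.norm_deriv_le_of_forall_mem_sphere_norm_le hr hdc (C := M) (by
    intro l hl
    exact hM _ (hin l (by simpa using (mem_sphere_zero_iff_norm.1 hl).le)))
  have hder : deriv (fun l : ℂ => u (z + l • X)) 0 = fderiv ℂ u z X := by
    have h1 : HasFDerivAt u (fderiv ℂ u z) (z + (0 : ℂ) • X) := by
      rw [zero_smul, add_zero]
      exact (hu.differentiableAt (hopen.mem_nhds hz)).hasFDerivAt
    have h2 : HasDerivAt (fun l : ℂ => z + l • X) X 0 := by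
      simpa using ((hasDerivAt_id (0 : ℂ)).smul_const X).const_add z
    exact (h1.comp_hasDerivAt (0 : ℂ) h2).deriv
  rw [hder] at hcau
  refine hcau.trans (le_of_eq ?_)
  field_simp

/-- PROOF. Let `w' = dil s w`, `ek k ≥ s`. `δ w' ≥ (c / 4 C) dk` (`dil_lo`). `|h(w',w') X| ≤ |h(w,w) X| + n L s ‖X‖` (`dil_up`, `lin_le`) and
`s ≤ ek k ≤ (8 / c) dk`, and `‖X‖ ≤ √C ‖X‖ / √dk` (`dk ≤ C`). -/
theorem gau_dil (n : ℕ) (c C : ℝ) : ∃ K : ℝ, 0 < K ∧ ∀ (U : Set (Ec n)) (δ : Ec n → ℝ)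
    (h : Ec n → Ec n → Fin n → ℂ), CD U δ h c C → ∀ (k : ℕ), ∀ w ∈ Dk U δ c k,
    ∀ s ∈ Icc (ek (k + 1)) (ek k), ∀ X : Ec n,
    gau δ h (dil s w) X ≤ K * gau (dk δ c k) h w X := by
  obtain ⟨L, hL1, hL⟩ := dil_up n c C
  by_cases hcC : 0 < c ∧ 1 ≤ C
  swap
  · exact ⟨1, one_pos, fun U δ h hD => (hcC ⟨hD.pos.1, hD.pos.2.2⟩).elim⟩
  obtain ⟨hc, hC⟩ := hcC
  have hC0 : 0 < C := by linarith
  have hsC : 0 < Real.sqrt C := Real.sqrt_pos.2 hC0
  refine ⟨4 * C / c * (1 + n * L * (8 / c) * Real.sqrt C + 1), by positivity,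
    fun U δ h hD k w hw s hs X => ?_⟩
  have hek := ek_pos k
  obtain ⟨-, -, hb1, hb2, -⟩ := Dk_basic hD hw
  obtain ⟨hin, hlo⟩ := dil_lo hD hw hs.1 (hs.2.trans (ek_le_one k))
  have hs0 : 0 ≤ s := (ek_pos (k + 1)).le.trans hs.1
  obtain ⟨-, hh⟩ := hL U δ h hD w (Dk_anti hD (Nat.zero_le k) hw) s
    ⟨hs0, hs.2.trans (ek_le_one k)⟩
  have hd : 0 < dk δ c k w := lt_trans (by positivity) hb1
  have hδ : 0 < δ (dil s w) := hin.2
  set D := dk δ c k w with hDdef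
  set w' := dil s w with hw'
  have hsD : s ≤ 8 / c * D := by
    have h1 : ek k ≤ 8 / c * D := by
      have : ek k = 8 / c * (c / 8 * ek k) := by field_simp
      rw [this]
      exact mul_le_mul_of_nonneg_left hb1.le (by positivity)
    exact hs.2.trans h1
  have hS : ‖∑ j, h w' w' j * X j‖ ≤ ‖∑ j, h w w j * X j‖ + n * L * (8 / c * D) * ‖X‖ := by
    have e : ∑ j, h w' w' j * X j = ∑ j, h w w j * X j + ∑ j, (h w' w' - h w w) j * X j := by
      rw [← Finset.sum_add_distrib]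
      refine Finset.sum_congr rfl fun j _ => ?_
      rw [Pi.sub_apply]
      ring
    rw [e]
    refine (norm_add_le _ _).trans ?_
    have h1 := lin_le (h w' w' - h w w) X
    have h2 : (n : ℝ) * ‖h w' w' - h w w‖ * ‖X‖ ≤ n * (L * (8 / c * D)) * ‖X‖ := by
      have h3 : ‖h w' w' - h w w‖ ≤ L * (8 / c * D) :=
        hh.trans (mul_le_mul_of_nonneg_left hsD (by linarith))
      exact mul_le_mul_of_nonneg_right (mul_le_mul_of_nonneg_left h3 (Nat.cast_nonneg _))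
        (norm_nonneg _)
    have h4 : (n : ℝ) * (L * (8 / c * D)) * ‖X‖ = n * L * (8 / c * D) * ‖X‖ := by ring
    rw [h4] at h2
    linarith
  have hq1 : c / (4 * C) ≤ 1 := by
    rw [div_le_one (by positivity)]
    have := hD.pos.2.1
    linarith
  have hq0 : 0 < c / (4 * C) := by positivity
  have hsD0 : 0 < Real.sqrt D := Real.sqrt_pos.2 hd
  have hsq : c / (4 * C) * Real.sqrt D ≤ Real.sqrt (δ w') := by
    refine le_trans ?_ (Real.sqrt_le_sqrt hlo)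
    rw [Real.sqrt_mul hq0.le]
    refine mul_le_mul_of_nonneg_right ?_ hsD0.le
    have h1 := Real.mul_self_sqrt hq0.le
    have h2 : Real.sqrt (c / (4 * C)) ≤ 1 := Real.sqrt_le_one.mpr hq1
    have h3 := Real.sqrt_nonneg (c / (4 * C))
    nlinarith
  have t1 : ‖∑ j, h w' w' j * X j‖ / δ w' ≤
      4 * C / c * (‖∑ j, h w w j * X j‖ / D + n * L * (8 / c) * ‖X‖) := by
    rw [div_le_iff₀ hδ]
    have h1 : 4 * C / c * (‖∑ j, h w w j * X j‖ / D + n * L * (8 / c) * ‖X‖) *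
        (c / (4 * C) * D) = ‖∑ j, h w w j * X j‖ + n * L * (8 / c * D) * ‖X‖ := by
      field_simp
    have h2 := mul_le_mul_of_nonneg_left hlo
      (show 0 ≤ 4 * C / c * (‖∑ j, h w w j * X j‖ / D + n * L * (8 / c) * ‖X‖) by positivity)
    rw [h1] at h2
    exact hS.trans h2
  have t2 : ‖X‖ / Real.sqrt (δ w') ≤ 4 * C / c * (‖X‖ / Real.sqrt D) := by
    rw [div_le_iff₀ (Real.sqrt_pos.2 hδ)]
    have h1 : 4 * C / c * (‖X‖ / Real.sqrt D) * (c / (4 * C) * Real.sqrt D) = ‖X‖ := by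
      field_simp
    have h2 := mul_le_mul_of_nonneg_left hsq
      (show 0 ≤ 4 * C / c * (‖X‖ / Real.sqrt D) by positivity)
    rw [h1] at h2
    exact h2
  have t3 : ‖X‖ ≤ Real.sqrt C * (‖X‖ / Real.sqrt D) := by
    have h1 : Real.sqrt D ≤ Real.sqrt C := Real.sqrt_le_sqrt hb2
    have h2 := mul_le_mul_of_nonneg_right h1 (show 0 ≤ ‖X‖ / Real.sqrt D by positivity)
    have h3 : Real.sqrt D * (‖X‖ / Real.sqrt D) = ‖X‖ := by field_simp
    rwa [h3] at h2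
  show ‖∑ j, h w' w' j * X j‖ / δ w' + ‖X‖ / Real.sqrt (δ w') ≤
    _ * (‖∑ j, h w w j * X j‖ / D + ‖X‖ / Real.sqrt D)
  set A := ‖∑ j, h w w j * X j‖ / D with hA
  set B := ‖X‖ / Real.sqrt D with hB
  have hA0 : 0 ≤ A := by positivity
  have hB0 : 0 ≤ B := by positivity
  have t4 : 4 * C / c * (n * L * (8 / c) * ‖X‖) ≤
      4 * C / c * (n * L * (8 / c) * (Real.sqrt C * B)) :=
    mul_le_mul_of_nonneg_left (mul_le_mul_of_nonneg_left t3 (by positivity)) (by positivity)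
  have e5 : 4 * C / c * (1 + n * L * (8 / c) * Real.sqrt C + 1) * (A + B) =
      4 * C / c * A + 4 * C / c * (n * L * (8 / c) * (Real.sqrt C * B)) + 4 * C / c * B +
      (4 * C / c * (n * L * (8 / c) * Real.sqrt C + 1) * A + 4 * C / c * B) := by ring
  have t6 : 0 ≤ 4 * C / c * (n * L * (8 / c) * Real.sqrt C + 1) * A + 4 * C / c * B := by
    positivity
  rw [e5]
  rw [mul_add] at t1
  linarith

/-- PROOF. `|hX| / dk i = (dk k / dk i) |hX| / dk k ≤ √(dk k / dk i) |hX| / dk k` and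
`‖X‖ / √(dk i) = √(dk k / dk i) ‖X‖ / √(dk k)`. -/
theorem gau_lev (hD : CD U δ h c C) {i k : ℕ} (hik : i ≤ k) {w : Ec n} (hw : w ∈ Dk U δ c k)
    (X : Ec n) :
    gau (dk δ c i) h w X ≤ Real.sqrt (dk δ c k w / dk δ c i w) * gau (dk δ c k) h w X := by
  have h1 := (Dk_basic hD hw).2.2.1
  have h2 : 0 < c / 8 * ek k := by
    have := ek_pos k
    have := hD.pos.1
    positivity
  exact (V2_mono (h2.trans h1) (dk_anti hD hik w) X).1

/-- PROOF. If `0 < a z ≤ b z` then `gau b h z X ≤ √(a z / b z) gau a h z X` (as `gau_lev`). -/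
theorem gau_mono {a b : Ec n → ℝ} {z : Ec n} (ha : 0 < a z) (hab : a z ≤ b z) (X : Ec n) :
    gau b h z X ≤ Real.sqrt (a z / b z) * gau a h z X ∧ gau b h z X ≤ gau a h z X := by
  exact V2_mono ha hab X

/-- The Schwarz lemma.
PROOF. `δ_taylor` with the constant `K₁`. Let `X ≠ 0`, `g = gau δ h z X > 0`, `a > 0` small (`2 a + K₁ a² < 1`, `a √C < c`). For `|λ| ≤ a / g`,
`Y = λ X` satisfies `‖Y‖ ≤ a √δ < c` (`gau_ge`) and `|hY| ≤ a δ`, so `δ(z + Y) ≥ δ - 2 a δ - K₁ a² δ > 0`. The function `λ ↦ u(z + λ X)` is holomorphic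
and bounded by `M` on the disc of radius `a / g`, so its derivative at `0` is at most `M g / a` (Cauchy's inequality,
`Complex.norm_deriv_le_of_forall_mem_sphere_norm_le`, on smaller discs). -/
theorem schwarz_gau (n : ℕ) (c C : ℝ) : ∃ K : ℝ, 0 < K ∧ ∀ (U : Set (Ec n)) (δ : Ec n → ℝ)
    (h : Ec n → Ec n → Fin n → ℂ), Geo U δ h c C → ∀ (u : Ec n → ℂ) (M : ℝ),
    DifferentiableOn ℂ u (Om U δ) → (∀ z ∈ Om U δ, ‖u z‖ ≤ M) → ∀ z ∈ Om U δ, ∀ X : Ec n,
    ‖fderiv ℂ u z X‖ ≤ K * M * gau δ h z X := by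
  exact V2_schwarz0 n c C

/-- PROOF. `schwarz_gau` and `gau_le`. -/
theorem schwarz_iso (n : ℕ) (c C : ℝ) : ∃ K : ℝ, 0 < K ∧ ∀ (U : Set (Ec n)) (δ : Ec n → ℝ)
    (h : Ec n → Ec n → Fin n → ℂ), Geo U δ h c C → ∀ (u : Ec n → ℂ) (M : ℝ),
    DifferentiableOn ℂ u (Om U δ) → (∀ z ∈ Om U δ, ‖u z‖ ≤ M) → ∀ z ∈ Om U δ,
    ‖fderiv ℂ u z‖ ≤ K * M / δ z := by
  obtain ⟨K, hK, hS⟩ := schwarz_gau n c C
  obtain ⟨K', hK', hG⟩ := gau_le n c C
  refine ⟨K * K', by positivity, fun U δ h hg u M hu hM z hz => ?_⟩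
  have hM0 : 0 ≤ M := (norm_nonneg _).trans (hM z hz)
  have hδ := hz.2
  refine ContinuousLinearMap.opNorm_le_bound _ (by positivity) fun X => ?_
  refine (hS U δ h hg u M hu hM z hz X).trans ?_
  have h1 := mul_le_mul_of_nonneg_left (hG U δ h hg z hz X) (show 0 ≤ K * M by positivity)
  refine h1.trans (le_of_eq ?_)
  ring

/-- An upper bound of `v(z, y)`.
PROOF. `v(z, y) = δ y + ∑ h_k(z, y)(y_k - z_k)`. `|∑ h_k(z,y)(y - z)_k| ≤ |∑ h_k(z,z)(y - z)_k| + n L ‖y - z‖²` (`h_lip`, `lin_le`). If `‖y - z‖ < c`: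
`δ y ≤ δ z + 2 |∑ h_k(z,z)(y - z)_k| + K₁ ‖y - z‖²` (`δ_taylor` with `Y = y - z`). If `‖y - z‖ ≥ c`: `δ y ≤ C ≤ (C / c²) ‖y - z‖²`. -/
theorem v_upper (n : ℕ) (c C : ℝ) (hc : 0 < c) : ∃ K : ℝ, 0 < K ∧ ∀ (U : Set (Ec n)) (δ : Ec n → ℝ)
    (h : Ec n → Ec n → Fin n → ℂ), Geo U δ h c C → ∀ z ∈ Om U δ, ∀ y ∈ Om U δ,
    ‖vv δ h z y‖ ≤ K * (δ z + ‖∑ k, h z z k * (y - z) k‖ + ‖y - z‖ ^ 2) := by
  obtain ⟨K₁, hK₁, hT⟩ := δ_taylor n c C
  obtain ⟨L, hL0, hL⟩ := h_lip n c C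
  refine ⟨3 + n * L + K₁ + |C| / c ^ 2, by positivity, fun U δ h hg z hz y hy => ?_⟩
  have hC0 : 0 ≤ C := by linarith [hg.C1]
  rw [abs_of_nonneg hC0]
  set S := ‖∑ k, h z z k * (y - z) k‖ with hS
  have hδz := hz.2
  have hS0 : 0 ≤ S := norm_nonneg _
  have h1 : δ y ≤ δ z + 2 * S + (K₁ + C / c ^ 2) * ‖y - z‖ ^ 2 := by
    rcases lt_or_ge ‖y - z‖ c with hlt | hge
    · have t := (abs_le.1 (hT U δ h hg z hz (y - z) hlt).2).2
      rw [add_sub_cancel] at t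
      have t2 := (abs_le.1 ((Complex.abs_re_le_norm (∑ k, h z z k * (y - z) k)))).1
      rw [← hS] at t2
      have t3 : 0 ≤ C / c ^ 2 * ‖y - z‖ ^ 2 := by positivity
      rw [add_mul]
      linarith
    · have t := hg.bδ y hy.1
      have t1 : c ^ 2 ≤ ‖y - z‖ ^ 2 := pow_le_pow_left₀ hc.le hge 2
      have t2 : C ≤ C / c ^ 2 * ‖y - z‖ ^ 2 := by
        have t3 := mul_le_mul_of_nonneg_left t1 (show 0 ≤ C / c ^ 2 by positivity)
        have t4 : C / c ^ 2 * c ^ 2 = C := by field_simp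
        rwa [t4] at t3
      have t5 : 0 ≤ K₁ * ‖y - z‖ ^ 2 := by positivity
      rw [add_mul]
      linarith
  have h2 : ‖∑ k, h z y k * (y k - z k)‖ ≤ S + n * L * ‖y - z‖ ^ 2 := by
    have e : ∑ k, h z y k * (y k - z k) = ∑ k, h z z k * (y - z) k +
        ∑ k, (h z y - h z z) k * (y - z) k := by
      rw [← Finset.sum_add_distrib]
      refine Finset.sum_congr rfl fun k _ => ?_
      rw [Pi.sub_apply, PiLp.sub_apply]
      ring
    rw [e]
    refine (norm_add_le _ _).trans ?_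
    have t1 := lin_le (h z y - h z z) (y - z)
    have t2 := (hL U δ h hg z hz y hy).2
    have t3 : (n : ℝ) * ‖h z y - h z z‖ * ‖y - z‖ ≤ n * (L * ‖y - z‖) * ‖y - z‖ :=
      mul_le_mul_of_nonneg_right (mul_le_mul_of_nonneg_left t2 (Nat.cast_nonneg _))
        (norm_nonneg _)
    have t4 : (n : ℝ) * (L * ‖y - z‖) * ‖y - z‖ = n * L * ‖y - z‖ ^ 2 := by ring
    rw [t4] at t3
    linarith
  have h3 : ‖vv δ h z y‖ ≤ δ y + ‖∑ k, h z y k * (y k - z k)‖ := by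
    unfold vv
    refine (norm_add_le _ _).trans ?_
    rw [Complex.norm_real, Real.norm_eq_abs, abs_of_pos hy.2]
  have hq : 0 ≤ C / c ^ 2 := by positivity
  have hn : 0 ≤ n * L := by positivity
  have e6 : (3 + n * L + K₁ + C / c ^ 2) * (δ z + S + ‖y - z‖ ^ 2) =
      (δ z + 2 * S + (K₁ + C / c ^ 2) * ‖y - z‖ ^ 2 + (S + n * L * ‖y - z‖ ^ 2)) +
      ((2 + n * L + K₁ + C / c ^ 2) * δ z + (n * L + K₁ + C / c ^ 2) * S +
      3 * ‖y - z‖ ^ 2) := by ring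
  have h7 : 0 ≤ (2 + n * L + K₁ + C / c ^ 2) * δ z + (n * L + K₁ + C / c ^ 2) * S +
      3 * ‖y - z‖ ^ 2 := by positivity
  rw [e6]
  linarith

end Pool.Agent.MPca0fc2.GW
end
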