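import Pool.Agent.Lib.MP_ca0fc2_an.Mg.G045

section

/-! The closedness of the kernel, in an abstract form. -/

set_option autoImplicit false

open Metric Set MeasureTheory Filter Topology

namespace Pool.Agent.MPca0fc2.FD

variable {T : Type*} [NormedAddCommGroup T] [NormedSpace ℝ T]

private theorem A3_upd {m : ℕ} (x : Fin (m + 1) → ℂ) (Y : Fin m → Fin (m + 1) → ℂ) (j : Fin m)
    (v : Fin (m + 1) → ℂ) :
    cn x (Function.update Y j v) = Function.update (cn x Y) j.succ v := by
  funext i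
  refine Fin.cases ?_ (fun i => ?_) i
  · rw [Function.update_of_ne (Fin.succ_ne_zero j).symm]
    rfl
  · by_cases h : i = j
    · subst h
      rw [Function.update_self]
      show Function.update Y i v i = v
      rw [Function.update_self]
    · rw [Function.update_of_ne (fun h' => h (Fin.succ_injective _ h'))]
      show Function.update Y j v i = Y i
      rw [Function.update_of_ne h]

private theorem A3_smul {m : ℕ} (x : Fin (m + 1) → ℂ) (Y : Fin m → Fin (m + 1) → ℂ) (j : Fin m)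
    (c : ℂ) (v : Fin (m + 1) → ℂ) :
    Matrix.det (cn x (Function.update Y j (c • v))) =
      c * Matrix.det (cn x (Function.update Y j v)) := by
  rw [A3_upd, A3_upd]
  exact Matrix.detRowAlternating.map_update_smul (cn x Y) j.succ c v

private theorem A3_zero {m : ℕ} (x : Fin (m + 1) → ℂ) (Y : Fin m → Fin (m + 1) → ℂ) (j : Fin m) :
    Matrix.det (cn x (Function.update Y j 0)) = 0 := by
  have h := A3_smul x Y j 0 0
  simpa using h

/-- Cramer's rule, with a linear form. -/
private theorem A3_cramer {m : ℕ} (ν x t : Fin (m + 1) → ℂ) (Y : Fin m → Fin (m + 1) → ℂ) :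
    Matrix.det (cn x Y) * (∑ i, ν i * t i) = Matrix.det (cn t Y) * (∑ i, ν i * x i) +
      ∑ b, Matrix.det (cn x (Function.update Y b t)) * ∑ i, ν i * Y b i := by
  have h := congrArg (fun v : Fin (m + 1) → ℂ => ∑ i, ν i * v i) (cramer_vec x t Y)
  simp only [Pi.smul_apply, Pi.add_apply, Finset.sum_apply, smul_eq_mul, mul_add,
    Finset.sum_add_distrib, Finset.mul_sum] at h ⊢
  rw [Finset.sum_comm (s := (Finset.univ : Finset (Fin m)))]
  calc ∑ i, Matrix.det (cn x Y) * (ν i * t i)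
      = ∑ i, ν i * (Matrix.det (cn x Y) * t i) := Finset.sum_congr rfl fun i _ => by ring
    _ = _ := h
    _ = _ := by
      congr 1
      · exact Finset.sum_congr rfl fun i _ => by ring
      · exact Finset.sum_congr rfl fun i _ => Finset.sum_congr rfl fun b _ => by ring

private theorem A3_split {m : ℕ} (f : Fin m → ℂ) (j : Fin m) :
    ∑ k, f k = f j + ∑ k ∈ Finset.univ.erase j, f k :=
  (Finset.add_sum_erase Finset.univ f (Finset.mem_univ j)).symm

private theorem A3_comm {m : ℕ} (f : Fin m → Fin m → ℂ) :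
    ∑ k, ∑ j ∈ Finset.univ.erase k, f k j = ∑ j, ∑ k ∈ Finset.univ.erase j, f k j := by
  refine Finset.sum_comm' fun k j => ?_
  simp only [Finset.mem_univ, Finset.mem_erase, true_and, and_true]
  exact ne_comm

private theorem A3_const (c : ℂ) (p : T) (v : T × T) : cd (fun _ : T => c) p v = 0 := by
  simp [cd]

private theorem A3_const' {ι : Type*} [Fintype ι] (c : ι → ℂ) (p : T) (v : T × T) :
    cd (fun _ : T => c) p v = 0 := by
  simp [cd]

private theorem A3_pi {ι : Type*} [Fintype ι] {G : T → ι → ℂ} {p : T}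
    (hG : DifferentiableAt ℝ G p) (π : ι → ℂ) :
    DifferentiableAt ℝ (fun y => π * G y) p ∧
      ∀ v, cd (fun y => π * G y) p v = π * cd G p v := by
  have hi : ∀ i, DifferentiableAt ℝ (fun y => G y i) p := fun i =>
    (differentiableAt_pi.1 hG) i
  have hd : DifferentiableAt ℝ (fun y => π * G y) p :=
    differentiableAt_pi.2 fun i => (differentiableAt_const (π i)).mul (hi i)
  refine ⟨hd, fun v => ?_⟩
  funext i
  rw [← cd_apply hd v i]
  show cd (fun y => π i * G y i) p v = π i * cd G p v i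
  rw [cd_mul (differentiableAt_const _) (hi i), A3_const, cd_apply hG v i]
  ring

/-- The kernel is closed.
`G` are the components (sections, and other functions), `π i ∈ {0, 1}` says which components are
sections, `F` is a function of the sections which is homogeneous of degree `-∑ π`, with the
derivatives `μ`; `d b` are the directions, `t` is another direction.
PROOF. Write `g = G p`, `y b = cd G p (d b)`, `τ = cd G p t`, `Θ(x; Y) = det (cn x Y)`,
`s b b' = cd (fun y => cd G y (d b')) p (d b)`, symmetric by `cd_comm`, and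
`r b = cd (fun y => cd G y (d b)) p t = cd (fun y => cd G y t) p (d b)` (`cd_comm`).
LEFT SIDE (`cd_mul`, `cd_det_cn`, and `cd` of `π * G` is `π * cd G`):
`L = (cd F p t) Θ(πg; y) + F [Θ(πτ; y) + ∑_b Θ(πg; y with r b @ b)]`.
RIGHT SIDE: the `b`-th term is
`(cd F p (d b)) Θ(πg; y with τ@b) + F [Θ(π (y b); y with τ@b) + Θ(πg; y with (r b)@b) +
∑_(b' ≠ b) Θ(πg; y with τ@b, (s b b')@b')]` (`cd_det_cn`; the row `b'` of
`update (fun b => cd G y (d b)) b (cd G y t)` is `cd G y t` for `b' = b` and `cd G y (d b')`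
otherwise; `Function.update_comm` and splitting off the term `b' = b` of the sum).
The double sum of the last terms is `0` by `swap_sum` with `x = πg`. So we need
`(cd F p t) Θ(πg; y) + F Θ(πτ; y) = ∑_b (cd F p (d b)) Θ(πg; y with τ@b) +
F ∑_b Θ(π (y b); y with τ@b)`.   (*)
By `swap_first`, `Θ(π (y b); y with τ@b) = -Θ(τ; y with (π y b)@b)`, and by `trace_det_cn` with
`x = τ`, `Y = y`, `p = π`: `Θ(πτ; y) + ∑_b Θ(τ; y with (π y b)@b) = (∑ π) Θ(τ; y)`. So (*) says
`(cd F p t) Θ(πg; y) + F (∑ π) Θ(τ; y) = ∑_b (cd F p (d b)) Θ(πg; y with τ@b)`. Apply the linear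
form `v ↦ ∑ i, μ i * v i` to `cramer_vec` with `x = πg`, `t = τ`, `Y = y`: by `hFt`, `hFd` it gives
`Θ(πg; y) cd F p t = Θ(τ; y) ∑ μ_i π_i g_i + ∑_b Θ(πg; y with τ@b) cd F p (d b)`, and
`∑ μ_i π_i g_i = -(∑ π) F p` by `hE`. -/
theorem closed_ker {m : ℕ} {G : T → Fin (m + 1) → ℂ} {F : T → ℂ} {p : T}
    (hG : ContDiffAt ℝ 2 G p) (hF : DifferentiableAt ℝ F p) (π μ : Fin (m + 1) → ℂ)
    (d : Fin m → T × T) (t : T × T)
    (hFt : cd F p t = ∑ i, μ i * cd G p t i)
    (hFd : ∀ b, cd F p (d b) = ∑ i, μ i * cd G p (d b) i)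
    (hE : ∑ i, μ i * (π i * G p i) = -(∑ i, π i) * F p) :
    cd (fun y => F y * Matrix.det (cn (π * G y) (fun b => cd G y (d b)))) p t =
      ∑ b, cd (fun y => F y * Matrix.det (cn (π * G y)
        (Function.update (fun b' => cd G y (d b')) b (cd G y t)))) p (d b) := by
  classical
  have hGd : DifferentiableAt ℝ G p := hG.differentiableAt (by norm_num)
  obtain ⟨hπd, hπc⟩ := A3_pi hGd π
  have hrow : ∀ v, DifferentiableAt ℝ (fun y => cd G y v) p := fun v => cd_diff hG v
  set g := G p with hg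
  set y : Fin m → Fin (m + 1) → ℂ := fun b => cd G p (d b) with hy
  set τ := cd G p t with hτ
  set r : Fin m → Fin (m + 1) → ℂ := fun b => cd (fun y => cd G y (d b)) p t with hr
  set s : Fin m → Fin m → Fin (m + 1) → ℂ := fun b b' => cd (fun y => cd G y (d b')) p (d b)
    with hs
  have hsym : ∀ a b, s a b = s b a := fun a b => cd_comm hG (d b) (d a)
  -- left side
  have hL : cd (fun y => F y * Matrix.det (cn (π * G y) (fun b => cd G y (d b)))) p t =
      cd F p t * Matrix.det (cn (π * g) y) +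
        F p * (Matrix.det (cn (π * τ) y) +
          ∑ b, Matrix.det (cn (π * g) (Function.update y b (r b)))) := by
    rw [cd_mul hF (det_cn_diff hπd fun b => hrow (d b)) t,
      cd_det_cn hπd (fun b => hrow (d b)) t, hπc]
  -- right side
  have hR : ∀ b, cd (fun y => F y * Matrix.det (cn (π * G y)
        (Function.update (fun b' => cd G y (d b')) b (cd G y t)))) p (d b) =
      cd F p (d b) * Matrix.det (cn (π * g) (Function.update y b τ)) +
        F p * (Matrix.det (cn (π * y b) (Function.update y b τ)) +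
          (Matrix.det (cn (π * g) (Function.update y b (r b))) +
            ∑ b' ∈ Finset.univ.erase b, Matrix.det (cn (π * g)
              (Function.update (Function.update y b' (s b b')) b τ)))) := by
    intro b
    have hrows : ∀ b', DifferentiableAt ℝ
        (fun y => Function.update (fun b' => cd G y (d b')) b (cd G y t) b') p := by
      intro b'
      by_cases hb : b' = b
      · subst hb
        simpa only [Function.update_self] using hrow t
      · simpa only [Function.update_of_ne hb] using hrow (d b')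
    rw [cd_mul hF (det_cn_diff hπd hrows) (d b), cd_det_cn hπd hrows (d b), hπc,
      A3_split _ b]
    congr 4
    · simp only [Function.update_self, Function.update_idem]
      rw [cd_comm hG t (d b)]
    · refine Finset.sum_congr rfl fun b' hb' => ?_
      have hne : b' ≠ b := (Finset.mem_erase.1 hb').1
      simp only [Function.update_of_ne hne]
      rw [Function.update_comm hne.symm]
  rw [hL, Finset.sum_congr rfl fun b _ => hR b]
  have hswap := swap_sum (π * g) τ y s hsym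
  have htr := trace_det_cn π τ y
  have hcr := A3_cramer μ (π * g) τ y
  have hfirst : ∀ b, Matrix.det (cn (π * y b) (Function.update y b τ)) =
      -Matrix.det (cn τ (Function.update y b (π * y b))) := fun b => swap_first _ _ _ _
  have e1 : ∑ i, μ i * (π * g) i = -(∑ i, π i) * F p := hE
  have e2 : ∀ b, ∑ i, μ i * y b i = cd F p (d b) := fun b => (hFd b).symm
  rw [← hFt, e1] at hcr
  simp only [e2] at hcr
  simp only [hfirst, mul_add, Finset.sum_add_distrib, ← Finset.mul_sum, hswap, mul_zero, add_zero,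
    mul_neg, Finset.sum_neg_distrib]
  have hcr' : ∑ b, cd F p (d b) * Matrix.det (cn (π * g) (Function.update y b τ)) =
      ∑ b, Matrix.det (cn (π * g) (Function.update y b τ)) * cd F p (d b) :=
    Finset.sum_congr rfl fun b _ => mul_comm _ _
  rw [hcr']
  linear_combination hcr + F p * htr

/-- the derivative of the weighted integrand -/
private theorem A3_exp {E A B : T → ℂ} {p : T} (κ : ℂ) (hE : DifferentiableAt ℝ E p)
    (hA : DifferentiableAt ℝ A p) (hB : DifferentiableAt ℝ B p) (v : T × T) :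
    cd (fun y => Complex.exp (E y) * (κ * A y + B y)) p v =
      Complex.exp (E p) * (cd E p v * (κ * A p + B p) + (κ * cd A p v + cd B p v)) := by
  have h1 : DifferentiableAt ℝ (fun y => κ * A y) p := (differentiableAt_const _).mul hA
  have h2 : DifferentiableAt ℝ (fun y => κ * A y + B y) p := h1.add hB
  rw [cd_mul hE.cexp h2 v, cd_exp hE, cd_add h1 hB, cd_mul (differentiableAt_const _) hA,
    A3_const]
  ring

/-- The algebra of the steps (3)-(7) of `closed_wker`. -/
private theorem A3_alg {m : ℕ} (g τ : Fin (m + 1) → ℂ) (y q r : Fin m → Fin (m + 1) → ℂ)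
    (s u : Fin m → Fin m → Fin (m + 1) → ℂ) (hs : ∀ a b, s a b = s b a)
    (hu : ∀ a b, u a b = u b a) (ℓ ν R : Fin (m + 1) → ℂ) (ϑ : Fin m → ℂ)
    (hq : ∀ b, q b = ϑ b • R) (κ f0 f1 c1t A : ℂ) (c1 C : Fin m → ℂ)
    (h1t : c1t = ∑ i, ν i * τ i) (h1d : ∀ b, c1 b = ∑ i, ν i * y b i)
    (h1E : ∑ i, ν i * g i = -m * f1)
    (h1Q : ∀ b, ∑ i, ν i * q b i = -κ * f0 * ∑ i, ℓ i * q b i) :
    0 * A + (κ * ∑ k, C k + (c1t * ∑ j, Matrix.det (cn g (Function.update y j (q j))) +
      f1 * ∑ j, (Matrix.det (cn τ (Function.update y j (q j))) +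
        ∑ k ∈ Finset.univ.erase j, Matrix.det (cn g
          (Function.update (Function.update y j (q j)) k (r k)))))) =
    ∑ k, (-(∑ i, ℓ i * q k i) * (κ * (f0 *
        Matrix.det (cn g (Function.update y k τ))) +
        f1 * ∑ j ∈ Finset.univ.erase k, Matrix.det (cn g
          (Function.update (Function.update y j (q j)) k τ))) +
        (κ * C k +
        (c1 k * ∑ j ∈ Finset.univ.erase k, Matrix.det (cn g
          (Function.update (Function.update y j (q j)) k τ)) +
        f1 * ∑ j ∈ Finset.univ.erase k,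
          (Matrix.det (cn (y k) (Function.update (Function.update y j (q j)) k τ)) +
          (Matrix.det (cn g (Function.update (Function.update y j (q j)) k (r k))) +
          (Matrix.det (cn g (Function.update (Function.update y j (u k j)) k τ)) +
            ∑ l ∈ (Finset.univ.erase j).erase k, Matrix.det (cn g (Function.update
              (Function.update (Function.update y j (q j)) l (s k l)) k τ)))))))) := by
  classical
  -- (3)
  have h3 : ∑ k, (∑ i, ℓ i * q k i) * ∑ j ∈ Finset.univ.erase k, Matrix.det (cn g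
      (Function.update (Function.update y j (q j)) k τ)) = 0 := by
    have hsw := swap_sum g τ y (fun k j => (∑ i, ℓ i * q k i) • q j) (by
      intro a b
      rw [hq a, hq b]
      funext i
      simp only [Pi.smul_apply, smul_eq_mul, Finset.sum_mul]
      exact Finset.sum_congr rfl fun i _ => by ring)
    rw [← hsw]
    refine Finset.sum_congr rfl fun k _ => ?_
    rw [Finset.mul_sum]
    refine Finset.sum_congr rfl fun j hj => ?_
    have hjk : j ≠ k := (Finset.mem_erase.1 hj).1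
    have ec : ∀ v : Fin (m + 1) → ℂ, Function.update (Function.update y j v) k τ =
        Function.update (Function.update y k τ) j v := fun v => Function.update_comm hjk v τ y
    rw [ec, ec, A3_smul]
  -- (4)
  have h4 := swap_sum g τ y u hu
  have h4' : ∑ k, ∑ j ∈ Finset.univ.erase k, ∑ l ∈ (Finset.univ.erase j).erase k,
      Matrix.det (cn g (Function.update
        (Function.update (Function.update y j (q j)) l (s k l)) k τ)) = 0 := by
    rw [A3_comm]
    exact Finset.sum_eq_zero fun j _ => swap_sum' g τ (q j) y s hs j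
  -- (5)
  have h5 : ∑ k, ∑ j ∈ Finset.univ.erase k,
      Matrix.det (cn g (Function.update (Function.update y j (q j)) k (r k))) =
      ∑ j, ∑ k ∈ Finset.univ.erase j,
        Matrix.det (cn g (Function.update (Function.update y j (q j)) k (r k))) := A3_comm _
  -- (6)
  have h6 : ∑ k, ∑ j ∈ Finset.univ.erase k,
      Matrix.det (cn (y k) (Function.update (Function.update y j (q j)) k τ)) =
      -((m - 1) * ∑ j, Matrix.det (cn τ (Function.update y j (q j)))) := by
    have e1 : ∑ k, ∑ j ∈ Finset.univ.erase k,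
        Matrix.det (cn (y k) (Function.update (Function.update y j (q j)) k τ)) =
        ∑ k, ∑ j ∈ Finset.univ.erase k,
          -Matrix.det (cn τ (Function.update y j (q j))) := by
      refine Finset.sum_congr rfl fun k _ => Finset.sum_congr rfl fun j hj => ?_
      have hjk : j ≠ k := (Finset.mem_erase.1 hj).1
      have e0 : Function.update (Function.update y j (q j)) k (y k) =
          Function.update y j (q j) := by
        refine Function.update_eq_self_iff.2 ?_
        rw [Function.update_of_ne hjk.symm]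
      rw [swap_first, e0]
    rw [e1, A3_comm, Finset.mul_sum, ← Finset.sum_neg_distrib]
    refine Finset.sum_congr rfl fun j _ => ?_
    have e2 := A3_split (fun _ : Fin m => -Matrix.det (cn τ (Function.update y j (q j)))) j
    simp only [Finset.sum_const, Finset.card_univ, Fintype.card_fin, nsmul_eq_mul] at e2 ⊢
    linear_combination -e2
  -- (7)
  have h7 : c1t * ∑ j, Matrix.det (cn g (Function.update y j (q j))) =
      -m * f1 * ∑ j, Matrix.det (cn τ (Function.update y j (q j))) -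
      κ * f0 * ∑ j, (∑ i, ℓ i * q j i) * Matrix.det (cn g (Function.update y j τ)) +
      ∑ j, ∑ k ∈ Finset.univ.erase j, c1 k * Matrix.det (cn g
        (Function.update (Function.update y j (q j)) k τ)) := by
    rw [Finset.mul_sum, Finset.mul_sum, Finset.mul_sum, ← Finset.sum_sub_distrib,
      ← Finset.sum_add_distrib]
    refine Finset.sum_congr rfl fun j _ => ?_
    have hc := A3_cramer ν g τ (Function.update y j (q j))
    rw [A3_split _ j] at hc
    simp only [Function.update_idem, Function.update_self] at hc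
    rw [← h1t, h1E, h1Q] at hc
    have e3 : ∑ k ∈ Finset.univ.erase j, Matrix.det (cn g
        (Function.update (Function.update y j (q j)) k τ)) *
          ∑ i, ν i * Function.update y j (q j) k i =
        ∑ k ∈ Finset.univ.erase j, c1 k * Matrix.det (cn g
          (Function.update (Function.update y j (q j)) k τ)) := by
      refine Finset.sum_congr rfl fun k hk => ?_
      have hkj : k ≠ j := (Finset.mem_erase.1 hk).1
      rw [Function.update_of_ne hkj, ← h1d k, mul_comm]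
    rw [e3] at hc
    linear_combination hc
  have h7' : ∑ j, ∑ k ∈ Finset.univ.erase j, c1 k * Matrix.det (cn g
        (Function.update (Function.update y j (q j)) k τ)) =
      ∑ k, c1 k * ∑ j ∈ Finset.univ.erase k, Matrix.det (cn g
        (Function.update (Function.update y j (q j)) k τ)) := by
    rw [← A3_comm]
    exact Finset.sum_congr rfl fun k _ => (Finset.mul_sum _ _ _).symm
  -- the right side
  have hT : ∀ k, (-(∑ i, ℓ i * q k i) * (κ * (f0 *
        Matrix.det (cn g (Function.update y k τ))) +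
        f1 * ∑ j ∈ Finset.univ.erase k, Matrix.det (cn g
          (Function.update (Function.update y j (q j)) k τ))) +
        (κ * C k +
        (c1 k * ∑ j ∈ Finset.univ.erase k, Matrix.det (cn g
          (Function.update (Function.update y j (q j)) k τ)) +
        f1 * ∑ j ∈ Finset.univ.erase k,
          (Matrix.det (cn (y k) (Function.update (Function.update y j (q j)) k τ)) +
          (Matrix.det (cn g (Function.update (Function.update y j (q j)) k (r k))) +
          (Matrix.det (cn g (Function.update (Function.update y j (u k j)) k τ)) +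
            ∑ l ∈ (Finset.univ.erase j).erase k, Matrix.det (cn g (Function.update
              (Function.update (Function.update y j (q j)) l (s k l)) k τ)))))))) =
      -(κ * f0) * ((∑ i, ℓ i * q k i) * Matrix.det (cn g (Function.update y k τ))) +
      (-f1 * ((∑ i, ℓ i * q k i) * ∑ j ∈ Finset.univ.erase k, Matrix.det (cn g
          (Function.update (Function.update y j (q j)) k τ))) +
      (κ * C k + (c1 k * ∑ j ∈ Finset.univ.erase k, Matrix.det (cn g
          (Function.update (Function.update y j (q j)) k τ)) +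
      (f1 * (∑ j ∈ Finset.univ.erase k,
        Matrix.det (cn (y k) (Function.update (Function.update y j (q j)) k τ))) +
      (f1 * (∑ j ∈ Finset.univ.erase k,
        Matrix.det (cn g (Function.update (Function.update y j (q j)) k (r k)))) +
      (f1 * (∑ j ∈ Finset.univ.erase k,
        Matrix.det (cn g (Function.update (Function.update y j (u k j)) k τ))) +
      f1 * (∑ j ∈ Finset.univ.erase k, ∑ l ∈ (Finset.univ.erase j).erase k,
        Matrix.det (cn g (Function.update
          (Function.update (Function.update y j (q j)) l (s k l)) k τ))))))))) := by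
    intro k
    rw [Finset.sum_add_distrib, Finset.sum_add_distrib, Finset.sum_add_distrib]
    ring
  rw [Finset.sum_congr rfl fun k _ => hT k, Finset.sum_add_distrib, Finset.sum_add_distrib,
    Finset.sum_add_distrib, Finset.sum_add_distrib, Finset.sum_add_distrib,
    Finset.sum_add_distrib, Finset.sum_add_distrib, Finset.sum_add_distrib, ← Finset.mul_sum,
    ← Finset.mul_sum, ← Finset.mul_sum, ← Finset.mul_sum, ← Finset.mul_sum, ← Finset.mul_sum,
    ← Finset.mul_sum, h3, h4, h4', h5, h6, h7, h7']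
  ring

/-- The weighted kernel is closed, if the rows of the weight are multiples of one vector.
`κ` is a constant, `ℓ` a linear form, `Q` the weight sections.
PROOF. Symbols as in `closed_ker`: `g = G p`, `y b`, `τ`, `r b`, `s b b'`, `Θ`;
`q b = cd Q p (d b) = ϑ b • R`; `e = exp (E p)`.
(0) `cd (fun y => exp (E y) * A y) p v = e * (cd E p v * A p + cd A p v)` (`cd_mul`, `cd_exp`).
(1) The left side is `e *` the derivative in the direction `t` of
`κ F₀ Θ(g; y) + F₁ ∑_j Θ(g; y with q@j)` (`hEt`).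
(2) By `closed_ker` (with `π = 1`), the part with `F₀` of the left side is
`κ ∑_k cd (F₀ Θ(g; y with τ@k)) p (d k)`, which cancels with the corresponding part of the right
side. Remains to see:
`cd (F₁ ∑_j Θ(g; y with q@j)) p t = ∑_k { -ℓ(q k) [κ F₀ Θ(g; y with τ@k) + F₁ ∑_(j≠k) Θ(g; y with
q@j, τ@k)] + cd (F₁ ∑_(j≠k) Θ(g; y with q@j, τ@k)) p (d k) }`.
(3) `∑_k ∑_(j≠k) ℓ(q k) Θ(g; y with (q j)@j, τ@k) = 0` by `swap_sum` with
`s k j = ℓ(q k) • q j = (ϑ k * ϑ j * ℓ R) • R`, symmetric.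
(4) The derivative of `F₁ ∑_(j≠k) ...` in the direction `d k`:
`cd F₁ p (d k) ∑_(j≠k) Θ(g; q@j, τ@k) + F₁ ∑_(j≠k) [Θ(y k; q@j, τ@k) +
Θ(g; (cd (cd Q · (d j)) p (d k))@j, τ@k) + Θ(g; q@j, (r k)@k) +
∑_(l≠j,k) Θ(g; q@j, τ@k, (s k l)@l)]`. Sum over `k`: the second terms in the bracket have sum `0` by
`swap_sum` (`cd_comm` for `Q`), the last ones have sum `0` by `swap_sum'`, for each `j`.
(5) The left side of (2): `cd (cd Q · (d j)) p t = cd (cd Q · t) p (d j) = 0` (`cd_comm`, `hQt`,
`cd_congr`), so it is `cd F₁ p t ∑_j Θ(g; q@j) + F₁ ∑_j [Θ(τ; q@j) + ∑_(k≠j) Θ(g; q@j, (r k)@k)]`.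
The last terms cancel with the third ones in (4) (exchange the sums). Remains:
`cd F₁ p t ∑_j Θ(g; q@j) + F₁ ∑_j Θ(τ; q@j) = -κ F₀ ∑_k ℓ(q k) Θ(g; τ@k) +
∑_k ∑_(j≠k) cd F₁ p (d k) Θ(g; q@j, τ@k) + F₁ ∑_k ∑_(j≠k) Θ(y k; q@j, τ@k)`.
(6) `Θ(y k; q@j, τ@k) = -Θ(τ; q@j)` for `j ≠ k` (`swap_first` for the row `k`, `Function.update`
of the row `k` by itself), so the last double sum is `-(m - 1) ∑_j Θ(τ; q@j)`, `m` the number of
rows. So it remains:
`∑_j [cd F₁ p t Θ(g; q@j) + m F₁ Θ(τ; q@j)] = ∑_j [-κ F₀ ℓ(q j) Θ(g; τ@j) +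
∑_(k≠j) cd F₁ p (d k) Θ(g; q@j, τ@k)]`.
(7) For each `j`, apply `v ↦ ∑ i, ν i * v i` to `cramer_vec` with `x = g`, `t = τ`,
`Y = y with (q j)@j`: `Θ(g; q@j) ν(τ) = Θ(τ; q@j) ν(g) + ∑_(k≠j) Θ(g; q@j, τ@k) ν(y k) +
Θ(g; τ@j) ν(q j)`, and `ν(τ) = cd F₁ p t`, `ν(g) = -m F₁`, `ν(y k) = cd F₁ p (d k)`,
`ν(q j) = -κ F₀ ℓ(q j)`. -/
theorem closed_wker {m : ℕ} {G Q : T → Fin (m + 1) → ℂ} {F₀ F₁ E : T → ℂ} {p : T} (κ : ℂ)
    (hG : ContDiffAt ℝ 2 G p) (hQ : ContDiffAt ℝ 2 Q p) (hF₀ : DifferentiableAt ℝ F₀ p)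
    (hF₁ : DifferentiableAt ℝ F₁ p) (hE : DifferentiableAt ℝ E p)
    (d : Fin m → T × T) (t : T × T) (ℓ μ ν : Fin (m + 1) → ℂ) (ϑ : Fin m → ℂ)
    (R : Fin (m + 1) → ℂ)
    (hQt : ∀ᶠ y in 𝓝 p, cd Q y t = 0) (hQd : ∀ b, cd Q p (d b) = ϑ b • R)
    (hEt : cd E p t = 0) (hEd : ∀ b, cd E p (d b) = -∑ i, ℓ i * cd Q p (d b) i)
    (h0t : cd F₀ p t = ∑ i, μ i * cd G p t i)
    (h0d : ∀ b, cd F₀ p (d b) = ∑ i, μ i * cd G p (d b) i)
    (h0E : ∑ i, μ i * G p i = -(m + 1) * F₀ p)
    (h1t : cd F₁ p t = ∑ i, ν i * cd G p t i)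
    (h1d : ∀ b, cd F₁ p (d b) = ∑ i, ν i * cd G p (d b) i)
    (h1E : ∑ i, ν i * G p i = -m * F₁ p)
    (h1Q : ∀ b, ∑ i, ν i * cd Q p (d b) i = -κ * F₀ p * ∑ i, ℓ i * cd Q p (d b) i) :
    cd (fun y => Complex.exp (E y) * (κ * F₀ y *
        Matrix.det (cn (G y) (fun b => cd G y (d b))) +
        F₁ y * ∑ j, Matrix.det (cn (G y)
          (Function.update (fun b => cd G y (d b)) j (cd Q y (d j)))))) p t =
      ∑ k, cd (fun y => Complex.exp (E y) * (κ * F₀ y *
        Matrix.det (cn (G y) (Function.update (fun b => cd G y (d b)) k (cd G y t))) +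
        F₁ y * ∑ j ∈ Finset.univ.erase k, Matrix.det (cn (G y)
          (Function.update (Function.update (fun b => cd G y (d b)) j (cd Q y (d j))) k
            (cd G y t))))) p (d k) := by
  classical
  have hGd : DifferentiableAt ℝ G p := hG.differentiableAt (by norm_num)
  have hrow : ∀ v, DifferentiableAt ℝ (fun y => cd G y v) p := fun v => cd_diff hG v
  have hqrow : ∀ v, DifferentiableAt ℝ (fun y => cd Q y v) p := fun v => cd_diff hQ v
  -- the rows
  have hrow1 : ∀ j b, DifferentiableAt ℝ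
      (fun y => Function.update (fun b => cd G y (d b)) j (cd Q y (d j)) b) p := by
    intro j b
    by_cases hb : b = j
    · subst hb
      simpa only [Function.update_self] using hqrow (d b)
    · simpa only [Function.update_of_ne hb] using hrow (d b)
  have hrow2 : ∀ k b, DifferentiableAt ℝ
      (fun y => Function.update (fun b => cd G y (d b)) k (cd G y t) b) p := by
    intro j b
    by_cases hb : b = j
    · subst hb
      simpa only [Function.update_self] using hrow t
    · simpa only [Function.update_of_ne hb] using hrow (d b)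
  have hrow3 : ∀ k j b, DifferentiableAt ℝ
      (fun y => Function.update (Function.update (fun b => cd G y (d b)) j (cd Q y (d j))) k
        (cd G y t) b) p := by
    intro k j b
    by_cases hb : b = k
    · subst hb
      simpa only [Function.update_self] using hrow t
    · simpa only [Function.update_of_ne hb] using hrow1 j b
  set g := G p with hg
  set y : Fin m → Fin (m + 1) → ℂ := fun b => cd G p (d b) with hy
  set τ := cd G p t with hτ
  set q : Fin m → Fin (m + 1) → ℂ := fun b => cd Q p (d b) with hq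
  set r : Fin m → Fin (m + 1) → ℂ := fun b => cd (fun y => cd G y (d b)) p t with hr
  set s : Fin m → Fin m → Fin (m + 1) → ℂ := fun b b' => cd (fun y => cd G y (d b')) p (d b)
    with hs
  set u : Fin m → Fin m → Fin (m + 1) → ℂ := fun b b' => cd (fun y => cd Q y (d b')) p (d b)
    with hu
  have hsym : ∀ a b, s a b = s b a := fun a b => cd_comm hG (d b) (d a)
  have husym : ∀ a b, u a b = u b a := fun a b => cd_comm hQ (d b) (d a)
  -- the derivatives of the determinants
  have hL : ∀ j, cd (fun y => Matrix.det (cn (G y)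
        (Function.update (fun b => cd G y (d b)) j (cd Q y (d j))))) p t =
      Matrix.det (cn τ (Function.update y j (q j))) +
        ∑ k ∈ Finset.univ.erase j, Matrix.det (cn g
          (Function.update (Function.update y j (q j)) k (r k))) := by
    intro j
    rw [cd_det_cn hGd (hrow1 j) t, A3_split _ j]
    have hz : cd (fun y => cd Q y (d j)) p t = 0 := by
      rw [cd_comm hQ (d j) t, cd_congr hQt, A3_const']
    simp only [Function.update_self]
    rw [hz, A3_zero, zero_add]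
    congr 1
    refine Finset.sum_congr rfl fun k hk => ?_
    have hne : k ≠ j := (Finset.mem_erase.1 hk).1
    simp only [Function.update_of_ne hne]
    rfl
  have hR : ∀ k, ∀ j ∈ Finset.univ.erase k, cd (fun y => Matrix.det (cn (G y)
        (Function.update (Function.update (fun b => cd G y (d b)) j (cd Q y (d j))) k
          (cd G y t)))) p (d k) =
      Matrix.det (cn (y k) (Function.update (Function.update y j (q j)) k τ)) +
        (Matrix.det (cn g (Function.update (Function.update y j (q j)) k (r k))) +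
        (Matrix.det (cn g (Function.update (Function.update y j (u k j)) k τ)) +
          ∑ l ∈ (Finset.univ.erase j).erase k, Matrix.det (cn g (Function.update
            (Function.update (Function.update y j (q j)) l (s k l)) k τ)))) := by
    intro k j hj
    have hjk : j ≠ k := (Finset.mem_erase.1 hj).1
    rw [cd_det_cn hGd (hrow3 k j) (d k), A3_split _ k, ← Finset.add_sum_erase _ _ hj,
      Finset.erase_right_comm]
    congr 2
    · simp only [Function.update_self, Function.update_idem]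
      rw [cd_comm hG t (d k)]
    · congr 1
      · simp only [Function.update_of_ne hjk, Function.update_self]
        rw [Function.update_comm hjk.symm, Function.update_idem]
      · refine Finset.sum_congr rfl fun l hl => ?_
        have hlk : l ≠ k := (Finset.mem_erase.1 hl).1
        have hlj : l ≠ j := (Finset.mem_erase.1 (Finset.mem_erase.1 hl).2).1
        simp only [Function.update_of_ne hlk, Function.update_of_ne hlj]
        rw [Function.update_comm hlk.symm]
  -- the functions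
  have hdA0 : DifferentiableAt ℝ
      (fun y => F₀ y * Matrix.det (cn (G y) (fun b => cd G y (d b)))) p :=
    hF₀.mul (det_cn_diff hGd fun b => hrow (d b))
  have hdS1 : DifferentiableAt ℝ (fun y => ∑ j, Matrix.det (cn (G y)
      (Function.update (fun b => cd G y (d b)) j (cd Q y (d j))))) p :=
    DifferentiableAt.fun_sum fun j _ => det_cn_diff hGd (hrow1 j)
  have hdB0 : ∀ k, DifferentiableAt ℝ (fun y => F₀ y * Matrix.det (cn (G y)
      (Function.update (fun b => cd G y (d b)) k (cd G y t)))) p := fun k =>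
    hF₀.mul (det_cn_diff hGd (hrow2 k))
  have hdT : ∀ k, ∀ j ∈ Finset.univ.erase k, DifferentiableAt ℝ (fun y => Matrix.det (cn (G y)
      (Function.update (Function.update (fun b => cd G y (d b)) j (cd Q y (d j))) k
        (cd G y t)))) p := fun k j _ => det_cn_diff hGd (hrow3 k j)
  have hdT1 : ∀ k, DifferentiableAt ℝ (fun y => ∑ j ∈ Finset.univ.erase k,
      Matrix.det (cn (G y) (Function.update (Function.update (fun b => cd G y (d b)) j
        (cd Q y (d j))) k (cd G y t)))) p := fun k =>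
    DifferentiableAt.fun_sum (hdT k)
  have hdA1 : DifferentiableAt ℝ (fun y => F₁ y * ∑ j, Matrix.det (cn (G y)
      (Function.update (fun b => cd G y (d b)) j (cd Q y (d j))))) p := hF₁.mul hdS1
  have hdB1 : ∀ k, DifferentiableAt ℝ (fun y => F₁ y * ∑ j ∈ Finset.univ.erase k,
      Matrix.det (cn (G y) (Function.update (Function.update (fun b => cd G y (d b)) j
        (cd Q y (d j))) k (cd G y t)))) p := fun k => hF₁.mul (hdT1 k)
  -- closedness of the first part
  have h0 := closed_ker hG hF₀ (1 : Fin (m + 1) → ℂ) μ d t h0t h0d (by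
    simp only [Pi.one_apply, one_mul, Finset.sum_const, Finset.card_univ, Fintype.card_fin,
      nsmul_eq_mul, mul_one]
    rw [h0E]
    push_cast
    ring)
  simp only [one_mul] at h0
  -- both sides
  have eL : (fun y => Complex.exp (E y) * (κ * F₀ y *
        Matrix.det (cn (G y) (fun b => cd G y (d b))) +
        F₁ y * ∑ j, Matrix.det (cn (G y)
          (Function.update (fun b => cd G y (d b)) j (cd Q y (d j)))))) =
      fun y => Complex.exp (E y) * (κ * (F₀ y *
        Matrix.det (cn (G y) (fun b => cd G y (d b)))) +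
        F₁ y * ∑ j, Matrix.det (cn (G y)
          (Function.update (fun b => cd G y (d b)) j (cd Q y (d j))))) := by
    funext y
    rw [mul_assoc κ]
  have eR : ∀ k, (fun y => Complex.exp (E y) * (κ * F₀ y *
        Matrix.det (cn (G y) (Function.update (fun b => cd G y (d b)) k (cd G y t))) +
        F₁ y * ∑ j ∈ Finset.univ.erase k, Matrix.det (cn (G y)
          (Function.update (Function.update (fun b => cd G y (d b)) j (cd Q y (d j))) k
            (cd G y t))))) =
      fun y => Complex.exp (E y) * (κ * (F₀ y *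
        Matrix.det (cn (G y) (Function.update (fun b => cd G y (d b)) k (cd G y t)))) +
        F₁ y * ∑ j ∈ Finset.univ.erase k, Matrix.det (cn (G y)
          (Function.update (Function.update (fun b => cd G y (d b)) j (cd Q y (d j))) k
            (cd G y t)))) := by
    intro k
    funext y
    rw [mul_assoc κ]
  rw [eL, A3_exp κ hE hdA0 hdA1 t, hEt, cd_mul hF₁ hdS1 t,
    cd_sum _ (fun j _ => det_cn_diff hGd (hrow1 j)) t, Finset.sum_congr rfl fun j _ => hL j, h0]
  have hterm : ∀ k, cd (fun y => Complex.exp (E y) * (κ * F₀ y *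
        Matrix.det (cn (G y) (Function.update (fun b => cd G y (d b)) k (cd G y t))) +
        F₁ y * ∑ j ∈ Finset.univ.erase k, Matrix.det (cn (G y)
          (Function.update (Function.update (fun b => cd G y (d b)) j (cd Q y (d j))) k
            (cd G y t))))) p (d k) =
      Complex.exp (E p) * (-(∑ i, ℓ i * q k i) * (κ * (F₀ p *
        Matrix.det (cn g (Function.update y k τ))) +
        F₁ p * ∑ j ∈ Finset.univ.erase k, Matrix.det (cn g
          (Function.update (Function.update y j (q j)) k τ))) +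
        (κ * cd (fun y => F₀ y * Matrix.det (cn (G y)
          (Function.update (fun b => cd G y (d b)) k (cd G y t)))) p (d k) +
        (cd F₁ p (d k) * ∑ j ∈ Finset.univ.erase k, Matrix.det (cn g
          (Function.update (Function.update y j (q j)) k τ)) +
        F₁ p * ∑ j ∈ Finset.univ.erase k,
          (Matrix.det (cn (y k) (Function.update (Function.update y j (q j)) k τ)) +
          (Matrix.det (cn g (Function.update (Function.update y j (q j)) k (r k))) +
          (Matrix.det (cn g (Function.update (Function.update y j (u k j)) k τ)) +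
            ∑ l ∈ (Finset.univ.erase j).erase k, Matrix.det (cn g (Function.update
              (Function.update (Function.update y j (q j)) l (s k l)) k τ)))))))) := by
    intro k
    rw [eR k, A3_exp κ hE (hdB0 k) (hdB1 k) (d k), hEd, cd_mul hF₁ (hdT1 k) (d k),
      cd_sum _ (hdT k) (d k), Finset.sum_congr rfl (hR k)]
  rw [Finset.sum_congr rfl fun k _ => hterm k, ← Finset.mul_sum]
  congr 1
  exact A3_alg g τ y q r s u hsym husym ℓ ν R ϑ hQd κ (F₀ p) (F₁ p) (cd F₁ p t) _
    (fun b => cd F₁ p (d b)) (fun k => cd (fun y => F₀ y * Matrix.det (cn (G y)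
      (Function.update (fun b => cd G y (d b)) k (cd G y t)))) p (d k)) h1t h1d h1E h1Q

end Pool.Agent.MPca0fc2.FD
end

section

/-! Directional derivatives of the components. -/

set_option autoImplicit false

open Metric Set MeasureTheory Filter Topology

namespace Pool.Agent.MPca0fc2.FD

variable {n : ℕ} {V : Type*} [NormedAddCommGroup V] [NormedSpace ℂ V]

/-- PROOF. Chain rule with the affine map `ζ' ↦ (z, τ, ζ')`:
`fderiv ℝ (fun ζ' => F (z, τ, ζ')) ζ X = fderiv ℝ F (z, τ, ζ) (0, 0, X)`; then `unfold cd db dζ`,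
`map_smul`, `smul_add` (the factor `2⁻¹` is real on the left and complex on the right). -/
theorem cd_dζ {F : Tn n → V} {z ζ : Ec n} {τ : ℝ} (hF : DifferentiableAt ℝ F (z, τ, ζ))
    (X : Ec n) : cd F (z, τ, ζ) (dζ X) = db (fun ζ' => F (z, τ, ζ')) ζ X := by
  have h1 : HasFDerivAt (fun ζ' : Ec n => ((z, τ, ζ') : Tn n))
      ((0 : Ec n →L[ℝ] Ec n).prod ((0 : Ec n →L[ℝ] ℝ).prod (ContinuousLinearMap.id ℝ (Ec n)))) ζ :=
    (hasFDerivAt_const z ζ).prodMk ((hasFDerivAt_const τ ζ).prodMk (hasFDerivAt_id ζ))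
  have h2 := (hF.hasFDerivAt.comp ζ h1).fderiv
  have h3 : ∀ W : Ec n, fderiv ℝ (fun ζ' => F (z, τ, ζ')) ζ W =
      fderiv ℝ F (z, τ, ζ) (0, 0, W) := fun W => by
    have : (fun ζ' => F (z, τ, ζ')) = F ∘ fun ζ' : Ec n => ((z, τ, ζ') : Tn n) := rfl
    rw [this, h2]
    rfl
  have h4 : ∀ W : Ec n, fderiv ℝ F (z, τ, ζ) (0, 0, (2⁻¹ : ℝ) • W) =
      (2⁻¹ : ℂ) • fderiv ℝ F (z, τ, ζ) (0, 0, W) := fun W => by
    have e1 : ((0, 0, (2⁻¹ : ℝ) • W) : Tn n) = (2⁻¹ : ℝ) • ((0, 0, W) : Tn n) := by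
      simp
    rw [e1, map_smul, ← Complex.coe_smul]
    norm_num
  unfold cd db dζ
  dsimp only
  rw [h3, h3, h4, h4, smul_add, smul_comm (2⁻¹ : ℂ) Complex.I]

/-- PROOF. As `cd_dζ`. -/
theorem cd_dz {F : Tn n → V} {z ζ : Ec n} {τ : ℝ} (hF : DifferentiableAt ℝ F (z, τ, ζ))
    (Y : Ec n) : cd F (z, τ, ζ) (dz Y) = db (fun z' => F (z', τ, ζ)) z Y := by
  have h1 : HasFDerivAt (fun z' : Ec n => ((z', τ, ζ) : Tn n))
      ((ContinuousLinearMap.id ℝ (Ec n)).prod ((0 : Ec n →L[ℝ] ℝ).prod (0 : Ec n →L[ℝ] Ec n))) z :=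
    (hasFDerivAt_id z).prodMk ((hasFDerivAt_const τ z).prodMk (hasFDerivAt_const ζ z))
  have h2 := (hF.hasFDerivAt.comp z h1).fderiv
  have h3 : ∀ W : Ec n, fderiv ℝ (fun z' => F (z', τ, ζ)) z W =
      fderiv ℝ F (z, τ, ζ) (W, 0, 0) := fun W => by
    have : (fun z' => F (z', τ, ζ)) = F ∘ fun z' : Ec n => ((z', τ, ζ) : Tn n) := rfl
    rw [this, h2]
    rfl
  have h4 : ∀ W : Ec n, fderiv ℝ F (z, τ, ζ) ((2⁻¹ : ℝ) • W, 0, 0) =
      (2⁻¹ : ℂ) • fderiv ℝ F (z, τ, ζ) (W, 0, 0) := fun W => by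
    have e1 : (((2⁻¹ : ℝ) • W, 0, 0) : Tn n) = (2⁻¹ : ℝ) • ((W, 0, 0) : Tn n) := by
      simp
    rw [e1, map_smul, ← Complex.coe_smul]
    norm_num
  unfold cd db dz
  dsimp only
  rw [h3, h3, h4, h4, smul_add, smul_comm (2⁻¹ : ℂ) Complex.I]

/-- PROOF. Chain rule. -/
theorem cd_dt {F : Tn n → V} {z ζ : Ec n} {τ : ℝ} (hF : DifferentiableAt ℝ F (z, τ, ζ)) :
    HasDerivAt (fun τ' => F (z, τ', ζ)) (cd F (z, τ, ζ) (dt n)) τ := by
  have h1 : HasDerivAt (fun τ' : ℝ => ((z, τ', ζ) : Tn n)) (0, 1, 0) τ :=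
    (hasDerivAt_const τ z).prodMk ((hasDerivAt_id τ).prodMk (hasDerivAt_const τ ζ))
  have h2 := hF.hasFDerivAt.comp_hasDerivAt τ h1
  have h3 : cd F (z, τ, ζ) (dt n) = fderiv ℝ F (z, τ, ζ) (0, 1, 0) := by
    unfold cd dt
    dsimp only
    have : ((0, 0, 0) : Tn n) = 0 := rfl
    rw [this, map_zero, smul_zero, add_zero]
  rw [h3]
  exact h2

/-- The conjugate linear part of the derivative of a holomorphic function is `0`.
PROOF. `fderiv ℝ G z = (fderiv ℂ G z).restrictScalars ℝ`, so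
`fderiv ℝ G z (I • X) = I • fderiv ℝ G z X`, and `I * I = -1`. -/
theorem db_hol {G : Ec n → V} {z : Ec n} (hG : DifferentiableAt ℂ G z) (X : Ec n) :
    db G z X = 0 := by
  have h1 : fderiv ℝ G z = (fderiv ℂ G z).restrictScalars ℝ :=
    (hG.hasFDerivAt.restrictScalars ℝ).fderiv
  unfold db
  rw [h1]
  simp only [ContinuousLinearMap.coe_restrictScalars', map_smul, smul_smul, Complex.I_mul_I,
    neg_smul, one_smul]
  simp

/-- PROOF. `db` of the conjugate of a coordinate: `z ↦ conj (z k)` is real linear and conjugate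
linear. -/
theorem db_conj (z X : Ec n) (k : Fin n) :
    db (fun y : Ec n => (starRingEnd ℂ) (y k)) z X = (starRingEnd ℂ) (X k) := by
  have h1 : HasFDerivAt (fun y : Ec n => (starRingEnd ℂ) (y k))
      (Complex.conjCLE.toContinuousLinearMap.comp
        ((EuclideanSpace.proj k : Ec n →L[ℂ] ℂ).restrictScalars ℝ)) z :=
    (Complex.conjCLE.toContinuousLinearMap.comp
        ((EuclideanSpace.proj k : Ec n →L[ℂ] ℂ).restrictScalars ℝ)).hasFDerivAt
  unfold db
  rw [h1.fderiv]
  simp only [ContinuousLinearMap.comp_apply, ContinuousLinearMap.coe_restrictScalars']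
  have h2 : ∀ w : ℂ, Complex.conjCLE.toContinuousLinearMap w = (starRingEnd ℂ) w := fun w => rfl
  rw [h2, h2]
  have h3 : ∀ W : Ec n, (EuclideanSpace.proj k : Ec n →L[ℂ] ℂ) W = W k := fun W => rfl
  rw [map_smul, h3, smul_eq_mul, smul_eq_mul, smul_eq_mul, map_mul, Complex.conj_I]
  linear_combination (-(1 / 2 : ℂ)) * (starRingEnd ℂ) (X k) * Complex.I_mul_I

/-- PROOF. `db G z` is conjugate linear: `db G z (I • X) = - I • db G z X`, additive, real
homogeneous. -/
theorem db_conj_lin (G : Ec n → V) (z X Y : Ec n) (a : ℂ) :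
    db G z (a • X + Y) = (starRingEnd ℂ) a • db G z X + db G z Y := by
  have key : ∀ W : Ec n, ∀ a : ℂ, fderiv ℝ G z (a • W) =
      (a.re : ℂ) • fderiv ℝ G z W + (a.im : ℂ) • fderiv ℝ G z (Complex.I • W) := fun W a => by
    have e1 : a • W = a.re • W + a.im • (Complex.I • W) := by
      conv_lhs => rw [← Complex.re_add_im a]
      rw [add_smul, mul_smul, Complex.coe_smul, Complex.coe_smul]
    rw [e1, map_add, map_smul, map_smul, Complex.coe_smul, Complex.coe_smul]
  have e2 : fderiv ℝ G z (a • X + Y) = (a.re : ℂ) • fderiv ℝ G z X +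
      (a.im : ℂ) • fderiv ℝ G z (Complex.I • X) + fderiv ℝ G z Y := by
    rw [map_add, key]
  have e3 : fderiv ℝ G z (Complex.I • (a • X + Y)) = (a.re : ℂ) • fderiv ℝ G z (Complex.I • X) -
      (a.im : ℂ) • fderiv ℝ G z X + fderiv ℝ G z (Complex.I • Y) := by
    rw [smul_add, map_add, smul_smul, key X (Complex.I * a)]
    have h1 : (Complex.I * a).re = -a.im := by simp
    have h2 : (Complex.I * a).im = a.re := by simp
    rw [h1, h2]
    push_cast
    module
  unfold db
  rw [e2, e3]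
  have e4 : (starRingEnd ℂ) a = (a.re : ℂ) - (a.im : ℂ) * Complex.I := by
    apply Complex.ext <;> simp
  rw [e4]
  have hI : Complex.I * Complex.I = -1 := Complex.I_mul_I
  match_scalars
  all_goals first
    | (ring_nf; done)
    | (ring_nf; simp [Complex.I_sq]; try ring_nf)

/-- PROOF. Check the three kinds of components (`Fin.lastCases`, `Fin.addCases`). -/
theorem GG_x (δ : Ec n → ℝ) (h : Ec n → Ec n → Fin n → ℂ) (ε : ℝ) {q : ℕ}
    (I : Fin q → Fin n) (z ζ : Ec n) (τ : ℝ) :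
    πv n q * GG δ h ε I (z, τ, ζ) = rx δ h ε q τ z ζ := by
  funext j
  rw [Pi.mul_apply]
  refine Fin.lastCases ?_ (fun j => ?_) j
  · simp [πv, GG, rx, sn]
  · refine Fin.addCases (fun i => ?_) (fun i => ?_) j
    · simp only [πv, GG, rx, sn, Fin.snoc_castSucc, Fin.append_left]
      exact one_mul _
    · simp only [πv, GG, rx, sn, Fin.snoc_castSucc, Fin.append_right]
      exact zero_mul _

private theorem B1_last (δ : Ec n → ℝ) (h : Ec n → Ec n → Fin n → ℂ) (ε : ℝ) {q : ℕ}
    (I : Fin q → Fin n) (p : Tn n) : GG δ h ε I p (Fin.last (n + q)) = (w0 δ ε p.2.1 p.2.2 : ℂ) := by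
  simp [GG, sn]

private theorem B1_left (δ : Ec n → ℝ) (h : Ec n → Ec n → Fin n → ℂ) (ε : ℝ) {q : ℕ}
    (I : Fin q → Fin n) (p : Tn n) (k : Fin n) :
    GG δ h ε I p (Fin.castSucc (Fin.castAdd q k)) = wk h p.2.1 p.1 p.2.2 k := by
  simp only [GG, sn, Fin.snoc_castSucc, Fin.append_left]

private theorem B1_right (δ : Ec n → ℝ) (h : Ec n → Ec n → Fin n → ℂ) (ε : ℝ) {q : ℕ}
    (I : Fin q → Fin n) (p : Tn n) (j : Fin q) :
    GG δ h ε I p (Fin.castSucc (Fin.natAdd n j)) = (starRingEnd ℂ) (p.2.2 (I j)) := by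
  simp only [GG, sn, Fin.snoc_castSucc, Fin.append_right]

private theorem B1_conjc (k : Fin n) {N : WithTop ℕ∞} :
    ContDiff ℝ N (fun y : Ec n => (starRingEnd ℂ) (y k)) :=
  (Complex.conjCLE.toContinuousLinearMap.comp
    ((EuclideanSpace.proj k : Ec n →L[ℂ] ℂ).restrictScalars ℝ)).contDiff

private theorem B1_co : ContDiff ℝ 2 (fun x : ℝ => (x : ℂ)) := Complex.ofRealCLM.contDiff

variable {U : Set (Ec n)} {δ : Ec n → ℝ} {h : Ec n → Ec n → Fin n → ℂ} {c C : ℝ}

/-- PROOF. Each component is `C²`: `conj` and the coordinates are real linear, `h` and `δ` are `C²`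
at the points of `U` (`Geo.dh`, `Geo.dδ`, `Geo.opn`). Use `contDiffAt_pi` and `Fin.lastCases`,
`Fin.addCases`. -/
theorem GG_c2 (hg : Geo U δ h c C) (ε : ℝ) {q : ℕ} (I : Fin q → Fin n) {z ζ : Ec n}
    (hz : z ∈ U) (hζ : ζ ∈ U) (τ : ℝ) : ContDiffAt ℝ 2 (GG δ h ε I) (z, τ, ζ) := by
  have p1 : ContDiffAt ℝ 2 (fun p : Tn n => p.1) (z, τ, ζ) := contDiffAt_fst
  have p2 : ContDiffAt ℝ 2 (fun p : Tn n => p.2) (z, τ, ζ) := contDiffAt_snd
  have p21 : ContDiffAt ℝ 2 (fun p : Tn n => p.2.1) (z, τ, ζ) :=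
    contDiffAt_fst.comp (z, τ, ζ) p2
  have p22 : ContDiffAt ℝ 2 (fun p : Tn n => p.2.2) (z, τ, ζ) :=
    contDiffAt_snd.comp (z, τ, ζ) p2
  have hδ : ContDiffAt ℝ 2 (fun p : Tn n => δ p.2.2) (z, τ, ζ) := by
    have h1 : ContDiffAt ℝ 2 δ ζ := (hg.dδ ζ hζ).contDiffAt (hg.opn.mem_nhds hζ)
    exact ContDiffAt.comp (z, τ, ζ) (g := δ) (f := fun p : Tn n => p.2.2) h1 p22
  have hh : ContDiffAt ℝ 2 (fun p : Tn n => h p.1 p.2.2) (z, τ, ζ) := by
    have h1 : ContDiffAt ℝ 2 (fun p : Ec n × Ec n => h p.1 p.2) (z, ζ) :=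
      (hg.dh (z, ζ) ⟨hz, hζ⟩).contDiffAt ((hg.opn.prod hg.opn).mem_nhds ⟨hz, hζ⟩)
    exact ContDiffAt.comp (z, τ, ζ) (g := fun p : Ec n × Ec n => h p.1 p.2)
      (f := fun p : Tn n => (p.1, p.2.2)) h1 (p1.prodMk p22)
  have hτ : ContDiffAt ℝ 2 (fun p : Tn n => (p.2.1 : ℂ)) (z, τ, ζ) :=
    ContDiffAt.comp (z, τ, ζ) (g := fun x : ℝ => (x : ℂ)) (f := fun p : Tn n => p.2.1)
      B1_co.contDiffAt p21
  rw [contDiffAt_pi]
  intro j
  refine Fin.lastCases ?_ (fun j => ?_) j
  · simp only [B1_last]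
    refine ContDiffAt.comp (z, τ, ζ) (g := fun x : ℝ => (x : ℂ))
      (f := fun p : Tn n => w0 δ ε p.2.1 p.2.2) B1_co.contDiffAt ?_
    unfold w0
    exact ((contDiffAt_const.sub p21).mul (contDiffAt_const.mul (hδ.pow 2))).add (p21.mul hδ)
  · refine Fin.addCases (fun k => ?_) (fun i => ?_) j
    · simp only [B1_left]
      unfold wk
      have h1 : ContDiffAt ℝ 2 (fun p : Tn n => (starRingEnd ℂ) (p.2.2 k - p.1 k)) (z, τ, ζ) :=
        ContDiffAt.comp (z, τ, ζ) (g := fun y : Ec n => (starRingEnd ℂ) (y k))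
          (f := fun p : Tn n => p.2.2 - p.1) (B1_conjc (n := n) k).contDiffAt (p22.sub p1)
      have h2 := contDiffAt_pi.1 hh k
      exact ((contDiffAt_const.sub hτ).mul h1).add (hτ.mul h2)
    · simp only [B1_right]
      exact ContDiffAt.comp (z, τ, ζ) (g := fun y : Ec n => (starRingEnd ℂ) (y (I i)))
        (f := fun p : Tn n => p.2.2) (B1_conjc (n := n) (I i)).contDiffAt p22

private theorem B1_add {F G : Ec n → ℂ} {z : Ec n} (hF : DifferentiableAt ℝ F z)
    (hG : DifferentiableAt ℝ G z) (X : Ec n) :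
    db (fun y => F y + G y) z X = db F z X + db G z X := by
  have h1 : fderiv ℝ (fun y => F y + G y) z = fderiv ℝ F z + fderiv ℝ G z :=
    (hF.hasFDerivAt.add hG.hasFDerivAt).fderiv
  unfold db
  rw [h1]
  simp only [add_apply, smul_eq_mul]
  ring

private theorem B1_const (a : ℂ) (z X : Ec n) : db (fun _ : Ec n => a) z X = 0 := by
  unfold db
  simp

private theorem B1_mul {F : Ec n → ℂ} {z : Ec n} (hF : DifferentiableAt ℝ F z) (a : ℂ)
    (X : Ec n) : db (fun y => a * F y) z X = a * db F z X := by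
  have h1 : fderiv ℝ (fun y => a * F y) z = a • fderiv ℝ F z := by
    simpa using (hF.hasFDerivAt.const_mul a).fderiv
  unfold db
  rw [h1]
  simp only [smul_apply, smul_eq_mul]
  ring

private theorem B1_pow {F : Ec n → ℂ} {z : Ec n} (hF : DifferentiableAt ℝ F z)
    (X : Ec n) : db (fun y => F y ^ 2) z X = 2 * F z * db F z X := by
  have h1 : HasFDerivAt (fun y => F y ^ 2) ((2 * F z) • fderiv ℝ F z) z := by
    simpa using hF.hasFDerivAt.pow 2
  unfold db
  rw [h1.fderiv]
  simp only [smul_apply, smul_eq_mul]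
  ring

private theorem B1_conjd (k : Fin n) (z : Ec n) :
    DifferentiableAt ℝ (fun y : Ec n => (starRingEnd ℂ) (y k)) z :=
  (B1_conjc (n := n) k (N := 1)).contDiffAt.differentiableAt (by norm_num)

/-- PROOF. `cd_apply` reduces to the components, `cd_dζ` to slices. The component `k`:
`ζ' ↦ (1 - τ) * conj (ζ' k - z k) + τ * h z ζ' k`, use `db_conj`; the component `A j`: `db_conj`;
the last one: `ζ' ↦ (1 - τ) * (ε² δ²) + τ δ`. -/
theorem GG_ζ (hg : Geo U δ h c C) (ε : ℝ) {q : ℕ} (I : Fin q → Fin n) {z ζ : Ec n}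
    (hz : z ∈ U) (hζ : ζ ∈ U) (τ : ℝ) (X : Ec n) :
    cd (GG δ h ε I) (z, τ, ζ) (dζ X) = rζ δ h ε I τ z ζ X := by
  have hG := (GG_c2 hg ε I hz hζ τ).differentiableAt (by norm_num)
  have hδd : DifferentiableAt ℝ δ ζ :=
    ((hg.dδ ζ hζ).contDiffAt (hg.opn.mem_nhds hζ)).differentiableAt (by norm_num)
  have hδc : DifferentiableAt ℝ (fun y => (δ y : ℂ)) ζ :=
    DifferentiableAt.comp ζ (g := fun x : ℝ => (x : ℂ)) (f := δ)
      (B1_co.contDiffAt.differentiableAt (by norm_num)) hδd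
  have hhd : ∀ k, DifferentiableAt ℝ (fun y => h z y k) ζ := by
    intro k
    have h1 : ContDiffAt ℝ 2 (fun p : Ec n × Ec n => h p.1 p.2) (z, ζ) :=
      (hg.dh (z, ζ) ⟨hz, hζ⟩).contDiffAt ((hg.opn.prod hg.opn).mem_nhds ⟨hz, hζ⟩)
    have h2 := differentiableAt_pi.1 (h1.differentiableAt (by norm_num)) k
    exact DifferentiableAt.comp ζ (g := fun p : Ec n × Ec n => h p.1 p.2 k)
      (f := fun y : Ec n => (z, y)) h2 ((differentiableAt_const z).prodMk differentiableAt_id)
  funext j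
  rw [← cd_apply hG, cd_dζ (differentiableAt_pi.1 hG j)]
  refine Fin.lastCases ?_ (fun j => ?_) j
  · simp only [B1_last, rζ, sn, Fin.snoc_last]
    have e1 : (fun y : Ec n => (w0 δ ε τ y : ℂ)) = fun y =>
        ((1 - τ) * ε ^ 2 : ℂ) * (δ y : ℂ) ^ 2 + (τ : ℂ) * (δ y : ℂ) := by
      funext y
      unfold w0
      push_cast
      ring
    have d1 : DifferentiableAt ℝ (fun y => (δ y : ℂ) ^ 2) ζ := hδc.pow 2
    have d2 : DifferentiableAt ℝ (fun y => ((1 - τ) * ε ^ 2 : ℂ) * (δ y : ℂ) ^ 2) ζ :=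
      d1.const_mul _
    have d3 : DifferentiableAt ℝ (fun y => (τ : ℂ) * (δ y : ℂ)) ζ := hδc.const_mul _
    rw [e1, B1_add d2 d3, B1_mul d1, B1_mul hδc, B1_pow hδc]
    ring
  · refine Fin.addCases (fun k => ?_) (fun i => ?_) j
    · simp only [B1_left, rζ, sn, Fin.snoc_castSucc, Fin.append_left]
      have e1 : (fun y : Ec n => wk h τ z y k) = fun y =>
          (-(1 - τ) * (starRingEnd ℂ) (z k) : ℂ) +
            ((1 - τ : ℂ) * (starRingEnd ℂ) (y k) + (τ : ℂ) * h z y k) := by
        funext y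
        unfold wk
        rw [map_sub]
        ring
      have d1 : DifferentiableAt ℝ (fun y : Ec n => (1 - τ : ℂ) * (starRingEnd ℂ) (y k)) ζ :=
        (B1_conjd k ζ).const_mul _
      have d2 : DifferentiableAt ℝ (fun y => (τ : ℂ) * h z y k) ζ := (hhd k).const_mul _
      have d3 : DifferentiableAt ℝ (fun y : Ec n =>
          (1 - τ : ℂ) * (starRingEnd ℂ) (y k) + (τ : ℂ) * h z y k) ζ := d1.add d2
      have d4 : DifferentiableAt ℝ (fun _ : Ec n => (-(1 - τ) * (starRingEnd ℂ) (z k) : ℂ)) ζ :=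
        differentiableAt_const _
      rw [e1, B1_add d4 d3, B1_const, zero_add, B1_add d1 d2, B1_mul (B1_conjd k ζ),
        B1_mul (hhd k), db_conj]
    · simp only [B1_right, rζ, sn, Fin.snoc_castSucc, Fin.append_right]
      exact db_conj ζ X (I i)

/-- PROOF. As `GG_ζ`, with `cd_dz`; `z' ↦ h z' ζ k` is holomorphic at `z` (`Geo.hol`), use
`db_hol`. -/
theorem GG_z (hg : Geo U δ h c C) (ε : ℝ) {q : ℕ} (I : Fin q → Fin n) {z ζ : Ec n}
    (hz : z ∈ U) (hζ : ζ ∈ U) (τ : ℝ) (Y : Ec n) :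
    cd (GG δ h ε I) (z, τ, ζ) (dz Y) = rz q τ Y := by
  have hG := (GG_c2 hg ε I hz hζ τ).differentiableAt (by norm_num)
  have hhc : ∀ k, DifferentiableAt ℂ (fun z' => h z' ζ k) z := by
    intro k
    exact differentiableAt_pi.1 ((hg.hol ζ hζ).differentiableAt (hg.opn.mem_nhds hz)) k
  have hhd : ∀ k, DifferentiableAt ℝ (fun z' => h z' ζ k) z := fun k =>
    (hhc k).restrictScalars ℝ
  funext j
  rw [← cd_apply hG, cd_dz (differentiableAt_pi.1 hG j)]
  refine Fin.lastCases ?_ (fun j => ?_) j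
  · simp only [B1_last, rz, sn, Fin.snoc_last]
    exact B1_const _ _ _
  · refine Fin.addCases (fun k => ?_) (fun i => ?_) j
    · simp only [B1_left, rz, sn, Fin.snoc_castSucc, Fin.append_left]
      have e1 : (fun y : Ec n => wk h τ y ζ k) = fun y =>
          ((1 - τ) * (starRingEnd ℂ) (ζ k) : ℂ) +
            ((-(1 - τ) : ℂ) * (starRingEnd ℂ) (y k) + (τ : ℂ) * h y ζ k) := by
        funext y
        unfold wk
        rw [map_sub]
        ring
      have d1 : DifferentiableAt ℝ (fun y : Ec n => (-(1 - τ) : ℂ) * (starRingEnd ℂ) (y k)) z :=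
        (B1_conjd k z).const_mul _
      have d2 : DifferentiableAt ℝ (fun y => (τ : ℂ) * h y ζ k) z := (hhd k).const_mul _
      have d3 : DifferentiableAt ℝ (fun y : Ec n =>
          (-(1 - τ) : ℂ) * (starRingEnd ℂ) (y k) + (τ : ℂ) * h y ζ k) z := d1.add d2
      have d4 : DifferentiableAt ℝ (fun _ : Ec n => ((1 - τ) * (starRingEnd ℂ) (ζ k) : ℂ)) z :=
        differentiableAt_const _
      rw [e1, B1_add d4 d3, B1_const, zero_add, B1_add d1 d2, B1_mul (B1_conjd k z),
        B1_mul (hhd k), db_conj, db_hol (hhc k), mul_zero, add_zero]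
    · simp only [B1_right, rz, sn, Fin.snoc_castSucc, Fin.append_right]
      exact B1_const _ _ _

/-- PROOF. As `GG_ζ`, with `cd_dt`: the components are affine functions of `τ`. -/
theorem GG_t (hg : Geo U δ h c C) (ε : ℝ) {q : ℕ} (I : Fin q → Fin n) {z ζ : Ec n}
    (hz : z ∈ U) (hζ : ζ ∈ U) (τ : ℝ) :
    cd (GG δ h ε I) (z, τ, ζ) (dt n) = rτ δ h ε q z ζ := by
  have hG := (GG_c2 hg ε I hz hζ τ).differentiableAt (by norm_num)
  funext j
  rw [← cd_apply hG, ← (cd_dt (differentiableAt_pi.1 hG j)).deriv]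
  have hco : HasDerivAt (fun x : ℝ => (x : ℂ)) 1 τ := Complex.ofRealCLM.hasDerivAt
  refine Fin.lastCases ?_ (fun j => ?_) j
  · simp only [B1_last, rτ, sn, Fin.snoc_last]
    have e1 : (fun t : ℝ => (w0 δ ε t ζ : ℂ)) = fun t : ℝ =>
        (t : ℂ) * ((δ ζ - ε ^ 2 * δ ζ ^ 2 : ℝ) : ℂ) + ((ε ^ 2 * δ ζ ^ 2 : ℝ) : ℂ) := by
      funext t
      unfold w0
      push_cast
      ring
    have d1 : HasDerivAt (fun t : ℝ =>
        (t : ℂ) * ((δ ζ - ε ^ 2 * δ ζ ^ 2 : ℝ) : ℂ) + ((ε ^ 2 * δ ζ ^ 2 : ℝ) : ℂ))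
        (1 * ((δ ζ - ε ^ 2 * δ ζ ^ 2 : ℝ) : ℂ)) τ := (hco.mul_const _).add_const _
    rw [e1, d1.deriv, one_mul]
  · refine Fin.addCases (fun k => ?_) (fun i => ?_) j
    · simp only [B1_left, rτ, sn, Fin.snoc_castSucc, Fin.append_left]
      have e1 : (fun t : ℝ => wk h t z ζ k) = fun t : ℝ =>
          (t : ℂ) * (h z ζ k - (starRingEnd ℂ) (ζ k - z k)) + (starRingEnd ℂ) (ζ k - z k) := by
        funext t
        unfold wk
        ring
      have d1 : HasDerivAt (fun t : ℝ =>
          (t : ℂ) * (h z ζ k - (starRingEnd ℂ) (ζ k - z k)) + (starRingEnd ℂ) (ζ k - z k))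
          (1 * (h z ζ k - (starRingEnd ℂ) (ζ k - z k))) τ := (hco.mul_const _).add_const _
      rw [e1, d1.deriv, one_mul]
    · simp only [B1_right, rτ, sn, Fin.snoc_castSucc, Fin.append_right]
      exact deriv_const _ _

end Pool.Agent.MPca0fc2.FD
end

section

/-! The derivatives of the scalar factors of the kernels. -/

set_option autoImplicit false

open Metric Set MeasureTheory Filter Topology

namespace Pool.Agent.MPca0fc2.FD

variable {n : ℕ}
variable {U : Set (Ec n)} {δ : Ec n → ℝ} {h : Ec n → Ec n → Fin n → ℂ} {c C : ℝ}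

private theorem B2_aa_GG (δ : Ec n → ℝ) (h : Ec n → Ec n → Fin n → ℂ) (ε : ℝ) {q : ℕ}
    (I : Fin q → Fin n) :
    (fun p : Tn n => aa δ h ε p.2.1 p.1 p.2.2) = fun p =>
      GG δ h ε I p (Fin.last _) +
        ∑ k : Fin n, GG δ h ε I p (Fin.castSucc (Fin.castAdd q k)) *
          (p.2.2 k - p.1 k) := by
  funext p
  simp [aa, GG, sn]

private theorem B2_lin_c2 (k : Fin n) (p : Tn n) :
    ContDiffAt ℝ 2 (fun p : Tn n => p.2.2 k - p.1 k) p := by
  have h1 : ContDiff ℝ 2 (fun x : Ec n => x k) :=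
    ((EuclideanSpace.proj (𝕜 := ℂ) k : Ec n →L[ℂ] ℂ).restrictScalars ℝ).contDiff
  exact ((h1.comp (contDiff_snd.comp contDiff_snd)).sub (h1.comp contDiff_fst)).contDiffAt

private theorem B2_w_c2 (hg : Geo U δ h c C) (ε : ℝ) {z ζ : Ec n} (hz : z ∈ U) (hζ : ζ ∈ U)
    (τ : ℝ) : ContDiffAt ℝ 2 (fun p : Tn n => (w0 δ ε p.2.1 p.2.2 : ℂ)) (z, τ, ζ) := by
  have h1 := GG_c2 hg ε (Fin.elim0 : Fin 0 → Fin n) hz hζ τ
  rw [contDiffAt_pi] at h1
  have h2 := h1 (Fin.last _)
  simpa [GG, sn] using h2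

private theorem B2_cd_comp {T : Type*} [NormedAddCommGroup T] [NormedSpace ℝ T] {F : T → ℂ}
    {p : T} (hF : DifferentiableAt ℝ F p) {g : ℂ → ℂ} {g' : ℂ} (hg : HasDerivAt g g' (F p))
    (d : T × T) : cd (fun y => g (F y)) p d = g' * cd F p d := by
  have h1 : HasFDerivAt (fun y => g (F y)) (g' • fderiv ℝ F p) p :=
    hg.comp_hasFDerivAt p hF.hasFDerivAt
  unfold cd
  rw [h1.fderiv]
  simp only [FunLike.coe_smul, Pi.smul_apply, smul_eq_mul]
  ring

private theorem B2_cd_div {T : Type*} [NormedAddCommGroup T] [NormedSpace ℝ T] {w A : T → ℂ}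
    {p : T} (hw : DifferentiableAt ℝ w p) (hA : DifferentiableAt ℝ A p) (h0 : A p ≠ 0)
    (d : T × T) (a b : ℕ) : cd (fun y => w y ^ a / A y ^ b) p d =
      a * (w p ^ (a - 1) / A p ^ b) * cd w p d - b * (w p ^ a / A p ^ (b + 1)) * cd A p d := by
  have h1 : HasDerivAt (fun x : ℂ => x ^ a) (a * w p ^ (a - 1)) (w p) := hasDerivAt_pow a (w p)
  have h2 : HasDerivAt (fun x : ℂ => (x ^ b)⁻¹) (-(b / A p ^ (b + 1))) (A p) := by
    have h3 := (hasDerivAt_pow b (A p)).fun_inv (pow_ne_zero b h0)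
    have h4 : -((b : ℂ) * A p ^ (b - 1)) / (A p ^ b) ^ 2 = -((b : ℂ) / A p ^ (b + 1)) := by
      rcases b with _ | b
      · simp
      · rw [Nat.add_sub_cancel]
        field_simp
        ring
    rw [h4] at h3
    exact h3
  have e1 := B2_cd_comp hw h1 d
  have e2 := B2_cd_comp hA h2 d
  have d1 : DifferentiableAt ℝ (fun y => w y ^ a) p := hw.pow a
  have d2 : DifferentiableAt ℝ (fun y => (A y ^ b)⁻¹) p :=
    (hA.pow b).inv (pow_ne_zero b h0)
  have e3 := cd_mul d1 d2 d
  simp only [div_eq_mul_inv]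
  rw [e3, e1, e2]
  ring

private theorem B2_cd_lin (k : Fin n) (p : Tn n) (e : Tn n × Tn n)
    (he : (∃ X, e = dζ X) ∨ (∃ Y, e = dz Y) ∨ e = dt n) :
    cd (fun p : Tn n => p.2.2 k - p.1 k) p e = 0 := by
  let L : Tn n →L[ℝ] ℂ := ((EuclideanSpace.proj (𝕜 := ℂ) k : Ec n →L[ℂ] ℂ).restrictScalars ℝ).comp
        ((ContinuousLinearMap.snd ℝ ℝ (Ec n)).comp (ContinuousLinearMap.snd ℝ (Ec n) (ℝ × Ec n)))
        - ((EuclideanSpace.proj (𝕜 := ℂ) k : Ec n →L[ℂ] ℂ).restrictScalars ℝ).comp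
        (ContinuousLinearMap.fst ℝ (Ec n) (ℝ × Ec n))
  have h1 : HasFDerivAt (fun p : Tn n => p.2.2 k - p.1 k) L p := L.hasFDerivAt
  unfold cd
  rw [h1.fderiv]
  rcases he with ⟨X, rfl⟩ | ⟨Y, rfl⟩ | rfl
  · simp [dζ, L]
    ring_nf
    simp
  · simp [dz, L]
    ring_nf
    simp
  · simp [dt, L]

/-- PROOF. `wk = (1 - τ) conj (ζ - z) + τ h`, and `∑ k, conj (ζ k - z k) * (ζ k - z k) = ‖ζ - z‖²`
(`EuclideanSpace.norm_sq_eq`, `Complex.mul_conj`/`Complex.normSq_eq_norm_sq`). -/
theorem aa_eq (δ : Ec n → ℝ) (h : Ec n → Ec n → Fin n → ℂ) (ε τ : ℝ) (z ζ : Ec n) :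
    aa δ h ε τ z ζ = ((1 - τ) * (ε ^ 2 * δ ζ ^ 2 + ‖ζ - z‖ ^ 2) : ℝ) + τ * vv δ h z ζ := by
  have h1 : ∑ k, (starRingEnd ℂ) (ζ k - z k) * (ζ k - z k) = ((‖ζ - z‖ ^ 2 : ℝ) : ℂ) := by
    rw [EuclideanSpace.norm_sq_eq]
    push_cast
    refine Finset.sum_congr rfl fun k _ => ?_
    rw [mul_comm, Complex.mul_conj, Complex.normSq_eq_norm_sq]
    simp
  unfold aa vv w0 wk
  simp_rw [add_mul, Finset.sum_add_distrib, mul_assoc, ← Finset.mul_sum, h1]
  push_cast
  ring

/-- PROOF. `aa_eq` and `Geo.pos`: `2 Re v ≥ δ z + δ ζ + c ‖ζ - z‖²`. -/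
theorem aa_re (hg : Geo U δ h c C) (ε : ℝ) {τ : ℝ} (h0 : 0 ≤ τ) {z ζ : Ec n} (hz : z ∈ U)
    (hζ : ζ ∈ U) :
    (1 - τ) * (ε ^ 2 * δ ζ ^ 2 + ‖ζ - z‖ ^ 2) + τ * ((δ z + δ ζ + c * ‖ζ - z‖ ^ 2) / 2) ≤
      (aa δ h ε τ z ζ).re := by
  have h1 := hg.pos z hz ζ hζ
  rw [aa_eq, Complex.add_re, Complex.ofReal_re, Complex.re_ofReal_mul]
  have h2 : (δ z + δ ζ + c * ‖ζ - z‖ ^ 2) / 2 ≤ (vv δ h z ζ).re := by linarith
  have h3 := mul_le_mul_of_nonneg_left h2 h0
  linarith

/-- The denominator is not zero for `z` in the domain and `ζ` in its closure.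
PROOF. The real part is positive, by `aa_re`: if `τ > 0` because `δ z > 0`, `δ ζ ≥ 0`; if `τ = 0`
then it is at least `ε² δ ζ² + ‖ζ - z‖²`, which is positive since `ζ = z` implies `δ ζ > 0`. -/
theorem aa_re_pos (hg : Geo U δ h c C) {ε : ℝ} (hε : 0 < ε) {τ : ℝ} (hτ : τ ∈ Icc (0 : ℝ) 1)
    {z ζ : Ec n} (hz : z ∈ Om U δ) (hζ : ζ ∈ Kc U δ) : 0 < (aa δ h ε τ z ζ).re := by
  obtain ⟨h0, h1⟩ := hτ
  obtain ⟨hzU, hzp⟩ := hz
  obtain ⟨hζU, hζp⟩ := hζ
  refine lt_of_lt_of_le ?_ (aa_re hg ε h0 hzU hζU)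
  have hc := hg.c0
  have hn : 0 ≤ ε ^ 2 * δ ζ ^ 2 + ‖ζ - z‖ ^ 2 := by positivity
  rcases eq_or_lt_of_le h0 with h | h
  · subst h
    have : 0 < ε ^ 2 * δ ζ ^ 2 + ‖ζ - z‖ ^ 2 := by
      rcases eq_or_ne ζ z with rfl | hne
      · positivity
      · have : 0 < ‖ζ - z‖ := norm_pos_iff.mpr (sub_ne_zero.mpr hne)
        positivity
    linarith
  · have h4 : 0 < τ * ((δ z + δ ζ + c * ‖ζ - z‖ ^ 2) / 2) := by
      have : 0 ≤ c * ‖ζ - z‖ ^ 2 := by positivity
      apply mul_pos h
      linarith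
    have h5 : 0 ≤ (1 - τ) * (ε ^ 2 * δ ζ ^ 2 + ‖ζ - z‖ ^ 2) := mul_nonneg (by linarith) hn
    linarith

/-- PROOF. `aa_re_pos`. -/
theorem aa_ne (hg : Geo U δ h c C) {ε : ℝ} (hε : 0 < ε) {τ : ℝ} (hτ : τ ∈ Icc (0 : ℝ) 1)
    {z ζ : Ec n} (hz : z ∈ Om U δ) (hζ : ζ ∈ Kc U δ) : aa δ h ε τ z ζ ≠ 0 := by
  intro h0
  have h1 := aa_re_pos hg hε hτ hz hζ
  rw [h0] at h1
  simp at h1

/-- PROOF. `aa` is a polynomial in `τ`, `ζ - z`, `conj (ζ - z)`, `h z ζ`, `δ ζ`. -/
theorem aa_c2 (hg : Geo U δ h c C) (ε : ℝ) {z ζ : Ec n} (hz : z ∈ U) (hζ : ζ ∈ U) (τ : ℝ) :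
    ContDiffAt ℝ 2 (fun p : Tn n => aa δ h ε p.2.1 p.1 p.2.2) (z, τ, ζ) := by
  have h1 := GG_c2 hg ε (Fin.elim0 : Fin 0 → Fin n) hz hζ τ
  rw [contDiffAt_pi] at h1
  have h2 : (fun p : Tn n => aa δ h ε p.2.1 p.1 p.2.2) = fun p =>
      GG δ h ε (Fin.elim0 : Fin 0 → Fin n) p (Fin.last _) +
        ∑ k : Fin n, GG δ h ε (Fin.elim0 : Fin 0 → Fin n) p (Fin.castSucc (Fin.castAdd 0 k)) *
          (p.2.2 k - p.1 k) := B2_aa_GG δ h ε _
  rw [h2]
  refine (h1 _).add (ContDiffAt.sum fun k _ => (h1 _).mul ?_)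
  exact B2_lin_c2 k _

/-- PROOF. A quotient of `C²` functions. -/
theorem F0_c2 (hg : Geo U δ h c C) (ε : ℝ) {z ζ : Ec n} (hz : z ∈ U) (hζ : ζ ∈ U) (τ : ℝ)
    (ha : aa δ h ε τ z ζ ≠ 0) :
    ContDiffAt ℝ 2 (fun p : Tn n => F0 δ h ε p.2.1 p.1 p.2.2) (z, τ, ζ) := by
  unfold F0
  simp only [div_eq_mul_inv]
  exact ((B2_w_c2 hg ε hz hζ τ).pow _).mul (((aa_c2 hg ε hz hζ τ).pow _).inv (pow_ne_zero _ ha))

/-- PROOF. As `F0_c2`. -/
theorem F1_c2 (hg : Geo U δ h c C) (ε : ℝ) {z ζ : Ec n} (hz : z ∈ U) (hζ : ζ ∈ U) (τ : ℝ)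
    (ha : aa δ h ε τ z ζ ≠ 0) :
    ContDiffAt ℝ 2 (fun p : Tn n => F1 δ h ε p.2.1 p.1 p.2.2) (z, τ, ζ) := by
  unfold F1
  simp only [div_eq_mul_inv]
  exact ((B2_w_c2 hg ε hz hζ τ).pow _).mul (((aa_c2 hg ε hz hζ τ).pow _).inv (pow_ne_zero _ ha))

/-- The general rule. Let `Φ = w0^a / aa^b` with `a, b ≥ 1`.
`μ k = -b w0^a aa^(-b-1) (ζ k - z k)`, `μ (A j) = 0`, `μ last = a w0^(a-1) aa^(-b) -
b w0^a aa^(-b-1)`.
PROOF. Write `w p = w0 ...` and `A p = aa ...` as functions on `Tn n`. For each of the directions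
`e = dζ X`, `dz Y`, `dt`, the functions `ζ k - z k` have `cd = 0` (for `dζ X`: `db` of a
holomorphic function is `0`; the same for `dz`; for `dt` they are constant), so by `cd_mul`, `cd_sum`,
`cd_apply`: `cd A p e = cd w p e + ∑ k, cd (GG ..) p e k * (ζ k - z k)` where `k` stands for
`Fin.castSucc (Fin.castAdd q k)` and `cd w p e = cd (GG ..) p e (Fin.last _)`. The chain rule gives
`cd (w^a / A^b) = a w^(a-1) A^(-b) cd w - b w^a A^(-b-1) cd A`. The last claim (Euler):
`∑ μ_i π_i G_i = ∑ k, μ k * wk k + μ last * w0 = -b w0^a A^(-b-1) (∑ wk (ζ-z) + w0) + a w0^a A^(-b)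
= (a - b) w0^a A^(-b)`. The third claim is the definition of `μ`. -/
theorem pow_rel (hg : Geo U δ h c C) (ε : ℝ) {q : ℕ} (I : Fin q → Fin n) {z ζ : Ec n} (hz : z ∈ U)
    (hζ : ζ ∈ U) (τ : ℝ) (ha : aa δ h ε τ z ζ ≠ 0) (a b : ℕ) (ha1 : 1 ≤ a) :
    ∃ μ : Fin (n + q + 1) → ℂ,
      (∀ e : Tn n × Tn n, ((∃ X, e = dζ X) ∨ (∃ Y, e = dz Y) ∨ e = dt n) →
        cd (fun p : Tn n => (w0 δ ε p.2.1 p.2.2 : ℂ) ^ a / aa δ h ε p.2.1 p.1 p.2.2 ^ b)
          (z, τ, ζ) e = ∑ i, μ i * cd (GG δ h ε I) (z, τ, ζ) e i) ∧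
      (∑ i, μ i * (πv n q i * GG δ h ε I (z, τ, ζ) i) =
        ((a : ℂ) - b) * ((w0 δ ε τ ζ : ℂ) ^ a / aa δ h ε τ z ζ ^ b)) ∧
      ∀ v : Fin n → ℂ, ∑ i, μ i * (sn (Fin.append v (0 : Fin q → ℂ)) (0 : ℂ) :
          Fin (n + q + 1) → ℂ) i =
        -b * ((w0 δ ε τ ζ : ℂ) ^ a / aa δ h ε τ z ζ ^ (b + 1)) * ∑ k, (ζ k - z k) * v k := by
  set p₀ : Tn n := (z, τ, ζ) with hp₀
  set w : Tn n → ℂ := fun p => (w0 δ ε p.2.1 p.2.2 : ℂ) with hw
  set A : Tn n → ℂ := fun p => aa δ h ε p.2.1 p.1 p.2.2 with hA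
  have hG2 := GG_c2 hg ε I hz hζ τ
  have hGd : DifferentiableAt ℝ (GG δ h ε I) p₀ := hG2.differentiableAt (by norm_num)
  have hGi : ∀ i, DifferentiableAt ℝ (fun y => GG δ h ε I y i) p₀ := fun i =>
    (differentiableAt_pi.mp hGd) i
  have hwG : w = fun y => GG δ h ε I y (Fin.last _) := by
    funext y; simp [hw, GG, sn]
  have hAG : A = fun p => GG δ h ε I p (Fin.last _) +
        ∑ k : Fin n, GG δ h ε I p (Fin.castSucc (Fin.castAdd q k)) *
          (p.2.2 k - p.1 k) := B2_aa_GG δ h ε I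
  have hwd : DifferentiableAt ℝ w p₀ := by rw [hwG]; exact hGi _
  have hAd : DifferentiableAt ℝ A p₀ :=
    (aa_c2 hg ε hz hζ τ).differentiableAt (by norm_num)
  have hA0 : A p₀ ≠ 0 := ha
  refine ⟨sn (Fin.append (fun k => -b * (w p₀ ^ a / A p₀ ^ (b + 1)) * (ζ k - z k))
    (0 : Fin q → ℂ)) (a * (w p₀ ^ (a - 1) / A p₀ ^ b) - b * (w p₀ ^ a / A p₀ ^ (b + 1))),
    ?_, ?_, ?_⟩
  · intro e he
    have hlin : ∀ k : Fin n, cd (fun p : Tn n => p.2.2 k - p.1 k) p₀ e = 0 := by
      intro k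
      exact B2_cd_lin k p₀ e he
    have hcdw : cd w p₀ e = cd (GG δ h ε I) p₀ e (Fin.last _) := by
      rw [hwG]; exact cd_apply hGd e _
    have hcdA : cd A p₀ e = cd (GG δ h ε I) p₀ e (Fin.last _) +
        ∑ k : Fin n, cd (GG δ h ε I) p₀ e (Fin.castSucc (Fin.castAdd q k)) * (ζ k - z k) := by
      rw [hAG]
      have hdl : ∀ k : Fin n, DifferentiableAt ℝ (fun p : Tn n => p.2.2 k - p.1 k) p₀ :=
        fun k => (B2_lin_c2 k p₀).differentiableAt (by norm_num)
      have hm : ∀ k : Fin n, DifferentiableAt ℝ (fun y : Tn n =>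
          GG δ h ε I y (Fin.castSucc (Fin.castAdd q k)) * (y.2.2 k - y.1 k)) p₀ :=
        fun k => (hGi _).mul (hdl k)
      have hs : DifferentiableAt ℝ (fun y : Tn n => ∑ k : Fin n,
          GG δ h ε I y (Fin.castSucc (Fin.castAdd q k)) * (y.2.2 k - y.1 k)) p₀ :=
        DifferentiableAt.fun_sum fun k _ => hm k
      rw [cd_add (hGi _) hs, cd_apply hGd, cd_sum _ (fun k _ => hm k)]
      congr 1
      refine Finset.sum_congr rfl fun k _ => ?_
      rw [cd_mul (hGi _) (hdl k), hlin k, cd_apply hGd]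
      simp [hp₀]
    have hdiv : cd (fun p => w p ^ a / A p ^ b) p₀ e =
        a * (w p₀ ^ (a - 1) / A p₀ ^ b) * cd w p₀ e -
          b * (w p₀ ^ a / A p₀ ^ (b + 1)) * cd A p₀ e := B2_cd_div hwd hAd hA0 e a b
    change cd (fun p => w p ^ a / A p ^ b) p₀ e = _
    rw [hdiv, hcdw, hcdA, Fin.sum_univ_castSucc, Fin.sum_univ_add]
    simp only [sn, Fin.snoc_castSucc, Fin.append_left, Fin.append_right, Fin.snoc_last,
      Pi.zero_apply, zero_mul, Finset.sum_const_zero, add_zero]
    rw [mul_add, Finset.mul_sum]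
    have : ∀ k : Fin n, -(b : ℂ) * (w p₀ ^ a / A p₀ ^ (b + 1)) * (ζ k - z k) *
        cd (GG δ h ε I) p₀ e (Fin.castSucc (Fin.castAdd q k)) =
        -((b : ℂ) * (w p₀ ^ a / A p₀ ^ (b + 1)) *
          (cd (GG δ h ε I) p₀ e (Fin.castSucc (Fin.castAdd q k)) * (ζ k - z k))) := by
      intro k; ring
    simp_rw [this, Finset.sum_neg_distrib]
    ring
  · have hAp : A p₀ = w p₀ + ∑ k, wk h τ z ζ k * (ζ k - z k) := rfl
    rw [Fin.sum_univ_castSucc, Fin.sum_univ_add]
    simp only [sn, πv, GG, Fin.snoc_castSucc, Fin.append_left, Fin.append_right, Fin.snoc_last,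
      Pi.zero_apply, zero_mul, Finset.sum_const_zero, add_zero, one_mul]
    have h1 : ∀ k : Fin n, -(b : ℂ) * (w p₀ ^ a / A p₀ ^ (b + 1)) * (ζ k - z k) *
        wk h τ z ζ k = -((b : ℂ) * (w p₀ ^ a / A p₀ ^ (b + 1))) *
          (wk h τ z ζ k * (ζ k - z k)) := by
      intro k; ring
    have h2 : ∑ k, wk h τ z ζ k * (ζ k - z k) = A p₀ - w p₀ := by rw [hAp]; ring
    change ∑ k : Fin n, -(b : ℂ) * (w p₀ ^ a / A p₀ ^ (b + 1)) * (ζ k - z k) *
        wk h τ z ζ k + (a * (w p₀ ^ (a - 1) / A p₀ ^ b) - b * (w p₀ ^ a / A p₀ ^ (b + 1))) *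
          w p₀ = ((a : ℂ) - b) * (w p₀ ^ a / A p₀ ^ b)
    simp_rw [h1]
    rw [← Finset.mul_sum, h2]
    obtain ⟨a, rfl⟩ : ∃ a', a = a' + 1 := ⟨a - 1, by omega⟩
    simp only [Nat.add_sub_cancel]
    field_simp
    ring
  · intro v
    rw [Fin.sum_univ_castSucc, Fin.sum_univ_add]
    simp only [sn, Fin.snoc_castSucc, Fin.append_left, Fin.append_right, Fin.snoc_last,
      Pi.zero_apply, mul_zero, Finset.sum_const_zero, add_zero]
    rw [Finset.mul_sum]
    refine Finset.sum_congr rfl fun k _ => ?_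
    change -(b : ℂ) * (w p₀ ^ a / A p₀ ^ (b + 1)) * (ζ k - z k) * v k =
      -b * (w p₀ ^ a / A p₀ ^ (b + 1)) * ((ζ k - z k) * v k)
    ring

/-- PROOF. The number of the sections is `n + 1`. -/
theorem sum_πv (n q : ℕ) : ∑ i, πv n q i = n + 1 := by
  rw [Fin.sum_univ_castSucc, Fin.sum_univ_add]
  simp only [πv, sn, Fin.snoc_castSucc, Fin.append_left, Fin.append_right, Fin.snoc_last]
  simp

end Pool.Agent.MPca0fc2.FD
end

section

/-! Volumes: general facts. -/

set_option autoImplicit false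

open Metric Set MeasureTheory Filter Topology

namespace Pool.Agent.MPca0fc2.FD

variable {n : ℕ}

theorem G2_finrank (n : ℕ) : Module.finrank ℝ (Ec n) = 2 * n := by
  rw [finrank_real_of_complex, finrank_euclideanSpace_fin]

theorem G2_ball_pos (n : ℕ) : 0 < volume (ball (0 : Ec n) 1) := measure_ball_pos _ _ one_pos

theorem G2_ball_top (n : ℕ) : volume (ball (0 : Ec n) 1) ≠ ⊤ := measure_ball_lt_top.ne

theorem G2_rect (s t : ℝ) (hs : 0 < s) (ht : 0 < t) :
    volume {w : ℂ | 0 < w.re ∧ w.re ≤ s ∧ |w.im| ≤ t} ≤ ENNReal.ofReal (2 * (s * t)) := by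
  have h1 : {w : ℂ | 0 < w.re ∧ w.re ≤ s ∧ |w.im| ≤ t} =
      Complex.measurableEquivRealProd ⁻¹' (Ioc 0 s ×ˢ Icc (-t) t) := by
    ext w
    simp only [mem_setOf_eq, mem_preimage, mem_prod, mem_Ioc, mem_Icc,
      Complex.measurableEquivRealProd_apply, abs_le, and_assoc]
  rw [h1, Complex.volume_preserving_equiv_real_prod.measure_preimage
    (measurableSet_Ioc.prod measurableSet_Icc).nullMeasurableSet, Measure.volume_eq_prod,
    Measure.prod_prod, Real.volume_Ioc, Real.volume_Icc, ← ENNReal.ofReal_mul (by linarith)]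
  refine ENNReal.ofReal_le_ofReal (le_of_eq ?_)
  ring

/-- The determinant of an expanding linear map.
PROOF. `A` is injective, so invertible (`LinearMap.injective_iff_surjective`), and
`A '' (ball 0 1) ⊇ ball 0 κ`. By `MeasureTheory.Measure.addHaar_image_continuousLinearMap`,
`volume (A '' ball 0 1) = |det A| volume (ball 0 1)`, and `volume (ball 0 κ) = κ^(2n) volume (ball 0 1)`
(`Measure.addHaar_ball`, `finrank ℝ (Ec n) = 2 n`). -/
theorem det_lb (A : Ec n →L[ℝ] Ec n) {κ : ℝ} (hκ : 0 < κ) (hA : ∀ X, κ * ‖X‖ ≤ ‖A X‖) :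
    κ ^ (2 * n) ≤ |A.det| := by
  have hinj : Function.Injective A := by
    intro x y hxy
    have h1 := hA (x - y)
    rw [map_sub, hxy, sub_self, norm_zero] at h1
    have h2 : ‖x - y‖ ≤ 0 := by
      by_contra h
      have := mul_pos hκ (not_le.1 h)
      linarith
    exact sub_eq_zero.1 (norm_le_zero_iff.1 h2)
  have hsurj : Function.Surjective A :=
    (LinearMap.injective_iff_surjective (f := (A : Ec n →ₗ[ℝ] Ec n))).1 hinj
  have hsub : ball (0 : Ec n) κ ⊆ A '' ball 0 1 := by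
    intro y hy
    obtain ⟨x, rfl⟩ := hsurj y
    rw [mem_ball_zero_iff] at hy
    refine ⟨x, ?_, rfl⟩
    rw [mem_ball_zero_iff]
    have h1 := (hA x).trans_lt hy
    by_contra h
    have := mul_le_mul_of_nonneg_left (not_lt.1 h) hκ.le
    linarith
  have h1 := measure_mono (μ := volume) hsub
  rw [Measure.addHaar_image_continuousLinearMap, Measure.addHaar_ball_of_pos _ _ hκ, G2_finrank,
    ENNReal.mul_le_mul_iff_left (G2_ball_pos n).ne' (G2_ball_top n)] at h1
  exact (ENNReal.ofReal_le_ofReal_iff (abs_nonneg _)).1 h1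

/-- Expanding maps increase volumes.
PROOF. `Φ` is injective on the open convex set `B`. For `a ∈ B`, the derivative satisfies
`κ ‖X‖ ≤ ‖Φ' a X‖`: `‖Φ (a + t X) - Φ a‖ ≥ κ t ‖X‖` for small `t > 0`, divide by `t`. By `det_lb`,
`|det Φ' a| ≥ κ^(2n)`, and `lintegral_abs_det_fderiv_eq_addHaar_image` gives
`volume (Φ '' S) = ∫⁻ over S of |det Φ'| ≥ κ^(2n) volume S`. -/
theorem vol_expand {Φ : Ec n → Ec n} {B S : Set (Ec n)} (hB : IsOpen B)
    (hS : MeasurableSet S) (hSB : S ⊆ B) (hd : DifferentiableOn ℝ Φ B) {κ : ℝ} (hκ : 0 < κ)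
    (he : ∀ a ∈ B, ∀ b ∈ B, κ * ‖a - b‖ ≤ ‖Φ a - Φ b‖) :
    ENNReal.ofReal (κ ^ (2 * n)) * volume S ≤ volume (Φ '' S) := by
  have hinj : InjOn Φ B := by
    intro a ha b hb hab
    have h1 := he a ha b hb
    rw [hab, sub_self, norm_zero] at h1
    have h2 : ‖a - b‖ ≤ 0 := by
      by_contra h
      have := mul_pos hκ (not_le.1 h)
      linarith
    exact sub_eq_zero.1 (norm_le_zero_iff.1 h2)
  have hdet : ∀ a ∈ B, κ ^ (2 * n) ≤ |(fderiv ℝ Φ a).det| := by
    intro a ha
    refine det_lb _ hκ fun X => ?_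
    have hfa : HasFDerivAt Φ (fderiv ℝ Φ a) a :=
      ((hd a ha).differentiableAt (hB.mem_nhds ha)).hasFDerivAt
    have hl : HasDerivAt (fun t : ℝ => Φ (a + t • X)) (fderiv ℝ Φ a X) 0 :=
      hfa.hasLineDerivAt X
    have hsl := (hasDerivAt_iff_tendsto_slope.1 hl).norm
    refine ge_of_tendsto hsl ?_
    have hcont : Continuous fun t : ℝ => a + t • X := by fun_prop
    have hnb : ∀ᶠ t : ℝ in 𝓝 0, a + t • X ∈ B := by
      have h0 : a + (0 : ℝ) • X ∈ B := by simpa using ha
      exact hcont.continuousAt.eventually_mem (hB.mem_nhds h0)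
    have hnb' : ∀ᶠ t : ℝ in 𝓝[≠] 0, a + t • X ∈ B := hnb.filter_mono nhdsWithin_le_nhds
    filter_upwards [hnb', self_mem_nhdsWithin] with t ht ht0
    have ht0' : t ≠ 0 := ht0
    have h1 := he _ ht a ha
    rw [add_sub_cancel_left, norm_smul, Real.norm_eq_abs] at h1
    rw [slope_def_module, sub_zero, zero_smul, add_zero, norm_smul, norm_inv, Real.norm_eq_abs]
    have hta : 0 < |t| := abs_pos.2 ht0'
    rw [le_inv_mul_iff₀ hta]
    linarith
  rw [← lintegral_abs_det_fderiv_eq_addHaar_image volume hS (f' := fun a => fderiv ℝ Φ a)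
    (fun a ha => ((hd a (hSB ha)).differentiableAt
      (hB.mem_nhds (hSB ha))).hasFDerivAt.hasFDerivWithinAt) (hinj.mono hSB),
    ← setLIntegral_const]
  refine setLIntegral_mono' hS fun a ha => ?_
  exact ENNReal.ofReal_le_ofReal (hdet a (hSB ha))

/-- The volume of a box.
PROOF. `EuclideanSpace.volume_preserving_measurableEquiv` (or `EuclideanSpace.volume_preserving_symm..`)
reduces to the product measure on `Fin n → ℂ`, `MeasureTheory.Measure.pi_pi`: the set is contained in
the product of the sets `{w | 0 < w.re ≤ s, |w.im| ≤ t}` (volume `≤ 2 s t`;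
`Complex.volume_preserving_equiv_real_prod`) in the place `k` and the closed discs
`closedBall (z l) r` (volume `π r²`, `Complex.volume_closedBall`) in the other places. So
the volume is at most `2 s t (π r²)^(n-1)`. -/
theorem vol_box (hn : 1 ≤ n) : ∃ C' : ℝ, 0 < C' ∧ ∀ (k : Fin n) (z : Ec n) (s t r : ℝ), 0 < s →
    0 < t → 0 < r →
    volume {Y : Ec n | 0 < (Y k).re ∧ (Y k).re ≤ s ∧ |(Y k).im| ≤ t ∧ ∀ l, l ≠ k → ‖Y l - z l‖ ≤ r} ≤
      ENNReal.ofReal (C' * (s * t * r ^ (2 * n - 2))) := by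
  classical
  let e : Ec n ≃L[ℂ] (Fin n → ℂ) := EuclideanSpace.equiv (Fin n) ℂ
  have hmeas : Measurable e := e.continuous.measurable
  let μ : Measure (Fin n → ℂ) := Measure.map e volume
  haveI : μ.IsAddHaarMeasure := ContinuousLinearEquiv.isAddHaarMeasure_map e volume
  have hμ : μ = Measure.addHaarScalarFactor μ volume • (volume : Measure (Fin n → ℂ)) :=
    Measure.isAddLeftInvariant_eq_smul μ volume
  set c0 : NNReal := Measure.addHaarScalarFactor μ volume with hc0
  refine ⟨c0 * (2 * Real.pi ^ (n - 1)) + 1, by positivity, fun k z s t r hs ht hr => ?_⟩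
  let S : Fin n → Set ℂ := fun l =>
    if l = k then {w : ℂ | 0 < w.re ∧ w.re ≤ s ∧ |w.im| ≤ t} else closedBall (z l) r
  have hSm : MeasurableSet (Set.pi univ S) := by
    refine MeasurableSet.univ_pi fun l => ?_
    by_cases hl : l = k
    · simp only [S, if_pos hl]
      have m1 : MeasurableSet {w : ℂ | 0 < w.re} :=
        measurableSet_lt measurable_const Complex.measurable_re
      have m2 : MeasurableSet {w : ℂ | w.re ≤ s} :=
        measurableSet_le Complex.measurable_re measurable_const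
      have m3 : MeasurableSet {w : ℂ | |w.im| ≤ t} :=
        measurableSet_le (measurable_norm.comp Complex.measurable_im) measurable_const
      exact m1.inter (m2.inter m3)
    · simp only [S, if_neg hl]
      exact measurableSet_closedBall
  have hsub : {Y : Ec n | 0 < (Y k).re ∧ (Y k).re ≤ s ∧ |(Y k).im| ≤ t ∧
      ∀ l, l ≠ k → ‖Y l - z l‖ ≤ r} ⊆ e ⁻¹' (Set.pi univ S) := by
    rintro Y ⟨h1, h2, h3, h4⟩
    rw [mem_preimage, mem_univ_pi]
    intro l
    by_cases hl : l = k
    · subst hl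
      simp only [S, if_true]
      exact ⟨h1, h2, h3⟩
    · simp only [S, if_neg hl]
      rw [mem_closedBall, dist_eq_norm]
      exact h4 l hl
  have hpi : (volume : Measure (Fin n → ℂ)) (Set.pi univ S) ≤
      ENNReal.ofReal (2 * (s * t)) * (ENNReal.ofReal (Real.pi * r ^ 2)) ^ (n - 1) := by
    rw [volume_pi_pi, ← Finset.mul_prod_erase Finset.univ _ (Finset.mem_univ k)]
    have a1 : volume (S k) ≤ ENNReal.ofReal (2 * (s * t)) := by
      simp only [S, if_true]
      exact G2_rect s t hs ht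
    have a2 : ∏ l ∈ Finset.univ.erase k, volume (S l) ≤
        (ENNReal.ofReal (Real.pi * r ^ 2)) ^ (n - 1) := by
      have a3 : (ENNReal.ofReal (Real.pi * r ^ 2)) ^ (n - 1) =
          ∏ _l ∈ Finset.univ.erase k, ENNReal.ofReal (Real.pi * r ^ 2) := by
        rw [Finset.prod_const, Finset.card_erase_of_mem (Finset.mem_univ k), Finset.card_univ,
          Fintype.card_fin]
      rw [a3]
      refine Finset.prod_le_prod' fun l hl => ?_
      have hlk : l ≠ k := Finset.ne_of_mem_erase hl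
      simp only [S, if_neg hlk]
      rw [Complex.volume_closedBall, ENNReal.ofReal_mul Real.pi_pos.le, ENNReal.ofReal_pow hr.le,
        mul_comm]
      refine mul_le_mul' (le_of_eq ?_) le_rfl
      rw [← ENNReal.ofReal_coe_nnreal, NNReal.coe_real_pi]
    exact mul_le_mul' a1 a2
  calc volume {Y : Ec n | 0 < (Y k).re ∧ (Y k).re ≤ s ∧ |(Y k).im| ≤ t ∧
        ∀ l, l ≠ k → ‖Y l - z l‖ ≤ r} ≤ volume (e ⁻¹' (Set.pi univ S)) := measure_mono hsub
    _ = μ (Set.pi univ S) := (Measure.map_apply hmeas hSm).symm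
    _ = (c0 : ENNReal) * volume (Set.pi univ S) := by
        rw [hμ]
        rfl
    _ ≤ (c0 : ENNReal) * (ENNReal.ofReal (2 * (s * t)) *
        (ENNReal.ofReal (Real.pi * r ^ 2)) ^ (n - 1)) := by gcongr
    _ = ENNReal.ofReal (c0 * (2 * (s * t) * (Real.pi * r ^ 2) ^ (n - 1))) := by
        rw [← ENNReal.ofReal_pow (by positivity), ← ENNReal.ofReal_mul (by positivity),
          ENNReal.ofReal_mul (NNReal.coe_nonneg _), ENNReal.ofReal_coe_nnreal]
    _ ≤ _ := by
        refine ENNReal.ofReal_le_ofReal ?_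
        have e1 : (r ^ 2) ^ (n - 1) = r ^ (2 * n - 2) := by
          rw [← pow_mul]
          congr 1
          omega
        rw [mul_pow, e1]
        have e2 : 0 ≤ s * t * r ^ (2 * n - 2) := by positivity
        nlinarith

/-- PROOF. `Measure.addHaar_closedBall`. -/
theorem vol_ball (n : ℕ) : ∃ C' : ℝ, 0 < C' ∧ ∀ (z : Ec n) (r : ℝ), 0 < r →
    volume (closedBall z r) ≤ ENNReal.ofReal (C' * r ^ (2 * n)) := by
  refine ⟨(volume (ball (0 : Ec n) 1)).toReal,
    ENNReal.toReal_pos (G2_ball_pos n).ne' (G2_ball_top n), fun z r hr => ?_⟩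
  rw [Measure.addHaar_closedBall _ _ hr.le, G2_finrank, mul_comm,
    ENNReal.ofReal_mul ENNReal.toReal_nonneg, ENNReal.ofReal_toReal (G2_ball_top n)]

/-- A covering with a bounded number of balls.
PROOF. `ball 0 R` is totally bounded; but the number must not depend on `T`. Take a maximal family of
points of `T` with mutual distances `≥ r`: the balls of radius `r / 2` around them are disjoint and
contained in `ball 0 (R + r)`, so their number is at most `((R + r) / (r / 2))^(2n)`, comparing volumes.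
By maximality the balls of radius `r` cover `T`. (To get a maximal family: a finite set of points of `T`
with mutual distances `≥ r` of the largest cardinality, `Nat.findGreatest`, since the cardinalities are
bounded.) Another way: cover `ball 0 R` by finitely many balls of radius `r / 2` (compactness, a number
which depends on `n, R, r` only), and choose a point of `T` in each of them which meets `T`. -/
theorem cover_balls (n : ℕ) (R r : ℝ) (hr : 0 < r) : ∃ M : ℕ, ∀ T : Set (Ec n), T ⊆ closedBall 0 R →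
    ∃ F : Finset (Ec n), F.card ≤ M ∧ (↑F ⊆ T) ∧ T ⊆ ⋃ x ∈ F, ball x r := by
  classical
  obtain ⟨t, _, htf, ht⟩ := (isCompact_closedBall (0 : Ec n) R).finite_cover_balls (half_pos hr)
  refine ⟨htf.toFinset.card, fun T hT => ?_⟩
  let f : Ec n → Ec n := fun x => if h : (ball x (r / 2) ∩ T).Nonempty then h.some else x
  refine ⟨(htf.toFinset.filter fun x => (ball x (r / 2) ∩ T).Nonempty).image f,
    Finset.card_image_le.trans (Finset.card_filter_le _ _), ?_, ?_⟩
  · intro y hy
    rw [Finset.mem_coe, Finset.mem_image] at hy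
    obtain ⟨x, hx, rfl⟩ := hy
    rw [Finset.mem_filter] at hx
    simp only [f, dif_pos hx.2]
    exact hx.2.some_mem.2
  · intro y hy
    have hy' := ht (hT hy)
    rw [mem_iUnion₂] at hy'
    obtain ⟨x, hx, hyx⟩ := hy'
    have hne : (ball x (r / 2) ∩ T).Nonempty := ⟨y, hyx, hy⟩
    rw [mem_iUnion₂]
    refine ⟨f x, Finset.mem_image_of_mem f (Finset.mem_filter.2
      ⟨htf.mem_toFinset.2 hx, hne⟩), ?_⟩
    simp only [f, dif_pos hne]
    have h1 := hne.some_mem.1
    rw [mem_ball] at h1 hyx ⊢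
    have h2 := dist_triangle_right y hne.some x
    linarith

end Pool.Agent.MPca0fc2.FD
end
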