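import Mathlib
import Pool.Agent.Lib.MP_ca0fc2_an.Holo
import Pool.Agent.Lib.MP_ca0fc2_an.Mg.G045

section

set_option autoImplicit false

open Metric Set Filter Topology
open scoped BoundedContinuousFunction

namespace Pool.Agent.Lib.MP_ca0fc2_an

variable {E : Type*} [NormedAddCommGroup E] [NormedSpace ℂ E]

/-- Weierstrass: a uniform limit of bounded holomorphic functions is holomorphic. -/
theorem differentiableOn_of_unif_limit {G : ℕ → E → ℂ} {g : E → ℂ} {U : Set E} (hU : IsOpen U)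
    (hG : ∀ n, DifferentiableOn ℂ (G n) U) {ε : ℕ → ℝ} (hε : Tendsto ε atTop (𝓝 0))
    (hlim : ∀ n, ∀ z ∈ U, ‖G n z - g z‖ ≤ ε n) {M : ℝ} (hM : ∀ z ∈ U, ‖g z‖ ≤ M) :
    DifferentiableOn ℂ g U := by
  intro z₀ hz₀
  obtain ⟨r, hr, hsub⟩ := Metric.isOpen_iff.mp hU z₀ hz₀
  -- derivatives form a Cauchy sequence
  have hcau : CauchySeq fun n => fderiv ℂ (G n) z₀ := by
    rw [Metric.cauchySeq_iff']
    intro δ hδ
    have h2 : ∀ᶠ n in atTop, |ε n| < δ * r / 8 := by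
      have := hε.abs
      rw [abs_zero] at this
      exact this.eventually_lt_const (by positivity)
    obtain ⟨n₀, hn₀⟩ := eventually_atTop.mp h2
    refine ⟨n₀, fun n hn => ?_⟩
    rw [dist_eq_norm]
    have hb : ∀ z ∈ ball z₀ r, ‖G n z - G n₀ z‖ ≤ δ * r / 4 := by
      intro z hz
      have h3 := hlim n z (hsub hz)
      have h4 := hlim n₀ z (hsub hz)
      have h5 := hn₀ n hn
      have h6 := hn₀ n₀ le_rfl
      have h7 := le_abs_self (ε n)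
      have h8 := le_abs_self (ε n₀)
      calc ‖G n z - G n₀ z‖ = ‖(G n z - g z) - (G n₀ z - g z)‖ := by congr 1; ring
        _ ≤ ‖G n z - g z‖ + ‖G n₀ z - g z‖ := norm_sub_le _ _
        _ ≤ δ * r / 4 := by linarith
    have hd : DifferentiableOn ℂ (fun z => G n z - G n₀ z) (ball z₀ r) :=
      ((hG n).mono hsub).sub ((hG n₀).mono hsub)
    have hfd : fderiv ℂ (fun z => G n z - G n₀ z) z₀ = fderiv ℂ (G n) z₀ - fderiv ℂ (G n₀) z₀ := by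
      apply fderiv_fun_sub
      · exact (hG n).differentiableAt (hU.mem_nhds hz₀)
      · exact (hG n₀).differentiableAt (hU.mem_nhds hz₀)
    have hle : ‖fderiv ℂ (G n) z₀ - fderiv ℂ (G n₀) z₀‖ ≤ δ / 2 := by
      apply ContinuousLinearMap.opNorm_le_bound _ (by positivity)
      intro v
      have := norm_fderiv_apply_le hr hd hb v
      rw [hfd] at this
      refine this.trans (le_of_eq ?_)
      field_simp
      ring
    linarith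
  obtain ⟨L, hL⟩ := cauchySeq_tendsto_of_complete hcau
  have hbM : ∀ n, ∀ z ∈ ball z₀ r, ‖G n z‖ ≤ M + ε n := by
    intro n z hz
    have h3 := hlim n z (hsub hz)
    have h4 := hM z (hsub hz)
    calc ‖G n z‖ = ‖g z + (G n z - g z)‖ := by congr 1; ring
      _ ≤ ‖g z‖ + ‖G n z - g z‖ := norm_add_le _ _
      _ ≤ M + ε n := by linarith
  have hpt : ∀ z ∈ U, Tendsto (fun n => G n z) atTop (𝓝 (g z)) := by
    intro z hz
    rw [tendsto_iff_norm_sub_tendsto_zero]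
    exact squeeze_zero (fun n => norm_nonneg _) (fun n => hlim n z hz) hε
  have hrem : ∀ v : E, ‖v‖ < r → ‖g (z₀ + v) - g z₀ - L v‖ ≤ 4 * M / r ^ 2 * ‖v‖ ^ 2 := by
    intro v hv
    have hzv : z₀ + v ∈ U := hsub (by simpa using hv)
    have t1 : Tendsto (fun n => ‖G n (z₀ + v) - G n z₀ - fderiv ℂ (G n) z₀ v‖) atTop
        (𝓝 ‖g (z₀ + v) - g z₀ - L v‖) := by
      apply Tendsto.norm
      apply Tendsto.sub
      · exact (hpt _ hzv).sub (hpt _ hz₀)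
      · exact (ContinuousLinearMap.apply ℂ ℂ v).continuous.continuousAt.tendsto.comp hL
    have t2 : Tendsto (fun n => 4 * (M + ε n) / r ^ 2 * ‖v‖ ^ 2) atTop
        (𝓝 (4 * (M + 0) / r ^ 2 * ‖v‖ ^ 2)) := by
      apply Tendsto.mul_const
      apply Tendsto.div_const
      apply Tendsto.const_mul
      exact hε.const_add M
    have := le_of_tendsto_of_tendsto' t1 t2 fun n =>
      taylor_two hr ((hG n).mono hsub) (hbM n) hv
    rwa [add_zero] at this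
  have hder : HasFDerivAt g L z₀ := by
    rw [hasFDerivAt_iff_isLittleO_nhds_zero]
    have hO : (fun v => g (z₀ + v) - g z₀ - L v) =O[𝓝 0] fun v => ‖v‖ ^ 2 := by
      apply Asymptotics.IsBigO.of_bound (4 * M / r ^ 2)
      filter_upwards [ball_mem_nhds (0 : E) hr] with v hv
      have := hrem v (by simpa using hv)
      simpa using this
    refine hO.trans_isLittleO ?_
    exact (Asymptotics.isLittleO_norm_pow_id one_lt_two)
  exact hder.differentiableAt.differentiableWithinAt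

/-- bounded families of bounded holomorphic functions on the ball -/
structure BH {I : Type*} (F : I → E → ℂ) : Prop where
  holo : ∀ i, DifferentiableOn ℂ (F i) (ball 0 1)
  bdd : ∃ C : ℝ, ∀ i, ∀ z ∈ ball (0 : E) 1, ‖F i z‖ ≤ C

section BHlemmas

variable {I : Type*} {F G : I → E → ℂ}

theorem BH.bdd' (hF : BH F) : ∃ C : ℝ, 0 < C ∧ ∀ i, ∀ z ∈ ball (0 : E) 1, ‖F i z‖ ≤ C := by
  obtain ⟨C, hC⟩ := hF.bdd
  exact ⟨max C 1, by positivity, fun i z hz => (hC i z hz).trans (le_max_left _ _)⟩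

theorem BH.add (hF : BH F) (hG : BH G) : BH fun i z => F i z + G i z := by
  obtain ⟨C, hC⟩ := hF.bdd
  obtain ⟨D, hD⟩ := hG.bdd
  exact ⟨fun i => (hF.holo i).add (hG.holo i), C + D, fun i z hz =>
    (norm_add_le _ _).trans (add_le_add (hC i z hz) (hD i z hz))⟩

theorem BH.mul (hF : BH F) (hG : BH G) : BH fun i z => F i z * G i z := by
  obtain ⟨C, hC0, hC⟩ := hF.bdd'
  obtain ⟨D, hD⟩ := hG.bdd
  exact ⟨fun i => (hF.holo i).mul (hG.holo i), C * D, fun i z hz => by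
    rw [norm_mul]
    exact mul_le_mul (hC i z hz) (hD i z hz) (norm_nonneg _) hC0.le⟩

theorem BH.constI {c : I → ℂ} (hc : ∃ C : ℝ, ∀ i, ‖c i‖ ≤ C) : BH fun i (_ : E) => c i := by
  obtain ⟨C, hC⟩ := hc
  exact ⟨fun i => differentiableOn_const _, C, fun i z _ => hC i⟩

theorem BH.const (c : ℂ) : BH fun (_ : I) (_ : E) => c :=
  BH.constI ⟨‖c‖, fun _ => le_rfl⟩

theorem BH.neg (hF : BH F) : BH fun i z => - F i z := by
  obtain ⟨C, hC⟩ := hF.bdd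
  exact ⟨fun i => (hF.holo i).neg, C, fun i z hz => by rw [norm_neg]; exact hC i z hz⟩

theorem BH.sub (hF : BH F) (hG : BH G) : BH fun i z => F i z - G i z := by
  simpa only [sub_eq_add_neg] using hF.add hG.neg

theorem BH.pow (hF : BH F) (n : ℕ) : BH fun i z => F i z ^ n := by
  induction n with
  | zero => simpa using BH.const (I := I) (E := E) 1
  | succ n ih => simpa only [pow_succ] using ih.mul hF

theorem BH.sum {κ : Type*} {s : Finset κ} {F : κ → I → E → ℂ} (hF : ∀ k ∈ s, BH (F k)) :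
    BH fun i z => ∑ k ∈ s, F k i z := by
  classical
  induction s using Finset.induction_on with
  | empty => simpa using BH.const (I := I) (E := E) 0
  | insert a s has ih =>
    have h1 := (hF a (Finset.mem_insert_self _ _)).add
      (ih fun k hk => hF k (Finset.mem_insert_of_mem hk))
    simpa only [Finset.sum_insert has] using h1

theorem BH.clm (L : E →L[ℂ] ℂ) : BH fun (_ : I) (z : E) => L z := by
  refine ⟨fun i => L.differentiable.differentiableOn, ‖L‖, fun i z hz => ?_⟩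
  refine (L.le_opNorm z).trans ?_
  rw [mem_ball_zero_iff] at hz
  nlinarith [norm_nonneg L, norm_nonneg z]

theorem BH.congr (hF : BH F) (h : ∀ i, ∀ z ∈ ball (0 : E) 1, G i z = F i z) : BH G := by
  obtain ⟨C, hC⟩ := hF.bdd
  exact ⟨fun i => (hF.holo i).congr (h i), C, fun i z hz => by rw [h i z hz]; exact hC i z hz⟩

/-- composition with holomorphic self-maps -/
theorem BH.comp {J : Type*} (hF : BH F) {T : J → E → E} {τ : J → I}
    (hT : ∀ j, DifferentiableOn ℂ (T j) (ball 0 1))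
    (hTm : ∀ j, ∀ z ∈ ball (0 : E) 1, T j z ∈ ball (0 : E) 1) :
    BH fun j z => F (τ j) (T j z) := by
  obtain ⟨C, hC⟩ := hF.bdd
  exact ⟨fun j => (hF.holo (τ j)).comp (hT j) (hTm j), C, fun j z hz => hC _ _ (hTm j z hz)⟩

end BHlemmas

/-- A character of the algebra of bounded families of bounded holomorphic functions. -/
structure Char (I : Type*) (E : Type*) [NormedAddCommGroup E] [NormedSpace ℂ E] where
  φ : (I → E → ℂ) → ℂ
  map_add : ∀ {F G : I → E → ℂ}, BH F → BH G → φ (fun i z => F i z + G i z) = φ F + φ G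
  map_mul : ∀ {F G : I → E → ℂ}, BH F → BH G → φ (fun i z => F i z * G i z) = φ F * φ G
  map_const : ∀ c : ℂ, φ (fun _ _ => c) = c
  bound : ∀ {F : I → E → ℂ}, BH F → ∀ {C : ℝ}, 0 ≤ C →
    (∀ i, ∀ z ∈ ball (0 : E) 1, ‖F i z‖ ≤ C) → ‖φ F‖ ≤ C

section Gelfand

variable {I : Type*}

/-- the index set of the algebra -/
structure Pt (I : Type*) (E : Type*) [NormedAddCommGroup E] [NormedSpace ℂ E] where
  i : I
  z : E
  mem : z ∈ ball (0 : E) 1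

instance : TopologicalSpace (Pt I E) := ⊥

instance : DiscreteTopology (Pt I E) := ⟨rfl⟩

/-- the Banach algebra of bounded families of holomorphic functions -/
def famAlg (I : Type*) (E : Type*) [NormedAddCommGroup E] [NormedSpace ℂ E] :
    Subalgebra ℂ (Pt I E →ᵇ ℂ) where
  carrier := {g | ∀ i, ∃ G : E → ℂ, DifferentiableOn ℂ G (ball 0 1) ∧
    ∀ (z : E) (hz : z ∈ ball (0 : E) 1), g ⟨i, z, hz⟩ = G z}
  mul_mem' := by
    intro a b ha hb i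
    obtain ⟨A, hA, hA'⟩ := ha i
    obtain ⟨B, hB, hB'⟩ := hb i
    exact ⟨fun z => A z * B z, hA.mul hB, fun z hz => by simp [hA', hB']⟩
  add_mem' := by
    intro a b ha hb i
    obtain ⟨A, hA, hA'⟩ := ha i
    obtain ⟨B, hB, hB'⟩ := hb i
    exact ⟨fun z => A z + B z, hA.add hB, fun z hz => by simp [hA', hB']⟩
  algebraMap_mem' := by
    intro r i
    exact ⟨fun _ => r, differentiableOn_const _, fun z hz => by simp⟩

theorem isClosed_famAlg : IsClosed (famAlg I E : Set (Pt I E →ᵇ ℂ)) := by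
  apply IsSeqClosed.isClosed
  intro u g hu hug i
  choose G hG hG' using fun n => hu n i
  classical
  have hgz : ∀ z (hz : z ∈ ball (0 : E) 1),
      (if hz : z ∈ ball (0 : E) 1 then g ⟨i, z, hz⟩ else 0) = g ⟨i, z, hz⟩ := by
    intro z hz
    simp only [hz, dif_pos]
  refine ⟨fun z => if hz : z ∈ ball (0 : E) 1 then g ⟨i, z, hz⟩ else 0, ?_, ?_⟩
  · refine differentiableOn_of_unif_limit isOpen_ball hG (ε := fun n => ‖u n - g‖) ?_ ?_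
      (M := ‖g‖) ?_
    · exact tendsto_iff_norm_sub_tendsto_zero.mp hug
    · intro n z hz
      rw [hgz z hz, ← hG' n z hz]
      exact (u n - g).norm_coe_le_norm ⟨i, z, hz⟩
    · intro z hz
      rw [hgz z hz]
      exact g.norm_coe_le_norm _
  · intro z hz
    exact (hgz z hz).symm

instance : CompleteSpace (famAlg I E) := (isClosed_famAlg (I := I) (E := E)).completeSpace_coe

/-- embedding of bounded families -/
noncomputable def emb (F : I → E → ℂ) (hF : BH F) : famAlg I E :=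
  ⟨BoundedContinuousFunction.ofNormedAddCommGroup (fun p : Pt I E => F p.i p.z)
    continuous_of_discreteTopology hF.bdd.choose
    (fun p => hF.bdd.choose_spec p.i p.z p.mem), fun i => ⟨F i, hF.holo i, fun _ _ => rfl⟩⟩

theorem emb_apply (F : I → E → ℂ) (hF : BH F) (p : Pt I E) :
    (emb F hF : Pt I E →ᵇ ℂ) p = F p.i p.z := rfl

theorem exists_rep (a : famAlg I E) : ∃ F : I → E → ℂ, BH F ∧
    ∀ p : Pt I E, (a : Pt I E →ᵇ ℂ) p = F p.i p.z := by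
  choose G hG hG' using a.2
  refine ⟨G, ⟨hG, ‖(a : Pt I E →ᵇ ℂ)‖, ?_⟩, ?_⟩
  · intro i z hz
    rw [← hG' i z hz]
    exact (a : Pt I E →ᵇ ℂ).norm_coe_le_norm _
  · rintro ⟨i, z, hz⟩
    exact hG' i z hz

/-- Existence of characters. -/
theorem exists_char {S : Set (I → E → ℂ)} (hS : ∀ F ∈ S, BH F)
    (hno : ¬ ∃ (n : ℕ) (a h : Fin n → I → E → ℂ), (∀ k, a k ∈ S) ∧ (∀ k, BH (h k)) ∧
      ∀ i, ∀ z ∈ ball (0 : E) 1, ∑ k, a k i z * h k i z = 1) :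
    ∃ Φ : Char I E, ∀ F ∈ S, Φ.φ F = 0 := by
  classical
  set T : Set (famAlg I E) := {a | ∃ F ∈ S, ∀ p : Pt I E, (a : Pt I E →ᵇ ℂ) p = F p.i p.z} with hT
  have hne : Ideal.span T ≠ ⊤ := by
    intro htop
    have h1 : (1 : famAlg I E) ∈ Ideal.span T := by rw [htop]; trivial
    rw [Ideal.span, Submodule.mem_span_set'] at h1
    obtain ⟨n, f, g, hfg⟩ := h1
    choose F hFS hF using fun k => (g k).2
    choose h hh hh' using fun k => exists_rep (f k)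
    apply hno
    refine ⟨n, F, h, hFS, hh, ?_⟩
    intro i z hz
    have h2 := congrArg (fun a : famAlg I E => (a : Pt I E →ᵇ ℂ) ⟨i, z, hz⟩) hfg
    simp only [smul_eq_mul] at h2
    have h3 : ((∑ k, f k * (g k : famAlg I E) : famAlg I E) : Pt I E →ᵇ ℂ) ⟨i, z, hz⟩ =
        ∑ k, F k i z * h k i z := by
      rw [AddSubmonoidClass.coe_finsetSum, BoundedContinuousFunction.sum_apply]
      apply Finset.sum_congr rfl
      intro k _
      rw [MulMemClass.coe_mul, BoundedContinuousFunction.mul_apply, hF k, hh' k, mul_comm]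
    rw [h3] at h2
    rw [h2]
    rfl
  obtain ⟨M, hM, hTM⟩ := Ideal.exists_le_maximal _ hne
  have := hM
  set χ := M.toCharacterSpace with hχ
  have hχb : ∀ a : famAlg I E, ∀ C : ℝ, 0 ≤ C → (∀ p, ‖(a : Pt I E →ᵇ ℂ) p‖ ≤ C) → ‖χ a‖ ≤ C := by
    intro a C hC hb
    have h1 : ‖χ a‖ ≤ ‖a‖ * ‖(1 : famAlg I E)‖ := AlgHom.norm_apply_le_self_mul_norm_one χ a
    have h2 : ‖a‖ ≤ C := (BoundedContinuousFunction.norm_le hC).mpr hb
    have h3 : ‖(1 : famAlg I E)‖ ≤ 1 :=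
      (BoundedContinuousFunction.norm_le (f := (1 : Pt I E →ᵇ ℂ)) zero_le_one).mpr fun p => by simp
    calc ‖χ a‖ ≤ ‖a‖ * ‖(1 : famAlg I E)‖ := h1
      _ ≤ C * 1 := mul_le_mul h2 h3 (norm_nonneg _) hC
      _ = C := mul_one C
  have hφ : ∀ {F : I → E → ℂ} (hF : BH F),
      (if h : BH F then χ (emb F h) else 0) = χ (emb F hF) := by
    intro F hF
    simp only [hF, dif_pos]
  refine ⟨⟨fun F => if h : BH F then χ (emb F h) else 0, ?_, ?_, ?_, ?_⟩, ?_⟩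
  · intro F G hF hG
    rw [hφ hF, hφ hG, hφ (hF.add hG), ← map_add]
    congr 1
  · intro F G hF hG
    rw [hφ hF, hφ hG, hφ (hF.mul hG), ← map_mul]
    congr 1
  · intro c
    rw [hφ (BH.const c)]
    have : emb (fun _ _ => c) (BH.const c) = algebraMap ℂ (famAlg I E) c := by
      ext p
      rfl
    rw [this]
    exact AlgHomClass.commutes χ c
  · intro F hF C hC hb
    rw [hφ hF]
    exact hχb _ C hC fun p => hb p.i p.z p.mem
  · intro F hFS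
    simp only
    rw [hφ (hS F hFS)]
    apply Ideal.toCharacterSpace_apply_eq_zero_of_mem
    apply hTM
    apply Ideal.subset_span
    exact ⟨F, hFS, fun p => rfl⟩

end Gelfand

end Pool.Agent.Lib.MP_ca0fc2_an
end

section

set_option autoImplicit false

open Metric Set Filter Topology MeasureTheory
open scoped InnerProductSpace ComplexConjugate

namespace Pool.Agent.Lib.MP_ca0fc2_an

section General

variable {E : Type*} [NormedAddCommGroup E] [NormedSpace ℂ E]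

/-- Directional derivatives of a bounded holomorphic function are holomorphic. -/
theorem differentiableOn_fderiv_apply {f : E → ℂ} {U : Set E} (hU : IsOpen U)
    (hf : DifferentiableOn ℂ f U) {M : ℝ} (hM : ∀ z ∈ U, ‖f z‖ ≤ M) (v : E) :
    DifferentiableOn ℂ (fun z => fderiv ℂ f z v) U := by
  intro z₀ hz₀
  obtain ⟨r, hr, hsub⟩ := Metric.isOpen_iff.mp hU z₀ hz₀
  have hM0 : 0 ≤ M := (norm_nonneg _).trans (hM z₀ hz₀)
  have hr2 : 0 < r / 2 := by positivity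
  set δ : ℝ := r / (2 * (‖v‖ + 1)) with hδ
  have hδ0 : 0 < δ := by positivity
  have hδv : δ * ‖v‖ < r / 2 := by
    rw [hδ, div_mul_eq_mul_div, div_lt_div_iff₀ (by positivity) (by positivity)]
    nlinarith [norm_nonneg v]
  have hball : ∀ z ∈ ball z₀ (r / 2), ball z (r / 2) ⊆ U := by
    intro z hz w hw
    apply hsub
    rw [mem_ball] at *
    calc dist w z₀ ≤ dist w z + dist z z₀ := dist_triangle _ _ _
      _ < r := by linarith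
  have hh : ∀ n : ℕ, 0 < δ / (n + 1) ∧ δ / (n + 1) ≤ δ := by
    intro n
    have hn : (0 : ℝ) < n + 1 := by positivity
    refine ⟨by positivity, ?_⟩
    rw [div_le_iff₀ hn]
    have : (1 : ℝ) ≤ n + 1 := by
      have : (0 : ℝ) ≤ n := Nat.cast_nonneg n
      linarith
    nlinarith
  have key : DifferentiableOn ℂ (fun z => fderiv ℂ f z v) (ball z₀ (r / 2)) := by
    refine differentiableOn_of_unif_limit isOpen_ball
      (G := fun (n : ℕ) z => (((δ / (n + 1) : ℝ) : ℂ))⁻¹ *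
        (f (z + ((δ / (n + 1) : ℝ) : ℂ) • v) - f z))
      (ε := fun n : ℕ => 4 * M / (r / 2) ^ 2 * ‖v‖ ^ 2 * (δ / (n + 1)))
      (M := 2 * M / (r / 2) * ‖v‖) ?_ ?_ ?_ ?_
    · intro n
      apply DifferentiableOn.const_mul
      apply DifferentiableOn.sub
      · refine hf.comp (t := U) (f := fun z => z + ((δ / (n + 1) : ℝ) : ℂ) • v)
          ((differentiable_id.add_const _).differentiableOn) ?_
        intro z hz
        apply hball z hz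
        rw [mem_ball, dist_self_add_left, norm_smul, Complex.norm_real,
          Real.norm_of_nonneg (hh n).1.le]
        exact (mul_le_mul_of_nonneg_right (hh n).2 (norm_nonneg v)).trans_lt hδv
      · exact hf.mono fun z hz => hball z hz (mem_ball_self hr2)
    · have h1 : Tendsto (fun n : ℕ => δ / ((n : ℝ) + 1)) atTop (𝓝 0) :=
        tendsto_const_div_atTop_nhds_zero_nat δ |>.comp (tendsto_add_atTop_nat 1) |>.congr
          fun n => by simp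
      simpa using h1.const_mul (4 * M / (r / 2) ^ 2 * ‖v‖ ^ 2)
    · intro n z hz
      have hlt : ‖((δ / (n + 1) : ℝ) : ℂ) • v‖ < r / 2 := by
        rw [norm_smul, Complex.norm_real, Real.norm_of_nonneg (hh n).1.le]
        exact (mul_le_mul_of_nonneg_right (hh n).2 (norm_nonneg v)).trans_lt hδv
      have h1 := taylor_two hr2 (hf.mono (hball z hz)) (fun w hw => hM w (hball z hz hw)) hlt
      rw [map_smul, norm_smul, Complex.norm_real, Real.norm_of_nonneg (hh n).1.le] at h1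
      have hne : (((δ / (n + 1) : ℝ) : ℂ)) ≠ 0 := by
        exact_mod_cast (hh n).1.ne'
      set h : ℝ := δ / (n + 1) with hhdef
      have e1 : ((h : ℂ))⁻¹ * (f (z + (h : ℂ) • v) - f z) - fderiv ℂ f z v =
          ((h : ℂ))⁻¹ * (f (z + (h : ℂ) • v) - f z - (h : ℂ) • fderiv ℂ f z v) := by
        rw [smul_eq_mul]
        field_simp
      rw [e1, norm_mul, norm_inv, Complex.norm_real, Real.norm_of_nonneg (hh n).1.le,
        inv_mul_le_iff₀ (hh n).1]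
      calc ‖f (z + (h : ℂ) • v) - f z - (h : ℂ) • fderiv ℂ f z v‖
          ≤ 4 * M / (r / 2) ^ 2 * (h * ‖v‖) ^ 2 := h1
        _ = h * (4 * M / (r / 2) ^ 2 * ‖v‖ ^ 2 * h) := by ring
    · intro z hz
      exact norm_fderiv_apply_le hr2 (hf.mono (hball z hz)) (fun w hw => hM w (hball z hz hw)) v
  exact (key.differentiableAt (isOpen_ball.mem_nhds (mem_ball_self hr2))).differentiableWithinAt

end General

end Pool.Agent.Lib.MP_ca0fc2_an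
end

section

set_option autoImplicit false

open Metric Set MeasureTheory Filter Topology
open scoped InnerProductSpace ENNReal

namespace Pool.Agent.MPca0fc2.PT

variable {E : Type*} [NormedAddCommGroup E] [InnerProductSpace ℂ E]

theorem geo_ss_nonneg (z : E) : 0 ≤ ss z := Real.sqrt_nonneg _

theorem geo_ss_sq {z : E} (hz : ‖z‖ ≤ 1) : ss z ^ 2 = 1 - ‖z‖ ^ 2 :=
  Real.sq_sqrt (by nlinarith [norm_nonneg z])

theorem geo_ss_pos {z : E} (hz : ‖z‖ < 1) : 0 < ss z :=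
  Real.sqrt_pos.mpr (by nlinarith [norm_nonneg z])

theorem geo_ss_le {z : E} : ss z ≤ 1 := by
  unfold ss
  exact Real.sqrt_le_iff.mpr ⟨by norm_num, by nlinarith [norm_nonneg z]⟩

theorem geo_ss_neg (z : E) : ss (-z) = ss z := by unfold ss; rw [norm_neg]

theorem geo_self (z : E) : ⟪z, z⟫_ℂ = ((‖z‖ ^ 2 : ℝ) : ℂ) := by
  rw [inner_self_eq_norm_sq_to_K]; push_cast; rfl

/-- the linear map, with its two coefficients -/
theorem geo_AA {z : E} (hz : ‖z‖ ≤ 1) : ∃ S T : ℂ, S = ((ss z : ℝ) : ℂ) ∧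
    T = (((1 + ss z)⁻¹ : ℝ) : ℂ) ∧ S * S = 1 - ⟪z, z⟫_ℂ ∧ T * (1 + S) = 1 ∧
    (starRingEnd ℂ) S = S ∧ (starRingEnd ℂ) T = T ∧ ∀ x, AA z x = S • x + (T * ⟪z, x⟫_ℂ) • z := by
  refine ⟨((ss z : ℝ) : ℂ), (((1 + ss z)⁻¹ : ℝ) : ℂ), rfl, rfl, ?_, ?_, Complex.conj_ofReal _,
    Complex.conj_ofReal _, ?_⟩
  · rw [geo_self, ← Complex.ofReal_mul, ← sq, geo_ss_sq hz]; push_cast; ring
  · have h : (1 + ss z) ≠ 0 := by have := geo_ss_nonneg z; positivity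
    rw [← Complex.ofReal_one, ← Complex.ofReal_add, ← Complex.ofReal_mul, inv_mul_cancel₀ h]
  · intro x
    simp [AA, innerSL_apply_apply, smul_smul]

theorem geo_AA_neg (z x : E) : AA (-z) x = AA z x := by
  simp [AA, innerSL_apply_apply, geo_ss_neg, smul_smul]

theorem AA_self {z : E} (hz : ‖z‖ ≤ 1) : AA z z = z := by
  obtain ⟨S, T, -, -, hS, hT, -, -, hA⟩ := geo_AA hz
  rw [hA, ← add_smul]
  have : S + T * ⟪z, z⟫_ℂ = 1 := by
    linear_combination (T) * hS + (1 - S) * hT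
  rw [this, one_smul]

theorem geo_inner_AA {z : E} (hz : ‖z‖ ≤ 1) (x : E) : ⟪z, AA z x⟫_ℂ = ⟪z, x⟫_ℂ := by
  obtain ⟨S, T, -, -, hS, hT, -, -, hA⟩ := geo_AA hz
  rw [hA, inner_add_right, inner_smul_right, inner_smul_right]
  linear_combination (T * ⟪z, x⟫_ℂ) * hS + ((1 - S) * ⟪z, x⟫_ℂ) * hT

theorem geo_inner_AA' {z : E} (hz : ‖z‖ ≤ 1) (x : E) : ⟪AA z x, z⟫_ℂ = ⟪x, z⟫_ℂ := by
  rw [← inner_conj_symm, geo_inner_AA hz, inner_conj_symm]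

theorem geo_inner_AA_AA {z : E} (hz : ‖z‖ ≤ 1) (x y : E) :
    ⟪AA z x, AA z y⟫_ℂ = (1 - ⟪z, z⟫_ℂ) * ⟪x, y⟫_ℂ + ⟪x, z⟫_ℂ * ⟪z, y⟫_ℂ := by
  obtain ⟨S, T, -, -, hS, hT, cS, cT, hA⟩ := geo_AA hz
  rw [hA x, inner_add_left, inner_smul_left, inner_smul_left, geo_inner_AA hz, hA y,
    inner_add_right, inner_smul_right, inner_smul_right, map_mul, inner_conj_symm, cS, cT]
  linear_combination (⟪x, y⟫_ℂ) * hS + (⟪x, z⟫_ℂ * ⟪z, y⟫_ℂ) * hT

theorem gg_zero (z : E) : gg z 0 = z := by simp [gg]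

theorem one_add_ne {z x : E} (hz : ‖z‖ < 1) (hx : ‖x‖ ≤ 1) : 1 + ⟪z, x⟫_ℂ ≠ 0 := by
  intro h
  have h1 : ⟪z, x⟫_ℂ = -1 := by linear_combination h
  have h2 := norm_inner_le_norm (𝕜 := ℂ) z x
  rw [h1, norm_neg, norm_one] at h2
  nlinarith [norm_nonneg z, norm_nonneg x]

theorem geo_one_add_ne' {z x : E} (hz : ‖z‖ < 1) (hx : ‖x‖ ≤ 1) : 1 + ⟪x, z⟫_ℂ ≠ 0 := by
  have h := one_add_ne hz hx
  intro h1
  apply h
  have := congrArg (starRingEnd ℂ) h1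
  rw [map_add, map_one, inner_conj_symm, map_zero] at this
  exact this

theorem inner_gg_self {z x : E} (hz : ‖z‖ < 1) (hx : ‖x‖ ≤ 1) :
    1 - ⟪z, gg z x⟫_ℂ = ((1 - ‖z‖ ^ 2 : ℝ) : ℂ) / (1 + ⟪z, x⟫_ℂ) := by
  have h := one_add_ne hz hx
  unfold gg
  rw [inner_smul_right, inner_add_right, geo_inner_AA hz.le, geo_self]
  push_cast
  field_simp
  ring

theorem inner_gg {z x y : E} (hz : ‖z‖ < 1) (hx : ‖x‖ ≤ 1) (hy : ‖y‖ ≤ 1) :
    1 - ⟪gg z x, gg z y⟫_ℂ =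
      ((1 - ‖z‖ ^ 2 : ℝ) : ℂ) * (1 - ⟪x, y⟫_ℂ) / ((1 + ⟪x, z⟫_ℂ) * (1 + ⟪z, y⟫_ℂ)) := by
  have h := geo_one_add_ne' hz hx
  have h' := one_add_ne hz hy
  unfold gg
  rw [inner_smul_left, inner_smul_right, inner_add_left, inner_add_right, inner_add_right,
    geo_inner_AA hz.le, geo_inner_AA' hz.le, geo_inner_AA_AA hz.le, map_inv₀, map_add, map_one,
    inner_conj_symm, geo_self]
  push_cast
  field_simp
  ring

theorem geo_norm_one_add (z x : E) : ‖1 + ⟪x, z⟫_ℂ‖ = ‖1 + ⟪z, x⟫_ℂ‖ := by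
  have : 1 + ⟪x, z⟫_ℂ = (starRingEnd ℂ) (1 + ⟪z, x⟫_ℂ) := by
    rw [map_add, map_one, inner_conj_symm]
  rw [this, Complex.norm_conj]

theorem norm_gg {z x : E} (hz : ‖z‖ < 1) (hx : ‖x‖ ≤ 1) :
    1 - ‖gg z x‖ ^ 2 = (1 - ‖z‖ ^ 2) * (1 - ‖x‖ ^ 2) / ‖1 + ⟪z, x⟫_ℂ‖ ^ 2 := by
  have h := inner_gg hz hx hx
  have h1 : (1 + ⟪x, z⟫_ℂ) * (1 + ⟪z, x⟫_ℂ) = ((‖1 + ⟪z, x⟫_ℂ‖ ^ 2 : ℝ) : ℂ) := by
    have : 1 + ⟪x, z⟫_ℂ = (starRingEnd ℂ) (1 + ⟪z, x⟫_ℂ) := by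
      rw [map_add, map_one, inner_conj_symm]
    rw [this, mul_comm, Complex.mul_conj, Complex.normSq_eq_norm_sq]
  rw [h1, geo_self, geo_self] at h
  exact_mod_cast h

theorem geo_den_pos {z x : E} (hz : ‖z‖ < 1) (hx : ‖x‖ ≤ 1) : 0 < ‖1 + ⟪z, x⟫_ℂ‖ :=
  norm_pos_iff.mpr (one_add_ne hz hx)

theorem gg_lt {z x : E} (hz : ‖z‖ < 1) (hx : ‖x‖ < 1) : ‖gg z x‖ < 1 := by
  have h := norm_gg hz hx.le
  have h1 := geo_den_pos hz hx.le
  have h2 : 0 < (1 - ‖z‖ ^ 2) * (1 - ‖x‖ ^ 2) / ‖1 + ⟪z, x⟫_ℂ‖ ^ 2 := by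
    have : 0 < 1 - ‖z‖ ^ 2 := by nlinarith [norm_nonneg z]
    have : 0 < 1 - ‖x‖ ^ 2 := by nlinarith [norm_nonneg x]
    positivity
  rw [← h] at h2
  nlinarith [norm_nonneg (gg z x)]

theorem gg_le {z x : E} (hz : ‖z‖ < 1) (hx : ‖x‖ ≤ 1) : ‖gg z x‖ ≤ 1 := by
  have h := norm_gg hz hx
  have h1 := geo_den_pos hz hx
  have h2 : 0 ≤ (1 - ‖z‖ ^ 2) * (1 - ‖x‖ ^ 2) / ‖1 + ⟪z, x⟫_ℂ‖ ^ 2 := by
    have : 0 < 1 - ‖z‖ ^ 2 := by nlinarith [norm_nonneg z]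
    have : 0 ≤ 1 - ‖x‖ ^ 2 := by nlinarith [norm_nonneg x]
    positivity
  rw [← h] at h2
  nlinarith [norm_nonneg (gg z x)]

theorem geo_AA_AA {z : E} (hz : ‖z‖ ≤ 1) (x : E) :
    AA z (AA z x) = (1 - ⟪z, z⟫_ℂ) • x + ⟪z, x⟫_ℂ • z := by
  obtain ⟨S, T, -, -, hS, hT, cS, cT, hA⟩ := geo_AA hz
  rw [hA (AA z x), geo_inner_AA hz, hA x, smul_add, smul_smul, smul_smul, add_assoc, ← add_smul, hS]
  congr 2
  linear_combination (⟪z, x⟫_ℂ) * hT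

theorem gg_neg_gg {z x : E} (hz : ‖z‖ < 1) (hx : ‖x‖ ≤ 1) : gg (-z) (gg z x) = x := by
  have h := one_add_ne hz hx
  have hz1 : (1 : ℂ) - ⟪z, z⟫_ℂ ≠ 0 := by
    rw [geo_self, ← Complex.ofReal_one, ← Complex.ofReal_sub, Complex.ofReal_ne_zero]
    nlinarith [norm_nonneg z]
  have h1 : 1 + ⟪-z, gg z x⟫_ℂ = (1 - ⟪z, z⟫_ℂ) / (1 + ⟪z, x⟫_ℂ) := by
    rw [inner_neg_left, ← sub_eq_add_neg, inner_gg_self hz hx, geo_self]
    push_cast; rfl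
  have h2 : -z + AA (-z) (gg z x) = ((1 + ⟪z, x⟫_ℂ)⁻¹ * (1 - ⟪z, z⟫_ℂ)) • x := by
    rw [geo_AA_neg, gg, map_smul, map_add, AA_self hz.le, geo_AA_AA hz.le]
    have e : z + ((1 - ⟪z, z⟫_ℂ) • x + ⟪z, x⟫_ℂ • z) =
        (1 - ⟪z, z⟫_ℂ) • x + (1 + ⟪z, x⟫_ℂ) • z := by
      rw [add_smul, one_smul]; abel
    rw [e, smul_add, smul_smul, smul_smul, inv_mul_cancel₀ h, one_smul]
    abel
  rw [gg, h1, h2, smul_smul]
  have : ((1 - ⟪z, z⟫_ℂ) / (1 + ⟪z, x⟫_ℂ))⁻¹ * ((1 + ⟪z, x⟫_ℂ)⁻¹ * (1 - ⟪z, z⟫_ℂ)) = 1 := by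
    field_simp
  rw [this, one_smul]

theorem gg_image {z : E} (hz : ‖z‖ < 1) : gg z '' ball 0 1 = ball 0 1 := by
  ext w
  constructor
  · rintro ⟨x, hx, rfl⟩
    rw [mem_ball_zero_iff] at hx ⊢
    exact gg_lt hz hx
  · intro hw
    rw [mem_ball_zero_iff] at hw
    have hz' : ‖-z‖ < 1 := by rwa [norm_neg]
    refine ⟨gg (-z) w, ?_, ?_⟩
    · rw [mem_ball_zero_iff]
      exact gg_lt hz' hw
    · have := gg_neg_gg hz' hw.le
      rwa [neg_neg] at this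

theorem HH_gg {z x y : E} (hz : ‖z‖ < 1) (hx : ‖x‖ < 1) (hy : ‖y‖ < 1) :
    HH (gg z x) (gg z y) = HH x y := by
  have h1 := geo_den_pos hz hx.le
  have h2 := geo_den_pos hz hy.le
  have h3 : 0 < 1 - ‖z‖ ^ 2 := by nlinarith [norm_nonneg z]
  unfold HH
  rw [norm_gg hz hx.le, norm_gg hz hy.le, inner_gg hz hx.le hy.le, norm_div, norm_mul, norm_mul,
    geo_norm_one_add z x, Complex.norm_real, Real.norm_eq_abs, abs_of_pos h3]
  field_simp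

theorem HH_comm (x y : E) : HH x y = HH y x := by
  have : ‖1 - ⟪x, y⟫_ℂ‖ = ‖1 - ⟪y, x⟫_ℂ‖ := by
    have : 1 - ⟪x, y⟫_ℂ = (starRingEnd ℂ) (1 - ⟪y, x⟫_ℂ) := by
      rw [map_sub, map_one, inner_conj_symm]
    rw [this, Complex.norm_conj]
  unfold HH
  rw [this, mul_comm (1 - ‖x‖ ^ 2)]

theorem geo_one_sub {x y : E} (hx : ‖x‖ < 1) (hy : ‖y‖ < 1) :
    0 < 1 - ‖x‖ * ‖y‖ ∧ 1 - ‖x‖ * ‖y‖ ≤ ‖1 - ⟪x, y⟫_ℂ‖ := by
  constructor
  · nlinarith [norm_nonneg x, norm_nonneg y]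
  · have h1 := norm_sub_norm_le (1 : ℂ) ⟪x, y⟫_ℂ
    have h2 := norm_inner_le_norm (𝕜 := ℂ) x y
    rw [norm_one] at h1
    linarith

theorem HH_pos {x y : E} (hx : ‖x‖ < 1) (hy : ‖y‖ < 1) : 0 < HH x y := by
  obtain ⟨h1, h2⟩ := geo_one_sub hx hy
  have h3 : 0 < ‖1 - ⟪x, y⟫_ℂ‖ := by linarith
  have : 0 < 1 - ‖x‖ ^ 2 := by nlinarith [norm_nonneg x]
  have : 0 < 1 - ‖y‖ ^ 2 := by nlinarith [norm_nonneg y]
  unfold HH
  positivity

theorem HH_le_one {x y : E} (hx : ‖x‖ < 1) (hy : ‖y‖ < 1) : HH x y ≤ 1 := by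
  obtain ⟨h1, h2⟩ := geo_one_sub hx hy
  unfold HH
  rw [div_le_one (by have : 0 < ‖1 - ⟪x, y⟫_ℂ‖ := by linarith
                     positivity)]
  calc (1 - ‖x‖ ^ 2) * (1 - ‖y‖ ^ 2) ≤ (1 - ‖x‖ * ‖y‖) ^ 2 := by
        nlinarith [sq_nonneg (‖x‖ - ‖y‖)]
    _ ≤ ‖1 - ⟪x, y⟫_ℂ‖ ^ 2 := by gcongr

theorem geo_HH_zero (x : E) : HH x 0 = 1 - ‖x‖ ^ 2 := by simp [HH]

theorem HH_mul {x y w : E} (hx : ‖x‖ < 1) (hy : ‖y‖ < 1) (hw : ‖w‖ < 1) :
    HH x y * HH y w ≤ 4 * HH x w := by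
  have hy' : ‖-y‖ < 1 := by rwa [norm_neg]
  have h0 : gg (-y) y = 0 := by
    have := gg_neg_gg hy (x := 0) (by simp)
    rwa [gg_zero] at this
  obtain ⟨a, ha⟩ : ∃ a, a = gg (-y) x := ⟨_, rfl⟩
  obtain ⟨b, hb⟩ : ∃ b, b = gg (-y) w := ⟨_, rfl⟩
  have ha1 : ‖a‖ < 1 := by rw [ha]; exact gg_lt hy' hx
  have hb1 : ‖b‖ < 1 := by rw [hb]; exact gg_lt hy' hw
  rw [← HH_gg hy' hx hy, ← HH_gg hy' hy hw, ← HH_gg hy' hx hw, h0, ← ha, ← hb, HH_comm 0 b,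
    geo_HH_zero, geo_HH_zero]
  obtain ⟨h1, h2⟩ := geo_one_sub ha1 hb1
  have h3 : 0 < ‖1 - ⟪a, b⟫_ℂ‖ := by linarith
  have h4 : ‖1 - ⟪a, b⟫_ℂ‖ ≤ 2 := by
    have g1 := norm_sub_le (1 : ℂ) ⟪a, b⟫_ℂ
    have g2 := norm_inner_le_norm (𝕜 := ℂ) a b
    rw [norm_one] at g1
    nlinarith [norm_nonneg a, norm_nonneg b]
  have h5 : 0 < 1 - ‖a‖ ^ 2 := by nlinarith [norm_nonneg a]
  have h6 : 0 < 1 - ‖b‖ ^ 2 := by nlinarith [norm_nonneg b]
  unfold HH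
  rw [mul_div_assoc', le_div_iff₀ (by positivity)]
  have h7 : ‖1 - ⟪a, b⟫_ℂ‖ ^ 2 ≤ 4 := by nlinarith
  calc (1 - ‖a‖ ^ 2) * (1 - ‖b‖ ^ 2) * ‖1 - ⟪a, b⟫_ℂ‖ ^ 2 ≤
      (1 - ‖a‖ ^ 2) * (1 - ‖b‖ ^ 2) * 4 := by gcongr
    _ = _ := by ring

theorem hasFDerivAt_gg {z x : E} (hz : ‖z‖ < 1) (hx : ‖x‖ ≤ 1) :
    HasFDerivAt (𝕜 := ℂ) (gg z) (gg' z x) x := by
  have h := one_add_ne hz hx
  have h1 : HasFDerivAt (𝕜 := ℂ) (fun y : E => 1 + ⟪z, y⟫_ℂ) (innerSL ℂ z) x :=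
    ((innerSL ℂ z).hasFDerivAt).const_add 1
  have h2 : HasFDerivAt (𝕜 := ℂ) (fun y : E => z + AA z y) (AA z) x :=
    ((AA z).hasFDerivAt).const_add z
  have h3 := (((hasDerivAt_inv h).comp_hasFDerivAt x h1).smul h2)
  refine HasFDerivAt.congr_fderiv (f' := _) h3 ?_
  ext v
  simp only [gg', gg, ContinuousLinearMap.add_apply, ContinuousLinearMap.smul_apply,
    ContinuousLinearMap.sub_apply, ContinuousLinearMap.smulRight_apply, innerSL_apply_apply,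
    ContinuousLinearMap.neg_apply, smul_sub, smul_smul, smul_eq_mul, Function.comp]
  rw [sub_eq_add_neg, ← neg_smul]
  congr 2
  field_simp

theorem geo_dist_sq {z : E} (hz : ‖z‖ ≤ 1) (v : E) :
    ‖AA z v‖ ^ 2 = (1 - ‖z‖ ^ 2) * ‖v‖ ^ 2 + ‖⟪z, v⟫_ℂ‖ ^ 2 := by
  have h := geo_inner_AA_AA hz v v
  rw [geo_self, geo_self, geo_self] at h
  have h1 : ⟪v, z⟫_ℂ * ⟪z, v⟫_ℂ = ((‖⟪z, v⟫_ℂ‖ ^ 2 : ℝ) : ℂ) := by
    rw [← inner_conj_symm v z, mul_comm, Complex.mul_conj, Complex.normSq_eq_norm_sq]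
  rw [h1] at h
  exact_mod_cast h

/-- the automorphisms do not increase the anisotropic length by more than a factor -/
theorem gau_gg {z x v : E} (hz : ‖z‖ < 1) (hx : ‖x‖ < 1) :
    gau (1 - ‖gg z x‖ ^ 2) (gg z x) (gg' z x v) ≤ 6 * ‖v‖ / (1 - ‖x‖ ^ 2) := by
  have hD := geo_den_pos hz hx.le
  have hd := one_add_ne hz hx.le
  have hz2 : 0 < 1 - ‖z‖ ^ 2 := by nlinarith [norm_nonneg z]
  have hx2 : 0 < 1 - ‖x‖ ^ 2 := by nlinarith [norm_nonneg x]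
  obtain ⟨w, hw⟩ : ∃ w, w = gg z x := ⟨_, rfl⟩
  have hwn := norm_gg hz hx.le
  rw [← hw] at hwn
  have hw2 : 0 < 1 - ‖w‖ ^ 2 := by rw [hwn]; positivity
  obtain ⟨d, hdd⟩ : ∃ d, d = 1 + ⟪z, x⟫_ℂ := ⟨_, rfl⟩
  rw [← hdd] at hwn hD hd
  -- lower bound of the denominator
  have hDl : 1 - ‖x‖ ^ 2 ≤ 2 * ‖d‖ := by
    have h1 : 1 - ‖x‖ ≤ ‖d‖ := by
      have h2 := norm_sub_norm_le (1 : ℂ) (-⟪z, x⟫_ℂ)
      have h3 := norm_inner_le_norm (𝕜 := ℂ) z x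
      rw [norm_one, norm_neg, sub_neg_eq_add, ← hdd] at h2
      nlinarith [norm_nonneg z, norm_nonneg x]
    nlinarith [norm_nonneg x]
  have hX : gg' z x v = d⁻¹ • (AA z v - ⟪z, v⟫_ℂ • w) := by
    rw [hdd, hw]
    simp [gg', innerSL_apply_apply]
  have hwe : w = d⁻¹ • (z + AA z x) := by rw [hw, hdd, gg]
  have hxv : ‖⟪x, v⟫_ℂ‖ ≤ ‖x‖ * ‖v‖ := norm_inner_le_norm _ _
  have hzv : ‖⟪z, v⟫_ℂ‖ ≤ ‖v‖ := by
    have := norm_inner_le_norm (𝕜 := ℂ) z v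
    nlinarith [norm_nonneg v]
  -- the inner product of `w` and `A v`
  have hcd : (starRingEnd ℂ) d ≠ 0 := (map_ne_zero _).mpr hd
  have hwA : ⟪w, AA z v⟫_ℂ = ⟪z, v⟫_ℂ + ((1 - ‖z‖ ^ 2 : ℝ) : ℂ) * ⟪x, v⟫_ℂ / (starRingEnd ℂ) d := by
    rw [hwe, inner_smul_left, inner_add_left, geo_inner_AA hz.le, geo_inner_AA_AA hz.le,
      geo_self, map_inv₀]
    have h1 : (starRingEnd ℂ) d = 1 + ⟪x, z⟫_ℂ := by
      rw [hdd, map_add, map_one, inner_conj_symm]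
    rw [h1] at hcd ⊢
    push_cast
    field_simp
    ring
  have hdn : (starRingEnd ℂ) d * d = ((‖d‖ ^ 2 : ℝ) : ℂ) := by
    rw [mul_comm, Complex.mul_conj, Complex.normSq_eq_norm_sq]
  -- first part
  have h1 : ⟪w, gg' z x v⟫_ℂ =
      ((1 - ‖w‖ ^ 2 : ℝ) : ℂ) * (⟪z, v⟫_ℂ / d + ⟪x, v⟫_ℂ / ((1 - ‖x‖ ^ 2 : ℝ) : ℂ)) := by
    rw [hX, inner_smul_right, inner_sub_right, inner_smul_right, hwA, geo_self]
    have e1 : ((1 - ‖w‖ ^ 2 : ℝ) : ℂ) / ((1 - ‖x‖ ^ 2 : ℝ) : ℂ) =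
        ((1 - ‖z‖ ^ 2 : ℝ) : ℂ) / ((starRingEnd ℂ) d * d) := by
      rw [hdn, ← Complex.ofReal_div, ← Complex.ofReal_div, hwn]
      congr 1
      field_simp
    have e2 : ((1 - ‖w‖ ^ 2 : ℝ) : ℂ) * (⟪z, v⟫_ℂ / d + ⟪x, v⟫_ℂ / ((1 - ‖x‖ ^ 2 : ℝ) : ℂ)) =
        ((1 - ‖w‖ ^ 2 : ℝ) : ℂ) * ⟪z, v⟫_ℂ / d +
          ⟪x, v⟫_ℂ * (((1 - ‖w‖ ^ 2 : ℝ) : ℂ) / ((1 - ‖x‖ ^ 2 : ℝ) : ℂ)) := by ring
    rw [e2, e1]
    push_cast
    field_simp
    ring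
  have h2 : ‖⟪w, gg' z x v⟫_ℂ‖ / (1 - ‖w‖ ^ 2) ≤ 3 * ‖v‖ / (1 - ‖x‖ ^ 2) := by
    rw [h1, norm_mul, Complex.norm_real, Real.norm_eq_abs, abs_of_pos hw2,
      mul_div_cancel_left₀ _ hw2.ne']
    refine (norm_add_le _ _).trans ?_
    rw [norm_div, norm_div, Complex.norm_real, Real.norm_eq_abs, abs_of_pos hx2]
    have g1 : ‖⟪z, v⟫_ℂ‖ / ‖d‖ ≤ 2 * ‖v‖ / (1 - ‖x‖ ^ 2) := by
      rw [div_le_div_iff₀ hD hx2]
      calc ‖⟪z, v⟫_ℂ‖ * (1 - ‖x‖ ^ 2) ≤ ‖v‖ * (2 * ‖d‖) := by gcongr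
        _ = _ := by ring
    have g2 : ‖⟪x, v⟫_ℂ‖ / (1 - ‖x‖ ^ 2) ≤ ‖v‖ / (1 - ‖x‖ ^ 2) := by
      apply div_le_div_of_nonneg_right _ hx2.le
      nlinarith [norm_nonneg v]
    calc _ ≤ 2 * ‖v‖ / (1 - ‖x‖ ^ 2) + ‖v‖ / (1 - ‖x‖ ^ 2) := add_le_add g1 g2
      _ = _ := by ring
  -- second part
  have h3 : ‖gg' z x v‖ ^ 2 / (1 - ‖w‖ ^ 2) ≤ 5 * ‖v‖ ^ 2 / (1 - ‖x‖ ^ 2) ^ 2 := by
    have k1 : ‖gg' z x v‖ ^ 2 = (‖d‖ ^ 2)⁻¹ * (‖AA z v‖ ^ 2 -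
        2 * (⟪AA z v, ⟪z, v⟫_ℂ • w⟫_ℂ).re + ‖⟪z, v⟫_ℂ • w‖ ^ 2) := by
      rw [hX, norm_smul, mul_pow, norm_inv, inv_pow, @norm_sub_sq ℂ]
      rfl
    have k2 : ⟪AA z v, ⟪z, v⟫_ℂ • w⟫_ℂ = ((‖⟪z, v⟫_ℂ‖ ^ 2 : ℝ) : ℂ) +
        ((1 - ‖z‖ ^ 2 : ℝ) : ℂ) * (⟪z, v⟫_ℂ * ((starRingEnd ℂ) ⟪x, v⟫_ℂ / d)) := by
      rw [inner_smul_right, ← inner_conj_symm (AA z v) w, hwA, map_add, map_div₀, map_mul,
        Complex.conj_ofReal, Complex.conj_conj]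
      have : ⟪z, v⟫_ℂ * (starRingEnd ℂ) ⟪z, v⟫_ℂ = ((‖⟪z, v⟫_ℂ‖ ^ 2 : ℝ) : ℂ) := by
        rw [Complex.mul_conj, Complex.normSq_eq_norm_sq]
      linear_combination this
    have k3 : (⟪AA z v, ⟪z, v⟫_ℂ • w⟫_ℂ).re = ‖⟪z, v⟫_ℂ‖ ^ 2 +
        (1 - ‖z‖ ^ 2) * (⟪z, v⟫_ℂ * ((starRingEnd ℂ) ⟪x, v⟫_ℂ / d)).re := by
      rw [k2, Complex.add_re, Complex.ofReal_re, Complex.re_ofReal_mul]
    have k4 : -(‖v‖ * (‖x‖ * ‖v‖ / ‖d‖)) ≤ (⟪z, v⟫_ℂ * ((starRingEnd ℂ) ⟪x, v⟫_ℂ / d)).re := by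
      have := Complex.abs_re_le_norm (⟪z, v⟫_ℂ * ((starRingEnd ℂ) ⟪x, v⟫_ℂ / d))
      rw [norm_mul, norm_div, Complex.norm_conj] at this
      have h5 : ‖⟪z, v⟫_ℂ‖ * (‖⟪x, v⟫_ℂ‖ / ‖d‖) ≤ ‖v‖ * (‖x‖ * ‖v‖ / ‖d‖) := by gcongr
      have := neg_abs_le (⟪z, v⟫_ℂ * ((starRingEnd ℂ) ⟪x, v⟫_ℂ / d)).re
      linarith
    rw [k1, k3, geo_dist_sq hz.le, norm_smul, mul_pow]
    have k5 : ‖w‖ ^ 2 = 1 - (1 - ‖z‖ ^ 2) * (1 - ‖x‖ ^ 2) / ‖d‖ ^ 2 := by linarith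
    have k6 : (1 - ‖z‖ ^ 2) * ‖v‖ ^ 2 + ‖⟪z, v⟫_ℂ‖ ^ 2 - 2 * (‖⟪z, v⟫_ℂ‖ ^ 2 +
        (1 - ‖z‖ ^ 2) * (⟪z, v⟫_ℂ * ((starRingEnd ℂ) ⟪x, v⟫_ℂ / d)).re) +
        ‖⟪z, v⟫_ℂ‖ ^ 2 * ‖w‖ ^ 2 ≤ (1 - ‖z‖ ^ 2) * (‖v‖ ^ 2 * (1 + 2 * (‖x‖ / ‖d‖))) := by
      have h5 : ‖⟪z, v⟫_ℂ‖ ^ 2 * ‖w‖ ^ 2 ≤ ‖⟪z, v⟫_ℂ‖ ^ 2 := by
        have : ‖w‖ ^ 2 ≤ 1 := by linarith
        nlinarith [sq_nonneg ‖⟪z, v⟫_ℂ‖]
      have h6 := mul_le_mul_of_nonneg_left k4 hz2.le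
      have h7 : (1 - ‖z‖ ^ 2) * (‖v‖ ^ 2 * (1 + 2 * (‖x‖ / ‖d‖))) =
          (1 - ‖z‖ ^ 2) * ‖v‖ ^ 2 + 2 * ((1 - ‖z‖ ^ 2) * (‖v‖ * (‖x‖ * ‖v‖ / ‖d‖))) := by ring
      rw [h7]
      linarith
    have k7 : 1 + 2 * (‖x‖ / ‖d‖) ≤ 5 / (1 - ‖x‖ ^ 2) := by
      rw [le_div_iff₀ hx2]
      have : ‖x‖ / ‖d‖ * (1 - ‖x‖ ^ 2) ≤ 2 := by
        rw [div_mul_eq_mul_div, div_le_iff₀ hD]
        nlinarith [norm_nonneg x]
      nlinarith [norm_nonneg x, sq_nonneg ‖x‖]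
    rw [div_le_div_iff₀ hw2 (by positivity)]
    calc (‖d‖ ^ 2)⁻¹ * ((1 - ‖z‖ ^ 2) * ‖v‖ ^ 2 + ‖⟪z, v⟫_ℂ‖ ^ 2 - 2 * (‖⟪z, v⟫_ℂ‖ ^ 2 +
        (1 - ‖z‖ ^ 2) * (⟪z, v⟫_ℂ * ((starRingEnd ℂ) ⟪x, v⟫_ℂ / d)).re) +
        ‖⟪z, v⟫_ℂ‖ ^ 2 * ‖w‖ ^ 2) * (1 - ‖x‖ ^ 2) ^ 2 ≤
        (‖d‖ ^ 2)⁻¹ * ((1 - ‖z‖ ^ 2) * (‖v‖ ^ 2 * (5 / (1 - ‖x‖ ^ 2)))) * (1 - ‖x‖ ^ 2) ^ 2 := by
          gcongr
          exact k6.trans (by gcongr)
      _ = 5 * ‖v‖ ^ 2 * ((1 - ‖z‖ ^ 2) * (1 - ‖x‖ ^ 2) / ‖d‖ ^ 2) := by field_simp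
      _ = _ := by rw [← hwn]
  have h4 : ‖gg' z x v‖ / Real.sqrt (1 - ‖w‖ ^ 2) ≤ 3 * ‖v‖ / (1 - ‖x‖ ^ 2) := by
    have g0 : 0 < Real.sqrt (1 - ‖w‖ ^ 2) := Real.sqrt_pos.mpr hw2
    apply le_of_sq_le_sq _ (by positivity)
    rw [div_pow, Real.sq_sqrt hw2.le]
    refine h3.trans ?_
    rw [div_pow, mul_pow]
    gcongr
    norm_num
  rw [← hw]
  unfold gau
  calc _ ≤ 3 * ‖v‖ / (1 - ‖x‖ ^ 2) + 3 * ‖v‖ / (1 - ‖x‖ ^ 2) := add_le_add h2 h4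
    _ = _ := by ring

/-- the derivative at the origin is invertible, with bounds -/
theorem gg'_zero_surj {z : E} (hz : ‖z‖ < 1) (X : E) :
    ∃ v : E, gg' z 0 v = X ∧ ‖v‖ ≤ 3 * gau (1 - ‖z‖ ^ 2) z X := by
  obtain ⟨S, T, hSs, hTs, hS, hT, cS, cT, hA⟩ := geo_AA hz.le
  have hs := geo_ss_pos hz
  have hs2 := geo_ss_sq hz.le
  have hS0 : S ≠ 0 := by rw [hSs]; exact Complex.ofReal_ne_zero.mpr hs.ne'
  have hS1 : 1 + S ≠ 0 := by
    intro h; rw [h, mul_zero] at hT; exact zero_ne_one hT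
  have hg : ∀ v, gg' z 0 v = S • v + ((T - 1) * ⟪z, v⟫_ℂ) • z := by
    intro v
    simp only [gg', gg_zero, ContinuousLinearMap.smul_apply, ContinuousLinearMap.sub_apply,
      ContinuousLinearMap.smulRight_apply, innerSL_apply_apply, inner_zero_right, add_zero, inv_one,
      one_smul, hA]
    rw [sub_mul, sub_smul, one_mul, add_sub_assoc]
  refine ⟨S⁻¹ • X + ((S * S * (1 + S))⁻¹ * ⟪z, X⟫_ℂ) • z, ?_, ?_⟩
  · rw [hg, inner_add_right, inner_smul_right, inner_smul_right, smul_add, smul_smul, smul_smul,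
      mul_inv_cancel₀ hS0, one_smul, add_assoc, ← add_smul]
    have hzz : ⟪z, z⟫_ℂ = 1 - S * S := by linear_combination hS
    have hTT : T = (1 + S)⁻¹ := by
      field_simp
      exact hT
    have : S * ((S * S * (1 + S))⁻¹ * ⟪z, X⟫_ℂ) +
        (T - 1) * (S⁻¹ * ⟪z, X⟫_ℂ + (S * S * (1 + S))⁻¹ * ⟪z, X⟫_ℂ * ⟪z, z⟫_ℂ) = 0 := by
      rw [hzz, hTT]
      field_simp
      ring
    rw [this, zero_smul, add_zero]
  · refine (norm_add_le _ _).trans ?_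
    rw [norm_smul, norm_smul, norm_inv, norm_mul, norm_inv, norm_mul, norm_mul]
    have e1 : ‖S‖ = ss z := by rw [hSs, Complex.norm_real, Real.norm_eq_abs, abs_of_pos hs]
    have e2 : ‖1 + S‖ = 1 + ss z := by
      rw [hSs, ← Complex.ofReal_one, ← Complex.ofReal_add, Complex.norm_real, Real.norm_eq_abs,
        abs_of_pos (by linarith)]
    rw [e1, e2]
    unfold gau
    have e3 : Real.sqrt (1 - ‖z‖ ^ 2) = ss z := rfl
    rw [e3, ← hs2]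
    have h1 : (ss z * ss z * (1 + ss z))⁻¹ * ‖⟪z, X⟫_ℂ‖ * ‖z‖ ≤ ‖⟪z, X⟫_ℂ‖ / ss z ^ 2 := by
      have g1 : (ss z * ss z * (1 + ss z))⁻¹ ≤ (ss z ^ 2)⁻¹ := by
        apply inv_anti₀ (by positivity)
        nlinarith [sq_nonneg (ss z)]
      calc (ss z * ss z * (1 + ss z))⁻¹ * ‖⟪z, X⟫_ℂ‖ * ‖z‖ ≤ (ss z ^ 2)⁻¹ * ‖⟪z, X⟫_ℂ‖ * 1 := by
            gcongr
        _ = _ := by rw [mul_one, div_eq_inv_mul]
    have h2 : 0 ≤ ‖⟪z, X⟫_ℂ‖ / ss z ^ 2 := by positivity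
    have h3 : 0 ≤ ‖X‖ / ss z := by positivity
    have h4 : (ss z)⁻¹ * ‖X‖ = ‖X‖ / ss z := by rw [div_eq_inv_mul]
    rw [h4]
    linarith

end Pool.Agent.MPca0fc2.PT
end

section

set_option autoImplicit false

open Metric Set MeasureTheory Filter Topology
open scoped InnerProductSpace ENNReal

namespace Pool.Agent.MPca0fc2.PT

variable {E : Type*} [NormedAddCommGroup E] [InnerProductSpace ℂ E]

/-- the linear map as a multiple of a transvection -/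
theorem meas_AA {z : E} (hz : ‖z‖ < 1) : ∃ S c : ℂ, S = ((ss z : ℝ) : ℂ) ∧ S ≠ 0 ∧
    S * S = 1 - ⟪z, z⟫_ℂ ∧ 1 + c * ⟪z, z⟫_ℂ = S⁻¹ ∧
    (AA z : E →ₗ[ℂ] E) = S • LinearMap.transvection (c • (innerSL ℂ z : E →ₗ[ℂ] ℂ)) z := by
  obtain ⟨S, T, hSs, -, hS, hT, -, -, hA⟩ := geo_AA hz.le
  have hS0 : S ≠ 0 := by rw [hSs]; exact Complex.ofReal_ne_zero.mpr (geo_ss_pos hz).ne'
  refine ⟨S, T / S, hSs, hS0, hS, ?_, ?_⟩
  · field_simp
    linear_combination (T) * hS + (1 - S) * hT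
  · ext v
    rw [ContinuousLinearMap.coe_coe, hA, LinearMap.smul_apply, LinearMap.transvection.apply,
      LinearMap.smul_apply, ContinuousLinearMap.coe_coe, innerSL_apply_apply, smul_eq_mul,
      smul_add, smul_smul]
    congr 2
    field_simp

theorem meas_gg' {z x : E} (hz : ‖z‖ < 1) : (gg' z x : E →ₗ[ℂ] E) =
    (1 + ⟪z, x⟫_ℂ)⁻¹ • ((AA z : E →ₗ[ℂ] E) ∘ₗ
      LinearMap.transvection ((-1 : ℂ) • (innerSL ℂ z : E →ₗ[ℂ] ℂ))
        ((1 + ⟪z, x⟫_ℂ)⁻¹ • (z + x))) := by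
  ext v
  rw [LinearMap.smul_apply, LinearMap.comp_apply, LinearMap.transvection.apply,
    LinearMap.smul_apply, ContinuousLinearMap.coe_coe, ContinuousLinearMap.coe_coe,
    ContinuousLinearMap.coe_coe, innerSL_apply_apply, map_add, map_smul, map_smul, map_add,
    AA_self hz.le]
  simp only [gg', gg, FunLike.coe_smul, Pi.smul_apply, ContinuousLinearMap.smulRight_apply,
    innerSL_apply_apply]
  rw [ContinuousLinearMap.coe_sub', Pi.sub_apply, ContinuousLinearMap.smulRight_apply,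
    innerSL_apply_apply]
  simp only [smul_eq_mul, neg_mul, one_mul, neg_smul, ← sub_eq_add_neg]

variable [FiniteDimensional ℂ E]

theorem meas_det_AA {m : ℕ} (hdim : Module.finrank ℂ E = m + 1) {z : E} (hz : ‖z‖ < 1) :
    LinearMap.det (AA z : E →ₗ[ℂ] E) = ((ss z : ℝ) : ℂ) ^ m := by
  obtain ⟨S, c, hSs, hS0, hS, hc, hA⟩ := meas_AA hz
  rw [hA, LinearMap.det_smul, LinearMap.transvection.det, hdim, LinearMap.smul_apply,
    ContinuousLinearMap.coe_coe, innerSL_apply_apply, smul_eq_mul, hc, ← hSs, pow_succ,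
    mul_assoc, mul_inv_cancel₀ hS0, mul_one]

theorem meas_det {m : ℕ} (hdim : Module.finrank ℂ E = m + 1) {z x : E} (hz : ‖z‖ < 1)
    (hx : ‖x‖ ≤ 1) : LinearMap.det (gg' z x : E →ₗ[ℂ] E) =
      (((ss z : ℝ) : ℂ) / (1 + ⟪z, x⟫_ℂ)) ^ (m + 2) := by
  have hd := one_add_ne hz hx
  rw [meas_gg' hz, LinearMap.det_smul, LinearMap.det_comp, LinearMap.transvection.det,
    meas_det_AA hdim hz, hdim, LinearMap.smul_apply, ContinuousLinearMap.coe_coe,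
    innerSL_apply_apply, inner_smul_right, inner_add_right]
  have h1 : 1 + (-1 : ℂ) • ((1 + ⟪z, x⟫_ℂ)⁻¹ * (⟪z, z⟫_ℂ + ⟪z, x⟫_ℂ)) =
      ((ss z : ℝ) : ℂ) ^ 2 / (1 + ⟪z, x⟫_ℂ) := by
    have : ((ss z : ℝ) : ℂ) ^ 2 = 1 - ⟪z, z⟫_ℂ := by
      rw [← Complex.ofReal_pow, geo_ss_sq hz.le, geo_self]; push_cast; rfl
    rw [this, smul_eq_mul]
    field_simp
    ring
  rw [h1, div_pow, inv_pow, pow_succ (1 + ⟪z, x⟫_ℂ) (m + 1), pow_add ((ss z : ℝ) : ℂ) m 2]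
  field_simp

variable [MeasurableSpace E] [BorelSpace E]

omit [MeasurableSpace E] [BorelSpace E] in
theorem det_gg' {m : ℕ} (hdim : Module.finrank ℂ E = m + 1) {z x : E} (hz : ‖z‖ < 1)
    (hx : ‖x‖ ≤ 1) :
    |((gg' z x).restrictScalars ℝ).det| =
      ((1 - ‖z‖ ^ 2) / ‖1 + ⟪z, x⟫_ℂ‖ ^ 2) ^ (m + 2) := by
  have hs := geo_ss_nonneg z
  have h1 : ((gg' z x).restrictScalars ℝ).det =
      LinearMap.det ((gg' z x : E →ₗ[ℂ] E).restrictScalars ℝ) := rfl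
  rw [h1, LinearMap.det_restrictScalars, meas_det hdim hz hx, Algebra.norm_complex_apply,
    Complex.normSq_eq_norm_sq, abs_of_nonneg (by positivity), norm_pow, norm_div,
    Complex.norm_real, Real.norm_of_nonneg hs, ← pow_mul, mul_comm (m + 2) 2, pow_mul, div_pow,
    geo_ss_sq hz.le]

theorem meas_inj {z : E} (hz : ‖z‖ < 1) : InjOn (gg z) (ball 0 1) := by
  intro w hw w' hw' h
  have h1 := gg_neg_gg hz (mem_ball_zero_iff.mp hw).le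
  have h2 := gg_neg_gg hz (mem_ball_zero_iff.mp hw').le
  rw [h, h2] at h1
  exact h1.symm

theorem meas_fderiv {z : E} (hz : ‖z‖ < 1) : ∀ w ∈ ball (0 : E) 1,
    HasFDerivWithinAt (gg z) ((gg' z w).restrictScalars ℝ) (ball 0 1) w := fun _ hw =>
  ((hasFDerivAt_gg hz (mem_ball_zero_iff.mp hw).le).restrictScalars ℝ).hasFDerivWithinAt

theorem integral_gg (μ : Measure E) [μ.IsAddHaarMeasure] {m : ℕ}
    (hdim : Module.finrank ℂ E = m + 1) {z : E} (hz : ‖z‖ < 1) (F : E → ℂ) :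
    ∫ w in ball (0 : E) 1, F w ∂μ = ∫ x in ball (0 : E) 1,
      ((((1 - ‖z‖ ^ 2) / ‖1 + ⟪z, x⟫_ℂ‖ ^ 2) ^ (m + 2) : ℝ) : ℂ) * F (gg z x) ∂μ := by
  have h2 := integral_image_eq_integral_abs_det_fderiv_smul μ measurableSet_ball
    (meas_fderiv hz) (meas_inj hz) F
  rw [gg_image hz] at h2
  rw [h2]
  apply setIntegral_congr_fun measurableSet_ball
  intro w hw
  simp only
  rw [det_gg' hdim hz (mem_ball_zero_iff.mp hw).le, Complex.real_smul]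

theorem lintegral_gg (μ : Measure E) [μ.IsAddHaarMeasure] {m : ℕ}
    (hdim : Module.finrank ℂ E = m + 1) {z : E} (hz : ‖z‖ < 1) (F : E → ℝ≥0∞) :
    ∫⁻ w in ball (0 : E) 1, F w ∂μ = ∫⁻ x in ball (0 : E) 1,
      ENNReal.ofReal (((1 - ‖z‖ ^ 2) / ‖1 + ⟪z, x⟫_ℂ‖ ^ 2) ^ (m + 2)) * F (gg z x) ∂μ := by
  have h2 := lintegral_image_eq_lintegral_abs_det_fderiv_mul μ measurableSet_ball
    (meas_fderiv hz) (meas_inj hz) F
  rw [gg_image hz] at h2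
  rw [h2]
  apply setLIntegral_congr_fun measurableSet_ball
  intro w hw
  simp only
  rw [det_gg' hdim hz (mem_ball_zero_iff.mp hw).le]

/-- The projection in the coordinates in which `z` is the origin. -/
theorem PQ_eq (μ : Measure E) [μ.IsAddHaarMeasure] {m : ℕ}
    (hdim : Module.finrank ℂ E = m + 1) {z : E} (hz : ‖z‖ < 1) (N : E → ℂ) :
    PQ μ m N z = ((cW μ : ℝ) : ℂ)⁻¹ * ∫ x in ball (0 : E) 1,
      ((WW x : ℝ) : ℂ) * (N (gg z x) / (1 + ⟪z, x⟫_ℂ) ^ (m + 6)) ∂μ := by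
  unfold PQ
  congr 1
  rw [integral_gg μ hdim hz]
  apply setIntegral_congr_fun measurableSet_ball
  intro x hx
  have hx1 := (mem_ball_zero_iff.mp hx).le
  obtain ⟨d, hd⟩ : ∃ d : ℂ, d = 1 + ⟪z, x⟫_ℂ := ⟨_, rfl⟩
  have hd0 : d ≠ 0 := by rw [hd]; exact one_add_ne hz hx1
  have hdc : (starRingEnd ℂ) d ≠ 0 := (map_ne_zero _).mpr hd0
  have hz2 : (1 - ‖z‖ ^ 2 : ℝ) ≠ 0 := by nlinarith [norm_nonneg z]
  have hz2c : ((1 - ‖z‖ ^ 2 : ℝ) : ℂ) ≠ 0 := by exact_mod_cast hz2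
  have h1 : 1 - ⟪gg z x, z⟫_ℂ = ((1 - ‖z‖ ^ 2 : ℝ) : ℂ) / (starRingEnd ℂ) d := by
    have h := congrArg (starRingEnd ℂ) (inner_gg_self hz hx1)
    rw [map_sub, map_one, inner_conj_symm, map_div₀, Complex.conj_ofReal, ← hd] at h
    exact h
  have h2 : ((‖d‖ : ℝ) : ℂ) ^ 2 = d * (starRingEnd ℂ) d := by rw [Complex.mul_conj']
  simp only
  rw [h1, ← hd]
  unfold WW
  rw [norm_gg hz hx1, ← hd]
  obtain ⟨a, ha⟩ : ∃ a : ℂ, a = ((1 - ‖z‖ ^ 2 : ℝ) : ℂ) := ⟨_, rfl⟩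
  obtain ⟨b, hb⟩ : ∃ b : ℂ, b = ((1 - ‖x‖ ^ 2 : ℝ) : ℂ) := ⟨_, rfl⟩
  rw [← ha] at hz2c
  have e1 : ((((1 - ‖z‖ ^ 2) / ‖d‖ ^ 2) ^ (m + 2) : ℝ) : ℂ) = a ^ (m + 2) /
      (d ^ (m + 2) * ((starRingEnd ℂ) d) ^ (m + 2)) := by
    rw [ha, Complex.ofReal_pow, Complex.ofReal_div, Complex.ofReal_pow, h2, div_pow, mul_pow]
  have e2 : ((((1 - ‖z‖ ^ 2) * (1 - ‖x‖ ^ 2) / ‖d‖ ^ 2) ^ 4 : ℝ) : ℂ) =
      a ^ 4 * b ^ 4 / (d ^ 4 * ((starRingEnd ℂ) d) ^ 4) := by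
    rw [ha, hb, Complex.ofReal_pow, Complex.ofReal_div, Complex.ofReal_mul, Complex.ofReal_pow, h2,
      div_pow, mul_pow, mul_pow]
  have e3 : (((1 - ‖x‖ ^ 2) ^ 4 : ℝ) : ℂ) = b ^ 4 := by rw [hb, Complex.ofReal_pow]
  rw [e1, e2, e3, ← ha, div_pow a, show m + 6 = (m + 2) + 4 by ring, pow_add a (m + 2) 4,
    pow_add ((starRingEnd ℂ) d) (m + 2) 4, pow_add d (m + 2) 4]
  field_simp

end Pool.Agent.MPca0fc2.PT
end

section

/-! Characters of the algebra of bounded holomorphic functions on an open set. -/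

set_option autoImplicit false

open Metric Set Filter Topology
open scoped BoundedContinuousFunction

namespace Pool.Agent.MPca0fc2.IND

open Pool.Agent.Lib.MP_ca0fc2_an (differentiableOn_of_unif_limit)

variable {E : Type*} [NormedAddCommGroup E] [NormedSpace ℂ E] {Δ : Set E}

/-- bounded families of bounded holomorphic functions on the ball -/
structure BH (Δ : Set E) {I : Type*} (F : I → E → ℂ) : Prop where
  holo : ∀ i, DifferentiableOn ℂ (F i) (Δ)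
  bdd : ∃ C : ℝ, ∀ i, ∀ z ∈ Δ, ‖F i z‖ ≤ C

section BHlemmas

variable {I : Type*} {F G : I → E → ℂ}

theorem BH.bdd' (hF : BH Δ F) : ∃ C : ℝ, 0 < C ∧ ∀ i, ∀ z ∈ Δ, ‖F i z‖ ≤ C := by
  obtain ⟨C, hC⟩ := hF.bdd
  exact ⟨max C 1, by positivity, fun i z hz => (hC i z hz).trans (le_max_left _ _)⟩

theorem BH.add (hF : BH Δ F) (hG : BH Δ G) : BH Δ fun i z => F i z + G i z := by
  obtain ⟨C, hC⟩ := hF.bdd
  obtain ⟨D, hD⟩ := hG.bdd
  exact ⟨fun i => (hF.holo i).add (hG.holo i), C + D, fun i z hz =>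
    (norm_add_le _ _).trans (add_le_add (hC i z hz) (hD i z hz))⟩

theorem BH.mul (hF : BH Δ F) (hG : BH Δ G) : BH Δ fun i z => F i z * G i z := by
  obtain ⟨C, hC0, hC⟩ := hF.bdd'
  obtain ⟨D, hD⟩ := hG.bdd
  exact ⟨fun i => (hF.holo i).mul (hG.holo i), C * D, fun i z hz => by
    rw [norm_mul]
    exact mul_le_mul (hC i z hz) (hD i z hz) (norm_nonneg _) hC0.le⟩

theorem BH.constI {c : I → ℂ} (hc : ∃ C : ℝ, ∀ i, ‖c i‖ ≤ C) : BH Δ fun i (_ : E) => c i := by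
  obtain ⟨C, hC⟩ := hc
  exact ⟨fun i => differentiableOn_const _, C, fun i z _ => hC i⟩

theorem BH.const (c : ℂ) : BH Δ fun (_ : I) (_ : E) => c :=
  BH.constI ⟨‖c‖, fun _ => le_rfl⟩

theorem BH.neg (hF : BH Δ F) : BH Δ fun i z => - F i z := by
  obtain ⟨C, hC⟩ := hF.bdd
  exact ⟨fun i => (hF.holo i).neg, C, fun i z hz => by rw [norm_neg]; exact hC i z hz⟩

theorem BH.sub (hF : BH Δ F) (hG : BH Δ G) : BH Δ fun i z => F i z - G i z := by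
  simpa only [sub_eq_add_neg] using hF.add hG.neg

theorem BH.pow (hF : BH Δ F) (n : ℕ) : BH Δ fun i z => F i z ^ n := by
  induction n with
  | zero => simpa using BH.const (I := I) (E := E) 1
  | succ n ih => simpa only [pow_succ] using ih.mul hF

theorem BH.sum {κ : Type*} {s : Finset κ} {F : κ → I → E → ℂ} (hF : ∀ k ∈ s, BH Δ (F k)) :
    BH Δ fun i z => ∑ k ∈ s, F k i z := by
  classical
  induction s using Finset.induction_on with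
  | empty => simpa using BH.const (I := I) (E := E) 0
  | insert a s has ih =>
    have h1 := (hF a (Finset.mem_insert_self _ _)).add
      (ih fun k hk => hF k (Finset.mem_insert_of_mem hk))
    simpa only [Finset.sum_insert has] using h1

theorem BH.congr (hF : BH Δ F) (h : ∀ i, ∀ z ∈ Δ, G i z = F i z) : BH Δ G := by
  obtain ⟨C, hC⟩ := hF.bdd
  exact ⟨fun i => (hF.holo i).congr (h i), C, fun i z hz => by rw [h i z hz]; exact hC i z hz⟩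

end BHlemmas

/-- A character of the algebra of bounded families of bounded holomorphic functions. -/
structure Char (Δ : Set E) (I : Type*) where
  φ : (I → E → ℂ) → ℂ
  map_add : ∀ {F G : I → E → ℂ}, BH Δ F → BH Δ G → φ (fun i z => F i z + G i z) = φ F + φ G
  map_mul : ∀ {F G : I → E → ℂ}, BH Δ F → BH Δ G → φ (fun i z => F i z * G i z) = φ F * φ G
  map_const : ∀ c : ℂ, φ (fun _ _ => c) = c
  bound : ∀ {F : I → E → ℂ}, BH Δ F → ∀ {C : ℝ}, 0 ≤ C →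
    (∀ i, ∀ z ∈ Δ, ‖F i z‖ ≤ C) → ‖φ F‖ ≤ C

section Gelfand

variable {I : Type*}

/-- the index set of the algebra -/
structure Pt (Δ : Set E) (I : Type*) where
  i : I
  z : E
  mem : z ∈ Δ

instance : TopologicalSpace (Pt Δ I) := ⊥

instance : DiscreteTopology (Pt Δ I) := ⟨rfl⟩

/-- the Banach algebra of bounded families of holomorphic functions -/
def famAlg (Δ : Set E) (I : Type*) :
    Subalgebra ℂ (Pt Δ I →ᵇ ℂ) where
  carrier := {g | ∀ i, ∃ G : E → ℂ, DifferentiableOn ℂ G (Δ) ∧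
    ∀ (z : E) (hz : z ∈ Δ), g ⟨i, z, hz⟩ = G z}
  mul_mem' := by
    intro a b ha hb i
    obtain ⟨A, hA, hA'⟩ := ha i
    obtain ⟨B, hB, hB'⟩ := hb i
    exact ⟨fun z => A z * B z, hA.mul hB, fun z hz => by simp [hA', hB']⟩
  add_mem' := by
    intro a b ha hb i
    obtain ⟨A, hA, hA'⟩ := ha i
    obtain ⟨B, hB, hB'⟩ := hb i
    exact ⟨fun z => A z + B z, hA.add hB, fun z hz => by simp [hA', hB']⟩
  algebraMap_mem' := by
    intro r i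
    exact ⟨fun _ => r, differentiableOn_const _, fun z hz => by simp⟩

theorem isClosed_famAlg (hΔ : IsOpen Δ) : IsClosed (famAlg Δ I : Set (Pt Δ I →ᵇ ℂ)) := by
  apply IsSeqClosed.isClosed
  intro u g hu hug i
  choose G hG hG' using fun n => hu n i
  classical
  have hgz : ∀ z (hz : z ∈ Δ),
      (if hz : z ∈ Δ then g ⟨i, z, hz⟩ else 0) = g ⟨i, z, hz⟩ := by
    intro z hz
    simp only [hz, dif_pos]
  refine ⟨fun z => if hz : z ∈ Δ then g ⟨i, z, hz⟩ else 0, ?_, ?_⟩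
  · refine differentiableOn_of_unif_limit hΔ hG (ε := fun n => ‖u n - g‖) ?_ ?_
      (M := ‖g‖) ?_
    · exact tendsto_iff_norm_sub_tendsto_zero.mp hug
    · intro n z hz
      rw [hgz z hz, ← hG' n z hz]
      exact (u n - g).norm_coe_le_norm ⟨i, z, hz⟩
    · intro z hz
      rw [hgz z hz]
      exact g.norm_coe_le_norm _
  · intro z hz
    exact (hgz z hz).symm


/-- embedding of bounded families -/
noncomputable def emb (F : I → E → ℂ) (hF : BH Δ F) : famAlg Δ I :=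
  ⟨BoundedContinuousFunction.ofNormedAddCommGroup (fun p : Pt Δ I => F p.i p.z)
    continuous_of_discreteTopology hF.bdd.choose
    (fun p => hF.bdd.choose_spec p.i p.z p.mem), fun i => ⟨F i, hF.holo i, fun _ _ => rfl⟩⟩

theorem emb_apply (F : I → E → ℂ) (hF : BH Δ F) (p : Pt Δ I) :
    (emb F hF : Pt Δ I →ᵇ ℂ) p = F p.i p.z := rfl

theorem exists_rep (a : famAlg Δ I) : ∃ F : I → E → ℂ, BH Δ F ∧
    ∀ p : Pt Δ I, (a : Pt Δ I →ᵇ ℂ) p = F p.i p.z := by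
  choose G hG hG' using a.2
  refine ⟨G, ⟨hG, ‖(a : Pt Δ I →ᵇ ℂ)‖, ?_⟩, ?_⟩
  · intro i z hz
    rw [← hG' i z hz]
    exact (a : Pt Δ I →ᵇ ℂ).norm_coe_le_norm _
  · rintro ⟨i, z, hz⟩
    exact hG' i z hz

/-- Existence of characters. -/
theorem exists_char (hΔ : IsOpen Δ) {S : Set (I → E → ℂ)} (hS : ∀ F ∈ S, BH Δ F)
    (hno : ¬ ∃ (n : ℕ) (a h : Fin n → I → E → ℂ), (∀ k, a k ∈ S) ∧ (∀ k, BH Δ (h k)) ∧
      ∀ i, ∀ z ∈ Δ, ∑ k, a k i z * h k i z = 1) :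
    ∃ Φ : Char Δ I, ∀ F ∈ S, Φ.φ F = 0 := by
  classical
  haveI : CompleteSpace (famAlg Δ I) := (isClosed_famAlg hΔ).completeSpace_coe
  set T : Set (famAlg Δ I) := {a | ∃ F ∈ S, ∀ p : Pt Δ I, (a : Pt Δ I →ᵇ ℂ) p = F p.i p.z} with hT
  have hne : Ideal.span T ≠ ⊤ := by
    intro htop
    have h1 : (1 : famAlg Δ I) ∈ Ideal.span T := by rw [htop]; trivial
    rw [Ideal.span, Submodule.mem_span_set'] at h1
    obtain ⟨n, f, g, hfg⟩ := h1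
    choose F hFS hF using fun k => (g k).2
    choose h hh hh' using fun k => exists_rep (f k)
    apply hno
    refine ⟨n, F, h, hFS, hh, ?_⟩
    intro i z hz
    have h2 := congrArg (fun a : famAlg Δ I => (a : Pt Δ I →ᵇ ℂ) ⟨i, z, hz⟩) hfg
    simp only [smul_eq_mul] at h2
    have h3 : ((∑ k, f k * (g k : famAlg Δ I) : famAlg Δ I) : Pt Δ I →ᵇ ℂ) ⟨i, z, hz⟩ =
        ∑ k, F k i z * h k i z := by
      rw [AddSubmonoidClass.coe_finsetSum, BoundedContinuousFunction.sum_apply]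
      apply Finset.sum_congr rfl
      intro k _
      rw [MulMemClass.coe_mul, BoundedContinuousFunction.mul_apply, hF k, hh' k, mul_comm]
    rw [h3] at h2
    rw [h2]
    rfl
  obtain ⟨M, hM, hTM⟩ := Ideal.exists_le_maximal _ hne
  have := hM
  set χ := M.toCharacterSpace with hχ
  have hχb : ∀ a : famAlg Δ I, ∀ C : ℝ, 0 ≤ C → (∀ p, ‖(a : Pt Δ I →ᵇ ℂ) p‖ ≤ C) → ‖χ a‖ ≤ C := by
    intro a C hC hb
    have h1 : ‖χ a‖ ≤ ‖a‖ * ‖(1 : famAlg Δ I)‖ := AlgHom.norm_apply_le_self_mul_norm_one χ a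
    have h2 : ‖a‖ ≤ C := (BoundedContinuousFunction.norm_le hC).mpr hb
    have h3 : ‖(1 : famAlg Δ I)‖ ≤ 1 :=
      (BoundedContinuousFunction.norm_le (f := (1 : Pt Δ I →ᵇ ℂ)) zero_le_one).mpr fun p => by simp
    calc ‖χ a‖ ≤ ‖a‖ * ‖(1 : famAlg Δ I)‖ := h1
      _ ≤ C * 1 := mul_le_mul h2 h3 (norm_nonneg _) hC
      _ = C := mul_one C
  have hφ : ∀ {F : I → E → ℂ} (hF : BH Δ F),
      (if h : BH Δ F then χ (emb F h) else 0) = χ (emb F hF) := by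
    intro F hF
    simp only [hF, dif_pos]
  refine ⟨⟨fun F => if h : BH Δ F then χ (emb F h) else 0, ?_, ?_, ?_, ?_⟩, ?_⟩
  · intro F G hF hG
    rw [hφ hF, hφ hG, hφ (hF.add hG), ← map_add]
    congr 1
  · intro F G hF hG
    rw [hφ hF, hφ hG, hφ (hF.mul hG), ← map_mul]
    congr 1
  · intro c
    rw [hφ (BH.const c)]
    have : emb (fun _ _ => c) (BH.const c) = algebraMap ℂ (famAlg Δ I) c := by
      ext p
      rfl
    rw [this]
    exact AlgHomClass.commutes χ c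
  · intro F hF C hC hb
    rw [hφ hF]
    exact hχb _ C hC fun p => hb p.i p.z p.mem
  · intro F hFS
    simp only
    rw [hφ (hS F hFS)]
    apply Ideal.toCharacterSpace_apply_eq_zero_of_mem
    apply hTM
    apply Ideal.subset_span
    exact ⟨F, hFS, fun p => rfl⟩

end Gelfand


variable {I : Type*}

namespace Char

variable (Φ : Char Δ I) {F G : I → E → ℂ}

theorem map_smul (c : ℂ) (hF : BH Δ F) : Φ.φ (fun i z => c * F i z) = c * Φ.φ F := by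
  rw [Φ.map_mul (BH.const c) hF, Φ.map_const]

theorem map_neg (hF : BH Δ F) : Φ.φ (fun i z => - F i z) = - Φ.φ F := by
  have := Φ.map_smul (-1) hF
  simpa only [neg_mul, one_mul] using this

theorem map_sub (hF : BH Δ F) (hG : BH Δ G) : Φ.φ (fun i z => F i z - G i z) = Φ.φ F - Φ.φ G := by
  have := Φ.map_add hF hG.neg
  rw [Φ.map_neg hG] at this
  simpa only [sub_eq_add_neg] using this

theorem congr (hF : BH Δ F) (h : ∀ i, ∀ z ∈ Δ, G i z = F i z) : Φ.φ G = Φ.φ F := by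
  have hG := hF.congr h
  have h1 := Φ.map_sub hG hF
  have h2 := Φ.bound (hG.sub hF) (C := 0) le_rfl (fun i z hz => by rw [h i z hz]; simp)
  rw [h1] at h2
  have := norm_le_zero_iff.mp h2
  exact sub_eq_zero.mp this

theorem map_pow (hF : BH Δ F) (n : ℕ) : Φ.φ (fun i z => F i z ^ n) = Φ.φ F ^ n := by
  induction n with
  | zero => simpa using Φ.map_const 1
  | succ n ih =>
    rw [pow_succ, ← ih, ← Φ.map_mul (hF.pow n) hF]
    simp only [pow_succ]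

theorem map_sum {κ : Type*} {s : Finset κ} {F : κ → I → E → ℂ} (hF : ∀ k ∈ s, BH Δ (F k)) :
    Φ.φ (fun i z => ∑ k ∈ s, F k i z) = ∑ k ∈ s, Φ.φ (F k) := by
  classical
  induction s using Finset.induction_on with
  | empty => simpa using Φ.map_const 0
  | insert a s has ih =>
    have h1 := Φ.map_add (hF a (Finset.mem_insert_self _ _))
      (BH.sum fun k hk => hF k (Finset.mem_insert_of_mem hk))
    rw [ih fun k hk => hF k (Finset.mem_insert_of_mem hk)] at h1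
    simpa only [Finset.sum_insert has] using h1

end Char

end Pool.Agent.MPca0fc2.IND
end
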