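import Mathlib
import Pool.Agent.Lib.MP_ca0fc2_an.Mg.G047
import Pool.Agent.Lib.MP_ca0fc2_an.Mg.G049

section

/-! The kernels: regularity, and the closedness of the kernel. -/

set_option autoImplicit false

open Metric Set MeasureTheory Filter Topology

namespace Pool.Agent.MPca0fc2.FD

variable {n : ℕ}
variable {U : Set (Ec n)} {δ : Ec n → ℝ} {h : Ec n → Ec n → Fin n → ℂ} {c C : ℝ}

/-- the set where the kernels are smooth -/
def Tset (U : Set (Ec n)) (δ : Ec n → ℝ) (h : Ec n → Ec n → Fin n → ℂ) (ε : ℝ) : Set (Tn n) :=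
  {p | p.1 ∈ U ∧ p.2.2 ∈ U ∧ aa δ h ε p.2.1 p.1 p.2.2 ≠ 0}

theorem B3_nhds1 (hg : Geo U δ h c C) {z : Ec n} (hz : z ∈ U) (τ : ℝ) (ζ : Ec n) :
    ∀ᶠ p : Tn n in 𝓝 (z, τ, ζ), p.1 ∈ U :=
  (continuous_fst.tendsto (z, τ, ζ)).eventually (hg.opn.mem_nhds hz)

theorem B3_nhds2 (hg : Geo U δ h c C) {ζ : Ec n} (hζ : ζ ∈ U) (z : Ec n) (τ : ℝ) :
    ∀ᶠ p : Tn n in 𝓝 (z, τ, ζ), p.2.2 ∈ U :=
  ((continuous_snd.comp continuous_snd).tendsto (z, τ, ζ)).eventually (hg.opn.mem_nhds hζ)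

theorem B3_z2 (p : Tn n) (k : Fin n) : ContDiffAt ℝ 2 (fun p : Tn n => p.1 k) p := by
  have h1 : ContDiff ℝ 2 (fun z : Ec n => z k) :=
    ((EuclideanSpace.proj k : Ec n →L[ℂ] ℂ).restrictScalars ℝ).contDiff
  exact h1.contDiffAt.comp p contDiffAt_fst

theorem B3_ζ2 (p : Tn n) (k : Fin n) : ContDiffAt ℝ 2 (fun p : Tn n => p.2.2 k) p := by
  have h1 : ContDiff ℝ 2 (fun z : Ec n => z k) :=
    ((EuclideanSpace.proj k : Ec n →L[ℂ] ℂ).restrictScalars ℝ).contDiff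
  exact h1.contDiffAt.comp p (contDiff_snd.comp contDiff_snd).contDiffAt

theorem B3_τ2 (p : Tn n) : ContDiffAt ℝ 2 (fun p : Tn n => (p.2.1 : ℂ)) p := by
  have h1 : ContDiff ℝ 2 (fun t : ℝ => (t : ℂ)) := Complex.ofRealCLM.contDiff
  exact h1.contDiffAt.comp p (contDiff_fst.comp contDiff_snd).contDiffAt

theorem B3_conj {f : Tn n → ℂ} {p : Tn n} (hf : ContDiffAt ℝ 2 f p) :
    ContDiffAt ℝ 2 (fun y => (starRingEnd ℂ) (f y)) p := by
  have h1 : ContDiff ℝ 2 (fun t : ℂ => (starRingEnd ℂ) t) := Complex.conjCLE.contDiff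
  exact h1.contDiffAt.comp p hf

theorem B3_δ2 (hg : Geo U δ h c C) {z ζ : Ec n} (hζ : ζ ∈ U) (τ : ℝ) :
    ContDiffAt ℝ 2 (fun p : Tn n => δ p.2.2) (z, τ, ζ) := by
  have h1 : ContDiffAt ℝ 2 δ ζ := hg.dδ.contDiffAt (hg.opn.mem_nhds hζ)
  exact ContDiffAt.comp (z, τ, ζ) (f := fun p : Tn n => p.2.2) h1
    (contDiff_snd.comp contDiff_snd).contDiffAt

theorem B3_h2 (hg : Geo U δ h c C) {z ζ : Ec n} (hz : z ∈ U) (hζ : ζ ∈ U) (τ : ℝ) (k : Fin n) :
    ContDiffAt ℝ 2 (fun p : Tn n => h p.1 p.2.2 k) (z, τ, ζ) := by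
  have h1 : ContDiffAt ℝ 2 (fun p : Ec n × Ec n => h p.1 p.2) (z, ζ) :=
    hg.dh.contDiffAt ((hg.opn.prod hg.opn).mem_nhds ⟨hz, hζ⟩)
  have h2 : ContDiffAt ℝ 2 (fun p : Ec n × Ec n => h p.1 p.2 k) (z, ζ) :=
    (contDiffAt_pi.1 h1) k
  have h3 : ContDiffAt ℝ 2 (fun p : Tn n => (p.1, p.2.2)) (z, τ, ζ) :=
    contDiffAt_fst.prodMk (contDiff_snd.comp contDiff_snd).contDiffAt
  exact ContDiffAt.comp (z, τ, ζ) (f := fun p : Tn n => (p.1, p.2.2)) h2 h3

/-- PROOF. `aa` is continuous on `U ×ˢ univ ×ˢ U`, an open set. -/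
theorem Tset_open (hg : Geo U δ h c C) (ε : ℝ) : IsOpen (Tset U δ h ε) := by
  rw [isOpen_iff_mem_nhds]
  rintro ⟨z, τ, ζ⟩ ⟨hz, hζ, ha⟩
  have h1 : ∀ᶠ p : Tn n in 𝓝 (z, τ, ζ), p.1 ∈ U := B3_nhds1 hg hz τ ζ
  have h2 : ∀ᶠ p : Tn n in 𝓝 (z, τ, ζ), p.2.2 ∈ U := B3_nhds2 hg hζ z τ
  have h3 : ∀ᶠ p : Tn n in 𝓝 (z, τ, ζ), aa δ h ε p.2.1 p.1 p.2.2 ≠ 0 :=
    (aa_c2 hg ε hz hζ τ).continuousAt.eventually_ne ha
  filter_upwards [h1, h2, h3] with p a1 a2 a3 using ⟨a1, a2, a3⟩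

/-- PROOF. `GG_x` and `GG_c2`, with `I := fun _ => k` for some `k`, or directly: each component is
a `C²` function. -/
theorem rx_c2 (hg : Geo U δ h c C) (ε : ℝ) (q : ℕ) {z ζ : Ec n} (hz : z ∈ U) (hζ : ζ ∈ U) (τ : ℝ) :
    ContDiffAt ℝ 2 (fun p : Tn n => rx δ h ε q p.2.1 p.1 p.2.2) (z, τ, ζ) := by
  have hτ := B3_τ2 (n := n) (z, τ, ζ)
  have hδ : ContDiffAt ℝ 2 (fun p : Tn n => (δ p.2.2 : ℂ)) (z, τ, ζ) := by
    have h1 : ContDiff ℝ 2 (fun t : ℝ => (t : ℂ)) := Complex.ofRealCLM.contDiff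
    exact h1.contDiffAt.comp (z, τ, ζ) (B3_δ2 hg (z := z) hζ τ)
  unfold rx sn
  rw [contDiffAt_pi]
  intro i
  refine Fin.lastCases ?_ (fun i => ?_) i
  · simp only [Fin.snoc_last]
    unfold w0
    push_cast
    exact ((contDiffAt_const.sub hτ).mul (contDiffAt_const.mul (hδ.pow 2))).add (hτ.mul hδ)
  · simp only [Fin.snoc_castSucc]
    refine Fin.addCases (fun k => ?_) (fun k => ?_) i
    · simp only [Fin.append_left]
      unfold wk
      exact ((contDiffAt_const.sub hτ).mul (B3_conj ((B3_ζ2 _ k).sub (B3_z2 _ k)))).add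
        (hτ.mul (B3_h2 hg hz hζ τ k))
    · simp only [Fin.append_right, Pi.zero_apply]
      exact contDiffAt_const

/-- PROOF. Near `(z, τ, ζ)` the function is `cd (GG ..) · (dζ X)` (`GG_ζ`), and `GG` is `C²`, so
`fderiv ℝ (GG ..)` is `C¹` (`ContDiffAt.fderiv_right`). -/
theorem rζ_c1 (hg : Geo U δ h c C) (ε : ℝ) {q : ℕ} (I : Fin q → Fin n) {z ζ : Ec n} (hz : z ∈ U)
    (hζ : ζ ∈ U) (τ : ℝ) (X : Ec n) :
    ContDiffAt ℝ 1 (fun p : Tn n => rζ δ h ε I p.2.1 p.1 p.2.2 X) (z, τ, ζ) := by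
  have h1 : ContDiffAt ℝ 2 (GG δ h ε I) (z, τ, ζ) := GG_c2 hg ε I hz hζ τ
  have h2 : ContDiffAt ℝ 1 (fderiv ℝ (GG δ h ε I)) (z, τ, ζ) :=
    h1.fderiv_right (by norm_num)
  have h3 : ContDiffAt ℝ 1 (fun p : Tn n => cd (GG δ h ε I) p (dζ X)) (z, τ, ζ) := by
    unfold cd
    exact (h2.clm_apply contDiffAt_const).add
      ((h2.clm_apply contDiffAt_const).const_smul Complex.I)
  refine h3.congr_of_eventuallyEq ?_
  filter_upwards [B3_nhds1 hg hz τ ζ, B3_nhds2 hg hζ z τ] with p a1 a2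
  exact (GG_ζ hg ε I a1 a2 p.2.1 X).symm

/-- PROOF. Affine in `τ`. -/
theorem rz_c1 (q : ℕ) (Y : Ec n) (p : Tn n) :
    ContDiffAt ℝ 1 (fun p : Tn n => rz q p.2.1 Y) p := by
  have hτ := (B3_τ2 (n := n) p).of_le one_le_two
  unfold rz sn
  rw [contDiffAt_pi]
  intro i
  refine Fin.lastCases ?_ (fun i => ?_) i
  · simp only [Fin.snoc_last]
    exact contDiffAt_const
  · simp only [Fin.snoc_castSucc]
    refine Fin.addCases (fun k => ?_) (fun k => ?_) i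
    · simp only [Fin.append_left]
      exact (contDiffAt_const.sub hτ).neg.mul contDiffAt_const
    · simp only [Fin.append_right, Pi.zero_apply]
      exact contDiffAt_const

/-- PROOF. Each component is `C²`. -/
theorem rτ_c1 (hg : Geo U δ h c C) (ε : ℝ) (q : ℕ) {z ζ : Ec n} (hz : z ∈ U) (hζ : ζ ∈ U)
    (τ : ℝ) : ContDiffAt ℝ 1 (fun p : Tn n => rτ δ h ε q p.1 p.2.2) (z, τ, ζ) := by
  have hδ : ContDiffAt ℝ 2 (fun p : Tn n => (δ p.2.2 : ℂ)) (z, τ, ζ) := by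
    have h1 : ContDiff ℝ 2 (fun t : ℝ => (t : ℂ)) := Complex.ofRealCLM.contDiff
    exact h1.contDiffAt.comp (z, τ, ζ) (B3_δ2 hg (z := z) hζ τ)
  refine ContDiffAt.of_le (n := 2) ?_ one_le_two
  unfold rτ sn
  rw [contDiffAt_pi]
  intro i
  refine Fin.lastCases ?_ (fun i => ?_) i
  · simp only [Fin.snoc_last]
    push_cast
    exact hδ.sub (contDiffAt_const.mul (hδ.pow 2))
  · simp only [Fin.snoc_castSucc]
    refine Fin.addCases (fun k => ?_) (fun k => ?_) i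
    · simp only [Fin.append_left]
      exact (B3_h2 hg hz hζ τ k).sub (B3_conj ((B3_ζ2 _ k).sub (B3_z2 _ k)))
    · simp only [Fin.append_right, Pi.zero_apply]
      exact contDiffAt_const

/-- PROOF. The determinant is a polynomial in the entries (`Matrix.det_apply`,
`ContDiffAt.sum`, `contDiffAt_prod`). -/
theorem det_c1 {T : Type*} [NormedAddCommGroup T] [NormedSpace ℝ T] {m : ℕ}
    {R : T → Fin m → Fin m → ℂ} {p : T} {r : WithTop ℕ∞}
    (hR : ∀ i, ContDiffAt ℝ r (fun y => R y i) p) :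
    ContDiffAt ℝ r (fun y => Matrix.det (R y)) p := by
  have hM : (fun y => Matrix.det (R y)) = fun y => ∑ σ : Equiv.Perm (Fin m),
      ((Equiv.Perm.sign σ : ℤ) : ℂ) * ∏ i, R y (σ i) i := by
    funext y
    exact Matrix.det_apply' _
  rw [hM]
  refine ContDiffAt.sum fun σ _ => contDiffAt_const.mul ?_
  exact contDiffAt_prod fun i _ => (contDiffAt_pi.1 (hR (σ i))) i

theorem B3_cn {T : Type*} [NormedAddCommGroup T] [NormedSpace ℝ T] {m : ℕ}
    {x : T → Fin (m + 1) → ℂ} {Y : T → Fin m → Fin (m + 1) → ℂ} {p : T}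
    (hx : ContDiffAt ℝ 1 x p) (hY : ∀ b, ContDiffAt ℝ 1 (fun y => Y y b) p) :
    ContDiffAt ℝ 1 (fun y => Matrix.det (cn (x y) (Y y))) p := by
  refine det_c1 (R := fun y => cn (x y) (Y y)) fun i => ?_
  refine Fin.cases ?_ (fun b => ?_) i
  · simpa [cn] using hx
  · simpa [cn] using hY b

theorem B3_app {T V : Type*} [NormedAddCommGroup T] [NormedSpace ℝ T] [NormedAddCommGroup V]
    [NormedSpace ℝ V] {a b : ℕ} {x : T → Fin a → V} {y : T → Fin b → V} {p : T}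
    (hx : ∀ i, ContDiffAt ℝ 1 (fun t => x t i) p) (hy : ∀ i, ContDiffAt ℝ 1 (fun t => y t i) p)
    (i : Fin (a + b)) : ContDiffAt ℝ 1 (fun t => Fin.append (x t) (y t) i) p := by
  refine Fin.addCases (fun k => ?_) (fun k => ?_) i
  · simpa [Fin.append_left] using hx k
  · simpa [Fin.append_right] using hy k

theorem B3_upd {T V : Type*} [NormedAddCommGroup T] [NormedSpace ℝ T] [NormedAddCommGroup V]
    [NormedSpace ℝ V] {a : ℕ} {x : T → Fin a → V} {y : T → V} {p : T}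
    (hx : ∀ i, ContDiffAt ℝ 1 (fun t => x t i) p) (hy : ContDiffAt ℝ 1 y p)
    (k i : Fin a) : ContDiffAt ℝ 1 (fun t => Function.update (x t) k (y t) i) p := by
  by_cases hik : i = k
  · subst hik
    simpa using hy
  · simpa [Function.update_of_ne hik] using hx i

/-- PROOF. `F0_c2`, `det_c1`, `rx_c2`, `rζ_c1`, `rz_c1`, `rτ_c1`. -/
theorem Ker_c1 (hg : Geo U δ h c C) (ε : ℝ) {q : ℕ} (I : Fin (q + 1) → Fin n) (Y : Fin q → Ec n) :
    ContDiffOn ℝ 1 (fun p : Tn n => Ker δ h ε I Y p.2.1 p.1 p.2.2) (Tset U δ h ε) := by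
  rintro ⟨z, τ, ζ⟩ ⟨hz, hζ, ha⟩
  refine ContDiffAt.contDiffWithinAt ?_
  unfold Ker
  refine ((F0_c2 hg ε hz hζ τ ha).of_le one_le_two).mul (B3_cn
    ((rx_c2 hg ε (q + 1) hz hζ τ).of_le one_le_two) (fun b => B3_app
      (fun l => rζ_c1 hg ε I hz hζ τ (ee l)) (fun i => ?_) b))
  refine Fin.lastCases ?_ (fun i => ?_) i
  · simpa [sn] using rτ_c1 hg ε (q + 1) hz hζ τ
  · simpa [sn] using rz_c1 (q + 1) (Y i) (z, τ, ζ)

/-- PROOF. As `Ker_c1`. -/
theorem Kr0_c1 (hg : Geo U δ h c C) (ε : ℝ) {q : ℕ} (I : Fin q → Fin n) (Y : Fin q → Ec n) :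
    ContDiffOn ℝ 1 (fun p : Tn n => Kr0 δ h ε I Y p.2.1 p.1 p.2.2) (Tset U δ h ε) := by
  rintro ⟨z, τ, ζ⟩ ⟨hz, hζ, ha⟩
  refine ContDiffAt.contDiffWithinAt ?_
  unfold Kr0
  exact ((F0_c2 hg ε hz hζ τ ha).of_le one_le_two).mul (B3_cn
    ((rx_c2 hg ε q hz hζ τ).of_le one_le_two) (fun b => B3_app
      (fun l => rζ_c1 hg ε I hz hζ τ (ee l)) (fun i => rz_c1 q (Y i) (z, τ, ζ)) b))

/-- PROOF. As `Ker_c1`. -/
theorem KA_c1 (hg : Geo U δ h c C) (ε : ℝ) {q : ℕ} (I : Fin q → Fin n) (Y : Fin q → Ec n)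
    (k : Fin n) :
    ContDiffOn ℝ 1 (fun p : Tn n => KA δ h ε I Y k p.2.1 p.1 p.2.2) (Tset U δ h ε) := by
  rintro ⟨z, τ, ζ⟩ ⟨hz, hζ, ha⟩
  refine ContDiffAt.contDiffWithinAt ?_
  unfold KA
  exact ((F0_c2 hg ε hz hζ τ ha).of_le one_le_two).mul (B3_cn
    ((rx_c2 hg ε q hz hζ τ).of_le one_le_two) (fun b => B3_app
      (fun l => B3_upd (fun l => rζ_c1 hg ε I hz hζ τ (ee l)) (rτ_c1 hg ε q hz hζ τ) k l)
      (fun i => rz_c1 q (Y i) (z, τ, ζ)) b))

/-- PROOF. As `Ker_c1`. -/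
theorem KB_c1 (hg : Geo U δ h c C) (ε : ℝ) {q : ℕ} (I : Fin q → Fin n) (Y : Fin q → Ec n)
    (i : Fin q) :
    ContDiffOn ℝ 1 (fun p : Tn n => KB δ h ε I Y i p.2.1 p.1 p.2.2) (Tset U δ h ε) := by
  rintro ⟨z, τ, ζ⟩ ⟨hz, hζ, ha⟩
  refine ContDiffAt.contDiffWithinAt ?_
  unfold KB
  exact ((F0_c2 hg ε hz hζ τ ha).of_le one_le_two).mul (B3_cn
    ((rx_c2 hg ε q hz hζ τ).of_le one_le_two) (fun b => B3_app
      (fun l => rζ_c1 hg ε I hz hζ τ (ee l))
      (fun i' => B3_upd (fun i => rz_c1 q (Y i) (z, τ, ζ)) (rτ_c1 hg ε q hz hζ τ) i i') b))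

theorem B3_app_left {V : Type*} {a b : ℕ} (x : Fin a → V) (y : Fin b → V) (k : Fin a) (v : V) :
    Function.update (Fin.append x y) (Fin.castAdd b k) v =
      Fin.append (Function.update x k v) y := by
  funext i
  refine Fin.addCases (fun l => ?_) (fun l => ?_) i
  · by_cases hl : l = k
    · subst hl
      simp
    · have h1 : Fin.castAdd b l ≠ Fin.castAdd b k := fun e => hl (by
        have := congrArg Fin.val e
        simp at this
        exact Fin.ext this)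
      rw [Function.update_of_ne h1, Fin.append_left, Fin.append_left, Function.update_of_ne hl]
  · have h1 : Fin.natAdd a l ≠ Fin.castAdd b k := fun e => by
      have := congrArg Fin.val e
      simp at this
      omega
    rw [Function.update_of_ne h1, Fin.append_right, Fin.append_right]

theorem B3_app_right {V : Type*} {a b : ℕ} (x : Fin a → V) (y : Fin b → V) (k : Fin b) (v : V) :
    Function.update (Fin.append x y) (Fin.natAdd a k) v =
      Fin.append x (Function.update y k v) := by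
  funext i
  refine Fin.addCases (fun l => ?_) (fun l => ?_) i
  · have h1 : Fin.castAdd b l ≠ Fin.natAdd a k := fun e => by
      have := congrArg Fin.val e
      simp at this
      omega
    rw [Function.update_of_ne h1, Fin.append_left, Fin.append_left]
  · by_cases hl : l = k
    · subst hl
      simp
    · have h1 : Fin.natAdd a l ≠ Fin.natAdd a k := fun e => hl (by
        have := congrArg Fin.val e
        simp at this
        exact Fin.ext this)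
      rw [Function.update_of_ne h1, Fin.append_right, Fin.append_right,
        Function.update_of_ne hl]

/-- The kernel is closed.
PROOF. `closed_ker` with `T = Tn n`, `m = n + q`, `G = GG δ h ε I`, `F` the function
`p ↦ F0 δ h ε p.2.1 p.1 p.2.2`, `π = πv n q`, the directions
`d = Fin.append (fun l => dζ (ee l)) (fun i => dz (Y i))` and `t = dt n`, at the point `(z, τ, ζ)`.
The hypotheses are `GG_c2`, `F0_c2`, `pow_rel` with `a = n + 8`, `b = 2 * n + 9`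
(`a - b = -(n + 1)`, and `∑ πv = n + 1` by `sum_πv`).
Near the point (on the open set `Tset`) the functions in `closed_ker` are
`π * GG = rx` (`GG_x`), `cd GG (dζ (ee l)) = rζ` (`GG_ζ`), `cd GG (dz (Y i)) = rz` (`GG_z`),
`cd GG dt = rτ` (`GG_t`), so `fun b => cd GG y (d b)` is
`Fin.append (fun l => rζ .. (ee l)) (fun i => rz .. (Y i))` (`Fin.addCases`), and
`Function.update` of it at `b = Fin.castAdd q l` or `b = Fin.natAdd n i` is an append of updates.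
Use `cd_congr`. The sum over `b : Fin (n + q)` splits with `Fin.sum_univ_add`. Finally `cd_dζ`,
`cd_dz`, `cd_dt` with `KA_c1`, `KB_c1`, `Kr0_c1` (differentiability). -/
theorem kr0_closed (hg : Geo U δ h c C) (ε : ℝ) {q : ℕ} (I : Fin q → Fin n) (Y : Fin q → Ec n)
    {z ζ : Ec n} (hz : z ∈ U) (hζ : ζ ∈ U) (τ : ℝ) (ha : aa δ h ε τ z ζ ≠ 0) :
    HasDerivAt (fun τ' => Kr0 δ h ε I Y τ' z ζ)
      (∑ k, db (fun ζ' => KA δ h ε I Y k τ z ζ') ζ (ee k) +
        ∑ i, db (fun z' => KB δ h ε I Y i τ z' ζ) z (Y i)) τ := by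
  have hT : Tset U δ h ε ∈ 𝓝 ((z, τ, ζ) : Tn n) := (Tset_open hg ε).mem_nhds ⟨hz, hζ, ha⟩
  have hdf : ∀ {K : Tn n → ℂ}, ContDiffOn ℝ 1 K (Tset U δ h ε) →
      DifferentiableAt ℝ K (z, τ, ζ) := fun hK =>
    (hK.contDiffAt hT).differentiableAt (by norm_num)
  obtain ⟨μ, hμ1, hμ2, -⟩ := pow_rel hg ε I hz hζ τ ha (n + 8) (2 * n + 9) (by omega)
  have hN : ∀ᶠ p : Tn n in 𝓝 (z, τ, ζ), p.1 ∈ U ∧ p.2.2 ∈ U :=
    (B3_nhds1 hg hz τ ζ).and (B3_nhds2 hg hζ z τ)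
  have hrow : ∀ p : Tn n, p.1 ∈ U → p.2.2 ∈ U →
      (fun b => cd (GG δ h ε I) p (Fin.append (fun l => dζ (ee l)) (fun i => dz (Y i)) b)) =
      Fin.append (fun l => rζ δ h ε I p.2.1 p.1 p.2.2 (ee l)) (fun i => rz q p.2.1 (Y i)) := by
    intro p h1 h2
    funext b
    refine Fin.addCases (fun k => ?_) (fun k => ?_) b
    · simp only [Fin.append_left]
      exact GG_ζ hg ε I h1 h2 p.2.1 (ee k)
    · simp only [Fin.append_right]
      exact GG_z hg ε I h1 h2 p.2.1 (Y k)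
  have hx : ∀ p : Tn n, πv n q * GG δ h ε I p = rx δ h ε q p.2.1 p.1 p.2.2 := fun p =>
    GG_x δ h ε I p.1 p.2.2 p.2.1
  have ht : ∀ p : Tn n, p.1 ∈ U → p.2.2 ∈ U →
      cd (GG δ h ε I) p (dt n) = rτ δ h ε q p.1 p.2.2 := fun p h1 h2 =>
    GG_t hg ε I h1 h2 p.2.1
  have hck := closed_ker (T := Tn n) (m := n + q) (G := GG δ h ε I)
    (F := fun p => F0 δ h ε p.2.1 p.1 p.2.2) (p := (z, τ, ζ)) (GG_c2 hg ε I hz hζ τ)
    ((F0_c2 hg ε hz hζ τ ha).differentiableAt (by norm_num)) (πv n q) μ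
    (Fin.append (fun l => dζ (ee l)) (fun i => dz (Y i))) (dt n)
    (hμ1 (dt n) (Or.inr (Or.inr rfl)))
    (fun b => hμ1 _ (by
      refine Fin.addCases (fun k => ?_) (fun k => ?_) b
      · left
        exact ⟨ee k, by simp only [Fin.append_left]⟩
      · right; left
        exact ⟨Y k, by simp only [Fin.append_right]⟩))
    (by
      rw [hμ2, sum_πv]
      unfold F0
      push_cast
      ring)
  have h0 : cd (fun p : Tn n => Kr0 δ h ε I Y p.2.1 p.1 p.2.2) (z, τ, ζ) (dt n) =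
      ∑ k, db (fun ζ' => KA δ h ε I Y k τ z ζ') ζ (ee k) +
        ∑ i, db (fun z' => KB δ h ε I Y i τ z' ζ) z (Y i) := by
    have e1 : (fun p : Tn n => Kr0 δ h ε I Y p.2.1 p.1 p.2.2) =ᶠ[𝓝 (z, τ, ζ)]
        (fun y => (fun p : Tn n => F0 δ h ε p.2.1 p.1 p.2.2) y *
          Matrix.det (cn (πv n q * GG δ h ε I y) (fun b => cd (GG δ h ε I) y
            (Fin.append (fun l => dζ (ee l)) (fun i => dz (Y i)) b)))) := by
      filter_upwards [hN] with p hp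
      rw [hrow p hp.1 hp.2, hx p]
      rfl
    rw [cd_congr e1, hck, Fin.sum_univ_add]
    congr 1
    · refine Finset.sum_congr rfl fun k _ => ?_
      rw [← cd_dζ (F := fun p : Tn n => KA δ h ε I Y k p.2.1 p.1 p.2.2)
        (hdf (KA_c1 hg ε I Y k))]
      rw [Fin.append_left]
      refine cd_congr ?_ _
      filter_upwards [hN] with p hp
      rw [hrow p hp.1 hp.2, hx p, ht p hp.1 hp.2, B3_app_left]
      rfl
    · refine Finset.sum_congr rfl fun k _ => ?_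
      rw [← cd_dz (F := fun p : Tn n => KB δ h ε I Y k p.2.1 p.1 p.2.2)
        (hdf (KB_c1 hg ε I Y k))]
      rw [Fin.append_right]
      refine cd_congr ?_ _
      filter_upwards [hN] with p hp
      rw [hrow p hp.1 hp.2, hx p, ht p hp.1 hp.2, B3_app_right]
      rfl
  rw [← h0]
  exact cd_dt (F := fun p : Tn n => Kr0 δ h ε I Y p.2.1 p.1 p.2.2) (hdf (Kr0_c1 hg ε I Y))

end Pool.Agent.MPca0fc2.FD
end

section

set_option autoImplicit false

open Metric Set MeasureTheory Filter Topology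
open scoped InnerProductSpace ENNReal

namespace Pool.Agent.MPca0fc2.PT

variable {E : Type*} [NormedAddCommGroup E] [InnerProductSpace ℂ E]

variable [FiniteDimensional ℂ E] [MeasurableSpace E] [BorelSpace E]

theorem pot_ae {ν : Measure E} {A : ℝ} (h : Carl ν A) : ∀ᵐ ξ ∂ν, ‖ξ‖ < 1 := by
  have h1 := h.2.1
  rw [ae_iff]
  refine measure_mono_null ?_ h1
  intro x hx
  simpa using hx

theorem pot_HH_meas (y : E) : Measurable fun ξ => HH y ξ := by
  unfold HH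
  have h1 : Continuous fun ξ : E => (1 - ‖y‖ ^ 2) * (1 - ‖ξ‖ ^ 2) := by fun_prop
  have h2 : Continuous fun ξ : E => ‖1 - ⟪y, ξ⟫_ℂ‖ ^ 2 := by fun_prop
  exact h1.measurable.div h2.measurable

theorem pot_HH_nonneg {x y : E} (hx : ‖x‖ < 1) (hy : ‖y‖ < 1) : 0 ≤ HH x y := (HH_pos hx hy).le

theorem pot_HH_int {ν : Measure E} {A : ℝ} (h : Carl ν A) {y : E} (hy : ‖y‖ < 1) :
    Integrable (fun ξ => HH y ξ) ν ∧ ∫ ξ, HH y ξ ∂ν ≤ A := by
  have hnn : 0 ≤ᵐ[ν] fun ξ => HH y ξ := by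
    filter_upwards [pot_ae h] with ξ hξ
    exact pot_HH_nonneg hy hξ
  have hle := h.2.2 y (by rwa [mem_ball_zero_iff])
  have hint : Integrable (fun ξ => HH y ξ) ν := by
    refine ⟨(pot_HH_meas y).aestronglyMeasurable, ?_⟩
    rw [hasFiniteIntegral_iff_ofReal hnn]
    exact hle.trans_lt ENNReal.ofReal_lt_top
  refine ⟨hint, ?_⟩
  rw [integral_eq_lintegral_of_nonneg_ae hnn hint.1]
  exact ENNReal.toReal_le_of_le_ofReal h.1 hle

theorem EE_nonneg (ν : Measure E) (y : E) : 0 ≤ EE ν y :=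
  integral_nonneg fun _ => sq_nonneg _

theorem EE_integrable {ν : Measure E} {A : ℝ} (h : Carl ν A) {y : E} (hy : ‖y‖ < 1) :
    Integrable (fun ξ => HH y ξ ^ 2) ν := by
  refine (pot_HH_int h hy).1.mono' ((pot_HH_meas y).pow_const 2).aestronglyMeasurable ?_
  filter_upwards [pot_ae h] with ξ hξ
  have h1 := pot_HH_nonneg hy hξ
  have h2 := HH_le_one hy hξ
  rw [Real.norm_eq_abs, abs_of_nonneg (sq_nonneg _)]
  nlinarith

theorem EE_compare {ν : Measure E} {A : ℝ} (h : Carl ν A) {x y : E} (hx : ‖x‖ < 1)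
    (hy : ‖y‖ < 1) : EE ν x * HH x y ^ 2 ≤ 16 * EE ν y := by
  unfold EE
  rw [← integral_mul_const, ← integral_const_mul]
  refine integral_mono_ae ((EE_integrable h hx).mul_const _) ((EE_integrable h hy).const_mul _) ?_
  filter_upwards [pot_ae h] with ξ hξ
  show HH x ξ ^ 2 * HH x y ^ 2 ≤ 16 * HH y ξ ^ 2
  have h1 : HH y x * HH x ξ ≤ 4 * HH y ξ := HH_mul hy hx hξ
  rw [HH_comm y x] at h1
  have h2 := pot_HH_nonneg hx hξ
  have h3 := pot_HH_nonneg hx hy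
  have h4 := mul_nonneg h3 h2
  calc HH x ξ ^ 2 * HH x y ^ 2 = (HH x y * HH x ξ) ^ 2 := by ring
    _ ≤ (4 * HH y ξ) ^ 2 := pow_le_pow_left₀ h4 h1 2
    _ = 16 * HH y ξ ^ 2 := by ring

/-! ### the holomorphic potential -/

end Pool.Agent.MPca0fc2.PT
end

section

/-! Integrals which depend on a parameter. -/

set_option autoImplicit false

open Metric Set MeasureTheory Filter Topology

namespace Pool.Agent.MPca0fc2.FD

variable {n : ℕ} {V : Type*} [NormedAddCommGroup V] [NormedSpace ℂ V] [FiniteDimensional ℂ V]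
variable {U : Set (Ec n)} {δ : Ec n → ℝ} {h : Ec n → Ec n → Fin n → ℂ} {c C : ℝ}

/-- PROOF. `δ` is continuous on the open set `U`. -/
theorem Om_open (hg : Geo U δ h c C) : IsOpen (Om U δ) := by
  exact hg.dδ.continuousOn.isOpen_inter_preimage hg.opn isOpen_Ioi

/-- PROOF. `Om U δ` is contained in the compact set `Kc U δ`. -/
theorem Om_vol (hg : Geo U δ h c C) : volume (Om U δ) < ⊤ := by
  have h1 : Om U δ ⊆ Kc U δ := fun z hz => ⟨hz.1, hz.2.le⟩
  exact (measure_mono h1).trans_lt hg.cpt.measure_lt_top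

/-- PROOF. `aa_ne`. -/
theorem Tset_mem (hg : Geo U δ h c C) {ε : ℝ} (hε : 0 < ε) {τ : ℝ} (hτ : τ ∈ Icc (0 : ℝ) 1)
    {z ζ : Ec n} (hz : z ∈ Om U δ) (hζ : ζ ∈ Kc U δ) : (z, τ, ζ) ∈ Tset U δ h ε := by
  exact ⟨hz.1, hζ.1, aa_ne hg hε hτ hz hζ⟩

theorem B7_sub (U : Set (Ec n)) (δ : Ec n → ℝ) : Om U δ ⊆ Kc U δ := fun _ hz => ⟨hz.1, hz.2.le⟩

theorem B7_Kc (hg : Geo U δ h c C) : IsCompact (Kc U δ) := hg.cpt

theorem B7_ms (hg : Geo U δ h c C) : MeasurableSet (Icc (0 : ℝ) 1 ×ˢ Om U δ) :=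
  measurableSet_Icc.prod (Om_open hg).measurableSet

theorem B7_cpt (hg : Geo U δ h c C) : IsCompact (Icc (0 : ℝ) 1 ×ˢ Kc U δ) :=
  isCompact_Icc.prod (B7_Kc hg)

theorem B7_sub2 (U : Set (Ec n)) (δ : Ec n → ℝ) :
    (Icc (0 : ℝ) 1 ×ˢ Om U δ) ⊆ (Icc (0 : ℝ) 1 ×ˢ Kc U δ) :=
  prod_mono subset_rfl (B7_sub U δ)

theorem B7_slice {E : Type*} [NormedAddCommGroup E] (hg : Geo U δ h c C) {ε : ℝ} (hε : 0 < ε)
    {k : Tn n → E} (hk : ContinuousOn k (Tset U δ h ε)) {z : Ec n} (hz : z ∈ Om U δ) :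
    ContinuousOn (fun p : ℝ × Ec n => k (z, p)) (Icc (0 : ℝ) 1 ×ˢ Kc U δ) := by
  refine hk.comp (Continuous.prodMk_right z).continuousOn ?_
  intro p hp
  exact Tset_mem hg hε hp.1 hz hp.2

theorem B7_meas {E : Type*} [NormedAddCommGroup E] (hg : Geo U δ h c C) {ε : ℝ} (hε : 0 < ε)
    {k : Tn n → E} (hk : ContinuousOn k (Tset U δ h ε)) {z : Ec n} (hz : z ∈ Om U δ) :
    AEStronglyMeasurable (fun p : ℝ × Ec n => k (z, p))
      (volume.restrict (Icc (0 : ℝ) 1 ×ˢ Om U δ)) := by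
  have h1 := (B7_slice hg hε hk hz).aestronglyMeasurable (μ := volume)
    (B7_cpt hg).isClosed.measurableSet
  exact h1.mono_measure (Measure.restrict_mono (B7_sub2 U δ) le_rfl)

theorem B7_bound {E : Type*} [NormedAddCommGroup E] (hg : Geo U δ h c C) {ε : ℝ} (hε : 0 < ε)
    {k : Tn n → E} (hk : ContinuousOn k (Tset U δ h ε)) {z₀ : Ec n} (hz : z₀ ∈ Om U δ) :
    ∃ r : ℝ, 0 < r ∧ closedBall z₀ r ⊆ Om U δ ∧ ∃ B : ℝ, 0 ≤ B ∧ ∀ z ∈ closedBall z₀ r,
      ∀ p ∈ Icc (0 : ℝ) 1 ×ˢ Kc U δ, ‖k (z, p)‖ ≤ B := by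
  obtain ⟨r, hr, hrs⟩ := Metric.nhds_basis_closedBall.mem_iff.mp ((Om_open hg).mem_nhds hz)
  refine ⟨r, hr, hrs, ?_⟩
  have h1 : IsCompact (closedBall z₀ r ×ˢ (Icc (0 : ℝ) 1 ×ˢ Kc U δ)) :=
    (isCompact_closedBall z₀ r).prod (B7_cpt hg)
  have h2 : ContinuousOn k (closedBall z₀ r ×ˢ (Icc (0 : ℝ) 1 ×ˢ Kc U δ)) := by
    refine hk.mono ?_
    rintro ⟨z, τ, ζ⟩ ⟨hz1, hτ, hζ⟩
    exact Tset_mem hg hε hτ (hrs hz1) hζ
  obtain ⟨B, hB⟩ := h1.exists_bound_of_continuousOn h2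
  refine ⟨max B 0, le_max_right _ _, ?_⟩
  intro z hz1 p hp
  exact (hB (z, p) ⟨hz1, hp⟩).trans (le_max_left _ _)

/-- Continuity of parameter integrals, with bounded data.
PROOF. Let `S = Icc 0 1 ×ˢ Kc U δ`, compact, so that `{z} ×ˢ S ⊆ Tset` for `z ∈ Om U δ`. The function
`(z, p) ↦ k (z, p)` is continuous on the open set `Tset`, so for a compact neighbourhood `N` of `z₀`
in `Om U δ` it is bounded on `N ×ˢ S`. Dominated convergence (`continuousWithinAt_of_dominated` or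
`continuousOn_of_dominated`): the bound is a constant times `‖g p‖`, which is integrable over
`Icc 0 1 ×ˢ Om U δ` (a set of finite measure, `g` is bounded and measurable there). -/
theorem param_cont (hg : Geo U δ h c C) {ε : ℝ} (hε : 0 < ε) {k : Tn n → ℂ}
    (hk : ContinuousOn k (Tset U δ h ε)) {g : ℝ × Ec n → V}
    (hgm : IntegrableOn g (Icc (0 : ℝ) 1 ×ˢ Om U δ)) :
    ContinuousOn (fun z => ∫ p in Icc (0 : ℝ) 1 ×ˢ Om U δ, k (z, p) • g p) (Om U δ) := by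
  intro z₀ hz₀
  obtain ⟨r, hr, hrs, B, hB0, hB⟩ := B7_bound hg hε hk hz₀
  refine ContinuousAt.continuousWithinAt ?_
  refine continuousAt_of_dominated (bound := fun p => B * ‖g p‖) ?_ ?_ ?_ ?_
  · filter_upwards [(Om_open hg).mem_nhds hz₀] with z hz
    exact (B7_meas hg hε hk hz).smul hgm.aestronglyMeasurable
  · filter_upwards [closedBall_mem_nhds z₀ hr] with z hz
    filter_upwards [ae_restrict_mem (B7_ms hg)] with p hp
    rw [norm_smul]
    exact mul_le_mul_of_nonneg_right (hB z hz p (B7_sub2 U δ hp)) (norm_nonneg _)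
  · exact hgm.norm.const_mul B
  · filter_upwards [ae_restrict_mem (B7_ms hg)] with p hp
    have h1 : ContinuousAt k (z₀, p) := by
      refine hk.continuousAt ((Tset_open hg ε).mem_nhds ?_)
      exact Tset_mem hg hε hp.1 hz₀ (B7_sub U δ hp.2)
    have h2 : ContinuousAt (fun z : Ec n => k (z, p)) z₀ :=
      ContinuousAt.comp (f := fun z : Ec n => ((z, p) : Tn n)) h1
        (Continuous.prodMk_left p).continuousAt
    exact h2.smul continuousAt_const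

theorem B7_dcont (hg : Geo U δ h c C) {ε : ℝ} {k : Tn n → ℂ}
    (hk : ContDiffOn ℝ 1 k (Tset U δ h ε)) : ContinuousOn (fderiv ℝ k) (Tset U δ h ε) :=
  hk.continuousOn_fderiv_of_isOpen (Tset_open hg ε) le_rfl

theorem B7_da (hg : Geo U δ h c C) {ε : ℝ} {k : Tn n → ℂ}
    (hk : ContDiffOn ℝ 1 k (Tset U δ h ε)) {q : Tn n} (hq : q ∈ Tset U δ h ε) :
    HasFDerivAt k (fderiv ℝ k q) q :=
  ((hk.differentiableOn one_ne_zero).differentiableAt ((Tset_open hg ε).mem_nhds hq)).hasFDerivAt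

/-- the slice in `z` -/
theorem B7_slz (hg : Geo U δ h c C) {ε : ℝ} {k : Tn n → ℂ}
    (hk : ContDiffOn ℝ 1 k (Tset U δ h ε)) {z : Ec n} {p : ℝ × Ec n}
    (hq : ((z, p) : Tn n) ∈ Tset U δ h ε) :
    HasFDerivAt (fun z' : Ec n => k (z', p))
      ((fderiv ℝ k (z, p)).comp (ContinuousLinearMap.inl ℝ (Ec n) (ℝ × Ec n))) z := by
  have h1 := B7_da hg hk hq
  have h2 : HasFDerivAt (fun z' : Ec n => ((z', p) : Tn n))
      (ContinuousLinearMap.inl ℝ (Ec n) (ℝ × Ec n)) z := hasFDerivAt_prodMk_left z p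
  exact HasFDerivAt.comp (f := fun z' : Ec n => ((z', p) : Tn n)) z h1 h2

/-- multiplication with a vector -/
noncomputable def B7_mu (V : Type*) [NormedAddCommGroup V] [NormedSpace ℂ V] (v : V) :
    ℂ →L[ℝ] V := (ContinuousLinearMap.lsmul ℝ ℂ).flip v

omit [FiniteDimensional ℂ V] in
theorem B7_mu_apply (v : V) (a : ℂ) : B7_mu V v a = a • v := rfl

omit [FiniteDimensional ℂ V] in
theorem B7_mu_norm (v : V) : ‖B7_mu V v‖ ≤ ‖v‖ := by
  refine ContinuousLinearMap.opNorm_le_bound _ (norm_nonneg _) ?_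
  intro a
  rw [B7_mu_apply, norm_smul, mul_comm]

/-- the derivative of the integrand -/
noncomputable def B7_F {n : ℕ} {V : Type*} [NormedAddCommGroup V] [NormedSpace ℂ V]
    (k : Tn n → ℂ) (g : ℝ × Ec n → V) (z : Ec n) (p : ℝ × Ec n) : Ec n →L[ℝ] V :=
  (B7_mu V (g p)).comp ((fderiv ℝ k (z, p)).comp (ContinuousLinearMap.inl ℝ (Ec n) (ℝ × Ec n)))

omit [FiniteDimensional ℂ V] in
theorem B7_F_norm (k : Tn n → ℂ) (g : ℝ × Ec n → V) (z : Ec n) (p : ℝ × Ec n) :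
    ‖B7_F k g z p‖ ≤ ‖fderiv ℝ k (z, p)‖ * ‖g p‖ := by
  unfold B7_F
  refine (ContinuousLinearMap.opNorm_comp_le _ _).trans ?_
  rw [mul_comm]
  refine mul_le_mul ?_ (B7_mu_norm _) (norm_nonneg _) (norm_nonneg _)
  refine (ContinuousLinearMap.opNorm_comp_le _ _).trans ?_
  have h1 : ‖ContinuousLinearMap.inl ℝ (Ec n) (ℝ × Ec n)‖ ≤ 1 :=
    ContinuousLinearMap.norm_inl_le_one ℝ (Ec n) (ℝ × Ec n)
  exact mul_le_of_le_one_right (norm_nonneg _) h1

theorem B7_F_meas (hg : Geo U δ h c C) {ε : ℝ} (hε : 0 < ε) {k : Tn n → ℂ}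
    (hk : ContDiffOn ℝ 1 k (Tset U δ h ε)) {g : ℝ × Ec n → V}
    (hgm : IntegrableOn g (Icc (0 : ℝ) 1 ×ˢ Om U δ)) {z : Ec n} (hz : z ∈ Om U δ) :
    AEStronglyMeasurable (B7_F k g z) (volume.restrict (Icc (0 : ℝ) 1 ×ˢ Om U δ)) := by
  have h1 : AEStronglyMeasurable (fun p : ℝ × Ec n => fderiv ℝ k (z, p))
      (volume.restrict (Icc (0 : ℝ) 1 ×ˢ Om U δ)) := B7_meas hg hε (B7_dcont hg hk) hz
  have h2 : AEStronglyMeasurable (fun p : ℝ × Ec n => (fderiv ℝ k (z, p)).comp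
      (ContinuousLinearMap.inl ℝ (Ec n) (ℝ × Ec n)))
      (volume.restrict (Icc (0 : ℝ) 1 ×ˢ Om U δ)) := by
    have h3 := ((ContinuousLinearMap.compL ℝ (Ec n) (Tn n) ℂ).flip
      (ContinuousLinearMap.inl ℝ (Ec n) (ℝ × Ec n))).continuous
    exact h3.comp_aestronglyMeasurable h1
  have h4 : AEStronglyMeasurable (fun p : ℝ × Ec n => B7_mu V (g p))
      (volume.restrict (Icc (0 : ℝ) 1 ×ˢ Om U δ)) := by
    have h5 := ((ContinuousLinearMap.lsmul ℝ ℂ : ℂ →L[ℝ] V →L[ℝ] V).flip).continuous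
    exact h5.comp_aestronglyMeasurable hgm.aestronglyMeasurable
  exact (ContinuousLinearMap.compL ℝ (Ec n) ℂ V).aestronglyMeasurable_comp₂ h4 h2

theorem B7_fd (hg : Geo U δ h c C) {ε : ℝ} (hε : 0 < ε) {k : Tn n → ℂ}
    (hk : ContDiffOn ℝ 1 k (Tset U δ h ε)) {g : ℝ × Ec n → V}
    (hgm : IntegrableOn g (Icc (0 : ℝ) 1 ×ˢ Om U δ)) {z : Ec n} (hz : z ∈ Om U δ) :
    IntegrableOn (B7_F k g z) (Icc (0 : ℝ) 1 ×ˢ Om U δ) ∧
    HasFDerivAt (fun z => ∫ p in Icc (0 : ℝ) 1 ×ˢ Om U δ, k (z, p) • g p)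
      (∫ p in Icc (0 : ℝ) 1 ×ˢ Om U δ, B7_F k g z p) z := by
  obtain ⟨r, hr, hrs, B, hB0, hB⟩ := B7_bound hg hε (B7_dcont hg hk) hz
  obtain ⟨r', hr', hrs', B', hB0', hB'⟩ := B7_bound hg hε hk.continuousOn hz
  have hb : ∀ z' ∈ closedBall z r, ∀ p ∈ Icc (0 : ℝ) 1 ×ˢ Om U δ,
      ‖B7_F k g z' p‖ ≤ B * ‖g p‖ := by
    intro z' hz' p hp
    exact (B7_F_norm k g z' p).trans
      (mul_le_mul_of_nonneg_right (hB z' hz' p (B7_sub2 U δ hp)) (norm_nonneg _))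
  constructor
  · refine Integrable.mono' (hgm.norm.const_mul B) (B7_F_meas hg hε hk hgm hz) ?_
    filter_upwards [ae_restrict_mem (B7_ms hg)] with p hp
    exact hb z (mem_closedBall_self hr.le) p hp
  · refine hasFDerivAt_integral_of_dominated_of_fderiv_le (𝕜 := ℝ)
      (F := fun z p => k (z, p) • g p) (F' := fun z p => B7_F k g z p)
      (bound := fun p => B * ‖g p‖) (closedBall_mem_nhds z hr) ?_ ?_
      (B7_F_meas hg hε hk hgm hz) ?_ (hgm.norm.const_mul B) ?_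
    · filter_upwards [(Om_open hg).mem_nhds hz] with z' hz'
      exact (B7_meas hg hε hk.continuousOn hz').smul hgm.aestronglyMeasurable
    · refine Integrable.mono' (hgm.norm.const_mul B')
        ((B7_meas hg hε hk.continuousOn hz).smul hgm.aestronglyMeasurable) ?_
      filter_upwards [ae_restrict_mem (B7_ms hg)] with p hp
      rw [norm_smul]
      exact mul_le_mul_of_nonneg_right
        (hB' z (mem_closedBall_self hr'.le) p (B7_sub2 U δ hp)) (norm_nonneg _)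
    · filter_upwards [ae_restrict_mem (B7_ms hg)] with p hp z' hz'
      exact hb z' hz' p hp
    · filter_upwards [ae_restrict_mem (B7_ms hg)] with p hp z' hz'
      have h1 : ((z', p) : Tn n) ∈ Tset U δ h ε :=
        Tset_mem hg hε hp.1 (hrs hz') (B7_sub U δ hp.2)
      have h2 := B7_slz hg hk h1
      have h3 : HasFDerivAt (B7_mu V (g p)) (B7_mu V (g p)) (k (z', p)) :=
        (B7_mu V (g p)).hasFDerivAt
      exact HasFDerivAt.comp (f := fun z' : Ec n => k (z', p)) z' h3 h2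

/-- Differentiation under the integral.
PROOF. `hasFDerivAt_integral_of_dominated_of_fderiv_le` on a ball `ball z₀ r` whose closure `N` is in
`Om U δ`; on the compact set `N ×ˢ (Icc 0 1 ×ˢ Kc U δ) ⊆ Tset` the derivative
`fderiv ℝ k` is continuous, so bounded by `B`; the bound of the derivative in `z` of
`k (z, p) • g p` is `B ‖g p‖`. -/
theorem param_diff (hg : Geo U δ h c C) {ε : ℝ} (hε : 0 < ε) {k : Tn n → ℂ}
    (hk : ContDiffOn ℝ 1 k (Tset U δ h ε)) {g : ℝ × Ec n → V}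
    (hgm : IntegrableOn g (Icc (0 : ℝ) 1 ×ˢ Om U δ)) {z : Ec n} (hz : z ∈ Om U δ) (X : Ec n) :
    DifferentiableAt ℝ (fun z => ∫ p in Icc (0 : ℝ) 1 ×ˢ Om U δ, k (z, p) • g p) z ∧
      fderiv ℝ (fun z => ∫ p in Icc (0 : ℝ) 1 ×ˢ Om U δ, k (z, p) • g p) z X =
        ∫ p in Icc (0 : ℝ) 1 ×ˢ Om U δ, fderiv ℝ (fun z' => k (z', p)) z X • g p := by
  obtain ⟨hi, hd⟩ := B7_fd hg hε hk hgm hz
  refine ⟨hd.differentiableAt, ?_⟩
  rw [hd.fderiv, ContinuousLinearMap.integral_apply hi]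
  refine setIntegral_congr_fun (B7_ms hg) ?_
  intro p hp
  have h1 : ((z, p) : Tn n) ∈ Tset U δ h ε := Tset_mem hg hε hp.1 hz (B7_sub U δ hp.2)
  have h2 := B7_slz hg hk h1
  show B7_F k g z p X = fderiv ℝ (fun z' => k (z', p)) z X • g p
  rw [h2.fderiv]
  rfl

/-- PROOF. `param_diff`, and `param_cont` for the kernels `fderiv ℝ k (z, p) (X, 0)`, with
`fderiv ℝ (fun z' => k (z', p)) z X = fderiv ℝ k (z, p) (X, 0)`; a function on an open set is `C¹`
if it is differentiable with continuous derivatives in all directions of a basis (finite dimension: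
`contDiffOn_succ_iff_fderiv_of_isOpen`, `continuousOn_clm_apply`). -/
theorem param_c1 (hg : Geo U δ h c C) {ε : ℝ} (hε : 0 < ε) {k : Tn n → ℂ}
    (hk : ContDiffOn ℝ 1 k (Tset U δ h ε)) {g : ℝ × Ec n → V}
    (hgm : IntegrableOn g (Icc (0 : ℝ) 1 ×ˢ Om U δ)) :
    ContDiffOn ℝ 1 (fun z => ∫ p in Icc (0 : ℝ) 1 ×ˢ Om U δ, k (z, p) • g p) (Om U δ) := by
  have hop := Om_open hg
  have h0 : (1 : WithTop ℕ∞) = 0 + 1 := by rw [zero_add]
  rw [h0, contDiffOn_succ_iff_fderiv_of_isOpen hop]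
  refine ⟨fun z hz => (param_diff hg hε hk hgm hz 0).1.differentiableWithinAt, ?_, ?_⟩
  · intro hw
    exact absurd hw (by simp)
  · rw [contDiffOn_zero, continuousOn_clm_apply]
    intro X
    have hk' : ContinuousOn (fun q : Tn n => fderiv ℝ k q (X, 0)) (Tset U δ h ε) :=
      (B7_dcont hg hk).clm_apply continuousOn_const
    have h1 := param_cont hg hε hk' hgm
    refine h1.congr ?_
    intro z hz
    refine ((param_diff hg hε hk hgm hz X).2).trans ?_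
    refine setIntegral_congr_fun (B7_ms hg) ?_
    intro p hp
    have h1 : ((z, p) : Tn n) ∈ Tset U δ h ε := Tset_mem hg hε hp.1 hz (B7_sub U δ hp.2)
    have h2 := B7_slz hg hk h1
    show fderiv ℝ (fun z' => k (z', p)) z X • g p = fderiv ℝ k (z, p) (X, 0) • g p
    rw [h2.fderiv]
    rfl

/-- PROOF. `unfold db`, `param_diff` for `X` and `I • X`, linearity of the integral (integrability:
a bounded kernel times an integrable function). -/
theorem param_db (hg : Geo U δ h c C) {ε : ℝ} (hε : 0 < ε) {k : Tn n → ℂ}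
    (hk : ContDiffOn ℝ 1 k (Tset U δ h ε)) {g : ℝ × Ec n → V}
    (hgm : IntegrableOn g (Icc (0 : ℝ) 1 ×ˢ Om U δ)) {z : Ec n} (hz : z ∈ Om U δ) (X : Ec n) :
    db (fun z => ∫ p in Icc (0 : ℝ) 1 ×ˢ Om U δ, k (z, p) • g p) z X =
      ∫ p in Icc (0 : ℝ) 1 ×ˢ Om U δ, db (fun z' => k (z', p)) z X • g p := by
  have hi : ∀ Y : Ec n, IntegrableOn (fun p => fderiv ℝ (fun z' => k (z', p)) z Y • g p)
      (Icc (0 : ℝ) 1 ×ˢ Om U δ) := by
    intro Y
    have h1 := (B7_fd hg hε hk hgm hz).1.apply_continuousLinearMap Y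
    refine IntegrableOn.congr_fun h1 ?_ (B7_ms hg)
    intro p hp
    have h1 : ((z, p) : Tn n) ∈ Tset U δ h ε := Tset_mem hg hε hp.1 hz (B7_sub U δ hp.2)
    have h2 := B7_slz hg hk h1
    show B7_F k g z p Y = fderiv ℝ (fun z' => k (z', p)) z Y • g p
    rw [h2.fderiv]
    rfl
  unfold db
  rw [(param_diff hg hε hk hgm hz X).2, (param_diff hg hε hk hgm hz (Complex.I • X)).2]
  have hi2 : IntegrableOn (fun p => Complex.I •
      (fderiv ℝ (fun z' => k (z', p)) z (Complex.I • X) • g p)) (Icc (0 : ℝ) 1 ×ˢ Om U δ) :=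
    (hi (Complex.I • X)).smul Complex.I
  rw [← integral_smul, ← integral_add (hi X) hi2, ← integral_smul]
  refine setIntegral_congr_fun (B7_ms hg) ?_
  intro p _
  show (2⁻¹ : ℂ) • (fderiv ℝ (fun z' => k (z', p)) z X • g p +
    Complex.I • (fderiv ℝ (fun z' => k (z', p)) z (Complex.I • X) • g p)) =
    ((2⁻¹ : ℂ) • (fderiv ℝ (fun z' => k (z', p)) z X +
      Complex.I • fderiv ℝ (fun z' => k (z', p)) z (Complex.I • X))) • g p
  rw [smul_assoc, add_smul, smul_assoc Complex.I]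

/-- PROOF. The kernel `p ↦ k (z, p)` is continuous on the compact set `Icc 0 1 ×ˢ Kc U δ`, so
bounded on `Icc 0 1 ×ˢ Om U δ`. -/
theorem param_int (hg : Geo U δ h c C) {ε : ℝ} (hε : 0 < ε) {k : Tn n → ℂ}
    (hk : ContinuousOn k (Tset U δ h ε)) {g : ℝ × Ec n → V}
    (hgm : IntegrableOn g (Icc (0 : ℝ) 1 ×ˢ Om U δ)) {z : Ec n} (hz : z ∈ Om U δ) :
    IntegrableOn (fun p => k (z, p) • g p) (Icc (0 : ℝ) 1 ×ˢ Om U δ) := by
  obtain ⟨r, hr, hrs, B, hB0, hB⟩ := B7_bound hg hε hk hz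
  refine Integrable.mono' (hgm.norm.const_mul B)
    ((B7_meas hg hε hk hz).smul hgm.aestronglyMeasurable) ?_
  filter_upwards [ae_restrict_mem (B7_ms hg)] with p hp
  rw [norm_smul]
  exact mul_le_mul_of_nonneg_right
    (hB z (mem_closedBall_self hr.le) p (B7_sub2 U δ hp)) (norm_nonneg _)

/-- PROOF. A function which is continuous on the open set `W ⊇ Kc U δ` is bounded on `Kc U δ`, so
integrable on `Om U δ`, and the function `p ↦ η p.2` is integrable on the product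
(`Integrable.comp_snd` for the product of a finite measure). -/
theorem int_snd (hg : Geo U δ h c C) {W : Set (Ec n)} (hK : Kc U δ ⊆ W) {η : Ec n → V}
    (hη : ContinuousOn η W) :
    IntegrableOn (fun p : ℝ × Ec n => η p.2) (Icc (0 : ℝ) 1 ×ˢ Om U δ) ∧
      IntegrableOn η (Om U δ) := by
  constructor
  · have h1 : ContinuousOn (fun p : ℝ × Ec n => η p.2) (Icc (0 : ℝ) 1 ×ˢ Kc U δ) :=
      hη.comp continuous_snd.continuousOn (fun p hp => hK hp.2)
    exact (h1.integrableOn_compact (B7_cpt hg)).mono_set (B7_sub2 U δ)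
  · exact ((hη.mono hK).integrableOn_compact (B7_Kc hg)).mono_set (B7_sub U δ)

/-- The integral of the `τ` derivative.
PROOF. Fubini (`setIntegral_prod`, with the other order of the integration, `integral_prod_symm`,
or `integral_integral_swap`): for each `ζ` the inner integral over `Icc 0 1` of `∂_τ k (z, τ, ζ)` is
`k (z, 1, ζ) - k (z, 0, ζ)` by the fundamental theorem of calculus
(`intervalIntegral.integral_eq_sub_of_hasDerivAt`); the derivative is continuous on `Icc 0 1`.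
Integrability: `∂_τ k = fderiv ℝ k (z, τ, ζ) (0, 1, 0)` is continuous on `Tset`, see `param_int`. -/
theorem int_dt (hg : Geo U δ h c C) {ε : ℝ} (hε : 0 < ε) {k : Tn n → ℂ}
    (hk : ContDiffOn ℝ 1 k (Tset U δ h ε)) {W : Set (Ec n)} (hK : Kc U δ ⊆ W) {η : Ec n → V}
    (hη : ContinuousOn η W) {z : Ec n} (hz : z ∈ Om U δ) :
    ∫ p in Icc (0 : ℝ) 1 ×ˢ Om U δ, fderiv ℝ k (z, p) (0, 1, 0) • η p.2 =
      (∫ ζ in Om U δ, k (z, 1, ζ) • η ζ) - ∫ ζ in Om U δ, k (z, 0, ζ) • η ζ := by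
  have hk' : ContinuousOn (fun q : Tn n => fderiv ℝ k q (0, 1, 0)) (Tset U δ h ε) :=
    (B7_dcont hg hk).clm_apply continuousOn_const
  have hint := param_int hg hε hk' (int_snd hg hK hη).1 hz
  have hOm := (Om_open hg).measurableSet
  have h1 : (volume : Measure (ℝ × Ec n)).restrict (Icc (0 : ℝ) 1 ×ˢ Om U δ) =
      (volume.restrict (Icc (0 : ℝ) 1)).prod (volume.restrict (Om U δ)) := by
    rw [Measure.prod_restrict]
    rfl
  have h2 : ∫ p in Icc (0 : ℝ) 1 ×ˢ Om U δ, fderiv ℝ k (z, p) (0, 1, 0) • η p.2 =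
      ∫ ζ in Om U δ, ∫ τ in Icc (0 : ℝ) 1, fderiv ℝ k (z, (τ, ζ)) (0, 1, 0) • η ζ := by
    rw [h1]
    refine integral_prod_symm _ ?_
    rw [← h1]
    exact hint
  rw [h2]
  have h3 : ∀ ζ ∈ Om U δ, ∫ τ in Icc (0 : ℝ) 1, fderiv ℝ k (z, (τ, ζ)) (0, 1, 0) • η ζ =
      k (z, 1, ζ) • η ζ - k (z, 0, ζ) • η ζ := by
    intro ζ hζ
    rw [integral_smul_const, ← sub_smul]
    congr 1
    rw [integral_Icc_eq_integral_Ioc, ← intervalIntegral.integral_of_le zero_le_one]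
    have h4 : ∀ τ ∈ uIcc (0 : ℝ) 1, HasDerivAt (fun τ => k (z, τ, ζ))
        (fderiv ℝ k (z, (τ, ζ)) (0, 1, 0)) τ := by
      intro τ hτ
      rw [uIcc_of_le zero_le_one] at hτ
      have h5 := B7_da hg hk (Tset_mem hg hε hτ hz (B7_sub U δ hζ))
      have h6 : HasDerivAt (fun τ : ℝ => ((z, τ, ζ) : Tn n)) (0, 1, 0) τ :=
        (hasDerivAt_const τ z).prodMk ((hasDerivAt_id τ).prodMk (hasDerivAt_const τ ζ))
      exact HasFDerivAt.comp_hasDerivAt (f := fun τ : ℝ => ((z, τ, ζ) : Tn n)) τ h5 h6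
    have h7 : ContinuousOn (fun τ : ℝ => fderiv ℝ k (z, (τ, ζ)) (0, 1, 0)) (uIcc (0 : ℝ) 1) := by
      rw [uIcc_of_le zero_le_one]
      refine hk'.comp (f := fun τ : ℝ => ((z, τ, ζ) : Tn n)) ?_ ?_
      · exact (Continuous.prodMk_right z).comp_continuousOn
          (Continuous.prodMk_left ζ).continuousOn
      · intro τ hτ
        exact Tset_mem hg hε hτ hz (B7_sub U δ hζ)
    exact intervalIntegral.integral_eq_sub_of_hasDerivAt h4 h7.intervalIntegrable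
  rw [setIntegral_congr_fun hOm h3]
  have h8 : ∀ τ ∈ Icc (0 : ℝ) 1, IntegrableOn (fun ζ => k (z, τ, ζ) • η ζ) (Om U δ) := by
    intro τ hτ
    have h9 : ContinuousOn (fun ζ => k (z, τ, ζ) • η ζ) (Kc U δ) := by
      refine ContinuousOn.smul ?_ (hη.mono hK)
      refine hk.continuousOn.comp (f := fun ζ : Ec n => ((z, τ, ζ) : Tn n)) ?_ ?_
      · exact (Continuous.prodMk_right z).comp_continuousOn
          (Continuous.prodMk_right τ).continuousOn
      · intro ζ hζ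
        exact Tset_mem hg hε hτ hz hζ
    exact (h9.integrableOn_compact (B7_Kc hg)).mono_set (B7_sub U δ)
  exact integral_sub (h8 1 ⟨zero_le_one, le_rfl⟩) (h8 0 ⟨le_rfl, zero_le_one⟩)

end Pool.Agent.MPca0fc2.FD
end
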