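import Mathlib
import Pool.Agent.Lib.MP_ca0fc2_an.Pompeiu
import Pool.Agent.Lib.MP_ca0fc2_an.Holo
import Pool.Agent.Lib.MP_ca0fc2_an.Mg.G045

section

set_option autoImplicit false

open Metric Set MeasureTheory Filter Topology

namespace Pool.Agent.MPca0fc2.SD

open Pool.Agent.Lib.MP_ca0fc2_an

/-- the positive part to a power at least two is continuously differentiable -/
theorem hasDerivAt_posPow (m : ℕ) (hm : 1 ≤ m) (t : ℝ) :
    HasDerivAt (fun t : ℝ => (max t 0) ^ (m + 1)) ((m + 1 : ℕ) * (max t 0) ^ m) t := by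
  rcases lt_trichotomy t 0 with ht | ht | ht
  · have h1 : (fun t : ℝ => (max t 0) ^ (m + 1)) =ᶠ[𝓝 t] fun _ => (0 : ℝ) := by
      filter_upwards [Iio_mem_nhds ht] with s hs
      rw [max_eq_right (le_of_lt hs), zero_pow (by omega)]
    rw [max_eq_right ht.le, zero_pow (by omega), mul_zero]
    exact (hasDerivAt_const t (0 : ℝ)).congr_of_eventuallyEq h1
  · subst ht
    rw [max_self, zero_pow (by omega), mul_zero]
    rw [hasDerivAt_iff_isLittleO_nhds_zero]
    have h2 : (fun h : ℝ => (max (0 + h) 0) ^ (m + 1) - (max (0 : ℝ) 0) ^ (m + 1) - h • (0 : ℝ))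
        =O[𝓝 0] fun h : ℝ => h ^ 2 := by
      apply Asymptotics.IsBigO.of_bound 1
      have : Iio (1 : ℝ) ∩ Ioi (-1) ∈ 𝓝 (0 : ℝ) :=
        inter_mem (Iio_mem_nhds one_pos) (Ioi_mem_nhds (by norm_num))
      filter_upwards [this] with h hh
      rw [zero_add, max_self, zero_pow (by omega), smul_zero, sub_zero, sub_zero, one_mul,
        Real.norm_eq_abs, Real.norm_eq_abs, abs_pow, abs_pow]
      have h3 : |max h 0| ≤ |h| := by
        rcases le_total h 0 with h0 | h0
        · rw [max_eq_right h0, abs_zero]; exact abs_nonneg _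
        · rw [max_eq_left h0]
      have h4 : |h| ≤ 1 := abs_le.mpr ⟨le_of_lt hh.2, le_of_lt hh.1⟩
      calc |max h 0| ^ (m + 1) ≤ |h| ^ (m + 1) := pow_le_pow_left₀ (abs_nonneg _) h3 _
        _ ≤ |h| ^ 2 := pow_le_pow_of_le_one (abs_nonneg _) h4 (by omega)
    refine h2.trans_isLittleO ?_
    have := Asymptotics.isLittleO_pow_pow (𝕜 := ℝ) (m := 1) (n := 2) (by norm_num)
    simpa using this
  · have h1 : (fun t : ℝ => (max t 0) ^ (m + 1)) =ᶠ[𝓝 t] fun t => t ^ (m + 1) := by
      filter_upwards [Ioi_mem_nhds ht] with s hs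
      rw [max_eq_left (le_of_lt hs)]
    rw [max_eq_left ht.le]
    have := (hasDerivAt_pow (m + 1) t).congr_of_eventuallyEq h1
    simpa using this

theorem contDiff_posPow (m : ℕ) (hm : 1 ≤ m) :
    ContDiff ℝ 1 (fun t : ℝ => (max t 0) ^ (m + 1)) := by
  rw [contDiff_one_iff_deriv]
  refine ⟨fun t => (hasDerivAt_posPow m hm t).differentiableAt, ?_⟩
  have : deriv (fun t : ℝ => (max t 0) ^ (m + 1)) =
      fun t : ℝ => ((m + 1 : ℕ) : ℝ) * (max t 0) ^ m := by
    funext t
    exact (hasDerivAt_posPow m hm t).deriv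
  rw [this]
  fun_prop

/-- The conjugate derivative of a function of `a` and `conj a`. -/
theorem dbar_two_var {P : ℂ × ℂ → ℂ} {a : ℂ}
    (h : DifferentiableAt ℂ P (a, (starRingEnd ℂ) a)) :
    dbar (fun b => P (b, (starRingEnd ℂ) b)) a =
      fderiv ℂ P (a, (starRingEnd ℂ) a) (0, 1) := by
  set D := fderiv ℂ P (a, (starRingEnd ℂ) a) with hD
  have h1 : HasFDerivAt P (D.restrictScalars ℝ) (a, (starRingEnd ℂ) a) :=
    h.hasFDerivAt.restrictScalars ℝ
  have h2 : HasFDerivAt (fun b : ℂ => (b, (starRingEnd ℂ) b))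
      ((ContinuousLinearMap.id ℝ ℂ).prod (Complex.conjCLE : ℂ →L[ℝ] ℂ)) a := by
    apply HasFDerivAt.prodMk (hasFDerivAt_id a)
    exact (Complex.conjCLE : ℂ →L[ℝ] ℂ).hasFDerivAt
  have h3 := h1.comp a h2
  have h4 : fderiv ℝ (fun b => P (b, (starRingEnd ℂ) b)) a =
      (D.restrictScalars ℝ).comp
        ((ContinuousLinearMap.id ℝ ℂ).prod (Complex.conjCLE : ℂ →L[ℝ] ℂ)) := h3.fderiv
  rw [dbar, h4]
  simp only [ContinuousLinearMap.coe_comp, Function.comp_apply,
    ContinuousLinearMap.prod_apply, ContinuousLinearMap.coe_id', id_eq,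
    ContinuousLinearEquiv.coe_coe, Complex.conjCLE_apply, map_one, Complex.conj_I,
    ContinuousLinearMap.coe_restrictScalars']
  have e1 : D (1, 1) = D (1, 0) + D (0, 1) := by
    rw [← map_add]; simp
  have e2 : D (Complex.I, -Complex.I) = Complex.I * D (1, 0) - Complex.I * D (0, 1) := by
    rw [← smul_eq_mul, ← smul_eq_mul, ← map_smul, ← map_smul, ← map_sub]; simp
  rw [e1, e2]
  linear_combination (1 / 2) * (D (1, 0) - D (0, 1)) * Complex.I_mul_I

theorem one_sub_mul_conj_ne {x a : ℂ} (h : ‖x‖ * ‖a‖ < 1) : 1 - x * (starRingEnd ℂ) a ≠ 0 := by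
  intro h0
  have h1 : x * (starRingEnd ℂ) a = 1 := (sub_eq_zero.mp h0).symm
  have h2 : ‖x * (starRingEnd ℂ) a‖ = 1 := by rw [h1]; simp
  rw [norm_mul, RCLike.norm_conj] at h2
  linarith

/-- The weighted Bergman reproducing formula in the disc, for the weight `(1 - |a|²) ^ m`. -/
theorem bergman_disc (m : ℕ) (hm : 1 ≤ m) {φ : ℂ → ℂ} {R : ℝ} (hR : 1 < R)
    (hφ : DifferentiableOn ℂ φ (ball 0 R)) {x : ℂ} (hx : ‖x‖ < 1) :
    ∫ a in ball (0 : ℂ) 1, φ a * ((1 - ‖a‖ ^ 2 : ℝ) : ℂ) ^ m /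
      (1 - x * (starRingEnd ℂ) a) ^ (m + 2) = Real.pi / (m + 1) * φ x := by
  obtain ⟨R', hR'1, hR'R, hR'x⟩ : ∃ R' : ℝ, 1 < R' ∧ R' ≤ R ∧ ‖x‖ * R' < 1 := by
    refine ⟨min R (2 / (1 + ‖x‖)), ?_, min_le_left _ _, ?_⟩
    · apply lt_min hR
      rw [lt_div_iff₀ (by positivity)]
      linarith
    · calc ‖x‖ * min R (2 / (1 + ‖x‖)) ≤ ‖x‖ * (2 / (1 + ‖x‖)) := by
            apply mul_le_mul_of_nonneg_left (min_le_right _ _) (norm_nonneg _)
        _ < 1 := by
            rw [← mul_div_assoc, div_lt_one (by positivity)]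
            linarith
  set ψ : ℝ → ℝ := fun t => (max t 0) ^ (m + 1) with hψ
  set G : ℂ → ℂ := fun a => (ψ (1 - ‖a‖ ^ 2) : ℂ) * (φ a / (1 - x * (starRingEnd ℂ) a) ^ (m + 1))
    with hG
  have hGzero : ∀ a : ℂ, 1 < ‖a‖ → G =ᶠ[𝓝 a] fun _ => 0 := by
    intro a ha
    have : {b : ℂ | 1 < ‖b‖} ∈ 𝓝 a := (isOpen_lt continuous_const continuous_norm).mem_nhds ha
    filter_upwards [this] with b hb
    have hb' : 1 - ‖b‖ ^ 2 ≤ 0 := by
      have : (1 : ℝ) < ‖b‖ := hb
      nlinarith
    simp only [hG, hψ, max_eq_right hb']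
    rw [zero_pow (by omega)]
    simp
  have hGsm : ContDiff ℝ 1 G := by
    rw [contDiff_iff_contDiffAt]
    intro a
    by_cases ha : ‖a‖ < R'
    · have h1 : ContDiffAt ℝ 1 (fun a : ℂ => (ψ (1 - ‖a‖ ^ 2) : ℂ)) a := by
        have h2 : ContDiff ℝ 1 (fun a : ℂ => ψ (1 - ‖a‖ ^ 2)) :=
          (contDiff_posPow m hm).comp (contDiff_const.sub (contDiff_norm_sq ℝ))
        exact (Complex.ofRealCLM.contDiff.comp h2).contDiffAt
      have h3 : ContDiffAt ℝ 1 φ a := by
        have h4 : ContDiffAt ℂ 1 φ a :=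
          (hφ.analyticAt (isOpen_ball.mem_nhds (by
            rw [mem_ball_zero_iff]; linarith))).contDiffAt
        exact h4.restrict_scalars ℝ
      have h5 : ContDiffAt ℝ 1 (fun a : ℂ => (1 - x * (starRingEnd ℂ) a) ^ (m + 1)) a := by
        apply ContDiffAt.pow
        apply contDiffAt_const.sub
        exact contDiffAt_const.mul (Complex.conjCLE.contDiff.contDiffAt)
      have h6 : (1 - x * (starRingEnd ℂ) a) ^ (m + 1) ≠ 0 := by
        apply pow_ne_zero
        apply one_sub_mul_conj_ne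
        calc ‖x‖ * ‖a‖ ≤ ‖x‖ * R' := mul_le_mul_of_nonneg_left ha.le (norm_nonneg _)
          _ < 1 := hR'x
      have h7 := h1.mul (h3.mul (h5.inv h6))
      refine h7.congr_of_eventuallyEq (Eventually.of_forall fun b => ?_)
      simp only [hG, div_eq_mul_inv]
      rfl
    · exact contDiffAt_const.congr_of_eventuallyEq (hGzero a (by linarith [not_lt.mp ha]))
  have hGc : HasCompactSupport G := by
    apply HasCompactSupport.of_support_subset_isCompact (isCompact_closedBall (0 : ℂ) 1)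
    intro a ha
    rw [mem_closedBall_zero_iff]
    by_contra hcon
    exact ha ((hGzero a (not_le.mp hcon)).self_of_nhds)
  have hP := cauchy_pompeiu hGsm hGc x
  have hGx : G x = φ x := by
    have h1 : (0 : ℝ) < 1 - ‖x‖ ^ 2 := by nlinarith [norm_nonneg x]
    have h2 : ((1 - ‖x‖ ^ 2 : ℝ) : ℂ) = 1 - x * (starRingEnd ℂ) x := by
      rw [Complex.mul_conj, Complex.normSq_eq_norm_sq]; push_cast; ring
    simp only [hG, hψ, max_eq_left h1.le]
    rw [Complex.ofReal_pow, h2]
    have h3 : (1 - x * (starRingEnd ℂ) x) ≠ 0 := by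
      rw [← h2]; exact_mod_cast h1.ne'
    field_simp
  rw [hGx] at hP
  -- the integrand
  have hint : ∀ᵐ a : ℂ, dbar G a / (x - a) = (ball (0 : ℂ) 1).indicator (fun a =>
      ((m + 1 : ℕ) : ℂ) * (φ a * ((1 - ‖a‖ ^ 2 : ℝ) : ℂ) ^ m /
      (1 - x * (starRingEnd ℂ) a) ^ (m + 2))) a := by
    have hx0 : ∀ᵐ a : ℂ, a ≠ x := by
      rw [ae_iff]
      simp
    filter_upwards [hx0] with a hax
    by_cases ha : a ∈ ball (0 : ℂ) 1
    · rw [indicator_of_mem ha]
      rw [mem_ball_zero_iff] at ha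
      have hxa : ‖x‖ * ‖a‖ < 1 := by nlinarith [norm_nonneg x, norm_nonneg a]
      have hne := one_sub_mul_conj_ne hxa
      set P : ℂ × ℂ → ℂ := fun p => φ p.1 * ((1 - p.1 * p.2) / (1 - x * p.2)) ^ (m + 1) with hPdef
      have hdφ : DifferentiableAt ℂ φ a :=
        hφ.differentiableAt (isOpen_ball.mem_nhds (by rw [mem_ball_zero_iff]; linarith))
      have hPd : DifferentiableAt ℂ P (a, (starRingEnd ℂ) a) := by
        apply DifferentiableAt.mul
        · exact DifferentiableAt.comp (a, (starRingEnd ℂ) a) (f := Prod.fst) hdφ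
            differentiableAt_fst
        · apply DifferentiableAt.pow
          have k1 : DifferentiableAt ℂ (fun p : ℂ × ℂ => 1 - p.1 * p.2) (a, (starRingEnd ℂ) a) := by
            fun_prop
          have k2 : DifferentiableAt ℂ (fun p : ℂ × ℂ => 1 - x * p.2) (a, (starRingEnd ℂ) a) := by
            fun_prop
          have k3 := k1.mul (k2.inv hne)
          refine k3.congr_of_eventuallyEq (Eventually.of_forall fun b => ?_)
          simp only [Pi.mul_apply, Pi.inv_apply, div_eq_mul_inv]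
      have hGP : G =ᶠ[𝓝 a] fun b => P (b, (starRingEnd ℂ) b) := by
        have : {b : ℂ | ‖b‖ < 1} ∈ 𝓝 a := (isOpen_lt continuous_norm continuous_const).mem_nhds ha
        filter_upwards [this] with b hb
        have hb' : (0 : ℝ) < 1 - ‖b‖ ^ 2 := by
          have : ‖b‖ < 1 := hb
          nlinarith [norm_nonneg b]
        have h2 : ((1 - ‖b‖ ^ 2 : ℝ) : ℂ) = 1 - b * (starRingEnd ℂ) b := by
          rw [Complex.mul_conj, Complex.normSq_eq_norm_sq]; push_cast; ring
        simp only [hG, hψ, hPdef, max_eq_left hb'.le]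
        rw [Complex.ofReal_pow, h2, div_pow]
        ring
      have hdG : dbar G a = dbar (fun b => P (b, (starRingEnd ℂ) b)) a := by
        rw [dbar, dbar, hGP.fderiv_eq]
      rw [hdG, dbar_two_var hPd]
      -- the partial derivative
      have hpart : fderiv ℂ P (a, (starRingEnd ℂ) a) (0, 1) =
          deriv (fun b => P (a, b)) ((starRingEnd ℂ) a) := by
        have h7 : HasFDerivAt (fun b : ℂ => (a, b)) ((0 : ℂ →L[ℂ] ℂ).prod
            (ContinuousLinearMap.id ℂ ℂ)) ((starRingEnd ℂ) a) :=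
          (hasFDerivAt_const a _).prodMk (hasFDerivAt_id _)
        have h8 := hPd.hasFDerivAt.comp ((starRingEnd ℂ) a) h7
        have h9 := h8.hasDerivAt.deriv
        rw [show (fun b => P (a, b)) = P ∘ fun b : ℂ => (a, b) from rfl, h9]
        simp
      rw [hpart]
      have hder : HasDerivAt (fun b => P (a, b))
          (φ a * (((m + 1 : ℕ) : ℂ) * ((1 - a * (starRingEnd ℂ) a) /
            (1 - x * (starRingEnd ℂ) a)) ^ m *
            (((0 - a * 1) * (1 - x * (starRingEnd ℂ) a) - (1 - a * (starRingEnd ℂ) a) *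
              (0 - x * 1)) / (1 - x * (starRingEnd ℂ) a) ^ 2))) ((starRingEnd ℂ) a) := by
        have k1 : HasDerivAt (fun b : ℂ => 1 - a * b) (0 - a * 1) ((starRingEnd ℂ) a) :=
          (hasDerivAt_const _ (1 : ℂ)).sub ((hasDerivAt_id _).const_mul a)
        have k2 : HasDerivAt (fun b : ℂ => 1 - x * b) (0 - x * 1) ((starRingEnd ℂ) a) :=
          (hasDerivAt_const _ (1 : ℂ)).sub ((hasDerivAt_id _).const_mul x)
        have k3 := (k1.div k2 hne).pow (m + 1)
        have k4 := k3.const_mul (φ a)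
        simpa using k4
      rw [hder.deriv]
      have h2 : ((1 - ‖a‖ ^ 2 : ℝ) : ℂ) = 1 - a * (starRingEnd ℂ) a := by
        rw [Complex.mul_conj, Complex.normSq_eq_norm_sq]; push_cast; ring
      rw [h2]
      have hxa' : x - a ≠ 0 := sub_ne_zero.mpr (Ne.symm hax)
      rw [div_pow]
      field_simp
      ring
    · rw [indicator_of_notMem ha]
      rw [mem_ball_zero_iff, not_lt] at ha
      have hd : fderiv ℝ G a = 0 := by
        rcases ha.lt_or_eq with h | h
        · rw [(hGzero a h).fderiv_eq]; simp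
        · -- boundary point: G vanishes to second order
          have hcont : Continuous (fderiv ℝ G) := hGsm.continuous_fderiv one_ne_zero
          have hcl : a ∈ closure {b : ℂ | 1 < ‖b‖} := by
            rw [Metric.mem_closure_iff]
            intro ε hε
            refine ⟨((1 + ε / 2 : ℝ) : ℂ) * a, ?_, ?_⟩
            · simp only [mem_ofPred_eq, norm_mul, Complex.norm_real, ← h, mul_one]
              rw [Real.norm_of_nonneg (by positivity)]
              linarith
            · rw [dist_eq_norm]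
              have : a - ((1 + ε / 2 : ℝ) : ℂ) * a = -((ε / 2 : ℝ) : ℂ) * a := by
                push_cast; ring
              rw [this, norm_mul, norm_neg, Complex.norm_real, ← h, mul_one,
                Real.norm_of_nonneg (by positivity)]
              linarith
          have hsub : {b : ℂ | 1 < ‖b‖} ⊆ {b | fderiv ℝ G b = 0} := by
            intro b hb
            show fderiv ℝ G b = 0
            rw [(hGzero b hb).fderiv_eq]; simp
          exact closure_minimal hsub (isClosed_eq hcont continuous_const) hcl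
      rw [dbar, hd]
      simp
  rw [integral_congr_ae hint, integral_indicator measurableSet_ball, integral_const_mul] at hP
  have hm1 : ((m : ℂ) + 1) ≠ 0 := by exact_mod_cast Nat.succ_ne_zero m
  rw [div_mul_eq_mul_div, eq_div_iff hm1, mul_comm, ← hP]
  push_cast
  ring

end Pool.Agent.MPca0fc2.SD
end

section

set_option autoImplicit false

open Metric Set MeasureTheory Filter Topology
open scoped InnerProductSpace ENNReal NNReal

namespace Pool.Agent.MPca0fc2.SD

section Rot

variable {K : Type*} [NormedAddCommGroup K] [NormedSpace ℂ K] [FiniteDimensional ℂ K]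
  [MeasurableSpace K] [BorelSpace K]

/-- A linear automorphism of norm preserving type preserves Haar measures. -/
theorem mp_of_norm (ν : Measure K) [ν.IsAddHaarMeasure] (U : K ≃L[ℂ] K)
    (hU : ∀ y, ‖U y‖ = ‖y‖) : MeasurePreserving U ν ν := by
  have : ProperSpace K := FiniteDimensional.proper ℂ K
  refine ⟨U.continuous.measurable, ?_⟩
  have : (ν.map U).IsAddHaarMeasure := U.isAddHaarMeasure_map ν
  have h1 : ν.map U = Measure.addHaarScalarFactor (ν.map U) ν • ν :=
    Measure.isAddLeftInvariant_eq_smul _ _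
  have h2 : (ν.map U) (ball 0 1) = ν (ball 0 1) := by
    rw [Measure.map_apply U.continuous.measurable measurableSet_ball]
    congr 1
    ext y
    simp [hU]
  have h3 : Measure.addHaarScalarFactor (ν.map U) ν = 1 := by
    have h4 : (Measure.addHaarScalarFactor (ν.map U) ν : ℝ≥0∞) * ν (ball 0 1) =
        1 * ν (ball 0 1) := by
      have h6 : (ν.map U) (ball 0 1) =
          (Measure.addHaarScalarFactor (ν.map U) ν • ν) (ball 0 1) := by
        rw [← h1]
      rw [h2] at h6
      rw [one_mul]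
      exact h6.symm
    have h5 := (ENNReal.mul_left_inj (measure_ball_pos ν 0 one_pos).ne'
      measure_ball_lt_top.ne).mp h4
    exact_mod_cast h5
  rw [h1, h3, one_smul]

theorem mp_smul (ν : Measure K) [ν.IsAddHaarMeasure] {c : ℂ} (hc : ‖c‖ = 1) :
    MeasurePreserving (fun y : K => c • y) ν ν := by
  have hc0 : c ≠ 0 := by
    intro h; rw [h, norm_zero] at hc; exact one_ne_zero hc.symm
  have := mp_of_norm ν (ContinuousLinearEquiv.smulLeft (Units.mk0 c hc0) : K ≃L[ℂ] K) (by
    intro y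
    show ‖c • y‖ = ‖y‖
    rw [norm_smul, hc, one_mul])
  exact this

theorem fiber_mean (ν : Measure K) [ν.IsAddHaarMeasure] {ψ : K → ℂ} {r M : ℝ}
    (hψ : DifferentiableOn ℂ ψ (ball 0 r)) (hM : ∀ y ∈ ball (0 : K) r, ‖ψ y‖ ≤ M) :
    ∫ y in ball (0 : K) r, ψ y ∂ν = (ν.real (ball 0 r) : ℂ) * ψ 0 := by
  have : ProperSpace K := FiniteDimensional.proper ℂ K
  have hrot : ∀ θ : ℝ, ∫ y in ball (0 : K) r, ψ (circleMap 0 1 θ • y) ∂ν =
      ∫ y in ball (0 : K) r, ψ y ∂ν := by
    intro θ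
    have hc : ‖circleMap 0 1 θ‖ = 1 := by simp [circleMap]
    have hmp := mp_smul ν hc
    have hpre : (fun y : K => circleMap 0 1 θ • y) ⁻¹' (ball 0 r) = ball 0 r := by
      ext y
      simp only [mem_preimage, mem_ball_zero_iff, norm_smul, hc, one_mul]
    have hemb : MeasurableEmbedding (fun y : K => circleMap 0 1 θ • y) := by
      have hc0 : circleMap 0 1 θ ≠ 0 := by
        intro h; rw [h, norm_zero] at hc; exact one_ne_zero hc.symm
      exact (Homeomorph.smulOfNeZero _ hc0 : K ≃ₜ K).measurableEmbedding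
    have := hmp.setIntegral_preimage_emb hemb ψ (ball 0 r)
    rw [hpre] at this
    exact this
  have hswap : ∫ θ in (0 : ℝ)..(2 * Real.pi), ∫ y in ball (0 : K) r,
      ψ (circleMap 0 1 θ • y) ∂ν =
      ∫ y in ball (0 : K) r, (∫ θ in (0 : ℝ)..(2 * Real.pi), ψ (circleMap 0 1 θ • y)) ∂ν := by
    have h2pi : (0 : ℝ) ≤ 2 * Real.pi := by positivity
    simp only [intervalIntegral.integral_of_le h2pi]
    apply integral_integral_swap
    have hfin : IsFiniteMeasure ((volume.restrict (Ioc (0 : ℝ) (2 * Real.pi))).prod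
        (ν.restrict (ball (0 : K) r))) := by
      have : IsFiniteMeasure (volume.restrict (Ioc (0 : ℝ) (2 * Real.pi))) :=
        ⟨by rw [Measure.restrict_apply_univ]; exact measure_Ioc_lt_top⟩
      have : IsFiniteMeasure (ν.restrict (ball (0 : K) r)) :=
        ⟨by rw [Measure.restrict_apply_univ]; exact measure_ball_lt_top⟩
      infer_instance
    have hmap : ∀ θ : ℝ, ∀ y ∈ ball (0 : K) r, circleMap 0 1 θ • y ∈ ball (0 : K) r := by
      intro θ y hy
      rw [mem_ball_zero_iff] at hy ⊢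
      rw [norm_smul]; simpa [circleMap] using hy
    have hcont : ContinuousOn (Function.uncurry fun (θ : ℝ) (y : K) => ψ (circleMap 0 1 θ • y))
        (Ioc (0 : ℝ) (2 * Real.pi) ×ˢ ball (0 : K) r) := by
      apply hψ.continuousOn.comp
      · apply Continuous.continuousOn
        exact ((continuous_circleMap 0 1).comp continuous_fst).smul continuous_snd
      · rintro ⟨θ, y⟩ ⟨_, hy⟩
        exact hmap θ y hy
    rw [Measure.prod_restrict]
    rw [Measure.prod_restrict] at hfin
    refine Integrable.mono' (g := fun _ => M) (integrable_const M)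
      (hcont.aestronglyMeasurable (measurableSet_Ioc.prod measurableSet_ball)) ?_
    refine (ae_restrict_iff' (measurableSet_Ioc.prod measurableSet_ball)).mpr
      (Eventually.of_forall ?_)
    rintro ⟨θ, y⟩ ⟨_, hy⟩
    exact hM _ (hmap θ y hy)
  have hmean : ∀ y ∈ ball (0 : K) r, ∫ θ in (0 : ℝ)..(2 * Real.pi), ψ (circleMap 0 1 θ • y) =
      (2 * Real.pi : ℝ) • ψ 0 := by
    intro y hy
    have hd : DiffContOnCl ℂ (fun t : ℂ => ψ (t • y)) (ball 0 |1|) := by
      rw [abs_one]
      obtain ⟨R, hR1, hRy⟩ : ∃ R : ℝ, 1 < R ∧ R * ‖y‖ < r := by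
        rw [mem_ball_zero_iff] at hy
        rcases eq_or_ne ‖y‖ 0 with h0 | h0
        · refine ⟨2, by norm_num, ?_⟩
          rw [h0, mul_zero]; linarith [norm_nonneg y]
        · have hpos : 0 < ‖y‖ := lt_of_le_of_ne (norm_nonneg _) (Ne.symm h0)
          refine ⟨(1 + r / ‖y‖) / 2, ?_, ?_⟩
          · have : 1 < r / ‖y‖ := by rw [lt_div_iff₀ hpos]; linarith
            linarith
          · have : (1 + r / ‖y‖) / 2 * ‖y‖ = (‖y‖ + r) / 2 := by
              field_simp
            rw [this]; linarith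
      have hd' : DifferentiableOn ℂ (fun t : ℂ => ψ (t • y)) (ball 0 R) := by
        apply hψ.comp
        · exact (differentiable_id.smul_const y).differentiableOn
        · intro t ht
          rw [mem_ball_zero_iff] at ht ⊢
          rw [norm_smul]
          calc ‖t‖ * ‖y‖ ≤ R * ‖y‖ := mul_le_mul_of_nonneg_right ht.le (norm_nonneg _)
            _ < r := hRy
      exact (hd'.mono (closedBall_subset_ball hR1)).diffContOnCl_ball
        (subset_refl _)
    have h := hd.circleAverage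
    rw [Real.circleAverage_def] at h
    simp only [zero_smul] at h
    rw [← h, smul_smul, mul_inv_cancel₀ (by positivity), one_smul]
  have h1 : ∫ θ in (0 : ℝ)..(2 * Real.pi), ∫ y in ball (0 : K) r, ψ (circleMap 0 1 θ • y) ∂ν =
      (2 * Real.pi : ℝ) • ∫ y in ball (0 : K) r, ψ y ∂ν := by
    simp only [hrot, intervalIntegral.integral_const, sub_zero]
  rw [h1, setIntegral_congr_fun measurableSet_ball hmean, setIntegral_const] at hswap
  have h2 : (2 * Real.pi : ℝ) ≠ 0 := by positivity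
  have h3 := congrArg (fun t => (2 * Real.pi : ℝ)⁻¹ • t) hswap
  simp only [smul_smul, inv_mul_cancel₀ h2, one_smul] at h3
  rw [h3, ← smul_smul, ← smul_smul]
  rw [smul_comm (ν.real (ball 0 r)) (2 * Real.pi : ℝ), smul_smul, inv_mul_cancel₀ h2, one_smul]
  simp

end Rot

section Split

variable {E : Type*} [NormedAddCommGroup E] [InnerProductSpace ℂ E]

/-- The splitting of `E` along a unit vector. -/
noncomputable def splitE (e : E) (he : ‖e‖ = 1) : E ≃ₗ[ℂ] ℂ × (ℂ ∙ e)ᗮ where
  toFun w := (⟪e, w⟫_ℂ, ⟨w - ⟪e, w⟫_ℂ • e, by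
    rw [Submodule.mem_orthogonal_singleton_iff_inner_right, inner_sub_right, inner_smul_right,
      inner_self_eq_norm_sq_to_K, he]
    simp⟩)
  invFun p := p.1 • e + (p.2 : E)
  map_add' w w' := by
    ext
    · simp
    · simp only [inner_add_right, add_smul, Prod.snd_add, Submodule.coe_add]
      abel
  map_smul' c w := by
    ext
    · simp
    · simp only [inner_smul_right, Prod.smul_snd, RingHom.id_apply, Submodule.coe_smul,
        smul_sub, smul_smul]
  left_inv w := by simp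
  right_inv p := by
    have h1 : ⟪e, (p.2 : E)⟫_ℂ = 0 :=
      Submodule.mem_orthogonal_singleton_iff_inner_right.mp p.2.2
    have h2 : ⟪e, p.1 • e + (p.2 : E)⟫_ℂ = p.1 := by
      rw [inner_add_right, inner_smul_right, inner_self_eq_norm_sq_to_K, he, h1]; simp
    ext
    · exact h2
    · simp [h2]

theorem norm_split (e : E) (he : ‖e‖ = 1) (a : ℂ) (y : (ℂ ∙ e)ᗮ) :
    ‖a • e + (y : E)‖ ^ 2 = ‖a‖ ^ 2 + ‖y‖ ^ 2 := by
  have h1 : ⟪a • e, (y : E)⟫_ℂ = 0 := by
    rw [inner_smul_left, Submodule.mem_orthogonal_singleton_iff_inner_right.mp y.2, mul_zero]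
  have := norm_add_sq (𝕜 := ℂ) (a • e) (y : E)
  rw [h1] at this
  rw [this, norm_smul, he, mul_one]
  simp

end Split

section BallInt

variable {E : Type*} [NormedAddCommGroup E] [InnerProductSpace ℂ E] [FiniteDimensional ℂ E]
  [MeasurableSpace E] [BorelSpace E]

/-- Integrals over the ball of holomorphic functions times functions of one coordinate. -/
theorem ball_integral (μ : Measure E) [μ.IsAddHaarMeasure] (e : E) (he : ‖e‖ = 1) (m : ℕ)
    (hm : 1 ≤ m) (hdim : Module.finrank ℂ E = m + 1) :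
    ∃ C : ℝ, ∀ (F : E → ℂ) (κ : ℂ → ℂ) (M M' : ℝ), DifferentiableOn ℂ F (ball 0 1) →
      (∀ z ∈ ball (0 : E) 1, ‖F z‖ ≤ M) → ContinuousOn κ (ball 0 1) →
      (∀ a ∈ ball (0 : ℂ) 1, ‖κ a‖ ≤ M') →
      ∫ w in ball (0 : E) 1, F w * κ (⟪e, w⟫_ℂ) ∂μ =
        C * ∫ a in ball (0 : ℂ) 1, F (a • e) * κ a * ((1 - ‖a‖ ^ 2 : ℝ) : ℂ) ^ m := by
  have hprop : ProperSpace E := FiniteDimensional.proper ℂ E
  set K := (ℂ ∙ e)ᗮ with hK
  have hpropK : ProperSpace K := FiniteDimensional.proper ℂ K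
  have he0 : e ≠ 0 := by intro h; rw [h, norm_zero] at he; exact zero_ne_one he
  have hdimK : Module.finrank ℂ K = m := by
    have h1 := Submodule.finrank_add_finrank_orthogonal (ℂ ∙ e)
    rw [finrank_span_singleton he0, hdim, ← hK] at h1
    omega
  have hdimKR : Module.finrank ℝ K = 2 * m := by
    rw [finrank_real_of_complex, hdimK]
  have hnt : Nontrivial K := by
    apply Module.nontrivial_of_finrank_pos (R := ℂ)
    rw [hdimK]; omega
  let ν : Measure K := Measure.addHaar
  let T : E ≃L[ℂ] ℂ × K := (splitE e he).toContinuousLinearEquiv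
  have hTs : ∀ p : ℂ × K, T.symm p = p.1 • e + (p.2 : E) := fun p => rfl
  have hT1 : ∀ w : E, (T w).1 = ⟪e, w⟫_ℂ := fun w => rfl
  have hmap : (μ.map T).IsAddHaarMeasure := T.isAddHaarMeasure_map μ
  have hpr : ((volume : Measure ℂ).prod ν).IsAddHaarMeasure := inferInstance
  set c : ℝ≥0 := Measure.addHaarScalarFactor (μ.map T) ((volume : Measure ℂ).prod ν) with hc
  have hmapeq : μ.map T = c • ((volume : Measure ℂ).prod ν) :=
    Measure.isAddLeftInvariant_eq_smul _ _
  refine ⟨(c : ℝ) * ν.real (ball 0 1), fun F κ M M' hF hM hκ hM' => ?_⟩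
  have hM0 : 0 ≤ M := (norm_nonneg _).trans (hM 0 (mem_ball_self one_pos))
  have hM'0 : 0 ≤ M' := (norm_nonneg _).trans (hM' 0 (mem_ball_self one_pos))
  set Bs : Set (ℂ × K) := {p | ‖p.1‖ ^ 2 + ‖p.2‖ ^ 2 < 1} with hBs
  have hBsopen : IsOpen Bs := isOpen_lt (by fun_prop) continuous_const
  have hBsmeas : MeasurableSet Bs := hBsopen.measurableSet
  have hmemB : ∀ p : ℂ × K, T.symm p ∈ ball (0 : E) 1 ↔ p ∈ Bs := by
    intro p
    rw [hTs, mem_ball_zero_iff, hBs, mem_ofPred_eq, ← norm_split e he]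
    rw [sq_lt_one_iff₀ (norm_nonneg _)]
  set G : ℂ × K → ℂ := fun p => F (p.1 • e + (p.2 : E)) * κ p.1 with hG
  have hstep1 : ∫ w in ball (0 : E) 1, F w * κ (⟪e, w⟫_ℂ) ∂μ = ∫ p in Bs, G p ∂(μ.map T) := by
    have hemb : MeasurableEmbedding T := T.toHomeomorph.measurableEmbedding
    rw [hemb.setIntegral_map]
    have hpre : T ⁻¹' Bs = ball 0 1 := by
      ext w
      rw [mem_preimage, ← hmemB]; simp
    rw [hpre]
    apply setIntegral_congr_fun measurableSet_ball
    intro w _
    simp only [hG]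
    rw [← hTs (T w), T.symm_apply_apply, hT1]
  have hGb : ∀ p ∈ Bs, ‖G p‖ ≤ M * M' := by
    intro p hp
    rw [hG, norm_mul]
    apply mul_le_mul _ _ (norm_nonneg _) hM0
    · rw [← hTs]
      exact hM _ ((hmemB p).mpr hp)
    · apply hM'
      rw [mem_ball_zero_iff, ← sq_lt_one_iff₀ (norm_nonneg _)]
      have : ‖p.1‖ ^ 2 + ‖p.2‖ ^ 2 < 1 := hp
      nlinarith [sq_nonneg ‖p.2‖]
  have hGc : ContinuousOn G Bs := by
    apply ContinuousOn.mul
    · apply hF.continuousOn.comp (by fun_prop)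
      intro p hp
      have h0 := (hmemB p).mpr hp
      rwa [hTs] at h0
    · apply hκ.comp continuous_fst.continuousOn
      intro p hp
      rw [mem_ball_zero_iff, ← sq_lt_one_iff₀ (norm_nonneg _)]
      have : ‖p.1‖ ^ 2 + ‖p.2‖ ^ 2 < 1 := hp
      nlinarith [sq_nonneg ‖p.2‖]
  have hBsfin : ((volume : Measure ℂ).prod ν) Bs < ∞ := by
    apply (measure_mono (t := closedBall 0 1) _).trans_lt
    · exact (isCompact_closedBall (0 : ℂ × K) 1).measure_lt_top
    · intro p hp
      have hp' : ‖p.1‖ ^ 2 + ‖p.2‖ ^ 2 < 1 := hp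
      rw [mem_closedBall_zero_iff, Prod.norm_def, max_le_iff]
      constructor <;> nlinarith [norm_nonneg p.1, norm_nonneg p.2]
  have hGi : Integrable (Bs.indicator G) ((volume : Measure ℂ).prod ν) := by
    rw [integrable_indicator_iff hBsmeas]
    have : IsFiniteMeasure (((volume : Measure ℂ).prod ν).restrict Bs) :=
      ⟨by rw [Measure.restrict_apply_univ]; exact hBsfin⟩
    refine Integrable.mono' (g := fun _ => M * M') (integrable_const _)
      (hGc.aestronglyMeasurable hBsmeas) ?_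
    exact (ae_restrict_iff' hBsmeas).mpr (Eventually.of_forall hGb)
  rw [hstep1, hmapeq, Measure.restrict_smul, integral_smul_nnreal_measure,
    ← integral_indicator hBsmeas, integral_prod _ hGi]
  -- inner integral
  have hinner : ∀ a : ℂ, ∫ y, Bs.indicator G (a, y) ∂ν =
      (ball (0 : ℂ) 1).indicator (fun a => (ν.real (ball 0 1) : ℂ) *
        (F (a • e) * κ a * ((1 - ‖a‖ ^ 2 : ℝ) : ℂ) ^ m)) a := by
    intro a
    by_cases ha : a ∈ ball (0 : ℂ) 1
    · rw [indicator_of_mem ha]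
      rw [mem_ball_zero_iff] at ha
      have hpos : 0 < 1 - ‖a‖ ^ 2 := by nlinarith [norm_nonneg a]
      set r : ℝ := Real.sqrt (1 - ‖a‖ ^ 2) with hr
      have hrpos : 0 < r := Real.sqrt_pos.mpr hpos
      have hrsq : r ^ 2 = 1 - ‖a‖ ^ 2 := Real.sq_sqrt hpos.le
      have hmem : ∀ y : K, (a, y) ∈ Bs ↔ y ∈ ball (0 : K) r := by
        intro y
        rw [mem_ball_zero_iff, hBs, mem_ofPred_eq]
        constructor
        · intro h
          have h' : ‖y‖ ^ 2 < r ^ 2 := by rw [hrsq]; linarith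
          exact lt_of_pow_lt_pow_left₀ 2 hrpos.le h'
        · intro h
          have : ‖y‖ ^ 2 < r ^ 2 := pow_lt_pow_left₀ h (norm_nonneg _) two_ne_zero
          rw [hrsq] at this
          show ‖a‖ ^ 2 + ‖y‖ ^ 2 < 1
          linarith
      have h1 : (fun y : K => Bs.indicator G (a, y)) =
          (ball (0 : K) r).indicator (fun y => G (a, y)) := by
        funext y
        by_cases hy : y ∈ ball (0 : K) r
        · rw [indicator_of_mem hy, indicator_of_mem ((hmem y).mpr hy)]
        · rw [indicator_of_notMem hy, indicator_of_notMem (fun h => hy ((hmem y).mp h))]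
      rw [h1, integral_indicator measurableSet_ball]
      have h2 := fiber_mean ν (ψ := fun y : K => F (a • e + (y : E)) * κ a) (r := r)
        (M := M * M') ?_ ?_
      · have h3 : ν.real (ball (0 : K) r) = (1 - ‖a‖ ^ 2) ^ m * ν.real (ball 0 1) := by
          rw [measureReal_def, Measure.addHaar_ball ν 0 hrpos.le, ENNReal.toReal_mul,
            ENNReal.toReal_ofReal (by positivity), hdimKR, pow_mul, hrsq, measureReal_def]
        simp only [hG]
        rw [h2, h3]
        simp only [ZeroMemClass.coe_zero, add_zero]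
        push_cast
        ring
      · apply DifferentiableOn.mul_const
        apply hF.comp
        · apply Differentiable.differentiableOn
          exact (differentiable_const _).add K.subtypeL.differentiable
        · intro y hy
          have h0 := (hmemB _).mpr ((hmem y).mpr hy)
          rwa [hTs] at h0
      · intro y hy
        exact hGb (a, y) ((hmem y).mpr hy)
    · rw [indicator_of_notMem ha]
      rw [mem_ball_zero_iff, not_lt] at ha
      have h1 : (fun y : K => Bs.indicator G (a, y)) = fun _ => 0 := by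
        funext y
        apply indicator_of_notMem
        intro h
        have h' : ‖a‖ ^ 2 + ‖y‖ ^ 2 < 1 := h
        nlinarith [sq_nonneg ‖y‖]
      rw [h1, integral_zero]
  simp only [hinner]
  rw [integral_indicator measurableSet_ball, integral_const_mul]
  rw [NNReal.smul_def, Complex.real_smul]
  push_cast
  ring

/-- The Bergman reproducing formula in the ball of an `(m + 1)`-dimensional space. -/
theorem bergman_ball (μ : Measure E) [μ.IsAddHaarMeasure] (m : ℕ)
    (hm : 1 ≤ m) (hdim : Module.finrank ℂ E = m + 1) {F : E → ℂ} {R : ℝ} (hR : 1 < R)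
    (hF : DifferentiableOn ℂ F (ball 0 R)) {z : E} (hz : ‖z‖ < 1) :
    ∫ w in ball (0 : E) 1, F w / (1 - ⟪w, z⟫_ℂ) ^ (m + 2) ∂μ =
      (μ.real (ball 0 1) : ℂ) * F z := by
  have hprop : ProperSpace E := FiniteDimensional.proper ℂ E
  have hnt : Nontrivial E := by
    apply Module.nontrivial_of_finrank_pos (R := ℂ)
    rw [hdim]; omega
  obtain ⟨e, he, hze⟩ : ∃ e : E, ‖e‖ = 1 ∧ z = (‖z‖ : ℂ) • e := by
    rcases eq_or_ne z 0 with h0 | h0
    · obtain ⟨v, hv⟩ := exists_ne (0 : E)
      refine ⟨((‖v‖⁻¹ : ℝ) : ℂ) • v, ?_, ?_⟩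
      · rw [norm_smul, Complex.norm_real, Real.norm_of_nonneg (by positivity),
          inv_mul_cancel₀ (norm_ne_zero_iff.mpr hv)]
      · rw [h0]; simp
    · have h1 : (‖z‖ : ℂ) ≠ 0 := by exact_mod_cast norm_ne_zero_iff.mpr h0
      refine ⟨((‖z‖⁻¹ : ℝ) : ℂ) • z, ?_, ?_⟩
      · rw [norm_smul, Complex.norm_real, Real.norm_of_nonneg (by positivity),
          inv_mul_cancel₀ (norm_ne_zero_iff.mpr h0)]
      · rw [smul_smul, Complex.ofReal_inv, mul_inv_cancel₀ h1, one_smul]
  obtain ⟨C, hC⟩ := ball_integral μ e he m hm hdim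
  have hbd : ∃ M, ∀ w ∈ ball (0 : E) 1, ‖F w‖ ≤ M := by
    obtain ⟨M, hM⟩ := (isCompact_closedBall (0 : E) 1).exists_bound_of_continuousOn
      (hF.continuousOn.mono (closedBall_subset_ball hR))
    exact ⟨M, fun w hw => hM w (ball_subset_closedBall hw)⟩
  obtain ⟨M, hM⟩ := hbd
  set x : ℂ := (‖z‖ : ℂ) with hx
  have hx1 : ‖x‖ < 1 := by rw [hx, Complex.norm_real, norm_norm]; exact hz
  have key : ∀ (G : E → ℂ), DifferentiableOn ℂ G (ball 0 R) →
      (∃ M, ∀ w ∈ ball (0 : E) 1, ‖G w‖ ≤ M) → ∀ y : ℂ, ‖y‖ < 1 →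
      ∫ w in ball (0 : E) 1, G w * (1 / (1 - y * (starRingEnd ℂ) ⟪e, w⟫_ℂ) ^ (m + 2)) ∂μ =
        C * (Real.pi / (m + 1) * G (y • e)) := by
    intro G hG hGb y hy
    obtain ⟨MG, hMG⟩ := hGb
    have hne : ∀ a ∈ ball (0 : ℂ) 1, ‖y‖ * ‖a‖ < 1 := by
      intro a ha
      rw [mem_ball_zero_iff] at ha
      nlinarith [norm_nonneg y, norm_nonneg a]
    have h1 := hC G (fun a => 1 / (1 - y * (starRingEnd ℂ) a) ^ (m + 2)) MG
      (1 / (1 - ‖y‖) ^ (m + 2)) (hG.mono (ball_subset_ball hR.le)) hMG ?_ ?_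
    · rw [h1]
      have h2 := bergman_disc m hm (φ := fun a => G (a • e)) hR ?_ hy
      · rw [← h2]
        congr 1
        apply setIntegral_congr_fun measurableSet_ball
        intro a _
        simp only
        ring
      · apply hG.comp
        · exact (differentiable_id.smul_const e).differentiableOn
        · intro a ha
          rw [mem_ball_zero_iff] at ha ⊢
          rw [norm_smul, he, mul_one]; exact ha
    · apply ContinuousOn.div continuousOn_const
      · apply Continuous.continuousOn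
        fun_prop
      · intro a ha
        exact pow_ne_zero _ (one_sub_mul_conj_ne (hne a ha))
    · intro a ha
      rw [norm_div, norm_one, norm_pow]
      apply one_div_le_one_div_of_le
      · exact pow_pos (by linarith) _
      · apply pow_le_pow_left₀ (by linarith)
        have h3 : ‖y * (starRingEnd ℂ) a‖ ≤ ‖y‖ := by
          rw [norm_mul, RCLike.norm_conj]
          rw [mem_ball_zero_iff] at ha
          nlinarith [norm_nonneg y, norm_nonneg a]
        calc 1 - ‖y‖ ≤ ‖(1 : ℂ)‖ - ‖y * (starRingEnd ℂ) a‖ := by rw [norm_one]; linarith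
          _ ≤ ‖1 - y * (starRingEnd ℂ) a‖ := norm_sub_norm_le _ _
  have k1 := key F hF ⟨M, hM⟩ x hx1
  have k2 := key (fun _ => 1) (differentiableOn_const _) ⟨1, fun w _ => by simp⟩ 0 (by simp)
  have k3 : ∫ w in ball (0 : E) 1, (1 : ℂ) * (1 / (1 - 0 * (starRingEnd ℂ) ⟪e, w⟫_ℂ) ^ (m + 2)) ∂μ
      = (μ.real (ball 0 1) : ℂ) := by
    simp
  rw [k3] at k2
  rw [k2]
  rw [← hze] at k1
  have k4 : ∫ w in ball (0 : E) 1, F w / (1 - ⟪w, z⟫_ℂ) ^ (m + 2) ∂μ =
      ∫ w in ball (0 : E) 1, F w * (1 / (1 - x * (starRingEnd ℂ) ⟪e, w⟫_ℂ) ^ (m + 2)) ∂μ := by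
    apply setIntegral_congr_fun measurableSet_ball
    intro w _
    simp only
    have : ⟪w, z⟫_ℂ = x * (starRingEnd ℂ) ⟪e, w⟫_ℂ := by
      rw [inner_conj_symm, hze, inner_smul_right]
    rw [this, mul_one_div]
  rw [k4, k1]
  ring

end BallInt

end Pool.Agent.MPca0fc2.SD
end

section

set_option autoImplicit false

open Metric Set Filter Topology MeasureTheory

namespace Pool.Agent.MPca0fc2.VP

open Pool.Agent.Lib.MP_ca0fc2_an

variable {E : Type*} [NormedAddCommGroup E] [NormedSpace ℂ E]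

/-- the derivative of a bounded holomorphic function is Lipschitz -/
theorem fderiv_lip {f : E → ℂ} {z₀ z₁ : E} {r M : ℝ} (hr : 0 < r)
    (hf : DifferentiableOn ℂ f (ball z₀ (2 * r))) (hM : ∀ z ∈ ball z₀ (2 * r), ‖f z‖ ≤ M)
    (hz : ‖z₁ - z₀‖ < r / 4) :
    ‖fderiv ℂ f z₁ - fderiv ℂ f z₀‖ ≤ 24 * M / r ^ 2 * ‖z₁ - z₀‖ := by
  have hM0 : 0 ≤ M := (norm_nonneg _).trans (hM z₀ (mem_ball_self (by linarith)))
  rcases eq_or_ne z₁ z₀ with h0 | h0
  · rw [h0, sub_self, norm_zero]; positivity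
  obtain ⟨d, hd⟩ : ∃ d, d = ‖z₁ - z₀‖ := ⟨_, rfl⟩
  have hd0 : 0 < d := by rw [hd]; exact norm_pos_iff.mpr (sub_ne_zero.mpr h0)
  rw [← hd] at hz ⊢
  have hsub1 : ball z₁ r ⊆ ball z₀ (2 * r) := by
    intro y hy
    rw [mem_ball, dist_eq_norm] at hy ⊢
    calc ‖y - z₀‖ = ‖(y - z₁) + (z₁ - z₀)‖ := by congr 1; abel
      _ ≤ ‖y - z₁‖ + ‖z₁ - z₀‖ := norm_add_le _ _
      _ < _ := by rw [← hd]; linarith
  have hsub0 : ball z₀ r ⊆ ball z₀ (2 * r) := ball_subset_ball (by linarith)
  have key : ∀ v : E, ‖v‖ = d → ‖(fderiv ℂ f z₁ - fderiv ℂ f z₀) v‖ ≤ 24 * M / r ^ 2 * d * ‖v‖ := by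
    intro v hv
    have h1 := taylor_two (z₀ := z₁) (v := v) hr (hf.mono hsub1) (fun z hz => hM z (hsub1 hz))
      (by rw [hv]; linarith)
    have h2 := taylor_two (z₀ := z₀) (v := (z₁ - z₀) + v) hr (hf.mono hsub0)
      (fun z hz => hM z (hsub0 hz)) (by
        refine (norm_add_le _ _).trans_lt ?_
        rw [hv, ← hd]; linarith)
    have h3 := taylor_two (z₀ := z₀) (v := z₁ - z₀) hr (hf.mono hsub0)
      (fun z hz => hM z (hsub0 hz)) (by rw [← hd]; linarith)
    have e2 : z₀ + ((z₁ - z₀) + v) = z₁ + v := by abel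
    have e3 : z₀ + (z₁ - z₀) = z₁ := by abel
    rw [e2, map_add] at h2
    rw [e3, ← hd] at h3
    rw [hv] at h1 ⊢
    have h4 : ‖(z₁ - z₀) + v‖ ^ 2 ≤ (2 * d) ^ 2 := by
      apply pow_le_pow_left₀ (norm_nonneg _)
      refine (norm_add_le _ _).trans ?_
      rw [hv, ← hd]; linarith
    have h5 : 4 * M / r ^ 2 * ‖(z₁ - z₀) + v‖ ^ 2 ≤ 4 * M / r ^ 2 * (2 * d) ^ 2 := by gcongr
    have e4 : (fderiv ℂ f z₁ - fderiv ℂ f z₀) v =
        (f (z₁ + v) - f z₀ - (fderiv ℂ f z₀ (z₁ - z₀) + fderiv ℂ f z₀ v)) -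
        (f (z₁ + v) - f z₁ - fderiv ℂ f z₁ v) -
        (f z₁ - f z₀ - fderiv ℂ f z₀ (z₁ - z₀)) := by
      rw [sub_apply]; ring
    rw [e4]
    refine (norm_sub_le _ _).trans ((add_le_add (norm_sub_le _ _) le_rfl).trans ?_)
    have h6 : 4 * M / r ^ 2 * (2 * d) ^ 2 + 4 * M / r ^ 2 * d ^ 2 + 4 * M / r ^ 2 * d ^ 2 =
        24 * M / r ^ 2 * d * d := by ring
    linarith
  apply ContinuousLinearMap.opNorm_le_bound _ (by positivity)
  intro v
  rcases eq_or_ne v 0 with hv | hv
  · rw [hv, map_zero, norm_zero, norm_zero, mul_zero]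
  have hv0 : 0 < ‖v‖ := norm_pos_iff.mpr hv
  obtain ⟨s, hs⟩ : ∃ s : ℝ, s = d / ‖v‖ := ⟨_, rfl⟩
  have hs0 : 0 < s := by rw [hs]; positivity
  have h1 := key ((s : ℂ) • v) (by
    rw [norm_smul, Complex.norm_real, Real.norm_of_nonneg hs0.le, hs]; field_simp)
  rw [map_smul, norm_smul, norm_smul, Complex.norm_real, Real.norm_of_nonneg hs0.le] at h1
  have h2 : s * ‖(fderiv ℂ f z₁ - fderiv ℂ f z₀) v‖ ≤ s * (24 * M / r ^ 2 * d * ‖v‖) := by
    calc _ ≤ _ := h1
      _ = _ := by ring
  exact le_of_mul_le_mul_left h2 hs0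

/-- holomorphic functions are continuously differentiable -/
theorem hol_contDiffOn [FiniteDimensional ℂ E] {f : E → ℂ} {U : Set E} (hU : IsOpen U)
    (hf : DifferentiableOn ℂ f U) : ContDiffOn ℝ 1 f U := by
  have hprop : ProperSpace E := FiniteDimensional.proper ℂ E
  have h1 : ContDiffOn ℂ 1 f U := by
    rw [show (1 : WithTop ℕ∞) = 0 + 1 by norm_num, contDiffOn_succ_iff_fderiv_of_isOpen hU]
    refine ⟨hf, by simp, ?_⟩
    rw [contDiffOn_zero]
    intro z₀ hz₀
    apply ContinuousAt.continuousWithinAt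
    obtain ⟨ε, hε, hεU⟩ := Metric.isOpen_iff.mp hU z₀ hz₀
    obtain ⟨r, hr⟩ : ∃ r, r = ε / 4 := ⟨_, rfl⟩
    have hr0 : 0 < r := by rw [hr]; positivity
    have hcs : closedBall z₀ (2 * r) ⊆ U := by
      refine Subset.trans (closedBall_subset_ball ?_) hεU
      rw [hr]; linarith
    obtain ⟨M, hM⟩ := (isCompact_closedBall z₀ (2 * r)).exists_bound_of_continuousOn
      (hf.continuousOn.mono hcs)
    have h2 : ∀ᶠ z₁ in 𝓝 z₀, ‖fderiv ℂ f z₁ - fderiv ℂ f z₀‖ ≤ 24 * M / r ^ 2 * ‖z₁ - z₀‖ := by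
      filter_upwards [ball_mem_nhds z₀ (show 0 < r / 4 by positivity)] with z₁ hz₁
      rw [mem_ball, dist_eq_norm] at hz₁
      exact fderiv_lip hr0 (hf.mono (ball_subset_closedBall.trans hcs))
        (fun z hz => hM z (ball_subset_closedBall hz)) hz₁
    rw [ContinuousAt, tendsto_iff_norm_sub_tendsto_zero]
    have h3 : Tendsto (fun z₁ : E => 24 * M / r ^ 2 * ‖z₁ - z₀‖) (𝓝 z₀) (𝓝 0) := by
      have : Tendsto (fun z₁ : E => 24 * M / r ^ 2 * ‖z₁ - z₀‖) (𝓝 z₀)
          (𝓝 (24 * M / r ^ 2 * ‖z₀ - z₀‖)) := by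
        apply Continuous.tendsto; fun_prop
      simpa using this
    exact squeeze_zero' (Eventually.of_forall fun _ => norm_nonneg _) h2 h3
  exact h1.restrict_scalars ℝ

end Pool.Agent.MPca0fc2.VP
end

section

set_option autoImplicit false

open Metric Set MeasureTheory Filter Topology

namespace Pool.Agent.MPca0fc2.FD

variable {n : ℕ} {V : Type*} [NormedAddCommGroup V] [NormedSpace ℂ V]

private theorem B4_sn_last {α : Type*} {m : ℕ} (f : Fin m → α) (a : α) : sn f a (Fin.last m) = a := by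
  unfold sn
  rw [Fin.snoc_last]

private theorem B4_sn_cast {α : Type*} {m : ℕ} (f : Fin m → α) (a : α) (i : Fin m) :
    sn f a i.castSucc = f i := by
  unfold sn
  rw [Fin.snoc_castSucc]

private theorem B4_cn_zero {α : Type*} {m : ℕ} (a : α) (f : Fin m → α) : cn a f 0 = a := by
  unfold cn
  rw [Fin.cons_zero]

private theorem B4_cn_succ {α : Type*} {m : ℕ} (a : α) (f : Fin m → α) (i : Fin m) :
    cn a f i.succ = f i := by
  unfold cn
  rw [Fin.cons_succ]

private theorem B4_app {α : Type*} {n q : ℕ} (a : Fin n → α) (b : Fin q → α) (e : α) :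
    (Fin.append a (sn b e) : Fin (n + (q + 1)) → α) = sn (Fin.append a b) e := by
  funext i
  refine Fin.lastCases (motive := fun i : Fin (n + q + 1) =>
    (Fin.append a (sn b e) : Fin (n + (q + 1)) → α) i = sn (Fin.append a b) e i) ?_ (fun i => ?_) i
  · rw [B4_sn_last]
    have : (Fin.last (n + q) : Fin (n + (q + 1))) = Fin.natAdd n (Fin.last q) := by
      ext; simp
    rw [this, Fin.append_right, B4_sn_last]
  · rw [B4_sn_cast]
    refine Fin.addCases (fun i => ?_) (fun i => ?_) i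
    · have : ((Fin.castAdd q i).castSucc : Fin (n + (q + 1))) = Fin.castAdd (q + 1) i := by
        ext; simp
      rw [this, Fin.append_left, Fin.append_left]
    · have : ((Fin.natAdd n i).castSucc : Fin (n + (q + 1))) = Fin.natAdd n i.castSucc := by
        ext; simp
      rw [this, Fin.append_right, Fin.append_right, B4_sn_cast]

private theorem B4_cnsn {α : Type*} {m : ℕ} (a : α) (f : Fin m → α) (b : α) :
    cn a (sn f b) = sn (cn a f) b := by
  unfold cn sn
  exact Fin.cons_snoc_eq_snoc_cons _ _ _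

/-- position of the column -/
private theorem B4_col {m : ℕ} (a : Fin m → ℂ) (e f : ℂ) (j : Fin (m + 1)) :
    (sn (sn a e) f : Fin (m + 1 + 1) → ℂ) ((Fin.last m).castSucc.succAbove j) = sn a f j := by
  refine Fin.lastCases ?_ (fun i => ?_) j
  · have : (Fin.last m).castSucc.succAbove (Fin.last m) = Fin.last (m + 1) := by
      rw [Fin.succAbove_of_le_castSucc _ _ (le_refl _)]
      simp
    rw [this, B4_sn_last, B4_sn_last]
  · have : (Fin.last m).castSucc.succAbove i.castSucc = i.castSucc.castSucc := by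
      rw [Fin.succAbove_of_castSucc_lt]
      rw [Fin.castSucc_lt_castSucc_iff]
      exact Fin.castSucc_lt_last i
    rw [this, B4_sn_cast, B4_sn_cast, B4_sn_cast]

private theorem B4_swap {m : ℕ} (R : Fin m → Fin (m + 1) → ℂ) (t : Fin (m + 1) → ℂ) (r : Fin m) :
    Matrix.det (Matrix.of (sn R t)) = -Matrix.det (Matrix.of (sn (Function.update R r t) (R r))) := by
  have hne : r.castSucc ≠ Fin.last m := (Fin.castSucc_lt_last r).ne
  have h := Matrix.det_permute (Equiv.swap r.castSucc (Fin.last m)) (Matrix.of (sn R t))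
  rw [Equiv.Perm.sign_swap hne] at h
  have h2 : (Matrix.submatrix (Matrix.of (sn R t)) (Equiv.swap r.castSucc (Fin.last m)) id :
      Matrix (Fin (m + 1)) (Fin (m + 1)) ℂ) = Matrix.of (sn (Function.update R r t) (R r)) := by
    ext i j
    rw [Matrix.submatrix_apply, id, Matrix.of_apply, Matrix.of_apply]
    refine Fin.lastCases ?_ (fun i => ?_) i
    · rw [Equiv.swap_apply_right, B4_sn_last, B4_sn_cast]
    · by_cases hi : i = r
      · subst hi
        rw [Equiv.swap_apply_left, B4_sn_last, B4_sn_cast, Function.update_self]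
      · rw [Equiv.swap_apply_of_ne_of_ne, B4_sn_cast, B4_sn_cast, Function.update_of_ne hi]
        · intro hh
          exact hi (Fin.castSucc_injective _ hh)
        · exact (Fin.castSucc_lt_last i).ne
  rw [h2] at h
  rw [h]
  simp

/-- Expansion along the column before the last, with only one entry, in the last row. -/
private theorem B4_expand {m : ℕ} (R : Fin (m + 1) → Fin (m + 1 + 1) → ℂ) (s : Fin (m + 1 + 1) → ℂ)
    (hR : ∀ i, R i (Fin.last m).castSucc = 0) (hs : s (Fin.last m).castSucc = 1) :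
    Matrix.det (Matrix.of (sn R s)) =
      -Matrix.det (Matrix.of fun i j => R i ((Fin.last m).castSucc.succAbove j)) := by
  rw [Matrix.det_succ_column _ (Fin.last m).castSucc]
  rw [Fin.sum_univ_castSucc]
  have h0 : ∀ i : Fin (m + 1), Matrix.of (sn R s) i.castSucc (Fin.last m).castSucc = 0 := by
    intro i
    rw [Matrix.of_apply, B4_sn_cast, hR]
  have h1 : Matrix.of (sn R s) (Fin.last (m + 1)) (Fin.last m).castSucc = 1 := by
    rw [Matrix.of_apply, B4_sn_last, hs]
  rw [h1]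
  rw [Finset.sum_eq_zero]
  · have h3 : (Matrix.submatrix (Matrix.of (sn R s)) (Fin.last (m + 1)).succAbove
        (Fin.last m).castSucc.succAbove : Matrix (Fin (m + 1)) (Fin (m + 1)) ℂ) =
        Matrix.of fun i j => R i ((Fin.last m).castSucc.succAbove j) := by
      ext i j
      rw [Matrix.submatrix_apply, Fin.succAbove_last, Matrix.of_apply, B4_sn_cast, Matrix.of_apply]
    rw [h3]
    have h4 : ((-1 : ℂ)) ^ (((Fin.last (m + 1) : Fin (m + 1 + 1)) : ℕ) +
        (((Fin.last m).castSucc : Fin (m + 1 + 1)) : ℕ)) = -1 := by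
      have : ((Fin.last (m + 1) : Fin (m + 1 + 1)) : ℕ) +
        (((Fin.last m).castSucc : Fin (m + 1 + 1)) : ℕ) = 2 * m + 1 := by
        simp; ring
      rw [this, pow_succ, pow_mul]
      simp
    rw [h4]
    ring
  · intro i _
    rw [h0]
    ring

theorem det_snoc {q : ℕ} (x : Fin n → ℂ) (xA : Fin q → ℂ) (x0 : ℂ) (E : Fin n → Fin n → ℂ)
    (EA : Fin n → Fin q → ℂ) (E0 : Fin n → ℂ) (Y : Fin q → Fin n → ℂ) (YA : Fin q → Fin q → ℂ)
    (Y0 : Fin q → ℂ) (t : Fin n → ℂ) (tA : Fin q → ℂ) (t0 : ℂ) (k : Fin n) :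
    Matrix.det (cn (sn (Fin.append x (sn xA (0 : ℂ))) x0 : Fin (n + (q + 1) + 1) → ℂ)
      (Fin.append (fun l => (sn (Fin.append (E l) (sn (EA l) (if l = k then (1 : ℂ) else 0))) (E0 l) :
          Fin (n + (q + 1) + 1) → ℂ))
        (sn (fun i => (sn (Fin.append (Y i) (sn (YA i) (0 : ℂ))) (Y0 i) :
            Fin (n + (q + 1) + 1) → ℂ))
          (sn (Fin.append t (sn tA (0 : ℂ))) t0)))) =
    Matrix.det (cn (sn (Fin.append x xA) x0 : Fin (n + q + 1) → ℂ)
      (Fin.append (Function.update (fun l => (sn (Fin.append (E l) (EA l)) (E0 l) :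
          Fin (n + q + 1) → ℂ)) k (sn (Fin.append t tA) t0))
        (fun i => (sn (Fin.append (Y i) (YA i)) (Y0 i) : Fin (n + q + 1) → ℂ)))) := by
  set x' : Fin (n + q + 1 + 1) → ℂ := sn (sn (Fin.append x xA) 0) x0 with hx'
  set E' : Fin n → Fin (n + q + 1 + 1) → ℂ :=
    fun l => sn (sn (Fin.append (E l) (EA l)) (if l = k then (1 : ℂ) else 0)) (E0 l) with hE'
  set Y' : Fin q → Fin (n + q + 1 + 1) → ℂ :=
    fun i => sn (sn (Fin.append (Y i) (YA i)) (0 : ℂ)) (Y0 i) with hY'
  set t' : Fin (n + q + 1 + 1) → ℂ := sn (sn (Fin.append t tA) (0 : ℂ)) t0 with ht'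
  set R : Fin (n + q + 1) → Fin (n + q + 1 + 1) → ℂ := cn x' (Fin.append E' Y') with hR
  have hL : (cn (sn (Fin.append x (sn xA (0 : ℂ))) x0 : Fin (n + (q + 1) + 1) → ℂ)
      (Fin.append (fun l => (sn (Fin.append (E l) (sn (EA l) (if l = k then (1 : ℂ) else 0))) (E0 l) :
          Fin (n + (q + 1) + 1) → ℂ))
        (sn (fun i => (sn (Fin.append (Y i) (sn (YA i) (0 : ℂ))) (Y0 i) :
            Fin (n + (q + 1) + 1) → ℂ))
          (sn (Fin.append t (sn tA (0 : ℂ))) t0))) :
      Fin (n + (q + 1) + 1) → Fin (n + (q + 1) + 1) → ℂ) = sn R t' := by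
    rw [hR, ← B4_cnsn, ← B4_app, hx', hE', hY', ht']
    simp only [B4_app]
  have hL2 := congrArg (fun A => Matrix.det (Matrix.of A)) hL
  refine hL2.trans ?_
  have hRk : R (Fin.castAdd q k).succ = sn (sn (Fin.append (E k) (EA k)) 1) (E0 k) := by
    rw [hR, B4_cn_succ, Fin.append_left, hE']
    simp
  have hx0 : x' (Fin.last (n + q)).castSucc = 0 := by rw [hx', B4_sn_cast, B4_sn_last]
  have ht0 : t' (Fin.last (n + q)).castSucc = 0 := by rw [ht', B4_sn_cast, B4_sn_last]
  have hE0 : ∀ l, E' l (Fin.last (n + q)).castSucc = if l = k then (1 : ℂ) else 0 := by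
    intro l
    simp only [hE', B4_sn_cast, B4_sn_last]
  have hY0 : ∀ i, Y' i (Fin.last (n + q)).castSucc = 0 := by
    intro l
    simp only [hY', B4_sn_cast, B4_sn_last]
  have hne : ∀ l, l ≠ k → (Fin.castAdd q l).succ ≠ (Fin.castAdd q k).succ := by
    intro l hl hh
    exact hl (Fin.castAdd_injective _ _ (Fin.succ_injective _ hh))
  have hne2 : ∀ i, (Fin.natAdd n i).succ ≠ (Fin.castAdd q k).succ := by
    intro i hh
    have := Fin.succ_injective _ hh
    rw [Fin.ext_iff] at this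
    simp at this
    omega
  show Matrix.det (Matrix.of (sn R t')) = Matrix.det (Matrix.of
    (cn (sn (Fin.append x xA) x0 : Fin (n + q + 1) → ℂ)
      (Fin.append (Function.update (fun l => (sn (Fin.append (E l) (EA l)) (E0 l) :
          Fin (n + q + 1) → ℂ)) k (sn (Fin.append t tA) t0))
        (fun i => (sn (Fin.append (Y i) (YA i)) (Y0 i) : Fin (n + q + 1) → ℂ)))))
  rw [B4_swap R t' (Fin.castAdd q k).succ, B4_expand]
  · rw [neg_neg]
    congr 2
    funext i j
    refine Fin.cases ?_ (fun i => ?_) i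
    · rw [Function.update_of_ne (Fin.succ_ne_zero _).symm, hR, B4_cn_zero, B4_cn_zero,
        hx', B4_col]
    · rw [B4_cn_succ]
      refine Fin.addCases (fun l => ?_) (fun i => ?_) i
      · rw [Fin.append_left]
        by_cases hl : l = k
        · subst hl
          rw [Function.update_self, Function.update_self, ht', B4_col]
        · rw [Function.update_of_ne (hne l hl), Function.update_of_ne hl, hR, B4_cn_succ,
            Fin.append_left]
          exact B4_col _ _ _ _
      · rw [Fin.append_right, Function.update_of_ne (hne2 i), hR, B4_cn_succ, Fin.append_right]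
        exact B4_col _ _ _ _
  · intro i
    refine Fin.cases ?_ (fun i => ?_) i
    · rw [Function.update_of_ne (Fin.succ_ne_zero _).symm, hR, B4_cn_zero, hx0]
    · refine Fin.addCases (fun l => ?_) (fun i => ?_) i
      · by_cases hl : l = k
        · subst hl
          rw [Function.update_self, ht0]
        · rw [Function.update_of_ne (hne l hl), hR, B4_cn_succ, Fin.append_left, hE0, if_neg hl]
      · rw [Function.update_of_ne (hne2 i), hR, B4_cn_succ, Fin.append_right, hY0]
  · rw [hRk, B4_sn_cast, B4_sn_last]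

theorem Ker_snoc (δ : Ec n → ℝ) (h : Ec n → Ec n → Fin n → ℂ) (ε : ℝ) {q : ℕ}
    (I : Fin q → Fin n) (k : Fin n) (Y : Fin q → Ec n) (τ : ℝ) (z ζ : Ec n) :
    Ker δ h ε (sn I k) Y τ z ζ = KA δ h ε I Y k τ z ζ := by
  have hz : (0 : Fin (q + 1) → ℂ) = sn 0 0 := by
    funext i
    refine Fin.lastCases ?_ (fun i => ?_) i
    · rw [B4_sn_last]; rfl
    · rw [B4_sn_cast]; rfl
  have hA : ∀ X : Ec n, (fun j => (starRingEnd ℂ) (X (sn I k j))) =
      sn (fun j => (starRingEnd ℂ) (X (I j))) ((starRingEnd ℂ) (X k)) := by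
    intro X
    funext i
    refine Fin.lastCases ?_ (fun i => ?_) i
    · rw [B4_sn_last, B4_sn_last]
    · rw [B4_sn_cast, B4_sn_cast]
  have he : ∀ l : Fin n, (starRingEnd ℂ) ((ee l : Ec n) k) = if l = k then (1 : ℂ) else 0 := by
    intro l
    unfold ee
    by_cases hl : l = k
    · subst hl
      simp
    · rw [if_neg hl]
      simp [Ne.symm hl]
  unfold Ker KA rx rζ rz rτ
  rw [hz]
  simp only [hA, he]
  congr 1
  exact det_snoc _ _ _ _ _ _ _ _ _ _ _ _ _

/-- a function which changes the sign under swaps -/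
private theorem B4_perm {α : Type*} {m : ℕ} (φ : (Fin m → α) → ℂ)
    (hφ : ∀ (Y : Fin m → α) (a b : Fin m), a ≠ b → φ (Y ∘ Equiv.swap a b) = -φ Y)
    (σ : Equiv.Perm (Fin m)) : ∀ Y : Fin m → α, φ (Y ∘ σ) = ((Equiv.Perm.sign σ : ℤ) : ℂ) * φ Y := by
  induction σ using Equiv.Perm.swap_induction_on with
  | one => intro Y; simp
  | swap_mul f x y hxy ih =>
    intro Y
    have h1 : Y ∘ (Equiv.swap x y * f : Equiv.Perm (Fin m)) = (Y ∘ Equiv.swap x y) ∘ f := by
      funext i
      simp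
    rw [h1, ih, hφ Y x y hxy, Equiv.Perm.sign_mul, Equiv.Perm.sign_swap hxy]
    simp

private theorem B4_rows_swap {m : ℕ} (x : Fin (n + m + 1) → ℂ) (E : Fin n → Fin (n + m + 1) → ℂ)
    (Y : Fin m → Fin (n + m + 1) → ℂ) (a b : Fin m) (hab : a ≠ b) :
    Matrix.det (cn x (Fin.append E (Y ∘ Equiv.swap a b))) = -Matrix.det (cn x (Fin.append E Y)) := by
  set f : Fin m → Fin (n + m + 1) := fun i => (Fin.natAdd n i).succ with hf
  have hfi : Function.Injective f := (Fin.succ_injective _).comp (Fin.natAdd_injective _ _)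
  have h := Matrix.det_permute (Equiv.swap (f a) (f b)) (Matrix.of (cn x (Fin.append E Y)))
  rw [Equiv.Perm.sign_swap (fun hh => hab (hfi hh))] at h
  have h2 : (Matrix.submatrix (Matrix.of (cn x (Fin.append E Y))) (Equiv.swap (f a) (f b)) id :
      Matrix (Fin (n + m + 1)) (Fin (n + m + 1)) ℂ) =
      Matrix.of (cn x (Fin.append E (Y ∘ Equiv.swap a b))) := by
    ext i j
    rw [Matrix.submatrix_apply, id, Matrix.of_apply, Matrix.of_apply]
    refine Fin.cases ?_ (fun i => ?_) i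
    · rw [Equiv.swap_apply_of_ne_of_ne (Fin.succ_ne_zero _).symm (Fin.succ_ne_zero _).symm,
        B4_cn_zero, B4_cn_zero]
    · refine Fin.addCases (fun l => ?_) (fun i => ?_) i
      · rw [Equiv.swap_apply_of_ne_of_ne, B4_cn_succ, B4_cn_succ, Fin.append_left, Fin.append_left]
        · intro hh
          have := Fin.succ_injective _ hh
          rw [Fin.ext_iff] at this
          simp at this
          omega
        · intro hh
          have := Fin.succ_injective _ hh
          rw [Fin.ext_iff] at this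
          simp at this
          omega
      · have h3 : (Equiv.swap (f a) (f b)) (f i) = f (Equiv.swap a b i) := by
          rw [hfi.swap_apply]
        have h4 : (Equiv.swap (f a) (f b)) (Fin.natAdd n i).succ = (Fin.natAdd n (Equiv.swap a b i)).succ :=
          h3
        rw [h4, B4_cn_succ, B4_cn_succ, Fin.append_right, Fin.append_right]
        rfl
  rw [h2] at h
  refine h.trans ?_
  show _ = - Matrix.det (Matrix.of (cn x (Fin.append E Y)))
  simp

private theorem B4_rows {m : ℕ} (x : Fin (n + m + 1) → ℂ) (E : Fin n → Fin (n + m + 1) → ℂ)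
    (σ : Equiv.Perm (Fin m)) (Y : Fin m → Fin (n + m + 1) → ℂ) :
    Matrix.det (cn x (Fin.append E (Y ∘ σ))) =
      ((Equiv.Perm.sign σ : ℤ) : ℂ) * Matrix.det (cn x (Fin.append E Y)) :=
  B4_perm (fun Y => Matrix.det (cn x (Fin.append E Y)))
    (fun Y a b hab => B4_rows_swap x E Y a b hab) σ Y

theorem KB_eq (δ : Ec n → ℝ) (h : Ec n → Ec n → Fin n → ℂ) (ε : ℝ) {q : ℕ}
    (I : Fin (q + 1) → Fin n) (Y : Fin (q + 1) → Ec n) (i : Fin (q + 1)) (τ : ℝ) (z ζ : Ec n) :
    KB δ h ε I Y i τ z ζ = (-1) ^ (q - (i : ℕ)) * Ker δ h ε I (fun a => Y (i.succAbove a)) τ z ζ := by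
  unfold KB Ker
  set r := rτ δ h ε (q + 1) z ζ with hr
  set σ : Equiv.Perm (Fin (q + 1)) := i.cycleRange.symm * (Fin.last q).cycleRange with hσ
  have h1 : (sn (fun a => rz (q + 1) τ (Y (i.succAbove a))) r : Fin (q + 1) → Fin (n + (q + 1) + 1) → ℂ) =
      (Function.update (fun i => rz (q + 1) τ (Y i)) i r) ∘ σ := by
    funext a
    refine Fin.lastCases ?_ (fun a => ?_) a
    · rw [B4_sn_last]
      show r = (Function.update (fun i => rz (q + 1) τ (Y i)) i r) (σ (Fin.last q))
      have : σ (Fin.last q) = i := by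
        rw [hσ, Equiv.Perm.mul_apply, Fin.cycleRange_self, Fin.cycleRange_symm_zero]
      rw [this, Function.update_self]
    · rw [B4_sn_cast]
      show _ = (Function.update (fun i => rz (q + 1) τ (Y i)) i r) (σ a.castSucc)
      have : σ a.castSucc = i.succAbove a := by
        rw [hσ, Equiv.Perm.mul_apply, Fin.cycleRange_of_lt (Fin.castSucc_lt_last a),
          Fin.coeSucc_eq_succ, Fin.cycleRange_symm_succ]
      rw [this, Function.update_of_ne (Fin.succAbove_ne i a)]
  have h2 := B4_rows (rx δ h ε (q + 1) τ z ζ) (fun l => rζ δ h ε I τ z ζ (ee l)) σ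
    (Function.update (fun i => rz (q + 1) τ (Y i)) i r)
  rw [← h1] at h2
  have h3 : (Matrix.det (cn (rx δ h ε (q + 1) τ z ζ)
      (Fin.append (fun l => rζ δ h ε I τ z ζ (ee l))
        (sn (fun i_1 => rz (q + 1) τ (Y (i.succAbove i_1))) r))) : ℂ) = _ := h2
  rw [h3]
  have hs : ((Equiv.Perm.sign σ : ℤ) : ℂ) = (-1) ^ (q + (i : ℕ)) := by
    rw [hσ, Equiv.Perm.sign_mul, Equiv.Perm.sign_symm, Fin.sign_cycleRange, Fin.sign_cycleRange]
    push_cast
    rw [pow_add, mul_comm]
  rw [hs]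
  have hi : (i : ℕ) ≤ q := Nat.lt_succ_iff.mp i.2
  have h4 : (-1 : ℂ) ^ (q - (i : ℕ)) * (-1) ^ (q + (i : ℕ)) = 1 := by
    rw [← pow_add]
    have : q - (i : ℕ) + (q + (i : ℕ)) = 2 * q := by omega
    rw [this, pow_mul]
    simp
  generalize Matrix.det (cn (rx δ h ε (q + 1) τ z ζ)
      (Fin.append (fun l => rζ δ h ε I τ z ζ (ee l))
        (Function.update (fun i => rz (q + 1) τ (Y i)) i r))) = D
  generalize F0 δ h ε τ z ζ = F
  calc F * D = ((-1 : ℂ) ^ (q - (i : ℕ)) * (-1) ^ (q + (i : ℕ))) * (F * D) := by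
        rw [h4, one_mul]
    _ = _ := by
      generalize (-1 : ℂ) ^ (q - (i : ℕ)) = u
      generalize (-1 : ℂ) ^ (q + (i : ℕ)) = v
      ring

theorem Ker_permY (δ : Ec n → ℝ) (h : Ec n → Ec n → Fin n → ℂ) (ε : ℝ) {q : ℕ}
    (I : Fin (q + 1) → Fin n) (σ : Equiv.Perm (Fin q)) (Y : Fin q → Ec n) (τ : ℝ)
    (z ζ : Ec n) :
    Ker δ h ε I (Y ∘ σ) τ z ζ = ((Equiv.Perm.sign σ : ℤ) : ℂ) * Ker δ h ε I Y τ z ζ := by
  refine B4_perm (fun Y => Ker δ h ε I Y τ z ζ) ?_ σ Y
  intro Y a b hab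
  show Ker δ h ε I (Y ∘ Equiv.swap a b) τ z ζ = -Ker δ h ε I Y τ z ζ
  unfold Ker
  have h1 : (sn (fun i => rz (q + 1) τ ((Y ∘ Equiv.swap a b) i)) (rτ δ h ε (q + 1) z ζ) :
      Fin (q + 1) → Fin (n + (q + 1) + 1) → ℂ) =
      (sn (fun i => rz (q + 1) τ (Y i)) (rτ δ h ε (q + 1) z ζ)) ∘
        Equiv.swap a.castSucc b.castSucc := by
    funext i
    refine Fin.lastCases ?_ (fun i => ?_) i
    · rw [B4_sn_last]
      show _ = (sn (fun i => rz (q + 1) τ (Y i)) (rτ δ h ε (q + 1) z ζ))
        (Equiv.swap a.castSucc b.castSucc (Fin.last q))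
      rw [Equiv.swap_apply_of_ne_of_ne (Fin.castSucc_lt_last a).ne' (Fin.castSucc_lt_last b).ne',
        B4_sn_last]
    · rw [B4_sn_cast]
      show _ = (sn (fun i => rz (q + 1) τ (Y i)) (rτ δ h ε (q + 1) z ζ))
        (Equiv.swap a.castSucc b.castSucc i.castSucc)
      rw [(Fin.castSucc_injective q).swap_apply, B4_sn_cast]
      rfl
  rw [h1, B4_rows_swap _ _ _ _ _ (fun hh => hab (Fin.castSucc_injective _ hh))]
  ring

theorem Ker_perm (δ : Ec n → ℝ) (h : Ec n → Ec n → Fin n → ℂ) (ε : ℝ) {q : ℕ}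
    (I : Fin (q + 1) → Fin n) (σ : Equiv.Perm (Fin (q + 1))) (Y : Fin q → Ec n) (τ : ℝ)
    (z ζ : Ec n) :
    Ker δ h ε (I ∘ σ) Y τ z ζ = ((Equiv.Perm.sign σ : ℤ) : ℂ) * Ker δ h ε I Y τ z ζ := by
  refine B4_perm (fun I => Ker δ h ε I Y τ z ζ) ?_ σ I
  intro I a b hab
  show Ker δ h ε (I ∘ Equiv.swap a b) Y τ z ζ = -Ker δ h ε I Y τ z ζ
  unfold Ker
  set f : Fin (q + 1) → Fin (n + (q + 1) + 1) := fun i => (Fin.natAdd n i).castSucc with hf
  have hfi : Function.Injective f := (Fin.castSucc_injective _).comp (Fin.natAdd_injective _ _)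
  -- the columns of a row
  have hrow : ∀ (u : Fin n → ℂ) (v v' : Fin (q + 1) → ℂ) (c : ℂ), v' = v ∘ Equiv.swap a b →
      ∀ j, (sn (Fin.append u v) c : Fin (n + (q + 1) + 1) → ℂ) (Equiv.swap (f a) (f b) j) =
        (sn (Fin.append u v') c : Fin (n + (q + 1) + 1) → ℂ) j := by
    intro u v v' c hv j
    refine Fin.lastCases ?_ (fun j => ?_) j
    · rw [Equiv.swap_apply_of_ne_of_ne (Fin.castSucc_lt_last _).ne' (Fin.castSucc_lt_last _).ne',
        B4_sn_last, B4_sn_last]
    · refine Fin.addCases (fun l => ?_) (fun i => ?_) j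
      · rw [Equiv.swap_apply_of_ne_of_ne, B4_sn_cast, B4_sn_cast, Fin.append_left, Fin.append_left]
        · intro hh
          have := Fin.castSucc_injective _ hh
          rw [Fin.ext_iff] at this
          simp at this
          omega
        · intro hh
          have := Fin.castSucc_injective _ hh
          rw [Fin.ext_iff] at this
          simp at this
          omega
      · have h3 : (Equiv.swap (f a) (f b)) (f i) = f (Equiv.swap a b i) := by
          rw [hfi.swap_apply]
        have h4 : (Equiv.swap (f a) (f b)) (Fin.natAdd n i).castSucc =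
          (Fin.natAdd n (Equiv.swap a b i)).castSucc := h3
        rw [h4, B4_sn_cast, B4_sn_cast, Fin.append_right, Fin.append_right, hv]
        rfl
  set M := cn (rx δ h ε (q + 1) τ z ζ)
    (Fin.append (fun l => rζ δ h ε I τ z ζ (ee l))
      (sn (fun i => rz (q + 1) τ (Y i)) (rτ δ h ε (q + 1) z ζ))) with hM
  set M' := cn (rx δ h ε (q + 1) τ z ζ)
    (Fin.append (fun l => rζ δ h ε (I ∘ Equiv.swap a b) τ z ζ (ee l))
      (sn (fun i => rz (q + 1) τ (Y i)) (rτ δ h ε (q + 1) z ζ))) with hM'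
  have hP := Matrix.det_permute' (Equiv.swap (f a) (f b)) (Matrix.of M)
  rw [Equiv.Perm.sign_swap (fun hh => hab (hfi hh))] at hP
  have h2 : (Matrix.submatrix (Matrix.of M) id (Equiv.swap (f a) (f b)) :
      Matrix (Fin (n + (q + 1) + 1)) (Fin (n + (q + 1) + 1)) ℂ) = Matrix.of M' := by
    ext i j
    rw [Matrix.submatrix_apply, id, Matrix.of_apply, Matrix.of_apply, hM, hM']
    refine Fin.cases ?_ (fun i => ?_) i
    · rw [B4_cn_zero, B4_cn_zero]
      exact hrow _ _ _ _ rfl j
    · rw [B4_cn_succ, B4_cn_succ]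
      refine Fin.addCases (fun l => ?_) (fun i => ?_) i
      · rw [Fin.append_left, Fin.append_left]
        exact hrow _ _ _ _ rfl j
      · rw [Fin.append_right, Fin.append_right]
        refine Fin.lastCases ?_ (fun i => ?_) i
        · rw [B4_sn_last]
          exact hrow _ _ _ _ rfl j
        · rw [B4_sn_cast]
          exact hrow _ _ _ _ rfl j
  rw [h2] at hP
  have hP' : Matrix.det M' = -Matrix.det M := by
    refine hP.trans ?_
    show _ = -Matrix.det (Matrix.of M)
    simp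
  rw [hP']
  ring

end Pool.Agent.MPca0fc2.FD
end

section

/-! Sums over multiindices. -/

set_option autoImplicit false

open Metric Set MeasureTheory Filter Topology

namespace Pool.Agent.MPca0fc2.FD

variable {n : ℕ} {V : Type*} [NormedAddCommGroup V] [NormedSpace ℂ V]

private theorem B5_sn_eq {q : ℕ} (I : Fin q → Fin n) (l : Fin n) :
    (sn I l : Fin (q + 1) → Fin n) = (cn l I : Fin (q + 1) → Fin n) ∘ (finRotate (q + 1)) := by
  funext j
  refine Fin.lastCases ?_ (fun j => ?_) j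
  · simp [sn, cn]
  · have : finRotate (q + 1) (Fin.castSucc j) = j.succ := by
      apply Fin.ext
      rw [coe_finRotate_of_ne_last (Fin.castSucc_lt_last j).ne]
      simp
    simp [sn, cn, this]

private theorem B5_sum_alt_cn {q : ℕ} (k : (Fin (q + 1) → Fin n) → ℂ)
    (hk : ∀ (σ : Equiv.Perm (Fin (q + 1))) (I : Fin (q + 1) → Fin n),
      k (I ∘ σ) = ((Equiv.Perm.sign σ : ℤ) : ℂ) * k I)
    (a : Fin n → (Fin q → Fin n) → V) :
    ∑ I : Fin (q + 1) → Fin n, k I • ∑ i : Fin (q + 1), ((-1 : ℂ) ^ (i : ℕ)) •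
        a (I i) (I ∘ i.succAbove) =
      ((q : ℂ) + 1) • ∑ l : Fin n, ∑ I : Fin q → Fin n, k (cn l I) • a l I := by
  have h0 : ∑ I : Fin (q + 1) → Fin n, k I • a (I 0) (I ∘ Fin.succ) =
      ∑ l : Fin n, ∑ I : Fin q → Fin n, k (cn l I) • a l I := by
    rw [← Fintype.sum_prod_type', ← Equiv.sum_comp (Fin.consEquiv (fun _ : Fin (q + 1) => Fin n))]
    refine Finset.sum_congr rfl fun x _ => ?_
    rfl
  have h1 : ∀ i : Fin (q + 1), ∑ I : Fin (q + 1) → Fin n, k I • ((-1 : ℂ) ^ (i : ℕ)) •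
        a (I i) (I ∘ i.succAbove) = ∑ l : Fin n, ∑ I : Fin q → Fin n, k (cn l I) • a l I := by
    intro i
    rw [← h0, ← Equiv.sum_comp (Equiv.arrowCongr i.cycleRange (Equiv.refl (Fin n)))
      (fun I : Fin (q + 1) → Fin n => k I • a (I 0) (I ∘ Fin.succ))]
    refine Finset.sum_congr rfl fun I _ => ?_
    have e1 : (Equiv.arrowCongr i.cycleRange (Equiv.refl (Fin n))) I = I ∘ i.cycleRange.symm := by
      funext j; rfl
    rw [e1, hk, Equiv.Perm.sign_symm, Fin.sign_cycleRange, smul_smul]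
    have e2 : (I ∘ i.cycleRange.symm) 0 = I i := by
      simp [Fin.cycleRange_symm_zero]
    have e3 : (I ∘ i.cycleRange.symm) ∘ Fin.succ = I ∘ i.succAbove := by
      funext j
      simp [Fin.cycleRange_symm_succ]
    rw [e2, e3]
    push_cast
    rw [mul_comm]
  simp_rw [Finset.smul_sum]
  rw [Finset.sum_comm]
  simp_rw [h1]
  rw [Finset.sum_const, Finset.card_univ, Fintype.card_fin, ← Nat.cast_smul_eq_nsmul ℂ]
  push_cast
  simp_rw [← Finset.smul_sum]

/-- Summation with an antisymmetric kernel.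
PROOF. Exchange the sums over `I` and over `i`. For fixed `i`, let `σ_i` be the permutation of
`Fin (q + 1)` with `(I ∘ σ_i) = sn (I ∘ i.succAbove) (I i)`, i.e. `σ_i (castSucc a) = i.succAbove a`,
`σ_i (last) = i`; it is a cycle with the sign `(-1)^(q - i)` (e.g. `Fin.cycleRange` conjugated with
`Fin.rev`, or compute with `Fin.cycleIcc`, or by induction; or use `Ker_perm` for adjacent
transpositions). By `hk`, `k (I ∘ σ_i) = (-1)^(q - i) k I`. So
`(-1)^i k I • a (I i) (I ∘ i.succAbove) = (-1)^q k (I ∘ σ_i) • a ((I ∘ σ_i) last)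
((I ∘ σ_i) ∘ castSucc)` (`(-1)^i (-1)^(q-i) = (-1)^q`), and `I ↦ I ∘ σ_i` is a bijection of the
multiindices (`Equiv.sum_comp` with `Equiv.arrowCongr`/`Equiv.piCongrLeft`). So the sum over `I` is
`(-1)^q ∑_I k I • a (I last) (I ∘ castSucc)`, independent of `i`, and `I = sn I' k'`
(`Fin.snocEquiv`, `Fin.consEquiv`... or `Fintype.sum_equiv`). The sum over `i` gives the factor
`q + 1`. -/
theorem sum_alt {q : ℕ} (k : (Fin (q + 1) → Fin n) → ℂ)
    (hk : ∀ (σ : Equiv.Perm (Fin (q + 1))) (I : Fin (q + 1) → Fin n),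
      k (I ∘ σ) = ((Equiv.Perm.sign σ : ℤ) : ℂ) * k I)
    (a : Fin n → (Fin q → Fin n) → V) :
    ∑ I : Fin (q + 1) → Fin n, k I • ∑ i : Fin (q + 1), ((-1 : ℂ) ^ (i : ℕ)) •
        a (I i) (I ∘ i.succAbove) =
      (((q : ℂ) + 1) * (-1) ^ q) • ∑ I : Fin q → Fin n, ∑ l : Fin n, k (sn I l) • a l I := by
  rw [B5_sum_alt_cn k hk a]
  have h1 : ∀ (l : Fin n) (I : Fin q → Fin n), k (cn l I) = (-1 : ℂ) ^ q * k (sn I l) := by
    intro l I
    rw [B5_sn_eq, hk, sign_finRotate]
    have : ((-1 : ℂ) ^ q * (-1 : ℂ) ^ q) = 1 := by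
      rw [← mul_pow]; simp
    push_cast
    rw [← mul_assoc, this, one_mul]
  simp_rw [h1]
  rw [mul_smul, Finset.smul_sum, ← Finset.smul_sum]
  congr 1
  rw [Finset.smul_sum, Finset.sum_comm]
  refine Finset.sum_congr rfl fun I _ => ?_
  rw [Finset.smul_sum]
  refine Finset.sum_congr rfl fun l _ => ?_
  rw [mul_smul]

/-- The sum of the kernel with `∂̄ η`.
PROOF. `sum_alt` with `k I = Ker δ h ε I Y τ z ζ` (`Ker_perm`), `a l I = db (η I) ζ (ee l)`, and
`Ker_snoc`. -/
theorem sum_dbf (δ : Ec n → ℝ) (h : Ec n → Ec n → Fin n → ℂ) (ε : ℝ) {q : ℕ} (η : Fm n q V)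
    (Y : Fin q → Ec n) (τ : ℝ) (z ζ : Ec n) :
    ∑ I : Fin (q + 1) → Fin n, Ker δ h ε I Y τ z ζ • dbf η I ζ =
      (((q : ℂ) + 1) * (-1) ^ q) • ∑ I : Fin q → Fin n, ∑ l : Fin n,
        KA δ h ε I Y l τ z ζ • db (η I) ζ (ee l) := by
  have h1 := sum_alt (n := n) (fun I => Ker δ h ε I Y τ z ζ)
    (fun σ I => Ker_perm δ h ε I σ Y τ z ζ) (fun l I => db (η I) ζ (ee l))
  simp only [Ker_snoc] at h1
  rw [← h1]
  rfl

/-- PROOF. If `I` is not injective, then two of the components are equal: apply `AltF` with the swap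
of the two indices: `η I = - η I`. -/
theorem AltF_zero {q : ℕ} {η : Fm n q V} (hη : AltF η) {I : Fin q → Fin n}
    (hI : ¬ Function.Injective I) (z : Ec n) : η I z = 0 := by
  unfold Function.Injective at hI
  push Not at hI
  obtain ⟨a, b, hab, hne⟩ := hI
  have h1 : I ∘ (Equiv.swap a b) = I := by
    funext j
    simp only [Function.comp_apply]
    rcases eq_or_ne j a with rfl | hja
    · simp [hab]
    · rcases eq_or_ne j b with rfl | hjb
      · simp [hab]
      · rw [Equiv.swap_apply_of_ne_of_ne hja hjb]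
  have h2 := hη (Equiv.swap a b) I z
  rw [h1, Equiv.Perm.sign_swap hne] at h2
  have h3 : η I z = -η I z := by simpa using h2
  have h4 : (2 : ℂ) • η I z = 0 := by
    rw [two_smul]; nth_rewrite 1 [h3]; simp
  exact (smul_eq_zero.mp h4).resolve_left two_ne_zero

/-- The value of a form is the sum of the determinants.
PROOF. `det (conj (X i (I j)))_(i, j) = ∑_σ sign σ ∏_i conj (X (σ i) (I i))` (`Matrix.det_apply`), and
`∑_I ∏_i conj (X (σ i) (I i)) • η I = ∑_I (∏_i conj (X i (I (σ⁻¹ i)))) • η I`; replace `I` by `I ∘ σ`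
(a bijection): `= ∑_I (∏_i conj (X i (I i))) • η (I ∘ σ) = sign σ • ev η z X`. So each `σ` contributes
`ev η z X`. -/
theorem sum_det_ev {q : ℕ} {η : Fm n q V} (hη : AltF η) (z : Ec n) (X : Fin q → Ec n) :
    ∑ I : Fin q → Fin n, Matrix.det (fun i j => (starRingEnd ℂ) (X i (I j))) • η I z =
      (q.factorial : ℂ) • ev η z X := by
  have h1 : ∀ σ : Equiv.Perm (Fin q), ∑ I : Fin q → Fin n,
      (∏ i, (starRingEnd ℂ) (X (σ i) (I i))) • η I z =
        ((Equiv.Perm.sign σ : ℤ) : ℂ) • ev η z X := by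
    intro σ
    rw [← Equiv.sum_comp (Equiv.arrowCongr σ.symm (Equiv.refl (Fin n)))]
    unfold ev
    rw [Finset.smul_sum]
    refine Finset.sum_congr rfl fun I _ => ?_
    have e1 : (Equiv.arrowCongr σ.symm (Equiv.refl (Fin n))) I = I ∘ σ := by
      funext j; rfl
    rw [e1, hη, smul_comm]
    congr 2
    exact Equiv.prod_comp σ (fun i => (starRingEnd ℂ) (X i (I i)))
  have h2 : ∀ I : Fin q → Fin n, Matrix.det (fun i j => (starRingEnd ℂ) (X i (I j))) • η I z =
      ∑ σ : Equiv.Perm (Fin q), ((Equiv.Perm.sign σ : ℤ) : ℂ) •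
        (∏ i, (starRingEnd ℂ) (X (σ i) (I i))) • η I z := by
    intro I
    have hd : Matrix.det (fun i j => (starRingEnd ℂ) (X i (I j))) =
        ∑ σ : Equiv.Perm (Fin q), ((Equiv.Perm.sign σ : ℤ) : ℂ) *
          ∏ i, (starRingEnd ℂ) (X (σ i) (I i)) :=
      Matrix.det_apply' (fun i j => (starRingEnd ℂ) (X i (I j)))
    refine (congrArg (fun t : ℂ => t • η I z) hd).trans ?_
    change (∑ σ : Equiv.Perm (Fin q), ((Equiv.Perm.sign σ : ℤ) : ℂ) *
          ∏ i, (starRingEnd ℂ) (X (σ i) (I i))) • η I z = _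
    rw [Finset.sum_smul]
    refine Finset.sum_congr rfl fun σ _ => ?_
    rw [mul_smul]
  simp_rw [h2]
  rw [Finset.sum_comm]
  have h3 : ∀ σ : Equiv.Perm (Fin q), ∑ I : Fin q → Fin n, ((Equiv.Perm.sign σ : ℤ) : ℂ) •
      (∏ i, (starRingEnd ℂ) (X (σ i) (I i))) • η I z = ev η z X := by
    intro σ
    rw [← Finset.smul_sum, h1, smul_smul]
    have : ((Equiv.Perm.sign σ : ℤ) : ℂ) * ((Equiv.Perm.sign σ : ℤ) : ℂ) = 1 := by
      rcases Int.units_eq_one_or (Equiv.Perm.sign σ) with h | h <;> simp [h]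
    rw [this, one_smul]
  simp_rw [h3]
  rw [Finset.sum_const, Finset.card_univ, Fintype.card_perm, Fintype.card_fin,
    ← Nat.cast_smul_eq_nsmul ℂ]

/-- PROOF. `conj (ee k l) = if k = l then 1 else 0`: only the term `I = J` remains. -/
theorem ev_ee {q : ℕ} (η : Fm n q V) (z : Ec n) (J : Fin q → Fin n) :
    ev η z (fun i => ee (J i)) = η J z := by
  unfold ev
  rw [Finset.sum_eq_single J]
  · have : ∏ i, (starRingEnd ℂ) (ee (J i) (J i)) = 1 := by
      refine Finset.prod_eq_one fun i _ => ?_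
      simp [ee]
    rw [this, one_smul]
  · intro I _ hI
    obtain ⟨i, hi⟩ : ∃ i, I i ≠ J i := by
      by_contra hc
      push Not at hc
      exact hI (funext hc)
    have : ∏ i, (starRingEnd ℂ) (ee (J i) (I i)) = 0 := by
      refine Finset.prod_eq_zero (Finset.mem_univ i) ?_
      simp [ee, hi]
    rw [this, zero_smul]
  · intro h; exact absurd (Finset.mem_univ J) h

end Pool.Agent.MPca0fc2.FD
end

section

/-! Bounds of determinants, change of frame. -/

set_option autoImplicit false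

open Metric Set MeasureTheory Filter Topology

namespace Pool.Agent.MPca0fc2.FD

variable {n : ℕ} {V : Type*} [NormedAddCommGroup V] [NormedSpace ℂ V]

private theorem det_rows {m : ℕ} (A : Matrix (Fin m) (Fin m) ℂ) (B : Fin m → ℝ)
    (hA : ∀ i j, ‖A i j‖ ≤ B i) : ‖A.det‖ ≤ m.factorial * ∏ i, B i := by
  rw [Matrix.det_apply']
  refine le_trans (norm_sum_le _ _) ?_
  have : ∀ σ : Equiv.Perm (Fin m), ‖((Equiv.Perm.sign σ : ℤ) : ℂ) * ∏ i, A (σ i) i‖ ≤ ∏ i, B i := by
    intro σ
    rw [norm_mul, norm_prod]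
    have h1 : ‖((Equiv.Perm.sign σ : ℤ) : ℂ)‖ = 1 := by
      rcases Int.units_eq_one_or (Equiv.Perm.sign σ) with h | h <;> simp [h]
    rw [h1, one_mul]
    calc ∏ i, ‖A (σ i) i‖ ≤ ∏ i, B (σ i) :=
          Finset.prod_le_prod (fun i _ => norm_nonneg _) (fun i _ => hA _ _)
      _ = ∏ i, B i := Equiv.prod_comp σ B
  refine le_trans (Finset.sum_le_sum fun σ _ => this σ) ?_
  rw [Finset.sum_const, Finset.card_univ, Fintype.card_perm, Fintype.card_fin, nsmul_eq_mul]

/-- PROOF. `Matrix.det_apply`: `m!` products of `m` entries, `|M i j| ≤ ‖M i‖`; for each permutation the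
product `∏ i, |M (σ i) i| ≤ ∏ i, ‖M (σ i)‖ = ∏ i, ‖M i‖`. -/
theorem det_le {m : ℕ} (M : Fin m → Fin m → ℂ) :
    ‖Matrix.det M‖ ≤ m.factorial * ∏ i, ‖M i‖ :=
  det_rows M (fun i => ‖M i‖) (fun i j => norm_le_pi_norm (M i) j)

/-- PROOF. `det_le`, `Fin.prod_univ_succ`. -/
theorem det_cn_le {m : ℕ} (x : Fin (m + 1) → ℂ) (Y : Fin m → Fin (m + 1) → ℂ) :
    ‖Matrix.det (cn x Y)‖ ≤ (m + 1).factorial * (‖x‖ * ∏ i, ‖Y i‖) := by
  have := det_le (cn x Y)
  rw [Fin.prod_univ_succ] at this
  exact this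

private def cM {m : ℕ} (u : Fin (m + 1) → ℂ) (Y : Fin m → Fin (m + 1) → ℂ) :
    Matrix (Fin (m + 1)) (Fin (m + 1)) ℂ := cn u Y

private theorem cM_zero {m : ℕ} (u : Fin (m + 1) → ℂ) (Y : Fin m → Fin (m + 1) → ℂ) :
    cM u Y 0 = u := rfl

private theorem cM_succ {m : ℕ} (u : Fin (m + 1) → ℂ) (Y : Fin m → Fin (m + 1) → ℂ) (i : Fin m) :
    cM u Y i.succ = Y i := rfl

private theorem cn_upd0 {m : ℕ} (u w : Fin (m + 1) → ℂ) (Y : Fin m → Fin (m + 1) → ℂ) :
    cM u Y = (cM w Y).updateRow 0 u := by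
  funext i
  refine Fin.cases ?_ (fun i => ?_) i
  · rw [Matrix.updateRow_self]; rfl
  · rw [Matrix.updateRow_ne (Fin.succ_ne_zero i)]; rfl

private theorem cn_updi {m : ℕ} (u v : Fin (m + 1) → ℂ) (Y : Fin m → Fin (m + 1) → ℂ) (i : Fin m) :
    cM u (Function.update Y i v) = (cM u Y).updateRow i.succ v := by
  funext r
  refine Fin.cases ?_ (fun r => ?_) r
  · rw [Matrix.updateRow_ne (Fin.succ_ne_zero i).symm]; rfl
  · by_cases h : r = i
    · subst h
      rw [Matrix.updateRow_self, cM_succ]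
      simp
    · rw [Matrix.updateRow_ne (by simpa using h), cM_succ, cM_succ]
      simp [h]

/-- The first row is `(1 - τ) a + τ b` and the row `i` is `b - a`: the determinant does not depend
on `τ`.
PROOF. The determinant is linear in each row: it is
`(1 - τ) det (a, .., b - a) + τ det (b, .., b - a) = (1 - τ) det (a, .., b) - τ det (b, .., a)`
(two equal rows give `0`), and `det (b, .., a) = -det (a, .., b)` (exchange of two rows). -/
theorem det_pair {m : ℕ} (a b : Fin (m + 1) → ℂ) (Y : Fin m → Fin (m + 1) → ℂ) (i : Fin m)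
    (τ : ℂ) :
    Matrix.det (cn ((1 - τ) • a + τ • b) (Function.update Y i (b - a))) =
      Matrix.det (cn a (Function.update Y i b)) := by
  show (cM ((1 - τ) • a + τ • b) (Function.update Y i (b - a))).det =
    (cM a (Function.update Y i b)).det
  have h1 : (1 - τ) • a + τ • b = a + τ • (b - a) := by
    rw [sub_smul, smul_sub, one_smul]; abel
  have h2 : (cM (a + τ • (b - a)) (Function.update Y i (b - a))).det =
      (cM a (Function.update Y i (b - a))).det + τ * (cM (b - a) (Function.update Y i (b - a))).det := by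
    rw [cn_upd0 (a + τ • (b - a)) 0, Matrix.det_updateRow_add, Matrix.det_updateRow_smul, ← cn_upd0,
      ← cn_upd0]
  have h3 : (cM (b - a) (Function.update Y i (b - a))).det = 0 := by
    refine Matrix.det_zero_of_row_eq (i := 0) (j := i.succ) (Fin.succ_ne_zero i).symm ?_
    rw [cM_zero, cM_succ]
    simp
  have h4 : (cM a (Function.update Y i b)).det =
      (cM a (Function.update Y i (b - a))).det + (cM a (Function.update Y i a)).det := by
    rw [cn_updi a b, cn_updi a (b - a), cn_updi a a, ← Matrix.det_updateRow_add, sub_add_cancel]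
  have h5 : (cM a (Function.update Y i a)).det = 0 := by
    refine Matrix.det_zero_of_row_eq (i := 0) (j := i.succ) (Fin.succ_ne_zero i).symm ?_
    rw [cM_zero, cM_succ]
    simp
  rw [h1, h2, h3, mul_zero, add_zero, h4, h5, add_zero]

private theorem append_sn_upd {α : Type*} {n q : ℕ} (A : Fin n → α) (B : Fin q → α) (v w : α) :
    (Fin.append A (sn B v) : Fin (n + (q + 1)) → α) =
      Function.update (Fin.append A (sn B w)) (Fin.natAdd n (Fin.last q)) v := by
  funext r
  refine Fin.addCases (fun l => ?_) (fun i => ?_) r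
  · have hne : (Fin.castAdd (q + 1) l : Fin (n + (q + 1))) ≠ Fin.natAdd n (Fin.last q) := by
      intro h
      have := congrArg Fin.val h
      simp at this
      omega
    rw [Function.update_of_ne hne, Fin.append_left, Fin.append_left]
  · rw [Fin.append_right]
    refine Fin.lastCases ?_ (fun i => ?_) i
    · rw [Function.update_self]
      unfold sn
      rw [Fin.snoc_last]
    · have hne : (Fin.natAdd n (Fin.castSucc i) : Fin (n + (q + 1))) ≠ Fin.natAdd n (Fin.last q) := by
        intro h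
        have := congrArg Fin.val h
        simp at this
        omega
      rw [Function.update_of_ne hne, Fin.append_right]
      unfold sn
      rw [Fin.snoc_castSucc, Fin.snoc_castSucc]

private theorem sn_castSucc {α : Type*} {m : ℕ} (f : Fin m → α) (a : α) (i : Fin m) :
    sn f a (Fin.castSucc i) = f i := by
  unfold sn; rw [Fin.snoc_castSucc]

private theorem sn_last {α : Type*} {m : ℕ} (f : Fin m → α) (a : α) :
    sn f a (Fin.last m) = a := by
  unfold sn; rw [Fin.snoc_last]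

private theorem row_ext {n q : ℕ} {f g : Fin (n + q + 1) → ℂ}
    (h1 : ∀ k : Fin n, f (Fin.castSucc (Fin.castAdd q k)) = g (Fin.castSucc (Fin.castAdd q k)))
    (h2 : ∀ j : Fin q, f (Fin.castSucc (Fin.natAdd n j)) = g (Fin.castSucc (Fin.natAdd n j)))
    (h3 : f (Fin.last (n + q)) = g (Fin.last (n + q))) : f = g := by
  funext c
  refine Fin.lastCases h3 (fun c => ?_) c
  exact Fin.addCases (fun k => h1 k) (fun j => h2 j) c

/-- The kernel with the rows of `τ = 0` and `τ = 1`.
PROOF. `det_pair` with `a = rx .. 0`, `b = rx .. 1`, for the last row: `rx .. τ = (1 - τ) a + τ b` and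
`rτ = b - a` (componentwise; `wk` and `w0` are affine in `τ`). The rows `rζ .. τ`, `rz .. τ` are not
changed. -/
theorem Ker_pair (δ : Ec n → ℝ) (h : Ec n → Ec n → Fin n → ℂ) (ε : ℝ) {q : ℕ}
    (I : Fin (q + 1) → Fin n) (Y : Fin q → Ec n) (τ : ℝ) (z ζ : Ec n) :
    Ker δ h ε I Y τ z ζ = F0 δ h ε τ z ζ * Matrix.det (cn (rx δ h ε (q + 1) 0 z ζ)
      (Fin.append (fun l => rζ δ h ε I τ z ζ (ee l))
        (sn (fun i => rz (q + 1) τ (Y i)) (rx δ h ε (q + 1) 1 z ζ)))) := by
  unfold Ker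
  congr 1
  have hx : rx δ h ε (q + 1) τ z ζ = (1 - (τ : ℂ)) • rx δ h ε (q + 1) 0 z ζ +
      (τ : ℂ) • rx δ h ε (q + 1) 1 z ζ := by
    refine row_ext (fun k => ?_) (fun j => ?_) ?_
    · simp only [Pi.add_apply, Pi.smul_apply, rx, sn_castSucc, Fin.append_left, wk, smul_eq_mul]
      push_cast
      ring
    · simp only [Pi.add_apply, Pi.smul_apply, rx, sn_castSucc, Fin.append_right, smul_eq_mul]
      simp
    · simp only [Pi.add_apply, Pi.smul_apply, rx, sn_last, w0, smul_eq_mul]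
      push_cast
      ring
  have ht : rτ δ h ε (q + 1) z ζ = rx δ h ε (q + 1) 1 z ζ - rx δ h ε (q + 1) 0 z ζ := by
    refine row_ext (fun k => ?_) (fun j => ?_) ?_
    · simp only [Pi.sub_apply, rx, rτ, sn_castSucc, Fin.append_left, wk]
      push_cast
      ring
    · simp only [Pi.sub_apply, rx, rτ, sn_castSucc, Fin.append_right]
      simp
    · simp only [Pi.sub_apply, rx, rτ, sn_last, w0]
      push_cast
      ring
  rw [hx, ht]
  rw [append_sn_upd _ (fun i => rz (q + 1) τ (Y i)) (rx δ h ε (q + 1) 1 z ζ - rx δ h ε (q + 1) 0 z ζ)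
    (rx δ h ε (q + 1) 1 z ζ)]
  rw [det_pair]
  congr 2
  exact (append_sn_upd _ _ _ _).symm

/-- the frame adapted to `g` -/
noncomputable def pp (g : Fin n → ℂ) (k₀ l : Fin n) : Ec n :=
  ee l - (if l = k₀ then 0 else g l / g k₀) • ee k₀

/-- the columns in the adapted frame -/
noncomputable def tc (g : Fin n → ℂ) (k₀ : Fin n) (v : Fin n → ℂ) (k : Fin n) : ℂ :=
  v k - (if k = k₀ then 0 else g k / g k₀) * v k₀

private theorem det_col_const {N : ℕ} (A B : Matrix (Fin N) (Fin N) ℂ) (c : Fin N → ℂ) (k : Fin N)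
    (hk : c k = 0) (h : ∀ i j, A i j = B i j + c j * B i k) : A.det = B.det := by
  rw [← Matrix.det_transpose A, ← Matrix.det_transpose B]
  exact Matrix.det_eq_of_forall_row_eq_smul_add_const c k hk (fun i j => h j i)

private def rr {q : ℕ} (v : Fin n → ℂ) (a : Fin q → ℂ) (v0 : ℂ) : Fin (n + q + 1) → ℂ :=
  sn (Fin.append v a) v0

private theorem rr_sec {q : ℕ} (v : Fin n → ℂ) (a : Fin q → ℂ) (v0 : ℂ) (k : Fin n) :
    rr v a v0 (Fin.castSucc (Fin.castAdd q k)) = v k := by
  unfold rr; rw [sn_castSucc, Fin.append_left]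

private theorem rr_A {q : ℕ} (v : Fin n → ℂ) (a : Fin q → ℂ) (v0 : ℂ) (j : Fin q) :
    rr v a v0 (Fin.castSucc (Fin.natAdd n j)) = a j := by
  unfold rr; rw [sn_castSucc, Fin.append_right]

private theorem rr_last {q : ℕ} (v : Fin n → ℂ) (a : Fin q → ℂ) (v0 : ℂ) :
    rr v a v0 (Fin.last (n + q)) = v0 := by
  unfold rr; rw [sn_last]

private def gM {q : ℕ} (x : Fin n → ℂ) (x0 : ℂ) (E : Fin n → Fin n → ℂ) (A : Fin n → Fin q → ℂ)
    (E0 : Fin n → ℂ) (y : Fin q → Fin n → ℂ) (y0 : Fin q → ℂ) :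
    Matrix (Fin (n + q + 1)) (Fin (n + q + 1)) ℂ :=
  cM (rr x 0 x0) (Fin.append (fun l => rr (E l) (A l) (E0 l)) (fun i => rr (y i) 0 (y0 i)))

private theorem gM_zero {q : ℕ} (x : Fin n → ℂ) (x0 : ℂ) (E : Fin n → Fin n → ℂ)
    (A : Fin n → Fin q → ℂ) (E0 : Fin n → ℂ) (y : Fin q → Fin n → ℂ) (y0 : Fin q → ℂ) :
    gM x x0 E A E0 y y0 0 = rr x 0 x0 := rfl

private theorem gM_E {q : ℕ} (x : Fin n → ℂ) (x0 : ℂ) (E : Fin n → Fin n → ℂ)
    (A : Fin n → Fin q → ℂ) (E0 : Fin n → ℂ) (y : Fin q → Fin n → ℂ) (y0 : Fin q → ℂ) (l : Fin n) :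
    gM x x0 E A E0 y y0 (Fin.succ (Fin.castAdd q l)) = rr (E l) (A l) (E0 l) := by
  unfold gM; rw [cM_succ, Fin.append_left]

private theorem gM_Y {q : ℕ} (x : Fin n → ℂ) (x0 : ℂ) (E : Fin n → Fin n → ℂ)
    (A : Fin n → Fin q → ℂ) (E0 : Fin n → ℂ) (y : Fin q → Fin n → ℂ) (y0 : Fin q → ℂ) (i : Fin q) :
    gM x x0 E A E0 y y0 (Fin.succ (Fin.natAdd n i)) = rr (y i) 0 (y0 i) := by
  unfold gM; rw [cM_succ, Fin.append_right]

/-- the column constants -/
private noncomputable def cc (g : Fin n → ℂ) (k₀ : Fin n) (k : Fin n) : ℂ :=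
  if k = k₀ then 0 else g k / g k₀

private theorem cc_self (g : Fin n → ℂ) (k₀ : Fin n) : cc g k₀ k₀ = 0 := by
  unfold cc; rw [if_pos rfl]

private theorem rr_tc {q : ℕ} (g : Fin n → ℂ) (k₀ : Fin n) (v : Fin n → ℂ) (a : Fin q → ℂ) (v0 : ℂ)
    (c : Fin (n + q + 1)) :
    rr v a v0 c = rr (tc g k₀ v) a v0 c +
      rr (cc g k₀) (0 : Fin q → ℂ) 0 c * rr (tc g k₀ v) a v0 (Fin.castSucc (Fin.castAdd q k₀)) := by
  refine Fin.lastCases ?_ (fun c => ?_) c
  · rw [rr_last, rr_last, rr_last, zero_mul, add_zero]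
  · refine Fin.addCases (fun k => ?_) (fun j => ?_) c
    · rw [rr_sec, rr_sec, rr_sec, rr_sec]
      have : tc g k₀ v k₀ = v k₀ := by unfold tc; simp
      rw [this]
      unfold tc cc
      ring
    · rw [rr_A, rr_A, rr_A]; simp

private theorem stepA {q : ℕ} (g : Fin n → ℂ) (k₀ : Fin n) (x : Fin n → ℂ) (x0 : ℂ)
    (E : Fin n → Fin n → ℂ) (A : Fin n → Fin q → ℂ) (E0 : Fin n → ℂ) (y : Fin q → Fin n → ℂ)
    (y0 : Fin q → ℂ) :
    (gM x x0 E A E0 y y0).det =
      (gM (tc g k₀ x) x0 (fun l => tc g k₀ (E l)) A E0 (fun i => tc g k₀ (y i)) y0).det := by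
  refine det_col_const _ _ (rr (cc g k₀) (0 : Fin q → ℂ) 0) (Fin.castSucc (Fin.castAdd q k₀)) ?_ ?_
  · rw [rr_sec, cc_self]
  · intro r c
    refine Fin.cases ?_ (fun r => ?_) r
    · rw [gM_zero, gM_zero]; exact rr_tc g k₀ _ _ _ c
    · refine Fin.addCases (fun l => ?_) (fun i => ?_) r
      · rw [gM_E, gM_E]; exact rr_tc g k₀ _ _ _ c
      · rw [gM_Y, gM_Y]; exact rr_tc g k₀ _ _ _ c

private theorem rr_lin {q : ℕ} (a : ℂ) (v w : Fin n → ℂ) (b b' : Fin q → ℂ) (v0 w0 : ℂ) :
    rr (a • v + w) (a • b + b') (a * v0 + w0) = fun c => rr w b' w0 c + a * rr v b v0 c := by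
  refine row_ext (fun k => ?_) (fun j => ?_) ?_
  · simp only [rr_sec]; simp [add_comm]
  · simp only [rr_A]; simp [add_comm]
  · simp only [rr_last]; ring

private theorem tc_lin (g : Fin n → ℂ) (k₀ : Fin n) (a : ℂ) (v w : Fin n → ℂ) :
    tc g k₀ (a • v + w) = a • tc g k₀ v + tc g k₀ w := by
  funext k
  simp only [tc, Pi.add_apply, Pi.smul_apply, smul_eq_mul]
  ring

private theorem stepB {q : ℕ} (g : Fin n → ℂ) (k₀ : Fin n) (D : Ec n → Fin n → ℂ)
    (D0 : Ec n → ℂ)
    (hD : ∀ (a : ℂ) (X X' : Ec n), D (a • X + X') = (starRingEnd ℂ) a • D X + D X')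
    (hD0 : ∀ (a : ℂ) (X X' : Ec n), D0 (a • X + X') = (starRingEnd ℂ) a * D0 X + D0 X')
    (x : Fin n → ℂ) (x0 : ℂ) (y : Fin q → Fin n → ℂ) (y0 : Fin q → ℂ) (I : Fin q → Fin n) :
    (gM x x0 (fun l => tc g k₀ (D (ee l))) (fun l j => (starRingEnd ℂ) ((ee l : Ec n) (I j)))
      (fun l => D0 (ee l)) y y0).det =
    (gM x x0 (fun l => tc g k₀ (D (pp g k₀ l))) (fun l j => (starRingEnd ℂ) ((pp g k₀ l) (I j)))
      (fun l => D0 (pp g k₀ l)) y y0).det := by
  refine Matrix.det_eq_of_forall_row_eq_smul_add_const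
    (cn 0 (Fin.append (fun l => (starRingEnd ℂ) (cc g k₀ l)) (fun _ => 0)))
    (Fin.succ (Fin.castAdd q k₀)) ?_ ?_
  · show Fin.append (fun l => (starRingEnd ℂ) (cc g k₀ l)) (fun _ => 0) (Fin.castAdd q k₀) = 0
    rw [Fin.append_left, cc_self, map_zero]
  · intro r c
    refine Fin.cases ?_ (fun r => ?_) r
    · rw [gM_zero, gM_zero]
      show _ = _ + 0 * _
      rw [zero_mul, add_zero]
    · show _ = _ + Fin.append (fun l => (starRingEnd ℂ) (cc g k₀ l)) (fun _ => 0) r * _
      refine Fin.addCases (fun l => ?_) (fun i => ?_) r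
      · rw [Fin.append_left, gM_E, gM_E, gM_E]
        have h1 : pp g k₀ k₀ = ee k₀ := by unfold pp; rw [if_pos rfl, zero_smul, sub_zero]
        have h2 : (ee l : Ec n) = cc g k₀ l • pp g k₀ k₀ + pp g k₀ l := by
          rw [h1]; unfold pp cc; abel
        have h3 : (fun j => (starRingEnd ℂ) ((ee l : Ec n) (I j))) =
            (starRingEnd ℂ) (cc g k₀ l) • (fun j => (starRingEnd ℂ) ((pp g k₀ k₀) (I j))) +
              (fun j => (starRingEnd ℂ) ((pp g k₀ l) (I j))) := by
          funext j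
          rw [h2]
          simp
        rw [h3, h2, hD, hD0, tc_lin, rr_lin]
      · rw [Fin.append_right, gM_Y, gM_Y, zero_mul, add_zero]

private theorem gM_upd {q : ℕ} (x : Fin n → ℂ) (x0 : ℂ) (E : Fin n → Fin n → ℂ)
    (E0 : Fin n → ℂ) (y : Fin q → Fin n → ℂ) (y0 : Fin q → ℂ) (w : Fin q → Fin n → ℂ) (j : Fin q)
    (a : Fin n → ℂ) :
    gM x x0 E (fun l i => Function.update w j a i l) E0 y y0 =
      (gM x x0 E (fun l i => w i l) E0 y y0).updateCol (Fin.castSucc (Fin.natAdd n j))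
        (cn 0 (Fin.append a (0 : Fin q → ℂ))) := by
  have hne1 : ∀ k : Fin n, (Fin.castSucc (Fin.castAdd q k) : Fin (n + q + 1)) ≠
      Fin.castSucc (Fin.natAdd n j) := by
    intro k h
    have := congrArg Fin.val h
    simp at this
    omega
  have hne2 : (Fin.last (n + q) : Fin (n + q + 1)) ≠ Fin.castSucc (Fin.natAdd n j) := by
    intro h
    have := congrArg Fin.val h
    simp at this
    omega
  have hne3 : ∀ i : Fin q, i ≠ j → (Fin.castSucc (Fin.natAdd n i) : Fin (n + q + 1)) ≠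
      Fin.castSucc (Fin.natAdd n j) := by
    intro i hi h
    apply hi
    have := congrArg Fin.val h
    simp at this
    exact Fin.ext this
  funext r
  refine row_ext (fun k => ?_) (fun i => ?_) ?_
  · rw [Matrix.updateCol_ne (hne1 k)]
    refine Fin.cases ?_ (fun r => ?_) r
    · rw [gM_zero, gM_zero]
    · refine Fin.addCases (fun l => ?_) (fun i => ?_) r
      · rw [gM_E, gM_E, rr_sec, rr_sec]
      · rw [gM_Y, gM_Y]
  · by_cases hi : i = j
    · subst hi
      rw [Matrix.updateCol_self]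
      refine Fin.cases ?_ (fun r => ?_) r
      · rw [gM_zero, rr_A]; rfl
      · show _ = Fin.append a (0 : Fin q → ℂ) r
        refine Fin.addCases (fun l => ?_) (fun i => ?_) r
        · rw [gM_E, rr_A, Fin.append_left, Function.update_self]
        · rw [gM_Y, rr_A, Fin.append_right]; rfl
    · rw [Matrix.updateCol_ne (hne3 i hi)]
      refine Fin.cases ?_ (fun r => ?_) r
      · rw [gM_zero, gM_zero]
      · refine Fin.addCases (fun l => ?_) (fun i' => ?_) r
        · rw [gM_E, gM_E, rr_A, rr_A, Function.update_of_ne hi]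
        · rw [gM_Y, gM_Y]
  · rw [Matrix.updateCol_ne hne2]
    refine Fin.cases ?_ (fun r => ?_) r
    · rw [gM_zero, gM_zero]
    · refine Fin.addCases (fun l => ?_) (fun i => ?_) r
      · rw [gM_E, gM_E, rr_last, rr_last]
      · rw [gM_Y, gM_Y]

private theorem cn_add {q : ℕ} (a b : Fin n → ℂ) :
    (cn 0 (Fin.append (a + b) (0 : Fin q → ℂ)) : Fin (n + q + 1) → ℂ) =
      cn 0 (Fin.append a (0 : Fin q → ℂ)) + cn 0 (Fin.append b (0 : Fin q → ℂ)) := by
  funext r
  refine Fin.cases ?_ (fun r => ?_) r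
  · show (0 : ℂ) = 0 + 0; simp
  · show Fin.append (a + b) (0 : Fin q → ℂ) r = Fin.append a (0 : Fin q → ℂ) r +
      Fin.append b (0 : Fin q → ℂ) r
    refine Fin.addCases (fun l => ?_) (fun i => ?_) r
    · simp [Fin.append_left]
    · simp [Fin.append_right]

private theorem cn_smul {q : ℕ} (s : ℂ) (a : Fin n → ℂ) :
    (cn 0 (Fin.append (s • a) (0 : Fin q → ℂ)) : Fin (n + q + 1) → ℂ) =
      s • cn 0 (Fin.append a (0 : Fin q → ℂ)) := by
  funext r
  refine Fin.cases ?_ (fun r => ?_) r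
  · show (0 : ℂ) = s * 0; simp
  · show Fin.append (s • a) (0 : Fin q → ℂ) r = s * Fin.append a (0 : Fin q → ℂ) r
    refine Fin.addCases (fun l => ?_) (fun i => ?_) r
    · simp [Fin.append_left]
    · simp [Fin.append_right]

private noncomputable def gML {q : ℕ} (x : Fin n → ℂ) (x0 : ℂ) (E : Fin n → Fin n → ℂ)
    (E0 : Fin n → ℂ) (y : Fin q → Fin n → ℂ) (y0 : Fin q → ℂ) :
    MultilinearMap ℂ (fun _ : Fin q => Fin n → ℂ) ℂ :=
  MultilinearMap.mk' (fun w => (gM x x0 E (fun l j => w j l) E0 y y0).det)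
    (fun w j a b => by
      rw [gM_upd, gM_upd, gM_upd, cn_add, Matrix.det_updateCol_add])
    (fun w j s a => by
      rw [gM_upd, gM_upd, cn_smul, Matrix.det_updateCol_smul]; rfl)

private theorem stepC {q : ℕ} (x : Fin n → ℂ) (x0 : ℂ) (E : Fin n → Fin n → ℂ)
    (E0 : Fin n → ℂ) (y : Fin q → Fin n → ℂ) (y0 : Fin q → ℂ) (w : Fin q → Fin n → ℂ) :
    (gM x x0 E (fun l j => w j l) E0 y y0).det =
      ∑ L : Fin q → Fin n, (∏ j, w j (L j)) *
        (gM x x0 E (fun l j => if L j = l then (1 : ℂ) else 0) E0 y y0).det := by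
  have h1 : ∀ w : Fin q → Fin n → ℂ, gML x x0 E E0 y y0 w = (gM x x0 E (fun l j => w j l) E0 y y0).det :=
    fun w => rfl
  have h2 : w = fun j => ∑ m : Fin n, w j m • (Pi.single m (1 : ℂ) : Fin n → ℂ) := by
    funext j l
    rw [Finset.sum_apply, Finset.sum_eq_single l]
    · simp
    · intro m _ hm
      rw [Pi.smul_apply, Pi.single_eq_of_ne hm.symm, smul_zero]
    · intro h; exact absurd (Finset.mem_univ _) h
  rw [← h1 w]
  conv_lhs => rw [h2]
  rw [MultilinearMap.map_sum]
  refine Finset.sum_congr rfl fun L _ => ?_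
  rw [MultilinearMap.map_smul_univ, h1, smul_eq_mul]
  congr 2
  congr 1
  funext l j
  by_cases h : L j = l
  · rw [if_pos h, h, Pi.single_eq_same]
  · rw [if_neg h, Pi.single_eq_of_ne (Ne.symm h)]

/-- The change of the frame.
The rows: the first row has the section part `x` and the last entry `x0`; the direction rows have the
section part `D (ee l)`, the entries `conj (ee l (I j))`, and the last entry `D0 (ee l)`; the other rows have
the section part `y i`, zeros, the last entry `y0 i`.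
PROOF. Three steps.
(1) COLUMNS: replace the column `k ≠ k₀` of the section part by (column `k`) `- (g k / g k₀)` (column `k₀`):
the determinant does not change (`Matrix.det_eq_of_forall_col_eq_smul_add_const`, or transpose and
`Matrix.det_eq_of_forall_row_eq_smul_add_const`). So in all rows the section part `v` becomes `tc v`.
(2) ROWS: replace the direction row `l ≠ k₀` by (row `l`) `- conj (g l / g k₀)` (row `k₀`). By conjugate
linearity (`hD`, `hD0`) the row becomes the row of the vector `pp g k₀ l`, with the entries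
`tc (D (pp l))`, `conj ((pp l) (I j))`, `D0 (pp l)`.
(3) MULTILINEARITY IN THE COLUMNS `A j`: the column number `n + j` has the entry `conj ((pp l) (I j))` in the
direction row `l`, and `0` in the other rows, so it is `∑_m conj ((pp m) (I j)) * (indicator column of the
direction row m)`. Expand for all `j`: the determinant is the sum over `L : Fin q → Fin n` of
`∏_j conj ((pp (L j)) (I j))` times the determinant with the column `n + j` replaced by the indicator
of the direction row `L j` (`MultilinearMap.map_sum` and `map_smul_univ` for `Matrix.detRowAlternating` of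
the transposed matrix; or `Matrix.det_apply` and `Finset.prod_sum`/`Fintype.piFinset`: in the Leibniz
formula the product over the columns `n + j` of the entries is expanded). Then exchange the sums over
`I` and `L`. -/
theorem frame {q : ℕ} (g : Fin n → ℂ) (k₀ : Fin n) (hg : g k₀ ≠ 0) (D : Ec n → Fin n → ℂ)
    (D0 : Ec n → ℂ)
    (hD : ∀ (a : ℂ) (X X' : Ec n), D (a • X + X') = (starRingEnd ℂ) a • D X + D X')
    (hD0 : ∀ (a : ℂ) (X X' : Ec n), D0 (a • X + X') = (starRingEnd ℂ) a * D0 X + D0 X')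
    (x : Fin n → ℂ) (x0 : ℂ) (y : Fin q → Fin n → ℂ) (y0 : Fin q → ℂ)
    (a : (Fin q → Fin n) → V) :
    ∑ I : Fin q → Fin n, Matrix.det (cn (sn (Fin.append x (0 : Fin q → ℂ)) x0 :
        Fin (n + q + 1) → ℂ)
      (Fin.append (fun l => (sn (Fin.append (D (ee l))
          (fun j => (starRingEnd ℂ) ((ee l : Ec n) (I j)))) (D0 (ee l)) : Fin (n + q + 1) → ℂ))
        (fun i => (sn (Fin.append (y i) (0 : Fin q → ℂ)) (y0 i) : Fin (n + q + 1) → ℂ)))) • a I =
    ∑ L : Fin q → Fin n, Matrix.det (cn (sn (Fin.append (tc g k₀ x) (0 : Fin q → ℂ)) x0 :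
        Fin (n + q + 1) → ℂ)
      (Fin.append (fun l => (sn (Fin.append (tc g k₀ (D (pp g k₀ l)))
          (fun j => if L j = l then (1 : ℂ) else 0)) (D0 (pp g k₀ l)) : Fin (n + q + 1) → ℂ))
        (fun i => (sn (Fin.append (tc g k₀ (y i)) (0 : Fin q → ℂ)) (y0 i) :
          Fin (n + q + 1) → ℂ)))) •
      ∑ I : Fin q → Fin n, (∏ j, (starRingEnd ℂ) ((pp g k₀ (L j)) (I j))) • a I := by
  have key : ∀ I : Fin q → Fin n, Matrix.det (cn (sn (Fin.append x (0 : Fin q → ℂ)) x0 :
        Fin (n + q + 1) → ℂ)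
      (Fin.append (fun l => (sn (Fin.append (D (ee l))
          (fun j => (starRingEnd ℂ) ((ee l : Ec n) (I j)))) (D0 (ee l)) : Fin (n + q + 1) → ℂ))
        (fun i => (sn (Fin.append (y i) (0 : Fin q → ℂ)) (y0 i) : Fin (n + q + 1) → ℂ)))) =
      ∑ L : Fin q → Fin n, (∏ j, (starRingEnd ℂ) ((pp g k₀ (L j)) (I j))) *
        Matrix.det (cn (sn (Fin.append (tc g k₀ x) (0 : Fin q → ℂ)) x0 :
        Fin (n + q + 1) → ℂ)
      (Fin.append (fun l => (sn (Fin.append (tc g k₀ (D (pp g k₀ l)))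
          (fun j => if L j = l then (1 : ℂ) else 0)) (D0 (pp g k₀ l)) : Fin (n + q + 1) → ℂ))
        (fun i => (sn (Fin.append (tc g k₀ (y i)) (0 : Fin q → ℂ)) (y0 i) :
          Fin (n + q + 1) → ℂ)))) := by
    intro I
    show (gM x x0 (fun l => D (ee l)) (fun l j => (starRingEnd ℂ) ((ee l : Ec n) (I j)))
      (fun l => D0 (ee l)) y y0).det = ∑ L : Fin q → Fin n,
        (∏ j, (starRingEnd ℂ) ((pp g k₀ (L j)) (I j))) *
        (gM (tc g k₀ x) x0 (fun l => tc g k₀ (D (pp g k₀ l)))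
          (fun l j => if L j = l then (1 : ℂ) else 0) (fun l => D0 (pp g k₀ l))
          (fun i => tc g k₀ (y i)) y0).det
    rw [stepA g k₀, stepB g k₀ D D0 hD hD0]
    exact stepC _ _ _ _ _ _ (fun j l => (starRingEnd ℂ) ((pp g k₀ l) (I j)))
  simp_rw [key, Finset.sum_smul, Finset.smul_sum]
  rw [Finset.sum_comm]
  refine Finset.sum_congr rfl fun L _ => Finset.sum_congr rfl fun I _ => ?_
  rw [smul_smul, mul_comm]

private theorem last_minor {N : ℕ} (A : Matrix (Fin (N + 1)) (Fin (N + 1)) ℂ) (i : Fin (N + 1))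
    (B : Fin (N + 1) → ℝ) (hB0 : ∀ r, 0 ≤ B r) (hB1 : 1 ≤ B i)
    (hB : ∀ r, r ≠ i → ∀ c : Fin N, ‖A r (Fin.castSucc c)‖ ≤ B r) :
    ‖(A.submatrix i.succAbove (Fin.last N).succAbove).det‖ ≤ N.factorial * ∏ r, B r := by
  have h1 := det_rows (A.submatrix i.succAbove (Fin.last N).succAbove) (fun a => B (i.succAbove a))
    (fun a c => by
      rw [Matrix.submatrix_apply, Fin.succAbove_last]
      exact hB _ (Fin.succAbove_ne i a) c)
  refine le_trans h1 ?_
  rw [Fin.prod_univ_succAbove B i]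
  have h2 : 0 ≤ ∏ a : Fin N, B (i.succAbove a) := Finset.prod_nonneg fun a _ => hB0 _
  have h3 : ∏ a : Fin N, B (i.succAbove a) ≤ B i * ∏ a : Fin N, B (i.succAbove a) := by
    nlinarith
  exact mul_le_mul_of_nonneg_left h3 (by positivity)

/-- The bound of the determinants in the adapted frame.
PROOF. Split the first row into `(x, 0, 0) + (0, 0, x0)`, the row `i₀` of the `y` into
`(y i₀, 0, 0) + (0, 0, y0 i₀)`, and expand (bilinear): four determinants.
(a) both second parts: two proportional rows, `0`.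
(b) `(0, 0, x0)` and `(y i₀, 0, 0)`: by `det_cn_le` at most `m! |x0| ‖y i₀‖ ∏ ..`, where the direction rows
have norm at most `K₁ = max K 1`, all the other `y` rows `‖y i‖`: at most `m! K₁^n |x0| ∏ i, ‖y i‖`.
(c) `(x, 0, 0)` and `(0, 0, y0 i₀)`: at most `m! K₁^n ‖x‖ |y0 i₀| ∏_(i ≠ i₀) ‖y i‖`.
(d) `(x, 0, 0)` and `(y i₀, 0, 0)`: the last column has non zero entries only in the direction row `k₀`.
If `k₀ = L j` for some `j`, the column `n + j` is the indicator of the direction row `k₀`; so subtracting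
`D0 k₀` times the column `n + j` from the last column gives a zero column: the determinant is `0`. If
`k₀` is not in the range of `L`: split the row `k₀` into its first part and its last entry `D0 k₀`: the
determinant with the first part has a zero last column; the other one is at most
`m! K₁^n ‖x‖ |D0 k₀| ∏ i, ‖y i‖`. -/
theorem frame_bound {q : ℕ} (k₀ : Fin n) (x : Fin n → ℂ) (x0 : ℂ) (E : Fin n → Fin n → ℂ)
    (E0 : Fin n → ℂ) (y : Fin q → Fin n → ℂ) (y0 : Fin q → ℂ) (i₀ : Fin q) (L : Fin q → Fin n)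
    (K : ℝ) (hK : 1 ≤ K) (hE : ∀ l, ‖E l‖ ≤ K) (hE0 : ∀ l, l ≠ k₀ → E0 l = 0)
    (hE0' : ‖E0 k₀‖ ≤ K) (hy0 : ∀ i, i ≠ i₀ → y0 i = 0) :
    ‖Matrix.det (cn (sn (Fin.append x (0 : Fin q → ℂ)) x0 : Fin (n + q + 1) → ℂ)
      (Fin.append (fun l => (sn (Fin.append (E l) (fun j => if L j = l then (1 : ℂ) else 0)) (E0 l) :
          Fin (n + q + 1) → ℂ))
        (fun i => (sn (Fin.append (y i) (0 : Fin q → ℂ)) (y0 i) : Fin (n + q + 1) → ℂ))))‖ ≤
      ((n + q + 1).factorial * K ^ n) * (∏ i ∈ Finset.univ.erase i₀, ‖y i‖) *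
        (‖x0‖ * ‖y i₀‖ + ‖x‖ * ‖y0 i₀‖ +
          (if k₀ ∈ Set.range L then 0 else ‖x‖ * ‖E0 k₀‖ * ‖y i₀‖)) := by
  set rE : Fin n → Fin (n + q + 1) → ℂ := fun l =>
    (sn (Fin.append (E l) (fun j => if L j = l then (1 : ℂ) else 0)) (E0 l) : Fin (n + q + 1) → ℂ) with hrE
  set rY : Fin q → Fin (n + q + 1) → ℂ := fun i =>
    (sn (Fin.append (y i) (0 : Fin q → ℂ)) (y0 i) : Fin (n + q + 1) → ℂ) with hrY
  set rX : Fin (n + q + 1) → ℂ := (sn (Fin.append x (0 : Fin q → ℂ)) x0 : Fin (n + q + 1) → ℂ) with hrX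
  set A : Matrix (Fin (n + q + 1)) (Fin (n + q + 1)) ℂ := cM rX (Fin.append rE rY) with hA
  show ‖A.det‖ ≤ _
  -- the rows
  have hA0 : A 0 = rX := rfl
  have hAE : ∀ l : Fin n, A (Fin.succ (Fin.castAdd q l)) = rE l := fun l => by
    rw [hA, cM_succ, Fin.append_left]
  have hAY : ∀ i : Fin q, A (Fin.succ (Fin.natAdd n i)) = rY i := fun i => by
    rw [hA, cM_succ, Fin.append_right]
  -- entries of the rows outside of the last column
  have eX : ∀ c : Fin (n + q), ‖rX (Fin.castSucc c)‖ ≤ ‖x‖ := by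
    intro c
    rw [hrX, sn_castSucc]
    refine Fin.addCases (fun k => ?_) (fun j => ?_) c
    · rw [Fin.append_left]; exact norm_le_pi_norm x k
    · rw [Fin.append_right]; simp
  have eE : ∀ (l : Fin n) (c : Fin (n + q)), ‖rE l (Fin.castSucc c)‖ ≤ K := by
    intro l c
    rw [hrE]
    simp only [sn_castSucc]
    refine Fin.addCases (fun k => ?_) (fun j => ?_) c
    · rw [Fin.append_left]; exact le_trans (norm_le_pi_norm (E l) k) (hE l)
    · rw [Fin.append_right]; split_ifs
      · simpa using hK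
      · simp; linarith
  have eY : ∀ (i : Fin q) (c : Fin (n + q)), ‖rY i (Fin.castSucc c)‖ ≤ ‖y i‖ := by
    intro i c
    rw [hrY]
    simp only [sn_castSucc]
    refine Fin.addCases (fun k => ?_) (fun j => ?_) c
    · rw [Fin.append_left]; exact norm_le_pi_norm (y i) k
    · rw [Fin.append_right]; simp
  have lX : rX (Fin.last (n + q)) = x0 := by rw [hrX, sn_last]
  have lE : ∀ l, rE l (Fin.last (n + q)) = E0 l := fun l => by rw [hrE]; simp only [sn_last]
  have lY : ∀ i, rY i (Fin.last (n + q)) = y0 i := fun i => by rw [hrY]; simp only [sn_last]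
  have hK0 : 0 ≤ K := by linarith
  set W : ℝ := ∏ i ∈ Finset.univ.erase i₀, ‖y i‖ with hW
  have hW0 : 0 ≤ W := Finset.prod_nonneg fun i _ => norm_nonneg _
  have hWy : ∏ i, ‖y i‖ = ‖y i₀‖ * W :=
     (Finset.mul_prod_erase Finset.univ (fun i => ‖y i‖) (Finset.mem_univ i₀)).symm
  set F : ℝ := ((n + q).factorial : ℝ) with hF
  have hF0 : 0 ≤ F := by positivity
  -- the minors
  set mi : Fin (n + q + 1) → ℂ := fun i => (A.submatrix i.succAbove (Fin.last (n + q)).succAbove).det
    with hmi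
  have m0 : ‖mi 0‖ ≤ F * (K ^ n * (‖y i₀‖ * W)) := by
    have := last_minor A 0 (cn 1 (Fin.append (fun _ : Fin n => K) (fun i => ‖y i‖))) (fun r => by
        refine Fin.cases ?_ (fun r => ?_) r
        · show (0 : ℝ) ≤ 1; norm_num
        · show 0 ≤ Fin.append (fun _ : Fin n => K) (fun i => ‖y i‖) r
          refine Fin.addCases (fun l => ?_) (fun i => ?_) r
          · rw [Fin.append_left]; exact hK0
          · rw [Fin.append_right]; exact norm_nonneg _) (le_refl _) (fun r => by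
        refine Fin.cases (fun h => absurd rfl h) (fun r => ?_) r
        intro _ c
        show _ ≤ Fin.append (fun _ : Fin n => K) (fun i => ‖y i‖) r
        revert c
        refine Fin.addCases (fun l => ?_) (fun i => ?_) r
        · intro c; rw [Fin.append_left, hAE]; exact eE l c
        · intro c; rw [Fin.append_right, hAY]; exact eY i c)
    refine le_trans this (le_of_eq ?_)
    rw [Fin.prod_univ_succ]
    show F * (1 * ∏ i : Fin (n + q), Fin.append (fun _ : Fin n => K) (fun i => ‖y i‖) i) = _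
    rw [Fin.prod_univ_add]
    simp only [Fin.append_left, Fin.append_right, Finset.prod_const, Finset.card_univ, Fintype.card_fin]
    rw [hWy, one_mul]
  have mY : ‖mi (Fin.succ (Fin.natAdd n i₀))‖ ≤ F * (‖x‖ * (K ^ n * W)) := by
    have := last_minor A (Fin.succ (Fin.natAdd n i₀))
      (cn ‖x‖ (Fin.append (fun _ : Fin n => K) (fun i => if i = i₀ then 1 else ‖y i‖))) (fun r => by
        refine Fin.cases ?_ (fun r => ?_) r
        · exact norm_nonneg _
        · show 0 ≤ Fin.append (fun _ : Fin n => K) (fun i => if i = i₀ then 1 else ‖y i‖) r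
          refine Fin.addCases (fun l => ?_) (fun i => ?_) r
          · rw [Fin.append_left]; exact hK0
          · rw [Fin.append_right]; split_ifs
            · norm_num
            · exact norm_nonneg _) (by
        show 1 ≤ Fin.append (fun _ : Fin n => K) (fun i => if i = i₀ then 1 else ‖y i‖) (Fin.natAdd n i₀)
        rw [Fin.append_right]; simp) (fun r => by
        refine Fin.cases (fun _ c => eX c) (fun r => ?_) r
        show _ → ∀ c, _ ≤ Fin.append (fun _ : Fin n => K) (fun i => if i = i₀ then 1 else ‖y i‖) r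
        refine Fin.addCases (fun l => ?_) (fun i => ?_) r
        · intro _ c; rw [Fin.append_left, hAE]; exact eE l c
        · intro hne c
          rw [Fin.append_right, hAY, if_neg (fun h => hne (by rw [h]))]
          exact eY i c)
    refine le_trans this (le_of_eq ?_)
    rw [Fin.prod_univ_succ]
    show F * (‖x‖ * ∏ i : Fin (n + q), Fin.append (fun _ : Fin n => K)
      (fun i => if i = i₀ then 1 else ‖y i‖) i) = _
    rw [Fin.prod_univ_add]
    simp only [Fin.append_left, Fin.append_right, Finset.prod_const, Finset.card_univ, Fintype.card_fin]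
    rw [← Finset.mul_prod_erase Finset.univ (fun i => if i = i₀ then (1 : ℝ) else ‖y i‖)
      (Finset.mem_univ i₀), if_pos rfl, one_mul, hW]
    rw [Finset.prod_congr rfl (g := fun i => ‖y i‖)
      (fun i hi => if_neg (Finset.ne_of_mem_erase hi))]
  have mE : ‖mi (Fin.succ (Fin.castAdd q k₀))‖ ≤
      if k₀ ∈ Set.range L then 0 else F * (‖x‖ * (K ^ n * (‖y i₀‖ * W))) := by
    split_ifs with hL
    · obtain ⟨j, hj⟩ := hL
      have : mi (Fin.succ (Fin.castAdd q k₀)) = 0 := by
        rw [hmi]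
        refine Matrix.det_eq_zero_of_column_eq_zero (Fin.natAdd n j) fun a => ?_
        rw [Matrix.submatrix_apply, Fin.succAbove_last]
        have hne := Fin.succAbove_ne (Fin.succ (Fin.castAdd q k₀)) a
        generalize (Fin.succ (Fin.castAdd q k₀)).succAbove a = r at hne
        revert hne
        refine Fin.cases ?_ (fun r => ?_) r
        · intro _
          rw [hA0, hrX, sn_castSucc, Fin.append_right]; rfl
        · refine Fin.addCases (fun l => ?_) (fun i => ?_) r
          · intro hne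
            rw [hAE, hrE]
            simp only [sn_castSucc]
            rw [Fin.append_right, hj, if_neg]
            intro h
            exact hne (by rw [h])
          · intro _
            rw [hAY, hrY]
            simp only [sn_castSucc]
            rw [Fin.append_right]; rfl
      rw [this, norm_zero]
    · have := last_minor A (Fin.succ (Fin.castAdd q k₀))
        (cn ‖x‖ (Fin.append (fun _ : Fin n => K) (fun i => ‖y i‖))) (fun r => by
          refine Fin.cases ?_ (fun r => ?_) r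
          · exact norm_nonneg _
          · show 0 ≤ Fin.append (fun _ : Fin n => K) (fun i => ‖y i‖) r
            refine Fin.addCases (fun l => ?_) (fun i => ?_) r
            · rw [Fin.append_left]; exact hK0
            · rw [Fin.append_right]; exact norm_nonneg _) (by
          show 1 ≤ Fin.append (fun _ : Fin n => K) (fun i => ‖y i‖) (Fin.castAdd q k₀)
          rw [Fin.append_left]; exact hK) (fun r => by
          refine Fin.cases (fun _ c => eX c) (fun r => ?_) r
          show _ → ∀ c, _ ≤ Fin.append (fun _ : Fin n => K) (fun i => ‖y i‖) r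
          refine Fin.addCases (fun l => ?_) (fun i => ?_) r
          · intro _ c; rw [Fin.append_left, hAE]; exact eE l c
          · intro _ c; rw [Fin.append_right, hAY]; exact eY i c)
      refine le_trans this (le_of_eq ?_)
      rw [Fin.prod_univ_succ]
      show F * (‖x‖ * ∏ i : Fin (n + q), Fin.append (fun _ : Fin n => K) (fun i => ‖y i‖) i) = _
      rw [Fin.prod_univ_add]
      simp only [Fin.append_left, Fin.append_right, Finset.prod_const, Finset.card_univ, Fintype.card_fin]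
      rw [hWy]
  -- the expansion
  have hexp : A.det = (-1) ^ ((0 : Fin (n + q + 1)) + (Fin.last (n + q) : Fin (n + q + 1)) : ℕ) * x0 * mi 0 +
      ((-1) ^ ((Fin.succ (Fin.castAdd q k₀) : Fin (n + q + 1)) + (Fin.last (n + q) : Fin (n + q + 1)) : ℕ) *
        E0 k₀ * mi (Fin.succ (Fin.castAdd q k₀)) +
      (-1) ^ ((Fin.succ (Fin.natAdd n i₀) : Fin (n + q + 1)) + (Fin.last (n + q) : Fin (n + q + 1)) : ℕ) *
        y0 i₀ * mi (Fin.succ (Fin.natAdd n i₀))) := by
    rw [Matrix.det_succ_column A (Fin.last (n + q)), Fin.sum_univ_succ, Fin.sum_univ_add]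
    have s1 : ∀ l : Fin n, A (Fin.succ (Fin.castAdd q l)) (Fin.last (n + q)) = E0 l := fun l => by
      rw [hAE, lE]
    have s2 : ∀ i : Fin q, A (Fin.succ (Fin.natAdd n i)) (Fin.last (n + q)) = y0 i := fun i => by
      rw [hAY, lY]
    have s0 : A 0 (Fin.last (n + q)) = x0 := by rw [hA0, lX]
    simp_rw [s1, s2]
    rw [s0]
    congr 1
    congr 1
    · rw [Finset.sum_eq_single k₀]
      · intro l _ hl
        rw [hE0 l hl, mul_zero, zero_mul]
      · intro h; exact absurd (Finset.mem_univ _) h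
    · rw [Finset.sum_eq_single i₀]
      · intro l _ hl
        rw [hy0 l hl, mul_zero, zero_mul]
      · intro h; exact absurd (Finset.mem_univ _) h
  have hfac : F ≤ ((n + q + 1).factorial : ℝ) := by
    rw [hF]
    exact_mod_cast Nat.factorial_le (Nat.le_succ _)
  rw [hexp]
  have hn : ∀ (N : ℕ) (u v : ℂ), ‖(-1 : ℂ) ^ N * u * v‖ = ‖u‖ * ‖v‖ := by
    intro N u v
    rw [norm_mul, norm_mul, norm_pow, norm_neg, norm_one, one_pow, one_mul]
  refine le_trans (norm_add_le _ _) ?_
  refine le_trans (add_le_add (le_refl _) (norm_add_le _ _)) ?_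
  rw [hn, hn, hn]
  have b0 : ‖x0‖ * ‖mi 0‖ ≤ F * K ^ n * W * (‖x0‖ * ‖y i₀‖) := by
    refine le_trans (mul_le_mul_of_nonneg_left m0 (norm_nonneg _)) (le_of_eq (by ring))
  have b2 : ‖y0 i₀‖ * ‖mi (Fin.succ (Fin.natAdd n i₀))‖ ≤ F * K ^ n * W * (‖x‖ * ‖y0 i₀‖) := by
    refine le_trans (mul_le_mul_of_nonneg_left mY (norm_nonneg _)) (le_of_eq (by ring))
  have b1 : ‖E0 k₀‖ * ‖mi (Fin.succ (Fin.castAdd q k₀))‖ ≤ F * K ^ n * W *
      (if k₀ ∈ Set.range L then 0 else ‖x‖ * ‖E0 k₀‖ * ‖y i₀‖) := by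
    refine le_trans (mul_le_mul_of_nonneg_left mE (norm_nonneg _)) (le_of_eq ?_)
    split_ifs
    · ring
    · ring
  have hS : 0 ≤ ‖x0‖ * ‖y i₀‖ + ‖x‖ * ‖y0 i₀‖ +
          (if k₀ ∈ Set.range L then 0 else ‖x‖ * ‖E0 k₀‖ * ‖y i₀‖) := by
    split_ifs <;> positivity
  calc ‖x0‖ * ‖mi 0‖ + (‖E0 k₀‖ * ‖mi (Fin.succ (Fin.castAdd q k₀))‖ +
        ‖y0 i₀‖ * ‖mi (Fin.succ (Fin.natAdd n i₀))‖) ≤
      F * K ^ n * W * (‖x0‖ * ‖y i₀‖ + ‖x‖ * ‖y0 i₀‖ +
          (if k₀ ∈ Set.range L then 0 else ‖x‖ * ‖E0 k₀‖ * ‖y i₀‖)) := by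
        linarith
    _ ≤ ((n + q + 1).factorial * K ^ n) * W * (‖x0‖ * ‖y i₀‖ + ‖x‖ * ‖y0 i₀‖ +
          (if k₀ ∈ Set.range L then 0 else ‖x‖ * ‖E0 k₀‖ * ‖y i₀‖)) := by
        refine mul_le_mul_of_nonneg_right ?_ hS
        refine mul_le_mul_of_nonneg_right ?_ hW0
        exact mul_le_mul_of_nonneg_right hfac (by positivity)

end Pool.Agent.MPca0fc2.FD
end
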