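import Mathlib
import Pool.Agent.Lib.MP_ca0fc2_an.PTInc
import Pool.Agent.Lib.MP_ca0fc2_an.Mg.G045
import Pool.Agent.Lib.MP_ca0fc2_an.Mg.G050
import Pool.Agent.Lib.MP_ca0fc2_an.Mg.G048

section

set_option autoImplicit false

open Metric Set MeasureTheory Filter Topology
open scoped InnerProductSpace ENNReal

namespace Pool.Agent.MPca0fc2.QT

open Pool.Agent.MPca0fc2.PT

variable {E : Type*} [NormedAddCommGroup E] [InnerProductSpace ℂ E]
variable [FiniteDimensional ℂ E] [MeasurableSpace E] [BorelSpace E]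

theorem d_bound' {θ : ℝ} (h0 : 0 < θ) (h1 : θ < 1) {C₀ p : ℝ} (hC₀ : 0 < C₀) (hp : 1 ≤ p) :
    ∃ C : ℝ, 0 < C ∧ ∀ (ν : Measure E) (u : E → ℂ) (M A : ℝ), HU ν u M A p C₀ →
      ∀ (i : ℕ) (w : E), ‖w‖ < RC θ i →
        ‖uk u θ (i + 1) w - uk u θ i w‖ ≤ C * Ei ν θ i w ^ (1 / p) ∧
        ∀ x : E, ‖fderiv ℝ (fun w => uk u θ (i + 1) w - uk u θ i w) w x‖ ≤
          C * Ei ν θ i w ^ (1 / p) * gau (dl θ i w) w x := by
  obtain ⟨t, ht0, ht1, ht⟩ : ∃ t : ℝ, 0 < t ∧ t < 1 ∧ t ^ 32 = θ := by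
    refine ⟨θ ^ ((1 : ℝ) / 32), Real.rpow_pos_of_pos h0 _,
      Real.rpow_lt_one h0.le h1 (by norm_num), ?_⟩
    rw [← Real.rpow_natCast, ← Real.rpow_mul h0.le]
    norm_num
  have h := d_bound (E := E) ht0 ht1 hC₀ hp
  rw [ht] at h
  exact h

omit [MeasurableSpace E] [BorelSpace E] in
/-- holomorphic functions are twice continuously differentiable -/
theorem age_hol_c2 {f : E → ℂ} {U : Set E} (hU : IsOpen U) (hf : DifferentiableOn ℂ f U) :
    ContDiffOn ℝ 2 f U := by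
  have hprop : ProperSpace E := FiniteDimensional.proper ℂ E
  have hfin : FiniteDimensional ℝ E := FiniteDimensional.complexToReal E
  have key : ∀ z₀ ∈ U, ∃ r > 0, ball z₀ r ⊆ U ∧ ContDiffOn ℝ 2 f (ball z₀ r) := by
    intro z₀ hz₀
    obtain ⟨ε, hε, hεU⟩ := Metric.isOpen_iff.mp hU z₀ hz₀
    have hcs : closedBall z₀ (ε / 2) ⊆ U := (closedBall_subset_ball (by linarith)).trans hεU
    have hbs : ball z₀ (ε / 2) ⊆ U := ball_subset_closedBall.trans hcs
    obtain ⟨M, hM⟩ := (isCompact_closedBall z₀ (ε / 2)).exists_bound_of_continuousOn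
      (hf.continuousOn.mono hcs)
    refine ⟨ε / 2, by positivity, hbs, ?_⟩
    rw [show (2 : WithTop ℕ∞) = 1 + 1 by norm_num,
      contDiffOn_succ_iff_fderiv_of_isOpen isOpen_ball]
    have hfb := hf.mono hbs
    refine ⟨hfb.restrictScalars ℝ, by simp, ?_⟩
    rw [contDiffOn_clm_apply]
    intro v
    have h1 := Pool.Agent.Lib.MP_ca0fc2_an.differentiableOn_fderiv_apply isOpen_ball hfb
      (fun z hz => hM z (ball_subset_closedBall hz)) v
    refine (VP.hol_contDiffOn isOpen_ball h1).congr ?_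
    intro z hz
    have h2 : DifferentiableAt ℂ f z := hfb.differentiableAt (isOpen_ball.mem_nhds hz)
    rw [h2.fderiv_restrictScalars ℝ]
    rfl
  intro z₀ hz₀
  obtain ⟨r, hr, -, h⟩ := key z₀ hz₀
  exact (h.contDiffAt (ball_mem_nhds z₀ hr)).contDiffWithinAt

omit [MeasurableSpace E] [BorelSpace E] in
theorem uk_c2 {θ : ℝ} (h0 : 0 < θ) (h1 : θ < 1) {u : E → ℂ}
    (hu : DifferentiableOn ℂ u (ball 0 1)) {i k : ℕ} (hik : i ≤ k + 1) :
    ContDiffOn ℝ 2 (uk u θ i) (ball 0 (RC θ k)) := by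
  refine age_hol_c2 isOpen_ball ?_
  intro w hw
  rw [mem_ball_zero_iff] at hw
  apply DifferentiableAt.differentiableWithinAt
  have h2 := rt_smul_mem h0 h1 hik hw
  exact (hu.differentiableAt (isOpen_ball.mem_nhds h2)).comp w (by fun_prop)

end Pool.Agent.MPca0fc2.QT
end

section

/-! Holomorphic functions of several variables are smooth. -/

set_option autoImplicit false

open Metric Set MeasureTheory Filter Topology

namespace Pool.Agent.MPca0fc2.FD

variable {E : Type*} [NormedAddCommGroup E] [NormedSpace ℂ E] [FiniteDimensional ℂ E]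
variable {V : Type*} [NormedAddCommGroup V] [NormedSpace ℂ V] [FiniteDimensional ℂ V]

/-- scalar case -/
private theorem H0_scalar {F : E → ℂ} {W : Set E} (hW : IsOpen W) (hF : DifferentiableOn ℂ F W) :
    ContDiffOn ℝ 2 F W := by
  obtain ⟨e⟩ : Nonempty (E ≃L[ℂ] EuclideanSpace ℂ (Fin (Module.finrank ℂ E))) := by
    refine FiniteDimensional.nonempty_continuousLinearEquiv_of_finrank_eq ?_
    rw [finrank_euclideanSpace_fin]
  have h1 : IsOpen (e.symm ⁻¹' W) := hW.preimage e.symm.continuous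
  have h2 : DifferentiableOn ℂ (F ∘ e.symm) (e.symm ⁻¹' W) :=
    hF.comp e.symm.differentiable.differentiableOn fun x hx => hx
  have h3 := QT.age_hol_c2 h1 h2
  have he : ContDiff ℝ 2 e := (e.toContinuousLinearMap.restrictScalars ℝ).contDiff
  have h4 : ContDiffOn ℝ 2 ((F ∘ e.symm) ∘ e) W := by
    refine h3.comp he.contDiffOn fun x hx => ?_
    show e.symm (e x) ∈ W
    rw [e.symm_apply_apply]
    exact hx
  refine h4.congr fun x _ => ?_
  show F x = F (e.symm (e x))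
  rw [e.symm_apply_apply]

/-- PROOF. Compose with a linear isomorphism `E ≃L[ℂ] EuclideanSpace ℂ (Fin m)` and with the
coordinates of a basis of `V`, and use `QT.age_hol_c2` (in the library file QTAge; it is for
functions with values in `ℂ` on open subsets of finite dimensional inner product spaces). -/
theorem hol_c2 {F : E → V} {W : Set E} (hW : IsOpen W) (hF : DifferentiableOn ℂ F W) :
    ContDiffOn ℝ 2 F W := by
  obtain ⟨φ⟩ : Nonempty (V ≃L[ℂ] (Fin (Module.finrank ℂ V) → ℂ)) := by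
    refine FiniteDimensional.nonempty_continuousLinearEquiv_of_finrank_eq ?_
    rw [Module.finrank_fin_fun]
  have h1 : ContDiffOn ℝ 2 (φ ∘ F) W := by
    refine contDiffOn_pi.2 fun i => H0_scalar hW ?_
    have h2 : DifferentiableOn ℂ (φ ∘ F) W := φ.differentiable.comp_differentiableOn hF
    exact (differentiableOn_pi.1 h2) i
  have hφ : ContDiff ℝ 2 φ.symm := (φ.symm.toContinuousLinearMap.restrictScalars ℝ).contDiff
  have h3 : ContDiffOn ℝ 2 (φ.symm ∘ (φ ∘ F)) W := hφ.comp_contDiffOn h1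
  refine h3.congr fun x _ => ?_
  show F x = φ.symm (φ (F x))
  rw [φ.symm_apply_apply]

omit [FiniteDimensional ℂ V] in
/-- differentiability of a family of linear maps on a finite dimensional space -/
private theorem H0_clm {f : E → E →L[ℂ] V} {s : Set E}
    (h : ∀ y, DifferentiableOn ℂ (fun x => f x y) s) : DifferentiableOn ℂ f s := by
  let d := Module.finrank ℂ E
  have hd : d = Module.finrank ℂ (Fin d → ℂ) := (Module.finrank_fin_fun ℂ).symm
  let e₁ := ContinuousLinearEquiv.ofFinrankEq hd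
  let e₂ := (e₁.arrowCongr (1 : V ≃L[ℂ] V)).trans (ContinuousLinearEquiv.piRing (Fin d))
  rw [← Function.id_comp f, ← e₂.symm_comp_self]
  exact e₂.symm.differentiable.comp_differentiableOn (differentiableOn_pi.2 fun i => h _)

omit [FiniteDimensional ℂ E] [FiniteDimensional ℂ V] in
/-- a real linear map which commutes with `I` is complex linear -/
private theorem H0_lin (D : E →L[ℝ] V) (h : ∀ Y, D (Complex.I • Y) = Complex.I • D Y) :
    ∃ g : E →L[ℂ] V, g.restrictScalars ℝ = D := by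
  have hsm : ∀ (c : ℂ) (Y : E), D (c • Y) = c • D Y := by
    intro c Y
    have e1 : c • Y = (c.re : ℝ) • Y + (c.im : ℝ) • (Complex.I • Y) := by
      conv_lhs => rw [← Complex.re_add_im c, add_smul, mul_smul]
      simp only [Complex.coe_smul]
    have e2 : c • D Y = (c.re : ℝ) • D Y + (c.im : ℝ) • (Complex.I • D Y) := by
      conv_lhs => rw [← Complex.re_add_im c, add_smul, mul_smul]
      simp only [Complex.coe_smul]
    rw [e1, map_add, map_smul, map_smul, h, e2]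
  refine ⟨⟨⟨⟨D, D.map_add⟩, hsm⟩, D.continuous⟩, ?_⟩
  ext Y
  rfl

/-- PROOF. By `hol_c2`, `F` is real `C²`; the real derivative of `F` is complex linear and
`fderiv ℂ F z` restricted to real scalars is `fderiv ℝ F z`. For each `X`, the function
`z ↦ fderiv ℂ F z X` is the limit of difference quotients; or: it is real differentiable, and
`fderiv ℝ (fun z => fderiv ℝ F z X) z (I • Y) = D²F (I Y, X) = D²F (X, I Y)` (symmetry)
`= I D²F(X, Y)`, so it is complex differentiable. Finite dimension: `differentiableOn_clm_apply`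
or a basis. -/
theorem hol_fderiv {F : E → V} {W : Set E} (hW : IsOpen W) (hF : DifferentiableOn ℂ F W) :
    DifferentiableOn ℂ (fderiv ℂ F) W := by
  have hC := hol_c2 hW hF
  refine H0_clm fun X z hz => ?_
  have hWz : W ∈ 𝓝 z := hW.mem_nhds hz
  have hreal : ∀ w ∈ W, fderiv ℝ F w = (fderiv ℂ F w).restrictScalars ℝ := fun w hw =>
    ((hF.differentiableAt (hW.mem_nhds hw)).fderiv_restrictScalars ℝ)
  have hCz : ContDiffAt ℝ 2 F z := hC.contDiffAt hWz
  have hD : DifferentiableAt ℝ (fderiv ℝ F) z :=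
    (hCz.fderiv_right (m := 1) (by norm_num)).differentiableAt (by norm_num)
  have hsym : IsSymmSndFDerivAt ℝ F z :=
    hCz.isSymmSndFDerivAt (by simp [minSmoothness_of_isRCLikeNormedField])
  have hap : ∀ Y, HasFDerivAt (fun w => fderiv ℝ F w Y)
      ((fderiv ℝ (fderiv ℝ F) z).flip Y) z := by
    intro Y
    have := hD.hasFDerivAt.clm_apply (hasFDerivAt_const Y z)
    refine this.congr_fderiv ?_
    ext v
    simp
  have hev : (fun w => fderiv ℂ F w X) =ᶠ[𝓝 z] fun w => fderiv ℝ F w X := by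
    filter_upwards [hWz] with w hw
    rw [hreal w hw]
    rfl
  refine DifferentiableAt.differentiableWithinAt ?_
  have hdr : DifferentiableAt ℝ (fun w => fderiv ℂ F w X) z :=
    ((hap X).differentiableAt).congr_of_eventuallyEq hev
  refine (differentiableAt_iff_restrictScalars ℝ hdr).2 (H0_lin _ fun Y => ?_)
  rw [hev.fderiv_eq, (hap X).fderiv]
  show (fderiv ℝ (fderiv ℝ F) z) (Complex.I • Y) X
    = Complex.I • (fderiv ℝ (fderiv ℝ F) z) Y X
  rw [hsym.eq (Complex.I • Y) X, hsym.eq Y X]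
  have h1 : HasFDerivAt (fun w => fderiv ℝ F w (Complex.I • Y))
      (Complex.I • ((fderiv ℝ (fderiv ℝ F) z).flip Y)) z := by
    refine ((hap Y).const_smul Complex.I).congr_of_eventuallyEq ?_
    filter_upwards [hWz] with w hw
    show fderiv ℝ F w (Complex.I • Y) = Complex.I • fderiv ℝ F w Y
    rw [hreal w hw]
    exact (fderiv ℂ F w).map_smul Complex.I Y
  have h2 := (hap (Complex.I • Y)).unique h1
  exact congrArg (fun L : E →L[ℝ] V => L X) h2

/-- PROOF. `hol_fderiv`, and continuity of differentiable functions. -/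
theorem hol_fderiv_cont {F : E → V} {W : Set E} (hW : IsOpen W) (hF : DifferentiableOn ℂ F W) :
    ContinuousOn (fderiv ℂ F) W :=
  (hol_fderiv hW hF).continuousOn

/-- The bound of the second derivative on compact sets.
PROOF. `fderiv ℂ (fderiv ℂ F)` is continuous on `W` (`hol_fderiv` twice), so bounded on `K`. -/
theorem hol_d2_bound {F : E → V} {W K : Set E} (hW : IsOpen W) (hF : DifferentiableOn ℂ F W)
    (hK : IsCompact K) (hKW : K ⊆ W) :
    ∃ M : ℝ, ∀ z ∈ K, ‖F z‖ ≤ M ∧ ‖fderiv ℂ F z‖ ≤ M ∧ ‖fderiv ℂ (fderiv ℂ F) z‖ ≤ M := by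
  obtain ⟨M0, h0⟩ := hK.exists_bound_of_continuousOn (hF.continuousOn.mono hKW)
  obtain ⟨M1, h1⟩ := hK.exists_bound_of_continuousOn ((hol_fderiv_cont hW hF).mono hKW)
  obtain ⟨M2, h2⟩ := hK.exists_bound_of_continuousOn
    ((hol_fderiv_cont hW (hol_fderiv hW hF)).mono hKW)
  exact ⟨max M0 (max M1 M2), fun z hz => ⟨(h0 z hz).trans (le_max_left _ _),
    (h1 z hz).trans ((le_max_left _ _).trans (le_max_right _ _)),
    (h2 z hz).trans ((le_max_right _ _).trans (le_max_right _ _))⟩⟩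

end Pool.Agent.MPca0fc2.FD
end

section

/-! The calculus of the weight. -/

set_option autoImplicit false

open Metric Set MeasureTheory Filter Topology

namespace Pool.Agent.MPca0fc2.FD

variable {n : ℕ}
variable {U : Set (Ec n)} {δ : Ec n → ℝ} {h : Ec n → Ec n → Fin n → ℂ} {c C A : ℝ} {P : PD n}

/-- the set where the weight is smooth -/
def Wq (P : PD n) (U : Set (Ec n)) : Set (Ec n) := {z | z ∈ U ∧ ∀ r, ‖P.q r z‖ < 1}

theorem B10_ne {η x : ℂ} (hη : ‖η‖ < 1) (hx : ‖x‖ < 1) : 1 - (starRingEnd ℂ) η * x ≠ 0 := by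
  intro h
  have h1 : (starRingEnd ℂ) η * x = 1 := (sub_eq_zero.mp h).symm
  have h2 : ‖η‖ * ‖x‖ = 1 := by
    have := congrArg norm h1
    rwa [norm_mul, RCLike.norm_conj, norm_one] at this
  have h3 := norm_nonneg η
  have h4 := norm_nonneg x
  nlinarith

/-- PROOF. The functions `P.q r` are continuous on the open set `U`, and there are finitely many. -/
theorem Wq_open (hg : Geo U δ h c C) (hP : PG P U δ h c C A) : IsOpen (Wq P U) := by
  rw [isOpen_iff_mem_nhds]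
  rintro z ⟨hz, hq⟩
  have h1 : ∀ᶠ y in 𝓝 z, y ∈ U := hg.opn.mem_nhds hz
  have h2 : ∀ᶠ y in 𝓝 z, ∀ r, ‖P.q r y‖ < 1 := by
    rw [eventually_all]
    intro r
    have hc : ContinuousAt (P.q r) z :=
      ((hP.qm r).hol.continuousOn).continuousAt (hg.opn.mem_nhds hz)
    exact hc.norm.eventually_lt_const (hq r)
  filter_upwards [h1, h2] with y hy1 hy2
  exact ⟨hy1, hy2⟩

/-- PROOF. `PG.lt1`. -/
theorem Kc_sub_Wq (hP : PG P U δ h c C A) : Kc U δ ⊆ Wq P U := by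
  rintro z ⟨hz, hz0⟩
  exact ⟨hz, fun r => hP.lt1 r z hz hz0⟩

/-- PROOF. `Real.smoothTransition.contDiff`, an affine function inside. -/
theorem th_smooth (N : ℝ) : ContDiff ℝ 2 (th N) := by
  unfold th
  exact (Real.smoothTransition.contDiff).comp (by fun_prop)

/-- PROOF. `Real.smoothTransition.zero_of_nonpos`. -/
theorem th_zero {N s : ℝ} (hN : 0 < N) (hs : s ≤ N / 2) : th N s = 0 := by
  unfold th
  apply Real.smoothTransition.zero_of_nonpos
  have : s / N ≤ 1 / 2 := by rw [div_le_iff₀ hN]; linarith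
  linarith

/-- PROOF. `Real.smoothTransition.one_of_one_le`. -/
theorem th_one {N s : ℝ} (hN : 0 < N) (hs : N ≤ s) : th N s = 1 := by
  unfold th
  apply Real.smoothTransition.one_of_one_le
  have : 1 ≤ s / N := by rw [le_div_iff₀ hN]; linarith
  linarith

/-- PROOF. `Real.smoothTransition.nonneg`, `le_one`. -/
theorem th_mem (N s : ℝ) : 0 ≤ th N s ∧ th N s ≤ 1 := by
  exact ⟨Real.smoothTransition.nonneg _, Real.smoothTransition.le_one _⟩

/-- PROOF. The derivative of `Real.smoothTransition` is continuous, and `0` outside `[0, 1]`, so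
bounded by some `C₀`. The derivative of `th N` at `s` is `(2 / N) *` the derivative of
`smoothTransition` at `2 s / N - 1`; it is `0` unless `N / 2 ≤ s ≤ N`. -/
theorem th_deriv : ∃ C₀ : ℝ, 0 < C₀ ∧ ∀ N s : ℝ, 0 < N → |deriv (th N) s| ≤ C₀ / N ∧
    (s < N / 2 → deriv (th N) s = 0) ∧ (N < s → deriv (th N) s = 0) := by
  have hc : Continuous (deriv Real.smoothTransition) :=
    (Real.smoothTransition.contDiff (n := 1)).continuous_deriv le_rfl
  obtain ⟨C₁, hC₁⟩ := isCompact_Icc.exists_bound_of_continuousOn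
    (hc.continuousOn (s := Icc (0 : ℝ) 1))
  have hneg : ∀ x : ℝ, x < 0 → deriv Real.smoothTransition x = 0 := by
    intro x hx
    have : Real.smoothTransition =ᶠ[𝓝 x] fun _ => (0 : ℝ) := by
      filter_upwards [Iio_mem_nhds hx] with y hy
      exact Real.smoothTransition.zero_of_nonpos (le_of_lt hy)
    rw [this.deriv_eq, deriv_const]
  have hpos : ∀ x : ℝ, 1 < x → deriv Real.smoothTransition x = 0 := by
    intro x hx
    have : Real.smoothTransition =ᶠ[𝓝 x] fun _ => (1 : ℝ) := by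
      filter_upwards [Ioi_mem_nhds hx] with y hy
      exact Real.smoothTransition.one_of_one_le (le_of_lt hy)
    rw [this.deriv_eq, deriv_const]
  have hb : ∀ x : ℝ, |deriv Real.smoothTransition x| ≤ max C₁ 1 := by
    intro x
    rcases lt_or_ge x 0 with h0 | h0
    · rw [hneg x h0, abs_zero]; exact le_trans zero_le_one (le_max_right _ _)
    rcases lt_or_ge 1 x with h1 | h1
    · rw [hpos x h1, abs_zero]; exact le_trans zero_le_one (le_max_right _ _)
    · exact le_trans (hC₁ x ⟨h0, h1⟩) (le_max_left _ _)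
  refine ⟨2 * max C₁ 1, by have := le_max_right C₁ 1; linarith, ?_⟩
  intro N s hN
  have hd : deriv (th N) s = deriv Real.smoothTransition (2 * (s / N) - 1) * (2 / N) := by
    have h1 : HasDerivAt (fun s : ℝ => 2 * (s / N) - 1) (2 / N) s := by
      have := (((hasDerivAt_id s).div_const N).const_mul 2).sub_const 1
      rw [mul_one_div] at this
      exact this
    have h2 : HasDerivAt Real.smoothTransition
        (deriv Real.smoothTransition (2 * (s / N) - 1)) (2 * (s / N) - 1) :=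
      ((Real.smoothTransition.contDiff (n := 1)).differentiable one_ne_zero _).hasDerivAt
    exact (h2.comp s h1).deriv
  refine ⟨?_, ?_, ?_⟩
  · rw [hd, abs_mul, abs_of_pos (div_pos two_pos hN)]
    calc |deriv Real.smoothTransition (2 * (s / N) - 1)| * (2 / N)
        ≤ max C₁ 1 * (2 / N) :=
          mul_le_mul_of_nonneg_right (hb _) (div_pos two_pos hN).le
      _ = 2 * max C₁ 1 / N := by ring
  · intro h
    rw [hd, hneg, zero_mul]
    have : s / N < 1 / 2 := by rw [div_lt_iff₀ hN]; linarith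
    linarith
  · intro h
    rw [hd, hpos, zero_mul]
    have : 1 < s / N := by rw [lt_div_iff₀ hN]; linarith
    linarith

/-- PROOF. `Hf η x - Hf η y = (1 - |η|²) conj η (x - y) / ((1 - conj η x) (1 - conj η y))` and
`QM.hef`, `x - y = q z - q ζ = ∑ H_k (z_k - ζ_k)`. The denominators are not `0`:
`‖conj η * q‖ < 1`. -/
theorem Ex_eq (hP : PG P U δ h c C A) (κ : ℝ) {z ζ : Ec n} (hz : z ∈ Wq P U) (hζ : ζ ∈ Wq P U) :
    Ex P δ κ z ζ = -∑ k, Qh P δ κ z ζ k * (ζ k - z k) := by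
  have hH : ∀ r, ∀ η ∈ P.S r, Hf η (P.q r z) - Hf η (P.q r ζ) =
      ((1 - ‖η‖ ^ 2 : ℝ) * (starRingEnd ℂ) η / ((1 - (starRingEnd ℂ) η * P.q r z) *
      (1 - (starRingEnd ℂ) η * P.q r ζ))) * ∑ k, P.H r z ζ k * (z k - ζ k) := by
    intro r η hη
    have hn := hP.sub r η hη
    have h1 := B10_ne hn (hz.2 r)
    have h2 := B10_ne hn (hζ.2 r)
    rw [← (hP.qm r).hef z hz.1 ζ hζ.1]
    unfold Hf
    field_simp
    ring
  unfold Ex Qh
  rw [← Finset.sum_neg_distrib]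
  simp only [Finset.mul_sum, Finset.sum_mul, neg_mul, ← Finset.sum_neg_distrib]
  rw [Finset.sum_comm]
  refine Finset.sum_congr rfl fun r _ => ?_
  rw [Finset.sum_comm]
  refine Finset.sum_congr rfl fun η hη => ?_
  rw [hH r η hη]
  simp only [Finset.mul_sum, ← Finset.sum_neg_distrib]
  refine Finset.sum_congr rfl fun k _ => ?_
  ring

/-- PROOF. Each term is a product of `C²` functions: `P.q r` and `P.H r` are holomorphic, so `C²` by
`hol_c2` (`QM.hol`, `QM.Hhol`), `th`, `δ` (`Geo.dδ`) are `C²`, and the denominators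
`1 - conj η q` are not `0`, as `‖η‖ < 1`, `‖q‖ < 1`. -/
theorem Qh_c2 (hg : Geo U δ h c C) (hP : PG P U δ h c C A) (κ : ℝ) (k : Fin n) :
    ContDiffOn ℝ 2 (fun p : Ec n × Ec n => Qh P δ κ p.1 p.2 k) (Wq P U ×ˢ Wq P U) := by
  have hW := Wq_open hg hP
  have hq : ∀ r, ContDiffOn ℝ 2 (P.q r) (Wq P U) := fun r =>
    (hol_c2 hg.opn (hP.qm r).hol).mono fun z hz => hz.1
  have hH : ∀ r, ContDiffOn ℝ 2 (fun p : Ec n × Ec n => P.H r p.1 p.2 k) (Wq P U ×ˢ Wq P U) := by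
    intro r
    have h1 := (hol_c2 (hg.opn.prod hg.opn) (hP.qm r).Hhol).mono
      (prod_mono (fun z hz => hz.1) (fun z hz => hz.1) : Wq P U ×ˢ Wq P U ⊆ U ×ˢ U)
    exact contDiffOn_pi.mp h1 k
  have hδ : ContDiffOn ℝ 2 δ (Wq P U) := hg.dδ.mono fun z hz => hz.1
  have hth : ∀ N, ContDiffOn ℝ 2 (fun p : Ec n × Ec n => ((th N (δ p.2) : ℝ) : ℂ))
      (Wq P U ×ˢ Wq P U) := by
    intro N
    have h1 : ContDiffOn ℝ 2 (fun p : Ec n × Ec n => δ p.2) (Wq P U ×ˢ Wq P U) :=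
      hδ.comp contDiffOn_snd fun p hp => hp.2
    exact Complex.ofRealCLM.contDiff.comp_contDiffOn ((th_smooth N).comp_contDiffOn h1)
  have hq1 : ∀ r, ContDiffOn ℝ 2 (fun p : Ec n × Ec n => P.q r p.1) (Wq P U ×ˢ Wq P U) :=
    fun r => (hq r).comp contDiffOn_fst fun p hp => hp.1
  have hq2 : ∀ r, ContDiffOn ℝ 2 (fun p : Ec n × Ec n => P.q r p.2) (Wq P U ×ˢ Wq P U) :=
    fun r => (hq r).comp contDiffOn_snd fun p hp => hp.2
  unfold Qh
  refine contDiffOn_const.mul (ContDiffOn.sum fun r _ => ContDiffOn.sum fun η hη => ?_)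
  have hn := hP.sub r η hη
  have hden : ContDiffOn ℝ 2 (fun p : Ec n × Ec n => (1 - (starRingEnd ℂ) η * P.q r p.1) *
      (1 - (starRingEnd ℂ) η * P.q r p.2)) (Wq P U ×ˢ Wq P U) :=
    (contDiffOn_const.sub (contDiffOn_const.mul (hq1 r))).mul
      (contDiffOn_const.sub (contDiffOn_const.mul (hq2 r)))
  have hne : ∀ p ∈ Wq P U ×ˢ Wq P U, (1 - (starRingEnd ℂ) η * P.q r p.1) *
      (1 - (starRingEnd ℂ) η * P.q r p.2) ≠ 0 := fun p hp =>
    mul_ne_zero (B10_ne hn (hp.1.2 r)) (B10_ne hn (hp.2.2 r))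
  have hdiv : ContDiffOn ℝ 2 (fun p : Ec n × Ec n => ((1 - ‖η‖ ^ 2 : ℝ) : ℂ) *
      (starRingEnd ℂ) η / ((1 - (starRingEnd ℂ) η * P.q r p.1) *
      (1 - (starRingEnd ℂ) η * P.q r p.2))) (Wq P U ×ˢ Wq P U) := by
    simp only [div_eq_mul_inv]
    exact contDiffOn_const.mul (hden.inv hne)
  exact ((hth _).mul hdiv).mul (hH r)

/-- PROOF. As `Qh_c2`. -/
theorem Ex_c2 (hg : Geo U δ h c C) (hP : PG P U δ h c C A) (κ : ℝ) :
    ContDiffOn ℝ 2 (fun p : Ec n × Ec n => Ex P δ κ p.1 p.2) (Wq P U ×ˢ Wq P U) := by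
  have h1 : ContDiffOn ℝ 2 (fun p : Ec n × Ec n => -∑ k, Qh P δ κ p.1 p.2 k * (p.2 k - p.1 k))
      (Wq P U ×ˢ Wq P U) := by
    refine ContDiffOn.neg (ContDiffOn.sum fun k _ => (Qh_c2 hg hP κ k).mul ?_)
    apply ContDiff.contDiffOn
    fun_prop
  exact h1.congr fun p hp => Ex_eq hP κ hp.1 hp.2

/-- the vector of the row of the weight -/
noncomputable def Rv (P : PD n) (δ : Ec n → ℝ) (κ : ℝ) (z ζ : Ec n) (k : Fin n) : ℂ :=
  -κ * ∑ r, ∑ η ∈ P.S r, ((deriv (th (1 - ‖η‖ ^ 2)) (δ ζ) : ℝ) : ℂ) *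
    ((1 - ‖η‖ ^ 2 : ℝ) * (starRingEnd ℂ) η / ((1 - (starRingEnd ℂ) η * P.q r z) *
      (1 - (starRingEnd ℂ) η * P.q r ζ))) * P.H r z ζ k

theorem B10_sn_smul {q : ℕ} (a : ℂ) (v : Fin n → ℂ) :
    (sn (Fin.append (fun k => a * v k) (0 : Fin q → ℂ)) 0 : Fin (n + q + 1) → ℂ) =
      a • (sn (Fin.append v (0 : Fin q → ℂ)) 0 : Fin (n + q + 1) → ℂ) := by
  funext i
  refine Fin.lastCases ?_ (fun i => ?_) i
  · simp [sn]
  · refine Fin.addCases (fun k => ?_) (fun j => ?_) i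
    · simp only [sn, Fin.snoc_castSucc, Fin.append_left, Pi.smul_apply, smul_eq_mul]
    · simp only [sn, Fin.snoc_castSucc, Fin.append_right, Pi.zero_apply, Pi.smul_apply,
        smul_eq_mul, mul_zero]

theorem B10_db_mul {F G : Ec n → ℂ} {ζ : Ec n} (hF : DifferentiableAt ℝ F ζ)
    (hG : DifferentiableAt ℂ G ζ) (X : Ec n) :
    db (fun y => F y * G y) ζ X = db F ζ X * G ζ := by
  have h0 := db_hol hG X
  unfold db at h0 ⊢
  have h1 : fderiv ℝ (fun y => F y * G y) ζ = F ζ • fderiv ℝ G ζ + G ζ • fderiv ℝ F ζ :=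
    fderiv_fun_mul hF (hG.restrictScalars ℝ)
  rw [h1]
  simp only [add_apply, smul_apply, smul_eq_mul] at h0 ⊢
  linear_combination F ζ * h0

theorem B10_db_cmul {F : Ec n → ℂ} {ζ : Ec n} (hF : DifferentiableAt ℝ F ζ) (a : ℂ) (X : Ec n) :
    db (fun y => a * F y) ζ X = a * db F ζ X := by
  unfold db
  rw [fderiv_const_mul hF]
  simp only [smul_apply, smul_eq_mul]
  ring

theorem B10_db_sum {ι : Type*} (s : Finset ι) {F : ι → Ec n → ℂ} {ζ : Ec n}
    (hF : ∀ i ∈ s, DifferentiableAt ℝ (F i) ζ) (X : Ec n) :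
    db (fun y => ∑ i ∈ s, F i y) ζ X = ∑ i ∈ s, db (F i) ζ X := by
  unfold db
  rw [fderiv_fun_sum hF]
  simp only [sum_apply, smul_eq_mul, Finset.mul_sum, ← Finset.sum_add_distrib]

theorem B10_db_neg {F : Ec n → ℂ} {ζ : Ec n} (X : Ec n) :
    db (fun y => -F y) ζ X = -db F ζ X := by
  unfold db
  rw [fderiv_fun_neg]
  simp only [neg_apply, smul_eq_mul]
  ring

theorem B10_db_th {δ : Ec n → ℝ} {ζ : Ec n} (N : ℝ) (hδ : DifferentiableAt ℝ δ ζ) (X : Ec n) :
    db (fun y => ((th N (δ y) : ℝ) : ℂ)) ζ X =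
      ((deriv (th N) (δ ζ) : ℝ) : ℂ) * db (fun y => (δ y : ℂ)) ζ X := by
  have h1 : HasFDerivAt (fun y => ((th N (δ y) : ℝ) : ℂ))
      (Complex.ofRealCLM.comp (deriv (th N) (δ ζ) • fderiv ℝ δ ζ)) ζ := by
    have hth : HasDerivAt (th N) (deriv (th N) (δ ζ)) (δ ζ) :=
      ((th_smooth N).differentiable two_ne_zero _).hasDerivAt
    exact Complex.ofRealCLM.hasFDerivAt.comp ζ (hth.comp_hasFDerivAt ζ hδ.hasFDerivAt)
  have h2 : HasFDerivAt (fun y => (δ y : ℂ)) (Complex.ofRealCLM.comp (fderiv ℝ δ ζ)) ζ :=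
    Complex.ofRealCLM.hasFDerivAt.comp ζ hδ.hasFDerivAt
  unfold db
  rw [h1.fderiv, h2.fderiv]
  simp only [ContinuousLinearMap.comp_apply, smul_apply, smul_eq_mul, Complex.ofRealCLM_apply,
    Complex.ofReal_mul]
  ring

theorem B10_Qh_diff (hg : Geo U δ h c C) (hP : PG P U δ h c C A) (κ : ℝ) {z ζ : Ec n}
    (hz : z ∈ Wq P U) (hζ : ζ ∈ Wq P U) (k : Fin n) :
    DifferentiableAt ℝ (fun y => Qh P δ κ z y k) ζ := by
  have hW := Wq_open hg hP
  have h1 : ContDiffAt ℝ 2 (fun p : Ec n × Ec n => Qh P δ κ p.1 p.2 k) (z, ζ) :=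
    (Qh_c2 hg hP κ k).contDiffAt ((hW.prod hW).mem_nhds ⟨hz, hζ⟩)
  have h2 : DifferentiableAt ℝ (fun p : Ec n × Ec n => Qh P δ κ p.1 p.2 k) (z, ζ) :=
    h1.differentiableAt two_ne_zero
  exact h2.comp ζ ((differentiableAt_const z).prodMk differentiableAt_id)

theorem B10_db_Qh (hg : Geo U δ h c C) (hP : PG P U δ h c C A) (κ : ℝ) {z ζ : Ec n}
    (hz : z ∈ Wq P U) (hζ : ζ ∈ Wq P U) (X : Ec n) (k : Fin n) :
    db (fun y => Qh P δ κ z y k) ζ X = db (fun y => (δ y : ℂ)) ζ X * Rv P δ κ z ζ k := by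
  have hU : U ∈ 𝓝 ζ := hg.opn.mem_nhds hζ.1
  have hδ : DifferentiableAt ℝ δ ζ := (hg.dδ.contDiffAt hU).differentiableAt two_ne_zero
  have hth : ∀ N, DifferentiableAt ℝ (fun y => ((th N (δ y) : ℝ) : ℂ)) ζ := fun N =>
    (Complex.ofRealCLM.differentiableAt).comp ζ
      (((th_smooth N).differentiable two_ne_zero _).comp ζ hδ)
  have hG : ∀ r, ∀ η ∈ P.S r, DifferentiableAt ℂ (fun y => ((1 - ‖η‖ ^ 2 : ℝ) : ℂ) *
      (starRingEnd ℂ) η / ((1 - (starRingEnd ℂ) η * P.q r z) *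
      (1 - (starRingEnd ℂ) η * P.q r y)) * P.H r z y k) ζ := by
    intro r η hη
    have hn := hP.sub r η hη
    have hq : DifferentiableAt ℂ (P.q r) ζ := ((hP.qm r).hol).differentiableAt hU
    have hH : DifferentiableAt ℂ (fun y => P.H r z y k) ζ := by
      have h1 : DifferentiableAt ℂ (fun p : Ec n × Ec n => P.H r p.1 p.2) (z, ζ) :=
        ((hP.qm r).Hhol).differentiableAt ((hg.opn.prod hg.opn).mem_nhds ⟨hz.1, hζ.1⟩)
      have h2 : DifferentiableAt ℂ (fun y => P.H r z y) ζ :=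
        h1.comp ζ ((differentiableAt_const z).prodMk differentiableAt_id)
      exact differentiableAt_pi.mp h2 k
    have hD : DifferentiableAt ℂ (fun y => (1 - (starRingEnd ℂ) η * P.q r z) *
        (1 - (starRingEnd ℂ) η * P.q r y)) ζ :=
      (differentiableAt_const _).mul
        ((differentiableAt_const _).sub ((differentiableAt_const _).mul hq))
    have hne : (1 - (starRingEnd ℂ) η * P.q r z) * (1 - (starRingEnd ℂ) η * P.q r ζ) ≠ 0 :=
      mul_ne_zero (B10_ne hn (hz.2 r)) (B10_ne hn (hζ.2 r))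
    have hdiv : DifferentiableAt ℂ (fun y => ((1 - ‖η‖ ^ 2 : ℝ) : ℂ) *
        (starRingEnd ℂ) η / ((1 - (starRingEnd ℂ) η * P.q r z) *
        (1 - (starRingEnd ℂ) η * P.q r y))) ζ := by
      simp only [div_eq_mul_inv]
      refine (differentiableAt_const _).mul (DifferentiableAt.fun_inv hD ?_)
      exact hne
    exact hdiv.mul hH
  have hterm : ∀ r, ∀ η ∈ P.S r, DifferentiableAt ℝ (fun y =>
      ((th (1 - ‖η‖ ^ 2) (δ y) : ℝ) : ℂ) * (((1 - ‖η‖ ^ 2 : ℝ) : ℂ) *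
      (starRingEnd ℂ) η / ((1 - (starRingEnd ℂ) η * P.q r z) *
      (1 - (starRingEnd ℂ) η * P.q r y)) * P.H r z y k)) ζ := fun r η hη =>
    (hth _).mul ((hG r η hη).restrictScalars ℝ)
  unfold Qh Rv
  simp only [mul_assoc] at hterm hG ⊢
  rw [B10_db_cmul (DifferentiableAt.fun_sum fun r _ => DifferentiableAt.fun_sum fun η hη =>
    hterm r η hη), B10_db_sum _ (fun r _ => DifferentiableAt.fun_sum fun η hη => hterm r η hη)]
  simp only [Finset.mul_sum]
  refine Finset.sum_congr rfl fun r _ => ?_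
  rw [B10_db_sum _ (fun η hη => hterm r η hη), Finset.mul_sum]
  refine Finset.sum_congr rfl fun η hη => ?_
  rw [B10_db_mul (hth _) (hG r η hη), B10_db_th _ hδ]
  ring

/-- The rows of the weight are multiples of one vector.
PROOF. In `ζ' ↦ Qh P δ κ z ζ' k` all the factors except `th .. (δ ζ')` are holomorphic in `ζ'`, so
`db` of the product is `db` of `th .. (δ ζ')` times the other factors, and
`db (fun y => (th N (δ y) : ℂ)) ζ X = deriv (th N) (δ ζ) * db (fun y => (δ y : ℂ)) ζ X`. -/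
theorem rq_eq (hg : Geo U δ h c C) (hP : PG P U δ h c C A) (κ : ℝ) {z ζ : Ec n} (hz : z ∈ Wq P U)
    (hζ : ζ ∈ Wq P U) (X : Ec n) :
    rq P δ κ z ζ X = db (fun y => (δ y : ℂ)) ζ X •
      (sn (Fin.append (Rv P δ κ z ζ) (0 : Fin 0 → ℂ)) 0 : Fin (n + 0 + 1) → ℂ) := by
  unfold rq
  rw [← B10_sn_smul]
  congr 2
  funext k
  exact B10_db_Qh hg hP κ hz hζ X k

/-- PROOF. From `Ex_eq` near `ζ`: `db` of `ζ' k - z k` is `0`. -/
theorem db_Ex (hg : Geo U δ h c C) (hP : PG P U δ h c C A) (κ : ℝ) {z ζ : Ec n} (hz : z ∈ Wq P U)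
    (hζ : ζ ∈ Wq P U) (X : Ec n) :
    db (fun y => Ex P δ κ z y) ζ X = -∑ k, (ζ k - z k) * db (fun y => Qh P δ κ z y k) ζ X := by
  have hW := Wq_open hg hP
  have hev : (fun y => Ex P δ κ z y) =ᶠ[𝓝 ζ] fun y => -∑ k, Qh P δ κ z y k * (y k - z k) := by
    filter_upwards [hW.mem_nhds hζ] with y hy
    exact Ex_eq hP κ hz hy
  have h1 : db (fun y => Ex P δ κ z y) ζ X =
      db (fun y => -∑ k, Qh P δ κ z y k * (y k - z k)) ζ X := by
    unfold db
    rw [hev.fderiv_eq]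
  have hl : ∀ k : Fin n, DifferentiableAt ℂ (fun y : Ec n => y k - z k) ζ := by
    intro k
    fun_prop
  have hd : ∀ k : Fin n, DifferentiableAt ℝ (fun y : Ec n => Qh P δ κ z y k * (y k - z k)) ζ :=
    fun k => (B10_Qh_diff hg hP κ hz hζ k).mul ((hl k).restrictScalars ℝ)
  rw [h1, B10_db_neg, B10_db_sum _ (fun k _ => hd k)]
  congr 1
  refine Finset.sum_congr rfl fun k _ => ?_
  rw [B10_db_mul (B10_Qh_diff hg hP κ hz hζ k) (hl k), mul_comm]

theorem B10_comp {T : Type*} [NormedAddCommGroup T] [NormedSpace ℝ T] {q : ℕ}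
    {v : T → Fin n → ℂ} {p : T} {r : WithTop ℕ∞} (hv : ∀ k, ContDiffAt ℝ r (fun y => v y k) p)
    (i : Fin (n + q + 1)) : ContDiffAt ℝ r (fun y =>
      (sn (Fin.append (v y) (0 : Fin q → ℂ)) 0 : Fin (n + q + 1) → ℂ) i) p := by
  refine Fin.lastCases ?_ (fun i => ?_) i
  · simp only [sn, Fin.snoc_last]
    exact contDiffAt_const
  · refine Fin.addCases (fun k => ?_) (fun j => ?_) i
    · simp only [sn, Fin.snoc_castSucc, Fin.append_left]
      exact hv k
    · simp only [sn, Fin.snoc_castSucc, Fin.append_right, Pi.zero_apply]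
      exact contDiffAt_const

theorem B10_upd {T : Type*} [NormedAddCommGroup T] [NormedSpace ℝ T] {α : Type*}
    [NormedAddCommGroup α] [NormedSpace ℝ α] {m : ℕ} {Y : T → Fin m → α} {R : T → α} {p : T}
    {r : WithTop ℕ∞} (hY : ∀ l, ContDiffAt ℝ r (fun y => Y y l) p) (hR : ContDiffAt ℝ r R p)
    (j l : Fin m) : ContDiffAt ℝ r (fun y => Function.update (Y y) j (R y) l) p := by
  rcases eq_or_ne l j with rfl | hl
  · simp only [Function.update_self]
    exact hR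
  · simp only [Function.update_of_ne hl]
    exact hY l

theorem B10_det {T : Type*} [NormedAddCommGroup T] [NormedSpace ℝ T] {m : ℕ}
    {x : T → Fin (m + 1) → ℂ} {Y : T → Fin m → Fin (m + 1) → ℂ} {p : T}
    {r : WithTop ℕ∞} (hx : ContDiffAt ℝ r x p) (hY : ∀ l, ContDiffAt ℝ r (fun y => Y y l) p) :
    ContDiffAt ℝ r (fun y => Matrix.det (cn (x y) (Y y))) p := by
  apply det_c1
  intro i
  refine Fin.cases ?_ (fun l => ?_) i
  · exact hx
  · exact hY l

theorem B10_rq_c1 (hg : Geo U δ h c C) (hP : PG P U δ h c C A) (κ : ℝ) {z ζ : Ec n} (τ : ℝ)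
    (hz : z ∈ Wq P U) (hζ : ζ ∈ Wq P U) (X : Ec n) :
    ContDiffAt ℝ 1 (fun p : Tn n => rq P δ κ p.1 p.2.2 X) (z, τ, ζ) := by
  have hW := Wq_open hg hP
  have hWW : Wq P U ×ˢ Wq P U ∈ 𝓝 (z, ζ) := (hW.prod hW).mem_nhds ⟨hz, hζ⟩
  have hmain : ∀ k : Fin n, ContDiffAt ℝ 1
      (fun p : Tn n => db (fun y => Qh P δ κ p.1 y k) p.2.2 X) (z, τ, ζ) := by
    intro k
    have h1 : ContDiffAt ℝ 2 (fun p : Ec n × Ec n => Qh P δ κ p.1 p.2 k) (z, ζ) :=
      (Qh_c2 hg hP κ k).contDiffAt hWW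
    have h2 : ContDiffAt ℝ 1 (fderiv ℝ fun p : Ec n × Ec n => Qh P δ κ p.1 p.2 k) (z, ζ) :=
      h1.fderiv_right (by norm_num)
    have h3 : ∀ Y : Ec n, ContDiffAt ℝ 1 (fun p : Ec n × Ec n =>
        fderiv ℝ (fun p : Ec n × Ec n => Qh P δ κ p.1 p.2 k) p (0, Y)) (z, ζ) := fun Y =>
      h2.clm_apply contDiffAt_const
    have h4 : ContDiffAt ℝ 1 (fun p : Ec n × Ec n => (2⁻¹ : ℂ) *
        (fderiv ℝ (fun p : Ec n × Ec n => Qh P δ κ p.1 p.2 k) p (0, X) + Complex.I *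
        fderiv ℝ (fun p : Ec n × Ec n => Qh P δ κ p.1 p.2 k) p (0, Complex.I • X))) (z, ζ) :=
      contDiffAt_const.mul ((h3 X).add (contDiffAt_const.mul (h3 (Complex.I • X))))
    have h5 : ContDiffAt ℝ 1 (fun p : Tn n => ((p.1, p.2.2) : Ec n × Ec n)) (z, τ, ζ) := by
      apply ContDiff.contDiffAt
      fun_prop
    have h6 := ContDiffAt.comp (z, τ, ζ) (g := fun p : Ec n × Ec n => (2⁻¹ : ℂ) *
        (fderiv ℝ (fun p : Ec n × Ec n => Qh P δ κ p.1 p.2 k) p (0, X) + Complex.I *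
        fderiv ℝ (fun p : Ec n × Ec n => Qh P δ κ p.1 p.2 k) p (0, Complex.I • X)))
        (f := fun p : Tn n => ((p.1, p.2.2) : Ec n × Ec n)) h4 h5
    refine h6.congr_of_eventuallyEq ?_
    have h7 : ∀ᶠ p in 𝓝 ((z, τ, ζ) : Tn n), p.1 ∈ Wq P U ∧ p.2.2 ∈ Wq P U :=
      ((continuous_fst.tendsto _).eventually (hW.mem_nhds hz)).and
        (((continuous_snd.comp continuous_snd).tendsto _).eventually (hW.mem_nhds hζ))
    filter_upwards [h7] with p hp
    have h8 : DifferentiableAt ℝ (fun p : Ec n × Ec n => Qh P δ κ p.1 p.2 k) (p.1, p.2.2) :=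
      ((Qh_c2 hg hP κ k).contDiffAt ((hW.prod hW).mem_nhds hp)).differentiableAt two_ne_zero
    have h9 : HasFDerivAt (fun y => Qh P δ κ p.1 y k)
        ((fderiv ℝ (fun p : Ec n × Ec n => Qh P δ κ p.1 p.2 k) (p.1, p.2.2)).comp
          (ContinuousLinearMap.inr ℝ (Ec n) (Ec n))) p.2.2 :=
      h8.hasFDerivAt.comp p.2.2 (hasFDerivAt_prodMk_right p.1 p.2.2)
    unfold db
    rw [h9.fderiv]
    rfl
  rw [contDiffAt_pi]
  intro i
  unfold rq
  exact B10_comp (q := 0) hmain i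

theorem B10_Ex_c1 (hg : Geo U δ h c C) (hP : PG P U δ h c C A) (κ : ℝ) {z ζ : Ec n} (τ : ℝ)
    (hz : z ∈ Wq P U) (hζ : ζ ∈ Wq P U) :
    ContDiffAt ℝ 1 (fun p : Tn n => Ex P δ κ p.1 p.2.2) (z, τ, ζ) := by
  have hW := Wq_open hg hP
  have h1 : ContDiffAt ℝ 1 (fun p : Ec n × Ec n => Ex P δ κ p.1 p.2) (z, ζ) :=
    ((Ex_c2 hg hP κ).contDiffAt ((hW.prod hW).mem_nhds ⟨hz, hζ⟩)).of_le one_le_two
  have h5 : ContDiffAt ℝ 1 (fun p : Tn n => ((p.1, p.2.2) : Ec n × Ec n)) (z, τ, ζ) := by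
    apply ContDiff.contDiffAt
    fun_prop
  exact ContDiffAt.comp (z, τ, ζ) (g := fun p : Ec n × Ec n => Ex P δ κ p.1 p.2)
    (f := fun p : Tn n => ((p.1, p.2.2) : Ec n × Ec n)) h1 h5

/-- the set where the weighted kernels are smooth -/
def TsetE (P : PD n) (U : Set (Ec n)) (δ : Ec n → ℝ) (h : Ec n → Ec n → Fin n → ℂ) (ε : ℝ) :
    Set (Tn n) := {p | p.1 ∈ Wq P U ∧ p.2.2 ∈ Wq P U ∧ aa δ h ε p.2.1 p.1 p.2.2 ≠ 0}

/-- PROOF. As `Tset_open`. -/
theorem TsetE_open (hg : Geo U δ h c C) (hP : PG P U δ h c C A) (ε : ℝ) :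
    IsOpen (TsetE P U δ h ε) := by
  have hW := Wq_open hg hP
  have h1 := Tset_open hg (δ := δ) (h := h) ε
  have h2 : IsOpen {p : Tn n | p.1 ∈ Wq P U} := hW.preimage continuous_fst
  have h3 : IsOpen {p : Tn n | p.2.2 ∈ Wq P U} := hW.preimage (continuous_snd.comp continuous_snd)
  have h4 : TsetE P U δ h ε = Tset U δ h ε ∩ ({p : Tn n | p.1 ∈ Wq P U} ∩
      {p : Tn n | p.2.2 ∈ Wq P U}) := by
    ext p
    constructor
    · rintro ⟨h1, h2, h3⟩
      exact ⟨⟨h1.1, h2.1, h3⟩, h1, h2⟩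
    · rintro ⟨⟨_, _, h3⟩, h1, h2⟩
      exact ⟨h1, h2, h3⟩
  rw [h4]
  exact h1.inter (h2.inter h3)

/-- PROOF. As `Kr0_c1`, with `Ex_c2`, `Qh_c2` (`rq` involves the first derivatives of `Qh`). -/
theorem KE0_c1 (hg : Geo U δ h c C) (hP : PG P U δ h c C A) (κ ε : ℝ) :
    ContDiffOn ℝ 1 (fun p : Tn n => KE0 P δ h κ ε p.2.1 p.1 p.2.2) (TsetE P U δ h ε) := by
  rintro ⟨z, τ, ζ⟩ ⟨hz, hζ, ha⟩
  apply ContDiffAt.contDiffWithinAt
  have hW := Wq_open hg hP
  have hE : ContDiffAt ℝ 1 (fun p : Tn n => Complex.exp (Ex P δ κ p.1 p.2.2)) (z, τ, ζ) :=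
    (B10_Ex_c1 hg hP κ τ hz hζ).cexp
  have hF0 := (F0_c2 hg ε hz.1 hζ.1 τ ha).of_le one_le_two
  have hF1 := (F1_c2 hg ε hz.1 hζ.1 τ ha).of_le one_le_two
  have hx := (rx_c2 hg ε 0 hz.1 hζ.1 τ).of_le one_le_two
  have hr : ∀ l : Fin n, ContDiffAt ℝ 1
      (fun p : Tn n => rζ δ h ε Fin.elim0 p.2.1 p.1 p.2.2 (ee l)) (z, τ, ζ) := fun l =>
    rζ_c1 hg ε Fin.elim0 hz.1 hζ.1 τ (ee l)
  have hq : ∀ l : Fin n, ContDiffAt ℝ 1 (fun p : Tn n => rq P δ κ p.1 p.2.2 (ee l)) (z, τ, ζ) :=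
    fun l => B10_rq_c1 hg hP κ τ hz hζ (ee l)
  unfold KE0
  refine hE.mul (ContDiffAt.add ((contDiffAt_const.mul hF0).mul (B10_det hx hr)) (hF1.mul
    (ContDiffAt.sum fun j _ => B10_det hx (B10_upd hr (hq j) j))))

/-- PROOF. As `KE0_c1`. -/
theorem KEk_c1 (hg : Geo U δ h c C) (hP : PG P U δ h c C A) (κ ε : ℝ) (k : Fin n) :
    ContDiffOn ℝ 1 (fun p : Tn n => KEk P δ h κ ε p.2.1 p.1 p.2.2 k) (TsetE P U δ h ε) := by
  rintro ⟨z, τ, ζ⟩ ⟨hz, hζ, ha⟩
  apply ContDiffAt.contDiffWithinAt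
  have hW := Wq_open hg hP
  have hE : ContDiffAt ℝ 1 (fun p : Tn n => Complex.exp (Ex P δ κ p.1 p.2.2)) (z, τ, ζ) :=
    (B10_Ex_c1 hg hP κ τ hz hζ).cexp
  have hF0 := (F0_c2 hg ε hz.1 hζ.1 τ ha).of_le one_le_two
  have hF1 := (F1_c2 hg ε hz.1 hζ.1 τ ha).of_le one_le_two
  have hx := (rx_c2 hg ε 0 hz.1 hζ.1 τ).of_le one_le_two
  have ht := rτ_c1 hg ε 0 hz.1 hζ.1 τ
  have hr : ∀ l : Fin n, ContDiffAt ℝ 1
      (fun p : Tn n => rζ δ h ε Fin.elim0 p.2.1 p.1 p.2.2 (ee l)) (z, τ, ζ) := fun l =>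
    rζ_c1 hg ε Fin.elim0 hz.1 hζ.1 τ (ee l)
  have hq : ∀ l : Fin n, ContDiffAt ℝ 1 (fun p : Tn n => rq P δ κ p.1 p.2.2 (ee l)) (z, τ, ζ) :=
    fun l => B10_rq_c1 hg hP κ τ hz hζ (ee l)
  unfold KEk
  refine hE.mul (ContDiffAt.add ((contDiffAt_const.mul hF0).mul (B10_det hx (B10_upd hr ht k)))
    (hF1.mul (ContDiffAt.sum fun j _ => B10_det hx (B10_upd (B10_upd hr (hq j) j) ht k))))

end Pool.Agent.MPca0fc2.FD
end
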