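import Pool.Agent.Lib.MP_ca0fc2_an.Mg.G045
import Pool.Agent.Lib.MP_ca0fc2_an.Mg.G059

section

/-! Volume of anisotropic neighbourhoods. -/

set_option autoImplicit false

open Metric Set MeasureTheory Filter Topology

namespace Pool.Agent.MPca0fc2.BE

open Pool.Agent.MPca0fc2.FD

theorem V_finrank (n : ℕ) : Module.finrank ℝ (Ec n) = 2 * n := by
  have h := finrank_real_of_complex (Ec n)
  rw [h, finrank_euclideanSpace, Fintype.card_fin]

theorem V_sum (n : ℕ) (M : ℝ) (a : Fin n → ℂ) (ha : ∀ k, ‖a k‖ ≤ M) (X : Ec n) :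
    ‖∑ k, a k * X k‖ ≤ |M| * n * ‖X‖ := by
  calc ‖∑ k, a k * X k‖ ≤ ∑ k, ‖a k * X k‖ := norm_sum_le _ _
    _ ≤ ∑ _k : Fin n, |M| * ‖X‖ := by
        refine Finset.sum_le_sum fun k _ => ?_
        rw [norm_mul]
        exact mul_le_mul ((ha k).trans (le_abs_self M)) (PiLp.norm_apply_le X k) (norm_nonneg _)
          (abs_nonneg _)
    _ = |M| * n * ‖X‖ := by
        rw [Finset.sum_const, Finset.card_univ, Fintype.card_fin, nsmul_eq_mul]
        ring

theorem V_lin (n : ℕ) (a : Fin n → ℂ) (X Y : Ec n) :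
    ∑ k, a k * (X - Y) k = ∑ k, a k * X k - ∑ k, a k * Y k := by
  rw [← Finset.sum_sub_distrib]
  refine Finset.sum_congr rfl fun k _ => ?_
  show a k * (X k - Y k) = _
  ring

theorem V_floor {x y : ℝ} (h : ⌊x⌋ = ⌊y⌋) : |x - y| < 1 := by
  have h1 := Int.floor_le x
  have h2 := Int.lt_floor_add_one x
  have h3 := Int.floor_le y
  have h4 := Int.lt_floor_add_one y
  rw [h] at h1 h2
  rw [abs_lt]
  constructor <;> linarith

/-- PROOF. Let `ℓ X = ∑ a k * X k`, so `‖ℓ X‖ ≤ M √n ‖X‖`, `E = {‖X‖² < t, ‖ℓ X‖ < t}`, `B = {‖X‖² < t / 4}`.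
For integers `i, j` let `B_ij` be the set of the `X ∈ B` with `⌊2 Re ℓ X / t⌋ = i`, `⌊2 Im ℓ X / t⌋ = j`. If `X, Y ∈ B_ij`
then `X - Y ∈ E` (`‖ℓ X - ℓ Y‖ < √2 t / 2 < t`, `‖X - Y‖ < √t`), so `volume B_ij ≤ volume E` (translate by a point of
`B_ij`, if there is one). On `B`: `‖ℓ X‖ ≤ M √n √t / 2`, so only `|i|, |j| ≤ K := ⌈M √n / √t⌉ + 1` occur:
`volume B ≤ (2 K + 1)² volume E ≤ (C / t) volume E`, and `volume B = C' t ^ n` (`EuclideanSpace.volume_ball` or
`Measure.addHaar_ball`). -/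
theorem vol_lower (n : ℕ) (M T : ℝ) : ∃ b > 0, ∀ a : Fin n → ℂ, (∀ k, ‖a k‖ ≤ M) →
    ∀ t, 0 < t → t ≤ T →
    b * t ^ (n + 1) ≤ volume.real {X : Ec n | ‖X‖ ^ 2 < t ∧ ‖∑ k, a k * X k‖ < t} := by
  have hv1 : 0 < volume.real (ball (0 : Ec n) 1) := by
    rw [measureReal_def]
    exact ENNReal.toReal_pos (measure_ball_pos _ _ one_pos).ne' measure_ball_lt_top.ne
  set v1 := volume.real (ball (0 : Ec n) 1) with hv1d
  set C0 : ℝ := (2 * |M| * n + 3 * √T) ^ 2 + 1 with hC0
  have hC0p : 0 < C0 := by positivity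
  refine ⟨v1 / (4 ^ n * C0), by positivity, fun a ha t ht htT => ?_⟩
  set E : Set (Ec n) := {X : Ec n | ‖X‖ ^ 2 < t ∧ ‖∑ k, a k * X k‖ < t} with hE
  have hst : 0 < √t := Real.sqrt_pos.2 ht
  have hst2 : √t * √t = t := Real.mul_self_sqrt ht.le
  have hsT : √t ≤ √T := Real.sqrt_le_sqrt htT
  -- E has finite volume
  have hEfin : volume E ≠ ⊤ := by
    have hsub : E ⊆ ball 0 √t := by
      intro X hX
      rw [mem_ball_zero_iff]
      refine lt_of_pow_lt_pow_left₀ 2 hst.le ?_
      rw [Real.sq_sqrt ht.le]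
      exact hX.1
    exact ((measure_mono hsub).trans_lt measure_ball_lt_top).ne
  set B : Set (Ec n) := ball 0 (√t / 2) with hB
  set R : ℝ := |M| * n / √t with hR
  have hR0 : 0 ≤ R := by positivity
  set K : ℤ := ⌈R⌉ with hK
  have hK0 : 0 ≤ K := Int.ceil_nonneg hR0
  set L : Ec n → ℂ := fun X => ∑ k, a k * X k with hL
  set Bij : ℤ × ℤ → Set (Ec n) := fun p =>
    {X | X ∈ B ∧ ⌊2 * (L X).re / t⌋ = p.1 ∧ ⌊2 * (L X).im / t⌋ = p.2} with hBij
  set S : Finset (ℤ × ℤ) := Finset.Icc (-K) K ×ˢ Finset.Icc (-K) K with hS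
  have hfl : ∀ y : ℝ, |y| ≤ R → ⌊y⌋ ∈ Finset.Icc (-K) K := by
    intro y hy
    rw [abs_le] at hy
    rw [Finset.mem_Icc]
    constructor
    · rw [Int.le_floor]
      push_cast
      have := Int.le_ceil R
      linarith
    · have h1 := Int.floor_le y
      have h2 := Int.le_ceil R
      have : ((⌊y⌋ : ℤ) : ℝ) ≤ ((K : ℤ) : ℝ) := by rw [hK]; linarith
      exact_mod_cast this
  have hcov : B ⊆ ⋃ p ∈ S, Bij p := by
    intro X hX
    have hXn : ‖X‖ < √t / 2 := mem_ball_zero_iff.1 hX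
    have hLX : ‖L X‖ ≤ |M| * n * (√t / 2) :=
      (V_sum n M a ha X).trans (mul_le_mul_of_nonneg_left hXn.le (by positivity))
    have hq : ∀ y : ℝ, |y| ≤ ‖L X‖ → |2 * y / t| ≤ R := by
      intro y hy
      rw [abs_div, abs_mul, abs_of_pos ht, abs_two, div_le_iff₀ ht, hR]
      calc 2 * |y| ≤ 2 * (|M| * n * (√t / 2)) := by linarith
        _ = |M| * n / √t * (√t * √t) := by field_simp
        _ = |M| * n / √t * t := by rw [hst2]
    rw [mem_iUnion₂]
    refine ⟨(⌊2 * (L X).re / t⌋, ⌊2 * (L X).im / t⌋), ?_, hX, rfl, rfl⟩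
    rw [hS, Finset.mem_product]
    exact ⟨hfl _ (hq _ (Complex.abs_re_le_norm _)), hfl _ (hq _ (Complex.abs_im_le_norm _))⟩
  have hone : ∀ p, volume (Bij p) ≤ volume E := by
    intro p
    rcases (Bij p).eq_empty_or_nonempty with h | ⟨Y, hY⟩
    · rw [h, measure_empty]
      exact zero_le
    · rw [← measure_preimage_add_right volume (-Y) E]
      refine measure_mono fun X hX => ?_
      rw [mem_preimage, ← sub_eq_add_neg]
      have hX1 := mem_ball_zero_iff.1 hX.1
      have hY1 := mem_ball_zero_iff.1 hY.1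
      constructor
      · have h1 : ‖X - Y‖ < √t := (norm_sub_le X Y).trans_lt (by linarith)
        calc ‖X - Y‖ ^ 2 < √t ^ 2 := pow_lt_pow_left₀ h1 (norm_nonneg _) two_ne_zero
          _ = t := Real.sq_sqrt ht.le
      · rw [V_lin]
        have e1 : |2 * (L X).re / t - 2 * (L Y).re / t| < 1 := V_floor (hX.2.1.trans hY.2.1.symm)
        have e2 : |2 * (L X).im / t - 2 * (L Y).im / t| < 1 := V_floor (hX.2.2.trans hY.2.2.symm)
        have key : ∀ u v : ℝ, |2 * u / t - 2 * v / t| < 1 → |u - v| < t / 2 := by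
          intro u v huv
          have : 2 * u / t - 2 * v / t = (u - v) / (t / 2) := by field_simp
          rw [this, abs_div, abs_of_pos (by positivity : (0 : ℝ) < t / 2),
            div_lt_one (by positivity)] at huv
          exact huv
        have f1 := key _ _ e1
        have f2 := key _ _ e2
        have h3 : ‖L X - L Y‖ ≤ |(L X - L Y).re| + |(L X - L Y).im| := Complex.norm_le_abs_re_add_abs_im _
        rw [Complex.sub_re, Complex.sub_im] at h3
        exact h3.trans_lt (by linarith)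
  have hcard : (S.card : ℝ) ≤ C0 / t := by
    rw [hS, Finset.card_product, Int.card_Icc]
    have h1 : ((K + 1 - -K).toNat : ℝ) = 2 * (K : ℝ) + 1 := by
      have : (((K + 1 - -K).toNat : ℤ) : ℝ) = ((2 * K + 1 : ℤ) : ℝ) := by
        rw [Int.toNat_of_nonneg (by omega)]
        push_cast
        ring
      push_cast at this
      exact this
    push_cast
    rw [h1, le_div_iff₀ ht]
    have h2 : (K : ℝ) ≤ R + 1 := (Int.ceil_lt_add_one R).le
    have hKr : (0 : ℝ) ≤ K := by exact_mod_cast hK0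
    have h3 : (2 * (K : ℝ) + 1) * √t ≤ 2 * |M| * n + 3 * √T := by
      calc (2 * (K : ℝ) + 1) * √t ≤ (2 * (R + 1) + 1) * √t := by gcongr
        _ = 2 * (R * √t) + 3 * √t := by ring
        _ = 2 * |M| * n + 3 * √t := by rw [hR, div_mul_cancel₀ _ hst.ne']; ring
        _ ≤ _ := by linarith
    have h4 : 0 ≤ (2 * (K : ℝ) + 1) * √t := by positivity
    calc (2 * (K : ℝ) + 1) * (2 * (K : ℝ) + 1) * t
        = (2 * (K : ℝ) + 1) * (2 * (K : ℝ) + 1) * (√t * √t) := by rw [hst2]
      _ = ((2 * (K : ℝ) + 1) * √t) ^ 2 := by ring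
      _ ≤ (2 * |M| * n + 3 * √T) ^ 2 := pow_le_pow_left₀ h4 h3 2
      _ ≤ C0 := by rw [hC0]; linarith
  have hvB : volume.real B = (t / 4) ^ n * v1 := by
    rw [measureReal_def, hB, Measure.addHaar_ball_of_pos _ _ (by positivity), V_finrank,
      ENNReal.toReal_mul, ENNReal.toReal_ofReal (by positivity), hv1d, measureReal_def, pow_mul]
    congr 2
    rw [div_pow, Real.sq_sqrt ht.le]
    norm_num
  have hle : volume B ≤ (S.card : ENNReal) * volume E := by
    calc volume B ≤ volume (⋃ p ∈ S, Bij p) := measure_mono hcov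
      _ ≤ ∑ p ∈ S, volume (Bij p) := measure_biUnion_finset_le _ _
      _ ≤ ∑ _p ∈ S, volume E := Finset.sum_le_sum fun p _ => hone p
      _ = (S.card : ENNReal) * volume E := by rw [Finset.sum_const, nsmul_eq_mul]
  have hleR : volume.real B ≤ (S.card : ℝ) * volume.real E := by
    rw [measureReal_def, measureReal_def]
    have h1 := ENNReal.toReal_mono (ENNReal.mul_ne_top (ENNReal.natCast_ne_top _) hEfin) hle
    rw [ENNReal.toReal_mul, ENNReal.toReal_natCast] at h1
    exact h1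
  have hfin : (t / 4) ^ n * v1 ≤ C0 / t * volume.real E := by
    rw [← hvB]
    exact hleR.trans (mul_le_mul_of_nonneg_right hcard measureReal_nonneg)
  calc v1 / (4 ^ n * C0) * t ^ (n + 1) = t / C0 * ((t / 4) ^ n * v1) := by
        rw [div_pow, pow_succ]
        field_simp
    _ ≤ t / C0 * (C0 / t * volume.real E) := mul_le_mul_of_nonneg_left hfin (by positivity)
    _ = volume.real E := by field_simp

end Pool.Agent.MPca0fc2.BE
end

section

/-! The mean value property on balanced sets. -/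

set_option autoImplicit false

open Metric Set MeasureTheory Filter Topology

namespace Pool.Agent.MPca0fc2.BE

open Pool.Agent.MPca0fc2.FD

variable {n : ℕ}

/-- Rotations preserve the volume. -/
private theorem circ_mp {c : ℂ} (hc : ‖c‖ = 1) :
    MeasurePreserving (fun y : Ec n => c • y) volume volume := by
  have hc0 : c ≠ 0 := by
    intro h; rw [h, norm_zero] at hc; exact one_ne_zero hc.symm
  let U : Ec n ≃ₗᵢ[ℝ] Ec n :=
    { ((LinearEquiv.smulOfNeZero ℂ (Ec n) c hc0).restrictScalars ℝ) with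
      norm_map' := fun y => by
        show ‖c • y‖ = ‖y‖
        rw [norm_smul, hc, one_mul] }
  exact (U.measurePreserving : MeasurePreserving U volume volume)

/-- The weighted mean value property of holomorphic functions on a balanced open set. -/
private theorem circ_mean_aux {S : Set (Ec n)} (hSo : IsOpen S) (hSf : volume S < ⊤)
    (hS : ∀ c : ℂ, ‖c‖ ≤ 1 → ∀ v ∈ S, c • v ∈ S) {W : Ec n → ℝ} {ψ : Ec n → ℂ} {M MW : ℝ}
    (hW : Continuous W) (hWr : ∀ c : ℂ, ‖c‖ = 1 → ∀ v, W (c • v) = W v)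
    (hMW : ∀ v ∈ S, ‖W v‖ ≤ MW)
    (hψ : DifferentiableOn ℂ ψ S) (hM : ∀ y ∈ S, ‖ψ y‖ ≤ M) :
    ∫ y in S, ψ y * (W y : ℂ) = ((∫ y in S, W y : ℝ) : ℂ) * ψ 0 := by
  rcases S.eq_empty_or_nonempty with hS0 | ⟨v0, hv0⟩
  · rw [hS0]; simp
  have hM0 : 0 ≤ M := (norm_nonneg _).trans (hM v0 hv0)
  have hSm : MeasurableSet S := hSo.measurableSet
  have hrot : ∀ θ : ℝ, ∫ y in S, ψ (circleMap 0 1 θ • y) * (W y : ℂ) =
      ∫ y in S, ψ y * (W y : ℂ) := by
    intro θ
    have hc : ‖circleMap 0 1 θ‖ = 1 := by simp [circleMap]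
    have hc0 : circleMap 0 1 θ ≠ 0 := by
      intro h; rw [h, norm_zero] at hc; exact one_ne_zero hc.symm
    have hmp := circ_mp (n := n) hc
    have hpre : (fun y : Ec n => circleMap 0 1 θ • y) ⁻¹' S = S := by
      ext y
      constructor
      · intro hy
        have := hS (circleMap 0 1 θ)⁻¹ (by rw [norm_inv, hc, inv_one]) _ hy
        rwa [smul_smul, inv_mul_cancel₀ hc0, one_smul] at this
      · intro hy
        exact hS _ hc.le _ hy
    have hemb : MeasurableEmbedding (fun y : Ec n => circleMap 0 1 θ • y) :=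
      (Homeomorph.smulOfNeZero _ hc0 : Ec n ≃ₜ Ec n).measurableEmbedding
    have := hmp.setIntegral_preimage_emb hemb (fun y => ψ y * (W y : ℂ)) S
    rw [hpre] at this
    rw [← this]
    apply setIntegral_congr_fun hSm
    intro y _
    simp only [hWr _ hc]
  have hswap : ∫ θ in (0 : ℝ)..(2 * Real.pi), ∫ y in S,
      ψ (circleMap 0 1 θ • y) * (W y : ℂ) =
      ∫ y in S, (∫ θ in (0 : ℝ)..(2 * Real.pi),
        ψ (circleMap 0 1 θ • y) * (W y : ℂ)) := by
    have h2pi : (0 : ℝ) ≤ 2 * Real.pi := by positivity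
    simp only [intervalIntegral.integral_of_le h2pi]
    apply integral_integral_swap
    have hfin : IsFiniteMeasure ((volume.restrict (Ioc (0 : ℝ) (2 * Real.pi))).prod
        ((volume : Measure (Ec n)).restrict S)) := by
      have : IsFiniteMeasure (volume.restrict (Ioc (0 : ℝ) (2 * Real.pi))) :=
        ⟨by rw [Measure.restrict_apply_univ]; exact measure_Ioc_lt_top⟩
      have : IsFiniteMeasure ((volume : Measure (Ec n)).restrict S) :=
        ⟨by rw [Measure.restrict_apply_univ]; exact hSf⟩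
      infer_instance
    have hmap : ∀ θ : ℝ, ∀ y ∈ S, circleMap 0 1 θ • y ∈ S := by
      intro θ y hy
      exact hS _ (by simp [circleMap]) _ hy
    have hcont : ContinuousOn (Function.uncurry fun (θ : ℝ) (y : Ec n) =>
        ψ (circleMap 0 1 θ • y) * (W y : ℂ))
        (Ioc (0 : ℝ) (2 * Real.pi) ×ˢ S) := by
      apply ContinuousOn.mul
      · apply hψ.continuousOn.comp
        · apply Continuous.continuousOn
          exact ((continuous_circleMap 0 1).comp continuous_fst).smul continuous_snd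
        · rintro ⟨θ, y⟩ ⟨_, hy⟩
          exact hmap θ y hy
      · apply Continuous.continuousOn
        exact Complex.continuous_ofReal.comp (hW.comp continuous_snd)
    rw [Measure.prod_restrict]
    rw [Measure.prod_restrict] at hfin
    refine Integrable.mono' (g := fun _ => M * MW) (integrable_const _)
      (hcont.aestronglyMeasurable (measurableSet_Ioc.prod hSm)) ?_
    refine (ae_restrict_iff' (measurableSet_Ioc.prod hSm)).mpr
      (Eventually.of_forall ?_)
    rintro ⟨θ, y⟩ ⟨_, hy⟩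
    show ‖ψ (circleMap 0 1 θ • y) * (W y : ℂ)‖ ≤ M * MW
    rw [norm_mul, Complex.norm_real]
    exact mul_le_mul (hM _ (hmap θ y hy)) (hMW y hy) (norm_nonneg _) hM0
  have hmean : ∀ y ∈ S, ∫ θ in (0 : ℝ)..(2 * Real.pi),
      ψ (circleMap 0 1 θ • y) * (W y : ℂ) = (2 * Real.pi : ℝ) • ((W y : ℂ) * ψ 0) := by
    intro y hy
    have hd : DiffContOnCl ℂ (fun t : ℂ => ψ (t • y)) (ball 0 |1|) := by
      rw [abs_one]
      have hd' : DifferentiableOn ℂ (fun t : ℂ => ψ (t • y)) {t | t • y ∈ S} := by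
        apply hψ.comp
        · exact (differentiable_id.smul_const y).differentiableOn
        · intro t ht
          exact ht
      refine hd'.diffContOnCl_ball ?_
      intro t ht
      rw [mem_closedBall_zero_iff] at ht
      exact hS t ht y hy
    have h := hd.circleAverage
    rw [Real.circleAverage_def] at h
    simp only [zero_smul] at h
    rw [← h, intervalIntegral.integral_mul_const, Complex.real_smul, Complex.real_smul]
    have hp : (Real.pi : ℂ) ≠ 0 := by exact_mod_cast Real.pi_ne_zero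
    push_cast
    field_simp
  have h1 : ∫ θ in (0 : ℝ)..(2 * Real.pi), ∫ y in S,
      ψ (circleMap 0 1 θ • y) * (W y : ℂ) =
      (2 * Real.pi : ℝ) • ∫ y in S, ψ y * (W y : ℂ) := by
    simp only [hrot, intervalIntegral.integral_const, sub_zero]
  rw [h1, setIntegral_congr_fun hSm hmean, integral_smul] at hswap
  have h2 : (2 * Real.pi : ℝ) ≠ 0 := by positivity
  have h3 := congrArg (fun t => (2 * Real.pi : ℝ)⁻¹ • t) hswap
  simp only [smul_smul, inv_mul_cancel₀ h2, one_smul] at h3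
  rw [h3, integral_mul_const, integral_complex_ofReal]

/-- PROOF. For real `θ` the map `X ↦ exp(iθ) X` is a linear isometry of `Ec n` which maps `E` onto `E`, so
`∫_E g(z + exp(iθ) X) dX = ∫_E g(z + X) dX`. Integrate over `θ ∈ (0, 2π)` and exchange the integrals (`g` is bounded and
continuous on the open set `z + E`; the integrand is bounded, `E` has finite volume); for fixed `X ∈ E` the function
`u ↦ g(z + u X)` is holomorphic on a neighbourhood of the closed unit disc (`E` is open and balanced), so its mean over the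
circle is `g z` (`Complex.circleIntegral...`, `circleAverage`). Hence `volume E * g z = ∫_E g(z + X) dX`. -/
theorem circ_mean {E : Set (Ec n)} (hE : IsOpen E) (hEb : Bornology.IsBounded E)
    (hEc : ∀ X ∈ E, ∀ u : ℂ, ‖u‖ ≤ 1 → u • X ∈ E) {z : Ec n} {W : Set (Ec n)} (hW : IsOpen W)
    (hEW : ∀ X ∈ E, z + X ∈ W) {g : Ec n → ℂ} (hg : DifferentiableOn ℂ g W) {M : ℝ}
    (hM : ∀ w ∈ W, ‖g w‖ ≤ M) :
    volume.real E * ‖g z‖ ≤ ∫ X in E, ‖g (z + X)‖ := by
  rcases E.eq_empty_or_nonempty with rfl | ⟨X₀, hX₀⟩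
  · simp
  have h0 : (0 : Ec n) ∈ E := by
    have := hEc X₀ hX₀ 0 (by simp)
    rwa [zero_smul] at this
  have hfin : volume E < ⊤ := hEb.measure_lt_top
  have hd : DifferentiableOn ℂ (fun X => g (z + X)) E :=
    hg.comp ((differentiable_id.const_add z).differentiableOn) hEW
  have h := circ_mean_aux (n := n) hE hfin (fun c hc v hv => hEc v hv c hc) (W := fun _ => 1)
    (ψ := fun X => g (z + X)) (M := M) (MW := 1) continuous_const (fun _ _ _ => rfl)
    (fun _ _ => by simp) hd (fun X hX => hM _ (hEW X hX))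
  have h1 : (∫ _ in E, (1 : ℝ)) = volume.real E := by simp
  rw [h1] at h
  simp only [Complex.ofReal_one, mul_one, add_zero] at h
  have h2 : volume.real E * ‖g z‖ = ‖((volume.real E : ℝ) : ℂ) * g z‖ := by
    rw [norm_mul, Complex.norm_real, Real.norm_of_nonneg measureReal_nonneg]
  rw [h2, ← h]
  exact norm_integral_le_integral_norm _

end Pool.Agent.MPca0fc2.BE
end

section

/-! The tame functions near a boundary point. -/

set_option autoImplicit false

open Metric Set

namespace Pool.Agent.Lib.MP_ca0fc2_an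

variable {n : ℕ}

/-- A family of holomorphic functions `V i` on `B` with the sizes `N i` and the masses `w i`:
`|V i| ≤ K` on `B`, and on `D ∩ B`, with the distance `d` to the complement of `D`,
`Re V i ≥ (N i + d) / K` and `∑ w_i N_i d / |V_i|² ≤ K` (a Carleson condition). For example, on the
unit ball, `V i = 1 - ⟨z, a i⟩`, `N i = 1 - |a i|²`. -/
structure CarlFam (D B : Set (EuclideanSpace ℂ (Fin n))) (K : ℝ)
    (V : ℕ → EuclideanSpace ℂ (Fin n) → ℂ) (N w : ℕ → ℝ) : Prop where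
  pos : ∀ i, 0 < N i ∧ 0 ≤ w i
  hol : ∀ i, DifferentiableOn ℂ (V i) B
  bdd : ∀ i, ∀ z ∈ B, ‖V i z‖ ≤ K
  re : ∀ i, ∀ z ∈ D ∩ B, N i + infDist z Dᶜ ≤ K * (V i z).re
  carl : ∀ z ∈ D ∩ B, ∀ m : ℕ,
    ∑ i ∈ Finset.range m, w i * N i * infDist z Dᶜ / ‖V i z‖ ^ 2 ≤ K

/-- The bounded holomorphic functions `u` on `D ∩ B` whose invariant gradient satisfies a Carleson
condition: for every holomorphic map `φ` of the unit disc into `D ∩ B`,
`|(u ∘ φ)'(0)|^p ≤ ∑ w_i N_i² d^(1/4) / |V_i|^(9/4)` at the point `φ 0`, for some `p ≥ 1` and some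
family `V i`, `N i`, `w i` as above (`d` is the distance to the complement of `D`). -/
def CarlOn (D B : Set (EuclideanSpace ℂ (Fin n))) : Set (EuclideanSpace ℂ (Fin n) → ℂ) :=
  {u | IsHinf (D ∩ B) u ∧ ∃ (K p : ℝ) (V : ℕ → EuclideanSpace ℂ (Fin n) → ℂ) (N w : ℕ → ℝ),
    1 ≤ p ∧ CarlFam D B K V N w ∧
    ∀ φ : ℂ → EuclideanSpace ℂ (Fin n), DifferentiableOn ℂ φ (ball 0 1) →
      (∀ x ∈ ball (0 : ℂ) 1, φ x ∈ D ∩ B) →
      ‖deriv (fun x => u (φ x)) 0‖ ^ p ≤
        ∑' i, w i * N i ^ 2 * (infDist (φ 0) Dᶜ ^ (1 / 4 : ℝ) / ‖V i (φ 0)‖ ^ (9 / 4 : ℝ))}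

/-- The slowly oscillating functions on `D ∩ B`: `d |∇u| ≤ ω(d)`, `d` the distance to the complement
of `D`, where `ω (t) / t` is decreasing and `∫₀¹ exp (- c / ω (t)) dt / t` is finite for all
`c > 0`. -/
def SlowLoc (D B : Set (EuclideanSpace ℂ (Fin n))) : Set (EuclideanSpace ℂ (Fin n) → ℂ) :=
  {u | IsHinf (D ∩ B) u ∧ ∃ ω : ℝ → ℝ, Rate ω ∧ AntitoneOn (fun t => ω t / t) (Ioo 0 1) ∧
    ∀ z ∈ D ∩ B, infDist z Dᶜ < 1 → infDist z Dᶜ * ‖fderiv ℂ u z‖ ≤ ω (infDist z Dᶜ)}

/-- the tame functions on `D ∩ B` -/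
def TameOn (D B : Set (EuclideanSpace ℂ (Fin n))) : Set (EuclideanSpace ℂ (Fin n) → ℂ) :=
  CarlOn D B ∪ SlowLoc D B

end Pool.Agent.Lib.MP_ca0fc2_an
end
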