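import Pool.Agent.Lib.MP_ca0fc2_an.Mg.G045
import Pool.Agent.Lib.MP_ca0fc2_an.Mg.G002
import Pool.Agent.Lib.MP_ca0fc2_an.Mg.G059
import Pool.Agent.Lib.MP_ca0fc2_an.DADefs

section

/-! A partition of an open set into small pieces. -/

set_option autoImplicit false

open Metric Set MeasureTheory Filter Topology

namespace Pool.Agent.MPca0fc2.BE

open Pool.Agent.MPca0fc2.FD

variable {n : ℕ}

/-- PROOF. For `x ∈ D` the set `O x = {w ∈ D | ‖w - x‖ < g w}` is open (`g` is continuous on the open set `D`) and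
contains `x`. By Lindelöf (`TopologicalSpace.isOpen_iUnion_countable` or `countable_cover_nhdsWithin`) countably many of
them cover `D`; enumerate them by `ℕ` (`D` is nonempty) and take `disjointed`. -/
theorem exists_partition {D : Set (Ec n)} (hD : IsOpen D) (hne : D.Nonempty) {g : Ec n → ℝ}
    (hg : ContinuousOn g D) (hg0 : ∀ z ∈ D, 0 < g z) :
    ∃ (x : ℕ → Ec n) (A : ℕ → Set (Ec n)), (∀ i, x i ∈ D) ∧ (∀ i, MeasurableSet (A i)) ∧
      Pairwise (Function.onFun Disjoint A) ∧ ⋃ i, A i = D ∧ ∀ i, ∀ w ∈ A i, ‖w - x i‖ < g w := by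
  classical
  let O : Ec n → Set (Ec n) := fun x => {w | w ∈ D ∧ ‖w - x‖ < g w}
  have hO : ∀ x, IsOpen (O x) := by
    intro x
    have h1 : ContinuousOn (fun w => g w - ‖w - x‖) D :=
      hg.sub ((continuous_id.sub continuous_const).norm.continuousOn)
    have h2 := h1.isOpen_inter_preimage hD (isOpen_Ioi (a := (0 : ℝ)))
    have h3 : O x = D ∩ (fun w => g w - ‖w - x‖) ⁻¹' Ioi 0 := by
      ext w
      simp only [O, mem_ofPred_eq, mem_inter_iff, mem_preimage, mem_Ioi, sub_pos]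
    rw [h3]
    exact h2
  have hmem : ∀ x ∈ D, x ∈ O x := fun x hx => ⟨hx, by simpa using hg0 x hx⟩
  obtain ⟨T, hTc, hT⟩ := TopologicalSpace.isOpen_iUnion_countable (fun x : D => O x.1)
    (fun x => hO x.1)
  have hU : ⋃ i ∈ T, O (i : Ec n) = D := by
    rw [hT]
    apply Subset.antisymm
    · exact iUnion_subset fun i w hw => hw.1
    · intro w hw
      exact mem_iUnion.2 ⟨⟨w, hw⟩, hmem w hw⟩
  have hTne : T.Nonempty := by
    obtain ⟨w, hw⟩ := hne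
    rw [← hU] at hw
    simp only [mem_iUnion] at hw
    obtain ⟨i, hi, -⟩ := hw
    exact ⟨i, hi⟩
  obtain ⟨e, he⟩ := hTc.exists_eq_range hTne
  refine ⟨fun i => (e i).1, disjointed (fun i => O (e i).1), fun i => (e i).2, fun i => ?_,
    disjoint_disjointed _, ?_, fun i w hw => ?_⟩
  · exact MeasurableSet.disjointed (fun j => (hO _).measurableSet) i
  · rw [iUnion_disjointed]
    refine Eq.trans ?_ hU
    rw [he]
    simp only [mem_range, iUnion_exists, iUnion_iUnion_eq']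
  · exact (disjointed_subset _ _ hw).2

end Pool.Agent.MPca0fc2.BE
end

section

/-! General densities and general weights for the kernels of the folder `FD`. -/

set_option autoImplicit false

open Metric Set MeasureTheory Filter Topology

namespace Pool.Agent.MPca0fc2.GW

open Pool.Agent.MPca0fc2.FD

variable {n : ℕ}

/-- the exponent of the weight with the vector `Q` -/
noncomputable def wEx (Q : Ec n → Ec n → Fin n → ℂ) (z ζ : Ec n) : ℂ :=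
  -∑ k, Q z ζ k * (ζ k - z k)

/-- the row of the weight in the direction `X` of `ζ` -/
noncomputable def wrq (Q : Ec n → Ec n → Fin n → ℂ) (z ζ X : Ec n) : Fin (n + 0 + 1) → ℂ :=
  sn (Fin.append (fun k => db (fun y => Q z y k) ζ X) (0 : Fin 0 → ℂ)) 0

/-- the weighted kernel without the direction `τ` -/
noncomputable def wKE0 (Q : Ec n → Ec n → Fin n → ℂ) (δ : Ec n → ℝ)
    (h : Ec n → Ec n → Fin n → ℂ) (ε τ : ℝ) (z ζ : Ec n) : ℂ :=
  Complex.exp (wEx Q z ζ) * ((2 * n + 8) * F0 δ h ε τ z ζ *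
      Matrix.det (cn (rx δ h ε 0 τ z ζ) (fun l : Fin n => rζ δ h ε Fin.elim0 τ z ζ (ee l))) +
    F1 δ h ε τ z ζ * ∑ j : Fin n, Matrix.det (cn (rx δ h ε 0 τ z ζ)
      (Function.update (fun l : Fin n => rζ δ h ε Fin.elim0 τ z ζ (ee l)) j
        (wrq Q z ζ (ee j)))))

/-- the weighted kernel with the direction `τ` in the place `k` -/
noncomputable def wKEk (Q : Ec n → Ec n → Fin n → ℂ) (δ : Ec n → ℝ)
    (h : Ec n → Ec n → Fin n → ℂ) (ε τ : ℝ) (z ζ : Ec n) (k : Fin n) : ℂ :=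
  Complex.exp (wEx Q z ζ) * ((2 * n + 8) * F0 δ h ε τ z ζ *
      Matrix.det (cn (rx δ h ε 0 τ z ζ) (Function.update
        (fun l : Fin n => rζ δ h ε Fin.elim0 τ z ζ (ee l)) k (rτ δ h ε 0 z ζ))) +
    F1 δ h ε τ z ζ * ∑ j ∈ Finset.univ.erase k, Matrix.det (cn (rx δ h ε 0 τ z ζ)
      (Function.update (Function.update (fun l : Fin n => rζ δ h ε Fin.elim0 τ z ζ (ee l)) j
        (wrq Q z ζ (ee j))) k (rτ δ h ε 0 z ζ))))

section ops

variable {V : Type*} [NormedAddCommGroup V] [NormedSpace ℂ V]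

/-- the weighted projection -/
noncomputable def wPE (Q : Ec n → Ec n → Fin n → ℂ) (U : Set (Ec n)) (δ : Ec n → ℝ)
    (h : Ec n → Ec n → Fin n → ℂ) (N : Ec n → V) (z : Ec n) : V :=
  (kn n / (2 * n + 8)) • ∫ ζ in Om U δ, wKE0 Q δ h 1 1 z ζ • N ζ

/-- the weighted approximate identity -/
noncomputable def wRE (Q : Ec n → Ec n → Fin n → ℂ) (U : Set (Ec n)) (δ : Ec n → ℝ)
    (h : Ec n → Ec n → Fin n → ℂ) (ε : ℝ) (N : Ec n → V) (z : Ec n) : V :=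
  (kn n / (2 * n + 8)) • ∫ ζ in Om U δ, wKE0 Q δ h ε 0 z ζ • N ζ

/-- the weighted homotopy operator -/
noncomputable def wSE (Q : Ec n → Ec n → Fin n → ℂ) (U : Set (Ec n)) (δ : Ec n → ℝ)
    (h : Ec n → Ec n → Fin n → ℂ) (ε : ℝ) (N : Ec n → V) (z : Ec n) : V :=
  (kn n / (2 * n + 8)) • ∫ p in Icc (0 : ℝ) 1 ×ˢ Om U δ,
    ∑ k, wKEk Q δ h ε p.1 z p.2 k • db N p.2 (ee k)

/-- forms bounded by the density `G` -/
def Bg (U : Set (Ec n)) (δ : Ec n → ℝ) (h : Ec n → Ec n → Fin n → ℂ) (G : Ec n → ℝ) (B : ℝ)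
    {q : ℕ} (η : Fm n q V) : Prop :=
  ∀ z ∈ Om U δ, ∀ X : Fin q → Ec n, ‖ev η z X‖ ≤ B * G z * ∏ i, gau δ h z (X i)

end ops

/-- The regularity of the weight vector `Q` on the open set `W`: it is of class `C²`, holomorphic in
`z`, and its `∂̄`-derivative in `ζ` is `R ∂̄δ`, with `R` holomorphic in `z`. -/
structure WQ (W : Set (Ec n)) (δ : Ec n → ℝ) (Q R : Ec n → Ec n → Fin n → ℂ) : Prop where
  opn : IsOpen W
  c2 : ∀ k, ContDiffOn ℝ 2 (fun p : Ec n × Ec n => Q p.1 p.2 k) (W ×ˢ W)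
  hol : ∀ ζ ∈ W, ∀ k, DifferentiableOn ℂ (fun z => Q z ζ k) W
  dbQ : ∀ z ∈ W, ∀ ζ ∈ W, ∀ (X : Ec n) (k : Fin n),
    db (fun y => Q z y k) ζ X = db (fun y => (δ y : ℂ)) ζ X * R z ζ k
  Rhol : ∀ ζ ∈ W, ∀ k, DifferentiableOn ℂ (fun z => R z ζ k) W

/-- The properties of the density `G`. -/
structure GD (U : Set (Ec n)) (δ : Ec n → ℝ) (h : Ec n → Ec n → Fin n → ℂ) (G : Ec n → ℝ)
    (A : ℝ) : Prop where
  A1 : 1 ≤ A
  lo : ∀ z ∈ Om U δ, (δ z) ^ (1 / 4 : ℝ) ≤ A * G z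
  up : ∀ z ∈ Om U δ, G z ≤ A
  har : ∀ z ∈ Om U δ, ∀ ζ ∈ Om U δ, G ζ ≤
    A * (‖vv δ h z ζ‖ / δ ζ) ^ 3 * (max (δ ζ / δ z) (δ z / δ ζ)) ^ (3 / 8 : ℝ) * G z

/-- The properties of the weight `Q`, relative to the density `G`. -/
structure GX (U : Set (Ec n)) (δ : Ec n → ℝ) (h : Ec n → Ec n → Fin n → ℂ) (G : Ec n → ℝ)
    (Q R : Ec n → Ec n → Fin n → ℂ) (C A : ℝ) : Prop where
  rb : ∀ z ∈ Om U δ, ∀ ζ ∈ Om U δ,
    δ ζ * ‖vv δ h z ζ‖ * ‖R z ζ‖ ≤ A * (‖vv δ h z ζ‖ / δ ζ) ^ 2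
  ex : ∀ z ∈ Om U δ, ∃ Γ : ℕ → ℝ, (∀ l, 0 ≤ Γ l) ∧
    ∑' l, ENNReal.ofReal (Γ l) ≤ ENNReal.ofReal A ∧
    ∀ l : ℕ, ∀ ζ ∈ Om U δ, C / 2 ^ (l + 1) < δ ζ → δ ζ ≤ C / 2 ^ l →
      ‖Complex.exp (wEx Q z ζ)‖ * G ζ ≤ (‖vv δ h z ζ‖ / δ ζ) ^ 5 * Γ l

/-- the density on the smaller domain `{δ > s}` -/
noncomputable def Gs (G δ : Ec n → ℝ) (s : ℝ) (z : Ec n) : ℝ :=
  G z * ((δ z - s) / δ z) ^ (1 / 4 : ℝ)

end Pool.Agent.MPca0fc2.GW
end

section

/-! Compositions of multipliers and of functions with Carleson gradients on balls with holomorphic maps. -/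

set_option autoImplicit false

open Metric Set MeasureTheory
open scoped InnerProductSpace

namespace Pool.Agent.Lib.MP_ca0fc2_an

variable {n : ℕ}

/-- The functions `u = g ∘ Q` on `D ∩ B`, where `Q` is a holomorphic map of `B` into `ℂᵏ` for some
`k`, `|Q| < 1` on `D ∩ B`, and `g` is a multiplier of the Drury-Arveson space of the unit ball of
`ℂᵏ`, or a bounded holomorphic function on this ball whose invariant gradient satisfies the Carleson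
condition `GradCarleson`. -/
def CompOn (D B : Set (EuclideanSpace ℂ (Fin n))) : Set (EuclideanSpace ℂ (Fin n) → ℂ) :=
  {u | ∃ (k : ℕ) (Q : EuclideanSpace ℂ (Fin n) → EuclideanSpace ℂ (Fin k))
    (g : EuclideanSpace ℂ (Fin k) → ℂ) (K p : ℝ), 1 ≤ p ∧ DifferentiableOn ℂ Q B ∧
    (∀ z ∈ D ∩ B, ‖Q z‖ < 1) ∧ (DAMultiplier K g ∨ GradCarleson p K g) ∧
    ∀ z ∈ D ∩ B, u z = g (Q z)}

end Pool.Agent.Lib.MP_ca0fc2_an
end

section

/-! Levels and dilations in convex domains: the definitions. -/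

set_option autoImplicit false

open Metric Set MeasureTheory Filter Topology

namespace Pool.Agent.MPca0fc2.GW

open Pool.Agent.MPca0fc2.FD

variable {n : ℕ}

/-- the scale of the level `k` -/
noncomputable def ek (k : ℕ) : ℝ := (1 / 2) ^ k

/-- the function of the level `k` -/
noncomputable def dk (δ : Ec n → ℝ) (c : ℝ) (k : ℕ) (w : Ec n) : ℝ := δ w + c / 4 * ek k

/-- the domain of the level `k` -/
def Dk (U : Set (Ec n)) (δ : Ec n → ℝ) (c : ℝ) (k : ℕ) : Set (Ec n) :=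
  Om U (fun w => δ w + c / 8 * ek k)

/-- dilation -/
noncomputable def dil (s : ℝ) (w : Ec n) : Ec n := ((1 - s : ℝ) : ℂ) • w

/-- the dilated function of the level `k` -/
noncomputable def uk (u : Ec n → ℂ) (k : ℕ) (w : Ec n) : ℂ := u (dil (ek k) w)

/-- Convex domains `{z ∈ U | 0 < δ z}`, `δ` concave, with the centre `0`. The domains `{δ + t > 0}` for
`0 ≤ t ≤ c / 2` are also domains of the class `Geo`. -/
structure CD (U : Set (Ec n)) (δ : Ec n → ℝ) (h : Ec n → Ec n → Fin n → ℂ) (c C : ℝ) : Prop where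
  geo : Geo U (fun z => δ z + c / 2) h c C
  cvx : Convex ℝ U
  ccv : ConcaveOn ℝ U δ
  zero : (0 : Ec n) ∈ U
  cen : c ≤ δ 0

end Pool.Agent.MPca0fc2.GW
end

section

/-! Potentials of finitely many holomorphic functions with positive real part. -/

set_option autoImplicit false

open Metric Set MeasureTheory Filter Topology

namespace Pool.Agent.MPca0fc2.GW

open Pool.Agent.MPca0fc2.FD

variable {n : ℕ}

/-- finitely many functions `V`, with Hefer functions `H`, sizes `N` and weights `w` -/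
structure PS (n : ℕ) where
  R : ℕ
  V : Fin R → Ec n → ℂ
  H : Fin R → Ec n → Ec n → Fin n → ℂ
  N : Fin R → ℝ
  w : Fin R → ℝ

/-- the hypotheses -/
structure PA (P : PS n) (U : Set (Ec n)) (δ : Ec n → ℝ) (h : Ec n → Ec n → Fin n → ℂ) (A : ℝ) :
    Prop where
  A1 : 1 ≤ A
  hol : ∀ x, DifferentiableOn ℂ (P.V x) U
  Hhol : ∀ x, DifferentiableOn ℂ (fun p : Ec n × Ec n => P.H x p.1 p.2) (U ×ˢ U)
  Hb : ∀ x, ∀ z ∈ U, ∀ ζ ∈ U, ‖P.H x z ζ‖ ≤ A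
  hef : ∀ x, ∀ z ∈ U, ∀ ζ ∈ U, P.V x z - P.V x ζ = ∑ k, P.H x z ζ k * (z k - ζ k)
  Vb : ∀ x, ∀ z ∈ U, ‖P.V x z‖ ≤ A
  Vd : ∀ x, ∀ z ∈ U, ‖fderiv ℂ (P.V x) z‖ ≤ A
  Vl : ∀ x, ∀ z ∈ U, ∀ ζ ∈ U, ‖fderiv ℂ (P.V x) z - fderiv ℂ (P.V x) ζ‖ ≤ A * ‖z - ζ‖
  N0 : ∀ x, 0 < P.N x
  w0 : ∀ x, 0 ≤ P.w x
  re : ∀ x, ∀ z ∈ Om U δ, P.N x + δ z ≤ A * (P.V x z).re
  tan : ∀ x, ∀ z ∈ Om U δ, ∀ X : Ec n, ‖fderiv ℂ (P.V x) z X‖ ≤
    A * (‖∑ k, h z z k * X k‖ + Real.sqrt ‖P.V x z‖ * ‖X‖)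
  carl : ∀ z ∈ Om U δ, ∑ x, P.w x * P.N x * δ z / ‖P.V x z‖ ^ 2 ≤ A

/-- the potential at the scale `τ` -/
noncomputable def pot (P : PS n) (τ : ℝ) (w : Ec n) : ℝ :=
  ∑ x, P.w x * P.N x ^ 2 * (τ ^ (1 / 4 : ℝ) / (‖P.V x w‖ ^ 2 + τ ^ 2) ^ (9 / 8 : ℝ))

/-- the potential of the level `i` -/
noncomputable def poti (P : PS n) (δ : Ec n → ℝ) (c : ℝ) (i : ℕ) (w : Ec n) : ℝ :=
  pot P (dk δ c i w) w

/-- the potential in the domain -/
noncomputable def pz (P : PS n) (δ : Ec n → ℝ) (z : Ec n) : ℝ :=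
  ∑ x, P.w x * P.N x ^ 2 * ((δ z) ^ (1 / 4 : ℝ) / ‖P.V x z‖ ^ (9 / 4 : ℝ))

/-- the truncated square function -/
noncomputable def TT (P : PS n) (z : Ec n) (r : ℝ) : ℝ :=
  ∑ x, if ‖P.V x z‖ ≤ r then P.w x * (P.N x / ‖P.V x z‖) ^ 2 else 0

/-- the ratio -/
noncomputable def vt : ℝ := (1 / 2 : ℝ) ^ (1 / 128 : ℝ)

/-- the sum of the potentials of the coarser levels -/
noncomputable def SQ (P : PS n) (δ : Ec n → ℝ) (c : ℝ) (k : ℕ) (w : Ec n) : ℝ :=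
  ∑ i ∈ Finset.range (k + 1), vt ^ (2 * (k - i)) * poti P δ c i w

/-- the density of the level `k` -/
noncomputable def SS (P : PS n) (s : ℕ → ℝ) (δ : Ec n → ℝ) (c : ℝ) (k : ℕ) (w : Ec n) : ℝ :=
  SQ P δ c k w + s k

/-- summable sequences which vary slowly -/
structure SL (s : ℕ → ℝ) (A : ℝ) : Prop where
  nn : ∀ k, 0 ≤ s k
  sum : ∀ m, ∑ k ∈ Finset.range m, s k ≤ A
  up : ∀ k, s (k + 1) ≤ 2 * s k
  dn : ∀ k, s k ≤ 2 * s (k + 1)

end Pool.Agent.MPca0fc2.GW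
end

section

/-! Smaller domains `{δ > s}` (compare `FD/K3.lean`). -/

set_option autoImplicit false

open Metric Set MeasureTheory Filter Topology

namespace Pool.Agent.MPca0fc2.GW

open Pool.Agent.MPca0fc2.FD

variable {n : ℕ} {V : Type*} [NormedAddCommGroup V] [NormedSpace ℂ V]
variable {U W : Set (Ec n)} {δ : Ec n → ℝ} {h : Ec n → Ec n → Fin n → ℂ} {c C A : ℝ}
variable {Q R : Ec n → Ec n → Fin n → ℂ}


/-- PROOF. `0 ≤ (δ - s) / δ ≤ 1` on `{δ > s}`, `s ≥ 0`. -/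
theorem Gs_le {G : Ec n → ℝ} {s : ℝ} (hs : 0 ≤ s) {z : Ec n} (hz : s < δ z) (hG : 0 ≤ G z) :
    0 ≤ Gs G δ s z ∧ Gs G δ s z ≤ G z := by
  have hδ : 0 < δ z := lt_of_le_of_lt hs hz
  have h0 : 0 ≤ (δ z - s) / δ z := div_nonneg (by linarith) hδ.le
  have h1 : (δ z - s) / δ z ≤ 1 := by
    rw [div_le_one hδ]
    linarith
  have h2 : 0 ≤ ((δ z - s) / δ z) ^ (1 / 4 : ℝ) := Real.rpow_nonneg h0 _
  have h3 : ((δ z - s) / δ z) ^ (1 / 4 : ℝ) ≤ 1 := Real.rpow_le_one h0 h1 (by norm_num)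
  unfold Gs
  exact ⟨mul_nonneg hG h2, mul_le_of_le_one_right hG h3⟩

/-- PROOF. From the definitions; the derivative `db` of `δ - s` is that of `δ`. -/
theorem WQ_shift (hQ : WQ W δ Q R) (s : ℝ) : WQ W (fun z => δ z - s) Q R := by
  refine
    { opn := hQ.opn
      c2 := hQ.c2
      hol := hQ.hol
      dbQ := ?_
      Rhol := hQ.Rhol }
  intro z hz ζ hζ X k
  have h1 : db (fun y => ((δ y - s : ℝ) : ℂ)) ζ X = db (fun y => (δ y : ℂ)) ζ X := by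
    unfold db
    have h2 : (fun y => ((δ y - s : ℝ) : ℂ)) = fun y => (δ y : ℂ) - (s : ℂ) := by
      funext y
      push_cast
      rfl
    rw [h2, fderiv_sub_const]
  rw [h1]
  exact hQ.dbQ z hz ζ hζ X k

theorem K3_G_nonneg {G : Ec n → ℝ} (hG : GD U δ h G A) {z : Ec n} (hz : z ∈ Om U δ) :
    0 ≤ G z := by
  have h1 := hG.lo z hz
  have h2 : 0 ≤ (δ z) ^ (1 / 4 : ℝ) := Real.rpow_nonneg hz.2.le _
  have hA := hG.A1
  have h3 : 0 ≤ A * G z := h2.trans h1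
  exact nonneg_of_mul_nonneg_right h3 (by linarith)

theorem K3_ratio (hg : Geo U δ h c C) {s : ℝ} (hs : 0 ≤ s) (hsc : s ≤ c / 2) {z ζ : Ec n}
    (hz : z ∈ Om U (fun z => δ z - s)) (hζ : ζ ∈ Om U (fun z => δ z - s)) :
    ‖vv δ h z ζ‖ / δ ζ ≤ 2 * (‖vv (fun z => δ z - s) h z ζ‖ / (δ ζ - s)) := by
  have h1 := (v_lb (Geo_shift hg hs hsc) hz hζ).2.1
  have hb' : 0 < δ ζ - s := hζ.2
  have hb : 0 < δ ζ := by linarith
  have h2 : δ ζ - s ≤ 2 * ‖vv (fun z => δ z - s) h z ζ‖ := h1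
  have h3 : vv δ h z ζ = vv (fun z => δ z - s) h z ζ + (s : ℂ) := by
    unfold vv
    push_cast
    ring
  have h4 : ‖vv δ h z ζ‖ ≤ ‖vv (fun z => δ z - s) h z ζ‖ + s := by
    rw [h3]
    refine (norm_add_le _ _).trans (le_of_eq ?_)
    rw [Complex.norm_real, Real.norm_of_nonneg hs]
  rw [mul_div_assoc', div_le_div_iff₀ hb hb']
  generalize ‖vv δ h z ζ‖ = t at *
  generalize ‖vv (fun z => δ z - s) h z ζ‖ = t' at *
  nlinarith [mul_le_mul_of_nonneg_right h4 hb'.le, mul_le_mul_of_nonneg_left h2 hs,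
    mul_pos hb hb']

theorem K3_max {a b s : ℝ} (hs : 0 ≤ s) (ha : s < a) (hb : s < b) :
    (max (b / a) (a / b)) ^ (3 / 8 : ℝ) * ((b - s) / b) ^ (1 / 4 : ℝ) ≤
      (max ((b - s) / (a - s)) ((a - s) / (b - s))) ^ (3 / 8 : ℝ) *
        ((a - s) / a) ^ (1 / 4 : ℝ) := by
  have ha0 : 0 < a := by linarith
  have hb0 : 0 < b := by linarith
  have ha' : 0 < a - s := by linarith
  have hb' : 0 < b - s := by linarith
  have hq : 0 ≤ ((a - s) / a) ^ (1 / 4 : ℝ) := Real.rpow_nonneg (div_nonneg ha'.le ha0.le) _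
  rcases le_or_gt a b with hab | hab
  · obtain ⟨m, hm⟩ : ∃ m : ℝ, m = b / a := ⟨_, rfl⟩
    obtain ⟨m', hm'⟩ : ∃ m' : ℝ, m' = (b - s) / (a - s) := ⟨_, rfl⟩
    have hm1 : 1 ≤ m := by
      rw [hm, le_div_iff₀ ha0]
      linarith
    have hmm : m ≤ m' := by
      rw [hm, hm', div_le_div_iff₀ ha0 ha']
      nlinarith
    have hm0 : 0 < m := by linarith
    have hm0' : 0 < m' := by linarith
    have h1 : max (b / a) (a / b) = m := by
      rw [hm]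
      refine max_eq_left ?_
      have : a / b ≤ 1 := by
        rw [div_le_one hb0]
        exact hab
      linarith
    have h2 : (b - s) / b = (a - s) / a * (m' / m) := by
      rw [hm, hm']
      field_simp
    rw [h1, h2, Real.mul_rpow (div_nonneg ha'.le ha0.le) (div_nonneg hm0'.le hm0.le), ← hm']
    have h3 : m ^ (3 / 8 : ℝ) * (m' / m) ^ (1 / 4 : ℝ) ≤ m' ^ (3 / 8 : ℝ) := by
      have e1 : m ^ (3 / 8 : ℝ) = m ^ (1 / 8 : ℝ) * m ^ (1 / 4 : ℝ) := by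
        rw [← Real.rpow_add hm0]
        norm_num
      have e2 : m ^ (1 / 4 : ℝ) * (m' / m) ^ (1 / 4 : ℝ) = m' ^ (1 / 4 : ℝ) := by
        rw [← Real.mul_rpow hm0.le (div_nonneg hm0'.le hm0.le), mul_div_cancel₀ _ hm0.ne']
      have e3 : m' ^ (3 / 8 : ℝ) = m' ^ (1 / 8 : ℝ) * m' ^ (1 / 4 : ℝ) := by
        rw [← Real.rpow_add hm0']
        norm_num
      rw [e1, mul_assoc, e2, e3]
      exact mul_le_mul_of_nonneg_right (Real.rpow_le_rpow hm0.le hmm (by norm_num))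
        (Real.rpow_nonneg hm0'.le _)
    have h4 : m' ^ (3 / 8 : ℝ) ≤ (max m' ((a - s) / (b - s))) ^ (3 / 8 : ℝ) :=
      Real.rpow_le_rpow hm0'.le (le_max_left _ _) (by norm_num)
    calc m ^ (3 / 8 : ℝ) * (((a - s) / a) ^ (1 / 4 : ℝ) * (m' / m) ^ (1 / 4 : ℝ))
        = (m ^ (3 / 8 : ℝ) * (m' / m) ^ (1 / 4 : ℝ)) * ((a - s) / a) ^ (1 / 4 : ℝ) := by ring
      _ ≤ _ := mul_le_mul_of_nonneg_right (h3.trans h4) hq
  · obtain ⟨m, hm⟩ : ∃ m : ℝ, m = a / b := ⟨_, rfl⟩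
    obtain ⟨m', hm'⟩ : ∃ m' : ℝ, m' = (a - s) / (b - s) := ⟨_, rfl⟩
    have hm1 : 1 ≤ m := by
      rw [hm, le_div_iff₀ hb0]
      linarith
    have hmm : m ≤ m' := by
      rw [hm, hm', div_le_div_iff₀ hb0 hb']
      nlinarith
    have hm0 : 0 < m := by linarith
    have hm0' : 0 < m' := by linarith
    have h1 : max (b / a) (a / b) = m := by
      rw [hm]
      refine max_eq_right ?_
      have : b / a ≤ 1 := by
        rw [div_le_one ha0]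
        exact hab.le
      linarith
    have h2 : (b - s) / b = (a - s) / a * (m / m') := by
      rw [hm, hm']
      field_simp
    rw [h1, h2, Real.mul_rpow (div_nonneg ha'.le ha0.le) (div_nonneg hm0.le hm0'.le), ← hm']
    have h3 : m ^ (3 / 8 : ℝ) * (m / m') ^ (1 / 4 : ℝ) ≤ m' ^ (3 / 8 : ℝ) := by
      have e1 : m ^ (3 / 8 : ℝ) ≤ m' ^ (3 / 8 : ℝ) :=
        Real.rpow_le_rpow hm0.le hmm (by norm_num)
      have e2 : (m / m') ^ (1 / 4 : ℝ) ≤ 1 :=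
        Real.rpow_le_one (div_nonneg hm0.le hm0'.le) ((div_le_one hm0').mpr hmm) (by norm_num)
      have e3 : 0 ≤ (m / m') ^ (1 / 4 : ℝ) := Real.rpow_nonneg (div_nonneg hm0.le hm0'.le) _
      calc m ^ (3 / 8 : ℝ) * (m / m') ^ (1 / 4 : ℝ) ≤ m' ^ (3 / 8 : ℝ) * 1 :=
            mul_le_mul e1 e2 e3 (Real.rpow_nonneg hm0'.le _)
        _ = m' ^ (3 / 8 : ℝ) := mul_one _
    have h4 : m' ^ (3 / 8 : ℝ) ≤ (max ((b - s) / (a - s)) m') ^ (3 / 8 : ℝ) :=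
      Real.rpow_le_rpow hm0'.le (le_max_right _ _) (by norm_num)
    calc m ^ (3 / 8 : ℝ) * (((a - s) / a) ^ (1 / 4 : ℝ) * (m / m') ^ (1 / 4 : ℝ))
        = (m ^ (3 / 8 : ℝ) * (m / m') ^ (1 / 4 : ℝ)) * ((a - s) / a) ^ (1 / 4 : ℝ) := by ring
      _ ≤ _ := mul_le_mul_of_nonneg_right (h3.trans h4) hq

/-- The shifted density. Notation: `δ' = δ - s`, `v' = vv δ' = vv δ - s`, `t = ‖v‖`, `t' = ‖v'‖`.
PROOF. `A1`, `up`: `Gs_le` (`G ≥ 0` by `GD.lo`). `lo`: `δ'^(1/4) = δ^(1/4) (δ' / δ)^(1/4) ≤ A G (δ' / δ)^(1/4)`. `har`: by `v_lb` for `δ'`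
(`Geo_shift`) `δ'ζ ≤ 2 t'`; `t ≤ t' + s`, so `t / δζ ≤ (t' + s) / (δ'ζ + s) ≤ max 1 (t' / δ'ζ) ≤ 2 t' / δ'ζ`. If `δζ ≥ δz`:
`(δζ / δz)^(3/8) ((δ'ζ / δ'z) (δz / δζ))^(1/4) = (δζ / δz)^(1/8) (δ'ζ / δ'z)^(1/4) ≤ (δ'ζ / δ'z)^(3/8)`, since `δζ / δz ≤ δ'ζ / δ'z`. If
`δζ < δz`: `(δz / δζ)^(3/8) ≤ (δ'z / δ'ζ)^(3/8)` and `(δ'ζ / δζ) / (δ'z / δz) ≤ 1`. So `A' = 8 A` works. -/
theorem GD_shift {G : Ec n → ℝ} (hg : Geo U δ h c C) (hG : GD U δ h G A) {s : ℝ} (hs : 0 ≤ s)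
    (hsc : s ≤ c / 2) : GD U (fun z => δ z - s) h (Gs G δ s) (8 * A) := by
  have hA := hG.A1
  have hpos : ∀ z ∈ Om U (fun z => δ z - s), z ∈ Om U δ ∧ s < δ z ∧ 0 < δ z ∧ 0 ≤ G z := by
    rintro z ⟨hz, h0⟩
    have h0' : 0 < δ z - s := h0
    have h1 : 0 < δ z := by linarith
    exact ⟨⟨hz, h1⟩, by linarith, h1, K3_G_nonneg hG ⟨hz, h1⟩⟩
  refine
    { A1 := by linarith
      lo := ?_
      up := ?_
      har := ?_ }
  · intro z hz
    obtain ⟨hz', hsz, hδ, hGz⟩ := hpos z hz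
    have h1 := hG.lo z hz'
    have h2 : 0 ≤ (δ z - s) / δ z := div_nonneg (by linarith) hδ.le
    have h3 : (δ z - s) ^ (1 / 4 : ℝ) = (δ z) ^ (1 / 4 : ℝ) * ((δ z - s) / δ z) ^ (1 / 4 : ℝ) := by
      rw [← Real.mul_rpow hδ.le h2, mul_div_cancel₀ _ hδ.ne']
    have h4 : 0 ≤ ((δ z - s) / δ z) ^ (1 / 4 : ℝ) := Real.rpow_nonneg h2 _
    rw [h3]
    unfold Gs
    have h5 : 0 ≤ G z * ((δ z - s) / δ z) ^ (1 / 4 : ℝ) := mul_nonneg hGz h4
    calc (δ z) ^ (1 / 4 : ℝ) * ((δ z - s) / δ z) ^ (1 / 4 : ℝ)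
        ≤ A * G z * ((δ z - s) / δ z) ^ (1 / 4 : ℝ) := mul_le_mul_of_nonneg_right h1 h4
      _ = A * (G z * ((δ z - s) / δ z) ^ (1 / 4 : ℝ)) := by ring
      _ ≤ 8 * A * (G z * ((δ z - s) / δ z) ^ (1 / 4 : ℝ)) :=
          mul_le_mul_of_nonneg_right (by linarith) h5
  · intro z hz
    obtain ⟨hz', hsz, hδ, hGz⟩ := hpos z hz
    have h1 := (Gs_le (G := G) hs hsz hGz).2
    have h2 := hG.up z hz'
    linarith
  · intro z hz ζ hζ
    obtain ⟨hz', hsz, hδz, hGz⟩ := hpos z hz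
    obtain ⟨hζ', hsζ, hδζ, hGζ⟩ := hpos ζ hζ
    have h1 := hG.har z hz' ζ hζ'
    have hr := K3_ratio hg hs hsc hz hζ
    have hb' : 0 < δ ζ - s := by linarith
    have ht0 : 0 ≤ ‖vv δ h z ζ‖ / δ ζ := div_nonneg (norm_nonneg _) hδζ.le
    have ht' : 0 ≤ ‖vv (fun z => δ z - s) h z ζ‖ / (δ ζ - s) :=
      div_nonneg (norm_nonneg _) hb'.le
    have h2 : (‖vv δ h z ζ‖ / δ ζ) ^ 3 ≤
        8 * (‖vv (fun z => δ z - s) h z ζ‖ / (δ ζ - s)) ^ 3 := by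
      refine (pow_le_pow_left₀ ht0 hr 3).trans (le_of_eq ?_)
      ring
    have h3 := K3_max hs hsz hsζ
    have h4 : 0 ≤ ((δ ζ - s) / δ ζ) ^ (1 / 4 : ℝ) :=
      Real.rpow_nonneg (div_nonneg hb'.le hδζ.le) _
    have hM : 0 ≤ (max (δ ζ / δ z) (δ z / δ ζ)) ^ (3 / 8 : ℝ) :=
      Real.rpow_nonneg (le_max_of_le_left (div_nonneg hδζ.le hδz.le)) _
    have hA0 : 0 ≤ A := by linarith
    unfold Gs
    calc G ζ * ((δ ζ - s) / δ ζ) ^ (1 / 4 : ℝ)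
        ≤ (A * (‖vv δ h z ζ‖ / δ ζ) ^ 3 * (max (δ ζ / δ z) (δ z / δ ζ)) ^ (3 / 8 : ℝ) * G z) *
            ((δ ζ - s) / δ ζ) ^ (1 / 4 : ℝ) := mul_le_mul_of_nonneg_right h1 h4
      _ = (A * (‖vv δ h z ζ‖ / δ ζ) ^ 3) * G z *
            ((max (δ ζ / δ z) (δ z / δ ζ)) ^ (3 / 8 : ℝ) * ((δ ζ - s) / δ ζ) ^ (1 / 4 : ℝ)) := by
          ring
      _ ≤ (A * (8 * (‖vv (fun z => δ z - s) h z ζ‖ / (δ ζ - s)) ^ 3)) * G z *
            ((max ((δ ζ - s) / (δ z - s)) ((δ z - s) / (δ ζ - s))) ^ (3 / 8 : ℝ) *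
              ((δ z - s) / δ z) ^ (1 / 4 : ℝ)) := by
          refine mul_le_mul ?_ h3 (mul_nonneg hM h4) ?_
          · exact mul_le_mul_of_nonneg_right (mul_le_mul_of_nonneg_left h2 hA0) hGz
          · exact mul_nonneg (mul_nonneg hA0 (mul_nonneg (by norm_num) (pow_nonneg ht' 3))) hGz
      _ = 8 * A * (‖vv (fun z => δ z - s) h z ζ‖ / (δ ζ - s)) ^ 3 *
            (max ((δ ζ - s) / (δ z - s)) ((δ z - s) / (δ ζ - s))) ^ (3 / 8 : ℝ) *
              (G z * ((δ z - s) / δ z) ^ (1 / 4 : ℝ)) := by ring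

theorem K3_rb {A s b t t' r : ℝ} (hA : 0 ≤ A) (hs : 0 ≤ s) (hb : 0 < b) (hb' : 0 < b - s)
    (ht : 0 < t) (ht' : 0 < t') (h1 : b * t * r ≤ A * (t / b) ^ 2)
    (hr : t / b ≤ 2 * (t' / (b - s))) :
    (b - s) * t' * r ≤ 512 * A * (t' / (b - s)) ^ 2 := by
  have hbt : 0 < b * t := mul_pos hb ht
  have h2 : r ≤ A * (t / b) ^ 2 / (b * t) := by
    rw [le_div_iff₀ hbt]
    linarith
  have h3 : A * (t / b) ^ 2 / (b * t) = A * (t / b) / (b * b) := by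
    field_simp
  have h4 : 0 ≤ t' / (b - s) := div_nonneg ht'.le hb'.le
  have h5 : (b - s) / b ≤ 1 := by
    rw [div_le_one hb]
    linarith
  have h5' : 0 ≤ (b - s) / b := div_nonneg hb'.le hb.le
  have h6 : t' / b ≤ t' / (b - s) := div_le_div_of_nonneg_left ht'.le hb' (by linarith)
  have h6' : 0 ≤ t' / b := div_nonneg ht'.le hb.le
  have h7 : 0 ≤ t / b := div_nonneg ht.le hb.le
  calc (b - s) * t' * r ≤ (b - s) * t' * (A * (t / b) / (b * b)) := by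
        rw [← h3]
        exact mul_le_mul_of_nonneg_left h2 (mul_nonneg hb'.le ht'.le)
    _ = A * (((b - s) / b) * (t' / b) * (t / b)) := by
        field_simp
    _ ≤ A * (1 * (t' / (b - s)) * (2 * (t' / (b - s)))) := by
        refine mul_le_mul_of_nonneg_left ?_ hA
        refine mul_le_mul ?_ hr h7 (by positivity)
        exact mul_le_mul h5 h6 h6' (by norm_num)
    _ = 2 * (A * (t' / (b - s)) ^ 2) := by ring
    _ ≤ 512 * (A * (t' / (b - s)) ^ 2) :=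
        mul_le_mul_of_nonneg_right (by norm_num) (mul_nonneg hA (sq_nonneg _))
    _ = 512 * A * (t' / (b - s)) ^ 2 := by ring

/-- the shifted sequence -/
def K3_pr (Γ : ℕ → ℝ) : ℕ → ℝ
  | 0 => 0
  | l + 1 => Γ l

theorem K3_pr_nonneg {Γ : ℕ → ℝ} (h : ∀ l, 0 ≤ Γ l) (l : ℕ) : 0 ≤ K3_pr Γ l := by
  cases l with
  | zero => exact le_refl _
  | succ l => exact h l

/-- the geometric factor -/
noncomputable def K3_ge (i l : ℕ) : ℝ :=
  if i < l then ((1 / 2 : ℝ) ^ (1 / 4 : ℝ)) ^ (l - i - 1) else 0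

theorem K3_rho : 0 ≤ (1 / 2 : ℝ) ^ (1 / 4 : ℝ) ∧ (1 / 2 : ℝ) ^ (1 / 4 : ℝ) ≤ 6 / 7 := by
  refine ⟨Real.rpow_nonneg (by norm_num) _, ?_⟩
  have h1 : (1 / 2 : ℝ) ≤ (6 / 7 : ℝ) ^ (4 : ℝ) := by
    have : (6 / 7 : ℝ) ^ (4 : ℝ) = (6 / 7 : ℝ) ^ (4 : ℕ) := by
      rw [← Real.rpow_natCast]
      norm_num
    rw [this]
    norm_num
  calc (1 / 2 : ℝ) ^ (1 / 4 : ℝ) ≤ ((6 / 7 : ℝ) ^ (4 : ℝ)) ^ (1 / 4 : ℝ) :=
        Real.rpow_le_rpow (by norm_num) h1 (by norm_num)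
    _ = 6 / 7 := by
        rw [← Real.rpow_mul (by norm_num)]
        norm_num

theorem K3_ge_nonneg (i l : ℕ) : 0 ≤ K3_ge i l := by
  unfold K3_ge
  split_ifs
  · exact pow_nonneg K3_rho.1 _
  · exact le_refl _

theorem K3_layer {C s : ℝ} (hs : 0 < s) (hsC : s ≤ C) :
    ∃ i : ℕ, C / 2 ^ (i + 1) < s ∧ s ≤ C / 2 ^ i := by
  classical
  have h1 : ∃ i : ℕ, C / 2 ^ (i + 1) < s := by
    obtain ⟨i, hi⟩ := pow_unbounded_of_one_lt (C / s) (by norm_num : (1 : ℝ) < 2)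
    refine ⟨i, ?_⟩
    have h2 : (2 : ℝ) ^ i ≤ 2 ^ (i + 1) := pow_le_pow_right₀ (by norm_num) (by omega)
    rw [div_lt_iff₀ (by positivity)]
    rw [div_lt_iff₀ hs] at hi
    nlinarith
  refine ⟨Nat.find h1, Nat.find_spec h1, ?_⟩
  rcases Nat.eq_zero_or_pos (Nat.find h1) with h2 | h2
  · rw [h2, pow_zero, div_one]
    exact hsC
  · have h3 := Nat.find_min h1 (Nat.sub_lt h2 one_pos)
    have h4 : Nat.find h1 - 1 + 1 = Nat.find h1 := by omega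
    rw [h4] at h3
    exact not_lt.mp h3

theorem K3_lt {C : ℝ} (hC : 0 < C) {i l : ℕ} (h : C / 2 ^ l < C / 2 ^ i) : i < l := by
  by_contra h1
  have h2 : (2 : ℝ) ^ l ≤ 2 ^ i := pow_le_pow_right₀ (by norm_num) (by omega)
  have h3 : C / 2 ^ i ≤ C / 2 ^ l := div_le_div_of_nonneg_left hC.le (by positivity) h2
  linarith

theorem K3_quot {C b b' : ℝ} (hC : 0 < C) (hb' : 0 < b') {i l : ℕ} (hil : i < l)
    (h1 : C / 2 ^ (i + 1) < b) (h2 : b' ≤ C / 2 ^ l) : (b' / b) ^ (1 / 4 : ℝ) ≤ K3_ge i l := by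
  have hCi : 0 < C / 2 ^ (i + 1) := by positivity
  have hb : 0 < b := hCi.trans h1
  have h3 : b' / b ≤ (1 / 2 : ℝ) ^ (l - i - 1) := by
    have h4 : b' / b ≤ (C / 2 ^ l) / (C / 2 ^ (i + 1)) :=
      div_le_div₀ (by positivity) h2 hCi h1.le
    refine h4.trans (le_of_eq ?_)
    obtain ⟨j, rfl⟩ : ∃ j, l = i + 1 + j := ⟨l - i - 1, by omega⟩
    have h5 : i + 1 + j - i - 1 = j := by omega
    rw [h5, pow_add, one_div_pow]
    field_simp
  unfold K3_ge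
  rw [if_pos hil]
  calc (b' / b) ^ (1 / 4 : ℝ) ≤ ((1 / 2 : ℝ) ^ (l - i - 1)) ^ (1 / 4 : ℝ) :=
        Real.rpow_le_rpow (div_nonneg hb'.le hb.le) h3 (by norm_num)
    _ = ((1 / 2 : ℝ) ^ (1 / 4 : ℝ)) ^ (l - i - 1) := by
        rw [← Real.rpow_natCast, ← Real.rpow_natCast, ← Real.rpow_mul (by norm_num),
          ← Real.rpow_mul (by norm_num), mul_comm]

theorem K3_ge_sum (i : ℕ) : ∑' l, ENNReal.ofReal (K3_ge i l) ≤ ENNReal.ofReal 7 := by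
  have h1 := Summable.sum_add_tsum_nat_add' (f := fun l => ENNReal.ofReal (K3_ge i l))
    (k := i + 1) ENNReal.summable
  rw [← h1]
  have h2 : ∑ l ∈ Finset.range (i + 1), ENNReal.ofReal (K3_ge i l) = 0 := by
    refine Finset.sum_eq_zero fun l hl => ?_
    have h3 : ¬ i < l := by
      have := Finset.mem_range.mp hl
      omega
    unfold K3_ge
    rw [if_neg h3, ENNReal.ofReal_zero]
  have h3 : ∀ j : ℕ, K3_ge i (j + (i + 1)) = ((1 / 2 : ℝ) ^ (1 / 4 : ℝ)) ^ j := by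
    intro j
    unfold K3_ge
    have h4 : i < j + (i + 1) := by omega
    have h5 : j + (i + 1) - i - 1 = j := by omega
    rw [if_pos h4, h5]
  rw [h2, zero_add]
  simp only [h3]
  have hρ := K3_rho
  have hρ1 : (1 / 2 : ℝ) ^ (1 / 4 : ℝ) < 1 := by linarith [hρ.2]
  rw [← ENNReal.ofReal_tsum_of_nonneg (fun j => pow_nonneg hρ.1 j)
    (summable_geometric_of_lt_one hρ.1 hρ1), tsum_geometric_of_lt_one hρ.1 hρ1]
  refine ENNReal.ofReal_le_ofReal ?_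
  have h6 : (0 : ℝ) < 1 - (1 / 2 : ℝ) ^ (1 / 4 : ℝ) := by linarith
  rw [inv_le_comm₀ h6 (by norm_num)]
  linarith [hρ.2]

theorem K3_sum {A : ℝ} (hA : 0 ≤ A) {Γ : ℕ → ℝ} (h0 : ∀ l, 0 ≤ Γ l)
    (hs : ∑' l, ENNReal.ofReal (Γ l) ≤ ENNReal.ofReal A) (i : ℕ) :
    ∑' l, ENNReal.ofReal (32 * (Γ l + K3_pr Γ l) + 32 * (K3_ge i l * (Γ i + K3_pr Γ i))) ≤
      ENNReal.ofReal (512 * A) := by
  have hpr : ∑' l, ENNReal.ofReal (K3_pr Γ l) ≤ ENNReal.ofReal A := by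
    rw [tsum_eq_zero_add' (f := fun l => ENNReal.ofReal (K3_pr Γ l)) ENNReal.summable]
    show ENNReal.ofReal 0 + ∑' l, ENNReal.ofReal (Γ l) ≤ ENNReal.ofReal A
    rw [ENNReal.ofReal_zero, zero_add]
    exact hs
  have hb1 : Γ i ≤ A := by
    have h1 : ENNReal.ofReal (Γ i) ≤ ENNReal.ofReal A :=
      (ENNReal.le_tsum (f := fun l => ENNReal.ofReal (Γ l)) i).trans hs
    exact (ENNReal.ofReal_le_ofReal_iff hA).mp h1
  have hb2 : K3_pr Γ i ≤ A := by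
    have h1 : ENNReal.ofReal (K3_pr Γ i) ≤ ENNReal.ofReal A :=
      (ENNReal.le_tsum (f := fun l => ENNReal.ofReal (K3_pr Γ l)) i).trans hpr
    exact (ENNReal.ofReal_le_ofReal_iff hA).mp h1
  have hB0 : 0 ≤ Γ i + K3_pr Γ i := add_nonneg (h0 i) (K3_pr_nonneg h0 i)
  have e1 : ∀ l, ENNReal.ofReal (32 * (Γ l + K3_pr Γ l) +
      32 * (K3_ge i l * (Γ i + K3_pr Γ i))) ≤
      ENNReal.ofReal 32 * (ENNReal.ofReal (Γ l) + ENNReal.ofReal (K3_pr Γ l)) +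
        ENNReal.ofReal (64 * A) * ENNReal.ofReal (K3_ge i l) := by
    intro l
    have g0 := K3_ge_nonneg i l
    have p0 := K3_pr_nonneg h0 l
    have g1 : K3_ge i l * (Γ i + K3_pr Γ i) ≤ K3_ge i l * (2 * A) :=
      mul_le_mul_of_nonneg_left (by linarith) g0
    rw [← ENNReal.ofReal_add (h0 l) p0, ← ENNReal.ofReal_mul (by norm_num),
      ← ENNReal.ofReal_mul (by linarith), ← ENNReal.ofReal_add]
    · refine ENNReal.ofReal_le_ofReal ?_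
      nlinarith
    · have := h0 l
      positivity
    · positivity
  refine (ENNReal.tsum_le_tsum e1).trans ?_
  rw [ENNReal.tsum_add, ENNReal.tsum_mul_left, ENNReal.tsum_mul_left, ENNReal.tsum_add]
  have e2 : ENNReal.ofReal 32 * (∑' l, ENNReal.ofReal (Γ l) + ∑' l, ENNReal.ofReal (K3_pr Γ l)) ≤
      ENNReal.ofReal 32 * (ENNReal.ofReal A + ENNReal.ofReal A) :=
    mul_le_mul_right (add_le_add hs hpr) _
  have e3 : ENNReal.ofReal (64 * A) * ∑' l, ENNReal.ofReal (K3_ge i l) ≤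
      ENNReal.ofReal (64 * A) * ENNReal.ofReal 7 := mul_le_mul_right (K3_ge_sum i) _
  refine (add_le_add e2 e3).trans (le_of_eq ?_)
  rw [← ENNReal.ofReal_add hA hA, ← ENNReal.ofReal_mul (by norm_num),
    ← ENNReal.ofReal_mul (by linarith), ← ENNReal.ofReal_add (by linarith) (by linarith)]
  congr 1
  ring

/-- The shifted weight. Notation as in `GD_shift`.
PROOF. `rb`: `‖R‖ ≤ A t / δζ³` (from `rb`), and `δ'ζ t' ‖R‖ ≤ A (δ'ζ / δζ) (t' / δζ) (t / δζ) ≤ 2 A (t' / δ'ζ)²`.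
`ex`: let `Γ` be the sequence of `z` for `δ`. If `s = 0` take `Γ`. Let `s > 0`. For `ζ` with
`C / 2^(l+1) < δ'ζ ≤ C / 2^l`: `(t / δζ)^5 ≤ 32 (t' / δ'ζ)^5`. If `s ≤ C / 2^l` then `C / 2^(l+1) < δζ ≤ C / 2^(l-1)`, so `ζ` is in one of the layers `l`, `l - 1`
of `δ` (only `l`, if `l = 0`, as `δ ≤ C`), and `Γ' l = 32 (Γ l + Γ (l - 1))` works. If `s > C / 2^l` then `s < δζ ≤ 2 s`; let `i` be the index with
`C / 2^(i+1) < s ≤ C / 2^i` (it exists as `s ≤ c / 2 ≤ C`; `i < l`), then `ζ` is in one of the layers `i`, `i - 1` of `δ`, and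
`(δ'ζ / δζ)^(1/4) ≤ (C / 2^l / s)^(1/4) ≤ 2^(-(l - i - 1)/4)`: `Γ' l = 32 · 2^(-(l-i-1)/4) (Γ i + Γ (i - 1))` works. The sum of `Γ'` is at most
`32 (2 ∑ Γ) + 32 (2 ∑ Γ) ∑_{j ≥ 0} 2^(-j/4) ≤ 64 (1 + 7) ∑ Γ ≤ 512 A`. -/
theorem GX_shift {G : Ec n → ℝ} (hg : Geo U δ h c C) (hG : GD U δ h G A)
    (hX : GX U δ h G Q R C A) {s : ℝ} (hs : 0 ≤ s) (hsc : s ≤ c / 2) :
    GX U (fun z => δ z - s) h (Gs G δ s) Q R C (512 * A) := by
  have hA := hG.A1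
  have hA0 : 0 ≤ A := by linarith
  have hc1 := hg.c1
  have hC1 := hg.C1
  have hc0 := hg.c0
  have hC0 : 0 < C := by linarith
  have hpos : ∀ z ∈ Om U (fun z => δ z - s), z ∈ Om U δ ∧ s < δ z ∧ 0 < δ z ∧ 0 ≤ G z := by
    rintro z ⟨hz, h0⟩
    have h0' : 0 < δ z - s := h0
    have h1 : 0 < δ z := by linarith
    exact ⟨⟨hz, h1⟩, by linarith, h1, K3_G_nonneg hG ⟨hz, h1⟩⟩
  refine ⟨?_, ?_⟩
  · intro z hz ζ hζ
    obtain ⟨hz', hsz, hδz, hGz⟩ := hpos z hz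
    obtain ⟨hζ', hsζ, hδζ, hGζ⟩ := hpos ζ hζ
    have h1 := hX.rb z hz' ζ hζ'
    have hr := K3_ratio hg hs hsc hz hζ
    have ht := (v_lb hg hz' hζ').2.2.2
    have ht' : 0 < ‖vv (fun z => δ z - s) h z ζ‖ :=
      (v_lb (Geo_shift hg hs hsc) hz hζ).2.2.2
    have hb' : 0 < δ ζ - s := by linarith
    exact K3_rb hA0 hs hδζ hb' ht ht' h1 hr
  · intro z hz
    obtain ⟨hz', hsz, hδz, hGz⟩ := hpos z hz
    obtain ⟨Γ, hΓ0, hΓs, hΓ⟩ := hX.ex z hz'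
    -- the bound on the layers
    have hlay : ∀ l : ℕ, ∀ ζ ∈ Om U (fun z => δ z - s), C / 2 ^ (l + 1) < δ ζ →
        δ ζ ≤ 2 * (C / 2 ^ l) → ‖Complex.exp (wEx Q z ζ)‖ * G ζ ≤
          32 * (‖vv (fun z => δ z - s) h z ζ‖ / (δ ζ - s)) ^ 5 * (Γ l + K3_pr Γ l) := by
      intro l ζ hζ hl1 hl2
      obtain ⟨hζ', hsζ, hδζ, hGζ⟩ := hpos ζ hζ
      have hb' : 0 < δ ζ - s := by linarith
      have hr := K3_ratio hg hs hsc hz hζ
      have ht0 : 0 ≤ ‖vv δ h z ζ‖ / δ ζ := div_nonneg (norm_nonneg _) hδζ.le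
      have h5 : (‖vv δ h z ζ‖ / δ ζ) ^ 5 ≤
          32 * (‖vv (fun z => δ z - s) h z ζ‖ / (δ ζ - s)) ^ 5 := by
        refine (pow_le_pow_left₀ ht0 hr 5).trans (le_of_eq ?_)
        ring
      have hpr : 0 ≤ K3_pr Γ l := K3_pr_nonneg hΓ0 l
      have h6 : ‖Complex.exp (wEx Q z ζ)‖ * G ζ ≤
          (‖vv δ h z ζ‖ / δ ζ) ^ 5 * (Γ l + K3_pr Γ l) := by
        have h50 : 0 ≤ (‖vv δ h z ζ‖ / δ ζ) ^ 5 := pow_nonneg ht0 5
        rcases le_or_gt (δ ζ) (C / 2 ^ l) with h7 | h7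
        · refine (hΓ l ζ hζ' hl1 h7).trans (mul_le_mul_of_nonneg_left ?_ h50)
          linarith
        · cases l with
          | zero =>
            exfalso
            have h8 := hg.bδ ζ hζ'.1
            rw [pow_zero, div_one] at h7
            linarith
          | succ l =>
            have h8 : δ ζ ≤ C / 2 ^ l := by
              refine hl2.trans (le_of_eq ?_)
              rw [pow_succ]
              field_simp
            refine (hΓ l ζ hζ' h7 h8).trans (mul_le_mul_of_nonneg_left ?_ h50)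
            have h9 := hΓ0 (l + 1)
            have h10 : K3_pr Γ (l + 1) = Γ l := rfl
            linarith
      refine h6.trans (mul_le_mul_of_nonneg_right h5 ?_)
      have := hΓ0 l
      linarith
    have hGs : ∀ ζ ∈ Om U (fun z => δ z - s), Gs G δ s ζ ≤ G ζ := fun ζ hζ => by
      obtain ⟨hζ', hsζ, hδζ, hGζ⟩ := hpos ζ hζ
      exact (Gs_le hs hsζ hGζ).2
    have hq0 : ∀ ζ ∈ Om U (fun z => δ z - s),
        0 ≤ 32 * (‖vv (fun z => δ z - s) h z ζ‖ / (δ ζ - s)) ^ 5 := fun ζ hζ => by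
      have hb' : 0 < δ ζ - s := hζ.2
      have := div_nonneg (norm_nonneg (vv (fun z => δ z - s) h z ζ)) hb'.le
      positivity
    obtain ⟨i, hi⟩ : ∃ i : ℕ, 0 < s → C / 2 ^ (i + 1) < s ∧ s ≤ C / 2 ^ i := by
      by_cases h0 : 0 < s
      · obtain ⟨i, hi⟩ := K3_layer (C := C) h0 (by linarith)
        exact ⟨i, fun _ => hi⟩
      · exact ⟨0, fun h => absurd h h0⟩
    refine ⟨fun l => 32 * (Γ l + K3_pr Γ l) + 32 * (K3_ge i l * (Γ i + K3_pr Γ i)), ?_, ?_, ?_⟩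
    · intro l
      have h1 := hΓ0 l
      have h2 := K3_pr_nonneg hΓ0 l
      have h3 := hΓ0 i
      have h4 := K3_pr_nonneg hΓ0 i
      have h5 := K3_ge_nonneg i l
      have h6 := mul_nonneg h5 (add_nonneg h3 h4)
      show 0 ≤ 32 * (Γ l + K3_pr Γ l) + 32 * (K3_ge i l * (Γ i + K3_pr Γ i))
      linarith
    · exact K3_sum hA0 hΓ0 hΓs i
    · intro l ζ hζ hl1 hl2
      obtain ⟨hζ', hsζ, hδζ, hGζ⟩ := hpos ζ hζ
      have hl1' : C / 2 ^ (l + 1) < δ ζ - s := hl1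
      have hl2' : δ ζ - s ≤ C / 2 ^ l := hl2
      have h3 := hΓ0 i
      have h4 := K3_pr_nonneg hΓ0 i
      have h5 := K3_ge_nonneg i l
      have h6 := mul_nonneg h5 (add_nonneg h3 h4)
      have h7 := hΓ0 l
      have h8 := K3_pr_nonneg hΓ0 l
      have hb' : 0 < δ ζ - s := by linarith
      have hT : 0 ≤ (‖vv (fun z => δ z - s) h z ζ‖ / (δ ζ - s)) ^ 5 :=
        pow_nonneg (div_nonneg (norm_nonneg _) hb'.le) 5
      have hE : 0 ≤ ‖Complex.exp (wEx Q z ζ)‖ := norm_nonneg _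
      show ‖Complex.exp (wEx Q z ζ)‖ * Gs G δ s ζ ≤
        (‖vv (fun z => δ z - s) h z ζ‖ / (δ ζ - s)) ^ 5 *
          (32 * (Γ l + K3_pr Γ l) + 32 * (K3_ge i l * (Γ i + K3_pr Γ i)))
      rcases le_or_gt s (C / 2 ^ l) with hsl | hsl
      · have h9 := hlay l ζ hζ (by linarith) (by linarith)
        have h10 := mul_le_mul_of_nonneg_left (hGs ζ hζ) hE
        refine (h10.trans h9).trans ?_
        have h11 : 32 * (‖vv (fun z => δ z - s) h z ζ‖ / (δ ζ - s)) ^ 5 * (Γ l + K3_pr Γ l) =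
            (‖vv (fun z => δ z - s) h z ζ‖ / (δ ζ - s)) ^ 5 * (32 * (Γ l + K3_pr Γ l)) := by ring
        rw [h11]
        exact mul_le_mul_of_nonneg_left (by linarith) hT
      · have hs0 : 0 < s := by
          have : 0 < C / 2 ^ l := by positivity
          linarith
        obtain ⟨hi1, hi2⟩ := hi hs0
        have hil : i < l := K3_lt hC0 (lt_of_lt_of_le hsl hi2)
        have h9 := hlay i ζ hζ (by linarith) (by linarith)
        have h12 : ((δ ζ - s) / δ ζ) ^ (1 / 4 : ℝ) ≤ K3_ge i l :=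
          K3_quot hC0 hb' hil (by linarith) hl2'
        have h13 : Gs G δ s ζ ≤ G ζ * K3_ge i l := by
          unfold Gs
          exact mul_le_mul_of_nonneg_left h12 hGζ
        calc ‖Complex.exp (wEx Q z ζ)‖ * Gs G δ s ζ
            ≤ ‖Complex.exp (wEx Q z ζ)‖ * (G ζ * K3_ge i l) := mul_le_mul_of_nonneg_left h13 hE
          _ = (‖Complex.exp (wEx Q z ζ)‖ * G ζ) * K3_ge i l := by ring
          _ ≤ (32 * (‖vv (fun z => δ z - s) h z ζ‖ / (δ ζ - s)) ^ 5 * (Γ i + K3_pr Γ i)) *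
                K3_ge i l := mul_le_mul_of_nonneg_right h9 h5
          _ = (‖vv (fun z => δ z - s) h z ζ‖ / (δ ζ - s)) ^ 5 *
                (32 * (K3_ge i l * (Γ i + K3_pr Γ i))) := by ring
          _ ≤ _ := mul_le_mul_of_nonneg_left (by linarith) hT

/-- PROOF. `gau (δ - s) ≤ ((δ - s') / (δ - s))^(1/2) gau (δ - s')` for `s ≤ s' < δ z`, and `q ≥ 1`:
`((δ - s) / δ)^(1/4) ((δ - s') / (δ - s))^(q/2) ≤ ((δ - s') / δ)^(1/4)`. (Compare `Bd_shift` in `FD/K3.lean`.) -/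
theorem Bg_shift {G : Ec n → ℝ} (hG : ∀ z ∈ Om U δ, 0 ≤ G z) {s s' B : ℝ} (hs0 : 0 ≤ s)
    (hs : s ≤ s') (hB : 0 ≤ B) {q : ℕ} (hq : 1 ≤ q) {η : Fm n q V}
    (hη : Bg U (fun z => δ z - s) h (Gs G δ s) B η) :
    Bg U (fun z => δ z - s') h (Gs G δ s') B η := by
  rintro z ⟨hz, hb0⟩ X
  have hb : 0 < δ z - s' := hb0
  have ha : 0 < δ z - s := by linarith
  have hd : 0 < δ z := by linarith
  have hab : 1 ≤ (δ z - s) / (δ z - s') := by
    rw [le_div_iff₀ hb]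
    linarith
  have h1 := hη z ⟨hz, ha⟩ X
  obtain ⟨u, hu⟩ : ∃ u : ℝ, u = ((δ z - s) / (δ z - s')) ^ (1 / 4 : ℝ) := ⟨_, rfl⟩
  have hu1 : 1 ≤ u := by
    rw [hu]
    exact Real.one_le_rpow hab (by norm_num)
  have hu4 : u ^ 4 = (δ z - s) / (δ z - s') := by
    rw [hu, ← Real.rpow_natCast, ← Real.rpow_mul (by linarith)]
    norm_num
  have hE : Gs G δ s z = u * Gs G δ s' z := by
    unfold Gs
    have h2 : (δ z - s) / δ z = (δ z - s) / (δ z - s') * ((δ z - s') / δ z) := by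
      field_simp
    rw [h2, Real.mul_rpow (div_nonneg ha.le hb.le) (div_nonneg hb.le hd.le), hu]
    ring
  have hE0 : 0 ≤ Gs G δ s' z := by
    unfold Gs
    exact mul_nonneg (hG z ⟨hz, hd⟩) (Real.rpow_nonneg (div_nonneg hb.le hd.le) _)
  have hg0 : ∀ i, 0 ≤ gau (fun z => δ z - s') h z (X i) := fun i =>
    K3_gau_nonneg hb _ _ (norm_nonneg _) (norm_nonneg _)
  have hg1 : ∀ i, 0 ≤ gau (fun z => δ z - s) h z (X i) := fun i =>
    K3_gau_nonneg ha _ _ (norm_nonneg _) (norm_nonneg _)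
  have hg2 : ∀ i, gau (fun z => δ z - s) h z (X i) ≤
      (u ^ 2)⁻¹ * gau (fun z => δ z - s') h z (X i) := fun i =>
    K3_gau_scale hb hu1 hu4 (norm_nonneg _) (norm_nonneg _)
  have hp : ∏ i, gau (fun z => δ z - s) h z (X i) ≤
      ((u ^ 2)⁻¹) ^ q * ∏ i, gau (fun z => δ z - s') h z (X i) := by
    refine (Finset.prod_le_prod (fun i _ => hg1 i) fun i _ => hg2 i).trans (le_of_eq ?_)
    rw [Finset.prod_mul_distrib, Finset.prod_const, Finset.card_univ, Fintype.card_fin]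
  have hp0 : 0 ≤ ∏ i, gau (fun z => δ z - s') h z (X i) :=
    Finset.prod_nonneg fun i _ => hg0 i
  refine h1.trans ?_
  rw [hE]
  have hu0 : 0 ≤ u := by linarith
  have h2 : B * (u * Gs G δ s' z) * ∏ i, gau (fun z => δ z - s) h z (X i) ≤
      B * (u * Gs G δ s' z) *
        (((u ^ 2)⁻¹) ^ q * ∏ i, gau (fun z => δ z - s') h z (X i)) :=
    mul_le_mul_of_nonneg_left hp (mul_nonneg hB (mul_nonneg hu0 hE0))
  refine h2.trans ?_
  have h3 : B * (u * Gs G δ s' z) *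
        (((u ^ 2)⁻¹) ^ q * ∏ i, gau (fun z => δ z - s') h z (X i)) =
      (u * ((u ^ 2)⁻¹) ^ q) * (B * Gs G δ s' z *
        ∏ i, gau (fun z => δ z - s') h z (X i)) := by ring
  rw [h3]
  exact mul_le_of_le_one_left (mul_nonneg (mul_nonneg hB hE0) hp0) (K3_pow hu1 hq)

/-- PROOF. `Gs G δ 0 = G` on `{δ > 0}`. -/
theorem Bg_zero {G : Ec n → ℝ} {B : ℝ} {q : ℕ} {η : Fm n q V} (hη : Bg U δ h G B η) :
    Bg U (fun z => δ z - 0) h (Gs G δ 0) B η := by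
  rintro z ⟨hz, hb0⟩ X
  have hd : 0 < δ z := by
    have : 0 < δ z - 0 := hb0
    linarith
  have h1 := hη z ⟨hz, hd⟩ X
  have h2 : Gs G δ 0 z = G z := by
    unfold Gs
    rw [sub_zero, div_self hd.ne', Real.one_rpow, mul_one]
  have h3 : ∀ i, gau (fun z => δ z - 0) h z (X i) = gau δ h z (X i) := by
    intro i
    unfold gau
    simp only [sub_zero]
  rw [h2]
  simp only [h3]
  exact h1

/-- PROOF. The triangle inequality (`K3_ev_add`). -/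
theorem Bg_add {G : Ec n → ℝ} {B B' : ℝ} {q : ℕ} {η η' : Fm n q V} (hη : Bg U δ h G B η)
    (hη' : Bg U δ h G B' η') : Bg U δ h G (B + B') (fun I z => η I z + η' I z) := by
  intro z hz X
  rw [K3_ev_add]
  refine (norm_add_le _ _).trans ?_
  have h1 := hη z hz X
  have h2 := hη' z hz X
  have h3 : (B + B') * G z * ∏ i, gau δ h z (X i) =
      B * G z * ∏ i, gau δ h z (X i) + B' * G z * ∏ i, gau δ h z (X i) := by ring
  rw [h3]
  exact add_le_add h1 h2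

/-- PROOF. The triangle inequality (`K3_ev_sub`). -/
theorem Bg_sub {G : Ec n → ℝ} {B B' : ℝ} {q : ℕ} {η η' : Fm n q V} (hη : Bg U δ h G B η)
    (hη' : Bg U δ h G B' η') : Bg U δ h G (B + B') (fun I z => η I z - η' I z) := by
  intro z hz X
  rw [K3_ev_sub]
  refine (norm_sub_le _ _).trans ?_
  have h1 := hη z hz X
  have h2 := hη' z hz X
  have h3 : (B + B') * G z * ∏ i, gau δ h z (X i) =
      B * G z * ∏ i, gau δ h z (X i) + B' * G z * ∏ i, gau δ h z (X i) := by ring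
  rw [h3]
  exact add_le_add h1 h2

/-- PROOF. As `Bd_op` in `FD/K3.lean`. -/
theorem Bg_op {V' : Type*} [NormedAddCommGroup V'] [NormedSpace ℂ V'] {G : Ec n → ℝ} {B M : ℝ}
    (hM : 0 ≤ M) {q : ℕ} {η : Fm n q V} (hη : Bg U δ h G B η) {L : Ec n → V →L[ℂ] V'}
    (hL : ∀ z ∈ Om U δ, ‖L z‖ ≤ M) : Bg U δ h G (M * B) (fun I z => L z (η I z)) := by
  intro z hz X
  have h1 : ev (fun I z => L z (η I z)) z X = L z (ev η z X) := by
    unfold ev
    rw [map_sum]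
    exact Finset.sum_congr rfl fun I _ => ((L z).map_smul _ _).symm
  rw [h1]
  refine ((L z).le_opNorm _).trans ?_
  have h2 := mul_le_mul (hL z hz) (hη z hz X) (norm_nonneg _) hM
  have h3 : M * B * G z * ∏ i, gau δ h z (X i) =
      M * (B * G z * ∏ i, gau δ h z (X i)) := by ring
  rw [h3]
  exact h2

/-- PROOF. `G ≥ 0` and `gau ≥ 0` on `Om U δ` (`gau_nonneg`). -/
theorem Bg_mono {G : Ec n → ℝ} (hG : ∀ z ∈ Om U δ, 0 ≤ G z) {B B' : ℝ} (hB : B ≤ B') {q : ℕ}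
    {η : Fm n q V} (hη : Bg U δ h G B η) : Bg U δ h G B' η := by
  intro z hz X
  refine (hη z hz X).trans ?_
  have h0 : 0 < δ z := hz.2
  have hg0 : ∀ i, 0 ≤ gau δ h z (X i) := fun i =>
    K3_gau_nonneg h0 _ _ (norm_nonneg _) (norm_nonneg _)
  refine mul_le_mul_of_nonneg_right ?_ (Finset.prod_nonneg fun i _ => hg0 i)
  exact mul_le_mul_of_nonneg_right hB (hG z hz)

end Pool.Agent.MPca0fc2.GW
end
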