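import Mathlib
import Pool.Agent.Lib.MP_ca0fc2_an.Mg.G045
import Pool.Agent.Lib.MP_ca0fc2_an.Mg.G050

section

set_option autoImplicit false

open Metric Set MeasureTheory Filter Topology
open scoped InnerProductSpace ENNReal

namespace Pool.Agent.MPca0fc2.QT

open Pool.Agent.MPca0fc2.PT

variable {E : Type*} [NormedAddCommGroup E] [InnerProductSpace ℂ E]
variable {V : Type*} [NormedAddCommGroup V] [NormedSpace ℂ V]
variable {Y : Type*} [NormedAddCommGroup Y] [NormedSpace ℂ Y]

/-! ### forms of type `(0, q)` -/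

/-- multiplication by `i`, as a real linear map -/
noncomputable def jI (E : Type*) [NormedAddCommGroup E] [InnerProductSpace ℂ E] : E →L[ℝ] E :=
  (Complex.I • ContinuousLinearMap.id ℂ E).restrictScalars ℝ

/-- the form is conjugate linear in each argument -/
def Anti {q : ℕ} (η : E [⋀^Fin q]→L[ℝ] V) : Prop :=
  ∀ (v : Fin q → E) (i : Fin q),
    η (Function.update v i (Complex.I • v i)) = -(Complex.I • η v)

/-- the conjugate linear part of the derivative of a function -/
noncomputable def D01 (σ : E → Y) (w : E) : E →L[ℝ] Y :=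
  (2⁻¹ : ℂ) • (fderiv ℝ σ w + Complex.I • (fderiv ℝ σ w).comp (jI E))

/-- the conjugate linear part of the derivative of a form -/
noncomputable def d1 {q : ℕ} (η : E → E [⋀^Fin q]→L[ℝ] V) (w : E) :
    E →L[ℝ] E [⋀^Fin q]→L[ℝ] V :=
  (2⁻¹ : ℂ) • (fderiv ℝ η w + Complex.I • (fderiv ℝ η w).comp (jI E))

/-- the `∂̄` operator on forms of type `(0, q)` -/
noncomputable def db {q : ℕ} (η : E → E [⋀^Fin q]→L[ℝ] V) (w : E) : E [⋀^Fin (q + 1)]→L[ℝ] V :=
  ContinuousAlternatingMap.alternatizeUncurryFin (d1 η w)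

/-- the composition of a form with an operator -/
noncomputable def opc (E : Type*) [NormedAddCommGroup E] [InnerProductSpace ℂ E]
    (V : Type*) [NormedAddCommGroup V] [NormedSpace ℂ V] (q : ℕ) :
    (V →L[ℂ] V) →L[ℝ] (E [⋀^Fin q]→L[ℝ] V) →L[ℝ] (E [⋀^Fin q]→L[ℝ] V) :=
  (ContinuousLinearMap.compContinuousAlternatingMapCLM ℝ E V V (Fin q)).comp
    (ContinuousLinearMap.restrictScalarsL ℂ V V ℝ ℝ)

/-- the constant form of degree `0` -/
noncomputable def cst (E : Type*) [NormedAddCommGroup E] [InnerProductSpace ℂ E]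
    {V : Type*} [NormedAddCommGroup V] [NormedSpace ℂ V] (x : V) : E [⋀^Fin 0]→L[ℝ] V :=
  ContinuousAlternatingMap.constOfIsEmpty ℝ E (Fin 0) x

/-! ### the Koszul complex -/

/-- creation and annihilation operators -/
structure Car (Y V : Type*) [NormedAddCommGroup Y] [NormedSpace ℂ Y] [NormedAddCommGroup V]
    [NormedSpace ℂ V] where
  a : Y →L[ℂ] V →L[ℂ] V
  c : (Y →L[ℂ] ℂ) →L[ℂ] V →L[ℂ] V
  Ω : V
  ω : V →L[ℂ] ℂ
  aa : ∀ s t x, a s (a t x) = -a t (a s x)
  cc : ∀ F G x, c F (c G x) = -c G (c F x)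
  ca : ∀ F s x, c F (a s x) + a s (c F x) = F s • x
  cΩ : ∀ F, c F Ω = 0
  ωΩ : ω Ω = 1

/-- the exterior product with an operator valued form of degree `1` -/
noncomputable def wd (K : Car Y V) {q : ℕ} (L : E →L[ℝ] Y) (P : E [⋀^Fin q]→L[ℝ] V) :
    E [⋀^Fin (q + 1)]→L[ℝ] V :=
  ContinuousAlternatingMap.alternatizeUncurryFin
    (((opc E V q).flip P).comp ((K.a.restrictScalars ℝ).comp L))

/-- powers -/
noncomputable def Pw (K : Car Y V) (L : E →L[ℝ] Y) : (r : ℕ) → E [⋀^Fin r]→L[ℝ] V
  | 0 => cst E K.Ω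
  | r + 1 => wd K L (Pw K L r)

/-- sums of mixed powers -/
noncomputable def SP (K : Car Y V) (L L' : E →L[ℝ] Y) : (r : ℕ) → E [⋀^Fin r]→L[ℝ] V
  | 0 => cst E K.Ω
  | r + 1 => wd K L (SP K L L' r) + Pw K L' (r + 1)

/-- the Koszul form of a smooth solution -/
noncomputable def UU (K : Car Y V) (σ : E → Y) (r : ℕ) (w : E) : E [⋀^Fin r]→L[ℝ] V :=
  opc E V r (K.a (σ w)) (Pw K (D01 σ w) r)

/-- the homotopy between the Koszul forms of two smooth solutions -/
noncomputable def JJ (K : Car Y V) (σ σ' : E → Y) (r : ℕ) (w : E) : E [⋀^Fin r]→L[ℝ] V :=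
  opc E V r (K.a (σ w)) (opc E V r (K.a (σ' w)) (SP K (D01 σ w) (D01 σ' w) r))

/-! ### the base, with a general rate -/

/-- a smooth hysteresis map -/
noncomputable def tau3 (ρ : ℝ) (y : ℂ) : ℂ := (((max 0 (1 - ρ / ‖y‖)) ^ 3 : ℝ) : ℂ) * y

section meas

variable [MeasurableSpace E]

/-- the aged approximation of `u` at stage `k` -/
noncomputable def vq (ν : Measure E) (u : E → ℂ) (θ ϑ c : ℝ) (k : ℕ) (w : E) : ℂ :=
  u 0 + ∑ i ∈ Finset.range k, ((psi (Ei ν θ i w / (c * ϑ ^ (k - i))) : ℝ) : ℂ) *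
    (uk u θ (i + 1) w - uk u θ i w)

/-- the base -/
noncomputable def bq (ν : Measure E) (u : E → ℂ) (θ ϑ c ρ : ℝ) : ℕ → E → ℂ
  | 0 => fun _ => u 0
  | k + 1 => fun w => bq ν u θ ϑ c ρ k w + tau3 ρ (vq ν u θ ϑ c (k + 1) w - bq ν u θ ϑ c ρ k w)

/-- the sum of the weighted local potentials -/
noncomputable def SQ (ν : Measure E) (θ ϑ : ℝ) (k : ℕ) (w : E) : ℝ :=
  ∑ i ∈ Finset.range (k + 1), ϑ ^ (2 * (k - i)) * Ei ν θ i w

/-! ### the Koppelman operator -/

/-- the pull back by an automorphism, with a factor, in a space of dimension `m + 1` -/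
noncomputable def Pul (m : ℕ) {q : ℕ} (η : E → E [⋀^Fin q]→L[ℝ] V) (z x : E) :
    E [⋀^Fin q]→L[ℝ] V :=
  ((1 + ⟪z, x⟫_ℂ) ^ (m + 6))⁻¹ •
    (η (gg z x)).compContinuousLinearMap ((gg' z x).restrictScalars ℝ)

/-- the value of the operator at the origin -/
noncomputable def T0 (μ : Measure E) {q : ℕ} (η : E → E [⋀^Fin (q + 1)]→L[ℝ] V) :
    E [⋀^Fin q]→L[ℝ] V :=
  (-(2 / cW μ) : ℝ) • ∫ p in Icc (0 : ℝ) 1 ×ˢ ball (0 : E) 1,
    ((1 - p.1 ^ 2) ^ q * WW p.2) • (η ((p.1 : ℂ) • p.2)).curryLeft p.2 ∂(volume.prod μ)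

/-- the Koppelman operator of the unit ball, in a space of dimension `m + 1` -/
noncomputable def TT (μ : Measure E) (m : ℕ) {q : ℕ} (η : E → E [⋀^Fin (q + 1)]→L[ℝ] V) (z : E) :
    E [⋀^Fin q]→L[ℝ] V :=
  (T0 μ (Pul m η z)).compContinuousLinearMap ((gg' (-z) z).restrictScalars ℝ)

/-- the Koppelman operator of the ball of radius `R` -/
noncomputable def TR (μ : Measure E) (m : ℕ) (R : ℝ) {q : ℕ}
    (η : E → E [⋀^Fin (q + 1)]→L[ℝ] V) (z : E) : E [⋀^Fin q]→L[ℝ] V :=
  R • TT μ m (fun x => η ((R : ℂ) • x)) (((R⁻¹ : ℝ) : ℂ) • z)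

/-- the size of a form on the ball of radius `R`, at the level `k` -/
def Bd {q : ℕ} (ν : Measure E) (θ ϑ : ℝ) (k : ℕ) (R B γ : ℝ)
    (η : E → E [⋀^Fin q]→L[ℝ] V) : Prop :=
  ∀ w : E, ‖w‖ < R → ∀ v : Fin q → E,
    ‖η w v‖ ≤ B * xk θ k w ^ γ * SQ ν θ ϑ k w * ∏ i, gau (dl θ k w) w (v i)

end meas

end Pool.Agent.MPca0fc2.QT
end

section

/-! The Koszul forms, by components. `QT.Car` (QTDefs.lean) = creation operators `K.a y` and
annihilation operators `K.c F` on `V` with the anticommutation relations, the vacuum `K.Ω` and a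
functional `K.ω` with `K.ω K.Ω = 1`. -/

set_option autoImplicit false

open Metric Set MeasureTheory Filter Topology

namespace Pool.Agent.MPca0fc2.FD

variable {n : ℕ} {Y V : Type*} [NormedAddCommGroup Y] [NormedSpace ℂ Y] [NormedAddCommGroup V]
  [NormedSpace ℂ V]

/-- the product of creation operators applied to the vacuum -/
noncomputable def pwr (K : QT.Car Y V) : (r : ℕ) → (Fin r → Y) → V
  | 0, _ => K.Ω
  | r + 1, f => K.a (f 0) (pwr K r (fun i => f i.succ))

omit [NormedAddCommGroup Y] [NormedSpace ℂ Y] in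
private theorem K1_t0 {r : ℕ} (f : Fin (r + 1) → Y) (v : Y) :
    (fun i : Fin r => Function.update f 0 v i.succ) = fun i => f i.succ := by
  funext i
  exact Function.update_of_ne (Fin.succ_ne_zero i) _ _

omit [NormedAddCommGroup Y] [NormedSpace ℂ Y] in
private theorem K1_ts {r : ℕ} (f : Fin (r + 1) → Y) (j : Fin r) (v : Y) :
    (fun i : Fin r => Function.update f j.succ v i.succ) =
      Function.update (fun i : Fin r => f i.succ) j v := by
  funext i
  by_cases hij : i = j
  · subst hij
    simp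
  · rw [Function.update_of_ne hij, Function.update_of_ne (fun h => hij (Fin.succ_injective _ h))]

omit [NormedAddCommGroup Y] [NormedSpace ℂ Y] in
private theorem K1_hs {r : ℕ} (f : Fin (r + 1) → Y) (j : Fin r) (v : Y) :
    Function.update f j.succ v 0 = f 0 :=
  Function.update_of_ne (Fin.succ_ne_zero j).symm _ _

/-- PROOF. Induction on `r` (`K.a` is bilinear; cases `i = 0`, `i = succ`). -/
theorem pwr_add (K : QT.Car Y V) {r : ℕ} (f : Fin r → Y) (i : Fin r) (y y' : Y) :
    pwr K r (Function.update f i (y + y')) =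
      pwr K r (Function.update f i y) + pwr K r (Function.update f i y') := by
  induction r with
  | zero => exact i.elim0
  | succ r ih =>
    refine Fin.cases ?_ (fun j => ?_) i
    · simp only [pwr, K1_t0, Function.update_self, map_add, add_apply]
    · simp only [pwr, K1_ts, K1_hs, ih, map_add]

/-- PROOF. Induction on `r`. -/
theorem pwr_smul (K : QT.Car Y V) {r : ℕ} (f : Fin r → Y) (i : Fin r) (a : ℂ) (y : Y) :
    pwr K r (Function.update f i (a • y)) = a • pwr K r (Function.update f i y) := by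
  induction r with
  | zero => exact i.elim0
  | succ r ih =>
    refine Fin.cases ?_ (fun j => ?_) i
    · simp only [pwr, K1_t0, Function.update_self, map_smul, smul_apply]
    · simp only [pwr, K1_ts, K1_hs, ih, map_smul]

/-- Moving a factor to its place.
PROOF. Induction on `r`: for `i = 0` it is the definition. For `i = i'.succ`:
`K.a y (K.a (f 0) P) = -K.a (f 0) (K.a y P)` (`K.aa`) and the induction hypothesis for the rest. Here
`i.insertNth y f : Fin (r + 1) → Y`. -/
theorem pwr_insert (K : QT.Car Y V) {r : ℕ} (f : Fin r → Y) (i : Fin (r + 1)) (y : Y) :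
    K.a y (pwr K r f) = ((-1 : ℂ) ^ (i : ℕ)) • pwr K (r + 1) (i.insertNth (α := fun _ => Y) y f) := by
  induction r with
  | zero =>
    have hi : i = 0 := Fin.eq_zero i
    subst hi
    simp [pwr]
  | succ r ih =>
    refine Fin.cases ?_ (fun j => ?_) i
    · have e0 : (Fin.insertNth (α := fun _ => Y) (0 : Fin (r + 2)) y f) 0 = y :=
        Fin.insertNth_apply_same (α := fun _ => Y) 0 y f
      have e1 : (fun i : Fin (r + 1) =>
          (Fin.insertNth (α := fun _ => Y) (0 : Fin (r + 2)) y f) i.succ) = f := by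
        funext i
        simp
      change _ = _ • K.a ((Fin.insertNth (α := fun _ => Y) (0 : Fin (r + 2)) y f) 0)
        (pwr K (r + 1) (fun i : Fin (r + 1) =>
          (Fin.insertNth (α := fun _ => Y) (0 : Fin (r + 2)) y f) i.succ))
      rw [e0, e1]
      simp
    · have e0 : (Fin.insertNth (α := fun _ => Y) (j.succ : Fin (r + 2)) y f) 0 = f 0 := by
        have := Fin.insertNth_apply_succAbove (α := fun _ => Y) (j.succ : Fin (r + 2)) y f 0
        simpa using this
      have e1 : (fun i : Fin (r + 1) =>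
          (Fin.insertNth (α := fun _ => Y) (j.succ : Fin (r + 2)) y f) i.succ) =
          Fin.insertNth (α := fun _ => Y) j y (fun i : Fin r => f i.succ) := by
        funext i
        refine Fin.succAboveCases j ?_ (fun l => ?_) i
        · rw [Fin.insertNth_apply_same, Fin.insertNth_apply_same]
        · rw [Fin.insertNth_apply_succAbove]
          have := Fin.insertNth_apply_succAbove (α := fun _ => Y) (j.succ : Fin (r + 2)) y f l.succ
          rw [Fin.succ_succAbove_succ] at this
          exact this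
      change K.a y (K.a (f 0) (pwr K r (fun i => f i.succ))) =
        _ • K.a ((Fin.insertNth (α := fun _ => Y) (j.succ : Fin (r + 2)) y f) 0)
        (pwr K (r + 1) (fun i : Fin (r + 1) =>
          (Fin.insertNth (α := fun _ => Y) (j.succ : Fin (r + 2)) y f) i.succ))
      rw [e0, e1, K.aa, ih _ j, map_smul, Fin.val_succ, pow_succ, mul_neg_one, neg_smul]

/-- PROOF. `K.a y (K.a y x) = 0` by `K.aa` (`2 • = 0`); if `f i = f j`, `i < j`, move both factors to the
front with `pwr_insert` (or induct). -/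
theorem pwr_eq_zero (K : QT.Car Y V) {r : ℕ} (f : Fin r → Y) {i j : Fin r} (hij : i ≠ j)
    (hf : f i = f j) : pwr K r f = 0 := by
  have haa : ∀ (y : Y) (x : V), K.a y (K.a y x) = 0 := fun y x => by
    have h := K.aa y y x
    have h2 : (2 : ℂ) • K.a y (K.a y x) = 0 := by
      rw [two_smul]
      nth_rewrite 1 [h]
      exact neg_add_cancel _
    exact (smul_eq_zero.mp h2).resolve_left two_ne_zero
  induction r with
  | zero => exact i.elim0
  | succ r ih =>
    have key : ∀ l : Fin r, f 0 = f l.succ → pwr K (r + 1) f = 0 := by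
      intro l hl
      rcases r with _ | r
      · exact l.elim0
      · have e := pwr_insert K (fun m : Fin r => f (l.succAbove m).succ) l (f l.succ)
        have e2 : (Fin.insertNth (α := fun _ => Y) l (f l.succ)
            (fun m : Fin r => f (l.succAbove m).succ)) = fun m => f m.succ := by
          funext m
          refine Fin.succAboveCases l ?_ (fun k => ?_) m
          · rw [Fin.insertNth_apply_same]
          · rw [Fin.insertNth_apply_succAbove]
        rw [e2] at e
        have e3 : pwr K (r + 1) (fun m => f m.succ) = ((-1 : ℂ) ^ (l : ℕ)) •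
            K.a (f l.succ) (pwr K r (fun m : Fin r => f (l.succAbove m).succ)) := by
          rw [e, smul_smul, ← mul_pow, neg_one_mul, neg_neg, one_pow, one_smul]
        change K.a (f 0) (pwr K (r + 1) (fun m => f m.succ)) = 0
        rw [e3, map_smul, hl, haa, smul_zero]
    revert hij hf
    refine Fin.cases ?_ (fun i' => ?_) i
    · refine Fin.cases ?_ (fun j' => ?_) j
      · intro hij
        exact absurd rfl hij
      · intro _ hf
        exact key j' hf
    · refine Fin.cases ?_ (fun j' => ?_) j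
      · intro _ hf
        exact key i' hf.symm
      · intro hij hf
        change K.a (f 0) (pwr K r (fun m => f m.succ)) = 0
        rw [ih (fun m => f m.succ) (i := i') (j := j') (fun h => hij (by rw [h])) hf, map_zero]

/-- `pwr` as an alternating map -/
private noncomputable def K1_am (K : QT.Car Y V) (r : ℕ) : Y [⋀^Fin r]→ₗ[ℂ] V where
  toFun := pwr K r
  map_update_add' := by
    intro inst f i y y'
    rw [Subsingleton.elim inst (instDecidableEqFin r)]
    exact pwr_add K f i y y'
  map_update_smul' := by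
    intro inst f i a y
    rw [Subsingleton.elim inst (instDecidableEqFin r)]
    exact pwr_smul K f i a y
  map_eq_zero_of_eq' := by
    intro f i j hf hij
    exact pwr_eq_zero K f hij hf

/-- PROOF. The map `f ↦ pwr K r f` is multilinear (`pwr_add`, `pwr_smul`) and alternating
(`pwr_eq_zero`), so it is an `AlternatingMap`, and `AlternatingMap.map_perm`. -/
theorem pwr_perm (K : QT.Car Y V) {r : ℕ} (f : Fin r → Y) (σ : Equiv.Perm (Fin r)) :
    pwr K r (f ∘ σ) = ((Equiv.Perm.sign σ : ℤ) : ℂ) • pwr K r f := by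
  have h := (K1_am K r).map_perm f σ
  change pwr K r (f ∘ σ) = Equiv.Perm.sign σ • pwr K r f at h
  rw [h]
  rcases Int.units_eq_one_or (Equiv.Perm.sign σ) with h1 | h1 <;> rw [h1] <;> simp

/-- PROOF. Induction on `r`: `c_F (a_y x) = F y • x - a_y (c_F x)` (`K.ca`), `F y = 0`, `K.cΩ`. -/
theorem pwr_c (K : QT.Car Y V) {r : ℕ} (f : Fin r → Y) (F : Y →L[ℂ] ℂ) (hF : ∀ i, F (f i) = 0) :
    K.c F (pwr K r f) = 0 := by
  induction r with
  | zero => exact K.cΩ F
  | succ r ih =>
    have h := K.ca F (f 0) (pwr K r (fun i => f i.succ))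
    rw [hF 0, zero_smul, ih (fun i => f i.succ) (fun i => hF i.succ), map_zero, add_zero] at h
    exact h

/-- PROOF. Induction on `r`: `‖K.a y x‖ ≤ ‖K.a‖ ‖y‖ ‖x‖`. -/
theorem pwr_norm (K : QT.Car Y V) {r : ℕ} (f : Fin r → Y) :
    ‖pwr K r f‖ ≤ ‖K.a‖ ^ r * ‖K.Ω‖ * ∏ i, ‖f i‖ := by
  induction r with
  | zero => simp [pwr]
  | succ r ih =>
    have h1 : ‖K.a (f 0) (pwr K r (fun i => f i.succ))‖ ≤
        ‖K.a‖ * ‖f 0‖ * ‖pwr K r (fun i => f i.succ)‖ := K.a.le_opNorm₂ _ _
    have h2 := ih (fun i => f i.succ)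
    rw [Fin.prod_univ_succ]
    calc ‖pwr K (r + 1) f‖ ≤ ‖K.a‖ * ‖f 0‖ * ‖pwr K r (fun i => f i.succ)‖ := h1
      _ ≤ ‖K.a‖ * ‖f 0‖ * (‖K.a‖ ^ r * ‖K.Ω‖ * ∏ i : Fin r, ‖f i.succ‖) :=
        mul_le_mul_of_nonneg_left h2 (by positivity)
      _ = ‖K.a‖ ^ (r + 1) * ‖K.Ω‖ * (‖f 0‖ * ∏ i : Fin r, ‖f i.succ‖) := by ring

/-- the Koszul forms of a smooth solution `σ` -/
noncomputable def UU (K : QT.Car Y V) (σ : Ec n → Y) (r : ℕ) : Fm n r V := fun J z =>
  (r.factorial : ℂ) • K.a (σ z) (pwr K r (fun i => db σ z (ee (J i))))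

/-- PROOF. `pwr_perm`. -/
theorem UU_alt (K : QT.Car Y V) (σ : Ec n → Y) (r : ℕ) : AltF (UU K σ r) := by
  intro τ J z
  have h := pwr_perm K (fun i => db σ z (ee (J i))) τ
  change (r.factorial : ℂ) • K.a (σ z) (pwr K r ((fun i => db σ z (ee (J i))) ∘ τ)) = _ • _
  rw [h, map_smul, smul_comm]
  rfl

private theorem K1_lin (G : Ec n → Y) (z X X' : Ec n) (a : ℂ) :
    db G z (a • X + X') = (starRingEnd ℂ) a • db G z X + db G z X' := by
  have e1 : a • X = a.re • X + a.im • (Complex.I • X) := by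
    ext j
    simp only [PiLp.smul_apply, PiLp.add_apply, smul_eq_mul, Complex.real_smul]
    conv_lhs => rw [← Complex.re_add_im a]
    ring
  have e2 : Complex.I • (a • X) = a.re • (Complex.I • X) - a.im • X := by
    ext j
    simp only [PiLp.smul_apply, PiLp.sub_apply, smul_eq_mul, Complex.real_smul]
    conv_lhs => rw [← Complex.re_add_im a]
    linear_combination (a.im : ℂ) * X j * Complex.I_mul_I
  have e3 : ∀ (r : ℝ) (y : Y), r • y = (r : ℂ) • y := fun r y => by simp
  have e4 : (starRingEnd ℂ) a = (a.re : ℂ) - (a.im : ℂ) * Complex.I := by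
    apply Complex.ext <;> simp
  have e5 : ∀ y : Y, Complex.I • Complex.I • y = -y := fun y => by
    rw [smul_smul, Complex.I_mul_I, neg_one_smul]
  unfold db
  rw [smul_add Complex.I (a • X) X', e2, e1]
  simp only [map_add, map_sub, map_smul, e3, e4, smul_add, smul_sub, sub_smul, mul_smul]
  generalize fderiv ℝ G z X = u
  generalize fderiv ℝ G z (Complex.I • X) = v
  generalize fderiv ℝ G z X' = u'
  generalize fderiv ℝ G z (Complex.I • X') = v'
  match_scalars <;> ring_nf
  · rw [Complex.I_sq]; ring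

private theorem K1_db_sum (σ : Ec n → Y) (z X : Ec n) :
    db σ z X = ∑ k, (starRingEnd ℂ) (X k) • db σ z (ee k) := by
  have h0 : db σ z 0 = 0 := by simp [db]
  have hs : ∀ s : Finset (Fin n), db σ z (∑ k ∈ s, X k • ee k) =
      ∑ k ∈ s, (starRingEnd ℂ) (X k) • db σ z (ee k) := by
    intro s
    classical
    induction s using Finset.induction_on with
    | empty => simpa using h0
    | insert a s ha ih =>
      rw [Finset.sum_insert ha, Finset.sum_insert ha, K1_lin, ih]
  have hX : X = ∑ k, X k • ee k := by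
    ext j
    simp [ee, Pi.single_apply]
  conv_lhs => rw [hX]
  exact hs Finset.univ

/-- PROOF. `pwr` is multilinear and `db σ z` is conjugate linear (`db_conj_lin` in B1; here you may reprove it),
`X i = ∑ k, X i k • ee k`: expand (`MultilinearMap.map_sum`, or induct on `r`). -/
theorem ev_UU (K : QT.Car Y V) (σ : Ec n → Y) (r : ℕ) (z : Ec n) (X : Fin r → Ec n) :
    ev (UU K σ r) z X = (r.factorial : ℂ) • K.a (σ z) (pwr K r (fun i => db σ z (X i))) := by
  have h1 : pwr K r (fun i => db σ z (X i)) =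
      ∑ I : Fin r → Fin n, (∏ i, (starRingEnd ℂ) (X i (I i))) •
        pwr K r (fun i => db σ z (ee (I i))) := by
    have e : (fun i => db σ z (X i)) =
        fun i => ∑ k, (starRingEnd ℂ) (X i k) • db σ z (ee k) := by
      funext i
      exact K1_db_sum σ z (X i)
    rw [e]
    have h := (K1_am K r).toMultilinearMap.map_sum
      (fun (i : Fin r) (k : Fin n) => (starRingEnd ℂ) (X i k) • db σ z (ee k))
    refine h.trans (Finset.sum_congr rfl fun I _ => ?_)
    exact (K1_am K r).toMultilinearMap.map_smul_univ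
      (fun i => (starRingEnd ℂ) (X i (I i))) (fun i => db σ z (ee (I i)))
  rw [h1, map_sum, Finset.smul_sum]
  refine Finset.sum_congr rfl fun I _ => ?_
  rw [map_smul]
  exact smul_comm _ _ _

/-- PROOF. `AltF_zero`: `J : Fin r → Fin n` is not injective for `r > n`. -/
theorem UU_zero (K : QT.Car Y V) (σ : Ec n → Y) {r : ℕ} (hr : n < r) (J : Fin r → Fin n)
    (z : Ec n) : UU K σ r J z = 0 := by
  refine AltF_zero (UU_alt K σ r) ?_ z
  intro hJ
  have := Fintype.card_le_of_injective J hJ
  simp at this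
  omega

/-- The bound of the Koszul forms.
PROOF. `ev_UU`, `pwr_norm`: at most `r! ‖K.a‖^(r+1) ‖K.Ω‖ C₁ ∏ (G Ene gau (X i))`, and
`Ene^r ≤ E₀^(r-1) Ene` for `r ≥ 1`. -/
theorem UU_bd (K : QT.Car Y V) (r : ℕ) (hr : 1 ≤ r) (C₁ G E₀ : ℝ) (hC : 0 ≤ C₁) (hG : 0 ≤ G) :
    ∃ B : ℝ, 0 ≤ B ∧ ∀ (U : Set (Ec n)) (δ : Ec n → ℝ) (h : Ec n → Ec n → Fin n → ℂ) (P : PD n)
    (σ : Ec n → Y), (∀ z ∈ Om U δ, 0 ≤ Ene P δ z ∧ Ene P δ z ≤ E₀) →
    (∀ z ∈ Om U δ, ‖σ z‖ ≤ C₁) →
    (∀ z ∈ Om U δ, ∀ X, ‖db σ z X‖ ≤ G * Ene P δ z * gau δ h z X) →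
    Bd U δ h P B (UU K σ r) := by
  refine ⟨r.factorial * (‖K.a‖ * C₁) * (‖K.a‖ ^ r * ‖K.Ω‖) * G ^ r * |E₀| ^ (r - 1),
    by positivity, ?_⟩
  intro U δ h P σ hE hσ hd z hz X
  obtain ⟨hE0, hE1⟩ := hE z hz
  have hg : ∀ i, 0 ≤ gau δ h z (X i) := fun i => by
    have := hz.2
    unfold gau
    positivity
  rw [ev_UU, norm_smul, Complex.norm_natCast]
  have h1 : ‖K.a (σ z) (pwr K r (fun i => db σ z (X i)))‖ ≤
      ‖K.a‖ * ‖σ z‖ * ‖pwr K r (fun i => db σ z (X i))‖ := K.a.le_opNorm₂ _ _
  have h2 := pwr_norm K (fun i => db σ z (X i))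
  have h3 : ∏ i, ‖db σ z (X i)‖ ≤ ∏ i, (G * Ene P δ z * gau δ h z (X i)) :=
    Finset.prod_le_prod (fun i _ => norm_nonneg _) (fun i _ => hd z hz (X i))
  have h4 : ∏ i, (G * Ene P δ z * gau δ h z (X i)) =
      G ^ r * Ene P δ z ^ r * ∏ i, gau δ h z (X i) := by
    rw [Finset.prod_mul_distrib, Finset.prod_const, Finset.card_univ, Fintype.card_fin, mul_pow]
  have h5 : Ene P δ z ^ r ≤ |E₀| ^ (r - 1) * Ene P δ z := by
    obtain ⟨m, rfl⟩ : ∃ m, r = m + 1 := ⟨r - 1, by omega⟩
    rw [pow_succ, Nat.add_sub_cancel]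
    exact mul_le_mul_of_nonneg_right
      (pow_le_pow_left₀ hE0 (hE1.trans (le_abs_self _)) m) hE0
  have hp : 0 ≤ ∏ i, gau δ h z (X i) := Finset.prod_nonneg fun i _ => hg i
  calc (r.factorial : ℝ) * ‖K.a (σ z) (pwr K r (fun i => db σ z (X i)))‖
      ≤ r.factorial * (‖K.a‖ * ‖σ z‖ * ‖pwr K r (fun i => db σ z (X i))‖) := by gcongr
    _ ≤ r.factorial * (‖K.a‖ * C₁ * (‖K.a‖ ^ r * ‖K.Ω‖ *
        ((G ^ r * (|E₀| ^ (r - 1) * Ene P δ z)) * ∏ i, gau δ h z (X i)))) := by
      have h6 : ∏ i, ‖db σ z (X i)‖ ≤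
          (G ^ r * (|E₀| ^ (r - 1) * Ene P δ z)) * ∏ i, gau δ h z (X i) := by
        refine h3.trans (h4.le.trans ?_)
        gcongr
      have h7 := hσ z hz
      have h8 : ‖pwr K r (fun i => db σ z (X i))‖ ≤ ‖K.a‖ ^ r * ‖K.Ω‖ *
          ((G ^ r * (|E₀| ^ (r - 1) * Ene P δ z)) * ∏ i, gau δ h z (X i)) :=
        h2.trans (mul_le_mul_of_nonneg_left h6 (by positivity))
      gcongr
    _ = _ := by ring

end Pool.Agent.MPca0fc2.FD
end

section

set_option autoImplicit false

open Metric Set MeasureTheory Filter Topology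
open scoped InnerProductSpace ENNReal

namespace Pool.Agent.MPca0fc2.QT

open Pool.Agent.MPca0fc2.PT

/-- the tail of a vector -/
private noncomputable def carTail (N : ℕ) : (Fin (N + 1) → ℂ) →ₗ[ℂ] (Fin N → ℂ) where
  toFun s := fun i => s i.succ
  map_add' _ _ := rfl
  map_smul' _ _ := rfl

/-- extension by zero -/
private noncomputable def carExt (N : ℕ) : (Fin N → ℂ) →L[ℂ] (Fin (N + 1) → ℂ) :=
  LinearMap.toContinuousLinearMap
    { toFun := fun s => Fin.cons 0 s
      map_add' := by
        intro x y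
        funext i
        refine Fin.cases ?_ (fun j => ?_) i <;> simp
      map_smul' := by
        intro c x
        funext i
        refine Fin.cases ?_ (fun j => ?_) i <;> simp }

private noncomputable def carE0 (N : ℕ) : Fin (N + 1) → ℂ := Fin.cons 1 0

private lemma carSplit (N : ℕ) (F : (Fin (N + 1) → ℂ) →L[ℂ] ℂ) (s : Fin (N + 1) → ℂ) :
    F s = F (carExt N (carTail N s)) + s 0 * F (carE0 N) := by
  have h : s = carExt N (carTail N s) + s 0 • carE0 N := by
    funext i
    refine Fin.cases ?_ (fun j => ?_) i <;> simp [carExt, carTail, carE0]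
  conv_lhs => rw [h]
  rw [map_add, map_smul, smul_eq_mul]

private noncomputable def carA {N : ℕ} {V : Type} [NormedAddCommGroup V] [NormedSpace ℂ V]
    (K : Car (Fin N → ℂ) V) :
    (Fin (N + 1) → ℂ) →L[ℂ] (V × V) →L[ℂ] (V × V) :=
  LinearMap.toContinuousLinearMap
    { toFun := fun s =>
        ((K.a (carTail N s)).comp (ContinuousLinearMap.fst ℂ V V)).prod
          (-((K.a (carTail N s)).comp (ContinuousLinearMap.snd ℂ V V)) +
            s 0 • (ContinuousLinearMap.fst ℂ V V))
      map_add' := by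
        intro s t
        apply ContinuousLinearMap.ext
        rintro ⟨x, y⟩
        ext
        · simp
        · simp [add_smul]
          abel
      map_smul' := by
        intro c s
        apply ContinuousLinearMap.ext
        rintro ⟨x, y⟩
        ext
        · simp
        · simp [mul_smul] }

private lemma carA_apply {N : ℕ} {V : Type} [NormedAddCommGroup V] [NormedSpace ℂ V]
    (K : Car (Fin N → ℂ) V) (s : Fin (N + 1) → ℂ) (p : V × V) :
    carA K s p = (K.a (carTail N s) p.1, -K.a (carTail N s) p.2 + s 0 • p.1) := rfl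

private noncomputable def carC {N : ℕ} {V : Type} [NormedAddCommGroup V] [NormedSpace ℂ V]
    (K : Car (Fin N → ℂ) V) :
    ((Fin (N + 1) → ℂ) →L[ℂ] ℂ) →L[ℂ] (V × V) →L[ℂ] (V × V) :=
  LinearMap.toContinuousLinearMap
    { toFun := fun F =>
        ((K.c (F.comp (carExt N))).comp (ContinuousLinearMap.fst ℂ V V) +
            F (carE0 N) • (ContinuousLinearMap.snd ℂ V V)).prod
          (-((K.c (F.comp (carExt N))).comp (ContinuousLinearMap.snd ℂ V V)))
      map_add' := by
        intro F G
        apply ContinuousLinearMap.ext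
        rintro ⟨x, y⟩
        ext
        · simp [ContinuousLinearMap.add_comp, add_smul]
          abel
        · simp [ContinuousLinearMap.add_comp]
          abel
      map_smul' := by
        intro c F
        apply ContinuousLinearMap.ext
        rintro ⟨x, y⟩
        ext
        · simp [ContinuousLinearMap.smul_comp, mul_smul]
        · simp [ContinuousLinearMap.smul_comp] }

private lemma carC_apply {N : ℕ} {V : Type} [NormedAddCommGroup V] [NormedSpace ℂ V]
    (K : Car (Fin N → ℂ) V) (F : (Fin (N + 1) → ℂ) →L[ℂ] ℂ) (p : V × V) :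
    carC K F p = (K.c (F.comp (carExt N)) p.1 + F (carE0 N) • p.2,
      -K.c (F.comp (carExt N)) p.2) := rfl

/-- creation and annihilation operators exist -/
theorem exists_car (N : ℕ) : ∃ (V : Type) (_ : NormedAddCommGroup V) (_ : NormedSpace ℂ V)
    (_ : FiniteDimensional ℂ V), Nonempty (Car (Fin N → ℂ) V) := by
  induction N with
  | zero =>
    refine ⟨ℂ, inferInstance, inferInstance, inferInstance, ⟨?_⟩⟩
    exact
      { a := 0
        c := 0
        Ω := 1
        ω := ContinuousLinearMap.id ℂ ℂ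
        aa := by intro s t x; simp
        cc := by intro F G x; simp
        ca := by
          intro F s x
          have hs : s = 0 := Subsingleton.elim _ _
          have hF : F s = 0 := by rw [hs]; exact map_zero F
          rw [hF, zero_smul]
          exact add_zero _
        cΩ := by intro F; simp
        ωΩ := by simp }
  | succ N ih =>
    obtain ⟨V, i1, i2, i3, ⟨K⟩⟩ := ih
    refine ⟨V × V, inferInstance, inferInstance, inferInstance, ⟨?_⟩⟩
    exact
      { a := carA K
        c := carC K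
        Ω := (K.Ω, 0)
        ω := K.ω.comp (ContinuousLinearMap.fst ℂ V V)
        aa := by
          rintro s t ⟨x, y⟩
          simp only [carA_apply]
          ext
          · exact K.aa _ _ _
          · simp only [map_add, map_neg, map_smul, K.aa (carTail N s) (carTail N t) y, Prod.snd_neg]
            abel
        cc := by
          rintro F G ⟨x, y⟩
          simp only [carC_apply]
          ext
          · simp only [map_add, map_smul, K.cc (F.comp (carExt N)) (G.comp (carExt N)) x,
              Prod.fst_neg, smul_neg]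
            abel
          · simp only [map_neg, K.cc (F.comp (carExt N)) (G.comp (carExt N)) y, Prod.snd_neg]
        ca := by
          rintro F s ⟨x, y⟩
          simp only [carA_apply, carC_apply]
          have hx := K.ca (F.comp (carExt N)) (carTail N s) x
          have hy := K.ca (F.comp (carExt N)) (carTail N s) y
          rw [ContinuousLinearMap.comp_apply] at hx hy
          rw [carSplit N F s]
          ext
          · simp only [Prod.fst_add, Prod.smul_fst, map_add, map_smul, add_smul, ← hx]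
            module
          · simp only [Prod.snd_add, Prod.smul_snd, map_add, map_smul, map_neg, add_smul, ← hy]
            module
        cΩ := by
          intro F
          simp only [carC_apply, K.cΩ]
          simp
        ωΩ := by simp [K.ωΩ] }

end Pool.Agent.MPca0fc2.QT
end

section

set_option autoImplicit false

open Metric Set MeasureTheory Filter Topology
open scoped InnerProductSpace ENNReal

namespace Pool.Agent.MPca0fc2.QT

open Pool.Agent.MPca0fc2.PT

variable {E : Type*} [NormedAddCommGroup E] [InnerProductSpace ℂ E]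
variable {V : Type*} [NormedAddCommGroup V] [NormedSpace ℂ V]
variable {Y : Type*} [NormedAddCommGroup Y] [NormedSpace ℂ Y]

theorem jI_apply (v : E) : jI E v = Complex.I • v := rfl

theorem opc_apply {q : ℕ} (A : V →L[ℂ] V) (P : E [⋀^Fin q]→L[ℝ] V) (v : Fin q → E) :
    opc E V q A P v = A (P v) := rfl

theorem wd_apply (K : Car Y V) {q : ℕ} (L : E →L[ℝ] Y) (P : E [⋀^Fin q]→L[ℝ] V)
    (v : Fin (q + 1) → E) :
    wd K L P v = ∑ i : Fin (q + 1), (-1) ^ (i : ℕ) • K.a (L (v i)) (P (i.removeNth v)) := by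
  unfold wd
  rw [ContinuousAlternatingMap.alternatizeUncurryFin_apply]
  rfl

theorem d1_apply {q : ℕ} (η : E → E [⋀^Fin q]→L[ℝ] V) (w v : E) (x : Fin q → E) :
    d1 η w v x = (2⁻¹ : ℂ) • (fderiv ℝ η w v x + Complex.I • fderiv ℝ η w (Complex.I • v) x) := rfl

theorem d1_I {q : ℕ} (η : E → E [⋀^Fin q]→L[ℝ] V) (w v : E) :
    d1 η w (Complex.I • v) = -(Complex.I • d1 η w v) := by
  ext x
  rw [ContinuousAlternatingMap.neg_apply, ContinuousAlternatingMap.smul_apply, d1_apply, d1_apply]
  have h1 : Complex.I • Complex.I • v = -v := by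
    rw [smul_smul, Complex.I_mul_I, neg_one_smul]
  rw [h1, map_neg, ContinuousAlternatingMap.neg_apply]
  rw [smul_comm Complex.I (2⁻¹ : ℂ), smul_add Complex.I, smul_smul Complex.I Complex.I,
    Complex.I_mul_I, neg_one_smul, ← smul_neg]
  congr 1
  rw [smul_neg]
  abel

theorem D01_apply (σ : E → Y) (w v : E) :
    D01 σ w v = (2⁻¹ : ℂ) • (fderiv ℝ σ w v + Complex.I • fderiv ℝ σ w (Complex.I • v)) := rfl

theorem D01_I (σ : E → Y) (w v : E) : D01 σ w (Complex.I • v) = -(Complex.I • D01 σ w v) := by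
  rw [D01_apply, D01_apply]
  have h1 : Complex.I • Complex.I • v = -v := by
    rw [smul_smul, Complex.I_mul_I, neg_one_smul]
  rw [h1, map_neg]
  rw [smul_comm Complex.I (2⁻¹ : ℂ), smul_add Complex.I, smul_smul Complex.I Complex.I,
    Complex.I_mul_I, neg_one_smul, ← smul_neg]
  congr 1
  rw [smul_neg]
  abel

theorem D01_holo {σ : E → Y} {w : E} (h : DifferentiableAt ℂ σ w) : D01 σ w = 0 := by
  ext v
  rw [D01_apply, h.fderiv_restrictScalars ℝ]
  simp only [ContinuousLinearMap.coe_restrictScalars', map_smul, ContinuousLinearMap.zero_apply]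
  rw [smul_smul Complex.I Complex.I, Complex.I_mul_I, neg_one_smul, add_neg_cancel, smul_zero]

/-- functions whose conjugate linear derivative vanishes are holomorphic -/
theorem holo_of_D01 {σ : E → Y} {w : E} (h : DifferentiableAt ℝ σ w) (h0 : D01 σ w = 0) :
    DifferentiableAt ℂ σ w := by
  have hI : ∀ v : E, fderiv ℝ σ w (Complex.I • v) = Complex.I • fderiv ℝ σ w v := by
    intro v
    have h1 : (2⁻¹ : ℂ) • (fderiv ℝ σ w v + Complex.I • fderiv ℝ σ w (Complex.I • v)) = 0 := by
      rw [← D01_apply, h0]; rfl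
    have h2 : fderiv ℝ σ w v + Complex.I • fderiv ℝ σ w (Complex.I • v) = 0 := by
      rcases smul_eq_zero.1 h1 with h | h
      · norm_num at h
      · exact h
    have h3 : Complex.I • (fderiv ℝ σ w v + Complex.I • fderiv ℝ σ w (Complex.I • v)) = 0 := by
      rw [h2, smul_zero]
    rw [smul_add, smul_smul Complex.I Complex.I, Complex.I_mul_I, neg_one_smul] at h3
    exact (sub_eq_zero.1 (by rw [sub_eq_add_neg]; exact h3)).symm
  have hc : ∀ (c : ℂ) (v : E), fderiv ℝ σ w (c • v) = c • fderiv ℝ σ w v := by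
    intro c v
    have e1 : c • v = (c.re : ℝ) • v + (c.im : ℝ) • (Complex.I • v) := by
      conv_lhs => rw [← Complex.re_add_im c]
      rw [add_smul, mul_smul, Complex.coe_smul, Complex.coe_smul]
    have e2 : c • fderiv ℝ σ w v
        = (c.re : ℝ) • fderiv ℝ σ w v + (c.im : ℝ) • (Complex.I • fderiv ℝ σ w v) := by
      conv_lhs => rw [← Complex.re_add_im c]
      rw [add_smul, mul_smul, Complex.coe_smul, Complex.coe_smul]
    rw [e1, e2, map_add, map_smul, map_smul, hI]
  let L : E →L[ℂ] Y :=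
    { toFun := fderiv ℝ σ w
      map_add' := fun x y => map_add _ x y
      map_smul' := fun c v => hc c v
      cont := (fderiv ℝ σ w).continuous }
  have hL : L.restrictScalars ℝ = fderiv ℝ σ w := by
    ext v; rfl
  exact (hasFDerivAt_of_restrictScalars ℝ h.hasFDerivAt hL).differentiableAt

end Pool.Agent.MPca0fc2.QT
end
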