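import Pool.Agent.Lib.MP_ca0fc2_an.Mg.G046
import Pool.Agent.Lib.MP_ca0fc2_an.Mg.G059

section

/-! Small strictly pseudoconvex domains near a boundary point. -/

set_option autoImplicit false

open Metric Set MeasureTheory Filter Topology

namespace Pool.Agent.MPca0fc2.FD

open Pool.Agent.Lib.MP_ca0fc2_an (SupportData)

variable {n : ℕ}

/-- the one variable bump -/
noncomputable def ch (t₀ t : ℝ) : ℝ := max (t - t₀) 0 ^ 4

private theorem L1_hd (m : ℕ) (t₀ t : ℝ) :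
    HasDerivAt (fun t => max (t - t₀) 0 ^ (m + 2))
      (((m + 2 : ℕ) : ℝ) * max (t - t₀) 0 ^ (m + 1)) t := by
  rcases lt_trichotomy t t₀ with h | h | h
  · have h1 : (fun t => max (t - t₀) 0 ^ (m + 2)) =ᶠ[𝓝 t] fun _ => (0:ℝ) := by
      filter_upwards [Iio_mem_nhds h] with x hx
      rw [max_eq_right (sub_nonpos.2 (le_of_lt hx)), zero_pow (by omega)]
    rw [max_eq_right (sub_nonpos.2 h.le), zero_pow (by omega), mul_zero]
    exact (hasDerivAt_const t (0:ℝ)).congr_of_eventuallyEq h1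
  · subst h
    rw [sub_self, max_self, zero_pow (by omega), mul_zero]
    rw [hasDerivAt_iff_isLittleO]
    have h2 : (fun x : ℝ => x ^ (m + 2)) =o[𝓝 0] fun x => x := Asymptotics.isLittleO_pow_id (by omega)
    have h3 : Tendsto (fun x : ℝ => x - t) (𝓝 t) (𝓝 0) := by
      have : ContinuousAt (fun x : ℝ => x - t) t := by fun_prop
      have h := this.tendsto
      simp only [sub_self] at h
      exact h
    have h4 := h2.comp_tendsto h3
    refine Asymptotics.IsBigO.trans_isLittleO ?_ h4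
    refine Asymptotics.IsBigO.of_bound 1 (Eventually.of_forall fun x => ?_)
    simp only [Function.comp_apply, smul_zero, sub_zero, one_mul, sub_self, max_self]
    rw [zero_pow (by omega), sub_zero, norm_pow, norm_pow]
    refine pow_le_pow_left₀ (norm_nonneg _) ?_ _
    rw [Real.norm_eq_abs, Real.norm_eq_abs, abs_of_nonneg (le_max_right _ _)]
    exact max_le (le_abs_self _) (abs_nonneg _)
  · have h1 : (fun t => max (t - t₀) 0 ^ (m + 2)) =ᶠ[𝓝 t] fun x => (x - t₀) ^ (m+2) := by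
      filter_upwards [Ioi_mem_nhds h] with x hx
      rw [max_eq_left (sub_nonneg.2 (le_of_lt hx))]
    rw [max_eq_left (sub_nonneg.2 h.le)]
    have h2 := ((hasDerivAt_id t).sub_const t₀).pow (m+2)
    simp only [id, mul_one] at h2
    exact h2.congr_of_eventuallyEq h1

private theorem L1_cd (m : ℕ) (t₀ : ℝ) :
    ContDiff ℝ m (fun t => max (t - t₀) 0 ^ (m + 1)) := by
  induction m with
  | zero =>
    have : Continuous (fun t : ℝ => max (t - t₀) 0 ^ (0 + 1)) := by fun_prop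
    exact contDiff_zero.2 this
  | succ m ih =>
    have h1 : ((m + 1 : ℕ) : WithTop ℕ∞) = (m : WithTop ℕ∞) + 1 := by push_cast; rfl
    rw [h1, contDiff_succ_iff_deriv]
    refine ⟨fun t => (L1_hd m t₀ t).differentiableAt, by simp, ?_⟩
    have h2 : deriv (fun t => max (t - t₀) 0 ^ (m + 1 + 1)) =
        fun t => ((m + 2 : ℕ) : ℝ) * max (t - t₀) 0 ^ (m + 1) :=
      funext fun t => (L1_hd m t₀ t).deriv
    rw [h2]
    exact contDiff_const.mul ih

/-- PROOF. `max x 0 ^ 4` is `C³` (on `x > 0` and `x < 0` polynomial; `deriv (max x 0 ^ (m+1)) = (m + 1) max x 0 ^ m` also at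
`0`; induct: `max x 0 ^ (m + 1)` is `C^m`: `contDiff_succ_iff_deriv`). -/
theorem ch_c3 (t₀ : ℝ) : ContDiff ℝ 3 (ch t₀) := by
  exact L1_cd 3 t₀

/-- PROOF. See `ch_c3`. -/
theorem ch_deriv (t₀ t : ℝ) : HasDerivAt (ch t₀) (4 * max (t - t₀) 0 ^ 3) t := by
  have := L1_hd 2 t₀ t
  norm_num at this
  exact this

/-- Convexity of the bump.
PROOF. The tangent inequality for the convex function `x ↦ max x 0 ^ 4`: e.g. for `a, b ≥ 0`:
`b⁴ ≥ a⁴ + 4 a³ (b - a)`, with `a = max (t - t₀) 0`, `b = max (t' - t₀) 0 ≥ t' - t₀`; if `a > 0` then `b - a ≥ t' - t`. -/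
theorem ch_convex (t₀ t t' : ℝ) : ch t₀ t + 4 * max (t - t₀) 0 ^ 3 * (t' - t) ≤ ch t₀ t' := by
  unfold ch
  set a := max (t - t₀) 0 with ha
  set b := max (t' - t₀) 0 with hb
  have ha0 : 0 ≤ a := le_max_right _ _
  have hb0 : 0 ≤ b := le_max_right _ _
  have hb1 : t' - t₀ ≤ b := le_max_left _ _
  have key : a ^ 4 + 4 * a ^ 3 * (b - a) ≤ b ^ 4 := by
    nlinarith [sq_nonneg (b - a), sq_nonneg (b + a), sq_nonneg ((b - a) * (b + a)), mul_nonneg (sq_nonneg (b - a)) (sq_nonneg (b + a)), mul_nonneg (sq_nonneg (b - a)) (sq_nonneg a)]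
  rcases le_or_gt (t - t₀) 0 with h | h
  · have h1 : a = 0 := max_eq_right h
    rw [h1] at key ⊢
    simp at key ⊢
    positivity
  · have h1 : a = t - t₀ := max_eq_left h.le
    have h2 : t' - t ≤ b - a := by linarith
    have h3 : 4 * a ^ 3 * (t' - t) ≤ 4 * a ^ 3 * (b - a) := mul_le_mul_of_nonneg_left h2 (by positivity)
    linarith

/-- the bump around `p`, of radius `r` -/
noncomputable def thp (p : Ec n) (r : ℝ) (z : Ec n) : ℝ := ch (r ^ 2) (‖z - p‖ ^ 2)

/-- its derivative -/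
noncomputable def dthp (p : Ec n) (r : ℝ) (z : Ec n) (k : Fin n) : ℂ :=
  ((4 * max (‖z - p‖ ^ 2 - r ^ 2) 0 ^ 3 : ℝ) : ℂ) * (starRingEnd ℂ) (z k - p k)

/-- PROOF. Composition (`contDiff_norm_sq`, over `ℝ`). -/
theorem thp_c3 (p : Ec n) (r : ℝ) : ContDiff ℝ 3 (thp p r) := by
  have h1 : ContDiff ℝ 3 (fun z : Ec n => ‖z - p‖ ^ 2) := (contDiff_id.sub contDiff_const).norm_sq ℂ
  exact (ch_c3 _).comp h1

private theorem L1_nsq (p z : Ec n) : HasFDerivAt (fun z : Ec n => ‖z - p‖ ^ 2)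
    (2 • (innerSL ℝ (z - p)).comp (ContinuousLinearMap.id ℝ (Ec n))) z := by
  exact ((hasFDerivAt_id z).sub_const p).norm_sq

private theorem L1_ns (p z X : Ec n) : (2 • (innerSL ℝ (z - p)).comp (ContinuousLinearMap.id ℝ (Ec n))) X
    = 2 * (∑ k, (starRingEnd ℂ) (z k - p k) * X k).re := by
  have h1 : (2 • (innerSL ℝ (z - p)).comp (ContinuousLinearMap.id ℝ (Ec n))) X =
      2 * (innerSL ℝ (z - p)) X := by
    rw [two_smul, two_mul]
    rfl
  rw [h1, innerSL_apply_apply, PiLp.inner_apply, Complex.re_sum]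
  congr 1
  refine Finset.sum_congr rfl fun k _ => ?_
  rw [Complex.inner, mul_comm]
  rfl

/-- PROOF. Chain rule: the derivative of `‖z - p‖²` in the direction `X` is
`2 Re ⟪z - p, X⟫ = 2 Re ∑ conj (z k - p k) X k`. -/
theorem thp_fderiv (p : Ec n) (r : ℝ) (z X : Ec n) :
    fderiv ℝ (thp p r) z X = 2 * (∑ k, dthp p r z k * X k).re := by
  have h1 := (ch_deriv (r ^ 2) (‖z - p‖ ^ 2)).comp_hasFDerivAt z (L1_nsq p z)
  have h2 : fderiv ℝ (thp p r) z = _ := h1.fderiv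
  rw [h2]
  rw [_root_.smul_apply, L1_ns, smul_eq_mul]
  have h3 : (∑ k, dthp p r z k * X k) = ((4 * max (‖z - p‖ ^ 2 - r ^ 2) 0 ^ 3 : ℝ) : ℂ) *
      ∑ k, (starRingEnd ℂ) (z k - p k) * X k := by
    rw [Finset.mul_sum]
    refine Finset.sum_congr rfl fun k _ => ?_
    rw [dthp, mul_assoc]
  rw [h3, Complex.re_ofReal_mul]
  ring

private theorem L1_sq (p z ζ : Ec n) : ‖ζ - p‖ ^ 2 - ‖z - p‖ ^ 2 ≤
    2 * (∑ k, (starRingEnd ℂ) (ζ k - p k) * (ζ k - p k - (z k - p k))).re := by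
  have e1 : ∀ x : Ec n, ‖x‖ ^ 2 = ∑ k, ‖x k‖ ^ 2 := fun x => EuclideanSpace.norm_sq_eq x
  rw [e1, e1, ← Finset.sum_sub_distrib, Complex.re_sum, Finset.mul_sum]
  refine Finset.sum_le_sum fun k _ => ?_
  simp only [PiLp.sub_apply]
  set a := ζ k - p k
  set b := z k - p k
  rw [← Complex.normSq_eq_norm_sq, ← Complex.normSq_eq_norm_sq]
  simp only [Complex.normSq_apply, Complex.mul_re, Complex.conj_re, Complex.conj_im, Complex.sub_re, Complex.sub_im]
  nlinarith [sq_nonneg (a.re - b.re), sq_nonneg (a.im - b.im)]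

/-- PROOF. `ch_convex` with `t = ‖ζ - p‖²`, `t' = ‖z - p‖²`, and
`t' - t = 2 Re ⟪ζ - p, z - ζ⟫ + ‖z - ζ‖² ≥ 2 Re ⟪ζ - p, z - ζ⟫` (the factor `4 max ..^3` is `≥ 0`). -/
theorem thp_convex (p : Ec n) (r : ℝ) (z ζ : Ec n) :
    thp p r ζ - thp p r z ≤ 2 * (∑ k, dthp p r ζ k * (ζ k - p k - (z k - p k))).re := by
  have h1 := ch_convex (r ^ 2) (‖ζ - p‖ ^ 2) (‖z - p‖ ^ 2)
  have h3 : (∑ k, dthp p r ζ k * (ζ k - p k - (z k - p k))) =
      ((4 * max (‖ζ - p‖ ^ 2 - r ^ 2) 0 ^ 3 : ℝ) : ℂ) *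
      ∑ k, (starRingEnd ℂ) (ζ k - p k) * (ζ k - p k - (z k - p k)) := by
    rw [Finset.mul_sum]
    refine Finset.sum_congr rfl fun k _ => ?_
    rw [dthp, mul_assoc]
  rw [h3, Complex.re_ofReal_mul]
  have h4 := L1_sq p z ζ
  have h5 : 0 ≤ 4 * max (‖ζ - p‖ ^ 2 - r ^ 2) 0 ^ 3 := by
    have := le_max_right (‖ζ - p‖ ^ 2 - r ^ 2) 0
    positivity
  have h6 := mul_le_mul_of_nonneg_left h4 h5
  unfold thp
  linarith

end Pool.Agent.MPca0fc2.FD
end

section

/-! Calculus of the Levi form. -/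

set_option autoImplicit false

open Metric Set MeasureTheory Filter Topology
open scoped ContDiff

namespace Pool.Agent.MPca0fc2.LV

open Pool.Agent.MPca0fc2.FD (Ec ee)
open Pool.Agent.Lib.MP_ca0fc2_an (leviForm)

variable {n : ℕ}

private theorem A2_ev {ρ : Ec n → ℝ} {z : Ec n} (hρ : ContDiffAt ℝ 2 ρ z) :
    ∀ᶠ w in 𝓝 z, DifferentiableAt ℝ ρ w := by
  filter_upwards [hρ.eventually (by simp)] with w hw
  exact hw.differentiableAt (by norm_num)

private theorem A2_df {ρ : Ec n → ℝ} {z : Ec n} (hρ : ContDiffAt ℝ 2 ρ z) :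
    DifferentiableAt ℝ (fderiv ℝ ρ) z :=
  (hρ.fderiv_right (m := 1) (by norm_num)).differentiableAt (by norm_num)

/-- PROOF. `a = s + i t`; expand the bilinear form `B = fderiv ℝ (fderiv ℝ ρ) z`: the mixed terms of
`B (a X) (a X)` and `B (i a X) (i a X)` cancel. -/
theorem lev_smul (ρ : Ec n → ℝ) (z X : Ec n) (a : ℂ) :
    leviForm ρ z (a • X) = ‖a‖ ^ 2 * leviForm ρ z X := by
  unfold leviForm
  generalize fderiv ℝ (fderiv ℝ ρ) z = B
  have h1 : a • X = a.re • X + a.im • (Complex.I • X) := by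
    have h0 : a = (a.re : ℂ) + (a.im : ℂ) * Complex.I := (Complex.re_add_im a).symm
    conv_lhs => rw [h0]
    rw [add_smul, mul_smul, Complex.coe_smul, Complex.coe_smul]
  have h2 : Complex.I • a • X = a.re • (Complex.I • X) - a.im • X := by
    rw [h1, smul_add, smul_comm Complex.I a.re X, smul_comm Complex.I a.im (Complex.I • X),
      smul_smul Complex.I Complex.I X, Complex.I_mul_I, neg_smul, one_smul, smul_neg,
      sub_eq_add_neg]
  rw [h2, h1]
  have h3 : ‖a‖ ^ 2 = a.re ^ 2 + a.im ^ 2 := by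
    rw [Complex.sq_norm, Complex.normSq_apply]
    ring
  rw [h3]
  simp only [map_add, map_sub, map_smul, add_apply,
    sub_apply, smul_apply, smul_eq_mul]
  ring

/-- PROOF. Linearity of the second derivative. -/
theorem lev_add {ρ τ : Ec n → ℝ} {z : Ec n} (hρ : ContDiffAt ℝ 2 ρ z) (hτ : ContDiffAt ℝ 2 τ z)
    (X : Ec n) : leviForm (fun w => ρ w + τ w) z X = leviForm ρ z X + leviForm τ z X := by
  have h1 : fderiv ℝ (fun w => ρ w + τ w) =ᶠ[𝓝 z] fun w => fderiv ℝ ρ w + fderiv ℝ τ w := by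
    filter_upwards [A2_ev hρ, A2_ev hτ] with w hw hw'
    exact fderiv_fun_add hw hw'
  have h2 : fderiv ℝ (fderiv ℝ (fun w => ρ w + τ w)) z =
      fderiv ℝ (fderiv ℝ ρ) z + fderiv ℝ (fderiv ℝ τ) z := by
    rw [h1.fderiv_eq]
    exact fderiv_fun_add (A2_df hρ) (A2_df hτ)
  unfold leviForm
  rw [h2]
  simp only [add_apply]
  ring

/-- PROOF. Clear (true also if `ρ` is not differentiable, but not needed). -/
theorem lev_const_mul {ρ : Ec n → ℝ} {z : Ec n} (hρ : ContDiffAt ℝ 2 ρ z) (a : ℝ) (X : Ec n) :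
    leviForm (fun w => a * ρ w) z X = a * leviForm ρ z X := by
  have h1 : fderiv ℝ (fun w => a * ρ w) =ᶠ[𝓝 z] fun w => a • fderiv ℝ ρ w := by
    filter_upwards [A2_ev hρ] with w hw
    exact fderiv_const_mul hw a
  have h2 : fderiv ℝ (fderiv ℝ (fun w => a * ρ w)) z = a • fderiv ℝ (fderiv ℝ ρ) z := by
    rw [h1.fderiv_eq]
    exact fderiv_fun_const_smul (A2_df hρ) a
  unfold leviForm
  rw [h2]
  simp only [smul_apply, smul_eq_mul]
  ring

/-- PROOF. Functions which agree near `z` have the same second derivative at `z`. -/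
theorem lev_congr {ρ τ : Ec n → ℝ} {z : Ec n} (h : ρ =ᶠ[𝓝 z] τ) (X : Ec n) :
    leviForm ρ z X = leviForm τ z X := by
  unfold leviForm
  rw [h.fderiv.fderiv_eq]

/-- PROOF. `D²(κ ∘ ψ)(X, X) = κ' D²ψ (X, X) + κ'' (Dψ X)²`. -/
theorem lev_comp {κ : ℝ → ℝ} {ψ : Ec n → ℝ} {z : Ec n} (hκ : ContDiffAt ℝ 2 κ (ψ z))
    (hψ : ContDiffAt ℝ 2 ψ z) (X : Ec n) :
    leviForm (fun w => κ (ψ w)) z X = deriv κ (ψ z) * leviForm ψ z X +
      deriv (deriv κ) (ψ z) * ((fderiv ℝ ψ z X) ^ 2 + (fderiv ℝ ψ z (Complex.I • X)) ^ 2) / 4 := by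
  have hκ1 : ∀ᶠ w in 𝓝 z, DifferentiableAt ℝ κ (ψ w) := by
    have h1 : ∀ᶠ t in 𝓝 (ψ z), DifferentiableAt ℝ κ t := by
      filter_upwards [hκ.eventually (by simp)] with w hw
      exact hw.differentiableAt (by norm_num)
    exact hψ.continuousAt.eventually h1
  have h1 : fderiv ℝ (fun w => κ (ψ w)) =ᶠ[𝓝 z] fun w => deriv κ (ψ w) • fderiv ℝ ψ w := by
    filter_upwards [A2_ev hψ, hκ1] with w hw hw'
    have h2 := hw'.hasDerivAt.comp_hasFDerivAt w hw.hasFDerivAt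
    exact h2.fderiv
  have hdκ : DifferentiableAt ℝ (deriv κ) (ψ z) := by
    have h3 : ContDiffAt ℝ 1 (deriv κ) (ψ z) := by
      have h4 := hκ.fderiv_right (m := 1) (by norm_num)
      have h5 : ContDiffAt ℝ 1 (fun t => fderiv ℝ κ t 1) (ψ z) := h4.clm_apply contDiffAt_const
      exact h5
    exact h3.differentiableAt (by norm_num)
  have h2 : HasFDerivAt (fun w => deriv κ (ψ w)) (deriv (deriv κ) (ψ z) • fderiv ℝ ψ z) z :=
    hdκ.hasDerivAt.comp_hasFDerivAt z (hψ.differentiableAt (by norm_num)).hasFDerivAt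
  have h3 : fderiv ℝ (fderiv ℝ (fun w => κ (ψ w))) z =
      deriv κ (ψ z) • fderiv ℝ (fderiv ℝ ψ) z +
        (deriv (deriv κ) (ψ z) • fderiv ℝ ψ z).smulRight (fderiv ℝ ψ z) := by
    rw [h1.fderiv_eq]
    exact (h2.fun_smul (A2_df hψ).hasFDerivAt).fderiv
  unfold leviForm
  rw [h3]
  simp only [add_apply, smul_apply,
    ContinuousLinearMap.smulRight_apply, smul_eq_mul]
  ring

/-- PROOF. `D²|z|² (X, X) = 2 |X|²`. -/
theorem lev_normsq (z X : Ec n) : leviForm (fun w => ‖w‖ ^ 2) z X = ‖X‖ ^ 2 := by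
  have h1 : fderiv ℝ (fun w : Ec n => ‖w‖ ^ 2) = fun w => 2 • innerSL ℝ w := by
    funext w
    exact (hasStrictFDerivAt_norm_sq w).hasFDerivAt.fderiv
  have h2 : fderiv ℝ (fderiv ℝ (fun w : Ec n => ‖w‖ ^ 2)) z = 2 • (innerSL ℝ : Ec n →L[ℝ] _) := by
    rw [h1]
    exact (((innerSL ℝ : Ec n →L[ℝ] Ec n →L[ℝ] ℝ).hasFDerivAt (x := z)).const_smul
      (2 : ℕ)).fderiv
  unfold leviForm
  rw [h2]
  have h3 : ‖Complex.I • X‖ = ‖X‖ := by rw [norm_smul, Complex.norm_I, one_mul]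
  have h4 : ∀ Y : Ec n, (innerSL ℝ) Y Y = ‖Y‖ ^ 2 := fun Y => real_inner_self_eq_norm_sq Y
  simp only [smul_apply, h4, h3]
  simp only [nsmul_eq_mul, Nat.cast_ofNat]
  ring

/-- PROOF. `fderiv ℝ (fderiv ℝ ρ)` is continuous on `U`. -/
theorem lev_cont {U : Set (Ec n)} (hU : IsOpen U) {ρ : Ec n → ℝ} (hρ : ContDiffOn ℝ 2 ρ U) :
    ContinuousOn (fun p : Ec n × Ec n => leviForm ρ p.1 p.2) (U ×ˢ univ) := by
  have h1 : ContDiffOn ℝ 1 (fderiv ℝ ρ) U := hρ.fderiv_of_isOpen hU (by norm_num)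
  have h2 : ContDiffOn ℝ 0 (fderiv ℝ (fderiv ℝ ρ)) U := h1.fderiv_of_isOpen hU (by norm_num)
  have h3 : ContinuousOn (fun p : Ec n × Ec n => fderiv ℝ (fderiv ℝ ρ) p.1) (U ×ˢ univ) :=
    h2.continuousOn.comp continuousOn_fst fun p hp => hp.1
  have h4 : ContinuousOn (fun p : Ec n × Ec n => p.2) (U ×ˢ univ) := continuousOn_snd
  have h5 : ContinuousOn (fun p : Ec n × Ec n => Complex.I • p.2) (U ×ˢ univ) :=
    (continuous_const_smul Complex.I).comp_continuousOn h4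
  unfold leviForm
  exact (((h3.clm_apply h4).clm_apply h4).add ((h3.clm_apply h5).clm_apply h5)).div_const 4

/-- PROOF. `‖I • X‖ = ‖X‖`, operator norms. -/
theorem lev_bound (ρ : Ec n → ℝ) (z X : Ec n) :
    |leviForm ρ z X| ≤ ‖fderiv ℝ (fderiv ℝ ρ) z‖ * ‖X‖ ^ 2 / 2 := by
  unfold leviForm
  set B := fderiv ℝ (fderiv ℝ ρ) z
  have h1 : |B X X| ≤ ‖B‖ * ‖X‖ * ‖X‖ := B.le_opNorm₂ X X
  have h2 : |B (Complex.I • X) (Complex.I • X)| ≤ ‖B‖ * ‖X‖ * ‖X‖ := by
    have h3 : ‖Complex.I • X‖ = ‖X‖ := by rw [norm_smul, Complex.norm_I, one_mul]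
    have h4 := B.le_opNorm₂ (Complex.I • X) (Complex.I • X)
    rw [h3] at h4
    exact h4
  rw [abs_div, abs_of_pos (by norm_num : (0 : ℝ) < 4)]
  have h5 := abs_add_le (B X X) (B (Complex.I • X) (Complex.I • X))
  have h6 : ‖B‖ * ‖X‖ ^ 2 = ‖B‖ * ‖X‖ * ‖X‖ := by ring
  rw [h6]
  linarith

/-- A uniform lower bound on compact sets.
PROOF. The continuous positive function `leviForm ρ` (`lev_cont`) has a positive minimum on the compact set
`K ×ˢ sphere 0 1`; then `lev_smul` (homogeneity). (If `K` or the sphere is empty: `c = 1`, `X = 0`.) -/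
theorem lev_min {U K : Set (Ec n)} (hU : IsOpen U) {ρ : Ec n → ℝ} (hρ : ContDiffOn ℝ 2 ρ U)
    (hK : IsCompact K) (hKU : K ⊆ U) (h : ∀ z ∈ K, ∀ X : Ec n, X ≠ 0 → 0 < leviForm ρ z X) :
    ∃ c > 0, ∀ z ∈ K, ∀ X : Ec n, c * ‖X‖ ^ 2 ≤ leviForm ρ z X := by
  have hcomp : IsCompact (K ×ˢ sphere (0 : Ec n) 1) := hK.prod (isCompact_sphere _ _)
  have hcont : ContinuousOn (fun p : Ec n × Ec n => leviForm ρ p.1 p.2)
      (K ×ˢ sphere (0 : Ec n) 1) :=
    (lev_cont hU hρ).mono fun p hp => ⟨hKU hp.1, mem_univ _⟩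
  rcases (K ×ˢ sphere (0 : Ec n) 1).eq_empty_or_nonempty with he | hne
  · refine ⟨1, one_pos, fun z hz X => ?_⟩
    have hX : X = 0 := by
      by_contra hX
      have hn : ‖X‖ ≠ 0 := norm_ne_zero_iff.mpr hX
      have hmem : (z, (‖X‖ : ℝ)⁻¹ • X) ∈ K ×ˢ sphere (0 : Ec n) 1 := by
        refine ⟨hz, ?_⟩
        rw [mem_sphere_zero_iff_norm, norm_smul, norm_inv, norm_norm, inv_mul_cancel₀ hn]
      rw [he] at hmem
      exact hmem
    rw [hX]
    simp [leviForm]
  · obtain ⟨p, hp, hmin⟩ := hcomp.exists_isMinOn hne hcont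
    have hp2 : p.2 ≠ 0 := by
      intro h0
      have := hp.2
      rw [h0, mem_sphere_zero_iff_norm, norm_zero] at this
      exact zero_ne_one this
    refine ⟨leviForm ρ p.1 p.2, h p.1 hp.1 p.2 hp2, fun z hz X => ?_⟩
    by_cases hX : X = 0
    · rw [hX]
      simp [leviForm]
    · have hn : ‖X‖ ≠ 0 := norm_ne_zero_iff.mpr hX
      have hmem : (z, (‖X‖ : ℝ)⁻¹ • X) ∈ K ×ˢ sphere (0 : Ec n) 1 := by
        refine ⟨hz, ?_⟩
        rw [mem_sphere_zero_iff_norm, norm_smul, norm_inv, norm_norm, inv_mul_cancel₀ hn]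
      have h1 : leviForm ρ p.1 p.2 ≤ leviForm ρ z ((‖X‖ : ℝ)⁻¹ • X) := hmin hmem
      have h2 : X = ((‖X‖ : ℝ) : ℂ) • ((‖X‖ : ℝ)⁻¹ • X) := by
        rw [Complex.coe_smul, smul_smul, mul_inv_cancel₀ hn, one_smul]
      have h3 : leviForm ρ z X = ‖X‖ ^ 2 * leviForm ρ z ((‖X‖ : ℝ)⁻¹ • X) := by
        conv_lhs => rw [h2]
        rw [lev_smul, Complex.norm_real, norm_norm]
      rw [h3, mul_comm]
      exact mul_le_mul_of_nonneg_left h1 (sq_nonneg _)

end Pool.Agent.MPca0fc2.LV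
end

section

/-! The flattening functions of one real variable. -/

set_option autoImplicit false

open Metric Set MeasureTheory Filter Topology
open scoped ContDiff

namespace Pool.Agent.MPca0fc2.LV

/-- the properties of the flattening functions `φ`, `τ` -/
structure FL (ε : ℝ) (φ τ : ℝ → ℝ) : Prop where
  smφ : ContDiff ℝ ∞ φ
  smτ : ContDiff ℝ ∞ τ
  id : ∀ t, -ε ≤ t → φ t = t
  d0 : ∀ t, 0 ≤ deriv φ t
  d1 : ∀ t, deriv φ t ≤ 1
  dz : ∀ t, t ≤ -(2 * ε) → deriv φ t = 0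
  dh : ∀ t, -(3 / 2 * ε) ≤ t → 1 / 2 ≤ deriv φ t
  dd : ∀ t, 0 ≤ deriv (deriv φ) t
  conv : ∀ s t, φ s + deriv φ s * (t - s) ≤ φ t
  low : ∀ s t, φ s - φ t ≤ deriv φ s * (s + 2 * ε)
  neg : ∀ t, t < 0 → φ t < 0
  τ0 : ∀ t, 0 ≤ τ t
  τ1 : ∀ t, τ t ≤ 1
  τz : ∀ t, -ε ≤ t → τ t = 0
  τo : ∀ t, t ≤ -(3 / 2 * ε) → τ t = 1

private theorem S0_half : Real.smoothTransition (1 / 2) = 1 / 2 := by
  have h : (0 : ℝ) < expNegInvGlue (1 / 2) := expNegInvGlue.pos_of_pos (by norm_num)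
  unfold Real.smoothTransition
  have h2 : (1 : ℝ) - 1 / 2 = 1 / 2 := by norm_num
  rw [h2]
  field_simp
  ring

private theorem S0_conv {f g : ℝ → ℝ} (hf : ∀ x, HasDerivAt f (g x) x) (hg : Monotone g)
    (s t : ℝ) : f s + g s * (t - s) ≤ f t := by
  have hcont : Continuous f := continuous_iff_continuousAt.2 fun x => (hf x).continuousAt
  rcases lt_trichotomy s t with h | h | h
  · obtain ⟨c, hc, hc2⟩ := exists_hasDerivAt_eq_slope f g h hcont.continuousOn
      (fun x _ => hf x)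
    rw [eq_div_iff (by linarith)] at hc2
    have h1 : g s ≤ g c := hg hc.1.le
    have h2 : g s * (t - s) ≤ g c * (t - s) := mul_le_mul_of_nonneg_right h1 (by linarith)
    linarith
  · subst h
    simp
  · obtain ⟨c, hc, hc2⟩ := exists_hasDerivAt_eq_slope f g h hcont.continuousOn
      (fun x _ => hf x)
    rw [eq_div_iff (by linarith)] at hc2
    have h1 : g c ≤ g s := hg hc.2.le
    have h2 : g c * (s - t) ≤ g s * (s - t) := mul_le_mul_of_nonneg_right h1 (by linarith)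
    linarith

/-- PROOF. `φ t = -ε + ∫ s in -ε..t, Real.smoothTransition ((s + 2 ε) / ε)`, so `φ' t = smoothTransition ((t + 2 ε) / ε)`:
it is `0` for `t ≤ -2 ε`, `1` for `t ≥ -ε`, monotone, and `smoothTransition (1 / 2) = 1 / 2` at `t = -(3/2) ε`.
`τ t = 1 - smoothTransition (2 (t + (3/2) ε) / ε)`. `conv`: `φ'` is monotone (mean value theorem). `low`: for
`s ≥ -2 ε`: `φ t ≥ φ (-2 ε)` (minimum) and `conv` with `s` and `-2 ε`; for `s < -2 ε`: `φ s` is the minimum. `neg`: monotone, `φ t = t` near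
`0`. -/
theorem fl_exists {ε : ℝ} (hε : 0 < ε) : ∃ φ τ : ℝ → ℝ, FL ε φ τ := by
  set g : ℝ → ℝ := fun t => Real.smoothTransition ((t + 2 * ε) / ε) with hg
  have hgc : Continuous g := by
    apply Real.smoothTransition.continuous.comp
    fun_prop
  have hgs : ContDiff ℝ ∞ g := by
    apply Real.smoothTransition.contDiff.comp
    fun_prop
  have hgm : Monotone g := by
    intro a b hab
    apply Real.smoothTransition.monotone
    gcongr
  set φ : ℝ → ℝ := fun t => -ε + ∫ s in (-ε)..t, g s with hφ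
  have hφd : ∀ x, HasDerivAt φ (g x) x := by
    intro x
    have h1 := intervalIntegral.integral_hasDerivAt_right (hgc.intervalIntegrable (-ε) x)
      (hgc.stronglyMeasurableAtFilter _ _) hgc.continuousAt
    exact h1.const_add _
  have hder : deriv φ = g := funext fun x => (hφd x).deriv
  have hg1 : ∀ t, -ε ≤ t → g t = 1 := by
    intro t ht
    apply Real.smoothTransition.one_of_one_le
    rw [le_div_iff₀ hε]
    linarith
  have hg0 : ∀ t, t ≤ -(2 * ε) → g t = 0 := by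
    intro t ht
    apply Real.smoothTransition.zero_of_nonpos
    apply div_nonpos_of_nonpos_of_nonneg _ hε.le
    linarith
  have hid : ∀ t, -ε ≤ t → φ t = t := by
    intro t ht
    have h1 : ∫ s in (-ε)..t, g s = ∫ _ in (-ε)..t, (1 : ℝ) := by
      apply intervalIntegral.integral_congr
      intro s hs
      rw [uIcc_of_le ht] at hs
      exact hg1 s hs.1
    simp only [hφ]
    rw [h1, intervalIntegral.integral_const]
    simp
  have hconv := S0_conv hφd hgm
  have hgn : ∀ t, 0 ≤ g t := fun t => Real.smoothTransition.nonneg _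
  refine ⟨φ, fun t => 1 - Real.smoothTransition (2 * (t + 3 / 2 * ε) / ε), ?_, ?_, hid, ?_, ?_,
    ?_, ?_, ?_, ?_, ?_, ?_, ?_, ?_, ?_, ?_⟩
  · rw [contDiff_infty_iff_deriv]
    exact ⟨fun x => (hφd x).differentiableAt, hder ▸ hgs⟩
  · apply contDiff_const.sub
    apply Real.smoothTransition.contDiff.comp
    fun_prop
  · intro t
    rw [hder]
    exact hgn t
  · intro t
    rw [hder]
    exact Real.smoothTransition.le_one _
  · intro t ht
    rw [hder]
    exact hg0 t ht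
  · intro t ht
    rw [hder, ← S0_half]
    apply Real.smoothTransition.monotone
    rw [le_div_iff₀ hε]
    linarith
  · intro t
    rw [hder]
    exact hgm.deriv_nonneg
  · intro s t
    rw [hder]
    exact hconv s t
  · intro s t
    rw [hder]
    have h1 := hconv (-(2 * ε)) t
    rw [hg0 _ le_rfl] at h1
    have h2 := hconv s (-(2 * ε))
    linarith
  · intro t ht
    rcases le_or_gt (-ε) t with h | h
    · rw [hid t h]
      exact ht
    · have h1 := hconv t (-ε)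
      rw [hid (-ε) le_rfl] at h1
      have h2 : 0 ≤ g t * (-ε - t) := mul_nonneg (hgn t) (by linarith)
      linarith
  · intro t
    have := Real.smoothTransition.le_one (2 * (t + 3 / 2 * ε) / ε)
    linarith
  · intro t
    have := Real.smoothTransition.nonneg (2 * (t + 3 / 2 * ε) / ε)
    linarith
  · intro t ht
    have h1 : Real.smoothTransition (2 * (t + 3 / 2 * ε) / ε) = 1 := by
      apply Real.smoothTransition.one_of_one_le
      rw [le_div_iff₀ hε]
      linarith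
    simp only [h1, sub_self]
  · intro t ht
    have h1 : Real.smoothTransition (2 * (t + 3 / 2 * ε) / ε) = 0 := by
      apply Real.smoothTransition.zero_of_nonpos
      apply div_nonpos_of_nonpos_of_nonneg _ hε.le
      linarith
    simp only [h1, sub_zero]

end Pool.Agent.MPca0fc2.LV
end

section

/-! A defining function with positive Levi form at the boundary. -/

set_option autoImplicit false

open Metric Set MeasureTheory Filter Topology
open scoped ContDiff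

namespace Pool.Agent.MPca0fc2.LV

open Pool.Agent.MPca0fc2.FD (Ec ee)
open Pool.Agent.Lib.MP_ca0fc2_an (leviForm IsStrictlyPseudoconvex)

variable {n : ℕ}

private theorem S1_const {α : Type*} [TopologicalSpace α] {S : Set α} (hS : IsCompact S)
    {A B : α → ℝ} (hA : ContinuousOn A S) (hB : ContinuousOn B S) (hB0 : ∀ p ∈ S, 0 ≤ B p)
    (h : ∀ p ∈ S, A p ≤ 0 → B p ≠ 0) : ∃ K : ℝ, 1 ≤ K ∧ ∀ p ∈ S, 0 < A p + K * B p := by
  have hS' : IsCompact (S ∩ A ⁻¹' Iic 0) := by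
    obtain ⟨u, hu, hu2⟩ := continuousOn_iff_isClosed.1 hA (Iic 0) isClosed_Iic
    have h1 : S ∩ A ⁻¹' Iic 0 = S ∩ u := by
      rw [inter_comm, hu2, inter_comm]
    rw [h1]
    exact hS.inter_right hu
  rcases (S ∩ A ⁻¹' Iic 0).eq_empty_or_nonempty with he | hne
  · refine ⟨1, le_rfl, fun p hp => ?_⟩
    have h1 : 0 < A p := by
      by_contra hcon
      have : p ∈ S ∩ A ⁻¹' Iic 0 := ⟨hp, not_lt.1 hcon⟩
      rw [he] at this
      exact this
    have := hB0 p hp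
    linarith
  · obtain ⟨p₁, hp₁, hm⟩ := hS'.exists_isMinOn hne (hB.mono inter_subset_left)
    obtain ⟨p₂, hp₂, hL⟩ := hS'.exists_isMinOn hne (hA.mono inter_subset_left)
    have hm0 : 0 < B p₁ := lt_of_le_of_ne (hB0 p₁ hp₁.1) (h p₁ hp₁.1 hp₁.2).symm
    have hL0 : A p₂ ≤ 0 := hp₂.2
    refine ⟨max 1 ((1 - A p₂) / B p₁), le_max_left _ _, fun p hp => ?_⟩
    by_cases hpA : A p ≤ 0
    · have h1 : B p₁ ≤ B p := hm ⟨hp, hpA⟩
      have h2 : A p₂ ≤ A p := hL ⟨hp, hpA⟩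
      have h3 : 1 - A p₂ ≤ max 1 ((1 - A p₂) / B p₁) * B p := by
        calc 1 - A p₂ = (1 - A p₂) / B p₁ * B p₁ := by field_simp
          _ ≤ max 1 ((1 - A p₂) / B p₁) * B p :=
            mul_le_mul (le_max_right _ _) h1 hm0.le (le_trans zero_le_one (le_max_left _ _))
      linarith
    · have h1 := mul_nonneg (le_trans zero_le_one (le_max_left 1 ((1 - A p₂) / B p₁)))
        (hB0 p hp)
      linarith

/-- PROOF. `ρ z ≤ 0` on `closure D` by continuity, and `D` is open, so `ρ = 0` on the frontier, which is compact (bounded).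
`ρ₁ = exp (K ρ) - 1`. `lev_comp`: at the points with `ρ = 0`,
`leviForm ρ₁ z X = K (leviForm ρ z X + K ((Dρ X)² + (Dρ (iX))²) / 4)`. On the compact set of the `(z, X)`,
`z ∈ frontier D`, `‖X‖ = 1`, `leviForm ρ z X ≤ 0`, the continuous function `(Dρ X)² + (Dρ (iX))²` is positive, so `≥ m > 0`, and
`leviForm ρ z X ≥ -L`; take `K > 4 L / m`, `K ≥ 1`. Homogeneity (`lev_smul`). -/
theorem exp_trick {D W : Set (Ec n)} {ρ : Ec n → ℝ} (hb : Bornology.IsBounded D) (hW : IsOpen W)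
    (hDW : closure D ⊆ W) (hρ : ContDiffOn ℝ ∞ ρ W) (hD : D = {z | z ∈ W ∧ ρ z < 0})
    (hf : ∀ z ∈ frontier D, fderiv ℝ ρ z ≠ 0 ∧ ∀ X : Ec n, X ≠ 0 → fderiv ℝ ρ z X = 0 →
      fderiv ℝ ρ z (Complex.I • X) = 0 → 0 < leviForm ρ z X) :
    ∃ ρ₁ : Ec n → ℝ, ContDiffOn ℝ ∞ ρ₁ W ∧ D = {z | z ∈ W ∧ ρ₁ z < 0} ∧
      ∀ z ∈ frontier D, fderiv ℝ ρ₁ z ≠ 0 ∧ ∀ X : Ec n, X ≠ 0 → 0 < leviForm ρ₁ z X := by
  have hDo : IsOpen D := by
    rw [hD]
    exact hρ.continuousOn.isOpen_inter_preimage hW isOpen_Iio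
  have hfr : ∀ z ∈ frontier D, z ∈ W ∧ ρ z = 0 := by
    intro z hz
    have hzc : z ∈ closure D := frontier_subset_closure hz
    have hzW : z ∈ W := hDW hzc
    have hzD : z ∉ D := by
      have h1 := hz.2
      rwa [hDo.interior_eq] at h1
    refine ⟨hzW, le_antisymm ?_ ?_⟩
    · by_contra hcon
      push Not at hcon
      have hca : ContinuousAt ρ z := hρ.continuousOn.continuousAt (hW.mem_nhds hzW)
      have h2 : ∀ᶠ w in 𝓝 z, 0 < ρ w := hca.eventually (lt_mem_nhds hcon)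
      obtain ⟨w, hw1, hw2⟩ := ((mem_closure_iff_frequently.1 hzc).and_eventually h2).exists
      rw [hD] at hw1
      exact absurd hw1.2 (not_lt.2 hw2.le)
    · by_contra hcon
      push Not at hcon
      exact hzD (by rw [hD]; exact ⟨hzW, hcon⟩)
  have hfc : IsCompact (frontier D) :=
    Metric.isCompact_of_isClosed_isBounded isClosed_frontier
      (hb.closure.subset frontier_subset_closure)
  have hS : IsCompact (frontier D ×ˢ sphere (0 : Ec n) 1) := hfc.prod (isCompact_sphere _ _)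
  have hSW : frontier D ×ˢ sphere (0 : Ec n) 1 ⊆ W ×ˢ univ := by
    rintro ⟨z, X⟩ ⟨hz, _⟩
    exact ⟨(hfr z hz).1, mem_univ _⟩
  have hρ2 : ContDiffOn ℝ 2 ρ W := hρ.of_le ENat.LEInfty.out
  have hA : ContinuousOn (fun p : Ec n × Ec n => leviForm ρ p.1 p.2)
      (frontier D ×ˢ sphere (0 : Ec n) 1) := (lev_cont hW hρ2).mono hSW
  have hfd : ContinuousOn (fun p : Ec n × Ec n => fderiv ℝ ρ p.1)
      (frontier D ×ˢ sphere (0 : Ec n) 1) := by
    have h1 := hρ2.continuousOn_fderiv_of_isOpen hW (by norm_num)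
    exact h1.comp continuousOn_fst (fun p hp => (hSW hp).1)
  have hB : ContinuousOn (fun p : Ec n × Ec n =>
      ((fderiv ℝ ρ p.1 p.2) ^ 2 + (fderiv ℝ ρ p.1 (Complex.I • p.2)) ^ 2) / 4)
      (frontier D ×ˢ sphere (0 : Ec n) 1) := by
    have h1 := hfd.clm_apply (continuousOn_snd (s := frontier D ×ˢ sphere (0 : Ec n) 1))
    have h2 := hfd.clm_apply ((continuous_snd.const_smul Complex.I).continuousOn
      (s := frontier D ×ˢ sphere (0 : Ec n) 1))
    exact ((h1.pow 2).add (h2.pow 2)).div_const 4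
  obtain ⟨K, hK1, hK⟩ := S1_const hS hA hB (fun p _ => by positivity) (by
    rintro ⟨z, X⟩ ⟨hz, hX⟩ hle h0
    simp only at hle h0 hz hX
    have hX0 : X ≠ 0 := by
      rintro rfl
      simp at hX
    have h1 : (fderiv ℝ ρ z X) ^ 2 + (fderiv ℝ ρ z (Complex.I • X)) ^ 2 = 0 := by linarith
    have h2 := (add_eq_zero_iff_of_nonneg (sq_nonneg _) (sq_nonneg _)).1 h1
    exact absurd ((hf z hz).2 X hX0 (pow_eq_zero_iff (by norm_num) |>.1 h2.1)
      (pow_eq_zero_iff (by norm_num) |>.1 h2.2)) (not_lt.2 hle))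
  have hK0 : 0 < K := by linarith
  have hκ : ContDiff ℝ ∞ (fun t : ℝ => Real.exp (K * t) - 1) := by
    apply ContDiff.sub _ contDiff_const
    apply Real.contDiff_exp.comp
    fun_prop
  have hd1 : ∀ t, HasDerivAt (fun t : ℝ => Real.exp (K * t) - 1) (K * Real.exp (K * t)) t := by
    intro t
    have h1 : HasDerivAt (fun t : ℝ => K * t) K t := by
      simpa using (hasDerivAt_id t).const_mul K
    have h2 := h1.exp.sub_const 1
    rwa [mul_comm] at h2
  have hd1' : deriv (fun t : ℝ => Real.exp (K * t) - 1) = fun t => K * Real.exp (K * t) :=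
    funext fun t => (hd1 t).deriv
  have hd2 : ∀ t, deriv (deriv (fun t : ℝ => Real.exp (K * t) - 1)) t =
      K * (K * Real.exp (K * t)) := by
    intro t
    rw [hd1']
    have h1 := ((hd1 t).add_const 1).const_mul K
    simp only [sub_add_cancel] at h1
    exact h1.deriv
  refine ⟨fun w => Real.exp (K * ρ w) - 1, hκ.comp_contDiffOn hρ, ?_, ?_⟩
  · rw [hD]
    ext z
    simp only [mem_ofPred_eq]
    refine and_congr_right fun _ => ?_
    rw [sub_neg, ← Real.exp_zero, Real.exp_lt_exp]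
    constructor
    · intro h
      exact mul_neg_of_pos_of_neg hK0 h
    · intro h
      by_contra hcon
      push Not at hcon
      have := mul_nonneg hK0.le hcon
      linarith
  · intro z hz
    obtain ⟨hzW, hz0⟩ := hfr z hz
    have hat : ContDiffAt ℝ 2 ρ z := hρ2.contDiffAt (hW.mem_nhds hzW)
    have hκ2 : ContDiffAt ℝ 2 (fun t : ℝ => Real.exp (K * t) - 1) (ρ z) :=
      (hκ.of_le ENat.LEInfty.out).contDiffAt
    have hlev : ∀ X : Ec n, leviForm (fun w => Real.exp (K * ρ w) - 1) z X =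
        K * (leviForm ρ z X +
          K * (((fderiv ℝ ρ z X) ^ 2 + (fderiv ℝ ρ z (Complex.I • X)) ^ 2) / 4)) := by
      intro X
      have h1 := lev_comp (κ := fun t : ℝ => Real.exp (K * t) - 1) hκ2 hat X
      rw [hd2, hd1', hz0] at h1
      simp only [mul_zero, Real.exp_zero, mul_one] at h1
      rw [h1]
      ring
    refine ⟨?_, ?_⟩
    · have hdiff : HasFDerivAt ρ (fderiv ℝ ρ z) z :=
        (hat.differentiableAt (by norm_num)).hasFDerivAt
      have h1 := (hd1 (ρ z)).comp_hasFDerivAt z hdiff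
      have h2 : fderiv ℝ (fun w => Real.exp (K * ρ w) - 1) z =
          (K * Real.exp (K * ρ z)) • fderiv ℝ ρ z := h1.fderiv
      rw [h2]
      exact smul_ne_zero (mul_pos hK0 (Real.exp_pos _)).ne' (hf z hz).1
    · intro X hX
      have hXn : 0 < ‖X‖ := norm_pos_iff.2 hX
      set Y : Ec n := ((‖X‖⁻¹ : ℝ) : ℂ) • X with hY
      have hYn : Y ∈ sphere (0 : Ec n) 1 := by
        rw [mem_sphere_zero_iff_norm, hY, norm_smul, Complex.norm_real, norm_inv, norm_norm,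
          inv_mul_cancel₀ hXn.ne']
      have hXY : X = ((‖X‖ : ℝ) : ℂ) • Y := by
        rw [hY, smul_smul, ← Complex.ofReal_mul, mul_inv_cancel₀ hXn.ne', Complex.ofReal_one,
          one_smul]
      rw [hXY, lev_smul, hlev]
      have h1 := hK (z, Y) ⟨hz, hYn⟩
      have h2 : 0 < ‖((‖X‖ : ℝ) : ℂ)‖ ^ 2 := by
        rw [Complex.norm_real, norm_norm]
        positivity
      exact mul_pos h2 (mul_pos hK0 h1)

end Pool.Agent.MPca0fc2.LV
end

section

/-! Monotone majorants. -/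

set_option autoImplicit false

open Metric Set MeasureTheory Filter Topology
open scoped ContDiff

namespace Pool.Agent.MPca0fc2.LV

open Pool.Agent.MPca0fc2.FD (Ec ee)
open Pool.Agent.Lib.MP_ca0fc2_an (leviForm)

variable {n : ℕ} {Ω : Set (Ec n)} {ψ : Ec n → ℝ}

/-- PROOF. `M t` is the supremum of `0` and the values of `g` on the compact set `{z ∈ Ω | ψ z ≤ t}`. -/
theorem exists_mono (hΩ : PX Ω ψ) {g : Ec n → ℝ} (hg : ContinuousOn g Ω) :
    ∃ M : ℝ → ℝ, Monotone M ∧ ∀ z ∈ Ω, g z ≤ M (ψ z) := by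
  have hb : ∀ t : ℝ, BddAbove (insert (0 : ℝ) (g '' {z | z ∈ Ω ∧ ψ z ≤ t})) := by
    intro t
    have h1 : IsCompact (g '' {z | z ∈ Ω ∧ ψ z ≤ t}) :=
      (hΩ.cpt t).image_of_continuousOn (hg.mono fun z hz => hz.1)
    exact bddAbove_insert.mpr h1.bddAbove
  refine ⟨fun t => sSup (insert (0 : ℝ) (g '' {z | z ∈ Ω ∧ ψ z ≤ t})), ?_, ?_⟩
  · intro s t hst
    refine csSup_le_csSup (hb t) (Set.insert_nonempty _ _) (Set.insert_subset_insert ?_)
    exact Set.image_mono fun z hz => ⟨hz.1, hz.2.trans hst⟩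
  · intro z hz
    exact le_csSup (hb (ψ z)) (Or.inr ⟨z, ⟨hz, le_refl _⟩, rfl⟩)

/-- PROOF. By `lev_min`, for each `t` there is `m > 0` such that `‖X‖² ≤ m * leviForm ψ z X` for all `z ∈ Ω` with
`ψ z ≤ t`. Let `M t` be the infimum of the numbers `m ≥ 0` with this property (the infimum has the property, and `M` is
monotone). -/
theorem exists_mono_lev (hΩ : PX Ω ψ) : ∃ M : ℝ → ℝ, Monotone M ∧ (∀ t, 0 ≤ M t) ∧
    ∀ z ∈ Ω, ∀ X : Ec n, ‖X‖ ^ 2 ≤ M (ψ z) * leviForm ψ z X := by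
  set A : ℝ → Set ℝ := fun t => {m | 0 ≤ m ∧ ∀ z ∈ Ω, ψ z ≤ t → ∀ X : Ec n,
    ‖X‖ ^ 2 ≤ m * leviForm ψ z X} with hA
  have hne : ∀ t, (A t).Nonempty := by
    intro t
    obtain ⟨c, hc, h⟩ := lev_min hΩ.opn (hΩ.sm.of_le (WithTop.coe_le_coe.mpr le_top)) (hΩ.cpt t)
      (fun z hz => hz.1) (fun z hz X hX => hΩ.psh z hz.1 X hX)
    refine ⟨c⁻¹, inv_nonneg.mpr hc.le, fun z hz hzt X => ?_⟩
    have h1 := h z ⟨hz, hzt⟩ X
    rw [inv_mul_eq_div, le_div_iff₀ hc]
    linarith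
  have hbd : ∀ t, BddBelow (A t) := fun t => ⟨0, fun m hm => hm.1⟩
  refine ⟨fun t => sInf (A t), ?_, fun t => le_csInf (hne t) (fun m hm => hm.1), ?_⟩
  · intro s t hst
    refine csInf_le_csInf (hbd s) (hne t) (fun m hm => ⟨hm.1, fun z hz hzs X => ?_⟩)
    exact hm.2 z hz (hzs.trans hst) X
  · intro z hz X
    by_cases hX : X = 0
    · have h0 : leviForm ψ z X = 0 := by
        have h1 := lev_smul ψ z X 0
        rw [hX] at h1 ⊢
        simpa using h1
      rw [h0, hX]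
      simp
    · have hl := hΩ.psh z hz X hX
      have h1 : ‖X‖ ^ 2 / leviForm ψ z X ≤ sInf (A (ψ z)) := by
        refine le_csInf (hne _) (fun m hm => ?_)
        rw [div_le_iff₀ hl]
        exact hm.2 z hz (le_refl _) X
      exact (div_le_iff₀ hl).mp h1

end Pool.Agent.MPca0fc2.LV
end
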