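import Mathlib
import Pool.Agent.Lib.MP_ca0fc2_an.Mg.G055
import Pool.Agent.Lib.MP_ca0fc2_an.Mg.G047
import Pool.Agent.Lib.MP_ca0fc2_an.Mg.G061
import Pool.Agent.Lib.MP_ca0fc2_an.Mg.G059

section

/-! The differential of the Koszul forms. -/

set_option autoImplicit false

open Metric Set MeasureTheory Filter Topology

namespace Pool.Agent.MPca0fc2.FD

section bil

variable {n : ℕ} {A B C : Type*} [NormedAddCommGroup A] [NormedSpace ℂ A] [NormedAddCommGroup B]
  [NormedSpace ℂ B] [NormedAddCommGroup C] [NormedSpace ℂ C]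

private noncomputable def K2_B (L : A →L[ℂ] B →L[ℂ] C) : A →L[ℝ] B →L[ℝ] C :=
  (ContinuousLinearMap.restrictScalarsL ℂ B C ℝ ℝ).comp (L.restrictScalars ℝ)

private theorem K2_fd (L : A →L[ℂ] B →L[ℂ] C) {f : Ec n → A} {g : Ec n → B} {z : Ec n}
    (hf : DifferentiableAt ℝ f z) (hg : DifferentiableAt ℝ g z) (X : Ec n) :
    fderiv ℝ (fun y => L (f y) (g y)) z X = L (f z) (fderiv ℝ g z X) + L (fderiv ℝ f z X) (g z) := by
  have h := (K2_B L).hasFDerivAt_of_bilinear hf.hasFDerivAt hg.hasFDerivAt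
  have h2 : HasFDerivAt (fun y => L (f y) (g y)) _ z := h
  rw [h2.fderiv]
  rfl

private theorem K2_diff (L : A →L[ℂ] B →L[ℂ] C) {f : Ec n → A} {g : Ec n → B} {z : Ec n}
    (hf : DifferentiableAt ℝ f z) (hg : DifferentiableAt ℝ g z) :
    DifferentiableAt ℝ (fun y => L (f y) (g y)) z := by
  have h := (K2_B L).hasFDerivAt_of_bilinear hf.hasFDerivAt hg.hasFDerivAt
  have h2 : HasFDerivAt (fun y => L (f y) (g y)) _ z := h
  exact h2.differentiableAt

private theorem K2_db (L : A →L[ℂ] B →L[ℂ] C) {f : Ec n → A} {g : Ec n → B} {z : Ec n}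
    (hf : DifferentiableAt ℝ f z) (hg : DifferentiableAt ℝ g z) (X : Ec n) :
    db (fun y => L (f y) (g y)) z X = L (db f z X) (g z) + L (f z) (db g z X) := by
  unfold db
  rw [K2_fd L hf hg, K2_fd L hf hg]
  simp only [map_smul, map_add, smul_apply, add_apply, smul_add]
  abel

private theorem K2_cd (L : A →L[ℂ] B →L[ℂ] C) {s : Set (Ec n)} {m : WithTop ℕ∞}
    {f : Ec n → A} {g : Ec n → B}
    (hf : ContDiffOn ℝ m f s) (hg : ContDiffOn ℝ m g s) :
    ContDiffOn ℝ m (fun y => L (f y) (g y)) s := by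
  have h := ((K2_B L).isBoundedBilinearMap.contDiff (n := m)).comp_contDiffOn (hf.prodMk hg)
  exact h

private theorem K2_db_const_smul (c : ℂ) {g : Ec n → B} {z : Ec n}
    (hg : DifferentiableAt ℝ g z) (X : Ec n) :
    db (fun y => c • g y) z X = c • db g z X := by
  unfold db
  have h : fderiv ℝ (fun y => c • g y) z = c • fderiv ℝ g z := fderiv_fun_const_smul hg c
  rw [h]
  simp only [smul_apply, smul_add]
  rw [smul_comm c (2⁻¹ : ℂ), smul_comm c (2⁻¹ : ℂ), smul_comm c Complex.I]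

private theorem K2_db_const (c : B) (z : Ec n) (X : Ec n) : db (fun _ => c) z X = 0 := by
  unfold db
  simp

/-- `db` as a complex directional derivative -/
private theorem K2_db_cd (G : Ec n → B) (z X : Ec n) :
    db G z X = cd G z ((2⁻¹ : ℝ) • X, (2⁻¹ : ℝ) • (Complex.I • X)) := by
  have h : (2⁻¹ : ℂ) = ((2⁻¹ : ℝ) : ℂ) := by norm_num
  unfold db cd
  simp only [map_smul]
  rw [smul_add, h, Complex.coe_smul, Complex.coe_smul, smul_comm (2⁻¹ : ℝ) Complex.I]

private theorem K2_db_diff {G : Ec n → B} {z : Ec n} (hG : ContDiffAt ℝ 2 G z) (X : Ec n) :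
    DifferentiableAt ℝ (fun y => db G y X) z := by
  have h : (fun y => db G y X) =
      fun y => cd G y ((2⁻¹ : ℝ) • X, (2⁻¹ : ℝ) • (Complex.I • X)) := by
    funext y
    exact K2_db_cd G y X
  rw [h]
  exact cd_diff hG _

private theorem K2_db_c1 {G : Ec n → B} {W : Set (Ec n)} (hW : IsOpen W)
    (hG : ContDiffOn ℝ 2 G W) (X : Ec n) : ContDiffOn ℝ 1 (fun y => db G y X) W := by
  have h : ContDiffOn ℝ 1 (fderiv ℝ G) W := hG.fderiv_of_isOpen hW (by norm_num)
  have h1 : ∀ v : Ec n, ContDiffOn ℝ 1 (fun y => fderiv ℝ G y v) W := fun v =>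
    h.clm_apply contDiffOn_const
  unfold db
  exact ((h1 X).add ((h1 (Complex.I • X)).const_smul Complex.I)).const_smul (2⁻¹ : ℂ)

end bil

/-- the alternating double sum -/
private theorem K2_dsum {W : Type*} [AddCommGroup W] [Module ℂ W] {m : ℕ}
    (T : Fin (m + 2) → Fin (m + 1) → W)
    (hT : ∀ i l, T (i.succAbove l) (l.predAbove i) = T i l) :
    ∑ i : Fin (m + 2), ∑ l : Fin (m + 1), ((-1 : ℂ) ^ ((i : ℕ) + (l : ℕ))) • T i l = 0 := by
  rw [← Fintype.sum_prod_type' (f := fun (i : Fin (m + 2)) (l : Fin (m + 1)) =>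
    ((-1 : ℂ) ^ ((i : ℕ) + (l : ℕ))) • T i l)]
  let φ : Fin (m + 2) × Fin (m + 1) → Fin (m + 2) × Fin (m + 1) :=
    fun x => (x.1.succAbove x.2, x.2.predAbove x.1)
  have hφ : Function.Involutive φ := by
    rintro ⟨i, l⟩
    simp only [φ, Fin.predAbove_predAbove_succAbove, Fin.succAbove_succAbove_predAbove]
  have h1 := Equiv.sum_comp (Function.Involutive.toPerm φ hφ)
    (fun x : Fin (m + 2) × Fin (m + 1) => ((-1 : ℂ) ^ ((x.1 : ℕ) + (x.2 : ℕ))) • T x.1 x.2)
  have h2 : ∀ x : Fin (m + 2) × Fin (m + 1),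
      ((-1 : ℂ) ^ (((Function.Involutive.toPerm φ hφ x).1 : ℕ) +
        ((Function.Involutive.toPerm φ hφ x).2 : ℕ))) •
        T (Function.Involutive.toPerm φ hφ x).1 (Function.Involutive.toPerm φ hφ x).2 =
          -(((-1 : ℂ) ^ ((x.1 : ℕ) + (x.2 : ℕ))) • T x.1 x.2) := by
    rintro ⟨i, l⟩
    have h3 : Function.Involutive.toPerm φ hφ (i, l) = (i.succAbove l, l.predAbove i) := rfl
    rw [h3]
    simp only
    rw [Fin.neg_one_pow_succAbove_add_predAbove, hT, neg_smul]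
  rw [Finset.sum_congr rfl (fun x _ => h2 x), Finset.sum_neg_distrib] at h1
  have h4 : ∀ S : W, -S = S → S = 0 := by
    intro S hS
    have h5 : (2 : ℂ) • S = 0 := by
      rw [two_smul]
      nth_rewrite 1 [← hS]
      exact neg_add_cancel S
    rcases smul_eq_zero.1 h5 with h6 | h6
    · norm_num at h6
    · exact h6
  exact h4 _ h1

variable {n : ℕ} {Y V : Type*} [NormedAddCommGroup Y] [NormedSpace ℂ Y] [NormedAddCommGroup V]
  [NormedSpace ℂ V] [FiniteDimensional ℂ Y] [FiniteDimensional ℂ V]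

/-- PROOF. `pwr` is a polynomial (multilinear) in the `f i`, which are `C¹`: induction on `r`,
`ContDiffOn.clm_apply` for `K.a` restricted to real scalars. -/
theorem pwr_c1 (K : QT.Car Y V) {r : ℕ} {f : Fin r → Ec n → Y} {W : Set (Ec n)}
    (hf : ∀ i, ContDiffOn ℝ 1 (f i) W) : ContDiffOn ℝ 1 (fun z => pwr K r (fun i => f i z)) W := by
  induction r with
  | zero => exact contDiffOn_const
  | succ r ih =>
    exact K2_cd K.a (hf 0) (ih (fun i => hf i.succ))

private theorem K2_pwr_diff (K : QT.Car Y V) {r : ℕ} {f : Fin r → Ec n → Y} {z : Ec n}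
    (hf : ∀ i, DifferentiableAt ℝ (f i) z) :
    DifferentiableAt ℝ (fun z => pwr K r (fun i => f i z)) z := by
  induction r with
  | zero => exact differentiableAt_const _
  | succ r ih => exact K2_diff K.a (hf 0) (ih (fun i => hf i.succ))

/-- PROOF. Leibniz rule: induction on `r`; `db` of `K.a (f z) (x z)` is
`K.a (db f z X) (x z) + K.a (f z) (db x z X)` (`K.a` is complex bilinear and continuous). -/
theorem db_pwr (K : QT.Car Y V) {r : ℕ} {f : Fin r → Ec n → Y} {z : Ec n}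
    (hf : ∀ i, DifferentiableAt ℝ (f i) z) (X : Ec n) :
    db (fun z => pwr K r (fun i => f i z)) z X =
      ∑ i, pwr K r (Function.update (fun i => f i z) i (db (f i) z X)) := by
  induction r with
  | zero =>
    rw [Fin.sum_univ_zero]
    exact K2_db_const K.Ω z X
  | succ r ih =>
    have h1 : db (fun z => pwr K (r + 1) (fun i => f i z)) z X =
        K.a (db (f 0) z X) (pwr K r (fun i => f i.succ z)) +
          K.a (f 0 z) (db (fun z => pwr K r (fun i => f i.succ z)) z X) :=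
      K2_db K.a (hf 0) (K2_pwr_diff K (fun i => hf i.succ)) X
    rw [h1, ih (fun i => hf i.succ), Fin.sum_univ_succ, map_sum]
    congr 1
    refine Finset.sum_congr rfl fun i _ => ?_
    show _ = K.a (Function.update (fun i => f i z) i.succ (db (f i.succ) z X) 0)
      (pwr K r (fun j => Function.update (fun i => f i z) i.succ (db (f i.succ) z X) j.succ))
    rw [Function.update_of_ne (Fin.succ_ne_zero i).symm]
    congr 2
    funext j
    by_cases hj : j = i
    · subst hj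
      simp
    · rw [Function.update_of_ne hj, Function.update_of_ne (fun h => hj (Fin.succ_injective _ h))]

/-- PROOF. `σ` is `C²`, so `z ↦ db σ z (ee k)` is `C¹`; `pwr_c1`. -/
theorem UU_c1 (K : QT.Car Y V) {σ : Ec n → Y} {W : Set (Ec n)} (hW : IsOpen W)
    (hσ : ContDiffOn ℝ 2 σ W) (r : ℕ) (J : Fin r → Fin n) : ContDiffOn ℝ 1 (UU K σ r J) W := by
  unfold UU
  exact (K2_cd K.a (hσ.of_le (by norm_num)) (pwr_c1 K (fun i => K2_db_c1 hW hσ (ee (J i))))).const_smul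
    (r.factorial : ℂ)

/-- The second derivatives commute.
PROOF. `db (fun y => db σ y X) z Y` is symmetric in `X, Y`: `cd_comm` with `T = Ec n` and the directions
`(2⁻¹ X, 2⁻¹ (I X))`, as `db σ z X = cd σ z (2⁻¹ • X, 2⁻¹ • (I • X))`; or `ContDiffAt.isSymmSndFDerivAt`. -/
theorem db_comm {σ : Ec n → Y} {z : Ec n} (hσ : ContDiffAt ℝ 2 σ z) (X X' : Ec n) :
    db (fun y => db σ y X) z X' = db (fun y => db σ y X') z X := by
  have h : ∀ Z : Ec n, (fun y => db σ y Z) =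
      fun y => cd σ y ((2⁻¹ : ℝ) • Z, (2⁻¹ : ℝ) • (Complex.I • Z)) := by
    intro Z
    funext y
    exact K2_db_cd σ y Z
  rw [h X, h X', K2_db_cd, K2_db_cd]
  exact cd_comm hσ _ _

/-- The differential of the Koszul forms, first form.
PROOF. `db (UU K σ r (J ∘ i.succAbove)) z (ee (J i)) = r! • [K.a (db σ z (ee (J i))) (pwr ..) +
K.a (σ z) (∑_l pwr (update .. l (db (db σ · (ee (J (i.succAbove l)))) z (ee (J i)))))]` (`db_pwr`). In the
alternating sum over `i` of the second parts, the pairs `(i, i.succAbove l)` and its opposite cancel: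
the second derivatives are symmetric (`db_comm`) and `pwr` is alternating (this is
`∂̄ ∂̄ σ = 0`; e.g. write the sum as a sum over the pairs `(p, p')`, `p ≠ p'`, of indices of `J` of
`(-1)^p pwr (fun l => ..)`; by `pwr_insert` moving the factor with the second derivative to the front:
`(-1)^p (-1)^(position of p') K.a (s p p') (pwr (the others))`, where the position of `p'` in the list
without `p` is `p'` if `p' < p` and `p' - 1` if `p' > p`; the sum of the two terms for `(p, p')` and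
`(p', p)` is `0`). The first parts: by `pwr_insert`,
`K.a (db σ z (ee (J i))) (pwr K r (.. J ∘ i.succAbove)) = (-1)^i pwr K (r + 1) (fun a => db σ z (ee (J a)))`
(`Fin.insertNth` of the removed entry gives back the list), and `(-1)^i (-1)^i = 1`; the sum over `i` gives
the factor `r + 1`. -/
theorem dbf_UU (K : QT.Car Y V) {σ : Ec n → Y} {z : Ec n} (hσ : ContDiffAt ℝ 2 σ z) (r : ℕ)
    (J : Fin (r + 1) → Fin n) :
    dbf (UU K σ r) J z =
      ((r + 1).factorial : ℂ) • pwr K (r + 1) (fun i => db σ z (ee (J i))) := by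
  have hσ1 : DifferentiableAt ℝ σ z := hσ.differentiableAt (by norm_num)
  have hd : ∀ X : Ec n, DifferentiableAt ℝ (fun y => db σ y X) z := fun X => K2_db_diff hσ X
  set s : Fin (r + 1) → Y := fun p => db σ z (ee (J p)) with hs
  set D : Fin (r + 1) → Fin (r + 1) → Y :=
    fun p p' => db (fun y => db σ y (ee (J p'))) z (ee (J p)) with hD
  have hDs : ∀ p p', D p p' = D p' p := fun p p' => db_comm hσ _ _
  -- the derivative of one component
  have h1 : ∀ i : Fin (r + 1), db (UU K σ r (J ∘ i.succAbove)) z (ee (J i)) =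
      (r.factorial : ℂ) • (K.a (s i) (pwr K r (fun l => s (i.succAbove l))) +
        K.a (σ z) (∑ l, pwr K r (Function.update (fun l => s (i.succAbove l)) l
          (D i (i.succAbove l))))) := by
    intro i
    have hp : DifferentiableAt ℝ (fun y => pwr K r (fun l => db σ y (ee ((J ∘ i.succAbove) l)))) z :=
      K2_pwr_diff K (fun l => hd _)
    have h2 : db (UU K σ r (J ∘ i.succAbove)) z (ee (J i)) = (r.factorial : ℂ) •
        db (fun y => K.a (σ y) (pwr K r (fun l => db σ y (ee ((J ∘ i.succAbove) l))))) z (ee (J i)) :=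
      K2_db_const_smul _ (K2_diff K.a hσ1 hp) _
    rw [h2, K2_db K.a hσ1 hp]
    congr 3
    exact db_pwr K (fun l => hd _) _
  have h3 : ∀ i : Fin (r + 1), ((-1 : ℂ) ^ (i : ℕ)) •
      (K.a (s i) (pwr K r (fun l => s (i.succAbove l)))) = pwr K (r + 1) s := by
    intro i
    rw [pwr_insert K _ i, smul_smul, ← pow_add, ← two_mul, pow_mul]
    have h4 : (i.insertNth (α := fun _ => Y) (s i) (fun l => s (i.succAbove l))) = s :=
      Fin.insertNth_self_removeNth i s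
    rw [h4]
    norm_num
  have h5 : ∑ i : Fin (r + 1), ((-1 : ℂ) ^ (i : ℕ)) •
      (∑ l, pwr K r (Function.update (fun l => s (i.succAbove l)) l (D i (i.succAbove l)))) = 0 := by
    cases r with
    | zero => simp
    | succ m =>
      have h6 : ∀ (g : Fin (m + 1) → Y) (l : Fin (m + 1)) (y : Y),
          pwr K (m + 1) (Function.update g l y) =
            ((-1 : ℂ) ^ (l : ℕ)) • K.a y (pwr K m (fun k => g (l.succAbove k))) := by
        intro g l y
        rw [pwr_insert K _ l, smul_smul, ← pow_add, ← two_mul, pow_mul]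
        have h7 : (l.insertNth (α := fun _ => Y) y (fun k => g (l.succAbove k))) =
            Function.update g l y := Fin.insertNth_removeNth l y g
        rw [h7]
        norm_num
      have h8 : ∑ i : Fin (m + 2), ∑ l : Fin (m + 1), ((-1 : ℂ) ^ ((i : ℕ) + (l : ℕ))) •
          K.a (D i (i.succAbove l))
            (pwr K m (fun k => s (i.succAbove (l.succAbove k)))) = 0 := by
        refine K2_dsum (fun i l => K.a (D i (i.succAbove l))
            (pwr K m (fun k => s (i.succAbove (l.succAbove k))))) ?_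
        intro i l
        simp only [Fin.succAbove_succAbove_predAbove, Fin.succAbove_succAbove_succAbove_predAbove]
        rw [hDs]
      rw [← h8]
      refine Finset.sum_congr rfl fun i _ => ?_
      rw [Finset.smul_sum]
      refine Finset.sum_congr rfl fun l _ => ?_
      rw [h6, smul_smul, ← pow_add]
  unfold dbf
  have h9 : ∀ i : Fin (r + 1), ((-1 : ℂ) ^ (i : ℕ)) • db (UU K σ r (J ∘ i.succAbove)) z (ee (J i)) =
      (r.factorial : ℂ) • pwr K (r + 1) s + (r.factorial : ℂ) • K.a (σ z) (((-1 : ℂ) ^ (i : ℕ)) •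
        (∑ l, pwr K r (Function.update (fun l => s (i.succAbove l)) l (D i (i.succAbove l))))) := by
    intro i
    rw [h1 i, smul_comm, smul_add, smul_add, h3 i, map_smul]
  have h10 : ∑ i : Fin (r + 1), (r.factorial : ℂ) • K.a (σ z) (((-1 : ℂ) ^ (i : ℕ)) •
      (∑ l, pwr K r (Function.update (fun l => s (i.succAbove l)) l (D i (i.succAbove l))))) =
        0 := by
    rw [← Finset.smul_sum, ← map_sum, h5, map_zero, smul_zero]
  rw [Finset.sum_congr rfl (fun i _ => h9 i), Finset.sum_add_distrib, h10, add_zero,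
    Finset.sum_const, Finset.card_univ,
    Fintype.card_fin, ← Nat.cast_smul_eq_nsmul ℂ, smul_smul, Nat.factorial_succ]
  push_cast
  rfl

/-- The Koszul equation.
PROOF. `c_F (a_σ p) = F σ • p - a_σ (c_F p)` (`K.ca`), `F σ = 1`, `c_F p = 0` (`pwr_c`), for
`p = pwr K (r + 1) ..`. Then `dbf_UU`. -/
theorem koszul_eq (K : QT.Car Y V) {σ : Ec n → Y} {z : Ec n} (hσ : ContDiffAt ℝ 2 σ z)
    {F : Y →L[ℂ] ℂ} (hF : F (σ z) = 1) (hF0 : ∀ X, F (db σ z X) = 0) (r : ℕ)
    (J : Fin (r + 1) → Fin n) :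
    dbf (UU K σ r) J z = K.c F (UU K σ (r + 1) J z) := by
  have h := K.ca F (σ z) (pwr K (r + 1) (fun i => db σ z (ee (J i))))
  rw [hF, one_smul, pwr_c K _ F (fun i => hF0 _), map_zero, add_zero] at h
  rw [dbf_UU K hσ]
  show _ = K.c F (((r + 1).factorial : ℂ) • K.a (σ z) (pwr K (r + 1) (fun i => db σ z (ee (J i)))))
  rw [map_smul, h]

/-- PROOF. `UU K σ 0 J z = K.a (σ z) K.Ω`, `K.ca`, `K.cΩ`. -/
theorem c_UU0 (K : QT.Car Y V) (σ : Ec n → Y) (z : Ec n) {F : Y →L[ℂ] ℂ} (hF : F (σ z) = 1)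
    (J : Fin 0 → Fin n) : K.c F (UU K σ 0 J z) = K.Ω := by
  have h := K.ca F (σ z) K.Ω
  rw [hF, one_smul, K.cΩ, map_zero, add_zero] at h
  show K.c F (((0 : ℕ).factorial : ℂ) • K.a (σ z) K.Ω) = K.Ω
  rw [Nat.factorial_zero, Nat.cast_one, one_smul, h]

/-- PROOF. `K.cc F F x` gives `2 • .. = 0`. -/
theorem cc_zero (K : QT.Car Y V) (F : Y →L[ℂ] ℂ) (x : V) : K.c F (K.c F x) = 0 := by
  have h := K.cc F F x
  have h5 : (2 : ℂ) • K.c F (K.c F x) = 0 := by
    rw [two_smul]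
    nth_rewrite 1 [h]
    exact neg_add_cancel _
  rcases smul_eq_zero.1 h5 with h6 | h6
  · norm_num at h6
  · exact h6

/-- PROOF. `F` is holomorphic: `db` of `z ↦ K.c (F z) (η z)` is `K.c (F z) (db η z X)`, since the
derivative of `z ↦ K.c (F z)` is complex linear (`db_hol`). -/
theorem db_c (K : QT.Car Y V) {F : Ec n → Y →L[ℂ] ℂ} {z : Ec n} (hF : DifferentiableAt ℂ F z)
    {η : Ec n → V} (hη : DifferentiableAt ℝ η z) (X : Ec n) :
    db (fun y => K.c (F y) (η y)) z X = K.c (F z) (db η z X) := by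
  rw [K2_db K.c (hF.restrictScalars ℝ) hη, db_hol hF, map_zero]
  simp

/-- PROOF. `db_c` and the finite sum. -/
theorem dbf_c (K : QT.Car Y V) {F : Ec n → Y →L[ℂ] ℂ} {z : Ec n} (hF : DifferentiableAt ℂ F z)
    {q : ℕ} {η : Fm n q V} (hη : ∀ I, DifferentiableAt ℝ (η I) z) (J : Fin (q + 1) → Fin n) :
    dbf (fun I y => K.c (F y) (η I y)) J z = K.c (F z) (dbf η J z) := by
  unfold dbf
  rw [map_sum]
  refine Finset.sum_congr rfl fun i _ => ?_
  rw [db_c K hF (hη _), map_smul]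

end Pool.Agent.MPca0fc2.FD
end

section

set_option autoImplicit false

open Metric Set MeasureTheory Filter Topology
open scoped InnerProductSpace ENNReal

namespace Pool.Agent.MPca0fc2.QT

open Pool.Agent.MPca0fc2.PT

variable {E : Type*} [NormedAddCommGroup E] [InnerProductSpace ℂ E]
variable {Y : Type*} [NormedAddCommGroup Y] [NormedSpace ℂ Y]
variable {ι : Type} [Fintype ι] {d : ℕ} {c : ι → Fin d → ℂ} {χ : ι → (Fin d → ℂ) → ℝ} {r L : ℝ}

/-- the smooth solution -/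
noncomputable def sg {ι : Type} [Fintype ι] {d : ℕ} (χ : ι → (Fin d → ℂ) → ℝ)
    (b : Fin d → E → ℂ) (s : ι → E → Y) (w : E) : Y :=
  ∑ i, ((χ i (fun j => b j w) : ℝ) : ℂ) • s i w

/-- the hypotheses on the partition of unity -/
structure PU' {ι : Type} [Fintype ι] {d : ℕ} (c : ι → Fin d → ℂ) (χ : ι → (Fin d → ℂ) → ℝ)
    (r L : ℝ) : Prop where
  L0 : 0 ≤ L
  cd : ∀ i, ContDiff ℝ 2 (χ i)
  nonneg : ∀ i z, 0 ≤ χ i z
  le_one : ∀ i z, χ i z ≤ 1
  supp : ∀ i z, r ≤ ‖z - c i‖ → χ i z = 0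
  lip : ∀ i z, ‖fderiv ℝ (χ i) z‖ ≤ L

/-- the base point map is `C^2` -/
lemma sig_base_c2 {b : Fin d → E → ℂ} {w : E} (hb : ∀ j, ContDiffAt ℝ 2 (b j) w) :
    ContDiffAt ℝ 2 (fun x => fun j => b j x) w := contDiffAt_pi.2 hb

/-- far from the centre the cutoff vanishes in a neighbourhood -/
lemma sig_far (hχ : PU' c χ r L) {b : Fin d → E → ℂ} {w : E} (hb : ∀ j, ContDiffAt ℝ 2 (b j) w)
    {i : ι} (hi : ¬ ‖(fun j => b j w) - c i‖ ≤ r) :
    ∀ᶠ x in 𝓝 w, χ i (fun j => b j x) = 0 := by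
  rw [not_le] at hi
  have hc : ContinuousAt (fun x => ‖(fun j => b j x) - c i‖) w :=
    ((sig_base_c2 hb).continuousAt.sub continuousAt_const).norm
  filter_upwards [hc.eventually (lt_mem_nhds hi)] with x hx
  exact hχ.supp i _ hx.le

/-- the term vanishes near a far point -/
lemma sig_far_term (hχ : PU' c χ r L) {b : Fin d → E → ℂ} {w : E}
    (hb : ∀ j, ContDiffAt ℝ 2 (b j) w) {i : ι} (hi : ¬ ‖(fun j => b j w) - c i‖ ≤ r)
    (s : E → Y) :
    (fun x => ((χ i (fun j => b j x) : ℝ) : ℂ) • s x) =ᶠ[𝓝 w] fun _ => 0 := by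
  filter_upwards [sig_far hχ hb hi] with x hx
  rw [hx, Complex.ofReal_zero, zero_smul]

/-- the cutoff is `C^2` -/
lemma sig_cut_c2 (hχ : PU' c χ r L) {b : Fin d → E → ℂ} {w : E}
    (hb : ∀ j, ContDiffAt ℝ 2 (b j) w) (i : ι) :
    ContDiffAt ℝ 2 (fun x => ((χ i (fun j => b j x) : ℝ) : ℂ)) w :=
  Complex.ofRealCLM.contDiff.contDiffAt.comp w ((hχ.cd i).contDiffAt.comp w (sig_base_c2 hb))

theorem sg_c2 (hχ : PU' c χ r L) {b : Fin d → E → ℂ} {s : ι → E → Y} {w : E}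
    (hb : ∀ j, ContDiffAt ℝ 2 (b j) w)
    (hs : ∀ i, ‖(fun j => b j w) - c i‖ ≤ r → ContDiffAt ℝ 2 (s i) w) :
    ContDiffAt ℝ 2 (sg χ b s) w := by
  have h : ∀ i, ContDiffAt ℝ 2 (fun x => ((χ i (fun j => b j x) : ℝ) : ℂ) • s i x) w := by
    intro i
    by_cases hi : ‖(fun j => b j w) - c i‖ ≤ r
    · exact (sig_cut_c2 hχ hb i).smul (hs i hi)
    · exact contDiffAt_const.congr_of_eventuallyEq (sig_far_term hχ hb hi (s i))
  have h2 : sg χ b s = fun x => ∑ i, ((χ i (fun j => b j x) : ℝ) : ℂ) • s i x := by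
    ext x; rfl
  rw [h2]
  exact ContDiffAt.sum fun i _ => h i

lemma sig_norm_cut (hχ : PU' c χ r L) (i : ι) (z : Fin d → ℂ) :
    ‖((χ i z : ℝ) : ℂ)‖ ≤ 1 := by
  rw [Complex.norm_real, Real.norm_of_nonneg (hχ.nonneg i z)]
  exact hχ.le_one i z

/-- a sum bounded termwise -/
lemma sig_sum_le {ι : Type} [Fintype ι] {f : ι → Y} {B : ℝ} (h : ∀ i, ‖f i‖ ≤ B) :
    ‖∑ i, f i‖ ≤ Fintype.card ι * B := by
  refine (norm_sum_le _ _).trans ?_
  refine (Finset.sum_le_sum fun i _ => h i).trans ?_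
  rw [Finset.sum_const, nsmul_eq_mul, Finset.card_univ]

theorem sg_norm (hχ : PU' c χ r L) {b : Fin d → E → ℂ} {s : ι → E → Y} {w : E} {B : ℝ}
    (hB : 0 ≤ B) (hs : ∀ i, ‖(fun j => b j w) - c i‖ ≤ r → ‖s i w‖ ≤ B) :
    ‖sg χ b s w‖ ≤ Fintype.card ι * B := by
  unfold sg
  apply sig_sum_le
  intro i
  by_cases hi : ‖(fun j => b j w) - c i‖ ≤ r
  · rw [norm_smul]
    have h1 := sig_norm_cut hχ i (fun j => b j w)
    have h2 := hs i hi
    have h3 : ‖((χ i (fun j => b j w) : ℝ) : ℂ)‖ * ‖s i w‖ ≤ 1 * ‖s i w‖ :=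
      mul_le_mul_of_nonneg_right h1 (norm_nonneg _)
    linarith
  · rw [hχ.supp i _ (not_le.1 hi).le, Complex.ofReal_zero, zero_smul, norm_zero]
    exact hB

/-- the terms are differentiable -/
lemma sig_term_diff (hχ : PU' c χ r L) {b : Fin d → E → ℂ} {s : ι → E → Y} {w : E}
    (hb : ∀ j, ContDiffAt ℝ 2 (b j) w)
    (hs : ∀ i, ‖(fun j => b j w) - c i‖ ≤ r → DifferentiableAt ℂ (s i) w) (i : ι) :
    DifferentiableAt ℝ (fun x => ((χ i (fun j => b j x) : ℝ) : ℂ) • s i x) w := by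
  by_cases hi : ‖(fun j => b j w) - c i‖ ≤ r
  · exact ((sig_cut_c2 hχ hb i).differentiableAt (by norm_num)).fun_smul
      ((hs i hi).restrictScalars ℝ)
  · exact (differentiableAt_const (0 : Y)).congr_of_eventuallyEq (sig_far_term hχ hb hi (s i))

lemma sig_diff (hχ : PU' c χ r L) {b : Fin d → E → ℂ} {s : ι → E → Y} {w : E}
    (hb : ∀ j, ContDiffAt ℝ 2 (b j) w)
    (hs : ∀ i, ‖(fun j => b j w) - c i‖ ≤ r → DifferentiableAt ℂ (s i) w) :
    DifferentiableAt ℝ (sg χ b s) w := by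
  have h2 : sg χ b s = fun x => ∑ i, ((χ i (fun j => b j x) : ℝ) : ℂ) • s i x := by
    ext x; rfl
  rw [h2]
  exact DifferentiableAt.fun_sum fun i _ => sig_term_diff hχ hb hs i

lemma sig_D01_sum (hχ : PU' c χ r L) {b : Fin d → E → ℂ} {s : ι → E → Y} {w : E}
    (hb : ∀ j, ContDiffAt ℝ 2 (b j) w)
    (hs : ∀ i, ‖(fun j => b j w) - c i‖ ≤ r → DifferentiableAt ℂ (s i) w) (v : E) :
    D01 (sg χ b s) w v
      = ∑ i, D01 (fun x => ((χ i (fun j => b j x) : ℝ) : ℂ) • s i x) w v := by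
  have h2 : sg χ b s = fun x => ∑ i, ((χ i (fun j => b j x) : ℝ) : ℂ) • s i x := by
    ext x; rfl
  have h3 : fderiv ℝ (sg χ b s) w
      = ∑ i, fderiv ℝ (fun x => ((χ i (fun j => b j x) : ℝ) : ℂ) • s i x) w := by
    rw [h2]
    exact fderiv_fun_sum fun i _ => sig_term_diff hχ hb hs i
  simp only [D01_apply]
  rw [h3]
  simp only [ContinuousLinearMap.sum_apply, Finset.smul_sum, smul_add, Finset.sum_add_distrib]

/-- the derivative of the cutoff -/
lemma sig_cut_fderiv (hχ : PU' c χ r L) {b : Fin d → E → ℂ} {w : E}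
    (hb : ∀ j, ContDiffAt ℝ 2 (b j) w) (i : ι) (v : E) {g : ℝ} (hg0 : 0 ≤ g)
    (hg : ∀ j, ‖fderiv ℝ (b j) w v‖ ≤ g) :
    ‖fderiv ℝ (fun x => ((χ i (fun j => b j x) : ℝ) : ℂ)) w v‖ ≤ L * g := by
  have hbd : ∀ j, HasFDerivAt (b j) (fderiv ℝ (b j) w) w := fun j =>
    ((hb j).differentiableAt (by norm_num)).hasFDerivAt
  have h1 : HasFDerivAt (fun x => fun j => b j x)
      (ContinuousLinearMap.pi fun j => fderiv ℝ (b j) w) w := hasFDerivAt_pi.2 hbd
  have h2 : HasFDerivAt (χ i) (fderiv ℝ (χ i) (fun j => b j w)) (fun j => b j w) :=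
    ((hχ.cd i).differentiable (by norm_num)).differentiableAt.hasFDerivAt
  have h3 : HasFDerivAt (fun x => ((χ i (fun j => b j x) : ℝ) : ℂ))
      (Complex.ofRealCLM.comp ((fderiv ℝ (χ i) (fun j => b j w)).comp
        (ContinuousLinearMap.pi fun j => fderiv ℝ (b j) w))) w :=
    Complex.ofRealCLM.hasFDerivAt.comp w (h2.comp w h1)
  rw [h3.fderiv]
  simp only [ContinuousLinearMap.comp_apply, Complex.ofRealCLM_apply, Complex.norm_real]
  refine ((fderiv ℝ (χ i) (fun j => b j w)).le_opNorm _).trans ?_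
  apply mul_le_mul (hχ.lip i _) _ (norm_nonneg _) hχ.L0
  rw [pi_norm_le_iff_of_nonneg hg0]
  intro j
  exact hg j

/-- one term -/
lemma sig_D01_term (hχ : PU' c χ r L) {b : Fin d → E → ℂ} {s : ι → E → Y} {w : E} {B : ℝ}
    (hB : 0 ≤ B) (hb : ∀ j, ContDiffAt ℝ 2 (b j) w)
    (hs : ∀ i, ‖(fun j => b j w) - c i‖ ≤ r → ‖s i w‖ ≤ B ∧ DifferentiableAt ℂ (s i) w)
    (v : E) {g : ℝ} (hg0 : 0 ≤ g)
    (hg : ∀ j, ‖fderiv ℝ (b j) w v‖ ≤ g ∧ ‖fderiv ℝ (b j) w (Complex.I • v)‖ ≤ g) (i : ι) :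
    ‖D01 (fun x => ((χ i (fun j => b j x) : ℝ) : ℂ) • s i x) w v‖ ≤ L * B * g := by
  by_cases hi : ‖(fun j => b j w) - c i‖ ≤ r
  · obtain ⟨hsB, hsd⟩ := hs i hi
    have hsR : HasFDerivAt (s i) (fderiv ℝ (s i) w) w := (hsd.restrictScalars ℝ).hasFDerivAt
    have hcR : HasFDerivAt (fun x => ((χ i (fun j => b j x) : ℝ) : ℂ))
        (fderiv ℝ (fun x => ((χ i (fun j => b j x) : ℝ) : ℂ)) w) w :=
      ((sig_cut_c2 hχ hb i).differentiableAt (by norm_num)).hasFDerivAt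
    have h1 := (hcR.fun_smul hsR).fderiv
    have h0 : D01 (s i) w v = 0 := by
      rw [D01_holo hsd]; rfl
    rw [D01_apply] at h0 ⊢
    rw [h1]
    set α := fderiv ℝ (fun x => ((χ i (fun j => b j x) : ℝ) : ℂ)) w v with hα
    set β := fderiv ℝ (fun x => ((χ i (fun j => b j x) : ℝ) : ℂ)) w (Complex.I • v) with hβ
    have hαn : ‖α‖ ≤ L * g := sig_cut_fderiv hχ hb i v hg0 fun j => (hg j).1
    have hβn : ‖β‖ ≤ L * g := sig_cut_fderiv hχ hb i _ hg0 fun j => (hg j).2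
    set a : ℂ := ((χ i (fun j => b j w) : ℝ) : ℂ) with ha
    have h4 : (2⁻¹ : ℂ) • (((a • fderiv ℝ (s i) w
          + (fderiv ℝ (fun x => ((χ i (fun j => b j x) : ℝ) : ℂ)) w).smulRight (s i w)) v)
        + Complex.I • ((a • fderiv ℝ (s i) w
          + (fderiv ℝ (fun x => ((χ i (fun j => b j x) : ℝ) : ℂ)) w).smulRight (s i w))
            (Complex.I • v)))
        = a • ((2⁻¹ : ℂ) • (fderiv ℝ (s i) w v + Complex.I • fderiv ℝ (s i) w (Complex.I • v)))
          + ((2⁻¹ : ℂ) * (α + Complex.I * β)) • s i w := by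
      simp only [ContinuousLinearMap.add_apply, ContinuousLinearMap.smul_apply,
        ContinuousLinearMap.smulRight_apply, ← hα, ← hβ]
      module
    rw [h4, h0, smul_zero, zero_add, norm_smul]
    have h5 : ‖(2⁻¹ : ℂ) * (α + Complex.I * β)‖ ≤ L * g := by
      rw [norm_mul]
      have h6 : ‖α + Complex.I * β‖ ≤ L * g + L * g := by
        refine (norm_add_le _ _).trans (add_le_add hαn ?_)
        rw [norm_mul, Complex.norm_I, one_mul]
        exact hβn
      have h7 : ‖(2⁻¹ : ℂ)‖ = 2⁻¹ := by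
        rw [norm_inv]; simp
      rw [h7]
      linarith
    have h8 : 0 ≤ L * g := mul_nonneg hχ.L0 hg0
    calc ‖(2⁻¹ : ℂ) * (α + Complex.I * β)‖ * ‖s i w‖ ≤ (L * g) * B :=
          mul_le_mul h5 hsB (norm_nonneg _) h8
      _ = L * B * g := by ring
  · have h1 := (sig_far_term hχ hb hi (s i)).fderiv_eq (𝕜 := ℝ)
    rw [D01_apply, h1]
    have h2 : fderiv ℝ (fun _ : E => (0 : Y)) w = 0 := by simp
    rw [h2]
    simp only [ContinuousLinearMap.zero_apply, smul_zero, add_zero, norm_zero]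
    exact mul_nonneg (mul_nonneg hχ.L0 hB) hg0

theorem sg_D01 (hχ : PU' c χ r L) {b : Fin d → E → ℂ} {s : ι → E → Y} {w : E} {B : ℝ}
    (hB : 0 ≤ B) (hb : ∀ j, ContDiffAt ℝ 2 (b j) w)
    (hs : ∀ i, ‖(fun j => b j w) - c i‖ ≤ r → ‖s i w‖ ≤ B ∧
      ∀ᶠ x in 𝓝 w, DifferentiableAt ℂ (s i) x) (v : E) {g : ℝ} (hg0 : 0 ≤ g)
    (hg : ∀ j, ‖fderiv ℝ (b j) w v‖ ≤ g ∧ ‖fderiv ℝ (b j) w (Complex.I • v)‖ ≤ g) :
    ‖D01 (sg χ b s) w v‖ ≤ Fintype.card ι * L * B * g := by
  have hs' : ∀ i, ‖(fun j => b j w) - c i‖ ≤ r → ‖s i w‖ ≤ B ∧ DifferentiableAt ℂ (s i) w :=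
    fun i hi => ⟨(hs i hi).1, (hs i hi).2.self_of_nhds⟩
  rw [sig_D01_sum hχ hb (fun i hi => (hs' i hi).2)]
  have h := sig_sum_le (ι := ι) (B := L * B * g) fun i => sig_D01_term hχ hB hb hs' v hg0 hg i
  calc _ ≤ (Fintype.card ι : ℝ) * (L * B * g) := h
    _ = _ := by ring

/-- the same base, two local solutions -/
theorem sg_data (hχ : PU' c χ r L) {b : Fin d → E → ℂ} {s s' : ι → E → Y} {w : E} {κ : ℝ}
    (hκ : 0 ≤ κ) (hb : ∀ j, ContDiffAt ℝ 2 (b j) w)
    (hs : ∀ i, ‖(fun j => b j w) - c i‖ ≤ r → ‖s' i w - s i w‖ ≤ κ ∧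
      (∀ᶠ x in 𝓝 w, DifferentiableAt ℂ (s i) x) ∧ ∀ᶠ x in 𝓝 w, DifferentiableAt ℂ (s' i) x) :
    ‖sg χ b s' w - sg χ b s w‖ ≤ Fintype.card ι * κ ∧ ∀ (v : E) (g : ℝ), 0 ≤ g →
      (∀ j, ‖fderiv ℝ (b j) w v‖ ≤ g ∧ ‖fderiv ℝ (b j) w (Complex.I • v)‖ ≤ g) →
      ‖D01 (sg χ b s') w v - D01 (sg χ b s) w v‖ ≤ Fintype.card ι * L * κ * g := by
  set t : ι → E → Y := fun i x => s' i x - s i x with ht
  have hsub : ∀ x, sg χ b s' x - sg χ b s x = sg χ b t x := by
    intro x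
    unfold sg
    rw [← Finset.sum_sub_distrib]
    apply Finset.sum_congr rfl
    intro i _
    rw [← smul_sub]
  constructor
  · rw [hsub]
    exact sg_norm hχ hκ fun i hi => (hs i hi).1
  · intro v g hg0 hg
    have hd := sig_diff hχ hb (s := s) fun i hi => (hs i hi).2.1.self_of_nhds
    have hd' := sig_diff hχ hb (s := s') fun i hi => (hs i hi).2.2.self_of_nhds
    have h1 : D01 (sg χ b s') w v - D01 (sg χ b s) w v = D01 (sg χ b t) w v := by
      have h2 : sg χ b t = fun x => sg χ b s' x - sg χ b s x := by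
        ext x; exact (hsub x).symm
      have h3 : fderiv ℝ (sg χ b t) w = fderiv ℝ (sg χ b s') w - fderiv ℝ (sg χ b s) w := by
        rw [h2]
        exact fderiv_fun_sub hd' hd
      rw [D01_apply, D01_apply, D01_apply, h3]
      simp only [ContinuousLinearMap.sub_apply]
      module
    rw [h1]
    refine sg_D01 hχ hκ hb (fun i hi => ⟨(hs i hi).1, ?_⟩) v hg0 hg
    filter_upwards [(hs i hi).2.1, (hs i hi).2.2] with x hx hx'
    exact hx'.sub hx

/-- two bases, the same local solutions -/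
theorem sg_base (hχ : PU' c χ r L) {b b' : Fin d → E → ℂ} {s : ι → E → Y} {w : E} {B : ℝ}
    (hB : 0 ≤ B) (hs : ∀ i, ‖(fun j => b j w) - c i‖ ≤ r ∨ ‖(fun j => b' j w) - c i‖ ≤ r →
      ‖s i w‖ ≤ B) :
    ‖sg χ b' s w - sg χ b s w‖ ≤ Fintype.card ι * L * B * ∑ j, ‖b' j w - b j w‖ := by
  set S : ℝ := ∑ j, ‖b' j w - b j w‖ with hS
  have hS0 : 0 ≤ S := Finset.sum_nonneg fun j _ => norm_nonneg _
  have hlip : ∀ i, ‖χ i (fun j => b' j w) - χ i (fun j => b j w)‖ ≤ L * S := by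
    intro i
    have h1 := Convex.norm_image_sub_le_of_norm_fderiv_le (𝕜 := ℝ) (f := χ i) (C := L)
      (s := Set.univ) (x := fun j => b j w) (y := fun j => b' j w)
      (fun x _ => ((hχ.cd i).differentiable (by norm_num)).differentiableAt)
      (fun x _ => hχ.lip i x) convex_univ (mem_univ _) (mem_univ _)
    refine h1.trans (mul_le_mul_of_nonneg_left ?_ hχ.L0)
    rw [pi_norm_le_iff_of_nonneg hS0]
    intro j
    exact Finset.single_le_sum (f := fun j => ‖b' j w - b j w‖) (fun j _ => norm_nonneg _)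
      (Finset.mem_univ j)
  have hsub : sg χ b' s w - sg χ b s w
      = ∑ i, ((χ i (fun j => b' j w) - χ i (fun j => b j w) : ℝ) : ℂ) • s i w := by
    unfold sg
    rw [← Finset.sum_sub_distrib]
    apply Finset.sum_congr rfl
    intro i _
    rw [← sub_smul, Complex.ofReal_sub]
  rw [hsub]
  have h := sig_sum_le (ι := ι) (B := L * S * B)
    (f := fun i => ((χ i (fun j => b' j w) - χ i (fun j => b j w) : ℝ) : ℂ) • s i w) ?_
  · calc _ ≤ (Fintype.card ι : ℝ) * (L * S * B) := h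
      _ = _ := by ring
  · intro i
    have hLS : 0 ≤ L * S := mul_nonneg hχ.L0 hS0
    by_cases hi : ‖(fun j => b j w) - c i‖ ≤ r ∨ ‖(fun j => b' j w) - c i‖ ≤ r
    · simp only [norm_smul, Complex.norm_real]
      exact mul_le_mul (hlip i) (hs i hi) (norm_nonneg _) hLS
    · rw [not_or] at hi
      have h1 := hχ.supp i _ (not_le.1 hi.1).le
      have h2 := hχ.supp i _ (not_le.1 hi.2).le
      simp only [h1, h2, sub_zero, Complex.ofReal_zero, zero_smul, norm_zero]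
      exact mul_nonneg hLS hB

end Pool.Agent.MPca0fc2.QT
end

section

/-! The choice of the weights. -/

set_option autoImplicit false

open Metric Set MeasureTheory Filter Topology
open scoped ContDiff

namespace Pool.Agent.MPca0fc2.LV

open Pool.Agent.MPca0fc2.FD (Ec ee)
open Pool.Agent.Lib.MP_ca0fc2_an (leviForm)

variable {n : ℕ} {Ω : Set (Ec n)} {ψ : Ec n → ℝ}

/-- The exhaustion function is bounded below. -/
private theorem H6c_low (hΩ : PX Ω ψ) : ∃ t₀ : ℝ, ∀ z ∈ Ω, t₀ ≤ ψ z := by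
  rcases Ω.eq_empty_or_nonempty with h | ⟨z₀, hz₀⟩
  · exact ⟨0, fun z hz => by rw [h] at hz; exact absurd hz (notMem_empty z)⟩
  · obtain ⟨z₁, hz₁, hmin⟩ := (hΩ.cpt (ψ z₀)).exists_isMinOn ⟨z₀, hz₀, le_rfl⟩
      (hΩ.sm.continuousOn.mono fun z hz => hz.1)
    refine ⟨ψ z₁, fun z hz => ?_⟩
    rcases le_total (ψ z) (ψ z₀) with h | h
    · exact hmin ⟨hz, h⟩
    · exact hz₁.2.trans h

/-- The derivative of `Real.smoothTransition` is bounded. -/
private theorem H6c_bd : ∃ C : ℝ, 0 ≤ C ∧ ∀ x, (deriv Real.smoothTransition x) ^ 2 ≤ C := by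
  have hc : Continuous (deriv Real.smoothTransition) :=
    (Real.smoothTransition.contDiff (n := 1)).continuous_deriv le_rfl
  have hc2 : Continuous (fun x => (deriv Real.smoothTransition x) ^ 2) := hc.pow 2
  obtain ⟨C, hC⟩ := (isCompact_Icc (a := (0 : ℝ)) (b := 1)).exists_bound_of_continuousOn
    hc2.continuousOn
  refine ⟨max C 0, le_max_right _ _, fun x => ?_⟩
  by_cases hx : x ∈ Icc (0 : ℝ) 1
  · have h1 := hC x hx
    rw [Real.norm_of_nonneg (sq_nonneg _)] at h1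
    exact h1.trans (le_max_left _ _)
  · have h0 : deriv Real.smoothTransition x = 0 := by
      rw [mem_Icc, not_and_or, not_le, not_le] at hx
      rcases hx with h | h
      · have he : Real.smoothTransition =ᶠ[𝓝 x] fun _ => (0 : ℝ) := by
          filter_upwards [eventually_lt_nhds h] with y hy
          exact Real.smoothTransition.zero_of_nonpos hy.le
        rw [he.deriv_eq]
        simp
      · have he : Real.smoothTransition =ᶠ[𝓝 x] fun _ => (1 : ℝ) := by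
          filter_upwards [eventually_gt_nhds h] with y hy
          exact Real.smoothTransition.one_of_one_le hy.le
        rw [he.deriv_eq]
        simp
    rw [h0]
    simp

/-- The cut-off functions. -/
private noncomputable def H6c_eta (Ω : Set (Ec n)) (ψ : Ec n → ℝ) (i : ℕ) : Ec n → ℝ :=
  open scoped Classical in
  fun z => if z ∈ Ω then Real.smoothTransition ((i : ℝ) + 1 - ψ z) else 0

private theorem H6c_eta_of {i : ℕ} {z : Ec n} (hz : z ∈ Ω) :
    H6c_eta Ω ψ i z = Real.smoothTransition ((i : ℝ) + 1 - ψ z) := by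
  simp only [H6c_eta, if_pos hz]

private theorem H6c_eta_not {i : ℕ} {z : Ec n} (hz : z ∉ Ω) : H6c_eta Ω ψ i z = 0 := by
  simp only [H6c_eta, if_neg hz]

private theorem H6c_eta_zero {i : ℕ} {z : Ec n} (hz : ¬ (z ∈ Ω ∧ ψ z ≤ (i : ℝ) + 1)) :
    H6c_eta Ω ψ i z = 0 := by
  by_cases h : z ∈ Ω
  · rw [H6c_eta_of h]
    have h2 : ¬ ψ z ≤ (i : ℝ) + 1 := fun h3 => hz ⟨h, h3⟩
    exact Real.smoothTransition.zero_of_nonpos (by linarith)
  · exact H6c_eta_not h

private theorem H6c_eta_ev (hΩ : IsOpen Ω) (i : ℕ) {z : Ec n} (hz : z ∈ Ω) :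
    H6c_eta Ω ψ i =ᶠ[𝓝 z] fun w => Real.smoothTransition ((i : ℝ) + 1 - ψ w) := by
  filter_upwards [hΩ.mem_nhds hz] with w hw
  exact H6c_eta_of hw

private theorem H6c_eta_sub (hΩ : PX Ω ψ) (i : ℕ) :
    tsupport (H6c_eta Ω ψ i) ⊆ {z | z ∈ Ω ∧ ψ z ≤ (i : ℝ) + 1} := by
  refine closure_minimal ?_ (hΩ.cpt _).isClosed
  intro z hz
  by_contra hn
  exact hz (H6c_eta_zero hn)

private theorem H6c_eta_smooth (hΩ : PX Ω ψ) (i : ℕ) : ContDiff ℝ ∞ (H6c_eta Ω ψ i) := by
  rw [contDiff_iff_contDiffAt]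
  intro z
  by_cases hz : z ∈ Ω
  · have h1 : ContDiffAt ℝ ∞ ψ z := hΩ.sm.contDiffAt (hΩ.opn.mem_nhds hz)
    have h2 : ContDiffAt ℝ ∞ (fun w => Real.smoothTransition ((i : ℝ) + 1 - ψ w)) z :=
      (Real.smoothTransition.contDiff (n := (⊤ : ℕ∞))).contDiffAt.comp z (contDiffAt_const.sub h1)
    exact h2.congr_of_eventuallyEq (H6c_eta_ev hΩ.opn i hz)
  · have h1 : z ∈ (tsupport (H6c_eta Ω ψ i))ᶜ := fun h => hz (H6c_eta_sub hΩ i h).1
    have h2 : H6c_eta Ω ψ i =ᶠ[𝓝 z] fun _ => (0 : ℝ) := by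
      filter_upwards [(isClosed_tsupport _).isOpen_compl.mem_nhds h1] with w hw
      exact image_eq_zero_of_notMem_tsupport hw
    exact contDiffAt_const.congr_of_eventuallyEq h2

private theorem H6c_eta_dr (hΩ : PX Ω ψ) (i : ℕ) {z : Ec n} (hz : z ∈ Ω) (k : Fin n) :
    dr (H6c_eta Ω ψ i) z k =
      -((deriv Real.smoothTransition ((i : ℝ) + 1 - ψ z) : ℝ) : ℂ) * dr ψ z k := by
  have h1 : DifferentiableAt ℝ ψ z :=
    (hΩ.sm.contDiffAt (hΩ.opn.mem_nhds hz)).differentiableAt (by simp)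
  have h2 : HasDerivAt Real.smoothTransition
      (deriv Real.smoothTransition ((i : ℝ) + 1 - ψ z)) ((i : ℝ) + 1 - ψ z) :=
    ((Real.smoothTransition.contDiff (n := 1)).differentiable (by simp) _).hasDerivAt
  have h3 : HasFDerivAt (fun w => (i : ℝ) + 1 - ψ w) (-fderiv ℝ ψ z) z :=
    h1.hasFDerivAt.const_sub _
  have h4 := h2.comp_hasFDerivAt z h3
  have h5 : fderiv ℝ (H6c_eta Ω ψ i) z =
      deriv Real.smoothTransition ((i : ℝ) + 1 - ψ z) • (-fderiv ℝ ψ z) := by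
    rw [(H6c_eta_ev hΩ.opn i hz).fderiv_eq]
    exact h4.fderiv
  unfold dr
  rw [h5]
  simp only [smul_apply, neg_apply, smul_eq_mul]
  push_cast
  ring

private theorem H6c_lev_nonneg (hΩ : PX Ω ψ) {z : Ec n} (hz : z ∈ Ω) (X : Ec n) :
    0 ≤ leviForm ψ z X := by
  by_cases hX : X = 0
  · subst hX
    have h : leviForm ψ z 0 = 0 := by simp [leviForm]
    rw [h]
  · exact (hΩ.psh z hz X hX).le

/-- The final estimate of the integrand. -/
private theorem H6c_exp {a s p q m : ℝ} (ha : 0 ≤ a) (hq : 0 ≤ q)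
    (h : s + Real.log (1 + a) + m * Real.log (1 + q) ≤ p) :
    a * Real.exp (s - p) ≤ (1 + q) ^ (-m) := by
  have h1 : Real.exp (s - p) ≤ Real.exp (-Real.log (1 + a) + -(m * Real.log (1 + q))) :=
    Real.exp_le_exp.2 (by linarith)
  rw [Real.exp_add, Real.exp_neg, Real.exp_log (by linarith)] at h1
  have h2 : Real.exp (-(m * Real.log (1 + q))) = (1 + q) ^ (-m) := by
    rw [Real.rpow_def_of_pos (by linarith)]
    congr 1
    ring
  rw [h2] at h1
  have h3 : 0 ≤ (1 + q) ^ (-m) := Real.rpow_nonneg (by linarith) _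
  calc a * Real.exp (s - p) ≤ a * ((1 + a)⁻¹ * (1 + q) ^ (-m)) :=
        mul_le_mul_of_nonneg_left h1 ha
    _ = (a * (1 + a)⁻¹) * (1 + q) ^ (-m) := by ring
    _ ≤ 1 * (1 + q) ^ (-m) := by
        refine mul_le_mul_of_nonneg_right ?_ h3
        rw [← div_eq_mul_inv, div_le_one (by linarith)]
        linarith
    _ = _ := one_mul _

/-- The weights.
PROOF. If `Ω` is empty take `φ = σ = 0`, `η = 0`. Otherwise `ψ` is bounded below by some `t₀` on `Ω` (minimum on a non empty compact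
set `{ψ ≤ c}`). Cut-off functions: `η i z = Real.smoothTransition (i + 1 - ψ z)` for `z ∈ Ω` and `0` outside `Ω`: it is `1` for
`ψ z ≤ i` and `0` for `ψ z ≥ i + 1`, its support is in the compact set `{ψ ≤ i + 1}`, so it is smooth on the whole
space. `∑_k |dr (η i) z k|² ≤ C₀ ∑_k |dr ψ z k|²`, where `C₀` is a bound for the square of the derivative of
`Real.smoothTransition`. `σ = s ∘ ψ` with `s` from `exists_smooth_ge` for a monotone majorant (`exists_mono`) of the continuous function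
`log (1 + C₀ ∑ |dr ψ z k|²)`: so `C₀ ∑ |dr ψ|² ≤ e^σ`. `φ = κ ∘ ψ` with `κ` from `exists_smooth_ge` for a monotone function `M`
which is at least `2 M₁ M₂`, `M₁` from `exists_mono_lev`, `M₂` a non negative majorant of
`∑ |dr σ z k|² + e^{σ z}` (a continuous function), and which majorizes
`σ z + log (1 + ∑ |α j z|²) + (n + 1) log (1 + ‖z‖²)`. Then by `lev_comp` `leviForm φ z X ≥ κ'(ψ z) leviForm ψ z X ≥
2 M₁ M₂ leviForm ψ z X ≥ 2 M₂ ‖X‖²` (`leviForm ψ z X ≥ 0`), and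
`(∑ |α j|²) e^{σ - φ} ≤ (1 + ‖z‖²)^{-(n + 1)}`, integrable on the space of real dimension `2 n`
(`integrable_rpow_neg_one_add_norm_sq`). -/
theorem weights (hΩ : PX Ω ψ) {α : Fin n → Ec n → ℂ} (hα : ∀ j, ContinuousOn (α j) Ω) :
    ∃ (φ σ : Ec n → ℝ) (η : ℕ → Ec n → ℝ), WT Ω φ σ η ∧
      IntegrableOn (fun z => (∑ j, ‖α j z‖ ^ 2) * Real.exp (σ z - φ z)) Ω := by
  classical
  obtain ⟨t₀, ht₀⟩ := H6c_low hΩ
  obtain ⟨C₀, hC₀, hbd⟩ := H6c_bd
  have hdr : ∀ {ρ : Ec n → ℝ}, ContDiffOn ℝ ∞ ρ Ω →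
      ContinuousOn (fun z => ∑ k, ‖dr ρ z k‖ ^ 2) Ω := by
    intro ρ hρ
    refine continuousOn_finsetSum _ fun k _ => ?_
    exact ((dr_smooth hΩ.opn hρ k).continuousOn.norm).pow 2
  have hnn : ∀ (ρ : Ec n → ℝ) (z : Ec n), 0 ≤ ∑ k, ‖dr ρ z k‖ ^ 2 := fun ρ z =>
    Finset.sum_nonneg fun k _ => sq_nonneg _
  -- the function `σ`
  have hg0 : ContinuousOn (fun z => Real.log (1 + C₀ * ∑ k, ‖dr ψ z k‖ ^ 2)) Ω := by
    refine ContinuousOn.log (continuousOn_const.add (continuousOn_const.mul (hdr hΩ.sm))) ?_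
    intro z _
    have := mul_nonneg hC₀ (hnn ψ z)
    linarith
  obtain ⟨M₀, hM₀, hM₀z⟩ := exists_mono hΩ hg0
  obtain ⟨s, hs1, hs2, -, -, -⟩ := exists_smooth_ge hM₀ t₀
  set σ : Ec n → ℝ := fun z => s (ψ z) with hσ
  have hσs : ContDiffOn ℝ ∞ σ Ω := hs1.comp_contDiffOn hΩ.sm
  have hσe : ∀ z ∈ Ω, C₀ * ∑ k, ‖dr ψ z k‖ ^ 2 ≤ Real.exp (σ z) := by
    intro z hz
    have h1 : Real.log (1 + C₀ * ∑ k, ‖dr ψ z k‖ ^ 2) ≤ σ z :=
      (hM₀z z hz).trans (hs2 _ (ht₀ z hz))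
    have h2 : 0 ≤ C₀ * ∑ k, ‖dr ψ z k‖ ^ 2 := mul_nonneg hC₀ (hnn ψ z)
    have h3 := (Real.log_le_iff_le_exp (by linarith)).1 h1
    linarith
  -- the majorants
  obtain ⟨M₁, hM₁, hM₁0, hM₁z⟩ := exists_mono_lev hΩ
  have hg2 : ContinuousOn (fun z => ∑ k, ‖dr σ z k‖ ^ 2 + Real.exp (σ z)) Ω :=
    (hdr hσs).add hσs.continuousOn.rexp
  obtain ⟨M₂, hM₂, hM₂z⟩ := exists_mono hΩ hg2
  have hα2 : ContinuousOn (fun z => ∑ j, ‖α j z‖ ^ 2) Ω :=
    continuousOn_finsetSum _ fun j _ => ((hα j).norm).pow 2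
  have hαn : ∀ z : Ec n, 0 ≤ ∑ j, ‖α j z‖ ^ 2 := fun z =>
    Finset.sum_nonneg fun k _ => sq_nonneg _
  have hg3 : ContinuousOn (fun z => σ z + Real.log (1 + ∑ j, ‖α j z‖ ^ 2) +
      ((n : ℝ) + 1) * Real.log (1 + ‖z‖ ^ 2)) Ω := by
    refine (hσs.continuousOn.add ?_).add ?_
    · refine ContinuousOn.log (continuousOn_const.add hα2) fun z _ => ?_
      have := hαn z
      linarith
    · refine continuousOn_const.mul ?_
      refine ContinuousOn.log (continuousOn_const.add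
        ((continuous_norm.pow 2).continuousOn)) fun z _ => ?_
      positivity
  obtain ⟨M₃, hM₃, hM₃z⟩ := exists_mono hΩ hg3
  set M : ℝ → ℝ := fun t => 2 * (M₁ t * max (M₂ t) 0) + max (M₃ t) 0 with hM
  have hMm : Monotone M := by
    intro a b hab
    have h1 : M₁ a * max (M₂ a) 0 ≤ M₁ b * max (M₂ b) 0 :=
      mul_le_mul (hM₁ hab) (max_le_max (hM₂ hab) le_rfl) (le_max_right _ _) (hM₁0 b)
    have h2 : max (M₃ a) 0 ≤ max (M₃ b) 0 := max_le_max (hM₃ hab) le_rfl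
    simp only [hM]
    linarith
  have hMa : ∀ t, 2 * (M₁ t * max (M₂ t) 0) ≤ M t := fun t => by
    have : 0 ≤ max (M₃ t) 0 := le_max_right _ _
    simp only [hM]
    linarith
  have hMb : ∀ t, M₃ t ≤ M t := fun t => by
    have h1 : M₃ t ≤ max (M₃ t) 0 := le_max_left _ _
    have h2 : 0 ≤ M₁ t * max (M₂ t) 0 := mul_nonneg (hM₁0 t) (le_max_right _ _)
    simp only [hM]
    linarith
  obtain ⟨κ, hκ1, hκ2, hκ3, hκ4, hκ5⟩ := exists_smooth_ge hMm t₀
  set φ : Ec n → ℝ := fun z => κ (ψ z) with hφ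
  have hφs : ContDiffOn ℝ ∞ φ Ω := hκ1.comp_contDiffOn hΩ.sm
  refine ⟨φ, σ, H6c_eta Ω ψ, ⟨hΩ.opn, hφs, hσs, ?_, H6c_eta_smooth hΩ, ?_, ?_, ?_, ?_, ?_, ?_⟩, ?_⟩
  · -- the Levi form
    intro z hz X
    have h2 : ContDiffAt ℝ 2 ψ z :=
      (hΩ.sm.contDiffAt (hΩ.opn.mem_nhds hz)).of_le (WithTop.coe_le_coe.2 (le_top : (2 : ℕ∞) ≤ ⊤))
    have h3 : ContDiffAt ℝ 2 κ (ψ z) := hκ1.contDiffAt.of_le (WithTop.coe_le_coe.2 (le_top : (2 : ℕ∞) ≤ ⊤))
    have h4 := lev_comp h3 h2 X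
    have hL := H6c_lev_nonneg hΩ hz X
    have h5 : 0 ≤ deriv (deriv κ) (ψ z) *
        ((fderiv ℝ ψ z X) ^ 2 + (fderiv ℝ ψ z (Complex.I • X)) ^ 2) / 4 :=
      div_nonneg (mul_nonneg (hκ5 _) (by positivity)) (by norm_num)
    have h6 : 2 * (M₁ (ψ z) * max (M₂ (ψ z)) 0) ≤ deriv κ (ψ z) :=
      (hMa _).trans (hκ3 _ (ht₀ z hz))
    have h7 : 2 * (M₁ (ψ z) * max (M₂ (ψ z)) 0) * leviForm ψ z X ≤
        deriv κ (ψ z) * leviForm ψ z X := mul_le_mul_of_nonneg_right h6 hL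
    have h8 := hM₁z z hz X
    have h9 : max (M₂ (ψ z)) 0 * ‖X‖ ^ 2 ≤
        max (M₂ (ψ z)) 0 * (M₁ (ψ z) * leviForm ψ z X) :=
      mul_le_mul_of_nonneg_left h8 (le_max_right _ _)
    have h10 : (∑ k, ‖dr σ z k‖ ^ 2 + Real.exp (σ z)) * ‖X‖ ^ 2 ≤
        max (M₂ (ψ z)) 0 * ‖X‖ ^ 2 :=
      mul_le_mul_of_nonneg_right ((hM₂z z hz).trans (le_max_left _ _)) (sq_nonneg _)
    have h11 : leviForm φ z X = leviForm (fun w => κ (ψ w)) z X := rfl
    rw [h11, h4]
    nlinarith [h5, h7, h9, h10]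
  · -- compact support
    intro i
    exact (hΩ.cpt _).of_isClosed_subset (isClosed_tsupport _) (H6c_eta_sub hΩ i)
  · intro i z hz
    exact (H6c_eta_sub hΩ i hz).1
  · intro i z
    by_cases hz : z ∈ Ω
    · rw [H6c_eta_of hz]
      exact Real.smoothTransition.nonneg _
    · rw [H6c_eta_not hz]
  · intro i z
    by_cases hz : z ∈ Ω
    · rw [H6c_eta_of hz]
      exact Real.smoothTransition.le_one _
    · rw [H6c_eta_not hz]
      exact zero_le_one
  · -- the gradients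
    intro i z hz
    refine le_trans ?_ (hσe z hz)
    rw [Finset.mul_sum]
    refine Finset.sum_le_sum fun k _ => ?_
    rw [H6c_eta_dr hΩ i hz k, norm_mul, norm_neg, Complex.norm_real, mul_pow, Real.norm_eq_abs,
      sq_abs]
    exact mul_le_mul_of_nonneg_right (hbd _) (sq_nonneg _)
  · -- the cut-off functions are eventually one
    intro z hz
    obtain ⟨N, hN⟩ := exists_nat_gt (ψ z)
    filter_upwards [eventually_ge_atTop N] with i hi
    have hi' : ψ z < i := hN.trans_le (by exact_mod_cast hi)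
    refine ⟨?_, fun k => ?_⟩
    · rw [H6c_eta_of hz]
      exact Real.smoothTransition.one_of_one_le (by linarith)
    · rw [H6c_eta_dr hΩ i hz k]
      have he : Real.smoothTransition =ᶠ[𝓝 ((i : ℝ) + 1 - ψ z)] fun _ => (1 : ℝ) := by
        filter_upwards [eventually_gt_nhds (show (1 : ℝ) < (i : ℝ) + 1 - ψ z by linarith)]
          with y hy
        exact Real.smoothTransition.one_of_one_le hy.le
      rw [he.deriv_eq]
      simp
  · -- integrability
    have hfin : (Module.finrank ℝ (Ec n) : ℝ) < 2 * ((n : ℝ) + 1) := by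
      have h1 : Module.finrank ℝ (Ec n) = 2 * n := by
        rw [finrank_real_of_complex, finrank_euclideanSpace_fin]
      rw [h1]
      push_cast
      linarith
    have hI : IntegrableOn (fun z : Ec n => (1 + ‖z‖ ^ 2) ^ (-(2 * ((n : ℝ) + 1)) / 2)) Ω :=
      (integrable_rpow_neg_one_add_norm_sq hfin).integrableOn
    refine hI.mono' ?_ ?_
    · refine ContinuousOn.aestronglyMeasurable ?_ hΩ.opn.measurableSet
      exact hα2.mul ((hσs.continuousOn.sub hφs.continuousOn).rexp)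
    · refine (ae_restrict_iff' hΩ.opn.measurableSet).2 (Eventually.of_forall fun z hz => ?_)
      have h1 : 0 ≤ (∑ j, ‖α j z‖ ^ 2) * Real.exp (σ z - φ z) :=
        mul_nonneg (hαn z) (Real.exp_pos _).le
      rw [Real.norm_of_nonneg h1]
      have h2 : σ z + Real.log (1 + ∑ j, ‖α j z‖ ^ 2) +
          ((n : ℝ) + 1) * Real.log (1 + ‖z‖ ^ 2) ≤ φ z :=
        (hM₃z z hz).trans ((hMb _).trans (hκ2 _ (ht₀ z hz)))
      have h3 := H6c_exp (hαn z) (sq_nonneg ‖z‖) h2
      have h4 : -(2 * ((n : ℝ) + 1)) / 2 = -((n : ℝ) + 1) := by ring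
      rw [h4]
      exact h3

end Pool.Agent.MPca0fc2.LV
end
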