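import Mathlib
import Pool.Agent.Lib.MP_ca0fc2_an.Mg.G055
import Pool.Agent.Lib.MP_ca0fc2_an.Mg.G056

section

set_option autoImplicit false

open Metric Set MeasureTheory Filter Topology
open scoped InnerProductSpace ENNReal

namespace Pool.Agent.MPca0fc2.QT

open Pool.Agent.MPca0fc2.PT

variable {E : Type*} [NormedAddCommGroup E] [InnerProductSpace ℂ E]
variable {V : Type*} [NormedAddCommGroup V] [NormedSpace ℂ V]
variable {Y : Type*} [NormedAddCommGroup Y] [NormedSpace ℂ Y]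

/-- the composition of two products, as a bilinear map -/
noncomputable def kos_GG (K : Car Y V) {q : ℕ} (L M : E →L[ℝ] Y) (P : E [⋀^Fin q]→L[ℝ] V) :
    E →L[ℝ] E →L[ℝ] E [⋀^Fin q]→L[ℝ] V :=
  ((ContinuousLinearMap.compL ℝ E (E [⋀^Fin q]→L[ℝ] V) (E [⋀^Fin q]→L[ℝ] V)).flip
    (((opc E V q).flip P).comp ((K.a.restrictScalars ℝ).comp M))).comp
    ((opc E V q).comp ((K.a.restrictScalars ℝ).comp L))

theorem kos_GG_apply (K : Car Y V) {q : ℕ} (L M : E →L[ℝ] Y) (P : E [⋀^Fin q]→L[ℝ] V) (u v : E)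
    (x : Fin q → E) : kos_GG K L M P u v x = K.a (L u) (K.a (M v) (P x)) := by
  simp [kos_GG, opc_apply]

theorem kos_opc_alt {q : ℕ} (A : V →L[ℂ] V) (f : E →L[ℝ] E [⋀^Fin q]→L[ℝ] V) :
    opc E V (q + 1) A (ContinuousAlternatingMap.alternatizeUncurryFin f) =
      ContinuousAlternatingMap.alternatizeUncurryFin ((opc E V q A).comp f) := by
  ext v
  rw [opc_apply, ContinuousAlternatingMap.alternatizeUncurryFin_apply,
    ContinuousAlternatingMap.alternatizeUncurryFin_apply, map_sum]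
  refine Finset.sum_congr rfl fun i _ => ?_
  rw [ContinuousLinearMap.comp_apply, opc_apply, map_zsmul]

theorem kos_wd_wd (K : Car Y V) {q : ℕ} (L M : E →L[ℝ] Y) (P : E [⋀^Fin q]→L[ℝ] V) :
    wd K L (wd K M P) = ContinuousAlternatingMap.alternatizeUncurryFin
      ((ContinuousAlternatingMap.alternatizeUncurryFinCLM ℝ E V).comp (kos_GG K L M P)) := by
  rw [wd]
  congr 1
  ext1 u
  show opc E V (q + 1) (K.a (L u)) (wd K M P) = _
  rw [wd, kos_opc_alt]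
  rfl

theorem wd_comm (K : Car Y V) {q : ℕ} (L M : E →L[ℝ] Y) (P : E [⋀^Fin q]→L[ℝ] V) :
    wd K L (wd K M P) = wd K M (wd K L P) := by
  rw [← sub_eq_zero, kos_wd_wd, kos_wd_wd]
  have h1 : ∀ x y, (kos_GG K L M P - kos_GG K M L P) x y = (kos_GG K L M P - kos_GG K M L P) y x := by
    intro x y
    ext v
    show kos_GG K L M P x y v - kos_GG K M L P x y v = kos_GG K L M P y x v - kos_GG K M L P y x v
    rw [kos_GG_apply, kos_GG_apply, kos_GG_apply, kos_GG_apply, K.aa (M x) (L y), K.aa (M y) (L x)]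
    abel
  have h := ContinuousAlternatingMap.alternatizeUncurryFin_alternatizeUncurryFinCLM_comp_of_symmetric h1
  rw [ContinuousLinearMap.comp_sub] at h
  rw [← ContinuousAlternatingMap.alternatizeUncurryFinCLM_apply, map_sub] at h
  exact h

theorem opa_wd (K : Car Y V) {q : ℕ} (s : Y) (L : E →L[ℝ] Y) (P : E [⋀^Fin q]→L[ℝ] V) :
    opc E V (q + 1) (K.a s) (wd K L P) = -wd K L (opc E V q (K.a s) P) := by
  ext v
  rw [opc_apply, wd_apply, ContinuousAlternatingMap.neg_apply, wd_apply, map_sum,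
    ← Finset.sum_neg_distrib]
  refine Finset.sum_congr rfl fun i _ => ?_
  rw [map_zsmul, opc_apply, K.aa, smul_neg]

theorem opc_wd (K : Car Y V) {q : ℕ} {F : Y →L[ℂ] ℂ} {L : E →L[ℝ] Y} (hF : ∀ v, F (L v) = 0)
    (P : E [⋀^Fin q]→L[ℝ] V) :
    opc E V (q + 1) (K.c F) (wd K L P) = -wd K L (opc E V q (K.c F) P) := by
  ext v
  rw [opc_apply, wd_apply, ContinuousAlternatingMap.neg_apply, wd_apply, map_sum,
    ← Finset.sum_neg_distrib]
  refine Finset.sum_congr rfl fun i _ => ?_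
  have h := K.ca F (L (v i)) (P (i.removeNth v))
  rw [hF, zero_smul] at h
  rw [map_zsmul, opc_apply, eq_neg_of_add_eq_zero_left h, smul_neg]

theorem opcc_self (K : Car Y V) {q : ℕ} (F : Y →L[ℂ] ℂ) (P : E [⋀^Fin q]→L[ℝ] V) :
    opc E V q (K.c F) (opc E V q (K.c F) P) = 0 := by
  ext v
  rw [opc_apply, opc_apply]
  show _ = (0 : V)
  have h := K.cc F F (P v)
  have h2 : (2 : ℂ) • K.c F (K.c F (P v)) = 0 := by
    rw [two_smul]
    nth_rewrite 1 [h]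
    rw [neg_add_cancel]
  exact (smul_eq_zero.1 h2).resolve_left two_ne_zero

theorem opca (K : Car Y V) {q : ℕ} (F : Y →L[ℂ] ℂ) (s : Y) (P : E [⋀^Fin q]→L[ℝ] V) :
    opc E V q (K.c F) (opc E V q (K.a s) P) + opc E V q (K.a s) (opc E V q (K.c F) P) =
      F s • P := by
  ext v
  rw [ContinuousAlternatingMap.add_apply, opc_apply, opc_apply, opc_apply, opc_apply, K.ca,
    ContinuousAlternatingMap.smul_apply]

theorem kos_wd_zero (K : Car Y V) {q : ℕ} (L : E →L[ℝ] Y) :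
    wd K L (0 : E [⋀^Fin q]→L[ℝ] V) = 0 := by
  ext v
  rw [wd_apply]
  show _ = (0 : V)
  refine Finset.sum_eq_zero fun i _ => ?_
  show (-1) ^ (i : ℕ) • K.a (L (v i)) (0 : V) = 0
  rw [map_zero, smul_zero]

theorem kos_wd_add (K : Car Y V) {q : ℕ} (L : E →L[ℝ] Y) (P Q : E [⋀^Fin q]→L[ℝ] V) :
    wd K L (P + Q) = wd K L P + wd K L Q := by
  ext v
  rw [ContinuousAlternatingMap.add_apply, wd_apply, wd_apply, wd_apply,
    ← Finset.sum_add_distrib]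
  refine Finset.sum_congr rfl fun i _ => ?_
  rw [ContinuousAlternatingMap.add_apply, map_add, smul_add]

theorem c_Pw (K : Car Y V) {F : Y →L[ℂ] ℂ} {L : E →L[ℝ] Y} (hF : ∀ v, F (L v) = 0) (r : ℕ) :
    opc E V r (K.c F) (Pw K L r) = 0 := by
  induction r with
  | zero =>
    ext v
    rw [opc_apply]
    show K.c F K.Ω = 0
    exact K.cΩ F
  | succ r ih =>
    rw [Pw, opc_wd K hF, ih, kos_wd_zero, neg_zero]

theorem c_SP (K : Car Y V) {F : Y →L[ℂ] ℂ} {L L' : E →L[ℝ] Y} (hF : ∀ v, F (L v) = 0)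
    (hF' : ∀ v, F (L' v) = 0) (r : ℕ) : opc E V r (K.c F) (SP K L L' r) = 0 := by
  induction r with
  | zero =>
    ext v
    rw [opc_apply]
    show K.c F K.Ω = 0
    exact K.cΩ F
  | succ r ih =>
    rw [SP, map_add, opc_wd K hF, ih, kos_wd_zero, neg_zero, c_Pw K hF', add_zero]

theorem Pw_zero (K : Car Y V) (r : ℕ) : Pw K (0 : E →L[ℝ] Y) (r + 1) = 0 := by
  rw [Pw]
  ext v
  rw [wd_apply]
  show _ = (0 : V)
  refine Finset.sum_eq_zero fun i _ => ?_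
  rw [zero_apply, map_zero, zero_apply, smul_zero]

theorem SP_succ' (K : Car Y V) (L L' : E →L[ℝ] Y) (r : ℕ) :
    SP K L L' (r + 1) = wd K L' (SP K L L' r) + Pw K L (r + 1) := by
  induction r with
  | zero =>
    exact add_comm (wd K L (cst E K.Ω)) (wd K L' (cst E K.Ω))
  | succ r ih =>
    have h1 : SP K L L' (r + 1 + 1) = wd K L (SP K L L' (r + 1)) + Pw K L' (r + 1 + 1) := rfl
    have h2 : SP K L L' (r + 1) = wd K L (SP K L L' r) + Pw K L' (r + 1) := rfl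
    have h3 : Pw K L (r + 1 + 1) = wd K L (Pw K L (r + 1)) := rfl
    have h4 : Pw K L' (r + 1 + 1) = wd K L' (Pw K L' (r + 1)) := rfl
    rw [h1, h4, h3, ih, kos_wd_add, wd_comm K L L', ← ih, h2, kos_wd_add]
    abel

end Pool.Agent.MPca0fc2.QT
end

section

set_option autoImplicit false

open Metric Set MeasureTheory Filter Topology
open scoped InnerProductSpace ENNReal

namespace Pool.Agent.MPca0fc2.QT

open Pool.Agent.MPca0fc2.PT

variable {E : Type*} [NormedAddCommGroup E] [InnerProductSpace ℂ E]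

/-- outer radii -/
noncomputable def RL (θ : ℝ) (k : ℕ) : ℝ := 1 + 5 * θ ^ (k + 1) / 8

section meas

variable [MeasurableSpace E]

/-- the parameters, in a space of dimension `m + 1` -/
structure ParQ (E : Type*) [NormedAddCommGroup E] [InnerProductSpace ℂ E] [MeasurableSpace E]
    (m : ℕ) (θ ϑ : ℝ) (P : ℕ) (c ρ C₀ p M A : ℝ) : Prop where
  h0 : 0 < ϑ
  h1 : ϑ < 1
  hP : θ = ϑ ^ P
  hPm : 12 * (m + 1) + 18 ≤ P
  hC₀ : 0 < C₀
  hp : 1 ≤ p
  hc : 0 < c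
  hc1 : c ≤ 1
  hρ : 0 < ρ
  hρM : ρ ≤ M
  hM : 1 ≤ M
  small : 2000 * M / θ * (1 - θ) ≤ ρ / 2
  close : ∀ (ν : Measure E) (u : E → ℂ), HU ν u M A p C₀ → ∀ (k : ℕ) (w : E),
    ‖w‖ < RC θ (k - 1) → ‖uk u θ k w - vq ν u θ ϑ c k w‖ ≤ ρ / 2

/-- the data of the exponent -/
noncomputable def NQ (ν : Measure E) (u : E → ℂ) (θ ϑ c ρ : ℝ) (k : ℕ) (w : E) : ℂ :=
  (starRingEnd ℂ) (bq ν u θ ϑ c ρ k w) * (uk u θ (k + 1) w - uk u θ k w)

/-- the exponent -/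
noncomputable def LQ (μ : Measure E) (m : ℕ) (ν : Measure E) (u : E → ℂ) (θ ϑ c ρ : ℝ) (k : ℕ) :
    E → ℂ := PR μ m (RL θ k) (NQ ν u θ ϑ c ρ k)

/-- the factor -/
noncomputable def XQ (μ : Measure E) (m : ℕ) (ν : Measure E) {d : ℕ} (u : Fin d → E → ℂ)
    (θ ϑ c ρ κ : ℝ) (k : ℕ) (w : E) : ℂ :=
  Complex.exp (((2 / ρ : ℝ) : ℂ) * ∑ j, LQ μ m ν (u j) θ ϑ c ρ k w -
    κ * (DD ν ((rt θ (k + 1) : ℂ) • w) - DD ν ((rt θ k : ℂ) • w)))

/-- the bases -/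
noncomputable def bv (ν : Measure E) {d : ℕ} (u : Fin d → E → ℂ) (θ ϑ c ρ : ℝ) (k : ℕ) :
    Fin d → E → ℂ := fun j => bq ν (u j) θ ϑ c ρ k

/-- dilated local solutions -/
noncomputable def sl {ι : Type} {N : ℕ} (s : ι → E → Fin N → ℂ) (θ : ℝ) (l : ℕ) :
    ι → E → Fin N → ℂ := fun i w => s i ((rt θ l : ℂ) • w)

/-- the smooth solution with the base of level `k` and the data of level `l` -/
noncomputable def sk {ι : Type} [Fintype ι] {d N : ℕ} (χ : ι → (Fin d → ℂ) → ℝ)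
    (ν : Measure E) (u : Fin d → E → ℂ) (θ ϑ c ρ : ℝ) (s : ι → E → Fin N → ℂ) (k l : ℕ) :
    E → Fin N → ℂ := sg χ (bv ν u θ ϑ c ρ k) (sl s θ l)

/-- the data as a functional -/
noncomputable def FF {N : ℕ} (f : Fin N → E → ℂ) (θ : ℝ) (k : ℕ) (w : E) : (Fin N → ℂ) →L[ℂ] ℂ :=
  ∑ j, uk (f j) θ k w • (ContinuousLinearMap.proj j : (Fin N → ℂ) →L[ℂ] ℂ)

/-- the hypotheses -/
structure Dat {ι : Type} [Fintype ι] {d N : ℕ} (ν : Measure E) (f : Fin N → E → ℂ)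
    (u : Fin d → E → ℂ) (s : ι → E → Fin N → ℂ) (cc : ι → Fin d → ℂ)
    (χ : ι → (Fin d → ℂ) → ℝ) (M A p C₀ ρ₀ C₁ L : ℝ) : Prop where
  hC₁ : 0 ≤ C₁
  hρ₀ : 0 < ρ₀
  carl : Carl ν A
  hu : ∀ j, HU ν (u j) M A p C₀
  hf : ∀ j, DifferentiableOn ℂ (f j) (ball 0 1)
  hfM : ∀ j, ∀ z ∈ ball (0 : E) 1, ‖f j z‖ ≤ M
  hs : ∀ i, DifferentiableOn ℂ (s i) {z | z ∈ ball (0 : E) 1 ∧ ∀ j, ‖u j z - cc i j‖ < ρ₀}
  hsb : ∀ i, ∀ z ∈ ball (0 : E) 1, (∀ j, ‖u j z - cc i j‖ < ρ₀) → ‖s i z‖ ≤ C₁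
  hsf : ∀ i, ∀ z ∈ ball (0 : E) 1, (∀ j, ‖u j z - cc i j‖ < ρ₀) → ∑ l, f l z * s i z l = 1
  hχ : PU' cc χ (ρ₀ / 8) L
  hsum : ∀ z : Fin d → ℂ, ‖z‖ ≤ 5 * M → ∑ i, χ i z = 1

end meas

end Pool.Agent.MPca0fc2.QT
end
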