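import Pool.Agent.Lib.MP_ca0fc2_an.Mg.G075
import Pool.Agent.Lib.MP_ca0fc2_an.TB.Defs

section

/-! The domain in terms of the corrected peak function. -/

set_option autoImplicit false

open Metric Set Filter Topology

namespace Pool.Agent.MPca0fc2.TB

variable {n : ℕ} {D : Set (En n)} {p : En n} {w : En n → ℂ} {B : En n →L[ℝ] En n →L[ℝ] ℝ}
  {V : Set (En n)} {r c : ℝ}

private theorem C2_taylor (h : TP D p w B V r c) :
    ∃ K > 0, ∃ s > 0, ∀ z, ‖z - p‖ < s →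
      ‖w z - fderiv ℂ w p (z - p)‖ ≤ K * ‖z - p‖ ^ 2 := by
  have hpV : p ∈ V := h.bV (mem_ball_self h.r0)
  have hVn : V ∈ 𝓝 p := h.opn.mem_nhds hpV
  have hc2 : ContDiffAt ℝ 2 w p := h.cw.contDiffAt hVn
  have hc1 : ContDiffAt ℝ 1 (fderiv ℝ w) p := hc2.fderiv_right (by norm_num)
  obtain ⟨K, t, ht, hK⟩ := hc1.exists_lipschitzOnWith
  obtain ⟨s, hs, hst⟩ := Metric.mem_nhds_iff.1 (Filter.inter_mem ht hVn)
  refine ⟨K + 1, by positivity, s, hs, fun z hz => ?_⟩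
  have hres : fderiv ℝ w p = (fderiv ℂ w p).restrictScalars ℝ :=
    ((h.hol.differentiableAt hVn).hasFDerivAt.restrictScalars ℝ).fderiv
  have hsub : closedBall p ‖z - p‖ ⊆ ball p s := closedBall_subset_ball hz
  have key := Convex.norm_image_sub_le_of_norm_fderiv_le' (𝕜 := ℝ) (f := w)
    (φ := fderiv ℝ w p) (C := K * ‖z - p‖) (s := closedBall p ‖z - p‖) (x := p) (y := z)
    (fun x hx => ?_) (fun x hx => ?_) (convex_closedBall _ _)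
    (mem_closedBall_self (norm_nonneg _)) (by simp [dist_eq_norm])
  · rw [h.w0, sub_zero, hres] at key
    have h1 : ‖w z - fderiv ℂ w p (z - p)‖ ≤ K * ‖z - p‖ * ‖z - p‖ := key
    nlinarith [sq_nonneg ‖z - p‖]
  · have hxV : x ∈ V := (hst (hsub hx)).2
    exact (h.cw.contDiffAt (h.opn.mem_nhds hxV)).differentiableAt (by norm_num)
  · have h1 := hK.dist_le_mul x (hst (hsub hx)).1 p (hst (mem_ball_self hs)).1
    rw [dist_eq_norm, dist_eq_norm] at h1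
    have h2 : ‖x - p‖ ≤ ‖z - p‖ := by rw [← dist_eq_norm]; exact hx
    exact h1.trans (mul_le_mul_of_nonneg_left h2 K.2)

/-- Bounds near `p`.
PROOF. `w` is `C²` (real) near `p`, `w p = 0`, with the complex derivative `lam = fderiv ℂ w p` (its real restriction is the
real derivative): `‖w z - lam v‖ ≤ C ‖v‖²`, `‖w z‖ ≤ C ‖v‖` for `v = z - p` small (Taylor; the real derivative is
differentiable at `p`, hence Lipschitz near `p`; mean value inequality). `‖1 + m w‖ ≥ 1/2` if `m ‖w‖ ≤ 1/2`.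
`‖w - Wm‖ = ‖Eh‖ / ‖1 + m w‖ ≤ 2 K ‖v‖²`. `Eh - Eh / (1 + m w) = Eh m w / (1 + m w)` has the norm `≤ K ‖v‖² · m C ‖v‖ · 2`. -/
theorem wm_near (h : TP D p w B V r c) {m : ℝ} (hm : 0 < m) :
    ∃ C > 0, ∃ s > 0, ∀ z, ‖z - p‖ < s → ‖w z - fderiv ℂ w p (z - p)‖ ≤ C * ‖z - p‖ ^ 2 ∧
      ‖w z - Wm B w p m z‖ ≤ C * ‖z - p‖ ^ 2 ∧
      ‖Eh B (z - p) - Eh B (z - p) / (1 + (m : ℂ) * w z)‖ ≤ C * ‖z - p‖ ^ 3 := by
  obtain ⟨K₁, hK₁, s₁, hs₁, h1⟩ := C2_taylor h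
  obtain ⟨K₂, hK₂, h2⟩ := eh_bound (B := B)
  set L : ℝ := ‖fderiv ℂ w p‖ with hL
  have hL0 : 0 ≤ L := norm_nonneg _
  have hQ : 0 < L + K₁ + 1 := by positivity
  refine ⟨K₁ + 2 * K₂ + 2 * K₂ * m * (L + K₁ + 1), by positivity,
    min s₁ (min 1 (1 / (2 * m * (L + K₁ + 1)))), by positivity, fun z hz => ?_⟩
  have hz1 : ‖z - p‖ < s₁ := hz.trans_le (min_le_left _ _)
  have hz2 : ‖z - p‖ < 1 := hz.trans_le ((min_le_right _ _).trans (min_le_left _ _))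
  have hz3 : ‖z - p‖ < 1 / (2 * m * (L + K₁ + 1)) :=
    hz.trans_le ((min_le_right _ _).trans (min_le_right _ _))
  set v := ‖z - p‖ with hv
  have hv0 : 0 ≤ v := norm_nonneg _
  have a1 := h1 z hz1
  have a2 := (h2 (z - p)).1
  have hwn : ‖w z‖ ≤ (L + K₁ + 1) * v := by
    have b1 : ‖fderiv ℂ w p (z - p)‖ ≤ L * v := (fderiv ℂ w p).le_opNorm _
    have b2 : ‖w z‖ ≤ ‖w z - fderiv ℂ w p (z - p)‖ + ‖fderiv ℂ w p (z - p)‖ := by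
      have := norm_add_le (w z - fderiv ℂ w p (z - p)) (fderiv ℂ w p (z - p))
      simpa using this
    have b3 : K₁ * ‖z - p‖ ^ 2 ≤ K₁ * v := by
      apply mul_le_mul_of_nonneg_left _ hK₁.le
      rw [← hv]
      nlinarith
    nlinarith
  have hmw : ‖(m : ℂ) * w z‖ ≤ m * ((L + K₁ + 1) * v) := by
    rw [norm_mul, Complex.norm_real, Real.norm_of_nonneg hm.le]
    exact mul_le_mul_of_nonneg_left hwn hm.le
  have hhalf : m * ((L + K₁ + 1) * v) ≤ 1 / 2 := by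
    rw [lt_div_iff₀ (by positivity)] at hz3
    nlinarith
  have hden : 1 / 2 ≤ ‖1 + (m : ℂ) * w z‖ := by
    have : ‖(1 : ℂ)‖ ≤ ‖1 + (m : ℂ) * w z‖ + ‖(m : ℂ) * w z‖ := by
      have := norm_sub_le (1 + (m : ℂ) * w z) ((m : ℂ) * w z)
      simpa using this
    rw [norm_one] at this
    linarith
  have hne : (1 + (m : ℂ) * w z) ≠ 0 := by
    intro h0
    rw [h0, norm_zero] at hden
    norm_num at hden
  have hdp : 0 < ‖1 + (m : ℂ) * w z‖ := lt_of_lt_of_le (by norm_num) hden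
  refine ⟨a1.trans ?_, ?_, ?_⟩
  · apply mul_le_mul_of_nonneg_right _ (by positivity)
    have : 0 ≤ 2 * K₂ * m * (L + K₁ + 1) := by positivity
    linarith
  · have e1 : w z - Wm B w p m z = Eh B (z - p) / (1 + (m : ℂ) * w z) := by
      unfold Wm; ring
    rw [e1, norm_div, div_le_iff₀ hdp]
    have c1 : K₂ * v ^ 2 ≤ (2 * K₂ * v ^ 2) * ‖1 + (m : ℂ) * w z‖ := by
      have : 0 ≤ 2 * K₂ * v ^ 2 := by positivity
      nlinarith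
    refine a2.trans (c1.trans ?_)
    apply mul_le_mul_of_nonneg_right _ hdp.le
    apply mul_le_mul_of_nonneg_right _ (by positivity)
    have : 0 ≤ 2 * K₂ * m * (L + K₁ + 1) := by positivity
    linarith
  · have e1 : Eh B (z - p) - Eh B (z - p) / (1 + (m : ℂ) * w z) =
        Eh B (z - p) * ((m : ℂ) * w z) / (1 + (m : ℂ) * w z) := by
      field_simp
      ring
    rw [e1, norm_div, norm_mul, div_le_iff₀ hdp]
    have c0 : ‖Eh B (z - p)‖ * ‖(m : ℂ) * w z‖ ≤ (K₂ * v ^ 2) * (m * ((L + K₁ + 1) * v)) :=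
      mul_le_mul a2 hmw (norm_nonneg _) (by positivity)
    have c1 : (K₂ * v ^ 2) * (m * ((L + K₁ + 1) * v)) ≤
        (2 * K₂ * m * (L + K₁ + 1) * v ^ 3) * ‖1 + (m : ℂ) * w z‖ := by
      have : 0 ≤ 2 * K₂ * m * (L + K₁ + 1) * v ^ 3 := by positivity
      nlinarith
    refine c0.trans (c1.trans ?_)
    apply mul_le_mul_of_nonneg_right _ hdp.le
    apply mul_le_mul_of_nonneg_right _ (by positivity)
    linarith

/-- PROOF. `v = z - p`, `W = Wm B w p m z`. `‖S v‖² ≤ Lh + C ‖lam v‖ ‖v‖`, `lam = fderiv ℂ w p`; `‖lam v‖ ≤ ‖W‖ + C' ‖v‖²` (`wm_near`). `loc1` with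
`ε/2`: `Re w ≥ Lh + Re Eh - (ε/2) ‖v‖²`; `Re W = Re w - Re (Eh χ) ≥ Lh + Re (Eh (1 - χ)) - (ε/2) ‖v‖² ≥ Lh - C' ‖v‖³ - (ε/2) ‖v‖²`. Together
`‖S v‖² ≤ Re W + (ε/2) ‖v‖² + C' ‖v‖³ + C (‖W‖ + C' ‖v‖²) ‖v‖`; for `‖v‖` small `C' ‖v‖³ + C C' ‖v‖³ ≤ (ε/2) ‖v‖²`. -/
theorem wm_up (h : TP D p w B V r c) {m : ℝ} (hm : 0 < m) {S : En n →L[ℂ] En n} {C : ℝ}
    (hC : 0 < C) (hS : ∀ v, |‖S v‖ ^ 2 - Lh B v| ≤ C * (‖fderiv ℂ w p v‖ * ‖v‖)) :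
    ∀ ε > 0, ∃ s > 0, ∀ z ∈ closure D, ‖z - p‖ < s →
      ‖S (z - p)‖ ^ 2 ≤ (Wm B w p m z).re + ε * ‖z - p‖ ^ 2 +
        C * (‖Wm B w p m z‖ * ‖z - p‖) := by
  intro ε hε
  obtain ⟨K, hK, s₀, hs₀, hn⟩ := wm_near h hm
  obtain ⟨s₁, hs₁, hl⟩ := h.loc1 (ε / 2) (by positivity)
  refine ⟨min s₀ (min s₁ (ε / 2 / (K + C * (2 * K)))), by positivity, fun z hzD hz => ?_⟩
  have hz0 : ‖z - p‖ < s₀ := hz.trans_le (min_le_left _ _)
  have hz1 : ‖z - p‖ < s₁ := hz.trans_le ((min_le_right _ _).trans (min_le_left _ _))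
  have hz2 : ‖z - p‖ < ε / 2 / (K + C * (2 * K)) :=
    hz.trans_le ((min_le_right _ _).trans (min_le_right _ _))
  rw [lt_div_iff₀ (by positivity)] at hz2
  obtain ⟨n1, n2, n3⟩ := hn z hz0
  have l1 := hl z hzD hz1
  have hSv := (abs_le.1 (hS (z - p))).2
  rw [B_eq] at l1
  have hlam : ‖fderiv ℂ w p (z - p)‖ ≤ ‖Wm B w p m z‖ + 2 * K * ‖z - p‖ ^ 2 := by
    have : fderiv ℂ w p (z - p) = Wm B w p m z + (w z - Wm B w p m z) -
        (w z - fderiv ℂ w p (z - p)) := by ring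
    calc ‖fderiv ℂ w p (z - p)‖ = ‖Wm B w p m z + (w z - Wm B w p m z) -
        (w z - fderiv ℂ w p (z - p))‖ := by rw [← this]
      _ ≤ ‖Wm B w p m z + (w z - Wm B w p m z)‖ + ‖w z - fderiv ℂ w p (z - p)‖ :=
        norm_sub_le _ _
      _ ≤ ‖Wm B w p m z‖ + ‖w z - Wm B w p m z‖ + ‖w z - fderiv ℂ w p (z - p)‖ := by
        gcongr; exact norm_add_le _ _
      _ ≤ _ := by linarith
  have hre : (w z).re = (Wm B w p m z).re + (Eh B (z - p)).re -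
      (Eh B (z - p) - Eh B (z - p) / (1 + (m : ℂ) * w z)).re := by
    have : w z = Wm B w p m z + Eh B (z - p) -
      (Eh B (z - p) - Eh B (z - p) / (1 + (m : ℂ) * w z)) := by unfold Wm; ring
    conv_lhs => rw [this]
    rw [Complex.sub_re, Complex.add_re]
  have hre2 := (abs_le.1 (Complex.abs_re_le_norm
    (Eh B (z - p) - Eh B (z - p) / (1 + (m : ℂ) * w z)))).1
  have hv0 : 0 ≤ ‖z - p‖ := norm_nonneg _
  have hCl : C * (‖fderiv ℂ w p (z - p)‖ * ‖z - p‖) ≤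
      C * ((‖Wm B w p m z‖ + 2 * K * ‖z - p‖ ^ 2) * ‖z - p‖) := by
    gcongr
  have hsmall : (K + C * (2 * K)) * ‖z - p‖ ^ 3 ≤ ε / 2 * ‖z - p‖ ^ 2 := by
    have : ‖z - p‖ * (K + C * (2 * K)) * ‖z - p‖ ^ 2 ≤ ε / 2 * ‖z - p‖ ^ 2 := by
      gcongr
    calc _ = ‖z - p‖ * (K + C * (2 * K)) * ‖z - p‖ ^ 2 := by ring
      _ ≤ _ := this
  have e3 : C * ((‖Wm B w p m z‖ + 2 * K * ‖z - p‖ ^ 2) * ‖z - p‖) =
      C * (‖Wm B w p m z‖ * ‖z - p‖) + C * (2 * K) * ‖z - p‖ ^ 3 := by ring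
  have e4 : (K + C * (2 * K)) * ‖z - p‖ ^ 3 = K * ‖z - p‖ ^ 3 + C * (2 * K) * ‖z - p‖ ^ 3 := by
    ring
  linarith

/-- PROOF. As `wm_up`, in the other direction: `Lh ≤ ‖S v‖² + C ‖lam v‖ ‖v‖ ≤ ‖S v‖² + C (‖W‖ + C' ‖v‖²) ‖v‖`, and
`B v v + (ε/2) ‖v‖² = Lh + Re Eh + (ε/2) ‖v‖²`, `Re w = Re W + Re (Eh χ) = Re W + Re Eh - Re (Eh (1 - χ)) ≥ Re W + Re Eh - C' ‖v‖³`;
so `B v v + (ε/2) ‖v‖² < Re w` and `loc2` with `ε/2` gives `z ∈ D`. -/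
theorem wm_low (h : TP D p w B V r c) {m : ℝ} (hm : 0 < m) {S : En n →L[ℂ] En n} {C : ℝ}
    (hC : 0 < C) (hS : ∀ v, |‖S v‖ ^ 2 - Lh B v| ≤ C * (‖fderiv ℂ w p v‖ * ‖v‖)) :
    ∀ ε > 0, ∃ s > 0, ∀ z, ‖z - p‖ < s →
      ‖S (z - p)‖ ^ 2 + ε * ‖z - p‖ ^ 2 + C * (‖Wm B w p m z‖ * ‖z - p‖) < (Wm B w p m z).re →
      z ∈ D := by
  intro ε hε
  obtain ⟨K, hK, s₀, hs₀, hn⟩ := wm_near h hm
  obtain ⟨s₁, hs₁, hl⟩ := h.loc2 (ε / 2) (by positivity)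
  refine ⟨min s₀ (min s₁ (ε / 2 / (K + C * (2 * K)))), by positivity, fun z hz hlt => ?_⟩
  have hz0 : ‖z - p‖ < s₀ := hz.trans_le (min_le_left _ _)
  have hz1 : ‖z - p‖ < s₁ := hz.trans_le ((min_le_right _ _).trans (min_le_left _ _))
  have hz2 : ‖z - p‖ < ε / 2 / (K + C * (2 * K)) :=
    hz.trans_le ((min_le_right _ _).trans (min_le_right _ _))
  rw [lt_div_iff₀ (by positivity)] at hz2
  obtain ⟨n1, n2, n3⟩ := hn z hz0
  have hSv := (abs_le.1 (hS (z - p))).1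
  apply hl z hz1
  rw [B_eq]
  have hlam : ‖fderiv ℂ w p (z - p)‖ ≤ ‖Wm B w p m z‖ + 2 * K * ‖z - p‖ ^ 2 := by
    have : fderiv ℂ w p (z - p) = Wm B w p m z + (w z - Wm B w p m z) -
        (w z - fderiv ℂ w p (z - p)) := by ring
    calc ‖fderiv ℂ w p (z - p)‖ = ‖Wm B w p m z + (w z - Wm B w p m z) -
        (w z - fderiv ℂ w p (z - p))‖ := by rw [← this]
      _ ≤ ‖Wm B w p m z + (w z - Wm B w p m z)‖ + ‖w z - fderiv ℂ w p (z - p)‖ :=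
        norm_sub_le _ _
      _ ≤ ‖Wm B w p m z‖ + ‖w z - Wm B w p m z‖ + ‖w z - fderiv ℂ w p (z - p)‖ := by
        gcongr; exact norm_add_le _ _
      _ ≤ _ := by linarith
  have hre : (w z).re = (Wm B w p m z).re + (Eh B (z - p)).re -
      (Eh B (z - p) - Eh B (z - p) / (1 + (m : ℂ) * w z)).re := by
    have : w z = Wm B w p m z + Eh B (z - p) -
      (Eh B (z - p) - Eh B (z - p) / (1 + (m : ℂ) * w z)) := by unfold Wm; ring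
    conv_lhs => rw [this]
    rw [Complex.sub_re, Complex.add_re]
  have hre2 := (abs_le.1 (Complex.abs_re_le_norm
    (Eh B (z - p) - Eh B (z - p) / (1 + (m : ℂ) * w z)))).2
  have hv0 : 0 ≤ ‖z - p‖ := norm_nonneg _
  have hCl : C * (‖fderiv ℂ w p (z - p)‖ * ‖z - p‖) ≤
      C * ((‖Wm B w p m z‖ + 2 * K * ‖z - p‖ ^ 2) * ‖z - p‖) := by
    gcongr
  have hsmall : (K + C * (2 * K)) * ‖z - p‖ ^ 3 ≤ ε / 2 * ‖z - p‖ ^ 2 := by
    have : ‖z - p‖ * (K + C * (2 * K)) * ‖z - p‖ ^ 2 ≤ ε / 2 * ‖z - p‖ ^ 2 := by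
      gcongr
    calc _ = ‖z - p‖ * (K + C * (2 * K)) * ‖z - p‖ ^ 2 := by ring
      _ ≤ _ := this
  have e3 : C * ((‖Wm B w p m z‖ + 2 * K * ‖z - p‖ ^ 2) * ‖z - p‖) =
      C * (‖Wm B w p m z‖ * ‖z - p‖) + C * (2 * K) * ‖z - p‖ ^ 3 := by ring
  have e4 : (K + C * (2 * K)) * ‖z - p‖ ^ 3 = K * ‖z - p‖ ^ 3 + C * (2 * K) * ‖z - p‖ ^ 3 := by
    ring
  linarith

end Pool.Agent.MPca0fc2.TB
end

section

/-! The Cayley transform. -/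

set_option autoImplicit false

open Metric Set Filter Topology

namespace Pool.Agent.MPca0fc2.TB

variable {n : ℕ} {e x : En n} {Y : ℂ}

private theorem D1_ne (hY : 0 ≤ Y.re) : 1 + Y ≠ 0 := by
  intro h
  have h1 := congrArg Complex.re h
  simp only [Complex.add_re, Complex.one_re, Complex.zero_re] at h1
  linarith

private theorem D1_pyth {u v : En n} (h : inner ℂ u v = 0) : ‖u + v‖ ^ 2 = ‖u‖ ^ 2 + ‖v‖ ^ 2 := by
  have h2 := norm_add_sq_eq_norm_sq_add_norm_sq_of_inner_eq_zero u v h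
  nlinarith [h2]

private theorem D1_sq (a : ℂ) : ‖1 - a‖ ^ 2 = ‖1 + a‖ ^ 2 - 4 * a.re := by
  rw [Complex.sq_norm, Complex.sq_norm, Complex.normSq_apply, Complex.normSq_apply]
  simp only [Complex.sub_re, Complex.one_re, Complex.sub_im, Complex.one_im, Complex.add_re,
    Complex.add_im]
  ring

/-- PROOF. Pythagoras: `‖a • e + b • x‖² = |a|² + |b|² ‖x‖²` as `⟪e, x⟫ = 0`, `‖e‖ = 1`; `|1 - Y|² = |1 + Y|² - 4 Re Y`;
`1 + Y ≠ 0` as its real part is `≥ 1`. -/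
theorem cay_norm (he : ‖e‖ = 1) (hx : inner ℂ e x = 0) (hY : 0 ≤ Y.re) :
    ‖cay e Y x‖ ^ 2 = 1 + 4 * (‖x‖ ^ 2 - Y.re) / ‖1 + Y‖ ^ 2 := by
  have h1 : inner ℂ (((1 - Y) / (1 + Y)) • e) ((2 / (1 + Y)) • x) = 0 := by
    rw [inner_smul_left, inner_smul_right, hx]
    simp
  have h3 : ‖1 + Y‖ ≠ 0 := norm_ne_zero_iff.2 (D1_ne hY)
  have h4 := D1_sq Y
  rw [cay, D1_pyth h1, norm_smul, norm_smul, he, norm_div, norm_div, Complex.norm_ofNat]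
  field_simp
  nlinarith [h4]

/-- PROOF. `(1 - Y) / (1 + Y) + 1 = 2 / (1 + Y)`. -/
theorem cay_far (he : ‖e‖ = 1) (hY : 0 ≤ Y.re) :
    ‖cay e Y x + e‖ ≤ 2 * (1 + ‖x‖) / ‖1 + Y‖ := by
  have h1 := D1_ne hY
  have h2 : cay e Y x + e = (2 / (1 + Y)) • (e + x) := by
    have h3 : (1 - Y) / (1 + Y) + 1 = 2 / (1 + Y) := by
      field_simp
      ring
    rw [smul_add, ← h3, add_smul, one_smul, h3, cay]
    abel
  have h4 : ‖e + x‖ ≤ 1 + ‖x‖ := by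
    refine (norm_add_le _ _).trans ?_
    rw [he]
  rw [h2, norm_smul, norm_div, Complex.norm_ofNat, div_mul_eq_mul_div]
  have h5 : 0 ≤ ‖1 + Y‖ := norm_nonneg _
  gcongr

/-- The inverse of the Cayley transform: `a = ⟪e, ζ⟫`, `Y = (1 - a) / (1 + a)`, `x = (1 / (1 + a)) (ζ - a e)`.
PROOF. `|a| ≤ ‖ζ‖ < 1`, so `1 + a ≠ 0`, `1 + Y = 2 / (1 + a)`, so `(1 - Y) / (1 + Y) = a`, `2 / (1 + Y) = 1 + a`. `Re Y = (1 - |a|²) / |1 + a|²`
and `‖x‖² = (‖ζ‖² - |a|²) / |1 + a|²`, so `Re Y - ‖x‖² = (1 - ‖ζ‖²) / |1 + a|² ≥ (1 - (1 - ε)²) / 4 ≥ ε / 4`. `|1 + a| ≥ ε`. -/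
theorem cay_inv (he : ‖e‖ = 1) {ε : ℝ} (hε : 0 < ε) (hε1 : ε < 1) {ζ : En n} (hζ : ‖ζ‖ < 1 - ε) :
    1 + inner ℂ e ζ ≠ 0 ∧
    (cay e ((1 - inner ℂ e ζ) / (1 + inner ℂ e ζ))
      ((1 / (1 + inner ℂ e ζ) : ℂ) • (ζ - (inner ℂ e ζ : ℂ) • e)) = ζ) ∧
    inner ℂ e ((1 / (1 + inner ℂ e ζ) : ℂ) • (ζ - (inner ℂ e ζ : ℂ) • e)) = 0 ∧
    ‖(1 / (1 + inner ℂ e ζ) : ℂ) • (ζ - (inner ℂ e ζ : ℂ) • e)‖ ≤ 1 / ε ∧
    ‖((1 - inner ℂ e ζ) / (1 + inner ℂ e ζ) : ℂ)‖ ≤ 2 / ε ∧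
    ‖(1 / (1 + inner ℂ e ζ) : ℂ) • (ζ - (inner ℂ e ζ : ℂ) • e)‖ ^ 2 + ε / 4 ≤
      ((1 - inner ℂ e ζ) / (1 + inner ℂ e ζ) : ℂ).re := by
  obtain ⟨a, ha⟩ : ∃ a : ℂ, a = inner ℂ e ζ := ⟨_, rfl⟩
  rw [← ha]
  have h1 : ‖a‖ ≤ ‖ζ‖ := by
    rw [ha]
    refine (norm_inner_le_norm e ζ).trans ?_
    rw [he, one_mul]
  have h2 : ε ≤ ‖1 + a‖ := by
    have h3 : ‖(1 : ℂ)‖ - ‖a‖ ≤ ‖1 + a‖ := by
      have := norm_sub_norm_le (1 : ℂ) (-a)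
      rwa [norm_neg, sub_neg_eq_add] at this
    rw [norm_one] at h3
    linarith
  have h3 : 0 < ‖1 + a‖ := lt_of_lt_of_le hε h2
  have h4 : 1 + a ≠ 0 := norm_pos_iff.1 h3
  have h5 : inner ℂ e e = (1 : ℂ) := by
    rw [inner_self_eq_norm_sq_to_K, he]
    simp
  have h6 : inner ℂ e (ζ - a • e) = 0 := by
    rw [inner_sub_right, inner_smul_right, h5, ← ha, mul_one, sub_self]
  have h7 : ‖ζ‖ ^ 2 = ‖a‖ ^ 2 + ‖ζ - a • e‖ ^ 2 := by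
    have h8 : inner ℂ (a • e) (ζ - a • e) = 0 := by
      rw [inner_smul_left, h6, mul_zero]
    have h9 := D1_pyth h8
    rw [add_sub_cancel, norm_smul, he, mul_one] at h9
    exact h9
  have hζ0 := norm_nonneg ζ
  have hb0 := norm_nonneg (ζ - a • e)
  have ha0 := norm_nonneg a
  have h8 : ‖ζ - a • e‖ ≤ 1 := by
    nlinarith
  have hY : (1 - (1 - a) / (1 + a)) / (1 + (1 - a) / (1 + a)) = a := by
    have h9 : 1 + (1 - a) / (1 + a) = 2 / (1 + a) := by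
      field_simp
      ring
    rw [h9]
    field_simp
    ring
  have hY2 : 2 / (1 + (1 - a) / (1 + a)) = 1 + a := by
    have h9 : 1 + (1 - a) / (1 + a) = 2 / (1 + a) := by
      field_simp
      ring
    rw [h9]
    field_simp
  have hre : ((1 - a) / (1 + a)).re = (1 - ‖a‖ ^ 2) / ‖1 + a‖ ^ 2 := by
    rw [Complex.div_re, Complex.sq_norm, Complex.sq_norm, Complex.normSq_apply a,
      ← add_div]
    congr 1
    simp only [Complex.sub_re, Complex.one_re, Complex.sub_im, Complex.one_im, Complex.add_re,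
      Complex.add_im]
    ring
  have hnx : ‖(1 / (1 + a) : ℂ) • (ζ - a • e)‖ = ‖ζ - a • e‖ / ‖1 + a‖ := by
    rw [norm_smul, norm_div, norm_one, one_div, inv_mul_eq_div]
  refine ⟨h4, ?_, ?_, ?_, ?_, ?_⟩
  · rw [cay, hY, hY2, smul_smul, mul_one_div_cancel h4, one_smul, add_sub_cancel]
  · rw [inner_smul_right, h6, mul_zero]
  · rw [hnx]
    gcongr
  · rw [norm_div]
    have h9 : ‖1 - a‖ ≤ 2 := by
      refine (norm_sub_le _ _).trans ?_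
      rw [norm_one]
      linarith
    gcongr
  · rw [hnx, hre, div_pow]
    have h9 : ‖1 + a‖ ^ 2 ≤ 4 := by
      have h10 : ‖1 + a‖ ≤ 2 := by
        refine (norm_add_le _ _).trans ?_
        rw [norm_one]
        linarith
      nlinarith
    have h10 : 0 < ‖1 + a‖ ^ 2 := by positivity
    rw [← sub_nonneg]
    have h11 : (1 - ‖a‖ ^ 2) / ‖1 + a‖ ^ 2 - (‖ζ - a • e‖ ^ 2 / ‖1 + a‖ ^ 2 + ε / 4) =
        (1 - ‖ζ‖ ^ 2 - ε / 4 * ‖1 + a‖ ^ 2) / ‖1 + a‖ ^ 2 := by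
      rw [h7]
      field_simp
      ring
    rw [h11]
    apply div_nonneg _ h10.le
    nlinarith

end Pool.Agent.MPca0fc2.TB
end

section

/-! The image of the domain is nearly contained in the ball. -/

set_option autoImplicit false

open Metric Set Filter Topology

namespace Pool.Agent.MPca0fc2.TB

variable {n : ℕ} {D : Set (En n)} {p : En n} {W : En n → ℂ} {S : En n →L[ℂ] En n} {e : En n}
  {κ C : ℝ}

/-- PROOF. `v = z - p`, `a = |W z|`, `κ ‖v‖² ≤ Re W ≤ a`. Let `ε' = ε κ / 4`. `h.up ε'` gives `s`: for `‖v‖ < s`, `‖S v‖² - Re W ≤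
ε' ‖v‖² + C a ‖v‖ ≤ (ε' / κ) a + C a ‖v‖`. Take `s₁ ≤ s` with `C s₁ ≤ ε/4`: for `‖v‖ < s₁` it is `≤ (ε/2) a`. Then
`r² (‖S v‖² - Re W) ≤ (ε/2) r² a ≤ ε (r⁴ + a²)`, and `‖r² + W‖² ≥ r⁴ + a²` (`Re W ≥ 0`). For `‖v‖ ≥ s₁`: `a ≥ κ s₁²`, `‖S v‖² - Re W ≤
‖S‖² C²`, so `r² ‖S‖² C² ≤ ε κ² s₁⁴ ≤ ε a²` for small `r`. Divide by `r⁴`: `‖1 + W / r²‖² = ‖r² + W‖² / r⁴`. -/
theorem up_bound (h : SG D p W S e κ C) {ε : ℝ} (hε : 0 < ε) :
    ∃ r₀ > 0, ∀ r : ℝ, 0 < r → r < r₀ → ∀ z ∈ closure D,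
      ‖(r : ℂ)⁻¹ • S (z - p)‖ ^ 2 - (W z / (r : ℂ) ^ 2).re ≤ ε * ‖1 + W z / (r : ℂ) ^ 2‖ ^ 2 := by
  have hκ := h.κ0
  have hC := h.C0
  obtain ⟨s, hs, hup⟩ := h.up (ε * κ / 4) (by positivity)
  obtain ⟨s₁, hs₁0, hs₁s, hs₁C⟩ : ∃ s₁ : ℝ, 0 < s₁ ∧ s₁ ≤ s ∧ C * s₁ ≤ ε / 4 := by
    refine ⟨min s (ε / (4 * C)), lt_min hs (by positivity), min_le_left _ _, ?_⟩
    have h1 : min s (ε / (4 * C)) ≤ ε / (4 * C) := min_le_right _ _
    calc C * min s (ε / (4 * C)) ≤ C * (ε / (4 * C)) := by gcongr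
      _ = ε / 4 := by field_simp
  have hM : 0 < ‖S‖ ^ 2 * C ^ 2 + 1 := by positivity
  refine ⟨min 1 (ε * κ ^ 2 * s₁ ^ 4 / (‖S‖ ^ 2 * C ^ 2 + 1)), lt_min one_pos (by positivity), ?_⟩
  intro r hr hr0 z hz
  have hr1 : r < 1 := lt_of_lt_of_le hr0 (min_le_left _ _)
  have hr2 : r < ε * κ ^ 2 * s₁ ^ 4 / (‖S‖ ^ 2 * C ^ 2 + 1) := lt_of_lt_of_le hr0 (min_le_right _ _)
  have hq : 0 < r ^ 2 := by positivity
  have hnorm : ‖(r : ℂ)⁻¹ • S (z - p)‖ ^ 2 = ‖S (z - p)‖ ^ 2 / r ^ 2 := by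
    rw [norm_smul, norm_inv, Complex.norm_real, Real.norm_of_nonneg hr.le, mul_pow, inv_pow]
    field_simp
  have hre : (W z / (r : ℂ) ^ 2).re = (W z).re / r ^ 2 := by
    rw [← Complex.ofReal_pow, Complex.div_ofReal_re]
  have him : (W z / (r : ℂ) ^ 2).im = (W z).im / r ^ 2 := by
    rw [← Complex.ofReal_pow, Complex.div_ofReal_im]
  have hsq : ‖1 + W z / (r : ℂ) ^ 2‖ ^ 2 =
      (1 + (W z).re / r ^ 2) ^ 2 + ((W z).im / r ^ 2) ^ 2 := by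
    rw [Complex.sq_norm, Complex.normSq_apply, Complex.add_re, Complex.add_im, hre, him,
      Complex.one_re, Complex.one_im]
    ring
  have hpos := h.pos z hz
  have hW0 : 0 ≤ (W z).re := le_trans (by positivity) hpos
  have hWa : (W z).re ≤ ‖W z‖ := Complex.re_le_norm _
  have hW2 : ‖W z‖ ^ 2 = (W z).re ^ 2 + (W z).im ^ 2 := by
    rw [Complex.sq_norm, Complex.normSq_apply]; ring
  have key : (‖S (z - p)‖ ^ 2 - (W z).re) * r ^ 2 ≤ ε * ((r ^ 2) ^ 2 + ‖W z‖ ^ 2) := by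
    by_cases hv : ‖z - p‖ < s₁
    · have h1 := hup z hz (lt_of_lt_of_le hv hs₁s)
      have h2 : ε * κ / 4 * ‖z - p‖ ^ 2 ≤ ε / 4 * ‖W z‖ := by
        calc ε * κ / 4 * ‖z - p‖ ^ 2 = ε / 4 * (κ * ‖z - p‖ ^ 2) := by ring
          _ ≤ ε / 4 * ‖W z‖ := by
            apply mul_le_mul_of_nonneg_left (hpos.trans hWa) (by positivity)
      have h3 : C * (‖W z‖ * ‖z - p‖) ≤ ε / 4 * ‖W z‖ := by
        calc C * (‖W z‖ * ‖z - p‖) = (C * ‖z - p‖) * ‖W z‖ := by ring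
          _ ≤ (C * s₁) * ‖W z‖ := by gcongr
          _ ≤ ε / 4 * ‖W z‖ := by gcongr
      have h4 : ‖S (z - p)‖ ^ 2 - (W z).re ≤ ε / 2 * ‖W z‖ := by linarith
      have h5 : (‖S (z - p)‖ ^ 2 - (W z).re) * r ^ 2 ≤ ε / 2 * ‖W z‖ * r ^ 2 := by gcongr
      nlinarith [mul_nonneg hε.le (sq_nonneg (‖W z‖ - r ^ 2)), mul_nonneg hε.le (sq_nonneg (r ^ 2)),
        mul_nonneg hε.le (sq_nonneg ‖W z‖)]
    · push Not at hv
      have h1 : ‖S (z - p)‖ ^ 2 ≤ ‖S‖ ^ 2 * C ^ 2 := by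
        have h2 : ‖S (z - p)‖ ≤ ‖S‖ * C :=
          (S.le_opNorm _).trans (mul_le_mul_of_nonneg_left (h.bdd z hz) (norm_nonneg _))
        calc ‖S (z - p)‖ ^ 2 ≤ (‖S‖ * C) ^ 2 := by gcongr
          _ = ‖S‖ ^ 2 * C ^ 2 := by ring
      have h3 : κ * s₁ ^ 2 ≤ ‖W z‖ := by
        have h4 : κ * s₁ ^ 2 ≤ κ * ‖z - p‖ ^ 2 := by gcongr
        linarith
      have h5 : κ ^ 2 * s₁ ^ 4 ≤ ‖W z‖ ^ 2 := by
        calc κ ^ 2 * s₁ ^ 4 = (κ * s₁ ^ 2) ^ 2 := by ring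
          _ ≤ ‖W z‖ ^ 2 := by gcongr
      have h6 : (‖S‖ ^ 2 * C ^ 2 + 1) * r ≤ ε * κ ^ 2 * s₁ ^ 4 := by
        rw [lt_div_iff₀ hM] at hr2
        linarith
      have h7 : r ^ 2 ≤ r := by nlinarith
      have h8 : (‖S (z - p)‖ ^ 2 - (W z).re) * r ^ 2 ≤ (‖S‖ ^ 2 * C ^ 2 + 1) * r := by
        calc (‖S (z - p)‖ ^ 2 - (W z).re) * r ^ 2 ≤ (‖S‖ ^ 2 * C ^ 2 + 1) * r ^ 2 := by
              apply mul_le_mul_of_nonneg_right _ hq.le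
              linarith
          _ ≤ (‖S‖ ^ 2 * C ^ 2 + 1) * r := by
              apply mul_le_mul_of_nonneg_left h7 hM.le
      have h9 : ε * (κ ^ 2 * s₁ ^ 4) ≤ ε * ‖W z‖ ^ 2 := by gcongr
      have h10 : 0 ≤ ε * (r ^ 2) ^ 2 := by positivity
      nlinarith
  rw [hnorm, hre, hsq, ← sub_div]
  have e1 : ε * ((1 + (W z).re / r ^ 2) ^ 2 + ((W z).im / r ^ 2) ^ 2) =
      ε * ((r ^ 2 + (W z).re) ^ 2 + (W z).im ^ 2) / (r ^ 2) ^ 2 := by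
    field_simp
  have e2 : (‖S (z - p)‖ ^ 2 - (W z).re) / r ^ 2 =
      ((‖S (z - p)‖ ^ 2 - (W z).re) * r ^ 2) / (r ^ 2) ^ 2 := by
    field_simp
  rw [e1, e2]
  apply div_le_div_of_nonneg_right _ (by positivity)
  refine key.trans ?_
  apply mul_le_mul_of_nonneg_left _ hε.le
  rw [hW2]
  nlinarith [mul_nonneg hq.le hW0]

/-- PROOF. `cay_norm` and `up_bound` with `ε / 4`: `‖Th‖² ≤ 1 + ε < (1 + ε)²`. -/
theorem th_up (h : SG D p W S e κ C) {ε : ℝ} (hε : 0 < ε) :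
    ∃ r₀ > 0, ∀ r, 0 < r → r < r₀ → ∀ z ∈ closure D, ‖Th p W S e r z‖ < 1 + ε := by
  have hκ := h.κ0
  obtain ⟨r₀, hr₀, hb⟩ := up_bound h (ε := ε / 4) (by positivity)
  refine ⟨r₀, hr₀, fun r hr hr1 z hz => ?_⟩
  have h1 := hb r hr hr1 z hz
  have hY : 0 ≤ (W z / (r : ℂ) ^ 2).re := by
    rw [← Complex.ofReal_pow, Complex.div_ofReal_re]
    exact div_nonneg (le_trans (by positivity) (h.pos z hz)) (by positivity)
  have hx : inner ℂ e ((r : ℂ)⁻¹ • S (z - p)) = 0 := by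
    rw [inner_smul_right, h.orth, mul_zero]
  have h2 : ‖Th p W S e r z‖ ^ 2 = 1 + 4 * (‖(r : ℂ)⁻¹ • S (z - p)‖ ^ 2 -
      (W z / (r : ℂ) ^ 2).re) / ‖1 + W z / (r : ℂ) ^ 2‖ ^ 2 := cay_norm h.e1 hx hY
  have h3 : 0 < ‖1 + W z / (r : ℂ) ^ 2‖ ^ 2 := by
    have : (1 : ℝ) ≤ ‖1 + W z / (r : ℂ) ^ 2‖ := by
      have h4 := Complex.re_le_norm (1 + W z / (r : ℂ) ^ 2)
      rw [Complex.add_re, Complex.one_re] at h4
      linarith
    positivity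
  have h4 : 4 * (‖(r : ℂ)⁻¹ • S (z - p)‖ ^ 2 -
      (W z / (r : ℂ) ^ 2).re) / ‖1 + W z / (r : ℂ) ^ 2‖ ^ 2 ≤ ε := by
    rw [div_le_iff₀ h3]
    linarith
  have h5 : ‖Th p W S e r z‖ ^ 2 < (1 + ε) ^ 2 := by nlinarith
  exact lt_of_pow_lt_pow_left₀ 2 (by positivity) h5

/-- PROOF. `cay_far`: `‖Th z + e‖ ≤ 2 (1 + ‖S v‖ / r) / ‖1 + W / r²‖ ≤ 2 (1 + ‖S‖ C / r) r² / ‖W‖` (`‖1 + W / r²‖ ≥ ‖W‖ / r²` as `Re W ≥ 0`;
`‖v‖ ≤ C`), and `‖W‖ ≥ κ s²`: it is `≤ 2 (r² + ‖S‖ C r) / (κ s²)`, small. -/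
theorem th_far (h : SG D p W S e κ C) {ε s : ℝ} (hε : 0 < ε) (hs : 0 < s) :
    ∃ r₀ > 0, ∀ r, 0 < r → r < r₀ → ∀ z ∈ closure D, s ≤ ‖z - p‖ → ‖Th p W S e r z + e‖ ≤ ε := by
  have hκ := h.κ0
  have hC := h.C0
  have hM : 0 < 2 * (1 + ‖S‖ * C) := by positivity
  refine ⟨min 1 (ε * (κ * s ^ 2) / (2 * (1 + ‖S‖ * C))), lt_min one_pos (by positivity), ?_⟩
  intro r hr hr0 z hz hsz
  have hr1 : r < 1 := lt_of_lt_of_le hr0 (min_le_left _ _)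
  have hr2 : r < ε * (κ * s ^ 2) / (2 * (1 + ‖S‖ * C)) := lt_of_lt_of_le hr0 (min_le_right _ _)
  rw [lt_div_iff₀ hM] at hr2
  have hq : 0 < r ^ 2 := by positivity
  have hre : (W z / (r : ℂ) ^ 2).re = (W z).re / r ^ 2 := by
    rw [← Complex.ofReal_pow, Complex.div_ofReal_re]
  have hW : κ * s ^ 2 ≤ (W z).re := by
    have h4 : κ * s ^ 2 ≤ κ * ‖z - p‖ ^ 2 := by gcongr
    exact h4.trans (h.pos z hz)
  have hY : 0 ≤ (W z / (r : ℂ) ^ 2).re := by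
    rw [hre]
    exact div_nonneg (le_trans (by positivity) hW) (by positivity)
  have h1 : ‖Th p W S e r z + e‖ ≤ 2 * (1 + ‖(r : ℂ)⁻¹ • S (z - p)‖) / ‖1 + W z / (r : ℂ) ^ 2‖ :=
    cay_far h.e1 hY
  have h2 : κ * s ^ 2 / r ^ 2 ≤ ‖1 + W z / (r : ℂ) ^ 2‖ := by
    have h4 := Complex.re_le_norm (1 + W z / (r : ℂ) ^ 2)
    rw [Complex.add_re, Complex.one_re, hre] at h4
    have h5 : κ * s ^ 2 / r ^ 2 ≤ (W z).re / r ^ 2 := by gcongr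
    linarith
  have h3 : ‖(r : ℂ)⁻¹ • S (z - p)‖ ≤ ‖S‖ * C / r := by
    rw [norm_smul, norm_inv, Complex.norm_real, Real.norm_of_nonneg hr.le, inv_mul_eq_div]
    have h2 : ‖S (z - p)‖ ≤ ‖S‖ * C :=
      (S.le_opNorm _).trans (mul_le_mul_of_nonneg_left (h.bdd z hz) (norm_nonneg _))
    gcongr
  have h4 : 0 < κ * s ^ 2 / r ^ 2 := by positivity
  refine h1.trans ?_
  rw [div_le_iff₀ (lt_of_lt_of_le h4 h2)]
  have h6 : ε * (κ * s ^ 2 / r ^ 2) ≤ ε * ‖1 + W z / (r : ℂ) ^ 2‖ := by gcongr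
  refine le_trans ?_ h6
  have h7 : 2 * (1 + ‖(r : ℂ)⁻¹ • S (z - p)‖) ≤ 2 * (1 + ‖S‖ * C / r) := by gcongr
  refine h7.trans ?_
  have h8 : 2 * (1 + ‖S‖ * C / r) = (2 * (r ^ 2 + ‖S‖ * C * r)) / r ^ 2 := by
    field_simp
  have h9 : ε * (κ * s ^ 2 / r ^ 2) = (ε * (κ * s ^ 2)) / r ^ 2 := by ring
  rw [h8, h9]
  apply div_le_div_of_nonneg_right _ hq.le
  have h10 : r ^ 2 ≤ r := by nlinarith
  nlinarith

/-- PROOF. `1 + W / r²` has real part `≥ 1` on `closure D` (`h.pos`); `h.hol`, `h.cont`. -/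
theorem th_reg (h : SG D p W S e κ C) {r : ℝ} (hr : 0 < r) :
    DifferentiableOn ℂ (Th p W S e r) D ∧ ContinuousOn (Th p W S e r) (closure D) := by
  have hκ := h.κ0
  have hrC : (r : ℂ) ^ 2 ≠ 0 := by
    have : (r : ℂ) ≠ 0 := by exact_mod_cast hr.ne'
    exact pow_ne_zero 2 this
  have hne : ∀ z ∈ closure D, 1 + W z / (r : ℂ) ^ 2 ≠ 0 := by
    intro z hz h0
    have h1 : (1 + W z / (r : ℂ) ^ 2).re = 0 := by rw [h0]; simp
    rw [Complex.add_re, Complex.one_re, ← Complex.ofReal_pow, Complex.div_ofReal_re] at h1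
    have h2 : 0 ≤ (W z).re / r ^ 2 :=
      div_nonneg (le_trans (by positivity) (h.pos z hz)) (by positivity)
    linarith
  have hD : ∀ z ∈ D, 1 + W z / (r : ℂ) ^ 2 ≠ 0 := fun z hz => hne z (subset_closure hz)
  constructor
  · have hY : DifferentiableOn ℂ (fun z => W z / (r : ℂ) ^ 2) D := by
      simp only [div_eq_mul_inv]
      exact h.hol.mul_const _
    have hi : DifferentiableOn ℂ (fun z => (1 + W z / (r : ℂ) ^ 2)⁻¹) D :=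
      (hY.const_add 1).inv hD
    have h1 : DifferentiableOn ℂ (fun z => (1 - W z / (r : ℂ) ^ 2) / (1 + W z / (r : ℂ) ^ 2)) D := by
      have e1 : (fun z => (1 - W z / (r : ℂ) ^ 2) / (1 + W z / (r : ℂ) ^ 2)) =
          fun z => (1 - W z / (r : ℂ) ^ 2) * (1 + W z / (r : ℂ) ^ 2)⁻¹ := by
        funext z; exact div_eq_mul_inv _ _
      rw [e1]
      exact (hY.const_sub 1).mul hi
    have h2 : DifferentiableOn ℂ (fun z => 2 / (1 + W z / (r : ℂ) ^ 2)) D := by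
      have e1 : (fun z => 2 / (1 + W z / (r : ℂ) ^ 2)) =
          fun z => 2 * (1 + W z / (r : ℂ) ^ 2)⁻¹ := by
        funext z; exact div_eq_mul_inv _ _
      rw [e1]
      exact hi.const_mul 2
    have h3 : DifferentiableOn ℂ (fun z => (r : ℂ)⁻¹ • S (z - p)) D := by
      have h4 : Differentiable ℂ (fun z => (r : ℂ)⁻¹ • S (z - p)) := by fun_prop
      exact h4.differentiableOn
    exact (h1.smul_const e).add (h2.smul h3)
  · have hY : ContinuousOn (fun z => W z / (r : ℂ) ^ 2) (closure D) := h.cont.div_const _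
    have h1 : ContinuousOn (fun z => (1 - W z / (r : ℂ) ^ 2) / (1 + W z / (r : ℂ) ^ 2))
        (closure D) :=
      (continuousOn_const.sub hY).div (continuousOn_const.add hY) hne
    have h2 : ContinuousOn (fun z => 2 / (1 + W z / (r : ℂ) ^ 2)) (closure D) :=
      continuousOn_const.div (continuousOn_const.add hY) hne
    have h3 : ContinuousOn (fun z => (r : ℂ)⁻¹ • S (z - p)) (closure D) := by
      have h4 : Continuous (fun z => (r : ℂ)⁻¹ • S (z - p)) := by fun_prop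
      exact h4.continuousOn
    exact (h1.smul continuousOn_const).add (h2.smul h3)

end Pool.Agent.MPca0fc2.TB
end
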