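import Mathlib
import Pool.Agent.Lib.MP_ca0fc2_an.TB.Defs

section

/-! The peak functions of a strictly pseudoconvex domain with a holomorphic support function. -/

set_option autoImplicit false

open Metric Set Filter Topology

namespace Pool.Agent.MPca0fc2.TB

open Pool.Agent.Lib.MP_ca0fc2_an (SupportData)

variable {n : ℕ}

/-- Boundary points.
PROOF. `D = {z ∈ U | ρ z < 0}` is open (`hs.opn`, continuity of `ρ` on `U`), so `p ∉ D`; the compact set
`{z ∈ U | ρ z ≤ 0}` (`hs.cpt`) is closed and contains `D`, hence contains `closure D`; so `p ∈ U`, `ρ p ≤ 0` and, as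
`p ∉ D`, `0 ≤ ρ p`. -/
theorem support_bdry {D U : Set (En n)} {ρ : En n → ℝ} {h : En n → En n → Fin n → ℂ} {c : ℝ}
    (hs : SupportData D U ρ h c) :
    IsOpen D ∧ Bornology.IsBounded D ∧ closure D ⊆ U ∧ (∀ z ∈ closure D, ρ z ≤ 0) ∧
      ∀ p ∈ frontier D, p ∈ U ∧ ρ p = 0 := by
  have hopen : IsOpen D := by
    rw [hs.eq]
    exact hs.dρ.continuousOn.isOpen_inter_preimage hs.opn isOpen_Iio
  have hsub : D ⊆ {z | z ∈ U ∧ ρ z ≤ 0} := by
    intro z hz
    rw [hs.eq] at hz
    exact ⟨hz.1, hz.2.le⟩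
  have hcl : closure D ⊆ {z | z ∈ U ∧ ρ z ≤ 0} := closure_minimal hsub hs.cpt.isClosed
  refine ⟨hopen, hs.cpt.isBounded.subset hsub, fun z hz => (hcl hz).1, fun z hz => (hcl hz).2, ?_⟩
  intro p hp
  have hpc : p ∈ closure D := frontier_subset_closure hp
  have hpn : p ∉ D := by
    intro h
    rw [hopen.frontier_eq] at hp
    exact hp.2 h
  refine ⟨(hcl hpc).1, le_antisymm (hcl hpc).2 ?_⟩
  by_contra hlt
  apply hpn
  rw [hs.eq]
  exact ⟨(hcl hpc).1, not_le.1 hlt⟩

/-- The support function at `p` gives the peak function `w z = 2 ∑ h_k (z, p) (p_k - z_k)`.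
PROOF. `V = U`, `r` with `ball p r ⊆ U`. `hol`: `hs.hol p`. `cw`: `hs.dh` composed with `z ↦ (z, p)`
(real smoothness; coordinates `z ↦ z k` are smooth, finite sums and products). `w p = 0`. `dw`: `fderiv ℂ w p v =
- 2 ∑ h_k (p, p) v_k` (product rule, the factor `p_k - z_k` vanishes at `p`), and `fderiv ℝ ρ p v = 2 Re ∑ h_k (p, p) v_k`
(`hs.grad`) is not zero (`hs.nd`). `pos`: `hs.pos z p` with `ρ p = 0`, `ρ z ≤ 0`. `loc`: `hs.eq`. `sup`: `hs.pos z p`
reads `0 - ρ z + c ‖p - z‖² ≤ Re w z` (`norm_sub_rev`). -/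
theorem pk_of_support {D U : Set (En n)} {ρ : En n → ℝ} {h : En n → En n → Fin n → ℂ} {c : ℝ}
    (hs : SupportData D U ρ h c) {p : En n} (hp : p ∈ frontier D) :
    ∃ r, PK D p (fun z => 2 * ∑ k, h z p k * (p k - z k)) ρ U r c := by
  obtain ⟨hopen, hbdd, hclU, hclρ, hfr⟩ := support_bdry hs
  obtain ⟨hpU, hρ0⟩ := hfr p hp
  obtain ⟨r, hr0, hr⟩ := Metric.isOpen_iff.1 hs.opn p hpU
  have hpc : p ∈ closure D := frontier_subset_closure hp
  have hhol : ∀ k, DifferentiableOn ℂ (fun z => h z p k) U := fun k =>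
    (differentiableOn_pi.1 (hs.hol p hpU)) k
  have hproj : ∀ k, Differentiable ℂ (fun z : En n => z k) := fun k =>
    (EuclideanSpace.proj k : En n →L[ℂ] ℂ).differentiable
  have hsup : ∀ z ∈ U, c * ‖z - p‖ ^ 2 ≤ (2 * ∑ k, h z p k * (p k - z k)).re + ρ z := by
    intro z hz
    have h1 := hs.pos z hz p hpU
    rw [hρ0, norm_sub_rev] at h1
    have h2 : (2 * ∑ k, h z p k * (p k - z k)).re = 2 * (∑ k, h z p k * (p k - z k)).re := by
      simp [Complex.mul_re]
    rw [h2]
    linarith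
  refine ⟨r, hr0, hs.c0, hbdd, hopen, hpc, hs.opn, hclU, hr, ?_, ?_, ?_, ?_, ?_, ?_, hρ0, ?_, ?_, ?_⟩
  · refine DifferentiableOn.const_mul ?_ 2
    refine DifferentiableOn.fun_sum fun k _ => ?_
    exact (hhol k).mul ((differentiableOn_const _).sub (hproj k).differentiableOn)
  · have hc : ContDiffOn ℝ 2 (fun z => h z p) U :=
      hs.dh.comp (contDiff_id.prodMk contDiff_const).contDiffOn (fun z hz => ⟨hz, hpU⟩)
    have hpr : ∀ k, ContDiff ℝ 2 (fun z : En n => z k) := fun k =>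
      ((EuclideanSpace.proj k : En n →L[ℂ] ℂ).restrictScalars ℝ).contDiff
    refine ContDiffOn.mul contDiffOn_const ?_
    refine ContDiffOn.sum fun k _ => ?_
    exact ((contDiffOn_pi.1 hc) k).mul (contDiffOn_const.sub (hpr k).contDiffOn)
  · simp
  · intro h0
    apply hs.nd p hpU hρ0
    have hd : ∀ k, HasFDerivAt (fun z : En n => h z p k * (p k - z k))
        (-(h p p k) • (EuclideanSpace.proj k : En n →L[ℂ] ℂ)) p := by
      intro k
      have h1 : HasFDerivAt (fun z : En n => h z p k) (fderiv ℂ (fun z : En n => h z p k) p) p :=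
        ((hhol k).differentiableAt (hs.opn.mem_nhds hpU)).hasFDerivAt
      have h2 : HasFDerivAt (fun z : En n => p k - z k)
          (-(EuclideanSpace.proj k : En n →L[ℂ] ℂ)) p := by
        have := (EuclideanSpace.proj k : En n →L[ℂ] ℂ).hasFDerivAt (x := p)
        exact this.const_sub (p k)
      have h3 := h1.mul h2
      refine h3.congr_fderiv ?_
      ext X
      show h p p k * -(X k) + (p k - p k) * (fderiv ℂ (fun z : En n => h z p k) p X) =
        -(h p p k) * X k
      ring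
    have hD : HasFDerivAt (fun z : En n => 2 * ∑ k, h z p k * (p k - z k))
        ((2 : ℂ) • ∑ k, -(h p p k) • (EuclideanSpace.proj k : En n →L[ℂ] ℂ)) p :=
      (HasFDerivAt.fun_sum fun k _ => hd k).const_mul 2
    rw [hD.fderiv] at h0
    ext X
    rw [hs.grad p hpU X]
    have h1 := congrArg (fun L : En n →L[ℂ] ℂ => L X) h0
    have h2 : (2 : ℂ) * -(∑ k, h p p k * X k) = 0 := by
      have h4 : ((2 : ℂ) • ∑ k, -(h p p k) • (EuclideanSpace.proj k : En n →L[ℂ] ℂ)) X =
          2 * -(∑ k, h p p k * X k) := by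
        simp [Finset.sum_neg_distrib]
      rw [← h4]
      exact h1
    have h3 : (∑ k, h p p k * X k) = 0 := by
      rcases mul_eq_zero.1 h2 with h | h
      · norm_num at h
      · exact neg_eq_zero.1 h
    rw [h3]
    simp
  · intro z hz
    have h1 := hsup z (hclU hz)
    have h2 := hclρ z hz
    show c * ‖z - p‖ ^ 2 ≤ (2 * ∑ k, h z p k * (p k - z k)).re
    linarith
  · exact hs.dρ.mono hr
  · intro z hz
    rw [hs.eq]
    exact ⟨fun h => h.2, fun h => ⟨hr hz, h⟩⟩
  · intro z _ hz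
    exact hclρ z hz
  · intro z hz
    exact hsup z (hr hz)

end Pool.Agent.MPca0fc2.TB
end

section

/-! The second order Taylor formula with Peano's remainder. -/

set_option autoImplicit false

open Metric Set Filter Topology

namespace Pool.Agent.MPca0fc2.TB

/-- PROOF. `fderiv ℝ g` is differentiable at `p` (`ContDiffAt.fderiv_right`), so for `ε > 0` there is a ball
`ball p s` on which `g` is differentiable and `‖fderiv ℝ g z - L (z - p)‖ ≤ ε ‖z - p‖`, `L = fderiv ℝ (fderiv ℝ g) p` (the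
derivative of `g` at `p` is `0`). The second derivative is symmetric: `ContDiffAt.isSymmSndFDerivAt` (or
`second_derivative_symmetric_of_eventually`), so `z ↦ (1/2) L (z - p) (z - p)` has the derivative `v ↦ L (z - p) v`.
The mean value inequality (`Convex.norm_image_sub_le_of_norm_fderiv_le` or `..hasFDerivWithin_le`) on the convex set
`closedBall p ‖z - p‖` for `G z = g z - (1/2) L (z - p) (z - p)` gives `|G z - G p| ≤ ε ‖z - p‖ · ‖z - p‖`. -/
theorem taylor2 {E : Type*} [NormedAddCommGroup E] [NormedSpace ℝ E] {g : E → ℝ} {p : E}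
    (hg : ContDiffAt ℝ 2 g p) (h0 : fderiv ℝ g p = 0) :
    (∀ u v, fderiv ℝ (fderiv ℝ g) p u v = fderiv ℝ (fderiv ℝ g) p v u) ∧
    ∀ ε > 0, ∃ s > 0, ∀ z, ‖z - p‖ < s →
      |g z - g p - (1 / 2) * fderiv ℝ (fderiv ℝ g) p (z - p) (z - p)| ≤ ε * ‖z - p‖ ^ 2 := by
  have hsym : ∀ u v, fderiv ℝ (fderiv ℝ g) p u v = fderiv ℝ (fderiv ℝ g) p v u := by
    intro u v
    exact (hg.isSymmSndFDerivAt (by simp)).eq u v
  refine ⟨hsym, ?_⟩
  intro ε hε
  set L := fderiv ℝ (fderiv ℝ g) p with hLdef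
  have hL : HasFDerivAt (fderiv ℝ g) L p :=
    ((hg.fderiv_right (m := 1) (by norm_num)).differentiableAt (by norm_num)).hasFDerivAt
  have h1 : ∀ᶠ z in 𝓝 p, ‖fderiv ℝ g z - L (z - p)‖ ≤ ε * ‖z - p‖ := by
    have h2 := (hasFDerivAt_iff_isLittleO.1 hL).def hε
    filter_upwards [h2] with z hz
    simpa [h0] using hz
  have h2 : ∀ᶠ z in 𝓝 p, DifferentiableAt ℝ g z := by
    have h3 := hg.eventually (by simp)
    filter_upwards [h3] with z hz
    exact hz.differentiableAt (by norm_num)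
  obtain ⟨s, hs, hb⟩ := Metric.eventually_nhds_iff.1 (h1.and h2)
  refine ⟨s, hs, ?_⟩
  intro z hz
  have hmem : ∀ y ∈ closedBall p ‖z - p‖, ‖y - p‖ ≤ ‖z - p‖ := by
    intro y hy
    rwa [mem_closedBall, dist_eq_norm] at hy
  have hball : ∀ y ∈ closedBall p ‖z - p‖, ‖fderiv ℝ g y - L (y - p)‖ ≤ ε * ‖y - p‖ ∧
      DifferentiableAt ℝ g y := by
    intro y hy
    exact hb (by rw [dist_eq_norm]; exact lt_of_le_of_lt (hmem y hy) hz)
  have hder : ∀ y ∈ closedBall p ‖z - p‖,
      HasFDerivWithinAt (fun y => g y - (1 / 2) * L (y - p) (y - p))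
        (fderiv ℝ g y - L (y - p)) (closedBall p ‖z - p‖) y := by
    intro y hy
    have hg1 : HasFDerivAt g (fderiv ℝ g y) y := (hball y hy).2.hasFDerivAt
    have hu : HasFDerivAt (fun y => y - p) (ContinuousLinearMap.id ℝ E) y :=
      (hasFDerivAt_id y).sub_const p
    have hc : HasFDerivAt (fun y => L (y - p)) (L.comp (ContinuousLinearMap.id ℝ E)) y :=
      L.hasFDerivAt.comp y hu
    have hq := (hc.clm_apply hu).const_mul (1 / 2 : ℝ)
    have hG := hg1.sub hq
    have e : fderiv ℝ g y - (1 / 2 : ℝ) • ((L (y - p)).comp (ContinuousLinearMap.id ℝ E) +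
        (L.comp (ContinuousLinearMap.id ℝ E)).flip (y - p)) = fderiv ℝ g y - L (y - p) := by
      ext v
      simp only [ContinuousLinearMap.sub_apply, ContinuousLinearMap.smul_apply,
        ContinuousLinearMap.add_apply, ContinuousLinearMap.comp_apply,
        ContinuousLinearMap.id_apply, ContinuousLinearMap.flip_apply, smul_eq_mul]
      rw [hsym v (y - p)]
      ring
    rw [← e]
    exact hG.hasFDerivWithinAt
  have hbound : ∀ y ∈ closedBall p ‖z - p‖, ‖fderiv ℝ g y - L (y - p)‖ ≤ ε * ‖z - p‖ := by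
    intro y hy
    exact (hball y hy).1.trans (mul_le_mul_of_nonneg_left (hmem y hy) hε.le)
  have hmv := Convex.norm_image_sub_le_of_norm_hasFDerivWithin_le hder hbound
    (convex_closedBall p ‖z - p‖) (mem_closedBall_self (norm_nonneg _))
    (y := z) (by rw [mem_closedBall, dist_eq_norm])
  have e2 : g z - g p - (1 / 2) * L (z - p) (z - p) =
      (g z - (1 / 2) * L (z - p) (z - p)) - (g p - (1 / 2) * L (p - p) (p - p)) := by
    simp
    ring
  rw [e2, ← Real.norm_eq_abs]
  calc _ ≤ ε * ‖z - p‖ * ‖z - p‖ := hmv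
    _ = ε * ‖z - p‖ ^ 2 := by ring

end Pool.Agent.MPca0fc2.TB
end
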