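import Mathlib
import Pool.Agent.Lib.MP_ca0fc2_an.Mg.G076
import Pool.Agent.Lib.MP_ca0fc2_an.Mg.G074
import Pool.Agent.Lib.MP_ca0fc2_an.Mg.G083
import Pool.Agent.Lib.MP_ca0fc2_an.Mg.G082
import Pool.Agent.Lib.MP_ca0fc2_an.Holo

section

/-! The holomorphic right inverse. -/

set_option autoImplicit false

open Metric Set Filter Topology

namespace Pool.Agent.MPca0fc2.TB

variable {n : ℕ} {D : Set (En n)} {p : En n} {W : En n → ℂ} {S : En n →L[ℂ] En n} {e : En n}
  {κ C : ℝ}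

/-- PROOF. `a`, `G` from `h.inv`. For `ζ` in the ball put `α = ⟪e, ζ⟫`, `Y = (1 - α) / (1 + α)`, `x = (1 / (1 + α)) (ζ - α e)` (`cay_inv`), and
`ψ ζ = G (r • x + (r² Y) • e)`. `‖r x + r² Y e‖ ≤ r / ε + 2 r² / ε ≤ 3 r / ε < a` for small `r ≤ 1`. `z = ψ ζ`, `v = z - p`: `‖v‖ ≤ 3 C r / ε < s`.
Taking the inner product with `e` in `S v + W z • e = r x + r² Y e` (`⟪e, S v⟫ = 0 = ⟪e, x⟫`, `‖e‖ = 1`): `W z = r² Y`, and so
`S v = r x`. Hence `Th z = cay e Y x = ζ`. `z ∈ D` by `h.low ε₁` with `ε₁ (3 C / ε)² = ε / 16`: `‖S v‖² + ε₁ ‖v‖² + C ‖W‖ ‖v‖ ≤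
r² ‖x‖² + r² ε/16 + C r² (2/ε) (3 C r / ε) < r² (‖x‖² + ε/4) ≤ r² Re Y = Re W` for small `r`. `ψ` is holomorphic: `ζ ↦ ⟪e, ζ⟫` is
complex linear, `1 + α ≠ 0`, and `G` is holomorphic on `ball 0 a`. -/
theorem th_inv (h : SG D p W S e κ C) {ε s : ℝ} (hε : 0 < ε) (hε1 : ε < 1) (hs : 0 < s) :
    ∃ r₀ > 0, ∀ r, 0 < r → r < r₀ → ∃ ψ : En n → En n, DifferentiableOn ℂ ψ (ball 0 (1 - ε)) ∧
      ∀ ζ ∈ ball (0 : En n) (1 - ε), ψ ζ ∈ D ∧ ‖ψ ζ - p‖ < s ∧ Th p W S e r (ψ ζ) = ζ := by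
  have hκ := h.κ0
  have hC := h.C0
  obtain ⟨a, ha, G, hG, hGy⟩ := h.inv
  obtain ⟨s', hs', hlow⟩ := h.low (ε ^ 3 / (144 * C ^ 2)) (by positivity)
  obtain ⟨r₀, hr₀, hr₀1, hr₀a, hr₀s, hr₀s', hr₀e⟩ : ∃ r₀ : ℝ, 0 < r₀ ∧ r₀ ≤ 1 ∧ 3 * r₀ / ε ≤ a ∧
      C * (3 * r₀ / ε) ≤ s ∧ C * (3 * r₀ / ε) ≤ s' ∧ r₀ ≤ ε ^ 3 / (96 * C ^ 2) := by
    refine ⟨min 1 (min (a * ε / 3) (min (s * ε / (3 * C)) (min (s' * ε / (3 * C))
      (ε ^ 3 / (96 * C ^ 2))))), by positivity, min_le_left _ _, ?_, ?_, ?_, ?_⟩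
    · have h1 : min 1 (min (a * ε / 3) (min (s * ε / (3 * C)) (min (s' * ε / (3 * C))
        (ε ^ 3 / (96 * C ^ 2))))) ≤ a * ε / 3 := (min_le_right _ _).trans (min_le_left _ _)
      calc 3 * min 1 (min (a * ε / 3) (min (s * ε / (3 * C)) (min (s' * ε / (3 * C))
        (ε ^ 3 / (96 * C ^ 2))))) / ε ≤ 3 * (a * ε / 3) / ε := by gcongr
        _ = a := by field_simp
    · have h1 : min 1 (min (a * ε / 3) (min (s * ε / (3 * C)) (min (s' * ε / (3 * C))
        (ε ^ 3 / (96 * C ^ 2))))) ≤ s * ε / (3 * C) :=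
        (min_le_right _ _).trans ((min_le_right _ _).trans (min_le_left _ _))
      calc C * (3 * min 1 (min (a * ε / 3) (min (s * ε / (3 * C)) (min (s' * ε / (3 * C))
        (ε ^ 3 / (96 * C ^ 2))))) / ε) ≤ C * (3 * (s * ε / (3 * C)) / ε) := by gcongr
        _ = s := by field_simp
    · have h1 : min 1 (min (a * ε / 3) (min (s * ε / (3 * C)) (min (s' * ε / (3 * C))
        (ε ^ 3 / (96 * C ^ 2))))) ≤ s' * ε / (3 * C) :=
        (min_le_right _ _).trans ((min_le_right _ _).trans ((min_le_right _ _).trans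
          (min_le_left _ _)))
      calc C * (3 * min 1 (min (a * ε / 3) (min (s * ε / (3 * C)) (min (s' * ε / (3 * C))
        (ε ^ 3 / (96 * C ^ 2))))) / ε) ≤ C * (3 * (s' * ε / (3 * C)) / ε) := by gcongr
        _ = s' := by field_simp
    · exact (min_le_right _ _).trans ((min_le_right _ _).trans ((min_le_right _ _).trans
          (min_le_right _ _)))
  refine ⟨r₀, hr₀, fun r hr hrr => ?_⟩
  have hr1 : r ≤ 1 := hrr.le.trans hr₀1
  have hrC : (r : ℂ) ≠ 0 := by exact_mod_cast hr.ne'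
  have hr3 : 3 * r / ε < 3 * r₀ / ε := by gcongr
  -- the parameters
  have hin : ∀ ζ ∈ ball (0 : En n) (1 - ε),
      ‖(r : ℂ) • ((1 / (1 + inner ℂ e ζ) : ℂ) • (ζ - (inner ℂ e ζ : ℂ) • e)) +
        ((r : ℂ) ^ 2 * ((1 - inner ℂ e ζ) / (1 + inner ℂ e ζ))) • e‖ ≤ 3 * r / ε := by
    intro ζ hζ
    rw [mem_ball_zero_iff] at hζ
    obtain ⟨_, _, _, h4, h5, _⟩ := cay_inv h.e1 hε hε1 hζ
    have h6 : ‖(r : ℂ)‖ = r := by rw [Complex.norm_real, Real.norm_of_nonneg hr.le]
    calc _ ≤ ‖(r : ℂ) • ((1 / (1 + inner ℂ e ζ) : ℂ) • (ζ - (inner ℂ e ζ : ℂ) • e))‖ +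
        ‖((r : ℂ) ^ 2 * ((1 - inner ℂ e ζ) / (1 + inner ℂ e ζ))) • e‖ := norm_add_le _ _
      _ = r * ‖((1 / (1 + inner ℂ e ζ) : ℂ) • (ζ - (inner ℂ e ζ : ℂ) • e))‖ +
        r ^ 2 * ‖((1 - inner ℂ e ζ) / (1 + inner ℂ e ζ) : ℂ)‖ := by
          rw [norm_smul (r : ℂ), norm_smul (_ * _) e, norm_mul, norm_pow, h6, h.e1, mul_one]
      _ ≤ r * (1 / ε) + r ^ 2 * (2 / ε) := by gcongr
      _ ≤ r * (1 / ε) + r * (2 / ε) := by
          have : r ^ 2 ≤ r := by nlinarith
          gcongr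
      _ = 3 * r / ε := by ring
  refine ⟨fun ζ => G ((r : ℂ) • ((1 / (1 + inner ℂ e ζ) : ℂ) • (ζ - (inner ℂ e ζ : ℂ) • e)) +
        ((r : ℂ) ^ 2 * ((1 - inner ℂ e ζ) / (1 + inner ℂ e ζ))) • e), ?_, ?_⟩
  · have hi : DifferentiableOn ℂ (fun ζ : En n => (inner ℂ e ζ : ℂ)) (ball 0 (1 - ε)) :=
      (innerSL ℂ e).differentiable.differentiableOn
    have hne : ∀ ζ ∈ ball (0 : En n) (1 - ε), (1 + inner ℂ e ζ : ℂ) ≠ 0 := by
      intro ζ hζ
      rw [mem_ball_zero_iff] at hζ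
      exact (cay_inv h.e1 hε hε1 hζ).1
    have h0 : DifferentiableOn ℂ (fun ζ : En n => ((1 + inner ℂ e ζ)⁻¹ : ℂ)) (ball 0 (1 - ε)) :=
      (hi.const_add 1).inv hne
    have h1 : DifferentiableOn ℂ (fun ζ : En n => (1 / (1 + inner ℂ e ζ) : ℂ)) (ball 0 (1 - ε)) := by
      simp only [one_div]
      exact h0
    have h2 : DifferentiableOn ℂ (fun ζ : En n => ((1 - inner ℂ e ζ) / (1 + inner ℂ e ζ) : ℂ))
        (ball 0 (1 - ε)) := by
      simp only [div_eq_mul_inv]
      exact (hi.const_sub 1).mul h0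
    have h3 : DifferentiableOn ℂ (fun ζ : En n => ζ - (inner ℂ e ζ : ℂ) • e) (ball 0 (1 - ε)) :=
      differentiableOn_id.sub (hi.smul_const e)
    have h4 : DifferentiableOn ℂ (fun ζ : En n =>
        (r : ℂ) • ((1 / (1 + inner ℂ e ζ) : ℂ) • (ζ - (inner ℂ e ζ : ℂ) • e)) +
        ((r : ℂ) ^ 2 * ((1 - inner ℂ e ζ) / (1 + inner ℂ e ζ))) • e) (ball 0 (1 - ε)) :=
      ((h1.fun_smul h3).fun_const_smul (r : ℂ)).fun_add ((h2.const_mul _).smul_const e)
    refine hG.comp h4 ?_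
    intro ζ hζ
    rw [mem_ball_zero_iff]
    exact lt_of_le_of_lt (hin ζ hζ) (lt_of_lt_of_le hr3 hr₀a)
  · intro ζ hζ
    have hyn := hin ζ hζ
    have hζ' := hζ
    rw [mem_ball_zero_iff] at hζ'
    obtain ⟨h1, h2, h3, h4, h5, h6⟩ := cay_inv h.e1 hε hε1 hζ'
    set α : ℂ := inner ℂ e ζ with hα
    set x : En n := (1 / (1 + α) : ℂ) • (ζ - α • e) with hx
    set Y : ℂ := (1 - α) / (1 + α) with hY
    set y : En n := (r : ℂ) • x + ((r : ℂ) ^ 2 * Y) • e with hy
    have hyb : y ∈ ball (0 : En n) a := by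
      rw [mem_ball_zero_iff]
      exact lt_of_le_of_lt hyn (lt_of_lt_of_le hr3 hr₀a)
    obtain ⟨hg1, hg2⟩ := hGy y hyb
    change G y ∈ D ∧ ‖G y - p‖ < s ∧ Th p W S e r (G y) = ζ
    have hee : (inner ℂ e e : ℂ) = 1 := by
      rw [inner_self_eq_norm_sq_to_K, h.e1]; simp
    have hey : (inner ℂ e y : ℂ) = (r : ℂ) ^ 2 * Y := by
      rw [hy, inner_add_right, inner_smul_right _ _ (r : ℂ), h3, inner_smul_right, hee]
      ring
    have hWz : W (G y) = (r : ℂ) ^ 2 * Y := by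
      have h7 : (inner ℂ e (S (G y - p) + W (G y) • e) : ℂ) = inner ℂ e y := by rw [hg1]
      rw [inner_add_right, h.orth, inner_smul_right, hee, hey] at h7
      simpa using h7
    have hSv : S (G y - p) = (r : ℂ) • x := by
      rw [hWz] at hg1
      exact add_right_cancel hg1
    have hv : ‖G y - p‖ ≤ C * (3 * r / ε) := hg2.trans (by gcongr)
    have hv' : ‖G y - p‖ < C * (3 * r₀ / ε) := lt_of_le_of_lt hv (by gcongr)
    refine ⟨?_, lt_of_lt_of_le hv' hr₀s, ?_⟩
    · apply hlow (G y) (lt_of_lt_of_le hv' hr₀s')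
      have h6' : ‖(r : ℂ)‖ = r := by rw [Complex.norm_real, Real.norm_of_nonneg hr.le]
      have e1 : ‖S (G y - p)‖ ^ 2 = r ^ 2 * ‖x‖ ^ 2 := by
        rw [hSv, norm_smul, h6']; ring
      have e2 : ‖W (G y)‖ ≤ r ^ 2 * (2 / ε) := by
        rw [hWz, norm_mul, norm_pow, h6']
        gcongr
      have e3 : (W (G y)).re = r ^ 2 * Y.re := by
        rw [hWz, ← Complex.ofReal_pow, Complex.re_ofReal_mul]
      have e4 : ε ^ 3 / (144 * C ^ 2) * ‖G y - p‖ ^ 2 ≤ r ^ 2 * (ε / 16) := by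
        calc ε ^ 3 / (144 * C ^ 2) * ‖G y - p‖ ^ 2
            ≤ ε ^ 3 / (144 * C ^ 2) * (C * (3 * r / ε)) ^ 2 := by gcongr
          _ = r ^ 2 * (ε / 16) := by field_simp; norm_num
      have e5 : C * (‖W (G y)‖ * ‖G y - p‖) ≤ r ^ 2 * (ε / 16) := by
        calc C * (‖W (G y)‖ * ‖G y - p‖) ≤ C * ((r ^ 2 * (2 / ε)) * (C * (3 * r / ε))) := by
              gcongr
          _ = r ^ 2 * (r * (6 * C ^ 2 / ε ^ 2)) := by field_simp; norm_num
          _ ≤ r ^ 2 * ((ε ^ 3 / (96 * C ^ 2)) * (6 * C ^ 2 / ε ^ 2)) := by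
              have : r ≤ ε ^ 3 / (96 * C ^ 2) := hrr.le.trans hr₀e
              gcongr
          _ = r ^ 2 * (ε / 16) := by field_simp; norm_num
      rw [e1, e3]
      have e6 : r ^ 2 * (‖x‖ ^ 2 + ε / 4) ≤ r ^ 2 * Y.re := by gcongr
      have e7 : 0 < r ^ 2 * (ε / 16) := by positivity
      nlinarith
    · have e1 : W (G y) / (r : ℂ) ^ 2 = Y := by
        rw [hWz]; field_simp
      have e2 : (r : ℂ)⁻¹ • S (G y - p) = x := by
        rw [hSv, smul_smul, inv_mul_cancel₀ hrC, one_smul]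
      rw [Th, e1, e2]
      exact h2

end Pool.Agent.MPca0fc2.TB
end

section

/-! The boundary points are not isolated. -/

set_option autoImplicit false

open Metric Set Filter Topology

namespace Pool.Agent.MPca0fc2.TB

open Pool.Agent.Lib.MP_ca0fc2_an (SupportData)

variable {n : ℕ}

/-- PROOF. Near `p`, `D = {ρ < 0}` with `ρ` of class `C¹`, `fderiv ℝ ρ p ≠ 0` (`hs.nd`). The real dimension of `ℂⁿ` is `2 n ≥ 2`, so there is a
vector `u ≠ 0` with `fderiv ℝ ρ p u = 0`, and a vector `x` with `fderiv ℝ ρ p x > 0`. For `η > 0` and small `t > 0`: `ρ (p + t u + t η x) =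
t η fderiv ℝ ρ p x + o (t) > 0` and `ρ (p + t u - t η x) < 0`: so the segment between these points contains a point of the frontier of `D`
(it joins a point of `D` with a point of the complement of `D`: connectedness, e.g. the supremum of the parameters in `D`; or
`IsPreconnected` and `frontier`; in fact a zero `q` of `ρ` such that..., it is enough to find a point of `frontier D` on the segment:
`IsPreconnected.inter_frontier_nonempty` or so), and it is `≠ p` if `η ‖x‖ < ‖u‖` and its distance from `p` is `≤ t (‖u‖ + η ‖x‖)`. -/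
theorem frontier_near (hn : 1 ≤ n) {D U : Set (En n)} {ρ : En n → ℝ} {h : En n → En n → Fin n → ℂ}
    {c : ℝ} (hs : SupportData D U ρ h c) {p : En n} (hp : p ∈ frontier D) :
    ∀ ε > 0, ∃ q ∈ frontier D, q ≠ p ∧ ‖q - p‖ < ε := by
  intro ε hε
  obtain ⟨hopn, -, -, -, hbd⟩ := support_bdry hs
  obtain ⟨hpU, hρp⟩ := hbd p hp
  have hL := hs.nd p hpU hρp
  have hdiff : DifferentiableAt ℝ ρ p :=
    ((hs.dρ.contDiffAt (hs.opn.mem_nhds hpU)).differentiableAt (by norm_num))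
  set L := fderiv ℝ ρ p with hLdef
  obtain ⟨x, hx⟩ : ∃ x, 0 < L x := by
    by_contra hc
    push Not at hc
    apply hL
    ext x
    have h1 := hc x
    have h2 := hc (-x)
    rw [map_neg] at h2
    change L x = 0
    linarith
  have hx0 : x ≠ 0 := by
    rintro rfl
    simp at hx
  let a : ℂ := ((L (Complex.I • x) : ℝ) : ℂ) - ((L x : ℝ) : ℂ) * Complex.I
  have ha : a ≠ 0 := by
    intro h0
    have h1 := congrArg Complex.im h0
    simp [a] at h1
    linarith
  let u : En n := a • x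
  have hu0 : u ≠ 0 := smul_ne_zero ha hx0
  have hu : u = (L (Complex.I • x)) • x - (L x) • (Complex.I • x) := by
    simp only [u, a, sub_smul, mul_smul, Complex.coe_smul]
  have hLu : L u = 0 := by
    rw [hu, map_sub, L.map_smul (L (Complex.I • x)) x, L.map_smul (L x) (Complex.I • x),
      smul_eq_mul, smul_eq_mul]
    ring
  have hun : 0 < ‖u‖ := norm_pos_iff.2 hu0
  have hxn : 0 < ‖x‖ := norm_pos_iff.2 hx0
  let y : En n := (‖u‖ / (2 * ‖x‖)) • x
  have hyn : ‖y‖ = ‖u‖ / 2 := by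
    simp only [y, norm_smul, Real.norm_eq_abs]
    rw [abs_of_nonneg (by positivity)]
    field_simp
  have hLy : 0 < L y := by
    simp only [y, map_smul, smul_eq_mul]
    positivity
  clear_value u y
  have hlo := hdiff.hasFDerivAt.isLittleO
  have hκ : 0 < L y / (4 * ‖u‖) := by positivity
  have hev := hlo.def hκ
  rw [Metric.eventually_nhds_iff] at hev
  obtain ⟨δ, hδ, hev⟩ := hev
  obtain ⟨r, hr, hrU⟩ := Metric.isOpen_iff.1 hs.opn p hpU
  let t : ℝ := min (min δ r) ε / (4 * ‖u‖)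
  have hm : 0 < min (min δ r) ε := lt_min (lt_min hδ hr) hε
  have ht : 0 < t := by positivity
  have htu : t * (2 * ‖u‖) = min (min δ r) ε / 2 := by
    simp only [t]
    field_simp
    norm_num
  have htu2 : t * (2 * ‖u‖) < min (min δ r) ε := by rw [htu]; linarith
  have hb1 : min (min δ r) ε ≤ δ := (min_le_left _ _).trans (min_le_left _ _)
  have hb2 : min (min δ r) ε ≤ r := (min_le_left _ _).trans (min_le_right _ _)
  have hb3 : min (min δ r) ε ≤ ε := min_le_right _ _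
  -- points
  have hnorm : ∀ θ : ℝ, |θ| ≤ 1 → ‖t • (u + θ • y)‖ < min (min δ r) ε := by
    intro θ hθ
    rw [norm_smul, Real.norm_eq_abs, abs_of_pos ht]
    refine lt_of_le_of_lt (mul_le_mul_of_nonneg_left ?_ ht.le) htu2
    refine (norm_add_le _ _).trans ?_
    rw [norm_smul, Real.norm_eq_abs, hyn]
    nlinarith
  have hval : ∀ θ : ℝ, |θ| ≤ 1 → |ρ (p + t • (u + θ • y)) - t * (θ * L y)| ≤ t * L y / 2 := by
    intro θ hθ
    have h1 := hev (y := p + t • (u + θ • y)) (by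
      rw [dist_eq_norm, add_sub_cancel_left]
      exact (hnorm θ hθ).trans_le hb1)
    rw [add_sub_cancel_left, hρp, sub_zero, ← hLdef, map_smul, map_add, hLu, zero_add, map_smul,
      smul_eq_mul, smul_eq_mul, Real.norm_eq_abs] at h1
    refine h1.trans ?_
    have h2 : ‖t • (u + θ • y)‖ ≤ t * (2 * ‖u‖) := by
      rw [norm_smul, Real.norm_eq_abs, abs_of_pos ht]
      refine mul_le_mul_of_nonneg_left ?_ ht.le
      refine (norm_add_le _ _).trans ?_
      rw [norm_smul, Real.norm_eq_abs, hyn]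
      nlinarith
    refine (mul_le_mul_of_nonneg_left h2 hκ.le).trans (le_of_eq ?_)
    field_simp
    norm_num
  have hplus : 0 < ρ (p + t • (u + (1 : ℝ) • y)) := by
    have h1 := (abs_le.1 (hval 1 (by norm_num))).1
    have h2 := mul_pos ht hLy
    linarith
  have hminus : ρ (p + t • (u + (-1 : ℝ) • y)) < 0 := by
    have h1 := (abs_le.1 (hval (-1) (by norm_num))).2
    have h2 := mul_pos ht hLy
    linarith
  have hU : ∀ θ : ℝ, |θ| ≤ 1 → p + t • (u + θ • y) ∈ U := by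
    intro θ hθ
    apply hrU
    rw [mem_ball, dist_eq_norm, add_sub_cancel_left]
    exact (hnorm θ hθ).trans_le hb2
  have hD : D = {z | z ∈ U ∧ ρ z < 0} := hs.eq
  have hmD : p + t • (u + (-1 : ℝ) • y) ∈ D := by
    rw [hD]; exact ⟨hU _ (by norm_num), hminus⟩
  have hpD : p + t • (u + (1 : ℝ) • y) ∉ D := by
    rw [hD]; exact fun h => absurd h.2 (not_lt.2 hplus.le)
  have hseg : IsPreconnected (segment ℝ (p + t • (u + (-1 : ℝ) • y)) (p + t • (u + (1 : ℝ) • y))) :=
    (convex_segment _ _).isPreconnected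
  obtain ⟨q, hq, hqf⟩ : (segment ℝ (p + t • (u + (-1 : ℝ) • y)) (p + t • (u + (1 : ℝ) • y)) ∩
      frontier D).Nonempty := by
    by_contra hne
    rw [not_nonempty_iff_eq_empty] at hne
    have hnf : ∀ z ∈ segment ℝ (p + t • (u + (-1 : ℝ) • y)) (p + t • (u + (1 : ℝ) • y)),
        z ∉ frontier D := by
      intro z hz hzf
      have : z ∈ (∅ : Set (En n)) := hne ▸ ⟨hz, hzf⟩
      exact this
    obtain ⟨z, -, hz1, hz2⟩ := hseg D (closure D)ᶜ hopn isClosed_closure.isOpen_compl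
      (by
        intro z hz
        by_cases h0 : z ∈ closure D
        · left
          by_contra h1
          refine hnf z hz ⟨h0, ?_⟩
          rwa [hopn.interior_eq]
        · right; exact h0)
      ⟨_, left_mem_segment ℝ _ _, hmD⟩
      ⟨_, right_mem_segment ℝ _ _, fun h0 => hnf _ (right_mem_segment ℝ _ _) ⟨h0, by
        rwa [hopn.interior_eq]⟩⟩
    exact hz2 (subset_closure hz1)
  obtain ⟨α, β, hα, hβ, hαβ, rfl⟩ := hq
  have hqe : α • (p + t • (u + (-1 : ℝ) • y)) + β • (p + t • (u + (1 : ℝ) • y)) =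
      p + t • (u + (β - α) • y) := by
    have : α = 1 - β := by linarith
    subst this
    module
  have hθ : |β - α| ≤ 1 := by
    rw [abs_le]; constructor <;> linarith
  rw [hqe] at hqf
  refine ⟨_, hqf, ?_, ?_⟩
  · intro h0
    have h1 : t • (u + (β - α) • y) = 0 := by
      simpa using h0
    have h2 : u + (β - α) • y = 0 := (smul_eq_zero.1 h1).resolve_left ht.ne'
    have h3 : u = -((β - α) • y) := eq_neg_of_add_eq_zero_left h2
    have h4 : ‖u‖ = |β - α| * (‖u‖ / 2) := by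
      conv_lhs => rw [h3]
      rw [norm_neg, norm_smul, Real.norm_eq_abs, hyn]
    nlinarith
  · rw [add_sub_cancel_left]
    exact (hnorm _ hθ).trans_le hb3

/-- A sequence of boundary points with disjoint neighbourhoods.
PROOF. Choose `P (k + 1)` with `‖P (k + 1) - p‖ < ‖P k - p‖ / 4` (`frontier_near`) and `s k = ‖P k - p‖ / 4`. Then for `j < k`:
`‖P j - P k‖ ≥ ‖P j - p‖ - ‖P k - p‖ ≥ (3/4) ‖P j - p‖ ≥ s j + s k + ...`, so the balls are disjoint, and `ball (P k) (s k)` does not contain `p`. -/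
theorem exists_seq (hn : 1 ≤ n) {D U : Set (En n)} {ρ : En n → ℝ} {h : En n → En n → Fin n → ℂ}
    {c : ℝ} (hs : SupportData D U ρ h c) {p : En n} (hp : p ∈ frontier D) :
    ∃ (P : ℕ → En n) (s : ℕ → ℝ), (∀ k, P k ∈ frontier D) ∧ (∀ k, 0 < s k) ∧
      Tendsto P atTop (𝓝 p) ∧ Tendsto s atTop (𝓝 0) ∧ (∀ k, s k < ‖P k - p‖) ∧
      ∀ j k, j ≠ k → Disjoint (ball (P j) (s j)) (ball (P k) (s k)) := by
  have hstep : ∀ q : {q : En n // q ∈ frontier D ∧ q ≠ p}, ∃ q' : {q : En n // q ∈ frontier D ∧ q ≠ p},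
      ‖q'.1 - p‖ < ‖q.1 - p‖ / 4 := by
    intro q
    have h0 : 0 < ‖q.1 - p‖ := norm_pos_iff.2 (sub_ne_zero.2 q.2.2)
    obtain ⟨q', h1, h2, h3⟩ := frontier_near hn hs hp (‖q.1 - p‖ / 4) (by positivity)
    exact ⟨⟨q', h1, h2⟩, h3⟩
  choose g hg using hstep
  obtain ⟨q0, h1, h2, -⟩ := frontier_near hn hs hp 1 one_pos
  let Q : ℕ → {q : En n // q ∈ frontier D ∧ q ≠ p} := fun k => Nat.rec ⟨q0, h1, h2⟩ (fun _ q => g q) k
  have hQ : ∀ k, ‖(Q (k + 1)).1 - p‖ < ‖(Q k).1 - p‖ / 4 := fun k => hg (Q k)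
  have hpos : ∀ k, 0 < ‖(Q k).1 - p‖ := fun k => norm_pos_iff.2 (sub_ne_zero.2 (Q k).2.2)
  have hanti : ∀ j k, j < k → ‖(Q k).1 - p‖ < ‖(Q j).1 - p‖ / 4 := by
    intro j k hjk
    induction k, hjk using Nat.le_induction with
    | base => exact hQ j
    | succ k hk ih =>
      have := hQ k
      have := hpos k
      linarith
  have hgeo : ∀ k, ‖(Q k).1 - p‖ ≤ ‖(Q 0).1 - p‖ * (1 / 4) ^ k := by
    intro k
    induction k with
    | zero => simp
    | succ k ih =>
      have := hQ k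
      rw [pow_succ]
      linarith
  have hlim : Tendsto (fun k => ‖(Q k).1 - p‖) atTop (𝓝 0) := by
    have h3 : Tendsto (fun k : ℕ => ‖(Q 0).1 - p‖ * (1 / 4 : ℝ) ^ k) atTop (𝓝 (‖(Q 0).1 - p‖ * 0)) :=
      (tendsto_pow_atTop_nhds_zero_of_lt_one (by norm_num) (by norm_num)).const_mul _
    rw [mul_zero] at h3
    exact squeeze_zero (fun k => norm_nonneg _) hgeo h3
  refine ⟨fun k => (Q k).1, fun k => ‖(Q k).1 - p‖ / 4, fun k => (Q k).2.1, fun k => ?_, ?_, ?_,
    fun k => ?_, ?_⟩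
  · have := hpos k
    positivity
  · exact tendsto_iff_norm_sub_tendsto_zero.2 hlim
  · simpa using hlim.div_const 4
  · have := hpos k
    linarith
  · have key : ∀ j k, j < k →
        Disjoint (ball (Q j).1 (‖(Q j).1 - p‖ / 4)) (ball (Q k).1 (‖(Q k).1 - p‖ / 4)) := by
      intro j k hjk
      apply ball_disjoint_ball
      have h3 := hanti j k hjk
      have h4 := hpos j
      have h5 : ‖(Q j).1 - p‖ ≤ dist (Q j).1 (Q k).1 + ‖(Q k).1 - p‖ := by
        rw [dist_eq_norm]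
        have := norm_add_le ((Q j).1 - (Q k).1) ((Q k).1 - p)
        rwa [sub_add_sub_cancel] at this
      linarith
    intro j k hjk
    rcases lt_or_gt_of_ne hjk with h | h
    · exact key j k h
    · exact (key k j h).symm

end Pool.Agent.MPca0fc2.TB
end

section

/-!
Task CX IdA: regularity of the functions in the homotopy identity.
PROOFS: `hasDerivAt_pos_pow`: for `s > 0`, `s < 0` locally equal to `s ^ m`, `0`; at `0`:
`|(max h 0)^m| ≤ |h|^2` near `0` (m ≥ 2). `db_Av`: `db_sum`, `db_mul`, `xv z · a` is constant or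
`y j - z j` (`db_const`, `db_coord`). `ff_omk_differentiableAt`: `fp` is a quotient, the numerator is
differentiable by `hasDerivAt_pos_pow` composed with `Re (θ · 0)`, `Av θ z` is differentiable;
`Omk` is a determinant (`det_differentiableAt`) of the entries `θ a`, `db k (θ a)`
(differentiable by `contDiff_db`), `η a`.
-/

set_option autoImplicit false

open Metric Set MeasureTheory Filter Topology
open scoped ComplexOrder

namespace Pool.Agent.MPca0fc2.CX

variable {n : ℕ}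

/-- The positive part to a power `≥ 2` is continuously differentiable. -/
theorem hasDerivAt_pos_pow {m : ℕ} (hm : 2 ≤ m) (s : ℝ) :
    HasDerivAt (fun s : ℝ => (max s 0) ^ m) (m * (max s 0) ^ (m - 1)) s := by
  rcases lt_trichotomy s 0 with hs | hs | hs
  · have h1 : (fun s : ℝ => (max s 0) ^ m) =ᶠ[𝓝 s] fun _ => (0 : ℝ) := by
      filter_upwards [eventually_lt_nhds hs] with x hx
      rw [max_eq_right hx.le, zero_pow (by omega)]
    have h2 : (m : ℝ) * (max s 0) ^ (m - 1) = 0 := by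
      rw [max_eq_right hs.le, zero_pow (by omega), mul_zero]
    rw [h2]
    exact (hasDerivAt_const s (0 : ℝ)).congr_of_eventuallyEq h1
  · subst hs
    have h2 : (m : ℝ) * (max (0 : ℝ) 0) ^ (m - 1) = 0 := by
      rw [max_self, zero_pow (by omega), mul_zero]
    rw [h2, hasDerivAt_iff_isLittleO, Asymptotics.isLittleO_iff]
    intro c hc
    have hcont : ContinuousAt (fun x : ℝ => (max x 0) ^ (m - 1)) 0 := by fun_prop
    have h0 : (fun x : ℝ => (max x 0) ^ (m - 1)) 0 = 0 := by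
      show (max (0 : ℝ) 0) ^ (m - 1) = 0
      rw [max_self, zero_pow (by omega)]
    have h3 : ∀ᶠ x : ℝ in 𝓝 0, (max x 0) ^ (m - 1) < c := by
      have := hcont.eventually_lt continuousAt_const (by rw [h0]; exact hc :
        (fun x : ℝ => (max x 0) ^ (m - 1)) 0 < (fun _ : ℝ => c) 0)
      exact this
    filter_upwards [h3] with x hx
    rw [max_self, zero_pow (by omega : m ≠ 0), sub_zero, sub_zero, smul_zero, sub_zero,
      Real.norm_eq_abs, Real.norm_eq_abs]
    have hx0 : 0 ≤ max x 0 := le_max_right _ _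
    rw [abs_of_nonneg (pow_nonneg hx0 m)]
    have e1 : (max x 0) ^ m = (max x 0) ^ (m - 1) * max x 0 := by
      rw [← pow_succ, Nat.sub_add_cancel (by omega)]
    have e2 : max x 0 ≤ |x| := max_le (le_abs_self x) (abs_nonneg x)
    rw [e1]
    exact mul_le_mul hx.le e2 hx0 hc.le
  · have h1 : (fun s : ℝ => (max s 0) ^ m) =ᶠ[𝓝 s] fun s => s ^ m := by
      filter_upwards [eventually_gt_nhds hs] with x hx
      rw [max_eq_left (le_of_lt hx)]
    rw [max_eq_left hs.le]
    exact (hasDerivAt_pow m s).congr_of_eventuallyEq h1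

theorem lin_contDiff {θ η : En n → Fin (n + 1) → ℂ} (hθ : ∀ a, ContDiff ℝ 2 fun w => θ w a)
    (hη : ∀ a, ContDiff ℝ 2 fun w => η w a) (t : ℝ) (a : Fin (n + 1)) :
    ContDiff ℝ 2 fun w => lin θ η t w a := by
  exact (hθ a).add (contDiff_const.mul (hη a))

theorem idA_xv_diff (z w : En n) (a : Fin (n + 1)) :
    DifferentiableAt ℝ (fun y => xv z y a) w := by
  induction a using Fin.cases with
  | zero => exact differentiableAt_const _
  | succ j =>
    have h1 : DifferentiableAt ℝ (fun y : En n => y j) w :=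
      ((EuclideanSpace.proj j : En n →L[ℂ] ℂ).restrictScalars ℝ).differentiableAt
    exact h1.sub_const _

theorem idA_xv_db (z w : En n) (k : Fin n) (a : Fin (n + 1)) :
    db k (fun y => xv z y a) w = 0 := by
  induction a using Fin.cases with
  | zero => exact db_const k 1 w
  | succ j => exact db_coord j k z w

/-- `db k A = (∂̄_k θ) · x` -/
theorem db_Av {θ : En n → Fin (n + 1) → ℂ} (hθ : ∀ a, ContDiff ℝ 2 fun w => θ w a) (z w : En n)
    (k : Fin n) : db k (fun y => Av θ z y) w =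
      ∑ a, db k (fun y => θ y a) w * xv z w a := by
  have hd : ∀ a, DifferentiableAt ℝ (fun y => θ y a) w := fun a =>
    ((hθ a).differentiable (by norm_num)) w
  unfold Av
  refine (db_sum (s := Finset.univ) (F := fun a y => θ y a * xv z y a) k
    (fun a _ => (hd a).mul (idA_xv_diff z w a))).trans ?_
  refine Finset.sum_congr rfl fun a _ => ?_
  rw [db_mul k (hd a) (idA_xv_diff z w a), idA_xv_db, mul_zero, add_zero]

theorem ff_omk_differentiableAt {m : ℕ} (hm : 2 ≤ m) {θ η : En n → Fin (n + 1) → ℂ}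
    (hθ : ∀ a, ContDiff ℝ 2 fun w => θ w a) (hη : ∀ a, ContDiff ℝ 2 fun w => η w a) (z w : En n)
    (hA : Av θ z w ≠ 0) (k : Fin n) :
    DifferentiableAt ℝ (fun y => fp m θ z y * Omk θ η k y) w := by
  have hd : ∀ a, DifferentiableAt ℝ (fun y => θ y a) w := fun a =>
    ((hθ a).differentiable (by norm_num)) w
  have hAd : DifferentiableAt ℝ (fun y => Av θ z y) w := by
    unfold Av
    exact DifferentiableAt.fun_sum fun a _ => (hd a).mul (idA_xv_diff z w a)
  refine DifferentiableAt.mul ?_ ?_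
  · have h1 : DifferentiableAt ℝ (fun y => (θ y 0).re) w :=
      Complex.reCLM.differentiableAt.comp w (hd 0)
    have h2 : DifferentiableAt ℝ (fun y => (max (θ y 0).re 0) ^ m) w :=
      DifferentiableAt.comp (g := fun s : ℝ => (max s 0) ^ m) (f := fun y => (θ y 0).re) w
        ((hasDerivAt_pos_pow hm ((θ w 0).re)).differentiableAt) h1
    have h3 : DifferentiableAt ℝ (fun y => (((max (θ y 0).re 0) ^ m : ℝ) : ℂ)) w :=
      Complex.ofRealCLM.differentiableAt.comp w h2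
    have h4 : DifferentiableAt ℝ (fun y => (Av θ z y) ^ (m + n + 1)) w := hAd.pow _
    have h5 : DifferentiableAt ℝ (fun x : ℂ => x⁻¹) ((Av θ z w) ^ (m + n + 1)) :=
      ((hasDerivAt_inv (𝕜 := ℂ) (pow_ne_zero (m + n + 1) hA)).differentiableAt).restrictScalars ℝ
    have h6 : DifferentiableAt ℝ (fun y => ((Av θ z y) ^ (m + n + 1))⁻¹) w := h5.comp w h4
    have h7 := h3.mul h6
    have h8 : fp m θ z = fun y => (((max (θ y 0).re 0) ^ m : ℝ) : ℂ) *
        ((Av θ z y) ^ (m + n + 1))⁻¹ := by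
      funext y
      unfold fp
      rw [div_eq_mul_inv]
    rw [h8]
    exact h7
  · unfold Omk
    refine det_differentiableAt fun i j => ?_
    simp only [Matrix.updateCol_apply]
    by_cases hj : j = k.succ
    · simp only [hj, if_true]
      exact ((hη i).differentiable (by norm_num)) w
    · simp only [hj, if_false]
      unfold mt
      simp only [Matrix.of_apply]
      induction j using Fin.cases with
      | zero => exact hd i
      | succ l =>
        have h1 : ContDiff ℝ ((1 : ℕ) : WithTop ℕ∞) (db l fun y => θ y i) :=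
          contDiff_db (m := 1) l (by exact_mod_cast hθ i)
        exact (h1.differentiable (by norm_num)) w

end Pool.Agent.MPca0fc2.CX
end

section

/-!
Task CX IdB: the homotopy identity.
PROOF. Put `θ' = lin θ η t`, `x = xv z w`, `A = Av θ' z w`, `φ = ((max (θ' w 0).re 0)^m : ℝ)`,
`φ' = (m (max (θ' w 0).re 0)^(m-1) : ℝ)`; then `θ' w 0 * φ' = m * φ` (the imaginary part of
`θ' w 0` is `0`; if the real part is `≤ 0` both sides vanish since `m ≥ 2`).
`v k a = db k (θ' · a) w`, `u k a = db k (η · a) w`, `S k l a = db k (fun y => db l (θ' · a) y) w`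
(symmetric by `db_symm`). Left side: `fp m (lin θ η s) z w` has at `s = t` the derivative
`φ' η_0 / A^M - M φ (∑ η_a x_a) / A^(M+1)`, the matrix `mt (lin θ η s) w` has entries linear in `s`
(`db k (lin θ η s · a) w = db k (θ · a) w + s * db k (η · a) w`), use `hasDerivAt_det`; `mt θ' w =
cm (θ' w) v`. Right side: `db_mul`, `db` of `fp` (quotient: `db_comp`, `db_comp_real`, `db_Av`) and
`db_det` for `Omk`: the entries of the columns are `θ' a`, `η a` (column `k.succ`), `db l θ' a`.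
Then it is `hom_id` of the file `CXAlgB`.
-/

set_option autoImplicit false

open Metric Set MeasureTheory Filter Topology
open scoped ComplexOrder

namespace Pool.Agent.MPca0fc2.CX

variable {n : ℕ}

theorem idB_real {θ η : En n → Fin (n + 1) → ℂ} (hθr : ∀ w, (θ w 0).im = 0)
    (hηr : ∀ w, (η w 0).im = 0) (t : ℝ) (w : En n) : (lin θ η t w 0).im = 0 := by
  simp [lin, hθr w, hηr w]

theorem idB_re_eq {c : ℂ} (h : c.im = 0) : ((c.re : ℝ) : ℂ) = c := by
  apply Complex.ext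
  · simp
  · simp [h]

theorem idB_diff {f : En n → ℂ} (hf : ContDiff ℝ 2 f) (w : En n) : DifferentiableAt ℝ f w :=
  (hf.differentiable (by norm_num)) w

theorem idB_diff_db {f : En n → ℂ} (hf : ContDiff ℝ 2 f) (l : Fin n) (w : En n) :
    DifferentiableAt ℝ (fun y => db l f y) w := by
  have h : ContDiff ℝ ((1 : ℕ) : WithTop ℕ∞) (db l f) := contDiff_db (m := 1) l (by
    have : ((1 + 1 : ℕ) : WithTop ℕ∞) = 2 := by norm_num
    rw [this]
    exact hf)
  exact (h.differentiable (by norm_num)) w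

theorem idB_hphi {m : ℕ} (hm : 2 ≤ m) {c : ℂ} (h : c.im = 0) :
    c * ((m * (max c.re 0) ^ (m - 1) : ℝ) : ℂ) = m * (((max c.re 0) ^ m : ℝ) : ℂ) := by
  rw [← idB_re_eq h]
  rw [Complex.ofReal_re]
  rcases le_or_gt c.re 0 with h0 | h0
  · rw [max_eq_right h0, zero_pow (by omega), zero_pow (by omega)]
    simp
  · rw [max_eq_left h0.le]
    have : c.re ^ m = c.re * c.re ^ (m - 1) := by
      rw [← pow_succ']
      congr 1
      omega
    rw [this]
    push_cast
    ring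

/-- the derivative of the first factor in the parameter -/
theorem idB_fp {m : ℕ} (hm : 2 ≤ m) {θ η : En n → Fin (n + 1) → ℂ}
    (hηr : ∀ w, (η w 0).im = 0) (z w : En n) (t : ℝ)
    (hA : Av (lin θ η t) z w ≠ 0) :
    HasDerivAt (fun s : ℝ => fp m (lin θ η s) z w)
      (((m * (max (lin θ η t w 0).re 0) ^ (m - 1) : ℝ) : ℂ) * η w 0 /
          (Av (lin θ η t) z w) ^ (m + n + 1) -
        (m + n + 1 : ℕ) * (((max (lin θ η t w 0).re 0) ^ m : ℝ) : ℂ) *
          (∑ a, η w a * xv z w a) / (Av (lin θ η t) z w) ^ (m + n + 2)) t := by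
  have h1 : HasDerivAt (fun s : ℝ => (lin θ η s w 0).re) (η w 0).re t := by
    have e : (fun s : ℝ => (lin θ η s w 0).re) = fun s => (θ w 0).re + s * (η w 0).re := by
      funext s
      simp [lin]
    rw [e]
    simpa using ((hasDerivAt_id t).mul_const (η w 0).re).const_add (θ w 0).re
  have h2 : HasDerivAt (fun s : ℝ => (max (lin θ η s w 0).re 0) ^ m)
      (m * (max (lin θ η t w 0).re 0) ^ (m - 1) * (η w 0).re) t :=
    (hasDerivAt_pos_pow hm _).comp t h1
  have h3 : HasDerivAt (fun s : ℝ => (((max (lin θ η s w 0).re 0) ^ m : ℝ) : ℂ))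
      (((m * (max (lin θ η t w 0).re 0) ^ (m - 1) : ℝ) : ℂ) * η w 0) t := by
    have := h2.ofReal_comp
    convert this using 1
    push_cast
    rw [idB_re_eq (hηr w)]
  have h4 : HasDerivAt (fun s : ℝ => Av (lin θ η s) z w) (∑ a, η w a * xv z w a) t := by
    unfold Av
    refine HasDerivAt.fun_sum fun a _ => ?_
    have h5 : HasDerivAt (fun s : ℝ => lin θ η s w a) (η w a) t := by
      unfold lin
      have h6 : HasDerivAt (fun s : ℝ => (s : ℂ)) 1 t := Complex.ofRealCLM.hasDerivAt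
      simpa using (h6.mul_const (η w a)).const_add (θ w a)
    exact h5.mul_const _
  have h5 := h4.fun_pow (m + n + 1)
  have h6 := h3.fun_div h5 (pow_ne_zero _ hA)
  unfold fp
  refine h6.congr_deriv ?_
  have hs : m + n + 1 - 1 = m + n := by omega
  rw [hs]
  field_simp
  ring

/-- the `db` derivative of the first factor -/
theorem idB_db_fp {m : ℕ} (hm : 2 ≤ m) {Θ : En n → Fin (n + 1) → ℂ}
    (hΘ : ∀ a, ContDiff ℝ 2 fun w => Θ w a) (hr : ∀ w, (Θ w 0).im = 0) (z w : En n)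
    (hA : Av Θ z w ≠ 0) (k : Fin n) :
    db k (fun y => fp m Θ z y) w =
      ((m * (max (Θ w 0).re 0) ^ (m - 1) : ℝ) : ℂ) * db k (fun y => Θ y 0) w /
          (Av Θ z w) ^ (m + n + 1) -
        (m + n + 1 : ℕ) * (((max (Θ w 0).re 0) ^ m : ℝ) : ℂ) *
          (∑ a, db k (fun y => Θ y a) w * xv z w a) / (Av Θ z w) ^ (m + n + 2) ∧
    DifferentiableAt ℝ (fun y => fp m Θ z y) w := by
  have hre : DifferentiableAt ℝ (fun y => (Θ y 0).re) w :=
    Complex.reCLM.differentiableAt.comp w (idB_diff (hΘ 0) w)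
  have hAd : DifferentiableAt ℝ (fun y => Av Θ z y) w := by
    unfold Av
    refine DifferentiableAt.fun_sum fun a _ => (idB_diff (hΘ a) w).mul ?_
    unfold xv
    refine Fin.cases ?_ (fun j => ?_) a
    · simp only [Fin.cons_zero]
      exact differentiableAt_const _
    · simp only [Fin.cons_succ]
      have : DifferentiableAt ℝ (fun y : En n => y j) w := by
        fun_prop
      exact this.sub_const _
  have h1 := db_comp_real k (hasDerivAt_pos_pow hm (Θ w 0).re) hre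
  have h1' : (fun y => (((Θ y 0).re : ℝ) : ℂ)) = fun y => Θ y 0 := by
    funext y
    exact idB_re_eq (hr y)
  rw [h1'] at h1
  have hnd : DifferentiableAt ℝ (fun y => (((max (Θ y 0).re 0) ^ m : ℝ) : ℂ)) w := by
    have := ((hasDerivAt_pos_pow hm (Θ w 0).re).differentiableAt).comp w hre
    exact Complex.ofRealCLM.differentiableAt.comp w this
  have hφ : HasDerivAt (fun ζ : ℂ => (ζ ^ (m + n + 1))⁻¹)
      (-((m + n + 1 : ℕ) : ℂ) / (Av Θ z w) ^ (m + n + 2)) (Av Θ z w) := by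
    have h2 := (hasDerivAt_pow (m + n + 1) (Av Θ z w)).fun_inv (pow_ne_zero _ hA)
    refine h2.congr_deriv ?_
    have hs : m + n + 1 - 1 = m + n := by omega
    rw [hs]
    field_simp
    ring
  have h2 := db_comp k hφ hAd
  rw [db_Av hΘ] at h2
  have hdd : DifferentiableAt ℝ (fun y => ((Av Θ z y) ^ (m + n + 1))⁻¹) w :=
    (hAd.fun_pow _).fun_inv (pow_ne_zero _ hA)
  have e : (fun y => fp m Θ z y) = fun y => (((max (Θ y 0).re 0) ^ m : ℝ) : ℂ) *
      ((Av Θ z y) ^ (m + n + 1))⁻¹ := by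
    funext y
    unfold fp
    rw [div_eq_mul_inv]
  constructor
  · rw [e, db_mul k hnd hdd, h1, h2]
    field_simp
    ring
  · rw [e]
    exact hnd.mul hdd

/-- The homotopy identity. -/
theorem ident {m : ℕ} (hm : 2 ≤ m) {θ η : En n → Fin (n + 1) → ℂ}
    (hθ : ∀ a, ContDiff ℝ 2 fun w => θ w a) (hη : ∀ a, ContDiff ℝ 2 fun w => η w a)
    (hθr : ∀ w, (θ w 0).im = 0) (hηr : ∀ w, (η w 0).im = 0) (z w : En n) (t : ℝ)
    (hA : Av (lin θ η t) z w ≠ 0) :
    HasDerivAt (fun s : ℝ => fp m (lin θ η s) z w * Om (lin θ η s) w)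
      (∑ k, db k (fun y => fp m (lin θ η t) z y * Omk (lin θ η t) η k y) w) t := by
  have hΘ : ∀ a, ContDiff ℝ 2 fun w => lin θ η t w a := lin_contDiff hθ hη t
  have hr := idB_real hθr hηr t
  have hd : HasDerivAt (fun s : ℝ => Om (lin θ η s) w)
      (∑ b, ((cm (lin θ η t w) fun k a => db k (fun y => lin θ η t y a) w).updateCol b
        (Fin.cases (η w) (fun k a => db k (fun y => η y a) w) b)).det) t := by
    have h := hasDerivAt_det (M := fun s => mt (lin θ η s) w)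
      (M' := Matrix.of fun a b => (Fin.cases (η w) (fun k a => db k (fun y => η y a) w) b :
        Fin (n + 1) → ℂ) a) (t := t) ?_
    · exact h
    · intro a b
      refine Fin.cases ?_ (fun k => ?_) b
      · show HasDerivAt (fun s : ℝ => lin θ η s w a) (η w a) t
        unfold lin
        have h6 : HasDerivAt (fun s : ℝ => (s : ℂ)) 1 t := Complex.ofRealCLM.hasDerivAt
        simpa using (h6.mul_const (η w a)).const_add (θ w a)
      · show HasDerivAt (fun s : ℝ => db k (fun y => lin θ η s y a) w)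
          (db k (fun y => η y a) w) t
        have e : (fun s : ℝ => db k (fun y => lin θ η s y a) w) = fun s : ℝ =>
            db k (fun y => θ y a) w + (s : ℂ) * db k (fun y => η y a) w := by
          funext s
          unfold lin
          rw [db_add k (idB_diff (hθ a) w) ((idB_diff (hη a) w).const_mul _),
            db_const_mul k _ (idB_diff (hη a) w)]
        rw [e]
        have h6 : HasDerivAt (fun s : ℝ => (s : ℂ)) 1 t := Complex.ofRealCLM.hasDerivAt
        simpa using (h6.mul_const (db k (fun y => η y a) w)).const_add (db k (fun y => θ y a) w)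
  have hL := (idB_fp hm hηr z w t hA).fun_mul hd
  refine hL.congr_deriv ?_
  have hid := hom_id (m := m) (lin θ η t w) (η w) (xv z w)
    (fun k a => db k (fun y => lin θ η t y a) w) (fun k a => db k (fun y => η y a) w)
    (fun k l a => db k (fun y => db l (fun y' => lin θ η t y' a) y) w)
    (fun k l => by
      funext a
      exact db_symm (hΘ a) k l w)
    (((max (lin θ η t w 0).re 0) ^ m : ℝ) : ℂ)
    ((m * (max (lin θ η t w 0).re 0) ^ (m - 1) : ℝ) : ℂ) (Av (lin θ η t) z w)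
    (idB_hphi hm (hr w)) rfl hA
  refine Eq.trans ?_ (hid.trans ?_)
  · rfl
  · refine Finset.sum_congr rfl fun k _ => ?_
    have hO : DifferentiableAt ℝ (fun y => Omk (lin θ η t) η k y) w ∧
        db k (fun y => Omk (lin θ η t) η k y) w =
        ∑ b, ((((cm (lin θ η t w) fun k a => db k (fun y => lin θ η t y a) w)).updateCol k.succ
          (η w)).updateCol b (Fin.cases (fun a => db k (fun y => lin θ η t y a) w)
            (fun l => if l = k then (fun a => db k (fun y => η y a) w) else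
              (fun a => db k (fun y => db l (fun y' => lin θ η t y' a) y) w)) b)).det := by
      have hent : ∀ i j, DifferentiableAt ℝ
          (fun y => ((mt (lin θ η t) y).updateCol k.succ (η y)) i j) w := by
        intro i j
        by_cases hj : j = k.succ
        · subst hj
          simp only [Matrix.updateCol_self]
          exact idB_diff (hη i) w
        · simp only [Matrix.updateCol_ne hj]
          revert hj
          refine Fin.cases (fun _ => ?_) (fun l _ => ?_) j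
          · exact idB_diff (hΘ i) w
          · exact idB_diff_db (hΘ i) l w
      refine ⟨det_differentiableAt hent, ?_⟩
      have h := db_det k hent
      refine h.trans (Finset.sum_congr rfl fun b _ => ?_)
      congr 2
      funext a
      refine Fin.cases ?_ (fun l => ?_) b
      · simp only [Matrix.updateCol_ne (Fin.succ_ne_zero k).symm]
        rfl
      · by_cases hl : l = k
        · subst hl
          simp
        · have hl' : l.succ ≠ k.succ := fun h => hl (Fin.succ_injective _ h)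
          simp only [Matrix.updateCol_ne hl', Fin.cases_succ, if_neg hl]
          rfl
    obtain ⟨hfp, hfd⟩ := idB_db_fp hm hΘ hr z w hA k
    rw [db_mul k hfd hO.1, hfp, hO.2]
    rfl

end Pool.Agent.MPca0fc2.CX
end

section

/-!
Task CX HomA: regularity of the function in the integration by parts.
PROOFS. `pos_le`: the function `w ↦ (lin θ η t w 0).re = (1 - t) θ_0 + t (θ_0 + η_0)` is `≤ 0` outside
of `D` and Lipschitz, uniformly in `t`, on the compact ball of radius `R + 1` (`R` bounds `D`); if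
`r ≤ 1` then `y` is in it; if `r > 1` the value is bounded by a constant `≤ L ≤ L r`.
`diff_V`: let `V` be the function (`t` is fixed). (a) If `w ∉ tsupport χ`: `χ = 0` near `w`, so `V = 0`
near `w`. (b) If `w ∉ D` and `w ∈ tsupport χ ⊆ U`: near `w` (in `U`) we have
`‖V w'‖ ≤ C ‖w' - w‖ ^ m` (for `w' ∉ D` the factor `max (..) 0 ^ m` vanishes, `m ≥ 1`; for `w' ∈ D` use
`pos_le` with `y = w`, `c ≤ ‖Av‖`, `‖Φ‖ ≤ M`, and the local boundedness of `χ`, `Omk` (continuous)),
hence `V w = 0` and the derivative is `0` as `m ≥ 2`. (c) If `w ∈ D ∩ U`: product of differentiable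
functions (`ff_omk_differentiableAt`, `Φ` is complex differentiable; `Av (lin θ η t) z w ≠ 0`).
The bound of the derivative in case (c), `w ∈ tsupport χ`: the derivatives of `χ`, `Omk`, `Av`,
`(lin θ η t · 0)` are bounded on the bounded set `D` (continuous functions on a compact ball),
`c ≤ ‖Av‖`, the function `(max s 0)^m` is `C¹`; `‖Φ‖ ≤ M`, and `‖fderiv ℂ Φ w‖ ≤ 2 M / d`, where
`d = min d' d₀`, `d'` = distance to `Dᶜ` (or `1` if that is larger), `d₀` = distance of `tsupport χ`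
and `Uᶜ` (Lib file `Holo`: `norm_fderiv_apply_le` on a ball of radius `d`, which is in `D ∩ U`), while
`‖fp‖ ≤ C (L r)^m` for every `r > d'` (`pos_le`), so that the product is bounded.
You may split `diff_V` in lemmas as you like.
-/

set_option autoImplicit false

open Metric Set MeasureTheory Filter Topology
open scoped ComplexOrder

namespace Pool.Agent.MPca0fc2.CX

variable {n : ℕ}

/-- The standing hypotheses: two sections `θ`, `θ + η` on a bounded open set `D`, whose components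
`0` are real and are not positive outside of `D`; `A ≠ 0` on `D` during the homotopy. -/
structure HomData (D : Set (En n)) (z : En n) (θ η : En n → Fin (n + 1) → ℂ) : Prop where
  op : IsOpen D
  bdd : ∃ R : ℝ, ∀ w ∈ D, ‖w‖ ≤ R
  cθ : ∀ a, ContDiff ℝ 2 fun w => θ w a
  cη : ∀ a, ContDiff ℝ 2 fun w => η w a
  rθ : ∀ w, (θ w 0).im = 0
  rη : ∀ w, (η w 0).im = 0
  out0 : ∀ w, w ∉ D → (θ w 0).re ≤ 0
  out1 : ∀ w, w ∉ D → (θ w 0).re + (η w 0).re ≤ 0
  A0 : ∃ c : ℝ, 0 < c ∧ ∀ w ∈ D, ∀ t ∈ Icc (0 : ℝ) 1, c ≤ ‖Av (lin θ η t) z w‖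

/-- The data of the integrand: a bounded holomorphic function on `D ∩ U` and a cut-off with support
in `U`. -/
structure CutData (D U : Set (En n)) (Φ : En n → ℂ) (χ : En n → ℝ) : Prop where
  op : IsOpen U
  hol : DifferentiableOn ℂ Φ (D ∩ U)
  bd : ∃ M : ℝ, ∀ w ∈ D ∩ U, ‖Φ w‖ ≤ M
  sm : ContDiff ℝ 1 χ
  cpt : HasCompactSupport χ
  supp : tsupport χ ⊆ U


/-- A `C¹` function is bounded with its derivative on balls. -/
theorem homA_bdd {F : Type*} [NormedAddCommGroup F] [NormedSpace ℝ F] {u : En n → F}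
    (hu : ContDiff ℝ 1 u) (R : ℝ) :
    ∃ L : ℝ, 0 ≤ L ∧ ∀ x, ‖x‖ ≤ R → ‖u x‖ ≤ L ∧ ‖fderiv ℝ u x‖ ≤ L := by
  obtain ⟨C1, h1⟩ := (isCompact_closedBall (0 : En n) R).exists_bound_of_continuousOn
    (f := u) hu.continuous.continuousOn
  obtain ⟨C2, h2⟩ := (isCompact_closedBall (0 : En n) R).exists_bound_of_continuousOn
    (f := fderiv ℝ u) (hu.continuous_fderiv one_ne_zero).continuousOn
  refine ⟨max 0 (max C1 C2), le_max_left _ _, fun x hx => ?_⟩
  have hx' : x ∈ closedBall (0 : En n) R := by simpa using hx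
  exact ⟨(h1 x hx').trans ((le_max_left _ _).trans (le_max_right _ _)),
    (h2 x hx').trans ((le_max_right _ _).trans (le_max_right _ _))⟩

/-- A `C¹` function is Lipschitz on balls. -/
theorem homA_lip {F : Type*} [NormedAddCommGroup F] [NormedSpace ℝ F] {u : En n → F}
    (hu : ContDiff ℝ 1 u) (R : ℝ) :
    ∃ L : ℝ, 0 ≤ L ∧ (∀ x, ‖x‖ ≤ R → ‖u x‖ ≤ L) ∧
      ∀ x y, ‖x‖ ≤ R → ‖y‖ ≤ R → ‖u x - u y‖ ≤ L * ‖x - y‖ := by
  obtain ⟨L, hL0, hL⟩ := homA_bdd hu R
  refine ⟨L, hL0, fun x hx => (hL x hx).1, fun x y hx hy => ?_⟩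
  refine Convex.norm_image_sub_le_of_norm_fderiv_le (𝕜 := ℝ) (s := closedBall (0 : En n) R)
    (fun w _ => (hu.differentiable one_ne_zero) w) (fun w hw => (hL w (by simpa using hw)).2)
    (convex_closedBall _ _) (by simpa using hy) (by simpa using hx)

theorem homA_lin_re (θ η : En n → Fin (n + 1) → ℂ) (t : ℝ) (w : En n) :
    (lin θ η t w 0).re = (θ w 0).re + t * (η w 0).re := by
  simp [lin]

/-- The positive part of `lin θ η t · 0` is at most a constant times the distance to the complement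
of `D`. -/
theorem HomData.pos_le {D : Set (En n)} {z : En n} {θ η : En n → Fin (n + 1) → ℂ}
    (h : HomData D z θ η) : ∃ L : ℝ, 0 ≤ L ∧ ∀ t ∈ Icc (0 : ℝ) 1, ∀ w ∈ D, ∀ r : ℝ, 0 < r →
      (∃ y, y ∉ D ∧ ‖y - w‖ ≤ r) → max (lin θ η t w 0).re 0 ≤ L * r := by
  obtain ⟨R, hR⟩ := h.bdd
  have hu0 : ContDiff ℝ 1 fun w => (θ w 0).re :=
    Complex.reCLM.contDiff.comp ((h.cθ 0).of_le (by norm_num))
  have hu1 : ContDiff ℝ 1 fun w => (η w 0).re :=
    Complex.reCLM.contDiff.comp ((h.cη 0).of_le (by norm_num))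
  obtain ⟨L0, hL00, hb0, hl0⟩ := homA_lip hu0 (R + 1)
  obtain ⟨L1, hL10, hb1, hl1⟩ := homA_lip hu1 (R + 1)
  refine ⟨L0 + L1, by positivity, fun t ht w hw r hr hy => ?_⟩
  obtain ⟨y, hy, hyw⟩ := hy
  have hwR : ‖w‖ ≤ R + 1 := (hR w hw).trans (by linarith)
  have hpos : 0 ≤ (L0 + L1) * r := by positivity
  refine max_le ?_ hpos
  rw [homA_lin_re]
  rcases le_or_gt r 1 with h1 | h1
  · have hyR : ‖y‖ ≤ R + 1 := by
      calc ‖y‖ = ‖(y - w) + w‖ := by congr 1; abel
        _ ≤ ‖y - w‖ + ‖w‖ := norm_add_le _ _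
        _ ≤ R + 1 := by linarith [hR w hw]
    have e0 := hl0 w y hwR hyR
    have e1 := hl1 w y hwR hyR
    rw [norm_sub_rev w y] at e0 e1
    have o0 := h.out0 y hy
    have o1 := h.out1 y hy
    rw [Real.norm_eq_abs] at e0 e1
    have e0' := (abs_le.mp e0).2
    have e1' := (abs_le.mp e1).2
    have a0 : L0 * ‖y - w‖ ≤ L0 * r := mul_le_mul_of_nonneg_left hyw hL00
    have a1 : L1 * ‖y - w‖ ≤ L1 * r := mul_le_mul_of_nonneg_left hyw hL10
    have hf : (θ y 0).re + t * (η y 0).re ≤ 0 := by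
      have : (θ y 0).re + t * (η y 0).re =
        (1 - t) * (θ y 0).re + t * ((θ y 0).re + (η y 0).re) := by ring
      rw [this]
      have h3 : (1 - t) * (θ y 0).re ≤ 0 :=
        mul_nonpos_of_nonneg_of_nonpos (by linarith [ht.2]) o0
      have h4 : t * ((θ y 0).re + (η y 0).re) ≤ 0 :=
        mul_nonpos_of_nonneg_of_nonpos ht.1 o1
      linarith
    have h5 : t * ((η w 0).re - (η y 0).re) ≤ L1 * r := by
      have h6 : (η w 0).re - (η y 0).re ≤ L1 * r := e1'.trans a1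
      calc t * ((η w 0).re - (η y 0).re) ≤ t * (L1 * r) := mul_le_mul_of_nonneg_left h6 ht.1
        _ ≤ 1 * (L1 * r) := mul_le_mul_of_nonneg_right ht.2 (by positivity)
        _ = L1 * r := one_mul _
    nlinarith
  · have b0 := hb0 w hwR
    have b1 := hb1 w hwR
    rw [Real.norm_eq_abs] at b0 b1
    have b0' := (abs_le.mp b0).2
    have b1' := (abs_le.mp b1).2
    have h5 : t * (η w 0).re ≤ L1 := by
      calc t * (η w 0).re ≤ t * L1 := mul_le_mul_of_nonneg_left b1' ht.1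
        _ ≤ 1 * L1 := mul_le_mul_of_nonneg_right ht.2 hL10
        _ = L1 := one_mul _
    calc (θ w 0).re + t * (η w 0).re ≤ L0 + L1 := by linarith
      _ ≤ (L0 + L1) * r := le_mul_of_one_le_right (by positivity) h1.le

theorem homA_xv (z : En n) (a : Fin (n + 1)) : ContDiff ℝ 2 fun w : En n => xv z w a := by
  refine Fin.cases ?_ (fun j => ?_) a
  · simp only [xv, Fin.cons_zero]
    exact contDiff_const
  · simp only [xv, Fin.cons_succ]
    exact ((((EuclideanSpace.proj (𝕜 := ℂ) j : En n →L[ℂ] ℂ).restrictScalars ℝ).contDiff).sub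
      contDiff_const)

theorem homA_Av {θ : En n → Fin (n + 1) → ℂ} (hθ : ∀ a, ContDiff ℝ 2 fun w => θ w a) (z : En n) :
    ContDiff ℝ 2 fun w => Av θ z w := by
  unfold Av
  exact ContDiff.sum fun a _ => (hθ a).mul (homA_xv z a)

theorem homA_det {E : Type*} [NormedAddCommGroup E] [NormedSpace ℝ E] {N : ℕ}
    {M : E → Matrix (Fin N) (Fin N) ℂ} {k : WithTop ℕ∞}
    (hM : ∀ i j, ContDiff ℝ k fun y => M y i j) : ContDiff ℝ k fun y => (M y).det := by
  simp only [Matrix.det_apply']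
  exact ContDiff.sum fun σ _ => contDiff_const.mul (contDiff_prod fun i _ => hM _ _)

theorem homA_Omk {θ η : En n → Fin (n + 1) → ℂ} (hθ : ∀ a, ContDiff ℝ 2 fun w => θ w a)
    (hη : ∀ a, ContDiff ℝ 2 fun w => η w a) (k : Fin n) :
    ContDiff ℝ 1 fun w => Omk θ η k w := by
  unfold Omk
  refine homA_det fun a b => ?_
  simp only [Matrix.updateCol_apply]
  split_ifs with hb
  · exact (hη a).of_le (by norm_num)
  · refine Fin.cases ?_ (fun l => ?_) b
    · simp only [mt, Matrix.of_apply, Fin.cases_zero]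
      exact (hθ a).of_le (by norm_num)
    · simp only [mt, Matrix.of_apply, Fin.cases_succ]
      have h2 : ContDiff ℝ ((1 + 1 : ℕ) : WithTop ℕ∞) fun w => θ w a := by
        simpa [one_add_one_eq_two] using hθ a
      simpa using contDiff_db l h2

theorem homA_pos {m : ℕ} (hm : 2 ≤ m) : ContDiff ℝ 1 fun s : ℝ => (max s 0) ^ m := by
  rw [contDiff_one_iff_deriv]
  refine ⟨fun s => (hasDerivAt_pos_pow hm s).differentiableAt, ?_⟩
  have : deriv (fun s : ℝ => (max s 0) ^ m) = fun s : ℝ => (m : ℝ) * (max s 0) ^ (m - 1) := by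
    funext s
    exact (hasDerivAt_pos_pow hm s).deriv
  rw [this]
  fun_prop

theorem homA_N {m : ℕ} (hm : 2 ≤ m) {θ : En n → Fin (n + 1) → ℂ}
    (hθ : ∀ a, ContDiff ℝ 2 fun w => θ w a) :
    ContDiff ℝ 1 fun w => (((max (θ w 0).re 0) ^ m : ℝ) : ℂ) := by
  have h1 : ContDiff ℝ 1 fun w => (θ w 0).re :=
    Complex.reCLM.contDiff.comp ((hθ 0).of_le (by norm_num))
  exact Complex.ofRealCLM.contDiff.comp ((homA_pos hm).comp h1)

/-- A radius of a ball in `D` about `w`, comparable to the distance to the complement. -/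
theorem homA_radius {D : Set (En n)} (hD : IsOpen D) {w : En n} (hw : w ∈ D) {d : ℝ} (hd : 0 < d) :
    ∃ r, 0 < r ∧ r ≤ d ∧ ball w r ⊆ D ∧ (r = d ∨ ∃ y, y ∉ D ∧ ‖y - w‖ ≤ 2 * r) := by
  by_cases hb : ball w d ⊆ D
  · exact ⟨d, hd, le_rfl, hb, Or.inl rfl⟩
  · obtain ⟨y0, hy0, hy0D⟩ := not_subset.mp hb
    have hne : (Dᶜ).Nonempty := ⟨y0, hy0D⟩
    have hr : 0 < infDist w Dᶜ := by
      rw [← hD.isClosed_compl.notMem_iff_infDist_pos hne]
      simpa using hw
    refine ⟨infDist w Dᶜ, hr, ?_, ball_infDist_compl_subset, Or.inr ?_⟩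
    · have h1 := infDist_le_dist_of_mem (x := w) (show y0 ∈ Dᶜ from hy0D)
      rw [mem_ball, dist_comm] at hy0
      linarith
    · obtain ⟨y, hy, hyw⟩ := (infDist_lt_iff hne).mp (show infDist w Dᶜ < 2 * infDist w Dᶜ by linarith)
      refine ⟨y, hy, ?_⟩
      rw [dist_comm, dist_eq_norm] at hyw
      exact hyw.le

/-- The quotient part: derivative of `Φ / q`. -/
theorem homA_quot {Φ q : En n → ℂ} {w : En n} {r M c L : ℝ} (hr : 0 < r) (hc : 0 < c)
    (hΦ : DifferentiableOn ℂ Φ (ball w r)) (hM : ∀ y ∈ ball w r, ‖Φ y‖ ≤ M)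
    (hq : DifferentiableAt ℝ q w) (hqc : c ≤ ‖q w‖) (hqL : ‖fderiv ℝ q w‖ ≤ L) :
    ∃ h' : En n →L[ℝ] ℂ, HasFDerivAt (fun y => Φ y * (q y)⁻¹) h' w ∧
      ‖h'‖ ≤ M * (L / c ^ 2) + c⁻¹ * (2 * M / r) := by
  have hq0 : q w ≠ 0 := by
    intro h0
    rw [h0, norm_zero] at hqc
    linarith
  have hΦ1 : HasFDerivAt Φ ((fderiv ℂ Φ w).restrictScalars ℝ) w :=
    ((hΦ.differentiableAt (ball_mem_nhds w hr)).hasFDerivAt).restrictScalars ℝ
  have hinv : HasFDerivAt (fun y => (q y)⁻¹) ((-((q w) ^ 2)⁻¹) • fderiv ℝ q w) w := by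
    have h1 := (hasDerivAt_inv hq0).comp_hasFDerivAt_of_eq w hq.hasFDerivAt rfl
    exact h1
  have hM0 : 0 ≤ M := (norm_nonneg _).trans (hM w (mem_ball_self hr))
  refine ⟨_, hΦ1.mul hinv, ?_⟩
  have hn1 : ‖(fderiv ℂ Φ w).restrictScalars ℝ‖ ≤ 2 * M / r := by
    refine ContinuousLinearMap.opNorm_le_bound _ (by positivity) fun v => ?_
    exact Pool.Agent.Lib.MP_ca0fc2_an.norm_fderiv_apply_le hr hΦ hM v
  have hn2 : ‖(-((q w) ^ 2)⁻¹) • fderiv ℝ q w‖ ≤ L / c ^ 2 := by
    rw [norm_smul, norm_neg, norm_inv, norm_pow, div_eq_inv_mul]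
    gcongr
  have hn3 : ‖(q w)⁻¹‖ ≤ c⁻¹ := by
    rw [norm_inv]
    gcongr
  calc ‖Φ w • ((-((q w) ^ 2)⁻¹) • fderiv ℝ q w) + (q w)⁻¹ • (fderiv ℂ Φ w).restrictScalars ℝ‖
      ≤ ‖Φ w • ((-((q w) ^ 2)⁻¹) • fderiv ℝ q w)‖ +
        ‖(q w)⁻¹ • (fderiv ℂ Φ w).restrictScalars ℝ‖ := norm_add_le _ _
    _ = ‖Φ w‖ * ‖(-((q w) ^ 2)⁻¹) • fderiv ℝ q w‖ +
        ‖(q w)⁻¹‖ * ‖(fderiv ℂ Φ w).restrictScalars ℝ‖ := by rw [norm_smul, norm_smul (q w)⁻¹]
    _ ≤ M * (L / c ^ 2) + c⁻¹ * (2 * M / r) := by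
        refine add_le_add (mul_le_mul (hM w (mem_ball_self hr)) hn2 (norm_nonneg _) hM0)
          (mul_le_mul hn3 hn1 (norm_nonneg _) (by positivity))

/-- The function in the integration by parts is differentiable everywhere, with a bounded
derivative, which vanishes outside of `D`. -/
theorem HomData.diff_V {D U : Set (En n)} {z : En n} {θ η : En n → Fin (n + 1) → ℂ}
    (h : HomData D z θ η) {Φ : En n → ℂ} {χ : En n → ℝ} (hc : CutData D U Φ χ) {m : ℕ}
    (hm : 2 ≤ m) (k : Fin n) {t : ℝ} (ht : t ∈ Icc (0 : ℝ) 1) :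
    Differentiable ℝ (fun w => (χ w : ℂ) * Φ w * (fp m (lin θ η t) z w *
        Omk (lin θ η t) η k w)) ∧
    (∀ w, w ∉ D → fderiv ℝ (fun w => (χ w : ℂ) * Φ w * (fp m (lin θ η t) z w *
        Omk (lin θ η t) η k w)) w = 0) ∧
    ∃ C : ℝ, ∀ w, ‖fderiv ℝ (fun w => (χ w : ℂ) * Φ w * (fp m (lin θ η t) z w *
        Omk (lin θ η t) η k w)) w‖ ≤ C := by
  obtain ⟨L, hL0, hL⟩ := h.pos_le
  obtain ⟨c, hc0, hcA⟩ := h.A0
  obtain ⟨M0, hM0⟩ := hc.bd
  obtain ⟨M, hM, hMb⟩ : ∃ M : ℝ, 0 ≤ M ∧ ∀ w ∈ D ∩ U, ‖Φ w‖ ≤ M :=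
    ⟨max M0 0, le_max_right _ _, fun w hw => (hM0 w hw).trans (le_max_left _ _)⟩
  have hcA' : ∀ w ∈ D, c ≤ ‖Av (lin θ η t) z w‖ := fun w hw => hcA w hw t ht
  have hL' : ∀ w ∈ D, ∀ r : ℝ, 0 < r → (∃ y, y ∉ D ∧ ‖y - w‖ ≤ r) →
      max (lin θ η t w 0).re 0 ≤ L * r := fun w hw => hL t ht w hw
  have hout : ∀ w, w ∉ D → max (lin θ η t w 0).re 0 = 0 := by
    intro w hw
    refine max_eq_right ?_
    rw [homA_lin_re]
    have : (θ w 0).re + t * (η w 0).re =
      (1 - t) * (θ w 0).re + t * ((θ w 0).re + (η w 0).re) := by ring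
    rw [this]
    have h3 : (1 - t) * (θ w 0).re ≤ 0 :=
      mul_nonpos_of_nonneg_of_nonpos (by linarith [ht.2]) (h.out0 w hw)
    have h4 : t * ((θ w 0).re + (η w 0).re) ≤ 0 :=
      mul_nonpos_of_nonneg_of_nonpos ht.1 (h.out1 w hw)
    linarith
  have hΘ2 : ∀ a, ContDiff ℝ 2 fun w => lin θ η t w a := fun a => lin_contDiff h.cθ h.cη t a
  generalize lin θ η t = Θ at *
  set cc : ℝ := c ^ (m + n + 1) with hcc
  have hcc0 : 0 < cc := pow_pos hc0 _
  obtain ⟨N, hN⟩ : ∃ N : En n → ℂ, N = fun w => (((max (Θ w 0).re 0) ^ m : ℝ) : ℂ) := ⟨_, rfl⟩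
  have hN1 : ContDiff ℝ 1 N := hN ▸ homA_N hm hΘ2
  have hNn : ∀ w, ‖N w‖ = (max (Θ w 0).re 0) ^ m := by
    intro w
    rw [hN]
    simp only [Complex.norm_real, Real.norm_eq_abs]
    exact abs_of_nonneg (pow_nonneg (le_max_right _ _) _)
  obtain ⟨q, hq⟩ : ∃ q : En n → ℂ, q = fun w => (Av Θ z w) ^ (m + n + 1) := ⟨_, rfl⟩
  have hq1 : ContDiff ℝ 1 q := hq ▸ ((homA_Av hΘ2 z).pow _).of_le (by norm_num)
  have hqc : ∀ w ∈ D, cc ≤ ‖q w‖ := by
    intro w hw
    rw [hq, hcc]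
    simp only [norm_pow]
    exact pow_le_pow_left₀ hc0.le (hcA' w hw) _
  obtain ⟨Y, hY⟩ : ∃ Y : En n → ℂ, Y = fun w => (χ w : ℂ) * Omk Θ η k w := ⟨_, rfl⟩
  have hY1 : ContDiff ℝ 1 Y :=
    hY ▸ (Complex.ofRealCLM.contDiff.comp hc.sm).mul (homA_Omk hΘ2 h.cη k)
  have hYs : ∀ w, w ∉ tsupport χ → Y =ᶠ[𝓝 w] 0 := by
    intro w hw
    have h1 := notMem_tsupport_iff_eventuallyEq.mp hw
    filter_upwards [h1] with y hy
    simp only [Pi.zero_apply] at hy
    simp [hY, hy]
  obtain ⟨V, hV⟩ : ∃ V : En n → ℂ, V = fun w => (χ w : ℂ) * Φ w * (fp m Θ z w * Omk Θ η k w) :=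
    ⟨_, rfl⟩
  rw [← hV]
  have hVe : V = fun w => (Y w * N w) * (Φ w * (q w)⁻¹) := by
    funext w
    rw [hV, hY, hN, hq]
    simp only [fp]
    ring
  -- the radii
  obtain ⟨R, hR⟩ : ∃ R : ℝ, ∀ w ∈ tsupport χ, ‖w‖ ≤ R := hc.cpt.isCompact.isBounded.exists_norm_le
  obtain ⟨d0, hd0, hd1, hdU⟩ : ∃ d0 : ℝ, 0 < d0 ∧ d0 ≤ 1 ∧ ∀ w ∈ tsupport χ, ball w d0 ⊆ U := by
    obtain ⟨δ, hδ, hδU⟩ := hc.cpt.isCompact.exists_thickening_subset_open hc.op hc.supp
    refine ⟨min δ 1, lt_min hδ one_pos, min_le_right _ _, fun w hw => ?_⟩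
    refine Subset.trans ?_ hδU
    refine (ball_subset_ball (min_le_left _ _)).trans ?_
    exact ball_subset_thickening hw _
  obtain ⟨K0, hK00, hK0⟩ := homA_bdd hY1 (R + 1)
  obtain ⟨KN, hKN0, hKN⟩ := homA_bdd hN1 (R + 1)
  obtain ⟨Kq, hKq0, hKq⟩ := homA_bdd hq1 (R + 1)
  obtain ⟨Kg, hKg0, hKg⟩ := homA_bdd (hY1.mul hN1) (R + 1)
  -- (a)
  have ha : ∀ w, w ∉ tsupport χ → HasFDerivAt V (0 : En n →L[ℝ] ℂ) w := by
    intro w hw
    have h1 : V =ᶠ[𝓝 w] fun _ => 0 := by
      filter_upwards [hYs w hw] with y hy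
      simp only [Pi.zero_apply] at hy
      rw [hVe]
      simp [hy]
    exact (hasFDerivAt_const (0 : ℂ) w).congr_of_eventuallyEq h1
  -- (b)
  have hb : ∀ w, w ∉ D → HasFDerivAt V (0 : En n →L[ℝ] ℂ) w := by
    intro w hw
    by_cases hws : w ∈ tsupport χ
    · refine Asymptotics.IsBigO.hasFDerivAt (n := m) ?_ (by omega)
      refine Asymptotics.IsBigO.of_bound (K0 * L ^ m * (M * cc⁻¹)) ?_
      filter_upwards [ball_mem_nhds w hd0] with y hy
      have hyU : y ∈ U := hdU w hws hy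
      rw [mem_ball, dist_eq_norm] at hy
      rw [norm_pow, norm_norm]
      by_cases hyD : y ∈ D
      · have hyR : ‖y‖ ≤ R + 1 := by
          calc ‖y‖ = ‖(y - w) + w‖ := by congr 1; abel
            _ ≤ ‖y - w‖ + ‖w‖ := norm_add_le _ _
            _ ≤ R + 1 := by linarith [hR w hws]
        have hyw : 0 < ‖y - w‖ := by
          rw [norm_pos_iff, sub_ne_zero]
          rintro rfl
          exact hw hyD
        have h1 : ‖N y‖ ≤ L ^ m * ‖y - w‖ ^ m := by
          rw [hNn, ← mul_pow]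
          refine pow_le_pow_left₀ (le_max_right _ _) (hL' y hyD _ hyw ⟨w, hw, ?_⟩) _
          rw [norm_sub_rev]
        have h2 : ‖(q y)⁻¹‖ ≤ cc⁻¹ := by
          rw [norm_inv]
          exact inv_anti₀ hcc0 (hqc y hyD)
        rw [hVe]
        simp only [norm_mul]
        calc ‖Y y‖ * ‖N y‖ * (‖Φ y‖ * ‖(q y)⁻¹‖)
            ≤ K0 * (L ^ m * ‖y - w‖ ^ m) * (M * cc⁻¹) := by
              refine mul_le_mul (mul_le_mul (hK0 y hyR).1 h1 (norm_nonneg _) hK00)
                (mul_le_mul (hMb y ⟨hyD, hyU⟩) h2 (norm_nonneg _) hM) (by positivity)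
                (by positivity)
          _ = K0 * L ^ m * (M * cc⁻¹) * ‖y - w‖ ^ m := by ring
      · have h1 : N y = 0 := by
          rw [← norm_eq_zero, hNn, hout y hyD]
          exact zero_pow (by omega)
        rw [hVe]
        simp only [h1, mul_zero, zero_mul, norm_zero]
        positivity
    · exact ha w hws
  -- (c)
  obtain ⟨Cg, hCg⟩ : ∃ Cg : ℝ, Cg = K0 * KN / d0 + K0 * (2 * L) ^ m := ⟨_, rfl⟩
  have hCg0 : 0 ≤ Cg := by rw [hCg]; positivity
  have hcc' : ∀ w, w ∈ D → w ∈ tsupport χ → ∃ V' : En n →L[ℝ] ℂ, HasFDerivAt V V' w ∧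
      ‖V'‖ ≤ Cg * (M * (Kq / cc ^ 2)) + Cg * (cc⁻¹ * (2 * M)) + M * cc⁻¹ * Kg := by
    intro w hw hws
    obtain ⟨r, hr, hrd, hrD, hry⟩ := homA_radius h.op hw hd0
    have hwR : ‖w‖ ≤ R + 1 := (hR w hws).trans (by linarith)
    have hrU : ball w r ⊆ U := (ball_subset_ball hrd).trans (hdU w hws)
    have hΦd : DifferentiableOn ℂ Φ (ball w r) := hc.hol.mono (subset_inter hrD hrU)
    obtain ⟨h', hh', hhn⟩ := homA_quot (L := Kq) hr hcc0 hΦd
      (fun y hy => hMb y ⟨hrD hy, hrU hy⟩) (hq1.differentiable one_ne_zero w) (hqc w hw)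
      (hKq w hwR).2
    have hg : HasFDerivAt (fun y => Y y * N y) (fderiv ℝ (fun y => Y y * N y) w) w :=
      ((hY1.mul hN1).differentiable one_ne_zero w).hasFDerivAt
    have hNw : ‖Y w * N w‖ ≤ Cg * r := by
      rw [norm_mul]
      have hYK := (hK0 w hwR).1
      rcases hry with hrd' | ⟨y, hy, hyw⟩
      · have h1 : K0 * KN / d0 * r = K0 * KN := by rw [hrd']; field_simp
        calc ‖Y w‖ * ‖N w‖ ≤ K0 * KN :=
              mul_le_mul hYK (hKN w hwR).1 (norm_nonneg _) hK00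
          _ = K0 * KN / d0 * r := h1.symm
          _ ≤ Cg * r := by
              refine mul_le_mul_of_nonneg_right ?_ hr.le
              rw [hCg]
              exact le_add_of_nonneg_right (by positivity)
      · have h1 : ‖N w‖ ≤ (L * (2 * r)) ^ m := by
          rw [hNn]
          exact pow_le_pow_left₀ (le_max_right _ _) (hL' w hw _ (by positivity) ⟨y, hy, hyw⟩) _
        have h2 : r ^ m ≤ r := by
          calc r ^ m ≤ r ^ 1 := pow_le_pow_of_le_one hr.le (hrd.trans hd1) (by omega)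
            _ = r := pow_one r
        calc ‖Y w‖ * ‖N w‖ ≤ K0 * (L * (2 * r)) ^ m :=
              mul_le_mul hYK h1 (norm_nonneg _) hK00
          _ = K0 * (2 * L) ^ m * r ^ m := by
              rw [show L * (2 * r) = 2 * L * r by ring, mul_pow]
              ring
          _ ≤ K0 * (2 * L) ^ m * r := mul_le_mul_of_nonneg_left h2 (by positivity)
          _ ≤ Cg * r := by
              refine mul_le_mul_of_nonneg_right ?_ hr.le
              rw [hCg]
              exact le_add_of_nonneg_left (by positivity)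
    have hprod := hg.mul hh'
    refine ⟨_, by rw [hVe]; exact hprod, ?_⟩
    have hΦq : ‖Φ w * (q w)⁻¹‖ ≤ M * cc⁻¹ := by
      rw [norm_mul, norm_inv]
      exact mul_le_mul (hMb w ⟨hw, hc.supp hws⟩) (inv_anti₀ hcc0 (hqc w hw))
        (by positivity) hM
    calc ‖(Y w * N w) • h' + (Φ w * (q w)⁻¹) • fderiv ℝ (fun y => Y y * N y) w‖
        ≤ ‖(Y w * N w) • h'‖ + ‖(Φ w * (q w)⁻¹) • fderiv ℝ (fun y => Y y * N y) w‖ :=
          norm_add_le _ _
      _ = ‖Y w * N w‖ * ‖h'‖ + ‖Φ w * (q w)⁻¹‖ * ‖fderiv ℝ (fun y => Y y * N y) w‖ := by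
          rw [norm_smul, norm_smul (Φ w * (q w)⁻¹)]
      _ ≤ Cg * r * (M * (Kq / cc ^ 2) + cc⁻¹ * (2 * M / r)) + M * cc⁻¹ * Kg := by
          refine add_le_add (mul_le_mul hNw hhn (norm_nonneg _) (by positivity))
            (mul_le_mul hΦq (hKg w hwR).2 (norm_nonneg _) (by positivity))
      _ = Cg * (M * (Kq / cc ^ 2)) * r + Cg * (cc⁻¹ * (2 * M)) + M * cc⁻¹ * Kg := by
          field_simp
      _ ≤ Cg * (M * (Kq / cc ^ 2)) * 1 + Cg * (cc⁻¹ * (2 * M)) + M * cc⁻¹ * Kg := by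
          have : r ≤ 1 := hrd.trans hd1
          gcongr
      _ = _ := by ring
  refine ⟨fun w => ?_, fun w hw => (hb w hw).fderiv,
    Cg * (M * (Kq / cc ^ 2)) + Cg * (cc⁻¹ * (2 * M)) + M * cc⁻¹ * Kg, fun w => ?_⟩
  · by_cases hw : w ∈ D
    · by_cases hws : w ∈ tsupport χ
      · obtain ⟨V', h1, _⟩ := hcc' w hw hws
        exact h1.differentiableAt
      · exact (ha w hws).differentiableAt
    · exact (hb w hw).differentiableAt
  · have hpos : 0 ≤ Cg * (M * (Kq / cc ^ 2)) + Cg * (cc⁻¹ * (2 * M)) + M * cc⁻¹ * Kg := by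
      positivity
    by_cases hw : w ∈ D
    · by_cases hws : w ∈ tsupport χ
      · obtain ⟨V', h1, h2⟩ := hcc' w hw hws
        rw [h1.fderiv]
        exact h2
      · rw [(ha w hws).fderiv, norm_zero]
        exact hpos
    · rw [(hb w hw).fderiv, norm_zero]
      exact hpos

end Pool.Agent.MPca0fc2.CX
end
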