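import Pool.Agent.Lib.MP_ca0fc2_an.Mg.G075
import Pool.Agent.Lib.MP_ca0fc2_an.Mg.G076
import Pool.Agent.Lib.MP_ca0fc2_an.Mg.G078

section

/-! The holomorphic coordinates near `p`. -/

set_option autoImplicit false

open Metric Set Filter Topology

namespace Pool.Agent.MPca0fc2.TB

variable {n : ℕ}

/-- an injective complex linear endomorphism is a continuous linear equivalence -/
private lemma C3_equiv (L : En n →L[ℂ] En n) (hi : ∀ v, L v = 0 → v = 0) :
    ∃ L' : En n ≃L[ℂ] En n, (L' : En n →L[ℂ] En n) = L := by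
  have hinj : Function.Injective (L : En n →ₗ[ℂ] En n) := by
    rw [← LinearMap.ker_eq_bot]
    rw [LinearMap.ker_eq_bot']
    exact hi
  refine ⟨(LinearEquiv.ofInjectiveEndo (L : En n →ₗ[ℂ] En n) hinj).toContinuousLinearEquiv, ?_⟩
  ext v
  rfl

private lemma C3_fderiv_real {F : En n → En n} {z : En n} (h : DifferentiableAt ℂ F z) :
    fderiv ℝ F z = (fderiv ℂ F z).restrictScalars ℝ :=
  (h.hasFDerivAt.restrictScalars ℝ).fderiv

/-- The holomorphic inverse function theorem in the form needed below.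
PROOF. `F` is `C¹` in the real sense near `p` and complex differentiable there, so it has the strict derivative `L` at `p`
(`ContDiffAt.hasStrictFDerivAt` over `ℝ`; the real derivative is the restriction of the complex one; strict
differentiability is the same estimate over `ℝ` and `ℂ`). `L` is injective, hence bijective (finite dimension): `L = L'`
for a `ContinuousLinearEquiv L'`. `HasStrictFDerivAt.toOpenPartialHomeomorph` gives the local inverse `G`; it is
differentiable near `F p = 0`: the derivatives of `F` near `p` are invertible (they are near `L`, the set of the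
equivalences is open), `OpenPartialHomeomorph.hasFDerivAt_symm` (or work with
`HasStrictFDerivAt.to_localInverse` at each point). `‖G y - p‖ ≤ C ‖y‖` near `0` because `G` is differentiable at `0`. Shrink `a`. -/
theorem hol_inv {F : En n → En n} {p : En n} {s : ℝ} (hs : 0 < s)
    (hF : DifferentiableOn ℂ F (ball p s)) (hF' : ContDiffOn ℝ 1 F (ball p s)) (h0 : F p = 0)
    (hi : ∀ v, fderiv ℂ F p v = 0 → v = 0) :
    ∃ C > 0, ∃ a > 0, ∃ G : En n → En n, DifferentiableOn ℂ G (ball 0 a) ∧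
      ∀ y ∈ ball (0 : En n) a, F (G y) = y ∧ G y ∈ ball p s ∧ ‖G y - p‖ ≤ C * ‖y‖ := by
  have hpb : ball p s ∈ 𝓝 p := ball_mem_nhds p hs
  have hdiff : ∀ z ∈ ball p s, DifferentiableAt ℂ F z := fun z hz =>
    hF.differentiableAt (isOpen_ball.mem_nhds hz)
  have hcd : ContDiffAt ℝ 1 F p := hF'.contDiffAt hpb
  -- strict derivative over ℂ
  have hstrict : HasStrictFDerivAt F (fderiv ℂ F p) p := by
    have h1 : HasStrictFDerivAt F (fderiv ℝ F p) p := hcd.hasStrictFDerivAt (by norm_num)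
    rw [hasStrictFDerivAt_iff_isLittleO] at h1 ⊢
    have h2 : fderiv ℝ F p = (fderiv ℂ F p).restrictScalars ℝ := C3_fderiv_real (hdiff p (mem_ball_self hs))
    rw [h2] at h1
    exact h1
  obtain ⟨L', hL'⟩ := C3_equiv (fderiv ℂ F p) hi
  rw [← hL'] at hstrict
  -- the derivatives near `p` are injective
  have hcont : ContinuousAt (fderiv ℂ F) p := by
    have h1 : ContinuousAt (fderiv ℝ F) p := by
      have := hcd.fderiv_right (m := 0) (by norm_num)
      exact this.continuousAt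
    rw [Metric.continuousAt_iff] at h1 ⊢
    intro ε hε
    obtain ⟨δ, hδ, h2⟩ := h1 ε hε
    refine ⟨min δ s, lt_min hδ hs, fun x hx => ?_⟩
    have hx1 := h2 (lt_of_lt_of_le hx (min_le_left _ _))
    have hxs : x ∈ ball p s := lt_of_lt_of_le hx (min_le_right _ _)
    rw [dist_eq_norm] at hx1 ⊢
    rw [C3_fderiv_real (hdiff x hxs), C3_fderiv_real (hdiff p (mem_ball_self hs))] at hx1
    have h3 : (fderiv ℂ F x).restrictScalars ℝ - (fderiv ℂ F p).restrictScalars ℝ =
        (fderiv ℂ F x - fderiv ℂ F p).restrictScalars ℝ := rfl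
    rw [h3, ContinuousLinearMap.norm_restrictScalars] at hx1
    exact hx1
  have hev : ∀ᶠ z in 𝓝 p, ∃ M : En n ≃L[ℂ] En n, (M : En n →L[ℂ] En n) = fderiv ℂ F z := by
    have h1 : range ((↑) : (En n ≃L[ℂ] En n) → (En n →L[ℂ] En n)) ∈ 𝓝 (fderiv ℂ F p) := by
      rw [← hL']
      exact ContinuousLinearEquiv.nhds L'
    exact hcont h1
  set T := hstrict.toOpenPartialHomeomorph F with hT
  set G : En n → En n := ⇑T.symm with hG
  have hTc : (T : En n → En n) = F := hstrict.toOpenPartialHomeomorph_coe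
  have hps : p ∈ T.source := hstrict.mem_toOpenPartialHomeomorph_source
  have h0t : (0 : En n) ∈ T.target := by
    have := hstrict.image_mem_toOpenPartialHomeomorph_target
    rwa [h0] at this
  have hG0 : G 0 = p := by
    have h1 := T.left_inv hps
    rw [hTc, h0] at h1
    exact h1
  have hGc : ContinuousAt G 0 := T.symm.continuousAt h0t
  have hGt : Tendsto G (𝓝 0) (𝓝 p) := by
    have := hGc.tendsto
    rwa [hG0] at this
  have hder0 : HasFDerivAt G ((L'.symm : En n ≃L[ℂ] En n) : En n →L[ℂ] En n) 0 := by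
    apply T.hasFDerivAt_symm h0t
    have h1 : T.symm 0 = p := hG0
    rw [h1, hTc]
    exact hstrict.hasFDerivAt
  obtain ⟨C, hC, hbig⟩ := hder0.isBigO_sub.exists_pos
  rw [Asymptotics.IsBigOWith] at hbig
  have hall : ∀ᶠ y in 𝓝 (0 : En n), (y ∈ T.target ∧ G y ∈ ball p s ∧ ‖G y - p‖ ≤ C * ‖y‖) ∧
      ∃ M : En n ≃L[ℂ] En n, (M : En n →L[ℂ] En n) = fderiv ℂ F (G y) := by
    have h1 : ∀ᶠ y in 𝓝 (0 : En n), y ∈ T.target := T.open_target.mem_nhds h0t
    have h2 : ∀ᶠ y in 𝓝 (0 : En n), G y ∈ ball p s := hGt hpb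
    have h3 := hGt.eventually hev
    filter_upwards [h1, h2, hbig, h3] with y h1 h2 h4 h3
    refine ⟨⟨h1, h2, ?_⟩, h3⟩
    rw [hG0, sub_zero] at h4
    exact h4
  obtain ⟨a, ha, hball⟩ := Metric.eventually_nhds_iff_ball.mp hall
  refine ⟨C, hC, a, ha, G, ?_, ?_⟩
  · intro y hy
    obtain ⟨⟨h1, h2, -⟩, M, hM⟩ := hball y hy
    have h3 : HasFDerivAt T (M : En n →L[ℂ] En n) (T.symm y) := by
      rw [hTc, hM]
      exact (hdiff _ h2).hasFDerivAt
    exact (T.hasFDerivAt_symm h1 h3).differentiableAt.differentiableWithinAt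
  · intro y hy
    obtain ⟨⟨h1, h2, h3⟩, -⟩ := hball y hy
    refine ⟨?_, h2, h3⟩
    have h4 := T.right_inv h1
    rw [hTc] at h4
    exact h4

variable {D : Set (En n)} {p : En n} {w : En n → ℂ} {B : En n →L[ℝ] En n →L[ℝ] ℝ}
  {V : Set (En n)} {r c : ℝ}

private lemma C3_eh0 : Eh B 0 = 0 := by
  simp [Eh]

private lemma C3_ehder : HasFDerivAt (Eh B) (0 : En n →L[ℂ] ℂ) 0 := by
  obtain ⟨K, hK, hb⟩ := eh_bound (B := B)
  rw [hasFDerivAt_iff_isLittleO_nhds_zero]
  rw [Asymptotics.isLittleO_iff]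
  intro c hc
  have h1 : ∀ᶠ v in 𝓝 (0 : En n), ‖v‖ < c / K := by
    have : ball (0 : En n) (c / K) ∈ 𝓝 0 := ball_mem_nhds _ (by positivity)
    filter_upwards [this] with v hv
    simpa using hv
  filter_upwards [h1] with v hv
  rw [zero_add, C3_eh0]
  simp only [sub_zero, zero_apply]
  refine (hb v).1.trans ?_
  have h2 : K * ‖v‖ ≤ c := by
    rw [lt_div_iff₀ hK] at hv
    linarith [mul_comm K ‖v‖]
  nlinarith [norm_nonneg v]

/-- PROOF. `hol_inv` for `F z = S (z - p) + W z • e`, `W = Wm B w p m`, on a ball `ball p s ⊆ V` where `1 + m w ≠ 0`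
(`w` is continuous, `w p = 0`): `W` is holomorphic and real `C²` there (`h.hol`, `h.cw`, `eh_diff`), `W p = 0`,
`fderiv ℂ W p = fderiv ℂ w p` (`Eh B (z - p)` has the derivative `0` at `p`: it is quadratic, `eh_bound`; so
`‖Eh B (z - p) / (1 + m w)‖ ≤ 2 K ‖z - p‖²` is `o (‖z - p‖)`). So `fderiv ℂ F p v = S v + lam v • e`. -/
theorem wm_inv (h : TP D p w B V r c) {m : ℝ} (hm : 0 < m) {S : En n →L[ℂ] En n} {e : En n}
    (hS : ∀ v, S v + fderiv ℂ w p v • e = 0 → v = 0) :
    ∃ C > 0, ∃ a > 0, ∃ G : En n → En n, DifferentiableOn ℂ G (ball 0 a) ∧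
      ∀ y ∈ ball (0 : En n) a,
        S (G y - p) + Wm B w p m (G y) • e = y ∧ ‖G y - p‖ ≤ C * ‖y‖ := by
  have hpV : V ∈ 𝓝 p := Filter.mem_of_superset (ball_mem_nhds p h.r0) h.bV
  have hwd : DifferentiableAt ℂ w p := h.hol.differentiableAt hpV
  have hwc : ContinuousAt w p := hwd.continuousAt
  have hne : ∀ᶠ z in 𝓝 p, (1 : ℂ) + (m : ℂ) * w z ≠ 0 := by
    have h1 : ContinuousAt (fun z => (1 : ℂ) + (m : ℂ) * w z) p :=
      continuousAt_const.add (continuousAt_const.mul hwc)
    apply h1.eventually_ne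
    rw [h.w0]
    simp
  obtain ⟨s, hs, hsb⟩ := Metric.eventually_nhds_iff_ball.mp (hne.and (show ∀ᶠ z in 𝓝 p, z ∈ V from hpV))
  obtain ⟨he1, he2⟩ := eh_diff (B := B) h.symm
  set F : En n → En n := fun z => S (z - p) + Wm B w p m z • e with hFdef
  have hsV : ball p s ⊆ V := fun z hz => (hsb z hz).2
  have hWeq : Wm B w p m = fun z => w z - Eh B (z - p) * (1 + (m : ℂ) * w z)⁻¹ := by
    funext z
    simp [Wm, div_eq_mul_inv]
  have hWd : DifferentiableOn ℂ (Wm B w p m) (ball p s) := by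
    rw [hWeq]
    have h1 : DifferentiableOn ℂ w (ball p s) := h.hol.mono hsV
    have h2 : DifferentiableOn ℂ (fun z => Eh B (z - p)) (ball p s) :=
      (he1.comp (differentiable_id.sub_const p)).differentiableOn
    have h3 : DifferentiableOn ℂ (fun z => 1 + (m : ℂ) * w z) (ball p s) :=
      (h1.const_mul _).const_add _
    exact h1.sub (h2.mul (h3.inv fun z hz => (hsb z hz).1))
  have hWc : ContDiffOn ℝ 1 (Wm B w p m) (ball p s) := by
    rw [hWeq]
    have h1 : ContDiffOn ℝ 1 w (ball p s) := (h.cw.mono hsV).of_le (by norm_num)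
    have h2 : ContDiffOn ℝ 1 (fun z => Eh B (z - p)) (ball p s) :=
      ((he2.of_le (by norm_num)).comp (contDiff_id.sub contDiff_const)).contDiffOn
    have h3 : ContDiffOn ℝ 1 (fun z => 1 + (m : ℂ) * w z) (ball p s) :=
      contDiffOn_const.add (contDiffOn_const.mul h1)
    exact h1.sub (h2.mul (h3.inv fun z hz => (hsb z hz).1))
  have hF : DifferentiableOn ℂ F (ball p s) := by
    have h1 : DifferentiableOn ℂ (fun z => S (z - p)) (ball p s) :=
      (S.differentiable.comp (differentiable_id.sub_const p)).differentiableOn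
    exact h1.add (hWd.smul_const e)
  have hF' : ContDiffOn ℝ 1 F (ball p s) := by
    have h1 : ContDiffOn ℝ 1 (fun z => S (z - p)) (ball p s) :=
      (((S.restrictScalars ℝ).contDiff).comp (contDiff_id.sub contDiff_const)).contDiffOn
    exact h1.add (hWc.smul contDiffOn_const)
  have hW0 : Wm B w p m p = 0 := by
    simp [Wm, h.w0, C3_eh0]
  have hF0 : F p = 0 := by
    simp [hFdef, hW0]
  have hWder : HasFDerivAt (Wm B w p m) (fderiv ℂ w p) p := by
    have h1 : HasFDerivAt (fun z => Eh B (z - p)) (0 : En n →L[ℂ] ℂ) p := by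
      have h2 : HasFDerivAt (Eh B) (0 : En n →L[ℂ] ℂ) (p - p) := by
        rw [sub_self]
        exact C3_ehder
      have h3 : HasFDerivAt (fun z : En n => z - p) (ContinuousLinearMap.id ℂ (En n)) p :=
        (hasFDerivAt_id p).sub_const p
      have h4 := HasFDerivAt.comp (f := fun z : En n => z - p) p h2 h3
      rw [ContinuousLinearMap.zero_comp] at h4
      exact h4
    have h5 : HasFDerivAt (fun z => (1 + (m : ℂ) * w z)⁻¹) (fderiv ℂ (fun z => (1 + (m : ℂ) * w z)⁻¹) p) p := by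
      apply DifferentiableAt.hasFDerivAt
      apply DifferentiableAt.inv
      · exact (hwd.const_mul _).const_add _
      · exact (hsb p (mem_ball_self hs)).1
    have h6 := h1.mul h5
    have h7 : HasFDerivAt (fun z => Eh B (z - p) / (1 + (m : ℂ) * w z)) (0 : En n →L[ℂ] ℂ) p := by
      have h8 : (fun z => Eh B (z - p) / (1 + (m : ℂ) * w z)) =
          (fun z => Eh B (z - p)) * (fun z => (1 + (m : ℂ) * w z)⁻¹) := by
        funext z
        simp [div_eq_mul_inv]
      rw [h8]
      have h9 : (Eh B (p - p) • fderiv ℂ (fun z => (1 + (m : ℂ) * w z)⁻¹) p +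
          (1 + (m : ℂ) * w p)⁻¹ • (0 : En n →L[ℂ] ℂ)) = 0 := by
        rw [sub_self, C3_eh0]
        ext v
        simp
      rw [← h9]
      exact h6
    have h10 := hwd.hasFDerivAt.sub h7
    rw [sub_zero] at h10
    exact h10
  have hFder : ∀ v, fderiv ℂ F p v = S v + fderiv ℂ w p v • e := by
    intro v
    have h1 : HasFDerivAt (fun z => S (z - p)) S p := by
      have h3 : HasFDerivAt (fun z : En n => z - p) (ContinuousLinearMap.id ℂ (En n)) p :=
        (hasFDerivAt_id p).sub_const p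
      have h4 := HasFDerivAt.comp (f := fun z : En n => z - p) p (S.hasFDerivAt (x := p - p)) h3
      rw [ContinuousLinearMap.comp_id] at h4
      exact h4
    have h2 := h1.add (hWder.smul_const e)
    have h3 : HasFDerivAt F (S + (fderiv ℂ w p).smulRight e) p := h2
    rw [h3.fderiv]
    simp
  obtain ⟨C, hC, a, ha, G, hG, hGy⟩ := hol_inv hs hF hF' hF0 (fun v hv => hS v (by rw [← hFder]; exact hv))
  exact ⟨C, hC, a, ha, G, hG, fun y hy => ⟨(hGy y hy).1, (hGy y hy).2.2⟩⟩

end Pool.Agent.MPca0fc2.TB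
end

section

/-! Assembly: the final description of the domain near a boundary point. -/

set_option autoImplicit false

open Metric Set Filter Topology

namespace Pool.Agent.MPca0fc2.TB

variable {n : ℕ}

/-- PROOF. `exists_S` with `lam = fderiv ℂ w p`, `wm_pos`, `wm_reg`, `wm_up`, `wm_low`, `wm_inv`; `κ = c/2`, `C` the maximum of the
constants: in `up` the constant may be enlarged (`C ≤ C'` makes the right side larger), in `low` too (the hypothesis
becomes stronger). -/
theorem sg_of_tp {D : Set (En n)} {p : En n} {w : En n → ℂ} {B : En n →L[ℝ] En n →L[ℝ] ℝ}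
    {V : Set (En n)} {r c : ℝ} (h : TP D p w B V r c) :
    ∃ (W : En n → ℂ) (S : En n →L[ℂ] En n) (e : En n) (κ C : ℝ), SG D p W S e κ C := by
  obtain ⟨S, e, C₀, hC₀, he, horth, hS, hker⟩ := exists_S h.symm h.c0 h.Bpos h.dw
  obtain ⟨m, hm, hpos⟩ := wm_pos h
  obtain ⟨hhol, hcont, C₁, hC₁, hb⟩ := wm_reg h hm
  obtain ⟨C₂, hC₂, a, ha, G, hG, hG'⟩ := wm_inv h hm hker
  have l0 : C₀ ≤ max C₀ (max C₁ C₂) := le_max_left _ _
  have l1 : C₁ ≤ max C₀ (max C₁ C₂) := le_trans (le_max_left _ _) (le_max_right _ _)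
  have l2 : C₂ ≤ max C₀ (max C₁ C₂) := le_trans (le_max_right _ _) (le_max_right _ _)
  have lq : ∀ z, C₀ * (‖Wm B w p m z‖ * ‖z - p‖) ≤
      max C₀ (max C₁ C₂) * (‖Wm B w p m z‖ * ‖z - p‖) := fun z =>
    mul_le_mul_of_nonneg_right l0 (by positivity)
  exact ⟨Wm B w p m, S, e, c / 2, max C₀ (max C₁ C₂),
    { e1 := he
      orth := horth
      κ0 := half_pos h.c0
      C0 := lt_of_lt_of_le hC₀ l0
      bdd := fun z hz => (hb z hz).1.trans l1
      hol := hhol
      cont := hcont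
      pos := hpos
      Wb := fun z hz => (hb z hz).2.trans (mul_le_mul_of_nonneg_right l1 (norm_nonneg _))
      up := fun ε hε => by
        obtain ⟨s, hs, hs'⟩ := wm_up h hm hC₀ hS ε hε
        exact ⟨s, hs, fun z hz hz' => (hs' z hz hz').trans (by linarith [lq z])⟩
      low := fun ε hε => by
        obtain ⟨s, hs, hs'⟩ := wm_low h hm hC₀ hS ε hε
        exact ⟨s, hs, fun z hz hz' => hs' z hz (by linarith [lq z])⟩
      inv := ⟨a, ha, G, hG, fun y hy => ⟨(hG' y hy).1,
        (hG' y hy).2.trans (mul_le_mul_of_nonneg_right l2 (norm_nonneg _))⟩⟩ }⟩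

end Pool.Agent.MPca0fc2.TB
end

section

/-! The transplantation theorem. -/

set_option autoImplicit false

open Metric Set Filter Topology

namespace Pool.Agent.MPca0fc2.TB

open Pool.Agent.Lib.MP_ca0fc2_an (SupportData)

variable {n : ℕ}

/-- PROOF. `th_up`, `th_far`, `th_reg`, `th_inv` with a small `r`. -/
theorem trans_of_sg {D : Set (En n)} {p : En n} {W : En n → ℂ} {S : En n →L[ℂ] En n} {e : En n}
    {κ C : ℝ} (h : SG D p W S e κ C) : Trans D p e := by
  refine ⟨h.e1, fun ε hε hε1 s hs => ?_⟩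
  obtain ⟨r₁, hr₁, h1⟩ := th_up h hε
  obtain ⟨r₂, hr₂, h2⟩ := th_far h hε hs
  obtain ⟨r₃, hr₃, h3⟩ := th_inv h hε hε1 hs
  set r : ℝ := min r₁ (min r₂ r₃) / 2 with hr
  have hm : 0 < min r₁ (min r₂ r₃) := lt_min hr₁ (lt_min hr₂ hr₃)
  have hr0 : 0 < r := by
    rw [hr]
    linarith
  have hlt : r < min r₁ (min r₂ r₃) := by
    rw [hr]
    linarith
  have l1 : r < r₁ := lt_of_lt_of_le hlt (min_le_left _ _)
  have l2 : r < r₂ := lt_of_lt_of_le hlt (le_trans (min_le_right _ _) (min_le_left _ _))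
  have l3 : r < r₃ := lt_of_lt_of_le hlt (le_trans (min_le_right _ _) (min_le_right _ _))
  obtain ⟨ψ, hψ, hψ2⟩ := h3 r hr0 l3
  obtain ⟨hd, hc⟩ := th_reg h hr0
  exact ⟨Th p W S e r, ψ, hd, hc, h1 r hr0 l1, h2 r hr0 l2, hψ, hψ2⟩

/-- PROOF. `pk_of_support`, `tp_of_pk`, `sg_of_tp`, `trans_of_sg`. -/
theorem trans_of_support {D U : Set (En n)} {ρ : En n → ℝ} {h : En n → En n → Fin n → ℂ} {c : ℝ}
    (hs : SupportData D U ρ h c) {p : En n} (hp : p ∈ frontier D) : ∃ e, Trans D p e := by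
  obtain ⟨r, hpk⟩ := pk_of_support hs hp
  obtain ⟨B, hB⟩ := tp_of_pk hpk
  obtain ⟨W, S, e, κ, C, h⟩ := sg_of_tp hB
  exact ⟨e, trans_of_sg h⟩

end Pool.Agent.MPca0fc2.TB
end
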