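import Mathlib
import Pool.Agent.Lib.MP_ca0fc2_an.Mg.G021
import Pool.Agent.Lib.MP_ca0fc2_an.TWDefs
import Pool.Agent.Lib.MP_ca0fc2_an.Mg.G077

section

/-!
# Definitions of campaign TS (growth of corona solutions by the energy), MP_ca0fc2_an

`E` is a complex inner product space of dimension `m + 1`, `rt θ k = 1 - θ ^ k`,
`uk u θ k w = u (rt θ k • w)`, `dl θ k w = 1 - ‖rt θ k • w‖²`, `RC θ k = 1 + 3 θ ^ (k+1) / 4`,
`xk θ k w = θ ^ k / dl θ k w`, `gau d w v = ‖⟪w, v⟫‖ / d + ‖v‖ / √d`.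
-/

set_option autoImplicit false

open Metric Set MeasureTheory Filter Topology
open scoped InnerProductSpace ENNReal ContDiff

namespace Pool.Agent.MPca0fc2.TS

open Pool.Agent.MPca0fc2.PT
open Pool.Agent.MPca0fc2.QT

variable {E : Type*} [NormedAddCommGroup E] [InnerProductSpace ℂ E]
variable {V : Type*} [NormedAddCommGroup V] [NormedSpace ℂ V]

/-- radii of the descent: `RJ m θ 0 k = RC θ k`, `RJ m θ (m + 1) k = 1 + 3 θ ^ (k+1) / 8` -/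
noncomputable def RJ (m : ℕ) (θ : ℝ) (j k : ℕ) : ℝ :=
  1 + (3 / 4 - 3 * j / (8 * (m + 1))) * θ ^ (k + 1)

/-- the size of a form on the ball of radius `R`, at the level `k`, with the weight `Φ` -/
def BdG {q : ℕ} (θ : ℝ) (k : ℕ) (R : ℝ) (Φ : E → ℝ) (η : E → E [⋀^Fin q]→L[ℝ] V) : Prop :=
  ∀ w : E, ‖w‖ < R → ∀ v : Fin q → E, ‖η w v‖ ≤ Φ w * ∏ i, gau (dl θ k w) w (v i)

section meas

variable [MeasurableSpace E]

/-- finite measures on the open unit ball -/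
structure OnB (ν : Measure E) : Prop where
  fin : IsFiniteMeasure ν
  supp : ν (ball (0 : E) 1)ᶜ = 0

/-- the potential of exponent `p` -/
noncomputable def PP (ν : Measure E) (p : ℝ) (y : E) : ℝ := ∫ x, ‖1 - ⟪x, y⟫_ℂ‖ ^ (-p) ∂ν

/-- the potential at level `k` -/
noncomputable def Ik (ν : Measure E) (M : ℕ) (θ : ℝ) (k : ℕ) (w : E) : ℝ :=
  PP ν ((M : ℝ) + 1 / 4) ((rt θ k : ℂ) • w)

/-- the weight of the forms of the Koszul complex (degree at least one) -/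
noncomputable def Wk (ν : Measure E) (M : ℕ) (θ : ℝ) (k : ℕ) (w : E) : ℝ :=
  dl θ k w ^ (1 / 4 : ℝ) * Ik ν M θ k w

/-- the weight of the sources of second order -/
noncomputable def Uk (ν : Measure E) (M : ℕ) (θ : ℝ) (k : ℕ) (w : E) : ℝ :=
  xk θ k w * Wk ν M θ k w

/-- the increment of the bound in degree zero; a smooth function -/
noncomputable def ek (ν : Measure E) (M : ℕ) (θ : ℝ) (k : ℕ) (w : E) : ℝ :=
  (θ ^ k) ^ (1 / 4 : ℝ) * Ik ν M θ k w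

/-- the energy measure `(1 - |x|²)^M ∑ |∇̃ f_j|² dλ` -/
noncomputable def nuE (μ : Measure E) (m M : ℕ) {N : ℕ} (f : Fin N → E → ℂ) : Measure E :=
  (μ.restrict (ball 0 1)).withDensity
    fun x => ENNReal.ofReal ((1 - ‖x‖ ^ 2) ^ M * (∑ j, IG2 (f j) x) / (1 - ‖x‖ ^ 2) ^ (m + 2))

/-- estimates of the dilated data at the level `k`, on the ball of radius `RC θ (k + 1)` -/
structure Gd {N : ℕ} (f : Fin N → E → ℂ) (θ : ℝ) (ν : Measure E) (M : ℕ) (C : ℝ) : Prop where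
  g0 : ∀ (j : Fin N) (k : ℕ) (w v : E), ‖w‖ < RC θ (k + 1) → ‖fderiv ℝ (uk (f j) θ k) w v‖ ≤
    C * min 1 (Real.sqrt (Wk ν M θ k w)) * gau (dl θ k w) w v
  g1 : ∀ (j : Fin N) (k : ℕ) (w v : E), ‖w‖ < RC θ (k + 1) →
    ‖fderiv ℝ (uk (f j) θ (k + 1)) w v‖ ≤
      C * min 1 (Real.sqrt (Wk ν M θ k w)) * gau (dl θ k w) w v
  df : ∀ (j : Fin N) (k : ℕ) (w : E), ‖w‖ < RC θ (k + 1) →
    ‖uk (f j) θ (k + 1) w - uk (f j) θ k w‖ ≤
      C * xk θ k w * min 1 (Real.sqrt (Wk ν M θ k w))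

end meas

/-! ### the smooth solutions -/

variable {N : ℕ}

/-- the smooth solution `conj f / |f|²` at the level `k` -/
noncomputable def s0 (f : Fin N → E → ℂ) (θ : ℝ) (k : ℕ) (w : E) : Fin N → ℂ := fun j =>
  (starRingEnd ℂ) (uk (f j) θ k w) / ((∑ l, ‖uk (f l) θ k w‖ ^ 2 : ℝ) : ℂ)

/-- the normalizing factor -/
noncomputable def gk (f : Fin N → E → ℂ) (θ : ℝ) (k : ℕ) (w : E) : ℂ :=
  (FF f θ (k + 1) w (s0 f θ k w))⁻¹

/-- the solution at the level `k`, transported to the data of the level `k + 1` -/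
noncomputable def s1 (f : Fin N → E → ℂ) (θ : ℝ) (k : ℕ) (w : E) : Fin N → ℂ :=
  gk f θ k w • s0 f θ k w

/-- the homotopy between the two solutions at the level `k + 1` -/
noncomputable def JK (K : Car (Fin N → ℂ) V) (f : Fin N → E → ℂ) (θ : ℝ) (k r : ℕ) :
    E → E [⋀^Fin r]→L[ℝ] V := JJ K (s1 f θ k) (s0 f θ (k + 1)) r

/-- the forms of the Koszul complex at the level `k`, with corrections `T` -/
noncomputable def SS (K : Car (Fin N → ℂ) V) (f : Fin N → E → ℂ) (θ : ℝ)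
    (T : (r : ℕ) → ℕ → E → E [⋀^Fin r]→L[ℝ] V) (k r : ℕ) (w : E) : E [⋀^Fin r]→L[ℝ] V :=
  ∑ l ∈ Finset.range k, (JK K f θ l r w + T r l w)

/-- the source of the correction of degree `r`, level `k` (a form of degree `r + 1`) -/
noncomputable def Src (K : Car (Fin N → ℂ) V) (f : Fin N → E → ℂ) (θ : ℝ)
    (T : (r : ℕ) → ℕ → E → E [⋀^Fin r]→L[ℝ] V) (k r : ℕ) (w : E) : E [⋀^Fin (r + 1)]→L[ℝ] V :=
  (UU K (s1 f θ k) (r + 1) w - UU K (s0 f θ k) (r + 1) w) -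
    opc E V (r + 1) (K.c (FF f θ (k + 1) w - FF f θ k w)) (SS K f θ T k (r + 1) w) -
    opc E V (r + 1) (K.c (FF f θ (k + 1) w)) (T (r + 1) k w)

/-- the data -/
structure TD (f : Fin N → E → ℂ) (δ θ : ℝ) : Prop where
  θ0 : 0 < θ
  θ1 : θ < 1
  δ0 : 0 < δ
  hf : ∀ j, DifferentiableOn ℂ (f j) (ball 0 1)
  hfM : ∀ j, ∀ z ∈ ball (0 : E) 1, ‖f j z‖ ≤ 1
  hδ : ∀ z ∈ ball (0 : E) 1, δ ≤ ∑ j, ‖f j z‖ ^ 2
  small : ∀ (k : ℕ) (w : E), ‖w‖ < RC θ (k + 1) →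
    ‖FF f θ (k + 1) w (s0 f θ k w) - 1‖ ≤ 1 / 2

/-- the output of the descent: the corrections `T r k` (degree `r`, level `k`) -/
structure Des [MeasurableSpace E] (K : Car (Fin N → ℂ) V) (f : Fin N → E → ℂ) (θ : ℝ)
    (ν : Measure E) (M m : ℕ) (B : ℝ) (T : (r : ℕ) → ℕ → E → E [⋀^Fin r]→L[ℝ] V) : Prop where
  c1 : ∀ r k, ContDiffOn ℝ 1 (T r k) (ball 0 (RJ m θ (m + 1) (k + 1)))
  anti : ∀ r k, ∀ w ∈ ball (0 : E) (RJ m θ (m + 1) (k + 1)), Anti (T r k w)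
  db : ∀ r k, ∀ w ∈ ball (0 : E) (RJ m θ (m + 1) (k + 1)), db (T r k) w = Src K f θ T k r w
  bd : ∀ r k, BdG θ k (RJ m θ (m + 1) (k + 1)) (fun w => B * Uk ν M θ k w) (T r k)
  sc1 : ∀ r k, ContDiffOn ℝ 1 (SS K f θ T k r) (ball 0 (RJ m θ (m + 1) k))
  sdb : ∀ r k, ∀ w ∈ ball (0 : E) (RJ m θ (m + 1) k), QT.db (SS K f θ T k r) w =
    UU K (s0 f θ k) (r + 1) w - opc E V (r + 1) (K.c (FF f θ k w)) (SS K f θ T k (r + 1) w)
  sbd : ∀ r k, 1 ≤ r → BdG θ k (RJ m θ (m + 1) k) (fun w => B * Wk ν M θ k w) (SS K f θ T k r)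

end Pool.Agent.MPca0fc2.TS
end

section

/-!
# Definitions of campaign TE (extension of solutions from linear slices), MP_ca0fc2_an

`P` is an orthogonal projection of `E`, `pt P t z = P z + t (z - P z)`, `0 ≤ t ≤ 1`, is the point with
parameter `t` of the geodesic of the ball from `P z` to `z`; `Dp P t z = 1 - ‖pt P t z‖²`;
`rr P z = ‖z - P z‖ / √(1 - ‖P z‖²)`, so `Dp P t z = (1 - ‖P z‖²) (1 - t² rr²)`.
-/

set_option autoImplicit false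

open Metric Set MeasureTheory Filter Topology
open scoped InnerProductSpace ENNReal ContDiff

namespace Pool.Agent.MPca0fc2.TE

open Pool.Agent.MPca0fc2.PT
open Pool.Agent.MPca0fc2.QT
open Pool.Agent.MPca0fc2.TS

variable {E : Type*} [NormedAddCommGroup E] [InnerProductSpace ℂ E]
variable {V : Type*} [NormedAddCommGroup V] [NormedSpace ℂ V]

/-- orthogonal projections -/
structure Prj (P : E →L[ℂ] E) : Prop where
  idem : ∀ x, P (P x) = P x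
  sa : ∀ x y, ⟪P x, y⟫_ℂ = ⟪x, P y⟫_ℂ

/-- the geodesic from `P z` to `z` -/
noncomputable def pt (P : E →L[ℂ] E) (t : ℝ) (z : E) : E := P z + (t : ℂ) • (z - P z)

/-- the depth of `pt P t z` -/
noncomputable def Dp (P : E →L[ℂ] E) (t : ℝ) (z : E) : ℝ :=
  1 - ‖P z‖ ^ 2 - t ^ 2 * ‖z - P z‖ ^ 2

/-- the pseudohyperbolic distance of `z` from the image of `P` -/
noncomputable def rr (P : E →L[ℂ] E) (z : E) : ℝ := ‖z - P z‖ / Real.sqrt (1 - ‖P z‖ ^ 2)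

/-- the pull back of a form by `P` -/
noncomputable def pbk (P : E →L[ℂ] E) {q : ℕ} (η : E → E [⋀^Fin q]→L[ℝ] V) (w : E) :
    E [⋀^Fin q]→L[ℝ] V :=
  (η (P w)).compContinuousLinearMap (P.restrictScalars ℝ)

section meas

variable [MeasurableSpace E]

/-- the weight -/
noncomputable def Om (ν : Measure E) (M : ℕ) (y : E) : ℝ :=
  (1 - ‖y‖ ^ 2) ^ (1 / 4 : ℝ) * PP ν ((M : ℝ) + 1 / 4) y

/-- the integral of a weight over the geodesic from `P z` to `z` -/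
noncomputable def GI (Φ : E → ℝ) (P : E →L[ℂ] E) (z : E) : ℝ :=
  ∫ t in Icc (0 : ℝ) 1, Φ (pt P t z) * (rr P z / (1 - t ^ 2 * rr P z ^ 2))

/-- the weighted projection of the unit ball of a space of dimension `m + 1` -/
noncomputable def PQV (τ : ℕ) (μ : Measure E) (m : ℕ) (N : E → V) (z : E) : V :=
  ((TW.cW τ μ : ℝ) : ℂ)⁻¹ • ∫ w in ball (0 : E) 1,
    ((TW.WW τ w : ℝ) : ℂ) • ((1 - ⟪w, z⟫_ℂ) ^ (m + (τ + 6)))⁻¹ • N w ∂μ

/-- `(u ∘ gg a)` minus its projection, in the coordinates with the centre `a` -/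
noncomputable def LL (τ : ℕ) (μ : Measure E) (m : ℕ) (a : E) (N : E → V) (x : E) : V :=
  N x - ((TW.cW τ μ : ℝ) : ℂ)⁻¹ • ∫ y in ball (0 : E) 1,
    ((TW.WW τ y : ℝ) : ℂ) •
      (((1 + ⟪a, x⟫_ℂ) / ((1 + ⟪a, y⟫_ℂ) * (1 - ⟪y, x⟫_ℂ))) ^ (m + (τ + 6))) • N y ∂μ

end meas

/-! ### the transport -/

section step

variable {N : ℕ}

/-- complex conjugation -/
noncomputable def cjv (c : EuclideanSpace ℂ (Fin N)) : EuclideanSpace ℂ (Fin N) :=
  WithLp.toLp 2 fun j => (starRingEnd ℂ) (c j)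

/-- the bilinear product -/
noncomputable def dt (x y : EuclideanSpace ℂ (Fin N)) : ℂ := ∑ j, x j * y j

/-- the smallest solution -/
noncomputable def ee (c : EuclideanSpace ℂ (Fin N)) : EuclideanSpace ℂ (Fin N) :=
  ((‖c‖ ^ 2 : ℝ) : ℂ)⁻¹ • cjv c

/-- the step, as a rational function -/
noncomputable def Ph (e a g : EuclideanSpace ℂ (Fin N)) (k : ℂ) : EuclideanSpace ℂ (Fin N) :=
  ((1 + dt e g)⁻¹ - (1 + k * dt (a - e) g) * dt (a - e) g) • e +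
    ((1 + k * dt (a - e) g) * (1 + dt e g)) • (a - e)

/-- the step from the data `c` to the data `c + g` -/
noncomputable def Stp (κ : ℝ) (c a g : EuclideanSpace ℂ (Fin N)) : EuclideanSpace ℂ (Fin N) :=
  Ph (ee c) a g ((κ / ‖c‖ ^ 4 : ℝ) : ℂ)

/-- the barrier -/
noncomputable def QQ (c a : EuclideanSpace ℂ (Fin N)) : ℝ := ‖a - ee c‖ ^ 2 / ‖c‖ ^ 2

/-- the discrete transport along the geodesics, `K` steps -/
noncomputable def aK (κ : ℝ) (f g : E → EuclideanSpace ℂ (Fin N)) (P : E →L[ℂ] E) (K : ℕ) :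
    ℕ → E → EuclideanSpace ℂ (Fin N)
  | 0 => fun z => g (P z)
  | i + 1 => fun z => Stp κ (f (pt P ((i : ℝ) / K) z)) (aK κ f g P K i z)
      (f (pt P (((i : ℝ) + 1) / K) z) - f (pt P ((i : ℝ) / K) z))

end step

end Pool.Agent.MPca0fc2.TE
end

section

/-!
# Definitions of campaign TH (sharp threshold at a boundary point of a strictly pseudoconvex domain)

`Chart`: the maps `Θ r` of `D` to (nearly) the ball at the scales `r`, the peak function `W` at `p`.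
`Blk2`: a sequence of bad data at well separated scales. `fD`: the data on `D`.
-/

set_option autoImplicit false

open Metric Set Filter Topology

namespace Pool.Agent.MPca0fc2.TH

open Pool.Agent.MPca0fc2.TB

/-- the maps `Θ r` at the boundary point `p` of `D`, with the peak function `W` -/
structure Chart {n : ℕ} (D : Set (En n)) (p e : En n) (W : En n → ℂ) (Θ : ℝ → En n → En n)
    (s K : ℝ) : Prop where
  e1 : ‖e‖ = 1
  s0 : 0 < s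
  K1 : 1 ≤ K
  opn : IsOpen D
  Wc : ContinuousOn W (closure D)
  Wq : ∀ z ∈ closure D, ‖z - p‖ ^ 2 ≤ K * ‖W z‖
  Wb : ∀ z ∈ closure D, ‖W z‖ ≤ K
  hol : ∀ r, 0 < r → DifferentiableOn ℂ (Θ r) D
  cont : ∀ r, 0 < r → ContinuousOn (Θ r) (closure D)
  near : ∀ r, 0 < r → ∀ z ∈ closure D, ‖Θ r z - e‖ ≤ K * (√‖W z‖ / r)
  far : ∀ r, 0 < r → ∀ z ∈ closure D, z ≠ p → ‖Θ r z + e‖ ≤ K * (r / √‖W z‖)
  up : ∀ R, 1 < R → ∃ r₀ > 0, ∀ r, 0 < r → r < r₀ → ∀ z ∈ closure D, ‖Θ r z‖ < R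
  grad : ∀ r, 0 < r → ∀ φ : ℂ → En n, DifferentiableOn ℂ φ (ball 0 1) →
    (∀ x ∈ ball (0 : ℂ) 1, φ x ∈ D ∩ ball p s) →
    ‖deriv (fun x => Θ r (φ x)) 0‖ ≤ K * √(infDist (φ 0) Dᶜ / ‖W (φ 0)‖) *
      min (√‖W (φ 0)‖ / r) (r / √‖W (φ 0)‖)
  inv : ∀ k, 0 < k → k < 1 → ∃ r₀ > 0, ∀ r, 0 < r → r < r₀ → ∃ ψ : En n → En n,
    DifferentiableOn ℂ ψ (ball 0 k) ∧ ∀ x ∈ ball (0 : En n) k, ψ x ∈ D ∧ Θ r (ψ x) = x ∧
      (1 - k) / 2 * r ^ 2 ≤ ‖W (ψ x)‖ ∧ ‖W (ψ x)‖ ≤ 2 / (1 - k) * r ^ 2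
  lin : ∃ l : En n →L[ℂ] ℂ, l ≠ 0 ∧
    (∀ z, ‖z - p‖ < s → K * ‖z - p‖ ^ 2 < (l (z - p)).re → z ∈ D) ∧
    ∀ z ∈ closure D, ‖z - p‖ < s → ‖l (z - p)‖ ≤ K * ‖W z‖

/-- a sequence of bad data at well separated scales -/
structure Blk2 {n N : ℕ} (D : Set (En n)) (e : En n) (W : En n → ℂ) (Θ : ℝ → En n → En n)
    (K δ₀ κ C : ℝ) (c₀ : En N) (lam : ℝ → ℝ) (H : ℕ → En n → En N)
    (L R m k r : ℕ → ℝ) : Prop where
  κ0 : 0 < κ
  κ1 : κ ≤ 1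
  c0 : δ₀ ≤ ‖c₀‖ ∧ ‖c₀‖ ≤ 1
  L1 : ∀ j, 1 ≤ L j
  m1 : ∀ j, 1 ≤ m j
  kk : ∀ j, 0 < k j ∧ k j < 1
  hol : ∀ j, DifferentiableOn ℂ (H j) (ball 0 (R j))
  bd : ∀ j, ∀ z ∈ ball (0 : En n) (R j), δ₀ - κ ≤ ‖H j z‖ ∧ ‖H j z‖ ≤ 1 + κ
  dr : ∀ j, ∀ z ∈ ball (0 : En n) (R j), ‖fderiv ℂ (H j) z‖ ≤ L j
  lp : ∀ j, ∀ z ∈ ball (0 : En n) (R j), ‖H j z - c₀‖ ≤ L j * ‖z - e‖
  lm : ∀ j, ∀ z ∈ ball (0 : En n) (R j), ‖H j z - c₀‖ ≤ L j * ‖z + e‖
  ns : ∀ j, ¬ Solv (H j) (ball 0 (k j)) j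
  mk2 : ∀ j, 2 / (1 - k j) ≤ m j
  mL : ∀ j, K * L j ≤ κ / 4 ^ (j + 1) * √(m j)
  r0 : ∀ j, 0 < r j ∧ r j < 1
  rR : ∀ j, ∀ z ∈ closure D, ‖Θ (r j) z‖ < R j
  ri : ∀ j, ∃ ψ : En n → En n, DifferentiableOn ℂ ψ (ball 0 (k j)) ∧
    ∀ x ∈ ball (0 : En n) (k j), ψ x ∈ D ∧ Θ (r j) (ψ x) = x ∧
      (1 - k j) / 2 * r j ^ 2 ≤ ‖W (ψ x)‖ ∧ ‖W (ψ x)‖ ≤ 2 / (1 - k j) * r j ^ 2
  lamb : ∀ j, C * (κ + K * L j) ^ 2 ≤ lam (C * (m j * r j ^ 2))
  sep : ∀ i j, i < j → K * max (L i) (L j) * (√(m i * m j) * (r j / r i)) ≤ κ / 4 ^ (j + 1)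

/-- the data -/
noncomputable def fD {n N : ℕ} (c₀ : En N) (Θ : ℝ → En n → En n) (H : ℕ → En n → En N)
    (r : ℕ → ℝ) (z : En n) : En N := c₀ + ∑' j, (H j (Θ (r j) z) - c₀)

end Pool.Agent.MPca0fc2.TH
end

section

set_option autoImplicit false

open Metric Set Filter Topology
open scoped InnerProductSpace

namespace Pool.Agent.MPca0fc2.TH

open Pool.Agent.MPca0fc2.TB

variable {n N : ℕ} {D : Set (En n)} {p e : En n} {W : En n → ℂ} {Θ : ℝ → En n → En n}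
  {s K δ₀ κ C : ℝ} {c₀ : En N} {lam : ℝ → ℝ} {H : ℕ → En n → En N} {L R m k r : ℕ → ℝ}

private lemma S4_cs {N : ℕ} (a b : En N) : ‖∑ j, a j * b j‖ ≤ ‖a‖ * ‖b‖ := by
  refine (norm_sum_le _ _).trans ?_
  have h1 : ∑ j, ‖a j * b j‖ = ∑ j, ‖a j‖ * ‖b j‖ := Finset.sum_congr rfl fun j _ => norm_mul _ _
  rw [h1, EuclideanSpace.norm_eq, EuclideanSpace.norm_eq]
  exact Real.sum_mul_le_sqrt_mul_sqrt _ _ _

/-- the windows shrink to `p` -/
theorem blk2_shrink (hCh : Chart D p e W Θ s K) (h : Blk2 D e W Θ K δ₀ κ C c₀ lam H L R m k r)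
    {η : ℝ} (hη : 0 < η) : ∀ᶠ j : ℕ in atTop, ∀ z ∈ D, ‖W z‖ ≤ m j * r j ^ 2 → z ∈ ball p η := by
  have hK := hCh.K1
  have hlim : Tendsto (fun j : ℕ => K * (r 0 * (1 / 4 : ℝ) ^ (j + 1)) ^ 2) atTop (𝓝 0) := by
    have h1 : Tendsto (fun j : ℕ => (1 / 4 : ℝ) ^ j) atTop (𝓝 0) :=
      tendsto_pow_atTop_nhds_zero_of_lt_one (by norm_num) (by norm_num)
    have h2 := (h1.comp (tendsto_add_atTop_nat 1)).const_mul (r 0)
    have h3 := (h2.pow 2).const_mul K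
    simpa using h3
  filter_upwards [hlim.eventually (gt_mem_nhds (show (0 : ℝ) < η ^ 2 by positivity)),
    eventually_gt_atTop 0] with j hj hj0 z hz hW
  have hm0 := h.m1 0
  have hmj := h.m1 j
  have hLj := h.L1 j
  have hr0 := h.r0 0
  have hrj := h.r0 j
  have hsep := h.sep 0 j hj0
  have h4 : √(m j) * r j ≤ r 0 * (1 / 4 : ℝ) ^ (j + 1) := by
    have e1 : √(m j) ≤ √(m 0 * m j) := Real.sqrt_le_sqrt (by nlinarith)
    have e2 : 1 ≤ K * max (L 0) (L j) := by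
      have : 1 ≤ max (L 0) (L j) := hLj.trans (le_max_right _ _)
      nlinarith
    have e3 : √(m j) * (r j / r 0) ≤ κ / 4 ^ (j + 1) := by
      refine le_trans ?_ hsep
      have e4 : 0 ≤ √(m 0 * m j) * (r j / r 0) :=
        mul_nonneg (Real.sqrt_nonneg _) (div_nonneg hrj.1.le hr0.1.le)
      calc √(m j) * (r j / r 0) ≤ √(m 0 * m j) * (r j / r 0) :=
            mul_le_mul_of_nonneg_right e1 (div_nonneg hrj.1.le hr0.1.le)
        _ = 1 * (√(m 0 * m j) * (r j / r 0)) := by rw [one_mul]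
        _ ≤ K * max (L 0) (L j) * (√(m 0 * m j) * (r j / r 0)) :=
            mul_le_mul_of_nonneg_right e2 e4
    have e5 : κ / 4 ^ (j + 1) ≤ (1 / 4 : ℝ) ^ (j + 1) := by
      rw [one_div, inv_pow, div_eq_mul_inv]
      exact mul_le_of_le_one_left (by positivity) h.κ1
    calc √(m j) * r j = r 0 * (√(m j) * (r j / r 0)) := by
          field_simp [hr0.1.ne']
      _ ≤ r 0 * (1 / 4 : ℝ) ^ (j + 1) := mul_le_mul_of_nonneg_left (e3.trans e5) hr0.1.le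
  have h5 : m j * r j ^ 2 ≤ (r 0 * (1 / 4 : ℝ) ^ (j + 1)) ^ 2 := by
    have e1 : m j * r j ^ 2 = (√(m j) * r j) ^ 2 := by
      rw [mul_pow, Real.sq_sqrt (by linarith)]
    rw [e1]
    exact pow_le_pow_left₀ (mul_nonneg (Real.sqrt_nonneg _) hrj.1.le) h4 2
  have h6 := hCh.Wq z (subset_closure hz)
  have h7 : ‖z - p‖ ^ 2 < η ^ 2 := by
    refine lt_of_le_of_lt (h6.trans ?_) hj
    exact mul_le_mul_of_nonneg_left (hW.trans h5) (by linarith)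
  rw [mem_ball, dist_eq_norm]
  exact lt_of_pow_lt_pow_left₀ 2 hη.le h7

/-- No bounded solution near `p`. PROOF. As `SH.blk_ns` (SH/B8.lean) with `ψ` of `h.ri` in place of `psd`. -/
theorem fD_ns (hCh : Chart D p e W Θ s K) (h : Blk2 D e W Θ K δ₀ κ C c₀ lam H L R m k r)
    {f : En n → En N}
    (hf : ∀ j, ∀ z ∈ D, r j ^ 2 / m j ≤ ‖W z‖ → ‖W z‖ ≤ m j * r j ^ 2 →
      ‖f z - H j (Θ (r j) z)‖ ≤ κ / 2 ^ j) {η : ℝ} (hη : 0 < η) (A : ℝ) :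
    ¬ Solv f (D ∩ ball p η) A := by
  rintro ⟨g, hg1, hg2, hg3⟩
  -- choice of j
  have hlim : Tendsto (fun j : ℕ => κ / 2 ^ j * A) atTop (𝓝 0) := by
    have h1 : Tendsto (fun j : ℕ => (κ * A) * (1 / 2 : ℝ) ^ j) atTop (𝓝 ((κ * A) * 0)) :=
      (tendsto_pow_atTop_nhds_zero_of_lt_one (by norm_num) (by norm_num)).const_mul _
    rw [mul_zero] at h1
    refine h1.congr fun j => ?_
    rw [one_div, inv_pow]
    field_simp
  have hev1 : ∀ᶠ j : ℕ in atTop, κ / 2 ^ j * A < 1 / 2 :=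
    hlim.eventually (gt_mem_nhds (by norm_num))
  have hev2 : ∀ᶠ j : ℕ in atTop, 2 * A ≤ (j : ℝ) :=
    tendsto_natCast_atTop_atTop.eventually_ge_atTop (2 * A)
  obtain ⟨j, ⟨hj1, hj2⟩, hj3⟩ := ((hev1.and hev2).and (blk2_shrink hCh h hη)).exists
  obtain ⟨hr0, hr1⟩ := h.r0 j
  obtain ⟨hk0, hk1⟩ := h.kk j
  obtain ⟨ψ, hψ, hψ1⟩ := h.ri j
  have hκ0 : 0 ≤ κ / 2 ^ j := (div_pos h.κ0 (by positivity)).le
  have hm0 : 0 < m j := zero_lt_one.trans_le (h.m1 j)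
  have hkp : 0 < 1 - k j := by linarith
  have hwin : ∀ x ∈ ball (0 : En n) (k j), r j ^ 2 / m j ≤ ‖W (ψ x)‖ ∧
      ‖W (ψ x)‖ ≤ m j * r j ^ 2 := by
    intro x hx
    obtain ⟨-, -, h3, h4⟩ := hψ1 x hx
    have hmk := h.mk2 j
    constructor
    · refine le_trans ?_ h3
      rw [div_le_iff₀ hm0]
      have h5 : 1 ≤ (1 - k j) / 2 * m j := by
        rw [div_le_iff₀ hkp] at hmk
        linarith
      have h6 : 0 ≤ r j ^ 2 := sq_nonneg _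
      nlinarith
    · exact h4.trans (mul_le_mul_of_nonneg_right hmk (sq_nonneg _))
  have hmem : ∀ x ∈ ball (0 : En n) (k j), ψ x ∈ D ∩ ball p η := fun x hx =>
    ⟨(hψ1 x hx).1, hj3 _ (hψ1 x hx).1 (hwin x hx).2⟩
  have hclose : ∀ x ∈ ball (0 : En n) (k j), ‖f (ψ x) - H j x‖ ≤ κ / 2 ^ j := by
    intro x hx
    have h5 := hf j (ψ x) (hψ1 x hx).1 (hwin x hx).1 (hwin x hx).2
    rwa [(hψ1 x hx).2.1] at h5
  set u : En n → ℂ := fun x => ∑ l, H j x l * g (ψ x) l with hu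
  have hu1 : ∀ x ∈ ball (0 : En n) (k j), ‖1 - u x‖ ≤ 1 / 2 := by
    intro x hx
    have h4 := hg3 _ (hmem x hx)
    have h5 : 1 - u x = ∑ l, (f (ψ x) - H j x) l * g (ψ x) l := by
      rw [hu, ← h4, ← Finset.sum_sub_distrib]
      refine Finset.sum_congr rfl fun l _ => ?_
      simp only [PiLp.sub_apply]
      ring
    rw [h5]
    refine (S4_cs _ _).trans ?_
    refine (mul_le_mul (hclose x hx) (hg2 _ (hmem x hx)) (norm_nonneg _) hκ0).trans hj1.le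
  have hu2 : ∀ x ∈ ball (0 : En n) (k j), 1 / 2 ≤ ‖u x‖ := by
    intro x hx
    have h1 := hu1 x hx
    have h2 : (1 : ℝ) ≤ ‖1 - u x‖ + ‖u x‖ := by
      calc (1 : ℝ) = ‖(1 - u x) + u x‖ := by simp
        _ ≤ ‖1 - u x‖ + ‖u x‖ := norm_add_le _ _
    linarith
  have hu3 : ∀ x ∈ ball (0 : En n) (k j), u x ≠ 0 := by
    intro x hx h0
    have := hu2 x hx
    rw [h0, norm_zero] at this
    linarith
  have hbR : ball (0 : En n) (k j) ⊆ ball 0 (R j) := by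
    intro x hx
    have h1 := h.rR j (ψ x) (subset_closure (hψ1 x hx).1)
    rw [(hψ1 x hx).2.1] at h1
    exact mem_ball_zero_iff.2 h1
  have hHd : DifferentiableOn ℂ (H j) (ball 0 (k j)) := (h.hol j).mono hbR
  have hgd : DifferentiableOn ℂ (fun x : En n => g (ψ x)) (ball 0 (k j)) :=
    hg1.comp hψ hmem
  have hcoord : ∀ {G : En n → En N} {E : Set (En n)}, DifferentiableOn ℂ G E → ∀ l : Fin N,
      DifferentiableOn ℂ (fun x => G x l) E := by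
    intro G E hG l
    exact ((EuclideanSpace.proj l : En N →L[ℂ] ℂ).differentiable.comp_differentiableOn hG)
  have hud : DifferentiableOn ℂ u (ball 0 (k j)) := by
    apply DifferentiableOn.fun_sum
    intro l _
    exact (hcoord hHd l).mul (hcoord hgd l)
  refine h.ns j ⟨fun x => (u x)⁻¹ • g (ψ x), ?_, ?_, ?_⟩
  · exact (hud.inv hu3).smul hgd
  · intro x hx
    rw [norm_smul, norm_inv]
    have h1 := hu2 x hx
    have h2 : ‖u x‖⁻¹ ≤ 2 := by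
      rw [inv_le_comm₀ (by linarith) (by norm_num)]
      linarith
    calc ‖u x‖⁻¹ * ‖g (ψ x)‖ ≤ 2 * A :=
          mul_le_mul h2 (hg2 _ (hmem x hx)) (norm_nonneg _) (by norm_num)
      _ ≤ j := hj2
  · intro x hx
    have h1 : ∀ l, H j x l * ((u x)⁻¹ • g (ψ x)) l =
        (u x)⁻¹ * (H j x l * g (ψ x) l) := by
      intro l
      simp only [PiLp.smul_apply, smul_eq_mul]
      ring
    rw [Finset.sum_congr rfl fun l _ => h1 l, ← Finset.mul_sum]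
    exact inv_mul_cancel₀ (hu3 x hx)

end Pool.Agent.MPca0fc2.TH
end
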