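import Mathlib
import Pool.Agent.Lib.MP_ca0fc2_an.Mg.G050
import Pool.Agent.Lib.MP_ca0fc2_an.Holo

section

set_option autoImplicit false

open Metric Set MeasureTheory Filter Topology
open scoped InnerProductSpace ENNReal NNReal

namespace Pool.Agent.MPca0fc2.SD

variable {E : Type*} [NormedAddCommGroup E] [InnerProductSpace ℂ E]

theorem norm_inner_le_one {w z : E} (hw : ‖w‖ ≤ 1) (hz : ‖z‖ ≤ 1) : ‖⟪w, z⟫_ℂ‖ ≤ 1 := by
  calc ‖⟪w, z⟫_ℂ‖ ≤ ‖w‖ * ‖z‖ := norm_inner_le_norm w z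
    _ ≤ 1 := by nlinarith [norm_nonneg w, norm_nonneg z]

variable [FiniteDimensional ℂ E] [MeasurableSpace E] [BorelSpace E]

/-- the `L²` norm of the Bergman kernel -/
theorem kernel_sq (μ : Measure E) [μ.IsAddHaarMeasure] (m : ℕ)
    (hm : 1 ≤ m) (hdim : Module.finrank ℂ E = m + 1) {z : E} (hz : ‖z‖ < 1) :
    ∫ w in ball (0 : E) 1, (1 / ‖1 - ⟪w, z⟫_ℂ‖ ^ (m + 2)) ^ 2 ∂μ =
      μ.real (ball 0 1) * (1 / (1 - ‖z‖ ^ 2) ^ (m + 2)) := by
  obtain ⟨R, hR1, hRz⟩ : ∃ R : ℝ, 1 < R ∧ ‖z‖ * R < 1 := by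
    refine ⟨2 / (1 + ‖z‖), ?_, ?_⟩
    · rw [lt_div_iff₀ (by positivity)]
      linarith
    · rw [← mul_div_assoc, div_lt_one (by positivity)]
      linarith
  have hne : ∀ w ∈ ball (0 : E) R, 1 - ⟪z, w⟫_ℂ ≠ 0 := by
    intro w hw h0
    rw [mem_ball_zero_iff] at hw
    have h1 : ⟪z, w⟫_ℂ = 1 := (sub_eq_zero.mp h0).symm
    have h2 : ‖⟪z, w⟫_ℂ‖ = 1 := by rw [h1]; simp
    have h3 := norm_inner_le_norm (𝕜 := ℂ) z w
    rw [h2] at h3
    have : ‖z‖ * ‖w‖ ≤ ‖z‖ * R := mul_le_mul_of_nonneg_left hw.le (norm_nonneg _)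
    linarith
  have hF : DifferentiableOn ℂ (fun w : E => 1 / (1 - ⟪z, w⟫_ℂ) ^ (m + 2)) (ball 0 R) := by
    intro w hw
    apply DifferentiableAt.differentiableWithinAt
    have h1 : DifferentiableAt ℂ (fun w : E => (1 - ⟪z, w⟫_ℂ) ^ (m + 2)) w := by
      apply DifferentiableAt.pow
      apply (differentiableAt_const _).sub
      exact (innerSL ℂ z).differentiableAt
    have h2 := h1.inv (pow_ne_zero _ (hne w hw))
    refine h2.congr_of_eventuallyEq (Eventually.of_forall fun b => ?_)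
    simp
  have h := bergman_ball μ m hm hdim hR1 hF hz
  have h1 : ∀ w : E, 1 / (1 - ⟪z, w⟫_ℂ) ^ (m + 2) / (1 - ⟪w, z⟫_ℂ) ^ (m + 2) =
      (((1 / ‖1 - ⟪w, z⟫_ℂ‖ ^ (m + 2)) ^ 2 : ℝ) : ℂ) := by
    intro w
    have h2 : (1 - ⟪z, w⟫_ℂ) = (starRingEnd ℂ) (1 - ⟪w, z⟫_ℂ) := by
      rw [map_sub, map_one, inner_conj_symm]
    rw [h2, div_div, ← mul_pow, Complex.conj_mul']
    push_cast
    rw [div_pow, one_pow, ← pow_mul, ← pow_mul, mul_comm 2 (m + 2)]
  simp only [h1] at h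
  have h4 := integral_complex_ofReal (μ := μ.restrict (ball (0 : E) 1))
    (f := fun w : E => (1 / ‖1 - ⟪w, z⟫_ℂ‖ ^ (m + 2)) ^ 2)
  rw [h4] at h
  have h3 : (1 : ℂ) / (1 - ⟪z, z⟫_ℂ) ^ (m + 2) = ((1 / (1 - ‖z‖ ^ 2) ^ (m + 2) : ℝ) : ℂ) := by
    rw [inner_self_eq_norm_sq_to_K]
    push_cast
    rfl
  rw [h3] at h
  exact_mod_cast h

theorem vol_est (μ : Measure E) [μ.IsAddHaarMeasure] (m : ℕ)
    (hm : 1 ≤ m) (hdim : Module.finrank ℂ E = m + 1) {z : E} (hz : ‖z‖ ≤ 1) {τ : ℝ} (hτ : 0 < τ) :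
    (μ.restrict (ball 0 1)).real {w | ‖1 - ⟪w, z⟫_ℂ‖ < τ} ≤
      4 ^ (m + 2) * μ.real (ball 0 1) * τ ^ (m + 2) := by
  have hprop : ProperSpace E := FiniteDimensional.proper ℂ E
  have hfin : IsFiniteMeasure (μ.restrict (ball (0 : E) 1)) :=
    ⟨by rw [Measure.restrict_apply_univ]; exact measure_ball_lt_top⟩
  rcases le_or_gt 1 τ with h1 | h1
  · calc (μ.restrict (ball 0 1)).real {w | ‖1 - ⟪w, z⟫_ℂ‖ < τ}
        ≤ (μ.restrict (ball 0 1)).real univ := measureReal_mono (subset_univ _)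
      _ = μ.real (ball 0 1) := by
        rw [measureReal_def, Measure.restrict_apply_univ, measureReal_def]
      _ = 1 * μ.real (ball 0 1) * 1 := by ring
      _ ≤ 4 ^ (m + 2) * μ.real (ball 0 1) * τ ^ (m + 2) := by
        apply mul_le_mul _ (one_le_pow₀ h1) (by norm_num) (by positivity)
        apply mul_le_mul_of_nonneg_right _ measureReal_nonneg
        exact one_le_pow₀ (by norm_num)
  · have hs0 : 0 ≤ 1 - τ := by linarith
    have hzs : ‖((1 - τ : ℝ) : ℂ) • z‖ ≤ 1 - τ := by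
      rw [norm_smul, Complex.norm_real, Real.norm_of_nonneg hs0]
      nlinarith [norm_nonneg z]
    have hzs1 : ‖((1 - τ : ℝ) : ℂ) • z‖ < 1 := by linarith
    have hk := kernel_sq μ m hm hdim hzs1
    have hpos : ∀ w ∈ ball (0 : E) 1, 0 < ‖1 - ⟪w, ((1 - τ : ℝ) : ℂ) • z⟫_ℂ‖ := by
      intro w hw
      rw [mem_ball_zero_iff] at hw
      rw [norm_pos_iff]
      intro h0
      have h2 : ⟪w, ((1 - τ : ℝ) : ℂ) • z⟫_ℂ = 1 := (sub_eq_zero.mp h0).symm
      have h3 := norm_inner_le_norm (𝕜 := ℂ) w (((1 - τ : ℝ) : ℂ) • z)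
      rw [h2, norm_one] at h3
      nlinarith [norm_nonneg w, norm_nonneg (((1 - τ : ℝ) : ℂ) • z)]
    have hint : Integrable (fun w : E => (1 / ‖1 - ⟪w, ((1 - τ : ℝ) : ℂ) • z⟫_ℂ‖ ^ (m + 2)) ^ 2)
        (μ.restrict (ball 0 1)) := by
      have hlow : ∀ w ∈ ball (0 : E) 1, τ ≤ ‖1 - ⟪w, ((1 - τ : ℝ) : ℂ) • z⟫_ℂ‖ := by
        intro w hw
        rw [mem_ball_zero_iff] at hw
        have h3 : ‖⟪w, ((1 - τ : ℝ) : ℂ) • z⟫_ℂ‖ ≤ 1 - τ := by
          refine (norm_inner_le_norm (𝕜 := ℂ) w (((1 - τ : ℝ) : ℂ) • z)).trans ?_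
          nlinarith [norm_nonneg w, norm_nonneg (((1 - τ : ℝ) : ℂ) • z)]
        calc τ ≤ ‖(1 : ℂ)‖ - ‖⟪w, ((1 - τ : ℝ) : ℂ) • z⟫_ℂ‖ := by rw [norm_one]; linarith
          _ ≤ _ := norm_sub_norm_le _ _
      refine Integrable.mono' (g := fun _ => (1 / τ ^ (m + 2)) ^ 2) (integrable_const _) ?_ ?_
      · apply ContinuousOn.aestronglyMeasurable _ measurableSet_ball
        apply ContinuousOn.pow
        apply ContinuousOn.div continuousOn_const (by fun_prop)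
        intro w hw
        exact (pow_pos (hpos w hw) _).ne'
      · refine (ae_restrict_iff' measurableSet_ball).mpr (Eventually.of_forall fun w hw => ?_)
        rw [Real.norm_of_nonneg (by positivity)]
        have := hlow w hw
        gcongr
    have hmarkov := mul_meas_ge_le_integral_of_nonneg (μ := μ.restrict (ball 0 1))
      (f := fun w : E => (1 / ‖1 - ⟪w, ((1 - τ : ℝ) : ℂ) • z⟫_ℂ‖ ^ (m + 2)) ^ 2)
      (Eventually.of_forall fun w => by positivity) hint ((1 / (2 * τ) ^ (m + 2)) ^ 2)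
    rw [hk] at hmarkov
    have hset : (μ.restrict (ball 0 1)).real {w | ‖1 - ⟪w, z⟫_ℂ‖ < τ} ≤
        (μ.restrict (ball 0 1)).real {w : E | (1 / (2 * τ) ^ (m + 2)) ^ 2 ≤
          (1 / ‖1 - ⟪w, ((1 - τ : ℝ) : ℂ) • z⟫_ℂ‖ ^ (m + 2)) ^ 2} := by
      rw [measureReal_def, measureReal_def]
      apply ENNReal.toReal_mono (measure_ne_top _ _)
      apply measure_mono_ae
      have : ∀ᵐ w ∂(μ.restrict (ball (0 : E) 1)), w ∈ ball (0 : E) 1 :=
        ae_restrict_mem measurableSet_ball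
      filter_upwards [this] with w hw
      intro (hwz : ‖1 - ⟪w, z⟫_ℂ‖ < τ)
      show (1 / (2 * τ) ^ (m + 2)) ^ 2 ≤ (1 / ‖1 - ⟪w, ((1 - τ : ℝ) : ℂ) • z⟫_ℂ‖ ^ (m + 2)) ^ 2
      have h4 : ‖1 - ⟪w, ((1 - τ : ℝ) : ℂ) • z⟫_ℂ‖ ≤ 2 * τ := by
        rw [mem_ball_zero_iff] at hw
        have h5 := norm_inner_le_one hw.le hz
        rw [inner_smul_right]
        calc ‖1 - ((1 - τ : ℝ) : ℂ) * ⟪w, z⟫_ℂ‖ = ‖(1 - ⟪w, z⟫_ℂ) + (τ : ℂ) * ⟪w, z⟫_ℂ‖ := by
              congr 1; push_cast; ring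
          _ ≤ ‖1 - ⟪w, z⟫_ℂ‖ + ‖(τ : ℂ) * ⟪w, z⟫_ℂ‖ := norm_add_le _ _
          _ ≤ τ + τ * 1 := by
            rw [norm_mul, Complex.norm_real, Real.norm_of_nonneg hτ.le]
            gcongr
          _ = 2 * τ := by ring
      have h6 := hpos w hw
      gcongr
    have h7 : 1 / (1 - ‖((1 - τ : ℝ) : ℂ) • z‖ ^ 2) ^ (m + 2) ≤ 1 / τ ^ (m + 2) := by
      have h8 : τ ≤ 1 - ‖((1 - τ : ℝ) : ℂ) • z‖ ^ 2 := by
        nlinarith [norm_nonneg (((1 - τ : ℝ) : ℂ) • z)]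
      gcongr
    have h9 : (1 / (2 * τ) ^ (m + 2)) ^ 2 * (μ.restrict (ball 0 1)).real {w | ‖1 - ⟪w, z⟫_ℂ‖ < τ} ≤
        μ.real (ball 0 1) * (1 / τ ^ (m + 2)) := by
      calc _ ≤ (1 / (2 * τ) ^ (m + 2)) ^ 2 * (μ.restrict (ball 0 1)).real
            {w : E | (1 / (2 * τ) ^ (m + 2)) ^ 2 ≤
          (1 / ‖1 - ⟪w, ((1 - τ : ℝ) : ℂ) • z⟫_ℂ‖ ^ (m + 2)) ^ 2} := by
            apply mul_le_mul_of_nonneg_left hset (by positivity)
        _ ≤ _ := hmarkov
        _ ≤ _ := mul_le_mul_of_nonneg_left h7 measureReal_nonneg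
    have h10 : (1 / (2 * τ) ^ (m + 2)) ^ 2 = (1 / 4 ^ (m + 2)) * (1 / τ ^ (m + 2)) * (1 / τ ^ (m + 2)) := by
      rw [div_pow, one_pow, ← pow_mul, mul_comm (m + 2) 2, pow_mul, mul_pow, mul_pow]
      norm_num
      ring
    rw [h10] at h9
    have hτp : 0 < τ ^ (m + 2) := pow_pos hτ _
    have h4p : (0 : ℝ) < 4 ^ (m + 2) := by positivity
    have h11 := mul_le_mul_of_nonneg_left h9 (mul_pos h4p (mul_pos hτp hτp)).le
    have h12 : 4 ^ (m + 2) * (τ ^ (m + 2) * τ ^ (m + 2)) *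
        ((1 / 4 ^ (m + 2)) * (1 / τ ^ (m + 2)) * (1 / τ ^ (m + 2)) *
          (μ.restrict (ball 0 1)).real {w | ‖1 - ⟪w, z⟫_ℂ‖ < τ}) =
        (μ.restrict (ball 0 1)).real {w | ‖1 - ⟪w, z⟫_ℂ‖ < τ} := by
      field_simp
    rw [h12] at h11
    refine h11.trans (le_of_eq ?_)
    field_simp

theorem kernel_lint (μ : Measure E) [μ.IsAddHaarMeasure] (m : ℕ)
    (hm : 1 ≤ m) (hdim : Module.finrank ℂ E = m + 1) {z : E} (hz : ‖z‖ ≤ 1) {t : ℝ} (ht : 0 < t) :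
    ∫⁻ w in ball (0 : E) 1,
      ENNReal.ofReal ((1 / (‖1 - ⟪w, z⟫_ℂ‖ + t)) ^ ((m + 2 : ℝ) + 1 / 2)) ∂μ ≤
      ENNReal.ofReal (((m + 2 : ℝ) + 1 / 2) * (4 ^ (m + 2) * μ.real (ball 0 1) *
        (2 * (1 / t) ^ (1 / 2 : ℝ)))) := by
  have hprop : ProperSpace E := FiniteDimensional.proper ℂ E
  have hfin : IsFiniteMeasure (μ.restrict (ball (0 : E) 1)) :=
    ⟨by rw [Measure.restrict_apply_univ]; exact measure_ball_lt_top⟩
  set D : ℝ := 4 ^ (m + 2) * μ.real (ball 0 1) with hD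
  have hD0 : 0 ≤ D := by rw [hD]; exact mul_nonneg (by positivity) measureReal_nonneg
  set p : ℝ := (m + 2 : ℝ) + 1 / 2 with hp
  have hp0 : 0 < p := by rw [hp]; positivity
  have hQ : ∀ w : E, 0 < ‖1 - ⟪w, z⟫_ℂ‖ + t := fun w => by positivity
  have hcont : Continuous (fun w : E => 1 / (‖1 - ⟪w, z⟫_ℂ‖ + t)) := by
    apply Continuous.div continuous_const (by fun_prop)
    intro w; exact (hQ w).ne'
  rw [lintegral_rpow_eq_lintegral_meas_lt_mul (μ.restrict (ball (0 : E) 1))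
    (Eventually.of_forall fun w => by have := hQ w; positivity)
    hcont.aemeasurable hp0, ENNReal.ofReal_mul hp0.le]
  gcongr
  have hb : ∀ s ∈ Ioi (0 : ℝ), (μ.restrict (ball (0 : E) 1))
      {w | s < 1 / (‖1 - ⟪w, z⟫_ℂ‖ + t)} * ENNReal.ofReal (s ^ (p - 1)) ≤
      (Ioc 0 (1 / t)).indicator (fun s => ENNReal.ofReal (D * s ^ (-(1 / 2) : ℝ))) s := by
    intro s hs
    have hs0 : (0 : ℝ) < s := hs
    by_cases hst : s ≤ 1 / t
    · rw [indicator_of_mem (show s ∈ Ioc 0 (1 / t) from ⟨hs0, hst⟩)]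
      have h1 : (μ.restrict (ball (0 : E) 1)) {w | s < 1 / (‖1 - ⟪w, z⟫_ℂ‖ + t)} ≤
          ENNReal.ofReal (D * (1 / s) ^ (m + 2)) := by
        calc (μ.restrict (ball (0 : E) 1)) {w | s < 1 / (‖1 - ⟪w, z⟫_ℂ‖ + t)}
            ≤ (μ.restrict (ball (0 : E) 1)) {w | ‖1 - ⟪w, z⟫_ℂ‖ < 1 / s} := by
              apply measure_mono
              intro w (hw : s < 1 / (‖1 - ⟪w, z⟫_ℂ‖ + t))
              show ‖1 - ⟪w, z⟫_ℂ‖ < 1 / s
              rw [lt_div_iff₀ (hQ w)] at hw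
              rw [lt_div_iff₀ hs0]
              nlinarith
          _ = ENNReal.ofReal ((μ.restrict (ball (0 : E) 1)).real
              {w | ‖1 - ⟪w, z⟫_ℂ‖ < 1 / s}) := by
              rw [measureReal_def, ENNReal.ofReal_toReal (measure_ne_top _ _)]
          _ ≤ _ := ENNReal.ofReal_le_ofReal (vol_est μ m hm hdim hz (by positivity))
      calc _ ≤ ENNReal.ofReal (D * (1 / s) ^ (m + 2)) * ENNReal.ofReal (s ^ (p - 1)) := by
            gcongr
        _ = ENNReal.ofReal (D * s ^ (-(1 / 2) : ℝ)) := by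
            rw [← ENNReal.ofReal_mul (by positivity)]
            congr 1
            rw [mul_assoc]
            congr 1
            have e1 : (1 / s) ^ (m + 2) = s ^ (-(m + 2 : ℝ)) := by
              rw [Real.rpow_neg hs0.le, one_div, inv_pow]
              congr 1
              exact_mod_cast (Real.rpow_natCast s (m + 2)).symm
            rw [e1, ← Real.rpow_add hs0]
            congr 1
            rw [hp]; ring
    · have h1 : {w : E | s < 1 / (‖1 - ⟪w, z⟫_ℂ‖ + t)} = ∅ := by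
        apply eq_empty_of_forall_notMem
        intro w (hw : s < 1 / (‖1 - ⟪w, z⟫_ℂ‖ + t))
        apply hst
        have h2 : 1 / (‖1 - ⟪w, z⟫_ℂ‖ + t) ≤ 1 / t := by
          apply one_div_le_one_div_of_le ht
          linarith [norm_nonneg (1 - ⟪w, z⟫_ℂ)]
        linarith
      rw [h1]
      simp
  refine (setLIntegral_mono' measurableSet_Ioi hb).trans ?_
  calc ∫⁻ s in Ioi (0 : ℝ), (Ioc 0 (1 / t)).indicator
        (fun s => ENNReal.ofReal (D * s ^ (-(1 / 2) : ℝ))) s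
    _ = ∫⁻ s in Ioc 0 (1 / t), ENNReal.ofReal (D * s ^ (-(1 / 2) : ℝ)) := by
        rw [lintegral_indicator measurableSet_Ioc, Measure.restrict_restrict measurableSet_Ioc]
        congr 2
        rw [inter_eq_left]
        exact fun s hs => hs.1
    _ = ENNReal.ofReal (∫ s in Ioc 0 (1 / t), D * s ^ (-(1 / 2) : ℝ)) := by
        rw [ofReal_integral_eq_lintegral_ofReal]
        · apply Integrable.const_mul
          have := intervalIntegral.intervalIntegrable_rpow' (a := 0) (b := 1 / t)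
            (r := (-(1 / 2) : ℝ)) (by norm_num)
          rw [intervalIntegrable_iff_integrableOn_Ioc_of_le (by positivity)] at this
          exact this
        · refine (ae_restrict_iff' measurableSet_Ioc).mpr (Eventually.of_forall fun s hs => ?_)
          have := hs.1
          positivity
    _ = ENNReal.ofReal (D * (2 * (1 / t) ^ (1 / 2 : ℝ))) := by
        congr 1
        rw [integral_const_mul, ← intervalIntegral.integral_of_le (by positivity),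
          integral_rpow (Or.inl (by norm_num))]
        norm_num
        left
        ring
    _ ≤ _ := le_refl _

/-- The basic kernel integral. -/
theorem kernel_int (μ : Measure E) [μ.IsAddHaarMeasure] (m : ℕ)
    (hm : 1 ≤ m) (hdim : Module.finrank ℂ E = m + 1) :
    ∃ C : ℝ, 0 < C ∧ ∀ z : E, ‖z‖ ≤ 1 → ∀ t : ℝ, 0 < t →
      IntegrableOn (fun w : E => Real.sqrt t * (1 / (‖1 - ⟪w, z⟫_ℂ‖ + t)) ^ ((m + 2 : ℝ) + 1 / 2))
        (ball 0 1) μ ∧
      ∫ w in ball (0 : E) 1,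
        Real.sqrt t * (1 / (‖1 - ⟪w, z⟫_ℂ‖ + t)) ^ ((m + 2 : ℝ) + 1 / 2) ∂μ ≤ C := by
  refine ⟨((m + 2 : ℝ) + 1 / 2) * (4 ^ (m + 2) * μ.real (ball 0 1) * 2) + 1, ?_, ?_⟩
  · have : 0 ≤ μ.real (ball (0 : E) 1) := measureReal_nonneg
    positivity
  intro z hz t ht
  have hprop : ProperSpace E := FiniteDimensional.proper ℂ E
  have hQ : ∀ w : E, 0 < ‖1 - ⟪w, z⟫_ℂ‖ + t := fun w => by positivity
  set p : ℝ := (m + 2 : ℝ) + 1 / 2 with hp
  have hp0 : 0 < p := by rw [hp]; positivity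
  have hcont : Continuous (fun w : E => (1 / (‖1 - ⟪w, z⟫_ℂ‖ + t)) ^ p) := by
    apply Continuous.rpow_const
    · apply Continuous.div continuous_const (by fun_prop)
      intro w; exact (hQ w).ne'
    · intro w; right; exact hp0.le
  have hl := kernel_lint μ m hm hdim hz ht
  have hnn : 0 ≤ᵐ[μ.restrict (ball (0 : E) 1)]
      (fun w : E => (1 / (‖1 - ⟪w, z⟫_ℂ‖ + t)) ^ p) :=
    Eventually.of_forall fun w => by have := hQ w; positivity
  have hint : IntegrableOn (fun w : E => (1 / (‖1 - ⟪w, z⟫_ℂ‖ + t)) ^ p) (ball 0 1) μ := by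
    refine ⟨hcont.aestronglyMeasurable, ?_⟩
    rw [hasFiniteIntegral_iff_ofReal hnn]
    exact hl.trans_lt ENNReal.ofReal_lt_top
  refine ⟨hint.const_mul _, ?_⟩
  rw [integral_const_mul, integral_eq_lintegral_of_nonneg_ae hnn hcont.aestronglyMeasurable]
  have h1 := ENNReal.toReal_mono ENNReal.ofReal_ne_top hl
  have h0 : 0 ≤ μ.real (ball (0 : E) 1) := measureReal_nonneg
  rw [ENNReal.toReal_ofReal (by positivity)] at h1
  have h2 : Real.sqrt t * (1 / t) ^ (1 / 2 : ℝ) = 1 := by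
    rw [← Real.sqrt_eq_rpow, ← Real.sqrt_mul ht.le, mul_one_div_cancel ht.ne', Real.sqrt_one]
  calc _ ≤ Real.sqrt t * (((m + 2 : ℝ) + 1 / 2) * (4 ^ (m + 2) * μ.real (ball 0 1) *
        (2 * (1 / t) ^ (1 / 2 : ℝ)))) := mul_le_mul_of_nonneg_left h1 (Real.sqrt_nonneg _)
    _ = ((m + 2 : ℝ) + 1 / 2) * (4 ^ (m + 2) * μ.real (ball 0 1) * 2) *
        (Real.sqrt t * (1 / t) ^ (1 / 2 : ℝ)) := by ring
    _ ≤ _ := by rw [h2, hp]; linarith

end Pool.Agent.MPca0fc2.SD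
end

section

set_option autoImplicit false

open Metric Set Filter Topology
open scoped InnerProductSpace

namespace Pool.Agent.MPca0fc2.SL

open Pool.Agent.MPca0fc2.SD
open Pool.Agent.Lib.MP_ca0fc2_an

/-- limits of bounded holomorphic functions along ultrafilters -/
theorem ultra_holo {E : Type*} [NormedAddCommGroup E] [NormedSpace ℂ E] [FiniteDimensional ℂ E]
    {ι : Type*} (𝒰 : Ultrafilter ι) {G : ι → E → ℂ} {U : Set E} (hU : IsOpen U) {M : ℝ}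
    (hM0 : 0 ≤ M) (hG : ∀ i, DifferentiableOn ℂ (G i) U) (hM : ∀ i, ∀ z ∈ U, ‖G i z‖ ≤ M) :
    ∃ g : E → ℂ, DifferentiableOn ℂ g U ∧ (∀ z ∈ U, ‖g z‖ ≤ M) ∧
      ∀ z ∈ U, Tendsto (fun i => G i z) 𝒰 (𝓝 (g z)) := by
  have h1 : ∀ z, z ∈ U → ∃ y : ℂ, ‖y‖ ≤ M ∧ Tendsto (fun i => G i z) 𝒰 (𝓝 y) := by
    intro z hz
    have hc : IsCompact (closedBall (0 : ℂ) M) := isCompact_closedBall 0 M
    obtain ⟨y, hy, hy2⟩ := hc.ultrafilter_le_nhds' (𝒰.map fun i => G i z) (by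
      rw [Ultrafilter.mem_map]
      apply Filter.univ_mem'
      intro i
      exact mem_closedBall_zero_iff.mpr (hM i z hz))
    exact ⟨y, mem_closedBall_zero_iff.mp hy, hy2⟩
  classical
  choose! g hg1 hg2 using h1
  refine ⟨g, ?_, hg1, hg2⟩
  intro z₀ hz₀
  obtain ⟨r, hr, hsub⟩ := Metric.isOpen_iff.mp hU z₀ hz₀
  -- the limit of the derivatives
  have hL : ∃ L : E →L[ℂ] ℂ, Tendsto (fun i => fderiv ℂ (G i) z₀) 𝒰 (𝓝 L) := by
    have : ProperSpace (E →L[ℂ] ℂ) := FiniteDimensional.proper ℂ _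
    have hc : IsCompact (closedBall (0 : E →L[ℂ] ℂ) (2 * M / r)) := isCompact_closedBall 0 _
    obtain ⟨y, hy, hy2⟩ := hc.ultrafilter_le_nhds' (𝒰.map fun i => fderiv ℂ (G i) z₀) (by
      rw [Ultrafilter.mem_map]
      apply Filter.univ_mem'
      intro i
      refine mem_closedBall_zero_iff.mpr ?_
      apply ContinuousLinearMap.opNorm_le_bound _ (by positivity)
      intro v
      have := norm_fderiv_apply_le hr ((hG i).mono hsub) (fun z hz => hM i z (hsub hz)) v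
      refine this.trans (le_of_eq ?_)
      ring)
    exact ⟨y, hy2⟩
  obtain ⟨L, hL⟩ := hL
  have hrem : ∀ v : E, ‖v‖ < r → ‖g (z₀ + v) - g z₀ - L v‖ ≤ 4 * M / r ^ 2 * ‖v‖ ^ 2 := by
    intro v hv
    have hzv : z₀ + v ∈ U := hsub (by simpa using hv)
    have t1 : Tendsto (fun n => ‖G n (z₀ + v) - G n z₀ - fderiv ℂ (G n) z₀ v‖) 𝒰
        (𝓝 ‖g (z₀ + v) - g z₀ - L v‖) := by
      apply Tendsto.norm
      apply Tendsto.sub
      · exact (hg2 _ hzv).sub (hg2 _ hz₀)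
      · exact (ContinuousLinearMap.apply ℂ ℂ v).continuous.continuousAt.tendsto.comp hL
    refine le_of_tendsto t1 (Eventually.of_forall fun n => ?_)
    exact taylor_two hr ((hG n).mono hsub) (fun z hz => hM n z (hsub hz)) hv
  have hder : HasFDerivAt g L z₀ := by
    rw [hasFDerivAt_iff_isLittleO_nhds_zero]
    have hO : (fun v => g (z₀ + v) - g z₀ - L v) =O[𝓝 0] fun v => ‖v‖ ^ 2 := by
      apply Asymptotics.IsBigO.of_bound (4 * M / r ^ 2)
      filter_upwards [ball_mem_nhds (0 : E) hr] with v hv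
      have := hrem v (by simpa using hv)
      simpa using this
    refine hO.trans_isLittleO ?_
    exact (Asymptotics.isLittleO_norm_pow_id one_lt_two)
  exact hder.differentiableAt.differentiableWithinAt

variable {J : Type*} [Fintype J] {I : Type*} [Fintype I]
variable {E : Type*} [NormedAddCommGroup E] [InnerProductSpace ℂ E]
variable {W : Type*} [NormedAddCommGroup W] [InnerProductSpace ℂ W]

namespace FH

variable {P : (E → ℂ) → E → ℂ} {f : J → E → ℂ} {u : E → W} {χ : I → W → ℝ} {c : I → W}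
    {s : I → J → E → ℂ} {e : ℕ → ℝ}
    {ρ M B Lc ε CK CE θ N Lm c₂ C₁ Γ P₂ Um Pm Smax : ℝ} {ks kb L K j₁ : ℕ}

end FH

end Pool.Agent.MPca0fc2.SL
end
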