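import Mathlib
import Pool.Agent.Lib.MP_ca0fc2_an.Mg.G045
import Pool.Agent.Lib.MP_ca0fc2_an.Holo

section

set_option autoImplicit false

namespace Pool.Agent.Lib.MP_ca0fc2_an
end Pool.Agent.Lib.MP_ca0fc2_an

open Metric Set MeasureTheory Filter Topology
open scoped InnerProductSpace ENNReal

namespace Pool.Agent.MPca0fc2.DA

open Pool.Agent.Lib.MP_ca0fc2_an
open Pool.Agent.MPca0fc2.PT

variable {E : Type*} [NormedAddCommGroup E] [InnerProductSpace ℂ E]

/-- homogeneous part of degree `k` -/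
noncomputable def hp (u : E → ℂ) (k : ℕ) (z : E) : ℂ :=
  (2 * Real.pi : ℂ)⁻¹ * ∫ t in (0 : ℝ)..(2 * Real.pi),
    Complex.exp (-(k * t * Complex.I)) * u (Complex.exp (t * Complex.I) • z)

/-- the square of the weighted norm -/
noncomputable def nrm2 [MeasurableSpace E] (μ : Measure E) (v : E → ℂ) : ℝ≥0∞ :=
  ∫⁻ z in ball (0 : E) 1, ENNReal.ofReal (WW z * ‖v z‖ ^ 2) ∂μ

/-- the difference of order `q` in the dilation parameter -/
noncomputable def dif (q : ℕ) (s : ℝ) (u : E → ℂ) (z : E) : ℂ :=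
  ∑ i ∈ Finset.range (q + 1), ((-1) ^ i * (q.choose i : ℂ)) *
    u (((Real.exp (-(i * s)) : ℝ) : ℂ) • z)

/-- the coefficients of the reproducing kernel -/
def bc (m k : ℕ) : ℕ := (m + 5 + k).choose k

end Pool.Agent.MPca0fc2.DA
end

section

set_option autoImplicit false

open Metric Set MeasureTheory Filter Topology
open scoped InnerProductSpace ENNReal

namespace Pool.Agent.MPca0fc2.DA

open Pool.Agent.Lib.MP_ca0fc2_an
open Pool.Agent.MPca0fc2.PT

variable {E : Type*} [NormedAddCommGroup E] [InnerProductSpace ℂ E]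
variable [FiniteDimensional ℂ E] [MeasurableSpace E] [BorelSpace E]

omit [FiniteDimensional ℂ E] [MeasurableSpace E] [BorelSpace E] in
theorem hom_mem {z : E} (hz : z ∈ ball (0 : E) 1) {ζ : ℂ} (hζ : ‖ζ‖ ≤ 1) :
    ζ • z ∈ ball (0 : E) 1 := by
  rw [mem_ball_zero_iff] at hz ⊢
  rw [norm_smul]
  exact lt_of_le_of_lt (mul_le_of_le_one_left (norm_nonneg _) hζ) hz

theorem hom_exp_norm (k : ℕ) (t : ℝ) : ‖Complex.exp (-(k * t * Complex.I))‖ = 1 := by
  have : (-(k * t * Complex.I) : ℂ) = ((-(k * t) : ℝ) : ℂ) * Complex.I := by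
    push_cast
    ring
  rw [this, Complex.norm_exp_ofReal_mul_I]

theorem hom_exp_norm' (t : ℝ) : ‖Complex.exp (t * Complex.I)‖ = 1 :=
  Complex.norm_exp_ofReal_mul_I t

/-- Fourier coefficient on the unit circle -/
noncomputable def hom_c (f : ℂ → ℂ) (k : ℕ) : ℂ :=
  (2 * Real.pi : ℂ)⁻¹ * ∫ t in (0 : ℝ)..(2 * Real.pi),
    Complex.exp (-(k * t * Complex.I)) * f (Complex.exp (t * Complex.I))

theorem hom_cauchy (f : ℂ → ℂ) (k : ℕ) (ζ : ℂ) :
    (cauchyPowerSeries f 0 1 k fun _ => ζ) = ζ ^ k * hom_c f k := by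
  rw [cauchyPowerSeries_apply, circleIntegral, hom_c]
  have h1 : ∀ θ : ℝ, deriv (circleMap 0 1) θ • ((ζ / (circleMap 0 1 θ - 0)) ^ k •
      (circleMap 0 1 θ - 0)⁻¹ • f (circleMap 0 1 θ)) =
      (Complex.I * ζ ^ k) * (Complex.exp (-(k * θ * Complex.I)) * f (Complex.exp (θ * Complex.I))) := by
    intro θ
    have hc : circleMap 0 1 θ = Complex.exp (θ * Complex.I) := by simp [circleMap]
    have he : Complex.exp (-(k * θ * Complex.I)) = (Complex.exp (θ * Complex.I) ^ k)⁻¹ := by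
      rw [← Complex.exp_nat_mul, ← Complex.exp_neg]
      congr 1
      ring
    have hne : Complex.exp (θ * Complex.I) ≠ 0 := Complex.exp_ne_zero _
    rw [deriv_circleMap, hc, he]
    simp only [smul_eq_mul, sub_zero, div_pow]
    field_simp
  rw [intervalIntegral.integral_congr (fun θ _ => h1 θ), intervalIntegral.integral_const_mul,
    smul_eq_mul]
  have hI : Complex.I ≠ 0 := Complex.I_ne_zero
  have hpi : (Real.pi : ℂ) ≠ 0 := by exact_mod_cast Real.pi_ne_zero
  field_simp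

theorem hom_one {f : ℂ → ℂ} {R : ℝ} (hR : 1 < R) (hf : DifferentiableOn ℂ f (ball 0 R)) {ζ : ℂ}
    (hζ : ‖ζ‖ ≤ 1) : HasSum (fun k => ζ ^ k * hom_c f k) (f ζ) := by
  obtain ⟨R', h1, h2⟩ := exists_between hR
  have hR0 : 0 < R' := by linarith
  lift R' to NNReal using hR0.le
  have h3 : HasFPowerSeriesOnBall f (cauchyPowerSeries f 0 R') 0 R' :=
    (hf.mono (closedBall_subset_ball h2)).hasFPowerSeriesOnBall (by exact_mod_cast hR0)
  have h4 : HasFPowerSeriesOnBall f (cauchyPowerSeries f 0 (1 : NNReal)) 0 (1 : NNReal) :=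
    (hf.mono (closedBall_subset_ball (by simpa using hR))).hasFPowerSeriesOnBall one_pos
  have h5 := h3.hasFPowerSeriesAt.eq_formalMultilinearSeries h4.hasFPowerSeriesAt
  have h6 : ζ ∈ Metric.eball (0 : ℂ) (R' : ℝ≥0∞) := by
    rw [Metric.mem_eball, edist_zero_right, enorm_eq_nnnorm]
    have : ‖ζ‖₊ < R' := by
      rw [← NNReal.coe_lt_coe, coe_nnnorm]
      linarith
    exact_mod_cast this
  have h7 := h3.hasSum h6
  rw [h5, zero_add] at h7
  have h8 : (fun n : ℕ => cauchyPowerSeries f 0 (1 : NNReal) n fun _ => ζ) =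
      fun k => ζ ^ k * hom_c f k := by
    funext k
    rw [← hom_cauchy]
    rfl
  rw [h8] at h7
  exact h7

/-- the power series with given coefficients -/
noncomputable def hom_ser (c : ℕ → ℂ) : FormalMultilinearSeries ℂ ℂ ℂ :=
  fun n => ContinuousMultilinearMap.mkPiRing ℂ (Fin n) (c n)

theorem hom_uniq {f : ℂ → ℂ} {a b : ℕ → ℂ}
    (ha : ∀ ζ : ℂ, ‖ζ‖ ≤ 1 → HasSum (fun k => ζ ^ k * a k) (f ζ))
    (hb : ∀ ζ : ℂ, ‖ζ‖ ≤ 1 → HasSum (fun k => ζ ^ k * b k) (f ζ)) (k : ℕ) : a k = b k := by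
  have key : ∀ c : ℕ → ℂ, (∀ ζ : ℂ, ‖ζ‖ ≤ 1 → HasSum (fun k => ζ ^ k * c k) (f ζ)) →
      HasFPowerSeriesAt f (hom_ser c) 0 := by
    intro c hc
    rw [hasFPowerSeriesAt_iff]
    filter_upwards [ball_mem_nhds (0 : ℂ) one_pos] with ζ hζ
    have h1 : ‖ζ‖ ≤ 1 := by
      rw [mem_ball_zero_iff] at hζ
      exact hζ.le
    have h2 := hc ζ h1
    simpa [hom_ser, FormalMultilinearSeries.coeff] using h2
  have h := (key a ha).eq_formalMultilinearSeries (key b hb)
  have h3 := congrArg (fun p => FormalMultilinearSeries.coeff p k) h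
  simpa [hom_ser, FormalMultilinearSeries.coeff] using h3

theorem hp_bound {u : E → ℂ} {M : ℝ} (hu : ∀ z ∈ ball (0 : E) 1, ‖u z‖ ≤ M) (k : ℕ) {z : E}
    (hz : z ∈ ball (0 : E) 1) : ‖hp u k z‖ ≤ M := by
  have hM : ∀ t ∈ Set.uIoc (0 : ℝ) (2 * Real.pi),
      ‖Complex.exp (-(k * t * Complex.I)) * u (Complex.exp (t * Complex.I) • z)‖ ≤ M := by
    intro t _
    rw [norm_mul, hom_exp_norm, one_mul]
    exact hu _ (hom_mem hz (hom_exp_norm' t).le)
  have h2 := intervalIntegral.norm_integral_le_of_norm_le_const hM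
  rw [sub_zero, abs_of_pos Real.two_pi_pos] at h2
  unfold hp
  rw [norm_mul, norm_inv]
  have h3 : ‖(2 * Real.pi : ℂ)‖ = 2 * Real.pi := by
    simp [abs_of_pos Real.pi_pos]
  rw [h3]
  have h4 : (0 : ℝ) < 2 * Real.pi := Real.two_pi_pos
  calc (2 * Real.pi)⁻¹ * ‖∫ t in (0 : ℝ)..(2 * Real.pi),
        Complex.exp (-(k * t * Complex.I)) * u (Complex.exp (t * Complex.I) • z)‖
      ≤ (2 * Real.pi)⁻¹ * (M * (2 * Real.pi)) := by gcongr
    _ = M := by field_simp

theorem hp_diff {u : E → ℂ} (hu : DifferentiableOn ℂ u (ball 0 1)) (k : ℕ) :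
    DifferentiableOn ℂ (hp u k) (ball 0 1) := by
  intro z₀ hz₀
  have : ProperSpace E := FiniteDimensional.proper ℂ E
  apply DifferentiableAt.differentiableWithinAt
  rw [mem_ball_zero_iff] at hz₀
  set r : ℝ := (1 - ‖z₀‖) / 2 with hr
  have hr0 : 0 < r := by rw [hr]; linarith
  have hsub : ∀ z ∈ ball z₀ r, z ∈ closedBall (0 : E) (1 - r) := by
    intro z hz
    rw [mem_ball, dist_eq_norm] at hz
    rw [mem_closedBall_zero_iff]
    have h1 : z = (z - z₀) + z₀ := by abel
    rw [h1]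
    refine (norm_add_le _ _).trans ?_
    rw [hr] at hz ⊢
    linarith
  have hsub1 : closedBall (0 : E) (1 - r) ⊆ ball (0 : E) 1 := closedBall_subset_ball (by linarith)
  obtain ⟨M, hM⟩ := (isCompact_closedBall (0 : E) (1 - r)).exists_bound_of_continuousOn
    (hu.continuousOn.mono hsub1)
  have hrot : ∀ (t : ℝ) (z : E), z ∈ closedBall (0 : E) (1 - r) →
      Complex.exp (t * Complex.I) • z ∈ closedBall (0 : E) (1 - r) := by
    intro t z hz
    rw [mem_closedBall_zero_iff] at hz ⊢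
    rwa [norm_smul, hom_exp_norm', one_mul]
  have key : DifferentiableAt ℂ (fun z => ∫ t, Complex.exp (-(k * t * Complex.I)) *
      u (Complex.exp (t * Complex.I) • z) ∂(volume.restrict (Ioc 0 (2 * Real.pi)))) z₀ := by
    refine differentiableAt_integral (r := r) hr0 (g := fun _ => M) ?_ ?_ ?_ ?_
    · refine Eventually.of_forall fun t z hz => ?_
      have h1 : Complex.exp (t * Complex.I) • z ∈ ball (0 : E) 1 := hsub1 (hrot t z (hsub z hz))
      have h2 : DifferentiableAt ℂ u (Complex.exp (t * Complex.I) • z) :=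
        hu.differentiableAt (isOpen_ball.mem_nhds h1)
      have h3 : DifferentiableAt ℂ (fun z : E => Complex.exp (t * Complex.I) • z) z :=
        differentiableAt_id.const_smul _
      have h4 : DifferentiableAt ℂ (fun z : E => u (Complex.exp (t * Complex.I) • z)) z :=
        DifferentiableAt.comp z h2 h3
      exact (h4.const_mul _).differentiableWithinAt
    · intro z hz
      apply Continuous.aestronglyMeasurable
      have c1 : Continuous (fun t : ℝ => Complex.exp (-(k * t * Complex.I))) := by fun_prop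
      have c2 : Continuous (fun t : ℝ => Complex.exp (t * Complex.I) • z) := by fun_prop
      have c3 : Continuous (fun t : ℝ => u (Complex.exp (t * Complex.I) • z)) :=
        hu.continuousOn.comp_continuous c2 (fun t => hsub1 (hrot t z (hsub z hz)))
      exact c1.mul c3
    · exact integrable_const _
    · refine Eventually.of_forall fun t z hz => ?_
      rw [norm_mul, hom_exp_norm, one_mul]
      exact hM _ (hrot t z (hsub z hz))
  have h5 : hp u k = fun z => (2 * Real.pi : ℂ)⁻¹ * ∫ t, Complex.exp (-(k * t * Complex.I)) *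
      u (Complex.exp (t * Complex.I) • z) ∂(volume.restrict (Ioc 0 (2 * Real.pi))) := by
    funext z
    rw [hp, intervalIntegral.integral_of_le Real.two_pi_pos.le]
  rw [h5]
  exact key.const_mul _

/-- the homogeneous expansion -/
theorem hp_sum {u : E → ℂ} (hu : DifferentiableOn ℂ u (ball 0 1)) {z : E}
    (hz : z ∈ ball (0 : E) 1) {ζ : ℂ} (hζ : ‖ζ‖ ≤ 1) :
    HasSum (fun k => ζ ^ k * hp u k z) (u (ζ • z)) := by
  have hz' := hz
  rw [mem_ball_zero_iff] at hz'
  have h0 : 0 ≤ ‖z‖ := norm_nonneg z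
  have hR : 1 < 2 / (1 + ‖z‖) := by
    rw [lt_div_iff₀ (by linarith)]
    linarith
  have hf : DifferentiableOn ℂ (fun η : ℂ => u (η • z)) (ball 0 (2 / (1 + ‖z‖))) := by
    refine hu.comp (differentiable_id.smul_const z).differentiableOn ?_
    intro η hη
    rw [mem_ball_zero_iff] at hη
    rw [mem_ball_zero_iff]
    simp only [id]
    rw [norm_smul]
    rw [lt_div_iff₀ (by linarith)] at hη
    nlinarith [norm_nonneg η]
  exact hom_one hR hf hζ

/-- homogeneity -/
theorem hp_smul {u : E → ℂ} (hu : DifferentiableOn ℂ u (ball 0 1)) (k : ℕ) {z : E}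
    (hz : z ∈ ball (0 : E) 1) {ζ : ℂ} (hζ : ‖ζ‖ ≤ 1) : hp u k (ζ • z) = ζ ^ k * hp u k z := by
  refine hom_uniq (f := fun η : ℂ => u (η • ζ • z)) (a := fun k => hp u k (ζ • z))
    (b := fun k => ζ ^ k * hp u k z) ?_ ?_ k
  · intro η hη
    exact hp_sum hu (hom_mem hz hζ) hη
  · intro η hη
    have h1 : ‖η * ζ‖ ≤ 1 := by
      rw [norm_mul]
      exact mul_le_one₀ hη (norm_nonneg _) hζ
    have h2 := hp_sum hu hz h1
    simp only [mul_pow, mul_smul, mul_assoc] at h2
    exact h2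

theorem hp_hp {u : E → ℂ} (hu : DifferentiableOn ℂ u (ball 0 1)) (k : ℕ) {z : E}
    (hz : z ∈ ball (0 : E) 1) (r : ℝ) (hr0 : 0 ≤ r) (hr1 : r ≤ 1) :
    hp (fun z => u ((r : ℂ) • z)) k z = (r : ℂ) ^ k * hp u k z := by
  have h1 : hp (fun z => u ((r : ℂ) • z)) k z = hp u k ((r : ℂ) • z) := by
    unfold hp
    congr 1
    refine intervalIntegral.integral_congr (fun t _ => ?_)
    simp only
    rw [smul_comm]
  rw [h1]
  refine hp_smul hu k hz ?_
  rw [Complex.norm_real, Real.norm_eq_abs, abs_of_nonneg hr0]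
  exact hr1

end Pool.Agent.MPca0fc2.DA
end
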