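import Mathlib
import Pool.Agent.Lib.MP_ca0fc2_an.DADefs
import Pool.Agent.Lib.MP_ca0fc2_an.Mg.G049
import Pool.Agent.Lib.MP_ca0fc2_an.Mg.G073
import Pool.Agent.Lib.MP_ca0fc2_an.Mg.G131

section

set_option autoImplicit false

open Metric Set MeasureTheory Filter Topology
open scoped InnerProductSpace ENNReal

namespace Pool.Agent.MPca0fc2.DA

open Pool.Agent.Lib.MP_ca0fc2_an
open Pool.Agent.MPca0fc2.PT

variable {E : Type*} [NormedAddCommGroup E] [InnerProductSpace ℂ E]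

theorem DAMultiplier_bound {M : ℝ} (hM : 0 ≤ M) {u : E → ℂ} (hu : DAMultiplier M u) {z : E}
    (hz : z ∈ ball (0 : E) 1) : ‖u z‖ ≤ M := by
  have h := hu.2 1 (fun _ => z) (fun _ => 1) (fun _ => hz)
  have hz1 : ‖z‖ < 1 := by simpa using hz
  have hpos : 0 < 1 - ‖z‖ ^ 2 := by nlinarith [norm_nonneg z]
  have h1 : (((M ^ 2 : ℝ) : ℂ) - u z * (starRingEnd ℂ) (u z)) / (1 - ⟪z, z⟫_ℂ) =
      (((M ^ 2 - ‖u z‖ ^ 2) / (1 - ‖z‖ ^ 2) : ℝ) : ℂ) := by
    rw [geo_self, Complex.mul_conj, Complex.normSq_eq_norm_sq]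
    push_cast
    ring
  simp only [Finset.univ_unique, Finset.sum_singleton, map_one, one_mul] at h
  rw [h1, Complex.ofReal_re] at h
  have h2 : 0 ≤ M ^ 2 - ‖u z‖ ^ 2 := by
    by_contra hneg
    push Not at hneg
    have := div_neg_of_neg_of_pos hneg hpos
    linarith
  have h3 : ‖u z‖ ^ 2 ≤ M ^ 2 := by linarith
  exact le_of_sq_le_sq h3 hM |> fun h => h
 
theorem DAMultiplier_gg {M : ℝ} {u : E → ℂ} (hu : DAMultiplier M u) {a : E} (ha : ‖a‖ < 1) :
    DAMultiplier M fun z => u (gg a z) := by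
  refine ⟨?_, ?_⟩
  · intro x hx
    have hx1 : ‖x‖ < 1 := by simpa using hx
    have h1 : DifferentiableAt ℂ u (gg a x) :=
      (hu.1 _ (by simpa using gg_lt ha hx1)).differentiableAt
        (isOpen_ball.mem_nhds (by simpa using gg_lt ha hx1))
    exact (h1.comp x (hasFDerivAt_gg ha hx1.le).differentiableAt).differentiableWithinAt
  · intro k z c hz
    have hz1 : ∀ i, ‖z i‖ < 1 := fun i => by simpa using hz i
    have hs : 0 ≤ 1 - ‖a‖ ^ 2 := by nlinarith [norm_nonneg a]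
    have hs' : 0 < 1 - ‖a‖ ^ 2 := by nlinarith [norm_nonneg a]
    set s : ℂ := ((Real.sqrt (1 - ‖a‖ ^ 2) : ℝ) : ℂ) with hsdef
    have hss : s * s = ((1 - ‖a‖ ^ 2 : ℝ) : ℂ) := by
      rw [hsdef, ← Complex.ofReal_mul, Real.mul_self_sqrt hs]
    have h := hu.2 k (fun i => gg a (z i)) (fun i => c i * s / (1 + ⟪a, z i⟫_ℂ))
      (fun i => by simpa using gg_lt ha (hz1 i))
    have key : ∀ i j : Fin k, c i * (starRingEnd ℂ) (c j) *
        (((M ^ 2 : ℝ) : ℂ) - u (gg a (z i)) * (starRingEnd ℂ) (u (gg a (z j)))) /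
          (1 - ⟪z j, z i⟫_ℂ) =
        c i * s / (1 + ⟪a, z i⟫_ℂ) * (starRingEnd ℂ) (c j * s / (1 + ⟪a, z j⟫_ℂ)) *
        (((M ^ 2 : ℝ) : ℂ) - u (gg a (z i)) * (starRingEnd ℂ) (u (gg a (z j)))) /
          (1 - ⟪gg a (z j), gg a (z i)⟫_ℂ) := by
      intro i j
      have e1 : (starRingEnd ℂ) (c j * s / (1 + ⟪a, z j⟫_ℂ)) =
          (starRingEnd ℂ) (c j) * s / (1 + ⟪z j, a⟫_ℂ) := by
        rw [map_div₀, map_mul, map_add, map_one, inner_conj_symm, hsdef, Complex.conj_ofReal]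
      have n1 := one_add_ne ha (hz1 i).le
      have n2 := geo_one_add_ne' ha (hz1 j).le
      have n3 : ((1 - ‖a‖ ^ 2 : ℝ) : ℂ) ≠ 0 := by
        exact_mod_cast hs'.ne'
      have n4 : (1 - ⟪z j, z i⟫_ℂ) ≠ 0 := by
        intro h0
        have h1 : ⟪z j, z i⟫_ℂ = 1 := by linear_combination -h0
        have h2 := norm_inner_le_norm (𝕜 := ℂ) (z j) (z i)
        rw [h1, norm_one] at h2
        nlinarith [norm_nonneg (z i), norm_nonneg (z j), hz1 i, hz1 j]
      rw [e1, inner_gg ha (hz1 j).le (hz1 i).le]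
      rw [← hss] at n3 ⊢
      have n5 : s ≠ 0 := fun h => n3 (by rw [h, zero_mul])
      field_simp
    simp only [key]
    exact h

theorem DAMultiplier_smul {M c : ℝ} (hc : 0 ≤ c) {u : E → ℂ} (hu : DAMultiplier M u) :
    DAMultiplier (c * M) fun z => (c : ℂ) * u z := by
  refine ⟨hu.1.const_mul _, ?_⟩
  intro k z d hz
  have h := hu.2 k z d hz
  have key : (∑ i, ∑ j, d i * (starRingEnd ℂ) (d j) *
      ((((c * M) ^ 2 : ℝ) : ℂ) - (c : ℂ) * u (z i) * (starRingEnd ℂ) ((c : ℂ) * u (z j))) /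
        (1 - ⟪z j, z i⟫_ℂ)) =
      ((c ^ 2 : ℝ) : ℂ) * (∑ i, ∑ j, d i * (starRingEnd ℂ) (d j) *
        (((M ^ 2 : ℝ) : ℂ) - u (z i) * (starRingEnd ℂ) (u (z j))) / (1 - ⟪z j, z i⟫_ℂ)) := by
    rw [Finset.mul_sum]
    refine Finset.sum_congr rfl fun i _ => ?_
    rw [Finset.mul_sum]
    refine Finset.sum_congr rfl fun j _ => ?_
    rw [map_mul, Complex.conj_ofReal]
    push_cast
    ring
  rw [key, Complex.re_ofReal_mul]
  positivity

end Pool.Agent.MPca0fc2.DA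
end

section

set_option autoImplicit false

open Metric Set MeasureTheory Filter Topology
open scoped InnerProductSpace ENNReal

namespace Pool.Agent.MPca0fc2.PT

variable {E : Type*} [NormedAddCommGroup E] [InnerProductSpace ℂ E]

/-- the chain rule for the conjugate linear part of the derivative -/
theorem k4_chain {N : E → ℂ} {z x : E} (hz : ‖z‖ < 1) (hx : ‖x‖ ≤ 1)
    (hN : DifferentiableAt ℝ N (gg z x)) (n : ℕ) (v : E) :
    dbE (fun x => N (gg z x) / (1 + ⟪z, x⟫_ℂ) ^ n) x v =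
      dbE N (gg z x) (gg' z x v) / (1 + ⟪z, x⟫_ℂ) ^ n := by
  have hne := one_add_ne hz hx
  have h1 : HasFDerivAt (𝕜 := ℝ) (gg z) ((gg' z x).restrictScalars ℝ) x :=
    (hasFDerivAt_gg hz hx).restrictScalars ℝ
  have h2 : HasFDerivAt (𝕜 := ℝ) (fun x => N (gg z x))
      ((fderiv ℝ N (gg z x)).comp ((gg' z x).restrictScalars ℝ)) x :=
    hN.hasFDerivAt.comp x h1
  have h3 : DifferentiableAt ℂ (fun x : E => ((1 + ⟪z, x⟫_ℂ) ^ n)⁻¹) x := by
    apply DifferentiableAt.inv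
    · apply DifferentiableAt.pow
      exact (differentiableAt_const _).add (innerSL ℂ z).differentiableAt
    · exact pow_ne_zero _ hne
  set L := fderiv ℂ (fun x : E => ((1 + ⟪z, x⟫_ℂ) ^ n)⁻¹) x with hL
  have h3' : HasFDerivAt (𝕜 := ℝ) (fun x : E => ((1 + ⟪z, x⟫_ℂ) ^ n)⁻¹) (L.restrictScalars ℝ) x :=
    h3.hasFDerivAt.restrictScalars ℝ
  have h4 := h2.fun_mul h3'
  have h5 : (fun x => N (gg z x) / (1 + ⟪z, x⟫_ℂ) ^ n) =
      fun x => N (gg z x) * ((1 + ⟪z, x⟫_ℂ) ^ n)⁻¹ := by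
    funext x; rw [div_eq_mul_inv]
  rw [h5]
  unfold dbE
  rw [h4.fderiv]
  simp only [add_apply, smul_apply,
    ContinuousLinearMap.coe_restrictScalars', ContinuousLinearMap.comp_apply, map_smul,
    smul_eq_mul]
  have hI : Complex.I * Complex.I = -1 := Complex.I_mul_I
  linear_combination (N (gg z x) * L v / 2) * hI

theorem k4_contDiffOn (z : E) :
    ContDiffOn ℂ 1 (gg z) {x | 1 + ⟪z, x⟫_ℂ ≠ 0} := by
  intro x hx
  apply ContDiffAt.contDiffWithinAt
  have : ContDiffAt ℂ 1 (fun x => (1 + ⟪z, x⟫_ℂ)⁻¹ • (z + AA z x)) x := by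
    apply ContDiffAt.smul
    · have h1 : ContDiffAt ℂ 1 (fun x : E => 1 + ⟪z, x⟫_ℂ) x :=
        contDiffAt_const.add (innerSL ℂ z).contDiff.contDiffAt
      exact h1.inv hx
    · exact contDiffAt_const.add (AA z).contDiff.contDiffAt
  exact this

theorem k4_open (z : E) : IsOpen {x : E | 1 + ⟪z, x⟫_ℂ ≠ 0} := by
  have h : Continuous fun x : E => 1 + ⟪z, x⟫_ℂ := by fun_prop
  exact isOpen_ne.preimage h

theorem k4_contDiffOn_G {N : E → ℂ} {U : Set E} (hN : ContDiffOn ℝ 1 N U) (z : E) (n : ℕ) :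
    ContDiffOn ℝ 1 (fun x => N (gg z x) / (1 + ⟪z, x⟫_ℂ) ^ n)
      ({x | 1 + ⟪z, x⟫_ℂ ≠ 0} ∩ gg z ⁻¹' U) := by
  have h1 : ContDiffOn ℝ 1 (gg z) {x | 1 + ⟪z, x⟫_ℂ ≠ 0} :=
    (k4_contDiffOn z).restrict_scalars ℝ
  have h2 : ContDiffOn ℝ 1 (fun x => N (gg z x)) ({x | 1 + ⟪z, x⟫_ℂ ≠ 0} ∩ gg z ⁻¹' U) :=
    hN.comp (h1.mono inter_subset_left) (fun x hx => hx.2)
  have h3 : ContDiffOn ℂ 1 (fun x : E => (1 + ⟪z, x⟫_ℂ) ^ n) univ := by
    apply ContDiffOn.pow
    exact contDiffOn_const.add (innerSL ℂ z).contDiff.contDiffOn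
  have h4 : ContDiffOn ℝ 1 (fun x : E => (1 + ⟪z, x⟫_ℂ) ^ n) univ := h3.restrict_scalars ℝ
  have h5 : ContDiffOn ℝ 1 (fun x : E => ((1 + ⟪z, x⟫_ℂ) ^ n)⁻¹)
      ({x | 1 + ⟪z, x⟫_ℂ ≠ 0} ∩ gg z ⁻¹' U) := by
    refine (h4.mono (subset_univ _)).inv ?_
    intro x hx
    exact pow_ne_zero _ hx.1
  have h6 := h2.mul h5
  simp only [div_eq_mul_inv]
  exact h6

variable [FiniteDimensional ℂ E] [MeasurableSpace E] [BorelSpace E]

theorem k4_cW_pos (μ : Measure E) [μ.IsAddHaarMeasure] : 0 < cW μ := by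
  have hprop : ProperSpace E := FiniteDimensional.proper ℂ E
  have hfin : IsFiniteMeasure (μ.restrict (ball (0 : E) 1)) :=
    ⟨by rw [Measure.restrict_apply_univ]; exact measure_ball_lt_top⟩
  unfold cW
  rw [setIntegral_pos_iff_support_of_nonneg_ae]
  · have : Function.support (fun w : E => WW w) ∩ ball 0 1 = ball 0 1 := by
      apply inter_eq_right.mpr
      intro w hw
      rw [mem_ball_zero_iff] at hw
      have : 0 < 1 - ‖w‖ ^ 2 := by nlinarith [norm_nonneg w]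
      rw [Function.mem_support]
      unfold WW
      positivity
    rw [this]
    exact measure_ball_pos μ 0 one_pos
  · refine Eventually.of_forall fun w => ?_
    unfold WW
    have : (0 : E → ℝ) w = 0 := rfl
    rw [this]
    positivity
  · refine Integrable.mono' (g := fun _ => (1 : ℝ)) (integrable_const _) ?_ ?_
    · apply Continuous.aestronglyMeasurable
      unfold WW
      fun_prop
    · refine (ae_restrict_iff' measurableSet_ball).mpr (Eventually.of_forall fun w hw => ?_)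
      rw [mem_ball_zero_iff] at hw
      have h1 : 0 ≤ 1 - ‖w‖ ^ 2 := by nlinarith [norm_nonneg w]
      have h2 : 1 - ‖w‖ ^ 2 ≤ 1 := by nlinarith [norm_nonneg w]
      unfold WW
      rw [Real.norm_of_nonneg (by positivity)]
      exact pow_le_one₀ h1 h2

end Pool.Agent.MPca0fc2.PT
end

section

set_option autoImplicit false
set_option linter.unusedSectionVars false

open Metric Set MeasureTheory Filter Topology
open scoped InnerProductSpace ENNReal

namespace Pool.Agent.MPca0fc2.DA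

open Pool.Agent.Lib.MP_ca0fc2_an
open Pool.Agent.MPca0fc2.PT

variable {E : Type*} [NormedAddCommGroup E] [InnerProductSpace ℂ E]
variable [FiniteDimensional ℂ E] [MeasurableSpace E] [BorelSpace E]

/-- rotations of the variable in integrals over the ball -/
theorem rep_rot (μ : Measure E) [μ.IsAddHaarMeasure] {c : ℂ} (hc : ‖c‖ = 1) (F : E → ℂ) :
    ∫ w in ball (0 : E) 1, F (c • w) ∂μ = ∫ w in ball (0 : E) 1, F w ∂μ := by
  have hmp := SD.mp_smul μ hc
  have hpre : (fun y : E => c • y) ⁻¹' (ball 0 1) = ball 0 1 := by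
    ext y
    simp only [mem_preimage, mem_ball_zero_iff, norm_smul, hc, one_mul]
  have hemb : MeasurableEmbedding (fun y : E => c • y) := by
    have hc0 : c ≠ 0 := by
      intro h; rw [h, norm_zero] at hc; exact one_ne_zero hc.symm
    exact (Homeomorph.smulOfNeZero _ hc0 : E ≃ₜ E).measurableEmbedding
  have := hmp.setIntegral_preimage_emb hemb F (ball 0 1)
  rw [hpre] at this
  exact this

theorem rep_WW_smul {c : ℂ} (hc : ‖c‖ = 1) (w : E) : WW (c • w) = WW w := by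
  unfold WW
  rw [norm_smul, hc, one_mul]

theorem rep_WW_bound {w : E} (hw : w ∈ ball (0 : E) 1) : ‖((WW w : ℝ) : ℂ)‖ ≤ 1 := by
  rw [mem_ball_zero_iff] at hw
  have h1 : 0 ≤ 1 - ‖w‖ ^ 2 := by nlinarith [norm_nonneg w]
  have h2 : 1 - ‖w‖ ^ 2 ≤ 1 := by nlinarith [norm_nonneg w]
  rw [Complex.norm_real]
  unfold WW
  rw [Real.norm_of_nonneg (by positivity)]
  exact pow_le_one₀ h1 h2

theorem rep_WW_cont : Continuous fun w : E => ((WW w : ℝ) : ℂ) := by
  unfold WW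
  fun_prop

/-- an integrand which is multiplied by a constant under a rotation -/
theorem rep_zero (μ : Measure E) [μ.IsAddHaarMeasure] {c γ : ℂ} (hc : ‖c‖ = 1) (hγ : γ ≠ 1)
    {F : E → ℂ} (hF : ∀ w ∈ ball (0 : E) 1, F (c • w) = γ * F w) :
    ∫ w in ball (0 : E) 1, F w ∂μ = 0 := by
  have h1 := rep_rot μ hc F
  rw [setIntegral_congr_fun measurableSet_ball hF, integral_const_mul] at h1
  have h2 : (γ - 1) * ∫ w in ball (0 : E) 1, F w ∂μ = 0 := by
    rw [sub_mul, one_mul, h1, sub_self]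
  rcases mul_eq_zero.mp h2 with h | h
  · exact absurd (sub_eq_zero.mp h) hγ
  · exact h

/-- the mean value property with the weight -/
theorem rep_mean (μ : Measure E) [μ.IsAddHaarMeasure] {ψ : E → ℂ} {M : ℝ}
    (hψ : DifferentiableOn ℂ ψ (ball 0 1)) (hM : ∀ y ∈ ball (0 : E) 1, ‖ψ y‖ ≤ M) :
    ∫ y in ball (0 : E) 1, ((WW y : ℝ) : ℂ) * ψ y ∂μ = ((cW μ : ℝ) : ℂ) * ψ 0 := by
  have : ProperSpace E := FiniteDimensional.proper ℂ E
  have hM0 : 0 ≤ M := (norm_nonneg _).trans (hM 0 (mem_ball_self one_pos))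
  have hc1 : ∀ θ : ℝ, ‖circleMap 0 1 θ‖ = 1 := by
    intro θ
    simp [circleMap]
  have hmap : ∀ θ : ℝ, ∀ y ∈ ball (0 : E) 1, circleMap 0 1 θ • y ∈ ball (0 : E) 1 := by
    intro θ y hy
    rw [mem_ball_zero_iff] at hy ⊢
    rw [norm_smul, hc1, one_mul]
    exact hy
  have hrot : ∀ θ : ℝ, ∫ y in ball (0 : E) 1, ((WW y : ℝ) : ℂ) * ψ (circleMap 0 1 θ • y) ∂μ =
      ∫ y in ball (0 : E) 1, ((WW y : ℝ) : ℂ) * ψ y ∂μ := by
    intro θ
    rw [← rep_rot μ (hc1 θ) (fun y => ((WW y : ℝ) : ℂ) * ψ y)]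
    simp only [rep_WW_smul (hc1 θ)]
  have hswap : ∫ θ in (0 : ℝ)..(2 * Real.pi), ∫ y in ball (0 : E) 1,
      ((WW y : ℝ) : ℂ) * ψ (circleMap 0 1 θ • y) ∂μ =
      ∫ y in ball (0 : E) 1, (∫ θ in (0 : ℝ)..(2 * Real.pi),
        ((WW y : ℝ) : ℂ) * ψ (circleMap 0 1 θ • y)) ∂μ := by
    have h2pi : (0 : ℝ) ≤ 2 * Real.pi := by positivity
    simp only [intervalIntegral.integral_of_le h2pi]
    apply integral_integral_swap
    have hfin : IsFiniteMeasure ((volume.restrict (Ioc (0 : ℝ) (2 * Real.pi))).prod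
        (μ.restrict (ball (0 : E) 1))) := by
      have : IsFiniteMeasure (volume.restrict (Ioc (0 : ℝ) (2 * Real.pi))) :=
        ⟨by rw [Measure.restrict_apply_univ]; exact measure_Ioc_lt_top⟩
      have : IsFiniteMeasure (μ.restrict (ball (0 : E) 1)) :=
        ⟨by rw [Measure.restrict_apply_univ]; exact measure_ball_lt_top⟩
      infer_instance
    have hcont : ContinuousOn (Function.uncurry fun (θ : ℝ) (y : E) =>
        ((WW y : ℝ) : ℂ) * ψ (circleMap 0 1 θ • y))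
        (Ioc (0 : ℝ) (2 * Real.pi) ×ˢ ball (0 : E) 1) := by
      apply ContinuousOn.mul
      · exact (rep_WW_cont.comp continuous_snd).continuousOn
      · apply hψ.continuousOn.comp
        · apply Continuous.continuousOn
          exact ((continuous_circleMap 0 1).comp continuous_fst).smul continuous_snd
        · rintro ⟨θ, y⟩ ⟨_, hy⟩
          exact hmap θ y hy
    rw [Measure.prod_restrict]
    rw [Measure.prod_restrict] at hfin
    refine Integrable.mono' (g := fun _ => M) (integrable_const M)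
      (hcont.aestronglyMeasurable (measurableSet_Ioc.prod measurableSet_ball)) ?_
    refine (ae_restrict_iff' (measurableSet_Ioc.prod measurableSet_ball)).mpr
      (Eventually.of_forall ?_)
    rintro ⟨θ, y⟩ ⟨_, hy⟩
    show ‖((WW y : ℝ) : ℂ) * ψ (circleMap 0 1 θ • y)‖ ≤ M
    rw [norm_mul]
    calc ‖((WW y : ℝ) : ℂ)‖ * ‖ψ (circleMap 0 1 θ • y)‖ ≤ 1 * M :=
          mul_le_mul (rep_WW_bound hy) (hM _ (hmap θ y hy)) (norm_nonneg _) zero_le_one
      _ = M := one_mul M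
  have hmean : ∀ y ∈ ball (0 : E) 1, ∫ θ in (0 : ℝ)..(2 * Real.pi),
      ((WW y : ℝ) : ℂ) * ψ (circleMap 0 1 θ • y) =
      ((WW y : ℝ) : ℂ) * ((2 * Real.pi : ℝ) • ψ 0) := by
    intro y hy
    rw [intervalIntegral.integral_const_mul]
    congr 1
    have hd : DiffContOnCl ℂ (fun t : ℂ => ψ (t • y)) (ball 0 |1|) := by
      rw [abs_one]
      obtain ⟨R, hR1, hRy⟩ : ∃ R : ℝ, 1 < R ∧ R * ‖y‖ < 1 := by
        rw [mem_ball_zero_iff] at hy
        rcases eq_or_ne ‖y‖ 0 with h0 | h0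
        · refine ⟨2, by norm_num, ?_⟩
          rw [h0, mul_zero]; norm_num
        · have hpos : 0 < ‖y‖ := lt_of_le_of_ne (norm_nonneg _) (Ne.symm h0)
          refine ⟨(1 + 1 / ‖y‖) / 2, ?_, ?_⟩
          · have : 1 < 1 / ‖y‖ := by rw [lt_div_iff₀ hpos]; linarith
            linarith
          · have : (1 + 1 / ‖y‖) / 2 * ‖y‖ = (‖y‖ + 1) / 2 := by
              field_simp
            rw [this]; linarith
      have hd' : DifferentiableOn ℂ (fun t : ℂ => ψ (t • y)) (ball 0 R) := by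
        apply hψ.comp
        · exact (differentiable_id.smul_const y).differentiableOn
        · intro t ht
          rw [mem_ball_zero_iff] at ht ⊢
          rw [norm_smul]
          calc ‖t‖ * ‖y‖ ≤ R * ‖y‖ := mul_le_mul_of_nonneg_right ht.le (norm_nonneg _)
            _ < 1 := hRy
      exact (hd'.mono (closedBall_subset_ball hR1)).diffContOnCl_ball
        (subset_refl _)
    have h := hd.circleAverage
    rw [Real.circleAverage_def] at h
    simp only [zero_smul] at h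
    rw [← h, smul_smul, mul_inv_cancel₀ (by positivity), one_smul]
  simp only [hrot, intervalIntegral.integral_const, sub_zero] at hswap
  rw [setIntegral_congr_fun measurableSet_ball hmean, integral_mul_const] at hswap
  have h2 : ((2 * Real.pi : ℝ) : ℂ) ≠ 0 := by
    have : (2 * Real.pi : ℝ) ≠ 0 := by positivity
    exact_mod_cast this
  have h3 : ∫ w in ball (0 : E) 1, ((WW w : ℝ) : ℂ) ∂μ = ((cW μ : ℝ) : ℂ) := by
    unfold cW
    exact integral_complex_ofReal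
  rw [h3, Complex.real_smul, Complex.real_smul] at hswap
  apply mul_left_cancel₀ h2
  rw [hswap]
  ring

theorem PQ_holo (μ : Measure E) [μ.IsAddHaarMeasure] {m : ℕ}
    (hdim : Module.finrank ℂ E = m + 1) {F : E → ℂ} {M : ℝ} (hF : DifferentiableOn ℂ F (ball 0 1))
    (hM : ∀ z ∈ ball (0 : E) 1, ‖F z‖ ≤ M) {z : E} (hz : ‖z‖ < 1) : PQ μ m F z = F z := by
  have hM0 : 0 ≤ M := (norm_nonneg _).trans (hM 0 (mem_ball_self one_pos))
  have hd1 : DifferentiableOn ℂ (fun x => F (gg z x) / (1 + ⟪z, x⟫_ℂ) ^ (m + 6)) (ball 0 1) := by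
    simp only [div_eq_mul_inv]
    apply DifferentiableOn.mul
    · apply hF.comp
      · intro x hx
        exact (hasFDerivAt_gg hz (mem_ball_zero_iff.mp hx).le).differentiableAt.differentiableWithinAt
      · intro x hx
        rw [mem_ball_zero_iff] at hx ⊢
        exact gg_lt hz hx
    · apply DifferentiableOn.inv
      · apply DifferentiableOn.pow
        apply Differentiable.differentiableOn
        exact (differentiable_const _).add (innerSL ℂ z).differentiable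
      · intro x hx
        exact pow_ne_zero _ (one_add_ne hz (mem_ball_zero_iff.mp hx).le)
  have hb : ∀ x ∈ ball (0 : E) 1, ‖F (gg z x) / (1 + ⟪z, x⟫_ℂ) ^ (m + 6)‖ ≤
      M / (1 - ‖z‖) ^ (m + 6) := by
    intro x hx
    rw [mem_ball_zero_iff] at hx
    have hp : 0 < 1 - ‖z‖ := by linarith
    rw [norm_div, norm_pow]
    have h1 : 1 - ‖z‖ ≤ ‖1 + ⟪z, x⟫_ℂ‖ := by
      have h2 : ‖⟪z, x⟫_ℂ‖ ≤ ‖z‖ := by
        refine (norm_inner_le_norm (𝕜 := ℂ) z x).trans ?_
        nlinarith [norm_nonneg z, norm_nonneg x]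
      have h3 := norm_sub_norm_le (1 : ℂ) (-⟪z, x⟫_ℂ)
      rw [norm_neg, norm_one, sub_neg_eq_add] at h3
      linarith
    have h4 := hM (gg z x) (mem_ball_zero_iff.mpr (gg_lt hz hx))
    have h5 : (1 - ‖z‖) ^ (m + 6) ≤ ‖1 + ⟪z, x⟫_ℂ‖ ^ (m + 6) :=
      pow_le_pow_left₀ hp.le h1 _
    exact div_le_div₀ hM0 h4 (by positivity) h5
  have h := rep_mean μ hd1 hb
  rw [PQ_eq μ hdim hz F, h, gg_zero, inner_zero_right, add_zero, one_pow, div_one, ← mul_assoc,
    inv_mul_cancel₀, one_mul]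
  exact_mod_cast (k4_cW_pos μ).ne'

/-- a rotation which distinguishes two different homogeneities -/
theorem rep_exists {k l : ℕ} (hkl : k ≠ l) :
    ∃ c : ℂ, ‖c‖ = 1 ∧ c ^ k * (starRingEnd ℂ) c ^ l ≠ 1 := by
  have hne : ((k : ℝ) - l) ≠ 0 := by
    rw [sub_ne_zero]
    exact_mod_cast hkl
  refine ⟨Complex.exp (((Real.pi / ((k : ℝ) - l) : ℝ) : ℂ) * Complex.I),
    Complex.norm_exp_ofReal_mul_I _, ?_⟩
  have h1 : (starRingEnd ℂ) (Complex.exp (((Real.pi / ((k : ℝ) - l) : ℝ) : ℂ) * Complex.I)) =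
      Complex.exp (-(((Real.pi / ((k : ℝ) - l) : ℝ) : ℂ) * Complex.I)) := by
    rw [← Complex.exp_conj, map_mul, Complex.conj_ofReal, Complex.conj_I, mul_neg]
  rw [h1, ← Complex.exp_nat_mul, ← Complex.exp_nat_mul, ← Complex.exp_add]
  have hnec : ((k : ℂ) - l) ≠ 0 := by exact_mod_cast hne
  have h2 : (k : ℂ) * (((Real.pi / ((k : ℝ) - l) : ℝ) : ℂ) * Complex.I) +
      (l : ℂ) * -(((Real.pi / ((k : ℝ) - l) : ℝ) : ℂ) * Complex.I) = Real.pi * Complex.I := by
    push_cast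
    field_simp
    ring
  rw [h2, Complex.exp_pi_mul_I]
  norm_num

/-- orthogonality -/
theorem hp_inner_ne (μ : Measure E) [μ.IsAddHaarMeasure] {u : E → ℂ} {M : ℝ}
    (hu : DifferentiableOn ℂ u (ball 0 1)) (hM : ∀ z ∈ ball (0 : E) 1, ‖u z‖ ≤ M) {k l : ℕ}
    (hkl : k ≠ l) (z : E) :
    ∫ w in ball (0 : E) 1, ((WW w : ℝ) : ℂ) * hp u k w * ⟪w, z⟫_ℂ ^ l ∂μ = 0 := by
  obtain ⟨c, hc, hne⟩ := rep_exists hkl
  refine rep_zero μ hc hne ?_
  intro w hw
  rw [rep_WW_smul hc, hp_smul hu k hw hc.le, inner_smul_left, mul_pow]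
  ring

theorem hp_orth (μ : Measure E) [μ.IsAddHaarMeasure] {u : E → ℂ} {M : ℝ}
    (hu : DifferentiableOn ℂ u (ball 0 1)) (hM : ∀ z ∈ ball (0 : E) 1, ‖u z‖ ≤ M) {k l : ℕ}
    (hkl : k ≠ l) :
    ∫ w in ball (0 : E) 1, ((WW w : ℝ) : ℂ) * ((starRingEnd ℂ) (hp u k w) * hp u l w) ∂μ = 0 := by
  obtain ⟨c, hc, hne⟩ := rep_exists (Ne.symm hkl)
  refine rep_zero μ hc hne ?_
  intro w hw
  rw [rep_WW_smul hc, hp_smul hu k hw hc.le, hp_smul hu l hw hc.le, map_mul, map_pow]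
  ring

theorem hp_inner_eq (μ : Measure E) [μ.IsAddHaarMeasure] {m : ℕ}
    (hdim : Module.finrank ℂ E = m + 1) {u : E → ℂ} {M : ℝ}
    (hu : DifferentiableOn ℂ u (ball 0 1)) (hM : ∀ z ∈ ball (0 : E) 1, ‖u z‖ ≤ M) (k : ℕ) {z : E}
    (hz : ‖z‖ < 1) :
    (bc m k : ℂ) * ∫ w in ball (0 : E) 1, ((WW w : ℝ) : ℂ) * hp u k w * ⟪w, z⟫_ℂ ^ k ∂μ =
      ((cW μ : ℝ) : ℂ) * hp u k z := by
  have : ProperSpace E := FiniteDimensional.proper ℂ E
  have hfin : IsFiniteMeasure (μ.restrict (ball (0 : E) 1)) :=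
    ⟨by rw [Measure.restrict_apply_univ]; exact measure_ball_lt_top⟩
  have hM0 : 0 ≤ M := (norm_nonneg _).trans (hM 0 (mem_ball_self one_pos))
  have hc : ((cW μ : ℝ) : ℂ) ≠ 0 := by exact_mod_cast (k4_cW_pos μ).ne'
  have h1 := PQ_holo μ hdim (hp_diff hu k) (fun w hw => hp_bound hM k hw) hz
  unfold PQ at h1
  have hbc : ∀ l : ℕ, (l + (m + 5)).choose (m + 5) = bc m l := by
    intro l
    unfold bc
    rw [add_comm l, Nat.choose_symm_add]
  have hin : ∀ w ∈ ball (0 : E) 1, ‖⟪w, z⟫_ℂ‖ ≤ ‖z‖ := by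
    intro w hw
    rw [mem_ball_zero_iff] at hw
    refine (norm_inner_le_norm (𝕜 := ℂ) w z).trans ?_
    nlinarith [norm_nonneg z, norm_nonneg w]
  have hsum : Summable fun l : ℕ => (bc m l : ℝ) * ‖z‖ ^ l * M := by
    have h := summable_choose_mul_geometric_of_norm_lt_one (R := ℝ) (m + 5) (r := ‖z‖)
      (by rwa [norm_norm])
    simp only [hbc] at h
    exact h.mul_right M
  have hexp : HasSum (fun l : ℕ => ∫ w in ball (0 : E) 1,
      (bc m l : ℂ) * (((WW w : ℝ) : ℂ) * hp u k w * ⟪w, z⟫_ℂ ^ l) ∂μ)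
      (∫ w in ball (0 : E) 1, ((WW w : ℝ) : ℂ) * hp u k w / (1 - ⟪w, z⟫_ℂ) ^ (m + 6) ∂μ) := by
    refine hasSum_integral_of_dominated_convergence
      (bound := fun l _ => (bc m l : ℝ) * ‖z‖ ^ l * M) ?_ ?_ ?_ ?_ ?_
    · intro l
      apply ContinuousOn.aestronglyMeasurable _ measurableSet_ball
      apply ContinuousOn.mul continuousOn_const
      apply ContinuousOn.mul
      · exact rep_WW_cont.continuousOn.mul (hp_diff hu k).continuousOn
      · apply Continuous.continuousOn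
        fun_prop
    · intro l
      refine (ae_restrict_iff' measurableSet_ball).mpr (Eventually.of_forall fun w hw => ?_)
      rw [norm_mul, norm_mul, norm_mul, norm_pow, Complex.norm_natCast]
      have h2 : ‖((WW w : ℝ) : ℂ)‖ * ‖hp u k w‖ ≤ 1 * M :=
        mul_le_mul (rep_WW_bound hw) (hp_bound hM k hw) (norm_nonneg _) zero_le_one
      have h3 : ‖⟪w, z⟫_ℂ‖ ^ l ≤ ‖z‖ ^ l := pow_le_pow_left₀ (norm_nonneg _) (hin w hw) l
      calc (bc m l : ℝ) * (‖((WW w : ℝ) : ℂ)‖ * ‖hp u k w‖ * ‖⟪w, z⟫_ℂ‖ ^ l)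
          ≤ (bc m l : ℝ) * ((1 * M) * ‖z‖ ^ l) := by
            apply mul_le_mul_of_nonneg_left _ (Nat.cast_nonneg _)
            exact mul_le_mul h2 h3 (by positivity) (by positivity)
        _ = (bc m l : ℝ) * ‖z‖ ^ l * M := by ring
    · exact Eventually.of_forall fun _ => hsum
    · exact integrable_const _
    · refine (ae_restrict_iff' measurableSet_ball).mpr (Eventually.of_forall fun w hw => ?_)
      have h2 : ‖⟪w, z⟫_ℂ‖ < 1 := (hin w hw).trans_lt hz
      have h3 := hasSum_choose_mul_geometric_of_norm_lt_one (m + 5) h2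
      have h4 := h3.mul_left (((WW w : ℝ) : ℂ) * hp u k w)
      rw [mul_one_div] at h4
      have h5 : (fun l : ℕ => (bc m l : ℂ) * (((WW w : ℝ) : ℂ) * hp u k w * ⟪w, z⟫_ℂ ^ l)) =
          fun l : ℕ => ((WW w : ℝ) : ℂ) * hp u k w *
            (((l + (m + 5)).choose (m + 5) : ℂ) * ⟪w, z⟫_ℂ ^ l) := by
        funext l
        rw [hbc]
        ring
      rw [h5]
      exact h4
  have hone : HasSum (fun l : ℕ => ∫ w in ball (0 : E) 1,
      (bc m l : ℂ) * (((WW w : ℝ) : ℂ) * hp u k w * ⟪w, z⟫_ℂ ^ l) ∂μ)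
      (∫ w in ball (0 : E) 1,
      (bc m k : ℂ) * (((WW w : ℝ) : ℂ) * hp u k w * ⟪w, z⟫_ℂ ^ k) ∂μ) := by
    apply hasSum_single k
    intro l hl
    rw [integral_const_mul, hp_inner_ne μ hu hM (Ne.symm hl) z, mul_zero]
  have heq := hone.unique hexp
  rw [integral_const_mul] at heq
  rw [heq]
  rw [← h1]
  rw [← mul_assoc, mul_inv_cancel₀ hc, one_mul]

end Pool.Agent.MPca0fc2.DA
end
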