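import Mathlib
import Pool.Agent.Lib.MP_ca0fc2_an.Mg.G012
import Pool.Agent.Lib.MP_ca0fc2_an.Mg.G055
import Pool.Agent.Lib.MP_ca0fc2_an.QTGrp

section

set_option autoImplicit false

open Metric Set MeasureTheory Filter Topology
open scoped InnerProductSpace ENNReal

namespace Pool.Agent.MPca0fc2.QT

open Pool.Agent.MPca0fc2.PT

variable {E : Type*} [NormedAddCommGroup E] [InnerProductSpace ℂ E]
variable {V : Type*} [NormedAddCommGroup V] [NormedSpace ℂ V]

theorem kest_gau_nonneg {d : ℝ} (hd : 0 ≤ d) (w x : E) : 0 ≤ gau d w x := by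
  unfold gau
  positivity

/-- the integral of the radial factor -/
theorem kest_radial :
    ∫⁻ r in Icc (0 : ℝ) 1, ENNReal.ofReal ((1 / (1 - r)) ^ (1 / 2 : ℝ)) ≤ ENNReal.ofReal 2 := by
  have h0 : IntervalIntegrable (fun r : ℝ => (1 - r) ^ (-(1 / 2) : ℝ)) volume 0 1 := by
    have h := (intervalIntegral.intervalIntegrable_rpow' (a := 0) (b := 1)
      (r := (-(1 / 2) : ℝ)) (by norm_num)).comp_sub_left 1
    simpa using h.symm
  have h1 : ∫ r in (0 : ℝ)..1, (1 - r) ^ (-(1 / 2) : ℝ) = 2 := by
    rw [intervalIntegral.integral_comp_sub_left (fun x : ℝ => x ^ (-(1 / 2) : ℝ)) 1, sub_self,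
      sub_zero, integral_rpow (Or.inl (by norm_num))]
    norm_num
  rw [intervalIntegral.integral_of_le zero_le_one, ← integral_Icc_eq_integral_Ioc] at h1
  rw [intervalIntegrable_iff_integrableOn_Icc_of_le zero_le_one] at h0
  have h3 : ENNReal.ofReal 2 = ∫⁻ r in Icc (0 : ℝ) 1, ENNReal.ofReal ((1 - r) ^ (-(1 / 2) : ℝ)) := by
    rw [← ofReal_integral_eq_lintegral_ofReal h0, h1]
    refine (ae_restrict_iff' measurableSet_Icc).mpr (Eventually.of_forall fun r hr => ?_)
    have h2 : 0 ≤ 1 - r := by linarith [hr.2]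
    exact Real.rpow_nonneg h2 _
  rw [h3]
  refine setLIntegral_mono' measurableSet_Icc fun r hr => ?_
  apply ENNReal.ofReal_le_ofReal
  have h2 : 0 ≤ 1 - r := by linarith [hr.2]
  rw [Real.rpow_neg h2, one_div, Real.inv_rpow h2]

variable [FiniteDimensional ℂ E] [MeasurableSpace E] [BorelSpace E]

end Pool.Agent.MPca0fc2.QT
end

section

set_option autoImplicit false

open Metric Set MeasureTheory Filter Topology
open scoped InnerProductSpace ENNReal

namespace Pool.Agent.MPca0fc2.QT

open Pool.Agent.MPca0fc2.PT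

variable {E : Type*} [NormedAddCommGroup E] [InnerProductSpace ℂ E]
variable {V : Type*} [NormedAddCommGroup V] [NormedSpace ℂ V]
variable {Y : Type*} [NormedAddCommGroup Y] [NormedSpace ℂ Y]

theorem Anti.add {q : ℕ} {η η' : E [⋀^Fin q]→L[ℝ] V} (h : Anti η) (h' : Anti η') :
    Anti (η + η') := by
  intro v i
  rw [ContinuousAlternatingMap.add_apply, ContinuousAlternatingMap.add_apply, h v i, h' v i,
    smul_add, neg_add]

theorem Anti.sub {q : ℕ} {η η' : E [⋀^Fin q]→L[ℝ] V} (h : Anti η) (h' : Anti η') :
    Anti (η - η') := by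
  intro v i
  rw [ContinuousAlternatingMap.sub_apply, ContinuousAlternatingMap.sub_apply, h v i, h' v i,
    smul_sub]
  abel

theorem Anti.smul {q : ℕ} {η : E [⋀^Fin q]→L[ℝ] V} (h : Anti η) (c : ℂ) : Anti (c • η) := by
  intro v i
  rw [ContinuousAlternatingMap.smul_apply, ContinuousAlternatingMap.smul_apply, h v i,
    smul_neg, smul_comm c Complex.I]

theorem Anti.zero {q : ℕ} : Anti (0 : E [⋀^Fin q]→L[ℝ] V) := by
  intro v i
  simp

theorem Anti.deg_zero (η : E [⋀^Fin 0]→L[ℝ] V) : Anti η := by
  intro v i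
  exact i.elim0

theorem Anti.opc {q : ℕ} {η : E [⋀^Fin q]→L[ℝ] V} (h : Anti η) (A : V →L[ℂ] V) :
    Anti (opc E V q A η) := by
  intro v i
  rw [opc_apply, opc_apply, h v i, map_neg, map_smul]

/-- a form which is conjugate linear in the first argument -/
theorem Anti.of_first {q : ℕ} {η : E [⋀^Fin (q + 1)]→L[ℝ] V}
    (h : ∀ (x : E) (v : Fin q → E),
      η (Matrix.vecCons (Complex.I • x) v) = -(Complex.I • η (Matrix.vecCons x v))) : Anti η := by
  intro v i
  set σ : Equiv.Perm (Fin (q + 1)) := Equiv.swap 0 i with hσ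
  have e0 : (v ∘ σ) 0 = v i := by
    simp [hσ]
  have e1 : (Function.update v i (Complex.I • v i)) ∘ σ
      = Matrix.vecCons (Complex.I • (v ∘ σ) 0) (Fin.tail (v ∘ σ)) := by
    funext j
    refine Fin.cases ?_ (fun k => ?_) j
    · simp [hσ]
    · simp only [Function.comp_apply, Matrix.cons_val_succ, Fin.tail]
      rw [Function.update_of_ne]
      intro hk
      have h1 : σ k.succ = σ 0 := by
        rw [hk, hσ, Equiv.swap_apply_left]
      exact (Fin.succ_ne_zero k) (σ.injective h1)
  have e2 : Matrix.vecCons ((v ∘ σ) 0) (Fin.tail (v ∘ σ)) = v ∘ σ := Fin.cons_self_tail _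
  have p1 : η ((Function.update v i (Complex.I • v i)) ∘ σ)
      = Equiv.Perm.sign σ • η (Function.update v i (Complex.I • v i)) :=
    η.toAlternatingMap.map_perm (Function.update v i (Complex.I • v i)) σ
  have p2 : η (v ∘ σ) = Equiv.Perm.sign σ • η v := η.toAlternatingMap.map_perm v σ
  rw [e1, h, e2, p2] at p1
  have hs : (Equiv.Perm.sign σ) • (Equiv.Perm.sign σ) •
      η (Function.update v i (Complex.I • v i))
      = (Equiv.Perm.sign σ) • -(Complex.I • (Equiv.Perm.sign σ) • η v) := by rw [p1]
  rw [smul_smul, Int.units_mul_self, one_smul, smul_neg, smul_comm (Equiv.Perm.sign σ) Complex.I,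
    smul_smul (Equiv.Perm.sign σ) (Equiv.Perm.sign σ), Int.units_mul_self, one_smul] at hs
  exact hs

theorem Anti.alt {q : ℕ} {f : E →L[ℝ] E [⋀^Fin q]→L[ℝ] V} (h : ∀ v, Anti (f v))
    (h' : ∀ v, f (Complex.I • v) = -(Complex.I • f v)) :
    Anti (ContinuousAlternatingMap.alternatizeUncurryFin f) := by
  intro v j
  rw [ContinuousAlternatingMap.alternatizeUncurryFin_apply,
    ContinuousAlternatingMap.alternatizeUncurryFin_apply, Finset.smul_sum,
    ← Finset.sum_neg_distrib]
  refine Finset.sum_congr rfl (fun i _ => ?_)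
  by_cases hij : i = j
  · subst hij
    rw [Function.update_self, h', Fin.removeNth_update, ContinuousAlternatingMap.neg_apply,
      ContinuousAlternatingMap.smul_apply, smul_neg, smul_comm Complex.I]
  · obtain ⟨j', rfl⟩ := Fin.exists_succAbove_eq (Ne.symm hij)
    have e1 : i.removeNth (Function.update v (i.succAbove j') (Complex.I • v (i.succAbove j')))
        = Function.update (i.removeNth v) j' (Complex.I • (i.removeNth v) j') := by
      funext k
      by_cases hk : k = j'
      · subst hk
        simp [Fin.removeNth]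
      · rw [Function.update_of_ne hk]
        simp only [Fin.removeNth]
        rw [Function.update_of_ne]
        intro hh
        exact hk (Fin.succAbove_right_injective hh)
    rw [Function.update_of_ne hij, e1, h, smul_neg, smul_comm Complex.I]

theorem Anti.curryLeft {q : ℕ} {η : E [⋀^Fin (q + 1)]→L[ℝ] V} (h : Anti η) (x : E) :
    Anti (η.curryLeft x) := by
  intro v i
  have e1 : Matrix.vecCons x (Function.update v i (Complex.I • v i))
      = Function.update (Matrix.vecCons x v) i.succ
        (Complex.I • (Matrix.vecCons x v) i.succ) := by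
    funext k
    refine Fin.cases ?_ (fun k => ?_) k
    · rw [Function.update_of_ne (Fin.succ_ne_zero i).symm]
      simp
    · simp only [Matrix.cons_val_succ]
      by_cases hk : k = i
      · subst hk
        simp
      · rw [Function.update_of_ne hk, Function.update_of_ne (fun hh => hk (Fin.succ_injective _ hh))]
        simp
  rw [ContinuousAlternatingMap.curryLeft_apply_apply, ContinuousAlternatingMap.curryLeft_apply_apply, e1, h]

theorem Anti.compHolo {q : ℕ} {η : E [⋀^Fin q]→L[ℝ] V} (h : Anti η) (L : E →L[ℂ] E) :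
    Anti (η.compContinuousLinearMap (L.restrictScalars ℝ)) := by
  intro v i
  have e1 : (L.restrictScalars ℝ) ∘ (Function.update v i (Complex.I • v i))
      = Function.update ((L.restrictScalars ℝ) ∘ v) i
        (Complex.I • ((L.restrictScalars ℝ) ∘ v) i) := by
    funext k
    by_cases hk : k = i
    · subst hk
      simp
    · simp [Function.update_of_ne hk]
  rw [ContinuousAlternatingMap.compContinuousLinearMap_apply,
    ContinuousAlternatingMap.compContinuousLinearMap_apply, e1, h]

theorem Anti.wd (K : Car Y V) {q : ℕ} {L : E →L[ℝ] Y} (hL : ∀ v, L (Complex.I • v) =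
    -(Complex.I • L v)) {P : E [⋀^Fin q]→L[ℝ] V} (h : Anti P) : Anti (wd K L P) := by
  have key : ∀ v : E, (((QT.opc E V q).flip P).comp ((K.a.restrictScalars ℝ).comp L)) v
      = QT.opc E V q (K.a (L v)) P := fun v => rfl
  refine Anti.alt (fun v => ?_) (fun v => ?_)
  · rw [key]
    exact h.opc _
  · rw [key, key]
    ext x
    rw [opc_apply, hL, map_neg, map_smul, _root_.neg_apply,
      _root_.smul_apply, ContinuousAlternatingMap.neg_apply,
      ContinuousAlternatingMap.smul_apply, opc_apply]

theorem Anti.Pw (K : Car Y V) (σ : E → Y) (w : E) (r : ℕ) : Anti (Pw K (D01 σ w) r) := by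
  induction r with
  | zero => exact Anti.deg_zero _
  | succ r ih => exact Anti.wd K (D01_I σ w) ih

theorem Anti.SP (K : Car Y V) (σ σ' : E → Y) (w : E) (r : ℕ) :
    Anti (SP K (D01 σ w) (D01 σ' w) r) := by
  induction r with
  | zero => exact Anti.deg_zero _
  | succ r ih => exact (Anti.wd K (D01_I σ w) ih).add (Anti.Pw K σ' w (r + 1))

theorem Anti.UU (K : Car Y V) (σ : E → Y) (w : E) (r : ℕ) : Anti (UU K σ r w) :=
  (Anti.Pw K σ w r).opc _

theorem Anti.JJ (K : Car Y V) (σ σ' : E → Y) (w : E) (r : ℕ) : Anti (JJ K σ σ' r w) :=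
  ((Anti.SP K σ σ' w r).opc _).opc _

end Pool.Agent.MPca0fc2.QT
end

section

set_option autoImplicit false

open Metric Set MeasureTheory Filter Topology
open scoped InnerProductSpace ENNReal

namespace Pool.Agent.MPca0fc2.QT

open Pool.Agent.MPca0fc2.PT

variable {E : Type*} [NormedAddCommGroup E] [InnerProductSpace ℂ E]
variable {V : Type*} [NormedAddCommGroup V] [NormedSpace ℂ V]
variable {Y : Type*} [NormedAddCommGroup Y] [NormedSpace ℂ Y]

/-- the derivatives of a field of such forms -/
theorem Anti.fderiv {q : ℕ} {η : E → E [⋀^Fin q]→L[ℝ] V} {w : E} (h : DifferentiableAt ℝ η w)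
    (h' : ∀ᶠ x in 𝓝 w, Anti (η x)) (v : E) : Anti (fderiv ℝ η w v) := by
  intro u i
  have key : ∀ u : Fin q → E, HasFDerivAt (fun x => η x u)
      ((ContinuousAlternatingMap.apply ℝ E V u).comp (_root_.fderiv ℝ η w)) w := fun u =>
    (ContinuousAlternatingMap.apply ℝ E V u).hasFDerivAt.comp w h.hasFDerivAt
  have h1 := key (Function.update u i (Complex.I • u i))
  have h2 : HasFDerivAt (fun x => -(Complex.I • η x u))
      (-(Complex.I • ((ContinuousAlternatingMap.apply ℝ E V u).comp (_root_.fderiv ℝ η w)))) w :=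
    ((key u).const_smul Complex.I).neg
  have h3 : (fun x => η x (Function.update u i (Complex.I • u i))) =ᶠ[𝓝 w]
      (fun x => -(Complex.I • η x u)) := h'.mono (fun x hx => hx u i)
  have h4 := h1.unique (h2.congr_of_eventuallyEq h3)
  have h5 := congrArg (fun L : E →L[ℝ] V => L v) h4
  simpa using h5

theorem Anti.db {q : ℕ} {η : E → E [⋀^Fin q]→L[ℝ] V} {w : E} (h : DifferentiableAt ℝ η w)
    (h' : ∀ᶠ x in 𝓝 w, Anti (η x)) : Anti (db η w) := by
  refine Anti.alt (fun v => ?_) (fun v => d1_I η w v)
  have h1 := Anti.fderiv h h' v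
  have h2 := Anti.fderiv h h' (jI E v)
  exact (h1.add (h2.smul Complex.I)).smul (2⁻¹ : ℂ)

theorem Anti.integral {X : Type*} [MeasurableSpace X] {μ : Measure X} {q : ℕ}
    {f : X → E [⋀^Fin q]→L[ℝ] V} [CompleteSpace V] (h : ∀ᵐ x ∂μ, Anti (f x)) :
    Anti (∫ x, f x ∂μ) := by
  by_cases hf : Integrable f μ
  · intro u i
    have key : ∀ u : Fin q → E, (∫ x, f x ∂μ) u = ∫ x, f x u ∂μ := fun u =>
      ((ContinuousAlternatingMap.apply ℝ E V u).integral_comp_comm hf).symm
    rw [key, key, ← integral_smul, ← integral_neg]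
    exact integral_congr_ae (h.mono (fun x hx => hx u i))
  · rw [integral_undef hf]
    exact Anti.zero

theorem Anti.smul_slot {q : ℕ} {η : E [⋀^Fin q]→L[ℝ] V} (h : Anti η) (v : Fin q → E)
    (j : Fin q) (c : ℂ) (x : E) :
    η (Function.update v j (c • x)) = (starRingEnd ℂ) c • η (Function.update v j x) := by
  have hI : η (Function.update v j (Complex.I • x)) =
      -(Complex.I • η (Function.update v j x)) := by
    have := h (Function.update v j x) j
    simpa using this
  have hc : c • x = c.re • x + c.im • (Complex.I • x) := by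
    conv_lhs => rw [← Complex.re_add_im c]
    rw [add_smul, mul_smul, Complex.coe_smul, Complex.coe_smul]
  have hc' : (starRingEnd ℂ) c = (c.re : ℂ) - (c.im : ℂ) * Complex.I := by
    apply Complex.ext <;> simp
  rw [hc, η.map_update_add, η.map_update_smul, η.map_update_smul, hI, hc', sub_smul, mul_smul,
    Complex.coe_smul, Complex.coe_smul, smul_neg, sub_eq_add_neg]

/-- there are no such forms whose degree is greater than the dimension -/
theorem Anti.eq_zero [FiniteDimensional ℂ E] {q : ℕ} (hq : Module.finrank ℂ E < q)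
    {η : E [⋀^Fin q]→L[ℝ] V} (h : Anti η) : η = 0 := by
  ext v
  have hdep : ¬ LinearIndependent ℂ v := by
    intro hli
    have := hli.fintype_card_le_finrank
    rw [Fintype.card_fin] at this
    omega
  obtain ⟨g, hg, j, hj⟩ := Fintype.not_linearIndependent_iff.1 hdep
  have h1 : η (Function.update v j (∑ i, g i • v i)) =
      ∑ i, (starRingEnd ℂ) (g i) • η (Function.update v j (v i)) := by
    have : η (Function.update v j (∑ i, g i • v i)) =
        ∑ i, η (Function.update v j (g i • v i)) :=
      map_sum (η.toContinuousLinearMap v j) (fun i => g i • v i) Finset.univ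
    rw [this]
    exact Finset.sum_congr rfl (fun i _ => h.smul_slot v j (g i) (v i))
  have h2 : η (Function.update v j (∑ i, g i • v i)) = 0 := by
    rw [hg]
    exact map_zero (η.toContinuousLinearMap v j)
  rw [h2, Finset.sum_eq_single j] at h1
  · rw [Function.update_eq_self] at h1
    have h3 : (starRingEnd ℂ) (g j) ≠ 0 := by simpa using hj
    have h4 := (smul_eq_zero.1 h1.symm).resolve_left h3
    simpa using h4
  · intro i _ hij
    rw [show η (Function.update v j (v i)) = 0 from
      η.toAlternatingMap.map_update_self v (Ne.symm hij), smul_zero]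
  · intro hcon
    exact absurd (Finset.mem_univ j) hcon

end Pool.Agent.MPca0fc2.QT
end
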