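import Mathlib
import Pool.Agent.Lib.MP_ca0fc2_an.Mg.G049
import Pool.Agent.Lib.MP_ca0fc2_an.Mg.G045

section

set_option autoImplicit false

open Metric Set MeasureTheory Filter Topology
open scoped InnerProductSpace ENNReal

namespace Pool.Agent.MPca0fc2.QT

open Pool.Agent.MPca0fc2.PT

variable {E : Type*} [NormedAddCommGroup E] [InnerProductSpace ℂ E]

theorem isOpen_dom : IsOpen {p : E × E | ‖p.1‖ < 1 ∧ 1 + ⟪p.1, p.2⟫_ℂ ≠ 0} := by
  refine (isOpen_lt (continuous_fst.norm) continuous_const).inter ?_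
  exact isOpen_ne_fun (continuous_const.add (continuous_fst.inner continuous_snd))
    continuous_const

theorem sm_inner : ContDiffOn ℝ 2 (fun p : E × E => (1 + ⟪p.1, p.2⟫_ℂ : ℂ))
    {p : E × E | ‖p.1‖ < 1 ∧ 1 + ⟪p.1, p.2⟫_ℂ ≠ 0} :=
  contDiffOn_const.add (contDiffOn_fst.inner ℂ contDiffOn_snd)

theorem sm_inv : ContDiffOn ℝ 2 (fun p : E × E => ((1 + ⟪p.1, p.2⟫_ℂ)⁻¹ : ℂ))
    {p : E × E | ‖p.1‖ < 1 ∧ 1 + ⟪p.1, p.2⟫_ℂ ≠ 0} :=
  sm_inner.inv fun _ hp => hp.2

theorem sm_ss : ContDiffOn ℝ 2 (fun p : E × E => ss p.1)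
    {p : E × E | ‖p.1‖ < 1 ∧ 1 + ⟪p.1, p.2⟫_ℂ ≠ 0} := by
  refine ContDiffOn.sqrt ?_ ?_
  · exact contDiffOn_const.sub (ContDiffOn.norm_sq ℂ contDiffOn_fst)
  · intro p hp
    have := hp.1
    have h : 0 < 1 - ‖p.1‖ ^ 2 := by nlinarith [norm_nonneg p.1]
    exact h.ne'

theorem sm_bil : IsBoundedBilinearMap ℝ (fun p : E × E => (innerSL ℂ p.1).smulRight p.2) where
  add_left x y z := by
    ext v
    simp [add_smul]
  smul_left c x z := by
    ext v
    simp only [ContinuousLinearMap.smulRight_apply, innerSL_apply_apply,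
      _root_.smul_apply]
    rw [← Complex.coe_smul c x, inner_smul_left, Complex.conj_ofReal, mul_smul,
      Complex.coe_smul]
  add_right x y z := by
    ext v
    simp
  smul_right c x z := by
    ext v
    simp only [ContinuousLinearMap.smulRight_apply, innerSL_apply_apply,
      _root_.smul_apply]
    rw [smul_comm]
  bound := ⟨1, one_pos, fun x y => by
    rw [ContinuousLinearMap.norm_smulRight_apply, innerSL_apply_norm, one_mul]⟩

/-- the linear maps depend smoothly on the point -/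
theorem sm_AA : ContDiffOn ℝ 2 (fun p : E × E => AA p.1)
    {p : E × E | ‖p.1‖ < 1 ∧ 1 + ⟪p.1, p.2⟫_ℂ ≠ 0} := by
  have h1 : ContDiffOn ℝ 2 (fun p : E × E => ((ss p.1 : ℝ) : ℂ))
    {p : E × E | ‖p.1‖ < 1 ∧ 1 + ⟪p.1, p.2⟫_ℂ ≠ 0} :=
    Complex.ofRealCLM.contDiff.comp_contDiffOn sm_ss
  have h2 : ContDiffOn ℝ 2 (fun p : E × E => (((1 + ss p.1)⁻¹ : ℝ) : ℂ))
    {p : E × E | ‖p.1‖ < 1 ∧ 1 + ⟪p.1, p.2⟫_ℂ ≠ 0} := by
    refine Complex.ofRealCLM.contDiff.comp_contDiffOn ?_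
    refine (contDiffOn_const.add sm_ss).inv fun p hp => ?_
    have := geo_ss_nonneg p.1
    positivity
  have h3 : ContDiffOn ℝ 2 (fun p : E × E => (innerSL ℂ p.1).smulRight p.1)
    {p : E × E | ‖p.1‖ < 1 ∧ 1 + ⟪p.1, p.2⟫_ℂ ≠ 0} :=
    (sm_bil (E := E)).contDiff.comp_contDiffOn
      (f := fun p : E × E => ((p.1, p.1) : E × E)) (contDiffOn_fst.prodMk contDiffOn_fst)
  exact (h1.smul contDiffOn_const).add (h2.smul h3)

theorem gg_smooth : ContDiffOn ℝ 2 (fun p : E × E => gg p.1 p.2)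
    {p : E × E | ‖p.1‖ < 1 ∧ 1 + ⟪p.1, p.2⟫_ℂ ≠ 0} := by
  have h1 : ContDiffOn ℝ 2 (fun p : E × E => (AA p.1).restrictScalars ℝ)
    {p : E × E | ‖p.1‖ < 1 ∧ 1 + ⟪p.1, p.2⟫_ℂ ≠ 0} :=
    (ContinuousLinearMap.restrictScalarsL ℂ E E ℝ ℝ).contDiff.comp_contDiffOn sm_AA
  exact sm_inv.smul (contDiffOn_fst.add (h1.clm_apply contDiffOn_snd))

theorem gg'_smooth : ContDiffOn ℝ 2 (fun p : E × E => (gg' p.1 p.2).restrictScalars ℝ)
    {p : E × E | ‖p.1‖ < 1 ∧ 1 + ⟪p.1, p.2⟫_ℂ ≠ 0} := by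
  have h3 : ContDiffOn ℝ 2 (fun p : E × E => (innerSL ℂ p.1).smulRight (gg p.1 p.2))
    {p : E × E | ‖p.1‖ < 1 ∧ 1 + ⟪p.1, p.2⟫_ℂ ≠ 0} :=
    (sm_bil (E := E)).contDiff.comp_contDiffOn
      (f := fun p : E × E => ((p.1, gg p.1 p.2) : E × E)) (contDiffOn_fst.prodMk gg_smooth)
  exact (ContinuousLinearMap.restrictScalarsL ℂ E E ℝ ℝ).contDiff.comp_contDiffOn
    (sm_inv.smul (sm_AA.sub h3))

end Pool.Agent.MPca0fc2.QT
end

section

set_option autoImplicit false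

open Metric Set MeasureTheory Filter Topology
open scoped InnerProductSpace ENNReal

namespace Pool.Agent.MPca0fc2.PT

theorem tauh_deriv (s : ℝ) : HasDerivAt (fun x : ℝ => (max 0 x) ^ 2) (2 * max 0 s) s := by
  rcases lt_trichotomy s 0 with h | h | h
  · rw [max_eq_left h.le, mul_zero]
    refine (hasDerivAt_const s (0 : ℝ)).congr_of_eventuallyEq ?_
    filter_upwards [Iio_mem_nhds h] with x hx
    rw [max_eq_left (le_of_lt hx)]; norm_num
  · subst h
    rw [max_self, mul_zero, hasDerivAt_iff_tendsto_slope_zero]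
    apply squeeze_zero_norm (a := fun t : ℝ => |t|)
    · intro t
      rw [zero_add, max_self, norm_smul, norm_inv, Real.norm_eq_abs, Real.norm_eq_abs]
      have h1 : |(max 0 t) ^ 2 - 0 ^ 2| ≤ |t| * |t| := by
        rw [zero_pow (by norm_num), sub_zero, abs_pow, sq]
        have h2 : |max 0 t| ≤ |t| := by
          rw [abs_of_nonneg (le_max_left _ _)]
          exact max_le (abs_nonneg _) (le_abs_self _)
        gcongr
      rcases eq_or_ne t 0 with rfl | ht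
      · simp
      · have h3 : 0 < |t| := abs_pos.mpr ht
        calc |t|⁻¹ * |(max 0 t) ^ 2 - 0 ^ 2| ≤ |t|⁻¹ * (|t| * |t|) := by gcongr
          _ = |t| := by field_simp
    · have : Tendsto (fun t : ℝ => |t|) (𝓝 0) (𝓝 |(0 : ℝ)|) := continuous_abs.tendsto 0
      rw [abs_zero] at this
      exact this.mono_left nhdsWithin_le_nhds
  · rw [max_eq_right h.le]
    refine HasDerivAt.congr_of_eventuallyEq (f := fun x : ℝ => x ^ 2) ?_ ?_
    · simpa using hasDerivAt_pow 2 s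
    · filter_upwards [Ioi_mem_nhds h] with x hx
      rw [max_eq_right (le_of_lt hx)]

theorem tauh_contDiff : ContDiff ℝ 1 (fun x : ℝ => (max 0 x) ^ 2) := by
  rw [contDiff_one_iff_deriv]
  refine ⟨fun s => (tauh_deriv s).differentiableAt, ?_⟩
  have : deriv (fun x : ℝ => (max 0 x) ^ 2) = fun s => 2 * max 0 s :=
    funext fun s => (tauh_deriv s).deriv
  rw [this]
  fun_prop

end Pool.Agent.MPca0fc2.PT
end

section

set_option autoImplicit false

open Metric Set MeasureTheory Filter Topology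
open scoped InnerProductSpace ENNReal

namespace Pool.Agent.MPca0fc2.PT

/-- the real part of `conj a * b` -/
theorem seq_re (a b : ℂ) : ((starRingEnd ℂ) a * b).re = a.re * b.re + a.im * b.im := by
  simp

theorem seq_re_le (a b : ℂ) : |((starRingEnd ℂ) a * b).re| ≤ ‖a‖ * ‖b‖ := by
  refine (Complex.abs_re_le_norm _).trans ?_
  rw [norm_mul, Complex.norm_conj]

end Pool.Agent.MPca0fc2.PT
end
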