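import Mathlib
import Pool.Agent.Lib.MP_ca0fc2_an.Mg.G055
import Pool.Agent.Lib.MP_ca0fc2_an.Mg.G016
import Pool.Agent.Lib.MP_ca0fc2_an.Mg.G018

section

set_option autoImplicit false

open Metric Set MeasureTheory Filter Topology
open scoped InnerProductSpace ENNReal

namespace Pool.Agent.MPca0fc2.QT

open Pool.Agent.MPca0fc2.PT

variable {E : Type*} [NormedAddCommGroup E] [InnerProductSpace ℂ E]
variable {V : Type*} [NormedAddCommGroup V] [NormedSpace ℂ V]
variable {Y : Type*} [NormedAddCommGroup Y] [NormedSpace ℂ Y]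

theorem db_congr {q : ℕ} {η η' : E → E [⋀^Fin q]→L[ℝ] V} {w : E} (h : η =ᶠ[𝓝 w] η') :
    db η w = db η' w := by
  rw [db, db, d1, d1, h.fderiv_eq]

private theorem clm_has {F G : Type*} [NormedAddCommGroup F] [NormedSpace ℝ F]
    [NormedAddCommGroup G] [NormedSpace ℝ G] (A : F →L[ℝ] G) {f : E → F} {f' : E →L[ℝ] F} {w : E}
    (h : HasFDerivAt f f' w) : HasFDerivAt (fun y => A (f y)) (A.comp f') w :=
  A.hasFDerivAt.comp w h

private theorem d1_of_has {q : ℕ} {η : E → E [⋀^Fin q]→L[ℝ] V} {w : E}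
    {D : E →L[ℝ] E [⋀^Fin q]→L[ℝ] V} (h : HasFDerivAt η D w) (v : E) :
    d1 η w v = (2⁻¹ : ℂ) • (D v + Complex.I • D (Complex.I • v)) := by
  ext x
  rw [d1_apply, h.fderiv]
  rfl

private theorem d1_eq {q : ℕ} (η : E → E [⋀^Fin q]→L[ℝ] V) (w v : E) :
    d1 η w v = (2⁻¹ : ℂ) • (fderiv ℝ η w v + Complex.I • fderiv ℝ η w (Complex.I • v)) := by
  ext x
  rw [d1_apply]
  rfl

private theorem db_of_d1 {q : ℕ} {η : E → E [⋀^Fin q]→L[ℝ] V} {w : E}
    {f : E →L[ℝ] E [⋀^Fin q]→L[ℝ] V} (h : ∀ v, d1 η w v = f v) :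
    db η w = ContinuousAlternatingMap.alternatizeUncurryFin f := by
  rw [db]
  congr 1
  ext1 v
  exact h v

theorem db_add {q : ℕ} {η η' : E → E [⋀^Fin q]→L[ℝ] V} {w : E} (h : DifferentiableAt ℝ η w)
    (h' : DifferentiableAt ℝ η' w) : db (fun w => η w + η' w) w = db η w + db η' w := by
  rw [db_of_d1 (f := d1 η w + d1 η' w), ContinuousAlternatingMap.alternatizeUncurryFin_add]
  · rfl
  · intro v
    have hh : HasFDerivAt (fun w => η w + η' w) (fderiv ℝ η w + fderiv ℝ η' w) w :=
      h.hasFDerivAt.add h'.hasFDerivAt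
    rw [d1_of_has hh]
    simp only [ContinuousLinearMap.add_apply, d1_eq, smul_add]
    abel

theorem db_sub {q : ℕ} {η η' : E → E [⋀^Fin q]→L[ℝ] V} {w : E} (h : DifferentiableAt ℝ η w)
    (h' : DifferentiableAt ℝ η' w) : db (fun w => η w - η' w) w = db η w - db η' w := by
  rw [db_of_d1 (f := d1 η w - d1 η' w)]
  · exact map_sub (ContinuousAlternatingMap.alternatizeUncurryFinCLM ℝ E V) _ _
  · intro v
    have hh : HasFDerivAt (fun w => η w - η' w) (fderiv ℝ η w - fderiv ℝ η' w) w :=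
      h.hasFDerivAt.sub h'.hasFDerivAt
    rw [d1_of_has hh]
    simp only [ContinuousLinearMap.sub_apply, d1_eq, smul_add, smul_sub]
    abel

theorem db_smul {q : ℕ} {η : E → E [⋀^Fin q]→L[ℝ] V} {X : E → ℂ} {w : E}
    (hX : DifferentiableAt ℂ X w) (h : DifferentiableAt ℝ η w) :
    db (fun w => X w • η w) w = X w • db η w := by
  rw [db_of_d1 (f := X w • d1 η w), ContinuousAlternatingMap.alternatizeUncurryFin_smul]
  · rfl
  · intro v
    have hX' := hX.hasFDerivAt.restrictScalars ℝ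
    have hh : HasFDerivAt (fun w => X w • η w) (X w • fderiv ℝ η w +
        ((fderiv ℂ X w).restrictScalars ℝ).smulRight (η w)) w := hX'.smul h.hasFDerivAt
    rw [d1_of_has hh, ContinuousLinearMap.smul_apply, d1_eq]
    ext x
    simp only [ContinuousAlternatingMap.smul_apply, ContinuousAlternatingMap.add_apply,
      ContinuousLinearMap.add_apply, ContinuousLinearMap.smul_apply,
      ContinuousLinearMap.smulRight_apply, ContinuousLinearMap.coe_restrictScalars', map_smul,
      smul_add, smul_smul, smul_eq_mul]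
    have : Complex.I * (Complex.I * (fderiv ℂ X w) v) = -(fderiv ℂ X w) v := by
      rw [← mul_assoc, Complex.I_mul_I]; ring
    rw [this, mul_neg, neg_smul, mul_comm (X w) 2⁻¹, mul_comm Complex.I (X w), ← mul_assoc,
      ← mul_assoc, mul_comm (X w) 2⁻¹]
    abel

/-- the composition with an operator commutes with the alternatization -/
theorem alt_opc {q : ℕ} (A : V →L[ℂ] V) (f : E →L[ℝ] E [⋀^Fin q]→L[ℝ] V) :
    ContinuousAlternatingMap.alternatizeUncurryFin ((opc E V q A).comp f) =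
      opc E V (q + 1) A (ContinuousAlternatingMap.alternatizeUncurryFin f) := by
  ext x
  rw [opc_apply, ContinuousAlternatingMap.alternatizeUncurryFin_apply,
    ContinuousAlternatingMap.alternatizeUncurryFin_apply, map_sum]
  refine Finset.sum_congr rfl fun i _ => ?_
  rw [map_zsmul, ContinuousLinearMap.comp_apply, opc_apply]

theorem db_opc_holo {q : ℕ} {η : E → E [⋀^Fin q]→L[ℝ] V} {G : E → V →L[ℂ] V} {w : E}
    (hG : DifferentiableAt ℂ G w) (h : DifferentiableAt ℝ η w) :
    db (fun w => opc E V q (G w) (η w)) w = opc E V (q + 1) (G w) (db η w) := by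
  rw [db_of_d1 (f := (opc E V q (G w)).comp (d1 η w)), alt_opc]
  · rfl
  · intro v
    have hG' := hG.hasFDerivAt.restrictScalars ℝ
    have hc : HasFDerivAt (fun w => opc E V q (G w)) ((opc E V q).comp
      ((fderiv ℂ G w).restrictScalars ℝ)) w := 
      clm_has (F := V →L[ℂ] V) (G := (E [⋀^Fin q]→L[ℝ] V) →L[ℝ] (E [⋀^Fin q]→L[ℝ] V))
        (opc E V q) hG'
    rw [d1_of_has (hc.clm_apply h.hasFDerivAt), ContinuousLinearMap.comp_apply, d1_eq]
    ext x
    simp only [ContinuousAlternatingMap.smul_apply, ContinuousAlternatingMap.add_apply,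
      ContinuousLinearMap.add_apply, ContinuousLinearMap.comp_apply,
      ContinuousLinearMap.flip_apply, opc_apply, ContinuousLinearMap.coe_restrictScalars',
      map_smul, smul_add, map_add, ContinuousLinearMap.smul_apply]
    rw [smul_smul Complex.I Complex.I, Complex.I_mul_I, neg_smul, one_smul, smul_neg]
    abel

theorem db_opc_a (K : Car Y V) {q : ℕ} {η : E → E [⋀^Fin q]→L[ℝ] V} {σ : E → Y} {w : E}
    (hσ : DifferentiableAt ℝ σ w) (h : DifferentiableAt ℝ η w) :
    db (fun w => opc E V q (K.a (σ w)) (η w)) w =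
      wd K (D01 σ w) (η w) + opc E V (q + 1) (K.a (σ w)) (db η w) := by
  rw [db_of_d1 (f := ((opc E V q).flip (η w)).comp ((K.a.restrictScalars ℝ).comp (D01 σ w)) +
    (opc E V q (K.a (σ w))).comp (d1 η w)), ContinuousAlternatingMap.alternatizeUncurryFin_add,
    alt_opc]
  · rfl
  · intro v
    have hc : HasFDerivAt (fun w => opc E V q (K.a (σ w))) ((opc E V q).comp
      ((K.a.restrictScalars ℝ).comp (fderiv ℝ σ w))) w :=
      clm_has (F := V →L[ℂ] V) (G := (E [⋀^Fin q]→L[ℝ] V) →L[ℝ] (E [⋀^Fin q]→L[ℝ] V))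
        (opc E V q) (clm_has (K.a.restrictScalars ℝ) hσ.hasFDerivAt)
    rw [d1_of_has (hc.clm_apply h.hasFDerivAt)]
    ext x
    simp only [d1_eq, ContinuousAlternatingMap.smul_apply, ContinuousAlternatingMap.add_apply,
      ContinuousLinearMap.add_apply, ContinuousLinearMap.comp_apply, D01_apply,
      ContinuousLinearMap.flip_apply, opc_apply, ContinuousLinearMap.coe_restrictScalars',
      map_smul, smul_add, map_add, ContinuousLinearMap.smul_apply]
    abel

/-- the bilinear expression behind the exterior product -/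
private noncomputable def wb (K : Car Y V) {q : ℕ} (L : E →L[ℝ] Y) (P : E [⋀^Fin q]→L[ℝ] V) :
    E →L[ℝ] E [⋀^Fin q]→L[ℝ] V :=
  ((opc E V q).flip P).comp ((K.a.restrictScalars ℝ).comp L)

private theorem wb_apply (K : Car Y V) {q : ℕ} (L : E →L[ℝ] Y) (P : E [⋀^Fin q]→L[ℝ] V) (u : E)
    (x : Fin q → E) : wb K L P u x = K.a (L u) (P x) := by
  rw [wb, ContinuousLinearMap.comp_apply, ContinuousLinearMap.flip_apply, opc_apply]
  rfl

/-- the real linear map from the derivative to its conjugate linear part -/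
private noncomputable def lam01 : (E →L[ℝ] Y) →L[ℝ] (E →L[ℝ] Y) :=
  (2⁻¹ : ℂ) • (ContinuousLinearMap.id ℝ (E →L[ℝ] Y) +
    Complex.I • (ContinuousLinearMap.compL ℝ E E Y).flip (jI E))

private theorem lam01_apply (A : E →L[ℝ] Y) (v : E) :
    lam01 A v = (2⁻¹ : ℂ) • (A v + Complex.I • A (Complex.I • v)) := by
  simp only [lam01, ContinuousLinearMap.smul_apply, ContinuousLinearMap.add_apply,
    ContinuousLinearMap.flip_apply, ContinuousLinearMap.compL_apply,
    ContinuousLinearMap.comp_apply, jI_apply, ContinuousLinearMap.id_apply]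

private theorem D01_has {σ : E → Y} {w : E} (hσ : ContDiffAt ℝ 2 σ w) :
    HasFDerivAt (D01 σ) (lam01.comp (fderiv ℝ (fderiv ℝ σ) w)) w := by
  have h1 : ContDiffAt ℝ 1 (fderiv ℝ σ) w := hσ.fderiv_right (by norm_num)
  have h2 : DifferentiableAt ℝ (fderiv ℝ σ) w := h1.differentiableAt (by norm_num)
  have h3 := (lam01 (E := E) (Y := Y)).hasFDerivAt.comp w h2.hasFDerivAt
  have e : D01 σ = (lam01 (E := E) (Y := Y)) ∘ fderiv ℝ σ := by
    funext y
    ext v
    rw [D01_apply, Function.comp_apply, lam01_apply]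
  rw [e]
  exact h3

theorem db_wd (K : Car Y V) {q : ℕ} {η : E → E [⋀^Fin q]→L[ℝ] V} {σ : E → Y} {w : E}
    (hσ : ContDiffAt ℝ 2 σ w) (h : DifferentiableAt ℝ η w) :
    db (fun w => wd K (D01 σ w) (η w)) w = -wd K (D01 σ w) (db η w) := by
  classical
  set L : E →L[ℝ] Y := D01 σ w with hL
  set DD : E →L[ℝ] E →L[ℝ] Y := fderiv ℝ (fderiv ℝ σ) w with hDD
  have hsym : ∀ x y, DD x y = DD y x := by
    intro x y
    have := (hσ.isSymmSndFDerivAt (by simp)) x y
    exact this
  -- the mixed second derivative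
  set Hc : E →L[ℝ] E →L[ℝ] Y := (2⁻¹ : ℂ) • ((lam01.comp DD) +
    Complex.I • (lam01.comp DD).comp (jI E)) with hHc
  have hHv : ∀ v u, Hc v u = (2⁻¹ : ℂ) • (2⁻¹ : ℂ) • ((DD v u + Complex.I • DD v (Complex.I • u)) +
      Complex.I • (DD (Complex.I • v) u + Complex.I • DD (Complex.I • v) (Complex.I • u))) := by
    intro v u
    simp only [hHc, ContinuousLinearMap.smul_apply, ContinuousLinearMap.add_apply,
      ContinuousLinearMap.comp_apply, lam01_apply, jI_apply, smul_add]
    rw [smul_comm Complex.I (2⁻¹ : ℂ) (DD (Complex.I • v) u),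
      smul_comm Complex.I (2⁻¹ : ℂ) (Complex.I • DD (Complex.I • v) (Complex.I • u))]
  have hHsym : ∀ v u, Hc v u = Hc u v := by
    intro v u
    rw [hHv, hHv, hsym v u, hsym (Complex.I • v) u, hsym v (Complex.I • u),
      hsym (Complex.I • v) (Complex.I • u)]
    congr 2
    simp only [smul_add]
    abel
  set f1 : E →L[ℝ] E →L[ℝ] E [⋀^Fin q]→L[ℝ] V :=
    ((ContinuousLinearMap.compL ℝ E (V →L[ℂ] V) (E [⋀^Fin q]→L[ℝ] V)).flip
      ((K.a.restrictScalars ℝ).comp L)).comp ((opc E V q).flip.comp (d1 η w)) with hf1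
  have hf1a : ∀ v u x, f1 v u x = K.a (L u) (d1 η w v x) := by
    intro v u x
    simp only [hf1, ContinuousLinearMap.comp_apply, ContinuousLinearMap.flip_apply,
      ContinuousLinearMap.compL_apply, opc_apply, ContinuousLinearMap.coe_restrictScalars']
  set f2 : E →L[ℝ] E →L[ℝ] E [⋀^Fin q]→L[ℝ] V :=
    (ContinuousLinearMap.compL ℝ E (V →L[ℂ] V) (E [⋀^Fin q]→L[ℝ] V)
      ((opc E V q).flip (η w))).comp ((ContinuousLinearMap.compL ℝ E Y (V →L[ℂ] V)
        (K.a.restrictScalars ℝ)).comp Hc) with hf2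
  have hf2a : ∀ v u x, f2 v u x = K.a (Hc v u) (η w x) := by
    intro v u x
    simp only [hf2, ContinuousLinearMap.comp_apply, ContinuousLinearMap.flip_apply,
      ContinuousLinearMap.compL_apply, opc_apply, ContinuousLinearMap.coe_restrictScalars']
  have key : db (fun w => wd K (D01 σ w) (η w)) w =
      ContinuousAlternatingMap.alternatizeUncurryFin
        ((ContinuousAlternatingMap.alternatizeUncurryFinCLM ℝ E V).comp (f1 + f2)) := by
    apply db_of_d1
    intro v
    have hc : HasFDerivAt (fun w => (opc E V q).flip (η w))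
        ((opc E V q).flip.comp (fderiv ℝ η w)) w :=
      clm_has (F := E [⋀^Fin q]→L[ℝ] V) (G := (V →L[ℂ] V) →L[ℝ] (E [⋀^Fin q]→L[ℝ] V))
        (opc E V q).flip h.hasFDerivAt
    have hd : HasFDerivAt (fun w => (K.a.restrictScalars ℝ).comp (D01 σ w))
        ((ContinuousLinearMap.compL ℝ E Y (V →L[ℂ] V) (K.a.restrictScalars ℝ)).comp
          (lam01.comp DD)) w :=
      clm_has (F := E →L[ℝ] Y) (G := E →L[ℝ] V →L[ℂ] V)
        (ContinuousLinearMap.compL ℝ E Y (V →L[ℂ] V) (K.a.restrictScalars ℝ)) (D01_has hσ)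
    have he := clm_has (F := E →L[ℝ] E [⋀^Fin q]→L[ℝ] V) (G := E [⋀^Fin (q + 1)]→L[ℝ] V)
      (ContinuousAlternatingMap.alternatizeUncurryFinCLM ℝ E V) (hc.clm_comp hd)
    have hfun : (fun w => wd K (D01 σ w) (η w)) =
        (fun y => (ContinuousAlternatingMap.alternatizeUncurryFinCLM ℝ E V)
          (((opc E V q).flip (η y)).comp ((K.a.restrictScalars ℝ).comp (D01 σ y)))) := by
      funext y
      rfl
    rw [hfun, d1_of_has he]
    simp only [ContinuousLinearMap.comp_apply, ContinuousAlternatingMap.alternatizeUncurryFinCLM_apply,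
      ContinuousLinearMap.add_apply]
    rw [← ContinuousAlternatingMap.alternatizeUncurryFin_smul,
      ← ContinuousAlternatingMap.alternatizeUncurryFin_add,
      ← ContinuousAlternatingMap.alternatizeUncurryFin_smul]
    congr 1
    ext u x
    simp only [ContinuousLinearMap.smul_apply, ContinuousLinearMap.add_apply,
      ContinuousAlternatingMap.smul_apply, ContinuousAlternatingMap.add_apply,
      ContinuousLinearMap.comp_apply, ContinuousLinearMap.flip_apply,
      ContinuousLinearMap.compL_apply, opc_apply, ContinuousLinearMap.coe_restrictScalars',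
      hf1a, hf2a, hHv, d1_apply, lam01_apply, map_add, map_smul, smul_add, ← hL]
    rw [smul_comm Complex.I (2⁻¹ : ℂ) (K.a (DD (Complex.I • v) u) (η w x)),
      smul_comm Complex.I (2⁻¹ : ℂ) (Complex.I • K.a (DD (Complex.I • v) (Complex.I • u)) (η w x))]
    abel
  have hz2 : ContinuousAlternatingMap.alternatizeUncurryFin
      ((ContinuousAlternatingMap.alternatizeUncurryFinCLM ℝ E V).comp f2) = 0 := by
    apply ContinuousAlternatingMap.alternatizeUncurryFin_alternatizeUncurryFinCLM_comp_of_symmetric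
    intro v u
    ext x
    rw [hf2a, hf2a, hHsym]
  have hz1 : ContinuousAlternatingMap.alternatizeUncurryFin
      ((ContinuousAlternatingMap.alternatizeUncurryFinCLM ℝ E V).comp (f1 + f1.flip)) = 0 := by
    apply ContinuousAlternatingMap.alternatizeUncurryFin_alternatizeUncurryFinCLM_comp_of_symmetric
    intro v u
    simp only [ContinuousLinearMap.add_apply, ContinuousLinearMap.flip_apply]
    exact add_comm _ _
  have hwd : wd K L (db η w) = ContinuousAlternatingMap.alternatizeUncurryFin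
      ((ContinuousAlternatingMap.alternatizeUncurryFinCLM ℝ E V).comp f1.flip) := by
    rw [wd]
    congr 1
    ext1 u
    have e1 : ((ContinuousAlternatingMap.alternatizeUncurryFinCLM ℝ E V).comp f1.flip) u =
        ContinuousAlternatingMap.alternatizeUncurryFin ((opc E V q (K.a (L u))).comp (d1 η w)) := by
      rw [ContinuousLinearMap.comp_apply,
        ContinuousAlternatingMap.alternatizeUncurryFinCLM_apply]
      congr 1
    rw [e1, alt_opc]
    rfl
  rw [key, ContinuousLinearMap.comp_add, ContinuousAlternatingMap.alternatizeUncurryFin_add, hz2,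
    add_zero, hwd]
  rw [ContinuousLinearMap.comp_add, ContinuousAlternatingMap.alternatizeUncurryFin_add] at hz1
  exact eq_neg_of_add_eq_zero_left hz1

/-- the scaling of a form -/
theorem db_scale {q : ℕ} {η : E → E [⋀^Fin q]→L[ℝ] V} {r : ℝ} {w : E}
    (h : DifferentiableAt ℝ η ((r : ℂ) • w)) :
    db (fun x => η ((r : ℂ) • x)) w = (r : ℂ) • db η ((r : ℂ) • w) := by
  rw [db_of_d1 (f := (r : ℂ) • d1 η ((r : ℂ) • w)),
    ContinuousAlternatingMap.alternatizeUncurryFin_smul]
  · rfl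
  · intro v
    have h1 : HasFDerivAt (fun x : E => (r : ℂ) • x)
        (((r : ℂ) • ContinuousLinearMap.id ℂ E).restrictScalars ℝ) w :=
      (((r : ℂ) • ContinuousLinearMap.id ℂ E).hasFDerivAt (x := w)).restrictScalars ℝ
    have h2 : HasFDerivAt (fun x : E => η ((r : ℂ) • x)) ((fderiv ℝ η ((r : ℂ) • w)).comp
        (((r : ℂ) • ContinuousLinearMap.id ℂ E).restrictScalars ℝ)) w :=
      h.hasFDerivAt.comp w h1
    have hr : ∀ u : E, fderiv ℝ η ((r : ℂ) • w) ((r : ℂ) • u) =
        (r : ℂ) • fderiv ℝ η ((r : ℂ) • w) u := by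
      intro u
      have e1 : (r : ℂ) • u = r • u := Complex.coe_smul r u
      rw [e1, map_smul]
      exact (Complex.coe_smul r _).symm
    rw [d1_of_has h2, ContinuousLinearMap.smul_apply, d1_eq]
    simp only [ContinuousLinearMap.comp_apply, ContinuousLinearMap.coe_restrictScalars',
      ContinuousLinearMap.smul_apply, ContinuousLinearMap.id_apply, hr]
    rw [smul_comm (r : ℂ) (2⁻¹ : ℂ), smul_add (r : ℂ), smul_comm (r : ℂ) Complex.I]

end Pool.Agent.MPca0fc2.QT
end

section

set_option autoImplicit false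

open Metric Set MeasureTheory Filter Topology
open scoped InnerProductSpace ENNReal

namespace Pool.Agent.MPca0fc2.QT

open Pool.Agent.MPca0fc2.PT

section aux

variable {X : Type*} [NormedAddCommGroup X] [NormedSpace ℝ X]
variable {E₁ E₂ V₁ : Type*} [NormedAddCommGroup E₁] [NormedSpace ℝ E₁] [NormedAddCommGroup E₂]
  [NormedSpace ℝ E₂] [NormedAddCommGroup V₁] [NormedSpace ℝ V₁]

/-- the alternatization, as a continuous linear map -/
noncomputable def pulAlt (E₁ V₁ : Type*) [NormedAddCommGroup E₁] [NormedSpace ℝ E₁]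
    [NormedAddCommGroup V₁] [NormedSpace ℝ V₁] (q : ℕ) :
    ContinuousMultilinearMap ℝ (fun _ : Fin q => E₁) V₁ →L[ℝ] E₁ [⋀^Fin q]→L[ℝ] V₁ :=
  LinearMap.mkContinuous
    { toFun := fun f => ContinuousMultilinearMap.alternatization f
      map_add' := fun f g => map_add _ f g
      map_smul' := fun c f => by
        ext v
        simp [ContinuousMultilinearMap.alternatization_apply_apply, Finset.smul_sum,
          smul_comm c] }
    (q.factorial : ℝ) (fun f => by
      refine ContinuousAlternatingMap.opNorm_le_bound _ (by positivity) fun v => ?_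
      simp only [LinearMap.coe_mk, AddHom.coe_mk,
        ContinuousMultilinearMap.alternatization_apply_apply]
      refine (norm_sum_le _ _).trans ?_
      have : ∀ σ ∈ (Finset.univ : Finset (Equiv.Perm (Fin q))),
          ‖Equiv.Perm.sign σ • f (v ∘ σ)‖ ≤ ‖f‖ * ∏ i, ‖v i‖ := by
        intro σ _
        have h1 : ‖Equiv.Perm.sign σ • f (v ∘ σ)‖ = ‖f (v ∘ σ)‖ := by
          rcases Int.units_eq_one_or (Equiv.Perm.sign σ) with h | h <;> simp [h]
        rw [h1]
        refine (f.le_opNorm _).trans_eq ?_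
        congr 1
        exact Equiv.prod_comp σ (fun i => ‖v i‖)
      refine (Finset.sum_le_sum this).trans_eq ?_
      rw [Finset.sum_const, Finset.card_univ, Fintype.card_perm, Fintype.card_fin, nsmul_eq_mul]
      ring)

theorem pulAlt_apply {q : ℕ} (f : E₁ [⋀^Fin q]→L[ℝ] V₁) :
    pulAlt E₁ V₁ q f.toContinuousMultilinearMap = (q.factorial : ℝ) • f := by
  ext v
  simp only [pulAlt, LinearMap.mkContinuous_apply, LinearMap.coe_mk, AddHom.coe_mk,
    ContinuousMultilinearMap.alternatization_apply_apply]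
  have : ∀ σ ∈ (Finset.univ : Finset (Equiv.Perm (Fin q))),
      Equiv.Perm.sign σ • f.toContinuousMultilinearMap (v ∘ σ) = f v := by
    intro σ _
    have := f.toAlternatingMap.map_perm v σ
    have h2 : f.toContinuousMultilinearMap (v ∘ σ) = Equiv.Perm.sign σ • f v := this
    rw [h2, smul_smul, Int.units_mul_self, one_smul]
  rw [Finset.sum_congr rfl this, Finset.sum_const, Finset.card_univ, Fintype.card_perm,
    Fintype.card_fin]
  simp [Nat.cast_smul_eq_nsmul]

/-- the pull back of forms is smooth -/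
theorem contDiffOn_pull {q : ℕ} {n : WithTop ℕ∞} {f : X → E₂ [⋀^Fin q]→L[ℝ] V₁}
    {g : X → E₁ →L[ℝ] E₂} {s : Set X} (hf : ContDiffOn ℝ n f s) (hg : ContDiffOn ℝ n g s) :
    ContDiffOn ℝ n (fun x => (f x).compContinuousLinearMap (g x)) s := by
  have h0 : (fun x => (f x).compContinuousLinearMap (g x)) =
      fun x => ((q.factorial : ℝ)⁻¹) • pulAlt E₁ V₁ q
        (ContinuousMultilinearMap.compContinuousLinearMapContinuousMultilinear ℝ
          (fun _ : Fin q => E₁) (fun _ : Fin q => E₂) V₁ (fun _ => g x)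
          (ContinuousAlternatingMap.toContinuousMultilinearMapCLM ℝ (f x))) := by
    funext x
    have h1 : (ContinuousMultilinearMap.compContinuousLinearMapContinuousMultilinear ℝ
          (fun _ : Fin q => E₁) (fun _ : Fin q => E₂) V₁ (fun _ => g x)
          (ContinuousAlternatingMap.toContinuousMultilinearMapCLM ℝ (f x))) =
        ((f x).compContinuousLinearMap (g x)).toContinuousMultilinearMap := rfl
    rw [h1, pulAlt_apply, smul_smul, inv_mul_cancel₀ (by positivity), one_smul]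
  rw [h0]
  refine ContDiffOn.const_smul _ ?_
  refine (pulAlt E₁ V₁ q).contDiff.comp_contDiffOn ?_
  refine ContDiffOn.clm_apply ?_ ?_
  · refine (ContinuousMultilinearMap.contDiff _).comp_contDiffOn ?_
    exact contDiffOn_pi.2 fun _ => hg
  · exact (ContinuousAlternatingMap.toContinuousMultilinearMapCLM ℝ).contDiff.comp_contDiffOn hf

end aux

variable {E : Type*} [NormedAddCommGroup E] [InnerProductSpace ℂ E]
variable {V : Type*} [NormedAddCommGroup V] [NormedSpace ℂ V]

theorem pul_hasFDerivAt {z x : E} (h : 1 + ⟪z, x⟫_ℂ ≠ 0) :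
    HasFDerivAt (𝕜 := ℂ) (gg z) (gg' z x) x := by
  have h1 : HasFDerivAt (𝕜 := ℂ) (fun y : E => 1 + ⟪z, y⟫_ℂ) (innerSL ℂ z) x :=
    ((innerSL ℂ z).hasFDerivAt).const_add 1
  have h2 : HasFDerivAt (𝕜 := ℂ) (fun y : E => z + AA z y) (AA z) x :=
    ((AA z).hasFDerivAt).const_add z
  have h3 := (((hasDerivAt_inv h).comp_hasFDerivAt x h1).smul h2)
  refine HasFDerivAt.congr_fderiv (f' := _) h3 ?_
  ext v
  simp only [gg', gg, ContinuousLinearMap.add_apply, ContinuousLinearMap.smul_apply,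
    ContinuousLinearMap.sub_apply, ContinuousLinearMap.smulRight_apply, innerSL_apply_apply,
    ContinuousLinearMap.neg_apply, smul_sub, smul_smul, smul_eq_mul, Function.comp]
  rw [sub_eq_add_neg, ← neg_smul]
  congr 2
  field_simp

theorem pul_fderiv {z x : E} (h : 1 + ⟪z, x⟫_ℂ ≠ 0) :
    fderiv ℝ (gg z) x = (gg' z x).restrictScalars ℝ :=
  ((pul_hasFDerivAt h).restrictScalars ℝ).fderiv

theorem pul_dom (z : E) : IsOpen {x : E | 1 + ⟪z, x⟫_ℂ ≠ 0} :=
  isOpen_ne_fun (by fun_prop) continuous_const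

theorem pul_gg_c2 {z x : E} (hz : ‖z‖ < 1) (h : 1 + ⟪z, x⟫_ℂ ≠ 0) :
    ContDiffAt ℝ 2 (gg z) x := by
  have h1 : ContDiffAt ℝ 2 (fun p : E × E => gg p.1 p.2) (z, x) :=
    gg_smooth.contDiffAt (isOpen_dom.mem_nhds ⟨hz, h⟩)
  exact h1.comp x (contDiffAt_const.prodMk contDiffAt_id)

theorem pul_gg'_c2 {z x : E} (hz : ‖z‖ < 1) (h : 1 + ⟪z, x⟫_ℂ ≠ 0) :
    ContDiffAt ℝ 2 (fun y => (gg' z y).restrictScalars ℝ) x := by
  have h1 : ContDiffAt ℝ 2 (fun p : E × E => (gg' p.1 p.2).restrictScalars ℝ) (z, x) :=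
    gg'_smooth.contDiffAt (isOpen_dom.mem_nhds ⟨hz, h⟩)
  exact h1.comp x (contDiffAt_const.prodMk contDiffAt_id)

/-- the neighbourhood on which the pull back is defined, in both variables -/
def PU2 (U : Set E) : Set (E × E) :=
  {p | ‖p.1‖ < 1 ∧ 1 + ⟪p.1, p.2⟫_ℂ ≠ 0 ∧ gg p.1 p.2 ∈ U}

theorem PU2_open {U : Set E} (hU : IsOpen U) : IsOpen (PU2 U) := by
  rw [isOpen_iff_mem_nhds]
  rintro x ⟨h0, h1, h2⟩
  have h3 := isOpen_dom.mem_nhds (show x ∈ {p : E × E | ‖p.1‖ < 1 ∧ 1 + ⟪p.1, p.2⟫_ℂ ≠ 0} from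
    ⟨h0, h1⟩)
  have h4 : (fun p : E × E => gg p.1 p.2) ⁻¹' U ∈ 𝓝 x :=
    (gg_smooth.contDiffAt h3).continuousAt.preimage_mem_nhds (hU.mem_nhds h2)
  filter_upwards [h3, h4] with y hy hy' using ⟨hy.1, hy.2, hy'⟩

/-- the pull back is smooth, jointly in both variables -/
theorem Pul_c1_joint (m : ℕ) {q : ℕ} {η : E → E [⋀^Fin q]→L[ℝ] V} {U : Set E}
    (hη : ContDiffOn ℝ 1 η U) :
    ContDiffOn ℝ 1 (fun p : E × E => Pul m η p.1 p.2) (PU2 U) := by
  have hsub : PU2 U ⊆ {p : E × E | ‖p.1‖ < 1 ∧ 1 + ⟪p.1, p.2⟫_ℂ ≠ 0} :=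
    fun p hp => ⟨hp.1, hp.2.1⟩
  have h1 : ContDiffOn ℝ 1 (fun p : E × E => gg p.1 p.2) (PU2 U) :=
    (gg_smooth.mono hsub).of_le (by norm_num)
  have h2 : ContDiffOn ℝ 1 (fun p : E × E => (gg' p.1 p.2).restrictScalars ℝ) (PU2 U) :=
    (gg'_smooth.mono hsub).of_le (by norm_num)
  have h3 : ContDiffOn ℝ 1 (fun p : E × E => η (gg p.1 p.2)) (PU2 U) :=
    hη.comp h1 fun p hp => hp.2.2
  have h4 : ContDiffOn ℝ 1 (fun p : E × E => (1 + ⟪p.1, p.2⟫_ℂ : ℂ)) (PU2 U) := by
    refine ContDiffOn.add contDiffOn_const ?_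
    exact (contDiffOn_fst.inner ℂ contDiffOn_snd)
  have h5 : ContDiffOn ℝ 1 (fun p : E × E => ((1 + ⟪p.1, p.2⟫_ℂ) ^ (m + 6))⁻¹) (PU2 U) :=
    (h4.pow _).inv fun p hp => pow_ne_zero _ hp.2.1
  exact h5.smul (contDiffOn_pull h3 h2)

/-- all arguments multiplied by `i` -/
theorem Anti.all {q : ℕ} {η : E [⋀^Fin q]→L[ℝ] V} (h : Anti η) (v : Fin q → E) :
    η (fun i => Complex.I • v i) = (-Complex.I) ^ q • η v := by
  have key : ∀ s : Finset (Fin q), η (fun i => if i ∈ s then Complex.I • v i else v i) =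
      (-Complex.I) ^ s.card • η v := by
    intro s
    induction s using Finset.induction_on with
    | empty => simp
    | insert a s ha ih =>
      have h1 : (fun i => if i ∈ insert a s then Complex.I • v i else v i) =
          Function.update (fun i => if i ∈ s then Complex.I • v i else v i) a
            (Complex.I • (fun i => if i ∈ s then Complex.I • v i else v i) a) := by
        funext i
        by_cases hi : i = a
        · subst hi
          simp [ha]
        · simp [Function.update_of_ne hi, Finset.mem_insert, hi]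
      rw [h1, h, ih, Finset.card_insert_of_notMem ha, pow_succ, smul_smul, ← neg_smul]
      congr 1
      ring
  have := key Finset.univ
  simpa using this

/-- the operator in terms of the exterior derivative -/
theorem db_eq_ext {q : ℕ} {η : E → E [⋀^Fin q]→L[ℝ] V} {w : E} (h : DifferentiableAt ℝ η w)
    (ha : ∀ᶠ y in 𝓝 w, Anti (η y)) :
    db η w = (2⁻¹ : ℂ) • (extDeriv η w +
      Complex.I ^ (q + 1) • (extDeriv η w).compContinuousLinearMap (jI E)) := by
  ext v
  have hA : ∀ u : E, ∀ v : Fin q → E, fderiv ℝ η w u (fun i => Complex.I • v i) =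
      (-Complex.I) ^ q • fderiv ℝ η w u v := fun u v => (Anti.fderiv h ha u).all v
  simp only [db, extDeriv, ContinuousAlternatingMap.alternatizeUncurryFin_apply,
    ContinuousAlternatingMap.smul_apply, ContinuousAlternatingMap.add_apply,
    ContinuousAlternatingMap.compContinuousLinearMap_apply, Function.comp_def, jI_apply]
  have h1 : ∀ i : Fin (q + 1), (i.removeNth fun x => Complex.I • v x) =
      fun j => Complex.I • (i.removeNth v) j := fun i => rfl
  simp only [h1, hA, d1_apply]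
  rw [Finset.smul_sum, ← Finset.sum_add_distrib, Finset.smul_sum]
  refine Finset.sum_congr rfl fun i _ => ?_
  have h2 : Complex.I ^ (q + 1) * (-Complex.I) ^ q = Complex.I := by
    rw [pow_succ, mul_right_comm, ← mul_pow]
    simp
  rw [smul_comm (Complex.I ^ (q + 1)) ((-1 : ℤ) ^ (i : ℕ)), smul_smul (Complex.I ^ (q + 1)), h2,
    ← smul_add, smul_comm]


variable [FiniteDimensional ℂ E] [MeasurableSpace E] [BorelSpace E]

theorem Pul_anti (m : ℕ) {q : ℕ} {η : E → E [⋀^Fin q]→L[ℝ] V} {z x : E} (h : Anti (η (gg z x))) :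
    Anti (Pul m η z x) :=
  (h.compHolo (gg' z x)).smul _

/-- the neighbourhood on which the pull back is defined -/
def PU (z : E) (U : Set E) : Set E := {x | 1 + ⟪z, x⟫_ℂ ≠ 0 ∧ gg z x ∈ U}

theorem PU_open {z : E} (hz : ‖z‖ < 1) {U : Set E} (hU : IsOpen U) : IsOpen (PU z U) := by
  rw [isOpen_iff_mem_nhds]
  rintro x ⟨h1, h2⟩
  have h3 := (pul_dom z).mem_nhds h1
  have h4 : gg z ⁻¹' U ∈ 𝓝 x :=
    (pul_hasFDerivAt h1).continuousAt.preimage_mem_nhds (hU.mem_nhds h2)
  filter_upwards [h3, h4] with y hy hy' using ⟨hy, hy'⟩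

theorem PU_sub {z : E} (hz : ‖z‖ < 1) {U : Set E} (hU : closedBall (0 : E) 1 ⊆ U) :
    closedBall (0 : E) 1 ⊆ PU z U := fun _ hx =>
  ⟨one_add_ne hz (mem_closedBall_zero_iff.1 hx),
    hU (mem_closedBall_zero_iff.2 (gg_le hz (mem_closedBall_zero_iff.1 hx)))⟩

theorem Pul_c1 (m : ℕ) {q : ℕ} {η : E → E [⋀^Fin q]→L[ℝ] V} {U : Set E} (hU : IsOpen U)
    (hη : ContDiffOn ℝ 1 η U) {z : E} (hz : ‖z‖ < 1) : ContDiffOn ℝ 1 (Pul m η z) (PU z U) := by
  have hi : ContDiffOn ℝ 1 (fun x : E => ((z, x) : E × E)) (PU z U) :=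
    (contDiff_const.prodMk contDiff_id).contDiffOn
  have hm : MapsTo (fun x : E => ((z, x) : E × E)) (PU z U) (PU2 U) :=
    fun x hx => ⟨hz, hx.1, hx.2⟩
  have h := (Pul_c1_joint m hη).comp hi hm
  have he : (fun p : E × E => Pul m η p.1 p.2) ∘ (fun x : E => ((z, x) : E × E)) = Pul m η z := rfl
  rw [he] at h
  exact h

/-- the operator commutes with the pull back -/
theorem Pul_db (m : ℕ) {q : ℕ} {ζ : E → E [⋀^Fin q]→L[ℝ] V} {z x : E} (hz : ‖z‖ < 1)
    (hx : 1 + ⟪z, x⟫_ℂ ≠ 0) (ha : ∀ᶠ y in 𝓝 (gg z x), Anti (ζ y))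
    (hζ : DifferentiableAt ℝ ζ (gg z x)) : db (Pul m ζ z) x = Pul m (db ζ) z x := by
  have hgd : DifferentiableAt ℝ (gg z) x := (pul_gg_c2 hz hx).differentiableAt (by norm_num)
  have hgd' : DifferentiableAt ℝ (fun y => (gg' z y).restrictScalars ℝ) x :=
    (pul_gg'_c2 hz hx).differentiableAt (by norm_num)
  have hω : DifferentiableAt ℝ
      (fun y => (ζ (gg z y)).compContinuousLinearMap ((gg' z y).restrictScalars ℝ)) x :=
    (hζ.comp x hgd).continuousAlternatingMapCompContinuousLinearMap hgd'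
  have hX : DifferentiableAt ℂ (fun y : E => ((1 + ⟪z, y⟫_ℂ) ^ (m + 6))⁻¹) x := by
    have h1 : DifferentiableAt ℂ (fun y : E => 1 + ⟪z, y⟫_ℂ) x :=
      (((innerSL ℂ z).hasFDerivAt).const_add 1).differentiableAt
    exact (h1.pow _).inv (pow_ne_zero _ hx)
  have hA : ∀ᶠ y in 𝓝 x, Anti
      ((ζ (gg z y)).compContinuousLinearMap ((gg' z y).restrictScalars ℝ)) := by
    filter_upwards [hgd.continuousAt.eventually ha] with y hy using hy.compHolo (gg' z y)
  have h1 : db (Pul m ζ z) x = ((1 + ⟪z, x⟫_ℂ) ^ (m + 6))⁻¹ •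
      db (fun y => (ζ (gg z y)).compContinuousLinearMap ((gg' z y).restrictScalars ℝ)) x :=
    db_smul hX hω
  have h2 : extDeriv (fun y => (ζ (gg z y)).compContinuousLinearMap
      ((gg' z y).restrictScalars ℝ)) x =
      (extDeriv ζ (gg z x)).compContinuousLinearMap ((gg' z x).restrictScalars ℝ) := by
    have h3 := extDeriv_pullback hζ (pul_gg_c2 hz hx) (by simp)
    rw [pul_fderiv hx] at h3
    rw [← h3]
    refine Filter.EventuallyEq.extDeriv_eq ?_
    filter_upwards [(pul_dom z).mem_nhds hx] with y hy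
    rw [pul_fderiv hy]
  rw [h1, db_eq_ext hω hA, h2, Pul, db_eq_ext hζ ha]
  congr 1
  ext v
  simp only [ContinuousAlternatingMap.smul_apply, ContinuousAlternatingMap.add_apply,
    ContinuousAlternatingMap.compContinuousLinearMap_apply, Function.comp_def, jI_apply,
    ContinuousLinearMap.coe_restrictScalars', map_smul]

/-- the pull back of a closed form is closed -/
theorem Pul_closed (m : ℕ) {q : ℕ} {η : E → E [⋀^Fin q]→L[ℝ] V} {U : Set E} (hU : IsOpen U)
    (hη : ContDiffOn ℝ 1 η U) (ha : ∀ w ∈ U, Anti (η w)) (hd : ∀ w ∈ U, db η w = 0) {z : E}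
    (hz : ‖z‖ < 1) {x : E} (hx : x ∈ PU z U) : db (Pul m η z) x = 0 := by
  have hn := hU.mem_nhds hx.2
  rw [Pul_db m hz hx.1 (by filter_upwards [hn] with y hy using ha y hy)
    ((hη.contDiffAt hn).differentiableAt (by norm_num)), Pul, hd _ hx.2]
  ext v
  simp

end Pool.Agent.MPca0fc2.QT
end
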