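import Mathlib
import Pool.Agent.Lib.MP_ca0fc2_an.Mg.G012
import Pool.Agent.Lib.MP_ca0fc2_an.DAPos
import Pool.Agent.Lib.MP_ca0fc2_an.Mg.G017

section

set_option autoImplicit false

open Metric Set MeasureTheory Filter Topology
open scoped InnerProductSpace ENNReal

namespace Pool.Agent.MPca0fc2.DA

open Pool.Agent.Lib.MP_ca0fc2_an
open Pool.Agent.MPca0fc2.PT

variable {E : Type*} [NormedAddCommGroup E] [InnerProductSpace ℂ E]
variable [FiniteDimensional ℂ E] [MeasurableSpace E] [BorelSpace E]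

set_option linter.unusedSectionVars false

theorem norm_WW_cont : Continuous (fun w : E => WW w) := by
  unfold WW; fun_prop

theorem norm_WW_nonneg (w : E) : 0 ≤ WW w := by
  unfold WW; positivity

theorem norm_WW_le {w : E} (hw : w ∈ ball (0 : E) 1) : WW w ≤ 1 := by
  rw [mem_ball_zero_iff] at hw
  unfold WW
  have h0 := norm_nonneg w
  apply pow_le_one₀
  · nlinarith
  · nlinarith

theorem norm_WWc (w : E) : ‖((WW w : ℝ) : ℂ)‖ = WW w := by
  rw [Complex.norm_real, Real.norm_of_nonneg (norm_WW_nonneg w)]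

theorem norm_integrable (μ : Measure E) [μ.IsAddHaarMeasure] {G : Type*} [NormedAddCommGroup G]
    {g : E → G} {C : ℝ}
    (hg : ContinuousOn g (ball 0 1)) (hC : ∀ z ∈ ball (0 : E) 1, ‖g z‖ ≤ C) :
    IntegrableOn g (ball (0 : E) 1) μ := by
  have hfin : IsFiniteMeasure (μ.restrict (ball (0 : E) 1)) :=
    ⟨by rw [Measure.restrict_apply_univ]; exact measure_ball_lt_top⟩
  exact Integrable.of_bound (hg.aestronglyMeasurable measurableSet_ball) C
    ((ae_restrict_iff' measurableSet_ball).2 (Eventually.of_forall hC))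

theorem norm_hasSum (μ : Measure E) [μ.IsAddHaarMeasure] {F : ℕ → E → ℂ} {G : E → ℂ} {c : ℕ → ℝ}
    (hF : ∀ l, ContinuousOn (F l) (ball 0 1)) (hc : Summable c)
    (hb : ∀ l, ∀ z ∈ ball (0 : E) 1, ‖F l z‖ ≤ c l)
    (hs : ∀ z ∈ ball (0 : E) 1, HasSum (fun l => F l z) (G z)) :
    HasSum (fun l => ∫ z in ball (0 : E) 1, F l z ∂μ) (∫ z in ball (0 : E) 1, G z ∂μ) := by
  have hfin : IsFiniteMeasure (μ.restrict (ball (0 : E) 1)) :=
    ⟨by rw [Measure.restrict_apply_univ]; exact measure_ball_lt_top⟩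
  refine hasSum_integral_of_dominated_convergence (fun l _ => c l)
    (fun l => (hF l).aestronglyMeasurable measurableSet_ball) (fun l => ?_) ?_ ?_ ?_
  · exact (ae_restrict_iff' measurableSet_ball).2 (Eventually.of_forall (hb l))
  · exact Eventually.of_forall fun _ => hc
  · exact integrable_const _
  · exact (ae_restrict_iff' measurableSet_ball).2 (Eventually.of_forall hs)

theorem norm_hs_congr {f g : ℕ → ℂ} {a : ℂ} (h : HasSum f a) (hfg : ∀ l, f l = g l) :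
    HasSum g a := by
  have : f = g := funext hfg
  rwa [← this]

theorem norm_smul_mem {r : ℝ} (hr0 : 0 < r) (hr1 : r < 1) {z : E} (hz : ‖z‖ ≤ 1) :
    (r : ℂ) • z ∈ ball (0 : E) 1 := by
  rw [mem_ball_zero_iff, norm_smul, Complex.norm_real, Real.norm_of_nonneg hr0.le]
  nlinarith [norm_nonneg z]

/-- the squares of the norms -/
noncomputable def norm_N (μ : Measure E) (u : E → ℂ) (k : ℕ) : ℝ :=
  ∫ z in ball (0 : E) 1, WW z * ‖hp u k z‖ ^ 2 ∂μ

theorem norm_N_nonneg (μ : Measure E) (u : E → ℂ) (k : ℕ) : 0 ≤ norm_N μ u k :=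
  integral_nonneg fun z => mul_nonneg (norm_WW_nonneg z) (by positivity)

theorem norm_N_eq (μ : Measure E) (u : E → ℂ) (k : ℕ) :
    ∫ z in ball (0 : E) 1, ((WW z : ℝ) : ℂ) * ((starRingEnd ℂ) (hp u k z) * hp u k z) ∂μ =
      ((norm_N μ u k : ℝ) : ℂ) := by
  unfold norm_N
  rw [← integral_complex_ofReal]
  refine integral_congr_ae (Eventually.of_forall fun z => ?_)
  simp only
  rw [mul_comm ((starRingEnd ℂ) (hp u k z)), Complex.mul_conj, Complex.normSq_eq_norm_sq]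
  push_cast
  ring

section

variable {u : E → ℂ} {M : ℝ}

theorem norm_orth_u (μ : Measure E) [μ.IsAddHaarMeasure] (hM : 0 ≤ M)
    (hu : DifferentiableOn ℂ u (ball 0 1))
    (hb : ∀ z ∈ ball (0 : E) 1, ‖u z‖ ≤ M) {r : ℝ} (hr0 : 0 < r) (hr1 : r < 1) (k : ℕ) :
    ∫ z in ball (0 : E) 1, ((WW z : ℝ) : ℂ) * ((starRingEnd ℂ) (hp u k z) * u ((r : ℂ) • z)) ∂μ =
      (r : ℂ) ^ k * ((norm_N μ u k : ℝ) : ℂ) := by
  have h1 : HasSum (fun l => ∫ z in ball (0 : E) 1,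
      ((r : ℂ) ^ l * (((WW z : ℝ) : ℂ) * ((starRingEnd ℂ) (hp u k z) * hp u l z))) ∂μ)
      (∫ z in ball (0 : E) 1,
        ((WW z : ℝ) : ℂ) * ((starRingEnd ℂ) (hp u k z) * u ((r : ℂ) • z)) ∂μ) := by
    refine norm_hasSum μ (c := fun l => M ^ 2 * r ^ l) (fun l => ?_) ?_ ?_ ?_
    · have a1 := (hp_diff hu k).continuousOn
      have a2 := (hp_diff hu l).continuousOn
      have a3 : Continuous (fun w : E => ((WW w : ℝ) : ℂ)) :=
        Complex.continuous_ofReal.comp norm_WW_cont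
      exact continuousOn_const.mul (a3.continuousOn.mul
        ((Complex.continuous_conj.comp_continuousOn a1).mul a2))
    · exact (summable_geometric_of_lt_one hr0.le hr1).mul_left _
    · intro l z hz
      have b1 := hp_bound hb k hz
      have b2 := hp_bound hb l hz
      have b3 := norm_WW_le hz
      rw [norm_mul, norm_mul, norm_mul, norm_pow, norm_WWc, Complex.norm_real,
        Real.norm_of_nonneg hr0.le, RCLike.norm_conj]
      have b4 : ‖hp u k z‖ * ‖hp u l z‖ ≤ M * M := mul_le_mul b1 b2 (norm_nonneg _) hM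
      have b5 : WW z * (‖hp u k z‖ * ‖hp u l z‖) ≤ 1 * (M * M) :=
        mul_le_mul b3 b4 (by positivity) zero_le_one
      calc r ^ l * (WW z * (‖hp u k z‖ * ‖hp u l z‖)) ≤ r ^ l * (1 * (M * M)) :=
            mul_le_mul_of_nonneg_left b5 (by positivity)
        _ = M ^ 2 * r ^ l := by ring
    · intro z hz
      have hs := hp_sum hu hz (ζ := (r : ℂ)) (by
        rw [Complex.norm_real, Real.norm_of_nonneg hr0.le]; exact hr1.le)
      have hs2 := hs.mul_left (((WW z : ℝ) : ℂ) * (starRingEnd ℂ) (hp u k z))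
      rw [mul_assoc] at hs2
      refine norm_hs_congr hs2 fun l => ?_
      ring
  have h2 : HasSum (fun l => ∫ z in ball (0 : E) 1,
      ((r : ℂ) ^ l * (((WW z : ℝ) : ℂ) * ((starRingEnd ℂ) (hp u k z) * hp u l z))) ∂μ)
      (∫ z in ball (0 : E) 1,
      ((r : ℂ) ^ k * (((WW z : ℝ) : ℂ) * ((starRingEnd ℂ) (hp u k z) * hp u k z))) ∂μ) := by
    refine hasSum_single k fun l hl => ?_
    rw [integral_const_mul, hp_orth μ hu hb (Ne.symm hl), mul_zero]
  rw [h1.unique h2, integral_const_mul, norm_N_eq]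

theorem norm_inner (μ : Measure E) [μ.IsAddHaarMeasure] (hM : 0 ≤ M)
    (hu : DifferentiableOn ℂ u (ball 0 1))
    (hb : ∀ z ∈ ball (0 : E) 1, ‖u z‖ ≤ M) {r : ℝ} (hr0 : 0 < r) (hr1 : r < 1) (k : ℕ)
    {z : E} (hz : z ∈ ball (0 : E) 1) :
    ∫ w in ball (0 : E) 1, ((WW w : ℝ) : ℂ) * hp u k w / (1 - (r : ℂ) ^ 2 * ⟪w, z⟫_ℂ) ∂μ =
      (r : ℂ) ^ (2 * k) * ∫ w in ball (0 : E) 1,
        ((WW w : ℝ) : ℂ) * hp u k w * ⟪w, z⟫_ℂ ^ k ∂μ := by
  have hin : ∀ w ∈ ball (0 : E) 1, ‖⟪w, z⟫_ℂ‖ ≤ 1 := by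
    intro w hw
    rw [mem_ball_zero_iff] at hw hz
    refine (norm_inner_le_norm w z).trans ?_
    nlinarith [norm_nonneg w, norm_nonneg z]
  have h1 : HasSum (fun l => ∫ w in ball (0 : E) 1,
      ((r : ℂ) ^ (2 * l) * (((WW w : ℝ) : ℂ) * hp u k w * ⟪w, z⟫_ℂ ^ l)) ∂μ)
      (∫ w in ball (0 : E) 1,
        ((WW w : ℝ) : ℂ) * hp u k w / (1 - (r : ℂ) ^ 2 * ⟪w, z⟫_ℂ) ∂μ) := by
    refine norm_hasSum μ (c := fun l => M * (r ^ 2) ^ l) (fun l => ?_) ?_ ?_ ?_
    · have a1 := (hp_diff hu k).continuousOn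
      have a3 : Continuous (fun w : E => ((WW w : ℝ) : ℂ)) :=
        Complex.continuous_ofReal.comp norm_WW_cont
      have a4 : Continuous (fun w : E => ⟪w, z⟫_ℂ ^ l) := by fun_prop
      exact continuousOn_const.mul ((a3.continuousOn.mul a1).mul a4.continuousOn)
    · exact (summable_geometric_of_lt_one (by positivity) (by nlinarith)).mul_left _
    · intro l w hw
      have b1 := hp_bound hb k hw
      have b3 := norm_WW_le hw
      have b4 : ‖⟪w, z⟫_ℂ‖ ^ l ≤ 1 := pow_le_one₀ (norm_nonneg _) (hin w hw)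
      rw [norm_mul, norm_mul, norm_mul, norm_pow, norm_pow, norm_WWc, Complex.norm_real,
        Real.norm_of_nonneg hr0.le]
      have b5 : WW w * ‖hp u k w‖ ≤ 1 * M := mul_le_mul b3 b1 (norm_nonneg _) zero_le_one
      have b6 : WW w * ‖hp u k w‖ * ‖⟪w, z⟫_ℂ‖ ^ l ≤ 1 * M * 1 :=
        mul_le_mul b5 b4 (by positivity) (by linarith)
      calc r ^ (2 * l) * (WW w * ‖hp u k w‖ * ‖⟪w, z⟫_ℂ‖ ^ l) ≤ r ^ (2 * l) * (1 * M * 1) :=
            mul_le_mul_of_nonneg_left b6 (by positivity)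
        _ = M * (r ^ 2) ^ l := by rw [pow_mul]; ring
    · intro w hw
      have hlt : ‖(r : ℂ) ^ 2 * ⟪w, z⟫_ℂ‖ < 1 := by
        rw [norm_mul, norm_pow, Complex.norm_real, Real.norm_of_nonneg hr0.le]
        have := hin w hw
        nlinarith [norm_nonneg ⟪w, z⟫_ℂ]
      have hs := (hasSum_geometric_of_norm_lt_one hlt).mul_left (((WW w : ℝ) : ℂ) * hp u k w)
      rw [← div_eq_mul_inv] at hs
      refine norm_hs_congr hs fun l => ?_
      rw [mul_pow, ← pow_mul]; ring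
  have h2 : HasSum (fun l => ∫ w in ball (0 : E) 1,
      ((r : ℂ) ^ (2 * l) * (((WW w : ℝ) : ℂ) * hp u k w * ⟪w, z⟫_ℂ ^ l)) ∂μ)
      (∫ w in ball (0 : E) 1,
      ((r : ℂ) ^ (2 * k) * (((WW w : ℝ) : ℂ) * hp u k w * ⟪w, z⟫_ℂ ^ k)) ∂μ) := by
    refine hasSum_single k fun l hl => ?_
    rw [integral_const_mul, hp_inner_ne μ hu hb (Ne.symm hl), mul_zero]
  rw [h1.unique h2, integral_const_mul]

/-- the test function -/
noncomputable def norm_phi (m : ℕ) (u : E → ℂ) (K : ℕ) (r : ℝ) (z : E) : ℂ :=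
  ∑ k ∈ Finset.range K, (bc m k : ℂ) * (starRingEnd ℂ) (hp u k ((r : ℂ) • z))

theorem norm_phi_cont (m K : ℕ) (hu : DifferentiableOn ℂ u (ball 0 1)) {r : ℝ} (hr0 : 0 < r)
    (hr1 : r < 1) : ContinuousOn (norm_phi m u K r) (closedBall 0 1) := by
  unfold norm_phi
  refine continuousOn_finsetSum _ fun k _ => continuousOn_const.mul ?_
  refine Complex.continuous_conj.comp_continuousOn ?_
  have h1 := (hp_diff hu k).continuousOn
  refine h1.comp (by fun_prop) ?_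
  intro z hz
  rw [mem_closedBall_zero_iff] at hz
  exact norm_smul_mem hr0 hr1 hz

theorem norm_phi_eq (m K : ℕ) (hu : DifferentiableOn ℂ u (ball 0 1)) {r : ℝ} (hr0 : 0 < r)
    (hr1 : r < 1) {z : E} (hz : z ∈ ball (0 : E) 1) : norm_phi m u K r z =
      ∑ k ∈ Finset.range K, (bc m k : ℂ) * ((r : ℂ) ^ k * (starRingEnd ℂ) (hp u k z)) := by
  unfold norm_phi
  refine Finset.sum_congr rfl fun k _ => ?_
  rw [hp_smul hu k hz (by rw [Complex.norm_real, Real.norm_of_nonneg hr0.le]; exact hr1.le),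
    map_mul, map_pow, Complex.conj_ofReal]

theorem norm_conj_phi_eq (m K : ℕ) (hu : DifferentiableOn ℂ u (ball 0 1)) {r : ℝ} (hr0 : 0 < r)
    (hr1 : r < 1) {z : E} (hz : z ∈ ball (0 : E) 1) : (starRingEnd ℂ) (norm_phi m u K r z) =
      ∑ k ∈ Finset.range K, (bc m k : ℂ) * ((r : ℂ) ^ k * (hp u k z)) := by
  rw [norm_phi_eq m K hu hr0 hr1 hz, map_sum]
  refine Finset.sum_congr rfl fun k _ => ?_
  rw [map_mul, map_mul, map_pow, Complex.conj_ofReal, Complex.conj_conj, map_natCast]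

theorem norm_int_conj (μ : Measure E) [μ.IsAddHaarMeasure]
    (hu : DifferentiableOn ℂ u (ball 0 1))
    (hb : ∀ z ∈ ball (0 : E) 1, ‖u z‖ ≤ M) (hM : 0 ≤ M) {g : E → ℂ} {C : ℝ}
    (hg : ContinuousOn g (ball 0 1)) (hC : ∀ z ∈ ball (0 : E) 1, ‖g z‖ ≤ C) (k : ℕ) :
    IntegrableOn (fun z => ((WW z : ℝ) : ℂ) * ((starRingEnd ℂ) (hp u k z) * g z))
      (ball (0 : E) 1) μ := by
  refine norm_integrable μ (C := 1 * (M * C)) ?_ ?_
  · have a1 := (hp_diff hu k).continuousOn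
    have a3 : Continuous (fun w : E => ((WW w : ℝ) : ℂ)) :=
      Complex.continuous_ofReal.comp norm_WW_cont
    exact (a3.continuousOn.mul
      ((Complex.continuous_conj.comp_continuousOn a1).mul hg))
  · intro z hz
    have b1 := hp_bound hb k hz
    have b2 := hC z hz
    have b3 := norm_WW_le hz
    rw [norm_mul, norm_mul, norm_WWc, RCLike.norm_conj]
    have b4 : ‖hp u k z‖ * ‖g z‖ ≤ M * C := mul_le_mul b1 b2 (norm_nonneg _) hM
    exact mul_le_mul b3 b4 (by positivity) zero_le_one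

theorem norm_lhs (μ : Measure E) [μ.IsAddHaarMeasure] (hM : 0 ≤ M) (m K : ℕ)
    (hu : DifferentiableOn ℂ u (ball 0 1))
    (hb : ∀ z ∈ ball (0 : E) 1, ‖u z‖ ≤ M) {r : ℝ} (hr0 : 0 < r) (hr1 : r < 1) :
    ∫ z in ball (0 : E) 1, ((WW z : ℝ) : ℂ) * (norm_phi m u K r z * u ((r : ℂ) • z)) ∂μ =
      ((∑ k ∈ Finset.range K, (bc m k : ℝ) * (r ^ (2 * k) * norm_N μ u k) : ℝ) : ℂ) := by
  have hgc : ContinuousOn (fun z : E => u ((r : ℂ) • z)) (ball 0 1) := by
    refine hu.continuousOn.comp (by fun_prop) ?_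
    intro z hz
    rw [mem_ball_zero_iff] at hz
    exact norm_smul_mem hr0 hr1 hz.le
  have hgb : ∀ z ∈ ball (0 : E) 1, ‖u ((r : ℂ) • z)‖ ≤ M := by
    intro z hz
    rw [mem_ball_zero_iff] at hz
    exact hb _ (norm_smul_mem hr0 hr1 hz.le)
  have h1 : ∫ z in ball (0 : E) 1, ((WW z : ℝ) : ℂ) * (norm_phi m u K r z * u ((r : ℂ) • z)) ∂μ =
      ∫ z in ball (0 : E) 1, ∑ k ∈ Finset.range K, ((bc m k : ℂ) * (r : ℂ) ^ k) *
        (((WW z : ℝ) : ℂ) * ((starRingEnd ℂ) (hp u k z) * u ((r : ℂ) • z))) ∂μ := by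
    refine setIntegral_congr_fun measurableSet_ball fun z hz => ?_
    rw [norm_phi_eq m K hu hr0 hr1 hz, Finset.sum_mul, Finset.mul_sum]
    refine Finset.sum_congr rfl fun k _ => ?_
    ring
  rw [h1, integral_finsetSum]
  · push_cast
    refine Finset.sum_congr rfl fun k _ => ?_
    rw [integral_const_mul, norm_orth_u μ hM hu hb hr0 hr1]
    ring
  · intro k _
    exact (norm_int_conj μ hu hb hM hgc hgb k).const_mul _

theorem norm_rhs (μ : Measure E) [μ.IsAddHaarMeasure] (hM : 0 ≤ M) {m : ℕ}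
    (hdim : Module.finrank ℂ E = m + 1) (K : ℕ)
    (hu : DifferentiableOn ℂ u (ball 0 1))
    (hb : ∀ z ∈ ball (0 : E) 1, ‖u z‖ ≤ M) {r : ℝ} (hr0 : 0 < r) (hr1 : r < 1) :
    ∫ z in ball (0 : E) 1, ((WW z : ℝ) : ℂ) * norm_phi m u K r z *
        ∫ w in ball (0 : E) 1, ((WW w : ℝ) : ℂ) * (starRingEnd ℂ) (norm_phi m u K r w) /
          (1 - (r : ℂ) ^ 2 * ⟪w, z⟫_ℂ) ∂μ ∂μ =
      ((cW μ * ∑ k ∈ Finset.range K, (bc m k : ℝ) * (r ^ (4 * k) * norm_N μ u k) : ℝ) : ℂ) := by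
  -- the inner integral
  have hinner : ∀ z ∈ ball (0 : E) 1,
      ∫ w in ball (0 : E) 1, ((WW w : ℝ) : ℂ) * (starRingEnd ℂ) (norm_phi m u K r w) /
          (1 - (r : ℂ) ^ 2 * ⟪w, z⟫_ℂ) ∂μ =
        ∑ k ∈ Finset.range K, ((cW μ : ℝ) : ℂ) * ((r : ℂ) ^ (3 * k) * hp u k z) := by
    intro z hz
    have hin : ∀ w ∈ ball (0 : E) 1, ‖⟪w, z⟫_ℂ‖ ≤ 1 := by
      intro w hw
      rw [mem_ball_zero_iff] at hw hz
      refine (norm_inner_le_norm w z).trans ?_
      nlinarith [norm_nonneg w, norm_nonneg z]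
    have hden : ∀ w ∈ ball (0 : E) 1, 1 - r ^ 2 ≤ ‖1 - (r : ℂ) ^ 2 * ⟪w, z⟫_ℂ‖ := by
      intro w hw
      have h1 := norm_sub_norm_le (1 : ℂ) ((r : ℂ) ^ 2 * ⟪w, z⟫_ℂ)
      rw [norm_one, norm_mul, norm_pow, Complex.norm_real, Real.norm_of_nonneg hr0.le] at h1
      have h2 := hin w hw
      have h3 : r ^ 2 * ‖⟪w, z⟫_ℂ‖ ≤ r ^ 2 * 1 := mul_le_mul_of_nonneg_left h2 (by positivity)
      linarith
    have hr2 : 0 < 1 - r ^ 2 := by nlinarith
    have h1 : ∫ w in ball (0 : E) 1, ((WW w : ℝ) : ℂ) * (starRingEnd ℂ) (norm_phi m u K r w) /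
          (1 - (r : ℂ) ^ 2 * ⟪w, z⟫_ℂ) ∂μ =
        ∫ w in ball (0 : E) 1, ∑ k ∈ Finset.range K, ((bc m k : ℂ) * (r : ℂ) ^ k) *
          (((WW w : ℝ) : ℂ) * hp u k w / (1 - (r : ℂ) ^ 2 * ⟪w, z⟫_ℂ)) ∂μ := by
      refine setIntegral_congr_fun measurableSet_ball fun w hw => ?_
      rw [norm_conj_phi_eq m K hu hr0 hr1 hw, Finset.mul_sum, Finset.sum_div]
      refine Finset.sum_congr rfl fun k _ => ?_
      ring
    rw [h1, integral_finsetSum]
    · refine Finset.sum_congr rfl fun k _ => ?_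
      rw [integral_const_mul, norm_inner μ hM hu hb hr0 hr1 k hz]
      have hz' := hz
      rw [mem_ball_zero_iff] at hz'
      have h2 := hp_inner_eq μ hdim hu hb k hz'
      calc (bc m k : ℂ) * (r : ℂ) ^ k * ((r : ℂ) ^ (2 * k) * ∫ w in ball (0 : E) 1,
              ((WW w : ℝ) : ℂ) * hp u k w * ⟪w, z⟫_ℂ ^ k ∂μ)
          = (r : ℂ) ^ (3 * k) * ((bc m k : ℂ) * ∫ w in ball (0 : E) 1,
              ((WW w : ℝ) : ℂ) * hp u k w * ⟪w, z⟫_ℂ ^ k ∂μ) := by ring
        _ = _ := by rw [h2]; ring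
    · intro k _
      have hi : IntegrableOn (fun w : E => ((WW w : ℝ) : ℂ) *
          hp u k w / (1 - (r : ℂ) ^ 2 * ⟪w, z⟫_ℂ)) (ball 0 1) μ := by
        refine norm_integrable μ (C := 1 * M / (1 - r ^ 2)) ?_ ?_
        · have a1 := (hp_diff hu k).continuousOn
          have a3 : Continuous (fun w : E => ((WW w : ℝ) : ℂ)) :=
            Complex.continuous_ofReal.comp norm_WW_cont
          have a4 : Continuous (fun w : E => 1 - (r : ℂ) ^ 2 * ⟪w, z⟫_ℂ) := by fun_prop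
          refine (a3.continuousOn.mul a1).div a4.continuousOn ?_
          intro w hw h0
          have := hden w hw
          rw [h0, norm_zero] at this
          linarith
        · intro w hw
          rw [norm_div, norm_mul, norm_WWc]
          exact div_le_div₀ (by positivity) (mul_le_mul (norm_WW_le hw) (hp_bound hb k hw)
            (norm_nonneg _) zero_le_one) hr2 (hden w hw)
      exact hi.const_mul _
  have h1 : ∫ z in ball (0 : E) 1, ((WW z : ℝ) : ℂ) * norm_phi m u K r z *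
        ∫ w in ball (0 : E) 1, ((WW w : ℝ) : ℂ) * (starRingEnd ℂ) (norm_phi m u K r w) /
          (1 - (r : ℂ) ^ 2 * ⟪w, z⟫_ℂ) ∂μ ∂μ =
      ∫ z in ball (0 : E) 1, ∑ k ∈ Finset.range K, ∑ l ∈ Finset.range K,
        ((bc m k : ℂ) * (r : ℂ) ^ k * (((cW μ : ℝ) : ℂ) * (r : ℂ) ^ (3 * l))) *
        (((WW z : ℝ) : ℂ) * ((starRingEnd ℂ) (hp u k z) * hp u l z)) ∂μ := by
    refine setIntegral_congr_fun measurableSet_ball fun z hz => ?_
    rw [hinner z hz, norm_phi_eq m K hu hr0 hr1 hz, mul_assoc, Finset.sum_mul, Finset.mul_sum]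
    refine Finset.sum_congr rfl fun k _ => ?_
    rw [Finset.mul_sum, Finset.mul_sum]
    refine Finset.sum_congr rfl fun l _ => ?_
    ring
  rw [h1, integral_finsetSum]
  · push_cast
    rw [Finset.mul_sum]
    refine Finset.sum_congr rfl fun k hk => ?_
    rw [integral_finsetSum, Finset.sum_eq_single_of_mem k hk]
    · rw [integral_const_mul, norm_N_eq]; ring
    · intro l _ hl
      rw [integral_const_mul, hp_orth μ hu hb (Ne.symm hl), mul_zero]
    · intro l _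
      exact (norm_int_conj μ hu hb hM (hp_diff hu l).continuousOn
        (fun z hz => hp_bound hb l hz) k).const_mul _
  · intro k _
    refine integrable_finsetSum _ fun l _ => ?_
    exact (norm_int_conj μ hu hb hM (hp_diff hu l).continuousOn
        (fun z hz => hp_bound hb l hz) k).const_mul _

end

theorem norm_real (μ : Measure E) [μ.IsAddHaarMeasure] {m : ℕ}
    (hdim : Module.finrank ℂ E = m + 1) {M : ℝ} (hM : 0 ≤ M) {u : E → ℂ}
    (hu : DAMultiplier M u) (K : ℕ) {r : ℝ} (hr0 : 0 < r) (hr1 : r < 1) :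
    ∑ k ∈ Finset.range K, (bc m k : ℝ) * (r ^ (2 * k) * norm_N μ u k) ≤ M ^ 2 * cW μ := by
  have hb : ∀ z ∈ ball (0 : E) 1, ‖u z‖ ≤ M := fun z hz => DAMultiplier_bound hM hu hz
  have h1 := DA_ineq μ hr0 hr1 hu (norm_phi_cont m K hu.1 hr0 hr1)
  rw [norm_lhs μ hM m K hu.1 hb hr0 hr1, norm_rhs μ hM hdim K hu.1 hb hr0 hr1,
    Complex.ofReal_re, Complex.norm_real, Real.norm_eq_abs, sq_abs] at h1
  have hc := k4_cW_pos μ
  have h2 : ∑ k ∈ Finset.range K, (bc m k : ℝ) * (r ^ (4 * k) * norm_N μ u k) ≤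
      ∑ k ∈ Finset.range K, (bc m k : ℝ) * (r ^ (2 * k) * norm_N μ u k) := by
    refine Finset.sum_le_sum fun k _ => ?_
    refine mul_le_mul_of_nonneg_left ?_ (by positivity)
    refine mul_le_mul_of_nonneg_right ?_ (norm_N_nonneg μ u k)
    exact pow_le_pow_of_le_one hr0.le hr1.le (by omega)
  have h3 : 0 ≤ ∑ k ∈ Finset.range K, (bc m k : ℝ) * (r ^ (2 * k) * norm_N μ u k) :=
    Finset.sum_nonneg fun k _ => mul_nonneg (by positivity)
      (mul_nonneg (by positivity) (norm_N_nonneg μ u k))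
  set S := ∑ k ∈ Finset.range K, (bc m k : ℝ) * (r ^ (2 * k) * norm_N μ u k) with hS
  rcases h3.eq_or_lt with h4 | h4
  · rw [← h4]; positivity
  · have h5 : S * S ≤ (M ^ 2 * cW μ) * S := by
      calc S * S = S ^ 2 := by ring
        _ ≤ M ^ 2 * (cW μ * ∑ k ∈ Finset.range K, (bc m k : ℝ) * (r ^ (4 * k) * norm_N μ u k)) := h1
        _ ≤ M ^ 2 * (cW μ * S) :=
            mul_le_mul_of_nonneg_left (mul_le_mul_of_nonneg_left h2 hc.le) (by positivity)
        _ = (M ^ 2 * cW μ) * S := by ring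
    exact le_of_mul_le_mul_right h5 h4

theorem norm_real_one (μ : Measure E) [μ.IsAddHaarMeasure] {m : ℕ}
    (hdim : Module.finrank ℂ E = m + 1) {M : ℝ} (hM : 0 ≤ M) {u : E → ℂ}
    (hu : DAMultiplier M u) (K : ℕ) :
    ∑ k ∈ Finset.range K, (bc m k : ℝ) * norm_N μ u k ≤ M ^ 2 * cW μ := by
  have hcont : Continuous (fun r : ℝ =>
      ∑ k ∈ Finset.range K, (bc m k : ℝ) * (r ^ (2 * k) * norm_N μ u k)) := by fun_prop
  have ht : Tendsto (fun r : ℝ =>
      ∑ k ∈ Finset.range K, (bc m k : ℝ) * (r ^ (2 * k) * norm_N μ u k)) (𝓝[<] 1)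
      (𝓝 (∑ k ∈ Finset.range K, (bc m k : ℝ) * ((1 : ℝ) ^ (2 * k) * norm_N μ u k))) :=
    (hcont.tendsto 1).mono_left nhdsWithin_le_nhds
  have h := le_of_tendsto ht (b := M ^ 2 * cW μ) (by
    have : Ioo (0 : ℝ) 1 ∈ 𝓝[<] (1 : ℝ) := Ioo_mem_nhdsLT zero_lt_one
    filter_upwards [this] with r hr
    exact norm_real μ hdim hM hu K hr.1 hr.2)
  simpa using h

/-- The norm in the Drury-Arveson space of a multiplier. -/
theorem DA_norm (μ : Measure E) [μ.IsAddHaarMeasure] {m : ℕ}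
    (hdim : Module.finrank ℂ E = m + 1) {M : ℝ} (hM : 0 ≤ M) {u : E → ℂ}
    (hu : DAMultiplier M u) (K : ℕ) :
    ∑ k ∈ Finset.range K, (bc m k : ℝ≥0∞) * nrm2 μ (hp u k) ≤ ENNReal.ofReal (M ^ 2 * cW μ) := by
  have hb : ∀ z ∈ ball (0 : E) 1, ‖u z‖ ≤ M := fun z hz => DAMultiplier_bound hM hu hz
  have h1 : ∀ k, nrm2 μ (hp u k) = ENNReal.ofReal (norm_N μ u k) := by
    intro k
    unfold nrm2 norm_N
    rw [ofReal_integral_eq_lintegral_ofReal]
    · refine norm_integrable μ (C := 1 * M ^ 2) ?_ ?_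
      · exact norm_WW_cont.continuousOn.mul ((hp_diff hu.1 k).continuousOn.norm.pow 2)
      · intro z hz
        rw [norm_mul, norm_pow, norm_norm, Real.norm_of_nonneg (norm_WW_nonneg z)]
        exact mul_le_mul (norm_WW_le hz)
          (pow_le_pow_left₀ (norm_nonneg _) (hp_bound hb k hz) 2) (by positivity) zero_le_one
    · exact Eventually.of_forall fun z => mul_nonneg (norm_WW_nonneg z) (by positivity)
  have h2 : ∑ k ∈ Finset.range K, (bc m k : ℝ≥0∞) * nrm2 μ (hp u k) =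
      ENNReal.ofReal (∑ k ∈ Finset.range K, (bc m k : ℝ) * norm_N μ u k) := by
    rw [ENNReal.ofReal_sum_of_nonneg fun k _ =>
      mul_nonneg (by positivity) (norm_N_nonneg μ u k)]
    refine Finset.sum_congr rfl fun k _ => ?_
    rw [h1, ENNReal.ofReal_mul (by positivity), ENNReal.ofReal_natCast]
  rw [h2]
  exact ENNReal.ofReal_le_ofReal (norm_real_one μ hdim hM hu K)

end Pool.Agent.MPca0fc2.DA
end

section

set_option autoImplicit false

open Metric Set MeasureTheory Filter Topology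
open scoped InnerProductSpace ENNReal

namespace Pool.Agent.MPca0fc2.QT

open Pool.Agent.MPca0fc2.PT

/-- integrals with a parameter over compact sets -/
theorem reg_param {X P F : Type*} [NormedAddCommGroup X] [NormedSpace ℝ X]
    [FiniteDimensional ℝ X] [NormedAddCommGroup P] [NormedSpace ℝ P] [SecondCountableTopology P]
    [MeasurableSpace P] [BorelSpace P] [NormedAddCommGroup F] [NormedSpace ℝ F]
    {f : X × P → F} {Ω : Set (X × P)} (hΩ : IsOpen Ω) (hf : ContDiffOn ℝ 1 f Ω)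
    {S : Set X} (hS : IsOpen S) {K K₀ : Set P} (hK : IsCompact K) (hK₀ : MeasurableSet K₀)
    (hKK : K₀ ⊆ K) (hSK : ∀ z ∈ S, ∀ p ∈ K, (z, p) ∈ Ω) (ρ : Measure P) (hρ : ρ K < ∞) :
    (∀ z ∈ S, HasFDerivAt (fun z => ∫ p in K₀, f (z, p) ∂ρ)
      (∫ p in K₀, (fderiv ℝ f (z, p)).comp (ContinuousLinearMap.inl ℝ X P) ∂ρ) z) ∧
    ContDiffOn ℝ 1 (fun z => ∫ p in K₀, f (z, p) ∂ρ) S := by
  set D : X → P → X →L[ℝ] F :=
    fun z p => (fderiv ℝ f (z, p)).comp (ContinuousLinearMap.inl ℝ X P) with hD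
  have hDc : ContinuousOn (fun x : X × P => D x.1 x.2) Ω :=
    (hf.continuousOn_fderiv_of_isOpen hΩ le_rfl).clm_comp continuousOn_const
  have hfin : IsFiniteMeasure (ρ.restrict K₀) :=
    ⟨by
      rw [Measure.restrict_apply_univ]
      exact (measure_mono hKK).trans_lt hρ⟩
  have hmp : ∀ z ∈ S, MapsTo (fun p : P => ((z, p) : X × P)) K₀ Ω := fun z hz p hp =>
    hSK z hz p (hKK hp)
  have hcp : ∀ z : X, Continuous (fun p : P => ((z, p) : X × P)) := fun z => by fun_prop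
  have hm : ∀ z ∈ S, AEStronglyMeasurable (fun p => f (z, p)) (ρ.restrict K₀) := by
    intro z hz
    exact (hf.continuousOn.comp (hcp z).continuousOn (hmp z hz)).aestronglyMeasurable hK₀
  have hmD : ∀ z ∈ S, AEStronglyMeasurable (fun p => D z p) (ρ.restrict K₀) := by
    intro z hz
    exact (hDc.comp (hcp z).continuousOn (hmp z hz)).aestronglyMeasurable hK₀
  have hb : ∀ z₀ ∈ S, ∃ ε > 0, closedBall z₀ ε ⊆ S ∧
      ∃ C : ℝ, ∀ z ∈ closedBall z₀ ε, ∀ p ∈ K, ‖f (z, p)‖ ≤ C ∧ ‖D z p‖ ≤ C := by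
    intro z₀ hz₀
    obtain ⟨ε, hε, hεS⟩ := Metric.nhds_basis_closedBall.mem_iff.1 (hS.mem_nhds hz₀)
    refine ⟨ε, hε, hεS, ?_⟩
    have hc : IsCompact (closedBall z₀ ε ×ˢ K) := (isCompact_closedBall z₀ ε).prod hK
    have hsub : closedBall z₀ ε ×ˢ K ⊆ Ω := fun x hx => hSK x.1 (hεS hx.1) x.2 hx.2
    obtain ⟨C1, h1⟩ := hc.exists_bound_of_continuousOn (hf.continuousOn.mono hsub)
    obtain ⟨C2, h2⟩ := hc.exists_bound_of_continuousOn (hDc.mono hsub)
    exact ⟨max C1 C2, fun z hz p hp => ⟨(h1 (z, p) ⟨hz, hp⟩).trans (le_max_left _ _),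
      (h2 (z, p) ⟨hz, hp⟩).trans (le_max_right _ _)⟩⟩
  have hder : ∀ z₀ ∈ S, HasFDerivAt (fun z => ∫ p in K₀, f (z, p) ∂ρ)
      (∫ p in K₀, D z₀ p ∂ρ) z₀ := by
    intro z₀ hz₀
    obtain ⟨ε, hε, hεS, C, hC⟩ := hb z₀ hz₀
    refine hasFDerivAt_integral_of_dominated_of_fderiv_le (bound := fun _ => C)
      (F := fun z p => f (z, p)) (F' := D) (closedBall_mem_nhds z₀ hε) ?_ ?_ (hmD z₀ hz₀) ?_
      (integrable_const C) ?_
    · filter_upwards [hS.mem_nhds hz₀] with z hz using hm z hz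
    · refine (integrable_const C).mono' (hm z₀ hz₀) ?_
      refine (ae_restrict_iff' hK₀).2 (Filter.Eventually.of_forall fun p hp => ?_)
      exact (hC z₀ (mem_closedBall_self hε.le) p (hKK hp)).1
    · refine (ae_restrict_iff' hK₀).2 (Filter.Eventually.of_forall fun p hp => ?_)
      exact fun z hz => (hC z hz p (hKK hp)).2
    · refine (ae_restrict_iff' hK₀).2 (Filter.Eventually.of_forall fun p hp => ?_)
      intro z hz
      have h1 : HasFDerivAt f (fderiv ℝ f (z, p)) (z, p) :=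
        ((hf.contDiffAt (hΩ.mem_nhds (hSK z (hεS hz) p (hKK hp)))).differentiableAt
          one_ne_zero).hasFDerivAt
      exact h1.comp z (hasFDerivAt_prodMk_left z p)
  have hcont : ContinuousOn (fun z => ∫ p in K₀, D z p ∂ρ) S := by
    intro z₀ hz₀
    obtain ⟨ε, hε, hεS, C, hC⟩ := hb z₀ hz₀
    refine ContinuousAt.continuousWithinAt ?_
    refine continuousAt_of_dominated (bound := fun _ => C) ?_ ?_ (integrable_const C) ?_
    · filter_upwards [hS.mem_nhds hz₀] with z hz using hmD z hz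
    · filter_upwards [closedBall_mem_nhds z₀ hε] with z hz
      refine (ae_restrict_iff' hK₀).2 (Filter.Eventually.of_forall fun p hp => ?_)
      exact (hC z hz p (hKK hp)).2
    · refine (ae_restrict_iff' hK₀).2 (Filter.Eventually.of_forall fun p hp => ?_)
      have h1 : ContinuousAt (fun x : X × P => D x.1 x.2) (z₀, p) :=
        hDc.continuousAt (hΩ.mem_nhds (hSK z₀ hz₀ p (hKK hp)))
      have h2 : ContinuousAt (fun z : X => ((z, p) : X × P)) z₀ := by fun_prop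
      exact ContinuousAt.comp (g := fun x : X × P => D x.1 x.2) (f := fun z : X => ((z, p) : X × P))
        (x := z₀) h1 h2
  refine ⟨hder, ?_⟩
  rw [show (1 : WithTop ℕ∞) = 0 + 1 from rfl, contDiffOn_succ_iff_fderiv_of_isOpen hS]
  refine ⟨fun z hz => (hder z hz).differentiableAt.differentiableWithinAt, by simp, ?_⟩
  rw [contDiffOn_zero]
  exact hcont.congr fun z hz => (hder z hz).fderiv

variable {E : Type*} [NormedAddCommGroup E] [InnerProductSpace ℂ E]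
variable {V : Type*} [NormedAddCommGroup V] [NormedSpace ℂ V]
variable [FiniteDimensional ℂ E] [MeasurableSpace E] [BorelSpace E]

/-- the integrand of the operator -/
noncomputable def regF (m : ℕ) {q : ℕ} (η : E → E [⋀^Fin (q + 1)]→L[ℝ] V)
    (x : E × (ℝ × E)) : E [⋀^Fin q]→L[ℝ] V :=
  ((1 - x.2.1 ^ 2) ^ q * WW x.2.2) • (Pul m η x.1 ((x.2.1 : ℂ) • x.2.2)).curryLeft x.2.2

/-- the domain of the integrand -/
def regΩ (U : Set E) : Set (E × (ℝ × E)) := {x | (x.1, (x.2.1 : ℂ) • x.2.2) ∈ PU2 U}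

theorem regΩ_open {U : Set E} (hU : IsOpen U) : IsOpen (regΩ U) := by
  have hc : Continuous (fun x : E × (ℝ × E) => (x.1, (x.2.1 : ℂ) • x.2.2)) :=
    continuous_fst.prodMk ((Complex.continuous_ofReal.comp
      (continuous_fst.comp continuous_snd)).smul (continuous_snd.comp continuous_snd))
  exact (PU2_open hU).preimage hc

/-- the isometry of currying -/
noncomputable def regL (E V : Type*) [NormedAddCommGroup E] [InnerProductSpace ℂ E]
    [NormedAddCommGroup V] [NormedSpace ℂ V] (q : ℕ) :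
    (E [⋀^Fin (q + 1)]→L[ℝ] V) →L[ℝ] (E →L[ℝ] E [⋀^Fin q]→L[ℝ] V) :=
  (ContinuousAlternatingMap.curryLeftLI (𝕜 := ℝ) (E := E) (F := V) (n := q)).toContinuousLinearMap

theorem regL_apply {q : ℕ} (η : E [⋀^Fin (q + 1)]→L[ℝ] V) (x : E) :
    regL E V q η x = η.curryLeft x := rfl

theorem regF_c1 (m : ℕ) {q : ℕ} {η : E → E [⋀^Fin (q + 1)]→L[ℝ] V} {U : Set E}
    (hη : ContDiffOn ℝ 1 η U) : ContDiffOn ℝ 1 (regF m η) (regΩ U) := by
  have hr : ContDiff ℝ 1 (fun x : E × (ℝ × E) => x.2.1) := contDiff_fst.comp contDiff_snd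
  have hξ : ContDiff ℝ 1 (fun x : E × (ℝ × E) => x.2.2) := contDiff_snd.comp contDiff_snd
  have hrc : ContDiff ℝ 1 (fun x : E × (ℝ × E) => ((x.2.1 : ℝ) : ℂ)) :=
    Complex.ofRealCLM.contDiff.comp hr
  have h1 : ContDiff ℝ 1 (fun x : E × (ℝ × E) => (x.1, (x.2.1 : ℂ) • x.2.2)) :=
    contDiff_fst.prodMk (hrc.smul hξ)
  have h2 : ContDiffOn ℝ 1 (fun x : E × (ℝ × E) => Pul m η x.1 ((x.2.1 : ℂ) • x.2.2))
      (regΩ U) := by
    have hm : MapsTo (fun x : E × (ℝ × E) => (x.1, (x.2.1 : ℂ) • x.2.2)) (regΩ U) (PU2 U) :=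
      fun x hx => hx
    have h := (Pul_c1_joint m hη).comp h1.contDiffOn hm
    have he : (fun p : E × E => Pul m η p.1 p.2) ∘
      (fun x : E × (ℝ × E) => (x.1, (x.2.1 : ℂ) • x.2.2)) =
        fun x : E × (ℝ × E) => Pul m η x.1 ((x.2.1 : ℂ) • x.2.2) := rfl
    rw [he] at h
    exact h
  have h3 : ContDiff ℝ 1 (fun x : E × (ℝ × E) => (1 - x.2.1 ^ 2) ^ q * WW x.2.2) := by
    refine ContDiff.mul ((contDiff_const.sub (hr.pow 2)).pow q) ?_
    exact (contDiff_const.sub (hξ.norm_sq ℂ)).pow 4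
  have h4 : ContDiffOn ℝ 1 (fun x : E × (ℝ × E) =>
      regL E V q (Pul m η x.1 ((x.2.1 : ℂ) • x.2.2))) (regΩ U) :=
    (ContinuousLinearMap.contDiff _).comp_contDiffOn h2
  have h5 := h4.clm_apply hξ.contDiffOn
  have h6 := h3.contDiffOn.fun_smul h5
  exact h6

theorem T0_Pul_c1 (μ : Measure E) [μ.IsAddHaarMeasure] (m : ℕ) {q : ℕ}
    {η : E → E [⋀^Fin (q + 1)]→L[ℝ] V} {U : Set E} (hU : IsOpen U)
    (hB : closedBall (0 : E) 1 ⊆ U) (hη : ContDiffOn ℝ 1 η U) :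
    (∀ z ∈ ball (0 : E) 1, HasFDerivAt
      (fun z => ∫ p in Icc (0 : ℝ) 1 ×ˢ ball (0 : E) 1, regF m η (z, p) ∂(volume.prod μ))
      (∫ p in Icc (0 : ℝ) 1 ×ˢ ball (0 : E) 1, (fderiv ℝ (regF m η) (z, p)).comp
        (ContinuousLinearMap.inl ℝ E (ℝ × E)) ∂(volume.prod μ)) z) ∧
    ContDiffOn ℝ 1
      (fun z => ∫ p in Icc (0 : ℝ) 1 ×ˢ ball (0 : E) 1, regF m η (z, p) ∂(volume.prod μ))
      (ball 0 1) := by
  have : ProperSpace E := FiniteDimensional.proper ℂ E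
  have hK : IsCompact (Icc (0 : ℝ) 1 ×ˢ closedBall (0 : E) 1) :=
    isCompact_Icc.prod (isCompact_closedBall 0 1)
  have hSK : ∀ z ∈ ball (0 : E) 1, ∀ p ∈ Icc (0 : ℝ) 1 ×ˢ closedBall (0 : E) 1,
      (z, p) ∈ regΩ U := by
    rintro z hz ⟨r, ξ⟩ ⟨hr, hξ⟩
    have hz' : ‖z‖ < 1 := mem_ball_zero_iff.1 hz
    have h1 : ‖(r : ℂ) • ξ‖ ≤ 1 := by
      have h2 : ‖ξ‖ ≤ 1 := mem_closedBall_zero_iff.1 hξ
      have h3 : 0 ≤ r ∧ r ≤ 1 := hr
      rw [norm_smul, Complex.norm_real, Real.norm_of_nonneg h3.1]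
      nlinarith [norm_nonneg ξ]
    exact ⟨hz', one_add_ne hz' h1, hB (mem_closedBall_zero_iff.2 (gg_le hz' h1))⟩
  have hKK : Icc (0 : ℝ) 1 ×ˢ ball (0 : E) 1 ⊆ Icc (0 : ℝ) 1 ×ˢ closedBall (0 : E) 1 :=
    prod_mono_right ball_subset_closedBall
  have h := reg_param (f := regF m η) (Ω := regΩ U) (regΩ_open hU) (regF_c1 m hη)
    (S := ball (0 : E) 1) isOpen_ball hK
    (measurableSet_Icc.prod measurableSet_ball) hKK hSK
    (volume.prod μ) hK.measure_lt_top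
  exact h

theorem TT_c1 (μ : Measure E) [μ.IsAddHaarMeasure] (m : ℕ) [FiniteDimensional ℂ V] {q : ℕ}
    {η : E → E [⋀^Fin (q + 1)]→L[ℝ] V} {U : Set E} (hU : IsOpen U)
    (hB : closedBall (0 : E) 1 ⊆ U) (hη : ContDiffOn ℝ 1 η U) :
    ContDiffOn ℝ 1 (TT μ m η) (ball 0 1) := by
  have h1 := (T0_Pul_c1 μ m hU hB hη).2
  have h2 : ContDiffOn ℝ 1 (fun z => T0 μ (Pul m η z)) (ball (0 : E) 1) := by
    have h := h1.const_smul (-(2 / cW μ) : ℝ)
    exact h
  have h3 : ContDiffOn ℝ 1 (fun z : E => (gg' (-z) z).restrictScalars ℝ) (ball (0 : E) 1) := by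
    have h4 : ContDiff ℝ 1 (fun z : E => ((-z, z) : E × E)) := contDiff_neg.prodMk contDiff_id
    have h5 : ContDiffOn ℝ 1 (fun p : E × E => (gg' p.1 p.2).restrictScalars ℝ)
      {p : E × E | ‖p.1‖ < 1 ∧ 1 + ⟪p.1, p.2⟫_ℂ ≠ 0} := gg'_smooth.of_le (by norm_num)
    have hm : MapsTo (fun z : E => ((-z, z) : E × E)) (ball (0 : E) 1)
        {p : E × E | ‖p.1‖ < 1 ∧ 1 + ⟪p.1, p.2⟫_ℂ ≠ 0} := by
      intro z hz
      have hz' : ‖z‖ < 1 := mem_ball_zero_iff.1 hz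
      have hz'' : ‖-z‖ < 1 := by rwa [norm_neg]
      exact ⟨hz'', one_add_ne hz'' hz'.le⟩
    have h := h5.comp h4.contDiffOn hm
    have he : (fun p : E × E => (gg' p.1 p.2).restrictScalars ℝ) ∘
      (fun z : E => ((-z, z) : E × E)) = fun z : E => (gg' (-z) z).restrictScalars ℝ := rfl
    rw [he] at h
    exact h
  have h6 := contDiffOn_pull h2 h3
  exact h6

end Pool.Agent.MPca0fc2.QT
end
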