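import Mathlib
import Pool.Agent.Lib.MP_ca0fc2_an.Mg.G055
import Pool.Agent.Lib.MP_ca0fc2_an.Mg.G018

section

set_option autoImplicit false
set_option linter.unusedSectionVars false

open Metric Set MeasureTheory Filter Topology
open scoped InnerProductSpace ENNReal

namespace Pool.Agent.MPca0fc2.QT

open Pool.Agent.MPca0fc2.PT

variable {E : Type*} [NormedAddCommGroup E] [InnerProductSpace ℂ E]
variable [FiniteDimensional ℂ E] [MeasurableSpace E] [BorelSpace E]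
variable {W : Type*} [NormedAddCommGroup W] [NormedSpace ℂ W] [CompleteSpace W]

/-- the complex linear part of the derivative -/
noncomputable def D10 (G : E → W) (w v : E) : W :=
  (2⁻¹ : ℂ) • (fderiv ℝ G w v - Complex.I • fderiv ℝ G w (Complex.I • v))

omit [CompleteSpace W] in
lemma intOn (μ : Measure E) [μ.IsAddHaarMeasure] {f : E → W}
    (hf : ContinuousOn f (closedBall (0 : E) 1)) : IntegrableOn f (ball (0 : E) 1) μ := by
  have : ProperSpace E := FiniteDimensional.proper ℂ E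
  exact (hf.integrableOn_compact (isCompact_closedBall 0 1)).mono_set ball_subset_closedBall

/-- `D10` is additive and complex homogeneous in the direction -/
lemma D10_add (G : E → W) (w v v' : E) : D10 G w (v + v') = D10 G w v + D10 G w v' := by
  unfold D10
  rw [smul_add, map_add, map_add, ← smul_add]
  congr 1
  rw [smul_add]
  abel

lemma D10_smul (G : E → W) (w v : E) (c : ℂ) : D10 G w (c • v) = c • D10 G w v := by
  have hr : ∀ (r : ℝ) (u : E), fderiv ℝ G w ((r : ℂ) • u) = (r : ℂ) • fderiv ℝ G w u := by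
    intro r u
    rw [Complex.coe_smul, map_smul, Complex.coe_smul]
  have h1 : c • v = (c.re : ℂ) • v + (c.im : ℂ) • Complex.I • v := by
    rw [smul_smul, ← add_smul, Complex.re_add_im]
  have h2 : Complex.I • c • v = (c.re : ℂ) • Complex.I • v + (-(c.im : ℝ) : ℂ) • v := by
    rw [smul_smul, smul_smul, ← add_smul]
    congr 1
    apply Complex.ext <;> simp
  have h2' : fderiv ℝ G w (Complex.I • c • v) = (c.re : ℂ) • fderiv ℝ G w (Complex.I • v) -
      (c.im : ℂ) • fderiv ℝ G w v := by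
    rw [h2, map_add, hr, neg_smul, map_neg, hr, sub_eq_add_neg]
  unfold D10
  rw [h2', h1, map_add, hr, hr]
  rw [smul_comm c (2⁻¹ : ℂ)]
  congr 1
  generalize fderiv ℝ G w v = A
  generalize fderiv ℝ G w (Complex.I • v) = B
  have e1 : c * Complex.I = (c.re : ℂ) * Complex.I - (c.im : ℂ) := by
    apply Complex.ext <;> simp
  have e2 : c • (A - Complex.I • B) = ((c.re : ℂ) + (c.im : ℂ) * Complex.I) • A -
      ((c.re : ℂ) * Complex.I - (c.im : ℂ)) • B := by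
    rw [smul_sub, smul_smul, e1, Complex.re_add_im]
  rw [e2]
  module

end Pool.Agent.MPca0fc2.QT
end

section

set_option autoImplicit false

open Metric Set MeasureTheory Filter Topology
open scoped InnerProductSpace ENNReal

namespace Pool.Agent.MPca0fc2.QT

open Pool.Agent.MPca0fc2.PT

variable {E : Type*} [NormedAddCommGroup E] [InnerProductSpace ℂ E]
variable {V : Type*} [NormedAddCommGroup V] [NormedSpace ℂ V]
variable {Y : Type*} [NormedAddCommGroup Y] [NormedSpace ℂ Y]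

theorem QTKc_D01 {σ : E → Y} {w : E} (hσ : ContDiffAt ℝ 2 σ w) :
    ContDiffAt ℝ 1 (D01 σ) w := by
  have h : ContDiffAt ℝ 1 (fderiv ℝ σ) w := hσ.fderiv_right (by norm_num)
  have h2 : ContDiffAt ℝ 1 (fun w => (fderiv ℝ σ w).comp (jI E)) w :=
    h.clm_comp contDiffAt_const
  have h3 : ContDiffAt ℝ 1 (fun w => (Complex.I : ℂ) • (fderiv ℝ σ w).comp (jI E)) w :=
    h2.const_smul (Complex.I : ℂ)
  exact (h.add h3).const_smul (2⁻¹ : ℂ)

theorem QTKc_wd (K : Car Y V) {q : ℕ} {L : E → E →L[ℝ] Y} {P : E → E [⋀^Fin q]→L[ℝ] V} {w : E}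
    (hL : ContDiffAt ℝ 1 L w) (hP : ContDiffAt ℝ 1 P w) :
    ContDiffAt ℝ 1 (fun w => wd K (L w) (P w)) w := by
  have h0 : ContDiff ℝ 1 (fun P : E [⋀^Fin q]→L[ℝ] V => (opc E V q).flip P) := by fun_prop
  have h1 : ContDiffAt ℝ 1 (fun w => (opc E V q).flip (P w)) w := h0.contDiffAt.comp w hP
  have h2 : ContDiffAt ℝ 1 (fun w => ((K.a.restrictScalars ℝ).comp (L w))) w :=
    contDiffAt_const.clm_comp hL
  have h3 : ContDiffAt ℝ 1 (fun w => ((opc E V q).flip (P w)).comp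
      ((K.a.restrictScalars ℝ).comp (L w))) w := h1.clm_comp h2
  exact (ContinuousLinearMap.contDiff
    (ContinuousAlternatingMap.alternatizeUncurryFinCLM (n := q) ℝ E V)).contDiffAt.comp w h3

theorem Pw_c1 (K : Car Y V) {σ : E → Y} {w : E} (hσ : ContDiffAt ℝ 2 σ w) (r : ℕ) :
    ContDiffAt ℝ 1 (fun w => Pw K (D01 σ w) r) w := by
  induction r with
  | zero => exact contDiffAt_const
  | succ r ih => exact QTKc_wd K (QTKc_D01 hσ) ih

theorem SP_c1 (K : Car Y V) {σ σ' : E → Y} {w : E} (hσ : ContDiffAt ℝ 2 σ w)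
    (hσ' : ContDiffAt ℝ 2 σ' w) (r : ℕ) :
    ContDiffAt ℝ 1 (fun w => SP K (D01 σ w) (D01 σ' w) r) w := by
  induction r with
  | zero => exact contDiffAt_const
  | succ r ih => exact (QTKc_wd K (QTKc_D01 hσ) ih).add (Pw_c1 K hσ' (r + 1))

theorem QTKc_opc (K : Car Y V) {σ : E → Y} {w : E} (hσ : ContDiffAt ℝ 1 σ w) {q : ℕ}
    {P : E → E [⋀^Fin q]→L[ℝ] V} (hP : ContDiffAt ℝ 1 P w) :
    ContDiffAt ℝ 1 (fun w => opc E V q (K.a (σ w)) (P w)) w := by
  have h1 : ContDiffAt ℝ 1 (fun w => (K.a.restrictScalars ℝ) (σ w)) w :=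
    (ContinuousLinearMap.contDiff (K.a.restrictScalars ℝ)).contDiffAt.comp w hσ
  have h0 : ContDiff ℝ 1 (fun A : V →L[ℂ] V => opc E V q A) := by fun_prop
  have h2 : ContDiffAt ℝ 1 (fun w => opc E V q ((K.a.restrictScalars ℝ) (σ w))) w :=
    h0.contDiffAt.comp w h1
  exact h2.clm_apply hP

theorem UU_c1 (K : Car Y V) {σ : E → Y} {w : E} (hσ : ContDiffAt ℝ 2 σ w) (r : ℕ) :
    ContDiffAt ℝ 1 (UU K σ r) w :=
  QTKc_opc K (hσ.of_le (by norm_num)) (Pw_c1 K hσ r)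

theorem JJ_c1 (K : Car Y V) {σ σ' : E → Y} {w : E} (hσ : ContDiffAt ℝ 2 σ w)
    (hσ' : ContDiffAt ℝ 2 σ' w) (r : ℕ) : ContDiffAt ℝ 1 (JJ K σ σ' r) w :=
  QTKc_opc K (hσ.of_le (by norm_num))
    (QTKc_opc K (hσ'.of_le (by norm_num)) (SP_c1 K hσ hσ' r))

end Pool.Agent.MPca0fc2.QT
end

section

set_option autoImplicit false

open Metric Set MeasureTheory Filter Topology
open scoped InnerProductSpace ENNReal

namespace Pool.Agent.MPca0fc2.QT

open Pool.Agent.MPca0fc2.PT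

theorem tauh3_deriv (s : ℝ) : HasDerivAt (fun x : ℝ => (max 0 x) ^ 3) (3 * (max 0 s) ^ 2) s := by
  rcases lt_trichotomy s 0 with h | h | h
  · rw [max_eq_left h.le, zero_pow (by norm_num), mul_zero]
    refine (hasDerivAt_const s (0 : ℝ)).congr_of_eventuallyEq ?_
    filter_upwards [Iio_mem_nhds h] with x hx
    rw [max_eq_left (le_of_lt hx)]; norm_num
  · subst h
    rw [max_self, zero_pow (by norm_num), mul_zero, hasDerivAt_iff_tendsto_slope_zero]
    apply squeeze_zero_norm (a := fun t : ℝ => |t| ^ 2)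
    · intro t
      rw [zero_add, max_self, norm_smul, norm_inv, Real.norm_eq_abs, Real.norm_eq_abs]
      have h1 : |(max 0 t) ^ 3 - 0 ^ 3| ≤ |t| * |t| ^ 2 := by
        rw [zero_pow (by norm_num), sub_zero, abs_pow, pow_succ']
        have h2 : |max 0 t| ≤ |t| := by
          rw [abs_of_nonneg (le_max_left _ _)]
          exact max_le (abs_nonneg _) (le_abs_self _)
        gcongr
      rcases eq_or_ne t 0 with rfl | ht
      · simp
      · have h3 : 0 < |t| := abs_pos.mpr ht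
        calc |t|⁻¹ * |(max 0 t) ^ 3 - 0 ^ 3| ≤ |t|⁻¹ * (|t| * |t| ^ 2) := by gcongr
          _ = |t| ^ 2 := by field_simp
    · have : Tendsto (fun t : ℝ => |t| ^ 2) (𝓝 0) (𝓝 (|(0 : ℝ)| ^ 2)) :=
        (continuous_abs.pow 2).tendsto 0
      rw [abs_zero, zero_pow (by norm_num)] at this
      exact this.mono_left nhdsWithin_le_nhds
  · rw [max_eq_right h.le]
    refine HasDerivAt.congr_of_eventuallyEq (f := fun x : ℝ => x ^ 3) ?_ ?_
    · simpa using hasDerivAt_pow 3 s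
    · filter_upwards [Ioi_mem_nhds h] with x hx
      rw [max_eq_right (le_of_lt hx)]

theorem tauh3_contDiff : ContDiff ℝ 2 (fun x : ℝ => (max 0 x) ^ 3) := by
  rw [show (2 : WithTop ℕ∞) = 1 + 1 from rfl, contDiff_succ_iff_deriv]
  refine ⟨fun s => (tauh3_deriv s).differentiableAt, by simp, ?_⟩
  have : deriv (fun x : ℝ => (max 0 x) ^ 3) = fun s => 3 * (max 0 s) ^ 2 :=
    funext fun s => (tauh3_deriv s).deriv
  rw [this]
  exact contDiff_const.mul tauh_contDiff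

theorem tau3_zero {ρ : ℝ} {y : ℂ} (hy : ‖y‖ ≤ ρ) : tau3 ρ y = 0 := by
  unfold tau3
  rcases eq_or_ne y 0 with rfl | h
  · rw [mul_zero]
  · have h0 : 0 < ‖y‖ := norm_pos_iff.mpr h
    have h1 : 1 - ρ / ‖y‖ ≤ 0 := by
      rw [sub_nonpos, one_le_div h0]; exact hy
    rw [max_eq_left h1]
    norm_num

theorem tau3_c2 {ρ : ℝ} (hρ : 0 < ρ) : ContDiff ℝ 2 (tau3 ρ) := by
  rw [contDiff_iff_contDiffAt]
  intro y
  rcases eq_or_ne y 0 with rfl | h
  · refine ContDiffAt.congr_of_eventuallyEq (f := fun _ : ℂ => (0 : ℂ)) contDiffAt_const ?_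
    filter_upwards [ball_mem_nhds (0 : ℂ) hρ] with y hy
    rw [mem_ball_zero_iff] at hy
    exact tau3_zero hy.le
  · have h1 : ContDiffAt ℝ 2 (fun y : ℂ => 1 - ρ / ‖y‖) y :=
      contDiffAt_const.sub (contDiffAt_const.div (contDiffAt_norm ℝ h) (norm_ne_zero_iff.mpr h))
    have h2 : ContDiffAt ℝ 2 (fun y : ℂ => (max 0 (1 - ρ / ‖y‖)) ^ 3) y :=
      ContDiffAt.comp (g := fun x : ℝ => (max 0 x) ^ 3) y tauh3_contDiff.contDiffAt h1
    have h3 : ContDiffAt ℝ 2 (fun y : ℂ => ((max 0 (1 - ρ / ‖y‖)) ^ 3 : ℝ) • y) y :=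
      h2.smul contDiffAt_id
    refine h3.congr_of_eventuallyEq (Eventually.of_forall fun y => ?_)
    simp only [tau3]
    rw [Complex.real_smul]

theorem tau3_norm {ρ : ℝ} (y : ℂ) : ‖tau3 ρ y‖ = (max 0 (1 - ρ / ‖y‖)) ^ 3 * ‖y‖ ∧
    (0 < ρ → ‖y - tau3 ρ y‖ = (1 - (max 0 (1 - ρ / ‖y‖)) ^ 3) * ‖y‖) := by
  unfold tau3
  constructor
  · rw [norm_mul, Complex.norm_real, Real.norm_of_nonneg (by positivity)]
  · intro hρ
    have h1 : y - (((max 0 (1 - ρ / ‖y‖)) ^ 3 : ℝ) : ℂ) * y =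
        ((1 - (max 0 (1 - ρ / ‖y‖)) ^ 3 : ℝ) : ℂ) * y := by push_cast; ring
    have h2 : max 0 (1 - ρ / ‖y‖) ≤ 1 :=
      max_le zero_le_one (by have : 0 ≤ ρ / ‖y‖ := by positivity
                             linarith)
    have h3 : 0 ≤ max 0 (1 - ρ / ‖y‖) := le_max_left _ _
    have h4 : (max 0 (1 - ρ / ‖y‖)) ^ 3 ≤ 1 := pow_le_one₀ h3 h2
    rw [h1, norm_mul, Complex.norm_real, Real.norm_of_nonneg (by linarith)]

theorem tau3_rest {ρ : ℝ} (hρ : 0 < ρ) (y : ℂ) : ‖y - tau3 ρ y‖ ≤ 3 * ρ := by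
  rcases le_or_gt ‖y‖ ρ with h | h
  · rw [tau3_zero h, sub_zero]; linarith
  · have h0 : 0 < ‖y‖ := hρ.trans h
    have h1 : 0 ≤ 1 - ρ / ‖y‖ := by rw [sub_nonneg, div_le_one h0]; exact h.le
    rw [(tau3_norm y).2 hρ, max_eq_right h1]
    obtain ⟨q, hq⟩ : ∃ q, q = ρ / ‖y‖ := ⟨_, rfl⟩
    have hρq : ρ = q * ‖y‖ := by rw [hq]; field_simp
    have hq0 : 0 < q := by rw [hq]; positivity
    rw [← hq] at h1 ⊢
    rw [hρq]
    have h2 : 3 * (q * ‖y‖) - (1 - (1 - q) ^ 3) * ‖y‖ = (q ^ 2 * (2 + (1 - q))) * ‖y‖ := by ring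
    have h3 : 0 ≤ (q ^ 2 * (2 + (1 - q))) * ‖y‖ := by positivity
    linarith

theorem tau3_gain {ρ : ℝ} (hρ : 0 < ρ) (y : ℂ) :
    2 * ρ * ‖tau3 ρ y‖ ≤ ‖y‖ ^ 2 - ‖y - tau3 ρ y‖ ^ 2 := by
  rcases le_or_gt ‖y‖ ρ with h | h
  · rw [tau3_zero h]; simp
  · have h0 : 0 < ‖y‖ := hρ.trans h
    have h1 : 0 ≤ 1 - ρ / ‖y‖ := by rw [sub_nonneg, div_le_one h0]; exact h.le
    rw [(tau3_norm y).2 hρ, (tau3_norm y).1, max_eq_right h1]
    obtain ⟨q, hq⟩ : ∃ q, q = ρ / ‖y‖ := ⟨_, rfl⟩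
    have hρq : ρ = q * ‖y‖ := by rw [hq]; field_simp
    have hq0 : 0 < q := by rw [hq]; positivity
    rw [← hq] at h1 ⊢
    rw [hρq]
    have : ‖y‖ ^ 2 - ((1 - (1 - q) ^ 3) * ‖y‖) ^ 2 - 2 * (q * ‖y‖) * ((1 - q) ^ 3 * ‖y‖) =
        ‖y‖ ^ 2 * ((1 - q) ^ 3 * ((1 - q) * (1 + q * (1 + (1 - q))))) := by ring
    have h3 : 0 ≤ ‖y‖ ^ 2 * ((1 - q) ^ 3 * ((1 - q) * (1 + q * (1 + (1 - q))))) := by positivity
    linarith

theorem tau3_hasFDerivAt {ρ : ℝ} {y : ℂ} (h : y ≠ 0) : ∃ D : ℂ →L[ℝ] ℂ,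
    HasFDerivAt (tau3 ρ) D y ∧ ∀ v, D v = ((max 0 (1 - ρ / ‖y‖)) ^ 3) • v +
      (3 * (max 0 (1 - ρ / ‖y‖)) ^ 2 * (ρ / ‖y‖)) • ((⟪y, v⟫_ℝ / ‖y‖ ^ 2) • y) := by
  have h0 : 0 < ‖y‖ := norm_pos_iff.mpr h
  have hsq : Real.sqrt (‖y‖ ^ 2) = ‖y‖ := Real.sqrt_sq h0.le
  have h1 : HasFDerivAt (fun y : ℂ => ‖y‖ ^ 2) (2 • (innerSL ℝ y)) y :=
    (hasStrictFDerivAt_norm_sq y).hasFDerivAt
  have h2 := h1.sqrt (by positivity)
  have h3 := (hasDerivAt_inv (by rw [hsq]; exact h0.ne' : Real.sqrt (‖y‖ ^ 2) ≠ 0)).comp_hasFDerivAt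
    y h2
  have h4 := (h3.const_mul ρ).const_sub 1
  have h5 := ((tauh3_deriv (1 - ρ * (Real.sqrt (‖y‖ ^ 2))⁻¹)).comp_hasFDerivAt y h4).smul
    (hasFDerivAt_id y)
  refine ⟨_, h5.congr_of_eventuallyEq (Eventually.of_forall fun w => ?_), fun v => ?_⟩
  · simp only [tau3, Function.comp, id, Pi.smul_apply']
    rw [Complex.real_smul, Real.sqrt_sq (norm_nonneg _), div_eq_mul_inv]
  · simp only [Function.comp, ContinuousLinearMap.add_apply, ContinuousLinearMap.smul_apply,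
      ContinuousLinearMap.smulRight_apply, ContinuousLinearMap.neg_apply,
      ContinuousLinearMap.coe_id', id, innerSL_apply_apply, hsq, smul_eq_mul, nsmul_eq_mul]
    rw [← div_eq_mul_inv, smul_smul]
    congr 2
    push_cast
    field_simp

theorem tau3_fderiv {ρ : ℝ} (hρ : 0 < ρ) (y a b : ℂ) :
    ‖b + fderiv ℝ (tau3 ρ) y (a - b)‖ ≤ ‖a‖ + ‖b‖ := by
  rcases lt_or_ge ‖y‖ ρ with h | h
  · have h1 : fderiv ℝ (tau3 ρ) y = 0 := by
      have : tau3 ρ =ᶠ[𝓝 y] fun _ => (0 : ℂ) := by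
        filter_upwards [(isOpen_lt continuous_norm continuous_const).mem_nhds h] with w hw
        exact tau3_zero (le_of_lt hw)
      rw [this.fderiv_eq]
      simp
    rw [h1]
    simp
  · have h0 : 0 < ‖y‖ := hρ.trans_le h
    have hy : y ≠ 0 := norm_pos_iff.mp h0
    obtain ⟨D, hD, hDv⟩ := tau3_hasFDerivAt (ρ := ρ) hy
    rw [hD.fderiv]
    have h1 : 0 ≤ 1 - ρ / ‖y‖ := by rw [sub_nonneg, div_le_one h0]; exact h
    obtain ⟨q, hq⟩ : ∃ q, q = ρ / ‖y‖ := ⟨_, rfl⟩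
    have hq0 : 0 < q := by rw [hq]; positivity
    rw [max_eq_right h1, ← hq] at hDv
    rw [← hq] at h1
    obtain ⟨P, hP⟩ : ∃ P : ℂ → ℂ, P = fun v => (⟪y, v⟫_ℝ / ‖y‖ ^ 2) • y := ⟨_, rfl⟩
    have hP1 : ∀ v, ‖P v‖ ≤ ‖v‖ := by
      intro v
      rw [hP]
      simp only
      rw [norm_smul, Real.norm_eq_abs, abs_div, abs_of_nonneg (sq_nonneg ‖y‖)]
      have := abs_real_inner_le_norm y v
      rw [div_mul_eq_mul_div, div_le_iff₀ (by positivity)]
      nlinarith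
    have hP2 : ∀ v, ‖v - P v‖ ≤ ‖v‖ := by
      intro v
      apply le_of_sq_le_sq _ (norm_nonneg _)
      rw [@norm_sub_sq_real]
      have e1 : ⟪v, P v⟫_ℝ = ⟪y, v⟫_ℝ ^ 2 / ‖y‖ ^ 2 := by
        rw [hP]
        simp only
        rw [real_inner_smul_right, real_inner_comm]
        ring
      have e2 : ‖P v‖ ^ 2 = ⟪y, v⟫_ℝ ^ 2 / ‖y‖ ^ 2 := by
        rw [hP]
        simp only
        rw [norm_smul, mul_pow, Real.norm_eq_abs, sq_abs]
        field_simp
      rw [e1, e2]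
      have : 0 ≤ ⟪y, v⟫_ℝ ^ 2 / ‖y‖ ^ 2 := by positivity
      linarith
    have hDv' : ∀ v, D v = ((1 - q) ^ 3) • v + (3 * (1 - q) ^ 2 * q) • P v := by
      intro v; rw [hDv, hP]
    have k1 : ‖D a‖ ≤ ‖a‖ := by
      rw [hDv']
      calc ‖((1 - q) ^ 3) • a + (3 * (1 - q) ^ 2 * q) • P a‖ ≤
          (1 - q) ^ 3 * ‖a‖ + (3 * (1 - q) ^ 2 * q) * ‖P a‖ := by
            refine (norm_add_le _ _).trans ?_
            rw [norm_smul, norm_smul, Real.norm_of_nonneg (by positivity),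
              Real.norm_of_nonneg (by positivity)]
        _ ≤ (1 - q) ^ 3 * ‖a‖ + (3 * (1 - q) ^ 2 * q) * ‖a‖ := by
            have := hP1 a
            gcongr
        _ = ‖a‖ - (q ^ 2 * (1 + 2 * (1 - q))) * ‖a‖ := by ring
        _ ≤ ‖a‖ := by
            have : 0 ≤ (q ^ 2 * (1 + 2 * (1 - q))) * ‖a‖ := by positivity
            linarith
    have k2 : ‖b - D b‖ ≤ ‖b‖ := by
      have e : b - D b = (q ^ 2 * (1 + 2 * (1 - q))) • b +
          (3 * (1 - q) ^ 2 * q) • (b - P b) := by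
        rw [hDv', smul_sub]
        simp only [Complex.real_smul]
        push_cast
        ring
      rw [e]
      calc ‖(q ^ 2 * (1 + 2 * (1 - q))) • b + (3 * (1 - q) ^ 2 * q) • (b - P b)‖ ≤
          q ^ 2 * (1 + 2 * (1 - q)) * ‖b‖ + (3 * (1 - q) ^ 2 * q) * ‖b - P b‖ := by
            refine (norm_add_le _ _).trans ?_
            rw [norm_smul, norm_smul, Real.norm_of_nonneg (by positivity),
              Real.norm_of_nonneg (by positivity)]
        _ ≤ q ^ 2 * (1 + 2 * (1 - q)) * ‖b‖ + (3 * (1 - q) ^ 2 * q) * ‖b‖ := by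
            have := hP2 b
            gcongr
        _ = ‖b‖ - (1 - q) ^ 3 * ‖b‖ := by ring
        _ ≤ ‖b‖ := by
            have : 0 ≤ (1 - q) ^ 3 * ‖b‖ := by positivity
            linarith
    calc ‖b + D (a - b)‖ = ‖D a + (b - D b)‖ := by rw [map_sub]; congr 1; ring
      _ ≤ ‖D a‖ + ‖b - D b‖ := norm_add_le _ _
      _ ≤ _ := by linarith

theorem seq_gauge3 {u v b : ℕ → ℂ} {ρ B : ℝ} (hρ : 0 < ρ) (hρB : ρ ≤ B)
    (hb : ∀ i, b (i + 1) = b i + tau3 ρ (v (i + 1) - b i)) (huv : ∀ i, ‖u i - v i‖ ≤ ρ / 2)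
    (hbB : ∀ i, ‖b i‖ ≤ B) (hvB : ∀ i, ‖v i‖ ≤ B) {j k : ℕ} (hjk : j ≤ k) :
    ∑ i ∈ Finset.Ico j k, 2 * ((starRingEnd ℂ) (b i) * (u (i + 1) - u i)).re ≤
      6 * B ^ 2 - ρ * ∑ i ∈ Finset.Ico j k, ‖b (i + 1) - b i‖ := by
  obtain ⟨G, hG⟩ : ∃ G : ℕ → ℝ, G = fun i => 2 * ((starRingEnd ℂ) (b i) * v i).re - ‖b i‖ ^ 2 +
      2 * ((starRingEnd ℂ) (b i) * (u i - v i)).re := ⟨_, rfl⟩
  have hstep : ∀ i, 2 * ((starRingEnd ℂ) (b i) * (u (i + 1) - u i)).re ≤
      G (i + 1) - G i - ρ * ‖b (i + 1) - b i‖ := by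
    intro i
    have h1 := tau3_gain hρ (v (i + 1) - b i)
    have h2 : tau3 ρ (v (i + 1) - b i) = b (i + 1) - b i := by rw [hb i]; ring
    have h3 : v (i + 1) - b i - (b (i + 1) - b i) = v (i + 1) - b (i + 1) := by ring
    rw [h2, h3] at h1
    have h4 := seq_re_le (b (i + 1) - b i) (u (i + 1) - v (i + 1))
    have h5 := mul_le_mul_of_nonneg_left (huv (i + 1)) (norm_nonneg (b (i + 1) - b i))
    have h6 := neg_abs_le ((starRingEnd ℂ) (b (i + 1) - b i) * (u (i + 1) - v (i + 1))).re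
    rw [← Complex.normSq_eq_norm_sq, ← Complex.normSq_eq_norm_sq, Complex.normSq_apply,
      Complex.normSq_apply] at h1
    rw [hG]
    simp only
    rw [← Complex.normSq_eq_norm_sq, ← Complex.normSq_eq_norm_sq, Complex.normSq_apply,
      Complex.normSq_apply]
    simp only [seq_re, Complex.sub_re, Complex.sub_im] at h1 h4 h6 ⊢
    linarith
  have hsum : ∑ i ∈ Finset.Ico j k, 2 * ((starRingEnd ℂ) (b i) * (u (i + 1) - u i)).re ≤
      G k - G j - ρ * ∑ i ∈ Finset.Ico j k, ‖b (i + 1) - b i‖ := by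
    induction k, hjk using Nat.le_induction with
    | base => simp
    | succ k hk ih =>
      rw [Finset.sum_Ico_succ_top hk, Finset.sum_Ico_succ_top hk, mul_add]
      have := hstep k
      linarith
  refine hsum.trans ?_
  have hB : 0 ≤ B := hρ.le.trans hρB
  have hup : G k ≤ B ^ 2 + B * ρ := by
    have h1 := seq_re_le (b k) (u k - v k)
    have h2 : ‖b k‖ * ‖u k - v k‖ ≤ B * (ρ / 2) := by
      have := hbB k; have := huv k; gcongr
    have h3 := le_abs_self ((starRingEnd ℂ) (b k) * (u k - v k)).re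
    have h4 : 2 * ((starRingEnd ℂ) (b k) * v k).re - ‖b k‖ ^ 2 ≤ B ^ 2 := by
      have h5 : 2 * ((starRingEnd ℂ) (b k) * v k).re - ‖b k‖ ^ 2 = ‖v k‖ ^ 2 - ‖v k - b k‖ ^ 2 := by
        rw [← Complex.normSq_eq_norm_sq, ← Complex.normSq_eq_norm_sq, ← Complex.normSq_eq_norm_sq,
          Complex.normSq_apply, Complex.normSq_apply, Complex.normSq_apply, seq_re]
        simp only [Complex.sub_re, Complex.sub_im]
        ring
      rw [h5]
      have := hvB k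
      nlinarith [norm_nonneg (v k), sq_nonneg ‖v k - b k‖]
    rw [hG]
    simp only
    linarith
  have hlo : -(3 * B ^ 2) - B * ρ ≤ G j := by
    have h1 := seq_re_le (b j) (u j - v j)
    have h2 : ‖b j‖ * ‖u j - v j‖ ≤ B * (ρ / 2) := by
      have := hbB j; have := huv j; gcongr
    have h3 := neg_abs_le ((starRingEnd ℂ) (b j) * (u j - v j)).re
    have h4 := seq_re_le (b j) (v j)
    have h5 : ‖b j‖ * ‖v j‖ ≤ B * B := by
      have := hbB j; have := hvB j; gcongr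
    have h6 := neg_abs_le ((starRingEnd ℂ) (b j) * v j).re
    have h7 : ‖b j‖ ^ 2 ≤ B ^ 2 := by have := hbB j; gcongr
    rw [hG]
    simp only
    nlinarith
  have h8 : B * ρ ≤ B * B := by gcongr
  nlinarith

end Pool.Agent.MPca0fc2.QT
end
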