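import Mathlib
import Pool.Agent.Lib.MP_ca0fc2_an.Mg.G017
import Pool.Agent.Lib.MP_ca0fc2_an.Mg.G020
import Pool.Agent.Lib.MP_ca0fc2_an.Mg.G021

section

set_option autoImplicit false

open Metric Set MeasureTheory Filter Topology
open scoped InnerProductSpace ENNReal

namespace Pool.Agent.MPca0fc2.QT

open Pool.Agent.MPca0fc2.PT

variable {E : Type*} [NormedAddCommGroup E] [InnerProductSpace ℂ E]
variable {V : Type*} [NormedAddCommGroup V] [NormedSpace ℂ V]
variable {Y : Type*} [NormedAddCommGroup Y] [NormedSpace ℂ Y]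

theorem kd_wd_zero (K : Car Y V) {q : ℕ} (L : E →L[ℝ] Y) :
    wd K L (0 : E [⋀^Fin q]→L[ℝ] V) = 0 := by
  ext v
  rw [wd_apply]
  show _ = (0 : V)
  refine Finset.sum_eq_zero fun i _ => ?_
  show (-1) ^ (i : ℕ) • K.a (L (v i)) (0 : V) = 0
  rw [map_zero, smul_zero]

theorem kd_db_const {q : ℕ} (P : E [⋀^Fin q]→L[ℝ] V) (w : E) : db (fun _ => P) w = 0 := by
  ext v
  rw [db, ContinuousAlternatingMap.alternatizeUncurryFin_apply]
  show _ = (0 : V)
  refine Finset.sum_eq_zero fun i _ => ?_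
  rw [d1_apply, fderiv_fun_const]
  show (-1) ^ (i : ℕ) • ((2⁻¹ : ℂ) • ((0 : V) + Complex.I • (0 : V))) = 0
  simp

theorem db_Pw (K : Car Y V) {σ : E → Y} {w : E} (hσ : ContDiffAt ℝ 2 σ w) (r : ℕ) :
    db (fun w => Pw K (D01 σ w) r) w = 0 := by
  induction r with
  | zero => exact kd_db_const (cst E K.Ω) w
  | succ r ih =>
    have h := db_wd K hσ ((Pw_c1 K hσ r).differentiableAt one_ne_zero)
    rw [ih, kd_wd_zero, neg_zero] at h
    exact h

theorem db_SP (K : Car Y V) {σ σ' : E → Y} {w : E} (hσ : ContDiffAt ℝ 2 σ w)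
    (hσ' : ContDiffAt ℝ 2 σ' w) (r : ℕ) :
    db (fun w => SP K (D01 σ w) (D01 σ' w) r) w = 0 := by
  induction r with
  | zero => exact kd_db_const (cst E K.Ω) w
  | succ r ih =>
    have h := db_wd K hσ ((SP_c1 K hσ hσ' r).differentiableAt one_ne_zero)
    rw [ih, kd_wd_zero, neg_zero] at h
    have h1 : DifferentiableAt ℝ (fun w => Pw K (D01 σ' w) (r + 1)) w :=
      (Pw_c1 K hσ' (r + 1)).differentiableAt one_ne_zero
    have h2 : DifferentiableAt ℝ (fun w => SP K (D01 σ w) (D01 σ' w) (r + 1)) w :=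
      (SP_c1 K hσ hσ' (r + 1)).differentiableAt one_ne_zero
    have h3 : DifferentiableAt ℝ (fun w => wd K (D01 σ w) (SP K (D01 σ w) (D01 σ' w) r)) w := by
      have h4 := h2.sub h1
      refine h4.congr_of_eventuallyEq (Filter.Eventually.of_forall fun x => ?_)
      show _ = (wd K (D01 σ x) (SP K (D01 σ x) (D01 σ' x) r) + Pw K (D01 σ' x) (r + 1)) -
        Pw K (D01 σ' x) (r + 1)
      rw [add_sub_cancel_right]
    have h5 := db_add h3 h1
    rw [h, db_Pw K hσ' (r + 1), add_zero] at h5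
    exact h5

theorem db_UU (K : Car Y V) {σ : E → Y} {w : E} (hσ : ContDiffAt ℝ 2 σ w) (r : ℕ) :
    db (UU K σ r) w = Pw K (D01 σ w) (r + 1) := by
  have h := db_opc_a K (hσ.differentiableAt two_ne_zero)
    ((Pw_c1 K hσ r).differentiableAt one_ne_zero)
  rw [db_Pw K hσ r, map_zero, add_zero] at h
  exact h

theorem c_UU (K : Car Y V) {σ : E → Y} {w : E} {F : Y →L[ℂ] ℂ} (hF : F (σ w) = 1)
    (hF' : ∀ v, F (D01 σ w v) = 0) (r : ℕ) : opc E V r (K.c F) (UU K σ r w) = Pw K (D01 σ w) r := by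
  have h := opca K F (σ w) (Pw K (D01 σ w) r)
  rw [c_Pw K hF' r, map_zero, add_zero, hF, one_smul] at h
  exact h

/-- the homotopy formula -/
theorem db_JJ (K : Car Y V) {σ σ' : E → Y} {w : E} (hσ : ContDiffAt ℝ 2 σ w)
    (hσ' : ContDiffAt ℝ 2 σ' w) {F : Y →L[ℂ] ℂ} (hF : F (σ w) = 1) (hF' : F (σ' w) = 1)
    (hd : ∀ v, F (D01 σ w v) = 0) (hd' : ∀ v, F (D01 σ' w v) = 0) (r : ℕ) :
    db (JJ K σ σ' r) w + opc E V (r + 1) (K.c F) (JJ K σ σ' (r + 1) w) =
      UU K σ' (r + 1) w - UU K σ (r + 1) w := by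
  have e1 : DifferentiableAt ℝ (fun w => SP K (D01 σ w) (D01 σ' w) r) w :=
    (SP_c1 K hσ hσ' r).differentiableAt one_ne_zero
  have e2 := db_opc_a K (hσ'.differentiableAt two_ne_zero) e1
  rw [db_SP K hσ hσ' r, map_zero, add_zero] at e2
  have e3 : DifferentiableAt ℝ
      (fun w => opc E V r (K.a (σ' w)) (SP K (D01 σ w) (D01 σ' w) r)) w := by
    have h1 : DifferentiableAt ℝ (fun w => K.a (σ' w)) w :=
      ((K.a.restrictScalars ℝ).differentiableAt (x := σ' w)).comp w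
        (hσ'.differentiableAt two_ne_zero)
    have h2 : DifferentiableAt ℝ (fun w => opc E V r (K.a (σ' w))) w :=
      DifferentiableAt.comp (g := fun A => opc E V r A) w
        ((opc E V r).differentiableAt (x := K.a (σ' w))) h1
    exact h2.clm_apply e1
  have e4 := db_opc_a K (hσ.differentiableAt two_ne_zero) e3
  rw [e2] at e4
  have e5 : db (JJ K σ σ' r) w = wd K (D01 σ w)
      (opc E V r (K.a (σ' w)) (SP K (D01 σ w) (D01 σ' w) r)) +
      opc E V (r + 1) (K.a (σ w)) (wd K (D01 σ' w) (SP K (D01 σ w) (D01 σ' w) r)) := e4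
  have e6 : wd K (D01 σ w) (opc E V r (K.a (σ' w)) (SP K (D01 σ w) (D01 σ' w) r)) =
      -opc E V (r + 1) (K.a (σ' w)) (wd K (D01 σ w) (SP K (D01 σ w) (D01 σ' w) r)) := by
    rw [opa_wd, neg_neg]
  have e7 := opca K F (σ w) (opc E V (r + 1) (K.a (σ' w)) (SP K (D01 σ w) (D01 σ' w) (r + 1)))
  have e8 := opca K F (σ' w) (SP K (D01 σ w) (D01 σ' w) (r + 1))
  rw [c_SP K hd hd' (r + 1), map_zero, add_zero, hF', one_smul] at e8
  rw [e8, hF, one_smul] at e7
  have e9 : opc E V (r + 1) (K.c F) (JJ K σ σ' (r + 1) w) =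
      opc E V (r + 1) (K.a (σ' w)) (SP K (D01 σ w) (D01 σ' w) (r + 1)) -
      opc E V (r + 1) (K.a (σ w)) (SP K (D01 σ w) (D01 σ' w) (r + 1)) := by
    rw [← e7]
    exact (add_sub_cancel_right _ _).symm
  rw [e5, e6, e9]
  have s1 : SP K (D01 σ w) (D01 σ' w) (r + 1) =
      wd K (D01 σ w) (SP K (D01 σ w) (D01 σ' w) r) + Pw K (D01 σ' w) (r + 1) := rfl
  have s2 := SP_succ' K (D01 σ w) (D01 σ' w) r
  have s3 : UU K σ' (r + 1) w = opc E V (r + 1) (K.a (σ' w)) (Pw K (D01 σ' w) (r + 1)) := rfl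
  have s4 : UU K σ (r + 1) w = opc E V (r + 1) (K.a (σ w)) (Pw K (D01 σ w) (r + 1)) := rfl
  have s5 : opc E V (r + 1) (K.a (σ' w)) (SP K (D01 σ w) (D01 σ' w) (r + 1)) =
      opc E V (r + 1) (K.a (σ' w)) (wd K (D01 σ w) (SP K (D01 σ w) (D01 σ' w) r)) +
      UU K σ' (r + 1) w := by
    rw [s1, map_add, s3]
  have s6 : opc E V (r + 1) (K.a (σ w)) (SP K (D01 σ w) (D01 σ' w) (r + 1)) =
      opc E V (r + 1) (K.a (σ w)) (wd K (D01 σ' w) (SP K (D01 σ w) (D01 σ' w) r)) +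
      UU K σ (r + 1) w := by
    rw [s2, map_add, s4]
  rw [s5, s6]
  abel

/-- a smooth solution is annihilated by the functional, up to a constant -/
theorem F_D01 {σ : E → Y} {F : E → Y →L[ℂ] ℂ} {w : E} (hF : DifferentiableAt ℂ F w)
    (hσ : DifferentiableAt ℝ σ w) (h : ∀ᶠ x in 𝓝 w, F x (σ x) = 1) (v : E) :
    F w (D01 σ w v) = 0 := by
  have hF1 : HasFDerivAt F ((fderiv ℂ F w).restrictScalars ℝ) w :=
    hF.hasFDerivAt.restrictScalars ℝ
  have hF2 : HasFDerivAt (fun x => (F x).restrictScalars ℝ)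
      ((ContinuousLinearMap.restrictScalarsL ℂ Y ℂ ℝ ℝ).comp
        ((fderiv ℂ F w).restrictScalars ℝ)) w :=
    (ContinuousLinearMap.restrictScalarsL ℂ Y ℂ ℝ ℝ).hasFDerivAt.comp w hF1
  have h1 := hF2.clm_apply hσ.hasFDerivAt
  have h2 : HasFDerivAt (fun x => ((F x).restrictScalars ℝ) (σ x)) (0 : E →L[ℝ] ℂ) w := by
    refine (hasFDerivAt_const (1 : ℂ) w).congr_of_eventuallyEq ?_
    filter_upwards [h] with x hx
    exact hx
  have h3 := h1.unique h2
  have h4 : ∀ u, F w (fderiv ℝ σ w u) = -(fderiv ℂ F w u (σ w)) := by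
    intro u
    have := congrArg (fun (A : E →L[ℝ] ℂ) => A u) h3
    have h5 : F w (fderiv ℝ σ w u) + fderiv ℂ F w u (σ w) = 0 := by
      simpa using this
    exact eq_neg_of_add_eq_zero_left h5
  rw [D01_apply, map_smul, map_add, map_smul, h4, h4, map_smul]
  show (2⁻¹ : ℂ) • (-(fderiv ℂ F w v (σ w)) + Complex.I • -(Complex.I • fderiv ℂ F w v (σ w))) = 0
  have h6 : Complex.I • -(Complex.I • fderiv ℂ F w v (σ w)) = fderiv ℂ F w v (σ w) := by
    rw [smul_neg, smul_smul, Complex.I_mul_I, neg_smul, one_smul, neg_neg]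
  rw [h6, neg_add_cancel, smul_zero]

end Pool.Agent.MPca0fc2.QT
end

section

set_option autoImplicit false

open Metric Set MeasureTheory Filter Topology
open scoped InnerProductSpace ENNReal

namespace Pool.Agent.MPca0fc2.QT

open Pool.Agent.MPca0fc2.PT

variable {E : Type*} [NormedAddCommGroup E] [InnerProductSpace ℂ E]
variable {V : Type*} [NormedAddCommGroup V] [NormedSpace ℂ V]
variable {Y : Type*} [NormedAddCommGroup Y] [NormedSpace ℂ Y]

/-- the hypotheses on a smooth solution at a point -/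
structure SolAt (σ : E → Y) (F : E → Y →L[ℂ] ℂ) (w : E) : Prop where
  c2 : ContDiffAt ℝ 2 σ w
  hol : DifferentiableAt ℂ F w
  one : F w (σ w) = 1
  zero : ∀ v, F w (D01 σ w v) = 0

theorem UU_diffAt (K : Car Y V) {σ : E → Y} {F : E → Y →L[ℂ] ℂ} {w : E} (h : SolAt σ F w)
    (r : ℕ) : DifferentiableAt ℝ (UU K σ r) w :=
  (UU_c1 K h.c2 r).differentiableAt (by norm_num)

theorem cF_hol (K : Car Y V) {F : E → Y →L[ℂ] ℂ} {w : E} (h : DifferentiableAt ℂ F w) :
    DifferentiableAt ℂ (fun w => K.c (F w)) w :=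
  K.c.differentiableAt.comp w h

theorem opc_diffAt {q : ℕ} {G : E → V →L[ℂ] V} {η : E → E [⋀^Fin q]→L[ℝ] V} {w : E}
    (hG : DifferentiableAt ℂ G w) (h : DifferentiableAt ℝ η w) :
    DifferentiableAt ℝ (fun w => opc E V q (G w) (η w)) w := by
  have hG' : DifferentiableAt ℝ G w := hG.restrictScalars ℝ
  have h0 : DifferentiableAt ℝ (opc E V q) (G w) := (opc E V q).differentiableAt
  have h1 : DifferentiableAt ℝ (fun w => opc E V q (G w)) w :=
    DifferentiableAt.comp (𝕜 := ℝ) (E := E) (F := V →L[ℂ] V)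
      (G := (E [⋀^Fin q]→L[ℝ] V) →L[ℝ] (E [⋀^Fin q]→L[ℝ] V)) w h0 hG'
  exact h1.clm_apply h

end Pool.Agent.MPca0fc2.QT
end
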