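import Mathlib
import Pool.Agent.Lib.MP_ca0fc2_an.Holo
import Pool.Agent.Lib.MP_ca0fc2_an.Mg.G059
import Pool.Agent.Lib.MP_ca0fc2_an.Defs
import Pool.Agent.Lib.MP_ca0fc2_an.Mg.G061

section

/-!
# Localization of the corona problem on a domain with respect to a set of functions
-/

set_option autoImplicit false

open Metric Set Filter Topology

namespace Pool.Agent.MPca0fc2.CXS

open Pool.Agent.Lib.MP_ca0fc2_an

variable {n : ℕ}

/-- The corona problem on `D` can be localized to the cells of finitely many functions of `A`. -/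
def LocOn (D : Set (EuclideanSpace ℂ (Fin n))) (A : Set (EuclideanSpace ℂ (Fin n) → ℂ)) : Prop :=
  ∀ (N k : ℕ) (f : Fin N → EuclideanSpace ℂ (Fin n) → ℂ)
    (a : Fin k → EuclideanSpace ℂ (Fin n) → ℂ) (C ε : ℝ),
    (∀ j, IsHinf D (f j)) → (∀ i, a i ∈ A) → 0 < ε →
    (∀ b ∈ D, SolvableOn f {z | z ∈ D ∧ ∀ i, ‖a i z - a i b‖ < ε} C) →
    ∃ C', SolvableOn f D C'

theorem solv_sub {N : ℕ} {f : Fin N → EuclideanSpace ℂ (Fin n) → ℂ}
    {D D' : Set (EuclideanSpace ℂ (Fin n))} {C C' : ℝ} (h : SolvableOn f D C) (hD : D' ⊆ D)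
    (hC : C ≤ C') : SolvableOn f D' C' := by
  obtain ⟨h₁, h1, h2, h3⟩ := h
  exact ⟨h₁, fun j => (h1 j).mono hD, fun j z hz => (h2 j z (hD hz)).trans hC,
    fun z hz => h3 z (hD hz)⟩

/-- The Bezout equation passes to larger families. -/
theorem solv_map' {N N' : ℕ} {f : Fin N → EuclideanSpace ℂ (Fin n) → ℂ}
    {f' : Fin N' → EuclideanSpace ℂ (Fin n) → ℂ} {D : Set (EuclideanSpace ℂ (Fin n))} {C : ℝ}
    (σ : Fin N → Fin N')
    (hσ : ∀ j, ∀ z ∈ D, f j z = f' (σ j) z) (h : SolvableOn f D C) :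
    SolvableOn f' D (N * |C|) := by
  classical
  obtain ⟨h, h1, h2, h3⟩ := h
  refine ⟨fun i z => ∑ j, if σ j = i then h j z else 0, fun i => ?_,
    fun i z hz => ?_, fun z hz => ?_⟩
  · refine DifferentiableOn.fun_sum fun j _ => ?_
    by_cases hj : σ j = i
    · simpa [hj] using h1 j
    · simp [hj]
  · refine (norm_sum_le _ _).trans ?_
    have h4 : ∀ j ∈ (Finset.univ : Finset (Fin N)), ‖(if σ j = i then h j z else 0)‖ ≤ |C| := by
      intro j _
      by_cases hj : σ j = i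
      · simpa [hj] using (h2 j z hz).trans (le_abs_self C)
      · simp [hj]
    refine (Finset.sum_le_sum h4).trans (le_of_eq ?_)
    rw [Finset.sum_const, Finset.card_univ, Fintype.card_fin, nsmul_eq_mul]
  · rw [← h3 z hz]
    simp only [Finset.mul_sum]
    rw [Finset.sum_comm]
    refine Finset.sum_congr rfl fun j _ => ?_
    rw [Finset.sum_eq_single (σ j)]
    · rw [if_pos rfl, hσ j z hz]
    · intro i _ hi
      rw [if_neg (Ne.symm hi), mul_zero]
    · intro hi
      exact absurd (Finset.mem_univ _) hi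

/-- The corona problem on an open set splits into the problems on its connected components. -/
theorem solv_comps {N : ℕ} {f : Fin N → EuclideanSpace ℂ (Fin n) → ℂ}
    {D : Set (EuclideanSpace ℂ (Fin n))} (hD : IsOpen D) {C : ℝ}
    (h : ∀ x ∈ D, SolvableOn f (connectedComponentIn D x) C) : SolvableOn f D C := by
  classical
  have h1 : ∀ W : Set (EuclideanSpace ℂ (Fin n)), ∃ g : Fin N → EuclideanSpace ℂ (Fin n) → ℂ,
      SolvableOn f W C → (∀ j, DifferentiableOn ℂ (g j) W) ∧ (∀ j, ∀ z ∈ W, ‖g j z‖ ≤ C) ∧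
        ∀ z ∈ W, ∑ j, f j z * g j z = 1 := by
    intro W
    by_cases hW : SolvableOn f W C
    · obtain ⟨g, hg⟩ := hW
      exact ⟨g, fun _ => hg⟩
    · exact ⟨fun _ _ => 0, fun h => absurd h hW⟩
  choose g hg using h1
  refine ⟨fun j z => g (connectedComponentIn D z) j z, ?_, ?_, ?_⟩
  · intro j z hz
    have hopen : IsOpen (connectedComponentIn D z) := hD.connectedComponentIn
    have hzz : z ∈ connectedComponentIn D z := mem_connectedComponentIn hz
    have h2 := (hg _ (h z hz)).1 j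
    have h3 : DifferentiableAt ℂ (g (connectedComponentIn D z) j) z :=
      h2.differentiableAt (hopen.mem_nhds hzz)
    refine DifferentiableAt.differentiableWithinAt (h3.congr_of_eventuallyEq ?_)
    filter_upwards [hopen.mem_nhds hzz] with w hw
    rw [connectedComponentIn_eq hw]
  · intro j z hz
    exact (hg _ (h z hz)).2.1 j z (mem_connectedComponentIn hz)
  · intro z hz
    exact (hg _ (h z hz)).2.2 z (mem_connectedComponentIn hz)

/-- The cells are open. -/
theorem isOpen_cellOn {D : Set (EuclideanSpace ℂ (Fin n))} (hD : IsOpen D) {k : ℕ}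
    {u : Fin k → EuclideanSpace ℂ (Fin n) → ℂ} (hu : ∀ i, DifferentiableOn ℂ (u i) D)
    (c : Fin k → ℂ) (ρ : ℝ) : IsOpen (cellOn D u c ρ) := by
  have h1 : cellOn D u c ρ = D ∩ ⋂ i, (D ∩ (fun z => ‖u i z - c i‖) ⁻¹' Iio ρ) := by
    ext z
    simp only [cellOn, mem_ofPred_eq, mem_inter_iff, mem_iInter, mem_preimage, mem_Iio]
    exact ⟨fun h => ⟨h.1, fun i => ⟨h.1, h.2 i⟩⟩, fun h => ⟨h.1, fun i => (h.2 i).2⟩⟩
  rw [h1]
  refine hD.inter (isOpen_iInter_of_finite fun i => ?_)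
  exact (((hu i).continuousOn.sub continuousOn_const).norm).isOpen_inter_preimage hD isOpen_Iio

/-- Finitely many functions of the hull vary only a little on the components of the cells of
finitely many generators. -/
theorem hull_common {D : Set (EuclideanSpace ℂ (Fin n))} {G : Set (EuclideanSpace ℂ (Fin n) → ℂ)}
    {k : ℕ} {a : Fin k → EuclideanSpace ℂ (Fin n) → ℂ}
    (ha : ∀ i, a i ∈ HullOn D G) {ε : ℝ} (hε : 0 < ε) :
    ∃ (m : ℕ) (v : Fin m → EuclideanSpace ℂ (Fin n) → ℂ) (r : ℝ), 0 < r ∧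
      (∀ j, v j ∈ G) ∧ ∀ (c : Fin m → ℂ) (x : EuclideanSpace ℂ (Fin n)),
        ∀ z ∈ connectedComponentIn (cellOn D v c r) x,
        ∀ w ∈ connectedComponentIn (cellOn D v c r) x, ∀ i, ‖a i z - a i w‖ ≤ ε := by
  classical
  have h1 := fun i => (ha i).2 ε hε
  choose d u ρ hρ hu hosc using h1
  obtain ⟨r, hr, hrρ⟩ : ∃ r : ℝ, 0 < r ∧ ∀ i, r ≤ ρ i := by
    obtain ⟨r, hr⟩ : ∃ r : ℝ, 0 < r ∧ ∀ i ∈ (Finset.univ : Finset (Fin k)), r ≤ ρ i := by
      generalize (Finset.univ : Finset (Fin k)) = s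
      induction s using Finset.induction_on with
      | empty => exact ⟨1, one_pos, fun i hi => absurd hi (Finset.notMem_empty i)⟩
      | insert a s _ ih =>
        obtain ⟨r, h1, h2⟩ := ih
        refine ⟨min r (ρ a), lt_min h1 (hρ a), fun i hi => ?_⟩
        rcases Finset.mem_insert.mp hi with rfl | hi
        · exact min_le_right _ _
        · exact (min_le_left _ _).trans (h2 i hi)
    exact ⟨r, hr.1, fun i => hr.2 i (Finset.mem_univ i)⟩
  obtain ⟨e⟩ : Nonempty (Fin (Fintype.card (Σ i, Fin (d i))) ≃ Σ i, Fin (d i)) :=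
    ⟨(Fintype.equivFin _).symm⟩
  refine ⟨_, fun j => u (e j).1 (e j).2, r, hr, fun j => hu _ _, fun c x z hz w hw i => ?_⟩
  have hsub : cellOn D (fun j => u (e j).1 (e j).2) c r ⊆
      cellOn D (u i) (fun l => c (e.symm ⟨i, l⟩)) (ρ i) := by
    rintro y ⟨hy, hy2⟩
    refine ⟨hy, fun l => ?_⟩
    have h2 : ‖u (e (e.symm ⟨i, l⟩)).1 (e (e.symm ⟨i, l⟩)).2 y - c (e.symm ⟨i, l⟩)‖ < r :=
      hy2 (e.symm ⟨i, l⟩)
    have h3 : u (e (e.symm ⟨i, l⟩)).1 (e (e.symm ⟨i, l⟩)).2 = u i l := by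
      have h4 : ∀ s : Σ i, Fin (d i), u (e (e.symm s)).1 (e (e.symm s)).2 = u s.1 s.2 :=
        fun s => by rw [Equiv.apply_symm_apply]
      exact h4 ⟨i, l⟩
    rw [h3] at h2
    exact h2.trans_le (hrρ i)
  exact hosc i _ x z (connectedComponentIn_mono x hsub hz) w (connectedComponentIn_mono x hsub hw)

/-- The hull inherits the localization property. -/
theorem locOn_hull {D : Set (EuclideanSpace ℂ (Fin n))} (hD : IsOpen D)
    {G : Set (EuclideanSpace ℂ (Fin n) → ℂ)} (hG : ∀ u ∈ G, DifferentiableOn ℂ u D)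
    (h : LocOn D G) : LocOn D (HullOn D G) := by
  intro N k f a C ε hf ha hε hc
  obtain ⟨m, v, r, hr, hvG, hosc⟩ := hull_common ha (half_pos hε)
  refine h N _ f v C r hf hvG hr fun b _ => ?_
  change SolvableOn f (cellOn D v (fun j => v j b) r) C
  refine solv_comps (isOpen_cellOn hD (fun j => hG _ (hvG j)) _ _) fun x hx => ?_
  refine solv_sub (hc x hx.1) (fun z hz => ?_) le_rfl
  have hz1 : z ∈ cellOn D v (fun j => v j b) r := connectedComponentIn_subset _ _ hz
  exact ⟨hz1.1, fun i => (hosc _ x z hz x (mem_connectedComponentIn hx) i).trans_lt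
    (by linarith)⟩

end Pool.Agent.MPca0fc2.CXS
end

section

/-! The local lemma for functions which are algebraic over one function. -/

set_option autoImplicit false

open Metric Set Filter Topology Polynomial

namespace Pool.Agent.MPca0fc2.IN

open Pool.Agent.Lib.MP_ca0fc2_an

variable {E : Type*} [NormedAddCommGroup E] [NormedSpace ℂ E]

/-- the function `(1 - w)^(-1/2)` -/
noncomputable def rt (w : ℂ) : ℂ := Complex.exp (-(Complex.log (1 - w) / 2))

theorem rt_sq {w : ℂ} (hw : ‖w‖ < 1) : rt w ^ 2 * (1 - w) = 1 := by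
  have h0 : (1 - w) ≠ 0 := by
    intro h
    have : w = 1 := by linear_combination -h
    rw [this, norm_one] at hw
    exact lt_irrefl _ hw
  have h1 : rt w ^ 2 = (1 - w)⁻¹ := by
    rw [rt, ← Complex.exp_nat_mul, ← Complex.exp_log h0, ← Complex.exp_neg]
    rw [Complex.exp_log h0]
    congr 1
    push_cast
    ring
  rw [h1, inv_mul_cancel₀ h0]

theorem rt_sub_one {w : ℂ} (hw : ‖w‖ ≤ 1 / 2) : ‖rt w - 1‖ ≤ 2 * ‖w‖ := by
  have h1 : ‖Complex.log (1 + -w)‖ ≤ (3 / 2) * ‖-w‖ :=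
    Complex.norm_log_one_add_half_le_self (by rwa [norm_neg])
  rw [norm_neg, ← sub_eq_add_neg] at h1
  have h2 : ‖-(Complex.log (1 - w) / 2)‖ ≤ (3 / 4) * ‖w‖ := by
    rw [norm_neg, norm_div]
    have : ‖(2 : ℂ)‖ = 2 := by norm_num
    rw [this]
    linarith
  have h3 := Complex.norm_exp_sub_one_le (x := -(Complex.log (1 - w) / 2)) (by linarith)
  rw [rt]
  linarith [norm_nonneg w]

theorem rt_diff {w : ℂ} (hw : ‖w‖ < 1) : DifferentiableAt ℂ rt w := by
  have h0 : (1 - w) ∈ Complex.slitPlane := by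
    left
    have := Complex.re_le_norm w
    simp only [Complex.sub_re, Complex.one_re]
    linarith
  unfold rt
  have h1 : DifferentiableAt ℂ (fun w : ℂ => Complex.log (1 - w)) w :=
    ((differentiableAt_const _).sub differentiableAt_id).clog h0
  exact ((h1.div_const 2).neg).cexp

end Pool.Agent.MPca0fc2.IN
end

section

/-! Domains with a strictly plurisubharmonic defining function. -/

set_option autoImplicit false

open Metric Set MeasureTheory Filter Topology
open scoped ContDiff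

namespace Pool.Agent.MPca0fc2.LV

open Pool.Agent.MPca0fc2.FD (Ec ee)
open Pool.Agent.Lib.MP_ca0fc2_an (leviForm)

variable {n : ℕ} {D U : Set (Ec n)} {ρ : Ec n → ℝ} {c : ℝ}

/-- PROOF. The set on the right is compact, so closed, and contains `D`; conversely let `ρ z = 0`: `fderiv ℝ ρ z ≠ 0`, so there are
points near `z` with `ρ < 0`. See `FD.sup_closure` (FD/T1). -/
theorem ds_closure (h : DS D U ρ c) : closure D = {z | z ∈ U ∧ ρ z ≤ 0} := by
  apply Subset.antisymm
  · refine closure_minimal ?_ h.cpt.isClosed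
    rw [h.eq]
    exact fun z hz => ⟨hz.1, hz.2.le⟩
  · rintro z ⟨hzU, hz0⟩
    rcases hz0.lt_or_eq with hlt | heq
    · apply subset_closure
      rw [h.eq]
      exact ⟨hzU, hlt⟩
    · have hne := h.nd z hzU heq
      obtain ⟨X0, hX0⟩ : ∃ X, fderiv ℝ ρ z X ≠ 0 := by
        by_contra hcon
        push Not at hcon
        exact hne (by ext X; simpa using hcon X)
      obtain ⟨X, hX⟩ : ∃ X, fderiv ℝ ρ z X < 0 := by
        rcases lt_or_gt_of_ne hX0 with h1 | h1
        · exact ⟨X0, h1⟩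
        · exact ⟨-X0, by rw [map_neg]; linarith⟩
      have hdiff : DifferentiableAt ℝ ρ z :=
        (h.sm.contDiffAt (h.opn.mem_nhds hzU)).differentiableAt (by norm_num)
      have hline : HasDerivAt (fun t : ℝ => ρ (z + t • X)) (fderiv ℝ ρ z X) 0 := by
        have h1 : HasDerivAt (fun t : ℝ => z + t • X) X 0 := by
          simpa using ((hasDerivAt_id (0 : ℝ)).smul_const X).const_add z
        have h2 : HasFDerivAt ρ (fderiv ℝ ρ z) (z + (0 : ℝ) • X) := by
          simpa using hdiff.hasFDerivAt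
        exact h2.comp_hasDerivAt (0 : ℝ) h1
      have hev1 : ∀ᶠ t : ℝ in 𝓝[>] 0, ρ (z + t • X) < 0 := by
        have h3 := (hasDerivAt_iff_tendsto_slope.1 hline).mono_left
          (nhdsWithin_mono (0 : ℝ) (fun t ht => ne_of_gt ht) : 𝓝[>] (0 : ℝ) ≤ 𝓝[≠] 0)
        have h4 := h3.eventually (gt_mem_nhds hX)
        filter_upwards [h4, self_mem_nhdsWithin] with t ht ht0
        have ht0' : (0 : ℝ) < t := ht0
        rw [slope_def_field] at ht
        simp only [zero_smul, add_zero, heq, sub_zero] at ht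
        by_contra hcon
        push Not at hcon
        exact absurd ht (not_lt.2 (div_nonneg hcon ht0'.le))
      have hev2 : ∀ᶠ t : ℝ in 𝓝[>] 0, z + t • X ∈ U := by
        have hc : ContinuousAt (fun t : ℝ => z + t • X) 0 := by fun_prop
        have : ∀ᶠ t : ℝ in 𝓝 0, z + t • X ∈ U := by
          apply hc.eventually
          simpa using h.opn.mem_nhds hzU
        exact this.filter_mono nhdsWithin_le_nhds
      have htend : Tendsto (fun t : ℝ => z + t • X) (𝓝[>] 0) (𝓝 z) := by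
        have hc : ContinuousAt (fun t : ℝ => z + t • X) 0 := by fun_prop
        have := hc.tendsto
        simp only [zero_smul, add_zero] at this
        exact this.mono_left nhdsWithin_le_nhds
      refine mem_closure_of_tendsto htend ?_
      filter_upwards [hev1, hev2] with t h1 h2
      rw [h.eq]
      exact ⟨h2, h1⟩

/-- Restriction to a smaller neighbourhood. PROOF. Clear (`ds_closure`). -/
theorem ds_mono (h : DS D U ρ c) {V : Set (Ec n)} (hV : IsOpen V) (h1 : closure D ⊆ V) :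
    DS D (U ∩ V) ρ c := by
  have hcl := ds_closure h
  have hset : {z | z ∈ U ∩ V ∧ ρ z ≤ 0} = {z | z ∈ U ∧ ρ z ≤ 0} := by
    ext z
    constructor
    · rintro ⟨hz, h0⟩
      exact ⟨hz.1, h0⟩
    · rintro ⟨hz, h0⟩
      exact ⟨⟨hz, h1 (by rw [hcl]; exact ⟨hz, h0⟩)⟩, h0⟩
  refine ⟨h.c0, h.opn.inter hV, h.bdd.subset inter_subset_left, h.sm.mono inter_subset_left,
    ?_, ?_, fun z hz => h.nd z hz.1, fun z hz => h.psh z hz.1⟩
  · ext z
    constructor
    · intro hz
      have hz' := hz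
      rw [h.eq] at hz'
      exact ⟨⟨hz'.1, h1 (subset_closure hz)⟩, hz'.2⟩
    · rintro ⟨hz, h0⟩
      rw [h.eq]
      exact ⟨hz.1, h0⟩
  · rw [hset]
    exact h.cpt

/-- Small neighbourhoods of the closure with an exhaustion function.
PROOF. `K = closure D` is compact in the open set `U ∩ W`. Let `V` be open with compact closure, `K ⊆ V`, `closure V ⊆ U ∩ W`
(`exists_open_between_and_isCompact_closure`). On the compact set `frontier V` (or `closure V \ V`) `ρ > 0`, so there is `ε`,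
`0 < ε < e`, with `ρ ≥ 2 ε` there. `Ω = {z ∈ V | ρ z < ε}`, `ψ z = 1 / (ε - ρ z)`. Sublevel sets:
`ψ z ≤ a`: for `a ≤ 0` empty; for `a > 0` it is `{z ∈ V | ρ z ≤ ε - 1 / a}` `= {z ∈ closure V | ρ z ≤ ε - 1 / a}`, compact.
`lev_comp` with `κ t = 1 / (ε - t)`, `κ' > 0`, `κ'' > 0`, and `psh`. -/
theorem ds_small (h : DS D U ρ c) {W : Set (Ec n)} (hW : IsOpen W) (hDW : closure D ⊆ W) {e : ℝ}
    (he : 0 < e) : ∃ Ω : Set (Ec n), PshEx Ω ∧ IsOpen Ω ∧ closure D ⊆ Ω ∧ Ω ⊆ U ∩ W ∧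
      ∀ z ∈ Ω, ρ z < e := by
  have hcl := ds_closure h
  have hKc : IsCompact (closure D) := by rw [hcl]; exact h.cpt
  have hKU : closure D ⊆ U := by
    rw [hcl]; exact fun z hz => hz.1
  obtain ⟨V, hVo, hKV, hVU, hVc⟩ := exists_open_between_and_isCompact_closure hKc
    (h.opn.inter hW) (subset_inter hKU hDW)
  have hVU1 : closure V ⊆ U := fun z hz => (hVU hz).1
  have hρc : ContinuousOn ρ (closure V) := h.sm.continuousOn.mono hVU1
  have hBc : IsCompact (closure V \ V) := hVc.diff hVo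
  have hB : ∀ z ∈ closure V \ V, 0 < ρ z := by
    intro z hz
    by_contra hcon
    push Not at hcon
    exact hz.2 (hKV (by rw [hcl]; exact ⟨hVU1 hz.1, hcon⟩))
  obtain ⟨ε, hε0, hεe, hεB⟩ : ∃ ε : ℝ, 0 < ε ∧ ε < e ∧ ∀ z ∈ closure V \ V, 2 * ε ≤ ρ z := by
    rcases (closure V \ V).eq_empty_or_nonempty with hemp | hne
    · exact ⟨e / 2, by positivity, by linarith, fun z hz => by rw [hemp] at hz; exact hz.elim⟩
    · obtain ⟨z0, hz0, hmin⟩ := hBc.exists_isMinOn hne (hρc.mono sdiff_subset)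
      refine ⟨min (ρ z0 / 2) (e / 2), lt_min (half_pos (hB z0 hz0)) (half_pos he), ?_, ?_⟩
      · exact lt_of_le_of_lt (min_le_right _ _) (by linarith)
      · intro z hz
        have h2 : ρ z0 ≤ ρ z := hmin hz
        have h3 : min (ρ z0 / 2) (e / 2) ≤ ρ z0 / 2 := min_le_left _ _
        linarith
  have hVsub : V ⊆ U := fun z hz => hVU1 (subset_closure hz)
  have hΩo : IsOpen {z | z ∈ V ∧ ρ z < ε} :=
    (h.sm.continuousOn.mono hVsub).isOpen_inter_preimage hVo isOpen_Iio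
  have hder : ∀ t : ℝ, t ≠ ε → HasDerivAt (fun t : ℝ => (ε - t)⁻¹) (((ε - t) ^ 2)⁻¹) t := by
    intro t ht
    have h1 : HasDerivAt (fun t : ℝ => ε - t) (-1) t := by
      simpa using (hasDerivAt_id t).const_sub ε
    have h2 := h1.inv (sub_ne_zero.2 (Ne.symm ht))
    have h3 : HasDerivAt (fun t : ℝ => (ε - t)⁻¹) (-(-1 : ℝ) / (ε - t) ^ 2) t := h2
    refine h3.congr_deriv ?_
    rw [neg_neg, one_div]
  have hder2 : ∀ t : ℝ, t ≠ ε → HasDerivAt (fun t : ℝ => ((ε - t) ^ 2)⁻¹)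
      (2 * ((ε - t) ^ 3)⁻¹) t := by
    intro t ht
    have hne : ε - t ≠ 0 := sub_ne_zero.2 (Ne.symm ht)
    have h1 : HasDerivAt (fun t : ℝ => ε - t) (-1) t := by
      simpa using (hasDerivAt_id t).const_sub ε
    have h2 := (h1.pow 2).inv (pow_ne_zero 2 hne)
    have h3 : HasDerivAt (fun t : ℝ => ((ε - t) ^ 2)⁻¹)
      (-((2 : ℕ) * (ε - t) ^ (2 - 1) * -1) / ((ε - t) ^ 2) ^ 2) t := h2
    refine h3.congr_deriv ?_
    have hne3 : (ε - t) ^ 3 ≠ 0 := pow_ne_zero 3 hne
    rw [div_eq_iff (pow_ne_zero 2 (pow_ne_zero 2 hne)),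
      show ((ε - t) ^ 2) ^ 2 = (ε - t) ^ 3 * (ε - t) by ring, mul_assoc 2,
      inv_mul_cancel_left₀ hne3]
    push_cast
    ring
  refine ⟨{z | z ∈ V ∧ ρ z < ε}, ⟨fun z => (ε - ρ z)⁻¹, hΩo, ?_, ?_, ?_⟩, hΩo, ?_, ?_, ?_⟩
  · exact (contDiffOn_const.sub (h.sm.mono fun z hz => hVsub hz.1)).inv
      fun z hz => (sub_pos.2 hz.2).ne'
  · intro a
    rcases le_or_gt a 0 with ha | ha
    · have : {z | z ∈ {z | z ∈ V ∧ ρ z < ε} ∧ (ε - ρ z)⁻¹ ≤ a} = ∅ := by
        rw [eq_empty_iff_forall_notMem]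
        rintro z ⟨hz, hza⟩
        have : 0 < (ε - ρ z)⁻¹ := inv_pos.2 (sub_pos.2 hz.2)
        linarith
      rw [this]
      exact isCompact_empty
    · have : {z | z ∈ {z | z ∈ V ∧ ρ z < ε} ∧ (ε - ρ z)⁻¹ ≤ a} =
          closure V ∩ ρ ⁻¹' Iic (ε - a⁻¹) := by
        ext z
        constructor
        · rintro ⟨hz, hza⟩
          refine ⟨subset_closure hz.1, ?_⟩
          have h1 : 0 < ε - ρ z := sub_pos.2 hz.2
          have h2 : a⁻¹ ≤ ε - ρ z := (inv_le_comm₀ h1 ha).1 hza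
          change ρ z ≤ ε - a⁻¹
          linarith
        · rintro ⟨hz, hza⟩
          have hza' : ρ z ≤ ε - a⁻¹ := hza
          have hpos : 0 < a⁻¹ := inv_pos.2 ha
          have hlt : ρ z < ε := by linarith
          have hzV : z ∈ V := by
            by_contra hcon
            have := hεB z ⟨hz, hcon⟩
            linarith
          refine ⟨⟨hzV, hlt⟩, ?_⟩
          exact (inv_le_comm₀ (sub_pos.2 hlt) ha).2 (by linarith)
      rw [this]
      exact hVc.of_isClosed_subset (hρc.preimage_isClosed_of_isClosed isClosed_closure isClosed_Iic)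
        inter_subset_left
  · intro z hz X hX
    have hzU : z ∈ U := hVsub hz.1
    have hne : ρ z ≠ ε := hz.2.ne
    have hρ2 : ContDiffAt ℝ 2 ρ z :=
      (h.sm.contDiffAt (h.opn.mem_nhds hzU)).of_le (by norm_cast)
    have hκ : ContDiffAt ℝ 2 (fun t : ℝ => (ε - t)⁻¹) (ρ z) :=
      (contDiffAt_const.sub contDiffAt_id).inv (sub_ne_zero.2 (Ne.symm hne))
    have hl := lev_comp (κ := fun t : ℝ => (ε - t)⁻¹) hκ hρ2 X
    have e1 : deriv (fun t : ℝ => (ε - t)⁻¹) (ρ z) = ((ε - ρ z) ^ 2)⁻¹ := (hder _ hne).deriv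
    have e2 : deriv (deriv (fun t : ℝ => (ε - t)⁻¹)) (ρ z) = 2 * ((ε - ρ z) ^ 3)⁻¹ := by
      have : deriv (fun t : ℝ => (ε - t)⁻¹) =ᶠ[𝓝 (ρ z)] fun t => ((ε - t) ^ 2)⁻¹ := by
        filter_upwards [isOpen_ne.mem_nhds hne] with t ht
        exact (hder t ht).deriv
      rw [this.deriv_eq]
      exact (hder2 _ hne).deriv
    rw [e1, e2] at hl
    rw [hl]
    have hpos : 0 < ε - ρ z := sub_pos.2 hz.2
    have hX2 : 0 < ‖X‖ ^ 2 := by
      have : 0 < ‖X‖ := norm_pos_iff.2 hX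
      positivity
    have hlev : 0 < leviForm ρ z X := lt_of_lt_of_le (mul_pos h.c0 hX2) (h.psh z hzU X)
    have t1 : 0 < ((ε - ρ z) ^ 2)⁻¹ * leviForm ρ z X := mul_pos (by positivity) hlev
    have t2 : 0 ≤ 2 * ((ε - ρ z) ^ 3)⁻¹ *
        ((fderiv ℝ ρ z X) ^ 2 + (fderiv ℝ ρ z (Complex.I • X)) ^ 2) / 4 := by positivity
    linarith
  · intro z hz
    refine ⟨hKV hz, ?_⟩
    rw [hcl] at hz
    exact lt_of_le_of_lt hz.2 hε0
  · intro z hz
    exact hVU (subset_closure hz.1)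
  · intro z hz
    exact lt_trans hz.2 hεe

end Pool.Agent.MPca0fc2.LV
end
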