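import Mathlib
import Pool.Agent.Lib.MP_ca0fc2_an.Mg.G062
import Pool.Agent.Lib.MP_ca0fc2_an.Mg.G049
import Pool.Agent.Lib.MP_ca0fc2_an.Mg.G061

section

/-! The local lemma for finitely many functions which are algebraic over one function. -/

set_option autoImplicit false

open Metric Set Filter Topology Polynomial

namespace Pool.Agent.MPca0fc2.IN

open Pool.Agent.Lib.MP_ca0fc2_an

variable {E : Type*} [NormedAddCommGroup E] [NormedSpace ℂ E]

theorem diff_prod {ι : Type*} (s : Finset ι) {e : ι → E → ℂ} {D : Set E}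
    (he : ∀ j, DifferentiableOn ℂ (e j) D) : DifferentiableOn ℂ (fun z => ∏ i ∈ s, e i z) D := by
  classical
  induction s using Finset.induction_on with
  | empty => simpa using differentiableOn_const (1 : ℂ)
  | insert a s has ih =>
    simp only [Finset.prod_insert has]
    exact (he a).mul ih

/-- The product of functions which are idempotent modulo `x`, one of which is small wherever `x` is
small, is a multiple of `x`. -/
theorem prod_div {N : ℕ} {B τ C' : ℝ} (hB : 1 ≤ B) (hτ : 0 < τ) (hC' : 0 ≤ C') {D : Set E}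
    {x : E → ℂ} {e Θ : Fin N → E → ℂ} (hx : DifferentiableOn ℂ x D)
    (he : ∀ j, DifferentiableOn ℂ (e j) D) (hΘ : ∀ j, DifferentiableOn ℂ (Θ j) D)
    (heB : ∀ j, ∀ z ∈ D, ‖e j z‖ ≤ B) (hΘB : ∀ j, ∀ z ∈ D, ‖Θ j z‖ ≤ C')
    (hid : ∀ j, ∀ z ∈ D, e j z * (1 - e j z) = x z * Θ j z)
    (hsm : ∀ z ∈ D, ‖x z‖ < τ → ∃ j, ‖e j z‖ ≤ 1 / 8) :
    ∃ h : E → ℂ, DifferentiableOn ℂ h D ∧ (∀ z ∈ D, ‖h z‖ ≤ B ^ N / τ + 2 * (B ^ N * C')) ∧
      ∀ z ∈ D, x z * h z = ∏ j, e j z := by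
  classical
  obtain ⟨h, hh⟩ : ∃ h : E → ℂ, h = fun z => if x z = 0 then
    ∑ j, Θ j z * ∏ i ∈ Finset.univ.erase j, e i z else (∏ j, e j z) / x z := ⟨_, rfl⟩
  have h1e : ∀ {w : ℂ}, ‖w‖ < 1 / 2 → 1 - w ≠ 0 := by
    intro w hw h
    have : w = 1 := by linear_combination -h
    rw [this, norm_one] at hw
    norm_num at hw
  -- the formula near the points where one of the functions is small
  have hB' : ∀ z ∈ D, ∀ j, ‖e j z‖ < 1 / 2 →
      h z = (∏ i ∈ Finset.univ.erase j, e i z) * Θ j z / (1 - e j z) := by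
    intro z hz j hj
    have h1 := h1e hj
    have h2 := hid j z hz
    rw [hh]
    beta_reduce
    by_cases hxz : x z = 0
    · rw [if_pos hxz]
      rw [hxz, zero_mul] at h2
      have h3 : e j z = 0 := (mul_eq_zero.1 h2).resolve_right h1
      rw [Finset.sum_eq_single j]
      · rw [h3, sub_zero, div_one, mul_comm]
      · intro k _ hkj
        rw [Finset.prod_eq_zero (i := j)]
        · rw [mul_zero]
        · exact Finset.mem_erase.2 ⟨Ne.symm hkj, Finset.mem_univ _⟩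
        · exact h3
      · intro hj'
        exact absurd (Finset.mem_univ _) hj'
    · rw [if_neg hxz, ← Finset.mul_prod_erase Finset.univ (fun i => e i z) (Finset.mem_univ j)]
      rw [div_eq_div_iff hxz h1]
      linear_combination (∏ i ∈ Finset.univ.erase j, e i z) * h2
  have hpr : ∀ z ∈ D, ∀ s : Finset (Fin N), ‖∏ i ∈ s, e i z‖ ≤ B ^ N := by
    intro z hz s
    rw [norm_prod]
    calc ∏ i ∈ s, ‖e i z‖ ≤ ∏ i ∈ s, B :=
          Finset.prod_le_prod (fun _ _ => norm_nonneg _) fun i _ => heB i z hz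
      _ = B ^ s.card := by rw [Finset.prod_const]
      _ ≤ B ^ N := by
          apply pow_le_pow_right₀ hB
          calc s.card ≤ (Finset.univ : Finset (Fin N)).card := Finset.card_le_univ _
            _ = N := by simp
  have hprd : ∀ s : Finset (Fin N), DifferentiableOn ℂ (fun z => ∏ i ∈ s, e i z) D :=
    fun s => diff_prod s he
  have hBN : 0 < B ^ N := by positivity
  refine ⟨h, ?_, ?_, ?_⟩
  · intro z hz
    by_cases hxz : x z = 0
    · obtain ⟨j, hj⟩ := hsm z hz (by rw [hxz, norm_zero]; exact hτ)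
      have hj' : ‖e j z‖ < 1 / 2 := by linarith
      have hev : ∀ᶠ w in 𝓝[D] z, ‖e j w‖ < 1 / 2 :=
        ((he j).continuousOn z hz).norm.eventually (gt_mem_nhds hj')
      have hd : DifferentiableWithinAt ℂ
          (fun z => (∏ i ∈ Finset.univ.erase j, e i z) * Θ j z / (1 - e j z)) D z := by
        simp only [div_eq_mul_inv]
        exact ((hprd _ z hz).mul (hΘ j z hz)).mul (((he j z hz).const_sub 1).inv (h1e hj'))
      refine hd.congr_of_eventuallyEq ?_ (hB' z hz j hj')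
      filter_upwards [hev, self_mem_nhdsWithin] with w hw hwD
      exact hB' w hwD j hw
    · have hev : ∀ᶠ w in 𝓝[D] z, x w ≠ 0 :=
        (hx.continuousOn z hz).eventually (isOpen_ne.mem_nhds hxz)
      have hd : DifferentiableWithinAt ℂ (fun z => (∏ j, e j z) / x z) D z := by
        simp only [div_eq_mul_inv]
        exact (hprd Finset.univ z hz).mul ((hx z hz).inv hxz)
      refine hd.congr_of_eventuallyEq ?_ ?_
      · filter_upwards [hev] with w hw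
        rw [hh]
        beta_reduce
        rw [if_neg hw]
      · rw [hh]
        beta_reduce
        rw [if_neg hxz]
  · intro z hz
    by_cases hxt : ‖x z‖ < τ
    · obtain ⟨j, hj⟩ := hsm z hz hxt
      rw [hB' z hz j (by linarith), norm_div, norm_mul]
      have h1 : 1 / 2 ≤ ‖1 - e j z‖ := by
        have := norm_sub_norm_le (1 : ℂ) (e j z)
        rw [norm_one] at this
        linarith
      have h2 : ‖∏ i ∈ Finset.univ.erase j, e i z‖ * ‖Θ j z‖ ≤ B ^ N * C' :=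
        mul_le_mul (hpr z hz _) (hΘB j z hz) (norm_nonneg _) hBN.le
      have h3 : 0 ≤ B ^ N / τ := by positivity
      rw [div_le_iff₀ (by linarith)]
      have h4 : 0 ≤ B ^ N * C' := by positivity
      nlinarith
    · push Not at hxt
      have hxz : x z ≠ 0 := by
        intro h
        rw [h, norm_zero] at hxt
        linarith
      have h4 : 0 ≤ B ^ N * C' := by positivity
      rw [hh]
      beta_reduce
      rw [if_neg hxz, norm_div]
      have : ‖∏ j, e j z‖ / ‖x z‖ ≤ B ^ N / τ :=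
        div_le_div₀ hBN.le (hpr z hz _) hτ hxt
      linarith
  · intro z hz
    by_cases hxz : x z = 0
    · obtain ⟨j, hj⟩ := hsm z hz (by rw [hxz, norm_zero]; exact hτ)
      have h1 := h1e (w := e j z) (by linarith)
      have h2 := hid j z hz
      rw [hxz, zero_mul] at h2
      have h3 : e j z = 0 := (mul_eq_zero.1 h2).resolve_right h1
      rw [hxz, zero_mul, Finset.prod_eq_zero (Finset.mem_univ j) h3]
    · rw [hh]
      beta_reduce
      rw [if_neg hxz]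
      field_simp

end Pool.Agent.MPca0fc2.IN
end

section

/-! Families of bounded holomorphic functions on a family of sets `D`, modulo a function `x`. -/

set_option autoImplicit false

open Metric Set Filter Topology

namespace Pool.Agent.MPca0fc2.IND

variable {E : Type*} [NormedAddCommGroup E] [NormedSpace ℂ E] {Δ : Set E}

/-- a set and a function on it -/
abbrev Wd (E : Type*) := Set E × (E → ℂ)

/-- a family of functions -/
abbrev Fam (E : Type*) := Wd E → E → ℂ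

/-- the function `x` as a family -/
def xf : Fam E := fun w => w.2

/-- a global function as a family -/
def gl (f : E → ℂ) : Fam E := fun _ => f

/-- The filter consists of open-like data: the sets are subsets of the domain and the functions `x` are
holomorphic on them. -/
structure Good (Δ : Set E) (𝓕 : Filter (Wd E)) : Prop where
  sub : ∀ᶠ w in 𝓕, w.1 ⊆ Δ
  diff : ∀ᶠ w in 𝓕, DifferentiableOn ℂ w.2 w.1

/-- Bounded families of holomorphic functions. -/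
def BW (𝓕 : Filter (Wd E)) (q : Fam E) : Prop :=
  ∃ C : ℝ, ∀ᶠ w in 𝓕, DifferentiableOn ℂ (q w) w.1 ∧ ∀ z ∈ w.1, ‖q w z‖ ≤ C

/-- The family is at most `θ`, modulo `x`. -/
def NB (𝓕 : Filter (Wd E)) (q : Fam E) (θ : ℝ) : Prop :=
  ∃ Ψ : Fam E, BW 𝓕 Ψ ∧ ∀ᶠ w in 𝓕, ∀ z ∈ w.1, ‖q w z - w.2 z * Ψ w z‖ ≤ θ

/-- The spectral radius of the family modulo `x` is at most `ε`. -/
def Rad (𝓕 : Filter (Wd E)) (q : Fam E) (ε : ℝ) : Prop :=
  ∃ C : ℝ, 0 ≤ C ∧ ∀ p : ℕ, NB 𝓕 (q ^ p) (C * ε ^ p)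

variable {𝓕 : Filter (Wd E)} {q q' : Fam E} {θ θ' ε ε' : ℝ}

theorem BW.bdd' (h : BW 𝓕 q) : ∃ C : ℝ, 0 ≤ C ∧
    ∀ᶠ w in 𝓕, DifferentiableOn ℂ (q w) w.1 ∧ ∀ z ∈ w.1, ‖q w z‖ ≤ C := by
  obtain ⟨C, hC⟩ := h
  exact ⟨|C|, abs_nonneg _, hC.mono fun w hw => ⟨hw.1, fun z hz =>
    (hw.2 z hz).trans (le_abs_self _)⟩⟩

theorem BW.const (c : ℂ) : BW 𝓕 (fun _ _ => c : Fam E) :=
  ⟨‖c‖, Eventually.of_forall fun _ => ⟨differentiableOn_const _, fun _ _ => le_rfl⟩⟩

theorem BW.one : BW 𝓕 (1 : Fam E) := BW.const 1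

theorem BW.add (h : BW 𝓕 q) (h' : BW 𝓕 q') : BW 𝓕 (q + q') := by
  obtain ⟨C, hC⟩ := h
  obtain ⟨C', hC'⟩ := h'
  refine ⟨C + C', (hC.and hC').mono fun w hw => ⟨hw.1.1.add hw.2.1, fun z hz => ?_⟩⟩
  exact (norm_add_le _ _).trans (add_le_add (hw.1.2 z hz) (hw.2.2 z hz))

theorem BW.mul (h : BW 𝓕 q) (h' : BW 𝓕 q') : BW 𝓕 (q * q') := by
  obtain ⟨C, hC0, hC⟩ := h.bdd'
  obtain ⟨C', hC'⟩ := h'
  refine ⟨C * C', (hC.and hC').mono fun w hw => ⟨hw.1.1.mul hw.2.1, fun z hz => ?_⟩⟩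
  show ‖q w z * q' w z‖ ≤ _
  rw [norm_mul]
  exact mul_le_mul (hw.1.2 z hz) (hw.2.2 z hz) (norm_nonneg _) hC0

theorem BW.neg (h : BW 𝓕 q) : BW 𝓕 (-q) := by
  obtain ⟨C, hC⟩ := h
  refine ⟨C, hC.mono fun w hw => ⟨hw.1.neg, fun z hz => ?_⟩⟩
  show ‖-(q w z)‖ ≤ _
  rw [norm_neg]
  exact hw.2 z hz

theorem BW.sub (h : BW 𝓕 q) (h' : BW 𝓕 q') : BW 𝓕 (q - q') := by
  rw [sub_eq_add_neg]
  exact h.add h'.neg

theorem BW.pow (h : BW 𝓕 q) (p : ℕ) : BW 𝓕 (q ^ p) := by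
  induction p with
  | zero => rw [pow_zero]; exact BW.one
  | succ p ih => rw [pow_succ]; exact ih.mul h

theorem BW.sum {κ : Type*} {s : Finset κ} {q : κ → Fam E} (h : ∀ k ∈ s, BW 𝓕 (q k)) :
    BW 𝓕 (∑ k ∈ s, q k) := by
  classical
  induction s using Finset.induction_on with
  | empty => rw [Finset.sum_empty]; exact BW.const 0
  | insert a s has ih =>
    rw [Finset.sum_insert has]
    exact (h a (Finset.mem_insert_self _ _)).add
      (ih fun k hk => h k (Finset.mem_insert_of_mem hk))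

theorem BW.prod {κ : Type*} {s : Finset κ} {q : κ → Fam E} (h : ∀ k ∈ s, BW 𝓕 (q k)) :
    BW 𝓕 (∏ k ∈ s, q k) := by
  classical
  induction s using Finset.induction_on with
  | empty => rw [Finset.prod_empty]; exact BW.one
  | insert a s has ih =>
    rw [Finset.prod_insert has]
    exact (h a (Finset.mem_insert_self _ _)).mul
      (ih fun k hk => h k (Finset.mem_insert_of_mem hk))

theorem BW.gl (hg : Good Δ 𝓕) {f : E → ℂ} (hf : DifferentiableOn ℂ f Δ) {M : ℝ}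
    (hM : ∀ z ∈ Δ, ‖f z‖ ≤ M) : BW 𝓕 (gl f) :=
  ⟨M, hg.sub.mono fun _ hw => ⟨hf.mono hw, fun z hz => hM z (hw hz)⟩⟩

theorem NB.mono (h : NB 𝓕 q θ) (hθ : θ ≤ θ') : NB 𝓕 q θ' := by
  obtain ⟨Ψ, h1, h2⟩ := h
  exact ⟨Ψ, h1, h2.mono fun w hw z hz => (hw z hz).trans hθ⟩

theorem NB.of_bdd (h : ∀ᶠ w in 𝓕, ∀ z ∈ w.1, ‖q w z‖ ≤ θ) : NB 𝓕 q θ :=
  ⟨0, BW.const 0, h.mono fun w hw z hz => by
    show ‖q w z - w.2 z * 0‖ ≤ θ
    rw [mul_zero, sub_zero]
    exact hw z hz⟩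

theorem NB.const (c : ℂ) : NB 𝓕 (fun _ _ => c : Fam E) ‖c‖ :=
  NB.of_bdd (Eventually.of_forall fun _ _ _ => le_rfl)

theorem NB.one : NB 𝓕 (1 : Fam E) 1 := by
  have := NB.const (𝓕 := 𝓕) (1 : ℂ)
  rw [norm_one] at this
  exact this

theorem NB.xmul {Ψ : Fam E} (h : BW 𝓕 Ψ) : NB 𝓕 (xf * Ψ) 0 :=
  ⟨Ψ, h, Eventually.of_forall fun w z _ => by
    show ‖w.2 z * Ψ w z - w.2 z * Ψ w z‖ ≤ 0
    rw [sub_self, norm_zero]⟩

theorem NB.add (h : NB 𝓕 q θ) (h' : NB 𝓕 q' θ') : NB 𝓕 (q + q') (θ + θ') := by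
  obtain ⟨Ψ, h1, h2⟩ := h
  obtain ⟨Ψ', h1', h2'⟩ := h'
  refine ⟨Ψ + Ψ', h1.add h1', (h2.and h2').mono fun w hw z hz => ?_⟩
  have e : (q + q') w z - w.2 z * (Ψ + Ψ') w z =
      (q w z - w.2 z * Ψ w z) + (q' w z - w.2 z * Ψ' w z) := by
    simp only [Pi.add_apply]
    ring
  rw [e]
  exact (norm_add_le _ _).trans (add_le_add (hw.1 z hz) (hw.2 z hz))

theorem NB.neg (h : NB 𝓕 q θ) : NB 𝓕 (-q) θ := by
  obtain ⟨Ψ, h1, h2⟩ := h
  refine ⟨-Ψ, h1.neg, h2.mono fun w hw z hz => ?_⟩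
  have e : (-q) w z - w.2 z * (-Ψ) w z = -(q w z - w.2 z * Ψ w z) := by
    simp only [Pi.neg_apply]
    ring
  rw [e, norm_neg]
  exact hw z hz

theorem NB.sub (h : NB 𝓕 q θ) (h' : NB 𝓕 q' θ') : NB 𝓕 (q - q') (θ + θ') := by
  rw [sub_eq_add_neg]
  exact h.add h'.neg

theorem NB.sum {κ : Type*} {s : Finset κ} {q : κ → Fam E} {θ : κ → ℝ}
    (h : ∀ k ∈ s, NB 𝓕 (q k) (θ k)) : NB 𝓕 (∑ k ∈ s, q k) (∑ k ∈ s, θ k) := by
  classical
  induction s using Finset.induction_on with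
  | empty =>
    rw [Finset.sum_empty, Finset.sum_empty]
    have := NB.const (𝓕 := 𝓕) (0 : ℂ)
    rw [norm_zero] at this
    exact this
  | insert a s has ih =>
    rw [Finset.sum_insert has, Finset.sum_insert has]
    exact (h a (Finset.mem_insert_self _ _)).add
      (ih fun k hk => h k (Finset.mem_insert_of_mem hk))

theorem NB.mul (hg : Good Δ 𝓕) (hq : BW 𝓕 q) (hq' : BW 𝓕 q') (h : NB 𝓕 q θ) (h' : NB 𝓕 q' θ')
    (hθ : 0 ≤ θ) : NB 𝓕 (q * q') (θ * θ') := by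
  obtain ⟨Ψ, h1, h2⟩ := h
  obtain ⟨Ψ', h1', h2'⟩ := h'
  have h3 : BW 𝓕 (q - xf * Ψ) := by
    obtain ⟨C, hC⟩ := hq
    obtain ⟨C', hC'⟩ := h1
    exact ⟨θ, (((hC.and hC').and hg.diff).and h2).mono fun w hw =>
      ⟨hw.1.1.1.1.sub (hw.1.2.mul hw.1.1.2.1), fun z hz => hw.2 z hz⟩⟩
  refine ⟨Ψ * q' + (q - xf * Ψ) * Ψ', (h1.mul hq').add (h3.mul h1'),
    (h2.and h2').mono fun w hw z hz => ?_⟩
  have e : (q * q') w z - w.2 z * (Ψ * q' + (q - xf * Ψ) * Ψ' : Fam E) w z =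
      (q w z - w.2 z * Ψ w z) * (q' w z - w.2 z * Ψ' w z) := by
    simp only [Pi.add_apply, Pi.mul_apply, Pi.sub_apply, xf]
    ring
  rw [e, norm_mul]
  exact mul_le_mul (hw.1 z hz) (hw.2 z hz) (norm_nonneg _) hθ

/-- Families which are arbitrarily small modulo `x`. -/
def N0 (𝓕 : Filter (Wd E)) (q : Fam E) : Prop := ∀ θ : ℝ, 0 < θ → NB 𝓕 q θ

theorem BW.nb (h : BW 𝓕 q) : ∃ θ : ℝ, 0 < θ ∧ NB 𝓕 q θ := by
  obtain ⟨C, hC0, hC⟩ := h.bdd'
  exact ⟨C + 1, by linarith, NB.of_bdd (hC.mono fun w hw z hz => (hw.2 z hz).trans (by linarith))⟩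

theorem N0.add (h : N0 𝓕 q) (h' : N0 𝓕 q') : N0 𝓕 (q + q') := by
  intro θ hθ
  have := (h (θ / 2) (by positivity)).add (h' (θ / 2) (by positivity))
  rwa [add_halves] at this

theorem N0.neg (h : N0 𝓕 q) : N0 𝓕 (-q) := fun θ hθ => (h θ hθ).neg

theorem N0.sub (h : N0 𝓕 q) (h' : N0 𝓕 q') : N0 𝓕 (q - q') := by
  rw [sub_eq_add_neg]
  exact h.add h'.neg

theorem N0.mul (hg : Good Δ 𝓕) (hq : BW 𝓕 q) (hq' : BW 𝓕 q') (h : N0 𝓕 q) : N0 𝓕 (q * q') := by
  intro θ hθ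
  obtain ⟨C, hC0, hC⟩ := hq'.nb
  have := (h (θ / C) (by positivity)).mul hg hq hq' hC (by positivity)
  rwa [div_mul_cancel₀ _ hC0.ne'] at this

theorem N0.zero : N0 𝓕 (0 : Fam E) := by
  intro θ hθ
  have := NB.const (𝓕 := 𝓕) (0 : ℂ)
  rw [norm_zero] at this
  exact NB.mono (q := (0 : Fam E)) this hθ.le

theorem N0.xmul {Ψ : Fam E} (h : BW 𝓕 Ψ) : N0 𝓕 (xf * Ψ) := fun _ hθ => (NB.xmul h).mono hθ.le

theorem NB.of_N0 (h : NB 𝓕 q θ) (h' : N0 𝓕 (q' - q)) (hθ : θ < θ') : NB 𝓕 q' θ' := by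
  have h1 := h.add (h' (θ' - θ) (by linarith))
  rw [add_sub_cancel, add_sub_cancel] at h1
  exact h1

theorem Rad.mono (h : Rad 𝓕 q ε) (h0 : 0 ≤ ε) (hε : ε ≤ ε') : Rad 𝓕 q ε' := by
  obtain ⟨C, hC, h1⟩ := h
  refine ⟨C, hC, fun p => (h1 p).mono ?_⟩
  exact mul_le_mul_of_nonneg_left (pow_le_pow_left₀ h0 hε p) hC

theorem Rad.mul (hg : Good Δ 𝓕) (hq : BW 𝓕 q) (hq' : BW 𝓕 q') (h : Rad 𝓕 q ε) (h' : Rad 𝓕 q' ε')
    (hε : 0 ≤ ε) : Rad 𝓕 (q * q') (ε * ε') := by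
  obtain ⟨C, hC, h1⟩ := h
  obtain ⟨C', hC', h1'⟩ := h'
  refine ⟨C * C', by positivity, fun p => ?_⟩
  have h2 := (h1 p).mul hg (hq.pow p) (hq'.pow p) (h1' p) (by positivity)
  rw [mul_pow q q' p, mul_pow ε ε' p]
  have e : C * C' * (ε ^ p * ε' ^ p) = C * ε ^ p * (C' * ε' ^ p) := by ring
  rw [e]
  exact h2

theorem NB.smul_nat (h : NB 𝓕 q θ) (k : ℕ) : NB 𝓕 (q * (k : Fam E)) (θ * k) := by
  obtain ⟨Ψ, h1, h2⟩ := h
  refine ⟨Ψ * (k : Fam E), h1.mul (BW.const (k : ℂ)), h2.mono fun w hw z hz => ?_⟩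
  have e : (q * (k : Fam E)) w z - w.2 z * (Ψ * (k : Fam E)) w z =
      (q w z - w.2 z * Ψ w z) * (k : ℂ) := by
    simp only [Pi.mul_apply, Pi.natCast_apply]
    ring
  rw [e, norm_mul, Complex.norm_natCast]
  exact mul_le_mul_of_nonneg_right (hw z hz) (Nat.cast_nonneg _)

theorem Rad.add (hg : Good Δ 𝓕) (hq : BW 𝓕 q) (hq' : BW 𝓕 q') (h : Rad 𝓕 q ε) (h' : Rad 𝓕 q' ε')
    (hε : 0 ≤ ε) (hε' : 0 ≤ ε') : Rad 𝓕 (q + q') (ε + ε') := by
  obtain ⟨C, hC, h1⟩ := h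
  obtain ⟨C', hC', h1'⟩ := h'
  refine ⟨C * C', by positivity, fun p => ?_⟩
  rw [add_pow q q' p, add_pow ε ε' p, Finset.mul_sum]
  refine NB.sum fun m _ => ?_
  have h2 := ((h1 m).mul hg (hq.pow m) (hq'.pow (p - m)) (h1' (p - m)) (by positivity)).smul_nat
    (p.choose m)
  have e : C * C' * (ε ^ m * ε' ^ (p - m) * (p.choose m : ℝ)) =
      C * ε ^ m * (C' * ε' ^ (p - m)) * (p.choose m : ℝ) := by ring
  rw [e]
  exact h2

theorem Rad.of_NB (hg : Good Δ 𝓕) (hq : BW 𝓕 q) (h : NB 𝓕 q ε) (hε : 0 ≤ ε) : Rad 𝓕 q ε := by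
  refine ⟨1, zero_le_one, fun p => ?_⟩
  rw [one_mul]
  induction p with
  | zero => rw [pow_zero, pow_zero]; exact NB.one
  | succ p ih =>
    rw [pow_succ, pow_succ]
    exact ih.mul hg (hq.pow p) hq h (by positivity)

theorem Rad.neg (h : Rad 𝓕 q ε) : Rad 𝓕 (-q) ε := by
  obtain ⟨C, hC, h1⟩ := h
  refine ⟨C, hC, fun p => ?_⟩
  rcases Nat.even_or_odd p with hp | hp
  · rw [hp.neg_pow]; exact h1 p
  · rw [hp.neg_pow]; exact (h1 p).neg

/-- The spectral radius from one power. -/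
theorem Rad.of_pow (hg : Good Δ 𝓕) (hq : BW 𝓕 q) {K : ℕ} (hK : 1 ≤ K) (hε : 0 < ε)
    (h : Rad 𝓕 (q ^ K) (ε ^ K)) : Rad 𝓕 q ε := by
  obtain ⟨C, hC, h1⟩ := h
  choose B hB0 hB using fun r : ℕ => (hq.pow r).nb
  obtain ⟨S, hS⟩ : ∃ S : ℝ, S = ∑ r ∈ Finset.range K, B r / ε ^ r := ⟨_, rfl⟩
  have hS0 : ∀ r, 0 ≤ B r / ε ^ r := fun r => by
    have := hB0 r
    positivity
  have hS1 : 0 ≤ S := by rw [hS]; exact Finset.sum_nonneg fun r _ => hS0 r
  refine ⟨C * S, by positivity, fun p => ?_⟩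
  have hp : p = K * (p / K) + p % K := (Nat.div_add_mod p K).symm
  have hr : p % K < K := Nat.mod_lt _ (by omega)
  have h2 := (h1 (p / K)).mul hg ((hq.pow K).pow _) (hq.pow (p % K)) (hB (p % K)) (by positivity)
  have e1 : (q ^ K) ^ (p / K) * q ^ (p % K) = q ^ p := by
    rw [← pow_mul, ← pow_add, ← hp]
  rw [e1] at h2
  refine h2.mono ?_
  have h3 : B (p % K) / ε ^ (p % K) ≤ S := by
    rw [hS]
    exact Finset.single_le_sum (f := fun r => B r / ε ^ r) (fun r _ => hS0 r)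
      (Finset.mem_range.2 hr)
  have h4 : B (p % K) ≤ S * ε ^ (p % K) := by
    rwa [div_le_iff₀ (by positivity)] at h3
  have e2 : (ε ^ K) ^ (p / K) * ε ^ (p % K) = ε ^ p := by
    rw [← pow_mul, ← pow_add, ← hp]
  calc C * (ε ^ K) ^ (p / K) * B (p % K) ≤ C * (ε ^ K) ^ (p / K) * (S * ε ^ (p % K)) := by
        gcongr
    _ = C * S * ((ε ^ K) ^ (p / K) * ε ^ (p % K)) := by ring
    _ = C * S * ε ^ p := by rw [e2]

/-- Powers of an idempotent. -/
theorem idem_pow (hg : Good Δ 𝓕) {e : Fam E} (he : BW 𝓕 e) (h : N0 𝓕 (e * (1 - e))) (p : ℕ) :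
    N0 𝓕 (e ^ (p + 1) - e) := by
  induction p with
  | zero => rw [zero_add, pow_one, sub_self]; exact N0.zero
  | succ p ih =>
    have e1 : e ^ (p + 1 + 1) - e = (e ^ (p + 1) - e) * e - e * (1 - e) := by ring
    rw [e1]
    exact (ih.mul hg ((he.pow _).sub he) he).sub h

theorem idem_rad (hg : Good Δ 𝓕) {e : Fam E} (he : BW 𝓕 e) (h : N0 𝓕 (e * (1 - e))) :
    Rad 𝓕 e 1 := by
  obtain ⟨B, hB0, hB⟩ := he.nb
  refine ⟨B + 2, by linarith, fun p => ?_⟩
  rw [one_pow, mul_one]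
  rcases p with _ | p
  · rw [pow_zero]; exact NB.one.mono (by linarith)
  · exact hB.of_N0 (idem_pow hg he h p) (by linarith)

/-- The product of two idempotents. -/
theorem idem_mul (hg : Good Δ 𝓕) {e e' : Fam E} (he : BW 𝓕 e) (he' : BW 𝓕 e')
    (h : N0 𝓕 (e * (1 - e))) (h' : N0 𝓕 (e' * (1 - e'))) :
    N0 𝓕 (e * e' * (1 - e * e')) := by
  have e1 : e * e' * (1 - e * e') = (e * (1 - e)) * e' + (e' * (1 - e')) * (e * e) := by ring
  rw [e1]
  exact (h.mul hg (he.mul (BW.one.sub he)) he').add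
    (h'.mul hg (he'.mul (BW.one.sub he')) (he.mul he))

theorem Rad.congr (hg : Good Δ 𝓕) (hq : BW 𝓕 q) (hq' : BW 𝓕 q') (h : Rad 𝓕 q ε) (hε : 0 < ε)
    (h' : N0 𝓕 (q' - q)) : Rad 𝓕 q' ε := by
  have hp : ∀ p : ℕ, N0 𝓕 (q' ^ p - q ^ p) := by
    intro p
    induction p with
    | zero => rw [pow_zero, pow_zero, sub_self]; exact N0.zero
    | succ p ih =>
      have e1 : q' ^ (p + 1) - q ^ (p + 1) = (q' ^ p - q ^ p) * q' + (q' - q) * q ^ p := by ring
      rw [e1]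
      exact (ih.mul hg ((hq'.pow _).sub (hq.pow _)) hq').add
        (h'.mul hg (hq'.sub hq) (hq.pow _))
  obtain ⟨C, hC, h1⟩ := h
  refine ⟨C + 1, by linarith, fun p => (h1 p).of_N0 (hp p) ?_⟩
  have : 0 < ε ^ p := by positivity
  nlinarith

end Pool.Agent.MPca0fc2.IND
end

section

/-! Good neighbourhoods. -/

set_option autoImplicit false

open Metric Set MeasureTheory Filter Topology
open scoped ContDiff

namespace Pool.Agent.MPca0fc2.LV

open Pool.Agent.MPca0fc2.FD (Ec ee)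
open Pool.Agent.Lib.MP_ca0fc2_an (leviForm IsStrictlyPseudoconvex)

variable {n : ℕ}

/-- A good neighbourhood of the closure.
PROOF. The set `T₁` of the points `z ∈ W` with `fderiv ℝ ρ z ≠ 0` and `leviForm ρ z X > 0` for all `X ≠ 0` is open (`lev_cont`,
compactness of the sphere) and contains the compact set `frontier D`. Let `T` be open with compact closure in `T₁`,
`frontier D ⊆ T`. On `closure T`: `leviForm ρ z X ≥ c ‖X‖²` (`lev_min`). `U = D ∪ T`: open, contains `closure D`, and its closure is in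
`closure D ∪ closure T ⊆ W`, compact. If `z ∈ T`, `ρ z ≤ 0`: if `ρ z < 0` then `z ∈ D`; if `ρ z = 0` then, as `fderiv ℝ ρ z ≠ 0`, `z` is a limit of
points with `ρ < 0`, so `z ∈ closure D`. `closure D \ T` is compact in `D`, so `ρ < -3 ε` there for some `ε > 0`. -/
theorem good_nbhd {D W : Set (Ec n)} {ρ : Ec n → ℝ} (hb : Bornology.IsBounded D) (hW : IsOpen W)
    (hDW : closure D ⊆ W) (hρ : ContDiffOn ℝ ∞ ρ W) (hD : D = {z | z ∈ W ∧ ρ z < 0})
    (hf : ∀ z ∈ frontier D, fderiv ℝ ρ z ≠ 0 ∧ ∀ X : Ec n, X ≠ 0 → 0 < leviForm ρ z X) :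
    ∃ (U : Set (Ec n)) (ε c : ℝ), IsOpen U ∧ closure D ⊆ U ∧ IsCompact (closure U) ∧ closure U ⊆ W ∧
      0 < ε ∧ 0 < c ∧ {z | z ∈ U ∧ ρ z ≤ 0} = closure D ∧
      ∀ z ∈ U, -(3 * ε) ≤ ρ z → fderiv ℝ ρ z ≠ 0 ∧ ∀ X : Ec n, c * ‖X‖ ^ 2 ≤ leviForm ρ z X := by
  have hcW : ∀ z ∈ W, ContinuousAt ρ z := fun z hz =>
    hρ.continuousOn.continuousAt (hW.mem_nhds hz)
  have hDo : IsOpen D := by
    have h1 : D = W ∩ ρ ⁻¹' Set.Iio 0 := by
      rw [hD]
      rfl
    rw [h1]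
    exact hρ.continuousOn.isOpen_inter_preimage hW isOpen_Iio
  have hle : ∀ z ∈ closure D, ρ z ≤ 0 := by
    intro z hz
    by_contra hlt
    rw [not_le] at hlt
    have h1 : ∀ᶠ w in 𝓝 z, 0 < ρ w := (hcW z (hDW hz)).eventually (lt_mem_nhds hlt)
    have h2 : ∃ᶠ w in 𝓝 z, w ∈ D := mem_closure_iff_frequently.mp hz
    obtain ⟨w, hw1, hw2⟩ := (h2.and_eventually h1).exists
    rw [hD] at hw1
    exact absurd hw1.2 (not_lt.mpr hw2.le)
  have hFc : IsCompact (frontier D) :=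
    Metric.isCompact_of_isClosed_isBounded isClosed_frontier
      (hb.closure.subset frontier_subset_closure)
  have hDc : IsCompact (closure D) :=
    Metric.isCompact_of_isClosed_isBounded isClosed_closure hb.closure
  -- the good points
  set T₁ : Set (Ec n) := {z | z ∈ W ∧ fderiv ℝ ρ z ≠ 0 ∧ ∀ X : Ec n, X ≠ 0 → 0 < leviForm ρ z X}
    with hT₁
  have hρ2 : ContDiffOn ℝ 2 ρ W := hρ.of_le ENat.LEInfty.out
  have hTn : ∀ z ∈ frontier D, T₁ ∈ 𝓝 z := by
    intro z hz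
    have hzW : z ∈ W := hDW (frontier_subset_closure hz)
    have h1 : ∀ᶠ w in 𝓝 z, w ∈ W := hW.mem_nhds hzW
    have h2 : ∀ᶠ w in 𝓝 z, fderiv ℝ ρ w ≠ 0 := by
      have h3 : ContinuousOn (fderiv ℝ ρ) W :=
        (hρ2.fderiv_of_isOpen (m := 1) hW (by norm_num)).continuousOn
      exact (h3.continuousAt (hW.mem_nhds hzW)).eventually_ne (hf z hz).1
    have h4 : ∀ᶠ w in 𝓝 z, ∀ X ∈ Metric.sphere (0 : Ec n) 1, 0 < leviForm ρ w X := by
      apply (isCompact_sphere (0 : Ec n) 1).eventually_forall_of_forall_eventually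
      intro X hX
      have hX0 : X ≠ 0 := by
        intro h0
        rw [h0, mem_sphere_zero_iff_norm, norm_zero] at hX
        exact zero_ne_one hX
      have h5 : ContinuousAt (fun p : Ec n × Ec n => leviForm ρ p.1 p.2) (z, X) :=
        (lev_cont hW hρ2).continuousAt ((hW.prod isOpen_univ).mem_nhds ⟨hzW, mem_univ X⟩)
      exact h5.eventually (lt_mem_nhds ((hf z hz).2 X hX0))
    filter_upwards [h1, h2, h4] with w hw1 hw2 hw3
    refine ⟨hw1, hw2, fun X hX => ?_⟩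
    have hn : 0 < ‖X‖ := norm_pos_iff.mpr hX
    have h6 : X = ((‖X‖ : ℝ) : ℂ) • (((‖X‖⁻¹ : ℝ) : ℂ) • X) := by
      rw [smul_smul, ← Complex.ofReal_mul, mul_inv_cancel₀ hn.ne', Complex.ofReal_one, one_smul]
    have h7 : ((‖X‖⁻¹ : ℝ) : ℂ) • X ∈ Metric.sphere (0 : Ec n) 1 := by
      rw [mem_sphere_zero_iff_norm, norm_smul, Complex.norm_real, norm_inv, norm_norm,
        inv_mul_cancel₀ hn.ne']
    rw [h6, lev_smul]
    have h8 := hw3 _ h7
    have h9 : 0 < ‖((‖X‖ : ℝ) : ℂ)‖ := by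
      rw [Complex.norm_real, norm_norm]
      exact hn
    positivity
  have hFT : frontier D ⊆ interior T₁ := fun z hz => mem_interior_iff_mem_nhds.mpr (hTn z hz)
  obtain ⟨L, hLc, hFL, hLT⟩ := exists_compact_between hFc isOpen_interior hFT
  have hLT₁ : L ⊆ T₁ := hLT.trans interior_subset
  have hLW : L ⊆ W := fun z hz => (hLT₁ hz).1
  obtain ⟨c, hc0, hc⟩ := lev_min hW hρ2 hLc hLW (fun z hz => (hLT₁ hz).2.2)
  -- `ρ` on the rest of the closure
  have hR : ∀ z ∈ closure D \ interior L, z ∈ D := by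
    rintro z ⟨hz1, hz2⟩
    by_contra hzD
    exact hz2 (hFL ⟨hz1, by rwa [hDo.interior_eq]⟩)
  have hRc : IsCompact (closure D \ interior L) := hDc.diff isOpen_interior
  obtain ⟨ε, hε0, hε⟩ : ∃ ε : ℝ, 0 < ε ∧ ∀ z ∈ closure D \ interior L, ρ z < -(3 * ε) := by
    rcases (closure D \ interior L).eq_empty_or_nonempty with he | hne
    · refine ⟨1, one_pos, fun z hz => ?_⟩
      rw [he] at hz
      exact absurd hz (notMem_empty z)
    · have hcont : ContinuousOn ρ (closure D \ interior L) :=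
        hρ.continuousOn.mono fun z hz => hDW hz.1
      obtain ⟨z₀, hz₀, hmax⟩ := hRc.exists_isMaxOn hne hcont
      have hz₀D := hR z₀ hz₀
      rw [hD] at hz₀D
      refine ⟨-ρ z₀ / 6, by linarith [hz₀D.2], fun z hz => ?_⟩
      have h1 : ρ z ≤ ρ z₀ := hmax hz
      have h2 := hz₀D.2
      linarith
  have hUcl : closure (D ∪ interior L) ⊆ closure D ∪ L := by
    rw [closure_union]
    exact union_subset_union le_rfl (closure_minimal interior_subset hLc.isClosed)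
  refine ⟨D ∪ interior L, ε, c, hDo.union isOpen_interior, ?_, ?_, ?_, hε0, hc0, ?_, ?_⟩
  · intro z hz
    by_cases hzD : z ∈ D
    · exact Or.inl hzD
    · exact Or.inr (hFL ⟨hz, by rwa [hDo.interior_eq]⟩)
  · exact (hDc.union hLc).of_isClosed_subset isClosed_closure hUcl
  · exact hUcl.trans (union_subset hDW hLW)
  · ext z
    constructor
    · rintro ⟨hzU, hz0⟩
      rcases hzU with hzD | hzL
      · exact subset_closure hzD
      · have hzT := hLT₁ (interior_subset hzL)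
        rcases hz0.lt_or_eq with hlt | heq
        · apply subset_closure
          rw [hD]
          exact ⟨hzT.1, hlt⟩
        · by_contra hzc
          apply hzT.2.1
          have h1 : ∀ᶠ w in 𝓝 z, w ∉ closure D := isClosed_closure.isOpen_compl.mem_nhds hzc
          have h2 : ∀ᶠ w in 𝓝 z, w ∈ W := hW.mem_nhds hzT.1
          have h3 : IsLocalMin ρ z := by
            filter_upwards [h1, h2] with w hw1 hw2
            rw [heq]
            by_contra hlt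
            rw [not_le] at hlt
            apply hw1
            apply subset_closure
            rw [hD]
            exact ⟨hw2, hlt⟩
          exact h3.fderiv_eq_zero
    · intro hz
      refine ⟨?_, hle z hz⟩
      by_cases hzD : z ∈ D
      · exact Or.inl hzD
      · exact Or.inr (hFL ⟨hz, by rwa [hDo.interior_eq]⟩)
  · intro z hzU hz3
    by_cases hzL : z ∈ interior L
    · exact ⟨(hLT₁ (interior_subset hzL)).2.1, hc z (interior_subset hzL)⟩
    · rcases hzU with hzD | hzL'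
      · have := hε z ⟨subset_closure hzD, hzL⟩
        linarith
      · exact absurd hzL' hzL

end Pool.Agent.MPca0fc2.LV
end

section

/-! Strictly plurisubharmonic defining functions. -/

set_option autoImplicit false

open Metric Set MeasureTheory Filter Topology
open scoped ContDiff

namespace Pool.Agent.MPca0fc2.LV

open Pool.Agent.MPca0fc2.FD (Ec ee)
open Pool.Agent.Lib.MP_ca0fc2_an (leviForm IsStrictlyPseudoconvex)

variable {n : ℕ}

/-- Every strictly pseudoconvex domain has a strictly plurisubharmonic defining function.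
PROOF. `exp_trick`, `good_nbhd`, `fl_exists` for `ε`. `ρ' z = φ (ρ z) + κ τ (ρ z) (‖z‖² - R²)` on `U`, with `‖z‖ < R` on `U` and a small
`κ > 0`. `DS`: `sm` clear. `eq`, `nd`: if `ρ z < 0` then `ρ' z < 0` (`FL.neg`, `τ ≥ 0`); if `ρ z > -ε` then `ρ' = ρ` near `z`. `cpt`: the set is
`closure D`. `psh`: `lev_add`, `lev_comp`. The Levi form of `φ ∘ ρ` at `z` is `φ' leviForm ρ + φ'' (..) / 4`: if `ρ z ≥ -2 ε` it is
`≥ φ'(ρ z) c ‖X‖²`; if `ρ z < -2 ε`, `φ' = φ'' = 0` there (`dz`), it is `0`. So it is `≥ φ' c ‖X‖² ≥ 0` always. The function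
`θ z = τ (ρ z) (‖z‖² - R²)` is smooth on `W`, so `|leviForm θ z X| ≤ L ‖X‖²` on the compact set `closure U` (`lev_bound`). If
`ρ z ≥ -(3/2) ε`: total `≥ (c / 2 - κ L) ‖X‖²`. If `ρ z < -(3/2) ε`: `θ = ‖·‖² - R²` near `z`, total `≥ κ ‖X‖²` (`lev_normsq`). Take
`κ = c / (4 L + 4)`. -/
theorem ds_exists {D : Set (Ec n)} (hD : IsStrictlyPseudoconvex D) :
    ∃ (U : Set (Ec n)) (ρ : Ec n → ℝ) (c : ℝ), DS D U ρ c := by
  obtain ⟨hb, W, ρ₀, hW, hDW, hρ₀, hD₀, hf₀⟩ := hD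
  obtain ⟨ρ, hρ, hDρ, hf⟩ := exp_trick hb hW hDW hρ₀ hD₀ hf₀
  obtain ⟨U, ε, c, hU, hDU, hcU, hUW, hε, hc, hcl, hlev⟩ := good_nbhd hb hW hDW hρ hDρ hf
  obtain ⟨φ, τ, hF⟩ := fl_exists hε
  obtain ⟨R, hR0, hR⟩ := hcU.isBounded.exists_pos_norm_lt
  have hUW' : U ⊆ W := subset_closure.trans hUW
  have hDU' : D ⊆ U := subset_closure.trans hDU
  -- the function `θ`
  set θ : Ec n → ℝ := fun z => τ (ρ z) * (‖z‖ ^ 2 - R ^ 2) with hθdef
  have hθ : ContDiffOn ℝ ∞ θ W := by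
    refine (hF.smτ.comp_contDiffOn hρ).mul ?_
    exact ((contDiff_norm_sq ℝ).contDiffOn.sub contDiffOn_const)
  have hφρ : ContDiffOn ℝ ∞ (fun z => φ (ρ z)) W := hF.smφ.comp_contDiffOn hρ
  have hθ1 : ContDiffOn ℝ ∞ (fderiv ℝ θ) W := hθ.fderiv_of_isOpen hW (by simp)
  have hθ2 : ContinuousOn (fderiv ℝ (fderiv ℝ θ)) W :=
    hθ1.continuousOn_fderiv_of_isOpen hW (by simp)
  have hθ3 : ContinuousOn (fun z => ‖fderiv ℝ (fderiv ℝ θ) z‖) (closure U) :=
    ContinuousOn.norm (E := Ec n →L[ℝ] Ec n →L[ℝ] ℝ) (hθ2.mono hUW)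
  obtain ⟨L₀, hL₀'⟩ := hcU.exists_bound_of_continuousOn hθ3
  have hL₀ : ∀ z ∈ closure U, ‖fderiv ℝ (fderiv ℝ θ) z‖ ≤ L₀ := fun z hz =>
    (le_abs_self _).trans (hL₀' z hz)
  set L : ℝ := max L₀ 0 with hLdef
  have hL0 : 0 ≤ L := le_max_right _ _
  have hθL : ∀ z ∈ U, ∀ X : Ec n, |leviForm θ z X| ≤ L * ‖X‖ ^ 2 := by
    intro z hz X
    have h1 := lev_bound θ z X
    have h2 : ‖fderiv ℝ (fderiv ℝ θ) z‖ ≤ L := (hL₀ z (subset_closure hz)).trans (le_max_left _ _)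
    have h3 : 0 ≤ ‖X‖ ^ 2 := by positivity
    have h4 : ‖fderiv ℝ (fderiv ℝ θ) z‖ * ‖X‖ ^ 2 ≤ L * ‖X‖ ^ 2 :=
      mul_le_mul_of_nonneg_right h2 h3
    have h5 : 0 ≤ L * ‖X‖ ^ 2 := mul_nonneg hL0 h3
    linarith
  set κ : ℝ := c / (4 * L + 4) with hκdef
  have hκ : 0 < κ := div_pos hc (by linarith)
  have hκL : κ * L ≤ c / 4 := by
    rw [hκdef, div_mul_eq_mul_div, div_le_div_iff₀ (by linarith) (by norm_num)]
    nlinarith
  set ρ' : Ec n → ℝ := fun z => φ (ρ z) + κ * θ z with hρ'def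
  -- signs
  have hneg : ∀ z ∈ U, ρ z < 0 → ρ' z < 0 := by
    intro z hz h
    have h1 := hF.neg _ h
    have h2 : θ z ≤ 0 := by
      refine mul_nonpos_of_nonneg_of_nonpos (hF.τ0 _) ?_
      have h3 := (hR z (subset_closure hz)).le
      have h4 : ‖z‖ ^ 2 ≤ R ^ 2 := pow_le_pow_left₀ (norm_nonneg z) h3 2
      linarith
    have h5 : κ * θ z ≤ 0 := mul_nonpos_of_nonneg_of_nonpos hκ.le h2
    have h6 : ρ' z = φ (ρ z) + κ * θ z := rfl
    linarith
  have hid : ∀ z, -ε ≤ ρ z → ρ' z = ρ z := by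
    intro z h
    have h1 := hF.id _ h
    have h2 : θ z = 0 := by
      simp only [hθdef]
      rw [hF.τz _ h, zero_mul]
    have h6 : ρ' z = φ (ρ z) + κ * θ z := rfl
    rw [h6, h1, h2, mul_zero, add_zero]
  have hcont : ∀ z ∈ U, ContinuousAt ρ z := fun z hz =>
    (hρ.continuousOn.continuousAt (hW.mem_nhds (hUW' hz)))
  have hDeq : D = {z | z ∈ U ∧ ρ z < 0} := by
    apply Subset.antisymm
    · intro z hz
      have h := hz
      rw [hDρ] at h
      exact ⟨hDU' hz, h.2⟩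
    · rintro z ⟨hz, h⟩
      rw [hDρ]
      exact ⟨hUW' hz, h⟩
  have hlt : ∀ z ∈ U, (ρ' z < 0 ↔ ρ z < 0) := by
    intro z hz
    refine ⟨fun h => ?_, hneg z hz⟩
    by_contra h'
    push Not at h'
    rw [hid z (by linarith)] at h
    linarith
  have hle : ∀ z ∈ U, (ρ' z ≤ 0 ↔ ρ z ≤ 0) := by
    intro z hz
    constructor
    · intro h
      by_contra h'
      push Not at h'
      rw [hid z (by linarith)] at h
      linarith
    · intro h
      rcases h.lt_or_eq with h | h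
      · exact (hneg z hz h).le
      · rw [hid z (by linarith)]
        exact h.le
  refine ⟨U, ρ', min (c / 4) κ, ?_⟩
  refine
    { c0 := lt_min (by linarith) hκ
      opn := hU
      bdd := hcU.isBounded.subset subset_closure
      sm := ?_
      eq := ?_
      cpt := ?_
      nd := ?_
      psh := ?_ }
  · exact (hφρ.add (contDiffOn_const.mul hθ)).mono hUW'
  · rw [hDeq]
    ext z
    constructor
    · rintro ⟨hz, h⟩
      exact ⟨hz, (hlt z hz).mpr h⟩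
    · rintro ⟨hz, h⟩
      exact ⟨hz, (hlt z hz).mp h⟩
  · have h1 : {z | z ∈ U ∧ ρ' z ≤ 0} = closure D := by
      rw [← hcl]
      ext z
      constructor
      · rintro ⟨hz, h⟩
        exact ⟨hz, (hle z hz).mp h⟩
      · rintro ⟨hz, h⟩
        exact ⟨hz, (hle z hz).mpr h⟩
    rw [h1]
    exact hb.isCompact_closure
  · intro z hz h0
    have h1 : ρ z = 0 := by
      have h2 := (hle z hz).mp h0.le
      rcases h2.lt_or_eq with h | h
      · exact absurd h0 (hneg z hz h).ne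
      · exact h
    have h2 : ρ' =ᶠ[𝓝 z] ρ := by
      have h3 : ∀ᶠ w in 𝓝 z, -ε < ρ w := by
        refine (hcont z hz).eventually (lt_mem_nhds ?_)
        rw [h1]; linarith
      filter_upwards [h3] with w hw
      exact hid w hw.le
    rw [h2.fderiv_eq]
    exact (hlev z hz (by rw [h1]; linarith)).1
  · intro z hz X
    have hzW : W ∈ 𝓝 z := hW.mem_nhds (hUW' hz)
    have hρz : ContDiffAt ℝ 2 ρ z := (hρ.contDiffAt hzW).of_le (WithTop.coe_le_coe.mpr le_top)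
    have hθz : ContDiffAt ℝ 2 θ z := (hθ.contDiffAt hzW).of_le (WithTop.coe_le_coe.mpr le_top)
    have hφz : ContDiffAt ℝ 2 (fun w => φ (ρ w)) z :=
      (hφρ.contDiffAt hzW).of_le (WithTop.coe_le_coe.mpr le_top)
    have hφ2 : ContDiffAt ℝ 2 φ (ρ z) := (hF.smφ.contDiffAt).of_le (WithTop.coe_le_coe.mpr le_top)
    have hX : 0 ≤ ‖X‖ ^ 2 := by positivity
    have e1 : leviForm ρ' z X = leviForm (fun w => φ (ρ w)) z X + κ * leviForm θ z X := by
      have h1 := lev_add (ρ := fun w => φ (ρ w)) (τ := fun w => κ * θ w) (z := z) hφz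
        (contDiffAt_const.mul hθz) X
      rw [lev_const_mul hθz] at h1
      exact h1
    have e2 := lev_comp hφ2 hρz X
    have h3 : 0 ≤ deriv (deriv φ) (ρ z) *
        ((fderiv ℝ ρ z X) ^ 2 + (fderiv ℝ ρ z (Complex.I • X)) ^ 2) / 4 := by
      have := hF.dd (ρ z)
      positivity
    have e3 : deriv φ (ρ z) * (c * ‖X‖ ^ 2) ≤ leviForm (fun w => φ (ρ w)) z X := by
      rw [e2]
      rcases le_or_gt (-(2 * ε)) (ρ z) with h | h
      · have h4 := (hlev z hz (by linarith)).2 X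
        have h5 := mul_le_mul_of_nonneg_left h4 (hF.d0 (ρ z))
        linarith
      · rw [hF.dz _ h.le, zero_mul, zero_mul, zero_add]
        exact h3
    have hm1 : min (c / 4) κ ≤ c / 4 := min_le_left _ _
    have hm2 : min (c / 4) κ ≤ κ := min_le_right _ _
    rcases le_or_gt (-(3 / 2 * ε)) (ρ z) with h | h
    · have h4 := hF.dh _ h
      have h5 := (abs_le.mp (hθL z hz X)).1
      have h6 : (1 / 2) * (c * ‖X‖ ^ 2) ≤ deriv φ (ρ z) * (c * ‖X‖ ^ 2) :=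
        mul_le_mul_of_nonneg_right h4 (mul_nonneg hc.le hX)
      have h7 : κ * (-(L * ‖X‖ ^ 2)) ≤ κ * leviForm θ z X := mul_le_mul_of_nonneg_left h5 hκ.le
      have h8 : κ * L * ‖X‖ ^ 2 ≤ c / 4 * ‖X‖ ^ 2 := mul_le_mul_of_nonneg_right hκL hX
      have h9 : min (c / 4) κ * ‖X‖ ^ 2 ≤ c / 4 * ‖X‖ ^ 2 := mul_le_mul_of_nonneg_right hm1 hX
      rw [e1]
      linarith
    · have h4 : θ =ᶠ[𝓝 z] fun w => ‖w‖ ^ 2 + (-(R ^ 2)) := by
        have h5 : ∀ᶠ w in 𝓝 z, ρ w < -(3 / 2 * ε) := (hcont z hz).eventually (gt_mem_nhds h)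
        filter_upwards [h5] with w hw
        simp only [hθdef]
        rw [hF.τo _ hw.le]
        ring
      have h6 : leviForm θ z X = ‖X‖ ^ 2 := by
        rw [lev_congr h4]
        have h7 := lev_add (ρ := fun w : Ec n => ‖w‖ ^ 2) (τ := fun _ => -(R ^ 2)) (z := z)
          (contDiff_norm_sq ℝ).contDiffAt contDiffAt_const X
        have h8 : leviForm (fun _ : Ec n => -(R ^ 2)) z X = 0 := by
          simp [leviForm]
        rw [h7, h8, add_zero, lev_normsq]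
      have h7 : 0 ≤ deriv φ (ρ z) * (c * ‖X‖ ^ 2) :=
        mul_nonneg (hF.d0 _) (mul_nonneg hc.le hX)
      have h9 : min (c / 4) κ * ‖X‖ ^ 2 ≤ κ * ‖X‖ ^ 2 := mul_le_mul_of_nonneg_right hm2 hX
      rw [e1, h6]
      linarith

end Pool.Agent.MPca0fc2.LV
end
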