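import Mathlib
import Pool.Agent.Lib.MP_ca0fc2_an.INDIdem
import Pool.Agent.Lib.MP_ca0fc2_an.Mg.G059
import Pool.Agent.Lib.MP_ca0fc2_an.Mg.G062

section

/-! The functions which are locally constant modulo `F`, up to idempotents. -/

set_option autoImplicit false

open Metric Set Filter Topology

namespace Pool.Agent.MPca0fc2.IND

variable {n : ℕ}

/-- one function as a constant family -/
abbrev cf (f : EuclideanSpace ℂ (Fin n) → ℂ) : Unit → EuclideanSpace ℂ (Fin n) → ℂ := fun _ => f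

/-- a constant family -/
def cst {E : Type*} (c : ℂ) : Fam E := fun _ _ => c

section flt

variable {Δ : Set (EuclideanSpace ℂ (Fin n))} (Φ : Char Δ Unit)
  (A : Set (EuclideanSpace ℂ (Fin n) → ℂ)) (F : EuclideanSpace ℂ (Fin n) → ℂ)

/-- The sets on which the functions of `J'` are near their values, with the function
`x = F - Φ(F)`. -/
def Wset (J' : Finset A) (ε : ℝ) : Set (Wd (EuclideanSpace ℂ (Fin n))) :=
  {w | w.1 ⊆ Δ ∧ DifferentiableOn ℂ w.2 w.1 ∧ (∀ z ∈ w.1, F z - Φ.φ (cf F) = w.2 z) ∧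
    ∀ k ∈ J', ∀ z ∈ w.1, ‖k.1 z - Φ.φ (cf k.1)‖ ≤ ε}

theorem Wset_anti {J₁' J₂' : Finset A} {ε₁ ε₂ : ℝ}
    (h' : J₁' ⊆ J₂') (hε : ε₂ ≤ ε₁) : Wset Φ A F J₂' ε₂ ⊆ Wset Φ A F J₁' ε₁ := by
  rintro w ⟨h1, h2, h3, h4⟩
  exact ⟨h1, h2, h3, fun k hk z hz => (h4 k (h' hk) z hz).trans hε⟩

/-- the filter of the small cells -/
def flt : Filter (Wd (EuclideanSpace ℂ (Fin n))) where
  sets := {s | ∃ (J' : Finset A) (ε : ℝ), 0 < ε ∧ Wset Φ A F J' ε ⊆ s}
  univ_sets := ⟨∅, 1, one_pos, subset_univ _⟩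
  sets_of_superset := by
    rintro s t ⟨J', ε, h1, h2⟩ hst
    exact ⟨J', ε, h1, h2.trans hst⟩
  inter_sets := by
    classical
    rintro s t ⟨J₁', ε₁, h1, h2⟩ ⟨J₂', ε₂, h3, h4⟩
    refine ⟨J₁' ∪ J₂', min ε₁ ε₂, lt_min h1 h3, subset_inter ?_ ?_⟩
    · exact (Wset_anti Φ A F Finset.subset_union_left (min_le_left _ _)).trans h2
    · exact (Wset_anti Φ A F Finset.subset_union_right (min_le_right _ _)).trans h4

theorem mem_flt {P : Wd (EuclideanSpace ℂ (Fin n)) → Prop} : (∀ᶠ w in flt Φ A F, P w) ↔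
    ∃ (J' : Finset A) (ε : ℝ), 0 < ε ∧ ∀ w ∈ Wset Φ A F J' ε, P w :=
  Iff.rfl

theorem flt_good : Good Δ (flt Φ A F) :=
  ⟨(mem_flt Φ A F).2 ⟨∅, 1, one_pos, fun _ hw => hw.1⟩,
    (mem_flt Φ A F).2 ⟨∅, 1, one_pos, fun _ hw => hw.2.1⟩⟩

/-- The function `F` is constant modulo `x`. -/
theorem n0_F : N0 (flt Φ A F) (gl F - cst (Φ.φ (cf F))) := by
  intro θ hθ
  refine ⟨fun _ _ => 1, BW.const 1, (mem_flt Φ A F).2 ⟨∅, 1, one_pos, fun w hw z hz => ?_⟩⟩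
  have h1 : (gl F - cst (Φ.φ (cf F)) : Fam (EuclideanSpace ℂ (Fin n))) w z - w.2 z * 1 = 0 := by
    have := hw.2.2.1 z hz
    simp only [Pi.sub_apply, gl, cst]
    rw [this]
    ring
  rw [h1, norm_zero]
  exact hθ.le

end flt

section ideal

variable {E : Type*} [NormedAddCommGroup E] [NormedSpace ℂ E] {Δ : Set E} (Φ : Char Δ Unit)
  (𝓕 : Filter (Wd E))

/-- The closed ideal generated by the kernel of the character. -/
def Ide (q : Fam E) : Prop := ∀ θ : ℝ, 0 < θ → ∃ (k : ℕ) (v : Fin k → E → ℂ) (h : Fin k → Fam E),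
  (∀ i, BH Δ (fun _ : Unit => v i) ∧ Φ.φ (fun _ => v i) = 0) ∧ (∀ i, BW 𝓕 (h i)) ∧
    NB 𝓕 (q - ∑ i, gl (v i) * h i) θ

variable {Φ 𝓕} {q q' : Fam E}

theorem Ide.of_N0 (h : N0 𝓕 q) : Ide Φ 𝓕 q := fun θ hθ =>
  ⟨0, fun _ _ => 0, fun _ => 0, fun i => i.elim0, fun i => i.elim0, by
    simpa using h θ hθ⟩

theorem Ide.add (h : Ide Φ 𝓕 q) (h' : Ide Φ 𝓕 q') : Ide Φ 𝓕 (q + q') := by
  intro θ hθ
  obtain ⟨k, v, g, h1, h2, h3⟩ := h (θ / 2) (by positivity)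
  obtain ⟨k', v', g', h1', h2', h3'⟩ := h' (θ / 2) (by positivity)
  refine ⟨k + k', Fin.append v v', Fin.append g g', ?_, ?_, ?_⟩
  · intro i
    refine Fin.addCases (fun i => ?_) (fun i => ?_) i
    · simp only [Fin.append_left]; exact h1 i
    · simp only [Fin.append_right]; exact h1' i
  · intro i
    refine Fin.addCases (fun i => ?_) (fun i => ?_) i
    · simp only [Fin.append_left]; exact h2 i
    · simp only [Fin.append_right]; exact h2' i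
  · have h4 := h3.add h3'
    rw [add_halves] at h4
    have e : q + q' - ∑ i, gl (Fin.append v v' i) * Fin.append g g' i =
        (q - ∑ i, gl (v i) * g i) + (q' - ∑ i, gl (v' i) * g' i) := by
      rw [Fin.sum_univ_add]
      simp only [Fin.append_left, Fin.append_right]
      ring
    rw [e]
    exact h4

theorem bw_sum_gl (hg : Good Δ 𝓕) {k : ℕ} {v : Fin k → E → ℂ} {h : Fin k → Fam E}
    (hv : ∀ i, BH Δ (fun _ : Unit => v i)) (hh : ∀ i, BW 𝓕 (h i)) :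
    BW 𝓕 (∑ i, gl (v i) * h i) :=
  BW.sum fun i _ => by
    obtain ⟨C, hC⟩ := (hv i).bdd
    exact (BW.gl hg ((hv i).holo ()) (fun z hz => hC () z hz)).mul (hh i)

theorem Ide.mul (hg : Good Δ 𝓕) (hq : BW 𝓕 q) (hq' : BW 𝓕 q') (h : Ide Φ 𝓕 q) :
    Ide Φ 𝓕 (q * q') := by
  intro θ hθ
  obtain ⟨B, hB0, hB⟩ := hq'.nb
  obtain ⟨k, v, g, h1, h2, h3⟩ := h (θ / B) (by positivity)
  refine ⟨k, v, fun i => g i * q', h1, fun i => (h2 i).mul hq', ?_⟩
  have e : q * q' - ∑ i, gl (v i) * (g i * q') = (q - ∑ i, gl (v i) * g i) * q' := by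
    rw [sub_mul, Finset.sum_mul]
    congr 1
    exact Finset.sum_congr rfl fun i _ => by ring
  rw [e]
  have h4 := h3.mul hg (hq.sub (bw_sum_gl hg (fun i => (h1 i).1) h2)) hq' hB (by positivity)
  rwa [div_mul_cancel₀ _ hB0.ne'] at h4

theorem Ide.of_gl (hg : Good Δ 𝓕) {v : E → ℂ} (hv : BH Δ (fun _ : Unit => v))
    (h0 : Φ.φ (fun _ => v) = 0) {h : Fam E} (hh : BW 𝓕 h) : Ide Φ 𝓕 (gl v * h) := by
  intro θ hθ
  refine ⟨1, fun _ => v, fun _ => h, fun _ => ⟨hv, h0⟩, fun _ => hh, ?_⟩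
  have e : gl v * h - ∑ _i : Fin 1, gl v * h = 0 := by simp
  rw [e]
  exact N0.zero θ hθ

theorem Ide.sum (hg : Good Δ 𝓕) {κ : Type*} {s : Finset κ} {q : κ → Fam E}
    (h : ∀ k ∈ s, Ide Φ 𝓕 (q k)) : Ide Φ 𝓕 (∑ k ∈ s, q k) := by
  classical
  induction s using Finset.induction_on with
  | empty => rw [Finset.sum_empty]; exact Ide.of_N0 N0.zero
  | insert a s has ih =>
    rw [Finset.sum_insert has]
    exact (h a (Finset.mem_insert_self _ _)).add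
      (ih fun k hk => h k (Finset.mem_insert_of_mem hk))

theorem Ide.congr (h : Ide Φ 𝓕 q) (h' : N0 𝓕 (q' - q)) : Ide Φ 𝓕 q' := by
  have := h.add (Ide.of_N0 h')
  rwa [add_sub_cancel] at this

/-- An idempotent modulo `x` which is `1` at the character. -/
structure Idm {Δ : Set E} (Φ : Char Δ Unit) (𝓕 : Filter (Wd E)) (e : Fam E) : Prop where
  bw : BW 𝓕 e
  idem : NB 𝓕 (e * (1 - e)) 0
  ide : Ide Φ 𝓕 (1 - e)

theorem Idm.n0 {e : Fam E} (h : Idm Φ 𝓕 e) : N0 𝓕 (e * (1 - e)) :=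
  fun _ hθ => h.idem.mono hθ.le

theorem Idm.rad (hg : Good Δ 𝓕) {e : Fam E} (h : Idm Φ 𝓕 e) : Rad 𝓕 e 1 := idem_rad hg h.bw h.n0

theorem Idm.one : Idm Φ 𝓕 (1 : Fam E) := by
  refine ⟨BW.one, ?_, ?_⟩
  · rw [sub_self, mul_zero]
    have := NB.const (𝓕 := 𝓕) (0 : ℂ)
    rw [norm_zero] at this
    exact this
  · rw [sub_self]
    exact Ide.of_N0 N0.zero

theorem Idm.mul (hg : Good Δ 𝓕) {e e' : Fam E} (h : Idm Φ 𝓕 e) (h' : Idm Φ 𝓕 e') :
    Idm Φ 𝓕 (e * e') := by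
  refine ⟨h.bw.mul h'.bw, ?_, ?_⟩
  · have e1 : e * e' * (1 - e * e') = (e * (1 - e)) * e' + (e' * (1 - e')) * (e * e) := by ring
    rw [e1]
    obtain ⟨B, hB0, hB⟩ := h'.bw.nb
    obtain ⟨B', hB'0, hB'⟩ := (h.bw.mul h.bw).nb
    have h1 := h.idem.mul hg (h.bw.mul (BW.one.sub h.bw)) h'.bw hB le_rfl
    have h2 := h'.idem.mul hg (h'.bw.mul (BW.one.sub h'.bw)) (h.bw.mul h.bw) hB' le_rfl
    rw [zero_mul] at h1 h2
    have := h1.add h2
    rwa [add_zero] at this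
  · have e1 : 1 - e * e' = (1 - e) + (1 - e') * e := by ring
    rw [e1]
    exact h.ide.add (h'.ide.mul hg (BW.one.sub h'.bw) h.bw)

theorem Idm.prod (hg : Good Δ 𝓕) {κ : Type*} (s : Finset κ) {e : κ → Fam E}
    (h : ∀ k, Idm Φ 𝓕 (e k)) : Idm Φ 𝓕 (∏ k ∈ s, e k) := by
  classical
  induction s using Finset.induction_on with
  | empty => rw [Finset.prod_empty]; exact Idm.one
  | insert a s has ih =>
    rw [Finset.prod_insert has]
    exact (h a).mul hg ih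

end ideal

end Pool.Agent.MPca0fc2.IND
end

section

/-! The algebra of the functions which are locally constant modulo one of the functions `F i`, after
multiplication by an idempotent. -/

set_option autoImplicit false

open Metric Set MeasureTheory Filter Topology

namespace Pool.Agent.MPca0fc2.IND


open Pool.Agent.Lib.MP_ca0fc2_an (ClosedAlgOn)

variable {n : ℕ} {Δ : Set (EuclideanSpace ℂ (Fin n))}

/-- The functions which are nearly constant modulo `x` after multiplication by an idempotent. -/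
def InT (Φ : Char Δ Unit) (𝓕 : Filter (Wd (EuclideanSpace ℂ (Fin n))))
    (G : EuclideanSpace ℂ (Fin n) → ℂ) : Prop :=
  BH Δ (cf G) ∧ ∀ ε : ℝ, 0 < ε → ∃ e : Fam (EuclideanSpace ℂ (Fin n)), Idm Φ 𝓕 e ∧
    Rad 𝓕 (e * (gl G - cst (Φ.φ (cf G)))) ε

variable {Φ : Char Δ Unit} {𝓕 : Filter (Wd (EuclideanSpace ℂ (Fin n)))}
  {G G' : EuclideanSpace ℂ (Fin n) → ℂ}

theorem bw_gl (hg : Good Δ 𝓕) (h : BH Δ (cf G)) : BW 𝓕 (gl G) := by
  obtain ⟨C, hC⟩ := h.bdd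
  exact BW.gl hg (h.holo ()) (fun z hz => hC () z hz)

theorem nb_gl (hg : Good Δ 𝓕) {C : ℝ} (hC : ∀ z ∈ Δ, ‖G z‖ ≤ C) :
    NB 𝓕 (gl G) C :=
  NB.of_bdd (hg.sub.mono fun _ hw z hz => hC z (hw hz))

theorem bw_cst (c : ℂ) : BW 𝓕 (cst c : Fam (EuclideanSpace ℂ (Fin n))) := BW.const c

theorem InT.of_n0 (hg : Good Δ 𝓕) (hB : BH Δ (cf G)) (h : N0 𝓕 (gl G - cst (Φ.φ (cf G)))) :
    InT Φ 𝓕 G := by
  refine ⟨hB, fun ε hε => ⟨1, Idm.one, ?_⟩⟩
  rw [one_mul]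
  exact Rad.of_NB hg ((bw_gl hg hB).sub (bw_cst _)) (h ε hε) hε.le

theorem InT.const (hg : Good Δ 𝓕) (c : ℂ) : InT Φ 𝓕 (fun _ => c) := by
  refine InT.of_n0 hg (BH.const c) ?_
  have e : gl (fun _ => c) - cst (Φ.φ (cf fun _ => c)) = (0 : Fam (EuclideanSpace ℂ (Fin n))) := by
    have h1 : Φ.φ (cf fun _ => c) = c := Φ.map_const c
    rw [h1]
    funext w z
    simp [gl, cst]
  rw [e]
  exact N0.zero

theorem InT.add (hg : Good Δ 𝓕) (h : InT Φ 𝓕 G) (h' : InT Φ 𝓕 G') :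
    InT Φ 𝓕 (fun z => G z + G' z) := by
  refine ⟨h.1.add h'.1, fun ε hε => ?_⟩
  obtain ⟨e, he, h1⟩ := h.2 (ε / 2) (by positivity)
  obtain ⟨e', he', h1'⟩ := h'.2 (ε / 2) (by positivity)
  refine ⟨e * e', he.mul hg he', ?_⟩
  have h2 : Φ.φ (cf fun z => G z + G' z) = Φ.φ (cf G) + Φ.φ (cf G') := Φ.map_add h.1 h'.1
  have e1 : e * e' * (gl (fun z => G z + G' z) - cst (Φ.φ (cf fun z => G z + G' z))) =
      e' * (e * (gl G - cst (Φ.φ (cf G)))) + e * (e' * (gl G' - cst (Φ.φ (cf G')))) := by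
    rw [h2]
    funext w z
    simp only [Pi.mul_apply, Pi.sub_apply, Pi.add_apply, gl, cst]
    ring
  rw [e1]
  have b1 := (bw_gl hg h.1).sub (bw_cst (𝓕 := 𝓕) (Φ.φ (cf G)))
  have b2 := (bw_gl hg h'.1).sub (bw_cst (𝓕 := 𝓕) (Φ.φ (cf G')))
  have h3 := (he'.rad hg).mul hg he'.bw (he.bw.mul b1) h1 zero_le_one
  have h4 := (he.rad hg).mul hg he.bw (he'.bw.mul b2) h1' zero_le_one
  rw [one_mul] at h3 h4
  have h5 := h3.add hg (he'.bw.mul (he.bw.mul b1)) (he.bw.mul (he'.bw.mul b2)) h4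
    (by positivity) (by positivity)
  rwa [add_halves] at h5

theorem InT.mul (hg : Good Δ 𝓕) (h : InT Φ 𝓕 G) (h' : InT Φ 𝓕 G') :
    InT Φ 𝓕 (fun z => G z * G' z) := by
  refine ⟨h.1.mul h'.1, fun ε hε => ?_⟩
  obtain ⟨B, hB0, hB⟩ := h'.1.bdd'
  obtain ⟨e, he, h1⟩ := h.2 (ε / 2 / B) (by positivity)
  obtain ⟨A, hA⟩ : ∃ A : ℝ, A = ‖Φ.φ (cf G)‖ + 1 := ⟨_, rfl⟩
  have hA0 : 0 < A := by rw [hA]; positivity
  obtain ⟨e', he', h1'⟩ := h'.2 (ε / 2 / A) (by positivity)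
  refine ⟨e * e', he.mul hg he', ?_⟩
  have h2 : Φ.φ (cf fun z => G z * G' z) = Φ.φ (cf G) * Φ.φ (cf G') := Φ.map_mul h.1 h'.1
  have e1 : e * e' * (gl (fun z => G z * G' z) - cst (Φ.φ (cf fun z => G z * G' z))) =
      (e' * (e * (gl G - cst (Φ.φ (cf G))))) * gl G' +
        (e * (e' * (gl G' - cst (Φ.φ (cf G'))))) * cst (Φ.φ (cf G)) := by
    rw [h2]
    funext w z
    simp only [Pi.mul_apply, Pi.sub_apply, Pi.add_apply, gl, cst]
    ring
  rw [e1]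
  have b1 := (bw_gl hg h.1).sub (bw_cst (𝓕 := 𝓕) (Φ.φ (cf G)))
  have b2 := (bw_gl hg h'.1).sub (bw_cst (𝓕 := 𝓕) (Φ.φ (cf G')))
  have h3 := (he'.rad hg).mul hg he'.bw (he.bw.mul b1) h1 zero_le_one
  have h4 := (he.rad hg).mul hg he.bw (he'.bw.mul b2) h1' zero_le_one
  rw [one_mul] at h3 h4
  have r1 : Rad 𝓕 (gl G') B := Rad.of_NB hg (bw_gl hg h'.1) (nb_gl hg fun z hz => hB () z hz)
    hB0.le
  have r2 : Rad 𝓕 (cst (Φ.φ (cf G)) : Fam (EuclideanSpace ℂ (Fin n))) A :=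
    Rad.of_NB hg (bw_cst _) ((NB.const _).mono (by rw [hA]; linarith)) hA0.le
  have h3' := h3.mul hg (he'.bw.mul (he.bw.mul b1)) (bw_gl hg h'.1) r1 (by positivity)
  have h4' := h4.mul hg (he.bw.mul (he'.bw.mul b2)) (bw_cst _) r2 (by positivity)
  rw [div_mul_cancel₀ _ hB0.ne'] at h3'
  rw [div_mul_cancel₀ _ hA0.ne'] at h4'
  have h5 := h3'.add hg ((he'.bw.mul (he.bw.mul b1)).mul (bw_gl hg h'.1))
    ((he.bw.mul (he'.bw.mul b2)).mul (bw_cst _)) h4' (by positivity) (by positivity)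
  rwa [add_halves] at h5

theorem InT.lim (hg : Good Δ 𝓕) (hB : DifferentiableOn ℂ G Δ)
    (h : ∀ ε : ℝ, 0 < ε → ∃ G', InT Φ 𝓕 G' ∧
      ∀ z ∈ Δ, ‖G z - G' z‖ ≤ ε) : InT Φ 𝓕 G := by
  have hBG : BH Δ (cf G) := by
    obtain ⟨G', h1, h2⟩ := h 1 one_pos
    obtain ⟨C, hC⟩ := h1.1.bdd
    refine ⟨fun _ => hB, 1 + C, fun t z hz => ?_⟩
    calc ‖G z‖ = ‖(G z - G' z) + G' z‖ := by rw [sub_add_cancel]
      _ ≤ ‖G z - G' z‖ + ‖G' z‖ := norm_add_le _ _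
      _ ≤ 1 + C := add_le_add (h2 z hz) (hC t z hz)
  refine ⟨hBG, fun ε hε => ?_⟩
  obtain ⟨G', h1, h2⟩ := h (ε / 4) (by positivity)
  obtain ⟨e, he, h3⟩ := h1.2 (ε / 2) (by positivity)
  refine ⟨e, he, ?_⟩
  have h4 : ‖Φ.φ (cf G) - Φ.φ (cf G')‖ ≤ ε / 4 := by
    rw [← Char.map_sub Φ hBG h1.1]
    exact Φ.bound (hBG.sub h1.1) (by positivity) fun _ z hz => h2 z hz
  have e1 : e * (gl G - cst (Φ.φ (cf G))) = e * (gl G' - cst (Φ.φ (cf G'))) +
      e * ((gl G - gl G') - cst (Φ.φ (cf G) - Φ.φ (cf G'))) := by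
    funext w z
    simp only [Pi.mul_apply, Pi.sub_apply, Pi.add_apply, gl, cst]
    ring
  rw [e1]
  have b1 := (bw_gl hg h1.1).sub (bw_cst (𝓕 := 𝓕) (Φ.φ (cf G')))
  have b2 := ((bw_gl hg hBG).sub (bw_gl hg h1.1)).sub
    (bw_cst (𝓕 := 𝓕) (Φ.φ (cf G) - Φ.φ (cf G')))
  have h5 : NB 𝓕 ((gl G - gl G') - cst (Φ.φ (cf G) - Φ.φ (cf G'))) (ε / 2) := by
    refine NB.of_bdd (hg.sub.mono fun w hw z hz => ?_)
    show ‖(G z - G' z) - (Φ.φ (cf G) - Φ.φ (cf G'))‖ ≤ ε / 2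
    calc _ ≤ ‖G z - G' z‖ + ‖Φ.φ (cf G) - Φ.φ (cf G')‖ := norm_sub_le _ _
      _ ≤ ε / 4 + ε / 4 := add_le_add (h2 z (hw hz)) h4
      _ = ε / 2 := by ring
  have h6 := (he.rad hg).mul hg he.bw b2 (Rad.of_NB hg b2 h5 (by positivity)) zero_le_one
  rw [one_mul] at h6
  have h7 := h3.add hg (he.bw.mul b1) (he.bw.mul b2) h6 (by positivity) (by positivity)
  rwa [add_halves] at h7

/-- The class is a closed algebra. -/
theorem inT_closedAlg (hg : Good Δ 𝓕) {S : Set (EuclideanSpace ℂ (Fin n) → ℂ)}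
    (hS : ∀ G ∈ S, InT Φ 𝓕 G) : ∀ G ∈ ClosedAlgOn Δ S, InT Φ 𝓕 G := by
  rintro G ⟨h1, h2⟩
  refine InT.lim hg h1 fun ε hε => ?_
  obtain ⟨q, hq, h3⟩ := h2 ε hε
  refine ⟨q, ?_, h3⟩
  clear h3
  induction hq using Algebra.adjoin_induction with
  | mem x hx => exact hS x hx
  | algebraMap c => exact InT.const hg c
  | add x y _ _ hx hy => exact hx.add hg hy
  | mul x y _ _ hx hy => exact hx.mul hg hy

end Pool.Agent.MPca0fc2.IND
end

section

/-! Data which are solvable on the small cells, modulo the function `F`, are not in the kernel of a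
character. -/

set_option autoImplicit false

open Metric Set Filter Topology

namespace Pool.Agent.MPca0fc2.IND

open Pool.Agent.Lib.MP_ca0fc2_an (IsHinf SolvableOn)
open Pool.Agent.MPca0fc2.CXS (LocOn solv_map' solv_sub)

variable {n : ℕ} {Δ : Set (EuclideanSpace ℂ (Fin n))}

theorem bh_of_hinf {g : EuclideanSpace ℂ (Fin n) → ℂ} (h : IsHinf Δ g) : BH Δ (cf g) :=
  ⟨fun _ => h.1, h.2.choose, fun _ z hz => h.2.choose_spec z hz⟩

theorem hinf_of_bh {g : EuclideanSpace ℂ (Fin n) → ℂ} (h : BH Δ (cf g)) : IsHinf Δ g := by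
  obtain ⟨C, hC⟩ := h.bdd
  exact ⟨h.holo (), C, fun z hz => hC () z hz⟩

/-- Data in the kernel of a character are not solvable on the small cells modulo `F`. -/
theorem glue_core {A : Set (EuclideanSpace ℂ (Fin n) → ℂ)} (hA : LocOn Δ A)
    (hAH : ∀ a ∈ A, IsHinf Δ a) {F : EuclideanSpace ℂ (Fin n) → ℂ} (hF : IsHinf Δ F)
    (Φ : Char Δ Unit) {N : ℕ} (w : Fin N → EuclideanSpace ℂ (Fin n) → ℂ)
    (hBw : ∀ j, BH Δ (cf (w j))) (hΦw : ∀ j, Φ.φ (cf (w j)) = 0) (J' : Finset A) {ε₂ CL : ℝ}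
    (hε₂ : 0 < ε₂)
    (hloc : ∀ D : Set (EuclideanSpace ℂ (Fin n)), D ⊆ Δ →
      (∀ k ∈ J', ∀ z ∈ D, ‖k.1 z - Φ.φ (cf k.1)‖ ≤ ε₂) →
      ∃ (h₀ : EuclideanSpace ℂ (Fin n) → ℂ) (h : Fin N → EuclideanSpace ℂ (Fin n) → ℂ),
        DifferentiableOn ℂ h₀ D ∧ (∀ j, DifferentiableOn ℂ (h j) D) ∧
        (∀ z ∈ D, ‖h₀ z‖ ≤ CL) ∧ (∀ j, ∀ z ∈ D, ‖h j z‖ ≤ CL) ∧
        ∀ z ∈ D, (F z - Φ.φ (cf F)) * h₀ z + ∑ j, w j z * h j z = 1) : False := by
  classical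
  obtain ⟨K, hK⟩ : ∃ K, K = Fintype.card J' := ⟨_, rfl⟩
  obtain ⟨e⟩ : Nonempty (Fin K ≃ J') := by rw [hK]; exact ⟨(Fintype.equivFin _).symm⟩
  obtain ⟨a, ha⟩ : ∃ a : Fin K → EuclideanSpace ℂ (Fin n) → ℂ, a = fun i => (e i).1.1 := ⟨_, rfl⟩
  have haA : ∀ i, a i ∈ A := fun i => by rw [ha]; exact (e i).1.2
  have haB : ∀ i, BH Δ (cf (a i)) := fun i => bh_of_hinf (hAH _ (haA i))
  obtain ⟨x, hx⟩ : ∃ x : EuclideanSpace ℂ (Fin n) → ℂ, x = fun z => F z - Φ.φ (cf F) := ⟨_, rfl⟩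
  have hxB : BH Δ (cf x) := by rw [hx]; exact (bh_of_hinf hF).sub (BH.const _)
  have hx0 : Φ.φ (cf x) = 0 := by
    have h1 := Char.map_sub Φ (bh_of_hinf hF) (BH.const (Φ.φ (cf F)))
    rw [Φ.map_const, sub_self] at h1
    rw [hx]
    exact h1
  obtain ⟨v, hv⟩ : ∃ v : Fin K → EuclideanSpace ℂ (Fin n) → ℂ,
    v = fun i z => a i z - Φ.φ (cf (a i)) := ⟨_, rfl⟩
  have hvB : ∀ i, BH Δ (cf (v i)) := fun i => by rw [hv]; exact (haB i).sub (BH.const _)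
  have hv0 : ∀ i, Φ.φ (cf (v i)) = 0 := fun i => by
    have h1 := Char.map_sub Φ (haB i) (BH.const (Φ.φ (cf (a i))))
    rw [Φ.map_const, sub_self] at h1
    rw [hv]
    exact h1
  obtain ⟨f, hf⟩ : ∃ f : Fin (K + (1 + N)) → EuclideanSpace ℂ (Fin n) → ℂ,
    f = Fin.append v (Fin.append (fun _ : Fin 1 => x) w) := ⟨_, rfl⟩
  have hfl : ∀ i, f (Fin.castAdd (1 + N) i) = v i := fun i => by rw [hf, Fin.append_left]
  have hfr : ∀ j, f (Fin.natAdd K j) = Fin.append (fun _ : Fin 1 => x) w j := fun j => by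
    rw [hf, Fin.append_right]
  have hfB : ∀ j, BH Δ (cf (f j)) := by
    intro j
    refine Fin.addCases (fun i => ?_) (fun j => ?_) j
    · rw [hfl]; exact hvB i
    · rw [hfr]
      refine Fin.addCases (fun i => ?_) (fun j => ?_) j
      · rw [Fin.append_left]; exact hxB
      · rw [Fin.append_right]; exact hBw j
  have hf0 : ∀ j, Φ.φ (cf (f j)) = 0 := by
    intro j
    refine Fin.addCases (fun i => ?_) (fun j => ?_) j
    · rw [hfl]; exact hv0 i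
    · rw [hfr]
      refine Fin.addCases (fun i => ?_) (fun j => ?_) j
      · rw [Fin.append_left]; exact hx0
      · rw [Fin.append_right]; exact hΦw j
  obtain ⟨B, hB⟩ : ∃ B : ℝ, B = ((1 + N : ℕ) : ℝ) * |CL| + ((1 : ℕ) : ℝ) * |4 / ε₂| := ⟨_, rfl⟩
  obtain ⟨C', h, hd, hb, hs⟩ := hA (K + (1 + N)) K f a B (ε₂ / 4) (fun j => hinf_of_bh (hfB j)) haA
    (by positivity) (by
      intro b hb
      by_cases hc : ∀ i, ‖a i b - Φ.φ (cf (a i))‖ ≤ ε₂ / 2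
      · obtain ⟨h₀, h, h1, h2, h3, h4, h5⟩ := hloc {z | z ∈ Δ ∧ ∀ i, ‖a i z - a i b‖ < ε₂ / 4}
          (fun z hz => hz.1) (by
            intro k hk z hz
            have h6 := hz.2 (e.symm ⟨k, hk⟩)
            have h7 := hc (e.symm ⟨k, hk⟩)
            have h8 : a (e.symm ⟨k, hk⟩) = k.1 := by
              rw [ha]
              show (e (e.symm ⟨k, hk⟩)).1.1 = k.1
              rw [Equiv.apply_symm_apply]
            rw [h8] at h6 h7
            have h9 : k.1 z - Φ.φ (cf k.1) = (k.1 z - k.1 b) + (k.1 b - Φ.φ (cf k.1)) := by ring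
            rw [h9]
            refine (norm_add_le _ _).trans ?_
            linarith)
        have h6 : SolvableOn (Fin.append (fun _ : Fin 1 => x) w)
            {z | z ∈ Δ ∧ ∀ i, ‖a i z - a i b‖ < ε₂ / 4} CL := by
          refine ⟨Fin.append (fun _ : Fin 1 => h₀) h, fun j => ?_, fun j => ?_, fun z hz => ?_⟩
          · refine Fin.addCases (fun i => ?_) (fun j => ?_) j
            · rw [Fin.append_left]; exact h1
            · rw [Fin.append_right]; exact h2 j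
          · refine Fin.addCases (fun i => ?_) (fun j => ?_) j
            · rw [Fin.append_left]; exact h3
            · rw [Fin.append_right]; exact h4 j
          · rw [Fin.sum_univ_add, Fin.sum_univ_one]
            simp only [Fin.append_left, Fin.append_right]
            rw [hx]
            exact h5 z hz
        refine solv_sub (solv_map' (f' := f) (Fin.natAdd K) (fun j z _ => by rw [hfr]) h6)
          Subset.rfl ?_
        rw [hB]
        have : 0 ≤ ((1 : ℕ) : ℝ) * |4 / ε₂| := by positivity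
        linarith
      · push Not at hc
        obtain ⟨i, hi⟩ := hc
        have hlow : ∀ z ∈ {z | z ∈ Δ ∧ ∀ i, ‖a i z - a i b‖ < ε₂ / 4}, ε₂ / 4 ≤ ‖v i z‖ := by
          rintro z ⟨hz, hzp⟩
          have h3 : a i b - Φ.φ (cf (a i)) = (a i z - Φ.φ (cf (a i))) - (a i z - a i b) := by ring
          rw [h3] at hi
          have h4 := norm_sub_le (a i z - Φ.φ (cf (a i))) (a i z - a i b)
          have h5 := hzp i
          rw [hv]
          linarith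
        have hne : ∀ z ∈ {z | z ∈ Δ ∧ ∀ i, ‖a i z - a i b‖ < ε₂ / 4}, v i z ≠ 0 := by
          intro z hz h0
          have := hlow z hz
          rw [h0, norm_zero] at this
          linarith
        have h2 : SolvableOn (fun (_ : Fin 1) => v i)
            {z | z ∈ Δ ∧ ∀ i, ‖a i z - a i b‖ < ε₂ / 4} (4 / ε₂) := by
          refine ⟨fun _ z => (v i z)⁻¹, fun _ => ?_, fun _ z hz => ?_, fun z hz => ?_⟩
          · exact (((hvB i).holo ()).mono fun z hz => hz.1).fun_inv hne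
          · rw [norm_inv, inv_le_comm₀ (norm_pos_iff.mpr (hne z hz)) (by positivity), inv_div]
            exact hlow z hz
          · rw [Fin.sum_univ_one]
            exact mul_inv_cancel₀ (hne z hz)
        refine solv_sub (solv_map' (f' := f) (fun _ : Fin 1 => Fin.castAdd (1 + N) i)
          (fun j z _ => by rw [hfl]) h2) Subset.rfl ?_
        rw [hB]
        have : 0 ≤ ((1 + N : ℕ) : ℝ) * |CL| := by positivity
        linarith)
  have hBh : ∀ j, BH Δ (cf (h j)) := fun j => ⟨fun _ => hd j, C', fun _ z hz => hb j z hz⟩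
  have h1 : Φ.φ (fun t z => ∑ j ∈ Finset.univ, cf (f j) t z * cf (h j) t z) = 0 := by
    rw [Char.map_sum Φ fun j _ => (hfB j).mul (hBh j)]
    apply Finset.sum_eq_zero
    intro j _
    rw [Φ.map_mul (hfB j) (hBh j), hf0, zero_mul]
  have h2 : Φ.φ (fun t z => ∑ j ∈ Finset.univ, cf (f j) t z * cf (h j) t z) = 1 := by
    rw [Char.congr Φ (BH.const (Δ := Δ) (I := Unit) 1) (fun _ z hz => hs z hz), Φ.map_const]
  rw [h1] at h2
  exact zero_ne_one h2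

end Pool.Agent.MPca0fc2.IND
end
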