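import Pool.Agent.Lib.MP_ca0fc2_an.Mg.G059
import Pool.Agent.Lib.MP_ca0fc2_an.Mg.G046

section

/-! Test functions and integration by parts. -/

set_option autoImplicit false

open Metric Set MeasureTheory Filter Topology
open scoped ContDiff

namespace Pool.Agent.MPca0fc2.LV

open Pool.Agent.MPca0fc2.FD (Ec ee)

variable {n : ℕ}

private theorem A3_TF {Ω : Set (Ec n)} {v w : Ec n → ℂ} (hv : TF Ω v) (hw : ContDiff ℝ ∞ w)
    (hs : Function.support w ⊆ tsupport v) : TF Ω w :=
  ⟨hw, hv.cpt.mono' hs, (closure_minimal hs (isClosed_tsupport v)).trans hv.sub⟩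

private theorem A3_ev {Ω : Set (Ec n)} {v : Ec n → ℂ} (hs : tsupport v ⊆ Ω) {x : Ec n}
    (hx : x ∉ Ω) (a : Ec n → ℂ) : (fun z => a z * v z) =ᶠ[𝓝 x] fun _ => 0 := by
  have h1 : v =ᶠ[𝓝 x] 0 := notMem_tsupport_iff_eventuallyEq.mp fun h => hx (hs h)
  filter_upwards [h1] with z hz
  rw [hz]
  exact mul_zero _

private theorem A3_int {Ω : Set (Ec n)} (hΩ : IsOpen Ω) {h w : Ec n → ℂ}
    (hh : ContinuousOn h Ω) (hw : Continuous w) (hc : HasCompactSupport w)
    (hs : tsupport w ⊆ Ω) : Integrable fun z => h z * w z := by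
  have h1 : Continuous fun z => h z * w z := by
    rw [continuous_iff_continuousAt]
    intro x
    by_cases hx : x ∈ Ω
    · exact (hh.continuousAt (hΩ.mem_nhds hx)).mul hw.continuousAt
    · exact (continuousAt_const (y := (0 : ℂ))).congr (A3_ev hs hx h).symm
  exact h1.integrable_of_hasCompactSupport (HasCompactSupport.mul_left hc)

private theorem A3_ibp {Ω : Set (Ec n)} (hΩ : IsOpen Ω) {u v : Ec n → ℂ}
    (hu : ContDiffOn ℝ 1 u Ω) (hv : TF Ω v) (Y : Ec n) :
    Integrable (fun z => u z * fderiv ℝ v z Y) ∧ Integrable (fun z => fderiv ℝ u z Y * v z) ∧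
      ∫ z, u z * fderiv ℝ v z Y = -∫ z, fderiv ℝ u z Y * v z := by
  have hcu : ContinuousOn (fun z => fderiv ℝ u z Y) Ω :=
    (hu.continuousOn_fderiv_of_isOpen hΩ le_rfl).clm_apply continuousOn_const
  have hv1 : ContDiff ℝ 1 v := hv.sm.of_le (by exact_mod_cast le_top)
  have hcv : Continuous fun z => fderiv ℝ v z Y :=
    (hv1.continuous_fderiv (by norm_num)).clm_apply continuous_const
  have i1 : Integrable fun z => u z * fderiv ℝ v z Y := by
    refine A3_int hΩ hu.continuousOn hcv (hv.cpt.fderiv_apply (𝕜 := ℝ) Y) ?_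
    refine (closure_minimal ?_ (isClosed_tsupport v)).trans hv.sub
    intro z hz
    by_contra h
    refine hz ?_
    have h2 : fderiv ℝ v z = 0 := by
      by_contra h3
      exact h (tsupport_fderiv_subset ℝ (subset_tsupport _ h3))
    show fderiv ℝ v z Y = 0
    rw [h2]
    rfl
  have i2 : Integrable fun z => fderiv ℝ u z Y * v z :=
    A3_int hΩ hcu hv.sm.continuous hv.cpt hv.sub
  have i3 : Integrable fun z => u z * v z :=
    A3_int hΩ hu.continuousOn hv.sm.continuous hv.cpt hv.sub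
  refine ⟨i1, i2, ?_⟩
  exact integral_mul_fderiv_eq_neg_fderiv_mul_of_integrable i2 i1 i3
    (fun x hx => (hu.contDiffAt (hΩ.mem_nhds (hv.sub hx))).differentiableAt (by norm_num))
    fun x _ => hv1.differentiable (by norm_num) x

/-- PROOF. The product is `C^∞` on `Ω` and is zero on the open set `(tsupport v)ᶜ`; the two open sets cover the space. -/
theorem TF_mul {Ω : Set (Ec n)} (hΩ : IsOpen Ω) {a v : Ec n → ℂ} (ha : ContDiffOn ℝ ∞ a Ω)
    (hv : TF Ω v) : TF Ω fun z => a z * v z := by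
  refine A3_TF hv ?_ ?_
  · rw [contDiff_iff_contDiffAt]
    intro x
    by_cases hx : x ∈ Ω
    · exact (ha.contDiffAt (hΩ.mem_nhds hx)).mul hv.sm.contDiffAt
    · exact contDiffAt_const.congr_of_eventuallyEq (A3_ev hv.sub hx a)
  · intro z hz
    refine subset_tsupport _ fun h => hz ?_
    show a z * v z = 0
    rw [h, mul_zero]

/-- PROOF. Clear (`tsupport_fderiv_subset`). -/
theorem TF_dj {Ω : Set (Ec n)} {v : Ec n → ℂ} (hv : TF Ω v) (k : Fin n) :
    TF Ω (dj k v) ∧ TF Ω (dk k v) := by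
  have hF : ∀ Y : Ec n, ContDiff ℝ ∞ fun z => fderiv ℝ v z Y := fun Y =>
    (hv.sm.fderiv_right (m := ∞) (by simp)).clm_apply contDiff_const
  have h0 : ∀ z, z ∉ tsupport v → fderiv ℝ v z = 0 := by
    intro z h
    by_contra h3
    exact h (tsupport_fderiv_subset ℝ (subset_tsupport _ h3))
  constructor
  · refine A3_TF hv ?_ ?_
    · exact ((hF (ee k)).sub (contDiff_const.mul (hF (Complex.I • ee k)))).div_const 2
    · intro z hz
      by_contra h
      refine hz ?_
      unfold dj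
      rw [h0 z h]
      simp
  · refine A3_TF hv ?_ ?_
    · exact ((hF (ee k)).add (contDiff_const.mul (hF (Complex.I • ee k)))).div_const 2
    · intro z hz
      by_contra h
      refine hz ?_
      unfold dk
      rw [h0 z h]
      simp

/-- PROOF. Clear. -/
theorem TF_conj {Ω : Set (Ec n)} {v : Ec n → ℂ} (hv : TF Ω v) :
    TF Ω fun z => (starRingEnd ℂ) (v z) := by
  refine A3_TF hv (Complex.conjCLE.contDiff.comp hv.sm) ?_
  intro z hz
  refine subset_tsupport _ fun h => hz ?_
  show (starRingEnd ℂ) (v z) = 0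
  rw [h, map_zero]

/-- PROOF. Clear. -/
theorem TF_add {Ω : Set (Ec n)} {u v : Ec n → ℂ} (hu : TF Ω u) (hv : TF Ω v) :
    TF Ω fun z => u z + v z := by
  have hs : Function.support (fun z => u z + v z) ⊆ tsupport u ∪ tsupport v := by
    intro z hz
    by_contra h
    rw [mem_union, not_or] at h
    refine hz ?_
    show u z + v z = 0
    rw [image_eq_zero_of_notMem_tsupport h.1, image_eq_zero_of_notMem_tsupport h.2, add_zero]
  have hcl : tsupport (fun z => u z + v z) ⊆ tsupport u ∪ tsupport v :=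
    closure_minimal hs ((isClosed_tsupport u).union (isClosed_tsupport v))
  refine ⟨hu.sm.add hv.sm, ?_, hcl.trans (union_subset hu.sub hv.sub)⟩
  exact (hu.cpt.isCompact.union hv.cpt.isCompact).of_isClosed_subset (isClosed_tsupport _) hcl

/-- PROOF. Clear: sum by induction. -/
theorem TF_sum {Ω : Set (Ec n)} {ι : Type*} (s : Finset ι) {u : ι → Ec n → ℂ} (hu : ∀ i ∈ s, TF Ω (u i)) :
    TF Ω fun z => ∑ i ∈ s, u i z := by
  classical
  induction s using Finset.induction_on with
  | empty =>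
    have h : (fun _ : Ec n => ∑ i ∈ (∅ : Finset ι), u i ‹_›) = fun _ => (0 : ℂ) := by
      funext z
      exact Finset.sum_empty
    rw [h]
    refine ⟨contDiff_const, ?_, ?_⟩
    · exact HasCompactSupport.zero
    · have h1 : tsupport (fun _ : Ec n => (0 : ℂ)) = ∅ := tsupport_eq_empty_iff.mpr rfl
      rw [h1]
      exact empty_subset _
  | insert a s ha ih =>
    have h : (fun z => ∑ i ∈ insert a s, u i z) = fun z => u a z + ∑ i ∈ s, u i z := by
      funext z
      exact Finset.sum_insert ha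
    rw [h]
    exact TF_add (hu a (Finset.mem_insert_self a s))
      (ih fun i hi => hu i (Finset.mem_insert_of_mem hi))

/-- Integration by parts.
PROOF. Multiply `u` by a cut-off function which is `1` near `tsupport v` (or: the product `u * v`, extended by zero, is
`C¹` with compact support), `∫ fderiv ℝ (u v) z X = 0` (`integral_mul_fderiv_eq_neg_fderiv_mul_of_integrable` or
`integral_bilinear_hasLineDerivAt_right_eq_neg_left_of_integrable`, in
`Mathlib/Analysis/Calculus/LineDeriv/IntegrationByParts.lean`). -/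
theorem ibp_dk {Ω : Set (Ec n)} (hΩ : IsOpen Ω) {u v : Ec n → ℂ} (hu : ContDiffOn ℝ 1 u Ω)
    (hv : TF Ω v) (k : Fin n) :
    ∫ z, u z * dk k v z = -∫ z, dk k u z * v z := by
  obtain ⟨a1, a2, a3⟩ := A3_ibp hΩ hu hv (ee k)
  obtain ⟨b1, b2, b3⟩ := A3_ibp hΩ hu hv (Complex.I • ee k)
  have e1 : (fun z => u z * dk k v z) = fun z => (1 / 2 : ℂ) * (u z * fderiv ℝ v z (ee k)) +
      (Complex.I / 2) * (u z * fderiv ℝ v z (Complex.I • ee k)) := by
    funext z
    unfold dk
    ring
  have e2 : (fun z => dk k u z * v z) = fun z => (1 / 2 : ℂ) * (fderiv ℝ u z (ee k) * v z) +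
      (Complex.I / 2) * (fderiv ℝ u z (Complex.I • ee k) * v z) := by
    funext z
    unfold dk
    ring
  rw [e1, e2, integral_add (a1.const_mul _) (b1.const_mul _),
    integral_add (a2.const_mul _) (b2.const_mul _), integral_const_mul, integral_const_mul,
    integral_const_mul, integral_const_mul, a3, b3]
  ring

/-- PROOF. As `ibp_dk`. -/
theorem ibp_dj {Ω : Set (Ec n)} (hΩ : IsOpen Ω) {u v : Ec n → ℂ} (hu : ContDiffOn ℝ 1 u Ω)
    (hv : TF Ω v) (k : Fin n) :
    ∫ z, u z * dj k v z = -∫ z, dj k u z * v z := by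
  obtain ⟨a1, a2, a3⟩ := A3_ibp hΩ hu hv (ee k)
  obtain ⟨b1, b2, b3⟩ := A3_ibp hΩ hu hv (Complex.I • ee k)
  have e1 : (fun z => u z * dj k v z) = fun z => (1 / 2 : ℂ) * (u z * fderiv ℝ v z (ee k)) +
      (-(Complex.I / 2)) * (u z * fderiv ℝ v z (Complex.I • ee k)) := by
    funext z
    unfold dj
    ring
  have e2 : (fun z => dj k u z * v z) = fun z => (1 / 2 : ℂ) * (fderiv ℝ u z (ee k) * v z) +
      (-(Complex.I / 2)) * (fderiv ℝ u z (Complex.I • ee k) * v z) := by
    funext z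
    unfold dj
    ring
  rw [e1, e2, integral_add (a1.const_mul _) (b1.const_mul _),
    integral_add (a2.const_mul _) (b2.const_mul _), integral_const_mul, integral_const_mul,
    integral_const_mul, integral_const_mul, a3, b3]
  ring

end Pool.Agent.MPca0fc2.LV
end

section

/-! The basic inequality for smooth forms with compact support. -/

set_option autoImplicit false

open Metric Set MeasureTheory Filter Topology
open scoped ContDiff

namespace Pool.Agent.MPca0fc2.LV

open Pool.Agent.MPca0fc2.FD (Ec ee)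
open Pool.Agent.Lib.MP_ca0fc2_an (leviForm)

variable {n : ℕ}

private theorem h1_int {Ω : Set (Ec n)} {v : Ec n → ℂ} (hv : TF Ω v) : Integrable v volume :=
  hv.sm.continuous.integrable_of_hasCompactSupport hv.cpt

private theorem h1_out {Ω : Set (Ec n)} {v : Ec n → ℂ} (hv : TF Ω v) {z : Ec n} (hz : z ∉ Ω) :
    v z = 0 := by
  by_contra h
  exact hz (hv.sub (subset_tsupport _ h))

private theorem h1_exp {Ω : Set (Ec n)} {φ : Ec n → ℝ} (hφ : ContDiffOn ℝ ∞ φ Ω) :
    ContDiffOn ℝ ∞ (fun z => ((Real.exp (-φ z) : ℝ) : ℂ)) Ω := by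
  have h1 : ContDiffOn ℝ ∞ (fun z => Real.exp (-φ z)) Ω :=
    Real.contDiff_exp.comp_contDiffOn hφ.neg
  exact Complex.ofRealCLM.contDiff.comp_contDiffOn h1

private theorem h1_dr_exp {φ : Ec n → ℝ} {z : Ec n} (hφ : DifferentiableAt ℝ φ z) (k : Fin n) :
    dj k (fun w => ((Real.exp (-φ w) : ℝ) : ℂ)) z = -(dr φ z k) * ((Real.exp (-φ z) : ℝ) : ℂ) := by
  have h1 : DifferentiableAt ℝ (fun w => Real.exp (-φ w)) z := hφ.neg.exp
  rw [(dj_real h1 k).1]
  have h2 : fderiv ℝ (fun w => Real.exp (-φ w)) z = Real.exp (-φ z) • (-(fderiv ℝ φ z)) := by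
    have := (hφ.hasFDerivAt.neg).exp
    exact this.fderiv
  unfold dr
  rw [h2]
  simp only [smul_apply, neg_apply, smul_eq_mul]
  push_cast
  ring

private theorem h1_TF_delta {Ω : Set (Ec n)} (hΩ : IsOpen Ω) {φ : Ec n → ℝ} (hφ : ContDiffOn ℝ ∞ φ Ω)
    {w : Ec n → ℂ} (hw : TF Ω w) (k : Fin n) : TF Ω (fun z => dj k w z - w z * dr φ z k) := by
  have h1 : TF Ω (fun z => (-dr φ z k) * w z) := TF_mul hΩ (dr_smooth hΩ hφ k).neg hw
  have h2 := TF_add (TF_dj hw k).1 h1
  have h3 : (fun z => dj k w z - w z * dr φ z k) = (fun z => dj k w z + (-dr φ z k) * w z) := by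
    funext z
    ring
  rw [h3]
  exact h2

/-- The adjoint of `dk k` for the weight `exp (-φ)`.
PROOF. `ibp_dj` for the functions `u = conj v * exp (-φ)` (smooth on `Ω`) and `w`:
`∫ w ∂_k (conj v e^{-φ}) = -∫ ∂_k w conj v e^{-φ}`, `∂_k (conj v e^{-φ}) = (conj (∂̄_k v) - conj v ∂_k φ) e^{-φ}`. -/
theorem adj_dk {Ω : Set (Ec n)} (hΩ : IsOpen Ω) {φ : Ec n → ℝ} (hφ : ContDiffOn ℝ ∞ φ Ω) {w v : Ec n → ℂ}
    (hw : TF Ω w) (hv : TF Ω v) (k : Fin n) :
    ∫ z, (dj k w z - w z * dr φ z k) * (starRingEnd ℂ) (v z) * (Real.exp (-φ z) : ℂ) =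
      -∫ z, w z * (starRingEnd ℂ) (dk k v z) * (Real.exp (-φ z) : ℂ) := by
  have hcv := TF_conj hv
  have hE := h1_exp hφ
  have hu : ContDiffOn ℝ ∞ (fun z => (starRingEnd ℂ) (v z) * ((Real.exp (-φ z) : ℝ) : ℂ)) Ω :=
    hcv.sm.contDiffOn.mul hE
  have hib := ibp_dj hΩ (hu.of_le (by exact_mod_cast le_top)) hw k
  have hdiffφ : ∀ z ∈ Ω, DifferentiableAt ℝ φ z := fun z hz =>
    (hφ.contDiffAt (hΩ.mem_nhds hz)).differentiableAt (by simp)
  have hdu : ∀ z ∈ Ω, dj k (fun z => (starRingEnd ℂ) (v z) * ((Real.exp (-φ z) : ℝ) : ℂ)) z =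
      (starRingEnd ℂ) (dk k v z) * ((Real.exp (-φ z) : ℝ) : ℂ) +
        (starRingEnd ℂ) (v z) * (-(dr φ z k) * ((Real.exp (-φ z) : ℝ) : ℂ)) := by
    intro z hz
    have hE1 : DifferentiableAt ℝ (fun w => ((Real.exp (-φ w) : ℝ) : ℂ)) z :=
      (hE.contDiffAt (hΩ.mem_nhds hz)).differentiableAt (by simp)
    rw [(dj_mul (hcv.sm.differentiable (by simp) z) hE1 k).1,
      (dj_conj (hv.sm.differentiable (by simp) z) k).1, h1_dr_exp (hdiffφ z hz) k]
  have hI1 : Integrable (fun z => (starRingEnd ℂ) (v z) * ((Real.exp (-φ z) : ℝ) : ℂ) * dj k w z)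
      volume := h1_int (TF_mul hΩ hu (TF_dj hw k).1)
  have hI2 : Integrable (fun z => (dr φ z k * ((starRingEnd ℂ) (v z) *
      ((Real.exp (-φ z) : ℝ) : ℂ))) * w z) volume :=
    h1_int (TF_mul hΩ ((dr_smooth hΩ hφ k).mul hu) hw)
  have hI3 : Integrable (fun z => dj k (fun z => (starRingEnd ℂ) (v z) *
      ((Real.exp (-φ z) : ℝ) : ℂ)) z * w z) volume :=
    h1_int (TF_mul hΩ (dj_smooth hΩ hu k).1 hw)
  have e1 : (fun z => (dj k w z - w z * dr φ z k) * (starRingEnd ℂ) (v z) *
      (Real.exp (-φ z) : ℂ)) = fun z =>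
        ((starRingEnd ℂ) (v z) * ((Real.exp (-φ z) : ℝ) : ℂ) * dj k w z) -
        (dr φ z k * ((starRingEnd ℂ) (v z) * ((Real.exp (-φ z) : ℝ) : ℂ))) * w z := by
    funext z
    ring
  rw [e1, integral_sub hI1 hI2, hib, ← neg_add', ← integral_add hI3 hI2]
  congr 2
  funext z
  by_cases hz : z ∈ Ω
  · simp only [hdu z hz]
    ring
  · have h0 := h1_out hw hz
    simp only [h0]
    ring

private theorem h1_dk_sub {u v : Ec n → ℂ} {z : Ec n} (hu : DifferentiableAt ℝ u z)
    (hv : DifferentiableAt ℝ v z) (k : Fin n) :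
    dk k (fun w => u w - v w) z = dk k u z - dk k v z := by
  unfold dk
  rw [fderiv_fun_sub hu hv]
  simp only [sub_apply]
  ring

/-- The commutator.
PROOF. `δ_k w = ∂_k w - w ∂_k φ`. `∂̄_j (δ_k w) - δ_k (∂̄_j w) = -w ∂̄_j ∂_k φ` (`dk_dj_comm`, product rule), at the
points of `Ω`. -/
theorem comm_dk {Ω : Set (Ec n)} (hΩ : IsOpen Ω) {φ : Ec n → ℝ} (hφ : ContDiffOn ℝ ∞ φ Ω) {w : Ec n → ℂ}
    (hw : TF Ω w) (j k : Fin n) {z : Ec n} (hz : z ∈ Ω) :
    dk j (fun y => dj k w y - w y * dr φ y k) z =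
      (dj k (dk j w) z - dk j w z * dr φ z k) - w z * dk j (fun y => dr φ y k) z := by
  have hdr : DifferentiableAt ℝ (fun y => dr φ y k) z :=
    ((dr_smooth hΩ hφ k).contDiffAt (hΩ.mem_nhds hz)).differentiableAt (by simp)
  have hw1 : DifferentiableAt ℝ w z := hw.sm.differentiable (by simp) z
  have hdw : DifferentiableAt ℝ (dj k w) z := (TF_dj hw k).1.sm.differentiable (by simp) z
  have hp : DifferentiableAt ℝ (fun y => w y * dr φ y k) z := hw1.mul hdr
  rw [h1_dk_sub hdw hp j, (dj_mul hw1 hdr j).2,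
    dk_dj_comm (hw.sm.contDiffAt.of_le (WithTop.coe_le_coe.2 (le_top : (2 : ℕ∞) ≤ ⊤))) j k]
  ring

private theorem h1_pqr {Ω : Set (Ec n)} (hΩ : IsOpen Ω) {φ : Ec n → ℝ} (hφ : ContDiffOn ℝ ∞ φ Ω)
    {f : Fin n → Ec n → ℂ} (hf : ∀ j, TF Ω (f j)) (j k : Fin n) :
    ∫ z, (dj j (f j) z - f j z * dr φ z j) *
        (starRingEnd ℂ) (dj k (f k) z - f k z * dr φ z k) * (Real.exp (-φ z) : ℂ) =
      (∫ z, dk k (f j) z * (starRingEnd ℂ) (dk j (f k) z) * (Real.exp (-φ z) : ℂ)) +
      ∫ z, f j z * (starRingEnd ℂ) (f k z) *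
        (starRingEnd ℂ) (dk j (fun y => dr φ y k) z) * (Real.exp (-φ z) : ℂ) := by
  have hd := h1_TF_delta hΩ hφ (hf k) k
  have hE := h1_exp hφ
  have h1 := adj_dk hΩ hφ (hf j) hd j
  rw [h1]
  have hdk := (TF_dj (hf k) j).2
  have hd2 := h1_TF_delta hΩ hφ hdk k
  have h2 := adj_dk hΩ hφ hdk (hf j) k
  have h3 := congrArg (starRingEnd ℂ) h2
  rw [map_neg, ← integral_conj, ← integral_conj] at h3
  have hI1 : Integrable (fun z => dk k (f j) z * (starRingEnd ℂ) (dk j (f k) z) *
      (Real.exp (-φ z) : ℂ)) volume := by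
    have h := h1_int (TF_mul hΩ (((TF_conj hdk).sm.contDiffOn).mul hE) (TF_dj (hf j) k).2)
    refine h.congr (Eventually.of_forall fun z => ?_)
    ring
  have hI2 : Integrable (fun z => f j z * (starRingEnd ℂ) (f k z) *
        (starRingEnd ℂ) (dk j (fun y => dr φ y k) z) * (Real.exp (-φ z) : ℂ)) volume := by
    have hs : ContDiffOn ℝ ∞ (fun z => (starRingEnd ℂ) (dk j (fun y => dr φ y k) z)) Ω :=
      Complex.conjCLE.contDiff.comp_contDiffOn (dj_smooth hΩ (dr_smooth hΩ hφ k) j).2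
    have h := h1_int (TF_mul hΩ (((TF_conj (hf k)).sm.contDiffOn).mul (hs.mul hE)) (hf j))
    refine h.congr (Eventually.of_forall fun z => ?_)
    ring
  have hI3 : Integrable (fun z => f j z * (starRingEnd ℂ)
      (dk j (fun y => dj k (f k) y - f k y * dr φ y k) z) * (Real.exp (-φ z) : ℂ)) volume := by
    have h := h1_int (TF_mul hΩ (((TF_conj (TF_dj hd j).2).sm.contDiffOn).mul hE) (hf j))
    refine h.congr (Eventually.of_forall fun z => ?_)
    ring
  have hI4 : Integrable (fun z => (starRingEnd ℂ) ((dj k (dk j (f k)) z - dk j (f k) z * dr φ z k) *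
      (starRingEnd ℂ) (f j z) * (Real.exp (-φ z) : ℂ))) volume := by
    have h := h1_int (TF_mul hΩ (((TF_conj hd2).sm.contDiffOn).mul hE) (hf j))
    refine h.congr (Eventually.of_forall fun z => ?_)
    simp only [map_mul, Complex.conj_conj, Complex.conj_ofReal]
    ring
  have h4 : ∫ z, dk k (f j) z * (starRingEnd ℂ) (dk j (f k) z) * (Real.exp (-φ z) : ℂ) =
      -∫ z, (starRingEnd ℂ) ((dj k (dk j (f k)) z - dk j (f k) z * dr φ z k) *
        (starRingEnd ℂ) (f j z) * (Real.exp (-φ z) : ℂ)) := by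
    rw [h3, neg_neg]
    congr 1
    funext z
    simp only [map_mul, Complex.conj_conj, Complex.conj_ofReal]
    ring
  rw [h4, neg_add_eq_sub, eq_sub_iff_add_eq, neg_add_eq_sub, sub_eq_iff_eq_add, ← integral_add hI2 hI3]
  congr 1
  funext z
  by_cases hz : z ∈ Ω
  · have h5 := comm_dk hΩ hφ (hf k) j k hz
    rw [h5]
    simp only [map_mul, map_sub, Complex.conj_conj, Complex.conj_ofReal]
    ring
  · have h0 := h1_out (hf j) hz
    simp [h0]

private theorem h1_alg {ι : Type*} [Fintype ι] (a : ι → ι → ℂ) :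
    (∑ j, ∑ k, a k j * (starRingEnd ℂ) (a j k)).re + (1 / 2) * ∑ j, ∑ k, ‖a j k - a k j‖ ^ 2 =
      ∑ j, ∑ k, ‖a j k‖ ^ 2 := by
  have h1 : ∀ j k, ‖a j k - a k j‖ ^ 2 = ‖a j k‖ ^ 2 + ‖a k j‖ ^ 2 -
      2 * (a k j * (starRingEnd ℂ) (a j k)).re := by
    intro j k
    rw [← Complex.normSq_eq_norm_sq, ← Complex.normSq_eq_norm_sq, ← Complex.normSq_eq_norm_sq]
    simp only [Complex.normSq_apply, Complex.mul_re, Complex.conj_re, Complex.conj_im,
      Complex.sub_re, Complex.sub_im]
    ring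
  have h2 : ∑ j, ∑ k, ‖a k j‖ ^ 2 = ∑ j, ∑ k, ‖a j k‖ ^ 2 := Finset.sum_comm
  simp only [h1, Complex.re_sum, Finset.sum_sub_distrib, Finset.sum_add_distrib, ← Finset.mul_sum,
    h2]
  ring

/-- The basic inequality.
PROOF. Let `δ_j w = ∂_j w - w ∂_j φ`, `(u, v) = ∫ u conj v e^{-φ}`. All integrands are continuous with compact support in
`Ω`. By `adj_dk`, `(δ_j w, v) = -(w, ∂̄_j v)` for test functions `w, v` (note that `δ_k f_k` is again a test function, `TF_mul`, ..).
So `(δ_j f_j, δ_k f_k) = -(f_j, ∂̄_j δ_k f_k)` and `(∂̄_k f_j, ∂̄_j f_k) = conj (∂̄_j f_k, ∂̄_k f_j)`; more precisely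
`(∂̄_k f_j, ∂̄_j f_k) = -(f_j, δ_k ∂̄_j f_k)` (the conjugate of `adj_dk`: `(v, δ_k w) = -(∂̄_k v, w)`). By `comm_dk`
`(δ_j f_j, δ_k f_k) - (∂̄_k f_j, ∂̄_j f_k) = (f_j, f_k ∂̄_j ∂_k φ)`. The sum over `j, k` of
`f_j conj (f_k) conj (∂̄_j ∂_k φ)` is the conjugate of `∑ conj (f_j) f_k ∂̄_j∂_k φ = leviForm φ z f` (`lev_coord`), real. So
`∫ |∑ δ_j f_j|² e^{-φ} - ∑_{j,k} (∂̄_k f_j, ∂̄_j f_k) = ∫ leviForm φ z f e^{-φ}`, and
`(1/2) ∑_{j,k} |∂̄_j f_k - ∂̄_k f_j|² = ∑_{j,k} |∂̄_j f_k|² - Re ∑_{j,k} ∂̄_j f_k conj (∂̄_k f_j)`, so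
`-Re ∑ (∂̄_k f_j, ∂̄_j f_k) = (1/2) ∫ ∑ |∂̄_j f_k - ∂̄_k f_j|² e^{-φ} - ∫ ∑ |∂̄_j f_k|² e^{-φ}`. Take real parts. -/
theorem basic {Ω : Set (Ec n)} (hΩ : IsOpen Ω) {φ : Ec n → ℝ} (hφ : ContDiffOn ℝ ∞ φ Ω)
    {f : Fin n → Ec n → ℂ} (hf : ∀ j, TF Ω (f j)) :
    ∫ z, leviForm φ z (WithLp.toLp 2 fun j => f j z) * Real.exp (-φ z) ≤
      (∫ z, ‖∑ j, (dj j (f j) z - f j z * dr φ z j)‖ ^ 2 * Real.exp (-φ z)) +
        (1 / 2) * ∫ z, (∑ j, ∑ k, ‖dk j (f k) z - dk k (f j) z‖ ^ 2) * Real.exp (-φ z) := by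
  have hE := h1_exp hφ
  have hpqr := h1_pqr hΩ hφ hf
  -- integrability
  have hP : ∀ j k, Integrable (fun z => (dj j (f j) z - f j z * dr φ z j) *
        (starRingEnd ℂ) (dj k (f k) z - f k z * dr φ z k) * (Real.exp (-φ z) : ℂ)) volume := by
    intro j k
    have h := h1_int (TF_mul hΩ (((TF_conj (h1_TF_delta hΩ hφ (hf k) k)).sm.contDiffOn).mul hE)
      (h1_TF_delta hΩ hφ (hf j) j))
    refine h.congr (Eventually.of_forall fun z => ?_)
    ring
  have hQ : ∀ j k, Integrable (fun z => dk k (f j) z * (starRingEnd ℂ) (dk j (f k) z) *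
      (Real.exp (-φ z) : ℂ)) volume := by
    intro j k
    have h := h1_int (TF_mul hΩ (((TF_conj (TF_dj (hf k) j).2).sm.contDiffOn).mul hE)
      (TF_dj (hf j) k).2)
    refine h.congr (Eventually.of_forall fun z => ?_)
    ring
  have hL : ∀ j k, Integrable (fun z => f j z * (starRingEnd ℂ) (f k z) *
        (starRingEnd ℂ) (dk j (fun y => dr φ y k) z) * (Real.exp (-φ z) : ℂ)) volume := by
    intro j k
    have hs : ContDiffOn ℝ ∞ (fun z => (starRingEnd ℂ) (dk j (fun y => dr φ y k) z)) Ω :=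
      Complex.conjCLE.contDiff.comp_contDiffOn (dj_smooth hΩ (dr_smooth hΩ hφ k) j).2
    have h := h1_int (TF_mul hΩ (((TF_conj (hf k)).sm.contDiffOn).mul (hs.mul hE)) (hf j))
    refine h.congr (Eventually.of_forall fun z => ?_)
    ring
  have hB : ∀ j k, Integrable (fun z => ‖dk j (f k) z - dk k (f j) z‖ ^ 2 * Real.exp (-φ z))
      volume := by
    intro j k
    have h1 : TF Ω (fun z => dk j (f k) z + (-1 : ℂ) * dk k (f j) z) :=
      TF_add (TF_dj (hf k) j).2 (TF_mul hΩ contDiffOn_const (TF_dj (hf j) k).2)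
    have h := (h1_int (TF_mul hΩ (((TF_conj h1).sm.contDiffOn).mul hE) h1)).re
    refine h.congr (Eventually.of_forall fun z => ?_)
    have h2 : dk j (f k) z + (-1 : ℂ) * dk k (f j) z = dk j (f k) z - dk k (f j) z := by ring
    simp only [h2]
    have h3 : (starRingEnd ℂ) (dk j (f k) z - dk k (f j) z) * ((Real.exp (-φ z) : ℝ) : ℂ) *
        (dk j (f k) z - dk k (f j) z) =
        ((‖dk j (f k) z - dk k (f j) z‖ ^ 2 * Real.exp (-φ z) : ℝ) : ℂ) := by
      push_cast
      rw [← Complex.mul_conj']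
      ring
    rw [h3]
    exact Complex.ofReal_re _
  have hA : ∀ j k, Integrable (fun z => ‖dk j (f k) z‖ ^ 2 * Real.exp (-φ z)) volume := by
    intro j k
    have h1 := (TF_dj (hf k) j).2
    have h := (h1_int (TF_mul hΩ (((TF_conj h1).sm.contDiffOn).mul hE) h1)).re
    refine h.congr (Eventually.of_forall fun z => ?_)
    have h3 : (starRingEnd ℂ) (dk j (f k) z) * ((Real.exp (-φ z) : ℝ) : ℂ) *
        (dk j (f k) z) = ((‖dk j (f k) z‖ ^ 2 * Real.exp (-φ z) : ℝ) : ℂ) := by
      push_cast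
      rw [← Complex.mul_conj']
      ring
    simp only [h3]
    exact Complex.ofReal_re _
  -- the three sums
  have s1 : ∑ j, ∑ k, ∫ z, (dj j (f j) z - f j z * dr φ z j) *
        (starRingEnd ℂ) (dj k (f k) z - f k z * dr φ z k) * (Real.exp (-φ z) : ℂ) =
      ((∫ z, ‖∑ j, (dj j (f j) z - f j z * dr φ z j)‖ ^ 2 * Real.exp (-φ z) : ℝ) : ℂ) := by
    rw [← integral_complex_ofReal]
    simp_rw [← integral_finsetSum Finset.univ (fun k _ => hP _ k)]
    rw [← integral_finsetSum Finset.univ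
      (fun j _ => integrable_finsetSum Finset.univ (fun k _ => hP j k))]
    congr 1
    funext z
    push_cast
    rw [← Complex.mul_conj', map_sum, Finset.sum_mul_sum, Finset.sum_mul]
    refine Finset.sum_congr rfl fun j _ => ?_
    rw [Finset.sum_mul]
  have s3 : ∑ j, ∑ k, ∫ z, f j z * (starRingEnd ℂ) (f k z) *
        (starRingEnd ℂ) (dk j (fun y => dr φ y k) z) * (Real.exp (-φ z) : ℂ) =
      ((∫ z, leviForm φ z (WithLp.toLp 2 fun j => f j z) * Real.exp (-φ z) : ℝ) : ℂ) := by
    rw [← integral_complex_ofReal]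
    simp_rw [← integral_finsetSum Finset.univ (fun k _ => hL _ k)]
    rw [← integral_finsetSum Finset.univ
      (fun j _ => integrable_finsetSum Finset.univ (fun k _ => hL j k))]
    congr 1
    funext z
    by_cases hz : z ∈ Ω
    · have hc : ContDiffAt ℝ 2 φ z :=
        (hφ.contDiffAt (hΩ.mem_nhds hz)).of_le (WithTop.coe_le_coe.2 (le_top : (2 : ℕ∞) ≤ ⊤))
      have h1 := lev_coord hc (WithLp.toLp 2 fun j => f j z)
      have h2 : (leviForm φ z (WithLp.toLp 2 fun j => f j z) : ℂ) =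
          (starRingEnd ℂ) (leviForm φ z (WithLp.toLp 2 fun j => f j z) : ℂ) :=
        (Complex.conj_ofReal _).symm
      push_cast
      rw [h2, h1, map_sum, Finset.sum_comm, Finset.sum_mul]
      refine Finset.sum_congr rfl fun k _ => ?_
      rw [map_sum, Finset.sum_mul]
      refine Finset.sum_congr rfl fun j _ => ?_
      simp only [map_mul, Complex.conj_conj]
      ring
    · have h0 : ∀ j, f j z = 0 := fun j => h1_out (hf j) hz
      have h1 : leviForm φ z (WithLp.toLp 2 fun j => f j z) = 0 := by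
        have : (WithLp.toLp 2 fun j => f j z : Ec n) = 0 := by
          ext j
          simp [h0]
        rw [this]
        simp [leviForm]
      rw [h1]
      simp [h0]
  -- the middle sum
  have s2 : (∑ j, ∑ k, ∫ z, dk k (f j) z * (starRingEnd ℂ) (dk j (f k) z) *
      (Real.exp (-φ z) : ℂ)).re +
      (1 / 2) * ∫ z, (∑ j, ∑ k, ‖dk j (f k) z - dk k (f j) z‖ ^ 2) * Real.exp (-φ z) =
      ∫ z, (∑ j, ∑ k, ‖dk j (f k) z‖ ^ 2) * Real.exp (-φ z) := by
    have hQs : Integrable (fun z => ∑ j, ∑ k, dk k (f j) z * (starRingEnd ℂ) (dk j (f k) z) *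
      (Real.exp (-φ z) : ℂ)) volume :=
      integrable_finsetSum _ fun j _ => integrable_finsetSum _ fun k _ => hQ j k
    have hBs : Integrable (fun z => (∑ j, ∑ k, ‖dk j (f k) z - dk k (f j) z‖ ^ 2) *
        Real.exp (-φ z)) volume := by
      have h : Integrable (fun z => ∑ j, ∑ k, ‖dk j (f k) z - dk k (f j) z‖ ^ 2 *
        Real.exp (-φ z)) volume :=
        integrable_finsetSum _ fun j _ => integrable_finsetSum _ fun k _ => hB j k
      refine h.congr (Eventually.of_forall fun z => ?_)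
      simp only [Finset.sum_mul]
    simp_rw [← integral_finsetSum Finset.univ (fun k _ => hQ _ k)]
    rw [← integral_finsetSum Finset.univ
      (fun j _ => integrable_finsetSum Finset.univ (fun k _ => hQ j k))]
    have h1 : (∫ z, ∑ j, ∑ k, dk k (f j) z * (starRingEnd ℂ) (dk j (f k) z) *
        (Real.exp (-φ z) : ℂ)).re = ∫ z, (∑ j, ∑ k, dk k (f j) z * (starRingEnd ℂ) (dk j (f k) z) *
        (Real.exp (-φ z) : ℂ)).re := by
      have := integral_re hQs
      exact this.symm
    have hQre : Integrable (fun z => (∑ j, ∑ k, dk k (f j) z * (starRingEnd ℂ) (dk j (f k) z) *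
        (Real.exp (-φ z) : ℂ)).re) volume := hQs.re
    rw [h1, ← integral_const_mul, ← integral_add hQre (hBs.const_mul _)]
    congr 1
    funext z
    have h2 := h1_alg (fun j k => dk j (f k) z)
    have h3 : (∑ j, ∑ k, dk k (f j) z * (starRingEnd ℂ) (dk j (f k) z) *
        (Real.exp (-φ z) : ℂ)).re = (∑ j, ∑ k, dk k (f j) z * (starRingEnd ℂ) (dk j (f k) z)).re *
          Real.exp (-φ z) := by
      simp only [← Finset.sum_mul]
      rw [Complex.re_mul_ofReal]
    show (∑ j, ∑ k, dk k (f j) z * (starRingEnd ℂ) (dk j (f k) z) *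
        (Real.exp (-φ z) : ℂ)).re + 1 / 2 * ((∑ j, ∑ k, ‖dk j (f k) z - dk k (f j) z‖ ^ 2) *
        Real.exp (-φ z)) = _
    rw [h3, ← h2]
    ring
  have hsum : ∑ j, ∑ k, ∫ z, (dj j (f j) z - f j z * dr φ z j) *
        (starRingEnd ℂ) (dj k (f k) z - f k z * dr φ z k) * (Real.exp (-φ z) : ℂ) =
      (∑ j, ∑ k, ∫ z, dk k (f j) z * (starRingEnd ℂ) (dk j (f k) z) * (Real.exp (-φ z) : ℂ)) +
      ∑ j, ∑ k, ∫ z, f j z * (starRingEnd ℂ) (f k z) *
        (starRingEnd ℂ) (dk j (fun y => dr φ y k) z) * (Real.exp (-φ z) : ℂ) := by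
    simp_rw [hpqr, Finset.sum_add_distrib]
  rw [s1, s3] at hsum
  have hre := congrArg Complex.re hsum
  rw [Complex.add_re, Complex.ofReal_re, Complex.ofReal_re] at hre
  have hpos : 0 ≤ ∫ z, (∑ j, ∑ k, ‖dk j (f k) z‖ ^ 2) * Real.exp (-φ z) :=
    integral_nonneg fun z => mul_nonneg
      (Finset.sum_nonneg fun j _ => Finset.sum_nonneg fun k _ => sq_nonneg _) (Real.exp_pos _).le
  rw [hre]
  linarith

end Pool.Agent.MPca0fc2.LV
end

section

/-! Mollification in `L²`. -/

set_option autoImplicit false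

open Metric Set MeasureTheory Filter Topology
open scoped ContDiff ENNReal Convolution

namespace Pool.Agent.MPca0fc2.LV

open Pool.Agent.MPca0fc2.FD (Ec ee)

variable {n : ℕ}

/-- Translations are continuous in `L²`. -/
private theorem H2_trans {f : Ec n → ℂ} (hf : MemLp f 2 volume) :
    Tendsto (fun t : Ec n => eLpNorm (fun x => f (x - t) - f x) 2 volume) (𝓝 0) (𝓝 0) := by
  have hm : ∀ t : Ec n, MeasurePreserving (fun x : Ec n => x - t) volume volume :=
    fun t => measurePreserving_sub_right volume t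
  let g : Ec n → C(Ec n, Ec n) := fun t => ⟨fun x => x - t, by fun_prop⟩
  have hg : Continuous g := by
    refine ContinuousMap.continuous_of_continuous_uncurry _ ?_
    show Continuous fun p : Ec n × Ec n => p.2 - p.1
    fun_prop
  have h1 : Tendsto (fun t => Lp.compMeasurePreserving (g t) (hm t) (hf.toLp f)) (𝓝 0)
      (𝓝 (Lp.compMeasurePreserving (g 0) (hm 0) (hf.toLp f))) :=
    Filter.Tendsto.compMeasurePreservingLp tendsto_const_nhds (hg.tendsto 0) hm (hm 0)
      (by norm_num)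
  rw [tendsto_iff_edist_tendsto_0] at h1
  refine h1.congr fun t => ?_
  rw [Lp.toLp_compMeasurePreserving, Lp.toLp_compMeasurePreserving, Lp.edist_toLp_toLp]
  refine eLpNorm_congr_ae (Eventually.of_forall fun x => ?_)
  show f (x - t) - f (x - 0) = _
  rw [sub_zero]

/-- Jensen's inequality for the mollification. -/
private theorem H2_jensen (φ : ContDiffBump (0 : Ec n)) {h : Ec n → ℂ}
    (hh : AEStronglyMeasurable h volume) :
    ‖∫ t, φ.normed volume t • h t‖ₑ ^ (2 : ℝ) ≤
      ∫⁻ t, ENNReal.ofReal (φ.normed volume t) * ‖h t‖ₑ ^ (2 : ℝ) := by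
  have hρ : Measurable fun t => ENNReal.ofReal (φ.normed volume t) :=
    (φ.continuous_normed.measurable).ennreal_ofReal
  have h1 : ‖∫ t, φ.normed volume t • h t‖ₑ ≤ ∫⁻ t, ENNReal.ofReal (φ.normed volume t) * ‖h t‖ₑ := by
    refine (enorm_integral_le_lintegral_enorm _).trans (le_of_eq ?_)
    refine lintegral_congr fun t => ?_
    rw [enorm_smul, Real.enorm_of_nonneg (φ.nonneg_normed t)]
  have h2 : ∫⁻ t, ENNReal.ofReal (φ.normed volume t) = 1 := by
    rw [← ofReal_integral_eq_lintegral_ofReal φ.integrable_normed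
      (Eventually.of_forall φ.nonneg_normed), φ.integral_normed, ENNReal.ofReal_one]
  have h3 : ∫⁻ t, ENNReal.ofReal (φ.normed volume t) * ‖h t‖ₑ ≤
      (∫⁻ t, ENNReal.ofReal (φ.normed volume t)) ^ (1 / 2 : ℝ) *
      (∫⁻ t, ENNReal.ofReal (φ.normed volume t) * ‖h t‖ₑ ^ (2 : ℝ)) ^ (1 / 2 : ℝ) := by
    have h4 := ENNReal.lintegral_mul_le_Lp_mul_Lq (volume : Measure (Ec n)) Real.HolderConjugate.two_two
      (f := fun t => ENNReal.ofReal (φ.normed volume t) ^ (1 / 2 : ℝ))
      (g := fun t => ENNReal.ofReal (φ.normed volume t) ^ (1 / 2 : ℝ) * ‖h t‖ₑ)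
      (hρ.pow_const _).aemeasurable ((hρ.pow_const _).aemeasurable.mul hh.enorm)
    refine le_trans (le_of_eq ?_) (h4.trans (le_of_eq ?_))
    · refine lintegral_congr fun t => ?_
      show _ = ENNReal.ofReal (φ.normed volume t) ^ (1 / 2 : ℝ) *
        (ENNReal.ofReal (φ.normed volume t) ^ (1 / 2 : ℝ) * ‖h t‖ₑ)
      rw [← mul_assoc, ← ENNReal.rpow_add_of_nonneg _ _ (by norm_num) (by norm_num)]
      norm_num
    · congr 2
      · refine lintegral_congr fun t => ?_
        rw [← ENNReal.rpow_mul]; norm_num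
      · refine lintegral_congr fun t => ?_
        rw [ENNReal.mul_rpow_of_nonneg _ _ (by norm_num), ← ENNReal.rpow_mul]; norm_num
  have h5 := ENNReal.rpow_le_rpow (h1.trans h3) (by norm_num : (0 : ℝ) ≤ 2)
  refine h5.trans (le_of_eq ?_)
  rw [h2, ENNReal.one_rpow, one_mul, ← ENNReal.rpow_mul]
  norm_num

/-- The mollification of `f` at `x`, minus `f x`. -/
private theorem H2_sub (φ : ContDiffBump (0 : Ec n)) {f : Ec n → ℂ}
    (hf : LocallyIntegrable f volume) (x : Ec n) :
    (∫ t, φ.normed volume (x - t) • f t) - f x = ∫ t, φ.normed volume t • (f (x - t) - f x) := by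
  have h1 : ∫ t, φ.normed volume (x - t) • f t = ∫ t, φ.normed volume t • f (x - t) := by
    rw [← integral_sub_left_eq_self (fun t => φ.normed volume t • f (x - t)) volume x]
    refine integral_congr_ae (Eventually.of_forall fun t => ?_)
    simp
  have h2 : Integrable (fun t => φ.normed volume t • f (x - t)) volume := by
    have h3 : Integrable (fun t => φ.normed volume (x - t) • f t) volume := by
      refine hf.integrable_smul_left_of_hasCompactSupport
        (φ.continuous_normed.comp (by fun_prop)) ?_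
      exact φ.hasCompactSupport_normed.comp_homeomorph (Homeomorph.subLeft x)
    have h4 := h3.comp_sub_left x
    refine h4.congr (Eventually.of_forall fun t => ?_)
    simp
  have h5 : Integrable (fun t => φ.normed volume t • f x) volume :=
    φ.integrable_normed.smul_const _
  simp_rw [smul_sub]
  rw [integral_sub h2 h5, h1, φ.integral_normed_smul]

/-- The mollification. -/
private noncomputable def H2_mol (φ : ContDiffBump (0 : Ec n)) (f : Ec n → ℂ) (x : Ec n) : ℂ :=
  ∫ t, φ.normed volume (x - t) • f t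

private theorem H2_mol_eq (φ : ContDiffBump (0 : Ec n)) (f : Ec n → ℂ) :
    H2_mol φ f = (f ⋆[(ContinuousLinearMap.lsmul ℝ ℝ).flip, volume] φ.normed volume) := by
  funext x
  rfl

private theorem H2_le (φ : ContDiffBump (0 : Ec n)) {f : Ec n → ℂ} (hf : MemLp f 2 volume)
    {c : ℝ≥0∞} (hc : ∀ t ∈ ball (0 : Ec n) φ.rOut, eLpNorm (fun x => f (x - t) - f x) 2 volume ≤ c) :
    eLpNorm (fun x => H2_mol φ f x - f x) 2 volume ≤ c := by
  have hloc : LocallyIntegrable f volume := hf.locallyIntegrable (by norm_num)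
  have hm := hf.aestronglyMeasurable
  have hp : ∀ u : Ec n → ℂ, eLpNorm u 2 volume ^ (2 : ℝ) = ∫⁻ x, ‖u x‖ₑ ^ (2 : ℝ) := by
    intro u
    rw [eLpNorm_eq_lintegral_rpow_enorm_toReal (by norm_num) (by norm_num), ← ENNReal.rpow_mul]
    norm_num
  have h1 : eLpNorm (fun x => H2_mol φ f x - f x) 2 volume ^ (2 : ℝ) ≤ c ^ (2 : ℝ) := by
    rw [hp]
    have h2 : ∀ x, ‖H2_mol φ f x - f x‖ₑ ^ (2 : ℝ) ≤
        ∫⁻ t, ENNReal.ofReal (φ.normed volume t) * ‖f (x - t) - f x‖ₑ ^ (2 : ℝ) := by
      intro x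
      rw [H2_mol, H2_sub φ hloc x]
      refine H2_jensen φ ?_
      refine AEStronglyMeasurable.sub ?_ aestronglyMeasurable_const
      exact hm.comp_quasiMeasurePreserving (quasiMeasurePreserving_sub_left volume x)
    refine (lintegral_mono h2).trans ?_
    rw [lintegral_lintegral_swap]
    · have h3 : ∀ t, ∫⁻ x, ENNReal.ofReal (φ.normed volume t) * ‖f (x - t) - f x‖ₑ ^ (2 : ℝ) ≤
          ENNReal.ofReal (φ.normed volume t) * c ^ (2 : ℝ) := by
        intro t
        rw [lintegral_const_mul' _ _ ENNReal.ofReal_ne_top, ← hp]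
        by_cases ht : t ∈ ball (0 : Ec n) φ.rOut
        · gcongr
          exact hc t ht
        · have h4 : φ.normed volume t = 0 := by
            rw [← Function.notMem_support, φ.support_normed_eq]
            exact ht
          rw [h4, ENNReal.ofReal_zero, zero_mul, zero_mul]
      refine (lintegral_mono h3).trans (le_of_eq ?_)
      have hρ : Measurable fun t => ENNReal.ofReal (φ.normed volume t) :=
        (φ.continuous_normed.measurable).ennreal_ofReal
      rw [lintegral_mul_const _ hρ, ← ofReal_integral_eq_lintegral_ofReal φ.integrable_normed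
        (Eventually.of_forall φ.nonneg_normed), φ.integral_normed, ENNReal.ofReal_one, one_mul]
    · have hρ : Measurable fun t => ENNReal.ofReal (φ.normed volume t) :=
        (φ.continuous_normed.measurable).ennreal_ofReal
      have h5 : AEStronglyMeasurable (fun p : Ec n × Ec n => f (p.1 - p.2) - f p.1)
          (volume.prod volume) := by
        refine AEStronglyMeasurable.sub ?_ ?_
        · exact hm.comp_quasiMeasurePreserving (quasiMeasurePreserving_sub volume volume)
        · exact hm.comp_quasiMeasurePreserving Measure.quasiMeasurePreserving_fst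
      exact ((hρ.comp measurable_snd).aemeasurable).mul (h5.enorm.pow_const _)
  have h6 := ENNReal.rpow_le_rpow h1 (by norm_num : (0 : ℝ) ≤ 1 / 2)
  rw [← ENNReal.rpow_mul, ← ENNReal.rpow_mul] at h6
  norm_num at h6
  exact h6

private theorem H2_tendsto {φ : ℕ → ContDiffBump (0 : Ec n)}
    (hφ : Tendsto (fun i => (φ i).rOut) atTop (𝓝 0)) {f : Ec n → ℂ} (hf : MemLp f 2 volume) :
    Tendsto (fun i => eLpNorm (fun x => H2_mol (φ i) f x - f x) 2 volume) atTop (𝓝 0) := by
  rw [ENNReal.tendsto_nhds_zero]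
  intro ε hε
  have h1 := (ENNReal.tendsto_nhds_zero.1 (H2_trans hf)) ε hε
  obtain ⟨δ, hδ, h2⟩ := Metric.eventually_nhds_iff_ball.1 h1
  filter_upwards [(hφ.eventually (gt_mem_nhds hδ))] with i hi
  exact H2_le (φ i) hf fun t ht => h2 t (ball_subset_ball hi.le ht)

/-- The derivative of the mollification. -/
private theorem H2_fderiv (φ : ContDiffBump (0 : Ec n)) {f : Ec n → ℂ}
    (hf : LocallyIntegrable f volume) (x X : Ec n) :
    fderiv ℝ (H2_mol φ f) x X = ∫ t, (fderiv ℝ (φ.normed volume) (x - t) X) • f t := by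
  have h1 := φ.hasCompactSupport_normed (μ := volume).hasFDerivAt_convolution_right
    (ContinuousLinearMap.lsmul ℝ ℝ).flip hf (φ.contDiff_normed (n := 1)) x
  rw [H2_mol_eq, h1.fderiv, convolution_precompR_apply _ hf
    (φ.hasCompactSupport_normed.fderiv ℝ) ((φ.contDiff_normed (n := 1)).continuous_fderiv (by norm_num))]
  rfl

/-- The test function of the mollification at the point `x`. -/
private noncomputable def H2_v (φ : ContDiffBump (0 : Ec n)) (x z : Ec n) : ℂ :=
  ((φ.normed volume (x - z) : ℝ) : ℂ)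

private theorem H2_v_fderiv (φ : ContDiffBump (0 : Ec n)) (x z X : Ec n) :
    fderiv ℝ (H2_v φ x) z X = -((fderiv ℝ (φ.normed volume) (x - z) X : ℝ) : ℂ) := by
  have h1 : HasFDerivAt (φ.normed volume) (fderiv ℝ (φ.normed volume) (x - z)) (x - z) :=
    (((φ.contDiff_normed (n := 1) (μ := volume)).differentiable (by norm_num)) (x - z)).hasFDerivAt
  have h2 : HasFDerivAt (fun z : Ec n => x - z) (-(ContinuousLinearMap.id ℝ (Ec n))) z := by
    simpa using (hasFDerivAt_id (𝕜 := ℝ) z).const_sub x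
  have h3 := h1.comp z h2
  have h4 := Complex.ofRealCLM.hasFDerivAt.comp z h3
  have h5 : HasFDerivAt (H2_v φ x) (Complex.ofRealCLM.comp ((fderiv ℝ (φ.normed volume) (x - z)).comp
      (-(ContinuousLinearMap.id ℝ (Ec n))))) z := h4
  rw [h5.fderiv]
  simp

private theorem H2_v_TF (φ : ContDiffBump (0 : Ec n)) (x : Ec n) : TF univ (H2_v φ x) := by
  refine ⟨?_, ?_, subset_univ _⟩
  · have h1 : ContDiff ℝ ∞ (fun z : Ec n => φ.normed volume (x - z)) :=
      (φ.contDiff_normed (n := ⊤)).comp (contDiff_const.sub contDiff_id)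
    exact Complex.ofRealCLM.contDiff.comp h1
  · have h1 : HasCompactSupport (fun z : Ec n => φ.normed volume (x - z)) :=
      φ.hasCompactSupport_normed.comp_homeomorph (Homeomorph.subLeft x)
    exact h1.comp_left (g := fun r : ℝ => (r : ℂ)) (by simp)

private theorem H2_int (φ : ContDiffBump (0 : Ec n)) {f : Ec n → ℂ}
    (hf : LocallyIntegrable f volume) (x X : Ec n) :
    Integrable (fun t => (fderiv ℝ (φ.normed volume) (x - t) X) • f t) volume := by
  have h0 : Continuous fun t => fderiv ℝ (φ.normed volume) (x - t) X :=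
    (((φ.contDiff_normed (n := 1)).continuous_fderiv (by norm_num)).comp
      (by fun_prop : Continuous fun t : Ec n => x - t)).clm_apply continuous_const
  refine hf.integrable_smul_left_of_hasCompactSupport h0 ?_
  have h1 : HasCompactSupport fun t => fderiv ℝ (φ.normed (volume : Measure (Ec n))) t X :=
    (φ.hasCompactSupport_normed.fderiv ℝ).comp_left (g := fun L : Ec n →L[ℝ] ℝ => L X) (by simp)
  exact h1.comp_homeomorph (Homeomorph.subLeft x)

private theorem H2_dj (φ : ContDiffBump (0 : Ec n)) {f : Ec n → ℂ}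
    (hf : LocallyIntegrable f volume) (x : Ec n) (k : Fin n) :
    dj k (H2_mol φ f) x = -∫ z, f z * dj k (H2_v φ x) z ∧
      dk k (H2_mol φ f) x = -∫ z, f z * dk k (H2_v φ x) z ∧
      Integrable (fun z => f z * dj k (H2_v φ x) z) volume ∧
      Integrable (fun z => f z * dk k (H2_v φ x) z) volume := by
  have i1 := H2_int φ hf x (ee k)
  have i2 := H2_int φ hf x (Complex.I • ee k)
  have e1 : (fun z => f z * dj k (H2_v φ x) z) = fun z =>
      -(1 / 2 : ℂ) * ((fderiv ℝ (φ.normed volume) (x - z) (ee k)) • f z) +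
        (Complex.I / 2) * ((fderiv ℝ (φ.normed volume) (x - z) (Complex.I • ee k)) • f z) := by
    funext z
    rw [dj, H2_v_fderiv, H2_v_fderiv, Complex.real_smul, Complex.real_smul]
    ring
  have e2 : (fun z => f z * dk k (H2_v φ x) z) = fun z =>
      -(1 / 2 : ℂ) * ((fderiv ℝ (φ.normed volume) (x - z) (ee k)) • f z) -
        (Complex.I / 2) * ((fderiv ℝ (φ.normed volume) (x - z) (Complex.I • ee k)) • f z) := by
    funext z
    rw [dk, H2_v_fderiv, H2_v_fderiv, Complex.real_smul, Complex.real_smul]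
    ring
  have i1' := i1.const_mul (-(1 / 2 : ℂ))
  have i2' := i2.const_mul (Complex.I / 2)
  refine ⟨?_, ?_, ?_, ?_⟩
  · rw [e1, integral_add i1' i2', integral_const_mul, integral_const_mul, dj,
      H2_fderiv φ hf, H2_fderiv φ hf]
    ring
  · rw [e2, integral_sub i1' i2', integral_const_mul, integral_const_mul, dk,
      H2_fderiv φ hf, H2_fderiv φ hf]
    ring
  · rw [e1]; exact i1'.add i2'
  · rw [e2]; exact i1'.sub i2'

/-- Mollification of one function.
PROOF. Let `ρ i` be the normed bump function `ContDiffBump.normed` with radii `1 / (2 i + 2), 1 / (i + 1)`, and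
`F i = ρ i ⋆ f` (`convolution` with `lsmul`), smooth (`HasCompactSupport.contDiff_convolution_left`; `f` is locally integrable),
zero outside the `1 / (i + 1)` thickening of `K`. `F i → f` in `L²`: by Cauchy-Schwarz and Fubini
`‖ρ i ⋆ g‖₂ ≤ ‖g‖₂` for all `g ∈ L²` (`|ρ ⋆ g|² ≤ ρ ⋆ |g|²`), for a continuous `g` with compact support `ρ i ⋆ g → g` uniformly with
supports in a fixed compact set, and the continuous functions with compact support are dense in `L²`
(`MemLp.exists_hasCompactSupport_eLpNorm_sub_le`). Derivatives: if `∫ f z * dj k v z = -∫ D z * v z` for all test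
functions, then `dj k (ρ i ⋆ f) = ρ i ⋆ D`: differentiate under the integral, the derivative falls on `ρ i (x - ·)`, which is a
test function of the second variable. Here the operator `P` is any finite linear combination of `dj k`, `dk k` applied to
the components; to keep it simple the statement is for a family of functions and a family of real linear constant
coefficient operators of order one given by `A : ι → Fin m → Fin n → ℂ × ℂ`: the operator number `s` is
`F ↦ ∑ r, ∑ k, (A s r k).1 * dj k (F r) + (A s r k).2 * dk k (F r)`. -/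
theorem moll {m : ℕ} {ι : Type*} [Fintype ι] {K : Set (Ec n)} (hK : IsCompact K)
    {f : Fin m → Ec n → ℂ} (hf : ∀ r, MemLp (f r) 2 volume) (hfK : ∀ r, ∀ z ∉ K, f r z = 0)
    {D : ι → Ec n → ℂ} (hD : ∀ s, MemLp (D s) 2 volume) (hDK : ∀ s, ∀ z ∉ K, D s z = 0)
    (A : ι → Fin m → Fin n → ℂ × ℂ)
    (h : ∀ s, ∀ v, TF univ v →
      ∫ z, ∑ r, ∑ k, f r z * ((A s r k).1 * dj k v z + (A s r k).2 * dk k v z) = -∫ z, D s z * v z)
    {Ω : Set (Ec n)} (hΩ : IsOpen Ω) (hKΩ : K ⊆ Ω) :
    ∃ K' : Set (Ec n), IsCompact K' ∧ K ⊆ K' ∧ K' ⊆ Ω ∧ ∃ F : ℕ → Fin m → Ec n → ℂ,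
      (∀ i r, ContDiff ℝ ∞ (F i r)) ∧ (∀ i r, ∀ z ∉ K', F i r z = 0) ∧
      (∀ r, Tendsto (fun i => eLpNorm (fun z => F i r z - f r z) 2 volume) atTop (𝓝 0)) ∧
      ∀ s, Tendsto (fun i => eLpNorm (fun z =>
        (∑ r, ∑ k, ((A s r k).1 * dj k (F i r) z + (A s r k).2 * dk k (F i r) z)) - D s z) 2 volume)
        atTop (𝓝 0) := by
  classical
  obtain ⟨δ, hδ, hδΩ⟩ := hK.exists_cthickening_subset_open hΩ hKΩ
  have hfl : ∀ r, LocallyIntegrable (f r) volume := fun r => (hf r).locallyIntegrable (by norm_num)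
  have hDl : ∀ s, LocallyIntegrable (D s) volume := fun s => (hD s).locallyIntegrable (by norm_num)
  let φ : ℕ → ContDiffBump (0 : Ec n) := fun i =>
    ⟨δ / (2 * ((i : ℝ) + 1)), δ / ((i : ℝ) + 1), by positivity, by
      apply div_lt_div_of_pos_left hδ (by positivity)
      have : (0 : ℝ) ≤ i := Nat.cast_nonneg i
      linarith⟩
  have hφr : ∀ i, (φ i).rOut = δ / ((i : ℝ) + 1) := fun i => rfl
  have hφ : Tendsto (fun i => (φ i).rOut) atTop (𝓝 0) := by
    have h1 := (tendsto_one_div_add_atTop_nhds_zero_nat (𝕜 := ℝ)).const_mul δ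
    rw [mul_zero] at h1
    refine h1.congr fun i => ?_
    rw [hφr]; ring
  have hφδ : ∀ i, (φ i).rOut ≤ δ := fun i => by
    rw [hφr]
    exact div_le_self hδ.le (by have : (0 : ℝ) ≤ i := Nat.cast_nonneg i; linarith)
  refine ⟨cthickening δ K, hK.cthickening, self_subset_cthickening K, hδΩ,
    fun i r => H2_mol (φ i) (f r), ?_, ?_, ?_, ?_⟩
  · intro i r
    show ContDiff ℝ ∞ (H2_mol (φ i) (f r))
    rw [H2_mol_eq]
    exact (φ i).hasCompactSupport_normed.contDiff_convolution_right _ (hfl r)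
      ((φ i).contDiff_normed (n := ⊤))
  · intro i r z hz
    show ∫ t, (φ i).normed volume (z - t) • f r t = 0
    rw [← integral_zero (Ec n) ℂ (μ := volume)]
    refine integral_congr_ae (Eventually.of_forall fun t => ?_)
    show (φ i).normed volume (z - t) • f r t = 0
    by_cases ht : t ∈ K
    · have h1 : (φ i).normed volume (z - t) = 0 := by
        rw [← Function.notMem_support, (φ i).support_normed_eq]
        intro h2
        apply hz
        rw [mem_ball, dist_zero_right, ← dist_eq_norm] at h2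
        exact mem_cthickening_of_dist_le z t δ K ht (h2.le.trans (hφδ i))
      rw [h1, zero_smul]
    · rw [hfK r t ht, smul_zero]
  · intro r
    exact H2_tendsto hφ (hf r)
  · intro s
    have h1 : ∀ i, (fun z => (∑ r, ∑ k, ((A s r k).1 * dj k (H2_mol (φ i) (f r)) z +
        (A s r k).2 * dk k (H2_mol (φ i) (f r)) z)) - D s z) =
        fun z => H2_mol (φ i) (D s) z - D s z := by
      intro i
      funext x
      congr 1
      have h2 := h s (H2_v (φ i) x) (H2_v_TF (φ i) x)
      have h3 : ∫ z, D s z * H2_v (φ i) x z = H2_mol (φ i) (D s) x := by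
        rw [H2_mol]
        refine integral_congr_ae (Eventually.of_forall fun t => ?_)
        show D s t * (((φ i).normed volume (x - t) : ℝ) : ℂ) = (φ i).normed volume (x - t) • D s t
        rw [Complex.real_smul, mul_comm]
      rw [h3, integral_finsetSum] at h2
      · have h4 : ∀ r, ∫ z, ∑ k, f r z * ((A s r k).1 * dj k (H2_v (φ i) x) z +
            (A s r k).2 * dk k (H2_v (φ i) x) z) =
            -∑ k, ((A s r k).1 * dj k (H2_mol (φ i) (f r)) x +
              (A s r k).2 * dk k (H2_mol (φ i) (f r)) x) := by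
          intro r
          rw [integral_finsetSum, ← Finset.sum_neg_distrib]
          · refine Finset.sum_congr rfl fun k _ => ?_
            obtain ⟨d1, d2, d3, d4⟩ := H2_dj (φ i) (hfl r) x k
            have e1 : (fun z => f r z * ((A s r k).1 * dj k (H2_v (φ i) x) z +
                (A s r k).2 * dk k (H2_v (φ i) x) z)) = fun z =>
                (A s r k).1 * (f r z * dj k (H2_v (φ i) x) z) +
                (A s r k).2 * (f r z * dk k (H2_v (φ i) x) z) := by
              funext z; ring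
            rw [e1, integral_add (d3.const_mul _) (d4.const_mul _), integral_const_mul,
              integral_const_mul, d1, d2]
            ring
          · intro k _
            obtain ⟨d1, d2, d3, d4⟩ := H2_dj (φ i) (hfl r) x k
            have e1 : (fun z => f r z * ((A s r k).1 * dj k (H2_v (φ i) x) z +
                (A s r k).2 * dk k (H2_v (φ i) x) z)) = fun z =>
                (A s r k).1 * (f r z * dj k (H2_v (φ i) x) z) +
                (A s r k).2 * (f r z * dk k (H2_v (φ i) x) z) := by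
              funext z; ring
            rw [e1]
            exact (d3.const_mul _).add (d4.const_mul _)
        simp_rw [h4] at h2
        rw [Finset.sum_neg_distrib, neg_inj] at h2
        exact h2
      · intro r _
        refine integrable_finsetSum _ fun k _ => ?_
        obtain ⟨d1, d2, d3, d4⟩ := H2_dj (φ i) (hfl r) x k
        have e1 : (fun z => f r z * ((A s r k).1 * dj k (H2_v (φ i) x) z +
            (A s r k).2 * dk k (H2_v (φ i) x) z)) = fun z =>
            (A s r k).1 * (f r z * dj k (H2_v (φ i) x) z) +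
            (A s r k).2 * (f r z * dk k (H2_v (φ i) x) z) := by
          funext z; ring
        rw [e1]
        exact (d3.const_mul _).add (d4.const_mul _)
    simp_rw [h1]
    exact H2_tendsto hφ (hD s)

end Pool.Agent.MPca0fc2.LV
end

section

/-! The basic inequality for forms in `L²` with compact support. -/

set_option autoImplicit false

open Metric Set MeasureTheory Filter Topology
open scoped ContDiff

namespace Pool.Agent.MPca0fc2.LV

open Pool.Agent.MPca0fc2.FD (Ec ee)
open Pool.Agent.Lib.MP_ca0fc2_an (leviForm)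

variable {n : ℕ}

private theorem h3_int {Ω : Set (Ec n)} {v : Ec n → ℂ} (hv : TF Ω v) : Integrable v volume :=
  hv.sm.continuous.integrable_of_hasCompactSupport hv.cpt

private theorem h3_out {Ω : Set (Ec n)} {v : Ec n → ℂ} (hv : TF Ω v) {z : Ec n} (hz : z ∉ Ω) :
    v z = 0 := by
  by_contra h
  exact hz (hv.sub (subset_tsupport _ h))

private theorem h3_int_sq {Ω : Set (Ec n)} (hΩ : IsOpen Ω) {u : Ec n → ℂ} (hu : TF Ω u)
    {g : Ec n → ℝ} (hg : ContDiffOn ℝ ∞ g Ω) : Integrable (fun z => ‖u z‖ ^ 2 * g z) volume := by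
  have hG : ContDiffOn ℝ ∞ (fun z => ((g z : ℝ) : ℂ)) Ω :=
    Complex.ofRealCLM.contDiff.comp_contDiffOn hg
  have h := (h3_int (TF_mul hΩ (((TF_conj hu).sm.contDiffOn).mul hG) hu)).re
  refine h.congr (Eventually.of_forall fun z => ?_)
  have h3 : (starRingEnd ℂ) (u z) * ((g z : ℝ) : ℂ) * u z = ((‖u z‖ ^ 2 * g z : ℝ) : ℂ) := by
    push_cast
    rw [← Complex.mul_conj']
    ring
  simp only [h3]
  exact Complex.ofReal_re _

private theorem h3_cs {ι : Type*} [Fintype ι] (a b : ι → ℂ) :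
    ‖∑ j, a j * b j‖ ^ 2 ≤ (∑ j, ‖b j‖ ^ 2) * ∑ j, ‖a j‖ ^ 2 := by
  have h1 : ‖∑ j, a j * b j‖ ≤ ∑ j, ‖a j‖ * ‖b j‖ := by
    refine (norm_sum_le _ _).trans (le_of_eq ?_)
    exact Finset.sum_congr rfl fun j _ => norm_mul _ _
  calc ‖∑ j, a j * b j‖ ^ 2 ≤ (∑ j, ‖a j‖ * ‖b j‖) ^ 2 :=
        pow_le_pow_left₀ (norm_nonneg _) h1 2
    _ ≤ (∑ j, ‖a j‖ ^ 2) * ∑ j, ‖b j‖ ^ 2 := Finset.sum_mul_sq_le_sq_mul_sq _ _ _
    _ = _ := mul_comm _ _

/-- The basic inequality with two weights, for test forms.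
PROOF. `basic`; `∑ (∂_j f_j - f_j ∂_j φ) = ∑ (∂_j f_j - f_j ∂_j (φ - σ)) - ∑ f_j ∂_j σ`, so
`|∑ δ_j f_j|² ≤ 2 |∑ (∂_j f_j - f_j ∂_j (φ - σ))|² + 2 |∂σ|² |f|²` (Cauchy-Schwarz), and the hypothesis `hL`. Here
`|f|² = ∑ |f_j|² = ‖WithLp.toLp 2 f‖²`. -/
theorem basic_two {Ω : Set (Ec n)} (hΩ : IsOpen Ω) {φ σ : Ec n → ℝ} (hφ : ContDiffOn ℝ ∞ φ Ω)
    (hσ : ContDiffOn ℝ ∞ σ Ω) (hL : ∀ z ∈ Ω, ∀ X : Ec n,
      2 * (∑ k, ‖dr σ z k‖ ^ 2 + Real.exp (σ z)) * ‖X‖ ^ 2 ≤ leviForm φ z X)
    {f : Fin n → Ec n → ℂ} (hf : ∀ j, TF Ω (f j)) :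
    ∫ z, (∑ j, ‖f j z‖ ^ 2) * Real.exp (σ z - φ z) ≤
      (∫ z, ‖∑ j, (dj j (f j) z - f j z * (dr φ z j - dr σ z j))‖ ^ 2 * Real.exp (-φ z)) +
        (1 / 4) * ∫ z, (∑ j, ∑ k, ‖dk j (f k) z - dk k (f j) z‖ ^ 2) * Real.exp (-φ z) := by
  have hb := basic hΩ hφ hf
  have hexp : ContDiffOn ℝ ∞ (fun z => Real.exp (-φ z)) Ω :=
    Real.contDiff_exp.comp_contDiffOn hφ.neg
  have hexp2 : ContDiffOn ℝ ∞ (fun z => Real.exp (σ z - φ z)) Ω :=
    Real.contDiff_exp.comp_contDiffOn (hσ.sub hφ)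
  have hTF1 : TF Ω (fun z => ∑ j, (dj j (f j) z - f j z * dr φ z j)) := by
    refine TF_sum Finset.univ fun j _ => ?_
    have h1 : TF Ω (fun z => (-dr φ z j) * f j z) := TF_mul hΩ (dr_smooth hΩ hφ j).neg (hf j)
    have h2 := TF_add (TF_dj (hf j) j).1 h1
    have h3 : (fun z => dj j (f j) z - f j z * dr φ z j) =
        (fun z => dj j (f j) z + (-dr φ z j) * f j z) := by
      funext z
      ring
    rw [h3]
    exact h2
  have hTF2 : TF Ω (fun z => ∑ j, (dj j (f j) z - f j z * (dr φ z j - dr σ z j))) := by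
    refine TF_sum Finset.univ fun j _ => ?_
    have h1 : TF Ω (fun z => (dr σ z j - dr φ z j) * f j z) :=
      TF_mul hΩ ((dr_smooth hΩ hσ j).sub (dr_smooth hΩ hφ j)) (hf j)
    have h2 := TF_add (TF_dj (hf j) j).1 h1
    have h3 : (fun z => dj j (f j) z - f j z * (dr φ z j - dr σ z j)) =
        (fun z => dj j (f j) z + (dr σ z j - dr φ z j) * f j z) := by
      funext z
      ring
    rw [h3]
    exact h2
  have i1 := h3_int_sq hΩ hTF1 hexp
  have i2 := h3_int_sq hΩ hTF2 hexp
  have i3 : Integrable (fun z => (∑ j, ‖f j z‖ ^ 2) * Real.exp (σ z - φ z)) volume := by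
    have h : Integrable (fun z => ∑ j, ‖f j z‖ ^ 2 * Real.exp (σ z - φ z)) volume :=
      integrable_finsetSum _ fun j _ => h3_int_sq hΩ (hf j) hexp2
    refine h.congr (Eventually.of_forall fun z => ?_)
    simp only [Finset.sum_mul]
  have i4 : Integrable (fun z => leviForm φ z (WithLp.toLp 2 fun j => f j z) * Real.exp (-φ z))
      volume := by
    have hE : ContDiffOn ℝ ∞ (fun z => ((Real.exp (-φ z) : ℝ) : ℂ)) Ω :=
      Complex.ofRealCLM.contDiff.comp_contDiffOn hexp
    have hI : Integrable (fun z => ∑ j, ∑ k, dk k (fun w => dr φ w j) z * f j z *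
        (starRingEnd ℂ) (f k z) * ((Real.exp (-φ z) : ℝ) : ℂ)) volume := by
      refine integrable_finsetSum _ fun j _ => integrable_finsetSum _ fun k _ => ?_
      have h := h3_int (TF_mul hΩ (((TF_conj (hf k)).sm.contDiffOn).mul
        ((dj_smooth hΩ (dr_smooth hΩ hφ j) k).2.mul hE)) (hf j))
      refine h.congr (Eventually.of_forall fun z => ?_)
      ring
    refine hI.re.congr (Eventually.of_forall fun z => ?_)
    by_cases hz : z ∈ Ω
    · have hc : ContDiffAt ℝ 2 φ z :=
        (hφ.contDiffAt (hΩ.mem_nhds hz)).of_le (WithTop.coe_le_coe.2 (le_top : (2 : ℕ∞) ≤ ⊤))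
      have h1 := lev_coord hc (WithLp.toLp 2 fun j => f j z)
      have h2 : ∑ j, ∑ k, dk k (fun w => dr φ w j) z * f j z *
        (starRingEnd ℂ) (f k z) * ((Real.exp (-φ z) : ℝ) : ℂ) =
          ((leviForm φ z (WithLp.toLp 2 fun j => f j z) * Real.exp (-φ z) : ℝ) : ℂ) := by
        rw [Complex.ofReal_mul, h1, Finset.sum_mul]
        refine Finset.sum_congr rfl fun j _ => ?_
        rw [Finset.sum_mul]
      simp only [h2]
      exact Complex.ofReal_re _
    · have h0 : ∀ j, f j z = 0 := fun j => h3_out (hf j) hz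
      have h1 : leviForm φ z (WithLp.toLp 2 fun j => f j z) = 0 := by
        have : (WithLp.toLp 2 fun j => f j z : Ec n) = 0 := by
          ext j
          simp [h0]
        rw [this]
        simp [leviForm]
      beta_reduce
      rw [h1]
      simp [h0]
  have key : ∀ z, 2 * ((∑ j, ‖f j z‖ ^ 2) * Real.exp (σ z - φ z)) +
      ‖∑ j, (dj j (f j) z - f j z * dr φ z j)‖ ^ 2 * Real.exp (-φ z) ≤
      leviForm φ z (WithLp.toLp 2 fun j => f j z) * Real.exp (-φ z) +
      2 * (‖∑ j, (dj j (f j) z - f j z * (dr φ z j - dr σ z j))‖ ^ 2 * Real.exp (-φ z)) := by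
    intro z
    by_cases hz : z ∈ Ω
    · have e1 : ∑ j, (dj j (f j) z - f j z * dr φ z j) =
          ∑ j, (dj j (f j) z - f j z * (dr φ z j - dr σ z j)) - ∑ j, f j z * dr σ z j := by
        rw [← Finset.sum_sub_distrib]
        refine Finset.sum_congr rfl fun j _ => ?_
        ring
      have e2 := h3_cs (fun j => f j z) (fun j => dr σ z j)
      have e3 := hL z hz (WithLp.toLp 2 fun j => f j z)
      have e4 : ‖(WithLp.toLp 2 fun j => f j z : Ec n)‖ ^ 2 = ∑ j, ‖f j z‖ ^ 2 := by
        rw [EuclideanSpace.norm_sq_eq]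
      rw [e4] at e3
      have e5 : ‖∑ j, (dj j (f j) z - f j z * dr φ z j)‖ ^ 2 ≤
          2 * ‖∑ j, (dj j (f j) z - f j z * (dr φ z j - dr σ z j))‖ ^ 2 +
          2 * ‖∑ j, f j z * dr σ z j‖ ^ 2 := by
        rw [e1]
        set a := ∑ j, (dj j (f j) z - f j z * (dr φ z j - dr σ z j))
        set b := ∑ j, f j z * dr σ z j
        have h1 := norm_sub_le a b
        have h2 : ‖a - b‖ ^ 2 ≤ (‖a‖ + ‖b‖) ^ 2 := pow_le_pow_left₀ (norm_nonneg _) h1 2
        nlinarith [sq_nonneg (‖a‖ - ‖b‖)]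
      have e6 : Real.exp (σ z - φ z) = Real.exp (σ z) * Real.exp (-φ z) := by
        rw [sub_eq_add_neg, Real.exp_add]
      have hpos := Real.exp_pos (-φ z)
      rw [e6]
      have e7 : 2 * ((∑ j, ‖f j z‖ ^ 2) * Real.exp (σ z)) +
        ‖∑ j, (dj j (f j) z - f j z * dr φ z j)‖ ^ 2 ≤
        leviForm φ z (WithLp.toLp 2 fun j => f j z) +
        2 * ‖∑ j, (dj j (f j) z - f j z * (dr φ z j - dr σ z j))‖ ^ 2 := by
        nlinarith [e2, e3, e5]
      nlinarith [mul_le_mul_of_nonneg_right e7 hpos.le]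
    · have h0 : ∀ j, f j z = 0 := fun j => h3_out (hf j) hz
      have h1 : leviForm φ z (WithLp.toLp 2 fun j => f j z) = 0 := by
        have : (WithLp.toLp 2 fun j => f j z : Ec n) = 0 := by
          ext j
          simp [h0]
        rw [this]
        simp [leviForm]
      have h2 := h3_out hTF1 hz
      have h3 := h3_out hTF2 hz
      rw [h1, h2, h3]
      simp [h0]
  have hint := integral_mono ((i3.const_mul 2).add i1) (i4.add (i2.const_mul 2)) key
  simp only [Pi.add_apply] at hint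
  rw [integral_add (i3.const_mul 2) i1, integral_add i4 (i2.const_mul 2), integral_const_mul,
    integral_const_mul] at hint
  linarith

private theorem h3_sq {g : Ec n → ℂ} (hg : MemLp g 2 volume) :
    ∫ z, ‖g z‖ ^ 2 = (eLpNorm g 2 volume).toReal ^ 2 := by
  have h := hg.eLpNorm_eq_integral_rpow_norm (by norm_num) (by norm_num)
  have h0 : 0 ≤ ∫ z, ‖g z‖ ^ 2 := integral_nonneg fun z => sq_nonneg _
  have h1 : (∫ a, ‖g a‖ ^ (2 : ENNReal).toReal ∂volume) = ∫ z, ‖g z‖ ^ 2 := by
    congr 1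
    funext z
    simp
  rw [h, h1, ENNReal.toReal_ofReal (Real.rpow_nonneg h0 _)]
  rw [← Real.rpow_natCast, ← Real.rpow_mul h0]
  simp

private structure H3T (u : ℕ → Ec n → ℂ) (u0 : Ec n → ℂ) : Prop where
  m : ∀ i, MemLp (u i) 2 volume
  m0 : MemLp u0 2 volume
  t : Tendsto (fun i => eLpNorm (fun z => u i z - u0 z) 2 volume) atTop (𝓝 0)

private theorem h3_lim {u : ℕ → Ec n → ℂ} {u0 : Ec n → ℂ} (h : H3T u u0) :
    Tendsto (fun i => ∫ z, ‖u i z‖ ^ 2) atTop (𝓝 (∫ z, ‖u0 z‖ ^ 2)) := by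
  have h1 : Tendsto (fun i => (h.m i).toLp (u i)) atTop (𝓝 (h.m0.toLp u0)) :=
    (Lp.tendsto_Lp_iff_tendsto_eLpNorm'' u h.m u0 h.m0).2 h.t
  have h2 : Tendsto (fun i => ‖(h.m i).toLp (u i)‖ ^ 2) atTop (𝓝 (‖h.m0.toLp u0‖ ^ 2)) :=
    (h1.norm).pow 2
  simp only [Lp.norm_toLp] at h2
  rw [h3_sq h.m0]
  refine h2.congr fun i => ?_
  rw [h3_sq (h.m i)]

private theorem h3_add {u v : ℕ → Ec n → ℂ} {u0 v0 : Ec n → ℂ} (hu : H3T u u0) (hv : H3T v v0) :
    H3T (fun i z => u i z + v i z) (fun z => u0 z + v0 z) := by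
  refine ⟨fun i => (hu.m i).add (hv.m i), hu.m0.add hv.m0, ?_⟩
  have h1 := hu.t.add hv.t
  rw [add_zero] at h1
  refine tendsto_of_tendsto_of_tendsto_of_le_of_le tendsto_const_nhds h1 (fun _ => bot_le)
    fun i => ?_
  have h2 : (fun z => u i z + v i z - (u0 z + v0 z)) =
      (fun z => u i z - u0 z) + fun z => v i z - v0 z := by
    funext z
    simp only [Pi.add_apply]
    ring
  simp only [h2]
  exact eLpNorm_add_le ((hu.m i).sub hu.m0).1 ((hv.m i).sub hv.m0).1 (by norm_num)

private theorem h3_neg {u : ℕ → Ec n → ℂ} {u0 : Ec n → ℂ} (hu : H3T u u0) :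
    H3T (fun i z => -u i z) (fun z => -u0 z) := by
  refine ⟨fun i => (hu.m i).neg, hu.m0.neg, ?_⟩
  refine hu.t.congr fun i => ?_
  have h2 : (fun z => -u i z - -u0 z) = -(fun z => u i z - u0 z) := by
    funext z
    simp only [Pi.neg_apply]
    ring
  rw [h2, eLpNorm_neg]

private theorem h3_sub {u v : ℕ → Ec n → ℂ} {u0 v0 : Ec n → ℂ} (hu : H3T u u0) (hv : H3T v v0) :
    H3T (fun i z => u i z - v i z) (fun z => u0 z - v0 z) := by
  have h := h3_add hu (h3_neg hv)
  have e1 : (fun i z => u i z - v i z) = (fun i z => u i z + -v i z) := by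
    funext i z
    ring
  have e2 : (fun z => u0 z - v0 z) = (fun z => u0 z + -v0 z) := by
    funext z
    ring
  rw [e1, e2]
  exact h

private theorem h3_zero : H3T (n := n) (fun _ _ => 0) (fun _ => 0) := by
  refine ⟨fun i => MemLp.zero', MemLp.zero', ?_⟩
  simp

private theorem h3_sum {ι : Type*} (s : Finset ι) {u : ι → ℕ → Ec n → ℂ} {u0 : ι → Ec n → ℂ}
    (hu : ∀ j ∈ s, H3T (u j) (u0 j)) :
    H3T (fun i z => ∑ j ∈ s, u j i z) (fun z => ∑ j ∈ s, u0 j z) := by
  classical
  induction s using Finset.induction_on with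
  | empty => simpa using h3_zero
  | insert a s ha ih =>
    simp only [Finset.sum_insert ha]
    exact h3_add (hu a (Finset.mem_insert_self a s))
      (ih fun j hj => hu j (Finset.mem_insert_of_mem hj))

private theorem h3_mul {K : Set (Ec n)} (hK : IsCompact K) {a : Ec n → ℂ} (ha : ContinuousOn a K)
    {u : ℕ → Ec n → ℂ} {u0 : Ec n → ℂ} (hu : H3T u u0) (huK : ∀ i, ∀ z ∉ K, u i z = 0)
    (hu0K : ∀ z ∉ K, u0 z = 0) : H3T (fun i z => u i z * a z) (fun z => u0 z * a z) := by
  obtain ⟨M, hM⟩ := hK.exists_bound_of_continuousOn ha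
  have hind : AEStronglyMeasurable (K.indicator a) volume :=
    (aestronglyMeasurable_indicator_iff hK.measurableSet).2
      (ha.aestronglyMeasurable hK.measurableSet)
  have key : ∀ w : Ec n → ℂ, (∀ z ∉ K, w z = 0) → ∀ z, w z * a z = K.indicator a z * w z := by
    intro w hw z
    by_cases hz : z ∈ K
    · rw [indicator_of_mem hz, mul_comm]
    · rw [hw z hz]
      simp
  have bd : ∀ w : Ec n → ℂ, ∀ z, ‖K.indicator a z * w z‖ ≤ |M| * ‖w z‖ := by
    intro w z
    rw [norm_mul]
    refine mul_le_mul_of_nonneg_right ?_ (norm_nonneg _)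
    by_cases hz : z ∈ K
    · rw [indicator_of_mem hz]
      exact (hM z hz).trans (le_abs_self M)
    · rw [indicator_of_notMem hz, norm_zero]
      exact abs_nonneg M
  have mem : ∀ w : Ec n → ℂ, (∀ z ∉ K, w z = 0) → MemLp w 2 volume →
      MemLp (fun z => w z * a z) 2 volume := by
    intro w hw hm
    have h1 : (fun z => w z * a z) = fun z => K.indicator a z * w z := funext (key w hw)
    rw [h1]
    exact hm.of_le_mul (hind.mul hm.1) (Eventually.of_forall (bd w))
  refine ⟨fun i => mem _ (huK i) (hu.m i), mem _ hu0K hu.m0, ?_⟩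
  have h1 : Tendsto (fun i => ENNReal.ofReal |M| * eLpNorm (fun z => u i z - u0 z) 2 volume) atTop
      (𝓝 (ENNReal.ofReal |M| * 0)) :=
    ENNReal.Tendsto.const_mul hu.t (Or.inr ENNReal.ofReal_ne_top)
  rw [mul_zero] at h1
  refine tendsto_of_tendsto_of_tendsto_of_le_of_le tendsto_const_nhds h1 (fun _ => bot_le)
    fun i => ?_
  refine eLpNorm_le_mul_eLpNorm_of_ae_le_mul (Eventually.of_forall fun z => ?_) 2
  have h2 : u i z * a z - u0 z * a z = K.indicator a z * (u i z - u0 z) := by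
    rw [key _ (huK i) z, key _ hu0K z]
    ring
  rw [h2]
  exact bd (fun z => u i z - u0 z) z

/-- The same for forms in `L²` with compact support; `D` is the divergence in the sense of distributions and `c j k` are
the components of the exterior derivative.
PROOF. `moll` with `m = n` and the operators `D` and `c j k` (`ι = Option (Fin n × Fin n)`) gives smooth forms `F i` with supports in
a compact set `K' ⊆ Ω` (so they are test functions in `Ω`). `basic_two` for `F i`, and let `i → ∞`: on `K'` the functions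
`exp (σ - φ)`, `exp (-φ)`, `dr φ z j - dr σ z j` are bounded, so all the expressions converge in `L²` with the
weights (for a continuous weight `W` on `K'`: `∫ |F_i|² W → ∫ |F|² W` if `F_i → F` in `L²` with supports in `K'`). -/
theorem basic_L2 {Ω : Set (Ec n)} (hΩ : IsOpen Ω) {φ σ : Ec n → ℝ} (hφ : ContDiffOn ℝ ∞ φ Ω)
    (hσ : ContDiffOn ℝ ∞ σ Ω) (hL : ∀ z ∈ Ω, ∀ X : Ec n,
      2 * (∑ k, ‖dr σ z k‖ ^ 2 + Real.exp (σ z)) * ‖X‖ ^ 2 ≤ leviForm φ z X)
    {K : Set (Ec n)} (hK : IsCompact K) (hKΩ : K ⊆ Ω) {f : Fin n → Ec n → ℂ}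
    (hf : ∀ j, MemLp (f j) 2 volume) (hfK : ∀ j, ∀ z ∉ K, f j z = 0) {D : Ec n → ℂ}
    (hD : MemLp D 2 volume) (hDK : ∀ z ∉ K, D z = 0) {c : Fin n → Fin n → Ec n → ℂ}
    (hc : ∀ j k, MemLp (c j k) 2 volume) (hcK : ∀ j k, ∀ z ∉ K, c j k z = 0)
    (hdiv : ∀ v, TF univ v → ∫ z, ∑ j, f j z * dj j v z = -∫ z, D z * v z)
    (hcurl : ∀ v, TF univ v → ∀ j k,
      ∫ z, (f k z * dk j v z - f j z * dk k v z) = -∫ z, c j k z * v z) :
    ∫ z, (∑ j, ‖f j z‖ ^ 2) * Real.exp (σ z - φ z) ≤
      (∫ z, ‖D z - ∑ j, f j z * (dr φ z j - dr σ z j)‖ ^ 2 * Real.exp (-φ z)) +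
        (1 / 4) * ∫ z, (∑ j, ∑ k, ‖c j k z‖ ^ 2) * Real.exp (-φ z) := by
  classical
  -- the operators
  let A : Option (Fin n × Fin n) → Fin n → Fin n → ℂ × ℂ := fun s r k =>
    match s with
    | none => if k = r then (1, 0) else (0, 0)
    | some p => (0, (if r = p.2 then (if k = p.1 then 1 else 0) else 0) -
        (if r = p.1 then (if k = p.2 then 1 else 0) else 0))
  let DD : Option (Fin n × Fin n) → Ec n → ℂ := fun s =>
    match s with
    | none => D
    | some p => c p.1 p.2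
  have hA0 : ∀ (g h : Fin n → Fin n → ℂ) (r : Fin n),
      ∑ k, ((A none r k).1 * g r k + (A none r k).2 * h r k) = g r r := by
    intro g h r
    have h1 : ∀ k, (A none r k).1 * g r k + (A none r k).2 * h r k =
        if k = r then g r k else 0 := by
      intro k
      show (if k = r then ((1 : ℂ), (0 : ℂ)) else (0, 0)).1 * g r k +
        (if k = r then ((1 : ℂ), (0 : ℂ)) else (0, 0)).2 * h r k = _
      by_cases hk : k = r
      · simp [hk]
      · simp [hk]
    simp only [h1]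
    simp
  have hA1 : ∀ (p : Fin n × Fin n) (g h : Fin n → Fin n → ℂ),
      ∑ r, ∑ k, ((A (some p) r k).1 * g r k + (A (some p) r k).2 * h r k) =
        h p.2 p.1 - h p.1 p.2 := by
    intro p g h
    have h1 : ∀ r k, (A (some p) r k).1 * g r k + (A (some p) r k).2 * h r k =
        (if r = p.2 then (if k = p.1 then h r k else 0) else 0) -
          (if r = p.1 then (if k = p.2 then h r k else 0) else 0) := by
      intro r k
      show 0 * g r k + ((if r = p.2 then (if k = p.1 then (1 : ℂ) else 0) else 0) -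
        (if r = p.1 then (if k = p.2 then 1 else 0) else 0)) * h r k = _
      rw [sub_mul, ite_mul, ite_mul, ite_mul, ite_mul]
      simp
    simp only [h1, Finset.sum_sub_distrib]
    congr 1
    · rw [Finset.sum_eq_single p.2]
      · simp
      · intro r _ hr
        simp [hr]
      · simp
    · rw [Finset.sum_eq_single p.1]
      · simp
      · intro r _ hr
        simp [hr]
      · simp
  obtain ⟨K', hK', hKK', hK'Ω, F, hFs, hF0, hFt, hFD⟩ := moll (m := n) hK hf hfK (D := DD)
    (fun s => by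
      match s with
      | none => exact hD
      | some p => exact hc p.1 p.2)
    (fun s => by
      match s with
      | none => exact hDK
      | some p => exact hcK p.1 p.2) A
    (fun s v hv => by
      match s with
      | none =>
        refine Eq.trans ?_ (hdiv v hv)
        congr 1
        funext z
        refine Finset.sum_congr rfl fun r _ => ?_
        rw [← Finset.mul_sum, hA0 (fun _ k => dj k v z) (fun _ k => dk k v z) r]
      | some p =>
        refine Eq.trans ?_ (hcurl v hv p.1 p.2)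
        congr 1
        funext z
        have h2 := hA1 p (fun r k => f r z * dj k v z) (fun r k => f r z * dk k v z)
        rw [← h2]
        refine Finset.sum_congr rfl fun r _ => Finset.sum_congr rfl fun k _ => ?_
        ring) hΩ hKΩ
  have hKc : IsClosed K' := hK'.isClosed
  have hTF' : ∀ i r, TF K' (F i r) := by
    intro i r
    have hs : tsupport (F i r) ⊆ K' := by
      refine closure_minimal (fun z hz => ?_) hKc
      by_contra h
      exact hz (hF0 i r z h)
    exact ⟨hFs i r, hK'.of_isClosed_subset (isClosed_tsupport _) hs, hs⟩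
  have hTF : ∀ i r, TF Ω (F i r) := fun i r =>
    ⟨(hTF' i r).sm, (hTF' i r).cpt, (hTF' i r).sub.trans hK'Ω⟩
  have hmem : ∀ {v : Ec n → ℂ}, TF K' v → MemLp v 2 volume := fun hv =>
    hv.sm.continuous.memLp_of_hasCompactSupport hv.cpt
  have hTFdj : ∀ i r k, TF K' (dj k (F i r)) := fun i r k => (TF_dj (hTF' i r) k).1
  have hTFdk : ∀ i r k, TF K' (dk k (F i r)) := fun i r k => (TF_dj (hTF' i r) k).2
  -- convergence
  have cF : ∀ r, H3T (fun i => F i r) (f r) := fun r =>
    ⟨fun i => hmem (hTF' i r), hf r, hFt r⟩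
  have cD : H3T (fun i z => ∑ r, dj r (F i r) z) D := by
    refine ⟨fun i => hmem (TF_sum Finset.univ fun r _ => hTFdj i r r), hD, ?_⟩
    refine (hFD none).congr fun i => ?_
    congr 1
    funext z
    have h1 : ∑ r, ∑ k, ((A none r k).1 * dj k (F i r) z + (A none r k).2 * dk k (F i r) z) =
        ∑ r, dj r (F i r) z :=
      Finset.sum_congr rfl fun r _ =>
        hA0 (fun r k => dj k (F i r) z) (fun r k => dk k (F i r) z) r
    rw [h1]
  have cC : ∀ j k, H3T (fun i z => dk j (F i k) z - dk k (F i j) z) (c j k) := by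
    intro j k
    refine ⟨fun i => (hmem (hTFdk i k j)).sub (hmem (hTFdk i j k)), hc j k, ?_⟩
    refine (hFD (some (j, k))).congr fun i => ?_
    congr 1
    funext z
    have h1 := hA1 (j, k) (fun r l => dj l (F i r) z) (fun r l => dk l (F i r) z)
    simp only at h1
    rw [h1]
  have hφc : ContinuousOn φ K' := hφ.continuousOn.mono hK'Ω
  have hσc : ContinuousOn σ K' := hσ.continuousOn.mono hK'Ω
  have hcexp : ∀ {g : Ec n → ℝ}, ContinuousOn g K' →
      ContinuousOn (fun z => ((Real.exp (g z / 2) : ℝ) : ℂ)) K' := fun hg =>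
    Complex.continuous_ofReal.comp_continuousOn
      (Real.continuous_exp.comp_continuousOn (hg.div_const 2))
  have hcφ : ContinuousOn (fun z => -φ z) K' := hφc.neg
  have hcσφ : ContinuousOn (fun z => σ z - φ z) K' := hσc.sub hφc
  have hnorm : ∀ (a : ℂ) (g : ℝ), ‖a * ((Real.exp (g / 2) : ℝ) : ℂ)‖ ^ 2 =
      ‖a‖ ^ 2 * Real.exp g := by
    intro a g
    rw [norm_mul, mul_pow, Complex.norm_real, Real.norm_eq_abs, abs_of_pos (Real.exp_pos _),
      ← Real.exp_nat_mul]
    congr 2
    push_cast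
    ring
  have hfK' : ∀ j, ∀ z ∉ K', f j z = 0 := fun j z hz => hfK j z fun h => hz (hKK' h)
  have hDK' : ∀ z ∉ K', D z = 0 := fun z hz => hDK z fun h => hz (hKK' h)
  have hcK' : ∀ j k, ∀ z ∉ K', c j k z = 0 := fun j k z hz => hcK j k z fun h => hz (hKK' h)
  -- first limit
  have l1 : Tendsto (fun i => ∫ z, (∑ j, ‖F i j z‖ ^ 2) * Real.exp (σ z - φ z)) atTop
      (𝓝 (∫ z, (∑ j, ‖f j z‖ ^ 2) * Real.exp (σ z - φ z))) := by
    have h1 : ∀ j, H3T (fun i z => F i j z * ((Real.exp ((σ z - φ z) / 2) : ℝ) : ℂ))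
        (fun z => f j z * ((Real.exp ((σ z - φ z) / 2) : ℝ) : ℂ)) := fun j =>
      h3_mul hK' (hcexp hcσφ) (cF j) (fun i => hF0 i j) (hfK' j)
    have h2 := tendsto_finsetSum Finset.univ fun j _ => h3_lim (h1 j)
    have h3 : ∀ (w : Fin n → Ec n → ℂ),
        (∀ j, MemLp (fun z => w j z * ((Real.exp ((σ z - φ z) / 2) : ℝ) : ℂ)) 2 volume) →
        ∑ j, ∫ z, ‖w j z * ((Real.exp ((σ z - φ z) / 2) : ℝ) : ℂ)‖ ^ 2 =
          ∫ z, (∑ j, ‖w j z‖ ^ 2) * Real.exp (σ z - φ z) := by
      intro w hw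
      rw [← integral_finsetSum Finset.univ fun j _ => (hw j).integrable_norm_pow (by norm_num)]
      congr 1
      funext z
      rw [Finset.sum_mul]
      exact Finset.sum_congr rfl fun j _ => hnorm _ _
    rw [h3 f fun j => (h1 j).m0] at h2
    refine h2.congr fun i => ?_
    exact h3 (F i) fun j => (h1 j).m i
  -- third limit
  have l3 : Tendsto (fun i => ∫ z, (∑ j, ∑ k, ‖dk j (F i k) z - dk k (F i j) z‖ ^ 2) *
      Real.exp (-φ z)) atTop (𝓝 (∫ z, (∑ j, ∑ k, ‖c j k z‖ ^ 2) * Real.exp (-φ z))) := by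
    have h1 : ∀ j k, H3T (fun i z => (dk j (F i k) z - dk k (F i j) z) *
        ((Real.exp ((-φ z) / 2) : ℝ) : ℂ))
        (fun z => c j k z * ((Real.exp ((-φ z) / 2) : ℝ) : ℂ)) := fun j k =>
      h3_mul hK' (hcexp hcφ) (cC j k) (fun i z hz => by
        rw [h3_out (hTFdk i k j) hz, h3_out (hTFdk i j k) hz, sub_zero]) (hcK' j k)
    have h2 := tendsto_finsetSum Finset.univ fun j _ =>
      tendsto_finsetSum Finset.univ fun k _ => h3_lim (h1 j k)
    have h3 : ∀ (w : Fin n → Fin n → Ec n → ℂ),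
        (∀ j k, MemLp (fun z => w j k z * ((Real.exp ((-φ z) / 2) : ℝ) : ℂ)) 2 volume) →
        ∑ j, ∑ k, ∫ z, ‖w j k z * ((Real.exp ((-φ z) / 2) : ℝ) : ℂ)‖ ^ 2 =
          ∫ z, (∑ j, ∑ k, ‖w j k z‖ ^ 2) * Real.exp (-φ z) := by
      intro w hw
      have hi : ∀ j k, Integrable (fun z => ‖w j k z * ((Real.exp ((-φ z) / 2) : ℝ) : ℂ)‖ ^ 2)
          volume := fun j k => (hw j k).integrable_norm_pow (by norm_num)
      have e1 : ∀ j, ∑ k, ∫ z, ‖w j k z * ((Real.exp ((-φ z) / 2) : ℝ) : ℂ)‖ ^ 2 =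
          ∫ z, ∑ k, ‖w j k z * ((Real.exp ((-φ z) / 2) : ℝ) : ℂ)‖ ^ 2 := fun j =>
        (integral_finsetSum Finset.univ fun k _ => hi j k).symm
      rw [Finset.sum_congr rfl fun j _ => e1 j,
        ← integral_finsetSum Finset.univ fun j _ => integrable_finsetSum _ fun k _ => hi j k]
      congr 1
      funext z
      rw [Finset.sum_mul]
      refine Finset.sum_congr rfl fun j _ => ?_
      rw [Finset.sum_mul]
      exact Finset.sum_congr rfl fun k _ => hnorm _ _
    rw [h3 c fun j k => (h1 j k).m0] at h2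
    refine h2.congr fun i => ?_
    exact h3 (fun j k z => dk j (F i k) z - dk k (F i j) z) fun j k => (h1 j k).m i
  -- second limit
  have l2 : Tendsto (fun i => ∫ z, ‖∑ j, (dj j (F i j) z - F i j z * (dr φ z j - dr σ z j))‖ ^ 2 *
      Real.exp (-φ z)) atTop
      (𝓝 (∫ z, ‖D z - ∑ j, f j z * (dr φ z j - dr σ z j)‖ ^ 2 * Real.exp (-φ z))) := by
    have hdr : ∀ j, ContinuousOn (fun z => dr φ z j - dr σ z j) K' := fun j =>
      ((dr_smooth hΩ hφ j).continuousOn.mono hK'Ω).sub
        ((dr_smooth hΩ hσ j).continuousOn.mono hK'Ω)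
    have h1 : ∀ j, H3T (fun i z => F i j z * (dr φ z j - dr σ z j))
        (fun z => f j z * (dr φ z j - dr σ z j)) := fun j =>
      h3_mul hK' (hdr j) (cF j) (fun i => hF0 i j) (hfK' j)
    have h2 := h3_sub cD (h3_sum Finset.univ fun j _ => h1 j)
    have h3 := h3_mul hK' (hcexp hcφ) h2 (fun i z hz => by
        have e1 : ∀ r, dj r (F i r) z = 0 := fun r => h3_out (hTFdj i r r) hz
        have e2 : ∀ r, F i r z = 0 := fun r => hF0 i r z hz
        simp [e1, e2]) (fun z hz => by
        have e2 : ∀ r, f r z = 0 := fun r => hfK' r z hz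
        simp [hDK' z hz, e2])
    have h4 := h3_lim h3
    simp only [hnorm] at h4
    refine h4.congr fun i => ?_
    congr 1
    funext z
    rw [Finset.sum_sub_distrib]
  refine le_of_tendsto_of_tendsto' l1 (l2.add (l3.const_mul (1 / 4))) fun i => ?_
  exact basic_two hΩ hφ hσ hL (hTF i)

end Pool.Agent.MPca0fc2.LV
end

section

/-! The mean value property. -/

set_option autoImplicit false

open Metric Set MeasureTheory Filter Topology
open scoped ContDiff

namespace Pool.Agent.MPca0fc2.LV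

open Pool.Agent.MPca0fc2.FD (Ec ee)

variable {n : ℕ}

/-- Multiplication by `e^{iθ}`. -/
private noncomputable def H7_rot (n : ℕ) (θ : ℝ) : Ec n ≃ₗᵢ[ℝ] Ec n where
  toLinearEquiv := (LinearEquiv.smulOfNeZero ℂ (Ec n) (Complex.exp (θ * Complex.I))
    (Complex.exp_ne_zero _)).restrictScalars ℝ
  norm_map' := by
    intro x
    show ‖Complex.exp (θ * Complex.I) • x‖ = ‖x‖
    rw [norm_smul, Complex.norm_exp_ofReal_mul_I, one_mul]

private theorem H7_rot_apply (θ : ℝ) (y : Ec n) :
    H7_rot n θ y = Complex.exp (θ * Complex.I) • y := rfl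

/-- PROOF. `ρ` depends only on `‖y‖`, so the integral does not change if `y` is replaced by `e^{iθ} y`
(a linear isometry preserves the measure). Average over `θ ∈ [0, 2π]`, exchange the integrals, and the mean value
property for the function `λ ↦ F (z - λ y)` of one variable, holomorphic near the closed unit disc
(`circleAverage` / `DiffContOnCl.circleIntegral_sub_inv_smul`). -/
theorem mean_radial {F : Ec n → ℂ} {z : Ec n} {r : ℝ} (hr : 0 < r) {V : Set (Ec n)} (hV : IsOpen V)
    (hF : DifferentiableOn ℂ F V) (hz : closedBall z r ⊆ V) {ρ : ℝ → ℝ} (hρ : Continuous ρ)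
    (hρ0 : ∀ t, r ≤ t → ρ t = 0) (hρ1 : ∫ y : Ec n, ρ ‖y‖ = 1) :
    ∫ y : Ec n, (ρ ‖y‖ : ℂ) * F (z - y) = F z := by
  set g : ℝ → Ec n → ℂ := fun θ y => (ρ ‖y‖ : ℂ) * F (z - Complex.exp (θ * Complex.I) • y) with hg
  have hmem : ∀ (c : ℂ) (y : Ec n), ‖c‖ ≤ 1 → ‖y‖ ≤ r → z - c • y ∈ V := by
    intro c y hc hy
    apply hz
    rw [mem_closedBall, dist_eq_norm, sub_sub_cancel_left, norm_neg, norm_smul]
    calc ‖c‖ * ‖y‖ ≤ 1 * r := mul_le_mul hc hy (norm_nonneg _) zero_le_one
      _ = r := one_mul r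
  have hcont : Continuous (Function.uncurry g) := by
    rw [continuous_iff_continuousAt]
    rintro ⟨θ, y⟩
    by_cases hy : ‖y‖ ≤ r
    · have h1 : ContinuousAt F (z - Complex.exp (θ * Complex.I) • y) :=
        (hF.differentiableAt (hV.mem_nhds (hmem _ _
          (by rw [Complex.norm_exp_ofReal_mul_I]) hy))).continuousAt
      have h2 : Continuous fun q : ℝ × Ec n => z - Complex.exp (q.1 * Complex.I) • q.2 := by
        fun_prop
      have h3 : ContinuousAt (fun q : ℝ × Ec n => F (z - Complex.exp (q.1 * Complex.I) • q.2))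
          (θ, y) :=
        ContinuousAt.comp (f := fun q : ℝ × Ec n => z - Complex.exp (q.1 * Complex.I) • q.2)
          (x := (θ, y)) h1 h2.continuousAt
      have h4 : Continuous fun q : ℝ × Ec n => (ρ ‖q.2‖ : ℂ) := by fun_prop
      exact h4.continuousAt.mul h3
    · have h1 : ∀ᶠ q : ℝ × Ec n in 𝓝 (θ, y), Function.uncurry g q = 0 := by
        have h2 : ∀ᶠ q : ℝ × Ec n in 𝓝 (θ, y), r < ‖q.2‖ :=
          Filter.Tendsto.eventually_const_lt (not_le.mp hy) (continuous_snd.norm.continuousAt)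
        filter_upwards [h2] with q hq
        show (ρ ‖q.2‖ : ℂ) * _ = 0
        rw [hρ0 _ hq.le]
        simp
      exact (continuousAt_const (y := (0 : ℂ))).congr (h1.mono fun q hq => hq.symm)
  have hint : Integrable (Function.uncurry g)
      ((volume.restrict (Set.uIoc 0 (2 * Real.pi))).prod (volume : Measure (Ec n))) := by
    have hK : IntegrableOn (Function.uncurry g)
        (Set.Icc (0 : ℝ) (2 * Real.pi) ×ˢ closedBall (0 : Ec n) r)
        ((volume : Measure ℝ).prod (volume : Measure (Ec n))) :=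
      hcont.continuousOn.integrableOn_compact (isCompact_Icc.prod (isCompact_closedBall _ _))
    have h1 : ((volume.restrict (Set.uIoc 0 (2 * Real.pi))).prod (volume : Measure (Ec n))) =
        ((volume : Measure ℝ).prod (volume : Measure (Ec n))).restrict
          (Set.uIoc 0 (2 * Real.pi) ×ˢ Set.univ) := by
      rw [← Measure.prod_restrict, Measure.restrict_univ]
    rw [h1]
    refine IntegrableOn.of_forall_sdiff_eq_zero hK
      (measurableSet_uIoc.prod MeasurableSet.univ) ?_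
    rintro ⟨θ, y⟩ ⟨hq1, hq2⟩
    have hθ : θ ∈ Set.Icc (0 : ℝ) (2 * Real.pi) := by
      have h2 := hq1.1
      rw [Set.uIoc_of_le (by positivity)] at h2
      exact ⟨h2.1.le, h2.2⟩
    have hy : y ∉ closedBall (0 : Ec n) r := fun h => hq2 ⟨hθ, h⟩
    rw [mem_closedBall, dist_zero_right, not_le] at hy
    show (ρ ‖y‖ : ℂ) * _ = 0
    rw [hρ0 _ hy.le]
    simp
  have hswap := intervalIntegral_integral_swap hint
  have hleft : ∀ θ : ℝ, ∫ y, g θ y = ∫ y : Ec n, (ρ ‖y‖ : ℂ) * F (z - y) := by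
    intro θ
    have h1 := (H7_rot n θ).measurePreserving.integral_comp
      (H7_rot n θ).toHomeomorph.measurableEmbedding (fun y : Ec n => (ρ ‖y‖ : ℂ) * F (z - y))
    rw [← h1]
    refine integral_congr_ae (Eventually.of_forall fun y => ?_)
    show _ = (ρ ‖H7_rot n θ y‖ : ℂ) * F (z - H7_rot n θ y)
    rw [LinearIsometryEquiv.norm_map, H7_rot_apply]
  have hright : ∀ y : Ec n, ∫ θ in (0 : ℝ)..(2 * Real.pi), g θ y =
      (2 * Real.pi : ℂ) * ((ρ ‖y‖ : ℂ) * F z) := by
    intro y
    by_cases hy : ‖y‖ ≤ r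
    · have hd : DifferentiableOn ℂ (fun c : ℂ => F (z - c • y)) (closedBall 0 1) := by
        intro c hc
        have hc1 : ‖c‖ ≤ 1 := by simpa using hc
        have h1 : DifferentiableAt ℂ F (z - c • y) :=
          hF.differentiableAt (hV.mem_nhds (hmem c y hc1 hy))
        have h2 : DifferentiableAt ℂ (fun c : ℂ => z - c • y) c := by fun_prop
        exact (DifferentiableAt.comp (f := fun c : ℂ => z - c • y) c h1 h2).differentiableWithinAt
      have hd' : DiffContOnCl ℂ (fun c : ℂ => F (z - c • y)) (ball 0 |(1 : ℝ)|) := by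
        refine DifferentiableOn.diffContOnCl (hd.mono ?_)
        rw [abs_one]
        exact closure_ball_subset_closedBall
      have h1 := hd'.circleAverage
      rw [Real.circleAverage_def, zero_smul, sub_zero] at h1
      have h2 : ∫ θ in (0 : ℝ)..(2 * Real.pi), g θ y =
          (ρ ‖y‖ : ℂ) * ∫ θ in (0 : ℝ)..(2 * Real.pi), F (z - circleMap 0 1 θ • y) := by
        rw [← intervalIntegral.integral_const_mul]
        refine intervalIntegral.integral_congr fun θ _ => ?_
        simp [hg, circleMap]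
      have h3 : ∫ θ in (0 : ℝ)..(2 * Real.pi), F (z - circleMap 0 1 θ • y) =
          (2 * Real.pi : ℂ) * F z := by
        rw [← h1, Complex.real_smul]
        push_cast
        have : (Real.pi : ℂ) ≠ 0 := by exact_mod_cast Real.pi_ne_zero
        field_simp
      rw [h2, h3]
      ring
    · have h0 : ρ ‖y‖ = 0 := hρ0 _ (not_le.mp hy).le
      simp [hg, h0]
  rw [intervalIntegral.integral_congr (fun θ _ => hleft θ), intervalIntegral.integral_const,
    integral_congr_ae (Eventually.of_forall hright), integral_const_mul, integral_mul_const,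
    integral_complex_ofReal, hρ1, sub_zero, Complex.real_smul, Complex.ofReal_one, one_mul] at hswap
  have hpi : (2 * Real.pi : ℂ) ≠ 0 := by
    exact_mod_cast (by positivity : (2 * Real.pi : ℝ) ≠ 0)
  have h5 : ((2 * Real.pi : ℝ) : ℂ) = (2 * Real.pi : ℂ) := by push_cast; ring
  rw [h5] at hswap
  exact mul_left_cancel₀ hpi hswap

end Pool.Agent.MPca0fc2.LV
end
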