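import Pool.Agent.Lib.MP_ca0fc2_an.Mg.G050
import Pool.Agent.Lib.MP_ca0fc2_an.Mg.G045
import Pool.Agent.Lib.MP_ca0fc2_an.Mg.G047
import Pool.Agent.Lib.MP_ca0fc2_an.Mg.G067

section

/-! The pointwise bounds of the kernels. -/

set_option autoImplicit false

open Metric Set MeasureTheory Filter Topology

namespace Pool.Agent.MPca0fc2.FD

variable {n : ℕ} {V : Type*} [NormedAddCommGroup V] [NormedSpace ℂ V]

private theorem co_le (X : Ec n) (k : Fin n) : ‖X k‖ ≤ ‖X‖ := PiLp.norm_apply_le X k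

private theorem eno (k : Fin n) : ‖(ee k : Ec n)‖ = 1 := by
  unfold ee; simp

private theorem eco (l k : Fin n) :
    (starRingEnd ℂ) ((ee l : Ec n) k) = if k = l then 1 else 0 := by
  unfold ee
  rw [PiLp.single_apply]
  split_ifs <;> simp

private theorem cf_le {c C : ℝ} (hc : 0 < c) (hC : 0 ≤ C) {g : Fin n → ℂ} {k₀ : Fin n}
    (hg : c ≤ ‖g k₀‖) (hgC : ‖g‖ ≤ C) (l : Fin n) :
    ‖(if l = k₀ then 0 else g l / g k₀ : ℂ)‖ ≤ C / c := by
  split_ifs with h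
  · rw [norm_zero]; positivity
  · rw [norm_div]
    exact div_le_div₀ hC (le_trans (norm_le_pi_norm g l) hgC) hc hg

/-- PROOF. `|g k / g k₀| ≤ C / c`. -/
theorem pp_norm (n : ℕ) {c C : ℝ} (hc : 0 < c) (hC : 0 ≤ C) {g : Fin n → ℂ} {k₀ : Fin n}
    (hg : c ≤ ‖g k₀‖) (hgC : ‖g‖ ≤ C) (l : Fin n) : ‖pp g k₀ l‖ ≤ 1 + C / c := by
  unfold pp
  refine le_trans (norm_sub_le _ _) ?_
  rw [norm_smul, eno, eno, mul_one]
  linarith [cf_le hc hC hg hgC l]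

/-- PROOF. As `pp_norm`. -/
theorem tc_norm (n : ℕ) {c C : ℝ} (hc : 0 < c) (hC : 0 ≤ C) {g : Fin n → ℂ} {k₀ : Fin n}
    (hg : c ≤ ‖g k₀‖) (hgC : ‖g‖ ≤ C) (v : Fin n → ℂ) : ‖tc g k₀ v‖ ≤ (1 + C / c) * ‖v‖ := by
  refine (pi_norm_le_iff_of_nonneg (by positivity)).mpr fun k => ?_
  unfold tc
  refine le_trans (norm_sub_le _ _) ?_
  rw [norm_mul]
  have h1 := cf_le hc hC hg hgC k
  have h2 := norm_le_pi_norm v k
  have h3 := norm_le_pi_norm v k₀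
  have h4 : ‖(if k = k₀ then 0 else g k / g k₀ : ℂ)‖ * ‖v k₀‖ ≤ C / c * ‖v‖ :=
    mul_le_mul h1 h3 (norm_nonneg _) (by positivity)
  linarith

private theorem sum_ee (g : Fin n → ℂ) (l : Fin n) : ∑ k, g k * (ee l : Ec n) k = g l := by
  rw [Finset.sum_eq_single l]
  · unfold ee; rw [PiLp.single_apply]; simp
  · intro k _ hk
    unfold ee; rw [PiLp.single_apply, if_neg hk, mul_zero]
  · intro h; exact absurd (Finset.mem_univ _) h

/-- PROOF. `∑ g_k (ee l)_k = g l`, so `g l - (g l / g k₀) g k₀ = 0`. -/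
theorem pp_tan {g : Fin n → ℂ} {k₀ : Fin n} (hg : g k₀ ≠ 0) {l : Fin n} (hl : l ≠ k₀) :
    ∑ k, g k * (pp g k₀ l) k = 0 := by
  have h1 : ∀ k, g k * (pp g k₀ l) k = g k * (ee l : Ec n) k - g l / g k₀ * (g k * (ee k₀ : Ec n) k) := by
    intro k
    unfold pp
    rw [if_neg hl, PiLp.sub_apply, PiLp.smul_apply, smul_eq_mul]
    ring
  simp_rw [h1]
  rw [Finset.sum_sub_distrib, ← Finset.mul_sum, sum_ee, sum_ee]
  field_simp
  ring

private theorem pp_self (g : Fin n → ℂ) (k₀ : Fin n) : pp g k₀ k₀ = ee k₀ := by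
  unfold pp; rw [if_pos rfl, zero_smul, sub_zero]

/-- The gauge of the frame vectors.
PROOF. For `l ≠ k₀`: `∑ g_k (pp l)_k = 0` (`pp_tan`), so `gau = ‖pp l‖ / √δ`. For `l = k₀`: `pp = ee k₀`,
`gau = |g k₀| / δ + 1 / √δ ≤ (C + √C) / δ`. -/
theorem pp_gau (n : ℕ) (c C : ℝ) : ∃ C' : ℝ, 0 < C' ∧ ∀ (U : Set (Ec n))
    (δ : Ec n → ℝ) (h : Ec n → Ec n → Fin n → ℂ), Geo U δ h c C → ∀ ζ ∈ Om U δ, ∀ k₀ : Fin n,
    c ≤ ‖h ζ ζ k₀‖ → (∀ l, l ≠ k₀ → gau δ h ζ (pp (h ζ ζ) k₀ l) ≤ C' / Real.sqrt (δ ζ)) ∧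
      gau δ h ζ (pp (h ζ ζ) k₀ k₀) ≤ C' / δ ζ := by
  refine ⟨1 + |C| / |c| + |C| + Real.sqrt |C|, by positivity, ?_⟩
  intro U δ h hg ζ hζ k₀ hk
  have hc := hg.c0
  have hC : 0 < C := by linarith [hg.C1]
  have hδ : 0 < δ ζ := hζ.2
  have hs : 0 < Real.sqrt (δ ζ) := Real.sqrt_pos.mpr hδ
  have hgC : ‖h ζ ζ‖ ≤ C := hg.bh ζ hζ.1 ζ hζ.1
  rw [abs_of_pos hc, abs_of_pos hC]
  have hne : h ζ ζ k₀ ≠ 0 := fun h0 => by rw [h0, norm_zero] at hk; linarith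
  constructor
  · intro l hl
    unfold gau
    rw [pp_tan hne hl, norm_zero, zero_div, zero_add]
    refine div_le_div_of_nonneg_right ?_ hs.le
    have := pp_norm n hc hC.le hk hgC l
    have h2 : 0 ≤ Real.sqrt C := Real.sqrt_nonneg _
    linarith
  · unfold gau
    rw [pp_self, sum_ee, eno]
    have h1 : ‖h ζ ζ k₀‖ / δ ζ ≤ C / δ ζ :=
      div_le_div_of_nonneg_right (le_trans (norm_le_pi_norm _ k₀) hgC) hδ.le
    have h2 : 1 / Real.sqrt (δ ζ) ≤ Real.sqrt C / δ ζ := by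
      rw [div_le_div_iff₀ hs hδ, one_mul]
      have h3 : Real.sqrt (δ ζ) ≤ Real.sqrt C := Real.sqrt_le_sqrt (hg.bδ ζ hζ.1)
      calc δ ζ = Real.sqrt (δ ζ) * Real.sqrt (δ ζ) := (Real.mul_self_sqrt hδ.le).symm
        _ ≤ Real.sqrt C * Real.sqrt (δ ζ) := mul_le_mul_of_nonneg_right h3 hs.le
    have h4 : (1 + C / c + C + Real.sqrt C) / δ ζ = (1 + C / c) / δ ζ + C / δ ζ + Real.sqrt C / δ ζ := by
      ring
    rw [h4]
    have : 0 ≤ (1 + C / c) / δ ζ := by positivity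
    linarith

private theorem db_nrm (G : Ec n → ℂ) (z X : Ec n) : ‖db G z X‖ ≤ ‖fderiv ℝ G z‖ * ‖X‖ := by
  unfold db
  rw [norm_smul, smul_eq_mul]
  have h3 : ‖(2⁻¹ : ℂ)‖ = 2⁻¹ := by norm_num
  rw [h3]
  have h1 : ‖fderiv ℝ G z X‖ ≤ ‖fderiv ℝ G z‖ * ‖X‖ := (fderiv ℝ G z).le_opNorm X
  have h2 : ‖Complex.I * fderiv ℝ G z (Complex.I • X)‖ ≤ ‖fderiv ℝ G z‖ * ‖X‖ := by
    rw [norm_mul, Complex.norm_I, one_mul]
    refine le_trans ((fderiv ℝ G z).le_opNorm _) ?_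
    rw [norm_smul, Complex.norm_I, one_mul]
  have := norm_add_le (fderiv ℝ G z X) (Complex.I * fderiv ℝ G z (Complex.I • X))
  linarith

/-- The section part of the row of the direction `X` of `ζ` is bounded.
PROOF. `|conj (X k)| ≤ ‖X‖` and `|db (fun y => h z y k) ζ X| ≤ ‖fderiv ℝ h (z, ζ)‖ ‖X‖ ≤ C ‖X‖` (`Geo.bdh`; the
derivative of `y ↦ h z y` is the derivative of the uncurried function composed with `X ↦ (0, X)`). -/
theorem rζ_norm {U : Set (Ec n)} {δ : Ec n → ℝ} {h : Ec n → Ec n → Fin n → ℂ} {c C : ℝ}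
    (hg : Geo U δ h c C) {z ζ : Ec n} (hz : z ∈ U) (hζ : ζ ∈ U) {τ : ℝ} (hτ : τ ∈ Icc (0 : ℝ) 1)
    (X : Ec n) :
    ‖(fun k => (1 - τ) * (starRingEnd ℂ) (X k) + τ * db (fun y => h z y k) ζ X : Fin n → ℂ)‖ ≤
      (1 + C) * ‖X‖ := by
  have hC : 0 ≤ C := by linarith [hg.C1]
  refine (pi_norm_le_iff_of_nonneg (by positivity)).mpr fun k => ?_
  refine le_trans (norm_add_le _ _) ?_
  rw [norm_mul, norm_mul]
  have e1 : ‖((1 : ℂ) - τ)‖ ≤ 1 := by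
    have : ((1 : ℂ) - τ) = ((1 - τ : ℝ) : ℂ) := by push_cast; ring
    rw [this, Complex.norm_real, Real.norm_eq_abs, abs_of_nonneg (by linarith [hτ.2])]
    linarith [hτ.1]
  have e2 : ‖(τ : ℂ)‖ ≤ 1 := by
    rw [Complex.norm_real, Real.norm_eq_abs, abs_of_nonneg hτ.1]
    exact hτ.2
  have hd : DifferentiableAt ℝ (fun p : Ec n × Ec n => h p.1 p.2) (z, ζ) :=
    ((hg.dh.differentiableOn (by norm_num)) (z, ζ) ⟨hz, hζ⟩).differentiableAt
      ((hg.opn.prod hg.opn).mem_nhds ⟨hz, hζ⟩)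
  have hin : HasFDerivAt (fun y : Ec n => ((z, y) : Ec n × Ec n))
      (ContinuousLinearMap.inr ℝ (Ec n) (Ec n)) ζ := by
    exact hasFDerivAt_prodMk_right z ζ
  have hcomp : HasFDerivAt (fun y : Ec n => h z y k)
      ((ContinuousLinearMap.proj (R := ℝ) (φ := fun _ : Fin n => ℂ) k).comp
        ((fderiv ℝ (fun p : Ec n × Ec n => h p.1 p.2) (z, ζ)).comp
          (ContinuousLinearMap.inr ℝ (Ec n) (Ec n)))) ζ := by
    have h1 := hd.hasFDerivAt.comp ζ hin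
    exact (ContinuousLinearMap.proj (R := ℝ) (φ := fun _ : Fin n => ℂ) k).hasFDerivAt.comp ζ h1
  have hf : ‖fderiv ℝ (fun y : Ec n => h z y k) ζ‖ ≤ C := by
    rw [hcomp.fderiv]
    refine ContinuousLinearMap.opNorm_le_bound _ hC fun X => ?_
    show ‖(fderiv ℝ (fun p : Ec n × Ec n => h p.1 p.2) (z, ζ)) (0, X) k‖ ≤ _
    refine le_trans (norm_le_pi_norm _ k) ?_
    refine le_trans (ContinuousLinearMap.le_opNorm _ _) ?_
    have : ‖((0 : Ec n), X)‖ = ‖X‖ := by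
      rw [Prod.norm_mk, norm_zero, max_eq_right (norm_nonneg _)]
    rw [this]
    exact mul_le_mul_of_nonneg_right (hg.bdh z hz ζ hζ) (norm_nonneg _)
  have h1 : ‖(1 : ℂ) - τ‖ * ‖(starRingEnd ℂ) (X k)‖ ≤ 1 * ‖X‖ := by
    refine mul_le_mul e1 ?_ (norm_nonneg _) zero_le_one
    rw [RCLike.norm_conj]
    exact co_le X k
  have h2 : ‖(τ : ℂ)‖ * ‖db (fun y => h z y k) ζ X‖ ≤ 1 * (C * ‖X‖) := by
    refine mul_le_mul e2 ?_ (norm_nonneg _) zero_le_one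
    exact le_trans (db_nrm _ _ _) (mul_le_mul_of_nonneg_right hf (norm_nonneg _))
  linarith

private theorem snc {α : Type*} {m : ℕ} (f : Fin m → α) (a : α) (i : Fin m) :
    sn f a (Fin.castSucc i) = f i := by
  unfold sn; rw [Fin.snoc_castSucc]

private theorem snl {α : Type*} {m : ℕ} (f : Fin m → α) (a : α) :
    sn f a (Fin.last m) = a := by
  unfold sn; rw [Fin.snoc_last]

private theorem prod_erase_last {q : ℕ} (f : Fin (q + 1) → ℝ) :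
    ∏ i ∈ Finset.univ.erase (Fin.last q), f i = ∏ i : Fin q, f (Fin.castSucc i) := by
  have : (Finset.univ.erase (Fin.last q)) = Finset.univ.map Fin.castSuccEmb := by
    ext i
    refine Fin.lastCases ?_ (fun i => ?_) i
    · simp
    · simp
  rw [this, Finset.prod_map]
  rfl

private theorem det_noninj {q : ℕ} (x : Fin n → ℂ) (x0 : ℂ) (E : Fin n → Fin n → ℂ)
    (E0 : Fin n → ℂ) (y : Fin q → Fin n → ℂ) (y0 : Fin q → ℂ) (L : Fin q → Fin n)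
    (hL : ¬ Function.Injective L) :
    Matrix.det (cn (sn (Fin.append x (0 : Fin q → ℂ)) x0 : Fin (n + q + 1) → ℂ)
      (Fin.append (fun l => (sn (Fin.append (E l) (fun j => if L j = l then (1 : ℂ) else 0)) (E0 l) :
          Fin (n + q + 1) → ℂ))
        (fun i => (sn (Fin.append (y i) (0 : Fin q → ℂ)) (y0 i) : Fin (n + q + 1) → ℂ)))) = 0 := by
  unfold Function.Injective at hL
  push Not at hL
  obtain ⟨j, j', hjL, hj⟩ := hL
  set rE : Fin n → Fin (n + q + 1) → ℂ := fun l =>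
    (sn (Fin.append (E l) (fun j => if L j = l then (1 : ℂ) else 0)) (E0 l) : Fin (n + q + 1) → ℂ) with hrE
  set rY : Fin q → Fin (n + q + 1) → ℂ := fun i =>
    (sn (Fin.append (y i) (0 : Fin q → ℂ)) (y0 i) : Fin (n + q + 1) → ℂ) with hrY
  refine Matrix.det_zero_of_column_eq (i := Fin.castSucc (Fin.natAdd n j))
    (j := Fin.castSucc (Fin.natAdd n j')) ?_ ?_
  · intro h
    apply hj
    have := congrArg Fin.val h
    simp at this
    exact Fin.ext this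
  · intro r
    refine Fin.cases ?_ (fun r => ?_) r
    · show sn (Fin.append x (0 : Fin q → ℂ)) x0 _ = sn (Fin.append x (0 : Fin q → ℂ)) x0 _
      rw [snc, snc, Fin.append_right, Fin.append_right]; rfl
    · show Fin.append rE rY r _ = Fin.append rE rY r _
      refine Fin.addCases (fun l => ?_) (fun i => ?_) r
      · rw [Fin.append_left, hrE]
        simp only [snc, Fin.append_right]
        rw [hjL]
      · rw [Fin.append_right, hrY]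
        simp only [snc, Fin.append_right]
        rfl

/-- the section part of a direction row -/
private noncomputable def Dm (h : Ec n → Ec n → Fin n → ℂ) (τ : ℝ) (z ζ X : Ec n) : Fin n → ℂ :=
  fun k => (1 - τ) * (starRingEnd ℂ) (X k) + τ * db (fun y => h z y k) ζ X

/-- the last entry of a direction row -/
private noncomputable def D0m (δ : Ec n → ℝ) (ε τ : ℝ) (ζ X : Ec n) : ℂ :=
  ((1 - τ) * (2 * ε ^ 2 * δ ζ) + τ) * db (fun y => (δ y : ℂ)) ζ X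

/-- the section parts of the other rows -/
private noncomputable def ym (h : Ec n → Ec n → Fin n → ℂ) (τ : ℝ) (z ζ : Ec n) {q : ℕ}
    (Y : Fin q → Ec n) : Fin (q + 1) → Fin n → ℂ :=
  sn (fun i k => -(1 - τ) * (starRingEnd ℂ) (Y i k)) (wk h 1 z ζ)

/-- the last entries of the other rows -/
private noncomputable def y0m (δ : Ec n → ℝ) (ε : ℝ) (ζ : Ec n) (q : ℕ) : Fin (q + 1) → ℂ :=
  sn (fun _ => 0) (w0 δ ε 1 ζ : ℂ)

private theorem Ker_form (δ : Ec n → ℝ) (h : Ec n → Ec n → Fin n → ℂ) (ε : ℝ) {q : ℕ}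
    (I : Fin (q + 1) → Fin n) (Y : Fin q → Ec n) (τ : ℝ) (z ζ : Ec n) :
    Ker δ h ε I Y τ z ζ = F0 δ h ε τ z ζ * Matrix.det (cn (sn (Fin.append (wk h 0 z ζ)
        (0 : Fin (q + 1) → ℂ)) (w0 δ ε 0 ζ : ℂ) : Fin (n + (q + 1) + 1) → ℂ)
      (Fin.append (fun l => (sn (Fin.append (Dm h τ z ζ (ee l))
          (fun j => (starRingEnd ℂ) ((ee l : Ec n) (I j)))) (D0m δ ε τ ζ (ee l)) :
            Fin (n + (q + 1) + 1) → ℂ))
        (fun i => (sn (Fin.append (ym h τ z ζ Y i) (0 : Fin (q + 1) → ℂ)) (y0m δ ε ζ q i) :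
          Fin (n + (q + 1) + 1) → ℂ)))) := by
  rw [Ker_pair]
  have hY : (sn (fun i => rz (q + 1) τ (Y i)) (rx δ h ε (q + 1) 1 z ζ) :
      Fin (q + 1) → Fin (n + (q + 1) + 1) → ℂ) =
      fun i => (sn (Fin.append (ym h τ z ζ Y i) (0 : Fin (q + 1) → ℂ)) (y0m δ ε ζ q i) :
          Fin (n + (q + 1) + 1) → ℂ) := by
    funext i
    refine Fin.lastCases ?_ (fun i => ?_) i
    · unfold ym y0m
      rw [snl, snl, snl]
      rfl
    · unfold ym y0m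
      rw [snc, snc, snc]
      rfl
  rw [hY]
  rfl

private theorem wk0_le (h : Ec n → Ec n → Fin n → ℂ) (z ζ : Ec n) : ‖wk h 0 z ζ‖ ≤ ‖ζ - z‖ := by
  refine (pi_norm_le_iff_of_nonneg (norm_nonneg _)).mpr fun k => ?_
  unfold wk
  have : ((1 : ℂ) - (0 : ℝ)) * (starRingEnd ℂ) (ζ k - z k) + ((0 : ℝ) : ℂ) * h z ζ k =
      (starRingEnd ℂ) ((ζ - z) k) := by
    rw [PiLp.sub_apply]; simp
  rw [this, RCLike.norm_conj]
  exact co_le _ k

private theorem wk1_eq (h : Ec n → Ec n → Fin n → ℂ) (z ζ : Ec n) : wk h 1 z ζ = h z ζ := by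
  funext k
  unfold wk
  simp

private theorem Dm_lin (h : Ec n → Ec n → Fin n → ℂ) (τ : ℝ) (z ζ : Ec n) (a : ℂ) (X X' : Ec n) :
    Dm h τ z ζ (a • X + X') = (starRingEnd ℂ) a • Dm h τ z ζ X + Dm h τ z ζ X' := by
  funext k
  simp only [Dm, Pi.add_apply, Pi.smul_apply, smul_eq_mul]
  rw [db_conj_lin, PiLp.add_apply, PiLp.smul_apply, smul_eq_mul, smul_eq_mul, map_add, map_mul]
  ring

private theorem D0m_lin (δ : Ec n → ℝ) (ε τ : ℝ) (ζ : Ec n) (a : ℂ) (X X' : Ec n) :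
    D0m δ ε τ ζ (a • X + X') = (starRingEnd ℂ) a * D0m δ ε τ ζ X + D0m δ ε τ ζ X' := by
  unfold D0m
  rw [db_conj_lin, smul_eq_mul]
  ring

private theorem D0m_le {U : Set (Ec n)} {δ : Ec n → ℝ} {h : Ec n → Ec n → Fin n → ℂ} {c C : ℝ}
    (hg : Geo U δ h c C) {ζ : Ec n} (hζ : ζ ∈ Om U δ) {ε : ℝ} (τ : ℝ)
    (hτ : τ ∈ Icc (0 : ℝ) 1) (X : Ec n) :
    ‖D0m δ ε τ ζ X‖ ≤ (2 * ε ^ 2 * δ ζ + τ) * ‖∑ k, h ζ ζ k * X k‖ := by
  unfold D0m
  rw [db_δ hg hζ.1, norm_mul, norm_neg, RCLike.norm_conj]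
  refine mul_le_mul_of_nonneg_right ?_ (norm_nonneg _)
  have hδ : 0 < δ ζ := hζ.2
  have h1 : ((1 : ℂ) - τ) * (2 * (ε : ℂ) ^ 2 * (δ ζ : ℂ)) + τ =
      (((1 - τ) * (2 * ε ^ 2 * δ ζ) + τ : ℝ) : ℂ) := by push_cast; ring
  rw [h1, Complex.norm_real, Real.norm_eq_abs]
  have h2 : 0 ≤ 2 * ε ^ 2 * δ ζ := by positivity
  have h3 : 0 ≤ (1 - τ) * (2 * ε ^ 2 * δ ζ) := mul_nonneg (by linarith [hτ.2]) h2
  rw [abs_of_nonneg (by linarith [hτ.1])]
  nlinarith [hτ.1]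

/-- scalar inequality, `k₀` in the range -/
private theorem sc1 {s r d ε τ : ℝ} (q : ℕ) (hs : 0 < s) (hr : 0 < r) (hd : 0 ≤ d)
    (hε : 0 < ε) (hε1 : ε ≤ 1) (hτ : 0 ≤ τ) :
    s⁻¹ * r⁻¹ ^ q * (ε ^ 2 * s ^ 2 + d * s) ≤ r⁻¹ ^ q * (d + ε * s + τ * d / r) := by
  have h1 : s⁻¹ * r⁻¹ ^ q * (ε ^ 2 * s ^ 2 + d * s) = r⁻¹ ^ q * (ε ^ 2 * s + d) := by
    field_simp
  rw [h1]
  refine mul_le_mul_of_nonneg_left ?_ (by positivity)
  have h2 : ε ^ 2 * s ≤ ε * s := by nlinarith [mul_pos hε hs]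
  have h3 : 0 ≤ τ * d / r := by positivity
  linarith

/-- scalar inequality, `k₀` not in the range -/
private theorem sc2 {s r d ε τ C : ℝ} (q : ℕ) (hs : 0 < s) (hr : 0 < r) (hrs : r * r = s)
    (hrC : r ≤ C) (hd : 0 ≤ d) (hε : 0 < ε) (hε1 : ε ≤ 1) (hτ : 0 ≤ τ) :
    r⁻¹ ^ (q + 1) * (ε ^ 2 * s ^ 2 + d * s + d * (2 * ε ^ 2 * s + τ)) ≤
      (3 * C + 1) * (r⁻¹ ^ q * (d + ε * s + τ * d / r)) := by
  have h1 : r⁻¹ ^ (q + 1) * (ε ^ 2 * s ^ 2 + d * s + d * (2 * ε ^ 2 * s + τ)) =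
      r⁻¹ ^ q * (ε ^ 2 * s * r + d * r + 2 * d * ε ^ 2 * r + τ * d / r) := by
    rw [← hrs, pow_succ]
    field_simp
    ring
  rw [h1, show (3 * C + 1) * (r⁻¹ ^ q * (d + ε * s + τ * d / r)) =
    r⁻¹ ^ q * ((3 * C + 1) * (d + ε * s + τ * d / r)) by ring]
  refine mul_le_mul_of_nonneg_left ?_ (by positivity)
  have hC : 0 < C := lt_of_lt_of_le hr hrC
  have h3 : 0 ≤ τ * d / r := by positivity
  have e2 : ε ^ 2 ≤ ε := by nlinarith
  have a1 : ε ^ 2 * s * r ≤ ε * s * C := by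
    have : ε ^ 2 * s ≤ ε * s := mul_le_mul_of_nonneg_right e2 hs.le
    exact mul_le_mul this hrC hr.le (by positivity)
  have a2 : d * r ≤ d * C := mul_le_mul_of_nonneg_left hrC hd
  have a3 : 2 * d * ε ^ 2 * r ≤ 2 * d * C := by
    have : 2 * d * ε ^ 2 ≤ 2 * d := by nlinarith
    exact mul_le_mul this hrC hr.le (by positivity)
  have a4 : 0 ≤ ε * s := by positivity
  nlinarith [mul_nonneg hC.le a4, mul_nonneg hC.le h3, mul_nonneg hC.le hd]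

/-- the product of the gauges of the frame vectors, `k₀` in the range -/
private theorem gau_prod1 {δ : Ec n → ℝ} {h : Ec n → Ec n → Fin n → ℂ} {ζ : Ec n} {k₀ : Fin n}
    {C₁ : ℝ} (hδ : 0 < δ ζ) (hC₁ : 0 < C₁)
    (h1 : ∀ l, l ≠ k₀ → gau δ h ζ (pp (h ζ ζ) k₀ l) ≤ C₁ / Real.sqrt (δ ζ))
    (h2 : gau δ h ζ (pp (h ζ ζ) k₀ k₀) ≤ C₁ / δ ζ) {q : ℕ} (L : Fin (q + 1) → Fin n)
    (hL : Function.Injective L) (hk : k₀ ∈ Set.range L) :
    ∏ j, gau δ h ζ (pp (h ζ ζ) k₀ (L j)) ≤ C₁ ^ (q + 1) *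
      ((δ ζ)⁻¹ * (Real.sqrt (δ ζ))⁻¹ ^ q) := by
  have hr : 0 < Real.sqrt (δ ζ) := Real.sqrt_pos.mpr hδ
  obtain ⟨j₀, hj₀⟩ := hk
  rw [← Finset.mul_prod_erase Finset.univ _ (Finset.mem_univ j₀), hj₀]
  have h3 : ∏ j ∈ Finset.univ.erase j₀, gau δ h ζ (pp (h ζ ζ) k₀ (L j)) ≤
      ∏ _j ∈ Finset.univ.erase j₀, C₁ / Real.sqrt (δ ζ) := by
    refine Finset.prod_le_prod (fun j _ => gau_nonneg hδ _) fun j hj => h1 _ ?_
    intro h4
    exact Finset.ne_of_mem_erase hj (hL (by rw [h4, hj₀]))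
  rw [Finset.prod_const, Finset.card_erase_of_mem (Finset.mem_univ _), Finset.card_univ,
    Fintype.card_fin, Nat.add_sub_cancel] at h3
  refine le_trans (mul_le_mul h2 h3 (Finset.prod_nonneg fun j _ => gau_nonneg hδ _) (by positivity)) ?_
  refine le_of_eq ?_
  rw [div_pow, pow_succ, div_eq_mul_inv, div_eq_mul_inv, inv_pow]
  ring

/-- the product of the gauges of the frame vectors, `k₀` not in the range -/
private theorem gau_prod2 {δ : Ec n → ℝ} {h : Ec n → Ec n → Fin n → ℂ} {ζ : Ec n} {k₀ : Fin n}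
    {C₁ : ℝ} (hδ : 0 < δ ζ)
    (h1 : ∀ l, l ≠ k₀ → gau δ h ζ (pp (h ζ ζ) k₀ l) ≤ C₁ / Real.sqrt (δ ζ))
    {q : ℕ} (L : Fin (q + 1) → Fin n) (hk : k₀ ∉ Set.range L) :
    ∏ j, gau δ h ζ (pp (h ζ ζ) k₀ (L j)) ≤ C₁ ^ (q + 1) * (Real.sqrt (δ ζ))⁻¹ ^ (q + 1) := by
  have h3 : ∏ j, gau δ h ζ (pp (h ζ ζ) k₀ (L j)) ≤ ∏ _j : Fin (q + 1), C₁ / Real.sqrt (δ ζ) := by
    refine Finset.prod_le_prod (fun j _ => gau_nonneg hδ _) fun j _ => h1 _ ?_
    intro h4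
    exact hk ⟨j, h4⟩
  refine le_trans h3 (le_of_eq ?_)
  rw [Finset.prod_const, Finset.card_univ, Fintype.card_fin, div_pow, inv_pow, div_eq_mul_inv]

private theorem comb {Fa nP mP ny nx m C d s e X X' : ℝ} (hFa : 0 ≤ Fa) (hnP : nP ≤ mP)
    (hmP : 0 ≤ mP) (hny : ny ≤ m * C) (hny0 : 0 ≤ ny) (hnx : nx ≤ m * d) (hnx0 : 0 ≤ nx) (hm : 1 ≤ m)
    (hC : 1 ≤ C) (hd : 0 ≤ d) (hs : 0 ≤ s) (he : 0 ≤ e) (hX0 : 0 ≤ X) (hX : X ≤ m ^ 2 * C ^ 2 * X') :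
    Fa * nP * (e * ny + nx * s + X) ≤ Fa * mP * (m ^ 2 * C ^ 2 * (e + d * s + X')) := by
  have hmC : 1 ≤ m * C := by nlinarith
  have t1 : e * ny ≤ m ^ 2 * C ^ 2 * e := by
    have h1 : e * ny ≤ e * (m * C) := mul_le_mul_of_nonneg_left hny he
    have h2 : e * (m * C) * 1 ≤ e * (m * C) * (m * C) :=
      mul_le_mul_of_nonneg_left hmC (by positivity)
    nlinarith
  have t2 : nx * s ≤ m ^ 2 * C ^ 2 * (d * s) := by
    have h1 : nx * s ≤ m * d * s := mul_le_mul_of_nonneg_right hnx hs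
    have h3 : m ≤ m ^ 2 * C ^ 2 := by
      have : m * 1 ≤ m * (m * C ^ 2) := mul_le_mul_of_nonneg_left (by nlinarith) (by linarith)
      nlinarith
    have := mul_le_mul_of_nonneg_right h3 (mul_nonneg hd hs)
    nlinarith
  refine mul_le_mul (mul_le_mul_of_nonneg_left hnP hFa) ?_ (by positivity) (by positivity)
  have : m ^ 2 * C ^ 2 * (e + d * s + X') = m ^ 2 * C ^ 2 * e + m ^ 2 * C ^ 2 * (d * s) +
      m ^ 2 * C ^ 2 * X' := by ring
  rw [this]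
  exact add_le_add (add_le_add t1 t2) hX

private theorem fin1 {dn Pg Fa P mq m2 G C₁ T Cc RHS M : ℝ} (h2 : dn ≤ Fa * (mq * P) * (m2 * T))
    (h1 : Pg ≤ C₁ * G) (hPg : 0 ≤ Pg) (hFa : 0 ≤ Fa) (hP : 0 ≤ P) (hmq : 0 ≤ mq) (hm2 : 0 ≤ m2)
    (hC₁ : 0 ≤ C₁) (hT : 0 ≤ T) (h3 : G * T ≤ Cc * RHS) (hM : M = Fa * mq * m2 * C₁ * Cc) :
    dn * Pg ≤ M * P * RHS := by
  calc dn * Pg ≤ (Fa * (mq * P) * (m2 * T)) * (C₁ * G) :=
        mul_le_mul h2 h1 hPg (by positivity)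
    _ = (Fa * mq * m2 * C₁ * P) * (G * T) := by ring
    _ ≤ (Fa * mq * m2 * C₁ * P) * (Cc * RHS) := mul_le_mul_of_nonneg_left h3 (by positivity)
    _ = _ := by rw [hM]; ring

private theorem case1 (n : ℕ) {c C : ℝ} (hc : 0 < c) (hC : 1 ≤ C) (q : ℕ) :
    ∃ C' : ℝ, 0 < C' ∧ ∀ (U : Set (Ec n))
    (δ : Ec n → ℝ) (h : Ec n → Ec n → Fin n → ℂ), Geo U δ h c C → ∀ ε : ℝ, 0 < ε → ε ≤ 1 →
    ∀ τ ∈ Icc (0 : ℝ) 1, ∀ z ∈ Om U δ, ∀ ζ ∈ Om U δ, δ ζ < c →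
    ∀ (a : (Fin (q + 1) → Fin n) → V) (Nn : ℝ),
    0 ≤ Nn → (∀ X : Fin (q + 1) → Ec n, ‖∑ I : Fin (q + 1) → Fin n,
      (∏ i, (starRingEnd ℂ) (X i (I i))) • a I‖ ≤ Nn * ∏ i, gau δ h ζ (X i)) →
    ∀ Y : Fin q → Ec n, ‖∑ I : Fin (q + 1) → Fin n, Ker δ h ε I Y τ z ζ • a I‖ ≤
      C' * Nn * (∏ i, ‖Y i‖) * ((Real.sqrt (δ ζ))⁻¹) ^ q * ‖F0 δ h ε τ z ζ‖ *
        (‖ζ - z‖ + ε * δ ζ + τ * ‖ζ - z‖ / Real.sqrt (δ ζ)) := by
  obtain ⟨C₁, hC₁, hpg⟩ := pp_gau n c C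
  have hC0 : 0 < C := by linarith
  obtain ⟨m, hm⟩ : ∃ m : ℝ, m = 1 + C / c := ⟨_, rfl⟩
  have hm1 : 1 ≤ m := by rw [hm]; have : 0 ≤ C / c := by positivity
                         linarith
  have hm0 : 0 < m := by linarith
  obtain ⟨K, hK⟩ : ∃ K : ℝ, K = m * (1 + C) * m + (2 * C + 1) * C := ⟨_, rfl⟩
  have hKa : m * (1 + C) * m ≤ K := by rw [hK]; have : 0 ≤ (2 * C + 1) * C := by positivity
                                       linarith
  have hKb : (2 * C + 1) * C ≤ K := by rw [hK]; have : 0 ≤ m * (1 + C) * m := by positivity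
                                       linarith
  have hK1 : 1 ≤ K := by nlinarith
  have hK0 : 0 < K := by linarith
  obtain ⟨Fa, hFa⟩ : ∃ Fa : ℝ, Fa = ((n + (q + 1) + 1).factorial : ℝ) * K ^ n := ⟨_, rfl⟩
  have hFa0 : 0 < Fa := by rw [hFa]; positivity
  obtain ⟨M, hM⟩ : ∃ M : ℝ, M = Fa * m ^ q * (m ^ 2 * C ^ 2) * C₁ ^ (q + 1) * (3 * C + 1) := ⟨_, rfl⟩
  have hM0 : 0 < M := by rw [hM]; positivity
  refine ⟨(n : ℝ) ^ (q + 1) * M + 1, by positivity, ?_⟩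
  intro U δ h hg ε hε hε1 τ hτ z hz ζ hζ hsc a Nn hNn ha Y
  have hs : 0 < δ ζ := hζ.2
  obtain ⟨s, hs'⟩ : ∃ s : ℝ, s = δ ζ := ⟨_, rfl⟩
  obtain ⟨r, hr'⟩ : ∃ r : ℝ, r = Real.sqrt (δ ζ) := ⟨_, rfl⟩
  obtain ⟨d, hd'⟩ : ∃ d : ℝ, d = ‖ζ - z‖ := ⟨_, rfl⟩
  have hr : 0 < r := by rw [hr']; exact Real.sqrt_pos.mpr hs
  have hrs : r * r = s := by rw [hr', hs']; exact Real.mul_self_sqrt hs.le
  have hsC : s ≤ C := by rw [hs']; exact hg.bδ ζ hζ.1
  have hrC : r ≤ C := by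
    by_contra hcon
    push Not at hcon
    nlinarith
  have hd : 0 ≤ d := by rw [hd']; exact norm_nonneg _
  have hs0 : 0 < s := by rw [hs']; exact hs
  -- the frame
  have hgn : c ≤ ‖h ζ ζ‖ := hg.nd ζ hζ.1 hs hsc
  have hgC : ‖h ζ ζ‖ ≤ C := hg.bh ζ hζ.1 ζ hζ.1
  obtain ⟨k₀, hk₀⟩ : ∃ k₀ : Fin n, c ≤ ‖h ζ ζ k₀‖ := by
    by_contra hcon
    push Not at hcon
    have : ‖h ζ ζ‖ < c := (pi_norm_lt_iff hc).mpr hcon
    linarith
  have hg0 : h ζ ζ k₀ ≠ 0 := fun h0 => by rw [h0, norm_zero] at hk₀; linarith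
  obtain ⟨hp1, hp2⟩ := hpg U δ h hg ζ hζ k₀ hk₀
  have hfr := frame (q := q + 1) (h ζ ζ) k₀ hg0 (Dm h τ z ζ) (D0m δ ε τ ζ) (Dm_lin h τ z ζ)
    (D0m_lin δ ε τ ζ) (wk h 0 z ζ) (w0 δ ε 0 ζ : ℂ) (ym h τ z ζ Y) (y0m δ ε ζ q) a
  have hsum : ∑ I : Fin (q + 1) → Fin n, Ker δ h ε I Y τ z ζ • a I = F0 δ h ε τ z ζ •
      ∑ I : Fin (q + 1) → Fin n, Matrix.det (cn (sn (Fin.append (wk h 0 z ζ)
        (0 : Fin (q + 1) → ℂ)) (w0 δ ε 0 ζ : ℂ) : Fin (n + (q + 1) + 1) → ℂ)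
      (Fin.append (fun l => (sn (Fin.append (Dm h τ z ζ (ee l))
          (fun j => (starRingEnd ℂ) ((ee l : Ec n) (I j)))) (D0m δ ε τ ζ (ee l)) :
            Fin (n + (q + 1) + 1) → ℂ))
        (fun i => (sn (Fin.append (ym h τ z ζ Y i) (0 : Fin (q + 1) → ℂ)) (y0m δ ε ζ q i) :
          Fin (n + (q + 1) + 1) → ℂ)))) • a I := by
    rw [Finset.smul_sum]
    refine Finset.sum_congr rfl fun I _ => ?_
    rw [Ker_form, smul_smul]
  rw [hsum, hfr, norm_smul]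
  clear hsum hfr
  -- the bound of the determinants
  obtain ⟨dL, hdL⟩ : ∃ dL : (Fin (q + 1) → Fin n) → ℂ, ∀ L, Matrix.det
      (cn (sn (Fin.append (tc (h ζ ζ) k₀ (wk h 0 z ζ)) (0 : Fin (q + 1) → ℂ))
        (w0 δ ε 0 ζ : ℂ) : Fin (n + (q + 1) + 1) → ℂ)
      (Fin.append (fun l => (sn (Fin.append (tc (h ζ ζ) k₀ (Dm h τ z ζ (pp (h ζ ζ) k₀ l)))
          (fun j => if L j = l then (1 : ℂ) else 0)) (D0m δ ε τ ζ (pp (h ζ ζ) k₀ l)) :
            Fin (n + (q + 1) + 1) → ℂ))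
        (fun i => (sn (Fin.append (tc (h ζ ζ) k₀ (ym h τ z ζ Y i)) (0 : Fin (q + 1) → ℂ))
          (y0m δ ε ζ q i) : Fin (n + (q + 1) + 1) → ℂ)))) = dL L := ⟨_, fun _ => rfl⟩
  simp_rw [hdL]
  have hP0 : 0 ≤ ∏ i, ‖Y i‖ := Finset.prod_nonneg fun i _ => norm_nonneg _
  obtain ⟨P, hP⟩ : ∃ P : ℝ, P = ∏ i, ‖Y i‖ := ⟨_, rfl⟩
  have hτn : ‖((1 : ℂ) - τ)‖ ≤ 1 := by
    have : ((1 : ℂ) - τ) = ((1 - τ : ℝ) : ℂ) := by push_cast; ring
    rw [this, Complex.norm_real, Real.norm_eq_abs, abs_of_nonneg (by linarith [hτ.2])]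
    linarith [hτ.1]
  have hE0k : ‖D0m δ ε τ ζ (pp (h ζ ζ) k₀ k₀)‖ ≤ (2 * ε ^ 2 * s + τ) * C := by
    refine le_trans (D0m_le hg hζ τ hτ _) ?_
    rw [pp_self, sum_ee, ← hs']
    refine mul_le_mul_of_nonneg_left (le_trans (norm_le_pi_norm _ k₀) hgC) ?_
    have := hτ.1
    positivity
  have hfb0 : ∀ L : Fin (q + 1) → Fin n, ‖dL L‖ ≤
      Fa * (∏ i ∈ Finset.univ.erase (Fin.last q), ‖tc (h ζ ζ) k₀ (ym h τ z ζ Y i)‖) *
      (‖(w0 δ ε 0 ζ : ℂ)‖ * ‖tc (h ζ ζ) k₀ (ym h τ z ζ Y (Fin.last q))‖ +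
          ‖tc (h ζ ζ) k₀ (wk h 0 z ζ)‖ * ‖y0m δ ε ζ q (Fin.last q)‖ +
        if k₀ ∈ range L then 0
        else
          ‖tc (h ζ ζ) k₀ (wk h 0 z ζ)‖ * ‖D0m δ ε τ ζ (pp (h ζ ζ) k₀ k₀)‖ *
            ‖tc (h ζ ζ) k₀ (ym h τ z ζ Y (Fin.last q))‖) := by
    intro L
    have hfb := frame_bound (q := q + 1) k₀ (tc (h ζ ζ) k₀ (wk h 0 z ζ)) (w0 δ ε 0 ζ : ℂ)
      (fun l => tc (h ζ ζ) k₀ (Dm h τ z ζ (pp (h ζ ζ) k₀ l)))
      (fun l => D0m δ ε τ ζ (pp (h ζ ζ) k₀ l))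
      (fun i => tc (h ζ ζ) k₀ (ym h τ z ζ Y i)) (y0m δ ε ζ q) (Fin.last q) L K hK1
      (fun l => by
        refine le_trans (tc_norm n hc hC0.le hk₀ hgC _) (le_trans ?_ hKa)
        rw [← hm, mul_assoc]
        refine mul_le_mul_of_nonneg_left ?_ hm0.le
        refine le_trans (rζ_norm hg hz.1 hζ.1 hτ _) ?_
        refine mul_le_mul_of_nonneg_left ?_ (by positivity)
        rw [hm]
        exact pp_norm n hc hC0.le hk₀ hgC l)
      (fun l hl => by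
        show D0m δ ε τ ζ (pp (h ζ ζ) k₀ l) = 0
        unfold D0m
        rw [db_δ hg hζ.1, pp_tan hg0 hl]
        simp)
      (by
        refine le_trans hE0k (le_trans ?_ hKb)
        refine mul_le_mul_of_nonneg_right ?_ hC0.le
        have : ε ^ 2 * s ≤ 1 * C := mul_le_mul (by nlinarith) hsC hs0.le zero_le_one
        nlinarith [hτ.2])
      (fun i hi => by
        revert hi
        refine Fin.lastCases (fun hi => absurd rfl hi) (fun i _ => ?_) i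
        unfold y0m
        rw [snc])
    beta_reduce at hfb
    rw [← hFa, hdL] at hfb
    exact hfb
  have hprod : ∏ i ∈ Finset.univ.erase (Fin.last q), ‖tc (h ζ ζ) k₀ (ym h τ z ζ Y i)‖ ≤
      m ^ q * P := by
    rw [prod_erase_last (fun i => ‖tc (h ζ ζ) k₀ (ym h τ z ζ Y i)‖), hP]
    calc ∏ i : Fin q, ‖tc (h ζ ζ) k₀ (ym h τ z ζ Y (Fin.castSucc i))‖ ≤ ∏ i : Fin q, m * ‖Y i‖ := by
          refine Finset.prod_le_prod (fun i _ => norm_nonneg _) fun i _ => ?_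
          refine le_trans (tc_norm n hc hC0.le hk₀ hgC _) ?_
          rw [← hm]
          refine mul_le_mul_of_nonneg_left ?_ hm0.le
          unfold ym
          rw [snc]
          refine (pi_norm_le_iff_of_nonneg (norm_nonneg _)).mpr fun k => ?_
          rw [norm_mul, norm_neg, RCLike.norm_conj]
          calc ‖(1 : ℂ) - τ‖ * ‖Y i k‖ ≤ 1 * ‖Y i‖ :=
                mul_le_mul hτn (co_le _ k) (norm_nonneg _) zero_le_one
            _ = ‖Y i‖ := one_mul _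
      _ = m ^ q * ∏ i, ‖Y i‖ := by
          rw [Finset.prod_mul_distrib, Finset.prod_const, Finset.card_univ, Fintype.card_fin]
  have hx0 : ‖(w0 δ ε 0 ζ : ℂ)‖ = ε ^ 2 * s ^ 2 := by
    have : w0 δ ε 0 ζ = ε ^ 2 * s ^ 2 := by unfold w0; rw [hs']; ring
    rw [this, Complex.norm_real, Real.norm_eq_abs, abs_of_nonneg (by positivity)]
  have hy0 : ‖y0m δ ε ζ q (Fin.last q)‖ = s := by
    unfold y0m
    rw [snl]
    have : w0 δ ε 1 ζ = s := by unfold w0; rw [hs']; ring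
    rw [this, Complex.norm_real, Real.norm_eq_abs, abs_of_nonneg hs0.le]
  have hyl : ‖tc (h ζ ζ) k₀ (ym h τ z ζ Y (Fin.last q))‖ ≤ m * C := by
    refine le_trans (tc_norm n hc hC0.le hk₀ hgC _) ?_
    rw [← hm]
    refine mul_le_mul_of_nonneg_left ?_ hm0.le
    unfold ym
    rw [snl, wk1_eq]
    exact hg.bh z hz.1 ζ hζ.1
  have hxn : ‖tc (h ζ ζ) k₀ (wk h 0 z ζ)‖ ≤ m * d := by
    refine le_trans (tc_norm n hc hC0.le hk₀ hgC _) ?_
    rw [← hm, hd']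
    exact mul_le_mul_of_nonneg_left (wk0_le h z ζ) hm0.le
  rw [hx0, hy0] at hfb0
  have hPn : 0 ≤ P := by rw [hP]; exact hP0
  have hmP0 : 0 ≤ m ^ q * P := mul_nonneg (pow_nonneg hm0.le _) hPn
  have e0 : 0 ≤ 2 * ε ^ 2 * s + τ := by have := hτ.1; positivity
  have hdet1 : ∀ L : Fin (q + 1) → Fin n, k₀ ∈ range L → ‖dL L‖ ≤ Fa * (m ^ q * P) *
      (m ^ 2 * C ^ 2 * (ε ^ 2 * s ^ 2 + d * s + 0)) := by
    intro L hk
    have := hfb0 L
    rw [if_pos hk] at this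
    refine le_trans this ?_
    exact comb hFa0.le hprod hmP0 hyl (norm_nonneg _) hxn (norm_nonneg _) hm1 hC hd hs0.le
      (by positivity) le_rfl (by simp)
  have hdet2 : ∀ L : Fin (q + 1) → Fin n, k₀ ∉ range L → ‖dL L‖ ≤ Fa * (m ^ q * P) *
      (m ^ 2 * C ^ 2 * (ε ^ 2 * s ^ 2 + d * s + d * (2 * ε ^ 2 * s + τ))) := by
    intro L hk
    have := hfb0 L
    rw [if_neg hk] at this
    refine le_trans this ?_
    refine comb hFa0.le hprod hmP0 hyl (norm_nonneg _) hxn (norm_nonneg _) hm1 hC hd hs0.le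
      (by positivity) (by positivity) ?_
    calc ‖tc (h ζ ζ) k₀ (wk h 0 z ζ)‖ *
        ‖D0m δ ε τ ζ (pp (h ζ ζ) k₀ k₀)‖ * ‖tc (h ζ ζ) k₀ (ym h τ z ζ Y (Fin.last q))‖ ≤
        (m * d) * ((2 * ε ^ 2 * s + τ) * C) * (m * C) := by
          refine mul_le_mul (mul_le_mul hxn hE0k (norm_nonneg _) (by positivity)) hyl
            (norm_nonneg _) (by positivity)
      _ = m ^ 2 * C ^ 2 * (d * (2 * ε ^ 2 * s + τ)) := by ring
  clear hfb0
  -- each term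
  have hτ0 := hτ.1
  have hterm : ∀ L : Fin (q + 1) → Fin n,
      ‖dL L‖ * ∏ j, gau δ h ζ (pp (h ζ ζ) k₀ (L j)) ≤
        M * P * (r⁻¹ ^ q * (d + ε * s + τ * d / r)) := by
    intro L
    have hpg0 : 0 ≤ ∏ j, gau δ h ζ (pp (h ζ ζ) k₀ (L j)) :=
      Finset.prod_nonneg fun j _ => gau_nonneg hs _
    by_cases hk : k₀ ∈ range L
    · by_cases hL : Function.Injective L
      · have h1 := gau_prod1 hs hC₁ hp1 hp2 L hL hk
        rw [← hr', ← hs'] at h1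
        have h3 : s⁻¹ * r⁻¹ ^ q * (ε ^ 2 * s ^ 2 + d * s + 0) ≤
            (3 * C + 1) * (r⁻¹ ^ q * (d + ε * s + τ * d / r)) := by
          have := sc1 (τ := τ) q hs0 hr hd hε hε1 hτ0
          have h4 : 0 ≤ r⁻¹ ^ q * (d + ε * s + τ * d / r) := by positivity
          rw [add_zero]
          have h5 : 1 * (r⁻¹ ^ q * (d + ε * s + τ * d / r)) ≤
              (3 * C + 1) * (r⁻¹ ^ q * (d + ε * s + τ * d / r)) :=
            mul_le_mul_of_nonneg_right (by linarith) h4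
          linarith
        exact fin1 (hdet1 L hk) h1 hpg0 hFa0.le hPn (by positivity) (by positivity) (by positivity)
          (by positivity) h3 hM
      · have h0 : dL L = 0 := by
          rw [← hdL]
          exact det_noninj _ _ _ _ _ _ L hL
        rw [h0, norm_zero, zero_mul]
        positivity
    · have h1 := gau_prod2 hs hp1 L hk
      rw [← hr'] at h1
      exact fin1 (hdet2 L hk) h1 hpg0 hFa0.le hPn (by positivity) (by positivity) (by positivity)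
        (by positivity) (sc2 q hs0 hr hrs hrC hd hε hε1 hτ0) hM
  have hfin : ‖∑ L : Fin (q + 1) → Fin n, dL L •
      ∑ I : Fin (q + 1) → Fin n, (∏ j, (starRingEnd ℂ) ((pp (h ζ ζ) k₀ (L j)) (I j))) • a I‖ ≤
      (n : ℝ) ^ (q + 1) * M * Nn * P * (r⁻¹ ^ q * (d + ε * s + τ * d / r)) := by
    refine le_trans (norm_sum_le _ _) ?_
    calc ∑ L : Fin (q + 1) → Fin n, ‖dL L •
        ∑ I : Fin (q + 1) → Fin n, (∏ j, (starRingEnd ℂ) ((pp (h ζ ζ) k₀ (L j)) (I j))) • a I‖ ≤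
        ∑ _L : Fin (q + 1) → Fin n, Nn * (M * P * (r⁻¹ ^ q * (d + ε * s + τ * d / r))) := by
          refine Finset.sum_le_sum fun L _ => ?_
          rw [norm_smul]
          have h1 := mul_le_mul_of_nonneg_left (ha (fun j => pp (h ζ ζ) k₀ (L j))) (norm_nonneg (dL L))
          refine le_trans h1 ?_
          have h2 := mul_le_mul_of_nonneg_left (hterm L) hNn
          refine le_trans (le_of_eq ?_) h2
          ring
      _ = _ := by
          rw [Finset.sum_const, Finset.card_univ, Fintype.card_fun, Fintype.card_fin, Fintype.card_fin,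
            nsmul_eq_mul]
          push_cast
          ring
  have hF0 : 0 ≤ ‖F0 δ h ε τ z ζ‖ := norm_nonneg _
  refine le_trans (mul_le_mul_of_nonneg_left hfin hF0) ?_
  rw [← hr', ← hs', ← hd', ← hP]
  have hpos : 0 ≤ Nn * P * r⁻¹ ^ q * ‖F0 δ h ε τ z ζ‖ * (d + ε * s + τ * d / r) := by positivity
  have : (↑n ^ (q + 1) * M + 1) * Nn * P * r⁻¹ ^ q * ‖F0 δ h ε τ z ζ‖ * (d + ε * s + τ * d / r) =
      ‖F0 δ h ε τ z ζ‖ * (↑n ^ (q + 1) * M * Nn * P * (r⁻¹ ^ q * (d + ε * s + τ * d / r))) +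
      Nn * P * r⁻¹ ^ q * ‖F0 δ h ε τ z ζ‖ * (d + ε * s + τ * d / r) := by ring
  rw [this]
  linarith

private theorem rowsn_le {N : ℕ} {f : Fin N → ℂ} {a : ℂ} {B : ℝ} (hB : 0 ≤ B)
    (hf : ∀ i, ‖f i‖ ≤ B) (ha : ‖a‖ ≤ B) : ‖(sn f a : Fin (N + 1) → ℂ)‖ ≤ B := by
  refine (pi_norm_le_iff_of_nonneg hB).mpr fun i => ?_
  refine Fin.lastCases ?_ (fun i => ?_) i
  · rw [snl]; exact ha
  · rw [snc]; exact hf i

private theorem app_le {q : ℕ} {f : Fin n → ℂ} {g : Fin q → ℂ} {B : ℝ}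
    (hf : ∀ i, ‖f i‖ ≤ B) (hg : ∀ j, ‖g j‖ ≤ B) : ∀ i, ‖(Fin.append f g : Fin (n + q) → ℂ) i‖ ≤ B := by
  intro i
  refine Fin.addCases (fun k => ?_) (fun j => ?_) i
  · rw [Fin.append_left]; exact hf k
  · rw [Fin.append_right]; exact hg j

private theorem case2 (n : ℕ) {c C : ℝ} (hc : 0 < c) (hC : 1 ≤ C) (q : ℕ) :
    ∃ C' : ℝ, 0 < C' ∧ ∀ (U : Set (Ec n))
    (δ : Ec n → ℝ) (h : Ec n → Ec n → Fin n → ℂ), Geo U δ h c C → ∀ ε : ℝ, 0 < ε → ε ≤ 1 →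
    ∀ τ ∈ Icc (0 : ℝ) 1, ∀ z ∈ Om U δ, ∀ ζ ∈ Om U δ, c ≤ δ ζ →
    ∀ (a : (Fin (q + 1) → Fin n) → V) (Nn : ℝ),
    0 ≤ Nn → (∀ X : Fin (q + 1) → Ec n, ‖∑ I : Fin (q + 1) → Fin n,
      (∏ i, (starRingEnd ℂ) (X i (I i))) • a I‖ ≤ Nn * ∏ i, gau δ h ζ (X i)) →
    ∀ Y : Fin q → Ec n, ‖∑ I : Fin (q + 1) → Fin n, Ker δ h ε I Y τ z ζ • a I‖ ≤
      C' * Nn * (∏ i, ‖Y i‖) * ((Real.sqrt (δ ζ))⁻¹) ^ q * ‖F0 δ h ε τ z ζ‖ *
        (‖ζ - z‖ + ε * δ ζ + τ * ‖ζ - z‖ / Real.sqrt (δ ζ)) := by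
  obtain ⟨C₂, hC₂, hgl⟩ := gau_le n c C
  have hC0 : 0 < C := by linarith
  obtain ⟨K, hK⟩ : ∃ K : ℝ, K = (1 + C) + 1 + (2 * C + 1) * C := ⟨_, rfl⟩
  have hK0 : 0 < K := by rw [hK]; positivity
  have hKa : 1 + C ≤ K := by rw [hK]; have : 0 ≤ (2 * C + 1) * C := by positivity
                             linarith
  have hKb : (2 * C + 1) * C ≤ K := by rw [hK]; linarith
  have hK1 : 1 ≤ K := by linarith
  obtain ⟨Fa, hFa⟩ : ∃ Fa : ℝ, Fa = ((n + (q + 1) + 1).factorial : ℝ) := ⟨_, rfl⟩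
  have hFa0 : 0 < Fa := by rw [hFa]; positivity
  obtain ⟨M, hM⟩ : ∃ M : ℝ, M = Fa * K ^ n * C * (C₂ / c) ^ (q + 1) * C * C ^ q := ⟨_, rfl⟩
  have hM0 : 0 < M := by rw [hM]; positivity
  refine ⟨(n : ℝ) ^ (q + 1) * M + 1, by positivity, ?_⟩
  intro U δ h hg ε hε hε1 τ hτ z hz ζ hζ hsc a Nn hNn ha Y
  have hs : 0 < δ ζ := hζ.2
  obtain ⟨s, hs'⟩ : ∃ s : ℝ, s = δ ζ := ⟨_, rfl⟩
  obtain ⟨r, hr'⟩ : ∃ r : ℝ, r = Real.sqrt (δ ζ) := ⟨_, rfl⟩
  obtain ⟨d, hd'⟩ : ∃ d : ℝ, d = ‖ζ - z‖ := ⟨_, rfl⟩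
  have hr : 0 < r := by rw [hr']; exact Real.sqrt_pos.mpr hs
  have hrs : r * r = s := by rw [hr', hs']; exact Real.mul_self_sqrt hs.le
  have hsC : s ≤ C := by rw [hs']; exact hg.bδ ζ hζ.1
  have hrC : r ≤ C := by
    by_contra hcon
    push Not at hcon
    nlinarith
  have hd : 0 ≤ d := by rw [hd']; exact norm_nonneg _
  have hs0 : 0 < s := by rw [hs']; exact hs
  have hτ0 := hτ.1
  have hgC : ‖h ζ ζ‖ ≤ C := hg.bh ζ hζ.1 ζ hζ.1
  have hP0 : 0 ≤ ∏ i, ‖Y i‖ := Finset.prod_nonneg fun i _ => norm_nonneg _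
  obtain ⟨P, hP⟩ : ∃ P : ℝ, P = ∏ i, ‖Y i‖ := ⟨_, rfl⟩
  have hPn : 0 ≤ P := by rw [hP]; exact hP0
  have hτn : ‖((1 : ℂ) - τ)‖ ≤ 1 := by
    have : ((1 : ℂ) - τ) = ((1 - τ : ℝ) : ℂ) := by push_cast; ring
    rw [this, Complex.norm_real, Real.norm_eq_abs, abs_of_nonneg (by linarith [hτ.2])]
    linarith [hτ.1]
  -- the components of `a`
  have haI : ∀ I, ‖a I‖ ≤ Nn * (C₂ / c) ^ (q + 1) := by
    intro I
    have h1 := ha (fun i => ee (I i))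
    have h2 : ∑ J : Fin (q + 1) → Fin n, (∏ i, (starRingEnd ℂ) ((ee (I i) : Ec n) (J i))) • a J =
        a I := by
      rw [Finset.sum_eq_single I]
      · have : ∏ i, (starRingEnd ℂ) ((ee (I i) : Ec n) (I i)) = 1 :=
          Finset.prod_eq_one fun i _ => by rw [eco, if_pos rfl]
        rw [this, one_smul]
      · intro J _ hJ
        obtain ⟨i, hi⟩ := Function.ne_iff.mp hJ
        have : ∏ i, (starRingEnd ℂ) ((ee (I i) : Ec n) (J i)) = 0 :=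
          Finset.prod_eq_zero (Finset.mem_univ i) (by rw [eco, if_neg hi])
        rw [this, zero_smul]
      · intro h; exact absurd (Finset.mem_univ _) h
    rw [h2] at h1
    refine le_trans h1 (mul_le_mul_of_nonneg_left ?_ hNn)
    calc ∏ i, gau δ h ζ (ee (I i)) ≤ ∏ _i : Fin (q + 1), C₂ / c := by
          refine Finset.prod_le_prod (fun i _ => gau_nonneg hs _) fun i _ => ?_
          refine le_trans (hgl U δ h hg ζ hζ _) ?_
          rw [eno, mul_one]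
          exact div_le_div_of_nonneg_left hC₂.le hc hsc
      _ = (C₂ / c) ^ (q + 1) := by rw [Finset.prod_const, Finset.card_univ, Fintype.card_fin]
  -- the determinants
  have hdet : ∀ I : Fin (q + 1) → Fin n, ‖Ker δ h ε I Y τ z ζ‖ ≤ ‖F0 δ h ε τ z ζ‖ *
      (Fa * ((d + ε ^ 2 * s ^ 2) * (K ^ n * (P * C)))) := by
    intro I
    rw [Ker_form, norm_mul]
    refine mul_le_mul_of_nonneg_left ?_ (norm_nonneg _)
    refine le_trans (det_cn_le _ _) ?_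
    rw [← hFa]
    refine mul_le_mul_of_nonneg_left ?_ hFa0.le
    have hes : 0 ≤ ε ^ 2 * s ^ 2 := by positivity
    refine mul_le_mul ?_ ?_ (Finset.prod_nonneg fun i _ => norm_nonneg _) (by positivity)
    · refine rowsn_le (by positivity) (app_le ?_ ?_) ?_
      · intro k
        refine le_trans (norm_le_pi_norm _ k) (le_trans (wk0_le h z ζ) ?_)
        rw [← hd']; linarith
      · intro j
        rw [Pi.zero_apply, norm_zero]; positivity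
      · have : w0 δ ε 0 ζ = ε ^ 2 * s ^ 2 := by unfold w0; rw [hs']; ring
        rw [this, Complex.norm_real, Real.norm_eq_abs, abs_of_nonneg (by positivity)]
        linarith
    · rw [Fin.prod_univ_add]
      refine mul_le_mul ?_ ?_ (Finset.prod_nonneg fun i _ => norm_nonneg _) (by positivity)
      · calc _ ≤ ∏ _l : Fin n, K := by
              refine Finset.prod_le_prod (fun i _ => norm_nonneg _) fun l _ => ?_
              rw [Fin.append_left]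
              refine rowsn_le hK0.le (app_le ?_ ?_) ?_
              · intro k
                refine le_trans (norm_le_pi_norm _ k) (le_trans (rζ_norm hg hz.1 hζ.1 hτ _) ?_)
                rw [eno, mul_one]
                exact hKa
              · intro j
                rw [eco]
                split_ifs
                · rw [norm_one]; exact hK1
                · rw [norm_zero]; exact hK0.le
              · refine le_trans (D0m_le hg hζ τ hτ _) (le_trans ?_ hKb)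
                rw [sum_ee, ← hs']
                have e1 : ε ^ 2 * s ≤ 1 * C := mul_le_mul (by nlinarith) hsC hs0.le zero_le_one
                exact mul_le_mul (by linarith [hτ.2]) (le_trans (norm_le_pi_norm _ l) hgC)
                  (norm_nonneg _) (by positivity)
          _ = K ^ n := by rw [Finset.prod_const, Finset.card_univ, Fintype.card_fin]
      · rw [Fin.prod_univ_castSucc]
        refine mul_le_mul ?_ ?_ (norm_nonneg _) hPn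
        · rw [hP]
          refine Finset.prod_le_prod (fun i _ => norm_nonneg _) fun i _ => ?_
          rw [Fin.append_right]
          refine rowsn_le (norm_nonneg _) (app_le ?_ ?_) ?_
          · intro k
            unfold ym
            rw [snc, norm_mul, norm_neg, RCLike.norm_conj]
            calc ‖(1 : ℂ) - τ‖ * ‖Y i k‖ ≤ 1 * ‖Y i‖ :=
                  mul_le_mul hτn (co_le _ k) (norm_nonneg _) zero_le_one
              _ = ‖Y i‖ := one_mul _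
          · intro j
            rw [Pi.zero_apply, norm_zero]; exact norm_nonneg _
          · unfold y0m
            rw [snc, norm_zero]; exact norm_nonneg _
        · rw [Fin.append_right]
          refine rowsn_le hC0.le (app_le ?_ ?_) ?_
          · intro k
            unfold ym
            rw [snl, wk1_eq]
            exact le_trans (norm_le_pi_norm _ k) (hg.bh z hz.1 ζ hζ.1)
          · intro j
            rw [Pi.zero_apply, norm_zero]; exact hC0.le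
          · unfold y0m
            rw [snl]
            have : w0 δ ε 1 ζ = s := by unfold w0; rw [hs']; ring
            rw [this, Complex.norm_real, Real.norm_eq_abs, abs_of_nonneg hs0.le]
            exact hsC
  have hF0 : 0 ≤ ‖F0 δ h ε τ z ζ‖ := norm_nonneg _
  have hX0 : 0 ≤ d + ε * s + τ * d / r := by positivity
  have hscal : d + ε ^ 2 * s ^ 2 ≤ C * C ^ q * (r⁻¹ ^ q * (d + ε * s + τ * d / r)) := by
    have h1 : (1 : ℝ) ≤ C ^ q * r⁻¹ ^ q := by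
      rw [← mul_pow]
      refine one_le_pow₀ ?_
      rw [← div_eq_mul_inv, one_le_div hr]
      exact hrC
    have h2 : d + ε ^ 2 * s ^ 2 ≤ C * (d + ε * s + τ * d / r) := by
      have e1 : ε ^ 2 * s ^ 2 ≤ C * (ε * s) := by
        have : (ε * s) * ε ≤ (ε * s) * 1 := mul_le_mul_of_nonneg_left hε1 (by positivity)
        have h5 : (ε * s) * ε * s ≤ (ε * s) * 1 * C := mul_le_mul this hsC hs0.le (by positivity)
        nlinarith
      have e2 : 1 * d ≤ C * d := mul_le_mul_of_nonneg_right hC hd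
      have e3 : 0 ≤ C * (τ * d / r) := by positivity
      linarith
    have h3 : 0 ≤ C * (d + ε * s + τ * d / r) := by positivity
    calc d + ε ^ 2 * s ^ 2 ≤ 1 * (C * (d + ε * s + τ * d / r)) := by rw [one_mul]; exact h2
      _ ≤ (C ^ q * r⁻¹ ^ q) * (C * (d + ε * s + τ * d / r)) := mul_le_mul_of_nonneg_right h1 h3
      _ = _ := by ring
  have hterm : ∀ I : Fin (q + 1) → Fin n, ‖Ker δ h ε I Y τ z ζ • a I‖ ≤
      M * Nn * P * (‖F0 δ h ε τ z ζ‖ * (r⁻¹ ^ q * (d + ε * s + τ * d / r))) := by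
    intro I
    rw [norm_smul]
    calc ‖Ker δ h ε I Y τ z ζ‖ * ‖a I‖ ≤ (‖F0 δ h ε τ z ζ‖ *
        (Fa * ((d + ε ^ 2 * s ^ 2) * (K ^ n * (P * C))))) * (Nn * (C₂ / c) ^ (q + 1)) :=
          mul_le_mul (hdet I) (haI I) (norm_nonneg _) (by positivity)
      _ = (‖F0 δ h ε τ z ζ‖ * Fa * K ^ n * P * C * Nn * (C₂ / c) ^ (q + 1)) * (d + ε ^ 2 * s ^ 2) := by
          ring
      _ ≤ (‖F0 δ h ε τ z ζ‖ * Fa * K ^ n * P * C * Nn * (C₂ / c) ^ (q + 1)) *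
          (C * C ^ q * (r⁻¹ ^ q * (d + ε * s + τ * d / r))) :=
          mul_le_mul_of_nonneg_left hscal (by positivity)
      _ = _ := by rw [hM]; ring
  have hfin : ‖∑ I : Fin (q + 1) → Fin n, Ker δ h ε I Y τ z ζ • a I‖ ≤
      (n : ℝ) ^ (q + 1) * (M * Nn * P * (‖F0 δ h ε τ z ζ‖ * (r⁻¹ ^ q * (d + ε * s + τ * d / r)))) := by
    refine le_trans (norm_sum_le _ _) (le_trans (Finset.sum_le_sum fun I _ => hterm I) ?_)
    rw [Finset.sum_const, Finset.card_univ, Fintype.card_fun, Fintype.card_fin, Fintype.card_fin,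
      nsmul_eq_mul]
    push_cast
    exact le_rfl
  refine le_trans hfin ?_
  rw [← hr', ← hs', ← hd', ← hP]
  have hpos : 0 ≤ Nn * P * r⁻¹ ^ q * ‖F0 δ h ε τ z ζ‖ * (d + ε * s + τ * d / r) := by positivity
  have : (↑n ^ (q + 1) * M + 1) * Nn * P * r⁻¹ ^ q * ‖F0 δ h ε τ z ζ‖ * (d + ε * s + τ * d / r) =
      ↑n ^ (q + 1) * (M * Nn * P * (‖F0 δ h ε τ z ζ‖ * (r⁻¹ ^ q * (d + ε * s + τ * d / r)))) +
      Nn * P * r⁻¹ ^ q * ‖F0 δ h ε τ z ζ‖ * (d + ε * s + τ * d / r) := by ring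
  rw [this]
  linarith

/-- The pointwise bound of the kernel.
Let `g = h(ζ, ζ)`, `d = ‖ζ - z‖`, `s = δ ζ`, `s ≤ C`.
PROOF. `Ker_pair`: the rows are `x = (conj (ζ - z), 0, ε² s²)`, the direction rows with the section part
`D X = (1 - τ) conj X + τ db h X` and the last entry `D0 X = (2 (1 - τ) ε² s + τ) db δ ζ X`, the rows
`(-(1 - τ) conj (Y i), 0, 0)` and the last row `(h(z, ζ), 0, s)` (for `τ = 1`: `wk = h`, `w0 = s`).
CASE 1, `s < c`: then `‖g‖ ≥ c` (`Geo.nd`), choose `k₀` with `|g k₀| ≥ c`. `frame` (with `q + 1` in place of `q`;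
`D`, `D0` are conjugate linear: `db_conj_lin`) turns the sum over `I` into a sum over `L`, with the
coefficient `∑ I, (∏ j, conj (pp (L j) (I j))) • a I`, bounded by `Nn ∏ j, gau (pp (L j))`, and
`frame_bound` with `K` a constant, `i₀ = last`: `‖x‖`-part `≤ C₁ d` (`tc_norm`), `x0 = ε² s²`, `y i₀ = tc h(z, ζ)`
bounded by a constant, `y0 i₀ = s`, the other `y` rows bounded by `C₁ ‖Y i‖`, `E0 l = 0` for `l ≠ k₀`
(`db_δ`, `pp_tan`), `|E0 k₀| ≤ C₁ (ε² s + τ)`. So, if `k₀ ∈ range L`: if `L` is injective then exactly one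
`L j` is `k₀` and `∏ gau (pp (L j)) ≤ C₂ s⁻¹ (√s)^(-q)` (`pp_gau`), and the determinant is at most
`C₃ ∏ ‖Y i‖ (ε² s² + d s)`: together `C₄ Nn ∏ ‖Y i‖ (√s)^(-q) (ε² s + d)`. If `L` is not injective the
determinant is `0`: two equal columns. If `k₀ ∉ range L`: `∏ gau ≤ C₂ (√s)^(-(q+1))`, the determinant is at
most `C₃ ∏ ‖Y i‖ (ε² s² + d s + d (ε² s + τ))`; and `(√s)⁻¹ (ε² s² + d s + d ε² s + d τ) ≤
C₅ (ε s + d + τ d / √s)`, as `s ≤ C`, `ε ≤ 1`.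
CASE 2, `s ≥ c`: no frame is needed: `‖a I‖ ≤ Nn ∏ gau (ee (I i)) ≤ C₂ Nn` (the hypothesis with `X i = ee (I i)`,
`gau_le`), and the determinant is at most (`det_cn_le`) a constant times `‖x row‖ ∏ ‖Y i‖ ≤ C₃ (d + ε² s²) ∏ ‖Y i‖`,
and `(√s)^q ≤ constant`. -/
theorem ker_bound (n : ℕ) (c C : ℝ) (q : ℕ) : ∃ C' : ℝ, 0 < C' ∧ ∀ (U : Set (Ec n))
    (δ : Ec n → ℝ) (h : Ec n → Ec n → Fin n → ℂ), Geo U δ h c C → ∀ ε : ℝ, 0 < ε → ε ≤ 1 →
    ∀ τ ∈ Icc (0 : ℝ) 1, ∀ z ∈ Om U δ, ∀ ζ ∈ Om U δ, ∀ (a : (Fin (q + 1) → Fin n) → V) (Nn : ℝ),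
    0 ≤ Nn → (∀ X : Fin (q + 1) → Ec n, ‖∑ I : Fin (q + 1) → Fin n,
      (∏ i, (starRingEnd ℂ) (X i (I i))) • a I‖ ≤ Nn * ∏ i, gau δ h ζ (X i)) →
    ∀ Y : Fin q → Ec n, ‖∑ I : Fin (q + 1) → Fin n, Ker δ h ε I Y τ z ζ • a I‖ ≤
      C' * Nn * (∏ i, ‖Y i‖) * ((Real.sqrt (δ ζ))⁻¹) ^ q * ‖F0 δ h ε τ z ζ‖ *
        (‖ζ - z‖ + ε * δ ζ + τ * ‖ζ - z‖ / Real.sqrt (δ ζ)) := by
  by_cases hcC : 0 < c ∧ 1 ≤ C
  swap
  · exact ⟨1, one_pos, fun U δ h hg => absurd ⟨hg.c0, hg.C1⟩ hcC⟩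
  obtain ⟨hc, hC⟩ := hcC
  obtain ⟨M₁, hM₁, h1⟩ := case1 (V := V) n hc hC q
  obtain ⟨M₂, hM₂, h2⟩ := case2 (V := V) n hc hC q
  refine ⟨M₁ + M₂, by positivity, ?_⟩
  intro U δ h hg ε hε hε1 τ hτ z hz ζ hζ a Nn hNn ha Y
  have hs : 0 < δ ζ := hζ.2
  have hτ0 := hτ.1
  have hP0 : 0 ≤ ∏ i, ‖Y i‖ := Finset.prod_nonneg fun i _ => norm_nonneg _
  have hX0 : 0 ≤ ‖ζ - z‖ + ε * δ ζ + τ * ‖ζ - z‖ / Real.sqrt (δ ζ) := by positivity
  have hR : 0 ≤ (Real.sqrt (δ ζ))⁻¹ ^ q := by positivity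
  have hF0 : 0 ≤ ‖F0 δ h ε τ z ζ‖ := norm_nonneg _
  have hall : 0 ≤ Nn * (∏ i, ‖Y i‖) * ((Real.sqrt (δ ζ))⁻¹) ^ q * ‖F0 δ h ε τ z ζ‖ *
        (‖ζ - z‖ + ε * δ ζ + τ * ‖ζ - z‖ / Real.sqrt (δ ζ)) :=
    mul_nonneg (mul_nonneg (mul_nonneg (mul_nonneg hNn hP0) hR) hF0) hX0
  rcases lt_or_ge (δ ζ) c with hlt | hge
  · refine le_trans (h1 U δ h hg ε hε hε1 τ hτ z hz ζ hζ hlt a Nn hNn ha Y) ?_
    nlinarith [mul_nonneg hM₂.le hall]
  · refine le_trans (h2 U δ h hg ε hε hε1 τ hτ z hz ζ hζ hge a Nn hNn ha Y) ?_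
    nlinarith [mul_nonneg hM₁.le hall]

end Pool.Agent.MPca0fc2.FD
end

section

/-! The denominator and the integrals over `τ`. -/

set_option autoImplicit false

open Metric Set MeasureTheory Filter Topology

namespace Pool.Agent.MPca0fc2.FD

variable {n : ℕ}

/-- PROOF. With `T = (1 - τ) (ε² δ ζ² + ‖ζ - z‖²)`: `aa = T + τ v` (`aa_eq`), `Re v ≥ 0`, so
`|aa| ≥ (|Re aa| + |Im aa|) / 2 ≥ (T + τ Re v + τ |Im v|) / 2 ≥ (T + τ ‖v‖) / 2`. -/
theorem aa_lb {U : Set (Ec n)} {δ : Ec n → ℝ} {h : Ec n → Ec n → Fin n → ℂ} {c C : ℝ}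
    (hg : Geo U δ h c C) (ε : ℝ) {τ : ℝ} (hτ : τ ∈ Icc (0 : ℝ) 1) {z ζ : Ec n} (hz : z ∈ Om U δ)
    (hζ : ζ ∈ Om U δ) :
    ((1 - τ) * (ε ^ 2 * δ ζ ^ 2 + ‖ζ - z‖ ^ 2) + τ * ‖vv δ h z ζ‖) / 2 ≤ ‖aa δ h ε τ z ζ‖ := by
  have hpos := hg.pos z hz.1 ζ hζ.1
  have hre : 0 ≤ (vv δ h z ζ).re := by
    have h1 := hz.2
    have h2 := hζ.2
    have h3 : 0 ≤ c * ‖ζ - z‖ ^ 2 := mul_nonneg hg.c0.le (by positivity)
    linarith
  have hT : 0 ≤ (1 - τ) * (ε ^ 2 * δ ζ ^ 2 + ‖ζ - z‖ ^ 2) :=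
    mul_nonneg (by linarith [hτ.2]) (by positivity)
  have e1 : (aa δ h ε τ z ζ).re =
      (1 - τ) * (ε ^ 2 * δ ζ ^ 2 + ‖ζ - z‖ ^ 2) + τ * (vv δ h z ζ).re := by
    rw [aa_eq, Complex.add_re, Complex.ofReal_re, Complex.re_ofReal_mul]
  have e2 : (aa δ h ε τ z ζ).im = τ * (vv δ h z ζ).im := by
    rw [aa_eq, Complex.add_im, Complex.ofReal_im, Complex.im_ofReal_mul, zero_add]
  have h1 := Complex.abs_re_le_norm (aa δ h ε τ z ζ)
  have h2 := Complex.abs_im_le_norm (aa δ h ε τ z ζ)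
  have h3 := Complex.norm_le_abs_re_add_abs_im (vv δ h z ζ)
  rw [abs_of_nonneg hre] at h3
  rw [e1, abs_of_nonneg (add_nonneg hT (mul_nonneg hτ.1 hre))] at h1
  rw [e2, abs_mul, abs_of_nonneg hτ.1] at h2
  have h4 : τ * ‖vv δ h z ζ‖ ≤ τ * ((vv δ h z ζ).re + |(vv δ h z ζ).im|) :=
    mul_le_mul_of_nonneg_left h3 hτ.1
  nlinarith

/-- `D² ≤ C' t`.
PROOF. `‖ζ - z‖² ≤ (2 / c) t`, and `ε² δ ζ² ≤ δ ζ² ≤ C δ ζ ≤ 2 C t` (`v_lb`, `Geo.bδ`). -/
theorem D_le {U : Set (Ec n)} {δ : Ec n → ℝ} {h : Ec n → Ec n → Fin n → ℂ} {c C : ℝ}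
    (hg : Geo U δ h c C) {ε : ℝ} (hε : 0 < ε) (hε1 : ε ≤ 1) {z ζ : Ec n} (hz : z ∈ Om U δ)
    (hζ : ζ ∈ Om U δ) :
    ε ^ 2 * δ ζ ^ 2 + ‖ζ - z‖ ^ 2 ≤ (2 / c + 2 * C) * ‖vv δ h z ζ‖ := by
  obtain ⟨_, h2, h3, h4⟩ := v_lb hg hz hζ
  have hc := hg.c0
  have hC := hg.C1
  have h5 : ‖ζ - z‖ ^ 2 ≤ 2 / c * ‖vv δ h z ζ‖ := by
    rw [div_mul_eq_mul_div, le_div_iff₀ hc]
    linarith
  have h6 : ε ^ 2 ≤ 1 := by nlinarith
  have h7 : δ ζ ≤ C := hg.bδ ζ hζ.1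
  have h8 : 0 < δ ζ := hζ.2
  have h9 : ε ^ 2 * δ ζ ^ 2 ≤ δ ζ ^ 2 := by
    have := mul_le_mul_of_nonneg_right h6 (sq_nonneg (δ ζ))
    linarith
  have h10 : δ ζ ^ 2 ≤ 2 * C * ‖vv δ h z ζ‖ := by
    calc δ ζ ^ 2 = δ ζ * δ ζ := by ring
      _ ≤ C * (2 * ‖vv δ h z ζ‖) := mul_le_mul h7 h2 h8.le (by linarith)
      _ = _ := by ring
  calc ε ^ 2 * δ ζ ^ 2 + ‖ζ - z‖ ^ 2 ≤ 2 * C * ‖vv δ h z ζ‖ + 2 / c * ‖vv δ h z ζ‖ := by linarith
    _ = _ := by ring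

/-- `w0 / |aa| ≤ C' δ / t`.
PROOF. Let `s = δ ζ`, `d = ‖ζ - z‖`, `t = ‖v‖`. `w0 = (1 - τ) ε² s² + τ s`. By `aa_lb` it is enough that
`w0 ≤ C'' (s / t) ((1 - τ) (ε² s² + d²) + τ t)`. The part `τ s = (s / t) τ t`. For the other part:
`ε² s² t ≤ C₁ ε² s² (s + d)` (`v_ub`) and `ε² s³ = s (ε² s²)`, `ε² s² d ≤ s (ε² s² + d²)` since
`ε² s d ≤ (ε⁴ s² + d²) / 2`. So `ε² s² t ≤ 2 C₁ s (ε² s² + d²)`. -/
theorem w0_aa (n : ℕ) (c C : ℝ) : ∃ C' : ℝ, 0 < C' ∧ ∀ (U : Set (Ec n))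
    (δ : Ec n → ℝ) (h : Ec n → Ec n → Fin n → ℂ), Geo U δ h c C → ∀ ε : ℝ, 0 < ε → ε ≤ 1 →
    ∀ τ ∈ Icc (0 : ℝ) 1, ∀ z ∈ Om U δ, ∀ ζ ∈ Om U δ,
    w0 δ ε τ ζ / ‖aa δ h ε τ z ζ‖ ≤ C' * (δ ζ / ‖vv δ h z ζ‖) := by
  obtain ⟨C1, hC1, hv⟩ := v_ub n c C
  refine ⟨2 * (2 * C1 + 1), by positivity, ?_⟩
  intro U δ h hg ε hε hε1 τ hτ z hz ζ hζ
  have hub := hv U δ h hg z hz ζ hζ
  obtain ⟨_, _, _, ht⟩ := v_lb hg hz hζ
  have hlb := aa_lb hg ε hτ hz hζ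
  have hs : 0 < δ ζ := hζ.2
  have hd : 0 ≤ ‖ζ - z‖ := norm_nonneg _
  have hτ0 := hτ.1
  have hτ1 : 0 ≤ 1 - τ := by linarith [hτ.2]
  rw [w0]
  generalize ‖ζ - z‖ = d at *
  generalize δ ζ = s at *
  generalize ‖vv δ h z ζ‖ = t at *
  generalize ‖aa δ h ε τ z ζ‖ = a at *
  have h1 : ε ^ 2 * s ^ 2 * t ≤ 2 * C1 * s * (ε ^ 2 * s ^ 2 + d ^ 2) := by
    have e1 : ε ^ 2 * s ^ 2 * t ≤ ε ^ 2 * s ^ 2 * (C1 * (s + d)) :=
      mul_le_mul_of_nonneg_left hub (by positivity)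
    have e2 : ε ^ 2 * s * d ≤ ε ^ 2 * s ^ 2 + d ^ 2 := by
      have e3 : (ε * s) ^ 2 + d ^ 2 ≥ 2 * (ε * s) * d := by nlinarith [sq_nonneg (ε * s - d)]
      have e4 : ε ^ 2 * s * d ≤ ε * s * d := by
        have : ε * (ε * s * d) ≤ 1 * (ε * s * d) :=
          mul_le_mul_of_nonneg_right hε1 (by positivity)
        nlinarith
      have e5 : 0 ≤ ε * s * d := by positivity
      nlinarith
    have e6 : ε ^ 2 * s ^ 2 * (C1 * (s + d)) = C1 * s * (ε ^ 2 * s ^ 2 + ε ^ 2 * s * d) := by ring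
    have e7 : C1 * s * (ε ^ 2 * s ^ 2 + ε ^ 2 * s * d) ≤
        C1 * s * (ε ^ 2 * s ^ 2 + (ε ^ 2 * s ^ 2 + d ^ 2)) :=
      mul_le_mul_of_nonneg_left (by linarith) (by positivity)
    have e8 : C1 * s * (ε ^ 2 * s ^ 2 + (ε ^ 2 * s ^ 2 + d ^ 2)) ≤
        2 * C1 * s * (ε ^ 2 * s ^ 2 + d ^ 2) := by
      have : 0 ≤ C1 * s * d ^ 2 := by positivity
      nlinarith
    linarith
  have h2 : ((1 - τ) * (ε ^ 2 * s ^ 2) + τ * s) * t ≤
      (2 * C1 + 1) * s * ((1 - τ) * (ε ^ 2 * s ^ 2 + d ^ 2) + τ * t) := by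
    have e1 := mul_le_mul_of_nonneg_left h1 hτ1
    have e2 : 0 ≤ s * ((1 - τ) * (ε ^ 2 * s ^ 2 + d ^ 2)) := by positivity
    have e3 : 0 ≤ C1 * s * (τ * t) := by positivity
    nlinarith
  have ha : 0 < a := by
    refine lt_of_lt_of_le ?_ hlb
    by_cases hτ' : τ = 0
    · subst hτ'
      have : 0 < ε ^ 2 * s ^ 2 := by positivity
      have : 0 ≤ d ^ 2 := by positivity
      simp only [sub_zero, one_mul, zero_mul, add_zero]
      positivity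
    · have : 0 < τ := lt_of_le_of_ne hτ0 (Ne.symm hτ')
      positivity
  rw [div_le_iff₀ ha]
  have h3 : (2 * C1 + 1) * s * ((1 - τ) * (ε ^ 2 * s ^ 2 + d ^ 2) + τ * t) ≤
      (2 * C1 + 1) * s * (2 * a) := mul_le_mul_of_nonneg_left (by linarith) (by positivity)
  have h4 : (1 - τ) * (ε ^ 2 * s ^ 2) + τ * s ≤ (2 * C1 + 1) * s * (2 * a) / t := by
    rw [le_div_iff₀ ht]
    linarith
  calc _ ≤ (2 * C1 + 1) * s * (2 * a) / t := h4
    _ = _ := by ring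

/-- PROOF. `|F0| = (w0 / |aa|)^(n+8) |aa|^(-(n+1))`, `w0_aa`; and
`|aa| ≥ c'' (D² + τ t)`, `D² = ε² s² + d²`: by `aa_lb` and `D² ≤ K t` (`D_le`): if `τ ≤ 1 / 2` then
`(1 - τ) D² + τ t ≥ (D² + τ t) / 2`; if `τ ≥ 1 / 2` then `(1 - τ) D² + τ t ≥ t / 2 ≥
(D² / K + τ t) / 4`. -/
theorem F_le (n : ℕ) (c C : ℝ) : ∃ C' : ℝ, 0 < C' ∧ ∀ (U : Set (Ec n))
    (δ : Ec n → ℝ) (h : Ec n → Ec n → Fin n → ℂ), Geo U δ h c C → ∀ ε : ℝ, 0 < ε → ε ≤ 1 →
    ∀ τ ∈ Icc (0 : ℝ) 1, ∀ z ∈ Om U δ, ∀ ζ ∈ Om U δ,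
    ‖F0 δ h ε τ z ζ‖ ≤ C' * (δ ζ / ‖vv δ h z ζ‖) ^ (n + 8) *
        ((ε ^ 2 * δ ζ ^ 2 + ‖ζ - z‖ ^ 2 + τ * ‖vv δ h z ζ‖) ^ (n + 1))⁻¹ ∧
      ‖F1 δ h ε τ z ζ‖ ≤ C' * (δ ζ / ‖vv δ h z ζ‖) ^ (n + 8) *
        ((ε ^ 2 * δ ζ ^ 2 + ‖ζ - z‖ ^ 2 + τ * ‖vv δ h z ζ‖) ^ n)⁻¹ := by
  obtain ⟨C1, hC1, hw⟩ := w0_aa n c C
  obtain ⟨K, hK⟩ : ∃ K : ℝ, K = 4 * (|2 / c + 2 * C| + 1) := ⟨_, rfl⟩
  have hK1 : 1 ≤ K := by rw [hK]; nlinarith [abs_nonneg (2 / c + 2 * C)]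
  refine ⟨C1 ^ (n + 8) * K ^ (n + 1), by positivity, ?_⟩
  intro U δ h hg ε hε hε1 τ hτ z hz ζ hζ
  have hwa := hw U δ h hg ε hε hε1 τ hτ z hz ζ hζ
  obtain ⟨_, _, _, ht⟩ := v_lb hg hz hζ
  have hlb := aa_lb hg ε hτ hz hζ
  have hD := D_le hg hε hε1 hz hζ
  have hs : 0 < δ ζ := hζ.2
  have hτ0 := hτ.1
  have hw0 : 0 ≤ w0 δ ε τ ζ := by
    rw [w0]
    have : 0 ≤ 1 - τ := by linarith [hτ.2]
    positivity
  have hDp : 0 < ε ^ 2 * δ ζ ^ 2 + ‖ζ - z‖ ^ 2 := by positivity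
  have hF0 : ‖F0 δ h ε τ z ζ‖ = w0 δ ε τ ζ ^ (n + 8) / ‖aa δ h ε τ z ζ‖ ^ (2 * n + 9) := by
    rw [F0, norm_div, norm_pow, norm_pow, Complex.norm_real, Real.norm_eq_abs, abs_of_nonneg hw0]
  have hF1 : ‖F1 δ h ε τ z ζ‖ = w0 δ ε τ ζ ^ (n + 8) / ‖aa δ h ε τ z ζ‖ ^ (2 * n + 8) := by
    rw [F1, norm_div, norm_pow, norm_pow, Complex.norm_real, Real.norm_eq_abs, abs_of_nonneg hw0]
  rw [hF0, hF1]
  have hq0 : 0 ≤ δ ζ / ‖vv δ h z ζ‖ := by positivity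
  generalize δ ζ / ‖vv δ h z ζ‖ = r at *
  generalize ε ^ 2 * δ ζ ^ 2 + ‖ζ - z‖ ^ 2 = D at *
  generalize ‖vv δ h z ζ‖ = t at *
  generalize ‖aa δ h ε τ z ζ‖ = a at *
  generalize w0 δ ε τ ζ = w at *
  have hDt : 0 < D + τ * t := by positivity
  have hKa : D + τ * t ≤ K * a := by
    have hab : D ≤ |2 / c + 2 * C| * t :=
      hD.trans (mul_le_mul_of_nonneg_right (le_abs_self _) ht.le)
    have hA := abs_nonneg (2 / c + 2 * C)
    have ha0 : 0 ≤ a := le_trans (by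
      have : 0 ≤ 1 - τ := by linarith [hτ.2]
      positivity) hlb
    rcases le_total τ (1 / 2) with h1 | h1
    · have e1 : D + τ * t ≤ 4 * a := by nlinarith
      have e2 : 4 * a ≤ K * a := by
        refine mul_le_mul_of_nonneg_right ?_ ha0
        rw [hK]
        linarith
      linarith
    · have e1 : t ≤ 4 * a := by
        have : 0 ≤ (1 - τ) * D := mul_nonneg (by linarith [hτ.2]) hDp.le
        nlinarith
      have e2 : D + τ * t ≤ (|2 / c + 2 * C| + 1) * t := by nlinarith [hτ.2]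
      calc D + τ * t ≤ (|2 / c + 2 * C| + 1) * t := e2
        _ ≤ (|2 / c + 2 * C| + 1) * (4 * a) := mul_le_mul_of_nonneg_left e1 (by linarith)
        _ = K * a := by rw [hK]; ring
  have ha : 0 < a := by
    by_contra hneg
    have : K * a ≤ 0 := mul_nonpos_of_nonneg_of_nonpos (by linarith) (not_lt.mp hneg)
    linarith
  have hinv : a⁻¹ ≤ K * (D + τ * t)⁻¹ := by
    rw [← div_eq_mul_inv, le_div_iff₀ hDt, inv_mul_le_iff₀ ha]
    linarith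
  have hwa' : w * a⁻¹ ≤ C1 * r := by
    rw [← div_eq_mul_inv]
    exact hwa
  have hp : (w * a⁻¹) ^ (n + 8) ≤ C1 ^ (n + 8) * r ^ (n + 8) := by
    rw [← mul_pow]
    exact pow_le_pow_left₀ (by positivity) hwa' _
  have hX : 0 ≤ (D + τ * t)⁻¹ := by positivity
  constructor
  · calc w ^ (n + 8) / a ^ (2 * n + 9) = (w * a⁻¹) ^ (n + 8) * (a⁻¹) ^ (n + 1) := by
          rw [mul_pow, mul_assoc, ← pow_add, div_eq_mul_inv, inv_pow]
          congr 3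
          omega
      _ ≤ (C1 ^ (n + 8) * r ^ (n + 8)) * (K * (D + τ * t)⁻¹) ^ (n + 1) :=
          mul_le_mul hp (pow_le_pow_left₀ (by positivity) hinv _) (by positivity) (by positivity)
      _ = _ := by rw [mul_pow, inv_pow]; ring
  · calc w ^ (n + 8) / a ^ (2 * n + 8) = (w * a⁻¹) ^ (n + 8) * (a⁻¹) ^ n := by
          rw [mul_pow, mul_assoc, ← pow_add, div_eq_mul_inv, inv_pow]
          congr 3
          omega
      _ ≤ (C1 ^ (n + 8) * r ^ (n + 8)) * (K * (D + τ * t)⁻¹) ^ n :=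
          mul_le_mul hp (pow_le_pow_left₀ (by positivity) hinv _) (by positivity) (by positivity)
      _ = (C1 ^ (n + 8) * K ^ n) * r ^ (n + 8) * ((D + τ * t) ^ n)⁻¹ := by
          rw [mul_pow, inv_pow]; ring
      _ ≤ _ := by
          have : K ^ n ≤ K ^ (n + 1) := pow_le_pow_right₀ hK1 (Nat.le_succ n)
          gcongr

/-- PROOF. The primitive of `(a + τ b)^(-(m+1))` is `-(a + τ b)^(-m) / (m b)`. -/
theorem int_tau1 {a b : ℝ} (ha : 0 < a) (hb : 0 < b) {m : ℕ} (hm : 1 ≤ m) :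
    ∫ τ in Icc (0 : ℝ) 1, ((a + τ * b) ^ (m + 1))⁻¹ ≤ (b * a ^ m)⁻¹ := by
  have hm0 : (m : ℝ) ≠ 0 := by
    have : (1 : ℝ) ≤ m := by exact_mod_cast hm
    linarith
  rw [integral_Icc_eq_integral_Ioc, ← intervalIntegral.integral_of_le zero_le_one]
  have hpos : ∀ τ ∈ uIcc (0 : ℝ) 1, 0 < a + τ * b := by
    intro τ hτ
    rw [uIcc_of_le zero_le_one] at hτ
    have := hτ.1
    positivity
  have hder : ∀ τ ∈ uIcc (0 : ℝ) 1, HasDerivAt (fun τ : ℝ => -((a + τ * b) ^ m)⁻¹ / (m * b))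
      ((a + τ * b) ^ (m + 1))⁻¹ τ := by
    intro τ hτ
    have hp := hpos τ hτ
    have h1 : HasDerivAt (fun τ : ℝ => a + τ * b) b τ := by
      simpa using ((hasDerivAt_id τ).mul_const b).const_add a
    have h2 := ((h1.fun_pow m).fun_inv (pow_ne_zero _ hp.ne')).neg.div_const (m * b)
    refine h2.congr_deriv ?_
    obtain ⟨k, rfl⟩ : ∃ k, m = k + 1 := ⟨m - 1, by omega⟩
    simp only [Nat.add_sub_cancel]
    field_simp
    ring
  have hint : IntervalIntegrable (fun τ : ℝ => ((a + τ * b) ^ (m + 1))⁻¹) volume 0 1 := by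
    refine ContinuousOn.intervalIntegrable ?_
    refine ContinuousOn.inv₀ (by fun_prop) fun τ hτ => pow_ne_zero _ (hpos τ hτ).ne'
  rw [intervalIntegral.integral_eq_sub_of_hasDerivAt hder hint]
  have hm1 : (1 : ℝ) ≤ m := by exact_mod_cast hm
  have h3 : 0 ≤ ((a + 1 * b) ^ m)⁻¹ / (m * b) := by positivity
  calc -((a + 1 * b) ^ m)⁻¹ / (m * b) - -((a + 0 * b) ^ m)⁻¹ / (m * b)
      = (a ^ m)⁻¹ / (m * b) - ((a + 1 * b) ^ m)⁻¹ / (m * b) := by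
        rw [zero_mul, add_zero]; ring
    _ ≤ (a ^ m)⁻¹ / (m * b) := by linarith
    _ ≤ (a ^ m)⁻¹ / (1 * b) := by gcongr
    _ = (b * a ^ m)⁻¹ := by rw [one_mul, mul_inv, div_eq_mul_inv]; ring

/-- PROOF. `τ ≤ (a + τ b) / b`, so the integrand is at most `(b (a + τ b)^m)⁻¹`, and `int_tau1` with `m - 1`. -/
theorem int_tau2 {a b : ℝ} (ha : 0 < a) (hb : 0 < b) {m : ℕ} (hm : 2 ≤ m) :
    ∫ τ in Icc (0 : ℝ) 1, τ * ((a + τ * b) ^ (m + 1))⁻¹ ≤ (b ^ 2 * a ^ (m - 1))⁻¹ := by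
  obtain ⟨k, rfl⟩ : ∃ k, m = k + 1 := ⟨m - 1, by omega⟩
  have hpos : ∀ τ ∈ Icc (0 : ℝ) 1, 0 < a + τ * b := by
    intro τ hτ
    have := hτ.1
    positivity
  have hle : ∀ τ ∈ Icc (0 : ℝ) 1, τ * ((a + τ * b) ^ (k + 1 + 1))⁻¹ ≤
      b⁻¹ * ((a + τ * b) ^ (k + 1))⁻¹ := by
    intro τ hτ
    have hp := hpos τ hτ
    have h1 : τ ≤ b⁻¹ * (a + τ * b) := by
      rw [inv_mul_eq_div, le_div_iff₀ hb]
      linarith
    calc τ * ((a + τ * b) ^ (k + 1 + 1))⁻¹ ≤ b⁻¹ * (a + τ * b) * ((a + τ * b) ^ (k + 1 + 1))⁻¹ :=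
          mul_le_mul_of_nonneg_right h1 (by positivity)
      _ = b⁻¹ * ((a + τ * b) ^ (k + 1))⁻¹ := by
          rw [pow_succ (a + τ * b) (k + 1), mul_inv]
          have e1 : b⁻¹ * (a + τ * b) * (((a + τ * b) ^ (k + 1))⁻¹ * (a + τ * b)⁻¹) =
              b⁻¹ * ((a + τ * b) ^ (k + 1))⁻¹ * ((a + τ * b) * (a + τ * b)⁻¹) := by ring
          rw [e1, mul_inv_cancel₀ hp.ne', mul_one]
  have hi1 : IntegrableOn (fun τ : ℝ => τ * ((a + τ * b) ^ (k + 1 + 1))⁻¹) (Icc 0 1) := by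
    refine ContinuousOn.integrableOn_Icc ?_
    exact continuousOn_id.mul (ContinuousOn.inv₀ (by fun_prop) fun τ hτ =>
      pow_ne_zero _ (hpos τ hτ).ne')
  have hi2 : IntegrableOn (fun τ : ℝ => b⁻¹ * ((a + τ * b) ^ (k + 1))⁻¹) (Icc 0 1) := by
    refine ContinuousOn.integrableOn_Icc ?_
    exact continuousOn_const.mul (ContinuousOn.inv₀ (by fun_prop) fun τ hτ =>
      pow_ne_zero _ (hpos τ hτ).ne')
  calc ∫ τ in Icc (0 : ℝ) 1, τ * ((a + τ * b) ^ (k + 1 + 1))⁻¹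
      ≤ ∫ τ in Icc (0 : ℝ) 1, b⁻¹ * ((a + τ * b) ^ (k + 1))⁻¹ :=
        setIntegral_mono_on hi1 hi2 measurableSet_Icc hle
    _ = b⁻¹ * ∫ τ in Icc (0 : ℝ) 1, ((a + τ * b) ^ (k + 1))⁻¹ := integral_const_mul _ _
    _ ≤ b⁻¹ * (b * a ^ k)⁻¹ := mul_le_mul_of_nonneg_left (int_tau1 ha hb (by omega)) (by positivity)
    _ = (b ^ 2 * a ^ (k + 1 - 1))⁻¹ := by
        rw [Nat.add_sub_cancel, mul_inv, mul_inv]
        ring

private theorem C4_D {e d : ℝ} (hd : 0 < d) {m : ℕ} :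
    (d + e) * ((e ^ 2 + d ^ 2) ^ (m + 1))⁻¹ ≤ 2 * (d ^ (2 * m + 1))⁻¹ ∧
      d * ((e ^ 2 + d ^ 2) ^ (m + 1))⁻¹ ≤ (d ^ (2 * m + 1))⁻¹ := by
  have ha : 0 < e ^ 2 + d ^ 2 := by positivity
  obtain ⟨D, hD⟩ : ∃ D : ℝ, D = Real.sqrt (e ^ 2 + d ^ 2) := ⟨_, rfl⟩
  have hD2 : D ^ 2 = e ^ 2 + d ^ 2 := by rw [hD, Real.sq_sqrt ha.le]
  have hD0 : 0 < D := by rw [hD]; exact Real.sqrt_pos.mpr ha
  have hdD : d ≤ D := by
    rw [hD]
    refine Real.le_sqrt_of_sq_le ?_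
    nlinarith [sq_nonneg e]
  have heD : e ≤ D := by
    rw [hD]
    refine Real.le_sqrt_of_sq_le ?_
    nlinarith [sq_nonneg d]
  have h1 : (D ^ (2 * m + 1))⁻¹ ≤ (d ^ (2 * m + 1))⁻¹ := by gcongr
  have h2 : D * ((D ^ 2) ^ (m + 1))⁻¹ = (D ^ (2 * m + 1))⁻¹ := by
    rw [← pow_mul, show 2 * (m + 1) = (2 * m + 1) + 1 by ring, pow_succ, mul_inv]
    have e1 : D * ((D ^ (2 * m + 1))⁻¹ * D⁻¹) = (D ^ (2 * m + 1))⁻¹ * (D * D⁻¹) := by ring
    rw [e1, mul_inv_cancel₀ hD0.ne', mul_one]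
  rw [← hD2]
  have hX : 0 ≤ ((D ^ 2) ^ (m + 1))⁻¹ := by positivity
  constructor
  · calc (d + e) * ((D ^ 2) ^ (m + 1))⁻¹ ≤ (D + D) * ((D ^ 2) ^ (m + 1))⁻¹ := by gcongr
      _ = 2 * (D * ((D ^ 2) ^ (m + 1))⁻¹) := by ring
      _ ≤ _ := by rw [h2]; linarith
  · calc d * ((D ^ 2) ^ (m + 1))⁻¹ ≤ D * ((D ^ 2) ^ (m + 1))⁻¹ := by gcongr
      _ ≤ _ := by rw [h2]; exact h1

private theorem C4_int {a b : ℝ} (ha : 0 < a) (hb : 0 < b) (m : ℕ) :
    IntegrableOn (fun τ : ℝ => ((a + τ * b) ^ m)⁻¹) (Icc 0 1) ∧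
      IntegrableOn (fun τ : ℝ => τ * ((a + τ * b) ^ m)⁻¹) (Icc 0 1) := by
  have hpos : ∀ τ ∈ Icc (0 : ℝ) 1, 0 < a + τ * b := by
    intro τ hτ
    have := hτ.1
    positivity
  have hc : ContinuousOn (fun τ : ℝ => ((a + τ * b) ^ m)⁻¹) (Icc 0 1) :=
    ContinuousOn.inv₀ (by fun_prop) fun τ hτ => pow_ne_zero _ (hpos τ hτ).ne'
  exact ⟨hc.integrableOn_Icc, (continuousOn_id.mul hc).integrableOn_Icc⟩

/-- PROOF. `F_le`, `int_tau1`, `int_tau2` with `a = D² = ε² s² + d²`, `b = t`, `m = n`. Let `D = √a`; `d ≤ D`,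
`ε s ≤ D`. The integral is at most
`C' (s / t)^(n+8) [2 D t⁻¹ D^(-2n) + (d / √s) t^(-2) D^(-(2n-2))] ≤
C'' (s / t)^(n+8) [t⁻¹ D^(-(2n-1)) + s^(-1/2) t^(-2) D^(-(2n-3))]`, and `D ≥ d > 0`. -/
theorem F0_int (hn : 2 ≤ n) (c C : ℝ) : ∃ C' : ℝ, 0 < C' ∧ ∀ (U : Set (Ec n))
    (δ : Ec n → ℝ) (h : Ec n → Ec n → Fin n → ℂ), Geo U δ h c C → ∀ ε : ℝ, 0 < ε → ε ≤ 1 →
    ∀ z ∈ Om U δ, ∀ ζ ∈ Om U δ, ζ ≠ z →
    ∫ τ in Icc (0 : ℝ) 1, ‖F0 δ h ε τ z ζ‖ *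
      (‖ζ - z‖ + ε * δ ζ + τ * ‖ζ - z‖ / Real.sqrt (δ ζ)) ≤ C' * Kh δ h z ζ := by
  obtain ⟨C1, hC1, hF⟩ := F_le n c C
  refine ⟨2 * C1, by positivity, ?_⟩
  intro U δ h hg ε hε hε1 z hz ζ hζ hne
  obtain ⟨_, _, _, ht⟩ := v_lb hg hz hζ
  have hs : 0 < δ ζ := hζ.2
  have hd : 0 < ‖ζ - z‖ := by
    rw [norm_pos_iff, sub_ne_zero]
    exact hne
  have hFF : ∀ τ ∈ Icc (0 : ℝ) 1, ‖F0 δ h ε τ z ζ‖ ≤ C1 * (δ ζ / ‖vv δ h z ζ‖) ^ (n + 8) *
        ((ε ^ 2 * δ ζ ^ 2 + ‖ζ - z‖ ^ 2 + τ * ‖vv δ h z ζ‖) ^ (n + 1))⁻¹ := fun τ hτ =>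
    (hF U δ h hg ε hε hε1 τ hτ z hz ζ hζ).1
  rw [Kh]
  have hr0 : 0 ≤ (δ ζ / ‖vv δ h z ζ‖) ^ (n + 8) := by positivity
  generalize (δ ζ / ‖vv δ h z ζ‖) ^ (n + 8) = r at *
  generalize ‖ζ - z‖ = d at *
  generalize δ ζ = s at *
  generalize ‖vv δ h z ζ‖ = t at *
  have hsq : 0 < Real.sqrt s := Real.sqrt_pos.mpr hs
  have ha : 0 < ε ^ 2 * s ^ 2 + d ^ 2 := by positivity
  obtain ⟨i1, i2⟩ := C4_int ha ht (n + 1)
  have hle : ∫ τ in Icc (0 : ℝ) 1, ‖F0 δ h ε τ z ζ‖ *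
      (d + ε * s + τ * d / Real.sqrt s) ≤
      ∫ τ in Icc (0 : ℝ) 1, (C1 * r * (d + ε * s) *
        ((ε ^ 2 * s ^ 2 + d ^ 2 + τ * t) ^ (n + 1))⁻¹ + C1 * r * (d / Real.sqrt s) *
        (τ * ((ε ^ 2 * s ^ 2 + d ^ 2 + τ * t) ^ (n + 1))⁻¹)) := by
    refine integral_mono_of_nonneg ?_ ((i1.const_mul _).add (i2.const_mul _)) ?_
    · refine (ae_restrict_iff' measurableSet_Icc).mpr (Eventually.of_forall fun τ hτ => ?_)
      have := hτ.1
      simp only [Pi.zero_apply]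
      positivity
    · refine (ae_restrict_iff' measurableSet_Icc).mpr (Eventually.of_forall fun τ hτ => ?_)
      have hτ0 := hτ.1
      have h1 := hFF τ hτ
      have h2 : 0 ≤ d + ε * s + τ * d / Real.sqrt s := by positivity
      calc ‖F0 δ h ε τ z ζ‖ * (d + ε * s + τ * d / Real.sqrt s)
          ≤ (C1 * r * ((ε ^ 2 * s ^ 2 + d ^ 2 + τ * t) ^ (n + 1))⁻¹) *
            (d + ε * s + τ * d / Real.sqrt s) := mul_le_mul_of_nonneg_right h1 h2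
        _ = _ := by ring
  refine hle.trans ?_
  rw [integral_add (i1.const_mul _) (i2.const_mul _), integral_const_mul, integral_const_mul]
  have h1 := int_tau1 ha ht (m := n) (by omega)
  have h2 := int_tau2 ha ht (m := n) hn
  obtain ⟨k, rfl⟩ : ∃ k, n = k + 2 := ⟨n - 2, by omega⟩
  have h3 := (C4_D (e := ε * s) (d := d) hd (m := k + 1)).1
  have h4 := (C4_D (e := ε * s) (d := d) hd (m := k)).2
  rw [mul_pow] at h3 h4
  have e3 : 2 * (k + 2) - 1 = 2 * (k + 1) + 1 := by omega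
  have e4 : 2 * (k + 2) - 3 = 2 * k + 1 := by omega
  have e5 : k + 2 - 1 = k + 1 := by omega
  rw [e5] at h2
  rw [e3, e4]
  have g1 : C1 * r * (d + ε * s) * ∫ τ in Icc (0 : ℝ) 1,
      ((ε ^ 2 * s ^ 2 + d ^ 2 + τ * t) ^ (k + 2 + 1))⁻¹ ≤
      C1 * r * (t⁻¹ * (2 * (d ^ (2 * (k + 1) + 1))⁻¹)) := by
    calc _ ≤ C1 * r * (d + ε * s) * (t * (ε ^ 2 * s ^ 2 + d ^ 2) ^ (k + 2))⁻¹ :=
          mul_le_mul_of_nonneg_left h1 (by positivity)
      _ = C1 * r * (t⁻¹ * ((d + ε * s) * ((ε ^ 2 * s ^ 2 + d ^ 2) ^ (k + 1 + 1))⁻¹)) := by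
          rw [mul_inv]; ring
      _ ≤ _ := by gcongr
  have g2 : C1 * r * (d / Real.sqrt s) * ∫ τ in Icc (0 : ℝ) 1,
      τ * ((ε ^ 2 * s ^ 2 + d ^ 2 + τ * t) ^ (k + 2 + 1))⁻¹ ≤
      C1 * r * ((Real.sqrt s)⁻¹ * (t ^ 2)⁻¹ * (d ^ (2 * k + 1))⁻¹) := by
    calc _ ≤ C1 * r * (d / Real.sqrt s) * (t ^ 2 * (ε ^ 2 * s ^ 2 + d ^ 2) ^ (k + 1))⁻¹ :=
          mul_le_mul_of_nonneg_left h2 (by positivity)
      _ = C1 * r * ((Real.sqrt s)⁻¹ * (t ^ 2)⁻¹ * (d * ((ε ^ 2 * s ^ 2 + d ^ 2) ^ (k + 1))⁻¹)) := by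
          rw [mul_inv, div_eq_mul_inv]; ring
      _ ≤ _ := by gcongr
  have g3 : 0 ≤ C1 * r * ((Real.sqrt s)⁻¹ * (t ^ 2)⁻¹ * (d ^ (2 * k + 1))⁻¹) := by positivity
  calc _ ≤ C1 * r * (t⁻¹ * (2 * (d ^ (2 * (k + 1) + 1))⁻¹)) +
        C1 * r * ((Real.sqrt s)⁻¹ * (t ^ 2)⁻¹ * (d ^ (2 * k + 1))⁻¹) := add_le_add g1 g2
    _ ≤ C1 * r * (t⁻¹ * (2 * (d ^ (2 * (k + 1) + 1))⁻¹)) +
        2 * (C1 * r * ((Real.sqrt s)⁻¹ * (t ^ 2)⁻¹ * (d ^ (2 * k + 1))⁻¹)) := by linarith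
    _ = _ := by ring

/-- PROOF. `F_le`, `int_tau1` with `m = n - 1`: the integral is at most
`C' √s 2 D (s / t)^(n+8) t⁻¹ D^(-(2n-2)) = C'' (s t) (s / t)^(n+8) s^(-1/2) t^(-2) D^(-(2n-3))`, and the last product
without `s t` is at most `Kh` (`D ≥ d > 0`). -/
theorem F1_int (hn : 2 ≤ n) (c C : ℝ) : ∃ C' : ℝ, 0 < C' ∧ ∀ (U : Set (Ec n))
    (δ : Ec n → ℝ) (h : Ec n → Ec n → Fin n → ℂ), Geo U δ h c C → ∀ ε : ℝ, 0 < ε → ε ≤ 1 →
    ∀ z ∈ Om U δ, ∀ ζ ∈ Om U δ, ζ ≠ z →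
    ∫ τ in Icc (0 : ℝ) 1, ‖F1 δ h ε τ z ζ‖ * (Real.sqrt (δ ζ) * (‖ζ - z‖ + ε * δ ζ)) ≤
      C' * (δ ζ * ‖vv δ h z ζ‖) * Kh δ h z ζ := by
  obtain ⟨C1, hC1, hF⟩ := F_le n c C
  refine ⟨2 * C1, by positivity, ?_⟩
  intro U δ h hg ε hε hε1 z hz ζ hζ hne
  obtain ⟨_, _, _, ht⟩ := v_lb hg hz hζ
  have hs : 0 < δ ζ := hζ.2
  have hd : 0 < ‖ζ - z‖ := by
    rw [norm_pos_iff, sub_ne_zero]
    exact hne
  have hFF : ∀ τ ∈ Icc (0 : ℝ) 1, ‖F1 δ h ε τ z ζ‖ ≤ C1 * (δ ζ / ‖vv δ h z ζ‖) ^ (n + 8) *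
        ((ε ^ 2 * δ ζ ^ 2 + ‖ζ - z‖ ^ 2 + τ * ‖vv δ h z ζ‖) ^ n)⁻¹ := fun τ hτ =>
    (hF U δ h hg ε hε hε1 τ hτ z hz ζ hζ).2
  rw [Kh]
  have hr0 : 0 ≤ (δ ζ / ‖vv δ h z ζ‖) ^ (n + 8) := by positivity
  generalize (δ ζ / ‖vv δ h z ζ‖) ^ (n + 8) = r at *
  generalize ‖ζ - z‖ = d at *
  generalize δ ζ = s at *
  generalize ‖vv δ h z ζ‖ = t at *
  have hsq : 0 < Real.sqrt s := Real.sqrt_pos.mpr hs
  have ha : 0 < ε ^ 2 * s ^ 2 + d ^ 2 := by positivity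
  obtain ⟨i1, -⟩ := C4_int ha ht n
  have hle : ∫ τ in Icc (0 : ℝ) 1, ‖F1 δ h ε τ z ζ‖ *
      (Real.sqrt s * (d + ε * s)) ≤
      ∫ τ in Icc (0 : ℝ) 1, C1 * r * (Real.sqrt s * (d + ε * s)) *
        ((ε ^ 2 * s ^ 2 + d ^ 2 + τ * t) ^ n)⁻¹ := by
    refine integral_mono_of_nonneg ?_ (i1.const_mul _) ?_
    · refine (ae_restrict_iff' measurableSet_Icc).mpr (Eventually.of_forall fun τ hτ => ?_)
      have := hτ.1
      simp only [Pi.zero_apply]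
      positivity
    · refine (ae_restrict_iff' measurableSet_Icc).mpr (Eventually.of_forall fun τ hτ => ?_)
      have h1 := hFF τ hτ
      have h2 : 0 ≤ Real.sqrt s * (d + ε * s) := by positivity
      calc ‖F1 δ h ε τ z ζ‖ * (Real.sqrt s * (d + ε * s))
          ≤ (C1 * r * ((ε ^ 2 * s ^ 2 + d ^ 2 + τ * t) ^ n)⁻¹) *
            (Real.sqrt s * (d + ε * s)) := mul_le_mul_of_nonneg_right h1 h2
        _ = _ := by ring
  refine hle.trans ?_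
  rw [integral_const_mul]
  obtain ⟨k, rfl⟩ : ∃ k, n = k + 2 := ⟨n - 2, by omega⟩
  have h1 := int_tau1 ha ht (m := k + 1) (by omega)
  have h4 := (C4_D (e := ε * s) (d := d) hd (m := k)).1
  rw [mul_pow] at h4
  have e4 : 2 * (k + 2) - 3 = 2 * k + 1 := by omega
  rw [e4]
  have hss : Real.sqrt s = s * (Real.sqrt s)⁻¹ := by
    rw [← div_eq_mul_inv, Real.div_sqrt]
  have htt : t⁻¹ = t * (t ^ 2)⁻¹ := by
    field_simp
  have g0 : 0 ≤ r * (t⁻¹ * (d ^ (2 * (k + 2) - 1))⁻¹) * (s * t) := by positivity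
  calc _ ≤ C1 * r * (Real.sqrt s * (d + ε * s)) * (t * (ε ^ 2 * s ^ 2 + d ^ 2) ^ (k + 1))⁻¹ :=
        mul_le_mul_of_nonneg_left h1 (by positivity)
    _ = C1 * r * (Real.sqrt s * t⁻¹) *
        ((d + ε * s) * ((ε ^ 2 * s ^ 2 + d ^ 2) ^ (k + 1))⁻¹) := by
        rw [mul_inv]; ring
    _ ≤ C1 * r * (Real.sqrt s * t⁻¹) * (2 * (d ^ (2 * k + 1))⁻¹) := by gcongr
    _ = C1 * r * ((s * (Real.sqrt s)⁻¹) * (t * (t ^ 2)⁻¹)) * (2 * (d ^ (2 * k + 1))⁻¹) := by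
        rw [← hss, ← htt]
    _ = 2 * C1 * (r * ((Real.sqrt s)⁻¹ * (t ^ 2)⁻¹ * (d ^ (2 * k + 1))⁻¹) * (s * t)) := by ring
    _ ≤ 2 * C1 * (r * ((Real.sqrt s)⁻¹ * (t ^ 2)⁻¹ * (d ^ (2 * k + 1))⁻¹) * (s * t) +
        r * (t⁻¹ * (d ^ (2 * (k + 2) - 1))⁻¹) * (s * t)) := by
        refine mul_le_mul_of_nonneg_left ?_ (by positivity)
        linarith
    _ = _ := by ring

end Pool.Agent.MPca0fc2.FD
end

section

/-! Weakly holomorphic functions are holomorphic. -/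

set_option autoImplicit false

open Metric Set MeasureTheory Filter Topology
open scoped ContDiff

namespace Pool.Agent.MPca0fc2.LV

open Pool.Agent.MPca0fc2.FD (Ec ee)

variable {n : ℕ}

open scoped Convolution

/-- A convolution with a test function is holomorphic where the test function only sees `u`. -/
private theorem H7b_hol {Ω : Set (Ec n)} {u f g : Ec n → ℂ} {x : Ec n} {r : ℝ}
    (hf : LocallyIntegrable f) (hg : ContDiff ℝ ∞ g) (hgs : tsupport g ⊆ closedBall 0 r)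
    (hx : closedBall x r ⊆ Ω) (hfu : ∀ y ∈ closedBall x r, f y = u y)
    (h : ∀ j, ∀ v, TF Ω v → ∫ z, u z * dk j v z = 0) :
    DifferentiableAt ℂ (fun x => ∫ t, f t * g (x - t)) x := by
  have hcg : HasCompactSupport g :=
    HasCompactSupport.of_support_subset_isCompact (isCompact_closedBall 0 r)
      ((subset_tsupport g).trans hgs)
  have hg1 : ContDiff ℝ 1 g := hg.of_le (by exact_mod_cast le_top)
  have hconv : (fun x => ∫ t, f t * g (x - t)) =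
      f ⋆[ContinuousLinearMap.mul ℝ ℂ, volume] g := rfl
  have hder := hcg.hasFDerivAt_convolution_right (ContinuousLinearMap.mul ℝ ℂ) hf hg1 x
  rw [hconv]
  refine hol_of_dk hder.differentiableAt fun j => ?_
  have hcf : HasCompactSupport (fderiv ℝ g) := hcg.fderiv ℝ
  have hcont : Continuous (fderiv ℝ g) := hg1.continuous_fderiv one_ne_zero
  have hint : ∀ X : Ec n, Integrable fun t => f t * (fderiv ℝ g (x - t) X) := by
    intro X
    have hc1 : HasCompactSupport fun a => fderiv ℝ g a X :=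
      hcf.comp_left (g := fun T : Ec n →L[ℝ] ℂ => T X) (by simp)
    exact hc1.convolutionExists_right (ContinuousLinearMap.mul ℝ ℂ) hf
      (hcont.clm_apply continuous_const) x
  have e1 : ∀ X : Ec n, (f ⋆[(ContinuousLinearMap.mul ℝ ℂ).precompR (Ec n), volume] fderiv ℝ g) x X =
      ∫ t, f t * (fderiv ℝ g (x - t) X) := by
    intro X
    rw [convolution_precompR_apply (ContinuousLinearMap.mul ℝ ℂ) hf hcf hcont]
    rfl
  have e2 : dk j (f ⋆[ContinuousLinearMap.mul ℝ ℂ, volume] g) x = ∫ t, f t * dk j g (x - t) := by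
    show (fderiv ℝ (f ⋆[ContinuousLinearMap.mul ℝ ℂ, volume] g) x (ee j) + Complex.I *
      fderiv ℝ (f ⋆[ContinuousLinearMap.mul ℝ ℂ, volume] g) x (Complex.I • ee j)) / 2 = _
    rw [hder.fderiv, e1, e1, ← integral_const_mul, ← integral_add (hint _) ((hint _).const_mul _),
      ← integral_div]
    refine integral_congr_ae (Eventually.of_forall fun t => ?_)
    simp only [dk]
    ring
  rw [e2]
  set v : Ec n → ℂ := fun t => g (x - t) with hv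
  have hvs : tsupport v ⊆ closedBall x r := by
    refine closure_minimal (fun t ht => ?_) isClosed_closedBall
    have h1 : x - t ∈ closedBall (0 : Ec n) r := hgs (subset_tsupport g ht)
    rw [mem_closedBall, dist_zero_right] at h1
    rw [mem_closedBall, dist_comm, dist_eq_norm]
    exact h1
  have hTF : TF Ω v :=
    ⟨hg.comp (contDiff_const.sub contDiff_id),
      HasCompactSupport.of_support_subset_isCompact (isCompact_closedBall x r)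
        ((subset_tsupport v).trans hvs), hvs.trans hx⟩
  have e3 : ∀ t X, fderiv ℝ v t X = -(fderiv ℝ g (x - t) X) := by
    intro t X
    have h1 : HasFDerivAt g (fderiv ℝ g (x - t)) (x - t) :=
      ((hg1.differentiable one_ne_zero) (x - t)).hasFDerivAt
    have h2 : HasFDerivAt (fun t : Ec n => x - t) (-(ContinuousLinearMap.id ℝ (Ec n))) t :=
      (hasFDerivAt_id t).const_sub x
    have h3 := h1.comp t h2
    have h4 : fderiv ℝ v t = (fderiv ℝ g (x - t)).comp (-(ContinuousLinearMap.id ℝ (Ec n))) :=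
      h3.fderiv
    rw [h4]
    simp
  have e4 : ∀ t, dk j v t = -dk j g (x - t) := by
    intro t
    simp only [dk, e3]
    ring
  have e5 : ∀ t, f t * dk j g (x - t) = -(u t * dk j v t) := by
    intro t
    rw [e4]
    by_cases ht : t ∈ closedBall x r
    · rw [hfu t ht]
      ring
    · have h1 : fderiv ℝ g (x - t) = 0 := by
        by_contra hne
        have h2 : x - t ∈ tsupport g := support_fderiv_subset ℝ (Function.mem_support.mpr hne)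
        have h3 := hgs h2
        rw [mem_closedBall, dist_zero_right] at h3
        apply ht
        rw [mem_closedBall, dist_comm, dist_eq_norm]
        exact h3
      simp [dk, h1]
  rw [integral_congr_ae (Eventually.of_forall e5), integral_neg, h j v hTF, neg_zero]

/-- The interchange of two convolutions. -/
private theorem H7b_swap {f g : Ec n → ℂ} {φ : Ec n → ℝ} (hf : Integrable f) (hg : Continuous g)
    (hgc : HasCompactSupport g) (hφ : Integrable φ) (z : Ec n) :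
    ∫ y, g y * (∫ t, φ t • f (z - y - t)) = ∫ t, φ t • (∫ y, f y * g (z - t - y)) := by
  obtain ⟨C, hC⟩ := hg.bounded_above_of_compact_support hgc
  have h1 : ∫ y, g y * (∫ t, φ t • f (z - y - t)) = ∫ s, g (z - s) * (∫ t, φ t • f (s - t)) := by
    rw [← integral_sub_left_eq_self (fun y => g y * (∫ t, φ t • f (z - y - t))) volume z]
    refine integral_congr_ae (Eventually.of_forall fun s => ?_)
    simp only [sub_sub_cancel]
  have hint : Integrable (Function.uncurry fun s t : Ec n => g (z - s) * (φ t • f (s - t)))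
      ((volume : Measure (Ec n)).prod volume) := by
    have h2 := Integrable.convolution_integrand (ContinuousLinearMap.lsmul ℝ ℝ) hφ hf
      (μ := volume) (ν := volume)
    refine Integrable.bdd_mul (c := C) h2 ?_ ?_
    · exact (hg.comp (continuous_const.sub continuous_fst)).aestronglyMeasurable
    · exact Eventually.of_forall fun p => hC _
  rw [h1]
  have h3 : ∀ s, g (z - s) * (∫ t, φ t • f (s - t)) = ∫ t, g (z - s) * (φ t • f (s - t)) := by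
    intro s
    rw [integral_const_mul]
  rw [integral_congr_ae (Eventually.of_forall h3), integral_integral_swap hint]
  refine integral_congr_ae (Eventually.of_forall fun t => ?_)
  show ∫ s, g (z - s) * (φ t • f (s - t)) = φ t • ∫ y, f y * g (z - t - y)
  rw [← integral_smul, ← integral_add_right_eq_self (fun s => g (z - s) * (φ t • f (s - t))) t]
  refine integral_congr_ae (Eventually.of_forall fun y => ?_)
  show g (z - (y + t)) * (φ t • f (y + t - t)) = φ t • (f y * g (z - t - y))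
  rw [add_sub_cancel_right, Complex.real_smul, Complex.real_smul,
    show z - (y + t) = z - t - y by abel]
  ring

/-- A radial weight. -/
private theorem H7b_radial (n : ℕ) {R : ℝ} (hR : 0 < R) : ∃ ρ : ℝ → ℝ, Continuous ρ ∧
    (∀ t, R ≤ t → ρ t = 0) ∧ (∫ y : Ec n, ρ ‖y‖ = 1) ∧
    ContDiff ℝ ∞ (fun y : Ec n => ((ρ ‖y‖ : ℝ) : ℂ)) ∧
    tsupport (fun y : Ec n => ((ρ ‖y‖ : ℝ) : ℂ)) ⊆ closedBall 0 R := by
  set τ : ℝ → ℝ := fun t => Real.smoothTransition (1 - t ^ 2 / R ^ 2) with hτ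
  have hτc : Continuous τ := by
    refine Real.smoothTransition.continuous.comp ?_
    fun_prop
  have hτ0 : ∀ t, R ≤ t → τ t = 0 := by
    intro t ht
    refine Real.smoothTransition.zero_of_nonpos ?_
    have h1 : 1 ≤ t ^ 2 / R ^ 2 := by
      rw [le_div_iff₀ (by positivity), one_mul]
      exact pow_le_pow_left₀ hR.le ht 2
    linarith
  have hcs : HasCompactSupport fun y : Ec n => τ ‖y‖ := by
    refine HasCompactSupport.of_support_subset_isCompact (isCompact_closedBall 0 R) ?_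
    intro y hy
    by_contra h
    rw [mem_closedBall, dist_zero_right, not_le] at h
    exact hy (hτ0 _ h.le)
  have hpos : 0 < ∫ y : Ec n, τ ‖y‖ := by
    refine (hτc.comp continuous_norm).integral_pos_of_hasCompactSupport_nonneg_nonzero hcs
      (fun y => Real.smoothTransition.nonneg _) (x := 0) ?_
    show τ ‖(0 : Ec n)‖ ≠ 0
    rw [norm_zero, hτ]
    simp
  set c : ℝ := (∫ y : Ec n, τ ‖y‖)⁻¹ with hc
  refine ⟨fun t => c * τ t, continuous_const.mul hτc, fun t ht => by simp [hτ0 t ht], ?_, ?_, ?_⟩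
  · rw [integral_const_mul, hc, inv_mul_cancel₀ hpos.ne']
  · have h1 : ContDiff ℝ ∞ fun y : Ec n => c * τ ‖y‖ := by
      refine contDiff_const.mul ?_
      refine Real.smoothTransition.contDiff.comp ?_
      exact contDiff_const.sub ((contDiff_norm_sq ℝ).div_const _)
    exact Complex.ofRealCLM.contDiff.comp h1
  · refine closure_minimal (fun y hy => ?_) isClosed_closedBall
    by_contra h
    rw [mem_closedBall, dist_zero_right, not_le] at h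
    apply hy
    simp [hτ0 _ h.le]

/-- Weyl's lemma on a small ball. -/
private theorem H7b_local {Ω : Set (Ec n)} {u : Ec n → ℂ} (hu : LocallyIntegrableOn u Ω)
    (h : ∀ j, ∀ v, TF Ω v → ∫ z, u z * dk j v z = 0) {z₀ : Ec n} {R : ℝ} (hR : 0 < R)
    (hz₀ : closedBall z₀ (3 * R) ⊆ Ω) :
    ∃ F : Ec n → ℂ, DifferentiableOn ℂ F (ball z₀ R) ∧
      ∀ᵐ z ∂(volume.restrict (ball z₀ R)), u z = F z := by
  set K : Set (Ec n) := closedBall z₀ (3 * R) with hK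
  have hKm : MeasurableSet K := isClosed_closedBall.measurableSet
  have huK : IntegrableOn u K := hu.integrableOn_compact_subset hz₀ (isCompact_closedBall _ _)
  set f : Ec n → ℂ := K.indicator u with hf
  have hfi : Integrable f := (integrable_indicator_iff hKm).mpr huK
  have hfl : LocallyIntegrable f := hfi.locallyIntegrable
  have hfK : ∀ y ∈ K, f y = u y := fun y hy => Set.indicator_of_mem hy u
  have hsub : ∀ x ∈ ball z₀ (2 * R), closedBall x R ⊆ K := by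
    intro x hx y hy
    rw [mem_ball] at hx
    rw [mem_closedBall] at hy
    rw [hK, mem_closedBall]
    calc dist y z₀ ≤ dist y x + dist x z₀ := dist_triangle _ _ _
      _ ≤ 3 * R := by linarith
  have hhol : ∀ g : Ec n → ℂ, ContDiff ℝ ∞ g → tsupport g ⊆ closedBall 0 R →
      ∀ x ∈ ball z₀ (2 * R), DifferentiableAt ℂ (fun x => ∫ t, f t * g (x - t)) x := by
    intro g hg hgs x hx
    exact H7b_hol hfl hg hgs ((hsub x hx).trans hz₀) (fun y hy => hfK y (hsub x hx hy)) h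
  obtain ⟨ρ, hρc, hρ0, hρ1, hρs, hρt⟩ := H7b_radial n hR
  set g : Ec n → ℂ := fun y => ((ρ ‖y‖ : ℝ) : ℂ) with hg
  have hgc : HasCompactSupport g :=
    HasCompactSupport.of_support_subset_isCompact (isCompact_closedBall 0 R)
      ((subset_tsupport g).trans hρt)
  set F : Ec n → ℂ := fun x => ∫ t, f t * g (x - t) with hF
  have hFc : Continuous F :=
    hgc.continuous_convolution_right (ContinuousLinearMap.mul ℝ ℂ) hfl hρs.continuous
  have hball : ball z₀ R ⊆ ball z₀ (2 * R) := ball_subset_ball (by linarith)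
  refine ⟨F, fun x hx => (hhol g hρs hρt x (hball hx)).differentiableWithinAt, ?_⟩
  -- the approximate identity
  set φ : ℕ → ContDiffBump (0 : Ec n) := fun k =>
    ⟨R / (2 * (k + 1)), R / (k + 1), by positivity, by
      refine div_lt_div_of_pos_left hR (by positivity) ?_
      have : (0 : ℝ) ≤ k := Nat.cast_nonneg k
      linarith⟩ with hφ
  have hφ0 : Tendsto (fun k => (φ k).rOut) atTop (𝓝 0) := by
    have h1 : Tendsto (fun k : ℕ => R * (1 / ((k : ℝ) + 1))) atTop (𝓝 (R * 0)) :=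
      (tendsto_one_div_add_atTop_nhds_zero_nat (𝕜 := ℝ)).const_mul R
    rw [mul_zero] at h1
    refine h1.congr fun k => ?_
    show R * (1 / ((k : ℝ) + 1)) = R / (k + 1)
    ring
  have hφR : ∀ k, (φ k).rOut ≤ R := by
    intro k
    show R / ((k : ℝ) + 1) ≤ R
    refine div_le_self hR.le ?_
    have : (0 : ℝ) ≤ k := Nat.cast_nonneg k
    linarith
  have hae : ∀ᵐ x : Ec n, Tendsto
      (fun k => ((φ k).normed volume ⋆[ContinuousLinearMap.lsmul ℝ ℝ, volume] f) x)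
      atTop (𝓝 (f x)) := by
    refine ContDiffBump.ae_convolution_tendsto_right_of_locallyIntegrable (K := 2) hφ0
      (Eventually.of_forall fun k => ?_) hfl
    show R / ((k : ℝ) + 1) ≤ 2 * (R / (2 * (k + 1)))
    have h1 : (0 : ℝ) < (k : ℝ) + 1 := by positivity
    apply le_of_eq
    field_simp
  have hW : ∀ (k : ℕ) (x : Ec n),
      ((φ k).normed volume ⋆[ContinuousLinearMap.lsmul ℝ ℝ, volume] f) x =
        ∫ t, f t * (((φ k).normed volume (x - t) : ℝ) : ℂ) := by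
    intro k x
    rw [convolution_eq_swap]
    refine integral_congr_ae (Eventually.of_forall fun t => ?_)
    show ((φ k).normed volume (x - t)) • f t = f t * _
    rw [Complex.real_smul, mul_comm]
  rw [ae_restrict_iff' isOpen_ball.measurableSet]
  filter_upwards [hae] with z hz hzR
  have hzK : z ∈ K := by
    rw [hK]
    exact ball_subset_closedBall (ball_subset_ball (by linarith) hzR)
  rw [hfK z hzK] at hz
  refine tendsto_nhds_unique hz ?_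
  have hlim := ContDiffBump.convolution_tendsto_right_of_continuous (μ := volume) hφ0 hFc z
  refine hlim.congr fun k => ?_
  -- the mean value property for the mollified function
  set W : Ec n → ℂ := fun x => ∫ t, f t * (((φ k).normed volume (x - t) : ℝ) : ℂ) with hWdef
  have hWhol : DifferentiableOn ℂ W (ball z₀ (2 * R)) := by
    intro x hx
    refine (hhol (fun y => (((φ k).normed volume y : ℝ) : ℂ)) ?_ ?_ x hx).differentiableWithinAt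
    · exact Complex.ofRealCLM.contDiff.comp ((φ k).contDiff_normed)
    · refine closure_minimal (fun y hy => ?_) isClosed_closedBall
      have h1 : (φ k).normed volume y ≠ 0 := by
        intro h0
        apply hy
        simp [h0]
      have h2 : y ∈ Function.support ((φ k).normed volume) := h1
      rw [(φ k).support_normed_eq] at h2
      exact closedBall_subset_closedBall (hφR k) (ball_subset_closedBall h2)
  have hzsub : closedBall z R ⊆ ball z₀ (2 * R) := by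
    intro y hy
    rw [mem_closedBall] at hy
    rw [mem_ball] at hzR ⊢
    calc dist y z₀ ≤ dist y z + dist z z₀ := dist_triangle _ _ _
      _ < 2 * R := by linarith
  have hmean := mean_radial hR isOpen_ball hWhol hzsub hρc hρ0 hρ1
  have hsw := H7b_swap hfi hρs.continuous hgc ((φ k).integrable_normed (μ := volume)) z
  have hWk : ∀ x, W x = ∫ t, (φ k).normed volume t • f (x - t) := fun x => (hW k x).symm
  calc ((φ k).normed volume ⋆[ContinuousLinearMap.lsmul ℝ ℝ, volume] F) z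
      = ∫ t, (φ k).normed volume t • (∫ y, f y * g (z - t - y)) := rfl
    _ = ∫ y, g y * (∫ t, (φ k).normed volume t • f (z - y - t)) := hsw.symm
    _ = ∫ y, ((ρ ‖y‖ : ℝ) : ℂ) * W (z - y) := by
        refine integral_congr_ae (Eventually.of_forall fun y => ?_)
        show g y * _ = g y * _
        rw [hWk]
    _ = W z := hmean
    _ = _ := (hW k z).symm

/-- Weyl's lemma.
PROOF. For `ε > 0` let `ρ_ε` be a smooth radial non negative function with support in the closed ball of radius `ε` and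
integral `1` (`ContDiffBump.normed` of the bump at `0` is radial: it depends only on `‖y‖` in an inner product space; or
`y ↦ C ε^{-2n} smoothTransition (1 - ‖y‖² / ε²)`). On `Ω_ε = {z | closedBall z ε ⊆ Ω}` (open) let
`u_ε z = ∫ ρ_ε (z - y) u y`. It is smooth, and `dk j u_ε z = ∫ (∂̄_j ρ_ε) (z - y) u y = 0` by the hypothesis, because
`y ↦ ρ_ε (z - y)` is a test function in `Ω` (its `dk j` is minus `(∂̄_j ρ_ε)(z - y)`). So `u_ε` is holomorphic on `Ω_ε`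
(`hol_of_dk`). By Fubini `ρ_δ ⋆ u_ε = ρ_ε ⋆ u_δ` on `Ω_(ε + δ)`, so by `mean_radial` `u_ε = u_δ` on `Ω_(ε + δ)` and, by
connecting small parameters or by a third parameter, on `Ω_ε ∩ Ω_δ ∩ ..`; let
`F z = u_ε z` for any `ε` with `closedBall z (2 ε) ⊆ Ω`: well defined and holomorphic. Finally `u_ε → u` in `L¹` on compact
subsets of `Ω` (or almost everywhere, at the Lebesgue points: `ContDiffBump.ae_convolution_tendsto_right_of_locallyIntegrable` for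
`u` cut off to a compact set), so `u = F` almost everywhere on `Ω`. -/
theorem weyl {Ω : Set (Ec n)} (hΩ : IsOpen Ω) {u : Ec n → ℂ} (hu : LocallyIntegrableOn u Ω)
    (h : ∀ j, ∀ v, TF Ω v → ∫ z, u z * dk j v z = 0) :
    ∃ F : Ec n → ℂ, DifferentiableOn ℂ F Ω ∧ ∀ᵐ z ∂(volume.restrict Ω), u z = F z := by
  have hex : ∀ z ∈ Ω, ∃ (R : ℝ) (F : Ec n → ℂ), 0 < R ∧ ball z R ⊆ Ω ∧
      DifferentiableOn ℂ F (ball z R) ∧ ∀ᵐ w ∂(volume.restrict (ball z R)), u w = F w := by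
    intro z hz
    obtain ⟨r, hr, hrs⟩ := Metric.isOpen_iff.mp hΩ z hz
    have h1 : closedBall z (3 * (r / 4)) ⊆ Ω :=
      (closedBall_subset_ball (by linarith)).trans hrs
    obtain ⟨F, hF1, hF2⟩ := H7b_local hu h (by positivity : 0 < r / 4) h1
    exact ⟨r / 4, F, by positivity, (ball_subset_ball (by linarith)).trans hrs, hF1, hF2⟩
  choose! R F hR hRs hF1 hF2 using hex
  have hagree : ∀ z ∈ Ω, ∀ w ∈ Ω, Set.EqOn (F z) (F w) (ball z (R z) ∩ ball w (R w)) := by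
    intro z hz w hw
    refine Measure.eqOn_open_of_ae_eq (μ := volume) ?_ (isOpen_ball.inter isOpen_ball)
      ((hF1 z hz).continuousOn.mono inter_subset_left)
      ((hF1 w hw).continuousOn.mono inter_subset_right)
    have h1 := ae_restrict_of_ae_restrict_of_subset (inter_subset_left (t := ball w (R w)))
      (hF2 z hz)
    have h2 := ae_restrict_of_ae_restrict_of_subset (inter_subset_right (s := ball z (R z)))
      (hF2 w hw)
    filter_upwards [h1, h2] with y hy1 hy2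
    rw [← hy1, hy2]
  have hloc : ∀ z ∈ Ω, Set.EqOn (fun w => F w w) (F z) (ball z (R z)) := by
    intro z hz w hw
    have hwΩ := hRs z hz hw
    exact hagree w hwΩ z hz ⟨mem_ball_self (hR w hwΩ), hw⟩
  refine ⟨fun w => F w w, fun z hz => ?_, ?_⟩
  · have h1 : DifferentiableAt ℂ (F z) z :=
      (hF1 z hz).differentiableAt (isOpen_ball.mem_nhds (mem_ball_self (hR z hz)))
    have h2 : (fun w => F w w) =ᶠ[𝓝 z] F z :=
      (hloc z hz).eventuallyEq_of_mem (isOpen_ball.mem_nhds (mem_ball_self (hR z hz)))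
    exact (h1.congr_of_eventuallyEq h2).differentiableWithinAt
  · rw [ae_restrict_iff' hΩ.measurableSet, ae_iff]
    refine measure_null_of_locally_null _ fun z hz => ?_
    have hzΩ : z ∈ Ω := by
      by_contra hcon
      exact hz fun h => absurd h hcon
    refine ⟨{w | ¬(w ∈ Ω → u w = F w w)} ∩ ball z (R z),
      inter_mem_nhdsWithin _ (isOpen_ball.mem_nhds (mem_ball_self (hR z hzΩ))), ?_⟩
    have h1 := hF2 z hzΩ
    rw [ae_restrict_iff' isOpen_ball.measurableSet, ae_iff] at h1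
    refine measure_mono_null ?_ h1
    rintro w ⟨hw1, hw2⟩ hcon
    apply hw1
    intro _
    rw [hcon hw2]
    exact (hloc z hzΩ hw2).symm

end Pool.Agent.MPca0fc2.LV
end
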