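import Pool.Agent.Lib.MP_ca0fc2_an.Mg.G067
import Pool.Agent.Lib.MP_ca0fc2_an.Mg.G059

section

/-! The basic inequality for weakly closed forms. -/

set_option autoImplicit false

open Metric Set MeasureTheory Filter Topology
open scoped ContDiff

namespace Pool.Agent.MPca0fc2.LV

open Pool.Agent.MPca0fc2.FD (Ec ee)

variable {n : ℕ} {Ω : Set (Ec n)} {φ σ : Ec n → ℝ} {η : ℕ → Ec n → ℝ}

private theorem H4_zero {v : Ec n → ℂ} (hv : TF Ω v) {z : Ec n} (hz : z ∉ Ω) (k : Fin n) :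
    v z = 0 ∧ dj k v z = 0 ∧ dk k v z = 0 := by
  have h1 : z ∉ tsupport v := fun h => hz (hv.sub h)
  have h2 : fderiv ℝ v z = 0 := fderiv_of_notMem_tsupport ℝ h1
  refine ⟨image_eq_zero_of_notMem_tsupport h1, ?_, ?_⟩
  · simp [dj, h2]
  · simp [dk, h2]

private theorem H4_dr_zero {ρ : Ec n → ℝ} {z : Ec n} (hz : z ∉ tsupport ρ) (k : Fin n) :
    dr ρ z k = 0 := by
  have h2 : fderiv ℝ ρ z = 0 := fderiv_of_notMem_tsupport ℝ hz
  simp [dr, h2]

private theorem H4_memLp {K : Set (Ec n)} (hK : IsCompact K) (hKΩ : K ⊆ Ω)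
    {u b : Ec n → ℂ} {W : Ec n → ℝ} (hu : AEStronglyMeasurable u (volume.restrict Ω))
    (hW : ContinuousOn W Ω) (hW0 : ∀ z ∈ Ω, 0 < W z)
    (hi : IntegrableOn (fun z => ‖u z‖ ^ 2 * W z) Ω)
    (hb : ContinuousOn b Ω) (hb0 : ∀ z ∉ K, b z = 0) :
    MemLp (fun z => u z * b z) 2 volume := by
  have h1 : AEStronglyMeasurable (fun z => u z * b z) (volume.restrict K) :=
    (hu.mono_set hKΩ).mul ((hb.mono hKΩ).aestronglyMeasurable hK.measurableSet)
  have hind : K.indicator (fun z => u z * b z) = fun z => u z * b z := by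
    rw [Set.indicator_eq_self]
    intro z hz
    by_contra hzK
    exact hz (by simp [hb0 z hzK])
  have hm : AEStronglyMeasurable (fun z => u z * b z) volume := by
    rw [← hind]
    exact (aestronglyMeasurable_indicator_iff hK.measurableSet).2 h1
  rw [memLp_two_iff_integrable_sq_norm hm]
  have hsupp : Function.support (fun z => ‖u z * b z‖ ^ 2) ⊆ K := by
    intro z hz
    by_contra hzK
    exact hz (by simp [hb0 z hzK])
  rw [← integrableOn_iff_integrable_of_support_subset hsupp]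
  obtain ⟨C, hC⟩ := hK.exists_bound_of_continuousOn (hb.mono hKΩ)
  obtain ⟨C', hC'⟩ := hK.exists_bound_of_continuousOn
    ((hW.mono hKΩ).inv₀ (fun z hz => (hW0 z (hKΩ hz)).ne'))
  refine Integrable.mono' ((hi.mono_set hKΩ).const_mul (C ^ 2 * C')) (h1.norm.pow 2) ?_
  filter_upwards [ae_restrict_mem hK.measurableSet] with z hz
  have hWz := hW0 z (hKΩ hz)
  have hb1 := hC z hz
  have hW1 := hC' z hz
  rw [Pi.inv_apply, Real.norm_eq_abs, abs_inv, abs_of_pos hWz] at hW1
  have hC0 : 0 ≤ C := (norm_nonneg _).trans hb1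
  rw [Real.norm_eq_abs, abs_of_nonneg (by positivity), norm_mul, mul_pow]
  have h3 : ‖b z‖ ^ 2 ≤ C ^ 2 := pow_le_pow_left₀ (norm_nonneg _) hb1 2
  have h4 : 1 ≤ C' * W z := by
    have := mul_le_mul_of_nonneg_right hW1 hWz.le
    rwa [inv_mul_cancel₀ hWz.ne'] at this
  calc ‖u z‖ ^ 2 * ‖b z‖ ^ 2 ≤ ‖u z‖ ^ 2 * C ^ 2 :=
        mul_le_mul_of_nonneg_left h3 (by positivity)
    _ = ‖u z‖ ^ 2 * C ^ 2 * 1 := by ring
    _ ≤ ‖u z‖ ^ 2 * C ^ 2 * (C' * W z) := mul_le_mul_of_nonneg_left h4 (by positivity)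
    _ = C ^ 2 * C' * (‖u z‖ ^ 2 * W z) := by ring

private theorem H4_exp {z : Ec n} (hφ : DifferentiableAt ℝ φ z) (hσ : DifferentiableAt ℝ σ z)
    (k : Fin n) : dj k (fun w => (Real.exp (φ w - σ w) : ℂ)) z =
      (Real.exp (φ z - σ z) : ℂ) * (dr φ z k - dr σ z k) := by
  have h1 : HasFDerivAt (fun w => Real.exp (φ w - σ w))
      (Real.exp (φ z - σ z) • (fderiv ℝ φ z - fderiv ℝ σ z)) z :=
    (hφ.hasFDerivAt.sub hσ.hasFDerivAt).exp
  rw [(dj_real h1.differentiableAt k).1]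
  simp only [dr, h1.fderiv]
  simp only [smul_apply, sub_apply, smul_eq_mul]
  push_cast
  ring

private theorem H4_sum (a b : Fin n → ℝ) : ∑ j, ∑ k, (2 * (a k * b j) + 2 * (a j * b k)) =
    4 * ((∑ j, a j) * ∑ j, b j) := by
  have h5 : ∑ j, ∑ k, a k * b j = (∑ j, a j) * ∑ j, b j := by
    rw [Finset.sum_comm, Finset.sum_mul_sum]
  have h6 : ∑ j, ∑ k, a j * b k = (∑ j, a j) * ∑ j, b j := by
    rw [Finset.sum_mul_sum]
  have h7 : ∑ j, ∑ k, (2 * (a k * b j) + 2 * (a j * b k)) =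
      ∑ j, (2 * ∑ k, a k * b j + 2 * ∑ k, a j * b k) := by
    refine Finset.sum_congr rfl fun j _ => ?_
    rw [Finset.sum_add_distrib, Finset.mul_sum, Finset.mul_sum]
  rw [h7, Finset.sum_add_distrib, ← Finset.mul_sum, ← Finset.mul_sum, h5, h6]
  ring

private theorem H4_TFη (h : WT Ω φ σ η) (i : ℕ) : TF Ω fun z => (η i z : ℂ) := by
  have hs : tsupport (fun z => (η i z : ℂ)) ⊆ tsupport (η i) := by
    refine closure_mono ?_
    intro z hz
    simpa using hz
  refine ⟨Complex.ofRealCLM.contDiff.comp (h.ηsm i), ?_, hs.trans (h.ηs i)⟩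
  exact (h.ηc i).of_isClosed_subset (isClosed_tsupport _) hs

/-- The inequality for one cut-off function.
PROOF. Let `η = η i`, `K = tsupport η`, compact in `Ω`. `f j = η g_j` (extended by `0` outside `Ω`), in `L²`, since `exp (σ - φ)` is bounded
below on `K`. Weak divergence of `f`: for a test function `v` (on the whole space), `η v` is a test function in `Ω`, so
is `η v e^{φ - σ}` (`TF_mul`). `hT` with `v e^{φ - σ} η` in the place of `v`:
`∫ ∑ g_j (∂_j (η v) + η v ∂_j (φ - σ)) = ∫ w η v e^σ`, that is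
`∫ ∑ η g_j ∂_j v = -∫ D v` with `D = ∑ g_j ∂_j η + η ∑ g_j ∂_j (φ - σ) - η w e^σ`. The curl:
`hcl` with `η v`: `∫ (η g_k ∂̄_j v - η g_j ∂̄_k v) = -∫ (g_k ∂̄_j η - g_j ∂̄_k η) v`. `basic_L2`; `D - ∑ η g_j ∂_j (φ - σ) =
∑ g_j ∂_j η - η w e^σ`. (`dk j η = conj (dr η z j)`.) -/
theorem basic_cut (h : WT Ω φ σ η) {g : Fin n → Ec n → ℂ} {w : Ec n → ℂ}
    (hg : ∀ j, AEStronglyMeasurable (g j) (volume.restrict Ω))
    (hgi : IntegrableOn (fun z => (∑ j, ‖g j z‖ ^ 2) * Real.exp (σ z - φ z)) Ω)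
    (hw : AEStronglyMeasurable w (volume.restrict Ω))
    (hwi : IntegrableOn (fun z => ‖w z‖ ^ 2 * Real.exp (2 * σ z - φ z)) Ω)
    (hcl : ∀ v, TF Ω v → ∀ j k, ∫ z, g k z * dk j v z = ∫ z, g j z * dk k v z)
    (hT : ∀ v, TF Ω v → ∫ z, (∑ j, g j z * dj j v z) * (Real.exp (σ z - φ z) : ℂ) =
      ∫ z, w z * v z * (Real.exp (2 * σ z - φ z) : ℂ)) (i : ℕ) :
    ∫ z in Ω, (η i z) ^ 2 * (∑ j, ‖g j z‖ ^ 2) * Real.exp (σ z - φ z) ≤
      (∫ z in Ω, ‖(∑ j, g j z * dr (η i) z j) - η i z * w z * (Real.exp (σ z) : ℂ)‖ ^ 2 *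
        Real.exp (-φ z)) +
        (1 / 4) * ∫ z in Ω, (∑ j, ∑ k, ‖g k z * (starRingEnd ℂ) (dr (η i) z j) -
          g j z * (starRingEnd ℂ) (dr (η i) z k)‖ ^ 2) * Real.exp (-φ z) := by
  classical
  have hΩ := h.opn
  set K : Set (Ec n) := tsupport (η i) with hKdef
  have hK : IsCompact K := h.ηc i
  have hKΩ : K ⊆ Ω := h.ηs i
  have hη0 : ∀ z ∉ K, η i z = 0 := fun z hz => image_eq_zero_of_notMem_tsupport hz
  have hdη0 : ∀ z ∉ K, ∀ j, dr (η i) z j = 0 := fun z hz j => H4_dr_zero hz j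
  have hTη : TF Ω fun z => (η i z : ℂ) := H4_TFη h i
  -- continuity
  have cη : ContinuousOn (fun z => (η i z : ℂ)) Ω := hTη.sm.continuous.continuousOn
  have cdη : ∀ j, ContinuousOn (fun z => dr (η i) z j) Ω := fun j =>
    (dr_smooth hΩ (h.ηsm i).contDiffOn j).continuousOn
  have cdηc : ∀ j, ContinuousOn (fun z => (starRingEnd ℂ) (dr (η i) z j)) Ω := fun j =>
    Complex.continuous_conj.comp_continuousOn (cdη j)
  have cdφ : ∀ j, ContinuousOn (fun z => dr φ z j) Ω := fun j =>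
    (dr_smooth hΩ h.smφ j).continuousOn
  have cdσ : ∀ j, ContinuousOn (fun z => dr σ z j) Ω := fun j =>
    (dr_smooth hΩ h.smσ j).continuousOn
  have cφ : ContinuousOn φ Ω := h.smφ.continuousOn
  have cσ : ContinuousOn σ Ω := h.smσ.continuousOn
  have cW1 : ContinuousOn (fun z => Real.exp (σ z - φ z)) Ω := (cσ.sub cφ).rexp
  have cW2 : ContinuousOn (fun z => Real.exp (2 * σ z - φ z)) Ω :=
    ((continuousOn_const.mul cσ).sub cφ).rexp
  have cE : ContinuousOn (fun z => (Real.exp (σ z) : ℂ)) Ω :=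
    Complex.continuous_ofReal.comp_continuousOn cσ.rexp
  have hgj : ∀ j, IntegrableOn (fun z => ‖g j z‖ ^ 2 * Real.exp (σ z - φ z)) Ω := by
    intro j
    refine Integrable.mono' hgi (((hg j).norm.pow 2).mul
      (cW1.aestronglyMeasurable hΩ.measurableSet)) ?_
    filter_upwards with z
    rw [Real.norm_eq_abs, abs_of_nonneg (by positivity)]
    refine mul_le_mul_of_nonneg_right ?_ (Real.exp_pos _).le
    exact Finset.single_le_sum (f := fun j => ‖g j z‖ ^ 2) (fun j _ => by positivity)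
      (Finset.mem_univ j)
  have mg : ∀ j, ∀ b : Ec n → ℂ, ContinuousOn b Ω → (∀ z ∉ K, b z = 0) →
      MemLp (fun z => g j z * b z) 2 volume := fun j b hb hb0 =>
    H4_memLp hK hKΩ (hg j) cW1 (fun z _ => Real.exp_pos _) (hgj j) hb hb0
  have mw : ∀ b : Ec n → ℂ, ContinuousOn b Ω → (∀ z ∉ K, b z = 0) →
      MemLp (fun z => w z * b z) 2 volume := fun b hb hb0 =>
    H4_memLp hK hKΩ hw cW2 (fun z _ => Real.exp_pos _) hwi hb hb0
  -- the functions
  set f : Fin n → Ec n → ℂ := fun j z => g j z * (η i z : ℂ) with hfdef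
  set R : Ec n → ℂ := fun z => ∑ j, g j z * (dr (η i) z j + (η i z : ℂ) * (dr φ z j - dr σ z j))
    with hRdef
  set B : Ec n → ℂ := fun z => w z * ((η i z : ℂ) * (Real.exp (σ z) : ℂ)) with hBdef
  set D : Ec n → ℂ := fun z => R z - B z with hDdef
  set c : Fin n → Fin n → Ec n → ℂ := fun j k z =>
    g k z * (starRingEnd ℂ) (dr (η i) z j) - g j z * (starRingEnd ℂ) (dr (η i) z k) with hcdef
  have mf : ∀ j, MemLp (f j) 2 volume := fun j => mg j _ cη (fun z hz => by simp [hη0 z hz])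
  have mR : MemLp R 2 volume := by
    refine memLp_finsetSum (p := 2) (μ := volume) (f := fun j z =>
      g j z * (dr (η i) z j + (η i z : ℂ) * (dr φ z j - dr σ z j))) Finset.univ (fun j _ => ?_)
    refine mg j _ ((cdη j).add (cη.mul ((cdφ j).sub (cdσ j)))) (fun z hz => ?_)
    simp [hη0 z hz, hdη0 z hz]
  have mB : MemLp B 2 volume := mw _ (cη.mul cE) (fun z hz => by simp [hη0 z hz])
  have mD : MemLp D 2 volume := mR.sub mB
  have mc : ∀ j k, MemLp (c j k) 2 volume := fun j k =>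
    (mg k _ (cdηc j) (fun z hz => by simp [hdη0 z hz])).sub
      (mg j _ (cdηc k) (fun z hz => by simp [hdη0 z hz]))
  have mTF : ∀ v : Ec n → ℂ, TF univ v → MemLp v 2 volume := fun v hv =>
    hv.sm.continuous.memLp_of_hasCompactSupport hv.cpt
  have hint : ∀ u v : Ec n → ℂ, MemLp u 2 volume → TF univ v →
      Integrable (fun z => u z * v z) volume := fun u v hu hv =>
    MemLp.integrable_mul hu (mTF v hv)
  have he : ContDiffOn ℝ ∞ (fun z => (Real.exp (φ z - σ z) : ℂ)) Ω :=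
    Complex.ofRealCLM.contDiff.comp_contDiffOn (h.smφ.sub h.smσ).exp
  have hηd : ∀ z, DifferentiableAt ℝ (η i) z := fun z =>
    ((h.ηsm i).differentiable (by simp)) z
  have hηcd : ∀ z, DifferentiableAt ℝ (fun z => (η i z : ℂ)) z := fun z =>
    (hTη.sm.differentiable (by simp)) z
  have hφd : ∀ z ∈ Ω, DifferentiableAt ℝ φ z := fun z hz =>
    (h.smφ.contDiffAt (hΩ.mem_nhds hz)).differentiableAt (by simp)
  have hσd : ∀ z ∈ Ω, DifferentiableAt ℝ σ z := fun z hz =>
    (h.smσ.contDiffAt (hΩ.mem_nhds hz)).differentiableAt (by simp)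
  -- the divergence
  have hdiv : ∀ v, TF univ v → ∫ z, ∑ j, f j z * dj j v z = -∫ z, D z * v z := by
    intro v hv
    have hvd : ∀ z, DifferentiableAt ℝ v z := fun z => (hv.sm.differentiable (by simp)) z
    have hv1 : TF Ω (fun z => v z * (η i z : ℂ)) := TF_mul hΩ hv.sm.contDiffOn hTη
    have hV : TF Ω (fun z => (Real.exp (φ z - σ z) : ℂ) * (v z * (η i z : ℂ))) :=
      TF_mul hΩ he hv1
    have hTV := hT _ hV
    have hL : ∀ z, (∑ j, g j z * dj j (fun z => (Real.exp (φ z - σ z) : ℂ) *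
        (v z * (η i z : ℂ))) z) * (Real.exp (σ z - φ z) : ℂ) =
        (∑ j, f j z * dj j v z) + R z * v z := by
      intro z
      by_cases hz : z ∈ Ω
      · rw [Finset.sum_mul, hRdef, Finset.sum_mul, ← Finset.sum_add_distrib]
        refine Finset.sum_congr rfl fun j _ => ?_
        have hed : DifferentiableAt ℝ (fun z => (Real.exp (φ z - σ z) : ℂ)) z :=
          (he.contDiffAt (hΩ.mem_nhds hz)).differentiableAt (by simp)
        have hvη : DifferentiableAt ℝ (fun z => v z * (η i z : ℂ)) z := (hvd z).mul (hηcd z)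
        rw [(dj_mul hed hvη j).1, (dj_mul (hvd z) (hηcd z) j).1,
          (dj_real (hηd z) j).1, H4_exp (hφd z hz) (hσd z hz)]
        have hexp : (Real.exp (φ z - σ z) : ℂ) * (Real.exp (σ z - φ z) : ℂ) = 1 := by
          rw [← Complex.ofReal_mul, ← Real.exp_add]
          simp
        simp only [hfdef]
        linear_combination (g j z * ((dr φ z j - dr σ z j) * (v z * (η i z : ℂ)) +
          (dj j v z * (η i z : ℂ) + v z * dr (η i) z j))) * hexp
      · have hzK : z ∉ K := fun hh => hz (hKΩ hh)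
        have h0 : ∀ j, dj j (fun z => (Real.exp (φ z - σ z) : ℂ) *
            (v z * (η i z : ℂ))) z = 0 := fun j => (H4_zero hV hz j).2.1
        simp only [h0, mul_zero, Finset.sum_const_zero, zero_mul]
        simp [hfdef, hRdef, hη0 z hzK, hdη0 z hzK]
    have hR : ∀ z, w z * ((Real.exp (φ z - σ z) : ℂ) * (v z * (η i z : ℂ))) *
        (Real.exp (2 * σ z - φ z) : ℂ) = B z * v z := by
      intro z
      have hexp : (Real.exp (φ z - σ z) : ℂ) * (Real.exp (2 * σ z - φ z) : ℂ) =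
          (Real.exp (σ z) : ℂ) := by
        rw [← Complex.ofReal_mul, ← Real.exp_add]
        congr 2
        ring
      simp only [hBdef]
      linear_combination (w z * (v z * (η i z : ℂ))) * hexp
    simp only [hL, hR] at hTV
    have i1 : Integrable (fun z => ∑ j, f j z * dj j v z) volume :=
      integrable_finsetSum _ fun j _ => hint _ _ (mf j) (TF_dj hv j).1
    have i2 := hint _ _ mR hv
    have i3 := hint _ _ mB hv
    rw [integral_add i1 i2] at hTV
    have hDv : ∫ z, D z * v z = (∫ z, R z * v z) - ∫ z, B z * v z := by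
      rw [← integral_sub i2 i3]
      refine integral_congr_ae (Filter.Eventually.of_forall fun z => ?_)
      simp only [hDdef]
      ring
    rw [hDv, ← hTV]
    ring
  -- the curl
  have hcurl : ∀ v, TF univ v → ∀ j k,
      ∫ z, (f k z * dk j v z - f j z * dk k v z) = -∫ z, c j k z * v z := by
    intro v hv j k
    have hvd : ∀ z, DifferentiableAt ℝ v z := fun z => (hv.sm.differentiable (by simp)) z
    have hv1 : TF Ω (fun z => v z * (η i z : ℂ)) := TF_mul hΩ hv.sm.contDiffOn hTη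
    have hclV := hcl _ hv1 j k
    have hP : ∀ a b z, g a z * dk b (fun z => v z * (η i z : ℂ)) z =
        f a z * dk b v z + (g a z * (starRingEnd ℂ) (dr (η i) z b)) * v z := by
      intro a b z
      rw [(dj_mul (hvd z) (hηcd z) b).2, (dj_real (hηd z) b).2]
      simp only [hfdef]
      ring
    simp only [hP] at hclV
    have i1 : ∀ a b, Integrable (fun z => f a z * dk b v z) volume := fun a b =>
      hint _ _ (mf a) (TF_dj hv b).2
    have i2 : ∀ a b, Integrable (fun z => (g a z * (starRingEnd ℂ) (dr (η i) z b)) * v z)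
        volume := fun a b => hint _ _ (mg a _ (cdηc b) (fun z hz => by simp [hdη0 z hz])) hv
    rw [integral_add (i1 k j) (i2 k j), integral_add (i1 j k) (i2 j k)] at hclV
    have hcv : ∫ z, c j k z * v z = (∫ z, (g k z * (starRingEnd ℂ) (dr (η i) z j)) * v z) -
        ∫ z, (g j z * (starRingEnd ℂ) (dr (η i) z k)) * v z := by
      rw [← integral_sub (i2 k j) (i2 j k)]
      refine integral_congr_ae (Filter.Eventually.of_forall fun z => ?_)
      simp only [hcdef]
      ring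
    rw [hcv, integral_sub (i1 k j) (i1 j k)]
    linear_combination hclV
  have hmain := basic_L2 hΩ h.smφ h.smσ h.lev hK hKΩ mf
    (fun j z hz => by simp [hfdef, hη0 z hz]) mD
    (fun z hz => by simp [hDdef, hRdef, hBdef, hη0 z hz, hdη0 z hz]) mc
    (fun j k z hz => by simp [hcdef, hdη0 z hz]) hdiv hcurl
  have e1 : ∫ z in Ω, (η i z) ^ 2 * (∑ j, ‖g j z‖ ^ 2) * Real.exp (σ z - φ z) =
      ∫ z, (∑ j, ‖f j z‖ ^ 2) * Real.exp (σ z - φ z) := by
    rw [setIntegral_eq_integral_of_forall_compl_eq_zero]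
    · refine integral_congr_ae (Filter.Eventually.of_forall fun z => ?_)
      simp only [hfdef, norm_mul, mul_pow, ← Finset.sum_mul, Complex.norm_real,
        Real.norm_eq_abs, sq_abs]
      ring
    · intro z hz
      have hzK : z ∉ K := fun hh => hz (hKΩ hh)
      simp [hη0 z hzK]
  have e2 : ∫ z in Ω, ‖(∑ j, g j z * dr (η i) z j) - η i z * w z * (Real.exp (σ z) : ℂ)‖ ^ 2 *
      Real.exp (-φ z) = ∫ z, ‖D z - ∑ j, f j z * (dr φ z j - dr σ z j)‖ ^ 2 *
        Real.exp (-φ z) := by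
    rw [setIntegral_eq_integral_of_forall_compl_eq_zero]
    · refine integral_congr_ae (Filter.Eventually.of_forall fun z => ?_)
      have : (∑ j, g j z * dr (η i) z j) - η i z * w z * (Real.exp (σ z) : ℂ) =
          D z - ∑ j, f j z * (dr φ z j - dr σ z j) := by
        simp only [hDdef, hRdef, hBdef, hfdef, mul_add, Finset.sum_add_distrib]
        have h1 : ∀ j, g j z * ((η i z : ℂ) * (dr φ z j - dr σ z j)) =
            g j z * (η i z : ℂ) * (dr φ z j - dr σ z j) := fun j => by ring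
        simp only [h1]
        ring
      simp only [this]
    · intro z hz
      have hzK : z ∉ K := fun hh => hz (hKΩ hh)
      simp [hη0 z hzK, hdη0 z hzK]
  have e3 : ∫ z in Ω, (∑ j, ∑ k, ‖g k z * (starRingEnd ℂ) (dr (η i) z j) -
      g j z * (starRingEnd ℂ) (dr (η i) z k)‖ ^ 2) * Real.exp (-φ z) =
      ∫ z, (∑ j, ∑ k, ‖c j k z‖ ^ 2) * Real.exp (-φ z) := by
    rw [setIntegral_eq_integral_of_forall_compl_eq_zero]
    intro z hz
    have hzK : z ∉ K := fun hh => hz (hKΩ hh)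
    simp [hdη0 z hzK]
  rw [e1, e2, e3]
  exact hmain

/-- The basic inequality for weakly closed forms.
PROOF. `basic_cut` for all `i`, and let `i → ∞` by dominated convergence: the left side tends to the left side
(`η i z → 1`, dominated by `hgi`), `|∑ g_j ∂_j η|² e^{-φ} ≤ (∑ |g_j|²) e^σ e^{-φ}` (`WT.ηg`, Cauchy-Schwarz), and
`|η w e^σ|² e^{-φ} ≤ |w|² e^{2σ - φ}`, so the first integrand on the right is at most `2 (..) + 2 (..)`, integrable, and tends to
`|w|² e^{2σ} e^{-φ}`; the last integrand is at most `C(n) (∑ |g_j|²) e^{σ - φ}` and tends to `0`. -/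
theorem basic_weak (h : WT Ω φ σ η) {g : Fin n → Ec n → ℂ} {w : Ec n → ℂ}
    (hg : ∀ j, AEStronglyMeasurable (g j) (volume.restrict Ω))
    (hgi : IntegrableOn (fun z => (∑ j, ‖g j z‖ ^ 2) * Real.exp (σ z - φ z)) Ω)
    (hw : AEStronglyMeasurable w (volume.restrict Ω))
    (hwi : IntegrableOn (fun z => ‖w z‖ ^ 2 * Real.exp (2 * σ z - φ z)) Ω)
    (hcl : ∀ v, TF Ω v → ∀ j k, ∫ z, g k z * dk j v z = ∫ z, g j z * dk k v z)
    (hT : ∀ v, TF Ω v → ∫ z, (∑ j, g j z * dj j v z) * (Real.exp (σ z - φ z) : ℂ) =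
      ∫ z, w z * v z * (Real.exp (2 * σ z - φ z) : ℂ)) :
    ∫ z in Ω, (∑ j, ‖g j z‖ ^ 2) * Real.exp (σ z - φ z) ≤
      ∫ z in Ω, ‖w z‖ ^ 2 * Real.exp (2 * σ z - φ z) := by
  classical
  have hΩ := h.opn
  have hmΩ : MeasurableSet Ω := hΩ.measurableSet
  have cφ : ContinuousOn φ Ω := h.smφ.continuousOn
  have cσ : ContinuousOn σ Ω := h.smσ.continuousOn
  have mW1 : AEStronglyMeasurable (fun z => Real.exp (σ z - φ z)) (volume.restrict Ω) :=
    (cσ.sub cφ).rexp.aestronglyMeasurable hmΩ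
  have mW0 : AEStronglyMeasurable (fun z => Real.exp (-φ z)) (volume.restrict Ω) :=
    cφ.neg.rexp.aestronglyMeasurable hmΩ
  have mE : AEStronglyMeasurable (fun z => (Real.exp (σ z) : ℂ)) (volume.restrict Ω) :=
    (Complex.continuous_ofReal.comp_continuousOn cσ.rexp).aestronglyMeasurable hmΩ
  have mη : ∀ i, AEStronglyMeasurable (fun z => η i z) (volume.restrict Ω) := fun i =>
    (h.ηsm i).continuous.aestronglyMeasurable
  have mηc : ∀ i, AEStronglyMeasurable (fun z => (η i z : ℂ)) (volume.restrict Ω) := fun i =>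
    (Complex.continuous_ofReal.comp (h.ηsm i).continuous).aestronglyMeasurable
  have mdη : ∀ i j, AEStronglyMeasurable (fun z => dr (η i) z j) (volume.restrict Ω) :=
    fun i j => (dr_smooth hΩ (h.ηsm i).contDiffOn j).continuousOn.aestronglyMeasurable hmΩ
  have mdηc : ∀ i j, AEStronglyMeasurable (fun z => (starRingEnd ℂ) (dr (η i) z j))
      (volume.restrict Ω) := fun i j =>
    Complex.continuous_conj.comp_aestronglyMeasurable (mdη i j)
  have mS : AEStronglyMeasurable (fun z => ∑ j, ‖g j z‖ ^ 2) (volume.restrict Ω) :=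
    Finset.aestronglyMeasurable_fun_sum _ fun j _ => (hg j).norm.pow 2
  have hS0 : ∀ z, 0 ≤ ∑ j, ‖g j z‖ ^ 2 := fun z => Finset.sum_nonneg fun j _ => by positivity
  -- the first limit
  have t1 : Tendsto (fun i => ∫ z in Ω, (η i z) ^ 2 * (∑ j, ‖g j z‖ ^ 2) *
      Real.exp (σ z - φ z)) atTop (𝓝 (∫ z in Ω, (∑ j, ‖g j z‖ ^ 2) * Real.exp (σ z - φ z))) := by
    refine tendsto_integral_of_dominated_convergence
      (fun z => (∑ j, ‖g j z‖ ^ 2) * Real.exp (σ z - φ z))
      (fun i => (((mη i).pow 2).mul mS).mul mW1) hgi ?_ ?_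
    · intro i
      filter_upwards with z
      have h1 := h.η0 i z
      have h2 := h.η1 i z
      rw [Real.norm_eq_abs, abs_of_nonneg (mul_nonneg (mul_nonneg (by positivity) (hS0 z))
        (Real.exp_pos _).le)]
      refine mul_le_mul_of_nonneg_right ?_ (Real.exp_pos _).le
      have h3 : (η i z) ^ 2 ≤ 1 := by nlinarith
      calc (η i z) ^ 2 * ∑ j, ‖g j z‖ ^ 2 ≤ 1 * ∑ j, ‖g j z‖ ^ 2 :=
            mul_le_mul_of_nonneg_right h3 (hS0 z)
        _ = _ := one_mul _
    · filter_upwards [ae_restrict_mem hmΩ] with z hz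
      refine tendsto_const_nhds.congr' ?_
      filter_upwards [h.ηe z hz] with i hi
      rw [hi.1]
      ring
  have hCS : ∀ i z, z ∈ Ω → ‖∑ j, g j z * dr (η i) z j‖ ^ 2 ≤
      (∑ j, ‖g j z‖ ^ 2) * Real.exp (σ z) := by
    intro i z hz
    have h1 : ‖∑ j, g j z * dr (η i) z j‖ ≤ ∑ j, ‖g j z‖ * ‖dr (η i) z j‖ := by
      refine (norm_sum_le _ _).trans (le_of_eq ?_)
      exact Finset.sum_congr rfl fun j _ => norm_mul _ _
    have h2 : ‖∑ j, g j z * dr (η i) z j‖ ^ 2 ≤ (∑ j, ‖g j z‖ * ‖dr (η i) z j‖) ^ 2 :=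
      pow_le_pow_left₀ (norm_nonneg _) h1 2
    refine h2.trans ((Finset.sum_mul_sq_le_sq_mul_sq _ _ _).trans ?_)
    exact mul_le_mul_of_nonneg_left (h.ηg i z hz) (hS0 z)
  have hsq : ∀ a b : ℂ, ‖a - b‖ ^ 2 ≤ 2 * ‖a‖ ^ 2 + 2 * ‖b‖ ^ 2 := by
    intro a b
    have h1 := norm_sub_le a b
    have h2 : ‖a - b‖ ^ 2 ≤ (‖a‖ + ‖b‖) ^ 2 := pow_le_pow_left₀ (norm_nonneg _) h1 2
    nlinarith [sq_nonneg (‖a‖ - ‖b‖)]
  -- the second limit
  have t2 : Tendsto (fun i => ∫ z in Ω, ‖(∑ j, g j z * dr (η i) z j) -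
      η i z * w z * (Real.exp (σ z) : ℂ)‖ ^ 2 * Real.exp (-φ z)) atTop
      (𝓝 (∫ z in Ω, ‖w z‖ ^ 2 * Real.exp (2 * σ z - φ z))) := by
    refine tendsto_integral_of_dominated_convergence
      (fun z => 2 * ((∑ j, ‖g j z‖ ^ 2) * Real.exp (σ z - φ z)) +
        2 * (‖w z‖ ^ 2 * Real.exp (2 * σ z - φ z)))
      (fun i => ?_) ((hgi.const_mul 2).add (hwi.const_mul 2)) ?_ ?_
    · refine AEStronglyMeasurable.mul (AEStronglyMeasurable.pow (AEStronglyMeasurable.norm
        (AEStronglyMeasurable.sub ?_ (((mηc i).mul hw).mul mE))) 2) mW0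
      exact Finset.aestronglyMeasurable_fun_sum _ fun j _ => (hg j).mul (mdη i j)
    · intro i
      filter_upwards [ae_restrict_mem hmΩ] with z hz
      rw [Real.norm_eq_abs, abs_of_nonneg (by positivity)]
      have h1 := hsq (∑ j, g j z * dr (η i) z j) (η i z * w z * (Real.exp (σ z) : ℂ))
      have h2 := hCS i z hz
      have h3 : ‖(η i z : ℂ) * w z * (Real.exp (σ z) : ℂ)‖ ^ 2 ≤
          ‖w z‖ ^ 2 * Real.exp (2 * σ z) := by
        rw [norm_mul, norm_mul, Complex.norm_real, Complex.norm_real, Real.norm_eq_abs,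
          Real.norm_eq_abs, abs_of_pos (Real.exp_pos _), abs_of_nonneg (h.η0 i z), mul_pow,
          mul_pow, ← Real.exp_nat_mul]
        push_cast
        refine mul_le_mul_of_nonneg_right ?_ (Real.exp_pos _).le
        have h4 : (η i z) ^ 2 ≤ 1 := by nlinarith [h.η0 i z, h.η1 i z]
        calc (η i z) ^ 2 * ‖w z‖ ^ 2 ≤ 1 * ‖w z‖ ^ 2 :=
              mul_le_mul_of_nonneg_right h4 (by positivity)
          _ = _ := one_mul _
      have e1 : Real.exp (σ z - φ z) = Real.exp (σ z) * Real.exp (-φ z) := by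
        rw [← Real.exp_add]; congr 1
      have e2 : Real.exp (2 * σ z - φ z) = Real.exp (2 * σ z) * Real.exp (-φ z) := by
        rw [← Real.exp_add]; congr 1
      rw [e1, e2]
      have h5 : ‖(∑ j, g j z * dr (η i) z j) - η i z * w z * (Real.exp (σ z) : ℂ)‖ ^ 2 ≤
          2 * ((∑ j, ‖g j z‖ ^ 2) * Real.exp (σ z)) + 2 * (‖w z‖ ^ 2 * Real.exp (2 * σ z)) := by
        linarith
      refine (mul_le_mul_of_nonneg_right h5 (Real.exp_pos (-φ z)).le).trans (le_of_eq ?_)
      ring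
    · filter_upwards [ae_restrict_mem hmΩ] with z hz
      refine tendsto_const_nhds.congr' ?_
      filter_upwards [h.ηe z hz] with i hi
      have h0 : ∑ j, g j z * dr (η i) z j = 0 :=
        Finset.sum_eq_zero fun j _ => by rw [hi.2 j, mul_zero]
      rw [h0, hi.1, zero_sub, norm_neg, Complex.ofReal_one, one_mul, norm_mul,
        Complex.norm_real, Real.norm_eq_abs, abs_of_pos (Real.exp_pos _), mul_pow,
        ← Real.exp_nat_mul, mul_assoc, ← Real.exp_add]
      congr 2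
  -- the third limit
  have t3 : Tendsto (fun i => ∫ z in Ω, (∑ j, ∑ k, ‖g k z * (starRingEnd ℂ) (dr (η i) z j) -
      g j z * (starRingEnd ℂ) (dr (η i) z k)‖ ^ 2) * Real.exp (-φ z)) atTop
      (𝓝 (∫ z in Ω, (0 : ℝ))) := by
    refine tendsto_integral_of_dominated_convergence
      (fun z => 4 * ((∑ j, ‖g j z‖ ^ 2) * Real.exp (σ z - φ z)))
      (fun i => ?_) (hgi.const_mul 4) ?_ ?_
    · refine AEStronglyMeasurable.mul ?_ mW0
      refine Finset.aestronglyMeasurable_fun_sum _ fun j _ => ?_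
      refine Finset.aestronglyMeasurable_fun_sum _ fun k _ => ?_
      exact (((hg k).mul (mdηc i j)).sub ((hg j).mul (mdηc i k))).norm.pow 2
    · intro i
      filter_upwards [ae_restrict_mem hmΩ] with z hz
      rw [Real.norm_eq_abs, abs_of_nonneg (mul_nonneg (Finset.sum_nonneg fun j _ =>
        Finset.sum_nonneg fun k _ => by positivity) (Real.exp_pos _).le)]
      have h1 : ∑ j, ∑ k, ‖g k z * (starRingEnd ℂ) (dr (η i) z j) -
          g j z * (starRingEnd ℂ) (dr (η i) z k)‖ ^ 2 ≤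
          4 * ((∑ j, ‖g j z‖ ^ 2) * ∑ j, ‖dr (η i) z j‖ ^ 2) := by
        have h2 : ∀ j k, ‖g k z * (starRingEnd ℂ) (dr (η i) z j) -
            g j z * (starRingEnd ℂ) (dr (η i) z k)‖ ^ 2 ≤
            2 * (‖g k z‖ ^ 2 * ‖dr (η i) z j‖ ^ 2) + 2 * (‖g j z‖ ^ 2 * ‖dr (η i) z k‖ ^ 2) := by
          intro j k
          have h3 := hsq (g k z * (starRingEnd ℂ) (dr (η i) z j))
            (g j z * (starRingEnd ℂ) (dr (η i) z k))
          rw [norm_mul, norm_mul, RCLike.norm_conj, RCLike.norm_conj, mul_pow, mul_pow] at h3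
          exact h3
        have h4 : ∑ j, ∑ k, (2 * (‖g k z‖ ^ 2 * ‖dr (η i) z j‖ ^ 2) +
            2 * (‖g j z‖ ^ 2 * ‖dr (η i) z k‖ ^ 2)) =
            4 * ((∑ j, ‖g j z‖ ^ 2) * ∑ j, ‖dr (η i) z j‖ ^ 2) :=
          H4_sum (fun k => ‖g k z‖ ^ 2) (fun k => ‖dr (η i) z k‖ ^ 2)
        rw [← h4]
        exact Finset.sum_le_sum fun j _ => Finset.sum_le_sum fun k _ => h2 j k
      have e1 : Real.exp (σ z - φ z) = Real.exp (σ z) * Real.exp (-φ z) := by
        rw [← Real.exp_add]; congr 1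
      have h7 : (∑ j, ‖g j z‖ ^ 2) * ∑ j, ‖dr (η i) z j‖ ^ 2 ≤
          (∑ j, ‖g j z‖ ^ 2) * Real.exp (σ z) :=
        mul_le_mul_of_nonneg_left (h.ηg i z hz) (hS0 z)
      rw [e1]
      refine (mul_le_mul_of_nonneg_right (h1.trans (mul_le_mul_of_nonneg_left h7
        (by norm_num : (0 : ℝ) ≤ 4))) (Real.exp_pos (-φ z)).le).trans (le_of_eq ?_)
      ring
    · filter_upwards [ae_restrict_mem hmΩ] with z hz
      refine tendsto_const_nhds.congr' ?_
      filter_upwards [h.ηe z hz] with i hi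
      simp [hi.2]
  have hlim := t2.add (t3.const_mul (1 / 4))
  have := le_of_tendsto_of_tendsto' t1 hlim (fun i => basic_cut h hg hgi hw hwi hcl hT i)
  simpa using this

end Pool.Agent.MPca0fc2.LV
end

section

/-! Solution of the equation `∂̄u = α` in the weak sense. -/

set_option autoImplicit false

open Metric Set MeasureTheory Filter Topology
open scoped ContDiff InnerProductSpace

namespace Pool.Agent.MPca0fc2.LV

open Pool.Agent.MPca0fc2.FD (Ec ee)

variable {n : ℕ} {Ω : Set (Ec n)} {φ σ : Ec n → ℝ} {η : ℕ → Ec n → ℝ}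

/-! Helpers: the space of test functions and its classes. -/

/-- the test functions in `Ω` -/
private def H5b_X (Ω : Set (Ec n)) : Submodule ℂ (Ec n → ℂ) where
  carrier := {v | TF Ω v}
  add_mem' := fun hu hv => TF_add hu hv
  zero_mem' := by
    refine ⟨contDiff_const, HasCompactSupport.zero, ?_⟩
    have : tsupport (0 : Ec n → ℂ) = ∅ := by
      rw [tsupport_eq_empty_iff]
    rw [this]
    exact empty_subset _
  smul_mem' := by
    intro c v hv
    refine ⟨contDiff_const.smul hv.sm, hv.cpt.smul_left (f := fun _ => c), ?_⟩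
    exact (closure_mono (Function.support_const_smul_subset c v)).trans hv.sub

private lemma H5b_off {v : Ec n → ℂ} (hv : TF Ω v) {z : Ec n} (hz : z ∉ Ω) : v z = 0 := by
  by_contra h0
  exact hz (hv.sub (subset_tsupport v h0))

private lemma H5b_int {v : Ec n → ℂ} (F : Ec n → ℂ → ℂ) (hF : ∀ z, F z 0 = 0) (hv : TF Ω v) :
    ∫ z, F z (v z) = ∫ z in Ω, F z (v z) := by
  symm
  apply setIntegral_eq_integral_of_forall_compl_eq_zero
  intro z hz
  rw [H5b_off hv hz, hF]

private lemma H5b_mem {v : Ec n → ℂ} (hv : TF Ω v) : MemLp v 2 (volume.restrict Ω) :=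
  (hv.sm.continuous.memLp_of_hasCompactSupport hv.cpt).restrict Ω

/-- the class of `W v` -/
private noncomputable def H5b_cls (hΩ : IsOpen Ω) {W : Ec n → ℂ} (hW : ContDiffOn ℝ ∞ W Ω) :
    H5b_X Ω →ₗ[ℂ] Lp ℂ 2 (volume.restrict Ω) where
  toFun v := (H5b_mem (TF_mul hΩ hW v.2)).toLp (fun z => W z * (v : Ec n → ℂ) z)
  map_add' := by
    intro u v
    rw [← MemLp.toLp_add]
    apply MemLp.toLp_congr _ _ (Eventually.of_forall fun z => ?_)
    simp only [Submodule.coe_add, Pi.add_apply]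
    ring
  map_smul' := by
    intro c v
    rw [RingHom.id_apply, ← MemLp.toLp_const_smul]
    apply MemLp.toLp_congr _ _ (Eventually.of_forall fun z => ?_)
    simp only [Submodule.coe_smul, Pi.smul_apply, smul_eq_mul]
    ring

private lemma H5b_coe (hΩ : IsOpen Ω) {W : Ec n → ℂ} (hW : ContDiffOn ℝ ∞ W Ω) (v : H5b_X Ω) :
    (H5b_cls hΩ hW v : Ec n → ℂ) =ᵐ[volume.restrict Ω] fun z => W z * (v : Ec n → ℂ) z :=
  MemLp.coeFn_toLp (H5b_mem (TF_mul hΩ hW v.2))

private lemma H5b_ip (hΩ : IsOpen Ω) {W : Ec n → ℂ} (hW : ContDiffOn ℝ ∞ W Ω) (v : H5b_X Ω)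
    {y : Ec n → ℂ} {Y : Lp ℂ 2 (volume.restrict Ω)} (hY : (Y : Ec n → ℂ) =ᵐ[volume.restrict Ω] y) :
    ⟪H5b_cls hΩ hW v, Y⟫_ℂ = ∫ z in Ω, (starRingEnd ℂ) (W z * (v : Ec n → ℂ) z) * y z := by
  rw [MeasureTheory.L2.inner_def]
  apply integral_congr_ae
  filter_upwards [H5b_coe hΩ hW v, hY] with z hz hz2
  rw [hz, hz2, RCLike.inner_apply]
  ring

private lemma H5b_nsq {y : Ec n → ℂ} {Y : Lp ℂ 2 (volume.restrict Ω)}
    (hY : (Y : Ec n → ℂ) =ᵐ[volume.restrict Ω] y) :
    ‖Y‖ ^ 2 = ∫ z in Ω, ‖y z‖ ^ 2 := by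
  have h1 : ((‖Y‖ ^ 2 : ℝ) : ℂ) = ((∫ z in Ω, ‖y z‖ ^ 2 : ℝ) : ℂ) := by
    rw [← integral_complex_ofReal]
    have h2 : ((‖Y‖ ^ 2 : ℝ) : ℂ) = ⟪Y, Y⟫_ℂ := by
      rw [inner_self_eq_norm_sq_to_K]
      push_cast
      rfl
    rw [h2, MeasureTheory.L2.inner_def]
    apply integral_congr_ae
    filter_upwards [hY] with z hz
    rw [hz, inner_self_eq_norm_sq_to_K]
    push_cast
    rfl
  exact_mod_cast h1

private lemma H5b_sqi {y : Ec n → ℂ} {Y : Lp ℂ 2 (volume.restrict Ω)}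
    (hY : (Y : Ec n → ℂ) =ᵐ[volume.restrict Ω] y) :
    Integrable (fun z => ‖y z‖ ^ 2) (volume.restrict Ω) := by
  have h1 := (memLp_two_iff_integrable_sq_norm (Lp.aestronglyMeasurable Y)).1 (Lp.memLp Y)
  refine h1.congr ?_
  filter_upwards [hY] with z hz
  rw [hz]

private lemma H5b_exp {ψ : Ec n → ℝ} (hψ : ContDiffOn ℝ ∞ ψ Ω) :
    ContDiffOn ℝ ∞ (fun z => ((Real.exp (ψ z) : ℝ) : ℂ)) Ω :=
  Complex.ofRealCLM.contDiff.comp_contDiffOn (Real.contDiff_exp.comp_contDiffOn hψ)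

private lemma H5b_conj {v : Ec n → ℂ} (hv : v ∈ H5b_X Ω) :
    (fun z => (starRingEnd ℂ) (v z)) ∈ H5b_X Ω := TF_conj hv

/-- the derivative as a linear map -/
private noncomputable def H5b_dj (k : Fin n) : H5b_X Ω →ₗ[ℂ] H5b_X Ω where
  toFun v := ⟨dj k v, (TF_dj v.2 k).1⟩
  map_add' := by
    intro u v
    apply Subtype.ext
    funext z
    exact (dj_add (u.2.sm.differentiable (by simp) z) (v.2.sm.differentiable (by simp) z) k).1
  map_smul' := by
    intro c v
    apply Subtype.ext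
    funext z
    have h1 := (dj_mul (u := fun _ => c) (differentiableAt_const c)
      (v.2.sm.differentiable (by simp) z) k).1
    have h2 : dj k (fun _ : Ec n => c) z = 0 := by
      unfold dj
      simp
    rw [h2, zero_mul, zero_add] at h1
    exact h1

/-- multiplication as a linear map -/
private noncomputable def H5b_mul (hΩ : IsOpen Ω) {W : Ec n → ℂ} (hW : ContDiffOn ℝ ∞ W Ω) :
    H5b_X Ω →ₗ[ℂ] H5b_X Ω where
  toFun v := ⟨fun z => W z * (v : Ec n → ℂ) z, TF_mul hΩ hW v.2⟩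
  map_add' := by
    intro u v
    apply Subtype.ext
    funext z
    simp only [Submodule.coe_add, Pi.add_apply]
    ring
  map_smul' := by
    intro c v
    apply Subtype.ext
    funext z
    simp only [Submodule.coe_smul, Pi.smul_apply, smul_eq_mul, RingHom.id_apply]
    ring

private lemma H5b_dkdk {u : Ec n → ℂ} {z : Ec n} (hu : ContDiffAt ℝ 2 u z) (j k : Fin n) :
    dk j (dk k u) z = dk k (dk j u) z := by
  have hsym := hu.isSymmSndFDerivAt (by simp)
  have hd : DifferentiableAt ℝ (fderiv ℝ u) z :=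
    (hu.fderiv_right (m := 1) (by norm_num)).differentiableAt (by simp)
  have key : ∀ (k : Fin n) (Y : Ec n), fderiv ℝ (dk k u) z Y =
      (fderiv ℝ (fderiv ℝ u) z Y (ee k) +
        Complex.I * fderiv ℝ (fderiv ℝ u) z Y (Complex.I • ee k)) / 2 := by
    intro k Y
    have h1 : HasFDerivAt (fun w => fderiv ℝ u w (ee k))
        ((ContinuousLinearMap.apply ℝ ℂ (ee k)).comp (fderiv ℝ (fderiv ℝ u) z)) z :=
      (ContinuousLinearMap.apply ℝ ℂ (ee k)).hasFDerivAt.comp z hd.hasFDerivAt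
    have h2 : HasFDerivAt (fun w => fderiv ℝ u w (Complex.I • ee k))
        ((ContinuousLinearMap.apply ℝ ℂ (Complex.I • ee k)).comp (fderiv ℝ (fderiv ℝ u) z)) z :=
      (ContinuousLinearMap.apply ℝ ℂ (Complex.I • ee k)).hasFDerivAt.comp z hd.hasFDerivAt
    have h3 := ((h1.add (h2.const_mul Complex.I)).mul_const (1 / 2 : ℂ))
    have h4 : (fun w => (fderiv ℝ u w (ee k) + Complex.I * fderiv ℝ u w (Complex.I • ee k)) *
        (1 / 2 : ℂ)) = dk k u := by
      funext w
      unfold dk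
      ring
    have h5 : fderiv ℝ (fun w => (fderiv ℝ u w (ee k) +
        Complex.I * fderiv ℝ u w (Complex.I • ee k)) * (1 / 2 : ℂ)) z = _ := h3.fderiv
    rw [← h4, h5]
    simp
    ring
  have e : ∀ X Y : Ec n, fderiv ℝ (fderiv ℝ u) z X Y = fderiv ℝ (fderiv ℝ u) z Y X :=
    fun X Y => hsym X Y
  unfold dk at key ⊢
  rw [key k (ee j), key k (Complex.I • ee j), key j (ee k), key j (Complex.I • ee k),
    e (ee j) (ee k), e (Complex.I • ee j) (ee k), e (ee j) (Complex.I • ee k),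
    e (Complex.I • ee j) (Complex.I • ee k)]
  ring

private lemma H5b_djexp {ψ : Ec n → ℝ} {z : Ec n} (hΩ : IsOpen Ω) (hψ : ContDiffOn ℝ ∞ ψ Ω) {v : Ec n → ℂ}
    (hv : DifferentiableAt ℝ v z) (hz : z ∈ Ω) (k : Fin n) :
    dj k (fun w => ((Real.exp (ψ w) : ℝ) : ℂ) * v w) z =
      ((Real.exp (ψ z) : ℝ) : ℂ) * (dj k v z + v z * dr ψ z k) := by
  have hd : DifferentiableAt ℝ ψ z :=
    ((hψ.contDiffAt (hΩ.mem_nhds hz)).differentiableAt (by simp))
  have h1 : DifferentiableAt ℝ (fun w => Real.exp (ψ w)) z := hd.exp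
  have h2 : DifferentiableAt ℝ (fun w => ((Real.exp (ψ w) : ℝ) : ℂ)) z :=
    Complex.ofRealCLM.differentiableAt.comp z h1
  rw [(dj_mul h2 hv k).1, (dj_real h1 k).1]
  have h3 : fderiv ℝ (fun w => Real.exp (ψ w)) z = Real.exp (ψ z) • fderiv ℝ ψ z :=
    hd.hasFDerivAt.exp.fderiv
  have h4 : dr (fun w => Real.exp (ψ w)) z k = ((Real.exp (ψ z) : ℝ) : ℂ) * dr ψ z k := by
    unfold dr
    rw [h3]
    simp only [smul_apply, smul_eq_mul]
    push_cast
    ring
  rw [h4]
  ring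

private lemma H5b_dr_sub {ρ τ : Ec n → ℝ} {z : Ec n} (hρ : DifferentiableAt ℝ ρ z)
    (hτ : DifferentiableAt ℝ τ z) (k : Fin n) :
    dr (fun w => ρ w - τ w) z k = dr ρ z k - dr τ z k := by
  unfold dr
  have h1 : fderiv ℝ (fun w => ρ w - τ w) z = fderiv ℝ ρ z - fderiv ℝ τ z := fderiv_sub hρ hτ
  rw [h1]
  simp only [sub_apply]
  push_cast
  ring

/-- The weak solution.
PROOF. `H₂ = Lp (Ec n) 2 (volume.restrict Ω)`, `H₁ = Lp ℂ 2 (volume.restrict Ω)`, `X` the space of the families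
`f : Fin n → Ec n → ℂ` with `TF Ω (f j)` for all `j` (a submodule of the space of functions), `a f` the class of
`f exp ((σ - φ) / 2)`, `b f` the class of `(T f) exp ((2σ - φ) / 2)`, `T f = -e^{-σ} ∑ (∂_j f_j - f_j ∂_j (φ - σ))` (smooth with
compact support). `N` is the set of the classes `G ∈ H₂` such that `g = G exp ((φ - σ) / 2)` satisfies
`∫ g_k ∂̄_j v = ∫ g_j ∂̄_k v` for all test functions `v` in `Ω` and all `j, k`: an intersection of kernels of continuous functionals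
(`∂̄_j v exp ((φ - σ) / 2)` is bounded with compact support, so in `L²`). `α exp ((σ - φ) / 2) ∈ N` by `hcl`, `hαi`. The hypothesis
`h` of `hilb`: let `y ∈ N`, `g = y exp ((φ - σ) / 2)`. For each test function `v`, the form `(∂̄_1 v, .., ∂̄_n v)` is in `N` after
multiplication by `exp ((σ - φ) / 2)` (it is smooth and closed: `∫ ∂̄_k v ∂̄_j v' = ∫ ∂̄_j v ∂̄_k v'` by `ibp_dk`), so
`⟪a f - y, ∂̄v e^{..}⟫ = 0`: `∫ ∑ g_j conj (∂̄_j v) e^{σ - φ} = ∫ ∑ f_j conj (∂̄_j v) e^{σ - φ}` and by `ibp_dj` (with `conj v` and `f_j e^{σ - φ}`)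
this is `∫ (T f) conj v e^{2σ - φ}`. So `basic_weak` for `g` and `w = T f` (replace `v` by `conj v`: `conj (dk j v) = dj j (conj v)`) gives
`‖y‖² ≤ ‖b f‖²`. `hilb` gives `U`; `u = U exp ((φ - 2σ) / 2)`, locally integrable. For a test function `v` and
`f = (0, .., conj v e^{φ - σ}, .., 0)` (the place `k`): `T f = -e^{φ - 2σ} conj (∂̄_k v)`, so `⟪b f, U⟫ = ⟪a f, α e^{..}⟫` says
`-∫ u ∂̄_k v = ∫ α_k v`. -/
theorem weak_solution (h : WT Ω φ σ η) {α : Fin n → Ec n → ℂ} (hα : ∀ j, ContinuousOn (α j) Ω)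
    (hαi : IntegrableOn (fun z => (∑ j, ‖α j z‖ ^ 2) * Real.exp (σ z - φ z)) Ω)
    (hcl : ∀ v, TF Ω v → ∀ j k, ∫ z, α k z * dk j v z = ∫ z, α j z * dk k v z) :
    ∃ u : Ec n → ℂ, LocallyIntegrableOn u Ω ∧
      ∀ j, ∀ v, TF Ω v → ∫ z, u z * dk j v z = -∫ z, α j z * v z := by
  classical
  have hΩ := h.opn
  have hmΩ : MeasurableSet Ω := hΩ.measurableSet
  -- the weights
  have s1 : ContDiffOn ℝ ∞ (fun z => (σ z - φ z) / 2) Ω := (h.smσ.sub h.smφ).div_const 2
  have s2 : ContDiffOn ℝ ∞ (fun z => (2 * σ z - φ z) / 2) Ω :=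
    ((contDiffOn_const.mul h.smσ).sub h.smφ).div_const 2
  have sc : ContDiffOn ℝ ∞ (fun z => (φ z - σ z) / 2) Ω := (h.smφ.sub h.smσ).div_const 2
  have s3 : ContDiffOn ℝ ∞ (fun z => (φ z - 2 * σ z) / 2) Ω :=
    (h.smφ.sub (contDiffOn_const.mul h.smσ)).div_const 2
  have ss : ContDiffOn ℝ ∞ (fun z => -σ z) Ω := h.smσ.neg
  have sp : ContDiffOn ℝ ∞ (fun z => σ z - φ z) Ω := h.smσ.sub h.smφ
  have sm : ContDiffOn ℝ ∞ (fun z => φ z - σ z) Ω := h.smφ.sub h.smσ
  obtain ⟨W1, hW1⟩ : ∃ W : Ec n → ℂ, W = fun z => ((Real.exp ((σ z - φ z) / 2) : ℝ) : ℂ) := ⟨_, rfl⟩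
  obtain ⟨W2, hW2⟩ : ∃ W : Ec n → ℂ, W = fun z => ((Real.exp ((2 * σ z - φ z) / 2) : ℝ) : ℂ) :=
    ⟨_, rfl⟩
  obtain ⟨Wc, hWc⟩ : ∃ W : Ec n → ℂ, W = fun z => ((Real.exp ((φ z - σ z) / 2) : ℝ) : ℂ) := ⟨_, rfl⟩
  obtain ⟨W3, hW3⟩ : ∃ W : Ec n → ℂ, W = fun z => ((Real.exp ((φ z - 2 * σ z) / 2) : ℝ) : ℂ) :=
    ⟨_, rfl⟩
  obtain ⟨Ws, hWs⟩ : ∃ W : Ec n → ℂ, W = fun z => ((Real.exp (-σ z) : ℝ) : ℂ) := ⟨_, rfl⟩
  have w1 : ContDiffOn ℝ ∞ W1 Ω := by rw [hW1]; exact H5b_exp s1
  have w2 : ContDiffOn ℝ ∞ W2 Ω := by rw [hW2]; exact H5b_exp s2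
  have wc : ContDiffOn ℝ ∞ Wc Ω := by rw [hWc]; exact H5b_exp sc
  have w3 : ContDiffOn ℝ ∞ W3 Ω := by rw [hW3]; exact H5b_exp s3
  have ws : ContDiffOn ℝ ∞ Ws Ω := by rw [hWs]; exact H5b_exp ss
  have wd : ∀ j, ContDiffOn ℝ ∞ (fun z => Ws z * (dr φ z j - dr σ z j)) Ω := fun j =>
    ws.mul ((dr_smooth hΩ h.smφ j).sub (dr_smooth hΩ h.smσ j))
  have c1 : ∀ z, (starRingEnd ℂ) (W1 z) = W1 z := fun z => by rw [hW1]; exact Complex.conj_ofReal _
  have c2 : ∀ z, (starRingEnd ℂ) (W2 z) = W2 z := fun z => by rw [hW2]; exact Complex.conj_ofReal _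
  have cc : ∀ z, (starRingEnd ℂ) (Wc z) = Wc z := fun z => by rw [hWc]; exact Complex.conj_ofReal _
  have e1c : ∀ z, W1 z * Wc z = 1 := fun z => by
    rw [hW1, hWc]
    simp only
    rw [← Complex.ofReal_mul, ← Real.exp_add]
    have : (σ z - φ z) / 2 + (φ z - σ z) / 2 = 0 := by ring
    rw [this, Real.exp_zero, Complex.ofReal_one]
  have e11 : ∀ z, W1 z * W1 z = ((Real.exp (σ z - φ z) : ℝ) : ℂ) := fun z => by
    rw [hW1]
    simp only
    rw [← Complex.ofReal_mul, ← Real.exp_add]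
    congr 2
    ring
  have n1 : ∀ z, ‖W1 z‖ ^ 2 = Real.exp (σ z - φ z) := fun z => by
    rw [hW1]
    simp only
    rw [Complex.norm_real, Real.norm_eq_abs, abs_of_pos (Real.exp_pos _), sq, ← Real.exp_add]
    congr 1
    ring
  have n2 : ∀ z, ‖W2 z‖ ^ 2 = Real.exp (2 * σ z - φ z) := fun z => by
    rw [hW2]
    simp only
    rw [Complex.norm_real, Real.norm_eq_abs, abs_of_pos (Real.exp_pos _), sq, ← Real.exp_add]
    congr 1
    ring
  have nc : ∀ z, ‖Wc z‖ ^ 2 * Real.exp (σ z - φ z) = 1 := fun z => by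
    rw [hWc]
    simp only
    rw [Complex.norm_real, Real.norm_eq_abs, abs_of_pos (Real.exp_pos _), sq, ← Real.exp_add,
      ← Real.exp_add]
    have : (φ z - σ z) / 2 + (φ z - σ z) / 2 + (σ z - φ z) = 0 := by ring
    rw [this, Real.exp_zero]
  -- the spaces and the maps
  let H2 := PiLp 2 (fun _ : Fin n => Lp ℂ 2 (volume.restrict Ω))
  let a : (Fin n → H5b_X Ω) →ₗ[ℂ] H2 :=
    (WithLp.linearEquiv 2 ℂ (Fin n → Lp ℂ 2 (volume.restrict Ω))).symm.toLinearMap ∘ₗ
      (LinearMap.pi fun j => (H5b_cls hΩ w1) ∘ₗ LinearMap.proj j)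
  have ha : ∀ f j, (a f) j = H5b_cls hΩ w1 (f j) := fun f j => rfl
  let T : (Fin n → H5b_X Ω) →ₗ[ℂ] H5b_X Ω :=
    -∑ j, ((H5b_mul hΩ ws) ∘ₗ (H5b_dj j) ∘ₗ LinearMap.proj j - (H5b_mul hΩ (wd j)) ∘ₗ
      LinearMap.proj j)
  have hT : ∀ (f : Fin n → H5b_X Ω) z, (T f : Ec n → ℂ) z =
      -∑ j, (Ws z * dj j (f j) z - Ws z * (dr φ z j - dr σ z j) * (f j : Ec n → ℂ) z) := by
    intro f z
    have h1 : (T f : Ec n → ℂ) = -∑ j, ((H5b_mul hΩ ws (H5b_dj j (f j)) : Ec n → ℂ) -
        (H5b_mul hΩ (wd j) (f j) : Ec n → ℂ)) := by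
      simp only [T, LinearMap.neg_apply, LinearMap.sum_apply, LinearMap.sub_apply,
        LinearMap.comp_apply, LinearMap.proj_apply, Submodule.coe_neg, Submodule.coe_sum,
        Submodule.coe_sub]
    rw [h1]
    simp only [Pi.neg_apply, Finset.sum_apply, Pi.sub_apply]
    rfl
  let b : (Fin n → H5b_X Ω) →ₗ[ℂ] Lp ℂ 2 (volume.restrict Ω) := (H5b_cls hΩ w2) ∘ₗ T
  have key1 : ∀ (v : H5b_X Ω) (j : Fin n) (Y : Lp ℂ 2 (volume.restrict Ω)) (y : Ec n → ℂ),
      (Y : Ec n → ℂ) =ᵐ[volume.restrict Ω] y → ⟪H5b_cls hΩ wc (H5b_dj j v), Y⟫_ℂ =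
        ∫ z, y z * Wc z * dk j (fun w => (starRingEnd ℂ) ((v : Ec n → ℂ) w)) z := by
    intro v j Y y hY
    rw [H5b_ip hΩ wc _ hY]
    have h1 := H5b_int (fun z x => y z * Wc z * x) (fun z => by simp) (TF_dj (TF_conj v.2) j).2
    rw [h1]
    apply integral_congr_ae
    refine Eventually.of_forall fun z => ?_
    have h2 := (dj_conj (v.2.sm.differentiable (by simp) z) j).2
    show (starRingEnd ℂ) (Wc z * dj j (v : Ec n → ℂ) z) * y z = _
    rw [map_mul, cc]
    simp only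
    rw [h2]
    ring
  let N : Submodule ℂ H2 :=
    { carrier := {y | ∀ (v : H5b_X Ω) (j k : Fin n), ⟪H5b_cls hΩ wc (H5b_dj j v), y k⟫_ℂ =
        ⟪H5b_cls hΩ wc (H5b_dj k v), y j⟫_ℂ}
      add_mem' := by
        intro x y hx hy v j k
        rw [PiLp.add_apply, PiLp.add_apply, inner_add_right, inner_add_right, hx v j k, hy v j k]
      zero_mem' := by
        intro v j k
        rw [PiLp.zero_apply, PiLp.zero_apply, inner_zero_right, inner_zero_right]
      smul_mem' := by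
        intro c x hx v j k
        rw [PiLp.smul_apply, PiLp.smul_apply, inner_smul_right, inner_smul_right, hx v j k] }
  have hN : IsClosed (N : Set H2) := by
    have h1 : (N : Set H2) = ⋂ (v : H5b_X Ω) (j : Fin n) (k : Fin n),
        {y : H2 | ⟪H5b_cls hΩ wc (H5b_dj j v), y k⟫_ℂ = ⟪H5b_cls hΩ wc (H5b_dj k v), y j⟫_ℂ} := by
      ext y
      simp only [mem_iInter, mem_ofPred_eq]
      rfl
    rw [h1]
    refine isClosed_iInter fun v => isClosed_iInter fun j => isClosed_iInter fun k => ?_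
    apply isClosed_eq
    · exact continuous_const.inner (PiLp.continuous_apply 2 _ k)
    · exact continuous_const.inner (PiLp.continuous_apply 2 _ j)
  -- a criterion for the elements of `N`
  have hNmem : ∀ (y : H2) (g : Fin n → Ec n → ℂ),
      (∀ j, (y j : Ec n → ℂ) =ᵐ[volume.restrict Ω] fun z => W1 z * g j z) →
      (∀ v, TF Ω v → ∀ j k, ∫ z, g k z * dk j v z = ∫ z, g j z * dk k v z) → y ∈ N := by
    intro y g hy hg v j k
    rw [key1 v j (y k) _ (hy k), key1 v k (y j) _ (hy j)]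
    have h1 := hg _ (TF_conj v.2) j k
    have h2 : ∀ (i l : Fin n), (fun z => W1 z * g i z * Wc z *
        dk l (fun w => (starRingEnd ℂ) ((v : Ec n → ℂ) w)) z) =
        fun z => g i z * dk l (fun w => (starRingEnd ℂ) ((v : Ec n → ℂ) w)) z := by
      intro i l
      funext z
      have := e1c z
      linear_combination (g i z * dk l (fun w => (starRingEnd ℂ) ((v : Ec n → ℂ) w)) z) * this
    rw [h2, h2]
    exact h1
  have hNcl : ∀ y ∈ N, ∀ v, TF Ω v → ∀ j k : Fin n,
      ∫ z, ((y k : Ec n → ℂ) z * Wc z) * dk j v z = ∫ z, ((y j : Ec n → ℂ) z * Wc z) * dk k v z := by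
    intro y hy v hv j k
    have h1 := hy ⟨_, TF_conj hv⟩ j k
    rw [key1 _ j (y k) _ (ae_eq_refl _), key1 _ k (y j) _ (ae_eq_refl _)] at h1
    simpa only [Complex.conj_conj] using h1
  -- the class of `α`
  have hαm : ∀ j, MemLp (fun z => W1 z * α j z) 2 (volume.restrict Ω) := by
    intro j
    have hm : AEStronglyMeasurable (fun z => W1 z * α j z) (volume.restrict Ω) :=
      (w1.continuousOn.mul (hα j)).aestronglyMeasurable hmΩ
    rw [memLp_two_iff_integrable_sq_norm hm]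
    refine Integrable.mono' hαi (hm.norm.pow 2) (Eventually.of_forall fun z => ?_)
    rw [Real.norm_eq_abs, abs_of_nonneg (by positivity), norm_mul, mul_pow, n1, mul_comm]
    apply mul_le_mul_of_nonneg_right _ (Real.exp_pos _).le
    exact Finset.single_le_sum (f := fun j => ‖α j z‖ ^ 2) (fun i _ => by positivity)
      (Finset.mem_univ j)
  let A : H2 := WithLp.toLp 2 (fun j => (hαm j).toLp _)
  have hA : ∀ j, (A j : Ec n → ℂ) =ᵐ[volume.restrict Ω] fun z => W1 z * α j z := fun j =>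
    MemLp.coeFn_toLp (hαm j)
  have hAN : A ∈ N := hNmem A α hA hcl
  -- the hypothesis of the Hilbert space lemma
  have hh : ∀ f, ∀ y ∈ N, (∀ t ∈ N, ⟪a f - y, t⟫_ℂ = 0) → ‖y‖ ≤ ‖b f‖ := by
    intro f y hy horth
    have q1 : ∫ z in Ω, (∑ j, ‖(y j : Ec n → ℂ) z * Wc z‖ ^ 2) * Real.exp (σ z - φ z) = ‖y‖ ^ 2 := by
      rw [PiLp.norm_sq_eq_of_L2]
      have h1 : ∀ j, ‖y j‖ ^ 2 = ∫ z in Ω, ‖(y j : Ec n → ℂ) z‖ ^ 2 := fun j =>
        H5b_nsq (ae_eq_refl _)
      rw [Finset.sum_congr rfl fun j _ => h1 j, ← integral_finsetSum]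
      · apply integral_congr_ae
        refine Eventually.of_forall fun z => ?_
        simp only
        rw [Finset.sum_mul]
        refine Finset.sum_congr rfl fun j _ => ?_
        rw [norm_mul, mul_pow, mul_assoc, nc, mul_one]
      · intro j _
        exact H5b_sqi (ae_eq_refl _)
    have q1i : IntegrableOn (fun z => (∑ j, ‖(y j : Ec n → ℂ) z * Wc z‖ ^ 2) *
        Real.exp (σ z - φ z)) Ω := by
      have h1 : Integrable (fun z => ∑ j, ‖(y j : Ec n → ℂ) z‖ ^ 2) (volume.restrict Ω) :=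
        integrable_finsetSum _ fun j _ => H5b_sqi (ae_eq_refl _)
      refine h1.congr (Eventually.of_forall fun z => ?_)
      simp only
      rw [Finset.sum_mul]
      refine Finset.sum_congr rfl fun j _ => ?_
      rw [norm_mul, mul_pow, mul_assoc, nc, mul_one]
    have hbc : (b f : Ec n → ℂ) =ᵐ[volume.restrict Ω] fun z => W2 z * (T f : Ec n → ℂ) z :=
      H5b_coe hΩ w2 (T f)
    have q2 : ∫ z in Ω, ‖(T f : Ec n → ℂ) z‖ ^ 2 * Real.exp (2 * σ z - φ z) = ‖b f‖ ^ 2 := by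
      rw [H5b_nsq hbc]
      apply integral_congr_ae
      refine Eventually.of_forall fun z => ?_
      simp only
      rw [norm_mul, mul_pow, n2, mul_comm]
    have q2i : IntegrableOn (fun z => ‖(T f : Ec n → ℂ) z‖ ^ 2 * Real.exp (2 * σ z - φ z)) Ω := by
      refine (H5b_sqi hbc).congr (Eventually.of_forall fun z => ?_)
      simp only
      rw [norm_mul, mul_pow, n2, mul_comm]
    have hmy : ∀ j, AEStronglyMeasurable (fun z => (y j : Ec n → ℂ) z * Wc z)
        (volume.restrict Ω) := fun j =>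
      (Lp.aestronglyMeasurable (y j)).mul (wc.continuousOn.aestronglyMeasurable hmΩ)
    have hmT : AEStronglyMeasurable (T f : Ec n → ℂ) (volume.restrict Ω) :=
      (T f).2.sm.continuous.aestronglyMeasurable
    have hw : ∀ v, TF Ω v → ∫ z, (∑ j, ((y j : Ec n → ℂ) z * Wc z) * dj j v z) *
        (Real.exp (σ z - φ z) : ℂ) =
        ∫ z, (T f : Ec n → ℂ) z * v z * (Real.exp (2 * σ z - φ z) : ℂ) := by
      intro v hv
      have hcv := TF_conj hv
      -- the closed form
      let t : H2 := WithLp.toLp 2 (fun j => H5b_cls hΩ w1 ⟨_, (TF_dj hcv j).2⟩)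
      have ht : ∀ j, t j = H5b_cls hΩ w1 ⟨_, (TF_dj hcv j).2⟩ := fun j => rfl
      have htN : t ∈ N := by
        apply hNmem t (fun j => dk j (fun w => (starRingEnd ℂ) (v w))) (fun j => H5b_coe hΩ w1 _)
        intro u hu j k
        have hs1 : ∀ l, ContDiffOn ℝ 1 (dk l (fun w => (starRingEnd ℂ) (v w))) Ω := fun l =>
          ((TF_dj hcv l).2.sm.of_le (by exact_mod_cast le_top)).contDiffOn
        rw [ibp_dk hΩ (hs1 k) hu j, ibp_dk hΩ (hs1 j) hu k]
        congr 1
        apply integral_congr_ae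
        refine Eventually.of_forall fun z => ?_
        simp only
        rw [H5b_dkdk (hcv.sm.contDiffAt.of_le (WithTop.coe_le_coe.2 (le_top : (2 : ℕ∞) ≤ ⊤))) j k]
      have h1 := horth t htN
      rw [inner_sub_left, sub_eq_zero] at h1
      have h2 : ⟪t, a f⟫_ℂ = ⟪t, y⟫_ℂ := by
        rw [← inner_conj_symm, h1, inner_conj_symm]
      rw [PiLp.inner_apply, PiLp.inner_apply] at h2
      have hcj : ∀ (j : Fin n) z, (starRingEnd ℂ) (dk j (fun w => (starRingEnd ℂ) (v w)) z) =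
          dj j v z := by
        intro j z
        rw [(dj_conj (hv.sm.differentiable (by simp) z) j).2, Complex.conj_conj]
      have h3 : ∀ j, ⟪t j, (a f) j⟫_ℂ = ∫ z, -(Ws z * dj j (f j) z -
          Ws z * (dr φ z j - dr σ z j) * (f j : Ec n → ℂ) z) * v z *
            (Real.exp (2 * σ z - φ z) : ℂ) := by
        intro j
        rw [ht, ha, H5b_ip hΩ w1 _ (H5b_coe hΩ w1 (f j))]
        have e0 : ∫ z in Ω, (starRingEnd ℂ) (W1 z * dk j (fun w => (starRingEnd ℂ) (v w)) z) *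
            (W1 z * (f j : Ec n → ℂ) z) =
            ∫ z, (((Real.exp (σ z - φ z) : ℝ) : ℂ) * (f j : Ec n → ℂ) z) * dj j v z := by
          rw [H5b_int (fun z x => (((Real.exp (σ z - φ z) : ℝ) : ℂ) * (f j : Ec n → ℂ) z) * x)
            (fun z => by simp) (TF_dj hv j).1]
          apply integral_congr_ae
          refine Eventually.of_forall fun z => ?_
          simp only
          rw [map_mul, hcj, c1]
          linear_combination ((f j : Ec n → ℂ) z * dj j v z) * e11 z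
        have e1 : ContDiffOn ℝ 1 (fun z => ((Real.exp (σ z - φ z) : ℝ) : ℂ) *
            (f j : Ec n → ℂ) z) Ω :=
          ((H5b_exp sp).mul ((f j).2.sm.contDiffOn)).of_le (by exact_mod_cast le_top)
        show ∫ z in Ω, (starRingEnd ℂ) (W1 z * dk j (fun w => (starRingEnd ℂ) (v w)) z) *
            (W1 z * (f j : Ec n → ℂ) z) = _
        rw [e0, ibp_dj hΩ e1 hv j, ← integral_neg]
        rw [H5b_int (fun z x => -(dj j (fun w => ((Real.exp (σ w - φ w) : ℝ) : ℂ) *
          (f j : Ec n → ℂ) w) z * x)) (fun z => by simp) hv,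
          H5b_int (fun z x => -(Ws z * dj j (f j) z - Ws z * (dr φ z j - dr σ z j) *
            (f j : Ec n → ℂ) z) * x * (Real.exp (2 * σ z - φ z) : ℂ)) (fun z => by simp) hv]
        apply setIntegral_congr_fun hmΩ
        intro z hz
        simp only
        rw [H5b_djexp hΩ sp ((f j).2.sm.differentiable (by simp) z) hz j,
          H5b_dr_sub (((h.smσ.contDiffAt (hΩ.mem_nhds hz)).differentiableAt (by simp)))
            (((h.smφ.contDiffAt (hΩ.mem_nhds hz)).differentiableAt (by simp))) j]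
        have e2 : Ws z * (Real.exp (2 * σ z - φ z) : ℂ) = ((Real.exp (σ z - φ z) : ℝ) : ℂ) := by
          rw [hWs]
          simp only
          rw [← Complex.ofReal_mul, ← Real.exp_add]
          congr 2
          ring
        rw [← e2]
        ring
      have h4 : ∀ j, ⟪t j, y j⟫_ℂ = ∫ z in Ω, ((y j : Ec n → ℂ) z * Wc z) * dj j v z *
          (Real.exp (σ z - φ z) : ℂ) := by
        intro j
        rw [ht, H5b_ip hΩ w1 _ (ae_eq_refl _)]
        apply integral_congr_ae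
        refine Eventually.of_forall fun z => ?_
        show (starRingEnd ℂ) (W1 z * dk j (fun w => (starRingEnd ℂ) (v w)) z) *
          (y j : Ec n → ℂ) z = _
        simp only
        rw [map_mul, hcj, c1, ← e11]
        linear_combination (-(W1 z * (y j : Ec n → ℂ) z * dj j v z)) * e1c z
      have h4i : ∀ j, Integrable (fun z => ((y j : Ec n → ℂ) z * Wc z) * dj j v z *
          (Real.exp (σ z - φ z) : ℂ)) (volume.restrict Ω) := by
        intro j
        have i1 := MeasureTheory.L2.integrable_inner (𝕜 := ℂ) (t j) (y j)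
        refine i1.congr ?_
        filter_upwards [H5b_coe hΩ w1 ⟨_, (TF_dj hcv j).2⟩] with z hz
        have hz' : (t j : Ec n → ℂ) z = W1 z * dk j (fun w => (starRingEnd ℂ) (v w)) z := hz
        rw [hz', RCLike.inner_apply]
        rw [map_mul, hcj, c1, ← e11]
        linear_combination (-(W1 z * (y j : Ec n → ℂ) z * dj j v z)) * e1c z
      have h5 : ∫ z, (∑ j, ((y j : Ec n → ℂ) z * Wc z) * dj j v z) * (Real.exp (σ z - φ z) : ℂ) =
          ∑ j, ⟪t j, y j⟫_ℂ := by
        rw [Finset.sum_congr rfl fun j _ => h4 j, ← integral_finsetSum _ fun j _ => h4i j]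
        rw [← setIntegral_eq_integral_of_forall_compl_eq_zero (s := Ω)]
        · apply integral_congr_ae
          refine Eventually.of_forall fun z => ?_
          simp only
          rw [Finset.sum_mul]
        · intro z hz
          have : ∀ j, dj j v z = 0 := fun j => H5b_off (TF_dj hv j).1 hz
          simp [this]
      have h6 : ∫ z, (T f : Ec n → ℂ) z * v z * (Real.exp (2 * σ z - φ z) : ℂ) =
          ∑ j, ⟪t j, (a f) j⟫_ℂ := by
        rw [Finset.sum_congr rfl fun j _ => h3 j, ← integral_finsetSum]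
        · apply integral_congr_ae
          refine Eventually.of_forall fun z => ?_
          simp only
          rw [hT, ← Finset.sum_neg_distrib, Finset.sum_mul, Finset.sum_mul]
        · intro j _
          have i1 : TF Ω (fun z => (-((Real.exp (2 * σ z - φ z) : ℝ) : ℂ)) *
              ((H5b_mul hΩ ws (H5b_dj j (f j)) - H5b_mul hΩ (wd j) (f j) : H5b_X Ω) :
                Ec n → ℂ) z) :=
            TF_mul hΩ (H5b_exp ((contDiffOn_const.mul h.smσ).sub h.smφ)).neg (Subtype.coe_prop _)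
          have i2 : TF Ω (fun z => v z * ((-((Real.exp (2 * σ z - φ z) : ℝ) : ℂ)) *
              ((H5b_mul hΩ ws (H5b_dj j (f j)) - H5b_mul hΩ (wd j) (f j) : H5b_X Ω) :
                Ec n → ℂ) z)) :=
            TF_mul hΩ hv.sm.contDiffOn i1
          refine (i2.sm.continuous.integrable_of_hasCompactSupport i2.cpt).congr
            (Eventually.of_forall fun z => ?_)
          show v z * (-((Real.exp (2 * σ z - φ z) : ℝ) : ℂ) * (Ws z * dj j (f j) z -
            Ws z * (dr φ z j - dr σ z j) * (f j : Ec n → ℂ) z)) = _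
          simp only
          ring
      rw [h5, h6]
      exact h2.symm
    have hfin := basic_weak h hmy q1i hmT q2i (hNcl y hy) hw
    rw [q1, q2] at hfin
    exact le_of_sq_le_sq hfin (norm_nonneg _)
  obtain ⟨U, hU⟩ := hilb a b N hN hh hAN
  refine ⟨fun z => (U : Ec n → ℂ) z * W3 z, ?_, ?_⟩
  · apply LocallyIntegrableOn.mul_continuousOn _ w3.continuousOn hΩ.isLocallyClosed
    apply locallyIntegrableOn_of_locallyIntegrable_restrict
    exact (Lp.memLp U).locallyIntegrable (by norm_num)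
  · intro k v hv
    let x0 : H5b_X Ω := ⟨_, TF_mul hΩ (H5b_exp sm) (TF_conj hv)⟩
    obtain ⟨f, hfdef⟩ : ∃ f : Fin n → H5b_X Ω, f = fun j => if j = k then x0 else 0 := ⟨_, rfl⟩
    have hfk : f k = x0 := by rw [hfdef]; simp
    have hfj : ∀ j, j ≠ k → f j = 0 := fun j hj => by rw [hfdef]; simp [hj]
    have h1 := hU f
    have h2 : ⟪a f, A⟫_ℂ = ∫ z, α k z * v z := by
      rw [PiLp.inner_apply, Finset.sum_eq_single k]
      · rw [ha, hfk, H5b_ip hΩ w1 _ (hA k), H5b_int (fun z x => α k z * x) (fun z => by simp) hv]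
        apply integral_congr_ae
        refine Eventually.of_forall fun z => ?_
        show (starRingEnd ℂ) (W1 z * (((Real.exp (φ z - σ z) : ℝ) : ℂ) *
          (starRingEnd ℂ) (v z))) * (W1 z * α k z) = _
        simp only
        rw [map_mul, map_mul, Complex.conj_conj, c1, Complex.conj_ofReal]
        have e2 : ((Real.exp (σ z - φ z) : ℝ) : ℂ) * ((Real.exp (φ z - σ z) : ℝ) : ℂ) = 1 := by
          rw [← Complex.ofReal_mul, ← Real.exp_add]
          have : σ z - φ z + (φ z - σ z) = 0 := by ring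
          rw [this, Real.exp_zero, Complex.ofReal_one]
        have e3 := e11 z
        linear_combination (((Real.exp (φ z - σ z) : ℝ) : ℂ) * v z * α k z) * e3 +
          (v z * α k z) * e2
      · intro j _ hj
        rw [ha, hfj j hj, map_zero, inner_zero_left]
      · intro hk
        exact (hk (Finset.mem_univ k)).elim
    have h3 : ⟪b f, U⟫_ℂ = -∫ z, (U : Ec n → ℂ) z * W3 z * dk k v z := by
      show ⟪H5b_cls hΩ w2 (T f), U⟫_ℂ = _
      rw [H5b_ip hΩ w2 _ (ae_eq_refl _), ← integral_neg,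
        H5b_int (fun z x => -((U : Ec n → ℂ) z * W3 z * x)) (fun z => by simp) (TF_dj hv k).2]
      apply setIntegral_congr_fun hmΩ
      intro z hz
      simp only
      have e4 : (T f : Ec n → ℂ) z = -(Ws z * dj k (x0 : Ec n → ℂ) z -
          Ws z * (dr φ z k - dr σ z k) * (x0 : Ec n → ℂ) z) := by
        rw [hT, Finset.sum_eq_single k]
        · rw [hfk]
        · intro j _ hj
          have h0 : ((f j : H5b_X Ω) : Ec n → ℂ) = 0 := by rw [hfj j hj]; rfl
          have h00 : dj j (0 : Ec n → ℂ) z = 0 := by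
            unfold dj
            simp
          rw [h0, h00]
          simp
        · intro hk
          exact (hk (Finset.mem_univ k)).elim
      have e5 : dj k (x0 : Ec n → ℂ) z = ((Real.exp (φ z - σ z) : ℝ) : ℂ) *
          ((starRingEnd ℂ) (dk k v z) + (starRingEnd ℂ) (v z) * (dr φ z k - dr σ z k)) := by
        have h6 := H5b_djexp hΩ sm ((TF_conj hv).sm.differentiable (by simp) z) hz k
        rw [(dj_conj (hv.sm.differentiable (by simp) z) k).1,
          H5b_dr_sub (((h.smφ.contDiffAt (hΩ.mem_nhds hz)).differentiableAt (by simp)))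
            (((h.smσ.contDiffAt (hΩ.mem_nhds hz)).differentiableAt (by simp))) k] at h6
        exact h6
      have e6 : (x0 : Ec n → ℂ) z = ((Real.exp (φ z - σ z) : ℝ) : ℂ) * (starRingEnd ℂ) (v z) := rfl
      have e7 : (T f : Ec n → ℂ) z = -(Ws z * ((Real.exp (φ z - σ z) : ℝ) : ℂ) *
          (starRingEnd ℂ) (dk k v z)) := by
        rw [e4, e5, e6]
        ring
      have e8 : W2 z * (Ws z * ((Real.exp (φ z - σ z) : ℝ) : ℂ)) = W3 z := by
        rw [hW2, hWs, hW3]
        simp only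
        rw [← Complex.ofReal_mul, ← Complex.ofReal_mul, ← Real.exp_add, ← Real.exp_add]
        congr 2
        ring
      have c3 : (starRingEnd ℂ) (W3 z) = W3 z := by rw [hW3]; exact Complex.conj_ofReal _
      have e9 : W2 z * (T f : Ec n → ℂ) z = -(W3 z * (starRingEnd ℂ) (dk k v z)) := by
        rw [e7, ← e8]
        ring
      rw [e9, map_neg, map_mul, c3, Complex.conj_conj]
      ring
    rw [h3, h2] at h1
    rw [← h1, neg_neg]

end Pool.Agent.MPca0fc2.LV
end
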