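import Mathlib
import Pool.Agent.Lib.MP_ca0fc2_an.Mg.G065
import Pool.Agent.Lib.MP_ca0fc2_an.INDHin
import Pool.Agent.Lib.MP_ca0fc2_an.Mg.G068
import Pool.Agent.Lib.MP_ca0fc2_an.Mg.G056
import Pool.Agent.Lib.MP_ca0fc2_an.Mg.G053
import Pool.Agent.Lib.MP_ca0fc2_an.Mg.G059
import Pool.Agent.Lib.MP_ca0fc2_an.Mg.G051

section

/-! The corona theorem on a domain for functions which are near functions of the analytic closure of
the hull of a localizing algebra and one arbitrary function. -/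

set_option autoImplicit false

open Metric Set Filter Topology

namespace Pool.Agent.MPca0fc2.IND

open Pool.Agent.Lib.MP_ca0fc2_an (IsHinf SolvableOn HullOn ClosedAlgOn AnalyticOverOn
  AnalyticClosureOn)
open Pool.Agent.MPca0fc2.CXS (LocOn)

variable {n : ℕ} {Δ : Set (EuclideanSpace ℂ (Fin n))}

/-- The elements of a closed algebra whose generators are bounded are bounded. -/
theorem bh_closed {S : Set (EuclideanSpace ℂ (Fin n) → ℂ)}
    (hS : ∀ q ∈ Algebra.adjoin ℂ S, BH Δ (cf q)) {a : EuclideanSpace ℂ (Fin n) → ℂ}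
    (ha : a ∈ ClosedAlgOn Δ S) : BH Δ (cf a) := by
  obtain ⟨h1, h2⟩ := ha
  obtain ⟨q, hq, h3⟩ := h2 1 one_pos
  obtain ⟨C, hC⟩ := (hS q hq).bdd
  refine ⟨fun _ => h1, 1 + C, fun t z hz => ?_⟩
  calc ‖a z‖ = ‖(a z - q z) + q z‖ := by rw [sub_add_cancel]
    _ ≤ ‖a z - q z‖ + ‖q z‖ := norm_add_le _ _
    _ ≤ 1 + C := add_le_add (h3 z hz) (hC t z hz)

/-- The functions in the analytic closure are bounded and holomorphic. -/
theorem bh_closure {S : Set (EuclideanSpace ℂ (Fin n) → ℂ)} (hS : ∀ g ∈ S, BH Δ (cf g)) :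
    ∀ g ∈ AnalyticClosureOn Δ S, BH Δ (cf g) := by
  intro g hg
  have h1 : {g | BH Δ (cf g)} ∈ {T : Set (EuclideanSpace ℂ (Fin n) → ℂ) |
      S ⊆ T ∧ ClosedAlgOn Δ T ⊆ T ∧ AnalyticOverOn Δ T ⊆ T} := by
    refine ⟨hS, fun g hg => bh_closed (fun q hq => ?_) hg, ?_⟩
    · induction hq using Algebra.adjoin_induction with
      | mem x hx => exact hx
      | algebraMap c => exact BH.const c
      | add x y _ _ hx hy => exact hx.add hy
      | mul x y _ _ hx hy => exact hx.mul hy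
    · rintro g ⟨h1, a, A, M, ρ, c, -, -, -, h2, -⟩
      exact ⟨fun _ => h1, M, fun _ z hz => h2 z hz⟩
  exact hg _ h1

/-- A family of functions which is in no kernel of a character generates `1`. -/
theorem unimod_of_chars (hΔo : IsOpen Δ) {N : ℕ} {f : Fin N → EuclideanSpace ℂ (Fin n) → ℂ}
    (hf : ∀ j, BH Δ (cf (f j))) (h : ∀ Φ : Char Δ Unit, ∃ j, Φ.φ (cf (f j)) ≠ 0) :
    ∃ C, SolvableOn f Δ C := by
  classical
  by_contra hno
  obtain ⟨Φ, hΦ⟩ := exists_char (S := Set.range fun j => cf (f j)) hΔo (by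
    rintro _ ⟨j, rfl⟩
    exact hf j) (by
    rintro ⟨m, a, g, ha, hg, hs⟩
    choose σ hσ using ha
    apply hno
    choose B hB using fun k => (hg k).bdd
    have h1 : SolvableOn (fun k => f (σ k)) Δ (∑ k, |B k|) := by
      refine ⟨fun k => g k (), fun k => (hg k).holo (), fun k z hz => ?_, fun z hz => ?_⟩
      · refine ((hB k () z hz).trans (le_abs_self _)).trans ?_
        exact Finset.single_le_sum (f := fun k => |B k|) (fun _ _ => abs_nonneg _)
          (Finset.mem_univ k)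
      · rw [← hs () z hz]
        refine Finset.sum_congr rfl fun k _ => ?_
        rw [← hσ k]
    exact ⟨_, CXS.solv_map' σ (fun _ _ _ => rfl) h1⟩)
  obtain ⟨j, hj⟩ := h Φ
  exact hj (hΦ _ ⟨j, rfl⟩)

end Pool.Agent.MPca0fc2.IND
end

section

/-! The first Cousin problem. -/

set_option autoImplicit false

open Metric Set MeasureTheory Filter Topology
open scoped ContDiff

namespace Pool.Agent.MPca0fc2.LV

open Pool.Agent.MPca0fc2.FD (Ec ee)

variable {n : ℕ}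

private theorem H8b_int {Ω : Set (Ec n)} {u v : Ec n → ℂ} (hu : LocallyIntegrableOn u Ω)
    (hv : TF Ω v) : Integrable fun z => u z * v z := by
  have h1 : IntegrableOn u (tsupport v) := hu.integrableOn_compact_subset hv.sub hv.cpt
  have h2 : IntegrableOn (fun z => u z * v z) (tsupport v) :=
    h1.mul_continuousOn hv.sm.continuous.continuousOn hv.cpt
  refine (integrableOn_iff_integrable_of_support_subset ?_).mp h2
  intro z hz
  refine subset_tsupport v ?_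
  rw [Function.mem_support] at hz ⊢
  exact right_ne_zero_of_mul hz

private theorem H8b_comm {u : Ec n → ℂ} {z : Ec n} (hu : ContDiffAt ℝ 2 u z) (j k : Fin n) :
    dk j (dk k u) z = dk k (dk j u) z := by
  have hD : DifferentiableAt ℝ (fderiv ℝ u) z :=
    (hu.fderiv_right (m := 1) (by norm_num)).differentiableAt (by norm_num)
  have hsym : IsSymmSndFDerivAt ℝ u z :=
    hu.isSymmSndFDerivAt (by simp [minSmoothness_of_isRCLikeNormedField])
  have hap : ∀ Y, HasFDerivAt (fun w => fderiv ℝ u w Y)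
      ((fderiv ℝ (fderiv ℝ u) z).flip Y) z := by
    intro Y
    have := hD.hasFDerivAt.clm_apply (hasFDerivAt_const Y z)
    refine this.congr_fderiv ?_
    ext v
    simp
  have hk : ∀ (l : Fin n) (X : Ec n), fderiv ℝ (dk l u) z X =
      (fderiv ℝ (fderiv ℝ u) z X (ee l) +
        Complex.I * fderiv ℝ (fderiv ℝ u) z X (Complex.I • ee l)) / 2 := by
    intro l X
    have h1 : HasFDerivAt (fun w => (2⁻¹ : ℂ) • (fderiv ℝ u w (ee l) +
        Complex.I • fderiv ℝ u w (Complex.I • ee l)))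
        ((2⁻¹ : ℂ) • ((fderiv ℝ (fderiv ℝ u) z).flip (ee l) +
          Complex.I • (fderiv ℝ (fderiv ℝ u) z).flip (Complex.I • ee l))) z :=
      ((hap (ee l)).add ((hap (Complex.I • ee l)).const_smul Complex.I)).const_smul (2⁻¹ : ℂ)
    have h2 : dk l u = fun w => (2⁻¹ : ℂ) • (fderiv ℝ u w (ee l) +
        Complex.I • fderiv ℝ u w (Complex.I • ee l)) := by
      funext w
      rw [dk, smul_eq_mul, smul_eq_mul]
      ring
    rw [h2, h1.fderiv]
    simp only [smul_apply, add_apply,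
      ContinuousLinearMap.flip_apply, smul_eq_mul]
    ring
  rw [dk, dk, hk, hk, hk, hk]
  rw [hsym.eq (ee j) (ee k), hsym.eq (ee j) (Complex.I • ee k), hsym.eq (Complex.I • ee j) (ee k),
    hsym.eq (Complex.I • ee j) (Complex.I • ee k)]
  ring

private theorem H8b_zero {Ω : Set (Ec n)} {v : Ec n → ℂ} (hv : TF Ω v) {z : Ec n} (hz : z ∉ Ω) :
    v z = 0 := image_eq_zero_of_notMem_tsupport fun h => hz (hv.sub h)

/-- a smooth function on `U` from a function on `V ∩ U` and a cut-off function -/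
private theorem H8b_smooth {U V : Set (Ec n)} (hU : IsOpen U) (hV : IsOpen V) {a G : Ec n → ℂ}
    (ha : ContDiffOn ℝ ∞ a U) (ha0 : ∀ z ∈ U, z ∉ V → ∀ᶠ y in 𝓝 z, a y = 0)
    (hG : ContDiffOn ℝ 2 G (V ∩ U)) {w : Ec n → ℂ} (hw1 : ∀ z ∈ V ∩ U, w z = a z * G z)
    (hw0 : ∀ z ∉ V ∩ U, w z = 0) : ContDiffOn ℝ 1 w U := by
  intro z hz
  refine ContDiffAt.contDiffWithinAt ?_
  by_cases h : z ∈ V
  · have hz2 : V ∩ U ∈ 𝓝 z := (hV.inter hU).mem_nhds ⟨h, hz⟩
    have h1 : ContDiffAt ℝ 1 (fun y => a y * G y) z := by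
      refine ContDiffAt.mul ?_ ?_
      · exact (ha.contDiffAt (hU.mem_nhds hz)).of_le (by exact_mod_cast le_top)
      · exact (hG.contDiffAt hz2).of_le (by norm_num)
    refine h1.congr_of_eventuallyEq ?_
    filter_upwards [hz2] with y hy
    exact hw1 y hy
  · have h1 : w =ᶠ[𝓝 z] fun _ => (0 : ℂ) := by
      filter_upwards [ha0 z hz h] with y hy
      by_cases h2 : y ∈ V ∩ U
      · rw [hw1 y h2, hy, zero_mul]
      · exact hw0 y h2
    exact contDiffAt_const.congr_of_eventuallyEq h1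

private theorem H8b_dkcont {U : Set (Ec n)} (hU : IsOpen U) {w : Ec n → ℂ}
    (hw : ContDiffOn ℝ 1 w U) (k : Fin n) : ContinuousOn (dk k w) U := by
  have h1 : ContinuousOn (fderiv ℝ w) U := hw.continuousOn_fderiv_of_isOpen hU le_rfl
  have h2 : ∀ Y : Ec n, ContinuousOn (fun z => fderiv ℝ w z Y) U := fun Y =>
    h1.clm_apply continuousOn_const
  exact ((h2 _).add (continuousOn_const.mul (h2 _))).div_const _

/-- the weak equation is symmetric -/
private theorem H8b_piece {U : Set (Ec n)} (hU : IsOpen U) {w : Ec n → ℂ}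
    (hw : ContDiffOn ℝ 1 w U) {α : Fin n → Ec n → ℂ} (hα : ∀ j, ∀ z ∈ U, α j z = dk j w z)
    {v : Ec n → ℂ} (hv : TF U v) (j k : Fin n) :
    ∫ z, α k z * dk j v z = ∫ z, α j z * dk k v z := by
  have h0 : ∀ a b : Fin n, ∫ z, α a z * dk b v z = -∫ z, w z * dk a (dk b v) z := by
    intro a b
    rw [ibp_dk hU hw (TF_dj hv b).2 a, neg_neg]
    refine integral_congr_ae (Filter.Eventually.of_forall fun z => ?_)
    by_cases hz : z ∈ U
    · simp only [hα a z hz]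
    · simp only [H8b_zero (TF_dj hv b).2 hz, mul_zero]
  rw [h0, h0]
  congr 1
  refine integral_congr_ae (Filter.Eventually.of_forall fun z => ?_)
  simp only
  have hv2 : ContDiff ℝ 2 v := by
    have h3 := contDiff_infty.mp hv.sm 2
    exact_mod_cast h3
  rw [H8b_comm hv2.contDiffAt k j]

/-- localisation of a test function -/
private theorem H8b_cut {Ω U : Set (Ec n)} (hΩ : IsOpen Ω) {a v : Ec n → ℂ}
    (ha : ContDiffOn ℝ ∞ a Ω) (ha0 : ∀ z ∈ Ω, z ∉ U → ∀ᶠ y in 𝓝 z, a y = 0) (hv : TF Ω v) :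
    TF U fun z => a z * v z := by
  have h := TF_mul hΩ ha hv
  refine ⟨h.sm, h.cpt, fun z hz => ?_⟩
  by_contra h1
  have h2 := ha0 z (h.sub hz) h1
  refine (notMem_tsupport_iff_eventuallyEq.mpr ?_) hz
  filter_upwards [h2] with y hy
  simp only [hy, zero_mul, Pi.zero_apply]

private theorem H8b_mono {U Ω : Set (Ec n)} (h : U ⊆ Ω) {v : Ec n → ℂ} (hv : TF U v) : TF Ω v :=
  ⟨hv.sm, hv.cpt, hv.sub.trans h⟩

/-- PROOF. `weights`, `weak_solution`. -/
theorem dbar_weak {Ω : Set (Ec n)} (hΩ : PshEx Ω) {α : Fin n → Ec n → ℂ}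
    (hα : ∀ j, ContinuousOn (α j) Ω)
    (hcl : ∀ v, TF Ω v → ∀ j k, ∫ z, α k z * dk j v z = ∫ z, α j z * dk k v z) :
    ∃ u : Ec n → ℂ, LocallyIntegrableOn u Ω ∧
      ∀ j, ∀ v, TF Ω v → ∫ z, u z * dk j v z = -∫ z, α j z * v z := by
  obtain ⟨ψ, hψ⟩ := hΩ
  obtain ⟨φ, σ, η, hW, hi⟩ := weights hψ hα
  exact weak_solution hW hα hi hcl

/-- The first Cousin problem for two open sets.
PROOF. `χ` from `exists_cut`. `w₂ = χ G` on `Ω₂` (`0` on `Ω₂ \ Ω₁`; smooth on `Ω₂`, since `χ = 0` near the points of `Ω₂ \ Ω₁`), `w₁ = (χ - 1) G` on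
`Ω₁` (`0` on `Ω₁ \ Ω₂`; smooth on `Ω₁`), `w₂ - w₁ = G` on `Ω₁ ∩ Ω₂`. Holomorphic functions are smooth (`ContDiffOn ℝ ∞`; look at FD/H0,
`DifferentiableOn.analyticOn` for one variable, or Mathlib's `DifferentiableOn.analyticOnNhd`, Osgood; it is enough to have
`C²` if that is easier: FD/H0 `hol_c2`). So `dk j w₁ = dk j w₂` on `Ω₁ ∩ Ω₂`: these functions define continuous functions `α j` on
`Ω`; they are of class `C¹` and `dk k (α j) = dk j (α k)`; `hcl` of `dbar_weak`: by a partition (each test function in `Ω` is a sum of a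
test function in `Ω₁` and one in `Ω₂`, multiply with a second function `χ'`), and `ibp_dk` on `Ω_i`:
`∫ α k * dk j v = ∫ dk k w_i * dk j v = -∫ w_i * dk k (dk j v)`, symmetric. `dbar_weak` gives `u`. On `Ω_i` the
function `u - w_i` satisfies `∫ (u - w_i) dk j v = 0` for all test functions in `Ω_i`; by `weyl` it is almost everywhere equal to a
holomorphic function `G_i` on `Ω_i`. On `Ω₁ ∩ Ω₂`: `G₁ - G₂ = w₂ - w₁ = G` almost everywhere, so everywhere
(continuous functions; non empty open sets have positive measure). -/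
theorem cousin {Ω Ω₁ Ω₂ : Set (Ec n)} (hΩ : PshEx Ω) (h1 : IsOpen Ω₁) (h2 : IsOpen Ω₂)
    (hu : Ω₁ ∪ Ω₂ = Ω) {G : Ec n → ℂ} (hG : DifferentiableOn ℂ G (Ω₁ ∩ Ω₂)) :
    ∃ G₁ G₂ : Ec n → ℂ, DifferentiableOn ℂ G₁ Ω₁ ∧ DifferentiableOn ℂ G₂ Ω₂ ∧
      ∀ z ∈ Ω₁ ∩ Ω₂, G z = G₁ z - G₂ z := by
  classical
  have hΩo : IsOpen Ω := hu ▸ h1.union h2
  have hs1 : Ω₁ ⊆ Ω := hu ▸ Set.subset_union_left
  have hs2 : Ω₂ ⊆ Ω := hu ▸ Set.subset_union_right
  obtain ⟨χ, hχ, hχ1, hχ2⟩ := exists_cut h1 h2 hu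
  have hG2 : ContDiffOn ℝ 2 G (Ω₁ ∩ Ω₂) := FD.hol_c2 (h1.inter h2) hG
  have hχc : ContDiffOn ℝ ∞ (fun z => (χ z : ℂ)) Ω :=
    Complex.ofRealCLM.contDiff.comp_contDiffOn hχ
  have hχd : ContDiffOn ℝ ∞ (fun z => (χ z : ℂ) - 1) Ω := hχc.sub contDiffOn_const
  have hχe : ContDiffOn ℝ ∞ (fun z => 1 - (χ z : ℂ)) Ω := contDiffOn_const.sub hχc
  have hz2 : ∀ z ∈ Ω₂, z ∉ Ω₁ → ∀ᶠ y in 𝓝 z, (χ y : ℂ) = 0 := by
    intro z hz hz'
    filter_upwards [hχ1 z (hs2 hz) hz'] with y hy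
    rw [hy, Complex.ofReal_zero]
  have hz1 : ∀ z ∈ Ω₁, z ∉ Ω₂ → ∀ᶠ y in 𝓝 z, (χ y : ℂ) - 1 = 0 := by
    intro z hz hz'
    filter_upwards [hχ2 z (hs1 hz) hz'] with y hy
    rw [hy, Complex.ofReal_one, sub_self]
  -- the two functions
  obtain ⟨w₂, hw21, hw20⟩ : ∃ w : Ec n → ℂ, (∀ z ∈ Ω₁ ∩ Ω₂, w z = (χ z : ℂ) * G z) ∧
      ∀ z ∉ Ω₁ ∩ Ω₂, w z = 0 :=
    ⟨fun z => if z ∈ Ω₁ ∩ Ω₂ then (χ z : ℂ) * G z else 0, fun z hz => if_pos hz,
      fun z hz => if_neg hz⟩
  obtain ⟨w₁, hw11, hw10⟩ : ∃ w : Ec n → ℂ, (∀ z ∈ Ω₂ ∩ Ω₁, w z = ((χ z : ℂ) - 1) * G z) ∧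
      ∀ z ∉ Ω₂ ∩ Ω₁, w z = 0 :=
    ⟨fun z => if z ∈ Ω₂ ∩ Ω₁ then ((χ z : ℂ) - 1) * G z else 0, fun z hz => if_pos hz,
      fun z hz => if_neg hz⟩
  have hw2 : ContDiffOn ℝ 1 w₂ Ω₂ := H8b_smooth h2 h1 (hχc.mono hs2) hz2 hG2 hw21 hw20
  have hw1 : ContDiffOn ℝ 1 w₁ Ω₁ :=
    H8b_smooth h1 h2 (hχd.mono hs1) hz1 (by rw [Set.inter_comm]; exact hG2) hw11 hw10
  have hdiff : ∀ z ∈ Ω₁ ∩ Ω₂, w₂ z = w₁ z + G z := by
    intro z hz
    rw [hw21 z hz, hw11 z ⟨hz.2, hz.1⟩]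
    ring
  have hdk : ∀ j, ∀ z ∈ Ω₁ ∩ Ω₂, dk j w₂ z = dk j w₁ z := by
    intro j z hz
    have hzn : Ω₁ ∩ Ω₂ ∈ 𝓝 z := (h1.inter h2).mem_nhds hz
    have e1 : w₂ =ᶠ[𝓝 z] fun y => w₁ y + G y := by
      filter_upwards [hzn] with y hy
      exact hdiff y hy
    have e2 : dk j w₂ z = dk j (fun y => w₁ y + G y) z := by
      rw [dk, dk, e1.fderiv_eq]
    have d1 : DifferentiableAt ℝ w₁ z :=
      (hw1.contDiffAt (h1.mem_nhds hz.1)).differentiableAt (by norm_num)
    have d2 : DifferentiableAt ℂ G z := hG.differentiableAt hzn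
    rw [e2, (dj_add d1 (d2.restrictScalars ℝ) j).2, dk_hol d2 j, add_zero]
  -- the right hand side
  obtain ⟨α, hα1, hα2⟩ : ∃ α : Fin n → Ec n → ℂ, (∀ j, ∀ z ∈ Ω₁, α j z = dk j w₁ z) ∧
      ∀ j, ∀ z ∈ Ω₂, α j z = dk j w₂ z := by
    refine ⟨fun j z => if z ∈ Ω₁ then dk j w₁ z else dk j w₂ z, fun j z hz => if_pos hz,
      fun j z hz => ?_⟩
    by_cases h : z ∈ Ω₁
    · simp only [if_pos h]
      exact (hdk j z ⟨h, hz⟩).symm
    · simp only [if_neg h]
  have hα : ∀ j, ContinuousOn (α j) Ω := by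
    intro j z hz
    refine ContinuousAt.continuousWithinAt ?_
    rw [← hu] at hz
    rcases hz with hz | hz
    · have hc := (H8b_dkcont h1 hw1 j).continuousAt (h1.mem_nhds hz)
      refine hc.congr ?_
      filter_upwards [h1.mem_nhds hz] with y hy
      exact (hα1 j y hy).symm
    · have hc := (H8b_dkcont h2 hw2 j).continuousAt (h2.mem_nhds hz)
      refine hc.congr ?_
      filter_upwards [h2.mem_nhds hz] with y hy
      exact (hα2 j y hy).symm
  have hαl : ∀ j, LocallyIntegrableOn (α j) Ω := fun j =>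
    (hα j).locallyIntegrableOn hΩo.measurableSet
  have hcl : ∀ v, TF Ω v → ∀ j k, ∫ z, α k z * dk j v z = ∫ z, α j z * dk k v z := by
    intro v hv j k
    have t1 : TF Ω₁ fun z => (χ z : ℂ) * v z := by
      refine H8b_cut hΩo hχc ?_ hv
      intro z hz hz'
      filter_upwards [hχ1 z hz hz'] with y hy
      rw [hy, Complex.ofReal_zero]
    have t2 : TF Ω₂ fun z => (1 - (χ z : ℂ)) * v z := by
      refine H8b_cut hΩo hχe ?_ hv
      intro z hz hz'
      filter_upwards [hχ2 z hz hz'] with y hy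
      rw [hy, Complex.ofReal_one, sub_self]
    have hsum : ∀ l : Fin n, ∀ z, dk l v z = dk l (fun z => (χ z : ℂ) * v z) z +
        dk l (fun z => (1 - (χ z : ℂ)) * v z) z := by
      intro l z
      have e : v = fun z => (χ z : ℂ) * v z + (1 - (χ z : ℂ)) * v z := by
        funext y
        ring
      conv_lhs => rw [e]
      exact (dj_add ((t1.sm.differentiable (by simp)) z) ((t2.sm.differentiable (by simp)) z) l).2
    have hsplit : ∀ a b : Fin n, (∫ z, α a z * dk b v z) =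
        (∫ z, α a z * dk b (fun z => (χ z : ℂ) * v z) z) +
          ∫ z, α a z * dk b (fun z => (1 - (χ z : ℂ)) * v z) z := by
      intro a b
      rw [← integral_add (H8b_int (hαl a) (TF_dj (H8b_mono hs1 t1) b).2)
        (H8b_int (hαl a) (TF_dj (H8b_mono hs2 t2) b).2)]
      refine integral_congr_ae (Filter.Eventually.of_forall fun z => ?_)
      simp only
      rw [hsum b z]
      ring
    rw [hsplit k j, hsplit j k, H8b_piece h1 hw1 hα1 t1 j k, H8b_piece h2 hw2 hα2 t2 j k]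
  obtain ⟨u, hul, hue⟩ := dbar_weak hΩ hα hcl
  have hloc : ∀ {U : Set (Ec n)} (_ : IsOpen U) (_ : U ⊆ Ω) {w : Ec n → ℂ}
      (_ : ContDiffOn ℝ 1 w U) (_ : ∀ j, ∀ z ∈ U, α j z = dk j w z),
      ∃ F : Ec n → ℂ, DifferentiableOn ℂ F U ∧ ∀ᵐ z ∂(volume.restrict U), u z - w z = F z := by
    intro U hU hUΩ w hw hαw
    have hul' : LocallyIntegrableOn u U := hul.mono_set hUΩ
    have hwl : LocallyIntegrableOn w U := hw.continuousOn.locallyIntegrableOn hU.measurableSet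
    refine weyl hU (hul'.sub hwl) ?_
    intro j v hv
    have e1 : (∫ z, (u z - w z) * dk j v z) =
        (∫ z, u z * dk j v z) - ∫ z, w z * dk j v z := by
      rw [← integral_sub (H8b_int hul' (TF_dj hv j).2) (H8b_int hwl (TF_dj hv j).2)]
      refine integral_congr_ae (Filter.Eventually.of_forall fun z => ?_)
      simp only
      ring
    have e2 : ∫ z, α j z * v z = ∫ z, dk j w z * v z := by
      refine integral_congr_ae (Filter.Eventually.of_forall fun z => ?_)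
      by_cases hz : z ∈ U
      · simp only [hαw j z hz]
      · simp only [H8b_zero hv hz, mul_zero]
    show (∫ z, (u z - w z) * dk j v z) = 0
    rw [e1, hue j v (H8b_mono hUΩ hv), ibp_dk hU hw hv j, e2]
    ring
  obtain ⟨F₁, hF1, hF1e⟩ := hloc h1 hs1 hw1 hα1
  obtain ⟨F₂, hF2, hF2e⟩ := hloc h2 hs2 hw2 hα2
  refine ⟨F₁, F₂, hF1, hF2, ?_⟩
  have hae : G =ᵐ[volume.restrict (Ω₁ ∩ Ω₂)] fun z => F₁ z - F₂ z := by
    have a1 := ae_restrict_of_ae_restrict_of_subset (Set.inter_subset_left : Ω₁ ∩ Ω₂ ⊆ Ω₁) hF1e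
    have a2 := ae_restrict_of_ae_restrict_of_subset (Set.inter_subset_right : Ω₁ ∩ Ω₂ ⊆ Ω₂) hF2e
    have a3 := ae_restrict_mem (μ := (volume : Measure (Ec n))) (h1.inter h2).measurableSet
    filter_upwards [a1, a2, a3] with z b1 b2 b3
    rw [← b1, ← b2, hdiff z b3]
    ring
  exact Measure.eqOn_open_of_ae_eq hae (h1.inter h2) hG.continuousOn
    ((hF1.continuousOn.mono Set.inter_subset_left).sub
      (hF2.continuousOn.mono Set.inter_subset_right))

end Pool.Agent.MPca0fc2.LV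
end
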