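import Mathlib
import Pool.Agent.Lib.MP_ca0fc2_an.PTInc
import Pool.Agent.Lib.MP_ca0fc2_an.Mg.G050
import Pool.Agent.Lib.MP_ca0fc2_an.Mg.G022
import Pool.Agent.Lib.MP_ca0fc2_an.Mg.G020
import Pool.Agent.Lib.MP_ca0fc2_an.Mg.G051
import Pool.Agent.Lib.MP_ca0fc2_an.Mg.G021
import Pool.Agent.Lib.MP_ca0fc2_an.Mg.G066
import Pool.Agent.Lib.MP_ca0fc2_an.Mg.G062

section

set_option autoImplicit false

open Metric Set MeasureTheory Filter Topology
open scoped InnerProductSpace ENNReal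

namespace Pool.Agent.MPca0fc2.PT

variable {E : Type*} [NormedAddCommGroup E] [InnerProductSpace ℂ E]

variable [FiniteDimensional ℂ E] [MeasurableSpace E] [BorelSpace E]

omit [FiniteDimensional ℂ E] [MeasurableSpace E] [BorelSpace E] in
theorem age_norm_smul {θ : ℝ} (h0 : 0 < θ) (h1 : θ < 1) (i : ℕ) (w : E) :
    ‖(rt θ i : ℂ) • w‖ = rt θ i * ‖w‖ := by
  have : 0 ≤ rt θ i := by
    unfold rt
    linarith [pow_le_one₀ (n := i) h0.le h1.le]
  rw [norm_smul, Complex.norm_real, Real.norm_of_nonneg this]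

end Pool.Agent.MPca0fc2.PT
end

section

set_option autoImplicit false

open Metric Set MeasureTheory Filter Topology
open scoped InnerProductSpace ENNReal

namespace Pool.Agent.MPca0fc2.QT

open Pool.Agent.MPca0fc2.PT

variable {E : Type*} [NormedAddCommGroup E] [InnerProductSpace ℂ E]
variable [FiniteDimensional ℂ E] [MeasurableSpace E] [BorelSpace E]

variable {ι : Type} [Fintype ι] {d N m : ℕ} {cc : ι → Fin d → ℂ} {χ : ι → (Fin d → ℂ) → ℝ}
variable {θ ϑ : ℝ} {P : ℕ} {c ρ C₀ p M A ρ₀ C₁ L : ℝ}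
variable {ν : Measure E} {f : Fin N → E → ℂ} {u : Fin d → E → ℂ} {s : ι → E → Fin N → ℂ}

omit [MeasurableSpace E] [BorelSpace E] in
/-- holomorphic functions are twice continuously differentiable -/
theorem QTXc_hol {g : E → ℂ} {U : Set E} (hU : IsOpen U) (hg : DifferentiableOn ℂ g U) :
    ContDiffOn ℂ 2 g U := by
  have hd : ∀ g : E → ℂ, DifferentiableOn ℂ g U → ∀ v : E,
      DifferentiableOn ℂ (fun z => fderiv ℂ g z v) U := by
    intro g hg v z hz
    apply DifferentiableAt.differentiableWithinAt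
    have hO : IsOpen (U ∩ g ⁻¹' ball (g z) 1) := hg.continuousOn.isOpen_inter_preimage hU isOpen_ball
    have hzO : z ∈ U ∩ g ⁻¹' ball (g z) 1 := ⟨hz, by simp⟩
    refine (Pool.Agent.Lib.MP_ca0fc2_an.differentiableOn_fderiv_apply hO
      (hg.mono inter_subset_left) (M := ‖g z‖ + 1) ?_ v).differentiableAt (hO.mem_nhds hzO)
    intro x hx
    have h1 : ‖g x - g z‖ < 1 := by
      have := hx.2
      rwa [mem_preimage, mem_ball, dist_eq_norm] at this
    calc ‖g x‖ = ‖g z + (g x - g z)‖ := by congr 1; ring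
      _ ≤ ‖g z‖ + ‖g x - g z‖ := norm_add_le _ _
      _ ≤ ‖g z‖ + 1 := by linarith
  have h1 : ∀ g : E → ℂ, DifferentiableOn ℂ g U → ContDiffOn ℂ 1 g U := by
    intro g hg
    rw [show (1 : WithTop ℕ∞) = 0 + 1 by norm_num, contDiffOn_succ_iff_fderiv_of_isOpen hU]
    refine ⟨hg, by simp, ?_⟩
    rw [contDiffOn_clm_apply]
    intro v
    rw [contDiffOn_zero]
    exact (hd g hg v).continuousOn
  rw [show (2 : WithTop ℕ∞) = 1 + 1 by norm_num, contDiffOn_succ_iff_fderiv_of_isOpen hU]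
  refine ⟨hg, by simp, ?_⟩
  rw [contDiffOn_clm_apply]
  intro v
  exact h1 _ (hd g hg v)

end Pool.Agent.MPca0fc2.QT
end

section

/-! Characters of the algebra of bounded holomorphic functions which extend to all the small cells. -/

set_option autoImplicit false

open Metric Set MeasureTheory Filter Topology

namespace Pool.Agent.MPca0fc2.IND

open Pool.Agent.Lib.MP_ca0fc2_an
open Pool.Agent.MPca0fc2.CXS (LocOn)

variable {n : ℕ} {Δ : Set (EuclideanSpace ℂ (Fin n))}

/-- The functions in the kernel of the character `Φ` of `H^∞(Δ)` are not solvable on any of the cells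
of functions of `A` around `Φ`. -/
def Ext (Δ : Set (EuclideanSpace ℂ (Fin n))) (A : Set (EuclideanSpace ℂ (Fin n) → ℂ))
    (Φ : Char Δ Unit) : Prop :=
  ∀ (N : ℕ) (w : Fin N → EuclideanSpace ℂ (Fin n) → ℂ), (∀ j, BH Δ (cf (w j))) →
    (∀ j, Φ.φ (cf (w j)) = 0) → ∀ (k : ℕ) (a : Fin k → EuclideanSpace ℂ (Fin n) → ℂ),
    (∀ i, a i ∈ A) → ∀ ε : ℝ, 0 < ε → ∀ C : ℝ,
      ¬ SolvableOn w (cellOn Δ a (fun i => Φ.φ (cf (a i))) ε) C

/-- PROOF. As `glue_core` in `INDGlue.lean` (without the function `F`) and `char_extend` in `CXSLoc.lean`: suppose that `w` is solvable on the cell with the constant `C`. The family `f = (a i - Φ (a i), w j)` is killed by `Φ`. It is solvable on all the cells `{‖a i z - a i b‖ < ε / 4}`, `b ∈ Δ`: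
if `‖a i b - Φ (a i)‖ < ε / 2` for all `i` then this cell is contained in the cell of `Φ`, where `w` is solvable; otherwise some `a i - Φ (a i)` is at least `ε / 4` on it. By `hA` the family `f` is solvable on `Δ`, which contradicts `Φ (f j) = 0`. -/
theorem ext_of_loc {A : Set (EuclideanSpace ℂ (Fin n) → ℂ)} (hA : LocOn Δ A)
    (hAH : ∀ a ∈ A, IsHinf Δ a) (Φ : Char Δ Unit) : Ext Δ A Φ := by
  classical
  intro N w hBw hΦw k a haA ε hε C hsol
  have haB : ∀ i, BH Δ (cf (a i)) := fun i => bh_of_hinf (hAH _ (haA i))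
  obtain ⟨v, hv⟩ : ∃ v : Fin k → EuclideanSpace ℂ (Fin n) → ℂ,
    v = fun i z => a i z - Φ.φ (cf (a i)) := ⟨_, rfl⟩
  have hvB : ∀ i, BH Δ (cf (v i)) := fun i => by rw [hv]; exact (haB i).sub (BH.const _)
  have hv0 : ∀ i, Φ.φ (cf (v i)) = 0 := fun i => by
    have h1 := Char.map_sub Φ (haB i) (BH.const (Φ.φ (cf (a i))))
    rw [Φ.map_const, sub_self] at h1
    rw [hv]
    exact h1
  obtain ⟨f, hf⟩ : ∃ f : Fin (k + N) → EuclideanSpace ℂ (Fin n) → ℂ,
    f = Fin.append v w := ⟨_, rfl⟩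
  have hfl : ∀ i, f (Fin.castAdd N i) = v i := fun i => by rw [hf, Fin.append_left]
  have hfr : ∀ j, f (Fin.natAdd k j) = w j := fun j => by rw [hf, Fin.append_right]
  have hfB : ∀ j, BH Δ (cf (f j)) := by
    intro j
    refine Fin.addCases (fun i => ?_) (fun j => ?_) j
    · rw [hfl]; exact hvB i
    · rw [hfr]; exact hBw j
  have hf0 : ∀ j, Φ.φ (cf (f j)) = 0 := by
    intro j
    refine Fin.addCases (fun i => ?_) (fun j => ?_) j
    · rw [hfl]; exact hv0 i
    · rw [hfr]; exact hΦw j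
  obtain ⟨B, hB⟩ : ∃ B : ℝ, B = (N : ℝ) * |C| + ((1 : ℕ) : ℝ) * |4 / ε| := ⟨_, rfl⟩
  obtain ⟨C', h, hd, hb, hs⟩ := hA (k + N) k f a B (ε / 4) (fun j => hinf_of_bh (hfB j)) haA
    (by positivity) (by
      intro b hb
      by_cases hc : ∀ i, ‖a i b - Φ.φ (cf (a i))‖ < ε / 2
      · refine CXS.solv_sub (CXS.solv_map' (f' := f) (Fin.natAdd k)
          (fun j z _ => by rw [hfr]) hsol) ?_ ?_
        · rintro z ⟨hz, hzp⟩
          refine ⟨hz, fun i => ?_⟩
          have h3 : a i z - Φ.φ (cf (a i)) = (a i z - a i b) + (a i b - Φ.φ (cf (a i))) := by ring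
          rw [h3]
          refine (norm_add_le _ _).trans_lt ?_
          linarith [hzp i, hc i]
        · rw [hB]
          have : 0 ≤ ((1 : ℕ) : ℝ) * |4 / ε| := by positivity
          linarith
      · push Not at hc
        obtain ⟨i, hi⟩ := hc
        have hlow : ∀ z ∈ {z | z ∈ Δ ∧ ∀ i, ‖a i z - a i b‖ < ε / 4}, ε / 4 ≤ ‖v i z‖ := by
          rintro z ⟨hz, hzp⟩
          have h3 : a i b - Φ.φ (cf (a i)) = (a i z - Φ.φ (cf (a i))) - (a i z - a i b) := by ring
          rw [h3] at hi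
          have h4 := norm_sub_le (a i z - Φ.φ (cf (a i))) (a i z - a i b)
          have h5 := hzp i
          rw [hv]
          linarith
        have hne : ∀ z ∈ {z | z ∈ Δ ∧ ∀ i, ‖a i z - a i b‖ < ε / 4}, v i z ≠ 0 := by
          intro z hz h0
          have := hlow z hz
          rw [h0, norm_zero] at this
          linarith
        have h2 : SolvableOn (fun (_ : Fin 1) => v i)
            {z | z ∈ Δ ∧ ∀ i, ‖a i z - a i b‖ < ε / 4} (4 / ε) := by
          refine ⟨fun _ z => (v i z)⁻¹, fun _ => ?_, fun _ z hz => ?_, fun z hz => ?_⟩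
          · exact (((hvB i).holo ()).mono fun z hz => hz.1).fun_inv hne
          · rw [norm_inv, inv_le_comm₀ (norm_pos_iff.mpr (hne z hz)) (by positivity), inv_div]
            exact hlow z hz
          · rw [Fin.sum_univ_one]
            exact mul_inv_cancel₀ (hne z hz)
        refine CXS.solv_sub (CXS.solv_map' (f' := f) (fun _ : Fin 1 => Fin.castAdd N i)
          (fun j z _ => by rw [hfl]) h2) Subset.rfl ?_
        rw [hB]
        have : 0 ≤ (N : ℝ) * |C| := by positivity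
        linarith)
  have hBh : ∀ j, BH Δ (cf (h j)) := fun j => ⟨fun _ => hd j, C', fun _ z hz => hb j z hz⟩
  have h1 : Φ.φ (fun t z => ∑ j ∈ Finset.univ, cf (f j) t z * cf (h j) t z) = 0 := by
    rw [Char.map_sum Φ fun j _ => (hfB j).mul (hBh j)]
    apply Finset.sum_eq_zero
    intro j _
    rw [Φ.map_mul (hfB j) (hBh j), hf0, zero_mul]
  have h2 : Φ.φ (fun t z => ∑ j ∈ Finset.univ, cf (f j) t z * cf (h j) t z) = 1 := by
    rw [Char.congr Φ (BH.const (Δ := Δ) (I := Unit) 1) (fun _ z hz => hs z hz), Φ.map_const]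
  rw [h1] at h2
  exact zero_ne_one h2

/-- The family is solvable, up to perturbations.
PROOF. `∑ f j * h j = 1 + u`, `‖u‖ ≤ N C η ≤ 1 / 2`; divide by `1 + u`. (If `N = 0` both sides are the same.) -/
theorem solv_pert {N : ℕ} {f g : Fin N → EuclideanSpace ℂ (Fin n) → ℂ}
    {D : Set (EuclideanSpace ℂ (Fin n))} {C η : ℝ} (h : SolvableOn f D C)
    (hg : ∀ j, DifferentiableOn ℂ (g j) D) (hf : ∀ j, DifferentiableOn ℂ (f j) D) (hC : 0 ≤ C)
    (hη : N * C * η ≤ 1 / 2)
    (hfg : ∀ j, ∀ z ∈ D, ‖f j z - g j z‖ ≤ η) : SolvableOn g D (2 * C) := by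
  classical
  obtain ⟨h, h1, h2, h3⟩ := h
  obtain ⟨s, hs⟩ : ∃ s : EuclideanSpace ℂ (Fin n) → ℂ, s = fun z => ∑ j, g j z * h j z := ⟨_, rfl⟩
  have hlow : ∀ z ∈ D, 1 / 2 ≤ ‖s z‖ := by
    intro z hz
    have h4 : (1 : ℂ) = s z + ∑ j, (f j z - g j z) * h j z := by
      rw [hs, ← h3 z hz]
      simp only [sub_mul, Finset.sum_sub_distrib]
      ring
    have h5 : ‖∑ j, (f j z - g j z) * h j z‖ ≤ 1 / 2 := by
      refine (norm_sum_le _ _).trans (le_trans ?_ hη)
      have h6 : ∀ j ∈ (Finset.univ : Finset (Fin N)), ‖(f j z - g j z) * h j z‖ ≤ C * η := by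
        intro j _
        rw [norm_mul, mul_comm]
        exact mul_le_mul (h2 j z hz) (hfg j z hz) (norm_nonneg _) hC
      refine (Finset.sum_le_sum h6).trans (le_of_eq ?_)
      rw [Finset.sum_const, Finset.card_univ, Fintype.card_fin, nsmul_eq_mul, mul_assoc]
    have h7 : ‖(1 : ℂ)‖ ≤ ‖s z‖ + ‖∑ j, (f j z - g j z) * h j z‖ := by
      conv_lhs => rw [h4]
      exact norm_add_le _ _
    rw [norm_one] at h7
    linarith
  have hne : ∀ z ∈ D, s z ≠ 0 := by
    intro z hz h0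
    have h4 := hlow z hz
    rw [h0, norm_zero] at h4
    norm_num at h4
  have hsd : DifferentiableOn ℂ s D := by
    rw [hs]
    exact DifferentiableOn.fun_sum fun j _ => (hg j).fun_mul (h1 j)
  refine ⟨fun j z => h j z * (s z)⁻¹, fun j => (h1 j).fun_mul (hsd.fun_inv hne),
    fun j z hz => ?_, fun z hz => ?_⟩
  · rw [norm_mul, norm_inv]
    have h4 : ‖s z‖⁻¹ ≤ 2 := by
      rw [inv_le_comm₀ (norm_pos_iff.mpr (hne z hz)) (by norm_num)]
      have := hlow z hz
      linarith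
    calc ‖h j z‖ * ‖s z‖⁻¹ ≤ C * 2 :=
          mul_le_mul (h2 j z hz) h4 (inv_nonneg.mpr (norm_nonneg _)) hC
      _ = 2 * C := mul_comm _ _
  · have h4 : ∑ j, g j z * (h j z * (s z)⁻¹) = s z * (s z)⁻¹ := by
      rw [hs]
      simp only [Finset.sum_mul, mul_assoc]
    rw [h4]
    exact mul_inv_cancel₀ (hne z hz)

end Pool.Agent.MPca0fc2.IND
end
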