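import Mathlib
import Pool.Agent.Lib.MP_ca0fc2_an.Mg.G045
import Pool.Agent.Lib.MP_ca0fc2_an.Mg.G059
import Pool.Agent.Lib.MP_ca0fc2_an.Holo

section

/-! Holomorphic maps of balls which are smooth up to the boundary, and the potentials which are
pulled back by them. -/

set_option autoImplicit false

open Metric Set MeasureTheory Filter Topology
open scoped InnerProductSpace ENNReal

namespace Pool.Agent.Lib.MP_ca0fc2_an

end Pool.Agent.Lib.MP_ca0fc2_an

namespace Pool.Agent.MPca0fc2.CP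

open Pool.Agent.MPca0fc2.PT

variable {E : Type*} [NormedAddCommGroup E] [InnerProductSpace ℂ E]

/-- the length of the vector `x` at the point `w` of the ball in the Bergman metric -/
noncomputable def BB (w x : E) : ℝ :=
  Real.sqrt (‖x‖ ^ 2 / (1 - ‖w‖ ^ 2) + ‖⟪w, x⟫_ℂ‖ ^ 2 / (1 - ‖w‖ ^ 2) ^ 2)

end Pool.Agent.MPca0fc2.CP
end

section

open Complex MeasureTheory Metric Set
open scoped ComplexConjugate Real Interval

namespace Pool.Agent.MPca0fc2

noncomputable section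

/-- The real-linear map `v ↦ α v + β conj v`. -/
def wl (α β : ℂ) : ℂ →L[ℝ] ℂ :=
  α • (ContinuousLinearMap.id ℝ ℂ) + β • (conjCLE : ℂ →L[ℝ] ℂ)

@[simp] lemma wl_apply (α β v : ℂ) : wl α β v = α * v + β * (starRingEnd ℂ) v := by
  simp [wl]

lemma wl_ext {α β : ℂ} {L : ℂ →L[ℝ] ℂ} (h : ∀ v, L v = α * v + β * (starRingEnd ℂ) v) :
    L = wl α β := by
  ext v
  rw [h]; simp

/-- `F` has Wirtinger derivatives `α = ∂F`, `β = ∂̄F` at `z`. -/
def HasWirt (F : ℂ → ℂ) (α β z : ℂ) : Prop := HasFDerivAt F (wl α β) z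

namespace HasWirt
variable {F G : ℂ → ℂ} {α β α' β' z : ℂ}

lemma hasFDerivAt (h : HasWirt F α β z) : HasFDerivAt F (wl α β) z := h

lemma continuousAt (h : HasWirt F α β z) : ContinuousAt F z := HasFDerivAt.continuousAt h

lemma congr_wirt (h : HasWirt F α β z) (h1 : α = α') (h2 : β = β') : HasWirt F α' β' z := by
  subst h1 h2; exact h

lemma of_hasDerivAt {f' : ℂ} (h : HasDerivAt F f' z) : HasWirt F f' 0 z :=
  (h.hasFDerivAt.restrictScalars ℝ).congr_fderiv (wl_ext fun v => by simp [mul_comm])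

lemma id (z : ℂ) : HasWirt (fun w => w) 1 0 z := of_hasDerivAt (hasDerivAt_id z)

lemma const (c z : ℂ) : HasWirt (fun _ => c) 0 0 z := of_hasDerivAt (hasDerivAt_const z c)

lemma star (h : HasWirt F α β z) :
    HasWirt (fun w => (starRingEnd ℂ) (F w)) ((starRingEnd ℂ) β) ((starRingEnd ℂ) α) z :=
  ((conjCLE : ℂ →L[ℝ] ℂ).hasFDerivAt.comp z h.hasFDerivAt).congr_fderiv
    (wl_ext fun v => by simp; ring)

lemma add (h : HasWirt F α β z) (h' : HasWirt G α' β' z) :
    HasWirt (fun w => F w + G w) (α + α') (β + β') z :=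
  (h.hasFDerivAt.add h'.hasFDerivAt).congr_fderiv (wl_ext fun v => by simp; ring)

lemma neg (h : HasWirt F α β z) : HasWirt (fun w => - F w) (-α) (-β) z :=
  (h.hasFDerivAt.neg).congr_fderiv (wl_ext fun v => by simp; ring)

lemma sub (h : HasWirt F α β z) (h' : HasWirt G α' β' z) :
    HasWirt (fun w => F w - G w) (α - α') (β - β') z :=
  (h.hasFDerivAt.sub h'.hasFDerivAt).congr_fderiv (wl_ext fun v => by simp; ring)

lemma mul (h : HasWirt F α β z) (h' : HasWirt G α' β' z) :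
    HasWirt (fun w => F w * G w) (α * G z + F z * α') (β * G z + F z * β') z :=
  (h.hasFDerivAt.mul h'.hasFDerivAt).congr_fderiv (wl_ext fun v => by simp; ring)

lemma const_mul (c : ℂ) (h : HasWirt F α β z) :
    HasWirt (fun w => c * F w) (c * α) (c * β) z := by
  refine ((const c z).mul h).congr_wirt ?_ ?_ <;> simp

lemma sum {ι : Type*} (s : Finset ι) {F : ι → ℂ → ℂ} {α β : ι → ℂ} {z : ℂ}
    (h : ∀ i ∈ s, HasWirt (F i) (α i) (β i) z) :
    HasWirt (fun w => ∑ i ∈ s, F i w) (∑ i ∈ s, α i) (∑ i ∈ s, β i) z := by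
  classical
  induction s using Finset.induction_on with
  | empty => simpa using const 0 z
  | insert a s ha ih =>
    have h1 := (h a (Finset.mem_insert_self a s)).add
      (ih (fun i hi => h i (Finset.mem_insert_of_mem hi)))
    simpa [Finset.sum_insert ha] using h1

lemma inv (h : HasWirt F α β z) (h0 : F z ≠ 0) :
    HasWirt (fun w => (F w)⁻¹) (-α / F z ^ 2) (-β / F z ^ 2) z := by
  have h2 : HasFDerivAt (fun w : ℂ => w⁻¹) ((ContinuousLinearMap.toSpanSingleton ℂ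
      (-(F z ^ 2)⁻¹) : ℂ →L[ℂ] ℂ).restrictScalars ℝ) (F z) :=
    (hasDerivAt_inv h0).hasFDerivAt.restrictScalars ℝ
  exact (h2.comp z h.hasFDerivAt).congr_fderiv (wl_ext fun v => by
    simp
    ring)

end HasWirt

end

end Pool.Agent.MPca0fc2
end

section

open Complex MeasureTheory Metric Set
open scoped ComplexConjugate Real Interval

namespace Pool.Agent.MPca0fc2

noncomputable section

/-- the point `exp (i θ)` on the unit circle -/
def ee (θ : ℝ) : ℂ := exp (θ * I)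

lemma norm_ee (θ : ℝ) : ‖ee θ‖ = 1 := by simp [ee, norm_exp_ofReal_mul_I]

lemma ee_mul_conj (θ : ℝ) : ee θ * (starRingEnd ℂ) (ee θ) = 1 := by
  rw [mul_conj, normSq_eq_norm_sq, norm_ee]; simp

lemma conj_mul_ee (θ : ℝ) : (starRingEnd ℂ) (ee θ) * ee θ = 1 := by
  rw [mul_comm, ee_mul_conj]

lemma hasDerivAt_ee (θ : ℝ) : HasDerivAt ee (ee θ * I) θ := by
  have h : HasDerivAt (fun t : ℝ => (t : ℂ) * I) I θ := by
    simpa using (Complex.ofRealCLM.hasDerivAt (x := θ)).mul_const I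
  exact h.cexp

lemma continuous_ee : Continuous ee := by
  unfold ee; fun_prop

lemma ee_pi : ee π = ee (-π) := by
  simp [ee, exp_neg, exp_pi_mul_I]

lemma mul_ee_mem {R r θ : ℝ} (hR : 1 < R) (hr : r ∈ Icc (0:ℝ) 1) :
    (r : ℂ) * ee θ ∈ ball (0:ℂ) R := by
  simp [norm_ee]
  rw [abs_of_nonneg hr.1]
  linarith [hr.2]

lemma mul_ee_mem_closedBall {r θ : ℝ} (hr : r ∈ Icc (0:ℝ) 1) :
    (r : ℂ) * ee θ ∈ closedBall (0:ℂ) 1 := by
  simp [norm_ee]
  rw [abs_of_nonneg hr.1]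
  linarith [hr.2]

lemma integral_ball_eq {β : ℂ → ℂ} (hβ : ContinuousOn β (closedBall 0 1)) :
    ∫ z in ball (0:ℂ) 1, β z =
      ∫ r in (0:ℝ)..1, ∫ θ in (-π)..π, (r:ℂ) * β (r * ee θ) := by
  have hee : ∀ p : ℝ × ℝ, Complex.polarCoord.symm p = p.1 * ee p.2 := by
    intro p
    rw [Complex.polarCoord_symm_apply, ee, exp_mul_I]
    simp
  have h1 : ∫ z in ball (0:ℂ) 1, β z =
      ∫ p in Ioo (0:ℝ) 1 ×ˢ Ioo (-π) π, (p.1 : ℂ) * β (p.1 * ee p.2) := by
    rw [← integral_indicator measurableSet_ball, ← Complex.integral_comp_polarCoord_symm,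
      show polarCoord.target = Ioi (0:ℝ) ×ˢ Ioo (-π) π from rfl]
    have : ∀ p ∈ Ioi (0:ℝ) ×ˢ Ioo (-π) π,
        p.1 • (ball (0:ℂ) 1).indicator β (Complex.polarCoord.symm p) =
        (Ioo (0:ℝ) 1 ×ˢ Ioo (-π) π).indicator (fun p => (p.1 : ℂ) * β (p.1 * ee p.2)) p := by
      rintro ⟨r, θ⟩ ⟨hr, hθ⟩
      simp only [mem_Ioi] at hr
      rw [hee]
      by_cases hr1 : r < 1
      · rw [indicator_of_mem, indicator_of_mem]
        · simp
        · exact ⟨⟨hr, hr1⟩, hθ⟩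
        · simp [norm_ee, abs_of_pos hr, hr1]
      · rw [indicator_of_notMem, indicator_of_notMem]
        · simp
        · rintro ⟨⟨_, h⟩, _⟩; exact hr1 h
        · simp [norm_ee, abs_of_pos hr]; linarith
    rw [setIntegral_congr_fun (measurableSet_Ioi.prod measurableSet_Ioo) this,
      setIntegral_indicator (measurableSet_Ioo.prod measurableSet_Ioo)]
    congr 1
    congr 1
    ext ⟨r, θ⟩
    simp only [mem_inter_iff, mem_prod, mem_Ioi, mem_Ioo]
    tauto
  rw [h1]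
  have hcont : ContinuousOn (fun p : ℝ × ℝ => (p.1 : ℂ) * β (p.1 * ee p.2))
      (Icc (0:ℝ) 1 ×ˢ Icc (-π) π) := by
    refine ContinuousOn.mul (by fun_prop) ?_
    refine hβ.comp ?_ ?_
    · have := continuous_ee
      fun_prop
    · rintro ⟨r, θ⟩ ⟨hr, _⟩
      exact mul_ee_mem_closedBall hr
  have hint : IntegrableOn (fun p : ℝ × ℝ => (p.1 : ℂ) * β (p.1 * ee p.2))
      (Ioo (0:ℝ) 1 ×ˢ Ioo (-π) π) (volume.prod volume) := by
    have := hcont.integrableOn_compact (μ := volume) (isCompact_Icc.prod isCompact_Icc)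
    exact this.mono_set (prod_mono Ioo_subset_Icc_self Ioo_subset_Icc_self)
  rw [Measure.volume_eq_prod, setIntegral_prod _ hint, intervalIntegral.integral_of_le zero_le_one,
    ← integral_Ioc_eq_integral_Ioo]
  refine setIntegral_congr_fun measurableSet_Ioc ?_
  intro r hr
  simp only
  rw [intervalIntegral.integral_of_le (by linarith [Real.pi_pos]), integral_Ioc_eq_integral_Ioo]

section
variable {Φ α β : ℂ → ℂ} {R : ℝ}

lemma hasDerivAt_circ (hR : 1 < R) (h : ∀ z ∈ ball (0:ℂ) R, HasWirt Φ (α z) (β z) z)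
    {r : ℝ} (hr : r ∈ Icc (0:ℝ) 1) (θ : ℝ) :
    HasDerivAt (fun θ : ℝ => I * ee θ * Φ (r * ee θ))
      (r * β (r * ee θ) - r * α (r * ee θ) * ee θ ^ 2 - ee θ * Φ (r * ee θ)) θ := by
  have h1 := (h _ (mul_ee_mem (θ := θ) hR hr)).hasFDerivAt
  have h2 : HasDerivAt (fun θ : ℝ => (r : ℂ) * ee θ) (r * (ee θ * I)) θ :=
    (hasDerivAt_ee θ).const_mul _
  have h3 := h1.comp_hasDerivAt θ h2
  have h4 := ((hasDerivAt_ee θ).const_mul I).mul h3
  refine h4.congr_deriv ?_
  simp only [Function.comp, wl_apply, map_mul, conj_ofReal, conj_I]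
  have := ee_mul_conj θ
  linear_combination (I * I * (-(r : ℂ)) * β (r * ee θ)) * this + (ee θ * Φ (r * ee θ) +
    r * α (r * ee θ) * ee θ ^ 2 - r * β (r * ee θ)) * I_mul_I

lemma hasDerivAt_rad (hR : 1 < R) (h : ∀ z ∈ ball (0:ℂ) R, HasWirt Φ (α z) (β z) z)
    {r : ℝ} (hr : r ∈ Icc (0:ℝ) 1) (θ : ℝ) :
    HasDerivAt (fun r : ℝ => r * Φ (r * ee θ))
      (Φ (r * ee θ) + r * (α (r * ee θ) * ee θ + β (r * ee θ) * (starRingEnd ℂ) (ee θ))) r := by
  have h1 := (h _ (mul_ee_mem (θ := θ) hR hr)).hasFDerivAt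
  have h2 : HasDerivAt (fun r : ℝ => (r : ℂ) * ee θ) (1 * ee θ) r :=
    (Complex.ofRealCLM.hasDerivAt (x := r)).mul_const _
  have h3 := h1.comp_hasDerivAt r h2
  have h4 := (Complex.ofRealCLM.hasDerivAt (x := r)).mul h3
  refine h4.congr_deriv ?_
  simp [wl_apply]

/-- **Stokes formula** for `∂̄` on the unit disc. -/
theorem stokes_dbar (hR : 1 < R) (h : ∀ z ∈ ball (0:ℂ) R, HasWirt Φ (α z) (β z) z)
    (hα : ContinuousOn α (ball 0 R)) (hβ : ContinuousOn β (ball 0 R)) :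
    ∫ z in ball (0:ℂ) 1, β z = (1/2) * ∫ θ in (-π)..π, Φ (ee θ) * ee θ := by
  have hΦ : ContinuousOn Φ (ball 0 R) := fun z hz => (h z hz).continuousAt.continuousWithinAt
  have hsub : closedBall (0:ℂ) 1 ⊆ ball 0 R := closedBall_subset_ball hR
  have hcc := continuous_ee
  have hcj : Continuous fun θ => (starRingEnd ℂ) (ee θ) := Complex.continuous_conj.comp hcc
  -- continuity on the rectangle
  have key : ∀ {γ : ℂ → ℂ}, ContinuousOn γ (ball 0 R) →
      ContinuousOn (fun p : ℝ × ℝ => γ (p.1 * ee p.2)) (Icc (0:ℝ) 1 ×ˢ Icc (-π) π) := by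
    intro γ hγ
    refine hγ.comp (by fun_prop) ?_
    rintro ⟨r, θ⟩ ⟨hr, _⟩
    exact mul_ee_mem hR hr
  have keyθ : ∀ {γ : ℂ → ℂ}, ContinuousOn γ (ball 0 R) → ∀ r ∈ Icc (0:ℝ) 1,
      Continuous (fun θ : ℝ => γ (r * ee θ)) := by
    intro γ hγ r hr
    exact hγ.comp_continuous (by fun_prop) (fun θ => mul_ee_mem hR hr)
  rw [integral_ball_eq (hβ.mono hsub)]
  set A : ℝ → ℝ → ℂ := fun r θ => r * β (r * ee θ) - r * α (r * ee θ) * ee θ ^ 2
    - ee θ * Φ (r * ee θ) with hA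
  set B : ℝ → ℝ → ℂ := fun r θ => ee θ * (Φ (r * ee θ) + r * (α (r * ee θ) * ee θ +
    β (r * ee θ) * (starRingEnd ℂ) (ee θ))) with hB
  have hAB : ∀ r θ : ℝ, (r : ℂ) * β (r * ee θ) = (1/2) * (A r θ + B r θ) := by
    intro r θ
    simp only [hA, hB]
    have := ee_mul_conj θ
    linear_combination (-(1/2) * (r : ℂ) * β (r * ee θ)) * this
  have hA0 : ∀ r ∈ Icc (0:ℝ) 1, ∫ θ in (-π)..π, A r θ = 0 := by
    intro r hr
    have := intervalIntegral.integral_eq_sub_of_hasDerivAt (a := -π) (b := π)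
      (fun θ _ => hasDerivAt_circ hR h hr θ) ?_
    · rw [hA]
      simp only
      rw [this, ee_pi]
      simp
    · apply Continuous.intervalIntegrable
      have h1 := keyθ hα r hr
      have h2 := keyθ hβ r hr
      have h3 := keyθ hΦ r hr
      exact ((continuous_const.mul h2).sub ((continuous_const.mul h1).mul (hcc.pow 2))).sub
        (hcc.mul h3)
  have hAint : ∀ r ∈ Icc (0:ℝ) 1, IntervalIntegrable (A r) volume (-π) π := by
    intro r hr
    apply Continuous.intervalIntegrable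
    have h1 := keyθ hα r hr
    have h2 := keyθ hβ r hr
    have h3 := keyθ hΦ r hr
    simp only [hA]
    exact ((continuous_const.mul h2).sub ((continuous_const.mul h1).mul (hcc.pow 2))).sub
        (hcc.mul h3)
  have hBint : ∀ r ∈ Icc (0:ℝ) 1, IntervalIntegrable (B r) volume (-π) π := by
    intro r hr
    apply Continuous.intervalIntegrable
    have h1 := keyθ hα r hr
    have h2 := keyθ hβ r hr
    have h3 := keyθ hΦ r hr
    simp only [hB]
    exact hcc.mul (h3.add (continuous_const.mul ((h1.mul hcc).add (h2.mul hcj))))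
  have step1 : ∫ r in (0:ℝ)..1, ∫ θ in (-π)..π, (r:ℂ) * β (r * ee θ) =
      ∫ r in (0:ℝ)..1, (1/2) * ∫ θ in (-π)..π, B r θ := by
    apply intervalIntegral.integral_congr
    intro r hr
    rw [uIcc_of_le zero_le_one] at hr
    simp only
    calc ∫ θ in (-π)..π, (r:ℂ) * β (r * ee θ) = ∫ θ in (-π)..π, (1/2) * (A r θ + B r θ) := by
          apply intervalIntegral.integral_congr
          intro θ _
          exact hAB r θ
      _ = (1/2) * ((∫ θ in (-π)..π, A r θ) + ∫ θ in (-π)..π, B r θ) := by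
          rw [intervalIntegral.integral_const_mul, intervalIntegral.integral_add (hAint r hr)
            (hBint r hr)]
      _ = _ := by rw [hA0 r hr, zero_add]
  rw [step1, intervalIntegral.integral_const_mul]
  congr 1
  rw [intervalIntegral_intervalIntegral_swap]
  · apply intervalIntegral.integral_congr
    intro θ _
    simp only [hB]
    rw [intervalIntegral.integral_const_mul]
    have := intervalIntegral.integral_eq_sub_of_hasDerivAt (a := (0:ℝ)) (b := 1)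
      (fun r hr => hasDerivAt_rad hR h (θ := θ) (by rwa [uIcc_of_le zero_le_one] at hr)) ?_
    · rw [this]
      simp
      ring
    · apply ContinuousOn.intervalIntegrable
      rw [uIcc_of_le zero_le_one]
      have k : ∀ {γ : ℂ → ℂ}, ContinuousOn γ (ball 0 R) →
          ContinuousOn (fun r : ℝ => γ (r * ee θ)) (Icc (0:ℝ) 1) := by
        intro γ hγ
        refine hγ.comp (by fun_prop) ?_
        intro r hr
        exact mul_ee_mem hR hr
      have h1 := k hα
      have h2 := k hβ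
      have h3 := k hΦ
      exact h3.add ((Complex.continuous_ofReal.continuousOn).mul
        ((h1.mul continuousOn_const).add (h2.mul continuousOn_const)))
  · have : ContinuousOn (Function.uncurry B) (Icc (0:ℝ) 1 ×ˢ Icc (-π) π) := by
      have h1 := key hα
      have h2 := key hβ
      have h3 := key hΦ
      have h4 : ContinuousOn (fun p : ℝ × ℝ => ee p.2) (Icc (0:ℝ) 1 ×ˢ Icc (-π) π) :=
        (hcc.comp continuous_snd).continuousOn
      have h5 : ContinuousOn (fun p : ℝ × ℝ => (starRingEnd ℂ) (ee p.2))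
          (Icc (0:ℝ) 1 ×ˢ Icc (-π) π) := (hcj.comp continuous_snd).continuousOn
      have h6 : ContinuousOn (fun p : ℝ × ℝ => (p.1 : ℂ)) (Icc (0:ℝ) 1 ×ˢ Icc (-π) π) :=
        (Complex.continuous_ofReal.comp continuous_fst).continuousOn
      simp only [hB, Function.uncurry_def]
      exact h4.mul (h3.add (h6.mul ((h1.mul h4).add (h2.mul h5))))
    have := this.integrableOn_compact (μ := volume) (isCompact_Icc.prod isCompact_Icc)
    refine this.mono_set (prod_mono ?_ ?_)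
    · rw [uIoc_of_le zero_le_one]; exact Ioc_subset_Icc_self
    · rw [uIoc_of_le (by linarith [Real.pi_pos])]; exact Ioc_subset_Icc_self

end

end

end Pool.Agent.MPca0fc2
end

section

open scoped InnerProductSpace ComplexConjugate Topology
open Complex Metric Set

namespace Pool.Agent.MPca0fc2

noncomputable section

/-- two families of vectors with the same Gram matrix are related by a contraction -/
theorem exists_contraction {X U V : Type*} [NormedAddCommGroup U] [InnerProductSpace ℂ U]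
    [CompleteSpace U] [NormedAddCommGroup V] [InnerProductSpace ℂ V] [CompleteSpace V]
    (u : X → U) (v : X → V) (h : ∀ i j, ⟪u i, u j⟫_ℂ = ⟪v i, v j⟫_ℂ) :
    ∃ W : U →L[ℂ] V, (∀ x, ‖W x‖ ≤ ‖x‖) ∧ ∀ i, W (u i) = v i := by
  classical
  set Tu := Finsupp.linearCombination ℂ u with hTu
  set Tv := Finsupp.linearCombination ℂ v with hTv
  have hinner : ∀ a : X →₀ ℂ, ⟪Tu a, Tu a⟫_ℂ = ⟪Tv a, Tv a⟫_ℂ := by
    intro a
    simp only [hTu, hTv, Finsupp.linearCombination_apply, Finsupp.sum, sum_inner, inner_sum,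
      inner_smul_left, inner_smul_right, h]
  have hnorm : ∀ a : X →₀ ℂ, ‖Tv a‖ = ‖Tu a‖ := by
    intro a
    rw [@norm_eq_sqrt_re_inner ℂ, @norm_eq_sqrt_re_inner ℂ, hinner]
  set K : Submodule ℂ U := (LinearMap.range Tu).topologicalClosure with hK
  have : CompleteSpace K := (Submodule.isClosed_topologicalClosure _).completeSpace_coe
  have hmem : ∀ a, Tu a ∈ K := fun a => Submodule.le_topologicalClosure _ ⟨a, rfl⟩
  set e : (X →₀ ℂ) →ₗ[ℂ] K := Tu.codRestrict K hmem with he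
  have hdense : DenseRange e := by
    intro x
    rw [closure_subtype]
    have hx : (x : U) ∈ closure (LinearMap.range Tu : Set U) := x.2
    have : (LinearMap.range Tu : Set U) ⊆ Subtype.val '' (range e) := by
      rintro _ ⟨a, rfl⟩
      exact ⟨e a, ⟨a, rfl⟩, rfl⟩
    exact closure_mono this hx
  have hb : ∀ a, ‖Tv a‖ ≤ 1 * ‖e a‖ := by
    intro a
    rw [one_mul, hnorm]
    exact le_of_eq rfl
  refine ⟨(Tv.extendOfNorm e).comp K.orthogonalProjectionOnto, ?_, ?_⟩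
  · intro x
    refine (LinearMap.norm_extendOfNorm_apply_le hdense 1 hb _).trans ?_
    rw [one_mul]
    exact K.norm_orthogonalProjectionOnto_apply_le x
  · intro i
    have h1 : u i = ((e (Finsupp.single i 1) : K) : U) := by
      simp [he, hTu, Finsupp.linearCombination_single]
    have h2 : K.orthogonalProjectionOnto (u i) = e (Finsupp.single i 1) := by
      rw [h1]
      exact K.orthogonalProjectionOnto_mem_subspace_eq_self _
    rw [ContinuousLinearMap.comp_apply, h2, LinearMap.extendOfNorm_eq hdense ⟨1, hb⟩]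
    simp [hTv, Finsupp.linearCombination_single]

/-- Hilbert space realisation of a positive kernel -/
theorem exists_gram {X : Type} (P : X → X → ℂ) (herm : ∀ x y, (starRingEnd ℂ) (P x y) = P y x)
    (pos : ∀ (s : Finset X) (a : X → ℂ),
      0 ≤ (∑ i ∈ s, ∑ l ∈ s, a i * (starRingEnd ℂ) (a l) * P i l).re) :
    ∃ (H : Type) (_ : NormedAddCommGroup H) (_ : InnerProductSpace ℂ H) (_ : CompleteSpace H)
      (x : X → H), ∀ i l, ⟪x i, x l⟫_ℂ = P i l := by
  classical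
  set K : Matrix X X (ℂ →L[ℂ] ℂ) := Matrix.of fun x y => P x y • (1 : ℂ →L[ℂ] ℂ) with hK
  have hK1 : K.IsHermitian := by
    apply Matrix.IsHermitian.ext
    intro i j
    simp [hK, star_smul, herm]
  have hK2 : K.PosSemidef := by
    have ht := (RKHS.posSemidef_tfae (K := K)).out 2 0
    refine ht.1 ⟨hK1, fun vv => ?_⟩
    have := pos vv.support (fun i => (starRingEnd ℂ) (vv i))
    have e : (vv.sum fun x w => vv.sum fun x' w' => ⟪(K x' x) w, w'⟫_ℂ) =
        ∑ i ∈ vv.support, ∑ l ∈ vv.support, (starRingEnd ℂ) (vv i) *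
          (starRingEnd ℂ) ((starRingEnd ℂ) (vv l)) * P i l := by
      simp only [Finsupp.sum]
      refine Finset.sum_congr rfl fun i _ => Finset.sum_congr rfl fun l _ => ?_
      simp [hK, herm]
      ring
    rw [e]
    exact this
  have : Fact K.PosSemidef := ⟨hK2⟩
  refine ⟨RKHS.OfKernel K, inferInstance, inferInstance, inferInstance,
    fun x => RKHS.kerFun (RKHS.OfKernel K) x (1:ℂ), fun i l => ?_⟩
  rw [← RKHS.kernel_inner, RKHS.OfKernel.kernel_ofKernel]
  simp [hK, herm]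

end

end Pool.Agent.MPca0fc2
end

section

open scoped InnerProductSpace ComplexConjugate Topology
open Complex Metric Set

namespace Pool.Agent.MPca0fc2

noncomputable section

/-- contraction in product coordinates -/
theorem exists_prod_contraction {X H E : Type*} [NormedAddCommGroup H] [InnerProductSpace ℂ H]
    [CompleteSpace H] [NormedAddCommGroup E] [InnerProductSpace ℂ E] [CompleteSpace E]
    (u₁ : X → H) (u₂ : X → E) (v₁ : X → H) (v₂ : X → ℂ)
    (h : ∀ i j, ⟪u₁ i, u₁ j⟫_ℂ + ⟪u₂ i, u₂ j⟫_ℂ = ⟪v₁ i, v₁ j⟫_ℂ + ⟪v₂ i, v₂ j⟫_ℂ) :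
    ∃ W : H × E →L[ℂ] H × ℂ, (∀ p, ‖(W p).1‖^2 + ‖(W p).2‖^2 ≤ ‖p.1‖^2 + ‖p.2‖^2) ∧
      ∀ i, W (u₁ i, u₂ i) = (v₁ i, v₂ i) := by
  obtain ⟨W, hW1, hW2⟩ := exists_contraction (fun i => WithLp.toLp 2 (u₁ i, u₂ i))
    (fun i => WithLp.toLp 2 (v₁ i, v₂ i)) (by
      intro i j
      rw [WithLp.prod_inner_apply, WithLp.prod_inner_apply]
      exact h i j)
  refine ⟨((WithLp.prodContinuousLinearEquiv 2 ℂ H ℂ).toContinuousLinearMap).comp
    (W.comp ((WithLp.prodContinuousLinearEquiv 2 ℂ H E).symm.toContinuousLinearMap)), ?_, ?_⟩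
  · intro p
    have h1 := hW1 (WithLp.toLp 2 p)
    have h2 : ‖W (WithLp.toLp 2 p)‖^2 ≤ ‖WithLp.toLp 2 p‖^2 := by gcongr
    rw [WithLp.prod_norm_sq_eq_of_L2, WithLp.prod_norm_sq_eq_of_L2] at h2
    exact h2
  · intro i
    have := congrArg (WithLp.prodContinuousLinearEquiv 2 ℂ H ℂ) (hW2 i)
    exact this

theorem transfer {ι : Type*} [Fintype ι] {H : Type*} [NormedAddCommGroup H]
    [InnerProductSpace ℂ H] [CompleteSpace H] (x : ball (0:ℂ) 1 → H) (f : ι → ℂ → ℂ) (c : ℝ)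
    (hg : ∀ z w : ball (0:ℂ) 1, (1 - (starRingEnd ℂ) (z:ℂ) * w) * ⟪x z, x w⟫_ℂ =
      ∑ j, (starRingEnd ℂ) (f j z) * f j w - (c:ℂ)^2) :
    ∃ Θ : ι → ℂ → ℂ, (∀ j, DifferentiableOn ℂ (Θ j) (ball 0 1)) ∧
      (∀ j, ∀ z ∈ ball (0:ℂ) 1, ‖Θ j z‖ ≤ 1) ∧
      ∀ z ∈ ball (0:ℂ) 1, ∑ j, f j z * Θ j z = c := by
  classical
  obtain ⟨W, hW1, hW2⟩ := exists_prod_contraction (X := ball (0:ℂ) 1) (H := H)
    (E := EuclideanSpace ℂ ι) (fun z => (z:ℂ) • x z) (fun z => WithLp.toLp 2 (fun j => f j z))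
    x (fun _ => (c:ℂ)) (by
      intro z w
      have := hg z w
      rw [inner_smul_left, inner_smul_right, PiLp.inner_apply]
      simp only [RCLike.inner_apply]
      have e : ∀ j, f j w * (starRingEnd ℂ) (f j z) = (starRingEnd ℂ) (f j z) * f j w :=
        fun j => mul_comm _ _
      simp only [e]
      rw [conj_ofReal]
      linear_combination -this)
  set A : H →L[ℂ] H := (ContinuousLinearMap.fst ℂ H ℂ).comp (W.comp (ContinuousLinearMap.inl ℂ H _))
    with hA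
  set B : EuclideanSpace ℂ ι →L[ℂ] H := (ContinuousLinearMap.fst ℂ H ℂ).comp
    (W.comp (ContinuousLinearMap.inr ℂ H _)) with hB
  set C : H →L[ℂ] ℂ := (ContinuousLinearMap.snd ℂ H ℂ).comp
    (W.comp (ContinuousLinearMap.inl ℂ H _)) with hC
  set D : EuclideanSpace ℂ ι →L[ℂ] ℂ := (ContinuousLinearMap.snd ℂ H ℂ).comp
    (W.comp (ContinuousLinearMap.inr ℂ H _)) with hD
  have hWd : ∀ h η, W (h, η) = (A h + B η, C h + D η) := by
    intro h η
    have : ((h, η) : H × EuclideanSpace ℂ ι) = (h, 0) + (0, η) := by simp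
    rw [this, map_add]
    rfl
  have hAn : ‖A‖ ≤ 1 := by
    refine A.opNorm_le_bound zero_le_one fun h => ?_
    have := hW1 (h, 0)
    rw [hWd] at this
    simp only [map_zero, add_zero, norm_zero] at this
    have h1 : ‖A h‖^2 ≤ ‖h‖^2 := by nlinarith [sq_nonneg ‖C h‖]
    rw [one_mul]
    exact abs_le_of_sq_le_sq' h1 (norm_nonneg _) |>.2
  set G : ℂ → (H →L[ℂ] H) := fun z => Ring.inverse (1 - z • A) with hG
  have hu : ∀ z ∈ ball (0:ℂ) 1, ‖z • A‖ < 1 := by
    intro z hz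
    rw [norm_smul]
    have : ‖z‖ < 1 := by simpa using hz
    nlinarith [norm_nonneg z, norm_nonneg A]
  have hunit : ∀ z ∈ ball (0:ℂ) 1, IsUnit (1 - z • A) := fun z hz => (Units.oneSub _ (hu z hz)).isUnit
  have hGd : ∀ z ∈ ball (0:ℂ) 1, DifferentiableAt ℂ G z := by
    intro z hz
    have h1 : DifferentiableAt ℂ (fun z : ℂ => (1 : H →L[ℂ] H) - z • A) z :=
      (differentiableAt_const _).sub (differentiableAt_id.smul_const _)
    exact (differentiableAt_inverse (𝕜 := ℂ) (hunit z hz)).comp z h1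
  have hGmul : ∀ z ∈ ball (0:ℂ) 1, ∀ h, G z (h - z • A h) = h := by
    intro z hz h
    have := Ring.inverse_mul_cancel _ (hunit z hz)
    have h2 := congrArg (fun T : H →L[ℂ] H => T h) this
    simpa using h2
  have hmulG : ∀ z ∈ ball (0:ℂ) 1, ∀ h, G z h - z • A (G z h) = h := by
    intro z hz h
    have := Ring.mul_inverse_cancel _ (hunit z hz)
    have h2 := congrArg (fun T : H →L[ℂ] H => T h) this
    simpa using h2
  refine ⟨fun j z => D (EuclideanSpace.single j 1) + C (z • G z (B (EuclideanSpace.single j 1))),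
    ?_, ?_, ?_⟩
  · intro j z hz
    apply DifferentiableAt.differentiableWithinAt
    refine (differentiableAt_const _).add ?_
    refine C.differentiableAt.comp z ?_
    exact differentiableAt_id.smul ((hGd z hz).clm_apply (differentiableAt_const _))
  · intro j z hz
    have hz1 : ‖z‖ < 1 := by simpa using hz
    set η : EuclideanSpace ℂ ι := EuclideanSpace.single j 1 with hη
    have hηn : ‖η‖ = 1 := by simp [hη]
    set h := G z (B η) with hh
    have h1 := hW1 (z • h, η)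
    rw [hWd] at h1
    have h2 : A (z • h) + B η = h := by
      have := hmulG z hz (B η)
      rw [map_smul]
      rw [← hh] at this
      rw [← this]
      abel
    rw [h2, hηn, norm_smul] at h1
    have h3 : (‖z‖ * ‖h‖)^2 ≤ ‖h‖^2 := by
      have := norm_nonneg h
      have := norm_nonneg z
      have : ‖z‖ * ‖h‖ ≤ ‖h‖ := by nlinarith
      gcongr
    have h4 : ‖C (z • h) + D η‖^2 ≤ 1 := by linarith
    have h5 : ‖C (z • h) + D η‖ ≤ 1 := by
      have := norm_nonneg (C (z • h) + D η)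
      nlinarith
    rw [add_comm] at h5
    exact h5
  · intro z hz
    have h1 := hW2 ⟨z, hz⟩
    simp only at h1
    rw [hWd] at h1
    set F : EuclideanSpace ℂ ι := WithLp.toLp 2 (fun j => f j z) with hF
    have h2 : A (z • x ⟨z, hz⟩) + B F = x ⟨z, hz⟩ := congrArg Prod.fst h1
    have h3 : C (z • x ⟨z, hz⟩) + D F = c := congrArg Prod.snd h1
    have h4 : G z (B F) = x ⟨z, hz⟩ := by
      have : B F = x ⟨z, hz⟩ - z • A (x ⟨z, hz⟩) := by
        rw [← map_smul]
        exact eq_sub_of_add_eq' h2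
      rw [this]
      exact hGmul z hz _
    have hFs : F = ∑ j, f j z • EuclideanSpace.single j (1:ℂ) := by
      ext i
      simp only [hF, WithLp.ofLp_sum, WithLp.ofLp_smul, Finset.sum_apply, Pi.smul_apply,
        PiLp.single_apply, smul_eq_mul, mul_ite, mul_one, mul_zero, Finset.sum_ite_eq,
        Finset.mem_univ, if_true]
    have h5 : ∑ j, f j z * (D (EuclideanSpace.single j 1) +
        C (z • G z (B (EuclideanSpace.single j 1)))) = D F + C (z • G z (B F)) := by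
      rw [hFs]
      simp only [map_sum, map_smul, Finset.smul_sum, smul_eq_mul, mul_add, Finset.sum_add_distrib]
      congr 1
      refine Finset.sum_congr rfl fun j _ => ?_
      ring
    rw [h5, h4, add_comm]
    exact h3

end

end Pool.Agent.MPca0fc2
end

section

set_option autoImplicit false

open Metric Set MeasureTheory Filter Topology

namespace Pool.Agent.MPca0fc2.PT

open Pool.Agent.Lib.MP_ca0fc2_an

variable {E : Type*} [NormedAddCommGroup E] [NormedSpace ℂ E]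

/-- the derivative of a holomorphic function is continuous -/
theorem holo_fderiv_cont {f : E → ℂ} {U : Set E} (hU : IsOpen U) (hf : DifferentiableOn ℂ f U) :
    ContinuousOn (fderiv ℂ f) U := by
  intro z₀ hz₀
  apply ContinuousAt.continuousWithinAt
  have hc : ContinuousAt f z₀ := (hf.differentiableAt (hU.mem_nhds hz₀)).continuousAt
  obtain ⟨M, hM0, hM⟩ : ∃ M : ℝ, 0 ≤ M ∧ ∀ᶠ z in 𝓝 z₀, ‖f z‖ ≤ M := by
    refine ⟨‖f z₀‖ + 1, by positivity, ?_⟩
    have h1 := hc.norm.eventually_lt_const (show ‖f z₀‖ < ‖f z₀‖ + 1 by linarith)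
    exact h1.mono fun z hz => hz.le
  obtain ⟨R, hR, hRs⟩ := Metric.eventually_nhds_iff_ball.mp (hM.and (hU.mem_nhds hz₀))
  set r : ℝ := R / 4 with hr
  have hr0 : 0 < r := by positivity
  have hlip : ∀ z ∈ ball z₀ (3 * r), ‖fderiv ℂ f z‖ ≤ 2 * M / r := by
    intro z hz
    apply ContinuousLinearMap.opNorm_le_bound _ (by positivity)
    intro v
    have hsub : ball z r ⊆ ball z₀ R := by
      apply ball_subset_ball'
      rw [mem_ball] at hz
      linarith
    exact norm_fderiv_apply_le hr0 (fun w hw => ((hf.differentiableAt (hU.mem_nhds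
      (hRs w (hsub hw)).2))).differentiableWithinAt) (fun w hw => (hRs w (hsub hw)).1) v
  rw [Metric.continuousAt_iff]
  intro ε hε
  refine ⟨min r (ε * r ^ 2 / (8 * (M + 1))), by positivity, ?_⟩
  intro z hz
  rw [dist_eq_norm] at hz ⊢
  set v : E := z - z₀ with hv
  have hvr : ‖v‖ < r := lt_of_lt_of_le hz (min_le_left _ _)
  have hv2 : ‖v‖ < ε * r ^ 2 / (8 * (M + 1)) := lt_of_lt_of_le hz (min_le_right _ _)
  have hd : ∀ w ∈ ball z₀ (3 * r), DifferentiableAt ℂ f w := fun w hw =>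
    hf.differentiableAt (hU.mem_nhds (hRs w (ball_subset_ball (by linarith) hw)).2)
  have hmem : ∀ w ∈ ball z₀ r, w ∈ ball z₀ (3 * r) := fun w hw =>
    ball_subset_ball (by linarith) hw
  have hmem' : ∀ w ∈ ball z₀ r, w + v ∈ ball z₀ (3 * r) := fun w hw => by
    rw [mem_ball, dist_eq_norm] at hw ⊢
    calc ‖w + v - z₀‖ = ‖(w - z₀) + v‖ := by congr 1; abel
      _ ≤ ‖w - z₀‖ + ‖v‖ := norm_add_le _ _
      _ < 3 * r := by linarith
  have hg : DifferentiableOn ℂ (fun w => f (w + v) - f w) (ball z₀ r) := by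
    intro w hw
    apply DifferentiableAt.differentiableWithinAt
    refine DifferentiableAt.sub ?_ (hd w (hmem w hw))
    exact (hd _ (hmem' w hw)).comp w (by fun_prop)
  have hb : ∀ w ∈ ball z₀ r, ‖f (w + v) - f w‖ ≤ 2 * M / r * ‖v‖ := by
    intro w hw
    have := (convex_ball z₀ (3 * r)).norm_image_sub_le_of_norm_fderiv_le (𝕜 := ℂ) (f := f)
      (C := 2 * M / r) hd hlip (hmem w hw) (hmem' w hw)
    simpa using this
  apply lt_of_le_of_lt (b := 2 * (2 * M / r * ‖v‖) / r)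
  · apply ContinuousLinearMap.opNorm_le_bound _ (by positivity)
    intro x
    have h1 := norm_fderiv_apply_le hr0 hg hb x
    have h2 : fderiv ℂ (fun w => f (w + v) - f w) z₀ = fderiv ℂ f z - fderiv ℂ f z₀ := by
      have hz₀' : z₀ ∈ ball z₀ r := mem_ball_self hr0
      have e1 : fderiv ℂ (fun w => f (w + v)) z₀ = fderiv ℂ f (z₀ + v) := by
        exact fderiv_comp_add_right v
      have e2 : z₀ + v = z := by rw [hv]; abel
      rw [fderiv_fun_sub, e1, e2]
      · exact (hd _ (hmem' z₀ hz₀')).comp z₀ (by fun_prop)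
      · exact hd _ (hmem z₀ hz₀')
    rw [h2] at h1
    exact h1
  · have h3 : 2 * (2 * M / r * ‖v‖) / r = 4 * M / r ^ 2 * ‖v‖ := by
      field_simp; ring
    rw [h3]
    calc 4 * M / r ^ 2 * ‖v‖ ≤ 4 * (M + 1) / r ^ 2 * ‖v‖ := by gcongr; linarith
      _ ≤ 4 * (M + 1) / r ^ 2 * (ε * r ^ 2 / (8 * (M + 1))) := by gcongr
      _ = ε / 2 := by field_simp; ring
      _ < ε := by linarith

/-- holomorphic functions are continuously differentiable -/
theorem holo_c1 {f : E → ℂ} {U : Set E} (hU : IsOpen U) (hf : DifferentiableOn ℂ f U) :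
    ContDiffOn ℝ 1 f U := by
  have h : ContDiffOn ℂ 1 f U := by
    have := (contDiffOn_succ_iff_fderiv_of_isOpen (𝕜 := ℂ) (n := 0) (f := f) hU).mpr
    rw [zero_add] at this
    refine this ⟨hf, fun h => absurd h (by simp), ?_⟩
    exact contDiffOn_zero.mpr (holo_fderiv_cont hU hf)
  exact h.restrict_scalars ℝ

theorem holo_c1_at {f : E → ℂ} {z : E} (hf : ∀ᶠ w in 𝓝 z, DifferentiableAt ℂ f w) :
    ContDiffAt ℝ 1 f z := by
  obtain ⟨U, hU, hUo, hzU⟩ := _root_.eventually_nhds_iff.mp hf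
  have h1 : DifferentiableOn ℂ f U := fun w hw => (hU w hw).differentiableWithinAt
  exact (holo_c1 hUo h1).contDiffAt (hUo.mem_nhds hzU)

end Pool.Agent.MPca0fc2.PT
end

section

set_option autoImplicit false

open Metric Set MeasureTheory Filter Topology
open scoped InnerProductSpace ENNReal

namespace Pool.Agent.MPca0fc2.PT

variable {E : Type*} [NormedAddCommGroup E] [InnerProductSpace ℂ E]

theorem gau_I (d : ℝ) (w x : E) : gau d w (Complex.I • x) = gau d w x := by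
  simp [gau, norm_smul]

theorem gau_nonneg {d : ℝ} (hd : 0 ≤ d) (w x : E) : 0 ≤ gau d w x := by
  unfold gau; positivity

theorem fderiv_holo {N : E → ℂ} {w : E} (h : DifferentiableAt ℂ N w) (x : E) :
    fderiv ℝ N w x = fderiv ℂ N w x := by
  rw [h.fderiv_restrictScalars ℝ]
  rfl

theorem dbE_holo {N : E → ℂ} {w : E} (h : DifferentiableAt ℂ N w) (x : E) : dbE N w x = 0 := by
  unfold dbE
  rw [fderiv_holo h, fderiv_holo h, map_smul, smul_eq_mul, ← mul_assoc, Complex.I_mul_I]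
  ring

theorem dbE_congr {N N' : E → ℂ} {w : E} (h : N =ᶠ[𝓝 w] N') (x : E) : dbE N w x = dbE N' w x := by
  unfold dbE
  rw [h.fderiv_eq]

theorem dbE_add {N N' : E → ℂ} {w : E} (h : DifferentiableAt ℝ N w)
    (h' : DifferentiableAt ℝ N' w) (x : E) :
    dbE (fun w => N w + N' w) w x = dbE N w x + dbE N' w x := by
  unfold dbE
  rw [fderiv_fun_add h h']
  simp only [_root_.add_apply]
  ring

theorem dbE_sub {N N' : E → ℂ} {w : E} (h : DifferentiableAt ℝ N w)
    (h' : DifferentiableAt ℝ N' w) (x : E) :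
    dbE (fun w => N w - N' w) w x = dbE N w x - dbE N' w x := by
  unfold dbE
  rw [fderiv_fun_sub h h']
  simp only [_root_.sub_apply]
  ring

theorem dbE_mul {N N' : E → ℂ} {w : E} (h : DifferentiableAt ℝ N w)
    (h' : DifferentiableAt ℝ N' w) (x : E) :
    dbE (fun w => N w * N' w) w x = N w * dbE N' w x + dbE N w x * N' w := by
  unfold dbE
  rw [fderiv_fun_mul h h']
  simp only [_root_.add_apply, _root_.smul_apply, smul_eq_mul]
  ring

theorem dbE_mul_holo {N N' : E → ℂ} {w : E} (h : DifferentiableAt ℝ N w)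
    (h' : DifferentiableAt ℂ N' w) (x : E) :
    dbE (fun w => N w * N' w) w x = dbE N w x * N' w := by
  rw [dbE_mul h (h'.restrictScalars ℝ), dbE_holo h', mul_zero, zero_add]

theorem dbE_const (c : ℂ) (w x : E) : dbE (fun _ : E => c) w x = 0 := by
  simp [dbE]

/-- the conjugate of a function -/
theorem dbE_conj_le {b : E → ℂ} {w : E} (h : DifferentiableAt ℝ b w) (x : E) :
    ‖dbE (fun w => (starRingEnd ℂ) (b w)) w x‖ ≤
      (‖fderiv ℝ b w x‖ + ‖fderiv ℝ b w (Complex.I • x)‖) / 2 := by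
  have h1 : HasFDerivAt (fun w => (starRingEnd ℂ) (b w))
      ((Complex.conjCLE : ℂ →L[ℝ] ℂ).comp (fderiv ℝ b w)) w :=
    (Complex.conjCLE : ℂ →L[ℝ] ℂ).hasFDerivAt.comp w h.hasFDerivAt
  unfold dbE
  rw [h1.fderiv]
  simp only [ContinuousLinearMap.comp_apply, ContinuousLinearEquiv.coe_coe,
    Complex.conjCLE_apply]
  rw [norm_div, Complex.norm_ofNat]
  gcongr
  refine (norm_add_le _ _).trans ?_
  simp

/-- bump functions -/
structure Bump (χ : ℂ → ℝ) (ε L : ℝ) : Prop where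
  cd : ContDiff ℝ 1 χ
  nonneg : ∀ z, 0 ≤ χ z
  le_one : ∀ z, χ z ≤ 1
  one : ∀ z, ‖z‖ ≤ ε → χ z = 1
  zero : ∀ z, 2 * ε ≤ ‖z‖ → χ z = 0
  lip : ∀ z, ‖fderiv ℝ χ z‖ ≤ L

theorem exists_bump {ε : ℝ} (hε : 0 < ε) : ∃ (χ : ℂ → ℝ) (L : ℝ), Bump χ ε L := by
  obtain ⟨f, hf⟩ : ∃ f : ContDiffBump (0 : ℂ), f.rIn = ε ∧ f.rOut = 2 * ε :=
    ⟨⟨ε, 2 * ε, hε, by linarith⟩, rfl, rfl⟩
  have hcd : ContDiff ℝ 1 f := f.contDiff
  have hcs : HasCompactSupport (fderiv ℝ f) := f.hasCompactSupport.fderiv ℝ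
  have hcont : Continuous (fderiv ℝ f) := hcd.continuous_fderiv (by norm_num)
  obtain ⟨L, hL⟩ := hcs.exists_bound_of_continuous hcont
  refine ⟨f, L, hcd, fun z => f.nonneg, fun z => f.le_one, ?_, ?_, hL⟩
  · intro z hz
    apply f.one_of_mem_closedBall
    rw [hf.1, mem_closedBall_zero_iff]
    exact hz
  · intro z hz
    apply f.zero_of_le_dist
    rw [hf.2, dist_zero_right]
    exact hz

theorem Bump.L_nonneg {χ : ℂ → ℝ} {ε L : ℝ} (h : Bump χ ε L) : 0 ≤ L :=
  (norm_nonneg _).trans (h.lip 0)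

theorem Bump.abs_sub_le {χ : ℂ → ℝ} {ε L : ℝ} (h : Bump χ ε L) (z w : ℂ) :
    |χ z - χ w| ≤ L * ‖z - w‖ := by
  have := convex_univ.norm_image_sub_le_of_norm_fderiv_le (𝕜 := ℝ) (f := χ) (C := L)
    (fun x _ => (h.cd.differentiable (by norm_num)) x) (fun x _ => h.lip x) (mem_univ w) (mem_univ z)
  rwa [Real.norm_eq_abs] at this

theorem Bump.differentiableAt {χ : ℂ → ℝ} {ε L : ℝ} (h : Bump χ ε L) {b : E → ℂ} {w : E}
    (hb : DifferentiableAt ℝ b w) : DifferentiableAt ℝ (fun w => ((χ (b w) : ℝ) : ℂ)) w := by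
  have h1 : DifferentiableAt ℝ χ (b w) := (h.cd.differentiable (by norm_num)) _
  exact (Complex.ofRealCLM.differentiableAt).comp w (h1.comp w hb)

theorem Bump.contDiffAt {χ : ℂ → ℝ} {ε L : ℝ} (h : Bump χ ε L) {b : E → ℂ} {w : E}
    (hb : ContDiffAt ℝ 1 b w) : ContDiffAt ℝ 1 (fun w => ((χ (b w) : ℝ) : ℂ)) w :=
  Complex.ofRealCLM.contDiff.contDiffAt.comp w (h.cd.contDiffAt.comp w hb)

theorem Bump.dbE_le {χ : ℂ → ℝ} {ε L : ℝ} (h : Bump χ ε L) {b : E → ℂ} {w : E}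
    (hb : DifferentiableAt ℝ b w) (x : E) :
    ‖dbE (fun w => ((χ (b w) : ℝ) : ℂ)) w x‖ ≤
      L * ((‖fderiv ℝ b w x‖ + ‖fderiv ℝ b w (Complex.I • x)‖) / 2) := by
  have h1 : HasFDerivAt (fun w => ((χ (b w) : ℝ) : ℂ))
      (Complex.ofRealCLM.comp ((fderiv ℝ χ (b w)).comp (fderiv ℝ b w))) w :=
    Complex.ofRealCLM.hasFDerivAt.comp w
      (((h.cd.differentiable (by norm_num)) (b w)).hasFDerivAt.comp w hb.hasFDerivAt)
  unfold dbE
  rw [h1.fderiv]
  simp only [ContinuousLinearMap.comp_apply, Complex.ofRealCLM_apply]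
  rw [norm_div, Complex.norm_ofNat, mul_div_assoc']
  have h2 : ∀ y : ℂ, ‖((fderiv ℝ χ (b w) y : ℝ) : ℂ)‖ ≤ L * ‖y‖ := by
    intro y
    rw [Complex.norm_real]
    exact (fderiv ℝ χ (b w)).le_of_opNorm_le (h.lip _) y
  gcongr
  refine (norm_add_le _ _).trans ?_
  rw [norm_mul, Complex.norm_I, one_mul, mul_add]
  exact add_le_add (h2 _) (h2 _)

/-! ### the gauge functions -/

/-- the gauge function -/
noncomputable def VQ (χ : ℂ → ℝ) (G₀ U g₀ β : E → ℂ) (w : E) : ℂ :=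
  (1 - ((χ (β w) : ℝ) : ℂ)) * (G₀ w / U w) + ((χ (β w) : ℝ) : ℂ) * g₀ w

/-- what we need at a point -/
structure PC (ε : ℝ) (G₀ U g₀ g : E → ℂ) (w : E) : Prop where
  dU : ∀ᶠ w' in 𝓝 w, DifferentiableAt ℂ U w'
  dG : ∀ᶠ w' in 𝓝 w, DifferentiableAt ℂ G₀ w'
  dg : ‖U w‖ < 4 * ε → ∀ᶠ w' in 𝓝 w, DifferentiableAt ℂ g₀ w'
  rel : ‖U w‖ < 4 * ε → G₀ w - g w = U w * g₀ w

omit [InnerProductSpace ℂ E] in
theorem PC.near {χ : ℂ → ℝ} {ε L : ℝ} (h : Bump χ ε L) {G₀ U g₀ β : E → ℂ} {w : E}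
    (hβ : ContinuousAt β w) (hw : ‖β w‖ < ε) : VQ χ G₀ U g₀ β =ᶠ[𝓝 w] g₀ ∧
      (fun w => ((χ (β w) : ℝ) : ℂ)) =ᶠ[𝓝 w] fun _ => 1 := by
  have h1 : ∀ᶠ w' in 𝓝 w, ‖β w'‖ < ε := hβ.norm.eventually_lt_const hw
  constructor
  · filter_upwards [h1] with w' hw'
    simp only [VQ, h.one _ hw'.le]
    simp
  · filter_upwards [h1] with w' hw'
    simp only [h.one _ hw'.le]
    simp

omit [InnerProductSpace ℂ E] in
theorem PC.far {χ : ℂ → ℝ} {ε L : ℝ} (h : Bump χ ε L) {G₀ U g₀ β : E → ℂ} {w : E}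
    (hβ : ContinuousAt β w) (hw : 2 * ε < ‖β w‖) : VQ χ G₀ U g₀ β =ᶠ[𝓝 w] (fun w => G₀ w / U w) ∧
      (fun w => ((χ (β w) : ℝ) : ℂ)) =ᶠ[𝓝 w] fun _ => 0 := by
  have h1 : ∀ᶠ w' in 𝓝 w, 2 * ε < ‖β w'‖ := hβ.norm.eventually_const_lt hw
  constructor
  · filter_upwards [h1] with w' hw'
    simp only [VQ, h.zero _ hw'.le]
    simp
  · filter_upwards [h1] with w' hw'
    simp only [h.zero _ hw'.le]
    simp

omit [NormedAddCommGroup E] [InnerProductSpace ℂ E] in
theorem PC.U_ne {ε : ℝ} {U β : E → ℂ} {w : E} (hε : 0 < ε)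
    (hβU : ‖β w - U w‖ ≤ ε / 2) (hw : ε ≤ ‖β w‖) : ε / 2 ≤ ‖U w‖ ∧ U w ≠ 0 := by
  have h1 : ‖β w‖ ≤ ‖β w - U w‖ + ‖U w‖ := by
    calc ‖β w‖ = ‖(β w - U w) + U w‖ := by rw [sub_add_cancel]
      _ ≤ _ := norm_add_le _ _
  have h2 : ε / 2 ≤ ‖U w‖ := by linarith
  exact ⟨h2, fun h0 => by rw [h0, norm_zero] at h2; linarith⟩

omit [NormedAddCommGroup E] [InnerProductSpace ℂ E] in
theorem PC.U_le {ε : ℝ} {U β : E → ℂ} {w : E}
    (hβU : ‖β w - U w‖ ≤ ε / 2) (hw : ‖β w‖ ≤ 2 * ε) : ‖U w‖ ≤ 5 * ε / 2 := by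
  have h1 : ‖U w‖ ≤ ‖β w‖ + ‖β w - U w‖ := by
    calc ‖U w‖ = ‖β w - (β w - U w)‖ := by rw [sub_sub_cancel]
      _ ≤ _ := norm_sub_le _ _
  linarith

theorem VQ_c1 {χ : ℂ → ℝ} {ε L : ℝ} (h : Bump χ ε L) (hε : 0 < ε) {G₀ U g₀ g β : E → ℂ} {w : E}
    (hp : PC ε G₀ U g₀ g w) (hβ : ContDiffAt ℝ 1 β w) (hβU : ‖β w - U w‖ ≤ ε / 2) :
    ContDiffAt ℝ 1 (VQ χ G₀ U g₀ β) w := by
  rcases lt_or_ge ‖β w‖ ε with h1 | h1
  · have h2 := PC.U_le hβU (by linarith : ‖β w‖ ≤ 2 * ε)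
    exact (holo_c1_at (hp.dg (by linarith))).congr_of_eventuallyEq
      (PC.near h hβ.continuousAt h1).1
  obtain ⟨-, h0⟩ := PC.U_ne hε hβU h1
  have hq : ContDiffAt ℝ 1 (fun w => G₀ w / U w) w := by
    simp only [div_eq_mul_inv]
    exact (holo_c1_at hp.dG).mul ((holo_c1_at hp.dU).inv h0)
  rcases lt_or_ge (2 * ε) ‖β w‖ with h3 | h3
  · exact hq.congr_of_eventuallyEq (PC.far h hβ.continuousAt h3).1
  have h2 := PC.U_le hβU h3
  have hχ := h.contDiffAt hβ
  exact ((contDiffAt_const.sub hχ).mul hq).add (hχ.mul (holo_c1_at (hp.dg (by linarith))))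

theorem VQ_dbE {χ : ℂ → ℝ} {ε L : ℝ} (h : Bump χ ε L) (hε : 0 < ε) {G₀ U g₀ g β : E → ℂ} {w : E}
    (hp : PC ε G₀ U g₀ g w) (hβ : ContDiffAt ℝ 1 β w) (hβU : ‖β w - U w‖ ≤ ε / 2) (x : E) :
    dbE (VQ χ G₀ U g₀ β) w x = -dbE (fun w => ((χ (β w) : ℝ) : ℂ)) w x * (g w / U w) := by
  rcases lt_or_ge ‖β w‖ ε with h1 | h1
  · have h2 := PC.U_le hβU (by linarith : ‖β w‖ ≤ 2 * ε)
    obtain ⟨h3, h4⟩ := PC.near (G₀ := G₀) (U := U) (g₀ := g₀) h hβ.continuousAt h1
    rw [dbE_congr h3, dbE_congr h4, dbE_const, dbE_holo (hp.dg (by linarith)).self_of_nhds]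
    simp
  obtain ⟨-, h0⟩ := PC.U_ne hε hβU h1
  have hq : DifferentiableAt ℂ (fun w => G₀ w / U w) w := by
    simp only [div_eq_mul_inv]
    exact hp.dG.self_of_nhds.mul (hp.dU.self_of_nhds.inv h0)
  rcases lt_or_ge (2 * ε) ‖β w‖ with h3 | h3
  · obtain ⟨h3, h4⟩ := PC.far (G₀ := G₀) (U := U) (g₀ := g₀) h hβ.continuousAt h3
    rw [dbE_congr h3, dbE_congr h4, dbE_const, dbE_holo hq]
    simp
  have h2 := PC.U_le hβU h3
  have hb : DifferentiableAt ℝ β w := hβ.differentiableAt (by norm_num)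
  have hχ := h.differentiableAt hb
  have hg := (hp.dg (by linarith)).self_of_nhds
  have e1 : VQ χ G₀ U g₀ β = fun w => (1 - ((χ (β w) : ℝ) : ℂ)) * (G₀ w / U w) +
      ((χ (β w) : ℝ) : ℂ) * g₀ w := rfl
  have hχ1 : DifferentiableAt ℝ (fun w => 1 - ((χ (β w) : ℝ) : ℂ)) w :=
    (differentiableAt_const _).sub hχ
  have e2 : dbE (fun w => (1 - ((χ (β w) : ℝ) : ℂ)) * (G₀ w / U w) +
      ((χ (β w) : ℝ) : ℂ) * g₀ w) w x = dbE (fun w => (1 - ((χ (β w) : ℝ) : ℂ)) *
      (G₀ w / U w)) w x + dbE (fun w => ((χ (β w) : ℝ) : ℂ) * g₀ w) w x :=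
    dbE_add (hχ1.mul (hq.restrictScalars ℝ)) (hχ.mul (hg.restrictScalars ℝ)) x
  rw [e1, e2, dbE_mul_holo hχ1 hq, dbE_mul_holo hχ hg, dbE_sub (differentiableAt_const _) hχ,
    dbE_const]
  have h5 := hp.rel (by linarith)
  have h6 : g₀ w = (G₀ w - g w) / U w := by rw [h5]; field_simp
  rw [h6]
  field_simp
  ring

theorem VQ_move {χ : ℂ → ℝ} {ε L : ℝ} (h : Bump χ ε L) (hε : 0 < ε) {G₀ U g₀ g β β' : E → ℂ}
    {w : E} (hp : PC ε G₀ U g₀ g w) (hβU : ‖β w - U w‖ ≤ ε / 2)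
    (hβU' : ‖β' w - U w‖ ≤ ε / 2) {Cg : ℝ} (hCg : 0 ≤ Cg)
    (hg : ‖U w‖ < 4 * ε → ‖g w‖ ≤ Cg) :
    ‖VQ χ G₀ U g₀ β' w - VQ χ G₀ U g₀ β w‖ ≤ L * ‖β' w - β w‖ * (Cg * (2 / ε)) := by
  have hL := h.L_nonneg
  have hdiff : VQ χ G₀ U g₀ β' w - VQ χ G₀ U g₀ β w =
      (((χ (β w) - χ (β' w) : ℝ)) : ℂ) * (G₀ w / U w - g₀ w) := by
    simp only [VQ]; push_cast; ring
  by_cases hU : ‖U w‖ < ε / 2
  · -- both equal one
    have h1 : ‖β w‖ ≤ ε := by
      have : ‖β w‖ ≤ ‖β w - U w‖ + ‖U w‖ := by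
        calc ‖β w‖ = ‖(β w - U w) + U w‖ := by rw [sub_add_cancel]
          _ ≤ _ := norm_add_le _ _
      linarith
    have h2 : ‖β' w‖ ≤ ε := by
      have : ‖β' w‖ ≤ ‖β' w - U w‖ + ‖U w‖ := by
        calc ‖β' w‖ = ‖(β' w - U w) + U w‖ := by rw [sub_add_cancel]
          _ ≤ _ := norm_add_le _ _
      linarith
    rw [hdiff, h.one _ h1, h.one _ h2]
    simp only [sub_self, Complex.ofReal_zero, zero_mul, norm_zero]
    positivity
  push Not at hU
  by_cases hU4 : ‖U w‖ < 4 * ε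
  · have h0 : U w ≠ 0 := fun h0 => by rw [h0, norm_zero] at hU; linarith
    have h6 : G₀ w / U w - g₀ w = g w / U w := by
      have h5 := hp.rel hU4
      field_simp
      linear_combination h5
    rw [hdiff, h6, norm_mul, Complex.norm_real, Real.norm_eq_abs, norm_div, abs_sub_comm]
    apply mul_le_mul (h.abs_sub_le _ _) _ (by positivity) (by positivity)
    rw [div_eq_mul_inv]
    apply mul_le_mul (hg hU4) _ (by positivity) hCg
    calc (‖U w‖)⁻¹ ≤ (ε / 2)⁻¹ := by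
          apply inv_anti₀ (by positivity) hU
      _ = 2 / ε := by rw [inv_div]
  · push Not at hU4
    have h1 : 2 * ε ≤ ‖β w‖ := by
      have : ‖U w‖ ≤ ‖β w‖ + ‖β w - U w‖ := by
        calc ‖U w‖ = ‖β w - (β w - U w)‖ := by rw [sub_sub_cancel]
          _ ≤ _ := norm_sub_le _ _
      linarith
    have h2 : 2 * ε ≤ ‖β' w‖ := by
      have : ‖U w‖ ≤ ‖β' w‖ + ‖β' w - U w‖ := by
        calc ‖U w‖ = ‖β' w - (β' w - U w)‖ := by rw [sub_sub_cancel]
          _ ≤ _ := norm_sub_le _ _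
      linarith
    rw [hdiff, h.zero _ h1, h.zero _ h2]
    simp only [sub_self, Complex.ofReal_zero, zero_mul, norm_zero]
    positivity

end Pool.Agent.MPca0fc2.PT
end
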