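import Mathlib
import Pool.Agent.Lib.MP_ca0fc2_an.Mg.G048
import Pool.Agent.Lib.MP_ca0fc2_an.Mg.G055

section

set_option autoImplicit false

open Metric Set MeasureTheory Filter Topology
open scoped InnerProductSpace ENNReal

namespace Pool.Agent.MPca0fc2.QT

open Pool.Agent.MPca0fc2.PT

variable {E : Type*} [NormedAddCommGroup E] [InnerProductSpace ℂ E]

theorem cmq_R {θ : ℝ} (h0 : 0 < θ) (h1 : θ < 1) {k : ℕ} {R : ℝ} (hR1 : 1 ≤ R)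
    (hR : R ≤ RC θ k) : R ^ 2 ≤ 1 + 33 / 16 * θ ^ k ∧ R ≤ 7 / 4 := by
  have h2 : θ ^ (k + 1) ≤ θ ^ k := pow_le_pow_of_le_one h0.le h1.le (by omega)
  have h3 : θ ^ k ≤ 1 := pow_le_one₀ h0.le h1.le
  have h4 : 0 < θ ^ (k + 1) := by positivity
  unfold RC at hR
  constructor
  · have h5 : R ^ 2 ≤ (1 + 3 * θ ^ (k + 1) / 4) ^ 2 := pow_le_pow_left₀ (by linarith) hR 2
    nlinarith
  · linarith

/-- the distance dominates the two depths -/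
theorem cmq_D {R : ℝ} {z w : E} :
    R ^ 2 - ‖w‖ * ‖z‖ ≤ ‖((R ^ 2 : ℝ) : ℂ) - ⟪w, z⟫_ℂ‖ := by
  have h1 := norm_sub_norm_le ((R ^ 2 : ℝ) : ℂ) ⟪w, z⟫_ℂ
  have h2 := norm_inner_le_norm (𝕜 := ℂ) w z
  rw [Complex.norm_real, Real.norm_eq_abs, abs_of_nonneg (sq_nonneg R)] at h1
  linarith

theorem cmq_D_le {R : ℝ} {z w : E} (hz : ‖z‖ ≤ R) (hw : ‖w‖ ≤ R) :
    ‖((R ^ 2 : ℝ) : ℂ) - ⟪w, z⟫_ℂ‖ ≤ 2 * R ^ 2 := by
  have h1 := norm_sub_le ((R ^ 2 : ℝ) : ℂ) ⟪w, z⟫_ℂ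
  have h2 := norm_inner_le_norm (𝕜 := ℂ) w z
  rw [Complex.norm_real, Real.norm_eq_abs, abs_of_nonneg (sq_nonneg R)] at h1
  have h3 : ‖w‖ * ‖z‖ ≤ R * R := mul_le_mul hw hz (norm_nonneg _) ((norm_nonneg _).trans hw)
  nlinarith

theorem cmq_den {θ : ℝ} (h0 : 0 < θ) (h1 : θ < 1) {k : ℕ} {R : ℝ} (hR1 : 1 ≤ R)
    (hR : R ≤ RC θ k) {z w : E} (hz : ‖z‖ ≤ R) (hw : ‖w‖ ≤ R) {i j : ℕ} (hji : j ≤ i)
    (hik : i ≤ k) :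
    ‖1 - ⟪(rt θ i : ℂ) • w, (rt θ j : ℂ) • z⟫_ℂ‖ ≤
      ‖((R ^ 2 : ℝ) : ℂ) - ⟪w, z⟫_ℂ‖ + 9 * θ ^ j := by
  obtain ⟨hR2, hR7⟩ := cmq_R h0 h1 hR1 hR
  have hjk : θ ^ k ≤ θ ^ j := pow_le_pow_of_le_one h0.le h1.le (by omega)
  have hij : θ ^ i ≤ θ ^ j := pow_le_pow_of_le_one h0.le h1.le hji
  have hi0 : 0 < θ ^ i := by positivity
  have hj0 : 0 < θ ^ j := by positivity
  have hj1 : θ ^ j ≤ 1 := pow_le_one₀ h0.le h1.le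
  have hi1 : θ ^ i ≤ 1 := pow_le_one₀ h0.le h1.le
  have h2 := norm_inner_le_norm (𝕜 := ℂ) w z
  have h3 : ‖w‖ * ‖z‖ ≤ R * R := mul_le_mul hw hz (norm_nonneg _) ((norm_nonneg _).trans hw)
  have e : 1 - ⟪(rt θ i : ℂ) • w, (rt θ j : ℂ) • z⟫_ℂ =
      (((R ^ 2 : ℝ) : ℂ) - ⟪w, z⟫_ℂ) + ((1 - R ^ 2 : ℝ) : ℂ) +
        ((1 - rt θ i * rt θ j : ℝ) : ℂ) * ⟪w, z⟫_ℂ := by
    rw [inner_smul_left, inner_smul_right, Complex.conj_ofReal]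
    push_cast; ring
  have hrr : 0 ≤ 1 - rt θ i * rt θ j ∧ 1 - rt θ i * rt θ j ≤ 2 * θ ^ j := by
    unfold rt
    constructor <;> nlinarith
  rw [e]
  refine (norm_add_le _ _).trans ?_
  have h5 := norm_add_le (((R ^ 2 : ℝ) : ℂ) - ⟪w, z⟫_ℂ) ((1 - R ^ 2 : ℝ) : ℂ)
  have h6 : ‖((1 - R ^ 2 : ℝ) : ℂ)‖ = R ^ 2 - 1 := by
    rw [Complex.norm_real, Real.norm_eq_abs, abs_of_nonpos (by nlinarith)]; ring
  have h7 : ‖((1 - rt θ i * rt θ j : ℝ) : ℂ) * ⟪w, z⟫_ℂ‖ ≤ 2 * θ ^ j * (R * R) := by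
    rw [norm_mul, Complex.norm_real, Real.norm_eq_abs, abs_of_nonneg hrr.1]
    exact mul_le_mul hrr.2 (h2.trans h3) (norm_nonneg _) (by positivity)
  have h8 : 2 * θ ^ j * (R * R) ≤ 2 * θ ^ j * (49 / 16) := by
    have : R * R ≤ 49 / 16 := by nlinarith
    gcongr
  rw [h6] at h5
  linarith

theorem cmq_dlw {θ : ℝ} (h0 : 0 < θ) (h1 : θ < 1) {k : ℕ} {R : ℝ} (hR1 : 1 ≤ R)
    (hR : R ≤ RC θ k) {w : E} (hw : ‖w‖ < R) {i : ℕ} (hik : i ≤ k) :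
    R ^ 2 - ‖w‖ ^ 2 ≤ 17 * dl θ i w := by
  obtain ⟨hR2, hR7⟩ := cmq_R h0 h1 hR1 hR
  have h2 := dl_ge h0 h1 (by omega : i ≤ k + 1) (lt_of_lt_of_le hw hR)
  have hik' : θ ^ k ≤ θ ^ i := pow_le_pow_of_le_one h0.le h1.le hik
  have hi0 : 0 < θ ^ i := by positivity
  have hi1 : θ ^ i ≤ 1 := pow_le_one₀ h0.le h1.le
  have h3 : 1 - ‖w‖ ^ 2 ≤ dl θ i w := by
    unfold dl rt
    have : (1 - θ ^ i) ^ 2 ≤ 1 := by nlinarith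
    nlinarith [sq_nonneg ‖w‖]
  linarith

theorem cmq_dlz {θ : ℝ} (h0 : 0 < θ) (h1 : θ < 1) {c₀ : ℝ} (hc₀ : 0 < c₀) {k : ℕ} {R : ℝ}
    (hR1 : 1 ≤ R) (hR : R ≤ RC θ k) {z : E} (hz : ‖z‖ + c₀ * θ ^ k ≤ R) :
    c₀ * θ ^ k ≤ R ^ 2 - ‖z‖ ^ 2 ∧ dl θ k z ≤ (1 + 7 / c₀) * (R ^ 2 - ‖z‖ ^ 2) := by
  obtain ⟨hR2, hR7⟩ := cmq_R h0 h1 hR1 hR
  have hk0 : 0 < θ ^ k := by positivity
  have hk1 : θ ^ k ≤ 1 := pow_le_one₀ h0.le h1.le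
  have hck : 0 < c₀ * θ ^ k := by positivity
  have hzn := norm_nonneg z
  have h2 : c₀ * θ ^ k ≤ R ^ 2 - ‖z‖ ^ 2 := by
    have : c₀ * θ ^ k ≤ R - ‖z‖ := by linarith
    nlinarith
  refine ⟨h2, ?_⟩
  have h3 : θ ^ k ≤ (R ^ 2 - ‖z‖ ^ 2) / c₀ := by
    rw [le_div_iff₀ hc₀]; linarith
  have h4 : ‖z‖ ^ 2 ≤ 49 / 16 := by nlinarith
  have h5 : dl θ k z ≤ (1 - ‖z‖ ^ 2) + 2 * θ ^ k * ‖z‖ ^ 2 := by
    unfold dl rt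
    nlinarith [sq_nonneg ‖z‖, mul_nonneg (sq_nonneg (θ ^ k)) (sq_nonneg ‖z‖)]
  have h6 : 2 * θ ^ k * ‖z‖ ^ 2 ≤ 7 * ((R ^ 2 - ‖z‖ ^ 2) / c₀) := by
    have : 2 * θ ^ k * ‖z‖ ^ 2 ≤ 2 * θ ^ k * (49 / 16) := by gcongr
    linarith
  have h7 : (1 + 7 / c₀) * (R ^ 2 - ‖z‖ ^ 2) =
      (R ^ 2 - ‖z‖ ^ 2) + 7 * ((R ^ 2 - ‖z‖ ^ 2) / c₀) := by ring
  rw [h7]
  nlinarith

theorem cmq_elem {θ : ℝ} (h0 : 0 < θ) (h1 : θ < 1) {c₀ : ℝ} (hc₀ : 0 < c₀) {k : ℕ} {R : ℝ}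
    (hR1 : 1 ≤ R) (hR : R ≤ RC θ k) {z w : E} (hz : ‖z‖ + c₀ * θ ^ k ≤ R) (hw : ‖w‖ < R) :
    ‖((R ^ 2 : ℝ) : ℂ) - ⟪w, z⟫_ℂ‖ ≤ 7 ∧ 0 < R ^ 2 - ‖w‖ ^ 2 ∧ 0 < R ^ 2 - ‖z‖ ^ 2 ∧
    R ^ 2 - ‖w‖ ^ 2 ≤ 2 * ‖((R ^ 2 : ℝ) : ℂ) - ⟪w, z⟫_ℂ‖ ∧
    R ^ 2 - ‖z‖ ^ 2 ≤ 2 * ‖((R ^ 2 : ℝ) : ℂ) - ⟪w, z⟫_ℂ‖ ∧
    c₀ * θ ^ k ≤ ‖((R ^ 2 : ℝ) : ℂ) - ⟪w, z⟫_ℂ‖ := by
  have hck : 0 < c₀ * θ ^ k := by positivity
  have hzR : ‖z‖ < R := by linarith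
  have hDl := cmq_D (R := R) (z := z) (w := w)
  have hDu := cmq_D_le (R := R) hzR.le hw.le
  obtain ⟨-, hR7⟩ := cmq_R h0 h1 hR1 hR
  generalize ‖((R ^ 2 : ℝ) : ℂ) - ⟪w, z⟫_ℂ‖ = D at hDl hDu ⊢
  have hzn := norm_nonneg z
  have hwn := norm_nonneg w
  generalize ‖z‖ = a at hz hzR hzn hDl ⊢
  generalize ‖w‖ = b at hw hwn hDl ⊢
  generalize c₀ * θ ^ k = g at hz hck ⊢
  clear hR h0 h1 hc₀
  refine ⟨by nlinarith, by nlinarith, by nlinarith, ?_, ?_, ?_⟩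
  · nlinarith [sq_nonneg (b - a)]
  · nlinarith [sq_nonneg (b - a)]
  · have h5 : b * a ≤ R * (R - g) := mul_le_mul hw.le (by linarith) hzn (by linarith)
    nlinarith

variable [FiniteDimensional ℂ E] [MeasurableSpace E] [BorelSpace E]

end Pool.Agent.MPca0fc2.QT
end

section

set_option autoImplicit false

open Metric Set MeasureTheory Filter Topology
open scoped InnerProductSpace ENNReal

namespace Pool.Agent.MPca0fc2.QT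

open Pool.Agent.MPca0fc2.PT

variable {E : Type*} [NormedAddCommGroup E] [InnerProductSpace ℂ E]
variable {V : Type*} [NormedAddCommGroup V] [NormedSpace ℂ V]
variable {Y : Type*} [NormedAddCommGroup Y] [NormedSpace ℂ Y]

theorem wd_le (K : Car Y V) {q : ℕ} (L : E →L[ℝ] Y) (P : E [⋀^Fin q]→L[ℝ] V) (g : E → ℝ)
    (κ C : ℝ) (_hg : ∀ v, 0 ≤ g v) (hL : ∀ v, ‖L v‖ ≤ κ * g v)
    (hP : ∀ v : Fin q → E, ‖P v‖ ≤ C * ∏ i, g (v i)) (v : Fin (q + 1) → E) :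
    ‖wd K L P v‖ ≤ ((q + 1 : ℝ) * ‖K.a‖ * (κ * C)) * ∏ i, g (v i) := by
  rw [wd_apply]
  have hterm : ∀ i : Fin (q + 1), ‖(-1 : ℤ) ^ (i : ℕ) • K.a (L (v i)) (P (i.removeNth v))‖ ≤
      ‖K.a‖ * (κ * C) * ∏ j, g (v j) := by
    intro i
    have h1 : ‖(-1 : ℤ) ^ (i : ℕ) • K.a (L (v i)) (P (i.removeNth v))‖ =
        ‖K.a (L (v i)) (P (i.removeNth v))‖ := by
      rcases neg_one_pow_eq_or ℤ (i : ℕ) with h | h <;> rw [h] <;> simp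
    rw [h1]
    have h2 : ‖K.a (L (v i)) (P (i.removeNth v))‖ ≤ ‖K.a‖ * ‖L (v i)‖ * ‖P (i.removeNth v)‖ :=
      K.a.le_opNorm₂ _ _
    have h3 := hP (i.removeNth v)
    have h4 := hL (v i)
    have h5 : ∏ j, g (v j) = g (v i) * ∏ j, g (i.removeNth v j) := by
      rw [Fin.prod_univ_succAbove (fun j => g (v j)) i]
      rfl
    have h6 : 0 ≤ κ * g (v i) := le_trans (norm_nonneg _) h4
    calc ‖K.a (L (v i)) (P (i.removeNth v))‖ ≤ ‖K.a‖ * ‖L (v i)‖ * ‖P (i.removeNth v)‖ := h2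
      _ ≤ ‖K.a‖ * (κ * g (v i)) * (C * ∏ j, g (i.removeNth v j)) := by
          have h7 : ‖K.a‖ * ‖L (v i)‖ ≤ ‖K.a‖ * (κ * g (v i)) :=
            mul_le_mul_of_nonneg_left h4 K.a.opNorm_nonneg
          have h8 : 0 ≤ ‖K.a‖ * (κ * g (v i)) := mul_nonneg K.a.opNorm_nonneg h6
          exact mul_le_mul h7 h3 (norm_nonneg _) h8
      _ = ‖K.a‖ * (κ * C) * ∏ j, g (v j) := by rw [h5]; ring
  calc ‖∑ i : Fin (q + 1), (-1 : ℤ) ^ (i : ℕ) • K.a (L (v i)) (P (i.removeNth v))‖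
      ≤ ∑ i : Fin (q + 1), ‖(-1 : ℤ) ^ (i : ℕ) • K.a (L (v i)) (P (i.removeNth v))‖ :=
        norm_sum_le _ _
    _ ≤ ∑ _i : Fin (q + 1), ‖K.a‖ * (κ * C) * ∏ j, g (v j) :=
        Finset.sum_le_sum fun i _ => hterm i
    _ = ((q + 1 : ℝ) * ‖K.a‖ * (κ * C)) * ∏ i, g (v i) := by
        rw [Finset.sum_const, Finset.card_univ, Fintype.card_fin, nsmul_eq_mul]
        push_cast
        ring

theorem cst_bound (x : V) (g : E → ℝ) (v : Fin 0 → E) :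
    ‖cst E x v‖ ≤ (‖x‖ + 1) * ∏ i, g (v i) := by
  have h : cst E x v = x := rfl
  rw [h]
  simp

theorem Pw_bound (K : Car Y V) (r : ℕ) : ∃ C : ℝ, 0 < C ∧ ∀ (L : E →L[ℝ] Y) (g : E → ℝ),
    (∀ v, ‖L v‖ ≤ g v) → ∀ v : Fin r → E, ‖Pw K L r v‖ ≤ C * ∏ i, g (v i) := by
  induction r with
  | zero =>
    refine ⟨‖K.Ω‖ + 1, by positivity, fun L g _ v => cst_bound K.Ω g v⟩
  | succ r ih =>
    obtain ⟨C, hC, h⟩ := ih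
    refine ⟨(r + 1 : ℝ) * ‖K.a‖ * (1 * C) + 1, by positivity, fun L g hL v => ?_⟩
    have hg : ∀ v, 0 ≤ g v := fun v => le_trans (norm_nonneg _) (hL v)
    have h1 := wd_le K L (Pw K L r) g 1 C hg (by simpa using hL) (h L g hL) v
    refine le_trans h1 ?_
    apply mul_le_mul_of_nonneg_right (by linarith)
    exact Finset.prod_nonneg fun i _ => hg _

theorem wd_sub_eq (K : Car Y V) {q : ℕ} (L L' : E →L[ℝ] Y) (P P' : E [⋀^Fin q]→L[ℝ] V)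
    (v : Fin (q + 1) → E) :
    wd K L' P' v - wd K L P v = wd K (L' - L) P' v + wd K L (P' - P) v := by
  simp only [wd_apply]
  rw [← Finset.sum_sub_distrib, ← Finset.sum_add_distrib]
  refine Finset.sum_congr rfl fun i _ => ?_
  rw [← smul_sub, ← smul_add]
  congr 1
  simp only [_root_.sub_apply, ContinuousAlternatingMap.sub_apply, map_sub]
  abel

theorem Pw_diff (K : Car Y V) (r : ℕ) : ∃ C : ℝ, 0 < C ∧ ∀ (L L' : E →L[ℝ] Y) (g : E → ℝ) (κ : ℝ),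
    (∀ v, ‖L v‖ ≤ g v) → (∀ v, ‖L' v‖ ≤ g v) → (∀ v, ‖L' v - L v‖ ≤ κ * g v) → 0 ≤ κ →
    ∀ v : Fin r → E, ‖Pw K L' r v - Pw K L r v‖ ≤ C * κ * ∏ i, g (v i) := by
  induction r with
  | zero =>
    refine ⟨1, one_pos, fun L L' g κ _ _ _ hκ v => ?_⟩
    have h : Pw K L' 0 v - Pw K L 0 v = 0 := by
      simp [Pw]
    rw [h]
    simpa using hκ
  | succ r ih =>
    obtain ⟨C, hC, h⟩ := ih
    obtain ⟨C₁, hC₁, h₁⟩ := Pw_bound (E := E) K r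
    refine ⟨(r + 1 : ℝ) * ‖K.a‖ * C₁ + (r + 1 : ℝ) * ‖K.a‖ * C + 1, by positivity,
      fun L L' g κ hL hL' hd hκ v => ?_⟩
    have hg : ∀ v, 0 ≤ g v := fun v => le_trans (norm_nonneg _) (hL v)
    have hpr : 0 ≤ ∏ i, g (v i) := Finset.prod_nonneg fun i _ => hg _
    have e : Pw K L' (r + 1) v - Pw K L (r + 1) v =
        wd K (L' - L) (Pw K L' r) v + wd K L (Pw K L' r - Pw K L r) v :=
      wd_sub_eq K L L' (Pw K L r) (Pw K L' r) v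
    have h2 := wd_le K (L' - L) (Pw K L' r) g κ C₁ hg (by simpa using hd) (h₁ L' g hL') v
    have h3 := wd_le K L (Pw K L' r - Pw K L r) g 1 (C * κ) hg (by simpa using hL)
      (by simpa using h L L' g κ hL hL' hd hκ) v
    rw [e]
    refine le_trans (norm_add_le _ _) (le_trans (add_le_add h2 h3) ?_)
    have h4 : 0 ≤ κ * ∏ i, g (v i) := mul_nonneg hκ hpr
    nlinarith [h4]

theorem SP_bound (K : Car Y V) (r : ℕ) : ∃ C : ℝ, 0 < C ∧ ∀ (L L' : E →L[ℝ] Y) (g : E → ℝ),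
    (∀ v, ‖L v‖ ≤ g v) → (∀ v, ‖L' v‖ ≤ g v) →
    ∀ v : Fin r → E, ‖SP K L L' r v‖ ≤ C * ∏ i, g (v i) := by
  induction r with
  | zero =>
    refine ⟨‖K.Ω‖ + 1, by positivity, fun L L' g _ _ v => cst_bound K.Ω g v⟩
  | succ r ih =>
    obtain ⟨C, hC, h⟩ := ih
    obtain ⟨C₁, hC₁, h₁⟩ := Pw_bound (E := E) K (r + 1)
    refine ⟨(r + 1 : ℝ) * ‖K.a‖ * (1 * C) + C₁, by positivity, fun L L' g hL hL' v => ?_⟩
    have hg : ∀ v, 0 ≤ g v := fun v => le_trans (norm_nonneg _) (hL v)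
    have h2 := wd_le K L (SP K L L' r) g 1 C hg (by simpa using hL) (h L L' g hL hL') v
    have h3 := h₁ L' g hL' v
    have e : SP K L L' (r + 1) v = wd K L (SP K L L' r) v + Pw K L' (r + 1) v := rfl
    rw [e]
    refine le_trans (norm_add_le _ _) (le_trans (add_le_add h2 h3) (le_of_eq ?_))
    ring

end Pool.Agent.MPca0fc2.QT
end

section

set_option autoImplicit false

open Metric Set MeasureTheory Filter Topology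
open scoped InnerProductSpace ENNReal

namespace Pool.Agent.MPca0fc2.QT

open Pool.Agent.MPca0fc2.PT

variable {E : Type*} [NormedAddCommGroup E] [InnerProductSpace ℂ E]
variable {V : Type*} [NormedAddCommGroup V] [NormedSpace ℂ V]
variable {Y : Type*} [NormedAddCommGroup Y] [NormedSpace ℂ Y]

theorem kb2_a_le (K : Car Y V) (s : Y) (x : V) : ‖K.a s x‖ ≤ ‖K.a‖ * ‖s‖ * ‖x‖ :=
  K.a.le_opNorm₂ s x

theorem kb2_prod_nonneg {r : ℕ} (g : E → ℝ) (hg : ∀ v, 0 ≤ g v) (v : Fin r → E) :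
    0 ≤ ∏ i, g (v i) := Finset.prod_nonneg fun i _ => hg (v i)

theorem UU_bound (K : Car Y V) (r : ℕ) : ∃ C : ℝ, 0 < C ∧ ∀ (σ : E → Y) (w : E) (g : E → ℝ),
    (∀ v, ‖D01 σ w v‖ ≤ g v) → ∀ v : Fin r → E, ‖UU K σ r w v‖ ≤ C * ‖σ w‖ * ∏ i, g (v i) := by
  obtain ⟨C, hC, h⟩ := Pw_bound (E := E) K r
  refine ⟨(‖K.a‖ + 1) * C, by positivity, ?_⟩
  intro σ w g hg v
  have hp : 0 ≤ ∏ i, g (v i) := kb2_prod_nonneg g (fun v => (norm_nonneg _).trans (hg v)) v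
  have h1 := h (D01 σ w) g hg v
  unfold UU
  rw [opc_apply]
  calc ‖K.a (σ w) (Pw K (D01 σ w) r v)‖ ≤ ‖K.a‖ * ‖σ w‖ * ‖Pw K (D01 σ w) r v‖ := kb2_a_le K _ _
    _ ≤ ‖K.a‖ * ‖σ w‖ * (C * ∏ i, g (v i)) := by gcongr
    _ ≤ (‖K.a‖ + 1) * ‖σ w‖ * (C * ∏ i, g (v i)) := by gcongr; linarith
    _ = (‖K.a‖ + 1) * C * ‖σ w‖ * ∏ i, g (v i) := by ring

theorem UU_diff (K : Car Y V) (r : ℕ) : ∃ C : ℝ, 0 < C ∧ ∀ (σ σ' : E → Y) (w : E) (g : E → ℝ)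
    (κ B : ℝ), (∀ v, ‖D01 σ w v‖ ≤ g v) → (∀ v, ‖D01 σ' w v‖ ≤ g v) →
    (∀ v, ‖D01 σ' w v - D01 σ w v‖ ≤ κ * g v) → ‖σ w‖ ≤ B → ‖σ' w‖ ≤ B →
    ‖σ' w - σ w‖ ≤ κ * B → 0 ≤ κ →
    ∀ v : Fin r → E, ‖UU K σ' r w v - UU K σ r w v‖ ≤ C * κ * B * ∏ i, g (v i) := by
  obtain ⟨C, hC, h⟩ := Pw_bound (E := E) K r
  obtain ⟨C', hC', h'⟩ := Pw_diff (E := E) K r
  refine ⟨(‖K.a‖ + 1) * (C + C'), by positivity, ?_⟩
  intro σ σ' w g κ B hg hg' hd hB hB' hs hκ v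
  have hp : 0 ≤ ∏ i, g (v i) := kb2_prod_nonneg g (fun v => (norm_nonneg _).trans (hg v)) v
  have hB0 : 0 ≤ B := (norm_nonneg _).trans hB
  have h1 := h (D01 σ w) g hg v
  have h2 := h' (D01 σ w) (D01 σ' w) g κ hg hg' hd hκ v
  unfold UU
  rw [opc_apply, opc_apply]
  have h3 : K.a (σ' w) (Pw K (D01 σ' w) r v) - K.a (σ w) (Pw K (D01 σ w) r v) =
      K.a (σ' w) (Pw K (D01 σ' w) r v - Pw K (D01 σ w) r v) +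
        K.a (σ' w - σ w) (Pw K (D01 σ w) r v) := by
    rw [map_sub, map_sub]
    simp only [sub_apply]
    abel
  rw [h3]
  calc ‖K.a (σ' w) (Pw K (D01 σ' w) r v - Pw K (D01 σ w) r v) +
        K.a (σ' w - σ w) (Pw K (D01 σ w) r v)‖
      ≤ ‖K.a‖ * ‖σ' w‖ * ‖Pw K (D01 σ' w) r v - Pw K (D01 σ w) r v‖ +
        ‖K.a‖ * ‖σ' w - σ w‖ * ‖Pw K (D01 σ w) r v‖ :=
        (norm_add_le _ _).trans (add_le_add (kb2_a_le K _ _) (kb2_a_le K _ _))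
    _ ≤ ‖K.a‖ * B * (C' * κ * ∏ i, g (v i)) + ‖K.a‖ * (κ * B) * (C * ∏ i, g (v i)) := by
        gcongr
    _ = ‖K.a‖ * ((C + C') * κ * B * ∏ i, g (v i)) := by ring
    _ ≤ (‖K.a‖ + 1) * ((C + C') * κ * B * ∏ i, g (v i)) := by
        gcongr
        linarith
    _ = (‖K.a‖ + 1) * (C + C') * κ * B * ∏ i, g (v i) := by ring

theorem JJ_bound (K : Car Y V) (r : ℕ) : ∃ C : ℝ, 0 < C ∧ ∀ (σ σ' : E → Y) (w : E) (g : E → ℝ)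
    (B : ℝ), (∀ v, ‖D01 σ w v‖ ≤ g v) → (∀ v, ‖D01 σ' w v‖ ≤ g v) → ‖σ w‖ ≤ B →
    ∀ v : Fin r → E, ‖JJ K σ σ' r w v‖ ≤ C * B * ‖σ' w - σ w‖ * ∏ i, g (v i) := by
  obtain ⟨C, hC, h⟩ := SP_bound (E := E) K r
  refine ⟨(‖K.a‖ + 1) ^ 2 * C, by positivity, ?_⟩
  intro σ σ' w g B hg hg' hB v
  have hp : 0 ≤ ∏ i, g (v i) := kb2_prod_nonneg g (fun v => (norm_nonneg _).trans (hg v)) v
  have hB0 : 0 ≤ B := (norm_nonneg _).trans hB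
  have h1 := h (D01 σ w) (D01 σ' w) g hg hg' v
  unfold JJ
  rw [opc_apply, opc_apply]
  set x : V := SP K (D01 σ w) (D01 σ' w) r v with hx
  have h0 : ∀ y : V, K.a (σ w) (K.a (σ w) y) = 0 := by
    intro y
    have h2 := K.aa (σ w) (σ w) y
    have h3 : (2 : ℂ) • K.a (σ w) (K.a (σ w) y) = 0 := by
      rw [two_smul]
      nth_rewrite 1 [h2]
      exact neg_add_cancel _
    exact (smul_eq_zero.1 h3).resolve_left two_ne_zero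
  have h3 : K.a (σ w) (K.a (σ' w) x) = K.a (σ w) (K.a (σ' w - σ w) x) := by
    rw [map_sub]
    simp only [sub_apply, map_sub]
    rw [h0, sub_zero]
  rw [h3]
  calc ‖K.a (σ w) (K.a (σ' w - σ w) x)‖ ≤ ‖K.a‖ * ‖σ w‖ * ‖K.a (σ' w - σ w) x‖ := kb2_a_le K _ _
    _ ≤ ‖K.a‖ * ‖σ w‖ * (‖K.a‖ * ‖σ' w - σ w‖ * ‖x‖) := by
        gcongr
        exact kb2_a_le K _ _
    _ ≤ (‖K.a‖ + 1) * B * ((‖K.a‖ + 1) * ‖σ' w - σ w‖ * (C * ∏ i, g (v i))) := by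
        gcongr
        · linarith
        · linarith
    _ = (‖K.a‖ + 1) ^ 2 * C * B * ‖σ' w - σ w‖ * ∏ i, g (v i) := by ring

end Pool.Agent.MPca0fc2.QT
end
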