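import Mathlib
import Pool.Agent.Lib.MP_ca0fc2_an.Mg.G013
import Pool.Agent.Lib.MP_ca0fc2_an.Mg.G012
import Pool.Agent.Lib.MP_ca0fc2_an.Mg.G020

section

set_option autoImplicit false

open Metric Set MeasureTheory Filter Topology
open scoped InnerProductSpace ENNReal

namespace Pool.Agent.MPca0fc2.QT

open Pool.Agent.MPca0fc2.PT

section path

variable {E : Type*} [NormedAddCommGroup E] [InnerProductSpace ℂ E]

theorem d1p_ss (a : E) : HasDerivAt (fun t : ℝ => ss (t • a)) 0 0 := by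
  have h1 : HasDerivAt (fun t : ℝ => 1 - ‖t • a‖ ^ 2) 0 0 := by
    have h2 : (fun t : ℝ => 1 - ‖t • a‖ ^ 2) = fun t : ℝ => 1 - t ^ 2 * ‖a‖ ^ 2 := by
      funext t
      rw [norm_smul, mul_pow, Real.norm_eq_abs, sq_abs]
    rw [h2]
    have h3 := (((hasDerivAt_id (0 : ℝ)).pow 2).mul_const (‖a‖ ^ 2)).const_sub 1
    simpa using h3
  have h4 := h1.sqrt (by simp)
  simpa [ss] using h4

theorem d1p_inner (a y : E) : HasDerivAt (fun t : ℝ => ⟪t • a, y⟫_ℂ) ⟪a, y⟫_ℂ 0 := by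
  have h : (fun t : ℝ => ⟪t • a, y⟫_ℂ) = fun t : ℝ => t • ⟪a, y⟫_ℂ := by
    funext t
    rw [inner_smul_left_eq_smul]
  rw [h]
  simpa using (hasDerivAt_id (0 : ℝ)).smul_const ⟪a, y⟫_ℂ

theorem d1p_AA (a y : E) : HasDerivAt (fun t : ℝ => AA (t • a) y) 0 0 := by
  have h1 := (d1p_ss a)
  have h2 : HasDerivAt (fun t : ℝ => ((ss (t • a) : ℝ) : ℂ)) ((0 : ℝ) : ℂ) 0 := h1.ofReal_comp
  have h3 : HasDerivAt (fun t : ℝ => (((1 + ss (t • a))⁻¹ : ℝ) : ℂ)) ((0 : ℝ) : ℂ) 0 := by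
    have h4 : HasDerivAt (fun t : ℝ => (1 + ss (t • a))⁻¹) 0 0 := by
      have h5 := (h1.const_add 1).fun_inv (by simp [ss])
      simpa using h5
    exact h4.ofReal_comp
  have h6 : HasDerivAt (fun t : ℝ => t • a) a 0 := by
    simpa using (hasDerivAt_id (0 : ℝ)).smul_const a
  have h7 := (h2.smul_const y).add (h3.smul ((d1p_inner a y).smul h6))
  refine (h7.congr_deriv ?_)
  simp

theorem d1p_gg (a x : E) : HasDerivAt (fun t : ℝ => gg (t • a) x) (a - ⟪a, x⟫_ℂ • x) 0 := by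
  have h1 := (d1p_inner a x).const_add 1
  have h2 := h1.fun_inv (by simp)
  have h3 : HasDerivAt (fun t : ℝ => t • a) a 0 := by
    simpa using (hasDerivAt_id (0 : ℝ)).smul_const a
  have h4 := h2.smul (h3.add (d1p_AA a x))
  refine h4.congr_deriv ?_
  simp [AA, ss, sub_eq_add_neg]

theorem gg_at_zero (x : E) : gg 0 x = x := by simp [gg, AA, ss]

theorem gg'_at_zero (x : E) : gg' 0 x = ContinuousLinearMap.id ℂ E := by
  ext v
  simp [gg', AA, ss]

theorem d1p_gg' (a x v : E) : HasDerivAt (fun t : ℝ => gg' (t • a) x v)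
    (-(⟪a, x⟫_ℂ • v) - ⟪a, v⟫_ℂ • x) 0 := by
  have h1 := (d1p_inner a x).const_add 1
  have h2 := h1.fun_inv (by simp)
  have h4 := h2.smul ((d1p_AA a v).sub ((d1p_inner a v).smul (d1p_gg a x)))
  refine h4.congr_deriv ?_
  simp [AA, ss, gg_at_zero, sub_eq_add_neg, add_comm]

/-- the factor of the pull back of vectors -/
theorem d1p_gi (a v : E) : HasDerivAt (fun t : ℝ => gg' (-(t • a)) (t • a) v) 0 0 := by
  have h3 : HasDerivAt (fun t : ℝ => t • a) a 0 := by
    simpa using (hasDerivAt_id (0 : ℝ)).smul_const a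
  have hn : ∀ t : ℝ, -(t • a) = t • (-a) := fun t => by simp
  have hc : ContinuousAt (fun t : ℝ => t • a) 0 := h3.continuousAt
  have hev : ∀ᶠ t : ℝ in 𝓝 0, ‖t • a‖ < 1 := by
    have h := hc.norm
    exact h.eventually_lt continuousAt_const (by simp)
  -- the inner product `⟪-(t a), t a⟫`
  have h5 : HasDerivAt (fun t : ℝ => ⟪-(t • a), t • a⟫_ℂ) 0 0 := by
    have h : (fun t : ℝ => ⟪-(t • a), t • a⟫_ℂ) =
        fun t : ℝ => -((((t * t * ‖a‖ ^ 2 : ℝ)) : ℂ)) := by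
      funext t
      rw [inner_neg_left, inner_self_eq_norm_sq_to_K, norm_smul, Real.norm_eq_abs]
      congr 1
      simp only [Complex.coe_algebraMap]
      norm_cast
      rw [mul_pow, sq_abs]
      ring
    rw [h]
    have h6 : HasDerivAt (fun t : ℝ => t * t * ‖a‖ ^ 2) 0 0 := by
      have h7 := ((hasDerivAt_id (0 : ℝ)).mul (hasDerivAt_id (0 : ℝ))).mul_const (‖a‖ ^ 2)
      simpa using h7
    have h7 := h6.ofReal_comp.fun_neg
    simpa only [Complex.ofReal_zero, neg_zero] using h7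
  have h2 := (h5.const_add 1).fun_inv (by simp)
  -- `gg (-(t a)) (t a) = 0` near `0`
  have h8 : HasDerivAt (fun t : ℝ => gg (-(t • a)) (t • a)) 0 0 := by
    have h9 : (fun t : ℝ => gg (-(t • a)) (t • a)) =ᶠ[𝓝 0] fun _ => (0 : E) := by
      filter_upwards [hev] with t ht
      have h10 : AA (-(t • a)) (t • a) = t • a := by
        have h11 := AA_self (z := -(t • a)) (by rw [norm_neg]; exact ht.le)
        have h12 : AA (-(t • a)) (t • a) = -(AA (-(t • a)) (-(t • a))) := by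
          rw [map_neg, neg_neg]
        rw [h12, h11, neg_neg]
      simp [gg, h10]
    exact (hasDerivAt_const (0 : ℝ) (0 : E)).congr_of_eventuallyEq h9
  have h13 : HasDerivAt (fun t : ℝ => AA (-(t • a)) v) 0 0 := by
    have := d1p_AA (-a) v
    simpa only [hn] using this
  have h14 : HasDerivAt (fun t : ℝ => ⟪-(t • a), v⟫_ℂ) ⟪-a, v⟫_ℂ 0 := by
    have := d1p_inner (-a) v
    simpa only [hn] using this
  have h4 := h2.smul (h13.sub (h14.smul h8))
  refine h4.congr_deriv ?_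
  simp [gg]

end path

section conj

variable {E : Type*} [NormedAddCommGroup E] [InnerProductSpace ℂ E]
variable {V : Type*} [NormedAddCommGroup V] [NormedSpace ℂ V]

/-- the complex linear part of the derivative -/
noncomputable def dh {q : ℕ} (η : E → E [⋀^Fin q]→L[ℝ] V) (w v : E) : E [⋀^Fin q]→L[ℝ] V :=
  (2⁻¹ : ℂ) • (fderiv ℝ η w v - Complex.I • fderiv ℝ η w (Complex.I • v))

theorem smul_re_im (c : ℂ) (y : E) : c • y = (c.re : ℝ) • y + (c.im : ℝ) • (Complex.I • y) := by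
  conv_lhs => rw [← Complex.re_add_im c]
  rw [add_smul, mul_smul]
  simp only [Complex.coe_smul]

theorem lin_two {W : Type*} [NormedAddCommGroup W] [NormedSpace ℝ W] [NormedSpace ℝ E]
    (L : E →L[ℝ] W) (α β : ℝ) (u v : E) : L (α • u + β • v) = α • L u + β • L v := by
  rw [map_add, map_smul, map_smul]

theorem dh_smul {q : ℕ} (η : E → E [⋀^Fin q]→L[ℝ] V) (w v : E) (c : ℂ) :
    dh η w (c • v) = c • dh η w v := by
  have h1 : fderiv ℝ η w (c • v) = c.re • fderiv ℝ η w v + c.im • fderiv ℝ η w (Complex.I • v) := by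
    rw [smul_re_im c v]
    exact lin_two _ _ _ _ _
  have h2 : fderiv ℝ η w (Complex.I • (c • v)) =
      c.re • fderiv ℝ η w (Complex.I • v) + (-c.im) • fderiv ℝ η w v := by
    have h3 : Complex.I • (c • v) = (c.re : ℝ) • (Complex.I • v) + (-c.im : ℝ) • v := by
      rw [smul_comm, smul_re_im c (Complex.I • v), smul_smul Complex.I Complex.I v,
        Complex.I_mul_I, neg_one_smul, smul_neg, neg_smul]
    rw [h3]
    exact lin_two _ _ _ _ _
  rw [dh, dh, h1, h2]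
  generalize fderiv ℝ η w v = A
  generalize fderiv ℝ η w (Complex.I • v) = B
  obtain ⟨α, β⟩ := c
  have e : (⟨α, β⟩ : ℂ) = (α : ℂ) + (β : ℂ) * Complex.I := by
    apply Complex.ext <;> simp
  change (2⁻¹ : ℂ) • ((α • A + β • B) - Complex.I • (α • B + (-β) • A)) =
    (⟨α, β⟩ : ℂ) • (2⁻¹ : ℂ) • (A - Complex.I • B)
  rw [e, ← Complex.coe_smul α A, ← Complex.coe_smul β B, ← Complex.coe_smul α B,
    ← Complex.coe_smul (-β) A, Complex.ofReal_neg]
  match_scalars
  · ring_nf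
  · ring_nf
    rw [Complex.I_sq]
    ring

theorem anti_conj {q : ℕ} {η : E [⋀^Fin q]→L[ℝ] V} (h : Anti η) (w : Fin q → E) (i : Fin q)
    (c : ℂ) (y : E) :
    η (Function.update w i (c • y)) = (starRingEnd ℂ c) • η (Function.update w i y) := by
  have h1 := h (Function.update w i y) i
  simp only [Function.update_idem, Function.update_self] at h1
  rw [smul_re_im c y, ContinuousAlternatingMap.map_update_add,
    ContinuousAlternatingMap.map_update_smul, ContinuousAlternatingMap.map_update_smul, h1]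
  generalize η (Function.update w i y) = A
  rw [← Complex.coe_smul c.re A, ← Complex.coe_smul c.im]
  have e : (starRingEnd ℂ) c = (c.re : ℂ) + -((c.im : ℂ) * Complex.I) := by
    apply Complex.ext <;> simp
  rw [e, add_smul, neg_smul, smul_neg, smul_smul]

end conj

/-- integrals of derivatives with a parameter over compact sets -/
theorem reg_line {X P F : Type*} [NormedAddCommGroup X] [NormedSpace ℝ X]
    [NormedAddCommGroup P] [NormedSpace ℝ P] [SecondCountableTopology P]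
    [MeasurableSpace P] [BorelSpace P] [NormedAddCommGroup F] [NormedSpace ℝ F]
    [CompleteSpace F]
    {f : X × P → F} {Ω : Set (X × P)} (hΩ : IsOpen Ω) (hf : ContDiffOn ℝ 1 f Ω)
    {K K₀ : Set P} (hK : IsCompact K) (hKK : K₀ ⊆ K) {z : X} (hSK : ∀ p ∈ K, (z, p) ∈ Ω)
    (ρ : Measure P) [IsFiniteMeasureOnCompacts ρ] (b : X) :
    (∫ p in K₀, (fderiv ℝ f (z, p)).comp (ContinuousLinearMap.inl ℝ X P) ∂ρ) b =
      ∫ p in K₀, fderiv ℝ f (z, p) (b, 0) ∂ρ ∧
    IntegrableOn (fun p => fderiv ℝ f (z, p) (b, 0)) K₀ ρ := by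
  have hDc : ContinuousOn (fun x : X × P => (fderiv ℝ f x).comp
      (ContinuousLinearMap.inl ℝ X P)) Ω :=
    (hf.continuousOn_fderiv_of_isOpen hΩ le_rfl).clm_comp continuousOn_const
  have hc2 : ContinuousOn (fun p : P => (fderiv ℝ f (z, p)).comp
      (ContinuousLinearMap.inl ℝ X P)) K :=
    hDc.comp (f := fun p : P => (z, p)) (by fun_prop) hSK
  have hint := (hc2.integrableOn_compact (μ := ρ) hK).mono_set hKK
  refine ⟨?_, ?_⟩
  · rw [ContinuousLinearMap.integral_apply hint]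
    rfl
  · exact hint.apply_continuousLinearMap b

theorem half_int {P F : Type*} [MeasurableSpace P] [NormedAddCommGroup F] [NormedSpace ℂ F]
    {ρ : Measure P} {K₀ : Set P} {f g : P → F} (hf : IntegrableOn f K₀ ρ)
    (hg : IntegrableOn g K₀ ρ) :
    (2⁻¹ : ℂ) • ((∫ p in K₀, f p ∂ρ) + Complex.I • ∫ p in K₀, g p ∂ρ) =
      ∫ p in K₀, (2⁻¹ : ℂ) • (f p + Complex.I • g p) ∂ρ := by
  have h : IntegrableOn (fun p => Complex.I • g p) K₀ ρ := hg.smul Complex.I
  rw [integral_smul, integral_add hf h, integral_smul]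

theorem clm_deriv {F G : Type*} [NormedAddCommGroup F] [NormedSpace ℝ F] [NormedAddCommGroup G]
    [NormedSpace ℝ G] (L : F →L[ℝ] G) {f : ℝ → F} {N : F} (h : HasDerivAt f N 0) :
    HasDerivAt (fun t => L (f t)) (L N) 0 := L.hasFDerivAt.comp_hasDerivAt 0 h

variable {E : Type*} [NormedAddCommGroup E] [InnerProductSpace ℂ E]
variable {V : Type*} [NormedAddCommGroup V] [NormedSpace ℂ V]
variable [FiniteDimensional ℂ E] [MeasurableSpace E] [BorelSpace E]

omit [FiniteDimensional ℂ E] [MeasurableSpace E] [BorelSpace E] in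
theorem d1p_line (b : E) : HasDerivAt (fun t : ℝ => t • b) b 0 := by
  simpa using (hasDerivAt_id (0 : ℝ)).smul_const b

omit [FiniteDimensional ℂ E] [MeasurableSpace E] [BorelSpace E] in
/-- the derivative of the factor `gg' (-z) z` along a line vanishes at the origin -/
theorem d1p_g2 (b : E) :
    HasDerivAt (fun t : ℝ => (gg' (-(t • b)) (t • b)).restrictScalars ℝ) 0 0 := by
  have h3 : DifferentiableAt ℝ (fun t : ℝ => (gg' (-(t • b)) (t • b)).restrictScalars ℝ) 0 := by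
    have h4 : ContDiffAt ℝ 2 (fun p : E × E => (gg' p.1 p.2).restrictScalars ℝ)
        ((-((0 : ℝ) • b), (0 : ℝ) • b) : E × E) := by
      refine gg'_smooth.contDiffAt (isOpen_dom.mem_nhds ?_)
      simp
    have h5 : ContDiffAt ℝ 2 (fun t : ℝ => ((-(t • b), t • b) : E × E)) 0 :=
      (contDiffAt_id.smul contDiffAt_const).neg.prodMk (contDiffAt_id.smul contDiffAt_const)
    have h6 := h4.comp (0 : ℝ) h5
    exact h6.differentiableAt (by norm_num)
  obtain ⟨D, hD⟩ : ∃ D, HasDerivAt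
    (fun t : ℝ => (gg' (-(t • b)) (t • b)).restrictScalars ℝ) D 0 := ⟨_, h3.hasDerivAt⟩
  have hDv : D = 0 := by
    ext v
    have h4 := hD.clm_apply (hasDerivAt_const (0 : ℝ) v)
    have h5 := h4.unique (d1p_gi b v)
    simpa using h5
  rw [hDv] at hD
  exact hD

end Pool.Agent.MPca0fc2.QT
end

section

set_option autoImplicit false

open Metric Set MeasureTheory Filter Topology
open scoped InnerProductSpace ENNReal

namespace Pool.Agent.MPca0fc2.QT

open Pool.Agent.MPca0fc2.PT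

variable {E : Type*} [NormedAddCommGroup E] [InnerProductSpace ℂ E]
variable {V : Type*} [NormedAddCommGroup V] [NormedSpace ℂ V]

theorem kop_smul_mem {r : ℝ} (hr : r ∈ Icc (0 : ℝ) 1) {x : E} (hx : x ∈ closedBall (0 : E) 1) :
    (r : ℂ) • x ∈ closedBall (0 : E) 1 := by
  rw [mem_closedBall_zero_iff] at hx ⊢
  rw [norm_smul, Complex.norm_real, Real.norm_of_nonneg hr.1]
  calc r * ‖x‖ ≤ 1 * 1 := by gcongr; exact hr.2
    _ = 1 := by norm_num

/-- currying -/
noncomputable def kopC (E : Type*) [NormedAddCommGroup E] [InnerProductSpace ℂ E]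
    (V : Type*) [NormedAddCommGroup V] [NormedSpace ℂ V] (q : ℕ) :
    (E [⋀^Fin (q + 1)]→L[ℝ] V) →L[ℝ] E →L[ℝ] (E [⋀^Fin q]→L[ℝ] V) :=
  (ContinuousAlternatingMap.curryLeftLI (𝕜 := ℝ) (E := E) (F := V) (n := q)).toContinuousLinearMap

theorem kopC_apply {q : ℕ} (P : E [⋀^Fin (q + 1)]→L[ℝ] V) : kopC E V q P = P.curryLeft := rfl

/-- scaling -/
noncomputable def kopS (E : Type*) [NormedAddCommGroup E] [InnerProductSpace ℂ E] (r : ℝ) :
    E →L[ℝ] E := ((r : ℂ) • ContinuousLinearMap.id ℂ E).restrictScalars ℝ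

theorem kopS_apply (r : ℝ) (x : E) : kopS E r x = (r : ℂ) • x := rfl

/-- the derivative of `ξ ↦ η(rξ)(ξ, u)` -/
theorem kop_G {q : ℕ} {η : E → E [⋀^Fin (q + 1)]→L[ℝ] V} {U : Set E} (hU : IsOpen U)
    (hη : ContDiffOn ℝ 1 η U) {r : ℝ} {ξ : E} (hξ : (r : ℂ) • ξ ∈ U) (u : Fin q → E) :
    HasFDerivAt (fun x : E => η ((r : ℂ) • x) (Matrix.vecCons x u))
      ((ContinuousAlternatingMap.apply ℝ E V u).comp ((η ((r : ℂ) • ξ)).curryLeft +
        ((kopC E V q).comp ((fderiv ℝ η ((r : ℂ) • ξ)).comp (kopS E r))).flip ξ)) ξ := by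
  have h1 : HasFDerivAt η (fderiv ℝ η ((r : ℂ) • ξ)) ((r : ℂ) • ξ) :=
    ((hη.contDiffAt (hU.mem_nhds hξ)).differentiableAt one_ne_zero).hasFDerivAt
  have h3 : HasFDerivAt (fun x : E => η ((r : ℂ) • x))
      ((fderiv ℝ η ((r : ℂ) • ξ)).comp (kopS E r)) ξ :=
    HasFDerivAt.comp (g := η) ξ h1 (kopS E r).hasFDerivAt
  have h4 : HasFDerivAt (fun x : E => kopC E V q (η ((r : ℂ) • x)))
      ((kopC E V q).comp ((fderiv ℝ η ((r : ℂ) • ξ)).comp (kopS E r))) ξ :=
    HasFDerivAt.comp (g := kopC E V q) ξ (kopC E V q).hasFDerivAt h3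
  have h5 := h4.clm_apply (hasFDerivAt_id ξ)
  have h6 := HasFDerivAt.comp (g := ContinuousAlternatingMap.apply ℝ E V u) ξ
    (ContinuousAlternatingMap.apply ℝ E V u).hasFDerivAt h5
  refine h6.congr_fderiv ?_
  ext x
  simp [kopC_apply]

theorem kop_G_fderiv {q : ℕ} {η : E → E [⋀^Fin (q + 1)]→L[ℝ] V} {U : Set E} (hU : IsOpen U)
    (hη : ContDiffOn ℝ 1 η U) {r : ℝ} {ξ : E} (hξ : (r : ℂ) • ξ ∈ U) (u : Fin q → E) (x : E) :
    fderiv ℝ (fun x : E => η ((r : ℂ) • x) (Matrix.vecCons x u)) ξ x =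
      η ((r : ℂ) • ξ) (Matrix.vecCons x u) +
        (r : ℂ) • fderiv ℝ η ((r : ℂ) • ξ) x (Matrix.vecCons ξ u) := by
  rw [(kop_G hU hη hξ u).fderiv]
  simp [kopC_apply, kopS_apply]

theorem kop_anti {q : ℕ} {P : E [⋀^Fin (q + 1)]→L[ℝ] V} (h : Anti P) (x : E) (u : Fin q → E) :
    P (Matrix.vecCons (Complex.I • x) u) = -(Complex.I • P (Matrix.vecCons x u)) := by
  have := h (Matrix.vecCons x u) 0
  rw [← this]
  congr 1
  funext i
  refine Fin.cases ?_ (fun i => ?_) i <;> simp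

theorem kop_D10 {q : ℕ} {η : E → E [⋀^Fin (q + 1)]→L[ℝ] V} {U : Set E} (hU : IsOpen U)
    (hη : ContDiffOn ℝ 1 η U) (ha : ∀ w ∈ U, Anti (η w)) {r : ℝ} {ξ : E} (hξ : (r : ℂ) • ξ ∈ U)
    (u : Fin q → E) (x : E) :
    D10 (fun x : E => η ((r : ℂ) • x) (Matrix.vecCons x u)) ξ x =
      (r : ℂ) • dh η ((r : ℂ) • ξ) x (Matrix.vecCons ξ u) := by
  rw [D10, kop_G_fderiv hU hη hξ, kop_G_fderiv hU hη hξ, kop_anti (ha _ hξ)]
  simp only [dh, ContinuousAlternatingMap.smul_apply, ContinuousAlternatingMap.sub_apply]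
  simp only [smul_add, smul_sub, smul_neg, smul_smul]
  have h : Complex.I * Complex.I = -1 := Complex.I_mul_I
  match_scalars <;> ring_nf <;> simp [Complex.I_sq]

theorem kop_D01 {q : ℕ} {η : E → E [⋀^Fin (q + 1)]→L[ℝ] V} {U : Set E} (hU : IsOpen U)
    (hη : ContDiffOn ℝ 1 η U) (ha : ∀ w ∈ U, Anti (η w)) {r : ℝ} {ξ : E} (hξ : (r : ℂ) • ξ ∈ U)
    (u : Fin q → E) (x : E) :
    D01 (fun x : E => η ((r : ℂ) • x) (Matrix.vecCons x u)) ξ x =
      η ((r : ℂ) • ξ) (Matrix.vecCons x u) +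
      (r : ℂ) • d1 η ((r : ℂ) • ξ) x (Matrix.vecCons ξ u) := by
  rw [D01_apply, kop_G_fderiv hU hη hξ, kop_G_fderiv hU hη hξ, kop_anti (ha _ hξ), d1_apply]
  simp only [smul_add, smul_neg, smul_smul]
  match_scalars <;> ring_nf
  simp [Complex.I_sq]
  norm_num

theorem kop_G_c1 {q : ℕ} {η : E → E [⋀^Fin (q + 1)]→L[ℝ] V} {U : Set E}
    (hη : ContDiffOn ℝ 1 η U) (r : ℝ) (u : Fin q → E) :
    ContDiffOn ℝ 1 (fun x : E => η ((r : ℂ) • x) (Matrix.vecCons x u)) (kopS E r ⁻¹' U) := by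
  have h1 : ContDiffOn ℝ 1 (fun x : E => η ((r : ℂ) • x)) (kopS E r ⁻¹' U) :=
    hη.comp (kopS E r).contDiff.contDiffOn (fun x hx => hx)
  have h0 : ContDiff ℝ 1 (kopC E V q) :=
    ContinuousLinearMap.contDiff (𝕜 := ℝ) (E := E [⋀^Fin (q + 1)]→L[ℝ] V)
      (F := E →L[ℝ] E [⋀^Fin q]→L[ℝ] V) (kopC E V q)
  have h2 : ContDiffOn ℝ 1 (fun x : E => kopC E V q (η ((r : ℂ) • x)) x) (kopS E r ⁻¹' U) :=
    ContDiffOn.clm_apply (f := fun x : E => kopC E V q (η ((r : ℂ) • x))) (g := fun x : E => x)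
      (h0.comp_contDiffOn h1) contDiffOn_id
  exact (ContinuousAlternatingMap.apply ℝ E V u).contDiff.comp_contDiffOn h2

/-- closed forms -/
theorem kop_closed {q : ℕ} {η : E → E [⋀^Fin (q + 1)]→L[ℝ] V} {w : E} (h : db η w = 0) (ξ : E)
    (v : Fin (q + 1) → E) :
    ∑ i : Fin (q + 1), (-1) ^ (i : ℕ) • d1 η w (v i) (Matrix.vecCons ξ (i.removeNth v)) =
      d1 η w ξ v := by
  have h1 : db η w (Matrix.vecCons ξ v) = 0 := by rw [h]; rfl
  rw [db, ContinuousAlternatingMap.alternatizeUncurryFin_apply, Fin.sum_univ_succ] at h1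
  have h2 : ∀ i : Fin (q + 1), (i.succ.removeNth (Matrix.vecCons ξ v) : Fin (q + 1) → E) =
      Matrix.vecCons ξ (i.removeNth v) := by
    intro i
    funext j
    refine Fin.cases ?_ (fun j => ?_) j
    · simp [Fin.removeNth]
    · simp [Fin.removeNth]
  have h3 : ((0 : Fin (q + 2)).removeNth (Matrix.vecCons ξ v) : Fin (q + 1) → E) = v := by
    funext j
    simp [Fin.removeNth]
  simp only [h2, h3, Fin.val_zero, pow_zero, one_smul, Matrix.cons_val_zero, Fin.val_succ,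
    Matrix.cons_val_succ, pow_succ, mul_neg, mul_one, neg_smul, Finset.sum_neg_distrib] at h1
  exact (add_neg_eq_zero.1 h1).symm

theorem kop_insert {q : ℕ} (P : E [⋀^Fin (q + 1)]→L[ℝ] V) (v : Fin (q + 1) → E) (i : Fin (q + 1)) :
    (-1) ^ (i : ℕ) • P (Matrix.vecCons (v i) (i.removeNth v)) = P v := by
  rw [← ContinuousAlternatingMap.map_insertNth, Fin.insertNth_self_removeNth]

/-! ### continuity -/

section cont

variable {X : Type*} [TopologicalSpace X]

theorem kop_cont_comp {U : Set E} (hB : closedBall (0 : E) 1 ⊆ U) {f : E → X}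
    (hf : ContinuousOn f U) :
    ContinuousOn (fun p : ℝ × E => f ((p.1 : ℂ) • p.2)) (Icc (0 : ℝ) 1 ×ˢ closedBall (0 : E) 1) := by
  refine hf.comp ?_ ?_
  · exact Continuous.continuousOn (by fun_prop)
  · rintro p ⟨h1, h2⟩
    exact hB (kop_smul_mem h1 h2)

end cont

theorem kop_d1_cont {q : ℕ} {η : E → E [⋀^Fin q]→L[ℝ] V} {U : Set E} (hU : IsOpen U)
    (hη : ContDiffOn ℝ 1 η U) : ContinuousOn (d1 η) U := by
  have h1 : ContinuousOn (fderiv ℝ η) U := hη.continuousOn_fderiv_of_isOpen hU le_rfl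
  unfold d1
  exact (h1.add ((h1.clm_comp continuousOn_const).const_smul Complex.I)).const_smul (2⁻¹ : ℂ)

theorem kop_D01_eval {q : ℕ} {η : E → E [⋀^Fin q]→L[ℝ] V} {w : E} (h : DifferentiableAt ℝ η w)
    (v : Fin q → E) (x : E) : D01 (fun w => η w v) w x = d1 η w x v := by
  have h1 : HasFDerivAt (fun w => η w v)
      ((ContinuousAlternatingMap.apply ℝ E V v).comp (fderiv ℝ η w)) w :=
    HasFDerivAt.comp (g := ContinuousAlternatingMap.apply ℝ E V v) w
      (ContinuousAlternatingMap.apply ℝ E V v).hasFDerivAt h.hasFDerivAt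
  rw [D01_apply, d1_apply, h1.fderiv]
  rfl

theorem kop_eval_c1 {q : ℕ} {η : E → E [⋀^Fin q]→L[ℝ] V} {U : Set E}
    (hη : ContDiffOn ℝ 1 η U) (v : Fin q → E) : ContDiffOn ℝ 1 (fun w => η w v) U :=
  (ContinuousAlternatingMap.apply ℝ E V v).contDiff.comp_contDiffOn hη

variable [FiniteDimensional ℂ E] [MeasurableSpace E] [BorelSpace E]

omit [NormedSpace ℂ V] in
theorem kop_int (μ : Measure E) [μ.IsAddHaarMeasure] {f : E → V}
    (hf : ContinuousOn f (closedBall (0 : E) 1)) : IntegrableOn f (ball (0 : E) 1) μ := by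
  have hprop : ProperSpace E := FiniteDimensional.proper ℂ E
  exact (hf.integrableOn_compact (isCompact_closedBall 0 1)).mono_set ball_subset_closedBall

theorem kop_int2 (μ : Measure E) [μ.IsAddHaarMeasure] {X : Type*} [NormedAddCommGroup X]
    {f : ℝ × E → X} (hf : ContinuousOn f (Icc (0 : ℝ) 1 ×ˢ closedBall (0 : E) 1)) :
    IntegrableOn f (Icc (0 : ℝ) 1 ×ˢ ball (0 : E) 1) (volume.prod μ) := by
  have hprop : ProperSpace E := FiniteDimensional.proper ℂ E
  exact (hf.integrableOn_compact (isCompact_Icc.prod (isCompact_closedBall 0 1))).mono_set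
    (prod_mono Subset.rfl ball_subset_closedBall)

end Pool.Agent.MPca0fc2.QT
end
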