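import Mathlib
import Pool.Agent.Lib.MP_ca0fc2_an.Mg.G049
import Pool.Agent.Lib.MP_ca0fc2_an.Pompeiu

section

set_option autoImplicit false

open Metric Set Filter Topology

namespace Pool.Agent.Lib.MP_ca0fc2_an

variable {E : Type*} [NormedAddCommGroup E] [NormedSpace ℂ E] {I : Type*}

namespace Char

variable (Φ : Char I E) {F G : I → E → ℂ}

theorem map_smul (c : ℂ) (hF : BH F) : Φ.φ (fun i z => c * F i z) = c * Φ.φ F := by
  rw [Φ.map_mul (BH.const c) hF, Φ.map_const]

theorem map_neg (hF : BH F) : Φ.φ (fun i z => - F i z) = - Φ.φ F := by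
  have := Φ.map_smul (-1) hF
  simpa only [neg_mul, one_mul] using this

theorem map_sub (hF : BH F) (hG : BH G) : Φ.φ (fun i z => F i z - G i z) = Φ.φ F - Φ.φ G := by
  have := Φ.map_add hF hG.neg
  rw [Φ.map_neg hG] at this
  simpa only [sub_eq_add_neg] using this

theorem congr (hF : BH F) (h : ∀ i, ∀ z ∈ ball (0 : E) 1, G i z = F i z) : Φ.φ G = Φ.φ F := by
  have hG := hF.congr h
  have h1 := Φ.map_sub hG hF
  have h2 := Φ.bound (hG.sub hF) (C := 0) le_rfl (fun i z hz => by rw [h i z hz]; simp)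
  rw [h1] at h2
  have := norm_le_zero_iff.mp h2
  exact sub_eq_zero.mp this

theorem map_pow (hF : BH F) (n : ℕ) : Φ.φ (fun i z => F i z ^ n) = Φ.φ F ^ n := by
  induction n with
  | zero => simpa using Φ.map_const 1
  | succ n ih =>
    rw [pow_succ, ← ih, ← Φ.map_mul (hF.pow n) hF]
    simp only [pow_succ]

theorem map_sum {κ : Type*} {s : Finset κ} {F : κ → I → E → ℂ} (hF : ∀ k ∈ s, BH (F k)) :
    Φ.φ (fun i z => ∑ k ∈ s, F k i z) = ∑ k ∈ s, Φ.φ (F k) := by
  classical
  induction s using Finset.induction_on with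
  | empty => simpa using Φ.map_const 0
  | insert a s has ih =>
    have h1 := Φ.map_add (hF a (Finset.mem_insert_self _ _))
      (BH.sum fun k hk => hF k (Finset.mem_insert_of_mem hk))
    rw [ih fun k hk => hF k (Finset.mem_insert_of_mem hk)] at h1
    simpa only [Finset.sum_insert has] using h1

/-- indicator family -/
noncomputable def ind (J : Set I) : I → E → ℂ := fun i _ => J.indicator (fun _ => (1 : ℂ)) i

theorem BH_ind (J : Set I) : BH (ind J : I → E → ℂ) := by
  classical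
  apply BH.constI
  refine ⟨1, fun i => ?_⟩
  by_cases h : i ∈ J <;> simp [h]

omit [NormedAddCommGroup E] [NormedSpace ℂ E] in
theorem ind_mem {J : Set I} {i : I} (h : i ∈ J) (z : E) : ind J i z = 1 := by
  simp [ind, h]

omit [NormedAddCommGroup E] [NormedSpace ℂ E] in
theorem ind_not_mem {J : Set I} {i : I} (h : i ∉ J) (z : E) : ind J i z = 0 := by
  simp [ind, h]

theorem ind_zero_or_one (J : Set I) : Φ.φ (ind J) = 0 ∨ Φ.φ (ind J) = 1 := by
  have h1 := Φ.map_mul (BH_ind J) (BH_ind J)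
  have h2 : Φ.φ (fun i (z : E) => ind J i z * ind J i z) = Φ.φ (ind J) := by
    apply Φ.congr (BH_ind J)
    intro i z _
    by_cases h : i ∈ J
    · simp [ind_mem h]
    · simp [ind_not_mem h]
  rw [h2] at h1
  have h3 : Φ.φ (ind J) * (Φ.φ (ind J) - 1) = 0 := by linear_combination -h1
  rcases mul_eq_zero.mp h3 with h | h
  · exact Or.inl h
  · exact Or.inr (sub_eq_zero.mp h)

theorem ind_compl (J : Set I) : Φ.φ (ind Jᶜ) = 1 - Φ.φ (ind J) := by
  rw [← Φ.map_const 1, ← Φ.map_sub (BH.const 1) (BH_ind J)]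
  apply Φ.congr ((BH.const 1).sub (BH_ind J))
  intro i z _
  by_cases h : i ∈ J
  · simp [ind, h]
  · simp [ind, h]

theorem ind_inter {J K : Set I} : Φ.φ (ind (J ∩ K)) = Φ.φ (ind J) * Φ.φ (ind K) := by
  rw [← Φ.map_mul (BH_ind J) (BH_ind K)]
  apply Φ.congr ((BH_ind J).mul (BH_ind K))
  intro i z _
  by_cases h : i ∈ J <;> by_cases h' : i ∈ K <;> simp [ind, h, h']

/-- the ultrafilter on the index set -/
def filt : Filter I where
  sets := {J | Φ.φ (ind J) = 1}
  univ_sets := by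
    change Φ.φ (ind univ) = 1
    rw [← Φ.map_const 1]
    apply Φ.congr (BH.const 1)
    intro i z _
    simp [ind]
  sets_of_superset := by
    intro J K hJ hJK
    change Φ.φ (ind K) = 1
    have h1 : Φ.φ (ind (J ∩ K)) = 1 := by rw [inter_eq_left.mpr hJK]; exact hJ
    rw [Φ.ind_inter] at h1
    rcases Φ.ind_zero_or_one K with h | h
    · rw [h, mul_zero] at h1; exact absurd h1 zero_ne_one
    · exact h
  inter_sets := by
    intro J K hJ hK
    change Φ.φ (ind (J ∩ K)) = 1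
    rw [Φ.ind_inter, show Φ.φ (ind J) = 1 from hJ, show Φ.φ (ind K) = 1 from hK, one_mul]

theorem mem_filt {J : Set I} : J ∈ Φ.filt ↔ Φ.φ (ind J) = 1 := Iff.rfl

theorem compl_mem_filt {J : Set I} : Jᶜ ∈ Φ.filt ↔ J ∉ Φ.filt := by
  rw [mem_filt, mem_filt, Φ.ind_compl]
  rcases Φ.ind_zero_or_one J with h | h
  · simp [h]
  · simp [h]

instance : NeBot Φ.filt := by
  rw [neBot_iff]
  intro h
  have h1 : (∅ : Set I) ∈ Φ.filt := by rw [h]; trivial
  rw [mem_filt] at h1
  have h2 : Φ.φ (ind (∅ : Set I)) = 0 := by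
    rw [← Φ.map_const 0]
    apply Φ.congr (BH.const 0)
    intro i z _
    simp [ind]
  rw [h2] at h1
  exact zero_ne_one h1

/-- the ultrafilter on the index set -/
noncomputable def ultra : Ultrafilter I := Ultrafilter.ofComplNotMemIff Φ.filt fun s => by
  have h := Φ.compl_mem_filt (J := s)
  tauto

theorem coe_ultra : (Φ.ultra : Filter I) = Φ.filt := rfl

theorem not_eventually {p : I → Prop} (h : ¬ ∀ᶠ i in Φ.filt, p i) : ∀ᶠ i in Φ.filt, ¬ p i := by
  have := (Φ.compl_mem_filt (J := {i | p i})).mpr h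
  exact this

/-- values of a character only depend on the family near the ultrafilter -/
theorem congr_ev (hF : BH F) (hG : BH G)
    (h : ∀ᶠ i in Φ.filt, ∀ z ∈ ball (0 : E) 1, G i z = F i z) : Φ.φ G = Φ.φ F := by
  set J : Set I := {i | ∀ z ∈ ball (0 : E) 1, G i z = F i z} with hJ
  have hJ1 : Φ.φ (ind J) = 1 := h
  have h1 : Φ.φ (fun i z => G i z * ind J i z) = Φ.φ (fun i z => F i z * ind J i z) := by
    apply Φ.congr (hF.mul (BH_ind J))
    intro i z hz
    by_cases hi : i ∈ J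
    · rw [hi z hz]
    · simp [ind_not_mem hi]
  rwa [Φ.map_mul hG (BH_ind J), Φ.map_mul hF (BH_ind J), hJ1, mul_one, mul_one] at h1

/-- localization of the bound to the ultrafilter and to a peak set -/
theorem bound_loc (hF : BH F) {P : I → E → ℂ} (hP : BH P) (hP1 : Φ.φ P = 1)
    (hPb : ∀ i, ∀ z ∈ ball (0 : E) 1, ‖P i z‖ ≤ 1) {η : ℝ} (hη : 0 < η) {C : ℝ} (hC : 0 ≤ C)
    (h : ∀ᶠ i in Φ.filt, ∀ z ∈ ball (0 : E) 1, 1 - η < ‖P i z‖ → ‖F i z‖ ≤ C) :
    ‖Φ.φ F‖ ≤ C := by
  classical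
  set J : Set I := {i | ∀ z ∈ ball (0 : E) 1, 1 - η < ‖P i z‖ → ‖F i z‖ ≤ C} with hJ
  have hJ1 : Φ.φ (ind J) = 1 := h
  obtain ⟨D, hD0, hD⟩ := hF.bdd'
  set q : ℝ := max (1 - η) 0 with hq
  have hq0 : 0 ≤ q := le_max_right _ _
  have hq1 : q < 1 := max_lt (by linarith) one_pos
  have key : ∀ m : ℕ, ‖Φ.φ F‖ ≤ max C (D * q ^ m) := by
    intro m
    have hBH : BH fun i z => F i z * P i z ^ m * ind J i z := (hF.mul (hP.pow m)).mul (BH_ind J)
    have h1 : Φ.φ (fun i z => F i z * P i z ^ m * ind J i z) = Φ.φ F := by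
      rw [Φ.map_mul (hF.mul (hP.pow m)) (BH_ind J), Φ.map_mul hF (hP.pow m), Φ.map_pow hP, hP1,
        hJ1, one_pow, mul_one, mul_one]
    rw [← h1]
    apply Φ.bound hBH (le_max_of_le_left hC)
    intro i z hz
    by_cases hi : i ∈ J
    · rw [ind_mem hi, mul_one, norm_mul, norm_pow]
      by_cases hp : 1 - η < ‖P i z‖
      · refine le_max_of_le_left ?_
        have h2 := hi z hz hp
        have h3 : ‖P i z‖ ^ m ≤ 1 := pow_le_one₀ (norm_nonneg _) (hPb i z hz)
        calc ‖F i z‖ * ‖P i z‖ ^ m ≤ C * 1 := mul_le_mul h2 h3 (by positivity) hC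
          _ = C := mul_one C
      · refine le_max_of_le_right ?_
        push Not at hp
        exact mul_le_mul (hD i z hz) (pow_le_pow_left₀ (norm_nonneg _)
          (hp.trans (le_max_left _ _)) m) (by positivity) hD0.le
    · rw [ind_not_mem hi, mul_zero, norm_zero]
      exact le_max_of_le_left hC
  have hlim : Tendsto (fun m : ℕ => max C (D * q ^ m)) atTop (𝓝 (max C (D * 0))) := by
    apply Tendsto.max tendsto_const_nhds
    exact (tendsto_pow_atTop_nhds_zero_of_lt_one hq0 hq1).const_mul D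
  have := ge_of_tendsto' hlim key
  rwa [mul_zero, max_eq_left hC] at this

theorem bound_ev (hF : BH F) {C : ℝ} (hC : 0 ≤ C)
    (h : ∀ᶠ i in Φ.filt, ∀ z ∈ ball (0 : E) 1, ‖F i z‖ ≤ C) : ‖Φ.φ F‖ ≤ C := by
  apply Φ.bound_loc hF (BH.const 1) (Φ.map_const 1) (by simp) one_pos hC
  filter_upwards [h] with i hi z hz _
  exact hi z hz

/-- A bounded scalar family converges along the ultrafilter to its value. -/
theorem tendsto_constI {c : I → ℂ} (hc : ∃ C : ℝ, ∀ i, ‖c i‖ ≤ C) :
    Tendsto c Φ.filt (𝓝 (Φ.φ fun i _ => c i)) := by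
  obtain ⟨C, hC⟩ := hc
  have hcomp : IsCompact (closedBall (0 : ℂ) C) := isCompact_closedBall 0 C
  have hle : ((Φ.ultra.map c : Ultrafilter ℂ) : Filter ℂ) ≤ 𝓟 (closedBall (0 : ℂ) C) := by
    rw [le_principal_iff]
    change c ⁻¹' closedBall 0 C ∈ (Φ.ultra : Filter I)
    apply univ_mem'
    intro i
    simpa using hC i
  obtain ⟨w, -, hw⟩ := hcomp.ultrafilter_le_nhds _ hle
  have hw' : Tendsto c Φ.filt (𝓝 w) := hw
  have heq : (Φ.φ fun i _ => c i) = w := by
    have hBH : BH fun i (_ : E) => c i := BH.constI ⟨C, hC⟩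
    have h1 : ∀ ε : ℝ, 0 < ε → ‖(Φ.φ fun i _ => c i) - w‖ ≤ ε := by
      intro ε hε
      have h2 := Φ.map_sub hBH (BH.const w)
      rw [Φ.map_const] at h2
      rw [← h2]
      apply Φ.bound_ev (hBH.sub (BH.const w)) hε.le
      filter_upwards [hw'.eventually (closedBall_mem_nhds w hε)] with i hi z _
      rwa [dist_eq_norm] at hi
    have h2 : ‖(Φ.φ fun i _ => c i) - w‖ ≤ 0 := le_of_forall_pos_le_add fun ε hε => by
      simpa using h1 ε hε
    exact sub_eq_zero.mp (norm_le_zero_iff.mp h2)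
  rw [heq]
  exact hw'

end Char

end Pool.Agent.Lib.MP_ca0fc2_an
end

section

set_option autoImplicit false

open Metric Set Filter Topology
open scoped InnerProductSpace ComplexConjugate

namespace Pool.Agent.Lib.MP_ca0fc2_an

variable {E : Type*} [NormedAddCommGroup E] [InnerProductSpace ℂ E] {I : Type*}

theorem BH.inner (e : E) : BH fun (_ : I) (z : E) => ⟪e, z⟫_ℂ := BH.clm (innerSL ℂ e)

end Pool.Agent.Lib.MP_ca0fc2_an
end
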