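import Mathlib
import Pool.Agent.Lib.MP_ca0fc2_an.Mg.G049
import Pool.Agent.Lib.MP_ca0fc2_an.Mg.G129

section

set_option autoImplicit false

open Metric Set Filter Topology MeasureTheory
open scoped InnerProductSpace ComplexConjugate

namespace Pool.Agent.Lib.MP_ca0fc2_an

/-- A family of holomorphic automorphisms of the ball. -/
structure AutF (I : Type*) (E : Type*) [NormedAddCommGroup E] [InnerProductSpace ℂ E] where
  fwd : I → E → E
  bwd : I → E → E
  dfwd : ∀ i, DifferentiableOn ℂ (fwd i) (ball 0 1)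
  dbwd : ∀ i, DifferentiableOn ℂ (bwd i) (ball 0 1)
  mfwd : ∀ i, ∀ z ∈ ball (0 : E) 1, fwd i z ∈ ball (0 : E) 1
  mbwd : ∀ i, ∀ z ∈ ball (0 : E) 1, bwd i z ∈ ball (0 : E) 1
  left : ∀ i, ∀ z ∈ ball (0 : E) 1, bwd i (fwd i z) = z
  right : ∀ i, ∀ z ∈ ball (0 : E) 1, fwd i (bwd i z) = z

variable {E : Type*} [NormedAddCommGroup E] [InnerProductSpace ℂ E] {I J : Type*}

namespace AutF

end AutF

/-- The point over which a character lies. -/
theorem Char.exists_point [FiniteDimensional ℂ E] (Φ : Char I E) :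
    ∃ p : E, ‖p‖ ≤ 1 ∧ ∀ w : E, Φ.φ (fun _ z => ⟪w, z⟫_ℂ) = ⟪w, p⟫_ℂ := by
  set b := stdOrthonormalBasis ℂ E with hb
  set p : E := ∑ k, Φ.φ (fun _ z => ⟪b k, z⟫_ℂ) • b k with hp
  have h1 : ∀ w : E, Φ.φ (fun _ z => ⟪w, z⟫_ℂ) = ⟪w, p⟫_ℂ := by
    intro w
    have h2 : ∀ z : E, ⟪w, z⟫_ℂ = ∑ k, ⟪w, b k⟫_ℂ * ⟪b k, z⟫_ℂ := by
      intro z
      exact (b.sum_inner_mul_inner w z).symm
    have h3 : Φ.φ (fun (_ : I) z => ⟪w, z⟫_ℂ) = Φ.φ fun (_ : I) z => ∑ k, ⟪w, b k⟫_ℂ * ⟪b k, z⟫_ℂ := by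
      congr 1
      ext i z
      exact h2 z
    rw [h3, Φ.map_sum fun k _ => (BH.const _).mul (BH.inner (b k)), hp, inner_sum]
    apply Finset.sum_congr rfl
    intro k _
    rw [Φ.map_smul _ (BH.inner (b k)), inner_smul_right, mul_comm]
  refine ⟨p, ?_, h1⟩
  have h2 : ‖⟪p, p⟫_ℂ‖ ≤ ‖p‖ := by
    rw [← h1]
    apply Φ.bound (BH.inner p) (norm_nonneg p)
    intro i z hz
    rw [mem_ball_zero_iff] at hz
    refine (norm_inner_le_norm p z).trans ?_
    nlinarith [norm_nonneg p]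
  rw [inner_self_eq_norm_sq_to_K] at h2
  have h3 : ‖((‖p‖ : ℂ)) ^ 2‖ = ‖p‖ ^ 2 := by
    rw [norm_pow, Complex.norm_real, norm_norm]
  have h4 : ‖p‖ ^ 2 ≤ ‖p‖ := by
    rw [← h3]; exact h2
  by_contra hcon
  push Not at hcon
  nlinarith

end Pool.Agent.Lib.MP_ca0fc2_an
end

section

set_option autoImplicit false

open Metric Set Filter Topology MeasureTheory
open scoped InnerProductSpace ComplexConjugate

namespace Pool.Agent.Lib.MP_ca0fc2_an

variable {E : Type*} [NormedAddCommGroup E] [InnerProductSpace ℂ E] {I J : Type*}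

theorem exists_unit {z : E} (hz : z ≠ 0) : ∃ e : E, ‖e‖ = 1 ∧ z = (‖z‖ : ℂ) • e := by
  have hpn : 0 < ‖z‖ := norm_pos_iff.mpr hz
  refine ⟨((‖z‖ : ℂ))⁻¹ • z, ?_, ?_⟩
  · rw [norm_smul, norm_inv, Complex.norm_real, Real.norm_of_nonneg hpn.le]
    field_simp
  · rw [smul_smul, mul_inv_cancel₀ (by exact_mod_cast hpn.ne'), one_smul]

theorem smul_mem_ball' {e : E} (he : ‖e‖ = 1) {t : ℂ} (ht : t ∈ ball (0 : ℂ) 1) :
    t • e ∈ ball (0 : E) 1 := by
  rw [mem_ball_zero_iff] at *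
  rwa [norm_smul, he, mul_one]

/-- Schwarz lemma for self-maps of the ball. -/
theorem schwarz_ball {V : E → E} (hV : DifferentiableOn ℂ V (ball 0 1))
    (hm : ∀ z ∈ ball (0 : E) 1, V z ∈ ball (0 : E) 1) (h0 : V 0 = 0) {z : E}
    (hz : z ∈ ball (0 : E) 1) : ‖V z‖ ≤ ‖z‖ := by
  by_cases hz0 : z = 0
  · rw [hz0, h0]
  obtain ⟨e, he, hze⟩ := exists_unit hz0
  have hpn : 0 < ‖z‖ := norm_pos_iff.mpr hz0
  have hd : DifferentiableOn ℂ (fun t : ℂ => V (t • e)) (ball 0 1) :=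
    hV.comp (differentiable_id.smul_const e).differentiableOn fun t ht => smul_mem_ball' he ht
  have hmaps : MapsTo (fun t : ℂ => V (t • e)) (ball 0 1)
      (closedBall ((fun t : ℂ => V (t • e)) 0) 1) := by
    intro t ht
    simp only [zero_smul, h0]
    exact ball_subset_closedBall (hm _ (smul_mem_ball' he ht))
  have hzb : ((‖z‖ : ℂ)) ∈ ball (0 : ℂ) 1 := by
    rw [mem_ball_zero_iff] at *
    rwa [Complex.norm_real, Real.norm_of_nonneg hpn.le]
  have h := Complex.norm_dslope_le_div_of_mapsTo_ball hd hmaps hzb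
  rw [dslope_of_ne _ (by exact_mod_cast hpn.ne'), slope, vsub_eq_sub, zero_smul, h0, sub_zero,
    sub_zero, ← hze, norm_smul, norm_inv, Complex.norm_real, Real.norm_of_nonneg hpn.le,
    div_one, inv_mul_le_iff₀ hpn, mul_one] at h
  exact h

theorem uniformConvex (E : Type*) [NormedAddCommGroup E] [InnerProductSpace ℂ E] :
    UniformConvexSpace E :=
  @InnerProductSpace.toUniformConvexSpace E _ InnerProductSpace.complexToReal

/-- Cartan's theorem for the ball: an automorphism that fixes the origin is isometric. -/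
theorem aut_isometry {V W : E → E} (hV : DifferentiableOn ℂ V (ball 0 1))
    (hW : DifferentiableOn ℂ W (ball 0 1))
    (hmV : ∀ z ∈ ball (0 : E) 1, V z ∈ ball (0 : E) 1)
    (hmW : ∀ z ∈ ball (0 : E) 1, W z ∈ ball (0 : E) 1)
    (hWV : ∀ z ∈ ball (0 : E) 1, W (V z) = z) (h0 : V 0 = 0) {z w : E}
    (hz : z ∈ ball (0 : E) 1) (hw : w ∈ ball (0 : E) 1) : ‖V z - V w‖ = ‖z - w‖ := by
  have huc : UniformConvexSpace E := uniformConvex E
  have h0mem : (0 : E) ∈ ball (0 : E) 1 := mem_ball_self one_pos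
  have hW0 : W 0 = 0 := by
    have := hWV 0 h0mem
    rwa [h0] at this
  have hnorm : ∀ z ∈ ball (0 : E) 1, ‖V z‖ = ‖z‖ := by
    intro z hz
    apply le_antisymm (schwarz_ball hV hmV h0 hz)
    calc ‖z‖ = ‖W (V z)‖ := by rw [hWV z hz]
      _ ≤ ‖V z‖ := schwarz_ball hW hmW hW0 (hmV z hz)
  have hlin : ∀ z ∈ ball (0 : E) 1, V z = fderiv ℂ V 0 z := by
    intro z hz
    by_cases hz0 : z = 0
    · rw [hz0, h0, map_zero]
    obtain ⟨e, he, hze⟩ := exists_unit hz0
    have hpn : 0 < ‖z‖ := norm_pos_iff.mpr hz0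
    have hd : DifferentiableOn ℂ (fun t : ℂ => V (t • e)) (ball 0 1) :=
      hV.comp (differentiable_id.smul_const e).differentiableOn fun t ht => smul_mem_ball' he ht
    have hmaps : MapsTo (fun t : ℂ => V (t • e)) (ball 0 1)
        (closedBall ((fun t : ℂ => V (t • e)) 0) 1) := by
      intro t ht
      simp only [zero_smul, h0]
      exact ball_subset_closedBall (hmV _ (smul_mem_ball' he ht))
    have hzb : ((‖z‖ : ℂ)) ∈ ball (0 : ℂ) 1 := by
      rw [mem_ball_zero_iff] at *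
      rwa [Complex.norm_real, Real.norm_of_nonneg hpn.le]
    have hone : ‖dslope (fun t : ℂ => V (t • e)) 0 (‖z‖ : ℂ)‖ = 1 / 1 := by
      rw [dslope_of_ne _ (by exact_mod_cast hpn.ne'), slope, vsub_eq_sub, zero_smul, h0, sub_zero,
        sub_zero, ← hze, norm_smul, norm_inv, Complex.norm_real, Real.norm_of_nonneg hpn.le,
        hnorm z hz]
      field_simp
    have haff := Complex.affine_of_mapsTo_ball_of_norm_dslope_eq_div hd hmaps hzb hone
    set c : E := dslope (fun t : ℂ => V (t • e)) 0 (‖z‖ : ℂ) with hc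
    have haff' : ∀ t ∈ ball (0 : ℂ) 1, V (t • e) = t • c := by
      intro t ht
      have := haff ht
      simpa [h0] using this
    have h1 : HasDerivAt (fun t : ℂ => V (t • e)) (fderiv ℂ V 0 e) 0 := by
      have h2 : HasFDerivAt V (fderiv ℂ V 0) ((0 : ℂ) • e) := by
        rw [zero_smul]
        exact (hV.differentiableAt (isOpen_ball.mem_nhds h0mem)).hasFDerivAt
      have h3 : HasDerivAt (fun t : ℂ => t • e) e 0 := by
        simpa using (hasDerivAt_id (0 : ℂ)).smul_const e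
      exact h2.comp_hasDerivAt (0 : ℂ) h3
    have h2 : HasDerivAt (fun t : ℂ => V (t • e)) c 0 := by
      have h3 : HasDerivAt (fun t : ℂ => t • c) c 0 := by
        simpa using (hasDerivAt_id (0 : ℂ)).smul_const c
      apply h3.congr_of_eventuallyEq
      filter_upwards [isOpen_ball.mem_nhds (mem_ball_self (one_pos : (0 : ℝ) < 1))] with t ht
      exact haff' t ht
    have h3 : fderiv ℂ V 0 e = c := h1.unique h2
    calc V z = V ((‖z‖ : ℂ) • e) := by rw [← hze]
      _ = (‖z‖ : ℂ) • c := haff' _ hzb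
      _ = fderiv ℂ V 0 ((‖z‖ : ℂ) • e) := by rw [map_smul, h3]
      _ = fderiv ℂ V 0 z := by rw [← hze]
  have hiso : ∀ u : E, ‖fderiv ℂ V 0 u‖ = ‖u‖ := by
    intro u
    set s : ℝ := (2 * (‖u‖ + 1))⁻¹ with hs
    have hs0 : 0 < s := by positivity
    have hsu : (s : ℂ) • u ∈ ball (0 : E) 1 := by
      rw [mem_ball_zero_iff, norm_smul, Complex.norm_real, Real.norm_of_nonneg hs0.le, hs,
        inv_mul_lt_iff₀ (by positivity)]
      nlinarith [norm_nonneg u]
    have h1 := hnorm _ hsu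
    rw [hlin _ hsu, map_smul, norm_smul, norm_smul, Complex.norm_real,
      Real.norm_of_nonneg hs0.le] at h1
    exact mul_left_cancel₀ hs0.ne' h1
  rw [hlin z hz, hlin w hw, ← map_sub, hiso]

section Estimates

variable {e : E} {ζ : ℂ} {z w : E}

end Estimates

end Pool.Agent.Lib.MP_ca0fc2_an
end
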