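import Mathlib
import Pool.Agent.Lib.MP_ca0fc2_an.Mg.G008

section

open Complex MeasureTheory Metric Set
open scoped ComplexConjugate Real Interval

namespace Pool.Agent.MPca0fc2

noncomputable section

variable {R : ℝ}

lemma integrableOn_ball {E : Type*} [NormedAddCommGroup E] {F : ℂ → E} (hR : 1 < R)
    (hF : ContinuousOn F (ball (0:ℂ) R)) : IntegrableOn F (ball (0:ℂ) 1) :=
  ((hF.mono (closedBall_subset_ball hR)).integrableOn_compact
    (isCompact_closedBall 0 1)).mono_set ball_subset_closedBall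

lemma int_add {E : Type*} [NormedAddCommGroup E] [NormedSpace ℝ E] {F G : ℂ → E} (hR : 1 < R)
    (hF : ContinuousOn F (ball (0:ℂ) R)) (hG : ContinuousOn G (ball (0:ℂ) R)) :
    ∫ z in ball (0:ℂ) 1, (F z + G z) = (∫ z in ball (0:ℂ) 1, F z) + ∫ z in ball (0:ℂ) 1, G z :=
  integral_add (integrableOn_ball hR hF) (integrableOn_ball hR hG)

lemma continuous_circ {E : Type*} [TopologicalSpace E] {F : ℂ → E} (hR : 1 < R)
    (hF : ContinuousOn F (ball (0:ℂ) R)) : Continuous (fun θ => F (ee θ)) :=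
  hF.comp_continuous continuous_ee (fun θ => by simp [norm_ee, hR])

/-- Stokes formula for `∂` on the unit disc. -/
theorem stokes_d {Φ α β : ℂ → ℂ} (hR : 1 < R) (h : ∀ z ∈ ball (0:ℂ) R, HasWirt Φ (α z) (β z) z)
    (hα : ContinuousOn α (ball 0 R)) (hβ : ContinuousOn β (ball 0 R)) :
    ∫ z in ball (0:ℂ) 1, α z = (1/2) * ∫ θ in (-π)..π, Φ (ee θ) * (starRingEnd ℂ) (ee θ) := by
  have h1 := stokes_dbar (Φ := fun z => (starRingEnd ℂ) (Φ z))
    (α := fun z => (starRingEnd ℂ) (β z)) (β := fun z => (starRingEnd ℂ) (α z)) hR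
    (fun z hz => (h z hz).star) (Complex.continuous_conj.comp_continuousOn hβ)
    (Complex.continuous_conj.comp_continuousOn hα)
  have h2 := congrArg (starRingEnd ℂ) h1
  rw [← integral_conj] at h2
  simp only [Complex.conj_conj, map_mul] at h2
  rw [h2]
  congr 1
  · rw [map_div₀, map_one, Complex.conj_ofNat]
  · rw [← intervalIntegral.intervalIntegral_conj]
    simp

lemma hasWirt_conj_id (z : ℂ) : HasWirt (fun w => (starRingEnd ℂ) w) 0 1 z := by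
  have := (HasWirt.id z).star
  simpa using this

lemma hasWirt_weight (z : ℂ) :
    HasWirt (fun w => 1 - w * (starRingEnd ℂ) w) (-(starRingEnd ℂ) z) (-z) z := by
  refine ((HasWirt.const 1 z).sub ((HasWirt.id z).mul (hasWirt_conj_id z))).congr_wirt ?_ ?_ <;>
  simp

/-- `∫ (1-|z|²) ∂F = ∫ conj z F`. -/
theorem stokes_weight {F α β : ℂ → ℂ} (hR : 1 < R)
    (h : ∀ z ∈ ball (0:ℂ) R, HasWirt F (α z) (β z) z)
    (hα : ContinuousOn α (ball 0 R)) (hβ : ContinuousOn β (ball 0 R)) :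
    ∫ z in ball (0:ℂ) 1, (1 - z * (starRingEnd ℂ) z) * α z =
      ∫ z in ball (0:ℂ) 1, (starRingEnd ℂ) z * F z := by
  have hF : ContinuousOn F (ball 0 R) := fun z hz => (h z hz).continuousAt.continuousWithinAt
  have hc : ContinuousOn (fun z : ℂ => (starRingEnd ℂ) z) (ball 0 R) :=
    Complex.continuous_conj.continuousOn
  have hw : ContinuousOn (fun z : ℂ => 1 - z * (starRingEnd ℂ) z) (ball 0 R) :=
    continuousOn_const.sub (continuousOn_id.mul hc)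
  have h1 := stokes_d (Φ := fun z => (1 - z * (starRingEnd ℂ) z) * F z)
    (α := fun z => (-(starRingEnd ℂ) z) * F z + (1 - z * (starRingEnd ℂ) z) * α z)
    (β := fun z => (-z) * F z + (1 - z * (starRingEnd ℂ) z) * β z) hR
    (fun z hz => (hasWirt_weight z).mul (h z hz)) ((hc.neg.mul hF).add (hw.mul hα))
    (((continuousOn_id.neg).mul hF).add (hw.mul hβ))
  have h2 : ∫ θ in (-π)..π, (1 - ee θ * (starRingEnd ℂ) (ee θ)) * F (ee θ) *
      (starRingEnd ℂ) (ee θ) = 0 := by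
    simp [ee_mul_conj]
  rw [h2, mul_zero, int_add hR (F := fun z => -(starRingEnd ℂ) z * F z)
    (G := fun z => (1 - z * (starRingEnd ℂ) z) * α z) (hc.neg.mul hF) (hw.mul hα)] at h1
  have h3 : ∫ z in ball (0:ℂ) 1, (-(starRingEnd ℂ) z) * F z =
      - ∫ z in ball (0:ℂ) 1, (starRingEnd ℂ) z * F z := by
    rw [← integral_neg]; simp
  rw [h3] at h1
  linear_combination h1

lemma differentiableOn_deriv_ball {p : ℂ → ℂ} (hp : DifferentiableOn ℂ p (ball 0 R)) :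
    DifferentiableOn ℂ (deriv p) (ball 0 R) := hp.deriv isOpen_ball

lemma hasWirt_of_diff {p : ℂ → ℂ} (hp : DifferentiableOn ℂ p (ball 0 R)) {z : ℂ}
    (hz : z ∈ ball (0:ℂ) R) : HasWirt p (deriv p z) 0 z :=
  HasWirt.of_hasDerivAt (hp.differentiableAt (isOpen_ball.mem_nhds hz)).hasDerivAt

/-- Littlewood-Paley identity. -/
theorem lp_identity {p : ℂ → ℂ} (hR : 1 < R) (hp : DifferentiableOn ℂ p (ball 0 R)) :
    (∫ z in ball (0:ℂ) 1, (1 - ‖z‖^2) * ‖deriv p z‖^2) + ∫ z in ball (0:ℂ) 1, ‖p z‖^2 =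
      (1/2) * ∫ θ in (-π)..π, ‖p (ee θ)‖^2 := by
  have hp' := differentiableOn_deriv_ball hp
  have hp'' := differentiableOn_deriv_ball hp'
  have cp := hp.continuousOn
  have cp' := hp'.continuousOn
  have cp'' := hp''.continuousOn
  have hc : ContinuousOn (fun z : ℂ => (starRingEnd ℂ) z) (ball 0 R) :=
    Complex.continuous_conj.continuousOn
  have ccp := Complex.continuous_conj.comp_continuousOn cp
  have ccp' := Complex.continuous_conj.comp_continuousOn cp'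
  have ccp'' := Complex.continuous_conj.comp_continuousOn cp''
  -- first identity
  have e1 := stokes_weight (F := fun z => p z * (starRingEnd ℂ) (deriv p z))
    (α := fun z => deriv p z * (starRingEnd ℂ) (deriv p z))
    (β := fun z => p z * (starRingEnd ℂ) (deriv (deriv p) z)) hR
    (fun z hz => ((hasWirt_of_diff hp hz).mul (hasWirt_of_diff hp' hz).star).congr_wirt
      (by simp) (by simp)) (cp'.mul ccp') (cp.mul ccp'')
  -- second identity
  have e2 := stokes_dbar (Φ := fun z => (starRingEnd ℂ) z * (p z * (starRingEnd ℂ) (p z)))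
    (α := fun z => (starRingEnd ℂ) z * (deriv p z * (starRingEnd ℂ) (p z)))
    (β := fun z => p z * (starRingEnd ℂ) (p z) +
      (starRingEnd ℂ) z * (p z * (starRingEnd ℂ) (deriv p z))) hR
    (fun z hz => ((hasWirt_conj_id z).mul ((hasWirt_of_diff hp hz).mul
      (hasWirt_of_diff hp hz).star)).congr_wirt (by simp) (by simp))
      (hc.mul (cp'.mul ccp)) ((cp.mul ccp).add (hc.mul (cp.mul ccp')))
  rw [int_add hR (F := fun z => p z * (starRingEnd ℂ) (p z))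
    (G := fun z => (starRingEnd ℂ) z * (p z * (starRingEnd ℂ) (deriv p z)))
    (cp.mul ccp) (hc.mul (cp.mul ccp'))] at e2
  have e3 : ∀ θ : ℝ, (starRingEnd ℂ) (ee θ) * (p (ee θ) * (starRingEnd ℂ) (p (ee θ))) * ee θ =
      ((‖p (ee θ)‖^2 : ℝ) : ℂ) := by
    intro θ
    rw [mul_conj, normSq_eq_norm_sq]
    linear_combination ((‖p (ee θ)‖^2 : ℝ) : ℂ) * conj_mul_ee θ
  simp only [e3] at e2
  rw [← e1] at e2
  have e4 : ∀ z : ℂ, (1 - z * (starRingEnd ℂ) z) * (deriv p z * (starRingEnd ℂ) (deriv p z)) =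
      (((1 - ‖z‖^2) * ‖deriv p z‖^2 : ℝ) : ℂ) := by
    intro z
    rw [mul_conj, mul_conj, normSq_eq_norm_sq, normSq_eq_norm_sq]
    push_cast; ring
  have e5 : ∀ z : ℂ, p z * (starRingEnd ℂ) (p z) = ((‖p z‖^2 : ℝ) : ℂ) := by
    intro z
    rw [mul_conj, normSq_eq_norm_sq]
  simp only [e4, e5] at e2
  rw [integral_complex_ofReal, integral_complex_ofReal, intervalIntegral.integral_ofReal] at e2
  have e6 := congrArg Complex.re e2
  simp only [add_re, ofReal_re, mul_re, ofReal_im, mul_zero, sub_zero] at e6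
  norm_num at e6
  linarith

lemma weight_nonneg {z : ℂ} (hz : z ∈ ball (0:ℂ) 1) : 0 ≤ 1 - ‖z‖^2 := by
  simp at hz
  nlinarith [norm_nonneg z]

lemma lp_one {p : ℂ → ℂ} (hR : 1 < R) (hp : DifferentiableOn ℂ p (ball 0 R)) :
    (∫ z in ball (0:ℂ) 1, (1 - ‖z‖^2) * ‖p z‖^2) ≤ (1/2) * ∫ θ in (-π)..π, ‖p (ee θ)‖^2 := by
  have h := lp_identity hR hp
  have cp := hp.continuousOn
  have h1 : 0 ≤ ∫ z in ball (0:ℂ) 1, (1 - ‖z‖^2) * ‖deriv p z‖^2 := by
    apply setIntegral_nonneg measurableSet_ball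
    intro z hz
    have := weight_nonneg hz
    positivity
  have h2 : (∫ z in ball (0:ℂ) 1, (1 - ‖z‖^2) * ‖p z‖^2) ≤ ∫ z in ball (0:ℂ) 1, ‖p z‖^2 := by
    apply setIntegral_mono_on
    · apply integrableOn_ball hR
      exact (continuousOn_const.sub (continuousOn_id.norm.pow 2)).mul (cp.norm.pow 2)
    · exact integrableOn_ball hR (cp.norm.pow 2)
    · exact measurableSet_ball
    · intro z hz
      have h3 : (1 - ‖z‖^2) ≤ 1 := by nlinarith [norm_nonneg z]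
      have h4 : 0 ≤ ‖p z‖^2 := by positivity
      nlinarith
  linarith

lemma lp_two {p : ℂ → ℂ} (hR : 1 < R) (hp : DifferentiableOn ℂ p (ball 0 R)) :
    (∫ z in ball (0:ℂ) 1, (1 - ‖z‖^2) * ‖deriv p z‖^2) ≤
      (1/2) * ∫ θ in (-π)..π, ‖p (ee θ)‖^2 := by
  have h := lp_identity hR hp
  have h1 : 0 ≤ ∫ z in ball (0:ℂ) 1, ‖p z‖^2 := by positivity
  linarith

lemma lp_three {f p : ℂ → ℂ} (hR : 1 < R) (hf : DifferentiableOn ℂ f (ball 0 R))
    (hp : DifferentiableOn ℂ p (ball 0 R)) (hb : ∀ z ∈ closedBall (0:ℂ) 1, ‖f z‖ ≤ 1) :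
    (∫ z in ball (0:ℂ) 1, (1 - ‖z‖^2) * (‖deriv f z‖^2 * ‖p z‖^2)) ≤
      2 * ∫ θ in (-π)..π, ‖p (ee θ)‖^2 := by
  have hfp : DifferentiableOn ℂ (fun z => f z * p z) (ball 0 R) := hf.mul hp
  have cw : ContinuousOn (fun z : ℂ => 1 - ‖z‖^2) (ball 0 R) :=
    continuousOn_const.sub (continuousOn_id.norm.pow 2)
  have cf := hf.continuousOn
  have cp := hp.continuousOn
  have cf' := (differentiableOn_deriv_ball hf).continuousOn
  have cp' := (differentiableOn_deriv_ball hp).continuousOn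
  have cfp' := (differentiableOn_deriv_ball hfp).continuousOn
  have h1 := lp_two hR hfp
  have h2 := lp_two hR hp
  have h3 : (∫ z in ball (0:ℂ) 1, (1 - ‖z‖^2) * (‖deriv f z‖^2 * ‖p z‖^2)) ≤
      ∫ z in ball (0:ℂ) 1, (2 * ((1 - ‖z‖^2) * ‖deriv (fun z => f z * p z) z‖^2) +
        2 * ((1 - ‖z‖^2) * ‖deriv p z‖^2)) := by
    apply setIntegral_mono_on
    · exact integrableOn_ball hR (cw.mul ((cf'.norm.pow 2).mul (cp.norm.pow 2)))
    · apply integrableOn_ball hR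
      exact (continuousOn_const.mul (cw.mul (cfp'.norm.pow 2))).add
        (continuousOn_const.mul (cw.mul (cp'.norm.pow 2)))
    · exact measurableSet_ball
    · intro z hz
      have hz' : z ∈ ball (0:ℂ) R := ball_subset_ball hR.le hz
      have d1 := hf.differentiableAt (isOpen_ball.mem_nhds hz')
      have d2 := hp.differentiableAt (isOpen_ball.mem_nhds hz')
      have e : deriv (fun z => f z * p z) z = deriv f z * p z + f z * deriv p z :=
        deriv_fun_mul d1 d2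
      have w := weight_nonneg hz
      have b := hb z (ball_subset_closedBall hz)
      have k1 : ‖deriv f z‖ * ‖p z‖ ≤ ‖deriv (fun z => f z * p z) z‖ + ‖deriv p z‖ := by
        have : deriv f z * p z = deriv (fun z => f z * p z) z - f z * deriv p z := by
          rw [e]; ring
        rw [← norm_mul, this]
        refine (norm_sub_le _ _).trans ?_
        rw [norm_mul]
        have := norm_nonneg (deriv p z)
        nlinarith
      have k2 : ‖deriv f z‖^2 * ‖p z‖^2 ≤ 2 * ‖deriv (fun z => f z * p z) z‖^2 +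
          2 * ‖deriv p z‖^2 := by
        have := norm_nonneg (deriv f z)
        have := norm_nonneg (p z)
        have k3 : (‖deriv f z‖ * ‖p z‖)^2 ≤
            (‖deriv (fun z => f z * p z) z‖ + ‖deriv p z‖)^2 := by gcongr
        nlinarith [sq_nonneg (‖deriv (fun z => f z * p z) z‖ - ‖deriv p z‖)]
      nlinarith
  rw [int_add hR (F := fun z => 2 * ((1 - ‖z‖^2) * ‖deriv (fun z => f z * p z) z‖^2))
    (G := fun z => 2 * ((1 - ‖z‖^2) * ‖deriv p z‖^2))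
    (continuousOn_const.mul (cw.mul (cfp'.norm.pow 2)))
    (continuousOn_const.mul (cw.mul (cp'.norm.pow 2))),
    integral_const_mul, integral_const_mul] at h3
  have h4 : (∫ θ in (-π)..π, ‖f (ee θ) * p (ee θ)‖^2) ≤ ∫ θ in (-π)..π, ‖p (ee θ)‖^2 := by
    apply intervalIntegral.integral_mono_on (by linarith [Real.pi_pos])
    · exact ((continuous_circ hR (cf.mul cp)).norm.pow 2).intervalIntegrable _ _
    · exact ((continuous_circ hR cp).norm.pow 2).intervalIntegrable _ _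
    · intro θ _
      have b := hb (ee θ) (by simp [norm_ee])
      rw [norm_mul]
      have := norm_nonneg (f (ee θ))
      have := norm_nonneg (p (ee θ))
      gcongr
      nlinarith
  linarith

end

end Pool.Agent.MPca0fc2
end

section

open Complex MeasureTheory Metric Set
open scoped ComplexConjugate Real Interval

namespace Pool.Agent.MPca0fc2

noncomputable section

/-- `F` is continuously differentiable on the disc of radius `R` with Wirtinger derivatives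
`α` and `β`. -/
structure CW (R : ℝ) (F α β : ℂ → ℂ) : Prop where
  wirt : ∀ z ∈ ball (0:ℂ) R, HasWirt F (α z) (β z) z
  contα : ContinuousOn α (ball 0 R)
  contβ : ContinuousOn β (ball 0 R)

namespace CW
variable {R : ℝ} {F G α β α' β' : ℂ → ℂ}

lemma cont (h : CW R F α β) : ContinuousOn F (ball 0 R) :=
  fun z hz => (h.wirt z hz).continuousAt.continuousWithinAt

lemma congr (h : CW R F α β) (h1 : ∀ z ∈ ball (0:ℂ) R, α z = α' z)
    (h2 : ∀ z ∈ ball (0:ℂ) R, β z = β' z) : CW R F α' β' :=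
  ⟨fun z hz => (h.wirt z hz).congr_wirt (h1 z hz) (h2 z hz),
    h.contα.congr (fun z hz => (h1 z hz).symm), h.contβ.congr (fun z hz => (h2 z hz).symm)⟩

lemma hol (h : DifferentiableOn ℂ F (ball 0 R)) : CW R F (deriv F) (fun _ => 0) :=
  ⟨fun _ hz => hasWirt_of_diff h hz, (differentiableOn_deriv_ball h).continuousOn,
    continuousOn_const⟩

lemma id : CW R (fun z => z) (fun _ => 1) (fun _ => 0) :=
  ⟨fun z _ => HasWirt.id z, continuousOn_const, continuousOn_const⟩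

lemma star (h : CW R F α β) : CW R (fun z => (starRingEnd ℂ) (F z))
    (fun z => (starRingEnd ℂ) (β z)) (fun z => (starRingEnd ℂ) (α z)) :=
  ⟨fun z hz => (h.wirt z hz).star, Complex.continuous_conj.comp_continuousOn h.contβ,
    Complex.continuous_conj.comp_continuousOn h.contα⟩

lemma add (h : CW R F α β) (h' : CW R G α' β') : CW R (fun z => F z + G z)
    (fun z => α z + α' z) (fun z => β z + β' z) :=
  ⟨fun z hz => (h.wirt z hz).add (h'.wirt z hz), h.contα.add h'.contα, h.contβ.add h'.contβ⟩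

lemma sub (h : CW R F α β) (h' : CW R G α' β') : CW R (fun z => F z - G z)
    (fun z => α z - α' z) (fun z => β z - β' z) :=
  ⟨fun z hz => (h.wirt z hz).sub (h'.wirt z hz), h.contα.sub h'.contα, h.contβ.sub h'.contβ⟩

lemma mul (h : CW R F α β) (h' : CW R G α' β') : CW R (fun z => F z * G z)
    (fun z => α z * G z + F z * α' z) (fun z => β z * G z + F z * β' z) :=
  ⟨fun z hz => (h.wirt z hz).mul (h'.wirt z hz),
    (h.contα.mul h'.cont).add (h.cont.mul h'.contα),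
    (h.contβ.mul h'.cont).add (h.cont.mul h'.contβ)⟩

lemma sum {ι : Type*} (s : Finset ι) {F α β : ι → ℂ → ℂ}
    (h : ∀ i ∈ s, CW R (F i) (α i) (β i)) :
    CW R (fun z => ∑ i ∈ s, F i z) (fun z => ∑ i ∈ s, α i z) (fun z => ∑ i ∈ s, β i z) :=
  ⟨fun z hz => HasWirt.sum s (fun i hi => (h i hi).wirt z hz),
    continuousOn_finsetSum s (fun i hi => (h i hi).contα),
    continuousOn_finsetSum s (fun i hi => (h i hi).contβ)⟩

lemma inv (h : CW R F α β) (h0 : ∀ z ∈ ball (0:ℂ) R, F z ≠ 0) : CW R (fun z => (F z)⁻¹)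
    (fun z => -α z / F z ^ 2) (fun z => -β z / F z ^ 2) :=
  ⟨fun z hz => (h.wirt z hz).inv (h0 z hz),
    h.contα.neg.div (h.cont.pow 2) (fun z hz => pow_ne_zero 2 (h0 z hz)),
    h.contβ.neg.div (h.cont.pow 2) (fun z hz => pow_ne_zero 2 (h0 z hz))⟩

end CW

theorem CW.stokes_dbar {R : ℝ} {F α β : ℂ → ℂ} (hR : 1 < R) (h : CW R F α β) :
    ∫ z in ball (0:ℂ) 1, β z = (1/2) * ∫ θ in (-π)..π, F (ee θ) * ee θ :=
  Pool.Agent.MPca0fc2.stokes_dbar hR h.wirt h.contα h.contβ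

/-- `∫ F = ∫ (1-|z|²) (2F + z ∂F)`. -/
theorem CW.stokes_weight_two {R : ℝ} {F α β : ℂ → ℂ} (hR : 1 < R) (h : CW R F α β) :
    ∫ z in ball (0:ℂ) 1, F z =
      ∫ z in ball (0:ℂ) 1, (1 - z * (starRingEnd ℂ) z) * (2 * F z + z * α z) := by
  have h1 := CW.id.mul h
  have h2 := stokes_weight hR h1.wirt h1.contα h1.contβ
  have hc : ContinuousOn (fun z : ℂ => (starRingEnd ℂ) z) (ball 0 R) :=
    Complex.continuous_conj.continuousOn
  have hw : ContinuousOn (fun z : ℂ => 1 - z * (starRingEnd ℂ) z) (ball 0 R) :=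
    continuousOn_const.sub (continuousOn_id.mul hc)
  have hz : ContinuousOn (fun z : ℂ => z) (ball 0 R) := continuousOn_id
  have e1 := int_add hR (F := fun z => (1 - z * (starRingEnd ℂ) z) * F z)
    (G := fun z => (starRingEnd ℂ) z * (z * F z)) (hw.mul h.cont) (hc.mul (hz.mul h.cont))
  have e2 := int_add hR (F := fun z => (1 - z * (starRingEnd ℂ) z) * F z)
    (G := fun z => (1 - z * (starRingEnd ℂ) z) * (1 * F z + z * α z)) (hw.mul h.cont)
    (hw.mul ((continuousOn_const.mul h.cont).add (hz.mul h.contα)))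
  have e3 : ∀ z : ℂ, F z = (1 - z * (starRingEnd ℂ) z) * F z + (starRingEnd ℂ) z * (z * F z) := by
    intro z; ring
  have e4 : ∀ z : ℂ, (1 - z * (starRingEnd ℂ) z) * (2 * F z + z * α z) =
      (1 - z * (starRingEnd ℂ) z) * F z + (1 - z * (starRingEnd ℂ) z) * (1 * F z + z * α z) := by
    intro z; ring
  calc ∫ z in ball (0:ℂ) 1, F z = ∫ z in ball (0:ℂ) 1, ((1 - z * (starRingEnd ℂ) z) * F z +
        (starRingEnd ℂ) z * (z * F z)) := by
        congr 1; ext z; exact e3 z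
    _ = _ := by
        rw [e1, ← h2, ← e2]
        congr 1; ext z; exact (e4 z).symm

end

end Pool.Agent.MPca0fc2
end

section

open Complex MeasureTheory Metric Set
open scoped ComplexConjugate Real Interval

namespace Pool.Agent.MPca0fc2

noncomputable section

section L2
variable {ι : Type*} [Fintype ι] {R d : ℝ} {f : ι → ℂ → ℂ} {y : ℂ → ℂ} {κ : ι → ℂ → ℂ}

def sS (f : ι → ℂ → ℂ) (z : ℂ) : ℂ := ∑ j, f j z * (starRingEnd ℂ) (f j z)
def ps (f : ι → ℂ → ℂ) (z : ℂ) : ℂ := ∑ j, deriv (f j) z * (starRingEnd ℂ) (f j z)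
def psb (f : ι → ℂ → ℂ) (z : ℂ) : ℂ := ∑ j, f j z * (starRingEnd ℂ) (deriv (f j) z)
def HH (f : ι → ℂ → ℂ) (l j : ι) (z : ℂ) : ℂ :=
  (starRingEnd ℂ) (f l z) * (starRingEnd ℂ) (deriv (f j) z) -
    (starRingEnd ℂ) (f j z) * (starRingEnd ℂ) (deriv (f l) z)
def GG (f : ι → ℂ → ℂ) (l j : ι) (z : ℂ) : ℂ := HH f l j z * ((sS f z)⁻¹ * (sS f z)⁻¹)
def GGa (f : ι → ℂ → ℂ) (l j : ι) (z : ℂ) : ℂ :=
  HH f l j z * (-2 * ps f z * ((sS f z)⁻¹)^3)
def KK (f κ : ι → ℂ → ℂ) (l j : ι) (z : ℂ) : ℂ := f l z * κ j z - f j z * κ l z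
def TT (f : ι → ℂ → ℂ) (y : ℂ → ℂ) (κ : ι → ℂ → ℂ) (z : ℂ) : ℂ :=
  ∑ l, ∑ j, GG f l j z * (KK f κ l j z * y z)
def TTa (f : ι → ℂ → ℂ) (y : ℂ → ℂ) (κ : ι → ℂ → ℂ) (z : ℂ) : ℂ :=
  ∑ l, ∑ j, (GGa f l j z * (KK f κ l j z * y z) +
    GG f l j z * (deriv (KK f κ l j) z * y z + KK f κ l j z * deriv y z))
def PP (f : ι → ℂ → ℂ) (y : ℂ → ℂ) (κ : ι → ℂ → ℂ) (z : ℂ) : ℂ :=
  ∑ j, ((starRingEnd ℂ) (f j z) * (sS f z)⁻¹) * (y z * κ j z)

lemma sS_eq (f : ι → ℂ → ℂ) (z : ℂ) : sS f z = ((∑ j, ‖f j z‖^2 : ℝ) : ℂ) := by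
  unfold sS
  push_cast
  refine Finset.sum_congr rfl fun j _ => ?_
  rw [mul_conj, normSq_eq_norm_sq]
  push_cast; ring

lemma norm_sS_ge (hs : ∀ z ∈ ball (0:ℂ) R, d ≤ ∑ j, ‖f j z‖^2) {z : ℂ}
    (hz : z ∈ ball (0:ℂ) R) : d ≤ ‖sS f z‖ := by
  rw [sS_eq, norm_real, Real.norm_eq_abs, abs_of_nonneg (Finset.sum_nonneg fun _ _ => by positivity)]
  exact hs z hz

lemma sS_ne (hd : 0 < d) (hs : ∀ z ∈ ball (0:ℂ) R, d ≤ ∑ j, ‖f j z‖^2) {z : ℂ}
    (hz : z ∈ ball (0:ℂ) R) : sS f z ≠ 0 := by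
  have := norm_sS_ge hs hz
  intro h
  rw [h, norm_zero] at this
  linarith

lemma cw_sS (hf : ∀ j, DifferentiableOn ℂ (f j) (ball 0 R)) : CW R (sS f) (ps f) (psb f) := by
  have := CW.sum (Finset.univ) (fun j _ => (CW.hol (hf j)).mul (CW.hol (hf j)).star)
  refine this.congr ?_ ?_
  · intro z _; simp [ps]
  · intro z _; simp [psb]

lemma cw_HH (hf : ∀ j, DifferentiableOn ℂ (f j) (ball 0 R)) (l j : ι) :
    ∃ β, CW R (HH f l j) (fun _ => 0) β := by
  have hf' := fun j => differentiableOn_deriv_ball (hf j)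
  have h := ((CW.hol (hf l)).star.mul (CW.hol (hf' j)).star).sub
    ((CW.hol (hf j)).star.mul (CW.hol (hf' l)).star)
  refine ⟨_, h.congr ?_ (fun z _ => rfl)⟩
  intro z _
  simp

lemma cw_GG (hd : 0 < d) (hf : ∀ j, DifferentiableOn ℂ (f j) (ball 0 R))
    (hs : ∀ z ∈ ball (0:ℂ) R, d ≤ ∑ j, ‖f j z‖^2) (l j : ι) :
    ∃ β, CW R (GG f l j) (GGa f l j) β := by
  obtain ⟨β, hβ⟩ := cw_HH hf l j
  have hi := (cw_sS hf).inv (fun z hz => sS_ne hd hs hz)
  refine ⟨_, (hβ.mul (hi.mul hi)).congr ?_ (fun z _ => rfl)⟩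
  intro z hz
  have h0 := sS_ne hd hs hz
  simp only [GGa]
  field_simp
  ring

lemma diff_KK (hf : ∀ j, DifferentiableOn ℂ (f j) (ball 0 R))
    (hκ : ∀ j, DifferentiableOn ℂ (κ j) (ball 0 R)) (l j : ι) :
    DifferentiableOn ℂ (KK f κ l j) (ball 0 R) :=
  ((hf l).mul (hκ j)).sub ((hf j).mul (hκ l))

lemma cw_TT (hd : 0 < d) (hf : ∀ j, DifferentiableOn ℂ (f j) (ball 0 R))
    (hs : ∀ z ∈ ball (0:ℂ) R, d ≤ ∑ j, ‖f j z‖^2) (hy : DifferentiableOn ℂ y (ball 0 R))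
    (hκ : ∀ j, DifferentiableOn ℂ (κ j) (ball 0 R)) :
    ∃ β, CW R (TT f y κ) (TTa f y κ) β := by
  choose β hβ using fun l j => cw_GG hd hf hs l j
  have h := CW.sum Finset.univ (fun l _ => CW.sum Finset.univ (fun j _ =>
    (hβ l j).mul ((CW.hol (diff_KK hf hκ l j)).mul (CW.hol hy))))
  exact ⟨_, h⟩

lemma HH_antisymm (f : ι → ℂ → ℂ) (l j : ι) (z : ℂ) : HH f j l z = - HH f l j z := by
  simp only [HH]; ring

lemma GG_antisymm (f : ι → ℂ → ℂ) (l j : ι) (z : ℂ) : GG f j l z = - GG f l j z := by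
  simp only [GG, HH_antisymm f l j]; ring

lemma cw_PP (hd : 0 < d) (hf : ∀ j, DifferentiableOn ℂ (f j) (ball 0 R))
    (hs : ∀ z ∈ ball (0:ℂ) R, d ≤ ∑ j, ‖f j z‖^2) (hy : DifferentiableOn ℂ y (ball 0 R))
    (hκ : ∀ j, DifferentiableOn ℂ (κ j) (ball 0 R)) :
    ∃ α, CW R (PP f y κ) α (fun z => (1/2) * TT f y κ z) := by
  have hi := (cw_sS hf).inv (fun z hz => sS_ne hd hs hz)
  have h := CW.sum Finset.univ (fun j _ =>
    ((CW.hol (hf j)).star.mul hi).mul ((CW.hol hy).mul (CW.hol (hκ j))))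
  refine ⟨_, h.congr (fun z _ => rfl) ?_⟩
  intro z hz
  have h0 := sS_ne hd hs hz
  -- the key algebraic identity
  have e1 : ∀ j, (starRingEnd ℂ) (deriv (f j) z) * (sS f z)⁻¹ +
      (starRingEnd ℂ) (f j z) * (-psb f z / sS f z ^ 2) = ∑ l, f l z * GG f l j z := by
    intro j
    have e2 : (starRingEnd ℂ) (deriv (f j) z) * (sS f z)⁻¹ =
        ∑ l, f l z * ((starRingEnd ℂ) (f l z) * (starRingEnd ℂ) (deriv (f j) z) *
          ((sS f z)⁻¹ * (sS f z)⁻¹)) := by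
      have : ∀ l, f l z * ((starRingEnd ℂ) (f l z) * (starRingEnd ℂ) (deriv (f j) z) *
          ((sS f z)⁻¹ * (sS f z)⁻¹)) = (f l z * (starRingEnd ℂ) (f l z)) *
          ((starRingEnd ℂ) (deriv (f j) z) * ((sS f z)⁻¹ * (sS f z)⁻¹)) := by
        intro l; ring
      simp only [this]
      rw [← Finset.sum_mul, show ∑ l, f l z * (starRingEnd ℂ) (f l z) = sS f z from rfl]
      field_simp
    have e3 : (starRingEnd ℂ) (f j z) * (-psb f z / sS f z ^ 2) =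
        - ∑ l, f l z * ((starRingEnd ℂ) (f j z) * (starRingEnd ℂ) (deriv (f l) z) *
          ((sS f z)⁻¹ * (sS f z)⁻¹)) := by
      have : ∀ l, f l z * ((starRingEnd ℂ) (f j z) * (starRingEnd ℂ) (deriv (f l) z) *
          ((sS f z)⁻¹ * (sS f z)⁻¹)) = (f l z * (starRingEnd ℂ) (deriv (f l) z)) *
          ((starRingEnd ℂ) (f j z) * ((sS f z)⁻¹ * (sS f z)⁻¹)) := by
        intro l; ring
      simp only [this]
      rw [← Finset.sum_mul, show ∑ l, f l z * (starRingEnd ℂ) (deriv (f l) z) = psb f z from rfl]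
      field_simp
    rw [e2, e3, ← sub_eq_add_neg, ← Finset.sum_sub_distrib]
    refine Finset.sum_congr rfl fun l _ => ?_
    simp only [GG, HH]
    ring
  have e4 : ∑ j, ((starRingEnd ℂ) (deriv (f j) z) * (sS f z)⁻¹ +
      (starRingEnd ℂ) (f j z) * (-psb f z / sS f z ^ 2)) * (y z * κ j z) =
      ∑ l, ∑ j, GG f l j z * (f l z * κ j z * y z) := by
    simp only [e1, Finset.sum_mul]
    rw [Finset.sum_comm]
    refine Finset.sum_congr rfl fun l _ => Finset.sum_congr rfl fun j _ => ?_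
    ring
  have e5 : ∑ l, ∑ j, GG f l j z * (f l z * κ j z * y z) =
      - ∑ l, ∑ j, GG f l j z * (f j z * κ l z * y z) := by
    rw [Finset.sum_comm, ← Finset.sum_neg_distrib]
    refine Finset.sum_congr rfl fun l _ => ?_
    rw [← Finset.sum_neg_distrib]
    refine Finset.sum_congr rfl fun j _ => ?_
    rw [GG_antisymm f l j]
    ring
  have e6 : TT f y κ z = ∑ l, ∑ j, GG f l j z * (f l z * κ j z * y z) -
      ∑ l, ∑ j, GG f l j z * (f j z * κ l z * y z) := by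
    unfold TT
    rw [← Finset.sum_sub_distrib]
    refine Finset.sum_congr rfl fun l _ => ?_
    rw [← Finset.sum_sub_distrib]
    refine Finset.sum_congr rfl fun j _ => ?_
    simp only [KK]
    ring
  have e7 : ∑ j, (((starRingEnd ℂ) (deriv (f j) z) * (sS f z)⁻¹ +
      (starRingEnd ℂ) (f j z) * (-psb f z / sS f z ^ 2)) * (y z * κ j z) +
      (starRingEnd ℂ) (f j z) * (sS f z)⁻¹ * (0 * κ j z + y z * 0)) = (1/2) * TT f y κ z := by
    have : ∀ j, (((starRingEnd ℂ) (deriv (f j) z) * (sS f z)⁻¹ +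
      (starRingEnd ℂ) (f j z) * (-psb f z / sS f z ^ 2)) * (y z * κ j z) +
      (starRingEnd ℂ) (f j z) * (sS f z)⁻¹ * (0 * κ j z + y z * 0)) =
      ((starRingEnd ℂ) (deriv (f j) z) * (sS f z)⁻¹ +
      (starRingEnd ℂ) (f j z) * (-psb f z / sS f z ^ 2)) * (y z * κ j z) := by
      intro j; ring
    simp only [this]
    rw [e4, e6]
    linear_combination (1/2) * e5
  exact e7

/-- the circle integral of `PP` in terms of a weighted area integral -/
lemma integral_PP (hR : 1 < R) (hd : 0 < d) (hf : ∀ j, DifferentiableOn ℂ (f j) (ball 0 R))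
    (hs : ∀ z ∈ ball (0:ℂ) R, d ≤ ∑ j, ‖f j z‖^2) (hy : DifferentiableOn ℂ y (ball 0 R))
    (hκ : ∀ j, DifferentiableOn ℂ (κ j) (ball 0 R)) :
    ∫ θ in (-π)..π, PP f y κ (ee θ) * ee θ =
      ∫ z in ball (0:ℂ) 1, (1 - z * (starRingEnd ℂ) z) * (2 * TT f y κ z + z * TTa f y κ z) := by
  obtain ⟨α, hα⟩ := cw_PP hd hf hs hy hκ
  obtain ⟨β, hβ⟩ := cw_TT hd hf hs hy hκ
  have h1 := hα.stokes_dbar hR
  have h2 := hβ.stokes_weight_two hR
  rw [← h2]
  rw [integral_const_mul] at h1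
  linear_combination (-2) * h1

end L2

end

end Pool.Agent.MPca0fc2
end

section

open Complex MeasureTheory Metric Set
open scoped ComplexConjugate Real Interval

namespace Pool.Agent.MPca0fc2

noncomputable section

section L2
variable {ι : Type*} [Fintype ι] {R d : ℝ} {f : ι → ℂ → ℂ} {y : ℂ → ℂ} {κ : ι → ℂ → ℂ}

def Sd (f : ι → ℂ → ℂ) (z : ℂ) : ℝ := ∑ j, ‖deriv (f j) z‖

lemma Sd_nonneg (f : ι → ℂ → ℂ) (z : ℂ) : 0 ≤ Sd f z := Finset.sum_nonneg fun _ _ => norm_nonneg _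

lemma le_Sd (f : ι → ℂ → ℂ) (j : ι) (z : ℂ) : ‖deriv (f j) z‖ ≤ Sd f z :=
  Finset.single_le_sum (f := fun j => ‖deriv (f j) z‖) (fun _ _ => norm_nonneg _)
    (Finset.mem_univ j)

variable {z : ℂ}

lemma bound_HH (hb : ∀ j, ‖f j z‖ ≤ 1) (l j : ι) : ‖HH f l j z‖ ≤ 2 * Sd f z := by
  unfold HH
  refine (norm_sub_le _ _).trans ?_
  rw [norm_mul, norm_mul, RCLike.norm_conj, RCLike.norm_conj, RCLike.norm_conj, RCLike.norm_conj]
  have h1 := le_Sd f j z
  have h2 := le_Sd f l z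
  have h3 := norm_nonneg (f l z)
  have h4 := norm_nonneg (f j z)
  have h5 := norm_nonneg (deriv (f j) z)
  have h6 := norm_nonneg (deriv (f l) z)
  nlinarith [hb l, hb j]

lemma bound_inv (hd : 0 < d) (hs : d ≤ ‖sS f z‖) : ‖(sS f z)⁻¹‖ ≤ d⁻¹ := by
  rw [norm_inv]
  exact inv_anti₀ hd hs

lemma bound_GG (hd : 0 < d) (hs : d ≤ ‖sS f z‖) (hb : ∀ j, ‖f j z‖ ≤ 1) (l j : ι) :
    ‖GG f l j z‖ ≤ 2 * Sd f z * (d⁻¹)^2 := by
  unfold GG
  rw [norm_mul, norm_mul, sq]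
  have h1 := bound_HH hb l j
  have h2 := bound_inv hd hs
  have h3 := Sd_nonneg f z
  have h4 : 0 ≤ d⁻¹ := by positivity
  gcongr

lemma bound_ps (hb : ∀ j, ‖f j z‖ ≤ 1) : ‖ps f z‖ ≤ Sd f z := by
  unfold ps
  refine (norm_sum_le _ _).trans ?_
  refine Finset.sum_le_sum fun j _ => ?_
  rw [norm_mul, RCLike.norm_conj]
  have h5 := norm_nonneg (deriv (f j) z)
  nlinarith [hb j]

lemma bound_GGa (hd : 0 < d) (hs : d ≤ ‖sS f z‖) (hb : ∀ j, ‖f j z‖ ≤ 1) (l j : ι) :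
    ‖GGa f l j z‖ ≤ 4 * Sd f z ^ 2 * (d⁻¹)^3 := by
  unfold GGa
  rw [norm_mul, norm_mul, norm_mul, norm_pow, norm_neg, Complex.norm_ofNat]
  have h1 := bound_HH hb l j
  have h2 := bound_inv hd hs
  have h3 := Sd_nonneg f z
  have h4 : 0 ≤ d⁻¹ := by positivity
  have h5 := bound_ps hb
  calc ‖HH f l j z‖ * (2 * ‖ps f z‖ * ‖(sS f z)⁻¹‖ ^ 3) ≤
      (2 * Sd f z) * (2 * Sd f z * (d⁻¹)^3) := by gcongr
    _ = _ := by ring

def QQ (f κ : ι → ℂ → ℂ) (z : ℂ) : ℝ := ∑ l, ∑ j, ‖KK f κ l j z‖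
def QQ' (f κ : ι → ℂ → ℂ) (z : ℂ) : ℝ := ∑ l, ∑ j, ‖deriv (KK f κ l j) z‖

lemma bound_TT (hd : 0 < d) (hs : d ≤ ‖sS f z‖) (hb : ∀ j, ‖f j z‖ ≤ 1) :
    ‖TT f y κ z‖ ≤ 2 * Sd f z * (d⁻¹)^2 * (QQ f κ z * ‖y z‖) := by
  unfold TT QQ
  rw [Finset.sum_mul, Finset.mul_sum]
  refine (norm_sum_le _ _).trans (Finset.sum_le_sum fun l _ => ?_)
  rw [Finset.sum_mul, Finset.mul_sum]
  refine (norm_sum_le _ _).trans (Finset.sum_le_sum fun j _ => ?_)
  rw [norm_mul, norm_mul]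
  have := bound_GG hd hs hb l j
  gcongr

lemma bound_TTa (hd : 0 < d) (hs : d ≤ ‖sS f z‖) (hb : ∀ j, ‖f j z‖ ≤ 1) :
    ‖TTa f y κ z‖ ≤ 4 * Sd f z ^ 2 * (d⁻¹)^3 * (QQ f κ z * ‖y z‖) +
      2 * Sd f z * (d⁻¹)^2 * (QQ' f κ z * ‖y z‖ + QQ f κ z * ‖deriv y z‖) := by
  have key : ∀ l j, ‖(GGa f l j z * (KK f κ l j z * y z) +
    GG f l j z * (deriv (KK f κ l j) z * y z + KK f κ l j z * deriv y z))‖ ≤
    4 * Sd f z ^ 2 * (d⁻¹)^3 * (‖KK f κ l j z‖ * ‖y z‖) +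
      2 * Sd f z * (d⁻¹)^2 * (‖deriv (KK f κ l j) z‖ * ‖y z‖ + ‖KK f κ l j z‖ * ‖deriv y z‖) := by
    intro l j
    refine (norm_add_le _ _).trans ?_
    rw [norm_mul, norm_mul, norm_mul]
    have h1 := bound_GG hd hs hb l j
    have h2 := bound_GGa hd hs hb l j
    have h3 : ‖deriv (KK f κ l j) z * y z + KK f κ l j z * deriv y z‖ ≤
        ‖deriv (KK f κ l j) z‖ * ‖y z‖ + ‖KK f κ l j z‖ * ‖deriv y z‖ := by
      refine (norm_add_le _ _).trans ?_
      rw [norm_mul, norm_mul]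
    have h4 := Sd_nonneg f z
    gcongr
  unfold TTa QQ QQ'
  calc _ ≤ ∑ l, ∑ j, (4 * Sd f z ^ 2 * (d⁻¹)^3 * (‖KK f κ l j z‖ * ‖y z‖) +
      2 * Sd f z * (d⁻¹)^2 * (‖deriv (KK f κ l j) z‖ * ‖y z‖ +
        ‖KK f κ l j z‖ * ‖deriv y z‖)) := by
        refine (norm_sum_le _ _).trans (Finset.sum_le_sum fun l _ => ?_)
        exact (norm_sum_le _ _).trans (Finset.sum_le_sum fun j _ => key l j)
    _ = _ := by
        simp only [Finset.sum_add_distrib, Finset.mul_sum, Finset.sum_mul, mul_add]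

lemma amgm {a b ε : ℝ} (hε : 0 < ε) : a * b ≤ (1/2) * (ε * a^2 + ε⁻¹ * b^2) := by
  have h : ε * ε⁻¹ = 1 := mul_inv_cancel₀ hε.ne'
  have h2 : 0 < ε⁻¹ := by positivity
  have h3 : 0 ≤ ε⁻¹ * (ε * a - b)^2 := by positivity
  have h4 : ε⁻¹ * (ε * a - b)^2 = (ε * ε⁻¹) * (ε * a^2) - 2 * (ε * ε⁻¹) * (a * b) + ε⁻¹ * b^2 := by
    ring
  rw [h4, h] at h3
  linarith

lemma sq_sum_le {κ : Type*} (s : Finset κ) (g : κ → ℝ) :
    (∑ i ∈ s, g i)^2 ≤ s.card * ∑ i ∈ s, g i ^ 2 := sq_sum_le_card_mul_sum_sq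

/-- pointwise majorant, part A -/
def AA (f : ι → ℂ → ℂ) (y : ℂ → ℂ) (z : ℂ) : ℝ :=
  3 * Fintype.card ι * (∑ i, ‖deriv (f i) z‖^2 * ‖y z‖^2) + ‖deriv y z‖^2
/-- pointwise majorant, part B -/
def BB (f κ : ι → ℂ → ℂ) (z : ℂ) : ℝ :=
  (Fintype.card ι : ℝ)^2 * (∑ l, ∑ j, ‖KK f κ l j z‖^2) +
  (Fintype.card ι : ℝ)^2 * (∑ l, ∑ j, ‖deriv (KK f κ l j) z‖^2) +
  2 * (Fintype.card ι : ℝ)^3 * (∑ i, ∑ l, ∑ j, ‖deriv (f i) z‖^2 * ‖KK f κ l j z‖^2)

lemma QQ_sq (f κ : ι → ℂ → ℂ) (z : ℂ) :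
    QQ f κ z ^ 2 ≤ (Fintype.card ι : ℝ)^2 * ∑ l, ∑ j, ‖KK f κ l j z‖^2 := by
  unfold QQ
  rw [← Finset.sum_product', ← Finset.sum_product']
  refine (sq_sum_le _ _).trans ?_
  simp [sq]

lemma QQ'_sq (f κ : ι → ℂ → ℂ) (z : ℂ) :
    QQ' f κ z ^ 2 ≤ (Fintype.card ι : ℝ)^2 * ∑ l, ∑ j, ‖deriv (KK f κ l j) z‖^2 := by
  unfold QQ'
  rw [← Finset.sum_product', ← Finset.sum_product']
  refine (sq_sum_le _ _).trans ?_
  simp [sq]

lemma Sd_sq (f : ι → ℂ → ℂ) (z : ℂ) :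
    Sd f z ^ 2 ≤ (Fintype.card ι : ℝ) * ∑ j, ‖deriv (f j) z‖^2 := by
  unfold Sd
  refine (sq_sum_le _ _).trans ?_
  simp

/-- the constant -/
def cd (d : ℝ) : ℝ := 4 * (d⁻¹)^2 + 4 * (d⁻¹)^3

lemma cd_pos (hd : 0 < d) : 0 < cd d := by unfold cd; positivity

lemma pointwise (hd : 0 < d) (hs : d ≤ ‖sS f z‖) (hb : ∀ j, ‖f j z‖ ≤ 1) {ε : ℝ} (hε : 0 < ε) :
    2 * ‖TT f y κ z‖ + ‖TTa f y κ z‖ ≤ cd d / 2 * (ε * AA f y z + ε⁻¹ * BB f κ z) := by
  have h1 := bound_TT (y := y) (κ := κ) hd hs hb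
  have h2 := bound_TTa (y := y) (κ := κ) hd hs hb
  set S := Sd f z with hS
  set Q := QQ f κ z with hQ
  set Q' := QQ' f κ z with hQ'
  set Y := ‖y z‖ with hY
  set Y' := ‖deriv y z‖ with hY'
  have S0 : 0 ≤ S := Sd_nonneg f z
  have Q0 : 0 ≤ Q := Finset.sum_nonneg fun _ _ => Finset.sum_nonneg fun _ _ => norm_nonneg _
  have Q0' : 0 ≤ Q' := Finset.sum_nonneg fun _ _ => Finset.sum_nonneg fun _ _ => norm_nonneg _
  have Y0 : 0 ≤ Y := norm_nonneg _
  have Y0' : 0 ≤ Y' := norm_nonneg _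
  have hd2 : 0 ≤ (d⁻¹)^2 := by positivity
  have hd3 : 0 ≤ (d⁻¹)^3 := by positivity
  have step : 2 * ‖TT f y κ z‖ + ‖TTa f y κ z‖ ≤
      cd d * (S * Y * Q + (S * Y) * (S * Q) + (S * Y) * Q' + Y' * (S * Q)) := by
    unfold cd
    have p1 : 0 ≤ S * Y * Q := by positivity
    have p2 : 0 ≤ (S * Y) * (S * Q) := by positivity
    have p3 : 0 ≤ (S * Y) * Q' := by positivity
    have p4 : 0 ≤ Y' * (S * Q) := by positivity
    have q1 : 0 ≤ (d⁻¹)^2 * (S * Y * Q) := by positivity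
    have q2 : 0 ≤ (d⁻¹)^2 * ((S * Y) * (S * Q)) := by positivity
    have q3 : 0 ≤ (d⁻¹)^2 * ((S * Y) * Q') := by positivity
    have q4 : 0 ≤ (d⁻¹)^2 * (Y' * (S * Q)) := by positivity
    have r1 : 0 ≤ (d⁻¹)^3 * (S * Y * Q) := by positivity
    have r2 : 0 ≤ (d⁻¹)^3 * ((S * Y) * (S * Q)) := by positivity
    have r3 : 0 ≤ (d⁻¹)^3 * ((S * Y) * Q') := by positivity
    have r4 : 0 ≤ (d⁻¹)^3 * (Y' * (S * Q)) := by positivity
    nlinarith
  have a1 := amgm (a := S * Y) (b := Q) hε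
  have a2 := amgm (a := S * Y) (b := S * Q) hε
  have a3 := amgm (a := S * Y) (b := Q') hε
  have a4 := amgm (a := Y') (b := S * Q) hε
  have step2 : S * Y * Q + (S * Y) * (S * Q) + (S * Y) * Q' + Y' * (S * Q) ≤
      (1/2) * (ε * (3 * (S^2 * Y^2) + Y'^2) + ε⁻¹ * (Q^2 + Q'^2 + 2 * (S^2 * Q^2))) := by
    nlinarith
  have cS := Sd_sq f z
  have cQ := QQ_sq f κ z
  have cQ' := QQ'_sq f κ z
  rw [← hS] at cS
  rw [← hQ] at cQ
  rw [← hQ'] at cQ'
  set N : ℝ := (Fintype.card ι : ℝ) with hN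
  have N0 : 0 ≤ N := by positivity
  have hA : 3 * (S^2 * Y^2) + Y'^2 ≤ AA f y z := by
    unfold AA
    have : S^2 * Y^2 ≤ N * ∑ i, ‖deriv (f i) z‖^2 * ‖y z‖^2 := by
      calc S^2 * Y^2 ≤ (N * ∑ j, ‖deriv (f j) z‖^2) * Y^2 := by gcongr
        _ = _ := by rw [← Finset.sum_mul]; ring
    rw [← hN, ← hY']
    linarith
  have hB : Q^2 + Q'^2 + 2 * (S^2 * Q^2) ≤ BB f κ z := by
    unfold BB
    have : S^2 * Q^2 ≤ N^3 * ∑ i, ∑ l, ∑ j, ‖deriv (f i) z‖^2 * ‖KK f κ l j z‖^2 := by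
      calc S^2 * Q^2 ≤ (N * ∑ j, ‖deriv (f j) z‖^2) *
            (N^2 * ∑ l, ∑ j, ‖KK f κ l j z‖^2) := by
            gcongr
        _ = _ := by
            simp only [Finset.mul_sum, Finset.sum_mul]
            rw [Finset.sum_congr rfl fun l _ => Finset.sum_comm]
            rw [Finset.sum_comm]
            refine Finset.sum_congr rfl fun i _ => Finset.sum_congr rfl fun l _ =>
              Finset.sum_congr rfl fun j _ => ?_
            ring
    rw [← hN]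
    linarith
  have ei : 0 < ε⁻¹ := by positivity
  have c0 := cd_pos hd
  calc 2 * ‖TT f y κ z‖ + ‖TTa f y κ z‖ ≤ _ := step
    _ ≤ cd d * ((1/2) * (ε * (3 * (S^2 * Y^2) + Y'^2) +
        ε⁻¹ * (Q^2 + Q'^2 + 2 * (S^2 * Q^2)))) := by gcongr
    _ ≤ cd d * ((1/2) * (ε * AA f y z + ε⁻¹ * BB f κ z)) := by gcongr
    _ = _ := by ring

end L2

end

end Pool.Agent.MPca0fc2
end
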