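import Pool.Agent.Lib.MP_ca0fc2_an.TB.Defs
import Pool.Agent.Lib.MP_ca0fc2_an.ZL.Defs

section

/-! Campaign ZL (zero-one law): auxiliary definitions. -/

set_option autoImplicit false

open Metric Set Filter Topology

namespace Pool.Agent.MPca0fc2.ZL

open Pool.Agent.MPca0fc2.TB (En)

/-- the open target set: `|w_j| < 1`, `|w| > δ` -/
def U (N : ℕ) (δ : ℝ) : Set (En N) := {w | (∀ j, ‖w j‖ < 1) ∧ δ < ‖w‖}

/-- maps of the ball algebra with values in the open target set (on the closed ball) -/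
def AU {n N : ℕ} (δ : ℝ) (f : En n → En N) : Prop :=
  DifferentiableOn ℂ f (ball 0 1) ∧ ContinuousOn f (closedBall 0 1) ∧ ∀ z ∈ closedBall (0 : En n) 1, f z ∈ U N δ

/-- the size of the perturbation at the value `c`: half of the smaller one of `max_j (1 - |c_j|)` and `(1 - δ) / 2`;
written as `sup` over `j` of `min (1 - |c_j|) ((1 - δ) / 2) / 2` -/
noncomputable def tau {N : ℕ} (δ : ℝ) (c : En N) : ℝ :=
  ⨆ j, min (1 - ‖c j‖) ((1 - δ) / 2) / 2

/-- the perturbation: a sum of functions with peaks at the points `ξ` of `T`, with the directions `v ξ` and the phases `ω ξ` -/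
noncomputable def GG {n N : ℕ} (m : ℝ) (T : Finset (En n)) (ω : En n → ℂ) (v : En n → En N) (z : En n) : En N :=
  ∑ ξ ∈ T, (ω ξ * Complex.exp (-(m : ℂ) * (1 - inner ℂ ξ z))) • v ξ

end Pool.Agent.MPca0fc2.ZL
end

section

/-! Campaign ZL (zero-one law), task NbA: the topology of the space of data. -/

set_option autoImplicit false

open Metric Set Filter Topology

namespace Pool.Agent.MPca0fc2.ZL

open Pool.Agent.MPca0fc2.TB (En)
open Pool.Agent.Lib.MP_ca0fc2_an.ZL (ext Data)

variable {n N : ℕ}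

theorem ext_apply (f : C(ball (0 : En n) 1, En N)) {z : En n} (hz : z ∈ ball (0 : En n) 1) : ext f z = f ⟨z, hz⟩ := by
  unfold Pool.Agent.Lib.MP_ca0fc2_an.ZL.ext
  rw [dif_pos hz]

theorem data_bounds {δ : ℝ} (f : Data n N δ) : DifferentiableOn ℂ (ext f.1) (ball 0 1) ∧
    ∀ z ∈ ball (0 : En n) 1, (∀ j, ‖ext f.1 z j‖ ≤ 1) ∧ δ ≤ ‖ext f.1 z‖ := by
  refine ⟨f.2.1, fun z hz => ?_⟩
  rw [ext_apply f.1 hz]
  exact f.2.2 ⟨z, hz⟩

/-- PROOF. `f z = F z` restricted to the ball is a continuous map; `ext f = F` on the ball (`DifferentiableOn.congr`). -/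
theorem exists_data {δ : ℝ} {F : En n → En N} (hF : DifferentiableOn ℂ F (ball 0 1))
    (hb : ∀ z ∈ ball (0 : En n) 1, (∀ j, ‖F z j‖ ≤ 1) ∧ δ ≤ ‖F z‖) : ∃ g : Data n N δ, ∀ z ∈ ball (0 : En n) 1, ext g.1 z = F z := by
  have hc : Continuous fun z : ball (0 : En n) 1 => F z :=
    continuousOn_iff_continuous_domRestrict.1 hF.continuousOn
  have he : ∀ z ∈ ball (0 : En n) 1,
      ext (⟨fun z => F z, hc⟩ : C(ball (0 : En n) 1, En N)) z = F z := by
    intro z hz
    rw [ext_apply _ hz]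
    rfl
  exact ⟨⟨⟨fun z => F z, hc⟩, hF.congr he, fun z => hb z.1 z.2⟩, he⟩

/-- a neighbourhood basis in the compact-open topology -/
private theorem NbA_basis (f : C(ball (0 : En n) 1, En N)) :
    (𝓝 f).HasBasis (fun p : Set (ball (0 : En n) 1) × ℝ => IsCompact p.1 ∧ 0 < p.2)
      (fun p => {g | ∀ x ∈ p.1, dist (f x) (g x) < p.2}) :=
  nhds_basis_uniformity' (Metric.uniformity_basis_dist (α := En N)).compactConvergenceUniformity

/-- Neighbourhoods in the space of data contain the data which are near `f` on a compact ball.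
PROOF. `U` is the preimage of a neighbourhood of `f` in `C(ball, En N)` under the inclusion (`nhds_subtype` / `mem_nhds_subtype`, `nhds_induced`). A neighbourhood base of `f` in the compact-open topology: the sets of the `g` with `dist (f x) (g x) < ε` for all `x` in a compact set `K` of the subtype
(`ContinuousMap.hasBasis_nhds`, `ContinuousMap.hasBasis_compactConvergenceUniformity` with `nhds_basis_uniformity`, or `ContinuousMap.mem_compactConvergence_entourage_iff`). The image of `K` in `En n` is a compact subset of `ball 0 1`, so it is contained in `closedBall 0 R` for some `R < 1`, `0 ≤ R` (the norm is continuous and `< 1` on it;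
if it is empty take `R = 0`). Use `ext_apply` (`closedBall 0 R ⊆ ball 0 1`), `ε / 2`. -/
theorem exists_nhd {δ : ℝ} (f : Data n N δ) {V : Set (Data n N δ)} (hV : V ∈ 𝓝 f) :
    ∃ R ε : ℝ, 0 ≤ R ∧ R < 1 ∧ 0 < ε ∧ ∀ g : Data n N δ, (∀ z ∈ closedBall (0 : En n) R, ‖ext g.1 z - ext f.1 z‖ ≤ ε) → g ∈ V := by
  rw [mem_nhds_subtype] at hV
  obtain ⟨u, hu, huV⟩ := hV
  obtain ⟨⟨K, ε⟩, ⟨hK, hε⟩, hKu⟩ := (NbA_basis f.1).mem_iff.1 hu
  simp only at hK hε hKu
  obtain ⟨R, hR0, hR1, hKR⟩ : ∃ R : ℝ, 0 ≤ R ∧ R < 1 ∧ ∀ x ∈ K, ‖(x : En n)‖ ≤ R := by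
    rcases K.eq_empty_or_nonempty with h | h
    · exact ⟨0, le_rfl, one_pos, fun x hx => by rw [h] at hx; exact absurd hx (notMem_empty x)⟩
    · obtain ⟨x0, hx0, hmax⟩ := hK.exists_isMaxOn h
        (f := fun x : ball (0 : En n) 1 => ‖(x : En n)‖) (continuous_subtype_val.norm.continuousOn)
      refine ⟨‖(x0 : En n)‖, norm_nonneg _, ?_, fun x hx => hmax hx⟩
      have := x0.2
      rwa [mem_ball_zero_iff] at this
  refine ⟨R, ε / 2, hR0, hR1, by linarith, fun g hg => ?_⟩
  refine huV (hKu ?_)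
  intro x hx
  have h1 := hg x.1 (by rw [mem_closedBall_zero_iff]; exact hKR x hx)
  rw [ext_apply _ x.2, ext_apply _ x.2] at h1
  rw [dist_comm, dist_eq_norm]
  exact lt_of_le_of_lt h1 (by linarith)

/-- Conversely these sets are neighbourhoods.
PROOF. The preimage of `closedBall 0 R` under the inclusion of `ball 0 1` is compact (`closedBall 0 R ⊆ ball 0 1`, the inclusion is an embedding with range `ball 0 1`: `Topology.IsEmbedding.isCompact_preimage`, or `isCompact_iff_isCompact_univ` etc.). Then the set is a neighbourhood in the compact-open topology (the same lemmas as above). -/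
theorem nhd_mem {δ : ℝ} (f : Data n N δ) {R ε : ℝ} (hR : R < 1) (hε : 0 < ε) :
    {g : Data n N δ | ∀ z ∈ closedBall (0 : En n) R, ‖ext g.1 z - ext f.1 z‖ < ε} ∈ 𝓝 f := by
  have hsub : closedBall (0 : En n) R ⊆ ball 0 1 := closedBall_subset_ball hR
  have hK : IsCompact ((fun x : ball (0 : En n) 1 => (x : En n)) ⁻¹' closedBall 0 R) := by
    rw [Subtype.isCompact_iff]
    have e : Subtype.val '' ((fun x : ball (0 : En n) 1 => (x : En n)) ⁻¹' closedBall 0 R) =
        closedBall (0 : En n) R := by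
      ext z
      constructor
      · rintro ⟨x, hx, rfl⟩
        exact hx
      · intro hz
        exact ⟨⟨z, hsub hz⟩, hz, rfl⟩
    rw [e]
    exact isCompact_closedBall _ _
  rw [mem_nhds_subtype]
  refine ⟨_, (NbA_basis f.1).mem_of_mem (i := (_, ε)) ⟨hK, hε⟩, ?_⟩
  intro g hg z hz
  have h1 := hg ⟨z, hsub hz⟩ hz
  rw [ext_apply _ (hsub hz), ext_apply _ (hsub hz), ← dist_eq_norm, dist_comm]
  exact h1

/-- Evaluation is continuous. PROOF. `ContinuousMap.continuous_eval_const` composed with the inclusion of the subtype, `ext_apply`. -/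
theorem continuous_ext {δ : ℝ} {z : En n} (hz : z ∈ ball (0 : En n) 1) : Continuous fun f : Data n N δ => ext f.1 z := by
  have h : (fun f : Data n N δ => ext f.1 z) = fun f : Data n N δ => f.1 ⟨z, hz⟩ := by
    funext f
    exact ext_apply f.1 hz
  rw [h]
  exact (continuous_eval_const (F := C(ball (0 : En n) 1, En N)) _).comp continuous_subtype_val

end Pool.Agent.MPca0fc2.ZL
end

section

/-! Campaign ZL (zero-one law), task ChA: the target set is connected by polygons. -/

set_option autoImplicit false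

open Metric Set Filter Topology

namespace Pool.Agent.MPca0fc2.ZL

open Pool.Agent.MPca0fc2.TB (En)

variable {N : ℕ}

private theorem ChA_lt {a b x y : ℝ} (ha : 0 ≤ a) (hb : 0 ≤ b) (hab : a + b = 1) (hx : x < 1) (hy : y < 1) :
    a * x + b * y < 1 := by
  rcases ha.eq_or_lt with h | h
  · have hb1 : b = 1 := by linarith
    rw [← h, hb1]
    linarith
  · have h1 : 0 < a * (1 - x) := mul_pos h (by linarith)
    have h2 : 0 ≤ b * (1 - y) := mul_nonneg hb (by linarith)
    nlinarith

private theorem ChA_disc {c c' : En N} (hc : ∀ j, ‖c j‖ < 1) (hc' : ∀ j, ‖c' j‖ < 1) {a b : ℝ} (ha : 0 ≤ a) (hb : 0 ≤ b)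
    (hab : a + b = 1) (j : Fin N) : ‖(a • c + b • c') j‖ < 1 := by
  have h1 : (a • c + b • c') j = a • c j + b • c' j := by
    simp
  rw [h1]
  refine lt_of_le_of_lt (norm_add_le _ _) ?_
  rw [norm_smul, norm_smul, Real.norm_of_nonneg ha, Real.norm_of_nonneg hb]
  exact ChA_lt ha hb hab (hc j) (hc' j)

private theorem ChA_coord {δ : ℝ} {P : En N → Prop} (hP : ∀ c c', segment ℝ c c' ⊆ U N δ → P c → P c')
    {c c' : En N} (hc : ∀ j, ‖c j‖ < 1) (hc' : ∀ j, ‖c' j‖ < 1) {k : Fin N} (hk : c k = c' k) (hd : δ < ‖c k‖)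
    (h : P c) : P c' := by
  refine hP c c' ?_ h
  rintro z ⟨a, b, ha, hb, hab, rfl⟩
  refine ⟨ChA_disc hc hc' ha hb hab, ?_⟩
  refine lt_of_lt_of_le ?_ (PiLp.norm_apply_le (a • c + b • c') k)
  have h1 : (a • c + b • c') k = a • c k + b • c' k := by
    simp
  rw [h1, ← hk, ← add_smul, hab, one_smul]
  exact hd

private theorem ChA_scale {δ : ℝ} {P : En N → Prop} (hP : ∀ c c', segment ℝ c c' ⊆ U N δ → P c → P c')
    {c : En N} (hc : ∀ j, ‖c j‖ < 1) {t : ℝ} (ht : 1 ≤ t) (hc' : ∀ j, ‖(t • c) j‖ < 1) (hd : δ < ‖c‖) :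
    (P c → P (t • c)) ∧ (P (t • c) → P c) := by
  have key : ∀ a b : ℝ, 0 ≤ a → 0 ≤ b → a + b = 1 → a • c + b • (t • c) ∈ U N δ := by
    intro a b ha hb hab
    refine ⟨ChA_disc hc hc' ha hb hab, ?_⟩
    have h1 : a • c + b • (t • c) = (a + b * t) • c := by
      rw [add_smul, mul_smul]
    rw [h1, norm_smul]
    have h2 : 1 ≤ a + b * t := by nlinarith
    rw [Real.norm_of_nonneg (by linarith)]
    have h3 : 0 ≤ ‖c‖ := norm_nonneg c
    nlinarith
  constructor
  · intro h
    refine hP c (t • c) ?_ h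
    rintro z ⟨a, b, ha, hb, hab, rfl⟩
    exact key a b ha hb hab
  · intro h
    refine hP (t • c) c ?_ h
    rw [segment_symm]
    rintro z ⟨a, b, ha, hb, hab, rfl⟩
    exact key a b ha hb hab

private theorem ChA_single_lt {k : Fin N} {α : ℂ} (hα : ‖α‖ < 1) (j : Fin N) :
    ‖(EuclideanSpace.single k α : En N) j‖ < 1 := by
  rw [EuclideanSpace.single_apply]
  split_ifs
  · exact hα
  · simp

private theorem ChA_step2 {δ : ℝ} {P : En N → Prop} (hP : ∀ c c', segment ℝ c c' ⊆ U N δ → P c → P c')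
    {k l : Fin N} (hkl : k ≠ l) {α β : ℂ} (hα : ‖α‖ < 1) (hα' : δ < ‖α‖) (hβ : ‖β‖ < 1) (hβ' : δ < ‖β‖)
    (h : P (EuclideanSpace.single k α)) : P (EuclideanSpace.single l β) := by
  have hm : ∀ j, ‖(EuclideanSpace.single k α + EuclideanSpace.single l β : En N) j‖ < 1 := by
    intro j
    rw [PiLp.add_apply, EuclideanSpace.single_apply, EuclideanSpace.single_apply]
    by_cases h1 : j = k
    · have h2 : j ≠ l := by rw [h1]; exact hkl
      rw [if_pos h1, if_neg h2, add_zero]
      exact hα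
    · rw [if_neg h1, zero_add]
      split_ifs
      · exact hβ
      · simp
  have h1 : P (EuclideanSpace.single k α + EuclideanSpace.single l β) := by
    refine ChA_coord hP (c := EuclideanSpace.single k α) (k := k) (ChA_single_lt hα) hm ?_ ?_ h
    · rw [PiLp.add_apply, EuclideanSpace.single_apply, EuclideanSpace.single_apply, if_pos rfl, if_neg hkl, add_zero]
    · rw [EuclideanSpace.single_apply, if_pos rfl]
      exact hα'
  refine ChA_coord hP (c := EuclideanSpace.single k α + EuclideanSpace.single l β) (k := l) hm (ChA_single_lt hβ) ?_ ?_ h1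
  · rw [PiLp.add_apply, EuclideanSpace.single_apply, EuclideanSpace.single_apply, if_pos rfl, if_neg hkl.symm, zero_add]
  · rw [PiLp.add_apply, EuclideanSpace.single_apply, EuclideanSpace.single_apply, if_pos rfl, if_neg hkl.symm, zero_add]
    exact hβ'

private theorem ChA_step1 (hN : 2 ≤ N) {δ : ℝ} (hδ : 0 ≤ δ) (hδ1 : δ < 1) {P : En N → Prop}
    (hP : ∀ c c', segment ℝ c c' ⊆ U N δ → P c → P c') {c : En N} (hc : c ∈ U N δ) :
    ∃ k : Fin N, ∃ α : ℂ, ‖α‖ < 1 ∧ δ < ‖α‖ ∧ (P c → P (EuclideanSpace.single k α)) ∧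
      (P (EuclideanSpace.single k α) → P c) := by
  obtain ⟨hc1, hc2⟩ := hc
  haveI : Nonempty (Fin N) := ⟨⟨0, by omega⟩⟩
  obtain ⟨k, hk⟩ := Finite.exists_max (fun j => ‖c j‖)
  have hck : 0 < ‖c k‖ := by
    rcases (norm_nonneg (c k)).eq_or_lt with h | h
    · exfalso
      have h0 : c = 0 := by
        ext j
        have h1 := hk j
        simp only at h1
        rw [← h] at h1
        have h2 : ‖c j‖ = 0 := le_antisymm h1 (norm_nonneg _)
        simpa using h2
      rw [h0, norm_zero] at hc2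
      linarith
    · exact h
  obtain ⟨s, hs⟩ : ∃ s, s = max ‖c k‖ ((1 + δ) / 2) := ⟨_, rfl⟩
  have hs1 : s < 1 := by
    rw [hs]
    exact max_lt (hc1 k) (by linarith)
  have hs2 : δ < s := by
    rw [hs]
    exact lt_of_lt_of_le (by linarith) (le_max_right _ _)
  have hs3 : ‖c k‖ ≤ s := by
    rw [hs]
    exact le_max_left _ _
  obtain ⟨t, ht⟩ : ∃ t, t = s / ‖c k‖ := ⟨_, rfl⟩
  have ht1 : 1 ≤ t := by
    rw [ht, le_div_iff₀ hck]
    linarith
  have hts : t * ‖c k‖ = s := by
    rw [ht]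
    field_simp
  have hd : ∀ j, ‖(t • c) j‖ < 1 := by
    intro j
    rw [PiLp.smul_apply, norm_smul, Real.norm_of_nonneg (by linarith)]
    have h1 : t * ‖c j‖ ≤ t * ‖c k‖ := mul_le_mul_of_nonneg_left (hk j) (by linarith)
    linarith
  have hnk : ‖(t • c) k‖ = s := by
    rw [PiLp.smul_apply, norm_smul, Real.norm_of_nonneg (by linarith), hts]
  obtain ⟨e1, e2⟩ := ChA_scale hP hc1 ht1 hd hc2
  have hsing : (EuclideanSpace.single k ((t • c) k) : En N) k = (t • c) k := by
    rw [EuclideanSpace.single_apply, if_pos rfl]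
  refine ⟨k, (t • c) k, by rw [hnk]; exact hs1, by rw [hnk]; exact hs2, ?_, ?_⟩
  · intro h
    exact ChA_coord hP (k := k) hd (ChA_single_lt (by rw [hnk]; exact hs1)) hsing.symm (by rw [hnk]; exact hs2) (e1 h)
  · intro h
    exact e2 (ChA_coord hP (k := k) (ChA_single_lt (by rw [hnk]; exact hs1)) hd hsing (by rw [hsing, hnk]; exact hs2) h)

/-- A property of the points of the target set which passes along segments contained in it passes from each point to each other point.
PROOF. Write `c ~ c'` for `P c → P c'` and `P c' → P c`; `segment` is symmetric, so `c ~ c'` if the segment is in `U N δ`. `single k α` is the vector with the entry `α` at `k` and `0` elsewhere, its norm is `‖α‖`.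
Step 1: each `c ∈ U` is equivalent to `single k α` for some `k` and `α` with `δ < ‖α‖ < 1`. Let `k` be an index with `‖c j‖ ≤ ‖c k‖` for all `j`; `c k ≠ 0` (as `‖c‖ > δ ≥ 0`); `s = max ‖c k‖ ((1 + δ) / 2)`, `δ < s < 1`, `t = s / ‖c k‖ ≥ 1`. Segment from `c` to `t • c`: its points are `t' • c` with `1 ≤ t' ≤ t`,
`‖t' c j‖ ≤ t ‖c k‖ = s < 1`, `‖t' • c‖ ≥ ‖c‖ > δ`. Segment from `c' = t • c` to `single k (c' k)`: the `k`-th coordinate of its points is `c' k`, of modulus `s`, so the norm is `≥ s > δ` and `s < 1`; the other coordinates are `(1 - x) c' j`, of modulus `≤ s < 1`.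
Step 2: for `k ≠ l` and `δ < ‖α‖ < 1`, `δ < ‖β‖ < 1`: `single k α ~ single k α + single l β ~ single l β` (on the first segment the `k`-th coordinate is `α`, on the second one the `l`-th coordinate is `β`, and the other coordinate is a multiple in `[0, 1]`, all others are `0`).
Step 3: for `k = l` use an index `l' ≠ k` (`N ≥ 2`): `single k α ~ single l' α ~ single k β`. -/
theorem chain (hN : 2 ≤ N) {δ : ℝ} (hδ : 0 ≤ δ) (hδ1 : δ < 1) {P : En N → Prop}
    (hP : ∀ c c', segment ℝ c c' ⊆ U N δ → P c → P c') {c c₀ : En N} (hc : c ∈ U N δ) (hc₀ : c₀ ∈ U N δ) (h : P c) : P c₀ := by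
  obtain ⟨k, α, hα, hα', e1, -⟩ := ChA_step1 hN hδ hδ1 hP hc
  obtain ⟨l, β, hβ, hβ', -, e2⟩ := ChA_step1 hN hδ hδ1 hP hc₀
  refine e2 ?_
  have h1 := e1 h
  by_cases hkl : k = l
  · obtain ⟨l', hl'⟩ : ∃ l' : Fin N, l' ≠ k := by
      haveI : Nontrivial (Fin N) := Fin.nontrivial_iff_two_le.2 hN
      exact exists_ne k
    have h2 := ChA_step2 hP hl'.symm hα hα' hα hα' h1
    subst hkl
    exact ChA_step2 hP hl' hα hα' hβ hβ' h2
  · exact ChA_step2 hP hkl hα hα' hβ hβ' h1

end Pool.Agent.MPca0fc2.ZL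
end

section

/-! Campaign ZL (zero-one law), task SlB: room for perturbations. -/

set_option autoImplicit false

open Metric Set Filter Topology

namespace Pool.Agent.MPca0fc2.ZL

open Pool.Agent.MPca0fc2.TB (En)

variable {n N : ℕ}

private theorem SlB_open (δ : ℝ) : IsOpen (U N δ) := by
  have h : U N δ = (⋂ j : Fin N, {w : En N | ‖w j‖ < 1}) ∩ {w : En N | δ < ‖w‖} := by
    ext w
    simp only [U, mem_setOf_eq, mem_inter_iff, mem_iInter]
  rw [h]
  refine IsOpen.inter (isOpen_iInter_of_finite fun j => ?_) (isOpen_lt continuous_const continuous_norm)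
  refine isOpen_lt ?_ continuous_const
  exact (continuous_apply j |>.comp (PiLp.continuous_ofLp 2 _)).norm

private theorem SlB_near {δ : ℝ} {f : En n → En N} (hf : AU δ f) :
    ∃ θ : ℝ, 0 < θ ∧ ∀ z ∈ closedBall (0 : En n) 1, ∀ w : En N, ‖w - f z‖ ≤ θ → w ∈ U N δ := by
  have hK : IsCompact (f '' closedBall (0 : En n) 1) := (isCompact_closedBall 0 1).image_of_continuousOn hf.2.1
  have hsub : f '' closedBall (0 : En n) 1 ⊆ U N δ := by
    rintro _ ⟨z, hz, rfl⟩
    exact hf.2.2 z hz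
  obtain ⟨θ, hθ, h⟩ := hK.exists_thickening_subset_open (SlB_open δ) hsub
  refine ⟨θ / 2, by linarith, ?_⟩
  intro z hz w hw
  apply h
  rw [mem_thickening_iff]
  refine ⟨f z, mem_image_of_mem f hz, ?_⟩
  rw [dist_eq_norm]
  linarith

/-- The room. PROOF. Compactness of `closedBall 0 1` (nonempty): the continuous functions `‖f z j‖` have maxima `< 1`, the continuous function `‖f z‖` has a minimum `> δ`. `u₀` is the minimum of finitely many positive numbers. (`N = 0` is no problem.) -/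
theorem room {δ : ℝ} {f : En n → En N} (hf : AU δ f) {b : ℝ} (hb : 0 < b) :
    ∃ u₀ : ℝ, 0 < u₀ ∧ u₀ ≤ b ∧ ∀ z ∈ closedBall (0 : En n) 1, (∀ j, ‖f z j‖ ≤ 1 - u₀) ∧ δ + u₀ ≤ ‖f z‖ := by
  obtain ⟨θ, hθ, h⟩ := SlB_near hf
  obtain ⟨z₀, hz₀, hmin⟩ := (isCompact_closedBall (0 : En n) 1).exists_isMinOn
    ⟨0, mem_closedBall_self zero_le_one⟩ hf.2.1.norm
  have hm : δ < ‖f z₀‖ := (hf.2.2 z₀ hz₀).2
  refine ⟨min b (min θ (‖f z₀‖ - δ)), ?_, min_le_left _ _, ?_⟩
  · exact lt_min hb (lt_min hθ (by linarith))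
  intro z hz
  have h1 : min b (min θ (‖f z₀‖ - δ)) ≤ θ := (min_le_right _ _).trans (min_le_left _ _)
  have h2 : min b (min θ (‖f z₀‖ - δ)) ≤ ‖f z₀‖ - δ := (min_le_right _ _).trans (min_le_right _ _)
  constructor
  · intro j
    obtain ⟨p, hp, hpz⟩ : ∃ p : ℂ, ‖p‖ = 1 ∧ ‖f z j + (θ : ℂ) * p‖ = ‖f z j‖ + θ := by
      by_cases h0 : f z j = 0
      · refine ⟨1, norm_one, ?_⟩
        rw [h0, zero_add, mul_one, norm_zero, zero_add, Complex.norm_real, Real.norm_eq_abs, abs_of_pos hθ]
      · have hn : ‖f z j‖ ≠ 0 := norm_ne_zero_iff.2 h0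
        have hn' : (0 : ℝ) < ‖f z j‖ := norm_pos_iff.2 h0
        refine ⟨f z j / ‖f z j‖, ?_, ?_⟩
        · rw [norm_div, Complex.norm_real, norm_norm, div_self hn]
        · have e : f z j + (θ : ℂ) * (f z j / ‖f z j‖) = (((1 + θ / ‖f z j‖ : ℝ)) : ℂ) * f z j := by
            push_cast
            ring
          rw [e, norm_mul, Complex.norm_real, Real.norm_eq_abs, abs_of_pos (by positivity)]
          field_simp
    have hw : f z + EuclideanSpace.single j ((θ : ℂ) * p) ∈ U N δ := by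
      apply h z hz
      rw [add_sub_cancel_left, EuclideanSpace.norm_single, norm_mul, hp, mul_one, Complex.norm_real,
        Real.norm_eq_abs, abs_of_pos hθ]
    have hwj := hw.1 j
    have e : (f z + EuclideanSpace.single j ((θ : ℂ) * p)) j = f z j + (θ : ℂ) * p := by
      simp
    rw [e, hpz] at hwj
    linarith
  · have := hmin hz
    simp only [mem_setOf_eq] at this
    linarith

/-- Values near a compact set of values are allowed. PROOF. `f '' closedBall 0 1` is compact and contained in the open set `U N δ` (finitely many strict inequalities between continuous functions): `IsCompact.exists_thickening_subset_open`. -/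
theorem near_vals {δ : ℝ} {f : En n → En N} (hf : AU δ f) :
    ∃ θ : ℝ, 0 < θ ∧ ∀ z ∈ closedBall (0 : En n) 1, ∀ w : En N, ‖w - f z‖ ≤ θ → w ∈ U N δ :=
  SlB_near hf

end Pool.Agent.MPca0fc2.ZL
end
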