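import Pool.Agent.Lib.MP_ca0fc2_an.TB.Defs
import Pool.Agent.Lib.MP_ca0fc2_an.Mg.G089

section

/-! Campaign ZL (zero-one law), task ThA: a function in the ball algebra with values near `[0, 1]`, which is near `1` at `p` and near `0` away from `p`. -/

set_option autoImplicit false

open Metric Set Filter Topology

namespace Pool.Agent.MPca0fc2.ZL

open Pool.Agent.MPca0fc2.TB (En)

variable {n : ℕ}

/-- Powers of `W`. PROOF. `W ^ a = 0` for `W = 0`. Otherwise `‖W ^ (a : ℂ)‖ = ‖W‖ ^ a ∈ [0, 1]` and the argument of `W ^ a` is `a arg W`, `|a arg W| ≤ a π / 2`: with `t = ‖W‖ ^ a`, `‖W ^ a - t‖ = t ‖exp (i a arg W) - 1‖ ≤ |a arg W| ≤ 2 a` (`‖exp (i x) - 1‖ ≤ |x|`, `Real.pi < 4`). -/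
theorem pow_near {W : ℂ} (hW : 0 ≤ W.re) (hW1 : ‖W‖ ≤ 1) {a : ℝ} (ha : 0 < a) :
    ‖W ^ (a : ℂ) - ((‖W‖ ^ a : ℝ) : ℂ)‖ ≤ 2 * a ∧ ‖W‖ ^ a ∈ Icc (0 : ℝ) 1 := by
  have h2 : ‖W‖ ^ a ∈ Icc (0 : ℝ) 1 :=
    ⟨Real.rpow_nonneg (norm_nonneg _) _, Real.rpow_le_one (norm_nonneg _) hW1 ha.le⟩
  refine ⟨?_, h2⟩
  by_cases h0 : W = 0
  · have ha' : (a : ℂ) ≠ 0 := by exact_mod_cast ha.ne'
    rw [h0, Complex.zero_cpow ha', norm_zero, Real.zero_rpow ha.ne']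
    simp
    positivity
  · have hn : 0 < ‖W‖ := norm_pos_iff.2 h0
    have e1 : W ^ (a : ℂ) = ((‖W‖ ^ a : ℝ) : ℂ) * Complex.exp (Complex.I * ((a * Complex.arg W : ℝ) : ℂ)) := by
      rw [Complex.cpow_def_of_ne_zero h0, Real.rpow_def_of_pos hn, Complex.ofReal_exp, ← Complex.exp_add]
      congr 1
      unfold Complex.log
      push_cast
      ring
    rw [e1, show ((‖W‖ ^ a : ℝ) : ℂ) * Complex.exp (Complex.I * ((a * Complex.arg W : ℝ) : ℂ)) - ((‖W‖ ^ a : ℝ) : ℂ)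
      = ((‖W‖ ^ a : ℝ) : ℂ) * (Complex.exp (Complex.I * ((a * Complex.arg W : ℝ) : ℂ)) - 1) by ring, norm_mul,
      Complex.norm_real, Real.norm_of_nonneg h2.1]
    have h3 : ‖Complex.exp (Complex.I * ((a * Complex.arg W : ℝ) : ℂ)) - 1‖ ≤ ‖a * Complex.arg W‖ :=
      Real.norm_exp_I_mul_ofReal_sub_one_le
    have h4 : |Complex.arg W| ≤ Real.pi / 2 := Complex.abs_arg_le_pi_div_two_iff.2 hW
    have h5 : ‖a * Complex.arg W‖ ≤ 2 * a := by
      rw [Real.norm_eq_abs, abs_mul, abs_of_pos ha]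
      have := Real.pi_lt_four
      nlinarith
    calc ‖W‖ ^ a * ‖Complex.exp (Complex.I * ((a * Complex.arg W : ℝ) : ℂ)) - 1‖
        ≤ 1 * (2 * a) := mul_le_mul h2.2 (h3.trans h5) (norm_nonneg _) zero_le_one
      _ = 2 * a := one_mul _

/-- PROOF. WLOG `τ ≤ 1`. `w z = 1 - inner ℂ p z` (linear in `z`); on `closedBall 0 1`: `Re w ≥ ‖z - p‖² / 2` (`‖z - p‖² = ‖z‖² + 1 - 2 Re (inner ℂ p z)`), `‖w z‖ = ‖inner ℂ p (p - z)‖ ≤ ‖z - p‖`. For `0 < t`: `W = w / (w + t)`; `w + t ≠ 0` (positive real part); `‖W‖ ≤ 1`, `Re W ≥ 0`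
(`Re (w (conj w + t)) = ‖w‖² + t Re w ≥ 0`), `W = 1 - t / (w + t)`, `‖W - 1‖ ≤ t / ‖w‖` if `w ≠ 0`. `a = τ / 8`, `u = 1 - W ^ a` (complex power, principal branch). Holomorphic on `ball 0 1`: there `Re w > 0` (`z ≠ p`), so `Re (w (conj w + t)) > 0` and `W` is in the slit plane.
Continuous on `closedBall 0 1`: `Re W = (‖w‖² + t Re w) / ‖w + t‖² > 0` as soon as `w ≠ 0`, so `W` is in the slit plane; at points with `w z = 0` (`z = p`): `W = 0` and `W ↦ W ^ a` is continuous at `0` for `a > 0` (its norm is `‖W‖ ^ a`). `u p = 1 - 0 ^ a = 1`.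
(i) `pow_near`: `‖u - (1 - ‖W‖ ^ a)‖ ≤ 2 a ≤ τ`, `1 - ‖W‖^a ∈ [0, 1]`. (ii) `‖z - p‖ ≥ s`: `‖w‖ ≥ s² / 2`, `‖W - 1‖ ≤ 2 t / s²`, so `‖W‖ ≥ 1 - 2 t / s²`, `‖W‖ ^ a ≥ ‖W‖` (as `a ≤ 1`), `‖u‖ ≤ 2 a + (1 - ‖W‖^a) ≤ τ / 4 + 2 t / s² ≤ τ` for `t = s² τ / 8`.
(iii) `‖z - p‖ ≤ s₂`: `‖W‖ ≤ ‖w‖ / t ≤ s₂ / t` (`‖w + t‖ ≥ t` as `Re w ≥ 0`), `‖u - 1‖ = ‖W‖ ^ a ≤ (s₂ / t) ^ a ≤ τ` for `s₂ = t τ ^ (1 / a)`. -/
theorem thin {p : En n} (hp : ‖p‖ = 1) {s τ : ℝ} (hs : 0 < s) (hτ : 0 < τ) :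
    ∃ (u : En n → ℂ) (s₂ : ℝ), 0 < s₂ ∧ DifferentiableOn ℂ u (ball 0 1) ∧ ContinuousOn u (closedBall 0 1) ∧ u p = 1 ∧
      (∀ z ∈ closedBall (0 : En n) 1, ∃ t : ℝ, t ∈ Icc (0 : ℝ) 1 ∧ ‖u z - t‖ ≤ τ) ∧
      (∀ z ∈ closedBall (0 : En n) 1, s ≤ ‖z - p‖ → ‖u z‖ ≤ τ) ∧
      ∀ z ∈ closedBall (0 : En n) 1, ‖z - p‖ ≤ s₂ → ‖u z - 1‖ ≤ τ := by
  obtain ⟨τ', hτ'0, hτ'1, hτ'τ⟩ : ∃ τ' : ℝ, 0 < τ' ∧ τ' ≤ 1 ∧ τ' ≤ τ :=
    ⟨min τ 1, lt_min hτ one_pos, min_le_right _ _, min_le_left _ _⟩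
  set t : ℝ := s ^ 2 * τ' / 8 with ht
  have ht0 : 0 < t := by positivity
  set a : ℝ := τ' / 8 with ha
  have ha0 : 0 < a := by positivity
  have ha1 : a ≤ 1 := by rw [ha]; linarith
  set w : En n → ℂ := fun z => 1 - inner ℂ p z with hw
  have hwd : Differentiable ℂ w := (differentiable_const _).sub (innerSL ℂ p).differentiable
  have hw1 : ∀ z ∈ closedBall (0 : En n) 1, ‖z - p‖ ^ 2 / 2 ≤ (w z).re := by
    intro z hz
    have hz1 : ‖z‖ ≤ 1 := by simpa using hz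
    have e := @norm_sub_sq ℂ (En n) _ _ _ z p
    rw [hp] at e
    have e2 : RCLike.re (inner ℂ z p) = (inner ℂ p z : ℂ).re := by
      rw [inner_re_symm]; rfl
    rw [e2] at e
    have e3 : (w z).re = 1 - (inner ℂ p z : ℂ).re := by simp [hw]
    rw [e3]
    nlinarith [norm_nonneg z]
  have hw2 : ∀ z, ‖w z‖ ≤ ‖z - p‖ := by
    intro z
    have e : w z = inner ℂ p (p - z) := by
      rw [inner_sub_right, inner_self_eq_norm_sq_to_K, hp]
      simp [hw]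
    rw [e]
    calc ‖inner ℂ p (p - z)‖ ≤ ‖p‖ * ‖p - z‖ := norm_inner_le_norm _ _
      _ = ‖z - p‖ := by rw [hp, one_mul, norm_sub_rev]
  have hre0 : ∀ z ∈ closedBall (0 : En n) 1, 0 ≤ (w z).re := fun z hz =>
    (by positivity : (0 : ℝ) ≤ ‖z - p‖ ^ 2 / 2).trans (hw1 z hz)
  have hden : ∀ z ∈ closedBall (0 : En n) 1, w z + (t : ℂ) ≠ 0 := by
    intro z hz h
    have h1 := congrArg Complex.re h
    rw [Complex.add_re, Complex.ofReal_re, Complex.zero_re] at h1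
    linarith [hre0 z hz]
  set V : En n → ℂ := fun z => w z / (w z + (t : ℂ)) with hV
  have hnden : ∀ z ∈ closedBall (0 : En n) 1, ‖w z‖ ≤ ‖w z + (t : ℂ)‖ ∧ t ≤ ‖w z + (t : ℂ)‖ := by
    intro z hz
    have h0 := hre0 z hz
    constructor
    · rw [← sq_le_sq₀ (norm_nonneg _) (norm_nonneg _), Complex.sq_norm, Complex.sq_norm, Complex.normSq_apply,
        Complex.normSq_apply, Complex.add_re, Complex.add_im, Complex.ofReal_re, Complex.ofReal_im]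
      nlinarith [mul_nonneg h0 ht0.le]
    · calc t ≤ (w z + (t : ℂ)).re := by rw [Complex.add_re, Complex.ofReal_re]; linarith
        _ ≤ ‖w z + (t : ℂ)‖ := Complex.re_le_norm _
  have hdpos : ∀ z ∈ closedBall (0 : En n) 1, 0 < ‖w z + (t : ℂ)‖ := fun z hz => norm_pos_iff.2 (hden z hz)
  have hV1 : ∀ z ∈ closedBall (0 : En n) 1, ‖V z‖ ≤ 1 := by
    intro z hz
    simp only [hV]
    rw [norm_div, div_le_one (hdpos z hz)]
    exact (hnden z hz).1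
  have hVre : ∀ z ∈ closedBall (0 : En n) 1, (V z).re = (Complex.normSq (w z) + t * (w z).re) / Complex.normSq (w z + (t : ℂ)) := by
    intro z hz
    simp only [hV]
    rw [Complex.div_re, Complex.add_re, Complex.add_im, Complex.ofReal_re, Complex.ofReal_im, ← add_div,
      Complex.normSq_apply (w z)]
    congr 1
    ring
  have hV2 : ∀ z ∈ closedBall (0 : En n) 1, 0 ≤ (V z).re := by
    intro z hz
    rw [hVre z hz]
    exact div_nonneg (add_nonneg (Complex.normSq_nonneg _) (mul_nonneg ht0.le (hre0 z hz))) (Complex.normSq_nonneg _)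
  have hVc : ContinuousOn V (closedBall (0 : En n) 1) :=
    hwd.continuous.continuousOn.div (hwd.continuous.add continuous_const).continuousOn hden
  have hVp : V p = 0 := by
    have : w p = 0 := by
      simp only [hw]
      rw [inner_self_eq_norm_sq_to_K, hp]
      simp
    simp only [hV]
    rw [this, zero_div]
  have hane : (a : ℂ) ≠ 0 := by exact_mod_cast ha0.ne'
  refine ⟨fun z => 1 - V z ^ (a : ℂ), t * τ' ^ (1 / a), by positivity, ?_, ?_, ?_, ?_, ?_, ?_⟩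
  · intro z hz
    have hz' : z ∈ closedBall (0 : En n) 1 := ball_subset_closedBall hz
    have hzp : 0 < ‖z - p‖ := by
      rw [norm_pos_iff, sub_ne_zero]
      rintro rfl
      rw [mem_ball_zero_iff, hp] at hz
      exact lt_irrefl _ hz
    have hre : 0 < (w z).re := lt_of_lt_of_le (by positivity) (hw1 z hz')
    have hVpos : 0 < (V z).re := by
      rw [hVre z hz']
      have h1 : 0 < Complex.normSq (w z + (t : ℂ)) := Complex.normSq_pos.2 (hden z hz')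
      have h2 : 0 < t * (w z).re := mul_pos ht0 hre
      have h3 := Complex.normSq_nonneg (w z)
      positivity
    have h3 : DifferentiableAt ℂ (fun z => w z + (t : ℂ)) z := (hwd z).add_const _
    have hVd : DifferentiableAt ℂ V z := by
      have h4 := (hwd z).mul (h3.fun_inv (hden z hz'))
      have h5 : V = fun z => w z * (w z + (t : ℂ))⁻¹ := by
        funext z
        simp only [hV, div_eq_mul_inv]
      rw [h5]
      exact h4
    have h1 : DifferentiableAt ℂ (fun z => V z ^ (a : ℂ)) z :=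
      hVd.cpow (differentiableAt_const _) (Or.inl hVpos)
    exact ((differentiableAt_const _).sub h1).differentiableWithinAt
  · intro z hz
    have h1 : ContinuousAt (fun x : ℂ => x ^ (a : ℂ)) (V z) :=
      Complex.continuousAt_cpow_const_of_re_pos (Or.inl (hV2 z hz)) (by simpa using ha0)
    have h2 : ContinuousWithinAt (fun z => V z ^ (a : ℂ)) (closedBall (0 : En n) 1) z :=
      ContinuousAt.comp_continuousWithinAt (g := fun x : ℂ => x ^ (a : ℂ)) h1 (hVc z hz)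
    exact continuousWithinAt_const.sub h2
  · simp only
    rw [hVp, Complex.zero_cpow hane, sub_zero]
  · intro z hz
    have h := pow_near (hV2 z hz) (hV1 z hz) ha0
    refine ⟨1 - ‖V z‖ ^ a, ⟨by linarith [h.2.2], by linarith [h.2.1]⟩, ?_⟩
    have e : (1 - V z ^ (a : ℂ)) - ((1 - ‖V z‖ ^ a : ℝ) : ℂ) = -(V z ^ (a : ℂ) - ((‖V z‖ ^ a : ℝ) : ℂ)) := by
      push_cast
      ring
    rw [e, norm_neg]
    refine h.1.trans ?_
    rw [ha]
    linarith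
  · intro z hz hsz
    have h := pow_near (hV2 z hz) (hV1 z hz) ha0
    have hwz : s ^ 2 / 2 ≤ ‖w z‖ := by
      calc s ^ 2 / 2 ≤ ‖z - p‖ ^ 2 / 2 := by
            have := pow_le_pow_left₀ hs.le hsz 2
            linarith
        _ ≤ (w z).re := hw1 z hz
        _ ≤ ‖w z‖ := Complex.re_le_norm _
    have hV3 : 1 - τ' / 4 ≤ ‖V z‖ := by
      have e : V z = 1 - (t : ℂ) / (w z + (t : ℂ)) := by
        simp only [hV]
        rw [eq_sub_iff_add_eq, ← add_div, div_self (hden z hz)]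
      have h1 : ‖(t : ℂ) / (w z + (t : ℂ))‖ ≤ τ' / 4 := by
        rw [norm_div, Complex.norm_real, Real.norm_of_nonneg ht0.le, div_le_iff₀ (hdpos z hz)]
        have h2 := hwz.trans (hnden z hz).1
        calc t = τ' / 4 * (s ^ 2 / 2) := by rw [ht]; ring
          _ ≤ τ' / 4 * ‖w z + (t : ℂ)‖ := mul_le_mul_of_nonneg_left h2 (by positivity)
      calc 1 - τ' / 4 ≤ ‖(1 : ℂ)‖ - ‖(t : ℂ) / (w z + (t : ℂ))‖ := by rw [norm_one]; linarith
        _ ≤ ‖(1 : ℂ) - (t : ℂ) / (w z + (t : ℂ))‖ := norm_sub_norm_le _ _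
        _ = ‖V z‖ := by rw [e]
    have hV4 : ‖V z‖ ≤ ‖V z‖ ^ a := by
      rcases (norm_nonneg (V z)).eq_or_lt with h0 | h0
      · rw [← h0, Real.zero_rpow ha0.ne']
      · calc ‖V z‖ = ‖V z‖ ^ (1 : ℝ) := (Real.rpow_one _).symm
          _ ≤ ‖V z‖ ^ a := Real.rpow_le_rpow_of_exponent_ge h0 (hV1 z hz) ha1
    have e : (1 : ℂ) - V z ^ (a : ℂ) = ((1 - ‖V z‖ ^ a : ℝ) : ℂ) - (V z ^ (a : ℂ) - ((‖V z‖ ^ a : ℝ) : ℂ)) := by
      push_cast
      ring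
    simp only
    rw [e]
    refine (norm_sub_le _ _).trans ?_
    rw [Complex.norm_real, Real.norm_of_nonneg (by linarith [h.2.2])]
    have h5 := h.1
    have h6 : 2 * a = τ' / 4 := by rw [ha]; ring
    linarith
  · intro z hz hsz
    simp only
    have e : (1 : ℂ) - V z ^ (a : ℂ) - 1 = -(V z ^ (a : ℂ)) := by ring
    rw [e, norm_neg]
    have hV3 : ‖V z‖ ≤ τ' ^ (1 / a) := by
      simp only [hV]
      rw [norm_div, div_le_iff₀ (hdpos z hz)]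
      calc ‖w z‖ ≤ ‖z - p‖ := hw2 z
        _ ≤ t * τ' ^ (1 / a) := hsz
        _ = τ' ^ (1 / a) * t := mul_comm _ _
        _ ≤ τ' ^ (1 / a) * ‖w z + (t : ℂ)‖ :=
            mul_le_mul_of_nonneg_left (hnden z hz).2 (Real.rpow_nonneg hτ'0.le _)
    have hV5 : ‖V z ^ (a : ℂ)‖ = ‖V z‖ ^ a := by
      by_cases h0 : V z = 0
      · rw [h0, Complex.zero_cpow hane, norm_zero, Real.zero_rpow ha0.ne']
      · rw [Complex.norm_cpow_of_ne_zero h0]
        simp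
    rw [hV5]
    calc ‖V z‖ ^ a ≤ (τ' ^ (1 / a)) ^ a := Real.rpow_le_rpow (norm_nonneg _) hV3 ha0.le
      _ = τ' := by
          rw [← Real.rpow_mul hτ'0.le, one_div, inv_mul_cancel₀ ha0.ne', Real.rpow_one]
      _ ≤ τ := hτ'τ

end Pool.Agent.MPca0fc2.ZL
end

section

/-! Campaign ZL (zero-one law), task MvA: the data are moved near a boundary point `p` so that they have a given value at `p`. -/

set_option autoImplicit false

open Metric Set Filter Topology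

namespace Pool.Agent.MPca0fc2.ZL

open Pool.Agent.MPca0fc2.TB (En)

variable {n N : ℕ}

private lemma MvA_isOpen_U (δ : ℝ) : IsOpen (U N δ) := by
  have h1 : IsOpen {w : En N | ∀ j, ‖w j‖ < 1} := by
    have h : {w : En N | ∀ j, ‖w j‖ < 1} = ⋂ j, {w : En N | ‖w j‖ < 1} := by
      ext w; simp
    rw [h]
    exact isOpen_iInter_of_finite fun j =>
      isOpen_lt (by fun_prop) continuous_const
  have h2 : IsOpen {w : En N | δ < ‖w‖} := isOpen_lt continuous_const continuous_norm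
  exact h1.inter h2

/-- PROOF. `chain` with `P c = ∀ s > 0, ∀ ε > 0, ∃ F, AU δ F ∧ F p = c ∧ ∀ z ∈ closedBall 0 1, s ≤ ‖z - p‖ → ‖F z - f z‖ ≤ ε`, from `f p ∈ U N δ` (`p ∈ closedBall 0 1`) to `c₀`. `P (f p)`: `F = f`.
Step: let `P c`, `segment ℝ c c' ⊆ U N δ`; given `s`, `ε`. `F` from `P c` for `s`, `ε / 2`. The segment is compact and `U N δ` is open: `θ₁ > 0` such that all points at distance `≤ θ₁` from the segment are in `U N δ`; `θ₂` from `near_vals` for `F`. `θ = min (min θ₁ θ₂) ε / 2`.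
Continuity of `F` at `p`: `0 < ρ ≤ s` with `‖F z - c‖ ≤ θ` for `z ∈ closedBall 0 1`, `‖z - p‖ < ρ`. `thin` with `ρ` and `τ = θ / (1 + ‖c' - c‖)`: `u`. `F' z = F z + u z • (c' - c)`. `F' p = c + (c' - c) = c'`.
`ρ ≤ ‖z - p‖`: `‖F' z - F z‖ ≤ τ ‖c' - c‖ ≤ θ`, so `F' z ∈ U N δ`; if `s ≤ ‖z - p‖`, `‖F' z - f z‖ ≤ ε / 2 + θ ≤ ε`. `‖z - p‖ < ρ`: with `t ∈ [0, 1]`, `‖u z - t‖ ≤ τ`: `‖F' z - (c + t • (c' - c))‖ ≤ θ + τ ‖c' - c‖ ≤ 2 θ ≤ θ₁`, and `c + t • (c' - c)` is in the segment. -/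
theorem move (hN : 2 ≤ N) {δ : ℝ} (hδ : 0 ≤ δ) (hδ1 : δ < 1) {f : En n → En N} (hf : AU δ f) {p : En n} (hp : ‖p‖ = 1)
    {c₀ : En N} (hc₀ : c₀ ∈ U N δ) {s ε : ℝ} (hs : 0 < s) (hε : 0 < ε) :
    ∃ F : En n → En N, AU δ F ∧ F p = c₀ ∧ ∀ z ∈ closedBall (0 : En n) 1, s ≤ ‖z - p‖ → ‖F z - f z‖ ≤ ε := by
  have hpb : p ∈ closedBall (0 : En n) 1 := by
    rw [mem_closedBall, dist_zero_right, hp]
  have key := chain (N := N) hN hδ hδ1
    (P := fun c => ∀ s : ℝ, 0 < s → ∀ ε : ℝ, 0 < ε → ∃ F : En n → En N, AU δ F ∧ F p = c ∧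
      ∀ z ∈ closedBall (0 : En n) 1, s ≤ ‖z - p‖ → ‖F z - f z‖ ≤ ε) ?_
    (hf.2.2 p hpb) hc₀ ?_
  · exact key s hs ε hε
  · -- step
    intro c c' hseg hPc s hs ε hε
    obtain ⟨F, hF, hFp, hFf⟩ := hPc s hs (ε / 2) (by linarith)
    obtain ⟨hFd, hFc, hFU⟩ := hF
    obtain ⟨θ₁, hθ₁, hθ₁U⟩ : ∃ θ₁ : ℝ, 0 < θ₁ ∧ thickening θ₁ (segment ℝ c c') ⊆ U N δ := by
      have hcomp : IsCompact (segment ℝ c c') := by
        rw [segment_eq_image']
        exact isCompact_Icc.image (by fun_prop)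
      exact hcomp.exists_thickening_subset_open (MvA_isOpen_U δ) hseg
    obtain ⟨θ₂, hθ₂, hθ₂U⟩ := near_vals (δ := δ) (f := F) ⟨hFd, hFc, hFU⟩
    obtain ⟨θ, hθ, hθθ₁, hθθ₂, hθε⟩ : ∃ θ : ℝ, 0 < θ ∧ 2 * θ < θ₁ ∧ θ ≤ θ₂ ∧ θ ≤ ε / 2 := by
      refine ⟨min (min (θ₁ / 4) θ₂) (ε / 2), by positivity, ?_, ?_, min_le_right _ _⟩
      · have h := (min_le_left (min (θ₁ / 4) θ₂) (ε / 2)).trans (min_le_left _ _)
        linarith
      · exact (min_le_left (min (θ₁ / 4) θ₂) (ε / 2)).trans (min_le_right _ _)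
    obtain ⟨ρ, hρ, hρF⟩ : ∃ ρ : ℝ, 0 < ρ ∧ ∀ z ∈ closedBall (0 : En n) 1, ‖z - p‖ < ρ → ‖F z - c‖ ≤ θ := by
      have h := Metric.continuousWithinAt_iff.mp (hFc p hpb) θ hθ
      obtain ⟨ρ, hρ, h⟩ := h
      refine ⟨ρ, hρ, fun z hz hzp => ?_⟩
      have h1 := h hz (by rw [dist_eq_norm]; exact hzp)
      rw [dist_eq_norm, hFp] at h1
      exact h1.le
    obtain ⟨ρ', hρ', hρρ', hρs⟩ : ∃ ρ' : ℝ, 0 < ρ' ∧ ρ' ≤ ρ ∧ ρ' ≤ s :=
      ⟨min ρ s, lt_min hρ hs, min_le_left _ _, min_le_right _ _⟩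
    have hden : 0 < 1 + ‖c' - c‖ := by positivity
    obtain ⟨u, s₂, hs₂, hud, huc, hup, hut, hus, -⟩ := thin (n := n) hp (s := ρ')
      (τ := θ / (1 + ‖c' - c‖)) hρ' (by positivity)
    have hτ : θ / (1 + ‖c' - c‖) * ‖c' - c‖ ≤ θ := by
      rw [div_mul_eq_mul_div, div_le_iff₀ hden]
      have := norm_nonneg (c' - c)
      nlinarith
    have hbd : ∀ (a : ℂ), ‖a‖ ≤ θ / (1 + ‖c' - c‖) → ‖a • (c' - c)‖ ≤ θ := by
      intro a ha
      rw [norm_smul]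
      exact (mul_le_mul_of_nonneg_right ha (norm_nonneg _)).trans hτ
    refine ⟨fun z => F z + u z • (c' - c), ⟨?_, ?_, ?_⟩, ?_, ?_⟩
    · exact hFd.add (hud.smul_const (c' - c))
    · exact hFc.add (huc.smul continuousOn_const)
    · intro z hz
      rcases le_or_gt ρ' ‖z - p‖ with h | h
      · apply hθ₂U z hz
        have : F z + u z • (c' - c) - F z = u z • (c' - c) := by abel
        rw [this]
        exact (hbd _ (hus z hz h)).trans hθθ₂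
      · apply hθ₁U
        obtain ⟨t, ht, htu⟩ := hut z hz
        rw [mem_thickening_iff]
        refine ⟨c + ((t : ℝ) : ℂ) • (c' - c), ?_, ?_⟩
        · rw [segment_eq_image']
          refine ⟨t, ht, ?_⟩
          simp only [Complex.coe_smul]
        · rw [dist_eq_norm]
          have he : F z + u z • (c' - c) - (c + ((t : ℝ) : ℂ) • (c' - c)) =
              (F z - c) + (u z - (t : ℂ)) • (c' - c) := by
            rw [sub_smul]; abel
          rw [he]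
          calc ‖(F z - c) + (u z - (t : ℂ)) • (c' - c)‖ ≤ ‖F z - c‖ + ‖(u z - (t : ℂ)) • (c' - c)‖ := norm_add_le _ _
            _ ≤ θ + θ := add_le_add (hρF z hz (lt_of_lt_of_le h hρρ')) (hbd _ htu)
            _ < θ₁ := by linarith
    · simp only [hFp, hup, one_smul]
      abel
    · intro z hz hzs
      have he : F z + u z • (c' - c) - f z = (F z - f z) + u z • (c' - c) := by abel
      simp only [he]
      calc ‖(F z - f z) + u z • (c' - c)‖ ≤ ‖F z - f z‖ + ‖u z • (c' - c)‖ := norm_add_le _ _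
        _ ≤ ε / 2 + θ := add_le_add (hFf z hz hzs) (hbd _ (hus z hz (hρs.trans hzs)))
        _ ≤ ε := by linarith
  · intro s hs ε hε
    refine ⟨f, hf, rfl, fun z hz hzs => ?_⟩
    simp only [sub_self, norm_zero]
    exact hε.le

end Pool.Agent.MPca0fc2.ZL
end

section

/-! Campaign ZL (zero-one law), task StA: the peak functions. -/

set_option autoImplicit false

open Metric Set Filter Topology

namespace Pool.Agent.MPca0fc2.ZL

open Pool.Agent.MPca0fc2.TB (En)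

/-- PROOF. For `‖z‖ ≤ 1`, `‖ξ‖ = 1`: `Re (1 - inner ℂ ξ z) = (‖z - ξ‖² + 1 - ‖z‖²) / 2`. -/
theorem norm_peak {n : ℕ} {ξ z : En n} (hξ : ‖ξ‖ = 1) (hz : ‖z‖ ≤ 1) {m : ℝ} (hm : 0 ≤ m) :
    ‖Complex.exp (-(m : ℂ) * (1 - inner ℂ ξ z))‖ ≤ Real.exp (-(m * ‖z - ξ‖ ^ 2 / 2)) ∧
      (‖z‖ = 1 → ‖Complex.exp (-(m : ℂ) * (1 - inner ℂ ξ z))‖ = Real.exp (-(m * ‖z - ξ‖ ^ 2 / 2))) := by
  have h1 : ‖z - ξ‖ ^ 2 = ‖z‖ ^ 2 - 2 * (inner ℂ ξ z : ℂ).re + 1 := by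
    have h := norm_sub_sq (𝕜 := ℂ) z ξ
    rw [inner_re_symm, hξ] at h
    simp only [RCLike.re_to_complex] at h
    linarith
  have h2 : (-(m : ℂ) * (1 - inner ℂ ξ z)).re = -(m * (‖z - ξ‖ ^ 2 + 1 - ‖z‖ ^ 2) / 2) := by
    simp only [Complex.mul_re, Complex.neg_re, Complex.neg_im, Complex.ofReal_re, Complex.ofReal_im,
      Complex.sub_re, Complex.sub_im, Complex.one_re, Complex.one_im]
    rw [h1]
    ring
  rw [Complex.norm_exp, h2]
  constructor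
  · apply Real.exp_le_exp.mpr
    have h3 : ‖z‖ ^ 2 ≤ 1 := by
      have := norm_nonneg z
      nlinarith
    nlinarith
  · intro hz1
    rw [hz1]
    congr 1
    ring

/-- `GG` is entire. PROOF. `z ↦ inner ℂ ξ z` is a continuous linear form. -/
theorem differentiable_GG {n N : ℕ} (m : ℝ) (T : Finset (En n)) (ω : En n → ℂ) (v : En n → En N) : Differentiable ℂ (GG m T ω v) := by
  unfold GG
  refine Differentiable.fun_sum fun ξ _ => ?_
  have h : Differentiable ℂ (fun z : En n => (inner ℂ ξ z : ℂ)) := (innerSL ℂ ξ).differentiable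
  fun_prop

end Pool.Agent.MPca0fc2.ZL
end
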