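import Pool.Agent.Lib.MP_ca0fc2_an.Mg.G092
import Pool.Agent.Lib.MP_ca0fc2_an.Mg.G089

section

/-! Campaign ZL (zero-one law), task InA: a copy of the data `g` is inserted in the data `f` near the boundary point `p`. -/

set_option autoImplicit false

open Metric Set Filter Topology

namespace Pool.Agent.MPca0fc2.ZL

open Pool.Agent.MPca0fc2.TB (En Trans)

variable {n N : ℕ}

private theorem InA_M {g : En n → En N} (hg : ContinuousOn g (closedBall 0 1)) :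
    ∃ M : ℝ, 1 ≤ M ∧ ∀ z ∈ closedBall (0 : En n) 1, ‖g z‖ ≤ M := by
  obtain ⟨C, hC⟩ := (isCompact_closedBall (0 : En n) 1).exists_bound_of_continuousOn hg
  exact ⟨max C 1, le_max_right _ _, fun z hz => (hC z hz).trans (le_max_left _ _)⟩

private theorem InA_uc {g : En n → En N} (hg : ContinuousOn g (closedBall 0 1)) {θ : ℝ} (hθ : 0 < θ) :
    ∃ ω : ℝ, 0 < ω ∧ ∀ x ∈ closedBall (0 : En n) 1, ∀ y ∈ closedBall (0 : En n) 1,
      ‖x - y‖ ≤ ω → ‖g x - g y‖ ≤ θ := by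
  have h := (isCompact_closedBall (0 : En n) 1).uniformContinuousOn_of_continuous hg
  rw [Metric.uniformContinuousOn_iff_le] at h
  obtain ⟨ω, hω, h⟩ := h θ hθ
  exact ⟨ω, hω, fun x hx y hy hxy => by
    simpa [dist_eq_norm] using h x hx y hy (by simpa [dist_eq_norm] using hxy)⟩

/-- PROOF. `‖e‖ = 1` (first part of `hT`), `c₀ = g (-e) ∈ U N δ`. `closure (ball 0 1) = closedBall 0 1`. `θ > 0` with `3 θ ≤ ε` and: `‖w - g z‖ ≤ 3 θ`, `z ∈ closedBall 0 1` implies `w ∈ U N δ` (`near_vals`). `M ≥ 1` with `‖g z‖ ≤ M` on `closedBall 0 1` (compactness).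
`move` for `f`, `c₀`, `s`, `ε / 2`: `f₁`, `f₁ p = c₀`. `θ₁` from `near_vals` for `f₁`. Continuity of `f₁` at `p`: `0 < ρ ≤ s` with `‖f₁ z - c₀‖ ≤ θ` for `z ∈ closedBall 0 1`, `‖z - p‖ < ρ`. `thin` with `ρ` and `τ = min 1 (min (min θ₁ θ) (ε / 2) / (2 M))`: `u`, `s₂`, WLOG `s₂ ≤ ρ`; `‖u‖ ≤ 1 + τ ≤ 2`.
Uniform continuity of `g` on `closedBall 0 1`: `ω > 0` with `‖x - y‖ ≤ ω → ‖g x - g y‖ ≤ θ`. `ε' = min (ω / 2) (min ε 1 / 2)`, `0 < ε' < 1`, `ε' ≤ ε`. `hT.2` with `ε'`, `s₂`: `Θ`, `ψ`. `k = 1 / (1 + ε')`, `0 < k < 1`, `1 - k ≤ ε'`, `(1 - k) (1 + ε') = ε'`. `G z = g (k • Θ z)`; `‖k • Θ z‖ < 1` for `z ∈ closedBall 0 1`,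
so `G` is holomorphic on `ball 0 1`, continuous on `closedBall 0 1`, `‖G‖ ≤ M`. If `s₂ ≤ ‖z - p‖`: `‖k Θ z - (-e)‖ ≤ (1 - k) ‖Θ z‖ + ‖Θ z + e‖ ≤ 2 ε' ≤ ω`, so `‖G z - c₀‖ ≤ θ`. `F = f₁ + u • (G - c₀)`:
(a) `ρ ≤ ‖z - p‖`: `‖F z - f₁ z‖ ≤ τ 2 M ≤ min θ₁ (ε / 2)`: `F z ∈ U N δ` and, if `s ≤ ‖z - p‖`, `‖F z - f z‖ ≤ ε`. (b) `s₂ ≤ ‖z - p‖ < ρ`: `‖F z - c₀‖ ≤ θ + 2 θ`. (c) `‖z - p‖ < s₂`: `F z - G z = (f₁ z - c₀) + (u z - 1) • (G z - c₀)`, norm `≤ θ + τ 2 M ≤ 2 θ`, and `G z = g (k Θ z)`.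
For `ζ ∈ ball 0 (1 - ε) ⊆ ball 0 (1 - ε')`: `ψ ζ ∈ ball 0 1`, `‖ψ ζ - p‖ < s₂ ≤ s`, `Θ (ψ ζ) = ζ`, `‖F (ψ ζ) - g ζ‖ ≤ ‖F (ψ ζ) - G (ψ ζ)‖ + ‖g (k ζ) - g ζ‖ ≤ 2 θ + θ` (`‖k ζ - ζ‖ ≤ 1 - k ≤ ε' ≤ ω`). -/
theorem insert (hN : 2 ≤ N) {δ : ℝ} (hδ : 0 ≤ δ) (hδ1 : δ < 1) {f g : En n → En N} (hf : AU δ f) (hg : AU δ g) {p e : En n} (hp : ‖p‖ = 1)
    (hT : Trans (ball (0 : En n) 1) p e) {s ε : ℝ} (hs : 0 < s) (hε : 0 < ε) (hε1 : ε < 1) :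
    ∃ F ψ, AU δ F ∧ (∀ z ∈ closedBall (0 : En n) 1, s ≤ ‖z - p‖ → ‖F z - f z‖ ≤ ε) ∧
      DifferentiableOn ℂ ψ (ball 0 (1 - ε)) ∧
      ∀ ζ ∈ ball (0 : En n) (1 - ε), ψ ζ ∈ ball (0 : En n) 1 ∧ ψ ζ ∈ ball p s ∧ ‖F (ψ ζ) - g ζ‖ ≤ ε := by
  obtain ⟨he, hT⟩ := hT
  have hcl : closure (ball (0 : En n) 1) = closedBall 0 1 := closure_ball (0 : En n) one_ne_zero
  rw [hcl] at hT
  have hec : (-e) ∈ closedBall (0 : En n) 1 := by simp [he]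
  have hpc : p ∈ closedBall (0 : En n) 1 := by simp [hp]
  set c₀ : En N := g (-e) with hc₀def
  have hc₀ : c₀ ∈ U N δ := hg.2.2 _ hec
  obtain ⟨θ₀, hθ₀, hθ₀U⟩ := near_vals hg
  obtain ⟨θ, hθ, hθε, hθθ₀⟩ : ∃ θ : ℝ, 0 < θ ∧ 3 * θ ≤ ε ∧ 3 * θ ≤ θ₀ := by
    refine ⟨min ε θ₀ / 3, by positivity, ?_, ?_⟩
    · have := min_le_left ε θ₀; linarith
    · have := min_le_right ε θ₀; linarith
  obtain ⟨M, hM1, hM⟩ := InA_M hg.2.1
  have hM0 : 0 < M := by linarith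
  obtain ⟨f₁, hf₁, hf₁p, hf₁f⟩ := move hN hδ hδ1 hf hp hc₀ hs (half_pos hε)
  obtain ⟨θ₁, hθ₁, hθ₁U⟩ := near_vals hf₁
  -- continuity of `f₁` at `p`
  obtain ⟨ρ, hρ, hρs, hρc⟩ : ∃ ρ : ℝ, 0 < ρ ∧ ρ ≤ s ∧ ∀ z ∈ closedBall (0 : En n) 1, ‖z - p‖ < ρ →
      ‖f₁ z - c₀‖ ≤ θ := by
    have h := hf₁.2.1 p hpc
    rw [Metric.continuousWithinAt_iff] at h
    obtain ⟨r, hr, h⟩ := h θ hθ
    refine ⟨min r s, by positivity, min_le_right _ _, fun z hz hzp => ?_⟩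
    have h2 := h hz (by rw [dist_eq_norm]; exact lt_of_lt_of_le hzp (min_le_left _ _))
    rw [hf₁p, dist_eq_norm] at h2
    exact h2.le
  obtain ⟨τ, hτ, hτ1, hτM1, hτM2, hτM3⟩ : ∃ τ : ℝ, 0 < τ ∧ τ ≤ 1 ∧ τ * (2 * M) ≤ θ₁ ∧
      τ * (2 * M) ≤ θ ∧ τ * (2 * M) ≤ ε / 2 := by
    have h0 : 0 < min (min θ₁ θ) (ε / 2) := by positivity
    have hle : min 1 (min (min θ₁ θ) (ε / 2) / (2 * M)) * (2 * M) ≤ min (min θ₁ θ) (ε / 2) := by
      calc _ ≤ (min (min θ₁ θ) (ε / 2) / (2 * M)) * (2 * M) :=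
            mul_le_mul_of_nonneg_right (min_le_right _ _) (by positivity)
        _ = _ := by field_simp
    refine ⟨min 1 (min (min θ₁ θ) (ε / 2) / (2 * M)), by positivity, min_le_left _ _, ?_, ?_, ?_⟩
    · exact hle.trans ((min_le_left _ _).trans (min_le_left _ _))
    · exact hle.trans ((min_le_left _ _).trans (min_le_right _ _))
    · exact hle.trans (min_le_right _ _)
  obtain ⟨u, s₃, hs₃, hud, huc, -, hu1, hu2, hu3⟩ := thin hp hρ hτ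
  obtain ⟨s₂, hs₂, hs₂ρ, hs₂s₃⟩ : ∃ s₂ : ℝ, 0 < s₂ ∧ s₂ ≤ ρ ∧ s₂ ≤ s₃ :=
    ⟨min ρ s₃, by positivity, min_le_left _ _, min_le_right _ _⟩
  have hu4 : ∀ z ∈ closedBall (0 : En n) 1, ‖z - p‖ ≤ s₂ → ‖u z - 1‖ ≤ τ :=
    fun z hz h => hu3 z hz (h.trans hs₂s₃)
  have hu5 : ∀ z ∈ closedBall (0 : En n) 1, ‖u z‖ ≤ 2 := by
    intro z hz
    obtain ⟨t, ht, htu⟩ := hu1 z hz
    have h1 : ‖(t : ℂ)‖ ≤ 1 := by
      rw [Complex.norm_real, Real.norm_eq_abs, abs_of_nonneg ht.1]; exact ht.2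
    calc ‖u z‖ = ‖(u z - t) + t‖ := by rw [sub_add_cancel]
      _ ≤ ‖u z - t‖ + ‖(t : ℂ)‖ := norm_add_le _ _
      _ ≤ τ + 1 := add_le_add htu h1
      _ ≤ 2 := by linarith
  obtain ⟨ω, hω, hωg⟩ := InA_uc hg.2.1 hθ
  obtain ⟨ε', hε'0, hε'1, hε'ε, hε'ω⟩ : ∃ ε' : ℝ, 0 < ε' ∧ ε' < 1 ∧ ε' ≤ ε ∧ 2 * ε' ≤ ω := by
    refine ⟨min (ω / 2) ε, by positivity, ?_, min_le_right _ _, ?_⟩
    · exact lt_of_le_of_lt (min_le_right _ _) hε1
    · have := min_le_left (ω / 2) ε; linarith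
  obtain ⟨Θ, ψ, hΘd, hΘc, hΘ1, hΘe, hψd, hψ⟩ := hT ε' hε'0 hε'1 s₂ hs₂
  obtain ⟨k, hk0, hk1, hk2, hk3⟩ : ∃ k : ℝ, 0 < k ∧ k < 1 ∧ 1 - k ≤ ε' ∧ k * (1 + ε') = 1 := by
    have h1 : (0 : ℝ) < 1 + ε' := by linarith
    refine ⟨1 / (1 + ε'), by positivity, ?_, ?_, by field_simp⟩
    · rw [div_lt_one h1]; linarith
    · have h2 : 1 / (1 + ε') * (1 + ε') = 1 := by field_simp
      have h3 : 0 < 1 / (1 + ε') := by positivity
      have h4 : 1 / (1 + ε') < 1 := by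
        rw [div_lt_one h1]; linarith
      nlinarith
  set G : En n → En N := fun z => g ((k : ℂ) • Θ z) with hG
  have hkn : ‖(k : ℂ)‖ = k := by
    rw [Complex.norm_real, Real.norm_eq_abs, abs_of_pos hk0]
  have hkΘ : ∀ z ∈ closedBall (0 : En n) 1, ‖(k : ℂ) • Θ z‖ < 1 := by
    intro z hz
    rw [norm_smul, hkn, ← hk3]
    exact mul_lt_mul_of_pos_left (hΘ1 z hz) hk0
  have hkΘb : ∀ z ∈ closedBall (0 : En n) 1, (k : ℂ) • Θ z ∈ ball (0 : En n) 1 := fun z hz => by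
    simpa using hkΘ z hz
  have hkΘc : ∀ z ∈ closedBall (0 : En n) 1, (k : ℂ) • Θ z ∈ closedBall (0 : En n) 1 := fun z hz =>
    ball_subset_closedBall (hkΘb z hz)
  have hGd : DifferentiableOn ℂ G (ball 0 1) :=
    hg.1.comp (hΘd.const_smul (k : ℂ)) fun z hz => hkΘb z (ball_subset_closedBall hz)
  have hGc : ContinuousOn G (closedBall 0 1) :=
    hg.2.1.comp (hΘc.const_smul (k : ℂ)) fun z hz => hkΘc z hz
  have hGM : ∀ z ∈ closedBall (0 : En n) 1, ‖G z - c₀‖ ≤ 2 * M := by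
    intro z hz
    calc ‖G z - c₀‖ ≤ ‖G z‖ + ‖c₀‖ := norm_sub_le _ _
      _ ≤ M + M := add_le_add (hM _ (hkΘc z hz)) (hM _ hec)
      _ = 2 * M := by ring
  have hGθ : ∀ z ∈ closedBall (0 : En n) 1, s₂ ≤ ‖z - p‖ → ‖G z - c₀‖ ≤ θ := by
    intro z hz hzs
    refine hωg _ (hkΘc z hz) _ hec ?_
    have h1 : (k : ℂ) • Θ z - -e = (Θ z + e) - ((1 - k : ℝ) : ℂ) • Θ z := by
      push_cast
      rw [sub_smul, one_smul]
      abel
    have h2 : ‖((1 - k : ℝ) : ℂ) • Θ z‖ ≤ ε' := by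
      rw [norm_smul, Complex.norm_real, Real.norm_eq_abs, abs_of_pos (by linarith : 0 < 1 - k)]
      calc (1 - k) * ‖Θ z‖ ≤ (1 - k) * (1 + ε') :=
            mul_le_mul_of_nonneg_left (hΘ1 z hz).le (by linarith)
        _ = ε' := by linarith [hk3, (by ring : (1 - k) * (1 + ε') = 1 + ε' - k * (1 + ε'))]
    rw [h1]
    calc _ ≤ ‖Θ z + e‖ + ‖((1 - k : ℝ) : ℂ) • Θ z‖ := norm_sub_le _ _
      _ ≤ ε' + ε' := add_le_add (hΘe z hz hzs) h2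
      _ ≤ ω := by linarith
  set F : En n → En N := fun z => f₁ z + u z • (G z - c₀) with hF
  have hFd : DifferentiableOn ℂ F (ball 0 1) := hf₁.1.add (hud.smul (hGd.sub_const c₀))
  have hFc : ContinuousOn F (closedBall 0 1) :=
    hf₁.2.1.add (huc.smul (hGc.sub continuousOn_const))
  have hFf : ∀ z, F z - f₁ z = u z • (G z - c₀) := fun z => by simp [hF]
  have hca : ∀ z ∈ closedBall (0 : En n) 1, ρ ≤ ‖z - p‖ → ‖F z - f₁ z‖ ≤ τ * (2 * M) := by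
    intro z hz hzρ
    rw [hFf, norm_smul]
    exact mul_le_mul (hu2 z hz hzρ) (hGM z hz) (norm_nonneg _) hτ.le
  have hcc : ∀ z ∈ closedBall (0 : En n) 1, ‖z - p‖ < s₂ → ‖F z - G z‖ ≤ 2 * θ := by
    intro z hz hzs
    have h1 : F z - G z = (f₁ z - c₀) + (u z - 1) • (G z - c₀) := by
      simp only [hF]
      rw [sub_smul, one_smul]
      abel
    rw [h1]
    calc _ ≤ ‖f₁ z - c₀‖ + ‖(u z - 1) • (G z - c₀)‖ := norm_add_le _ _
      _ ≤ θ + τ * (2 * M) := by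
          refine add_le_add (hρc z hz (lt_of_lt_of_le hzs hs₂ρ)) ?_
          rw [norm_smul]
          exact mul_le_mul (hu4 z hz hzs.le) (hGM z hz) (norm_nonneg _) hτ.le
      _ ≤ 2 * θ := by linarith
  have hFU : ∀ z ∈ closedBall (0 : En n) 1, F z ∈ U N δ := by
    intro z hz
    rcases le_or_gt ρ ‖z - p‖ with h1 | h1
    · exact hθ₁U z hz _ ((hca z hz h1).trans hτM1)
    · rcases le_or_gt s₂ ‖z - p‖ with h2 | h2
      · refine hθ₀U (-e) hec _ ?_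
        have h3 : F z - g (-e) = (f₁ z - c₀) + u z • (G z - c₀) := by
          simp only [hF, hc₀def]
          abel
        rw [h3]
        calc _ ≤ ‖f₁ z - c₀‖ + ‖u z • (G z - c₀)‖ := norm_add_le _ _
          _ ≤ θ + 2 * θ := by
              refine add_le_add (hρc z hz h1) ?_
              rw [norm_smul]
              exact mul_le_mul (hu5 z hz) (hGθ z hz h2) (norm_nonneg _) (by norm_num)
          _ ≤ θ₀ := by linarith
      · exact hθ₀U _ (hkΘc z hz) _ ((hcc z hz h2).trans (by linarith))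
  refine ⟨F, ψ, ⟨hFd, hFc, hFU⟩, ?_, hψd.mono (ball_subset_ball (by linarith)), ?_⟩
  · intro z hz hzs
    calc ‖F z - f z‖ = ‖(F z - f₁ z) + (f₁ z - f z)‖ := by rw [sub_add_sub_cancel]
      _ ≤ ‖F z - f₁ z‖ + ‖f₁ z - f z‖ := norm_add_le _ _
      _ ≤ ε / 2 + ε / 2 := add_le_add ((hca z hz (hρs.trans hzs)).trans hτM3) (hf₁f z hz hzs)
      _ = ε := by ring
  · intro ζ hζ
    have hζ' : ζ ∈ ball (0 : En n) (1 - ε') := ball_subset_ball (by linarith) hζ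
    obtain ⟨h1, h2, h3⟩ := hψ ζ hζ'
    have hζ1 : ‖ζ‖ < 1 := by
      have := mem_ball_zero_iff.1 hζ; linarith
    refine ⟨h1, ?_, ?_⟩
    · rw [mem_ball, dist_eq_norm]
      linarith
    · have h4 : ‖G (ψ ζ) - g ζ‖ ≤ θ := by
        have h5 : G (ψ ζ) = g ((k : ℂ) • ζ) := by simp only [hG, h3]
        rw [h5]
        refine hωg _ ?_ _ (by simpa using hζ1.le) ?_
        · rw [mem_closedBall_zero_iff, norm_smul, hkn]
          calc k * ‖ζ‖ ≤ 1 * 1 := mul_le_mul hk1.le hζ1.le (norm_nonneg _) (by norm_num)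
            _ = 1 := by ring
        · have h6 : (k : ℂ) • ζ - ζ = -(((1 - k : ℝ) : ℂ) • ζ) := by
            push_cast
            rw [sub_smul, one_smul]
            abel
          rw [h6, norm_neg, norm_smul, Complex.norm_real, Real.norm_eq_abs,
            abs_of_pos (by linarith : 0 < 1 - k)]
          calc (1 - k) * ‖ζ‖ ≤ (1 - k) * 1 := mul_le_mul_of_nonneg_left hζ1.le (by linarith)
            _ ≤ ω := by linarith
      calc ‖F (ψ ζ) - g ζ‖ = ‖(F (ψ ζ) - G (ψ ζ)) + (G (ψ ζ) - g ζ)‖ := by rw [sub_add_sub_cancel]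
        _ ≤ ‖F (ψ ζ) - G (ψ ζ)‖ + ‖G (ψ ζ) - g ζ‖ := norm_add_le _ _
        _ ≤ 2 * θ + θ := add_le_add (hcc _ (ball_subset_closedBall h1) h2) h4
        _ ≤ ε := by linarith

end Pool.Agent.MPca0fc2.ZL
end

section

/-! Campaign ZL (zero-one law), task G2A: the integral of the deficit is continuous. -/

set_option autoImplicit false

open Metric Set Filter Topology MeasureTheory

namespace Pool.Agent.MPca0fc2.ZL

open Pool.Agent.MPca0fc2.TB (En)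
open Pool.Agent.Lib.MP_ca0fc2_an.ZL (ext Data InnerFor)

variable {n N : ℕ}

/-- The integral of `N - |f (r x)|²` over the sphere. -/
noncomputable def Def (μ : Measure (sphere (0 : En n) 1)) (f : En n → En N) (r : ℝ) : ℝ :=
  ∫ x : sphere (0 : En n) 1, ((N : ℝ) - ‖f ((r : ℂ) • (x : En n))‖ ^ 2) ∂μ

private theorem G2A_mem {r : ℝ} (hr : r ∈ Ioo (0 : ℝ) 1) (x : sphere (0 : En n) 1) :
    (r : ℂ) • (x : En n) ∈ ball (0 : En n) 1 ∧ (r : ℂ) • (x : En n) ∈ closedBall (0 : En n) r := by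
  have hx : ‖(x : En n)‖ = 1 := by simp
  have h : ‖(r : ℂ) • (x : En n)‖ = r := by
    rw [norm_smul, hx, mul_one, Complex.norm_real, Real.norm_eq_abs, abs_of_pos hr.1]
  constructor
  · rw [mem_ball_zero_iff, h]
    exact hr.2
  · rw [mem_closedBall_zero_iff, h]

private theorem G2A_cont {δ r : ℝ} (f : Data n N δ) (hr : r ∈ Ioo (0 : ℝ) 1) :
    Continuous fun x : sphere (0 : En n) 1 =>
      ((N : ℝ) - ‖Lib.MP_ca0fc2_an.ZL.ext f.1 ((r : ℂ) • (x : En n))‖ ^ 2) := by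
  have hcont : Continuous fun x : sphere (0 : En n) 1 =>
      Lib.MP_ca0fc2_an.ZL.ext f.1 ((r : ℂ) • (x : En n)) :=
    (data_bounds f).1.continuousOn.comp_continuous (by fun_prop) fun x => (G2A_mem hr x).1
  exact continuous_const.sub ((hcont.norm).pow 2)

private theorem G2A_norm {w : En N} (h : ∀ j, ‖w j‖ ≤ 1) : ‖w‖ ≤ (N : ℝ) + 1 := by
  have h1 : ‖w‖ ^ 2 ≤ N := by
    rw [EuclideanSpace.norm_sq_eq]
    calc ∑ i, ‖w i‖ ^ 2 ≤ ∑ _i : Fin N, (1 : ℝ) := Finset.sum_le_sum fun i _ =>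
          pow_le_one₀ (norm_nonneg _) (h i)
      _ = N := by simp
  have h2 : (0 : ℝ) ≤ N := Nat.cast_nonneg N
  have h3 := norm_nonneg w
  nlinarith

/-- PROOF. Let `f` be in the set, with `r`. `M = μ.real univ`, `θ > 0` with `Def μ (ext f) r + 2 N θ M < b`. `nhd_mem` with `R = r`: for `g` with `‖ext g z - ext f z‖ < θ` on `closedBall 0 r`: for `x` in the sphere `r x ∈ closedBall 0 r`, `|‖ext g (r x)‖² - ‖ext f (r x)‖²| ≤ θ (‖ext g (r x)‖ + ‖ext f (r x)‖) ≤ 2 N θ`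
(`‖w‖ ≤ √N ≤ N` if `‖w j‖ ≤ 1` for all `j`, for `N ≥ 1`; for `N = 0` everything is `0`). The functions `x ↦ ‖ext g (r x)‖²` are continuous on the sphere (`ext g` is holomorphic on the ball), so they are integrable. Hence `Def μ (ext g) r < b`. -/
theorem isOpen_def (μ : Measure (sphere (0 : En n) 1)) [IsFiniteMeasure μ] (δ b : ℝ) :
    IsOpen {f : Data n N δ | ∃ r ∈ Ioo (0 : ℝ) 1, Def μ (ext f.1) r < b} := by
  rw [isOpen_iff_mem_nhds]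
  rintro f ⟨r, hr, hd⟩
  set M : ℝ := μ.real univ with hM
  have hM0 : 0 ≤ M := measureReal_nonneg
  have hN0 : (0 : ℝ) ≤ N := Nat.cast_nonneg N
  have hc : 0 < b - Def μ (Lib.MP_ca0fc2_an.ZL.ext f.1) r := by linarith
  set c : ℝ := b - Def μ (Lib.MP_ca0fc2_an.ZL.ext f.1) r with hcdef
  set θ : ℝ := c / (2 * ((N : ℝ) + 1) * (M + 1)) with hθ
  have hθ0 : 0 < θ := by positivity
  have hθ1 : 2 * ((N : ℝ) + 1) * θ * M < c := by
    have h1 : 2 * ((N : ℝ) + 1) * θ * (M + 1) = c := by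
      rw [hθ]
      field_simp
    have h2 : 0 < 2 * ((N : ℝ) + 1) * θ := by positivity
    nlinarith
  refine mem_of_superset (nhd_mem f hr.2 hθ0) fun g hg => ⟨r, hr, ?_⟩
  have hf := data_bounds f
  have hgb := data_bounds g
  have hle : Def μ (Lib.MP_ca0fc2_an.ZL.ext g.1) r ≤
      ∫ x : sphere (0 : En n) 1, (((N : ℝ) - ‖Lib.MP_ca0fc2_an.ZL.ext f.1 ((r : ℂ) • (x : En n))‖ ^ 2) +
        2 * ((N : ℝ) + 1) * θ) ∂μ := by
    refine integral_mono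
      ((G2A_cont g hr).integrable_of_hasCompactSupport (HasCompactSupport.of_compactSpace _))
      (((G2A_cont f hr).add continuous_const).integrable_of_hasCompactSupport
        (HasCompactSupport.of_compactSpace _)) ?_
    intro x
    obtain ⟨m1, m2⟩ := G2A_mem hr x
    have a1 := hg _ m2
    have a2 := G2A_norm (hf.2 _ m1).1
    have a3 := G2A_norm (hgb.2 _ m1).1
    simp only
    set u := Lib.MP_ca0fc2_an.ZL.ext f.1 ((r : ℂ) • (x : En n))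
    set v := Lib.MP_ca0fc2_an.ZL.ext g.1 ((r : ℂ) • (x : En n))
    have a4 : ‖u‖ - ‖v‖ ≤ θ := by
      have := norm_sub_norm_le u v
      rw [norm_sub_rev] at this
      linarith
    have a5 := norm_nonneg u
    have a6 := norm_nonneg v
    have a7 : ‖u‖ ^ 2 - ‖v‖ ^ 2 ≤ θ * (2 * ((N : ℝ) + 1)) := by
      have e : ‖u‖ ^ 2 - ‖v‖ ^ 2 = (‖u‖ - ‖v‖) * (‖u‖ + ‖v‖) := by ring
      rw [e]
      calc (‖u‖ - ‖v‖) * (‖u‖ + ‖v‖) ≤ θ * (‖u‖ + ‖v‖) :=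
            mul_le_mul_of_nonneg_right a4 (by linarith)
        _ ≤ θ * (2 * ((N : ℝ) + 1)) := mul_le_mul_of_nonneg_left (by linarith) hθ0.le
    linarith
  rw [integral_add
    ((G2A_cont f hr).integrable_of_hasCompactSupport (HasCompactSupport.of_compactSpace _))
    (integrable_const _)] at hle
  have he : ∫ _x : sphere (0 : En n) 1, (2 * ((N : ℝ) + 1) * θ) ∂μ = 2 * ((N : ℝ) + 1) * θ * M := by
    rw [integral_const, smul_eq_mul, hM]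
    ring
  rw [he] at hle
  have hdef : ∫ x : sphere (0 : En n) 1,
      ((N : ℝ) - ‖Lib.MP_ca0fc2_an.ZL.ext f.1 ((r : ℂ) • (x : En n))‖ ^ 2) ∂μ =
      Def μ (Lib.MP_ca0fc2_an.ZL.ext f.1) r := rfl
  rw [hdef] at hle
  linarith

end Pool.Agent.MPca0fc2.ZL
end
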