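import Pool.Agent.Lib.MP_ca0fc2_an.Mg.G089

section

/-! Campaign ZL (zero-one law), task DiA: the function `tau`. -/

set_option autoImplicit false

open Metric Set Filter Topology

namespace Pool.Agent.MPca0fc2.ZL

open Pool.Agent.MPca0fc2.TB (En)

variable {N : ℕ}

private theorem DiA_le (δ : ℝ) (c : En N) (j : Fin N) :
    min (1 - ‖c j‖) ((1 - δ) / 2) / 2 ≤ tau δ c :=
  le_ciSup (f := fun j => min (1 - ‖c j‖) ((1 - δ) / 2) / 2) (Set.finite_range _).bddAbove j

private theorem DiA_one (δ : ℝ) (c c' : En N) (j : Fin N) :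
    min (1 - ‖c j‖) ((1 - δ) / 2) / 2 ≤ tau δ c' + ‖c - c'‖ / 2 := by
  have h1 := DiA_le δ c' j
  have h2 : ‖c' j‖ ≤ ‖c j‖ + ‖c - c'‖ := by
    have h3 : ‖(c - c') j‖ ≤ ‖c - c'‖ := PiLp.norm_apply_le (c - c') j
    have h4 : ‖c' j‖ ≤ ‖c j‖ + ‖c j - c' j‖ := by
      have h5 := norm_sub_le (c j) (c j - c' j)
      rwa [sub_sub_cancel] at h5
    have h6 : (c - c') j = c j - c' j := rfl
    rw [h6] at h3
    linarith
  have h7 : min (1 - ‖c j‖) ((1 - δ) / 2) ≤ min (1 - ‖c' j‖) ((1 - δ) / 2) + ‖c - c'‖ := by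
    have h8 := norm_nonneg (c - c')
    rw [← min_add_add_right]
    apply le_min
    · exact (min_le_left _ _).trans (by linarith)
    · exact (min_le_right _ _).trans (by linarith)
  linarith

/-- PROOF. A maximum over a finite set (`N ≥ 1`); `|min x b - min y b| ≤ |x - y|` and `|‖c j‖ - ‖c' j‖| ≤ ‖c - c'‖`. (`N = 0`: both are `0`.) -/
theorem tau_lip (δ : ℝ) (c c' : En N) : |tau δ c - tau δ c'| ≤ ‖c - c'‖ / 2 := by
  rcases Nat.eq_zero_or_pos N with h0 | h0
  · subst h0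
    unfold tau
    rw [Real.iSup_of_isEmpty, Real.iSup_of_isEmpty, sub_self, abs_zero]
    positivity
  · have : Nonempty (Fin N) := ⟨⟨0, h0⟩⟩
    have h1 : tau δ c ≤ tau δ c' + ‖c - c'‖ / 2 := ciSup_le fun j => DiA_one δ c c' j
    have h2 : tau δ c' ≤ tau δ c + ‖c' - c‖ / 2 := ciSup_le fun j => DiA_one δ c' c j
    rw [norm_sub_rev] at h2
    rw [abs_le]
    constructor <;> linarith

theorem tau_bounds {δ : ℝ} (hδ1 : δ ≤ 1) {c : En N} (hc : ∀ j, ‖c j‖ ≤ 1) : 0 ≤ tau δ c ∧ tau δ c ≤ (1 - δ) / 4 := by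
  constructor
  · refine Real.iSup_nonneg fun j => ?_
    have h1 := hc j
    have h2 : 0 ≤ min (1 - ‖c j‖) ((1 - δ) / 2) := le_min (by linarith) (by linarith)
    linarith
  · refine Real.iSup_le (fun j => ?_) (by linarith)
    have h2 := min_le_right (1 - ‖c j‖) ((1 - δ) / 2)
    linarith

/-- PROOF. One term of the maximum is `≥ u / 2` (`N ≥ 1`). -/
theorem tau_lower (hN : 1 ≤ N) {δ u : ℝ} (hu : u ≤ (1 - δ) / 2) {c : En N} (hc : ∀ j, ‖c j‖ ≤ 1 - u) : u / 2 ≤ tau δ c := by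
  have h1 := DiA_le δ c ⟨0, hN⟩
  have h2 := hc ⟨0, hN⟩
  have h3 : u ≤ min (1 - ‖c ⟨0, hN⟩‖) ((1 - δ) / 2) := le_min (by linarith) hu
  linarith

/-- PROOF. `d j = 1 - ‖c j‖ ∈ [0, 1]`: `1 - ‖c j‖² = d j (1 + ‖c j‖) ≤ 2 d j`, and `min (d j) ((1 - δ) / 2) ≥ (1 - δ) / 2 * d j` (`0 ≤ (1 - δ) / 2 ≤ 1`, as `0 ≤ δ ≤ 1`), so `tau δ c ≥ (1 - δ) / 4 * d j ≥ (1 - δ) / 8 * (1 - ‖c j‖²)` for each `j`. The sum over `j` is `N - ‖c‖²` (`EuclideanSpace.norm_sq_eq`). -/
theorem tau_deficit {δ : ℝ} (hδ : 0 ≤ δ) (hδ1 : δ ≤ 1) {c : En N} (hc : ∀ j, ‖c j‖ ≤ 1) : (1 - δ) / 8 * ((N : ℝ) - ‖c‖ ^ 2) ≤ N * tau δ c := by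
  have h1 : ∀ j, (1 - δ) / 8 * (1 - ‖c j‖ ^ 2) ≤ tau δ c := by
    intro j
    have h2 := DiA_le δ c j
    have h3 := hc j
    have h4 := norm_nonneg (c j)
    have h5 : (1 - δ) / 2 * (1 - ‖c j‖) ≤ min (1 - ‖c j‖) ((1 - δ) / 2) := by
      apply le_min
      · nlinarith
      · nlinarith
    nlinarith [mul_nonneg (by linarith : (0:ℝ) ≤ 1 - δ) (by linarith : (0:ℝ) ≤ 1 - ‖c j‖),
      mul_nonneg (mul_nonneg (by linarith : (0:ℝ) ≤ 1 - δ) (by linarith : (0:ℝ) ≤ 1 - ‖c j‖))
        (by linarith : (0:ℝ) ≤ 1 - ‖c j‖)]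
  have h2 : (1 - δ) / 8 * ((N : ℝ) - ‖c‖ ^ 2) = ∑ j, (1 - δ) / 8 * (1 - ‖c j‖ ^ 2) := by
    rw [← Finset.mul_sum, Finset.sum_sub_distrib, ← EuclideanSpace.norm_sq_eq]
    simp
  rw [h2]
  refine (Finset.sum_le_sum fun j _ => h1 j).trans (le_of_eq ?_)
  simp

end Pool.Agent.MPca0fc2.ZL
end

section

/-! Campaign ZL (zero-one law), task DiB: discs in the target set. -/

set_option autoImplicit false

open Metric Set Filter Topology

namespace Pool.Agent.MPca0fc2.ZL

open Pool.Agent.MPca0fc2.TB (En)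

variable {N : ℕ}

private theorem DiB_coord_le (c : En N) (j : Fin N) : ‖c j‖ ≤ ‖c‖ := PiLp.norm_apply_le c j

/-- a unit vector orthogonal to `c` -/
private theorem DiB_unit (hN : 2 ≤ N) (c : En N) : ∃ e : En N, ‖e‖ = 1 ∧ inner ℂ c e = 0 := by
  classical
  have hfin : Module.finrank ℂ (En N) = N := by
    simp
  have hlt : Module.finrank ℂ (Submodule.span ℂ ({c} : Set (En N))) < Module.finrank ℂ (En N) := by
    rw [hfin]
    have h1 : Module.finrank ℂ (Submodule.span ℂ ({c} : Set (En N))) ≤ 1 := by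
      have := finrank_span_le_card (R := ℂ) ({c} : Set (En N))
      simpa using this
    omega
  have hne : (Submodule.span ℂ ({c} : Set (En N)))ᗮ ≠ ⊥ := by
    intro h
    rw [Submodule.orthogonal_eq_bot_iff] at h
    rw [h] at hlt
    simp at hlt
  obtain ⟨u, hu, hu0⟩ := Submodule.exists_mem_ne_zero_of_ne_bot hne
  have hcu : inner ℂ c u = 0 := by
    rw [Submodule.mem_orthogonal] at hu
    exact hu c (Submodule.mem_span_singleton_self c)
  have hnu : ‖u‖ ≠ 0 := norm_ne_zero_iff.mpr hu0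
  refine ⟨((‖u‖⁻¹ : ℝ) : ℂ) • u, ?_, ?_⟩
  · rw [norm_smul]
    simp [hnu]
  · rw [inner_smul_right, hcu, mul_zero]

theorem disc (hN : 2 ≤ N) {δ : ℝ} (hδ1 : δ ≤ 1) {c : En N} (hc : ∀ j, ‖c j‖ ≤ 1) :
    ∃ v : En N, ‖v‖ = tau δ c ∧ (∀ j, ‖v j‖ ≤ (1 - ‖c j‖) / 2) ∧ ((1 + δ) / 2 ≤ ‖c‖ ∨ inner ℂ c v = 0) := by
  classical
  have : Nonempty (Fin N) := ⟨⟨0, by omega⟩⟩
  have ht := tau_bounds hδ1 hc
  rcases le_or_gt ((1 + δ) / 2) ‖c‖ with h | h
  · obtain ⟨j, hj⟩ := Finite.exists_max (fun j : Fin N => min (1 - ‖c j‖) ((1 - δ) / 2) / 2)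
    have htj : tau δ c = min (1 - ‖c j‖) ((1 - δ) / 2) / 2 := by
      unfold tau
      apply le_antisymm
      · exact ciSup_le hj
      · exact le_ciSup (f := fun j : Fin N => min (1 - ‖c j‖) ((1 - δ) / 2) / 2) (Set.finite_range _).bddAbove j
    refine ⟨EuclideanSpace.single j ((tau δ c : ℝ) : ℂ), ?_, ?_, Or.inl h⟩
    · rw [EuclideanSpace.norm_single, Complex.norm_real, Real.norm_eq_abs, abs_of_nonneg ht.1]
    · intro i
      by_cases hij : i = j
      · subst hij
        have h1 : ‖(EuclideanSpace.single i ((tau δ c : ℝ) : ℂ) : En N) i‖ = tau δ c := by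
          rw [EuclideanSpace.single_apply]
          simp [abs_of_nonneg ht.1]
        rw [h1, htj]
        have := min_le_left (1 - ‖c i‖) ((1 - δ) / 2)
        linarith
      · have h1 : ‖(EuclideanSpace.single j ((tau δ c : ℝ) : ℂ) : En N) i‖ = 0 := by
          rw [EuclideanSpace.single_apply]
          simp [hij]
        rw [h1]
        have := hc i
        linarith
  · obtain ⟨e, he1, he2⟩ := DiB_unit hN c
    refine ⟨((tau δ c : ℝ) : ℂ) • e, ?_, ?_, Or.inr ?_⟩
    · rw [norm_smul, he1, Complex.norm_real, Real.norm_eq_abs, abs_of_nonneg ht.1, mul_one]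
    · intro i
      have h1 : ‖(((tau δ c : ℝ) : ℂ) • e) i‖ ≤ ‖((tau δ c : ℝ) : ℂ) • e‖ := DiB_coord_le _ i
      have h2 : ‖((tau δ c : ℝ) : ℂ) • e‖ = tau δ c := by
        rw [norm_smul, he1, Complex.norm_real, Real.norm_eq_abs, abs_of_nonneg ht.1, mul_one]
      have h3 : ‖c i‖ ≤ ‖c‖ := DiB_coord_le c i
      linarith [ht.2]
    · rw [inner_smul_right, he2, mul_zero]

end Pool.Agent.MPca0fc2.ZL
end

section

/-! Campaign ZL (zero-one law), task PkA: packing, and sums of Gauss functions over separated sets. -/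

set_option autoImplicit false

open Metric Set Filter Topology

namespace Pool.Agent.MPca0fc2.ZL

open Pool.Agent.MPca0fc2.TB (En)

variable {n : ℕ}

/-- The number of points of a separated set in a ball. PROOF. The volume argument of `Besicovitch.card_le_of_separated` (file `Mathlib/MeasureTheory/Covering/BesicovitchVectorSpace.lean`, copy and adapt the proof): the balls of radius `ρ / 2` around the points are disjoint and contained in the ball of radius `(a + 1/2) ρ` around `z`;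
`card * (ρ / 2) ^ dim ≤ ((a + 1/2) ρ) ^ dim`. -/
theorem pack (s : Finset (En n)) (z : En n) {ρ a : ℝ} (hρ : 0 < ρ) (ha : 0 ≤ a) (h1 : ∀ c ∈ s, ‖c - z‖ ≤ a * ρ)
    (h2 : ∀ c ∈ s, ∀ d ∈ s, c ≠ d → ρ ≤ ‖c - d‖) : (s.card : ℝ) ≤ (2 * a + 1) ^ Module.finrank ℝ (En n) := by
  classical
  borelize (En n)
  let μ : MeasureTheory.Measure (En n) := MeasureTheory.Measure.addHaar
  have hδ : (0 : ℝ) < ρ / 2 := by positivity
  have hR : (0 : ℝ) < (2 * a + 1) * (ρ / 2) := by positivity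
  set A := ⋃ c ∈ s, ball (c : En n) (ρ / 2) with hA
  have D : Set.Pairwise (s : Set (En n)) (Function.onFun Disjoint fun c => ball (c : En n) (ρ / 2)) := by
    rintro c hc d hd hcd
    apply ball_disjoint_ball
    rw [dist_eq_norm]
    have h3 := h2 c hc d hd hcd
    linarith
  have A_subset : A ⊆ ball z ((2 * a + 1) * (ρ / 2)) := by
    refine iUnion₂_subset fun x hx => ?_
    apply ball_subset_ball'
    have h3 := h1 x hx
    rw [dist_eq_norm]
    linarith
  have I : (s.card : ENNReal) * ENNReal.ofReal ((ρ / 2) ^ Module.finrank ℝ (En n)) * μ (ball 0 1) ≤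
      ENNReal.ofReal (((2 * a + 1) * (ρ / 2)) ^ Module.finrank ℝ (En n)) * μ (ball 0 1) :=
    calc
      (s.card : ENNReal) * ENNReal.ofReal ((ρ / 2) ^ Module.finrank ℝ (En n)) * μ (ball 0 1) = μ A := by
        rw [hA, MeasureTheory.measure_biUnion_finset D fun c _ => measurableSet_ball]
        simp only [μ.addHaar_ball_of_pos _ hδ]
        simp only [Finset.sum_const, nsmul_eq_mul, mul_assoc]
      _ ≤ μ (ball z ((2 * a + 1) * (ρ / 2))) := MeasureTheory.measure_mono A_subset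
      _ = ENNReal.ofReal (((2 * a + 1) * (ρ / 2)) ^ Module.finrank ℝ (En n)) * μ (ball 0 1) := by
        simp only [μ.addHaar_ball_of_pos _ hR]
  have J : (s.card : ENNReal) * ENNReal.ofReal ((ρ / 2) ^ Module.finrank ℝ (En n)) ≤
      ENNReal.ofReal (((2 * a + 1) * (ρ / 2)) ^ Module.finrank ℝ (En n)) :=
    (ENNReal.mul_le_mul_iff_left (measure_ball_pos _ _ zero_lt_one).ne' MeasureTheory.measure_ball_lt_top.ne).1 I
  have K := ENNReal.toReal_le_of_le_ofReal (pow_nonneg hR.le _) J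
  rw [ENNReal.toReal_mul, ENNReal.toReal_natCast, ENNReal.toReal_ofReal (pow_nonneg hδ.le _), mul_pow] at K
  exact le_of_mul_le_mul_right K (pow_pos hδ _)

end Pool.Agent.MPca0fc2.ZL
end

section

/-! Campaign ZL (zero-one law), task SeA: greedy choice, maximal separated subsets of the sphere. -/

set_option autoImplicit false

open Metric Set Filter Topology MeasureTheory

namespace Pool.Agent.MPca0fc2.ZL

open Pool.Agent.MPca0fc2.TB (En)

/-- The greedy choice. PROOF. Induction on the cardinality of `s`. If `s` is empty, `t = ∅`. Otherwise let `x ∈ s` have the largest weight, `s' = s.filter (fun y => ¬ r x y)` (`x ∉ s'`, as `r x x`), `t'` from the induction for `s'`, `t = insert x t'`. Independent: `y ∈ t' ⊆ s'` has `¬ r x y`, and `¬ r y x` by symmetry.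
`∑ s w = ∑ (s.filter (r x)) w + ∑ s' w ≤ L w x + L ∑ t' w` (each weight is `≤ w x` and there are at most `L` elements in `s.filter (r x)`), and `x ∉ t'`. -/
theorem select {ι : Type*} (s : Finset ι) (r : ι → ι → Prop) [DecidableRel r] (hsymm : ∀ x y, r x y → r y x) (hrefl : ∀ x, r x x)
    {L : ℕ} (hL : ∀ x ∈ s, (s.filter (r x)).card ≤ L) (w : ι → ℝ) (hw : ∀ x ∈ s, 0 ≤ w x) :
    ∃ t ⊆ s, (∀ x ∈ t, ∀ y ∈ t, x ≠ y → ¬ r x y) ∧ ∑ x ∈ s, w x ≤ L * ∑ x ∈ t, w x := by
  classical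
  induction' hn : s.card using Nat.strong_induction_on with n ih generalizing s
  by_cases hs : s.Nonempty
  · obtain ⟨x, hx, hmax⟩ := s.exists_max_image w hs
    have hlt : (s.filter (fun y => ¬ r x y)).card < n := by
      rw [← hn]
      apply Finset.card_lt_card
      rw [Finset.filter_ssubset]
      exact ⟨x, hx, by simpa using hrefl x⟩
    obtain ⟨t, hts, hind, hsum⟩ := ih _ hlt (s.filter (fun y => ¬ r x y))
      (fun y hy => (Finset.card_le_card (Finset.filter_subset_filter _ (Finset.filter_subset _ _))).trans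
        (hL y (Finset.mem_of_mem_filter y hy)))
      (fun y hy => hw y (Finset.mem_of_mem_filter y hy)) rfl
    have hxt : ∀ y ∈ t, y ∈ s ∧ ¬ r x y := fun y hy => Finset.mem_filter.mp (hts hy)
    have hx0 : x ∉ t := fun h => (hxt x h).2 (hrefl x)
    refine ⟨insert x t, ?_, ?_, ?_⟩
    · intro y hy
      rcases Finset.mem_insert.mp hy with rfl | hy
      · exact hx
      · exact (hxt y hy).1
    · intro a ha b hb hab
      rcases Finset.mem_insert.mp ha with rfl | ha'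
      · rcases Finset.mem_insert.mp hb with rfl | hb'
        · exact absurd rfl hab
        · exact (hxt b hb').2
      · rcases Finset.mem_insert.mp hb with rfl | hb'
        · exact fun h => (hxt a ha').2 (hsymm _ _ h)
        · exact hind a ha' b hb' hab
    · rw [Finset.sum_insert hx0, mul_add, ← Finset.sum_filter_add_sum_filter_not s (r x) w]
      refine add_le_add ?_ hsum
      have h1 : ∑ y ∈ s.filter (r x), w y ≤ (s.filter (r x)).card • w x :=
        Finset.sum_le_card_nsmul _ _ _ fun y hy => hmax y (Finset.mem_of_mem_filter y hy)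
      rw [nsmul_eq_mul] at h1
      have h2 : ((s.filter (r x)).card : ℝ) ≤ L := by exact_mod_cast hL x hx
      exact h1.trans (mul_le_mul_of_nonneg_right h2 (hw x hx))
  · rw [Finset.not_nonempty_iff_eq_empty] at hs
    subst hs
    exact ⟨∅, Finset.Subset.refl _, by simp, by simp⟩

/-- A maximal separated subset of the sphere.
PROOF. By `pack` (with `z = 0`, `a = 1 / ρ`) the cardinality of a `ρ`-separated finite subset of the sphere is bounded. Let `Y` be one with the largest cardinality (`Nat.findGreatest` or the maximum of a bounded nonempty set of natural numbers; `∅` is one). If `‖z‖ = 1` and `ρ ≤ ‖z - y‖` for all `y ∈ Y`, then `z ∉ Y` (`ρ > 0`) and `insert z Y` is separated and larger. -/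
theorem net {n : ℕ} {ρ : ℝ} (hρ : 0 < ρ) : ∃ Y : Finset (En n), (∀ y ∈ Y, ‖y‖ = 1) ∧ (∀ c ∈ Y, ∀ d ∈ Y, c ≠ d → ρ ≤ ‖c - d‖) ∧
    ∀ z : En n, ‖z‖ = 1 → ∃ y ∈ Y, ‖z - y‖ < ρ := by
  classical
  let S : Set ℕ := {k | ∃ Y : Finset (En n), (∀ y ∈ Y, ‖y‖ = 1) ∧
    (∀ c ∈ Y, ∀ d ∈ Y, c ≠ d → ρ ≤ ‖c - d‖) ∧ Y.card = k}
  have hne : S.Nonempty := ⟨0, ∅, by simp, by simp, rfl⟩
  have hb : BddAbove S := by
    refine ⟨⌈(2 * (1 / ρ) + 1) ^ Module.finrank ℝ (En n)⌉₊, ?_⟩
    rintro k ⟨Y, h1, h2, rfl⟩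
    have h3 := pack Y 0 hρ (by positivity : (0 : ℝ) ≤ 1 / ρ) (fun c hc => by
      rw [sub_zero, h1 c hc, one_div, inv_mul_cancel₀ hρ.ne']) h2
    exact_mod_cast h3.trans (Nat.le_ceil _)
  obtain ⟨Y, h1, h2, h3⟩ := Nat.sSup_mem hne hb
  refine ⟨Y, h1, h2, fun z hz => ?_⟩
  by_contra hcon
  push Not at hcon
  have hzY : z ∉ Y := fun h => by
    have := hcon z h
    rw [sub_self, norm_zero] at this
    exact absurd this (not_le.2 hρ)
  have hmem : (insert z Y).card ∈ S := by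
    refine ⟨insert z Y, ?_, ?_, rfl⟩
    · intro y hy
      rcases Finset.mem_insert.mp hy with rfl | hy
      · exact hz
      · exact h1 y hy
    · intro c hc d hd hcd
      rcases Finset.mem_insert.mp hc with rfl | hc'
      · rcases Finset.mem_insert.mp hd with rfl | hd'
        · exact absurd rfl hcd
        · exact hcon d hd'
      · rcases Finset.mem_insert.mp hd with rfl | hd'
        · rw [norm_sub_rev]
          exact hcon c hc'
        · exact h2 c hc' d hd' hcd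
  have h4 := le_csSup hb hmem
  rw [← h3, Finset.card_insert_of_notMem hzY] at h4
  omega

end Pool.Agent.MPca0fc2.ZL
end

section

/-! Campaign ZL (zero-one law), task SnA: a separated subset of a net of the sphere which carries a fixed part of a measure. -/

set_option autoImplicit false

open Metric Set Filter Topology MeasureTheory

namespace Pool.Agent.MPca0fc2.ZL

open Pool.Agent.MPca0fc2.TB (En)

private theorem SnA_cover {n : ℕ} {ρ : ℝ} (Y : Finset (En n))
    (hcov : ∀ z : En n, ‖z‖ = 1 → ∃ y ∈ Y, ‖z - y‖ < ρ) (μ : Measure (sphere (0 : En n) 1)) [IsFiniteMeasure μ]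
    (w : sphere (0 : En n) 1 → ℝ) (hw : Continuous w) (hw0 : ∀ x, 0 ≤ w x) :
    ∫ x, w x ∂μ ≤ ∑ y ∈ Y, ∫ x in {x : sphere (0 : En n) 1 | ‖(x : En n) - y‖ < ρ}, w x ∂μ := by
  have hint : Integrable w μ := hw.integrable_of_hasCompactSupport (HasCompactSupport.of_compactSpace w)
  have hmeas : ∀ y : En n, MeasurableSet {x : sphere (0 : En n) 1 | ‖(x : En n) - y‖ < ρ} := by
    intro y
    apply IsOpen.measurableSet
    exact isOpen_lt (by fun_prop) continuous_const
  have hind : ∀ y : En n, Integrable (indicator {x : sphere (0 : En n) 1 | ‖(x : En n) - y‖ < ρ} w) μ :=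
    fun y => hint.indicator (hmeas y)
  calc ∫ x, w x ∂μ ≤ ∫ x, ∑ y ∈ Y, indicator {x : sphere (0 : En n) 1 | ‖(x : En n) - y‖ < ρ} w x ∂μ := by
        apply integral_mono hint (integrable_finsetSum _ (fun y _ => hind y))
        intro x
        obtain ⟨y, hy, hxy⟩ := hcov x (mem_sphere_zero_iff_norm.mp x.2)
        have h1 : indicator {x : sphere (0 : En n) 1 | ‖(x : En n) - y‖ < ρ} w x = w x :=
          indicator_of_mem (by exact hxy) w
        show w x ≤ ∑ y ∈ Y, indicator {x : sphere (0 : En n) 1 | ‖(x : En n) - y‖ < ρ} w x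
        rw [← h1]
        refine Finset.single_le_sum (f := fun y => indicator {x : sphere (0 : En n) 1 | ‖(x : En n) - y‖ < ρ} w x) ?_ hy
        intro y' _
        exact indicator_nonneg (fun x _ => hw0 x) x
    _ = ∑ y ∈ Y, ∫ x, indicator {x : sphere (0 : En n) 1 | ‖(x : En n) - y‖ < ρ} w x ∂μ :=
        integral_finsetSum _ (fun y _ => hind y)
    _ = ∑ y ∈ Y, ∫ x in {x : sphere (0 : En n) 1 | ‖(x : En n) - y‖ < ρ}, w x ∂μ := by
        refine Finset.sum_congr rfl (fun y _ => ?_)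
        exact integral_indicator (hmeas y)

/-- PROOF. `L` a natural number `≥ (2 a + 1) ^ finrank`, `L ≥ 1`. `Y` from `net` with `ρ`. `select` for `Y`, the relation `‖x - y‖ < a ρ` (symmetric, reflexive; at most `L` elements of `Y` are related to `x`: `pack` with the centre `x`, `‖y - x‖ ≤ a ρ`) and the weights `∫ x in {x | ‖x - y‖ < ρ}, w x ∂μ ≥ 0`: `T ⊆ Y`.
The sets `{x | ‖x - y‖ < ρ}`, `y ∈ Y`, are open and cover the sphere, `w` is continuous on the compact sphere, so it is integrable (`μ` is finite) and nonnegative: `∫ w ≤ ∑ y ∈ Y, ∫ x in {x | ‖x - y‖ < ρ}, w x ∂μ` (`w x ≤ ∑ y ∈ Y, indicator {x | ‖x - y‖ < ρ} w x`, integrate; `integral_finset_sum`, `integral_indicator`). -/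
theorem sel_net (n : ℕ) {a : ℝ} (ha : 1 ≤ a) : ∃ L : ℝ, 0 < L ∧ ∀ ρ : ℝ, 0 < ρ → ∀ (μ : Measure (sphere (0 : En n) 1)) [IsFiniteMeasure μ]
    (w : sphere (0 : En n) 1 → ℝ), Continuous w → (∀ x, 0 ≤ w x) →
    ∃ T : Finset (En n), (∀ y ∈ T, ‖y‖ = 1) ∧ (∀ c ∈ T, ∀ d ∈ T, c ≠ d → a * ρ ≤ ‖c - d‖) ∧
      ∫ x, w x ∂μ ≤ L * ∑ y ∈ T, ∫ x in {x : sphere (0 : En n) 1 | ‖(x : En n) - y‖ < ρ}, w x ∂μ := by
  classical
  refine ⟨((⌈(2 * a + 1) ^ Module.finrank ℝ (En n)⌉₊ + 1 : ℕ) : ℝ), by positivity, ?_⟩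
  intro ρ hρ μ _ w hw hw0
  obtain ⟨Y, hY1, hY2, hY3⟩ := net (n := n) hρ
  obtain ⟨T, hT, hT2, hT3⟩ := select Y (fun x y => ‖x - y‖ < a * ρ)
    (fun x y h => by rw [norm_sub_rev]; exact h)
    (fun x => by simp only [sub_self, norm_zero]; positivity)
    (L := ⌈(2 * a + 1) ^ Module.finrank ℝ (En n)⌉₊ + 1)
    (by
      intro x hx
      have h := pack (Y.filter (fun y => ‖x - y‖ < a * ρ)) x hρ (by linarith : (0 : ℝ) ≤ a)
        (by
          intro c hc
          rw [Finset.mem_filter] at hc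
          rw [norm_sub_rev]
          exact hc.2.le)
        (by
          intro c hc d hd hcd
          rw [Finset.mem_filter] at hc hd
          exact hY2 c hc.1 d hd.1 hcd)
      have h2 : ((Y.filter (fun y => ‖x - y‖ < a * ρ)).card : ℝ) ≤ ((⌈(2 * a + 1) ^ Module.finrank ℝ (En n)⌉₊ : ℕ) : ℝ) :=
        h.trans (Nat.le_ceil _)
      have h3 : (Y.filter (fun y => ‖x - y‖ < a * ρ)).card ≤ ⌈(2 * a + 1) ^ Module.finrank ℝ (En n)⌉₊ := by
        exact_mod_cast h2
      exact h3.trans (Nat.le_succ _))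
    (fun y => ∫ x in {x : sphere (0 : En n) 1 | ‖(x : En n) - y‖ < ρ}, w x ∂μ)
    (fun y _ => setIntegral_nonneg_ae (by exact (isOpen_lt (by fun_prop) continuous_const).measurableSet)
      (Filter.Eventually.of_forall (fun x _ => hw0 x)))
  refine ⟨T, fun y hy => hY1 y (hT hy), fun c hc d hd hcd => not_lt.mp (hT2 c hc d hd hcd), ?_⟩
  exact (SnA_cover Y hY3 μ w hw hw0).trans hT3

end Pool.Agent.MPca0fc2.ZL
end
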