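import Pool.Agent.Lib.MP_ca0fc2_an.Mg.G095

section

/-! Campaign ZL (zero-one law), task GsA: sums of Gauss functions over separated sets. -/

set_option autoImplicit false

open Metric Set Filter Topology

namespace Pool.Agent.MPca0fc2.ZL

open Pool.Agent.MPca0fc2.TB (En)

/-- PROOF. `K = finrank ℝ (En n)`. The series `∑' k : ℕ, exp (- k² / 4) * (2 (k + 1) + 1) ^ K` converges (`exp (- k² / 4) ≤ exp (- k / 4)` for natural `k`, `Real.summable_pow_mul_exp_neg_nat_mul`); `C` is its sum (it is positive: the term `k = 0`). For `y ∈ Y` let `k = ⌊√m ‖z - y‖⌋₊`: `‖z - y‖ ≤ (k + 1) / √m` and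
`exp (- m ‖z - y‖² / 4) ≤ exp (- k² / 4)`, so `exp (- m ‖z - y‖² / 4) ≤ ∑' k, (if ‖z - y‖ ≤ (k + 1) / √m then exp (- k² / 4) else 0)` (one term of a convergent series of nonnegative terms). Sum over `y` and exchange (`Finset` sum of convergent series, `Summable.tsum_finsetSum`):
the sum is `≤ ∑' k, exp (- k² / 4) * #{y ∈ Y | ‖z - y‖ ≤ (k + 1) / √m} ≤ ∑' k, exp (- k² / 4) (2 (k + 1) + 1) ^ K` by `pack` with `ρ = 1 / √m`, `a = k + 1`. -/
theorem gauss_sum (n : ℕ) : ∃ C : ℝ, 0 < C ∧ ∀ m : ℝ, 0 < m → ∀ Y : Finset (En n), (∀ c ∈ Y, ∀ d ∈ Y, c ≠ d → 1 / √m ≤ ‖c - d‖) →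
    ∀ z : En n, ∑ y ∈ Y, Real.exp (-(m * ‖z - y‖ ^ 2 / 4)) ≤ C := by
  classical
  set K := Module.finrank ℝ (En n) with hK
  set a : ℕ → ℝ := fun k => Real.exp (-((k : ℝ) ^ 2 / 4)) * (2 * ((k : ℝ) + 1) + 1) ^ K with ha
  have hpos : ∀ k, 0 < a k := fun k => by
    simp only [ha]
    positivity
  have hsum : Summable a := by
    have h1 : Summable fun k : ℕ => (k : ℝ) ^ K * Real.exp (-(1 / 4) * (k : ℝ)) :=
      Real.summable_pow_mul_exp_neg_nat_mul K (by norm_num)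
    have h2 : Summable fun k : ℕ => ((k + 1 : ℕ) : ℝ) ^ K * Real.exp (-(1 / 4) * ((k + 1 : ℕ) : ℝ)) :=
      (summable_nat_add_iff 1).2 h1
    have h3 := h2.mul_left ((3 : ℝ) ^ K * Real.exp (1 / 4))
    refine Summable.of_nonneg_of_le (fun k => (hpos k).le) (fun k => ?_) h3
    simp only [ha]
    have e1 : (2 * ((k : ℝ) + 1) + 1) ^ K ≤ (3 : ℝ) ^ K * ((k + 1 : ℕ) : ℝ) ^ K := by
      rw [← mul_pow]
      have hk : (0 : ℝ) ≤ k := Nat.cast_nonneg k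
      refine pow_le_pow_left₀ (by positivity) ?_ K
      push_cast
      linarith
    have e2 : Real.exp (-((k : ℝ) ^ 2 / 4)) ≤
        Real.exp (1 / 4) * Real.exp (-(1 / 4) * ((k + 1 : ℕ) : ℝ)) := by
      rw [← Real.exp_add]
      refine Real.exp_le_exp.2 ?_
      push_cast
      have hk : (k : ℝ) ≤ (k : ℝ) ^ 2 := by
        rcases Nat.eq_zero_or_pos k with h | h
        · rw [h]; simp
        · have h1 : (1 : ℝ) ≤ k := by exact_mod_cast h
          nlinarith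
      linarith
    calc Real.exp (-((k : ℝ) ^ 2 / 4)) * (2 * ((k : ℝ) + 1) + 1) ^ K
        ≤ (Real.exp (1 / 4) * Real.exp (-(1 / 4) * ((k + 1 : ℕ) : ℝ))) *
            ((3 : ℝ) ^ K * ((k + 1 : ℕ) : ℝ) ^ K) :=
          mul_le_mul e2 e1 (by positivity) (by positivity)
      _ = _ := by ring
  refine ⟨∑' k, a k, hsum.tsum_pos (fun k => (hpos k).le) 0 (hpos 0), ?_⟩
  intro m hm Y hY z
  have hsm : 0 < √m := Real.sqrt_pos.2 hm
  set κ : En n → ℕ := fun y => ⌊√m * ‖z - y‖⌋₊ with hκ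
  have hfib := Finset.sum_fiberwise_of_maps_to (s := Y) (t := Y.image κ) (g := κ)
    (fun y hy => Finset.mem_image_of_mem κ hy) (fun y => Real.exp (-(m * ‖z - y‖ ^ 2 / 4)))
  rw [← hfib]
  refine le_trans (Finset.sum_le_sum (g := a) fun k _ => ?_)
    (hsum.sum_le_tsum _ (fun k _ => (hpos k).le))
  have hlow : ∀ y ∈ Y.filter (fun y => κ y = k), (k : ℝ) ≤ √m * ‖z - y‖ ∧
      √m * ‖z - y‖ < (k : ℝ) + 1 := by
    intro y hy
    have h1 : κ y = k := (Finset.mem_filter.1 hy).2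
    have h0 : 0 ≤ √m * ‖z - y‖ := by positivity
    have h2 := Nat.floor_le h0
    have h3 := Nat.lt_floor_add_one (√m * ‖z - y‖)
    have h4 : ⌊√m * ‖z - y‖⌋₊ = k := h1
    rw [h4] at h2 h3
    exact ⟨h2, h3⟩
  have hcard : ((Y.filter (fun y => κ y = k)).card : ℝ) ≤ (2 * ((k : ℝ) + 1) + 1) ^ K := by
    refine pack (Y.filter (fun y => κ y = k)) z (ρ := 1 / √m) (a := (k : ℝ) + 1)
      (by positivity) (by positivity) ?_ ?_
    · intro c hc
      have h2 := (hlow c hc).2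
      rw [norm_sub_rev, mul_one_div, le_div_iff₀ hsm]
      linarith
    · intro c hc d hd hcd
      exact hY c (Finset.mem_filter.1 hc).1 d (Finset.mem_filter.1 hd).1 hcd
  have hterm : ∀ y ∈ Y.filter (fun y => κ y = k),
      Real.exp (-(m * ‖z - y‖ ^ 2 / 4)) ≤ Real.exp (-((k : ℝ) ^ 2 / 4)) := by
    intro y hy
    refine Real.exp_le_exp.2 ?_
    have h1 := (hlow y hy).1
    have h2 : (k : ℝ) ^ 2 ≤ (√m * ‖z - y‖) ^ 2 := pow_le_pow_left₀ (Nat.cast_nonneg k) h1 2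
    rw [mul_pow, Real.sq_sqrt hm.le] at h2
    linarith
  calc ∑ y ∈ Y.filter (fun y => κ y = k), Real.exp (-(m * ‖z - y‖ ^ 2 / 4))
      ≤ (Y.filter (fun y => κ y = k)).card • Real.exp (-((k : ℝ) ^ 2 / 4)) :=
        Finset.sum_le_card_nsmul _ _ _ hterm
    _ = ((Y.filter (fun y => κ y = k)).card : ℝ) * Real.exp (-((k : ℝ) ^ 2 / 4)) := nsmul_eq_mul _ _
    _ ≤ (2 * ((k : ℝ) + 1) + 1) ^ K * Real.exp (-((k : ℝ) ^ 2 / 4)) :=
        mul_le_mul_of_nonneg_right hcard (Real.exp_pos _).le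
    _ = a k := by
        simp only [ha]
        ring

/-- PROOF. For `t ≤ ‖z - y‖`: `exp (- m ‖z - y‖² / 2) ≤ exp (- m t² / 4) exp (- m ‖z - y‖² / 4)`. -/
theorem gauss_far (n : ℕ) : ∃ C : ℝ, 0 < C ∧ ∀ m : ℝ, 0 < m → ∀ Y : Finset (En n), (∀ c ∈ Y, ∀ d ∈ Y, c ≠ d → 1 / √m ≤ ‖c - d‖) →
    ∀ (z : En n) (t : ℝ), 0 ≤ t → (∀ y ∈ Y, t ≤ ‖z - y‖) →
      ∑ y ∈ Y, Real.exp (-(m * ‖z - y‖ ^ 2 / 2)) ≤ C * Real.exp (-(m * t ^ 2 / 4)) := by
  obtain ⟨C, hC, h⟩ := gauss_sum n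
  refine ⟨C, hC, fun m hm Y hY z t ht hfar => ?_⟩
  calc ∑ y ∈ Y, Real.exp (-(m * ‖z - y‖ ^ 2 / 2))
      ≤ ∑ y ∈ Y, Real.exp (-(m * ‖z - y‖ ^ 2 / 4)) * Real.exp (-(m * t ^ 2 / 4)) := by
        refine Finset.sum_le_sum fun y hy => ?_
        rw [← Real.exp_add]
        refine Real.exp_le_exp.2 ?_
        have h1 : t ^ 2 ≤ ‖z - y‖ ^ 2 := pow_le_pow_left₀ ht (hfar y hy) 2
        have h2 := mul_le_mul_of_nonneg_left h1 hm.le
        linarith
    _ = (∑ y ∈ Y, Real.exp (-(m * ‖z - y‖ ^ 2 / 4))) * Real.exp (-(m * t ^ 2 / 4)) := by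
        rw [Finset.sum_mul]
    _ ≤ C * Real.exp (-(m * t ^ 2 / 4)) :=
        mul_le_mul_of_nonneg_right (h m hm Y hY z) (Real.exp_pos _).le

end Pool.Agent.MPca0fc2.ZL
end

section

/-! Campaign ZL (zero-one law), task GsB: sums of Gauss functions over widely separated sets. -/

set_option autoImplicit false

open Metric Set Filter Topology

namespace Pool.Agent.MPca0fc2.ZL

open Pool.Agent.MPca0fc2.TB (En)

/-- PROOF. `C` from `gauss_far`, `a ≥ 4` with `C exp (- a² / 16) ≤ 1 / 100`. The subset `Y'` of the `y ∈ Y` with `a / (2 √m) ≤ ‖z - y‖` has the sum `≤ C exp (- m t² / 4) = C exp (- a² / 16) ≤ 1 / 100` for `t = a / (2 √m)` (`a / √m ≥ 1 / √m`, a subset of `Y` is separated). At most one `y ∈ Y` is not in `Y'` (two of them would have a distance `< a / √m`),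
and its term is `≤ 1`: the whole sum is `≤ 1 + 1 / 100`. If `‖z - y₀‖ < 1 / √m`, every other `y ∈ Y` has `‖z - y‖ ≥ a / √m - 1 / √m ≥ a / (2 √m)`, so `Y.erase y₀ ⊆ Y'`. -/
theorem gauss_a (n : ℕ) : ∃ a : ℝ, 4 ≤ a ∧ ∀ m : ℝ, 0 < m → ∀ Y : Finset (En n), (∀ c ∈ Y, ∀ d ∈ Y, c ≠ d → a / √m ≤ ‖c - d‖) →
    ∀ z : En n, ∑ y ∈ Y, Real.exp (-(m * ‖z - y‖ ^ 2 / 2)) ≤ 11 / 10 ∧
      ∀ y₀ ∈ Y, ‖z - y₀‖ < 1 / √m → ∑ y ∈ Y.filter (fun y => y ≠ y₀), Real.exp (-(m * ‖z - y‖ ^ 2 / 2)) ≤ 1 / 100 := by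
  obtain ⟨C, hC, hfar⟩ := gauss_far n
  have hl0 : (0:ℝ) ≤ |Real.log (100 * C)| := abs_nonneg _
  obtain ⟨a, ha⟩ : ∃ a : ℝ, a = 4 + 4 * |Real.log (100 * C)| := ⟨_, rfl⟩
  have ha4 : 4 ≤ a := by rw [ha]; linarith
  have hCa : C * Real.exp (-(a ^ 2 / 16)) ≤ 1 / 100 := by
    have h1 : Real.log (100 * C) ≤ a ^ 2 / 16 := by
      have h2 : Real.log (100 * C) ≤ |Real.log (100 * C)| := le_abs_self _
      nlinarith
    have h3 : Real.exp (-(a ^ 2 / 16)) ≤ Real.exp (-Real.log (100 * C)) := Real.exp_le_exp.mpr (by linarith)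
    rw [Real.exp_neg (Real.log (100 * C)), Real.exp_log (by positivity)] at h3
    calc C * Real.exp (-(a ^ 2 / 16)) ≤ C * (100 * C)⁻¹ := mul_le_mul_of_nonneg_left h3 hC.le
      _ = 1 / 100 := by field_simp
  refine ⟨a, ha4, ?_⟩
  intro m hm Y hY z
  have hsm : 0 < √m := Real.sqrt_pos.mpr hm
  have hsq : √m ^ 2 = m := Real.sq_sqrt hm.le
  have h1a : 1 / √m ≤ a / √m := by
    apply div_le_div_of_nonneg_right _ hsm.le
    linarith
  -- sums over far subsets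
  have key : ∀ Z : Finset (En n), Z ⊆ Y → (∀ y ∈ Z, a / (2 * √m) ≤ ‖z - y‖) →
      ∑ y ∈ Z, Real.exp (-(m * ‖z - y‖ ^ 2 / 2)) ≤ 1 / 100 := by
    intro Z hZ hZf
    have h := hfar m hm Z (fun c hc d hd hcd => h1a.trans (hY c (hZ hc) d (hZ hd) hcd)) z (a / (2 * √m))
      (by positivity) hZf
    have e1 : m * (a / (2 * √m)) ^ 2 / 4 = a ^ 2 / 16 := by
      rw [div_pow, mul_pow, hsq]
      field_simp
      ring
    rw [e1] at h
    exact h.trans hCa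
  have key2 : ∀ y₀ ∈ Y, ‖z - y₀‖ < a / (2 * √m) →
      ∑ y ∈ Y.filter (fun y => y ≠ y₀), Real.exp (-(m * ‖z - y‖ ^ 2 / 2)) ≤ 1 / 100 := by
    intro y₀ hy₀ hz
    apply key _ (Finset.filter_subset _ _)
    intro y hy
    rw [Finset.mem_filter] at hy
    have h1 := hY y hy.1 y₀ hy₀ hy.2
    have h2 : ‖y - y₀‖ ≤ ‖z - y‖ + ‖z - y₀‖ := by
      have e : y - y₀ = (z - y₀) - (z - y) := by abel
      rw [e]
      refine (norm_sub_le _ _).trans ?_
      linarith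
    have h3 : a / √m = a / (2 * √m) + a / (2 * √m) := by field_simp; ring
    linarith
  refine ⟨?_, ?_⟩
  · by_cases hex : ∃ y₀ ∈ Y, ‖z - y₀‖ < a / (2 * √m)
    · obtain ⟨y₀, hy₀, hz⟩ := hex
      have h1 := key2 y₀ hy₀ hz
      have h2 : ∑ y ∈ Y, Real.exp (-(m * ‖z - y‖ ^ 2 / 2)) =
          Real.exp (-(m * ‖z - y₀‖ ^ 2 / 2)) + ∑ y ∈ Y.filter (fun y => y ≠ y₀), Real.exp (-(m * ‖z - y‖ ^ 2 / 2)) := by
        rw [← Finset.sum_erase_add Y _ hy₀, add_comm]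
        congr 1
        apply Finset.sum_congr _ (fun _ _ => rfl)
        ext y
        simp [Finset.mem_erase, Finset.mem_filter, and_comm]
      have h3 : Real.exp (-(m * ‖z - y₀‖ ^ 2 / 2)) ≤ 1 := by
        rw [Real.exp_le_one_iff]
        have : 0 ≤ m * ‖z - y₀‖ ^ 2 / 2 := by positivity
        linarith
      rw [h2]
      linarith
    · push Not at hex
      have h1 := key Y (Finset.Subset.refl _) hex
      linarith
  · intro y₀ hy₀ hz
    apply key2 y₀ hy₀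
    refine lt_of_lt_of_le hz ?_
    rw [div_le_div_iff₀ hsm (by positivity)]
    nlinarith

end Pool.Agent.MPca0fc2.ZL
end
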