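import Pool.Agent.Lib.MP_ca0fc2_an.Mg.G095

section

/-! Campaign ZL (zero-one law), task PwA: the perturbed values stay in the target set. -/

set_option autoImplicit false

open Metric Set Filter Topology

namespace Pool.Agent.MPca0fc2.ZL

open Pool.Agent.MPca0fc2.TB (En)

variable {N : ℕ}

private theorem PwA_split {ι : Type*} (T T₂ : Finset ι) (hT₂ : T₂ ⊆ T) {ν g : ι → ℝ} {η A B : ℝ}
    (hν0 : ∀ i ∈ T, 0 ≤ ν i) (hν : ∑ i ∈ T, ν i ≤ 11 / 10) (hfar : ∑ i ∈ T₂, ν i ≤ η) (hA : 0 ≤ A) (hB : 0 ≤ B)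
    (h1 : ∀ i ∈ T, i ∉ T₂ → g i ≤ A) (h2 : ∀ i ∈ T₂, g i ≤ B) :
    ∑ i ∈ T, ν i * g i ≤ 11 / 10 * A + η * B := by
  classical
  rw [← Finset.sum_sdiff hT₂]
  have e1 : ∑ i ∈ T \ T₂, ν i * g i ≤ 11 / 10 * A := by
    calc ∑ i ∈ T \ T₂, ν i * g i ≤ ∑ i ∈ T \ T₂, ν i * A := by
          apply Finset.sum_le_sum
          intro i hi
          rw [Finset.mem_sdiff] at hi
          exact mul_le_mul_of_nonneg_left (h1 i hi.1 hi.2) (hν0 i hi.1)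
      _ = (∑ i ∈ T \ T₂, ν i) * A := by rw [Finset.sum_mul]
      _ ≤ (∑ i ∈ T, ν i) * A := by
          apply mul_le_mul_of_nonneg_right _ hA
          apply Finset.sum_le_sum_of_subset_of_nonneg Finset.sdiff_subset
          intro i hi _
          exact hν0 i hi
      _ ≤ 11 / 10 * A := mul_le_mul_of_nonneg_right hν hA
  have e2 : ∑ i ∈ T₂, ν i * g i ≤ η * B := by
    calc ∑ i ∈ T₂, ν i * g i ≤ ∑ i ∈ T₂, ν i * B := by
          apply Finset.sum_le_sum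
          intro i hi
          exact mul_le_mul_of_nonneg_left (h2 i hi) (hν0 i (hT₂ hi))
      _ = (∑ i ∈ T₂, ν i) * B := by rw [Finset.sum_mul]
      _ ≤ η * B := mul_le_mul_of_nonneg_right hfar hB
  linarith

private theorem PwA_coord {ι : Type*} (T : Finset ι) (f : En N) (a : ι → ℂ) (v : ι → En N) (j : Fin N) :
    (f + ∑ i ∈ T, a i • v i) j = f j + ∑ i ∈ T, a i * v i j := by
  have h : (∑ i ∈ T, a i • v i) j = ∑ i ∈ T, a i * v i j :=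
    map_sum (EuclideanSpace.proj j : En N →L[ℂ] ℂ) (fun i => a i • v i) T
  rw [PiLp.add_apply, h]

private theorem PwA_real {δ u η x y τ : ℝ} (hδ : 0 < δ) (hδ1 : δ < 1) (hu : 0 < u) (hu1 : u ≤ (1 - δ) / 4) (hη : 0 < η)
    (hηu : η ≤ δ * u / 10) (hx : δ + u ≤ x) (hy : 0 ≤ y) (hτ1 : τ ≤ (1 - δ) / 4)
    (h : x ^ 2 - 2 * (11 / 10 * (η * τ) + η * (x * τ)) ≤ y ^ 2) : δ + u / 4 ≤ y := by
  have hx0 : 0 < x := by linarith
  have h1 : η * τ ≤ η * (1 / 4) := mul_le_mul_of_nonneg_left (by linarith) hη.le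
  have h2 : η * (x * τ) ≤ η * (x * (1 / 4)) :=
    mul_le_mul_of_nonneg_left (mul_le_mul_of_nonneg_left (by linarith) hx0.le) hη.le
  have h3 : x ^ 2 - 11 / 20 * η - 1 / 2 * (η * x) ≤ y ^ 2 := by nlinarith
  have hηx : η ≤ u / 10 := by nlinarith
  have h4 : (δ + u) ^ 2 - 11 / 20 * η - 1 / 2 * (η * (δ + u)) ≤ x ^ 2 - 11 / 20 * η - 1 / 2 * (η * x) := by
    nlinarith [mul_nonneg (sub_nonneg.mpr hx) (by linarith : (0 : ℝ) ≤ x + (δ + u) - 1 / 2 * η)]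
  have h5 : η * (δ + u) ≤ η * 1 := mul_le_mul_of_nonneg_left (by linarith) hη.le
  have h6 : (δ + u / 4) ^ 2 ≤ y ^ 2 := by nlinarith [mul_pos hδ hu, mul_pos hu hu]
  exact abs_le_of_sq_le_sq' h6 hy |>.2

/-- The perturbed value stays in the target set, with room. `f` is the value of the data at the point, `c i` the values at the centres of the peaks, `T₂` the far centres.
PROOF. `τ₀ = (1 - δ) / 4 ≤ 1/4`, `‖v i‖ = tau δ (c i) ≤ τ₀` (`tau_bounds`), `G = ∑ i ∈ T, a i • v i`.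
Coordinates: for `i ∈ T \ T₂`: `‖v i j‖ ≤ (1 - ‖c i j‖) / 2 ≤ (1 - ‖f j‖ + η) / 2`; for `i ∈ T₂`: `‖v i j‖ ≤ 1 / 2`. With `d = 1 - ‖f j‖ ≥ u`: `‖(f + G) j‖ ≤ 1 - d + (11/10) (d + η) / 2 + η / 2 ≤ 1 - 0.45 d + 1.05 η ≤ 1 - 0.45 u + 0.105 u ≤ 1 - u / 4` (`η ≤ u / 10`).
Norm, case (A): some `i ∈ T \ T₂` has `(1 + δ) / 2 ≤ ‖c i‖`: `‖f‖ ≥ (1 + δ) / 2 - η = δ + 2 τ₀ - η`, `‖G‖ ≤ (11/10) τ₀`, so `‖f + G‖ ≥ δ + 0.9 τ₀ - η ≥ δ + u / 4` (`u ≤ τ₀`, `η ≤ u / 10`).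
Case (B): all `i ∈ T \ T₂` have `inner ℂ (c i) (v i) = 0`: `‖inner ℂ f (v i)‖ = ‖inner ℂ (f - c i) (v i)‖ ≤ η τ₀` for them and `‖inner ℂ f (v i)‖ ≤ ‖f‖ τ₀` for `i ∈ T₂`: `‖inner ℂ f G‖ ≤ (11/10) η τ₀ + η ‖f‖ τ₀ ≤ 0.275 η (1 + ‖f‖)`. With `x = ‖f‖ ≥ δ + u`: `‖f + G‖² ≥ x² - 0.55 η (1 + x)`
(`‖f + G‖² = ‖f‖² + 2 Re (inner ℂ f G) + ‖G‖²`), which increases in `x ≥ δ + u` (`η ≤ δ / 10`), so it is `≥ (δ + u)² - 0.55 η (1 + δ + u) ≥ (δ + u)² - 1.1 η ≥ (δ + u)² - 0.11 δ u ≥ (δ + u / 4)²` (`δ + u ≤ 1`). -/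
theorem pointwise {δ u η : ℝ} (hδ : 0 < δ) (hδ1 : δ < 1) (hu : 0 < u) (hu1 : u ≤ (1 - δ) / 4) (hη : 0 < η) (hηu : η ≤ δ * u / 10)
    {ι : Type*} (T T₂ : Finset ι) (hT₂ : T₂ ⊆ T) {c v : ι → En N} {a : ι → ℂ} {ν : ι → ℝ} {f : En N}
    (hf : (∀ j, ‖f j‖ ≤ 1 - u) ∧ δ + u ≤ ‖f‖) (hc : ∀ i ∈ T, ∀ j, ‖c i j‖ ≤ 1)
    (hv : ∀ i ∈ T, ‖v i‖ = tau δ (c i) ∧ (∀ j, ‖v i j‖ ≤ (1 - ‖c i j‖) / 2) ∧ ((1 + δ) / 2 ≤ ‖c i‖ ∨ inner ℂ (c i) (v i) = 0))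
    (ha : ∀ i ∈ T, ‖a i‖ ≤ ν i) (hν : ∑ i ∈ T, ν i ≤ 11 / 10) (hfar : ∑ i ∈ T₂, ν i ≤ η) (hnear : ∀ i ∈ T, i ∉ T₂ → ‖f - c i‖ ≤ η) :
    (∀ j, ‖(f + ∑ i ∈ T, a i • v i) j‖ ≤ 1 - u / 4) ∧ δ + u / 4 ≤ ‖f + ∑ i ∈ T, a i • v i‖ := by
  have hν0 : ∀ i ∈ T, 0 ≤ ν i := fun i hi => (norm_nonneg _).trans (ha i hi)
  have hηx : η ≤ u / 10 := by nlinarith
  have hτ : ∀ i ∈ T, ‖v i‖ ≤ (1 - δ) / 4 := fun i hi => by
    rw [(hv i hi).1]
    exact (tau_bounds hδ1.le (hc i hi)).2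
  have hτ0 : 0 ≤ (1 - δ) / 4 := by linarith
  constructor
  · intro j
    rw [PwA_coord]
    have hfj : ‖f j‖ ≤ 1 - u := hf.1 j
    have h1 : ‖f j + ∑ i ∈ T, a i * v i j‖ ≤ ‖f j‖ + ∑ i ∈ T, ν i * ‖v i j‖ := by
      refine (norm_add_le _ _).trans (add_le_add le_rfl ?_)
      refine (norm_sum_le _ _).trans (Finset.sum_le_sum ?_)
      intro i hi
      rw [norm_mul]
      exact mul_le_mul_of_nonneg_right (ha i hi) (norm_nonneg _)
    have h2 : ∑ i ∈ T, ν i * ‖v i j‖ ≤ 11 / 10 * ((1 - ‖f j‖ + η) / 2) + η * (1 / 2) := by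
      apply PwA_split T T₂ hT₂ hν0 hν hfar
      · linarith
      · norm_num
      · intro i hi hi2
        have h3 : ‖f j - c i j‖ ≤ η := by
          have h4 := PiLp.norm_apply_le (f - c i) j
          rw [PiLp.sub_apply] at h4
          exact h4.trans (hnear i hi hi2)
        have h5 : ‖f j‖ - ‖c i j‖ ≤ ‖f j - c i j‖ := norm_sub_norm_le _ _
        have h6 := (hv i hi).2.1 j
        linarith
      · intro i hi
        have h6 := (hv i (hT₂ hi)).2.1 j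
        have h7 := norm_nonneg (c i j)
        linarith
    linarith
  · have hx0 : 0 < ‖f‖ := by linarith [hf.2]
    by_cases hA : ∃ i ∈ T, i ∉ T₂ ∧ (1 + δ) / 2 ≤ ‖c i‖
    · obtain ⟨i, hi, hi2, hci⟩ := hA
      have h1 : ‖∑ i ∈ T, a i • v i‖ ≤ 11 / 10 * ((1 - δ) / 4) := by
        calc ‖∑ i ∈ T, a i • v i‖ ≤ ∑ i ∈ T, ν i * ((1 - δ) / 4) := by
              refine (norm_sum_le _ _).trans (Finset.sum_le_sum ?_)
              intro k hk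
              rw [norm_smul]
              exact mul_le_mul (ha k hk) (hτ k hk) (norm_nonneg _) (hν0 k hk)
          _ = (∑ i ∈ T, ν i) * ((1 - δ) / 4) := by rw [Finset.sum_mul]
          _ ≤ 11 / 10 * ((1 - δ) / 4) := mul_le_mul_of_nonneg_right hν hτ0
      have h2 : ‖c i‖ - ‖f‖ ≤ ‖c i - f‖ := norm_sub_norm_le _ _
      rw [norm_sub_rev] at h2
      have h3 := hnear i hi hi2
      have h4 : ‖f‖ - ‖∑ i ∈ T, a i • v i‖ ≤ ‖f + ∑ i ∈ T, a i • v i‖ := by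
        have := norm_sub_norm_le f (-∑ i ∈ T, a i • v i)
        rw [norm_neg, sub_neg_eq_add] at this
        exact this
      linarith
    · push Not at hA
      have h0 : ∀ i ∈ T, i ∉ T₂ → inner ℂ (c i) (v i) = 0 := by
        intro i hi hi2
        rcases (hv i hi).2.2 with h | h
        · exact absurd h (not_le.mpr (hA i hi hi2))
        · exact h
      have h1 : ‖inner ℂ f (∑ i ∈ T, a i • v i)‖ ≤ 11 / 10 * (η * ((1 - δ) / 4)) + η * (‖f‖ * ((1 - δ) / 4)) := by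
        rw [inner_sum]
        calc ‖∑ i ∈ T, inner ℂ f (a i • v i)‖ ≤ ∑ i ∈ T, ν i * ‖inner ℂ f (v i)‖ := by
              refine (norm_sum_le _ _).trans (Finset.sum_le_sum ?_)
              intro k hk
              rw [inner_smul_right, norm_mul]
              exact mul_le_mul_of_nonneg_right (ha k hk) (norm_nonneg _)
          _ ≤ 11 / 10 * (η * ((1 - δ) / 4)) + η * (‖f‖ * ((1 - δ) / 4)) := by
              apply PwA_split T T₂ hT₂ hν0 hν hfar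
              · positivity
              · positivity
              · intro i hi hi2
                have h2 : inner ℂ f (v i) = inner ℂ (f - c i) (v i) := by
                  rw [inner_sub_left, h0 i hi hi2, sub_zero]
                rw [h2]
                refine (norm_inner_le_norm _ _).trans ?_
                exact mul_le_mul (hnear i hi hi2) (hτ i hi) (norm_nonneg _) hη.le
              · intro i hi
                refine (norm_inner_le_norm _ _).trans ?_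
                exact mul_le_mul_of_nonneg_left (hτ i (hT₂ hi)) (norm_nonneg _)
      have h2 : ‖f‖ ^ 2 - 2 * (11 / 10 * (η * ((1 - δ) / 4)) + η * (‖f‖ * ((1 - δ) / 4))) ≤ ‖f + ∑ i ∈ T, a i • v i‖ ^ 2 := by
        have h3 := norm_add_sq (𝕜 := ℂ) f (∑ i ∈ T, a i • v i)
        have h4 : -‖inner ℂ f (∑ i ∈ T, a i • v i)‖ ≤ RCLike.re (inner ℂ f (∑ i ∈ T, a i • v i)) := by
          have := RCLike.abs_re_le_norm (inner ℂ f (∑ i ∈ T, a i • v i))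
          exact (abs_le.mp this).1
        have h5 := sq_nonneg ‖∑ i ∈ T, a i • v i‖
        rw [h3]
        linarith
      exact PwA_real hδ hδ1 hu hu1 hη hηu hf.2 (norm_nonneg _) le_rfl h2

end Pool.Agent.MPca0fc2.ZL
end

section

/-! Campaign ZL (zero-one law), task PwB: the gain. -/

set_option autoImplicit false

open Metric Set Filter Topology

namespace Pool.Agent.MPca0fc2.ZL

open Pool.Agent.MPca0fc2.TB (En)

variable {N : ℕ}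

/-- The gain. PROOF. `t = tau δ f`, `t ≥ u / 2` (`tau_lower`), so `η ≤ u / 10 ≤ t / 5`. `tau_lip`: `tau δ (c i) ≤ t + η / 2` and `≥ t - η / 2` for `i ∈ T \ T₂`. `‖G‖ ≥ ‖a i₀ • v i₀‖ - ∑ (i ≠ i₀) ν i ‖v i‖ ≥ (3/5) (t - η / 2) - (1/100) (t + η / 2) - η / 4 ≥ 0.59 t - 0.56 η ≥ 0.47 t`
(the far ones: `∑ i ∈ T₂, ν i ‖v i‖ ≤ η / 4`; `i₀ ∉ T₂`; `ν i ≥ 0`), `0.47² ≥ 1/5`. -/
theorem gain (hN : 1 ≤ N) {δ u η : ℝ} (hδ : 0 < δ) (hδ1 : δ < 1) (hu : 0 < u) (hu1 : u ≤ (1 - δ) / 4) (hη : 0 < η) (hηu : η ≤ δ * u / 10)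
    {ι : Type*} [DecidableEq ι] (T T₂ : Finset ι) (hT₂ : T₂ ⊆ T) {c v : ι → En N} {a : ι → ℂ} {ν : ι → ℝ} {f : En N}
    (hf : (∀ j, ‖f j‖ ≤ 1 - u) ∧ δ + u ≤ ‖f‖) (hc : ∀ i ∈ T, ∀ j, ‖c i j‖ ≤ 1)
    (hv : ∀ i ∈ T, ‖v i‖ = tau δ (c i)) (ha : ∀ i ∈ T, ‖a i‖ ≤ ν i) (hfar : ∑ i ∈ T₂, ν i ≤ η) (hnear : ∀ i ∈ T, i ∉ T₂ → ‖f - c i‖ ≤ η)
    {i₀ : ι} (hi₀ : i₀ ∈ T) (hi₂ : i₀ ∉ T₂) (ha₀ : 3 / 5 ≤ ‖a i₀‖) (hoth : ∑ i ∈ T.filter (fun i => i ≠ i₀), ν i ≤ 1 / 100) :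
    tau δ f ^ 2 / 5 ≤ ‖∑ i ∈ T, a i • v i‖ ^ 2 := by
  classical
  set t := tau δ f with ht
  have ht1 : u / 2 ≤ t := tau_lower hN (by linarith) hf.1
  have hη1 : η ≤ t / 5 := by nlinarith
  have hν : ∀ i ∈ T, 0 ≤ ν i := fun i hi => (norm_nonneg _).trans (ha i hi)
  have hv0 : t - η / 2 ≤ ‖v i₀‖ := by
    rw [hv i₀ hi₀]
    have h1 := tau_lip δ f (c i₀)
    have h2 := hnear i₀ hi₀ hi₂
    have h3 := (abs_le.1 h1).2
    linarith
  have hvn : ∀ i ∈ T, i ∉ T₂ → ‖v i‖ ≤ t + η / 2 := by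
    intro i hi hi2
    rw [hv i hi]
    have h1 := tau_lip δ f (c i)
    have h2 := hnear i hi hi2
    have h3 := (abs_le.1 h1).1
    linarith
  have hvf : ∀ i ∈ T, ‖v i‖ ≤ 1 / 4 := by
    intro i hi
    rw [hv i hi]
    have h1 := (tau_bounds hδ1.le (hc i hi)).2
    linarith
  have hterm : ∀ i ∈ T.filter (fun i => i ≠ i₀), ‖a i • v i‖ ≤
      ν i * (t + η / 2) + (if i ∈ T₂ then ν i * (1 / 4) else 0) := by
    intro i hi
    have hiT := (Finset.mem_filter.1 hi).1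
    rw [norm_smul]
    have h0 := hν i hiT
    have h1 : ‖a i‖ * ‖v i‖ ≤ ν i * ‖v i‖ := mul_le_mul_of_nonneg_right (ha i hiT) (norm_nonneg _)
    split_ifs with h
    · have h2 := mul_le_mul_of_nonneg_left (hvf i hiT) h0
      have h3 : 0 ≤ ν i * (t + η / 2) := mul_nonneg h0 (by linarith)
      linarith
    · have h2 := mul_le_mul_of_nonneg_left (hvn i hiT h) h0
      linarith
  have hsum : ‖∑ i ∈ T.filter (fun i => i ≠ i₀), a i • v i‖ ≤ 1 / 100 * (t + η / 2) + η * (1 / 4) := by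
    refine (norm_sum_le_of_le _ hterm).trans ?_
    rw [Finset.sum_add_distrib, ← Finset.sum_mul]
    have h1 : (∑ i ∈ T.filter (fun i => i ≠ i₀), ν i) * (t + η / 2) ≤ 1 / 100 * (t + η / 2) :=
      mul_le_mul_of_nonneg_right hoth (by linarith)
    have h2 : ∑ i ∈ T.filter (fun i => i ≠ i₀), (if i ∈ T₂ then ν i * (1 / 4) else 0) ≤ η * (1 / 4) := by
      rw [← Finset.sum_filter]
      have h3 : ∑ i ∈ (T.filter (fun i => i ≠ i₀)).filter (fun i => i ∈ T₂), ν i * (1 / 4) ≤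
          ∑ i ∈ T₂, ν i * (1 / 4) := by
        refine Finset.sum_le_sum_of_subset_of_nonneg ?_ ?_
        · intro i hi
          exact (Finset.mem_filter.1 hi).2
        · intro i hi _
          exact mul_nonneg (hν i (hT₂ hi)) (by norm_num)
      refine h3.trans ?_
      rw [← Finset.sum_mul]
      exact mul_le_mul_of_nonneg_right hfar (by norm_num)
    linarith
  have hsplit : ∑ i ∈ T, a i • v i = a i₀ • v i₀ + ∑ i ∈ T.filter (fun i => i ≠ i₀), a i • v i := by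
    rw [← Finset.add_sum_erase T _ hi₀]
    congr 1
    refine Finset.sum_congr ?_ fun _ _ => rfl
    ext i
    simp only [Finset.mem_erase, Finset.mem_filter]
    tauto
  have hlow : 3 / 5 * (t - η / 2) ≤ ‖a i₀ • v i₀‖ := by
    rw [norm_smul]
    exact mul_le_mul ha₀ hv0 (by linarith) (norm_nonneg _)
  have hG : 47 / 100 * t ≤ ‖∑ i ∈ T, a i • v i‖ := by
    rw [hsplit]
    have h1 := norm_sub_le_norm_add (a i₀ • v i₀) (∑ i ∈ T.filter (fun i => i ≠ i₀), a i • v i)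
    linarith
  have ht0 : 0 ≤ t := by linarith
  have h5 : (47 / 100 * t) ^ 2 ≤ ‖∑ i ∈ T, a i • v i‖ ^ 2 := pow_le_pow_left₀ (by positivity) hG 2
  nlinarith [sq_nonneg t]

end Pool.Agent.MPca0fc2.ZL
end
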