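import Pool.Agent.Lib.MP_ca0fc2_an.Mg.G089
import Pool.Agent.Lib.MP_ca0fc2_an.Mg.G096
import Pool.Agent.Lib.MP_ca0fc2_an.Mg.G097
import Pool.Agent.Lib.MP_ca0fc2_an.Mg.G092
import Pool.Agent.Lib.MP_ca0fc2_an.Mg.G095
import Pool.Agent.Lib.MP_ca0fc2_an.Mg.G093
import Pool.Agent.Lib.MP_ca0fc2_an.ZL.SlA

section

/-! Campaign ZL (zero-one law), task StB: the perturbation `F + GG`. -/

set_option autoImplicit false

open Metric Set Filter Topology

namespace Pool.Agent.MPca0fc2.ZL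

open Pool.Agent.MPca0fc2.TB (En)

/-- The perturbation at a small scale `1 / √m`.
PROOF. `a` from `gauss_a n`, `C` from `gauss_far n`. `u` from `room` (`SlA`) for `F` with `b = (1 - δ) / 4`, `η = δ u / 10`. Uniform continuity of `F` on the compact `closedBall 0 1`: `r > 0` with `‖x - y‖ ≤ r → ‖F x - F y‖ ≤ η`. Choose `m > 0` so large that `1 / √m ≤ r`, `C exp (- m r² / 4) ≤ η`,
`C exp (- m (1 - R)² / 4) ≤ ε`. Let `T`, `v`, `ω` be given; `a / √m ≥ 1 / √m`. For `z ∈ closedBall 0 1`: `ν ξ = exp (- m ‖z - ξ‖² / 2)`, `a ξ = ω ξ * exp (- m (1 - inner ℂ ξ z))`, `‖a ξ‖ ≤ ν ξ` (`norm_peak`), `T₂ = T.filter (fun ξ => r < ‖z - ξ‖)`, `∑ (T₂) ν ≤ η` (`gauss_far` for `T₂` with `t = r`), `∑ T ν ≤ 11 / 10` (`gauss_a`),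
`‖F z - F ξ‖ ≤ η` for `ξ ∈ T \ T₂`. `pointwise` (with `c ξ = F ξ`; `F ξ ∈ U N δ`) gives `F z + GG z ∈ U N δ`. `F + GG` is continuous on `closedBall 0 1` and holomorphic on `ball 0 1` (`differentiable_GG`).
For `‖z‖ ≤ R`: `‖z - ξ‖ ≥ 1 - R` and `‖v ξ‖ ≤ 1` (`tau_bounds`), so `‖GG z‖ ≤ ∑ ν ξ ≤ C exp (- m (1 - R)² / 4) ≤ ε` (`gauss_far`, `t = 1 - R ≥ 0`; if `R < 0` there is nothing to prove).
If `‖z‖ = 1`, `ξ₀ ∈ T`, `‖z - ξ₀‖ < 1 / √m`: `‖a ξ₀‖ = exp (- m ‖z - ξ₀‖² / 2) ≥ exp (- 1 / 2) ≥ 3 / 5`, `ξ₀ ∉ T₂`, `gauss_a` gives the sum over the others, and `gain`. -/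
theorem step_vals (n : ℕ) : ∃ a : ℝ, 4 ≤ a ∧ ∀ N : ℕ, 2 ≤ N → ∀ δ : ℝ, 0 < δ → δ < 1 → ∀ F : En n → En N, AU δ F → ∀ R ε : ℝ, R < 1 → 0 < ε →
    ∃ m : ℝ, 0 < m ∧ ∀ (T : Finset (En n)) (ω : En n → ℂ) (v : En n → En N), (∀ ξ ∈ T, ‖ξ‖ = 1) → (∀ c ∈ T, ∀ d ∈ T, c ≠ d → a * (1 / √m) ≤ ‖c - d‖) →
      (∀ ξ ∈ T, ‖ω ξ‖ = 1) → (∀ ξ ∈ T, ‖v ξ‖ = tau δ (F ξ) ∧ (∀ j, ‖v ξ j‖ ≤ (1 - ‖F ξ j‖) / 2) ∧ ((1 + δ) / 2 ≤ ‖F ξ‖ ∨ inner ℂ (F ξ) (v ξ) = 0)) →
      AU δ (fun z => F z + GG m T ω v z) ∧ (∀ z ∈ closedBall (0 : En n) R, ‖GG m T ω v z‖ ≤ ε) ∧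
      ∀ z : En n, ‖z‖ = 1 → ∀ ξ ∈ T, ‖z - ξ‖ < 1 / √m → tau δ (F z) ^ 2 / 5 ≤ ‖GG m T ω v z‖ ^ 2 := by
  classical
  obtain ⟨a, ha4, hga⟩ := gauss_a n
  obtain ⟨C, hC, hgf⟩ := gauss_far n
  refine ⟨a, ha4, ?_⟩
  intro N hN δ hδ hδ1 F hF R ε hR hε
  obtain ⟨u, hu, hub, hroom⟩ := room hF (b := (1 - δ) / 4) (by linarith)
  have hη : 0 < δ * u / 10 := by positivity
  have huc : UniformContinuousOn F (closedBall 0 1) :=
    (isCompact_closedBall (0 : En n) 1).uniformContinuousOn_of_continuous hF.2.1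
  obtain ⟨r, hr, hr'⟩ := Metric.uniformContinuousOn_iff_le.1 huc (δ * u / 10) hη
  have hlim : ∀ c : ℝ, 0 < c → ∀ e : ℝ, 0 < e → ∀ᶠ m : ℝ in atTop, C * Real.exp (-(m * c)) ≤ e := by
    intro c hc e he
    have h1 : Tendsto (fun m : ℝ => m * c) atTop atTop := tendsto_id.atTop_mul_const hc
    have h2 := (Real.tendsto_exp_neg_atTop_nhds_zero.comp h1).const_mul C
    rw [mul_zero] at h2
    exact (h2.eventually (gt_mem_nhds he)).mono fun m hm => le_of_lt hm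
  obtain ⟨m, ⟨hm0, hm1⟩, hm2, hm3⟩ := (((eventually_gt_atTop (0 : ℝ)).and (eventually_ge_atTop ((1 / r) ^ 2))).and
    ((hlim (r ^ 2 / 4) (by positivity) _ hη).and
      (hlim ((1 - R) ^ 2 / 4) (by have : 0 < 1 - R := by linarith
                                  positivity) _ hε))).exists
  have hsm : 0 < √m := Real.sqrt_pos.2 hm0
  have hmr : 1 / √m ≤ r := by
    have h1 : 1 / r ≤ √m := Real.le_sqrt_of_sq_le hm1
    rw [div_le_iff₀ hsm]
    rw [div_le_iff₀ hr] at h1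
    linarith [mul_comm r (√m)]
  refine ⟨m, hm0, ?_⟩
  intro T ω v hT hsep hω hv
  have hsep' : ∀ c ∈ T, ∀ d ∈ T, c ≠ d → a / √m ≤ ‖c - d‖ := by
    intro c hc d hd hcd
    have h1 := hsep c hc d hd hcd
    rwa [mul_one_div] at h1
  have hsep1 : ∀ Y : Finset (En n), Y ⊆ T → ∀ c ∈ Y, ∀ d ∈ Y, c ≠ d → 1 / √m ≤ ‖c - d‖ := by
    intro Y hY c hc d hd hcd
    have h1 := hsep c (hY hc) d (hY hd) hcd
    have h2 : 0 < 1 / √m := by positivity
    nlinarith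
  have hTb : ∀ ξ ∈ T, ξ ∈ closedBall (0 : En n) 1 := by
    intro ξ hξ
    rw [mem_closedBall_zero_iff, hT ξ hξ]
  have hFc : ∀ ξ ∈ T, ∀ j, ‖F ξ j‖ ≤ 1 := fun ξ hξ j => ((hF.2.2 ξ (hTb ξ hξ)).1 j).le
  have hvle : ∀ ξ ∈ T, ‖v ξ‖ ≤ 1 := by
    intro ξ hξ
    rw [(hv ξ hξ).1]
    have h1 := (tau_bounds hδ1.le (hFc ξ hξ)).2
    linarith
  have hGG : ∀ z, GG m T ω v z = ∑ ξ ∈ T, (ω ξ * Complex.exp (-(m : ℂ) * (1 - inner ℂ ξ z))) • v ξ := fun z => rfl
  have haν : ∀ z : En n, ‖z‖ ≤ 1 → ∀ ξ ∈ T, ‖ω ξ * Complex.exp (-(m : ℂ) * (1 - inner ℂ ξ z))‖ ≤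
      Real.exp (-(m * ‖z - ξ‖ ^ 2 / 2)) := by
    intro z hz ξ hξ
    rw [norm_mul, hω ξ hξ, one_mul]
    exact (norm_peak (hT ξ hξ) hz hm0.le).1
  have hfar : ∀ z : En n, ∑ ξ ∈ T.filter (fun ξ => r < ‖z - ξ‖), Real.exp (-(m * ‖z - ξ‖ ^ 2 / 2)) ≤ δ * u / 10 := by
    intro z
    have h1 := hgf m hm0 (T.filter (fun ξ => r < ‖z - ξ‖)) (hsep1 _ (Finset.filter_subset _ _)) z r hr.le
      (fun y hy => (Finset.mem_filter.1 hy).2.le)
    rw [mul_div_assoc] at h1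
    exact h1.trans hm2
  have hnear : ∀ z : En n, ‖z‖ ≤ 1 → ∀ ξ ∈ T, ξ ∉ T.filter (fun ξ => r < ‖z - ξ‖) → ‖F z - F ξ‖ ≤ δ * u / 10 := by
    intro z hz ξ hξ hξ2
    rw [← dist_eq_norm]
    refine hr' z (by rwa [mem_closedBall_zero_iff]) ξ (hTb ξ hξ) ?_
    rw [dist_eq_norm]
    by_contra h
    exact hξ2 (Finset.mem_filter.2 ⟨hξ, not_le.1 h⟩)
  refine ⟨⟨?_, ?_, ?_⟩, ?_, ?_⟩
  · exact hF.1.add (differentiable_GG m T ω v).differentiableOn
  · exact hF.2.1.add (differentiable_GG m T ω v).continuous.continuousOn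
  · intro z hz
    have hz1 : ‖z‖ ≤ 1 := by rwa [mem_closedBall_zero_iff] at hz
    have h := pointwise hδ hδ1 hu hub hη le_rfl T (T.filter (fun ξ => r < ‖z - ξ‖)) (Finset.filter_subset _ _)
      (hroom z hz) hFc hv (haν z hz1) (hga m hm0 T hsep' z).1 (hfar z) (hnear z hz1)
    rw [← hGG z] at h
    exact ⟨fun j => lt_of_le_of_lt (h.1 j) (by linarith), lt_of_lt_of_le (by linarith) h.2⟩
  · intro z hz
    have hzR : ‖z‖ ≤ R := by rwa [mem_closedBall_zero_iff] at hz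
    have hz1 : ‖z‖ ≤ 1 := by linarith
    have h1 := hgf m hm0 T (hsep1 _ subset_rfl) z (1 - R) (by linarith) (fun y hy => by
      have h2 := norm_sub_norm_le y z
      rw [hT y hy, norm_sub_rev] at h2
      linarith)
    rw [mul_div_assoc] at h1
    rw [hGG]
    refine (norm_sum_le_of_le T (fun ξ hξ => ?_)).trans (h1.trans hm3)
    rw [norm_smul]
    calc _ ≤ Real.exp (-(m * ‖z - ξ‖ ^ 2 / 2)) * 1 :=
          mul_le_mul (haν z hz1 ξ hξ) (hvle ξ hξ) (norm_nonneg _) (Real.exp_pos _).le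
      _ = _ := mul_one _
  · intro z hz ξ₀ hξ₀ hlt
    have hz1 : ‖z‖ ≤ 1 := hz.le
    have hzb : z ∈ closedBall (0 : En n) 1 := by rwa [mem_closedBall_zero_iff]
    rw [hGG]
    refine gain (by omega) hδ hδ1 hu hub hη le_rfl T (T.filter (fun ξ => r < ‖z - ξ‖)) (Finset.filter_subset _ _)
      (hroom z hzb) hFc (fun ξ hξ => (hv ξ hξ).1) (haν z hz1) (hfar z) (hnear z hz1) hξ₀ ?_ ?_
      ((hga m hm0 T hsep' z).2 ξ₀ hξ₀ hlt)
    · intro h
      have h2 := (Finset.mem_filter.1 h).2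
      linarith
    · rw [norm_mul, hω ξ₀ hξ₀, one_mul, (norm_peak (hT ξ₀ hξ₀) hz1 hm0.le).2 hz]
      have h1 : m * ‖z - ξ₀‖ ^ 2 ≤ 1 := by
        have h2 : ‖z - ξ₀‖ ^ 2 ≤ (1 / √m) ^ 2 := pow_le_pow_left₀ (norm_nonneg _) hlt.le 2
        have h3 : m * (1 / √m) ^ 2 = 1 := by
          rw [div_pow, Real.sq_sqrt hm0.le, one_pow]
          field_simp
        nlinarith
      have h4 : Real.exp (-(1 / 2)) ≤ Real.exp (-(m * ‖z - ξ₀‖ ^ 2 / 2)) := by
        apply Real.exp_le_exp.2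
        linarith
      refine le_trans ?_ h4
      rw [Real.exp_neg]
      have h5 : Real.exp (1 / 2) ≤ 5 / 3 := by
        have h6 : Real.exp (1 / 2) * Real.exp (1 / 2) = Real.exp 1 := by
          rw [← Real.exp_add]
          norm_num
        have h7 := Real.exp_one_lt_d9
        have h8 := Real.exp_pos (1 / 2)
        nlinarith
      have h9 : (3 / 5 : ℝ) = (5 / 3)⁻¹ := by norm_num
      rw [h9]
      exact inv_anti₀ (Real.exp_pos _) h5

end Pool.Agent.MPca0fc2.ZL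
end

section

/-! Campaign ZL (zero-one law), task OsA: one step towards inner functions. -/

set_option autoImplicit false

open Metric Set Filter Topology MeasureTheory

namespace Pool.Agent.MPca0fc2.ZL

open Pool.Agent.MPca0fc2.TB (En)

private theorem OsA_tau_cont {N : ℕ} (δ : ℝ) : Continuous (fun c : En N => tau δ c) := by
  have h : LipschitzWith 1 (fun c : En N => tau δ c) := by
    refine LipschitzWith.of_dist_le_mul fun c c' => ?_
    rw [Real.dist_eq, dist_eq_norm]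
    have h1 := tau_lip δ c c'
    have h2 := norm_nonneg (c - c')
    simp only [NNReal.coe_one, one_mul]
    linarith
  exact h.continuous

private theorem OsA_phase (b : ℂ) : ∃ ω : ℂ, ‖ω‖ = 1 ∧ 0 ≤ (ω * b).re := by
  by_cases hb : b = 0
  · exact ⟨1, by simp, by simp [hb]⟩
  · have hb' : ‖b‖ ≠ 0 := norm_ne_zero_iff.mpr hb
    refine ⟨(starRingEnd ℂ) b / ‖b‖, ?_, ?_⟩
    · rw [norm_div, Complex.norm_conj, Complex.norm_real, norm_norm, div_self hb']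
    · have h1 : (starRingEnd ℂ) b / ‖b‖ * b = ((‖b‖ : ℝ) : ℂ) := by
        have h2 : (starRingEnd ℂ) b * b = ((‖b‖ : ℝ) : ℂ) ^ 2 := by
          rw [mul_comm, Complex.mul_conj, Complex.normSq_eq_norm_sq]
          push_cast
          ring
        have h3 : ((‖b‖ : ℝ) : ℂ) ≠ 0 := by exact_mod_cast hb'
        rw [div_mul_eq_mul_div, h2]
        field_simp
      rw [h1]
      simp

/-- PROOF. `a` from `step_vals n`, `L` from `sel_net n` for this `a`, `κ = 1 / (5 L)`. Given `F`, `μ`, `R`, `ε`: `m` from `step_vals`, `ρ = 1 / √m`. `sel_net` with `ρ`, `μ`, `w x = tau δ (F x) ^ 2` (continuous on the sphere: `tau_lip` and `hF`; nonnegative): `T`. `v ξ` from `disc` for `c = F ξ` (`ξ ∈ T`; `F ξ ∈ U N δ`),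
`β ξ = ∫ x, exp (- m (1 - inner ℂ ξ x)) * inner ℂ (F x) (v ξ) ∂μ`, `ω ξ` with `‖ω ξ‖ = 1`, `0 ≤ Re (ω ξ * β ξ)` (`ω = conj β / ‖β‖`, or `1` if `β = 0`). `F' = F + GG m T ω v`. All functions on the sphere are continuous, so they are integrable (compact space, finite measure).
`‖F' x‖² = ‖F x‖² + 2 Re (inner ℂ (F x) (GG x)) + ‖GG x‖²`. `∫ inner ℂ (F x) (GG x) = ∑ ξ ∈ T, ω ξ * β ξ` (the inner product is linear in the second variable), so its real part is `≥ 0`. `∫ ‖GG‖² ≥ ∑ ξ ∈ T, ∫ x in B ξ, ‖GG x‖²`, `B ξ = {x | ‖x - ξ‖ < ρ}`: the sets `B ξ` are open (measurable) and pairwise disjoint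
(`4 ρ ≤ a ρ ≤ ‖ξ - ξ'‖`) and `‖GG‖² ≥ 0` (e.g. `∑ ξ ∈ T, indicator (B ξ) ‖GG‖² ≤ ‖GG‖²` pointwise: at most one term is not `0`). On `B ξ`: `‖GG x‖² ≥ tau δ (F x) ^ 2 / 5`. So `∫ ‖F'‖² ≥ ∫ ‖F‖² + (1/5) ∑ ξ ∈ T, ∫ x in B ξ, w x ≥ ∫ ‖F‖² + 1 / (5 L) ∫ w`. -/
theorem one_step (n : ℕ) : ∃ κ : ℝ, 0 < κ ∧ ∀ N : ℕ, 2 ≤ N → ∀ δ : ℝ, 0 < δ → δ < 1 → ∀ F : En n → En N, AU δ F →
    ∀ (μ : Measure (sphere (0 : En n) 1)) [IsFiniteMeasure μ], ∀ R ε : ℝ, R < 1 → 0 < ε →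
    ∃ F' : En n → En N, AU δ F' ∧ (∀ z ∈ closedBall (0 : En n) R, ‖F' z - F z‖ ≤ ε) ∧
      ∫ x : sphere (0 : En n) 1, ‖F x‖ ^ 2 ∂μ + κ * ∫ x : sphere (0 : En n) 1, tau δ (F x) ^ 2 ∂μ ≤ ∫ x : sphere (0 : En n) 1, ‖F' x‖ ^ 2 ∂μ := by
  obtain ⟨a, ha, H⟩ := step_vals n
  obtain ⟨L, hL, HL⟩ := sel_net n (a := a) (by linarith)
  refine ⟨1 / (5 * L), by positivity, fun N hN δ hδ hδ1 F hF μ _ R ε hR hε => ?_⟩
  obtain ⟨m, hm, Hm⟩ := H N hN δ hδ hδ1 F hF R ε hR hε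
  have hρ : 0 < 1 / √m := by positivity
  have hFc : Continuous (fun x : sphere (0 : En n) 1 => F x) :=
    hF.2.1.comp_continuous continuous_subtype_val (fun x => sphere_subset_closedBall x.2)
  have hwc : Continuous (fun x : sphere (0 : En n) 1 => tau δ (F x) ^ 2) :=
    ((OsA_tau_cont δ).comp hFc).pow 2
  obtain ⟨T, hT1, hT2, hT3⟩ := HL (1 / √m) hρ μ (fun x => tau δ (F x) ^ 2) hwc (fun x => sq_nonneg _)
  have hv : ∀ ξ : En n, ∃ v : En N, ξ ∈ T → (‖v‖ = tau δ (F ξ) ∧ (∀ j, ‖v j‖ ≤ (1 - ‖F ξ j‖) / 2) ∧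
      ((1 + δ) / 2 ≤ ‖F ξ‖ ∨ inner ℂ (F ξ) v = 0)) := by
    intro ξ
    by_cases hξ : ξ ∈ T
    · have hU := hF.2.2 ξ (by rw [mem_closedBall_zero_iff, hT1 ξ hξ])
      obtain ⟨v, hv⟩ := disc hN hδ1.le (c := F ξ) (fun j => (hU.1 j).le)
      exact ⟨v, fun _ => hv⟩
    · exact ⟨0, fun h => absurd h hξ⟩
  choose v hv using hv
  have hω : ∀ ξ : En n, ∃ ω : ℂ, ‖ω‖ = 1 ∧ 0 ≤ (ω * ∫ x : sphere (0 : En n) 1,
      Complex.exp (-(m : ℂ) * (1 - inner ℂ ξ (x : En n))) * inner ℂ (F x) (v ξ) ∂μ).re :=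
    fun ξ => OsA_phase _
  choose ω hω1 hω2 using hω
  obtain ⟨hA, hB, hC⟩ := Hm T ω v hT1 hT2 (fun ξ _ => hω1 ξ) hv
  refine ⟨fun z => F z + GG m T ω v z, hA, fun z hz => ?_, ?_⟩
  · rw [add_sub_cancel_left]
    exact hB z hz
  -- continuity and integrability
  have hGc : Continuous (fun x : sphere (0 : En n) 1 => GG m T ω v x) :=
    (differentiable_GG m T ω v).continuous.comp continuous_subtype_val
  have hInt : ∀ f : sphere (0 : En n) 1 → ℝ, Continuous f → Integrable f μ := fun f hf =>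
    hf.integrable_of_hasCompactSupport (HasCompactSupport.of_compactSpace f)
  have hIntC : ∀ f : sphere (0 : En n) 1 → ℂ, Continuous f → Integrable f μ := fun f hf =>
    hf.integrable_of_hasCompactSupport (HasCompactSupport.of_compactSpace f)
  have hgc : Continuous (fun x : sphere (0 : En n) 1 => inner ℂ (F x) (GG m T ω v x)) :=
    hFc.inner hGc
  have hrec : Continuous (fun x : sphere (0 : En n) 1 => (inner ℂ (F x) (GG m T ω v x) : ℂ).re) :=
    Complex.continuous_re.comp hgc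
  have h1c : Continuous (fun x : sphere (0 : En n) 1 => ‖F x‖ ^ 2) := hFc.norm.pow 2
  have h3c : Continuous (fun x : sphere (0 : En n) 1 => ‖GG m T ω v x‖ ^ 2) := hGc.norm.pow 2
  have hexp : ∀ x : sphere (0 : En n) 1, ‖F x + GG m T ω v x‖ ^ 2 =
      ‖F x‖ ^ 2 + 2 * (inner ℂ (F x) (GG m T ω v x) : ℂ).re + ‖GG m T ω v x‖ ^ 2 := by
    intro x
    have := norm_add_sq (𝕜 := ℂ) (F x) (GG m T ω v x)
    rw [this]
    simp only [RCLike.re_to_complex]
  have hsum : ∫ x : sphere (0 : En n) 1, ‖F x + GG m T ω v x‖ ^ 2 ∂μ =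
      ∫ x : sphere (0 : En n) 1, ‖F x‖ ^ 2 ∂μ +
      2 * ∫ x : sphere (0 : En n) 1, (inner ℂ (F x) (GG m T ω v x) : ℂ).re ∂μ +
      ∫ x : sphere (0 : En n) 1, ‖GG m T ω v x‖ ^ 2 ∂μ := by
    simp_rw [hexp]
    have i1 := hInt _ h1c
    have i2 := (hInt _ hrec).const_mul 2
    have i3 := hInt _ h3c
    have e1 := integral_add (i1.add i2) i3
    have e2 := integral_add i1 i2
    simp only [Pi.add_apply] at e1 e2
    rw [e1, e2, integral_const_mul]
  -- the linear term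
  have hlin : 0 ≤ ∫ x : sphere (0 : En n) 1, (inner ℂ (F x) (GG m T ω v x) : ℂ).re ∂μ := by
    have e1 : ∫ x : sphere (0 : En n) 1, (inner ℂ (F x) (GG m T ω v x) : ℂ).re ∂μ =
        (∫ x : sphere (0 : En n) 1, (inner ℂ (F x) (GG m T ω v x) : ℂ) ∂μ).re := by
      have := integral_re (𝕜 := ℂ) (hIntC _ hgc)
      simpa only [RCLike.re_to_complex] using this
    have hec : ∀ ξ : En n, Continuous (fun x : sphere (0 : En n) 1 =>
        Complex.exp (-(m : ℂ) * (1 - inner ℂ ξ (x : En n))) * inner ℂ (F x) (v ξ)) := by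
      intro ξ
      have c1 : Continuous (fun x : sphere (0 : En n) 1 => (inner ℂ ξ (x : En n) : ℂ)) :=
        continuous_const.inner continuous_subtype_val
      have c2 : Continuous (fun x : sphere (0 : En n) 1 => (inner ℂ (F x) (v ξ) : ℂ)) :=
        hFc.inner continuous_const
      exact (Complex.continuous_exp.comp (continuous_const.mul (continuous_const.sub c1))).mul c2
    have e2 : ∫ x : sphere (0 : En n) 1, (inner ℂ (F x) (GG m T ω v x) : ℂ) ∂μ =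
        ∑ ξ ∈ T, ω ξ * ∫ x : sphere (0 : En n) 1,
          Complex.exp (-(m : ℂ) * (1 - inner ℂ ξ (x : En n))) * inner ℂ (F x) (v ξ) ∂μ := by
      have e3 : ∀ x : sphere (0 : En n) 1, (inner ℂ (F x) (GG m T ω v x) : ℂ) =
          ∑ ξ ∈ T, ω ξ * (Complex.exp (-(m : ℂ) * (1 - inner ℂ ξ (x : En n))) * inner ℂ (F x) (v ξ)) := by
        intro x
        unfold GG
        rw [inner_sum]
        refine Finset.sum_congr rfl fun ξ _ => ?_
        rw [inner_smul_right]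
        ring
      simp_rw [e3]
      rw [integral_finsetSum]
      · refine Finset.sum_congr rfl fun ξ _ => ?_
        rw [integral_const_mul]
      · intro ξ _
        exact (hIntC _ (hec ξ)).const_mul _
    rw [e1, e2, Complex.re_sum]
    exact Finset.sum_nonneg fun ξ _ => hω2 ξ
  -- the quadratic term
  have hBm : ∀ ξ ∈ T, MeasurableSet {x : sphere (0 : En n) 1 | ‖(x : En n) - ξ‖ < 1 / √m} := by
    intro ξ _
    exact (isOpen_lt (continuous_subtype_val.sub continuous_const).norm continuous_const).measurableSet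
  have hdisj : Set.Pairwise (↑T : Set (En n)) (Function.onFun Disjoint
      fun ξ => {x : sphere (0 : En n) 1 | ‖(x : En n) - ξ‖ < 1 / √m}) := by
    intro ξ hξ ξ' hξ' hne
    rw [Function.onFun, Set.disjoint_left]
    intro x hx hx'
    have h1 : ‖(x : En n) - ξ‖ < 1 / √m := hx
    have h2 : ‖(x : En n) - ξ'‖ < 1 / √m := hx'
    have h3 := hT2 ξ hξ ξ' hξ' hne
    have h4 : ‖ξ - ξ'‖ ≤ ‖(x : En n) - ξ'‖ + ‖(x : En n) - ξ‖ := by
      have : ξ - ξ' = ((x : En n) - ξ') - ((x : En n) - ξ) := by abel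
      rw [this]
      exact norm_sub_le _ _
    nlinarith
  have hquad : ∑ ξ ∈ T, ∫ x in {x : sphere (0 : En n) 1 | ‖(x : En n) - ξ‖ < 1 / √m},
      ‖GG m T ω v x‖ ^ 2 ∂μ ≤ ∫ x : sphere (0 : En n) 1, ‖GG m T ω v x‖ ^ 2 ∂μ := by
    have e1 := integral_biUnion_finset (μ := μ) T hBm hdisj
      (f := fun x : sphere (0 : En n) 1 => ‖GG m T ω v x‖ ^ 2) (fun ξ _ => (hInt _ h3c).integrableOn)
    rw [← e1]
    exact setIntegral_le_integral (hInt _ h3c) (Filter.Eventually.of_forall fun x => by positivity)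
  have hlow : ∀ ξ ∈ T, 1 / 5 * ∫ x in {x : sphere (0 : En n) 1 | ‖(x : En n) - ξ‖ < 1 / √m},
      tau δ (F x) ^ 2 ∂μ ≤ ∫ x in {x : sphere (0 : En n) 1 | ‖(x : En n) - ξ‖ < 1 / √m},
      ‖GG m T ω v x‖ ^ 2 ∂μ := by
    intro ξ hξ
    rw [← integral_const_mul]
    refine setIntegral_mono_on ((hInt _ hwc).integrableOn.const_mul _) (hInt _ h3c).integrableOn
      (hBm ξ hξ) fun x hx => ?_
    have := hC x (by simp) ξ hξ hx
    linarith
  have hfin : 1 / (5 * L) * ∫ x : sphere (0 : En n) 1, tau δ (F x) ^ 2 ∂μ ≤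
      ∫ x : sphere (0 : En n) 1, ‖GG m T ω v x‖ ^ 2 ∂μ := by
    refine le_trans ?_ hquad
    refine le_trans ?_ (Finset.sum_le_sum hlow)
    rw [← Finset.mul_sum]
    have h1 : 1 / (5 * L) * ∫ x : sphere (0 : En n) 1, tau δ (F x) ^ 2 ∂μ =
        1 / 5 * (1 / L * ∫ x : sphere (0 : En n) 1, tau δ (F x) ^ 2 ∂μ) := by
      field_simp
    rw [h1]
    refine mul_le_mul_of_nonneg_left ?_ (by norm_num)
    rw [one_div, inv_mul_le_iff₀ hL]
    exact hT3
  rw [hsum]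
  linarith

end Pool.Agent.MPca0fc2.ZL
end

section

/-! Campaign ZL (zero-one law), task ItA: data near the given ones which are nearly inner. -/

set_option autoImplicit false

open Metric Set Filter Topology MeasureTheory

namespace Pool.Agent.MPca0fc2.ZL

open Pool.Agent.MPca0fc2.TB (En)

private theorem ItA_int {n : ℕ} (μ : Measure (sphere (0 : En n) 1)) [IsFiniteMeasure μ]
    {g : sphere (0 : En n) 1 → ℝ} (hg : Continuous g) : Integrable g μ :=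
  hg.integrable_of_hasCompactSupport (HasCompactSupport.of_compactSpace g)

private theorem ItA_cont {n N : ℕ} {δ : ℝ} {F : En n → En N} (hF : AU δ F) :
    Continuous fun x : sphere (0 : En n) 1 => F x :=
  hF.2.1.comp_continuous continuous_subtype_val fun x => sphere_subset_closedBall x.2

private theorem ItA_tau {N : ℕ} (δ : ℝ) : Continuous (tau δ : En N → ℝ) := by
  have h : LipschitzWith 1 (tau δ : En N → ℝ) := by
    apply LipschitzWith.of_dist_le_mul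
    intro c c'
    rw [Real.dist_eq, dist_eq_norm, NNReal.coe_one, one_mul]
    have h1 := tau_lip δ c c'
    have h2 := norm_nonneg (c - c')
    linarith
  exact h.continuous

private theorem ItA_norm {N : ℕ} {c : En N} (hc : ∀ j, ‖c j‖ ≤ 1) : ‖c‖ ^ 2 ≤ N := by
  rw [EuclideanSpace.norm_sq_eq]
  calc ∑ j, ‖c j‖ ^ 2 ≤ ∑ _j : Fin N, (1 : ℝ) :=
        Finset.sum_le_sum fun j _ => pow_le_one₀ (norm_nonneg _) (hc j)
    _ = N := by simp

private theorem ItA_low {n N : ℕ} (hN : 2 ≤ N) {δ : ℝ} (hδ : 0 < δ) (hδ1 : δ < 1) {F : En n → En N} (hF : AU δ F)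
    (μ : Measure (sphere (0 : En n) 1)) [IsFiniteMeasure μ] {I₀ t k : ℝ} (hI : 0 < I₀) (ht : t = I₀ / (μ.real univ + 1))
    (hk : k = (1 - δ) / (8 * N)) (hIF : I₀ ≤ ∫ x : sphere (0 : En n) 1, ((N : ℝ) - ‖F x‖ ^ 2) ∂μ) :
    k ^ 2 * (t * I₀) ≤ ∫ x : sphere (0 : En n) 1, tau δ (F x) ^ 2 ∂μ := by
  have hM : 0 ≤ μ.real univ := measureReal_nonneg
  have hN0 : (0 : ℝ) < N := by
    have : 0 < N := by omega
    exact_mod_cast this
  have hk0 : 0 < k := by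
    rw [hk]
    apply div_pos (by linarith) (by positivity)
  have ht0 : 0 < t := by rw [ht]; positivity
  have htM : t * (μ.real univ + 1) = I₀ := by
    rw [ht]; field_simp
  have hcF := ItA_cont hF
  have hcD : Continuous fun x : sphere (0 : En n) 1 => (N : ℝ) - ‖F x‖ ^ 2 :=
    continuous_const.sub ((continuous_norm.comp hcF).pow 2)
  have hcT : Continuous fun x : sphere (0 : En n) 1 => tau δ (F x) ^ 2 :=
    ((ItA_tau δ).comp hcF).pow 2
  have hpt : ∀ x : sphere (0 : En n) 1,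
      k ^ 2 * (2 * t * ((N : ℝ) - ‖F x‖ ^ 2) - t ^ 2) ≤ tau δ (F x) ^ 2 := by
    intro x
    have hx := hF.2.2 x (sphere_subset_closedBall x.2)
    have hx1 : ∀ j, ‖F x j‖ ≤ 1 := fun j => (hx.1 j).le
    have hD := ItA_norm hx1
    have h1 := tau_deficit hδ.le hδ1.le hx1
    have h2 : k * ((N : ℝ) - ‖F x‖ ^ 2) ≤ tau δ (F x) := by
      rw [hk, div_mul_eq_mul_div, div_le_iff₀ (by positivity)]
      have h3 : (1 - δ) * ((N : ℝ) - ‖F x‖ ^ 2) = 8 * ((1 - δ) / 8 * ((N : ℝ) - ‖F x‖ ^ 2)) := by ring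
      rw [h3]
      linarith
    set D : ℝ := (N : ℝ) - ‖F x‖ ^ 2 with hDd
    have hD0 : 0 ≤ D := by linarith
    have h4 : (k * D) ^ 2 ≤ tau δ (F x) ^ 2 := pow_le_pow_left₀ (by positivity) h2 2
    have h5 : k ^ 2 * (2 * t * D - t ^ 2) ≤ (k * D) ^ 2 := by
      rw [mul_pow]
      apply mul_le_mul_of_nonneg_left _ (by positivity)
      nlinarith [sq_nonneg (D - t)]
    exact h5.trans h4
  have hint : ∫ x : sphere (0 : En n) 1, k ^ 2 * (2 * t * ((N : ℝ) - ‖F x‖ ^ 2) - t ^ 2) ∂μ =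
      k ^ 2 * (2 * t * (∫ x : sphere (0 : En n) 1, ((N : ℝ) - ‖F x‖ ^ 2) ∂μ) - μ.real univ * t ^ 2) := by
    have i1 : Integrable (fun x : sphere (0 : En n) 1 => 2 * t * ((N : ℝ) - ‖F x‖ ^ 2)) μ :=
      ItA_int μ (continuous_const.mul hcD)
    have i2 : Integrable (fun _ : sphere (0 : En n) 1 => t ^ 2) μ := integrable_const _
    rw [integral_const_mul, integral_sub i1 i2, integral_const_mul, integral_const, smul_eq_mul]
  have hmono : ∫ x : sphere (0 : En n) 1, k ^ 2 * (2 * t * ((N : ℝ) - ‖F x‖ ^ 2) - t ^ 2) ∂μ ≤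
      ∫ x : sphere (0 : En n) 1, tau δ (F x) ^ 2 ∂μ :=
    integral_mono (ItA_int μ (continuous_const.mul ((continuous_const.mul hcD).sub continuous_const)))
      (ItA_int μ hcT) hpt
  rw [hint] at hmono
  refine le_trans ?_ hmono
  apply mul_le_mul_of_nonneg_left _ (by positivity)
  have h6 : μ.real univ * t ^ 2 ≤ t * I₀ := by
    rw [← htM]
    nlinarith [sq_nonneg t]
  have h7 : t * I₀ ≤ t * ∫ x : sphere (0 : En n) 1, ((N : ℝ) - ‖F x‖ ^ 2) ∂μ :=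
    mul_le_mul_of_nonneg_left hIF ht0.le
  linarith

/-- PROOF. `I F = ∫ x, (N - ‖F x‖²) ∂μ ≥ 0` for `AU δ F` (`‖F x‖² = ∑ ‖F x j‖² ≤ N`). `S` = the set of the numbers `I F` for the `F` with `AU δ F` and `∀ z ∈ closedBall 0 R, ‖F z - f z‖ < ε`; it contains `I f` and is bounded below by `0`; `I₀ = sInf S ≥ 0`. If `I₀ < ε'` there is `F` as claimed. Suppose `ε' ≤ I₀`, so `I₀ > 0`.
`M = μ.real univ` (or `(μ univ).toReal`), `t = I₀ / (M + 1)`. For each such `F`, with `D x = N - ‖F x‖² ≥ 0`: `tau δ (F x) ≥ k D x`, `k = (1 - δ) / (8 N)` (`tau_deficit`, `N ≥ 2`), and `D² ≥ 2 t D - t²`, so `∫ tau² ≥ k² ∫ D² ≥ k² (2 t I F - t² M) ≥ k² t I₀` (`I F ≥ I₀`, `t M ≤ I₀`). Call this number `q > 0`.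
Choose `F` with `I F < I₀ + κ q` (`κ` from `one_step n`). By compactness of `closedBall 0 R ⊆ closedBall 0 1` and continuity there is `ε₁ > 0` with `‖F z - f z‖ + ε₁ < ε` on `closedBall 0 R` (if it is empty any `ε₁`). `one_step` for `F`, `μ`, `R`, `ε₁`: `F'` with `‖F' z - f z‖ < ε` on `closedBall 0 R` and
`I F' ≤ I F - κ q < I₀` (`∫ (N - ‖F‖²) = N M - ∫ ‖F‖²`), a contradiction. -/
theorem inner_near {n N : ℕ} (hN : 2 ≤ N) {δ : ℝ} (hδ : 0 < δ) (hδ1 : δ < 1) {f : En n → En N} (hf : AU δ f)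
    (μ : Measure (sphere (0 : En n) 1)) [IsFiniteMeasure μ] {R ε ε' : ℝ} (hR : R < 1) (hε : 0 < ε) (hε' : 0 < ε') :
    ∃ F : En n → En N, AU δ F ∧ (∀ z ∈ closedBall (0 : En n) R, ‖F z - f z‖ ≤ ε) ∧ ∫ x : sphere (0 : En n) 1, ((N : ℝ) - ‖F x‖ ^ 2) ∂μ < ε' := by
  obtain ⟨κ, hκ, hstep⟩ := one_step n
  by_contra hcon
  have hno : ∀ F : En n → En N, AU δ F → (∀ z ∈ closedBall (0 : En n) R, ‖F z - f z‖ ≤ ε) →
      ε' ≤ ∫ x : sphere (0 : En n) 1, ((N : ℝ) - ‖F x‖ ^ 2) ∂μ := by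
    intro F hF hFf
    by_contra hlt
    exact hcon ⟨F, hF, hFf, not_le.mp hlt⟩
  set S : Set ℝ := {r | ∃ F : En n → En N, AU δ F ∧ (∀ z ∈ closedBall (0 : En n) R, ‖F z - f z‖ < ε) ∧
    r = ∫ x : sphere (0 : En n) 1, ((N : ℝ) - ‖F x‖ ^ 2) ∂μ} with hS
  have hSne : S.Nonempty := ⟨_, f, hf, fun z _ => by rw [sub_self, norm_zero]; exact hε, rfl⟩
  have hSlow : ∀ r ∈ S, ε' ≤ r := by
    rintro r ⟨F, hF, hFf, rfl⟩
    exact hno F hF fun z hz => (hFf z hz).le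
  have hSb : BddBelow S := ⟨ε', fun r hr => hSlow r hr⟩
  set I₀ := sInf S with hI₀
  have hI0 : 0 < I₀ := hε'.trans_le (le_csInf hSne hSlow)
  obtain ⟨t, ht⟩ : ∃ t, t = I₀ / (μ.real univ + 1) := ⟨_, rfl⟩
  obtain ⟨k, hk⟩ : ∃ k, k = (1 - δ) / (8 * (N : ℝ)) := ⟨_, rfl⟩
  have hM : 0 ≤ μ.real univ := measureReal_nonneg
  have hN0 : (0 : ℝ) < N := by
    have : 0 < N := by omega
    exact_mod_cast this
  have hk0 : 0 < k := by
    rw [hk]
    apply div_pos (by linarith) (by positivity)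
  have ht0 : 0 < t := by rw [ht]; positivity
  have hq0 : 0 < k ^ 2 * (t * I₀) := by positivity
  obtain ⟨r, hrS, hr⟩ := exists_lt_of_csInf_lt hSne
    (show sInf S < I₀ + κ * (k ^ 2 * (t * I₀)) by rw [← hI₀]; linarith [mul_pos hκ hq0])
  obtain ⟨F, hF, hFf, hrF⟩ := hrS
  have hIF : I₀ ≤ ∫ x : sphere (0 : En n) 1, ((N : ℝ) - ‖F x‖ ^ 2) ∂μ :=
    csInf_le hSb ⟨F, hF, hFf, rfl⟩
  have hlow := ItA_low hN hδ hδ1 hF μ hI0 ht hk hIF
  -- the room on the small ball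
  have hroom : ∃ ε₁ : ℝ, 0 < ε₁ ∧ ∀ z ∈ closedBall (0 : En n) R, ‖F z - f z‖ + ε₁ < ε := by
    rcases (closedBall (0 : En n) R).eq_empty_or_nonempty with he | hne
    · refine ⟨1, one_pos, fun z hz => ?_⟩
      rw [he] at hz
      exact absurd hz (Set.notMem_empty z)
    · have hsub : closedBall (0 : En n) R ⊆ closedBall 0 1 := closedBall_subset_closedBall hR.le
      have hco : ContinuousOn (fun z => ‖F z - f z‖) (closedBall (0 : En n) R) :=
        ((hF.2.1.mono hsub).sub (hf.2.1.mono hsub)).norm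
      obtain ⟨z0, hz0, hmax⟩ := (isCompact_closedBall (0 : En n) R).exists_isMaxOn hne hco
      have h1 := hFf z0 hz0
      refine ⟨(ε - ‖F z0 - f z0‖) / 2, by linarith, fun z hz => ?_⟩
      have h2 : ‖F z - f z‖ ≤ ‖F z0 - f z0‖ := hmax hz
      linarith
  obtain ⟨ε₁, hε₁, hroom⟩ := hroom
  obtain ⟨F', hF', hclose, hgain⟩ := hstep N hN δ hδ hδ1 F hF μ R ε₁ hR hε₁
  have hF'S : (∫ x : sphere (0 : En n) 1, ((N : ℝ) - ‖F' x‖ ^ 2) ∂μ) ∈ S := by
    refine ⟨F', hF', fun z hz => ?_, rfl⟩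
    have h1 := hclose z hz
    have h2 := hroom z hz
    have h3 : ‖F' z - f z‖ ≤ ‖F' z - F z‖ + ‖F z - f z‖ := norm_sub_le_norm_sub_add_norm_sub _ _ _
    linarith
  have hIF' := csInf_le hSb hF'S
  rw [← hI₀] at hIF'
  have hsplit : ∀ G : En n → En N, AU δ G → ∫ x : sphere (0 : En n) 1, ((N : ℝ) - ‖G x‖ ^ 2) ∂μ =
      (∫ _x : sphere (0 : En n) 1, (N : ℝ) ∂μ) - ∫ x : sphere (0 : En n) 1, ‖G x‖ ^ 2 ∂μ := by
    intro G hG
    exact integral_sub (integrable_const _) (ItA_int μ ((continuous_norm.comp (ItA_cont hG)).pow 2))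
  rw [hsplit F' hF'] at hIF'
  rw [hrF, hsplit F hF] at hr
  have h4 := mul_le_mul_of_nonneg_left hlow hκ.le
  linarith

end Pool.Agent.MPca0fc2.ZL
end

section

/-! Campaign ZL (zero-one law), task G2B: nearly inner data are dense. -/

set_option autoImplicit false

open Metric Set Filter Topology MeasureTheory

namespace Pool.Agent.MPca0fc2.ZL

open Pool.Agent.MPca0fc2.TB (En)
open Pool.Agent.Lib.MP_ca0fc2_an.ZL (ext Data InnerFor)

variable {n N : ℕ}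

/-- PROOF. Let `f : Data n N δ` and `V` a neighbourhood of `f` (`dense_iff_inter_open` or `mem_closure_iff_nhds`). `exists_nhd`: `R`, `ε`. `slack` for `ext f` with `R`, `ε / 2`: `f₁` with `AU δ f₁`. `inner_near` for `f₁`, `μ`, `R`, `ε / 2`, `b / 2`: `F`. `exists_data`: `g` with `ext g = F` on the ball: `g ∈ V` (`closedBall 0 R ⊆ ball 0 1`).
`M = μ.real univ`. `F` is uniformly continuous on `closedBall 0 1` and `‖F‖ ≤ N` there (`N ≥ 1`): there is `0 < r < 1` with `|‖F (r x)‖² - ‖F x‖²| ≤ b / (4 (M + 1))` for `‖x‖ = 1`; `Def μ (ext g) r ≤ ∫ (N - ‖F x‖²) + b / 4 < b`. -/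
theorem dense_def (hN : 2 ≤ N) (μ : Measure (sphere (0 : En n) 1)) [IsFiniteMeasure μ] {δ b : ℝ} (hδ : 0 < δ) (hδ1 : δ < 1) (hb : 0 < b) :
    Dense {f : Data n N δ | ∃ r ∈ Ioo (0 : ℝ) 1, Def μ (ext f.1) r < b} := by
  intro f
  rw [mem_closure_iff_nhds]
  intro V hV
  obtain ⟨R, ε, hR0, hR1, hε, hRV⟩ := exists_nhd f hV
  obtain ⟨hfd, hfb⟩ := data_bounds f
  obtain ⟨f₁, hf₁, hf₁c⟩ := slack hδ hδ1 hfd hfb hR1 (half_pos hε)
  obtain ⟨F, hF, hFc, hFi⟩ := inner_near hN hδ hδ1 hf₁ μ hR1 (half_pos hε) (half_pos hb)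
  obtain ⟨hFd, hFcont, hFU⟩ := hF
  obtain ⟨g, hg⟩ := exists_data (δ := δ) hFd (fun z hz => by
    have h := hFU z (ball_subset_closedBall hz)
    exact ⟨fun j => (h.1 j).le, h.2.le⟩)
  have hsub : closedBall (0 : En n) R ⊆ ball (0 : En n) 1 := closedBall_subset_ball hR1
  refine ⟨g, hRV g fun z hz => ?_, ?_⟩
  · rw [hg z (hsub hz)]
    calc ‖F z - ext f.1 z‖ = ‖(F z - f₁ z) + (f₁ z - ext f.1 z)‖ := by
          rw [sub_add_sub_cancel]
      _ ≤ ‖F z - f₁ z‖ + ‖f₁ z - ext f.1 z‖ := norm_add_le _ _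
      _ ≤ ε / 2 + ε / 2 := add_le_add (hFc z hz) (hf₁c z hz)
      _ = ε := add_halves ε
  · obtain ⟨M, hM⟩ : ∃ M : ℝ, M = μ.real univ := ⟨_, rfl⟩
    have hM0 : 0 ≤ M := by rw [hM]; exact measureReal_nonneg
    obtain ⟨θ, hθ⟩ : ∃ θ : ℝ, θ = b / (4 * (M + 1)) := ⟨_, rfl⟩
    have hθ0 : 0 < θ := by rw [hθ]; positivity
    have hθM : θ * M ≤ b / 4 := by
      rw [hθ, div_mul_eq_mul_div, div_le_div_iff₀ (by positivity) (by norm_num)]
      nlinarith
    have hGc : ContinuousOn (fun z => ‖F z‖ ^ 2) (closedBall (0 : En n) 1) := hFcont.norm.pow 2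
    have hGu := (isCompact_closedBall (0 : En n) 1).uniformContinuousOn_of_continuous hGc
    rw [Metric.uniformContinuousOn_iff] at hGu
    obtain ⟨ω, hω, hω'⟩ := hGu θ hθ0
    obtain ⟨r, hr⟩ : ∃ r : ℝ, r = max (1 / 2) (1 - ω / 2) := ⟨_, rfl⟩
    have hr0 : 0 < r := by
      rw [hr]
      exact lt_of_lt_of_le (by norm_num) (le_max_left _ _)
    have hr1 : r < 1 := by
      rw [hr]
      exact max_lt (by norm_num) (by linarith)
    have hrω : 1 - r < ω := by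
      have : 1 - ω / 2 ≤ r := by rw [hr]; exact le_max_right _ _
      linarith
    have hball : ∀ x : sphere (0 : En n) 1, (r : ℂ) • (x : En n) ∈ ball (0 : En n) 1 := by
      intro x
      have hx : ‖(x : En n)‖ = 1 := by
        have := x.2
        rwa [mem_sphere_zero_iff_norm] at this
      rw [mem_ball_zero_iff, norm_smul, hx, mul_one, Complex.norm_real, Real.norm_of_nonneg hr0.le]
      exact hr1
    have hclose : ∀ x : sphere (0 : En n) 1, ‖F (x : En n)‖ ^ 2 - θ ≤ ‖F ((r : ℂ) • (x : En n))‖ ^ 2 := by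
      intro x
      have hx : ‖(x : En n)‖ = 1 := by
        have := x.2
        rwa [mem_sphere_zero_iff_norm] at this
      have hxc : (x : En n) ∈ closedBall (0 : En n) 1 := by
        rw [mem_closedBall_zero_iff, hx]
      have hd : dist (x : En n) ((r : ℂ) • (x : En n)) < ω := by
        rw [dist_eq_norm]
        have h1 : (x : En n) - (r : ℂ) • (x : En n) = ((1 - r : ℝ) : ℂ) • (x : En n) := by
          push_cast
          rw [sub_smul, one_smul]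
        rw [h1, norm_smul, hx, mul_one, Complex.norm_real, Real.norm_of_nonneg (by linarith)]
        exact hrω
      have h2 := hω' _ hxc _ (ball_subset_closedBall (hball x)) hd
      rw [Real.dist_eq, abs_lt] at h2
      linarith [h2.2]
    refine ⟨r, ⟨hr0, hr1⟩, ?_⟩
    have hcF : Continuous fun x : sphere (0 : En n) 1 => F (x : En n) := by
      rw [← continuousOn_univ]
      exact hFcont.comp continuous_subtype_val.continuousOn
        (fun x _ => sphere_subset_closedBall x.2)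
    have hcr : Continuous fun x : sphere (0 : En n) 1 => F ((r : ℂ) • (x : En n)) := by
      rw [← continuousOn_univ]
      exact hFcont.comp (continuous_subtype_val.const_smul (r : ℂ)).continuousOn
        (fun x _ => ball_subset_closedBall (hball x))
    have i1 : Integrable (fun x : sphere (0 : En n) 1 => (N : ℝ) - ‖F (x : En n)‖ ^ 2) μ :=
      (continuous_const.sub (hcF.norm.pow 2)).integrable_of_hasCompactSupport
        (HasCompactSupport.of_compactSpace _)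
    have i2 : Integrable (fun x : sphere (0 : En n) 1 => (N : ℝ) - ‖F ((r : ℂ) • (x : En n))‖ ^ 2) μ :=
      (continuous_const.sub (hcr.norm.pow 2)).integrable_of_hasCompactSupport
        (HasCompactSupport.of_compactSpace _)
    have e1 : Def μ (ext g.1) r = ∫ x : sphere (0 : En n) 1, ((N : ℝ) - ‖F ((r : ℂ) • (x : En n))‖ ^ 2) ∂μ := by
      unfold Def
      apply integral_congr_ae
      exact Filter.Eventually.of_forall fun x => by
        show (N : ℝ) - ‖ext g.1 ((r : ℂ) • (x : En n))‖ ^ 2 = (N : ℝ) - ‖F ((r : ℂ) • (x : En n))‖ ^ 2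
        rw [hg _ (hball x)]
    rw [e1]
    calc ∫ x : sphere (0 : En n) 1, ((N : ℝ) - ‖F ((r : ℂ) • (x : En n))‖ ^ 2) ∂μ
        ≤ ∫ x : sphere (0 : En n) 1, (((N : ℝ) - ‖F (x : En n)‖ ^ 2) + θ) ∂μ := by
          apply integral_mono i2 (i1.add (integrable_const θ))
          intro x
          have := hclose x
          show (N : ℝ) - ‖F ((r : ℂ) • (x : En n))‖ ^ 2 ≤ ((N : ℝ) - ‖F (x : En n)‖ ^ 2) + θ
          linarith
      _ = (∫ x : sphere (0 : En n) 1, ((N : ℝ) - ‖F (x : En n)‖ ^ 2) ∂μ) + θ * M := by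
          rw [integral_add i1 (integrable_const θ), integral_const, smul_eq_mul, hM, mul_comm θ]
      _ < b / 2 + b / 4 := by linarith
      _ ≤ b := by linarith

end Pool.Agent.MPca0fc2.ZL
end
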