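import Pool.Agent.Lib.MP_ca0fc2_an.Mg.G089
import Pool.Agent.Lib.MP_ca0fc2_an.Mg.G073
import Pool.Agent.Lib.MP_ca0fc2_an.Mg.G098

section

/-! Campaign ZL (zero-one law), task ClA: data with a solution with the bound `A` form a closed set. -/

set_option autoImplicit false

open Metric Set Filter Topology

namespace Pool.Agent.MPca0fc2.ZL

open Pool.Agent.MPca0fc2.TB (En Solv)
open Pool.Agent.Lib.MP_ca0fc2_an.ZL (ext Data)

variable {n N : ℕ}

/-- limits of bounded holomorphic maps along ultrafilters -/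
private theorem ClA_lim {ι : Type*} (𝒰 : Ultrafilter ι) {W : Set (En n)} (hW : IsOpen W) {B : ℝ} (hB : 0 ≤ B)
    {h : ι → En n → En N} (h1 : ∀ i, DifferentiableOn ℂ (h i) W) (h2 : ∀ i, ∀ z ∈ W, ‖h i z‖ ≤ B) :
    ∃ H : En n → En N, DifferentiableOn ℂ H W ∧ ∀ z ∈ W, Tendsto (fun i => h i z) 𝒰 (𝓝 (H z)) := by
  have key : ∀ j : Fin N, ∃ g : En n → ℂ, DifferentiableOn ℂ g W ∧ (∀ z ∈ W, ‖g z‖ ≤ B) ∧
      ∀ z ∈ W, Tendsto (fun i => h i z j) 𝒰 (𝓝 (g z)) := by
    intro j
    apply Pool.Agent.MPca0fc2.SL.ultra_holo 𝒰 (G := fun i z => h i z j) hW hB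
    · intro i
      exact (differentiableOn_euclidean.mp (h1 i)) j
    · intro i z hz
      exact (PiLp.norm_apply_le (h i z) j).trans (h2 i z hz)
  choose g hg1 hg2 hg3 using key
  refine ⟨fun z => WithLp.toLp 2 (fun j => g j z), ?_, ?_⟩
  · rw [differentiableOn_euclidean]
    intro j
    exact hg1 j
  · intro z hz
    have e1 : (fun i => h i z) = fun i => WithLp.toLp 2 (fun j => h i z j) := rfl
    rw [e1]
    have hc : Continuous (fun v : Fin N → ℂ => (WithLp.toLp 2 v : En N)) := PiLp.continuous_toLp 2 _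
    exact (hc.tendsto _).comp (tendsto_pi_nhds.mpr fun j => hg3 j z hz)

/-- PROOF. If the set `W = ball 0 1 ∩ V` is empty, every `f` is in the set. If `A < 0` and `W` is nonempty the set is empty. Let `A ≥ 0`. `isClosed_iff_ultrafilter`: let `𝒰 ≤ 𝓝 f` be an ultrafilter on `Data n N δ` which contains the set. For each `g` in the set choose a solution `h g` (others: `h g = 0`). For the coordinate `j`:
`Pool.Agent.MPca0fc2.SL.ultra_holo` for `G g = fun z => h g z j` on the open set `W`, bound `A` (`‖h g z j‖ ≤ ‖h g z‖ ≤ A`) gives `y j` holomorphic on `W` with `h g z j → y j z`. `H z = toLp (fun j => y j z)` is holomorphic on `W` (`differentiableOn_euclidean`), `‖H z‖ ≤ A`: `h g z → H z` along `𝒰` (coordinatewise convergence in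
`EuclideanSpace`, finite dimension) and `‖h g z‖ ≤ A`. Equation: `∑ j, ext g z j * h g z j = 1` eventually, `ext g z → ext f z` (`continuous_ext`), so `∑ j, ext f z j * H z j = 1` (limit of finite sums of products, `tendsto_nhds_unique`). -/
theorem isClosed_solv {δ : ℝ} {V : Set (En n)} (hV : IsOpen V) (A : ℝ) :
    IsClosed {f : Data n N δ | Solv (ext f.1) (ball 0 1 ∩ V) A} := by
  classical
  have hW : IsOpen (ball (0 : En n) 1 ∩ V) := isOpen_ball.inter hV
  rw [isClosed_iff_ultrafilter]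
  intro f 𝒰 hle hmem
  rcases (ball (0 : En n) 1 ∩ V).eq_empty_or_nonempty with he | ⟨z₀, hz₀⟩
  · refine ⟨fun _ => 0, differentiableOn_const _, ?_, ?_⟩
    · intro z hz; rw [he] at hz; exact absurd hz (Set.notMem_empty z)
    · intro z hz; rw [he] at hz; exact absurd hz (Set.notMem_empty z)
  have hA : 0 ≤ A := by
    obtain ⟨g, hg⟩ := 𝒰.nonempty_of_mem hmem
    obtain ⟨h, -, hh, -⟩ := hg
    exact (norm_nonneg _).trans (hh z₀ hz₀)
  have hex : ∀ g : Data n N δ, ∃ h : En n → En N, DifferentiableOn ℂ h (ball 0 1 ∩ V) ∧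
      (∀ z ∈ ball (0 : En n) 1 ∩ V, ‖h z‖ ≤ A) ∧
      (Solv (ext g.1) (ball 0 1 ∩ V) A → ∀ z ∈ ball (0 : En n) 1 ∩ V, ∑ j, ext g.1 z j * h z j = 1) := by
    intro g
    by_cases hg : Solv (ext g.1) (ball 0 1 ∩ V) A
    · obtain ⟨h, a1, a2, a3⟩ := hg
      exact ⟨h, a1, a2, fun _ => a3⟩
    · refine ⟨fun _ => 0, differentiableOn_const _, fun z _ => by simpa using hA, fun hh => absurd hh hg⟩
  choose h a1 a2 a3 using hex
  obtain ⟨H, hH1, hH2⟩ := ClA_lim 𝒰 hW hA a1 a2
  refine ⟨H, hH1, ?_, ?_⟩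
  · intro z hz
    exact le_of_tendsto ((hH2 z hz).norm) (Eventually.of_forall fun g => a2 g z hz)
  · intro z hz
    have t1 : Tendsto (fun g : Data n N δ => ext g.1 z) 𝒰 (𝓝 (ext f.1 z)) :=
      ((continuous_ext hz.1).tendsto f).mono_left hle
    have t2 : Tendsto (fun g : Data n N δ => ∑ j, ext g.1 z j * h g z j) 𝒰
        (𝓝 (∑ j, ext f.1 z j * H z j)) := by
      apply tendsto_finsetSum
      intro j _
      apply Tendsto.mul
      · exact ((EuclideanSpace.proj (𝕜 := ℂ) j).continuous.tendsto _).comp t1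
      · exact ((EuclideanSpace.proj (𝕜 := ℂ) j).continuous.tendsto _).comp (hH2 z hz)
    have t3 : Tendsto (fun g : Data n N δ => ∑ j, ext g.1 z j * h g z j) 𝒰 (𝓝 1) := by
      refine tendsto_const_nhds.congr' ?_
      filter_upwards [hmem] with g hg
      exact (a3 g hg z hz).symm
    exact tendsto_nhds_unique t2 t3

/-- The best bound is attained. PROOF. The same argument with the solutions `h k` for the bounds `A + 1 / (k + 1)` (on a nonempty open set `W`; `Pool.Agent.MPca0fc2.SL.ultra_holo` with the bound `|A| + 1`, index type `ℕ`, the ultrafilter `Filter.hyperfilter ℕ` or `Ultrafilter.of atTop`); `‖h k z‖ ≤ A + 1 / (k + 1) → A`. -/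
theorem solv_limit {W : Set (En n)} (hW : IsOpen W) {f : En n → En N} {A : ℝ} (h : ∀ k : ℕ, Solv f W (A + 1 / ((k : ℝ) + 1))) : Solv f W A := by
  choose h h1 h2 h3 using h
  have hB : ∀ k : ℕ, ∀ z ∈ W, ‖h k z‖ ≤ |A| + 1 := by
    intro k z hz
    refine (h2 k z hz).trans ?_
    have e1 : 1 / ((k : ℝ) + 1) ≤ 1 := by
      rw [div_le_one (by positivity)]
      have : (0:ℝ) ≤ k := Nat.cast_nonneg k
      linarith
    have e2 := le_abs_self A
    linarith
  obtain ⟨H, hH1, hH2⟩ := ClA_lim (Ultrafilter.of (atTop : Filter ℕ)) hW (by positivity) h1 hB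
  have hle : ((Ultrafilter.of (atTop : Filter ℕ) : Ultrafilter ℕ) : Filter ℕ) ≤ atTop := Ultrafilter.of_le _
  refine ⟨H, hH1, ?_, ?_⟩
  · intro z hz
    have t1 : Tendsto (fun k : ℕ => A + 1 / ((k : ℝ) + 1)) (Ultrafilter.of (atTop : Filter ℕ)) (𝓝 (A + 0)) :=
      (tendsto_const_nhds.add tendsto_one_div_add_atTop_nhds_zero_nat).mono_left hle
    rw [add_zero] at t1
    exact le_of_tendsto_of_tendsto ((hH2 z hz).norm) t1 (Eventually.of_forall fun k => h2 k z hz)
  · intro z hz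
    have t2 : Tendsto (fun k : ℕ => ∑ j, f z j * h k z j) (Ultrafilter.of (atTop : Filter ℕ))
        (𝓝 (∑ j, f z j * H z j)) := by
      apply tendsto_finsetSum
      intro j _
      apply Tendsto.mul tendsto_const_nhds
      exact ((EuclideanSpace.proj (𝕜 := ℂ) j).continuous.tendsto _).comp (hH2 z hz)
    have t3 : Tendsto (fun k : ℕ => ∑ j, f z j * h k z j) (Ultrafilter.of (atTop : Filter ℕ)) (𝓝 1) := by
      refine tendsto_const_nhds.congr fun k => ?_
      exact (h3 k z hz).symm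
    exact tendsto_nhds_unique t2 t3

end Pool.Agent.MPca0fc2.ZL
end

section

/-! Campaign ZL (zero-one law), task G2C: generic data are inner. -/

set_option autoImplicit false

open Metric Set Filter Topology MeasureTheory

namespace Pool.Agent.MPca0fc2.ZL

open Pool.Agent.MPca0fc2.TB (En)
open Pool.Agent.Lib.MP_ca0fc2_an.ZL (ext Data InnerFor)

variable {n N : ℕ}

/-- PROOF. For `k : ℕ` the set of `isOpen_def`, `dense_def` with `b = 1 / (k + 1)` is open and dense, so it is in `residual` (`residual_of_dense_open`); `eventually_countable_forall`. If `f` is in all of them and `ε > 0`: `k` with `1 / (k + 1) ≤ ε`, `r`. For each `j`, on the sphere, `1 - ‖ext f (r x) j‖² ≤ ∑ i, (1 - ‖ext f (r x) i‖²) = N - ‖ext f (r x)‖²`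
(each term is `≥ 0`; `EuclideanSpace.norm_sq_eq`), integrate (continuous functions on the sphere). -/
theorem gen_inner (hN : 2 ≤ N) (μ : Measure (sphere (0 : En n) 1)) [IsFiniteMeasure μ] {δ : ℝ} (hδ : 0 < δ) (hδ1 : δ < 1) :
    ∀ᶠ f : Data n N δ in residual (Data n N δ), InnerFor μ f.1 := by
  have h1 : ∀ k : ℕ, ∀ᶠ f : Data n N δ in residual (Data n N δ),
      ∃ r ∈ Ioo (0 : ℝ) 1, Def μ (ext f.1) r < 1 / ((k : ℝ) + 1) := fun k =>
    residual_of_dense_open (isOpen_def μ δ _) (dense_def hN μ hδ hδ1 (by positivity))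
  filter_upwards [eventually_countable_forall.2 h1] with f hf
  intro ε hε
  obtain ⟨k, hk⟩ := exists_nat_one_div_lt hε
  obtain ⟨r, hr, hd⟩ := hf k
  refine ⟨r, hr, fun j => ?_⟩
  have hmem : ∀ x : sphere (0 : En n) 1, (r : ℂ) • (x : En n) ∈ ball (0 : En n) 1 := by
    intro x
    have hx : ‖(x : En n)‖ = 1 := by simp
    rw [mem_ball_zero_iff, norm_smul, hx, mul_one, Complex.norm_real, Real.norm_eq_abs,
      abs_of_pos hr.1]
    exact hr.2
  have hcont : Continuous fun x : sphere (0 : En n) 1 => ext f.1 ((r : ℂ) • (x : En n)) :=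
    f.2.1.continuousOn.comp_continuous (by fun_prop) hmem
  have hval : ∀ (x : sphere (0 : En n) 1) (i : Fin N),
      ‖ext f.1 ((r : ℂ) • (x : En n)) i‖ ≤ 1 := by
    intro x i
    have h2 := (f.2.2 ⟨_, hmem x⟩).1 i
    rw [show Lib.MP_ca0fc2_an.ZL.ext f.1 ((r : ℂ) • (x : En n)) = f.1 ⟨_, hmem x⟩ from dif_pos (hmem x)]
    exact h2
  have hcj : Continuous fun x : sphere (0 : En n) 1 =>
      (1 - ‖ext f.1 ((r : ℂ) • (x : En n)) j‖ ^ 2 : ℝ) := by
    have h3 : Continuous fun x : sphere (0 : En n) 1 => ext f.1 ((r : ℂ) • (x : En n)) j :=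
      (EuclideanSpace.proj (𝕜 := ℂ) j).continuous.comp hcont
    exact continuous_const.sub ((h3.norm).pow 2)
  have hcN : Continuous fun x : sphere (0 : En n) 1 =>
      ((N : ℝ) - ‖ext f.1 ((r : ℂ) • (x : En n))‖ ^ 2 : ℝ) :=
    continuous_const.sub ((hcont.norm).pow 2)
  have hle : ∫ x : sphere (0 : En n) 1, (1 - ‖ext f.1 ((r : ℂ) • (x : En n)) j‖ ^ 2 : ℝ) ∂μ ≤
      Def μ (ext f.1) r := by
    refine integral_mono (hcj.integrable_of_hasCompactSupport (HasCompactSupport.of_compactSpace _))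
      (hcN.integrable_of_hasCompactSupport (HasCompactSupport.of_compactSpace _)) ?_
    intro x
    have h4 : ((N : ℝ) - ‖ext f.1 ((r : ℂ) • (x : En n))‖ ^ 2) =
        ∑ i, (1 - ‖ext f.1 ((r : ℂ) • (x : En n)) i‖ ^ 2) := by
      rw [EuclideanSpace.norm_sq_eq, Finset.sum_sub_distrib]
      simp
    show (1 - ‖ext f.1 ((r : ℂ) • (x : En n)) j‖ ^ 2 : ℝ) ≤
      (N : ℝ) - ‖ext f.1 ((r : ℂ) • (x : En n))‖ ^ 2
    rw [h4]
    refine Finset.single_le_sum (f := fun i => (1 - ‖ext f.1 ((r : ℂ) • (x : En n)) i‖ ^ 2 : ℝ))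
      (fun i _ => ?_) (Finset.mem_univ j)
    have h5 := hval x i
    have h6 := norm_nonneg (ext f.1 ((r : ℂ) • (x : En n)) i)
    show (0 : ℝ) ≤ 1 - ‖ext f.1 ((r : ℂ) • (x : En n)) i‖ ^ 2
    nlinarith
  exact (hle.trans_lt hd).trans hk

end Pool.Agent.MPca0fc2.ZL
end
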