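import Pool.Agent.Lib.MP_ca0fc2_an.Mg.G077
import Pool.Agent.Lib.MP_ca0fc2_an.TB.J1
import Pool.Agent.Lib.MP_ca0fc2_an.LV.S5
import Pool.Agent.Lib.MP_ca0fc2_an.Mg.G089
import Pool.Agent.Lib.MP_ca0fc2_an.ZL.SlA
import Pool.Agent.Lib.MP_ca0fc2_an.Mg.G093
import Pool.Agent.Lib.MP_ca0fc2_an.Mg.G091

section

/-! Campaign ZL (zero-one law), task TrA: the transformation at the boundary points of the ball. -/

set_option autoImplicit false

open Metric Set Filter Topology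

namespace Pool.Agent.MPca0fc2.ZL

open Pool.Agent.MPca0fc2.TB (En Trans)

variable {n : ℕ}

theorem trans_ball {p : En n} (hp : ‖p‖ = 1) : ∃ e, Trans (ball (0 : En n) 1) p e := by
  obtain ⟨U, ρ, h, c, hs, -⟩ := Pool.Agent.MPca0fc2.LV.support_of_domain (TB.isStrictlyPscDomain_ball (n := n))
  exact TB.trans_of_support hs (by rw [frontier_ball _ one_ne_zero]; simpa using hp)

end Pool.Agent.MPca0fc2.ZL
end

section

/-! Campaign ZL (zero-one law), task G1A: the data which have solutions near a boundary point with a bound which is not universal form a set with empty interior. -/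

set_option autoImplicit false

open Metric Set Filter Topology

namespace Pool.Agent.MPca0fc2.ZL

open Pool.Agent.MPca0fc2.TB (En Solv)
open Pool.Agent.Lib.MP_ca0fc2_an.ZL (ext Data)

variable {n N : ℕ}

/-- PROOF. Let `f` be in the interior of the set `S`: `exists_nhd` (for `S ∈ 𝓝 f`): `R`, `ε`. The complement of `{g | Solv (ext g) (ball 0 1 ∩ univ) A}` is open (`isClosed_solv isOpen_univ`) and contains the given `g₀` (`inter_univ`), `exists_nhd`: `R₀`, `ε₀`: all `g'` with `‖ext g' - ext g₀‖ ≤ ε₀` on `closedBall 0 R₀` have no solution with the bound `A` on `ball 0 1`.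
`slack` for `ext g₀` with `R₀`, `ε₀ / 3`: `g₁`, `AU δ g₁`. `slack` for `ext f` with `R`, `ε / 2`: `f₁`, `AU δ f₁` (`data_bounds`). `g₁` is uniformly continuous on `closedBall 0 1`: `ω > 0` with `‖x - y‖ ≤ ω → ‖g₁ x - g₁ y‖ ≤ ε₀ / 3`. `ε₂ = min (min (1/2) ω) (min (ε / 2) (ε₀ / 3))`, `s' = min s (1 - R)`.
`insert` for `f₁`, `g₁`, `p`, `e` (`trans_ball`), `s'`, `ε₂`: `F`, `ψ`. `exists_data`: `gF` with `ext gF = F` on the ball (`U N δ` is contained in the closed target set). For `z ∈ closedBall 0 R`: `‖z - p‖ ≥ 1 - R ≥ s'`, so `‖F z - ext f z‖ ≤ ε₂ + ε / 2 ≤ ε`: `gF ∈ S`: a solution `h` of `ext gF` on `ball 0 1 ∩ ball p s` with the bound `A`.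
`F'' ζ = F (ψ ((1 - ε₂) • ζ))` on `ball 0 1`: holomorphic (`(1 - ε₂) • ζ ∈ ball 0 (1 - ε₂)`), values in the target set; `exists_data`: `g''`. For `ζ ∈ closedBall 0 R₀` (`⊆ ball 0 1`): `‖F'' ζ - ext g₀ ζ‖ ≤ ‖F (ψ ((1 - ε₂) ζ)) - g₁ ((1 - ε₂) ζ)‖ + ‖g₁ ((1 - ε₂) ζ) - g₁ ζ‖ + ‖g₁ ζ - ext g₀ ζ‖ ≤ ε₂ + ε₀ / 3 + ε₀ / 3 ≤ ε₀`.
So `ext g''` has no solution with the bound `A` on `ball 0 1`. But `ζ ↦ h (ψ ((1 - ε₂) • ζ))` is one (`ψ (..) ∈ ball 0 1 ∩ ball p s' ⊆ ball 0 1 ∩ ball p s`, there `ext gF = F`): a contradiction. -/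
theorem interior_empty (hN : 2 ≤ N) {δ : ℝ} (hδ : 0 < δ) (hδ1 : δ < 1) {A : ℝ} (g₀ : Data n N δ) (hg₀ : ¬ Solv (ext g₀.1) (ball 0 1) A)
    {p : En n} (hp : ‖p‖ = 1) {s : ℝ} (hs : 0 < s) :
    interior {f : Data n N δ | Solv (ext f.1) (ball 0 1 ∩ ball p s) A} = ∅ := by
  rw [Set.eq_empty_iff_forall_notMem]
  intro f hf
  rw [mem_interior_iff_mem_nhds] at hf
  obtain ⟨R, ε, hR0, hR1, hε, hnb⟩ := exists_nhd f hf
  have hcl : IsClosed {f : Data n N δ | Solv (ext f.1) (ball 0 1 ∩ univ) A} := isClosed_solv isOpen_univ A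
  have hmem : g₀ ∈ {f : Data n N δ | Solv (ext f.1) (ball 0 1 ∩ univ) A}ᶜ := by
    intro h
    have h' : Solv (ext g₀.1) (ball 0 1 ∩ univ) A := h
    rw [inter_univ] at h'
    exact hg₀ h'
  obtain ⟨R₀, ε₀, hR₀0, hR₀1, hε₀, hnb₀⟩ := exists_nhd g₀ (hcl.isOpen_compl.mem_nhds hmem)
  obtain ⟨g₁, hg₁, hg₁d⟩ := slack hδ hδ1 (data_bounds g₀).1 (data_bounds g₀).2 hR₀1
    (show 0 < ε₀ / 3 by positivity)
  obtain ⟨f₁, hf₁, hf₁d⟩ := slack hδ hδ1 (data_bounds f).1 (data_bounds f).2 hR1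
    (show 0 < ε / 2 by positivity)
  have huc : UniformContinuousOn g₁ (closedBall (0 : En n) 1) :=
    (isCompact_closedBall (0 : En n) 1).uniformContinuousOn_of_continuous hg₁.2.1
  obtain ⟨ω, hω, hωd⟩ := (Metric.uniformContinuousOn_iff.1 huc) (ε₀ / 3) (by positivity)
  obtain ⟨ε₂, hε₂⟩ : ∃ ε₂ : ℝ, ε₂ = min (min (1 / 2) (ω / 2)) (min (ε / 2) (ε₀ / 3)) := ⟨_, rfl⟩
  have e0 : 0 < ε₂ := by rw [hε₂]; positivity
  have e1 : ε₂ ≤ 1 / 2 := by rw [hε₂]; exact (min_le_left _ _).trans (min_le_left _ _)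
  have e2 : ε₂ ≤ ω / 2 := by rw [hε₂]; exact (min_le_left _ _).trans (min_le_right _ _)
  have e3 : ε₂ ≤ ε / 2 := by rw [hε₂]; exact (min_le_right _ _).trans (min_le_left _ _)
  have e4 : ε₂ ≤ ε₀ / 3 := by rw [hε₂]; exact (min_le_right _ _).trans (min_le_right _ _)
  obtain ⟨e, hT⟩ := trans_ball hp
  have hs' : 0 < min s (1 - R) := lt_min hs (by linarith)
  obtain ⟨F, ψ, hF, hFd, hψ, hζ⟩ := insert hN hδ.le hδ1 hf₁ hg₁ hp hT hs' e0 (by linarith)
  have hbF : ∀ z ∈ ball (0 : En n) 1, (∀ j, ‖F z j‖ ≤ 1) ∧ δ ≤ ‖F z‖ := by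
    intro z hz
    have h := hF.2.2 z (ball_subset_closedBall hz)
    exact ⟨fun j => (h.1 j).le, h.2.le⟩
  obtain ⟨gF, hgF⟩ := exists_data (δ := δ) hF.1 hbF
  -- `gF` is in the set
  have hgFS : Solv (ext gF.1) (ball 0 1 ∩ ball p s) A := by
    refine hnb gF fun z hz => ?_
    have hzR : ‖z‖ ≤ R := by simpa using hz
    have hz1 : z ∈ ball (0 : En n) 1 := by
      rw [mem_ball_zero_iff]
      linarith
    rw [hgF z hz1]
    have hdist : min s (1 - R) ≤ ‖z - p‖ := by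
      have h1 : ‖p‖ - ‖z‖ ≤ ‖z - p‖ := by
        rw [norm_sub_rev]
        exact norm_sub_norm_le p z
      rw [hp] at h1
      exact (min_le_right _ _).trans (by linarith)
    have h1 := hFd z (ball_subset_closedBall hz1) hdist
    have h2 := hf₁d z hz
    calc ‖F z - ext f.1 z‖ = ‖(F z - f₁ z) + (f₁ z - ext f.1 z)‖ := by rw [sub_add_sub_cancel]
      _ ≤ ‖F z - f₁ z‖ + ‖f₁ z - ext f.1 z‖ := norm_add_le _ _
      _ ≤ ε := by linarith
  obtain ⟨h, hh1, hh2, hh3⟩ := hgFS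
  -- the scaling
  obtain ⟨φ, hφ⟩ : ∃ φ : En n → En n, ∀ ζ, φ ζ = (((1 - ε₂ : ℝ) : ℂ)) • ζ := ⟨_, fun _ => rfl⟩
  have hφd : Differentiable ℂ φ := by
    have : φ = fun ζ => (((1 - ε₂ : ℝ) : ℂ)) • ζ := funext hφ
    rw [this]
    exact (differentiable_id (𝕜 := ℂ) (E := En n)).const_smul (((1 - ε₂ : ℝ) : ℂ))
  have hφn : ∀ ζ, ‖φ ζ‖ = (1 - ε₂) * ‖ζ‖ := by
    intro ζ
    rw [hφ, norm_smul, Complex.norm_real, Real.norm_of_nonneg (by linarith)]
  have hφm : ∀ ζ ∈ ball (0 : En n) 1, φ ζ ∈ ball (0 : En n) (1 - ε₂) := by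
    intro ζ hζ1
    rw [mem_ball_zero_iff] at hζ1 ⊢
    rw [hφn]
    nlinarith
  have hmap : ∀ ζ ∈ ball (0 : En n) 1, ψ (φ ζ) ∈ ball (0 : En n) 1 ∩ ball p s := by
    intro ζ hζ1
    obtain ⟨a1, a2, -⟩ := hζ _ (hφm ζ hζ1)
    exact ⟨a1, ball_subset_ball (min_le_left _ _) a2⟩
  have hψφ : DifferentiableOn ℂ (fun ζ => ψ (φ ζ)) (ball 0 1) :=
    hψ.comp hφd.differentiableOn fun ζ hζ1 => hφm ζ hζ1
  have hF2 : DifferentiableOn ℂ (fun ζ => F (ψ (φ ζ))) (ball 0 1) :=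
    hF.1.comp hψφ fun ζ hζ1 => (hmap ζ hζ1).1
  obtain ⟨g2, hg2⟩ := exists_data (δ := δ) hF2 fun ζ hζ1 => hbF _ (hmap ζ hζ1).1
  have hno : ¬ Solv (ext g2.1) (ball 0 1 ∩ univ) A := by
    refine hnb₀ g2 fun ζ hζR => ?_
    have hζR' : ‖ζ‖ ≤ R₀ := by simpa using hζR
    have hζ1 : ζ ∈ ball (0 : En n) 1 := by
      rw [mem_ball_zero_iff]
      linarith
    rw [hg2 ζ hζ1]
    have b1 := (hζ _ (hφm ζ hζ1)).2.2
    have hφ1 : φ ζ ∈ closedBall (0 : En n) 1 := by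
      have := hφm ζ hζ1
      rw [mem_ball_zero_iff] at this
      rw [mem_closedBall_zero_iff]
      linarith
    have hdist : dist (φ ζ) ζ < ω := by
      rw [dist_eq_norm, hφ]
      have h1 : (((1 - ε₂ : ℝ) : ℂ)) • ζ - ζ = (((-ε₂ : ℝ) : ℂ)) • ζ := by
        have h2 : (((1 - ε₂ : ℝ) : ℂ)) = 1 + ((-ε₂ : ℝ) : ℂ) := by
          push_cast
          ring
        rw [h2, add_smul, one_smul, add_sub_cancel_left]
      rw [h1, norm_smul, Complex.norm_real, Real.norm_eq_abs, abs_neg, abs_of_pos e0]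
      have h3 : ‖ζ‖ < 1 := by linarith
      nlinarith [norm_nonneg ζ]
    have b2 := hωd _ hφ1 _ (ball_subset_closedBall hζ1) hdist
    rw [dist_eq_norm] at b2
    have b3 := hg₁d ζ hζR
    calc ‖F (ψ (φ ζ)) - ext g₀.1 ζ‖
        = ‖(F (ψ (φ ζ)) - g₁ (φ ζ)) + (g₁ (φ ζ) - g₁ ζ) + (g₁ ζ - ext g₀.1 ζ)‖ := by
          congr 1
          abel
      _ ≤ ‖F (ψ (φ ζ)) - g₁ (φ ζ)‖ + ‖g₁ (φ ζ) - g₁ ζ‖ + ‖g₁ ζ - ext g₀.1 ζ‖ := norm_add₃_le
      _ ≤ ε₀ := by linarith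
  refine hno ⟨fun ζ => h (ψ (φ ζ)), ?_, ?_, ?_⟩
  · rw [inter_univ]
    exact hh1.comp hψφ fun ζ hζ1 => hmap ζ hζ1
  · rintro ζ ⟨hζ1, -⟩
    exact hh2 _ (hmap ζ hζ1)
  · rintro ζ ⟨hζ1, -⟩
    have h1 := hh3 _ (hmap ζ hζ1)
    rw [hgF _ (hmap ζ hζ1).1] at h1
    rw [hg2 ζ hζ1]
    exact h1

end Pool.Agent.MPca0fc2.ZL
end

section

/-! Campaign ZL (zero-one law), task G1B: generic data are extremal. -/

set_option autoImplicit false

open Metric Set Filter Topology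

namespace Pool.Agent.MPca0fc2.ZL

open Pool.Agent.MPca0fc2.TB (En Solv)
open Pool.Agent.Lib.MP_ca0fc2_an.ZL (ext Data)

variable {n N : ℕ}

private theorem solv_mono {f : En n → En N} {D D' : Set (En n)} {A A' : ℝ} (h : Solv f D A)
    (hD : D' ⊆ D) (hA : A ≤ A') : Solv f D' A' := by
  obtain ⟨h, h1, h2, h3⟩ := h
  exact ⟨h, h1.mono hD, fun z hz => (h2 z (hD hz)).trans hA, fun z hz => h3 z (hD hz)⟩

/-- PROOF. The sphere is separable: a countable dense subset `Q` of `sphere 0 1` (`TopologicalSpace.exists_countable_dense` of the subtype). For `q ∈ Q`, `j : ℕ` and a rational number `a` such that some `g` has no solution on `ball 0 1` with the bound `a`, the complement of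
`S q j a = {f | Solv (ext f) (ball 0 1 ∩ ball q (1 / (j + 1))) a}` is open and dense (`isClosed_solv`, `interior_empty`, `interior_eq_empty_iff_dense_compl`), so it is in `residual` (`residual_of_dense_open`), and so is the countable intersection (`eventually_countable_forall` or `countable_iInter_mem`).
Let `f` be in all complements, `Solv (ext f) (ball 0 1 ∩ ball p r) A`, and suppose that some `g` has no solution on `ball 0 1` with the bound `A`. By `solv_limit` there is `k : ℕ` such that `g` has no solution with the bound `A + 1 / (k + 1)`; let `a` be a rational number with `A < a < A + 1 / (k + 1)`: `g` has no solution with the bound `a` (`Solv` is monotone in the bound).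
Choose `j` with `2 / (j + 1) ≤ r` and `q ∈ Q` with `‖q - p‖ < 1 / (j + 1)`, so `ball q (1 / (j + 1)) ⊆ ball p r`: `f ∈ S q j a` (restriction), a contradiction. -/
theorem gen_extremal (hN : 2 ≤ N) {δ : ℝ} (hδ : 0 < δ) (hδ1 : δ < 1) :
    ∀ᶠ f : Data n N δ in residual (Data n N δ), ∀ p ∈ sphere (0 : En n) 1, ∀ r > 0, ∀ A : ℝ, Solv (ext f.1) (ball 0 1 ∩ ball p r) A →
      ∀ g : Data n N δ, Solv (ext g.1) (ball 0 1) A := by
  obtain ⟨Q, hQc, hQd⟩ := TopologicalSpace.exists_countable_dense (sphere (0 : En n) 1)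
  have key : ∀ᶠ f : Data n N δ in residual (Data n N δ), ∀ q : Q, ∀ j : ℕ, ∀ a : ℚ,
      (∃ g : Data n N δ, ¬ Solv (ext g.1) (ball 0 1) (a : ℝ)) →
      ¬ Solv (ext f.1) (ball 0 1 ∩ ball (q.1.1 : En n) (1 / ((j : ℝ) + 1))) (a : ℝ) := by
    have : Countable Q := hQc.to_subtype
    rw [eventually_countable_forall]
    intro q
    rw [eventually_countable_forall]
    intro j
    rw [eventually_countable_forall]
    intro a
    by_cases hg : ∃ g : Data n N δ, ¬ Solv (ext g.1) (ball 0 1) (a : ℝ)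
    · obtain ⟨g, hg⟩ := hg
      have hq : ‖(q.1.1 : En n)‖ = 1 := by
        exact mem_sphere_zero_iff_norm.1 q.1.2
      have hpos : (0 : ℝ) < 1 / ((j : ℝ) + 1) := by positivity
      have hint := interior_empty hN hδ hδ1 (A := (a : ℝ)) g hg hq hpos
      have hcl : IsClosed {f : Data n N δ | Solv (ext f.1) (ball 0 1 ∩ ball (q.1.1 : En n) (1 / ((j : ℝ) + 1))) (a : ℝ)} :=
        isClosed_solv isOpen_ball (a : ℝ)
      have hd := interior_eq_empty_iff_dense_compl.1 hint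
      have := residual_of_dense_open hcl.isOpen_compl hd
      filter_upwards [this] with f hf _ h
      exact hf h
    · exact Eventually.of_forall fun f h => absurd h hg
  filter_upwards [key] with f hf
  intro p hp r hr A hA g
  by_contra hg
  have hk : ∃ k : ℕ, ¬ Solv (ext g.1) (ball 0 1) (A + 1 / ((k : ℝ) + 1)) := by
    by_contra hcon
    push Not at hcon
    exact hg (solv_limit isOpen_ball hcon)
  obtain ⟨k, hk⟩ := hk
  have hAk : A < A + 1 / ((k : ℝ) + 1) := by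
    have : (0 : ℝ) < 1 / ((k : ℝ) + 1) := by positivity
    linarith
  obtain ⟨a, ha1, ha2⟩ := exists_rat_btwn hAk
  have hga : ¬ Solv (ext g.1) (ball 0 1) (a : ℝ) := fun h =>
    hk (solv_mono h (subset_refl _) ha2.le)
  obtain ⟨j, hj⟩ := exists_nat_one_div_lt (show (0 : ℝ) < r / 2 by positivity)
  have hpos : (0 : ℝ) < 1 / ((j : ℝ) + 1) := by positivity
  obtain ⟨q, hqQ, hq⟩ := hQd.exists_dist_lt ⟨p, hp⟩ hpos
  refine hf ⟨q, hqQ⟩ j a ⟨g, hga⟩ (solv_mono hA ?_ ha1.le)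
  refine inter_subset_inter_right _ ?_
  intro z hz
  rw [mem_ball] at hz ⊢
  have hqp : dist (q : En n) p < 1 / ((j : ℝ) + 1) := by
    have := hq
    rw [dist_comm] at this
    simpa [Subtype.dist_eq] using this
  calc dist z p ≤ dist z (q : En n) + dist (q : En n) p := dist_triangle _ _ _
    _ < 1 / ((j : ℝ) + 1) + 1 / ((j : ℝ) + 1) := add_lt_add hz hqp
    _ ≤ r := by linarith

end Pool.Agent.MPca0fc2.ZL
end
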