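import Mathlib
import Pool.Agent.Lib.MP_ca0fc2_an.Mg.G049
import Pool.Agent.Lib.MP_ca0fc2_an.TB.Defs
import Pool.Agent.Lib.MP_ca0fc2_an.Mg.G094

section

set_option autoImplicit false
set_option linter.unusedSectionVars false

open Metric Set Filter Topology
open scoped InnerProductSpace

namespace Pool.Agent.MPca0fc2.TK

open Pool.Agent.MPca0fc2.PT
open Pool.Agent.MPca0fc2.TB (En Solv)
open Pool.Agent.MPca0fc2.ZL
open Pool.Agent.Lib.MP_ca0fc2_an.ZL (ext Data)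

/-- Proof. `gg a x - a = (1 + ⟪a, x⟫)⁻¹ • (s • x - (s/(1 + s) * ⟪a, x⟫) • a)`, `s = ss a = √(1 - ‖a‖²)` (unfold `gg`, `AA`: `AA a x = s • x + (1 + s)⁻¹ • ⟪a, x⟫ • a`; `1/(1+s) - 1 = -s/(1+s)`), so `‖gg a x - a‖ ≤ 2 s/‖1 + ⟪a, x⟫‖` for `‖x‖ ≤ 1`, `‖a‖ < 1`. -/
theorem gg_sub {n : ℕ} {a x : En n} (ha : ‖a‖ < 1) (hx : ‖x‖ ≤ 1) :
    ‖gg a x - a‖ ≤ 2 * √(1 - ‖a‖ ^ 2) / ‖1 + ⟪a, x⟫_ℂ‖ := by
  obtain ⟨S, T, hSd, hTd, hS, hT, -, -, hA⟩ := geo_AA ha.le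
  have h := one_add_ne ha hx
  have hd := geo_den_pos ha hx
  have e : gg a x - a = ((1 + ⟪a, x⟫_ℂ)⁻¹ * S) • (x - (T * ⟪a, x⟫_ℂ) • a) := by
    have e1 : gg a x - a = (1 + ⟪a, x⟫_ℂ)⁻¹ • ((a + AA a x) - (1 + ⟪a, x⟫_ℂ) • a) := by
      rw [smul_sub, smul_smul, inv_mul_cancel₀ h, one_smul]
      rfl
    rw [e1, hA, mul_smul ((1 + ⟪a, x⟫_ℂ)⁻¹) S]
    congr 1
    have e2 : (1 + ⟪a, x⟫_ℂ) • a = a + ⟪a, x⟫_ℂ • a := by rw [add_smul, one_smul]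
    rw [e2, smul_sub, smul_smul]
    have e3 : S * (T * ⟪a, x⟫_ℂ) = ⟪a, x⟫_ℂ - T * ⟪a, x⟫_ℂ := by
      linear_combination (⟪a, x⟫_ℂ) * hT
    rw [e3, sub_smul]
    abel
  have hSn : ‖S‖ = √(1 - ‖a‖ ^ 2) := by
    rw [hSd, Complex.norm_real, Real.norm_eq_abs, abs_of_nonneg (geo_ss_nonneg a)]
    rfl
  have hTn : ‖T‖ ≤ 1 := by
    rw [hTd, Complex.norm_real, Real.norm_eq_abs]
    have h0 := geo_ss_nonneg a
    rw [abs_of_nonneg (by positivity)]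
    exact inv_le_one_of_one_le₀ (by linarith)
  have hc : ‖⟪a, x⟫_ℂ‖ ≤ 1 := by
    refine le_trans (norm_inner_le_norm a x) ?_
    nlinarith [norm_nonneg a, norm_nonneg x]
  have hv : ‖x - (T * ⟪a, x⟫_ℂ) • a‖ ≤ 2 := by
    refine le_trans (norm_sub_le _ _) ?_
    rw [norm_smul, norm_mul]
    have h1 : ‖T‖ * ‖⟪a, x⟫_ℂ‖ ≤ 1 := by
      calc ‖T‖ * ‖⟪a, x⟫_ℂ‖ ≤ 1 * 1 := mul_le_mul hTn hc (norm_nonneg _) (by norm_num)
        _ = 1 := by norm_num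
    have h2 : ‖T‖ * ‖⟪a, x⟫_ℂ‖ * ‖a‖ ≤ 1 := by
      calc ‖T‖ * ‖⟪a, x⟫_ℂ‖ * ‖a‖ ≤ 1 * 1 := mul_le_mul h1 ha.le (norm_nonneg _) (by norm_num)
        _ = 1 := by norm_num
    linarith
  rw [e, norm_smul, norm_mul, norm_inv, hSn]
  calc ‖1 + ⟪a, x⟫_ℂ‖⁻¹ * √(1 - ‖a‖ ^ 2) * ‖x - (T * ⟪a, x⟫_ℂ) • a‖
      ≤ ‖1 + ⟪a, x⟫_ℂ‖⁻¹ * √(1 - ‖a‖ ^ 2) * 2 := by
        refine mul_le_mul_of_nonneg_left hv ?_
        positivity
    _ = 2 * √(1 - ‖a‖ ^ 2) / ‖1 + ⟪a, x⟫_ℂ‖ := by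
        rw [div_eq_mul_inv]; ring

private theorem T1_sq {n : ℕ} {p a : En n} (hp : ‖p‖ = 1) (ha : ‖a‖ < 1) :
    1 - ‖a‖ ^ 2 ≤ 2 * ‖a - p‖ := by
  have h1 : 1 - ‖a‖ ≤ ‖a - p‖ := by
    have := norm_sub_norm_le p a
    rw [hp, norm_sub_rev] at this
    exact this
  nlinarith [norm_nonneg a]

/-- Near the centre. Proof. `gg_sub`, `‖1 + ⟪a, x⟫‖ ≥ 1 - k`, and `1 - ‖a‖² ≤ 2 ‖a - p‖`. -/
theorem gg_near {n : ℕ} {p : En n} (hp : ‖p‖ = 1) {k s : ℝ} (hk : k < 1) (hs : 0 < s) :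
    ∃ r : ℝ, 0 < r ∧ ∀ a : En n, ‖a‖ < 1 → ‖a - p‖ < r → ∀ x : En n, ‖x‖ < k →
      ‖gg a x - p‖ < s := by
  have hk' : 0 < 1 - k := by linarith
  refine ⟨min (s / 2) ((s * (1 - k) / 8) ^ 2 / 2), lt_min (by positivity) (by positivity), ?_⟩
  intro a ha har x hxk
  have hr1 : ‖a - p‖ < s / 2 := lt_of_lt_of_le har (min_le_left _ _)
  have hr2 : ‖a - p‖ < (s * (1 - k) / 8) ^ 2 / 2 := lt_of_lt_of_le har (min_le_right _ _)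
  have hx : ‖x‖ ≤ 1 := by linarith
  have h1 := gg_sub ha hx
  have h2 : 1 - k ≤ ‖1 + ⟪a, x⟫_ℂ‖ := by
    have h3 : ‖⟪a, x⟫_ℂ‖ ≤ k := by
      refine le_trans (norm_inner_le_norm a x) ?_
      nlinarith [norm_nonneg a, norm_nonneg x]
    have h4 : ‖(1 : ℂ)‖ - ‖-⟪a, x⟫_ℂ‖ ≤ ‖(1 : ℂ) - -⟪a, x⟫_ℂ‖ := norm_sub_norm_le _ _
    rw [norm_one, norm_neg, sub_neg_eq_add] at h4
    linarith
  have h5 : √(1 - ‖a‖ ^ 2) ≤ s * (1 - k) / 8 := by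
    rw [Real.sqrt_le_left (by positivity)]
    have := T1_sq hp ha
    linarith
  have h6 : 2 * √(1 - ‖a‖ ^ 2) / ‖1 + ⟪a, x⟫_ℂ‖ ≤ s / 4 := by
    rw [div_le_iff₀ (lt_of_lt_of_le hk' h2)]
    nlinarith
  calc ‖gg a x - p‖ = ‖(gg a x - a) + (a - p)‖ := by congr 1; abel
    _ ≤ ‖gg a x - a‖ + ‖a - p‖ := norm_add_le _ _
    _ < s := by linarith

/-- Far from the centre. Proof. `gg_sub` for `-a`: `‖gg (-a) z + a‖ ≤ 2 √(1 - ‖a‖²)/‖1 - ⟪a, z⟫‖` (`inner_neg_left`), and `‖1 - ⟪a, z⟫‖ ≥ Re (1 - ⟪a, z⟫) ≥ ‖z - a‖²/2 ≥ s²/8` if `‖a - p‖ ≤ s/2`, `s ≤ ‖z - p‖`. -/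
theorem gg_far {n : ℕ} {p : En n} (hp : ‖p‖ = 1) {s ω : ℝ} (hs : 0 < s) (hω : 0 < ω) :
    ∃ r : ℝ, 0 < r ∧ ∀ a : En n, ‖a‖ < 1 → ‖a - p‖ < r → ∀ z ∈ closedBall (0 : En n) 1,
      s ≤ ‖z - p‖ → ‖gg (-a) z + p‖ ≤ ω := by
  refine ⟨min (s / 2) (min (ω / 2) ((ω * s ^ 2 / 32) ^ 2 / 2)), lt_min (by positivity)
    (lt_min (by positivity) (by positivity)), ?_⟩
  intro a ha har z hz hsz
  have hr1 : ‖a - p‖ < s / 2 := lt_of_lt_of_le har (min_le_left _ _)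
  have hr2 : ‖a - p‖ < ω / 2 := lt_of_lt_of_le har (le_trans (min_le_right _ _) (min_le_left _ _))
  have hr3 : ‖a - p‖ < (ω * s ^ 2 / 32) ^ 2 / 2 :=
    lt_of_lt_of_le har (le_trans (min_le_right _ _) (min_le_right _ _))
  have hz1 : ‖z‖ ≤ 1 := by simpa using hz
  have ha' : ‖-a‖ < 1 := by rwa [norm_neg]
  have h1 := gg_sub ha' hz1
  rw [norm_neg, sub_neg_eq_add] at h1
  have h7 : s / 2 ≤ ‖z - a‖ := by
    have h8 : ‖z - p‖ ≤ ‖z - a‖ + ‖a - p‖ := by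
      calc ‖z - p‖ = ‖(z - a) + (a - p)‖ := by congr 1; abel
        _ ≤ _ := norm_add_le _ _
    linarith
  have h2 : s ^ 2 / 8 ≤ ‖1 + ⟪-a, z⟫_ℂ‖ := by
    have h9 : ‖z - a‖ ^ 2 = ‖z‖ ^ 2 - 2 * (⟪z, a⟫_ℂ).re + ‖a‖ ^ 2 := by
      have := @norm_sub_sq ℂ _ _ _ _ z a
      simpa using this
    have h10 : (⟪z, a⟫_ℂ).re = (⟪a, z⟫_ℂ).re := by
      rw [← inner_conj_symm z a, Complex.conj_re]
    have h11 : (1 + ⟪-a, z⟫_ℂ).re ≤ ‖1 + ⟪-a, z⟫_ℂ‖ := Complex.re_le_norm _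
    rw [inner_neg_left, Complex.add_re, Complex.one_re, Complex.neg_re] at h11
    have h12 : (s / 2) ^ 2 ≤ ‖z - a‖ ^ 2 := pow_le_pow_left₀ (by positivity) h7 2
    have h13 : ‖z‖ ^ 2 ≤ 1 := by nlinarith [norm_nonneg z]
    have h14 : ‖a‖ ^ 2 ≤ 1 := by nlinarith [norm_nonneg a]
    rw [inner_neg_left]
    nlinarith
  have h5 : √(1 - ‖a‖ ^ 2) ≤ ω * s ^ 2 / 32 := by
    rw [Real.sqrt_le_left (by positivity)]
    have := T1_sq hp ha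
    linarith
  have h6 : 2 * √(1 - ‖a‖ ^ 2) / ‖1 + ⟪-a, z⟫_ℂ‖ ≤ ω / 2 := by
    rw [div_le_iff₀ (lt_of_lt_of_le (by positivity) h2)]
    nlinarith
  calc ‖gg (-a) z + p‖ = ‖(gg (-a) z + a) - (a - p)‖ := by congr 1; abel
    _ ≤ ‖gg (-a) z + a‖ + ‖a - p‖ := norm_sub_le _ _
    _ ≤ ω := by linarith

/-- `gg a` is continuous on the closed ball. -/
theorem gg_contOn {n : ℕ} {a : En n} (ha : ‖a‖ < 1) : ContinuousOn (gg a) (closedBall (0 : En n) 1) := by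
  intro x hx
  have hx1 : ‖x‖ ≤ 1 := by simpa using hx
  exact (hasFDerivAt_gg ha hx1).continuousAt.continuousWithinAt

end Pool.Agent.MPca0fc2.TK
end

section

set_option autoImplicit false
set_option linter.unusedSectionVars false

open Metric Set Filter Topology
open scoped InnerProductSpace

namespace Pool.Agent.MPca0fc2.TK

open Pool.Agent.MPca0fc2.PT
open Pool.Agent.MPca0fc2.TB (En Solv)
open Pool.Agent.MPca0fc2.ZL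
open Pool.Agent.Lib.MP_ca0fc2_an.ZL (ext Data)

private theorem T2_M {n N : ℕ} {g : En n → En N} (hg : ContinuousOn g (closedBall 0 1)) :
    ∃ M : ℝ, 1 ≤ M ∧ ∀ z ∈ closedBall (0 : En n) 1, ‖g z‖ ≤ M := by
  obtain ⟨C, hC⟩ := (isCompact_closedBall (0 : En n) 1).exists_bound_of_continuousOn hg
  exact ⟨max C 1, le_max_right _ _, fun z hz => (hC z hz).trans (le_max_left _ _)⟩

private theorem T2_uc {n N : ℕ} {g : En n → En N} (hg : ContinuousOn g (closedBall 0 1)) {θ : ℝ}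
    (hθ : 0 < θ) :
    ∃ ω : ℝ, 0 < ω ∧ ∀ x ∈ closedBall (0 : En n) 1, ∀ y ∈ closedBall (0 : En n) 1,
      ‖x - y‖ ≤ ω → ‖g x - g y‖ ≤ θ := by
  have h := (isCompact_closedBall (0 : En n) 1).uniformContinuousOn_of_continuous hg
  rw [Metric.uniformContinuousOn_iff_le] at h
  obtain ⟨ω, hω, h⟩ := h θ hθ
  exact ⟨ω, hω, fun x hx y hy hxy => by
    simpa [dist_eq_norm] using h x hx y hy (by simpa [dist_eq_norm] using hxy)⟩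

private theorem T2_holo {n : ℕ} {a : En n} (ha : ‖a‖ < 1) : DifferentiableOn ℂ (gg a) (ball 0 1) := by
  intro x hx
  rw [mem_ball_zero_iff] at hx
  exact (hasFDerivAt_gg ha hx.le).differentiableAt.differentiableWithinAt

/-- Insertion of data at a given centre. Proof. Copy the proof of `ZL.insert` (ZL/InA.lean), with `c₀ = g (-p)` and `G z = g (gg (-a) z)` in place of `g (k • Θ z)`: `θ₀` (`near_vals hg`), `θ`, `M`, `f₁` (`move`), `θ₁`, `ρ`, `τ`, `u`, `s₃` (`thin`), `s₂`, `ω` as there (they do not depend on `a`);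
`r` from `gg_far` with `s := s₂` and `ω`, and `gg_near` with `k = 1 - ε`, `s := s₂` (the smaller one). Then for `‖a‖ < 1`, `‖a - p‖ < r`: `G` is holomorphic on the ball and continuous on the closed ball (`gg_contOn`, `gg_le`), `‖G z - c₀‖ ≤ θ` if `s₂ ≤ ‖z - p‖`, and `F = f₁ + u • (G - c₀)`;
(a) `ρ ≤ ‖z - p‖`: `‖F z - f₁ z‖ ≤ τ 2 M`; (b) `s₂ ≤ ‖z - p‖ < ρ`: `‖F z - c₀‖ ≤ 3 θ`; (c) `‖z - p‖ < s₂`: `‖F z - G z‖ ≤ 2 θ`, `G z = g (gg (-a) z) ∈ U N δ`. For `ζ ∈ ball 0 (1 - ε)`, `z = gg a ζ`: `‖z - p‖ < s₂`, `gg (-a) z = ζ` (`gg_neg_gg`), `‖F z - g ζ‖ ≤ 2 θ ≤ ε`. -/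
theorem insert_aut {n N : ℕ} (hN : 2 ≤ N) {δ : ℝ} (hδ : 0 ≤ δ) (hδ1 : δ < 1) {f g : En n → En N}
    (hf : AU δ f) (hg : AU δ g) {p : En n} (hp : ‖p‖ = 1) {s ε : ℝ} (hs : 0 < s) (hε : 0 < ε)
    (hε1 : ε < 1) : ∃ r : ℝ, 0 < r ∧ ∀ a : En n, ‖a‖ < 1 → ‖a - p‖ < r →
      ∃ F, AU δ F ∧ (∀ z ∈ closedBall (0 : En n) 1, s ≤ ‖z - p‖ → ‖F z - f z‖ ≤ ε) ∧
        ∀ ζ ∈ ball (0 : En n) (1 - ε), ‖F (gg a ζ) - g ζ‖ ≤ ε := by
  have hec : (-p) ∈ closedBall (0 : En n) 1 := by simp [hp]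
  have hpc : p ∈ closedBall (0 : En n) 1 := by simp [hp]
  set c₀ : En N := g (-p) with hc₀def
  have hc₀ : c₀ ∈ U N δ := hg.2.2 _ hec
  obtain ⟨θ₀, hθ₀, hθ₀U⟩ := near_vals hg
  obtain ⟨θ, hθ, hθε, hθθ₀⟩ : ∃ θ : ℝ, 0 < θ ∧ 3 * θ ≤ ε ∧ 3 * θ ≤ θ₀ := by
    refine ⟨min ε θ₀ / 3, by positivity, ?_, ?_⟩
    · have := min_le_left ε θ₀; linarith
    · have := min_le_right ε θ₀; linarith
  obtain ⟨M, hM1, hM⟩ := T2_M hg.2.1
  have hM0 : 0 < M := by linarith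
  obtain ⟨f₁, hf₁, hf₁p, hf₁f⟩ := move hN hδ hδ1 hf hp hc₀ hs (half_pos hε)
  obtain ⟨θ₁, hθ₁, hθ₁U⟩ := near_vals hf₁
  -- continuity of `f₁` at `p`
  obtain ⟨ρ, hρ, hρs, hρc⟩ : ∃ ρ : ℝ, 0 < ρ ∧ ρ ≤ s ∧ ∀ z ∈ closedBall (0 : En n) 1, ‖z - p‖ < ρ →
      ‖f₁ z - c₀‖ ≤ θ := by
    have h := hf₁.2.1 p hpc
    rw [Metric.continuousWithinAt_iff] at h
    obtain ⟨r, hr, h⟩ := h θ hθ
    refine ⟨min r s, by positivity, min_le_right _ _, fun z hz hzp => ?_⟩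
    have h2 := h hz (by rw [dist_eq_norm]; exact lt_of_lt_of_le hzp (min_le_left _ _))
    rw [hf₁p, dist_eq_norm] at h2
    exact h2.le
  obtain ⟨τ, hτ, hτ1, hτM1, hτM2, hτM3⟩ : ∃ τ : ℝ, 0 < τ ∧ τ ≤ 1 ∧ τ * (2 * M) ≤ θ₁ ∧
      τ * (2 * M) ≤ θ ∧ τ * (2 * M) ≤ ε / 2 := by
    have h0 : 0 < min (min θ₁ θ) (ε / 2) := by positivity
    have hle : min 1 (min (min θ₁ θ) (ε / 2) / (2 * M)) * (2 * M) ≤ min (min θ₁ θ) (ε / 2) := by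
      calc _ ≤ (min (min θ₁ θ) (ε / 2) / (2 * M)) * (2 * M) :=
            mul_le_mul_of_nonneg_right (min_le_right _ _) (by positivity)
        _ = _ := by field_simp
    refine ⟨min 1 (min (min θ₁ θ) (ε / 2) / (2 * M)), by positivity, min_le_left _ _, ?_, ?_, ?_⟩
    · exact hle.trans ((min_le_left _ _).trans (min_le_left _ _))
    · exact hle.trans ((min_le_left _ _).trans (min_le_right _ _))
    · exact hle.trans (min_le_right _ _)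
  obtain ⟨u, s₃, hs₃, hud, huc, -, hu1, hu2, hu3⟩ := thin hp hρ hτ
  obtain ⟨s₂, hs₂, hs₂ρ, hs₂s₃⟩ : ∃ s₂ : ℝ, 0 < s₂ ∧ s₂ ≤ ρ ∧ s₂ ≤ s₃ :=
    ⟨min ρ s₃, by positivity, min_le_left _ _, min_le_right _ _⟩
  have hu4 : ∀ z ∈ closedBall (0 : En n) 1, ‖z - p‖ ≤ s₂ → ‖u z - 1‖ ≤ τ :=
    fun z hz h => hu3 z hz (h.trans hs₂s₃)
  have hu5 : ∀ z ∈ closedBall (0 : En n) 1, ‖u z‖ ≤ 2 := by
    intro z hz
    obtain ⟨t, ht, htu⟩ := hu1 z hz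
    have h1 : ‖(t : ℂ)‖ ≤ 1 := by
      rw [Complex.norm_real, Real.norm_eq_abs, abs_of_nonneg ht.1]; exact ht.2
    calc ‖u z‖ = ‖(u z - t) + t‖ := by rw [sub_add_cancel]
      _ ≤ ‖u z - t‖ + ‖(t : ℂ)‖ := norm_add_le _ _
      _ ≤ τ + 1 := add_le_add htu h1
      _ ≤ 2 := by linarith
  obtain ⟨ω, hω, hωg⟩ := T2_uc hg.2.1 hθ
  obtain ⟨r₁, hr₁, hfar⟩ := gg_far hp hs₂ hω
  obtain ⟨r₂, hr₂, hnear⟩ := gg_near hp (k := 1 - ε) (by linarith) hs₂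
  refine ⟨min r₁ r₂, by positivity, fun a ha hap => ?_⟩
  have ha' : ‖-a‖ < 1 := by rwa [norm_neg]
  have hfar := hfar a ha (lt_of_lt_of_le hap (min_le_left _ _))
  have hnear := hnear a ha (lt_of_lt_of_le hap (min_le_right _ _))
  set G : En n → En N := fun z => g (gg (-a) z) with hG
  have hb : ∀ z ∈ ball (0 : En n) 1, gg (-a) z ∈ ball (0 : En n) 1 := fun z hz => by
    rw [mem_ball_zero_iff] at hz ⊢
    exact gg_lt ha' hz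
  have hc : ∀ z ∈ closedBall (0 : En n) 1, gg (-a) z ∈ closedBall (0 : En n) 1 := fun z hz => by
    rw [mem_closedBall_zero_iff] at hz ⊢
    exact gg_le ha' hz
  have hGd : DifferentiableOn ℂ G (ball 0 1) := hg.1.comp (T2_holo ha') fun z hz => hb z hz
  have hGc : ContinuousOn G (closedBall 0 1) := hg.2.1.comp (gg_contOn ha') fun z hz => hc z hz
  have hGM : ∀ z ∈ closedBall (0 : En n) 1, ‖G z - c₀‖ ≤ 2 * M := by
    intro z hz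
    calc ‖G z - c₀‖ ≤ ‖G z‖ + ‖c₀‖ := norm_sub_le _ _
      _ ≤ M + M := add_le_add (hM _ (hc z hz)) (hM _ hec)
      _ = 2 * M := by ring
  have hGθ : ∀ z ∈ closedBall (0 : En n) 1, s₂ ≤ ‖z - p‖ → ‖G z - c₀‖ ≤ θ := by
    intro z hz hzs
    refine hωg _ (hc z hz) _ hec ?_
    rw [sub_neg_eq_add]
    exact hfar z hz hzs
  set F : En n → En N := fun z => f₁ z + u z • (G z - c₀) with hF
  have hFd : DifferentiableOn ℂ F (ball 0 1) := hf₁.1.add (hud.smul (hGd.sub_const c₀))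
  have hFc : ContinuousOn F (closedBall 0 1) :=
    hf₁.2.1.add (huc.smul (hGc.sub continuousOn_const))
  have hFf : ∀ z, F z - f₁ z = u z • (G z - c₀) := fun z => by simp [hF]
  have hca : ∀ z ∈ closedBall (0 : En n) 1, ρ ≤ ‖z - p‖ → ‖F z - f₁ z‖ ≤ τ * (2 * M) := by
    intro z hz hzρ
    rw [hFf, norm_smul]
    exact mul_le_mul (hu2 z hz hzρ) (hGM z hz) (norm_nonneg _) hτ.le
  have hcc : ∀ z ∈ closedBall (0 : En n) 1, ‖z - p‖ < s₂ → ‖F z - G z‖ ≤ 2 * θ := by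
    intro z hz hzs
    have h1 : F z - G z = (f₁ z - c₀) + (u z - 1) • (G z - c₀) := by
      simp only [hF]
      rw [sub_smul, one_smul]
      abel
    rw [h1]
    calc _ ≤ ‖f₁ z - c₀‖ + ‖(u z - 1) • (G z - c₀)‖ := norm_add_le _ _
      _ ≤ θ + τ * (2 * M) := by
          refine add_le_add (hρc z hz (lt_of_lt_of_le hzs hs₂ρ)) ?_
          rw [norm_smul]
          exact mul_le_mul (hu4 z hz hzs.le) (hGM z hz) (norm_nonneg _) hτ.le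
      _ ≤ 2 * θ := by linarith
  have hFU : ∀ z ∈ closedBall (0 : En n) 1, F z ∈ U N δ := by
    intro z hz
    rcases le_or_gt ρ ‖z - p‖ with h1 | h1
    · exact hθ₁U z hz _ ((hca z hz h1).trans hτM1)
    · rcases le_or_gt s₂ ‖z - p‖ with h2 | h2
      · refine hθ₀U (-p) hec _ ?_
        have h3 : F z - g (-p) = (f₁ z - c₀) + u z • (G z - c₀) := by
          simp only [hF, hc₀def]
          abel
        rw [h3]
        calc _ ≤ ‖f₁ z - c₀‖ + ‖u z • (G z - c₀)‖ := norm_add_le _ _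
          _ ≤ θ + 2 * θ := by
              refine add_le_add (hρc z hz h1) ?_
              rw [norm_smul]
              exact mul_le_mul (hu5 z hz) (hGθ z hz h2) (norm_nonneg _) (by norm_num)
          _ ≤ θ₀ := by linarith
      · exact hθ₀U _ (hc z hz) _ ((hcc z hz h2).trans (by linarith))
  refine ⟨F, ⟨hFd, hFc, hFU⟩, ?_, ?_⟩
  · intro z hz hzs
    calc ‖F z - f z‖ = ‖(F z - f₁ z) + (f₁ z - f z)‖ := by rw [sub_add_sub_cancel]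
      _ ≤ ‖F z - f₁ z‖ + ‖f₁ z - f z‖ := norm_add_le _ _
      _ ≤ ε / 2 + ε / 2 := add_le_add ((hca z hz (hρs.trans hzs)).trans hτM3) (hf₁f z hz hzs)
      _ = ε := by ring
  · intro ζ hζ
    have hζ0 : ‖ζ‖ < 1 - ε := mem_ball_zero_iff.1 hζ
    have hζ1 : ‖ζ‖ < 1 := by linarith
    have h1 : gg a ζ ∈ closedBall (0 : En n) 1 := by
      rw [mem_closedBall_zero_iff]
      exact gg_le ha hζ1.le
    have h5 : G (gg a ζ) = g ζ := by simp only [hG, gg_neg_gg ha hζ1.le]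
    rw [← h5]
    exact (hcc _ h1 (hnear ζ hζ0)).trans (by linarith)

end Pool.Agent.MPca0fc2.TK
end
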