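import Mathlib
import Pool.Agent.Lib.MP_ca0fc2_an.Mg.G127
import Pool.Agent.Lib.MP_ca0fc2_an.CGInv

section

set_option autoImplicit false
set_option linter.unusedSectionVars false

open Metric Set Filter Topology
open scoped InnerProductSpace

namespace Pool.Agent.MPca0fc2.TK

open Pool.Agent.MPca0fc2.PT
open Pool.Agent.MPca0fc2.TB (En Solv)
open Pool.Agent.MPca0fc2.ZL
open Pool.Agent.Lib.MP_ca0fc2_an.ZL (ext Data)

/-- Proof. Copy the proof of `ZL.interior_empty` (ZL/G1A.lean) with `insert_aut` in place of `insert`: there are `f` in the interior, `R, ε`; `R₀, ε₀` for `g₀`; `g₁`, `f₁` (`slack`), `ε₂`. Choose `s' = 1 - R`, `r` from `insert_aut`, then `a` from `hΩ` with `k = 1 - ε₂`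
and `‖a - p‖ < r`: `gg a (ball 0 (1 - ε₂)) ⊆ Ω`, `F`. `ext gF = F` on the ball, so `gF ∈ S`: a solution `h` of `F` on `ball 0 1 ∩ Ω` with the bound `A`; `ζ ↦ h (gg a ((1 - ε₂) • ζ))` is a solution for `F'' ζ = F (gg a ((1 - ε₂) • ζ))` on `ball 0 1`, a contradiction as there. -/
theorem interior_aut {n N : ℕ} (hN : 2 ≤ N) {δ : ℝ} (hδ : 0 < δ) (hδ1 : δ < 1) {A : ℝ}
    (g₀ : Data n N δ) (hg₀ : ¬ Solv (ext g₀.1) (ball 0 1) A) {Ω : Set (En n)} {p : En n}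
    (hp : ‖p‖ = 1)
    (hΩ : ∀ k r : ℝ, k < 1 → 0 < r → ∃ a : En n, ‖a‖ < 1 ∧ ‖a - p‖ < r ∧
      ∀ x, ‖x‖ < k → gg a x ∈ Ω) :
    interior {f : Data n N δ | Solv (ext f.1) (ball 0 1 ∩ Ω) A} = ∅ := by
  rw [Set.eq_empty_iff_forall_notMem]
  intro f hf
  rw [mem_interior_iff_mem_nhds] at hf
  obtain ⟨R, ε, hR0, hR1, hε, hnb⟩ := exists_nhd f hf
  have hcl : IsClosed {f : Data n N δ | Solv (ext f.1) (ball 0 1 ∩ univ) A} := isClosed_solv isOpen_univ A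
  have hmem : g₀ ∈ {f : Data n N δ | Solv (ext f.1) (ball 0 1 ∩ univ) A}ᶜ := by
    intro h
    have h' : Solv (ext g₀.1) (ball 0 1 ∩ univ) A := h
    rw [inter_univ] at h'
    exact hg₀ h'
  obtain ⟨R₀, ε₀, hR₀0, hR₀1, hε₀, hnb₀⟩ := exists_nhd g₀ (hcl.isOpen_compl.mem_nhds hmem)
  obtain ⟨g₁, hg₁, hg₁d⟩ := slack hδ hδ1 (data_bounds g₀).1 (data_bounds g₀).2 hR₀1
    (show 0 < ε₀ / 3 by positivity)
  obtain ⟨f₁, hf₁, hf₁d⟩ := slack hδ hδ1 (data_bounds f).1 (data_bounds f).2 hR1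
    (show 0 < ε / 2 by positivity)
  have huc : UniformContinuousOn g₁ (closedBall (0 : En n) 1) :=
    (isCompact_closedBall (0 : En n) 1).uniformContinuousOn_of_continuous hg₁.2.1
  obtain ⟨ω, hω, hωd⟩ := (Metric.uniformContinuousOn_iff.1 huc) (ε₀ / 3) (by positivity)
  obtain ⟨ε₂, hε₂⟩ : ∃ ε₂ : ℝ, ε₂ = min (min (1 / 2) (ω / 2)) (min (ε / 2) (ε₀ / 3)) := ⟨_, rfl⟩
  have e0 : 0 < ε₂ := by rw [hε₂]; positivity
  have e1 : ε₂ ≤ 1 / 2 := by rw [hε₂]; exact (min_le_left _ _).trans (min_le_left _ _)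
  have e2 : ε₂ ≤ ω / 2 := by rw [hε₂]; exact (min_le_left _ _).trans (min_le_right _ _)
  have e3 : ε₂ ≤ ε / 2 := by rw [hε₂]; exact (min_le_right _ _).trans (min_le_left _ _)
  have e4 : ε₂ ≤ ε₀ / 3 := by rw [hε₂]; exact (min_le_right _ _).trans (min_le_right _ _)
  have hs' : 0 < 1 - R := by linarith
  obtain ⟨r, hr, hins⟩ := insert_aut hN hδ.le hδ1 hf₁ hg₁ hp hs' e0 (by linarith)
  obtain ⟨a, ha, har, haΩ⟩ := hΩ (1 - ε₂) r (by linarith) hr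
  obtain ⟨F, hF, hFd, hζ⟩ := hins a ha har
  have hbF : ∀ z ∈ ball (0 : En n) 1, (∀ j, ‖F z j‖ ≤ 1) ∧ δ ≤ ‖F z‖ := by
    intro z hz
    have h := hF.2.2 z (ball_subset_closedBall hz)
    exact ⟨fun j => (h.1 j).le, h.2.le⟩
  obtain ⟨gF, hgF⟩ := exists_data (δ := δ) hF.1 hbF
  -- `gF` is in the set
  have hgFS : Solv (ext gF.1) (ball 0 1 ∩ Ω) A := by
    refine hnb gF fun z hz => ?_
    have hzR : ‖z‖ ≤ R := by simpa using hz
    have hz1 : z ∈ ball (0 : En n) 1 := by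
      rw [mem_ball_zero_iff]
      linarith
    rw [hgF z hz1]
    have hdist : 1 - R ≤ ‖z - p‖ := by
      have h1 : ‖p‖ - ‖z‖ ≤ ‖z - p‖ := by
        rw [norm_sub_rev]
        exact norm_sub_norm_le p z
      rw [hp] at h1
      linarith
    have h1 := hFd z (ball_subset_closedBall hz1) hdist
    have h2 := hf₁d z hz
    calc ‖F z - ext f.1 z‖ = ‖(F z - f₁ z) + (f₁ z - ext f.1 z)‖ := by rw [sub_add_sub_cancel]
      _ ≤ ‖F z - f₁ z‖ + ‖f₁ z - ext f.1 z‖ := norm_add_le _ _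
      _ ≤ ε := by linarith
  obtain ⟨h, hh1, hh2, hh3⟩ := hgFS
  -- the scaling
  obtain ⟨φ, hφ⟩ : ∃ φ : En n → En n, ∀ ζ, φ ζ = (((1 - ε₂ : ℝ) : ℂ)) • ζ := ⟨_, fun _ => rfl⟩
  have hφd : Differentiable ℂ φ := by
    have : φ = fun ζ => (((1 - ε₂ : ℝ) : ℂ)) • ζ := funext hφ
    rw [this]
    exact (differentiable_id (𝕜 := ℂ) (E := En n)).const_smul (((1 - ε₂ : ℝ) : ℂ))
  have hφn : ∀ ζ, ‖φ ζ‖ = (1 - ε₂) * ‖ζ‖ := by
    intro ζ
    rw [hφ, norm_smul, Complex.norm_real, Real.norm_of_nonneg (by linarith)]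
  have hφm : ∀ ζ ∈ ball (0 : En n) 1, φ ζ ∈ ball (0 : En n) (1 - ε₂) := by
    intro ζ hζ1
    rw [mem_ball_zero_iff] at hζ1 ⊢
    rw [hφn]
    nlinarith
  have hφ1' : ∀ ζ ∈ ball (0 : En n) 1, ‖φ ζ‖ < 1 := by
    intro ζ hζ1
    have := hφm ζ hζ1
    rw [mem_ball_zero_iff] at this
    linarith
  have hmap : ∀ ζ ∈ ball (0 : En n) 1, gg a (φ ζ) ∈ ball (0 : En n) 1 ∩ Ω := by
    intro ζ hζ1
    refine ⟨?_, haΩ _ ?_⟩
    · rw [mem_ball_zero_iff]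
      exact gg_lt ha (hφ1' ζ hζ1)
    · have := hφm ζ hζ1
      rwa [mem_ball_zero_iff] at this
  have hψφ : DifferentiableOn ℂ (fun ζ => gg a (φ ζ)) (ball 0 1) := by
    intro ζ hζ1
    have h1 := (hasFDerivAt_gg ha (hφ1' ζ hζ1).le).differentiableAt
    exact (h1.comp ζ (hφd ζ)).differentiableWithinAt
  have hF2 : DifferentiableOn ℂ (fun ζ => F (gg a (φ ζ))) (ball 0 1) :=
    hF.1.comp hψφ fun ζ hζ1 => (hmap ζ hζ1).1
  obtain ⟨g2, hg2⟩ := exists_data (δ := δ) hF2 fun ζ hζ1 => hbF _ (hmap ζ hζ1).1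
  have hno : ¬ Solv (ext g2.1) (ball 0 1 ∩ univ) A := by
    refine hnb₀ g2 fun ζ hζR => ?_
    have hζR' : ‖ζ‖ ≤ R₀ := by simpa using hζR
    have hζ1 : ζ ∈ ball (0 : En n) 1 := by
      rw [mem_ball_zero_iff]
      linarith
    rw [hg2 ζ hζ1]
    have b1 := hζ _ (hφm ζ hζ1)
    have hφ1 : φ ζ ∈ closedBall (0 : En n) 1 := by
      have := hφm ζ hζ1
      rw [mem_ball_zero_iff] at this
      rw [mem_closedBall_zero_iff]
      linarith
    have hdist : dist (φ ζ) ζ < ω := by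
      rw [dist_eq_norm, hφ]
      have h1 : (((1 - ε₂ : ℝ) : ℂ)) • ζ - ζ = (((-ε₂ : ℝ) : ℂ)) • ζ := by
        have h2 : (((1 - ε₂ : ℝ) : ℂ)) = 1 + ((-ε₂ : ℝ) : ℂ) := by
          push_cast
          ring
        rw [h2, add_smul, one_smul, add_sub_cancel_left]
      rw [h1, norm_smul, Complex.norm_real, Real.norm_eq_abs, abs_neg, abs_of_pos e0]
      have h3 : ‖ζ‖ < 1 := by linarith
      nlinarith [norm_nonneg ζ]
    have b2 := hωd _ hφ1 _ (ball_subset_closedBall hζ1) hdist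
    rw [dist_eq_norm] at b2
    have b3 := hg₁d ζ hζR
    calc ‖F (gg a (φ ζ)) - ext g₀.1 ζ‖
        = ‖(F (gg a (φ ζ)) - g₁ (φ ζ)) + (g₁ (φ ζ) - g₁ ζ) + (g₁ ζ - ext g₀.1 ζ)‖ := by
          congr 1
          abel
      _ ≤ ‖F (gg a (φ ζ)) - g₁ (φ ζ)‖ + ‖g₁ (φ ζ) - g₁ ζ‖ + ‖g₁ ζ - ext g₀.1 ζ‖ := norm_add₃_le
      _ ≤ ε₀ := by linarith
  refine hno ⟨fun ζ => h (gg a (φ ζ)), ?_, ?_, ?_⟩
  · rw [inter_univ]
    exact hh1.comp hψφ fun ζ hζ1 => hmap ζ hζ1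
  · rintro ζ ⟨hζ1, -⟩
    exact hh2 _ (hmap ζ hζ1)
  · rintro ζ ⟨hζ1, -⟩
    have h1 := hh3 _ (hmap ζ hζ1)
    rw [hgF _ (hmap ζ hζ1).1] at h1
    rw [hg2 ζ hζ1]
    exact h1

end Pool.Agent.MPca0fc2.TK
end

section

set_option autoImplicit false
set_option linter.unusedSectionVars false

open Metric Set Filter Topology
open scoped InnerProductSpace

namespace Pool.Agent.MPca0fc2.TK

open Pool.Agent.MPca0fc2.PT
open Pool.Agent.MPca0fc2.TB (En Solv)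
open Pool.Agent.MPca0fc2.ZL
open Pool.Agent.Lib.MP_ca0fc2_an.ZL (ext Data)

private theorem T4_solv_mono {n N : ℕ} {f : En n → En N} {D D' : Set (En n)} {A A' : ℝ}
    (h : Solv f D A) (hD : D' ⊆ D) (hA : A ≤ A') : Solv f D' A' := by
  obtain ⟨h, h1, h2, h3⟩ := h
  exact ⟨h, h1.mono hD, fun z hz => (h2 z (hD hz)).trans hA, fun z hz => h3 z (hD hz)⟩

/-- Generic data are extremal on `Ω`, case of centres which tend to the boundary. Proof. Copy the proof of `ZL.gen_extremal` (ZL/G1B.lean): for a rational number `a` such that some `g` has no solution on `ball 0 1` with the bound `a`, the set `{f | Solv (ext f) (ball 0 1 ∩ Ω) a}` is closed (`isClosed_solv hΩo`) with empty interior (`interior_aut`). -/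
theorem gen_aut {n N : ℕ} (hN : 2 ≤ N) {δ : ℝ} (hδ : 0 < δ) (hδ1 : δ < 1) {Ω : Set (En n)}
    (hΩo : IsOpen Ω) {p : En n} (hp : ‖p‖ = 1)
    (hΩ : ∀ k r : ℝ, k < 1 → 0 < r → ∃ a : En n, ‖a‖ < 1 ∧ ‖a - p‖ < r ∧
      ∀ x, ‖x‖ < k → gg a x ∈ Ω) :
    ∀ᶠ f : Data n N δ in residual (Data n N δ), ∀ A : ℝ, Solv (ext f.1) (ball 0 1 ∩ Ω) A →
      ∀ g : Data n N δ, Solv (ext g.1) (ball 0 1) A := by
  have key : ∀ᶠ f : Data n N δ in residual (Data n N δ), ∀ a : ℚ,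
      (∃ g : Data n N δ, ¬ Solv (ext g.1) (ball 0 1) (a : ℝ)) →
      ¬ Solv (ext f.1) (ball 0 1 ∩ Ω) (a : ℝ) := by
    rw [eventually_countable_forall]
    intro a
    by_cases hg : ∃ g : Data n N δ, ¬ Solv (ext g.1) (ball 0 1) (a : ℝ)
    · obtain ⟨g, hg⟩ := hg
      have hint := interior_aut hN hδ hδ1 (A := (a : ℝ)) g hg hp hΩ
      have hcl : IsClosed {f : Data n N δ | Solv (ext f.1) (ball 0 1 ∩ Ω) (a : ℝ)} :=
        isClosed_solv hΩo (a : ℝ)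
      have hd := interior_eq_empty_iff_dense_compl.1 hint
      have := residual_of_dense_open hcl.isOpen_compl hd
      filter_upwards [this] with f hf _ h
      exact hf h
    · exact Eventually.of_forall fun f h => absurd h hg
  filter_upwards [key] with f hf
  intro A hA g
  by_contra hg
  have hk : ∃ k : ℕ, ¬ Solv (ext g.1) (ball 0 1) (A + 1 / ((k : ℝ) + 1)) := by
    by_contra hcon
    push Not at hcon
    exact hg (solv_limit isOpen_ball hcon)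
  obtain ⟨k, hk⟩ := hk
  have hAk : A < A + 1 / ((k : ℝ) + 1) := by
    have : (0 : ℝ) < 1 / ((k : ℝ) + 1) := by positivity
    linarith
  obtain ⟨a, ha1, ha2⟩ := exists_rat_btwn hAk
  have hga : ¬ Solv (ext g.1) (ball 0 1) (a : ℝ) := fun h =>
    hk (T4_solv_mono h (subset_refl _) ha2.le)
  exact hf a ⟨g, hga⟩ (T4_solv_mono hA (subset_refl _) ha1.le)

/-- The two cases. Proof. For `k_i = 1 - 1/(i + 2)` choose `a_i` by `hΩ`; a subsequence converges to `p`, `‖p‖ ≤ 1` (`isCompact_closedBall`.tendsto_subseq). If `‖p‖ = 1` it satisfies the right hand side (`k_i` increases to `1`). If `‖p‖ < 1`: let `z ∈ ball 0 1`; `gg (-a_i) z → gg (-p) z` (continuity of `gg` in both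
variables on the open ball, `gg_smooth` or directly from the formula) and `‖gg (-p) z‖ < 1`, so `‖gg (-a_i) z‖ < k_i` for large `i` and `z = gg a_i (gg (-a_i) z) ∈ Ω` (`gg_gg_neg`, CGInv.lean). -/
theorem cases_aut {n : ℕ} {Ω : Set (En n)}
    (hΩ : ∀ k : ℝ, k < 1 → ∃ a : En n, ‖a‖ < 1 ∧ ∀ x, ‖x‖ < k → gg a x ∈ Ω) :
    ball (0 : En n) 1 ⊆ Ω ∨ ∃ p : En n, ‖p‖ = 1 ∧ ∀ k r : ℝ, k < 1 → 0 < r →
      ∃ a : En n, ‖a‖ < 1 ∧ ‖a - p‖ < r ∧ ∀ x, ‖x‖ < k → gg a x ∈ Ω := by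
  have hkl : ∀ i : ℕ, (1 : ℝ) - 1 / ((i : ℝ) + 1) < 1 := fun i => by
    have : (0 : ℝ) < 1 / ((i : ℝ) + 1) := by positivity
    linarith
  choose a ha1 haΩ using fun i : ℕ => hΩ (1 - 1 / ((i : ℝ) + 1)) (hkl i)
  obtain ⟨p, hp, φ, hφ, hlim⟩ := (isCompact_closedBall (0 : En n) 1).tendsto_subseq
    (x := a) (fun i => by rw [mem_closedBall_zero_iff]; exact (ha1 i).le)
  rw [mem_closedBall_zero_iff] at hp
  -- the radii tend to one
  have hrad : ∀ k : ℝ, k < 1 → ∀ᶠ i : ℕ in atTop, k < 1 - 1 / ((φ i : ℝ) + 1) := by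
    intro k hk
    have h1 : Tendsto (fun i : ℕ => (1 : ℝ) / ((i : ℝ) + 1)) atTop (𝓝 0) :=
      tendsto_one_div_add_atTop_nhds_zero_nat
    have h2 : Tendsto (fun i : ℕ => (1 : ℝ) / ((φ i : ℝ) + 1)) atTop (𝓝 0) :=
      h1.comp hφ.tendsto_atTop
    have h3 : ∀ᶠ i : ℕ in atTop, (1 : ℝ) / ((φ i : ℝ) + 1) < 1 - k :=
      h2.eventually (gt_mem_nhds (by linarith))
    filter_upwards [h3] with i hi
    linarith
  rcases hp.lt_or_eq with hp1 | hp1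
  · left
    intro z hz
    rw [mem_ball_zero_iff] at hz
    set q : ℝ := (1 + ‖p‖) / 2 with hq
    have hq1 : q < 1 := by rw [hq]; linarith
    have hpq : ‖p‖ < q := by rw [hq]; linarith
    have hq0 : 0 ≤ q := le_trans (norm_nonneg p) hpq.le
    have hη : 0 < (1 - q ^ 2) * (1 - ‖z‖ ^ 2) / 4 := by
      have h1 : 0 < 1 - q ^ 2 := by nlinarith
      have h2 : 0 < 1 - ‖z‖ ^ 2 := by nlinarith [norm_nonneg z]
      positivity
    set η : ℝ := (1 - q ^ 2) * (1 - ‖z‖ ^ 2) / 4 with hηd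
    have hnorm : Tendsto (fun i => ‖a (φ i)‖) atTop (𝓝 ‖p‖) := hlim.norm
    have hev : ∀ᶠ i : ℕ in atTop, ‖a (φ i)‖ < q := hnorm.eventually (gt_mem_nhds hpq)
    obtain ⟨i, hi1, hi2⟩ := (hev.and (hrad (1 - η / 2) (by linarith))).exists
    have haneg : ‖-(a (φ i))‖ < 1 := by rw [norm_neg]; exact ha1 _
    have h1 := norm_gg haneg hz.le
    have h2 : ‖1 + ⟪-(a (φ i)), z⟫_ℂ‖ ≤ 2 := by
      calc ‖1 + ⟪-(a (φ i)), z⟫_ℂ‖ ≤ ‖(1 : ℂ)‖ + ‖⟪-(a (φ i)), z⟫_ℂ‖ := norm_add_le _ _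
        _ ≤ 1 + ‖-(a (φ i))‖ * ‖z‖ := by
            rw [norm_one]
            have := norm_inner_le_norm (𝕜 := ℂ) (-(a (φ i))) z
            linarith
        _ ≤ 2 := by nlinarith [norm_nonneg z, norm_nonneg (-(a (φ i)))]
    have h3 : 0 < ‖1 + ⟪-(a (φ i)), z⟫_ℂ‖ := geo_den_pos haneg hz.le
    have h4 : η ≤ 1 - ‖gg (-(a (φ i))) z‖ ^ 2 := by
      rw [h1, hηd]
      have h5 : 0 < 1 - ‖z‖ ^ 2 := by nlinarith [norm_nonneg z]
      have h6 : 1 - q ^ 2 ≤ 1 - ‖-(a (φ i))‖ ^ 2 := by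
        rw [norm_neg]
        nlinarith [norm_nonneg (a (φ i))]
      have h7 : 0 < 1 - q ^ 2 := by nlinarith
      have h8 : ‖1 + ⟪-(a (φ i)), z⟫_ℂ‖ ^ 2 ≤ 4 := by nlinarith
      have h9 : 0 ≤ (1 - ‖-(a (φ i))‖ ^ 2) * (1 - ‖z‖ ^ 2) :=
        mul_nonneg (h7.le.trans h6) h5.le
      calc (1 - q ^ 2) * (1 - ‖z‖ ^ 2) / 4 ≤ (1 - ‖-(a (φ i))‖ ^ 2) * (1 - ‖z‖ ^ 2) / 4 := by
            have := mul_le_mul_of_nonneg_right h6 h5.le
            linarith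
        _ ≤ (1 - ‖-(a (φ i))‖ ^ 2) * (1 - ‖z‖ ^ 2) / ‖1 + ⟪-(a (φ i)), z⟫_ℂ‖ ^ 2 :=
            div_le_div_of_nonneg_left h9 (by positivity) h8
    have h5 : ‖gg (-(a (φ i))) z‖ ≤ 1 - η / 2 := by
      have h6 := gg_lt haneg hz
      nlinarith [norm_nonneg (gg (-(a (φ i))) z)]
    have h6 := haΩ (φ i) (gg (-(a (φ i))) z) (lt_of_le_of_lt h5 hi2)
    rwa [Pool.Agent.MPca0fc2.CG.gg_gg_neg (ha1 _) hz.le] at h6
  · right
    refine ⟨p, hp1, fun k r hk hr => ?_⟩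
    have hev : ∀ᶠ i : ℕ in atTop, dist (a (φ i)) p < r :=
      hlim.eventually (ball_mem_nhds p hr)
    obtain ⟨i, hi1, hi2⟩ := (hev.and (hrad k hk)).exists
    refine ⟨a (φ i), ha1 _, ?_, fun x hx => haΩ (φ i) x (hx.trans hi2)⟩
    rwa [← dist_eq_norm]

/-- Generic data are extremal on every open set which contains arbitrarily large hyperbolic balls. Proof. `cases_aut`; in the first case `Solv (ext f) (ball 0 1 ∩ Ω) A` gives `Solv (ext f) (ball 0 1 ∩ ball p 1) A` (restriction) for a unit vector `p`, and `gen_extremal`; second case `gen_aut`.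
(If `n = 0`: there is no unit vector; the ball is a point, `hn` excludes it.) -/
theorem gen_thick {n N : ℕ} (hn : 1 ≤ n) (hN : 2 ≤ N) {δ : ℝ} (hδ : 0 < δ) (hδ1 : δ < 1)
    {Ω : Set (En n)} (hΩo : IsOpen Ω)
    (hΩ : ∀ k : ℝ, k < 1 → ∃ a : En n, ‖a‖ < 1 ∧ ∀ x, ‖x‖ < k → gg a x ∈ Ω) :
    ∀ᶠ f : Data n N δ in residual (Data n N δ), ∀ A : ℝ, Solv (ext f.1) (ball 0 1 ∩ Ω) A →
      ∀ g : Data n N δ, Solv (ext g.1) (ball 0 1) A := by
  rcases cases_aut hΩ with h | ⟨p, hp, h⟩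
  · have hpn : ‖(EuclideanSpace.single (⟨0, hn⟩ : Fin n) (1 : ℂ) : En n)‖ = 1 := by
      simp
    filter_upwards [gen_extremal (n := n) hN hδ hδ1] with f hf A hA
    refine hf (EuclideanSpace.single (⟨0, hn⟩ : Fin n) (1 : ℂ)) ?_ 1 one_pos A
      (T4_solv_mono hA ?_ le_rfl)
    · rw [mem_sphere_zero_iff_norm]; exact hpn
    · exact fun z hz => ⟨hz.1, h hz.1⟩
  · exact gen_aut hN hδ hδ1 hΩo hp h

end Pool.Agent.MPca0fc2.TK
end
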