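import Mathlib
import Pool.Agent.Lib.MP_ca0fc2_an.CGInv
import Pool.Agent.Lib.MP_ca0fc2_an.Mg.G131

section

set_option autoImplicit false

open Metric Set MeasureTheory Filter Topology
open scoped InnerProductSpace ENNReal

namespace Pool.Agent.MPca0fc2.DA

open Pool.Agent.Lib.MP_ca0fc2_an
open Pool.Agent.MPca0fc2.PT

variable {E : Type*} [NormedAddCommGroup E] [InnerProductSpace ℂ E]
variable [FiniteDimensional ℂ E] [MeasurableSpace E] [BorelSpace E]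

omit [MeasurableSpace E] [BorelSpace E] in
theorem grd_le {u : E → ℂ} {w : E} (hw : ‖w‖ < 1) {K : ℝ} (hK : 0 ≤ K)
    (h : ∀ v, ‖fderiv ℂ u w (gg' w 0 v)‖ ≤ K * ‖v‖) : Real.sqrt (IG2 u w) ≤ K := by
  obtain ⟨b, hb, hbn⟩ := Pool.Agent.MPca0fc2.CG.IG_rep (u := u) hw
  rw [← hbn, Real.sqrt_sq (norm_nonneg _)]
  have h1 := h b
  rw [hb, inner_self_eq_norm_sq_to_K] at h1
  have h2 : ‖((‖b‖ : ℂ)) ^ 2‖ = ‖b‖ * ‖b‖ := by
    rw [norm_pow, Complex.norm_real, norm_norm, pow_two]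
  have h3 : ‖b‖ * ‖b‖ ≤ K * ‖b‖ := by
    rw [← h2]
    exact h1
  rcases (norm_nonneg b).eq_or_lt with h4 | h4
  · rw [← h4]
    exact hK
  · exact le_of_mul_le_mul_right h3 h4

theorem sIG_sum {ι : Type*} (s : Finset ι) (c : ι → ℂ) (v : ι → E → ℂ) {z : E} (hz : ‖z‖ < 1)
    (hv : ∀ i ∈ s, DifferentiableAt ℂ (v i) z) :
    Real.sqrt (IG2 (fun z => ∑ i ∈ s, c i * v i z) z) ≤
      ∑ i ∈ s, ‖c i‖ * Real.sqrt (IG2 (v i) z) := by
  apply grd_le hz
  · exact Finset.sum_nonneg fun i _ => mul_nonneg (norm_nonneg _) (Real.sqrt_nonneg _)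
  · intro x
    have h1 : HasFDerivAt (fun z => ∑ i ∈ s, c i * v i z) (∑ i ∈ s, c i • fderiv ℂ (v i) z) z :=
      HasFDerivAt.fun_sum fun i hi => (hv i hi).hasFDerivAt.const_mul (c i)
    rw [h1.fderiv, sum_apply]
    calc ‖∑ i ∈ s, (c i • fderiv ℂ (v i) z) (gg' z 0 x)‖
        ≤ ∑ i ∈ s, ‖(c i • fderiv ℂ (v i) z) (gg' z 0 x)‖ := norm_sum_le _ _
      _ ≤ ∑ i ∈ s, ‖c i‖ * Real.sqrt (IG2 (v i) z) * ‖x‖ := by
          apply Finset.sum_le_sum
          intro i _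
          have h2 : (c i • fderiv ℂ (v i) z) (gg' z 0 x) = c i * fderiv ℂ (v i) z (gg' z 0 x) := rfl
          rw [h2, norm_mul, mul_assoc]
          exact mul_le_mul_of_nonneg_left (gd_IG hz x) (norm_nonneg _)
      _ = (∑ i ∈ s, ‖c i‖ * Real.sqrt (IG2 (v i) z)) * ‖x‖ := by rw [Finset.sum_mul]

theorem sIG_bound {u : E → ℂ} {M : ℝ} (hu : DifferentiableOn ℂ u (ball 0 1))
    (hM : ∀ z ∈ ball (0 : E) 1, ‖u z‖ ≤ M) {z : E} (hz : ‖z‖ < 1) :
    Real.sqrt (IG2 u z) ≤ M := by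
  have hM0 : 0 ≤ M := (norm_nonneg _).trans (hM 0 (mem_ball_self one_pos))
  apply grd_le hz hM0
  intro v
  have h1 := gd_chain hu hz (x := 0) (by simp) v
  rw [gg_zero] at h1
  rw [← h1]
  exact gd_schwarz (gd_diff hu hz) (M := M) (by
    intro x hx
    rw [mem_ball_zero_iff] at hx
    exact hM _ (by rw [mem_ball_zero_iff]; exact gg_lt hz hx)) v

omit [FiniteDimensional ℂ E] [MeasurableSpace E] [BorelSpace E] in
theorem grd_smul_lt {r : ℝ} (hr0 : 0 ≤ r) (hr1 : r ≤ 1) {z : E} (hz : ‖z‖ < 1) :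
    ‖((r : ℝ) : ℂ) • z‖ < 1 := by
  rw [norm_smul, Complex.norm_real, Real.norm_eq_abs, abs_of_nonneg hr0]
  have := mul_le_mul_of_nonneg_right hr1 (norm_nonneg z)
  linarith

omit [FiniteDimensional ℂ E] [MeasurableSpace E] [BorelSpace E] in
theorem grd_dil_deriv {u : E → ℂ} (hu : DifferentiableOn ℂ u (ball 0 1)) {r : ℝ} (hr0 : 0 ≤ r)
    (hr1 : r ≤ 1) {z : E} (hz : ‖z‖ < 1) :
    HasFDerivAt (fun z => u (((r : ℝ) : ℂ) • z))
      (((r : ℝ) : ℂ) • fderiv ℂ u (((r : ℝ) : ℂ) • z)) z := by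
  have h1 : HasFDerivAt u (fderiv ℂ u (((r : ℝ) : ℂ) • z)) (((r : ℝ) : ℂ) • z) :=
    (hu.differentiableAt (isOpen_ball.mem_nhds
      (by rw [mem_ball_zero_iff]; exact grd_smul_lt hr0 hr1 hz))).hasFDerivAt
  have h2 : HasFDerivAt (fun z : E => ((r : ℝ) : ℂ) • z)
      (((r : ℝ) : ℂ) • ContinuousLinearMap.id ℂ E) z :=
    (hasFDerivAt_id z).const_smul _
  have h3 := h1.comp z h2
  have h4 : (fderiv ℂ u (((r : ℝ) : ℂ) • z)).comp (((r : ℝ) : ℂ) • ContinuousLinearMap.id ℂ E) =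
      ((r : ℝ) : ℂ) • fderiv ℂ u (((r : ℝ) : ℂ) • z) := by
    ext v
    simp
  rw [h4] at h3
  exact h3

theorem grd_real {x R a b t N : ℝ} (hx : 0 < x) (hR : 0 ≤ R) (hRx : R * (1 + 2 * x) ≤ 1)
    (ha : 0 ≤ a) (hb : 0 ≤ b) (ht : 0 ≤ t) (hba : b ≤ a * t) (htR : t ≤ R) (hN : 0 ≤ N)
    (h : (1 - t) * (a - b) ≤ N) : R * a - b ≤ 4 * N / x := by
  rw [le_div_iff₀ hx]
  have hR1 : R ≤ 1 := by nlinarith
  have hat : a * t ≤ a * R := mul_le_mul_of_nonneg_left htR ha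
  have haR : a * R ≤ a := by nlinarith
  have hab : 0 ≤ a - b := by linarith
  rcases le_total x 1 with hx1 | hx1
  · have h4 : R ≤ 1 - 2 / 3 * x := by
      have h5 : 0 < 1 + 2 * x := by linarith
      have h6 : R * (1 + 2 * x) ≤ (1 - 2 / 3 * x) * (1 + 2 * x) := by nlinarith
      exact le_of_mul_le_mul_right h6 h5
    have h7 : 2 / 3 * x * (a - b) ≤ (1 - t) * (a - b) :=
      mul_le_mul_of_nonneg_right (by linarith) hab
    have h8 : (R * a - b) * x ≤ (a - b) * x :=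
      mul_le_mul_of_nonneg_right (by linarith) hx.le
    have h9 : 2 / 3 * x * (a - b) = 2 / 3 * ((a - b) * x) := by ring
    linarith
  · have h1 : R * 3 ≤ R * (1 + 2 * x) := mul_le_mul_of_nonneg_left (by linarith) hR
    have h2 : t ≤ 1 / 3 := by linarith
    have h3 : a * t ≤ a * (1 / 3) := mul_le_mul_of_nonneg_left h2 ha
    have h4 : 2 / 3 * (2 / 3 * a) ≤ (1 - t) * (a - b) :=
      mul_le_mul (by linarith) (by linarith) (by positivity) (by linarith)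
    have h5 : R * x ≤ 1 / 2 := by
      have : R * (1 + 2 * x) = R + 2 * (R * x) := by ring
      linarith
    have h6 : R * x * a ≤ 1 / 2 * a := mul_le_mul_of_nonneg_right h5 ha
    have h7 : (R * a - b) * x = R * x * a - b * x := by ring
    have h8 : 0 ≤ b * x := mul_nonneg hb hx.le
    linarith

/-- the gradient of a dilation -/
theorem sIG_dil : ∃ C : ℝ, 1 ≤ C ∧ ∀ (u : E → ℂ) (M : ℝ), DifferentiableOn ℂ u (ball 0 1) →
    (∀ z ∈ ball (0 : E) 1, ‖u z‖ ≤ M) → ∀ (x : ℝ), 0 < x → ∀ z : E, ‖z‖ < 1 →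
    Real.sqrt (IG2 (fun z => u (((Real.exp (-x) : ℝ) : ℂ) • z)) z) ≤
      C * M * Real.sqrt ((1 - ‖z‖ ^ 2) / x) := by
  refine ⟨2, by norm_num, fun u M hu hM x hx z hz => ?_⟩
  have hM0 : 0 ≤ M := (norm_nonneg _).trans (hM 0 (mem_ball_self one_pos))
  set r := Real.exp (-x) with hr
  have hr0 : 0 < r := Real.exp_pos _
  have hexp : r * (1 + x) ≤ 1 := by
    have h1 := Real.add_one_le_exp x
    have h2 : r * Real.exp x = 1 := by rw [hr, ← Real.exp_add]; simp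
    nlinarith
  have hr2x : r ^ 2 * (1 + 2 * x) ≤ 1 := by
    have h1 := Real.add_one_le_exp (2 * x)
    have h2 : r ^ 2 * Real.exp (2 * x) = 1 := by
      rw [hr, ← Real.exp_nat_mul, ← Real.exp_add]
      simp
    nlinarith [sq_nonneg r]
  have hr1 : r ≤ 1 := by nlinarith
  have hr1' : r < 1 := by nlinarith
  have hy := grd_smul_lt hr0.le hr1 hz
  have hd := grd_dil_deriv hu hr0.le hr1 hz
  set y : E := ((r : ℝ) : ℂ) • z with hyd
  set D := fderiv ℂ u y with hD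
  have hyn : ‖y‖ = r * ‖z‖ := by
    rw [hyd, norm_smul, Complex.norm_real, Real.norm_eq_abs, abs_of_pos hr0]
  have hz0 := norm_nonneg z
  have hIGv : IG2 (fun z => u (((r : ℝ) : ℂ) • z)) z =
      (1 - ‖z‖ ^ 2) * (r ^ 2 * ‖D‖ ^ 2 - ‖D y‖ ^ 2) := by
    unfold IG2
    rw [hd.fderiv]
    have e1 : ‖((r : ℝ) : ℂ) • D‖ = r * ‖D‖ := by
      rw [norm_smul, Complex.norm_real, Real.norm_eq_abs, abs_of_pos hr0]
    have e2 : (((r : ℝ) : ℂ) • D) z = D y := by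
      rw [hyd, map_smul]
      rfl
    rw [e1, e2, mul_pow]
  have hIGu : (1 - ‖y‖ ^ 2) * (‖D‖ ^ 2 - ‖D y‖ ^ 2) ≤ M ^ 2 := by
    have h1 := sIG_bound hu hM hy
    have h2 : IG2 u y ≤ M ^ 2 := (Real.sqrt_le_left hM0).1 h1
    exact h2
  have hDy : ‖D y‖ ≤ ‖D‖ * ‖y‖ := D.le_opNorm y
  have hDy2 : ‖D y‖ ^ 2 ≤ ‖D‖ ^ 2 * ‖y‖ ^ 2 := by
    rw [← mul_pow]
    exact pow_le_pow_left₀ (norm_nonneg _) hDy 2
  have hz1 : 0 ≤ 1 - ‖z‖ ^ 2 := by nlinarith
  have hy2 : ‖y‖ ^ 2 ≤ r ^ 2 := by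
    rw [hyn, mul_pow]
    have : ‖z‖ ^ 2 ≤ 1 := by nlinarith
    nlinarith [sq_nonneg r]
  have hr2 : r ^ 2 < 1 := by nlinarith
  have hy1 : 0 < 1 - ‖y‖ ^ 2 := by linarith
  have hD2 := sq_nonneg ‖D‖
  have hmain : r ^ 2 * ‖D‖ ^ 2 - ‖D y‖ ^ 2 ≤ 4 * M ^ 2 / x :=
    grd_real hx (sq_nonneg r) hr2x (sq_nonneg _) (sq_nonneg _) (sq_nonneg _) hDy2 hy2 (sq_nonneg M)
      hIGu
  rw [Real.sqrt_le_left (by positivity), hIGv, mul_pow, mul_pow, Real.sq_sqrt (by positivity)]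
  calc (1 - ‖z‖ ^ 2) * (r ^ 2 * ‖D‖ ^ 2 - ‖D y‖ ^ 2)
      ≤ (1 - ‖z‖ ^ 2) * (4 * M ^ 2 / x) := mul_le_mul_of_nonneg_left hmain hz1
    _ = 2 ^ 2 * M ^ 2 * ((1 - ‖z‖ ^ 2) / x) := by ring

/-- the gradient is controlled by the gradient of the difference -/
theorem sIG_dif (q : ℕ) : ∃ C : ℝ, 1 ≤ C ∧ ∀ (u : E → ℂ) (M : ℝ),
    DifferentiableOn ℂ u (ball 0 1) → (∀ z ∈ ball (0 : E) 1, ‖u z‖ ≤ M) →
    ∀ (j l : ℕ) (z : E), ‖z‖ < 1 → 1 - ‖z‖ ^ 2 ≤ (1 / 2 : ℝ) ^ j →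
    Real.sqrt (IG2 u z) ≤ C * M * Real.sqrt ((1 / 2 : ℝ) ^ l) +
      Real.sqrt (IG2 (dif q ((2 : ℝ) ^ ((l : ℤ) - (j : ℤ))) u) z) := by
  obtain ⟨C, hC, hdil⟩ := sIG_dil (E := E)
  refine ⟨(∑ i ∈ Finset.range q, (q.choose (i + 1) : ℝ)) * C + 1, ?_, ?_⟩
  · have : 0 ≤ (∑ i ∈ Finset.range q, (q.choose (i + 1) : ℝ)) * C := by positivity
    linarith
  intro u M hu hM j l z hz hzj
  have hM0 : 0 ≤ M := (norm_nonneg _).trans (hM 0 (mem_ball_self one_pos))
  set s : ℝ := (2 : ℝ) ^ ((l : ℤ) - (j : ℤ)) with hs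
  have hs0 : 0 < s := by positivity
  -- the decomposition
  let c : ℕ → ℂ := fun i => if i = 0 then 1 else -((-1) ^ i * (q.choose i : ℂ))
  let v : ℕ → E → ℂ := fun i => if i = 0 then dif q s u
    else fun z => u (((Real.exp (-(i * s)) : ℝ) : ℂ) • z)
  have hdec : (fun z => ∑ i ∈ Finset.range (q + 1), c i * v i z) = u := by
    funext z
    rw [Finset.sum_range_succ']
    simp only [c, v, if_true, Nat.succ_ne_zero, if_false, one_mul]
    unfold dif
    rw [Finset.sum_range_succ']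
    simp
  have hr : ∀ i : ℕ, Real.exp (-(i * s)) ≤ 1 := by
    intro i
    rw [Real.exp_le_one_iff]
    have : 0 ≤ (i : ℝ) * s := by positivity
    linarith
  have hdu : ∀ i : ℕ, DifferentiableAt ℂ (fun z => u (((Real.exp (-(i * s)) : ℝ) : ℂ) • z)) z :=
    fun i => (grd_dil_deriv hu (Real.exp_pos _).le (hr i) hz).differentiableAt
  have hdd : DifferentiableAt ℂ (dif q s u) z := by
    unfold dif
    exact DifferentiableAt.fun_sum fun i _ => (hdu i).const_mul _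
  have hv : ∀ i ∈ Finset.range (q + 1), DifferentiableAt ℂ (v i) z := by
    intro i _
    by_cases hi : i = 0
    · simp only [v, hi, if_true]
      exact hdd
    · simp only [v, hi, if_false]
      exact hdu i
  have h1 := sIG_sum (Finset.range (q + 1)) c v hz hv
  rw [hdec, Finset.sum_range_succ'] at h1
  have h2 : ‖c 0‖ * Real.sqrt (IG2 (v 0) z) = Real.sqrt (IG2 (dif q s u) z) := by
    simp [c, v]
  rw [h2] at h1
  refine h1.trans ?_
  have h3 : ∑ k ∈ Finset.range q, ‖c (k + 1)‖ * Real.sqrt (IG2 (v (k + 1)) z) ≤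
      ∑ k ∈ Finset.range q, (q.choose (k + 1) : ℝ) * (C * M * Real.sqrt ((1 / 2 : ℝ) ^ l)) := by
    apply Finset.sum_le_sum
    intro k _
    have e1 : ‖c (k + 1)‖ = (q.choose (k + 1) : ℝ) := by
      simp only [c, Nat.succ_ne_zero, if_false]
      rw [norm_neg, norm_mul, norm_pow, norm_neg, norm_one, one_pow, one_mul, Complex.norm_natCast]
    have e2 : v (k + 1) = fun z => u (((Real.exp (-((k + 1 : ℕ) * s)) : ℝ) : ℂ) • z) := by
      simp only [v, Nat.succ_ne_zero, if_false]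
    rw [e1, e2]
    apply mul_le_mul_of_nonneg_left _ (Nat.cast_nonneg _)
    have hks : (0 : ℝ) < ((k + 1 : ℕ) : ℝ) * s := by positivity
    refine (hdil u M hu hM (((k + 1 : ℕ) : ℝ) * s) hks z hz).trans ?_
    apply mul_le_mul_of_nonneg_left _ (by positivity)
    apply Real.sqrt_le_sqrt
    rw [div_le_iff₀ hks]
    have e3 : (1 / 2 : ℝ) ^ l * s = (1 / 2 : ℝ) ^ j := by
      rw [hs, zpow_sub₀ (by norm_num), zpow_natCast, zpow_natCast, ← mul_div_assoc, ← mul_pow]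
      norm_num
      rw [one_div, inv_pow]
    have e4 : s ≤ ((k + 1 : ℕ) : ℝ) * s := by
      have : (1 : ℝ) ≤ ((k + 1 : ℕ) : ℝ) := by
        push_cast
        have : (0 : ℝ) ≤ k := Nat.cast_nonneg k
        linarith
      nlinarith
    have e5 : (1 / 2 : ℝ) ^ l * s ≤ (1 / 2 : ℝ) ^ l * (((k + 1 : ℕ) : ℝ) * s) :=
      mul_le_mul_of_nonneg_left e4 (by positivity)
    linarith
  rw [← Finset.sum_mul] at h3
  have h4 : 0 ≤ M * Real.sqrt ((1 / 2 : ℝ) ^ l) := by positivity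
  calc ∑ k ∈ Finset.range q, ‖c (k + 1)‖ * Real.sqrt (IG2 (v (k + 1)) z) +
        Real.sqrt (IG2 (dif q s u) z)
      ≤ (∑ i ∈ Finset.range q, (q.choose (i + 1) : ℝ)) * (C * M * Real.sqrt ((1 / 2 : ℝ) ^ l)) +
        Real.sqrt (IG2 (dif q s u) z) := by linarith
    _ ≤ ((∑ i ∈ Finset.range q, (q.choose (i + 1) : ℝ)) * C + 1) * M *
        Real.sqrt ((1 / 2 : ℝ) ^ l) + Real.sqrt (IG2 (dif q s u) z) := by
        have : ((∑ i ∈ Finset.range q, (q.choose (i + 1) : ℝ)) * C + 1) * M *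
          Real.sqrt ((1 / 2 : ℝ) ^ l) = (∑ i ∈ Finset.range q, (q.choose (i + 1) : ℝ)) *
            (C * M * Real.sqrt ((1 / 2 : ℝ) ^ l)) + M * Real.sqrt ((1 / 2 : ℝ) ^ l) := by ring
        linarith

end Pool.Agent.MPca0fc2.DA
end

section

set_option autoImplicit false

open Metric Set MeasureTheory Filter Topology
open scoped InnerProductSpace ENNReal

namespace Pool.Agent.MPca0fc2.DA

open Pool.Agent.Lib.MP_ca0fc2_an
open Pool.Agent.MPca0fc2.PT

variable {E : Type*} [NormedAddCommGroup E] [InnerProductSpace ℂ E]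
variable [FiniteDimensional ℂ E] [MeasurableSpace E] [BorelSpace E]

/-- The invariant Carleson condition for the `p`-th power of the invariant gradient. -/
def GradCarl (μ : Measure E) (m : ℕ) (p A : ℝ) (u : E → ℂ) : Prop :=
  DifferentiableOn ℂ u (ball 0 1) ∧ ∀ w ∈ ball (0 : E) 1,
    ∫⁻ z in ball (0 : E) 1,
      ENNReal.ofReal (invKer w z * invGrad2 u z ^ (p / 2) / (1 - ‖z‖ ^ 2) ^ (m + 2)) ∂μ ≤
      ENNReal.ofReal A

theorem carl_of_gradCarl (μ : Measure E) {m : ℕ} {p A : ℝ} {u : E → ℂ} (hA : 0 ≤ A)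
    (h : GradCarl μ m p A u) : Carl (nu μ m p u) A := by
  refine ⟨hA, ?_, ?_⟩
  · unfold nu
    rw [withDensity_apply _ measurableSet_ball.compl, Measure.restrict_restrict measurableSet_ball.compl,
      compl_inter_self, Measure.restrict_empty, lintegral_zero_measure]
  · intro w hw
    have hw1 := mem_ball_zero_iff.mp hw
    rw [nu, lintegral_withDensity_eq_lintegral_mul]
    rotate_left
    · apply ENNReal.measurable_ofReal.comp
      exact ((gd_IG_meas u).pow_const _).div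
        ((measurable_const.sub (measurable_norm.pow_const 2)).pow_const (m + 2))
    · exact ENNReal.measurable_ofReal.comp (gd_HH_meas w)
    refine le_trans (le_of_eq ?_) (h.2 w hw)
    apply setLIntegral_congr_fun measurableSet_ball
    intro z hz
    have hz1 := mem_ball_zero_iff.mp hz
    have h0 : 0 ≤ IG2 u z := gd_IG_nonneg hz1
    have hpos : 0 < 1 - ‖z‖ ^ 2 := by nlinarith [norm_nonneg z]
    simp only [Pi.mul_apply]
    rw [← ENNReal.ofReal_mul (by positivity), CG.invGrad2_eq]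
    congr 1
    have h1 : invKer w z = PT.HH w z := rfl
    rw [h1]
    ring

/-- From the Carleson condition to `CarlesonGradient`. -/
theorem carl_class (μ : Measure E) [μ.IsAddHaarMeasure] {m : ℕ}
    (hdim : Module.finrank ℂ E = m + 1) {p : ℝ} (hp1 : 1 ≤ p) :
    ∃ K : ℝ, 0 < K ∧ ∀ (u : E → ℂ) (A : ℝ), DifferentiableOn ℂ u (ball 0 1) →
    Carl (nu μ m p u) A → CarlesonGradient p (K * A) u := by
  have hp0 : (0 : ℝ) < p := by linarith
  obtain ⟨C, hC, hg⟩ := grad_bound μ hdim hp1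
  obtain ⟨K, hK⟩ : ∃ K, K = (6 * C) ^ p := ⟨_, rfl⟩
  have hK0 : 0 < K := by rw [hK]; positivity
  refine ⟨K, hK0, ?_⟩
  intro u A hu hcu
  obtain ⟨ν, hν⟩ : ∃ ν, ν = nu μ m p u := ⟨_, rfl⟩
  rw [← hν] at hcu
  have hgu := hg u A hu (by rw [← hν]; exact hcu)
  rw [← hν] at hgu
  have hres : ν.restrict (ball 0 1) = ν := by
    apply Measure.restrict_eq_self_of_ae_mem
    rw [ae_iff]
    exact hcu.2.1
  refine ⟨ENNReal.ofReal K • ν, ?_, ?_⟩
  · intro w hw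
    rw [Measure.restrict_smul, lintegral_smul_measure, ENNReal.ofReal_mul hK0.le, smul_eq_mul, hres]
    gcongr
    exact hcu.2.2 w hw
  · intro z hz
    have hz' := mem_ball_zero_iff.mp hz
    rw [Measure.restrict_smul, integral_smul_measure, ENNReal.toReal_ofReal hK0.le, smul_eq_mul, hres]
    have hE : ∫ ξ, invKer z ξ ^ 2 ∂ν = EE ν z := rfl
    rw [hE]
    have hE0 : 0 ≤ EE ν z := EE_nonneg _ _
    obtain ⟨b, hb1, hb2⟩ := CG.IG_rep (u := u) hz'
    have h1 : ‖b‖ ^ 2 ≤ 6 * C * EE ν z ^ (1 / p) * ‖b‖ := by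
      have h2 := hgu z hz' (gg' z 0 b)
      rw [hb1 b, inner_self_eq_norm_sq_to_K, norm_pow] at h2
      have h3 := gau_gg hz' (x := (0 : E)) (v := b) (by simp)
      rw [gg_zero] at h3
      simp only [norm_zero, ne_eq, OfNat.ofNat_ne_zero, not_false_eq_true, zero_pow, sub_zero,
        div_one] at h3
      have h4 : ‖((‖b‖ : ℝ) : ℂ)‖ = ‖b‖ := by simp
      have h2' : ‖b‖ ^ 2 ≤ C * EE ν z ^ (1 / p) * gau (1 - ‖z‖ ^ 2) z (gg' z 0 b) := by
        rw [← h4]; exact_mod_cast h2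
      calc _ ≤ _ := h2'
        _ ≤ C * EE ν z ^ (1 / p) * (6 * ‖b‖) := by gcongr
        _ = _ := by ring
    have h5 : ‖b‖ ≤ 6 * C * EE ν z ^ (1 / p) := by
      rcases (norm_nonneg b).eq_or_lt with h | h
      · rw [← h]; positivity
      · nlinarith
    have h6 : invGrad2 u z ^ (p / 2) = ‖b‖ ^ p := by
      rw [CG.invGrad2_eq, ← hb2, ← Real.rpow_natCast ‖b‖ 2, ← Real.rpow_mul (norm_nonneg b)]
      congr 1
      push_cast; ring
    rw [h6]
    calc _ ≤ (6 * C * EE ν z ^ (1 / p)) ^ p := by gcongr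
      _ = K * EE ν z := by
        rw [Real.mul_rpow (by positivity) (by positivity), ← Real.rpow_mul hE0,
          one_div_mul_cancel hp0.ne', Real.rpow_one, hK]

/-- `CarlesonGradient` is monotone in both parameters, for functions bounded by one. -/
theorem cg_mono {p q A B : ℝ} {u : E → ℂ} (hu : DifferentiableOn ℂ u (ball 0 1))
    (hb : ∀ z ∈ ball (0 : E) 1, ‖u z‖ ≤ 1) (hp : 0 ≤ p) (hpq : p ≤ q) (hAB : A ≤ B)
    (h : CarlesonGradient p A u) : CarlesonGradient q B u := by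
  obtain ⟨ν, h1, h2⟩ := h
  refine ⟨ν, fun w hw => (h1 w hw).trans (ENNReal.ofReal_le_ofReal hAB), fun z hz => ?_⟩
  have hz' := mem_ball_zero_iff.mp hz
  have h3 : Real.sqrt (IG2 u z) ≤ 1 := by
    have := sIG_bound hu hb hz'
    simpa using this
  have h4 : invGrad2 u z ≤ 1 := by
    rw [CG.invGrad2_eq]
    have h5 := (Real.sqrt_le_left zero_le_one).mp h3
    simpa using h5
  have h0 : 0 ≤ invGrad2 u z := by
    rw [CG.invGrad2_eq]; exact gd_IG_nonneg hz'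
  refine le_trans ?_ (h2 z hz)
  rcases h0.eq_or_lt with h | h
  · rw [← h]
    rcases hp.eq_or_lt with hp0 | hp0
    · rw [← hp0, zero_div, Real.rpow_zero]
      exact Real.zero_rpow_le_one _
    · rw [Real.zero_rpow (by linarith), Real.zero_rpow (by linarith)]
  · exact Real.rpow_le_rpow_of_exponent_ge h h4 (by linarith)

/-- scaling -/
theorem gradCarl_smul (μ : Measure E) {m : ℕ} {p A c : ℝ} {u : E → ℂ} (hp : 0 ≤ p) (hc0 : 0 ≤ c)
    (hc1 : c ≤ 1) (h : GradCarl μ m p A u) : GradCarl μ m p A fun z => ((c : ℝ) : ℂ) * u z := by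
  refine ⟨h.1.const_mul _, fun w hw => le_trans ?_ (h.2 w hw)⟩
  apply setLIntegral_mono' measurableSet_ball
  intro z hz
  have hz' := mem_ball_zero_iff.mp hz
  have hw' := mem_ball_zero_iff.mp hw
  apply ENNReal.ofReal_le_ofReal
  have hpos : 0 < 1 - ‖z‖ ^ 2 := by nlinarith [norm_nonneg z]
  have hpos2 : 0 < 1 - ‖w‖ ^ 2 := by nlinarith [norm_nonneg w]
  have hd : DifferentiableAt ℂ u z := h.1.differentiableAt (isOpen_ball.mem_nhds hz)
  have h1 : invGrad2 (fun z => ((c : ℝ) : ℂ) * u z) z = c ^ 2 * invGrad2 u z := by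
    unfold invGrad2
    rw [fderiv_const_mul hd]
    simp only [smul_apply, norm_smul, smul_eq_mul, norm_mul, Complex.norm_real,
      Real.norm_eq_abs, abs_of_nonneg hc0]
    ring
  have h0 : 0 ≤ invGrad2 u z := by
    rw [CG.invGrad2_eq]; exact gd_IG_nonneg hz'
  have h2 : invGrad2 (fun z => ((c : ℝ) : ℂ) * u z) z ≤ invGrad2 u z := by
    rw [h1]
    have : c ^ 2 ≤ 1 := pow_le_one₀ hc0 hc1
    nlinarith
  have h3 : 0 ≤ invGrad2 (fun z => ((c : ℝ) : ℂ) * u z) z := by rw [h1]; positivity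
  have h4 : 0 ≤ invKer w z := by unfold invKer; positivity
  gcongr

end Pool.Agent.MPca0fc2.DA
end
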