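import Mathlib
import Pool.Agent.Lib.MP_ca0fc2_an.Mg.G131
import Pool.Agent.Lib.MP_ca0fc2_an.Mg.G050

section

set_option autoImplicit false

open Metric Set MeasureTheory Filter Topology
open scoped InnerProductSpace ENNReal

namespace Pool.Agent.MPca0fc2.DA

open Pool.Agent.Lib.MP_ca0fc2_an
open Pool.Agent.MPca0fc2.PT

theorem num_pow_le (p k : ℕ) : (k : ℝ) ^ p ≤ (p.factorial : ℝ) * ((p + k).choose k : ℕ) := by
  have h1 : (k + 1) ^ p ≤ p.factorial * (k + p).choose p := by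
    rw [← Nat.ascFactorial_eq_factorial_mul_choose]
    exact Nat.pow_succ_le_ascFactorial (k + 1) p
  have h2 : (k + p).choose p = (p + k).choose k := by
    rw [add_comm, Nat.choose_symm_add]
  have h3 : k ^ p ≤ p.factorial * (p + k).choose k := by
    rw [← h2]
    exact (Nat.pow_le_pow_left (Nat.le_succ k) p).trans h1
  exact_mod_cast h3

theorem num_term (p J j : ℕ) (hp : 1 ≤ p) (X : ℝ) (h1 : (2 : ℝ) ^ J ≤ X)
    (h2 : X < (2 : ℝ) ^ (J + 1)) :
    (2 : ℝ) ^ (j * p) * (1 - Real.exp (-(X / 2 ^ j))) ^ (2 * p + 2) ≤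
      2 * X ^ p * (1 / 2 : ℝ) ^ ((J - j) + (j - J)) := by
  have hX : 0 < X := lt_of_lt_of_le (by positivity) h1
  have hx : 0 < X / 2 ^ j := by positivity
  set x := X / (2 : ℝ) ^ j with hxdef
  have he1 : 1 - Real.exp (-x) ≤ x := by linarith [Real.add_one_le_exp (-x)]
  have he2 : 1 - Real.exp (-x) ≤ 1 := by linarith [Real.exp_pos (-x)]
  have he0 : 0 ≤ 1 - Real.exp (-x) := by
    have : Real.exp (-x) ≤ 1 := Real.exp_le_one_iff.2 (by linarith)
    linarith
  have hXx : (2 : ℝ) ^ j * x = X := by rw [hxdef]; field_simp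
  rcases le_or_gt j J with hj | hj
  · have e1 : (J - j) + (j - J) = J - j := by omega
    rw [e1]
    have h3 : (2 : ℝ) ^ (j * p) * (1 - Real.exp (-x)) ^ (2 * p + 2) ≤ (2 : ℝ) ^ (j * p) * 1 := by
      gcongr
      exact pow_le_one₀ he0 he2
    have h4 : (2 : ℝ) ^ (j * p) ≤ X ^ p * (1 / 2 : ℝ) ^ (J - j) := by
      have h5 : (2 : ℝ) ^ j * 2 ^ (J - j) ≤ X := by
        rw [← pow_add]
        have : j + (J - j) = J := by omega
        rw [this]; exact h1
      have h6 : ((2 : ℝ) ^ j * 2 ^ (J - j)) ^ p ≤ X ^ p := by gcongr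
      have h7 : (2 : ℝ) ^ (J - j) ≤ ((2 : ℝ) ^ (J - j)) ^ p :=
        le_self_pow₀ (one_le_pow₀ (by norm_num)) (by omega)
      have h8 : (2 : ℝ) ^ (j * p) * 2 ^ (J - j) ≤ X ^ p := by
        calc (2 : ℝ) ^ (j * p) * 2 ^ (J - j) ≤ (2 : ℝ) ^ (j * p) * (2 ^ (J - j)) ^ p := by gcongr
          _ = ((2 : ℝ) ^ j * 2 ^ (J - j)) ^ p := by rw [mul_pow, ← pow_mul 2 j p]
          _ ≤ X ^ p := h6
      calc (2 : ℝ) ^ (j * p) = (2 : ℝ) ^ (j * p) * 2 ^ (J - j) * (1 / 2 : ℝ) ^ (J - j) := by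
            rw [mul_assoc, ← mul_pow]; norm_num
        _ ≤ X ^ p * (1 / 2 : ℝ) ^ (J - j) := by gcongr
    have h9 : 0 ≤ X ^ p * (1 / 2 : ℝ) ^ (J - j) := by positivity
    linarith
  · have e1 : (J - j) + (j - J) = j - J := by omega
    rw [e1]
    have hx2 : x ≤ 2 * (1 / 2 : ℝ) ^ (j - J) := by
      rw [hxdef, div_le_iff₀ (by positivity)]
      have h5 : (2 : ℝ) ^ j = 2 ^ J * 2 ^ (j - J) := by
        rw [← pow_add]; congr 1; omega
      rw [h5]
      calc X ≤ (2 : ℝ) ^ (J + 1) := h2.le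
        _ = 2 * (2 ^ J * ((1 / 2 : ℝ) ^ (j - J) * 2 ^ (j - J))) := by
            rw [← mul_pow]; norm_num [pow_succ]; ring
        _ = _ := by ring
    have hx1 : x ≤ 1 := by
      refine hx2.trans ?_
      have : (1 / 2 : ℝ) ^ (j - J) ≤ (1 / 2 : ℝ) ^ 1 :=
        pow_le_pow_of_le_one (by norm_num) (by norm_num) (by omega)
      linarith
    calc (2 : ℝ) ^ (j * p) * (1 - Real.exp (-x)) ^ (2 * p + 2)
        ≤ (2 : ℝ) ^ (j * p) * x ^ (2 * p + 2) := by gcongr
      _ = (2 ^ j * x) ^ p * x ^ (p + 2) := by rw [mul_pow, ← pow_mul]; ring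
      _ = X ^ p * x ^ (p + 2) := by rw [hXx]
      _ ≤ X ^ p * x ^ 1 := by
          gcongr ?_ * ?_
          exact pow_le_pow_of_le_one hx.le hx1 (by omega)
      _ ≤ X ^ p * (2 * (1 / 2 : ℝ) ^ (j - J)) := by rw [pow_one]; gcongr
      _ = _ := by ring

theorem num_fin (J : ℕ) : ∑ i ∈ Finset.range J, (1 / 2 : ℝ) ^ ((J - i) + (i - J)) ≤ 1 := by
  have h1 : ∀ J : ℕ, ∑ i ∈ Finset.range J, (1 / 2 : ℝ) ^ (J - i) = 1 - (1 / 2 : ℝ) ^ J := by
    intro J
    induction J with
    | zero => simp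
    | succ n ih =>
      rw [Finset.sum_range_succ]
      have h2 : ∑ i ∈ Finset.range n, (1 / 2 : ℝ) ^ (n + 1 - i) =
          ∑ i ∈ Finset.range n, (1 / 2 : ℝ) * (1 / 2 : ℝ) ^ (n - i) := by
        apply Finset.sum_congr rfl
        intro i hi
        have : n + 1 - i = (n - i) + 1 := by have := Finset.mem_range.1 hi; omega
        rw [this, pow_succ]; ring
      rw [h2, ← Finset.mul_sum, ih]
      have : n + 1 - n = 1 := by omega
      rw [this, pow_succ]; ring
  calc ∑ i ∈ Finset.range J, (1 / 2 : ℝ) ^ ((J - i) + (i - J))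
      = ∑ i ∈ Finset.range J, (1 / 2 : ℝ) ^ (J - i) := by
        apply Finset.sum_congr rfl
        intro i hi
        have : (J - i) + (i - J) = J - i := by have := Finset.mem_range.1 hi; omega
        rw [this]
    _ = 1 - (1 / 2 : ℝ) ^ J := h1 J
    _ ≤ 1 := by have : (0 : ℝ) ≤ (1 / 2) ^ J := by positivity
                linarith

theorem num_tsum (K : ℝ) (hK : 0 ≤ K) (J : ℕ) :
    ∑' j : ℕ, ENNReal.ofReal (K * (1 / 2 : ℝ) ^ ((J - j) + (j - J))) ≤ ENNReal.ofReal (3 * K) := by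
  rw [← Summable.sum_add_tsum_nat_add' (k := J) ENNReal.summable]
  have h1 : ∑ i ∈ Finset.range J, ENNReal.ofReal (K * (1 / 2 : ℝ) ^ ((J - i) + (i - J))) ≤
      ENNReal.ofReal K := by
    rw [← ENNReal.ofReal_sum_of_nonneg (fun i _ => by positivity), ← Finset.mul_sum]
    apply ENNReal.ofReal_le_ofReal
    have := num_fin J
    nlinarith
  have h2 : ∑' i : ℕ, ENNReal.ofReal (K * (1 / 2 : ℝ) ^ ((J - (i + J)) + (i + J - J))) =
      ENNReal.ofReal (2 * K) := by
    have e1 : ∀ i : ℕ, (J - (i + J)) + (i + J - J) = i := by intro i; omega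
    simp only [e1]
    rw [← ENNReal.ofReal_tsum_of_nonneg (fun i => by positivity)
      (summable_geometric_two.mul_left K), tsum_mul_left, tsum_geometric_two, mul_comm]
  rw [h2]
  calc _ ≤ ENNReal.ofReal K + ENNReal.ofReal (2 * K) := by gcongr
    _ = ENNReal.ofReal (3 * K) := by
        rw [← ENNReal.ofReal_add hK (by positivity)]; congr 1; ring

theorem num_scales (m : ℕ) : ∃ C : ℝ, 0 < C ∧ ∀ (k l : ℕ),
    ∑' j : ℕ, ENNReal.ofReal ((2 : ℝ) ^ (j * (m + 5)) *
      (1 - Real.exp (-(k * (2 : ℝ) ^ ((l : ℤ) - (j : ℤ))))) ^ (2 * (m + 6))) ≤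
      ENNReal.ofReal (C * (2 : ℝ) ^ (l * (m + 5)) * bc m k) := by
  refine ⟨6 * ((m + 5).factorial : ℝ), by positivity, ?_⟩
  intro k l
  rcases Nat.eq_zero_or_pos k with hk | hk
  · subst hk
    simp
  · have hn : k * 2 ^ l ≠ 0 := by positivity
    set J := Nat.log 2 (k * 2 ^ l) with hJ
    have h1 : (2 : ℝ) ^ J ≤ (k : ℝ) * 2 ^ l := by
      have := Nat.pow_log_le_self 2 hn
      exact_mod_cast this
    have h2 : (k : ℝ) * 2 ^ l < (2 : ℝ) ^ (J + 1) := by
      have := Nat.lt_pow_succ_log_self (b := 2) (by norm_num) (k * 2 ^ l)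
      exact_mod_cast this
    have h3 : ∀ j : ℕ, ENNReal.ofReal ((2 : ℝ) ^ (j * (m + 5)) *
        (1 - Real.exp (-(k * (2 : ℝ) ^ ((l : ℤ) - (j : ℤ))))) ^ (2 * (m + 6))) ≤
        ENNReal.ofReal ((2 * ((k : ℝ) * 2 ^ l) ^ (m + 5)) *
          (1 / 2 : ℝ) ^ ((J - j) + (j - J))) := by
      intro j
      apply ENNReal.ofReal_le_ofReal
      have h4 := num_term (m + 5) J j (by omega) ((k : ℝ) * 2 ^ l) h1 h2
      have e1 : (k : ℝ) * (2 : ℝ) ^ ((l : ℤ) - (j : ℤ)) = (k : ℝ) * 2 ^ l / 2 ^ j := by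
        rw [zpow_sub₀ (by norm_num), zpow_natCast, zpow_natCast]; ring
      have e2 : 2 * (m + 6) = 2 * (m + 5) + 2 := by ring
      rw [e1, e2]
      exact h4
    refine (ENNReal.tsum_le_tsum h3).trans ((num_tsum _ (by positivity) J).trans ?_)
    apply ENNReal.ofReal_le_ofReal
    have h5 := num_pow_le (m + 5) k
    rw [mul_pow, ← pow_mul]
    calc 3 * (2 * ((k : ℝ) ^ (m + 5) * 2 ^ (l * (m + 5))))
        = 6 * (k : ℝ) ^ (m + 5) * 2 ^ (l * (m + 5)) := by ring
      _ ≤ 6 * (((m + 5).factorial : ℝ) * ((m + 5 + k).choose k : ℕ)) * 2 ^ (l * (m + 5)) := by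
          gcongr
      _ = _ := by unfold bc; ring

end Pool.Agent.MPca0fc2.DA
end

section

set_option autoImplicit false

open Metric Set MeasureTheory Filter Topology
open scoped InnerProductSpace ENNReal

namespace Pool.Agent.MPca0fc2.DA

open Pool.Agent.Lib.MP_ca0fc2_an
open Pool.Agent.MPca0fc2.PT

variable {E : Type*} [NormedAddCommGroup E] [InnerProductSpace ℂ E]
variable [FiniteDimensional ℂ E] [MeasurableSpace E] [BorelSpace E]

theorem pars_int (k l : ℕ) : ∫ t in Ioc (0 : ℝ) (2 * Real.pi),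
    Complex.exp (k * (t : ℂ) * Complex.I) *
      (starRingEnd ℂ) (Complex.exp (l * (t : ℂ) * Complex.I)) =
      if k = l then (2 * Real.pi : ℂ) else 0 := by
  have h1 : ∀ t : ℝ, Complex.exp (k * (t : ℂ) * Complex.I) *
      (starRingEnd ℂ) (Complex.exp (l * (t : ℂ) * Complex.I)) =
      Complex.exp ((((k : ℂ) - l) * Complex.I) * t) := by
    intro t
    rw [← Complex.exp_conj, ← Complex.exp_add]
    congr 1
    simp only [map_mul, Complex.conj_natCast, Complex.conj_ofReal, Complex.conj_I]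
    ring
  simp only [h1]
  rw [← intervalIntegral.integral_of_le Real.two_pi_pos.le]
  split_ifs with h
  · subst h
    simp
  · have hne : ((k : ℂ) - l) * Complex.I ≠ 0 := by
      apply mul_ne_zero _ Complex.I_ne_zero
      rw [sub_ne_zero]
      exact_mod_cast h
    rw [integral_exp_mul_complex hne]
    have h2 : Complex.exp (((k : ℂ) - l) * Complex.I * ((2 * Real.pi : ℝ) : ℂ)) = 1 := by
      rw [Complex.exp_eq_one_iff]
      refine ⟨(k : ℤ) - l, ?_⟩
      push_cast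
      ring
    rw [h2]
    simp

theorem pars_mul {f g : ℕ → ℂ} {x y : ℂ} (hf : HasSum f x) (hg : HasSum g y)
    (h : Summable fun p : ℕ × ℕ => f p.1 * g p.2) :
    HasSum (fun p : ℕ × ℕ => f p.1 * g p.2) (x * y) :=
  hf.mul hg h

/-- Parseval's formula on a slice, real form -/
theorem pars_real {b : ℕ → ℂ} (hb : Summable fun k => ‖b k‖) {g : ℝ → ℂ}
    (hg : ∀ t : ℝ, HasSum (fun k : ℕ => b k * Complex.exp (k * (t : ℂ) * Complex.I)) (g t)) :
    HasSum (fun k => 2 * Real.pi * ‖b k‖ ^ 2) (∫ t in Ioc (0 : ℝ) (2 * Real.pi), ‖g t‖ ^ 2) := by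
  obtain ⟨A, hA⟩ : ∃ A : ℕ → ℝ → ℂ, ∀ k t, A k t = b k * Complex.exp (k * (t : ℂ) * Complex.I) :=
    ⟨_, fun _ _ => rfl⟩
  have hg' : ∀ t, HasSum (fun k => A k t) (g t) := by
    intro t
    simp only [hA]
    exact hg t
  have hn : ∀ (k : ℕ) (t : ℝ), ‖A k t‖ = ‖b k‖ := by
    intro k t
    have : (k * (t : ℂ) * Complex.I) = ((k * t : ℝ) : ℂ) * Complex.I := by push_cast; ring
    rw [hA, norm_mul, this, Complex.norm_exp_ofReal_mul_I, mul_one]
  have hAc : ∀ k, Continuous (A k) := by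
    intro k
    have : A k = fun t : ℝ => b k * Complex.exp (k * (t : ℂ) * Complex.I) := funext (hA k)
    rw [this]
    fun_prop
  have hFn : ∀ (p : ℕ × ℕ) (t : ℝ), ‖A p.1 t * (starRingEnd ℂ) (A p.2 t)‖ = ‖b p.1‖ * ‖b p.2‖ := by
    intro p t
    rw [norm_mul, hn, RCLike.norm_conj, hn]
  have hsum2 : Summable (fun p : ℕ × ℕ => ‖b p.1‖ * ‖b p.2‖) :=
    hb.mul_of_nonneg hb (fun _ => norm_nonneg _) (fun _ => norm_nonneg _)
  have hF : ∀ t, HasSum (fun p : ℕ × ℕ => A p.1 t * (starRingEnd ℂ) (A p.2 t))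
      (g t * (starRingEnd ℂ) (g t)) := by
    intro t
    have h2 : HasSum (fun k : ℕ => (starRingEnd ℂ) (A k t)) ((starRingEnd ℂ) (g t)) :=
      (hg' t).map (starRingEnd ℂ) Complex.continuous_conj
    have h3 : Summable (fun p : ℕ × ℕ => A p.1 t * (starRingEnd ℂ) (A p.2 t)) := by
      refine Summable.of_norm ?_
      exact hsum2.congr (fun p => (hFn p t).symm)
    exact pars_mul (f := fun k => A k t) (g := fun k => (starRingEnd ℂ) (A k t)) (hg' t) h2 h3
  have hFc : ∀ p : ℕ × ℕ, Continuous (fun t => A p.1 t * (starRingEnd ℂ) (A p.2 t)) := by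
    intro p
    exact (hAc p.1).mul (Complex.continuous_conj.comp (hAc p.2))
  have hFi : ∀ p : ℕ × ℕ, Integrable (fun t => A p.1 t * (starRingEnd ℂ) (A p.2 t))
      (volume.restrict (Ioc (0 : ℝ) (2 * Real.pi))) := by
    intro p
    exact ((hFc p).continuousOn.integrableOn_compact isCompact_Icc).mono_set Ioc_subset_Icc_self
  have hvol : ∀ c : ℝ, ∫ _t in Ioc (0 : ℝ) (2 * Real.pi), c = 2 * Real.pi * c := by
    intro c
    rw [setIntegral_const]
    simp only [Measure.real, Real.volume_Ioc, sub_zero, smul_eq_mul,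
      ENNReal.toReal_ofReal Real.two_pi_pos.le, Measure.restrict_apply, MeasurableSet.univ,
      univ_inter]
  have hFs : Summable fun p : ℕ × ℕ => ∫ t, ‖A p.1 t * (starRingEnd ℂ) (A p.2 t)‖
      ∂(volume.restrict (Ioc (0 : ℝ) (2 * Real.pi))) := by
    have : ∀ p : ℕ × ℕ, ∫ t, ‖A p.1 t * (starRingEnd ℂ) (A p.2 t)‖
        ∂(volume.restrict (Ioc (0 : ℝ) (2 * Real.pi))) = 2 * Real.pi * (‖b p.1‖ * ‖b p.2‖) := by
      intro p
      simp only [hFn]
      exact hvol _
    simp only [this]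
    exact hsum2.mul_left _
  have hmain := hasSum_integral_of_summable_integral_norm hFi hFs
  have h3 : ∀ p : ℕ × ℕ, ∫ t, A p.1 t * (starRingEnd ℂ) (A p.2 t)
      ∂(volume.restrict (Ioc (0 : ℝ) (2 * Real.pi))) =
      if p.1 = p.2 then (2 * Real.pi : ℂ) * (b p.1 * (starRingEnd ℂ) (b p.2)) else 0 := by
    intro p
    have h4 : ∀ t, A p.1 t * (starRingEnd ℂ) (A p.2 t) = (b p.1 * (starRingEnd ℂ) (b p.2)) *
        (Complex.exp (p.1 * (t : ℂ) * Complex.I) *
          (starRingEnd ℂ) (Complex.exp (p.2 * (t : ℂ) * Complex.I))) := by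
      intro t
      rw [hA, hA, map_mul]
      ring
    simp only [h4]
    rw [integral_const_mul, pars_int]
    split_ifs <;> ring
  simp only [h3] at hmain
  have hinj : Function.Injective (fun k : ℕ => (k, k)) := fun a b h => (Prod.mk.inj h).1
  have h5 := (hinj.hasSum_iff (f := fun p : ℕ × ℕ =>
    if p.1 = p.2 then (2 * Real.pi : ℂ) * (b p.1 * (starRingEnd ℂ) (b p.2)) else 0) (by
      intro p hp
      rw [if_neg]
      intro h
      exact hp ⟨p.1, by ext <;> simp [h]⟩)).2 hmain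
  have h6 : ∫ t, ∑' p : ℕ × ℕ, A p.1 t * (starRingEnd ℂ) (A p.2 t)
      ∂(volume.restrict (Ioc (0 : ℝ) (2 * Real.pi))) =
      ((∫ t in Ioc (0 : ℝ) (2 * Real.pi), ‖g t‖ ^ 2 : ℝ) : ℂ) := by
    rw [← integral_complex_ofReal]
    refine integral_congr_ae (Eventually.of_forall fun t => ?_)
    simp only
    rw [(hF t).tsum_eq, Complex.mul_conj, Complex.normSq_eq_norm_sq]
  rw [h6] at h5
  have h7 : ((fun p : ℕ × ℕ =>
      if p.1 = p.2 then (2 * Real.pi : ℂ) * (b p.1 * (starRingEnd ℂ) (b p.2)) else 0) ∘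
      fun k : ℕ => (k, k)) = fun k => ((2 * Real.pi * ‖b k‖ ^ 2 : ℝ) : ℂ) := by
    funext k
    simp only [Function.comp, if_true]
    rw [Complex.mul_conj, Complex.normSq_eq_norm_sq]
    push_cast
    ring
  rw [h7] at h5
  exact_mod_cast h5

/-- Parseval's formula on a slice -/
theorem slice_parseval {b : ℕ → ℂ} (hb : Summable fun k => ‖b k‖) {g : ℝ → ℂ}
    (hg : ∀ t : ℝ, HasSum (fun k : ℕ => b k * Complex.exp (k * (t : ℂ) * Complex.I)) (g t)) :
    ∫⁻ t in Ioc (0 : ℝ) (2 * Real.pi), ENNReal.ofReal (‖g t‖ ^ 2) =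
      ENNReal.ofReal (2 * Real.pi) * ∑' k, ENNReal.ofReal (‖b k‖ ^ 2) := by
  have h1 := pars_real hb hg
  have hgc : Continuous g := by
    have h2 : g = fun t : ℝ => ∑' k : ℕ, b k * Complex.exp (k * (t : ℂ) * Complex.I) := by
      funext t
      exact (hg t).tsum_eq.symm
    rw [h2]
    refine continuous_tsum (u := fun k => ‖b k‖) (fun k => by fun_prop) hb (fun k t => ?_)
    have : (k * (t : ℂ) * Complex.I) = ((k * t : ℝ) : ℂ) * Complex.I := by push_cast; ring
    rw [norm_mul, this, Complex.norm_exp_ofReal_mul_I, mul_one]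
  have hi : Integrable (fun t => ‖g t‖ ^ 2) (volume.restrict (Ioc (0 : ℝ) (2 * Real.pi))) := by
    have : Continuous fun t => ‖g t‖ ^ 2 := hgc.norm.pow 2
    exact (this.continuousOn.integrableOn_compact isCompact_Icc).mono_set Ioc_subset_Icc_self
  rw [← ofReal_integral_eq_lintegral_ofReal hi (Eventually.of_forall fun t => by positivity),
    ← h1.tsum_eq, tsum_mul_left, ENNReal.ofReal_mul Real.two_pi_pos.le]
  congr 1
  have hs : Summable fun k => ‖b k‖ ^ 2 := by
    have := h1.summable.mul_left (2 * Real.pi)⁻¹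
    refine this.congr (fun k => ?_)
    have : (2 * Real.pi) ≠ 0 := Real.two_pi_pos.ne'
    field_simp
  exact ENNReal.ofReal_tsum_of_nonneg (fun k => by positivity) hs

theorem pars_coeff (q : ℕ) (s t : ℝ) (k : ℕ) :
    ∑ i ∈ Finset.range (q + 1), ((-1) ^ i * (q.choose i : ℂ)) *
      ((((Real.exp (-(i * s)) : ℝ) : ℂ) * Complex.exp (t * Complex.I)) ^ k) =
      (((1 - Real.exp (-(k * s))) ^ q : ℝ) : ℂ) * Complex.exp (k * (t : ℂ) * Complex.I) := by
  have h1 : ∀ i : ℕ, (((Real.exp (-(i * s)) : ℝ) : ℂ) * Complex.exp (t * Complex.I)) ^ k =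
      (((Real.exp (-(k * s)) : ℝ) : ℂ)) ^ i * Complex.exp (k * (t : ℂ) * Complex.I) := by
    intro i
    have ha : (Real.exp (-(i * s))) ^ k = (Real.exp (-(k * s))) ^ i := by
      rw [← Real.exp_nat_mul, ← Real.exp_nat_mul]
      congr 1
      ring
    have hb : Complex.exp (t * Complex.I) ^ k = Complex.exp (k * (t : ℂ) * Complex.I) := by
      rw [← Complex.exp_nat_mul, mul_assoc]
    rw [mul_pow, ← Complex.ofReal_pow, ha, Complex.ofReal_pow, hb]
  simp only [h1]
  have h2 : (((1 - Real.exp (-(k * s))) ^ q : ℝ) : ℂ) =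
      ∑ i ∈ Finset.range (q + 1), ((-1) ^ i * (q.choose i : ℂ)) *
        (((Real.exp (-(k * s)) : ℝ) : ℂ)) ^ i := by
    have h3 : (1 - Real.exp (-(k * s))) = (-Real.exp (-(k * s)) + 1) := by ring
    rw [h3]
    push_cast
    rw [add_pow]
    refine Finset.sum_congr rfl (fun i _ => ?_)
    rw [neg_pow]
    simp
    ring
  rw [h2, Finset.sum_mul]
  refine Finset.sum_congr rfl (fun i _ => ?_)
  ring

theorem pars_WW_nonneg (z : E) : 0 ≤ WW z := by
  unfold WW
  exact Even.pow_nonneg (by decide) _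

/-- The norm of linear combinations of dilations -/
theorem nrm2_dif (μ : Measure E) [μ.IsAddHaarMeasure] {u : E → ℂ}
    (hu : DifferentiableOn ℂ u (ball 0 1)) (q : ℕ) {s : ℝ} (hs : 0 ≤ s) :
    nrm2 μ (dif q s u) =
      ∑' k : ℕ, ENNReal.ofReal ((1 - Real.exp (-(k * s))) ^ (2 * q)) * nrm2 μ (hp u k) := by
  have hproper : ProperSpace E := FiniteDimensional.proper ℂ E
  set v := dif q s u with hv
  have he0 : ∀ i : ℕ, ‖((Real.exp (-(i * s)) : ℝ) : ℂ)‖ ≤ 1 := by
    intro i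
    rw [Complex.norm_real, Real.norm_eq_abs, abs_of_pos (Real.exp_pos _), Real.exp_le_one_iff]
    have : (0 : ℝ) ≤ i * s := by positivity
    linarith
  -- the slice expansion
  have hslice : ∀ z ∈ ball (0 : E) 1, ∀ t : ℝ, HasSum (fun k : ℕ =>
      ((((1 - Real.exp (-(k * s))) ^ q : ℝ) : ℂ) * hp u k z) *
        Complex.exp (k * (t : ℂ) * Complex.I)) (v (Complex.exp (t * Complex.I) • z)) := by
    intro z hz t
    have h1 : ∀ i ∈ Finset.range (q + 1), HasSum (fun k : ℕ => ((-1) ^ i * (q.choose i : ℂ)) *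
        ((((Real.exp (-(i * s)) : ℝ) : ℂ) * Complex.exp (t * Complex.I)) ^ k * hp u k z))
        (((-1) ^ i * (q.choose i : ℂ)) *
          u (((Real.exp (-(i * s)) : ℝ) : ℂ) • Complex.exp (t * Complex.I) • z)) := by
      intro i _
      have hn : ‖((Real.exp (-(i * s)) : ℝ) : ℂ) * Complex.exp (t * Complex.I)‖ ≤ 1 := by
        rw [norm_mul, hom_exp_norm', mul_one]
        exact he0 i
      have h2 := (hp_sum hu hz hn).mul_left ((-1) ^ i * (q.choose i : ℂ))
      rw [mul_smul] at h2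
      exact h2
    have h3 := hasSum_sum h1
    have h4 : (fun k : ℕ => ∑ i ∈ Finset.range (q + 1), ((-1) ^ i * (q.choose i : ℂ)) *
        ((((Real.exp (-(i * s)) : ℝ) : ℂ) * Complex.exp (t * Complex.I)) ^ k * hp u k z)) =
        fun k : ℕ => ((((1 - Real.exp (-(k * s))) ^ q : ℝ) : ℂ) * hp u k z) *
          Complex.exp (k * (t : ℂ) * Complex.I) := by
      funext k
      have h5 := pars_coeff q s t k
      have h6 : ∑ i ∈ Finset.range (q + 1), ((-1) ^ i * (q.choose i : ℂ)) *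
          ((((Real.exp (-(i * s)) : ℝ) : ℂ) * Complex.exp (t * Complex.I)) ^ k * hp u k z) =
          (∑ i ∈ Finset.range (q + 1), ((-1) ^ i * (q.choose i : ℂ)) *
          ((((Real.exp (-(i * s)) : ℝ) : ℂ) * Complex.exp (t * Complex.I)) ^ k)) * hp u k z := by
        rw [Finset.sum_mul]
        refine Finset.sum_congr rfl (fun i _ => ?_)
        ring
      rw [h6, h5]
      ring
    rw [h4] at h3
    exact h3
  have hfac : ∀ k : ℕ, 0 ≤ 1 - Real.exp (-(k * s)) ∧ 1 - Real.exp (-(k * s)) ≤ 1 := by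
    intro k
    have h1 : Real.exp (-(k * s)) ≤ 1 := by
      rw [Real.exp_le_one_iff]
      have : (0 : ℝ) ≤ k * s := by positivity
      linarith
    have h2 := Real.exp_pos (-(k * s))
    constructor <;> linarith
  have hpars : ∀ z ∈ ball (0 : E) 1, ∫⁻ t in Ioc (0 : ℝ) (2 * Real.pi),
      ENNReal.ofReal (‖v (Complex.exp (t * Complex.I) • z)‖ ^ 2) =
      ENNReal.ofReal (2 * Real.pi) * ∑' k : ℕ,
        ENNReal.ofReal ((1 - Real.exp (-(k * s))) ^ (2 * q) * ‖hp u k z‖ ^ 2) := by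
    intro z hz
    have hsm : Summable fun k : ℕ => ‖(((1 - Real.exp (-(k * s))) ^ q : ℝ) : ℂ) * hp u k z‖ := by
      have h1 := (hp_sum hu hz (ζ := 1) (by simp)).summable
      simp only [one_pow, one_mul] at h1
      refine Summable.of_nonneg_of_le (fun k => norm_nonneg _) (fun k => ?_) h1.norm
      rw [norm_mul, Complex.norm_real, Real.norm_eq_abs, abs_of_nonneg (pow_nonneg (hfac k).1 _)]
      exact mul_le_of_le_one_left (norm_nonneg _) (pow_le_one₀ (hfac k).1 (hfac k).2)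
    rw [slice_parseval hsm (hslice z hz)]
    congr 1
    refine tsum_congr (fun k => ?_)
    congr 1
    rw [norm_mul, Complex.norm_real, Real.norm_eq_abs, abs_of_nonneg (pow_nonneg (hfac k).1 _),
      mul_pow, ← pow_mul, mul_comm q 2]
  -- continuity
  have huc : ContinuousOn u (ball 0 1) := hu.continuousOn
  have hvc : ContinuousOn v (ball 0 1) := by
    have : v = fun z => ∑ i ∈ Finset.range (q + 1), ((-1) ^ i * (q.choose i : ℂ)) *
        u (((Real.exp (-(i * s)) : ℝ) : ℂ) • z) := by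
      funext z; rfl
    rw [this]
    refine continuousOn_finset_sum _ (fun i _ => ?_)
    refine continuousOn_const.mul (huc.comp (by fun_prop) ?_)
    intro z hz
    exact hom_mem hz (he0 i)
  have hWc : Continuous fun z : E => WW z := by
    unfold WW
    fun_prop
  -- rotation invariance
  have hrot : ∀ t : ℝ, ∫⁻ z in ball (0 : E) 1,
      ENNReal.ofReal (WW z * ‖v (Complex.exp (t * Complex.I) • z)‖ ^ 2) ∂μ = nrm2 μ v := by
    intro t
    set c : ℂ := Complex.exp (t * Complex.I) with hc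
    have hcn : ‖c‖ = 1 := hom_exp_norm' t
    have hmp : MeasurePreserving (fun y : E => c • y) μ μ := by
      exact Pool.Agent.MPca0fc2.SD.mp_smul μ hcn
    have hc0 : c ≠ 0 := Complex.exp_ne_zero _
    have hemb : MeasurableEmbedding (fun y : E => c • y) :=
      (Homeomorph.smulOfNeZero c hc0 : E ≃ₜ E).measurableEmbedding
    have h1 := hmp.setLIntegral_comp_preimage_emb hemb
      (fun z => ENNReal.ofReal (WW z * ‖v z‖ ^ 2)) (ball 0 1)
    have h2 : (fun y : E => c • y) ⁻¹' (ball 0 1) = ball 0 1 := by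
      ext y
      simp [norm_smul, hcn]
    rw [h2] at h1
    unfold nrm2
    rw [← h1]
    refine lintegral_congr (fun z => ?_)
    congr 2
    unfold WW
    rw [norm_smul, hcn, one_mul]
  -- Tonelli
  have hT : ∫⁻ t in Ioc (0 : ℝ) (2 * Real.pi), ∫⁻ z in ball (0 : E) 1,
      ENNReal.ofReal (WW z * ‖v (Complex.exp (t * Complex.I) • z)‖ ^ 2) ∂μ =
      ∫⁻ z in ball (0 : E) 1, (∫⁻ t in Ioc (0 : ℝ) (2 * Real.pi),
      ENNReal.ofReal (WW z * ‖v (Complex.exp (t * Complex.I) • z)‖ ^ 2)) ∂μ := by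
    refine lintegral_lintegral_swap ?_
    rw [Measure.prod_restrict]
    have hcont : ContinuousOn (fun p : ℝ × E =>
        WW p.2 * ‖v (Complex.exp (p.1 * Complex.I) • p.2)‖ ^ 2)
        (Ioc (0 : ℝ) (2 * Real.pi) ×ˢ ball (0 : E) 1) := by
      refine ((hWc.comp continuous_snd).continuousOn).mul ?_
      refine ContinuousOn.pow (ContinuousOn.norm ?_) 2
      refine hvc.comp (by fun_prop) ?_
      rintro ⟨t, z⟩ ⟨_, hz⟩
      exact hom_mem hz (hom_exp_norm' t).le
    exact (hcont.aemeasurable (measurableSet_Ioc.prod measurableSet_ball)).ennreal_ofReal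
  have hL : ∫⁻ t in Ioc (0 : ℝ) (2 * Real.pi), ∫⁻ z in ball (0 : E) 1,
      ENNReal.ofReal (WW z * ‖v (Complex.exp (t * Complex.I) • z)‖ ^ 2) ∂μ =
      ENNReal.ofReal (2 * Real.pi) * nrm2 μ v := by
    simp only [hrot]
    rw [setLIntegral_const, Real.volume_Ioc, sub_zero, mul_comm]
  have hpm : ∀ k : ℕ, AEMeasurable (fun z : E => ENNReal.ofReal (WW z * ‖hp u k z‖ ^ 2))
      (μ.restrict (ball 0 1)) := by
    intro k
    have h1 : ContinuousOn (fun z : E => WW z * ‖hp u k z‖ ^ 2) (ball 0 1) :=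
      hWc.continuousOn.mul (((hp_diff hu k).continuousOn.norm).pow 2)
    exact (h1.aemeasurable measurableSet_ball).ennreal_ofReal
  have hR : ∫⁻ z in ball (0 : E) 1, (∫⁻ t in Ioc (0 : ℝ) (2 * Real.pi),
      ENNReal.ofReal (WW z * ‖v (Complex.exp (t * Complex.I) • z)‖ ^ 2)) ∂μ =
      ENNReal.ofReal (2 * Real.pi) *
      ∑' k : ℕ, ENNReal.ofReal ((1 - Real.exp (-(k * s))) ^ (2 * q)) * nrm2 μ (hp u k) := by
    have h1 : ∀ z ∈ ball (0 : E) 1, ∫⁻ t in Ioc (0 : ℝ) (2 * Real.pi),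
        ENNReal.ofReal (WW z * ‖v (Complex.exp (t * Complex.I) • z)‖ ^ 2) =
        ENNReal.ofReal (2 * Real.pi) * ∑' k : ℕ,
          ENNReal.ofReal ((1 - Real.exp (-(k * s))) ^ (2 * q)) *
            ENNReal.ofReal (WW z * ‖hp u k z‖ ^ 2) := by
      intro z hz
      have h2 : ∀ t : ℝ, ENNReal.ofReal (WW z * ‖v (Complex.exp (t * Complex.I) • z)‖ ^ 2) =
          ENNReal.ofReal (WW z) *
            ENNReal.ofReal (‖v (Complex.exp (t * Complex.I) • z)‖ ^ 2) := fun t =>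
        ENNReal.ofReal_mul (pars_WW_nonneg z)
      simp only [h2]
      rw [lintegral_const_mul' _ _ ENNReal.ofReal_ne_top, hpars z hz, ← mul_assoc,
        mul_comm (ENNReal.ofReal (WW z)), mul_assoc, ← ENNReal.tsum_mul_left]
      congr 1
      refine tsum_congr (fun k => ?_)
      rw [ENNReal.ofReal_mul (pow_nonneg (hfac k).1 _), ENNReal.ofReal_mul (pars_WW_nonneg z)]
      ring
    rw [setLIntegral_congr_fun measurableSet_ball h1,
      lintegral_const_mul' _ _ ENNReal.ofReal_ne_top, lintegral_tsum]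
    · congr 1
      refine tsum_congr (fun k => ?_)
      rw [lintegral_const_mul' _ _ ENNReal.ofReal_ne_top]
      rfl
    · intro k
      exact (hpm k).const_mul _
  have hfin : ENNReal.ofReal (2 * Real.pi) ≠ 0 := by
    rw [ne_eq, ENNReal.ofReal_eq_zero, not_le]
    exact Real.two_pi_pos
  have h9 := hL.symm.trans (hT.trans hR)
  exact (ENNReal.mul_right_inj hfin ENNReal.ofReal_ne_top).1 h9

end Pool.Agent.MPca0fc2.DA
end
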