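import Mathlib
import Pool.Agent.Lib.MP_ca0fc2_an.CGInv
import Pool.Agent.Lib.MP_ca0fc2_an.Mg.G131
import Pool.Agent.Lib.MP_ca0fc2_an.Mg.G010
import Pool.Agent.Lib.MP_ca0fc2_an.Mg.G013
import Pool.Agent.Lib.MP_ca0fc2_an.Mg.G014

section

set_option autoImplicit false

open Metric Set MeasureTheory Filter Topology
open scoped InnerProductSpace ENNReal

namespace Pool.Agent.MPca0fc2.DA

open Pool.Agent.Lib.MP_ca0fc2_an
open Pool.Agent.MPca0fc2.PT
open Pool.Agent.MPca0fc2.CG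

variable {E : Type*} [NormedAddCommGroup E] [InnerProductSpace ℂ E]
variable [FiniteDimensional ℂ E] [MeasurableSpace E] [BorelSpace E]

/-- quadratic mean value property at the centre -/
theorem mean_sq (μ : Measure E) [μ.IsAddHaarMeasure] {G : E → ℂ} {r M : ℝ}
    (hG : DifferentiableOn ℂ G (ball 0 r)) (hM : ∀ y ∈ ball (0 : E) r, ‖G y‖ ≤ M) :
    ENNReal.ofReal (‖G 0‖ ^ 2) * μ (ball 0 r) ≤
      ∫⁻ y in ball (0 : E) r, ENNReal.ofReal (‖G y‖ ^ 2) ∂μ := by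
  have hprop : ProperSpace E := FiniteDimensional.proper ℂ E
  have hmean := SD.fiber_mean μ hG hM
  have hms : AEStronglyMeasurable G (μ.restrict (ball 0 r)) :=
    hG.continuousOn.aestronglyMeasurable measurableSet_ball
  have hV : μ (ball (0 : E) r) ≠ ∞ := measure_ball_lt_top.ne
  have hint : IntegrableOn G (ball 0 r) μ := by
    refine IntegrableOn.of_bound measure_ball_lt_top hms M ?_
    exact (ae_restrict_iff' measurableSet_ball).mpr (Eventually.of_forall hM)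
  have hint2 : IntegrableOn (fun y => ‖G y‖ ^ 2) (ball 0 r) μ := by
    refine IntegrableOn.of_bound measure_ball_lt_top (hms.norm.pow 2) (M ^ 2) ?_
    refine (ae_restrict_iff' measurableSet_ball).mpr (Eventually.of_forall fun y hy => ?_)
    rw [Real.norm_of_nonneg (by positivity)]
    exact pow_le_pow_left₀ (norm_nonneg _) (hM y hy) 2
  set c : ℂ := G 0 with hc
  have hpt : ∀ y, 2 * ((starRingEnd ℂ) c * G y).re - ‖c‖ ^ 2 ≤ ‖G y‖ ^ 2 := by
    intro y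
    have h1 : ((starRingEnd ℂ) c * G y).re ≤ ‖c‖ * ‖G y‖ := by
      calc _ ≤ ‖(starRingEnd ℂ) c * G y‖ := Complex.re_le_norm _
        _ = _ := by rw [norm_mul, RCLike.norm_conj]
    nlinarith [sq_nonneg (‖c‖ - ‖G y‖)]
  have hint3 : IntegrableOn (fun y => (starRingEnd ℂ) c * G y) (ball 0 r) μ := hint.const_mul _
  have hint4 : IntegrableOn (fun y => 2 * ((starRingEnd ℂ) c * G y).re) (ball 0 r) μ :=
    hint3.re.const_mul 2
  have hconst : IntegrableOn (fun _ : E => ‖c‖ ^ 2) (ball 0 r) μ := integrableOn_const hV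
  have h1 : ∫ y in ball (0 : E) r, (2 * ((starRingEnd ℂ) c * G y).re - ‖c‖ ^ 2) ∂μ ≤
      ∫ y in ball (0 : E) r, ‖G y‖ ^ 2 ∂μ := by
    apply integral_mono (hint4.sub hconst) hint2
    intro y
    exact hpt y
  have h2 : ∫ y in ball (0 : E) r, (2 * ((starRingEnd ℂ) c * G y).re - ‖c‖ ^ 2) ∂μ =
      μ.real (ball 0 r) * ‖c‖ ^ 2 := by
    rw [integral_sub hint4 hconst, integral_const_mul, setIntegral_const, smul_eq_mul]
    have h3 : ∫ y in ball (0 : E) r, ((starRingEnd ℂ) c * G y).re ∂μ =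
        (∫ y in ball (0 : E) r, (starRingEnd ℂ) c * G y ∂μ).re := by
      have := integral_re hint3
      exact this
    rw [h3, integral_const_mul, hmean]
    have h4 : ((starRingEnd ℂ) c * (((μ.real (ball (0 : E) r) : ℝ) : ℂ) * c)).re =
        μ.real (ball (0 : E) r) * ‖c‖ ^ 2 := by
      have : (starRingEnd ℂ) c * (((μ.real (ball (0 : E) r) : ℝ) : ℂ) * c) =
          (((μ.real (ball (0 : E) r) * ‖c‖ ^ 2 : ℝ)) : ℂ) := by
        rw [mul_left_comm, mul_comm ((starRingEnd ℂ) c), Complex.mul_conj,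
          Complex.normSq_eq_norm_sq]
        push_cast
        ring
      rw [this, Complex.ofReal_re]
    rw [h4]
    ring
  rw [h2] at h1
  rw [← ofReal_integral_eq_lintegral_ofReal hint2 (ae_of_all _ fun y => by positivity)]
  rw [← ofReal_measureReal hV, ← ENNReal.ofReal_mul (by positivity), mul_comm]
  exact ENNReal.ofReal_le_ofReal h1

theorem mean_pt (μ : Measure E) [μ.IsAddHaarMeasure] {F : E → ℂ}
    (hF : DifferentiableOn ℂ F (ball 0 1)) {x : E} (hx : ‖x‖ < 1 / 4) :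
    ENNReal.ofReal (‖F x‖ ^ 2) * μ (ball 0 (1 / 4)) ≤
      ∫⁻ y in ball (0 : E) (1 / 2), ENNReal.ofReal (‖F y‖ ^ 2) ∂μ := by
  have hprop : ProperSpace E := FiniteDimensional.proper ℂ E
  obtain ⟨M, hM⟩ := (isCompact_closedBall (0 : E) (1 / 2)).exists_bound_of_continuousOn
      (hF.continuousOn.mono (closedBall_subset_ball (by norm_num)))
  have hin : ∀ y ∈ ball (0 : E) (1 / 4), x + y ∈ ball (0 : E) (1 / 2) := by
    intro y hy
    rw [mem_ball_zero_iff] at hy ⊢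
    calc ‖x + y‖ ≤ ‖x‖ + ‖y‖ := norm_add_le _ _
      _ < 1 / 2 := by linarith
  have hG : DifferentiableOn ℂ (fun y => F (x + y)) (ball 0 (1 / 4)) := by
    apply hF.comp (by fun_prop)
    intro y hy
    exact ball_subset_ball (by norm_num) (hin y hy)
  have h1 := mean_sq μ (G := fun y => F (x + y)) (M := M) hG
    (fun y hy => hM _ (ball_subset_closedBall (hin y hy)))
  simp only [add_zero] at h1
  refine h1.trans ?_
  rw [← lintegral_indicator measurableSet_ball, ← lintegral_indicator measurableSet_ball]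
  rw [← lintegral_add_left_eq_self (fun y => (ball (0 : E) (1 / 2)).indicator
    (fun y => ENNReal.ofReal (‖F y‖ ^ 2)) y) x]
  apply lintegral_mono
  intro y
  by_cases hy : y ∈ ball (0 : E) (1 / 4)
  · show _ ≤ (ball (0 : E) (1 / 2)).indicator (fun y => ENNReal.ofReal (‖F y‖ ^ 2)) (x + y)
    rw [indicator_of_mem hy, indicator_of_mem (hin y hy)]
  · rw [indicator_of_notMem hy]
    exact zero_le

theorem mean_grad (μ : Measure E) [μ.IsAddHaarMeasure] {F : E → ℂ}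
    (hF : DifferentiableOn ℂ F (ball 0 1)) (b : E) :
    ENNReal.ofReal (‖fderiv ℂ F 0 b‖ ^ 2) * μ (ball 0 (1 / 4)) ≤ ENNReal.ofReal (16 * ‖b‖ ^ 2) *
      ∫⁻ y in ball (0 : E) (1 / 2), ENNReal.ofReal (‖F y‖ ^ 2) ∂μ := by
  have hprop : ProperSpace E := FiniteDimensional.proper ℂ E
  obtain ⟨M, hM⟩ := (isCompact_closedBall (0 : E) (1 / 2)).exists_bound_of_continuousOn
      (hF.continuousOn.mono (closedBall_subset_ball (by norm_num)))
  set I := ∫⁻ y in ball (0 : E) (1 / 2), ENNReal.ofReal (‖F y‖ ^ 2) ∂μ with hI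
  have hIfin : I ≠ ∞ := by
    have : I ≤ ∫⁻ y in ball (0 : E) (1 / 2), ENNReal.ofReal (M ^ 2) ∂μ := by
      apply setLIntegral_mono' measurableSet_ball
      intro y hy
      exact ENNReal.ofReal_le_ofReal (pow_le_pow_left₀ (norm_nonneg _)
        (hM y (ball_subset_closedBall hy)) 2)
    refine ne_top_of_le_ne_top ?_ this
    rw [setLIntegral_const]
    exact ENNReal.mul_ne_top ENNReal.ofReal_ne_top measure_ball_lt_top.ne
  have hVfin : μ (ball (0 : E) (1 / 4)) ≠ ∞ := measure_ball_lt_top.ne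
  set V := (μ (ball (0 : E) (1 / 4))).toReal with hV
  have hV0 : 0 < V := ENNReal.toReal_pos (measure_ball_pos μ 0 (by norm_num)).ne' hVfin
  set J := I.toReal with hJ
  have hJ0 : 0 ≤ J := ENNReal.toReal_nonneg
  have hIJ : I = ENNReal.ofReal J := (ENNReal.ofReal_toReal hIfin).symm
  have hVV : μ (ball (0 : E) (1 / 4)) = ENNReal.ofReal V := (ENNReal.ofReal_toReal hVfin).symm
  have hpt : ∀ x : E, ‖x‖ < 1 / 4 → ‖F x‖ ≤ Real.sqrt (J / V) := by
    intro x hx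
    have h1 := mean_pt μ hF hx
    rw [← hI, hIJ, hVV, ← ENNReal.ofReal_mul (by positivity),
      ENNReal.ofReal_le_ofReal_iff hJ0] at h1
    apply Real.le_sqrt_of_sq_le
    rw [le_div_iff₀ hV0]
    exact h1
  set L : E →L[ℂ] E := ((1 / 4 : ℂ)) • ContinuousLinearMap.id ℂ E with hL
  have hLa : ∀ x, L x = (1 / 4 : ℂ) • x := fun x => rfl
  have hLn : ∀ x, ‖L x‖ = 1 / 4 * ‖x‖ := by
    intro x; rw [hLa, norm_smul]; norm_num
  have h0 : HasFDerivAt F (fderiv ℂ F 0) (L 0) := by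
    rw [map_zero]
    exact (hF.differentiableAt (isOpen_ball.mem_nhds (mem_ball_self one_pos))).hasFDerivAt
  have h2 : HasFDerivAt (fun x => F (L x)) ((fderiv ℂ F 0).comp L) 0 := h0.comp 0 L.hasFDerivAt
  have h3 : DifferentiableOn ℂ (fun x => F (L x)) (ball 0 1) := by
    apply hF.comp L.differentiable.differentiableOn
    intro x hx
    rw [mem_ball_zero_iff] at hx ⊢
    rw [hLn]; linarith
  have h4 := gd_schwarz h3 (M := Real.sqrt (J / V)) (by
    intro z hz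
    rw [mem_ball_zero_iff] at hz
    apply hpt
    rw [hLn]; linarith) b
  rw [h2.fderiv] at h4
  have h5 : ‖fderiv ℂ F 0 b‖ ≤ 4 * (Real.sqrt (J / V) * ‖b‖) := by
    have h6 : ((fderiv ℂ F 0).comp L) b = (1 / 4 : ℂ) * fderiv ℂ F 0 b := by
      show fderiv ℂ F 0 (L b) = _
      rw [hLa, map_smul, smul_eq_mul]
    rw [h6, norm_mul] at h4
    have h7 : ‖(1 / 4 : ℂ)‖ = 1 / 4 := by norm_num
    rw [h7] at h4
    linarith
  rw [hIJ, hVV, ← ENNReal.ofReal_mul (by positivity), ← ENNReal.ofReal_mul (by positivity)]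
  apply ENNReal.ofReal_le_ofReal
  have h8 := pow_le_pow_left₀ (norm_nonneg _) h5 2
  have h9 : (4 * (Real.sqrt (J / V) * ‖b‖)) ^ 2 = 16 * ‖b‖ ^ 2 * (J / V) := by
    rw [mul_pow, mul_pow, Real.sq_sqrt (by positivity)]; ring
  rw [h9] at h8
  calc ‖fderiv ℂ F 0 b‖ ^ 2 * V ≤ (16 * ‖b‖ ^ 2 * (J / V)) * V := by gcongr
    _ = 16 * ‖b‖ ^ 2 * J := by field_simp

theorem mean_IG (μ : Measure E) [μ.IsAddHaarMeasure] {v : E → ℂ}
    (hv : DifferentiableOn ℂ v (ball 0 1)) {z : E} (hz : ‖z‖ < 1) :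
    ENNReal.ofReal (IG2 v z) * μ (ball 0 (1 / 4)) ≤ ENNReal.ofReal 16 *
      ∫⁻ x in ball (0 : E) (1 / 2), ENNReal.ofReal (‖v (gg z x)‖ ^ 2) ∂μ := by
  obtain ⟨b, hb1, hb2⟩ := IG_rep (u := v) hz
  have h1 := mean_grad μ (gd_diff hv hz) b
  have h2 : fderiv ℂ (fun x => v (gg z x)) 0 b = ((‖b‖ ^ 2 : ℝ) : ℂ) := by
    rw [gd_chain hv hz (by simp) b, gg_zero, hb1, geo_self]
  rw [h2, Complex.norm_real, Real.norm_of_nonneg (by positivity)] at h1
  rw [← hb2]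
  rcases eq_or_ne b 0 with rfl | hb
  · simp
  have hb0 : 0 < ‖b‖ ^ 2 := by
    have := norm_pos_iff.mpr hb
    positivity
  have h3 : ENNReal.ofReal (‖b‖ ^ 2) ≠ 0 := (ENNReal.ofReal_pos.mpr hb0).ne'
  have h4 : ENNReal.ofReal (‖b‖ ^ 2) ≠ ∞ := ENNReal.ofReal_ne_top
  rw [← ENNReal.mul_le_mul_iff_right h3 h4]
  calc ENNReal.ofReal (‖b‖ ^ 2) * (ENNReal.ofReal (‖b‖ ^ 2) * μ (ball 0 (1 / 4)))
      = ENNReal.ofReal ((‖b‖ ^ 2) ^ 2) * μ (ball 0 (1 / 4)) := by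
        rw [← mul_assoc, ← ENNReal.ofReal_mul hb0.le, pow_two (‖b‖ ^ 2)]
    _ ≤ _ := h1
    _ = _ := by
        rw [mul_comm (16 : ℝ), ENNReal.ofReal_mul hb0.le, mul_assoc]

omit [FiniteDimensional ℂ E] [MeasurableSpace E] [BorelSpace E] in
theorem mean_HH {z x : E} (hz : ‖z‖ < 1) (hx : ‖x‖ < 1) : HH z (gg z x) = 1 - ‖x‖ ^ 2 := by
  have h2 := HH_gg hz (x := (0 : E)) (y := x) (by simp) hx
  rw [gg_zero] at h2
  rw [h2, HH_comm, geo_HH_zero]

theorem mean_pull (μ : Measure E) [μ.IsAddHaarMeasure] {m : ℕ}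
    (hdim : Module.finrank ℂ E = m + 1) (v : E → ℂ) {z : E} (hz : ‖z‖ < 1) :
    ∫⁻ x in ball (0 : E) (1 / 2), ENNReal.ofReal (‖v (gg z x)‖ ^ 2) ∂μ ≤
      ∫⁻ w in ball (0 : E) 1, (if 3 / 4 < HH z w then
        ENNReal.ofReal (‖v w‖ ^ 2 / (1 - ‖w‖ ^ 2) ^ (m + 2)) else 0) ∂μ := by
  rw [lintegral_gg μ hdim hz]
  refine le_trans ?_ (lintegral_mono_set (ball_subset_ball (by norm_num : (1 : ℝ) / 2 ≤ 1)))
  apply setLIntegral_mono' measurableSet_ball
  intro x hx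
  rw [mem_ball_zero_iff] at hx
  have hx1 : ‖x‖ < 1 := by linarith
  have hx2 : ‖x‖ ^ 2 < 1 / 4 := by nlinarith [norm_nonneg x]
  rw [mean_HH hz hx1, if_pos (by linarith), norm_gg hz hx1.le, ← ENNReal.ofReal_mul (by
    have : 0 < 1 - ‖z‖ ^ 2 := by nlinarith [norm_nonneg z]
    positivity)]
  apply ENNReal.ofReal_le_ofReal
  have hpos : 0 < 1 - ‖x‖ ^ 2 := by linarith
  have hpos2 : 0 < 1 - ‖z‖ ^ 2 := by nlinarith [norm_nonneg z]
  have hpos3 : 0 < ‖1 + ⟪z, x⟫_ℂ‖ := norm_pos_iff.mpr (one_add_ne hz hx1.le)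
  have e1 : ((1 - ‖z‖ ^ 2) / ‖1 + ⟪z, x⟫_ℂ‖ ^ 2) ^ (m + 2) *
      (‖v (gg z x)‖ ^ 2 / ((1 - ‖z‖ ^ 2) * (1 - ‖x‖ ^ 2) / ‖1 + ⟪z, x⟫_ℂ‖ ^ 2) ^ (m + 2)) =
      ‖v (gg z x)‖ ^ 2 / (1 - ‖x‖ ^ 2) ^ (m + 2) := by
    rw [div_pow, div_pow, mul_pow]
    field_simp
  rw [e1, le_div_iff₀ (by positivity)]
  have : (1 - ‖x‖ ^ 2) ^ (m + 2) ≤ 1 := pow_le_one₀ hpos.le (by nlinarith [norm_nonneg x])
  nlinarith [sq_nonneg ‖v (gg z x)‖]

theorem mean_cnt (μ : Measure E) [μ.IsAddHaarMeasure] {m : ℕ}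
    (hdim : Module.finrank ℂ E = m + 1) {w : E} (hw : ‖w‖ < 1) :
    ∫⁻ z in ball (0 : E) 1, (if 3 / 4 < HH z w then
        ENNReal.ofReal (1 / (1 - ‖z‖ ^ 2) ^ (m + 2)) else 0) ∂μ ≤
      ENNReal.ofReal ((4 / 3) ^ (m + 2) * μ.real (ball 0 (1 / 2))) := by
  rw [lintegral_gg μ hdim hw]
  calc _ ≤ ∫⁻ x in ball (0 : E) 1, (ball (0 : E) (1 / 2)).indicator
        (fun _ => ENNReal.ofReal ((4 / 3) ^ (m + 2))) x ∂μ := by
        apply setLIntegral_mono' measurableSet_ball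
        intro x hx
        rw [mem_ball_zero_iff] at hx
        rw [HH_comm, mean_HH hw hx]
        by_cases h : 3 / 4 < 1 - ‖x‖ ^ 2
        · have hx2 : ‖x‖ < 1 / 2 := by nlinarith [norm_nonneg x]
          rw [if_pos h, indicator_of_mem (by rwa [mem_ball_zero_iff]), norm_gg hw hx.le,
            ← ENNReal.ofReal_mul (by
            have : 0 < 1 - ‖w‖ ^ 2 := by nlinarith [norm_nonneg w]
            positivity)]
          apply ENNReal.ofReal_le_ofReal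
          have hpos : 0 < 1 - ‖x‖ ^ 2 := by linarith
          have hpos2 : 0 < 1 - ‖w‖ ^ 2 := by nlinarith [norm_nonneg w]
          have hpos3 : 0 < ‖1 + ⟪w, x⟫_ℂ‖ := norm_pos_iff.mpr (one_add_ne hw hx.le)
          have e1 : ((1 - ‖w‖ ^ 2) / ‖1 + ⟪w, x⟫_ℂ‖ ^ 2) ^ (m + 2) *
              (1 / ((1 - ‖w‖ ^ 2) * (1 - ‖x‖ ^ 2) / ‖1 + ⟪w, x⟫_ℂ‖ ^ 2) ^ (m + 2)) =
              (1 / (1 - ‖x‖ ^ 2)) ^ (m + 2) := by
            rw [div_pow, div_pow, mul_pow, div_pow, one_pow]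
            field_simp
          rw [e1]
          apply pow_le_pow_left₀ (by positivity)
          rw [div_le_iff₀ hpos]
          linarith
        · rw [if_neg h, mul_zero]
          exact zero_le
    _ ≤ ∫⁻ x, (ball (0 : E) (1 / 2)).indicator
        (fun _ => ENNReal.ofReal ((4 / 3) ^ (m + 2))) x ∂μ := setLIntegral_le_lintegral _ _
    _ = _ := by
        rw [lintegral_indicator measurableSet_ball, setLIntegral_const,
          ENNReal.ofReal_mul (by positivity), ofReal_measureReal measure_ball_lt_top.ne]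

omit [FiniteDimensional ℂ E] [MeasurableSpace E] [BorelSpace E] in
theorem mean_comp {z w : E} (hz : ‖z‖ < 1) (hw : ‖w‖ < 1) (h : 3 / 4 < HH z w) :
    3 * (1 - ‖z‖ ^ 2) ≤ 16 * (1 - ‖w‖ ^ 2) := by
  have hz0 := norm_nonneg z
  have hw0 := norm_nonneg w
  have h1 : 1 - ‖z‖ * ‖w‖ ≤ ‖1 - ⟪z, w⟫_ℂ‖ := by
    have h2 : ‖(1 : ℂ)‖ - ‖⟪z, w⟫_ℂ‖ ≤ ‖1 - ⟪z, w⟫_ℂ‖ := norm_sub_norm_le _ _
    have h3 := norm_inner_le_norm (𝕜 := ℂ) z w
    rw [norm_one] at h2
    linarith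
  have ha : 0 < 1 - ‖z‖ ^ 2 := by nlinarith
  have hb : 0 < 1 - ‖w‖ ^ 2 := by nlinarith
  have h4 : (1 - ‖z‖ ^ 2) / 2 ≤ 1 - ‖z‖ * ‖w‖ := by nlinarith
  have h5 : 0 < ‖1 - ⟪z, w⟫_ℂ‖ := by linarith [h1, h4]
  rw [HH, lt_div_iff₀ (by positivity)] at h
  have h6 : ((1 - ‖z‖ ^ 2) / 2) ^ 2 ≤ ‖1 - ⟪z, w⟫_ℂ‖ ^ 2 :=
    pow_le_pow_left₀ (by linarith) (h4.trans h1) 2
  have h7 : 3 / 16 * (1 - ‖z‖ ^ 2) ^ 2 < (1 - ‖z‖ ^ 2) * (1 - ‖w‖ ^ 2) := by nlinarith
  have h8 : (1 - ‖z‖ ^ 2) * (3 / 16 * (1 - ‖z‖ ^ 2)) < (1 - ‖z‖ ^ 2) * (1 - ‖w‖ ^ 2) := by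
    nlinarith
  have h9 := lt_of_mul_lt_mul_left h8 ha.le
  linarith

theorem mean_num {a b : ℝ} (m j : ℕ) (ha : (1 / 2 : ℝ) ^ (j + 1) < a) (hb : 0 < b)
    (hab : 3 * a ≤ 16 * b) :
    16 * a ≤ 16 * (32 / 3) ^ (m + 6) * (2 : ℝ) ^ (j * (m + 5)) * b ^ (m + 6) := by
  have ha0 : 0 < a := lt_trans (by positivity) ha
  have h1 : (3 / 16 * a) ^ (m + 6) ≤ b ^ (m + 6) :=
    pow_le_pow_left₀ (by positivity) (by linarith) _
  have h2 : 1 ≤ (2 : ℝ) ^ (j + 1) * a := by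
    have h3 : (2 : ℝ) ^ (j + 1) * (1 / 2 : ℝ) ^ (j + 1) = 1 := by
      rw [← mul_pow]; norm_num
    rw [← h3]
    gcongr
  have h3 : 1 ≤ ((2 : ℝ) ^ (j + 1) * a) ^ (m + 5) := one_le_pow₀ h2
  have h4 : 16 * (32 / 3) ^ (m + 6) * (2 : ℝ) ^ (j * (m + 5)) * (3 / 16 * a) ^ (m + 6) =
      32 * a * ((2 : ℝ) ^ (j + 1) * a) ^ (m + 5) := by
    have e1 : (32 / 3 : ℝ) ^ (m + 6) * (3 / 16 * a) ^ (m + 6) = (2 * a) ^ (m + 6) := by
      rw [← mul_pow]; congr 1; ring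
    have e2 : ((2 : ℝ) ^ (j + 1) * a) ^ (m + 5) =
        (2 : ℝ) ^ (j * (m + 5)) * (2 * a) ^ (m + 5) := by
      rw [pow_succ (2 : ℝ) j, mul_assoc, mul_pow, ← pow_mul]
    calc _ = 16 * (2 : ℝ) ^ (j * (m + 5)) * ((32 / 3 : ℝ) ^ (m + 6) * (3 / 16 * a) ^ (m + 6)) := by
          ring
      _ = _ := by rw [e1, e2, pow_succ (2 * a) (m + 5)]; ring
  calc 16 * a ≤ 32 * a * 1 := by linarith
    _ ≤ 32 * a * ((2 : ℝ) ^ (j + 1) * a) ^ (m + 5) := by gcongr
    _ = _ := h4.symm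
    _ ≤ _ := by gcongr

/-- sub mean value property, integrated over a shell -/
theorem shell_mean (μ : Measure E) [μ.IsAddHaarMeasure] {m : ℕ}
    (hdim : Module.finrank ℂ E = m + 1) : ∃ C : ℝ, 0 < C ∧ ∀ (v : E → ℂ),
    DifferentiableOn ℂ v (ball 0 1) → ∀ j : ℕ,
    ∫⁻ z in {z : E | z ∈ ball (0 : E) 1 ∧ (1 / 2 : ℝ) ^ (j + 1) < 1 - ‖z‖ ^ 2 ∧
      1 - ‖z‖ ^ 2 ≤ (1 / 2 : ℝ) ^ j}, ENNReal.ofReal (IG2 v z / (1 - ‖z‖ ^ 2) ^ (m + 1)) ∂μ ≤
      ENNReal.ofReal (C * (2 : ℝ) ^ (j * (m + 5))) * nrm2 μ v := by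
  have hprop : ProperSpace E := FiniteDimensional.proper ℂ E
  set V : ℝ := μ.real (ball (0 : E) (1 / 4)) with hV
  have hV0 : 0 < V :=
    ENNReal.toReal_pos (measure_ball_pos μ 0 (by norm_num)).ne' measure_ball_lt_top.ne
  have hVV : μ (ball (0 : E) (1 / 4)) = ENNReal.ofReal V := by
    rw [hV, ofReal_measureReal measure_ball_lt_top.ne]
  set V2 : ℝ := μ.real (ball (0 : E) (1 / 2)) with hV2
  have hV20 : 0 < V2 :=
    ENNReal.toReal_pos (measure_ball_pos μ 0 (by norm_num)).ne' measure_ball_lt_top.ne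
  set C2 : ℝ := (4 / 3) ^ (m + 2) * V2 with hC2
  refine ⟨V⁻¹ * (16 * (32 / 3) ^ (m + 6) * C2), by positivity, ?_⟩
  intro v hv j
  set S : Set E := {z : E | z ∈ ball (0 : E) 1 ∧ (1 / 2 : ℝ) ^ (j + 1) < 1 - ‖z‖ ^ 2 ∧
      1 - ‖z‖ ^ 2 ≤ (1 / 2 : ℝ) ^ j} with hS
  have hSm : MeasurableSet S := by
    have h1 : Measurable (fun z : E => 1 - ‖z‖ ^ 2) := by
      apply Continuous.measurable; fun_prop
    exact measurableSet_ball.inter ((measurableSet_lt measurable_const h1).inter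
      (measurableSet_le h1 measurable_const))
  set K : ℝ := 16 * (32 / 3) ^ (m + 6) * (2 : ℝ) ^ (j * (m + 5)) with hK
  have hK0 : 0 < K := by positivity
  set κ : E → E → ℝ≥0∞ := fun z w => if 3 / 4 < HH z w then
        ENNReal.ofReal (1 / (1 - ‖z‖ ^ 2) ^ (m + 2)) else 0 with hκ
  set g : E → ℝ≥0∞ := fun w => ENNReal.ofReal (WW w * ‖v w‖ ^ 2) with hg
  have hpt : ∀ z ∈ S, ENNReal.ofReal (IG2 v z / (1 - ‖z‖ ^ 2) ^ (m + 1)) ≤
      ∫⁻ w in ball (0 : E) 1, ENNReal.ofReal (V⁻¹ * K) * (κ z w * g w) ∂μ := by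
    rintro z ⟨hz, hz1, -⟩
    rw [mem_ball_zero_iff] at hz
    have ha : 0 < 1 - ‖z‖ ^ 2 := by nlinarith [norm_nonneg z]
    have h1 := mean_IG μ hv hz
    rw [hVV] at h1
    have h2 := h1.trans (mul_le_mul_right (mean_pull μ hdim v hz) _)
    have h3 : ENNReal.ofReal (IG2 v z / (1 - ‖z‖ ^ 2) ^ (m + 1)) =
        ENNReal.ofReal (V⁻¹ * (1 / (1 - ‖z‖ ^ 2) ^ (m + 1))) *
          (ENNReal.ofReal (IG2 v z) * ENNReal.ofReal V) := by
      rw [← ENNReal.ofReal_mul (gd_IG_nonneg hz), ← ENNReal.ofReal_mul (by positivity)]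
      congr 1
      field_simp
    rw [h3]
    refine (mul_le_mul_right h2 _).trans ?_
    rw [← mul_assoc, ← lintegral_const_mul' _ _ (by
      exact ENNReal.mul_ne_top ENNReal.ofReal_ne_top ENNReal.ofReal_ne_top)]
    apply setLIntegral_mono' measurableSet_ball
    intro w hw
    rw [mem_ball_zero_iff] at hw
    have hb : 0 < 1 - ‖w‖ ^ 2 := by nlinarith [norm_nonneg w]
    simp only [hκ, hg]
    by_cases h : 3 / 4 < HH z w
    · rw [if_pos h, if_pos h, ← ENNReal.ofReal_mul (by positivity),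
        ← ENNReal.ofReal_mul (by positivity), ← ENNReal.ofReal_mul (by positivity),
        ← ENNReal.ofReal_mul (by positivity)]
      apply ENNReal.ofReal_le_ofReal
      have h4 := mean_num m j hz1 hb (mean_comp hz hw h)
      rw [← hK] at h4
      have e1 : V⁻¹ * (1 / (1 - ‖z‖ ^ 2) ^ (m + 1)) * 16 * (‖v w‖ ^ 2 / (1 - ‖w‖ ^ 2) ^ (m + 2)) =
          (V⁻¹ * ‖v w‖ ^ 2 / ((1 - ‖z‖ ^ 2) ^ (m + 2) * (1 - ‖w‖ ^ 2) ^ (m + 2))) *
            (16 * (1 - ‖z‖ ^ 2)) := by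
        rw [pow_succ (1 - ‖z‖ ^ 2) (m + 1)]
        field_simp
      have e2 : V⁻¹ * K * (1 / (1 - ‖z‖ ^ 2) ^ (m + 2) * (WW w * ‖v w‖ ^ 2)) =
          (V⁻¹ * ‖v w‖ ^ 2 / ((1 - ‖z‖ ^ 2) ^ (m + 2) * (1 - ‖w‖ ^ 2) ^ (m + 2))) *
            (K * (1 - ‖w‖ ^ 2) ^ (m + 6)) := by
        rw [WW, pow_add (1 - ‖w‖ ^ 2) (m + 2) 4]
        field_simp
      rw [e1, e2]
      gcongr
    · rw [if_neg h, if_neg h, mul_zero, zero_mul, mul_zero]
  have hkm : Measurable (fun p : E × E => κ p.1 p.2) := by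
    have h1 : Measurable (fun p : E × E => HH p.1 p.2) := by
      unfold HH
      have k1 : Measurable (fun p : E × E => ‖1 - ⟪p.1, p.2⟫_ℂ‖) := by
        apply Continuous.measurable; fun_prop
      have k2 : Measurable (fun p : E × E => (1 - ‖p.1‖ ^ 2) * (1 - ‖p.2‖ ^ 2)) := by
        apply Continuous.measurable; fun_prop
      exact k2.div (k1.pow_const 2)
    have h2 : Measurable (fun p : E × E =>
        ENNReal.ofReal (1 / (1 - ‖p.1‖ ^ 2) ^ (m + 2))) := by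
      apply ENNReal.measurable_ofReal.comp
      have k1 : Measurable (fun p : E × E => (1 - ‖p.1‖ ^ 2) ^ (m + 2)) := by
        apply Continuous.measurable; fun_prop
      exact measurable_const.div k1
    exact Measurable.ite (measurableSet_lt measurable_const h1) h2 measurable_const
  have hgm : AEMeasurable g (μ.restrict (ball 0 1)) := by
    have h1 : AEMeasurable v (μ.restrict (ball 0 1)) :=
      hv.continuousOn.aemeasurable measurableSet_ball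
    have h2 : Measurable (fun w : E => WW w) := by
      unfold WW
      apply Continuous.measurable; fun_prop
    exact ENNReal.measurable_ofReal.comp_aemeasurable (h2.aemeasurable.mul (h1.norm.pow_const 2))
  calc _ ≤ ∫⁻ z in S, ∫⁻ w in ball (0 : E) 1, ENNReal.ofReal (V⁻¹ * K) * (κ z w * g w) ∂μ ∂μ :=
        setLIntegral_mono' hSm hpt
    _ = ∫⁻ w in ball (0 : E) 1, ∫⁻ z in S, ENNReal.ofReal (V⁻¹ * K) * (κ z w * g w) ∂μ ∂μ := by
        apply lintegral_lintegral_swap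
        apply AEMeasurable.const_mul
        apply hkm.aemeasurable.mul
        exact hgm.comp_quasiMeasurePreserving Measure.quasiMeasurePreserving_snd
    _ ≤ ∫⁻ w in ball (0 : E) 1, ENNReal.ofReal (V⁻¹ * K) * (ENNReal.ofReal C2 * g w) ∂μ := by
        apply setLIntegral_mono' measurableSet_ball
        intro w hw
        rw [mem_ball_zero_iff] at hw
        rw [lintegral_const_mul' _ _ ENNReal.ofReal_ne_top]
        gcongr
        have hgt : g w ≠ ∞ := ENNReal.ofReal_ne_top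
        rw [lintegral_mul_const' _ _ hgt]
        gcongr
        refine le_trans (lintegral_mono_set ?_) (mean_cnt μ hdim hw)
        rintro z ⟨hz, -⟩
        exact hz
    _ = _ := by
        rw [lintegral_const_mul' _ _ ENNReal.ofReal_ne_top,
          lintegral_const_mul' _ _ ENNReal.ofReal_ne_top, ← mul_assoc,
          ← ENNReal.ofReal_mul (by positivity), nrm2]
        congr 2
        rw [hK]
        ring

end Pool.Agent.MPca0fc2.DA
end

section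

set_option autoImplicit false

open Metric Set MeasureTheory Filter Topology
open scoped InnerProductSpace ENNReal

namespace Pool.Agent.MPca0fc2.DA

open Pool.Agent.Lib.MP_ca0fc2_an
open Pool.Agent.MPca0fc2.PT

variable {E : Type*} [NormedAddCommGroup E] [InnerProductSpace ℂ E]

theorem dif_diff {u : E → ℂ} (hu : DifferentiableOn ℂ u (ball 0 1)) (q : ℕ) {s : ℝ} (hs : 0 ≤ s) :
    DifferentiableOn ℂ (dif q s u) (ball 0 1) := by
  unfold dif
  apply DifferentiableOn.fun_sum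
  intro i _
  apply DifferentiableOn.const_mul
  have h1 : ∀ z ∈ ball (0 : E) 1, ((Real.exp (-(i * s)) : ℝ) : ℂ) • z ∈ ball (0 : E) 1 := by
    intro z hz
    rw [mem_ball_zero_iff] at hz ⊢
    rw [norm_smul, Complex.norm_real, Real.norm_eq_abs, abs_of_pos (Real.exp_pos _)]
    have h2 : Real.exp (-(i * s)) ≤ 1 := by
      rw [Real.exp_le_one_iff]
      have : 0 ≤ (i : ℝ) * s := by positivity
      linarith
    calc Real.exp (-(i * s)) * ‖z‖ ≤ 1 * ‖z‖ := by gcongr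
      _ < 1 := by rw [one_mul]; exact hz
  exact hu.comp ((differentiable_id.const_smul _).differentiableOn) h1

variable [FiniteDimensional ℂ E]

/-- pointwise estimate, with the adapted scale -/
theorem star_point {m : ℕ} {C : ℝ} (hC : 1 ≤ C) {u : E → ℂ} {z : E} (hz : ‖z‖ < 1) {j : ℕ}
    (hb : Real.sqrt (IG2 u z) ≤ 1)
    (h : ∀ l : ℕ, Real.sqrt (IG2 u z) ≤ C * 1 * Real.sqrt ((1 / 2 : ℝ) ^ l) +
      Real.sqrt (IG2 (dif (m + 6) ((2 : ℝ) ^ ((l : ℤ) - (j : ℤ))) u) z)) :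
    ENNReal.ofReal (IG2 u z ^ (m + 7)) ≤ ∑' l : ℕ, ENNReal.ofReal (((8 * C ^ 2) ^ (m + 6) * 4) *
      (1 / 2 : ℝ) ^ (l * (m + 6))) *
      ENNReal.ofReal (IG2 (dif (m + 6) ((2 : ℝ) ^ ((l : ℤ) - (j : ℤ))) u) z) := by
  have h0 : 0 ≤ IG2 u z := gd_IG_nonneg hz
  rcases h0.eq_or_lt with h1 | h1
  · rw [← h1, zero_pow (by omega), ENNReal.ofReal_zero]
    exact bot_le
  obtain ⟨g, hg⟩ : ∃ g, g = Real.sqrt (IG2 u z) := ⟨_, rfl⟩
  have hg0 : 0 < g := by rw [hg]; exact Real.sqrt_pos.mpr h1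
  have hg2 : g ^ 2 = IG2 u z := by rw [hg, Real.sq_sqrt h0]
  rw [← hg] at hb h
  have hex : ∃ l : ℕ, C * Real.sqrt ((1 / 2 : ℝ) ^ l) ≤ g / 2 := by
    obtain ⟨l, hl⟩ := exists_pow_lt_of_lt_one (show 0 < (g / (2 * C)) ^ 2 by positivity)
      (show (1 / 2 : ℝ) < 1 by norm_num)
    refine ⟨l, ?_⟩
    have h2 : Real.sqrt ((1 / 2 : ℝ) ^ l) ≤ g / (2 * C) := by
      rw [Real.sqrt_le_left (by positivity)]
      exact hl.le
    calc C * Real.sqrt ((1 / 2 : ℝ) ^ l) ≤ C * (g / (2 * C)) := by gcongr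
      _ = g / 2 := by field_simp
  classical
  obtain ⟨l, hl⟩ : ∃ l, l = Nat.find hex := ⟨_, rfl⟩
  have hl1 : C * Real.sqrt ((1 / 2 : ℝ) ^ l) ≤ g / 2 := by rw [hl]; exact Nat.find_spec hex
  have hl0 : l ≠ 0 := by
    intro h2
    rw [h2] at hl1
    simp only [pow_zero, Real.sqrt_one, mul_one] at hl1
    linarith
  obtain ⟨l', hl'⟩ := Nat.exists_eq_succ_of_ne_zero hl0
  have hl2 : g / 2 < C * Real.sqrt ((1 / 2 : ℝ) ^ l') := by
    have := Nat.find_min hex (m := l') (by rw [← hl, hl']; exact Nat.lt_succ_self _)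
    push Not at this
    exact this
  have h3 : IG2 u z ≤ 8 * C ^ 2 * (1 / 2 : ℝ) ^ l := by
    have h4 : g ^ 2 ≤ (2 * (C * Real.sqrt ((1 / 2 : ℝ) ^ l'))) ^ 2 := by
      apply pow_le_pow_left₀ hg0.le
      linarith
    rw [← hg2]
    refine h4.trans (le_of_eq ?_)
    have h5 : Real.sqrt ((1 / 2 : ℝ) ^ l') ^ 2 = (1 / 2 : ℝ) ^ l' := Real.sq_sqrt (by positivity)
    rw [hl', Nat.succ_eq_add_one, pow_succ (1 / 2 : ℝ) l']
    calc (2 * (C * Real.sqrt ((1 / 2 : ℝ) ^ l'))) ^ 2 =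
        4 * C ^ 2 * Real.sqrt ((1 / 2 : ℝ) ^ l') ^ 2 := by ring
      _ = _ := by rw [h5]; ring
  obtain ⟨d, hd⟩ : ∃ d, d = IG2 (dif (m + 6) ((2 : ℝ) ^ ((l : ℤ) - (j : ℤ))) u) z := ⟨_, rfl⟩
  have hd0 : 0 ≤ d := by rw [hd]; exact gd_IG_nonneg hz
  have h5 : IG2 u z ≤ 4 * d := by
    have h6 := h l
    rw [← hd, mul_one] at h6
    have h7 : g / 2 ≤ Real.sqrt d := by linarith
    have h8 : (g / 2) ^ 2 ≤ d := by
      calc (g / 2) ^ 2 ≤ (Real.sqrt d) ^ 2 := pow_le_pow_left₀ (by positivity) h7 2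
        _ = d := Real.sq_sqrt hd0
    rw [← hg2]; nlinarith
  refine le_trans ?_ (ENNReal.le_tsum l)
  rw [← ENNReal.ofReal_mul (by positivity), ← hd]
  apply ENNReal.ofReal_le_ofReal
  calc IG2 u z ^ (m + 7) = IG2 u z ^ (m + 6) * IG2 u z := pow_succ _ _
    _ ≤ (8 * C ^ 2 * (1 / 2 : ℝ) ^ l) ^ (m + 6) * (4 * d) := by gcongr
    _ = _ := by rw [mul_pow, pow_mul]; ring

variable [MeasurableSpace E] [BorelSpace E]

/-- The main estimate, at the origin. -/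
theorem DA_star (μ : Measure E) [μ.IsAddHaarMeasure] {m : ℕ}
    (hdim : Module.finrank ℂ E = m + 1) : ∃ A : ℝ, 0 < A ∧ ∀ u : E → ℂ, DAMultiplier 1 u →
    ∫⁻ z in ball (0 : E) 1, ENNReal.ofReal (IG2 u z ^ (m + 7) / (1 - ‖z‖ ^ 2) ^ (m + 1)) ∂μ ≤
      ENNReal.ofReal A := by
  obtain ⟨C₁, hC₁, h₁⟩ := sIG_dif (E := E) (m + 6)
  obtain ⟨C₂, hC₂, h₂⟩ := shell_mean μ hdim
  obtain ⟨C₃, hC₃, h₃⟩ := num_scales m
  have hcW : 0 < cW μ := k4_cW_pos μ
  obtain ⟨K, hK⟩ : ∃ K, K = ((8 * C₁ ^ 2) ^ (m + 6) * 4 : ℝ) := ⟨_, rfl⟩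
  have hK0 : 0 < K := by rw [hK]; positivity
  refine ⟨K * C₂ * C₃ * cW μ * 2, by positivity, ?_⟩
  intro u hu
  have hd := hu.1
  have hb : ∀ z ∈ ball (0 : E) 1, ‖u z‖ ≤ 1 := fun z hz => DAMultiplier_bound zero_le_one hu hz
  set D : ℕ → ℕ → E → ℂ := fun l j => dif (m + 6) ((2 : ℝ) ^ ((l : ℤ) - (j : ℤ))) u with hD
  set S : ℕ → Set E := fun j => {z : E | z ∈ ball (0 : E) 1 ∧ (1 / 2 : ℝ) ^ (j + 1) < 1 - ‖z‖ ^ 2 ∧
      1 - ‖z‖ ^ 2 ≤ (1 / 2 : ℝ) ^ j} with hS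
  have hSm : ∀ j, MeasurableSet (S j) := by
    intro j
    have hc : Continuous fun z : E => 1 - ‖z‖ ^ 2 := by fun_prop
    exact measurableSet_ball.inter ((measurableSet_lt measurable_const hc.measurable).inter
      (measurableSet_le hc.measurable measurable_const))
  -- the ball is the union of the shells
  have hU : ball (0 : E) 1 ⊆ ⋃ j, S j := by
    intro z hz
    have hz1 := mem_ball_zero_iff.mp hz
    have hpos : 0 < 1 - ‖z‖ ^ 2 := by nlinarith [norm_nonneg z]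
    have hle : 1 - ‖z‖ ^ 2 ≤ 1 := by nlinarith [norm_nonneg z]
    obtain ⟨j, hj1, hj2⟩ := exists_nat_pow_near_of_lt_one hpos hle (show (0 : ℝ) < 1 / 2 by norm_num)
      (show (1 / 2 : ℝ) < 1 by norm_num)
    rw [mem_iUnion]
    exact ⟨j, hz, hj1, hj2⟩
  -- one shell
  have hshell : ∀ j, ∫⁻ z in S j, ENNReal.ofReal (IG2 u z ^ (m + 7) / (1 - ‖z‖ ^ 2) ^ (m + 1)) ∂μ ≤
      ∑' l : ℕ, ENNReal.ofReal (K * (1 / 2 : ℝ) ^ (l * (m + 6))) *
        (ENNReal.ofReal (C₂ * (2 : ℝ) ^ (j * (m + 5))) * nrm2 μ (D l j)) := by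
    intro j
    calc _ ≤ ∫⁻ z in S j, ∑' l : ℕ, ENNReal.ofReal (K * (1 / 2 : ℝ) ^ (l * (m + 6))) *
          ENNReal.ofReal (IG2 (D l j) z / (1 - ‖z‖ ^ 2) ^ (m + 1)) ∂μ := by
          apply setLIntegral_mono' (hSm j)
          intro z hz
          have hz1 := mem_ball_zero_iff.mp hz.1
          have hpos : 0 < 1 - ‖z‖ ^ 2 := by nlinarith [norm_nonneg z]
          have h5 := star_point (m := m) hC₁ (u := u) hz1 (j := j) (sIG_bound hd hb hz1)
            (fun l => h₁ u 1 hd hb j l z hz1 hz.2.2)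
          rw [← hK] at h5
          rw [div_eq_mul_inv, ENNReal.ofReal_mul (pow_nonneg (gd_IG_nonneg hz1) _)]
          calc _ ≤ (∑' l : ℕ, ENNReal.ofReal (K * (1 / 2 : ℝ) ^ (l * (m + 6))) *
              ENNReal.ofReal (IG2 (D l j) z)) * ENNReal.ofReal (((1 - ‖z‖ ^ 2) ^ (m + 1))⁻¹) := by
                gcongr
            _ = _ := by
                rw [← ENNReal.tsum_mul_right]
                apply tsum_congr
                intro l
                rw [mul_assoc, ← ENNReal.ofReal_mul (gd_IG_nonneg hz1), ← div_eq_mul_inv]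
      _ = ∑' l : ℕ, ENNReal.ofReal (K * (1 / 2 : ℝ) ^ (l * (m + 6))) *
          ∫⁻ z in S j, ENNReal.ofReal (IG2 (D l j) z / (1 - ‖z‖ ^ 2) ^ (m + 1)) ∂μ := by
          rw [lintegral_tsum]
          · apply tsum_congr
            intro l
            rw [lintegral_const_mul' _ _ ENNReal.ofReal_ne_top]
          · intro l
            apply AEMeasurable.const_mul
            apply Measurable.aemeasurable
            apply ENNReal.measurable_ofReal.comp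
            exact (gd_IG_meas _).div
              ((measurable_const.sub (measurable_norm.pow_const 2)).pow_const (m + 1))
      _ ≤ _ := by
          apply ENNReal.tsum_le_tsum
          intro l
          gcongr
          exact h₂ (D l j) (dif_diff hd _ (by positivity)) j
  -- the sum over the shells
  have hterm : ∀ l k : ℕ, ∑' j : ℕ, ENNReal.ofReal (C₂ * (2 : ℝ) ^ (j * (m + 5))) *
      ENNReal.ofReal ((1 - Real.exp (-(k * (2 : ℝ) ^ ((l : ℤ) - (j : ℤ))))) ^ (2 * (m + 6))) ≤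
      ENNReal.ofReal (C₂ * C₃ * (2 : ℝ) ^ (l * (m + 5))) * bc m k := by
    intro l k
    calc _ = ENNReal.ofReal C₂ * ∑' j : ℕ, ENNReal.ofReal ((2 : ℝ) ^ (j * (m + 5)) *
          (1 - Real.exp (-(k * (2 : ℝ) ^ ((l : ℤ) - (j : ℤ))))) ^ (2 * (m + 6))) := by
          rw [← ENNReal.tsum_mul_left]
          apply tsum_congr
          intro j
          rw [← ENNReal.ofReal_mul (by positivity), ← ENNReal.ofReal_mul hC₂.le, mul_assoc]
      _ ≤ ENNReal.ofReal C₂ * ENNReal.ofReal (C₃ * (2 : ℝ) ^ (l * (m + 5)) * bc m k) := by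
          gcongr
          exact h₃ k l
      _ = _ := by
          rw [← ENNReal.ofReal_natCast (bc m k), ← ENNReal.ofReal_mul hC₂.le,
            ← ENNReal.ofReal_mul (by positivity)]
          congr 1; ring
  have hnorm : ∑' k : ℕ, (bc m k : ℝ≥0∞) * nrm2 μ (hp u k) ≤ ENNReal.ofReal (cW μ) := by
    apply ENNReal.tsum_le_of_sum_range_le
    intro n
    have := DA_norm μ hdim zero_le_one hu n
    rwa [one_pow, one_mul] at this
  have hlev : ∀ l : ℕ, ∑' j : ℕ, ENNReal.ofReal (C₂ * (2 : ℝ) ^ (j * (m + 5))) * nrm2 μ (D l j) ≤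
      ENNReal.ofReal (C₂ * C₃ * (2 : ℝ) ^ (l * (m + 5)) * cW μ) := by
    intro l
    calc _ = ∑' j : ℕ, ∑' k : ℕ, (ENNReal.ofReal (C₂ * (2 : ℝ) ^ (j * (m + 5))) *
          ENNReal.ofReal ((1 - Real.exp (-(k * (2 : ℝ) ^ ((l : ℤ) - (j : ℤ))))) ^ (2 * (m + 6)))) *
          nrm2 μ (hp u k) := by
          apply tsum_congr
          intro j
          rw [hD]
          simp only
          rw [nrm2_dif μ hd (m + 6) (by positivity), ← ENNReal.tsum_mul_left]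
          apply tsum_congr
          intro k
          rw [mul_assoc]
      _ = ∑' k : ℕ, (∑' j : ℕ, ENNReal.ofReal (C₂ * (2 : ℝ) ^ (j * (m + 5))) *
          ENNReal.ofReal ((1 - Real.exp (-(k * (2 : ℝ) ^ ((l : ℤ) - (j : ℤ))))) ^ (2 * (m + 6)))) *
          nrm2 μ (hp u k) := by
          rw [ENNReal.tsum_comm]
          apply tsum_congr
          intro k
          rw [ENNReal.tsum_mul_right]
      _ ≤ ∑' k : ℕ, (ENNReal.ofReal (C₂ * C₃ * (2 : ℝ) ^ (l * (m + 5))) * bc m k) *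
          nrm2 μ (hp u k) := by
          apply ENNReal.tsum_le_tsum
          intro k
          gcongr
          exact hterm l k
      _ = ENNReal.ofReal (C₂ * C₃ * (2 : ℝ) ^ (l * (m + 5))) *
          ∑' k : ℕ, (bc m k : ℝ≥0∞) * nrm2 μ (hp u k) := by
          rw [← ENNReal.tsum_mul_left]
          apply tsum_congr
          intro k
          rw [mul_assoc]
      _ ≤ ENNReal.ofReal (C₂ * C₃ * (2 : ℝ) ^ (l * (m + 5))) * ENNReal.ofReal (cW μ) := by gcongr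
      _ = _ := by rw [← ENNReal.ofReal_mul (by positivity)]
  calc _ ≤ ∫⁻ z in ⋃ j, S j, ENNReal.ofReal (IG2 u z ^ (m + 7) / (1 - ‖z‖ ^ 2) ^ (m + 1)) ∂μ :=
        lintegral_mono_set hU
    _ ≤ ∑' j, ∫⁻ z in S j, ENNReal.ofReal (IG2 u z ^ (m + 7) / (1 - ‖z‖ ^ 2) ^ (m + 1)) ∂μ :=
        lintegral_iUnion_le _ _
    _ ≤ ∑' j : ℕ, ∑' l : ℕ, ENNReal.ofReal (K * (1 / 2 : ℝ) ^ (l * (m + 6))) *
        (ENNReal.ofReal (C₂ * (2 : ℝ) ^ (j * (m + 5))) * nrm2 μ (D l j)) :=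
        ENNReal.tsum_le_tsum hshell
    _ = ∑' l : ℕ, ENNReal.ofReal (K * (1 / 2 : ℝ) ^ (l * (m + 6))) *
        ∑' j : ℕ, (ENNReal.ofReal (C₂ * (2 : ℝ) ^ (j * (m + 5))) * nrm2 μ (D l j)) := by
        rw [ENNReal.tsum_comm]
        apply tsum_congr
        intro l
        rw [ENNReal.tsum_mul_left]
    _ ≤ ∑' l : ℕ, ENNReal.ofReal (K * (1 / 2 : ℝ) ^ (l * (m + 6))) *
        ENNReal.ofReal (C₂ * C₃ * (2 : ℝ) ^ (l * (m + 5)) * cW μ) := by
        apply ENNReal.tsum_le_tsum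
        intro l
        gcongr
        exact hlev l
    _ = ∑' l : ℕ, ENNReal.ofReal (K * C₂ * C₃ * cW μ * (1 / 2 : ℝ) ^ l) := by
        apply tsum_congr
        intro l
        rw [← ENNReal.ofReal_mul (by positivity)]
        congr 1
        have h6 : (1 / 2 : ℝ) ^ (l * (m + 6)) * (2 : ℝ) ^ (l * (m + 5)) = (1 / 2 : ℝ) ^ l := by
          have h7 : l * (m + 6) = l * (m + 5) + l := by ring
          rw [h7, pow_add, mul_right_comm, ← mul_pow]
          norm_num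
        calc _ = K * C₂ * C₃ * cW μ * ((1 / 2 : ℝ) ^ (l * (m + 6)) * (2 : ℝ) ^ (l * (m + 5))) := by ring
          _ = _ := by rw [h6]
    _ = ENNReal.ofReal (∑' l : ℕ, K * C₂ * C₃ * cW μ * (1 / 2 : ℝ) ^ l) := by
        rw [ENNReal.ofReal_tsum_of_nonneg]
        · intro l; positivity
        · exact (summable_geometric_of_lt_one (by norm_num) (by norm_num)).mul_left _
    _ = _ := by
        rw [tsum_mul_left, tsum_geometric_two]

end Pool.Agent.MPca0fc2.DA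
end
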