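import Mathlib

section

/-! Sums of finitely many masses (`μ x` with the size `v x`) whose mass in `{v ≤ r}` is at most `B r`. -/

set_option autoImplicit false

open Metric Set MeasureTheory Filter Topology

namespace Pool.Agent.MPca0fc2.GW

private lemma P1_dy {τ v : ℝ} (hτ : 0 < τ) (hv : τ ≤ v) {M : ℕ} (hM : v ≤ 2 ^ (M + 1) * τ) :
    ∃ m, m ≤ M ∧ 2 ^ m * τ ≤ v ∧ v ≤ 2 ^ (m + 1) * τ := by
  classical
  have hex : ∃ m : ℕ, v ≤ 2 ^ (m + 1) * τ := ⟨M, hM⟩
  refine ⟨Nat.find hex, Nat.find_min' hex hM, ?_, Nat.find_spec hex⟩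
  rcases Nat.eq_zero_or_pos (Nat.find hex) with h0 | h0
  · rw [h0]; simpa using hv
  · obtain ⟨k, hk⟩ := Nat.exists_eq_succ_of_ne_zero h0.ne'
    have := Nat.find_min hex (m := k) (by omega)
    rw [hk]
    push Not at this
    exact this.le

private lemma P1_sum {ι : Type} [Fintype ι] (μ v : ι → ℝ) (τ B : ℝ) (hτ : 0 < τ)
    (h : ∀ r : ℝ, τ ≤ r → ∑ x, (if v x ≤ r then μ x else 0) ≤ B * r)
    (M : ℕ) (c : ℕ → ℝ) (hc : ∀ m, 0 ≤ c m) :
    ∑ x, ∑ m ∈ Finset.range (M + 1), (if v x ≤ 2 ^ (m + 1) * τ then μ x else 0) * c m ≤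
      ∑ m ∈ Finset.range (M + 1), B * (2 ^ (m + 1) * τ) * c m := by
  rw [Finset.sum_comm]
  refine Finset.sum_le_sum fun m _ => ?_
  rw [← Finset.sum_mul]
  refine mul_le_mul_of_nonneg_right (h _ ?_) (hc m)
  have : (1 : ℝ) ≤ 2 ^ (m + 1) := one_le_pow₀ (by norm_num)
  nlinarith

/-- PROOF. `v^(-(1+γ)) = (1+γ) ∫_v^∞ r^(-2-γ) dr`, so `∑ μ v^(-(1+γ)) = (1+γ) ∫_τ^∞ (∑_{v x ≤ r} μ x) r^(-2-γ) dr ≤ (1+γ) B ∫_τ^∞ r^(-1-γ) dr
= ((1+γ)/γ) B τ^(-γ)`. (Or sum over dyadic classes `2^m τ ≤ v x < 2^(m+1) τ`, `m < m₀` as there are finitely many `x`: each is at most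
`B 2^(m+1) τ (2^m τ)^(-(1+γ))`.) -/
theorem sum_dec {γ : ℝ} (hγ : 0 < γ) : ∃ K : ℝ, 0 < K ∧ ∀ {ι : Type} [Fintype ι] (μ v : ι → ℝ)
    (τ B : ℝ), 0 < τ → 0 ≤ B → (∀ x, 0 ≤ μ x) → (∀ x, τ ≤ v x) →
    (∀ r : ℝ, τ ≤ r → ∑ x, (if v x ≤ r then μ x else 0) ≤ B * r) →
    ∑ x, μ x * (v x) ^ (-(1 + γ)) ≤ K * B * τ ^ (-γ) := by
  set q : ℝ := (2 : ℝ) ^ (-γ) with hq
  have hq0 : 0 < q := Real.rpow_pos_of_pos (by norm_num) _
  have hq1 : q < 1 := Real.rpow_lt_one_of_one_lt_of_neg (by norm_num) (by linarith)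
  refine ⟨2 / (1 - q), div_pos (by norm_num) (by linarith), ?_⟩
  intro ι _ μ v τ B hτ hB hμ hv h
  obtain ⟨b, hb⟩ := (Set.finite_range v).bddAbove
  obtain ⟨M, hM⟩ := pow_unbounded_of_one_lt (b / τ) (one_lt_two : (1 : ℝ) < 2)
  have hvM : ∀ x, v x ≤ 2 ^ (M + 1) * τ := by
    intro x
    have h1 : v x ≤ b := hb ⟨x, rfl⟩
    have h2 : b < 2 ^ M * τ := (div_lt_iff₀ hτ).1 hM
    have h3 : (2 : ℝ) ^ M * τ ≤ 2 ^ (M + 1) * τ := by
      refine mul_le_mul_of_nonneg_right ?_ hτ.le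
      exact pow_le_pow_right₀ (by norm_num) (Nat.le_succ M)
    linarith
  have hpos : ∀ m : ℕ, (0 : ℝ) < 2 ^ m * τ := fun m => by positivity
  have key : ∀ x, μ x * (v x) ^ (-(1 + γ)) ≤ ∑ m ∈ Finset.range (M + 1),
      (if v x ≤ 2 ^ (m + 1) * τ then μ x else 0) * (2 ^ m * τ) ^ (-(1 + γ)) := by
    intro x
    obtain ⟨m, hm, h1, h2⟩ := P1_dy hτ (hv x) (hvM x)
    have h3 : μ x * (v x) ^ (-(1 + γ)) ≤
        (if v x ≤ 2 ^ (m + 1) * τ then μ x else 0) * (2 ^ m * τ) ^ (-(1 + γ)) := by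
      rw [if_pos h2]
      exact mul_le_mul_of_nonneg_left
        (Real.rpow_le_rpow_of_nonpos (hpos m) h1 (by linarith)) (hμ x)
    refine h3.trans (Finset.single_le_sum
      (f := fun m => (if v x ≤ 2 ^ (m + 1) * τ then μ x else 0) * (2 ^ m * τ) ^ (-(1 + γ)))
      (fun m _ => ?_) (Finset.mem_range.2 (by omega)))
    refine mul_nonneg ?_ (Real.rpow_nonneg (hpos m).le _)
    split_ifs
    · exact hμ x
    · exact le_rfl
  refine (Finset.sum_le_sum fun x _ => key x).trans ?_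
  refine (P1_sum μ v τ B hτ h M (fun m => (2 ^ m * τ) ^ (-(1 + γ)))
    (fun m => Real.rpow_nonneg (hpos m).le _)).trans ?_
  have e : ∀ m : ℕ, B * (2 ^ (m + 1) * τ) * (2 ^ m * τ) ^ (-(1 + γ)) =
      2 * B * τ ^ (-γ) * q ^ m := by
    intro m
    have h1 : (2 ^ m * τ) ^ (-(1 + γ)) = (2 ^ m * τ) ^ (-γ) / (2 ^ m * τ) := by
      rw [show -(1 + γ) = -γ - 1 by ring, Real.rpow_sub (hpos m), Real.rpow_one]
    have h2 : ((2 : ℝ) ^ m * τ) ^ (-γ) = q ^ m * τ ^ (-γ) := by
      rw [Real.mul_rpow (by positivity) hτ.le, hq, ← Real.rpow_natCast, ← Real.rpow_mul (by norm_num),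
        mul_comm (m : ℝ), Real.rpow_mul (by norm_num), Real.rpow_natCast]
    rw [h1, h2]
    have : (2 : ℝ) ^ m * τ ≠ 0 := (hpos m).ne'
    rw [pow_succ]
    field_simp
  have hsum : ∑ m ∈ Finset.range (M + 1), q ^ m ≤ 1 / (1 - q) := by
    have := geom_sum_Ico_le_of_lt_one hq0.le hq1 (m := 0) (n := M + 1)
    simpa using this
  calc ∑ m ∈ Finset.range (M + 1), B * (2 ^ (m + 1) * τ) * (2 ^ m * τ) ^ (-(1 + γ))
      = ∑ m ∈ Finset.range (M + 1), 2 * B * τ ^ (-γ) * q ^ m := Finset.sum_congr rfl fun m _ => e m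
    _ = 2 * B * τ ^ (-γ) * ∑ m ∈ Finset.range (M + 1), q ^ m := by rw [Finset.mul_sum]
    _ ≤ 2 * B * τ ^ (-γ) * (1 / (1 - q)) := by
        refine mul_le_mul_of_nonneg_left hsum ?_
        have := Real.rpow_nonneg hτ.le (-γ)
        positivity
    _ = 2 / (1 - q) * B * τ ^ (-γ) := by ring

/-- PROOF. `1 / v = 1 / R + ∫_v^R r^(-2) dr` for `v ≤ R`, so the sum is at most `(1/R) B R + ∫_τ^R B r r^(-2) dr = B (1 + log (R / τ))`.
(Or dyadic classes, with the constant `4`.) -/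
theorem sum_log {ι : Type} [Fintype ι] (μ v : ι → ℝ) (τ B R : ℝ) (hτ : 0 < τ) (hB : 0 ≤ B)
    (hμ : ∀ x, 0 ≤ μ x) (hv : ∀ x, τ ≤ v x) (hR : τ ≤ R)
    (h : ∀ r : ℝ, τ ≤ r → ∑ x, (if v x ≤ r then μ x else 0) ≤ B * r) :
    ∑ x, (if v x ≤ R then μ x / v x else 0) ≤ 4 * B * (1 + Real.log (R / τ)) := by
  classical
  have hex : ∃ M : ℕ, R ≤ 2 ^ (M + 1) * τ := by
    obtain ⟨M, hM⟩ := pow_unbounded_of_one_lt (R / τ) (one_lt_two : (1 : ℝ) < 2)
    refine ⟨M, ?_⟩
    have h2 : R < 2 ^ M * τ := (div_lt_iff₀ hτ).1 hM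
    have h3 : (2 : ℝ) ^ M * τ ≤ 2 ^ (M + 1) * τ := by
      refine mul_le_mul_of_nonneg_right ?_ hτ.le
      exact pow_le_pow_right₀ (by norm_num) (Nat.le_succ M)
    linarith
  obtain ⟨M, hM1, hM2⟩ : ∃ M : ℕ, R ≤ 2 ^ (M + 1) * τ ∧ 2 ^ M * τ ≤ R := by
    refine ⟨Nat.find hex, Nat.find_spec hex, ?_⟩
    rcases Nat.eq_zero_or_pos (Nat.find hex) with h0 | h0
    · rw [h0]; simpa using hR
    · obtain ⟨k, hk⟩ := Nat.exists_eq_succ_of_ne_zero h0.ne'
      have := Nat.find_min hex (m := k) (by omega)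
      rw [hk]
      push Not at this
      exact this.le
  have hpos : ∀ m : ℕ, (0 : ℝ) < 2 ^ m * τ := fun m => by positivity
  have key : ∀ x, (if v x ≤ R then μ x / v x else 0) ≤ ∑ m ∈ Finset.range (M + 1),
      (if v x ≤ 2 ^ (m + 1) * τ then μ x else 0) * (2 ^ m * τ)⁻¹ := by
    intro x
    have hnn : ∀ m : ℕ, 0 ≤ (if v x ≤ 2 ^ (m + 1) * τ then μ x else 0) * ((2 : ℝ) ^ m * τ)⁻¹ := by
      intro m
      refine mul_nonneg ?_ (inv_nonneg.2 (hpos m).le)
      split_ifs
      · exact hμ x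
      · exact le_rfl
    split_ifs with hx
    · obtain ⟨m, hm, h1, h2⟩ := P1_dy hτ (hv x) (hx.trans hM1)
      have h3 : μ x / v x ≤
          (if v x ≤ 2 ^ (m + 1) * τ then μ x else 0) * (2 ^ m * τ)⁻¹ := by
        rw [if_pos h2, div_eq_mul_inv]
        exact mul_le_mul_of_nonneg_left (inv_anti₀ (hpos m) h1) (hμ x)
      exact h3.trans (Finset.single_le_sum
        (f := fun m => (if v x ≤ 2 ^ (m + 1) * τ then μ x else 0) * ((2 : ℝ) ^ m * τ)⁻¹)
        (fun m _ => hnn m) (Finset.mem_range.2 (by omega)))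
    · exact Finset.sum_nonneg fun m _ => hnn m
  refine (Finset.sum_le_sum fun x _ => key x).trans ?_
  refine (P1_sum μ v τ B hτ h M (fun m => (2 ^ m * τ)⁻¹)
    (fun m => inv_nonneg.2 (hpos m).le)).trans ?_
  have e : ∀ m : ℕ, B * (2 ^ (m + 1) * τ) * (2 ^ m * τ)⁻¹ = 2 * B := by
    intro m
    have : (2 : ℝ) ^ m * τ ≠ 0 := (hpos m).ne'
    rw [pow_succ]
    field_simp
  rw [Finset.sum_congr rfl fun m _ => e m, Finset.sum_const, Finset.card_range, nsmul_eq_mul]
  have hl : (M : ℝ) * Real.log 2 ≤ Real.log (R / τ) := by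
    rw [← Real.log_pow]
    refine Real.log_le_log (by positivity) ?_
    rw [le_div_iff₀ hτ]
    exact hM2
  have hl2 : (1 / 2 : ℝ) ≤ Real.log 2 := by
    have := Real.log_two_gt_d9
    linarith
  have hM3 : (M : ℝ) ≤ 2 * Real.log (R / τ) := by
    have : (M : ℝ) * (1 / 2) ≤ (M : ℝ) * Real.log 2 :=
      mul_le_mul_of_nonneg_left hl2 (Nat.cast_nonneg M)
    linarith
  push_cast
  nlinarith

/-- Sums over the levels.
PROOF. Let `E j = (1/2)^j`. For `a ≤ E l` (`a > 0`): the terms with `E j ≥ a` are at most `E j^(1/4 - 9/4) = E j^(-2)`, a geometric series with the largest term at most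
`a^(-2)`; the terms with `E j < a` are at most `E j^(1/4) a^(-9/4)`, with the largest term at most `a^(-2)`. In any case the sum is at most
`∑_{j ≥ l} E j^(1/4) a^(-9/4) ≤ K E l^(1/4) a^(-9/4)`. -/
theorem sum_scale : ∃ K : ℝ, 0 < K ∧ ∀ (a : ℝ) (l m : ℕ), 0 < a →
    ∑ j ∈ Finset.Ico l m, ((1 / 2 : ℝ) ^ j) ^ (1 / 4 : ℝ) / (a + (1 / 2 : ℝ) ^ j) ^ (9 / 4 : ℝ) ≤
      K * a ^ (-2 : ℝ) ∧
    ∑ j ∈ Finset.Ico l m, ((1 / 2 : ℝ) ^ j) ^ (1 / 4 : ℝ) / (a + (1 / 2 : ℝ) ^ j) ^ (9 / 4 : ℝ) ≤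
      K * ((1 / 2 : ℝ) ^ l) ^ (1 / 4 : ℝ) * a ^ (-(9 / 4) : ℝ) := by
  set q : ℝ := (1 / 2 : ℝ) ^ (1 / 4 : ℝ) with hq
  have hq0 : 0 < q := Real.rpow_pos_of_pos (by norm_num) _
  have hq1 : q < 1 := Real.rpow_lt_one (by norm_num) (by norm_num) (by norm_num)
  have hqj : ∀ j : ℕ, ((1 / 2 : ℝ) ^ j) ^ (1 / 4 : ℝ) = q ^ j := by
    intro j
    rw [hq, ← Real.rpow_natCast, ← Real.rpow_mul (by norm_num),
      mul_comm (j : ℝ), Real.rpow_mul (by norm_num), Real.rpow_natCast]
  have hK : 0 < 1 / (1 - q) := div_pos one_pos (by linarith)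
  refine ⟨1 / (1 - q) + 2, by linarith, ?_⟩
  intro a l m ha
  have hE : ∀ j : ℕ, (0 : ℝ) < (1 / 2 : ℝ) ^ j := fun j => by positivity
  have hb2 : ∀ j : ℕ, ((1 / 2 : ℝ) ^ j) ^ (1 / 4 : ℝ) / (a + (1 / 2 : ℝ) ^ j) ^ (9 / 4 : ℝ) ≤
      q ^ j * a ^ (-(9 / 4) : ℝ) := by
    intro j
    rw [hqj, div_eq_mul_inv, ← Real.rpow_neg (by have := hE j; linarith)]
    refine mul_le_mul_of_nonneg_left ?_ (by positivity)
    exact Real.rpow_le_rpow_of_nonpos ha (by have := hE j; linarith) (by norm_num)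
  have hIco : ∀ s t : ℕ, ∑ j ∈ Finset.Ico s t,
      ((1 / 2 : ℝ) ^ j) ^ (1 / 4 : ℝ) / (a + (1 / 2 : ℝ) ^ j) ^ (9 / 4 : ℝ) ≤
      1 / (1 - q) * q ^ s * a ^ (-(9 / 4) : ℝ) := by
    intro s t
    refine (Finset.sum_le_sum fun j _ => hb2 j).trans ?_
    rw [← Finset.sum_mul]
    refine mul_le_mul_of_nonneg_right ?_ (Real.rpow_nonneg ha.le _)
    have := geom_sum_Ico_le_of_lt_one hq0.le hq1 (m := s) (n := t)
    rw [div_mul_eq_mul_div, one_mul]
    exact this
  constructor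
  · classical
    have hex : ∃ J : ℕ, (1 / 2 : ℝ) ^ J < a :=
      exists_pow_lt_of_lt_one ha (by norm_num)
    obtain ⟨J, hJ1, hJ2⟩ : ∃ J : ℕ, (1 / 2 : ℝ) ^ J < a ∧ (J = 0 ∨ (4 : ℝ) ^ J ≤ 4 * a ^ (-2 : ℝ)) := by
      refine ⟨Nat.find hex, Nat.find_spec hex, ?_⟩
      rcases Nat.eq_zero_or_pos (Nat.find hex) with h0 | h0
      · left; exact h0
      · right
        obtain ⟨k, hk⟩ := Nat.exists_eq_succ_of_ne_zero h0.ne'
        have := Nat.find_min hex (m := k) (by omega)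
        rw [hk]
        push Not at this
        have h1 : ((1 / 2 : ℝ) ^ k) ^ (-2 : ℝ) ≤ a ^ (-2 : ℝ) :=
          Real.rpow_le_rpow_of_nonpos ha this (by norm_num)
        have h2 : ((1 / 2 : ℝ) ^ k) ^ (-2 : ℝ) = 4 ^ k := by
          rw [Real.rpow_neg (hE k).le, show (2 : ℝ) = ((2 : ℕ) : ℝ) by norm_num, Real.rpow_natCast,
            ← inv_pow, ← inv_pow, ← pow_mul, mul_comm k 2, pow_mul]
          norm_num
        rw [pow_succ]
        linarith
    have hnn : ∀ j : ℕ, 0 ≤ ((1 / 2 : ℝ) ^ j) ^ (1 / 4 : ℝ) / (a + (1 / 2 : ℝ) ^ j) ^ (9 / 4 : ℝ) := by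
      intro j
      have := hE j
      refine div_nonneg (Real.rpow_nonneg this.le _) (Real.rpow_nonneg (by linarith) _)
    have hb1 : ∀ j : ℕ, ((1 / 2 : ℝ) ^ j) ^ (1 / 4 : ℝ) / (a + (1 / 2 : ℝ) ^ j) ^ (9 / 4 : ℝ) ≤
        4 ^ j := by
      intro j
      have h1 : ((1 / 2 : ℝ) ^ j) ^ (9 / 4 : ℝ) ≤ (a + (1 / 2 : ℝ) ^ j) ^ (9 / 4 : ℝ) :=
        Real.rpow_le_rpow (hE j).le (by linarith) (by norm_num)
      have h0 : 0 < ((1 / 2 : ℝ) ^ j) ^ (9 / 4 : ℝ) := Real.rpow_pos_of_pos (hE j) _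
      have h2 : ((1 / 2 : ℝ) ^ j) ^ (1 / 4 : ℝ) / (a + (1 / 2 : ℝ) ^ j) ^ (9 / 4 : ℝ) ≤
          ((1 / 2 : ℝ) ^ j) ^ (1 / 4 : ℝ) / ((1 / 2 : ℝ) ^ j) ^ (9 / 4 : ℝ) :=
        div_le_div_of_nonneg_left (Real.rpow_nonneg (hE j).le _) h0 h1
      refine h2.trans (le_of_eq ?_)
      rw [← Real.rpow_sub (hE j), show (1 / 4 : ℝ) - 9 / 4 = -2 by norm_num,
        Real.rpow_neg (hE j).le, show (2 : ℝ) = ((2 : ℕ) : ℝ) by norm_num, Real.rpow_natCast,
            ← inv_pow, ← inv_pow, ← pow_mul, mul_comm j 2, pow_mul]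
      norm_num
    have hsplit : ∑ j ∈ Finset.Ico l m,
        ((1 / 2 : ℝ) ^ j) ^ (1 / 4 : ℝ) / (a + (1 / 2 : ℝ) ^ j) ^ (9 / 4 : ℝ) ≤
        ∑ j ∈ Finset.Ico 0 J,
          ((1 / 2 : ℝ) ^ j) ^ (1 / 4 : ℝ) / (a + (1 / 2 : ℝ) ^ j) ^ (9 / 4 : ℝ) +
        ∑ j ∈ Finset.Ico J (max J m),
          ((1 / 2 : ℝ) ^ j) ^ (1 / 4 : ℝ) / (a + (1 / 2 : ℝ) ^ j) ^ (9 / 4 : ℝ) := by
      rw [Finset.sum_Ico_consecutive _ (Nat.zero_le J) (le_max_left J m)]
      refine Finset.sum_le_sum_of_subset_of_nonneg ?_ fun j _ _ => hnn j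
      intro j hj
      rw [Finset.mem_Ico] at hj ⊢
      exact ⟨Nat.zero_le _, lt_of_lt_of_le hj.2 (le_max_right _ _)⟩
    have hA : ∑ j ∈ Finset.Ico 0 J,
          ((1 / 2 : ℝ) ^ j) ^ (1 / 4 : ℝ) / (a + (1 / 2 : ℝ) ^ j) ^ (9 / 4 : ℝ) ≤ 2 * a ^ (-2 : ℝ) := by
      refine (Finset.sum_le_sum fun j _ => hb1 j).trans ?_
      have ha2 : 0 ≤ a ^ (-2 : ℝ) := Real.rpow_nonneg ha.le _
      rcases hJ2 with h | h
      · subst h
        simpa using ha2
      · have hg : ∀ n : ℕ, ∑ j ∈ Finset.Ico 0 n, (4 : ℝ) ^ j ≤ 4 ^ n / 3 := by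
          intro n
          induction n with
          | zero => simp
          | succ n ih =>
            rw [Finset.sum_Ico_succ_top (Nat.zero_le n), pow_succ]
            linarith
        have := hg J
        linarith
    have hB : ∑ j ∈ Finset.Ico J (max J m),
          ((1 / 2 : ℝ) ^ j) ^ (1 / 4 : ℝ) / (a + (1 / 2 : ℝ) ^ j) ^ (9 / 4 : ℝ) ≤
          1 / (1 - q) * a ^ (-2 : ℝ) := by
      refine (hIco J (max J m)).trans ?_
      rw [mul_assoc]
      refine mul_le_mul_of_nonneg_left ?_ hK.le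
      have h1 : q ^ J ≤ a ^ (1 / 4 : ℝ) := by
        rw [← hqj]
        exact Real.rpow_le_rpow (hE J).le hJ1.le (by norm_num)
      calc q ^ J * a ^ (-(9 / 4) : ℝ) ≤ a ^ (1 / 4 : ℝ) * a ^ (-(9 / 4) : ℝ) :=
            mul_le_mul_of_nonneg_right h1 (Real.rpow_nonneg ha.le _)
        _ = a ^ (-2 : ℝ) := by
            rw [← Real.rpow_add ha]
            norm_num
    calc _ ≤ _ := hsplit
      _ ≤ 2 * a ^ (-2 : ℝ) + 1 / (1 - q) * a ^ (-2 : ℝ) := add_le_add hA hB
      _ = (1 / (1 - q) + 2) * a ^ (-2 : ℝ) := by ring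
  · refine (hIco l m).trans ?_
    rw [hqj]
    refine mul_le_mul_of_nonneg_right ?_ (Real.rpow_nonneg ha.le _)
    refine mul_le_mul_of_nonneg_right (by linarith) (by positivity)

/-- The smooth step `th N`: `|d/ds th(N, s)| ≤ K / N`, and it vanishes unless `N / 2 ≤ s ≤ N`.
PROOF. `th N s = smoothTransition (2 (s / N) - 1)`; the derivative of `Real.smoothTransition` is continuous and vanishes outside
`[0, 1]`. (See `age_psi_bound` in `PTAge.lean`.) -/
theorem smooth_deriv : ∃ K : ℝ, 0 < K ∧ ∀ (N s : ℝ), 0 < N →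
    |deriv (fun s : ℝ => Real.smoothTransition (2 * (s / N) - 1)) s| ≤
      if N / 2 ≤ s ∧ s ≤ N then K / N else 0 := by
  have hcd : ContDiff ℝ 1 Real.smoothTransition := Real.smoothTransition.contDiff
  have hcont : Continuous (deriv Real.smoothTransition) := hcd.continuous_deriv le_rfl
  obtain ⟨C, hC⟩ := (isCompact_Icc (a := (0 : ℝ)) (b := 1)).exists_bound_of_continuousOn
    hcont.continuousOn
  have hz : ∀ x : ℝ, (x < 0 ∨ 1 < x) → deriv Real.smoothTransition x = 0 := by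
    intro x hx
    rcases hx with hx | hx
    · have : Real.smoothTransition =ᶠ[𝓝 x] fun _ => (0 : ℝ) := by
        filter_upwards [Iio_mem_nhds hx] with y hy
        exact Real.smoothTransition.zero_of_nonpos (le_of_lt hy)
      rw [this.deriv_eq]; simp
    · have : Real.smoothTransition =ᶠ[𝓝 x] fun _ => (1 : ℝ) := by
        filter_upwards [Ioi_mem_nhds hx] with y hy
        exact Real.smoothTransition.one_of_one_le (le_of_lt hy)
      rw [this.deriv_eq]; simp
  have hC0 : 0 ≤ C := (norm_nonneg _).trans (hC 0 (by simp))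
  refine ⟨2 * C + 1, by linarith, ?_⟩
  intro N s hN
  have hd : HasDerivAt (fun s : ℝ => Real.smoothTransition (2 * (s / N) - 1))
      (deriv Real.smoothTransition (2 * (s / N) - 1) * (2 * (1 / N))) s := by
    have h1 : HasDerivAt (fun s : ℝ => 2 * (s / N) - 1) (2 * (1 / N)) s :=
      (((hasDerivAt_id s).div_const N).const_mul 2).sub_const 1
    have h2 : HasDerivAt Real.smoothTransition (deriv Real.smoothTransition (2 * (s / N) - 1))
        (2 * (s / N) - 1) := (hcd.differentiable (by norm_num) _).hasDerivAt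
    exact h2.comp s h1
  rw [hd.deriv]
  split_ifs with h
  · have hmem : 2 * (s / N) - 1 ∈ Icc (0 : ℝ) 1 := by
      have h1 : 1 / 2 ≤ s / N := by rw [le_div_iff₀ hN]; linarith [h.1]
      have h2 : s / N ≤ 1 := by rw [div_le_iff₀ hN]; linarith [h.2]
      constructor <;> linarith
    have h3 := hC _ hmem
    rw [Real.norm_eq_abs] at h3
    rw [abs_mul, abs_of_pos (show (0 : ℝ) < 2 * (1 / N) by positivity)]
    calc |deriv Real.smoothTransition (2 * (s / N) - 1)| * (2 * (1 / N)) ≤ C * (2 * (1 / N)) :=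
          mul_le_mul_of_nonneg_right h3 (by positivity)
      _ = 2 * C / N := by ring
      _ ≤ (2 * C + 1) / N := by
          refine div_le_div_of_nonneg_right (by linarith) hN.le
  · have h4 : 2 * (s / N) - 1 < 0 ∨ 1 < 2 * (s / N) - 1 := by
      by_contra hcon
      push Not at hcon
      apply h
      have h1 : 1 / 2 ≤ s / N := by linarith [hcon.1]
      have h2 : s / N ≤ 1 := by linarith [hcon.2]
      rw [le_div_iff₀ hN] at h1
      rw [div_le_iff₀ hN] at h2
      constructor <;> linarith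
    rw [hz _ h4]
    simp

end Pool.Agent.MPca0fc2.GW
end

section

/-! The sequence lemma. -/

set_option autoImplicit false

open Metric Set MeasureTheory Filter Topology

namespace Pool.Agent.MPca0fc2.GW

private theorem s4_geom {b : ℝ} (hb0 : 0 ≤ b) (hb1 : b < 1) (n : ℕ) :
    ∑ i ∈ Finset.range n, b ^ i ≤ 1 / (1 - b) := by
  have h1 : 0 < 1 - b := by linarith
  rw [le_div_iff₀ h1]
  have h2 := geom_sum_mul b n
  have h3 : 0 ≤ b ^ n := pow_nonneg hb0 n
  linarith

private theorem s4_two {b : ℝ} (hb0 : 0 ≤ b) (hb1 : b < 1) (c M : ℕ) :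
    ∑ l ∈ Finset.range M, b ^ ((c - l) + (l - c)) ≤ 2 / (1 - b) := by
  have h1 : ∑ l ∈ Finset.range M, b ^ ((c - l) + (l - c)) ≤
      ∑ l ∈ Finset.range M, ((if l ≤ c then b ^ (c - l) else 0)
        + (if c ≤ l then b ^ (l - c) else 0)) := by
    apply Finset.sum_le_sum
    intro l _
    rcases le_total l c with h | h
    · have e : l - c = 0 := by omega
      rw [e, if_pos h, Nat.add_zero]
      have : (0 : ℝ) ≤ (if c ≤ l then b ^ 0 else 0) := by split_ifs <;> simp
      linarith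
    · have e : c - l = 0 := by omega
      rw [e, if_pos h, Nat.zero_add]
      have : (0 : ℝ) ≤ (if l ≤ c then b ^ 0 else 0) := by split_ifs <;> simp
      linarith
  have h2 : ∑ l ∈ Finset.range M, (if l ≤ c then b ^ (c - l) else 0) ≤ 1 / (1 - b) := by
    rw [← Finset.sum_filter]
    calc ∑ l ∈ (Finset.range M).filter (fun l => l ≤ c), b ^ (c - l)
        ≤ ∑ l ∈ Finset.range (c + 1), b ^ (c - l) := by
          apply Finset.sum_le_sum_of_subset_of_nonneg
          · intro l hl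
            rw [Finset.mem_filter] at hl
            rw [Finset.mem_range]
            omega
          · intro i _ _
            positivity
      _ = ∑ l ∈ Finset.range (c + 1), b ^ l := by
          rw [← Finset.sum_range_reflect (fun l => b ^ l) (c + 1)]
          apply Finset.sum_congr rfl
          intro l _
          congr 1
      _ ≤ 1 / (1 - b) := s4_geom hb0 hb1 _
  have h3 : ∑ l ∈ Finset.range M, (if c ≤ l then b ^ (l - c) else 0) ≤ 1 / (1 - b) := by
    rw [← Finset.sum_filter]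
    calc ∑ l ∈ (Finset.range M).filter (fun l => c ≤ l), b ^ (l - c)
        ≤ ∑ l ∈ Finset.Ico c M, b ^ (l - c) := by
          apply Finset.sum_le_sum_of_subset_of_nonneg
          · intro l hl
            rw [Finset.mem_filter, Finset.mem_range] at hl
            rw [Finset.mem_Ico]
            omega
          · intro i _ _
            positivity
      _ = ∑ i ∈ Finset.range (M - c), b ^ i := by
          rw [Finset.sum_Ico_eq_sum_range]
          apply Finset.sum_congr rfl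
          intro l _
          congr 1
          omega
      _ ≤ 1 / (1 - b) := s4_geom hb0 hb1 _
  rw [Finset.sum_add_distrib] at h1
  have h4 : 2 / (1 - b) = 1 / (1 - b) + 1 / (1 - b) := by ring
  linarith

private theorem s4_rpow (D : ℕ) (r : ℝ) :
    (1 / 2 : ℝ) ^ ((D : ℝ) / r) = ((1 / 2 : ℝ) ^ (1 / r : ℝ)) ^ D := by
  rw [← Real.rpow_natCast, ← Real.rpow_mul (by norm_num)]
  congr 1
  ring

private theorem s4_b_lt : ((1 / 2 : ℝ) ^ (1 / 32 : ℝ)) < 1 :=
  Real.rpow_lt_one (by norm_num) (by norm_num) (by norm_num)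

private theorem s4_a_lt : ((1 / 2 : ℝ) ^ (1 / 16 : ℝ)) < 1 :=
  Real.rpow_lt_one (by norm_num) (by norm_num) (by norm_num)

private theorem s4_bb : ((1 / 2 : ℝ) ^ (1 / 32 : ℝ)) * ((1 / 2 : ℝ) ^ (1 / 32 : ℝ))
    = ((1 / 2 : ℝ) ^ (1 / 16 : ℝ)) := by
  rw [← Real.rpow_add (by norm_num)]
  norm_num

private theorem s4_tele {κ : ℝ} (hκ : 0 < κ) (g : ℕ → ℝ) (M : ℕ) :
    ∑ j ∈ Finset.range M, g j * Real.exp (-(κ * ∑ i ∈ Finset.Ico j M, g i)) ≤ 1 / κ := by
  have h1 : ∀ j ∈ Finset.range M, g j * Real.exp (-(κ * ∑ i ∈ Finset.Ico j M, g i)) ≤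
      (1 / κ) * (Real.exp (-(κ * ∑ i ∈ Finset.Ico (j + 1) M, g i))
        - Real.exp (-(κ * ∑ i ∈ Finset.Ico j M, g i))) := by
    intro j hj
    rw [Finset.mem_range] at hj
    have e : ∑ i ∈ Finset.Ico j M, g i = g j + ∑ i ∈ Finset.Ico (j + 1) M, g i :=
      Finset.sum_eq_sum_Ico_succ_bot hj g
    have e2 : Real.exp (-(κ * ∑ i ∈ Finset.Ico (j + 1) M, g i)) =
        Real.exp (-(κ * ∑ i ∈ Finset.Ico j M, g i)) * Real.exp (κ * g j) := by
      rw [← Real.exp_add, e]
      congr 1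
      ring
    rw [e2]
    have h3 : κ * g j + 1 ≤ Real.exp (κ * g j) := Real.add_one_le_exp _
    have h4 : 0 < Real.exp (-(κ * ∑ i ∈ Finset.Ico j M, g i)) := Real.exp_pos _
    set E := Real.exp (-(κ * ∑ i ∈ Finset.Ico j M, g i)) with hE
    have h5 : E * (κ * g j) ≤ E * (Real.exp (κ * g j) - 1) := by
      apply mul_le_mul_of_nonneg_left _ h4.le
      linarith
    calc g j * E = (1 / κ) * (E * (κ * g j)) := by field_simp
      _ ≤ (1 / κ) * (E * (Real.exp (κ * g j) - 1)) := by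
          apply mul_le_mul_of_nonneg_left h5 (by positivity)
      _ = (1 / κ) * (E * Real.exp (κ * g j) - E) := by ring
  calc ∑ j ∈ Finset.range M, g j * Real.exp (-(κ * ∑ i ∈ Finset.Ico j M, g i))
      ≤ ∑ j ∈ Finset.range M, (1 / κ) * (Real.exp (-(κ * ∑ i ∈ Finset.Ico (j + 1) M, g i))
        - Real.exp (-(κ * ∑ i ∈ Finset.Ico j M, g i))) := Finset.sum_le_sum h1
    _ = (1 / κ) * (Real.exp (-(κ * ∑ i ∈ Finset.Ico M M, g i))
        - Real.exp (-(κ * ∑ i ∈ Finset.Ico 0 M, g i))) := by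
        rw [← Finset.mul_sum,
          Finset.sum_range_sub (fun j => Real.exp (-(κ * ∑ i ∈ Finset.Ico j M, g i))) M]
    _ ≤ 1 / κ := by
        have h6 : 0 < Real.exp (-(κ * ∑ i ∈ Finset.Ico 0 M, g i)) := Real.exp_pos _
        have h7 : Real.exp (-(κ * ∑ i ∈ Finset.Ico M M, g i)) = 1 := by simp
        rw [h7]
        have h8 : 0 < 1 / κ := by positivity
        nlinarith

/-- The core. `|j - l|` is written `(j - l) + (l - j)` with natural subtraction.
PROOF. Let `a = (1/2)^(1/16) < 1`, `G l = ∑_{Ico l M} g`. Terms with `j ≥ l`: `G l ≥ G j`, so they give at most `∑_j g j exp(-κ G j) ∑_{l ≤ j} a^(j-l) ≤ (1/(1-a)) ∑_{j < M} g j exp(-κ G j)`; `κ g j ≤ 1`, so `κ g j / 2 ≤ 1 - exp(-κ g j)` and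
`g j exp(-κ G j) ≤ g j exp (-κ G (j+1)) ≤ (2/κ) (exp(-κ G (j+1)) - exp(-κ G j))` telescopes: at most `2 / κ`. Terms with `j < l`: `G l = G j - ∑_{Ico j l} g ≥ G j - K₄ (l - j)`, `exp (κ K₄) ≤ a^(-1/2)`, so `exp(-κ G l) a^(l-j) ≤ exp(-κ G j) a^((l-j)/2)`,
sum over `l > j` and conclude as before. -/
theorem seq_core {κ K₄ : ℝ} (hκ : 0 < κ) (hK₄ : 0 < K₄) (h : κ * K₄ ≤ Real.log 2 / 32) :
    ∃ K : ℝ, 0 < K ∧ ∀ (g : ℕ → ℝ) (M : ℕ), (∀ j, 0 ≤ g j) → (∀ j, g j ≤ K₄) →
    ∑ l ∈ Finset.range M, Real.exp (-(κ * ∑ j ∈ Finset.Ico l M, g j)) *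
      ∑ j ∈ Finset.range M, (1 / 2 : ℝ) ^ ((((j - l) + (l - j) : ℕ) : ℝ) / 16) * g j ≤ K := by
  set b : ℝ := (1 / 2 : ℝ) ^ (1 / 32 : ℝ) with hb
  set a : ℝ := (1 / 2 : ℝ) ^ (1 / 16 : ℝ) with ha
  have hb0 : 0 < b := Real.rpow_pos_of_pos (by norm_num) _
  have hb1 : b < 1 := s4_b_lt
  have ha0 : 0 < a := Real.rpow_pos_of_pos (by norm_num) _
  have hbb : b * b = a := s4_bb
  have hab : a ≤ b := by rw [← hbb]; nlinarith
  have hexp : Real.exp (κ * K₄) * b ≤ 1 := by
    have e1 : b = Real.exp (-(Real.log 2 / 32)) := by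
      rw [hb, Real.rpow_def_of_pos (by norm_num)]
      congr 1
      rw [one_div, Real.log_inv]
      ring
    rw [e1, ← Real.exp_add]
    rw [Real.exp_le_one_iff]
    linarith
  have h1b : 0 < 1 - b := by linarith
  refine ⟨2 / (1 - b) * (1 / κ), by positivity, ?_⟩
  intro g M hg hgK
  have key : ∀ l ∈ Finset.range M, ∀ j ∈ Finset.range M,
      Real.exp (-(κ * ∑ i ∈ Finset.Ico l M, g i)) *
        ((1 / 2 : ℝ) ^ ((((j - l) + (l - j) : ℕ) : ℝ) / 16) * g j) ≤
      (g j * Real.exp (-(κ * ∑ i ∈ Finset.Ico j M, g i))) * b ^ ((j - l) + (l - j)) := by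
    intro l hl j hj
    rw [Finset.mem_range] at hl hj
    rw [s4_rpow]
    have hmain : Real.exp (-(κ * ∑ i ∈ Finset.Ico l M, g i)) * a ^ ((j - l) + (l - j)) ≤
        Real.exp (-(κ * ∑ i ∈ Finset.Ico j M, g i)) * b ^ ((j - l) + (l - j)) := by
      rcases le_total l j with h' | h'
      · apply mul_le_mul
        · apply Real.exp_le_exp.2
          have : ∑ i ∈ Finset.Ico j M, g i ≤ ∑ i ∈ Finset.Ico l M, g i := by
            apply Finset.sum_le_sum_of_subset_of_nonneg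
            · intro i hi
              rw [Finset.mem_Ico] at hi ⊢
              omega
            · intro i _ _
              exact hg i
          have := mul_le_mul_of_nonneg_left this hκ.le
          linarith
        · exact pow_le_pow_left₀ ha0.le hab _
        · positivity
        · exact (Real.exp_pos _).le
      · have e0 : (j - l) + (l - j) = l - j := by omega
        rw [e0]
        have e1 : ∑ i ∈ Finset.Ico j M, g i =
            ∑ i ∈ Finset.Ico j l, g i + ∑ i ∈ Finset.Ico l M, g i :=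
          (Finset.sum_Ico_consecutive g h' hl.le).symm
        have e2 : ∑ i ∈ Finset.Ico j l, g i ≤ ((l - j : ℕ) : ℝ) * K₄ := by
          calc ∑ i ∈ Finset.Ico j l, g i ≤ ∑ i ∈ Finset.Ico j l, K₄ :=
                Finset.sum_le_sum (fun i _ => hgK i)
            _ = ((l - j : ℕ) : ℝ) * K₄ := by simp
        have e3 : Real.exp (-(κ * ∑ i ∈ Finset.Ico l M, g i)) ≤
            Real.exp (-(κ * ∑ i ∈ Finset.Ico j M, g i)) * Real.exp (κ * K₄) ^ (l - j) := by
          rw [← Real.exp_nat_mul, ← Real.exp_add]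
          apply Real.exp_le_exp.2
          rw [e1]
          have := mul_le_mul_of_nonneg_left e2 hκ.le
          nlinarith
        have e4 : (Real.exp (κ * K₄) * b) ^ (l - j) ≤ 1 :=
          pow_le_one₀ (by positivity) hexp
        calc Real.exp (-(κ * ∑ i ∈ Finset.Ico l M, g i)) * a ^ (l - j)
            ≤ (Real.exp (-(κ * ∑ i ∈ Finset.Ico j M, g i)) * Real.exp (κ * K₄) ^ (l - j))
              * a ^ (l - j) := by
              apply mul_le_mul_of_nonneg_right e3 (by positivity)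
          _ = (Real.exp (-(κ * ∑ i ∈ Finset.Ico j M, g i)) * b ^ (l - j)) *
              (Real.exp (κ * K₄) * b) ^ (l - j) := by
              rw [← hbb, mul_pow, mul_pow]
              ring
          _ ≤ (Real.exp (-(κ * ∑ i ∈ Finset.Ico j M, g i)) * b ^ (l - j)) * 1 := by
              apply mul_le_mul_of_nonneg_left e4
              have := Real.exp_pos (-(κ * ∑ i ∈ Finset.Ico j M, g i))
              positivity
          _ = _ := by ring
    have := mul_le_mul_of_nonneg_right hmain (hg j)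
    calc Real.exp (-(κ * ∑ i ∈ Finset.Ico l M, g i)) * (a ^ ((j - l) + (l - j)) * g j)
        = Real.exp (-(κ * ∑ i ∈ Finset.Ico l M, g i)) * a ^ ((j - l) + (l - j)) * g j := by ring
      _ ≤ _ := this
      _ = _ := by ring
  calc ∑ l ∈ Finset.range M, Real.exp (-(κ * ∑ j ∈ Finset.Ico l M, g j)) *
        ∑ j ∈ Finset.range M, (1 / 2 : ℝ) ^ ((((j - l) + (l - j) : ℕ) : ℝ) / 16) * g j
      = ∑ l ∈ Finset.range M, ∑ j ∈ Finset.range M,
        Real.exp (-(κ * ∑ i ∈ Finset.Ico l M, g i)) *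
        ((1 / 2 : ℝ) ^ ((((j - l) + (l - j) : ℕ) : ℝ) / 16) * g j) := by
        apply Finset.sum_congr rfl
        intro l _
        rw [Finset.mul_sum]
    _ ≤ ∑ l ∈ Finset.range M, ∑ j ∈ Finset.range M,
        (g j * Real.exp (-(κ * ∑ i ∈ Finset.Ico j M, g i))) * b ^ ((j - l) + (l - j)) :=
        Finset.sum_le_sum (fun l hl => Finset.sum_le_sum (fun j hj => key l hl j hj))
    _ = ∑ j ∈ Finset.range M, (g j * Real.exp (-(κ * ∑ i ∈ Finset.Ico j M, g i))) *
        ∑ l ∈ Finset.range M, b ^ ((j - l) + (l - j)) := by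
        rw [Finset.sum_comm]
        apply Finset.sum_congr rfl
        intro j _
        exact (Finset.mul_sum _ _ _).symm
    _ ≤ ∑ j ∈ Finset.range M, (g j * Real.exp (-(κ * ∑ i ∈ Finset.Ico j M, g i))) *
        (2 / (1 - b)) := by
        apply Finset.sum_le_sum
        intro j _
        apply mul_le_mul_of_nonneg_left (s4_two hb0.le hb1 j M)
        exact mul_nonneg (hg j) (Real.exp_pos _).le
    _ = (2 / (1 - b)) * ∑ j ∈ Finset.range M,
        g j * Real.exp (-(κ * ∑ i ∈ Finset.Ico j M, g i)) := by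
        rw [← Finset.sum_mul, mul_comm]
    _ ≤ 2 / (1 - b) * (1 / κ) := by
        apply mul_le_mul_of_nonneg_left (s4_tele hκ g M) (by positivity)

/-- The form which is used.
PROOF. `exp(-κ ∑_{Ico (l+1) M} g) ≤ exp(κ K₄) exp(-κ ∑_{Ico l M} g)`. `M = min m J`. `l < M`, `j < M`: `seq_core`. `l < M`, `M ≤ j ≤ J`: at most `K₄ ∑_j a^(j-l) ≤ K a^(M-l)`, summable over `l < M`. `M ≤ l < m`: then `M = J`, the exponential is `1` and
`∑_{j ≤ J} a^(l-j) g j ≤ K a^(l-J)`, summable. -/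
theorem seq_lemma {κ K₄ : ℝ} (hκ : 0 < κ) (hK₄ : 0 < K₄) (h : κ * K₄ ≤ Real.log 2 / 32) :
    ∃ K : ℝ, 0 < K ∧ ∀ (g : ℕ → ℝ) (m J : ℕ), (∀ j, 0 ≤ g j) → (∀ j, g j ≤ K₄) →
    ∑ l ∈ Finset.range m, Real.exp (-(κ * ∑ j ∈ Finset.Ico (l + 1) (min m J), g j)) *
      ∑ j ∈ Finset.range (J + 1), (1 / 2 : ℝ) ^ ((((j - l) + (l - j) : ℕ) : ℝ) / 16) * g j ≤ K := by
  obtain ⟨K, hK, hcore⟩ := seq_core hκ hK₄ h
  set a : ℝ := (1 / 2 : ℝ) ^ (1 / 16 : ℝ) with ha
  have ha0 : 0 < a := Real.rpow_pos_of_pos (by norm_num) _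
  have ha1 : a < 1 := s4_a_lt
  have h1a : 0 < 1 - a := by linarith
  refine ⟨Real.exp (κ * K₄) * K + K₄ * (2 / (1 - a)) * (2 / (1 - a)), by positivity, ?_⟩
  intro g m J hg hgK
  set M := min m J with hM
  have key : ∀ l ∈ Finset.range m, ∀ j ∈ Finset.range (J + 1),
      Real.exp (-(κ * ∑ i ∈ Finset.Ico (l + 1) M, g i)) *
        ((1 / 2 : ℝ) ^ ((((j - l) + (l - j) : ℕ) : ℝ) / 16) * g j) ≤
      (if l < M then (if j < M then Real.exp (κ * K₄) *
        (Real.exp (-(κ * ∑ i ∈ Finset.Ico l M, g i)) *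
        ((1 / 2 : ℝ) ^ ((((j - l) + (l - j) : ℕ) : ℝ) / 16) * g j)) else 0) else 0)
      + K₄ * (a ^ ((M - l) + (l - M)) * a ^ ((M - j) + (j - M))) := by
    intro l hl j hj
    rw [Finset.mem_range] at hl hj
    have hpos : 0 ≤ (1 / 2 : ℝ) ^ ((((j - l) + (l - j) : ℕ) : ℝ) / 16) * g j :=
      mul_nonneg (Real.rpow_nonneg (by norm_num) _) (hg j)
    have hr0 : 0 ≤ K₄ * (a ^ ((M - l) + (l - M)) * a ^ ((M - j) + (j - M))) := by positivity
    by_cases hboth : l < M ∧ j < M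
    · rw [if_pos hboth.1, if_pos hboth.2]
      have e : ∑ i ∈ Finset.Ico l M, g i = g l + ∑ i ∈ Finset.Ico (l + 1) M, g i :=
        Finset.sum_eq_sum_Ico_succ_bot hboth.1 g
      have e2 : Real.exp (-(κ * ∑ i ∈ Finset.Ico (l + 1) M, g i)) ≤
          Real.exp (κ * K₄) * Real.exp (-(κ * ∑ i ∈ Finset.Ico l M, g i)) := by
        rw [← Real.exp_add]
        apply Real.exp_le_exp.2
        rw [e]
        have := mul_le_mul_of_nonneg_left (hgK l) hκ.le
        nlinarith
      have := mul_le_mul_of_nonneg_right e2 hpos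
      rw [mul_assoc] at this
      linarith
    · have hle1 : Real.exp (-(κ * ∑ i ∈ Finset.Ico (l + 1) M, g i)) ≤ 1 := by
        rw [Real.exp_le_one_iff]
        have : 0 ≤ ∑ i ∈ Finset.Ico (l + 1) M, g i := Finset.sum_nonneg (fun i _ => hg i)
        have := mul_nonneg hκ.le this
        linarith
      have hD : (j - l) + (l - j) = ((M - l) + (l - M)) + ((M - j) + (j - M)) := by
        by_cases h1 : l < M
        · have h2 : ¬ j < M := fun h2 => hboth ⟨h1, h2⟩
          omega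
        · have : M = J := by omega
          omega
      have h0 : (0 : ℝ) ≤ (if l < M then (if j < M then Real.exp (κ * K₄) *
        (Real.exp (-(κ * ∑ i ∈ Finset.Ico l M, g i)) *
        ((1 / 2 : ℝ) ^ ((((j - l) + (l - j) : ℕ) : ℝ) / 16) * g j)) else 0) else 0) := by
        have := Real.exp_pos (κ * K₄)
        have := Real.exp_pos (-(κ * ∑ i ∈ Finset.Ico l M, g i))
        split_ifs <;> positivity
      have h2 : Real.exp (-(κ * ∑ i ∈ Finset.Ico (l + 1) M, g i)) *
        ((1 / 2 : ℝ) ^ ((((j - l) + (l - j) : ℕ) : ℝ) / 16) * g j) ≤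
          K₄ * (a ^ ((M - l) + (l - M)) * a ^ ((M - j) + (j - M))) := by
        have h3 : (1 / 2 : ℝ) ^ ((((j - l) + (l - j) : ℕ) : ℝ) / 16) =
            a ^ ((M - l) + (l - M)) * a ^ ((M - j) + (j - M)) := by
          rw [s4_rpow, hD, pow_add]
        have h4 : 0 ≤ a ^ ((M - l) + (l - M)) * a ^ ((M - j) + (j - M)) := by positivity
        calc Real.exp (-(κ * ∑ i ∈ Finset.Ico (l + 1) M, g i)) *
              ((1 / 2 : ℝ) ^ ((((j - l) + (l - j) : ℕ) : ℝ) / 16) * g j)
            ≤ 1 * ((1 / 2 : ℝ) ^ ((((j - l) + (l - j) : ℕ) : ℝ) / 16) * g j) :=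
              mul_le_mul_of_nonneg_right hle1 hpos
          _ = (a ^ ((M - l) + (l - M)) * a ^ ((M - j) + (j - M))) * g j := by rw [one_mul, h3]
          _ ≤ (a ^ ((M - l) + (l - M)) * a ^ ((M - j) + (j - M))) * K₄ :=
              mul_le_mul_of_nonneg_left (hgK j) h4
          _ = _ := by ring
      linarith
  have hsub : Finset.range M ⊆ Finset.range m := by
    intro i hi
    rw [Finset.mem_range] at hi ⊢
    omega
  have hsub2 : Finset.range M ⊆ Finset.range (J + 1) := by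
    intro i hi
    rw [Finset.mem_range] at hi ⊢
    omega
  have hfl : (Finset.range m).filter (fun l => l < M) = Finset.range M := by
    ext i
    rw [Finset.mem_filter, Finset.mem_range, Finset.mem_range]
    omega
  have hfj : (Finset.range (J + 1)).filter (fun l => l < M) = Finset.range M := by
    ext i
    rw [Finset.mem_filter, Finset.mem_range, Finset.mem_range]
    omega
  have hA : ∑ l ∈ Finset.range m, ∑ j ∈ Finset.range (J + 1),
      (if l < M then (if j < M then Real.exp (κ * K₄) *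
        (Real.exp (-(κ * ∑ i ∈ Finset.Ico l M, g i)) *
        ((1 / 2 : ℝ) ^ ((((j - l) + (l - j) : ℕ) : ℝ) / 16) * g j)) else 0) else 0)
      ≤ Real.exp (κ * K₄) * K := by
    have e1 : ∀ l, ∑ j ∈ Finset.range (J + 1),
        (if l < M then (if j < M then Real.exp (κ * K₄) *
        (Real.exp (-(κ * ∑ i ∈ Finset.Ico l M, g i)) *
        ((1 / 2 : ℝ) ^ ((((j - l) + (l - j) : ℕ) : ℝ) / 16) * g j)) else 0) else 0) =
        if l < M then Real.exp (κ * K₄) * (Real.exp (-(κ * ∑ i ∈ Finset.Ico l M, g i)) *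
        ∑ j ∈ Finset.range M, (1 / 2 : ℝ) ^ ((((j - l) + (l - j) : ℕ) : ℝ) / 16) * g j) else 0 := by
      intro l
      by_cases hl : l < M
      · simp only [if_pos hl]
        rw [← Finset.sum_filter, hfj, ← Finset.mul_sum, ← Finset.mul_sum]
      · simp only [if_neg hl]
        simp
    rw [Finset.sum_congr rfl (fun l _ => e1 l), ← Finset.sum_filter, hfl, ← Finset.mul_sum]
    exact mul_le_mul_of_nonneg_left (hcore g M hg hgK) (Real.exp_pos _).le
  have hB : ∑ l ∈ Finset.range m, ∑ j ∈ Finset.range (J + 1),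
      K₄ * (a ^ ((M - l) + (l - M)) * a ^ ((M - j) + (j - M))) ≤
      K₄ * (2 / (1 - a)) * (2 / (1 - a)) := by
    have e2 : ∑ l ∈ Finset.range m, ∑ j ∈ Finset.range (J + 1),
        K₄ * (a ^ ((M - l) + (l - M)) * a ^ ((M - j) + (j - M))) =
        K₄ * ((∑ l ∈ Finset.range m, a ^ ((M - l) + (l - M))) *
          ∑ j ∈ Finset.range (J + 1), a ^ ((M - j) + (j - M))) := by
      rw [Finset.sum_mul_sum, Finset.mul_sum]
      apply Finset.sum_congr rfl
      intro l _
      rw [Finset.mul_sum]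
    rw [e2, mul_assoc]
    apply mul_le_mul_of_nonneg_left _ hK₄.le
    apply mul_le_mul (s4_two ha0.le ha1 M m) (s4_two ha0.le ha1 M (J + 1))
    · exact Finset.sum_nonneg (fun i _ => by positivity)
    · positivity
  calc ∑ l ∈ Finset.range m, Real.exp (-(κ * ∑ j ∈ Finset.Ico (l + 1) M, g j)) *
        ∑ j ∈ Finset.range (J + 1), (1 / 2 : ℝ) ^ ((((j - l) + (l - j) : ℕ) : ℝ) / 16) * g j
      = ∑ l ∈ Finset.range m, ∑ j ∈ Finset.range (J + 1),
        Real.exp (-(κ * ∑ i ∈ Finset.Ico (l + 1) M, g i)) *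
        ((1 / 2 : ℝ) ^ ((((j - l) + (l - j) : ℕ) : ℝ) / 16) * g j) := by
        apply Finset.sum_congr rfl
        intro l _
        rw [Finset.mul_sum]
    _ ≤ ∑ l ∈ Finset.range m, ∑ j ∈ Finset.range (J + 1),
        ((if l < M then (if j < M then Real.exp (κ * K₄) *
        (Real.exp (-(κ * ∑ i ∈ Finset.Ico l M, g i)) *
        ((1 / 2 : ℝ) ^ ((((j - l) + (l - j) : ℕ) : ℝ) / 16) * g j)) else 0) else 0)
      + K₄ * (a ^ ((M - l) + (l - M)) * a ^ ((M - j) + (j - M)))) :=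
        Finset.sum_le_sum (fun l hl => Finset.sum_le_sum (fun j hj => key l hl j hj))
    _ = (∑ l ∈ Finset.range m, ∑ j ∈ Finset.range (J + 1),
        (if l < M then (if j < M then Real.exp (κ * K₄) *
        (Real.exp (-(κ * ∑ i ∈ Finset.Ico l M, g i)) *
        ((1 / 2 : ℝ) ^ ((((j - l) + (l - j) : ℕ) : ℝ) / 16) * g j)) else 0) else 0)) +
        ∑ l ∈ Finset.range m, ∑ j ∈ Finset.range (J + 1),
        K₄ * (a ^ ((M - l) + (l - M)) * a ^ ((M - j) + (j - M))) := by
        rw [← Finset.sum_add_distrib]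
        apply Finset.sum_congr rfl
        intro l _
        rw [← Finset.sum_add_distrib]
    _ ≤ _ := add_le_add hA hB

end Pool.Agent.MPca0fc2.GW
end

section

/-! The operators on functions on the plane, and the integral over the disc. -/

set_option autoImplicit false

open Metric Set MeasureTheory Filter Topology

namespace Pool.Agent.MPca0fc2.RC

/-- `∂f` -/
noncomputable def dz (f : ℂ → ℂ) (z : ℂ) : ℂ :=
  (fderiv ℝ f z 1 - Complex.I * fderiv ℝ f z Complex.I) / 2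

/-- `∂̄f` -/
noncomputable def db (f : ℂ → ℂ) (z : ℂ) : ℂ :=
  (fderiv ℝ f z 1 + Complex.I * fderiv ℝ f z Complex.I) / 2

/-- the Laplacian -/
noncomputable def lap {E : Type} [NormedAddCommGroup E] [NormedSpace ℝ E] (f : ℂ → E) (z : ℂ) : E :=
  fderiv ℝ (fun w => fderiv ℝ f w 1) z 1 + fderiv ℝ (fun w => fderiv ℝ f w Complex.I) z Complex.I

/-- the average over the circle of radius `r` -/
noncomputable def av {E : Type} [NormedAddCommGroup E] [NormedSpace ℝ E] (r : ℝ) (f : ℂ → E) : E :=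
  (2 * Real.pi)⁻¹ • ∫ t in (0 : ℝ)..(2 * Real.pi), f (r * Complex.exp (t * Complex.I))

/-- the integral `(1/2π) ∫ f log (1/|z|) dA` over the unit disc, in polar coordinates -/
noncomputable def JJ {E : Type} [NormedAddCommGroup E] [NormedSpace ℝ E] (f : ℂ → E) : E :=
  ∫ r in (0 : ℝ)..1, (r * Real.log r⁻¹) • av r f

end Pool.Agent.MPca0fc2.RC
end

section

/-! Green's formula in the unit disc. -/

set_option autoImplicit false

open Metric Set MeasureTheory Filter Topology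

namespace Pool.Agent.MPca0fc2.RC

private theorem R1_par {E : Type} [NormedAddCommGroup E] [NormedSpace ℝ E]
    {F F' : ℝ → ℝ → E} {r ε : ℝ} (hε : 0 < ε)
    (hF : ∀ x ∈ ball r ε, Continuous (F x))
    (hd : ∀ x ∈ ball r ε, ∀ t, HasDerivAt (fun x => F x t) (F' x t) x)
    (hF' : ContinuousOn (fun p : ℝ × ℝ => F' p.1 p.2) (ball r ε ×ˢ univ)) :
    HasDerivAt (fun x => ∫ t in (0:ℝ)..(2 * Real.pi), F x t)
      (∫ t in (0:ℝ)..(2 * Real.pi), F' r t) r := by
  have hpi : (0:ℝ) ≤ 2 * Real.pi := by positivity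
  have hK : IsCompact (closedBall r (ε/2) ×ˢ (Icc 0 (2*Real.pi) : Set ℝ)) :=
    (isCompact_closedBall r (ε/2)).prod isCompact_Icc
  have hsub : closedBall r (ε/2) ×ˢ (Icc 0 (2*Real.pi) : Set ℝ) ⊆ ball r ε ×ˢ univ := by
    rintro ⟨x, t⟩ ⟨hx, -⟩
    exact ⟨closedBall_subset_ball (by linarith) hx, mem_univ _⟩
  obtain ⟨C, hC⟩ := hK.exists_bound_of_continuousOn (hF'.mono hsub)
  have hr0 : r ∈ ball r ε := mem_ball_self hε
  have hc' : Continuous (F' r) := by
    rw [← continuousOn_univ]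
    have h1 : ContinuousOn (fun t : ℝ => ((r, t) : ℝ × ℝ)) univ := by fun_prop
    exact hF'.comp h1 (fun t _ => ⟨hr0, mem_univ _⟩)
  refine (intervalIntegral.hasDerivAt_integral_of_dominated_loc_of_deriv_le
    (F := F) (F' := F') (x₀ := r) (s := ball r (ε/2)) (a := 0) (b := 2*Real.pi)
    (bound := fun _ => C) (μ := volume) (ball_mem_nhds r (by positivity)) ?_ ?_ ?_ ?_ ?_ ?_).2
  · filter_upwards [ball_mem_nhds r hε] with x hx
    exact (hF x hx).aestronglyMeasurable
  · exact (hF r hr0).intervalIntegrable _ _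
  · exact hc'.aestronglyMeasurable
  · refine Eventually.of_forall fun t ht x hx => ?_
    rw [uIoc_of_le hpi] at ht
    exact hC (x, t) ⟨ball_subset_closedBall hx, Ioc_subset_Icc_self ht⟩
  · exact intervalIntegrable_const
  · refine Eventually.of_forall fun t _ x hx => hd x ?_ t
    exact ball_subset_ball (by linarith) hx

private theorem R1_mem {R x t : ℝ} (hx : 0 < x) (hxR : x < R) :
    (x : ℂ) * Complex.exp (t * Complex.I) ∈ ball (0 : ℂ) R := by
  rw [mem_ball_zero_iff, norm_mul, Complex.norm_exp_ofReal_mul_I, mul_one, Complex.norm_real,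
    Real.norm_of_nonneg hx.le]
  exact hxR

private theorem R1_dx (x t : ℝ) : HasDerivAt (fun x : ℝ => (x : ℂ) * Complex.exp (t * Complex.I))
    (Complex.exp (t * Complex.I)) x := by
  simpa using (Complex.ofRealCLM.hasDerivAt (x := x)).mul_const (Complex.exp (t * Complex.I))

private theorem R1_dt (t : ℝ) : HasDerivAt (fun t : ℝ => Complex.exp (t * Complex.I))
    (Complex.I * Complex.exp (t * Complex.I)) t := by
  have h1 : HasDerivAt (fun t : ℝ => (t : ℂ) * Complex.I) Complex.I t := by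
    simpa using (Complex.ofRealCLM.hasDerivAt (x := t)).mul_const Complex.I
  have h2 := h1.cexp
  rwa [mul_comm] at h2

/-- The derivative of `r ↦ r M'(r)`, `M r = av r u`.
PROOF. `e = exp (t I)`. Differentiation under the integral sign: `d/dr (du(r e) (r e)) = D²u(r e)(e, r e) + du(r e) e`. The function `t ↦ du(r e)(i r e)` has the period `2π` and the derivative `D²u(r e)(i r e, i r e) - du(r e)(r e)`, so `∫ du(r e)(r e) dt = ∫ D²u(r e)(i r e, i r e) dt`. And `D²u(e, e) + D²u(i e, i e) = lap u`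
(`D²u` is bilinear and symmetric, `e = a + i b`, `a² + b² = 1`). -/
theorem flux {E : Type} [NormedAddCommGroup E] [NormedSpace ℝ E] [CompleteSpace E] {u : ℂ → E}
    {R r : ℝ} (hr : 0 < r) (hR : r < R) (hu : ContDiffOn ℝ 2 u (ball 0 R)) :
    HasDerivAt (fun r : ℝ => (2 * Real.pi)⁻¹ • ∫ t in (0 : ℝ)..(2 * Real.pi),
      fderiv ℝ u (r * Complex.exp (t * Complex.I)) (r * Complex.exp (t * Complex.I)))
      (r • av r (lap u)) r := by
  -- regularity
  have hdu : ContDiffOn ℝ 1 (fderiv ℝ u) (ball 0 R) :=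
    hu.fderiv_of_isOpen isOpen_ball (by norm_num)
  have hd1 : ∀ z ∈ ball (0 : ℂ) R, DifferentiableAt ℝ (fderiv ℝ u) z := fun z hz =>
    (hdu.differentiableOn (by norm_num)).differentiableAt (isOpen_ball.mem_nhds hz)
  have hc1 : ContinuousOn (fderiv ℝ u) (ball 0 R) := hdu.continuousOn
  have hc2 : ContinuousOn (fderiv ℝ (fderiv ℝ u)) (ball 0 R) :=
    hdu.continuousOn_fderiv_of_isOpen isOpen_ball (by norm_num)
  obtain ⟨ε, hε, hε1, hε2⟩ : ∃ ε > 0, ε ≤ r ∧ ε ≤ R - r :=
    ⟨min r (R - r), lt_min hr (by linarith), min_le_left _ _, min_le_right _ _⟩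
  have hball : ∀ x ∈ ball r ε, 0 < x ∧ x < R := by
    intro x hx
    rw [Real.ball_eq_Ioo] at hx
    exact ⟨by linarith [hx.1], by linarith [hx.2]⟩
  set e : ℝ → ℂ := fun t => Complex.exp (t * Complex.I) with he
  have hec : Continuous e := by
    rw [he]; fun_prop
  have hmem : ∀ x ∈ ball r ε, ∀ t : ℝ, (x : ℂ) * e t ∈ ball (0 : ℂ) R := fun x hx t =>
    R1_mem (hball x hx).1 (hball x hx).2
  have hr0 : r ∈ ball r ε := mem_ball_self hε
  have hpc : ContinuousOn (fun p : ℝ × ℝ => (p.1 : ℂ) * e p.2) (ball r ε ×ˢ univ) := by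
    have : Continuous (fun p : ℝ × ℝ => (p.1 : ℂ) * e p.2) := by fun_prop
    exact this.continuousOn
  have hpm : MapsTo (fun p : ℝ × ℝ => (p.1 : ℂ) * e p.2) (ball r ε ×ˢ univ) (ball 0 R) :=
    fun p hp => hmem p.1 hp.1 p.2
  have hxc : ∀ x : ℝ, Continuous (fun t : ℝ => (x : ℂ) * e t) := fun x => by fun_prop
  have key := R1_par (r := r) (F := fun x t => fderiv ℝ u (x * e t) (x * e t))
    (F' := fun x t => fderiv ℝ (fderiv ℝ u) (x * e t) (e t) (x * e t) + fderiv ℝ u (x * e t) (e t))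
    hε ?_ ?_ ?_
  rotate_left
  · intro x hx
    have h1 : Continuous (fun t : ℝ => fderiv ℝ u (x * e t)) := by
      rw [← continuousOn_univ]
      exact hc1.comp (hxc x).continuousOn (fun t _ => hmem x hx t)
    exact h1.clm_apply (hxc x)
  · intro x hx t
    have h1 : HasDerivAt (fun x : ℝ => fderiv ℝ u (x * e t))
        (fderiv ℝ (fderiv ℝ u) (x * e t) (e t)) x :=
      (hd1 _ (hmem x hx t)).hasFDerivAt.comp_hasDerivAt x (R1_dx x t)
    exact h1.clm_apply (R1_dx x t)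
  · have h1 : ContinuousOn (fun p : ℝ × ℝ => fderiv ℝ (fderiv ℝ u) (p.1 * e p.2))
        (ball r ε ×ˢ univ) := hc2.comp hpc hpm
    have h2 : ContinuousOn (fun p : ℝ × ℝ => fderiv ℝ u (p.1 * e p.2))
        (ball r ε ×ˢ univ) := hc1.comp hpc hpm
    have h3 : ContinuousOn (fun p : ℝ × ℝ => e p.2) (ball r ε ×ˢ univ) := by
      have : Continuous (fun p : ℝ × ℝ => e p.2) := by fun_prop
      exact this.continuousOn
    exact ((h1.clm_apply h3).clm_apply hpc).add (h2.clm_apply h3)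
  have hcr1 : Continuous (fun t : ℝ => fderiv ℝ u (r * e t)) := by
    rw [← continuousOn_univ]
    exact hc1.comp (hxc r).continuousOn (fun t _ => hmem r hr0 t)
  have hcr2 : Continuous (fun t : ℝ => fderiv ℝ (fderiv ℝ u) (r * e t)) := by
    rw [← continuousOn_univ]
    exact hc2.comp (hxc r).continuousOn (fun t _ => hmem r hr0 t)
  -- the tangential derivative
  have htan : ∀ t : ℝ, HasDerivAt (fun t : ℝ => fderiv ℝ u (r * e t) (Complex.I * e t))
      (r • fderiv ℝ (fderiv ℝ u) (r * e t) (Complex.I * e t) (Complex.I * e t)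
        - fderiv ℝ u (r * e t) (e t)) t := by
    intro t
    have h1 : HasDerivAt (fun t : ℝ => (r : ℂ) * e t) ((r : ℂ) * (Complex.I * e t)) t :=
      (R1_dt t).const_mul _
    have h2 : HasDerivAt (fun t : ℝ => fderiv ℝ u (r * e t))
        (fderiv ℝ (fderiv ℝ u) (r * e t) ((r : ℂ) * (Complex.I * e t))) t :=
      (hd1 _ (hmem r hr0 t)).hasFDerivAt.comp_hasDerivAt t h1
    have h3 : HasDerivAt (fun t : ℝ => Complex.I * e t) (Complex.I * (Complex.I * e t)) t :=
      (R1_dt t).const_mul _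
    have h4 := h2.clm_apply h3
    have h5 : (r : ℂ) * (Complex.I * e t) = r • (Complex.I * e t) := by
      rw [Complex.real_smul]
    have h6 : Complex.I * (Complex.I * e t) = - e t := by
      rw [← mul_assoc, Complex.I_mul_I]; ring
    rw [h5, h6, map_smul, map_neg, smul_apply] at h4
    rw [sub_eq_add_neg]
    exact h4
  have hIc : Continuous (fun t : ℝ => Complex.I * e t) := by fun_prop
  have hc3 : Continuous (fun t : ℝ => r • fderiv ℝ (fderiv ℝ u) (r * e t) (Complex.I * e t)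
      (Complex.I * e t)) :=
    ((hcr2.clm_apply hIc).clm_apply hIc).const_smul r
  have hc4 : Continuous (fun t : ℝ => fderiv ℝ u (r * e t) (e t)) := hcr1.clm_apply hec
  have hint := intervalIntegral.integral_eq_sub_of_hasDerivAt (a := 0) (b := 2 * Real.pi)
    (fun t _ => htan t) ((hc3.sub hc4).intervalIntegrable _ _)
  have hper : e (2 * Real.pi) = e 0 := by
    simp [he, Complex.exp_two_pi_mul_I]
  rw [hper, sub_self, intervalIntegral.integral_sub (hc3.intervalIntegrable _ _)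
    (hc4.intervalIntegrable _ _), sub_eq_zero] at hint
  -- the Laplacian
  have hlap : ∀ t : ℝ, lap u (r * e t) = fderiv ℝ (fderiv ℝ u) (r * e t) (e t) (e t)
      + fderiv ℝ (fderiv ℝ u) (r * e t) (Complex.I * e t) (Complex.I * e t) := by
    intro t
    have hz := hd1 _ (hmem r hr0 t)
    have h1 : ∀ v w : ℂ, fderiv ℝ (fun z => fderiv ℝ u z v) (r * e t) w
        = fderiv ℝ (fderiv ℝ u) (r * e t) w v := by
      intro v w
      have := (hz.hasFDerivAt.clm_apply (hasFDerivAt_const v ((r : ℂ) * e t))).fderiv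
      rw [this]
      simp
    unfold lap
    rw [h1, h1]
    set B := fderiv ℝ (fderiv ℝ u) (r * e t) with hB
    have h2 : e t = Real.cos t • (1 : ℂ) + Real.sin t • Complex.I := by
      rw [he]
      simp only [Complex.exp_mul_I, Complex.real_smul, mul_one]
      push_cast
      ring
    have h3 : Complex.I * e t = (- Real.sin t) • (1 : ℂ) + Real.cos t • Complex.I := by
      rw [h2]
      simp only [Complex.real_smul, mul_one]
      have := Complex.I_mul_I
      push_cast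
      linear_combination (Complex.sin (t : ℂ)) * this
    rw [h3, h2]
    simp only [map_add, map_smul, add_apply, smul_apply,
      smul_add, smul_smul]
    have h4 := Real.sin_sq_add_cos_sq t
    have h5 : (B 1) 1 + (B Complex.I) Complex.I
        = (Real.sin t ^ 2 + Real.cos t ^ 2) • ((B 1) 1)
          + (Real.sin t ^ 2 + Real.cos t ^ 2) • ((B Complex.I) Complex.I) := by
      rw [h4, one_smul, one_smul]
    rw [h5]
    module
  have hc5 : Continuous (fun t : ℝ => fderiv ℝ (fderiv ℝ u) (r * e t) (e t) (r * e t)) :=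
    (hcr2.clm_apply hec).clm_apply (hxc r)
  have hfin : (∫ t in (0 : ℝ)..(2 * Real.pi),
      (fderiv ℝ (fderiv ℝ u) (r * e t) (e t) (r * e t) + fderiv ℝ u (r * e t) (e t)))
      = r • ∫ t in (0 : ℝ)..(2 * Real.pi), lap u (r * e t) := by
    rw [intervalIntegral.integral_add (hc5.intervalIntegrable _ _)
      (hc4.intervalIntegrable _ _), ← hint, ← intervalIntegral.integral_add
      (hc5.intervalIntegrable _ _) (hc3.intervalIntegrable _ _),
      ← intervalIntegral.integral_smul]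
    refine intervalIntegral.integral_congr fun t _ => ?_
    have h5 : (r : ℂ) * e t = r • e t := by rw [Complex.real_smul]
    rw [hlap t, smul_add]
    congr 1
    conv_lhs => rw [h5]
    rw [map_smul]
    conv_rhs => rw [h5]
  have hav : r • av r (lap u) = (2 * Real.pi)⁻¹ • ∫ t in (0 : ℝ)..(2 * Real.pi),
      (fderiv ℝ (fderiv ℝ u) (r * e t) (e t) (r * e t) + fderiv ℝ u (r * e t) (e t)) := by
    rw [hfin, smul_comm]
    rfl
  rw [hav]
  exact key.const_smul _

/-- The derivative of the average. PROOF. Differentiation under the integral sign. -/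
theorem av_deriv {E : Type} [NormedAddCommGroup E] [NormedSpace ℝ E] [CompleteSpace E] {u : ℂ → E}
    {R r : ℝ} (hr : 0 < r) (hR : r < R) (hu : ContDiffOn ℝ 2 u (ball 0 R)) :
    HasDerivAt (fun r : ℝ => av r u) (r⁻¹ • (2 * Real.pi)⁻¹ • ∫ t in (0 : ℝ)..(2 * Real.pi),
      fderiv ℝ u (r * Complex.exp (t * Complex.I)) (r * Complex.exp (t * Complex.I))) r := by
  have hd0 : ∀ z ∈ ball (0 : ℂ) R, DifferentiableAt ℝ u z := fun z hz =>
    (hu.differentiableOn (by norm_num)).differentiableAt (isOpen_ball.mem_nhds hz)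
  have hc0 : ContinuousOn u (ball 0 R) := hu.continuousOn
  have hc1 : ContinuousOn (fderiv ℝ u) (ball 0 R) :=
    hu.continuousOn_fderiv_of_isOpen isOpen_ball (by norm_num)
  obtain ⟨ε, hε, hε1, hε2⟩ : ∃ ε > 0, ε ≤ r ∧ ε ≤ R - r :=
    ⟨min r (R - r), lt_min hr (by linarith), min_le_left _ _, min_le_right _ _⟩
  have hball : ∀ x ∈ ball r ε, 0 < x ∧ x < R := by
    intro x hx
    rw [Real.ball_eq_Ioo] at hx
    exact ⟨by linarith [hx.1], by linarith [hx.2]⟩
  set e : ℝ → ℂ := fun t => Complex.exp (t * Complex.I) with he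
  have hec : Continuous e := by
    rw [he]; fun_prop
  have hmem : ∀ x ∈ ball r ε, ∀ t : ℝ, (x : ℂ) * e t ∈ ball (0 : ℂ) R := fun x hx t =>
    R1_mem (hball x hx).1 (hball x hx).2
  have hpc : ContinuousOn (fun p : ℝ × ℝ => (p.1 : ℂ) * e p.2) (ball r ε ×ˢ univ) := by
    have : Continuous (fun p : ℝ × ℝ => (p.1 : ℂ) * e p.2) := by fun_prop
    exact this.continuousOn
  have hpm : MapsTo (fun p : ℝ × ℝ => (p.1 : ℂ) * e p.2) (ball r ε ×ˢ univ) (ball 0 R) :=
    fun p hp => hmem p.1 hp.1 p.2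
  have hxc : ∀ x : ℝ, Continuous (fun t : ℝ => (x : ℂ) * e t) := fun x => by fun_prop
  have key := R1_par (r := r) (F := fun x t => u (x * e t))
    (F' := fun x t => fderiv ℝ u (x * e t) (e t)) hε ?_ ?_ ?_
  rotate_left
  · intro x hx
    rw [← continuousOn_univ]
    exact hc0.comp (hxc x).continuousOn (fun t _ => hmem x hx t)
  · intro x hx t
    exact (hd0 _ (hmem x hx t)).hasFDerivAt.comp_hasDerivAt x (R1_dx x t)
  · have h2 : ContinuousOn (fun p : ℝ × ℝ => fderiv ℝ u (p.1 * e p.2))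
        (ball r ε ×ˢ univ) := hc1.comp hpc hpm
    have h3 : ContinuousOn (fun p : ℝ × ℝ => e p.2) (ball r ε ×ˢ univ) := by
      have : Continuous (fun p : ℝ × ℝ => e p.2) := by fun_prop
      exact this.continuousOn
    exact h2.clm_apply h3
  have hfin : r⁻¹ • (2 * Real.pi)⁻¹ • ∫ t in (0 : ℝ)..(2 * Real.pi),
      fderiv ℝ u (r * e t) (r * e t) = (2 * Real.pi)⁻¹ • ∫ t in (0 : ℝ)..(2 * Real.pi),
      fderiv ℝ u (r * e t) (e t) := by
    rw [smul_comm, ← intervalIntegral.integral_smul]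
    congr 1
    refine intervalIntegral.integral_congr fun t _ => ?_
    have h5 : (r : ℂ) * e t = r • e t := by rw [Complex.real_smul]
    have h6 : fderiv ℝ u (r * e t) (r * e t) = r • fderiv ℝ u (r * e t) (e t) := by
      rw [← map_smul, ← h5]
    rw [h6, smul_smul, inv_mul_cancel₀ hr.ne', one_smul]
  change HasDerivAt (fun r : ℝ => av r u) (r⁻¹ • (2 * Real.pi)⁻¹ • ∫ t in (0 : ℝ)..(2 * Real.pi),
      fderiv ℝ u (r * e t) (r * e t)) r
  rw [hfin]
  exact key.const_smul _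

end Pool.Agent.MPca0fc2.RC
end

section

/-! Green's formula in the unit disc. -/

set_option autoImplicit false

open Metric Set MeasureTheory Filter Topology

namespace Pool.Agent.MPca0fc2.RC

private lemma R1b_mem {r : ℝ} (h0 : 0 ≤ r) (h1 : r ≤ 1) (t : ℝ) :
    (r : ℂ) * Complex.exp (t * Complex.I) ∈ closedBall (0 : ℂ) 1 := by
  rw [mem_closedBall_zero_iff, norm_mul, Complex.norm_exp_ofReal_mul_I, mul_one,
    Complex.norm_real, Real.norm_of_nonneg h0]
  exact h1

private lemma R1b_cont {E : Type} [NormedAddCommGroup E] [NormedSpace ℝ E] {f : ℂ → E}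
    (hf : ContinuousOn f (closedBall 0 1)) : ContinuousOn (fun r => av r f) (Icc 0 1) := by
  have h1 : Continuous (Function.uncurry fun (r t : ℝ) =>
      f (((projIcc (0 : ℝ) 1 zero_le_one r : ℝ) : ℂ) * Complex.exp (t * Complex.I))) := by
    refine hf.comp_continuous ?_ fun q => ?_
    · have h2 : Continuous fun q : ℝ × ℝ => ((projIcc (0 : ℝ) 1 zero_le_one q.1 : Icc (0 : ℝ) 1) : ℝ) :=
        continuous_subtype_val.comp (continuous_projIcc.comp continuous_fst)
      exact (Complex.continuous_ofReal.comp h2).mul (by fun_prop)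
    · exact R1b_mem (projIcc (0 : ℝ) 1 zero_le_one q.1).2.1 (projIcc (0 : ℝ) 1 zero_le_one q.1).2.2 _
  have h2 := intervalIntegral.continuous_parametric_intervalIntegral_of_continuous'
    (μ := volume) h1 0 (2 * Real.pi)
  have h3 : Continuous fun r : ℝ => av (projIcc (0 : ℝ) 1 zero_le_one r : ℝ) f :=
    h2.const_smul (2 * Real.pi)⁻¹
  refine h3.continuousOn.congr fun r hr => ?_
  beta_reduce
  rw [projIcc_of_mem zero_le_one hr]

private lemma R1b_log : Continuous fun r : ℝ => r * Real.log r⁻¹ := by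
  have h1 : (fun r : ℝ => r * Real.log r⁻¹) = fun r => -(r * Real.log r) := by
    funext r
    rw [Real.log_inv, mul_neg]
  rw [h1]
  exact Real.continuous_mul_log.neg

private lemma R1b_lap {E : Type} [NormedAddCommGroup E] [NormedSpace ℝ E] {u : ℂ → E}
    {R : ℝ} (hu : ContDiffOn ℝ 2 u (ball 0 R)) : ContinuousOn (lap u) (ball 0 R) := by
  have h1 : ContDiffOn ℝ 1 (fderiv ℝ u) (ball 0 R) :=
    hu.fderiv_of_isOpen isOpen_ball (by norm_num)
  have h2 : ∀ v : ℂ, ContinuousOn (fun z => fderiv ℝ (fun w => fderiv ℝ u w v) z v)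
      (ball 0 R) := by
    intro v
    have h3 : ContDiffOn ℝ 1 (fun w => fderiv ℝ u w v) (ball 0 R) :=
      h1.clm_apply contDiffOn_const
    have h4 : ContDiffOn ℝ 0 (fderiv ℝ (fun w => fderiv ℝ u w v)) (ball 0 R) :=
      h3.fderiv_of_isOpen isOpen_ball (by norm_num)
    exact h4.continuousOn.clm_apply continuousOn_const
  exact (h2 1).add (h2 Complex.I)

/-- Green's formula.
PROOF. Let `Φ r` be the flux (the function of `flux`), `M r = av r u`: `M' = Φ / r` (`av_deriv`), `Φ' = r av r (lap u)` (`flux`). The function `H r = M r + Φ r log r⁻¹` on `(0, 1]` has the derivative `Φ / r + Φ' log r⁻¹ - Φ / r = (r log r⁻¹) av r (lap u)`.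
`H 1 = M 1 = av 1 u`, and `H r → u 0` for `r → 0`: `M r → u 0` by the continuity of `u` at `0`, and `‖Φ r‖ ≤ K r` (`‖du‖ ≤ K` on the closed ball of radius `1`), `r log r⁻¹ → 0`. Integrate over `[s, 1]` and let `s → 0` (`r log r⁻¹ av r (lap u)` is bounded and continuous on `(0, 1]`, so it is interval integrable). -/
theorem green {E : Type} [NormedAddCommGroup E] [NormedSpace ℝ E] [CompleteSpace E] {u : ℂ → E}
    {R : ℝ} (hR : 1 < R) (hu : ContDiffOn ℝ 2 u (ball 0 R)) : av 1 u - u 0 = JJ (lap u) := by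
  have hsub : closedBall (0 : ℂ) 1 ⊆ ball 0 R := closedBall_subset_ball hR
  have hlap : ContinuousOn (lap u) (closedBall 0 1) := (R1b_lap hu).mono hsub
  have hucont : ContinuousOn u (closedBall 0 1) := hu.continuousOn.mono hsub
  have hdu : ContinuousOn (fderiv ℝ u) (closedBall 0 1) :=
    (hu.continuousOn_fderiv_of_isOpen isOpen_ball (by norm_num)).mono hsub
  obtain ⟨K, hK⟩ := (isCompact_closedBall (0 : ℂ) 1).exists_bound_of_continuousOn hdu
  set Φ : ℝ → E := fun r => (2 * Real.pi)⁻¹ • ∫ t in (0 : ℝ)..(2 * Real.pi),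
    fderiv ℝ u (r * Complex.exp (t * Complex.I)) (r * Complex.exp (t * Complex.I)) with hΦ
  have hΦK : ∀ r ∈ Ioo (0 : ℝ) 1, ‖Φ r‖ ≤ K * r := by
    intro r hr
    rw [hΦ]
    beta_reduce
    rw [norm_smul, Real.norm_of_nonneg (by positivity)]
    have h1 : ‖∫ t in (0 : ℝ)..(2 * Real.pi),
        fderiv ℝ u (r * Complex.exp (t * Complex.I)) (r * Complex.exp (t * Complex.I))‖ ≤
        K * r * |2 * Real.pi - 0| := by
      refine intervalIntegral.norm_integral_le_of_norm_le_const fun t _ => ?_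
      have h2 := hK _ (R1b_mem hr.1.le hr.2.le t)
      refine (ContinuousLinearMap.le_opNorm _ _).trans ?_
      rw [norm_mul, Complex.norm_exp_ofReal_mul_I, mul_one, Complex.norm_real,
        Real.norm_of_nonneg hr.1.le]
      exact mul_le_mul_of_nonneg_right h2 hr.1.le
    rw [sub_zero, abs_of_pos (by positivity)] at h1
    calc (2 * Real.pi)⁻¹ * _ ≤ (2 * Real.pi)⁻¹ * (K * r * (2 * Real.pi)) :=
          mul_le_mul_of_nonneg_left h1 (by positivity)
      _ = K * r := by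
          field_simp
  have hder : ∀ r : ℝ, 0 < r → r < R → HasDerivAt (fun r => av r u + Real.log r⁻¹ • Φ r)
      ((r * Real.log r⁻¹) • av r (lap u)) r := by
    intro r h0 h1
    have e1 := av_deriv h0 h1 hu
    have e2 := flux h0 h1 hu
    have e3 : HasDerivAt (fun r : ℝ => Real.log r⁻¹) (-r⁻¹) r := by
      have h2 : (fun r : ℝ => Real.log r⁻¹) = fun r => -Real.log r := by
        funext r
        exact Real.log_inv r
      rw [h2]
      exact (Real.hasDerivAt_log h0.ne').neg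
    have e4 := e1.add (e3.smul e2)
    refine e4.congr_deriv ?_
    have h5 : ∀ (a b c : ℝ) (x y : E), a • x + (b • c • y + (-a) • x) = (c * b) • y := by
      intro a b c x y
      rw [neg_smul, smul_smul, mul_comm b c]
      abel
    exact h5 r⁻¹ (Real.log r⁻¹) r (Φ r) (av r (lap u))
  have hint : IntervalIntegrable (fun r : ℝ => (r * Real.log r⁻¹) • av r (lap u)) volume 0 1 := by
    refine ContinuousOn.intervalIntegrable ?_
    rw [uIcc_of_le zero_le_one]
    exact R1b_log.continuousOn.smul (R1b_cont hlap)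
  have hav0 : av 0 u = u 0 := by
    unfold av
    simp only [Complex.ofReal_zero, zero_mul]
    rw [intervalIntegral.integral_const, smul_smul, sub_zero, inv_mul_cancel₀ (by positivity),
      one_smul]
  have hlim0 : Tendsto (fun r => av r u + Real.log r⁻¹ • Φ r) (𝓝[>] 0) (𝓝 (u 0)) := by
    have h1 : Tendsto (fun r => av r u) (𝓝[>] 0) (𝓝 (u 0)) := by
      have h2 := (R1b_cont hucont) 0 (left_mem_Icc.2 zero_le_one)
      unfold ContinuousWithinAt at h2
      beta_reduce at h2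
      rw [hav0] at h2
      refine h2.mono_left ?_
      rw [← nhdsWithin_Ioo_eq_nhdsGT (zero_lt_one (α := ℝ))]
      exact nhdsWithin_mono _ Ioo_subset_Icc_self
    have h3 : Tendsto (fun r => Real.log r⁻¹ • Φ r) (𝓝[>] 0) (𝓝 0) := by
      have h4 : Tendsto (fun r : ℝ => K * (r * Real.log r⁻¹)) (𝓝[>] 0) (𝓝 0) := by
        have h5 := (R1b_log.tendsto 0).const_mul K
        simp only [zero_mul, mul_zero] at h5
        exact h5.mono_left nhdsWithin_le_nhds
      refine squeeze_zero_norm' ?_ h4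
      rw [← nhdsWithin_Ioo_eq_nhdsGT (zero_lt_one (α := ℝ))]
      filter_upwards [self_mem_nhdsWithin] with r hr
      rw [norm_smul]
      have h6 : 0 ≤ Real.log r⁻¹ := by
        rw [Real.log_inv]
        exact neg_nonneg.2 (Real.log_nonpos hr.1.le hr.2.le)
      rw [Real.norm_of_nonneg h6]
      calc Real.log r⁻¹ * ‖Φ r‖ ≤ Real.log r⁻¹ * (K * r) :=
            mul_le_mul_of_nonneg_left (hΦK r hr) h6
        _ = K * (r * Real.log r⁻¹) := by ring
    have h7 := h1.add h3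
    rw [add_zero] at h7
    exact h7
  have hlim1 : Tendsto (fun r => av r u + Real.log r⁻¹ • Φ r) (𝓝[<] 1) (𝓝 (av 1 u)) := by
    have h1 := (hder 1 zero_lt_one hR).continuousAt.tendsto
    rw [inv_one, Real.log_one, zero_smul, add_zero] at h1
    exact h1.mono_left nhdsWithin_le_nhds
  have key := intervalIntegral.integral_eq_sub_of_hasDerivAt_of_tendsto zero_lt_one
    (fun r hr => hder r hr.1 (hr.2.trans hR)) hint hlim0 hlim1
  unfold JJ
  exact key.symm

end Pool.Agent.MPca0fc2.RC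
end

section

/-! Elementary properties of the averages. -/

set_option autoImplicit false

open Metric Set MeasureTheory Filter Topology

namespace Pool.Agent.MPca0fc2.RC

private lemma R2_mem {r : ℝ} (h0 : 0 ≤ r) (h1 : r ≤ 1) (t : ℝ) :
    (r : ℂ) * Complex.exp (t * Complex.I) ∈ closedBall (0 : ℂ) 1 := by
  rw [mem_closedBall_zero_iff, norm_mul, Complex.norm_exp_ofReal_mul_I, mul_one,
    Complex.norm_real, Real.norm_of_nonneg h0]
  exact h1

private lemma R2_mem1 (t : ℝ) :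
    ((1 : ℝ) : ℂ) * Complex.exp (t * Complex.I) ∈ sphere (0 : ℂ) 1 := by
  rw [mem_sphere_zero_iff_norm, norm_mul, Complex.norm_exp_ofReal_mul_I, mul_one,
    Complex.norm_real, norm_one]

private lemma R2_int {E : Type} [NormedAddCommGroup E] {f : ℂ → E} {S : Set ℂ}
    (hf : ContinuousOn f S) {r : ℝ} (h : ∀ t : ℝ, (r : ℂ) * Complex.exp (t * Complex.I) ∈ S)
    (a b : ℝ) :
    IntervalIntegrable (fun t : ℝ => f (r * Complex.exp (t * Complex.I))) volume a b := by
  have h1 : Continuous fun t : ℝ => f (r * Complex.exp (t * Complex.I)) :=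
    hf.comp_continuous (by fun_prop) h
  exact h1.intervalIntegrable a b

private lemma R2_mono {f g : ℂ → ℝ} {S : Set ℂ} (hf : ContinuousOn f S) (hg : ContinuousOn g S)
    (h : ∀ z ∈ S, f z ≤ g z) {r : ℝ} (hr : ∀ t : ℝ, (r : ℂ) * Complex.exp (t * Complex.I) ∈ S) :
    av r f ≤ av r g := by
  unfold av
  rw [smul_eq_mul, smul_eq_mul]
  refine mul_le_mul_of_nonneg_left ?_ (by positivity)
  exact intervalIntegral.integral_mono_on (by positivity) (R2_int hf hr _ _) (R2_int hg hr _ _)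
    fun t _ => h _ (hr t)

private lemma R2_norm {f : ℂ → ℂ} {g : ℂ → ℝ} {S : Set ℂ} (hg : ContinuousOn g S)
    (h : ∀ z ∈ S, ‖f z‖ ≤ g z) {r : ℝ}
    (hr : ∀ t : ℝ, (r : ℂ) * Complex.exp (t * Complex.I) ∈ S) : ‖av r f‖ ≤ av r g := by
  unfold av
  rw [norm_smul, smul_eq_mul, Real.norm_of_nonneg (by positivity)]
  refine mul_le_mul_of_nonneg_left ?_ (by positivity)
  exact intervalIntegral.norm_integral_le_of_norm_le (by positivity)
    (Filter.Eventually.of_forall fun t _ => h _ (hr t)) (R2_int hg hr _ _)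

private lemma R2_lin {E : Type} [NormedAddCommGroup E] [NormedSpace ℝ E] {f g : ℂ → E} {S : Set ℂ}
    (hf : ContinuousOn f S) (hg : ContinuousOn g S) (a b : ℝ) {r : ℝ}
    (hr : ∀ t : ℝ, (r : ℂ) * Complex.exp (t * Complex.I) ∈ S) :
    av r (fun z => a • f z + b • g z) = a • av r f + b • av r g := by
  unfold av
  beta_reduce
  have h1 : IntervalIntegrable (fun t : ℝ => a • f (r * Complex.exp (t * Complex.I))) volume 0
      (2 * Real.pi) := (R2_int hf hr _ _).smul a
  have h2 : IntervalIntegrable (fun t : ℝ => b • g (r * Complex.exp (t * Complex.I))) volume 0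
      (2 * Real.pi) := (R2_int hg hr _ _).smul b
  rw [intervalIntegral.integral_add h1 h2,
    intervalIntegral.integral_smul, intervalIntegral.integral_smul, smul_add, smul_comm _ a,
    smul_comm _ b]

private lemma R2_cont {E : Type} [NormedAddCommGroup E] [NormedSpace ℝ E] {f : ℂ → E}
    (hf : ContinuousOn f (closedBall 0 1)) : ContinuousOn (fun r => av r f) (Icc 0 1) := by
  have h1 : Continuous (Function.uncurry fun (r t : ℝ) =>
      f (((projIcc (0 : ℝ) 1 zero_le_one r : ℝ) : ℂ) * Complex.exp (t * Complex.I))) := by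
    refine hf.comp_continuous ?_ fun q => ?_
    · have h2 : Continuous fun q : ℝ × ℝ => ((projIcc (0 : ℝ) 1 zero_le_one q.1 : Icc (0 : ℝ) 1) : ℝ) :=
        continuous_subtype_val.comp (continuous_projIcc.comp continuous_fst)
      exact (Complex.continuous_ofReal.comp h2).mul (by fun_prop)
    · exact R2_mem (projIcc (0 : ℝ) 1 zero_le_one q.1).2.1 (projIcc (0 : ℝ) 1 zero_le_one q.1).2.2 _
  have h2 := intervalIntegral.continuous_parametric_intervalIntegral_of_continuous'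
    (μ := volume) h1 0 (2 * Real.pi)
  have h3 : Continuous fun r : ℝ => av (projIcc (0 : ℝ) 1 zero_le_one r : ℝ) f :=
    h2.const_smul (2 * Real.pi)⁻¹
  refine h3.continuousOn.congr fun r hr => ?_
  beta_reduce
  rw [projIcc_of_mem zero_le_one hr]

private lemma R2_log : Continuous fun r : ℝ => r * Real.log r⁻¹ := by
  have h1 : (fun r : ℝ => r * Real.log r⁻¹) = fun r => -(r * Real.log r) := by
    funext r
    rw [Real.log_inv, mul_neg]
  rw [h1]
  exact Real.continuous_mul_log.neg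

private lemma R2_logpos {r : ℝ} (h0 : 0 ≤ r) (h1 : r ≤ 1) : 0 ≤ r * Real.log r⁻¹ := by
  rw [Real.log_inv]
  exact mul_nonneg h0 (neg_nonneg.2 (Real.log_nonpos h0 h1))

private lemma R2_JJint {E : Type} [NormedAddCommGroup E] [NormedSpace ℝ E] {f : ℂ → E}
    (hf : ContinuousOn f (closedBall 0 1)) :
    IntervalIntegrable (fun r : ℝ => (r * Real.log r⁻¹) • av r f) volume 0 1 := by
  refine ContinuousOn.intervalIntegrable ?_
  rw [uIcc_of_le zero_le_one]
  exact R2_log.continuousOn.smul (R2_cont hf)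

/-- PROOF. `r log r⁻¹ ≥ 0` on `[0, 1]`; `r ↦ av r f` is continuous on `[0, 1]` for `f` continuous on the closed ball, and `r ↦ r log r⁻¹` is continuous (`Real.continuous_mul_log`, `log r⁻¹ = - log r`). -/
theorem JJ_mono {f g : ℂ → ℝ} (hf : ContinuousOn f (closedBall 0 1))
    (hg : ContinuousOn g (closedBall 0 1)) (h : ∀ z ∈ closedBall (0 : ℂ) 1, f z ≤ g z) :
    JJ f ≤ JJ g := by
  unfold JJ
  refine intervalIntegral.integral_mono_on zero_le_one (R2_JJint hf) (R2_JJint hg) fun r hr => ?_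
  rw [smul_eq_mul, smul_eq_mul]
  exact mul_le_mul_of_nonneg_left (R2_mono hf hg h (R2_mem hr.1 hr.2)) (R2_logpos hr.1 hr.2)

theorem JJ_norm {f : ℂ → ℂ} {g : ℂ → ℝ} (hf : ContinuousOn f (closedBall 0 1))
    (hg : ContinuousOn g (closedBall 0 1)) (h : ∀ z ∈ closedBall (0 : ℂ) 1, ‖f z‖ ≤ g z) :
    ‖JJ f‖ ≤ JJ g := by
  unfold JJ
  refine intervalIntegral.norm_integral_le_of_norm_le zero_le_one
    (Filter.Eventually.of_forall fun r hr => ?_) (R2_JJint hg)
  rw [norm_smul, smul_eq_mul, Real.norm_of_nonneg (R2_logpos hr.1.le hr.2)]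
  exact mul_le_mul_of_nonneg_left (R2_norm hg h (R2_mem hr.1.le hr.2)) (R2_logpos hr.1.le hr.2)

theorem JJ_lin {f g : ℂ → ℝ} (hf : ContinuousOn f (closedBall 0 1))
    (hg : ContinuousOn g (closedBall 0 1)) (a b : ℝ) :
    JJ (fun z => a * f z + b * g z) = a * JJ f + b * JJ g := by
  unfold JJ
  have h1 : ∀ r ∈ uIcc (0 : ℝ) 1, (r * Real.log r⁻¹) • av r (fun z => a * f z + b * g z) =
      a * ((r * Real.log r⁻¹) • av r f) + b * ((r * Real.log r⁻¹) • av r g) := by
    intro r hr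
    rw [uIcc_of_le zero_le_one] at hr
    have h2 := R2_lin hf hg a b (R2_mem hr.1 hr.2)
    simp only [smul_eq_mul] at h2 ⊢
    rw [h2]
    ring
  rw [intervalIntegral.integral_congr h1, intervalIntegral.integral_add
    ((R2_JJint hf).const_mul a) ((R2_JJint hg).const_mul b), intervalIntegral.integral_const_mul,
    intervalIntegral.integral_const_mul]

theorem av_mono {f g : ℂ → ℝ} (hf : ContinuousOn f (sphere 0 1))
    (hg : ContinuousOn g (sphere 0 1)) (h : ∀ z ∈ sphere (0 : ℂ) 1, f z ≤ g z) :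
    av 1 f ≤ av 1 g := by
  exact R2_mono hf hg h R2_mem1

theorem av_norm {f : ℂ → ℂ} {g : ℂ → ℝ} (hf : ContinuousOn f (sphere 0 1))
    (hg : ContinuousOn g (sphere 0 1)) (h : ∀ z ∈ sphere (0 : ℂ) 1, ‖f z‖ ≤ g z) :
    ‖av 1 f‖ ≤ av 1 g := by
  exact R2_norm hg h R2_mem1

theorem av_lin {E : Type} [NormedAddCommGroup E] [NormedSpace ℝ E] {f g : ℂ → E}
    (hf : ContinuousOn f (sphere 0 1)) (hg : ContinuousOn g (sphere 0 1)) (a b : ℝ) :
    av 1 (fun z => a • f z + b • g z) = a • av 1 f + b • av 1 g := by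
  exact R2_lin hf hg a b R2_mem1

theorem av_const {E : Type} [NormedAddCommGroup E] [NormedSpace ℝ E] [CompleteSpace E] (c : E)
    (r : ℝ) : av r (fun _ => c) = c := by
  unfold av
  rw [intervalIntegral.integral_const, smul_smul, sub_zero, inv_mul_cancel₀ (by positivity),
    one_smul]

end Pool.Agent.MPca0fc2.RC
end

section

/-! The calculus of the operators `dz`, `db` and `lap`. -/

set_option autoImplicit false

open Metric Set MeasureTheory Filter Topology

namespace Pool.Agent.MPca0fc2.RC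

private lemma R3_fd {g : ℂ → ℂ} {z : ℂ} (hg : DifferentiableAt ℂ g z) (X : ℂ) :
    fderiv ℝ g z X = X * deriv g z := by
  rw [hg.fderiv_restrictScalars ℝ]
  simp [fderiv_eq_smul_deriv]

/-- PROOF. `fderiv ℝ g z` is the multiplication by `deriv g z`. -/
theorem db_hol {g : ℂ → ℂ} {z : ℂ} (hg : DifferentiableAt ℂ g z) : db g z = 0 := by
  unfold db
  rw [R3_fd hg, R3_fd hg, ← mul_assoc, Complex.I_mul_I]
  ring

theorem dz_hol {g : ℂ → ℂ} {z : ℂ} (hg : DifferentiableAt ℂ g z) : dz g z = deriv g z := by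
  unfold dz
  rw [R3_fd hg, R3_fd hg, ← mul_assoc, Complex.I_mul_I]
  ring

theorem db_mul {f g : ℂ → ℂ} {z : ℂ} (hf : DifferentiableAt ℝ f z) (hg : DifferentiableAt ℝ g z) :
    db (fun z => f z * g z) z = db f z * g z + f z * db g z := by
  unfold db
  rw [fderiv_fun_mul hf hg]
  simp only [add_apply, smul_apply, smul_eq_mul]
  ring

theorem dz_mul {f g : ℂ → ℂ} {z : ℂ} (hf : DifferentiableAt ℝ f z) (hg : DifferentiableAt ℝ g z) :
    dz (fun z => f z * g z) z = dz f z * g z + f z * dz g z := by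
  unfold dz
  rw [fderiv_fun_mul hf hg]
  simp only [add_apply, smul_apply, smul_eq_mul]
  ring

private lemma R3_ev {E : Type} [NormedAddCommGroup E] [NormedSpace ℝ E] {f : ℂ → E} {z : ℂ}
    (hf : ContDiffAt ℝ 2 f z) : DifferentiableAt ℝ (fderiv ℝ f) z :=
  (hf.fderiv_right (m := 1) (by norm_num)).differentiableAt one_ne_zero

private lemma R3_ap {E : Type} [NormedAddCommGroup E] [NormedSpace ℝ E] {f : ℂ → E} {z : ℂ}
    (hf : ContDiffAt ℝ 2 f z) (X : ℂ) : DifferentiableAt ℝ (fun w => fderiv ℝ f w X) z :=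
  (R3_ev hf).clm_apply (differentiableAt_const X)

private lemma R3_ap2 {E : Type} [NormedAddCommGroup E] [NormedSpace ℝ E] {f : ℂ → E} {z : ℂ}
    (hf : ContDiffAt ℝ 2 f z) (X Y : ℂ) :
    fderiv ℝ (fun w => fderiv ℝ f w X) z Y = fderiv ℝ (fderiv ℝ f) z Y X := by
  rw [fderiv_clm_apply (R3_ev hf) (differentiableAt_const X)]
  simp

/-- PROOF. The definitions, and the symmetry of the second derivative (`second_derivative_symmetric` or `ContDiffAt.isSymmSndFDerivAt`). -/
theorem lap_eq {f : ℂ → ℂ} {z : ℂ} (hf : ContDiffAt ℝ 2 f z) : lap f z = 4 * dz (db f) z := by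
  have hs : IsSymmSndFDerivAt ℝ f z := hf.isSymmSndFDerivAt (by simp)
  have hs1 := hs 1 Complex.I
  have hA := (R3_ap hf 1).hasFDerivAt
  have hB := (R3_ap hf Complex.I).hasFDerivAt
  have hd : HasFDerivAt (db f) ((2 : ℂ)⁻¹ • (fderiv ℝ (fun w => fderiv ℝ f w 1) z +
      Complex.I • fderiv ℝ (fun w => fderiv ℝ f w Complex.I) z)) z := by
    have := (hA.add (hB.const_mul Complex.I)).const_mul (2 : ℂ)⁻¹
    refine this.congr_of_eventuallyEq (Eventually.of_forall fun w => ?_)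
    simp only [db, Pi.add_apply]
    ring
  unfold dz lap
  rw [hd.fderiv]
  simp only [add_apply, smul_apply, smul_eq_mul]
  rw [R3_ap2 hf, R3_ap2 hf, R3_ap2 hf, R3_ap2 hf, hs1]
  linear_combination (fderiv ℝ (fderiv ℝ f) z Complex.I Complex.I) * Complex.I_mul_I

/-- A differentiable function with `db f = 0` is holomorphic. PROOF. Cauchy-Riemann: `fderiv ℝ f z` commutes with `i` (`db f z = 0` means `df(i) = i df(1)`). -/
theorem hol_of_db {f : ℂ → ℂ} {z : ℂ} (hf : DifferentiableAt ℝ f z) (h : db f z = 0) :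
    DifferentiableAt ℂ f z := by
  refine differentiableAt_complex_iff_differentiableAt_real.2 ⟨hf, ?_⟩
  unfold db at h
  rw [smul_eq_mul]
  linear_combination (-2 * Complex.I) * h + (fderiv ℝ f z Complex.I) * Complex.I_mul_I

private lemma R3_pr {a b : ℂ → ℂ} {w : ℂ} (ha : DifferentiableAt ℂ a w)
    (hb : DifferentiableAt ℂ b w) (X : ℂ) :
    fderiv ℝ (fun w => ((starRingEnd ℂ) (a w) * b w).re) w X =
      ((starRingEnd ℂ) (X * deriv a w) * b w + (starRingEnd ℂ) (a w) * (X * deriv b w)).re := by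
  have ha' : DifferentiableAt ℝ a w := ha.restrictScalars ℝ
  have hb' : DifferentiableAt ℝ b w := hb.restrictScalars ℝ
  have h1 : HasFDerivAt (fun w => (starRingEnd ℂ) (a w))
      ((Complex.conjCLE : ℂ →L[ℝ] ℂ) ∘L fderiv ℝ a w) w :=
    (Complex.conjCLE : ℂ →L[ℝ] ℂ).hasFDerivAt.comp w ha'.hasFDerivAt
  have h2 := h1.mul hb'.hasFDerivAt
  have h3 := Complex.reCLM.hasFDerivAt.comp w h2
  have h4 : fderiv ℝ (fun w => ((starRingEnd ℂ) (a w) * b w).re) w = _ := h3.fderiv
  rw [h4]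
  simp only [ContinuousLinearMap.comp_apply, add_apply,
    smul_apply, smul_eq_mul, Complex.reCLM_apply, R3_fd ha, R3_fd hb]
  congr 1
  simp only [ContinuousLinearEquiv.coe_coe, Complex.conjCLE_apply]
  ring

private lemma R3_sq {g : ℂ → ℂ} {z : ℂ} (hg : AnalyticAt ℂ g z) :
    ContDiffAt ℝ 2 (fun z => ‖g z‖ ^ 2) z ∧
      lap (fun z => ‖g z‖ ^ 2) z = 4 * ‖deriv g z‖ ^ 2 := by
  have hd : AnalyticAt ℂ (deriv g) z := hg.deriv
  have h0 : ∀ (w : ℂ), ‖g w‖ ^ 2 = ((starRingEnd ℂ) (g w) * g w).re := by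
    intro w
    rw [← Complex.normSq_eq_conj_mul_self, Complex.ofReal_re, Complex.normSq_eq_norm_sq]
  have h1 : ∀ X : ℂ, ∀ᶠ w in 𝓝 z, fderiv ℝ (fun z => ‖g z‖ ^ 2) w X =
      ((starRingEnd ℂ) (g w) * (2 * X * deriv g w)).re := by
    intro X
    filter_upwards [hg.eventually_analyticAt] with w hw
    have : (fun z => ‖g z‖ ^ 2) = fun w => ((starRingEnd ℂ) (g w) * g w).re := funext h0
    rw [this, R3_pr hw.differentiableAt hw.differentiableAt]
    simp only [map_mul, Complex.add_re, Complex.mul_re, Complex.conj_re, Complex.conj_im,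
      Complex.mul_im, Complex.re_ofNat, Complex.im_ofNat]
    ring
  refine ⟨?_, ?_⟩
  · have h3 : ContDiffAt ℝ 2 g z := (hg.contDiffAt (n := 2)).restrict_scalars ℝ
    exact h3.norm_sq ℝ
  · unfold lap
    rw [Filter.EventuallyEq.fderiv_eq (h1 1), Filter.EventuallyEq.fderiv_eq (h1 Complex.I)]
    have hb : ∀ X : ℂ, DifferentiableAt ℂ (fun w => 2 * X * deriv g w) z := fun X =>
      (differentiableAt_const _).mul hd.differentiableAt
    rw [R3_pr hg.differentiableAt (hb 1), R3_pr hg.differentiableAt (hb Complex.I)]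
    have h5 : ∀ X : ℂ, deriv (fun w => 2 * X * deriv g w) z = 2 * X * deriv (deriv g) z :=
      fun X => deriv_const_mul _ hd.differentiableAt
    rw [h5, h5, ← Complex.normSq_eq_norm_sq, Complex.normSq_apply]
    simp only [map_mul, Complex.add_re, Complex.mul_re, Complex.conj_re, Complex.conj_im,
      Complex.mul_im, Complex.re_ofNat, Complex.im_ofNat, Complex.I_re, Complex.I_im,
      Complex.one_re, Complex.one_im, map_one, Complex.conj_I]
    simp
    ring

private lemma R3_lap_sum {N : ℕ} {f : Fin N → ℂ → ℝ} {z : ℂ}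
    (hf : ∀ j, ContDiffAt ℝ 2 (f j) z) :
    lap (fun z => ∑ j, f j z) z = ∑ j, lap (f j) z := by
  have h1 : ∀ X : ℂ, ∀ᶠ w in 𝓝 z, fderiv ℝ (fun z => ∑ j, f j z) w X =
      ∑ j, fderiv ℝ (f j) w X := by
    intro X
    have h2 : ∀ j, ∀ᶠ w in 𝓝 z, DifferentiableAt ℝ (f j) w := by
      intro j
      have h3 : ∀ᶠ w in 𝓝 z, ContDiffAt ℝ 2 (f j) w := (hf j).eventually (by simp)
      exact h3.mono fun w hw => hw.differentiableAt two_ne_zero
    filter_upwards [eventually_all.2 h2] with w hw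
    rw [fderiv_fun_sum fun j _ => hw j]
    simp
  unfold lap
  rw [Filter.EventuallyEq.fderiv_eq (h1 1), Filter.EventuallyEq.fderiv_eq (h1 Complex.I),
    fderiv_fun_sum fun j _ => R3_ap (hf j) 1,
    fderiv_fun_sum fun j _ => R3_ap (hf j) Complex.I]
  simp [Finset.sum_add_distrib]

/-- PROOF. `‖G z‖² = G conj G`; `lap` of it is `4 ‖G'‖²` (write `‖G‖² = (Re G)² + (Im G)²`, with `D(Re G) X = Re (G' X)`, and `lap (Re G) = lap (Im G) = 0`; or `lap_eq`). -/
theorem lap_sq {N : ℕ} {G : Fin N → ℂ → ℂ} {R : ℝ} (hG : ∀ j, DifferentiableOn ℂ (G j) (ball 0 R))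
    {z : ℂ} (hz : z ∈ ball (0 : ℂ) R) :
    lap (fun z => ∑ j, ‖G j z‖ ^ 2) z = 4 * ∑ j, ‖deriv (G j) z‖ ^ 2 := by
  have ha : ∀ j, AnalyticAt ℂ (G j) z := fun j =>
    (hG j).analyticAt (isOpen_ball.mem_nhds hz)
  rw [R3_lap_sum fun j => (R3_sq (ha j)).1, Finset.mul_sum]
  exact Finset.sum_congr rfl fun j _ => (R3_sq (ha j)).2

end Pool.Agent.MPca0fc2.RC
end

section

/-! Carleson estimates by Green's formula. -/

set_option autoImplicit false

open Metric Set MeasureTheory Filter Topology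

namespace Pool.Agent.MPca0fc2.RC

/-- `(|g|² + s)^(1/2)` -/
noncomputable def ww (s : ℝ) (g : ℂ → ℂ) (z : ℂ) : ℝ := Real.sqrt (‖g z‖ ^ 2 + s)

private lemma R4_pos {s : ℝ} (hs : 0 < s) (g : ℂ → ℂ) (z : ℂ) : 0 < ww s g z :=
  Real.sqrt_pos.2 (by positivity)

private lemma R4_sq {s : ℝ} (hs : 0 < s) (g : ℂ → ℂ) (z : ℂ) :
    ww s g z * ww s g z = ‖g z‖ ^ 2 + s :=
  Real.mul_self_sqrt (by positivity)

private lemma R4_ap {E : Type} [NormedAddCommGroup E] [NormedSpace ℝ E] {f : ℂ → E} {z : ℂ}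
    (hf : ContDiffAt ℝ 2 f z) (X : ℂ) : DifferentiableAt ℝ (fun w => fderiv ℝ f w X) z :=
  ((hf.fderiv_right (m := 1) (by norm_num)).differentiableAt one_ne_zero).clm_apply
    (differentiableAt_const X)

private lemma R4_evd {E : Type} [NormedAddCommGroup E] [NormedSpace ℝ E] {f : ℂ → E} {z : ℂ}
    (hf : ContDiffAt ℝ 2 f z) : ∀ᶠ w in 𝓝 z, DifferentiableAt ℝ f w :=
  (hf.eventually (by simp)).mono fun w hw => hw.differentiableAt two_ne_zero

private lemma R4_lap_mul {u v : ℂ → ℝ} {z : ℂ} (hu : ContDiffAt ℝ 2 u z)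
    (hv : ContDiffAt ℝ 2 v z) :
    lap (fun z => u z * v z) z = u z * lap v z + v z * lap u z +
      2 * (fderiv ℝ u z 1 * fderiv ℝ v z 1 + fderiv ℝ u z Complex.I * fderiv ℝ v z Complex.I) := by
  have h1 : ∀ X : ℂ, ∀ᶠ w in 𝓝 z, fderiv ℝ (fun z => u z * v z) w X =
      u w * fderiv ℝ v w X + v w * fderiv ℝ u w X := by
    intro X
    filter_upwards [R4_evd hu, R4_evd hv] with w h1 h2
    rw [fderiv_fun_mul h1 h2]
    simp
  have hu1 := hu.differentiableAt two_ne_zero
  have hv1 := hv.differentiableAt two_ne_zero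
  have h2 : ∀ X : ℂ, fderiv ℝ (fun w => fderiv ℝ (fun z => u z * v z) w X) z X =
      u z * fderiv ℝ (fun w => fderiv ℝ v w X) z X + v z * fderiv ℝ (fun w => fderiv ℝ u w X) z X +
        2 * (fderiv ℝ u z X * fderiv ℝ v z X) := by
    intro X
    rw [Filter.EventuallyEq.fderiv_eq (h1 X), fderiv_fun_add (hu1.fun_mul (R4_ap hv X))
      (hv1.fun_mul (R4_ap hu X)), fderiv_fun_mul hu1 (R4_ap hv X), fderiv_fun_mul hv1 (R4_ap hu X)]
    simp only [add_apply, smul_apply, smul_eq_mul]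
    ring
  unfold lap
  rw [h2, h2]
  ring

private lemma R4_exp {v : ℂ → ℝ} {z : ℂ} (hv : ContDiffAt ℝ 2 v z) :
    lap (fun z => Real.exp (v z)) z = Real.exp (v z) *
      (lap v z + (fderiv ℝ v z 1 ^ 2 + fderiv ℝ v z Complex.I ^ 2)) := by
  have h0 : ∀ {w : ℂ} (X : ℂ), DifferentiableAt ℝ v w →
      fderiv ℝ (fun z => Real.exp (v z)) w X = Real.exp (v w) * fderiv ℝ v w X := by
    intro w X hw
    rw [fderiv_exp hw]
    simp
  have h1 : ∀ X : ℂ, ∀ᶠ w in 𝓝 z, fderiv ℝ (fun z => Real.exp (v z)) w X =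
      Real.exp (v w) * fderiv ℝ v w X := by
    intro X
    filter_upwards [R4_evd hv] with w hw
    exact h0 X hw
  have hv1 := hv.differentiableAt two_ne_zero
  have h2 : ∀ X : ℂ, fderiv ℝ (fun w => fderiv ℝ (fun z => Real.exp (v z)) w X) z X =
      Real.exp (v z) * (fderiv ℝ (fun w => fderiv ℝ v w X) z X + fderiv ℝ v z X ^ 2) := by
    intro X
    rw [Filter.EventuallyEq.fderiv_eq (h1 X), fderiv_fun_mul hv1.exp (R4_ap hv X)]
    simp only [add_apply, smul_apply, smul_eq_mul, h0 X hv1]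
    ring
  unfold lap
  rw [h2, h2]
  ring

private lemma R4_cont {u : ℂ → ℝ} {R : ℝ} (hR : 1 < R) (hu : ContDiffOn ℝ 2 u (ball 0 R)) :
    ContinuousOn (lap u) (closedBall 0 1) := by
  have hsub : closedBall (0 : ℂ) 1 ⊆ ball 0 R := closedBall_subset_ball hR
  refine ContinuousOn.mono ?_ hsub
  have h1 : ContDiffOn ℝ 1 (fderiv ℝ u) (ball 0 R) :=
    hu.fderiv_of_isOpen isOpen_ball (by norm_num)
  have h2 : ∀ X : ℂ, ContDiffOn ℝ 1 (fun w => fderiv ℝ u w X) (ball 0 R) := fun X =>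
    h1.clm_apply contDiffOn_const
  have h3 : ∀ X : ℂ, ContinuousOn (fderiv ℝ (fun w => fderiv ℝ u w X)) (ball 0 R) := fun X =>
    (h2 X).continuousOn_fderiv_of_isOpen isOpen_ball le_rfl
  have h4 : ∀ X : ℂ, ContinuousOn (fun z => fderiv ℝ (fun w => fderiv ℝ u w X) z X)
      (ball 0 R) := fun X => (h3 X).clm_apply continuousOn_const
  exact (h4 1).add (h4 Complex.I)

private lemma R4_c2 {g : ℂ → ℂ} {z : ℂ} (hg : AnalyticAt ℂ g z) {s : ℝ} (hs : 0 < s) :
    ContDiffAt ℝ 2 (ww s g) z := by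
  have h3 : ContDiffAt ℝ 2 g z := (hg.contDiffAt (n := 2)).restrict_scalars ℝ
  have h4 : ContDiffAt ℝ 2 (fun z => ‖g z‖ ^ 2 + s) z := (h3.norm_sq ℝ).add contDiffAt_const
  exact h4.sqrt (by positivity)

private lemma R4_lapsq {R : ℝ} {g : ℂ → ℂ} (hg : DifferentiableOn ℂ g (ball 0 R)) {s : ℝ}
    (hs : 0 < s) {z : ℂ} (hz : z ∈ ball (0 : ℂ) R) :
    lap (fun z => ww s g z * ww s g z) z = 4 * ‖deriv g z‖ ^ 2 := by
  have h1 : (fun z => ww s g z * ww s g z) =
      fun z => (∑ j : Fin 1, ‖(fun _ : Fin 1 => g) j z‖ ^ 2) + s := by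
    funext w
    rw [R4_sq hs]
    simp
  have h2 := lap_sq (N := 1) (G := fun _ => g) (fun _ => hg) hz
  rw [h1]
  have h3 : lap (fun z => (∑ j : Fin 1, ‖(fun _ : Fin 1 => g) j z‖ ^ 2) + s) z =
      lap (fun z => (∑ j : Fin 1, ‖(fun _ : Fin 1 => g) j z‖ ^ 2)) z := by
    unfold lap
    simp only [fderiv_add_const]
  rw [h3, h2]
  simp

private lemma R4_key {R : ℝ} {g : ℂ → ℂ} (hg : DifferentiableOn ℂ g (ball 0 R)) {s : ℝ}
    (hs : 0 < s) {z : ℂ} (hz : z ∈ ball (0 : ℂ) R) :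
    ‖deriv g z‖ ^ 2 ≤ ww s g z * lap (ww s g) z ∧
      fderiv ℝ (ww s g) z 1 ^ 2 + fderiv ℝ (ww s g) z Complex.I ^ 2 ≤ ‖deriv g z‖ ^ 2 := by
  have ha : AnalyticAt ℂ g z := hg.analyticAt (isOpen_ball.mem_nhds hz)
  have hw := R4_c2 ha hs
  have hw1 := hw.differentiableAt two_ne_zero
  have hp := R4_pos hs g z
  have hgr : DifferentiableAt ℝ g z := ha.differentiableAt.restrictScalars ℝ
  have hgd : ∀ X, fderiv ℝ g z X = X * deriv g z := by
    intro X
    rw [ha.differentiableAt.fderiv_restrictScalars ℝ]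
    simp [fderiv_eq_smul_deriv]
  have h1 : ∀ X, ww s g z * fderiv ℝ (ww s g) z X =
      ((starRingEnd ℂ) (g z) * (X * deriv g z)).re := by
    intro X
    have e1 : fderiv ℝ (fun z => ww s g z * ww s g z) z X =
        2 * (ww s g z * fderiv ℝ (ww s g) z X) := by
      rw [fderiv_fun_mul hw1 hw1]
      simp only [add_apply, smul_apply, smul_eq_mul]
      ring
    have e2 : (fun z => ww s g z * ww s g z) = fun z => ‖g z‖ ^ 2 + s :=
      funext fun w => R4_sq hs g w
    have e3 : HasFDerivAt (fun z => ‖g z‖ ^ 2) (2 • (innerSL ℝ (g z)).comp (fderiv ℝ g z)) z :=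
      hgr.hasFDerivAt.norm_sq
    rw [e2, fderiv_add_const, e3.fderiv] at e1
    have e4 : (2 • (innerSL ℝ (g z)).comp (fderiv ℝ g z)) X =
        2 * ((starRingEnd ℂ) (g z) * (X * deriv g z)).re := by
      rw [two_smul, add_apply]
      simp only [ContinuousLinearMap.comp_apply, innerSL_apply_apply, hgd, Complex.inner]
      ring_nf
    rw [e4] at e1
    linarith
  have h2 := R4_lapsq hg hs hz
  rw [R4_lap_mul hw hw] at h2
  have h3 : (ww s g z * ww s g z) *
      (fderiv ℝ (ww s g) z 1 ^ 2 + fderiv ℝ (ww s g) z Complex.I ^ 2) =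
      ‖g z‖ ^ 2 * ‖deriv g z‖ ^ 2 := by
    have e1 : (ww s g z * ww s g z) *
        (fderiv ℝ (ww s g) z 1 ^ 2 + fderiv ℝ (ww s g) z Complex.I ^ 2) =
        (ww s g z * fderiv ℝ (ww s g) z 1) ^ 2 + (ww s g z * fderiv ℝ (ww s g) z Complex.I) ^ 2 := by
      ring
    rw [e1, h1, h1, ← Complex.normSq_eq_norm_sq, ← Complex.normSq_eq_norm_sq,
      Complex.normSq_apply, Complex.normSq_apply]
    simp only [Complex.mul_re, Complex.mul_im, Complex.conj_re, Complex.conj_im, Complex.one_re,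
      Complex.one_im, Complex.I_re, Complex.I_im]
    ring
  have h4 : fderiv ℝ (ww s g) z 1 ^ 2 + fderiv ℝ (ww s g) z Complex.I ^ 2 ≤ ‖deriv g z‖ ^ 2 := by
    have hq : 0 < ww s g z * ww s g z := mul_pos hp hp
    refine le_of_mul_le_mul_left ?_ hq
    rw [h3]
    exact mul_le_mul_of_nonneg_right (by rw [R4_sq hs]; linarith) (by positivity)
  refine ⟨?_, h4⟩
  nlinarith [h2, h4]

private lemma R4_wc {R : ℝ} {g : ℂ → ℂ} (hg : DifferentiableOn ℂ g (ball 0 R)) {s : ℝ}
    (hs : 0 < s) : ContDiffOn ℝ 2 (ww s g) (ball 0 R) := fun _ hz =>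
  (R4_c2 (hg.analyticAt (isOpen_ball.mem_nhds hz)) hs).contDiffWithinAt

/-- PROOF. `green` for `w = ww s g` (of class `C²`, `s > 0`): `w² = |g|² + s`, so `w ∇w = |g| ∇|g|`-type: `(Dw X) w = Re (conj g g' X)`, `|∇w|² = |g|² |g'|² / w²`; `lap (w²) = 4 |g'|²` (`lap_sq` with `N = 1`) and `lap (w²) = 2 w lap w + 2 |∇w|²`,
so `lap w = (2 |g'|² - |∇w|²) / w ≥ |g'|² / w`. Hence `JJ (|g'|² / w) ≤ JJ (lap w) = av 1 w - w 0 ≤ av 1 w`. -/
theorem sub_b {R : ℝ} (hR : 1 < R) {g : ℂ → ℂ} (hg : DifferentiableOn ℂ g (ball 0 R)) {s : ℝ}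
    (hs : 0 < s) : JJ (fun z => ‖deriv g z‖ ^ 2 / ww s g z) ≤ av 1 (ww s g) := by
  have hsub : closedBall (0 : ℂ) 1 ⊆ ball 0 R := closedBall_subset_ball hR
  have hw := R4_wc hg hs
  have hwc : ContinuousOn (ww s g) (closedBall 0 1) := hw.continuousOn.mono hsub
  have hg' : ContinuousOn (deriv g) (closedBall 0 1) :=
    ((hg.deriv isOpen_ball).continuousOn).mono hsub
  have h1 : JJ (fun z => ‖deriv g z‖ ^ 2 / ww s g z) ≤ JJ (lap (ww s g)) := by
    refine JJ_mono ((hg'.norm.pow 2).div hwc fun z _ => (R4_pos hs g z).ne') (R4_cont hR hw) ?_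
    intro z hz
    rw [div_le_iff₀ (R4_pos hs g z), mul_comm]
    exact (R4_key hg hs (hsub hz)).1
  have h2 := green hR hw
  have h3 := R4_pos hs g 0
  linarith

/-- PROOF. `green` for `u = e^v w`, `w = ww s g`: `lap u = e^v (|∇v|² w + 2 ∇v·∇w + w lap v + lap w) ≥ e^v w lap v`, since `2 |∇v·∇w| ≤ |∇v|² w + |∇w|² / w` and `|∇w|² / w ≤ lap w` (see `sub_b`: `|∇w|² = |g|² |g'|² / w² ≤ |g'|²`, `lap w ≥ |g'|² / w`).
`e^v ≥ 1`, so `JJ (lap v * w) ≤ JJ (lap u) = av 1 u - u 0 ≤ av 1 u ≤ e av 1 w ≤ 3 av 1 w`. -/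
theorem sub_a {R : ℝ} (hR : 1 < R) {v : ℂ → ℝ} (hv : ContDiffOn ℝ 2 v (ball 0 R))
    (h0 : ∀ z ∈ closedBall (0 : ℂ) 1, 0 ≤ v z) (h1 : ∀ z ∈ closedBall (0 : ℂ) 1, v z ≤ 1)
    (hl : ∀ z ∈ closedBall (0 : ℂ) 1, 0 ≤ lap v z) {g : ℂ → ℂ}
    (hg : DifferentiableOn ℂ g (ball 0 R)) {s : ℝ} (hs : 0 < s) :
    JJ (fun z => lap v z * ww s g z) ≤ 3 * av 1 (ww s g) := by
  have hsub : closedBall (0 : ℂ) 1 ⊆ ball 0 R := closedBall_subset_ball hR
  have hw := R4_wc hg hs
  have hwc : ContinuousOn (ww s g) (closedBall 0 1) := hw.continuousOn.mono hsub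
  have hvc : ContinuousOn v (closedBall 0 1) := hv.continuousOn.mono hsub
  have hu : ContDiffOn ℝ 2 (fun z => Real.exp (v z) * ww s g z) (ball 0 R) := hv.exp.mul hw
  have h2 : JJ (fun z => lap v z * ww s g z) ≤ JJ (lap (fun z => Real.exp (v z) * ww s g z)) := by
    refine JJ_mono ((R4_cont hR hv).mul hwc) (R4_cont hR hu) ?_
    intro z hz
    have hzR := hsub hz
    have hvz : ContDiffAt ℝ 2 v z := hv.contDiffAt (isOpen_ball.mem_nhds hzR)
    have hwz : ContDiffAt ℝ 2 (ww s g) z := hw.contDiffAt (isOpen_ball.mem_nhds hzR)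
    have hvz1 := hvz.differentiableAt two_ne_zero
    have hp := R4_pos hs g z
    obtain ⟨k1, k2⟩ := R4_key hg hs hzR
    have hfd : ∀ X, fderiv ℝ (fun z => Real.exp (v z)) z X = Real.exp (v z) * fderiv ℝ v z X := by
      intro X
      rw [fderiv_exp hvz1]
      simp
    rw [R4_lap_mul hvz.exp hwz, R4_exp hvz, hfd, hfd]
    have he : 1 ≤ Real.exp (v z) := Real.one_le_exp (h0 z hz)
    have hlz := hl z hz
    set a := fderiv ℝ v z 1
    set b := fderiv ℝ v z Complex.I
    set c := fderiv ℝ (ww s g) z 1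
    set d := fderiv ℝ (ww s g) z Complex.I
    set W := ww s g z
    set L := lap (ww s g) z
    set M := lap v z
    set e := Real.exp (v z)
    have k3 : 0 ≤ W * (L + W * (a ^ 2 + b ^ 2) + 2 * (a * c + b * d)) := by
      nlinarith [sq_nonneg (W * a + c), sq_nonneg (W * b + d)]
    have k4 : 0 ≤ L + W * (a ^ 2 + b ^ 2) + 2 * (a * c + b * d) :=
      nonneg_of_mul_nonneg_right k3 hp
    have k5 : M * W ≤ e * (M * W) := le_mul_of_one_le_left (mul_nonneg hlz hp.le) he
    have k6 : 0 ≤ e * (L + W * (a ^ 2 + b ^ 2) + 2 * (a * c + b * d)) :=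
      mul_nonneg (by linarith) k4
    calc M * W ≤ e * (M * W) + e * (L + W * (a ^ 2 + b ^ 2) + 2 * (a * c + b * d)) := by linarith
      _ = _ := by ring
  have h3 := green hR hu
  have h4 : 0 < Real.exp (v 0) * ww s g 0 := mul_pos (Real.exp_pos _) (R4_pos hs g 0)
  have hss : sphere (0 : ℂ) 1 ⊆ closedBall 0 1 := sphere_subset_closedBall
  have h5 : av 1 (fun z => Real.exp (v z) * ww s g z) ≤
      av 1 (fun z => (3 : ℝ) • ww s g z + (0 : ℝ) • ww s g z) := by
    refine av_mono ((hu.continuousOn.mono hsub).mono hss) ?_ ?_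
    · exact (((hwc.mono hss).const_smul (3 : ℝ)).add ((hwc.mono hss).const_smul (0 : ℝ)))
    · intro z hz
      have e1 : Real.exp (v z) ≤ Real.exp 1 := Real.exp_le_exp.2 (h1 z (hss hz))
      have e2 : Real.exp 1 ≤ 3 := by
        have := Real.exp_one_lt_d9
        linarith
      simp only [smul_eq_mul, zero_mul, add_zero]
      exact mul_le_mul_of_nonneg_right (e1.trans e2) (R4_pos hs g z).le
  rw [av_lin (hwc.mono hss) (hwc.mono hss) 3 0] at h5
  simp only [smul_eq_mul, zero_mul, add_zero] at h5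
  linarith

end Pool.Agent.MPca0fc2.RC
end

section

/-! Fejér means. -/

set_option autoImplicit false

open Metric Set MeasureTheory Filter Topology
open scoped ComplexConjugate

namespace Pool.Agent.MPca0fc2.RC

/-- Fejér's kernel `(1/M) |∑_{j<M} x^j|²` -/
noncomputable def fk (M : ℕ) (x : ℂ) : ℝ := ‖∑ j ∈ Finset.range M, x ^ j‖ ^ 2 / M

/-- the Fejér mean -/
noncomputable def fej (M : ℕ) (s : ℂ → ℂ) (z : ℂ) : ℂ := av 1 fun w => fk M (z * conj w) * s w

private theorem R6_sq {x : ℂ} (hx : ‖x‖ = 1) (M : ℕ) :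
    (∑ j ∈ Finset.range M, x ^ j) * (∑ j ∈ Finset.range M, conj x ^ j) =
    ∑ k ∈ Finset.range M, ((M : ℂ) - k) * (x ^ k + conj x ^ k) - M := by
  have hxx : x * conj x = 1 := by
    rw [Complex.mul_conj, Complex.normSq_eq_norm_sq, hx]; norm_num
  have hpp : ∀ n : ℕ, x ^ n * conj x ^ n = 1 := by
    intro n; rw [← mul_pow, hxx, one_pow]
  have key : ∀ (y z : ℂ), (∀ n : ℕ, y ^ n * z ^ n = 1) → ∀ M : ℕ,
      y ^ M * (∑ j ∈ Finset.range M, z ^ j) = ∑ k ∈ Finset.range (M + 1), y ^ k - 1 := by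
    intro y z h M
    rw [Finset.sum_range_succ', pow_zero, add_sub_cancel_right, Finset.mul_sum,
      ← Finset.sum_range_reflect (fun k => y ^ (k + 1)) M]
    refine Finset.sum_congr rfl fun j hj => ?_
    have hj' := Finset.mem_range.1 hj
    have e : y ^ M = y ^ (M - 1 - j + 1) * y ^ j := by
      rw [← pow_add]; congr 1; omega
    rw [e, mul_assoc, h, mul_one]
  induction M with
  | zero => simp
  | succ M ih =>
    have h1 := key x (conj x) hpp M
    have h2 := key (conj x) x (fun n => by rw [mul_comm]; exact hpp n) M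
    have h3 := hpp M
    have e1 : ∑ k ∈ Finset.range (M + 1), (((M + 1 : ℕ) : ℂ) - k) * (x ^ k + conj x ^ k) =
        ∑ k ∈ Finset.range M, ((M : ℂ) - k) * (x ^ k + conj x ^ k) +
        (∑ k ∈ Finset.range (M + 1), x ^ k + ∑ k ∈ Finset.range (M + 1), conj x ^ k) := by
      have e2 : ∀ k ∈ Finset.range (M + 1), (((M + 1 : ℕ) : ℂ) - k) * (x ^ k + conj x ^ k) =
          ((M : ℂ) - k) * (x ^ k + conj x ^ k) + (x ^ k + conj x ^ k) := by
        intro k _; push_cast; ring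
      rw [Finset.sum_congr rfl e2, Finset.sum_add_distrib, Finset.sum_add_distrib (f := fun k => x ^ k),
        Finset.sum_range_succ (fun k => ((M : ℂ) - k) * (x ^ k + conj x ^ k)), sub_self, zero_mul,
        add_zero]
    rw [e1, Finset.sum_range_succ (fun k => x ^ k), Finset.sum_range_succ (fun k => conj x ^ k)]
    rw [Finset.sum_range_succ] at h1 h2
    push_cast
    linear_combination ih + h1 + h2 + h3

private theorem R6_norm_e (t : ℝ) : ((1 : ℝ) : ℂ) * Complex.exp (t * Complex.I) ∈ sphere (0 : ℂ) 1 := by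
  rw [mem_sphere_zero_iff_norm, norm_mul, Complex.norm_exp_ofReal_mul_I]
  simp

private theorem R6_cont {E : Type} [NormedAddCommGroup E] {f : ℂ → E}
    (hf : ContinuousOn f (sphere 0 1)) :
    Continuous fun t : ℝ => f (((1 : ℝ) : ℂ) * Complex.exp (t * Complex.I)) :=
  hf.comp_continuous (by fun_prop) R6_norm_e

private theorem R6_congr {E : Type} [NormedAddCommGroup E] [NormedSpace ℝ E] {f g : ℂ → E}
    (h : ∀ w ∈ sphere (0 : ℂ) 1, f w = g w) : av 1 f = av 1 g := by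
  unfold av
  congr 2
  funext t
  exact h _ (R6_norm_e t)

private theorem R6_add {f g : ℂ → ℂ} (hf : ContinuousOn f (sphere 0 1))
    (hg : ContinuousOn g (sphere 0 1)) : av 1 (fun w => f w + g w) = av 1 f + av 1 g := by
  have := av_lin hf hg 1 1
  simpa using this

private theorem R6_sum {ι : Type} (S : Finset ι) (c : ι → ℂ) (f : ι → ℂ → ℂ)
    (hf : ∀ i ∈ S, ContinuousOn (f i) (sphere 0 1)) :
    av 1 (fun w => ∑ i ∈ S, c i * f i w) = ∑ i ∈ S, c i * av 1 (f i) := by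
  unfold av
  rw [intervalIntegral.integral_finsetSum, Finset.smul_sum]
  · refine Finset.sum_congr rfl fun i _ => ?_
    rw [intervalIntegral.integral_const_mul, mul_smul_comm]
  · intro i hi
    exact ((continuous_const.mul (R6_cont (hf i hi))).intervalIntegrable _ _)

private theorem R6_conj_cont {s : ℂ → ℂ} (hs : ContinuousOn s (sphere 0 1)) (k : ℕ) :
    ContinuousOn (fun w => s w * conj w ^ k) (sphere 0 1) :=
  hs.mul ((Complex.continuous_conj.pow k).continuousOn)

private theorem R6_pow_cont {s : ℂ → ℂ} (hs : ContinuousOn s (sphere 0 1)) (k : ℕ) :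
    ContinuousOn (fun w => s w * w ^ k) (sphere 0 1) :=
  hs.mul ((continuous_id.pow k).continuousOn)

private theorem R6_unit {z w : ℂ} (hz : z ∈ sphere (0 : ℂ) 1) (hw : w ∈ sphere (0 : ℂ) 1) :
    ‖z * conj w‖ = 1 := by
  rw [mem_sphere_zero_iff_norm] at hz hw
  rw [norm_mul, RCLike.norm_conj, hz, hw, one_mul]

private theorem R6_fk_cont (M : ℕ) (z : ℂ) : Continuous fun w : ℂ => fk M (z * conj w) := by
  unfold fk
  refine Continuous.div_const (Continuous.pow (Continuous.norm ?_) 2) _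
  refine continuous_finsetSum _ fun j _ => ?_
  exact (continuous_const.mul Complex.continuous_conj).pow j

private theorem R6_fk_nonneg (M : ℕ) (x : ℂ) : 0 ≤ fk M x := by
  unfold fk; positivity

/-- PROOF. For `|x| = 1`: `|∑ x^j|² = ∑_{j,l} x^(j-l)`, grouped by the difference. -/
theorem fk_eq {M : ℕ} (hM : 0 < M) {x : ℂ} (hx : ‖x‖ = 1) : (fk M x : ℂ) =
    ∑ k ∈ Finset.range M, (1 - k / M : ℂ) * x ^ k +
    ∑ k ∈ Finset.Ico 1 M, (1 - k / M : ℂ) * conj x ^ k := by
  have hM' : (M : ℂ) ≠ 0 := by exact_mod_cast hM.ne'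
  have h0 : (fk M x : ℂ) = ((∑ j ∈ Finset.range M, x ^ j) *
      (∑ j ∈ Finset.range M, conj x ^ j)) / M := by
    unfold fk
    have e : (∑ j ∈ Finset.range M, conj x ^ j) = conj (∑ j ∈ Finset.range M, x ^ j) := by
      rw [map_sum]; simp
    rw [e, Complex.mul_conj, Complex.normSq_eq_norm_sq]
    push_cast
    rfl
  rw [h0, R6_sq hx M]
  have e1 : ∑ k ∈ Finset.range M, ((M : ℂ) - k) * (x ^ k + conj x ^ k) =
      M * (∑ k ∈ Finset.range M, (1 - k / M : ℂ) * x ^ k +
        ∑ k ∈ Finset.range M, (1 - k / M : ℂ) * conj x ^ k) := by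
    rw [← Finset.sum_add_distrib, Finset.mul_sum]
    refine Finset.sum_congr rfl fun k _ => ?_
    field_simp
  have e2 : ∑ k ∈ Finset.range M, (1 - k / M : ℂ) * conj x ^ k =
      1 + ∑ k ∈ Finset.Ico 1 M, (1 - k / M : ℂ) * conj x ^ k := by
    rw [Finset.range_eq_Ico, Finset.sum_eq_sum_Ico_succ_bot hM]
    simp
  rw [e1, e2]
  field_simp
  ring

/-- The Fejér mean as a trigonometric polynomial. PROOF. `fk_eq` with `x = z conj w`. -/
theorem fej_eq {M : ℕ} (hM : 0 < M) {s : ℂ → ℂ} (hs : ContinuousOn s (sphere 0 1)) {z : ℂ}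
    (hz : z ∈ sphere (0 : ℂ) 1) : fej M s z =
    ∑ k ∈ Finset.range M, (1 - k / M : ℂ) * av 1 (fun w => s w * conj w ^ k) * z ^ k +
    ∑ k ∈ Finset.Ico 1 M, (1 - k / M : ℂ) * av 1 (fun w => s w * w ^ k) * conj z ^ k := by
  unfold fej
  have h1 : av 1 (fun w => (fk M (z * conj w) : ℂ) * s w) = av 1 (fun w =>
      (∑ k ∈ Finset.range M, ((1 - k / M : ℂ) * z ^ k) * (s w * conj w ^ k)) +
      (∑ k ∈ Finset.Ico 1 M, ((1 - k / M : ℂ) * conj z ^ k) * (s w * w ^ k))) := by
    refine R6_congr fun w hw => ?_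
    rw [fk_eq hM (R6_unit hz hw), add_mul, Finset.sum_mul, Finset.sum_mul]
    congr 1
    · refine Finset.sum_congr rfl fun k _ => ?_
      rw [mul_pow]; ring
    · refine Finset.sum_congr rfl fun k _ => ?_
      rw [map_mul, Complex.conj_conj, mul_pow]; ring
  rw [h1, R6_add, R6_sum, R6_sum]
  · congr 1
    · refine Finset.sum_congr rfl fun k _ => ?_
      ring
    · refine Finset.sum_congr rfl fun k _ => ?_
      ring
  · intro k _; exact R6_pow_cont hs k
  · intro k _; exact R6_conj_cont hs k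
  · exact continuousOn_finsetSum _ fun k _ => continuousOn_const.mul (R6_conj_cont hs k)
  · exact continuousOn_finsetSum _ fun k _ => continuousOn_const.mul (R6_pow_cont hs k)

private theorem R6_av_pow {k : ℕ} (hk : 0 < k) : av 1 (fun w : ℂ => w ^ k) = 0 := by
  unfold av
  have hk' : ((k : ℂ) * Complex.I) ≠ 0 :=
    mul_ne_zero (by exact_mod_cast hk.ne') Complex.I_ne_zero
  have e : ∀ t : ℝ, (((1 : ℝ) : ℂ) * Complex.exp (t * Complex.I)) ^ k =
      Complex.exp (((k : ℂ) * Complex.I) * t) := by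
    intro t
    rw [Complex.ofReal_one, one_mul, ← Complex.exp_nat_mul]
    congr 1; ring
  simp only [e]
  rw [integral_exp_mul_complex hk']
  have e2 : Complex.exp (((k : ℂ) * Complex.I) * ((2 * Real.pi : ℝ) : ℂ)) = 1 := by
    rw [Complex.exp_eq_one_iff]
    exact ⟨k, by push_cast; ring⟩
  rw [e2]
  simp

private theorem R6_av_conj {f : ℂ → ℂ} : av 1 (fun w => conj (f w)) = conj (av 1 f) := by
  unfold av
  have h : (∫ t in (0 : ℝ)..(2 * Real.pi), conj (f (((1 : ℝ) : ℂ) * Complex.exp (t * Complex.I)))) =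
      conj (∫ t in (0 : ℝ)..(2 * Real.pi), f (((1 : ℝ) : ℂ) * Complex.exp (t * Complex.I))) := by
    rw [intervalIntegral.integral_of_le (by positivity), intervalIntegral.integral_of_le (by positivity)]
    exact integral_conj
  rw [h]
  simp only [Complex.real_smul, map_mul, Complex.conj_ofReal]

private theorem R6_av_conj_pow {k : ℕ} (hk : 0 < k) : av 1 (fun w : ℂ => conj w ^ k) = 0 := by
  have : (fun w : ℂ => conj w ^ k) = fun w : ℂ => conj (w ^ k) := by
    funext w; rw [map_pow]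
  rw [this, R6_av_conj, R6_av_pow hk, map_zero]

private theorem R6_fej_one {M : ℕ} (hM : 0 < M) {z : ℂ} (hz : z ∈ sphere (0 : ℂ) 1) :
    fej M (fun _ => 1) z = 1 := by
  rw [fej_eq hM continuousOn_const hz]
  have h1 : ∑ k ∈ Finset.Ico 1 M, (1 - k / M : ℂ) * av 1 (fun w : ℂ => 1 * w ^ k) * conj z ^ k
      = 0 := by
    refine Finset.sum_eq_zero fun k hk => ?_
    have hk' := (Finset.mem_Ico.1 hk).1
    simp only [one_mul]
    rw [R6_av_pow hk']; ring
  have h2 : ∑ k ∈ Finset.range M, (1 - k / M : ℂ) * av 1 (fun w : ℂ => 1 * conj w ^ k) * z ^ k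
      = 1 := by
    rw [Finset.sum_eq_single 0]
    · simp only [one_mul, pow_zero]
      rw [av_const]; simp
    · intro k _ hk
      simp only [one_mul]
      rw [R6_av_conj_pow (Nat.pos_of_ne_zero hk)]; ring
    · intro h; exact absurd (Finset.mem_range.2 hM) h
  rw [h1, h2, add_zero]

private theorem R6_av_fk {M : ℕ} (hM : 0 < M) {z : ℂ} (hz : z ∈ sphere (0 : ℂ) 1) :
    av 1 (fun w => fk M (z * conj w)) = 1 := by
  have h := R6_fej_one hM hz
  have e : fej M (fun _ => 1) z = ((av 1 (fun w => fk M (z * conj w)) : ℝ) : ℂ) := by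
    unfold fej av
    simp only [mul_one]
    rw [intervalIntegral.integral_ofReal]
    simp only [Complex.real_smul, smul_eq_mul, Complex.ofReal_mul]
  rw [e] at h
  exact_mod_cast h

/-- PROOF. `fk ≥ 0`, and the average of `fk M (z conj w)` over `w` is `1` (`fej_eq` for `s = 1`, or `fk_eq`: the averages of `w^k`, `conj w^k` vanish for `k ≥ 1`). -/
theorem fej_le {M : ℕ} (hM : 0 < M) {s : ℂ → ℂ} (hs : ContinuousOn s (sphere 0 1)) {A : ℝ}
    (hA : ∀ w ∈ sphere (0 : ℂ) 1, ‖s w‖ ≤ A) {z : ℂ} (hz : z ∈ sphere (0 : ℂ) 1) :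
    ‖fej M s z‖ ≤ A := by
  have h1 : ‖fej M s z‖ ≤ av 1 (fun w => A * fk M (z * conj w) + 0 * fk M (z * conj w)) := by
    unfold fej
    refine av_norm ?_ ?_ ?_
    · exact (Complex.continuous_ofReal.comp (R6_fk_cont M z)).continuousOn.mul hs
    · exact ((continuous_const.mul (R6_fk_cont M z)).add
        (continuous_const.mul (R6_fk_cont M z))).continuousOn
    · intro w hw
      rw [norm_mul, Complex.norm_real, Real.norm_of_nonneg (R6_fk_nonneg _ _), zero_mul, add_zero,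
        mul_comm]
      exact mul_le_mul_of_nonneg_right (hA w hw) (R6_fk_nonneg _ _)
  have h2 := av_lin (R6_fk_cont M z).continuousOn (R6_fk_cont M z).continuousOn A 0
  simp only [smul_eq_mul] at h2
  rw [h2, R6_av_fk hM hz] at h1
  linarith

/-- Fejér's theorem.
PROOF. `fej M s z - s z = av 1 (fk M (z conj w) (s w - s z))`. `s` is uniformly continuous on the circle: `|s w - s z| ≤ ε / 2` for `|w - z| < η`; for `|w - z| ≥ η`: `fk M (z conj w) = |1 - x^M|² / (M |1 - x|²) ≤ 4 / (M η²)`, `x = z conj w`, `|1 - x| = |w - z|`. -/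
theorem fej_tendsto {s : ℂ → ℂ} (hs : ContinuousOn s (sphere 0 1)) {ε : ℝ} (hε : 0 < ε) :
    ∃ M₀ : ℕ, ∀ M, M₀ ≤ M → 0 < M → ∀ z ∈ sphere (0 : ℂ) 1, ‖fej M s z - s z‖ ≤ ε := by
  -- uniform continuity and a bound
  have hcomp : IsCompact (sphere (0 : ℂ) 1) := isCompact_sphere 0 1
  obtain ⟨A, hA⟩ := hcomp.exists_bound_of_continuousOn hs
  have hA0 : 0 ≤ A := (norm_nonneg _).trans (hA 1 (by simp))
  have huc := hcomp.uniformContinuousOn_of_continuous hs
  rw [Metric.uniformContinuousOn_iff] at huc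
  obtain ⟨η, hη, huc⟩ := huc (ε / 2) (by positivity)
  obtain ⟨M₀, hM₀⟩ := exists_nat_gt (16 * A / (ε * η ^ 2))
  refine ⟨M₀, fun M hMM hM z hz => ?_⟩
  have hMr : (0 : ℝ) < M := by exact_mod_cast hM
  have hfs : fej M s z - s z = av 1 (fun w => (fk M (z * conj w) : ℂ) * (s w - s z)) := by
    have e1 : s z = fej M (fun _ => s z) z := by
      have h := R6_fej_one hM hz
      have e : fej M (fun _ => s z) z = s z * fej M (fun _ => 1) z := by
        unfold fej
        have := R6_sum (Finset.univ : Finset (Fin 1)) (fun _ => s z)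
          (fun _ w => (fk M (z * conj w) : ℂ) * 1) (fun _ _ =>
            ((Complex.continuous_ofReal.comp (R6_fk_cont M z)).mul continuous_const).continuousOn)
        simp only [Finset.univ_unique, Finset.sum_singleton] at this
        rw [← this]
        refine R6_congr fun w _ => ?_
        ring
      rw [e, h, mul_one]
    have e2 := R6_add (f := fun w => (fk M (z * conj w) : ℂ) * (s w - s z))
      (g := fun w => (fk M (z * conj w) : ℂ) * s z)
      ((Complex.continuous_ofReal.comp (R6_fk_cont M z)).continuousOn.mul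
        (hs.sub continuousOn_const))
      ((Complex.continuous_ofReal.comp (R6_fk_cont M z)).continuousOn.mul continuousOn_const)
    have e3 : fej M s z = av 1 (fun w => (fk M (z * conj w) : ℂ) * (s w - s z) +
        (fk M (z * conj w) : ℂ) * s z) := by
      unfold fej
      refine R6_congr fun w _ => ?_
      ring
    conv_lhs => rw [e1]
    rw [e3, e2]
    unfold fej
    ring
  rw [hfs]
  have hg : ContinuousOn (fun w : ℂ => ε / 2 * fk M (z * conj w) + 8 * A / (M * η ^ 2) * 1)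
      (sphere 0 1) :=
    ((continuous_const.mul (R6_fk_cont M z)).add continuous_const).continuousOn
  have hle : ‖av 1 (fun w => (fk M (z * conj w) : ℂ) * (s w - s z))‖ ≤
      av 1 (fun w : ℂ => ε / 2 * fk M (z * conj w) + 8 * A / (M * η ^ 2) * 1) := by
    refine av_norm ((Complex.continuous_ofReal.comp (R6_fk_cont M z)).continuousOn.mul
      (hs.sub continuousOn_const)) hg fun w hw => ?_
    rw [norm_mul, Complex.norm_real, Real.norm_of_nonneg (R6_fk_nonneg _ _), mul_one]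
    have hfk := R6_fk_nonneg M (z * conj w)
    have hnn : 0 ≤ 8 * A / (M * η ^ 2) := by positivity
    by_cases hd : dist w z < η
    · have h1 := (huc w hw z hz hd).le
      rw [dist_eq_norm] at h1
      nlinarith
    · have hd' : η ≤ ‖w - z‖ := by rw [← dist_eq_norm]; exact not_lt.1 hd
      have hz1 := mem_sphere_zero_iff_norm.1 hz
      have hw1 := mem_sphere_zero_iff_norm.1 hw
      have hx1 := R6_unit hz hw
      set x := z * conj w with hx
      have h1x : ‖1 - x‖ = ‖w - z‖ := by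
        have e : 1 - x = (w - z) * conj w := by
          have : w * conj w = 1 := by
            rw [Complex.mul_conj, Complex.normSq_eq_norm_sq, hw1]; norm_num
          rw [hx, sub_mul, this]
        rw [e, norm_mul, RCLike.norm_conj, hw1, mul_one]
      have hgeo : ‖∑ j ∈ Finset.range M, x ^ j‖ * ‖1 - x‖ ≤ 2 := by
        rw [← norm_mul, geom_sum_mul_neg]
        calc ‖1 - x ^ M‖ ≤ ‖(1 : ℂ)‖ + ‖x ^ M‖ := norm_sub_le _ _
          _ = 2 := by rw [norm_pow, hx1]; norm_num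
      have hS : ‖∑ j ∈ Finset.range M, x ^ j‖ * η ≤ 2 :=
        (mul_le_mul_of_nonneg_left (hd'.trans_eq h1x.symm) (norm_nonneg _)).trans hgeo
      have hS0 := norm_nonneg (∑ j ∈ Finset.range M, x ^ j)
      have hfk2 : fk M x ≤ 4 / (M * η ^ 2) := by
        unfold fk
        rw [div_le_div_iff₀ hMr (by positivity)]
        have : (‖∑ j ∈ Finset.range M, x ^ j‖ * η) ^ 2 ≤ 2 ^ 2 :=
          pow_le_pow_left₀ (by positivity) hS 2
        nlinarith
      have hss : ‖s w - s z‖ ≤ 2 * A := by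
        calc ‖s w - s z‖ ≤ ‖s w‖ + ‖s z‖ := norm_sub_le _ _
          _ ≤ 2 * A := by linarith [hA w hw, hA z hz]
      have h3 : fk M x * ‖s w - s z‖ ≤ 4 / (M * η ^ 2) * (2 * A) :=
        mul_le_mul hfk2 hss (norm_nonneg _) (by positivity)
      have h4 : 4 / (M * η ^ 2) * (2 * A) = 8 * A / (M * η ^ 2) := by ring
      have h5 : 0 ≤ ε / 2 * fk M x := by positivity
      linarith
  have h2 := av_lin (R6_fk_cont M z).continuousOn
    (continuousOn_const (c := (1 : ℝ)) (s := sphere (0 : ℂ) 1)) (ε / 2) (8 * A / (M * η ^ 2))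
  simp only [smul_eq_mul] at h2
  rw [h2, R6_av_fk hM hz, av_const] at hle
  have hfin : 8 * A / (M * η ^ 2) ≤ ε / 2 := by
    have hMM' : (M₀ : ℝ) ≤ M := by exact_mod_cast hMM
    have h6 : 16 * A / (ε * η ^ 2) < M := hM₀.trans_le hMM'
    rw [div_lt_iff₀ (by positivity)] at h6
    rw [div_le_div_iff₀ (by positivity) (by norm_num)]
    nlinarith
  linarith

end Pool.Agent.MPca0fc2.RC
end
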