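import Pool.Agent.Lib.MP_ca0fc2_an.Mg.G038
import Pool.Agent.Lib.MP_ca0fc2_an.Mg.G027
import Pool.Agent.Lib.MP_ca0fc2_an.Mg.G059

section

/-! Bounded solutions of `∂̄ u = m` in the disc (Wolff). -/

set_option autoImplicit false

open Metric Set MeasureTheory Filter Topology

namespace Pool.Agent.MPca0fc2.RC

private theorem R10_db_congr {f g : ℂ → ℂ} {z : ℂ} (h : f =ᶠ[𝓝 z] g) : db f z = db g z := by
  unfold db
  rw [h.fderiv_eq]

private theorem R10_dz_congr {f g : ℂ → ℂ} {z : ℂ} (h : f =ᶠ[𝓝 z] g) : dz f z = dz g z := by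
  unfold dz
  rw [h.fderiv_eq]

private theorem R10_db_sub {f g : ℂ → ℂ} {z : ℂ} (hf : DifferentiableAt ℝ f z)
    (hg : DifferentiableAt ℝ g z) : db (fun z => f z - g z) z = db f z - db g z := by
  unfold db
  rw [fderiv_fun_sub hf hg]
  simp only [sub_apply]
  ring

/-- PROOF. Let `1 < R' < R`; `exists_db_disc`: `b` of class `C²` with `db b = m` on `ball 0 R'`. `pairing` on `ball 0 R'` (`db b = m` near each point of the closed ball, so `dz (db b) = dz m` there) and `dual` with `C = 18 K + 2`, `ε = 1`: a polynomial `p` with `‖b - p‖ ≤ 18 K + 3` on the circle. `u = b - p`: `db u = m`, `lap u = 4 dz (db u) = 4 dz m`, `‖lap u‖ ≤ 4 K lap v`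
(`lap_eq`). `interior` with `4 K`: `‖u‖ ≤ 22 K + 3`. -/
theorem bdd_db {R : ℝ} (hR : 1 < R) {v : ℂ → ℝ} (hv : ContDiffOn ℝ 2 v (ball 0 R))
    (h0 : ∀ z ∈ closedBall (0 : ℂ) 1, 0 ≤ v z) (h1 : ∀ z ∈ closedBall (0 : ℂ) 1, v z ≤ 1)
    (hl : ∀ z ∈ closedBall (0 : ℂ) 1, 0 ≤ lap v z) {m : ℂ → ℂ}
    (hm : ContDiffOn ℝ 2 m (ball 0 R)) {K : ℝ} (hK : 0 ≤ K)
    (hm1 : ∀ z ∈ closedBall (0 : ℂ) 1, ‖m z‖ ^ 2 ≤ K * lap v z)
    (hm2 : ∀ z ∈ closedBall (0 : ℂ) 1, ‖dz m z‖ ≤ K * lap v z) :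
    ∃ u : ℂ → ℂ, ContDiff ℝ 2 u ∧ (∀ z ∈ ball (0 : ℂ) 1, db u z = m z) ∧
      ∀ z ∈ closedBall (0 : ℂ) 1, ‖u z‖ ≤ 22 * K + 3 := by
  obtain ⟨R', h1R, hRR⟩ : ∃ R', 1 < R' ∧ R' < R := exists_between hR
  obtain ⟨b, hb, hdb⟩ := exists_db_disc (by linarith : 0 < R') hRR hm
  have hsub : closedBall (0 : ℂ) 1 ⊆ ball 0 R' := closedBall_subset_ball h1R
  have hsub2 : ball (0 : ℂ) R' ⊆ ball 0 R := ball_subset_ball hRR.le
  have hev : ∀ z ∈ ball (0 : ℂ) R', db b =ᶠ[𝓝 z] m := fun z hz =>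
    Filter.eventually_of_mem (isOpen_ball.mem_nhds hz) hdb
  have hpair : ∀ p : Polynomial ℂ, p.eval 0 = 0 →
      ‖av 1 (fun z => b z * p.eval z)‖ ≤ (18 * K + 2) * av 1 (fun z => ‖p.eval z‖) := by
    intro p hp
    refine pairing h1R (hv.mono hsub2) h0 h1 hl hb.contDiffOn hK ?_ ?_
      (p.differentiable.differentiableOn) hp
    · intro z hz
      rw [hdb z (hsub hz)]
      exact hm1 z hz
    · intro z hz
      rw [R10_dz_congr (hev z (hsub hz))]
      exact hm2 z hz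
  obtain ⟨p, hp⟩ := dual (hb.continuous.continuousOn) (by positivity : (0 : ℝ) ≤ 18 * K + 2) hpair
    (by norm_num : (0 : ℝ) < 1)
  have hpc : ContDiff ℝ 2 (fun z : ℂ => p.eval z) := by
    have h2 : ContDiff ℂ 2 (fun z : ℂ => p.eval z) := by
      have := Polynomial.contDiff_aeval (𝕜 := ℂ) p 2
      simpa using this
    exact h2.restrict_scalars ℝ
  have hu : ContDiff ℝ 2 (fun z => b z - p.eval z) := hb.sub hpc
  have hbd : Differentiable ℝ b := hb.differentiable (by norm_num)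
  have hdu : ∀ z ∈ ball (0 : ℂ) R', db (fun z => b z - p.eval z) z = m z := by
    intro z hz
    rw [R10_db_sub (hbd z) ((hpc.differentiable (by norm_num)) z), hdb z hz,
      db_hol (p.differentiable z), sub_zero]
  refine ⟨fun z => b z - p.eval z, hu, fun z hz => hdu z (hsub (ball_subset_closedBall hz)), ?_⟩
  have hA : ∀ z ∈ sphere (0 : ℂ) 1, ‖b z - p.eval z‖ ≤ 18 * K + 3 := by
    intro z hz
    have := hp z hz
    linarith
  have hlap : ∀ z ∈ ball (0 : ℂ) 1, ‖lap (fun z => b z - p.eval z) z‖ ≤ 4 * K * lap v z := by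
    intro z hz
    have hz1 : z ∈ closedBall (0 : ℂ) 1 := ball_subset_closedBall hz
    have hev2 : db (fun z => b z - p.eval z) =ᶠ[𝓝 z] m :=
      Filter.eventually_of_mem (isOpen_ball.mem_nhds (hsub hz1)) hdu
    rw [lap_eq hu.contDiffAt, R10_dz_congr hev2, norm_mul]
    have := hm2 z hz1
    have h4 : ‖(4 : ℂ)‖ = 4 := by norm_num
    rw [h4]
    linarith
  intro z hz
  have := interior hR hv h0 h1 hu.contDiffOn (by positivity : (0 : ℝ) ≤ 4 * K) hlap hA z hz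
  linarith

end Pool.Agent.MPca0fc2.RC
end

section

/-! Smooth functions of holomorphic functions. -/

set_option autoImplicit false

open Metric Set MeasureTheory Filter Topology
open scoped ComplexConjugate

namespace Pool.Agent.MPca0fc2.RC

private theorem R11_psi {δ : ℝ} (hδ : 0 < δ) :
    ContDiff ℝ 4 (fun t : ℝ => Real.smoothTransition (2 * t / δ - 1) / t) := by
  rw [contDiff_iff_contDiffAt]
  intro t
  by_cases ht : t < δ / 2
  · have h1 : (fun t : ℝ => Real.smoothTransition (2 * t / δ - 1) / t) =ᶠ[𝓝 t] fun _ => 0 := by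
      filter_upwards [isOpen_Iio.mem_nhds ht] with s hs
      have h2 : 2 * s / δ - 1 ≤ 0 := by
        rw [sub_nonpos, div_le_one hδ]
        have : s < δ / 2 := hs
        linarith
      rw [Real.smoothTransition.zero_of_nonpos h2, zero_div]
    exact contDiffAt_const.congr_of_eventuallyEq h1
  · have h0 : t ≠ 0 := by
      intro h
      apply ht
      rw [h]
      positivity
    have h1 : ContDiffAt ℝ 4 (fun t : ℝ => Real.smoothTransition (2 * t / δ - 1)) t := by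
      have h2 : ContDiff ℝ 4 (fun t : ℝ => 2 * t / δ - 1) := by fun_prop
      exact (Real.smoothTransition.contDiff.comp h2).contDiffAt
    exact h1.div contDiffAt_id h0

/-- The functions `conj w_j / |w|²`, cut off near the origin.
PROOF. `Θ j w = conj (w j) Ψ(∑ ‖w i‖²)` with `Ψ t = Real.smoothTransition (2 t / δ - 1) / t`, which is smooth on `ℝ` (it vanishes for `t ≤ δ / 2`) and `1 / t` for `t ≥ δ`. -/
theorem cut_fn (N : ℕ) {δ : ℝ} (hδ : 0 < δ) : ∃ Θ : Fin N → (Fin N → ℂ) → ℂ,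
    (∀ j, ContDiff ℝ 4 (Θ j)) ∧ ∀ j (w : Fin N → ℂ), δ ≤ ∑ i, ‖w i‖ ^ 2 →
      Θ j w = conj (w j) / ((∑ i, ‖w i‖ ^ 2 : ℝ) : ℂ) := by
  refine ⟨fun j w => conj (w j) *
    ((Real.smoothTransition (2 * (∑ i, ‖w i‖ ^ 2) / δ - 1) / (∑ i, ‖w i‖ ^ 2) : ℝ) : ℂ), ?_, ?_⟩
  · intro j
    have h1 : ContDiff ℝ 4 (fun w : Fin N → ℂ => ∑ i, ‖w i‖ ^ 2) := by
      refine ContDiff.sum fun i _ => ?_
      exact (contDiff_apply ℝ ℂ i).norm_sq ℂ
    have h2 : ContDiff ℝ 4 (fun w : Fin N → ℂ => conj (w j)) :=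
      Complex.conjCLE.contDiff.comp (contDiff_apply ℝ ℂ j)
    have h3 : ContDiff ℝ 4 (fun w : Fin N → ℂ =>
        ((Real.smoothTransition (2 * (∑ i, ‖w i‖ ^ 2) / δ - 1) / (∑ i, ‖w i‖ ^ 2) : ℝ) : ℂ)) :=
      Complex.ofRealCLM.contDiff.comp ((R11_psi hδ).comp h1)
    exact h2.mul h3
  · intro j w hw
    have h1 : 1 ≤ 2 * (∑ i, ‖w i‖ ^ 2) / δ - 1 := by
      have : 2 ≤ 2 * (∑ i, ‖w i‖ ^ 2) / δ := by
        rw [le_div_iff₀ hδ]
        linarith
      linarith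
    simp only [Real.smoothTransition.one_of_one_le h1]
    push_cast
    rw [one_div, div_eq_mul_inv]

/-- The derivative of a vector of holomorphic functions. -/
private theorem R11_fd {N : ℕ} {G : Fin N → ℂ → ℂ} {z : ℂ}
    (hG : ∀ j, DifferentiableAt ℂ (G j) z) :
    HasFDerivAt (fun ζ => (fun j => G j ζ : Fin N → ℂ))
      (ContinuousLinearMap.pi fun j => deriv (G j) z • (1 : ℂ →L[ℝ] ℂ)) z := by
  apply hasFDerivAt_pi.2
  intro j
  exact (hG j).hasDerivAt.complexToReal_fderiv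

private theorem R11_one {N : ℕ} (a : Fin N → ℂ) :
    (ContinuousLinearMap.pi fun j => a j • (1 : ℂ →L[ℝ] ℂ)) 1 = a := by
  ext j
  simp

private theorem R11_I {N : ℕ} (a : Fin N → ℂ) :
    (ContinuousLinearMap.pi fun j => a j • (1 : ℂ →L[ℝ] ℂ)) Complex.I = Complex.I • a := by
  ext j
  simp [mul_comm]

private theorem R11_norm {N : ℕ} (a : Fin N → ℂ) : ‖a‖ ^ 2 ≤ ∑ j, ‖a j‖ ^ 2 := by
  have h0 : 0 ≤ ∑ j, ‖a j‖ ^ 2 := Finset.sum_nonneg fun _ _ => by positivity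
  have h1 : ‖a‖ ≤ Real.sqrt (∑ j, ‖a j‖ ^ 2) := by
    rw [pi_norm_le_iff_of_nonneg (Real.sqrt_nonneg _)]
    intro j
    apply Real.le_sqrt_of_sq_le
    exact Finset.single_le_sum (f := fun j => ‖a j‖ ^ 2) (fun _ _ => by positivity)
      (Finset.mem_univ j)
  calc ‖a‖ ^ 2 ≤ Real.sqrt (∑ j, ‖a j‖ ^ 2) ^ 2 := by gcongr
    _ = _ := Real.sq_sqrt h0

/-- first derivatives -/
private theorem R11_first {N : ℕ} {Θ : (Fin N → ℂ) → ℂ} (hΘ : ContDiff ℝ 2 Θ)
    {G : Fin N → ℂ → ℂ} {z : ℂ} (hG : ∀ j, DifferentiableAt ℂ (G j) z) :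
    fderiv ℝ (fun z => Θ (fun j => G j z)) z 1 =
      fderiv ℝ Θ (fun j => G j z) (fun j => deriv (G j) z) ∧
    fderiv ℝ (fun z => Θ (fun j => G j z)) z Complex.I =
      fderiv ℝ Θ (fun j => G j z) (Complex.I • fun j => deriv (G j) z) := by
  have h1 : HasFDerivAt Θ (fderiv ℝ Θ (fun j => G j z)) (fun j => G j z) :=
    ((hΘ.differentiable (by norm_num)) _).hasFDerivAt
  have h2 : HasFDerivAt (fun z => Θ (fun j => G j z)) _ z := h1.comp z (R11_fd hG)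
  rw [h2.fderiv]
  constructor
  · rw [ContinuousLinearMap.comp_apply, R11_one]
  · rw [ContinuousLinearMap.comp_apply, R11_I]

/-- second derivative -/
private theorem R11_second {N : ℕ} {Θ : (Fin N → ℂ) → ℂ} (hΘ : ContDiff ℝ 2 Θ)
    {G : Fin N → ℂ → ℂ} {z : ℂ} {R : ℝ} (hG : ∀ j, DifferentiableOn ℂ (G j) (ball 0 R))
    (hz : z ∈ ball (0 : ℂ) R) (a : Fin N → ℂ) (ha : a = fun j => deriv (G j) z)
    (D : (Fin N → ℂ) →L[ℝ] (Fin N → ℂ) →L[ℝ] ℂ)
    (hD : D = fderiv ℝ (fderiv ℝ Θ) (fun j => G j z)) :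
    dz (db (fun z => Θ (fun j => G j z))) z =
      (D a a + Complex.I * D a (Complex.I • a) - Complex.I * D (Complex.I • a) a +
        D (Complex.I • a) (Complex.I • a)) / 4 := by
  have hGz : ∀ ζ ∈ ball (0 : ℂ) R, ∀ j, DifferentiableAt ℂ (G j) ζ := fun ζ hζ j =>
    (hG j).differentiableAt (isOpen_ball.mem_nhds hζ)
  have hG' : ∀ j, DifferentiableAt ℂ (deriv (G j)) z := fun j =>
    ((hG j).deriv isOpen_ball).differentiableAt (isOpen_ball.mem_nhds hz)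
  -- the function near z
  have he : db (fun z => Θ (fun j => G j z)) =ᶠ[𝓝 z] fun ζ =>
      (fderiv ℝ Θ (fun j => G j ζ) (fun j => deriv (G j) ζ) +
        Complex.I * fderiv ℝ Θ (fun j => G j ζ) (Complex.I • fun j => deriv (G j) ζ)) / 2 := by
    filter_upwards [isOpen_ball.mem_nhds hz] with ζ hζ
    unfold db
    rw [(R11_first hΘ (hGz ζ hζ)).1, (R11_first hΘ (hGz ζ hζ)).2]
  have hc : HasFDerivAt (fun ζ => fderiv ℝ Θ (fun j => G j ζ))
      (D.comp (ContinuousLinearMap.pi fun j => deriv (G j) z • (1 : ℂ →L[ℝ] ℂ))) z := by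
    have h1 : HasFDerivAt (fderiv ℝ Θ) D (fun j => G j z) := by
      rw [hD]
      exact (((hΘ.fderiv_right (m := 1) (by norm_num)).differentiable (by norm_num)) _).hasFDerivAt
    exact h1.comp z (R11_fd (hGz z hz))
  have hu := R11_fd hG'
  have hu2 := hu.const_smul Complex.I
  have h1 := hc.clm_apply hu
  have h2 := hc.clm_apply hu2
  have h3 := ((h1.add (h2.const_mul Complex.I)).mul_const ((2 : ℂ)⁻¹))
  have h4 : HasFDerivAt (fun ζ =>
      (fderiv ℝ Θ (fun j => G j ζ) (fun j => deriv (G j) ζ) +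
        Complex.I * fderiv ℝ Θ (fun j => G j ζ) (Complex.I • fun j => deriv (G j) ζ)) / 2) _ z := h3
  unfold dz
  rw [he.fderiv_eq, h4.fderiv]
  obtain ⟨a', ha'⟩ : ∃ a' : Fin N → ℂ, a' = fun j => deriv (deriv (G j)) z := ⟨_, rfl⟩
  have e1 : (ContinuousLinearMap.pi fun j => deriv (G j) z • (1 : ℂ →L[ℝ] ℂ)) 1 = a := by
    rw [ha]; exact R11_one _
  have e2 : (ContinuousLinearMap.pi fun j => deriv (G j) z • (1 : ℂ →L[ℝ] ℂ)) Complex.I =
      Complex.I • a := by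
    rw [ha]; exact R11_I _
  have e3 : (ContinuousLinearMap.pi fun j => deriv (deriv (G j)) z • (1 : ℂ →L[ℝ] ℂ)) 1 = a' := by
    rw [ha']; exact R11_one _
  have e4 : (ContinuousLinearMap.pi fun j => deriv (deriv (G j)) z • (1 : ℂ →L[ℝ] ℂ)) Complex.I =
      Complex.I • a' := by
    rw [ha']; exact R11_I _
  have e5 : Complex.I • Complex.I • a' = -a' := by
    rw [smul_smul, Complex.I_mul_I, neg_one_smul]
  simp only [add_apply, smul_apply,
    ContinuousLinearMap.comp_apply, ContinuousLinearMap.flip_apply, Pi.smul_apply, e1, e2, e3, e4,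
    e5, ← ha, smul_eq_mul, map_neg]
  have hI : Complex.I ^ 2 = -1 := Complex.I_sq
  ring_nf
  simp only [hI]
  ring

/-- The derivatives of `Θ ∘ G`, `G` holomorphic.
PROOF. Let `G' X = (G_j' (z) X)_j`. `D(Θ ∘ G)(z) X = DΘ(G z)(G' X)`, so the first derivatives are at most `sup ‖DΘ‖ ‖G'‖`; `lap (Θ ∘ G) = D²Θ(G' 1, G' 1) + D²Θ(G' I, G' I)` (the terms with the second derivatives of `G` cancel: `G` is harmonic), `= 4 dz (db (Θ ∘ G))` (`lap_eq`). The norms of `DΘ`, `D²Θ` are bounded on the compact set `{‖w j‖ ≤ M}`; `‖G' X‖² ≤ ∑ ‖G_j'‖²` for `‖X‖ = 1` (sup norm on `Fin N → ℂ`). -/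
theorem comp_bd (N : ℕ) {Θ : (Fin N → ℂ) → ℂ} (hΘ : ContDiff ℝ 2 Θ) (M : ℝ) : ∃ K : ℝ, 0 ≤ K ∧
    ∀ (R : ℝ) (G : Fin N → ℂ → ℂ), (∀ j, DifferentiableOn ℂ (G j) (ball 0 R)) →
      ∀ z ∈ ball (0 : ℂ) R, (∀ j, ‖G j z‖ ≤ M) →
      ‖Θ (fun j => G j z)‖ ≤ K ∧
      ‖db (fun z => Θ (fun j => G j z)) z‖ ^ 2 ≤ K * ∑ j, ‖deriv (G j) z‖ ^ 2 ∧
      ‖dz (fun z => Θ (fun j => G j z)) z‖ ^ 2 ≤ K * ∑ j, ‖deriv (G j) z‖ ^ 2 ∧
      ‖dz (db (fun z => Θ (fun j => G j z))) z‖ ≤ K * ∑ j, ‖deriv (G j) z‖ ^ 2 := by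
  have hcp := isCompact_closedBall (0 : Fin N → ℂ) |M|
  obtain ⟨C0, h0⟩ := hcp.exists_bound_of_continuousOn hΘ.continuous.continuousOn
  obtain ⟨C1, h1⟩ := hcp.exists_bound_of_continuousOn
    (hΘ.continuous_fderiv (by norm_num)).continuousOn
  have hΘ' : ContDiff ℝ 1 (fderiv ℝ Θ) := hΘ.fderiv_right (m := 1) (by norm_num)
  obtain ⟨C2, h2⟩ := hcp.exists_bound_of_continuousOn
    (hΘ'.continuous_fderiv (by norm_num)).continuousOn
  have hK0 : 0 ≤ |C0| + C1 ^ 2 + |C2| := by positivity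
  refine ⟨|C0| + C1 ^ 2 + |C2|, hK0, fun R G hG z hz hM => ?_⟩
  have hw : (fun j => G j z) ∈ closedBall (0 : Fin N → ℂ) |M| := by
    rw [mem_closedBall, dist_zero_right, pi_norm_le_iff_of_nonneg (abs_nonneg M)]
    exact fun j => (hM j).trans (le_abs_self M)
  have b0 := h0 _ hw
  have b1 := h1 _ hw
  have b2 := h2 _ hw
  obtain ⟨a, ha⟩ : ∃ a : Fin N → ℂ, a = fun j => deriv (G j) z := ⟨_, rfl⟩
  have hGz : ∀ j, DifferentiableAt ℂ (G j) z := fun j =>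
    (hG j).differentiableAt (isOpen_ball.mem_nhds hz)
  obtain ⟨f1, f2⟩ := R11_first hΘ hGz
  rw [← ha] at f1 f2
  have hS : ‖a‖ ^ 2 ≤ ∑ j, ‖deriv (G j) z‖ ^ 2 := by
    have := R11_norm a
    rwa [ha] at this ⊢
  have hS0 : 0 ≤ ∑ j, ‖deriv (G j) z‖ ^ 2 := Finset.sum_nonneg fun _ _ => by positivity
  have hIa : ‖Complex.I • a‖ = ‖a‖ := by rw [norm_smul, Complex.norm_I, one_mul]
  have g1 : ‖fderiv ℝ (fun z => Θ (fun j => G j z)) z 1‖ ≤ C1 * ‖a‖ := by
    rw [f1]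
    exact ((fderiv ℝ Θ (fun j => G j z)).le_opNorm a).trans (by gcongr)
  have g2 : ‖fderiv ℝ (fun z => Θ (fun j => G j z)) z Complex.I‖ ≤ C1 * ‖a‖ := by
    rw [f2]
    refine ((fderiv ℝ Θ (fun j => G j z)).le_opNorm _).trans ?_
    rw [hIa]
    gcongr
  have key : ∀ u : ℂ, ‖u‖ ≤ C1 * ‖a‖ →
      ‖u‖ ^ 2 ≤ (|C0| + C1 ^ 2 + |C2|) * ∑ j, ‖deriv (G j) z‖ ^ 2 := fun u hu => by
    calc ‖u‖ ^ 2 ≤ (C1 * ‖a‖) ^ 2 := by gcongr
      _ = C1 ^ 2 * ‖a‖ ^ 2 := by ring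
      _ ≤ (|C0| + C1 ^ 2 + |C2|) * ∑ j, ‖deriv (G j) z‖ ^ 2 := by
        gcongr
        linarith [abs_nonneg C0, abs_nonneg C2]
  refine ⟨?_, key _ ?_, key _ ?_, ?_⟩
  · have := le_abs_self C0
    have := abs_nonneg C2
    nlinarith [sq_nonneg C1]
  · unfold db
    rw [norm_div, Complex.norm_ofNat, div_le_iff₀ (by norm_num)]
    refine (norm_add_le _ _).trans ?_
    rw [norm_mul, Complex.norm_I, one_mul]
    linarith
  · unfold dz
    rw [norm_div, Complex.norm_ofNat, div_le_iff₀ (by norm_num)]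
    refine (norm_sub_le _ _).trans ?_
    rw [norm_mul, Complex.norm_I, one_mul]
    linarith
  · rw [R11_second hΘ hG hz a ha _ rfl]
    obtain ⟨D, hD⟩ : ∃ D, D = fderiv ℝ (fderiv ℝ Θ) (fun j => G j z) := ⟨_, rfl⟩
    rw [← hD] at b2 ⊢
    have k1 : ∀ u v : Fin N → ℂ, ‖u‖ = ‖a‖ → ‖v‖ = ‖a‖ → ‖D u v‖ ≤ C2 * ‖a‖ ^ 2 := by
      intro u v hu hv
      refine (D.le_opNorm₂ u v).trans ?_
      rw [hu, hv, mul_assoc, ← sq]
      gcongr
    have k2 := k1 a a rfl rfl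
    have k3 := k1 a (Complex.I • a) rfl hIa
    have k4 := k1 (Complex.I • a) a hIa rfl
    have k5 := k1 (Complex.I • a) (Complex.I • a) hIa hIa
    have k6 : ‖(D a a + Complex.I * D a (Complex.I • a) - Complex.I * D (Complex.I • a) a +
        D (Complex.I • a) (Complex.I • a)) / 4‖ ≤ C2 * ‖a‖ ^ 2 := by
      rw [norm_div, Complex.norm_ofNat, div_le_iff₀ (by norm_num)]
      have l1 := norm_add_le (D a a + Complex.I * D a (Complex.I • a) -
        Complex.I * D (Complex.I • a) a) (D (Complex.I • a) (Complex.I • a))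
      have l2 := norm_sub_le (D a a + Complex.I * D a (Complex.I • a))
        (Complex.I * D (Complex.I • a) a)
      have l3 := norm_add_le (D a a) (Complex.I * D a (Complex.I • a))
      rw [norm_mul, Complex.norm_I, one_mul] at l2 l3
      linarith
    refine k6.trans ?_
    calc C2 * ‖a‖ ^ 2 ≤ |C2| * ‖a‖ ^ 2 := by gcongr; exact le_abs_self C2
      _ ≤ (|C0| + C1 ^ 2 + |C2|) * ∑ j, ‖deriv (G j) z‖ ^ 2 := by
        gcongr
        nlinarith [abs_nonneg C0, sq_nonneg C1]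

end Pool.Agent.MPca0fc2.RC
end

section

/-! Functions of one holomorphic function with values in the disc. -/

set_option autoImplicit false

open Metric Set

namespace Pool.Agent.Lib.MP_ca0fc2_an

variable {n : ℕ}

/-- All the functions `g ∘ π`, `g` bounded and holomorphic on the unit disc. -/
def HinfOf (π : EuclideanSpace ℂ (Fin n) → ℂ) : Set (EuclideanSpace ℂ (Fin n) → ℂ) :=
  {u | ∃ g : ℂ → ℂ, DifferentiableOn ℂ g (ball 0 1) ∧ (∃ M : ℝ, ∀ x ∈ ball (0 : ℂ) 1, ‖g x‖ ≤ M) ∧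
    ∀ z, u z = g (π z)}

/-- The functions `q j` on the open set `C` are, modulo the functions in the hull of `T`, functions of
one arbitrary function: they belong to the analytic closure of the hull of `T` and of one arbitrary
bounded holomorphic function `F` on `C`, or they belong to the closed algebra generated by the hull of
`T` and all the functions `g ∘ π`, `g` in `H^∞` of the unit disc, where `π` is an arbitrary holomorphic
map of `C` into the unit disc. -/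
def OneDim {N : ℕ} (C : Set (EuclideanSpace ℂ (Fin n))) (T : Set (EuclideanSpace ℂ (Fin n) → ℂ))
    (q : Fin N → EuclideanSpace ℂ (Fin n) → ℂ) : Prop :=
  (∃ F : EuclideanSpace ℂ (Fin n) → ℂ, IsHinf C F ∧
    ∀ j, q j ∈ AnalyticClosureOn C (HullOn C T ∪ {F})) ∨
  ∃ π : EuclideanSpace ℂ (Fin n) → ℂ, DifferentiableOn ℂ π C ∧ (∀ z ∈ C, ‖π z‖ < 1) ∧
    ∀ j, q j ∈ ClosedAlgOn C (HullOn C T ∪ HinfOf π)

end Pool.Agent.Lib.MP_ca0fc2_an
end
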