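import Pool.Agent.Lib.MP_ca0fc2_an.Mg.G041
import Pool.Agent.Lib.MP_ca0fc2_an.Mg.G042

section

/-! Joint cluster values of tame functions and functions of `π`. -/

set_option autoImplicit false

open Metric Set MeasureTheory Filter Topology

namespace Pool.Agent.MPca0fc2.IND

open Pool.Agent.Lib.MP_ca0fc2_an
open Pool.Agent.MPca0fc2.CXS (LocOn)

variable {n : ℕ} {Δ : Set (EuclideanSpace ℂ (Fin n))}

private theorem R15_bh {π : EuclideanSpace ℂ (Fin n) → ℂ} (hπ : DifferentiableOn ℂ π Δ)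
    (hπ1 : ∀ z ∈ Δ, ‖π z‖ < 1) {u : EuclideanSpace ℂ (Fin n) → ℂ} (hu : u ∈ HinfOf π) :
    BH Δ (cf u) := by
  obtain ⟨g, hg, ⟨M, hM⟩, hx⟩ := hu
  refine ⟨fun _ => ?_, M, fun _ z hz => ?_⟩
  · have h1 : DifferentiableOn ℂ (g ∘ π) Δ := hg.comp hπ fun z hz =>
      mem_ball_zero_iff.2 (hπ1 z hz)
    exact h1.congr fun z _ => hx z
  · change ‖u z‖ ≤ M
    rw [hx z]
    exact hM _ (mem_ball_zero_iff.2 (hπ1 z hz))

private theorem R15_min {N : ℕ} (τ : Fin N → ℝ) (h : ∀ j, 0 < τ j) :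
    ∃ t : ℝ, 0 < t ∧ ∀ j, t ≤ τ j := by
  rcases isEmpty_or_nonempty (Fin N) with h0 | h0
  · exact ⟨1, one_pos, fun j => h0.elim j⟩
  · obtain ⟨j, hj⟩ := Finite.exists_min τ
    exact ⟨τ j, h j, hj⟩

/-- PROOF. Suppose that there is no such point. Let `K = {z ∈ Δ : ‖b i z - Φ (b i)‖ < ε for all i}` (open) and `w l = g l ∘ π - Φ (g l ∘ π)`, killed by `Φ`. For each `z ∈ K` some `‖w l z‖ ≥ ε`, so `∑ ‖w l z‖² ≥ ε²`. `RC.rc_pull` on `K` for the functions `x ↦ g l x - Φ (g l ∘ π)`: `w` is solvable on `K`, a contradiction to `Ext`. -/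
theorem cluster_gen (hΔ : IsOpen Δ) {A : Set (EuclideanSpace ℂ (Fin n) → ℂ)}
    (hAH : ∀ a ∈ A, IsHinf Δ a) {Φ : Char Δ Unit} (hE : Ext Δ A Φ)
    {π : EuclideanSpace ℂ (Fin n) → ℂ} (hπ : DifferentiableOn ℂ π Δ) (hπ1 : ∀ z ∈ Δ, ‖π z‖ < 1)
    {k : ℕ} {b : Fin k → EuclideanSpace ℂ (Fin n) → ℂ} (hb : ∀ i, b i ∈ A) {m : ℕ}
    {u : Fin m → EuclideanSpace ℂ (Fin n) → ℂ} (hu : ∀ l, u l ∈ HinfOf π) {ε : ℝ} (hε : 0 < ε) :
    ∃ z ∈ Δ, (∀ i, ‖b i z - Φ.φ (cf (b i))‖ < ε) ∧ ∀ l, ‖u l z - Φ.φ (cf (u l))‖ < ε := by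
  classical
  by_contra hcon
  push Not at hcon
  have huB : ∀ l, BH Δ (cf (u l)) := fun l => R15_bh hπ hπ1 (hu l)
  have hu' : ∀ l, ∃ g : ℂ → ℂ, DifferentiableOn ℂ g (ball 0 1) ∧
      (∃ M : ℝ, ∀ x ∈ ball (0 : ℂ) 1, ‖g x‖ ≤ M) ∧ ∀ z, u l z = g (π z) := hu
  choose g hg hMM hgu using hu'
  choose Mg hMg using hMM
  have hopen : IsOpen (cellOn Δ b (fun i => Φ.φ (cf (b i))) ε) :=
    CXS.isOpen_cellOn hΔ (fun i => (hAH _ (hb i)).1) _ _
  obtain ⟨w, hw⟩ : ∃ w : Fin m → EuclideanSpace ℂ (Fin n) → ℂ,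
    w = fun l z => u l z - Φ.φ (cf (u l)) := ⟨_, rfl⟩
  have hwB : ∀ l, BH Δ (cf (w l)) := fun l => by
    rw [hw]; exact (huB l).sub (BH.const _)
  have hw0 : ∀ l, Φ.φ (cf (w l)) = 0 := fun l => by
    have h1 := Char.map_sub Φ (huB l) (BH.const (Φ.φ (cf (u l))))
    rw [Φ.map_const, sub_self] at h1
    rw [hw]
    exact h1
  have hsub : cellOn Δ b (fun i => Φ.φ (cf (b i))) ε ⊆ Δ := fun z hz => hz.1
  obtain ⟨C, hC⟩ := RC.rc_pull (g := fun l x => g l x - Φ.φ (cf (u l)))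
    (M := ∑ l, (|Mg l| + ‖Φ.φ (cf (u l))‖)) (δ := ε ^ 2) hopen
    (hπ.mono hsub) (fun z hz => hπ1 z (hsub hz))
    (fun l => (hg l).sub (differentiableOn_const _)) (fun l x hx => by
      refine (norm_sub_le _ _).trans ?_
      refine (add_le_add_left ((hMg l x hx).trans (le_abs_self _)) _).trans ?_
      exact Finset.single_le_sum (f := fun l => |Mg l| + ‖Φ.φ (cf (u l))‖)
        (fun _ _ => by positivity) (Finset.mem_univ l)) (by positivity) (fun z hz => by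
      obtain ⟨l, hl⟩ := hcon z hz.1 hz.2
      rw [hgu l z] at hl
      refine (pow_le_pow_left₀ hε.le hl 2).trans ?_
      exact Finset.single_le_sum (f := fun l => ‖g l (π z) - Φ.φ (cf (u l))‖ ^ 2)
        (fun _ _ => by positivity) (Finset.mem_univ l))
  refine hE m w hwB hw0 k b hb ε hε C ?_
  have hwe : w = fun l z => g l (π z) - Φ.φ (cf (u l)) := by
    rw [hw]
    funext l z
    rw [hgu l z]
  rw [hwe]
  exact hC

private theorem R15_adj {Φ : Char Δ Unit} {S : Set (EuclideanSpace ℂ (Fin n) → ℂ)}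
    (hS : ∀ g ∈ S, BH Δ (cf g)) {p : EuclideanSpace ℂ (Fin n) → ℂ}
    (hp : p ∈ Algebra.adjoin ℂ S) : BH Δ (cf p) ∧ ∀ η : ℝ, 0 < η →
      ∃ (F : Finset (EuclideanSpace ℂ (Fin n) → ℂ)) (τ : ℝ), 0 < τ ∧ (∀ g ∈ F, g ∈ S) ∧
        ∀ z ∈ Δ, (∀ g ∈ F, ‖g z - Φ.φ (cf g)‖ < τ) → ‖p z - Φ.φ (cf p)‖ < η := by
  classical
  induction hp using Algebra.adjoin_induction with
  | mem x hx =>
    exact ⟨hS x hx, fun η hη => ⟨{x}, η, hη, fun g hg => by rwa [Finset.mem_singleton.1 hg],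
      fun z _ h => h x (Finset.mem_singleton_self x)⟩⟩
  | algebraMap c =>
    refine ⟨BH.const c, fun η hη => ⟨∅, 1, one_pos, by simp, fun z _ _ => ?_⟩⟩
    have h1 : Φ.φ (cf (algebraMap ℂ (EuclideanSpace ℂ (Fin n) → ℂ) c)) = c := Φ.map_const c
    rw [h1]
    change ‖c - c‖ < η
    simpa using hη
  | add x y _ _ hx hy =>
    refine ⟨hx.1.add hy.1, fun η hη => ?_⟩
    obtain ⟨F, τ, hτ, hF, h1⟩ := hx.2 (η / 2) (by positivity)
    obtain ⟨G, σ, hσ, hG, h2⟩ := hy.2 (η / 2) (by positivity)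
    refine ⟨F ∪ G, min τ σ, lt_min hτ hσ, fun g hg => ?_, fun z hz h => ?_⟩
    · rcases Finset.mem_union.1 hg with hg | hg
      · exact hF g hg
      · exact hG g hg
    · have h3 := h1 z hz fun g hg => (h g (Finset.mem_union_left _ hg)).trans_le (min_le_left _ _)
      have h4 := h2 z hz fun g hg => (h g (Finset.mem_union_right _ hg)).trans_le (min_le_right _ _)
      have h5 : Φ.φ (cf (x + y)) = Φ.φ (cf x) + Φ.φ (cf y) := Φ.map_add hx.1 hy.1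
      rw [h5]
      calc ‖(x + y) z - (Φ.φ (cf x) + Φ.φ (cf y))‖
          = ‖(x z - Φ.φ (cf x)) + (y z - Φ.φ (cf y))‖ := by
            congr 1; change x z + y z - _ = _; ring
        _ ≤ _ := norm_add_le _ _
        _ < η / 2 + η / 2 := add_lt_add h3 h4
        _ = η := by ring
  | mul x y _ _ hx hy =>
    refine ⟨hx.1.mul hy.1, fun η hη => ?_⟩
    obtain ⟨C, hC0, hC⟩ := hx.1.bdd'
    obtain ⟨D, hD⟩ : ∃ D : ℝ, D = ‖Φ.φ (cf y)‖ := ⟨_, rfl⟩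
    have hD0 : 0 ≤ D := hD ▸ norm_nonneg _
    obtain ⟨F, τ, hτ, hF, h1⟩ := hx.2 (η / (2 * (D + 1))) (by positivity)
    obtain ⟨G, σ, hσ, hG, h2⟩ := hy.2 (η / (2 * C)) (by positivity)
    refine ⟨F ∪ G, min τ σ, lt_min hτ hσ, fun g hg => ?_, fun z hz h => ?_⟩
    · rcases Finset.mem_union.1 hg with hg | hg
      · exact hF g hg
      · exact hG g hg
    · have h3 := h1 z hz fun g hg => (h g (Finset.mem_union_left _ hg)).trans_le (min_le_left _ _)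
      have h4 := h2 z hz fun g hg => (h g (Finset.mem_union_right _ hg)).trans_le (min_le_right _ _)
      have h5 : Φ.φ (cf (x * y)) = Φ.φ (cf x) * Φ.φ (cf y) := Φ.map_mul hx.1 hy.1
      rw [h5]
      have h6 : ‖x z * (y z - Φ.φ (cf y))‖ < η / 2 := by
        rw [norm_mul]
        calc ‖x z‖ * ‖y z - Φ.φ (cf y)‖ ≤ C * ‖y z - Φ.φ (cf y)‖ :=
              mul_le_mul_of_nonneg_right (hC () z hz) (norm_nonneg _)
          _ < C * (η / (2 * C)) := mul_lt_mul_of_pos_left h4 hC0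
          _ = η / 2 := by field_simp
      have h7 : ‖(x z - Φ.φ (cf x)) * Φ.φ (cf y)‖ ≤ η / 2 := by
        rw [norm_mul, ← hD]
        calc ‖x z - Φ.φ (cf x)‖ * D ≤ (η / (2 * (D + 1))) * (D + 1) :=
              mul_le_mul h3.le (by linarith) hD0 (by positivity)
          _ = η / 2 := by field_simp
      calc ‖(x * y) z - Φ.φ (cf x) * Φ.φ (cf y)‖
          = ‖x z * (y z - Φ.φ (cf y)) + (x z - Φ.φ (cf x)) * Φ.φ (cf y)‖ := by
            congr 1; change x z * y z - _ = _; ring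
        _ ≤ _ := norm_add_le _ _
        _ < η / 2 + η / 2 := add_lt_add_of_lt_of_le h6 h7
        _ = η := by ring

/-- PROOF. Each `q j` is, up to `ε / 4`, in `Algebra.adjoin ℂ (A ∪ HinfOf π)`. For `p ∈ Algebra.adjoin ℂ S` (`S` a set of functions in `H^∞(Δ)`) and `η > 0` there are a finite set `S' ⊆ S` and `τ > 0` such that `‖p z - Φ p‖ < η` whenever `‖s z - Φ s‖ < τ` for all `s ∈ S'` (`Algebra.adjoin_induction`: constants, sums, products; all functions and values are bounded). Take the finite sets for all `p j` together: finitely many `b i ∈ A` and `u l ∈ HinfOf π`, and the minimum of the `τ`; `cluster_gen`. `‖q j z - Φ (q j)‖ ≤ ‖q j z - p j z‖ + ‖p j z - Φ (p j)‖ + ‖Φ (p j - q j)‖ < ε / 4 + ε / 4 + ε / 4` (`Char.bound`). -/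
theorem cluster_alg (hΔ : IsOpen Δ) {A : Set (EuclideanSpace ℂ (Fin n) → ℂ)}
    (hAH : ∀ a ∈ A, IsHinf Δ a) {Φ : Char Δ Unit} (hE : Ext Δ A Φ)
    {π : EuclideanSpace ℂ (Fin n) → ℂ} (hπ : DifferentiableOn ℂ π Δ) (hπ1 : ∀ z ∈ Δ, ‖π z‖ < 1)
    {N : ℕ} {q : Fin N → EuclideanSpace ℂ (Fin n) → ℂ}
    (hq : ∀ j, q j ∈ ClosedAlgOn Δ (A ∪ HinfOf π)) {ε : ℝ} (hε : 0 < ε) :
    ∃ z ∈ Δ, ∀ j, ‖q j z - Φ.φ (cf (q j))‖ < ε := by
  classical
  have hSB : ∀ g ∈ A ∪ HinfOf π, BH Δ (cf g) := by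
    rintro g (hg | hg)
    · exact bh_of_hinf (hAH g hg)
    · exact R15_bh hπ hπ1 hg
  have hqB : ∀ j, BH Δ (cf (q j)) := fun j =>
    bh_closed (fun p hp => (R15_adj (Φ := Φ) hSB hp).1) (hq j)
  have h0 : ∀ j, ∃ p ∈ Algebra.adjoin ℂ (A ∪ HinfOf π), ∀ z ∈ Δ, ‖q j z - p z‖ ≤ ε / 4 :=
    fun j => (hq j).2 (ε / 4) (by positivity)
  choose p hp hqp using h0
  have hpB : ∀ j, BH Δ (cf (p j)) := fun j => (R15_adj (Φ := Φ) hSB (hp j)).1
  choose F τ hτ hF hFp using fun j => (R15_adj (Φ := Φ) hSB (hp j)).2 (ε / 4) (by positivity)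
  obtain ⟨t, ht, htτ⟩ := R15_min τ hτ
  obtain ⟨W, hW⟩ : ∃ W : Finset (EuclideanSpace ℂ (Fin n) → ℂ), W = Finset.univ.biUnion F :=
    ⟨_, rfl⟩
  have hWS : ∀ g ∈ W, g ∈ A ∪ HinfOf π := fun g hg => by
    rw [hW, Finset.mem_biUnion] at hg
    obtain ⟨j, -, hg⟩ := hg
    exact hF j g hg
  obtain ⟨W1, hW1⟩ : ∃ W1 : Finset (EuclideanSpace ℂ (Fin n) → ℂ), W1 = W.filter (· ∈ A) :=
    ⟨_, rfl⟩
  obtain ⟨W2, hW2⟩ : ∃ W2 : Finset (EuclideanSpace ℂ (Fin n) → ℂ), W2 = W.filter (· ∈ HinfOf π) :=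
    ⟨_, rfl⟩
  have hW1m : ∀ g ∈ W1, g ∈ A := fun g hg => by
    rw [hW1] at hg
    exact (Finset.mem_filter.1 hg).2
  have hW2m : ∀ g ∈ W2, g ∈ HinfOf π := fun g hg => by
    rw [hW2] at hg
    exact (Finset.mem_filter.1 hg).2
  obtain ⟨z, hz, h1, h2⟩ := cluster_gen hΔ hAH hE hπ hπ1
    (b := fun i => (W1.equivFin.symm i).1) (u := fun l => (W2.equivFin.symm l).1)
    (fun i => hW1m _ (W1.equivFin.symm i).2) (fun l => hW2m _ (W2.equivFin.symm l).2) ht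
  have h3 : ∀ g ∈ W, ‖g z - Φ.φ (cf g)‖ < t := by
    intro g hg
    rcases hWS g hg with hgA | hgU
    · have hg1 : g ∈ W1 := by rw [hW1, Finset.mem_filter]; exact ⟨hg, hgA⟩
      have := h1 (W1.equivFin ⟨g, hg1⟩)
      simpa only [Equiv.symm_apply_apply] using this
    · have hg1 : g ∈ W2 := by rw [hW2, Finset.mem_filter]; exact ⟨hg, hgU⟩
      have := h2 (W2.equivFin ⟨g, hg1⟩)
      simpa only [Equiv.symm_apply_apply] using this
  refine ⟨z, hz, fun j => ?_⟩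
  have h4 : ‖p j z - Φ.φ (cf (p j))‖ < ε / 4 := hFp j z hz fun g hg =>
    (h3 g (by rw [hW, Finset.mem_biUnion]; exact ⟨j, Finset.mem_univ _, hg⟩)).trans_le (htτ j)
  have h5 : ‖Φ.φ (cf (q j)) - Φ.φ (cf (p j))‖ ≤ ε / 4 := by
    rw [← Char.map_sub Φ (hqB j) (hpB j)]
    exact Φ.bound ((hqB j).sub (hpB j)) (by positivity) fun _ z hz => hqp j z hz
  have h6 := hqp j z hz
  calc ‖q j z - Φ.φ (cf (q j))‖
      = ‖(q j z - p j z) + (p j z - Φ.φ (cf (p j))) + -(Φ.φ (cf (q j)) - Φ.φ (cf (p j)))‖ := by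
        congr 1; ring
    _ ≤ ‖q j z - p j z‖ + ‖p j z - Φ.φ (cf (p j))‖ + ‖-(Φ.φ (cf (q j)) - Φ.φ (cf (p j)))‖ :=
        norm_add₃_le
    _ < ε := by rw [norm_neg]; linarith

end Pool.Agent.MPca0fc2.IND
end

section

/-! The corona theorem for data which are near functions of one function on each cell. -/

set_option autoImplicit false

open Metric Set MeasureTheory Filter Topology

namespace Pool.Agent.MPca0fc2.IND

open Pool.Agent.Lib.MP_ca0fc2_an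
open Pool.Agent.MPca0fc2.CXS (LocOn)

variable {n : ℕ} {Δ : Set (EuclideanSpace ℂ (Fin n))}

/-- Joint cluster values.
PROOF. The two cases of `OneDim`. In the first case `cluster_E` with `inT_closureE` (as in `q1_cells` in `N5.lean`, for `A' = HullOn Δ A`: `Ext Δ₁ A' Φ₁`); in the second case `cluster_alg` for the set `HullOn Δ₁ A'` (`ext_hull`), with `HullOn Δ₁ A ⊆ HullOn Δ₁ A'` (`FD.hullOn_mono`, `sub_hull`), so `ClosedAlgOn Δ₁ (HullOn Δ₁ A ∪ HinfOf π) ⊆ ClosedAlgOn Δ₁ (HullOn Δ₁ A' ∪ HinfOf π)` (`Algebra.adjoin_mono`). -/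
theorem cluster_one {Δ₁ : Set (EuclideanSpace ℂ (Fin n))} (hΔ₁ : IsOpen Δ₁) (hsub : Δ₁ ⊆ Δ)
    {A : Set (EuclideanSpace ℂ (Fin n) → ℂ)} (hAH : ∀ a ∈ A, IsHinf Δ a) {Φ₁ : Char Δ₁ Unit}
    (hE₁ : Ext Δ₁ (HullOn Δ A) Φ₁) {N : ℕ} {q : Fin N → EuclideanSpace ℂ (Fin n) → ℂ}
    (hq : OneDim Δ₁ A q) {ε : ℝ} (hε : 0 < ε) :
    (∀ j, BH Δ₁ (cf (q j))) ∧ ∃ z ∈ Δ₁, ∀ j, ‖q j z - Φ₁.φ (cf (q j))‖ < ε := by
  have hAH' : ∀ b ∈ HullOn Δ A, IsHinf Δ b := fun b hb => hb.1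
  have hAH1 : ∀ b ∈ HullOn Δ A, IsHinf Δ₁ b := fun b hb => FD.isHinf_mono hsub (hAH' b hb)
  have hHH : HullOn Δ₁ A ⊆ HullOn Δ₁ (HullOn Δ A) := fun u hu =>
    FD.hullOn_mono (subset_refl _) (sub_hull hAH) hu
  rcases hq with ⟨F, hF, hq⟩ | ⟨π, hπ, hπ1, hq⟩
  · have hq' : ∀ j, q j ∈ AnalyticClosureOn Δ₁ (HullOn Δ₁ (HullOn Δ A) ∪ {F}) := fun j =>
      FD.analyticClosureOn_mono (subset_refl _) (union_subset_union_left _ hHH) (hq j)
    refine ⟨fun j => bh_closure (by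
      rintro x (hx | hx)
      · exact bh_of_hinf hx.1
      · rw [mem_singleton_iff] at hx
        subst hx
        exact bh_of_hinf hF) _ (hq j), ?_⟩
    exact cluster_E hAH1 hF hE₁ q
      (fun j => inT_closureE hΔ₁ hAH1 hF hE₁ _ (hq' j)) hε
  · have hq' : ∀ j, q j ∈ ClosedAlgOn Δ₁ (HullOn Δ₁ (HullOn Δ A) ∪ HinfOf π) := fun j =>
      ⟨(hq j).1, fun ε hε => by
        obtain ⟨p, hp, hp'⟩ := (hq j).2 ε hε
        exact ⟨p, Algebra.adjoin_mono (union_subset_union_left _ hHH) hp, hp'⟩⟩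
    have hbd : ∀ g ∈ HullOn Δ₁ (HullOn Δ A) ∪ HinfOf π, BH Δ₁ (cf g) := by
      rintro x (hx | hx)
      · exact bh_of_hinf hx.1
      · obtain ⟨g, hg, ⟨M, hM⟩, hx⟩ := hx
        refine ⟨fun _ => ?_, M, fun _ z hz => ?_⟩
        · have h1 : DifferentiableOn ℂ (g ∘ π) Δ₁ := hg.comp hπ fun z hz =>
            mem_ball_zero_iff.2 (hπ1 z hz)
          exact h1.congr fun z _ => hx z
        · change ‖x z‖ ≤ M
          rw [hx z]
          exact hM _ (mem_ball_zero_iff.2 (hπ1 z hz))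
    refine ⟨fun j => bh_closed (fun q hq => ?_) (hq' j), ?_⟩
    · induction hq using Algebra.adjoin_induction with
      | mem x hx => exact hbd x hx
      | algebraMap c => exact BH.const c
      | add x y _ _ hx hy => exact hx.add hy
      | mul x y _ _ hx hy => exact hx.mul hy
    · exact cluster_alg hΔ₁ (fun a ha => ha.1) (ext_hull hΔ₁ hAH1 hE₁) hπ hπ1 hq' hε

/-- The corona theorem for data which are near functions of one function on each cell; the function may depend on the cell.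
PROOF. As `q1_cells` in `N5.lean`, with `cluster_one` in place of `cluster_E` and `inT_closureE`. -/
theorem q1_one (hΔ : IsOpen Δ) {A : Set (EuclideanSpace ℂ (Fin n) → ℂ)} (hA : LocOn Δ A)
    (hAH : ∀ a ∈ A, IsHinf Δ a) {N : ℕ} {f : Fin N → EuclideanSpace ℂ (Fin n) → ℂ} {δ : ℝ}
    (hf : ∀ j, IsHinf Δ (f j)) (hδ : ∀ z ∈ Δ, δ ≤ ∑ j, ‖f j z‖ ^ 2) {k : ℕ}
    {a : Fin k → EuclideanSpace ℂ (Fin n) → ℂ} (ha : ∀ i, a i ∈ HullOn Δ A) {s : ℝ} (hs : 0 < s)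
    (hc : ∀ c : Fin k → ℂ, ∃ (η : ℝ) (q : Fin N → EuclideanSpace ℂ (Fin n) → ℂ),
      4 * N * η ^ 2 < δ ∧ OneDim (cellOn Δ a c s) A q ∧
      ∀ j, ∀ z ∈ cellOn Δ a c s, ‖f j z - q j z‖ ≤ η) :
    ∃ C : ℝ, SolvableOn f Δ C := by
  classical
  have hA' : LocOn Δ (HullOn Δ A) := CXS.locOn_hull hΔ (fun u hu => (hAH u hu).1) hA
  have hAH' : ∀ b ∈ HullOn Δ A, IsHinf Δ b := fun b hb => hb.1
  refine unimod_of_chars hΔ (fun j => bh_of_hinf (hf j)) (fun Φ => ?_)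
  by_contra hcon
  push Not at hcon
  have hE : Ext Δ (HullOn Δ A) Φ := ext_of_loc hA' hAH' Φ
  obtain ⟨η, q, hη, hq, hfq⟩ := hc (fun i => Φ.φ (cf (a i)))
  obtain ⟨Φ₁, hE₁, hΦ₁⟩ := exists_ext hΔ hAH' hE ha hs
  have hsub : cellOn Δ a (fun i => Φ.φ (cf (a i))) s ⊆ Δ := fun z hz => hz.1
  have hopen : IsOpen (cellOn Δ a (fun i => Φ.φ (cf (a i))) s) :=
    CXS.isOpen_cellOn hΔ (fun i => (hAH' _ (ha i)).1) _ _
  generalize cellOn Δ a (fun i => Φ.φ (cf (a i))) s = Δ₁ at *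
  have hfB : ∀ j, BH Δ₁ (cf (f j)) := fun j => bh_of_hinf (FD.isHinf_mono hsub (hf j))
  -- a small number
  obtain ⟨ε, hε0, hε⟩ : ∃ ε : ℝ, 0 < ε ∧ N * (2 * η + ε) ^ 2 < δ := by
    have h1 : Filter.Tendsto (fun ε : ℝ => N * (2 * η + ε) ^ 2) (𝓝[>] 0)
        (𝓝 (N * (2 * η + 0) ^ 2)) := by
      refine (Continuous.tendsto' (by fun_prop) _ _ rfl).mono_left nhdsWithin_le_nhds
    have h2 : N * (2 * η + 0) ^ 2 < δ := by
      have : N * (2 * η + 0) ^ 2 = 4 * N * η ^ 2 := by ring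
      rw [this]; exact hη
    obtain ⟨ε, h3, h4⟩ := ((h1.eventually_lt_const h2).and self_mem_nhdsWithin).exists
    exact ⟨ε, h4, h3⟩
  obtain ⟨hqB, z, hz, hz1⟩ := cluster_one hopen hsub hAH hE₁ hq hε0
  have h3 : ∀ j, ‖f j z‖ ≤ 2 * η + ε := by
    intro j
    have hη0 : 0 ≤ η := (norm_nonneg _).trans (hfq j z hz)
    have hcon1 : Φ₁.φ (cf (f j)) = 0 := by
      rw [hΦ₁ _ (bh_of_hinf (hf j))]
      exact hcon j
    have h4 : ‖Φ₁.φ (cf (q j))‖ ≤ η := by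
      have h5 : Φ₁.φ (cf (q j)) = -(Φ₁.φ (fun t z => cf (f j) t z - cf (q j) t z)) := by
        rw [Char.map_sub Φ₁ (hfB j) (hqB j), hcon1]
        ring
      rw [h5, norm_neg]
      exact Φ₁.bound ((hfB j).sub (hqB j)) hη0 fun _ z hz => hfq j z hz
    have h6 := (hz1 j).le
    have h7 := hfq j z hz
    calc ‖f j z‖ = ‖(f j z - q j z) + (q j z - Φ₁.φ (cf (q j))) + Φ₁.φ (cf (q j))‖ := by
          congr 1; ring
      _ ≤ ‖f j z - q j z‖ + ‖q j z - Φ₁.φ (cf (q j))‖ + ‖Φ₁.φ (cf (q j))‖ := norm_add₃_le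
      _ ≤ 2 * η + ε := by linarith
  have h4 : ∑ j, ‖f j z‖ ^ 2 ≤ ∑ _j : Fin N, (2 * η + ε) ^ 2 :=
    Finset.sum_le_sum fun j _ => pow_le_pow_left₀ (norm_nonneg _) (h3 j) 2
  rw [Finset.sum_const, Finset.card_univ, Fintype.card_fin, nsmul_eq_mul] at h4
  have h5 := hδ z (hsub hz)
  linarith

end Pool.Agent.MPca0fc2.IND
end
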