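import Mathlib
import Pool.Agent.Lib.MP_ca0fc2_an.Mg.G059
import Pool.Agent.Lib.MP_ca0fc2_an.Mg.G055
import Pool.Agent.Lib.MP_ca0fc2_an.Mg.G073
import Pool.Agent.Lib.MP_ca0fc2_an.CoronaDisc
import Pool.Agent.Lib.MP_ca0fc2_an.QTX6
import Pool.Agent.Lib.MP_ca0fc2_an.QTX7a
import Pool.Agent.Lib.MP_ca0fc2_an.Mg.G010
import Pool.Agent.Lib.MP_ca0fc2_an.DACls
import Pool.Agent.Lib.MP_ca0fc2_an.Mg.G008
import Pool.Agent.Lib.MP_ca0fc2_an.CPSP
import Pool.Agent.Lib.MP_ca0fc2_an.CVLine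
import Pool.Agent.Lib.MP_ca0fc2_an.Mg.G003

section

set_option autoImplicit false

open Metric Set MeasureTheory Filter Topology
open scoped InnerProductSpace ENNReal

namespace Pool.Agent.MPca0fc2.DA

open Pool.Agent.Lib.MP_ca0fc2_an
open Pool.Agent.MPca0fc2.PT

/-- A multiplier of the Drury-Arveson space satisfies the Carleson condition with
`p = 2 n + 12`. -/
theorem gradCarleson_of_multiplier {n : ℕ} (hn : 1 ≤ n) : ∃ A : ℝ,
    ∀ u : EuclideanSpace ℂ (Fin n) → ℂ, DAMultiplier 1 u → GradCarleson (2 * n + 12) A u := by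
  obtain ⟨m, hm⟩ : ∃ m, n = m + 1 := ⟨n - 1, by omega⟩
  subst hm
  obtain ⟨A, hA, h⟩ := DA_carl (volume : Measure (EuclideanSpace ℂ (Fin (m + 1))))
    finrank_euclideanSpace_fin
  refine ⟨max A 1, fun u hu => ⟨hu.1, fun z hz =>
    (DAMultiplier_bound zero_le_one hu hz).trans (le_max_right _ _), fun w hw => ?_⟩⟩
  have h1 := (h u hu).2.2 w hw
  rw [nu, lintegral_withDensity_eq_lintegral_mul] at h1
  rotate_left
  · apply ENNReal.measurable_ofReal.comp
    exact ((gd_IG_meas u).pow_const _).div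
      ((measurable_const.sub (measurable_norm.pow_const 2)).pow_const (m + 2))
  · exact ENNReal.measurable_ofReal.comp (gd_HH_meas w)
  refine le_trans (le_of_eq ?_) (h1.trans (ENNReal.ofReal_le_ofReal (le_max_left _ _)))
  apply setLIntegral_congr_fun measurableSet_ball
  intro z hz
  have hz1 := mem_ball_zero_iff.mp hz
  have h0 : 0 ≤ IG2 u z := gd_IG_nonneg hz1
  have hpos : 0 < 1 - ‖z‖ ^ 2 := by nlinarith [norm_nonneg z]
  simp only [Pi.mul_apply]
  rw [← ENNReal.ofReal_mul (by positivity), CG.invGrad2_eq]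
  congr 1
  have h1 : invKer w z = PT.HH w z := rfl
  have h2 : ((2 * ((m + 1 : ℕ) : ℝ) + 12) / 2 : ℝ) = (2 * (m + 7) : ℝ) / 2 := by push_cast; ring
  rw [h1, h2]
  ring

end Pool.Agent.MPca0fc2.DA
end

section

/-! Compositions of multipliers, and of functions with Carleson gradients, with smooth maps. -/

set_option autoImplicit false

open Metric Set MeasureTheory Filter Topology
open scoped InnerProductSpace ENNReal

namespace Pool.Agent.MPca0fc2.CP

open Pool.Agent.Lib.MP_ca0fc2_an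
open Pool.Agent.MPca0fc2.PT

section

variable {E : Type*} [NormedAddCommGroup E] [InnerProductSpace ℂ E]

/-- the derivative is bounded by the invariant gradient -/
theorem BB_IG [FiniteDimensional ℂ E] {u : E → ℂ} {w : E} (hw : ‖w‖ < 1) (X : E) :
    ‖fderiv ℂ u w X‖ ^ 2 ≤ IG2 u w * BB w X ^ 2 := by
  obtain ⟨v, hv, -⟩ := gg'_zero_surj hw X
  have h1 := gd_IG (u := u) hw v
  rw [hv] at h1
  have h2 : BB w X = ‖v‖ := by rw [← hv, BB_gg hw]
  have h3 : 0 ≤ IG2 u w := gd_IG_nonneg hw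
  rw [h2]
  calc ‖fderiv ℂ u w X‖ ^ 2 ≤ (Real.sqrt (IG2 u w) * ‖v‖) ^ 2 :=
        pow_le_pow_left₀ (norm_nonneg _) h1 2
    _ = IG2 u w * ‖v‖ ^ 2 := by rw [mul_pow, Real.sq_sqrt h3]

variable {G : Type*} [NormedAddCommGroup G] [InnerProductSpace ℂ G]

end

variable {n k : ℕ}

end Pool.Agent.MPca0fc2.CP
end

section

/-!
# Monotonicity of the classes of generators, uniformly in the functions
-/

set_option autoImplicit false

open Metric Set MeasureTheory Filter Topology
open scoped InnerProductSpace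

namespace Pool.Agent.MPca0fc2.UG

open Pool.Agent.Lib.MP_ca0fc2_an
open Pool.Agent.MPca0fc2.PT
open Pool.Agent.MPca0fc2.DA

/-- `DAMultiplier` is monotone in the bound -/
theorem DAMultiplier_mono {E : Type*} [NormedAddCommGroup E] [InnerProductSpace ℂ E] {e : E}
    (he : ‖e‖ = 1) {K B : ℝ} (hB : |K| ≤ B) {u : E → ℂ} (h : DAMultiplier K u) :
    DAMultiplier B u := by
  refine ⟨h.1, fun k z c hz => ?_⟩
  have h0 : DAMultiplier 1 fun z : E => (fun _ : ℂ => (0 : ℂ)) ⟪e, z⟫_ℂ :=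
    CV.DAMultiplier_line (g := fun _ => 0) (differentiableOn_const _) (fun w _ => by simp) he
  have h1 := h.2 k z c hz
  have h2 := h0.2 k z c hz
  have hKB : 0 ≤ B ^ 2 - K ^ 2 := by
    have h3 : K ^ 2 ≤ B ^ 2 := by
      rw [← sq_abs K]
      exact pow_le_pow_left₀ (abs_nonneg K) hB 2
    linarith
  have key : (∑ i, ∑ j, c i * (starRingEnd ℂ) (c j) *
        (((B ^ 2 : ℝ) : ℂ) - u (z i) * (starRingEnd ℂ) (u (z j))) / (1 - ⟪z j, z i⟫_ℂ)) =
      (∑ i, ∑ j, c i * (starRingEnd ℂ) (c j) *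
        (((K ^ 2 : ℝ) : ℂ) - u (z i) * (starRingEnd ℂ) (u (z j))) / (1 - ⟪z j, z i⟫_ℂ)) +
      ((B ^ 2 - K ^ 2 : ℝ) : ℂ) * (∑ i, ∑ j, c i * (starRingEnd ℂ) (c j) *
        (((1 ^ 2 : ℝ) : ℂ) - (fun z : E => (fun _ : ℂ => (0 : ℂ)) ⟪e, z⟫_ℂ) (z i) *
        (starRingEnd ℂ) ((fun z : E => (fun _ : ℂ => (0 : ℂ)) ⟪e, z⟫_ℂ) (z j))) /
        (1 - ⟪z j, z i⟫_ℂ)) := by
    rw [Finset.mul_sum, ← Finset.sum_add_distrib]
    refine Finset.sum_congr rfl fun i _ => ?_
    rw [Finset.mul_sum, ← Finset.sum_add_distrib]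
    refine Finset.sum_congr rfl fun j _ => ?_
    push_cast
    simp only [map_zero, mul_zero, sub_zero, one_pow]
    ring
  rw [key, Complex.add_re, Complex.re_ofReal_mul]
  exact add_nonneg h1 (mul_nonneg hKB h2)

end Pool.Agent.MPca0fc2.UG
end

section

/-! The functions `g`: bounded holomorphic functions with a Carleson gradient. -/

set_option autoImplicit false

open Metric Set MeasureTheory Filter Topology
open scoped InnerProductSpace ENNReal

namespace Pool.Agent.MPca0fc2.GW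

open Pool.Agent.MPca0fc2.FD
open Pool.Agent.Lib.MP_ca0fc2_an

/-- the Carleson gradient of a multiple -/
private theorem I5_smul {k : ℕ} {q A c : ℝ} (hc : 0 < c) {u : EuclideanSpace ℂ (Fin k) → ℂ}
    (hu1 : DifferentiableOn ℂ u (ball 0 1)) (hu : CarlesonGradient q A u) :
    CarlesonGradient q (c ^ q * A) fun z => ((c : ℝ) : ℂ) * u z := by
  have hcp : 0 < c ^ q := Real.rpow_pos_of_pos hc _
  obtain ⟨ν, hν1, hν2⟩ := hu
  refine ⟨ENNReal.ofReal (c ^ q) • ν, ?_, ?_⟩
  · intro w hw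
    rw [Measure.restrict_smul, lintegral_smul_measure]
    calc ENNReal.ofReal (c ^ q) • ∫⁻ ξ in ball (0 : EuclideanSpace ℂ (Fin k)) 1,
          ENNReal.ofReal (invKer w ξ) ∂ν ≤ ENNReal.ofReal (c ^ q) • ENNReal.ofReal A := by
          simp only [smul_eq_mul]
          gcongr
          exact hν1 w hw
      _ = ENNReal.ofReal (c ^ q * A) := by rw [smul_eq_mul, ENNReal.ofReal_mul hcp.le]
  · intro z hz
    have hz' := mem_ball_zero_iff.1 hz
    have hd : DifferentiableAt ℂ u z := hu1.differentiableAt (isOpen_ball.mem_nhds hz)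
    have h4 : fderiv ℂ (fun z => ((c : ℝ) : ℂ) * u z) z = ((c : ℝ) : ℂ) • fderiv ℂ u z :=
      fderiv_const_mul hd _
    have h5 : invGrad2 (fun z => ((c : ℝ) : ℂ) * u z) z = c ^ 2 * invGrad2 u z := by
      unfold invGrad2
      rw [h4, norm_smul, Complex.norm_real, Real.norm_of_nonneg hc.le]
      have : ‖(((c : ℝ) : ℂ) • fderiv ℂ u z) z‖ = c * ‖fderiv ℂ u z z‖ := by
        rw [smul_apply, norm_smul, Complex.norm_real, Real.norm_of_nonneg hc.le]
      rw [this]
      ring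
    have h6 : 0 ≤ invGrad2 u z := Pool.Agent.MPca0fc2.PT.gd_IG_nonneg hz'
    rw [h5, Real.mul_rpow (by positivity) h6, Measure.restrict_smul, integral_smul_measure,
      ENNReal.toReal_ofReal hcp.le, smul_eq_mul]
    have h7 : (c ^ 2) ^ (q / 2) = c ^ q := by
      rw [← Real.rpow_natCast, ← Real.rpow_mul hc.le]
      congr 1
      push_cast
      ring
    rw [h7]
    exact mul_le_mul_of_nonneg_left (hν2 z hz) hcp.le

/-- PROOF. From the proof of `pull_comp` in `CPExa.lean`. For `k = 0`: the ball is a point, `invGrad2 = 0` (`(0 : ℝ) ^ (q / 2) = 0`), take the measure `0`. For `k = m + 1`: `GradCarleson r A v` implies `CarlesonGradient r (B * max A 0) v` (`DA.carl_class`, `DA.carl_of_gradCarl`); a multiplier `v` of norm `K`: if `K > 0` then `v / K` is a multiplier of norm `1` (`DA.DAMultiplier_smul`), `DA.gradCarleson_of_multiplier`, and `v = K (v / K)` (`invGrad2` is homogeneous of degree `2`: multiply the measure by `K ^ q`);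
if `K ≤ 0`: `DAMultiplier K v` depends on `K ^ 2` only, so it is the same as `DAMultiplier |K| v`, which implies `DAMultiplier (|K| + 1) v` (`UG.DAMultiplier_mono`, needs a unit vector). Boundedness: `DA.DAMultiplier_bound`. -/
theorem comp_cg {k : ℕ} {K p : ℝ} (hp : 1 ≤ p) {g : Ec k → ℂ}
    (hg : DAMultiplier K g ∨ GradCarleson p K g) : ∃ q A M : ℝ, 1 ≤ q ∧
      DifferentiableOn ℂ g (ball 0 1) ∧ (∀ z ∈ ball (0 : Ec k) 1, ‖g z‖ ≤ M) ∧
      CarlesonGradient q A g := by
  have hgd : DifferentiableOn ℂ g (ball 0 1) := by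
    rcases hg with h | h
    · exact h.1
    · exact h.1
  rcases Nat.eq_zero_or_pos k with hk | hk
  · subst hk
    refine ⟨1, 0, ‖g 0‖, le_rfl, hgd, fun z _ => by rw [Subsingleton.elim z 0], 0, ?_, ?_⟩
    · intro w hw
      simp
    · intro z hz
      have h5 : invGrad2 g z = 0 := by
        have h6 : fderiv ℂ g z = 0 := by
          ext X
          rw [Subsingleton.elim X 0, map_zero, map_zero]
        unfold invGrad2
        rw [h6]
        simp
      rw [h5, Real.zero_rpow (by norm_num)]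
      simp
  · obtain ⟨m, hm⟩ : ∃ m, k = m + 1 := ⟨k - 1, by omega⟩
    subst hm
    have hdim : Module.finrank ℂ (EuclideanSpace ℂ (Fin (m + 1))) = m + 1 :=
      finrank_euclideanSpace_fin
    have hgc : ∀ (r A : ℝ), 1 ≤ r → ∀ v : EuclideanSpace ℂ (Fin (m + 1)) → ℂ,
        GradCarleson r A v → ∃ B : ℝ, CarlesonGradient r B v := by
      intro r A hr v hv
      obtain ⟨B, hB, hBc⟩ := DA.carl_class (volume : Measure (EuclideanSpace ℂ (Fin (m + 1))))
        hdim hr
      have h6 : DA.GradCarl (volume : Measure (EuclideanSpace ℂ (Fin (m + 1)))) m r (max A 0) v :=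
        ⟨hv.1, fun w hw => (hv.2.2 w hw).trans (ENNReal.ofReal_le_ofReal (le_max_left _ _))⟩
      exact ⟨_, hBc _ _ hv.1 (DA.carl_of_gradCarl _ (le_max_right _ _) h6)⟩
    rcases hg with h | h
    · obtain ⟨A₀, hA₀⟩ := DA.gradCarleson_of_multiplier (n := m + 1) (by omega)
      obtain ⟨B, hB⟩ : ∃ B : ℝ, B = |K| + 1 := ⟨_, rfl⟩
      have hB0 : 0 < B := by rw [hB]; positivity
      have hm0 : (0 : ℝ) ≤ (m + 1 : ℕ) := Nat.cast_nonneg _
      have hr : (1 : ℝ) ≤ 2 * (m + 1 : ℕ) + 12 := by linarith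
      have h1 : DAMultiplier B g := UG.DAMultiplier_mono
        (e := EuclideanSpace.single (⟨0, hk⟩ : Fin (m + 1)) (1 : ℂ)) (by simp)
        (by rw [hB]; linarith) h
      have h2 : DAMultiplier 1 fun z => ((1 / B : ℝ) : ℂ) * g z := by
        have := DA.DAMultiplier_smul (c := 1 / B) (by positivity) h1
        rwa [one_div_mul_cancel hB0.ne'] at this
      obtain ⟨A₁, hA₁⟩ := hgc _ A₀ hr _ (hA₀ _ h2)
      have h3 := I5_smul hB0 h2.1 hA₁
      have h4 : (fun z => ((B : ℝ) : ℂ) * (((1 / B : ℝ) : ℂ) * g z)) = g := by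
        funext z
        have : (B : ℂ) ≠ 0 := by exact_mod_cast hB0.ne'
        push_cast
        field_simp
      rw [h4] at h3
      exact ⟨_, _, B, hr, hgd, fun z hz => DA.DAMultiplier_bound hB0.le h1 hz, h3⟩
    · obtain ⟨A₁, hA₁⟩ := hgc p K hp g h
      exact ⟨p, A₁, K, hp, hgd, h.2.1, hA₁⟩

/-- PROOF. As `disc_gens6` in `CPIncl.lean`: `k = 1`, `Q z = EuclideanSpace.single 0 (q z)`, `v y = g ⟪EuclideanSpace.single 0 1, y⟫`, which is a multiplier by `CV.DAMultiplier_line`. -/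
theorem disc_comp {n : ℕ} (D B : Set (Ec n)) : DiscGen D B ⊆ CompOn D B := by
  rintro u ⟨q, g, M, hq, hq1, hg, hM, hu⟩
  have he : ‖(EuclideanSpace.single (0 : Fin 1) (1 : ℂ))‖ = 1 := by
    rw [PiLp.norm_single, norm_one]
  refine ⟨1, fun z => EuclideanSpace.single 0 (q z), fun y =>
    g ⟪(EuclideanSpace.single (0 : Fin 1) (1 : ℂ) : EuclideanSpace ℂ (Fin 1)), y⟫_ℂ, M, 1, le_rfl,
    ?_, ?_, Or.inl (Pool.Agent.MPca0fc2.CV.DAMultiplier_line hg hM he), ?_⟩
  · have e1 : (fun z : EuclideanSpace ℂ (Fin n) =>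
        (EuclideanSpace.single 0 (q z) : EuclideanSpace ℂ (Fin 1))) = fun z =>
        q z • (EuclideanSpace.single 0 (1 : ℂ) : EuclideanSpace ℂ (Fin 1)) := by
      funext z
      ext i
      fin_cases i
      simp
    rw [e1]
    exact hq.smul_const _
  · intro z hz
    rw [PiLp.norm_single]
    exact hq1 z hz
  · intro z hz
    rw [hu z hz]
    show g (q z) = g ⟪(EuclideanSpace.single (0 : Fin 1) (1 : ℂ) : EuclideanSpace ℂ (Fin 1)),
      (EuclideanSpace.single 0 (q z) : EuclideanSpace ℂ (Fin 1))⟫_ℂ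
    rw [EuclideanSpace.inner_single_left, map_one, one_mul]
    simp

end Pool.Agent.MPca0fc2.GW
end
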