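import Mathlib
import Pool.Agent.Lib.MP_ca0fc2_an.TB.Defs
import Pool.Agent.Lib.MP_ca0fc2_an.Defs
import Pool.Agent.Lib.MP_ca0fc2_an.SGHDefs

section

/-! The area integral of the Cauchy kernel over a disc. -/

set_option autoImplicit false

open Metric Set Filter Topology MeasureTheory

namespace Pool.Agent.MPca0fc2.TB

/-- `1 / ζ` is integrable on discs centred at `0`. -/
theorem H1a_int_inv (ρ : ℝ) : IntegrableOn (fun ζ : ℂ => 1 / ζ) (ball 0 ρ) := by
  have h1 : IntegrableOn (fun ζ : ℂ => (fun r : ℝ => r⁻¹) ‖ζ‖) (ball 0 ρ) := by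
    rw [integrableOn_fun_norm_addHaar (μ := volume) (f := fun r : ℝ => r⁻¹), Complex.finrank_real_complex]
    have hv1 : volume (Ioo (0 : ℝ) ρ) ≠ ⊤ := by
      rw [Real.volume_Ioo]
      exact ENNReal.ofReal_ne_top
    have hv2 : ‖(1 : ℝ)‖ₑ ≠ ⊤ := enorm_ne_top
    have h2 : IntegrableOn (fun _ : ℝ => (1 : ℝ)) (Ioo 0 ρ) := integrableOn_const hv1 hv2
    refine h2.congr_fun ?_ measurableSet_Ioo
    intro r hr
    have : r ≠ 0 := hr.1.ne'
    simp [this]
  have h3 : AEStronglyMeasurable (fun ζ : ℂ => 1 / ζ) (volume.restrict (ball (0 : ℂ) ρ)) := by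
    apply Measurable.aestronglyMeasurable
    fun_prop
  refine Integrable.mono' h1 h3 ?_
  filter_upwards with ζ
  simp

theorem H1a_int_sub (R : ℝ) (w : ℂ) : IntegrableOn (fun ζ : ℂ => 1 / (ζ - w)) (ball 0 R) := by
  have h1 : Integrable (indicator (ball (0 : ℂ) (R + ‖w‖)) fun ζ : ℂ => 1 / ζ) :=
    (integrable_indicator_iff measurableSet_ball).2 (H1a_int_inv _)
  have h2 : Integrable (fun ζ : ℂ => indicator (ball (0 : ℂ) (R + ‖w‖)) (fun ζ : ℂ => 1 / ζ) (ζ - w)) :=
    h1.comp_sub_right w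
  refine (h2.integrableOn (s := ball 0 R)).congr_fun ?_ measurableSet_ball
  intro ζ hζ
  rw [mem_ball_zero_iff] at hζ
  have : ζ - w ∈ ball (0 : ℂ) (R + ‖w‖) := by
    rw [mem_ball_zero_iff]
    exact (norm_sub_le _ _).trans_lt (by linarith)
  show indicator (ball (0 : ℂ) (R + ‖w‖)) (fun ζ : ℂ => 1 / ζ) (ζ - w) = 1 / (ζ - w)
  rw [indicator_of_mem this]

/-- `∮ 1 / z = 2 π i`. -/
theorem H1a_c0 {r : ℝ} (hr : 0 < r) : (∮ z in C(0, r), z⁻¹) = 2 * Real.pi * Complex.I := by
  have := circleIntegral.integral_sub_inv_of_mem_ball (c := 0) (w := 0) (R := r) (by simpa using hr)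
  simpa using this

theorem H1a_ci {r : ℝ} (hr : 0 < r) {w : ℂ} (hw : ‖w‖ ≠ r) :
    CircleIntegrable (fun z : ℂ => (z - w)⁻¹) 0 r := by
  apply ContinuousOn.circleIntegrable hr.le
  apply ContinuousOn.inv₀ (by fun_prop)
  intro z hz h0
  rw [mem_sphere_zero_iff_norm] at hz
  rw [sub_eq_zero] at h0
  rw [← h0] at hw
  exact hw hz

theorem H1a_circle {r : ℝ} (hr : 0 < r) {w : ℂ} (hw : ‖w‖ ≠ r) :
    (∮ z in C(0, r), (z * (z - w))⁻¹) = if ‖w‖ < r then 0 else - (2 * Real.pi * Complex.I) / w := by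
  by_cases h0 : w = 0
  · subst h0
    rw [if_pos (by simpa using hr)]
    have h1 := circleIntegral.integral_sub_zpow_of_ne (n := -2) (by norm_num) 0 0 r
    refine Eq.trans ?_ h1
    apply circleIntegral.integral_congr hr.le
    intro z hz
    show (z * (z - 0))⁻¹ = (z - 0) ^ (-2 : ℤ)
    rw [sub_zero, zpow_neg]
    congr 1
    rw [← sq]
    norm_cast
  · have e1 : (∮ z in C(0, r), (z * (z - w))⁻¹) = ∮ z in C(0, r), w⁻¹ * ((z - w)⁻¹ - z⁻¹) := by
      apply circleIntegral.integral_congr hr.le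
      intro z hz
      rw [mem_sphere_zero_iff_norm] at hz
      have hz0 : z ≠ 0 := by
        intro h
        rw [h, norm_zero] at hz
        exact hr.ne hz
      have hzw : z - w ≠ 0 := by
        intro h
        rw [sub_eq_zero] at h
        rw [h] at hz
        exact hw hz
      show (z * (z - w))⁻¹ = w⁻¹ * ((z - w)⁻¹ - z⁻¹)
      field_simp
      ring
    have hi0 : CircleIntegrable (fun z : ℂ => z⁻¹) 0 r := by
      have := H1a_ci hr (w := 0) (by rw [norm_zero]; exact hr.ne)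
      simpa using this
    rw [e1, circleIntegral.integral_const_mul, circleIntegral.integral_sub (H1a_ci hr hw) hi0, H1a_c0 hr]
    by_cases h1 : ‖w‖ < r
    · rw [if_pos h1, circleIntegral.integral_sub_inv_of_mem_ball (by simpa using h1), sub_self, mul_zero]
    · rw [if_neg h1]
      have h2 : r < ‖w‖ := lt_of_le_of_ne (not_lt.1 h1) (Ne.symm hw)
      have hne : ∀ z ∈ closedBall (0 : ℂ) r, z - w ≠ 0 := by
        intro z hz h
        rw [mem_closedBall_zero_iff] at hz
        rw [sub_eq_zero] at h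
        rw [h] at hz
        linarith
      have h3 : (∮ z in C(0, r), (z - w)⁻¹) = 0 := by
        apply Complex.circleIntegral_eq_zero_of_differentiable_on_off_countable hr.le countable_empty
        · exact ContinuousOn.inv₀ (by fun_prop) hne
        · intro z hz
          apply DifferentiableAt.inv (by fun_prop)
          exact hne z (ball_subset_closedBall hz.1)
      rw [h3]
      field_simp
      ring

/-- the integral over the angle -/
theorem H1a_inner {r : ℝ} (hr : 0 < r) {w : ℂ} (hw : ‖w‖ ≠ r) :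
    ∫ θ in Ioo (-Real.pi) Real.pi, 1 / ((r : ℂ) * (Real.cos θ + Real.sin θ * Complex.I) - w) =
      if ‖w‖ < r then 0 else - (2 * Real.pi) / w := by
  have e0 : ∀ θ : ℝ, (r : ℂ) * (Real.cos θ + Real.sin θ * Complex.I) = circleMap 0 r θ := by
    intro θ
    rw [circleMap_zero, Complex.exp_mul_I, Complex.ofReal_cos, Complex.ofReal_sin]
  simp_rw [e0]
  rw [← integral_Ioc_eq_integral_Ioo, ← intervalIntegral.integral_of_le (by linarith [Real.pi_pos])]
  have hper : Function.Periodic (fun θ : ℝ => 1 / (circleMap 0 r θ - w)) (2 * Real.pi) := by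
    intro θ
    show 1 / (circleMap 0 r (θ + 2 * Real.pi) - w) = 1 / (circleMap 0 r θ - w)
    rw [periodic_circleMap 0 r θ]
  have h1 := hper.intervalIntegral_add_eq (-Real.pi) 0
  have e2 : -Real.pi + 2 * Real.pi = Real.pi := by ring
  rw [e2, zero_add] at h1
  rw [h1]
  have h2 : (∮ z in C(0, r), (z * (z - w))⁻¹) =
      Complex.I * ∫ θ in (0 : ℝ)..2 * Real.pi, 1 / (circleMap 0 r θ - w) := by
    rw [circleIntegral, ← intervalIntegral.integral_const_mul]
    apply intervalIntegral.integral_congr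
    intro θ _
    show deriv (circleMap 0 r) θ • (circleMap 0 r θ * (circleMap 0 r θ - w))⁻¹ =
      Complex.I * (1 / (circleMap 0 r θ - w))
    have h3 : circleMap 0 r θ ≠ 0 := circleMap_ne_center hr.ne'
    rw [deriv_circleMap, smul_eq_mul, mul_inv]
    rw [show circleMap 0 r θ * Complex.I * ((circleMap 0 r θ)⁻¹ * (circleMap 0 r θ - w)⁻¹) =
      (circleMap 0 r θ * (circleMap 0 r θ)⁻¹) * (Complex.I * (circleMap 0 r θ - w)⁻¹) by ring,
      mul_inv_cancel₀ h3, one_mul, one_div]
  have h3 := H1a_circle hr hw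
  rw [h2] at h3
  have h4 : (∫ θ in (0 : ℝ)..2 * Real.pi, 1 / (circleMap 0 r θ - w)) =
      Complex.I⁻¹ * (if ‖w‖ < r then 0 else - (2 * Real.pi * Complex.I) / w) := by
    rw [← h3, ← mul_assoc, inv_mul_cancel₀ Complex.I_ne_zero, one_mul]
  rw [h4]
  split_ifs with h5
  · rw [mul_zero]
  · rw [neg_div, mul_neg, mul_comm (2 * (Real.pi : ℂ)) Complex.I, mul_div_assoc, ← mul_assoc,
      inv_mul_cancel₀ Complex.I_ne_zero, one_mul, neg_div]

/-- The integral of the Cauchy kernel over a disc.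
PROOF. For `‖w‖ < R`, `∫ ζ in ball 0 R, 1 / (ζ - w) = - π conj w`. Polar coordinates (`Complex.integral_comp_polarCoord_symm` or
`integral_comp_polarCoord`): `∫_0^R r (∫_{-π}^{π} dt / (r e^{it} - w)) dr`; for `r < ‖w‖` the inner integral is `- 2 π / w` (the function `1 / (z - w)`
is holomorphic on the disc of radius `‖w‖`: mean value, `circleIntegral` / `Complex.circleIntegral_sub_inv_of_mem_ball` etc.), for `r > ‖w‖` it is `0`
(`(1/i) ∮ dζ / (ζ (ζ - w)) = 0`). So the value is `- 2 π / w * ‖w‖² / 2 = - π conj w` (`w ≠ 0`; for `w = 0` the inner integral is `0`). The integrand is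
integrable (`1 / ‖ζ - w‖` is locally integrable in the plane). -/
theorem int_cauchy {R : ℝ} {w : ℂ} (hw : ‖w‖ < R) :
    IntegrableOn (fun ζ : ℂ => 1 / (ζ - w)) (ball 0 R) ∧
      ∫ ζ in ball (0 : ℂ) R, 1 / (ζ - w) = -(Real.pi : ℂ) * (starRingEnd ℂ) w := by
  refine ⟨H1a_int_sub R w, ?_⟩
  have hR : 0 < R := (norm_nonneg w).trans_lt hw
  set g : ℂ → ℂ := indicator (ball (0 : ℂ) R) (fun ζ => 1 / (ζ - w)) with hg
  have hgm : Measurable g := by
    apply Measurable.indicator _ measurableSet_ball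
    fun_prop
  have hgi : Integrable g := (integrable_indicator_iff measurableSet_ball).2 (H1a_int_sub R w)
  rw [← integral_indicator measurableSet_ball, ← Complex.integral_comp_polarCoord_symm]
  have hsm : Measurable (fun p : ℝ × ℝ => Complex.polarCoord.symm p) := by
    simp only [Complex.polarCoord_symm_apply]
    fun_prop
  have hGi : IntegrableOn (fun p : ℝ × ℝ => p.1 • g (Complex.polarCoord.symm p)) polarCoord.target := by
    refine ⟨(measurable_fst.smul (hgm.comp hsm)).aestronglyMeasurable, ?_⟩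
    have e1 : ∫⁻ p in polarCoord.target, ‖p.1 • g (Complex.polarCoord.symm p)‖ₑ =
        ∫⁻ p in polarCoord.target, ENNReal.ofReal p.1 • ‖g (Complex.polarCoord.symm p)‖ₑ := by
      apply setLIntegral_congr_fun polarCoord.open_target.measurableSet
      intro p hp
      have hp1 : 0 < p.1 := hp.1
      show ‖p.1 • g (Complex.polarCoord.symm p)‖ₑ = ENNReal.ofReal p.1 • ‖g (Complex.polarCoord.symm p)‖ₑ
      rw [enorm_smul, Real.enorm_of_nonneg hp1.le, smul_eq_mul]
    refine lt_of_le_of_lt (le_of_eq e1) ?_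
    rw [Complex.lintegral_comp_polarCoord_symm (fun ζ => ‖g ζ‖ₑ)]
    exact hgi.2
  have htar : polarCoord.target = Ioi (0 : ℝ) ×ˢ Ioo (-Real.pi) Real.pi := rfl
  rw [htar] at hGi ⊢
  rw [Measure.volume_eq_prod] at hGi ⊢
  rw [setIntegral_prod _ hGi]
  have hin : ∀ᵐ r : ℝ, r ∈ Ioi (0 : ℝ) →
      ∫ θ in Ioo (-Real.pi) Real.pi, (r, θ).1 • g (Complex.polarCoord.symm (r, θ)) =
        indicator (Ioo 0 ‖w‖) (fun r : ℝ => (r : ℂ) * (- (2 * Real.pi) / w)) r := by
    have hne : ∀ᵐ r : ℝ, r ≠ ‖w‖ := by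
      rw [ae_iff]
      simp
    filter_upwards [hne] with r hr hr0
    have hr0' : 0 < r := hr0
    have hnr : ∀ θ : ℝ, ‖(r : ℂ) * (Real.cos θ + Real.sin θ * Complex.I)‖ = r := by
      intro θ
      have := Complex.norm_polarCoord_symm (r, θ)
      rw [Complex.polarCoord_symm_apply] at this
      rw [this, abs_of_pos hr0']
    by_cases hrR : r < R
    · have e2 : ∀ θ : ℝ, (r, θ).1 • g (Complex.polarCoord.symm (r, θ)) =
          (r : ℂ) * (1 / ((r : ℂ) * (Real.cos θ + Real.sin θ * Complex.I) - w)) := by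
        intro θ
        rw [Complex.polarCoord_symm_apply, hg, indicator_of_mem, Complex.real_smul]
        rw [mem_ball_zero_iff]
        show ‖(r : ℂ) * (Real.cos θ + Real.sin θ * Complex.I)‖ < R
        rw [hnr]
        exact hrR
      simp_rw [e2]
      rw [integral_const_mul, H1a_inner hr0' (Ne.symm hr)]
      by_cases h1 : ‖w‖ < r
      · rw [if_pos h1, mul_zero, indicator_of_notMem]
        intro h2
        exact absurd h2.2 (not_lt.2 h1.le)
      · rw [if_neg h1, indicator_of_mem]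
        exact ⟨hr0', lt_of_le_of_ne (not_lt.1 h1) hr⟩
    · have e2 : ∀ θ : ℝ, (r, θ).1 • g (Complex.polarCoord.symm (r, θ)) = 0 := by
        intro θ
        rw [Complex.polarCoord_symm_apply, hg, indicator_of_notMem, smul_zero]
        rw [mem_ball_zero_iff]
        show ¬ ‖(r : ℂ) * (Real.cos θ + Real.sin θ * Complex.I)‖ < R
        rw [hnr]
        exact hrR
      simp_rw [e2]
      rw [integral_zero, indicator_of_notMem]
      intro h2
      exact hrR (h2.2.trans hw)
  rw [setIntegral_congr_ae measurableSet_Ioi hin]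
  rw [setIntegral_indicator measurableSet_Ioo]
  have e3 : Ioi (0 : ℝ) ∩ Ioo 0 ‖w‖ = Ioo 0 ‖w‖ := by
    apply inter_eq_right.2
    intro x hx
    exact hx.1
  rw [e3, ← integral_Ioc_eq_integral_Ioo, ← intervalIntegral.integral_of_le (norm_nonneg w),
    intervalIntegral.integral_mul_const, intervalIntegral.integral_ofReal, integral_id]
  by_cases h0 : w = 0
  · subst h0
    simp
  · have h1 : (starRingEnd ℂ) w * w = ((‖w‖ ^ 2 : ℝ) : ℂ) := by
      rw [mul_comm, Complex.mul_conj, Complex.normSq_eq_norm_sq]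
    have h2 : (‖w‖ : ℂ) ^ 2 = (starRingEnd ℂ) w * w := by
      rw [h1]
      push_cast
      rfl
    push_cast
    rw [zero_pow two_ne_zero, sub_zero, h2]
    field_simp

end Pool.Agent.MPca0fc2.TB
end

section

/-! The area integral over a disc with the pole on its boundary. -/

set_option autoImplicit false

open Metric Set Filter Topology MeasureTheory

namespace Pool.Agent.MPca0fc2.TB

private theorem H1b_ne {a r : ℝ} (ha : 0 < a) (hr : r ∈ Ioo 0 a) (θ : ℝ) :
    circleMap (a : ℂ) r θ ≠ 0 := by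
  intro h
  have h1 : circleMap (a : ℂ) r θ ∈ sphere (a : ℂ) |r| := circleMap_mem_sphere' _ _ _
  rw [h, mem_sphere, dist_eq_norm, zero_sub, norm_neg, Complex.norm_of_nonneg ha.le,
    abs_of_pos hr.1] at h1
  linarith [hr.2]

private theorem H1b_pos {a : ℝ} {ζ : ℂ} (h : ζ ∈ ball (a : ℂ) a) : 0 ≤ (1 / ζ).re := by
  rw [mem_ball, dist_eq_norm] at h
  have ha : 0 < a := (norm_nonneg _).trans_lt h
  have h2 : |(ζ - a).re| ≤ ‖ζ - a‖ := Complex.abs_re_le_norm _
  have h3 : 0 < ζ.re := by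
    have h4 := (abs_le.mp h2).1
    simp only [Complex.sub_re, Complex.ofReal_re] at h4
    linarith
  rw [one_div, Complex.inv_re]
  exact div_nonneg h3.le (Complex.normSq_nonneg _)

private theorem H1b_inner {a r : ℝ} (ha : 0 < a) (hr : r ∈ Ioo 0 a) :
    ∫⁻ θ in Ioo (-Real.pi) Real.pi, ENNReal.ofReal ((1 / circleMap (a : ℂ) r θ).re) =
      ENNReal.ofReal (2 * Real.pi / a) := by
  have hcont : Continuous fun θ : ℝ => 1 / circleMap (a : ℂ) r θ :=
    continuous_const.div (continuous_circleMap _ _) (H1b_ne ha hr)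
  have hcr : Continuous fun θ : ℝ => (1 / circleMap (a : ℂ) r θ).re :=
    Complex.continuous_re.comp hcont
  have hnn : ∀ θ : ℝ, 0 ≤ (1 / circleMap (a : ℂ) r θ).re := fun θ => by
    refine H1b_pos (a := a) ?_
    have h1 : circleMap (a : ℂ) r θ ∈ sphere (a : ℂ) |r| := circleMap_mem_sphere' _ _ _
    rw [mem_sphere, abs_of_pos hr.1] at h1
    rw [mem_ball, h1]
    exact hr.2
  have hint : IntegrableOn (fun θ : ℝ => (1 / circleMap (a : ℂ) r θ).re)
      (Ioo (-Real.pi) Real.pi) :=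
    (hcr.integrableOn_Icc).mono_set Ioo_subset_Icc_self
  rw [← ofReal_integral_eq_lintegral_ofReal hint (ae_of_all _ hnn)]
  congr 1
  have hpi := Real.pi_pos
  rw [← integral_Ioc_eq_integral_Ioo, ← intervalIntegral.integral_of_le (by linarith)]
  have hper : Function.Periodic (fun θ : ℝ => (1 / circleMap (a : ℂ) r θ).re) (2 * Real.pi) :=
    fun θ => by simp only [periodic_circleMap (a : ℂ) r θ]
  have h1 := hper.intervalIntegral_add_eq (-Real.pi) 0
  rw [show -Real.pi + 2 * Real.pi = Real.pi by ring, zero_add] at h1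
  rw [h1]
  have h2 : ∫ θ in (0 : ℝ)..2 * Real.pi, (1 / circleMap (a : ℂ) r θ).re =
      (∫ θ in (0 : ℝ)..2 * Real.pi, 1 / circleMap (a : ℂ) r θ).re :=
    Complex.reCLM.intervalIntegral_comp_comm (hcont.intervalIntegrable _ _)
  rw [h2]
  have h3 : Real.circleAverage (fun z : ℂ => 1 / z) (a : ℂ) r = 1 / (a : ℂ) := by
    have hd : DifferentiableOn ℂ (fun z : ℂ => 1 / z) (closedBall (a : ℂ) |r|) := fun z hz => ?_
    · exact (hd.mono closure_ball_subset_closedBall).diffContOnCl.circleAverage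
    have hz0 : z ≠ 0 := by
      rintro rfl
      rw [mem_closedBall, dist_eq_norm, zero_sub, norm_neg, Complex.norm_of_nonneg ha.le,
        abs_of_pos hr.1] at hz
      linarith [hr.2]
    exact ((differentiableAt_const _).div differentiableAt_id hz0).differentiableWithinAt
  rw [Real.circleAverage_def] at h3
  have h4 : ∫ θ in (0 : ℝ)..2 * Real.pi, 1 / circleMap (a : ℂ) r θ =
      ((2 * Real.pi : ℝ) : ℂ) * (1 / (a : ℂ)) := by
    rw [← h3, Complex.real_smul]
    have : ((2 * Real.pi : ℝ) : ℂ) ≠ 0 := by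
      exact_mod_cast (by positivity : (2 * Real.pi : ℝ) ≠ 0)
    rw [← mul_assoc, Complex.ofReal_inv, mul_inv_cancel₀ this, one_mul]
  rw [h4]
  have h5 : ((2 * Real.pi : ℝ) : ℂ) * (1 / (a : ℂ)) = ((2 * Real.pi / a : ℝ) : ℂ) := by
    push_cast
    ring
  rw [h5, Complex.ofReal_re]

private theorem H1b_lint {a : ℝ} (ha : 0 < a) :
    ∫⁻ ζ in ball (a : ℂ) a, ENNReal.ofReal ((1 / ζ).re) = ENNReal.ofReal (Real.pi * a) := by
  have hpi := Real.pi_pos
  have hmF : Measurable fun ζ : ℂ => ENNReal.ofReal ((1 / ζ).re) := by fun_prop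
  have hmG : Measurable ((ball (a : ℂ) a).indicator fun ζ : ℂ => ENNReal.ofReal ((1 / ζ).re)) :=
    hmF.indicator measurableSet_ball
  rw [← lintegral_indicator measurableSet_ball, ← lintegral_add_right_eq_self _ (a : ℂ),
    ← Complex.lintegral_comp_polarCoord_symm]
  have htar : polarCoord.target = Ioi (0 : ℝ) ×ˢ Ioo (-Real.pi) Real.pi := rfl
  rw [htar, Measure.volume_eq_prod, ← Measure.prod_restrict, lintegral_prod]
  · have h1 : ∀ r ∈ Ioi (0 : ℝ), ∫⁻ θ in Ioo (-Real.pi) Real.pi, ENNReal.ofReal (r, θ).1 •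
        (ball (a : ℂ) a).indicator (fun ζ : ℂ => ENNReal.ofReal ((1 / ζ).re))
          (Complex.polarCoord.symm (r, θ) + a) =
        (Iio a).indicator (fun r => ENNReal.ofReal (r * (2 * Real.pi / a))) r := by
      intro r hr
      rw [mem_Ioi] at hr
      have hsymm : ∀ θ : ℝ, Complex.polarCoord.symm (r, θ) + a = circleMap (a : ℂ) r θ := by
        intro θ
        rw [Complex.polarCoord_symm_apply, circleMap, Complex.exp_mul_I]
        push_cast
        ring
      simp only [hsymm, smul_eq_mul]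
      by_cases hra : r < a
      · rw [indicator_of_mem (by exact hra)]
        have hmem : ∀ θ : ℝ, circleMap (a : ℂ) r θ ∈ ball (a : ℂ) a := fun θ => by
          have h1 : circleMap (a : ℂ) r θ ∈ sphere (a : ℂ) |r| := circleMap_mem_sphere' _ _ _
          rw [mem_sphere, abs_of_pos hr] at h1
          rw [mem_ball, h1]
          exact hra
        simp only [indicator_of_mem (hmem _)]
        rw [lintegral_const_mul' _ _ ENNReal.ofReal_ne_top, H1b_inner ha ⟨hr, hra⟩,
          ← ENNReal.ofReal_mul hr.le]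
      · rw [indicator_of_notMem (by exact hra)]
        have hmem : ∀ θ : ℝ, circleMap (a : ℂ) r θ ∉ ball (a : ℂ) a := fun θ => by
          have h1 : circleMap (a : ℂ) r θ ∈ sphere (a : ℂ) |r| := circleMap_mem_sphere' _ _ _
          rw [mem_sphere, abs_of_pos hr] at h1
          rw [mem_ball, h1]
          exact hra
        simp only [indicator_of_notMem (hmem _), mul_zero, lintegral_zero]
    rw [setLIntegral_congr_fun measurableSet_Ioi h1, setLIntegral_indicator measurableSet_Iio]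
    have hset : Iio a ∩ Ioi (0 : ℝ) = Ioo 0 a := by
      ext r
      simp only [mem_inter_iff, mem_Iio, mem_Ioi, mem_Ioo]
      tauto
    rw [hset, ← ofReal_integral_eq_lintegral_ofReal]
    · congr 1
      rw [← integral_Ioc_eq_integral_Ioo, ← intervalIntegral.integral_of_le ha.le,
        intervalIntegral.integral_mul_const, integral_id]
      field_simp
      ring
    · exact ((by fun_prop : Continuous fun r : ℝ => r * (2 * Real.pi / a)).integrableOn_Icc).mono_set
        Ioo_subset_Icc_self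
    · refine (ae_restrict_iff' measurableSet_Ioo).mpr (ae_of_all _ fun r hr => ?_)
      have := hr.1.le
      simp only [Pi.zero_apply]
      positivity
  · refine Measurable.aemeasurable ?_
    refine Measurable.smul (f := fun p : ℝ × ℝ => ENNReal.ofReal p.1) (by fun_prop) (hmG.comp ?_)
    have hcp : Continuous fun p : ℝ × ℝ => Complex.polarCoord.symm p + (a : ℂ) := by
      simp only [Complex.polarCoord_symm_apply]
      fun_prop
    exact hcp.measurable

/-- The integral over a disc with `0` on its boundary.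
PROOF. `ball a a` (`a > 0` real centre): `Re (1 / ζ)` is harmonic near each point of the disc, its mean over the circles `|ζ - a| = r`, `r < a`, is `1 / a`
(`Complex.circleAverage`, mean value property of the holomorphic function `1 / ζ` on `ball a a`); integrate over `r` in polar coordinates around `a`: `π a² / a`. -/
theorem int_tangent_disc {a : ℝ} (ha : 0 < a) :
    IntegrableOn (fun ζ : ℂ => (1 / ζ).re) (ball (a : ℂ) a) ∧
      ∫ ζ in ball (a : ℂ) a, (1 / ζ).re = Real.pi * a := by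
  have hm : Measurable fun ζ : ℂ => (1 / ζ).re := by fun_prop
  have hnn : 0 ≤ᵐ[volume.restrict (ball (a : ℂ) a)] fun ζ : ℂ => (1 / ζ).re :=
    (ae_restrict_iff' measurableSet_ball).mpr (ae_of_all _ fun ζ hζ => H1b_pos hζ)
  have hI : IntegrableOn (fun ζ : ℂ => (1 / ζ).re) (ball (a : ℂ) a) := by
    refine ⟨hm.aestronglyMeasurable, ?_⟩
    rw [hasFiniteIntegral_iff_ofReal hnn, H1b_lint ha]
    exact ENNReal.ofReal_lt_top
  refine ⟨hI, ?_⟩
  rw [integral_eq_lintegral_of_nonneg_ae hnn hm.aestronglyMeasurable, H1b_lint ha,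
    ENNReal.toReal_ofReal (by positivity)]

end Pool.Agent.MPca0fc2.TB
end

section

/-! The Ahlfors-Beurling estimate. -/

set_option autoImplicit false

open Metric Set Filter Topology MeasureTheory

namespace Pool.Agent.MPca0fc2.TB

private lemma H1_integrable0 {E : Set ℂ} (hE : MeasurableSet E) (hfin : volume E ≠ ⊤) :
    IntegrableOn (fun ζ : ℂ => 1 / ζ) E := by
  have h1 : IntegrableOn (fun ζ : ℂ => 1 / ζ) (ball 0 1) := by
    have h := (int_cauchy (R := 1) (w := 0) (by simp)).1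
    simpa using h
  have h2 : IntegrableOn (fun ζ : ℂ => 1 / ζ) (E \ ball 0 1) := by
    have hfin2 : volume (E \ ball 0 1) < ⊤ :=
      lt_of_le_of_lt (measure_mono sdiff_subset) (lt_top_iff_ne_top.2 hfin)
    refine Measure.integrableOn_of_bounded (M := 1) hfin2.ne ?_ ?_
    · exact (measurable_const.div measurable_id).aestronglyMeasurable
    · refine (ae_restrict_iff' (hE.diff measurableSet_ball)).2 (Eventually.of_forall ?_)
      intro ζ hζ
      have h3 : (1 : ℝ) ≤ ‖ζ‖ := by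
        have := hζ.2
        rw [mem_ball_zero_iff, not_lt] at this
        exact this
      rw [norm_div, norm_one, div_le_one (by linarith)]
      exact h3
  have h4 : IntegrableOn (fun ζ : ℂ => 1 / ζ) (ball 0 1 ∪ (E \ ball 0 1)) := h1.union h2
  refine h4.mono_set ?_
  intro ζ hζ
  by_cases h : ζ ∈ ball (0 : ℂ) 1
  · exact Or.inl h
  · exact Or.inr ⟨hζ, h⟩

private lemma H1_mem_ball {a : ℝ} (ha : 0 < a) {u ζ : ℂ} (hu : ‖u‖ = 1) (hζ : ζ ≠ 0) :
    ζ ∈ ball ((a : ℂ) * u) a ↔ 1 / (2 * a) < (u * (1 / ζ)).re := by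
  have hn : 0 < Complex.normSq ζ := Complex.normSq_pos.2 hζ
  have e1 : (u * (1 / ζ)).re = (u.re * ζ.re + u.im * ζ.im) / Complex.normSq ζ := by
    simp only [one_div, Complex.mul_re, Complex.inv_re, Complex.inv_im]
    field_simp
    ring
  have hu2 : u.re * u.re + u.im * u.im = 1 := by
    have h := Complex.normSq_eq_norm_sq u
    rw [hu, Complex.normSq_apply] at h
    linarith
  rw [mem_ball, dist_eq_norm, e1, div_lt_div_iff₀ (by linarith) hn]
  have e2 : ‖ζ - (a : ℂ) * u‖ < a ↔ Complex.normSq (ζ - (a : ℂ) * u) < a * a := by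
    rw [Complex.normSq_eq_norm_sq, sq]
    constructor
    · intro h
      exact mul_self_lt_mul_self (norm_nonneg _) h
    · intro h
      exact lt_of_mul_self_lt_mul_self₀ ha.le h
  rw [e2]
  have e3 : Complex.normSq (ζ - (a : ℂ) * u) =
      Complex.normSq ζ - 2 * a * (u.re * ζ.re + u.im * ζ.im) + a * a := by
    simp only [Complex.normSq_apply, Complex.sub_re, Complex.sub_im, Complex.mul_re, Complex.mul_im,
      Complex.ofReal_re, Complex.ofReal_im]
    linear_combination (a * a) * hu2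
  rw [e3]
  constructor
  · intro h; nlinarith
  · intro h; nlinarith

private lemma H1_disc {a : ℝ} (ha : 0 < a) {u : ℂ} (hu : ‖u‖ = 1) :
    ∫ ζ in ball ((a : ℂ) * u) a, (u * (1 / ζ)).re = Real.pi * a := by
  have hu0 : u ≠ 0 := by
    intro h; rw [h, norm_zero] at hu; exact zero_ne_one hu
  rw [← (int_tangent_disc ha).2]
  let v : Circle := ⟨u, mem_sphere_zero_iff_norm.2 hu⟩
  have hmp : MeasurePreserving (rotation v : ℂ ≃ₗᵢ[ℝ] ℂ) volume volume :=
    (rotation v).measurePreserving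
  have hemb : MeasurableEmbedding (rotation v : ℂ ≃ₗᵢ[ℝ] ℂ) :=
    (rotation v).toHomeomorph.measurableEmbedding
  have h := hmp.setIntegral_preimage_emb hemb (fun ζ : ℂ => (u * (1 / ζ)).re) (ball ((a : ℂ) * u) a)
  rw [← h]
  have hpre : (rotation v : ℂ ≃ₗᵢ[ℝ] ℂ) ⁻¹' (ball ((a : ℂ) * u) a) = ball (a : ℂ) a := by
    ext ζ
    rw [mem_preimage, rotation_apply, mem_ball, mem_ball, dist_eq_norm, dist_eq_norm]
    have : (v : ℂ) * ζ - (a : ℂ) * u = u * (ζ - a) := by
      show u * ζ - (a : ℂ) * u = u * (ζ - a)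
      ring
    rw [this, norm_mul, hu, one_mul]
  rw [hpre]
  refine setIntegral_congr_fun measurableSet_ball ?_
  intro ζ _
  simp only [rotation_apply]
  show (u * (1 / (u * ζ))).re = (1 / ζ).re
  congr 1
  by_cases hζ : ζ = 0
  · simp [hζ]
  · field_simp

private lemma H1_re {E : Set ℂ} (hE : MeasurableSet E) (hfin : volume E ≠ ⊤) {u : ℂ} (hu : ‖u‖ = 1) :
    ∫ ζ in E, (u * (1 / ζ)).re ≤ Real.sqrt (Real.pi * (volume E).toReal) := by
  set s := (volume E).toReal with hs
  by_cases h0 : s = 0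
  · have hE0 : volume E = 0 := by
      rcases (ENNReal.toReal_eq_zero_iff _).1 h0 with h | h
      · exact h
      · exact absurd h hfin
    rw [Measure.restrict_eq_zero.2 hE0, integral_zero_measure]
    exact Real.sqrt_nonneg _
  have hspos : 0 < s := lt_of_le_of_ne ENNReal.toReal_nonneg (Ne.symm h0)
  have hpi := Real.pi_pos
  set a := Real.sqrt (s / Real.pi) with ha_def
  have ha : 0 < a := Real.sqrt_pos.2 (by positivity)
  have ha2 : Real.pi * (a * a) = s := by
    rw [ha_def, Real.mul_self_sqrt (by positivity)]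
    field_simp
  have hpa : Real.sqrt (Real.pi * s) = Real.pi * a := by
    rw [← ha2]
    rw [show Real.pi * (Real.pi * (a * a)) = (Real.pi * a) * (Real.pi * a) by ring]
    exact Real.sqrt_mul_self (by positivity)
  rw [hpa, ← H1_disc ha hu]
  set c : ℝ := 1 / (2 * a) with hc
  set B := ball ((a : ℂ) * u) a with hB
  have hBm : MeasurableSet B := measurableSet_ball
  have hBvol : (volume B).toReal = s := by
    rw [hB, Complex.volume_ball, ENNReal.toReal_mul, ENNReal.toReal_pow,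
      ENNReal.toReal_ofReal ha.le, ← ha2, sq]
    simp [mul_comm]
  have hBfin : volume B ≠ ⊤ := measure_ball_lt_top.ne
  have hint : ∀ {F : Set ℂ}, MeasurableSet F → volume F ≠ ⊤ →
      IntegrableOn (fun ζ : ℂ => (u * (1 / ζ)).re) F := by
    intro F hF hFf
    have h1 := (H1_integrable0 hF hFf).const_mul u
    exact h1.re
  have hcint : ∀ {F : Set ℂ}, volume F ≠ ⊤ → IntegrableOn (fun _ : ℂ => c) F := by
    intro F hFf
    exact integrableOn_const hFf
  have hEk := hint hE hfin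
  have hBk := hint hBm hBfin
  have e1 : ∫ ζ in E, ((u * (1 / ζ)).re - c) = (∫ ζ in E, (u * (1 / ζ)).re) - s * c := by
    rw [integral_sub hEk (hcint hfin), setIntegral_const]
    simp [Measure.real, hs]
  have e2 : ∫ ζ in B, ((u * (1 / ζ)).re - c) = (∫ ζ in B, (u * (1 / ζ)).re) - s * c := by
    rw [integral_sub hBk (hcint hBfin), setIntegral_const]
    simp [Measure.real, hBvol]
  have hle : ∫ ζ in E, ((u * (1 / ζ)).re - c) ≤ ∫ ζ in B, ((u * (1 / ζ)).re - c) := by
    rw [← integral_indicator hE, ← integral_indicator hBm]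
    refine integral_mono_ae ?_ ?_ ?_
    · exact (integrable_indicator_iff hE).2 (hEk.sub (hcint hfin))
    · exact (integrable_indicator_iff hBm).2 (hBk.sub (hcint hBfin))
    · have hne : ∀ᵐ ζ : ℂ, ζ ≠ 0 := by
        rw [ae_iff]
        simp
      filter_upwards [hne] with ζ hζ
      have hiff := H1_mem_ball ha hu hζ
      by_cases h1 : ζ ∈ E
      · rw [indicator_of_mem h1]
        by_cases h2 : ζ ∈ B
        · rw [indicator_of_mem h2]
        · rw [indicator_of_notMem h2]
          have : ¬ (1 / (2 * a) < (u * (1 / ζ)).re) := fun h => h2 (hiff.2 h)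
          linarith
      · rw [indicator_of_notMem h1]
        by_cases h2 : ζ ∈ B
        · rw [indicator_of_mem h2]
          have : 1 / (2 * a) < (u * (1 / ζ)).re := hiff.1 h2
          linarith
        · rw [indicator_of_notMem h2]
  rw [e1, e2] at hle
  linarith

/-- The Ahlfors-Beurling estimate.
PROOF. Translate to `w = 0` and let `s = vol (E)` (if `s = 0` the integral is `0`). Choose a rotation `u`, `‖u‖ = 1`, with `‖∫_E 1 / ζ‖ = Re (u ∫_E 1 / ζ) = ∫_{u⁻¹ E} Re (1 / ζ)` (rotation preserves the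
area), so it is enough to bound `∫_E Re (1 / ζ)` by `√(π s)` for every measurable `E` of area `s`. Let `a > 0`, `π a² = s`, `B = ball a a`. `Re (1 / ζ) > 1 / (2 a)` iff `ζ ∈ B`
(for `ζ ≠ 0`: `ζ.re / ‖ζ‖² > 1 / (2 a)` iff `‖ζ - a‖² < a²`). So `∫_E Re (1/ζ) - ∫_B Re (1/ζ) = ∫_{E \ B} - ∫_{B \ E} ≤ (1 / (2 a)) (vol (E \ B) - vol (B \ E)) = 0`, and `∫_B Re (1/ζ) = π a = √(π s)`
(`int_tangent_disc`). Integrability of `1 / ζ` on `E`: near `0` by `int_cauchy`, away from `0` it is bounded and `E` has finite area. -/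
theorem ahlfors_beurling {E : Set ℂ} (hE : MeasurableSet E) (hfin : volume E ≠ ⊤) (w : ℂ) :
    IntegrableOn (fun ζ : ℂ => 1 / (ζ - w)) E ∧
      ‖∫ ζ in E, 1 / (ζ - w)‖ ≤ Real.sqrt (Real.pi * (volume E).toReal) := by
  -- translation
  have hmp : MeasurePreserving (fun ζ : ℂ => ζ - w) volume volume :=
    measurePreserving_sub_right volume w
  have hemb : MeasurableEmbedding (fun ζ : ℂ => ζ - w) :=
    (Homeomorph.subRight w).measurableEmbedding
  set F : Set ℂ := (fun ζ : ℂ => ζ + w) ⁻¹' E with hF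
  have hFm : MeasurableSet F := (measurable_id.add_const w) hE
  have hpre : (fun ζ : ℂ => ζ - w) ⁻¹' F = E := by
    ext ζ
    simp [hF]
  have hvol : volume F = volume E := by
    have h := hmp.measure_preimage hFm.nullMeasurableSet
    rw [hpre] at h
    exact h.symm
  have hFfin : volume F ≠ ⊤ := by rw [hvol]; exact hfin
  have hI := H1_integrable0 hFm hFfin
  have hII : IntegrableOn (fun ζ : ℂ => 1 / (ζ - w)) E := by
    have h := (hmp.integrableOn_comp_preimage hemb (f := fun ζ : ℂ => 1 / ζ) (s := F)).2 hI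
    rw [hpre] at h
    exact h
  refine ⟨hII, ?_⟩
  have hval : ∫ ζ in E, 1 / (ζ - w) = ∫ ζ in F, 1 / ζ := by
    have h := hmp.setIntegral_preimage_emb hemb (fun ζ : ℂ => 1 / ζ) F
    rw [hpre] at h
    exact h
  rw [hval, ← hvol]
  set I := ∫ ζ in F, 1 / ζ with hIdef
  by_cases hI0 : I = 0
  · rw [hI0, norm_zero]
    exact Real.sqrt_nonneg _
  have hnI : 0 < ‖I‖ := norm_pos_iff.2 hI0
  set u : ℂ := (starRingEnd ℂ) I / (‖I‖ : ℂ) with hu_def
  have hu : ‖u‖ = 1 := by
    rw [hu_def, norm_div, RCLike.norm_conj, Complex.norm_real, Real.norm_of_nonneg (norm_nonneg _)]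
    exact div_self hnI.ne'
  have huI : u * I = (‖I‖ : ℂ) := by
    have h1 : (starRingEnd ℂ) I * I = ((‖I‖ : ℂ)) ^ 2 := by
      rw [mul_comm, Complex.mul_conj, Complex.normSq_eq_norm_sq]
      push_cast
      ring
    have h2 : (‖I‖ : ℂ) ≠ 0 := by exact_mod_cast hnI.ne'
    rw [hu_def, div_mul_eq_mul_div, h1, sq]
    field_simp
  have hre : ‖I‖ = ∫ ζ in F, (u * (1 / ζ)).re := by
    have h1 : ∫ ζ in F, u * (1 / ζ) = u * I := by
      rw [hIdef, ← integral_const_mul]
    have h2 : ∫ ζ in F, (u * (1 / ζ)).re = (∫ ζ in F, u * (1 / ζ)).re := by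
      have h3 : IntegrableOn (fun ζ : ℂ => u * (1 / ζ)) F := hI.const_mul u
      have h4 := integral_re (𝕜 := ℂ) h3
      simpa using h4
    rw [h2, h1, huI, Complex.ofReal_re]
  rw [hre]
  exact H1_re hFm hFfin hu

end Pool.Agent.MPca0fc2.TB
end

section

/-! Bounded holomorphic functions with small range are near conjugates of holomorphic functions. -/

set_option autoImplicit false

open Metric Set Filter Topology MeasureTheory

namespace Pool.Agent.MPca0fc2.TB

open Pool.Agent.Lib.MP_ca0fc2_an (SolvableOn)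

variable {n : ℕ}

/-- the Cauchy transform of a set is holomorphic off the set -/
private theorem H2_cauchy_hol {A V : Set ℂ} (hA : MeasurableSet A) (hfin : volume A ≠ ⊤)
    (hV : IsOpen V) (hAV : Disjoint A V) :
    DifferentiableOn ℂ (fun w : ℂ => ∫ ζ in A, 1 / (ζ - w)) V := by
  intro w₀ hw₀
  obtain ⟨d, hd, hdV⟩ := Metric.isOpen_iff.mp hV w₀ hw₀
  have hd2 : 0 < d / 2 := by positivity
  have hfar : ∀ w ∈ ball w₀ (d / 2), ∀ ζ ∈ A, d / 2 ≤ ‖ζ - w‖ := by
    intro w hw ζ hζ
    by_contra hcon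
    push Not at hcon
    have h1 : ζ ∈ ball w₀ d := by
      rw [mem_ball, dist_eq_norm] at hw ⊢
      calc ‖ζ - w₀‖ = ‖(ζ - w) + (w - w₀)‖ := by congr 1; ring
        _ ≤ ‖ζ - w‖ + ‖w - w₀‖ := norm_add_le _ _
        _ < d / 2 + d / 2 := add_lt_add hcon hw
        _ = d := by ring
    exact Set.disjoint_left.mp hAV hζ (hdV h1)
  have hne : ∀ w ∈ ball w₀ (d / 2), ∀ ζ ∈ A, ζ - w ≠ 0 := by
    intro w hw ζ hζ h0
    have := hfar w hw ζ hζ
    rw [h0, norm_zero] at this
    linarith
  have hmeas : ∀ w : ℂ, AEStronglyMeasurable (fun ζ : ℂ => 1 / (ζ - w)) (volume.restrict A) := by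
    intro w
    exact (measurable_const.div (measurable_id.sub_const w)).aestronglyMeasurable
  have hint : ∀ w ∈ ball w₀ (d / 2), Integrable (fun ζ : ℂ => 1 / (ζ - w)) (volume.restrict A) := by
    intro w hw
    refine IntegrableOn.of_bound hfin.lt_top (hmeas w) (1 / (d / 2)) ?_
    rw [ae_restrict_iff' hA]
    refine Filter.Eventually.of_forall fun ζ hζ => ?_
    rw [norm_div, norm_one]
    exact one_div_le_one_div_of_le hd2 (hfar w hw ζ hζ)
  have key := hasDerivAt_integral_of_dominated_loc_of_deriv_le (𝕜 := ℂ)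
    (μ := volume.restrict A) (F := fun w ζ : ℂ => 1 / (ζ - w))
    (F' := fun w ζ : ℂ => 1 / (ζ - w) ^ 2) (x₀ := w₀) (s := ball w₀ (d / 2))
    (bound := fun _ => 1 / (d / 2) ^ 2) (ball_mem_nhds w₀ hd2)
    (Filter.Eventually.of_forall fun w => hmeas w) (hint w₀ (mem_ball_self hd2))
    ((measurable_const.div ((measurable_id.sub_const w₀).pow_const 2)).aestronglyMeasurable)
    (by
      rw [ae_restrict_iff' hA]
      refine Filter.Eventually.of_forall fun ζ hζ w hw => ?_
      rw [norm_div, norm_one, norm_pow]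
      exact one_div_le_one_div_of_le (by positivity)
        (pow_le_pow_left₀ hd2.le (hfar w hw ζ hζ) 2))
    (integrableOn_const hfin)
    (by
      rw [ae_restrict_iff' hA]
      refine Filter.Eventually.of_forall fun ζ hζ w hw => ?_
      have h1 : HasDerivAt (fun w : ℂ => ζ - w) (-1) w := by
        simpa using (hasDerivAt_id w).const_sub ζ
      have h2 := h1.inv (hne w hw ζ hζ)
      have h3 : -(-1 : ℂ) / (ζ - w) ^ 2 = 1 / (ζ - w) ^ 2 := by ring
      rw [h3] at h2
      refine h2.congr_of_eventuallyEq ?_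
      exact Filter.Eventually.of_forall fun w => by simp [one_div])
  exact key.2.differentiableAt.differentiableWithinAt

/-- PROOF. `K = closure (u '' C)` is compact, `K ⊆ ball 0 R`. Outer regularity: an open set `V`, `K ⊆ V ⊆ ball 0 R`, `vol (V) < s` (intersect with the ball). `G z = -(1 / π) ∫_{ball 0 R \ V} dζ / (ζ - u z)`. The distance of
`K` and `ball 0 R \ V` is positive (`K` is compact, `Vᶜ` closed), so `G` is bounded and holomorphic on `C` (differentiation under the integral, or: the map `w ↦ ∫ dζ / (ζ - w)` is holomorphic on the open set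
`{w : dist (w, Vᶜ) > d}`; e.g. `hasDerivAt_integral_of_dominated_loc_of_deriv_le`). `int_cauchy`: `conj (u z) = -(1/π) ∫_{ball 0 R} dζ / (ζ - u z)`, so `conj (u z) - G z = -(1/π) ∫_V dζ / (ζ - u z)`, of modulus
`≤ (1/π) √(π vol V) ≤ √(s / π)` (`ahlfors_beurling`). If `C` is empty take `G = 0`. -/
theorem conj_approx {C : Set (En n)} (hC : IsOpen C) {u : En n → ℂ} (hu : DifferentiableOn ℂ u C)
    {M : ℝ} (hM : ∀ z ∈ C, ‖u z‖ ≤ M) {s : ℝ}
    (hs : volume (closure (u '' C)) < ENNReal.ofReal s) :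
    ∃ (G : En n → ℂ) (M' : ℝ), DifferentiableOn ℂ G C ∧ (∀ z ∈ C, ‖G z‖ ≤ M') ∧
      ∀ z ∈ C, ‖G z - (starRingEnd ℂ) (u z)‖ ≤ Real.sqrt (s / Real.pi) := by
  have hR : 0 < |M| + 1 := by positivity
  have hKc : closure (u '' C) ⊆ closedBall (0 : ℂ) |M| := by
    refine closure_minimal ?_ isClosed_closedBall
    rintro _ ⟨z, hz, rfl⟩
    rw [mem_closedBall, dist_zero_right]
    exact (hM z hz).trans (le_abs_self M)
  have hKcomp : IsCompact (closure (u '' C)) :=
    (isCompact_closedBall (0 : ℂ) |M|).of_isClosed_subset isClosed_closure hKc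
  obtain ⟨V₀, hKV₀, hV₀, hvol₀⟩ := Set.exists_isOpen_lt_of_lt _ _ hs
  obtain ⟨V, hVdef⟩ : ∃ V, V = V₀ ∩ ball (0 : ℂ) (|M| + 1) := ⟨_, rfl⟩
  have hVo : IsOpen V := by rw [hVdef]; exact hV₀.inter isOpen_ball
  have hKV : closure (u '' C) ⊆ V := by
    rw [hVdef]
    refine subset_inter hKV₀ (hKc.trans (closedBall_subset_ball (by linarith)))
  have hVb : V ⊆ ball (0 : ℂ) (|M| + 1) := by rw [hVdef]; exact inter_subset_right
  have hvolV : volume V < ENNReal.ofReal s :=
    lt_of_le_of_lt (measure_mono (by rw [hVdef]; exact inter_subset_left)) hvol₀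
  have hVtop : volume V ≠ ⊤ := (hvolV.trans_le le_top).ne
  have hs0 : 0 ≤ s := by
    by_contra hneg
    rw [ENNReal.ofReal_of_nonpos (le_of_not_ge hneg)] at hvolV
    exact not_lt_zero hvolV
  obtain ⟨A, hAdef⟩ : ∃ A, A = ball (0 : ℂ) (|M| + 1) \ V := ⟨_, rfl⟩
  have hAm : MeasurableSet A := by rw [hAdef]; exact measurableSet_ball.diff hVo.measurableSet
  have hAfin : volume A ≠ ⊤ := by
    rw [hAdef]
    exact ((measure_mono sdiff_subset).trans_lt measure_ball_lt_top).ne
  have hdisj : Disjoint A V := by rw [hAdef]; exact disjoint_sdiff_left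
  have huV : ∀ z ∈ C, u z ∈ V := fun z hz => hKV (subset_closure ⟨z, hz, rfl⟩)
  -- distance
  obtain ⟨d, hd, hdV⟩ := hKcomp.exists_thickening_subset_open hVo hKV
  have hfar : ∀ z ∈ C, ∀ ζ ∈ A, d ≤ ‖ζ - u z‖ := by
    intro z hz ζ hζ
    by_contra hcon
    push Not at hcon
    refine Set.disjoint_left.mp hdisj hζ (hdV ?_)
    rw [mem_thickening_iff]
    exact ⟨u z, subset_closure ⟨z, hz, rfl⟩, by rwa [dist_eq_norm]⟩
  refine ⟨fun z => -(1 / (Real.pi : ℂ)) * ∫ ζ in A, 1 / (ζ - u z),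
    (1 / Real.pi) * ((1 / d) * volume.real A), ?_, ?_, ?_⟩
  · refine DifferentiableOn.const_mul ?_ _
    exact (H2_cauchy_hol hAm hAfin hVo hdisj).comp hu huV
  · intro z hz
    rw [norm_mul, norm_neg, norm_div, norm_one, Complex.norm_real, Real.norm_eq_abs,
      abs_of_pos Real.pi_pos]
    refine mul_le_mul_of_nonneg_left ?_ (by positivity)
    refine norm_setIntegral_le_of_norm_le_const hAfin.lt_top ?_
    intro ζ hζ
    rw [norm_div, norm_one]
    exact one_div_le_one_div_of_le hd (hfar z hz ζ hζ)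
  · intro z hz
    have hlt : ‖u z‖ < |M| + 1 := by
      have := (hM z hz).trans (le_abs_self M)
      linarith
    obtain ⟨hI, hval⟩ := int_cauchy hlt
    obtain ⟨hIV, hbV⟩ := ahlfors_beurling hVo.measurableSet hVtop (u z)
    have hsplit : (∫ ζ in V, 1 / (ζ - u z)) + ∫ ζ in A, 1 / (ζ - u z) =
        -(Real.pi : ℂ) * (starRingEnd ℂ) (u z) := by
      rw [← hval, hAdef]
      have := integral_inter_add_sdiff (μ := volume) (f := fun ζ : ℂ => 1 / (ζ - u z))
        (s := ball (0 : ℂ) (|M| + 1)) hVo.measurableSet hI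
      rwa [inter_eq_right.mpr hVb] at this
    have hpi : (Real.pi : ℂ) ≠ 0 := by exact_mod_cast Real.pi_ne_zero
    have heq : -(1 / (Real.pi : ℂ)) * (∫ ζ in A, 1 / (ζ - u z)) - (starRingEnd ℂ) (u z) =
        (1 / (Real.pi : ℂ)) * ∫ ζ in V, 1 / (ζ - u z) := by
      have h1 : (∫ ζ in A, 1 / (ζ - u z)) =
          -(Real.pi : ℂ) * (starRingEnd ℂ) (u z) - ∫ ζ in V, 1 / (ζ - u z) := by
        rw [← hsplit]; ring
      rw [h1]
      field_simp
      ring
    simp only []
    rw [heq, norm_mul, norm_div, norm_one, Complex.norm_real, Real.norm_eq_abs,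
      abs_of_pos Real.pi_pos]
    have hv : (volume V).toReal ≤ s := by
      have := ENNReal.toReal_mono ENNReal.ofReal_ne_top hvolV.le
      rwa [ENNReal.toReal_ofReal hs0] at this
    calc (1 / Real.pi) * ‖∫ ζ in V, 1 / (ζ - u z)‖
        ≤ (1 / Real.pi) * Real.sqrt (Real.pi * (volume V).toReal) :=
          mul_le_mul_of_nonneg_left hbV (by positivity)
      _ ≤ (1 / Real.pi) * Real.sqrt (Real.pi * s) := by
          refine mul_le_mul_of_nonneg_left (Real.sqrt_le_sqrt ?_) (by positivity)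
          exact mul_le_mul_of_nonneg_left hv Real.pi_pos.le
      _ = Real.sqrt (s / Real.pi) := by
          have h2 : s / Real.pi = (1 / Real.pi) ^ 2 * (Real.pi * s) := by
            field_simp
          have h3 : Real.sqrt ((1 / Real.pi) ^ 2 * (Real.pi * s)) =
              Real.sqrt ((1 / Real.pi) ^ 2) * Real.sqrt (Real.pi * s) :=
            Real.sqrt_mul (by positivity) _
          rw [h2, h3, Real.sqrt_sq (by positivity)]

/-- Q1 holds on every open set for data whose ranges have a small total area.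
PROOF. Choose `s j` with `vol (closure (f j '' C)) < s j` and `∑ s j < π δ` (distribute the difference; e.g. `s j = (vol ..).toReal + κ`). `conj_approx`: `G j`. On `C`, with `F = √(∑ ‖f j z‖²) ≥ √δ`:
`|∑ f j G j - F²| = |∑ f j (G j - conj (f j))| ≤ F √(∑ s j / π) ≤ F √δ₁`, `δ₁ = ∑ s j / π < δ` (Cauchy-Schwarz), so `|∑ f j G j| ≥ F (F - √δ₁) ≥ √δ (√δ - √δ₁) =: m > 0`. The solution is
`h j = G j / ∑ f i G i`, bounded by `M' / m`. `0 < δ` follows from `harea`; the case `N = 0`: `C` is empty or `δ ≤ 0`. -/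
theorem solv_small_area {N : ℕ} {C : Set (En n)} (hC : IsOpen C) {f : Fin N → En n → ℂ}
    (hf : ∀ j, DifferentiableOn ℂ (f j) C) {M : ℝ} (hM : ∀ j, ∀ z ∈ C, ‖f j z‖ ≤ M) {δ : ℝ}
    (hδ : ∀ z ∈ C, δ ≤ ∑ j, ‖f j z‖ ^ 2)
    (harea : ∑ j, volume (closure (f j '' C)) < ENNReal.ofReal (Real.pi * δ)) :
    ∃ A : ℝ, SolvableOn f C A := by
  have hπδ : 0 < Real.pi * δ := by
    by_contra hneg
    rw [ENNReal.ofReal_of_nonpos (le_of_not_gt hneg)] at harea
    exact not_lt_zero harea
  have hδ0 : 0 < δ := by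
    by_contra hneg
    exact absurd hπδ (not_lt.mpr (mul_nonpos_of_nonneg_of_nonpos Real.pi_pos.le (le_of_not_gt hneg)))
  have hvt : ∀ j, volume (closure (f j '' C)) ≠ ⊤ := by
    intro j
    have h1 : volume (closure (f j '' C)) ≤ ∑ j, volume (closure (f j '' C)) :=
      Finset.single_le_sum (f := fun j => volume (closure (f j '' C))) (fun _ _ => zero_le)
        (Finset.mem_univ j)
    exact (h1.trans_lt (harea.trans_le le_top)).ne
  obtain ⟨v, hv⟩ : ∃ v : Fin N → ℝ, v = fun j => (volume (closure (f j '' C))).toReal := ⟨_, rfl⟩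
  have hv0 : ∀ j, 0 ≤ v j := by intro j; rw [hv]; exact ENNReal.toReal_nonneg
  have hvv : ∀ j, volume (closure (f j '' C)) = ENNReal.ofReal (v j) := by
    intro j; rw [hv]; exact (ENNReal.ofReal_toReal (hvt j)).symm
  have hsumv : ∑ j, v j < Real.pi * δ := by
    have h1 : ∑ j, volume (closure (f j '' C)) = ENNReal.ofReal (∑ j, v j) := by
      rw [ENNReal.ofReal_sum_of_nonneg fun j _ => hv0 j]
      exact Finset.sum_congr rfl fun j _ => hvv j
    rw [h1] at harea
    exact (ENNReal.ofReal_lt_ofReal_iff hπδ).mp harea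
  obtain ⟨κ, hκ⟩ : ∃ κ : ℝ, κ = (Real.pi * δ - ∑ j, v j) / (2 * ((N : ℝ) + 1)) := ⟨_, rfl⟩
  have hN1 : (0 : ℝ) < (N : ℝ) + 1 := by positivity
  have hκ0 : 0 < κ := by rw [hκ]; exact div_pos (by linarith) (by positivity)
  have hκN : 2 * ((N : ℝ) + 1) * κ = Real.pi * δ - ∑ j, v j := by
    rw [hκ]; field_simp
  have hs : ∀ j, volume (closure (f j '' C)) < ENNReal.ofReal (v j + κ) := by
    intro j
    rw [hvv j]
    exact (ENNReal.ofReal_lt_ofReal_iff (by linarith [hv0 j])).mpr (by linarith)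
  have hex := fun j => conj_approx hC (hf j) (hM j) (hs j)
  choose G M' hG hGb hGa using hex
  obtain ⟨δ₁, hδ₁⟩ : ∃ δ₁ : ℝ, δ₁ = ∑ j, (v j + κ) / Real.pi := ⟨_, rfl⟩
  have hδ₁lt : δ₁ < δ := by
    rw [hδ₁, ← Finset.sum_div, div_lt_iff₀ Real.pi_pos, Finset.sum_add_distrib,
      Finset.sum_const, Finset.card_univ, Fintype.card_fin, nsmul_eq_mul]
    nlinarith [hκN, hκ0, hN1]
  have hm : 0 < Real.sqrt δ * (Real.sqrt δ - Real.sqrt δ₁) := by
    have h1 : 0 < Real.sqrt δ := Real.sqrt_pos.mpr hδ0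
    have h2 : Real.sqrt δ₁ < Real.sqrt δ := Real.sqrt_lt_sqrt
      (by rw [hδ₁]; exact Finset.sum_nonneg fun j _ => div_nonneg (by linarith [hv0 j]) Real.pi_pos.le)
      hδ₁lt
    exact mul_pos h1 (by linarith)
  have hlow : ∀ z ∈ C, Real.sqrt δ * (Real.sqrt δ - Real.sqrt δ₁) ≤ ‖∑ j, f j z * G j z‖ := by
    intro z hz
    obtain ⟨F, hF⟩ : ∃ F : ℝ, F = Real.sqrt (∑ j, ‖f j z‖ ^ 2) := ⟨_, rfl⟩
    have hFsq : F ^ 2 = ∑ j, ‖f j z‖ ^ 2 := by
      rw [hF]; exact Real.sq_sqrt (Finset.sum_nonneg fun j _ => by positivity)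
    have hFδ : Real.sqrt δ ≤ F := by rw [hF]; exact Real.sqrt_le_sqrt (hδ z hz)
    have hself : ∑ j, f j z * (starRingEnd ℂ) (f j z) = ((F ^ 2 : ℝ) : ℂ) := by
      rw [hFsq]
      push_cast
      refine Finset.sum_congr rfl fun j _ => ?_
      rw [Complex.mul_conj, Complex.normSq_eq_norm_sq]
      push_cast
      rfl
    have hdiff : ‖∑ j, f j z * (G j z - (starRingEnd ℂ) (f j z))‖ ≤ F * Real.sqrt δ₁ := by
      calc ‖∑ j, f j z * (G j z - (starRingEnd ℂ) (f j z))‖
          ≤ ∑ j, ‖f j z * (G j z - (starRingEnd ℂ) (f j z))‖ := norm_sum_le _ _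
        _ = ∑ j, ‖f j z‖ * ‖G j z - (starRingEnd ℂ) (f j z)‖ :=
            Finset.sum_congr rfl fun j _ => norm_mul _ _
        _ ≤ ∑ j, ‖f j z‖ * Real.sqrt ((v j + κ) / Real.pi) :=
            Finset.sum_le_sum fun j _ => mul_le_mul_of_nonneg_left (hGa j z hz) (norm_nonneg _)
        _ ≤ Real.sqrt (∑ j, ‖f j z‖ ^ 2) *
              Real.sqrt (∑ j, Real.sqrt ((v j + κ) / Real.pi) ^ 2) :=
            Real.sum_mul_le_sqrt_mul_sqrt _ _ _
        _ = F * Real.sqrt δ₁ := by
            rw [hF, hδ₁]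
            congr 2
            exact Finset.sum_congr rfl fun j _ =>
              Real.sq_sqrt (div_nonneg (by linarith [hv0 j]) Real.pi_pos.le)
    have hsplit : ∑ j, f j z * G j z = ((F ^ 2 : ℝ) : ℂ) +
        ∑ j, f j z * (G j z - (starRingEnd ℂ) (f j z)) := by
      rw [← hself, ← Finset.sum_add_distrib]
      exact Finset.sum_congr rfl fun j _ => by ring
    have hF0 : 0 ≤ F := (Real.sqrt_nonneg δ).trans hFδ
    have h1 : F ^ 2 ≤ ‖∑ j, f j z * G j z‖ + F * Real.sqrt δ₁ := by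
      have h2 : ((F ^ 2 : ℝ) : ℂ) = ∑ j, f j z * G j z -
          ∑ j, f j z * (G j z - (starRingEnd ℂ) (f j z)) := by rw [hsplit]; ring
      have h3 : ‖((F ^ 2 : ℝ) : ℂ)‖ = F ^ 2 := by
        rw [Complex.norm_real, Real.norm_eq_abs, abs_of_nonneg (by positivity)]
      rw [← h3, h2]
      exact (norm_sub_le _ _).trans (by linarith)
    have h4 : Real.sqrt δ₁ ≤ Real.sqrt δ := Real.sqrt_le_sqrt hδ₁lt.le
    have h5 : Real.sqrt δ * (Real.sqrt δ - Real.sqrt δ₁) ≤ F * (F - Real.sqrt δ₁) :=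
      mul_le_mul hFδ (by linarith) (by linarith) hF0
    nlinarith [h5, h1]
  have hne : ∀ z ∈ C, ∑ j, f j z * G j z ≠ 0 := by
    intro z hz h0
    have := hlow z hz
    rw [h0, norm_zero] at this
    linarith
  have hden : DifferentiableOn ℂ (fun z => ∑ j, f j z * G j z) C :=
    DifferentiableOn.fun_sum fun j _ => (hf j).mul (hG j)
  refine ⟨(∑ j, |M' j|) / (Real.sqrt δ * (Real.sqrt δ - Real.sqrt δ₁)),
    fun j z => G j z / ∑ i, f i z * G i z, ?_, ?_, ?_⟩
  · intro j
    simp only [div_eq_mul_inv]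
    exact (hG j).mul (hden.inv hne)
  · intro j z hz
    rw [norm_div]
    refine div_le_div₀ (Finset.sum_nonneg fun _ _ => abs_nonneg _) ?_ hm (hlow z hz)
    exact ((hGb j z hz).trans (le_abs_self _)).trans
      (Finset.single_le_sum (f := fun j => |M' j|) (fun _ _ => abs_nonneg _) (Finset.mem_univ j))
  · intro z hz
    have h1 : ∀ j, f j z * (G j z / ∑ i, f i z * G i z) =
        f j z * G j z / ∑ i, f i z * G i z := fun j => by ring
    rw [Finset.sum_congr rfl fun j _ => h1 j, ← Finset.sum_div]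
    exact div_self (hne z hz)

end Pool.Agent.MPca0fc2.TB
end

section

/-! Campaign LS: open sets on which the coordinate functions have bounded solutions. -/

set_option autoImplicit false

open Metric Set Filter Topology
open Pool.Agent.Lib.MP_ca0fc2_an

namespace Pool.Agent.MPca0fc2.LS

variable {N : ℕ}

/-- the coordinate functions have bounded holomorphic solutions on `W` -/
def CoordSolvable (W : Set (EuclideanSpace ℂ (Fin N))) : Prop :=
  ∃ G : Fin N → EuclideanSpace ℂ (Fin N) → ℂ, (∀ j, IsHinf W (G j)) ∧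
    ∀ y ∈ W, ∑ j, y j * G j y = 1

theorem coordSolvable_empty : CoordSolvable (∅ : Set (EuclideanSpace ℂ (Fin N))) :=
  ⟨fun _ _ => 0, fun _ => ⟨fun z hz => absurd hz (notMem_empty z), 0,
    fun z hz => absurd hz (notMem_empty z)⟩, fun z hz => absurd hz (notMem_empty z)⟩

theorem CoordSolvable.mono {V W : Set (EuclideanSpace ℂ (Fin N))} (h : CoordSolvable W)
    (hVW : V ⊆ W) : CoordSolvable V := by
  obtain ⟨G, h1, h2⟩ := h
  exact ⟨G, fun j => ⟨(h1 j).1.mono hVW, (h1 j).2.choose,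
    fun z hz => (h1 j).2.choose_spec z (hVW hz)⟩, fun y hy => h2 y (hVW hy)⟩

theorem CoordSolvable.union {V W : Set (EuclideanSpace ℂ (Fin N))} (hV : CoordSolvable V)
    (hW : CoordSolvable W) (hVo : IsOpen V) (hWo : IsOpen W) (hd : Disjoint V W) :
    CoordSolvable (V ∪ W) := by
  classical
  obtain ⟨G, h1, h2⟩ := hV
  obtain ⟨G', h1', h2'⟩ := hW
  have hVe : ∀ j, ∀ y ∈ V, (V.piecewise (G j) (G' j)) y = G j y := fun j y hy =>
    piecewise_eq_of_mem _ _ _ hy
  have hWe : ∀ j, ∀ y ∈ W, (V.piecewise (G j) (G' j)) y = G' j y := fun j y hy =>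
    piecewise_eq_of_notMem _ _ _ fun h => disjoint_left.1 hd h hy
  refine ⟨fun j => V.piecewise (G j) (G' j), fun j => ⟨?_, ?_⟩, ?_⟩
  · rintro y (hy | hy)
    · have h3 : DifferentiableAt ℂ (G j) y := ((h1 j).1 y hy).differentiableAt (hVo.mem_nhds hy)
      refine (h3.congr_of_eventuallyEq ?_).differentiableWithinAt
      filter_upwards [hVo.mem_nhds hy] with x hx
      exact hVe j x hx
    · have h3 : DifferentiableAt ℂ (G' j) y := ((h1' j).1 y hy).differentiableAt (hWo.mem_nhds hy)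
      refine (h3.congr_of_eventuallyEq ?_).differentiableWithinAt
      filter_upwards [hWo.mem_nhds hy] with x hx
      exact hWe j x hx
  · obtain ⟨M, hM⟩ := (h1 j).2
    obtain ⟨M', hM'⟩ := (h1' j).2
    refine ⟨max M M', ?_⟩
    beta_reduce
    rintro y (hy | hy)
    · rw [hVe j y hy]
      exact (hM y hy).trans (le_max_left _ _)
    · rw [hWe j y hy]
      exact (hM' y hy).trans (le_max_right _ _)
  · rintro y (hy | hy)
    · rw [← h2 y hy]
      refine Finset.sum_congr rfl fun j _ => ?_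
      beta_reduce
      rw [hVe j y hy]
    · rw [← h2' y hy]
      refine Finset.sum_congr rfl fun j _ => ?_
      beta_reduce
      rw [hWe j y hy]

end Pool.Agent.MPca0fc2.LS
end

section

/-! Campaign LS: neighbourhoods of compact sets whose components have good neighbourhoods. -/

set_option autoImplicit false

open Metric Set Filter Topology

namespace Pool.Agent.MPca0fc2.LS

/-- A compact set has a good neighbourhood if its connected components do, where the good sets are a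
family of open sets which contains the open subsets of its members and the unions of two disjoint
members. -/
theorem nhds_of_components {X : Type*} [TopologicalSpace X] [T2Space X] {K : Set X}
    (hK : IsCompact K) {P : Set X → Prop} (h0 : P ∅)
    (hsub : ∀ V W, P W → IsOpen W → IsOpen V → V ⊆ W → P V)
    (hun : ∀ V W, P V → P W → IsOpen V → IsOpen W → Disjoint V W → P (V ∪ W))
    (H : ∀ x ∈ K, ∃ W, IsOpen W ∧ P W ∧ connectedComponentIn K x ⊆ W) :
    ∃ W, IsOpen W ∧ P W ∧ K ⊆ W := by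
  classical
  have : CompactSpace K := isCompact_iff_compactSpace.1 hK
  -- clopen subsets of `K` in the good sets
  have h1 : ∀ x : K, ∃ (Z : Set K) (W : Set X), IsClopen Z ∧ x ∈ Z ∧ IsOpen W ∧ P W ∧
      (Subtype.val '' Z) ⊆ W := by
    intro x
    obtain ⟨W, hW, hPW, hcW⟩ := H x.1 x.2
    have hc : connectedComponent x ⊆ (Subtype.val ⁻¹' W : Set K) := by
      intro y hy
      refine hcW ?_
      rw [connectedComponentIn_eq_image x.2]
      exact ⟨y, hy, rfl⟩
    rw [connectedComponent_eq_iInter_isClopen] at hc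
    have hdir : Directed (· ⊇ ·) fun s : { s : Set K // IsClopen s ∧ x ∈ s } => s.1 := by
      intro a b
      exact ⟨⟨a.1 ∩ b.1, a.2.1.inter b.2.1, a.2.2, b.2.2⟩, inter_subset_left, inter_subset_right⟩
    have : Nonempty { s : Set K // IsClopen s ∧ x ∈ s } := ⟨⟨univ, isClopen_univ, mem_univ _⟩⟩
    obtain ⟨Z, hZ⟩ := exists_subset_nhds_of_isCompact' hdir (fun s => s.2.1.isClosed.isCompact)
      (fun s => s.2.1.isClosed) (U := (Subtype.val ⁻¹' W : Set K))
      (fun y hy => (hW.preimage continuous_subtype_val).mem_nhds (hc hy))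
    refine ⟨Z.1, W, Z.2.1, Z.2.2, hW, hPW, ?_⟩
    rintro _ ⟨y, hy, rfl⟩
    exact hZ hy
  choose Z W hZ hxZ hW hPW hZW using h1
  obtain ⟨t, ht⟩ := isCompact_univ.elim_finite_subcover Z (fun x => (hZ x).isOpen)
    fun x _ => mem_iUnion.2 ⟨x, hxZ x⟩
  have key : ∀ s : Finset K, ∃ O : Set X, IsOpen O ∧ P O ∧
      (Subtype.val '' (⋃ x ∈ s, Z x)) ⊆ O := by
    intro s
    induction s using Finset.induction_on with
    | empty => exact ⟨∅, isOpen_empty, h0, by simp⟩
    | insert x s hx ih =>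
      obtain ⟨O, hO, hPO, hs⟩ := ih
      have hA : IsClopen (⋃ y ∈ s, Z y) := s.finite_toSet.isClopen_biUnion fun y _ => hZ y
      have hAc : IsCompact (Subtype.val '' (⋃ y ∈ s, Z y)) :=
        hA.isClosed.isCompact.image continuous_subtype_val
      have hBc : IsCompact (Subtype.val '' (Z x \ (⋃ y ∈ s, Z y))) :=
        ((hZ x).diff hA).isClosed.isCompact.image continuous_subtype_val
      have hd : Disjoint (Subtype.val '' (⋃ y ∈ s, Z y))
          (Subtype.val '' (Z x \ (⋃ y ∈ s, Z y))) := by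
        rw [disjoint_image_iff Subtype.val_injective]
        exact disjoint_sdiff_right
      obtain ⟨U, V, hU, hV, hAU, hBV, hUV⟩ := SeparatedNhds.of_isCompact_isCompact hAc hBc hd
      refine ⟨(O ∩ U) ∪ (W x ∩ V), (hO.inter hU).union ((hW x).inter hV),
        hun _ _ (hsub _ _ hPO hO (hO.inter hU) inter_subset_left)
          (hsub _ _ (hPW x) (hW x) ((hW x).inter hV) inter_subset_left) (hO.inter hU)
          ((hW x).inter hV) (hUV.mono inter_subset_right inter_subset_right), ?_⟩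
      rintro _ ⟨y, hy, rfl⟩
      by_cases hyA : y ∈ ⋃ y ∈ s, Z y
      · exact Or.inl ⟨hs ⟨y, hyA, rfl⟩, hAU ⟨y, hyA, rfl⟩⟩
      · have hyx : y ∈ Z x := by
          rw [Finset.set_biUnion_insert] at hy
          exact hy.resolve_right hyA
        exact Or.inr ⟨hZW x ⟨y, hyx, rfl⟩, hBV ⟨y, ⟨hyx, hyA⟩, rfl⟩⟩
  obtain ⟨O, hO, hPO, hs⟩ := key t
  refine ⟨O, hO, hPO, fun x hx => hs ⟨⟨x, hx⟩, ?_, rfl⟩⟩
  exact ht (mem_univ _)

end Pool.Agent.MPca0fc2.LS
end

section

/-! Campaign LS: uniform cells from the points of the spectrum. -/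

set_option autoImplicit false

open Metric Set Filter Topology

namespace Pool.Agent.MPca0fc2.LS

/-- If each ultrafilter which tends to `p` in `D` has a good cell, then the small cells of finitely many
functions are good. -/
theorem uniform_cells {X : Type*} [PseudoMetricSpace X] {D : Set X} {p : X} {T : Set (X → ℂ)}
    {Sol : Set X → Prop} (hmono : ∀ A B, A ⊆ B → Sol B → Sol A) (h0 : Sol ∅)
    (H : ∀ U : Ultrafilter X, (U : Filter X) ≤ 𝓝[D] p → ∃ (m : ℕ) (u : Fin m → X → ℂ)
      (c : Fin m → ℂ) (ε : ℝ), 0 < ε ∧ (∀ i, u i ∈ T) ∧ (∀ i, Tendsto (u i) U (𝓝 (c i))) ∧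
      Sol {z | z ∈ D ∩ ball p ε ∧ ∀ i, ‖u i z - c i‖ < ε}) :
    ∃ r > 0, ∃ (m : ℕ) (u : Fin m → X → ℂ) (ε : ℝ), 0 < ε ∧ (∀ i, u i ∈ T) ∧
      ∀ c : Fin m → ℂ, Sol {z | z ∈ D ∩ ball p r ∧ ∀ i, ‖u i z - c i‖ < ε} := by
  classical
  choose! m u c ε hε hu hc hS using H
  obtain ⟨S, hSdef⟩ : ∃ S : Ultrafilter X → Set X,
      S = fun U => {z | z ∈ D ∩ ball p (ε U / 2) ∧ ∀ i, ‖u U i z - c U i‖ < ε U / 2} := ⟨_, rfl⟩
  have hSU : ∀ U : Ultrafilter X, (U : Filter X) ≤ 𝓝[D] p → S U ∈ U := by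
    intro U hU
    have h1 : D ∩ ball p (ε U / 2) ∈ U := by
      refine hU (inter_mem_nhdsWithin D (ball_mem_nhds p (half_pos (hε U hU))))
    have h2 : ∀ᶠ z in (U : Filter X), ∀ i, ‖u U i z - c U i‖ < ε U / 2 :=
      eventually_all.2 fun i => by
        filter_upwards [(Metric.tendsto_nhds.1 (hc U hU i)) (ε U / 2) (half_pos (hε U hU))]
          with z hz
        rwa [dist_eq_norm] at hz
    have h3 : {z | z ∈ D ∩ ball p (ε U / 2)} ∩ {z | ∀ i, ‖u U i z - c U i‖ < ε U / 2} ∈ U :=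
      inter_mem h1 h2
    rw [hSdef]
    exact h3
  -- compactness of the set of the ultrafilters which tend to `p` in `D`
  have hclosed : IsClosed {U : Ultrafilter X | (U : Filter X) ≤ 𝓝[D] p} := by
    have h1 : {U : Ultrafilter X | (U : Filter X) ≤ 𝓝[D] p} =
        ⋂ s ∈ 𝓝[D] p, {U : Ultrafilter X | s ∈ U} := by
      ext U
      rw [mem_iInter₂]
      exact ⟨fun h s hs => h hs, fun h s hs => h s hs⟩
    rw [h1]
    exact isClosed_biInter fun s _ => ultrafilter_isClosed_basic s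
  obtain ⟨t, htsub, ht⟩ := hclosed.isCompact.elim_nhds_subcover
    (fun V => {U : Ultrafilter X | S V ∈ U})
    fun V hV => (ultrafilter_isOpen_basic (S V)).mem_nhds (hSU V hV)
  have hcov : (⋃ V ∈ t, S V) ∈ 𝓝[D] p := by
    rw [mem_iff_ultrafilter]
    intro U hU
    obtain ⟨V, hVt, hV⟩ := mem_iUnion₂.1 (ht (show U ∈ {U : Ultrafilter X |
      (U : Filter X) ≤ 𝓝[D] p} from hU))
    exact mem_of_superset hV (subset_biUnion_of_mem (u := fun V => S V) hVt)
  obtain ⟨r, hr, hrS⟩ := Metric.mem_nhdsWithin_iff.1 hcov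
  -- the uniform constants
  obtain ⟨e, he, het⟩ : ∃ e > 0, ∀ V ∈ t, 8 * e ≤ ε V := by
    rcases t.eq_empty_or_nonempty with h | h
    · exact ⟨1, one_pos, fun V hV => by rw [h] at hV; exact absurd hV (Finset.notMem_empty V)⟩
    · refine ⟨t.inf' h fun V => ε V / 8, (Finset.lt_inf'_iff _).2 fun V hV => ?_, fun V hV => ?_⟩
      · have := hε V (htsub V hV)
        positivity
      · have := Finset.inf'_le (fun V => ε V / 8) hV
        linarith
  -- the list of all the functions
  let ι' := Σ V : t, Fin (m V.1)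
  let eq := Fintype.equivFin ι'
  refine ⟨min r e, lt_min hr he, Fintype.card ι', fun k => u (eq.symm k).1.1 (eq.symm k).2, e, he,
    fun k => hu _ (htsub _ (eq.symm k).1.2) _, fun b => ?_⟩
  rcases ({z | z ∈ D ∩ ball p (min r e) ∧ ∀ k, ‖u (eq.symm k).1.1 (eq.symm k).2 z - b k‖ < e} :
    Set X).eq_empty_or_nonempty with hE | ⟨z₀, hz₀⟩
  · rw [hE]
    exact h0
  have h1 : z₀ ∈ ball p r ∩ D := ⟨ball_subset_ball (min_le_left _ _) hz₀.1.2, hz₀.1.1⟩
  obtain ⟨V, hVt, hV⟩ := mem_iUnion₂.1 (hrS h1)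
  rw [hSdef] at hV
  refine hmono _ _ ?_ (hS V (htsub V hVt))
  intro z hz
  have hV8 := het V hVt
  have hVp := hε V (htsub V hVt)
  refine ⟨⟨hz.1.1, ball_subset_ball ((min_le_right r e).trans (by linarith)) hz.1.2⟩,
    fun i => ?_⟩
  have h2 := hz.2 (eq ⟨⟨V, hVt⟩, i⟩)
  have h3 := hz₀.2 (eq ⟨⟨V, hVt⟩, i⟩)
  beta_reduce at h2 h3
  rw [Equiv.symm_apply_apply] at h2 h3
  have h4 := hV.2 i
  calc ‖u V i z - c V i‖ = ‖(u V i z - b (eq ⟨⟨V, hVt⟩, i⟩)) -
        (u V i z₀ - b (eq ⟨⟨V, hVt⟩, i⟩)) + (u V i z₀ - c V i)‖ := by congr 1; ring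
    _ ≤ ‖(u V i z - b (eq ⟨⟨V, hVt⟩, i⟩)) - (u V i z₀ - b (eq ⟨⟨V, hVt⟩, i⟩))‖ +
        ‖u V i z₀ - c V i‖ := norm_add_le _ _
    _ ≤ ‖u V i z - b (eq ⟨⟨V, hVt⟩, i⟩)‖ + ‖u V i z₀ - b (eq ⟨⟨V, hVt⟩, i⟩)‖ +
        ‖u V i z₀ - c V i‖ := by
        gcongr
        exact norm_sub_le _ _
    _ < ε V := by linarith

end Pool.Agent.MPca0fc2.LS
end
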