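import Pool.Agent.Lib.MP_ca0fc2_an.Mg.G057
import Pool.Agent.Lib.MP_ca0fc2_an.Mg.G055
import Pool.Agent.Lib.MP_ca0fc2_an.Defs
import Pool.Agent.Lib.MP_ca0fc2_an.Mg.G046
import Pool.Agent.Lib.MP_ca0fc2_an.Mg.G056
import Pool.Agent.Lib.MP_ca0fc2_an.Mg.G059

section

/-! The solution of the equation `∑ f_j h_j = 1` from a smooth solution. -/

set_option autoImplicit false

open Metric Set MeasureTheory Filter Topology

namespace Pool.Agent.MPca0fc2.FD

open Pool.Agent.Lib.MP_ca0fc2_an (SolvableOn)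

variable {n : ℕ}

/-- the data: a smooth solution `σ` of `∑ f_j σ_j = 1`, bounded by the potential -/
structure SD (P : PD n) (U : Set (Ec n)) (δ : Ec n → ℝ) (h : Ec n → Ec n → Fin n → ℂ) {N : ℕ}
    (f : Fin N → Ec n → ℂ) (σ : Ec n → Fin N → ℂ) (c C A M C₁ G : ℝ) : Prop where
  geo : Geo U δ h c C
  pg : PG0 P U δ h c C A
  M0 : 0 ≤ M
  C0 : 0 ≤ C₁
  G0 : 0 ≤ G
  f_hol : ∀ j, DifferentiableOn ℂ (f j) (Om U δ)
  f_le : ∀ j, ∀ z ∈ Om U δ, ‖f j z‖ ≤ M
  σ_c2 : ContDiffOn ℝ 2 σ (Om U δ)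
  σ_le : ∀ z ∈ Om U δ, ‖σ z‖ ≤ C₁
  dσ : ∀ z ∈ Om U δ, ∀ X, ‖db σ z X‖ ≤ G * Ene P δ z * gau δ h z X
  one : ∀ z ∈ Om U δ, ∑ j, f j z * σ z j = 1

/-- the row of the functions -/
noncomputable def Fr {N : ℕ} (f : Fin N → Ec n → ℂ) (z : Ec n) : (Fin N → ℂ) →L[ℂ] ℂ :=
  ∑ j, f j z • ContinuousLinearMap.proj (R := ℂ) (φ := fun _ : Fin N => ℂ) j

private theorem K6_proj {N : ℕ} (j : Fin N) :
    ‖ContinuousLinearMap.proj (R := ℂ) (φ := fun _ : Fin N => ℂ) j‖ ≤ 1 := by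
  refine ContinuousLinearMap.opNorm_le_bound _ zero_le_one fun x => ?_
  rw [one_mul]
  exact norm_le_pi_norm x j

/-- PROOF. `‖proj j‖ ≤ 1`. -/
theorem Fr_norm {N : ℕ} {f : Fin N → Ec n → ℂ} {z : Ec n} {M : ℝ} (hf : ∀ j, ‖f j z‖ ≤ M) :
    ‖Fr f z‖ ≤ N * M := by
  unfold Fr
  refine (norm_sum_le _ _).trans ?_
  calc ∑ j, ‖f j z • ContinuousLinearMap.proj (R := ℂ) (φ := fun _ : Fin N => ℂ) j‖
      ≤ ∑ _j : Fin N, M := by
        refine Finset.sum_le_sum fun j _ => ?_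
        rw [norm_smul]
        calc ‖f j z‖ * ‖ContinuousLinearMap.proj (R := ℂ) (φ := fun _ : Fin N => ℂ) j‖
            ≤ ‖f j z‖ * 1 := mul_le_mul_of_nonneg_left (K6_proj j) (norm_nonneg _)
          _ ≤ M := by rw [mul_one]; exact hf j
    _ = N * M := by
        rw [Finset.sum_const, Finset.card_univ, Fintype.card_fin, nsmul_eq_mul]

/-- PROOF. From the definition. -/
theorem Fr_apply {N : ℕ} (f : Fin N → Ec n → ℂ) (z : Ec n) (y : Fin N → ℂ) :
    Fr f z y = ∑ j, f j z * y j := by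
  unfold Fr
  rw [sum_apply]
  rfl

private theorem K6_prod {N : ℕ} {f : Fin N → Ec n → ℂ} {σ : Ec n → Fin N → ℂ} {z : Ec n}
    (hf : ∀ j, DifferentiableAt ℂ (f j) z) (hσ : DifferentiableAt ℝ σ z) (X : Ec n) :
    db (fun y => ∑ j, f j y * σ y j) z X = ∑ j, f j z * db σ z X j := by
  have hσj : ∀ j, HasFDerivAt (fun y => σ y j)
      ((ContinuousLinearMap.proj (R := ℝ) (φ := fun _ : Fin N => ℂ) j).comp (fderiv ℝ σ z)) z :=
    fun j => (hasFDerivAt_pi'.1 hσ.hasFDerivAt) j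
  have hfj : ∀ j, HasFDerivAt (f j) (fderiv ℝ (f j) z) z := fun j =>
    ((hf j).restrictScalars ℝ).hasFDerivAt
  have hsum : HasFDerivAt (fun y => ∑ j, f j y * σ y j)
      (∑ j, (f j z • ((ContinuousLinearMap.proj (R := ℝ) (φ := fun _ : Fin N => ℂ) j).comp
        (fderiv ℝ σ z)) + σ z j • fderiv ℝ (f j) z)) z :=
    HasFDerivAt.fun_sum fun j _ => (hfj j).mul (hσj j)
  have hval : ∀ Y : Ec n, fderiv ℝ (fun y => ∑ j, f j y * σ y j) z Y =
      ∑ j, (f j z * fderiv ℝ σ z Y j + σ z j * fderiv ℝ (f j) z Y) := by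
    intro Y
    rw [hsum.fderiv, sum_apply]
    rfl
  have hzero : ∀ j, (2⁻¹ : ℂ) * (fderiv ℝ (f j) z X + Complex.I * fderiv ℝ (f j) z (Complex.I • X))
      = 0 := fun j => db_hol (hf j) X
  unfold db
  rw [hval, hval]
  simp only [smul_eq_mul, Pi.smul_apply, Pi.add_apply]
  rw [Finset.mul_sum, ← Finset.sum_add_distrib, Finset.mul_sum]
  refine Finset.sum_congr rfl fun j _ => ?_
  linear_combination σ z j * hzero j

/-- PROOF. All the fields: `F = Fr f`; `zero`: the function `z ↦ Fr f z (σ z)` is `1` on the open set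
`Om U δ`, so its `db` is `0`, and since `Fr f` is holomorphic, `db (fun z => Fr f z (σ z)) z X = Fr f z (db σ z X)`
(`db_hol`, product rule for `fderiv`). `Om U δ` is open (`Om_open`). -/
theorem SD_KD {P : PD n} {U : Set (Ec n)} {δ : Ec n → ℝ} {h : Ec n → Ec n → Fin n → ℂ} {N : ℕ}
    {f : Fin N → Ec n → ℂ} {σ : Ec n → Fin N → ℂ} {c C A M C₁ G : ℝ}
    (hs : SD P U δ h f σ c C A M C₁ G) : KD P U δ h (Fr f) σ c C A (N * M) C₁ G := by
  have hopen := Om_open hs.geo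
  exact
    { geo := hs.geo
      pg := hs.pg
      M0 := mul_nonneg (Nat.cast_nonneg _) hs.M0
      C0 := hs.C0
      G0 := hs.G0
      F_hol := by
        unfold Fr
        exact DifferentiableOn.fun_sum fun j _ => (hs.f_hol j).smul_const _
      F_le := fun z hz => Fr_norm fun j => hs.f_le j z hz
      σ_c2 := hs.σ_c2
      σ_le := hs.σ_le
      dσ := hs.dσ
      one := by
        intro z hz
        rw [Fr_apply]
        exact hs.one z hz
      zero := by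
        intro z hz X
        have hnh : Om U δ ∈ 𝓝 z := hopen.mem_nhds hz
        have h1 : (fun y => ∑ j, f j y * σ y j) =ᶠ[𝓝 z] fun _ => (1 : ℂ) := by
          filter_upwards [hnh] with y hy
          exact hs.one y hy
        have h2 : db (fun y => ∑ j, f j y * σ y j) z X = 0 := by
          unfold db
          rw [h1.fderiv_eq, fderiv_fun_const]
          simp
        rw [K6_prod (fun j => (hs.f_hol j).differentiableAt hnh)
          ((hs.σ_c2.differentiableOn (by norm_num)).differentiableAt hnh)] at h2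
        rw [Fr_apply]
        exact h2 }

/-- The solution.
PROOF. `QTCar.exists_car N` gives `V` and `K`. `SD_KD`, `kd_solve` with `e = 1 / (2 ‖K.ω‖ + 2)` gives `H`. Let
`g j z = K.ω (K.c (proj j) (H z))`, holomorphic, bounded by `‖K.ω‖ ‖K.c‖ B` (`‖proj j‖ ≤ 1`);
`∑ f_j g_j = K.ω (K.c (Fr f z) (H z))`, and its distance to `1 = K.ω K.Ω` is at most `‖K.ω‖ e ≤ 1 / 2`. So
`s = ∑ f_j g_j` is holomorphic with `‖s‖ ≥ 1 / 2`, and `h_j = g_j / s` is the solution, bounded by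
`2 ‖K.ω‖ ‖K.c‖ B`. (The constant has to be chosen before the data: `V`, `K` depend on `N` only.) -/
theorem sd_solv (hn : 2 ≤ n) (N : ℕ) (c C A M C₁ G : ℝ) (R : ℕ) :
    ∃ B : ℝ, ∀ (U : Set (Ec n)) (δ : Ec n → ℝ) (h : Ec n → Ec n → Fin n → ℂ)
      (P : PD n) (f : Fin N → Ec n → ℂ) (σ : Ec n → Fin N → ℂ), P.R = R →
      SD P U δ h f σ c C A M C₁ G → ∀ ς : ℝ, 0 < ς → (n + 3) * ς ≤ c / 2 →
      SolvableOn f (Om U (fun z => δ z - (n + 3) * ς)) B := by
  obtain ⟨V, i1, i2, i3, ⟨K⟩⟩ := QT.exists_car N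
  obtain ⟨B, hB, hsol⟩ := kd_solve hn K c C A (N * M) C₁ G R
  refine ⟨2 * (‖K.ω‖ * (‖K.c‖ * B)), ?_⟩
  intro U δ h P f σ hR hs ς hς hςc
  have he : (0 : ℝ) < 1 / (2 * ‖K.ω‖ + 2) := by positivity
  obtain ⟨H, hH, hHB, hHe⟩ := hsol U δ h P (Fr f) σ hR (SD_KD hs) ς hς hςc _ he
  set D : Set (Ec n) := Om U (fun z => δ z - (n + 3) * ς) with hD
  have hsub : D ⊆ Om U δ := by
    intro z hz
    refine ⟨hz.1, ?_⟩
    have h1 : 0 < δ z - (n + 3) * ς := hz.2
    have h2 : (0 : ℝ) ≤ (n + 3) * ς := by positivity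
    linarith
  let g : Fin N → Ec n → ℂ := fun j z =>
    K.ω (K.c (ContinuousLinearMap.proj (R := ℂ) (φ := fun _ : Fin N => ℂ) j) (H z))
  let s : Ec n → ℂ := fun z => ∑ j, f j z * g j z
  have hs1 : ∀ z, s z = K.ω (K.c (Fr f z) (H z)) := by
    intro z
    change ∑ j, f j z *
      K.ω (K.c (ContinuousLinearMap.proj (R := ℂ) (φ := fun _ : Fin N => ℂ) j) (H z)) = _
    unfold Fr
    rw [map_sum, sum_apply, map_sum]
    refine Finset.sum_congr rfl fun j _ => ?_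
    rw [map_smul, smul_apply, map_smul, smul_eq_mul]
  have hs2 : ∀ z ∈ D, 1 / 2 ≤ ‖s z‖ := by
    intro z hz
    have h1 : ‖s z - 1‖ ≤ 1 / 2 := by
      rw [hs1, ← K.ωΩ, ← map_sub]
      refine (K.ω.le_opNorm _).trans ?_
      refine (mul_le_mul_of_nonneg_left (hHe z hz) (norm_nonneg _)).trans ?_
      rw [mul_one_div, div_le_iff₀ (by positivity)]
      linarith [norm_nonneg K.ω]
    have h2 : ‖(1 : ℂ)‖ ≤ ‖s z‖ + ‖s z - 1‖ := by
      calc ‖(1 : ℂ)‖ = ‖s z - (s z - 1)‖ := by rw [sub_sub_cancel]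
        _ ≤ _ := norm_sub_le _ _
    rw [norm_one] at h2
    linarith
  have hs3 : ∀ z ∈ D, s z ≠ 0 := by
    intro z hz h0
    have := hs2 z hz
    rw [h0, norm_zero] at this
    norm_num at this
  have hg1 : ∀ j, DifferentiableOn ℂ (g j) D := by
    intro j
    exact (K.ω.differentiable.comp (K.c _).differentiable).comp_differentiableOn hH
  have hg2 : ∀ j, ∀ z ∈ D, ‖g j z‖ ≤ ‖K.ω‖ * (‖K.c‖ * B) := by
    intro j z hz
    refine (K.ω.le_opNorm _).trans (mul_le_mul_of_nonneg_left ?_ (norm_nonneg _))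
    refine ((K.c _).le_opNorm _).trans ?_
    have h1 : ‖K.c (ContinuousLinearMap.proj (R := ℂ) (φ := fun _ : Fin N => ℂ) j)‖ ≤ ‖K.c‖ := by
      refine (K.c.le_opNorm _).trans ?_
      calc ‖K.c‖ * ‖ContinuousLinearMap.proj (R := ℂ) (φ := fun _ : Fin N => ℂ) j‖
          ≤ ‖K.c‖ * 1 := mul_le_mul_of_nonneg_left (K6_proj j) K.c.opNorm_nonneg
        _ = ‖K.c‖ := mul_one _
    exact mul_le_mul h1 (hHB z hz) (norm_nonneg _) K.c.opNorm_nonneg
  have hsd : DifferentiableOn ℂ s D :=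
    DifferentiableOn.fun_sum fun j _ => ((hs.f_hol j).mono hsub).mul (hg1 j)
  have hdiv : ∀ j, DifferentiableOn ℂ (fun z => g j z / s z) D := by
    intro j
    simp only [div_eq_mul_inv]
    exact (hg1 j).mul (hsd.inv hs3)
  refine ⟨fun j z => g j z / s z, hdiv, ?_, ?_⟩
  · intro j z hz
    rw [norm_div, div_le_iff₀ (lt_of_lt_of_le (by norm_num) (hs2 z hz))]
    have h1 := hg2 j z hz
    have h2 := hs2 z hz
    have h3 : 0 ≤ ‖K.ω‖ * (‖K.c‖ * B) := by positivity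
    nlinarith
  · intro z hz
    have h1 : ∑ j, f j z * (g j z / s z) = s z / s z := by
      change _ = (∑ j, f j z * g j z) / s z
      rw [Finset.sum_div]
      exact Finset.sum_congr rfl fun j _ => by rw [mul_div_assoc]
    rw [h1, div_self (hs3 z hz)]

end Pool.Agent.MPca0fc2.FD
end

section

/-! From a smooth base map to the solution on a smaller domain. -/

set_option autoImplicit false

open Metric Set MeasureTheory Filter Topology

namespace Pool.Agent.MPca0fc2.FD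

open Pool.Agent.Lib.MP_ca0fc2_an (SolvableOn)

variable {n : ℕ}

/-- Comparison of the potentials.
PROOF. `V = |1 - conj η y|`, `N = 1 - |η|²`, `w = 1 - |y|²`, `JJ y η = w N / V²`, `kap s y η = (N / V)² (s / V)^(1/4)`,
`V ≥ 1 - |y| ≥ w / 2` and `V ≥ 1 - |y| ≥ c s`. First: `JJ² / w = w N² / V⁴ = (kap / s) (w / V) (s / V)^(3/4)`, and
`(w / V) (s / V)^(3/4) ≤ 2 c^(-3/4) ≤ 2 / c`. Second: `JJ² / √w = (kap / √s) (w / V)^(3/2) (s / V)^(1/4)`
`≤ (kap / √s) 4 / c` (`c ≤ 1`). -/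
theorem JJ_kap {c s : ℝ} (hc : 0 < c) (hc1 : c ≤ 1) (hs : 0 < s) {y η : ℂ} (hη : ‖η‖ < 1)
    (hy : c * s ≤ 1 - ‖y‖) :
    JJ y η ^ 2 / (1 - ‖y‖ ^ 2) ≤ 4 / c * (kap s y η / s) ∧
      JJ y η ^ 2 / (1 - ‖y‖ ^ 2) * Real.sqrt (1 - ‖y‖ ^ 2) ≤ 4 / c * (kap s y η / Real.sqrt s) := by
  have hy1 : ‖y‖ < 1 := by
    have : 0 < c * s := mul_pos hc hs
    linarith
  obtain ⟨hV1, -, -, hN, hV⟩ := V_basic hη hy1
  unfold JJ kap
  set w : ℝ := 1 - ‖y‖ ^ 2 with hw
  set N : ℝ := 1 - ‖η‖ ^ 2 with hNdef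
  set V : ℝ := ‖1 - (starRingEnd ℂ) η * y‖ with hVdef
  set T : ℝ := (s / V) ^ (1 / 4 : ℝ) with hT
  have hsV : 0 < s / V := div_pos hs hV
  have hT0 : 0 < T := Real.rpow_pos_of_pos hsV _
  have hT4 : T ^ 4 = s / V := by
    rw [hT, ← Real.rpow_natCast, ← Real.rpow_mul hsV.le]
    norm_num
  have hyn := norm_nonneg y
  have hw0 : 0 < w := by rw [hw]; nlinarith
  have hwV : w ≤ 2 * V := by
    have : w ≤ 2 * (1 - ‖y‖) := by rw [hw]; nlinarith
    linarith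
  have hcs : c * T ^ 4 ≤ 1 := by
    rw [hT4, ← mul_div_assoc, div_le_one hV]
    linarith
  have hsT : s = T ^ 4 * V := by rw [hT4]; field_simp
  have hcT3 : c * T ^ 3 ≤ 1 := by
    rcases le_total T 1 with h | h
    · have h3 : T ^ 3 ≤ 1 := pow_le_one₀ hT0.le h
      nlinarith
    · have h3 : T ^ 3 ≤ T ^ 4 := pow_le_pow_right₀ h (by norm_num)
      nlinarith
  have hcT : c * T ≤ 1 := by
    rcases le_total T 1 with h | h
    · nlinarith
    · have h3 : T ^ 1 ≤ T ^ 4 := pow_le_pow_right₀ h (by norm_num)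
      nlinarith
  constructor
  · have h1 : (w * N / V ^ 2) ^ 2 / w = w * N ^ 2 / V ^ 4 := by field_simp
    have h2 : 4 / c * ((N / V) ^ 2 * T / s) = 4 * N ^ 2 * T / (c * V ^ 2 * s) := by
      field_simp
    rw [h1, h2, div_le_div_iff₀ (by positivity) (by positivity)]
    have h3 : w * (c * T ^ 3) ≤ 4 * V := by nlinarith
    have h4 : w * N ^ 2 * (c * V ^ 2 * s) = (w * (c * T ^ 3)) * (N ^ 2 * V ^ 3 * T) := by
      rw [hsT]; ring
    have h5 : 4 * N ^ 2 * T * V ^ 4 = (4 * V) * (N ^ 2 * V ^ 3 * T) := by ring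
    rw [h4, h5]
    exact mul_le_mul_of_nonneg_right h3 (by positivity)
  · set a : ℝ := Real.sqrt w with ha
    set b : ℝ := Real.sqrt V with hb
    have ha2 : a ^ 2 = w := Real.sq_sqrt hw0.le
    have hb2 : b ^ 2 = V := Real.sq_sqrt hV.le
    have ha0 : 0 < a := Real.sqrt_pos.2 hw0
    have hb0 : 0 < b := Real.sqrt_pos.2 hV
    have hss : Real.sqrt s = T ^ 2 * b := by
      rw [hsT, Real.sqrt_mul (by positivity), hb]
      congr 1
      rw [show T ^ 4 = (T ^ 2) ^ 2 by ring]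
      exact Real.sqrt_sq (by positivity)
    have hab : a ≤ 3 / 2 * b := by
      have h : a ^ 2 ≤ (3 / 2 * b) ^ 2 := by
        rw [ha2, mul_pow, hb2]
        nlinarith
      exact (sq_le_sq₀ ha0.le (by positivity)).1 h
    have ha3 : a ^ 3 ≤ 4 * b ^ 3 := by
      have h1 : a ^ 2 ≤ 2 * b ^ 2 := by rw [ha2, hb2]; exact hwV
      calc a ^ 3 = a ^ 2 * a := by ring
        _ ≤ (2 * b ^ 2) * (3 / 2 * b) := mul_le_mul h1 hab ha0.le (by positivity)
        _ = 3 * b ^ 3 := by ring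
        _ ≤ 4 * b ^ 3 := by nlinarith [pow_pos hb0 3]
    have h1 : (w * N / V ^ 2) ^ 2 / w * a = a ^ 3 * N ^ 2 / V ^ 4 := by
      rw [← ha2]
      field_simp
    have h2 : 4 / c * ((N / V) ^ 2 * T / (T ^ 2 * b)) = 4 * N ^ 2 / (c * V ^ 2 * (T * b)) := by
      field_simp
    rw [hss, h1, h2, div_le_div_iff₀ (by positivity) (by positivity)]
    have h3 : a ^ 3 * (c * T) ≤ 4 * b ^ 3 := by
      calc a ^ 3 * (c * T) ≤ a ^ 3 * 1 := mul_le_mul_of_nonneg_left hcT (by positivity)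
        _ ≤ 4 * b ^ 3 := by linarith
    have h4 : a ^ 3 * N ^ 2 * (c * V ^ 2 * (T * b)) = (a ^ 3 * (c * T)) * (N ^ 2 * V ^ 2 * b) := by
      ring
    have h5 : 4 * N ^ 2 * V ^ 4 = (4 * b ^ 3) * (N ^ 2 * V ^ 2 * b) := by
      rw [← hb2]; ring
    rw [h4, h5]
    exact mul_le_mul_of_nonneg_right h3 (by positivity)

/-- The derivative of `φ ∘ q`.
PROOF. `fderiv ℝ (φ ∘ q) z X = fderiv ℝ φ (q z) (fderiv ℂ q z X)` (chain rule; `q` is holomorphic near `z`), its norm is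
at most `‖fderiv ℝ φ y‖ C (‖gX‖ + √w ‖X‖)`, `y = q z`, `w = 1 - ‖y‖²`, `g = h(z, z)` (`QM.tan`), and
`‖fderiv ℝ φ y‖ ≤ K ∑_η JJ y η² / w`. By `JJ_kap` with `s = δ z` (`QM.lt`):
`∑ JJ² / w (‖gX‖ + √w ‖X‖) ≤ (4 / c) ∑_η kap (δ z) y η (‖gX‖ / δ z + ‖X‖ / √(δ z))`. -/
theorem comp_bound {U : Set (Ec n)} {δ : Ec n → ℝ} {h : Ec n → Ec n → Fin n → ℂ} {c C : ℝ}
    (hg : Geo U δ h c C) {q : Ec n → ℂ} {H : Ec n → Ec n → Fin n → ℂ} (hq : QM U δ h q H c C)
    {S : Finset ℂ} (hS : ∀ η ∈ S, ‖η‖ < 1) {K : ℝ} (hK : 0 ≤ K) {φ : ℂ → ℂ} {z : Ec n}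
    (hz : z ∈ Om U δ) (hφ : DifferentiableAt ℝ φ (q z))
    (hb : (1 - ‖q z‖ ^ 2) * ‖fderiv ℝ φ (q z)‖ ≤ K * ∑ η ∈ S, JJ (q z) η ^ 2) (X : Ec n) :
    ‖fderiv ℝ (fun w => φ (q w)) z X‖ ≤
      (C * K * (4 / c)) * (∑ η ∈ S, kap (δ z) (q z) η) * gau δ h z X := by
  have hzU : z ∈ U := hz.1
  have hδ : 0 < δ z := hz.2
  have hC0 : 0 ≤ C := le_trans zero_le_one hg.C1
  have hqd : DifferentiableAt ℂ q z := hq.hol.differentiableAt (hg.opn.mem_nhds hzU)
  have hlt := hq.lt z hzU hδ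
  have hw0 : 0 < 1 - ‖q z‖ ^ 2 := by
    have h1 : 0 < c * δ z := mul_pos hg.c0 hδ
    have h2 := norm_nonneg (q z)
    nlinarith
  have hq1 : HasFDerivAt q ((fderiv ℂ q z).restrictScalars ℝ) z :=
    hqd.hasFDerivAt.restrictScalars ℝ
  have hcomp := hφ.hasFDerivAt.comp z hq1
  have hfd : fderiv ℝ (fun w => φ (q w)) z X = fderiv ℝ φ (q z) (fderiv ℂ q z X) := by
    have h1 : (fun w => φ (q w)) = φ ∘ q := rfl
    rw [h1, hcomp.fderiv]
    rfl
  rw [hfd]
  set y := q z with hy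
  set w : ℝ := 1 - ‖y‖ ^ 2 with hw
  set g : ℝ := ‖∑ k, h z z k * X k‖ with hgd
  have hg0 : 0 ≤ g := norm_nonneg _
  have hX0 := norm_nonneg X
  have hD : ‖fderiv ℝ φ y‖ ≤ K * ∑ η ∈ S, JJ y η ^ 2 / w := by
    rw [← Finset.sum_div, ← mul_div_assoc, le_div_iff₀ hw0]
    linarith
  have hT := hq.tan z hzU hδ X
  have hsum0 : 0 ≤ K * ∑ η ∈ S, JJ y η ^ 2 / w :=
    mul_nonneg hK (Finset.sum_nonneg fun η _ => div_nonneg (sq_nonneg _) hw0.le)
  calc ‖fderiv ℝ φ y (fderiv ℂ q z X)‖ ≤ ‖fderiv ℝ φ y‖ * ‖fderiv ℂ q z X‖ :=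
        (fderiv ℝ φ y).le_opNorm _
    _ ≤ (K * ∑ η ∈ S, JJ y η ^ 2 / w) * (C * (g + Real.sqrt w * ‖X‖)) :=
        mul_le_mul hD hT (norm_nonneg _) hsum0
    _ = C * K * ∑ η ∈ S, (JJ y η ^ 2 / w * g + JJ y η ^ 2 / w * Real.sqrt w * ‖X‖) := by
        rw [Finset.sum_add_distrib, ← Finset.sum_mul, ← Finset.sum_mul, ← Finset.sum_mul]
        ring
    _ ≤ C * K * ∑ η ∈ S, (4 / c * (kap (δ z) y η / δ z) * g +
          4 / c * (kap (δ z) y η / Real.sqrt (δ z)) * ‖X‖) := by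
        refine mul_le_mul_of_nonneg_left ?_ (mul_nonneg hC0 hK)
        refine Finset.sum_le_sum fun η hη => ?_
        obtain ⟨h1, h2⟩ := JJ_kap hg.c0 hg.c1 hδ (hS η hη) hlt
        exact add_le_add (mul_le_mul_of_nonneg_right h1 hg0) (mul_le_mul_of_nonneg_right h2 hX0)
    _ = (C * K * (4 / c)) * (∑ η ∈ S, kap (δ z) y η) * gau δ h z X := by
        unfold gau
        rw [← hgd]
        have h1 : ∀ η ∈ S, (4 / c * (kap (δ z) y η / δ z) * g +
          4 / c * (kap (δ z) y η / Real.sqrt (δ z)) * ‖X‖) =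
            4 / c * kap (δ z) y η * (g / δ z + ‖X‖ / Real.sqrt (δ z)) := by
          intro η _
          ring
        rw [Finset.sum_congr rfl h1, ← Finset.sum_mul, ← Finset.mul_sum]
        ring

/-- The base is made from the data on the fibres.
PROOF. `QT.exists_part d Rb (r₀ / 2)` gives the centres `a i : Fin d → ℂ`, `i ∈ ι` and the partition of unity
`χ i` (`∑ χ i = 1` for `‖z‖ ≤ Rb`, `χ i z = 0` for `‖z - a i‖ ≥ r₀ / 2`), which depend only on `d`, `Rb`, `r₀`. Let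
`b j = φ j`. For `i ∈ ι`: if there is a point `x ∈ Om U δ` with `‖(φ j x)_j - a i‖ < r₀ / 2` choose one, `x i`, and the
solution `s i : Fin N → ..` on the set `E i = {w ∈ Om | ∀ j, ‖φ j w - φ j (x i)‖ < r₀}`, which is open; otherwise
`s i = 0`. `s i : Ec n → (Fin N → ℂ)`. `σ = QT.sg χ φ s`. If `w ∈ Om`, `‖(φ j w)_j - a i‖ < r₀ / 2` then `w ∈ E i`.
(Use the partition with `r := r₀ / 2`; in `QT.sg_c2`, .. the hypotheses are required for `‖b w - a i‖ ≤ r`: take the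
partition with `r := r₀ / 4` to have room.) The fields of `SD`: `σ_c2`: `QT.sg_c2` (the pieces are holomorphic near
`w`, `E i` is open: `hol_c2`), `σ_le`: `QT.sg_norm`, `≤ card ι * max C₁ 0`; `dσ`: `QT.sg_D01` with
`g = G Ene gau(X)` (`gau (I • X) = gau X`, `gau_smul`), `QT.D01 σ w X = db σ w X` by definition
(`L` the Lipschitz constant of the partition); `one`: `∑_j f_j σ_j = ∑_i χ_i ∑_j f_j s_(i j) = ∑_i χ_i = 1`. Then
`sd_solv`. The constants are `M`, `card ι * max C₁ 0`, `card ι * L * max C₁ 0 * G`. (`Ene ≥ 0` by `PG0.sub`;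
if `G < 0` replace it by `max G 0`; `M` by `max M 0`.) -/
theorem solv_base (hn : 2 ≤ n) (N d : ℕ) (c C A M C₁ G r₀ Rb : ℝ) (hr : 0 < r₀) (R : ℕ) :
    ∃ B : ℝ, ∀ (U : Set (Ec n)) (δ : Ec n → ℝ) (h : Ec n → Ec n → Fin n → ℂ) (P : PD n)
      (f : Fin N → Ec n → ℂ) (φ : Fin d → Ec n → ℂ), P.R = R → Geo U δ h c C → PG0 P U δ h c C A →
      (∀ j, DifferentiableOn ℂ (f j) (Om U δ)) → (∀ j, ∀ z ∈ Om U δ, ‖f j z‖ ≤ M) →
      (∀ j, ContDiffOn ℝ 2 (φ j) (Om U δ)) → (∀ j, ∀ z ∈ Om U δ, ‖φ j z‖ ≤ Rb) →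
      (∀ j, ∀ z ∈ Om U δ, ∀ X, ‖fderiv ℝ (φ j) z X‖ ≤ G * Ene P δ z * gau δ h z X) →
      (∀ a ∈ Om U δ, SolvableOn f {w | w ∈ Om U δ ∧ ∀ j, ‖φ j w - φ j a‖ < r₀} C₁) →
      ∀ ς : ℝ, 0 < ς → (n + 3) * ς ≤ c / 2 → SolvableOn f (Om U (fun z => δ z - (n + 3) * ς)) B := by
  classical
  obtain ⟨ι, hι, a, χ, L, hL, hcd, hnn, hle, hsum, hsupp, hlip⟩ :=
    QT.exists_part d (max Rb 0) (r₀ / 4) (by positivity)
  have hPU : QT.PU' a χ (r₀ / 4) L := ⟨hL, hcd, hnn, hle, hsupp, hlip⟩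
  obtain ⟨B, hB⟩ := sd_solv hn N c C A (max M 0) (Fintype.card ι * max C₁ 0)
    (Fintype.card ι * L * max C₁ 0 * max G 0) R
  refine ⟨B, ?_⟩
  intro U δ h P f φ hPR hg hP hf hfM hφ hφR hdφ hloc ς hς hς'
  have hO : IsOpen (Om U δ) := Om_open hg
  unfold SolvableOn at hloc
  choose! g hg1 hg2 hg3 using hloc
  have hφc : ∀ j, ∀ w ∈ Om U δ, ContDiffAt ℝ 2 (φ j) w := fun j w hw =>
    (hφ j).contDiffAt (hO.mem_nhds hw)
  have hEo : ∀ x : Ec n, IsOpen {w | w ∈ Om U δ ∧ ∀ j, ‖φ j w - φ j x‖ < r₀} := by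
    intro x
    rw [isOpen_iff_mem_nhds]
    rintro w ⟨hw, hw2⟩
    have h1 : ∀ᶠ y in 𝓝 w, ∀ j, ‖φ j y - φ j x‖ < r₀ := by
      rw [eventually_all]
      intro j
      have hc : ContinuousAt (fun y => ‖φ j y - φ j x‖) w :=
        ((hφc j w hw).continuousAt.sub continuousAt_const).norm
      exact hc.eventually (gt_mem_nhds (hw2 j))
    filter_upwards [hO.mem_nhds hw, h1] with y hy1 hy2
    exact ⟨hy1, hy2⟩
  let sol : ι → Ec n → Fin N → ℂ := fun i =>
    if hx : ∃ x, x ∈ Om U δ ∧ ‖(fun j => φ j x) - a i‖ < r₀ / 2 then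
      fun w j => g hx.choose j w else fun _ _ => 0
  have hpc : ∀ i, ∀ w ∈ Om U δ, ‖(fun j => φ j w) - a i‖ ≤ r₀ / 4 →
      ‖sol i w‖ ≤ max C₁ 0 ∧ (∀ᶠ x in 𝓝 w, DifferentiableAt ℂ (sol i) x) ∧
        ContDiffAt ℝ 2 (sol i) w ∧ ∑ j, f j w * sol i w j = 1 := by
    intro i w hw hwi
    have hx : ∃ x, x ∈ Om U δ ∧ ‖(fun j => φ j x) - a i‖ < r₀ / 2 :=
      ⟨w, hw, by linarith⟩
    have hsol : sol i = fun w j => g hx.choose j w := dif_pos hx
    obtain ⟨hx1, hx2⟩ := hx.choose_spec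
    set x := hx.choose with hxd
    have hwE : w ∈ {w | w ∈ Om U δ ∧ ∀ j, ‖φ j w - φ j x‖ < r₀} := by
      refine ⟨hw, fun j => ?_⟩
      have h1 : ‖φ j w - a i j‖ ≤ r₀ / 4 :=
        (norm_le_pi_norm ((fun j => φ j w) - a i) j).trans hwi
      have h2 : ‖φ j x - a i j‖ < r₀ / 2 :=
        lt_of_le_of_lt (norm_le_pi_norm ((fun j => φ j x) - a i) j) hx2
      have h3 : φ j w - φ j x = (φ j w - a i j) - (φ j x - a i j) := by ring
      rw [h3]
      refine lt_of_le_of_lt (norm_sub_le _ _) ?_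
      linarith
    have hEn := (hEo x).mem_nhds hwE
    have hd : DifferentiableOn ℂ (sol i) {w | w ∈ Om U δ ∧ ∀ j, ‖φ j w - φ j x‖ < r₀} := by
      rw [hsol]
      exact differentiableOn_pi.2 fun j => hg1 x hx1 j
    refine ⟨?_, ?_, ?_, ?_⟩
    · rw [pi_norm_le_iff_of_nonneg (le_max_right _ _)]
      intro j
      rw [hsol]
      exact (hg2 x hx1 j w hwE).trans (le_max_left _ _)
    · filter_upwards [(hEo x).eventually_mem hwE] with y hy
      exact hd.differentiableAt ((hEo x).mem_nhds hy)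
    · exact (hol_c2 (hEo x) hd).contDiffAt hEn
    · rw [hsol]
      exact hg3 x hx1 w hwE
  have hEne : ∀ z ∈ Om U δ, 0 ≤ Ene P δ z := fun z hz =>
    Finset.sum_nonneg fun r _ => Finset.sum_nonneg fun η _ => kap_nonneg hz.2.le _ _
  have hSD : SD P U δ h f (QT.sg χ φ sol) c C A (max M 0) (Fintype.card ι * max C₁ 0)
      (Fintype.card ι * L * max C₁ 0 * max G 0) := by
    refine ⟨hg, hP, le_max_right _ _, ?_, ?_, hf, ?_, ?_, ?_, ?_, ?_⟩
    · exact mul_nonneg (Nat.cast_nonneg _) (le_max_right _ _)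
    · exact mul_nonneg (mul_nonneg (mul_nonneg (Nat.cast_nonneg _) hL) (le_max_right _ _))
        (le_max_right _ _)
    · exact fun j z hz => (hfM j z hz).trans (le_max_left _ _)
    · intro w hw
      exact (QT.sg_c2 hPU (fun j => hφc j w hw)
        (fun i hi => (hpc i w hw hi).2.2.1)).contDiffWithinAt
    · intro w hw
      exact QT.sg_norm hPU (le_max_right _ _) fun i hi => (hpc i w hw hi).1
    · intro w hw X
      have hgau : 0 ≤ gau δ h w X := gau_nonneg hw.2 X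
      have hg0 : 0 ≤ max G 0 * Ene P δ w * gau δ h w X :=
        mul_nonneg (mul_nonneg (le_max_right _ _) (hEne w hw)) hgau
      have hb1 : ∀ j, ∀ Y : Ec n, ‖fderiv ℝ (φ j) w Y‖ ≤ max G 0 * Ene P δ w * gau δ h w Y := by
        intro j Y
        refine (hdφ j w hw Y).trans ?_
        refine mul_le_mul_of_nonneg_right ?_ (gau_nonneg hw.2 Y)
        exact mul_le_mul_of_nonneg_right (le_max_left _ _) (hEne w hw)
      have hIX : gau δ h w (Complex.I • X) = gau δ h w X := by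
        rw [gau_smul, Complex.norm_I, one_mul]
      have h1 := QT.sg_D01 hPU (le_max_right C₁ 0) (fun j => hφc j w hw)
        (fun i hi => ⟨(hpc i w hw hi).1, (hpc i w hw hi).2.1⟩) X hg0
        (fun j => ⟨hb1 j X, by
          have := hb1 j (Complex.I • X)
          rwa [hIX] at this⟩)
      have h2 : QT.D01 (QT.sg χ φ sol) w X = db (QT.sg χ φ sol) w X := rfl
      rw [h2] at h1
      refine h1.trans (le_of_eq ?_)
      ring
    · intro z hz
      have hz1 : ‖(fun j => φ j z)‖ ≤ max Rb 0 := by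
        rw [pi_norm_le_iff_of_nonneg (le_max_right _ _)]
        exact fun j => (hφR j z hz).trans (le_max_left _ _)
      have h1 := hsum _ hz1
      have h2 : ∀ j, f j z * QT.sg χ φ sol z j =
          ∑ i, ((χ i (fun j => φ j z) : ℝ) : ℂ) * (f j z * sol i z j) := by
        intro j
        unfold QT.sg
        rw [Finset.sum_apply, Finset.mul_sum]
        refine Finset.sum_congr rfl fun i _ => ?_
        rw [Pi.smul_apply, smul_eq_mul]
        ring
      rw [Finset.sum_congr rfl fun j _ => h2 j, Finset.sum_comm]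
      have h3 : ∀ i, ∑ j, ((χ i (fun j => φ j z) : ℝ) : ℂ) * (f j z * sol i z j) =
          ((χ i (fun j => φ j z) : ℝ) : ℂ) := by
        intro i
        rw [← Finset.mul_sum]
        by_cases hi : ‖(fun j => φ j z) - a i‖ ≤ r₀ / 4
        · rw [(hpc i z hz hi).2.2.2, mul_one]
        · rw [hsupp i _ (not_le.1 hi).le, Complex.ofReal_zero, zero_mul]
      rw [Finset.sum_congr rfl fun i _ => h3 i, ← Complex.ofReal_sum, h1, Complex.ofReal_one]
  exact hB U δ h P f _ hPR hSD ς hς hς'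

/-- limits of bounded holomorphic functions along ultrafilters -/
private theorem T2_ultra {E : Type*} [NormedAddCommGroup E] [NormedSpace ℂ E]
    [FiniteDimensional ℂ E] {ι : Type*} (𝒰 : Ultrafilter ι) {G : ι → E → ℂ} {U : Set E}
    (hU : IsOpen U) {M : ℝ} (hM0 : 0 ≤ M) (hG : ∀ i, DifferentiableOn ℂ (G i) U)
    (hM : ∀ i, ∀ z ∈ U, ‖G i z‖ ≤ M) :
    ∃ g : E → ℂ, DifferentiableOn ℂ g U ∧ (∀ z ∈ U, ‖g z‖ ≤ M) ∧
      ∀ z ∈ U, Tendsto (fun i => G i z) 𝒰 (𝓝 (g z)) := by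
  have h1 : ∀ z, z ∈ U → ∃ y : ℂ, ‖y‖ ≤ M ∧ Tendsto (fun i => G i z) 𝒰 (𝓝 y) := by
    intro z hz
    have hc : IsCompact (closedBall (0 : ℂ) M) := isCompact_closedBall 0 M
    obtain ⟨y, hy, hy2⟩ := hc.ultrafilter_le_nhds' (𝒰.map fun i => G i z) (by
      rw [Ultrafilter.mem_map]
      apply Filter.univ_mem'
      intro i
      exact mem_closedBall_zero_iff.mpr (hM i z hz))
    exact ⟨y, mem_closedBall_zero_iff.mp hy, hy2⟩
  classical
  choose! g hg1 hg2 using h1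
  refine ⟨g, ?_, hg1, hg2⟩
  intro z₀ hz₀
  obtain ⟨r, hr, hsub⟩ := Metric.isOpen_iff.mp hU z₀ hz₀
  have hL : ∃ L : E →L[ℂ] ℂ, Tendsto (fun i => fderiv ℂ (G i) z₀) 𝒰 (𝓝 L) := by
    have : ProperSpace (E →L[ℂ] ℂ) := FiniteDimensional.proper ℂ _
    have hc : IsCompact (closedBall (0 : E →L[ℂ] ℂ) (2 * M / r)) := isCompact_closedBall 0 _
    obtain ⟨y, hy, hy2⟩ := hc.ultrafilter_le_nhds' (𝒰.map fun i => fderiv ℂ (G i) z₀) (by
      rw [Ultrafilter.mem_map]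
      apply Filter.univ_mem'
      intro i
      refine mem_closedBall_zero_iff.mpr ?_
      apply ContinuousLinearMap.opNorm_le_bound _ (by positivity)
      intro v
      have := Pool.Agent.Lib.MP_ca0fc2_an.norm_fderiv_apply_le hr ((hG i).mono hsub)
        (fun z hz => hM i z (hsub hz)) v
      refine this.trans (le_of_eq ?_)
      ring)
    exact ⟨y, hy2⟩
  obtain ⟨L, hL⟩ := hL
  have hrem : ∀ v : E, ‖v‖ < r → ‖g (z₀ + v) - g z₀ - L v‖ ≤ 4 * M / r ^ 2 * ‖v‖ ^ 2 := by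
    intro v hv
    have hzv : z₀ + v ∈ U := hsub (by simpa using hv)
    have t1 : Tendsto (fun n => ‖G n (z₀ + v) - G n z₀ - fderiv ℂ (G n) z₀ v‖) 𝒰
        (𝓝 ‖g (z₀ + v) - g z₀ - L v‖) := by
      apply Tendsto.norm
      apply Tendsto.sub
      · exact (hg2 _ hzv).sub (hg2 _ hz₀)
      · exact (ContinuousLinearMap.apply ℂ ℂ v).continuous.continuousAt.tendsto.comp hL
    refine le_of_tendsto t1 (Eventually.of_forall fun n => ?_)
    exact Pool.Agent.Lib.MP_ca0fc2_an.taylor_two hr ((hG n).mono hsub)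
      (fun z hz => hM n z (hsub hz)) hv
  have hder : HasFDerivAt g L z₀ := by
    rw [hasFDerivAt_iff_isLittleO_nhds_zero]
    have hO : (fun v => g (z₀ + v) - g z₀ - L v) =O[𝓝 0] fun v => ‖v‖ ^ 2 := by
      apply Asymptotics.IsBigO.of_bound (4 * M / r ^ 2)
      filter_upwards [ball_mem_nhds (0 : E) hr] with v hv
      have := hrem v (by simpa using hv)
      simpa using this
    refine hO.trans_isLittleO ?_
    exact (Asymptotics.isLittleO_norm_pow_id one_lt_two)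
  exact hder.differentiableAt.differentiableWithinAt

/-- Solutions on an increasing sequence of sets.
PROOF. Let `h_(i, j)` be the solutions on `D i`, extended by `0`. Fix an ultrafilter `𝒰` on `ℕ` with `𝒰 ≤ atTop`
(`Ultrafilter.of`, `hyperfilter ℕ`). For `z ∈ D` the values `h_(i, j) z` are bounded by `C` for all large `i`, so they
converge along `𝒰` to a limit `h_j z`, `‖h_j z‖ ≤ C`, and `∑ f_j h_j = 1`. `h_j` is holomorphic: near a point `z₀ ∈ D`,
`ball z₀ (2 r) ⊆ D i` for all `i ≥ i₀`, the functions `h_(i, j)` are there uniformly bounded, hence (Cauchy) uniformly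
Lipschitz on `ball z₀ r`, and the limit is holomorphic (look at `QTLim.lean`, `SLLim.lean` (`dilation_limit`),
`VLCore.lean`, `SPCov.lean` of this library for existing lemmas: the pointwise limit along an ultrafilter of uniformly
bounded holomorphic functions is holomorphic). The hypothesis `hD` says that each point of `D` has a ball which is
in `D i` for large `i`. If `C < 0` then `D i` is empty or `N = 0`..., treat this case directly. -/
theorem solv_exhaust {N : ℕ} {f : Fin N → Ec n → ℂ} {D : Set (Ec n)} {E : ℕ → Set (Ec n)} {C : ℝ}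
    (hE : ∀ i, SolvableOn f (E i) C)
    (hD : ∀ z ∈ D, ∃ r > 0, ∃ i₀, ∀ i, i₀ ≤ i → ball z r ⊆ E i) : SolvableOn f D C := by
  classical
  by_cases hne : D = ∅
  · subst hne
    exact ⟨fun _ _ => 0, fun j => differentiableOn_empty, fun j z hz => absurd hz (notMem_empty z),
      fun z hz => absurd hz (notMem_empty z)⟩
  obtain ⟨z₁, hz₁⟩ := Set.nonempty_iff_ne_empty.2 hne
  unfold SolvableOn at hE
  choose H hH1 hH2 hH3 using hE
  have hC : 0 ≤ C := by
    obtain ⟨r, hr, i₀, hi⟩ := hD z₁ hz₁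
    have hzE : z₁ ∈ E i₀ := hi i₀ le_rfl (mem_ball_self hr)
    rcases isEmpty_or_nonempty (Fin N) with hN | ⟨⟨j⟩⟩
    · have h1 := hH3 i₀ z₁ hzE
      rw [Fintype.sum_empty] at h1
      exact absurd h1 zero_ne_one
    · exact (norm_nonneg _).trans (hH2 i₀ j z₁ hzE)
  set 𝒰 : Ultrafilter ℕ := Ultrafilter.of atTop with h𝒰
  have hle : (𝒰 : Filter ℕ) ≤ atTop := Ultrafilter.of_le _
  have hloc : ∀ z₀ ∈ D, ∃ r > 0, ∀ j, ∃ g : Ec n → ℂ, DifferentiableOn ℂ g (ball z₀ r) ∧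
      (∀ z ∈ ball z₀ r, ‖g z‖ ≤ C) ∧
      ∀ z ∈ ball z₀ r, Tendsto (fun i => H i j z) 𝒰 (𝓝 (g z)) := by
    intro z₀ hz₀
    obtain ⟨r, hr, i₀, hi⟩ := hD z₀ hz₀
    refine ⟨r, hr, fun j => ?_⟩
    obtain ⟨g, hg1, hg2, hg3⟩ := T2_ultra 𝒰
      (G := fun i => if i₀ ≤ i then H i j else fun _ => 0) (U := ball z₀ r) isOpen_ball hC
      (fun i => by
        by_cases h : i₀ ≤ i
        · simp only [h, if_true]
          exact (hH1 i j).mono (hi i h)
        · simp only [h, if_false]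
          exact differentiableOn_const 0)
      (fun i z hz => by
        by_cases h : i₀ ≤ i
        · simp only [h, if_true]
          exact hH2 i j z (hi i h hz)
        · simp only [h, if_false, norm_zero]
          exact hC)
    refine ⟨g, hg1, hg2, fun z hz => ?_⟩
    refine (hg3 z hz).congr' ?_
    have hev : ∀ᶠ i in (𝒰 : Filter ℕ), i₀ ≤ i := hle (eventually_ge_atTop i₀)
    filter_upwards [hev] with i h
    simp only [h, if_true]
  have hlim : ∀ j, ∀ z, z ∈ D → ∃ y : ℂ, ‖y‖ ≤ C ∧ Tendsto (fun i => H i j z) 𝒰 (𝓝 y) := by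
    intro j z hz
    obtain ⟨r, hr, h1⟩ := hloc z hz
    obtain ⟨g, -, hg2, hg3⟩ := h1 j
    exact ⟨g z, hg2 z (mem_ball_self hr), hg3 z (mem_ball_self hr)⟩
  have key : ∀ z ∈ D, ∃ y : Fin N → ℂ, ∀ j, ‖y j‖ ≤ C ∧
      Tendsto (fun i => H i j z) 𝒰 (𝓝 (y j)) := by
    intro z hz
    choose y hy using fun j => hlim j z hz
    exact ⟨y, hy⟩
  choose! y hy using key
  refine ⟨fun j z => y z j, ?_, fun j z hz => (hy z hz j).1, ?_⟩
  · intro j z₀ hz₀
    obtain ⟨r, hr, h1⟩ := hloc z₀ hz₀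
    obtain ⟨g, hg1, -, hg3⟩ := h1 j
    have hd : DifferentiableWithinAt ℂ g D z₀ :=
      (hg1.differentiableAt (ball_mem_nhds z₀ hr)).differentiableWithinAt
    have heq : ∀ z ∈ D ∩ ball z₀ r, y z j = g z := fun z hz =>
      tendsto_nhds_unique (hy z hz.1 j).2 (hg3 z hz.2)
    refine hd.congr_of_eventuallyEq ?_ (heq z₀ ⟨hz₀, mem_ball_self hr⟩)
    rw [Filter.EventuallyEq, eventually_nhdsWithin_iff]
    filter_upwards [ball_mem_nhds z₀ hr] with z hz hzD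
    exact heq z ⟨hzD, hz⟩
  · intro z hz
    have h1 : Tendsto (fun i => ∑ j, f j z * H i j z) 𝒰 (𝓝 (∑ j, f j z * y z j)) :=
      tendsto_finsetSum _ fun j _ => ((hy z hz j).2).const_mul (f j z)
    have h2 : Tendsto (fun i => ∑ j, f j z * H i j z) 𝒰 (𝓝 1) := by
      refine tendsto_const_nhds.congr' ?_
      obtain ⟨r, hr, i₀, hi⟩ := hD z hz
      have hev : ∀ᶠ i in (𝒰 : Filter ℕ), i₀ ≤ i := hle (eventually_ge_atTop i₀)
      filter_upwards [hev] with i h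
      exact (hH3 i z (hi i h (mem_ball_self hr))).symm
    exact tendsto_nhds_unique h1 h2

end Pool.Agent.MPca0fc2.FD
end
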