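import Mathlib
import Pool.Agent.Lib.MP_ca0fc2_an.Mg.G046
import Pool.Agent.Lib.MP_ca0fc2_an.Mg.G058
import Pool.Agent.Lib.MP_ca0fc2_an.Mg.G059
import Pool.Agent.Lib.MP_ca0fc2_an.FD.Q1
import Pool.Agent.Lib.MP_ca0fc2_an.Mg.G062
import Pool.Agent.Lib.MP_ca0fc2_an.Mg.G061
import Pool.Agent.Lib.MP_ca0fc2_an.Mg.G066

section

/-! Local solutions give a global solution. -/

set_option autoImplicit false

open Metric Set MeasureTheory Filter Topology

namespace Pool.Agent.MPca0fc2.FD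

open Pool.Agent.Lib.MP_ca0fc2_an (SolvableOn SupportData)

variable {n : ℕ}

/-- the trivial points -/
noncomputable def P0 (n : ℕ) : PD n where
  R := 1
  q := fun _ _ => 0
  H := fun _ _ _ _ => 0
  S := fun _ => {0}

theorem Fib_JJ0 (x : ℂ) : JJ x 0 = 1 - ‖x‖ ^ 2 := by
  simp [JJ]

/-- PROOF. `QM` for `q = 0`: `lt` is `c δ z ≤ c C ≤ 1`, the rest is trivial; `JJ x 0 = 1 - |x|² ≤ 1`. -/
theorem P0_PG0 {U : Set (Ec n)} {δ : Ec n → ℝ} {h : Ec n → Ec n → Fin n → ℂ} {c C : ℝ}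
    (hg : Geo U δ h c C) (hcC : c * C ≤ 1) : PG0 (P0 n) U δ h c C 1 where
  A1 := le_rfl
  qm := fun r =>
    { hol := differentiableOn_const (0 : ℂ)
      Hhol := differentiableOn_const (fun _ : Fin n => (0 : ℂ))
      Hb := by
        intro z _ ζ _
        have h1 : (P0 n).H r z ζ = 0 := rfl
        rw [h1, norm_zero]
        linarith [hg.C1]
      hef := by
        intro z _ ζ _
        simp [P0]
      lt := by
        intro z hz _
        have h1 : (P0 n).q r z = 0 := rfl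
        rw [h1, norm_zero]
        have h2 := mul_le_mul_of_nonneg_left (hg.bδ z hz) hg.c0.le
        linarith
      tan := by
        intro z hz h0 X
        have h1 : fderiv ℂ ((P0 n).q r) z = 0 := fderiv_const_apply (0 : ℂ)
        have h2 : (0 : ℝ) ≤ C := by linarith [hg.C1]
        rw [h1]
        simp only [_root_.zero_apply, norm_zero]
        positivity
      b2 := by
        intro z _ ζ _ _ _
        have h1 : fderiv ℂ ((P0 n).q r) ζ = 0 := fderiv_const_apply (0 : ℂ)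
        have h2 : (0 : ℝ) ≤ C := by linarith [hg.C1]
        have h3 : (P0 n).q r z = 0 := rfl
        have h4 : (P0 n).q r ζ = 0 := rfl
        rw [h1, h3, h4]
        simp only [_root_.zero_apply, sub_zero, norm_zero]
        positivity }
  sub := by
    intro r η hη
    have h1 : η = 0 := Finset.mem_singleton.1 hη
    rw [h1, norm_zero]
    exact one_pos
  carl := by
    intro r x hx
    have h1 : (P0 n).S r = {0} := rfl
    rw [h1, Finset.sum_singleton, Fib_JJ0]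
    nlinarith [sq_nonneg ‖x‖]
  triv := ⟨(0 : Fin 1), fun _ => rfl, Finset.mem_singleton_self _⟩

/-- PROOF. `kap s 0 0 = s^(1/4)`. -/
theorem P0_Ene (δ : Ec n → ℝ) (z : Ec n) : Ene (P0 n) δ z = (δ z) ^ (1 / 4 : ℝ) := by
  have h1 : Ene (P0 n) δ z = ∑ _r : Fin 1, ∑ η ∈ ({0} : Finset ℂ), kap (δ z) 0 η := rfl
  rw [h1]
  simp [kap]

theorem Fib_mono {N : ℕ} {f : Fin N → Ec n → ℂ} {D D' : Set (Ec n)} {C C' : ℝ}
    (h : SolvableOn f D C) (hD : D' ⊆ D) (hC : C ≤ C') : SolvableOn f D' C' := by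
  obtain ⟨g, h1, h2, h3⟩ := h
  exact ⟨g, fun j => (h1 j).mono hD, fun j z hz => (h2 j z (hD hz)).trans hC,
    fun z hz => h3 z (hD hz)⟩

theorem Fib_ball {r : ℝ} (hr : 0 < r) {w a : Ec n}
    (h : ∀ j, ‖w j - a j‖ < r / (n + 1)) : ‖w - a‖ < r := by
  have hn : (0 : ℝ) < n + 1 := by positivity
  have h0 : 0 < r / (n + 1) := by positivity
  have h1 : ‖w - a‖ ^ 2 ≤ (n * (r / (n + 1))) ^ 2 := by
    rw [EuclideanSpace.norm_sq_eq]
    calc ∑ i, ‖(w - a) i‖ ^ 2 ≤ ∑ _i : Fin n, (r / (n + 1)) ^ 2 := by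
          refine Finset.sum_le_sum fun i _ => ?_
          have := (h i).le
          have h2 : (w - a) i = w i - a i := rfl
          rw [h2]
          exact pow_le_pow_left₀ (norm_nonneg _) this 2
      _ = n * (r / (n + 1)) ^ 2 := by simp
      _ ≤ (n * (r / (n + 1))) ^ 2 := by
          rw [mul_pow]
          refine mul_le_mul_of_nonneg_right ?_ (by positivity)
          exact_mod_cast Nat.le_self_pow two_ne_zero n
  have h2 : ‖w - a‖ ≤ n * (r / (n + 1)) :=
    (pow_le_pow_iff_left₀ (norm_nonneg _) (by positivity) two_ne_zero).1 h1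
  have h3 : n * (r / (n + 1)) < r := by
    rw [← mul_div_assoc, div_lt_iff₀ hn]
    nlinarith
  linarith

theorem Fib_open {U : Set (Ec n)} {δ : Ec n → ℝ} {h : Ec n → Ec n → Fin n → ℂ} {c C : ℝ}
    (hg : Geo U δ h c C) {z : Ec n} (hz : z ∈ Om U δ) :
    ∃ r > 0, ∀ w ∈ ball z r, w ∈ U ∧ δ z / 2 < δ w := by
  have h1 : ContinuousAt δ z := (hg.dδ.continuousOn.continuousAt (hg.opn.mem_nhds hz.1))
  have h3 : ∀ᶠ w in 𝓝 z, w ∈ U := hg.opn.mem_nhds hz.1
  have h2 : ∀ᶠ w in 𝓝 z, w ∈ U ∧ δ z / 2 < δ w :=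
    h3.and (h1.eventually_const_lt (by linarith [hz.2]))
  exact Metric.eventually_nhds_iff_ball.1 h2

/-- The localization to balls, for the domains `Om U δ`, with uniform constants.
PROOF. `solv_base` with `d = n`, `φ j z = z j`, `P = P0 n`, `R = 1`, `A = 1`, `r₀ = r / (n + 1)`: if
`‖w j - a j‖ < r₀` for all `j` then `‖w - a‖ ≤ √n r₀ < r` (`EuclideanSpace.norm_eq`), so the set in the hypothesis of
`solv_base` is contained in `Om U δ ∩ ball a r`. `Rb = C` (`Geo.bz`). The derivative: `‖X j‖ ≤ ‖X‖ ≤ √δ gau`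
(`gau_ge`), `√δ ≤ C^(1/4) δ^(1/4)`, so `G = max 1 C`. The domain: `solv_base` gives solutions on
`Om U (δ - (n+3) ς)` for all small `ς`, with one constant: `solv_exhaust` as in `TD`. -/
theorem fibre_Om (hn : 2 ≤ n) (N : ℕ) (c C M C₁ r : ℝ) (hc : 0 < c) (hr : 0 < r) : ∃ B : ℝ,
    ∀ (U : Set (Ec n)) (δ : Ec n → ℝ) (h : Ec n → Ec n → Fin n → ℂ) (f : Fin N → Ec n → ℂ),
      Geo U δ h c C → c * C ≤ 1 →
      (∀ j, DifferentiableOn ℂ (f j) (Om U δ)) → (∀ j, ∀ z ∈ Om U δ, ‖f j z‖ ≤ M) →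
      (∀ a ∈ Om U δ, SolvableOn f (Om U δ ∩ ball a r) C₁) → SolvableOn f (Om U δ) B := by
  have hr0 : 0 < r / (n + 1) := by positivity
  obtain ⟨B, hB⟩ := solv_base hn N n c C 1 M C₁ C (r / (n + 1)) C hr0 1
  refine ⟨B, fun U δ h f hg hcC hf hM hloc => ?_⟩
  have hC1 := hg.C1
  have key := hB U δ h (P0 n) f (fun j z => z j) rfl hg (P0_PG0 hg hcC) hf hM
    (fun j => ?_) (fun j z hz => ?_) (fun j z hz X => ?_) (fun a ha => ?_)
  · -- the exhaustion
    have hn3 : (0 : ℝ) < n + 3 := by positivity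
    set ς : ℕ → ℝ := fun i => c / (2 * (n + 3) * (i + 1)) with hς
    have hςp : ∀ i, 0 < ς i := fun i => by simp only [hς]; positivity
    have hςe : ∀ i, (n + 3) * ς i = c / 2 / (i + 1) := fun i => by
      simp only [hς]
      field_simp
    have hςl : ∀ i, (n + 3) * ς i ≤ c / 2 := fun i => by
      rw [hςe]
      exact div_le_self (by positivity) (by linarith [(Nat.cast_nonneg i : (0 : ℝ) ≤ i)])
    refine solv_exhaust (fun i => key (ς i) (hςp i) (hςl i)) fun z hz => ?_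
    obtain ⟨r', hr', hball⟩ := Fib_open hg hz
    have h0 : Tendsto (fun i : ℕ => (n + 3) * ς i) atTop (𝓝 0) := by
      have h1 : (fun i : ℕ => (n + 3) * ς i) = fun i : ℕ => c / 2 / ((i : ℝ) + 1) := funext hςe
      rw [h1]
      exact ((tendsto_const_div_atTop_nhds_zero_nat (c / 2)).comp
        (tendsto_add_atTop_nat 1)).congr fun i => by simp
    have h2 : ∀ᶠ i in atTop, (n + 3) * ς i < δ z / 2 :=
      h0.eventually_lt_const (by linarith [hz.2])
    obtain ⟨i₀, hi₀⟩ := eventually_atTop.1 h2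
    refine ⟨r', hr', i₀, fun i hi w hw => ⟨(hball w hw).1, ?_⟩⟩
    have h3 := (hball w hw).2
    have h4 := hi₀ i hi
    show 0 < δ w - (n + 3) * ς i
    linarith
  · exact ((EuclideanSpace.proj j : Ec n →L[ℂ] ℂ).restrictScalars ℝ).contDiff.contDiffOn
  · exact (PiLp.norm_apply_le z j).trans (hg.bz z hz.1)
  · have h1 : fderiv ℝ (fun z : Ec n => z j) z X = X j := by
      have : HasFDerivAt (fun z : Ec n => z j)
          ((EuclideanSpace.proj j : Ec n →L[ℂ] ℂ).restrictScalars ℝ) z :=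
        ((EuclideanSpace.proj j : Ec n →L[ℂ] ℂ).restrictScalars ℝ).hasFDerivAt
      rw [this.fderiv]
      rfl
    rw [h1, P0_Ene]
    have hδ := hz.2
    have h2 := gau_ge (h := h) hδ X
    have h3 := gau_nonneg (h := h) hδ X
    have h4 : Real.sqrt (δ z) ≤ C * (δ z) ^ (1 / 4 : ℝ) := by
      have e1 : Real.sqrt (δ z) = (δ z) ^ (1 / 4 : ℝ) * (δ z) ^ (1 / 4 : ℝ) := by
        rw [Real.sqrt_eq_rpow, ← Real.rpow_add hδ]
        norm_num
      rw [e1]
      refine mul_le_mul_of_nonneg_right ?_ (Real.rpow_nonneg hδ.le _)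
      have e2 : (δ z) ^ (1 / 4 : ℝ) ≤ C ^ (1 / 4 : ℝ) :=
        Real.rpow_le_rpow hδ.le (hg.bδ z hz.1) (by norm_num)
      have e3 : C ^ (1 / 4 : ℝ) ≤ C ^ (1 : ℝ) :=
        Real.rpow_le_rpow_of_exponent_le hC1 (by norm_num)
      rw [Real.rpow_one] at e3
      exact e2.trans e3
    calc ‖X j‖ ≤ ‖X‖ := PiLp.norm_apply_le X j
      _ ≤ Real.sqrt (δ z) * gau δ h z X := h2
      _ ≤ C * (δ z) ^ (1 / 4 : ℝ) * gau δ h z X := mul_le_mul_of_nonneg_right h4 h3
  · refine Fib_mono (hloc a ha) (fun w hw => ⟨hw.1, ?_⟩) le_rfl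
    rw [mem_ball, dist_eq_norm]
    exact Fib_ball hr hw.2

/-- PROOF. `sup_geo` (with `W = univ`), `Geo_mono` (so that `c C ≤ 1`), `fibre_Om`, `D ⊆ closure D`. The constant
depends only on `D`, .., not on `f`. -/
theorem fibre_loc (hn : 2 ≤ n) {D U : Set (Ec n)} {ρ : Ec n → ℝ}
    {h : Ec n → Ec n → Fin n → ℂ} {c : ℝ} (hs : SupportData D U ρ h c) (N : ℕ) (M C₁ r : ℝ)
    (hr : 0 < r) : ∃ C' : ℝ, ∀ f : Fin N → Ec n → ℂ, (∀ j, DifferentiableOn ℂ (f j) D) →
      (∀ j, ∀ z ∈ D, ‖f j z‖ ≤ M) → (∀ p ∈ closure D, SolvableOn f (D ∩ ball p r) C₁) →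
      SolvableOn f D C' := by
  obtain ⟨U', c', C', -, -, -, hg, hOm⟩ := sup_geo hs isOpen_univ (subset_univ _)
  have hc' := hg.c0
  have hC' : 0 < C' := by linarith [hg.C1]
  have hcc : 0 < c' / C' := by positivity
  have hg' : Geo U' (fun z => -ρ z) h (c' / C') C' :=
    Geo_mono hg hcc (div_le_self hc'.le hg.C1) le_rfl
  have hcC : c' / C' * C' ≤ 1 := by
    rw [div_mul_cancel₀ _ hC'.ne']
    exact hg.c1
  obtain ⟨B, hB⟩ := fibre_Om hn N (c' / C') C' M C₁ r hcc hr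
  refine ⟨B, fun f hf hM hloc => ?_⟩
  have := hB U' (fun z => -ρ z) h f hg' hcC (by rw [hOm]; exact hf) (by rw [hOm]; exact hM)
    (by rw [hOm]; exact fun a ha => hloc a (subset_closure ha))
  rwa [hOm] at this

theorem Fib_min {ι : Type*} (t : Finset ι) (f : ι → ℝ) (hf : ∀ i ∈ t, 0 < f i) :
    ∃ r > 0, ∀ i ∈ t, r ≤ f i := by
  classical
  induction t using Finset.induction_on with
  | empty => exact ⟨1, one_pos, by simp⟩
  | insert a s ha ih =>
    obtain ⟨r, hr, h⟩ := ih fun i hi => hf i (Finset.mem_insert_of_mem hi)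
    refine ⟨min r (f a), lt_min hr (hf a (Finset.mem_insert_self _ _)), fun i hi => ?_⟩
    rcases Finset.mem_insert.1 hi with rfl | hi
    · exact min_le_right _ _
    · exact (min_le_left _ _).trans (h i hi)

/-- PROOF. `closure D` is compact: finitely many balls `ball p_i (r(p_i) / 2)` cover it; let `r` be the minimum of the
`r(p_i) / 2` and `C₁` the maximum of the `C₁(p_i)`. For `p ∈ closure D` in `ball p_i (r(p_i) / 2)`:
`ball p r ⊆ ball p_i (r(p_i))`. Then `fibre_loc`. -/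
theorem fibre_loc' (hn : 2 ≤ n) {D U : Set (Ec n)} {ρ : Ec n → ℝ}
    {h : Ec n → Ec n → Fin n → ℂ} {c : ℝ} (hs : SupportData D U ρ h c) {N : ℕ} {M : ℝ}
    {f : Fin N → Ec n → ℂ} (hf : ∀ j, DifferentiableOn ℂ (f j) D) (hM : ∀ j, ∀ z ∈ D, ‖f j z‖ ≤ M)
    (hp : ∀ p ∈ closure D, ∃ r > 0, ∃ C₁ : ℝ, SolvableOn f (D ∩ ball p r) C₁) :
    ∃ C' : ℝ, SolvableOn f D C' := by
  have hcpt : IsCompact (closure D) := by
    rw [sup_closure hs]
    exact hs.cpt
  choose! rr hrr CC hCC using hp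
  obtain ⟨t, ht, hcov⟩ := hcpt.elim_nhds_subcover (fun p => ball p (rr p / 2))
    fun p hp => ball_mem_nhds p (half_pos (hrr p hp))
  obtain ⟨r, hr, hmin⟩ := Fib_min t (fun p => rr p / 2) fun p hp => half_pos (hrr p (ht p hp))
  obtain ⟨C₁, hC₁⟩ := (t.image CC).exists_le
  obtain ⟨C', hC'⟩ := fibre_loc hn hs N M C₁ r hr
  refine ⟨C', hC' f hf hM fun p hpD => ?_⟩
  obtain ⟨q, hq, hpq⟩ := mem_iUnion₂.1 (hcov hpD)
  refine Fib_mono (hCC q (ht q hq)) (inter_subset_inter_right _ ?_)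
    (hC₁ _ (Finset.mem_image_of_mem _ hq))
  refine ball_subset_ball' ?_
  have h1 := hmin q hq
  have h2 : dist p q < rr q / 2 := mem_ball.1 hpq
  linarith

end Pool.Agent.MPca0fc2.FD
end

section

/-! Hefer functions on convex sets; the localization theorem on a strictly pseudoconvex domain. -/

set_option autoImplicit false

open Metric Set MeasureTheory Filter Topology

namespace Pool.Agent.MPca0fc2.FD

open Pool.Agent.Lib.MP_ca0fc2_an

variable {n : ℕ}

private noncomputable def L2_seg (t : ℝ) : Ec n × Ec n →L[ℂ] Ec n :=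
  ContinuousLinearMap.snd ℂ (Ec n) (Ec n) +
    (t : ℂ) • (ContinuousLinearMap.fst ℂ (Ec n) (Ec n) - ContinuousLinearMap.snd ℂ (Ec n) (Ec n))

private theorem L2_seg_apply (t : ℝ) (p : Ec n × Ec n) :
    L2_seg t p = p.2 + (t : ℂ) • (p.1 - p.2) := rfl

private theorem L2_seg_norm {t : ℝ} (ht : t ∈ Icc (0 : ℝ) 1) :
    ‖(L2_seg t : Ec n × Ec n →L[ℂ] Ec n)‖ ≤ 3 := by
  have h1 : ‖ContinuousLinearMap.snd ℂ (Ec n) (Ec n)‖ ≤ 1 := ContinuousLinearMap.norm_snd_le _ _ _
  have h2 : ‖ContinuousLinearMap.fst ℂ (Ec n) (Ec n)‖ ≤ 1 := ContinuousLinearMap.norm_fst_le _ _ _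
  have h3 : ‖(t : ℂ)‖ ≤ 1 := by
    rw [Complex.norm_real, Real.norm_eq_abs, abs_of_nonneg ht.1]
    exact ht.2
  unfold L2_seg
  refine (norm_add_le _ _).trans ?_
  rw [norm_smul]
  have h4 := norm_sub_le (ContinuousLinearMap.fst ℂ (Ec n) (Ec n))
    (ContinuousLinearMap.snd ℂ (Ec n) (Ec n))
  have h5 : ‖(t : ℂ)‖ * ‖ContinuousLinearMap.fst ℂ (Ec n) (Ec n) -
      ContinuousLinearMap.snd ℂ (Ec n) (Ec n)‖ ≤ 1 * 2 :=
    mul_le_mul h3 (by linarith) (norm_nonneg _) (by norm_num)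
  linarith

private theorem L2_seg_mem {W : Set (Ec n)} (hc : Convex ℝ W) {p : Ec n × Ec n}
    (hp : p ∈ W ×ˢ W) {t : ℝ} (ht : t ∈ Icc (0 : ℝ) 1) : L2_seg t p ∈ W := by
  rw [L2_seg_apply, Complex.coe_smul]
  exact hc.add_smul_sub_mem hp.2 hp.1 ht

private theorem L2_seg_cont : Continuous fun x : ℝ × (Ec n × Ec n) => L2_seg x.1 x.2 := by
  have : (fun x : ℝ × (Ec n × Ec n) => L2_seg x.1 x.2) =
      fun x => x.2.2 + (x.1 : ℂ) • (x.2.1 - x.2.2) := by
    funext x
    exact L2_seg_apply _ _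
  rw [this]
  fun_prop

private theorem L2_seg_cont' : Continuous fun t : ℝ => (L2_seg t : Ec n × Ec n →L[ℂ] Ec n) := by
  unfold L2_seg
  fun_prop

private theorem L2_G {W : Set (Ec n)} (hW : IsOpen W) (hc : Convex ℝ W) {q : Ec n → ℂ}
    (hq : DifferentiableOn ℂ q W) :
    DifferentiableOn ℂ (fun p : Ec n × Ec n => ∫ t in (0 : ℝ)..1, fderiv ℂ q (L2_seg t p))
      (W ×ˢ W) := by
  intro p₀ hp₀
  refine DifferentiableAt.differentiableWithinAt ?_
  have hWW : IsOpen (W ×ˢ W) := hW.prod hW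
  obtain ⟨s, hs, hsub⟩ := Metric.nhds_basis_closedBall.mem_iff.1 (hWW.mem_nhds hp₀)
  set K : Set (Ec n) := (fun x : ℝ × (Ec n × Ec n) => L2_seg x.1 x.2) '' (Icc 0 1 ×ˢ closedBall p₀ s)
    with hK
  have hKc : IsCompact K := (isCompact_Icc.prod (isCompact_closedBall p₀ s)).image L2_seg_cont
  have hKW : K ⊆ W := by
    rintro _ ⟨⟨t, p⟩, ⟨ht, hp⟩, rfl⟩
    exact L2_seg_mem hc (hsub hp) ht
  obtain ⟨M, hM⟩ := hol_d2_bound hW hq hKc hKW
  have hM0 : 0 ≤ M := (norm_nonneg _).trans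
    (hM (L2_seg 0 p₀) ⟨(0, p₀), ⟨⟨le_rfl, zero_le_one⟩, mem_closedBall_self hs.le⟩, rfl⟩).1
  have hcF := hol_fderiv_cont hW hq
  have hcF' := hol_fderiv_cont hW (hol_fderiv hW hq)
  have hI : ∀ t ∈ uIoc (0 : ℝ) 1, t ∈ Icc (0 : ℝ) 1 := by
    intro t ht
    rw [uIoc_of_le zero_le_one] at ht
    exact ⟨ht.1.le, ht.2⟩
  have hcont1 : ∀ p ∈ W ×ˢ W, ContinuousOn (fun t : ℝ => fderiv ℂ q (L2_seg t p)) (Icc 0 1) := by
    intro p hp
    refine hcF.comp ?_ (fun t ht => L2_seg_mem hc hp ht)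
    exact (L2_seg_cont.comp (Continuous.prodMk_left p)).continuousOn
  have hcont2 : ContinuousOn (fun t : ℝ =>
      (fderiv ℂ (fderiv ℂ q) (L2_seg t p₀)).comp (L2_seg t)) (Icc 0 1) := by
    refine ContinuousOn.clm_comp ?_ L2_seg_cont'.continuousOn
    refine hcF'.comp ?_ (fun t ht => L2_seg_mem hc hp₀ ht)
    exact (L2_seg_cont.comp (Continuous.prodMk_left p₀)).continuousOn
  have key := intervalIntegral.hasFDerivAt_integral_of_dominated_of_fderiv_le (𝕜 := ℂ) (μ := volume)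
    (a := (0 : ℝ)) (b := 1) (F := fun (p : Ec n × Ec n) (t : ℝ) => fderiv ℂ q (L2_seg t p))
    (F' := fun p t => (fderiv ℂ (fderiv ℂ q) (L2_seg t p)).comp (L2_seg t)) (x₀ := p₀)
    (s := closedBall p₀ s) (bound := fun _ => M * 3) (closedBall_mem_nhds p₀ hs) ?_ ?_ ?_ ?_ ?_ ?_
  · exact key.differentiableAt
  · filter_upwards [hWW.mem_nhds hp₀] with p hp
    exact ((hcont1 p hp).mono hI).aestronglyMeasurable measurableSet_uIoc
  · refine ContinuousOn.intervalIntegrable ?_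
    rw [uIcc_of_le zero_le_one]
    exact hcont1 p₀ hp₀
  · exact (hcont2.mono hI).aestronglyMeasurable measurableSet_uIoc
  · refine Eventually.of_forall fun t ht p hp => ?_
    have h1 := (hM (L2_seg t p) ⟨(t, p), ⟨hI t ht, hp⟩, rfl⟩).2.2
    refine (ContinuousLinearMap.opNorm_comp_le _ _).trans ?_
    exact mul_le_mul h1 (L2_seg_norm (hI t ht)) (norm_nonneg _) hM0
  · exact intervalIntegrable_const
  · refine Eventually.of_forall fun t ht p hp => ?_
    have h1 : L2_seg t p ∈ W := L2_seg_mem hc (hsub hp) (hI t ht)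
    have h2 : HasFDerivAt (fderiv ℂ q) (fderiv ℂ (fderiv ℂ q) (L2_seg t p)) (L2_seg t p) :=
      ((hol_fderiv hW hq).differentiableAt (hW.mem_nhds h1)).hasFDerivAt
    exact h2.comp p (L2_seg t).hasFDerivAt

/-- PROOF. `H z ζ k = ∫ t in 0..1, fderiv ℂ q (ζ + t (z - ζ)) (ee k)`: the segment is in `W`; the integrand is continuous in
`t` (`hol_fderiv_cont`) and holomorphic in `(z, ζ)` (`hol_fderiv`), so the integral is holomorphic (differentiation under the
integral on a small ball `ball (z₀, ζ₀) s` whose closure is in `W ×ˢ W`, where the derivative of the integrand is bounded by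
compactness; e.g. `hasFDerivAt_integral_of_dominated_of_fderiv_le`). The formula: the fundamental theorem of calculus for
`t ↦ q (ζ + t (z - ζ))`, whose derivative is `fderiv ℂ q (..) (z - ζ) = ∑ k, (z k - ζ k) fderiv ℂ q (..) (ee k)`. -/
theorem hefer_convex {W : Set (Ec n)} (hW : IsOpen W) (hc : Convex ℝ W) {q : Ec n → ℂ}
    (hq : DifferentiableOn ℂ q W) : ∃ H : Ec n → Ec n → Fin n → ℂ,
      DifferentiableOn ℂ (fun p : Ec n × Ec n => H p.1 p.2) (W ×ˢ W) ∧
      ∀ z ∈ W, ∀ ζ ∈ W, q z - q ζ = ∑ k, H z ζ k * (z k - ζ k) := by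
  refine ⟨fun z ζ k => (∫ t in (0 : ℝ)..1, fderiv ℂ q (L2_seg t (z, ζ))) (ee k), ?_, ?_⟩
  · refine differentiableOn_pi.2 fun k => ?_
    exact (L2_G hW hc hq).clm_apply (differentiableOn_const _)
  · intro z hz ζ hζ
    have hp : (z, ζ) ∈ W ×ˢ W := ⟨hz, hζ⟩
    have hcont : ContinuousOn (fun t : ℝ => fderiv ℂ q (L2_seg t (z, ζ))) (Icc 0 1) := by
      refine (hol_fderiv_cont hW hq).comp ?_ (fun t ht => L2_seg_mem hc hp ht)
      exact (L2_seg_cont.comp (Continuous.prodMk_left (z, ζ))).continuousOn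
    have hint : IntervalIntegrable (fun t : ℝ => fderiv ℂ q (L2_seg t (z, ζ))) volume 0 1 := by
      refine ContinuousOn.intervalIntegrable ?_
      rwa [uIcc_of_le zero_le_one]
    have hint2 : IntervalIntegrable (fun t : ℝ => fderiv ℂ q (L2_seg t (z, ζ)) (z - ζ))
        volume 0 1 := by
      refine ContinuousOn.intervalIntegrable ?_
      rw [uIcc_of_le zero_le_one]
      exact hcont.clm_apply continuousOn_const
    have hder : ∀ t ∈ uIcc (0 : ℝ) 1, HasDerivAt (fun t : ℝ => q (L2_seg t (z, ζ)))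
        (fderiv ℂ q (L2_seg t (z, ζ)) (z - ζ)) t := by
      intro t ht
      rw [uIcc_of_le zero_le_one] at ht
      have h1 : L2_seg t (z, ζ) ∈ W := L2_seg_mem hc hp ht
      have h2 : HasFDerivAt q (fderiv ℂ q (L2_seg t (z, ζ))) (L2_seg t (z, ζ)) :=
        (hq.differentiableAt (hW.mem_nhds h1)).hasFDerivAt
      have h3 : HasDerivAt (fun t : ℝ => L2_seg t (z, ζ)) (z - ζ) t := by
        have e1 : (fun t : ℝ => L2_seg t (z, ζ)) = fun t : ℝ => ζ + (t : ℂ) • (z - ζ) := rfl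
        rw [e1]
        have e2 : HasDerivAt (fun t : ℝ => (t : ℂ)) 1 t := Complex.ofRealCLM.hasDerivAt
        have e3 := (e2.smul_const (z - ζ)).const_add ζ
        rwa [one_smul] at e3
      exact (h2.restrictScalars ℝ).comp_hasDerivAt t h3
    have hftc := intervalIntegral.integral_eq_sub_of_hasDerivAt hder hint2
    have e0 : L2_seg 0 (z, ζ) = ζ := by
      rw [L2_seg_apply]; simp
    have e1 : L2_seg 1 (z, ζ) = z := by
      rw [L2_seg_apply]; simp
    rw [e0, e1] at hftc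
    rw [← hftc]
    have h5 : (∫ t in (0 : ℝ)..1, fderiv ℂ q (L2_seg t (z, ζ)) (z - ζ)) =
        (∫ t in (0 : ℝ)..1, fderiv ℂ q (L2_seg t (z, ζ))) (z - ζ) :=
      (ContinuousLinearMap.intervalIntegral_apply hint (z - ζ)).symm
    rw [h5]
    have h6 : z - ζ = ∑ k, (z k - ζ k) • (ee k : Ec n) := by
      ext j
      simp [ee, Pi.single_apply]
    conv_lhs => rw [h6]
    rw [map_sum]
    refine Finset.sum_congr rfl fun k _ => ?_
    rw [map_smul, smul_eq_mul, mul_comm]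

end Pool.Agent.MPca0fc2.FD
end

section

/-! The corona problem on strictly pseudoconvex domains for data which are locally in the analytic closure
of the functions `g (q (z))` and one arbitrary function. -/

set_option autoImplicit false

open Metric Set MeasureTheory Filter Topology

namespace Pool.Agent.MPca0fc2.FD

open Pool.Agent.Lib.MP_ca0fc2_an

variable {n : ℕ}

theorem cellOn_mono {k : ℕ} {D D' : Set (Ec n)} (hD : D' ⊆ D) (u : Fin k → Ec n → ℂ) (c : Fin k → ℂ) (ρ : ℝ) :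
    cellOn D' u c ρ ⊆ cellOn D u c ρ := fun _ hz => ⟨hD hz.1, hz.2⟩

theorem isHinf_mono {D D' : Set (Ec n)} (hD : D' ⊆ D) {u : Ec n → ℂ} (hu : IsHinf D u) : IsHinf D' u :=
  ⟨hu.1.mono hD, hu.2.imp fun _ hM z hz => hM z (hD hz)⟩

theorem hullOn_mono {D D' : Set (Ec n)} (hD : D' ⊆ D) {G G' : Set (Ec n → ℂ)} (hG : G ⊆ G')
    {u : Ec n → ℂ} (hu : u ∈ HullOn D G) : u ∈ HullOn D' G' := by
  refine ⟨isHinf_mono hD hu.1, fun ε hε => ?_⟩
  obtain ⟨k, v, ρ, hρ, hv, h⟩ := hu.2 ε hε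
  refine ⟨k, v, ρ, hρ, fun i => hG (hv i), fun c x z hz w hw => ?_⟩
  exact h c x z (connectedComponentIn_mono x (cellOn_mono hD v c ρ) hz) w
    (connectedComponentIn_mono x (cellOn_mono hD v c ρ) hw)

theorem closedAlgOn_mono {D D' : Set (Ec n)} (hD : D' ⊆ D) {S : Set (Ec n → ℂ)} :
    ClosedAlgOn D S ⊆ ClosedAlgOn D' S := fun _ hg =>
  ⟨hg.1.mono hD, fun ε hε => (hg.2 ε hε).imp fun _ hq => ⟨hq.1, fun z hz => hq.2 z (hD hz)⟩⟩

theorem analyticOverOn_mono {D D' : Set (Ec n)} (hD : D' ⊆ D) {S : Set (Ec n → ℂ)} :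
    AnalyticOverOn D S ⊆ AnalyticOverOn D' S := by
  rintro g ⟨hg, a, A, M, ρ, c, h1, h2, h3, h4, h5, h6, h7, h8⟩
  exact ⟨hg.mono hD, a, A, M, ρ, c, h1, h2, h3, fun z hz => h4 z (hD hz), fun k z hz => h5 k z (hD hz), h6,
    fun z hz => h7 z (hD hz), fun z hz => h8 z (hD hz)⟩

theorem analyticClosureOn_mono {D D' : Set (Ec n)} (hD : D' ⊆ D) {S S' : Set (Ec n → ℂ)} (hS : S ⊆ S') :
    AnalyticClosureOn D S ⊆ AnalyticClosureOn D' S' := by
  rintro u hu T ⟨h1, h2, h3⟩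
  exact hu T ⟨hS.trans h1, (closedAlgOn_mono hD).trans h2, (analyticOverOn_mono hD).trans h3⟩

/-- One of the functions has no zeros near an interior point. -/
theorem solv_interior {D : Set (Ec n)} (hD : IsOpen D) {N : ℕ} {f : Fin N → Ec n → ℂ}
    (hf : ∀ j, DifferentiableOn ℂ (f j) D) {δ : ℝ} (hδ0 : 0 < δ) (hδ : ∀ z ∈ D, δ ≤ ∑ j, ‖f j z‖ ^ 2)
    {p : Ec n} (hp : p ∈ D) : ∃ r > 0, ∃ C : ℝ, SolvableOn f (D ∩ ball p r) C := by
  have h1 : ∃ j, f j p ≠ 0 := by
    by_contra h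
    push_neg at h
    have := hδ p hp
    simp [h] at this
    linarith
  obtain ⟨j, hj⟩ := h1
  have hc : ContinuousAt (f j) p := ((hf j).continuousOn).continuousAt (hD.mem_nhds hp)
  have h2 : ∀ᶠ z in 𝓝 p, ‖f j p‖ / 2 < ‖f j z‖ :=
    hc.norm.eventually_const_lt (half_lt_self (norm_pos_iff.2 hj))
  obtain ⟨r, hr, hr2⟩ := Metric.eventually_nhds_iff_ball.1 h2
  have hpos : 0 < ‖f j p‖ / 2 := half_pos (norm_pos_iff.2 hj)
  have hne : ∀ z ∈ D ∩ ball p r, f j z ≠ 0 := fun z hz h0 => by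
    have := hr2 z hz.2
    rw [h0, norm_zero] at this
    linarith
  refine ⟨r, hr, (‖f j p‖ / 2)⁻¹, fun i z => if i = j then (f j z)⁻¹ else 0, fun i => ?_, fun i z hz => ?_,
    fun z hz => ?_⟩
  · by_cases hij : i = j
    · simp only [hij, if_true]
      exact ((hf j).mono inter_subset_left).inv hne
    · simp only [hij, if_false]
      exact differentiableOn_const _
  · by_cases hij : i = j
    · simp only [hij, if_true, norm_inv]
      exact inv_anti₀ hpos (hr2 z hz.2).le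
    · simp only [hij, if_false, norm_zero]
      positivity
  · simp only [mul_ite, mul_zero, Finset.sum_ite_eq', Finset.mem_univ, if_true]
    exact mul_inv_cancel₀ (hne z hz)

end Pool.Agent.MPca0fc2.FD
end

section

/-! Division by a coordinate. -/

set_option autoImplicit false

open Metric Set MeasureTheory Filter Topology
open scoped ContDiff

namespace Pool.Agent.MPca0fc2.LV

open Pool.Agent.MPca0fc2.FD (Ec ee)

variable {n : ℕ}

private lemma G1b_cE0 (a : ℂ) (w : Ec n) : (cE a w) 0 = a := by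
  simp [cE]

private lemma G1b_cEs (a : ℂ) (w : Ec n) (i : Fin n) : (cE a w) i.succ = w i := by
  simp [cE]

private lemma G1b_tl (z : Ec (n + 1)) (i : Fin n) : (tl z) i = z i.succ := by
  simp [tl]

private lemma G1b_dist {a : ℂ} {z₁ z : Ec (n + 1)} (h : z₁ 0 = a) :
    dist (cE a (tl z)) z₁ ≤ dist z z₁ := by
  rw [EuclideanSpace.dist_eq, EuclideanSpace.dist_eq]
  refine Real.sqrt_le_sqrt ?_
  rw [Fin.sum_univ_succ, Fin.sum_univ_succ]
  have h1 : dist ((cE a (tl z)) 0) (z₁ 0) = 0 := by rw [G1b_cE0, h, dist_self]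
  rw [h1]
  have h2 : ∀ i : Fin n, dist ((cE a (tl z)) i.succ) (z₁ i.succ) ^ 2 = dist (z i.succ) (z₁ i.succ) ^ 2 := by
    intro i
    rw [G1b_cEs, G1b_tl]
  rw [Finset.sum_congr rfl (fun i _ => h2 i)]
  have h3 : 0 ≤ dist (z 0) (z₁ 0) ^ 2 := by positivity
  nlinarith [h3]

private lemma G1b_coord_diff (a : ℂ) : Differentiable ℂ (fun z : Ec (n + 1) => z 0 - a) := by
  have h : Differentiable ℂ (fun z : Ec (n + 1) => (EuclideanSpace.proj (0 : Fin (n + 1)) : Ec (n + 1) →L[ℂ] ℂ) z) :=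
    (EuclideanSpace.proj (0 : Fin (n + 1)) : Ec (n + 1) →L[ℂ] ℂ).differentiable
  exact h.sub_const a

private lemma G1b_coord_fderiv (a : ℂ) (z : Ec (n + 1)) :
    HasFDerivAt (fun z : Ec (n + 1) => z 0 - a) (EuclideanSpace.proj (0 : Fin (n + 1)) : Ec (n + 1) →L[ℂ] ℂ) z := by
  have h : HasFDerivAt (fun z : Ec (n + 1) => (EuclideanSpace.proj (0 : Fin (n + 1)) : Ec (n + 1) →L[ℂ] ℂ) z)
      (EuclideanSpace.proj (0 : Fin (n + 1)) : Ec (n + 1) →L[ℂ] ℂ) z :=
    (EuclideanSpace.proj (0 : Fin (n + 1)) : Ec (n + 1) →L[ℂ] ℂ).hasFDerivAt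
  exact h.sub_const a

/-- Division.
PROOF. `H z = R z / (z 0 - a)` if `z 0 ≠ a` and `H z = fderiv ℂ R z (ee 0)` if `z 0 = a`. Holomorphic near the points of `Ω` with
`z 0 ≠ a`: clear. Let `z₁ ∈ Ω`, `z₁ 0 = a`, `B = ball z₁ r ⊆ Ω`. `B` is convex, and if `z ∈ B` then `cE a (tl z) ∈ B` (its distance to
`z₁` is not larger). `FD.hefer_convex` (FD/L2) for `B` gives `H'` holomorphic with
`R z - R ζ = ∑ k, H' z ζ k * (z k - ζ k)`; with `ζ = cE a (tl z)`: `R z = H' z ζ 0 * (z 0 - a)`. So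
`H = (fun z => H' z (cE a (tl z)) 0)` on `B` at the points with `z 0 ≠ a`, and at the others by continuity of both sides
along the direction `ee 0` (or directly: differentiate in the direction `ee 0`). -/
theorem division {Ω : Set (Ec (n + 1))} (hΩ : IsOpen Ω) (a : ℂ) {R : Ec (n + 1) → ℂ}
    (hR : DifferentiableOn ℂ R Ω) (h0 : ∀ w : Ec n, cE a w ∈ Ω → R (cE a w) = 0) :
    ∃ H : Ec (n + 1) → ℂ, DifferentiableOn ℂ H Ω ∧ ∀ z ∈ Ω, R z = (z 0 - a) * H z := by
  classical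
  refine ⟨fun z => if z 0 = a then fderiv ℂ R z (ee 0) else R z / (z 0 - a), ?_, ?_⟩
  · intro z₁ hz₁
    refine DifferentiableAt.differentiableWithinAt ?_
    by_cases ha : z₁ 0 = a
    · -- the local division
      obtain ⟨r, hr, hB⟩ := Metric.isOpen_iff.1 hΩ z₁ hz₁
      obtain ⟨H', hH', hH⟩ := FD.hefer_convex (W := ball z₁ r) isOpen_ball (convex_ball z₁ r) (hR.mono hB)
      have hmem : ∀ z ∈ ball z₁ r, cE a (tl z) ∈ ball z₁ r := by
        intro z hz
        rw [mem_ball] at hz ⊢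
        exact lt_of_le_of_lt (G1b_dist ha) hz
      -- the function G
      have hG : DifferentiableOn ℂ (fun z : Ec (n + 1) => H' z (cE a (tl z)) 0) (ball z₁ r) := by
        have h1 : DifferentiableOn ℂ (fun z : Ec (n + 1) => ((z, cE a (tl z)) : Ec (n + 1) × Ec (n + 1))) (ball z₁ r) := by
          refine DifferentiableOn.prodMk differentiableOn_id ?_
          exact ((cE_diff (n := n) a).1.comp (tl_diff (n := n)).1).differentiableOn
        have h2 := hH'.comp h1 (fun z hz => ⟨hz, hmem z hz⟩)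
        exact (differentiableOn_pi.1 h2) 0
      have hRG : ∀ z ∈ ball z₁ r, R z = H' z (cE a (tl z)) 0 * (z 0 - a) := by
        intro z hz
        have h1 := hH z hz (cE a (tl z)) (hmem z hz)
        rw [h0 _ (hB (hmem z hz)), sub_zero, Fin.sum_univ_succ, G1b_cE0] at h1
        rw [h1]
        have h2 : ∑ i : Fin n, H' z (cE a (tl z)) i.succ * (z i.succ - (cE a (tl z)) i.succ) = 0 := by
          refine Finset.sum_eq_zero fun i _ => ?_
          rw [G1b_cEs, G1b_tl, sub_self, mul_zero]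
        rw [h2, add_zero]
      have hEq : ∀ z ∈ ball z₁ r,
          (if z 0 = a then fderiv ℂ R z (ee 0) else R z / (z 0 - a)) = H' z (cE a (tl z)) 0 := by
        intro z hz
        by_cases hza : z 0 = a
        · rw [if_pos hza]
          have hnh : ball z₁ r ∈ 𝓝 z := isOpen_ball.mem_nhds hz
          have hev : R =ᶠ[𝓝 z] fun z => H' z (cE a (tl z)) 0 * (z 0 - a) := by
            filter_upwards [hnh] with y hy using hRG y hy
          rw [hev.fderiv_eq]
          have hGz : HasFDerivAt (fun z : Ec (n + 1) => H' z (cE a (tl z)) 0)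
              (fderiv ℂ (fun z : Ec (n + 1) => H' z (cE a (tl z)) 0) z) z :=
            (hG.differentiableAt hnh).hasFDerivAt
          have hmul : HasFDerivAt (fun z : Ec (n + 1) => H' z (cE a (tl z)) 0 * (z 0 - a)) _ z :=
            hGz.mul (G1b_coord_fderiv a z)
          rw [hmul.fderiv]
          simp [hza, ee]
        · rw [if_neg hza, hRG z hz]
          have : z 0 - a ≠ 0 := sub_ne_zero.2 hza
          field_simp
      have hev : (fun z : Ec (n + 1) => if z 0 = a then fderiv ℂ R z (ee 0) else R z / (z 0 - a))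
          =ᶠ[𝓝 z₁] fun z => H' z (cE a (tl z)) 0 := by
        filter_upwards [ball_mem_nhds z₁ hr] with y hy using hEq y hy
      exact (hG.differentiableAt (ball_mem_nhds z₁ hr)).congr_of_eventuallyEq hev
    · have hcont : Continuous (fun z : Ec (n + 1) => z 0 - a) := (G1b_coord_diff a).continuous
      have hne : ∀ᶠ z : Ec (n + 1) in 𝓝 z₁, z 0 - a ≠ 0 :=
        hcont.continuousAt.eventually_ne (sub_ne_zero.2 ha)
      have hev : (fun z : Ec (n + 1) => if z 0 = a then fderiv ℂ R z (ee 0) else R z / (z 0 - a))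
          =ᶠ[𝓝 z₁] fun z => R z / (z 0 - a) := by
        filter_upwards [hne] with y hy
        rw [if_neg (fun h => hy (by rw [h, sub_self]))]
      refine DifferentiableAt.congr_of_eventuallyEq ?_ hev
      have hd : DifferentiableAt ℂ (fun z : Ec (n + 1) => z 0 - a) z₁ := G1b_coord_diff a z₁
      have hne' : (fun z : Ec (n + 1) => z 0 - a) z₁ ≠ 0 := sub_ne_zero.2 ha
      have hinv : DifferentiableAt ℂ (fun z : Ec (n + 1) => (z 0 - a)⁻¹) z₁ := hd.inv hne'
      have hdiv : DifferentiableAt ℂ (fun z : Ec (n + 1) => R z * (z 0 - a)⁻¹) z₁ :=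
        (hR.differentiableAt (hΩ.mem_nhds hz₁)).mul hinv
      simpa only [div_eq_mul_inv] using hdiv
  · intro z hz
    by_cases hza : z 0 = a
    · have h1 : cE a (tl z) = z := by rw [← hza]; exact cE_tl z
      have h2 : R z = 0 := by
        have := h0 (tl z) (by rw [h1]; exact hz)
        rwa [h1] at this
      rw [h2, hza, sub_self, zero_mul]
    · have : z 0 - a ≠ 0 := sub_ne_zero.2 hza
      simp only [if_neg hza]
      field_simp

end Pool.Agent.MPca0fc2.LV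
end
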