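import Pool.Agent.Lib.MP_ca0fc2_an.Mg.G034
import Pool.Agent.Lib.MP_ca0fc2_an.GW.M4c
import Pool.Agent.Lib.MP_ca0fc2_an.Mg.G060
import Pool.Agent.Lib.MP_ca0fc2_an.Mg.G062
import Pool.Agent.Lib.MP_ca0fc2_an.Mg.G043
import Pool.Agent.Lib.MP_ca0fc2_an.GW.R18
import Pool.Agent.Lib.MP_ca0fc2_an.Mg.G044
import Pool.Agent.Lib.MP_ca0fc2_an.LV.S5

section

/-! The localization theorem near a boundary point, and the theorem on Q1. -/

set_option autoImplicit false

open Metric Set MeasureTheory Filter Topology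

namespace Pool.Agent.MPca0fc2.GW

open Pool.Agent.MPca0fc2.FD
open Pool.Agent.Lib.MP_ca0fc2_an

variable {n : ℕ}

/-- PROOF. The definitions. -/
theorem tame_hinf {D B : Set (Ec n)} {u : Ec n → ℂ} (hu : u ∈ TameOn D B) : IsHinf (D ∩ B) u := by
  rcases hu with hu | hu
  · exact hu.1
  · exact hu.1

/-- PROOF. Only the right sides contain `A` (compare `PA_mono`). -/
theorem CI_mono {U : Set (Ec n)} {δ : Ec n → ℝ} {h : Ec n → Ec n → Fin n → ℂ} {A A' p : ℝ}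
    {u : Ec n → ℂ} (hu : CI U δ h A p u) (hA : A ≤ A') (hδ : ∀ z ∈ Om U δ, 0 < δ z) :
    CI U δ h A' p u := by
  obtain ⟨V, H, N, w, hP, hg⟩ := hu
  refine ⟨V, H, N, w, M4b_PI_mono hP hA, fun z hz X => (hg z hz X).trans ?_⟩
  have h1 : 0 ≤ pzI δ V N w z := by
    unfold pzI
    refine tsum_nonneg fun i => ?_
    have := hP.w0 i
    have h9 : 0 ≤ δ z := (hδ z hz).le
    positivity
  have h2 : 0 ≤ gau δ h z X := gau_nonneg (h := h) (hδ z hz) X
  exact mul_le_mul_of_nonneg_right (mul_le_mul_of_nonneg_right hA (Real.rpow_nonneg h1 _)) h2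

/-- Solutions can be composed with holomorphic maps. -/
theorem M5a_pull {N : ℕ} {f f' : Fin N → Ec n → ℂ} {D₁ D₂ : Set (Ec n)} {C : ℝ}
    {φ : Ec n → Ec n} (h : SolvableOn f D₁ C) (hφ : DifferentiableOn ℂ φ D₂)
    (hm : ∀ z ∈ D₂, φ z ∈ D₁) (hf : ∀ j, ∀ z ∈ D₂, f j (φ z) = f' j z) : SolvableOn f' D₂ C := by
  obtain ⟨g, h1, h2, h3⟩ := h
  refine ⟨fun j z => g j (φ z), fun j => (h1 j).comp hφ hm, fun j z hz => h2 j _ (hm z hz),
    fun z hz => ?_⟩
  rw [← h3 _ (hm z hz)]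
  exact Finset.sum_congr rfl fun j _ => by rw [hf j z hz]

/-- A summable sequence. -/
theorem M5a_sum {b : ℝ} (hb : 0 < b) :
    Summable fun i : ℕ => Real.exp (-(b / (1 / ((i : ℝ) + 1)))) := by
  have h1 : ∀ i : ℕ, Real.exp (-(b / (1 / ((i : ℝ) + 1)))) =
      Real.exp (-b) * Real.exp (-b) ^ i := by
    intro i
    rw [← Real.exp_nat_mul, ← Real.exp_add]
    congr 1
    field_simp
    ring
  simp_rw [h1]
  refine (summable_geometric_of_lt_one (Real.exp_pos _).le ?_).mul_left _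
  rw [Real.exp_lt_one_iff]
  linarith

/-- Localization near a boundary point.
PROOF. `LD_exists`. `D' = Φ '' {x | x - x₀ ∈ Om W δ'}` (`δ' y = - q' (x₀ + y)`), which is open (`CV.opn`; `Om W δ'` is open) and contained in `D ∩ ball p r` (`cmp`, `eqD`). `D ∩ ball p r' ⊆ D'`: choose `r'` with `ball p r' ⊆ Φ '' ball 0 a₁` (open, contains `p = Φ 0`); then `big`. `LocOn`: let `f`, `a i`, `C`, `ε` be given. `u i y = a i (Φ (x₀ + y))`, `F j y = f j (Φ (x₀ + y))` on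
`Om W δ'`. `carl_CI`, `slow_SG`, `CI_mono` (common constant `A`); for the slow functions put `p = 1`, for the others `ω i = 1 / (i + 1)`. The solutions on the cells of `a` in `D'` are composed with `Φ (x₀ + ·)`. `C_inf` gives a solution on `Om W δ'`; compose with `z ↦ Ψ z - x₀` (`CV.inv`). -/
theorem loc_tame (hn : 2 ≤ n) {D U : Set (Ec n)} {ρ : Ec n → ℝ} {h : Ec n → Ec n → Fin n → ℂ}
    {c : ℝ} (hs : SupportData D U ρ h c) (hρ : ContDiffOn ℝ 3 ρ U) {p : Ec n} (hp : p ∈ frontier D)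
    {r : ℝ} (hr : 0 < r) : ∃ (D' : Set (Ec n)) (r' : ℝ), 0 < r' ∧ IsOpen D' ∧
      D ∩ ball p r' ⊆ D' ∧ D' ⊆ D ∩ ball p r ∧ CXS.LocOn D' (TameOn D (ball p r)) := by
  obtain ⟨a, L, c₁, Φ, q', x₀, a₁, a₂, c', C, K, W, hL⟩ := LD_exists hs hρ hp hr
  have hsub : ball (0 : Ec n) a₂ ⊆ ball 0 a := ball_subset_ball hL.a12.2.2.le
  have hOmo : IsOpen (Om W (fun y => -q' (x₀ + y))) := by
    have h1 : ContinuousOn (fun y => -q' (x₀ + y)) W := by
      have h2 := hL.cd.geo.dδ.continuousOn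
      have h3 : (fun y => -q' (x₀ + y)) = fun y => (-q' (x₀ + y) + c' / 2) - c' / 2 := by
        funext y
        ring
      rw [h3]
      exact h2.sub continuousOn_const
    exact h1.isOpen_inter_preimage hL.cd.geo.opn (isOpen_Ioi (a := (0 : ℝ)))
  obtain ⟨S, hS⟩ : ∃ S : Set (Ec n), S = {x | x - x₀ ∈ Om W (fun y => -q' (x₀ + y))} := ⟨_, rfl⟩
  have hSo : IsOpen S := by
    rw [hS]
    exact hOmo.preimage (continuous_id.sub continuous_const)
  have hS2 : ∀ x ∈ S, x ∈ ball (0 : Ec n) a₂ := by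
    intro x hx
    rw [hS] at hx
    have h1 := hL.sub hx.1
    have h2 : x₀ + (x - x₀) = x := by abel
    rwa [mem_ofPred_eq, h2] at h1
  have hSa : S ⊆ ball 0 a := fun x hx => hsub (hS2 x hx)
  have hSy : ∀ y ∈ Om W (fun y => -q' (x₀ + y)), x₀ + y ∈ S := by
    intro y hy
    rw [hS, mem_ofPred_eq]
    have h2 : x₀ + y - x₀ = y := by abel
    rwa [h2]
  have hD'1 : Φ '' S ⊆ D ∩ ball p r := by
    rintro _ ⟨x, hx, rfl⟩
    rw [hS] at hx
    have h1 := (M4b_pt hL hx).1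
    have h2 : x₀ + (x - x₀) = x := by abel
    rwa [h2] at h1
  have ha1 : ball (0 : Ec n) a₁ ⊆ ball 0 a :=
    ball_subset_ball (hL.a12.2.1.trans hL.a12.2.2).le
  obtain ⟨r', hr', hr'2⟩ : ∃ r' > 0, ball p r' ⊆ Φ '' ball 0 a₁ := by
    have h1 : IsOpen (Φ '' ball 0 a₁) := hL.cv.opn _ isOpen_ball ha1
    have h2 : p ∈ Φ '' ball 0 a₁ := ⟨0, mem_ball_self hL.a12.1, hL.cv.zero⟩
    exact Metric.isOpen_iff.1 h1 p h2
  have hΦy : DifferentiableOn ℂ (fun y => Φ (x₀ + y)) (Om W (fun y => -q' (x₀ + y))) :=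
    hL.cv.hol.comp (f := fun y => x₀ + y)
      ((differentiableOn_const _).add differentiableOn_id) fun y hy => hSa (hSy y hy)
  refine ⟨Φ '' S, r', hr', hL.cv.opn S hSo hSa, ?_, hD'1, ?_⟩
  · rintro z ⟨hzD, hz⟩
    obtain ⟨x, hx, rfl⟩ := hr'2 hz
    refine ⟨x, ?_, rfl⟩
    rw [hL.eqD] at hzD
    rw [hS]
    exact hL.big x hx hzD.2
  intro N k f u C₀ ε hf hu hε hloc
  -- the data of the functions
  have hdat : ∀ l : Fin k, ∃ (A p₁ M : ℝ) (ω : ℕ → ℝ), 1 ≤ p₁ ∧ (∀ i, 0 < ω i) ∧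
      (∀ b : ℝ, 0 < b → Summable (fun i => Real.exp (-(b / ω i)))) ∧
      (∀ z ∈ D ∩ ball p r, ‖u l z‖ ≤ M) ∧
      (CI W (fun y => -q' (x₀ + y)) (fun _ ζ k => hq q' (x₀ + ζ) k) A p₁
        (fun y => u l (Φ (x₀ + y))) ∨
        SG W (fun y => -q' (x₀ + y)) c' C ω (fun y => u l (Φ (x₀ + y)))) := by
    intro l
    obtain ⟨M, hM⟩ := (tame_hinf (hu l)).2
    rcases hu l with h1 | h1
    · obtain ⟨A, p₁, hp₁, hCI⟩ := carl_CI hL h1
      exact ⟨A, p₁, M, fun i => 1 / ((i : ℝ) + 1), hp₁, fun i => by positivity,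
        fun b hb => M5a_sum hb, hM, Or.inl hCI⟩
    · obtain ⟨ω, hω, hω2, hSG⟩ := slow_SG hL h1
      exact ⟨0, 1, M, ω, le_rfl, hω, hω2, hM, Or.inr hSG⟩
  choose A p₁ M ω hp₁ hω hω2 hM hug using hdat
  choose Mf hMf using fun j => (hf j).2
  have hin : ∀ y ∈ Om W (fun y => -q' (x₀ + y)), Φ (x₀ + y) ∈ D ∩ ball p r := fun y hy =>
    (M4b_pt hL hy).1
  have hsum : ∀ {m : ℕ} (g : Fin m → ℝ) (i : Fin m), g i ≤ ∑ j, |g j| := fun g i =>
    (le_abs_self _).trans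
      (Finset.single_le_sum (f := fun j => |g j|) (fun _ _ => abs_nonneg _) (Finset.mem_univ i))
  obtain ⟨B, hB⟩ := C_inf hn N k hL.cd (∑ l, |A l|) (∑ l, |M l|) (∑ j, |Mf j|) C₀ ε hε p₁ hp₁ ω hω
    hω2 (fun l y => u l (Φ (x₀ + y))) (fun j y => f j (Φ (x₀ + y)))
    (fun l => (tame_hinf (hu l)).1.comp hΦy hin)
    (fun l y hy => (hM l _ (hin y hy)).trans (hsum M l))
    (fun l => (hug l).imp (fun h1 => CI_mono h1 (hsum A l) fun z hz => hz.2) id)
    (fun j => (hf j).1.comp hΦy fun y hy => ⟨_, hSy y hy, rfl⟩)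
    (fun j y hy => (hMf j _ ⟨_, hSy y hy, rfl⟩).trans (hsum Mf j))
    (fun b hb => by
      refine M5a_pull (hloc (Φ (x₀ + b)) ⟨_, hSy b hb, rfl⟩) (hΦy.mono fun y hy => hy.1)
        (fun y hy => ⟨⟨_, hSy y hy.1, rfl⟩, hy.2⟩) fun j z _ => rfl)
  obtain ⟨Ψ, hΨ, hΨΦ⟩ := hL.cv.inv
  refine ⟨B, M5a_pull (φ := fun z => Ψ z - x₀) hB ?_ ?_ ?_⟩
  · exact (hΨ.mono (image_mono hSa)).sub_const _
  · rintro _ ⟨x, hx, rfl⟩
    show Ψ (Φ x) - x₀ ∈ _
    rw [hΨΦ x (hSa hx)]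
    rw [hS] at hx
    exact hx
  · rintro j _ ⟨x, hx, rfl⟩
    show f j (Φ (x₀ + (Ψ (Φ x) - x₀))) = f j (Φ x)
    rw [hΨΦ x (hSa hx)]
    congr 2
    abel

end Pool.Agent.MPca0fc2.GW
end

section

/-! The theorem on Q1 for data which are one-dimensional modulo tame functions. -/

set_option autoImplicit false

open Metric Set MeasureTheory Filter Topology

namespace Pool.Agent.MPca0fc2.GW

open Pool.Agent.MPca0fc2.FD
open Pool.Agent.Lib.MP_ca0fc2_an

variable {n : ℕ}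

/-- Restriction. PROOF. `FD.isHinf_mono`, `FD.hullOn_mono`, `FD.analyticClosureOn_mono`; `ClosedAlgOn` is inherited by subsets (`Algebra.adjoin_mono`). -/
theorem oneDim_mono {N : ℕ} {C C' : Set (Ec n)} (h : C' ⊆ C) {T : Set (Ec n → ℂ)}
    {q : Fin N → Ec n → ℂ} (hq : OneDim C T q) : OneDim C' T q := by
  rcases hq with ⟨F, hF, hq⟩ | ⟨π, hπ, hπ1, hq⟩
  · exact Or.inl ⟨F, isHinf_mono h hF, fun j => analyticClosureOn_mono h
      (union_subset_union_left _ fun u hu => hullOn_mono h subset_rfl hu) (hq j)⟩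
  · refine Or.inr ⟨π, hπ.mono h, fun z hz => hπ1 z (h hz), fun j => ⟨(hq j).1.mono h, fun ε hε => ?_⟩⟩
    obtain ⟨p, hp, hp'⟩ := (hq j).2 ε hε
    exact ⟨p, Algebra.adjoin_mono (union_subset_union_left _ fun u hu =>
      hullOn_mono h subset_rfl hu) hp, fun z hz => hp' z (h hz)⟩

/-- Q1 for data which are, near each boundary point and on the cells of tame functions, near functions of one function modulo tame functions.
PROOF. As `spcells` in `M6.lean`, with `IND.q1_one` and `oneDim_mono`. -/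
theorem spone (hn : 2 ≤ n) {D U : Set (Ec n)} {ρ : Ec n → ℝ} {h : Ec n → Ec n → Fin n → ℂ} {c : ℝ}
    (hs : SupportData D U ρ h c) (hρ : ContDiffOn ℝ 3 ρ U) {N : ℕ} {f : Fin N → Ec n → ℂ} {δ : ℝ}
    (hf : ∀ j, IsHinf D (f j)) (hδ0 : 0 < δ) (hδ : ∀ z ∈ D, δ ≤ ∑ j, ‖f j z‖ ^ 2)
    (hloc : ∀ p ∈ frontier D, ∃ r > 0, ∃ (k : ℕ) (a : Fin k → Ec n → ℂ) (s : ℝ), 0 < s ∧
      (∀ i, a i ∈ HullOn (D ∩ ball p r) (TameOn D (ball p r))) ∧
      ∀ c : Fin k → ℂ, ∃ (η : ℝ) (q : Fin N → Ec n → ℂ), 4 * N * η ^ 2 < δ ∧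
        OneDim (cellOn (D ∩ ball p r) a c s) (TameOn D (ball p r)) q ∧
        ∀ j, ∀ z ∈ cellOn (D ∩ ball p r) a c s, ‖f j z - q j z‖ ≤ η) :
    ∃ C : ℝ, SolvableOn f D C := by
  have hDo : IsOpen D := by
    rw [hs.eq]
    exact hs.dρ.continuousOn.isOpen_inter_preimage hs.opn (isOpen_Iio (a := (0:ℝ)))
  have hfH := hf
  choose hfd Mf hMf using hf
  refine fibre_loc' hn hs (M := ∑ j, |Mf j|) hfd (fun j z hz => (hMf j z hz).trans ((le_abs_self _).trans
    (Finset.single_le_sum (f := fun j => |Mf j|) (fun _ _ => abs_nonneg _) (Finset.mem_univ j)))) ?_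
  intro p hp
  by_cases hpD : p ∈ D
  · exact solv_interior hDo hfd hδ0 hδ hpD
  · have hpf : p ∈ frontier D := ⟨hp, by rwa [hDo.interior_eq]⟩
    obtain ⟨r, hr, k, a, s, hs0, ha, hcell⟩ := hloc p hpf
    obtain ⟨D', r', hr', hD'o, hsub, hsub', hLoc⟩ := loc_tame hn hs hρ hpf hr
    have hD'D : D' ⊆ D := fun z hz => (hsub' hz).1
    obtain ⟨C, hC⟩ := IND.q1_one hD'o hLoc
      (fun a ha => isHinf_mono hsub' (tame_hinf ha)) (f := f) (δ := δ)
      (fun j => isHinf_mono hD'D (hfH j)) (fun z hz => hδ z (hD'D hz))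
      (fun i => hullOn_mono hsub' subset_rfl (ha i)) hs0 (fun c => by
        obtain ⟨η, q, hη, hq, hfq⟩ := hcell c
        have hm := cellOn_mono hsub' a c s
        exact ⟨η, q, hη, oneDim_mono hm hq, fun j z hz => hfq j z (hm hz)⟩)
    exact ⟨r', hr', C, Fib_mono hC hsub le_rfl⟩

end Pool.Agent.MPca0fc2.GW
end

section

/-! The theorem on Q1 for data which on the cells of tame functions have a small range or for which the ideal generated by the data on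
the cell contains functions which are one-dimensional modulo tame functions. -/

set_option autoImplicit false

open Metric Set MeasureTheory Filter Topology

namespace Pool.Agent.MPca0fc2.GW

open Pool.Agent.MPca0fc2.FD
open Pool.Agent.Lib.MP_ca0fc2_an

variable {n : ℕ}

/-- Q1 for data which, near each boundary point and on the cells of tame functions, have a small range or generate an ideal which
contains functions which are near functions of one function modulo tame functions. -/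
theorem spideal (hn : 2 ≤ n) {D U : Set (Ec n)} {ρ : Ec n → ℝ} {h : Ec n → Ec n → Fin n → ℂ} {c : ℝ}
    (hs : SupportData D U ρ h c) (hρ : ContDiffOn ℝ 3 ρ U) {N : ℕ} {f : Fin N → Ec n → ℂ} {δ : ℝ}
    (hf : ∀ j, IsHinf D (f j)) (hδ0 : 0 < δ) (hδ : ∀ z ∈ D, δ ≤ ∑ j, ‖f j z‖ ^ 2)
    (hloc : ∀ p ∈ frontier D, ∃ r > 0, ∃ (k : ℕ) (a : Fin k → Ec n → ℂ) (s : ℝ), 0 < s ∧
      (∀ i, a i ∈ HullOn (D ∩ ball p r) (TameOn D (ball p r))) ∧
      ∀ c : Fin k → ℂ,
        ∑ j, volume (closure (f j '' cellOn (D ∩ ball p r) a c s)) <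
          ENNReal.ofReal (Real.pi * δ) ∨
        IND.IdealOne (cellOn (D ∩ ball p r) a c s) (TameOn D (ball p r)) f) :
    ∃ C : ℝ, SolvableOn f D C := by
  have hDo : IsOpen D := by
    rw [hs.eq]
    exact hs.dρ.continuousOn.isOpen_inter_preimage hs.opn (isOpen_Iio (a := (0:ℝ)))
  have hfH := hf
  choose hfd Mf hMf using hf
  refine fibre_loc' hn hs (M := ∑ j, |Mf j|) hfd (fun j z hz => (hMf j z hz).trans ((le_abs_self _).trans
    (Finset.single_le_sum (f := fun j => |Mf j|) (fun _ _ => abs_nonneg _) (Finset.mem_univ j)))) ?_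
  intro p hp
  by_cases hpD : p ∈ D
  · exact solv_interior hDo hfd hδ0 hδ hpD
  · have hpf : p ∈ frontier D := ⟨hp, by rwa [hDo.interior_eq]⟩
    obtain ⟨r, hr, k, a, s, hs0, ha, hcell⟩ := hloc p hpf
    obtain ⟨D', r', hr', hD'o, hsub, hsub', hLoc⟩ := loc_tame hn hs hρ hpf hr
    have hD'D : D' ⊆ D := fun z hz => (hsub' hz).1
    obtain ⟨C, hC⟩ := IND.q1_ideal hD'o hLoc
      (fun a ha => isHinf_mono hsub' (tame_hinf ha)) (f := f)
      (fun j => isHinf_mono hD'D (hfH j))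
      (fun i => hullOn_mono hsub' subset_rfl (ha i)) hs0 (fun c => by
        have hm := cellOn_mono hsub' a c s
        rcases hcell c with har | ⟨m, δ', η, B, q, hη, hB, hq, hδ', hfq⟩
        · left
          have hop : IsOpen (cellOn D' a c s) := CXS.isOpen_cellOn hD'o
            (fun i => (isHinf_mono hsub' (ha i).1).1) _ _
          have hsD : cellOn D' a c s ⊆ D := fun z hz => hD'D hz.1
          refine TB.solv_small_area hop (fun j => (hfd j).mono hsD)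
            (M := ∑ j, |Mf j|) (fun j z hz => (hMf j z (hsD hz)).trans ((le_abs_self _).trans
              (Finset.single_le_sum (f := fun j => |Mf j|) (fun _ _ => abs_nonneg _)
                (Finset.mem_univ j)))) (fun z hz => hδ z (hsD hz)) (lt_of_le_of_lt ?_ har)
          exact Finset.sum_le_sum fun j _ => measure_mono (closure_mono (image_mono hm))
        · right
          exact ⟨m, δ', η, B, q, hη, fun i j => isHinf_mono hm (hB i j), oneDim_mono hm hq,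
            fun z hz => hδ' z (hm hz), fun i z hz => hfq i z (hm hz)⟩)
    exact ⟨r', hr', C, Fib_mono hC hsub le_rfl⟩

end Pool.Agent.MPca0fc2.GW
end

section

/-! The corona problem on strictly pseudoconvex domains is local over the tame functions. -/

set_option autoImplicit false
set_option linter.unusedSectionVars false

open Metric Set MeasureTheory Filter Topology
open scoped InnerProductSpace ENNReal ContDiff

namespace Pool.Agent.MPca0fc2.LD

open Pool.Agent.Lib.MP_ca0fc2_an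

variable {n : ℕ}

/-- The functions in the algebra generated by `G` are bounded, and uniformly continuous with respect to
finitely many functions in `G`. -/
theorem adjoin_uc {D : Set (EuclideanSpace ℂ (Fin n))} {G : Set (EuclideanSpace ℂ (Fin n) → ℂ)}
    (hG : ∀ g ∈ G, ∃ M : ℝ, ∀ z ∈ D, ‖g z‖ ≤ M) {v : EuclideanSpace ℂ (Fin n) → ℂ}
    (hv : v ∈ Algebra.adjoin ℂ G) :
    (∃ M : ℝ, ∀ z ∈ D, ‖v z‖ ≤ M) ∧
    ∀ ε > 0, ∃ (t : Set (EuclideanSpace ℂ (Fin n) → ℂ)) (s : ℝ), t.Finite ∧ 0 < s ∧ t ⊆ G ∧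
      ∀ z ∈ D, ∀ w ∈ D, (∀ a ∈ t, ‖a z - a w‖ < s) → ‖v z - v w‖ ≤ ε := by
  induction hv using Algebra.adjoin_induction with
  | mem x hx =>
    refine ⟨hG x hx, fun ε hε => ⟨{x}, ε, finite_singleton x, hε, singleton_subset_iff.2 hx,
      fun z _ w _ h => (h x rfl).le⟩⟩
  | algebraMap c =>
    refine ⟨⟨‖c‖, fun z _ => le_rfl⟩, fun ε hε => ⟨∅, 1, finite_empty, one_pos, empty_subset _,
      fun z _ w _ _ => ?_⟩⟩
    show ‖c - c‖ ≤ ε
    rw [sub_self, norm_zero]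
    exact hε.le
  | add x y _ _ hx hy =>
    obtain ⟨⟨M, hM⟩, hx⟩ := hx
    obtain ⟨⟨K, hK⟩, hy⟩ := hy
    refine ⟨⟨M + K, fun z hz => (norm_add_le _ _).trans (add_le_add (hM z hz) (hK z hz))⟩,
      fun ε hε => ?_⟩
    obtain ⟨t, s, ht, hs, htG, h1⟩ := hx (ε / 2) (half_pos hε)
    obtain ⟨t', s', ht', hs', htG', h1'⟩ := hy (ε / 2) (half_pos hε)
    refine ⟨t ∪ t', min s s', ht.union ht', lt_min hs hs', union_subset htG htG',
      fun z hz w hw h => ?_⟩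
    have h2 := h1 z hz w hw fun a ha => (h a (Or.inl ha)).trans_le (min_le_left _ _)
    have h3 := h1' z hz w hw fun a ha => (h a (Or.inr ha)).trans_le (min_le_right _ _)
    calc ‖(x + y) z - (x + y) w‖ = ‖(x z - x w) + (y z - y w)‖ := by
          congr 1; simp only [Pi.add_apply]; ring
      _ ≤ ‖x z - x w‖ + ‖y z - y w‖ := norm_add_le _ _
      _ ≤ ε := by linarith
  | mul x y _ _ hx hy =>
    obtain ⟨⟨M, hM⟩, hx⟩ := hx
    obtain ⟨⟨K, hK⟩, hy⟩ := hy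
    refine ⟨⟨|M| * |K|, fun z hz => ?_⟩, fun ε hε => ?_⟩
    · rw [Pi.mul_apply, norm_mul]
      exact mul_le_mul ((hM z hz).trans (le_abs_self _)) ((hK z hz).trans (le_abs_self _))
        (norm_nonneg _) (abs_nonneg _)
    obtain ⟨B, hB⟩ : ∃ B : ℝ, B = |M| + |K| + 1 := ⟨_, rfl⟩
    have hB0 : 0 < B := by rw [hB]; positivity
    have hMB : ∀ z ∈ D, ‖x z‖ ≤ B := fun z hz => by
      rw [hB]
      linarith [hM z hz, le_abs_self M, abs_nonneg K]
    have hKB : ∀ z ∈ D, ‖y z‖ ≤ B := fun z hz => by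
      rw [hB]
      linarith [hK z hz, le_abs_self K, abs_nonneg M]
    obtain ⟨t, s, ht, hs, htG, h1⟩ := hx (ε / (2 * B)) (by positivity)
    obtain ⟨t', s', ht', hs', htG', h1'⟩ := hy (ε / (2 * B)) (by positivity)
    refine ⟨t ∪ t', min s s', ht.union ht', lt_min hs hs', union_subset htG htG',
      fun z hz w hw h => ?_⟩
    have h2 := h1 z hz w hw fun a ha => (h a (Or.inl ha)).trans_le (min_le_left _ _)
    have h3 := h1' z hz w hw fun a ha => (h a (Or.inr ha)).trans_le (min_le_right _ _)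
    calc ‖(x * y) z - (x * y) w‖ = ‖(x z - x w) * y z + x w * (y z - y w)‖ := by
          congr 1; simp only [Pi.mul_apply]; ring
      _ ≤ ‖x z - x w‖ * ‖y z‖ + ‖x w‖ * ‖y z - y w‖ := by
          refine (norm_add_le _ _).trans ?_
          rw [norm_mul, norm_mul]
      _ ≤ ε / (2 * B) * B + B * (ε / (2 * B)) := by
          refine add_le_add ?_ ?_
          · exact mul_le_mul h2 (hKB z hz) (norm_nonneg _) (by positivity)
          · exact mul_le_mul (hMB w hw) h3 (norm_nonneg _) hB0.le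
      _ = ε := by field_simp; ring

/-- Finitely many functions. -/
theorem family_uc {D : Set (EuclideanSpace ℂ (Fin n))} {G : Set (EuclideanSpace ℂ (Fin n) → ℂ)}
    (hG : ∀ g ∈ G, ∃ M : ℝ, ∀ z ∈ D, ‖g z‖ ≤ M) {m : ℕ} {v : Fin m → EuclideanSpace ℂ (Fin n) → ℂ}
    (hv : ∀ i, v i ∈ Algebra.adjoin ℂ G) {ε : ℝ} (hε : 0 < ε) :
    ∃ (k : ℕ) (a : Fin k → EuclideanSpace ℂ (Fin n) → ℂ) (s : ℝ), 0 < s ∧ (∀ i, a i ∈ G) ∧
      ∀ z ∈ D, ∀ w ∈ D, (∀ i, ‖a i z - a i w‖ < s) → ∀ i, ‖v i z - v i w‖ ≤ ε := by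
  classical
  choose t s ht hs htG h using fun i => (adjoin_uc hG (hv i)).2 ε hε
  have hfin : (⋃ i, t i).Finite := finite_iUnion ht
  obtain ⟨r, hr, hrs⟩ : ∃ r : ℝ, 0 < r ∧ ∀ i, r ≤ s i := by
    obtain ⟨r, hr⟩ : ∃ r : ℝ, 0 < r ∧ ∀ i ∈ (Finset.univ : Finset (Fin m)), r ≤ s i := by
      generalize (Finset.univ : Finset (Fin m)) = F
      induction F using Finset.induction_on with
      | empty => exact ⟨1, one_pos, fun i hi => absurd hi (Finset.notMem_empty i)⟩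
      | insert a F _ ih =>
        obtain ⟨r, h1, h2⟩ := ih
        refine ⟨min r (s a), lt_min h1 (hs a), fun i hi => ?_⟩
        rcases Finset.mem_insert.mp hi with rfl | hi
        · exact min_le_right _ _
        · exact (min_le_left _ _).trans (h2 i hi)
    exact ⟨r, hr.1, fun i => hr.2 i (Finset.mem_univ i)⟩
  obtain ⟨e⟩ : Nonempty (hfin.toFinset ≃ Fin hfin.toFinset.card) := ⟨hfin.toFinset.equivFin⟩
  refine ⟨hfin.toFinset.card, fun j => (e.symm j : EuclideanSpace ℂ (Fin n) → ℂ), r, hr,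
    fun j => ?_, fun z hz w hw hzw i => h i z hz w hw fun a ha => ?_⟩
  · have h1 := hfin.mem_toFinset.1 (e.symm j).2
    obtain ⟨i, hi⟩ := mem_iUnion.1 h1
    exact htG i hi
  · have h1 : a ∈ hfin.toFinset := hfin.mem_toFinset.2 (mem_iUnion.2 ⟨i, ha⟩)
    have h2 := hzw (e ⟨a, h1⟩)
    beta_reduce at h2
    rw [e.symm_apply_apply] at h2
    exact h2.trans_le (hrs i)

/-- The corona theorem near each boundary point: on each cell of finitely many tame functions the data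
have bounded solutions, or those with `j ∈ J` satisfy the corona condition and are near functions in
the closed algebra generated by the tame functions and all the functions of one map into the disc. -/
theorem cells_solve (hn : 2 ≤ n) {D : Set (EuclideanSpace ℂ (Fin n))}
    (hD : IsStrictlyPscDomain D) {N : ℕ} {f : Fin N → EuclideanSpace ℂ (Fin n) → ℂ}
    (hf : ∀ j, IsHinf D (f j)) {δ : ℝ} (hδ : 0 < δ) (hfδ : ∀ z ∈ D, δ ≤ ∑ j, ‖f j z‖ ^ 2)
    (H : ∀ p ∈ frontier D, ∃ r > 0, ∃ (m : ℕ) (a : Fin m → EuclideanSpace ℂ (Fin n) → ℂ) (s : ℝ),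
      0 < s ∧ (∀ i, a i ∈ TameOn D (ball p r)) ∧ ∀ c : Fin m → ℂ,
        (∃ C, SolvableOn f (cellOn (D ∩ ball p r) a c s) C) ∨
        ∃ (J : Finset (Fin N)) (δ' η : ℝ) (q : Fin N → EuclideanSpace ℂ (Fin n) → ℂ)
          (π : EuclideanSpace ℂ (Fin n) → ℂ),
          4 * N * η ^ 2 < δ' ∧ 0 ≤ η ∧ DifferentiableOn ℂ π (cellOn (D ∩ ball p r) a c s) ∧
          (∀ z ∈ cellOn (D ∩ ball p r) a c s, ‖π z‖ < 1) ∧
          (∀ j ∈ J, q j ∈ ClosedAlgOn (cellOn (D ∩ ball p r) a c s)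
            (TameOn D (ball p r) ∪ HinfOf π)) ∧
          (∀ z ∈ cellOn (D ∩ ball p r) a c s, δ' ≤ ∑ j ∈ J, ‖f j z‖ ^ 2) ∧
          ∀ j ∈ J, ∀ z ∈ cellOn (D ∩ ball p r) a c s, ‖f j z - q j z‖ ≤ η) :
    ∃ C, SolvableOn f D C := by
  classical
  obtain ⟨U, ρ, h, c, hs, hρ⟩ := Pool.Agent.MPca0fc2.LV.support_of_domain hD
  have hρ3 : ContDiffOn ℝ 3 ρ U := hρ.of_le (by exact WithTop.coe_le_coe.2 le_top)
  refine Pool.Agent.MPca0fc2.GW.spideal hn hs hρ3 hf hδ hfδ fun p hp => ?_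
  obtain ⟨r, hr, m, a, s, hs0, ha, hcell⟩ := H p hp
  have hTH : ∀ u ∈ TameOn D (ball p r), IsHinf (D ∩ ball p r) u := by
    rintro u (hu | hu)
    · exact hu.1
    · exact hu.1
  have hsub : ∀ u ∈ TameOn D (ball p r), ∀ c', u ∈ HullOn (cellOn (D ∩ ball p r) a c' s)
      (TameOn D (ball p r)) := fun u hu c' =>
    Pool.Agent.MPca0fc2.FD.hullOn_mono (fun z hz => hz.1) (subset_refl _)
      (Pool.Agent.MPca0fc2.IND.sub_hull hTH hu)
  refine ⟨r, hr, m, a, s, hs0, fun i => Pool.Agent.MPca0fc2.IND.sub_hull hTH (ha i), fun c' =>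
    Or.inr ?_⟩
  have hcD : cellOn (D ∩ ball p r) a c' s ⊆ D := fun z hz => hz.1.1
  rcases hcell c' with ⟨C, g, hg1, hg2, hg3⟩ | ⟨J, δ', η, q, π, hη, hη0, hπ, hπ1, hq, hδ', hfq⟩
  · refine ⟨1, 1, 0, fun _ j => g j, fun _ _ => 1, by norm_num,
      fun _ j => ⟨hg1 j, C, fun z hz => hg2 j z hz⟩, Or.inr ⟨fun _ => 0, differentiableOn_const _,
        fun z _ => by simp, fun _ => ⟨differentiableOn_const _, fun ε hε => ⟨1, one_mem _,
          fun z _ => by simpa using hε.le⟩⟩⟩, fun z hz => ?_, fun _ z hz => ?_⟩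
    · simp only [hg3 z hz]
      simp
    · rw [hg3 z hz, sub_self, norm_zero]
  · have hid : ∀ (i : Fin N) (z), ∑ j, f j z * (if i = j ∧ i ∈ J then (1 : ℂ) else 0) =
        if i ∈ J then f i z else 0 := by
      intro i z
      by_cases hi : i ∈ J
      · simp [hi]
      · simp [hi]
    refine ⟨N, δ', η, fun i j _ => if i = j ∧ i ∈ J then 1 else 0,
      fun i z => if i ∈ J then q i z else 0, hη, fun i j => ⟨differentiableOn_const _, 1,
        fun z hz => ?_⟩, Or.inr ⟨π, hπ, hπ1, fun j => ?_⟩, fun z hz => ?_, fun k z hz => ?_⟩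
    · show ‖(if i = j ∧ i ∈ J then (1 : ℂ) else 0)‖ ≤ 1
      split_ifs <;> simp
    · beta_reduce
      by_cases hj : j ∈ J
      · have e : (fun z => if j ∈ J then q j z else 0) = q j := by
          funext z
          rw [if_pos hj]
        rw [e]
        refine ⟨(hq j hj).1, fun ε hε => ?_⟩
        obtain ⟨v, hv, hv1⟩ := (hq j hj).2 ε hε
        exact ⟨v, Algebra.adjoin_mono (union_subset_union_left _ fun u hu => hsub u hu c') hv, hv1⟩
      · have e : (fun z => if j ∈ J then q j z else 0) = fun _ => 0 := by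
          funext z
          rw [if_neg hj]
        rw [e]
        exact ⟨differentiableOn_const _, fun ε hε => ⟨0, zero_mem _, fun z _ => by
          simpa using hε.le⟩⟩
    · simp only [hid]
      refine (hδ' z hz).trans (le_of_eq ?_)
      rw [← Finset.sum_subset (Finset.subset_univ J) fun j _ hj => by rw [if_neg hj]; simp]
      exact Finset.sum_congr rfl fun j hj => by rw [if_pos hj]
    · rw [hid]
      beta_reduce
      by_cases hk : k ∈ J
      · rw [if_pos hk, if_pos hk]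
        exact hfq k hk z hz
      · rw [if_neg hk, if_neg hk, sub_self, norm_zero]
        exact hη0

end Pool.Agent.MPca0fc2.LD
end

section

/-! Algebras of germs of tame functions. -/

set_option autoImplicit false
set_option linter.unusedSectionVars false

open Metric Set MeasureTheory Filter Topology
open scoped InnerProductSpace ENNReal ContDiff

namespace Pool.Agent.MPca0fc2.LD

open Pool.Agent.Lib.MP_ca0fc2_an

variable {n : ℕ}

/-- `u` is near `p` a uniform limit of functions in the algebras generated by `𝓖 r` -/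
def Near (D : Set (EuclideanSpace ℂ (Fin n))) (p : EuclideanSpace ℂ (Fin n))
    (𝓖 : ℝ → Set (EuclideanSpace ℂ (Fin n) → ℂ)) : Set (EuclideanSpace ℂ (Fin n) → ℂ) :=
  {u | ∀ ε > 0, ∃ r > 0, ∃ v ∈ Algebra.adjoin ℂ (𝓖 r), ∀ z ∈ D ∩ ball p r, ‖u z - v z‖ ≤ ε}

theorem exists_min {m : ℕ} {s : Fin m → ℝ} (hs : ∀ i, 0 < s i) {r₀ : ℝ} (hr₀ : 0 < r₀) :
    ∃ r : ℝ, 0 < r ∧ r < r₀ ∧ ∀ i, r < s i := by
  obtain ⟨r, hr, hr0, h⟩ : ∃ r : ℝ, 0 < r ∧ r < r₀ ∧
      ∀ i ∈ (Finset.univ : Finset (Fin m)), r < s i := by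
    generalize (Finset.univ : Finset (Fin m)) = F
    classical
    induction F using Finset.induction_on with
    | empty => exact ⟨r₀ / 2, by positivity, by linarith, fun i hi =>
        absurd hi (Finset.notMem_empty i)⟩
    | insert a F _ ih =>
      obtain ⟨r, h1, h2, h3⟩ := ih
      have h4 := hs a
      refine ⟨min r (s a / 2), lt_min h1 (by positivity), (min_le_left _ _).trans_lt h2,
        fun i hi => ?_⟩
      rcases Finset.mem_insert.mp hi with rfl | hi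
      · exact (min_le_right _ _).trans_lt (by linarith)
      · exact (min_le_left _ _).trans_lt (h3 i hi)
  exact ⟨r, hr, hr0, fun i => h i (Finset.mem_univ i)⟩

/-- The cells of germs of tame functions contain the cells of tame functions. -/
theorem germ_cells {D : Set (EuclideanSpace ℂ (Fin n))} {p : EuclideanSpace ℂ (Fin n)}
    {𝓖 : ℝ → Set (EuclideanSpace ℂ (Fin n) → ℂ)}
    (h𝓖 : ∀ r r' : ℝ, r' < r → 𝓖 r ⊆ TameOn D (ball p r')) {m : ℕ}
    {u : Fin m → EuclideanSpace ℂ (Fin n) → ℂ} (hu : ∀ i, u i ∈ Near D p 𝓖) {s : ℝ} (hs : 0 < s)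
    {r₀ : ℝ} (hr₀ : 0 < r₀) :
    ∃ r > 0, r < r₀ ∧ ∃ (k : ℕ) (a : Fin k → EuclideanSpace ℂ (Fin n) → ℂ) (s' : ℝ), 0 < s' ∧
      (∀ i, a i ∈ TameOn D (ball p r)) ∧ ∀ c' : Fin k → ℂ, ∃ c : Fin m → ℂ,
        cellOn (D ∩ ball p r) a c' s' ⊆ cellOn (D ∩ ball p r₀) u c s := by
  classical
  choose ρ hρ v hv huv using fun i => hu i (s / 4) (by positivity)
  obtain ⟨r, hr, hr0, hrρ⟩ := exists_min hρ hr₀
  have hTb : ∀ g ∈ TameOn D (ball p r), ∃ M : ℝ, ∀ z ∈ D ∩ ball p r, ‖g z‖ ≤ M := by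
    rintro g (hg | hg)
    · exact hg.1.2
    · exact hg.1.2
  obtain ⟨k, a, s', hs', ha, h⟩ := family_uc hTb (v := v)
    (fun i => Algebra.adjoin_mono (h𝓖 (ρ i) r (hrρ i)) (hv i)) (show 0 < s / 4 by positivity)
  refine ⟨r, hr, hr0, k, a, s' / 2, by positivity, ha, fun c' => ?_⟩
  by_cases hne : (cellOn (D ∩ ball p r) a c' (s' / 2)).Nonempty
  · obtain ⟨w, hw⟩ := hne
    refine ⟨fun i => u i w, fun z hz => ⟨⟨hz.1.1, ball_subset_ball hr0.le hz.1.2⟩, fun i => ?_⟩⟩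
    have h1 := h z hz.1 w hw.1 (fun j => by
      calc ‖a j z - a j w‖ = ‖(a j z - c' j) - (a j w - c' j)‖ := by congr 1; ring
        _ ≤ ‖a j z - c' j‖ + ‖a j w - c' j‖ := norm_sub_le _ _
        _ < s' := by linarith [hz.2 j, hw.2 j]) i
    have h2 := huv i z ⟨hz.1.1, ball_subset_ball (hrρ i).le hz.1.2⟩
    have h3 := huv i w ⟨hw.1.1, ball_subset_ball (hrρ i).le hw.1.2⟩
    calc ‖u i z - u i w‖ = ‖(u i z - v i z) + (v i z - v i w) + -(u i w - v i w)‖ := by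
          congr 1; ring
      _ ≤ ‖u i z - v i z‖ + ‖v i z - v i w‖ + ‖-(u i w - v i w)‖ := norm_add₃_le
      _ < s := by rw [norm_neg]; linarith
  · refine ⟨0, fun z hz => absurd ⟨z, hz⟩ hne⟩

/-- **Localization.** Arbitrary data are solvable if near each boundary point they are solvable on the
cells of germs of tame functions. -/
theorem local_solve (hn : 2 ≤ n) {D : Set (EuclideanSpace ℂ (Fin n))}
    (hD : IsStrictlyPscDomain D) {N : ℕ} {f : Fin N → EuclideanSpace ℂ (Fin n) → ℂ}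
    (hf : ∀ j, IsHinf D (f j)) {δ : ℝ} (hδ : 0 < δ) (hfδ : ∀ z ∈ D, δ ≤ ∑ j, ‖f j z‖ ^ 2)
    {𝓖 : EuclideanSpace ℂ (Fin n) → ℝ → Set (EuclideanSpace ℂ (Fin n) → ℂ)}
    (h𝓖 : ∀ p (r r' : ℝ), r' < r → 𝓖 p r ⊆ TameOn D (ball p r'))
    (H : ∀ p ∈ frontier D, ∃ r > 0, ∃ (m : ℕ) (u : Fin m → EuclideanSpace ℂ (Fin n) → ℂ) (s : ℝ),
      0 < s ∧ (∀ i, u i ∈ Near D p (𝓖 p)) ∧ ∀ c : Fin m → ℂ,
        ∃ C, SolvableOn f (cellOn (D ∩ ball p r) u c s) C) :
    ∃ C, SolvableOn f D C := by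
  refine cells_solve hn hD hf hδ hfδ fun p hp => ?_
  obtain ⟨r₀, hr₀, m, u, s, hs, hu, hcell⟩ := H p hp
  obtain ⟨r, hr, -, k, a, s', hs', ha, h⟩ := germ_cells (h𝓖 p) hu hs hr₀
  refine ⟨r, hr, k, a, s', hs', ha, fun c' => Or.inl ?_⟩
  obtain ⟨c, hc⟩ := h c'
  obtain ⟨C, hC⟩ := hcell c
  exact ⟨C, Pool.Agent.MPca0fc2.CXS.solv_sub hC hc le_rfl⟩

/-- the functions of the algebra with all the functions of one map -/
theorem map_solve (hn : 2 ≤ n) {D : Set (EuclideanSpace ℂ (Fin n))}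
    (hD : IsStrictlyPscDomain D) {N : ℕ} {f : Fin N → EuclideanSpace ℂ (Fin n) → ℂ}
    (hf : ∀ j, IsHinf D (f j)) {δ : ℝ} (hδ : 0 < δ) (hfδ : ∀ z ∈ D, δ ≤ ∑ j, ‖f j z‖ ^ 2)
    {𝓖 : EuclideanSpace ℂ (Fin n) → ℝ → Set (EuclideanSpace ℂ (Fin n) → ℂ)}
    (h𝓖 : ∀ p (r r' : ℝ), r' < r → 𝓖 p r ⊆ TameOn D (ball p r'))
    (H : ∀ p ∈ frontier D, ∃ r > 0, ∃ (π : EuclideanSpace ℂ (Fin n) → ℂ) (J : Finset (Fin N)) (δ' : ℝ),
      DifferentiableOn ℂ π (D ∩ ball p r) ∧ (∀ z ∈ D ∩ ball p r, ‖π z‖ < 1) ∧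
      (∀ j ∈ J, f j ∈ Near D p fun r => 𝓖 p r ∪ HinfOf π) ∧ 0 < δ' ∧
      ∀ z ∈ D ∩ ball p r, δ' ≤ ∑ j ∈ J, ‖f j z‖ ^ 2) :
    ∃ C, SolvableOn f D C := by
  classical
  refine cells_solve hn hD hf hδ hfδ fun p hp => ?_
  obtain ⟨r₀, hr₀, π, J, δ', hπ, hπ1, hfp, hδ', hfδ'⟩ := H p hp
  obtain ⟨η, hη0, hη⟩ : ∃ η > 0, 4 * N * η ^ 2 < δ' := by
    refine ⟨√(δ' / (4 * (N + 1))), Real.sqrt_pos.2 (by positivity), ?_⟩
    rw [Real.sq_sqrt (by positivity)]
    have h1 : (4 : ℝ) * N * (δ' / (4 * (N + 1))) = N / (N + 1) * δ' := by field_simp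
    rw [h1]
    have h2 : (N : ℝ) / (N + 1) < 1 := by
      rw [div_lt_one (by positivity)]
      linarith
    nlinarith
  have hch : ∀ j, ∃ (ρ : ℝ) (v : EuclideanSpace ℂ (Fin n) → ℂ), 0 < ρ ∧ (j ∈ J →
      v ∈ Algebra.adjoin ℂ (𝓖 p ρ ∪ HinfOf π) ∧ ∀ z ∈ D ∩ ball p ρ, ‖f j z - v z‖ ≤ η) := by
    intro j
    by_cases hj : j ∈ J
    · obtain ⟨ρ, hρ, v, h1, h2⟩ := hfp j hj η hη0
      exact ⟨ρ, v, hρ, fun _ => ⟨h1, h2⟩⟩
    · exact ⟨1, 0, one_pos, fun h => absurd h hj⟩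
  choose ρ v hρ hv using hch
  obtain ⟨r, hr, hr0, hrρ⟩ := exists_min hρ hr₀
  have hsub : D ∩ ball p r ⊆ D ∩ ball p r₀ := fun z hz => ⟨hz.1, ball_subset_ball hr0.le hz.2⟩
  refine ⟨r, hr, 0, fun i => i.elim0, 1, one_pos, fun i => i.elim0, fun c => Or.inr ?_⟩
  have hcell : cellOn (D ∩ ball p r) (fun i : Fin 0 => (i.elim0 : EuclideanSpace ℂ (Fin n) → ℂ))
      c 1 ⊆ D ∩ ball p r := fun z hz => hz.1
  have hTd : ∀ g ∈ TameOn D (ball p r), DifferentiableOn ℂ g (D ∩ ball p r) := by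
    rintro g (hg | hg)
    · exact hg.1.1
    · exact hg.1.1
  refine ⟨J, δ', η, v, π, hη, hη0.le, hπ.mono (hcell.trans hsub),
    fun z hz => hπ1 z (hsub (hcell hz)), fun j hj => ?_, fun z hz => hfδ' z (hsub (hcell hz)),
    fun j hj z hz => (hv j hj).2 z ⟨(hcell hz).1, ball_subset_ball (hrρ j).le (hcell hz).2⟩⟩
  have h1 : v j ∈ Algebra.adjoin ℂ (TameOn D (ball p r) ∪ HinfOf π) :=
    Algebra.adjoin_mono (union_subset_union_left _ (h𝓖 p (ρ j) r (hrρ j))) (hv j hj).1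
  refine ⟨?_, fun ε hε => ⟨v j, h1, fun z _ => by rw [sub_self, norm_zero]; exact hε.le⟩⟩
  refine DifferentiableOn.mono ?_ hcell
  generalize v j = w at h1
  induction h1 using Algebra.adjoin_induction with
  | mem x hx =>
    rcases hx with hx | ⟨g, hg, -, hx⟩
    · exact hTd x hx
    · have h2 : DifferentiableOn ℂ (g ∘ π) (D ∩ ball p r) :=
        hg.comp (hπ.mono hsub) fun z hz => mem_ball_zero_iff.2 (hπ1 z (hsub hz))
      exact h2.congr fun z _ => hx z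
  | algebraMap c => exact differentiableOn_const c
  | add x y _ _ hx hy => exact hx.add hy
  | mul x y _ _ hx hy => exact hx.mul hy

/-- near each boundary point one function is arbitrary -/
theorem one_solve (hn : 2 ≤ n) {D : Set (EuclideanSpace ℂ (Fin n))}
    (hD : IsStrictlyPscDomain D) {N : ℕ} {f : Fin N → EuclideanSpace ℂ (Fin n) → ℂ}
    (hf : ∀ j, IsHinf D (f j)) {δ : ℝ} (hδ : 0 < δ) (hfδ : ∀ z ∈ D, δ ≤ ∑ j, ‖f j z‖ ^ 2)
    {𝓖 : EuclideanSpace ℂ (Fin n) → ℝ → Set (EuclideanSpace ℂ (Fin n) → ℂ)}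
    (h𝓖 : ∀ p (r r' : ℝ), r' < r → 𝓖 p r ⊆ TameOn D (ball p r'))
    (H : ∀ p ∈ frontier D, ∃ i, ∀ j, j ≠ i → f j ∈ Near D p (𝓖 p)) :
    ∃ C, SolvableOn f D C := by
  refine map_solve hn hD hf hδ hfδ h𝓖 fun p hp => ?_
  obtain ⟨i, hi⟩ := H p hp
  obtain ⟨M, hM⟩ := (hf i).2
  obtain ⟨c, hc⟩ : ∃ c : ℝ, c = |M| + 1 := ⟨_, rfl⟩
  have hc0 : 0 < c := by rw [hc]; positivity
  have hcc : (c : ℂ) ≠ 0 := by exact_mod_cast hc0.ne'
  refine ⟨1, one_pos, fun z => (c : ℂ)⁻¹ * f i z, Finset.univ, δ,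
    ((hf i).1.mono inter_subset_left).const_mul _, fun z hz => ?_, fun j _ ε hε => ?_, hδ,
    fun z hz => hfδ z hz.1⟩
  · rw [norm_mul, norm_inv, Complex.norm_real, Real.norm_of_nonneg hc0.le, inv_mul_lt_iff₀ hc0,
      mul_one, hc]
    linarith [hM z hz.1, le_abs_self M]
  · by_cases hj : j = i
    · have hmem : f i ∈ HinfOf fun z => (c : ℂ)⁻¹ * f i z := by
        refine ⟨fun x => (c : ℂ) * x, (differentiable_id.const_mul _).differentiableOn,
          ⟨c, fun x hx => ?_⟩, fun z => ?_⟩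
        · rw [norm_mul, Complex.norm_real, Real.norm_of_nonneg hc0.le]
          exact mul_le_of_le_one_right hc0.le (mem_ball_zero_iff.1 hx).le
        · show f i z = (c : ℂ) * ((c : ℂ)⁻¹ * f i z)
          field_simp
      refine ⟨1, one_pos, f i, Algebra.subset_adjoin (Or.inr hmem), fun z _ => ?_⟩
      rw [hj, sub_self, norm_zero]
      exact hε.le
    · obtain ⟨r, hr, v, hv, hv1⟩ := hi j hj ε hε
      exact ⟨r, hr, v, Algebra.adjoin_mono subset_union_left hv, hv1⟩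

end Pool.Agent.MPca0fc2.LD
end
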