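import Mathlib
import Pool.Agent.Lib.MP_ca0fc2_an.Mg.G083

section

/-!
Task CX GeoE: the oscillation of bounded holomorphic functions.
PROOF. Let `q = ‖A a b‖`, `v = b - a`. By `A_lower` `‖v‖² ≤ C q`, `‖pr a v‖ ≤ C q`. For complex `λ`:
`ρ (a + λ v) ≤ ρ a + 2 |λ| ‖pr a v‖ + L |λ|² ‖v‖² ≤ C (|λ| + |λ|²) q` as long as `‖λ v‖ ≤ 1` (`exists_L
(R+1)`). Let `Λ = c (t / q)^(1/2)` with a small constant `c ≤ 1`. If `q ≤ c² t` (so `Λ ≥ 1`): for
`|λ| < Λ`: `|λ| q ≤ c √(t q) ≤ c t`, `|λ|² q ≤ c² t`, so `ρ (a + λ v) ≤ 2 C c t < c' t / 16`, hence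
`g (a + λ v) < 1 + t / 16` (`g_out` if `ρ ≥ 0`, `g_le_one` otherwise; strictness: fine), and
`‖λ v‖ ≤ 1`. The function `λ ↦ G (a + λ v)` is holomorphic and bounded by `B` on the disc of radius
`Λ`, so `‖G (a + v) - G a‖ ≤ 2 B / Λ` (Schwarz lemma: `Complex.dist_le_div_mul_dist_of_mapsTo_ball`)
`= (2 B / c) (q / t)^(1/2) ≤ (2B/c) (q/t)^(1/4)`. If `q > c² t`: `‖G a - G b‖ ≤ 2 B ≤
2 B c^(-1/2) (q/t)^(1/4)`. (If `q = 0` then `a = b`.)
-/

set_option autoImplicit false

open Metric Set MeasureTheory Filter Topology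
open scoped ComplexOrder

namespace Pool.Agent.MPca0fc2.CX

namespace Dm

variable {n : ℕ} (𝓓 : Dm n)

/-- The oscillation of bounded holomorphic functions in terms of `A`. -/
theorem osc : ∃ C : ℝ, 1 ≤ C ∧ ∀ (t : ℝ) (G : En n → ℂ) (B : ℝ), 0 < t → t ≤ 1 → 0 ≤ B →
    DifferentiableOn ℂ G {w | 𝓓.g w < 1 + t / 16} → (∀ w, 𝓓.g w < 1 + t / 16 → ‖G w‖ ≤ B) →
    ∀ a b, 𝓓.ρ a ≤ 0 → 𝓓.ρ b ≤ 0 →
      ‖G a - G b‖ ≤ C * B * (‖𝓓.A a b‖ / t) ^ (1 / 4 : ℝ) := by
  obtain ⟨C1, hC1, hA⟩ := 𝓓.A_lower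
  obtain ⟨R, hR, hRb⟩ := 𝓓.exists_R
  obtain ⟨L, hL, hLb⟩ := 𝓓.exists_L (R + 1)
  obtain ⟨c', hc', hout⟩ := 𝓓.g_out
  -- the small constant
  obtain ⟨c, hc0, hc1, hc2, hc3⟩ : ∃ c : ℝ, 0 < c ∧ c ≤ 1 ∧ c ^ 2 * C1 ≤ 1 ∧
      c ^ 2 * ((2 + L) * C1) ≤ c' / 32 := by
    obtain ⟨e, he⟩ : ∃ e : ℝ, e = min (1 / C1) (c' / 32 / ((2 + L) * C1)) := ⟨_, rfl⟩
    have hC1p : 0 < C1 := by linarith
    have hp : 0 < (2 + L) * C1 := by positivity
    have he0 : 0 < e := by
      rw [he]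
      exact lt_min (by positivity) (by positivity)
    refine ⟨min 1 (Real.sqrt e), lt_min one_pos (Real.sqrt_pos.2 he0), min_le_left _ _, ?_, ?_⟩
    · have h1 : (min 1 (Real.sqrt e)) ^ 2 ≤ e := by
        have h2 : (min 1 (Real.sqrt e)) ^ 2 ≤ (Real.sqrt e) ^ 2 :=
          pow_le_pow_left₀ (le_min zero_le_one (Real.sqrt_nonneg _)) (min_le_right _ _) 2
        rwa [Real.sq_sqrt he0.le] at h2
      have h2 : e ≤ 1 / C1 := by rw [he]; exact min_le_left _ _
      calc (min 1 (Real.sqrt e)) ^ 2 * C1 ≤ (1 / C1) * C1 :=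
            mul_le_mul_of_nonneg_right (h1.trans h2) hC1p.le
        _ = 1 := by field_simp
    · have h1 : (min 1 (Real.sqrt e)) ^ 2 ≤ e := by
        have h2 : (min 1 (Real.sqrt e)) ^ 2 ≤ (Real.sqrt e) ^ 2 :=
          pow_le_pow_left₀ (le_min zero_le_one (Real.sqrt_nonneg _)) (min_le_right _ _) 2
        rwa [Real.sq_sqrt he0.le] at h2
      have h2 : e ≤ c' / 32 / ((2 + L) * C1) := by rw [he]; exact min_le_right _ _
      calc (min 1 (Real.sqrt e)) ^ 2 * ((2 + L) * C1) ≤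
            (c' / 32 / ((2 + L) * C1)) * ((2 + L) * C1) :=
            mul_le_mul_of_nonneg_right (h1.trans h2) hp.le
        _ = c' / 32 := div_mul_cancel₀ _ hp.ne'
  refine ⟨3 / c, by rw [le_div_iff₀ hc0]; linarith, ?_⟩
  intro t G B ht ht1 hB hG hGB a b ha hb
  have hin : ∀ w, 𝓓.ρ w ≤ 0 → 𝓓.g w < 1 + t / 16 := fun w hw =>
    lt_of_le_of_lt ((𝓓.g_le_one w).2 hw) (by linarith)
  have htriv : ‖G a - G b‖ ≤ 2 * B := by
    refine (norm_sub_le _ _).trans ?_
    linarith [hGB a (hin a ha), hGB b (hin b hb)]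
  obtain ⟨-, -, k1, -, -, k2⟩ := hA a b ha hb
  obtain ⟨q, hq⟩ : ∃ q, q = ‖𝓓.A a b‖ := ⟨_, rfl⟩
  rw [← hq] at k1 k2 ⊢
  have hq0 : 0 ≤ q := by rw [hq]; exact norm_nonneg _
  rcases hq0.eq_or_lt with h0 | hqp
  · rw [← h0, mul_zero] at k1
    have h1 : ‖a - b‖ = 0 := by
      have := norm_nonneg (a - b)
      nlinarith
    have h2 : a = b := sub_eq_zero.1 (norm_eq_zero.1 h1)
    rw [h2, sub_self, norm_zero]
    positivity
  rcases hB.eq_or_lt with hB0 | hBp
  · rw [← hB0] at htriv ⊢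
    simpa using htriv
  obtain ⟨x, hx⟩ : ∃ x, x = q / t := ⟨_, rfl⟩
  have hxp : 0 < x := by rw [hx]; positivity
  have hxt : x * t = q := by rw [hx]; field_simp
  rw [← hx]
  have hx4 : 0 < x ^ (1 / 4 : ℝ) := Real.rpow_pos_of_pos hxp _
  by_cases hbig : c ^ 2 ≤ x
  · -- trivial bound
    have h1 : c ≤ x ^ (1 / 4 : ℝ) := by
      have h2 : (c ^ 2) ^ (1 / 4 : ℝ) ≤ x ^ (1 / 4 : ℝ) :=
        Real.rpow_le_rpow (by positivity) hbig (by norm_num)
      refine le_trans ?_ h2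
      have h3 : (c ^ 2) ^ (1 / 4 : ℝ) = c ^ (1 / 2 : ℝ) := by
        rw [← Real.rpow_natCast, ← Real.rpow_mul hc0.le]
        norm_num
      rw [h3]
      have h4 := Real.rpow_le_rpow_of_exponent_ge hc0 hc1 (show (1 / 2 : ℝ) ≤ 1 by norm_num)
      rwa [Real.rpow_one] at h4
    refine htriv.trans ?_
    have h2 : 3 / c * B * c ≤ 3 / c * B * x ^ (1 / 4 : ℝ) :=
      mul_le_mul_of_nonneg_left h1 (by positivity)
    have h3 : 3 / c * B * c = 3 * B := by field_simp
    linarith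
  · -- Schwarz lemma
    rw [not_le] at hbig
    obtain ⟨s, hs⟩ : ∃ s, s = Real.sqrt x := ⟨_, rfl⟩
    have hsp : 0 < s := by rw [hs]; exact Real.sqrt_pos.2 hxp
    have hs2 : s ^ 2 = x := by rw [hs]; exact Real.sq_sqrt hxp.le
    have hsc : s < c := by
      rw [hs]
      exact (Real.sqrt_lt' hc0).2 hbig
    obtain ⟨Λ, hΛ⟩ : ∃ Λ, Λ = c / s := ⟨_, rfl⟩
    have hΛp : 0 < Λ := by rw [hΛ]; positivity
    have hΛs : Λ * s = c := by rw [hΛ]; field_simp
    have hΛ1 : 1 < Λ := by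
      rw [hΛ, lt_div_iff₀ hsp]
      linarith
    obtain ⟨v, hv⟩ : ∃ v, v = b - a := ⟨_, rfl⟩
    have hvn : ‖v‖ ^ 2 ≤ C1 * q := by
      rw [hv, norm_sub_rev]
      exact k1
    have hprv : ‖𝓓.pr a v‖ ≤ C1 * q := by
      have : 𝓓.pr a v = -𝓓.pr a (a - b) := by
        unfold pr
        rw [← Finset.sum_neg_distrib]
        refine Finset.sum_congr rfl fun j _ => ?_
        rw [hv, PiLp.sub_apply, PiLp.sub_apply]
        ring
      rw [this, norm_neg]
      exact k2
    have hmem : ∀ l : ℂ, ‖l‖ < Λ → 𝓓.g (a + l • v) < 1 + t / 16 := by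
      intro l hl
      have hl0 := norm_nonneg l
      have hls : ‖l‖ * s < c := by
        rw [← hΛs]
        exact mul_lt_mul_of_pos_right hl hsp
      have hls2 : ‖l‖ ^ 2 * x ≤ c ^ 2 := by
        rw [← hs2, ← mul_pow]
        exact pow_le_pow_left₀ (by positivity) hls.le 2
      have hl2q : ‖l‖ ^ 2 * q ≤ c ^ 2 * t := by
        rw [← hxt, ← mul_assoc]
        exact mul_le_mul_of_nonneg_right hls2 ht.le
      have hlq : ‖l‖ * q ≤ c ^ 2 * t := by
        rw [← hxt, ← hs2]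
        have h1 : ‖l‖ * (s ^ 2 * t) = (‖l‖ * s) * (s * t) := by ring
        rw [h1]
        have h2 : (‖l‖ * s) * (s * t) ≤ c * (c * t) :=
          mul_le_mul hls.le (mul_le_mul_of_nonneg_right hsc.le ht.le) (by positivity) hc0.le
        linarith
      have hlv : ‖l • v‖ ≤ 1 := by
        have h1 : ‖l • v‖ ^ 2 ≤ 1 := by
          rw [norm_smul, mul_pow]
          calc ‖l‖ ^ 2 * ‖v‖ ^ 2 ≤ ‖l‖ ^ 2 * (C1 * q) :=
                mul_le_mul_of_nonneg_left hvn (by positivity)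
            _ = C1 * (‖l‖ ^ 2 * q) := by ring
            _ ≤ C1 * (c ^ 2 * t) := mul_le_mul_of_nonneg_left hl2q (by linarith)
            _ = (c ^ 2 * C1) * t := by ring
            _ ≤ 1 * 1 := mul_le_mul hc2 ht1 ht.le zero_le_one
            _ = 1 := one_mul 1
        have h2 := norm_nonneg (l • v)
        nlinarith
      have haR := hRb a ha
      have hw1 : ‖a + l • v‖ ≤ R + 1 := (norm_add_le _ _).trans (by linarith)
      obtain ⟨-, -, -, -, -, -, h7⟩ := hLb (a + l • v) a hw1 (by linarith)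
      rw [add_sub_cancel_left] at h7
      have h8 := (abs_le.1 h7).2
      have h9 : fderiv ℝ 𝓓.ρ a (l • v) ≤ 2 * (‖l‖ * (C1 * q)) := by
        rw [𝓓.fderiv_pr]
        have h10 : 𝓓.pr a (l • v) = l * 𝓓.pr a v := by
          unfold pr
          rw [Finset.mul_sum]
          refine Finset.sum_congr rfl fun j _ => ?_
          rw [PiLp.smul_apply, smul_eq_mul]
          ring
        have h11 : (𝓓.pr a (l • v)).re ≤ ‖l‖ * (C1 * q) := by
          refine (Complex.re_le_norm _).trans ?_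
          rw [h10, norm_mul]
          exact mul_le_mul_of_nonneg_left hprv hl0
        linarith
      have h12 : L * ‖l • v‖ ^ 2 ≤ L * (C1 * (‖l‖ ^ 2 * q)) := by
        refine mul_le_mul_of_nonneg_left ?_ (by linarith)
        rw [norm_smul, mul_pow]
        calc ‖l‖ ^ 2 * ‖v‖ ^ 2 ≤ ‖l‖ ^ 2 * (C1 * q) :=
              mul_le_mul_of_nonneg_left hvn (by positivity)
          _ = C1 * (‖l‖ ^ 2 * q) := by ring
      have h13 : 𝓓.ρ (a + l • v) ≤ c' / 32 * t := by
        have h14 : 2 * (C1 * (‖l‖ * q)) ≤ 2 * (C1 * (c ^ 2 * t)) :=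
          mul_le_mul_of_nonneg_left (mul_le_mul_of_nonneg_left hlq (by linarith)) (by norm_num)
        have h15 : L * (C1 * (‖l‖ ^ 2 * q)) ≤ L * (C1 * (c ^ 2 * t)) :=
          mul_le_mul_of_nonneg_left (mul_le_mul_of_nonneg_left hl2q (by linarith)) (by linarith)
        have h16 : c ^ 2 * ((2 + L) * C1) * t ≤ c' / 32 * t :=
          mul_le_mul_of_nonneg_right hc3 ht.le
        have h17 : 2 * (‖l‖ * (C1 * q)) = 2 * (C1 * (‖l‖ * q)) := by ring
        have h18 : c ^ 2 * ((2 + L) * C1) * t = 2 * (C1 * (c ^ 2 * t)) +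
            L * (C1 * (c ^ 2 * t)) := by ring
        linarith
      by_cases hr : 𝓓.ρ (a + l • v) ≤ 0
      · exact hin _ hr
      · rw [not_le] at hr
        have h19 := hout _ hr.le
        have h20 : c' * (𝓓.g (a + l • v) - 1) ≤ c' * (t / 32) := by
          calc c' * (𝓓.g (a + l • v) - 1) ≤ c' / 32 * t := h19.trans h13
            _ = c' * (t / 32) := by ring
        have h21 := le_of_mul_le_mul_left h20 hc'
        linarith
    have hdiff : DifferentiableOn ℂ (fun l : ℂ => G (a + l • v)) (ball 0 Λ) := by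
      refine hG.comp (f := fun l : ℂ => a + l • v) ?_ ?_
      · exact ((differentiable_id.smul_const v).const_add a).differentiableOn
      · intro l hl
        rw [mem_ball_zero_iff] at hl
        exact hmem l hl
    have hmaps : MapsTo (fun l : ℂ => G (a + l • v)) (ball 0 Λ)
        (closedBall ((fun l : ℂ => G (a + l • v)) 0) (3 * B)) := by
      intro l hl
      rw [mem_ball_zero_iff] at hl
      rw [mem_closedBall, dist_eq_norm]
      refine (norm_sub_le _ _).trans ?_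
      have h1 := hGB _ (hmem l hl)
      have h2 := hGB _ (hmem 0 (by rw [norm_zero]; exact hΛp))
      linarith
    have h1 := Complex.dist_le_div_mul_dist_of_mapsTo_ball hdiff hmaps
      (z := 1) (by rw [mem_ball_zero_iff, norm_one]; exact hΛ1)
    have h2 : a + (1 : ℂ) • v = b := by rw [one_smul, hv]; abel
    have h3 : a + (0 : ℂ) • v = a := by rw [zero_smul, add_zero]
    simp only [h2, h3] at h1
    rw [dist_eq_norm, dist_zero_right, norm_one, mul_one, norm_sub_rev] at h1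
    refine h1.trans ?_
    have h4 : 3 * B / Λ = 3 / c * B * s := by
      rw [hΛ]
      field_simp
    rw [h4]
    refine mul_le_mul_of_nonneg_left ?_ (by positivity)
    rw [hs, Real.sqrt_eq_rpow]
    have hx1 : x ≤ 1 := by nlinarith
    exact Real.rpow_le_rpow_of_exponent_ge hxp hx1 (by norm_num)

end Dm

end Pool.Agent.MPca0fc2.CX
end

section

/-!
Task CX EndB: the mean value property on ellipsoids.
PROOF. Put `k v = (max (r² - h v) 0)^(m+1)`, `h = (hf H ·).re`, continuous with compact support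
(`hf_lower`). Translate: the left side is `∫ Φ (z + v) k v dv`. For `φ` real the map
`v ↦ exp(iφ) v` preserves the measure (`LinearIsometryEquiv`, `LinearIsometry.measurePreserving`) and
`h` (`hf_smul`), so `∫ Φ (z + v) k v dv = ∫ Φ (z + exp(iφ) v) k v dv` for all `φ`. Average over
`φ ∈ [0, 2π]` and exchange (Fubini; the integrand is bounded, has bounded support, and is measurable:
`Φ (z + ·)` is continuous on the open set where `k ≠ 0`): the inner mean is
`(1/2π) ∫ Φ (z + exp(iφ) v) dφ = Φ z` by the mean value property in one variable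
(`circleAverage`/`circleIntegral`; `λ ↦ Φ (z + λ v)` is holomorphic on the disc `{|λ|² h v < r²}` of
radius `> 1` if `k v ≠ 0`). (There are similar lemmas for balls in the Lib files `SDBergN`, `SLKer2`.)
-/

set_option autoImplicit false

open Metric Set MeasureTheory Filter Topology
open scoped ComplexOrder

namespace Pool.Agent.MPca0fc2.CX

variable {n : ℕ}

/-- Rotations preserve the volume. -/
theorem endB_mp {c : ℂ} (hc : ‖c‖ = 1) :
    MeasurePreserving (fun y : En n => c • y) volume volume := by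
  have hc0 : c ≠ 0 := by
    intro h; rw [h, norm_zero] at hc; exact one_ne_zero hc.symm
  let U : En n ≃ₗᵢ[ℝ] En n :=
    { ((LinearEquiv.smulOfNeZero ℂ (En n) c hc0).restrictScalars ℝ) with
      norm_map' := fun y => by
        show ‖c • y‖ = ‖y‖
        rw [norm_smul, hc, one_mul] }
  exact (U.measurePreserving : MeasurePreserving U volume volume)

/-- The weighted mean value property of holomorphic functions on a balanced open set. -/
theorem endB_mean {S : Set (En n)} (hSo : IsOpen S) (hSf : volume S < ⊤)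
    (hS : ∀ c : ℂ, ‖c‖ ≤ 1 → ∀ v ∈ S, c • v ∈ S) {W : En n → ℝ} {ψ : En n → ℂ} {M MW : ℝ}
    (hW : Continuous W) (hWr : ∀ c : ℂ, ‖c‖ = 1 → ∀ v, W (c • v) = W v)
    (hMW : ∀ v ∈ S, ‖W v‖ ≤ MW)
    (hψ : DifferentiableOn ℂ ψ S) (hM : ∀ y ∈ S, ‖ψ y‖ ≤ M) :
    ∫ y in S, ψ y * (W y : ℂ) = ((∫ y in S, W y : ℝ) : ℂ) * ψ 0 := by
  rcases S.eq_empty_or_nonempty with hS0 | ⟨v0, hv0⟩
  · rw [hS0]; simp
  have hM0 : 0 ≤ M := (norm_nonneg _).trans (hM v0 hv0)
  have hSm : MeasurableSet S := hSo.measurableSet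
  have hrot : ∀ θ : ℝ, ∫ y in S, ψ (circleMap 0 1 θ • y) * (W y : ℂ) =
      ∫ y in S, ψ y * (W y : ℂ) := by
    intro θ
    have hc : ‖circleMap 0 1 θ‖ = 1 := by simp [circleMap]
    have hc0 : circleMap 0 1 θ ≠ 0 := by
      intro h; rw [h, norm_zero] at hc; exact one_ne_zero hc.symm
    have hmp := endB_mp (n := n) hc
    have hpre : (fun y : En n => circleMap 0 1 θ • y) ⁻¹' S = S := by
      ext y
      constructor
      · intro hy
        have := hS (circleMap 0 1 θ)⁻¹ (by rw [norm_inv, hc, inv_one]) _ hy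
        rwa [smul_smul, inv_mul_cancel₀ hc0, one_smul] at this
      · intro hy
        exact hS _ hc.le _ hy
    have hemb : MeasurableEmbedding (fun y : En n => circleMap 0 1 θ • y) :=
      (Homeomorph.smulOfNeZero _ hc0 : En n ≃ₜ En n).measurableEmbedding
    have := hmp.setIntegral_preimage_emb hemb (fun y => ψ y * (W y : ℂ)) S
    rw [hpre] at this
    rw [← this]
    apply setIntegral_congr_fun hSm
    intro y _
    simp only [hWr _ hc]
  have hswap : ∫ θ in (0 : ℝ)..(2 * Real.pi), ∫ y in S,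
      ψ (circleMap 0 1 θ • y) * (W y : ℂ) =
      ∫ y in S, (∫ θ in (0 : ℝ)..(2 * Real.pi),
        ψ (circleMap 0 1 θ • y) * (W y : ℂ)) := by
    have h2pi : (0 : ℝ) ≤ 2 * Real.pi := by positivity
    simp only [intervalIntegral.integral_of_le h2pi]
    apply integral_integral_swap
    have hfin : IsFiniteMeasure ((volume.restrict (Ioc (0 : ℝ) (2 * Real.pi))).prod
        ((volume : Measure (En n)).restrict S)) := by
      have : IsFiniteMeasure (volume.restrict (Ioc (0 : ℝ) (2 * Real.pi))) :=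
        ⟨by rw [Measure.restrict_apply_univ]; exact measure_Ioc_lt_top⟩
      have : IsFiniteMeasure ((volume : Measure (En n)).restrict S) :=
        ⟨by rw [Measure.restrict_apply_univ]; exact hSf⟩
      infer_instance
    have hmap : ∀ θ : ℝ, ∀ y ∈ S, circleMap 0 1 θ • y ∈ S := by
      intro θ y hy
      exact hS _ (by simp [circleMap]) _ hy
    have hcont : ContinuousOn (Function.uncurry fun (θ : ℝ) (y : En n) =>
        ψ (circleMap 0 1 θ • y) * (W y : ℂ))
        (Ioc (0 : ℝ) (2 * Real.pi) ×ˢ S) := by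
      apply ContinuousOn.mul
      · apply hψ.continuousOn.comp
        · apply Continuous.continuousOn
          exact ((continuous_circleMap 0 1).comp continuous_fst).smul continuous_snd
        · rintro ⟨θ, y⟩ ⟨_, hy⟩
          exact hmap θ y hy
      · apply Continuous.continuousOn
        exact Complex.continuous_ofReal.comp (hW.comp continuous_snd)
    rw [Measure.prod_restrict]
    rw [Measure.prod_restrict] at hfin
    refine Integrable.mono' (g := fun _ => M * MW) (integrable_const _)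
      (hcont.aestronglyMeasurable (measurableSet_Ioc.prod hSm)) ?_
    refine (ae_restrict_iff' (measurableSet_Ioc.prod hSm)).mpr
      (Eventually.of_forall ?_)
    rintro ⟨θ, y⟩ ⟨_, hy⟩
    show ‖ψ (circleMap 0 1 θ • y) * (W y : ℂ)‖ ≤ M * MW
    rw [norm_mul, Complex.norm_real]
    exact mul_le_mul (hM _ (hmap θ y hy)) (hMW y hy) (norm_nonneg _) hM0
  have hmean : ∀ y ∈ S, ∫ θ in (0 : ℝ)..(2 * Real.pi),
      ψ (circleMap 0 1 θ • y) * (W y : ℂ) = (2 * Real.pi : ℝ) • ((W y : ℂ) * ψ 0) := by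
    intro y hy
    have hd : DiffContOnCl ℂ (fun t : ℂ => ψ (t • y)) (ball 0 |1|) := by
      rw [abs_one]
      have hd' : DifferentiableOn ℂ (fun t : ℂ => ψ (t • y)) {t | t • y ∈ S} := by
        apply hψ.comp
        · exact (differentiable_id.smul_const y).differentiableOn
        · intro t ht
          exact ht
      refine hd'.diffContOnCl_ball ?_
      intro t ht
      rw [mem_closedBall_zero_iff] at ht
      exact hS t ht y hy
    have h := hd.circleAverage
    rw [Real.circleAverage_def] at h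
    simp only [zero_smul] at h
    rw [← h, intervalIntegral.integral_mul_const, Complex.real_smul, Complex.real_smul]
    have hp : (Real.pi : ℂ) ≠ 0 := by exact_mod_cast Real.pi_ne_zero
    push_cast
    field_simp
  have h1 : ∫ θ in (0 : ℝ)..(2 * Real.pi), ∫ y in S,
      ψ (circleMap 0 1 θ • y) * (W y : ℂ) =
      (2 * Real.pi : ℝ) • ∫ y in S, ψ y * (W y : ℂ) := by
    simp only [hrot, intervalIntegral.integral_const, sub_zero]
  rw [h1, setIntegral_congr_fun hSm hmean, integral_smul] at hswap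
  have h2 : (2 * Real.pi : ℝ) ≠ 0 := by positivity
  have h3 := congrArg (fun t => (2 * Real.pi : ℝ)⁻¹ • t) hswap
  simp only [smul_smul, inv_mul_cancel₀ h2, one_smul] at h3
  rw [h3, integral_mul_const, integral_complex_ofReal]

/-- The mean value property on ellipsoids. -/
theorem ell_mean {H : Matrix (Fin n) (Fin n) ℂ} (hH : H.PosDef) {r : ℝ} (hr : 0 < r) (m : ℕ)
    {z : En n} {Φ : En n → ℂ}
    (hΦ : DifferentiableOn ℂ Φ {w | (hf H (w - z)).re < r ^ 2})
    (hb : ∃ M : ℝ, ∀ w, (hf H (w - z)).re < r ^ 2 → ‖Φ w‖ ≤ M) :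
    ∫ w, Φ w * (((max (r ^ 2 - (hf H (w - z)).re) 0) ^ (m + 1) : ℝ) : ℂ) =
      Φ z * ((∫ w, (max (r ^ 2 - (hf H (w - z)).re) 0) ^ (m + 1) : ℝ) : ℂ) := by
  obtain ⟨M, hM⟩ := hb
  obtain ⟨c, hc, hlow⟩ := hf_lower hH
  have hfc : Continuous fun v : En n => (hf H v).re := by
    apply Complex.continuous_re.comp
    unfold hf
    fun_prop
  have hnn : ∀ v : En n, 0 ≤ (hf H v).re := fun v =>
    le_trans (mul_nonneg hc.le (sq_nonneg _)) (hlow v)
  have hsm : ∀ (a : ℂ) (v : En n), (hf H (a • v)).re = ‖a‖ ^ 2 * (hf H v).re := by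
    intro a v
    rw [hf_smul, Complex.re_ofReal_mul]
  set S : Set (En n) := {v | (hf H v).re < r ^ 2} with hSdef
  set W : En n → ℝ := fun v => (max (r ^ 2 - (hf H v).re) 0) ^ (m + 1) with hWdef
  have hSo : IsOpen S := isOpen_lt hfc continuous_const
  have hSb : Bornology.IsBounded S := by
    rw [isBounded_iff_forall_norm_le]
    refine ⟨√(r ^ 2 / c), fun v hv => ?_⟩
    apply Real.le_sqrt_of_sq_le
    rw [le_div_iff₀ hc]
    have h1 := hlow v
    have h2 : (hf H v).re < r ^ 2 := hv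
    nlinarith
  have hWc : Continuous W := by
    rw [hWdef]
    exact ((continuous_const.sub hfc).max continuous_const).pow _
  have key := endB_mean (S := S) (W := W) (ψ := fun v => Φ (v + z)) (M := M)
    (MW := (r ^ 2) ^ (m + 1)) hSo hSb.measure_lt_top ?_ hWc ?_ ?_ ?_ ?_
  · have hz : ∀ v, v ∉ S → W v = 0 := by
      intro v hv
      have h1 : r ^ 2 ≤ (hf H v).re := not_lt.mp hv
      rw [hWdef]
      simp only
      rw [max_eq_right (by linarith), zero_pow (Nat.succ_ne_zero m)]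
    have e1 : ∫ w, Φ w * (((max (r ^ 2 - (hf H (w - z)).re) 0) ^ (m + 1) : ℝ) : ℂ) =
        ∫ y in S, Φ (y + z) * (W y : ℂ) := by
      rw [setIntegral_eq_integral_of_forall_compl_eq_zero
        (fun v hv => by rw [hz v hv]; simp)]
      rw [← integral_sub_right_eq_self (fun y => Φ (y + z) * (W y : ℂ)) z]
      simp only [sub_add_cancel, hWdef]
    have e2 : ∫ w, (max (r ^ 2 - (hf H (w - z)).re) 0) ^ (m + 1) = ∫ y in S, W y := by
      rw [setIntegral_eq_integral_of_forall_compl_eq_zero (fun v hv => hz v hv)]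
      rw [← integral_sub_right_eq_self W z]
    rw [e1, key, e2, zero_add, mul_comm]
  · intro a ha v hv
    show (hf H (a • v)).re < r ^ 2
    rw [hsm]
    have h2 : (hf H v).re < r ^ 2 := hv
    have h3 : ‖a‖ ^ 2 ≤ 1 := pow_le_one₀ (norm_nonneg _) ha
    have h4 := hnn v
    nlinarith
  · intro a ha v
    rw [hWdef]
    simp only
    rw [hsm, ha]
    simp
  · intro v hv
    rw [hWdef]
    simp only
    rw [norm_pow]
    apply pow_le_pow_left₀ (norm_nonneg _)
    rw [Real.norm_eq_abs, abs_of_nonneg (le_max_right _ _)]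
    apply max_le
    · have := hnn v
      linarith
    · positivity
  · apply hΦ.comp
    · exact (differentiable_id.add_const z).differentiableOn
    · intro v hv
      show (hf H (v + z - z)).re < r ^ 2
      rw [add_sub_cancel_right]
      exact hv
  · intro v hv
    apply hM
    rw [add_sub_cancel_right]
    exact hv

end Pool.Agent.MPca0fc2.CX
end

section

/-!
Task CX EndC: the mass for a ball.
PROOF. Translate (`integral_sub_right_eq_self`), scale `w = r v` (`Measure.integral_comp_smul`,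
real dimension `2 n`: `finrank ℝ (En n) = 2 * n`), `max (r² - r²‖v‖²) 0 = r² max (1 - ‖v‖²) 0`, and
the last integral is over the unit ball.
-/

set_option autoImplicit false

open Metric Set MeasureTheory Filter Topology
open scoped ComplexOrder

namespace Pool.Agent.MPca0fc2.CX

variable {n : ℕ}

theorem endC_finrank : Module.finrank ℝ (En n) = 2 * n := by
  rw [← Module.finrank_mul_finrank ℝ ℂ (En n), Complex.finrank_real_complex,
    finrank_euclideanSpace_fin]

theorem endC_unit (m : ℕ) :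
    ∫ v : En n, (max (1 - ‖v‖ ^ 2) 0) ^ (m + 1) = Dm.kap n (m + 1) := by
  unfold Dm.kap
  rw [← integral_indicator measurableSet_ball]
  congr 1
  funext v
  by_cases hv : v ∈ ball (0 : En n) 1
  · rw [indicator_of_mem hv]
    have h1 : ‖v‖ < 1 := by simpa using hv
    have h2 : 0 ≤ 1 - ‖v‖ ^ 2 := by nlinarith [norm_nonneg v]
    rw [max_eq_left h2]
  · rw [indicator_of_notMem hv]
    have h1 : 1 ≤ ‖v‖ := by simpa using hv
    have h2 : 1 - ‖v‖ ^ 2 ≤ 0 := by nlinarith [norm_nonneg v]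
    rw [max_eq_right h2, zero_pow (Nat.succ_ne_zero m)]

/-- The mass for a ball. -/
theorem ball_mass {r : ℝ} (hr : 0 < r) (m : ℕ) (z : En n) :
    ∫ w, (max (r ^ 2 - ‖w - z‖ ^ 2) 0) ^ (m + 1) = r ^ (2 * (m + 1 + n)) * Dm.kap n (m + 1) := by
  rw [integral_sub_right_eq_self (fun w : En n => (max (r ^ 2 - ‖w‖ ^ 2) 0) ^ (m + 1)) z]
  have h1 := Measure.integral_comp_smul (volume : Measure (En n))
    (fun w : En n => (max (r ^ 2 - ‖w‖ ^ 2) 0) ^ (m + 1)) r
  rw [endC_finrank, smul_eq_mul] at h1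
  have h2 : ∀ v : En n, (max (r ^ 2 - ‖r • v‖ ^ 2) 0) ^ (m + 1) =
      r ^ (2 * (m + 1)) * (max (1 - ‖v‖ ^ 2) 0) ^ (m + 1) := by
    intro v
    have h3 : r ^ 2 - ‖r • v‖ ^ 2 = r ^ 2 * (1 - ‖v‖ ^ 2) := by
      rw [norm_smul, Real.norm_of_nonneg hr.le, mul_pow]
      ring
    have h4 : max (r ^ 2 * (1 - ‖v‖ ^ 2)) 0 = r ^ 2 * max (1 - ‖v‖ ^ 2) 0 := by
      rw [mul_max_of_nonneg _ _ (sq_nonneg r), mul_zero]
    rw [h3, h4, mul_pow, ← pow_mul]
  have h5 : ∫ v : En n, (max (r ^ 2 - ‖r • v‖ ^ 2) 0) ^ (m + 1) =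
      r ^ (2 * (m + 1)) * Dm.kap n (m + 1) := by
    rw [integral_congr_ae (Filter.Eventually.of_forall h2), integral_const_mul, endC_unit]
  rw [h5] at h1
  have h6 : |(r ^ (2 * n))⁻¹| = (r ^ (2 * n))⁻¹ := abs_of_pos (by positivity)
  rw [h6] at h1
  have h7 : r ^ (2 * n) ≠ 0 := by positivity
  have h8 : ∫ w : En n, (max (r ^ 2 - ‖w‖ ^ 2) 0) ^ (m + 1) =
      r ^ (2 * n) * (r ^ (2 * (m + 1)) * Dm.kap n (m + 1)) := by
    rw [h1]
    field_simp
  rw [h8]
  ring

end Pool.Agent.MPca0fc2.CX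
end

section

/-!
Task CX TRA: the anisotropic cut-off.
PROOFS. `c0_facts`: `Real.smoothTransition` is smooth, `0` for `x ≤ 0` and `1` for `1 ≤ x`; the
derivative is continuous and vanishes outside of `[1, 4]`. `hf_HR`: expand; `∑_j ∑_k p_j conj p_k v_j
conj v_k = ‖∑ p_j v_j‖²`. `HR_posDef`: `Matrix.PosDef` of `R⁻¹ • 1` plus a positive semidefinite rank one
matrix (`Matrix.posSemidef_vecMulVec_self_star`..) or directly from `hf_HR`. `cut_facts`: `hf` is a
real polynomial map; support: `hf_lower`/`hf_HR` (`‖v‖² ≤ R hf`). On the open sets `{h < ε²}` and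
`{h > 4 ε²}` the function is locally constant. `db_cut`: `db_comp_real`, and
`db k (h (· - z)) w = ∑_j H_jk (w_j - z_j)`.
-/

set_option autoImplicit false

open Metric Set MeasureTheory Filter Topology
open scoped ComplexOrder

namespace Pool.Agent.MPca0fc2.CX

/-- The cut-off on the line: `1` for `x ≤ 1` and `0` for `4 ≤ x`. -/
noncomputable def c0 (x : ℝ) : ℝ := Real.smoothTransition ((4 - x) / 3)

theorem c0_facts : ContDiff ℝ 2 c0 ∧ (∀ x, 0 ≤ c0 x ∧ c0 x ≤ 1) ∧ (∀ x, x ≤ 1 → c0 x = 1) ∧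
    (∀ x, 4 ≤ x → c0 x = 0) ∧ ∃ L : ℝ, 0 ≤ L ∧ ∀ x, |deriv c0 x| ≤ L := by
  have h1 : ContDiff ℝ 2 c0 := by
    unfold c0
    have h : ContDiff ℝ ((2 : ℕ∞) : WithTop ℕ∞) Real.smoothTransition :=
      Real.smoothTransition.contDiff
    exact h.comp ((contDiff_const.sub contDiff_id).div_const 3)
  have h2 : ∀ x, x ≤ 1 → c0 x = 1 := by
    intro x hx
    unfold c0
    exact Real.smoothTransition.one_of_one_le (by rw [le_div_iff₀ (by norm_num)]; linarith)
  have h3 : ∀ x, 4 ≤ x → c0 x = 0 := by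
    intro x hx
    unfold c0
    exact Real.smoothTransition.zero_of_nonpos (div_nonpos_of_nonpos_of_nonneg (by linarith)
      (by norm_num))
  refine ⟨h1, fun x => ⟨Real.smoothTransition.nonneg _, Real.smoothTransition.le_one _⟩, h2, h3, ?_⟩
  have hc : Continuous (deriv c0) := h1.continuous_deriv (by norm_num)
  obtain ⟨L, hL⟩ := (isCompact_Icc (a := (1 : ℝ)) (b := 4)).exists_bound_of_continuousOn
    hc.continuousOn
  refine ⟨max L 0, le_max_right _ _, fun x => ?_⟩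
  by_cases hx1 : x < 1
  · have h4 : c0 =ᶠ[𝓝 x] fun _ => 1 := by
      filter_upwards [Iio_mem_nhds hx1] with y hy using h2 y (le_of_lt hy)
    rw [h4.deriv_eq]
    simp
  · by_cases hx4 : 4 < x
    · have h4 : c0 =ᶠ[𝓝 x] fun _ => 0 := by
        filter_upwards [Ioi_mem_nhds hx4] with y hy using h3 y (le_of_lt hy)
      rw [h4.deriv_eq]
      simp
    · exact (hL x ⟨not_lt.1 hx1, not_lt.1 hx4⟩).trans (le_max_left _ _)

namespace Dm

variable {n : ℕ} (𝓓 : Dm n)

/-- the matrix of the form `|v|² / R + |∂ρ (z) · v|² / R²` -/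
noncomputable def HR (z : En n) (R : ℝ) : Matrix (Fin n) (Fin n) ℂ :=
  Matrix.of fun j k => (if j = k then ((R⁻¹ : ℝ) : ℂ) else 0) +
    dz j (fun y => (𝓓.ρ y : ℂ)) z * (starRingEnd ℂ) (dz k (fun y => (𝓓.ρ y : ℂ)) z) *
      ((R ^ 2)⁻¹ : ℝ)

theorem hf_HR (z : En n) (R : ℝ) (v : En n) :
    hf (𝓓.HR z R) v = ((‖v‖ ^ 2 / R + ‖𝓓.pr z v‖ ^ 2 / R ^ 2 : ℝ) : ℂ) := by
  have e1 : ((‖v‖ ^ 2 : ℝ) : ℂ) = ∑ j, v j * (starRingEnd ℂ) (v j) := by
    rw [EuclideanSpace.norm_sq_eq]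
    push_cast
    refine Finset.sum_congr rfl fun j _ => ?_
    rw [Complex.mul_conj, Complex.normSq_eq_norm_sq]
    push_cast
    rfl
  have e2 : ((‖𝓓.pr z v‖ ^ 2 : ℝ) : ℂ) = 𝓓.pr z v * (starRingEnd ℂ) (𝓓.pr z v) := by
    rw [Complex.mul_conj, Complex.normSq_eq_norm_sq]
  have e3 : ((‖v‖ ^ 2 / R + ‖𝓓.pr z v‖ ^ 2 / R ^ 2 : ℝ) : ℂ) =
      ((‖v‖ ^ 2 : ℝ) : ℂ) * ((R⁻¹ : ℝ) : ℂ) + ((‖𝓓.pr z v‖ ^ 2 : ℝ) : ℂ) *
        (((R ^ 2)⁻¹ : ℝ) : ℂ) := by
    push_cast
    ring
  rw [e3, e1, e2]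
  unfold hf HR pr
  rw [map_sum, Finset.sum_mul_sum, Finset.sum_mul, Finset.sum_mul, ← Finset.sum_add_distrib]
  refine Finset.sum_congr rfl fun j _ => ?_
  rw [Finset.sum_mul]
  have e4 : v j * (starRingEnd ℂ) (v j) * ((R⁻¹ : ℝ) : ℂ) =
      ∑ k, (if j = k then ((R⁻¹ : ℝ) : ℂ) else 0) * v j * (starRingEnd ℂ) (v k) := by
    rw [Finset.sum_eq_single j]
    · rw [if_pos rfl]
      ring
    · intro k _ hk
      rw [if_neg (Ne.symm hk)]
      ring
    · intro h
      exact absurd (Finset.mem_univ j) h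
  rw [e4, ← Finset.sum_add_distrib]
  refine Finset.sum_congr rfl fun k _ => ?_
  rw [Matrix.of_apply, map_mul]
  ring

theorem HR_posDef (z : En n) {R : ℝ} (hR : 0 < R) : (𝓓.HR z R).PosDef := by
  obtain ⟨p, hp⟩ : ∃ p : Fin n → ℂ, p = fun j => dz j (fun y => (𝓓.ρ y : ℂ)) z *
    ((R⁻¹ : ℝ) : ℂ) := ⟨_, rfl⟩
  have e : 𝓓.HR z R = Matrix.diagonal (fun _ => ((R⁻¹ : ℝ) : ℂ)) +
      Matrix.vecMulVec p (star p) := by
    ext j k
    rw [HR, Matrix.of_apply, Matrix.add_apply, Matrix.diagonal_apply, Matrix.vecMulVec_apply, hp]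
    congr 1
    simp only [Pi.star_apply, RCLike.star_def, map_mul, Complex.conj_ofReal]
    push_cast
    ring
  rw [e]
  refine Matrix.PosDef.add_posSemidef (Matrix.PosDef.diagonal fun _ => ?_)
    (Matrix.posSemidef_vecMulVec_self_star p)
  exact_mod_cast inv_pos.2 hR

/-- the cut-off -/
noncomputable def cut (z : En n) (R ε : ℝ) (w : En n) : ℝ :=
  c0 ((hf (𝓓.HR z R) (w - z)).re / ε ^ 2)

theorem tra_smooth (z : En n) (R : ℝ) :
    ContDiff ℝ 1 fun w : En n => (hf (𝓓.HR z R) (w - z)).re := by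
  have h1 : (fun w : En n => (hf (𝓓.HR z R) (w - z)).re) =
      fun w : En n => ‖w - z‖ ^ 2 / R + ‖𝓓.pr z (w - z)‖ ^ 2 / R ^ 2 := by
    funext w
    rw [hf_HR, Complex.ofReal_re]
  rw [h1]
  have h2 : ContDiff ℝ 1 fun w : En n => 𝓓.pr z (w - z) := by
    unfold pr
    refine ContDiff.sum fun j _ => contDiff_const.mul ?_
    have h3 : ContDiff ℝ 1 fun w : En n => w j :=
      ((EuclideanSpace.proj j : En n →L[ℂ] ℂ).restrictScalars ℝ).contDiff
    exact h3.sub contDiff_const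
  exact (((contDiff_id.sub contDiff_const).norm_sq ℝ).div_const R).add
    ((h2.norm_sq ℝ).div_const (R ^ 2))

theorem cut_facts (z : En n) {R ε : ℝ} (hR : 0 < R) (hε : 0 < ε) :
    ContDiff ℝ 1 (𝓓.cut z R ε) ∧ HasCompactSupport (𝓓.cut z R ε) ∧
    (∀ w, 0 ≤ 𝓓.cut z R ε w ∧ 𝓓.cut z R ε w ≤ 1) ∧
    (∀ w, (hf (𝓓.HR z R) (w - z)).re ≤ ε ^ 2 → 𝓓.cut z R ε w = 1) ∧
    (∀ w, 4 * ε ^ 2 ≤ (hf (𝓓.HR z R) (w - z)).re → 𝓓.cut z R ε w = 0) ∧
    tsupport (𝓓.cut z R ε) ⊆ {w | (hf (𝓓.HR z R) (w - z)).re ≤ 4 * ε ^ 2} ∧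
    (∀ w k, (hf (𝓓.HR z R) (w - z)).re < ε ^ 2 ∨ 4 * ε ^ 2 < (hf (𝓓.HR z R) (w - z)).re →
      db k (fun y => (𝓓.cut z R ε y : ℂ)) w = 0) := by
  obtain ⟨f1, f2, f3, f4, -⟩ := c0_facts
  have hs := 𝓓.tra_smooth z R
  have hcont : Continuous fun w : En n => (hf (𝓓.HR z R) (w - z)).re := hs.continuous
  have hε2 : 0 < ε ^ 2 := by positivity
  have g1 : ∀ w, (hf (𝓓.HR z R) (w - z)).re ≤ ε ^ 2 → 𝓓.cut z R ε w = 1 := fun w hw =>
    f3 _ ((div_le_one hε2).2 hw)
  have g2 : ∀ w, 4 * ε ^ 2 ≤ (hf (𝓓.HR z R) (w - z)).re → 𝓓.cut z R ε w = 0 := fun w hw =>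
    f4 _ ((le_div_iff₀ hε2).2 hw)
  refine ⟨?_, ?_, fun w => f2 _, g1, g2, ?_, ?_⟩
  · have f1' : ContDiff ℝ 1 c0 := f1.of_le (by norm_num)
    exact f1'.comp (hs.div_const (ε ^ 2))
  · refine HasCompactSupport.intro (isCompact_closedBall z (Real.sqrt (4 * ε ^ 2 * R))) ?_
    intro w hw
    refine g2 w ?_
    rw [hf_HR, Complex.ofReal_re]
    rw [Metric.mem_closedBall, not_le, dist_eq_norm] at hw
    have h1 : 4 * ε ^ 2 * R ≤ ‖w - z‖ ^ 2 := by
      exact le_of_lt ((Real.sqrt_lt' (lt_of_le_of_lt (Real.sqrt_nonneg _) hw)).1 hw)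
    have h2 : 4 * ε ^ 2 ≤ ‖w - z‖ ^ 2 / R := (le_div_iff₀ hR).2 h1
    have h3 : 0 ≤ ‖𝓓.pr z (w - z)‖ ^ 2 / R ^ 2 := by positivity
    linarith
  · refine closure_minimal ?_ (isClosed_le hcont continuous_const)
    intro w hw
    rw [Set.mem_ofPred_eq]
    by_contra h
    exact hw (g2 w (le_of_lt (not_le.1 h)))
  · intro w k h
    rcases h with h | h
    · have h1 : (fun y => (𝓓.cut z R ε y : ℂ)) =ᶠ[𝓝 w] fun _ => 1 := by
        filter_upwards [hcont.continuousAt.preimage_mem_nhds (Iio_mem_nhds h)] with y hy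
        rw [g1 y (le_of_lt hy), Complex.ofReal_one]
      rw [db_congr k h1, db_const]
    · have h1 : (fun y => (𝓓.cut z R ε y : ℂ)) =ᶠ[𝓝 w] fun _ => 0 := by
        filter_upwards [hcont.continuousAt.preimage_mem_nhds (Ioi_mem_nhds h)] with y hy
        rw [g2 y (le_of_lt hy), Complex.ofReal_zero]
      rw [db_congr k h1, db_const]

theorem tra_db (z : En n) (R : ℝ) (w : En n) (k : Fin n) :
    db k (fun y => hf (𝓓.HR z R) (y - z)) w =
      (w k - z k) / R + 𝓓.pr z (w - z) *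
          (starRingEnd ℂ) (dz k (fun y => (𝓓.ρ y : ℂ)) z) / R ^ 2 := by
  have hd : ∀ j : Fin n, DifferentiableAt ℝ (fun y : En n => y j - z j) w := by
    intro j
    have h3 : DifferentiableAt ℝ (fun y : En n => y j) w :=
      ((EuclideanSpace.proj j : En n →L[ℂ] ℂ).restrictScalars ℝ).differentiableAt
    exact h3.sub_const _
  have hdc : ∀ j : Fin n, DifferentiableAt ℝ (fun y : En n => (starRingEnd ℂ) (y j - z j)) w :=
    fun j => Complex.conjCLE.differentiableAt.comp w (hd j)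
  have e1 : (fun y : En n => hf (𝓓.HR z R) (y - z)) =
      fun y => ∑ j, ∑ l, 𝓓.HR z R j l * ((y j - z j) * (starRingEnd ℂ) (y l - z l)) := by
    funext y
    unfold hf
    refine Finset.sum_congr rfl fun j _ => Finset.sum_congr rfl fun l _ => ?_
    rw [PiLp.sub_apply, PiLp.sub_apply]
    ring
  have hm : ∀ j l : Fin n, DifferentiableAt ℝ (fun y : En n =>
      (y j - z j) * (starRingEnd ℂ) (y l - z l)) w := fun j l => (hd j).mul (hdc l)
  have hm' : ∀ j l : Fin n, DifferentiableAt ℝ (fun y : En n =>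
      𝓓.HR z R j l * ((y j - z j) * (starRingEnd ℂ) (y l - z l))) w :=
    fun j l => (hm j l).const_mul _
  have hm'' : ∀ j : Fin n, DifferentiableAt ℝ (fun y : En n =>
      ∑ l, 𝓓.HR z R j l * ((y j - z j) * (starRingEnd ℂ) (y l - z l))) w :=
    fun j => DifferentiableAt.fun_sum fun l _ => hm' j l
  rw [e1, db_sum (F := fun (j : Fin n) (y : En n) =>
      ∑ l, 𝓓.HR z R j l * ((y j - z j) * (starRingEnd ℂ) (y l - z l))) k (fun j _ => hm'' j)]
  have e2 : ∀ j : Fin n, db k (fun y : En n => ∑ l, 𝓓.HR z R j l *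
      ((y j - z j) * (starRingEnd ℂ) (y l - z l))) w = 𝓓.HR z R j k * (w j - z j) := by
    intro j
    rw [db_sum (F := fun (l : Fin n) (y : En n) =>
      𝓓.HR z R j l * ((y j - z j) * (starRingEnd ℂ) (y l - z l))) k (fun l _ => hm' j l)]
    rw [Finset.sum_eq_single k]
    · rw [db_const_mul k _ (hm j k), db_mul k (hd j) (hdc k), db_coord,
        db_conj_coord, if_pos rfl]
      ring
    · intro l _ hl
      rw [db_const_mul k _ (hm j l), db_mul k (hd j) (hdc l), db_coord,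
        db_conj_coord, if_neg hl]
      ring
    · intro h
      exact absurd (Finset.mem_univ k) h
  rw [Finset.sum_congr rfl fun j _ => e2 j]
  have e3 : ∀ j : Fin n, 𝓓.HR z R j k * (w j - z j) =
      (if j = k then (w k - z k) / R else 0) + dz j (fun y => (𝓓.ρ y : ℂ)) z * (w - z) j *
        ((starRingEnd ℂ) (dz k (fun y => (𝓓.ρ y : ℂ)) z) / R ^ 2) := by
    intro j
    unfold HR
    rw [Matrix.of_apply, PiLp.sub_apply]
    by_cases h : j = k
    · rw [if_pos h, if_pos h, h]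
      push_cast
      ring
    · rw [if_neg h, if_neg h]
      push_cast
      ring
  rw [Finset.sum_congr rfl fun j _ => e3 j, Finset.sum_add_distrib, ← Finset.sum_mul]
  rw [Finset.sum_ite_eq' Finset.univ k, if_pos (Finset.mem_univ k)]
  unfold pr
  ring

theorem db_cut (z : En n) {R ε : ℝ} (hR : 0 < R) (hε : 0 < ε) (w : En n) (k : Fin n) :
    db k (fun y => (𝓓.cut z R ε y : ℂ)) w =
      (deriv c0 ((hf (𝓓.HR z R) (w - z)).re / ε ^ 2) / ε ^ 2 : ℝ) *
        ((w k - z k) / R + 𝓓.pr z (w - z) *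
          (starRingEnd ℂ) (dz k (fun y => (𝓓.ρ y : ℂ)) z) / R ^ 2) := by
  have hs : DifferentiableAt ℝ (fun w : En n => (hf (𝓓.HR z R) (w - z)).re) w :=
    (𝓓.tra_smooth z R).differentiable (by norm_num) w
  have h1 : HasDerivAt c0 (deriv c0 ((hf (𝓓.HR z R) (w - z)).re / ε ^ 2))
      ((hf (𝓓.HR z R) (w - z)).re / ε ^ 2) :=
    (c0_facts.1.differentiable (by norm_num) _).hasDerivAt
  have hs' : DifferentiableAt ℝ (fun y : En n => (hf (𝓓.HR z R) (y - z)).re / ε ^ 2) w := by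
    simp only [div_eq_mul_inv]
    exact hs.mul_const _
  have h2 := db_comp_real (F := fun y : En n => (hf (𝓓.HR z R) (y - z)).re / ε ^ 2) (w := w) k h1
    hs'
  have h3 : (fun y : En n => (((hf (𝓓.HR z R) (y - z)).re / ε ^ 2 : ℝ) : ℂ)) =
      fun y => (((ε ^ 2)⁻¹ : ℝ) : ℂ) * hf (𝓓.HR z R) (y - z) := by
    funext y
    rw [hf_HR, Complex.ofReal_re]
    push_cast
    ring
  have h5 : DifferentiableAt ℝ (fun y : En n => hf (𝓓.HR z R) (y - z)) w := by
    have : (fun y : En n => hf (𝓓.HR z R) (y - z)) =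
        fun y => (((hf (𝓓.HR z R) (y - z)).re : ℝ) : ℂ) := by
      funext y
      rw [hf_HR, Complex.ofReal_re]
    rw [this]
    exact Complex.ofRealCLM.differentiableAt.comp w hs
  have h4 : db k (fun y : En n => (((hf (𝓓.HR z R) (y - z)).re / ε ^ 2 : ℝ) : ℂ)) w =
      (((ε ^ 2)⁻¹ : ℝ) : ℂ) * ((w k - z k) / R + 𝓓.pr z (w - z) *
          (starRingEnd ℂ) (dz k (fun y => (𝓓.ρ y : ℂ)) z) / R ^ 2) := by
    rw [h3, db_const_mul k _ h5, tra_db]
  have h6 : db k (fun y => (𝓓.cut z R ε y : ℂ)) w =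
      ((deriv c0 ((hf (𝓓.HR z R) (w - z)).re / ε ^ 2) : ℝ) : ℂ) *
        db k (fun y : En n => (((hf (𝓓.HR z R) (y - z)).re / ε ^ 2 : ℝ) : ℂ)) w := h2
  rw [h6, h4]
  push_cast
  ring

end Dm

end Pool.Agent.MPca0fc2.CX
end
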