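import Mathlib
import Pool.Agent.Lib.MP_ca0fc2_an.Mg.G077
import Pool.Agent.Lib.MP_ca0fc2_an.Mg.G078
import Pool.Agent.Lib.MP_ca0fc2_an.Mg.G084
import Pool.Agent.Lib.MP_ca0fc2_an.Mg.G083
import Pool.Agent.Lib.MP_ca0fc2_an.Holo
import Pool.Agent.Lib.MP_ca0fc2_an.Mg.G082

section

/-! Campaign EQ, task C1: a set `D` with a `C²` boundary near a point `P` which is farthest from a point `a` is strictly convex near `P`,
and `z ↦ ⟨P - a, P - z⟩` is a peak function. -/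

set_option autoImplicit false

open Metric Set Filter Topology

namespace Pool.Agent.MPca0fc2.EQ

open Pool.Agent.MPca0fc2.TB (En PK)

variable {n : ℕ}

/-- Taylor's formula of the second order with Peano's remainder. -/
theorem C1_taylor {E : Type*} [NormedAddCommGroup E] [NormedSpace ℝ E] {ρ : E → ℝ} {p : E}
    (hρ : ContDiffAt ℝ 2 ρ p) :
    (∀ u v, fderiv ℝ (fderiv ℝ ρ) p u v = fderiv ℝ (fderiv ℝ ρ) p v u) ∧
    ∀ ε > 0, ∃ s > 0, ∀ z, ‖z - p‖ < s →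
      |ρ z - ρ p - fderiv ℝ ρ p (z - p) - (1 / 2) * fderiv ℝ (fderiv ℝ ρ) p (z - p) (z - p)|
        ≤ ε * ‖z - p‖ ^ 2 := by
  set L := fderiv ℝ ρ p with hL
  set g : E → ℝ := fun z => ρ z - L (z - p) with hg
  have hlin : ∀ z, HasFDerivAt (fun z => L (z - p)) L z := by
    intro z
    have h1 : HasFDerivAt (fun z : E => z - p) (ContinuousLinearMap.id ℝ E) z :=
      (hasFDerivAt_id z).sub_const p
    have h2 : HasFDerivAt (L ∘ fun z : E => z - p) (L.comp (ContinuousLinearMap.id ℝ E)) z :=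
      L.hasFDerivAt.comp z h1
    rw [ContinuousLinearMap.comp_id] at h2
    exact h2
  have hlc : ContDiff ℝ 2 (fun z => L (z - p)) := L.contDiff.comp (contDiff_id.sub contDiff_const)
  have hgc : ContDiffAt ℝ 2 g p := hρ.sub hlc.contDiffAt
  have hev : ∀ᶠ z in 𝓝 p, DifferentiableAt ℝ ρ z := by
    have h3 := hρ.eventually (by simp)
    filter_upwards [h3] with z hz
    exact hz.differentiableAt (by norm_num)
  have hfd : (fderiv ℝ g) =ᶠ[𝓝 p] fun z => fderiv ℝ ρ z - L := by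
    filter_upwards [hev] with z hz
    exact (hz.hasFDerivAt.sub (hlin z)).fderiv
  have h0 : fderiv ℝ g p = 0 := by
    rw [hfd.eq_of_nhds, ← hL, sub_self]
  have h2 : fderiv ℝ (fderiv ℝ g) p = fderiv ℝ (fderiv ℝ ρ) p := by
    rw [hfd.fderiv_eq, fderiv_sub_const]
  obtain ⟨h3, h4⟩ := Pool.Agent.MPca0fc2.TB.taylor2 hgc h0
  rw [h2] at h3 h4
  refine ⟨h3, fun ε hε => ?_⟩
  obtain ⟨s, hs, h5⟩ := h4 ε hε
  refine ⟨s, hs, fun z hz => ?_⟩
  have h6 := h5 z hz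
  have h7 : g z - g p = ρ z - ρ p - L (z - p) := by
    simp only [hg, sub_self, map_zero]
    ring
  rwa [h7] at h6

/-- The real part of the inner product with a fixed vector. -/
private noncomputable def C1_l (u : En n) : En n →L[ℝ] ℝ :=
  Complex.reCLM.comp ((innerSL ℂ u).restrictScalars ℝ)

private theorem C1_l_apply (u v : En n) : C1_l u v = (inner ℂ u v : ℂ).re := rfl

private theorem C1_norm (u v : En n) : ‖u + v‖ ^ 2 = ‖u‖ ^ 2 + 2 * C1_l u v + ‖v‖ ^ 2 :=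
  norm_add_sq (𝕜 := ℂ) u v

private theorem C1_self (u : En n) : C1_l u u = ‖u‖ ^ 2 := inner_self_eq_norm_sq (𝕜 := ℂ) u

private theorem C1_symm (u v : En n) : C1_l u v = C1_l v u := inner_re_symm (𝕜 := ℂ) u v

private theorem C1_le (u v : En n) : |C1_l u v| ≤ ‖u‖ * ‖v‖ :=
  (Complex.abs_re_le_norm _).trans (norm_inner_le_norm u v)

/-- The curve argument. -/
private theorem C1_key {D : Set (En n)} {P a : En n} {R r : ℝ} (hPa : ‖P - a‖ = R)
    (hD : ∀ z ∈ D, ‖z - a‖ ≤ R) (hr : 0 < r) {ρ : En n → ℝ}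
    (hρ : ContDiffOn ℝ 2 ρ (ball P r)) (hρ0 : ρ P = 0) (hloc : ∀ z ∈ ball P r, ρ z < 0 → z ∈ D)
    (v x : En n) (hv : C1_l (P - a) v = 0) (hLv : fderiv ℝ ρ P v = 0)
    (hx : 0 < 2 * C1_l (P - a) x + ‖v‖ ^ 2) :
    0 ≤ fderiv ℝ ρ P x + (1 / 2) * fderiv ℝ (fderiv ℝ ρ) P v v := by
  by_contra hneg
  rw [not_le] at hneg
  set L := fderiv ℝ ρ P with hL
  set Q := fderiv ℝ (fderiv ℝ ρ) P with hQ
  obtain ⟨ε, hε, hε2⟩ : ∃ ε > 0, L x + (1 / 2) * Q v v + ε * ‖v‖ ^ 2 < 0 := by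
    have hd : 0 < 2 * (‖v‖ ^ 2 + 1) := by positivity
    refine ⟨-(L x + (1 / 2) * Q v v) / (2 * (‖v‖ ^ 2 + 1)), div_pos (neg_pos.2 hneg) hd, ?_⟩
    have h1 : -(L x + (1 / 2) * Q v v) / (2 * (‖v‖ ^ 2 + 1)) * ‖v‖ ^ 2 <
        -(L x + (1 / 2) * Q v v) := by
      rw [div_mul_eq_mul_div, div_lt_iff₀ hd]
      have h2 : 0 < -(L x + (1 / 2) * Q v v) := neg_pos.2 hneg
      have h3 : ‖v‖ ^ 2 < 2 * (‖v‖ ^ 2 + 1) := by nlinarith [sq_nonneg ‖v‖]
      exact mul_lt_mul_of_pos_left h3 h2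
    linarith
  obtain ⟨-, htay⟩ := C1_taylor (hρ.contDiffAt (ball_mem_nhds P hr))
  obtain ⟨s, hs, htay⟩ := htay ε hε
  have e1 : ∀ᶠ t : ℝ in 𝓝 0, L x + (1 / 2) * Q (v + t • x) (v + t • x) + ε * ‖v + t • x‖ ^ 2 < 0 := by
    have hc : ContinuousAt (fun t : ℝ => L x + (1 / 2) * Q (v + t • x) (v + t • x) +
        ε * ‖v + t • x‖ ^ 2) 0 := by
      fun_prop
    have := hc.eventually_lt (g := fun _ => 0) continuousAt_const (by simpa using hε2)
    exact this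
  have e2 : ∀ᶠ t : ℝ in 𝓝 0, 0 < 2 * C1_l (P - a) x + ‖v + t • x‖ ^ 2 := by
    have hc : ContinuousAt (fun t : ℝ => 2 * C1_l (P - a) x + ‖v + t • x‖ ^ 2) 0 := by
      fun_prop
    exact hc.eventually_const_lt (by simpa using hx)
  have e3 : ∀ᶠ t : ℝ in 𝓝 0, ‖t • (v + t • x)‖ < min s r := by
    have hc : ContinuousAt (fun t : ℝ => ‖t • (v + t • x)‖) 0 := by
      fun_prop
    exact hc.eventually_lt continuousAt_const (by simpa using lt_min hs hr)
  obtain ⟨δ, hδ, hδ2⟩ := Metric.eventually_nhds_iff.1 (e1.and (e2.and e3))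
  have ht0 : 0 < δ / 2 := by positivity
  obtain ⟨f1, f2, f3⟩ := hδ2 (y := δ / 2) (by
    rw [Real.dist_eq, sub_zero, abs_of_pos ht0]
    linarith)
  set t := δ / 2 with ht
  set h := t • (v + t • x) with hh
  have hz : P + h - P = h := add_sub_cancel_left _ _
  have g1 := htay (P + h) (by rw [hz]; exact lt_of_lt_of_le f3 (min_le_left _ _))
  rw [hz, hρ0] at g1
  have hLh : L h = t ^ 2 * L x := by
    rw [hh, map_smul, map_add, map_smul, hLv]
    simp only [smul_eq_mul]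
    ring
  have hQh : Q h h = t ^ 2 * Q (v + t • x) (v + t • x) := by
    rw [hh, map_smul, map_smul]
    simp only [smul_apply, smul_eq_mul]
    ring
  have hnh : ‖h‖ ^ 2 = t ^ 2 * ‖v + t • x‖ ^ 2 := by
    rw [hh, norm_smul, Real.norm_of_nonneg ht0.le, mul_pow]
  rw [hLh, hQh, hnh] at g1
  have g2 := (abs_le.1 g1).2
  have ht2 : 0 < t ^ 2 := by positivity
  have g3 : ρ (P + h) < 0 := by
    have : t ^ 2 * (L x + (1 / 2) * Q (v + t • x) (v + t • x) + ε * ‖v + t • x‖ ^ 2) < 0 :=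
      mul_neg_of_pos_of_neg ht2 f1
    linarith
  have g4 : P + h ∈ D := hloc _ (by
    rw [mem_ball, dist_eq_norm, hz]
    exact lt_of_lt_of_le f3 (min_le_right _ _)) g3
  have g5 := hD _ g4
  have g6 : P + h - a = (P - a) + h := by abel
  have g7 : ‖P + h - a‖ ^ 2 = R ^ 2 + 2 * C1_l (P - a) h + ‖h‖ ^ 2 := by
    rw [g6, C1_norm, hPa]
  have hlh : C1_l (P - a) h = t ^ 2 * C1_l (P - a) x := by
    rw [hh, map_smul, map_add, map_smul, hv]
    simp only [smul_eq_mul]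
    ring
  rw [hlh, hnh] at g7
  have g8 : 0 < t ^ 2 * (2 * C1_l (P - a) x + ‖v + t • x‖ ^ 2) := mul_pos ht2 f2
  have g9 : ‖P + h - a‖ ^ 2 ≤ R ^ 2 := pow_le_pow_left₀ (norm_nonneg _) g5 2
  linarith

/-- The line argument. -/
private theorem C1_key1 {D : Set (En n)} {P a : En n} {R r : ℝ} (hPa : ‖P - a‖ = R)
    (hD : ∀ z ∈ D, ‖z - a‖ ≤ R) (hr : 0 < r) {ρ : En n → ℝ}
    (hρ : ContDiffOn ℝ 2 ρ (ball P r)) (hρ0 : ρ P = 0) (hloc : ∀ z ∈ ball P r, ρ z < 0 → z ∈ D)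
    (v : En n) (hv : 0 < C1_l (P - a) v) : 0 ≤ fderiv ℝ ρ P v := by
  by_contra hneg
  rw [not_le] at hneg
  set L := fderiv ℝ ρ P with hL
  set Q := fderiv ℝ (fderiv ℝ ρ) P with hQ
  obtain ⟨-, htay⟩ := C1_taylor (hρ.contDiffAt (ball_mem_nhds P hr))
  obtain ⟨s, hs, htay⟩ := htay 1 one_pos
  have e1 : ∀ᶠ t : ℝ in 𝓝 0, L v + t * ((1 / 2) * Q v v + ‖v‖ ^ 2) < 0 := by
    have hc : ContinuousAt (fun t : ℝ => L v + t * ((1 / 2) * Q v v + ‖v‖ ^ 2)) 0 := by
      fun_prop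
    exact hc.eventually_lt continuousAt_const (by simpa using hneg)
  have e3 : ∀ᶠ t : ℝ in 𝓝 0, ‖t • v‖ < min s r := by
    have hc : ContinuousAt (fun t : ℝ => ‖t • v‖) 0 := by
      fun_prop
    exact hc.eventually_lt continuousAt_const (by simpa using lt_min hs hr)
  obtain ⟨δ, hδ, hδ2⟩ := Metric.eventually_nhds_iff.1 (e1.and e3)
  have ht0 : 0 < δ / 2 := by positivity
  obtain ⟨f1, f3⟩ := hδ2 (y := δ / 2) (by
    rw [Real.dist_eq, sub_zero, abs_of_pos ht0]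
    linarith)
  set t := δ / 2 with ht
  have hz : P + t • v - P = t • v := add_sub_cancel_left _ _
  have g1 := htay (P + t • v) (by rw [hz]; exact lt_of_lt_of_le f3 (min_le_left _ _))
  rw [hz, hρ0] at g1
  have hLh : L (t • v) = t * L v := by
    rw [map_smul, smul_eq_mul]
  have hQh : Q (t • v) (t • v) = t ^ 2 * Q v v := by
    rw [map_smul, map_smul]
    simp only [smul_apply, smul_eq_mul]
    ring
  have hnh : ‖t • v‖ ^ 2 = t ^ 2 * ‖v‖ ^ 2 := by
    rw [norm_smul, Real.norm_of_nonneg ht0.le, mul_pow]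
  rw [hLh, hQh, hnh] at g1
  have g2 := (abs_le.1 g1).2
  have g3 : ρ (P + t • v) < 0 := by
    have : t * (L v + t * ((1 / 2) * Q v v + ‖v‖ ^ 2)) < 0 := mul_neg_of_pos_of_neg ht0 f1
    nlinarith
  have g4 : P + t • v ∈ D := hloc _ (by
    rw [mem_ball, dist_eq_norm, hz]
    exact lt_of_lt_of_le f3 (min_le_right _ _)) g3
  have g5 := hD _ g4
  have g6 : P + t • v - a = (P - a) + t • v := by abel
  have g7 : ‖P + t • v - a‖ ^ 2 = R ^ 2 + 2 * C1_l (P - a) (t • v) + ‖t • v‖ ^ 2 := by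
    rw [g6, C1_norm, hPa]
  have hlh : C1_l (P - a) (t • v) = t * C1_l (P - a) v := by
    rw [map_smul, smul_eq_mul]
  rw [hlh, hnh] at g7
  have g8 : 0 < t * C1_l (P - a) v := mul_pos ht0 hv
  have g9 : ‖P + t • v - a‖ ^ 2 ≤ R ^ 2 := pow_le_pow_left₀ (norm_nonneg _) g5 2
  have g10 : 0 ≤ t ^ 2 * ‖v‖ ^ 2 := by positivity
  linarith

/-- The first and second derivatives of the defining function at a farthest point.
PROOF. `ℓ v = Re ⟨P - a, v⟩`, `ℓ (P - a) = R² > 0`. If `ℓ v > 0` then `L v ≥ 0` (`L = fderiv ℝ ρ P`): otherwise `ρ (P + t v) < 0` for small `t > 0`, so `P + t v ∈ D`, but `‖P + t v - a‖² = R² + 2 t ℓ v + t² ‖v‖² > R²`.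
If `ℓ v = 0`: `L (± v + ε (P - a)) ≥ 0` for all `ε > 0`, so `L v = 0`. Hence `L v = (ℓ v / R²) L (P - a)`, `κ = L (P - a) / R² ≥ 0`, and `κ ≠ 0` as `L ≠ 0`.
Second part: suppose `ℓ v = 0` and `D²ρ (v, v) < κ ‖v‖²`. Choose `m` with `D²ρ (v, v) / 2 < κ m` and `m < ‖v‖² / 2`, `x = -(m / R²) (P - a)` (`ℓ x = -m`), `z t = P + t v + t² x`:
`ρ (z t) = t² (- κ m + D²ρ (v, v) / 2) + o (t²) < 0` for small `t > 0` (Taylor of the order two: `ContDiffAt ℝ 2`; see `tp_of_pk` in TB/A3.lean for the form used there), so `z t ∈ D`, but `‖z t - a‖² = R² + t² (‖v‖² - 2 m) + O (t³) > R²`. -/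
theorem far_tan {D : Set (En n)} {P a : En n} {R r : ℝ} (hR : 0 < R) (hPa : ‖P - a‖ = R) (hD : ∀ z ∈ D, ‖z - a‖ ≤ R) (hr : 0 < r) {ρ : En n → ℝ}
    (hρ : ContDiffOn ℝ 2 ρ (ball P r)) (hρ0 : ρ P = 0) (hloc : ∀ z ∈ ball P r, ρ z < 0 → z ∈ D) (hL : fderiv ℝ ρ P ≠ 0) :
    ∃ κ > 0, (∀ v, fderiv ℝ ρ P v = κ * (inner ℂ (P - a) v : ℂ).re) ∧
      ∀ v, (inner ℂ (P - a) v : ℂ).re = 0 → κ * ‖v‖ ^ 2 ≤ fderiv ℝ (fderiv ℝ ρ) P v v := by
  set L := fderiv ℝ ρ P with hLdef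
  set Q := fderiv ℝ (fderiv ℝ ρ) P with hQ
  have hR2 : 0 < R ^ 2 := by positivity
  have hself : C1_l (P - a) (P - a) = R ^ 2 := by rw [C1_self, hPa]
  have k1 : ∀ v, 0 < C1_l (P - a) v → 0 ≤ L v := fun v hv =>
    C1_key1 hPa hD hr hρ hρ0 hloc v hv
  have k2 : ∀ v, C1_l (P - a) v = 0 → 0 ≤ L v := by
    intro v hv
    by_contra hneg
    rw [not_le] at hneg
    have hd : 0 < 2 * (|L (P - a)| + 1) := by positivity
    set ε := -(L v) / (2 * (|L (P - a)| + 1)) with hε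
    have hε0 : 0 < ε := div_pos (neg_pos.2 hneg) hd
    have h1 : 0 ≤ L (v + ε • (P - a)) := by
      refine k1 _ ?_
      rw [map_add, map_smul, hv, hself, smul_eq_mul, zero_add]
      positivity
    rw [map_add, map_smul, smul_eq_mul] at h1
    have h2 : ε * L (P - a) ≤ ε * |L (P - a)| := mul_le_mul_of_nonneg_left (le_abs_self _) hε0.le
    have h3 : ε * (2 * (|L (P - a)| + 1)) = -(L v) := div_mul_cancel₀ _ hd.ne'
    nlinarith [mul_nonneg hε0.le (abs_nonneg (L (P - a)))]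
  have k3 : ∀ v, C1_l (P - a) v = 0 → L v = 0 := by
    intro v hv
    refine le_antisymm ?_ (k2 v hv)
    have h1 := k2 (-v) (by rw [map_neg, hv, neg_zero])
    rw [map_neg] at h1
    linarith
  set κ := L (P - a) / R ^ 2 with hκ
  have k4 : ∀ v, L v = κ * C1_l (P - a) v := by
    intro v
    have h1 := k3 (v - (C1_l (P - a) v / R ^ 2) • (P - a)) (by
      rw [map_sub, map_smul, hself, smul_eq_mul, div_mul_cancel₀ _ hR2.ne', sub_self])
    rw [map_sub, map_smul, smul_eq_mul, sub_eq_zero] at h1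
    rw [h1, hκ]
    ring
  have hκ0 : 0 < κ := by
    have h1 : 0 ≤ κ := div_nonneg (k1 _ (by rw [hself]; exact hR2)) hR2.le
    refine lt_of_le_of_ne h1 fun h2 => hL ?_
    ext v
    rw [k4 v, ← h2, zero_mul]
    rfl
  refine ⟨κ, hκ0, fun v => k4 v, fun v hv => ?_⟩
  by_contra hneg
  rw [not_le] at hneg
  set m := (Q v v / (2 * κ) + ‖v‖ ^ 2 / 2) / 2 with hm
  have m1 : Q v v / (2 * κ) < ‖v‖ ^ 2 / 2 := by
    rw [div_lt_iff₀ (by positivity)]
    linarith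
  have m2 : m < ‖v‖ ^ 2 / 2 := by
    rw [hm]
    linarith
  have m3 : (1 / 2) * Q v v < κ * m := by
    have h1 : Q v v / (2 * κ) < m := by
      rw [hm]
      linarith
    rw [div_lt_iff₀ (by positivity)] at h1
    linarith
  have hlx : C1_l (P - a) (-(m / R ^ 2) • (P - a)) = -m := by
    rw [map_smul, hself, smul_eq_mul, neg_mul, div_mul_cancel₀ _ hR2.ne']
  have h1 := C1_key hPa hD hr hρ hρ0 hloc v (-(m / R ^ 2) • (P - a)) hv (k3 v hv) (by
    rw [hlx]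
    linarith)
  rw [← hLdef, k4, hlx] at h1
  linarith


/-- The quadratic form. -/
private theorem C1_quad {P a : En n} {R : ℝ} (hR : 0 < R) (hPa : ‖P - a‖ = R)
    (q : En n →L[ℝ] En n →L[ℝ] ℝ) (hsym : ∀ u v, q u v = q v u)
    (hq : ∀ v, C1_l (P - a) v = 0 → (1 / 2) * ‖v‖ ^ 2 ≤ q v v) :
    ∃ K > 0, ∀ v, (1 / 4) * ‖v‖ ^ 2 ≤ q v v + K * (C1_l (P - a) v) ^ 2 := by
  have hR2 : 0 < R ^ 2 := by positivity
  have hself : C1_l (P - a) (P - a) = R ^ 2 := by rw [C1_self, hPa]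
  set M := ‖q‖ with hM
  have hM0 : 0 ≤ M := norm_nonneg q
  refine ⟨(4 * M ^ 2 + M + 1 / 4) / R ^ 2, by positivity, fun v => ?_⟩
  set t := C1_l (P - a) v / R ^ 2 with ht
  set v' := v - t • (P - a) with hv'
  have hlv : C1_l (P - a) v = t * R ^ 2 := by rw [ht, div_mul_cancel₀ _ hR2.ne']
  have hlv' : C1_l (P - a) v' = 0 := by
    rw [hv', map_sub, map_smul, hself, smul_eq_mul, hlv, sub_self]
  have hv : v = v' + t • (P - a) := by rw [hv']; abel
  have h1 : ‖v‖ ^ 2 = ‖v'‖ ^ 2 + t ^ 2 * R ^ 2 := by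
    have h2 := C1_norm (t • (P - a)) v'
    have h3 : t • (P - a) + v' = v := by rw [hv']; abel
    rw [h3] at h2
    have h4 : C1_l (t • (P - a)) v' = 0 := by
      rw [C1_symm, map_smul, C1_symm, hlv', smul_zero]
    rw [h4, norm_smul, hPa, mul_pow, Real.norm_eq_abs, sq_abs] at h2
    linarith
  have h2 : q v v = q v' v' + 2 * (t * q v' (P - a)) + t ^ 2 * q (P - a) (P - a) := by
    conv_lhs => rw [hv]
    rw [map_add, map_smul]
    simp only [add_apply, smul_apply, map_add, map_smul, smul_eq_mul]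
    rw [hsym (P - a) v']
    ring
  have h3 : |q v' (P - a)| ≤ M * ‖v'‖ * R := by
    have := q.le_opNorm₂ v' (P - a)
    rwa [hPa, Real.norm_eq_abs] at this
  have h4 : |q (P - a) (P - a)| ≤ M * R * R := by
    have := q.le_opNorm₂ (P - a) (P - a)
    rwa [hPa, Real.norm_eq_abs] at this
  have h5 := hq v' hlv'
  have h6 : -(|t| * (M * ‖v'‖ * R)) ≤ t * q v' (P - a) := by
    have : |t * q v' (P - a)| ≤ |t| * (M * ‖v'‖ * R) := by
      rw [abs_mul]
      exact mul_le_mul_of_nonneg_left h3 (abs_nonneg _)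
    exact (abs_le.1 this).1
  have h7 : -(t ^ 2 * (M * R * R)) ≤ t ^ 2 * q (P - a) (P - a) := by
    have := mul_le_mul_of_nonneg_left (abs_le.1 h4).1 (sq_nonneg t)
    linarith
  have h8 : (4 * M ^ 2 + M + 1 / 4) / R ^ 2 * (C1_l (P - a) v) ^ 2 =
      (4 * M ^ 2 + M + 1 / 4) * R ^ 2 * t ^ 2 := by
    rw [hlv]
    field_simp
  rw [h8, h2, h1]
  have h9 : 0 ≤ (‖v'‖ / 2 - 2 * (|t| * M * R)) ^ 2 := sq_nonneg _
  have h10 : |t| ^ 2 = t ^ 2 := sq_abs t
  have h11 : (‖v'‖ / 2 - 2 * (|t| * M * R)) ^ 2 = ‖v'‖ ^ 2 / 4 - 2 * (|t| * (M * ‖v'‖ * R)) +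
      4 * M ^ 2 * R ^ 2 * |t| ^ 2 := by ring
  rw [h11, h10] at h9
  nlinarith

/-- The peak function.
PROOF. `w z = inner ℂ (P - a) (P - z)`, `V = univ`; `Re w z = -ℓ (z - P)`. `pos` with `c ≤ 1/2`: `‖z - a‖² = ‖z - P‖² + 2 ℓ (z - P) + R² ≤ R²` for `z ∈ closure D`. `fderiv ℂ w P (P - a) = -R² ≠ 0`. Defining function: `σ = ρ / κ`, `ρ' = σ + K σ²`
(`σ (1 + K σ) < 0` iff `σ < 0` on a small ball where `|K σ| < 1`; `ρ z ≤ 0` on `closure D` near `P` by continuity, since `ρ < 0` on `D`). `D²σ (v, v) ≥ ‖v‖²` if `ℓ v = 0` (`far_tan`). `v = v' + s (P - a)`, `s = ℓ v / R²`, `ℓ v' = 0`, `‖v‖² = ‖v'‖² + s² R²`: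
`D²σ (v, v) + 2 K (ℓ v)² ≥ ‖v'‖² - 2 |s| M R ‖v'‖ - s² M R² + 2 K R⁴ s² ≥ ‖v‖² / 2` for a large `K` (`M = ‖D²σ‖`). So `g z = Re w z + ρ' z` is `C²` near `P`, `g P = 0`, `dg P = 0` (`dσ P = ℓ`), `D²g P (v, v) ≥ ‖v‖² / 2`, and by Taylor's formula
`g z ≥ ‖z - P‖² / 8` on a small ball. `c = 1/8`. -/
theorem far_pk {D : Set (En n)} (hDo : IsOpen D) (hDb : Bornology.IsBounded D) {P a : En n} {R r : ℝ} (hR : 0 < R) (hPa : ‖P - a‖ = R) (hPc : P ∈ closure D)
    (hD : ∀ z ∈ D, ‖z - a‖ ≤ R) (hr : 0 < r) {ρ : En n → ℝ}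
    (hρ : ContDiffOn ℝ 2 ρ (ball P r)) (hρ0 : ρ P = 0) (hloc : ∀ z ∈ ball P r, (z ∈ D ↔ ρ z < 0)) (hL : fderiv ℝ ρ P ≠ 0) :
    ∃ (w : En n → ℂ) (ρ' : En n → ℝ) (V : Set (En n)) (r' c : ℝ), PK D P w ρ' V r' c := by
  set L := fderiv ℝ ρ P with hLdef
  set Q := fderiv ℝ (fderiv ℝ ρ) P with hQ
  obtain ⟨κ, hκ, hκ1, hκ2⟩ := far_tan hR hPa hD hr hρ hρ0 (fun z hz h => (hloc z hz).2 h) hL
  obtain ⟨hsym, htay⟩ := C1_taylor (hρ.contDiffAt (ball_mem_nhds P hr))
  have hLl : ∀ v, L v = κ * C1_l (P - a) v := hκ1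
  set q : En n →L[ℝ] En n →L[ℝ] ℝ := (1 / (2 * κ)) • Q with hq
  have hqv : ∀ u v, q u v = 1 / (2 * κ) * Q u v := fun u v => rfl
  obtain ⟨K, hK, hK1⟩ := C1_quad hR hPa q (fun u v => by rw [hqv, hqv, hsym]) (fun v hv => by
    rw [hqv]
    have h1 := hκ2 v hv
    have h2 : (1 : ℝ) / 2 * ‖v‖ ^ 2 = 1 / (2 * κ) * (κ * ‖v‖ ^ 2) := by
      field_simp
    rw [h2]
    exact mul_le_mul_of_nonneg_left h1 (by positivity))
  -- Taylor for `σ = ρ / κ`
  obtain ⟨s, hs, hs1⟩ := htay (κ / 16) (by positivity)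
  have hσ : ∀ z, ‖z - P‖ < s →
      |ρ z / κ - C1_l (P - a) (z - P) - q (z - P) (z - P)| ≤ 1 / 16 * ‖z - P‖ ^ 2 := by
    intro z hz
    have h1 := hs1 z hz
    rw [hρ0, sub_zero, hLl] at h1
    have h2 : ρ z / κ - C1_l (P - a) (z - P) - q (z - P) (z - P) =
        (ρ z - κ * C1_l (P - a) (z - P) - 1 / 2 * Q (z - P) (z - P)) / κ := by
      rw [hqv]
      field_simp
    rw [h2, abs_div, abs_of_pos hκ, div_le_iff₀ hκ]
    linarith
  set M := ‖q‖ with hM
  have hM0 : 0 ≤ M := norm_nonneg q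
  have hqb : ∀ v, |q v v| ≤ M * ‖v‖ ^ 2 := by
    intro v
    have := q.le_opNorm₂ v v
    rw [Real.norm_eq_abs] at this
    linarith [this, sq ‖v‖, mul_assoc M ‖v‖ ‖v‖]
  -- the size of `σ`
  have hcont : ContinuousAt ρ P := (hρ.contDiffAt (ball_mem_nhds P hr)).continuousAt
  have hsm : ∀ᶠ z in 𝓝 P, |K * (ρ z / κ)| < 1 := by
    have hc : ContinuousAt (fun z => |K * (ρ z / κ)|) P := by
      have h1 : ContinuousAt (fun z => K * (ρ z / κ)) P :=
        continuousAt_const.mul (hcont.div_const κ)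
      exact h1.abs
    exact hc.eventually_lt continuousAt_const (by simp [hρ0])
  obtain ⟨s2, hs2, hs3⟩ := Metric.eventually_nhds_iff.1 hsm
  set C := M + 1 / 16 with hC
  have hC0 : 0 < C := by positivity
  set s4 := 1 / (32 * (K * R * C)) with hs4
  have hs40 : 0 < s4 := by positivity
  set r' := min (min r s) (min s2 s4) with hr'
  have hr0 : 0 < r' := lt_min (lt_min hr hs) (lt_min hs2 hs40)
  have hr1 : r' ≤ r := (min_le_left _ _).trans (min_le_left _ _)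
  have hr2 : r' ≤ s := (min_le_left _ _).trans (min_le_right _ _)
  have hr3 : r' ≤ s2 := (min_le_right _ _).trans (min_le_left _ _)
  have hr4 : r' ≤ s4 := (min_le_right _ _).trans (min_le_right _ _)
  have hin : ∀ z ∈ ball P r', ‖z - P‖ < r' := fun z hz => by
    rwa [mem_ball, dist_eq_norm] at hz
  have hfac : ∀ z ∈ ball P r', 0 < 1 + K * (ρ z / κ) := by
    intro z hz
    have h1 := hs3 (y := z) (lt_of_lt_of_le (mem_ball.1 hz) hr3)
    have h2 := (abs_lt.1 h1).1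
    linarith
  have hfe : ∀ z, ρ z / κ + K * (ρ z / κ) ^ 2 = ρ z / κ * (1 + K * (ρ z / κ)) := fun z => by ring
  have hcl : ∀ z ∈ closure D, ‖z - a‖ ≤ R := by
    intro z hz
    have hcl : IsClosed {z : En n | ‖z - a‖ ≤ R} :=
      isClosed_le (by fun_prop) continuous_const
    exact closure_minimal hD hcl hz
  have hpos : ∀ z ∈ closure D, 1 / 2 * ‖z - P‖ ^ 2 ≤ -(C1_l (P - a) (z - P)) := by
    intro z hz
    have h1 := hcl z hz
    have h2 : z - a = (P - a) + (z - P) := by abel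
    have h3 : ‖z - a‖ ^ 2 = R ^ 2 + 2 * C1_l (P - a) (z - P) + ‖z - P‖ ^ 2 := by
      rw [h2, C1_norm, hPa]
    have h4 : ‖z - a‖ ^ 2 ≤ R ^ 2 := pow_le_pow_left₀ (norm_nonneg _) h1 2
    linarith
  have hwre : ∀ z, (inner ℂ (P - a) (P - z) : ℂ).re = -(C1_l (P - a) (z - P)) := by
    intro z
    rw [C1_l_apply, ← Complex.neg_re, ← inner_neg_right, neg_sub]
  have hwfun : (fun z : En n => (inner ℂ (P - a) (P - z) : ℂ)) =
      fun z => innerSL ℂ (P - a) P - innerSL ℂ (P - a) z := by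
    funext z
    rw [innerSL_apply_apply, innerSL_apply_apply, inner_sub_right]
  refine ⟨fun z => inner ℂ (P - a) (P - z), fun z => ρ z / κ + K * (ρ z / κ) ^ 2, univ, r', 1 / 8,
    hr0, by norm_num, hDb, hDo, hPc, isOpen_univ, subset_univ _, subset_univ _, ?_, ?_, ?_, ?_, ?_,
    ?_, ?_, ?_, ?_, ?_⟩
  · rw [hwfun]
    exact ((innerSL ℂ (P - a)).differentiable.const_sub _).differentiableOn
  · rw [hwfun]
    exact (contDiff_const.sub ((innerSL ℂ (P - a)).restrictScalars ℝ).contDiff).contDiffOn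
  · show inner ℂ (P - a) (P - P) = 0
    rw [sub_self, inner_zero_right]
  · intro h0
    rw [hwfun, fderiv_const_sub, (innerSL ℂ (P - a)).fderiv] at h0
    have h1 := congrArg (fun T : En n →L[ℂ] ℂ => T (P - a)) h0
    have h2 : -(inner ℂ (P - a) (P - a) : ℂ) = 0 := h1
    rw [neg_eq_zero, inner_self_eq_zero] at h2
    rw [h2, norm_zero] at hPa
    exact hR.ne hPa
  · intro z hz
    rw [hwre]
    have h1 := hpos z hz
    have h2 : 0 ≤ ‖z - P‖ ^ 2 := sq_nonneg _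
    linarith
  · have h1 : ContDiffOn ℝ 2 (fun z => ρ z / κ) (ball P r') :=
      (hρ.mono (ball_subset_ball hr1)).div_const κ
    exact h1.add (contDiffOn_const.mul (h1.pow 2))
  · show ρ P / κ + K * (ρ P / κ) ^ 2 = 0
    rw [hρ0]
    simp
  · intro z hz
    rw [hloc z (ball_subset_ball hr1 hz)]
    show ρ z < 0 ↔ ρ z / κ + K * (ρ z / κ) ^ 2 < 0
    rw [hfe]
    have h1 := hfac z hz
    constructor
    · intro h
      exact mul_neg_of_neg_of_pos (div_neg_of_neg_of_pos h hκ) h1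
    · intro h
      have h2 : ρ z / κ < 0 := by
        by_contra h3
        rw [not_lt] at h3
        have := mul_nonneg h3 h1.le
        linarith
      by_contra h3
      rw [not_lt] at h3
      have := div_nonneg h3 hκ.le
      linarith
  · intro z hz hzc
    show ρ z / κ + K * (ρ z / κ) ^ 2 ≤ 0
    rw [hfe]
    have hz' : z ∈ ball P r := ball_subset_ball hr1 hz
    have h1 : ρ z ≤ 0 := by
      have hcz : ContinuousAt ρ z := (hρ.contDiffAt (isOpen_ball.mem_nhds hz')).continuousAt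
      by_contra hlt
      rw [not_le] at hlt
      have h2 : ∀ᶠ y in 𝓝 z, 0 < ρ y := hcz.eventually_const_lt hlt
      have h3 : ∀ᶠ y in 𝓝 z, y ∈ ball P r := isOpen_ball.mem_nhds hz'
      obtain ⟨y, hy, hyD⟩ := (mem_closure_iff_nhds.1 hzc) _ (h2.and h3)
      have h4 := (hloc y hy.2).1 hyD
      exact lt_asymm h4 hy.1
    exact mul_nonpos_of_nonpos_of_nonneg (div_nonpos_of_nonpos_of_nonneg h1 hκ.le) (hfac z hz).le
  · intro z hz
    rw [hwre]
    show 1 / 8 * ‖z - P‖ ^ 2 ≤ -(C1_l (P - a) (z - P)) + (ρ z / κ + K * (ρ z / κ) ^ 2)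
    set h := z - P with hh
    have hhr := hin z hz
    rw [← hh] at hhr
    have h1 := hσ z (by rw [← hh]; linarith)
    rw [← hh] at h1
    have h2 := hK1 h
    have h3 := hqb h
    have h4 : |C1_l (P - a) h| ≤ R * ‖h‖ := by
      have := C1_le (P - a) h
      rwa [hPa] at this
    set x := C1_l (P - a) h with hx
    set e := ρ z / κ - x with he
    have h5 : ρ z / κ = x + e := by rw [he]; ring
    have h6 : |e| ≤ C * ‖h‖ ^ 2 := by
      have h7 : e = (ρ z / κ - x - q h h) + q h h := by rw [he]; ring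
      rw [h7]
      refine (abs_add_le _ _).trans ?_
      rw [hC]
      linarith
    have h7 : -(1 / 16 * ‖h‖ ^ 2) ≤ e - q h h := by
      have := (abs_le.1 h1).1
      rw [he]
      linarith
    have h8 : |x * e| ≤ R * C * ‖h‖ ^ 3 := by
      rw [abs_mul]
      calc |x| * |e| ≤ (R * ‖h‖) * (C * ‖h‖ ^ 2) :=
            mul_le_mul h4 h6 (abs_nonneg _) (by positivity)
        _ = R * C * ‖h‖ ^ 3 := by ring
    have h9 : K * (R * C * ‖h‖ ^ 3) ≤ 1 / 32 * ‖h‖ ^ 2 := by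
      have h10 : ‖h‖ ≤ s4 := hhr.le.trans hr4
      have h11 : K * R * C * s4 = 1 / 32 := by
        rw [hs4]
        field_simp
      have h12 : K * R * C * ‖h‖ ≤ 1 / 32 := by
        rw [← h11]
        exact mul_le_mul_of_nonneg_left h10 (by positivity)
      calc K * (R * C * ‖h‖ ^ 3) = (K * R * C * ‖h‖) * ‖h‖ ^ 2 := by ring
        _ ≤ 1 / 32 * ‖h‖ ^ 2 := mul_le_mul_of_nonneg_right h12 (sq_nonneg _)
    have h13 : K * x ^ 2 - 2 * (K * (R * C * ‖h‖ ^ 3)) ≤ K * (x + e) ^ 2 := by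
      have h14 : (x + e) ^ 2 = x ^ 2 + 2 * (x * e) + e ^ 2 := by ring
      have h15 := (abs_le.1 h8).1
      have h16 : x ^ 2 - 2 * (R * C * ‖h‖ ^ 3) ≤ (x + e) ^ 2 := by
        rw [h14]
        nlinarith [sq_nonneg e]
      have := mul_le_mul_of_nonneg_left h16 hK.le
      linarith
    rw [h5]
    linarith

end Pool.Agent.MPca0fc2.EQ
end

section

/-!
Task CX HomB: the homotopy formula.
PROOF. Put `I t = ∫_D χ Φ fp (lin θ η t) Om (lin θ η t)`. It is continuous on `[0, 1]` and has for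
`t ∈ (0, 1)` the derivative `∫_D χ Φ ∑_k db k (fp (lin θ η t) Omk (lin θ η t) η k)` by `ident`
(`hasDerivAt_integral_of_dominated_loc_of_deriv_le`; the integrands and the derivative are bounded on
the bounded set `D` uniformly in `t ∈ [0,1]`: on `D` one has `c ≤ ‖Av (lin θ η t)‖`, all other
functions are continuous on compact balls; for the derivative it is convenient to use the explicit
formula: it is `(φ' η_0/A^M - M φ (η·x)/A^(M+1)) Om + φ/A^M ∑_b det(..)`, see `CXAlgB`; the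
measurability of the derivative: it is the limit of difference quotients or continuous on `D`).
For `w ∈ D ∩ U`: `χ Φ db k (G) = db k (χ Φ G) - db k χ Φ G`, `G = fp Omk`, since `db k Φ = 0`
(`db_holo`, `db_mul`); for `w ∈ D \ U` all terms vanish (`χ = 0` near `w`, also `db k χ = 0`), and
`db k (χ Φ G) = 0` outside of `D` (`diff_V`).
By `integral_db_eq_zero`: `I' t = - ∫_D Φ fp ∑_k db k χ Omk`, so `‖I' t‖ ≤ B` and the mean value
inequality (`norm_image_sub_le_of_norm_deriv_right_le_segment` or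
`constant_of_..`/`Convex.norm_image_sub_le_of_norm_deriv_le` on `(0,1)` plus continuity) gives
`‖I 1 - I 0‖ ≤ B`. Note that `lin θ η 0 = θ`.
-/

set_option autoImplicit false

open Metric Set MeasureTheory Filter Topology
open scoped ComplexOrder

namespace Pool.Agent.MPca0fc2.CX

variable {n : ℕ}


/-- Functions of class `C¹` on `ℝ × En n` are bounded with their derivatives in `t`. -/
theorem homB_bdd {u : ℝ × En n → ℂ} (hu : ContDiff ℝ 1 u) (R : ℝ) :
    ∃ L : ℝ, 0 ≤ L ∧ ∀ t ∈ Icc (0 : ℝ) 1, ∀ x, ‖x‖ ≤ R → ‖u (t, x)‖ ≤ L ∧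
      ∃ u' : ℂ, HasDerivAt (fun s => u (s, x)) u' t ∧ ‖u'‖ ≤ L := by
  have hcomp : IsCompact (Icc (0 : ℝ) 1 ×ˢ closedBall (0 : En n) R) :=
    isCompact_Icc.prod (isCompact_closedBall _ _)
  obtain ⟨C1, h1⟩ := hcomp.exists_bound_of_continuousOn (f := u) hu.continuous.continuousOn
  obtain ⟨C2, h2⟩ := hcomp.exists_bound_of_continuousOn
    (f := fun p => fderiv ℝ u p ((1 : ℝ), (0 : En n)))
    ((hu.continuous_fderiv one_ne_zero).clm_apply continuous_const).continuousOn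
  refine ⟨max 0 (max C1 C2), le_max_left _ _, fun t ht x hx => ?_⟩
  have hx' : (t, x) ∈ Icc (0 : ℝ) 1 ×ˢ closedBall (0 : En n) R := ⟨ht, by simpa using hx⟩
  refine ⟨(h1 _ hx').trans ((le_max_left _ _).trans (le_max_right _ _)),
    fderiv ℝ u (t, x) ((1 : ℝ), (0 : En n)), ?_,
    (h2 _ hx').trans ((le_max_right _ _).trans (le_max_right _ _))⟩
  have h3 : HasDerivAt (fun s : ℝ => (s, x)) ((1 : ℝ), (0 : En n)) t :=
    (hasDerivAt_id t).prodMk (hasDerivAt_const t x)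
  exact ((hu.differentiable one_ne_zero (t, x)).hasFDerivAt).comp_hasDerivAt t h3

theorem homB_lin {θ η : En n → Fin (n + 1) → ℂ} (hθ : ∀ a, ContDiff ℝ 2 fun w => θ w a)
    (hη : ∀ a, ContDiff ℝ 2 fun w => η w a) (a : Fin (n + 1)) :
    ContDiff ℝ 2 fun p : ℝ × En n => lin θ η p.1 p.2 a := by
  unfold lin
  exact ((hθ a).comp contDiff_snd).add
    ((Complex.ofRealCLM.contDiff.comp contDiff_fst).mul ((hη a).comp contDiff_snd))

theorem homB_db {F : En n → ℂ} (hF : ContDiff ℝ 2 F) (k : Fin n) : ContDiff ℝ 1 (db k F) := by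
  have h2 : ContDiff ℝ ((1 + 1 : ℕ) : WithTop ℕ∞) F := by
    simpa [one_add_one_eq_two] using hF
  simpa using contDiff_db k h2

theorem homB_Om {θ η : En n → Fin (n + 1) → ℂ} (hθ : ∀ a, ContDiff ℝ 2 fun w => θ w a)
    (hη : ∀ a, ContDiff ℝ 2 fun w => η w a) :
    ContDiff ℝ 1 fun p : ℝ × En n => Om (lin θ η p.1) p.2 := by
  unfold Om
  refine homA_det fun a b => ?_
  refine Fin.cases ?_ (fun l => ?_) b
  · simp only [mt, Matrix.of_apply, Fin.cases_zero]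
    exact (homB_lin hθ hη a).of_le (by norm_num)
  · simp only [mt, Matrix.of_apply, Fin.cases_succ]
    have h1 : ∀ p : ℝ × En n, db l (fun y => lin θ η p.1 y a) p.2 =
        db l (fun y => θ y a) p.2 + (p.1 : ℂ) * db l (fun y => η y a) p.2 := by
      intro p
      have d1 := (hθ a).differentiable two_ne_zero p.2
      have d2 := (hη a).differentiable two_ne_zero p.2
      simp only [lin]
      rw [db_add l d1 (d2.const_mul _), db_const_mul l _ d2]
    simp only [h1]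
    exact ((homB_db (hθ a) l).comp contDiff_snd).add
      ((Complex.ofRealCLM.contDiff.comp contDiff_fst).mul ((homB_db (hη a) l).comp contDiff_snd))

theorem homB_N {m : ℕ} (hm : 2 ≤ m) {θ η : En n → Fin (n + 1) → ℂ}
    (hθ : ∀ a, ContDiff ℝ 2 fun w => θ w a)
    (hη : ∀ a, ContDiff ℝ 2 fun w => η w a) :
    ContDiff ℝ 1 fun p : ℝ × En n => (((max (lin θ η p.1 p.2 0).re 0) ^ m : ℝ) : ℂ) := by
  have h1 : ContDiff ℝ 1 fun p : ℝ × En n => (lin θ η p.1 p.2 0).re :=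
    Complex.reCLM.contDiff.comp ((homB_lin hθ hη 0).of_le (by norm_num))
  exact Complex.ofRealCLM.contDiff.comp ((homA_pos hm).comp h1)

theorem homB_Av {θ η : En n → Fin (n + 1) → ℂ} (hθ : ∀ a, ContDiff ℝ 2 fun w => θ w a)
    (hη : ∀ a, ContDiff ℝ 2 fun w => η w a) (z : En n) :
    ContDiff ℝ 2 fun p : ℝ × En n => Av (lin θ η p.1) z p.2 := by
  unfold Av
  exact ContDiff.sum fun a _ => (homB_lin hθ hη a).mul ((homA_xv z a).comp contDiff_snd)

/-- Bounds of the integrand and of its derivative. -/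
theorem homB_bounds {D : Set (En n)} {z : En n} {θ η : En n → Fin (n + 1) → ℂ}
    (h : HomData D z θ η) {m : ℕ} (hm : 2 ≤ m) :
    ∃ C : ℝ, 0 ≤ C ∧ ∀ t ∈ Icc (0 : ℝ) 1, ∀ w ∈ D,
      ‖fp m (lin θ η t) z w * Om (lin θ η t) w‖ ≤ C ∧
      HasDerivAt (fun s : ℝ => fp m (lin θ η s) z w * Om (lin θ η s) w)
        (∑ k, db k (fun y => fp m (lin θ η t) z y * Omk (lin θ η t) η k y) w) t ∧
      ‖∑ k, db k (fun y => fp m (lin θ η t) z y * Omk (lin θ η t) η k y) w‖ ≤ C := by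
  obtain ⟨R, hR⟩ := h.bdd
  obtain ⟨c, hc0, hcA⟩ := h.A0
  obtain ⟨LX, hLX0, hLX⟩ := homB_bdd ((homB_N hm h.cθ h.cη).mul (homB_Om h.cθ h.cη)) R
  obtain ⟨LQ, hLQ0, hLQ⟩ := homB_bdd
    (((homB_Av h.cθ h.cη z).pow (m + n + 1)).of_le (show (1 : WithTop ℕ∞) ≤ 2 by norm_num)) R
  set cc : ℝ := c ^ (m + n + 1) with hcc
  have hcc0 : 0 < cc := pow_pos hc0 _
  refine ⟨LX / cc + (LX * LQ + LX * LQ) / cc ^ 2, by positivity, fun t ht w hw => ?_⟩
  obtain ⟨bX, X', hX', bX'⟩ := hLX t ht w (hR w hw)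
  obtain ⟨bQ, Q', hQ', bQ'⟩ := hLQ t ht w (hR w hw)
  simp only at bX hX' bQ hQ'
  have hQc : cc ≤ ‖(Av (lin θ η t) z w) ^ (m + n + 1)‖ := by
    rw [norm_pow, hcc]
    exact pow_le_pow_left₀ hc0.le (hcA w hw t ht) _
  have hA0 : Av (lin θ η t) z w ≠ 0 := by
    intro h0
    have := hcA w hw t ht
    rw [h0, norm_zero] at this
    linarith
  have hid := ident hm h.cθ h.cη h.rθ h.rη z w t hA0
  have heq : (fun s : ℝ => fp m (lin θ η s) z w * Om (lin θ η s) w) = fun s : ℝ =>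
      ((((max (lin θ η s w 0).re 0) ^ m : ℝ) : ℂ) * Om (lin θ η s) w) /
        (Av (lin θ η s) z w) ^ (m + n + 1) := by
    funext s
    simp only [fp]
    ring
  have hder := hX'.div hQ' (pow_ne_zero _ hA0)
  have hder2 := heq ▸ hid
  have huniq := hder2.unique hder
  refine ⟨?_, hid, ?_⟩
  · have := congrFun heq t
    beta_reduce at this
    rw [this, norm_div]
    calc _ ≤ LX / cc := div_le_div₀ hLX0 bX hcc0 hQc
      _ ≤ _ := le_add_of_nonneg_right (by positivity)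
  · rw [huniq, norm_div, norm_pow]
    calc _ ≤ (LX * LQ + LX * LQ) / cc ^ 2 := by
          refine div_le_div₀ (by positivity) ?_ (by positivity)
            (pow_le_pow_left₀ hcc0.le hQc _)
          refine (norm_sub_le _ _).trans ?_
          rw [norm_mul, norm_mul]
          exact add_le_add (mul_le_mul bX' bQ (norm_nonneg _) hLX0)
            (mul_le_mul bX bQ' (norm_nonneg _) hLX0)
      _ ≤ _ := le_add_of_nonneg_left (by positivity)

/-- Measurability of the cut-off times the holomorphic function. -/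
theorem homB_meas {D U : Set (En n)} (hD : IsOpen D) {Φ : En n → ℂ} {χ : En n → ℝ}
    (hc : CutData D U Φ χ) :
    AEStronglyMeasurable (fun w => (χ w : ℂ) * Φ w) (volume.restrict D) := by
  have hDU : D = (D ∩ U) ∪ (D \ U) := (inter_union_sdiff D U).symm
  rw [hDU, aestronglyMeasurable_union_iff]
  constructor
  · refine ContinuousOn.aestronglyMeasurable ?_ (hD.inter hc.op).measurableSet
    exact (Complex.continuous_ofReal.comp hc.sm.continuous).continuousOn.mul hc.hol.continuousOn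
  · have hz : ∀ w ∈ D \ U, (0 : ℂ) = (χ w : ℂ) * Φ w := by
      intro w hw
      have h1 : w ∉ tsupport χ := fun h => hw.2 (hc.supp h)
      have h2 : χ w = 0 := image_eq_zero_of_notMem_tsupport h1
      simp [h2]
    refine (aestronglyMeasurable_const (b := (0 : ℂ))).congr ?_
    exact (ae_restrict_iff' (hD.measurableSet.diff hc.op.measurableSet)).mpr
      (Eventually.of_forall hz)

theorem homB_measH {m : ℕ} {θ : En n → Fin (n + 1) → ℂ}
    (hθ : ∀ a, ContDiff ℝ 2 fun w => θ w a) (z : En n) :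
    Measurable fun w => fp m θ z w * Om θ w := by
  have h1 : Continuous fun w => (((max (θ w 0).re 0) ^ m : ℝ) : ℂ) := by
    have := (hθ 0).continuous
    fun_prop
  have h2 : Continuous fun w => (Av θ z w) ^ (m + n + 1) := ((homA_Av hθ z).continuous).pow _
  have h3 : Continuous fun w => Om θ w := by
    unfold Om
    have hM : ∀ a b, ContDiff ℝ 1 fun w => mt θ w a b := by
      intro a b
      refine Fin.cases ?_ (fun l => ?_) b
      · simp only [mt, Matrix.of_apply, Fin.cases_zero]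
        exact (hθ a).of_le (by norm_num)
      · simp only [mt, Matrix.of_apply, Fin.cases_succ]
        exact homB_db (hθ a) l
    exact (homA_det hM).continuous
  unfold fp
  exact (h1.measurable.div h2.measurable).mul h3.measurable

theorem homB_measdb (k : Fin n) (F : En n → ℂ) : Measurable (db k F) := by
  unfold db
  have h1 := measurable_fderiv_apply_const ℝ F (ee k)
  have h2 := measurable_fderiv_apply_const ℝ F (Complex.I • ee k)
  exact (h1.add (h2.const_mul _)).const_mul _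

/-- The pointwise identity. -/
theorem homB_point {D U : Set (En n)} {z : En n} {θ η : En n → Fin (n + 1) → ℂ}
    (h : HomData D z θ η) {Φ : En n → ℂ} {χ : En n → ℝ} (hc : CutData D U Φ χ) {m : ℕ}
    (hm : 2 ≤ m) {t : ℝ} (ht : t ∈ Icc (0 : ℝ) 1) {w : En n} (hw : w ∈ D) (k : Fin n) :
    db k (fun y => (χ y : ℂ) * Φ y * (fp m (lin θ η t) z y * Omk (lin θ η t) η k y)) w =
      (χ w : ℂ) * Φ w * db k (fun y => fp m (lin θ η t) z y * Omk (lin θ η t) η k y) w +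
      Φ w * (fp m (lin θ η t) z w * (db k (fun y => (χ y : ℂ)) w * Omk (lin θ η t) η k w)) := by
  by_cases hwU : w ∈ U
  · obtain ⟨c, hc0, hcA⟩ := h.A0
    have hA0 : Av (lin θ η t) z w ≠ 0 := by
      intro h0
      have := hcA w hw t ht
      rw [h0, norm_zero] at this
      linarith
    have dG := ff_omk_differentiableAt hm (lin_contDiff h.cθ h.cη t) h.cη z w hA0 k
    have dX : DifferentiableAt ℝ (fun y => (χ y : ℂ)) w :=
      (Complex.ofRealCLM.contDiff.comp hc.sm).differentiable one_ne_zero w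
    have dΦ : DifferentiableAt ℂ Φ w :=
      hc.hol.differentiableAt ((h.op.inter hc.op).mem_nhds ⟨hw, hwU⟩)
    have dΦ' : DifferentiableAt ℝ Φ w := dΦ.restrictScalars ℝ
    have e1 := db_mul k (F := fun y => (χ y : ℂ) * Φ y) (dX.mul dΦ') dG
    have e2 := db_mul k dX dΦ'
    rw [db_holo k dΦ] at e2
    rw [e1, e2]
    ring
  · have h1 : w ∉ tsupport χ := fun h => hwU (hc.supp h)
    have h2 := notMem_tsupport_iff_eventuallyEq.mp h1
    have h3 : (fun y => (χ y : ℂ) * Φ y * (fp m (lin θ η t) z y * Omk (lin θ η t) η k y)) =ᶠ[𝓝 w]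
        fun _ => (0 : ℂ) := by
      filter_upwards [h2] with y hy
      simp only [Pi.zero_apply] at hy
      simp [hy]
    have h4 : (fun y => (χ y : ℂ)) =ᶠ[𝓝 w] fun _ => (0 : ℂ) := by
      filter_upwards [h2] with y hy
      simp only [Pi.zero_apply] at hy
      simp [hy]
    rw [db_congr k h3, db_congr k h4, db_const, image_eq_zero_of_notMem_tsupport h1]
    simp

/-- The homotopy formula. -/
theorem homotopy {D U : Set (En n)} {z : En n} {θ η : En n → Fin (n + 1) → ℂ}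
    (h : HomData D z θ η) {Φ : En n → ℂ} {χ : En n → ℝ} (hc : CutData D U Φ χ) {m : ℕ}
    (hm : 2 ≤ m) {B : ℝ}
    (hB : ∀ t ∈ Ioo (0 : ℝ) 1, ‖∫ w in D, Φ w * (fp m (lin θ η t) z w *
      ∑ k, db k (fun y => (χ y : ℂ)) w * Omk (lin θ η t) η k w)‖ ≤ B) :
    ‖(∫ w in D, (χ w : ℂ) * Φ w * (fp m (lin θ η 1) z w * Om (lin θ η 1) w)) -
      ∫ w in D, (χ w : ℂ) * Φ w * (fp m θ z w * Om θ w)‖ ≤ B := by
  obtain ⟨C, hC0, hC⟩ := homB_bounds h hm
  obtain ⟨R, hR⟩ := h.bdd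
  have hDm : MeasurableSet D := h.op.measurableSet
  have hDfin : volume D < ⊤ := by
    have : Bornology.IsBounded D := isBounded_iff_forall_norm_le.mpr ⟨R, hR⟩
    exact this.measure_lt_top
  have : IsFiniteMeasure (volume.restrict D) := ⟨by simpa using hDfin⟩
  -- the bound of `χ Φ`
  obtain ⟨M, hM0, hM⟩ : ∃ M : ℝ, 0 ≤ M ∧ ∀ w ∈ D, ‖(χ w : ℂ) * Φ w‖ ≤ M := by
    obtain ⟨M1, hM1⟩ := hc.bd
    obtain ⟨M2, hM2⟩ := hc.cpt.exists_bound_of_continuous hc.sm.continuous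
    refine ⟨max M2 0 * max M1 0, by positivity, fun w hw => ?_⟩
    rw [norm_mul]
    by_cases hwU : w ∈ U
    · refine mul_le_mul ?_ ((hM1 w ⟨hw, hwU⟩).trans (le_max_left _ _)) (norm_nonneg _)
        (le_max_right _ _)
      rw [Complex.norm_real]
      exact (hM2 w).trans (le_max_left _ _)
    · have h1 : w ∉ tsupport χ := fun h => hwU (hc.supp h)
      rw [image_eq_zero_of_notMem_tsupport h1]
      simp only [Complex.ofReal_zero, norm_zero, zero_mul]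
      positivity
  have hΨ := homB_meas h.op hc
  obtain ⟨I, hI⟩ : ∃ I : ℝ → ℂ, I = fun t => ∫ w in D, (χ w : ℂ) * Φ w *
      (fp m (lin θ η t) z w * Om (lin θ η t) w) := ⟨_, rfl⟩
  obtain ⟨H', hH'⟩ : ∃ H' : ℝ → En n → ℂ, H' = fun t w =>
      ∑ k, db k (fun y => fp m (lin θ η t) z y * Omk (lin θ η t) η k y) w := ⟨_, rfl⟩
  have hmeas : ∀ t : ℝ, AEStronglyMeasurable (fun w => (χ w : ℂ) * Φ w *
      (fp m (lin θ η t) z w * Om (lin θ η t) w)) (volume.restrict D) := fun t =>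
    hΨ.mul (homB_measH (lin_contDiff h.cθ h.cη t) z).aestronglyMeasurable
  have hbound : ∀ t ∈ Icc (0 : ℝ) 1, ∀ w ∈ D, ‖(χ w : ℂ) * Φ w *
      (fp m (lin θ η t) z w * Om (lin θ η t) w)‖ ≤ M * C := by
    intro t ht w hw
    rw [norm_mul]
    exact mul_le_mul (hM w hw) (hC t ht w hw).1 (norm_nonneg _) hM0
  have hint : ∀ t ∈ Icc (0 : ℝ) 1, IntegrableOn (fun w => (χ w : ℂ) * Φ w *
      (fp m (lin θ η t) z w * Om (lin θ η t) w)) D := by
    intro t ht
    refine Integrable.of_bound (hmeas t) (M * C) ?_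
    exact (ae_restrict_iff' hDm).mpr (Eventually.of_forall (hbound t ht))
  -- continuity
  have hIc : ContinuousOn I (Icc 0 1) := by
    rw [hI]
    refine continuousOn_of_dominated (bound := fun _ => M * C) (fun t _ => hmeas t)
      (fun t ht => (ae_restrict_iff' hDm).mpr (Eventually.of_forall (hbound t ht)))
      (integrable_const _) ?_
    refine (ae_restrict_iff' hDm).mpr (Eventually.of_forall fun w hw t ht => ?_)
    exact (((hC t ht w hw).2.1).continuousAt.const_mul _).continuousWithinAt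
  -- the derivative
  have hId : ∀ t ∈ Ioo (0 : ℝ) 1, Integrable (fun w => (χ w : ℂ) * Φ w * H' t w)
      (volume.restrict D) ∧ HasDerivAt I (∫ w in D, (χ w : ℂ) * Φ w * H' t w) t := by
    intro t ht
    rw [hI]
    refine hasDerivAt_integral_of_dominated_loc_of_deriv_le (F' := fun t w =>
      (χ w : ℂ) * Φ w * H' t w) (s := Ioo (0 : ℝ) 1) (bound := fun _ => M * C)
      (isOpen_Ioo.mem_nhds ht) (Eventually.of_forall hmeas) (hint t (Ioo_subset_Icc_self ht))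
      ?_ ?_ (integrable_const _) ?_
    · refine hΨ.mul ?_
      have : Measurable (H' t) := by
        rw [hH']
        exact Finset.measurable_fun_sum _ fun k _ => homB_measdb k _
      exact this.aestronglyMeasurable
    · refine (ae_restrict_iff' hDm).mpr (Eventually.of_forall fun w hw s hs => ?_)
      rw [norm_mul, hH']
      exact mul_le_mul (hM w hw) (hC s (Ioo_subset_Icc_self hs) w hw).2.2 (norm_nonneg _) hM0
    · refine (ae_restrict_iff' hDm).mpr (Eventually.of_forall fun w hw s hs => ?_)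
      rw [hH']
      exact ((hC s (Ioo_subset_Icc_self hs) w hw).2.1).const_mul _
  -- integration by parts
  have hJ : ∀ t ∈ Ioo (0 : ℝ) 1, ‖∫ w in D, (χ w : ℂ) * Φ w * H' t w‖ ≤ B := by
    intro t ht
    have ht' := Ioo_subset_Icc_self ht
    have hk : ∀ k : Fin n, IntegrableOn (db k (fun y => (χ y : ℂ) * Φ y *
        (fp m (lin θ η t) z y * Omk (lin θ η t) η k y))) D ∧
        ∫ w in D, db k (fun y => (χ y : ℂ) * Φ y *
        (fp m (lin θ η t) z y * Omk (lin θ η t) η k y)) w = 0 := by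
      intro k
      obtain ⟨hd, ho, CV, hCV⟩ := h.diff_V hc hm k (z := z) ht'
      constructor
      · refine Integrable.of_bound (homB_measdb k _).aestronglyMeasurable CV ?_
        exact Eventually.of_forall fun w => (norm_db_le k _ w).trans (hCV w)
      · rw [setIntegral_eq_integral_of_forall_compl_eq_zero]
        · obtain ⟨R1, hR1⟩ : ∃ R : ℝ, ∀ w ∈ tsupport χ, ‖w‖ ≤ R :=
            hc.cpt.isCompact.isBounded.exists_norm_le
          refine integral_db_eq_zero (R := R1 + 1) k hd hCV fun w hw => ?_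
          have h1 : w ∉ tsupport χ := fun h => by linarith [hR1 w h]
          simp [image_eq_zero_of_notMem_tsupport h1]
        · intro w hw
          have := norm_db_le k (fun y => (χ y : ℂ) * Φ y *
            (fp m (lin θ η t) z y * Omk (lin θ η t) η k y)) w
          rw [ho w hw, norm_zero] at this
          exact norm_le_zero_iff.mp this
    have hsum : ∫ w in D, (χ w : ℂ) * Φ w * H' t w =
        - ∫ w in D, Φ w * (fp m (lin θ η t) z w *
          ∑ k, db k (fun y => (χ y : ℂ)) w * Omk (lin θ η t) η k w) := by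
      have e1 : ∫ w in D, Φ w * (fp m (lin θ η t) z w *
          ∑ k, db k (fun y => (χ y : ℂ)) w * Omk (lin θ η t) η k w) =
          ∫ w in D, ((∑ k, db k (fun y => (χ y : ℂ) * Φ y *
            (fp m (lin θ η t) z y * Omk (lin θ η t) η k y)) w) - (χ w : ℂ) * Φ w * H' t w) := by
        refine setIntegral_congr_fun hDm fun w hw => ?_
        rw [Finset.sum_congr rfl fun k _ => homB_point h hc hm ht' hw k,
          Finset.sum_add_distrib, hH', Finset.mul_sum, Finset.mul_sum]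
        simp only [← Finset.mul_sum]
        ring
      rw [e1, integral_sub (integrable_finsetSum _ fun k _ => (hk k).1) (hId t ht).1,
        integral_finsetSum _ fun k _ => (hk k).1]
      rw [Finset.sum_eq_zero fun k _ => (hk k).2]
      ring
    rw [hsum, norm_neg]
    exact hB t ht
  -- the conclusion
  have hfin : ∀ ε ∈ Ioo (0 : ℝ) 1, ‖I 1 - I ε‖ ≤ B * (1 - ε) := by
    intro ε hε
    refine norm_image_sub_le_of_norm_deriv_right_le_segment
      (f' := fun t => ∫ w in D, (χ w : ℂ) * Φ w * H' t w)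
      (hIc.mono (Icc_subset_Icc_left hε.1.le)) (fun x hx => ?_) (fun x hx => ?_) 1
      (right_mem_Icc.mpr hε.2.le)
    · exact ((hId x ⟨lt_of_lt_of_le hε.1 hx.1, hx.2⟩).2).hasDerivWithinAt
    · exact hJ x ⟨lt_of_lt_of_le hε.1 hx.1, hx.2⟩
  have hl : Tendsto (fun ε => ‖I 1 - I ε‖) (𝓝[>] 0) (𝓝 ‖I 1 - I 0‖) := by
    have h1 : Tendsto I (𝓝[>] 0) (𝓝 (I 0)) := by
      have := (hIc 0 (left_mem_Icc.mpr zero_le_one)).tendsto
      refine this.mono_left ?_
      rw [← nhdsWithin_Ioo_eq_nhdsGT (zero_lt_one (α := ℝ))]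
      exact nhdsWithin_mono _ Ioo_subset_Icc_self
    exact (tendsto_const_nhds.sub h1).norm
  have hr : Tendsto (fun ε : ℝ => B * (1 - ε)) (𝓝[>] 0) (𝓝 (B * (1 - 0))) := by
    refine Tendsto.mono_left ?_ nhdsWithin_le_nhds
    exact (continuous_const.mul (continuous_const.sub continuous_id)).tendsto 0
  have hfinal : ‖I 1 - I 0‖ ≤ B * (1 - 0) := by
    refine le_of_tendsto_of_tendsto hl hr ?_
    filter_upwards [Ioo_mem_nhdsGT (zero_lt_one (α := ℝ))] with ε hε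
    exact hfin ε hε
  have h0 : lin θ η 0 = θ := by
    funext w a
    simp [lin]
  rw [hI] at hfinal
  simp only [h0, sub_zero, mul_one] at hfinal
  exact hfinal

end Pool.Agent.MPca0fc2.CX
end

section

/-!
Task CX RepA: the homotopy from the domain to an ellipsoid, and the mass.
PROOFS. `homData`: `lin th η t = (1 - t) th + t esec`, so `Av (lin ..) z w = (1 - t) A w z + t s r²`
(`Av_esec`, linearity), whose real part is `≥ min (-ρ z / 2) (s r²)` for `ρ w ≤ 0` (`re_A`);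
`out0`: `-ρ w ≤ 0` for `w ∉ D`; `out1`: `s (r² - h) ≤ 0` for `w ∉ D` by `hsub`. Smoothness:
`esec_contDiff`, `contDiff_dz` (`ρ` is `C³`).
`mass`: use `homotopy` with `Φ = 1`, `χ` a smooth cut-off equal to `1` on a neighbourhood of the closure
of `D` (`exists_contDiff_tsupport_subset`/`ContDiffBump` with a big ball), `U = univ`, `B = 0`
(`db k χ = 0` on `D`), `H = 1`, `s = 1`, `r` small: then `{‖w-z‖ < r} ⊆ D`. End value: `lin th η 1 =
esec`, `fp m esec z w * Om esec w = (max (r² - ‖w-z‖²) 0)^m * r² / (r²)^(m+n+1)` (`Av_esec`, `Om_esec`,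
`hf_one`), integrate with `ball_mass` (`m = m' + 1`): the value is `kap n m`.
-/

set_option autoImplicit false

open Metric Set MeasureTheory Filter Topology
open scoped ComplexOrder

namespace Pool.Agent.MPca0fc2.CX

namespace Dm

variable {n : ℕ} (𝓓 : Dm n)

theorem kap_pos (n m : ℕ) : 0 < kap n m := by
  rw [kap]
  have hcont : Continuous (fun v : En n => (1 - ‖v‖ ^ 2) ^ m) := by fun_prop
  rw [setIntegral_pos_iff_support_of_nonneg_ae]
  · have hsub : ball (0 : En n) 1 ⊆ Function.support (fun v : En n => (1 - ‖v‖ ^ 2) ^ m) := by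
      intro v hv
      rw [mem_ball_zero_iff] at hv
      rw [Function.mem_support]
      have h1 : 0 < 1 - ‖v‖ ^ 2 := by nlinarith [norm_nonneg v]
      exact (pow_pos h1 m).ne'
    rw [inter_eq_self_of_subset_right hsub]
    exact measure_ball_pos _ _ one_pos
  · filter_upwards [ae_restrict_mem measurableSet_ball] with v hv
    rw [mem_ball_zero_iff] at hv
    have h1 : 0 ≤ 1 - ‖v‖ ^ 2 := by nlinarith [norm_nonneg v]
    exact pow_nonneg h1 m
  · exact (hcont.continuousOn.integrableOn_compact (isCompact_closedBall (0 : En n) 1)).mono_set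
      ball_subset_closedBall

theorem repA_lin_one (θ : En n → Fin (n + 1) → ℂ) (H : Matrix (Fin n) (Fin n) ℂ) (r s : ℝ)
    (z : En n) : lin θ (fun w a => esec H r s z w a - θ w a) 1 = esec H r s z := by
  funext w a
  simp [lin]

theorem repA_Av_lin (θ : En n → Fin (n + 1) → ℂ) (H : Matrix (Fin n) (Fin n) ℂ) (r s t : ℝ)
    (z w : En n) : Av (lin θ (fun w a => esec H r s z w a - θ w a) t) z w =
      (1 - (t : ℂ)) * Av θ z w + (t : ℂ) * ((s * r ^ 2 : ℝ) : ℂ) := by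
  rw [← Av_esec H r s z w]
  simp only [Av, lin, Finset.mul_sum, ← Finset.sum_add_distrib]
  refine Finset.sum_congr rfl fun a _ => ?_
  ring

theorem repA_th_contDiff (a : Fin (n + 1)) : ContDiff ℝ 2 fun w => 𝓓.th w a := by
  have h3 : ContDiff ℝ 3 (fun y : En n => (𝓓.ρ y : ℂ)) :=
    Complex.ofRealCLM.contDiff.comp 𝓓.sm
  refine Fin.cases ?_ (fun j => ?_) a
  · simp only [th, sec, Fin.cons_zero]
    exact (h3.of_le (by norm_num)).neg
  · simp only [th, sec, Fin.cons_succ]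
    exact contDiff_dz (m := 2) j (by exact_mod_cast h3)

theorem repA_th_zero (w : En n) : 𝓓.th w 0 = -(𝓓.ρ w : ℂ) := by
  simp [th, sec]

theorem repA_esec_zero (H : Matrix (Fin n) (Fin n) ℂ) (r s : ℝ) (z w : En n) :
    esec H r s z w 0 = (s : ℂ) * ((r ^ 2 : ℝ) - hf H (w - z)) := by
  simp [esec]

/-- The homotopy from the section of the domain to the section of an ellipsoid. -/
theorem homData {z : En n} (hz : 𝓓.ρ z < 0) {H : Matrix (Fin n) (Fin n) ℂ} (hH : H.PosDef)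
    {r s : ℝ} (hr : 0 < r) (hs : 0 < s) (hsub : ∀ w, (hf H (w - z)).re < r ^ 2 → 𝓓.ρ w < 0) :
    HomData 𝓓.D z 𝓓.th (fun w a => esec H r s z w a - 𝓓.th w a) where
  op := 𝓓.isOpen_D
  bdd := by
    obtain ⟨R, -, hR⟩ := 𝓓.exists_R
    exact ⟨R, fun w hw => hR w (le_of_lt hw)⟩
  cθ := 𝓓.repA_th_contDiff
  cη := fun a => (esec_contDiff H r s z a).sub (𝓓.repA_th_contDiff a)
  rθ := fun w => by simp [repA_th_zero]
  rη := fun w => by
    rw [repA_th_zero, repA_esec_zero]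
    have h1 := hf_im hH.1 (w - z)
    have h2 : ((s : ℂ) * (((r ^ 2 : ℝ) : ℂ) - hf H (w - z))).im =
        s * (0 - (hf H (w - z)).im) := by
      rw [Complex.im_ofReal_mul, Complex.sub_im, Complex.ofReal_im]
    rw [Complex.sub_im, h2, h1]
    simp
  out0 := fun w hw => by
    rw [repA_th_zero]
    have : 0 ≤ 𝓓.ρ w := not_lt.mp hw
    simpa using this
  out1 := fun w hw => by
    rw [repA_th_zero, repA_esec_zero]
    have h0 : 0 ≤ 𝓓.ρ w := not_lt.mp hw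
    have h1 : r ^ 2 ≤ (hf H (w - z)).re := by
      by_contra hcon
      exact hw (hsub w (not_le.mp hcon))
    have h2 : ((s : ℂ) * ((r ^ 2 : ℝ) - hf H (w - z))).re = s * (r ^ 2 - (hf H (w - z)).re) := by
      rw [Complex.re_ofReal_mul, Complex.sub_re, Complex.ofReal_re]
    rw [Complex.sub_re, h2]
    have h3 : (-(𝓓.ρ w : ℂ)).re = - 𝓓.ρ w := by simp
    rw [h3]
    nlinarith
  A0 := by
    refine ⟨min (-𝓓.ρ z / 2) (s * r ^ 2), lt_min (by linarith) (by positivity), ?_⟩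
    intro w hw t ht
    rw [repA_Av_lin]
    have hA := 𝓓.re_A w z
    have hw' : 𝓓.ρ w < 0 := hw
    have hc := 𝓓.cpos
    have hcn : 0 ≤ 𝓓.c * ‖w - z‖ ^ 2 := by positivity
    have hA' : -𝓓.ρ z / 2 ≤ (Av 𝓓.th z w).re := by
      have : (𝓓.A w z).re = (Av 𝓓.th z w).re := rfl
      linarith
    refine le_trans ?_ (Complex.re_le_norm _)
    have hre : ((1 - (t : ℂ)) * Av 𝓓.th z w + (t : ℂ) * ((s * r ^ 2 : ℝ) : ℂ)).re =
        (1 - t) * (Av 𝓓.th z w).re + t * (s * r ^ 2) := by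
      have h1 : (1 - (t : ℂ)) = ((1 - t : ℝ) : ℂ) := by push_cast; ring
      rw [h1, Complex.add_re, Complex.re_ofReal_mul, Complex.re_ofReal_mul, Complex.ofReal_re]
    rw [hre]
    have hm1 : min (-𝓓.ρ z / 2) (s * r ^ 2) ≤ -𝓓.ρ z / 2 := min_le_left _ _
    have hm2 : min (-𝓓.ρ z / 2) (s * r ^ 2) ≤ s * r ^ 2 := min_le_right _ _
    have ht0 := ht.1
    have ht1 := ht.2
    nlinarith

/-- A cut-off which is `1` near the closure of the domain. -/
theorem repA_cut : ∃ χ : En n → ℝ, ContDiff ℝ 1 χ ∧ HasCompactSupport χ ∧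
    (∀ w, 𝓓.ρ w ≤ 0 → χ =ᶠ[𝓝 w] fun _ => 1) := by
  obtain ⟨R, hR1, hR⟩ := 𝓓.exists_R
  let f : ContDiffBump (0 : En n) := ⟨R + 1, R + 2, by linarith, by linarith⟩
  refine ⟨f, f.contDiff, f.hasCompactSupport, ?_⟩
  intro w hw
  have h1 : w ∈ ball (0 : En n) (R + 1) := by
    rw [mem_ball_zero_iff]
    linarith [hR w hw]
  filter_upwards [isOpen_ball.mem_nhds h1] with y hy
  exact f.one_of_mem_closedBall (ball_subset_closedBall hy)

/-- The homotopy with a cut-off which is `1` near the closure of the domain. -/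
theorem repA_hom_one {z : En n} (hz : 𝓓.ρ z < 0) {H : Matrix (Fin n) (Fin n) ℂ} (hH : H.PosDef)
    {r s : ℝ} (hr : 0 < r) (hs : 0 < s) (hsub : ∀ w, (hf H (w - z)).re < r ^ 2 → 𝓓.ρ w < 0)
    {Φ : En n → ℂ} (hΦ : DifferentiableOn ℂ Φ 𝓓.D) (hb : ∃ M : ℝ, ∀ w ∈ 𝓓.D, ‖Φ w‖ ≤ M)
    {m : ℕ} (hm : 2 ≤ m) :
    ∫ w in 𝓓.D, Φ w * (fp m (esec H r s z) z w * Om (esec H r s z) w) =
      ∫ w in 𝓓.D, Φ w * (fp m 𝓓.th z w * Om 𝓓.th w) := by
  obtain ⟨χ, hχ1, hχ2, hχ3⟩ := 𝓓.repA_cut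
  have hc : CutData 𝓓.D univ Φ χ :=
    { op := isOpen_univ
      hol := by rwa [inter_univ]
      bd := by rwa [inter_univ]
      sm := hχ1
      cpt := hχ2
      supp := subset_univ _ }
  have hone : ∀ w ∈ 𝓓.D, χ w = 1 := fun w hw => (hχ3 w (le_of_lt hw)).eq_of_nhds
  have hB : ∀ t ∈ Ioo (0 : ℝ) 1, ‖∫ w in 𝓓.D, Φ w *
      (fp m (lin 𝓓.th (fun w a => esec H r s z w a - 𝓓.th w a) t) z w *
      ∑ k, db k (fun y => (χ y : ℂ)) w *
        Omk (lin 𝓓.th (fun w a => esec H r s z w a - 𝓓.th w a) t)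
          (fun w a => esec H r s z w a - 𝓓.th w a) k w)‖ ≤ 0 := by
    intro t _
    have h0 : ∀ w ∈ 𝓓.D, Φ w *
        (fp m (lin 𝓓.th (fun w a => esec H r s z w a - 𝓓.th w a) t) z w *
        ∑ k, db k (fun y => (χ y : ℂ)) w *
        Omk (lin 𝓓.th (fun w a => esec H r s z w a - 𝓓.th w a) t)
          (fun w a => esec H r s z w a - 𝓓.th w a) k w) = (fun _ => (0 : ℂ)) w := by
      intro w hw
      have h1 : ∀ k : Fin n, db k (fun y => (χ y : ℂ)) w = 0 := by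
        intro k
        have h2 : (fun y => (χ y : ℂ)) =ᶠ[𝓝 w] fun _ => (1 : ℂ) := by
          filter_upwards [hχ3 w (le_of_lt hw)] with y hy
          rw [hy]
          simp
        rw [db_congr k h2, db_const]
      simp [h1]
    rw [setIntegral_congr_fun 𝓓.isOpen_D.measurableSet h0]
    simp
  have h := homotopy (𝓓.homData hz hH hr hs hsub) hc hm hB
  rw [repA_lin_one] at h
  have h' := norm_le_zero_iff.mp h
  rw [sub_eq_zero] at h'
  have e1 : ∀ F : En n → ℂ, ∫ w in 𝓓.D, (χ w : ℂ) * Φ w * F w = ∫ w in 𝓓.D, Φ w * F w := by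
    intro F
    refine setIntegral_congr_fun 𝓓.isOpen_D.measurableSet fun w hw => ?_
    simp [hone w hw]
  rw [e1, e1] at h'
  exact h'

/-- The end value of the kernel. -/
theorem repA_end {H : Matrix (Fin n) (Fin n) ℂ} (hH : H.PosDef) {r s : ℝ} (hr : 0 < r)
    (hs : 0 < s) (m : ℕ) (z w : En n) :
    fp m (esec H r s z) z w * Om (esec H r s z) w =
      (((max (r ^ 2 - (hf H (w - z)).re) 0) ^ m : ℝ) : ℂ) *
        (((s ^ m : ℝ) : ℂ) / (((s * r ^ 2 : ℝ) : ℂ)) ^ (m + n + 1) *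
          (((s ^ (n + 1) * r ^ 2 : ℝ) : ℂ) * H.det)) := by
  rw [Om_esec, fp, Av_esec, repA_esec_zero]
  have h2 : ((s : ℂ) * ((r ^ 2 : ℝ) - hf H (w - z))).re = s * (r ^ 2 - (hf H (w - z)).re) := by
    rw [Complex.re_ofReal_mul, Complex.sub_re, Complex.ofReal_re]
  rw [h2]
  have h3 : max (s * (r ^ 2 - (hf H (w - z)).re)) 0 = s * max (r ^ 2 - (hf H (w - z)).re) 0 := by
    rw [mul_max_of_nonneg _ _ hs.le, mul_zero]
  rw [h3, mul_pow]
  push_cast
  ring

theorem repA_one_posDef : (1 : Matrix (Fin n) (Fin n) ℂ).PosDef := Matrix.PosDef.one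

theorem repA_small {z : En n} (hz : 𝓓.ρ z < 0) : ∃ r : ℝ, 0 < r ∧
    ∀ w, (hf (1 : Matrix (Fin n) (Fin n) ℂ) (w - z)).re < r ^ 2 → 𝓓.ρ w < 0 := by
  obtain ⟨r, hr, hsub⟩ := Metric.isOpen_iff.mp 𝓓.isOpen_D z hz
  refine ⟨r, hr, fun w hw => ?_⟩
  rw [hf_one, Complex.ofReal_re] at hw
  apply hsub
  rw [mem_ball, dist_eq_norm]
  exact lt_of_pow_lt_pow_left₀ 2 hr.le hw

/-- The mass of the kernel. -/
theorem mass {z : En n} (hz : 𝓓.ρ z < 0) {m : ℕ} (hm : 2 ≤ m) :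
    ∫ w in 𝓓.D, fp m 𝓓.th z w * Om 𝓓.th w = (kap n m : ℂ) := by
  obtain ⟨r, hr, hsub⟩ := 𝓓.repA_small hz
  have h := 𝓓.repA_hom_one hz repA_one_posDef hr one_pos hsub (Φ := fun _ => 1)
    (differentiableOn_const _) ⟨1, fun w _ => by simp⟩ hm
  simp only [one_mul] at h
  rw [← h]
  simp only [repA_end repA_one_posDef hr one_pos]
  obtain ⟨m', rfl⟩ : ∃ m', m = m' + 1 := ⟨m - 1, by omega⟩
  rw [integral_mul_const]
  have h1 : ∫ w in 𝓓.D, (((max (r ^ 2 - (hf (1 : Matrix (Fin n) (Fin n) ℂ) (w - z)).re) 0) ^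
      (m' + 1) : ℝ) : ℂ) = ((r ^ (2 * (m' + 1 + n)) * kap n (m' + 1) : ℝ) : ℂ) := by
    rw [setIntegral_eq_integral_of_forall_compl_eq_zero, integral_complex_ofReal,
      ← ball_mass hr m' z]
    · simp only [hf_one, Complex.ofReal_re]
    · intro w hw
      have h1 : r ^ 2 ≤ (hf (1 : Matrix (Fin n) (Fin n) ℂ) (w - z)).re := by
        by_contra hcon
        exact hw (hsub w (not_le.mp hcon))
      rw [max_eq_right (by linarith)]
      simp
  rw [h1, Matrix.det_one]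
  have hr' : (r : ℂ) ≠ 0 := by exact_mod_cast hr.ne'
  push_cast
  simp only [one_pow, one_mul, mul_one]
  rw [← pow_mul]
  field_simp
  ring

end Dm

end Pool.Agent.MPca0fc2.CX
end

section

/-!
Task CX KA: size and holomorphy of the kernel.
PROOFS. `Om_bound`: `norm_det_le` and `exists_L` (the entries of `mt th w`; `db k` of the component `0`).
`ker_bound`: `fp m th z w = (-ρ w)^m / (A w z)^(m+n+1)`. `ker_cont`: `Om th` is continuous
(`det` of continuous entries), `A w z ≠ 0` on `D` (`re_A`). `P_holo`: the Lib lemma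
`differentiableAt_integral` (file `Holo`): for `z` in a small ball around `z₀ ∈ D` we have
`‖A w z‖ ≥ -ρ z / 2 ≥ c`, the kernel is holomorphic in `z` (`A w z = -ρ w + pr w (w - z)` is affine in `z`),
bounded by a constant, and `D` has finite measure.
-/

set_option autoImplicit false

open Metric Set MeasureTheory Filter Topology
open scoped ComplexOrder

namespace Pool.Agent.MPca0fc2.CX

namespace Dm

variable {n : ℕ} (𝓓 : Dm n)

theorem Om_bound : ∃ C : ℝ, 0 < C ∧ ∀ w, 𝓓.ρ w ≤ 0 → ‖Om 𝓓.th w‖ ≤ C := by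
  obtain ⟨R, hR1, hR⟩ := 𝓓.exists_R
  obtain ⟨L, hL1, hL⟩ := 𝓓.exists_L R
  have hL0 : 0 < L := by linarith
  refine ⟨(n + 1).factorial * L ^ (n + 1), by positivity, fun w hw => ?_⟩
  have h1 := hL w w (hR w hw) (hR w hw)
  refine norm_det_le hL0.le fun i j => ?_
  refine Fin.cases ?_ (fun k => ?_) j
  · exact h1.1 i
  · exact h1.2.1 i k

/-- the size of the kernel -/
theorem ker_bound (m : ℕ) : ∃ C : ℝ, 0 < C ∧ ∀ w z, 𝓓.ρ w < 0 → 𝓓.ρ z ≤ 0 →
    ‖fp m 𝓓.th z w * Om 𝓓.th w‖ ≤ C * ((-𝓓.ρ w) ^ m / ‖𝓓.A w z‖ ^ (m + n + 1)) := by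
  obtain ⟨C, hC, hb⟩ := 𝓓.Om_bound
  refine ⟨C, hC, fun w z hw hz => ?_⟩
  rw [norm_mul, mul_comm]
  have h1 : ‖fp m 𝓓.th z w‖ = (-𝓓.ρ w) ^ m / ‖𝓓.A w z‖ ^ (m + n + 1) := by
    have h2 : (𝓓.th w 0).re = -𝓓.ρ w := by
      simp [th, sec]
    unfold fp
    rw [norm_div, norm_pow, h2, max_eq_left (by linarith), Complex.norm_real, norm_pow,
      Real.norm_eq_abs, abs_of_pos (by linarith)]
    rfl
  rw [h1]
  exact mul_le_mul_of_nonneg_right (hb w hw.le)
    (div_nonneg (pow_nonneg (by linarith) _) (by positivity))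

theorem kA_th_cont (a : Fin (n + 1)) : Continuous fun w => 𝓓.th w a := by
  have hρ : ContDiff ℝ 3 (fun y => (𝓓.ρ y : ℂ)) := Complex.ofRealCLM.contDiff.comp 𝓓.sm
  refine Fin.cases ?_ (fun k => ?_) a
  · have : (fun w => 𝓓.th w 0) = fun w => -(𝓓.ρ w : ℂ) := by
      funext w
      simp [th, sec]
    rw [this]
    exact hρ.continuous.neg
  · have : (fun w => 𝓓.th w k.succ) = dz k (fun y => (𝓓.ρ y : ℂ)) := by
      funext w
      simp [th, sec]
    rw [this]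
    exact (contDiff_dz (m := 2) k (by exact_mod_cast hρ)).continuous

theorem kA_db_cont (a : Fin (n + 1)) (k : Fin n) :
    Continuous fun w => db k (fun y => 𝓓.th y a) w := by
  have hρ : ContDiff ℝ 3 (fun y => (𝓓.ρ y : ℂ)) := Complex.ofRealCLM.contDiff.comp 𝓓.sm
  have h1 : ContDiff ℝ ((1 + 1 : ℕ) : WithTop ℕ∞) fun w => 𝓓.th w a := by
    refine Fin.cases ?_ (fun k => ?_) a
    · have : (fun w => 𝓓.th w 0) = fun w => -(𝓓.ρ w : ℂ) := by
        funext w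
        simp [th, sec]
      rw [this]
      exact (hρ.neg).of_le (by norm_num)
    · have : (fun w => 𝓓.th w k.succ) = dz k (fun y => (𝓓.ρ y : ℂ)) := by
        funext w
        simp [th, sec]
      rw [this]
      exact contDiff_dz (m := 2) k (by exact_mod_cast hρ)
  exact (contDiff_db (m := 1) k h1).continuous

theorem kA_Om_cont : Continuous (Om 𝓓.th) := by
  unfold Om
  refine Continuous.matrix_det ?_
  refine continuous_matrix fun i j => ?_
  refine Fin.cases ?_ (fun k => ?_) j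
  · exact 𝓓.kA_th_cont i
  · exact 𝓓.kA_db_cont i k

theorem kA_A_cont (z : En n) : Continuous fun w => 𝓓.A w z := by
  unfold A Av
  refine continuous_finsetSum _ fun a _ => (𝓓.kA_th_cont a).mul ?_
  unfold xv
  refine Fin.cases ?_ (fun k => ?_) a
  · exact continuous_const
  · simp only [Fin.cons_succ]
    fun_prop

theorem kA_A_ne {w z : En n} (hw : 𝓓.ρ w ≤ 0) (hz : 𝓓.ρ z < 0) : 𝓓.A w z ≠ 0 := by
  intro h
  have h1 := 𝓓.re_A w z
  rw [h, Complex.zero_re, mul_zero] at h1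
  have h2 : 0 ≤ 𝓓.c * ‖w - z‖ ^ 2 := mul_nonneg 𝓓.cpos.le (by positivity)
  linarith

theorem ker_cont (m : ℕ) {z : En n} (hz : 𝓓.ρ z < 0) :
    ContinuousOn (fun w => fp m 𝓓.th z w * Om 𝓓.th w) 𝓓.D := by
  refine ContinuousOn.mul ?_ 𝓓.kA_Om_cont.continuousOn
  unfold fp
  refine ContinuousOn.div ?_ ((𝓓.kA_A_cont z).pow _).continuousOn fun w hw => ?_
  · refine Continuous.continuousOn ?_
    have h0 := 𝓓.kA_th_cont 0
    exact Complex.continuous_ofReal.comp (((Complex.continuous_re.comp h0).max continuous_const).pow m)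
  · exact pow_ne_zero _ (𝓓.kA_A_ne (le_of_lt hw) hz)

/-- `P F` is holomorphic -/
theorem P_holo (m : ℕ) {F : En n → ℂ} {C : ℝ}
    (hF : AEStronglyMeasurable F (volume.restrict 𝓓.D)) (hC : ∀ w ∈ 𝓓.D, ‖F w‖ ≤ C) :
    DifferentiableOn ℂ (𝓓.P m F) 𝓓.D := by
  intro z₀ hz₀
  refine DifferentiableAt.differentiableWithinAt ?_
  have hρc : Continuous 𝓓.ρ := 𝓓.sm.continuous
  have hz₀' : 𝓓.ρ z₀ < 0 := hz₀
  have hopen : IsOpen {z | 𝓓.ρ z < 𝓓.ρ z₀ / 2} := isOpen_lt hρc continuous_const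
  obtain ⟨r, hr, hball⟩ := Metric.isOpen_iff.mp hopen z₀ (by
    show 𝓓.ρ z₀ < 𝓓.ρ z₀ / 2
    linarith)
  obtain ⟨R, hR1, hR⟩ := 𝓓.exists_R
  obtain ⟨CK, hCK, hK⟩ := 𝓓.ker_bound m
  obtain ⟨L, hL1, hL⟩ := 𝓓.exists_L R
  have hL0 : 0 < L := by linarith
  set a₀ : ℝ := -𝓓.ρ z₀ / 4 with ha₀
  have ha₀p : 0 < a₀ := by rw [ha₀]; linarith
  have hfin : volume 𝓓.D < ⊤ := by
    refine lt_of_le_of_lt (measure_mono (fun w hw => ?_)) (measure_closedBall_lt_top (x := (0 : En n))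
      (r := R))
    rw [mem_closedBall, dist_zero_right]
    exact hR w (le_of_lt hw)
  have hDm : MeasurableSet 𝓓.D := 𝓓.isOpen_D.measurableSet
  have hlow : ∀ w ∈ 𝓓.D, ∀ z ∈ ball z₀ r, a₀ ≤ ‖𝓓.A w z‖ := by
    intro w hw z hz
    have h1 := 𝓓.re_A w z
    have h2 : 𝓓.ρ z < 𝓓.ρ z₀ / 2 := hball hz
    have h3 : 0 ≤ 𝓓.c * ‖w - z‖ ^ 2 := mul_nonneg 𝓓.cpos.le (by positivity)
    have h4 : 𝓓.ρ w < 0 := hw
    have h5 := Complex.re_le_norm (𝓓.A w z)
    rw [ha₀]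
    linarith
  have hρw : ∀ w ∈ 𝓓.D, (-𝓓.ρ w) ^ m ≤ (-𝓓.ρ 0) ^ m := by
    intro w hw
    have h4 : 𝓓.ρ w < 0 := hw
    refine pow_le_pow_left₀ (by linarith) ?_ m
    have := 𝓓.min0 w
    linarith
  have hρ0 : 0 < -𝓓.ρ 0 := by
    have := 𝓓.unit 0 (by simp)
    linarith
  have hC0 : 0 ≤ |C| := abs_nonneg C
  unfold P
  refine DifferentiableAt.const_mul ?_ _
  refine Pool.Agent.Lib.MP_ca0fc2_an.differentiableAt_integral (μ := volume.restrict 𝓓.D)
    (G := fun z w => F w * (fp m 𝓓.th z w * Om 𝓓.th w)) (z₀ := z₀) (r := r) hr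
    (g := fun _ => |C| * (CK * ((-𝓓.ρ 0) ^ m / a₀ ^ (m + n + 1)))) ?_ ?_ ?_ ?_
  · refine (ae_restrict_iff' hDm).mpr (Eventually.of_forall fun w hw => ?_)
    refine DifferentiableOn.const_mul ?_ _
    refine DifferentiableOn.mul_const ?_ _
    unfold fp
    have hnum : DifferentiableOn ℂ (fun _ : En n => (((max (𝓓.th w 0).re 0) ^ m : ℝ) : ℂ))
        (ball z₀ r) := differentiableOn_const _
    simp only [div_eq_mul_inv]
    refine hnum.mul (DifferentiableOn.inv ?_ ?_)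
    · refine DifferentiableOn.pow ?_ _
      unfold Av xv
      refine DifferentiableOn.fun_sum fun a _ => ?_
      refine DifferentiableOn.const_mul ?_ _
      refine Fin.cases ?_ (fun k => ?_) a
      · exact differentiableOn_const (c := (1 : ℂ))
      · simp only [Fin.cons_succ]
        fun_prop
    · intro z hz
      have h2 : 𝓓.ρ z < 𝓓.ρ z₀ / 2 := hball hz
      exact pow_ne_zero _ (𝓓.kA_A_ne (le_of_lt hw) (by linarith))
  · intro z hz
    have h2 : 𝓓.ρ z < 𝓓.ρ z₀ / 2 := hball hz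
    exact hF.mul ((𝓓.ker_cont m (by linarith)).aestronglyMeasurable hDm)
  · have : IsFiniteMeasure (volume.restrict 𝓓.D) := ⟨by
      rw [Measure.restrict_apply_univ]; exact hfin⟩
    exact integrable_const _
  · refine (ae_restrict_iff' hDm).mpr (Eventually.of_forall fun w hw z hz => ?_)
    have h2 : 𝓓.ρ z < 𝓓.ρ z₀ / 2 := hball hz
    rw [norm_mul]
    refine mul_le_mul ((hC w hw).trans (le_abs_self C)) ?_ (norm_nonneg _) hC0
    refine (hK w z hw (by linarith)).trans ?_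
    refine mul_le_mul_of_nonneg_left ?_ hCK.le
    refine div_le_div₀ (by positivity) (hρw w hw) (by positivity) ?_
    exact pow_le_pow_left₀ ha₀p.le (hlow w hw z hz) _

end Dm

end Pool.Agent.MPca0fc2.CX
end

section

/-!
Task CX RepB: the local reproducing formula.
PROOFS. `rep`: by `homotopy` (with `homData`) it is enough that the end value
`∫_D χ Φ (fp m esec z w) (Om esec w)` equals `kap n m * Φ z`. The integrand vanishes for
`h (w - z) ≥ r²`, and `χ = 1`, `w ∈ D ∩ U` for `h < r²`; by `ell_mean` it is `Φ z` times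
`∫ (s max (r² - h) 0)^m s^(n+1) r² det H / (s r²)^(m+n+1)`, and this constant equals `kap n m`: compare
with `mass`: apply `homotopy` with `Φ = 1` and a cut-off `χ = 1` near the closure of `D` as in the proof
of `mass` (so `B = 0`) to the same `homData`: the same end value equals `∫_D fp Om = kap n m`.
(If you like put this constant in a lemma `ell_const`.) `repro`: `rep` with `U = univ`, the big cut-off,
`H = 1`, `r` small, `B = 0`; unfold `P`.
-/

set_option autoImplicit false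

open Metric Set MeasureTheory Filter Topology
open scoped ComplexOrder

namespace Pool.Agent.MPca0fc2.CX

namespace Dm

variable {n : ℕ} (𝓓 : Dm n)

/-- The constant of the end value. -/
theorem repB_const {z : En n} (hz : 𝓓.ρ z < 0) {H : Matrix (Fin n) (Fin n) ℂ} (hH : H.PosDef)
    {r s : ℝ} (hr : 0 < r) (hs : 0 < s) (hsub : ∀ w, (hf H (w - z)).re < r ^ 2 → 𝓓.ρ w < 0)
    {m : ℕ} (hm : 2 ≤ m) :
    ((∫ w, (max (r ^ 2 - (hf H (w - z)).re) 0) ^ m : ℝ) : ℂ) *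
        (((s ^ m : ℝ) : ℂ) / (((s * r ^ 2 : ℝ) : ℂ)) ^ (m + n + 1) *
          (((s ^ (n + 1) * r ^ 2 : ℝ) : ℂ) * H.det)) = (kap n m : ℂ) := by
  have h := 𝓓.repA_hom_one hz hH hr hs hsub (Φ := fun _ => 1)
    (differentiableOn_const _) ⟨1, fun w _ => by simp⟩ hm
  simp only [one_mul] at h
  rw [𝓓.mass hz hm] at h
  rw [← h]
  simp only [repA_end hH hr hs]
  rw [integral_mul_const, setIntegral_eq_integral_of_forall_compl_eq_zero,
    integral_complex_ofReal]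
  intro w hw
  have h1 : r ^ 2 ≤ (hf H (w - z)).re := by
    by_contra hcon
    exact hw (hsub w (not_le.mp hcon))
  rw [max_eq_right (by linarith), zero_pow (by omega)]
  simp

/-- The end value. -/
theorem repB_end {z : En n} (hz : 𝓓.ρ z < 0) {H : Matrix (Fin n) (Fin n) ℂ} (hH : H.PosDef)
    {r s : ℝ} (hr : 0 < r) (hs : 0 < s) (hsub : ∀ w, (hf H (w - z)).re < r ^ 2 → 𝓓.ρ w < 0)
    {Φ F : En n → ℂ} (hΦ : DifferentiableOn ℂ Φ {w | (hf H (w - z)).re < r ^ 2})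
    (hb : ∃ M : ℝ, ∀ w, (hf H (w - z)).re < r ^ 2 → ‖Φ w‖ ≤ M)
    (hF : ∀ w, (hf H (w - z)).re < r ^ 2 → F w = Φ w) {m : ℕ} (hm : 2 ≤ m) :
    ∫ w in 𝓓.D, F w * (fp m (esec H r s z) z w * Om (esec H r s z) w) = (kap n m : ℂ) * Φ z := by
  rw [← 𝓓.repB_const hz hH hr hs hsub hm]
  simp only [repA_end hH hr hs]
  obtain ⟨m', rfl⟩ : ∃ m', m = m' + 1 := ⟨m - 1, by omega⟩
  have h1 : ∀ w, F w * ((((max (r ^ 2 - (hf H (w - z)).re) 0) ^ (m' + 1) : ℝ) : ℂ) *
        (((s ^ (m' + 1) : ℝ) : ℂ) / (((s * r ^ 2 : ℝ) : ℂ)) ^ (m' + 1 + n + 1) *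
          (((s ^ (n + 1) * r ^ 2 : ℝ) : ℂ) * H.det))) =
      (Φ w * (((max (r ^ 2 - (hf H (w - z)).re) 0) ^ (m' + 1) : ℝ) : ℂ)) *
        (((s ^ (m' + 1) : ℝ) : ℂ) / (((s * r ^ 2 : ℝ) : ℂ)) ^ (m' + 1 + n + 1) *
          (((s ^ (n + 1) * r ^ 2 : ℝ) : ℂ) * H.det)) := by
    intro w
    rcases lt_or_ge ((hf H (w - z)).re) (r ^ 2) with hw | hw
    · rw [hF w hw]
      ring
    · rw [max_eq_right (by linarith), zero_pow (by omega)]
      simp
  simp only [h1]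
  rw [integral_mul_const, setIntegral_eq_integral_of_forall_compl_eq_zero,
    ell_mean hH hr m' hΦ hb]
  · ring
  · intro w hw
    have h2 : r ^ 2 ≤ (hf H (w - z)).re := by
      by_contra hcon
      exact hw (hsub w (not_le.mp hcon))
    rw [max_eq_right (by linarith), zero_pow (by omega)]
    simp

/-- The local reproducing formula. -/
theorem rep {z : En n} (hz : 𝓓.ρ z < 0) {H : Matrix (Fin n) (Fin n) ℂ} (hH : H.PosDef)
    {r s : ℝ} (hr : 0 < r) (hs : 0 < s) {U : Set (En n)} {Φ : En n → ℂ} {χ : En n → ℝ}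
    (hc : CutData 𝓓.D U Φ χ)
    (hsub : ∀ w, (hf H (w - z)).re < r ^ 2 → 𝓓.ρ w < 0 ∧ w ∈ U ∧ χ w = 1) {m : ℕ} (hm : 2 ≤ m)
    {B : ℝ} (hB : ∀ t ∈ Ioo (0 : ℝ) 1, ‖∫ w in 𝓓.D, Φ w *
      (fp m (lin 𝓓.th (fun w a => esec H r s z w a - 𝓓.th w a) t) z w *
      ∑ k, db k (fun y => (χ y : ℂ)) w *
        Omk (lin 𝓓.th (fun w a => esec H r s z w a - 𝓓.th w a) t)
          (fun w a => esec H r s z w a - 𝓓.th w a) k w)‖ ≤ B) :
    ‖(∫ w in 𝓓.D, (χ w : ℂ) * Φ w * (fp m 𝓓.th z w * Om 𝓓.th w)) - (kap n m : ℂ) * Φ z‖ ≤ B := by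
  have hsub' : ∀ w, (hf H (w - z)).re < r ^ 2 → 𝓓.ρ w < 0 := fun w hw => (hsub w hw).1
  have h := homotopy (𝓓.homData hz hH hr hs hsub') hc hm hB
  rw [repA_lin_one] at h
  have hsubset : {w | (hf H (w - z)).re < r ^ 2} ⊆ 𝓓.D ∩ U := fun w hw =>
    ⟨(hsub w hw).1, (hsub w hw).2.1⟩
  obtain ⟨M, hM⟩ := hc.bd
  have h2 := 𝓓.repB_end hz hH hr hs hsub' (Φ := Φ) (F := fun w => (χ w : ℂ) * Φ w)
    (hc.hol.mono hsubset) ⟨M, fun w hw => hM w (hsubset hw)⟩
    (fun w hw => by rw [(hsub w hw).2.2]; simp) hm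
  rw [h2] at h
  rwa [norm_sub_rev]

/-- The kernel reproduces bounded holomorphic functions. -/
theorem repro {z : En n} (hz : 𝓓.ρ z < 0) {Φ : En n → ℂ} (hΦ : DifferentiableOn ℂ Φ 𝓓.D)
    (hb : ∃ M : ℝ, ∀ w ∈ 𝓓.D, ‖Φ w‖ ≤ M) {m : ℕ} (hm : 2 ≤ m) : 𝓓.P m Φ z = Φ z := by
  obtain ⟨r, hr, hsub⟩ := 𝓓.repA_small hz
  obtain ⟨M, hM⟩ := hb
  have h := 𝓓.repA_hom_one hz repA_one_posDef hr one_pos hsub hΦ ⟨M, hM⟩ hm
  have h2 := 𝓓.repB_end hz repA_one_posDef hr one_pos hsub (Φ := Φ) (F := Φ)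
    (hΦ.mono fun w hw => hsub w hw) ⟨M, fun w hw => hM w (hsub w hw)⟩ (fun w _ => rfl) hm
  rw [h2] at h
  rw [P, ← h, ← mul_assoc, inv_mul_cancel₀, one_mul]
  have := kap_pos n m
  exact_mod_cast this.ne'

end Dm

end Pool.Agent.MPca0fc2.CX
end

section

/-!
Task CX TRB: position of the cut-off region, and the bound of the weight.
PROOFS. Put `h = ‖w-z‖²/R + ‖pr z (w-z)‖²/R²` (`hf_HR`). `cut_near`: `h ≤ 9 ε²` gives `‖w-z‖² ≤ 9 ε² R`,
`‖pr z (w-z)‖ ≤ 3 ε R`; use `A_upper`, `ε₀ ≤ 1` small. `cut_far`: `h ≥ ε²` gives `‖w-z‖² ≥ ε² R / 2` or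
`‖pr z (w-z)‖² ≥ ε² R² / 2`; use `A_lower`. `fp_bound`: with `δ = -ρ w`, `lin` at `0` is
`δ_t = (1-t) δ + t R (r² - h) ≤ (1 - t) δ ≤ δ`. If `δ_t ≤ 0` then `fp = 0`. Otherwise
`t R ε²/2 ≤ t R (h - r²) < (1 - t) δ ≤ (1 - t) C' R` (`cut_near`-type bound of `δ`: from `A_upper` with
`‖w - z‖² ≤ 4 ε² R`, `‖pr‖ ≤ 2 ε R`, and `-ρ z ≤ K R`), so `1 - t ≥ c₁ > 0`. `Av (lin ..) z w =
(1 - t) A w z + t R r²` where `Re A > 0`, so `‖Av‖ ≥ (1 - t) ‖A w z‖ ≥ c₁ c R` by `cut_far`.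
-/

set_option autoImplicit false

open Metric Set MeasureTheory Filter Topology
open scoped ComplexOrder

namespace Pool.Agent.MPca0fc2.CX

namespace Dm

variable {n : ℕ} (𝓓 : Dm n)

theorem tRB_hre (w z : En n) (R : ℝ) : (hf (𝓓.HR z R) (w - z)).re =
    ‖w - z‖ ^ 2 / R + ‖𝓓.pr z (w - z)‖ ^ 2 / R ^ 2 := by
  rw [hf_HR, Complex.ofReal_re]

/-- Consequences of an upper bound of the form. -/
theorem tRB_small {w z : En n} {R a : ℝ} (hR : 0 < R) (ha : 0 ≤ a)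
    (h : (hf (𝓓.HR z R) (w - z)).re ≤ a ^ 2) :
    ‖w - z‖ ^ 2 ≤ a ^ 2 * R ∧ ‖𝓓.pr z (w - z)‖ ≤ a * R := by
  rw [tRB_hre] at h
  have h1 : 0 ≤ ‖w - z‖ ^ 2 / R := by positivity
  have h2 : 0 ≤ ‖𝓓.pr z (w - z)‖ ^ 2 / R ^ 2 := by positivity
  constructor
  · have : ‖w - z‖ ^ 2 / R ≤ a ^ 2 := by linarith
    rwa [div_le_iff₀ hR] at this
  · have h3 : ‖𝓓.pr z (w - z)‖ ^ 2 / R ^ 2 ≤ a ^ 2 := by linarith
    rw [div_le_iff₀ (by positivity), ← mul_pow] at h3
    exact (pow_le_pow_iff_left₀ (norm_nonneg _) (by positivity) two_ne_zero).mp h3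

theorem tRB_norm_add {x : ℂ} {y : ℝ} (hx : 0 ≤ x.re) (hy : 0 ≤ y) : ‖x‖ ≤ ‖x + (y : ℂ)‖ := by
  have h : ‖x‖ ^ 2 ≤ ‖x + (y : ℂ)‖ ^ 2 := by
    rw [Complex.sq_norm, Complex.sq_norm, Complex.normSq_apply, Complex.normSq_apply]
    simp only [Complex.add_re, Complex.ofReal_re, Complex.add_im, Complex.ofReal_im, add_zero]
    nlinarith
  exact (pow_le_pow_iff_left₀ (norm_nonneg _) (norm_nonneg _) two_ne_zero).mp h

theorem tRB_Av_lin (θ : En n → Fin (n + 1) → ℂ) (H : Matrix (Fin n) (Fin n) ℂ) (r s t : ℝ)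
    (z w : En n) : Av (lin θ (fun w a => esec H r s z w a - θ w a) t) z w =
      (1 - (t : ℂ)) * Av θ z w + (t : ℂ) * ((s * r ^ 2 : ℝ) : ℂ) := by
  rw [← Av_esec H r s z w]
  simp only [Av, lin, Finset.mul_sum, ← Finset.sum_add_distrib]
  refine Finset.sum_congr rfl fun a _ => ?_
  ring

/-- The points of the support of the cut-off are near `z` in the pseudodistance. -/
theorem cut_near {κ : ℝ} (hκ : 0 < κ) : ∃ ε₀ : ℝ, 0 < ε₀ ∧ ∀ ε : ℝ, 0 < ε → ε ≤ ε₀ →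
    ∀ w z R, 𝓓.ρ w ≤ 0 → 𝓓.ρ z ≤ 0 → 0 < R → R ≤ 1 →
    (hf (𝓓.HR z R) (w - z)).re ≤ 9 * ε ^ 2 →
    ‖𝓓.A w z‖ ≤ -𝓓.ρ z + κ * R ∧ ‖𝓓.A z w‖ ≤ -𝓓.ρ z + κ * R ∧ -𝓓.ρ w ≤ -𝓓.ρ z + κ * R := by
  obtain ⟨C, hC1, hC⟩ := 𝓓.A_upper
  have hC0 : 0 < C := by linarith
  refine ⟨min 1 (κ / (12 * C)), lt_min one_pos (by positivity), ?_⟩
  intro ε hε hε0 w z R hw hz hR hR1 hh
  have hε1 : ε ≤ 1 := le_trans hε0 (min_le_left _ _)
  have hε2 : ε ≤ κ / (12 * C) := le_trans hε0 (min_le_right _ _)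
  rw [le_div_iff₀ (by positivity)] at hε2
  obtain ⟨h1, h2⟩ := 𝓓.tRB_small (a := 3 * ε) hR (by positivity) (by linarith)
  obtain ⟨hA, hB, hD⟩ := hC w z hw hz
  have h3 : ‖𝓓.pr z (w - z)‖ + ‖w - z‖ ^ 2 ≤ 12 * ε * R := by nlinarith
  have h4 : C * (‖𝓓.pr z (w - z)‖ + ‖w - z‖ ^ 2) ≤ κ * R := by
    calc C * (‖𝓓.pr z (w - z)‖ + ‖w - z‖ ^ 2) ≤ C * (12 * ε * R) :=
          mul_le_mul_of_nonneg_left h3 hC0.le
      _ = (ε * (12 * C)) * R := by ring
      _ ≤ κ * R := mul_le_mul_of_nonneg_right hε2 hR.le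
  refine ⟨by linarith, ?_, by linarith⟩
  have h5 : ‖𝓓.pr z (w - z)‖ ≤ C * (‖𝓓.pr z (w - z)‖ + ‖w - z‖ ^ 2) := by
    have h6 : 0 ≤ ‖𝓓.pr z (w - z)‖ := norm_nonneg _
    have h7 : 0 ≤ ‖w - z‖ ^ 2 := by positivity
    nlinarith
  linarith

/-- The points outside of the cut-off are far from `z`. -/
theorem cut_far {ε : ℝ} (hε : 0 < ε) : ∃ c : ℝ, 0 < c ∧
    ∀ w z R, 𝓓.ρ w ≤ 0 → 𝓓.ρ z ≤ 0 → 0 < R → R ≤ 1 →
    ε ^ 2 ≤ (hf (𝓓.HR z R) (w - z)).re → c * R ≤ ‖𝓓.A w z‖ := by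
  obtain ⟨C, hC1, hC⟩ := 𝓓.A_lower
  have hC0 : 0 < C := by linarith
  refine ⟨min 1 (ε ^ 2 / (2 * (C + C ^ 2))), lt_min one_pos (by positivity), ?_⟩
  intro w z R hw hz hR hR1 hh
  by_contra hcon
  push Not at hcon
  obtain ⟨-, -, h3, -, h5, -⟩ := hC w z hw hz
  have ha0 : 0 ≤ ‖𝓓.A w z‖ := norm_nonneg _
  obtain ⟨x, hx⟩ : ∃ x, x = ‖𝓓.A w z‖ / R := ⟨_, rfl⟩
  have hxA : ‖𝓓.A w z‖ = x * R := by rw [hx]; field_simp
  have hx0 : 0 ≤ x := by rw [hx]; positivity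
  have hxc : x < min 1 (ε ^ 2 / (2 * (C + C ^ 2))) := by
    rw [hxA] at hcon
    exact lt_of_mul_lt_mul_right hcon hR.le
  have hx1 : x < 1 := lt_of_lt_of_le hxc (min_le_left _ _)
  have hx2 : x < ε ^ 2 / (2 * (C + C ^ 2)) := lt_of_lt_of_le hxc (min_le_right _ _)
  rw [lt_div_iff₀ (by positivity)] at hx2
  rw [tRB_hre] at hh
  rw [hxA] at h3 h5
  have h6 : ‖w - z‖ ^ 2 / R ≤ C * x := by
    rw [div_le_iff₀ hR]
    linarith
  have h7 : ‖𝓓.pr z (w - z)‖ ^ 2 / R ^ 2 ≤ (C * x) ^ 2 := by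
    rw [div_le_iff₀ (by positivity), ← mul_pow]
    exact pow_le_pow_left₀ (norm_nonneg _) (by linarith) 2
  have h8 : (C * x) ^ 2 ≤ C ^ 2 * x := by
    have h9 : x * x ≤ x := by nlinarith
    calc (C * x) ^ 2 = C ^ 2 * (x * x) := by ring
      _ ≤ C ^ 2 * x := mul_le_mul_of_nonneg_left h9 (by positivity)
  have hε2 : 0 < ε ^ 2 := by positivity
  nlinarith

/-- The bound of the weight during the homotopy. -/
theorem fp_bound {K ε : ℝ} (hK : 0 < K) (hε : 0 < ε) (m : ℕ) (hm : 1 ≤ m) : ∃ C : ℝ, 0 < C ∧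
    ∀ z R r t w, 𝓓.ρ z < 0 → 0 < R → R ≤ 1 → -𝓓.ρ z ≤ K * R → 0 < r → r ^ 2 ≤ ε ^ 2 / 2 →
    0 < t → t < 1 → 𝓓.ρ w < 0 → ε ^ 2 ≤ (hf (𝓓.HR z R) (w - z)).re →
    (hf (𝓓.HR z R) (w - z)).re ≤ 4 * ε ^ 2 →
    ‖fp m (lin 𝓓.th (fun w a => esec (𝓓.HR z R) r R z w a - 𝓓.th w a) t) z w‖ ≤
      C * ((-𝓓.ρ w) ^ m / R ^ (m + n + 1)) := by
  obtain ⟨c, hc, hfar⟩ := 𝓓.cut_far hε
  obtain ⟨Cu, hCu1, hCu⟩ := 𝓓.A_upper
  have hCu0 : 0 < Cu := by linarith
  obtain ⟨C', hC'⟩ : ∃ C', C' = K + Cu * (2 * ε + 4 * ε ^ 2) := ⟨_, rfl⟩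
  have hC'0 : 0 < C' := by rw [hC']; positivity
  obtain ⟨c₁, hc₁⟩ : ∃ c₁, c₁ = (ε ^ 2 / 2) / (ε ^ 2 / 2 + C') := ⟨_, rfl⟩
  have hc₁0 : 0 < c₁ := by rw [hc₁]; positivity
  refine ⟨((c₁ * c) ^ (m + n + 1))⁻¹, by positivity, ?_⟩
  intro z R r t w hz hR hR1 hzK hr hr2 ht0 ht1 hw hh1 hh2
  have hA1 : c * R ≤ ‖𝓓.A w z‖ := hfar w z R hw.le hz.le hR hR1 hh1
  obtain ⟨h1, h2⟩ := 𝓓.tRB_small (a := 2 * ε) hR (by positivity) (by linarith)
  obtain ⟨-, -, hD⟩ := hCu w z hw.le hz.le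
  have hδ : -𝓓.ρ w ≤ C' * R := by
    have h3 : ‖𝓓.pr z (w - z)‖ + ‖w - z‖ ^ 2 ≤ (2 * ε + 4 * ε ^ 2) * R := by nlinarith
    have h4 : Cu * (‖𝓓.pr z (w - z)‖ + ‖w - z‖ ^ 2) ≤ Cu * ((2 * ε + 4 * ε ^ 2) * R) :=
      mul_le_mul_of_nonneg_left h3 hCu0.le
    rw [hC']
    linarith
  have hl0 : (lin 𝓓.th (fun w a => esec (𝓓.HR z R) r R z w a - 𝓓.th w a) t w 0).re =
      (1 - t) * (-𝓓.ρ w) + t * (R * (r ^ 2 - (hf (𝓓.HR z R) (w - z)).re)) := by
    simp only [lin, esec, th, sec, Fin.cons_zero, Complex.add_re, Complex.re_ofReal_mul,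
      Complex.sub_re, Complex.neg_re, Complex.ofReal_re]
    ring
  have hδt : (lin 𝓓.th (fun w a => esec (𝓓.HR z R) r R z w a - 𝓓.th w a) t w 0).re ≤
      -𝓓.ρ w := by
    rw [hl0]
    have h3 : t * (R * (r ^ 2 - (hf (𝓓.HR z R) (w - z)).re)) ≤ 0 := by
      apply mul_nonpos_of_nonneg_of_nonpos ht0.le
      apply mul_nonpos_of_nonneg_of_nonpos hR.le
      have : 0 < ε ^ 2 := by positivity
      linarith
    nlinarith
  rw [fp, norm_div, Complex.norm_real, norm_pow, norm_pow, Real.norm_eq_abs]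
  rcases le_or_gt ((lin 𝓓.th (fun w a => esec (𝓓.HR z R) r R z w a - 𝓓.th w a) t w 0).re) 0
    with hneg | hpos
  · rw [max_eq_right hneg, abs_zero, zero_pow (by omega), zero_div]
    have h3 : 0 ≤ -𝓓.ρ w := by linarith
    positivity
  · rw [max_eq_left hpos.le, abs_of_nonneg (by positivity)]
    have ht : c₁ ≤ 1 - t := by
      rw [hc₁, div_le_iff₀ (by positivity)]
      rw [hl0] at hpos
      have h3 : t * (R * ((hf (𝓓.HR z R) (w - z)).re - r ^ 2)) < (1 - t) * (-𝓓.ρ w) := by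
        nlinarith
      have h4 : (1 - t) * (-𝓓.ρ w) ≤ (1 - t) * (C' * R) :=
        mul_le_mul_of_nonneg_left hδ (by linarith)
      have h5 : t * (R * (ε ^ 2 / 2)) ≤ t * (R * ((hf (𝓓.HR z R) (w - z)).re - r ^ 2)) := by
        apply mul_le_mul_of_nonneg_left _ ht0.le
        apply mul_le_mul_of_nonneg_left _ hR.le
        linarith
      have h6 : (t * (ε ^ 2 / 2)) * R < ((1 - t) * C') * R := by nlinarith
      have h7 : t * (ε ^ 2 / 2) < (1 - t) * C' := lt_of_mul_lt_mul_right h6 hR.le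
      nlinarith
    have hre : 0 ≤ (𝓓.A w z).re := by
      have h3 := 𝓓.re_A w z
      have h4 := 𝓓.cpos
      have h5 : 0 ≤ 𝓓.c * ‖w - z‖ ^ 2 := by positivity
      linarith
    have hAv : c₁ * c * R ≤
        ‖Av (lin 𝓓.th (fun w a => esec (𝓓.HR z R) r R z w a - 𝓓.th w a) t) z w‖ := by
      rw [tRB_Av_lin]
      have e1 : (1 - (t : ℂ)) * Av 𝓓.th z w + (t : ℂ) * ((R * r ^ 2 : ℝ) : ℂ) =
          ((1 - t : ℝ) : ℂ) * 𝓓.A w z + ((t * (R * r ^ 2) : ℝ) : ℂ) := by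
        rw [A]
        push_cast
        ring
      rw [e1]
      refine le_trans ?_ (tRB_norm_add (by
        rw [Complex.re_ofReal_mul]
        exact mul_nonneg (by linarith) hre) (by positivity))
      rw [norm_mul, Complex.norm_real, Real.norm_eq_abs, abs_of_nonneg (by linarith)]
      calc c₁ * c * R = c₁ * (c * R) := by ring
        _ ≤ (1 - t) * ‖𝓓.A w z‖ := mul_le_mul ht hA1 (by positivity) (by linarith)
    have hcR : 0 < c₁ * c * R := by positivity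
    calc (lin 𝓓.th (fun w a => esec (𝓓.HR z R) r R z w a - 𝓓.th w a) t w 0).re ^ m /
          ‖Av (lin 𝓓.th (fun w a => esec (𝓓.HR z R) r R z w a - 𝓓.th w a) t) z w‖ ^ (m + n + 1)
        ≤ (-𝓓.ρ w) ^ m / (c₁ * c * R) ^ (m + n + 1) := by
          apply div_le_div₀ (by apply pow_nonneg; linarith)
            (pow_le_pow_left₀ hpos.le hδt m) (by positivity)
            (pow_le_pow_left₀ hcR.le hAv _)
      _ = ((c₁ * c) ^ (m + n + 1))⁻¹ * ((-𝓓.ρ w) ^ m / R ^ (m + n + 1)) := by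
          rw [mul_pow (c₁ * c) R]
          field_simp

end Dm

end Pool.Agent.MPca0fc2.CX
end
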