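import Mathlib
import Pool.Agent.Lib.MP_ca0fc2_an.Mg.G083
import Pool.Agent.Lib.MP_ca0fc2_an.Mg.G084
import Pool.Agent.Lib.MP_ca0fc2_an.Mg.G082

section

/-!
Task CX GeoD: distance to the complement; `∂ρ` near the boundary.
PROOFS. `dist_comp`: `Dᶜ` is nonempty and closed (`n ≥ 1`, `D` is bounded). `≤`: for `y ∉ D`:
`1 ≤ g y ≤ g z + ‖y - z‖`, so `1 - g z ≤ infDist`. `≥`: for `z ≠ 0` the point `z₁ = z / g z ∉ D` has the
distance `(1 - g z) ‖z₁‖ ≤ R (1 - g z)`; for `z = 0` use any point with `g = 1`.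
`pr_lower`: `conv z 0`: `ρ z - ρ'(z) z + c ‖z‖² ≤ ρ 0 ≤ ρ z`, so `ρ'(z) z ≥ c ‖z‖²`, thus
`2 ‖pr z z‖ ≥ c ‖z‖²`, `‖pr z z‖ ≤ (∑ ‖dz j ρ z‖²)^(1/2) ‖z‖` (Cauchy-Schwarz) and `‖z‖ ≥ g z ≥ 7/8`.
-/

set_option autoImplicit false

open Metric Set MeasureTheory Filter Topology
open scoped ComplexOrder

namespace Pool.Agent.MPca0fc2.CX

namespace Dm

variable {n : ℕ} (𝓓 : Dm n)

/-- the point of the boundary on the ray of `z` -/
theorem geoD_unit (z : En n) (hz : 0 < 𝓓.g z) :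
    𝓓.g ((1 / 𝓓.g z) • z) = 1 ∧ 𝓓.ρ ((1 / 𝓓.g z) • z) = 0 := by
  have h1 : 𝓓.g ((1 / 𝓓.g z) • z) = 1 := by
    have h := 𝓓.g_smul (1 / 𝓓.g z) (by positivity) z
    rw [Complex.coe_smul] at h
    rw [h, one_div_mul_cancel hz.ne']
  refine ⟨h1, le_antisymm ((𝓓.g_le_one _).1 h1.le) ?_⟩
  by_contra h
  push Not at h
  rw [← g_lt_one, h1] at h
  exact lt_irrefl _ h

/-- `1 - g` and the euclidean distance to the complement are comparable on the domain -/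
theorem dist_comp (hn : 1 ≤ n) : ∃ C : ℝ, 1 ≤ C ∧ ∀ z, 𝓓.ρ z < 0 → 1 - 𝓓.g z ≤ C * infDist z 𝓓.Dᶜ ∧
    infDist z 𝓓.Dᶜ ≤ C * (1 - 𝓓.g z) := by
  obtain ⟨R, hR1, hR⟩ := 𝓓.exists_R
  obtain ⟨R', hR'1, hR'⟩ := 𝓓.norm_le_g
  -- a point with `g = 1`
  obtain ⟨e, he⟩ : ∃ e : En n, 0 < 𝓓.g e := by
    refine ⟨ee ⟨0, hn⟩, ?_⟩
    have h := hR' (ee ⟨0, hn⟩)
    rw [PiLp.norm_single, norm_one] at h
    by_contra h0
    push Not at h0
    nlinarith
  have hbd : ∀ z : En n, 0 < 𝓓.g z → 𝓓.g z ≤ 1 → infDist z 𝓓.Dᶜ ≤ R * (1 - 𝓓.g z) := by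
    intro z hz hz1
    obtain ⟨h1, h2⟩ := 𝓓.geoD_unit z hz
    set z₁ : En n := (1 / 𝓓.g z) • z with hz₁
    have hzz : z = 𝓓.g z • z₁ := by
      rw [hz₁, smul_smul, mul_one_div_cancel hz.ne', one_smul]
    have hm : z₁ ∈ 𝓓.Dᶜ := by
      intro h
      have h' : 𝓓.ρ z₁ < 0 := h
      rw [h2] at h'
      exact lt_irrefl _ h'
    refine (infDist_le_dist_of_mem hm).trans ?_
    have h7 : 0 ≤ 1 - 𝓓.g z := sub_nonneg.2 hz1
    have h5 : dist z z₁ = (1 - 𝓓.g z) * ‖z₁‖ := by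
      have : z - z₁ = -((1 - 𝓓.g z) • z₁) := by
        rw [sub_smul, one_smul, ← hzz]; abel
      rw [dist_eq_norm, this, norm_neg, norm_smul, Real.norm_of_nonneg h7]
    rw [h5]
    have := hR z₁ h2.le
    nlinarith
  have hne : (𝓓.Dᶜ).Nonempty := by
    obtain ⟨h1, h2⟩ := 𝓓.geoD_unit e he
    refine ⟨(1 / 𝓓.g e) • e, fun h => ?_⟩
    have h' : 𝓓.ρ ((1 / 𝓓.g e) • e) < 0 := h
    rw [h2] at h'
    exact lt_irrefl _ h'
  refine ⟨R, hR1, fun z hz => ⟨?_, ?_⟩⟩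
  · have h1 : 1 - 𝓓.g z ≤ infDist z 𝓓.Dᶜ := by
      rw [le_infDist hne]
      intro y hy
      have hy1 : 1 ≤ 𝓓.g y := by
        by_contra h
        push Not at h
        exact hy ((𝓓.g_lt_one y).1 h)
      have h2 := 𝓓.g_add z (y - z)
      rw [add_sub_cancel] at h2
      have h3 := 𝓓.g_le (y - z)
      rw [dist_comm, dist_eq_norm]
      linarith
    have h0 : 0 ≤ infDist z 𝓓.Dᶜ := infDist_nonneg
    nlinarith
  · have hz1 : 𝓓.g z < 1 := (𝓓.g_lt_one z).2 hz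
    rcases eq_or_lt_of_le (𝓓.g_nonneg z) with hg | hg
    · have hz0 : z = 0 := by
        have := hR' z
        rw [← hg, mul_zero] at this
        exact norm_le_zero_iff.1 this
      obtain ⟨h1, h2⟩ := 𝓓.geoD_unit e he
      have hm : (1 / 𝓓.g e) • e ∈ 𝓓.Dᶜ := by
        intro h
        have h' : 𝓓.ρ ((1 / 𝓓.g e) • e) < 0 := h
        rw [h2] at h'
        exact lt_irrefl _ h'
      refine (infDist_le_dist_of_mem hm).trans ?_
      rw [← hg, hz0, dist_zero_left, sub_zero, mul_one]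
      exact hR _ h2.le
    · exact hbd z hg hz1.le

/-- `∂ρ` is bounded below near the boundary -/
theorem pr_lower : ∃ c : ℝ, 0 < c ∧ ∀ z, 7 / 8 ≤ 𝓓.g z → 𝓓.ρ z ≤ 0 →
    c ≤ ∑ j, ‖dz j (fun y => (𝓓.ρ y : ℂ)) z‖ ^ 2 := by
  obtain ⟨R', hR'1, hR'⟩ := 𝓓.norm_le_g
  refine ⟨(𝓓.c * (7 / 8) / 2) ^ 2, by have := 𝓓.cpos; positivity, fun z hg hz => ?_⟩
  have hc := 𝓓.cpos
  have hzn : 7 / 8 ≤ ‖z‖ := hg.trans (𝓓.g_le z)
  have hzpos : 0 < ‖z‖ := by linarith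
  -- `ρ'(z) z ≥ c ‖z‖²`
  have h1 := 𝓓.conv z 0
  rw [zero_sub, norm_neg, map_neg] at h1
  have h2 := 𝓓.min0 z
  rw [𝓓.fderiv_pr] at h1
  have h3 : 𝓓.c * ‖z‖ ^ 2 ≤ 2 * (𝓓.pr z z).re := by linarith
  have h4 : (𝓓.pr z z).re ≤ ‖𝓓.pr z z‖ := Complex.re_le_norm _
  set S : ℝ := ∑ j, ‖dz j (fun y => (𝓓.ρ y : ℂ)) z‖ ^ 2 with hS
  have hS0 : 0 ≤ S := Finset.sum_nonneg fun j _ => by positivity
  have h5 : ‖𝓓.pr z z‖ ≤ Real.sqrt S * ‖z‖ := by
    unfold Dm.pr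
    refine (norm_sum_le _ _).trans ?_
    have h6 : ∀ j, ‖dz j (fun y => (𝓓.ρ y : ℂ)) z * z j‖ =
        ‖dz j (fun y => (𝓓.ρ y : ℂ)) z‖ * ‖z j‖ := fun j => norm_mul _ _
    rw [Finset.sum_congr rfl fun j _ => h6 j]
    refine (Real.sum_mul_le_sqrt_mul_sqrt _ _ _).trans ?_
    rw [EuclideanSpace.norm_eq]
  have h7 : 𝓓.c * ‖z‖ ≤ 2 * Real.sqrt S := by
    have : 𝓓.c * ‖z‖ * ‖z‖ ≤ 2 * Real.sqrt S * ‖z‖ := by nlinarith
    exact le_of_mul_le_mul_right this hzpos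
  have h8 : 𝓓.c * (7 / 8) / 2 ≤ Real.sqrt S := by nlinarith
  have h9 : (𝓓.c * (7 / 8) / 2) ^ 2 ≤ Real.sqrt S ^ 2 := by
    apply pow_le_pow_left₀ (by positivity) h8
  rwa [Real.sq_sqrt hS0] at h9

end Dm

end Pool.Agent.MPca0fc2.CX
end

section

/-!
Task CX TRC: the bound of the determinants (the main computation).
PROOF. Fix `z, R, r, t, w`. Let `p = dz · ρ z` (vector), `|p| ≥ c₀` by `pr_lower`, `θ = lin th η t`,
`η = esec - th`, `M = mt θ w`, `c_k = db k cut w`. By `det_add_rank_one` (with `c_0 = 0`):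
`∑_k c_k det (M.updateCol k.succ (η w)) = det (M + η c^T) - det M`. Let `T` be the matrix
`T_ij = √R δ_ij + (R - √R) ν_i conj ν_j`, `ν = conj p / |p|` (so `T` is Hermitian, `T = R` on `ν` and
`√R` on the orthogonal complement), `B = diag (1/R, T^t / R)`, `C = diag (1, conj T)` (block matrices of
size `n + 1`: `B` has the entries `B_00 = 1/R`, `B_{j+1,i+1} = T_ij / R`; `C_00 = 1`,
`C_{l+1,k+1} = conj T_lk`). `det T = R^((n+1)/2)` (matrix determinant lemma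
`Matrix.det_one_add_replicateCol_mul_replicateRow`), so `det B * det C = R^(-(n+1)) |det T|² = 1`
(up to real/complex conj), hence `det (M + η c^T) - det M = det (B M C + (Bη) (cC)^T) - det (B M C)`.
By `norm_det_le` it is enough to bound all entries of `B M C`, `B η`, `c C` by a constant (depending on
`𝓓, K, ε`). All sections are combinations of `th` and `esec (HR z R) r R z`; with `v = w - z`,
`‖v‖² ≤ 4 ε² R`, `‖pr z v‖ ≤ 2 ε R`, `-ρ w ≤ C R` (`A_upper`, `-ρ z ≤ K R`), `‖T x‖ ≤ √R ‖x‖` (`R ≤ 1`):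
  (1) `th`: entry `00`: `-ρ w / R`; entries `(j,0)`: `(1/R) ∑_i T_ij ∂_iρ(w)`, where
  `∑_i T_ij p_i = R p_j` and `|∂_iρ(w) - p_i| ≤ L ‖v‖ ≤ C √R`, so it is `p_j + O(√R √R / R)`; entries `(0,k)`:
  `-(1/R) ∑_l conj T_lk conj (∂_lρ(w))` is the conjugate of the same (`db_real`); entries `(j,k)`:
  `(1/R) ∑ T_ij (db l ∂_iρ (w)) conj T_lk = O(√R √R / R)`.
  (2) `esec` with `s = R`: entry `00`: `r² - h`; `(j,0)`: `∑_i T_ij ∑_k H_ik conj v_k`,
  `∑_k H_ik conj v_k = conj v_i / R + p_i conj (pr z v) / R²`, gives `O(√R √R / R) + R p_j O(R) / R²`; `(0,k)` its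
  conjugate up to sign; `(j,k)`: `∑ T_ij H_il conj T_lk = O(R/R) + R p_j R conj p_k / R²`.
  (3) `c C`: `∑_l c_l conj T_lk` with `db_cut`: `|deriv c0| ≤ L`, `∑_l conj T_lk v_l / R = O(1)`,
  `pr z v ∑_l conj p_l conj T_lk / R² = pr z v conj p_k / R = O(1)`.
Note `mt (lin θ η t) w = (1 - t) mt th w + t mt (esec ..) w` (entries; `db_add`, `db_const_mul`).
Split this into as many lemmas as you like.
-/

set_option autoImplicit false

open Metric Set MeasureTheory Filter Topology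
open scoped ComplexOrder

namespace Pool.Agent.MPca0fc2.CX

/-- block diagonal matrices -/
noncomputable def trC_blk {n : ℕ} (a : ℂ) (A : Matrix (Fin n) (Fin n) ℂ) :
    Matrix (Fin (n + 1)) (Fin (n + 1)) ℂ :=
  Matrix.of fun i j => Fin.cases (Fin.cases a (fun _ => 0) j)
    (fun i' => Fin.cases 0 (fun j' => A i' j') j) i

theorem trC_blk_det {n : ℕ} (a : ℂ) (A : Matrix (Fin n) (Fin n) ℂ) :
    (trC_blk a A).det = a * A.det := by
  have h1 : (trC_blk a A).submatrix Fin.succ (Fin.succAbove 0) = A := by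
    ext i j
    simp [trC_blk]
  rw [Matrix.det_succ_row_zero, Fin.sum_univ_succ, h1]
  simp [trC_blk]

theorem trC_blk_mul {n : ℕ} (a b : ℂ) (A C : Matrix (Fin n) (Fin n) ℂ)
    (N : Matrix (Fin (n + 1)) (Fin (n + 1)) ℂ) :
    (trC_blk a A * N * trC_blk b C) 0 0 = a * N 0 0 * b ∧
    (∀ j, (trC_blk a A * N * trC_blk b C) (Fin.succ j) 0 = (∑ i, A j i * N (Fin.succ i) 0) * b) ∧
    (∀ k, (trC_blk a A * N * trC_blk b C) 0 (Fin.succ k) = a * ∑ l, N 0 (Fin.succ l) * C l k) ∧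
    (∀ j k, (trC_blk a A * N * trC_blk b C) (Fin.succ j) (Fin.succ k) =
      ∑ l, (∑ i, A j i * N (Fin.succ i) (Fin.succ l)) * C l k) := by
  refine ⟨?_, ?_, ?_, ?_⟩
  · simp [Matrix.mul_apply, Fin.sum_univ_succ, trC_blk]
  · intro j
    simp [Matrix.mul_apply, Fin.sum_univ_succ, trC_blk]
  · intro k
    simp [Matrix.mul_apply, Fin.sum_univ_succ, trC_blk, Finset.mul_sum, mul_assoc]
  · intro j k
    simp [Matrix.mul_apply, Fin.sum_univ_succ, trC_blk]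

/-- the unitary dilation along `p` -/
noncomputable def trC_T {n : ℕ} (s : ℝ) (p : Fin n → ℂ) : Matrix (Fin n) (Fin n) ℂ :=
  Matrix.of fun i j => (if i = j then (1 : ℂ) else 0) +
    ((s - 1 : ℝ) : ℂ) * ((starRingEnd ℂ) (p i) * p j) / ((∑ k, ‖p k‖ ^ 2 : ℝ) : ℂ)

theorem trC_T_det {n : ℕ} {s : ℝ} {p : Fin n → ℂ} (hp : ∑ k, ‖p k‖ ^ 2 ≠ 0) :
    (trC_T s p).det = s := by
  have h1 : (trC_T s p).det = 1 + dotProduct
      (fun j => ((s - 1 : ℝ) : ℂ) * p j / ((∑ k, ‖p k‖ ^ 2 : ℝ) : ℂ))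
      (fun i => (starRingEnd ℂ) (p i)) := by
    rw [← Matrix.det_one_add_replicateCol_mul_replicateRow (ι := Unit)]
    congr 1
    ext i j
    simp only [trC_T, Matrix.of_apply, Matrix.add_apply, Matrix.mul_apply, Matrix.one_apply,
      Matrix.replicateCol_apply, Matrix.replicateRow_apply, Finset.sum_const, Finset.card_univ,
      Fintype.card_unit, one_smul]
    ring
  rw [h1, dotProduct]
  have h2 : ∀ i, ((s - 1 : ℝ) : ℂ) * p i / ((∑ k, ‖p k‖ ^ 2 : ℝ) : ℂ) * (starRingEnd ℂ) (p i) =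
      (((s - 1) / (∑ k, ‖p k‖ ^ 2) * ‖p i‖ ^ 2 : ℝ) : ℂ) := by
    intro i
    have h3 : p i * (starRingEnd ℂ) (p i) = ((‖p i‖ ^ 2 : ℝ) : ℂ) := by
      rw [Complex.mul_conj, Complex.normSq_eq_norm_sq]
    rw [Complex.ofReal_mul, ← h3, Complex.ofReal_div]
    ring
  rw [Finset.sum_congr rfl (fun i _ => h2 i), ← Complex.ofReal_sum, ← Finset.mul_sum,
    div_mul_cancel₀ _ hp]
  push_cast
  ring

theorem trC_T_p {n : ℕ} {s : ℝ} {p : Fin n → ℂ} (hp : ∑ k, ‖p k‖ ^ 2 ≠ 0) (j : Fin n) :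
    ∑ i, trC_T s p i j * p i = s * p j := by
  have h2 : ∀ i, trC_T s p i j * p i = (if i = j then p i else 0) +
      (((s - 1) / (∑ k, ‖p k‖ ^ 2) * ‖p i‖ ^ 2 : ℝ) : ℂ) * p j := by
    intro i
    have h3 : p i * (starRingEnd ℂ) (p i) = ((‖p i‖ ^ 2 : ℝ) : ℂ) := by
      rw [Complex.mul_conj, Complex.normSq_eq_norm_sq]
    rw [Complex.ofReal_mul, ← h3, Complex.ofReal_div, trC_T, Matrix.of_apply]
    split_ifs <;> ring
  rw [Finset.sum_congr rfl (fun i _ => h2 i), Finset.sum_add_distrib, ← Finset.sum_mul,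
    ← Complex.ofReal_sum, ← Finset.mul_sum, div_mul_cancel₀ _ hp]
  simp
  ring

theorem trC_T_norm {n : ℕ} {s : ℝ} (hs0 : 0 ≤ s) (hs1 : s ≤ 1) {p : Fin n → ℂ}
    (hp : ∑ k, ‖p k‖ ^ 2 ≠ 0) (i j : Fin n) : ‖trC_T s p i j‖ ≤ 2 := by
  have h0 : 0 ≤ ∑ k, ‖p k‖ ^ 2 := Finset.sum_nonneg fun k _ => sq_nonneg _
  have h1 : 0 < ∑ k, ‖p k‖ ^ 2 := lt_of_le_of_ne h0 (Ne.symm hp)
  have hi : ‖p i‖ ^ 2 ≤ ∑ k, ‖p k‖ ^ 2 :=
    Finset.single_le_sum (f := fun k => ‖p k‖ ^ 2) (fun k _ => sq_nonneg _) (Finset.mem_univ i)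
  have hj : ‖p j‖ ^ 2 ≤ ∑ k, ‖p k‖ ^ 2 :=
    Finset.single_le_sum (f := fun k => ‖p k‖ ^ 2) (fun k _ => sq_nonneg _) (Finset.mem_univ j)
  have h2 : ‖p i‖ * ‖p j‖ ≤ ∑ k, ‖p k‖ ^ 2 := by nlinarith [sq_nonneg (‖p i‖ - ‖p j‖)]
  rw [trC_T, Matrix.of_apply]
  refine (norm_add_le _ _).trans ?_
  have h3 : ‖(if i = j then (1 : ℂ) else 0)‖ ≤ 1 := by split_ifs <;> simp
  have h4 : ‖((s - 1 : ℝ) : ℂ) * ((starRingEnd ℂ) (p i) * p j) /
      ((∑ k, ‖p k‖ ^ 2 : ℝ) : ℂ)‖ ≤ 1 := by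
    rw [norm_div, norm_mul, norm_mul, Complex.norm_real, Complex.norm_real, RCLike.norm_conj,
      Real.norm_of_nonneg h0, div_le_one h1]
    have h5 : ‖s - 1‖ ≤ 1 := by
      rw [Real.norm_eq_abs, abs_le]; constructor <;> linarith
    calc ‖s - 1‖ * (‖p i‖ * ‖p j‖) ≤ 1 * (‖p i‖ * ‖p j‖) := by gcongr
      _ ≤ _ := by rw [one_mul]; exact h2
  linarith

theorem trC_sum {n : ℕ} {s : ℝ} (hs0 : 0 ≤ s) (hs1 : s ≤ 1) {p : Fin n → ℂ}
    (hp : ∑ k, ‖p k‖ ^ 2 ≠ 0) (j : Fin n) {y : Fin n → ℂ} {c : ℝ} (hy : ∀ i, ‖y i‖ ≤ c) :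
    ‖∑ i, trC_T s p i j * y i‖ ≤ 2 * n * c := by
  calc ‖∑ i, trC_T s p i j * y i‖ ≤ ∑ _i : Fin n, 2 * c := by
        refine (norm_sum_le _ _).trans (Finset.sum_le_sum fun i _ => ?_)
        rw [norm_mul]
        exact mul_le_mul (trC_T_norm hs0 hs1 hp i j) (hy i) (norm_nonneg _) (by norm_num)
    _ = 2 * n * c := by
        rw [Finset.sum_const, Finset.card_univ, Fintype.card_fin, nsmul_eq_mul]; ring

theorem trC_sum' {n : ℕ} {s : ℝ} (hs0 : 0 ≤ s) (hs1 : s ≤ 1) {p : Fin n → ℂ}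
    (hp : ∑ k, ‖p k‖ ^ 2 ≠ 0) (k : Fin n) {y : Fin n → ℂ} {c : ℝ} (hy : ∀ i, ‖y i‖ ≤ c) :
    ‖∑ l, y l * (starRingEnd ℂ) (trC_T s p l k)‖ ≤ 2 * n * c := by
  calc ‖∑ l, y l * (starRingEnd ℂ) (trC_T s p l k)‖ ≤ ∑ _l : Fin n, 2 * c := by
        refine (norm_sum_le _ _).trans (Finset.sum_le_sum fun i _ => ?_)
        rw [norm_mul, RCLike.norm_conj, mul_comm]
        exact mul_le_mul (trC_T_norm hs0 hs1 hp i k) (hy i) (norm_nonneg _) (by norm_num)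
    _ = 2 * n * c := by
        rw [Finset.sum_const, Finset.card_univ, Fintype.card_fin, nsmul_eq_mul]; ring

theorem trC_T_p' {n : ℕ} {s : ℝ} {p : Fin n → ℂ} (hp : ∑ k, ‖p k‖ ^ 2 ≠ 0) (k : Fin n) :
    ∑ l, (starRingEnd ℂ) (p l) * (starRingEnd ℂ) (trC_T s p l k) = s * (starRingEnd ℂ) (p k) := by
  have h1 := congrArg (starRingEnd ℂ) (trC_T_p (s := s) hp k)
  rw [map_sum, map_mul, Complex.conj_ofReal] at h1
  rw [← h1]
  refine Finset.sum_congr rfl fun l _ => ?_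
  rw [map_mul, mul_comm]

theorem trC_lin {n : ℕ} (E g q τ : Fin n → ℂ) (S a c : ℂ) :
    ∑ l, (E l + S * q l + a * g l + c * q l) * τ l = (∑ l, E l * τ l) + S * (∑ l, q l * τ l) +
      a * (∑ l, g l * τ l) + c * (∑ l, q l * τ l) := by
  simp only [Finset.mul_sum, ← Finset.sum_add_distrib]
  exact Finset.sum_congr rfl fun l _ => by ring

/-- The size of a determinant, anisotropic version. -/
theorem trC_det {n : ℕ} {s L K : ℝ} (hs0 : 0 < s) (hs1 : s ≤ 1) (hL : 0 ≤ L) (hK : 0 ≤ K)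
    {p : Fin n → ℂ} (hp : ∑ k, ‖p k‖ ^ 2 ≠ 0) (hpL : ∀ j, ‖p j‖ ≤ L)
    (N : Matrix (Fin (n + 1)) (Fin (n + 1)) ℂ)
    (h00 : ‖N 0 0‖ ≤ K * s ^ 2)
    {b : ℂ} {y : Fin n → ℂ} (hj0 : ∀ j, N (Fin.succ j) 0 = b * p j + y j)
    (hb : ‖b‖ ≤ K) (hy : ∀ j, ‖y j‖ ≤ K * s)
    {b' : ℂ} {y' : Fin n → ℂ} (h0k : ∀ k, N 0 (Fin.succ k) = b' * (starRingEnd ℂ) (p k) + y' k)
    (hb' : ‖b'‖ ≤ K) (hy' : ∀ j, ‖y' j‖ ≤ K * s)
    {e : Fin n → Fin n → ℂ} {x g : Fin n → ℂ} {d : ℂ}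
    (hjk : ∀ j k, N (Fin.succ j) (Fin.succ k) = e j k + x j * (starRingEnd ℂ) (p k) + p j * g k +
      d * p j * (starRingEnd ℂ) (p k))
    (he : ∀ j k, ‖e j k‖ ≤ K) (hx : ∀ j, s * ‖x j‖ ≤ K) (hg : ∀ k, s * ‖g k‖ ≤ K)
    (hd : s ^ 2 * ‖d‖ ≤ K) :
    ‖N.det‖ ≤ (n + 1).factorial *
      (K * (4 * n ^ 2 + 4 * n * L + L ^ 2 + L + 2 * n + 1)) ^ (n + 1) := by
  have hsc : (s : ℂ) ≠ 0 := by exact_mod_cast hs0.ne'
  set T := trC_T s p with hT
  set B := trC_blk (1 / (s : ℂ)) T.transpose with hB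
  set C := trC_blk (1 / (s : ℂ)) ((starRingEnd ℂ).mapMatrix T) with hC
  have hBd : B.det = 1 := by
    rw [hB, trC_blk_det, Matrix.det_transpose, hT, trC_T_det hp, one_div_mul_cancel hsc]
  have hCd : C.det = 1 := by
    rw [hC, trC_blk_det, ← RingHom.map_det, hT, trC_T_det hp, Complex.conj_ofReal,
      one_div_mul_cancel hsc]
  have h1 : N.det = (B * N * C).det := by
    rw [Matrix.det_mul, Matrix.det_mul, hBd, hCd, one_mul, mul_one]
  rw [h1]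
  obtain ⟨e00, ej0, e0k, ejk⟩ := trC_blk_mul (1 / (s : ℂ)) (1 / (s : ℂ)) T.transpose
    ((starRingEnd ℂ).mapMatrix T) N
  rw [← hB, ← hC] at e00 ej0 e0k ejk
  have hn : (0 : ℝ) ≤ n := Nat.cast_nonneg n
  have hnn : ‖(1 / (s : ℂ))‖ = 1 / s := by
    rw [norm_div, norm_one, Complex.norm_real, Real.norm_of_nonneg hs0.le]
  have hs2 : (1 / s) * (K * s) = K := by field_simp
  refine norm_det_le (by positivity) fun i j => ?_
  refine Fin.cases (Fin.cases ?_ (fun k => ?_) j) (fun i => Fin.cases ?_ (fun k => ?_) j) i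
  · rw [e00, norm_mul, norm_mul, hnn]
    calc 1 / s * ‖N 0 0‖ * (1 / s) ≤ 1 / s * (K * s ^ 2) * (1 / s) := by gcongr
      _ = K * 1 := by field_simp
      _ ≤ _ := by gcongr; nlinarith [mul_nonneg hn hL, sq_nonneg L, sq_nonneg (n : ℝ)]
  · have e1 : ∑ l, N 0 (Fin.succ l) * ((starRingEnd ℂ).mapMatrix T) l k =
        b' * (s * (starRingEnd ℂ) (p k)) + ∑ l, y' l * (starRingEnd ℂ) (T l k) := by
      rw [← trC_T_p' hp k, Finset.mul_sum, ← Finset.sum_add_distrib]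
      refine Finset.sum_congr rfl fun l _ => ?_
      rw [h0k]
      simp only [RingHom.mapMatrix_apply, Matrix.map_apply]
      ring
    rw [e0k, e1, norm_mul, hnn]
    have e2 := trC_sum' hs0.le hs1 hp k hy'
    have e3 : ‖b' * (s * (starRingEnd ℂ) (p k))‖ ≤ K * (s * L) := by
      rw [norm_mul, norm_mul, RCLike.norm_conj, Complex.norm_real, Real.norm_of_nonneg hs0.le]
      gcongr
      exact hpL k
    calc 1 / s * ‖b' * (s * (starRingEnd ℂ) (p k)) + ∑ l, y' l * (starRingEnd ℂ) (T l k)‖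
        ≤ 1 / s * (K * (s * L) + 2 * n * (K * s)) := by
          gcongr
          exact (norm_add_le _ _).trans (add_le_add e3 e2)
      _ = K * (L + 2 * n) := by field_simp
      _ ≤ _ := mul_le_mul_of_nonneg_left
        (by nlinarith [mul_nonneg hn hL, sq_nonneg L, sq_nonneg (n : ℝ)]) hK
  · have e1 : ∑ l, T.transpose i l * N (Fin.succ l) 0 =
        b * (s * p i) + ∑ l, T l i * y l := by
      rw [← trC_T_p hp i, Finset.mul_sum, ← Finset.sum_add_distrib]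
      refine Finset.sum_congr rfl fun l _ => ?_
      rw [hj0, Matrix.transpose_apply]
      ring
    rw [ej0, e1, norm_mul, hnn]
    have e2 := trC_sum hs0.le hs1 hp i hy
    have e3 : ‖b * (s * p i)‖ ≤ K * (s * L) := by
      rw [norm_mul, norm_mul, Complex.norm_real, Real.norm_of_nonneg hs0.le]
      gcongr
      exact hpL i
    calc ‖b * (s * p i) + ∑ l, T l i * y l‖ * (1 / s)
        ≤ (K * (s * L) + 2 * n * (K * s)) * (1 / s) := by
          gcongr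
          exact (norm_add_le _ _).trans (add_le_add e3 e2)
      _ = K * (L + 2 * n) := by field_simp
      _ ≤ _ := mul_le_mul_of_nonneg_left
        (by nlinarith [mul_nonneg hn hL, sq_nonneg L, sq_nonneg (n : ℝ)]) hK
  · have e1 : ∀ l, ∑ m, T.transpose i m * N (Fin.succ m) (Fin.succ l) =
        (∑ m, T m i * e m l) + (∑ m, T m i * x m) * (starRingEnd ℂ) (p l) + (s * p i) * g l +
          d * (s * p i) * (starRingEnd ℂ) (p l) := by
      intro l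
      rw [← trC_T_p hp i]
      simp only [Finset.sum_mul, Finset.mul_sum, ← Finset.sum_add_distrib]
      refine Finset.sum_congr rfl fun m _ => ?_
      rw [hjk, Matrix.transpose_apply]
      ring
    have e2 : ∑ l, (∑ m, T.transpose i m * N (Fin.succ m) (Fin.succ l)) *
        ((starRingEnd ℂ).mapMatrix T) l k =
        (∑ l, (∑ m, T m i * e m l) * (starRingEnd ℂ) (T l k)) +
          (∑ m, T m i * x m) * (s * (starRingEnd ℂ) (p k)) +
          (s * p i) * (∑ l, g l * (starRingEnd ℂ) (T l k)) +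
          d * (s * p i) * (s * (starRingEnd ℂ) (p k)) := by
      rw [← trC_T_p' hp k, ← trC_lin]
      refine Finset.sum_congr rfl fun l _ => ?_
      rw [e1]
      simp only [RingHom.mapMatrix_apply, Matrix.map_apply]
    rw [ejk, e2]
    have f1 : ‖∑ l, (∑ m, T m i * e m l) * (starRingEnd ℂ) (T l k)‖ ≤ 2 * n * (2 * n * K) :=
      trC_sum' hs0.le hs1 hp k fun l => trC_sum hs0.le hs1 hp i fun m => he m l
    have hx' : ∀ j, ‖x j‖ ≤ K / s := fun j => by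
      rw [le_div_iff₀ hs0, mul_comm]; exact hx j
    have hg' : ∀ j, ‖g j‖ ≤ K / s := fun j => by
      rw [le_div_iff₀ hs0, mul_comm]; exact hg j
    have f2 : ‖(∑ m, T m i * x m) * (s * (starRingEnd ℂ) (p k))‖ ≤ 2 * n * (K / s) * (s * L) := by
      rw [norm_mul, norm_mul, RCLike.norm_conj, Complex.norm_real, Real.norm_of_nonneg hs0.le]
      exact mul_le_mul (trC_sum hs0.le hs1 hp i hx')
        (mul_le_mul_of_nonneg_left (hpL k) hs0.le) (by positivity) (by positivity)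
    have f3 : ‖(s * p i) * (∑ l, g l * (starRingEnd ℂ) (T l k))‖ ≤
        (s * L) * (2 * n * (K / s)) := by
      rw [norm_mul, norm_mul, Complex.norm_real, Real.norm_of_nonneg hs0.le]
      exact mul_le_mul (mul_le_mul_of_nonneg_left (hpL i) hs0.le)
        (trC_sum' hs0.le hs1 hp k hg') (norm_nonneg _) (by positivity)
    have f4 : ‖d * (s * p i) * (s * (starRingEnd ℂ) (p k))‖ ≤ K * (L * L) := by
      rw [norm_mul, norm_mul, norm_mul, norm_mul, RCLike.norm_conj, Complex.norm_real,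
        Real.norm_of_nonneg hs0.le]
      calc ‖d‖ * (s * ‖p i‖) * (s * ‖p k‖) = (s ^ 2 * ‖d‖) * (‖p i‖ * ‖p k‖) := by ring
        _ ≤ K * (L * L) := by
          gcongr
          · exact hpL i
          · exact hpL k
    have f5 : 2 * n * (K / s) * (s * L) = K * (2 * n * L) := by field_simp
    have f6 : (s * L) * (2 * n * (K / s)) = K * (2 * n * L) := by field_simp
    rw [f5] at f2
    rw [f6] at f3
    have f7 := norm_add₃_le (a := (∑ l, (∑ m, T m i * e m l) * (starRingEnd ℂ) (T l k)))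
      (b := (∑ m, T m i * x m) * (s * (starRingEnd ℂ) (p k)))
      (c := (s * p i) * (∑ l, g l * (starRingEnd ℂ) (T l k)))
    refine (norm_add_le _ _).trans ?_
    have f8 : K * (4 * n ^ 2 + 4 * n * L + L ^ 2 + L + 2 * n + 1) =
      2 * n * (2 * n * K) + K * (2 * n * L) + K * (2 * n * L) + K * (L * L) +
        K * (L + 2 * n + 1) := by ring
    rw [f8]
    have f9 : 0 ≤ K * (L + 2 * n + 1) := by positivity
    linarith

/-- the sum of all constants -/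
noncomputable def trC_K (L a C Φ : ℝ) : ℝ :=
  C + (2 + a) + (2 * L + 1) * a + (1 + a + C * Φ * a) + (L * a + a + C * Φ * a) +
    (L + 1 + (1 + L) * a * Φ * a) + (a + 1) * Φ * a + 1

theorem trC_abs {n : ℕ} {s L a C Φ t R : ℝ} (hs0 : 0 < s) (hs1 : s ≤ 1) (hR : R = s ^ 2)
    (hL : 0 ≤ L) (ha : 0 ≤ a) (hC : 0 ≤ C) (hΦ : 0 ≤ Φ) (ht0 : 0 ≤ t) (ht1 : t ≤ 1)
    {p δ v η : Fin n → ℂ} {q φ η0 : ℂ} {D : Fin n → Fin n → ℂ}
    (hp : ∑ k, ‖p k‖ ^ 2 ≠ 0) (hpL : ∀ j, ‖p j‖ ≤ L) (hδ : ∀ j, ‖δ j‖ ≤ L * a * s)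
    (hv : ∀ j, ‖v j‖ ≤ a * s) (hq : ‖q‖ ≤ a * s ^ 2) (hD : ∀ j k, ‖D j k‖ ≤ L)
    (hφ : ‖φ‖ ≤ Φ) (hη0 : ‖η0‖ ≤ C * s ^ 2)
    (hη : ∀ j, η j = (starRingEnd ℂ) (v j) + p j * (starRingEnd ℂ) q / R - (p j + δ j))
    (N : Matrix (Fin (n + 1)) (Fin (n + 1)) ℂ) (h00 : ‖N 0 0‖ ≤ C * s ^ 2)
    (hj0 : ∀ j, N (Fin.succ j) 0 = (p j + δ j) + t * η j)
    (h0k : ∀ k, N 0 (Fin.succ k) = (1 - t) * (-(starRingEnd ℂ) (p k + δ k)) +
      t * (-(v k + q * (starRingEnd ℂ) (p k) / R)) +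
      η0 * (φ * (v k / R + q * (starRingEnd ℂ) (p k) / R ^ 2)))
    (hjk : ∀ j k, N (Fin.succ j) (Fin.succ k) = (1 - t) * D j k +
      t * ((if j = k then 1 else 0) + p j * (starRingEnd ℂ) (p k) / R) +
      η j * (φ * (v k / R + q * (starRingEnd ℂ) (p k) / R ^ 2))) :
    ‖N.det‖ ≤ (n + 1).factorial *
      (trC_K L a C Φ * (4 * n ^ 2 + 4 * n * L + L ^ 2 + L + 2 * n + 1)) ^ (n + 1) := by
  have hR0 : 0 < R := by rw [hR]; positivity
  have hRc : (R : ℂ) ≠ 0 := by exact_mod_cast hR0.ne'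
  have hs2 : 0 < s ^ 2 := by positivity
  have hnR : ‖(R : ℂ)‖ = s ^ 2 := by rw [Complex.norm_real, Real.norm_of_nonneg hR0.le, hR]
  have hnt : ‖(t : ℂ)‖ ≤ 1 := by rw [Complex.norm_real, Real.norm_of_nonneg ht0]; exact ht1
  have hnt1 : ‖(1 - t : ℂ)‖ ≤ 1 := by
    have e1 : (1 - t : ℂ) = ((1 - t : ℝ) : ℂ) := by push_cast; ring
    rw [e1, Complex.norm_real, Real.norm_of_nonneg (by linarith)]; linarith
  have hqR : ‖q / R‖ ≤ a := by
    rw [norm_div, hnR, div_le_iff₀ hs2]; exact hq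
  have hqR' : ‖(starRingEnd ℂ) q / R‖ ≤ a := by
    rw [norm_div, RCLike.norm_conj, hnR, div_le_iff₀ hs2]; exact hq
  have hvR : ∀ k, ‖v k / R‖ ≤ a / s := by
    intro k
    rw [norm_div, hnR, div_le_iff₀ hs2]
    have e1 : a / s * s ^ 2 = a * s := by field_simp
    rw [e1]; exact hv k
  have hqR2 : ‖q / R ^ 2‖ ≤ a / s ^ 2 := by
    rw [norm_div, norm_pow, hnR, div_le_iff₀ (by positivity)]
    have e1 : a / s ^ 2 * (s ^ 2) ^ 2 = a * s ^ 2 := by field_simp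
    rw [e1]; exact hq
  have hk1 : 0 ≤ (2 * L + 1) * a := by positivity
  have hk2 : 0 ≤ C * Φ * a := by positivity
  have hk3 : 0 ≤ L * a := by positivity
  have hk4 : 0 ≤ (1 + L) * a * Φ * a := by positivity
  have hk5 : 0 ≤ (a + 1) * Φ * a := by positivity
  have hb2 : ‖(starRingEnd ℂ) q / R - 1‖ ≤ a + 1 := by
    refine (norm_sub_le _ _).trans ?_
    rw [norm_one]; linarith
  have hy2 : ∀ j, ‖(starRingEnd ℂ) (v j) - δ j‖ ≤ (1 + L) * a * s := by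
    intro j
    refine (norm_sub_le _ _).trans ?_
    rw [RCLike.norm_conj]
    linarith [hv j, hδ j]
  have hφ0 := norm_nonneg φ
  have hsa : 0 ≤ a * s := by positivity
  have hKn : 0 ≤ trC_K L a C Φ := by unfold trC_K; positivity
  refine trC_det (b := 1 + t * ((starRingEnd ℂ) q / R - 1))
    (y := fun j => δ j + t * ((starRingEnd ℂ) (v j) - δ j))
    (b' := -(1 - t) - t * (q / R) + η0 * (φ * (q / R ^ 2)))
    (y' := fun k => -(1 - t) * (starRingEnd ℂ) (δ k) - t * v k + η0 * (φ * (v k / R)))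
    (e := fun j k => (1 - t) * D j k + t * (if j = k then 1 else 0) +
      ((starRingEnd ℂ) (v j) - δ j) * (φ * (v k / R)))
    (x := fun j => ((starRingEnd ℂ) (v j) - δ j) * (φ * (q / R ^ 2)))
    (g := fun k => ((starRingEnd ℂ) q / R - 1) * (φ * (v k / R)))
    (d := t / R + ((starRingEnd ℂ) q / R - 1) * (φ * (q / R ^ 2)))
    hs0 hs1 hL hKn hp hpL N ?_ ?_ ?_ ?_ ?_ ?_ ?_ ?_ ?_ ?_ ?_ ?_
  · refine h00.trans ?_
    gcongr
    unfold trC_K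
    linarith
  · intro j
    rw [hj0, hη]
    ring
  · calc ‖1 + (t : ℂ) * ((starRingEnd ℂ) q / R - 1)‖
        ≤ ‖(1 : ℂ)‖ + ‖(t : ℂ)‖ * ‖(starRingEnd ℂ) q / R - 1‖ := by
          rw [← norm_mul]; exact norm_add_le _ _
      _ ≤ 1 + 1 * (a + 1) := by
          rw [norm_one]
          gcongr
      _ ≤ _ := by unfold trC_K; linarith
  · intro j
    calc ‖δ j + (t : ℂ) * ((starRingEnd ℂ) (v j) - δ j)‖
        ≤ ‖δ j‖ + ‖(t : ℂ)‖ * ‖(starRingEnd ℂ) (v j) - δ j‖ := by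
          rw [← norm_mul]; exact norm_add_le _ _
      _ ≤ L * a * s + 1 * ((1 + L) * a * s) := by
          gcongr
          · exact hδ j
          · exact hy2 j
      _ = ((2 * L + 1) * a) * s := by ring
      _ ≤ _ := by
          gcongr
          unfold trC_K; linarith
  · intro k
    rw [h0k, map_add]
    ring
  · calc ‖-(1 - t : ℂ) - t * (q / R) + η0 * (φ * (q / R ^ 2))‖
        ≤ ‖(1 - t : ℂ)‖ + ‖(t : ℂ)‖ * ‖q / R‖ + ‖η0‖ * (‖φ‖ * ‖q / R ^ 2‖) := by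
          rw [← norm_mul, ← norm_mul, ← norm_mul, ← norm_neg (1 - t : ℂ)]
          exact (norm_add_le _ _).trans (by gcongr; exact norm_sub_le _ _)
      _ ≤ 1 + 1 * a + C * s ^ 2 * (Φ * (a / s ^ 2)) := by
          gcongr
      _ = 1 + a + C * Φ * a := by field_simp
      _ ≤ _ := by unfold trC_K; linarith
  · intro k
    calc ‖-(1 - t : ℂ) * (starRingEnd ℂ) (δ k) - t * v k + η0 * (φ * (v k / R))‖
        ≤ ‖(1 - t : ℂ)‖ * ‖δ k‖ + ‖(t : ℂ)‖ * ‖v k‖ + ‖η0‖ * (‖φ‖ * ‖v k / R‖) := by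
          have e1 := norm_sub_le (-(1 - t : ℂ) * (starRingEnd ℂ) (δ k)) (t * v k)
          rw [norm_mul, norm_mul, norm_neg, RCLike.norm_conj] at e1
          refine (norm_add_le _ _).trans ?_
          rw [norm_mul η0, norm_mul φ]
          linarith
      _ ≤ 1 * (L * a * s) + 1 * (a * s) + C * s ^ 2 * (Φ * (a / s)) := by
          gcongr
          · exact hδ k
          · exact hv k
          · exact hvR k
      _ = (L * a + a + C * Φ * a) * s := by field_simp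
      _ ≤ _ := by
          gcongr
          unfold trC_K; linarith
  · intro j k
    rw [hjk, hη]
    ring
  · intro j k
    have e1 : ‖(if j = k then (1 : ℂ) else 0)‖ ≤ 1 := by split_ifs <;> simp
    calc ‖(1 - t : ℂ) * D j k + t * (if j = k then 1 else 0) +
          ((starRingEnd ℂ) (v j) - δ j) * (φ * (v k / R))‖
        ≤ ‖(1 - t : ℂ)‖ * ‖D j k‖ + ‖(t : ℂ)‖ * ‖(if j = k then (1 : ℂ) else 0)‖ +
          ‖(starRingEnd ℂ) (v j) - δ j‖ * (‖φ‖ * ‖v k / R‖) := by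
          rw [← norm_mul, ← norm_mul, ← norm_mul φ, ← norm_mul ((starRingEnd ℂ) (v j) - δ j)]
          exact norm_add₃_le
      _ ≤ 1 * L + 1 * 1 + (1 + L) * a * s * (Φ * (a / s)) := by
          gcongr
          · exact hD j k
          · exact hy2 j
          · exact hvR k
      _ = L + 1 + (1 + L) * a * Φ * a := by field_simp
      _ ≤ _ := by unfold trC_K; linarith
  · intro j
    calc s * ‖((starRingEnd ℂ) (v j) - δ j) * (φ * (q / R ^ 2))‖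
        = s * (‖(starRingEnd ℂ) (v j) - δ j‖ * (‖φ‖ * ‖q / R ^ 2‖)) := by
          rw [norm_mul, norm_mul]
      _ ≤ s * ((1 + L) * a * s * (Φ * (a / s ^ 2))) := by
          gcongr
          exact hy2 j
      _ = (1 + L) * a * Φ * a := by field_simp
      _ ≤ _ := by unfold trC_K; linarith
  · intro k
    calc s * ‖((starRingEnd ℂ) q / R - 1) * (φ * (v k / R))‖
        = s * (‖(starRingEnd ℂ) q / R - 1‖ * (‖φ‖ * ‖v k / R‖)) := by
          rw [norm_mul, norm_mul]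
      _ ≤ s * ((a + 1) * (Φ * (a / s))) := by
          gcongr
          exact hvR k
      _ = (a + 1) * Φ * a := by field_simp
      _ ≤ _ := by unfold trC_K; linarith
  · calc s ^ 2 * ‖(t : ℂ) / R + ((starRingEnd ℂ) q / R - 1) * (φ * (q / R ^ 2))‖
        ≤ s ^ 2 * (‖(t : ℂ)‖ / s ^ 2 +
          ‖(starRingEnd ℂ) q / R - 1‖ * (‖φ‖ * ‖q / R ^ 2‖)) := by
          rw [← norm_mul φ, ← norm_mul ((starRingEnd ℂ) q / R - 1), ← hnR, ← norm_div]
          gcongr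
          exact norm_add_le _ _
      _ ≤ s ^ 2 * (1 / s ^ 2 + (a + 1) * (Φ * (a / s ^ 2))) := by
          gcongr
      _ = 1 + (a + 1) * Φ * a := by field_simp
      _ ≤ _ := by unfold trC_K; linarith

namespace Dm

variable {n : ℕ} (𝓓 : Dm n)

theorem trC_dc (j : Fin n) (z w : En n) : DifferentiableAt ℝ (fun y : En n => y j - z j) w := by
  have h1 : DifferentiableAt ℝ (fun y : En n => y j) w :=
    ((EuclideanSpace.proj (𝕜 := ℂ) j : En n →L[ℂ] ℂ).restrictScalars ℝ).differentiableAt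
  exact h1.sub_const _

theorem trC_dcc (j : Fin n) (z w : En n) :
    DifferentiableAt ℝ (fun y : En n => (starRingEnd ℂ) (y j - z j)) w :=
  (Complex.conjCLE : ℂ →L[ℝ] ℂ).differentiableAt.comp w (trC_dc j z w)

theorem trC_HR (z : En n) (R : ℝ) (j k : Fin n) : 𝓓.HR z R j k =
    (if j = k then (R : ℂ)⁻¹ else 0) + dz j (fun y => (𝓓.ρ y : ℂ)) z *
      (starRingEnd ℂ) (dz k (fun y => (𝓓.ρ y : ℂ)) z) * ((R : ℂ) ^ 2)⁻¹ := by
  rw [HR, Matrix.of_apply]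
  push_cast
  rfl

/-- `∑ H_jk x_j` -/
theorem trC_HR_left (z : En n) (R : ℝ) (x : En n) (k : Fin n) :
    ∑ j, 𝓓.HR z R j k * x j = x k / R + 𝓓.pr z x *
      (starRingEnd ℂ) (dz k (fun y => (𝓓.ρ y : ℂ)) z) / R ^ 2 := by
  have h1 : ∀ j, 𝓓.HR z R j k * x j = (if j = k then x j / R else 0) +
      (dz j (fun y => (𝓓.ρ y : ℂ)) z * x j) *
        ((starRingEnd ℂ) (dz k (fun y => (𝓓.ρ y : ℂ)) z) / R ^ 2) := by
    intro j
    rw [trC_HR]
    split_ifs <;> ring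
  rw [Finset.sum_congr rfl fun j _ => h1 j, Finset.sum_add_distrib, ← Finset.sum_mul,
    Finset.sum_ite_eq' Finset.univ k, if_pos (Finset.mem_univ k), pr]
  ring

/-- `∑ H_jl conj x_l` -/
theorem trC_HR_right (z : En n) (R : ℝ) (x : En n) (j : Fin n) :
    ∑ l, 𝓓.HR z R j l * (starRingEnd ℂ) (x l) = (starRingEnd ℂ) (x j) / R +
      dz j (fun y => (𝓓.ρ y : ℂ)) z * (starRingEnd ℂ) (𝓓.pr z x) / R ^ 2 := by
  have h1 : ∀ l, 𝓓.HR z R j l * (starRingEnd ℂ) (x l) =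
      (if j = l then (starRingEnd ℂ) (x l) / R else 0) +
      (dz j (fun y => (𝓓.ρ y : ℂ)) z / R ^ 2) *
        (starRingEnd ℂ) (dz l (fun y => (𝓓.ρ y : ℂ)) z * x l) := by
    intro l
    rw [trC_HR, map_mul]
    split_ifs <;> ring
  rw [Finset.sum_congr rfl fun j _ => h1 j, Finset.sum_add_distrib, ← Finset.mul_sum,
    Finset.sum_ite_eq Finset.univ j, if_pos (Finset.mem_univ j), pr, map_sum]
  ring

theorem trC_db_hf (z : En n) (R : ℝ) (w : En n) (k : Fin n) :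
    DifferentiableAt ℝ (fun y => hf (𝓓.HR z R) (y - z)) w ∧
    db k (fun y => hf (𝓓.HR z R) (y - z)) w = (w k - z k) / R + 𝓓.pr z (w - z) *
      (starRingEnd ℂ) (dz k (fun y => (𝓓.ρ y : ℂ)) z) / R ^ 2 := by
  have e1 : (fun y : En n => hf (𝓓.HR z R) (y - z)) = fun y => ∑ j, ∑ l,
      (𝓓.HR z R j l * (y j - z j)) * (starRingEnd ℂ) (y l - z l) := rfl
  have d1 : ∀ j l, DifferentiableAt ℝ (fun y : En n => 𝓓.HR z R j l * (y j - z j)) w :=
    fun j l => (trC_dc j z w).const_mul _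
  have d2 : ∀ j l, DifferentiableAt ℝ (fun y : En n =>
      (𝓓.HR z R j l * (y j - z j)) * (starRingEnd ℂ) (y l - z l)) w :=
    fun j l => (d1 j l).mul (trC_dcc l z w)
  have d3 : ∀ j, DifferentiableAt ℝ (fun y : En n => ∑ l,
      (𝓓.HR z R j l * (y j - z j)) * (starRingEnd ℂ) (y l - z l)) w :=
    fun j => DifferentiableAt.fun_sum fun l _ => d2 j l
  have e2 := 𝓓.trC_HR_left z R (w - z) k
  refine ⟨?_, ?_⟩
  · rw [e1]
    exact DifferentiableAt.fun_sum fun j _ => d3 j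
  · rw [e1, db_sum k fun j _ => d3 j]
    have e3 : ∀ j, db k (fun y : En n => ∑ l,
        (𝓓.HR z R j l * (y j - z j)) * (starRingEnd ℂ) (y l - z l)) w =
        𝓓.HR z R j k * (w - z) j := by
      intro j
      rw [db_sum k fun l _ => d2 j l]
      have e4 : ∀ l, db k (fun y : En n =>
          (𝓓.HR z R j l * (y j - z j)) * (starRingEnd ℂ) (y l - z l)) w =
          if l = k then 𝓓.HR z R j l * (w j - z j) else 0 := by
        intro l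
        rw [db_mul k (d1 j l) (trC_dcc l z w), db_const_mul k _ (trC_dc j z w), db_coord,
          db_conj_coord]
        split_ifs <;> ring
      rw [Finset.sum_congr rfl fun l _ => e4 l, Finset.sum_ite_eq' Finset.univ k,
        if_pos (Finset.mem_univ k)]
      rfl
    rw [Finset.sum_congr rfl fun j _ => e3 j, e2]
    rfl

theorem trC_esec0 (z : En n) {R : ℝ} (r : ℝ) (w : En n) (k : Fin n) (hR : R ≠ 0) :
    DifferentiableAt ℝ (fun y => esec (𝓓.HR z R) r R z y 0) w ∧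
    db k (fun y => esec (𝓓.HR z R) r R z y 0) w = -((w k - z k) + 𝓓.pr z (w - z) *
      (starRingEnd ℂ) (dz k (fun y => (𝓓.ρ y : ℂ)) z) / R) := by
  have hRc : (R : ℂ) ≠ 0 := by exact_mod_cast hR
  have e1 : (fun y => esec (𝓓.HR z R) r R z y 0) = fun y : En n =>
      (R : ℂ) * ((r ^ 2 : ℝ) - hf (𝓓.HR z R) (y - z)) := rfl
  obtain ⟨d1, e2⟩ := 𝓓.trC_db_hf z R w k
  have d2 : DifferentiableAt ℝ (fun y : En n => (((r ^ 2 : ℝ) : ℂ) -
      hf (𝓓.HR z R) (y - z))) w := d1.const_sub _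
  refine ⟨?_, ?_⟩
  · rw [e1]
    exact d2.const_mul _
  · rw [e1, db_const_mul k _ d2, db_sub k (differentiableAt_const _) d1, db_const, e2]
    field_simp
    ring

theorem trC_esecj (z : En n) {R : ℝ} (r : ℝ) (w : En n) (j k : Fin n) (hR : R ≠ 0) :
    esec (𝓓.HR z R) r R z w (Fin.succ j) = (starRingEnd ℂ) (w j - z j) +
      dz j (fun y => (𝓓.ρ y : ℂ)) z * (starRingEnd ℂ) (𝓓.pr z (w - z)) / R ∧
    DifferentiableAt ℝ (fun y => esec (𝓓.HR z R) r R z y (Fin.succ j)) w ∧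
    db k (fun y => esec (𝓓.HR z R) r R z y (Fin.succ j)) w = (if j = k then 1 else 0) +
      dz j (fun y => (𝓓.ρ y : ℂ)) z * (starRingEnd ℂ) (dz k (fun y => (𝓓.ρ y : ℂ)) z) / R := by
  have hRc : (R : ℂ) ≠ 0 := by exact_mod_cast hR
  have e1 : (fun y => esec (𝓓.HR z R) r R z y (Fin.succ j)) = fun y : En n =>
      (R : ℂ) * ∑ l, 𝓓.HR z R j l * (starRingEnd ℂ) (y l - z l) := rfl
  have d1 : ∀ l, DifferentiableAt ℝ (fun y : En n => 𝓓.HR z R j l *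
      (starRingEnd ℂ) (y l - z l)) w := fun l => (trC_dcc l z w).const_mul _
  have d2 : DifferentiableAt ℝ (fun y : En n => ∑ l, 𝓓.HR z R j l *
      (starRingEnd ℂ) (y l - z l)) w := DifferentiableAt.fun_sum fun l _ => d1 l
  refine ⟨?_, ?_, ?_⟩
  · have e2 := 𝓓.trC_HR_right z R (w - z) j
    have e3 : esec (𝓓.HR z R) r R z w (Fin.succ j) =
      (R : ℂ) * ∑ l, 𝓓.HR z R j l * (starRingEnd ℂ) ((w - z) l) := rfl
    rw [e3, e2]
    change (R : ℂ) * ((starRingEnd ℂ) (w j - z j) / R + _) = _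
    field_simp
  · rw [e1]
    exact d2.const_mul _
  · rw [e1, db_const_mul k _ d2, db_sum k fun l _ => d1 l]
    have e4 : ∀ l, db k (fun y : En n => 𝓓.HR z R j l * (starRingEnd ℂ) (y l - z l)) w =
        if l = k then 𝓓.HR z R j l else 0 := by
      intro l
      rw [db_const_mul k _ (trC_dcc l z w), db_conj_coord]
      split_ifs <;> ring
    rw [Finset.sum_congr rfl fun l _ => e4 l, Finset.sum_ite_eq' Finset.univ k,
        if_pos (Finset.mem_univ k), trC_HR]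
    split_ifs
    · field_simp
    · field_simp
      ring

theorem trC_th_diff (w : En n) (a : Fin (n + 1)) :
    DifferentiableAt ℝ (fun y => 𝓓.th y a) w := by
  have h0 : ContDiff ℝ 3 (fun y => (𝓓.ρ y : ℂ)) := Complex.ofRealCLM.contDiff.comp 𝓓.sm
  refine Fin.cases ?_ (fun j => ?_) a
  · have e1 : (fun y => 𝓓.th y 0) = fun y => -(𝓓.ρ y : ℂ) := rfl
    rw [e1]
    exact ((h0.differentiable (by norm_num)) w).neg
  · have e1 : (fun y => 𝓓.th y (Fin.succ j)) = dz j (fun y => (𝓓.ρ y : ℂ)) := rfl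
    rw [e1]
    have h1 := contDiff_dz (m := 2) j h0
    exact (h1.differentiable (by norm_num)) w

theorem trC_th0 (w : En n) (k : Fin n) :
    db k (fun y => 𝓓.th y 0) w = -(starRingEnd ℂ) (dz k (fun y => (𝓓.ρ y : ℂ)) w) := by
  have e1 : (fun y => 𝓓.th y 0) = fun y => -(𝓓.ρ y : ℂ) := rfl
  rw [e1, db_neg, db_real k ((𝓓.sm.differentiable (by norm_num)) w)]

theorem trC_db_lin (z : En n) {R : ℝ} (r t : ℝ) (w : En n) (k : Fin n) (hR : R ≠ 0)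
    (a : Fin (n + 1)) :
    db k (fun y => lin 𝓓.th (fun w a => esec (𝓓.HR z R) r R z w a - 𝓓.th w a) t y a) w =
      (1 - t) * db k (fun y => 𝓓.th y a) w +
        t * db k (fun y => esec (𝓓.HR z R) r R z y a) w := by
  have d1 := 𝓓.trC_th_diff w a
  have d2 : DifferentiableAt ℝ (fun y => esec (𝓓.HR z R) r R z y a) w := by
    refine Fin.cases ?_ (fun j => ?_) a
    · exact (𝓓.trC_esec0 z r w k hR).1
    · exact (𝓓.trC_esecj z r w j k hR).2.1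
  have e1 : (fun y => lin 𝓓.th (fun w a => esec (𝓓.HR z R) r R z w a - 𝓓.th w a) t y a) =
      fun y => (1 - t) * 𝓓.th y a + t * esec (𝓓.HR z R) r R z y a := by
    funext y
    rw [lin]
    ring
  rw [e1, db_add k (d1.const_mul _) (d2.const_mul _), db_const_mul k _ d1, db_const_mul k _ d2]

theorem trC_det_bound {L a C Φ s : ℝ} (z : En n) {R r t : ℝ} (w : En n) (hs0 : 0 < s)
    (hs1 : s ≤ 1) (hR : R = s ^ 2)
    (hL : 0 ≤ L) (ha : 0 ≤ a) (hC : 0 ≤ C) (hΦ : 0 ≤ Φ) (ht0 : 0 ≤ t) (ht1 : t ≤ 1)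
    (hp : ∑ j, ‖dz j (fun y => (𝓓.ρ y : ℂ)) z‖ ^ 2 ≠ 0)
    (hpL : ∀ j, ‖dz j (fun y => (𝓓.ρ y : ℂ)) z‖ ≤ L)
    (hδ : ∀ j, ‖dz j (fun y => (𝓓.ρ y : ℂ)) w - dz j (fun y => (𝓓.ρ y : ℂ)) z‖ ≤ L * a * s)
    (hv : ‖w - z‖ ≤ a * s) (hq : ‖𝓓.pr z (w - z)‖ ≤ a * s ^ 2)
    (hD : ∀ j k, ‖db k (fun y => 𝓓.th y j) w‖ ≤ L)
    (h1 : ‖𝓓.th w 0‖ ≤ C / 2 * s ^ 2) (h2 : ‖esec (𝓓.HR z R) r R z w 0‖ ≤ C / 2 * s ^ 2)
    {φ : ℂ} (hφ : ‖φ‖ ≤ Φ) :
    ‖(mt (lin 𝓓.th (fun w a => esec (𝓓.HR z R) r R z w a - 𝓓.th w a) t) w +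
      Matrix.of fun a b => (esec (𝓓.HR z R) r R z w a - 𝓓.th w a) *
        (Fin.cons 0 (fun k => φ * ((w k - z k) / R + 𝓓.pr z (w - z) *
          (starRingEnd ℂ) (dz k (fun y => (𝓓.ρ y : ℂ)) z) / R ^ 2)) :
            Fin (n + 1) → ℂ) b).det‖ ≤ (n + 1).factorial *
      (trC_K L a C Φ * (4 * n ^ 2 + 4 * n * L + L ^ 2 + L + 2 * n + 1)) ^ (n + 1) := by
  have hR0 : R ≠ 0 := by rw [hR]; positivity
  have hnt : ‖(t : ℂ)‖ ≤ 1 := by rw [Complex.norm_real, Real.norm_of_nonneg ht0]; exact ht1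
  have hnt1 : ‖(1 - t : ℂ)‖ ≤ 1 := by
    have e1 : (1 - t : ℂ) = ((1 - t : ℝ) : ℂ) := by push_cast; ring
    rw [e1, Complex.norm_real, Real.norm_of_nonneg (by linarith)]; linarith
  refine trC_abs (s := s) (L := L) (a := a) (C := C) (Φ := Φ) (t := t) (R := R)
    (p := fun j => dz j (fun y => (𝓓.ρ y : ℂ)) z)
    (δ := fun j => dz j (fun y => (𝓓.ρ y : ℂ)) w - dz j (fun y => (𝓓.ρ y : ℂ)) z)
    (v := fun j => w j - z j)
    (η := fun j => esec (𝓓.HR z R) r R z w (Fin.succ j) - 𝓓.th w (Fin.succ j))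
    (q := 𝓓.pr z (w - z)) (φ := φ) (η0 := esec (𝓓.HR z R) r R z w 0 - 𝓓.th w 0)
    (D := fun j k => db k (fun y => 𝓓.th y (Fin.succ j)) w)
    hs0 hs1 hR hL ha hC hΦ ht0 ht1 hp hpL hδ ?_ hq (fun j k => hD _ _) hφ ?_ ?_ _ ?_ ?_ ?_ ?_
  · intro j
    exact (PiLp.norm_apply_le (w - z) j).trans hv
  · refine (norm_sub_le _ _).trans ?_
    linarith
  · intro j
    rw [(𝓓.trC_esecj z r w j j hR0).1]
    have e1 : 𝓓.th w (Fin.succ j) = dz j (fun y => (𝓓.ρ y : ℂ)) w := rfl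
    rw [e1]
    ring
  · change ‖lin 𝓓.th (fun w a => esec (𝓓.HR z R) r R z w a - 𝓓.th w a) t w 0 +
      (esec (𝓓.HR z R) r R z w 0 - 𝓓.th w 0) * 0‖ ≤ _
    have e1 : lin 𝓓.th (fun w a => esec (𝓓.HR z R) r R z w a - 𝓓.th w a) t w 0 +
      (esec (𝓓.HR z R) r R z w 0 - 𝓓.th w 0) * 0 =
      (1 - t) * 𝓓.th w 0 + t * esec (𝓓.HR z R) r R z w 0 := by
      rw [lin]; ring
    rw [e1]
    refine (norm_add_le _ _).trans ?_
    rw [norm_mul, norm_mul]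
    calc ‖(1 - t : ℂ)‖ * ‖𝓓.th w 0‖ + ‖(t : ℂ)‖ * ‖esec (𝓓.HR z R) r R z w 0‖
        ≤ 1 * (C / 2 * s ^ 2) + 1 * (C / 2 * s ^ 2) := by gcongr
      _ = C * s ^ 2 := by ring
  · intro j
    change lin 𝓓.th (fun w a => esec (𝓓.HR z R) r R z w a - 𝓓.th w a) t w (Fin.succ j) +
      (esec (𝓓.HR z R) r R z w (Fin.succ j) - 𝓓.th w (Fin.succ j)) * 0 = _
    have e1 : 𝓓.th w (Fin.succ j) = dz j (fun y => (𝓓.ρ y : ℂ)) w := rfl
    rw [lin, e1]
    ring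
  · intro k
    change db k (fun y => lin 𝓓.th (fun w a => esec (𝓓.HR z R) r R z w a - 𝓓.th w a) t y 0) w +
      (esec (𝓓.HR z R) r R z w 0 - 𝓓.th w 0) * (φ * ((w k - z k) / R + 𝓓.pr z (w - z) *
          (starRingEnd ℂ) (dz k (fun y => (𝓓.ρ y : ℂ)) z) / R ^ 2)) = _
    rw [trC_db_lin _ _ _ _ _ _ hR0, trC_th0, (𝓓.trC_esec0 z r w k hR0).2]
    rw [add_sub_cancel]
  · intro j k
    change db k (fun y => lin 𝓓.th (fun w a => esec (𝓓.HR z R) r R z w a - 𝓓.th w a) t y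
      (Fin.succ j)) w +
      (esec (𝓓.HR z R) r R z w (Fin.succ j) - 𝓓.th w (Fin.succ j)) * (φ * ((w k - z k) / R +
        𝓓.pr z (w - z) * (starRingEnd ℂ) (dz k (fun y => (𝓓.ρ y : ℂ)) z) / R ^ 2)) = _
    rw [trC_db_lin _ _ _ _ _ _ hR0, (𝓓.trC_esecj z r w j k hR0).2.2]

/-- The bound of the determinants. -/
theorem TR_bound {K ε : ℝ} (hK : 0 < K) (hε : 0 < ε) : ∃ C : ℝ, 0 < C ∧
    ∀ z R r t w, 𝓓.ρ z < 0 → 7 / 8 ≤ 𝓓.g z → 0 < R → R ≤ 1 → -𝓓.ρ z ≤ K * R → 0 < r → r ≤ 1 →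
    0 ≤ t → t ≤ 1 → 𝓓.ρ w ≤ 0 → (hf (𝓓.HR z R) (w - z)).re ≤ 4 * ε ^ 2 →
    ‖∑ k, db k (fun y => (𝓓.cut z R ε y : ℂ)) w *
        Omk (lin 𝓓.th (fun w a => esec (𝓓.HR z R) r R z w a - 𝓓.th w a) t)
          (fun w a => esec (𝓓.HR z R) r R z w a - 𝓓.th w a) k w‖ ≤ C := by
  obtain ⟨R₀, hR₀1, hR₀⟩ := 𝓓.exists_R
  obtain ⟨L, hL1, hLL⟩ := 𝓓.exists_L R₀
  obtain ⟨C₁, hC₁, hA⟩ := 𝓓.A_upper
  obtain ⟨c, hc, hpr⟩ := 𝓓.pr_lower
  obtain ⟨-, -, -, -, L₀, hL₀, hL₀'⟩ := c0_facts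
  have hL0 : 0 ≤ L := by linarith
  set a : ℝ := 2 * ε with ha
  have ha0 : 0 ≤ a := by positivity
  set Φ : ℝ := L₀ / ε ^ 2 with hΦ
  have hΦ0 : 0 ≤ Φ := by positivity
  set C : ℝ := 2 * (K + C₁ * (a + a ^ 2) + 1 + a ^ 2) with hC
  have hC₁0 : 0 ≤ C₁ := by linarith
  have hC0 : 0 ≤ C := by positivity
  set B : ℝ := (n + 1).factorial *
      (trC_K L a C Φ * (4 * n ^ 2 + 4 * n * L + L ^ 2 + L + 2 * n + 1)) ^ (n + 1) with hB
  refine ⟨2 * |B| + 1, by positivity, fun z R r t w hz hgz hR0 hR1 hzR hr0 hr1 ht0 ht1 hw hh => ?_⟩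
  obtain ⟨s, hs0, hs1, hsR⟩ : ∃ s : ℝ, 0 < s ∧ s ≤ 1 ∧ R = s ^ 2 :=
    ⟨√R, Real.sqrt_pos.mpr hR0, by rw [Real.sqrt_le_one]; exact hR1, (Real.sq_sqrt hR0.le).symm⟩
  have hs2 : 0 < s ^ 2 := by positivity
  have hzn := hR₀ z hz.le
  have hwn := hR₀ w hw
  have hhf := 𝓓.hf_HR z R (w - z)
  have hre : (hf (𝓓.HR z R) (w - z)).re =
      ‖w - z‖ ^ 2 / R + ‖𝓓.pr z (w - z)‖ ^ 2 / R ^ 2 := by
    rw [hhf, Complex.ofReal_re]
  have hre' := hre ▸ hh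
  have hn1 : 0 ≤ ‖w - z‖ ^ 2 / R := by positivity
  have hn2 : 0 ≤ ‖𝓓.pr z (w - z)‖ ^ 2 / R ^ 2 := by positivity
  have ha2 : a ^ 2 = 4 * ε ^ 2 := by rw [ha]; ring
  have hv : ‖w - z‖ ≤ a * s := by
    have e1 : ‖w - z‖ ^ 2 / R ≤ 4 * ε ^ 2 := by linarith
    rw [div_le_iff₀ hR0] at e1
    rw [← sq_le_sq₀ (norm_nonneg _) (by positivity), mul_pow, ha2, ← hsR]
    exact e1
  have hq : ‖𝓓.pr z (w - z)‖ ≤ a * s ^ 2 := by
    have e1 : ‖𝓓.pr z (w - z)‖ ^ 2 / R ^ 2 ≤ 4 * ε ^ 2 := by linarith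
    rw [div_le_iff₀ (by positivity)] at e1
    rw [← sq_le_sq₀ (norm_nonneg _) (by positivity), mul_pow, ha2, ← hsR]
    exact e1
  have hv2 : ‖w - z‖ ^ 2 ≤ a ^ 2 * s ^ 2 := by
    rw [← mul_pow]; gcongr
  have hρw : -𝓓.ρ w ≤ C / 2 * s ^ 2 := by
    have e1 := (hA w z hw hz.le).2.2
    have e2 : C₁ * (‖𝓓.pr z (w - z)‖ + ‖w - z‖ ^ 2) ≤ C₁ * (a * s ^ 2 + a ^ 2 * s ^ 2) := by
      gcongr
    rw [hsR] at hzR
    have e3 : 0 ≤ (1 + a ^ 2) * s ^ 2 := by positivity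
    calc -𝓓.ρ w ≤ K * s ^ 2 + C₁ * (a * s ^ 2 + a ^ 2 * s ^ 2) := by linarith
      _ ≤ K * s ^ 2 + C₁ * (a * s ^ 2 + a ^ 2 * s ^ 2) + (1 + a ^ 2) * s ^ 2 := by linarith
      _ = C / 2 * s ^ 2 := by rw [hC]; ring
  have h1 : ‖𝓓.th w 0‖ ≤ C / 2 * s ^ 2 := by
    have e1 : 𝓓.th w 0 = ((-𝓓.ρ w : ℝ) : ℂ) := by
      change -(𝓓.ρ w : ℂ) = _
      push_cast; rfl
    rw [e1, Complex.norm_real, Real.norm_of_nonneg (by linarith)]
    exact hρw
  have h2 : ‖esec (𝓓.HR z R) r R z w 0‖ ≤ C / 2 * s ^ 2 := by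
    have e1 : esec (𝓓.HR z R) r R z w 0 = ((R * (r ^ 2 - (‖w - z‖ ^ 2 / R +
        ‖𝓓.pr z (w - z)‖ ^ 2 / R ^ 2)) : ℝ) : ℂ) := by
      change (R : ℂ) * ((r ^ 2 : ℝ) - hf (𝓓.HR z R) (w - z)) = _
      rw [hhf]
      push_cast; ring
    rw [e1, Complex.norm_real, norm_mul, Real.norm_of_nonneg hR0.le, hsR]
    rw [hsR] at hre' hn1 hn2
    have e2 : ‖r ^ 2 - (‖w - z‖ ^ 2 / s ^ 2 + ‖𝓓.pr z (w - z)‖ ^ 2 / (s ^ 2) ^ 2)‖ ≤
        1 + a ^ 2 := by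
      have e3 : r ^ 2 ≤ 1 := pow_le_one₀ hr0.le hr1
      rw [Real.norm_eq_abs, abs_le]
      constructor
      · nlinarith
      · nlinarith
    calc s ^ 2 * ‖r ^ 2 - (‖w - z‖ ^ 2 / s ^ 2 + ‖𝓓.pr z (w - z)‖ ^ 2 / (s ^ 2) ^ 2)‖
        ≤ s ^ 2 * (1 + a ^ 2) := by gcongr
      _ ≤ s ^ 2 * (C / 2) := by
        gcongr
        have e4 : 0 ≤ C₁ * (a + a ^ 2) := by positivity
        rw [hC]; linarith
      _ = _ := by ring
  obtain ⟨f1, f2, -, f4, -, f6, -⟩ := hLL w z hwn hzn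
  obtain ⟨g1, -⟩ := hLL z z hzn hzn
  have hp : ∑ j, ‖dz j (fun y => (𝓓.ρ y : ℂ)) z‖ ^ 2 ≠ 0 :=
    (hc.trans_le (hpr z hgz hz.le)).ne'
  have hpL : ∀ j, ‖dz j (fun y => (𝓓.ρ y : ℂ)) z‖ ≤ L := fun j => g1 (Fin.succ j)
  have hδ : ∀ j, ‖dz j (fun y => (𝓓.ρ y : ℂ)) w - dz j (fun y => (𝓓.ρ y : ℂ)) z‖ ≤
      L * a * s := by
    intro j
    refine (f6 (Fin.succ j)).trans ?_
    rw [mul_assoc]
    gcongr
  have hD : ∀ j k, ‖db k (fun y => 𝓓.th y j) w‖ ≤ L := f2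
  have key : ∀ φ : ℂ, ‖φ‖ ≤ Φ → _ := fun φ hφ =>
    𝓓.trC_det_bound (r := r) z w hs0 hs1 hsR hL0 ha0 hC0 hΦ0 ht0 ht1 hp hpL hδ hv hq hD h1 h2 hφ
  set φ : ℂ := ((deriv c0 ((hf (𝓓.HR z R) (w - z)).re / ε ^ 2) / ε ^ 2 : ℝ) : ℂ) with hφd
  have hφ : ‖φ‖ ≤ Φ := by
    rw [hφd, Complex.norm_real, norm_div, Real.norm_of_nonneg (sq_nonneg ε), hΦ,
      Real.norm_eq_abs]
    gcongr
    exact hL₀' _
  have k1 := key φ hφ
  have k2 := key 0 (by rw [norm_zero]; exact hΦ0)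
  rw [det_add_rank_one, Fin.sum_univ_succ, Fin.cons_zero, zero_mul, zero_add] at k1
  have k3 : (mt (lin 𝓓.th (fun w a => esec (𝓓.HR z R) r R z w a - 𝓓.th w a) t) w +
      Matrix.of fun a b => (esec (𝓓.HR z R) r R z w a - 𝓓.th w a) *
        (Fin.cons 0 (fun k => 0 * ((w k - z k) / R + 𝓓.pr z (w - z) *
          (starRingEnd ℂ) (dz k (fun y => (𝓓.ρ y : ℂ)) z) / R ^ 2)) :
            Fin (n + 1) → ℂ) b) =
      mt (lin 𝓓.th (fun w a => esec (𝓓.HR z R) r R z w a - 𝓓.th w a) t) w := by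
    ext i j
    rw [Matrix.add_apply, Matrix.of_apply]
    refine Fin.cases ?_ (fun j => ?_) j
    · rw [Fin.cons_zero, mul_zero, add_zero]
    · rw [Fin.cons_succ, zero_mul, mul_zero, add_zero]
  rw [k3] at k2
  have k4 : ∀ k, db k (fun y => (𝓓.cut z R ε y : ℂ)) w *
        Omk (lin 𝓓.th (fun w a => esec (𝓓.HR z R) r R z w a - 𝓓.th w a) t)
          (fun w a => esec (𝓓.HR z R) r R z w a - 𝓓.th w a) k w =
      (Fin.cons 0 (fun k => φ * ((w k - z k) / R + 𝓓.pr z (w - z) *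
          (starRingEnd ℂ) (dz k (fun y => (𝓓.ρ y : ℂ)) z) / R ^ 2)) :
            Fin (n + 1) → ℂ) (Fin.succ k) *
      ((mt (lin 𝓓.th (fun w a => esec (𝓓.HR z R) r R z w a - 𝓓.th w a) t) w).updateCol
        (Fin.succ k) (fun a => esec (𝓓.HR z R) r R z w a - 𝓓.th w a)).det := by
    intro k
    rw [Fin.cons_succ, 𝓓.db_cut z hR0 hε w k, hφd]
    rfl
  rw [Finset.sum_congr rfl fun k _ => k4 k]
  set M := (mt (lin 𝓓.th (fun w a => esec (𝓓.HR z R) r R z w a - 𝓓.th w a) t) w).det with hM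
  set S := ∑ i, (Fin.cons 0 (fun k => φ * ((w k - z k) / R + 𝓓.pr z (w - z) *
          (starRingEnd ℂ) (dz k (fun y => (𝓓.ρ y : ℂ)) z) / R ^ 2)) :
            Fin (n + 1) → ℂ) (Fin.succ i) *
      ((mt (lin 𝓓.th (fun w a => esec (𝓓.HR z R) r R z w a - 𝓓.th w a) t) w).updateCol
        (Fin.succ i) (fun a => esec (𝓓.HR z R) r R z w a - 𝓓.th w a)).det with hS
  have k5 : ‖S‖ ≤ ‖M + S‖ + ‖M‖ := by
    have : S = (M + S) - M := by ring
    calc ‖S‖ = ‖(M + S) - M‖ := by rw [← this]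
      _ ≤ _ := norm_sub_le _ _
  have k6 : B ≤ |B| := le_abs_self B
  linarith

end Dm

end Pool.Agent.MPca0fc2.CX
end

section

/-!
Task CX VolC: volumes of the sets `{|A(·,z)| < R}` and integrals of powers of `A`.
PROOFS. `vol_A`: if `g z < 7/8` then `-ρ z ≥ c'` (`g_comp`), so `‖A w z‖ ≥ c''` on `D` (`A_lower`) and the set
is empty for `R < c''`; for `R ≥ c''` the volume of `D` is `≤ C R^(n+1)`. If `g z ≥ 7/8`: `pr_lower` and
`A_lower`: the set is contained in `{‖w - z‖ ≤ √(C R), ‖pr z (w - z)‖ ≤ C R}`, use `vol_slab` (the case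
`n = 0`: everything is trivial or contradictory). `int_near`, `int_far`: `neg_moment`,
`neg_moment_far` with `k = n + 1`, `a w = ‖A w z‖` (continuous; positive on `D` by `A_lower`/`re_A`).
-/

set_option autoImplicit false

open Metric Set MeasureTheory Filter Topology
open scoped ComplexOrder

namespace Pool.Agent.MPca0fc2.CX

namespace Dm

variable {n : ℕ} (𝓓 : Dm n)

theorem volC_cont_dz (j : Fin n) : Continuous (dz j fun y => (𝓓.ρ y : ℂ)) := by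
  have h : ContDiff ℝ ((0 + 1 : ℕ) : WithTop ℕ∞) (fun y => (𝓓.ρ y : ℂ)) :=
    Complex.ofRealCLM.contDiff.comp (𝓓.sm.of_le (by norm_num))
  exact (contDiff_dz j h).continuous

theorem volC_cont (z : En n) : Continuous fun w => ‖𝓓.A w z‖ := by
  have h1 : Continuous 𝓓.ρ := 𝓓.sm.continuous
  have h2 : (fun w => 𝓓.A w z) = fun w => -(𝓓.ρ w : ℂ) +
      ∑ j, dz j (fun y => (𝓓.ρ y : ℂ)) w * (w j - z j) := by
    funext w
    rw [𝓓.A_eq]
    rfl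
  refine Continuous.norm ?_
  rw [h2]
  refine (Complex.continuous_ofReal.comp h1).neg.add ?_
  refine continuous_finsetSum _ fun j _ => (𝓓.volC_cont_dz j).mul ?_
  fun_prop

theorem volC_pos {w z : En n} (hw : w ∈ 𝓓.D) (hz : 𝓓.ρ z ≤ 0) : 0 < ‖𝓓.A w z‖ := by
  have h1 := 𝓓.re_A w z
  have h2 : 𝓓.ρ w < 0 := hw
  have h3 : 0 ≤ 𝓓.c * ‖w - z‖ ^ 2 := mul_nonneg 𝓓.cpos.le (sq_nonneg _)
  have h4 := Complex.re_le_norm (𝓓.A w z)
  linarith

theorem volC_fin : volume 𝓓.D ≠ ⊤ := by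
  obtain ⟨R, _, hR⟩ := 𝓓.exists_R
  have hsub : 𝓓.D ⊆ closedBall 0 R := fun w hw => by
    rw [mem_closedBall_zero_iff]
    exact hR w (le_of_lt hw)
  exact ((measure_mono hsub).trans_lt (isCompact_closedBall _ _).measure_lt_top).ne

theorem vol_A : ∃ C : ℝ, 0 < C ∧ ∀ z, 𝓓.ρ z ≤ 0 → ∀ R : ℝ, 0 < R →
    (volume.restrict 𝓓.D).real {w | ‖𝓓.A w z‖ < R} ≤ C * R ^ (n + 1 : ℝ) := by
  obtain ⟨C1, hC1, hg⟩ := 𝓓.g_comp
  obtain ⟨CA, hCA, hA⟩ := 𝓓.A_lower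
  obtain ⟨c0, hc0, hp⟩ := 𝓓.pr_lower
  have hC1' : 0 < C1 := by linarith
  have hCA' : 0 < CA := by linarith
  set d : ℝ := 1 / (8 * C1 * CA) with hd
  have hd0 : 0 < d := by positivity
  set V : ℝ := volume.real 𝓓.D with hV
  have hV0 : 0 ≤ V := measureReal_nonneg
  set K1 : ℝ := V / d ^ (n + 1 : ℝ) with hK1
  have hdn : 0 < d ^ (n + 1 : ℝ) := Real.rpow_pos_of_pos hd0 _
  have hK10 : 0 ≤ K1 := by positivity
  set K2 : ℝ := n * Real.pi ^ n * CA ^ (n + 1) / c0 with hK2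
  have hK20 : 0 ≤ K2 := by positivity
  refine ⟨K1 + K2 + 1, by linarith, fun z hz R hR => ?_⟩
  have hRn : 0 < R ^ (n + 1 : ℝ) := Real.rpow_pos_of_pos hR _
  have hD : MeasurableSet 𝓓.D := 𝓓.isOpen_D.measurableSet
  have e1 : (volume.restrict 𝓓.D).real {w | ‖𝓓.A w z‖ < R} =
      volume.real ({w | ‖𝓓.A w z‖ < R} ∩ 𝓓.D) := by
    rw [measureReal_def, measureReal_def, Measure.restrict_apply' hD]
  rw [e1]
  have hK : ∀ K, K ≤ K1 + K2 + 1 → volume.real ({w | ‖𝓓.A w z‖ < R} ∩ 𝓓.D) ≤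
      K * R ^ (n + 1 : ℝ) → volume.real ({w | ‖𝓓.A w z‖ < R} ∩ 𝓓.D) ≤
      (K1 + K2 + 1) * R ^ (n + 1 : ℝ) := fun K h1 h2 =>
    h2.trans (mul_le_mul_of_nonneg_right h1 hRn.le)
  rcases lt_or_ge (𝓓.g z) (7 / 8) with hgz | hgz
  · -- the inner part
    have h1 := (hg z hz).1
    have h2 : 1 / (8 * C1) ≤ -𝓓.ρ z := by
      rw [div_le_iff₀ (by positivity)]
      nlinarith
    have h3 : ∀ w ∈ 𝓓.D, d ≤ ‖𝓓.A w z‖ := by
      intro w hw
      have h4 := (hA w z (le_of_lt hw) hz).2.1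
      have h5 : 1 / (8 * C1) ≤ CA * ‖𝓓.A w z‖ := h2.trans h4
      rw [hd, div_le_iff₀ (by positivity)]
      rw [div_le_iff₀ (by positivity)] at h5
      nlinarith
    rcases le_or_gt R d with hRd | hRd
    · have h4 : {w | ‖𝓓.A w z‖ < R} ∩ 𝓓.D = ∅ := by
        ext w
        simp only [mem_inter_iff, mem_ofPred_eq, mem_empty_iff_false, iff_false, not_and]
        intro h5 h6
        have := h3 w h6
        linarith
      rw [h4, measureReal_empty]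
      exact mul_nonneg (by linarith) hRn.le
    · refine hK K1 (by linarith) ?_
      have h4 : volume.real ({w | ‖𝓓.A w z‖ < R} ∩ 𝓓.D) ≤ V :=
        measureReal_mono inter_subset_right 𝓓.volC_fin
      refine h4.trans ?_
      have h5 : d ^ (n + 1 : ℝ) ≤ R ^ (n + 1 : ℝ) :=
        Real.rpow_le_rpow hd0.le hRd.le (by positivity)
      rw [hK1, div_mul_eq_mul_div, le_div_iff₀ hdn]
      exact mul_le_mul_of_nonneg_left h5 hV0
  · -- near the boundary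
    refine hK K2 (by linarith) ?_
    have hn : 1 ≤ n := by
      rcases Nat.eq_zero_or_pos n with h0 | h0
      · exfalso
        subst h0
        have h1 := 𝓓.g_le z
        have h2 : z = 0 := Subsingleton.elim _ _
        rw [h2, norm_zero] at h1
        rw [h2] at hgz
        linarith
      · exact h0
    set a : En n := WithLp.toLp 2 fun j => dz j (fun y => (𝓓.ρ y : ℂ)) z with ha
    have haj : ∀ j, a j = dz j (fun y => (𝓓.ρ y : ℂ)) z := fun j => rfl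
    have hsq : (Real.sqrt c0) ^ 2 = c0 := Real.sq_sqrt hc0.le
    have hslab := vol_slab a z (c := Real.sqrt c0) (r := CA * R) (s := Real.sqrt (CA * R))
      (Real.sqrt_pos.2 hc0) (by positivity) (Real.sqrt_pos.2 (by positivity))
      (by rw [hsq]; simpa only [haj] using hp z hgz hz)
    have hsub : {w | ‖𝓓.A w z‖ < R} ∩ 𝓓.D ⊆
        {w : En n | ‖w - z‖ ≤ Real.sqrt (CA * R) ∧ ‖∑ j, a j * (w j - z j)‖ ≤ CA * R} := by
      intro w hw
      have hwR : ‖𝓓.A w z‖ < R := hw.1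
      have h1 := hA w z (le_of_lt hw.2) hz
      have h2 : CA * ‖𝓓.A w z‖ ≤ CA * R := mul_le_mul_of_nonneg_left hwR.le hCA'.le
      refine ⟨?_, ?_⟩
      · refine Real.le_sqrt_of_sq_le ?_
        exact h1.2.2.1.trans h2
      · have h3 : ∑ j, a j * (w j - z j) = 𝓓.pr z (w - z) := rfl
        rw [h3]
        exact h1.2.2.2.2.1.trans h2
    have hfin : volume {w : En n | ‖w - z‖ ≤ Real.sqrt (CA * R) ∧
        ‖∑ j, a j * (w j - z j)‖ ≤ CA * R} ≠ ⊤ := by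
      have hsub2 : {w : En n | ‖w - z‖ ≤ Real.sqrt (CA * R) ∧
          ‖∑ j, a j * (w j - z j)‖ ≤ CA * R} ⊆ closedBall z (Real.sqrt (CA * R)) :=
        fun w hw => by
          rw [mem_closedBall, dist_eq_norm]
          exact hw.1
      exact ((measure_mono hsub2).trans_lt (isCompact_closedBall _ _).measure_lt_top).ne
    refine (measureReal_mono hsub hfin).trans (hslab.trans (le_of_eq ?_))
    have e2 : Real.sqrt (CA * R) ^ (2 * n - 2) = (CA * R) ^ (n - 1) := by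
      have : 2 * n - 2 = 2 * (n - 1) := by omega
      rw [this, pow_mul, Real.sq_sqrt (by positivity)]
    have e3 : R ^ (n + 1 : ℝ) = R ^ (n + 1) := by
      rw [← Real.rpow_natCast]
      push_cast
      rfl
    rw [e2, div_pow, hsq, e3, hK2]
    obtain ⟨m, rfl⟩ : ∃ m, n = m + 1 := ⟨n - 1, by omega⟩
    have e4 : m + 1 - 1 = m := by omega
    rw [e4]
    field_simp
    ring

theorem volC_measure : IsFiniteMeasure (volume.restrict 𝓓.D) := by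
  refine ⟨?_⟩
  rw [Measure.restrict_apply_univ]
  exact lt_top_iff_ne_top.2 𝓓.volC_fin

/-- the integrable kernel -/
theorem int_near : ∃ C : ℝ, 0 < C ∧ ∀ z, 𝓓.ρ z ≤ 0 →
    IntegrableOn (fun w => ‖𝓓.A w z‖ ^ (-((n + 1 : ℝ) - 1 / 2))) 𝓓.D ∧
    ∫ w in 𝓓.D, ‖𝓓.A w z‖ ^ (-((n + 1 : ℝ) - 1 / 2)) ≤ C := by
  obtain ⟨C, hC, hv⟩ := 𝓓.vol_A
  have hfin := 𝓓.volC_measure
  have hn : (0 : ℝ) ≤ n := by positivity
  have hpos : 0 ≤ (volume.restrict 𝓓.D).real univ + C * ((n + 1 : ℝ) - 1 / 2) / (1 / 2) := by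
    have h1 : 0 ≤ (volume.restrict 𝓓.D).real univ := measureReal_nonneg
    have h2 : 0 ≤ C * ((n + 1 : ℝ) - 1 / 2) / (1 / 2) := by
      refine div_nonneg (mul_nonneg hC.le (by linarith)) (by norm_num)
    linarith
  refine ⟨(volume.restrict 𝓓.D).real univ + C * ((n + 1 : ℝ) - 1 / 2) / (1 / 2) + 1,
    by linarith, fun z hz => ?_⟩
  have hD : MeasurableSet 𝓓.D := 𝓓.isOpen_D.measurableSet
  have key := neg_moment (μ := volume.restrict 𝓓.D) (a := fun w => ‖𝓓.A w z‖)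
    (k := (n + 1 : ℝ)) (V := C) (s := 1 / 2) (𝓓.volC_cont z).measurable.aemeasurable
    ((ae_restrict_iff' hD).2 (Eventually.of_forall fun w hw => 𝓓.volC_pos hw hz))
    (by norm_num) (by linarith) hC.le (hv z hz)
  refine ⟨key.1, key.2.trans (by linarith)⟩

/-- the far part of the non-integrable kernels -/
theorem int_far {s : ℝ} (hs : 0 < s) : ∃ C : ℝ, 0 < C ∧ ∀ z, 𝓓.ρ z ≤ 0 → ∀ R : ℝ, 0 < R →
    ∫ w in 𝓓.D ∩ {w | R ≤ ‖𝓓.A w z‖}, ‖𝓓.A w z‖ ^ (-((n + 1 : ℝ) + s)) ≤ C * R ^ (-s) := by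
  obtain ⟨C, hC, hv⟩ := 𝓓.vol_A
  have hfin := 𝓓.volC_measure
  have hn : (0 : ℝ) ≤ n := by positivity
  refine ⟨C * ((n + 1 : ℝ) + s) / s, by positivity, fun z hz R hR => ?_⟩
  have key := neg_moment_far (μ := volume.restrict 𝓓.D) (a := fun w => ‖𝓓.A w z‖)
    (k := (n + 1 : ℝ)) (V := C) (s := s) (𝓓.volC_cont z).measurable.aemeasurable
    hs (by linarith) hC.le (hv z hz) hR
  have hm : MeasurableSet {w : En n | R ≤ ‖𝓓.A w z‖} :=
    (isClosed_le continuous_const (𝓓.volC_cont z)).measurableSet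
  rw [Measure.restrict_restrict hm, inter_comm] at key
  exact key

end Dm

end Pool.Agent.MPca0fc2.CX
end
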