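import Mathlib
import Pool.Agent.Lib.MP_ca0fc2_an.TB.Defs
import Pool.Agent.Lib.MP_ca0fc2_an.Mg.G073
import Pool.Agent.Lib.MP_ca0fc2_an.Mg.G079
import Pool.Agent.Lib.MP_ca0fc2_an.Mg.G085

section

/-! Normal families: solutions for the dilated data. -/

set_option autoImplicit false

open Metric Set Filter Topology

namespace Pool.Agent.MPca0fc2.TB

variable {n N : ℕ}

/-- Limits of solutions of dilated problems.
PROOF. `h i` solves for the data `f (k i • z)` on the unit ball, `‖h i‖ ≤ A`. Let `𝒰` be an ultrafilter on `ℕ` finer than `atTop`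
(`Ultrafilter.of atTop`). `SL.ultra_holo` (SLLim.lean) for the coordinates `h i z j` (bounded by `A`): they converge along `𝒰` at each
point of the ball to holomorphic functions `g j`; put `g z = WithLp.toLp 2 (fun j => g j z)`. `‖g z‖ ≤ A`: the norm is continuous. The equation:
`f (k i • z) → f z` (`f` is continuous at `z`, `k i → 1`), so `∑ f j (k i • z) * h i z j → ∑ f j z * g z j`. -/
theorem limit_solv {f : En n → En N} (hf : DifferentiableOn ℂ f (ball 0 1)) {A : ℝ} {k : ℕ → ℝ}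
    (hk : ∀ i, 0 < k i ∧ k i < 1) (hk1 : Tendsto k atTop (𝓝 1))
    (h : ∀ i, Solv (fun z => f ((k i : ℂ) • z)) (ball 0 1) A) : Solv f (ball 0 1) A := by
  choose H hH using h
  have hA : 0 ≤ A := (norm_nonneg _).trans ((hH 0).2.1 0 (mem_ball_self one_pos))
  set 𝒰 : Ultrafilter ℕ := Ultrafilter.of atTop with h𝒰
  have hle : (𝒰 : Filter ℕ) ≤ atTop := Ultrafilter.of_le _
  have key : ∀ j : Fin N, ∃ g : En n → ℂ, DifferentiableOn ℂ g (ball 0 1) ∧
      (∀ z ∈ ball (0 : En n) 1, ‖g z‖ ≤ A) ∧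
      ∀ z ∈ ball (0 : En n) 1, Tendsto (fun i => H i z j) 𝒰 (𝓝 (g z)) := fun j =>
    SL.ultra_holo 𝒰 (G := fun i z => H i z j) isOpen_ball hA
      (fun i => differentiableOn_euclidean.1 (hH i).1 j)
      (fun i z hz => (PiLp.norm_apply_le _ j).trans ((hH i).2.1 z hz))
  choose g hg1 hg2 hg3 using key
  have hlim : ∀ z ∈ ball (0 : En n) 1,
      Tendsto (fun i => H i z) 𝒰 (𝓝 (WithLp.toLp 2 (fun j => g j z) : En N)) := by
    intro z hz
    have h1 : Tendsto (fun i => (fun j => H i z j : Fin N → ℂ)) 𝒰 (𝓝 (fun j => g j z)) :=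
      tendsto_pi_nhds.2 fun j => hg3 j z hz
    exact ((PiLp.continuous_toLp 2 (fun _ : Fin N => ℂ)).tendsto _).comp h1
  refine ⟨fun z => WithLp.toLp 2 (fun j => g j z), ?_, ?_, ?_⟩
  · exact differentiableOn_euclidean.2 fun j => hg1 j
  · intro z hz
    exact le_of_tendsto (hlim z hz).norm (Filter.Eventually.of_forall fun i => (hH i).2.1 z hz)
  · intro z hz
    have h1 : Tendsto (fun i => ∑ j, f ((k i : ℂ) • z) j * H i z j) 𝒰 (𝓝 (∑ j, f z j * g j z)) := by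
      apply tendsto_finsetSum
      intro j _
      apply Tendsto.mul _ (hg3 j z hz)
      have h2 : Tendsto (fun i : ℕ => (k i : ℂ) • z) atTop (𝓝 z) := by
        have h3 : Tendsto (fun i : ℕ => ((k i : ℝ) : ℂ)) atTop (𝓝 ((1 : ℝ) : ℂ)) :=
          (Complex.continuous_ofReal.tendsto 1).comp hk1
        have h4 := h3.smul_const z
        simpa using h4
      have h5 : ContinuousAt (fun z => f z j) z :=
        (differentiableOn_euclidean.1 hf j).continuousOn.continuousAt (isOpen_ball.mem_nhds hz)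
      exact (h5.tendsto.comp h2).mono_left hle
    have h2 : Tendsto (fun i => ∑ j, f ((k i : ℂ) • z) j * H i z j) 𝒰 (𝓝 1) := by
      apply tendsto_const_nhds.congr
      intro i
      exact ((hH i).2.2 z hz).symm
    exact tendsto_nhds_unique h1 h2

/-- PROOF. By contradiction: otherwise for every `i` there is `k i ∈ (1 - 1/(i+2), 1)` such that the dilated problem is solvable;
`limit_solv`. -/
theorem solv_gap {f : En n → En N} (hf : DifferentiableOn ℂ f (ball 0 1)) {A : ℝ}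
    (h : ¬ Solv f (ball 0 1) A) :
    ∃ k₀ : ℝ, 0 < k₀ ∧ k₀ < 1 ∧ ∀ k, k₀ < k → k < 1 →
      ¬ Solv (fun z => f ((k : ℂ) • z)) (ball 0 1) A := by
  by_contra hcon
  push Not at hcon
  have hp : ∀ i : ℕ, (0 : ℝ) < 1 - 1 / ((i : ℝ) + 2) ∧ 1 - 1 / ((i : ℝ) + 2) < 1 := by
    intro i
    have h1 : (0 : ℝ) < (i : ℝ) + 2 := by positivity
    constructor
    · rw [sub_pos, div_lt_one h1]
      have : (0 : ℝ) ≤ i := Nat.cast_nonneg i
      linarith
    · have : 0 < 1 / ((i : ℝ) + 2) := by positivity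
      linarith
  choose k hk1 hk2 hk3 using fun i : ℕ => hcon (1 - 1 / ((i : ℝ) + 2)) (hp i).1 (hp i).2
  apply h
  apply limit_solv hf (k := k) (fun i => ⟨(hp i).1.trans (hk1 i), hk2 i⟩) _ hk3
  have h0 : Tendsto (fun i : ℕ => (1 : ℝ) - 1 / ((i : ℝ) + 2)) atTop (𝓝 (1 - 0)) := by
    apply Tendsto.sub tendsto_const_nhds
    have h2 : Tendsto (fun i : ℕ => (i : ℝ) + 2) atTop atTop :=
      tendsto_atTop_add_const_right _ _ tendsto_natCast_atTop_atTop
    exact (tendsto_inv_atTop_zero.comp h2).congr fun i => by simp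
  rw [sub_zero] at h0
  exact tendsto_of_tendsto_of_tendsto_of_le_of_le h0 tendsto_const_nhds
    (fun i => (hk1 i).le) (fun i => (hk2 i).le)

/-- Rescaling.
PROOF. If `g` solves for `F` on `ball 0 t` then `z ↦ g (t • z)` solves for `z ↦ F (t • z)` on the unit ball. -/
theorem solv_scale {F : En n → En N} {t A : ℝ} (ht : 0 < t) (h : Solv F (ball 0 t) A) :
    Solv (fun z => F ((t : ℂ) • z)) (ball 0 1) A := by
  obtain ⟨g, hg1, hg2, hg3⟩ := h
  have hm : ∀ z ∈ ball (0 : En n) 1, (t : ℂ) • z ∈ ball (0 : En n) t := by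
    intro z hz
    rw [mem_ball_zero_iff] at hz ⊢
    rw [norm_smul, Complex.norm_real, Real.norm_of_nonneg ht.le]
    nlinarith
  refine ⟨fun z => g ((t : ℂ) • z), ?_, fun z hz => hg2 _ (hm z hz), fun z hz => hg3 _ (hm z hz)⟩
  exact hg1.comp ((differentiable_id.const_smul (t : ℂ)).differentiableOn) hm

end Pool.Agent.MPca0fc2.TB
end

section

/-!
Task CX KB: the error of the local reproducing formula.
PROOF. Use `rep` with `H = HR z R`, `s = R`, `U = {h < 5 ε²}`, `h w = (hf (HR z R) (w - z)).re`, `χ = cut z R ε`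
(`cut_facts`), and `r` so small that `r ≤ 1`, `r² ≤ ε²/2`, and `{h < r²} ⊆ D` (`‖w-z‖² ≤ R h < r²`, `D` open). Bound of the
integral: `db k χ` vanishes unless `ε² ≤ h ≤ 4 ε²`, there `‖fp‖ ≤ C (-ρ w)^m / R^(m+n+1)` (`fp_bound`),
the sum is `≤ C` (`TR_bound`), `(-ρ w) ‖Φ w‖ ≤ Mb`, `-ρ w ≤ C R` and `‖A w z‖ < C' R` (`A_upper`, `hf_HR`), so
the integral is `≤ C Mb R^(m-1) R^(-(m+n+1)) vol {w ∈ D : ‖A w z‖ < C' R} ≤ C Mb / R` by `vol_A`.
(For the norm of the integral use `norm_setIntegral_le_of_norm_le_const` on the set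
`D ∩ {‖A w z‖ < C' R}` after restricting the integral to it.)
-/

set_option autoImplicit false

open Metric Set MeasureTheory Filter Topology
open scoped ComplexOrder

namespace Pool.Agent.MPca0fc2.CX

namespace Dm

variable {n : ℕ} (𝓓 : Dm n)

/-- The error of the local reproducing formula with the anisotropic cut-off of size `R`. -/
theorem loc_err {K ε : ℝ} (hK : 0 < K) (hε : 0 < ε) {m : ℕ} (hm : 2 ≤ m) : ∃ C : ℝ, 0 < C ∧
    ∀ (z : En n) (R : ℝ) (Φ : En n → ℂ) (Mb : ℝ), 𝓓.ρ z < 0 → 7 / 8 ≤ 𝓓.g z →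
    0 < R → R ≤ 1 → -𝓓.ρ z ≤ K * R →
    DifferentiableOn ℂ Φ (𝓓.D ∩ {w | (hf (𝓓.HR z R) (w - z)).re < 5 * ε ^ 2}) →
    (∃ M : ℝ, ∀ w ∈ 𝓓.D ∩ {w | (hf (𝓓.HR z R) (w - z)).re < 5 * ε ^ 2}, ‖Φ w‖ ≤ M) →
    (∀ w ∈ 𝓓.D, (hf (𝓓.HR z R) (w - z)).re ≤ 4 * ε ^ 2 → (-𝓓.ρ w) * ‖Φ w‖ ≤ Mb) → 0 ≤ Mb →
    ‖(∫ w in 𝓓.D, (𝓓.cut z R ε w : ℂ) * Φ w * (fp m 𝓓.th z w * Om 𝓓.th w)) -
      (kap n m : ℂ) * Φ z‖ ≤ C * (Mb / R) := by
  obtain ⟨C₁, hC₁, hfp⟩ := 𝓓.fp_bound hK hε m (by omega)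
  obtain ⟨C₂, hC₂, hTR⟩ := 𝓓.TR_bound hK hε
  obtain ⟨CA, hCA, hAu⟩ := 𝓓.A_upper
  obtain ⟨C₄, hC₄, hvol⟩ := 𝓓.vol_A
  have hCA0 : 0 < CA := by linarith
  set C₃ : ℝ := K + CA * (2 * ε + 4 * ε ^ 2) with hC₃
  have hC₃p : 0 < C₃ := by positivity
  obtain ⟨m', rfl⟩ : ∃ m', m = m' + 1 := ⟨m - 1, by omega⟩
  refine ⟨C₁ * C₂ * C₃ ^ m' * (C₄ * (C₃ + 1) ^ (n + 1)), by positivity, ?_⟩
  intro z R Φ Mb hz hg hR hR1 hzR hΦ hΦb hΦM hMb
  have hh : ∀ w, (hf (𝓓.HR z R) (w - z)).re =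
      ‖w - z‖ ^ 2 / R + ‖𝓓.pr z (w - z)‖ ^ 2 / R ^ 2 := by
    intro w
    rw [𝓓.hf_HR, Complex.ofReal_re]
  have hh1 : ∀ w, ‖w - z‖ ^ 2 ≤ R * (hf (𝓓.HR z R) (w - z)).re := by
    intro w
    rw [hh, mul_add, mul_div_cancel₀ _ hR.ne']
    have : 0 ≤ R * (‖𝓓.pr z (w - z)‖ ^ 2 / R ^ 2) := by positivity
    linarith
  have hh2 : ∀ w, ‖𝓓.pr z (w - z)‖ ^ 2 ≤ R ^ 2 * (hf (𝓓.HR z R) (w - z)).re := by
    intro w
    have hR2 : R ^ 2 ≠ 0 := by positivity
    rw [hh, mul_add, mul_div_cancel₀ _ hR2]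
    have : 0 ≤ R ^ 2 * (‖w - z‖ ^ 2 / R) := by positivity
    linarith
  have hhc : Continuous fun w => (hf (𝓓.HR z R) (w - z)).re := by
    have h0 : (fun w => (hf (𝓓.HR z R) (w - z)).re) =
        fun w => ‖w - z‖ ^ 2 / R + ‖𝓓.pr z (w - z)‖ ^ 2 / R ^ 2 := funext hh
    rw [h0]
    unfold pr
    have h1 : Continuous fun w : En n =>
        ∑ j, dz j (fun y => (𝓓.ρ y : ℂ)) z * (w - z).ofLp j := by
      fun_prop
    fun_prop
  obtain ⟨hcsm, hccpt, hc01, hc1, hc0', hcsupp, hcdb⟩ := 𝓓.cut_facts z hR hε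
  -- the upper bounds near z
  have hnear : ∀ w ∈ 𝓓.D, (hf (𝓓.HR z R) (w - z)).re ≤ 4 * ε ^ 2 →
      -𝓓.ρ w ≤ C₃ * R ∧ ‖𝓓.A w z‖ ≤ C₃ * R := by
    intro w hw hw4
    have hw' : 𝓓.ρ w < 0 := hw
    have e1 : ‖w - z‖ ^ 2 ≤ 4 * ε ^ 2 * R :=
      (hh1 w).trans (by nlinarith)
    have e2 : ‖𝓓.pr z (w - z)‖ ≤ 2 * ε * R := by
      have h3 : ‖𝓓.pr z (w - z)‖ ^ 2 ≤ (2 * ε * R) ^ 2 :=
        (hh2 w).trans (by
          have := mul_le_mul_of_nonneg_left hw4 (sq_nonneg R)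
          nlinarith)
      exact abs_le_of_sq_le_sq' h3 (by positivity) |>.2
    have e3 := hAu w z hw'.le hz.le
    have e4 : CA * (‖𝓓.pr z (w - z)‖ + ‖w - z‖ ^ 2) ≤ CA * (2 * ε + 4 * ε ^ 2) * R := by
      have := mul_le_mul_of_nonneg_left (add_le_add e2 e1) hCA0.le
      refine this.trans (le_of_eq ?_)
      ring
    have e5 : C₃ * R = K * R + CA * (2 * ε + 4 * ε ^ 2) * R := by rw [hC₃]; ring
    constructor
    · rw [e5]; linarith [e3.2.2]
    · rw [e5]; linarith [e3.1]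
  -- the radius
  obtain ⟨r₀, hr₀, hball⟩ := Metric.isOpen_iff.mp 𝓓.isOpen_D z hz
  set r : ℝ := min (min 1 (ε / 2)) r₀ with hr
  have hrp : 0 < r := lt_min (lt_min one_pos (by positivity)) hr₀
  have hr1 : r ≤ 1 := (min_le_left _ _).trans (min_le_left _ _)
  have hr2 : r ≤ ε / 2 := (min_le_left _ _).trans (min_le_right _ _)
  have hr3 : r ≤ r₀ := min_le_right _ _
  have hr4 : r ^ 2 ≤ ε ^ 2 / 2 := by
    have : r ^ 2 ≤ (ε / 2) ^ 2 := pow_le_pow_left₀ hrp.le hr2 2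
    nlinarith [sq_nonneg ε]
  have hcut : CutData 𝓓.D {w | (hf (𝓓.HR z R) (w - z)).re < 5 * ε ^ 2} Φ (𝓓.cut z R ε) := by
    refine ⟨isOpen_lt hhc continuous_const, hΦ, hΦb, hcsm, hccpt, ?_⟩
    intro w hw
    have h1 := hcsupp hw
    have h2 : (hf (𝓓.HR z R) (w - z)).re ≤ 4 * ε ^ 2 := h1
    show (hf (𝓓.HR z R) (w - z)).re < 5 * ε ^ 2
    have : 0 < ε ^ 2 := by positivity
    linarith
  refine 𝓓.rep hz (𝓓.HR_posDef z hR) hrp hR hcut (fun w hw => ?_) hm (fun t ht => ?_)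
  · have h1 : ‖w - z‖ ^ 2 < r ^ 2 := by
      refine lt_of_le_of_lt (hh1 w) ?_
      have h0 : 0 ≤ (hf (𝓓.HR z R) (w - z)).re := by rw [hh]; positivity
      nlinarith
    have h2 : ‖w - z‖ < r := lt_of_pow_lt_pow_left₀ 2 hrp.le h1
    have h5 : 0 < ε ^ 2 := by positivity
    refine ⟨hball (by rw [mem_ball, dist_eq_norm]; linarith), ?_, hc1 w ?_⟩
    · show (hf (𝓓.HR z R) (w - z)).re < 5 * ε ^ 2
      linarith
    · linarith
  · -- the integral
    set f : En n → ℂ := fun w => Φ w *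
      (fp (m' + 1) (lin 𝓓.th (fun w a => esec (𝓓.HR z R) r R z w a - 𝓓.th w a) t) z w *
      ∑ k, db k (fun y => (𝓓.cut z R ε y : ℂ)) w *
        Omk (lin 𝓓.th (fun w a => esec (𝓓.HR z R) r R z w a - 𝓓.th w a) t)
          (fun w a => esec (𝓓.HR z R) r R z w a - 𝓓.th w a) k w) with hfdef
    have hDm : MeasurableSet 𝓓.D := 𝓓.isOpen_D.measurableSet
    have hSm : MeasurableSet {w | ‖𝓓.A w z‖ < (C₃ + 1) * R} :=
      (isOpen_lt (𝓓.kA_A_cont z).norm continuous_const).measurableSet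
    have hzero : ∀ w ∈ 𝓓.D \ (𝓓.D ∩ {w | ‖𝓓.A w z‖ < (C₃ + 1) * R}), f w = 0 := by
      intro w hw
      have hwD : w ∈ 𝓓.D := hw.1
      have hwA : ¬ ‖𝓓.A w z‖ < (C₃ + 1) * R := fun h => hw.2 ⟨hw.1, h⟩
      have h4 : 4 * ε ^ 2 < (hf (𝓓.HR z R) (w - z)).re := by
        by_contra h
        push Not at h
        have := (hnear w hwD h).2
        apply hwA
        nlinarith
      rw [hfdef]
      simp only
      rw [Finset.sum_eq_zero (fun k _ => by rw [hcdb w k (Or.inr h4), zero_mul])]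
      simp
    have hbound : ∀ w ∈ 𝓓.D ∩ {w | ‖𝓓.A w z‖ < (C₃ + 1) * R},
        ‖f w‖ ≤ C₁ * C₂ * C₃ ^ m' * (Mb * R ^ m' / R ^ (m' + 1 + n + 1)) := by
      intro w hw
      have hwD : w ∈ 𝓓.D := hw.1
      have hwD' : 𝓓.ρ w < 0 := hwD
      have hnn : 0 ≤ C₁ * C₂ * C₃ ^ m' * (Mb * R ^ m' / R ^ (m' + 1 + n + 1)) := by positivity
      by_cases h1 : (hf (𝓓.HR z R) (w - z)).re < ε ^ 2 ∨ 4 * ε ^ 2 < (hf (𝓓.HR z R) (w - z)).re
      · have : f w = 0 := by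
          rw [hfdef]
          simp only
          rw [Finset.sum_eq_zero (fun k _ => by rw [hcdb w k h1, zero_mul])]
          simp
        rw [this, norm_zero]
        exact hnn
      · push Not at h1
        obtain ⟨h1, h2⟩ := h1
        have e1 := hfp z R r t w hz hR hR1 hzR hrp hr4 ht.1 ht.2 hwD' h1 h2
        have e2 := hTR z R r t w hz hg hR hR1 hzR hrp hr1 ht.1.le ht.2.le hwD'.le h2
        have e3 := hΦM w hwD h2
        have e4 := (hnear w hwD h2).1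
        have hρp : 0 < -𝓓.ρ w := by linarith
        rw [hfdef]
        simp only
        rw [norm_mul, norm_mul]
        calc ‖Φ w‖ * (‖fp (m' + 1) (lin 𝓓.th (fun w a =>
                esec (𝓓.HR z R) r R z w a - 𝓓.th w a) t) z w‖ *
              ‖∑ k, db k (fun y => (𝓓.cut z R ε y : ℂ)) w *
                Omk (lin 𝓓.th (fun w a => esec (𝓓.HR z R) r R z w a - 𝓓.th w a) t)
                  (fun w a => esec (𝓓.HR z R) r R z w a - 𝓓.th w a) k w‖)
            ≤ ‖Φ w‖ * ((C₁ * ((-𝓓.ρ w) ^ (m' + 1) / R ^ (m' + 1 + n + 1))) * C₂) := by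
              refine mul_le_mul_of_nonneg_left ?_ (norm_nonneg _)
              exact mul_le_mul e1 e2 (norm_nonneg _) (by positivity)
          _ = C₁ * C₂ * ((-𝓓.ρ w) * ‖Φ w‖) * (-𝓓.ρ w) ^ m' / R ^ (m' + 1 + n + 1) := by ring
          _ ≤ C₁ * C₂ * Mb * (C₃ * R) ^ m' / R ^ (m' + 1 + n + 1) := by
              refine div_le_div_of_nonneg_right ?_ (by positivity)
              refine mul_le_mul ?_ (pow_le_pow_left₀ hρp.le e4 m') (by positivity) (by positivity)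
              exact mul_le_mul_of_nonneg_left e3 (by positivity)
          _ = _ := by rw [mul_pow]; ring
    have hvolR := hvol z hz.le ((C₃ + 1) * R) (by positivity)
    have hfinD : volume 𝓓.D < ⊤ := by
      obtain ⟨R', _, hR'⟩ := 𝓓.exists_R
      refine lt_of_le_of_lt (measure_mono (fun w hw => ?_))
        (measure_closedBall_lt_top (x := (0 : En n)) (r := R'))
      rw [mem_closedBall, dist_zero_right]
      exact hR' w (le_of_lt hw)
    have hint : ∫ w in 𝓓.D, f w = ∫ w in 𝓓.D ∩ {w | ‖𝓓.A w z‖ < (C₃ + 1) * R}, f w :=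
      setIntegral_eq_of_subset_of_forall_sdiff_eq_zero hDm inter_subset_left hzero
    rw [hint]
    refine (norm_setIntegral_le_of_norm_le_const
      (lt_of_le_of_lt (measure_mono inter_subset_left) hfinD) hbound).trans ?_
    have hvr : volume.real (𝓓.D ∩ {w | ‖𝓓.A w z‖ < (C₃ + 1) * R}) ≤
        C₄ * ((C₃ + 1) * R) ^ (n + 1) := by
      have e1 : (volume.restrict 𝓓.D).real {w | ‖𝓓.A w z‖ < (C₃ + 1) * R} =
          volume.real (𝓓.D ∩ {w | ‖𝓓.A w z‖ < (C₃ + 1) * R}) := by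
        rw [measureReal_restrict_apply hSm, inter_comm]
      rw [← e1]
      refine hvolR.trans (le_of_eq ?_)
      congr 1
      exact_mod_cast Real.rpow_natCast ((C₃ + 1) * R) (n + 1)
    calc C₁ * C₂ * C₃ ^ m' * (Mb * R ^ m' / R ^ (m' + 1 + n + 1)) *
          volume.real (𝓓.D ∩ {w | ‖𝓓.A w z‖ < (C₃ + 1) * R})
        ≤ C₁ * C₂ * C₃ ^ m' * (Mb * R ^ m' / R ^ (m' + 1 + n + 1)) *
          (C₄ * ((C₃ + 1) * R) ^ (n + 1)) := mul_le_mul_of_nonneg_left hvr (by positivity)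
      _ = C₁ * C₂ * C₃ ^ m' * (C₄ * (C₃ + 1) ^ (n + 1)) * (Mb / R) := by
          rw [mul_pow]
          have e1 : R ^ (m' + 1 + n + 1) = R ^ m' * R ^ (n + 1) * R := by ring
          rw [e1]
          field_simp

end Dm

end Pool.Agent.MPca0fc2.CX
end
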