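import Pool.Agent.Lib.MP_ca0fc2_an.EQ.B6
import Pool.Agent.Lib.MP_ca0fc2_an.EQ.A4

section

/-! Campaign EQ, task B7: the solution on the ball. -/

set_option autoImplicit false

open Metric Set Filter Topology

namespace Pool.Agent.MPca0fc2.EQ

open Pool.Agent.MPca0fc2.TB (En Solv IsSol)

variable {n N : ℕ}

private theorem B7_al {j : ℕ} (hj : 1 ≤ j) : 1 / 2 ≤ al j ∧ al j ≤ 1 := by
  have h1 : (0 : ℝ) < (1 / 2) ^ j := by positivity
  have h2 : (1 / 2 : ℝ) ^ j ≤ (1 / 2) ^ 1 := pow_le_pow_of_le_one (by norm_num) (by norm_num) hj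
  unfold al
  constructor <;> linarith

private theorem B7_norm {j : ℕ} (hj : 1 ≤ j) {z : En n} (hz : ‖z‖ < be j) :
    15 / 16 * (1 / 2 : ℝ) ^ j ≤ 1 - ‖al j • z‖ := by
  have h0 := B7_al hj
  have h1 : (0 : ℝ) < (1 / 2) ^ j := by positivity
  rw [norm_smul, Real.norm_eq_abs, abs_of_nonneg (by linarith [h0.1])]
  have h2 : al j * ‖z‖ ≤ al j * be j := mul_le_mul_of_nonneg_left hz.le (by linarith [h0.1])
  have h3 : al j * be j = 1 - 15 / 16 * (1 / 2) ^ j - ((1 / 2 : ℝ) ^ j) ^ 2 / 16 := by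
    unfold al be
    ring
  rw [h3] at h2
  have h4 : 0 ≤ ((1 / 2 : ℝ) ^ j) ^ 2 / 16 := by positivity
  linarith

private theorem B7_tend {β : ℝ} (hβ : 0 < β) (C : ℝ) {ε : ℝ} (hε : 0 < ε) :
    ∀ᶠ lam in 𝓝[>] (0 : ℝ), C * lam ^ β < ε := by
  have h1 : Tendsto (fun x : ℝ => C * x ^ β) (𝓝[>] (0 : ℝ)) (𝓝 (C * 0 ^ β)) :=
    (((Real.continuous_rpow_const hβ.le).tendsto 0).const_mul C).mono_left nhdsWithin_le_nhds
  rw [Real.zero_rpow hβ.ne', mul_zero] at h1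
  exact h1.eventually (gt_mem_nhds hε)

/-- The start of the approximation.
PROOF. `‖al j₀ • z‖ < al j₀ * be j₀ ≤ 1 - (15/16) (1/2)^j₀`, so `y = al j₀ • z` has `1 - ‖y‖ ≥ (15/32) lam ^ 2.3`. `FB y y = (1 - c0) f (Ph ((1 - t0) • y)) + c0 Fz K 0 root S y y`. First part: `ph_rad`. If `c0 y > 0`: `fz_cl` (`root_ev`; `θ ≥ 1 - ‖y‖`, `ts 1 / θ ≤ 4 lam ^ 0.4`): near
`f ((1 - S) • y)` (`root`: `Ψ = id`); `rlf` for `root` between `1 - S` and `1` (zones: `Zone lam 0 root y`: `ts 1 ≤ 4 (1 - ‖y‖)`): `≤ C t0 / θ ≤ 4 C lam ^ 0.1`; `ph_near`: `‖f (Ph y) - f y‖ ≤ C lam ^ 0.2`. -/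
theorem fb_start (T : Tg n) (Cs : ℝ) (N : ℕ) : ∃ C : ℝ, 1 ≤ C ∧ ∀ s > 0, ∀ᶠ lam in 𝓝[>] (0 : ℝ), ∀ (sh : ℕ → ℝ) (Sy : Sys T Cs lam sh) (f : En n → En N)
    (K j₀ : ℕ), Dat T s f → 1 ≤ j₀ → (1 / 2 : ℝ) ^ j₀ ≤ lam ^ (23 / 10 : ℝ) → lam ^ (23 / 10 : ℝ) ≤ 2 * (1 / 2 : ℝ) ^ j₀ →
    DifferentiableOn ℂ (fun z => f (Ph lam T.e (al j₀ • z))) {z : En n | ‖z‖ < be j₀} ∧
    ∀ z : En n, ‖z‖ < be j₀ → ‖f (Ph lam T.e (al j₀ • z)) - FB T lam sh Sy.nx f K (al j₀ • z) (al j₀ • z)‖ ≤ C * lam ^ (1 / 10 : ℝ) := by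
  obtain ⟨C₁, hC₁, hcl⟩ := fz_cl T Cs N
  obtain ⟨C₂, hC₂, hrl⟩ := rlf T Cs N
  obtain ⟨C₃, hC₃, hnr⟩ := ph_near T N
  refine ⟨64 + (4 * C₁ + 3 * C₂ + C₃), by linarith, ?_⟩
  intro s hs
  filter_upwards [hcl s hs, hrl s hs, hnr s hs, ph_mem T hs, ph_rad T hs, root_ev T, ev_zone' n,
    ev_lt (a := 1) one_pos, B7_tend (β := 1 / 10) (by norm_num) 2 (ε := 1) one_pos] with lam hcl hrl hnr
    hmem hprad hroot hzone hlam hsm
  obtain ⟨hl0, hl1⟩ := hlam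
  intro sh Sy f K j₀ hf hj₀ hj1 hj2
  have hx0 : 0 < lam ^ (23 / 10 : ℝ) := Real.rpow_pos_of_pos hl0 _
  have hy : ∀ z : En n, ‖z‖ < be j₀ → 15 / 32 * lam ^ (23 / 10 : ℝ) ≤ 1 - ‖al j₀ • z‖ := by
    intro z hz
    have h1 := B7_norm hj₀ hz
    linarith
  have ht0 : t0 lam = lam ^ (23 / 10 : ℝ) * lam ^ (1 / 10 : ℝ) := by
    unfold t0
    rw [← Real.rpow_add hl0]
    norm_num
  have hm0 : 0 < lam ^ (1 / 10 : ℝ) := Real.rpow_pos_of_pos hl0 _
  have ht0' : t0 lam ≤ 1 / 2 * lam ^ (23 / 10 : ℝ) := by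
    rw [ht0]
    nlinarith
  have ht00 : 0 < t0 lam := Real.rpow_pos_of_pos hl0 _
  have hx1 : lam ^ (23 / 10 : ℝ) ≤ 1 := Real.rpow_le_one hl0.le hl1.le (by norm_num)
  constructor
  · have h1 : DifferentiableOn ℂ (fun z : En n => al j₀ • z) {z : En n | ‖z‖ < be j₀} :=
      (differentiable_id.const_smul (al j₀)).differentiableOn
    have h2 : MapsTo (fun z : En n => al j₀ • z) {z : En n | ‖z‖ < be j₀} (ball 0 1) := by
      intro z hz
      have := hy z hz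
      rw [mem_ball_zero_iff]
      linarith
    have h3 := hmem.1.comp h1 h2
    refine hf.hol.comp h3 ?_
    intro z hz
    have := hy z hz
    exact hmem.2 _ (by linarith) (by linarith)
  · intro z hz
    have hθ := hy z hz
    set y := al j₀ • z with hydef
    have hylt : ‖y‖ < 1 := by linarith
    have hθ0 : 0 < 1 - ‖y‖ := by linarith
    obtain ⟨hc0, hc1, hs0, hs1, hcpos, -, -, -, -⟩ := c0_facts hl0 T.e y y
    have hA : ‖f (Ph lam T.e y) - f (Ph lam T.e ((1 - t0 lam) • y))‖ ≤ 64 * lam ^ (1 / 10 : ℝ) :=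
      hprad f hf y (by linarith)
    unfold FB
    set A := f (Ph lam T.e ((1 - t0 lam) • y)) with hAdef
    set S := t0 lam * s0 lam T.e y ^ 4 with hSdef
    set B := Fz lam sh Sy.nx f K 0 (root T.e) S y y with hBdef
    have hS0 : 0 ≤ S := by positivity
    have hS1 : S ≤ t0 lam := by
      have : s0 lam T.e y ^ 4 ≤ 1 := pow_le_one₀ hs0 hs1
      nlinarith
    have hB : 0 < c0 lam T.e y →
        ‖f (Ph lam T.e y) - B‖ ≤ (4 * C₁ + 3 * C₂ + C₃) * lam ^ (1 / 10 : ℝ) := by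
      intro hc
      have hzt := hcpos hc
      have hzt2 : ‖zt T.e y‖ ≤ 2 * lam ^ 2 := by nlinarith [sq_nonneg lam]
      have hzt3 : ‖zt T.e y‖ ≤ 3 * lam ^ 2 := by nlinarith [sq_nonneg lam]
      have hev := hroot K S y hylt hS0 hS1 hzt3
      have hev0 := hroot K 0 y hylt le_rfl ht00.le hzt3
      have hts : ts lam (0 + 1) = lam ^ (27 / 10 : ℝ) := by rw [ts_succ hl0, rs_zero]
      have hts' : lam ^ (27 / 10 : ℝ) ≤ 1 / 2 * lam ^ (23 / 10 : ℝ) := by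
        have e1 : lam ^ (27 / 10 : ℝ) = lam ^ (23 / 10 : ℝ) * lam ^ (4 / 10 : ℝ) := by
          rw [← Real.rpow_add hl0]; norm_num
        have e2 : lam ^ (4 / 10 : ℝ) ≤ lam ^ (1 / 10 : ℝ) :=
          Real.rpow_le_rpow_of_exponent_ge hl0 hl1.le (by norm_num)
        rw [e1]
        nlinarith
      have hnn := norm_nonneg y
      have hS12 : S ≤ 1 / 2 := by linarith
      have hθS : 1 - ‖y‖ ≤ 1 - (1 - S) * ‖y‖ := by nlinarith
      have hcond : ts lam (0 + 1) ≤ 2 * (1 - (1 - S) * ‖y‖) := by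
        rw [hts]
        linarith
      have hcond0 : ts lam (0 + 1) ≤ 2 * (1 - (1 - 0) * ‖y‖) := by
        rw [hts]
        linarith
      have h1 := hcl sh Sy f K 0 (root T.e) S y y hf Sy.good0 hev hcond
      have hz1 := hzone K 0 (root T.e) S y y hev hcond
      have hz0 := hzone K 0 (root T.e) 0 y y hev0 hcond0
      rw [sub_zero] at hz0
      have h2 := hrl sh Sy f 0 (root T.e) y (1 - S) 1 hf Sy.good0 hylt.le (by linarith) zero_le_one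
        (by linarith) le_rfl hz1 hz0
      have h3 := (hnr f y hf hylt (by linarith) hzt2).2
      have hΨ : ∀ w : En n, (root T.e).Ψ w = w := fun w => rfl
      rw [hΨ] at h1
      rw [hΨ, hΨ, one_smul, max_eq_right (by linarith : 1 - S ≤ 1), one_mul] at h2
      rw [rs_zero, hts] at h1
      have e3 : lam ^ (3 / 10 : ℝ) ≤ lam ^ (1 / 10 : ℝ) :=
        Real.rpow_le_rpow_of_exponent_ge hl0 hl1.le (by norm_num)
      have e2 : lam ^ (1 / 5 : ℝ) ≤ lam ^ (1 / 10 : ℝ) :=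
        Real.rpow_le_rpow_of_exponent_ge hl0 hl1.le (by norm_num)
      have e4 : lam ^ (27 / 10 : ℝ) / (1 - (1 - S) * ‖y‖) ≤ 3 * lam ^ (1 / 10 : ℝ) := by
        rw [div_le_iff₀ (by linarith)]
        have e1 : lam ^ (27 / 10 : ℝ) = lam ^ (23 / 10 : ℝ) * lam ^ (4 / 10 : ℝ) := by
          rw [← Real.rpow_add hl0]; norm_num
        have e2 : lam ^ (4 / 10 : ℝ) ≤ lam ^ (1 / 10 : ℝ) :=
          Real.rpow_le_rpow_of_exponent_ge hl0 hl1.le (by norm_num)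
        have e5 : lam ^ (23 / 10 : ℝ) ≤ 3 * (1 - (1 - S) * ‖y‖) := by linarith
        rw [e1]
        calc lam ^ (23 / 10 : ℝ) * lam ^ (4 / 10 : ℝ)
            ≤ 3 * (1 - (1 - S) * ‖y‖) * lam ^ (1 / 10 : ℝ) := by
              refine mul_le_mul e5 e2 (by positivity) (by linarith)
          _ = 3 * lam ^ (1 / 10 : ℝ) * (1 - (1 - S) * ‖y‖) := by ring
      have h1' : ‖B - f ((1 - S) • y)‖ ≤ C₁ * (4 * lam ^ (1 / 10 : ℝ)) := by
        refine h1.trans (mul_le_mul_of_nonneg_left ?_ (by linarith))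
        linarith
      have h2' : ‖f ((1 - S) • y) - f y‖ ≤ 3 * C₂ * lam ^ (1 / 10 : ℝ) := by
        refine h2.trans ?_
        rw [show |1 - S - 1| = S by rw [show (1 - S - 1 : ℝ) = -S by ring, abs_neg, abs_of_nonneg hS0]]
        rw [div_le_iff₀ hθ0]
        have e6 : S ≤ 3 * lam ^ (1 / 10 : ℝ) * (1 - ‖y‖) := by
          have : lam ^ (23 / 10 : ℝ) ≤ 3 * (1 - ‖y‖) := by linarith
          calc S ≤ lam ^ (23 / 10 : ℝ) * lam ^ (1 / 10 : ℝ) := by rw [← ht0]; exact hS1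
            _ ≤ 3 * (1 - ‖y‖) * lam ^ (1 / 10 : ℝ) := mul_le_mul_of_nonneg_right this hm0.le
            _ = _ := by ring
        calc C₂ * S ≤ C₂ * (3 * lam ^ (1 / 10 : ℝ) * (1 - ‖y‖)) :=
              mul_le_mul_of_nonneg_left e6 (by linarith)
          _ = _ := by ring
      have h3' : ‖f (Ph lam T.e y) - f y‖ ≤ C₃ * lam ^ (1 / 10 : ℝ) :=
        h3.trans (mul_le_mul_of_nonneg_left e2 (by linarith))
      calc ‖f (Ph lam T.e y) - B‖ = ‖(f (Ph lam T.e y) - f y) - (f ((1 - S) • y) - f y) -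
            (B - f ((1 - S) • y))‖ := by congr 1; abel
        _ ≤ ‖f (Ph lam T.e y) - f y‖ + ‖f ((1 - S) • y) - f y‖ + ‖B - f ((1 - S) • y)‖ :=
            (norm_sub_le _ _).trans (add_le_add_left (norm_sub_le _ _) _)
        _ ≤ C₃ * lam ^ (1 / 10 : ℝ) + 3 * C₂ * lam ^ (1 / 10 : ℝ) + C₁ * (4 * lam ^ (1 / 10 : ℝ)) :=
            add_le_add (add_le_add h3' h2') h1'
        _ = _ := by ring
    have hB' : c0 lam T.e y * ‖f (Ph lam T.e y) - B‖ ≤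
        c0 lam T.e y * ((4 * C₁ + 3 * C₂ + C₃) * lam ^ (1 / 10 : ℝ)) := by
      rcases hc0.lt_or_eq with h | h
      · exact mul_le_mul_of_nonneg_left (hB h) hc0
      · rw [← h, zero_mul, zero_mul]
    calc ‖f (Ph lam T.e y) - ((1 - c0 lam T.e y) • A + c0 lam T.e y • B)‖
        = ‖(1 - c0 lam T.e y) • (f (Ph lam T.e y) - A) + c0 lam T.e y • (f (Ph lam T.e y) - B)‖ := by
          congr 1
          module
      _ ≤ (1 - c0 lam T.e y) * ‖f (Ph lam T.e y) - A‖ + c0 lam T.e y * ‖f (Ph lam T.e y) - B‖ := by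
          refine (norm_add_le _ _).trans (le_of_eq ?_)
          rw [norm_smul, norm_smul, Real.norm_eq_abs, Real.norm_eq_abs, abs_of_nonneg hc0,
            abs_of_nonneg (by linarith)]
      _ ≤ 1 * (64 * lam ^ (1 / 10 : ℝ)) + 1 * ((4 * C₁ + 3 * C₂ + C₃) * lam ^ (1 / 10 : ℝ)) := by
          refine add_le_add (mul_le_mul (by linarith) hA (norm_nonneg _) zero_le_one)
            (hB'.trans (mul_le_mul_of_nonneg_right hc1 ?_))
          have : 0 ≤ 4 * C₁ + 3 * C₂ + C₃ := by linarith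
          positivity
      _ = _ := by ring

end Pool.Agent.MPca0fc2.EQ
end

section

/-! Campaign EQ, B7s: the solution on the ball, with the same constant. -/

set_option autoImplicit false

open Metric Set Filter Topology

namespace Pool.Agent.MPca0fc2.EQ

open Pool.Agent.MPca0fc2.TB (En Solv IsSol)

variable {n N : ℕ}

private theorem B7s_al {j : ℕ} (hj : 1 ≤ j) : 1 / 2 ≤ al j ∧ al j ≤ 1 := by
  have h1 : (0 : ℝ) < (1 / 2) ^ j := by positivity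
  have h2 : (1 / 2 : ℝ) ^ j ≤ (1 / 2) ^ 1 := pow_le_pow_of_le_one (by norm_num) (by norm_num) hj
  unfold al
  constructor <;> linarith

private theorem B7s_norm {j : ℕ} (hj : 1 ≤ j) {z : En n} (hz : ‖z‖ < be j) :
    15 / 16 * (1 / 2 : ℝ) ^ j ≤ 1 - ‖al j • z‖ := by
  have h0 := B7s_al hj
  have h1 : (0 : ℝ) < (1 / 2) ^ j := by positivity
  rw [norm_smul, Real.norm_eq_abs, abs_of_nonneg (by linarith [h0.1])]
  have h2 : al j * ‖z‖ ≤ al j * be j := mul_le_mul_of_nonneg_left hz.le (by linarith [h0.1])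
  have h3 : al j * be j = 1 - 15 / 16 * (1 / 2) ^ j - ((1 / 2 : ℝ) ^ j) ^ 2 / 16 := by
    unfold al be
    ring
  rw [h3] at h2
  have h4 : 0 ≤ ((1 / 2 : ℝ) ^ j) ^ 2 / 16 := by positivity
  linarith

private theorem B7s_cs (a b : En N) : ‖∑ j, a j * b j‖ ≤ ‖a‖ * ‖b‖ := by
  rw [EuclideanSpace.norm_eq, EuclideanSpace.norm_eq]
  refine (norm_sum_le _ _).trans ?_
  refine le_trans (le_of_eq ?_) (Real.sum_mul_le_sqrt_mul_sqrt _ (fun j => ‖a j‖) (fun j => ‖b j‖))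
  exact Finset.sum_congr rfl fun j _ => norm_mul _ _

private theorem B7s_tend {β : ℝ} (hβ : 0 < β) (C : ℝ) {ε : ℝ} (hε : 0 < ε) :
    ∀ᶠ lam in 𝓝[>] (0 : ℝ), C * lam ^ β < ε := by
  have h1 : Tendsto (fun x : ℝ => C * x ^ β) (𝓝[>] (0 : ℝ)) (𝓝 (C * 0 ^ β)) :=
    (((Real.continuous_rpow_const hβ.le).tendsto 0).const_mul C).mono_left nhdsWithin_le_nhds
  rw [Real.zero_rpow hβ.ne', mul_zero] at h1
  exact h1.eventually (gt_mem_nhds hε)

/-- The solutions on the ball for the transplanted function, WITH THE SAME CONSTANT: if the corona problem on the ball is solvable with the bound `A` for the lower bound `δ' < δ`, then the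
transplanted data are solvable up to `ε` with the same bound `A`. -/
theorem ball_sol_sharp (T : Tg n) (Cs : ℝ) {N : ℕ} {A δ' : ℝ} (hA0 : 0 ≤ A) (hδ'0 : 0 < δ')
    (hQ : ∀ f : En n → En N, DifferentiableOn ℂ f (ball 0 1) → (∀ z ∈ ball (0 : En n) 1, δ' ≤ ‖f z‖ ∧ ‖f z‖ ≤ 1) →
      Solv f (ball 0 1) A) {δ : ℝ} (hδ : δ' < δ) {ε : ℝ} (hε : 0 < ε) {s : ℝ} (hs : 0 < s) :
    ∀ᶠ lam in 𝓝[>] (0 : ℝ), ∀ (sh : ℕ → ℝ) (Sy : Sys T Cs lam sh) (f : En n → En N) (K : ℕ), Dat T s f →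
      (∀ z ∈ T.D ∩ ball T.e s, δ ≤ ‖f z‖) → ∃ H : En n → En N, DifferentiableOn ℂ H (ball 0 1) ∧ (∀ w ∈ ball (0 : En n) 1, ‖H w‖ ≤ A) ∧
        ∀ w ∈ ball (0 : En n) 1, ‖∑ j, FB T lam sh Sy.nx f K w w j * H w j - 1‖ ≤ ε := by
  obtain ⟨TB', hTe, -, hTD, hTg, hTpd⟩ := exists_ball T.e T.he
  obtain ⟨C₁, hC₁, hla⟩ := la TB' N
  obtain ⟨C₂, hC₂, hst⟩ := fb_start T Cs N
  obtain ⟨C₃, hC₃, hrl⟩ := fb_rl T Cs N
  obtain ⟨C₄, hC₄, hlb⟩ := fb_lb T Cs N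
  have hg : 0 < δ - δ' := by linarith
  have hε₁ : 0 < min (min 1 ((δ - δ') / (2 * (1 + δ')))) (ε / (A + 1)) :=
    lt_min (lt_min one_pos (by positivity)) (div_pos hε (by linarith))
  set ε₁ := min (min 1 ((δ - δ') / (2 * (1 + δ')))) (ε / (A + 1)) with hε₁def
  filter_upwards [hst s hs, hrl s hs, hlb s hs, fb_cont T Cs (N := N) hs, fb_bd T Cs (N := N) hs,
    fb_nh T Cs (N := N) C₁ hs,
    ev_lt (a := 1 / 2) (by norm_num), B7s_tend (β := 1 / 10) (by norm_num) (N * C₂) (ε := ε₁ / 2) (by linarith),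
    B7s_tend (β := 23 / 10000) (by norm_num) (N * (C₁ * (C₃ + 1))) (ε := ε₁ / 2) (by linarith),
    B7s_tend (β := 1 / 10) (by norm_num) C₄ (ε := (δ - δ') / 2) (by linarith)] with lam hst hrl hlb hcont hbd hnh
    hlam hsm1 hsm2 hsm3
  obtain ⟨hl0, hl1⟩ := hlam
  intro sh Sy f K hf hfδ
  have hx0 : 0 < lam ^ (23 / 10 : ℝ) := Real.rpow_pos_of_pos hl0 _
  have hx1 : lam ^ (23 / 10 : ℝ) ≤ 1 / 2 := by
    calc lam ^ (23 / 10 : ℝ) ≤ lam ^ (1 : ℝ) :=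
          Real.rpow_le_rpow_of_exponent_ge hl0 (by linarith) (by norm_num)
      _ = lam := Real.rpow_one _
      _ ≤ 1 / 2 := hl1.le
  obtain ⟨j, hj1, hj2⟩ := exists_nat_pow_near_of_lt_one hx0 (by linarith : lam ^ (23 / 10 : ℝ) ≤ 1)
    (by norm_num : (0 : ℝ) < 1 / 2) (by norm_num)
  have hj2' : lam ^ (23 / 10 : ℝ) ≤ 2 * (1 / 2 : ℝ) ^ (j + 1) := by
    rw [pow_succ]
    linarith
  obtain ⟨hst1, hst2⟩ := hst sh Sy f K (j + 1) hf (by omega) hj1.le hj2'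
  obtain ⟨Fs, hFs, hFs'⟩ := hla (j + 1) (fun w => FB T lam sh Sy.nx f K w w) 1 C₃
    (C₂ * lam ^ (1 / 10 : ℝ)) (by omega) zero_le_one (by linarith) (by positivity)
    (by rw [hTD]; exact hcont sh Sy f K hf)
    (by rw [hTD]; exact hbd sh Sy f K hf)
    (by
      intro w hw h h0 h1
      rw [hTD] at hw
      rw [hTg]
      exact hrl sh Sy f K hf w hw h h0 h1)
    (by
      intro i hi v hv1 hv2
      rw [hTg] at hv1 hv2
      have hd0 : (0 : ℝ) < (1 / 2) ^ i := by positivity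
      have hd1 : (1 / 2 : ℝ) ^ i ≤ lam ^ (11 / 5 : ℝ) := by
        calc (1 / 2 : ℝ) ^ i ≤ (1 / 2) ^ (j + 1) :=
              pow_le_pow_of_le_one (by norm_num) (by norm_num) hi
          _ ≤ lam ^ (23 / 10 : ℝ) := hj1.le
          _ ≤ lam ^ (11 / 5 : ℝ) :=
              Real.rpow_le_rpow_of_exponent_ge hl0 (by linarith) (by norm_num)
      obtain ⟨G, hG1, hG2⟩ := hnh sh Sy f K hf _ v hd0 hd1 hv1 hv2
      refine ⟨G, 1, hG1.mono ?_, ?_⟩
      · intro y hy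
        obtain ⟨a1, a2, a3, a4⟩ := hy
        rw [hTg] at a1 a2
        rw [hTpd] at a4
        exact ⟨a1, a2, a3, a4⟩
      · intro y hy
        obtain ⟨a1, a2, a3, a4⟩ := hy
        rw [hTg] at a1 a2
        rw [hTpd] at a4
        exact hG2 y a1 a2 a3 a4)
    (by
      refine ⟨fun z => f (Ph lam T.e (al (j + 1) • z)), ?_, ?_⟩
      · refine hst1.mono ?_
        intro z hz
        rw [mem_ofPred_eq, hTg] at hz
        exact hz
      · intro z hz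
        rw [hTg] at hz
        exact hst2 z hz)
  rw [hTD] at hFs hFs'
  have hpw : ((1 / 2 : ℝ) ^ (j + 1)) ^ (1 / 1000 : ℝ) ≤ lam ^ (23 / 10000 : ℝ) := by
    calc ((1 / 2 : ℝ) ^ (j + 1)) ^ (1 / 1000 : ℝ) ≤ (lam ^ (23 / 10 : ℝ)) ^ (1 / 1000 : ℝ) :=
          Real.rpow_le_rpow (by positivity) hj1.le (by norm_num)
      _ = lam ^ (23 / 10000 : ℝ) := by
          rw [← Real.rpow_mul hl0.le]
          norm_num
  have hN0 : (0 : ℝ) ≤ N := Nat.cast_nonneg N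
  have hclose : ∀ w ∈ ball (0 : En n) 1, ‖FB T lam sh Sy.nx f K w w - Fs w‖ ≤ ε₁ := by
    intro w hw
    refine (hFs' w hw).trans ?_
    have e1 : C₁ * (C₃ + 1) * ((1 / 2 : ℝ) ^ (j + 1)) ^ (1 / 1000 : ℝ) ≤
        C₁ * (C₃ + 1) * lam ^ (23 / 10000 : ℝ) :=
      mul_le_mul_of_nonneg_left hpw (by nlinarith)
    calc (N : ℝ) * (C₂ * lam ^ (1 / 10 : ℝ) + C₁ * (C₃ + 1) * ((1 / 2 : ℝ) ^ (j + 1)) ^ (1 / 1000 : ℝ))
        ≤ (N : ℝ) * (C₂ * lam ^ (1 / 10 : ℝ) + C₁ * (C₃ + 1) * lam ^ (23 / 10000 : ℝ)) :=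
          mul_le_mul_of_nonneg_left (by linarith) hN0
      _ = N * C₂ * lam ^ (1 / 10 : ℝ) + N * (C₁ * (C₃ + 1)) * lam ^ (23 / 10000 : ℝ) := by ring
      _ ≤ ε₁ := by linarith
  have hε₁1 : ε₁ ≤ 1 := (min_le_left _ _).trans (min_le_left _ _)
  have hε₁2 : ε₁ * (1 + δ') ≤ (δ - δ') / 2 := by
    have h1 : ε₁ ≤ (δ - δ') / (2 * (1 + δ')) := (min_le_left _ _).trans (min_le_right _ _)
    rw [le_div_iff₀ (by positivity)] at h1
    linarith
  have hε₁3 : ε₁ * A ≤ ε := by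
    have : ε₁ ≤ ε / (A + 1) := min_le_right _ _
    rw [le_div_iff₀ (by linarith)] at this
    nlinarith
  have he1 : (0 : ℝ) < 1 + ε₁ := by linarith
  have hnrm : ∀ x : En N, ‖(((1 + ε₁ : ℝ) : ℂ)⁻¹) • x‖ = ‖x‖ / (1 + ε₁) := by
    intro x
    rw [norm_smul, norm_inv, Complex.norm_real, Real.norm_eq_abs, abs_of_pos he1]
    ring
  obtain ⟨h, hh1, hh2, hh3⟩ := hQ (fun w => (((1 + ε₁ : ℝ) : ℂ)⁻¹) • Fs w)
    (hFs.const_smul (((1 + ε₁ : ℝ) : ℂ)⁻¹)) (by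
    intro w hw
    have a1 := hclose w hw
    have a2 := hbd sh Sy f K hf w hw
    obtain ⟨x, hx, hx'⟩ := hlb sh Sy f K hf w hw
    have a3 := hfδ x hx
    have a4 : ‖Fs w‖ ≤ ‖FB T lam sh Sy.nx f K w w‖ + ‖FB T lam sh Sy.nx f K w w - Fs w‖ := by
      have := norm_sub_le (FB T lam sh Sy.nx f K w w) (FB T lam sh Sy.nx f K w w - Fs w)
      rwa [sub_sub_cancel] at this
    have a5 : ‖f x‖ ≤ ‖Fs w‖ + ‖FB T lam sh Sy.nx f K w w - Fs w‖ +
        ‖FB T lam sh Sy.nx f K w w - f x‖ := by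
      have e : f x = Fs w + (FB T lam sh Sy.nx f K w w - Fs w) - (FB T lam sh Sy.nx f K w w - f x) := by
        abel
      calc ‖f x‖ = ‖Fs w + (FB T lam sh Sy.nx f K w w - Fs w) - (FB T lam sh Sy.nx f K w w - f x)‖ := by
            rw [← e]
        _ ≤ _ := (norm_sub_le _ _).trans (add_le_add_left (norm_add_le _ _) _)
    simp only [hnrm]
    constructor
    · rw [le_div_iff₀ he1]
      linarith
    · rw [div_le_one he1]
      linarith)
  refine ⟨fun w => (((1 + ε₁ : ℝ) : ℂ)⁻¹) • h w, hh1.const_smul (((1 + ε₁ : ℝ) : ℂ)⁻¹), ?_, ?_⟩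
  · intro w hw
    have a1 := hh2 w hw
    simp only [hnrm]
    rw [div_le_iff₀ he1]
    nlinarith
  · intro w hw
    have a1 := hh2 w hw
    have a2 := hh3 w hw
    have a3 := hclose w hw
    have a4 : ∑ j, FB T lam sh Sy.nx f K w w j * ((((1 + ε₁ : ℝ) : ℂ)⁻¹) • h w) j - 1 =
        ∑ j, (FB T lam sh Sy.nx f K w w - Fs w) j * ((((1 + ε₁ : ℝ) : ℂ)⁻¹) • h w) j := by
      have a5 : ∑ j, Fs w j * ((((1 + ε₁ : ℝ) : ℂ)⁻¹) • h w) j = 1 := by
        refine Eq.trans (Finset.sum_congr rfl fun j _ => ?_) a2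
        simp only [PiLp.smul_apply, smul_eq_mul]
        ring
      calc ∑ j, FB T lam sh Sy.nx f K w w j * ((((1 + ε₁ : ℝ) : ℂ)⁻¹) • h w) j - 1
          = ∑ j, FB T lam sh Sy.nx f K w w j * ((((1 + ε₁ : ℝ) : ℂ)⁻¹) • h w) j -
              ∑ j, Fs w j * ((((1 + ε₁ : ℝ) : ℂ)⁻¹) • h w) j := by rw [a5]
        _ = _ := by
          rw [← Finset.sum_sub_distrib]
          refine Finset.sum_congr rfl fun j _ => ?_
          simp only [PiLp.sub_apply]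
          ring
    rw [a4]
    refine (B7s_cs _ _).trans ?_
    rw [hnrm]
    have hle : ‖h w‖ / (1 + ε₁) ≤ A := by
      rw [div_le_iff₀ he1]
      nlinarith
    calc ‖FB T lam sh Sy.nx f K w w - Fs w‖ * (‖h w‖ / (1 + ε₁)) ≤ ε₁ * A :=
          mul_le_mul a3 hle (by positivity) hε₁.le
      _ ≤ ε := hε₁3

end Pool.Agent.MPca0fc2.EQ
end
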