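import Pool.Agent.Lib.MP_ca0fc2_an.Mg.G082

section

/-! Campaign EQ, task L2: extension of a defining function which osculates the ball. -/

set_option autoImplicit false

open Metric Set Filter Topology

namespace Pool.Agent.MPca0fc2.EQ

open Pool.Agent.MPca0fc2
open Pool.Agent.MPca0fc2.TB (En)

section
variable {E : Type*} [NormedAddCommGroup E] [NormedSpace ℝ E]

private theorem L2_lip {g : E → ℝ} {e : E} (h : ContDiffAt ℝ 3 g e) :
    ∃ s > 0, ∃ M : ℝ, 0 ≤ M ∧ (∀ y ∈ ball e s, ContDiffAt ℝ 3 g y) ∧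
      ∀ y ∈ ball e s, ‖fderiv ℝ (fderiv ℝ g) y - fderiv ℝ (fderiv ℝ g) e‖ ≤ M * ‖y - e‖ := by
  have h1 : ContDiffAt ℝ 2 (fderiv ℝ g) e := h.fderiv_right (by norm_num)
  have h2 : ContDiffAt ℝ 1 (fderiv ℝ (fderiv ℝ g)) e := h1.fderiv_right (by norm_num)
  obtain ⟨K, t, ht, hK⟩ := h2.exists_lipschitzOnWith
  have h3 : ∀ᶠ y in 𝓝 e, ContDiffAt ℝ 3 g y := h.eventually (by simp)
  obtain ⟨s, hs, hst⟩ := Metric.mem_nhds_iff.1 (Filter.inter_mem ht h3)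
  refine ⟨s, hs, K, K.2, fun y hy => (hst hy).2, fun y hy => ?_⟩
  have h4 := hK.dist_le_mul y (hst hy).1 e (hst (mem_ball_self hs)).1
  rwa [dist_eq_norm, dist_eq_norm] at h4

private theorem L2_d1 {g : E → ℝ} {e : E} {s M : ℝ} (h0 : 0 ≤ M) (h1 : ∀ y ∈ ball e s, ContDiffAt ℝ 3 g y)
    (h2 : ∀ y ∈ ball e s, ‖fderiv ℝ (fderiv ℝ g) y - fderiv ℝ (fderiv ℝ g) e‖ ≤ M * ‖y - e‖) (y : E)
    (hy : y ∈ ball e s) :
    ‖fderiv ℝ g y - fderiv ℝ g e - fderiv ℝ (fderiv ℝ g) e (y - e)‖ ≤ M * ‖y - e‖ ^ 2 := by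
  have hsub : ∀ z ∈ closedBall e ‖y - e‖, z ∈ ball e s := by
    intro z hz
    rw [mem_closedBall] at hz
    rw [mem_ball, dist_eq_norm] at hy
    rw [mem_ball]
    linarith
  have h3 := Convex.norm_image_sub_le_of_norm_fderiv_le' (𝕜 := ℝ) (f := fderiv ℝ g)
    (s := closedBall e ‖y - e‖) (φ := fderiv ℝ (fderiv ℝ g) e) (C := M * ‖y - e‖) (x := e) (y := y)
    (fun z hz => ((h1 z (hsub z hz)).fderiv_right (m := 1) (by norm_num)).differentiableAt (by norm_num))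
    (fun z hz => by
      refine (h2 z (hsub z hz)).trans ?_
      rw [mem_closedBall, dist_eq_norm] at hz
      exact mul_le_mul_of_nonneg_left hz h0)
    (convex_closedBall _ _) (mem_closedBall_self (norm_nonneg _))
    (by rw [mem_closedBall, dist_eq_norm])
  calc _ ≤ M * ‖y - e‖ * ‖y - e‖ := h3
    _ = M * ‖y - e‖ ^ 2 := by ring

private theorem L2_taylor {g : E → ℝ} {e : E} {s M : ℝ} (h0 : 0 ≤ M) (hs : 0 < s)
    (h1 : ∀ y ∈ ball e s, ContDiffAt ℝ 3 g y)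
    (h2 : ∀ y ∈ ball e s, ‖fderiv ℝ (fderiv ℝ g) y - fderiv ℝ (fderiv ℝ g) e‖ ≤ M * ‖y - e‖) (y : E)
    (hy : y ∈ ball e s) :
    |g y - g e - fderiv ℝ g e (y - e) - fderiv ℝ (fderiv ℝ g) e (y - e) (y - e) / 2| ≤ M * ‖y - e‖ ^ 3 := by
  have hsub : ∀ z ∈ closedBall e ‖y - e‖, z ∈ ball e s := by
    intro z hz
    rw [mem_closedBall] at hz
    rw [mem_ball, dist_eq_norm] at hy
    rw [mem_ball]
    linarith
  have hsym : ∀ u v, fderiv ℝ (fderiv ℝ g) e u v = fderiv ℝ (fderiv ℝ g) e v u :=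
    fun u v => ((h1 e (mem_ball_self hs)).isSymmSndFDerivAt
      (by simp only [minSmoothness_of_isRCLikeNormedField]; norm_num)).eq u v
  obtain ⟨B, hB⟩ : ∃ B, B = fderiv ℝ (fderiv ℝ g) e := ⟨_, rfl⟩
  have hd : ∀ z ∈ ball e s, HasFDerivAt
      (fun z => g z - fderiv ℝ g e (z - e) - B (z - e) (z - e) / 2)
      (fderiv ℝ g z - fderiv ℝ g e - B (z - e)) z := by
    intro z hz
    have e1 : HasFDerivAt g (fderiv ℝ g z) z :=
      ((h1 z hz).differentiableAt (by norm_num)).hasFDerivAt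
    have e2 : HasFDerivAt (fun z : E => z - e) (ContinuousLinearMap.id ℝ E) z :=
      (hasFDerivAt_id z).sub_const e
    have e3 : HasFDerivAt (fun z => fderiv ℝ g e (z - e)) (fderiv ℝ g e) z :=
      ((fderiv ℝ g e).hasFDerivAt.comp z e2).congr_fderiv (by ext v; simp)
    have e4 := (B.hasFDerivAt_of_bilinear e2 e2).const_mul (1 / 2 : ℝ)
    have e5 := (e1.sub e3).sub e4
    refine (e5.congr_fderiv ?_).congr_of_eventuallyEq ?_
    · ext v
      have h5 := hsym v (z - e)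
      rw [← hB] at h5
      simp only [map_sub, sub_apply] at h5
      simp
      linarith
    · filter_upwards with w
      simp
      ring
  have h3 := Convex.norm_image_sub_le_of_norm_hasFDerivWithin_le (𝕜 := ℝ)
    (f := fun z => g z - fderiv ℝ g e (z - e) - B (z - e) (z - e) / 2)
    (f' := fun z => fderiv ℝ g z - fderiv ℝ g e - B (z - e))
    (s := closedBall e ‖y - e‖) (C := M * ‖y - e‖ ^ 2) (x := e) (y := y)
    (fun z hz => (hd z (hsub z hz)).hasFDerivWithinAt)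
    (fun z hz => by
      have h4 := L2_d1 h0 h1 h2 z (hsub z hz)
      rw [← hB] at h4
      refine h4.trans ?_
      rw [mem_closedBall, dist_eq_norm] at hz
      gcongr)
    (convex_closedBall _ _) (mem_closedBall_self (norm_nonneg _))
    (by rw [mem_closedBall, dist_eq_norm])
  rw [Real.norm_eq_abs] at h3
  simp only [sub_self, map_zero, zero_div, sub_zero] at h3
  rw [← hB]
  calc _ = |g y - fderiv ℝ g e (y - e) - B (y - e) (y - e) / 2 - g e| := by congr 1; ring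
    _ ≤ M * ‖y - e‖ ^ 2 * ‖y - e‖ := h3
    _ = M * ‖y - e‖ ^ 3 := by ring


private theorem L2_poly {a b K δ : ℝ} (hδ : 0 < δ)
    (h : ∀ t, 0 < t → t < δ → |a * t + b * t ^ 2| ≤ K * t ^ 3) : a = 0 ∧ b = 0 := by
  have hev : ∀ᶠ t : ℝ in 𝓝[>] 0, 0 < t ∧ t < δ := by
    filter_upwards [Ioo_mem_nhdsGT hδ] with t ht using ht
  have ha : a = 0 := by
    have h1 : Tendsto (fun t : ℝ => |b| * t + K * t ^ 2) (𝓝[>] 0) (𝓝 0) := by
      have : Tendsto (fun t : ℝ => |b| * t + K * t ^ 2) (𝓝 0) (𝓝 (|b| * 0 + K * 0 ^ 2)) :=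
        Continuous.tendsto (by fun_prop) 0
      simp only [mul_zero, ne_eq, OfNat.ofNat_ne_zero, not_false_eq_true, zero_pow, add_zero] at this
      exact this.mono_left nhdsWithin_le_nhds
    have h2 : |a| ≤ 0 := by
      refine ge_of_tendsto h1 ?_
      filter_upwards [hev] with t ht
      have h3 := h t ht.1 ht.2
      have h4 : |a * t| ≤ |a * t + b * t ^ 2| + |b * t ^ 2| := by
        calc |a * t| = |(a * t + b * t ^ 2) - b * t ^ 2| := by congr 1; ring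
          _ ≤ _ := abs_sub _ _
      rw [abs_mul, abs_of_pos ht.1] at h4
      have h5 : |b * t ^ 2| = |b| * t ^ 2 := by
        rw [abs_mul, abs_of_nonneg (sq_nonneg t)]
      rw [h5] at h4
      have h6 : |a| * t ≤ (|b| * t + K * t ^ 2) * t := by
        calc |a| * t ≤ K * t ^ 3 + |b| * t ^ 2 := by linarith
          _ = _ := by ring
      exact le_of_mul_le_mul_right h6 ht.1
    exact abs_nonpos_iff.1 h2
  refine ⟨ha, ?_⟩
  have h1 : Tendsto (fun t : ℝ => K * t) (𝓝[>] 0) (𝓝 0) := by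
    have : Tendsto (fun t : ℝ => K * t) (𝓝 0) (𝓝 (K * 0)) := Continuous.tendsto (by fun_prop) 0
    rw [mul_zero] at this
    exact this.mono_left nhdsWithin_le_nhds
  have h2 : |b| ≤ 0 := by
    refine ge_of_tendsto h1 ?_
    filter_upwards [hev] with t ht
    have h3 := h t ht.1 ht.2
    rw [ha, zero_mul, zero_add, abs_mul, abs_of_nonneg (sq_nonneg t)] at h3
    have h6 : |b| * t ^ 2 ≤ K * t * t ^ 2 := by
      calc |b| * t ^ 2 ≤ K * t ^ 3 := h3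
        _ = _ := by ring
    exact le_of_mul_le_mul_right h6 (pow_pos ht.1 2)
  exact abs_nonpos_iff.1 h2

private theorem L2_jets {g : E → ℝ} {e : E} {s C : ℝ} (hs : 0 < s) (hg : ContDiffOn ℝ 3 g (ball e s))
    (hC : ∀ y ∈ ball e s, |g y| ≤ C * ‖y - e‖ ^ 3) :
    ∃ s' > 0, s' ≤ s ∧ ∃ M : ℝ, 0 ≤ M ∧ ∀ y ∈ ball e s', |g y| ≤ M * ‖y - e‖ ^ 3 ∧
      ‖fderiv ℝ g y‖ ≤ M * ‖y - e‖ ^ 2 ∧ ‖fderiv ℝ (fderiv ℝ g) y‖ ≤ M * ‖y - e‖ := by
  obtain ⟨s₁, hs₁, M, hM, h1, h2⟩ := L2_lip (hg.contDiffAt (ball_mem_nhds e hs))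
  have ht := L2_taylor hM hs₁ h1 h2
  have hd := L2_d1 hM h1 h2
  have g0 : g e = 0 := by
    have := hC e (mem_ball_self hs)
    simpa using this
  have hsym : ∀ u v, fderiv ℝ (fderiv ℝ g) e u v = fderiv ℝ (fderiv ℝ g) e v u :=
    fun u v => ((h1 e (mem_ball_self hs₁)).isSymmSndFDerivAt
      (by simp only [minSmoothness_of_isRCLikeNormedField]; norm_num)).eq u v
  have key : ∀ v, fderiv ℝ g e v = 0 ∧ fderiv ℝ (fderiv ℝ g) e v v / 2 = 0 := by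
    intro v
    have hv : 0 < ‖v‖ + 1 := by positivity
    refine L2_poly (δ := min s s₁ / (‖v‖ + 1)) (K := (C + M) * ‖v‖ ^ 3)
      (div_pos (lt_min hs hs₁) hv) ?_
    intro t ht0 htδ
    rw [lt_div_iff₀ hv] at htδ
    have hn : ‖t • v‖ = t * ‖v‖ := by rw [norm_smul, Real.norm_eq_abs, abs_of_pos ht0]
    have h3 : ‖t • v‖ < min s s₁ := by
      rw [hn]
      nlinarith
    have h4 : e + t • v ∈ ball e s := by
      rw [mem_ball, dist_eq_norm, add_sub_cancel_left]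
      exact h3.trans_le (min_le_left _ _)
    have h5 : e + t • v ∈ ball e s₁ := by
      rw [mem_ball, dist_eq_norm, add_sub_cancel_left]
      exact h3.trans_le (min_le_right _ _)
    have h6 := hC _ h4
    have h7 := ht _ h5
    rw [add_sub_cancel_left] at h6 h7
    rw [g0, sub_zero] at h7
    simp only [map_smul, smul_apply, smul_eq_mul] at h7
    rw [hn] at h6 h7
    have h8 : |fderiv ℝ g e v * t + fderiv ℝ (fderiv ℝ g) e v v / 2 * t ^ 2| ≤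
        |g (e + t • v)| + |g (e + t • v) - t * fderiv ℝ g e v -
          t * (t * fderiv ℝ (fderiv ℝ g) e v v) / 2| := by
      calc _ = |g (e + t • v) - (g (e + t • v) - t * fderiv ℝ g e v -
          t * (t * fderiv ℝ (fderiv ℝ g) e v v) / 2)| := by congr 1; ring
        _ ≤ _ := abs_sub _ _
    calc _ ≤ C * (t * ‖v‖) ^ 3 + M * (t * ‖v‖) ^ 3 := by linarith
      _ = _ := by ring
  have hD : fderiv ℝ g e = 0 := by
    ext v
    exact (key v).1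
  have hD2 : fderiv ℝ (fderiv ℝ g) e = 0 := by
    ext u v
    have a1 := (key (u + v)).2
    have a2 := (key u).2
    have a3 := (key v).2
    have a4 := hsym u v
    simp only [map_add, add_apply] at a1
    simp only [zero_apply]
    linarith
  refine ⟨min s₁ s, lt_min hs₁ hs, min_le_right _ _, M, hM, fun y hy => ?_⟩
  have hy1 : y ∈ ball e s₁ := ball_subset_ball (min_le_left _ _) hy
  refine ⟨?_, ?_, ?_⟩
  · have := ht y hy1
    rw [g0, hD, hD2] at this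
    simpa using this
  · have := hd y hy1
    rw [hD, hD2] at this
    simpa using this
  · have := h2 y hy1
    rwa [hD2, sub_zero] at this

private theorem L2_ns (r : ℝ) (L : E →L[ℝ] E →L[ℝ] ℝ) : ‖r • L‖ ≤ |r| * ‖L‖ := by
  rw [← Real.norm_eq_abs]
  exact ContinuousLinearMap.opNorm_smul_le r L

private theorem L2_z : ‖(0 : E →L[ℝ] E →L[ℝ] ℝ)‖ = 0 := ContinuousLinearMap.opNorm_zero

private theorem L2_add (L M : E →L[ℝ] E →L[ℝ] ℝ) : ‖L + M‖ ≤ ‖L‖ + ‖M‖ := norm_add_le L M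

private theorem L2_dd (y : E) : fderiv ℝ (fderiv ℝ (fun _ : E => (0 : ℝ))) y = 0 := by
  have h : fderiv ℝ (fun _ : E => (0 : ℝ)) = fun _ => 0 := by
    funext z
    exact (hasFDerivAt_const (0 : ℝ) z).fderiv
  rw [h]
  exact (hasFDerivAt_const (0 : E →L[ℝ] ℝ) y).fderiv

private theorem L2_abs [ProperSpace E] {W : Type*} [NormedAddCommGroup W] [NormedSpace ℝ W] {f : E → W}
    (hf : ContDiff ℝ 1 f) {e : E} {R : ℝ} (h0 : ∀ y, R < ‖y - e‖ → f y = 0) :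
    ∃ L : ℝ, 0 ≤ L ∧ ∀ x y, ‖f x - f y‖ ≤ L * ‖x - y‖ := by
  have hs : HasCompactSupport f := by
    refine HasCompactSupport.intro (isCompact_closedBall e R) ?_
    intro y hy
    rw [Metric.mem_closedBall, dist_eq_norm, not_le] at hy
    exact h0 y hy
  obtain ⟨L, hL⟩ := hf.lipschitzWith_of_hasCompactSupport hs (by norm_num)
  refine ⟨L, L.2, fun x y => ?_⟩
  have h4 := hL.dist_le_mul x y
  rwa [dist_eq_norm, dist_eq_norm] at h4

private theorem L2_lip2 [ProperSpace E] {G : E → ℝ} {e : E} {R : ℝ} (G1 : ContDiff ℝ 3 G)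
    (h : ∀ y, R < ‖y - e‖ → G y = 0) : ∃ L : ℝ, 0 ≤ L ∧ ∀ x y,
      ‖fderiv ℝ (fderiv ℝ G) x - fderiv ℝ (fderiv ℝ G) y‖ ≤ L * ‖x - y‖ := by
  have h0 : ∀ y, R < ‖y - e‖ → fderiv ℝ (fderiv ℝ G) y = 0 := by
    intro y hy
    have hopn : IsOpen {z : E | R < ‖z - e‖} := isOpen_lt continuous_const (by fun_prop)
    have h1 : G =ᶠ[𝓝 y] fun _ => 0 := by
      filter_upwards [hopn.mem_nhds hy] with z hz using h z hz
    rw [h1.fderiv.fderiv_eq, L2_dd]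
  have hG1 : ContDiff ℝ 2 (fderiv ℝ G) := G1.fderiv_right (by norm_num)
  have hG2 : ContDiff ℝ 1 (fderiv ℝ (fderiv ℝ G)) := hG1.fderiv_right (by norm_num)
  obtain ⟨L, h1, h2⟩ := L2_abs hG2 h0
  exact ⟨L, h1, fun x y => h2 x y⟩

private theorem L2_G [ProperSpace E] {κ g : E → ℝ} {e : E} {A M s σ : ℝ} (hA : 0 ≤ A) (hM : 0 ≤ M)
    (hκ : ContDiff ℝ 3 κ) (hκ0 : ∀ y, |κ y| ≤ 1) (hκ1 : ∀ y, ‖y‖ ≤ 1 / 2 → κ y = 1)
    (hκ2 : ∀ y, 1 ≤ ‖y‖ → κ y = 0) (hκ3 : ∀ y, ‖fderiv ℝ κ y‖ ≤ A)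
    (hκ4 : ∀ y, ‖fderiv ℝ (fderiv ℝ κ) y‖ ≤ A) (hσ : 0 < σ) (hσs : σ < s)
    (hg : ContDiffOn ℝ 3 g (ball e s))
    (hj : ∀ y ∈ ball e s, |g y| ≤ M * ‖y - e‖ ^ 3 ∧ ‖fderiv ℝ g y‖ ≤ M * ‖y - e‖ ^ 2 ∧
      ‖fderiv ℝ (fderiv ℝ g) y‖ ≤ M * ‖y - e‖) :
    ∃ G : E → ℝ, ContDiff ℝ 3 G ∧ HasCompactSupport G ∧ (∀ y, σ < ‖y - e‖ → G y = 0) ∧
      (∀ y, ‖y - e‖ ≤ σ / 2 → G y = g y) ∧ (∀ y, |G y| ≤ M * ‖y - e‖ ^ 3) ∧
      (∀ y, ‖fderiv ℝ G y‖ ≤ M * (1 + A) * ‖y - e‖ ^ 2) ∧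
      ∀ y, ‖fderiv ℝ (fderiv ℝ G) y‖ ≤ M * (1 + 3 * A) * σ := by
  obtain ⟨K, hK⟩ : ∃ K : E → ℝ, K = fun y => κ (σ⁻¹ • (y - e)) := ⟨_, rfl⟩
  have hKc : ContDiff ℝ 3 K := by
    rw [hK]
    exact hκ.comp ((contDiff_id.sub contDiff_const).const_smul σ⁻¹)
  have hn : ∀ y, ‖σ⁻¹ • (y - e)‖ = ‖y - e‖ / σ := by
    intro y
    rw [norm_smul, Real.norm_eq_abs, abs_of_pos (inv_pos.2 hσ), div_eq_inv_mul]
  have hin : ∀ y, HasFDerivAt (fun y : E => σ⁻¹ • (y - e)) (σ⁻¹ • ContinuousLinearMap.id ℝ E) y :=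
    fun y => ((hasFDerivAt_id y).sub_const e).const_smul σ⁻¹
  have hDK : fderiv ℝ K = fun y => σ⁻¹ • fderiv ℝ κ (σ⁻¹ • (y - e)) := by
    funext y
    rw [hK]
    have h1 : HasFDerivAt κ (fderiv ℝ κ (σ⁻¹ • (y - e))) (σ⁻¹ • (y - e)) :=
      (hκ.differentiable (by norm_num) _).hasFDerivAt
    have h2 := (h1.comp y (hin y)).fderiv
    rw [show (fun y => κ (σ⁻¹ • (y - e))) = κ ∘ (fun y : E => σ⁻¹ • (y - e)) from rfl, h2]
    ext v
    simp
  have hD2K : ∀ y, ‖fderiv ℝ (fderiv ℝ K) y‖ ≤ σ⁻¹ * (A * σ⁻¹) := by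
    intro y
    have h1 : HasFDerivAt (fderiv ℝ κ) (fderiv ℝ (fderiv ℝ κ) (σ⁻¹ • (y - e))) (σ⁻¹ • (y - e)) :=
      ((hκ.fderiv_right (m := 2) (by norm_num)).differentiable (by norm_num) _).hasFDerivAt
    have h2 := ((h1.comp y (hin y)).const_smul σ⁻¹).fderiv
    rw [hDK, show (fun y => σ⁻¹ • fderiv ℝ κ (σ⁻¹ • (y - e))) =
      σ⁻¹ • (fderiv ℝ κ ∘ fun y : E => σ⁻¹ • (y - e)) from rfl, h2]
    refine (L2_ns _ _).trans ?_
    rw [abs_of_pos (inv_pos.2 hσ)]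
    refine mul_le_mul_of_nonneg_left ?_ (inv_pos.2 hσ).le
    refine (ContinuousLinearMap.opNorm_comp_le _ _).trans ?_
    refine mul_le_mul (hκ4 _) ?_ (norm_nonneg _) hA
    rw [norm_smul, Real.norm_eq_abs, abs_of_pos (inv_pos.2 hσ)]
    calc σ⁻¹ * ‖ContinuousLinearMap.id ℝ E‖ ≤ σ⁻¹ * 1 :=
        mul_le_mul_of_nonneg_left ContinuousLinearMap.norm_id_le (inv_pos.2 hσ).le
      _ = σ⁻¹ := mul_one _
  have hDKn : ∀ y, ‖fderiv ℝ K y‖ ≤ σ⁻¹ * A := by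
    intro y
    rw [hDK]
    dsimp only
    rw [norm_smul, Real.norm_eq_abs, abs_of_pos (inv_pos.2 hσ)]
    exact mul_le_mul_of_nonneg_left (hκ3 _) (inv_pos.2 hσ).le
  have hKn : ∀ y, |K y| ≤ 1 := fun y => by rw [hK]; exact hκ0 _
  have hK0 : ∀ y, σ ≤ ‖y - e‖ → K y = 0 := by
    intro y hy
    rw [hK]
    exact hκ2 _ (by rw [hn, le_div_iff₀ hσ, one_mul]; exact hy)
  have hK1 : ∀ y, ‖y - e‖ ≤ σ / 2 → K y = 1 := by
    intro y hy
    rw [hK]
    refine hκ1 _ ?_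
    rw [hn, div_le_iff₀ hσ]
    linarith
  have hopn : IsOpen {z : E | σ < ‖z - e‖} := isOpen_lt continuous_const (by fun_prop)
  have hev : ∀ y, σ < ‖y - e‖ → (fun y => K y * g y) =ᶠ[𝓝 y] fun _ => 0 := by
    intro y hy
    filter_upwards [hopn.mem_nhds hy] with z hz
    rw [hK0 z (le_of_lt hz), zero_mul]
  have hgAt : ∀ y ∈ ball e s, ContDiffAt ℝ 3 g y := fun y hy =>
    hg.contDiffAt (isOpen_ball.mem_nhds hy)
  have hball : ∀ y, ‖y - e‖ ≤ σ → y ∈ ball e s := by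
    intro y hy
    rw [mem_ball, dist_eq_norm]
    linarith
  have hDG : ∀ y ∈ ball e s, fderiv ℝ (fun y => K y * g y) y = K y • fderiv ℝ g y + g y • fderiv ℝ K y := by
    intro y hy
    exact fderiv_fun_mul (hKc.differentiable (by norm_num) y)
      ((hgAt y hy).differentiableAt (by norm_num))
  refine ⟨fun y => K y * g y, ?_, ?_, ?_, ?_, ?_, ?_, ?_⟩
  · rw [contDiff_iff_contDiffAt]
    intro y
    by_cases hy : y ∈ ball e s
    · exact hKc.contDiffAt.mul (hgAt y hy)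
    · refine contDiffAt_const.congr_of_eventuallyEq (hev y ?_)
      rw [mem_ball, dist_eq_norm] at hy
      linarith
  · refine HasCompactSupport.intro (isCompact_closedBall e σ) ?_
    intro y hy
    rw [mem_closedBall, dist_eq_norm, not_le] at hy
    rw [hK0 y hy.le, zero_mul]
  · intro y hy
    dsimp only
    rw [hK0 y hy.le, zero_mul]
  · intro y hy
    dsimp only
    rw [hK1 y hy, one_mul]
  · intro y
    dsimp only
    by_cases hy : ‖y - e‖ ≤ σ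
    · rw [abs_mul]
      calc |K y| * |g y| ≤ 1 * |g y| := mul_le_mul_of_nonneg_right (hKn y) (abs_nonneg _)
        _ ≤ _ := by rw [one_mul]; exact (hj y (hball y hy)).1
    · rw [hK0 y (not_le.1 hy).le, zero_mul, abs_zero]
      positivity
  · intro y
    by_cases hy : ‖y - e‖ ≤ σ
    · obtain ⟨j1, j2, j3⟩ := hj y (hball y hy)
      rw [hDG y (hball y hy)]
      have h1 : ‖K y • fderiv ℝ g y‖ ≤ M * ‖y - e‖ ^ 2 := by
        rw [norm_smul, Real.norm_eq_abs]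
        calc |K y| * ‖fderiv ℝ g y‖ ≤ 1 * ‖fderiv ℝ g y‖ :=
            mul_le_mul_of_nonneg_right (hKn y) (norm_nonneg _)
          _ ≤ _ := by rw [one_mul]; exact j2
      have h2 : ‖g y • fderiv ℝ K y‖ ≤ M * A * ‖y - e‖ ^ 2 := by
        rw [norm_smul, Real.norm_eq_abs]
        calc |g y| * ‖fderiv ℝ K y‖ ≤ (M * ‖y - e‖ ^ 3) * (σ⁻¹ * A) :=
            mul_le_mul j1 (hDKn y) (norm_nonneg _) (by positivity)
          _ = M * A * ‖y - e‖ ^ 2 * (‖y - e‖ / σ) := by field_simp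
          _ ≤ M * A * ‖y - e‖ ^ 2 * 1 := by
            refine mul_le_mul_of_nonneg_left ?_ (by positivity)
            rw [div_le_one hσ]
            exact hy
          _ = _ := mul_one _
      calc _ ≤ ‖K y • fderiv ℝ g y‖ + ‖g y • fderiv ℝ K y‖ := norm_add_le _ _
        _ ≤ M * ‖y - e‖ ^ 2 + M * A * ‖y - e‖ ^ 2 := add_le_add h1 h2
        _ = _ := by ring
    · rw [(hev y (not_le.1 hy)).fderiv_eq]
      simp only [fderiv_fun_const, Pi.zero_apply, norm_zero]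
      positivity
  · intro y
    by_cases hy : ‖y - e‖ ≤ σ
    · obtain ⟨j1, j2, j3⟩ := hj y (hball y hy)
      have hyb := hball y hy
      have h0 : fderiv ℝ (fun y => K y * g y) =ᶠ[𝓝 y]
          fun y => K y • fderiv ℝ g y + g y • fderiv ℝ K y := by
        filter_upwards [isOpen_ball.mem_nhds hyb] with z hz
        exact hDG z hz
      have d1 : DifferentiableAt ℝ K y := hKc.differentiable (by norm_num) y
      have d2 : DifferentiableAt ℝ g y := (hgAt y hyb).differentiableAt (by norm_num)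
      have d3 : DifferentiableAt ℝ (fderiv ℝ K) y :=
        (hKc.fderiv_right (m := 2) (by norm_num)).differentiable (by norm_num) y
      have d4 : DifferentiableAt ℝ (fderiv ℝ g) y :=
        ((hgAt y hyb).fderiv_right (m := 2) (by norm_num)).differentiableAt (by norm_num)
      rw [h0.fderiv_eq, fderiv_fun_add (d1.fun_smul d4) (d2.fun_smul d3), fderiv_fun_smul d1 d4,
        fderiv_fun_smul d2 d3]
      have e1 : ‖K y • fderiv ℝ (fderiv ℝ g) y‖ ≤ M * σ := by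
        refine (L2_ns _ _).trans ?_
        calc |K y| * ‖fderiv ℝ (fderiv ℝ g) y‖ ≤ 1 * (M * ‖y - e‖) :=
            mul_le_mul (hKn y) j3 (norm_nonneg (fderiv ℝ (fderiv ℝ g) y)) zero_le_one
          _ ≤ M * σ := by rw [one_mul]; exact mul_le_mul_of_nonneg_left hy hM
      have e2 : ‖(fderiv ℝ K y).smulRight (fderiv ℝ g y)‖ ≤ M * A * σ := by
        rw [ContinuousLinearMap.norm_smulRight_apply]
        calc ‖fderiv ℝ K y‖ * ‖fderiv ℝ g y‖ ≤ (σ⁻¹ * A) * (M * ‖y - e‖ ^ 2) :=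
            mul_le_mul (hDKn y) j2 (norm_nonneg _) (by positivity)
          _ ≤ (σ⁻¹ * A) * (M * σ ^ 2) := by gcongr
          _ = M * A * σ := by field_simp
      have e3 : ‖g y • fderiv ℝ (fderiv ℝ K) y‖ ≤ M * A * σ := by
        refine (L2_ns _ _).trans ?_
        calc |g y| * ‖fderiv ℝ (fderiv ℝ K) y‖ ≤ (M * ‖y - e‖ ^ 3) * (σ⁻¹ * (A * σ⁻¹)) :=
            mul_le_mul j1 (hD2K y) (norm_nonneg (fderiv ℝ (fderiv ℝ K) y)) (by positivity)
          _ ≤ (M * σ ^ 3) * (σ⁻¹ * (A * σ⁻¹)) := by gcongr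
          _ = M * A * σ := by field_simp
      have e4 : ‖(fderiv ℝ g y).smulRight (fderiv ℝ K y)‖ ≤ M * A * σ := by
        rw [ContinuousLinearMap.norm_smulRight_apply]
        calc ‖fderiv ℝ g y‖ * ‖fderiv ℝ K y‖ ≤ (M * ‖y - e‖ ^ 2) * (σ⁻¹ * A) :=
            mul_le_mul j2 (hDKn y) (norm_nonneg _) (by positivity)
          _ ≤ (M * σ ^ 2) * (σ⁻¹ * A) := by gcongr
          _ = M * A * σ := by field_simp
      calc _ ≤ (‖K y • fderiv ℝ (fderiv ℝ g) y‖ + ‖(fderiv ℝ K y).smulRight (fderiv ℝ g y)‖) +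
            (‖g y • fderiv ℝ (fderiv ℝ K) y‖ + ‖(fderiv ℝ g y).smulRight (fderiv ℝ K y)‖) :=
            (L2_add _ _).trans (add_le_add (L2_add _ _) (L2_add _ _))
        _ ≤ (M * σ + M * A * σ) + (M * A * σ + M * A * σ) :=
            add_le_add (add_le_add e1 e2) (add_le_add e3 e4)
        _ = _ := by ring
    · have h1 : fderiv ℝ (fun y => K y * g y) =ᶠ[𝓝 y] fderiv ℝ (fun _ => 0) :=
        (hev y (not_le.1 hy)).fderiv
      rw [h1.fderiv_eq, L2_dd, L2_z]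
      positivity

end

variable {n : ℕ}

/-- A `C³` function which is `O(|y - e|³)` has a vanishing 2-jet at `e`, with bounds. -/
theorem jets {g : En n → ℝ} {e : En n} {s C : ℝ} (hs : 0 < s) (hg : ContDiffOn ℝ 3 g (ball e s))
    (hC : ∀ y ∈ ball e s, |g y| ≤ C * ‖y - e‖ ^ 3) :
    ∃ s' > 0, s' ≤ s ∧ ∃ M : ℝ, 0 ≤ M ∧ ∀ y ∈ ball e s', |g y| ≤ M * ‖y - e‖ ^ 3 ∧ ‖fderiv ℝ g y‖ ≤ M * ‖y - e‖ ^ 2 ∧
      ‖fderiv ℝ (fderiv ℝ g) y‖ ≤ M * ‖y - e‖ := L2_jets hs hg hC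

private theorem L2_bump (n : ℕ) : ∃ (κ : En n → ℝ) (A : ℝ), 0 ≤ A ∧ ContDiff ℝ 3 κ ∧ (∀ y, |κ y| ≤ 1) ∧
    (∀ y, ‖y‖ ≤ 1 / 2 → κ y = 1) ∧ (∀ y, 1 ≤ ‖y‖ → κ y = 0) ∧ (∀ y, ‖fderiv ℝ κ y‖ ≤ A) ∧
    ∀ y, ‖fderiv ℝ (fderiv ℝ κ) y‖ ≤ A := by
  let b : ContDiffBump (0 : En n) := ⟨1 / 2, 1, by norm_num, by norm_num⟩
  have hb : ContDiff ℝ 3 b := b.contDiff
  have hb1 : ContDiff ℝ 2 (fderiv ℝ b) := hb.fderiv_right (by norm_num)
  have hs1 : HasCompactSupport (fderiv ℝ b) := b.hasCompactSupport.fderiv ℝ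
  obtain ⟨A1, hA1⟩ := hs1.exists_bound_of_continuous hb1.continuous
  obtain ⟨A2, hA2⟩ := hb1.lipschitzWith_of_hasCompactSupport hs1 (by norm_num)
  refine ⟨b, max A1 A2, ?_, hb, ?_, ?_, ?_, ?_, ?_⟩
  · exact (norm_nonneg (fderiv ℝ b 0)).trans ((hA1 0).trans (le_max_left _ _))
  · intro y
    rw [abs_of_nonneg b.nonneg]
    exact b.le_one
  · intro y hy
    exact b.one_of_mem_closedBall (by rw [mem_closedBall, dist_zero_right]; exact hy)
  · intro y hy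
    exact b.zero_of_le_dist (by rw [dist_zero_right]; exact hy)
  · intro y
    exact (hA1 y).trans (le_max_left _ _)
  · intro y
    exact (norm_fderiv_le_of_lipschitz ℝ hA2).trans (le_max_right _ _)

private noncomputable def L2_L (n : ℕ) : En n →L[ℝ] En n →L[ℝ] ℝ :=
  LinearMap.mkContinuous
    { toFun := fun y => (2 : ℝ) • innerSL ℝ y
      map_add' := by
        intro x y
        ext v
        simp only [map_add, smul_add]
      map_smul' := by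
        intro r x
        ext v
        simp
        ring }
    2 (by
      intro y
      simp only [LinearMap.coe_mk, AddHom.coe_mk]
      rw [norm_smul, innerSL_apply_norm]
      simp)

private theorem L2_L_apply {n : ℕ} (y v : En n) : L2_L n y v = 2 * (inner ℂ y v : ℂ).re := by
  have h : (inner ℝ y v : ℝ) = (inner ℂ y v : ℂ).re := by simp [PiLp.inner_apply]
  rw [← h]
  rfl

private theorem L2_L_norm {n : ℕ} (y : En n) : ‖L2_L n y‖ ≤ 2 * ‖y‖ := by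
  show ‖(2 : ℝ) • innerSL ℝ y‖ ≤ _
  rw [norm_smul, innerSL_apply_norm]
  simp

private theorem L2_sq {n : ℕ} (y : En n) : HasFDerivAt (fun y : En n => ‖y‖ ^ 2) (L2_L n y) y := by
  have h := (hasStrictFDerivAt_norm_sq y).hasFDerivAt
  refine h.congr_fderiv ?_
  ext v
  show _ = (2 : ℝ) * inner ℝ y v
  simp

/-- The extension. -/
theorem exists_tg {ρ : En n → ℝ} {e : En n} (he : ‖e‖ = 1) {s C : ℝ} (hs : 0 < s) (hρ : ContDiffOn ℝ 3 ρ (ball e s))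
    (hC : ∀ y ∈ ball e s, |ρ y - (‖y‖ ^ 2 - 1)| ≤ C * ‖y - e‖ ^ 3) :
    ∃ (T : Tg n) (s' : ℝ), T.e = e ∧ 0 < s' ∧ s' ≤ s ∧ ∀ y ∈ ball e s', T.ρ y = ρ y := by
  have hgc : ContDiffOn ℝ 3 (fun y => ρ y - (‖y‖ ^ 2 - 1)) (ball e s) :=
    hρ.sub ((contDiff_norm_sq ℝ).sub contDiff_const).contDiffOn
  obtain ⟨s', hs', hs's, M, hM, hj⟩ := jets hs hgc hC
  obtain ⟨κ, A, hA, hκ, hκ0, hκ1, hκ2, hκ3, hκ4⟩ := L2_bump n
  obtain ⟨σ, hσ, hσ1, hσ2, hσ3⟩ : ∃ σ : ℝ, 0 < σ ∧ σ < s' ∧ σ ≤ 1 / 4 ∧ M * (1 + 3 * A) * σ ≤ 1 / 2 := by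
    refine ⟨min (s' / 2) (min (1 / 4) (1 / (2 * (M * (1 + 3 * A) + 1)))), ?_, ?_, ?_, ?_⟩
    · positivity
    · exact (min_le_left _ _).trans_lt (by linarith)
    · exact (min_le_right _ _).trans (min_le_left _ _)
    · have h1 : min (s' / 2) (min (1 / 4) (1 / (2 * (M * (1 + 3 * A) + 1)))) ≤
          1 / (2 * (M * (1 + 3 * A) + 1)) := (min_le_right _ _).trans (min_le_right _ _)
      have h2 : 0 ≤ M * (1 + 3 * A) := by positivity
      calc _ ≤ M * (1 + 3 * A) * (1 / (2 * (M * (1 + 3 * A) + 1))) :=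
          mul_le_mul_of_nonneg_left h1 h2
        _ ≤ 1 / 2 := by
          rw [mul_one_div, div_le_div_iff₀ (by positivity) (by norm_num)]
          linarith
  obtain ⟨G, G1, G2, G3, G4, G5, G6, G7⟩ := L2_G hA hM hκ hκ0 hκ1 hκ2 hκ3 hκ4 hσ hσ1
    (hgc.mono (ball_subset_ball hs's)) hj
  have hG1 : ContDiff ℝ 2 (fderiv ℝ G) := G1.fderiv_right (by norm_num)
  obtain ⟨L, hL0, hL⟩ := L2_lip2 G1 G3
  have hdG : ∀ x y, ‖fderiv ℝ G x - fderiv ℝ G y‖ ≤ 1 / 2 * ‖x - y‖ := fun x y =>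
    Convex.norm_image_sub_le_of_norm_fderiv_le (𝕜 := ℝ) (s := Set.univ)
      (fun z _ => hG1.differentiable (by norm_num) z) (fun z _ => (G7 z).trans hσ3) convex_univ
      (Set.mem_univ y) (Set.mem_univ x)
  have hG : ∀ w z, |G z - G w - fderiv ℝ G w (z - w)| ≤ 1 / 2 * ‖z - w‖ ^ 2 := by
    intro w z
    have h1 := Convex.norm_image_sub_le_of_norm_fderiv_le' (𝕜 := ℝ) (f := G)
      (s := closedBall w ‖z - w‖) (φ := fderiv ℝ G w) (C := 1 / 2 * ‖z - w‖) (x := w) (y := z)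
      (fun x _ => G1.differentiable (by norm_num) x)
      (fun x hx => by
        rw [mem_closedBall, dist_eq_norm] at hx
        exact (hdG x w).trans (mul_le_mul_of_nonneg_left hx (by norm_num)))
      (convex_closedBall _ _) (mem_closedBall_self (norm_nonneg _))
      (by rw [mem_closedBall, dist_eq_norm])
    rw [Real.norm_eq_abs] at h1
    calc _ ≤ 1 / 2 * ‖z - w‖ * ‖z - w‖ := h1
      _ = _ := by ring
  obtain ⟨R, hR⟩ : ∃ R : En n → ℝ, R = fun y => ‖y‖ ^ 2 - 1 + G y := ⟨_, rfl⟩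
  have hRd : ∀ y, HasFDerivAt R (L2_L n y + fderiv ℝ G y) y := by
    intro y
    rw [hR]
    exact ((L2_sq y).sub_const 1).add (G1.differentiable (by norm_num) y).hasFDerivAt
  have hRf : fderiv ℝ R = fun y => L2_L n y + fderiv ℝ G y := funext fun y => (hRd y).fderiv
  have hRf2 : ∀ y, fderiv ℝ (fderiv ℝ R) y = L2_L n + fderiv ℝ (fderiv ℝ G) y := by
    intro y
    rw [hRf]
    exact ((L2_L n).hasFDerivAt.add (hG1.differentiable (by norm_num) y).hasFDerivAt).fderiv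
  have hM' : 0 ≤ M * (1 + A) := by positivity
  have hMA : M ≤ M * (1 + A) := le_mul_of_one_le_right hM (by linarith)
  have hMσ : M * σ ≤ 1 / 2 := by
    have h1 : M * σ ≤ M * (1 + 3 * A) * σ := by
      have : M * 1 * σ ≤ M * (1 + 3 * A) * σ := by gcongr; linarith
      simpa using this
    linarith
  have hfar : ∀ z : En n, ‖z‖ ≤ 1 / 2 → G z = 0 := by
    intro z hz
    refine G3 z ?_
    have h1 : ‖e‖ ≤ ‖z - e‖ + ‖z‖ := by
      calc ‖e‖ = ‖z - (z - e)‖ := by congr 1; abel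
        _ ≤ ‖z‖ + ‖z - e‖ := norm_sub_le _ _
        _ = _ := add_comm _ _
    rw [he] at h1
    linarith
  have hC1 : 1 ≤ 3 + M * (1 + A) + L := by linarith
  refine ⟨⟨e, he, R, ?_, 1 / 2, one_half_pos, ?_, ?_, ?_, 3 + M * (1 + A) + L, hC1, ?_, ?_, ?_, ?_⟩,
    σ / 2, rfl, half_pos hσ, by linarith, ?_⟩
  · rw [hR]
    exact ((contDiff_norm_sq ℝ).sub contDiff_const).add G1
  · intro w z
    have h1 := hG w z
    rw [hRf]
    simp only [add_apply]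
    rw [L2_L_apply, hR]
    dsimp only
    have h2 : ‖z‖ ^ 2 = ‖w‖ ^ 2 + 2 * (inner ℂ w (z - w) : ℂ).re + ‖z - w‖ ^ 2 := by
      have := norm_add_sq (𝕜 := ℂ) w (z - w)
      rw [add_sub_cancel] at this
      exact this
    have h3 := (abs_le.1 h1).1
    nlinarith
  · intro z
    rw [hR]
    dsimp only
    rw [hfar 0 (by simp)]
    simp only [norm_zero, ne_eq, OfNat.ofNat_ne_zero, not_false_eq_true, zero_pow, zero_sub, add_zero]
    by_cases hz : σ < ‖z - e‖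
    · rw [G3 z hz]
      nlinarith [sq_nonneg ‖z‖]
    · rw [not_lt] at hz
      have h1 : 3 / 4 ≤ ‖z‖ := by
        have h1 : ‖e‖ ≤ ‖z - e‖ + ‖z‖ := by
          calc ‖e‖ = ‖z - (z - e)‖ := by congr 1; abel
            _ ≤ ‖z‖ + ‖z - e‖ := norm_sub_le _ _
            _ = _ := add_comm _ _
        rw [he] at h1
        linarith
      have h2 : |G z| ≤ 1 / 2 := by
        calc |G z| ≤ M * ‖z - e‖ ^ 3 := G5 z
          _ ≤ M * σ ^ 3 := by gcongr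
          _ = M * σ * σ ^ 2 := by ring
          _ ≤ 1 / 2 * 1 := by
            have : σ ^ 2 ≤ 1 := by nlinarith
            gcongr
          _ = 1 / 2 := by norm_num
      have h3 := (abs_le.1 h2).1
      nlinarith
  · intro z hz
    rw [hR]
    dsimp only
    rw [hfar z hz]
    nlinarith [norm_nonneg z]
  · intro y
    rw [hR]
    dsimp only
    rw [add_sub_cancel_left]
    refine (G5 y).trans ?_
    exact mul_le_mul_of_nonneg_right (by linarith) (by positivity)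
  · intro y w
    rw [hRf]
    simp only [add_apply]
    rw [L2_L_apply, add_sub_cancel_left]
    calc |fderiv ℝ G y w| = ‖fderiv ℝ G y w‖ := (Real.norm_eq_abs _).symm
      _ ≤ ‖fderiv ℝ G y‖ * ‖w‖ := ContinuousLinearMap.le_opNorm _ _
      _ ≤ (M * (1 + A) * ‖y - e‖ ^ 2) * ‖w‖ := mul_le_mul_of_nonneg_right (G6 y) (norm_nonneg _)
      _ ≤ _ := by gcongr; linarith
  · intro x y
    rw [hRf]
    dsimp only
    have h1 : L2_L n x + fderiv ℝ G x - (L2_L n y + fderiv ℝ G y) =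
        L2_L n (x - y) + (fderiv ℝ G x - fderiv ℝ G y) := by
      rw [map_sub]
      abel
    rw [h1]
    calc _ ≤ ‖L2_L n (x - y)‖ + ‖fderiv ℝ G x - fderiv ℝ G y‖ := norm_add_le _ _
      _ ≤ 2 * ‖x - y‖ + 1 / 2 * ‖x - y‖ := add_le_add (L2_L_norm _) (hdG x y)
      _ = 5 / 2 * ‖x - y‖ := by ring
      _ ≤ _ := mul_le_mul_of_nonneg_right (by linarith) (norm_nonneg _)
  · intro x y
    rw [hRf2, hRf2, add_sub_add_left_eq_sub]
    refine (hL x y).trans ?_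
    exact mul_le_mul_of_nonneg_right (by linarith) (norm_nonneg _)
  · intro y hy
    show R y = ρ y
    rw [mem_ball, dist_eq_norm] at hy
    rw [hR]
    dsimp only
    rw [G4 y hy.le]
    ring

end Pool.Agent.MPca0fc2.EQ
end

section

/-! Campaign EQ, task P2: the visible generations at a given height. -/

set_option autoImplicit false

open Metric Set Filter Topology

namespace Pool.Agent.MPca0fc2.EQ

private theorem P2_inv {C1 d x a : ℝ} (hC : 1 ≤ C1) (hd : 0 < d) (hx : 0 < x)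
    (h : d ≤ C1 * x ^ (43 / 20 : ℝ)) (ha : 0 ≤ a) (ha2 : a ≤ 43 / 20) :
    x ^ (-a) ≤ C1 * d ^ (-(a * (20 / 43))) := by
  have hC0 : 0 < C1 := by linarith
  have e : x ^ (-a) = (x ^ (43 / 20 : ℝ)) ^ (-(a * (20 / 43))) := by
    rw [← Real.rpow_mul hx.le]
    congr 1
    ring
  have h1 : d / C1 ≤ x ^ (43 / 20 : ℝ) := by
    rw [div_le_iff₀ hC0]
    linarith
  have h2 : (x ^ (43 / 20 : ℝ)) ^ (-(a * (20 / 43))) ≤ (d / C1) ^ (-(a * (20 / 43))) :=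
    Real.rpow_le_rpow_of_nonpos (by positivity) h1 (by linarith)
  have h3 : (d / C1) ^ (-(a * (20 / 43))) = d ^ (-(a * (20 / 43))) * C1 ^ (a * (20 / 43)) := by
    rw [Real.div_rpow hd.le hC0.le, Real.rpow_neg hC0.le, div_inv_eq_mul]
  have h4 : C1 ^ (a * (20 / 43)) ≤ C1 := by
    calc C1 ^ (a * (20 / 43)) ≤ C1 ^ (1 : ℝ) :=
          Real.rpow_le_rpow_of_exponent_le hC (by linarith)
      _ = C1 := Real.rpow_one _
  rw [e]
  refine h2.trans ?_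
  rw [h3, mul_comm C1]
  exact mul_le_mul_of_nonneg_left h4 (by positivity)

private theorem P2_up {C1 d x b : ℝ} (hC : 1 ≤ C1) (hd : 0 < d) (hx : 0 < x)
    (h : x ^ (43 / 20 : ℝ) ≤ C1 * d ^ (249 / 250 : ℝ)) (hb : 0 ≤ b) (hb2 : b ≤ 43 / 10) :
    x ^ b ≤ C1 ^ 2 * d ^ (b * (498 / 1075)) := by
  have hC0 : 0 < C1 := by linarith
  have e : x ^ b = (x ^ (43 / 20 : ℝ)) ^ (b * (20 / 43)) := by
    rw [← Real.rpow_mul hx.le]
    congr 1
    ring
  have h2 : (x ^ (43 / 20 : ℝ)) ^ (b * (20 / 43)) ≤ (C1 * d ^ (249 / 250 : ℝ)) ^ (b * (20 / 43)) :=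
    Real.rpow_le_rpow (by positivity) h (by linarith)
  have h3 : (C1 * d ^ (249 / 250 : ℝ)) ^ (b * (20 / 43)) =
      C1 ^ (b * (20 / 43)) * d ^ (b * (498 / 1075)) := by
    rw [Real.mul_rpow hC0.le (by positivity), ← Real.rpow_mul hd.le]
    congr 2
    ring
  have h4 : C1 ^ (b * (20 / 43)) ≤ C1 ^ 2 := by
    calc C1 ^ (b * (20 / 43)) ≤ C1 ^ (2 : ℝ) :=
          Real.rpow_le_rpow_of_exponent_le hC (by linarith)
      _ = C1 ^ 2 := Real.rpow_two _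
  rw [e]
  refine h2.trans ?_
  rw [h3]
  exact mul_le_mul_of_nonneg_right h4 (by positivity)

private theorem P2_dec {d x : ℝ} (hd : 0 < d) (hx : 0 < x) :
    d ^ (249 / 500 : ℝ) / (x ^ (1 / 100 : ℝ) * x) * (1 + (x ^ (9 / 4 : ℝ) / d) ^ (1 / 4 : ℝ)) =
      d ^ (249 / 500 : ℝ) * x ^ (-(101 / 100) : ℝ) + d ^ (31 / 125 : ℝ) * x ^ (-(179 / 400) : ℝ) := by
  have h1 : x ^ (1 / 100 : ℝ) * x = x ^ (101 / 100 : ℝ) := by
    nth_rewrite 2 [← Real.rpow_one x]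
    rw [← Real.rpow_add hx]
    norm_num
  have h2 : (x ^ (9 / 4 : ℝ) / d) ^ (1 / 4 : ℝ) = x ^ (9 / 16 : ℝ) * d ^ (-(1 / 4) : ℝ) := by
    rw [Real.div_rpow (by positivity) hd.le, ← Real.rpow_mul hx.le, Real.rpow_neg hd.le,
      div_eq_mul_inv]
    norm_num
  have h3 : d ^ (31 / 125 : ℝ) = d ^ (249 / 500 : ℝ) * d ^ (-(1 / 4) : ℝ) := by
    rw [← Real.rpow_add hd]
    norm_num
  have h4 : x ^ (-(179 / 400) : ℝ) = x ^ (-(101 / 100) : ℝ) * x ^ (9 / 16 : ℝ) := by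
    rw [← Real.rpow_add hx]
    norm_num
  rw [h1, h2, h3, h4, div_eq_mul_inv, ← Real.rpow_neg hx.le]
  ring

private theorem P2_es (lam : ℝ) (l : ℕ) : es lam l = rs lam l ^ (1 / 100 : ℝ) := rfl

private theorem P2_pow_small (C : ℝ) {α β : ℝ} (h : β < α) : ∀ᶠ lam in 𝓝[>] (0 : ℝ), ∀ d : ℝ, 0 < d →
    d ≤ lam ^ (11 / 5 : ℝ) → C * d ^ α ≤ d ^ β := by
  filter_upwards [small' C h, ev_lt (a := 1) one_pos] with lam h1 h2 d hd hd2
  refine h1 d hd (hd2.trans ?_)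
  calc lam ^ (11 / 5 : ℝ) ≤ lam ^ (1 : ℝ) :=
        Real.rpow_le_rpow_of_exponent_ge h2.1 h2.2.le (by norm_num)
    _ = lam := Real.rpow_one _

/-- (iii) -/
private theorem P2_iii (C : ℝ) : ∀ᶠ lam in 𝓝[>] (0 : ℝ), ∀ d : ℝ, 0 < d → d ≤ lam ^ (11 / 5 : ℝ) →
    ∀ l, d ≤ C * Ts lam l →
      C * (d ^ (249 / 500 : ℝ) / (es lam l * rs lam l) * (1 + (ts lam l / d) ^ (1 / 4 : ℝ))) ≤
        d ^ (1 / 100 : ℝ) := by
  set C1 : ℝ := max C 1 with hC1
  have hC11 : 1 ≤ C1 := le_max_right _ _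
  have hCC1 : C ≤ C1 := le_max_left _ _
  filter_upwards [P2_pow_small (2 * C1 ^ 2) (α := 28 / 1000) (β := 1 / 100) (by norm_num),
    ev_lt (a := 1) one_pos] with lam hps h0 d hd hd2 l hl
  have hd1 : d ≤ 1 := hd2.trans (Real.rpow_le_one h0.1.le h0.2.le (by norm_num))
  have hx : 0 < rs lam l := rs_pos h0.1 l
  set x := rs lam l with hxdef
  have hTs : Ts lam l = x ^ (43 / 20 : ℝ) := rfl
  have hts : ts lam l = x ^ (9 / 4 : ℝ) := rfl
  have hes : es lam l = x ^ (1 / 100 : ℝ) := rfl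
  rw [hes, hts, P2_dec hd hx]
  rw [hTs] at hl
  have hl' : d ≤ C1 * x ^ (43 / 20 : ℝ) :=
    hl.trans (mul_le_mul_of_nonneg_right hCC1 (by positivity))
  have i1 := P2_inv hC11 hd hx hl' (a := 101 / 100) (by norm_num) (by norm_num)
  have i2 := P2_inv hC11 hd hx hl' (a := 179 / 400) (by norm_num) (by norm_num)
  have j1 : d ^ (249 / 500 : ℝ) * x ^ (-(101 / 100) : ℝ) ≤ C1 * d ^ (28 / 1000 : ℝ) := by
    calc d ^ (249 / 500 : ℝ) * x ^ (-(101 / 100) : ℝ)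
        ≤ d ^ (249 / 500 : ℝ) * (C1 * d ^ (-(101 / 100 * (20 / 43)) : ℝ)) :=
          mul_le_mul_of_nonneg_left i1 (by positivity)
      _ = C1 * d ^ (249 / 500 + -(101 / 100 * (20 / 43)) : ℝ) := by
          rw [Real.rpow_add hd]
          ring
      _ ≤ C1 * d ^ (28 / 1000 : ℝ) :=
          mul_le_mul_of_nonneg_left
            (Real.rpow_le_rpow_of_exponent_ge hd hd1 (by norm_num)) (by linarith)
  have j2 : d ^ (31 / 125 : ℝ) * x ^ (-(179 / 400) : ℝ) ≤ C1 * d ^ (28 / 1000 : ℝ) := by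
    calc d ^ (31 / 125 : ℝ) * x ^ (-(179 / 400) : ℝ)
        ≤ d ^ (31 / 125 : ℝ) * (C1 * d ^ (-(179 / 400 * (20 / 43)) : ℝ)) :=
          mul_le_mul_of_nonneg_left i2 (by positivity)
      _ = C1 * d ^ (31 / 125 + -(179 / 400 * (20 / 43)) : ℝ) := by
          rw [Real.rpow_add hd]
          ring
      _ ≤ C1 * d ^ (28 / 1000 : ℝ) :=
          mul_le_mul_of_nonneg_left
            (Real.rpow_le_rpow_of_exponent_ge hd hd1 (by norm_num)) (by linarith)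
  have hsum : 0 ≤ d ^ (249 / 500 : ℝ) * x ^ (-(101 / 100) : ℝ) +
      d ^ (31 / 125 : ℝ) * x ^ (-(179 / 400) : ℝ) := by positivity
  calc C * (d ^ (249 / 500 : ℝ) * x ^ (-(101 / 100) : ℝ) + d ^ (31 / 125 : ℝ) * x ^ (-(179 / 400) : ℝ))
      ≤ C1 * (d ^ (249 / 500 : ℝ) * x ^ (-(101 / 100) : ℝ) +
          d ^ (31 / 125 : ℝ) * x ^ (-(179 / 400) : ℝ)) := mul_le_mul_of_nonneg_right hCC1 hsum
    _ ≤ C1 * (C1 * d ^ (28 / 1000 : ℝ) + C1 * d ^ (28 / 1000 : ℝ)) :=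
        mul_le_mul_of_nonneg_left (add_le_add j1 j2) (by linarith)
    _ = 2 * C1 ^ 2 * d ^ (28 / 1000 : ℝ) := by ring
    _ ≤ d ^ (1 / 100 : ℝ) := hps d hd hd2

/-- (iv) -/
private theorem P2_iv : ∀ᶠ lam in 𝓝[>] (0 : ℝ), ∀ d : ℝ, 0 < d → ∀ κ : ℕ,
    ∑ l ∈ Finset.Ioc 0 (κ + 1), d ^ (249 / 500 : ℝ) / (es lam l * rs lam l) *
        (1 + (ts lam l / d) ^ (1 / 4 : ℝ)) ≤
      2 * (d ^ (249 / 500 : ℝ) / (es lam (κ + 1) * rs lam (κ + 1)) *
        (1 + (ts lam (κ + 1) / d) ^ (1 / 4 : ℝ))) := by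
  filter_upwards [half 2 (β := 101 / 100) (by norm_num), half 2 (β := 179 / 400) (by norm_num),
    ev_lt (a := 1) one_pos] with lam hh1 hh2 h0 d hd κ
  have hF : ∀ l, d ^ (249 / 500 : ℝ) / (es lam l * rs lam l) * (1 + (ts lam l / d) ^ (1 / 4 : ℝ)) =
      d ^ (249 / 500 : ℝ) * rs lam l ^ (-(101 / 100) : ℝ) +
        d ^ (31 / 125 : ℝ) * rs lam l ^ (-(179 / 400) : ℝ) := fun l => P2_dec hd (rs_pos h0.1 l)
  have hgrow : ∀ β : ℝ, (∀ k, 2 * rs lam (k + 1) ^ β ≤ rs lam k ^ β) → ∀ k,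
      2 * rs lam k ^ (-β) ≤ rs lam (k + 1) ^ (-β) := by
    intro β hβ k
    have p1 : 0 < rs lam k ^ β := Real.rpow_pos_of_pos (rs_pos h0.1 k) _
    have p2 : 0 < rs lam (k + 1) ^ β := Real.rpow_pos_of_pos (rs_pos h0.1 (k + 1)) _
    rw [Real.rpow_neg (rs_pos h0.1 k).le, Real.rpow_neg (rs_pos h0.1 (k + 1)).le]
    rw [← div_eq_mul_inv, ← one_div, div_le_div_iff₀ p1 p2]
    linarith [hβ k]
  have g1 := hgrow _ hh1
  have g2 := hgrow _ hh2
  induction κ with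
  | zero =>
    have : Finset.Ioc 0 (0 + 1) = {1} := by decide
    rw [this, Finset.sum_singleton, hF]
    have q1 : 0 ≤ d ^ (249 / 500 : ℝ) * rs lam 1 ^ (-(101 / 100) : ℝ) := by
      have := rs_pos h0.1 1
      positivity
    have q2 : 0 ≤ d ^ (31 / 125 : ℝ) * rs lam 1 ^ (-(179 / 400) : ℝ) := by
      have := rs_pos h0.1 1
      positivity
    linarith
  | succ κ ih =>
    rw [Finset.sum_Ioc_succ_top (by omega), hF (κ + 1 + 1)]
    rw [hF (κ + 1)] at ih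
    have r1 := mul_le_mul_of_nonneg_left (g1 (κ + 1)) (by positivity : 0 ≤ d ^ (249 / 500 : ℝ))
    have r2 := mul_le_mul_of_nonneg_left (g2 (κ + 1)) (by positivity : 0 ≤ d ^ (31 / 125 : ℝ))
    linarith


/-- The visible generations at the height `d`.
PROOF (all exponents are checked). WLOG `C ≥ 1`. `κ` = the largest `l ≤ K`, `l ≥ 1`, with `C d ^ (249/250) ≤ Ts lam l`, and `κ = 0` if there is none. (i): `Ts` is antitone. (ii): maximality. Write `x = rs lam l`.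
(iii) Let `1 ≤ l`, `d ≤ C Ts lam l = C x ^ 2.15`. Then `x ≥ (d/C) ^ (1/2.15)`, `(1/2.15) * 1.01 < 0.47`, so `d ^ 0.498 / x ^ 1.01 ≤ C' d ^ 0.028`, and `C C' d ^ 0.028 ≤ d ^ (1/100)` as `d ≤ lam ^ 2.2` is small. And
`(ts/d) ^ (1/4) = x ^ 0.5625 d ^ (-1/4)`: `d ^ 0.248 x ^ (-0.4475)`, `x ^ (-0.4475) ≤ C' d ^ (-0.2082)`: product `≤ C' d ^ 0.0398`.
(iv) The sum: for `l < κ` the term with `l` is at most half of the term with `l + 1` (`x ^ (-1.01)` and `x ^ (-0.4475)` grow by factors `≥ 2` from `l` to `l + 1`: `half`), so the sum is at most twice the last term, use (iii) with `2 C` etc.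
(every `l ≤ κ` has `d ≤ C d ^ (249/250) ≤ Ts lam l`.)
(v) `κ < K`: `x = rs lam (κ+1)`, `x ^ 2.15 < C d ^ 0.996`, so `x ≤ C' d ^ 0.4632`; `ts (κ+1) / d = x ^ 2.25 / d ≤ C' d ^ 0.042`; `rs κ ^ (3/10) = x ^ 0.25 ≤ C' d ^ 0.115`; `es (κ+1) = x ^ 0.01 ≤ C' d ^ 0.0046 ≤ d ^ (3/1000) / C`;
`x ^ 2.2 ≤ C' d ^ 1.019 ≤ d / C`; for `l ≥ κ + 2`: `Ts l ≤ Ts (κ+2) = x ^ 2.58 ≤ C' d ^ 1.19 ≤ d / C`.
(vi) `C d ^ (249/500) ≤ es κ rs κ`: for `κ ≥ 1` by (iii) with (a larger constant and `d ^ (1/100) ≤ 1`); for `κ = 0`: `d ^ 0.498 ≤ lam ^ 1.0956` and `es 0 rs 0 = lam ^ 1.01`. -/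
theorem vis (C : ℝ) : ∀ᶠ lam in 𝓝[>] (0 : ℝ), ∀ (K : ℕ) (d : ℝ), 0 < d → d ≤ lam ^ (11 / 5 : ℝ) →
    (∀ l, 1 ≤ l → d ≤ C * Ts lam l →
      C * (d ^ (249 / 500 : ℝ) / (es lam l * rs lam l) * (1 + (ts lam l / d) ^ (1 / 4 : ℝ))) ≤ d ^ (1 / 100 : ℝ)) ∧
    ∃ κ ≤ K, (∀ l, 1 ≤ l → l ≤ κ → C * d ^ (249 / 250 : ℝ) ≤ Ts lam l) ∧
      C * ∑ l ∈ Finset.Ioc 0 κ, d ^ (249 / 500 : ℝ) / (es lam l * rs lam l) * (1 + (ts lam l / d) ^ (1 / 4 : ℝ)) ≤
        d ^ (1 / 100 : ℝ) ∧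
      C * d ^ (249 / 500 : ℝ) ≤ es lam κ * rs lam κ ∧
      (κ < K → Ts lam (κ + 1) < C * d ^ (249 / 250 : ℝ) ∧
        C * (ts lam (κ + 1) / d + rs lam κ ^ (3 / 10 : ℝ)) ≤ d ^ (1 / 100 : ℝ) ∧ C * ts lam (κ + 1) ≤ d ∧
        C * es lam (κ + 1) ≤ d ^ (3 / 1000 : ℝ) ∧ C * rs lam (κ + 1) ^ (11 / 5 : ℝ) ≤ d ∧ ∀ l, κ + 2 ≤ l → C * Ts lam l ≤ d) := by
  rcases le_or_gt C 0 with hC | hC
  · filter_upwards [ev_lt (a := 1) one_pos] with lam h0 K d hd hd2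
    refine ⟨fun l _ hl => ?_, K, le_rfl, fun l _ _ => ?_, ?_, ?_, fun h => absurd h (lt_irrefl _)⟩
    · exact absurd (hl.trans (mul_nonpos_of_nonpos_of_nonneg hC (Ts_pos h0.1 l).le)) (not_le.2 hd)
    · exact (mul_nonpos_of_nonpos_of_nonneg hC (by positivity)).trans (Ts_pos h0.1 l).le
    · refine (mul_nonpos_of_nonpos_of_nonneg hC (Finset.sum_nonneg fun l _ => ?_)).trans (by positivity)
      have h1 := es_pos h0.1 l
      have h2 := rs_pos h0.1 l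
      have h3 := ts_pos h0.1 l
      positivity
    · have h1 := es_pos h0.1 K
      have h2 := rs_pos h0.1 K
      exact (mul_nonpos_of_nonpos_of_nonneg hC (by positivity)).trans (by positivity)
  set C1 : ℝ := max C 1 with hC1
  have hC11 : 1 ≤ C1 := le_max_right _ _
  have hCC1 : C ≤ C1 := le_max_left _ _
  filter_upwards [P2_iii C, P2_iii (2 * C), P2_iv, ev_lt (a := 1) one_pos,
    P2_pow_small (1 / (2 * C) / C) (α := 1) (β := 249 / 250) (by norm_num),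
    P2_pow_small (C1 ^ 3 * 2) (α := 42 / 1000) (β := 1 / 100) (by norm_num),
    P2_pow_small (C1 ^ 3) (α := 1042 / 1000) (β := 1) (by norm_num),
    P2_pow_small (C1 ^ 3) (α := 4 / 1000) (β := 3 / 1000) (by norm_num),
    P2_pow_small (C1 ^ 3) (α := 1019 / 1000) (β := 1) (by norm_num),
    P2_pow_small (C1 ^ 3) (α := 119 / 100) (β := 1) (by norm_num),
    small' C (α := 10956 / 10000) (β := 101 / 100) (by norm_num)]
    with lam hiii hiii2 hiv h0 e0 e1 e2 e3 e4 e5 e6 K d hd hd2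
  have hd1 : d ≤ 1 := hd2.trans (Real.rpow_le_one h0.1.le h0.2.le (by norm_num))
  refine ⟨fun l _ hl => hiii d hd hd2 l hl, ?_⟩
  classical
  let P : ℕ → Prop := fun l => ∀ j, 1 ≤ j → j ≤ l → C * d ^ (249 / 250 : ℝ) ≤ Ts lam j
  have hP0 : P 0 := fun j h1 h2 => absurd h2 (by omega)
  set κ := Nat.findGreatest P K with hκ
  have hPκ : P κ := Nat.findGreatest_spec (P := P) (Nat.zero_le K) hP0
  have hκK : κ ≤ K := Nat.findGreatest_le K
  have hF0 : ∀ l, 0 ≤ d ^ (249 / 500 : ℝ) / (es lam l * rs lam l) * (1 + (ts lam l / d) ^ (1 / 4 : ℝ)) := by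
    intro l
    have h1 := es_pos h0.1 l
    have h2 := rs_pos h0.1 l
    have h3 := ts_pos h0.1 l
    positivity
  -- (iii) with `d ≤ Ts`
  have hbig : ∀ l, C * d ^ (249 / 250 : ℝ) ≤ Ts lam l →
      2 * C * (d ^ (249 / 500 : ℝ) / (es lam l * rs lam l) * (1 + (ts lam l / d) ^ (1 / 4 : ℝ))) ≤
        d ^ (1 / 100 : ℝ) := by
    intro l hl
    apply hiii2 d hd hd2 l
    have h1 := e0 d hd hd2
    rw [Real.rpow_one] at h1
    have h2 : d ≤ 2 * C * (C * d ^ (249 / 250 : ℝ)) := by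
      have h3 := mul_le_mul_of_nonneg_left h1 (by positivity : 0 ≤ 2 * C * C)
      have h4 : 2 * C * C * (1 / (2 * C) / C * d) = d := by field_simp
      rw [h4] at h3
      linarith
    exact h2.trans (mul_le_mul_of_nonneg_left hl (by positivity))
  refine ⟨κ, hκK, hPκ, ?_, ?_, ?_⟩
  · rcases Nat.eq_zero_or_pos κ with h | h
    · rw [h]
      simp only [Finset.Ioc_self, Finset.sum_empty, mul_zero]
      positivity
    · obtain ⟨m, hm⟩ : ∃ m, κ = m + 1 := ⟨κ - 1, by omega⟩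
      have h1 := hiv d hd m
      rw [← hm] at h1
      have h2 := hbig κ (hPκ κ h le_rfl)
      calc C * ∑ l ∈ Finset.Ioc 0 κ, d ^ (249 / 500 : ℝ) / (es lam l * rs lam l) *
              (1 + (ts lam l / d) ^ (1 / 4 : ℝ))
          ≤ C * (2 * (d ^ (249 / 500 : ℝ) / (es lam κ * rs lam κ) *
              (1 + (ts lam κ / d) ^ (1 / 4 : ℝ)))) := mul_le_mul_of_nonneg_left h1 hC.le
        _ = 2 * C * (d ^ (249 / 500 : ℝ) / (es lam κ * rs lam κ) *
              (1 + (ts lam κ / d) ^ (1 / 4 : ℝ))) := by ring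
        _ ≤ _ := h2
  · rcases Nat.eq_zero_or_pos κ with h | h
    · rw [h, rs_zero, P2_es, rs_zero]
      have h1 : d ^ (249 / 500 : ℝ) ≤ lam ^ (10956 / 10000 : ℝ) := by
        calc d ^ (249 / 500 : ℝ) ≤ (lam ^ (11 / 5 : ℝ)) ^ (249 / 500 : ℝ) :=
              Real.rpow_le_rpow hd.le hd2 (by norm_num)
          _ = lam ^ (10956 / 10000 : ℝ) := by
              rw [← Real.rpow_mul h0.1.le]
              norm_num
      have h2 : lam ^ (1 / 100 : ℝ) * lam = lam ^ (101 / 100 : ℝ) := by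
        nth_rewrite 2 [← Real.rpow_one lam]
        rw [← Real.rpow_add h0.1]
        norm_num
      rw [h2]
      exact (mul_le_mul_of_nonneg_left h1 hC.le).trans (e6 lam h0.1 le_rfl)
    · have h2 := hbig κ (hPκ κ h le_rfl)
      have h3 : d ^ (1 / 100 : ℝ) ≤ 1 := Real.rpow_le_one hd.le hd1 (by norm_num)
      have hes := es_pos h0.1 κ
      have hrs := rs_pos h0.1 κ
      have hts := ts_pos h0.1 κ
      have h4 : d ^ (249 / 500 : ℝ) / (es lam κ * rs lam κ) ≤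
          d ^ (249 / 500 : ℝ) / (es lam κ * rs lam κ) * (1 + (ts lam κ / d) ^ (1 / 4 : ℝ)) := by
        have h5 : 0 ≤ d ^ (249 / 500 : ℝ) / (es lam κ * rs lam κ) := by positivity
        have h6 : 0 ≤ (ts lam κ / d) ^ (1 / 4 : ℝ) := by positivity
        nlinarith
      have h7 : C * (d ^ (249 / 500 : ℝ) / (es lam κ * rs lam κ)) ≤ 1 := by
        have h8 := mul_le_mul_of_nonneg_left h4 hC.le
        have h9 : 0 ≤ C * (d ^ (249 / 500 : ℝ) / (es lam κ * rs lam κ)) := by positivity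
        linarith
      have h10 : C * (d ^ (249 / 500 : ℝ) / (es lam κ * rs lam κ)) =
          (C * d ^ (249 / 500 : ℝ)) / (es lam κ * rs lam κ) := by ring
      rw [h10, div_le_one (by positivity)] at h7
      exact h7
  · intro hlt
    have hnot : ¬ P (κ + 1) := Nat.findGreatest_is_greatest (P := P) (Nat.lt_succ_self _) hlt
    have hTlt : Ts lam (κ + 1) < C * d ^ (249 / 250 : ℝ) := by
      by_contra hcon
      push Not at hcon
      apply hnot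
      intro j hj1 hj2
      rcases Nat.lt_or_ge j (κ + 1) with h | h
      · exact hPκ j hj1 (by omega)
      · have : j = κ + 1 := by omega
        rw [this]
        exact hcon
    have hx : 0 < rs lam (κ + 1) := rs_pos h0.1 _
    have hxT : rs lam (κ + 1) ^ (43 / 20 : ℝ) ≤ C1 * d ^ (249 / 250 : ℝ) :=
      (le_of_lt hTlt).trans (mul_le_mul_of_nonneg_right hCC1 (by positivity))
    have hts : ts lam (κ + 1) ≤ C1 ^ 2 * d ^ (1042 / 1000 : ℝ) := by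
      refine (P2_up hC11 hd hx hxT (b := 9 / 4) (by norm_num) (by norm_num)).trans ?_
      exact mul_le_mul_of_nonneg_left
        (Real.rpow_le_rpow_of_exponent_ge hd hd1 (by norm_num)) (by positivity)
    have hC12 : C * C1 ^ 2 ≤ C1 ^ 3 := by
      calc C * C1 ^ 2 ≤ C1 * C1 ^ 2 := mul_le_mul_of_nonneg_right hCC1 (by positivity)
        _ = C1 ^ 3 := by ring
    refine ⟨hTlt, ?_, ?_, ?_, ?_, ?_⟩
    · have k1 : ts lam (κ + 1) / d ≤ C1 ^ 2 * d ^ (42 / 1000 : ℝ) := by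
        rw [div_le_iff₀ hd]
        refine hts.trans (le_of_eq ?_)
        have : d ^ (1042 / 1000 : ℝ) = d ^ (42 / 1000 : ℝ) * d := by
          nth_rewrite 3 [← Real.rpow_one d]
          rw [← Real.rpow_add hd]
          norm_num
        rw [this]
        ring
      have k2 : rs lam κ ^ (3 / 10 : ℝ) ≤ C1 ^ 2 * d ^ (42 / 1000 : ℝ) := by
        have : rs lam κ ^ (3 / 10 : ℝ) = rs lam (κ + 1) ^ (1 / 4 : ℝ) := by
          rw [rs_succ h0.1, ← Real.rpow_mul (rs_pos h0.1 κ).le]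
          norm_num
        rw [this]
        refine (P2_up hC11 hd hx hxT (b := 1 / 4) (by norm_num) (by norm_num)).trans ?_
        exact mul_le_mul_of_nonneg_left
          (Real.rpow_le_rpow_of_exponent_ge hd hd1 (by norm_num)) (by positivity)
      calc C * (ts lam (κ + 1) / d + rs lam κ ^ (3 / 10 : ℝ))
          ≤ C * (C1 ^ 2 * d ^ (42 / 1000 : ℝ) + C1 ^ 2 * d ^ (42 / 1000 : ℝ)) :=
            mul_le_mul_of_nonneg_left (add_le_add k1 k2) hC.le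
        _ = C * C1 ^ 2 * (2 * d ^ (42 / 1000 : ℝ)) := by ring
        _ ≤ C1 ^ 3 * (2 * d ^ (42 / 1000 : ℝ)) := mul_le_mul_of_nonneg_right hC12 (by positivity)
        _ = C1 ^ 3 * 2 * d ^ (42 / 1000 : ℝ) := by ring
        _ ≤ d ^ (1 / 100 : ℝ) := e1 d hd hd2
    · calc C * ts lam (κ + 1) ≤ C * (C1 ^ 2 * d ^ (1042 / 1000 : ℝ)) :=
            mul_le_mul_of_nonneg_left hts hC.le
        _ = C * C1 ^ 2 * d ^ (1042 / 1000 : ℝ) := by ring
        _ ≤ C1 ^ 3 * d ^ (1042 / 1000 : ℝ) := mul_le_mul_of_nonneg_right hC12 (by positivity)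
        _ ≤ d ^ (1 : ℝ) := e2 d hd hd2
        _ = d := Real.rpow_one d
    · have k3 : es lam (κ + 1) ≤ C1 ^ 2 * d ^ (4 / 1000 : ℝ) := by
        refine (P2_up hC11 hd hx hxT (b := 1 / 100) (by norm_num) (by norm_num)).trans ?_
        exact mul_le_mul_of_nonneg_left
          (Real.rpow_le_rpow_of_exponent_ge hd hd1 (by norm_num)) (by positivity)
      calc C * es lam (κ + 1) ≤ C * (C1 ^ 2 * d ^ (4 / 1000 : ℝ)) :=
            mul_le_mul_of_nonneg_left k3 hC.le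
        _ = C * C1 ^ 2 * d ^ (4 / 1000 : ℝ) := by ring
        _ ≤ C1 ^ 3 * d ^ (4 / 1000 : ℝ) := mul_le_mul_of_nonneg_right hC12 (by positivity)
        _ ≤ d ^ (3 / 1000 : ℝ) := e3 d hd hd2
    · have k4 : rs lam (κ + 1) ^ (11 / 5 : ℝ) ≤ C1 ^ 2 * d ^ (1019 / 1000 : ℝ) := by
        refine (P2_up hC11 hd hx hxT (b := 11 / 5) (by norm_num) (by norm_num)).trans ?_
        exact mul_le_mul_of_nonneg_left
          (Real.rpow_le_rpow_of_exponent_ge hd hd1 (by norm_num)) (by positivity)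
      calc C * rs lam (κ + 1) ^ (11 / 5 : ℝ) ≤ C * (C1 ^ 2 * d ^ (1019 / 1000 : ℝ)) :=
            mul_le_mul_of_nonneg_left k4 hC.le
        _ = C * C1 ^ 2 * d ^ (1019 / 1000 : ℝ) := by ring
        _ ≤ C1 ^ 3 * d ^ (1019 / 1000 : ℝ) := mul_le_mul_of_nonneg_right hC12 (by positivity)
        _ ≤ d ^ (1 : ℝ) := e4 d hd hd2
        _ = d := Real.rpow_one d
    · intro l hl
      have k5 : Ts lam l ≤ C1 ^ 2 * d ^ (119 / 100 : ℝ) := by
        refine (Ts_anti h0.1 h0.2.le hl).trans ?_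
        rw [show κ + 2 = (κ + 1) + 1 from rfl, Ts_succ h0.1]
        refine (P2_up hC11 hd hx hxT (b := 129 / 50) (by norm_num) (by norm_num)).trans ?_
        exact mul_le_mul_of_nonneg_left
          (Real.rpow_le_rpow_of_exponent_ge hd hd1 (by norm_num)) (by positivity)
      calc C * Ts lam l ≤ C * (C1 ^ 2 * d ^ (119 / 100 : ℝ)) :=
            mul_le_mul_of_nonneg_left k5 hC.le
        _ = C * C1 ^ 2 * d ^ (119 / 100 : ℝ) := by ring
        _ ≤ C1 ^ 3 * d ^ (119 / 100 : ℝ) := mul_le_mul_of_nonneg_right hC12 (by positivity)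
        _ ≤ d ^ (1 : ℝ) := e5 d hd hd2
        _ = d := Real.rpow_one d

/-- The first transition. PROOF. `d ≤ lam ^ 2.2`, so `lam⁻¹ ≤ d ^ (-0.4546)`: `lam⁻¹ d ^ 0.498 ≤ d ^ 0.043`; `(t0/d) ^ (1/4) = lam ^ 0.6 d ^ (-1/4)`, `lam ^ (-0.4) d ^ 0.248 ≤ d ^ 0.066`; `d ^ 0.996 / lam² ≤ d ^ 0.086`,
`d ^ 0.746 lam ^ (-1.4) ≤ d ^ 0.109`. -/
theorem vis0 (C : ℝ) : ∀ᶠ lam in 𝓝[>] (0 : ℝ), ∀ d : ℝ, 0 < d → d ≤ lam ^ (11 / 5 : ℝ) →
    C * ((d ^ (249 / 250 : ℝ) + lam * d ^ (249 / 500 : ℝ)) / lam ^ 2 * (1 + (t0 lam / d) ^ (1 / 4 : ℝ))) ≤ d ^ (1 / 100 : ℝ) := by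
  set C1 : ℝ := max C 1 with hC1
  have hC11 : 1 ≤ C1 := le_max_right _ _
  have hCC1 : C ≤ C1 := le_max_left _ _
  filter_upwards [P2_pow_small (4 * C1) (α := 43 / 1000) (β := 1 / 100) (by norm_num),
    ev_lt (a := 1) one_pos] with lam hps h0 d hd hd2
  have hl := h0.1
  have hd1 : d ≤ 1 := hd2.trans (Real.rpow_le_one h0.1.le h0.2.le (by norm_num))
  have hinv : ∀ a : ℝ, 0 ≤ a → lam ^ (-a) ≤ d ^ (-(a * (5 / 11))) := by
    intro a ha
    have e : lam ^ (-a) = (lam ^ (11 / 5 : ℝ)) ^ (-(a * (5 / 11))) := by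
      rw [← Real.rpow_mul hl.le]
      congr 1
      ring
    rw [e]
    exact Real.rpow_le_rpow_of_nonpos hd hd2 (by linarith)
  have hdec : (d ^ (249 / 250 : ℝ) + lam * d ^ (249 / 500 : ℝ)) / lam ^ 2 *
      (1 + (t0 lam / d) ^ (1 / 4 : ℝ)) =
      d ^ (249 / 250 : ℝ) * lam ^ (-2 : ℝ) + d ^ (249 / 500 : ℝ) * lam ^ (-1 : ℝ) +
        (d ^ (373 / 500 : ℝ) * lam ^ (-(7 / 5) : ℝ) + d ^ (31 / 125 : ℝ) * lam ^ (-(2 / 5) : ℝ)) := by
    have h2 : (t0 lam / d) ^ (1 / 4 : ℝ) = lam ^ (3 / 5 : ℝ) * d ^ (-(1 / 4) : ℝ) := by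
      rw [t0, Real.div_rpow (by positivity) hd.le, ← Real.rpow_mul hl.le, Real.rpow_neg hd.le,
        div_eq_mul_inv]
      norm_num
    have h3 : d ^ (373 / 500 : ℝ) = d ^ (249 / 250 : ℝ) * d ^ (-(1 / 4) : ℝ) := by
      rw [← Real.rpow_add hd]
      norm_num
    have h4 : d ^ (31 / 125 : ℝ) = d ^ (249 / 500 : ℝ) * d ^ (-(1 / 4) : ℝ) := by
      rw [← Real.rpow_add hd]
      norm_num
    have h5 : lam ^ (-(7 / 5) : ℝ) = lam ^ (-2 : ℝ) * lam ^ (3 / 5 : ℝ) := by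
      rw [← Real.rpow_add hl]
      norm_num
    have h6 : lam ^ (-(2 / 5) : ℝ) = lam ^ (-1 : ℝ) * lam ^ (3 / 5 : ℝ) := by
      rw [← Real.rpow_add hl]
      norm_num
    have h7 : lam ^ (-2 : ℝ) = (lam ^ 2)⁻¹ := by
      rw [Real.rpow_neg hl.le, Real.rpow_two]
    have h8 : lam ^ (-1 : ℝ) = lam * (lam ^ 2)⁻¹ := by
      rw [Real.rpow_neg hl.le, Real.rpow_one]
      field_simp
    rw [h2, h3, h4, h5, h6, h7, h8]
    ring
  have key : ∀ α a : ℝ, 0 ≤ a → 43 / 1000 ≤ α + -(a * (5 / 11)) →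
      d ^ α * lam ^ (-a) ≤ d ^ (43 / 1000 : ℝ) := by
    intro α a ha hα
    calc d ^ α * lam ^ (-a) ≤ d ^ α * d ^ (-(a * (5 / 11))) :=
          mul_le_mul_of_nonneg_left (hinv a ha) (by positivity)
      _ = d ^ (α + -(a * (5 / 11))) := by rw [Real.rpow_add hd]
      _ ≤ d ^ (43 / 1000 : ℝ) := Real.rpow_le_rpow_of_exponent_ge hd hd1 hα
  have k1 := key (249 / 250) 2 (by norm_num) (by norm_num)
  have k2 := key (249 / 500) 1 (by norm_num) (by norm_num)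
  have k3 := key (373 / 500) (7 / 5) (by norm_num) (by norm_num)
  have k4 := key (31 / 125) (2 / 5) (by norm_num) (by norm_num)
  rw [hdec]
  have hnn : 0 ≤ d ^ (249 / 250 : ℝ) * lam ^ (-2 : ℝ) + d ^ (249 / 500 : ℝ) * lam ^ (-1 : ℝ) +
        (d ^ (373 / 500 : ℝ) * lam ^ (-(7 / 5) : ℝ) + d ^ (31 / 125 : ℝ) * lam ^ (-(2 / 5) : ℝ)) := by
    positivity
  refine (mul_le_mul_of_nonneg_right hCC1 hnn).trans ?_
  refine le_trans (mul_le_mul_of_nonneg_left (b := _) (c := 4 * d ^ (43 / 1000 : ℝ)) ?_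
    (by linarith : (0:ℝ) ≤ C1)) ?_
  · linarith
  · calc C1 * (4 * d ^ (43 / 1000 : ℝ)) = 4 * C1 * d ^ (43 / 1000 : ℝ) := by ring
      _ ≤ _ := hps d hd hd2

/-- The small powers. PROOF. `d ≤ lam ^ 2.2 ≤ lam`: `small'`. -/
theorem pow_small (C : ℝ) {α β : ℝ} (h : β < α) : ∀ᶠ lam in 𝓝[>] (0 : ℝ), ∀ d : ℝ, 0 < d → d ≤ lam ^ (11 / 5 : ℝ) →
    C * d ^ α ≤ d ^ β := P2_pow_small C h

end Pool.Agent.MPca0fc2.EQ
end

section

/-! Campaign EQ, task G2: maps near the identity and their inverses. -/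

set_option autoImplicit false

open Metric Set Filter Topology

namespace Pool.Agent.MPca0fc2.EQ

open Pool.Agent.MPca0fc2.TB (En)

variable {n : ℕ}

/-- A map near the identity.
PROOF. `κ ≤ 1/4`. `ψ y = Ψ y - y` is `κ`-Lipschitz on `closedBall 0 4`, `‖ψ‖ ≤ κ` there. For `‖z‖ ≤ 5/2` the map `y ↦ z - ψ y` maps `closedBall 0 3` into itself (`‖z‖ + κ ≤ 3`) and is a contraction: it has a fixed point `y`, `Ψ y = z` (`ContractingWith`
on the complete set `closedBall 0 3`: `ContractingWith.exists_fixedPoint'` or similar), so `ν.inv z` (a choice) satisfies the first two. Uniqueness in `‖y‖ ≤ 4` and the Lipschitz estimate: `‖y - y'‖ ≤ ‖Ψ y - Ψ y'‖ + κ ‖y - y'‖`.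
`‖ν.inv z - z‖ = ‖ψ (ν.inv z)‖ ≤ κ`. Holomorphy on `ball 0 2`: `ν.inv` is Lipschitz there, `y = ν.inv z` is an interior point of `ball 0 3`, and the derivative `fderiv ℂ Ψ y` is invertible (`‖fderiv ℂ Ψ y - 1‖ ≤ κ < 1` from the Lipschitz bound of `ψ`:
`norm_fderiv_le_of_lip'`; a unit of the Banach algebra, `ContinuousLinearEquiv`): `HasFDerivAt.of_local_left_inverse` (with `Ψ (ν.inv z) = z` near `z` and the continuity of `ν.inv`). -/
theorem inv_facts (ν : Nd n) {κ : ℝ} (hκ : 0 ≤ κ) (hκ1 : κ ≤ 1 / 4) (hd : Differentiable ℂ ν.Ψ)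
    (hl : ∀ y y', ‖y‖ ≤ 4 → ‖y'‖ ≤ 4 → ‖ν.Ψ y - ν.Ψ y' - (y - y')‖ ≤ κ * ‖y - y'‖) (hn : ∀ y, ‖y‖ ≤ 4 → ‖ν.Ψ y - y‖ ≤ κ) :
    (∀ z, ‖z‖ ≤ 5 / 2 → ‖ν.inv z‖ ≤ 3 ∧ ν.Ψ (ν.inv z) = z ∧ ‖ν.inv z - z‖ ≤ κ) ∧
    (∀ y, ‖y‖ ≤ 2 → ν.inv (ν.Ψ y) = y) ∧
    (∀ y y', ‖y‖ ≤ 4 → ‖y'‖ ≤ 4 → (1 - κ) * ‖y - y'‖ ≤ ‖ν.Ψ y - ν.Ψ y'‖ ∧ ‖ν.Ψ y - ν.Ψ y'‖ ≤ (1 + κ) * ‖y - y'‖) ∧
    (∀ z z', ‖z‖ ≤ 5 / 2 → ‖z'‖ ≤ 5 / 2 → (1 - κ) * ‖ν.inv z - ν.inv z'‖ ≤ ‖z - z'‖) ∧
    DifferentiableOn ℂ ν.inv (ball 0 2) := by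
  have hfix : ∀ z, ‖z‖ ≤ 5 / 2 → ∃ y, ‖y‖ ≤ 3 ∧ ν.Ψ y = z := by
    intro z hz
    have hmaps : Set.MapsTo (fun y => z - (ν.Ψ y - y)) (closedBall (0 : En n) 3) (closedBall (0 : En n) 3) := by
      intro y hy
      rw [mem_closedBall_zero_iff] at hy ⊢
      have h1 := hn y (by linarith)
      have h2 := norm_sub_le z (ν.Ψ y - y)
      show ‖z - (ν.Ψ y - y)‖ ≤ 3
      linarith
    have hcomp : IsComplete (closedBall (0 : En n) 3) := isClosed_closedBall.isComplete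
    have hκ' : (⟨κ, hκ⟩ : NNReal) < 1 := by
      show κ < 1
      linarith
    have hcon : ContractingWith (⟨κ, hκ⟩ : NNReal) (hmaps.restrict _ _ _) := by
      refine ⟨hκ', ?_⟩
      apply LipschitzWith.of_dist_le_mul
      intro a b
      have ha := mem_closedBall_zero_iff.1 a.2
      have hb := mem_closedBall_zero_iff.1 b.2
      rw [Subtype.dist_eq, Subtype.dist_eq]
      show dist (z - (ν.Ψ a - a)) (z - (ν.Ψ b - b)) ≤ κ * dist (a : En n) (b : En n)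
      rw [dist_eq_norm, dist_eq_norm]
      have h1 := hl b a (by linarith) (by linarith)
      have e1 : z - (ν.Ψ a - a) - (z - (ν.Ψ b - b)) = ν.Ψ b - ν.Ψ a - ((b : En n) - a) := by abel
      rw [e1, norm_sub_rev (a : En n) (b : En n)]
      exact h1
    obtain ⟨y, hy, hf, -⟩ := ContractingWith.exists_fixedPoint' hcomp hmaps hcon
      (mem_closedBall_self (by norm_num)) (edist_ne_top _ _)
    refine ⟨y, mem_closedBall_zero_iff.1 hy, ?_⟩
    have h1 : z - (ν.Ψ y - y) = y := hf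
    have h2 : z = y + (ν.Ψ y - y) := by
      rw [← sub_eq_iff_eq_add.1 h1]
    rw [h2]; abel
  have hlow : ∀ y y', ‖y‖ ≤ 4 → ‖y'‖ ≤ 4 → (1 - κ) * ‖y - y'‖ ≤ ‖ν.Ψ y - ν.Ψ y'‖ := by
    intro y y' hy hy'
    have h1 := hl y y' hy hy'
    have h2 := norm_sub_norm_le (y - y') (ν.Ψ y - ν.Ψ y')
    rw [norm_sub_rev (y - y') (ν.Ψ y - ν.Ψ y')] at h2
    nlinarith
  have hupp : ∀ y y', ‖y‖ ≤ 4 → ‖y'‖ ≤ 4 → ‖ν.Ψ y - ν.Ψ y'‖ ≤ (1 + κ) * ‖y - y'‖ := by
    intro y y' hy hy'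
    have h1 := hl y y' hy hy'
    have h2 := norm_sub_norm_le (ν.Ψ y - ν.Ψ y') (y - y')
    nlinarith
  have hinj : ∀ y y', ‖y‖ ≤ 4 → ‖y'‖ ≤ 4 → ν.Ψ y = ν.Ψ y' → y = y' := by
    intro y y' hy hy' he
    have h1 := hlow y y' hy hy'
    rw [he, sub_self, norm_zero] at h1
    have h2 : ‖y - y'‖ ≤ 0 := by
      have := norm_nonneg (y - y')
      nlinarith
    exact sub_eq_zero.1 (norm_le_zero_iff.1 h2)
  have hinv : ∀ z, ‖z‖ ≤ 5 / 2 → ‖ν.inv z‖ ≤ 3 ∧ ν.Ψ (ν.inv z) = z := by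
    intro z hz
    have h := hfix z hz
    have e : ν.inv z = h.choose := by
      unfold Nd.inv
      exact dif_pos h
    rw [e]
    exact h.choose_spec
  have h1 : ∀ z, ‖z‖ ≤ 5 / 2 → ‖ν.inv z‖ ≤ 3 ∧ ν.Ψ (ν.inv z) = z ∧ ‖ν.inv z - z‖ ≤ κ := by
    intro z hz
    obtain ⟨ha, hb⟩ := hinv z hz
    refine ⟨ha, hb, ?_⟩
    have h := hn (ν.inv z) (by linarith)
    rw [hb, norm_sub_rev] at h
    exact h
  have h4 : ∀ z z', ‖z‖ ≤ 5 / 2 → ‖z'‖ ≤ 5 / 2 → (1 - κ) * ‖ν.inv z - ν.inv z'‖ ≤ ‖z - z'‖ := by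
    intro z z' hz hz'
    obtain ⟨ha, hb⟩ := hinv z hz
    obtain ⟨ha', hb'⟩ := hinv z' hz'
    have h := hlow (ν.inv z) (ν.inv z') (by linarith) (by linarith)
    rw [hb, hb'] at h
    exact h
  refine ⟨h1, ?_, fun y y' hy hy' => ⟨hlow y y' hy hy', hupp y y' hy hy'⟩, h4, ?_⟩
  · intro y hy
    have ha := hn y (by linarith)
    have hb : ‖ν.Ψ y‖ ≤ 5 / 2 := by
      have := norm_sub_norm_le (ν.Ψ y) y
      linarith
    obtain ⟨hc, hd'⟩ := hinv (ν.Ψ y) hb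
    exact hinj _ _ (by linarith) (by linarith) hd'
  · intro z hz
    rw [mem_ball_zero_iff] at hz
    obtain ⟨ha, hb, hc⟩ := h1 z (by linarith)
    have hy : ‖ν.inv z‖ < 3 := by
      have := norm_sub_norm_le (ν.inv z) z
      linarith
    set y := ν.inv z with hydef
    have hcont : ContinuousAt ν.inv z := by
      rw [Metric.continuousAt_iff]
      intro ε hε
      refine ⟨min (1 / 2) (ε / 2), by positivity, ?_⟩
      intro w hw
      rw [dist_eq_norm] at hw ⊢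
      have hw1 : ‖w - z‖ < 1 / 2 := lt_of_lt_of_le hw (min_le_left _ _)
      have hw2 : ‖w - z‖ < ε / 2 := lt_of_lt_of_le hw (min_le_right _ _)
      have hw3 : ‖w‖ ≤ 5 / 2 := by
        have := norm_sub_norm_le w z
        linarith
      have h := h4 w z hw3 (by linarith)
      have h0 := norm_nonneg (ν.inv w - ν.inv z)
      nlinarith
    have hder : HasFDerivAt ν.Ψ (fderiv ℂ ν.Ψ y) y := (hd y).hasFDerivAt
    have hder2 : HasFDerivAt (fun x => ν.Ψ x - x) (fderiv ℂ ν.Ψ y - ContinuousLinearMap.id ℂ (En n)) y :=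
      hder.sub (hasFDerivAt_id y)
    have hnorm : ‖fderiv ℂ ν.Ψ y - ContinuousLinearMap.id ℂ (En n)‖ ≤ κ := by
      apply hder2.le_of_lip' hκ
      have hball : ball (0 : En n) 4 ∈ 𝓝 y := isOpen_ball.mem_nhds (by
        rw [mem_ball_zero_iff]; linarith)
      filter_upwards [hball] with x hx
      rw [mem_ball_zero_iff] at hx
      have h := hl x y hx.le (by linarith)
      have e1 : ν.Ψ x - x - (ν.Ψ y - y) = ν.Ψ x - ν.Ψ y - (x - y) := by abel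
      rw [e1]
      exact h
    have hlt : ‖ContinuousLinearMap.id ℂ (En n) - fderiv ℂ ν.Ψ y‖ < 1 := by
      rw [norm_sub_rev]
      linarith
    have hunit : IsUnit (fderiv ℂ ν.Ψ y) := by
      have := (Units.oneSub (ContinuousLinearMap.id ℂ (En n) - fderiv ℂ ν.Ψ y) hlt).isUnit
      have e : ((Units.oneSub (ContinuousLinearMap.id ℂ (En n) - fderiv ℂ ν.Ψ y) hlt : (En n →L[ℂ] En n)ˣ) : En n →L[ℂ] En n) = fderiv ℂ ν.Ψ y := by
        rw [Units.val_oneSub]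
        ext x : 1
        simp
      rw [e] at this
      exact this
    obtain ⟨u, hu⟩ := hunit
    have hcoe : ((ContinuousLinearEquiv.ofUnit u : En n ≃L[ℂ] En n) : En n →L[ℂ] En n) = fderiv ℂ ν.Ψ y := by
      rw [← hu]
      rfl
    rw [← hcoe] at hder
    have hloc : ∀ᶠ w in 𝓝 z, ν.Ψ (ν.inv w) = w := by
      have hball : ball (0 : En n) 2 ∈ 𝓝 z := isOpen_ball.mem_nhds (by
        rw [mem_ball_zero_iff]; linarith)
      filter_upwards [hball] with w hw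
      rw [mem_ball_zero_iff] at hw
      exact (hinv w (by linarith)).2
    exact (HasFDerivAt.of_local_left_inverse hcont hder hloc).differentiableAt.differentiableWithinAt

end Pool.Agent.MPca0fc2.EQ
end
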