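import Pool.Agent.Lib.MP_ca0fc2_an.Mg.G089
import Pool.Agent.Lib.MP_ca0fc2_an.Mg.G073

section

/-! Campaign ZL (zero-one law), task BaB: the space of data is closed. -/

set_option autoImplicit false

open Metric Set Filter Topology

namespace Pool.Agent.MPca0fc2.ZL

open Pool.Agent.MPca0fc2.TB (En)
open Pool.Agent.Lib.MP_ca0fc2_an.ZL (ext Data)

variable {n N : ℕ}

/-- `X_δ` is closed in `C(ball, En N)`.
PROOF. `isClosed_iff_ultrafilter`: let `𝒰 ≤ 𝓝 f` be an ultrafilter on `C(ball, En N)` with `Data n N δ ∈ 𝒰`. Bounds: for each `z` the map `g ↦ g z` is continuous (`ContinuousMap.continuous_eval_const`), so `‖f z j‖ ≤ 1`, `δ ≤ ‖f z‖` (`le_of_tendsto`, the inequalities hold `𝒰`-eventually).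
Holomorphic: by coordinates (`differentiableOn_euclidean`). For the coordinate `i` let `G g = fun z => ext g z i` if `g ∈ Data n N δ`, and `0` otherwise: holomorphic on the ball, bounded by `1`. `Pool.Agent.MPca0fc2.SL.ultra_holo` (index type `C(ball, En N)`, ultrafilter `𝒰`) gives a holomorphic `y` with
`G g z → y z` along `𝒰` for all `z` in the ball; `G g z = g z i` eventually and `g z i → f z i`, so `y z = ext f z i` on the ball (`tendsto_nhds_unique`). -/
theorem isClosed_data (δ : ℝ) : IsClosed (Data n N δ) := by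
  classical
  rw [isClosed_iff_ultrafilter]
  intro f 𝒰 hf hmem
  have hev : ∀ z : ball (0 : En n) 1, Tendsto (fun g : C(ball (0 : En n) 1, En N) => g z) 𝒰 (𝓝 (f z)) := fun z =>
    ((ContinuousEvalConst.continuous_eval_const z).tendsto f).mono_left hf
  refine ⟨?_, ?_⟩
  · rw [differentiableOn_euclidean]
    intro i
    have hG : ∀ g : C(ball (0 : En n) 1, En N),
        DifferentiableOn ℂ (fun z => if g ∈ Data n N δ then ext g z i else 0) (ball (0 : En n) 1) := by
      intro g
      by_cases hg : g ∈ Data n N δ
      · simp only [hg, if_true]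
        exact (differentiableOn_euclidean.mp hg.1) i
      · simp only [hg, if_false]
        exact differentiableOn_const 0
    have hM : ∀ g : C(ball (0 : En n) 1, En N), ∀ z ∈ ball (0 : En n) 1,
        ‖(if g ∈ Data n N δ then ext g z i else 0)‖ ≤ (1 : ℝ) := by
      intro g z hz
      by_cases hg : g ∈ Data n N δ
      · simp only [hg, if_true]
        rw [Pool.Agent.Lib.MP_ca0fc2_an.ZL.ext, dif_pos hz]
        exact (hg.2 ⟨z, hz⟩).1 i
      · simp only [hg, if_false, norm_zero]
        exact zero_le_one
    obtain ⟨y, hy, -, hy2⟩ := Pool.Agent.MPca0fc2.SL.ultra_holo 𝒰 isOpen_ball zero_le_one hG hM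
    refine hy.congr ?_
    intro z hz
    have h1 : Tendsto (fun g : C(ball (0 : En n) 1, En N) => g ⟨z, hz⟩ i) 𝒰 (𝓝 (f ⟨z, hz⟩ i)) :=
      ((PiLp.continuous_apply 2 (fun _ : Fin N => ℂ) i).tendsto _).comp (hev ⟨z, hz⟩)
    have h2 : Tendsto (fun g : C(ball (0 : En n) 1, En N) => (if g ∈ Data n N δ then ext g z i else 0)) 𝒰
        (𝓝 (f ⟨z, hz⟩ i)) := by
      refine h1.congr' ?_
      filter_upwards [hmem] with g hg
      rw [if_pos hg, Pool.Agent.Lib.MP_ca0fc2_an.ZL.ext, dif_pos hz]
    have h3 := tendsto_nhds_unique h2 (hy2 z hz)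
    rw [Pool.Agent.Lib.MP_ca0fc2_an.ZL.ext, dif_pos hz]
    exact h3
  · intro z
    refine ⟨fun j => ?_, ?_⟩
    · have h1 : Tendsto (fun g : C(ball (0 : En n) 1, En N) => ‖g z j‖) 𝒰 (𝓝 ‖f z j‖) :=
        (((PiLp.continuous_apply 2 (fun _ : Fin N => ℂ) j).tendsto _).comp (hev z)).norm
      refine le_of_tendsto h1 ?_
      filter_upwards [hmem] with g hg
      exact (hg.2 z).1 j
    · refine ge_of_tendsto (hev z).norm ?_
      filter_upwards [hmem] with g hg
      exact (hg.2 z).2

end Pool.Agent.MPca0fc2.ZL
end

section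

/-! Campaign ZL (zero-one law), task BaA: the space of data is a nonempty Baire space. -/

set_option autoImplicit false

open Metric Set Filter Topology

namespace Pool.Agent.MPca0fc2.ZL

open Pool.Agent.MPca0fc2.TB (En)
open Pool.Agent.Lib.MP_ca0fc2_an.ZL (ext Data)

variable {n N : ℕ}

/-- PROOF. The constant map with the value `(1, …, 1)`; its norm is `√N ≥ 1` (or `≥` the modulus of a coordinate, `PiLp.norm_apply_le`). -/
theorem data_nonempty (hN : 1 ≤ N) {δ : ℝ} (hδ1 : δ ≤ 1) : (Data n N δ).Nonempty := by
  refine ⟨ContinuousMap.const _ (WithLp.toLp 2 (fun _ => (1 : ℂ))), ?_, ?_⟩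
  · refine (differentiableOn_const (WithLp.toLp 2 (fun _ => (1 : ℂ)) : En N)).congr ?_
    intro z hz
    unfold Lib.MP_ca0fc2_an.ZL.ext
    rw [dif_pos hz]
    rfl
  · intro z
    refine ⟨fun j => ?_, ?_⟩
    · simp
    · have h := PiLp.norm_apply_le (WithLp.toLp 2 (fun _ => (1 : ℂ)) : En N) ⟨0, hN⟩
      have h1 : ‖(WithLp.toLp 2 (fun _ => (1 : ℂ)) : En N) ⟨0, hN⟩‖ = 1 := by simp
      rw [h1] at h
      exact hδ1.trans h

/-- PROOF. `ball 0 1` is open in the finite dimensional space `En n`: locally compact (`isOpen_ball.locallyCompactSpace`), second countable, so sigma-compact and weakly locally compact; hence the uniformity of `C(ball, En N)` is countably generated (instance of Mathlib for `C(X, Y)`, `X` weakly locally compact and sigma-compact;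
search `IsCountablyGenerated (𝓤 C(`) and `C(ball, En N)` is complete (instance). So `C(ball, En N)` is completely metrizable, and so is the closed subset `Data n N δ` (`IsClosed.completeSpace_coe`; the uniformity of a subtype is countably generated: comap). A complete uniform space with a countably generated uniformity is a Baire space:
`UniformSpace.pseudoMetricSpace` / `BaireSpace.of_pseudoEMetricSpace_completeSpace` (`letI`). -/
theorem baire_data (δ : ℝ) : BaireSpace (Data n N δ) := by
  have : LocallyCompactSpace (ball (0 : En n) 1) := isOpen_ball.locallyCompactSpace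
  have : CompleteSpace (Data n N δ) := (isClosed_data δ).completeSpace_coe
  have : (uniformity (Data n N δ)).IsCountablyGenerated := by
    rw [uniformity_subtype]
    infer_instance
  let _ := UniformSpace.pseudoMetricSpace (Data n N δ)
  infer_instance

end Pool.Agent.MPca0fc2.ZL
end
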