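import Pool.Agent.Lib.MP_ca0fc2_an.Mg.G102
import Pool.Agent.Lib.MP_ca0fc2_an.FP.P1
import Pool.Agent.Lib.MP_ca0fc2_an.FP.P2
import Pool.Agent.Lib.MP_ca0fc2_an.FP.P3

section

/-! Campaign PD, row L1: solutions on the polydiscs. -/

set_option autoImplicit false

open Metric Set MeasureTheory Filter Topology
open scoped Real ComplexConjugate

namespace Pool.Agent.MPca0fc2.PD

variable {n N : ℕ}

/-- solutions on the polydisc (the unit ball of `ℂʳ` in the maximum norm) -/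
def PSolv {r N : ℕ} (f : Fin N → (Fin r → ℂ) → ℂ) (A : ℝ) : Prop :=
  ∃ h : Fin N → (Fin r → ℂ) → ℂ, (∀ j, DifferentiableOn ℂ (h j) (ball 0 1)) ∧
    ∀ t ∈ ball (0 : Fin r → ℂ) 1, ∑ j, f j t * h j t = 1 ∧ ∑ j, ‖h j t‖ ^ 2 ≤ A ^ 2

/-- a neighbourhood of the closed polydisc is mapped into the ball of radius `1 / ρ` -/
theorem exists_tau {ρ : ℝ} (hρ : 0 < ρ) (hρ1 : ρ < 1) {r : ℕ} {Γ : (Fin r → ℂ) → En n}
    (hd : Differentiable ℂ Γ) (hle : ∀ t, (∀ i, ‖t i‖ ≤ 1) → ‖Γ t‖ ≤ 1) :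
    ∃ τ : ℝ, 1 < τ ∧ ∀ t ∈ ball (0 : Fin r → ℂ) τ, ‖(ρ : ℂ) • Γ t‖ < 1 := by
  have hU : IsOpen {t : Fin r → ℂ | ‖(ρ : ℂ) • Γ t‖ < 1} :=
    isOpen_lt (hd.continuous.const_smul (ρ : ℂ)).norm continuous_const
  have hK : closedBall (0 : Fin r → ℂ) 1 ⊆ {t : Fin r → ℂ | ‖(ρ : ℂ) • Γ t‖ < 1} := by
    intro t ht
    have h1 : ‖Γ t‖ ≤ 1 := hle t fun i => (norm_le_pi_norm t i).trans (mem_closedBall_zero_iff.1 ht)
    show ‖(ρ : ℂ) • Γ t‖ < 1
    rw [norm_smul, Complex.norm_real, Real.norm_of_nonneg hρ.le]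
    nlinarith [norm_nonneg (Γ t)]
  obtain ⟨δ, hδ, hδ2⟩ := (isCompact_closedBall (0 : Fin r → ℂ) 1).exists_thickening_subset_open hU hK
  refine ⟨δ + 1, by linarith, fun t ht => ?_⟩
  rw [thickening_closedBall hδ zero_le_one] at hδ2
  exact hδ2 ht

end Pool.Agent.MPca0fc2.PD
end

section

/-! Campaign FP, row 4: the map of the ball of `c₀` into the ball of `ℂⁿ`. -/

set_option autoImplicit false

open Metric Set Filter Topology
open scoped ZeroAtInfty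

namespace Pool.Agent.MPca0fc2.FP

open Pool.Agent.MPca0fc2.PD

/-- the index set of the coordinates: `s_i` and `t^(k)_l` -/
abbrev Ix (r : ℕ → ℕ) := ℕ ⊕ (Σ k, Fin (r k + 1))

/-- the positions of the coordinates -/
def pos {r : ℕ → ℕ} (i : Ix r) : ℕ := Encodable.encode i

theorem pos_injective {r : ℕ → ℕ} : Function.Injective (pos (r := r)) :=
  Encodable.encode_injective

/-- the block `t_0 κ Γ(τ t)` -/
noncomputable def blk {n r : ℕ} (Γ : (Fin r → ℂ) → En n) (τ κ : ℝ) (t : Fin (r + 1) → ℂ) : En n :=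
  (t 0 * (κ : ℂ)) • Γ ((τ : ℂ) • Fin.tail t)

/-- `∑ e_k(s) blk_k(t^(k))` -/
noncomputable def GG {n : ℕ} {r : ℕ → ℕ} (Γ : ∀ k, (Fin (r k) → ℂ) → En n) (τ κ : ℕ → ℝ) (x : c0) :
    En n :=
  ∑' k, stick k (fun i => x (pos (r := r) (Sum.inl i))) •
    blk (Γ k) (τ k) (κ k) fun l => x (pos (r := r) (Sum.inr ⟨k, l⟩))

section

variable {n : ℕ} {r : ℕ → ℕ} {Γ : ∀ k, (Fin (r k) → ℂ) → En n} {τ κ : ℕ → ℝ}
  (hd : ∀ k, Differentiable ℂ (Γ k)) (h0 : ∀ k, Γ k 0 = 0)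
  (hτ : ∀ k, 1 < τ k)
  (hlt : ∀ k, ∀ t ∈ ball (0 : Fin (r k) → ℂ) (τ k), ‖(κ k : ℂ) • Γ k t‖ < 1)

include hτ hlt in
theorem blk_lt (k : ℕ) {t : Fin (r k + 1) → ℂ} (ht : ∀ l, ‖t l‖ < 1) :
    ‖blk (Γ k) (τ k) (κ k) t‖ < 1 := by
  have h1 : (τ k : ℂ) • Fin.tail t ∈ ball (0 : Fin (r k) → ℂ) (τ k) := by
    have hτ0 : 0 < τ k := one_pos.trans (hτ k)
    rw [mem_ball_zero_iff, norm_smul, Complex.norm_real, Real.norm_of_nonneg hτ0.le]
    have h2 : ‖Fin.tail t‖ < 1 := (pi_norm_lt_iff one_pos).2 fun i => ht i.succ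
    nlinarith
  have h3 := hlt k _ h1
  rw [blk, mul_smul, norm_smul]
  calc ‖t 0‖ * ‖(κ k : ℂ) • Γ k ((τ k : ℂ) • Fin.tail t)‖ ≤ 1 * ‖(κ k : ℂ) • Γ k ((τ k : ℂ) • Fin.tail t)‖ := by
        gcongr
        exact (ht 0).le
    _ < 1 := by rw [one_mul]; exact h3

include hd hτ hlt in
theorem GG_diff : DifferentiableOn ℂ (GG Γ τ κ) (ball 0 1) := by
  have hco : ∀ i : ℕ, Differentiable ℂ fun x : c0 => x i := coord_diff
  have hq : ∀ ρ : ℝ, 0 < ρ → ρ < 1 → Summable fun k : ℕ => (((1 + ρ) / 2) ^ 2) ^ (k + 1) := by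
    intro ρ h1 h2
    have h3 : ((1 + ρ) / 2) ^ 2 < 1 := by
      have h4 : (1 + ρ) / 2 < 1 := by linarith
      have h5 : 0 ≤ (1 + ρ) / 2 := by linarith
      nlinarith
    exact (summable_nat_add_iff 1).2 (summable_geometric_of_lt_one (by positivity) h3)
  refine differentiableOn_tsum_ball (T := fun k (x : c0) =>
    stick k (fun i => x (pos (r := r) (Sum.inl i))) •
      blk (Γ k) (τ k) (κ k) fun l => x (pos (r := r) (Sum.inr ⟨k, l⟩))) (fun k => ?_) hq ?_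
  · refine Differentiable.differentiableOn ?_
    have hs1 : Differentiable ℂ fun x : c0 => stick k (fun i => x (pos (r := r) (Sum.inl i))) := by
      unfold stick
      have h0 : Differentiable ℂ fun x : c0 => ((1 + x (pos (r := r) (Sum.inl k))) / 2) ^ 2 := by
        have h5 : Differentiable ℂ fun x : c0 => (1 + x (pos (r := r) (Sum.inl k))) / 2 := by
          simp only [div_eq_mul_inv]
          exact ((hco _).const_add (1 : ℂ)).mul_const _
        exact h5.pow 2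
      have h1 : ∀ i ∈ Finset.range k, Differentiable ℂ fun x : c0 =>
          ((1 - x (pos (r := r) (Sum.inl i))) / 2) ^ 2 := fun i _ => by
        have h5 : Differentiable ℂ fun x : c0 => (1 - x (pos (r := r) (Sum.inl i))) / 2 := by
          simp only [div_eq_mul_inv]
          exact ((hco _).const_sub (1 : ℂ)).mul_const _
        exact h5.pow 2
      have h2 : Differentiable ℂ fun x : c0 =>
          ∏ i ∈ Finset.range k, ((1 - x (pos (r := r) (Sum.inl i))) / 2) ^ 2 := by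
        have h6 : ∀ F : Finset ℕ, F ⊆ Finset.range k → Differentiable ℂ fun x : c0 =>
            ∏ i ∈ F, ((1 - x (pos (r := r) (Sum.inl i))) / 2) ^ 2 := by
          intro F
          induction F using Finset.induction_on with
          | empty => intro _; simp
          | insert a F ha ih =>
            intro hF
            simp only [Finset.prod_insert ha]
            exact (h1 a (hF (Finset.mem_insert_self a F))).mul
              (ih fun i hi => hF (Finset.mem_insert_of_mem hi))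
        exact h6 _ (Finset.Subset.refl _)
      exact h0.mul h2
    have hs2 : Differentiable ℂ fun x : c0 =>
        blk (Γ k) (τ k) (κ k) fun l => x (pos (r := r) (Sum.inr ⟨k, l⟩)) := by
      unfold blk
      have h2 : Differentiable ℂ fun x : c0 =>
          (Fin.tail fun l => x (pos (r := r) (Sum.inr ⟨k, l⟩)) : Fin (r k) → ℂ) :=
        differentiable_pi.2 fun l => hco _
      exact ((hco _).mul_const _).smul ((hd k).comp (h2.const_smul (τ k : ℂ)))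
    exact hs1.smul hs2
  · intro ρ h1 h2 k x hx
    rw [mem_ball_zero_iff] at hx
    have hx1 : ∀ i : ℕ, ‖x i‖ ≤ ρ := fun i => (coord_le x i).trans hx.le
    rw [norm_smul]
    have h3 := stick_le (s := fun i => x (pos (r := r) (Sum.inl i))) (fun i => hx1 _) k
    have h4 := blk_lt hτ hlt k (t := fun l => x (pos (r := r) (Sum.inr ⟨k, l⟩)))
      (fun l => (hx1 _).trans_lt h2)
    calc _ ≤ (((1 + ρ) / 2) ^ 2) ^ (k + 1) * 1 := by gcongr
      _ = _ := mul_one _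

include hτ hlt in
theorem GG_mem {x : c0} (hx : x ∈ ball 0 1) : GG Γ τ κ x ∈ ball 0 1 := by
  rw [mem_ball_zero_iff] at hx ⊢
  have hx1 : ∀ i : ℕ, ‖x i‖ < 1 := fun i => (coord_le x i).trans_lt hx
  exact (stick_ball (fun i => (hx1 _).le)
    (v := fun k => blk (Γ k) (τ k) (κ k) fun l => x (pos (r := r) (Sum.inr ⟨k, l⟩)))
    (fun k => blk_lt hτ hlt k fun l => hx1 _)).2

end

/-- the coordinates of the slice in the blocks -/
noncomputable def bvec {r : ℕ → ℕ} (k : ℕ) (c : ℂ) (u : Fin (r k) → ℂ) : ∀ k', Fin (r k' + 1) → ℂ :=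
  Function.update (fun k' => (0 : Fin (r k' + 1) → ℂ)) k (Fin.cons c u)

theorem bvec_self {r : ℕ → ℕ} (k : ℕ) (c : ℂ) (u : Fin (r k) → ℂ) :
    bvec (r := r) k c u k = Fin.cons c u := Function.update_self _ _ _

theorem bvec_ne {r : ℕ → ℕ} {k k' : ℕ} (h : k' ≠ k) (c : ℂ) (u : Fin (r k) → ℂ) :
    bvec (r := r) k c u k' = 0 := Function.update_of_ne h _ _

/-- all coordinates of the slice -/
noncomputable def avec {r : ℕ → ℕ} (k : ℕ) (c : ℂ) (u : Fin (r k) → ℂ) : Ix r → ℂ :=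
  Sum.elim (sk k) fun p => bvec (r := r) k c u p.1 p.2

/-- the support of the slice -/
def Fk (r : ℕ → ℕ) (k : ℕ) : Finset (Ix r) :=
  (Finset.range (k + 1)).disjSum (Finset.sigma {k} fun k' => (Finset.univ : Finset (Fin (r k' + 1))))

/-- the slice -/
noncomputable def iot {r : ℕ → ℕ} (k : ℕ) (c : ℂ) (u : Fin (r k) → ℂ) : c0 :=
  emb (pos (r := r)) (Fk r k) (avec (r := r) k c u)

theorem iot_inl {r : ℕ → ℕ} (k : ℕ) (c : ℂ) (u : Fin (r k) → ℂ) (i : ℕ) :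
    iot (r := r) k c u (pos (r := r) (Sum.inl i)) = sk k i := by
  unfold iot
  rw [emb_apply pos_injective]
  split_ifs with h
  · rfl
  · have h1 : ¬ i < k + 1 := fun h2 => h (Finset.inl_mem_disjSum.2 (Finset.mem_range.2 h2))
    unfold sk
    rw [if_neg (by omega), if_neg (by omega)]

theorem iot_inr {r : ℕ → ℕ} (k : ℕ) (c : ℂ) (u : Fin (r k) → ℂ) (k' : ℕ) (l : Fin (r k' + 1)) :
    iot (r := r) k c u (pos (r := r) (Sum.inr ⟨k', l⟩)) = bvec (r := r) k c u k' l := by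
  unfold iot
  rw [emb_apply pos_injective]
  split_ifs with h
  · rfl
  · have h1 : k' ≠ k := fun h2 => h (Finset.inr_mem_disjSum.2 (Finset.mem_sigma.2
      ⟨Finset.mem_singleton.2 h2, Finset.mem_univ _⟩))
    rw [bvec_ne h1]
    rfl

theorem iot_norm {r : ℕ → ℕ} {k : ℕ} {c : ℂ} {u : Fin (r k) → ℂ} {b : ℝ} (hb : bk k ≤ b)
    (hc : ‖c‖ ≤ b) (hu : ∀ l, ‖u l‖ ≤ b) : ‖iot (r := r) k c u‖ ≤ b := by
  have hb0 : 0 ≤ b := (bk_mem k).1.le.trans hb
  refine emb_norm pos_injective hb0 fun j _ => ?_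
  rcases j with i | ⟨k', l⟩
  · exact (sk_norm k i).trans hb
  · show ‖bvec (r := r) k c u k' l‖ ≤ b
    by_cases h : k' = k
    · subst h
      rw [bvec_self]
      refine Fin.cases ?_ (fun l => ?_) l
      · exact hc
      · exact hu l
    · rw [bvec_ne h]
      simpa using hb0

theorem iot_fin {r : ℕ → ℕ} (k : ℕ) : ∃ m : ℕ, ∀ (c : ℂ) (u : Fin (r k) → ℂ) (i : ℕ), m ≤ i →
    iot (r := r) k c u i = 0 := by
  refine ⟨(Fk r k).sup (pos (r := r)) + 1, fun c u i hi => ?_⟩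
  unfold iot emb
  refine Finset.sum_induction _ (fun x : c0 => x i = 0) (fun x y hx hy => ?_) rfl fun j hj => ?_
  · show x i + y i = 0
    rw [hx, hy, add_zero]
  · have h1 : pos (r := r) j ≤ (Fk r k).sup (pos (r := r)) := Finset.le_sup hj
    have h2 : i ≠ pos (r := r) j := by omega
    show avec (r := r) k c u j * (if i = pos (r := r) j then (1 : ℂ) else 0) = 0
    rw [if_neg h2, mul_zero]

theorem iot_diff {r : ℕ → ℕ} (k : ℕ) (c : ℂ) (a : ℂ) (U : Set (Fin (r k) → ℂ)) :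
    DifferentiableOn ℂ (fun t : Fin (r k) → ℂ => iot (r := r) k c (a • t)) U := by
  refine emb_diff fun j _ => ?_
  rcases j with i | ⟨k', l⟩
  · exact differentiableOn_const _
  · show DifferentiableOn ℂ (fun t : Fin (r k) → ℂ => bvec (r := r) k c (a • t) k' l) U
    by_cases h : k' = k
    · subst h
      simp only [bvec_self]
      refine Fin.cases ?_ (fun l => ?_) l
      · exact differentiableOn_const _
      · have h1 : Differentiable ℂ fun t : Fin (r k') → ℂ => a * t l :=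
          (differentiable_apply l).const_mul a
        exact h1.differentiableOn
    · simp only [bvec_ne h]
      exact differentiableOn_const _

theorem GG_iot {n : ℕ} {r : ℕ → ℕ} (Γ : ∀ k, (Fin (r k) → ℂ) → En n) (τ κ : ℕ → ℝ) (k : ℕ) (c : ℂ)
    (u : Fin (r k) → ℂ) :
    GG Γ τ κ (iot (r := r) k c u) = ((cc k : ℂ) * (c * κ k)) • Γ k ((τ k : ℂ) • u) := by
  unfold GG
  simp only [iot_inl, iot_inr]
  rw [tsum_eq_single k]
  · have h1 : (fun l => bvec (r := r) k c u k l) = Fin.cons c u := bvec_self k c u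
    have h2 : (fun i => sk k i) = sk k := rfl
    rw [h1, h2, stick_sk, blk, Fin.cons_zero, Fin.tail_cons, smul_smul]
  · intro k' hk'
    have h1 : (fun l => bvec (r := r) k c u k' l) = 0 := bvec_ne hk' c u
    rw [h1, blk]
    simp

/-- `exists_map` with slices of finite support -/
theorem exists_map_fin {n : ℕ} (hn : 2 ≤ n) : ∃ (r : ℕ → ℕ) (Γ : ∀ k, (Fin (r k) → ℂ) → En n)
    (τ κ : ℕ → ℝ) (G : c0 → En n) (ι : ∀ (k : ℕ), ℝ → (Fin (r k) → ℂ) → c0),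
    GoodU n r Γ ∧ (∀ k, 1 < τ k) ∧ Tendsto κ atTop (𝓝 1) ∧
    DifferentiableOn ℂ G (ball 0 1) ∧ (∀ x ∈ ball (0 : c0) 1, G x ∈ ball (0 : En n) 1) ∧
    (∀ k, ∃ m : ℕ, ∀ (ρ : ℝ) (t : Fin (r k) → ℂ) (i : ℕ), m ≤ i → ι k ρ t i = 0) ∧
    ∀ k ρ, 0 < ρ → ρ < κ k → DifferentiableOn ℂ (ι k ρ) (ball 0 (τ k)) ∧
      ∀ t ∈ ball (0 : Fin (r k) → ℂ) (τ k), ι k ρ t ∈ ball (0 : c0) 1 ∧
        G (ι k ρ t) = (ρ : ℂ) • Γ k t := by
  obtain ⟨r, Γ, hΓ, -⟩ := exists_goodU hn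
  let κ : ℕ → ℝ := fun k => 1 - 1 / ((k : ℝ) + 2)
  have hκ : ∀ k, 0 < κ k ∧ κ k < 1 := by
    intro k
    have h1 : (0 : ℝ) < (k : ℝ) + 2 := by positivity
    have h2 : 1 / ((k : ℝ) + 2) < 1 := by
      rw [div_lt_one h1]
      have : (0 : ℝ) ≤ k := Nat.cast_nonneg k
      linarith
    have h3 : 0 < 1 / ((k : ℝ) + 2) := by positivity
    exact ⟨by simp only [κ]; linarith, by simp only [κ]; linarith⟩
  have hκt : Tendsto κ atTop (𝓝 1) := by
    have h1 : Tendsto (fun k : ℕ => ((k : ℝ) + 2)) atTop atTop :=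
      tendsto_atTop_add_const_right _ _ tendsto_natCast_atTop_atTop
    have h2 : Tendsto (fun k : ℕ => 1 / ((k : ℝ) + 2)) atTop (𝓝 0) :=
      tendsto_const_nhds.div_atTop h1
    have h3 := h2.const_sub 1
    rwa [sub_zero] at h3
  have hex : ∀ k, ∃ τ : ℝ, 1 < τ ∧ ∀ t ∈ ball (0 : Fin (r k) → ℂ) τ, ‖(κ k : ℂ) • Γ k t‖ < 1 :=
    fun k => exists_tau (hκ k).1 (hκ k).2 (hΓ.diff k) (hΓ.le k)
  choose τ hτ1 hτ2 using hex
  refine ⟨r, Γ, τ, fun k => cc k * κ k, GG Γ τ κ,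
    fun k ρ t => iot (r := r) k ((ρ / (cc k * κ k) : ℝ) : ℂ) (((τ k)⁻¹ : ℝ) • t), hΓ, hτ1, ?_,
    GG_diff hΓ.diff hτ1 hτ2, fun x hx => GG_mem hτ1 hτ2 hx, ?_, ?_⟩
  · have h1 := cc_tendsto.mul hκt
    rwa [mul_one] at h1
  · intro k
    obtain ⟨m, hm⟩ := iot_fin (r := r) k
    exact ⟨m, fun ρ t i hi => hm _ _ i hi⟩
  · intro k ρ hρ hρk
    have hck := cc_mem k
    have hpos : 0 < cc k * κ k := mul_pos hck.1 (hκ k).1
    have hτ0 : 0 < τ k := one_pos.trans (hτ1 k)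
    refine ⟨?_, fun t ht => ⟨?_, ?_⟩⟩
    · have h1 := iot_diff (r := r) k ((ρ / (cc k * κ k) : ℝ) : ℂ) (((τ k)⁻¹ : ℝ) : ℂ) (ball 0 (τ k))
      refine h1.congr fun t _ => ?_
      rw [Complex.coe_smul]
    · rw [mem_ball_zero_iff] at ht ⊢
      have hq : ρ / (cc k * κ k) < 1 := (div_lt_one hpos).2 hρk
      have ht1 : ‖t‖ / τ k < 1 := (div_lt_one hτ0).2 ht
      have h2 : ‖iot (r := r) k ((ρ / (cc k * κ k) : ℝ) : ℂ) (((τ k)⁻¹ : ℝ) • t)‖ ≤
          max (bk k) (max (ρ / (cc k * κ k)) (‖t‖ / τ k)) := by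
        refine iot_norm (le_max_left _ _) ?_ fun l => ?_
        · rw [Complex.norm_real, Real.norm_of_nonneg (by positivity)]
          exact (le_max_left _ _).trans (le_max_right _ _)
        · rw [Pi.smul_apply, norm_smul, Real.norm_of_nonneg (by positivity)]
          refine le_trans ?_ ((le_max_right _ _).trans (le_max_right _ _))
          rw [div_eq_inv_mul]
          exact mul_le_mul_of_nonneg_left (norm_le_pi_norm t l) (by positivity)
      exact h2.trans_lt (max_lt (bk_mem k).2 (max_lt hq ht1))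
    · show GG Γ τ κ (iot (r := r) k ((ρ / (cc k * κ k) : ℝ) : ℂ) (((τ k)⁻¹ : ℝ) • t)) = _
      rw [GG_iot]
      have h3 : (τ k : ℂ) • (((τ k)⁻¹ : ℝ) • t) = t := by
        rw [Complex.coe_smul, smul_smul, mul_inv_cancel₀ hτ0.ne', one_smul]
      have h4 : (cc k : ℂ) * (((ρ / (cc k * κ k) : ℝ) : ℂ) * κ k) = (ρ : ℂ) := by
        rw [← Complex.ofReal_mul, ← Complex.ofReal_mul]
        congr 1
        have h5 : cc k ≠ 0 := hck.1.ne'
        have h6 : κ k ≠ 0 := (hκ k).1.ne'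
        field_simp
      rw [h3, h4]

/-- **The map.** `κ k` here is `cc k * κ k` for the family (`exists_goodU`, `exists_tau`); `ι k ρ t` is
`emb pos {..} (s^(k); t^(k) = (ρ / (cc k κ_k), t / τ_k))`. -/
theorem exists_map {n : ℕ} (hn : 2 ≤ n) : ∃ (r : ℕ → ℕ) (Γ : ∀ k, (Fin (r k) → ℂ) → En n)
    (τ κ : ℕ → ℝ) (G : c0 → En n) (ι : ∀ (k : ℕ), ℝ → (Fin (r k) → ℂ) → c0),
    GoodU n r Γ ∧ (∀ k, 1 < τ k) ∧ Tendsto κ atTop (𝓝 1) ∧
    DifferentiableOn ℂ G (ball 0 1) ∧ (∀ x ∈ ball (0 : c0) 1, G x ∈ ball (0 : En n) 1) ∧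
    ∀ k ρ, 0 < ρ → ρ < κ k → DifferentiableOn ℂ (ι k ρ) (ball 0 (τ k)) ∧
      ∀ t ∈ ball (0 : Fin (r k) → ℂ) (τ k), ι k ρ t ∈ ball (0 : c0) 1 ∧
        G (ι k ρ t) = (ρ : ℂ) • Γ k t := by
  obtain ⟨r, Γ, τ, κ, G, ι, h1, h2, h3, h4, h5, -, h6⟩ := exists_map_fin hn
  exact ⟨r, Γ, τ, κ, G, ι, h1, h2, h3, h4, h5, h6⟩

end Pool.Agent.MPca0fc2.FP
end
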