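import Pool.Agent.Lib.MP_ca0fc2_an.Mg.G103
import Pool.Agent.Lib.MP_ca0fc2_an.Mg.G107

section

/-! Campaign FP, row 5: the projection. -/

set_option autoImplicit false

open Metric Set MeasureTheory Filter Topology
open scoped Real ComplexConjugate

namespace Pool.Agent.MPca0fc2.PD

variable {n N : ℕ} {E : Type*} [NormedAddCommGroup E] [NormedSpace ℂ E]

/-- bounded holomorphic functions on the unit ball -/
def IsH (h : E → ℂ) : Prop :=
  DifferentiableOn ℂ h (ball 0 1) ∧ ∃ C : ℝ, ∀ x ∈ ball (0 : E) 1, ‖h x‖ ≤ C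

theorem IsH.add {h₁ h₂ : E → ℂ} (h1 : IsH h₁) (h2 : IsH h₂) : IsH fun x => h₁ x + h₂ x := by
  obtain ⟨d1, C1, b1⟩ := h1
  obtain ⟨d2, C2, b2⟩ := h2
  exact ⟨d1.add d2, C1 + C2, fun x hx => (norm_add_le _ _).trans (add_le_add (b1 x hx) (b2 x hx))⟩

theorem IsH.mul {h₁ h₂ : E → ℂ} (h1 : IsH h₁) (h2 : IsH h₂) : IsH fun x => h₁ x * h₂ x := by
  obtain ⟨d1, C1, b1⟩ := h1
  obtain ⟨d2, C2, b2⟩ := h2
  refine ⟨d1.mul d2, C1 * C2, fun x hx => ?_⟩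
  rw [norm_mul]
  exact mul_le_mul (b1 x hx) (b2 x hx) (norm_nonneg _) ((norm_nonneg _).trans (b1 x hx))

theorem IsH.const (c : ℂ) : IsH fun _ : E => c :=
  ⟨differentiableOn_const c, ‖c‖, fun _ _ => le_rfl⟩

theorem IsH.sum {ι : Type*} (s : Finset ι) {h : ι → E → ℂ} (hh : ∀ i ∈ s, IsH (h i)) :
    IsH fun x => ∑ i ∈ s, h i x := by
  classical
  induction s using Finset.induction_on with
  | empty => simpa using IsH.const (E := E) 0
  | insert a s ha ih =>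
    have h1 := (hh a (Finset.mem_insert_self a s)).add (ih fun i hi => hh i (Finset.mem_insert_of_mem hi))
    have h2 : (fun x => ∑ i ∈ insert a s, h i x) = fun x => h a x + ∑ i ∈ s, h i x := by
      funext x
      rw [Finset.sum_insert ha]
    rw [h2]
    exact h1

theorem IsH.comp {F : Type*} [NormedAddCommGroup F] [NormedSpace ℂ F] {φ : F → ℂ} (hφ : IsH φ)
    {G : E → F} (hG : DifferentiableOn ℂ G (ball 0 1)) (hm : ∀ x ∈ ball (0 : E) 1, G x ∈ ball (0 : F) 1) :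
    IsH fun x => φ (G x) :=
  ⟨hφ.1.comp hG hm, hφ.2.imp fun _ hC x hx => hC _ (hm x hx)⟩

/-- finite dimensional slices of the map `G` -/
def HasSlices (G : E → En n) (ρ : ℝ) : Prop :=
  ∃ (r : ℕ → ℕ) (Γ : ∀ k, (Fin (r k) → ℂ) → En n) (τ : ℕ → ℝ) (i : ∀ k, (Fin (r k) → ℂ) → E),
    Good n r Γ ∧ (∀ k, 1 < τ k) ∧ (∀ k, DifferentiableOn ℂ (i k) (ball 0 (τ k))) ∧
    (∀ k, ∀ t ∈ ball (0 : Fin (r k) → ℂ) (τ k), i k t ∈ ball (0 : E) 1) ∧
    ∀ k, ∀ t ∈ ball (0 : Fin (r k) → ℂ) (τ k), G (i k t) = (ρ : ℂ) • Γ k t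

/-- a contractive linear projection, module map over `φ ↦ φ (ρ ·)` -/
structure IsProj (G : E → En n) (ρ : ℝ) (P : (E → ℂ) → En n → ℂ) : Prop where
  diff : ∀ h, IsH h → DifferentiableOn ℂ (P h) (ball 0 1)
  norm : ∀ h, IsH h → ∀ C : ℝ, (∀ x ∈ ball (0 : E) 1, ‖h x‖ ≤ C) → ∀ w ∈ ball (0 : En n) 1, ‖P h w‖ ≤ C
  add : ∀ h₁ h₂, IsH h₁ → IsH h₂ → ∀ w ∈ ball (0 : En n) 1, P (fun x => h₁ x + h₂ x) w = P h₁ w + P h₂ w
  smul : ∀ (c : ℂ) (h), IsH h → ∀ w ∈ ball (0 : En n) 1, P (fun x => c * h x) w = c * P h w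
  one : ∀ w ∈ ball (0 : En n) 1, P (fun _ => 1) w = 1
  mod : ∀ φ h, IsH φ → IsH h → ∀ w ∈ ball (0 : En n) 1,
    P (fun x => φ (G x) * h x) w = φ ((ρ : ℂ) • w) * P h w

theorem exists_lim (𝒰 : Ultrafilter ℕ) {a : ℕ → ℂ} {C : ℝ} (h : ∀ k, ‖a k‖ ≤ C) :
    Tendsto a 𝒰 (𝓝 (limUnder (𝒰 : Filter ℕ) a)) := by
  refine tendsto_nhds_limUnder ?_
  have hc : IsCompact (closedBall (0 : ℂ) C) := isCompact_closedBall 0 C
  obtain ⟨y, -, hy2⟩ := hc.ultrafilter_le_nhds' (𝒰.map a) (by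
    rw [Ultrafilter.mem_map]
    exact Filter.univ_mem' fun k => mem_closedBall_zero_iff.mpr (h k))
  exact ⟨y, hy2⟩

theorem ball_eq_of_limUnder {U : Set (En n)} (hU : IsOpen U) (𝒰 : Ultrafilter ℕ) {a : ℕ → En n → ℂ} {C : ℝ} (hC0 : 0 ≤ C)
    (hd : ∀ k, DifferentiableOn ℂ (a k) U) (hC : ∀ k, ∀ w ∈ U, ‖a k w‖ ≤ C) :
    DifferentiableOn ℂ (fun w => limUnder (𝒰 : Filter ℕ) fun k => a k w) U := by
  obtain ⟨g, hg1, -, hg3⟩ := SL.ultra_holo 𝒰 hU hC0 hd hC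
  refine hg1.congr fun w hw => ?_
  exact (tendsto_nhds_unique (hg3 w hw) (exists_lim 𝒰 fun k => hC k w hw)).symm

/-- the projection for one dilation -/
theorem exists_proj_rho (hn : 2 ≤ n) {G : E → En n} {ρ : ℝ} (hρ : 0 < ρ) (hρ1 : ρ < 1)
    (hS : HasSlices G ρ) : ∃ P, IsProj G ρ P := by
  obtain ⟨r, Γ, τ, i, hΓ, hτ, hid, him, hiG⟩ := hS
  obtain ⟨𝒰, h𝒰⟩ : ∃ 𝒰 : Ultrafilter ℕ, (𝒰 : Filter ℕ) ≤ atTop := ⟨Ultrafilter.of atTop, Ultrafilter.of_le _⟩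
  obtain ⟨a, ha⟩ : ∃ a : (E → ℂ) → ℕ → En n → ℂ,
      a = fun h k w => M (r k) fun θ => h (i k (ex θ)) * K w (Γ k (ex θ)) := ⟨_, rfl⟩
  have hhd : ∀ h : E → ℂ, IsH h → ∀ k, DifferentiableOn ℂ (fun t => h (i k t)) (ball 0 (τ k)) :=
    fun h hh k => hh.1.comp (hid k) (him k)
  have hmem : ∀ k (θ : Fin (r k) → ℝ), i k (ex θ) ∈ ball (0 : E) 1 := fun k θ => him k _ (ex_mem (hτ k) θ)
  have hcont : ∀ h : E → ℂ, IsH h → ∀ k, Continuous fun θ : Fin (r k) → ℝ => h (i k (ex θ)) :=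
    fun h hh k => cont_ex (hτ k) (hhd h hh k)
  have had : ∀ h : E → ℂ, IsH h → ∀ k, DifferentiableOn ℂ (a h k) (ball 0 1) := by
    intro h hh k
    rw [ha]
    exact E_diff (hΓ.diff k) (hΓ.eq k) (hcont h hh k)
  have hab : ∀ h : E → ℂ, IsH h → ∀ C : ℝ, (∀ x ∈ ball (0 : E) 1, ‖h x‖ ≤ C) → ∀ k, ∀ w : En n, ‖w‖ < 1 →
      ‖a h k w‖ ≤ C * ((1 - ‖w‖) ^ n)⁻¹ := by
    intro h hh C hC k w hw
    rw [ha]
    exact E_bound (hΓ.diff k) (hΓ.eq k) (hcont h hh k) (fun θ => hC _ (hmem k θ)) hw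
  have hlim : ∀ h : E → ℂ, IsH h → ∀ w ∈ ball (0 : En n) 1,
      Tendsto (fun k => a h k w) 𝒰 (𝓝 (limUnder (𝒰 : Filter ℕ) fun k => a h k w)) := by
    intro h hh w hw
    obtain ⟨C, hC⟩ := hh.2
    exact exists_lim 𝒰 fun k => hab h hh C hC k w (mem_ball_zero_iff.1 hw)
  have hKc : ∀ w ∈ ball (0 : En n) 1, ∀ k, Continuous fun θ : Fin (r k) → ℝ => K w (Γ k (ex θ)) :=
    fun w hw k => K_cont (mem_ball_zero_iff.1 hw) (cont_Γ (hΓ.diff k)) fun θ => (hΓ.eq k θ).le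
  refine ⟨fun h w => limUnder (𝒰 : Filter ℕ) fun k => a h k w, ?_, ?_, ?_, ?_, ?_, ?_⟩
  · -- holomorphic
    intro h hh
    obtain ⟨C, hC⟩ := hh.2
    have hC0 : 0 ≤ C := (norm_nonneg _).trans (hC 0 (mem_ball_self one_pos))
    intro w hw
    have hw1 := mem_ball_zero_iff.1 hw
    obtain ⟨s, hs1, hs2⟩ := exists_between hw1
    have h0s : 0 ≤ ‖w‖ := norm_nonneg w
    have h1 : DifferentiableOn ℂ (fun w => limUnder (𝒰 : Filter ℕ) fun k => a h k w) (ball 0 s) :=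
      ball_eq_of_limUnder isOpen_ball 𝒰 (C := C * ((1 - s) ^ n)⁻¹)
        (by have := sub_pos.2 hs2; positivity)
        (fun k => (had h hh k).mono (ball_subset_ball hs2.le))
        (fun k z hz => by
          have h2 : ‖z‖ < s := mem_ball_zero_iff.1 hz
          refine (hab h hh C hC k z (h2.trans hs2)).trans ?_
          have h3 : 0 < 1 - s := sub_pos.2 hs2
          gcongr)
    exact (h1.differentiableAt (isOpen_ball.mem_nhds (mem_ball_zero_iff.2 hs1))).differentiableWithinAt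
  · -- norm
    intro h hh C hC w hw
    have hC0 : 0 ≤ C := (norm_nonneg _).trans (hC 0 (mem_ball_self one_pos))
    have h1 := L_norm (N := 1) hn hΓ hC0 hτ (h := fun k _ t => h (i k t)) (fun k _ => hhd h hh k)
      (fun k θ => by
        simp only [Finset.univ_unique, Finset.sum_const, Finset.card_singleton, one_smul]
        have := hC _ (hmem k θ)
        gcongr) (mem_ball_zero_iff.1 hw) h𝒰 (g := fun _ => limUnder (𝒰 : Filter ℕ) fun k => a h k w)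
      (fun _ => by
        have := hlim h hh w hw
        rw [ha] at this ⊢
        exact this)
    simp only [Finset.univ_unique, Finset.sum_const, Finset.card_singleton, one_smul] at h1
    exact le_of_sq_le_sq h1 hC0
  · -- additive
    intro h₁ h₂ hh₁ hh₂ w hw
    refine tendsto_nhds_unique (hlim _ (hh₁.add hh₂) w hw) ?_
    refine ((hlim h₁ hh₁ w hw).add (hlim h₂ hh₂ w hw)).congr fun k => ?_
    rw [ha]
    simp only [add_mul]
    have c₁ : Continuous fun θ : Fin (r k) → ℝ => h₁ (i k (ex θ)) * K w (Γ k (ex θ)) :=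
      (hcont h₁ hh₁ k).mul (hKc w hw k)
    have c₂ : Continuous fun θ : Fin (r k) → ℝ => h₂ (i k (ex θ)) * K w (Γ k (ex θ)) :=
      (hcont h₂ hh₂ k).mul (hKc w hw k)
    exact (M_add c₁ c₂).symm
  · -- homogeneous
    intro c h hh w hw
    refine tendsto_nhds_unique (hlim _ ((IsH.const c).mul hh) w hw) ?_
    refine ((hlim h hh w hw).const_mul c).congr fun k => ?_
    rw [ha]
    simp only [mul_assoc]
    rw [M_mul_left]
  · -- the constant function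
    intro w hw
    refine tendsto_nhds_unique (hlim _ (IsH.const 1) w hw) ?_
    refine tendsto_const_nhds.congr fun k => ?_
    rw [ha]
    simp only [one_mul]
    exact (M_K_one (hΓ.diff k) (hΓ.le k) (hΓ.zero k) (mem_ball_zero_iff.1 hw)).symm
  · -- the module property
    intro φ h hφ hh w hw
    obtain ⟨C, hC⟩ := hh.2
    have hφc : ContinuousOn (fun y : En n => φ ((ρ : ℂ) • y)) (closedBall 0 1) := by
      refine hφ.1.continuousOn.comp (by fun_prop) fun y hy => ?_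
      rw [mem_ball_zero_iff, norm_smul, Complex.norm_real, Real.norm_of_nonneg hρ.le]
      have := mem_closedBall_zero_iff.1 hy
      nlinarith [norm_nonneg y]
    have h1 := mod_lim hn hΓ hφc (fun ε hε => pol_dense hφ.1 hρ hρ1 hε) (H := fun k t => h (i k t)) hτ
      (fun k => hhd h hh k) (fun k θ => hC _ (hmem k θ)) (mem_ball_zero_iff.1 hw)
    have h2 := (h1.mono_left h𝒰).add ((hlim h hh w hw).const_mul (φ ((ρ : ℂ) • w)))
    rw [zero_add] at h2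
    have h3 : Tendsto (fun k => a (fun x => φ (G x) * h x) k w) 𝒰
        (𝓝 (φ ((ρ : ℂ) • w) * limUnder (𝒰 : Filter ℕ) fun k => a h k w)) := by
      refine h2.congr fun k => ?_
      rw [ha]
      simp only []
      have h4 : (fun θ : Fin (r k) → ℝ => φ (G (i k (ex θ))) * h (i k (ex θ)) * K w (Γ k (ex θ))) =
          fun θ => h (i k (ex θ)) * φ ((ρ : ℂ) • Γ k (ex θ)) * K w (Γ k (ex θ)) := by
        funext θ
        rw [hiG k _ (ex_mem (hτ k) θ)]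
        ring
      rw [h4]
      ring
    exact h3.limUnder_eq

/-- **The projection.** -/
theorem exists_proj (hn : 2 ≤ n) {G : E → En n}
    (hGd : DifferentiableOn ℂ G (ball 0 1)) (hGm : ∀ x ∈ ball (0 : E) 1, G x ∈ ball (0 : En n) 1)
    (hS : ∀ ρ, 0 < ρ → ρ < 1 → HasSlices G ρ) : ∃ P, IsProj G 1 P := by
  obtain ⟨q, hqdef⟩ : ∃ q : ℕ → ℝ, q = fun i : ℕ => 1 - 1 / ((i : ℝ) + 2) := ⟨_, rfl⟩
  have hq : ∀ i, 0 < q i ∧ q i < 1 := by
    intro i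
    have h1 : (0 : ℝ) < (i : ℝ) + 2 := by positivity
    subst hqdef
    constructor
    · simp only []
      rw [sub_pos, div_lt_one h1]
      have : (0 : ℝ) ≤ i := Nat.cast_nonneg i
      linarith
    · have : 0 < 1 / ((i : ℝ) + 2) := by positivity
      simp only []
      linarith
  have hq1 : Tendsto q atTop (𝓝 1) := by
    subst hqdef
    have h0 : Tendsto (fun i : ℕ => (1 : ℝ) - 1 / ((i : ℝ) + 2)) atTop (𝓝 (1 - 0)) := by
      apply Tendsto.sub tendsto_const_nhds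
      have h2 : Tendsto (fun i : ℕ => (i : ℝ) + 2) atTop atTop :=
        tendsto_atTop_add_const_right _ _ tendsto_natCast_atTop_atTop
      exact (tendsto_inv_atTop_zero.comp h2).congr fun i => by simp
    rwa [sub_zero] at h0
  choose P hP using fun m => exists_proj_rho hn (hq m).1 (hq m).2 (hS (q m) (hq m).1 (hq m).2)
  obtain ⟨𝒰, h𝒰⟩ : ∃ 𝒰 : Ultrafilter ℕ, (𝒰 : Filter ℕ) ≤ atTop := ⟨Ultrafilter.of atTop, Ultrafilter.of_le _⟩
  have hlim : ∀ h : E → ℂ, IsH h → ∀ w ∈ ball (0 : En n) 1,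
      Tendsto (fun m => P m h w) 𝒰 (𝓝 (limUnder (𝒰 : Filter ℕ) fun m => P m h w)) := by
    intro h hh w hw
    obtain ⟨C, hC⟩ := hh.2
    exact exists_lim 𝒰 fun m => (hP m).norm h hh C hC w hw
  refine ⟨fun h w => limUnder (𝒰 : Filter ℕ) fun m => P m h w, ?_, ?_, ?_, ?_, ?_, ?_⟩
  · intro h hh
    obtain ⟨C, hC⟩ := hh.2
    exact ball_eq_of_limUnder isOpen_ball 𝒰 ((norm_nonneg _).trans (hC 0 (mem_ball_self one_pos)))
      (fun m => (hP m).diff h hh) (fun m w hw => (hP m).norm h hh C hC w hw)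
  · intro h hh C hC w hw
    exact le_of_tendsto (hlim h hh w hw).norm (Eventually.of_forall fun m => (hP m).norm h hh C hC w hw)
  · intro h₁ h₂ hh₁ hh₂ w hw
    refine tendsto_nhds_unique (hlim _ (hh₁.add hh₂) w hw) ?_
    exact ((hlim h₁ hh₁ w hw).add (hlim h₂ hh₂ w hw)).congr fun m => ((hP m).add h₁ h₂ hh₁ hh₂ w hw).symm
  · intro c h hh w hw
    refine tendsto_nhds_unique (hlim _ ((IsH.const c).mul hh) w hw) ?_
    exact ((hlim h hh w hw).const_mul c).congr fun m => ((hP m).smul c h hh w hw).symm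
  · intro w hw
    refine tendsto_nhds_unique (hlim _ (IsH.const 1) w hw) ?_
    exact tendsto_const_nhds.congr fun m => ((hP m).one w hw).symm
  · intro φ h hφ hh w hw
    have h1 : Tendsto (fun m => φ ((q m : ℂ) • w)) 𝒰 (𝓝 (φ w)) := by
      have h2 : Tendsto (fun m : ℕ => (q m : ℂ) • w) atTop (𝓝 w) := by
        have h3 : Tendsto (fun m : ℕ => ((q m : ℝ) : ℂ)) atTop (𝓝 ((1 : ℝ) : ℂ)) :=
          (Complex.continuous_ofReal.tendsto 1).comp hq1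
        have h4 := h3.smul_const w
        simpa using h4
      have h5 : ContinuousAt φ w := hφ.1.continuousOn.continuousAt (isOpen_ball.mem_nhds hw)
      exact (h5.tendsto.comp h2).mono_left h𝒰
    have h2 := h1.mul (hlim h hh w hw)
    refine tendsto_nhds_unique (hlim _ ((hφ.comp hGd hGm).mul hh) w hw) ?_
    rw [Complex.ofReal_one, one_smul]
    exact h2.congr fun m => ((hP m).mod φ h hφ hh w hw).symm

/-- only the values on the ball matter -/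
theorem IsProj.congr {G : E → En n} {ρ : ℝ} {P : (E → ℂ) → En n → ℂ} (hP : IsProj G ρ P)
    {h₁ h₂ : E → ℂ} (hh₁ : IsH h₁) (hh₂ : IsH h₂) (he : ∀ x ∈ ball (0 : E) 1, h₁ x = h₂ x) {w : En n}
    (hw : w ∈ ball (0 : En n) 1) : P h₁ w = P h₂ w := by
  have h3 : IsH fun x => (-1 : ℂ) * h₂ x := (IsH.const _).mul hh₂
  have h1 := hP.norm _ (hh₁.add h3) 0 (fun x hx => by
    rw [he x hx]
    simp) w hw
  rw [hP.add _ _ hh₁ h3 w hw, hP.smul _ _ hh₂ w hw] at h1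
  have h2 : P h₁ w + -1 * P h₂ w = 0 := norm_le_zero_iff.1 h1
  linear_combination h2

/-- finite sums -/
theorem IsProj.sum {G : E → En n} {ρ : ℝ} {P : (E → ℂ) → En n → ℂ} (hP : IsProj G ρ P) {ι : Type*}
    (s : Finset ι) {h : ι → E → ℂ} (hh : ∀ i ∈ s, IsH (h i)) {w : En n} (hw : w ∈ ball (0 : En n) 1) :
    P (fun x => ∑ i ∈ s, h i x) w = ∑ i ∈ s, P (h i) w := by
  classical
  induction s using Finset.induction_on with
  | empty =>
    have h1 := hP.smul 0 (fun _ => 0) (IsH.const 0) w hw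
    simp only [zero_mul] at h1
    simpa using h1
  | insert a s ha ih =>
    have h2 : (fun x => ∑ i ∈ insert a s, h i x) = fun x => h a x + ∑ i ∈ s, h i x := by
      funext x
      rw [Finset.sum_insert ha]
    have hs : ∀ i ∈ s, IsH (h i) := fun i hi => hh i (Finset.mem_insert_of_mem hi)
    rw [h2, hP.add _ _ (hh a (Finset.mem_insert_self a s)) (IsH.sum s hs) w hw, ih hs,
      Finset.sum_insert ha]

/-- the projection does not increase euclidean norms of vector valued functions -/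
theorem IsProj.norm_vec {G : E → En n} {ρ : ℝ} {P : (E → ℂ) → En n → ℂ} (hP : IsProj G ρ P)
    {h : Fin N → E → ℂ} (hh : ∀ j, IsH (h j)) {A : ℝ} (hA : 0 ≤ A)
    (hb : ∀ x ∈ ball (0 : E) 1, ∑ j, ‖h j x‖ ^ 2 ≤ A ^ 2) {w : En n} (hw : w ∈ ball (0 : En n) 1) :
    ∑ j, ‖P (h j) w‖ ^ 2 ≤ A ^ 2 := by
  have hS : 0 ≤ ∑ j, ‖P (h j) w‖ ^ 2 := Finset.sum_nonneg fun j _ => sq_nonneg _
  have h1 : ∀ j, IsH fun x => conj (P (h j) w) * h j x := fun j => (IsH.const _).mul (hh j)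
  have h2 : P (fun x => ∑ j, conj (P (h j) w) * h j x) w = ((∑ j, ‖P (h j) w‖ ^ 2 : ℝ) : ℂ) := by
    rw [hP.sum Finset.univ (fun j _ => h1 j) hw, Complex.ofReal_sum]
    refine Finset.sum_congr rfl fun j _ => ?_
    rw [hP.smul _ _ (hh j) w hw, Complex.conj_mul', Complex.ofReal_pow]
  have h3 := hP.norm _ (IsH.sum Finset.univ fun j _ => h1 j) (√(∑ j, ‖P (h j) w‖ ^ 2) * A)
    (fun x hx => by
      refine (sum_mul_norm_le _ _).trans ?_
      simp only [RCLike.norm_conj]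
      refine mul_le_mul_of_nonneg_left ?_ (Real.sqrt_nonneg _)
      rw [Real.sqrt_le_left hA]
      exact hb x hx) w hw
  rw [h2, Complex.norm_real, Real.norm_of_nonneg hS] at h3
  have h8 : √(∑ j, ‖P (h j) w‖ ^ 2) ≤ A := by
    rcases (Real.sqrt_nonneg (∑ j, ‖P (h j) w‖ ^ 2)).eq_or_lt with h9 | h9
    · rw [← h9]
      exact hA
    · have h10 : √(∑ j, ‖P (h j) w‖ ^ 2) * √(∑ j, ‖P (h j) w‖ ^ 2) ≤ √(∑ j, ‖P (h j) w‖ ^ 2) * A := by
        rw [Real.mul_self_sqrt hS]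
        exact h3
      exact le_of_mul_le_mul_left h10 h9
  calc ∑ j, ‖P (h j) w‖ ^ 2 = √(∑ j, ‖P (h j) w‖ ^ 2) ^ 2 := (Real.sq_sqrt hS).symm
    _ ≤ A ^ 2 := by gcongr

/-- solutions on the unit ball of a Banach space -/
def ESolv (f : Fin N → E → ℂ) (A : ℝ) : Prop :=
  ∃ h : Fin N → E → ℂ, (∀ j, DifferentiableOn ℂ (h j) (ball 0 1)) ∧
    ∀ x ∈ ball (0 : E) 1, ∑ j, f j x * h j x = 1 ∧ ∑ j, ‖h j x‖ ^ 2 ≤ A ^ 2

/-- (E1): the corona constants of `f` and `f ∘ G` agree. -/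
theorem esolv_iff {G : E → En n}
    (hGd : DifferentiableOn ℂ G (ball 0 1)) (hGm : ∀ x ∈ ball (0 : E) 1, G x ∈ ball (0 : En n) 1)
    {P : (E → ℂ) → En n → ℂ} (hP : IsProj G 1 P) {f : Fin N → En n → ℂ} (hf : ∀ j, IsH (f j))
    {A : ℝ} (hA : 0 ≤ A) : BSolv f A ↔ ESolv (fun j x => f j (G x)) A := by
  constructor
  · rintro ⟨h, h1, h2⟩
    exact ⟨fun j x => h j (G x), fun j => (h1 j).comp hGd hGm, fun x hx => h2 _ (hGm x hx)⟩
  · rintro ⟨h, h1, h2⟩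
    have hh : ∀ j, IsH (h j) := fun j => ⟨h1 j, A, fun x hx => comp_le hA (h2 x hx).2 j⟩
    refine ⟨fun j => P (h j), fun j => hP.diff _ (hh j), fun w hw => ⟨?_, ?_⟩⟩
    · have h3 : ∀ j, IsH fun x => f j (G x) * h j x := fun j => ((hf j).comp hGd hGm).mul (hh j)
      have h4 : P (fun x => ∑ j, f j (G x) * h j x) w = ∑ j, f j w * P (h j) w := by
        rw [hP.sum Finset.univ (fun j _ => h3 j) hw]
        refine Finset.sum_congr rfl fun j _ => ?_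
        rw [hP.mod _ _ (hf j) (hh j) w hw, Complex.ofReal_one, one_smul]
      rw [← h4, ← hP.one w hw]
      exact hP.congr (IsH.sum Finset.univ fun j _ => h3 j) (IsH.const 1) (fun x hx => (h2 x hx).1) hw
    · exact hP.norm_vec hh hA (fun x hx => (h2 x hx).2) hw

end Pool.Agent.MPca0fc2.PD
end

section

/-! Campaign DS, row 9: transfer of the projection to a class of functions on the half plane. -/

set_option autoImplicit false

open Metric Set Filter Topology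
open scoped ComplexConjugate

namespace Pool.Agent.MPca0fc2.DS

open Pool.Agent.MPca0fc2.PD

variable {n N : ℕ} {E : Type*} [NormedAddCommGroup E] [NormedSpace ℂ E]

/-- `H ↦ H ∘ pt` is an isometric isomorphism of the algebra of the bounded holomorphic functions on the
unit ball of `E` onto the class `D` of functions on the half plane. -/
structure Corr (pt : ℂ → E) (D : (ℂ → ℂ) → Prop) : Prop where
  mem : ∀ s : ℂ, 0 < s.re → pt s ∈ ball (0 : E) 1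
  congr : ∀ F F' : ℂ → ℂ, D F → (∀ s : ℂ, 0 < s.re → F s = F' s) → D F'
  bdd : ∀ F : ℂ → ℂ, D F → ∃ C : ℝ, ∀ s : ℂ, 0 < s.re → ‖F s‖ ≤ C
  fwd : ∀ H : E → ℂ, IsH H → D fun s => H (pt s)
  uniq : ∀ H : E → ℂ, IsH H → (∀ s : ℂ, 0 < s.re → H (pt s) = 0) → ∀ x ∈ ball (0 : E) 1, H x = 0
  bwd : ∀ (F : ℂ → ℂ) (A : ℝ), D F → (∀ s : ℂ, 0 < s.re → ‖F s‖ ≤ A) →
    ∃ H : E → ℂ, IsH H ∧ (∀ x ∈ ball (0 : E) 1, ‖H x‖ ≤ A) ∧ ∀ s : ℂ, 0 < s.re → H (pt s) = F s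

namespace Corr

variable {pt : ℂ → E} {D : (ℂ → ℂ) → Prop}

theorem eq_of (hC : Corr pt D) {H₁ H₂ : E → ℂ} (h₁ : IsH H₁) (h₂ : IsH H₂)
    (h : ∀ s : ℂ, 0 < s.re → H₁ (pt s) = H₂ (pt s)) : ∀ x ∈ ball (0 : E) 1, H₁ x = H₂ x := by
  intro x hx
  have h3 : IsH fun x => (-1 : ℂ) * H₂ x := (IsH.const _).mul h₂
  have h4 := hC.uniq _ (h₁.add h3) (fun s hs => by
    rw [h s hs]
    ring) x hx
  linear_combination h4

theorem norm_of (hC : Corr pt D) {H : E → ℂ} (h : IsH H) {A : ℝ}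
    (hA : ∀ s : ℂ, 0 < s.re → ‖H (pt s)‖ ≤ A) : ∀ x ∈ ball (0 : E) 1, ‖H x‖ ≤ A := by
  intro x hx
  obtain ⟨H', h1, h2, h3⟩ := hC.bwd _ A (hC.fwd H h) hA
  rw [hC.eq_of h h1 (fun s hs => (h3 s hs).symm) x hx]
  exact h2 x hx

theorem lift (hC : Corr pt D) {F : ℂ → ℂ} (hF : D F) :
    ∃ H : E → ℂ, IsH H ∧ ∀ s : ℂ, 0 < s.re → H (pt s) = F s := by
  obtain ⟨A, hA⟩ := hC.bdd F hF
  obtain ⟨H, h1, -, h3⟩ := hC.bwd F A hF hA
  exact ⟨H, h1, h3⟩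

theorem add (hC : Corr pt D) {F₁ F₂ : ℂ → ℂ} (h₁ : D F₁) (h₂ : D F₂) : D fun s => F₁ s + F₂ s := by
  obtain ⟨H₁, a1, b1⟩ := hC.lift h₁
  obtain ⟨H₂, a2, b2⟩ := hC.lift h₂
  exact hC.congr _ _ (hC.fwd _ (a1.add a2)) fun s hs => by rw [b1 s hs, b2 s hs]

theorem mul (hC : Corr pt D) {F₁ F₂ : ℂ → ℂ} (h₁ : D F₁) (h₂ : D F₂) : D fun s => F₁ s * F₂ s := by
  obtain ⟨H₁, a1, b1⟩ := hC.lift h₁
  obtain ⟨H₂, a2, b2⟩ := hC.lift h₂
  exact hC.congr _ _ (hC.fwd _ (a1.mul a2)) fun s hs => by rw [b1 s hs, b2 s hs]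

theorem const (hC : Corr pt D) (c : ℂ) : D fun _ => c :=
  hC.congr _ _ (hC.fwd _ (IsH.const c)) fun _ _ => rfl

theorem comp (hC : Corr pt D) {G : E → En n} (hGd : DifferentiableOn ℂ G (ball 0 1))
    (hGm : ∀ x ∈ ball (0 : E) 1, G x ∈ ball (0 : En n) 1) {φ : En n → ℂ} (hφ : IsH φ) :
    D fun s => φ (G (pt s)) := hC.fwd _ (hφ.comp hGd hGm)

/-- euclidean norms of vectors of bounded functions -/
theorem norm_vec (hC : Corr pt D) {H : Fin N → E → ℂ} (hH : ∀ j, IsH (H j)) {A : ℝ} (hA : 0 ≤ A)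
    (hb : ∀ s : ℂ, 0 < s.re → ∑ j, ‖H j (pt s)‖ ^ 2 ≤ A ^ 2) {x : E} (hx : x ∈ ball (0 : E) 1) :
    ∑ j, ‖H j x‖ ^ 2 ≤ A ^ 2 := by
  have hS : 0 ≤ ∑ j, ‖H j x‖ ^ 2 := Finset.sum_nonneg fun j _ => sq_nonneg _
  have h1 : ∀ j, IsH fun y => conj (H j x) * H j y := fun j => (IsH.const _).mul (hH j)
  have h3 := hC.norm_of (IsH.sum Finset.univ fun j _ => h1 j) (A := √(∑ j, ‖H j x‖ ^ 2) * A)
    (fun s hs => by
      refine (sum_mul_norm_le _ _).trans ?_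
      simp only [RCLike.norm_conj]
      refine mul_le_mul_of_nonneg_left ?_ (Real.sqrt_nonneg _)
      rw [Real.sqrt_le_left hA]
      exact hb s hs) x hx
  have h2 : ∑ j, conj (H j x) * H j x = ((∑ j, ‖H j x‖ ^ 2 : ℝ) : ℂ) := by
    rw [Complex.ofReal_sum]
    exact Finset.sum_congr rfl fun j _ => by rw [Complex.conj_mul', Complex.ofReal_pow]
  rw [h2, Complex.norm_real, Real.norm_of_nonneg hS] at h3
  have h8 : √(∑ j, ‖H j x‖ ^ 2) ≤ A := by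
    rcases (Real.sqrt_nonneg (∑ j, ‖H j x‖ ^ 2)).eq_or_lt with h9 | h9
    · rw [← h9]
      exact hA
    · have h10 : √(∑ j, ‖H j x‖ ^ 2) * √(∑ j, ‖H j x‖ ^ 2) ≤ √(∑ j, ‖H j x‖ ^ 2) * A := by
        rw [Real.mul_self_sqrt hS]
        exact h3
      exact le_of_mul_le_mul_left h10 h9
  calc ∑ j, ‖H j x‖ ^ 2 = √(∑ j, ‖H j x‖ ^ 2) ^ 2 := (Real.sq_sqrt hS).symm
    _ ≤ A ^ 2 := by gcongr

end Corr

/-- a linear contraction of the class `D` onto the bounded holomorphic functions on the ball, module map over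
`φ ↦ φ ∘ g` -/
structure IsProjD (D : (ℂ → ℂ) → Prop) (g : ℂ → En n) (Q : (ℂ → ℂ) → En n → ℂ) : Prop where
  diff : ∀ F, D F → DifferentiableOn ℂ (Q F) (ball 0 1)
  norm : ∀ F, D F → ∀ C : ℝ, (∀ s : ℂ, 0 < s.re → ‖F s‖ ≤ C) → ∀ w ∈ ball (0 : En n) 1, ‖Q F w‖ ≤ C
  add : ∀ F₁ F₂, D F₁ → D F₂ → ∀ w ∈ ball (0 : En n) 1, Q (fun s => F₁ s + F₂ s) w = Q F₁ w + Q F₂ w
  smul : ∀ (c : ℂ) (F), D F → ∀ w ∈ ball (0 : En n) 1, Q (fun s => c * F s) w = c * Q F w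
  one : ∀ w ∈ ball (0 : En n) 1, Q (fun _ => 1) w = 1
  mod : ∀ φ F, IsH φ → D F → ∀ w ∈ ball (0 : En n) 1, Q (fun s => φ (g s) * F s) w = φ w * Q F w

/-- transfer of the projection -/
theorem exists_projD {pt : ℂ → E} {D : (ℂ → ℂ) → Prop} (hC : Corr pt D) {G : E → En n}
    (hGd : DifferentiableOn ℂ G (ball 0 1)) (hGm : ∀ x ∈ ball (0 : E) 1, G x ∈ ball (0 : En n) 1)
    {P : (E → ℂ) → En n → ℂ} (hP : IsProj G 1 P) : ∃ Q, IsProjD D (fun s => G (pt s)) Q := by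
  classical
  -- the lift
  have hl : ∀ F : ℂ → ℂ, ∃ H : E → ℂ, D F → IsH H ∧ ∀ s : ℂ, 0 < s.re → H (pt s) = F s := by
    intro F
    by_cases hF : D F
    · obtain ⟨H, h1, h2⟩ := hC.lift hF
      exact ⟨H, fun _ => ⟨h1, h2⟩⟩
    · exact ⟨0, fun h => absurd h hF⟩
  choose L hL using hl
  have key : ∀ (F : ℂ → ℂ) (H : E → ℂ), D F → IsH H → (∀ s : ℂ, 0 < s.re → H (pt s) = F s) →
      ∀ w ∈ ball (0 : En n) 1, P (L F) w = P H w := by
    intro F H hF hH he w hw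
    exact hP.congr (hL F hF).1 hH (hC.eq_of (hL F hF).1 hH fun s hs => by
      rw [(hL F hF).2 s hs, he s hs]) hw
  refine ⟨fun F => P (L F), ?_, ?_, ?_, ?_, ?_, ?_⟩
  · exact fun F hF => hP.diff _ (hL F hF).1
  · intro F hF C hb w hw
    exact hP.norm _ (hL F hF).1 C (hC.norm_of (hL F hF).1 fun s hs => by
      rw [(hL F hF).2 s hs]
      exact hb s hs) w hw
  · intro F₁ F₂ h₁ h₂ w hw
    rw [key _ (fun x => L F₁ x + L F₂ x) (hC.add h₁ h₂) ((hL _ h₁).1.add (hL _ h₂).1)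
      (fun s hs => by rw [(hL _ h₁).2 s hs, (hL _ h₂).2 s hs]) w hw]
    exact hP.add _ _ (hL _ h₁).1 (hL _ h₂).1 w hw
  · intro c F hF w hw
    rw [key _ (fun x => c * L F x) (hC.mul (hC.const c) hF) ((IsH.const c).mul (hL _ hF).1)
      (fun s hs => by rw [(hL _ hF).2 s hs]) w hw]
    exact hP.smul c _ (hL _ hF).1 w hw
  · intro w hw
    rw [key _ (fun _ => 1) (hC.const 1) (IsH.const 1) (fun _ _ => rfl) w hw]
    exact hP.one w hw
  · intro φ F hφ hF w hw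
    rw [key _ (fun x => φ (G x) * L F x) (hC.mul (hC.comp hGd hGm hφ) hF)
      ((hφ.comp hGd hGm).mul (hL _ hF).1) (fun s hs => by rw [(hL _ hF).2 s hs]) w hw,
      hP.mod φ _ hφ (hL _ hF).1 w hw, Complex.ofReal_one, one_smul]

/-- solutions in the class `D` -/
def DSolv (D : (ℂ → ℂ) → Prop) (f : Fin N → ℂ → ℂ) (A : ℝ) : Prop :=
  ∃ F : Fin N → ℂ → ℂ, (∀ j, D (F j)) ∧
    ∀ s : ℂ, 0 < s.re → ∑ j, f j s * F j s = 1 ∧ ∑ j, ‖F j s‖ ^ 2 ≤ A ^ 2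

/-- (E1) for the class `D` -/
theorem dsolv_iff {pt : ℂ → E} {D : (ℂ → ℂ) → Prop} (hC : Corr pt D) {G : E → En n}
    (hGd : DifferentiableOn ℂ G (ball 0 1)) (hGm : ∀ x ∈ ball (0 : E) 1, G x ∈ ball (0 : En n) 1)
    {P : (E → ℂ) → En n → ℂ} (hP : IsProj G 1 P) {f : Fin N → En n → ℂ} (hf : ∀ j, IsH (f j))
    {A : ℝ} (hA : 0 ≤ A) : BSolv f A ↔ DSolv D (fun j s => f j (G (pt s))) A := by
  rw [esolv_iff hGd hGm hP hf hA]
  constructor
  · rintro ⟨h, h1, h2⟩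
    have hh : ∀ j, IsH (h j) := fun j => ⟨h1 j, A, fun x hx => comp_le hA (h2 x hx).2 j⟩
    exact ⟨fun j s => h j (pt s), fun j => hC.fwd _ (hh j), fun s hs => h2 _ (hC.mem s hs)⟩
  · rintro ⟨F, h1, h2⟩
    choose H hH1 hH2 using fun j => hC.lift (h1 j)
    refine ⟨H, fun j => (hH1 j).1, fun x hx => ⟨?_, ?_⟩⟩
    · have h3 : ∀ j, IsH fun x => f j (G x) * H j x := fun j => ((hf j).comp hGd hGm).mul (hH1 j)
      exact hC.eq_of (IsH.sum Finset.univ fun j _ => h3 j) (IsH.const 1) (fun s hs => by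
        rw [← (h2 s hs).1]
        exact Finset.sum_congr rfl fun j _ => by rw [hH2 j s hs]) x hx
    · refine hC.norm_vec hH1 hA (fun s hs => ?_) hx
      simp only [hH2 _ s hs]
      exact (h2 s hs).2

/-- composition with `g` is isometric -/
theorem isometric {D : (ℂ → ℂ) → Prop} {g : ℂ → En n} {Q : (ℂ → ℂ) → En n → ℂ} (hQ : IsProjD D g Q)
    (hg : ∀ φ : En n → ℂ, IsH φ → D fun s => φ (g s)) (h1 : D fun _ => 1) {φ : En n → ℂ} (hφ : IsH φ)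
    {C : ℝ} (hC : ∀ s : ℂ, 0 < s.re → ‖φ (g s)‖ ≤ C) : ∀ w ∈ ball (0 : En n) 1, ‖φ w‖ ≤ C := by
  intro w hw
  have h2 := hQ.mod φ (fun _ => 1) hφ h1 w hw
  simp only [mul_one] at h2
  rw [hQ.one w hw, mul_one] at h2
  rw [← h2]
  exact hQ.norm _ (hg φ hφ) C hC w hw

end Pool.Agent.MPca0fc2.DS
end

section

/-! Campaign FP, row 5: the projection. -/

set_option autoImplicit false

open Metric Set Filter Topology
open scoped ZeroAtInfty

namespace Pool.Agent.MPca0fc2.FP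

open Pool.Agent.MPca0fc2.PD

/-- the map and the projection -/
theorem exists_isProj {n : ℕ} (hn : 2 ≤ n) : ∃ (G : c0 → En n) (P : (c0 → ℂ) → En n → ℂ),
    DifferentiableOn ℂ G (ball 0 1) ∧ (∀ x ∈ ball (0 : c0) 1, G x ∈ ball (0 : En n) 1) ∧
    IsProj G 1 P := by
  obtain ⟨r, Γ, τ, κ, G, ι, hΓ, hτ, hκ, hGd, hGm, hι⟩ := exists_map hn
  have hS : ∀ ρ, 0 < ρ → ρ < 1 → HasSlices G ρ := by
    intro ρ hρ hρ1
    obtain ⟨k₀, hk₀⟩ := eventually_atTop.1 (hκ.eventually (Ioi_mem_nhds hρ1))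
    have hk : ∀ m, ρ < κ (m + k₀) := fun m => hk₀ (m + k₀) (Nat.le_add_left k₀ m)
    refine ⟨fun m => r (m + k₀), fun m => Γ (m + k₀), fun m => τ (m + k₀), fun m => ι (m + k₀) ρ,
      hΓ.comp (tendsto_add_atTop_nat k₀), fun m => hτ _, fun m => (hι _ ρ hρ (hk m)).1,
      fun m t ht => ((hι _ ρ hρ (hk m)).2 t ht).1, fun m t ht => ((hι _ ρ hρ (hk m)).2 t ht).2⟩
  obtain ⟨P, hP⟩ := Pool.Agent.MPca0fc2.PD.exists_proj hn hGd hGm hS
  exact ⟨G, P, hGd, hGm, hP⟩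

/-- the unbundled form of the projection -/
theorem unbundle {n : ℕ} {G : c0 → En n} {P : (c0 → ℂ) → En n → ℂ} (hP : IsProj G 1 P) :
    (∀ (h : c0 → ℂ) (C : ℝ), DifferentiableOn ℂ h (ball 0 1) → (∀ x ∈ ball (0 : c0) 1, ‖h x‖ ≤ C) →
      DifferentiableOn ℂ (P h) (ball 0 1) ∧ ∀ z ∈ ball (0 : En n) 1, ‖P h z‖ ≤ C) ∧
    (∀ (h k : c0 → ℂ) (a : ℂ) (C : ℝ), DifferentiableOn ℂ h (ball 0 1) →
      DifferentiableOn ℂ k (ball 0 1) → (∀ x ∈ ball (0 : c0) 1, ‖h x‖ ≤ C ∧ ‖k x‖ ≤ C) →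
      ∀ z ∈ ball (0 : En n) 1, P (fun x => h x + a * k x) z = P h z + a * P k z) ∧
    (∀ z ∈ ball (0 : En n) 1, P (fun _ => 1) z = 1) ∧
    ∀ (φ : En n → ℂ) (h : c0 → ℂ) (C : ℝ), DifferentiableOn ℂ φ (ball 0 1) →
      (∀ z ∈ ball (0 : En n) 1, ‖φ z‖ ≤ C) → DifferentiableOn ℂ h (ball 0 1) →
      (∀ x ∈ ball (0 : c0) 1, ‖h x‖ ≤ C) →
      ∀ z ∈ ball (0 : En n) 1, P (fun x => φ (G x) * h x) z = φ z * P h z := by
  refine ⟨fun h C hd hC => ⟨hP.diff h ⟨hd, C, hC⟩, hP.norm h ⟨hd, C, hC⟩ C hC⟩,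
    fun h k a C hd kd hC z hz => ?_, hP.one, fun φ h C φd φC hd hC z hz => ?_⟩
  · have h1 : IsH h := ⟨hd, C, fun x hx => (hC x hx).1⟩
    have h2 : IsH k := ⟨kd, C, fun x hx => (hC x hx).2⟩
    rw [hP.add h (fun x => a * k x) h1 ((IsH.const a).mul h2) z hz, hP.smul a k h2 z hz]
  · rw [hP.mod φ h ⟨φd, C, φC⟩ ⟨hd, C, hC⟩ z hz, Complex.ofReal_one, one_smul]

/-- **Forelli's projection for the ball.** -/
theorem exists_proj {n : ℕ} (hn : 2 ≤ n) : ∃ (G : c0 → En n) (P : (c0 → ℂ) → En n → ℂ),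
    DifferentiableOn ℂ G (ball 0 1) ∧ (∀ x ∈ ball (0 : c0) 1, G x ∈ ball (0 : En n) 1) ∧
    (∀ (h : c0 → ℂ) (C : ℝ), DifferentiableOn ℂ h (ball 0 1) → (∀ x ∈ ball (0 : c0) 1, ‖h x‖ ≤ C) →
      DifferentiableOn ℂ (P h) (ball 0 1) ∧ ∀ z ∈ ball (0 : En n) 1, ‖P h z‖ ≤ C) ∧
    (∀ (h k : c0 → ℂ) (a : ℂ) (C : ℝ), DifferentiableOn ℂ h (ball 0 1) →
      DifferentiableOn ℂ k (ball 0 1) → (∀ x ∈ ball (0 : c0) 1, ‖h x‖ ≤ C ∧ ‖k x‖ ≤ C) →
      ∀ z ∈ ball (0 : En n) 1, P (fun x => h x + a * k x) z = P h z + a * P k z) ∧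
    (∀ z ∈ ball (0 : En n) 1, P (fun _ => 1) z = 1) ∧
    ∀ (φ : En n → ℂ) (h : c0 → ℂ) (C : ℝ), DifferentiableOn ℂ φ (ball 0 1) →
      (∀ z ∈ ball (0 : En n) 1, ‖φ z‖ ≤ C) → DifferentiableOn ℂ h (ball 0 1) →
      (∀ x ∈ ball (0 : c0) 1, ‖h x‖ ≤ C) →
      ∀ z ∈ ball (0 : En n) 1, P (fun x => φ (G x) * h x) z = φ z * P h z := by
  obtain ⟨G, P, hGd, hGm, hP⟩ := exists_isProj hn
  exact ⟨G, P, hGd, hGm, unbundle hP⟩

/-- (E1) for the map `G`: the corona constants of `f` on the ball and of `f ∘ G` on the unit ball of `c₀`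
agree. -/
theorem exists_corona {n : ℕ} (hn : 2 ≤ n) : ∃ (G : c0 → En n) (P : (c0 → ℂ) → En n → ℂ),
    DifferentiableOn ℂ G (ball 0 1) ∧ (∀ x ∈ ball (0 : c0) 1, G x ∈ ball (0 : En n) 1) ∧
    IsProj G 1 P ∧ ∀ (N : ℕ) (f : Fin N → En n → ℂ), (∀ j, IsH (f j)) → ∀ A, 0 ≤ A →
      (BSolv f A ↔ ESolv (fun j x => f j (G x)) A) := by
  obtain ⟨G, P, hGd, hGm, hP⟩ := exists_isProj hn
  exact ⟨G, P, hGd, hGm, hP, fun N f hf A hA => esolv_iff hGd hGm hP hf hA⟩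

end Pool.Agent.MPca0fc2.FP
end
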