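import Pool.Agent.Lib.MP_ca0fc2_an.Mg.G074
import Pool.Agent.Lib.MP_ca0fc2_an.TB.Defs

section

/-! The second order description of the domain near a boundary point. -/

set_option autoImplicit false

open Metric Set Filter Topology

namespace Pool.Agent.MPca0fc2.TB

open Pool.Agent.Lib.MP_ca0fc2_an (SupportData)

variable {n : ℕ}

/-- PROOF. `g z = Re (w z) + ρ z` is `C²` on `ball p r`, `g p = 0`, `g ≥ c ‖z - p‖² ≥ 0`, so `p` is a local minimum and
`fderiv ℝ g p = 0` (`IsLocalMin.fderiv_eq_zero`). `B = (1/2) fderiv ℝ (fderiv ℝ g) p` (`taylor2`). `Bpos`: for `v` and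
small `t > 0`, `c t² ‖v‖² ≤ g (p + t v) ≤ t² B v v + ε t² ‖v‖²`; divide by `t²`, let `ε → 0`. `loc1`: for
`z ∈ closure D` near `p`, `ρ z ≤ 0` (`loc'`), so `Re w z = g z - ρ z ≥ g z ≥ B (z - p) (z - p) - ε ‖z - p‖²`.
`loc2`: `ρ z = g z - Re w z ≤ B (z - p) (z - p) + ε ‖z - p‖² - Re w z < 0`, then `loc`. -/
theorem tp_of_pk {D : Set (En n)} {p : En n} {w : En n → ℂ} {ρ : En n → ℝ} {V : Set (En n)}
    {r c : ℝ} (h : PK D p w ρ V r c) : ∃ B, TP D p w B V r c := by
  set g : En n → ℝ := fun z => (w z).re + ρ z with hg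
  have hpball : ball p r ∈ 𝓝 p := ball_mem_nhds p h.r0
  have hgc : ContDiffAt ℝ 2 g p := by
    have h1 : ContDiffOn ℝ 2 (fun z => (w z).re) (ball p r) :=
      Complex.reCLM.contDiff.comp_contDiffOn (h.cw.mono h.bV)
    exact (h1.add h.cρ).contDiffAt hpball
  have hg0 : g p = 0 := by
    simp only [hg, h.w0, h.ρ0, Complex.zero_re, add_zero]
  have hmin : IsLocalMin g p := by
    filter_upwards [hpball] with z hz
    rw [hg0]
    exact (mul_nonneg h.c0.le (sq_nonneg _)).trans (h.sup z hz)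
  have h0 : fderiv ℝ g p = 0 := hmin.fderiv_eq_zero
  obtain ⟨hsym, htay⟩ := taylor2 hgc h0
  set B : En n →L[ℝ] En n →L[ℝ] ℝ := (1 / 2 : ℝ) • fderiv ℝ (fderiv ℝ g) p with hB
  have hBv : ∀ u v, B u v = (1 / 2) * fderiv ℝ (fderiv ℝ g) p u v := by
    intro u v
    simp [hB]
  have key : ∀ ε > 0, ∃ s > 0, s ≤ r ∧ ∀ z, ‖z - p‖ < s →
      |g z - B (z - p) (z - p)| ≤ ε * ‖z - p‖ ^ 2 := by
    intro ε hε
    obtain ⟨s, hs, hz⟩ := htay ε hε
    refine ⟨min s r, lt_min hs h.r0, min_le_right _ _, fun z hzs => ?_⟩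
    have h1 := hz z (hzs.trans_le (min_le_left _ _))
    rw [hBv]
    rwa [hg0, sub_zero] at h1
  refine ⟨B, h.r0, h.c0, h.bdd, h.dopn, h.pcl, h.opn, h.clV, h.bV, h.hol, h.cw, h.w0, h.dw, h.pos,
    ?_, ?_, ?_, ?_⟩
  · intro u v
    rw [hBv, hBv, hsym]
  · intro v
    refine le_of_forall_pos_le_add fun ε hε => ?_
    have hv : 0 < ‖v‖ ^ 2 + 1 := by positivity
    obtain ⟨s, hs, hsr, hz⟩ := key (ε / (‖v‖ ^ 2 + 1)) (by positivity)
    set t : ℝ := s / (2 * (‖v‖ + 1)) with ht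
    have hv1 : 0 < ‖v‖ + 1 := by positivity
    have ht0 : 0 < t := by positivity
    have htv : ‖t • v‖ < s := by
      rw [norm_smul, Real.norm_of_nonneg ht0.le, ht, div_mul_eq_mul_div, div_lt_iff₀ (by positivity)]
      nlinarith [norm_nonneg v]
    have hzp : p + t • v - p = t • v := add_sub_cancel_left _ _
    have h1 := hz (p + t • v) (by rw [hzp]; exact htv)
    have h2 := h.sup (p + t • v) (by
      rw [mem_ball, dist_eq_norm, hzp]
      exact htv.trans_le hsr)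
    rw [hzp] at h1 h2
    have h3 : B (t • v) (t • v) = t ^ 2 * B v v := by
      rw [map_smul, map_smul]
      simp only [ContinuousLinearMap.smul_apply, smul_eq_mul]
      ring
    have h4 : ‖t • v‖ ^ 2 = t ^ 2 * ‖v‖ ^ 2 := by
      rw [norm_smul, Real.norm_of_nonneg ht0.le, mul_pow]
    rw [h3, h4] at h1
    rw [h4] at h2
    have h5 := (abs_le.1 h1).2
    have h6 : c * (t ^ 2 * ‖v‖ ^ 2) ≤ t ^ 2 * B v v + ε / (‖v‖ ^ 2 + 1) * (t ^ 2 * ‖v‖ ^ 2) := by
      have h7 : c * (t ^ 2 * ‖v‖ ^ 2) ≤ g (p + t • v) := h2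
      linarith
    have h8 : t ^ 2 * (c * ‖v‖ ^ 2) ≤ t ^ 2 * (B v v + ε / (‖v‖ ^ 2 + 1) * ‖v‖ ^ 2) := by
      linarith
    have h9 : c * ‖v‖ ^ 2 ≤ B v v + ε / (‖v‖ ^ 2 + 1) * ‖v‖ ^ 2 :=
      le_of_mul_le_mul_left h8 (by positivity)
    have h10 : ε / (‖v‖ ^ 2 + 1) * ‖v‖ ^ 2 ≤ ε := by
      rw [div_mul_eq_mul_div, div_le_iff₀ hv]
      nlinarith
    linarith
  · intro ε hε
    obtain ⟨s, hs, hsr, hz⟩ := key ε hε
    refine ⟨s, hs, fun z hzc hzs => ?_⟩
    have h1 := (abs_le.1 (hz z hzs)).1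
    have h2 := h.loc' z (by rw [mem_ball, dist_eq_norm]; exact hzs.trans_le hsr) hzc
    have h3 : g z = (w z).re + ρ z := rfl
    linarith
  · intro ε hε
    obtain ⟨s, hs, hsr, hz⟩ := key ε hε
    refine ⟨s, hs, fun z hzs hlt => ?_⟩
    have h1 := (abs_le.1 (hz z hzs)).2
    have h3 : g z = (w z).re + ρ z := rfl
    refine (h.loc z (by rw [mem_ball, dist_eq_norm]; exact hzs.trans_le hsr)).2 ?_
    linarith

end Pool.Agent.MPca0fc2.TB
end

section

/-! The hermitian and the complex part of a real quadratic form. -/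

set_option autoImplicit false

open Metric Set Filter Topology

namespace Pool.Agent.MPca0fc2.TB

variable {n : ℕ} {B : En n →L[ℝ] En n →L[ℝ] ℝ}

/-- the complex bilinear form -/
private noncomputable def B1_Q (B : En n →L[ℝ] En n →L[ℝ] ℝ) (u v : En n) : ℂ :=
  (((B u v - B (Complex.I • u) (Complex.I • v)) / 2 : ℝ) : ℂ) -
    (Complex.I / 2) * ((B u (Complex.I • v) + B (Complex.I • u) v : ℝ) : ℂ)

private theorem B1_Q_addr (u v w : En n) : B1_Q B u (v + w) = B1_Q B u v + B1_Q B u w := by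
  unfold B1_Q
  simp only [smul_add, map_add]
  push_cast
  ring

private theorem B1_Q_smulr (u v : En n) (c : ℝ) : B1_Q B u ((c : ℂ) • v) = (c : ℂ) * B1_Q B u v := by
  unfold B1_Q
  have h1 : (c : ℂ) • v = c • v := by
    ext i
    simp
  have h2 : Complex.I • (c : ℂ) • v = c • (Complex.I • v) := by
    rw [smul_comm]
    ext i
    simp
  rw [h2, h1]
  simp only [map_smul, smul_eq_mul]
  push_cast
  ring

private theorem B1_II (v : En n) : Complex.I • Complex.I • v = -v := by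
  rw [smul_smul, Complex.I_mul_I, neg_one_smul]

private theorem B1_Q_Ir (u v : En n) : B1_Q B u (Complex.I • v) = Complex.I * B1_Q B u v := by
  unfold B1_Q
  rw [B1_II]
  simp only [map_neg]
  push_cast
  linear_combination (((B (Complex.I • u) v : ℝ) : ℂ) / 2 + ((B u (Complex.I • v) : ℝ) : ℂ) / 2) *
    Complex.I_mul_I

private theorem B1_Q_symm (hs : ∀ u v, B u v = B v u) (u v : En n) : B1_Q B u v = B1_Q B v u := by
  unfold B1_Q
  rw [hs u v, hs (Complex.I • u) (Complex.I • v), hs u (Complex.I • v), hs (Complex.I • u) v]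
  push_cast
  ring

private theorem B1_Q_lin (u v : En n) (c : ℂ) : B1_Q B u (c • v) = c * B1_Q B u v := by
  have h1 : c • v = ((c.re : ℝ) : ℂ) • v + Complex.I • (((c.im : ℝ) : ℂ) • v) := by
    conv_lhs => rw [← Complex.re_add_im c]
    rw [add_smul, mul_comm, mul_smul]
  rw [h1, B1_Q_addr, B1_Q_Ir, B1_Q_smulr, B1_Q_smulr]
  conv_rhs => rw [← Complex.re_add_im c]
  ring

/-- `B1_Q` as a linear map in the second variable -/
private noncomputable def B1_Ql (B : En n →L[ℝ] En n →L[ℝ] ℝ) (u : En n) : En n →ₗ[ℂ] ℂ where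
  toFun := B1_Q B u
  map_add' := B1_Q_addr u
  map_smul' c v := B1_Q_lin u v c

private theorem B1_Eh (hs : ∀ u v, B u v = B v u) (v : En n) : Eh B v = B1_Q B v v := by
  unfold Eh B1_Q
  rw [hs (Complex.I • v) v]
  push_cast
  ring

private theorem B1_single (v : En n) : v = ∑ j, v j • EuclideanSpace.single j (1 : ℂ) := by
  ext i
  simp [Pi.single_apply]

/-- PROOF. From the definitions. -/
theorem B_eq (v : En n) : B v v = Lh B v + (Eh B v).re := by
  unfold Lh Eh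
  simp
  ring

/-- `Eh B` is a polynomial.
PROOF. Let `Q u v = (B u v - B (I u) (I v)) / 2 - (I / 2) (B u (I v) + B (I u) v)` (complex valued). It is
real bilinear, `Q (I u) v = I Q u v` and, by symmetry of `B`, `Q u v = Q v u`; so it is complex bilinear, and
`Eh B v = Q v v` (`B (I v) v = B v (I v)`). With `v = ∑ v_j e_j`, `e_j = EuclideanSpace.single j 1`, `a j k = Q e_j e_k`. -/
theorem eh_poly (hs : ∀ u v, B u v = B v u) :
    ∃ a : Fin n → Fin n → ℂ, ∀ v : En n, Eh B v = ∑ j, ∑ k, a j k * v j * v k := by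
  refine ⟨fun j k => B1_Q B (EuclideanSpace.single j 1) (EuclideanSpace.single k 1), ?_⟩
  intro v
  rw [B1_Eh hs]
  have h1 : ∀ u : En n, B1_Q B u v = ∑ k, v k * B1_Q B u (EuclideanSpace.single k 1) := by
    intro u
    have h2 : B1_Ql B u v = B1_Ql B u (∑ j, v j • EuclideanSpace.single j (1 : ℂ)) := by
      rw [← B1_single v]
    rw [map_sum] at h2
    simp only [map_smul, smul_eq_mul] at h2
    exact h2
  rw [h1 v, Finset.sum_comm]
  refine Finset.sum_congr rfl fun k _ => ?_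
  rw [B1_Q_symm hs, h1, Finset.mul_sum]
  refine Finset.sum_congr rfl fun j _ => ?_
  rw [B1_Q_symm hs]
  ring

/-- PROOF. `eh_poly`: polynomials in the coordinates. -/
theorem eh_diff (hs : ∀ u v, B u v = B v u) : Differentiable ℂ (Eh B) ∧ ContDiff ℝ 2 (Eh B) := by
  obtain ⟨a, ha⟩ := eh_poly hs
  have h1 : Eh B = fun v => ∑ j, ∑ k, a j k * v j * v k := by
    funext v
    exact ha v
  rw [h1]
  have hd : ∀ j : Fin n, Differentiable ℂ (fun v : En n => v j) := fun j =>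
    (EuclideanSpace.proj j : En n →L[ℂ] ℂ).differentiable
  have hc : ∀ j : Fin n, ContDiff ℝ 2 (fun v : En n => v j) := fun j =>
    ((EuclideanSpace.proj j : En n →L[ℂ] ℂ).restrictScalars ℝ).contDiff
  constructor
  · refine Differentiable.fun_sum fun j _ => Differentiable.fun_sum fun k _ => ?_
    exact (((differentiable_const _).mul (hd j)).mul (hd k))
  · refine ContDiff.sum fun j _ => ContDiff.sum fun k _ => ?_
    exact ((contDiff_const.mul (hc j)).mul (hc k))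

/-- PROOF. `Lh B (ζ v) = Lh B v` and `Eh B (ζ v) = ζ² Eh B v` for `|ζ| = 1` (real bilinearity with
`ζ = cos t + I sin t`, or `eh_poly`), so `c ‖v‖² ≤ B (ζ v) (ζ v) = Lh B v + Re (ζ² Eh B v)`; choose `ζ` with
`ζ² Eh B v = - |Eh B v|` (a square root of `- conj (Eh B v) / |Eh B v|`). -/
theorem eh_le (hs : ∀ u v, B u v = B v u) {c : ℝ} (hp : ∀ v, c * ‖v‖ ^ 2 ≤ B v v) (v : En n) :
    ‖Eh B v‖ ≤ Lh B v - c * ‖v‖ ^ 2 := by
  -- the factor
  have hq : ∀ ζ : ℂ, Eh B (ζ • v) = ζ ^ 2 * Eh B v := by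
    intro ζ
    rw [B1_Eh hs, B1_Eh hs, B1_Q_lin, B1_Q_symm hs, B1_Q_lin]
    ring
  have hB : ∀ ζ : ℂ, ‖ζ‖ = 1 → B (ζ • v) (ζ • v) + B (Complex.I • ζ • v) (Complex.I • ζ • v) =
      B v v + B (Complex.I • v) (Complex.I • v) := by
    intro ζ hζ
    have h1 : ζ • v = (ζ.re) • v + (ζ.im) • (Complex.I • v) := by
      ext i
      simp only [PiLp.smul_apply, PiLp.add_apply, smul_eq_mul, Complex.real_smul]
      conv_lhs => rw [← Complex.re_add_im ζ]
      ring
    have h2 : Complex.I • ζ • v = (ζ.re) • (Complex.I • v) - (ζ.im) • v := by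
      ext i
      simp only [PiLp.smul_apply, PiLp.sub_apply, smul_eq_mul, Complex.real_smul]
      conv_lhs => rw [← Complex.re_add_im ζ]
      linear_combination ((ζ.im : ℂ) * v i) * Complex.I_mul_I
    have h3 : ζ.re ^ 2 + ζ.im ^ 2 = 1 := by
      have h4 := Complex.sq_norm ζ
      rw [hζ, Complex.normSq_apply] at h4
      nlinarith
    rw [h2, h1]
    simp only [map_add, map_sub, map_smul, ContinuousLinearMap.add_apply,
      ContinuousLinearMap.sub_apply, ContinuousLinearMap.smul_apply, smul_eq_mul]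
    rw [hs (Complex.I • v) v]
    linear_combination (B v v + B (Complex.I • v) (Complex.I • v)) * h3
  have hL : ∀ ζ : ℂ, ‖ζ‖ = 1 → Lh B (ζ • v) = Lh B v := by
    intro ζ hζ
    unfold Lh
    rw [hB ζ hζ]
  -- the choice of ζ
  obtain ⟨ζ, hζ, hζ2⟩ : ∃ ζ : ℂ, ‖ζ‖ = 1 ∧ (ζ ^ 2 * Eh B v).re = -‖Eh B v‖ := by
    by_cases h0 : Eh B v = 0
    · exact ⟨1, by simp, by simp [h0]⟩
    · have hn : ‖Eh B v‖ ≠ 0 := norm_ne_zero_iff.2 h0
      obtain ⟨ζ, hζ⟩ := IsAlgClosed.exists_pow_nat_eq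
        (-(starRingEnd ℂ (Eh B v)) / (‖Eh B v‖ : ℂ)) (n := 2) (by norm_num)
      have h1 : ‖ζ‖ ^ 2 = 1 := by
        rw [← norm_pow, hζ, norm_div, norm_neg, RCLike.norm_conj, Complex.norm_real,
          norm_norm, div_self hn]
      refine ⟨ζ, ?_, ?_⟩
      · nlinarith [norm_nonneg ζ]
      · rw [hζ]
        have h2 : -(starRingEnd ℂ (Eh B v)) / (‖Eh B v‖ : ℂ) * Eh B v = ((-‖Eh B v‖ : ℝ) : ℂ) := by
          have h3 : starRingEnd ℂ (Eh B v) * Eh B v = ((‖Eh B v‖ ^ 2 : ℝ) : ℂ) := by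
            rw [Complex.conj_mul']
            push_cast
            rfl
          have hn' : (‖Eh B v‖ : ℂ) ≠ 0 := by exact_mod_cast hn
          rw [div_mul_eq_mul_div, neg_mul, h3]
          push_cast
          field_simp
        rw [h2, Complex.ofReal_re]
  have h1 := hp (ζ • v)
  rw [B_eq, hL ζ hζ, hq ζ, hζ2, norm_smul, hζ, one_mul] at h1
  linarith

/-- PROOF. `K = 2 ‖B‖` or so. -/
theorem eh_bound : ∃ K > 0, ∀ v : En n, ‖Eh B v‖ ≤ K * ‖v‖ ^ 2 ∧ |Lh B v| ≤ K * ‖v‖ ^ 2 := by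
  refine ⟨2 * ‖B‖ + 1, by positivity, ?_⟩
  intro v
  have hI : ‖Complex.I • v‖ = ‖v‖ := by rw [norm_smul, Complex.norm_I, one_mul]
  have hb : ∀ x y : En n, |B x y| ≤ ‖B‖ * ‖x‖ * ‖y‖ := by
    intro x y
    have := B.le_opNorm₂ x y
    rwa [Real.norm_eq_abs] at this
  have h1 := hb v v
  have h2 := hb (Complex.I • v) (Complex.I • v)
  have h3 := hb v (Complex.I • v)
  rw [hI] at h2 h3
  have hB := norm_nonneg B
  have hv := norm_nonneg v
  have h4 : ‖B‖ * ‖v‖ * ‖v‖ = ‖B‖ * ‖v‖ ^ 2 := by ring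
  rw [h4] at h1 h2 h3
  have h5 : 0 ≤ ‖v‖ ^ 2 := by positivity
  constructor
  · unfold Eh
    refine (norm_sub_le _ _).trans ?_
    rw [Complex.norm_real, norm_mul, Complex.norm_I, one_mul, Complex.norm_real,
      Real.norm_eq_abs, Real.norm_eq_abs]
    have h6 : |(B v v - B (Complex.I • v) (Complex.I • v)) / 2| ≤ ‖B‖ * ‖v‖ ^ 2 := by
      rw [abs_le] at h1 h2 ⊢
      constructor <;> linarith [h1.1, h1.2, h2.1, h2.2]
    linarith
  · unfold Lh
    have h6 : |(B v v + B (Complex.I • v) (Complex.I • v)) / 2| ≤ ‖B‖ * ‖v‖ ^ 2 := by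
      rw [abs_le] at h1 h2 ⊢
      constructor <;> linarith [h1.1, h1.2, h2.1, h2.2]
    nlinarith

end Pool.Agent.MPca0fc2.TB
end

section

/-! The hermitian form on the complex tangent space as a sum of squares. -/

set_option autoImplicit false

open Metric Set Filter Topology

namespace Pool.Agent.MPca0fc2.TB

variable {n : ℕ} {B : En n →L[ℝ] En n →L[ℝ] ℝ}

/-- the sesquilinear form -/
private noncomputable def B2_s (B : En n →L[ℝ] En n →L[ℝ] ℝ) (u v : En n) : ℂ :=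
  (((B u v + B (Complex.I • u) (Complex.I • v)) / 2 : ℝ) : ℂ) -
    (Complex.I / 2) * ((B u (Complex.I • v) - B (Complex.I • u) v : ℝ) : ℂ)

private theorem B2_s_addr (u v w : En n) : B2_s B u (v + w) = B2_s B u v + B2_s B u w := by
  unfold B2_s
  simp only [smul_add, map_add]
  push_cast
  ring

private theorem B2_smul (c : ℝ) (v : En n) : (c : ℂ) • v = c • v := by
  ext i
  simp

private theorem B2_s_smulr (u v : En n) (c : ℝ) : B2_s B u ((c : ℂ) • v) = (c : ℂ) * B2_s B u v := by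
  unfold B2_s
  have h2 : Complex.I • (c : ℂ) • v = c • (Complex.I • v) := by
    rw [smul_comm, B2_smul]
  rw [h2, B2_smul]
  simp only [map_smul, smul_eq_mul]
  push_cast
  ring

private theorem B2_II (v : En n) : Complex.I • Complex.I • v = -v := by
  rw [smul_smul, Complex.I_mul_I, neg_one_smul]

private theorem B2_s_Ir (u v : En n) : B2_s B u (Complex.I • v) = Complex.I * B2_s B u v := by
  unfold B2_s
  rw [B2_II]
  simp only [map_neg]
  push_cast
  linear_combination (((B u (Complex.I • v) : ℝ) : ℂ) / 2 - ((B (Complex.I • u) v : ℝ) : ℂ) / 2) *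
    Complex.I_mul_I

private theorem B2_s_symm (hs : ∀ u v, B u v = B v u) (u v : En n) :
    B2_s B v u = starRingEnd ℂ (B2_s B u v) := by
  unfold B2_s
  rw [hs u v, hs (Complex.I • u) (Complex.I • v), hs u (Complex.I • v), hs (Complex.I • u) v]
  simp only [map_sub, map_mul, map_div₀, Complex.conj_I, Complex.conj_ofReal, map_ofNat]
  push_cast
  ring

private theorem B2_s_lin (u v : En n) (c : ℂ) : B2_s B u (c • v) = c * B2_s B u v := by
  have h1 : c • v = ((c.re : ℝ) : ℂ) • v + Complex.I • (((c.im : ℝ) : ℂ) • v) := by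
    conv_lhs => rw [← Complex.re_add_im c]
    rw [add_smul, mul_comm, mul_smul]
  rw [h1, B2_s_addr, B2_s_Ir, B2_s_smulr, B2_s_smulr]
  conv_rhs => rw [← Complex.re_add_im c]
  ring

private theorem B2_s_self (hs : ∀ u v, B u v = B v u) (v : En n) :
    B2_s B v v = ((Lh B v : ℝ) : ℂ) := by
  unfold Lh B2_s
  rw [hs (Complex.I • v) v]
  push_cast
  ring

/-- the full sesquilinear form -/
private noncomputable def B2_q (B : En n →L[ℝ] En n →L[ℝ] ℝ) (lam : En n →L[ℂ] ℂ) (u₀ u v : En n) :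
    ℂ := B2_s B (u - lam u • u₀) (v - lam v • u₀) + starRingEnd ℂ (lam u) * lam v

/-- linear in the second variable -/
private noncomputable def B2_ql (B : En n →L[ℝ] En n →L[ℝ] ℝ) (lam : En n →L[ℂ] ℂ) (u₀ u : En n) :
    En n →ₗ[ℂ] ℂ where
  toFun := B2_q B lam u₀ u
  map_add' v w := by
    unfold B2_q
    have h1 : v + w - lam (v + w) • u₀ = (v - lam v • u₀) + (w - lam w • u₀) := by
      rw [map_add, add_smul]
      abel
    rw [h1, B2_s_addr, map_add]
    ring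
  map_smul' c v := by
    unfold B2_q
    have h1 : c • v - lam (c • v) • u₀ = c • (v - lam v • u₀) := by
      rw [map_smul, smul_sub, smul_eq_mul, mul_smul]
    rw [h1, B2_s_lin, map_smul]
    simp only [smul_eq_mul, RingHom.id_apply]
    ring

private theorem B2_single (v : En n) : v = ∑ j, v j • EuclideanSpace.single j (1 : ℂ) := by
  ext i
  simp [Pi.single_apply]

private theorem B2_Lh_ge (hs : ∀ u v, B u v = B v u) {c : ℝ} (hp : ∀ v, c * ‖v‖ ^ 2 ≤ B v v)
    (v : En n) : c * ‖v‖ ^ 2 ≤ Lh B v := by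
  have h1 := eh_le hs hp v
  have h2 := norm_nonneg (Eh B v)
  linarith

/-- A positive definite hermitian form is `‖T v‖²`.
PROOF. `s (u, v) = (B u v + B (I u) (I v)) / 2 + I (B (I u) v - B u (I v)) / 2` [check the sign: it must be
conjugate linear in `u` and linear in `v`, hermitian, and `s (v, v) = Lh B v`; e.g. `(B u v + B (I u) (I v)) / 2 -
I (B u (I v) - B (I u) v) / 2`]. The matrix `M j k = s (e_j, e_k)` is hermitian and positive (semi)definite
(`x* M x = Lh B x ≥ c ‖x‖²` by `B_eq`, `eh_le`), so `M = Tᴴ T` (`Matrix.posSemidef_iff_eq_conjTranspose_mul_self` or similar) and `‖T x‖² =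
x* M x`. The rank one form: `s' (u, v) = s (P u, P v) + conj (lam u) lam v`. Apply this to the form
`q (v, v) = Lh B (v - lam v • u₀) + |lam v|²` with `lam u₀ = 1`. -/
theorem exists_T (hs : ∀ u v, B u v = B v u) {c : ℝ} (hc : 0 < c) (hp : ∀ v, c * ‖v‖ ^ 2 ≤ B v v)
    (lam : En n →L[ℂ] ℂ) {u₀ : En n} (hu : lam u₀ = 1) :
    ∃ T : En n →L[ℂ] En n, ∀ v, ‖T v‖ ^ 2 = Lh B (v - lam v • u₀) + ‖lam v‖ ^ 2 := by
  classical
  open scoped MatrixOrder ComplexOrder in
  have hqs : ∀ u v, B2_q B lam u₀ v u = starRingEnd ℂ (B2_q B lam u₀ u v) := by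
    intro u v
    unfold B2_q
    rw [B2_s_symm hs (u - lam u • u₀) (v - lam v • u₀)]
    simp only [map_add, map_mul, Complex.conj_conj]
    ring
  have hqq : ∀ v, B2_q B lam u₀ v v = ((Lh B (v - lam v • u₀) + ‖lam v‖ ^ 2 : ℝ) : ℂ) := by
    intro v
    unfold B2_q
    rw [B2_s_self hs, Complex.conj_mul']
    push_cast
    rfl
  let M : Matrix (Fin n) (Fin n) ℂ := fun j k =>
    B2_q B lam u₀ (EuclideanSpace.single j 1) (EuclideanSpace.single k 1)
  have hexp : ∀ u v : En n, B2_q B lam u₀ u v =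
      ∑ k, v k * B2_q B lam u₀ u (EuclideanSpace.single k 1) := by
    intro u v
    have h2 : B2_ql B lam u₀ u v = B2_ql B lam u₀ u (∑ j, v j • EuclideanSpace.single j (1 : ℂ)) := by
      rw [← B2_single v]
    rw [map_sum] at h2
    simp only [map_smul, smul_eq_mul] at h2
    exact h2
  have hM : ∀ v : En n, star v.ofLp ⬝ᵥ (M.mulVec v.ofLp) =
      ((Lh B (v - lam v • u₀) + ‖lam v‖ ^ 2 : ℝ) : ℂ) := by
    intro v
    rw [← hqq, hexp v v]
    simp only [dotProduct, Matrix.mulVec, Finset.mul_sum, Pi.star_apply]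
    rw [Finset.sum_comm]
    refine Finset.sum_congr rfl fun k _ => ?_
    rw [hqs (EuclideanSpace.single k 1) v, hexp (EuclideanSpace.single k 1) v, map_sum,
      Finset.mul_sum]
    refine Finset.sum_congr rfl fun j _ => ?_
    rw [map_mul, ← hqs]
    show star (v.ofLp j) * (M j k * v.ofLp k) = v k * (starRingEnd ℂ (v j) * M j k)
    rw [Complex.star_def]
    ring
  have hher : M.IsHermitian := by
    ext j k
    show star (M k j) = M j k
    rw [Complex.star_def]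
    exact (hqs _ _).symm
  have hpos : M.PosSemidef := by
    refine Matrix.PosSemidef.of_dotProduct_mulVec_nonneg hher ?_
    intro x
    have h1 := hM (WithLp.toLp 2 x)
    have h2 : 0 ≤ Lh B ((WithLp.toLp 2 x) - lam (WithLp.toLp 2 x) • u₀) + ‖lam (WithLp.toLp 2 x)‖ ^ 2 := by
      have h3 := B2_Lh_ge hs hp ((WithLp.toLp 2 x) - lam (WithLp.toLp 2 x) • u₀)
      have h4 : 0 ≤ c * ‖(WithLp.toLp 2 x) - lam (WithLp.toLp 2 x) • u₀‖ ^ 2 := by positivity
      have h5 : 0 ≤ ‖lam (WithLp.toLp 2 x)‖ ^ 2 := by positivity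
      linarith
    rw [show star x ⬝ᵥ (M.mulVec x) = _ from h1]
    exact_mod_cast h2
  obtain ⟨A, hA⟩ := CStarAlgebra.nonneg_iff_eq_star_mul_self.mp hpos.nonneg
  refine ⟨LinearMap.toContinuousLinearMap (Matrix.toEuclideanLin A), ?_⟩
  intro v
  have h1 := hM v
  have h2 : star v.ofLp ⬝ᵥ (M.mulVec v.ofLp) = star (A.mulVec v.ofLp) ⬝ᵥ (A.mulVec v.ofLp) := by
    rw [hA, Matrix.star_eq_conjTranspose, ← Matrix.mulVec_mulVec, Matrix.dotProduct_mulVec,
      Matrix.vecMul_conjTranspose, star_star]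
  have h3 : star (A.mulVec v.ofLp) ⬝ᵥ (A.mulVec v.ofLp) =
      ((‖Matrix.toEuclideanLin A v‖ ^ 2 : ℝ) : ℂ) := by
    rw [EuclideanSpace.norm_sq_eq]
    simp only [dotProduct, Pi.star_apply]
    push_cast
    refine Finset.sum_congr rfl fun i _ => ?_
    rw [Complex.star_def, Complex.conj_mul']
    rfl
  rw [h2, h3] at h1
  exact_mod_cast h1

/-- PROOF. `u₀` with `lam u₀ = 1` (`lam ≠ 0`). `T` from `exists_T`; `e = T u₀` (`‖e‖² = Lh B 0 + 1 = 1`); `S v = T (v - lam v • u₀)`.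
Orthogonality: `‖T (x + ζ u₀)‖² = ‖T x‖² + |ζ|²` for `lam x = 0` and all complex `ζ` (the formula of `T`), and
`‖T x + ζ e‖² = ‖T x‖² + |ζ|² + 2 Re (conj ζ ⟪e, T x⟫)`, so `⟪e, T x⟫ = 0`. `‖S v‖² = Lh B (v - lam v • u₀)`
(`lam` of this vector is `0`), and `|Lh B (v - y) - Lh B v| ≤ C ‖y‖ (‖v‖ + ‖y‖)` with `‖y‖ = ‖lam v‖ ‖u₀‖`, `‖lam v‖ ≤ ‖lam‖ ‖v‖`.
Injectivity: `S v + lam v • e = T v`, and `T v = 0` gives `lam v = 0` and `Lh B v = 0` (`Lh B (v - ..) ≥ c ‖..‖²` by
`eh_le`), so `v = 0`. -/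
theorem exists_S (hs : ∀ u v, B u v = B v u) {c : ℝ} (hc : 0 < c) (hp : ∀ v, c * ‖v‖ ^ 2 ≤ B v v)
    {lam : En n →L[ℂ] ℂ} (hl : lam ≠ 0) :
    ∃ (S : En n →L[ℂ] En n) (e : En n) (C : ℝ), 0 < C ∧ ‖e‖ = 1 ∧ (∀ v, inner ℂ e (S v) = 0) ∧
      (∀ v, |‖S v‖ ^ 2 - Lh B v| ≤ C * (‖lam v‖ * ‖v‖)) ∧
      ∀ v, S v + lam v • e = 0 → v = 0 := by
  obtain ⟨x₀, hx₀⟩ : ∃ x, lam x ≠ 0 := by
    by_contra hc
    push Not at hc
    exact hl (ContinuousLinearMap.ext hc)
  obtain ⟨u₀, hu⟩ : ∃ u, lam u = 1 := ⟨(lam x₀)⁻¹ • x₀, by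
    rw [map_smul, smul_eq_mul, inv_mul_cancel₀ hx₀]⟩
  obtain ⟨T, hT⟩ := exists_T hs hc hp lam hu
  have hL0 : Lh B 0 = 0 := by
    unfold Lh
    simp
  have he : ‖T u₀‖ = 1 := by
    have h1 := hT u₀
    rw [hu, one_smul, sub_self, hL0, norm_one, zero_add, one_pow] at h1
    nlinarith [norm_nonneg (T u₀)]
  have hker : ∀ v, lam (v - lam v • u₀) = 0 := by
    intro v
    rw [map_sub, map_smul, hu, smul_eq_mul, mul_one, sub_self]
  have hTk : ∀ x, lam x = 0 → ‖T x‖ ^ 2 = Lh B x := by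
    intro x hx
    rw [hT, hx, zero_smul, sub_zero, norm_zero]
    ring
  have horth : ∀ x, lam x = 0 → inner ℂ (T u₀) (T x) = 0 := by
    intro x hx
    set z : ℂ := inner ℂ (T u₀) (T x) with hz
    have h1 := hT (z • u₀ + x)
    have h2 : lam (z • u₀ + x) = z := by
      rw [map_add, map_smul, hu, hx, smul_eq_mul, mul_one, add_zero]
    have h3 : z • u₀ + x - z • u₀ = x := by abel
    rw [h2, h3, ← hTk x hx, map_add, map_smul, norm_add_sq (𝕜 := ℂ), inner_smul_left, ← hz,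
      norm_smul, he, mul_one, Complex.conj_mul'] at h1
    have h4 : RCLike.re ((‖z‖ : ℂ) ^ 2) = ‖z‖ ^ 2 := by
      have : ((‖z‖ : ℂ) ^ 2) = ((‖z‖ ^ 2 : ℝ) : ℂ) := by push_cast; rfl
      rw [this]
      exact Complex.ofReal_re _
    rw [h4] at h1
    have h5 : ‖z‖ ^ 2 = 0 := by linarith
    have h6 : ‖z‖ = 0 := by
      rcases pow_eq_zero_iff (two_ne_zero) |>.1 h5 with h
      exact h
    exact norm_eq_zero.1 h6
  let Pr : En n →L[ℂ] En n := ContinuousLinearMap.id ℂ (En n) - lam.smulRight u₀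
  have hPr : ∀ v, Pr v = v - lam v • u₀ := fun v => rfl
  refine ⟨T.comp Pr, T u₀, ‖B‖ * (2 * ‖u₀‖ + ‖lam‖ * ‖u₀‖ ^ 2) + 1, by positivity, he, ?_, ?_, ?_⟩
  · intro v
    show inner ℂ (T u₀) (T (Pr v)) = 0
    rw [hPr]
    exact horth _ (hker v)
  · intro v
    show |‖T (Pr v)‖ ^ 2 - Lh B v| ≤ _
    rw [hPr, hTk _ (hker v)]
    set y := lam v • u₀ with hy
    have hyn : ‖y‖ = ‖lam v‖ * ‖u₀‖ := by rw [hy, norm_smul]
    have hlv : ‖lam v‖ ≤ ‖lam‖ * ‖v‖ := lam.le_opNorm v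
    have hI : ∀ x : En n, ‖Complex.I • x‖ = ‖x‖ := fun x => by
      rw [norm_smul, Complex.norm_I, one_mul]
    have hb : ∀ x y : En n, |B x y| ≤ ‖B‖ * ‖x‖ * ‖y‖ := by
      intro x y
      have := B.le_opNorm₂ x y
      rwa [Real.norm_eq_abs] at this
    have key : ∀ a b : En n, |B (a - b) (a - b) - B a a| ≤ ‖B‖ * (2 * ‖a‖ * ‖b‖ + ‖b‖ ^ 2) := by
      intro a b
      have e : B (a - b) (a - b) - B a a = -B a b - B b a + B b b := by
        simp only [map_sub, sub_apply]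
        ring
      rw [e]
      have h1 := abs_le.1 (hb a b)
      have h2 := abs_le.1 (hb b a)
      have h3 := abs_le.1 (hb b b)
      rw [abs_le]
      constructor <;> nlinarith [h1.1, h1.2, h2.1, h2.2, h3.1, h3.2]
    have k1 := key v y
    have k2 := key (Complex.I • v) (Complex.I • y)
    rw [hI, hI, ← smul_sub] at k2
    have k3 : |Lh B (v - y) - Lh B v| ≤ ‖B‖ * (2 * ‖v‖ * ‖y‖ + ‖y‖ ^ 2) := by
      unfold Lh
      rw [abs_le] at k1 k2 ⊢
      constructor <;> linarith [k1.1, k1.2, k2.1, k2.2]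
    refine k3.trans ?_
    rw [hyn]
    have h0 := norm_nonneg (lam v)
    have h1 := norm_nonneg u₀
    have h2 := norm_nonneg v
    have h3 := norm_nonneg B
    have h5 : ‖lam v‖ * ‖lam v‖ ≤ ‖lam v‖ * (‖lam‖ * ‖v‖) := mul_le_mul_of_nonneg_left hlv h0
    have h6 : ‖B‖ * ‖u₀‖ ^ 2 * (‖lam v‖ * ‖lam v‖) ≤
        ‖B‖ * ‖u₀‖ ^ 2 * (‖lam v‖ * (‖lam‖ * ‖v‖)) :=
      mul_le_mul_of_nonneg_left h5 (by positivity)
    have h7 : 0 ≤ ‖lam v‖ * ‖v‖ := by positivity
    nlinarith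
  · intro v hv
    have h1 : T v = 0 := by
      have h2 : T v = (T.comp Pr) v + lam v • T u₀ := by
        show T v = T (Pr v) + lam v • T u₀
        rw [hPr, map_sub, map_smul]
        abel
      rw [h2]
      exact hv
    have h2 := hT v
    rw [h1, norm_zero] at h2
    have h3 := B2_Lh_ge hs hp (v - lam v • u₀)
    have h4 : 0 ≤ c * ‖v - lam v • u₀‖ ^ 2 := by positivity
    have h5 : ‖lam v‖ ^ 2 = 0 := by nlinarith [sq_nonneg ‖lam v‖]
    have h6 : lam v = 0 := by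
      rcases pow_eq_zero_iff (two_ne_zero) |>.1 h5 with h
      exact norm_eq_zero.1 h
    rw [h6, zero_smul, sub_zero] at h3 h4
    have h7 : c * ‖v‖ ^ 2 ≤ 0 := by
      rw [h6, zero_smul, sub_zero, norm_zero] at h2
      nlinarith
    have h8 : ‖v‖ ^ 2 ≤ 0 := by
      by_contra hcc
      push Not at hcc
      nlinarith [mul_pos hc hcc]
    have h9 : ‖v‖ = 0 := by
      have := norm_nonneg v
      nlinarith
    exact norm_eq_zero.1 h9

end Pool.Agent.MPca0fc2.TB
end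

section

/-! The corrected peak function is a peak function. -/

set_option autoImplicit false

open Metric Set Filter Topology

namespace Pool.Agent.MPca0fc2.TB

variable {n : ℕ} {D : Set (En n)} {p : En n} {w : En n → ℂ} {B : En n →L[ℝ] En n →L[ℝ] ℝ}
  {V : Set (En n)} {r c : ℝ}

/-- Facts about `q = 1 + m w` for `Re w ≥ 0`. -/
private theorem C1_q (m : ℝ) (hm : 0 ≤ m) (w : ℂ) (hw : 0 ≤ w.re) :
    (1 + (m : ℂ) * w) ≠ 0 ∧ 1 + m * w.re ≤ ‖1 + (m : ℂ) * w‖ ∧
      ‖(m : ℂ) * w‖ ≤ ‖1 + (m : ℂ) * w‖ := by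
  have hre : (1 + (m : ℂ) * w).re = 1 + m * w.re := by simp
  have h1 : 1 + m * w.re ≤ ‖1 + (m : ℂ) * w‖ := by
    rw [← hre]
    exact Complex.re_le_norm _
  have hpos : 0 ≤ m * w.re := mul_nonneg hm hw
  refine ⟨?_, h1, ?_⟩
  · intro h
    rw [h, norm_zero] at h1
    linarith
  · have h2 : ‖(m : ℂ) * w‖ ^ 2 ≤ ‖1 + (m : ℂ) * w‖ ^ 2 := by
      rw [← Complex.normSq_eq_norm_sq, ← Complex.normSq_eq_norm_sq, Complex.normSq_apply,
        Complex.normSq_apply]
      simp only [Complex.add_re, Complex.one_re, Complex.add_im, Complex.one_im, Complex.mul_re,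
        Complex.mul_im, Complex.ofReal_re, Complex.ofReal_im]
      nlinarith
    exact le_of_sq_le_sq h2 (norm_nonneg _)

/-- PROOF. `χ = 1 / (1 + m w)`, `1 - χ = m w / (1 + m w)`; for `Re w ≥ 0`, `m ≥ 0`: `|1 + m w| ≥ |m w|` and `|1 + m w| ≥ 1 + m Re w`.
Put `v = z - p`. `loc1` with `ε = c/2`: for `‖v‖ < s`, `Re w ≥ Lh + Re Eh - (c/2) ‖v‖²` (`B_eq`), so `Re W = Re w - Re (Eh χ) ≥
Lh + Re (Eh (1 - χ)) - (c/2) ‖v‖² ≥ Lh - |Eh| - (c/2) ‖v‖² ≥ (c/2) ‖v‖²` (`eh_le`), for every `m ≥ 0`. For `‖v‖ ≥ s`: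
`Re w ≥ c ‖v‖²`, `|Eh χ| ≤ K ‖v‖² / (1 + m c s²) ≤ (c/2) ‖v‖²` if `m` is large. -/
theorem wm_pos (h : TP D p w B V r c) :
    ∃ m : ℝ, 0 < m ∧ ∀ z ∈ closure D, c / 2 * ‖z - p‖ ^ 2 ≤ (Wm B w p m z).re := by
  obtain ⟨s, hs, hloc⟩ := h.loc1 (c / 2) (half_pos h.c0)
  obtain ⟨K, hK, hKb⟩ := eh_bound (B := B)
  have hc := h.c0
  have hcs : 0 < c * s ^ 2 := mul_pos hc (pow_pos hs 2)
  refine ⟨2 * K / c / (c * s ^ 2), by positivity, ?_⟩
  set m : ℝ := 2 * K / c / (c * s ^ 2) with hm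
  have hm0 : 0 < m := by positivity
  intro z hz
  have hx := h.pos z hz
  have hv0 : 0 ≤ ‖z - p‖ ^ 2 := sq_nonneg _
  have hx0 : 0 ≤ (w z).re := le_trans (mul_nonneg hc.le hv0) hx
  obtain ⟨hq0, hq1, hq2⟩ := C1_q m hm0.le (w z) hx0
  have hqp : 0 < ‖1 + (m : ℂ) * w z‖ := norm_pos_iff.2 hq0
  have hE := (hKb (z - p)).1
  unfold Wm
  rw [Complex.sub_re]
  rcases lt_or_ge ‖z - p‖ s with hlt | hge
  · have e1 : Eh B (z - p) / (1 + (m : ℂ) * w z) =
        Eh B (z - p) - Eh B (z - p) * ((m : ℂ) * w z / (1 + (m : ℂ) * w z)) := by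
      field_simp
      ring
    have e2 : ‖Eh B (z - p) * ((m : ℂ) * w z / (1 + (m : ℂ) * w z))‖ ≤ ‖Eh B (z - p)‖ := by
      rw [norm_mul, norm_div]
      refine mul_le_of_le_one_right (norm_nonneg _) ?_
      rw [div_le_one hqp]
      exact hq2
    have e3 : -‖Eh B (z - p)‖ ≤ (Eh B (z - p) * ((m : ℂ) * w z / (1 + (m : ℂ) * w z))).re := by
      have := (abs_le.1 (Complex.abs_re_le_norm
        (Eh B (z - p) * ((m : ℂ) * w z / (1 + (m : ℂ) * w z))))).1
      linarith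
    rw [e1, Complex.sub_re]
    have e4 := hloc z hz hlt
    rw [B_eq] at e4
    have e5 := eh_le h.symm h.Bpos (z - p)
    linarith
  · have e1 : (Eh B (z - p) / (1 + (m : ℂ) * w z)).re ≤ c / 2 * ‖z - p‖ ^ 2 := by
      refine (Complex.re_le_norm _).trans ?_
      rw [norm_div, div_le_iff₀ hqp]
      have e2 : c * s ^ 2 ≤ (w z).re := by
        refine le_trans ?_ hx
        exact mul_le_mul_of_nonneg_left (pow_le_pow_left₀ hs.le hge 2) hc.le
      have e3 : 2 * K / c ≤ m * (w z).re := by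
        have : m * (c * s ^ 2) = 2 * K / c := by
          rw [hm]
          exact div_mul_cancel₀ _ hcs.ne'
        rw [← this]
        exact mul_le_mul_of_nonneg_left e2 hm0.le
      have e4 : K ≤ c / 2 * ‖1 + (m : ℂ) * w z‖ := by
        have e5 : c / 2 * (2 * K / c) = K := by field_simp
        calc K = c / 2 * (2 * K / c) := e5.symm
          _ ≤ c / 2 * ‖1 + (m : ℂ) * w z‖ := by
            refine mul_le_mul_of_nonneg_left ?_ (half_pos hc).le
            linarith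
      calc ‖Eh B (z - p)‖ ≤ K * ‖z - p‖ ^ 2 := hE
        _ ≤ (c / 2 * ‖1 + (m : ℂ) * w z‖) * ‖z - p‖ ^ 2 := mul_le_mul_of_nonneg_right e4 hv0
        _ = _ := by ring
    linarith

/-- Elementary bounds on `closure D`: `1 + m w ≠ 0`, continuity, holomorphy.
PROOF. `Re w ≥ 0` on `closure D`, so `Re (1 + m w) ≥ 1`. `w` is holomorphic on the open set `V ⊇ closure D` (`hol`), hence
continuous on `closure D`; `Eh B` is entire (`eh_diff`). `bound`: `w` is Lipschitz near `p` (it is `C²`, differentiable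
at `p`) and bounded on the compact set `closure D` (`bdd`), `w p = 0`, so `‖w z‖ ≤ C ‖z - p‖`; `‖Eh B v‖ ≤ K ‖v‖²`, `‖v‖ ≤ diam`,
`|1 + m w| ≥ 1`. -/
theorem wm_reg (h : TP D p w B V r c) {m : ℝ} (hm : 0 < m) :
    DifferentiableOn ℂ (Wm B w p m) D ∧ ContinuousOn (Wm B w p m) (closure D) ∧
      ∃ C > 0, ∀ z ∈ closure D, ‖z - p‖ ≤ C ∧ ‖Wm B w p m z‖ ≤ C * ‖z - p‖ := by
  obtain ⟨K, hK, hKb⟩ := eh_bound (B := B)
  have hc := h.c0
  have hx0 : ∀ z ∈ closure D, 0 ≤ (w z).re := fun z hz =>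
    le_trans (mul_nonneg hc.le (sq_nonneg _)) (h.pos z hz)
  have hq : ∀ z ∈ closure D, (1 + (m : ℂ) * w z) ≠ 0 := fun z hz => (C1_q m hm.le (w z) (hx0 z hz)).1
  have hwd : DifferentiableOn ℂ w D := h.hol.mono (subset_closure.trans h.clV)
  have hwc : ContinuousOn w (closure D) := (h.hol.mono h.clV).continuousOn
  have hEd : Differentiable ℂ (fun z : En n => Eh B (z - p)) :=
    (eh_diff h.symm).1.comp (differentiable_id.sub_const p)
  refine ⟨?_, ?_, ?_⟩
  · have h1 : DifferentiableOn ℂ (fun z => (1 + (m : ℂ) * w z)⁻¹) D :=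
      DifferentiableOn.inv (h := fun z => 1 + (m : ℂ) * w z)
        ((differentiableOn_const (1 : ℂ)).add ((differentiableOn_const (m : ℂ)).mul hwd))
        fun z hz => hq z (subset_closure hz)
    have h2 : DifferentiableOn ℂ (fun z => w z - Eh B (z - p) * (1 + (m : ℂ) * w z)⁻¹) D :=
      hwd.sub (hEd.differentiableOn.mul h1)
    refine h2.congr fun z _ => ?_
    unfold Wm
    rw [div_eq_mul_inv]
  · refine hwc.sub (hEd.continuous.continuousOn.div (continuousOn_const.add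
      (continuousOn_const.mul hwc)) hq)
  · obtain ⟨R, hR⟩ := (Metric.isBounded_iff_subset_closedBall p).1 h.bdd.closure
    have hR' : ∀ z ∈ closure D, ‖z - p‖ ≤ max R 0 := fun z hz => by
      have := hR hz
      rw [Metric.mem_closedBall, dist_eq_norm] at this
      exact this.trans (le_max_left _ _)
    have hcomp : IsCompact (closure D) :=
      Metric.isCompact_of_isClosed_isBounded isClosed_closure h.bdd.closure
    obtain ⟨M, hM⟩ := hcomp.exists_bound_of_continuousOn hwc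
    have hpV : p ∈ V := h.clV h.pcl
    have hwp : DifferentiableAt ℂ w p := h.hol.differentiableAt (h.opn.mem_nhds hpV)
    obtain ⟨C₁, hC₁⟩ := hwp.isBigO_sub.bound
    obtain ⟨s, hs, hsb⟩ := Metric.eventually_nhds_iff.1 hC₁
    have hM0 : 0 ≤ |M| := abs_nonneg M
    have hR0 : 0 ≤ max R 0 := le_max_right _ _
    refine ⟨max R 0 + |C₁| + |M| / s + K * max R 0 + 1, by positivity, fun z hz => ⟨?_, ?_⟩⟩
    · have := hR' z hz
      have h1 : 0 ≤ |C₁| := abs_nonneg _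
      have h2 : 0 ≤ |M| / s := by positivity
      have h3 : 0 ≤ K * max R 0 := by positivity
      linarith
    · have hv := hR' z hz
      have hv0 : 0 ≤ ‖z - p‖ := norm_nonneg _
      have hw1 : ‖w z‖ ≤ (|C₁| + |M| / s) * ‖z - p‖ := by
        rcases lt_or_ge ‖z - p‖ s with hlt | hge
        · have h1 := hsb (show dist z p < s by rw [dist_eq_norm]; exact hlt)
          rw [h.w0, sub_zero] at h1
          calc ‖w z‖ ≤ C₁ * ‖z - p‖ := h1
            _ ≤ |C₁| * ‖z - p‖ := mul_le_mul_of_nonneg_right (le_abs_self _) hv0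
            _ ≤ _ := by
              refine mul_le_mul_of_nonneg_right ?_ hv0
              have : 0 ≤ |M| / s := by positivity
              linarith
        · calc ‖w z‖ ≤ M := hM z hz
            _ ≤ |M| := le_abs_self _
            _ = |M| / s * s := (div_mul_cancel₀ _ hs.ne').symm
            _ ≤ |M| / s * ‖z - p‖ := mul_le_mul_of_nonneg_left hge (by positivity)
            _ ≤ _ := by
              refine mul_le_mul_of_nonneg_right ?_ hv0
              have := abs_nonneg C₁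
              linarith
      obtain ⟨hq0, hq1, hq2⟩ := C1_q m hm.le (w z) (hx0 z hz)
      have hq3 : 1 ≤ ‖1 + (m : ℂ) * w z‖ := by
        have := mul_nonneg hm.le (hx0 z hz)
        linarith
      have hE : ‖Eh B (z - p) / (1 + (m : ℂ) * w z)‖ ≤ K * max R 0 * ‖z - p‖ := by
        rw [norm_div]
        calc ‖Eh B (z - p)‖ / ‖1 + (m : ℂ) * w z‖ ≤ ‖Eh B (z - p)‖ :=
              div_le_self (norm_nonneg _) hq3
          _ ≤ K * ‖z - p‖ ^ 2 := (hKb _).1
          _ = K * ‖z - p‖ * ‖z - p‖ := by ring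
          _ ≤ K * max R 0 * ‖z - p‖ := by
            refine mul_le_mul_of_nonneg_right ?_ hv0
            exact mul_le_mul_of_nonneg_left hv hK.le
      calc ‖Wm B w p m z‖ ≤ ‖w z‖ + ‖Eh B (z - p) / (1 + (m : ℂ) * w z)‖ := norm_sub_le _ _
        _ ≤ (|C₁| + |M| / s) * ‖z - p‖ + K * max R 0 * ‖z - p‖ := add_le_add hw1 hE
        _ = (|C₁| + |M| / s + K * max R 0) * ‖z - p‖ := by ring
        _ ≤ _ := by
          refine mul_le_mul_of_nonneg_right ?_ hv0
          linarith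

end Pool.Agent.MPca0fc2.TB
end
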