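import Pool.Agent.Lib.MP_ca0fc2_an.Mg.G048
import Pool.Agent.Lib.MP_ca0fc2_an.Mg.G050

section

/-! Integration by parts. -/

set_option autoImplicit false

open Metric Set MeasureTheory Filter Topology

namespace Pool.Agent.MPca0fc2.FD

variable {n : ℕ} {V : Type*} [NormedAddCommGroup V] [NormedSpace ℂ V] [FiniteDimensional ℂ V]
variable {U : Set (Ec n)} {δ : Ec n → ℝ} {h : Ec n → Ec n → Fin n → ℂ} {c C : ℝ}

/-- The integral of the derivative of a `C¹` function with compact support is `0`.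
PROOF. `integral_bilinear_hasLineDerivAt_right_eq_neg_left_of_integrable`, or reduce to scalar
functions (a basis of `V`, real and imaginary parts) and use
`integral_mul_fderiv_eq_neg_fderiv_mul_of_integrable` with a constant function replaced by a smooth
cut off function which is `1` on the support. -/
theorem int_fderiv_zero {F : Ec n → V} (hF : ContDiff ℝ 1 F) (hc : HasCompactSupport F)
    (X : Ec n) : ∫ ζ, fderiv ℝ F ζ X = 0 := by
  have h1 := integral_bilinear_fderiv_right_eq_neg_left_of_integrable (μ := (volume : Measure (Ec n)))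
    (f := fun _ : Ec n => (1 : ℝ)) (g := F) (v := X) (B := ContinuousLinearMap.lsmul ℝ ℝ)
    (by simp) ?_ ?_ (fun x _ => differentiableAt_const _)
    (fun x _ => (hF.differentiable one_ne_zero).differentiableAt)
  · simpa using h1
  · simp only [ContinuousLinearMap.lsmul_apply, one_smul]
    exact ((hF.continuous_fderiv one_ne_zero).clm_apply continuous_const).integrable_of_hasCompactSupport
      (hc.fderiv_apply (𝕜 := ℝ) X)
  · simp only [ContinuousLinearMap.lsmul_apply, one_smul]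
    exact hF.continuous.integrable_of_hasCompactSupport hc

theorem B6_pos_bound (s t : ℝ) :
    |(max s 0) ^ 2 - (max t 0) ^ 2 - 2 * max t 0 * (s - t)| ≤ (s - t) ^ 2 := by
  rcases le_total 0 s with hs | hs
  · rcases le_total 0 t with ht | ht
    · rw [max_eq_left hs, max_eq_left ht, abs_le]
      constructor <;> nlinarith [sq_nonneg (s - t)]
    · rw [max_eq_left hs, max_eq_right ht, abs_le]
      constructor <;> nlinarith [sq_nonneg (s - t), mul_nonneg hs (neg_nonneg.2 ht), sq_nonneg s,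
        sq_nonneg t]
  · rcases le_total 0 t with ht | ht
    · rw [max_eq_right hs, max_eq_left ht, abs_le]
      constructor <;> nlinarith [sq_nonneg (s - t), mul_nonneg ht (neg_nonneg.2 hs), sq_nonneg s,
        sq_nonneg t]
    · rw [max_eq_right hs, max_eq_right ht, abs_le]
      constructor <;> nlinarith [sq_nonneg (s - t)]

theorem B6_pos_deriv (t : ℝ) : HasDerivAt (fun s : ℝ => (max s 0) ^ 2) (2 * max t 0) t := by
  rw [hasDerivAt_iff_isLittleO, Asymptotics.isLittleO_iff]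
  intro a ha
  filter_upwards [Metric.ball_mem_nhds t ha] with s hs
  have hs' : |s - t| < a := by rwa [mem_ball, Real.dist_eq] at hs
  have h1 := B6_pos_bound s t
  rw [smul_eq_mul, Real.norm_eq_abs, Real.norm_eq_abs, mul_comm (s - t)]
  refine h1.trans ?_
  rw [← sq_abs, sq]
  exact mul_le_mul_of_nonneg_right hs'.le (abs_nonneg _)

theorem B6_pos_c1 : ContDiff ℝ 1 (fun s : ℝ => (max s 0) ^ 2) := by
  rw [contDiff_one_iff_deriv]
  refine ⟨fun t => (B6_pos_deriv t).differentiableAt, ?_⟩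
  have : deriv (fun s : ℝ => (max s 0) ^ 2) = fun t => 2 * max t 0 :=
    funext fun t => (B6_pos_deriv t).deriv
  rw [this]
  fun_prop

omit [FiniteDimensional ℂ V] in
theorem B6_ext_eq {G : Ec n → V} {ζ : Ec n} (hζ : ζ ∈ U) :
    (Om U δ).indicator (fun ζ => ((δ ζ : ℂ) ^ 2) • G ζ) ζ =
      (((max (δ ζ) 0) ^ 2 : ℝ) : ℂ) • G ζ := by
  by_cases h0 : 0 < δ ζ
  · rw [indicator_of_mem (show ζ ∈ Om U δ from ⟨hζ, h0⟩), max_eq_left h0.le]
    push_cast
    rfl
  · rw [indicator_of_notMem (fun hh : ζ ∈ Om U δ => h0 hh.2), max_eq_right (not_lt.1 h0)]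
    simp

omit [FiniteDimensional ℂ V] in
theorem B6_ext_out {G : Ec n → V} {ζ : Ec n} (hζ : ζ ∉ Kc U δ) :
    (Om U δ).indicator (fun ζ => ((δ ζ : ℂ) ^ 2) • G ζ) ζ = 0 :=
  indicator_of_notMem (fun hh : ζ ∈ Om U δ => hζ ⟨hh.1, hh.2.le⟩) _

/-- The function `δ² G` on the domain, extended by `0`, is `C¹` with compact support.
PROOF. Let `K = Kc U δ`, compact (`Geo.cpt`). On the open set `W ∩ U` the function is
`(max (δ ζ) 0)² • G ζ`; the function `t ↦ (max t 0)²` is `C¹` (derivative `2 max t 0`); on the open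
set `Kᶜ` it is `0`. The two open sets cover the space, since `K ⊆ W`. The support is in `K`. -/
theorem ext_c1 (hg : Geo U δ h c C) {W : Set (Ec n)} (hW : IsOpen W) (hK : Kc U δ ⊆ W)
    {G : Ec n → V} (hG : ContDiffOn ℝ 1 G W) :
    ContDiff ℝ 1 ((Om U δ).indicator fun ζ => ((δ ζ : ℂ) ^ 2) • G ζ) ∧
      HasCompactSupport ((Om U δ).indicator fun ζ => ((δ ζ : ℂ) ^ 2) • G ζ) := by
  have hKc : IsCompact (Kc U δ) := hg.cpt
  refine ⟨?_, HasCompactSupport.intro hKc fun ζ hζ => B6_ext_out hζ⟩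
  rw [contDiff_iff_contDiffAt]
  intro ζ
  by_cases hζ : ζ ∈ Kc U δ
  · have hU : U ∈ 𝓝 ζ := hg.opn.mem_nhds hζ.1
    have hWn : W ∈ 𝓝 ζ := hW.mem_nhds (hK hζ)
    have he : ((Om U δ).indicator fun ζ => ((δ ζ : ℂ) ^ 2) • G ζ) =ᶠ[𝓝 ζ]
        fun ζ => (((max (δ ζ) 0) ^ 2 : ℝ) : ℂ) • G ζ := by
      filter_upwards [hU] with y hy
      exact B6_ext_eq hy
    refine ContDiffAt.congr_of_eventuallyEq ?_ he
    have h1 : ContDiffAt ℝ 1 (fun ζ => (max (δ ζ) 0) ^ 2) ζ :=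
      (B6_pos_c1.contDiffAt (x := δ ζ)).comp ζ ((hg.dδ.contDiffAt hU).of_le (by norm_num))
    have h2 : ContDiffAt ℝ 1 (fun ζ => (((max (δ ζ) 0) ^ 2 : ℝ) : ℂ)) ζ :=
      Complex.ofRealCLM.contDiff.contDiffAt.comp ζ h1
    exact h2.smul (hG.contDiffAt hWn)
  · have he : ((Om U δ).indicator fun ζ => ((δ ζ : ℂ) ^ 2) • G ζ) =ᶠ[𝓝 ζ] fun _ => 0 := by
      filter_upwards [hKc.isClosed.isOpen_compl.mem_nhds hζ] with y hy
      exact B6_ext_out hy
    exact ContDiffAt.congr_of_eventuallyEq contDiffAt_const he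

/-- the derivative of the extended function vanishes outside the domain -/
theorem B6_fderiv_out (hg : Geo U δ h c C) {W : Set (Ec n)} (hW : IsOpen W) (hK : Kc U δ ⊆ W)
    {G : Ec n → V} (hG : ContDiffOn ℝ 1 G W) {ζ : Ec n} (hζ : ζ ∉ Om U δ) :
    fderiv ℝ ((Om U δ).indicator fun ζ => ((δ ζ : ℂ) ^ 2) • G ζ) ζ = 0 := by
  have hKc : IsCompact (Kc U δ) := hg.cpt
  by_cases hζK : ζ ∈ Kc U δ
  · have hU : U ∈ 𝓝 ζ := hg.opn.mem_nhds hζK.1
    have hWn : W ∈ 𝓝 ζ := hW.mem_nhds (hK hζK)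
    have hδ0 : δ ζ = 0 := le_antisymm (not_lt.1 fun hh => hζ ⟨hζK.1, hh⟩) hζK.2
    have he : ((Om U δ).indicator fun ζ => ((δ ζ : ℂ) ^ 2) • G ζ) =ᶠ[𝓝 ζ]
        fun ζ => (((max (δ ζ) 0) ^ 2 : ℝ) : ℂ) • G ζ := by
      filter_upwards [hU] with y hy
      exact B6_ext_eq hy
    rw [he.fderiv_eq]
    have hd : HasFDerivAt δ (fderiv ℝ δ ζ) ζ :=
      ((hg.dδ.contDiffAt hU).differentiableAt (by norm_num)).hasFDerivAt
    have h1 : HasFDerivAt (fun ζ => (max (δ ζ) 0) ^ 2) (0 : Ec n →L[ℝ] ℝ) ζ := by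
      have := (B6_pos_deriv (δ ζ)).comp_hasFDerivAt ζ hd
      rw [hδ0] at this
      simpa [Function.comp_def] using this
    have h2 : HasFDerivAt (fun ζ => (((max (δ ζ) 0) ^ 2 : ℝ) : ℂ)) (0 : Ec n →L[ℝ] ℂ) ζ := by
      have := Complex.ofRealCLM.hasFDerivAt.comp ζ h1
      simpa [Function.comp_def] using this
    have h3 : HasFDerivAt (fun ζ => (((max (δ ζ) 0) ^ 2 : ℝ) : ℂ) • G ζ)
        ((((max (δ ζ) 0) ^ 2 : ℝ) : ℂ) • fderiv ℝ G ζ +
          ContinuousLinearMap.smulRight (0 : Ec n →L[ℝ] ℂ) (G ζ)) ζ :=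
      h2.smul ((hG.contDiffAt hWn).differentiableAt (by norm_num)).hasFDerivAt
    rw [h3.fderiv, hδ0]
    ext v
    simp
  · have he : ((Om U δ).indicator fun ζ => ((δ ζ : ℂ) ^ 2) • G ζ) =ᶠ[𝓝 ζ] fun _ => 0 := by
      filter_upwards [hKc.isClosed.isOpen_compl.mem_nhds hζK] with y hy
      exact B6_ext_out hy
    rw [he.fderiv_eq]
    simp

theorem B6_Om_open (hg : Geo U δ h c C) : IsOpen (Om U δ) := by
  have : Om U δ = U ∩ δ ⁻¹' (Ioi 0) := by
    ext z; simp [Om]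
  rw [this]
  exact hg.dδ.continuousOn.isOpen_inter_preimage hg.opn isOpen_Ioi

/-- PROOF. Let `F` be the function of `ext_c1`. The derivative of `F` is the derivative of
`δ² G` on the open set `Om U δ`, and `0` on its complement (there `F = 0`; at the points with
`δ = 0` the derivative of `F`, which is `C¹`, is `0` since `fderiv F = 2 δ (..) G + δ² fderiv G` near
them on `Om`, and `0` outside; or: `F ≥ 0`-type argument; or: by `ext_c1` for each coordinate, or: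
the set of the points of the complement with `fderiv F ≠ 0` : at such a point `F = 0`...). Simplest:
at a point `ζ₀` of `K` with `δ ζ₀ = 0`: `‖F ζ‖ ≤ A |δ ζ|² ≤ A' ‖ζ - ζ₀‖²` near `ζ₀`, so the derivative
is `0`. Then `∫ over Om of db (δ² G) X = ∫ db F X = 0` by `int_fderiv_zero`
(`db F ζ X = 2⁻¹ (fderiv F ζ X + I fderiv F ζ (I X))`), and integrability of `fderiv F · X`
(continuous with compact support). -/
theorem ibp_zero (hg : Geo U δ h c C) {W : Set (Ec n)} (hW : IsOpen W) (hK : Kc U δ ⊆ W)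
    {G : Ec n → V} (hG : ContDiffOn ℝ 1 G W) (X : Ec n) :
    ∫ ζ in Om U δ, db (fun ζ => ((δ ζ : ℂ) ^ 2) • G ζ) ζ X = 0 := by
  obtain ⟨hF, hFc⟩ := ext_c1 hg hW hK hG
  have hopen := B6_Om_open hg
  set F : Ec n → V := (Om U δ).indicator fun ζ => ((δ ζ : ℂ) ^ 2) • G ζ with hFdef
  have h1 : ∫ ζ in Om U δ, db (fun ζ => ((δ ζ : ℂ) ^ 2) • G ζ) ζ X = ∫ ζ in Om U δ, db F ζ X := by
    refine setIntegral_congr_fun hopen.measurableSet fun ζ hζ => ?_
    have he : F =ᶠ[𝓝 ζ] fun ζ => ((δ ζ : ℂ) ^ 2) • G ζ := by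
      filter_upwards [hopen.mem_nhds hζ] with y hy
      exact indicator_of_mem hy _
    simp only [db, he.fderiv_eq]
  have h2 : ∫ ζ in Om U δ, db F ζ X = ∫ ζ, db F ζ X := by
    refine setIntegral_eq_integral_of_forall_compl_eq_zero fun ζ hζ => ?_
    have := B6_fderiv_out hg hW hK hG hζ
    simp only [db]
    rw [hFdef, this]
    simp
  have hint : ∀ Y : Ec n, Integrable (fun ζ => fderiv ℝ F ζ Y) := fun Y =>
    ((hF.continuous_fderiv one_ne_zero).clm_apply continuous_const).integrable_of_hasCompactSupport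
      (hFc.fderiv_apply (𝕜 := ℝ) Y)
  rw [h1, h2]
  simp only [db]
  have hint2 : Integrable (fun ζ => Complex.I • fderiv ℝ F ζ (Complex.I • X)) :=
    (hint (Complex.I • X)).smul Complex.I
  rw [integral_smul, integral_add (hint X) hint2,
    int_fderiv_zero hF hFc, integral_smul, int_fderiv_zero hF hFc]
  simp

omit [FiniteDimensional ℂ V] in
theorem B6_db_smul {k : Ec n → ℂ} {η : Ec n → V} {ζ : Ec n} (hk : DifferentiableAt ℝ k ζ)
    (hη : DifferentiableAt ℝ η ζ) (X : Ec n) :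
    db (fun y => k y • η y) ζ X = db k ζ X • η ζ + k ζ • db η ζ X := by
  have h1 : fderiv ℝ (fun y => k y • η y) ζ = k ζ • fderiv ℝ η ζ + (fderiv ℝ k ζ).smulRight (η ζ) :=
    (hk.hasFDerivAt.smul hη.hasFDerivAt).fderiv
  simp only [db, h1, _root_.add_apply, _root_.smul_apply,
    ContinuousLinearMap.smulRight_apply, smul_add, smul_smul, smul_eq_mul, add_smul, mul_add]
  have e1 : Complex.I * k ζ = k ζ * Complex.I := mul_comm _ _
  have e2 : (2⁻¹ : ℂ) * k ζ = k ζ * 2⁻¹ := mul_comm _ _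
  have e3 : (2⁻¹ : ℂ) * (Complex.I * k ζ) = k ζ * (2⁻¹ * Complex.I) := by ring
  rw [e2, e3]
  abel

omit [FiniteDimensional ℂ V] in
theorem B6_db_cont {η : Ec n → V} {W : Set (Ec n)} (hW : IsOpen W) (hη : ContDiffOn ℝ 1 η W)
    (X : Ec n) : ContinuousOn (fun ζ => db η ζ X) W := by
  have h1 : ContinuousOn (fderiv ℝ η) W := hη.continuousOn_fderiv_of_isOpen hW le_rfl
  have h2 : ∀ Y : Ec n, ContinuousOn (fun ζ => fderiv ℝ η ζ Y) W := fun Y =>
    h1.clm_apply continuousOn_const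
  exact ((h2 X).add ((h2 (Complex.I • X)).const_smul Complex.I)).const_smul (2⁻¹ : ℂ)

/-- the kernel divided by `δ²` -/
noncomputable def B6_g (δ : Ec n → ℝ) (h : Ec n → Ec n → Fin n → ℂ) (ε : ℝ) {q : ℕ}
    (I : Fin q → Fin n) (Y : Fin q → Ec n) (k : Fin n) (τ : ℝ) (z ζ : Ec n) : ℂ :=
  (((δ ζ) ^ (n + 6) * ((1 - τ) * (ε ^ 2 * δ ζ) + τ) ^ (n + 8) : ℝ) : ℂ) /
      aa δ h ε τ z ζ ^ (2 * n + 9) * Matrix.det (cn (rx δ h ε q τ z ζ)
    (Fin.append (Function.update (fun l => rζ δ h ε I τ z ζ (ee l)) k (rτ δ h ε q z ζ))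
      (fun i => rz q τ (Y i))))

theorem B6_KA_eq (ε : ℝ) {q : ℕ}
    (I : Fin q → Fin n) (Y : Fin q → Ec n) (k : Fin n) (τ : ℝ) (z ζ : Ec n) :
    KA δ h ε I Y k τ z ζ = (δ ζ : ℂ) ^ 2 * B6_g δ h ε I Y k τ z ζ := by
  unfold KA B6_g F0 w0
  have : (((1 - τ) * (ε ^ 2 * δ ζ ^ 2) + τ * δ ζ : ℝ) : ℂ) ^ (n + 8) =
      (δ ζ : ℂ) ^ 2 * (((δ ζ) ^ (n + 6) * ((1 - τ) * (ε ^ 2 * δ ζ) + τ) ^ (n + 8) : ℝ) : ℂ) := by
    have : ((1 - τ) * (ε ^ 2 * δ ζ ^ 2) + τ * δ ζ) ^ (n + 8) =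
      (δ ζ) ^ 2 * ((δ ζ) ^ (n + 6) * ((1 - τ) * (ε ^ 2 * δ ζ) + τ) ^ (n + 8)) := by
      have e : (1 - τ) * (ε ^ 2 * δ ζ ^ 2) + τ * δ ζ = δ ζ * ((1 - τ) * (ε ^ 2 * δ ζ) + τ) := by
        ring
      rw [e, mul_pow]
      ring
    rw [← Complex.ofReal_pow, this]
    push_cast
    ring
  rw [this]
  ring

theorem B6_slice_c {r : WithTop ℕ∞} (z : Ec n) (τ : ℝ) :
    ContDiff ℝ r (fun ζ : Ec n => ((z, τ, ζ) : Tn n)) :=
  contDiff_const.prodMk (contDiff_const.prodMk contDiff_id)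

theorem B6_g_c1 (hg : Geo U δ h c C) (ε : ℝ) {q : ℕ} (I : Fin q → Fin n) (Y : Fin q → Ec n)
    (k : Fin n) {z ζ : Ec n} (hz : z ∈ U) (hζ : ζ ∈ U) (τ : ℝ) (ha : aa δ h ε τ z ζ ≠ 0) :
    ContDiffAt ℝ 1 (fun ζ => B6_g δ h ε I Y k τ z ζ) ζ := by
  have hU : U ∈ 𝓝 ζ := hg.opn.mem_nhds hζ
  have hδ : ContDiffAt ℝ 1 δ ζ := (hg.dδ.contDiffAt hU).of_le (by norm_num)
  have hs : ContDiffAt ℝ 1 (fun ζ : Ec n => ((z, τ, ζ) : Tn n)) ζ := (B6_slice_c z τ).contDiffAt
  have haa : ContDiffAt ℝ 1 (fun ζ => aa δ h ε τ z ζ) ζ :=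
    ContDiffAt.comp (g := fun p : Tn n => aa δ h ε p.2.1 p.1 p.2.2) ζ
      ((aa_c2 hg ε hz hζ τ).of_le (by norm_num)) hs
  have h1 : ContDiffAt ℝ 1
      (fun ζ => (δ ζ) ^ (n + 6) * ((1 - τ) * (ε ^ 2 * δ ζ) + τ) ^ (n + 8)) ζ :=
    (hδ.pow _).mul (((contDiffAt_const.mul (contDiffAt_const.mul hδ)).add contDiffAt_const).pow _)
  have h2 : ContDiffAt ℝ 1
      (fun ζ => (((δ ζ) ^ (n + 6) * ((1 - τ) * (ε ^ 2 * δ ζ) + τ) ^ (n + 8) : ℝ) : ℂ)) ζ :=
    Complex.ofRealCLM.contDiff.contDiffAt.comp ζ h1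
  have h3 : ContDiffAt ℝ 1 (fun ζ =>
      (((δ ζ) ^ (n + 6) * ((1 - τ) * (ε ^ 2 * δ ζ) + τ) ^ (n + 8) : ℝ) : ℂ) /
      aa δ h ε τ z ζ ^ (2 * n + 9)) ζ := by
    simp only [div_eq_mul_inv]
    exact h2.mul ((haa.pow _).inv (pow_ne_zero _ ha))
  have k1 : ContDiffAt ℝ 1 (fun y => rx δ h ε q τ z y) ζ := by
    have e := ContDiffAt.comp ζ ((rx_c2 hg ε q hz hζ τ).of_le (by norm_num)) hs
    simp only [Function.comp_def] at e
    exact e
  have k2 : ContDiffAt ℝ 1 (fun y => rτ δ h ε q z y) ζ := by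
    have e := ContDiffAt.comp ζ (rτ_c1 hg ε q hz hζ τ) hs
    simp only [Function.comp_def] at e
    exact e
  have k3 : ∀ l : Fin n, ContDiffAt ℝ 1 (fun y => rζ δ h ε I τ z y (ee l)) ζ := by
    intro l
    have e := ContDiffAt.comp ζ (rζ_c1 hg ε I hz hζ τ (ee l)) hs
    simp only [Function.comp_def] at e
    exact e
  have k4 : ∀ j : Fin (n + q), ContDiffAt ℝ 1 (fun y => (Fin.append
      (Function.update (fun l => rζ δ h ε I τ z y (ee l)) k (rτ δ h ε q z y))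
      (fun i => rz q τ (Y i)) : Fin (n + q) → Fin (n + q + 1) → ℂ) j) ζ := by
    intro j
    refine Fin.addCases (fun l => ?_) (fun i => ?_) j
    · by_cases hl : l = k
      · have e : (fun y => (Fin.append
            (Function.update (fun l => rζ δ h ε I τ z y (ee l)) k (rτ δ h ε q z y))
            (fun i => rz q τ (Y i)) : Fin (n + q) → Fin (n + q + 1) → ℂ) (Fin.castAdd q l)) =
            fun y => rτ δ h ε q z y := by
          funext y
          rw [Fin.append_left, hl, Function.update_self]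
        rw [e]
        exact k2
      · have e : (fun y => (Fin.append
            (Function.update (fun l => rζ δ h ε I τ z y (ee l)) k (rτ δ h ε q z y))
            (fun i => rz q τ (Y i)) : Fin (n + q) → Fin (n + q + 1) → ℂ) (Fin.castAdd q l)) =
            fun y => rζ δ h ε I τ z y (ee l) := by
          funext y
          rw [Fin.append_left, Function.update_of_ne hl]
        rw [e]
        exact k3 l
    · have e : (fun y => (Fin.append
          (Function.update (fun l => rζ δ h ε I τ z y (ee l)) k (rτ δ h ε q z y))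
          (fun i => rz q τ (Y i)) : Fin (n + q) → Fin (n + q + 1) → ℂ) (Fin.natAdd n i)) =
          fun _ => rz q τ (Y i) := by
        funext y
        rw [Fin.append_right]
      rw [e]
      exact contDiffAt_const
  have k5 : ∀ i : Fin (n + q + 1), ContDiffAt ℝ 1 (fun y => cn (rx δ h ε q τ z y)
      (Fin.append (Function.update (fun l => rζ δ h ε I τ z y (ee l)) k (rτ δ h ε q z y))
      (fun i => rz q τ (Y i))) i) ζ := by
    intro i
    refine Fin.cases ?_ (fun j => ?_) i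
    · exact k1
    · exact k4 j
  exact h3.mul (det_c1 k5)

/-- Integration by parts with the kernel.
PROOF. `w0 = δ ((1 - τ) ε² δ + τ)`, so `KA = δ² g` with
`g ζ = δ^(n+6) ((1 - τ) ε² δ + τ)^(n+8) / aa^(2n+9) * det (...)`, which is `C¹` on the open set
`{ζ ∈ U | aa ≠ 0}`, which contains `Kc U δ` (`aa_ne`). Apply `ibp_zero` to `G = g • η` on
`W ∩ {..}`; the product rule `db (k • η) = db k • η + k • db η`; both terms are integrable over
`Om U δ` (continuous on the compact set `Kc U δ`, which contains `Om U δ`; `Om U δ` is measurable: it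
is open). -/
theorem ibp_KA (hg : Geo U δ h c C) {ε : ℝ} (hε : 0 < ε) {τ : ℝ} (hτ : τ ∈ Icc (0 : ℝ) 1)
    {q : ℕ} (I : Fin q → Fin n) (Y : Fin q → Ec n) (k : Fin n) {z : Ec n} (hz : z ∈ Om U δ)
    {W : Set (Ec n)} (hW : IsOpen W) (hK : Kc U δ ⊆ W) {η : Ec n → V} (hη : ContDiffOn ℝ 1 η W) :
    ∫ ζ in Om U δ, KA δ h ε I Y k τ z ζ • db η ζ (ee k) =
      -∫ ζ in Om U δ, db (fun ζ' => KA δ h ε I Y k τ z ζ') ζ (ee k) • η ζ := by
  have hKc : IsCompact (Kc U δ) := hg.cpt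
  have hopen := B6_Om_open hg
  set T : Set (Ec n) := (fun ζ : Ec n => ((z, τ, ζ) : Tn n)) ⁻¹' Tset U δ h ε with hT
  have hTo : IsOpen T := (Tset_open hg ε).preimage (B6_slice_c (r := 0) z τ).continuous
  have hTmem : ∀ ζ ∈ T, ζ ∈ U ∧ aa δ h ε τ z ζ ≠ 0 := fun ζ hζ => ⟨hζ.2.1, hζ.2.2⟩
  have hKT : Kc U δ ⊆ T := fun ζ hζ => ⟨hz.1, hζ.1, aa_ne hg hε hτ hz hζ⟩
  have hWT : IsOpen (W ∩ T) := hW.inter hTo
  have hKWT : Kc U δ ⊆ W ∩ T := subset_inter hK hKT
  have hgc : ContDiffOn ℝ 1 (fun ζ => B6_g δ h ε I Y k τ z ζ) (W ∩ T) := fun ζ hζ =>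
    (B6_g_c1 hg ε I Y k hz.1 (hTmem ζ hζ.2).1 τ (hTmem ζ hζ.2).2).contDiffWithinAt
  have hGc : ContDiffOn ℝ 1 (fun ζ => B6_g δ h ε I Y k τ z ζ • η ζ) (W ∩ T) :=
    hgc.smul (hη.mono inter_subset_left)
  have h0 := ibp_zero hg hWT hKWT hGc (ee k)
  have he : (fun ζ => ((δ ζ : ℂ) ^ 2) • (B6_g δ h ε I Y k τ z ζ • η ζ)) =
      fun ζ => KA δ h ε I Y k τ z ζ • η ζ := by
    funext ζ
    rw [B6_KA_eq, mul_smul]
  rw [he] at h0
  have hkc : ContDiffOn ℝ 1 (fun ζ => KA δ h ε I Y k τ z ζ) T := by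
    have e := ContDiffOn.comp (KA_c1 hg ε I Y k)
      (B6_slice_c z τ).contDiffOn (fun ζ (hζ : ζ ∈ T) => hζ)
    simp only [Function.comp_def] at e
    exact e
  have hOmK : Om U δ ⊆ Kc U δ := fun ζ hζ => ⟨hζ.1, hζ.2.le⟩
  have hI1 : IntegrableOn (fun ζ => db (fun ζ' => KA δ h ε I Y k τ z ζ') ζ (ee k) • η ζ)
      (Om U δ) := by
    refine IntegrableOn.mono_set (ContinuousOn.integrableOn_compact hKc ?_) hOmK
    exact ((B6_db_cont hTo hkc (ee k)).mono hKT).smul (hη.continuousOn.mono hK)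
  have hI2 : IntegrableOn (fun ζ => KA δ h ε I Y k τ z ζ • db η ζ (ee k)) (Om U δ) := by
    refine IntegrableOn.mono_set (ContinuousOn.integrableOn_compact hKc ?_) hOmK
    exact (hkc.continuousOn.mono hKT).smul ((B6_db_cont hW hη (ee k)).mono hK)
  have h1 : ∫ ζ in Om U δ, db (fun ζ => KA δ h ε I Y k τ z ζ • η ζ) ζ (ee k) =
      ∫ ζ in Om U δ, (db (fun ζ' => KA δ h ε I Y k τ z ζ') ζ (ee k) • η ζ +
        KA δ h ε I Y k τ z ζ • db η ζ (ee k)) := by
    refine setIntegral_congr_fun hopen.measurableSet fun ζ hζ => ?_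
    have hζT : T ∈ 𝓝 ζ := hTo.mem_nhds (hKT (hOmK hζ))
    have hζW : W ∈ 𝓝 ζ := hW.mem_nhds (hK (hOmK hζ))
    exact B6_db_smul ((hkc.contDiffAt hζT).differentiableAt (by norm_num))
      ((hη.contDiffAt hζW).differentiableAt (by norm_num)) (ee k)
  rw [h1, integral_add hI1 hI2] at h0
  exact eq_neg_of_add_eq_zero_right h0

end Pool.Agent.MPca0fc2.FD
end

section

/-! The projection is holomorphic; the operator on vectors. -/

set_option autoImplicit false

open Metric Set MeasureTheory Filter Topology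

namespace Pool.Agent.MPca0fc2.FD

variable {n : ℕ} {V : Type*} [NormedAddCommGroup V] [NormedSpace ℂ V] [FiniteDimensional ℂ V]
variable {U : Set (Ec n)} {δ : Ec n → ℝ} {h : Ec n → Ec n → Fin n → ℂ} {c C : ℝ}

omit [FiniteDimensional ℂ V] in
theorem B9_hol_of_db {G : Ec n → V} {z : Ec n} (hG : DifferentiableAt ℝ G z)
    (h0 : ∀ X, db G z X = 0) : DifferentiableAt ℂ G z := by
  have hI : ∀ X, fderiv ℝ G z (Complex.I • X) = Complex.I • fderiv ℝ G z X := by
    intro X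
    have h1 := h0 X
    unfold db at h1
    have h2 : fderiv ℝ G z X + Complex.I • fderiv ℝ G z (Complex.I • X) = 0 := by
      have := congrArg (fun v => (2 : ℂ) • v) h1
      simpa [smul_smul] using this
    have h3 := congrArg (fun v => Complex.I • v) h2
    simp only [smul_add, smul_smul, Complex.I_mul_I, neg_smul, one_smul, smul_zero] at h3
    have h4 : Complex.I • fderiv ℝ G z X = fderiv ℝ G z (Complex.I • X) := by
      rw [← sub_eq_zero, sub_eq_add_neg]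
      exact h3
    exact h4.symm
  rw [differentiableAt_iff_restrictScalars ℝ hG]
  refine ⟨{ toFun := fun X => fderiv ℝ G z X, map_add' := fun X Y => map_add _ X Y,
            map_smul' := ?_, cont := (fderiv ℝ G z).cont }, ?_⟩
  · intro a X
    simp only [RingHom.id_apply]
    have e1 : a • X = a.re • X + a.im • (Complex.I • X) := by
      conv_lhs => rw [← Complex.re_add_im a]
      rw [add_smul, mul_smul]
      rfl
    rw [e1, map_add, map_smul, map_smul, hI]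
    conv_rhs => rw [← Complex.re_add_im a]
    rw [add_smul, mul_smul]
    rfl
  · ext X
    rfl

/-- PROOF. `h z y k` is holomorphic in `z` for each `y`, and `C²` in `(z, y)`. So
`z ↦ db (fun y => h z y k) ζ X` is `C¹` and its conjugate derivative in a direction `Y` is
`db (fun y => (db (fun z => h z y k) z Y)) ζ X = 0` (`cd_comm` with the directions `dζ`, `dz` on the
function `p ↦ h p.1 p.2.2 k` of `Tn n`, or directly the symmetry of the second derivative). A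
`C¹` function with vanishing `db` is holomorphic. -/
theorem dbh_hol (hg : Geo U δ h c C) {ζ : Ec n} (hζ : ζ ∈ U) (X : Ec n) (k : Fin n) :
    DifferentiableOn ℂ (fun z => db (fun y => h z y k) ζ X) U := by
  intro z hz
  refine DifferentiableAt.differentiableWithinAt ?_
  have hUn : U ×ˢ U ∈ 𝓝 ((z, ζ) : Ec n × Ec n) :=
    (hg.opn.prod hg.opn).mem_nhds ⟨hz, hζ⟩
  have hF2 : ∀ z ∈ U, ∀ ζ ∈ U, ∀ τ : ℝ,
      ContDiffAt ℝ 2 (fun p : Tn n => h p.1 p.2.2 k) (z, τ, ζ) := by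
    intro z hz ζ hζ τ
    have h1 : ContDiffAt ℝ 2 (fun p : Ec n × Ec n => h p.1 p.2) (z, ζ) :=
      hg.dh.contDiffAt ((hg.opn.prod hg.opn).mem_nhds ⟨hz, hζ⟩)
    have h2 : ContDiffAt ℝ 2 (fun p : Ec n × Ec n => h p.1 p.2 k) (z, ζ) := by
      exact (contDiffAt_pi.1 h1) k
    have h3 : ContDiffAt ℝ 2 (fun p : Tn n => (p.1, p.2.2)) (z, τ, ζ) := by
      fun_prop
    exact ContDiffAt.comp (z, τ, ζ) (g := fun p : Ec n × Ec n => h p.1 p.2 k) h2 h3
  set F : Tn n → ℂ := fun p => h p.1 p.2.2 k with hFdef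
  have hz0 : ∀ p : Tn n, p.1 ∈ U → p.2.2 ∈ U → ∀ Y : Ec n, cd F p (dz Y) = 0 := by
    rintro ⟨z', τ', ζ'⟩ h1 h2 Y
    rw [cd_dz ((hF2 z' h1 ζ' h2 τ').differentiableAt (by norm_num))]
    have h3 : DifferentiableAt ℂ (fun z => h z ζ') z' :=
      (hg.hol ζ' h2).differentiableAt (hg.opn.mem_nhds h1)
    have h4 : DifferentiableAt ℂ (fun z => h z ζ' k) z' := (differentiableAt_pi.1 h3) k
    exact db_hol h4 Y
  have hop : IsOpen {p : Tn n | p.1 ∈ U ∧ p.2.2 ∈ U} :=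
    (hg.opn.preimage continuous_fst).inter (hg.opn.preimage (continuous_snd.comp continuous_snd))
  have heq : ∀ z' ∈ U, db (fun y => h z' y k) ζ X = cd F (z', 0, ζ) (dζ X) := by
    intro z' hz'
    rw [cd_dζ ((hF2 z' hz' ζ hζ 0).differentiableAt (by norm_num))]
  have hcd : DifferentiableAt ℝ (fun p => cd F p (dζ X)) (z, (0 : ℝ), ζ) :=
    cd_diff (hF2 z hz ζ hζ 0) (dζ X)
  have hD : DifferentiableAt ℝ (fun z' : Ec n => cd F (z', (0 : ℝ), ζ) (dζ X)) z := by
    have h3 : DifferentiableAt ℝ (fun z' : Ec n => ((z', (0 : ℝ), ζ) : Tn n)) z := by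
      fun_prop
    exact DifferentiableAt.comp z (g := fun p => cd F p (dζ X)) hcd h3
  have hC : DifferentiableAt ℂ (fun z' : Ec n => cd F (z', (0 : ℝ), ζ) (dζ X)) z := by
    refine B9_hol_of_db hD ?_
    intro Y
    rw [← cd_dz (F := fun p => cd F p (dζ X)) hcd Y, cd_comm (hF2 z hz ζ hζ 0)]
    have h5 : (fun y => cd F y (dz Y)) =ᶠ[𝓝 ((z, (0 : ℝ), ζ) : Tn n)] fun _ => 0 := by
      filter_upwards [hop.mem_nhds (show ((z, (0 : ℝ), ζ) : Tn n) ∈ _ from ⟨hz, hζ⟩)] with p hp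
      exact hz0 p hp.1 hp.2 Y
    rw [cd_congr h5]
    simp [cd]
  refine hC.congr_of_eventuallyEq ?_
  filter_upwards [hg.opn.mem_nhds hz] with z' hz'
  exact heq z' hz'

/-- PROOF. A real differentiable function with `db G z X = 0` for all `X` has a complex linear
derivative: `fderiv ℝ G z (I • X) = I • fderiv ℝ G z X`. -/
theorem hol_of_db {G : Ec n → V} {z : Ec n} (hG : DifferentiableAt ℝ G z)
    (h0 : ∀ X, db G z X = 0) : DifferentiableAt ℂ G z := by
  exact B9_hol_of_db hG h0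

/-- the determinant of a matrix with differentiable entries -/
theorem B9_det {T : Type*} [NormedAddCommGroup T] [NormedSpace ℂ T] {m : ℕ}
    {R : T → Fin m → Fin m → ℂ} {p : T}
    (hR : ∀ i j, DifferentiableAt ℂ (fun y => R y i j) p) :
    DifferentiableAt ℂ (fun y => Matrix.det (R y)) p := by
  have h1 : (fun y => Matrix.det (R y)) = fun y => ∑ σ : Equiv.Perm (Fin m),
      ((Equiv.Perm.sign σ : ℤ) : ℂ) * ∏ i, R y (σ i) i := by
    funext y
    exact Matrix.det_apply' _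
  rw [h1]
  refine DifferentiableAt.fun_sum fun σ _ => ?_
  refine DifferentiableAt.const_mul ?_ _
  exact (HasFDerivAt.finsetProd (u := Finset.univ) (g := fun i y => R y (σ i) i)
    (fun i _ => (hR (σ i) i).hasFDerivAt)).differentiableAt

theorem B9_aa_one (δ : Ec n → ℝ) (h : Ec n → Ec n → Fin n → ℂ) (ε : ℝ) (z ζ : Ec n) :
    aa δ h ε 1 z ζ = vv δ h z ζ := by
  rw [aa_eq]
  simp

theorem B9_vv_hol (hg : Geo U δ h c C) {z ζ : Ec n} (hz : z ∈ U) (hζ : ζ ∈ U) :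
    DifferentiableAt ℂ (fun z => vv δ h z ζ) z := by
  unfold vv
  have h3 : DifferentiableAt ℂ (fun z => h z ζ) z :=
    (hg.hol ζ hζ).differentiableAt (hg.opn.mem_nhds hz)
  have h4 : ∀ k, DifferentiableAt ℂ (fun z => h z ζ k) z := fun k => (differentiableAt_pi.1 h3) k
  refine DifferentiableAt.const_add _ ?_
  refine DifferentiableAt.fun_sum fun k _ => ?_
  refine (h4 k).mul ?_
  refine DifferentiableAt.const_sub ?_ _
  exact (EuclideanSpace.proj (𝕜 := ℂ) k).differentiableAt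

/-- the entries of the first row, for `τ = 1` -/
theorem B9_rx_hol (hg : Geo U δ h c C) (ε : ℝ) (q : ℕ) {z ζ : Ec n} (hz : z ∈ U) (hζ : ζ ∈ U)
    (j : Fin (n + q + 1)) : DifferentiableAt ℂ (fun z => rx δ h ε q 1 z ζ j) z := by
  have h3 : DifferentiableAt ℂ (fun z => h z ζ) z :=
    (hg.hol ζ hζ).differentiableAt (hg.opn.mem_nhds hz)
  have h4 : ∀ k, DifferentiableAt ℂ (fun z => h z ζ k) z := fun k => (differentiableAt_pi.1 h3) k
  unfold rx sn
  refine Fin.lastCases ?_ (fun j => ?_) j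
  · simp only [Fin.snoc_last]
    exact differentiableAt_const _
  · simp only [Fin.snoc_castSucc]
    refine Fin.addCases (fun k => ?_) (fun k => ?_) j
    · simp only [Fin.append_left, wk]
      simpa using h4 k
    · simp only [Fin.append_right]
      exact differentiableAt_const _

theorem B9_rζ_hol (hg : Geo U δ h c C) (ε : ℝ) {q : ℕ} (I : Fin q → Fin n) {z ζ : Ec n}
    (hz : z ∈ U) (hζ : ζ ∈ U) (X : Ec n)
    (j : Fin (n + q + 1)) : DifferentiableAt ℂ (fun z => rζ δ h ε I 1 z ζ X j) z := by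
  have h4 : ∀ k, DifferentiableAt ℂ (fun z => db (fun y => h z y k) ζ X) z := fun k =>
    (dbh_hol hg hζ X k).differentiableAt (hg.opn.mem_nhds hz)
  unfold rζ sn
  refine Fin.lastCases ?_ (fun j => ?_) j
  · simp only [Fin.snoc_last]
    exact differentiableAt_const _
  · simp only [Fin.snoc_castSucc]
    refine Fin.addCases (fun k => ?_) (fun k => ?_) j
    · simp only [Fin.append_left]
      simpa using h4 k
    · simp only [Fin.append_right]
      exact differentiableAt_const _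

/-- PROOF. For `τ = 1` all the entries of the matrix are holomorphic functions of `z`: `h z ζ k`
(`Geo.hol`), `db (fun y => h z y k) ζ X` (`dbh_hol`), `δ ζ`, constants; the denominator is
`vv δ h z ζ ^ (2 n + 9)`, `vv = aa` at `τ = 1`, not `0`. -/
theorem Kr0_hol (hg : Geo U δ h c C) {ζ : Ec n} (hζ : ζ ∈ Kc U δ) :
    DifferentiableOn ℂ (fun z => Kr0 δ h 1 (Fin.elim0 : Fin 0 → Fin n)
      (Fin.elim0 : Fin 0 → Ec n) 1 z ζ) (Om U δ) := by
  intro z hz
  refine DifferentiableAt.differentiableWithinAt ?_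
  have hzU : z ∈ U := hz.1
  have hζU : ζ ∈ U := hζ.1
  unfold Kr0
  refine DifferentiableAt.mul ?_ ?_
  · unfold F0
    simp only [B9_aa_one]
    simp only [div_eq_mul_inv]
    refine DifferentiableAt.mul (differentiableAt_const _)
      (DifferentiableAt.fun_inv ((B9_vv_hol hg hzU hζU).fun_pow _) ?_)
    have := aa_ne hg (one_pos) (τ := 1) ⟨zero_le_one, le_refl 1⟩ hz hζ
    rw [B9_aa_one] at this
    exact pow_ne_zero _ this
  · refine B9_det fun i j => ?_
    unfold cn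
    refine Fin.cases ?_ (fun i => ?_) i
    · simp only [Fin.cons_zero]
      exact B9_rx_hol hg 1 0 hzU hζU j
    · simp only [Fin.cons_succ]
      refine Fin.addCases (m := n) (n := 0) (fun k => ?_) (fun k => ?_) i
      · simp only [Fin.append_left]
        exact B9_rζ_hol hg 1 (q := 0) Fin.elim0 hzU hζU _ j
      · exact k.elim0

/-- a kernel which is `C¹` on an open set and holomorphic in `z` gives holomorphic integrals -/
theorem B9_int_hol (hg : Geo U δ h c C) {k : Ec n → Ec n → ℂ} {D : Set (Ec n × Ec n)}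
    (hD : IsOpen D) (hk : ContDiffOn ℝ 1 (fun p : Ec n × Ec n => k p.1 p.2) D)
    (hsub : ∀ z ∈ Om U δ, ∀ ζ ∈ Kc U δ, (z, ζ) ∈ D)
    (hh : ∀ ζ ∈ Kc U δ, DifferentiableOn ℂ (fun z => k z ζ) (Om U δ))
    {W : Set (Ec n)} (hK : Kc U δ ⊆ W) {N : Ec n → V} (hN : ContinuousOn N W) :
    DifferentiableOn ℂ (fun z => ∫ ζ in Om U δ, k z ζ • N ζ) (Om U δ) := by
  intro z₀ hz₀
  refine DifferentiableAt.differentiableWithinAt ?_
  have hOm := Om_open hg
  have hsubOK : Om U δ ⊆ Kc U δ := fun z hz => ⟨hz.1, hz.2.le⟩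
  obtain ⟨r, hr0, hr⟩ := Metric.isOpen_iff.1 hOm z₀ hz₀
  have hcb : closedBall z₀ (r / 2) ⊆ Om U δ :=
    (closedBall_subset_ball (by linarith)).trans hr
  set K : Ec n × Ec n → ℂ := fun p => k p.1 p.2 with hKdef
  have hKc : IsCompact (closedBall z₀ (r / 2) ×ˢ Kc U δ) :=
    (isCompact_closedBall _ _).prod hg.cpt
  have hKsub : closedBall z₀ (r / 2) ×ˢ Kc U δ ⊆ D := by
    rintro ⟨z, ζ⟩ ⟨h1, h2⟩
    exact hsub z (hcb h1) ζ h2
  have hfc : ContinuousOn (fderiv ℝ K) D := hk.continuousOn_fderiv_of_isOpen hD le_rfl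
  obtain ⟨B, hB⟩ := hKc.exists_bound_of_continuousOn (hfc.mono hKsub)
  have hNc : ContinuousOn N (Kc U δ) := hN.mono hK
  have hfd : ∀ z ∈ Om U δ, ∀ ζ ∈ Kc U δ, ∀ y : Ec n,
      fderiv ℂ (fun z => k z ζ) z y = fderiv ℝ K (z, ζ) (y, 0) := by
    intro z hz ζ hζ y
    have h1 : DifferentiableAt ℂ (fun z => k z ζ) z :=
      (hh ζ hζ).differentiableAt (hOm.mem_nhds hz)
    have h2 : HasFDerivAt (fun z => k z ζ) ((fderiv ℂ (fun z => k z ζ) z).restrictScalars ℝ) z :=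
      h1.hasFDerivAt.restrictScalars ℝ
    have h3 : DifferentiableAt ℝ K (z, ζ) :=
      (hk.contDiffAt (hD.mem_nhds (hsub z hz ζ hζ))).differentiableAt (by norm_num)
    have h4 : HasFDerivAt (fun z => k z ζ)
        ((fderiv ℝ K (z, ζ)).comp (ContinuousLinearMap.inl ℝ (Ec n) (Ec n))) z := by
      have h5 : HasFDerivAt (fun z : Ec n => (z, ζ)) (ContinuousLinearMap.inl ℝ (Ec n) (Ec n)) z :=
        hasFDerivAt_prodMk_left z ζ
      exact HasFDerivAt.comp z (g := K) h3.hasFDerivAt h5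
    have h6 := congrArg (fun L => L y) (h2.unique h4)
    simpa using h6
  have hkc : ∀ z ∈ Om U δ, ContinuousOn (fun ζ => k z ζ) (Kc U δ) := by
    intro z hz
    have h1 : ContinuousOn (fun ζ : Ec n => K (z, ζ)) (Kc U δ) :=
      hk.continuousOn.comp (Continuous.continuousOn (by fun_prop)) (fun ζ hζ => hsub z hz ζ hζ)
    exact h1
  have hmeas : MeasurableSet (Om U δ) := hOm.measurableSet
  have hOmK : ∀ (f : Ec n → V), ContinuousOn f (Kc U δ) → IntegrableOn f (Om U δ) := by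
    intro f hf
    exact (hf.integrableOn_compact hg.cpt).mono_set hsubOK
  have key := hasFDerivAt_integral_of_dominated_of_fderiv_le (𝕜 := ℂ)
    (μ := volume.restrict (Om U δ)) (F := fun z ζ => k z ζ • N ζ)
    (F' := fun z ζ => (fderiv ℂ (fun z => k z ζ) z).smulRight (N ζ))
    (x₀ := z₀) (s := ball z₀ (r / 2)) (bound := fun ζ => B * ‖N ζ‖)
    (ball_mem_nhds z₀ (by linarith)) ?_ ?_ ?_ ?_ ?_ ?_
  · exact key.differentiableAt
  · filter_upwards [hOm.mem_nhds hz₀] with z hz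
    exact (((hkc z hz).mono hsubOK).smul (hNc.mono hsubOK)).aestronglyMeasurable hmeas
  · exact hOmK _ ((hkc z₀ hz₀).smul hNc)
  · refine ContinuousOn.aestronglyMeasurable ?_ hmeas
    rw [continuousOn_clm_apply]
    intro y
    simp only [ContinuousLinearMap.smulRight_apply]
    refine ContinuousOn.smul ?_ (hNc.mono hsubOK)
    have h1 : ContinuousOn (fun ζ => fderiv ℝ K (z₀, ζ) (y, 0)) (Om U δ) := by
      have h2 : ContinuousOn (fun ζ : Ec n => fderiv ℝ K (z₀, ζ)) (Om U δ) :=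
        hfc.comp (Continuous.continuousOn (by fun_prop))
          (fun ζ hζ => hsub z₀ hz₀ ζ (hsubOK hζ))
      exact h2.clm_apply continuousOn_const
    refine h1.congr fun ζ hζ => ?_
    exact hfd z₀ hz₀ ζ (hsubOK hζ) y
  · refine (ae_restrict_iff' hmeas).2 (Eventually.of_forall fun ζ hζ z hz => ?_)
    have h1 : ‖fderiv ℂ (fun z => k z ζ) z‖ ≤ B := by
      have hzc : z ∈ closedBall z₀ (r / 2) := ball_subset_closedBall hz
      have hB1 := hB (z, ζ) ⟨hzc, hsubOK hζ⟩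
      refine ContinuousLinearMap.opNorm_le_bound _ ((norm_nonneg _).trans hB1) fun y => ?_
      rw [hfd z (hcb hzc) ζ (hsubOK hζ) y]
      refine (ContinuousLinearMap.le_opNorm _ _).trans ?_
      have h2 : ‖((y, 0) : Ec n × Ec n)‖ = ‖y‖ := by
        rw [Prod.norm_def]
        simp
      rw [h2]
      exact mul_le_mul_of_nonneg_right hB1 (norm_nonneg _)
    rw [ContinuousLinearMap.norm_smulRight_apply]
    exact mul_le_mul_of_nonneg_right h1 (norm_nonneg _)
  · exact (hOmK N hNc).norm.const_mul B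
  · refine (ae_restrict_iff' hmeas).2 (Eventually.of_forall fun ζ hζ z hz => ?_)
    have hzc : z ∈ closedBall z₀ (r / 2) := ball_subset_closedBall hz
    have h1 : DifferentiableAt ℂ (fun z => k z ζ) z :=
      (hh ζ (hsubOK hζ)).differentiableAt (hOm.mem_nhds (hcb hzc))
    exact h1.hasFDerivAt.smul_const (N ζ)

theorem B9_D_open (hg : Geo U δ h c C) :
    IsOpen {p : Ec n × Ec n | p.1 ∈ U ∧ p.2 ∈ U ∧ aa δ h 1 1 p.1 p.2 ≠ 0} := by
  have h1 : Continuous fun p : Ec n × Ec n => ((p.1, (1 : ℝ), p.2) : Tn n) := by fun_prop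
  exact (Tset_open hg 1).preimage h1

/-- A continuous kernel which is `C¹` and holomorphic in `z` gives holomorphic integrals.
PROOF. As `param_diff`, `param_db` (without the variable `τ`; you may use them with the data
`g p = N p.2`, since the integral over `Icc 0 1` of a constant is the constant, if you put
`k (z, τ, ζ)` independent of `τ`), and `hol_of_db`. Here `Tset` with `ε = 1`. -/
theorem int_hol (hg : Geo U δ h c C) {k : Ec n → Ec n → ℂ}
    (hk : ContDiffOn ℝ 1 (fun p : Ec n × Ec n => k p.1 p.2)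
      {p | p.1 ∈ U ∧ p.2 ∈ U ∧ aa δ h 1 1 p.1 p.2 ≠ 0})
    (hh : ∀ ζ ∈ Kc U δ, DifferentiableOn ℂ (fun z => k z ζ) (Om U δ))
    {W : Set (Ec n)} (hK : Kc U δ ⊆ W) {N : Ec n → V} (hN : ContinuousOn N W) :
    DifferentiableOn ℂ (fun z => ∫ ζ in Om U δ, k z ζ • N ζ) (Om U δ) := by
  refine B9_int_hol hg (B9_D_open hg) hk ?_ hh hK hN
  intro z hz ζ hζ
  exact ⟨hz.1, hζ.1, aa_ne hg one_pos ⟨zero_le_one, le_refl 1⟩ hz hζ⟩

/-- PROOF. `int_hol`, `Kr0_hol`, `Kr0_c1` (compose with `(z, ζ) ↦ (z, 1, ζ)`). -/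
theorem Pop_hol (hg : Geo U δ h c C) {W : Set (Ec n)} (hK : Kc U δ ⊆ W) {N : Ec n → V}
    (hN : ContinuousOn N W) : DifferentiableOn ℂ (Pop U δ h N) (Om U δ) := by
  have h1 : ContDiffOn ℝ 1 (fun p : Ec n × Ec n => Kr0 δ h 1 (Fin.elim0 : Fin 0 → Fin n)
      (Fin.elim0 : Fin 0 → Ec n) 1 p.1 p.2)
      {p | p.1 ∈ U ∧ p.2 ∈ U ∧ aa δ h 1 1 p.1 p.2 ≠ 0} := by
    have h2 : ContDiffOn ℝ 1 (fun p : Ec n × Ec n => ((p.1, (1 : ℝ), p.2) : Tn n))
        {p | p.1 ∈ U ∧ p.2 ∈ U ∧ aa δ h 1 1 p.1 p.2 ≠ 0} := by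
      fun_prop
    have h4 := Kr0_c1 hg 1 (Fin.elim0 : Fin 0 → Fin n) (Fin.elim0 : Fin 0 → Ec n)
    have h5 : MapsTo (fun p : Ec n × Ec n => ((p.1, (1 : ℝ), p.2) : Tn n))
        {p | p.1 ∈ U ∧ p.2 ∈ U ∧ aa δ h 1 1 p.1 p.2 ≠ 0} (Tset U δ h 1) :=
      fun p hp => ⟨hp.1, hp.2.1, hp.2.2⟩
    have h6 := ContDiffOn.comp h4 h2 h5
    exact h6
  have h3 := int_hol hg (k := fun z ζ => Kr0 δ h 1 (Fin.elim0 : Fin 0 → Fin n)
      (Fin.elim0 : Fin 0 → Ec n) 1 z ζ) h1 (fun ζ hζ => Kr0_hol hg hζ) hK hN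
  exact h3.const_smul (kn n)

/-- the determinant with the row in the place `i` of the second block replaced -/
theorem B9_upd {q : ℕ} (x : Fin (n + (q + 1) + 1) → ℂ) (A : Fin n → Fin (n + (q + 1) + 1) → ℂ)
    (t : Fin (n + (q + 1) + 1) → ℂ) (R : Fin q → Fin (n + (q + 1) + 1) → ℂ) (i : Fin q)
    (v : Fin (n + (q + 1) + 1) → ℂ) :
    (cn x (Fin.append A (sn (Function.update R i v) t)) :
        Fin (n + (q + 1) + 1) → Fin (n + (q + 1) + 1) → ℂ) =
      Function.update (cn x (Fin.append A (sn R t))) (Fin.natAdd n i.castSucc).succ v := by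
  funext j
  unfold cn sn
  refine Fin.cases ?_ (fun j => ?_) j
  · simp [Fin.ext_iff]
  · rw [Fin.cons_succ]
    refine Fin.addCases (fun k => ?_) (fun k => ?_) j
    · rw [Fin.append_left, Function.update_of_ne, Fin.cons_succ, Fin.append_left]
      intro h1
      have h2 := congrArg Fin.val h1
      simp at h2
      have := k.2
      omega
    · rw [Fin.append_right]
      refine Fin.lastCases ?_ (fun k => ?_) k
      · rw [Fin.snoc_last, Function.update_of_ne, Fin.cons_succ, Fin.append_right, Fin.snoc_last]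
        intro h1
        have h2 := congrArg Fin.val h1
        simp at h2
        have := i.2
        omega
      · rw [Fin.snoc_castSucc]
        by_cases hki : k = i
        · subst hki
          simp
        · rw [Function.update_of_ne hki, Function.update_of_ne, Fin.cons_succ, Fin.append_right,
            Fin.snoc_castSucc]
          intro h1
          have h2 := congrArg Fin.val h1
          simp at h2
          exact hki (Fin.ext h2)

/-- the multilinear map -/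
noncomputable def B9_M {q : ℕ} (x : Fin (n + (q + 1) + 1) → ℂ)
    (A : Fin n → Fin (n + (q + 1) + 1) → ℂ) (t : Fin (n + (q + 1) + 1) → ℂ) :
    MultilinearMap ℂ (fun _ : Fin q => (Fin (n + (q + 1) + 1) → ℂ)) ℂ where
  toFun R := Matrix.detRowAlternating (cn x (Fin.append A (sn R t)))
  map_update_add' := by
    intro inst R i v w
    obtain rfl : inst = instDecidableEqFin q := Subsingleton.elim _ _
    rw [B9_upd, B9_upd, B9_upd]
    exact Matrix.detRowAlternating.map_update_add _ _ _ _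
  map_update_smul' := by
    intro inst R i a v
    obtain rfl : inst = instDecidableEqFin q := Subsingleton.elim _ _
    rw [B9_upd, B9_upd]
    exact Matrix.detRowAlternating.map_update_smul _ _ _ _

theorem B9_rz (q : ℕ) (τ : ℝ) (Y : Ec n) :
    rz q τ Y = ∑ k, (starRingEnd ℂ) (Y k) • rz q τ (ee k) := by
  funext j
  rw [Finset.sum_apply]
  simp only [Pi.smul_apply, smul_eq_mul]
  unfold rz sn
  refine Fin.lastCases ?_ (fun j => ?_) j
  · simp
  · simp only [Fin.snoc_castSucc]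
    refine Fin.addCases (fun k => ?_) (fun k => ?_) j
    · simp only [Fin.append_left]
      rw [Finset.sum_eq_single k]
      · simp [ee]
        ring
      · intro l _ hl
        simp [ee, hl.symm]
      · simp
    · simp

theorem B9_Ker (δ : Ec n → ℝ) (h : Ec n → Ec n → Fin n → ℂ) (ε : ℝ) {q : ℕ}
    (I : Fin (q + 1) → Fin n) (Y : Fin q → Ec n) (τ : ℝ) (z ζ : Ec n) :
    Ker δ h ε I Y τ z ζ = ∑ J : Fin q → Fin n, (∏ i, (starRingEnd ℂ) (Y i (J i))) *
      Ker δ h ε I (fun i => ee (J i)) τ z ζ := by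
  have h1 : ∀ Y : Fin q → Ec n, Ker δ h ε I Y τ z ζ = F0 δ h ε τ z ζ *
      B9_M (rx δ h ε (q + 1) τ z ζ) (fun l => rζ δ h ε I τ z ζ (ee l)) (rτ δ h ε (q + 1) z ζ)
        (fun i => rz (q + 1) τ (Y i)) := fun Y => rfl
  rw [h1]
  have h2 : (fun i => rz (q + 1) τ (Y i)) =
      fun i => ∑ k, (starRingEnd ℂ) (Y i k) • rz (n := n) (q + 1) τ (ee k) := by
    funext i
    exact B9_rz (q + 1) τ (Y i)
  rw [h2, MultilinearMap.map_sum, Finset.mul_sum]
  refine Finset.sum_congr rfl fun J _ => ?_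
  rw [h1, MultilinearMap.map_smul_univ, smul_eq_mul]
  ring

/-- The operator evaluated on vectors.
PROOF. `ee`-expansion: `rz (q + 1) τ Y` is conjugate linear in `Y`, so
`Ker δ h ε I Y τ z ζ = ∑ J, (∏ i, conj (Y i (J i))) * Ker δ h ε I (fun i => ee (J i)) τ z ζ`
(the determinant is multilinear in the rows: `MultilinearMap.map_sum`, `map_smul_univ` for
`Matrix.detRowAlternating`, or induct on the rows). Then exchange the sums and the integrals
(`param_int`, `Ker_c1`). -/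
theorem ev_Sop (hg : Geo U δ h c C) {ε : ℝ} (hε : 0 < ε) {q : ℕ} {η : Fm n (q + 1) V}
    {W : Set (Ec n)} (hK : Kc U δ ⊆ W) (hη : ∀ I, ContinuousOn (η I) W)
    {z : Ec n} (hz : z ∈ Om U δ) (Y : Fin q → Ec n) :
    ev (Sop U δ h ε η) z Y = (kn n / (q + 1).factorial) •
      ∫ p in Icc (0 : ℝ) 1 ×ˢ Om U δ, ∑ I : Fin (q + 1) → Fin n,
        Ker δ h ε I Y p.1 z p.2 • η I p.2 := by
  have hint : ∀ (I : Fin (q + 1) → Fin n) (Y : Fin q → Ec n),
      IntegrableOn (fun p : ℝ × Ec n => Ker δ h ε I Y p.1 z p.2 • η I p.2)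
        (Icc (0 : ℝ) 1 ×ˢ Om U δ) := by
    intro I Y
    exact param_int hg hε (Ker_c1 hg ε I Y).continuousOn (int_snd hg hK (hη I)).1 hz
  rw [integral_finsetSum _ (fun I _ => hint I Y)]
  unfold ev Sop
  have h1 : ∀ J : Fin q → Fin n, (∏ i, (starRingEnd ℂ) (Y i (J i))) •
      ((kn n / (q + 1).factorial) • ∑ I : Fin (q + 1) → Fin n,
        ∫ p in Icc (0 : ℝ) 1 ×ˢ Om U δ, Ker δ h ε I (fun i => ee (J i)) p.1 z p.2 • η I p.2) =
      (kn n / (q + 1).factorial) • ∑ I : Fin (q + 1) → Fin n,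
        ∫ p in Icc (0 : ℝ) 1 ×ˢ Om U δ, ((∏ i, (starRingEnd ℂ) (Y i (J i))) *
          Ker δ h ε I (fun i => ee (J i)) p.1 z p.2) • η I p.2 := by
    intro J
    rw [smul_comm, Finset.smul_sum]
    congr 1
    refine Finset.sum_congr rfl fun I _ => ?_
    rw [← integral_smul]
    refine integral_congr_ae (Eventually.of_forall fun p => ?_)
    simp only [mul_smul]
  rw [Finset.sum_congr rfl fun J _ => h1 J, ← Finset.smul_sum, Finset.sum_comm]
  congr 1
  refine Finset.sum_congr rfl fun I _ => ?_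
  rw [← integral_finsetSum]
  · refine integral_congr_ae (Eventually.of_forall fun p => ?_)
    simp only []
    rw [← Finset.sum_smul, ← B9_Ker]
  · intro J _
    have := (hint I (fun i => ee (J i))).smul (∏ i, (starRingEnd ℂ) (Y i (J i)))
    refine this.congr (Eventually.of_forall fun p => ?_)
    simp only [Pi.smul_apply, mul_smul]

end Pool.Agent.MPca0fc2.FD
end

section

/-! The approximate identities. -/

set_option autoImplicit false

open Metric Set MeasureTheory Filter Topology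

namespace Pool.Agent.MPca0fc2.FD

variable {n : ℕ} {V : Type*} [NormedAddCommGroup V] [NormedSpace ℂ V] [FiniteDimensional ℂ V]
variable {U : Set (Ec n)} {δ : Ec n → ℝ} {h : Ec n → Ec n → Fin n → ℂ} {c C : ℝ}

private theorem fr (n : ℕ) : Module.finrank ℝ (Ec n) = 2 * n := by
  have h := Module.finrank_mul_finrank ℝ ℂ (Ec n)
  rw [Complex.finrank_real_complex, finrank_euclideanSpace_fin] at h
  exact h.symm

private theorem cst_integrable_aux (n : ℕ) :
    Integrable (fun x : Ec n => ((1 + ‖x‖ ^ 2) ^ (2 * n + 9))⁻¹) := by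
  have h := @integrable_rpow_neg_one_add_norm_sq (Ec n) _ _ _ _ _ volume _ (2 * (2 * n + 9) : ℝ) (by
    rw [fr]; push_cast; linarith [(Nat.cast_nonneg n : (0:ℝ) ≤ n)])
  refine h.congr (Eventually.of_forall fun x => ?_)
  have h0 : (0 : ℝ) ≤ 1 + ‖x‖ ^ 2 := by positivity
  show (1 + ‖x‖ ^ 2) ^ (-(2 * (2 * n + 9) : ℝ) / 2) = _
  rw [show (-(2 * (2 * n + 9) : ℝ) / 2) = -((2 * n + 9 : ℕ) : ℝ) by push_cast; ring,
    Real.rpow_neg h0, Real.rpow_natCast]

/-- PROOF. `integrable_one_add_norm` type bounds: the real dimension is `2 n < 2 (2 n + 9)`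
(`integrable_rpow_neg_one_add_norm_sq`). Positivity: the integrand is continuous and positive. -/
theorem cst_pos (n : ℕ) : 0 < cst n := by
  unfold cst
  rw [integral_pos_iff_support_of_nonneg (fun x => by positivity) (cst_integrable_aux n)]
  have : Function.support (fun x : Ec n => ((1 + ‖x‖ ^ 2) ^ (2 * n + 9))⁻¹) = Set.univ := by
    ext x
    simp only [Function.mem_support, Set.mem_univ, iff_true]
    positivity
  rw [this]
  exact Measure.measure_univ_pos.mpr (NeZero.ne _)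

/-- PROOF. As `cst_pos`. -/
theorem cst_integrable (n : ℕ) :
    Integrable (fun x : Ec n => ((1 + ‖x‖ ^ 2) ^ (2 * n + 9))⁻¹) := by
  exact cst_integrable_aux n

private theorem scale_pt {n : ℕ} {lam : ℝ} (hl : 0 < lam) (x : Ec n) :
    lam ^ (n + 9) / (lam + ‖x‖ ^ 2) ^ (2 * n + 9) =
      (lam ^ n)⁻¹ * ((1 + ‖(Real.sqrt lam)⁻¹ • x‖ ^ 2) ^ (2 * n + 9))⁻¹ := by
  have hs : 0 < Real.sqrt lam := Real.sqrt_pos.mpr hl
  have h1 : ‖(Real.sqrt lam)⁻¹ • x‖ ^ 2 = ‖x‖ ^ 2 / lam := by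
    rw [norm_smul, mul_pow, norm_inv, Real.norm_of_nonneg hs.le, inv_pow, Real.sq_sqrt hl.le]
    ring
  rw [h1]
  have h2 : lam + ‖x‖ ^ 2 = lam * (1 + ‖x‖ ^ 2 / lam) := by field_simp
  rw [h2, mul_pow]
  have h3 : (0 : ℝ) < 1 + ‖x‖ ^ 2 / lam := by positivity
  have h4 : lam ^ (2 * n + 9) = lam ^ (n + 9) * lam ^ n := by rw [← pow_add]; ring_nf
  rw [h4]
  field_simp

/-- PROOF. The substitution `x = z + √λ y`: `volume` scales with `(√λ)^(2n) = λ^n`
(`Measure.integral_comp_smul`, `finrank ℝ (Ec n) = 2 n`), translation invariance. -/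
theorem int_scale {lam : ℝ} (hl : 0 < lam) (z : Ec n) :
    ∫ ζ : Ec n, lam ^ (n + 9) / (lam + ‖ζ - z‖ ^ 2) ^ (2 * n + 9) = cst n := by
  rw [integral_sub_right_eq_self (fun x : Ec n => lam ^ (n + 9) / (lam + ‖x‖ ^ 2) ^ (2 * n + 9)) z]
  simp_rw [scale_pt hl]
  rw [integral_const_mul, Measure.integral_comp_smul volume (fun x : Ec n => ((1 + ‖x‖ ^ 2) ^ (2 * n + 9))⁻¹)]
  rw [fr]
  have hs : 0 < Real.sqrt lam := Real.sqrt_pos.mpr hl
  have : ((Real.sqrt lam)⁻¹ ^ (2 * n))⁻¹ = lam ^ n := by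
    rw [inv_pow, inv_inv, pow_mul, Real.sq_sqrt hl.le]
  rw [this, abs_of_pos (by positivity), smul_eq_mul, ← mul_assoc, inv_mul_cancel₀ (by positivity), one_mul]
  rfl

/-- The tails are small. PROOF. The substitution of `int_scale`: the integral is
`∫ over {‖y‖ ≥ r / √λ}` of the integrand of `cst`, which tends to `0` as `r / √λ → ∞`. More
precisely: for `‖x‖ ≥ r` we have `(λ + ‖x‖²)^(2n+9) ≥ r² ...`; or dominated convergence. -/
theorem int_tail (n : ℕ) (e : ℝ) (he : 0 < e) : ∃ R : ℝ, 0 < R ∧ ∀ (lam r : ℝ) (z : Ec n), 0 < lam →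
    R * Real.sqrt lam ≤ r →
      ∫ ζ in (ball z r)ᶜ, lam ^ (n + 9) / (lam + ‖ζ - z‖ ^ 2) ^ (2 * n + 9) ≤ e := by
  -- tail of the fixed integrand
  have htail : ∃ R : ℝ, 0 < R ∧ ∫ x in (ball (0 : Ec n) R)ᶜ, ((1 + ‖x‖ ^ 2) ^ (2 * n + 9))⁻¹ ≤ e := by
    have hanti : Antitone fun k : ℕ => (ball (0 : Ec n) k)ᶜ := fun a b hab =>
      compl_subset_compl.mpr (ball_subset_ball (by exact_mod_cast hab))
    have hlim := tendsto_setIntegral_of_antitone (μ := volume)
      (f := fun x : Ec n => ((1 + ‖x‖ ^ 2) ^ (2 * n + 9))⁻¹)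
      (fun k : ℕ => (measurableSet_ball (x := (0 : Ec n)) (ε := (k : ℝ))).compl) hanti
      ⟨0, (cst_integrable n).integrableOn⟩
    have hempty : (⋂ k : ℕ, (ball (0 : Ec n) k)ᶜ) = ∅ := by
      rw [← compl_iUnion, iUnion_ball_nat, compl_univ]
    rw [hempty, setIntegral_empty] at hlim
    obtain ⟨k, hk⟩ := ((hlim.eventually (gt_mem_nhds he)).and (eventually_gt_atTop 0)).exists
    exact ⟨k, by exact_mod_cast hk.2, hk.1.le⟩
  obtain ⟨R, hR, hRe⟩ := htail
  refine ⟨R, hR, fun lam r z hl hr => ?_⟩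
  have hs : 0 < Real.sqrt lam := Real.sqrt_pos.mpr hl
  -- indicator form
  have hnn : ∀ x : Ec n, 0 ≤ ((1 + ‖x‖ ^ 2) ^ (2 * n + 9))⁻¹ := fun x => by positivity
  have key : ∫ ζ in (ball z r)ᶜ, lam ^ (n + 9) / (lam + ‖ζ - z‖ ^ 2) ^ (2 * n + 9) =
      (lam ^ n)⁻¹ * ∫ x : Ec n, ((ball (0 : Ec n) (r / Real.sqrt lam))ᶜ.indicator
        (fun x => ((1 + ‖x‖ ^ 2) ^ (2 * n + 9))⁻¹)) ((Real.sqrt lam)⁻¹ • x) := by
    rw [← integral_indicator measurableSet_ball.compl, ← integral_const_mul]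
    rw [← integral_sub_right_eq_self (fun x : Ec n => (lam ^ n)⁻¹ * ((ball (0 : Ec n) (r / Real.sqrt lam))ᶜ.indicator
        (fun x => ((1 + ‖x‖ ^ 2) ^ (2 * n + 9))⁻¹)) ((Real.sqrt lam)⁻¹ • x)) z]
    refine integral_congr_ae (Eventually.of_forall fun ζ => ?_)
    have hiff : ζ ∈ (ball z r)ᶜ ↔ (Real.sqrt lam)⁻¹ • (ζ - z) ∈ (ball (0 : Ec n) (r / Real.sqrt lam))ᶜ := by
      simp only [mem_compl_iff, mem_ball, dist_eq_norm, sub_zero, not_lt, norm_smul, norm_inv,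
        Real.norm_of_nonneg hs.le]
      rw [inv_mul_eq_div, div_le_div_iff_of_pos_right hs]
    by_cases hm : ζ ∈ (ball z r)ᶜ
    · have hm' := hiff.mp hm
      simp only [indicator_of_mem hm, indicator_of_mem hm']
      exact scale_pt hl _
    · have hm' := fun hh => hm (hiff.mpr hh)
      simp only [indicator_of_notMem hm, indicator_of_notMem hm', mul_zero]
  rw [key, Measure.integral_comp_smul volume, fr]
  have h5 : ((Real.sqrt lam)⁻¹ ^ (2 * n))⁻¹ = lam ^ n := by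
    rw [inv_pow, inv_inv, pow_mul, Real.sq_sqrt hl.le]
  rw [h5, abs_of_pos (by positivity), smul_eq_mul, ← mul_assoc, inv_mul_cancel₀ (by positivity), one_mul,
    integral_indicator measurableSet_ball.compl]
  refine le_trans (setIntegral_mono_set (cst_integrable n).integrableOn
    (Eventually.of_forall fun x => hnn x) ?_) hRe
  refine LE.le.eventuallyLE (compl_subset_compl.mpr (ball_subset_ball ?_))
  rwa [le_div_iff₀ hs]

private theorem sn_append {α : Type*} {n q : ℕ} (u : Fin n → α) (v : Fin q → α) (w : α) :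
    (sn (Fin.append u v) w : Fin (n + q + 1) → α) = (Fin.append u (sn v w) : Fin (n + (q + 1)) → α) := by
  funext a
  revert a
  show ∀ a : Fin (n + (q + 1)), sn (Fin.append u v) w a = Fin.append u (sn v w) a
  intro a
  refine Fin.addCases (fun l => ?_) (fun i => ?_) a
  · rw [Fin.append_left]
    have : (Fin.castAdd (q + 1) l : Fin (n + (q + 1))) = Fin.castSucc (Fin.castAdd q l) := rfl
    unfold sn
    rw [this, Fin.snoc_castSucc, Fin.append_left]
  · rw [Fin.append_right]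
    refine Fin.lastCases ?_ (fun i => ?_) i
    · have : (Fin.natAdd n (Fin.last q) : Fin (n + (q + 1))) = Fin.last (n + q) := rfl
      unfold sn
      rw [this, Fin.snoc_last, Fin.snoc_last]
    · have : (Fin.natAdd n (Fin.castSucc i) : Fin (n + (q + 1))) = Fin.castSucc (Fin.natAdd n i) := rfl
      unfold sn
      rw [this, Fin.snoc_castSucc, Fin.snoc_castSucc, Fin.append_right]

private theorem append_cn {α : Type*} {n q : ℕ} (u : Fin n → α) (x : α) (v : Fin q → α) :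
    (Fin.append u (cn x v) : Fin (n + (q + 1)) → α) =
      (cn x (Fin.append u v) : Fin (n + q + 1) → α) ∘ (Fin.cycleRange (⟨n, by omega⟩ : Fin (n + q + 1))) := by
  funext a
  revert a
  show ∀ a : Fin (n + q + 1), (Fin.append u (cn x v) : Fin (n + (q + 1)) → α) a = _
  intro a
  have hself : (Fin.natAdd n (0 : Fin (q + 1)) : Fin (n + q + 1)) = ⟨n, by omega⟩ := Fin.ext (by simp)
  by_cases ha : a = (⟨n, by omega⟩ : Fin (n + q + 1))
  · subst ha
    simp only [Function.comp, Fin.cycleRange_self]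
    rw [← hself]
    rw [Fin.append_right]
    rfl
  · obtain ⟨j, rfl⟩ := Fin.exists_succAbove_eq ha
    simp only [Function.comp, Fin.cycleRange_succAbove]
    show _ = (cn x (Fin.append u v) : Fin (n + q + 1) → α) j.succ
    unfold cn
    rw [Fin.cons_succ]
    revert ha
    refine Fin.addCases (fun l => ?_) (fun i => ?_) j
    · intro _
      have h1 : ((⟨n, by omega⟩ : Fin (n + q + 1)).succAbove (Fin.castAdd q l) : Fin (n + q + 1)) =
          (Fin.castAdd (q + 1) l : Fin (n + (q + 1))) := by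
        rw [Fin.succAbove_of_castSucc_lt _ _ (by rw [Fin.lt_def]; exact l.2)]
        rfl
      rw [h1, Fin.append_left, Fin.append_left]
    · intro _
      have h1 : ((⟨n, by omega⟩ : Fin (n + q + 1)).succAbove (Fin.natAdd n i) : Fin (n + q + 1)) =
          (Fin.natAdd n (Fin.succ i) : Fin (n + (q + 1))) := by
        rw [Fin.succAbove_of_le_castSucc _ _ (by rw [Fin.le_def]; simp)]
        rfl
      rw [h1, Fin.append_right, Fin.append_right, Fin.cons_succ]

private theorem det_abs {R : Type*} [CommRing R] {n q : ℕ} (c : Fin n → R) (lam : R)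
    (e : Fin n → Fin q → R) (μ : Fin n → R) (d : Fin q → Fin n → R) :
    Matrix.det (cn (sn (Fin.append c (0 : Fin q → R)) lam)
      (Fin.append (fun l => sn (Fin.append (Pi.single l 1 : Fin n → R) (e l)) (μ l))
        (fun i => sn (Fin.append (fun k => - d i k) (0 : Fin q → R)) 0)) :
          Fin (n + q + 1) → Fin (n + q + 1) → R) =
      (-1) ^ n * Matrix.det (cn (sn (fun j => - ∑ l, c l * e l j) (lam - ∑ l, c l * μ l))
        (fun i => sn (fun j => ∑ l, d i l * e l j) (∑ l, d i l * μ l)) :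
          Fin (q + 1) → Fin (q + 1) → R) := by
  set x : Fin (n + q + 1) → R := sn (Fin.append c (0 : Fin q → R)) lam with hx
  set E : Fin n → Fin (n + q + 1) → R :=
    fun l => sn (Fin.append (Pi.single l 1 : Fin n → R) (e l)) (μ l) with hE
  set Y : Fin q → Fin (n + q + 1) → R :=
    fun i => sn (Fin.append (fun k => - d i k) (0 : Fin q → R)) 0 with hY
  set M : Matrix (Fin (n + q + 1)) (Fin (n + q + 1)) R := cn x (Fin.append E Y) with hM
  set σ := Fin.cycleRange (⟨n, by omega⟩ : Fin (n + q + 1)) with hσ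
  have h1 : Matrix.det (fun a => M (σ a)) = (-1) ^ n * Matrix.det M := by
    have := Matrix.det_permute σ M
    rw [hσ, Fin.sign_cycleRange] at this
    rw [show (fun a => M (σ a)) = M.submatrix σ id from rfl, this]
    push_cast
    rfl
  have h2 : Matrix.det M = (-1) ^ n * Matrix.det (fun a => M (σ a)) := by
    rw [h1, ← mul_assoc, ← mul_pow]; simp
  have h3 : (fun a => M (σ a)) = (Fin.append E (cn x Y) : Fin (n + (q + 1)) → _) := by
    rw [append_cn]; rfl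
  show Matrix.det M = _
  rw [h2, h3]
  congr 1
  have h4 : Matrix.det (Fin.append E (cn x Y) : Fin (n + (q + 1)) → Fin (n + (q + 1)) → R) =
      Matrix.det ((Matrix.of (Fin.append E (cn x Y) : Fin (n + (q + 1)) → Fin (n + (q + 1)) → R)).submatrix
        finSumFinEquiv finSumFinEquiv) := by
    rw [Matrix.det_submatrix_equiv_self]; rfl
  have h5 : ((Matrix.of (Fin.append E (cn x Y) : Fin (n + (q + 1)) → Fin (n + (q + 1)) → R)).submatrix
        finSumFinEquiv finSumFinEquiv) = Matrix.fromBlocks (1 : Matrix (Fin n) (Fin n) R)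
          (Matrix.of fun l => sn (e l) (μ l)) (Matrix.of (cn c (fun i k => - d i k)))
          (Matrix.of (cn (sn 0 lam) (fun _ => sn 0 0))) := by
    ext a b
    rcases a with a | a
    · rcases b with b | b
      · simp only [Matrix.submatrix_apply, Matrix.of_apply, finSumFinEquiv_apply_left,
          Matrix.fromBlocks_apply₁₁]
        rw [Fin.append_left, hE]
        simp only [sn_append]
        rw [Fin.append_left, Matrix.one_apply, Pi.single_apply]
        simp [eq_comm]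
      · simp only [Matrix.submatrix_apply, Matrix.of_apply, finSumFinEquiv_apply_left,
          finSumFinEquiv_apply_right, Matrix.fromBlocks_apply₁₂]
        rw [Fin.append_left, hE]
        simp only [sn_append]
        rw [Fin.append_right]
    · rcases b with b | b
      · simp only [Matrix.submatrix_apply, Matrix.of_apply, finSumFinEquiv_apply_left,
          finSumFinEquiv_apply_right, Matrix.fromBlocks_apply₂₁]
        rw [Fin.append_right]
        refine Fin.cases ?_ (fun a => ?_) a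
        · unfold cn
          rw [Fin.cons_zero, Fin.cons_zero, hx, sn_append, Fin.append_left]
        · unfold cn
          rw [Fin.cons_succ, Fin.cons_succ, hY]
          simp only [sn_append]
          rw [Fin.append_left]
      · simp only [Matrix.submatrix_apply, Matrix.of_apply,
          finSumFinEquiv_apply_right, Matrix.fromBlocks_apply₂₂]
        rw [Fin.append_right]
        refine Fin.cases ?_ (fun a => ?_) a
        · unfold cn
          rw [Fin.cons_zero, Fin.cons_zero, hx, sn_append, Fin.append_right]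
        · unfold cn
          rw [Fin.cons_succ, Fin.cons_succ, hY]
          simp only [sn_append]
          rw [Fin.append_right]
  rw [h4, h5, Matrix.det_fromBlocks_one₁₁]
  congr 1
  ext a b
  simp only [Matrix.sub_apply, Matrix.mul_apply, Matrix.of_apply]
  refine Fin.cases ?_ (fun a => ?_) a
  · refine Fin.lastCases ?_ (fun b => ?_) b
    · unfold cn sn
      simp only [Fin.cons_zero, Fin.snoc_last]
    · unfold cn sn
      simp only [Fin.cons_zero, Fin.snoc_castSucc]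
      simp
  · refine Fin.lastCases ?_ (fun b => ?_) b
    · unfold cn sn
      simp only [Fin.cons_succ, Fin.snoc_last]
      simp
    · unfold cn sn
      simp only [Fin.cons_succ, Fin.snoc_castSucc]
      simp

private theorem ee_conj {n : ℕ} (l k : Fin n) :
    (starRingEnd ℂ) ((ee l : Ec n) k) = if k = l then 1 else 0 := by
  unfold ee
  rw [PiLp.single_apply]
  split_ifs <;> simp

/-- The determinant of the kernel for `τ = 0`.
For `τ = 0` the rows are `x = (conj (ζ - z), 0, λ)` with `λ = ε² δ²`,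
`E l = (conj (ee l), conj (ee l) ∘ I, μ l)` with `μ l = 2 ε² δ db δ ζ (ee l)`, and
`Y i = (-conj Y i, 0, 0)`.
PROOF. Row operations: add `∑ k, conj (Y i k) E k` to the row `Y i`: it becomes
`(0, conj (Y i (I j))_j, ∑ k conj (Y i k) μ k)`; subtract `∑ l, conj (ζ - z) l E l` from `x`: it
becomes `(0, -conj ((ζ - z) (I j))_j, λ - ∑ l conj (ζ - z) l μ l)`. Then the matrix is block
triangular with the block `1` in the rows `E` and the first `n` columns. Move the row `x` over the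
`n` rows `E`: sign `(-1)^n`; then the determinant is `(-1)^n` times the determinant of the
`(q + 1) × (q + 1)` matrix with the rows `x' = (-conj ((ζ-z) (I j))_j, λ')`,
`Y' i = (conj (Y i (I j))_j, μ(Y i))`. -/
theorem Kr0_zero (hg : Geo U δ h c C) (ε : ℝ) {q : ℕ} (I : Fin q → Fin n) (Y : Fin q → Ec n)
    (z ζ : Ec n) :
    Kr0 δ h ε I Y 0 z ζ = F0 δ h ε 0 z ζ * ((-1) ^ n * Matrix.det (cn
      (sn (fun j => -(starRingEnd ℂ) (ζ (I j) - z (I j)))
        ((ε ^ 2 * δ ζ ^ 2 : ℝ) - ∑ l, (starRingEnd ℂ) (ζ l - z l) *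
          (2 * ε ^ 2 * δ ζ * db (fun y => (δ y : ℂ)) ζ (ee l))))
      (fun i => sn (fun j => (starRingEnd ℂ) (Y i (I j)))
        (∑ l, (starRingEnd ℂ) (Y i l) * (2 * ε ^ 2 * δ ζ * db (fun y => (δ y : ℂ)) ζ (ee l)))))) := by
  have hd := det_abs (R := ℂ) (n := n) (q := q) (fun k => (starRingEnd ℂ) (ζ k - z k))
    ((ε ^ 2 * δ ζ ^ 2 : ℝ) : ℂ) (fun l j => (starRingEnd ℂ) ((ee l : Ec n) (I j)))
    (fun l => 2 * ε ^ 2 * δ ζ * db (fun y => (δ y : ℂ)) ζ (ee l))
    (fun i k => (starRingEnd ℂ) (Y i k))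
  unfold Kr0
  congr 1
  have h1 : rx δ h ε q 0 z ζ = sn (Fin.append (fun k => (starRingEnd ℂ) (ζ k - z k)) (0 : Fin q → ℂ))
      ((ε ^ 2 * δ ζ ^ 2 : ℝ) : ℂ) := by
    unfold rx
    congr 1
    · congr 1
      funext k
      unfold wk
      simp
    · unfold w0
      simp
  have h2 : (fun l => rζ δ h ε I 0 z ζ (ee l)) = fun l =>
      sn (Fin.append (Pi.single l 1 : Fin n → ℂ) (fun j => (starRingEnd ℂ) ((ee l : Ec n) (I j))))
        (2 * ε ^ 2 * δ ζ * db (fun y => (δ y : ℂ)) ζ (ee l)) := by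
    funext l
    unfold rζ
    congr 1
    · congr 1
      funext k
      rw [ee_conj, Pi.single_apply]
      simp
    · simp
  have h3 : (fun i => rz q 0 (Y i)) = fun i =>
      sn (Fin.append (fun k => - (starRingEnd ℂ) (Y i k)) (0 : Fin q → ℂ)) 0 := by
    funext i
    unfold rz
    congr 1
    · congr 1
      funext k
      simp
  rw [h1, h2, h3, hd]
  have h4 : ∀ (a : Fin n → ℂ) (j : Fin q), ∑ l, a l * (starRingEnd ℂ) ((ee l : Ec n) (I j)) = a (I j) := by
    intro a j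
    simp only [ee_conj]
    simp
  congr 2
  · have e1 : (fun j => -∑ l, (starRingEnd ℂ) (ζ l - z l) * (starRingEnd ℂ) ((ee l : Ec n) (I j))) =
        fun j => -(starRingEnd ℂ) (ζ (I j) - z (I j)) := by
      funext j
      rw [h4 (fun l => (starRingEnd ℂ) (ζ l - z l))]
    have e2 : (fun i : Fin q => sn (fun j => ∑ l, (starRingEnd ℂ) (Y i l) * (starRingEnd ℂ) ((ee l : Ec n) (I j)))
        (∑ l, (starRingEnd ℂ) (Y i l) * (2 * ε ^ 2 * δ ζ * db (fun y => (δ y : ℂ)) ζ (ee l)))) =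
        fun i => sn (fun j => (starRingEnd ℂ) (Y i (I j)))
        (∑ l, (starRingEnd ℂ) (Y i l) * (2 * ε ^ 2 * δ ζ * db (fun y => (δ y : ℂ)) ζ (ee l))) := by
      funext i
      congr 1
      funext j
      rw [h4 (fun l => (starRingEnd ℂ) (Y i l))]
    rw [e1, e2]

private theorem lastcol {R : Type*} [CommRing R] {q : ℕ} (a : Fin q → R) (b : Fin q → Fin q → R)
    (s t u0 : R) (u : Fin q → R) :
    Matrix.det (cn (sn a (s + t * u0)) (fun i => sn (b i) (t * u i)) : Fin (q + 1) → Fin (q + 1) → R) =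
      (-1) ^ q * s * Matrix.det b +
        t * Matrix.det (cn (sn a u0) (fun i => sn (b i) (u i)) : Fin (q + 1) → Fin (q + 1) → R) := by
  set A : Matrix (Fin (q + 1)) (Fin (q + 1)) R := cn (sn a (s + t * u0)) (fun i => sn (b i) (t * u i))
    with hA
  set A' : Matrix (Fin (q + 1)) (Fin (q + 1)) R := cn (sn a u0) (fun i => sn (b i) (u i)) with hA'
  set b' : Matrix (Fin q) (Fin q) R := b with hb'
  show A.det = (-1) ^ q * s * b'.det + t * A'.det
  have hm : ∀ i : Fin (q + 1), A.submatrix i.succAbove (Fin.last q).succAbove =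
      A'.submatrix i.succAbove (Fin.last q).succAbove := by
    intro i
    ext k j
    simp only [Matrix.submatrix_apply, Fin.succAbove_last]
    generalize i.succAbove k = r
    refine Fin.cases ?_ (fun r => ?_) r
    · rw [hA, hA']
      unfold cn sn
      simp only [Fin.cons_zero, Fin.snoc_castSucc]
    · rw [hA, hA']
      unfold cn sn
      simp only [Fin.cons_succ, Fin.snoc_castSucc]
  have hb : A'.submatrix (0 : Fin (q + 1)).succAbove (Fin.last q).succAbove = b' := by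
    ext k j
    simp only [Matrix.submatrix_apply, Fin.succAbove_last, Fin.succAbove_zero]
    rw [hA']
    unfold cn sn
    simp only [Fin.cons_succ, Fin.snoc_castSucc]
  have e0 : A 0 (Fin.last q) = s + t * u0 := by
    rw [hA]; unfold cn sn; simp only [Fin.cons_zero, Fin.snoc_last]
  have e0' : A' 0 (Fin.last q) = u0 := by
    rw [hA']; unfold cn sn; simp only [Fin.cons_zero, Fin.snoc_last]
  have e1 : ∀ i : Fin q, A i.succ (Fin.last q) = t * u i := by
    intro i; rw [hA]; unfold cn sn; simp only [Fin.cons_succ, Fin.snoc_last]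
  have e1' : ∀ i : Fin q, A' i.succ (Fin.last q) = u i := by
    intro i; rw [hA']; unfold cn sn; simp only [Fin.cons_succ, Fin.snoc_last]
  rw [Matrix.det_succ_column A (Fin.last q), Matrix.det_succ_column A' (Fin.last q)]
  simp_rw [hm]
  rw [Fin.sum_univ_succ (n := q), Fin.sum_univ_succ (n := q)]
  rw [hb, e0, e0']
  simp_rw [e1, e1']
  have hS : t * ∑ x : Fin q, (-1 : R) ^ ((x.succ : Fin (q + 1)) + (Fin.last q : Fin (q + 1)) : ℕ) * u x *
      (A'.submatrix x.succ.succAbove (Fin.last q).succAbove).det =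
      ∑ x : Fin q, (-1 : R) ^ ((x.succ : Fin (q + 1)) + (Fin.last q : Fin (q + 1)) : ℕ) * (t * u x) *
      (A'.submatrix x.succ.succAbove (Fin.last q).succAbove).det := by
    rw [Finset.mul_sum]
    refine Finset.sum_congr rfl fun i _ => ?_
    ring
  rw [← hS]
  have h0 : ((0 : Fin (q + 1)) : ℕ) + ((Fin.last q : Fin (q + 1)) : ℕ) = q := by simp
  rw [h0]
  ring

private theorem det_rows {m : ℕ} (A : Matrix (Fin m) (Fin m) ℂ) (B : Fin m → ℝ)
    (hA : ∀ i j, ‖A i j‖ ≤ B i) : ‖A.det‖ ≤ m.factorial * ∏ i, B i := by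
  rw [Matrix.det_apply']
  refine le_trans (norm_sum_le _ _) ?_
  have : ∀ σ : Equiv.Perm (Fin m), ‖((Equiv.Perm.sign σ : ℤ) : ℂ) * ∏ i, A (σ i) i‖ ≤ ∏ i, B i := by
    intro σ
    rw [norm_mul, norm_prod]
    have h1 : ‖((Equiv.Perm.sign σ : ℤ) : ℂ)‖ = 1 := by
      rcases Int.units_eq_one_or (Equiv.Perm.sign σ) with h | h <;> simp [h]
    rw [h1, one_mul]
    calc ∏ i, ‖A (σ i) i‖ ≤ ∏ i, B (σ i) :=
          Finset.prod_le_prod (fun i _ => norm_nonneg _) (fun i _ => hA _ _)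
      _ = ∏ i, B i := Equiv.prod_comp σ B
  refine le_trans (Finset.sum_le_sum fun σ _ => this σ) ?_
  rw [Finset.sum_const, Finset.card_univ, Fintype.card_perm, Fintype.card_fin, nsmul_eq_mul]

private theorem coord_le {n : ℕ} (x : Ec n) (k : Fin n) : ‖x k‖ ≤ ‖x‖ := PiLp.norm_apply_le x k

private theorem ee_norm {n : ℕ} (k : Fin n) : ‖(ee k : Ec n)‖ = 1 := by
  unfold ee; simp

private theorem dδ_bd (hg : Geo U δ h c C) {ζ : Ec n} (hζ : ζ ∈ U) (X : Ec n) :
    ‖fderiv ℝ δ ζ X‖ ≤ 2 * n * C * ‖X‖ := by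
  rw [hg.grad ζ hζ X, Real.norm_eq_abs, abs_mul]
  have h1 : |(∑ k, h ζ ζ k * X k).re| ≤ n * C * ‖X‖ := by
    refine le_trans (Complex.abs_re_le_norm _) (le_trans (norm_sum_le _ _) ?_)
    calc ∑ k, ‖h ζ ζ k * X k‖ ≤ ∑ _k : Fin n, C * ‖X‖ := by
          refine Finset.sum_le_sum fun k _ => ?_
          rw [norm_mul]
          exact mul_le_mul (le_trans (norm_le_pi_norm _ k) (hg.bh ζ hζ ζ hζ)) (coord_le X k)
            (norm_nonneg _) (by linarith [hg.C1])
      _ = n * C * ‖X‖ := by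
          rw [Finset.sum_const, Finset.card_univ, Fintype.card_fin, nsmul_eq_mul]; ring
  have h2 : |(-2 : ℝ)| = 2 := by norm_num
  rw [h2]
  nlinarith [h1]

private theorem dbδ_bd (hg : Geo U δ h c C) {ζ : Ec n} (hζ : ζ ∈ U) (l : Fin n) :
    ‖db (fun y => (δ y : ℂ)) ζ (ee l)‖ ≤ 2 * n * C := by
  have hd : DifferentiableAt ℝ δ ζ :=
    ((hg.dδ.differentiableOn (by norm_num)) ζ hζ).differentiableAt (hg.opn.mem_nhds hζ)
  have hf : ∀ X : Ec n, fderiv ℝ (fun y => (δ y : ℂ)) ζ X = ((fderiv ℝ δ ζ X : ℝ) : ℂ) := by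
    intro X
    have := (Complex.ofRealCLM.hasFDerivAt.comp ζ hd.hasFDerivAt).fderiv
    have h2 : fderiv ℝ (fun y => (δ y : ℂ)) ζ = Complex.ofRealCLM.comp (fderiv ℝ δ ζ) := this
    rw [h2]; rfl
  unfold db
  rw [hf, hf, norm_smul, smul_eq_mul]
  have h1 : ‖((fderiv ℝ δ ζ (ee l) : ℝ) : ℂ)‖ ≤ 2 * n * C := by
    rw [Complex.norm_real]
    refine le_trans (dδ_bd hg hζ _) ?_
    rw [ee_norm, mul_one]
  have h2 : ‖Complex.I * ((fderiv ℝ δ ζ (Complex.I • ee l) : ℝ) : ℂ)‖ ≤ 2 * n * C := by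
    rw [norm_mul, Complex.norm_I, one_mul, Complex.norm_real]
    refine le_trans (dδ_bd hg hζ _) ?_
    rw [norm_smul, Complex.norm_I, ee_norm, mul_one, mul_one]
  have h3 : ‖(2⁻¹ : ℂ)‖ = 2⁻¹ := by norm_num
  rw [h3]
  have := norm_add_le ((fderiv ℝ δ ζ (ee l) : ℝ) : ℂ) (Complex.I * ((fderiv ℝ δ ζ (Complex.I • ee l) : ℝ) : ℂ))
  linarith

private theorem F0_zero (δ : Ec n → ℝ) (h : Ec n → Ec n → Fin n → ℂ) (ε : ℝ) (z ζ : Ec n) :
    F0 δ h ε 0 z ζ = (((ε ^ 2 * δ ζ ^ 2) ^ (n + 8) /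
        (ε ^ 2 * δ ζ ^ 2 + ‖ζ - z‖ ^ 2) ^ (2 * n + 9) : ℝ) : ℂ) := by
  unfold F0
  have h1 : w0 δ ε 0 ζ = ε ^ 2 * δ ζ ^ 2 := by unfold w0; ring
  have h2 : aa δ h ε 0 z ζ = ((ε ^ 2 * δ ζ ^ 2 + ‖ζ - z‖ ^ 2 : ℝ) : ℂ) := by
    unfold aa
    rw [h1]
    have : ∑ k, wk h 0 z ζ k * (ζ k - z k) = ((‖ζ - z‖ ^ 2 : ℝ) : ℂ) := by
      rw [EuclideanSpace.norm_sq_eq]
      push_cast
      refine Finset.sum_congr rfl fun k _ => ?_
      unfold wk
      rw [PiLp.sub_apply, ← Complex.conj_mul']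
      simp
    rw [this]
    push_cast
    ring
  rw [h1, h2]
  push_cast
  ring

/-- PROOF. Expand the determinant of `Kr0_zero` along the first row (`Matrix.det_succ_row_zero`): the
last entry of the row, in the column number `q`, has the sign `(-1)^q` and the cofactor
`det (conj (Y i (I j)))`, the entry is `ε² δ²` up to an error bounded by
`C' ‖ζ - z‖ ε² δ`; the other entries are bounded by `‖ζ - z‖` and their cofactors contain one
column with entries bounded by `C' ε² δ`. The entries of `Y i = ee (J i)` are bounded by `1`.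
`|db δ ζ (ee l)| ≤ C'` by `Geo.grad` and `Geo.bh`. -/
theorem Kr0_zero_est (n : ℕ) (c C : ℝ) (q : ℕ) : ∃ C' : ℝ, 0 < C' ∧ ∀ (U : Set (Ec n))
    (δ : Ec n → ℝ) (h : Ec n → Ec n → Fin n → ℂ), Geo U δ h c C → ∀ (ε : ℝ), 0 < ε → ε ≤ 1 →
    ∀ (I J : Fin q → Fin n), ∀ z ∈ Om U δ, ∀ ζ ∈ Om U δ,
    ‖Kr0 δ h ε I (fun i => ee (J i)) 0 z ζ - ((-1) ^ (n + q) * Matrix.det (fun i j : Fin q =>
        (starRingEnd ℂ) ((ee (J i) : Ec n) (I j)))) *
          ((ε ^ 2 * δ ζ ^ 2) ^ (n + 9) / (ε ^ 2 * δ ζ ^ 2 + ‖ζ - z‖ ^ 2) ^ (2 * n + 9) : ℝ)‖ ≤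
      C' * (‖ζ - z‖ * ε ^ 2 * δ ζ) * ((ε ^ 2 * δ ζ ^ 2) ^ (n + 8) /
        (ε ^ 2 * δ ζ ^ 2 + ‖ζ - z‖ ^ 2) ^ (2 * n + 9)) := by
  set G : ℝ := 4 * n ^ 2 * |C| + 1 with hG
  have hG1 : 1 ≤ G := by rw [hG]; have : 0 ≤ 4 * (n : ℝ) ^ 2 * |C| := by positivity
                         linarith
  refine ⟨(q + 1).factorial * G ^ (q + 1), by positivity, fun U δ h hg ε hε hε1 I J z hz ζ hζ => ?_⟩
  have hζU : ζ ∈ U := hζ.1
  have hδ : 0 < δ ζ := hζ.2
  have hC : |C| = C := abs_of_pos (by linarith [hg.C1])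
  set r := ‖ζ - z‖ with hr
  have hr0 : 0 ≤ r := norm_nonneg _
  set g : Fin n → ℂ := fun l => 2 * db (fun y => (δ y : ℂ)) ζ (ee l) with hgdef
  have hgb : ∀ l, ‖g l‖ ≤ 4 * n * C := by
    intro l
    rw [hgdef]
    simp only [norm_mul]
    have := dbδ_bd hg hζU l
    have h2 : ‖(2 : ℂ)‖ = 2 := by norm_num
    rw [h2]; linarith
  rw [Kr0_zero hg, F0_zero]
  set K : ℂ := ((ε ^ 2 * δ ζ : ℝ) : ℂ) with hK
  set b : Fin q → Fin q → ℂ := fun i j => (starRingEnd ℂ) ((ee (J i) : Ec n) (I j)) with hb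
  have hmat : (cn (sn (fun j => -(starRingEnd ℂ) (ζ (I j) - z (I j)))
        ((ε ^ 2 * δ ζ ^ 2 : ℝ) - ∑ l, (starRingEnd ℂ) (ζ l - z l) *
          (2 * ε ^ 2 * δ ζ * db (fun y => (δ y : ℂ)) ζ (ee l))))
      (fun i => sn (fun j => (starRingEnd ℂ) ((ee (J i) : Ec n) (I j)))
        (∑ l, (starRingEnd ℂ) ((ee (J i) : Ec n) l) *
          (2 * ε ^ 2 * δ ζ * db (fun y => (δ y : ℂ)) ζ (ee l)))) : Fin (q + 1) → Fin (q + 1) → ℂ) =
      cn (sn (fun j => -(starRingEnd ℂ) (ζ (I j) - z (I j)))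
        (((ε ^ 2 * δ ζ ^ 2 : ℝ) : ℂ) + K * (-∑ l, (starRingEnd ℂ) (ζ l - z l) * g l)))
        (fun i => sn (b i) (K * ∑ l, (starRingEnd ℂ) ((ee (J i) : Ec n) l) * g l)) := by
    congr 1
    · congr 1
      rw [sub_eq_add_neg, mul_neg, Finset.mul_sum]
      congr 2
      refine Finset.sum_congr rfl fun l _ => ?_
      rw [hK, hgdef]; push_cast; ring
    · funext i
      congr 1
      rw [Finset.mul_sum]
      refine Finset.sum_congr rfl fun l _ => ?_
      rw [hK, hgdef]; push_cast; ring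
  rw [hmat, lastcol]
  set D2 : ℂ := Matrix.det (cn (sn (fun j => -(starRingEnd ℂ) (ζ (I j) - z (I j)))
        (-∑ l, (starRingEnd ℂ) (ζ l - z l) * g l))
        (fun i => sn (b i) (∑ l, (starRingEnd ℂ) ((ee (J i) : Ec n) l) * g l)) :
          Fin (q + 1) → Fin (q + 1) → ℂ) with hD2
  have hcl : ∀ l, ‖(starRingEnd ℂ) (ζ l - z l)‖ ≤ r := by
    intro l
    rw [RCLike.norm_conj, hr]
    have := coord_le (ζ - z) l
    simpa using this
  have heb : ∀ (i : Fin q) (l : Fin n), ‖(starRingEnd ℂ) ((ee (J i) : Ec n) l)‖ ≤ 1 := by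
    intro i l
    rw [ee_conj]; split_ifs <;> simp
  have hD : ‖D2‖ ≤ (q + 1).factorial * (G ^ (q + 1) * r) := by
    have := det_rows (m := q + 1) (cn (sn (fun j => -(starRingEnd ℂ) (ζ (I j) - z (I j)))
        (-∑ l, (starRingEnd ℂ) (ζ l - z l) * g l))
        (fun i => sn (b i) (∑ l, (starRingEnd ℂ) ((ee (J i) : Ec n) l) * g l)))
        (Fin.cons (G * r) (fun _ => G)) (by
          intro i j
          refine Fin.cases ?_ (fun i => ?_) i
          · unfold cn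
            rw [Fin.cons_zero, Fin.cons_zero]
            refine Fin.lastCases ?_ (fun j => ?_) j
            · unfold sn
              rw [Fin.snoc_last, norm_neg]
              refine le_trans (norm_sum_le _ _) ?_
              calc ∑ l, ‖(starRingEnd ℂ) (ζ l - z l) * g l‖ ≤ ∑ _l : Fin n, r * (4 * n * C) := by
                    refine Finset.sum_le_sum fun l _ => ?_
                    rw [norm_mul]
                    exact mul_le_mul (hcl l) (hgb l) (norm_nonneg _) hr0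
                _ = 4 * n ^ 2 * C * r := by
                    rw [Finset.sum_const, Finset.card_univ, Fintype.card_fin, nsmul_eq_mul]; ring
                _ ≤ G * r := by
                    rw [hG, hC]; nlinarith
            · unfold sn
              rw [Fin.snoc_castSucc, norm_neg]
              refine le_trans (hcl _) ?_
              nlinarith
          · unfold cn
            rw [Fin.cons_succ, Fin.cons_succ]
            refine Fin.lastCases ?_ (fun j => ?_) j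
            · unfold sn
              rw [Fin.snoc_last]
              refine le_trans (norm_sum_le _ _) ?_
              calc ∑ l, ‖(starRingEnd ℂ) ((ee (J i) : Ec n) l) * g l‖ ≤ ∑ _l : Fin n, 1 * (4 * n * C) := by
                    refine Finset.sum_le_sum fun l _ => ?_
                    rw [norm_mul]
                    exact mul_le_mul (heb i l) (hgb l) (norm_nonneg _) zero_le_one
                _ = 4 * n ^ 2 * C := by
                    rw [Finset.sum_const, Finset.card_univ, Fintype.card_fin, nsmul_eq_mul]; ring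
                _ ≤ G := by
                    rw [hG, hC]; linarith
            · unfold sn
              rw [Fin.snoc_castSucc]
              exact le_trans (heb i _) hG1)
    rw [Fin.prod_univ_succ] at this
    simp only [Fin.cons_zero, Fin.cons_succ, Finset.prod_const, Finset.card_univ, Fintype.card_fin] at this
    refine le_trans this (le_of_eq ?_)
    rw [pow_succ]; ring
  set A0 : ℝ := (ε ^ 2 * δ ζ ^ 2 + r ^ 2) ^ (2 * n + 9) with hA0
  have hA0p : 0 < A0 := by rw [hA0]; positivity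
  have hmain : (((ε ^ 2 * δ ζ ^ 2) ^ (n + 8) / A0 : ℝ) : ℂ) * ((-1) ^ n * ((-1) ^ q *
      ((ε ^ 2 * δ ζ ^ 2 : ℝ) : ℂ) * Matrix.det b + K * D2)) -
      (-1) ^ (n + q) * Matrix.det b * (((ε ^ 2 * δ ζ ^ 2) ^ (n + 9) / A0 : ℝ) : ℂ) =
      (((ε ^ 2 * δ ζ ^ 2) ^ (n + 8) / A0 : ℝ) : ℂ) * ((-1) ^ n * (K * D2)) := by
    have : (((ε ^ 2 * δ ζ ^ 2) ^ (n + 9) / A0 : ℝ) : ℂ) =
        (((ε ^ 2 * δ ζ ^ 2) ^ (n + 8) / A0 : ℝ) : ℂ) * ((ε ^ 2 * δ ζ ^ 2 : ℝ) : ℂ) := by
      rw [← Complex.ofReal_mul]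
      congr 1
      rw [pow_succ (ε ^ 2 * δ ζ ^ 2) (n + 8)]
      ring
    rw [this, pow_add]
    ring
  rw [hmain, norm_mul, norm_mul, norm_mul, Complex.norm_real, norm_pow, norm_neg, norm_one, one_pow,
    one_mul]
  have hF : ‖(ε ^ 2 * δ ζ ^ 2) ^ (n + 8) / A0‖ = (ε ^ 2 * δ ζ ^ 2) ^ (n + 8) / A0 :=
    Real.norm_of_nonneg (by positivity)
  have hKn : ‖K‖ = ε ^ 2 * δ ζ := by
    rw [hK, Complex.norm_real, Real.norm_of_nonneg (by positivity)]
  rw [hF, hKn]
  calc (ε ^ 2 * δ ζ ^ 2) ^ (n + 8) / A0 * (ε ^ 2 * δ ζ * ‖D2‖) ≤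
        (ε ^ 2 * δ ζ ^ 2) ^ (n + 8) / A0 * (ε ^ 2 * δ ζ * ((q + 1).factorial * (G ^ (q + 1) * r))) := by
        gcongr
    _ = (q + 1).factorial * G ^ (q + 1) * (r * ε ^ 2 * δ ζ) * ((ε ^ 2 * δ ζ ^ 2) ^ (n + 8) / A0) := by
        ring

end Pool.Agent.MPca0fc2.FD
end

section

/-! The homotopy formula. -/

set_option autoImplicit false

open Metric Set MeasureTheory Filter Topology

namespace Pool.Agent.MPca0fc2.FD

variable {n : ℕ} {V : Type*} [NormedAddCommGroup V] [NormedSpace ℂ V] [FiniteDimensional ℂ V]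
variable {U : Set (Ec n)} {δ : Ec n → ℝ} {h : Ec n → Ec n → Fin n → ℂ} {c C : ℝ}

theorem B8_db_cont {W : Set (Ec n)} (hW : IsOpen W) {η : Ec n → V} (hη : ContDiffOn ℝ 1 η W)
    (X : Ec n) : ContinuousOn (fun ζ => db η ζ X) W := by
  have h1 : ContinuousOn (fderiv ℝ η) W := hη.continuousOn_fderiv_of_isOpen hW le_rfl
  unfold db
  exact continuousOn_const.smul ((h1.clm_apply continuousOn_const).add
    (continuousOn_const.smul (h1.clm_apply continuousOn_const)))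

theorem B8_db_smul_sum {ι : Type*} (s : Finset ι) (a : ℂ) {F : ι → Ec n → V} {z : Ec n}
    (hF : ∀ i ∈ s, DifferentiableAt ℝ (F i) z) (X : Ec n) :
    db (fun z => a • ∑ i ∈ s, F i z) z X = a • ∑ i ∈ s, db (F i) z X := by
  have h1 : HasFDerivAt (fun z => ∑ i ∈ s, F i z) (∑ i ∈ s, fderiv ℝ (F i) z) z :=
    HasFDerivAt.fun_sum fun i hi => (hF i hi).hasFDerivAt
  have h2 : HasFDerivAt (fun z => a • ∑ i ∈ s, F i z) (a • ∑ i ∈ s, fderiv ℝ (F i) z) z :=
    h1.const_smul a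
  unfold db
  rw [h2.fderiv]
  rw [smul_apply, smul_apply, sum_apply, sum_apply]
  rw [← Finset.smul_sum, Finset.sum_add_distrib, ← Finset.smul_sum]
  module

theorem B8_db_const_mul {F : Ec n → ℂ} {z : Ec n} (a : ℂ) (hF : DifferentiableAt ℝ F z)
    (X : Ec n) : db (fun z => a * F z) z X = a * db F z X := by
  have h := B8_db_smul_sum (V := ℂ) ({()} : Finset Unit) a (F := fun _ => F) (z := z)
    (fun _ _ => hF) X
  rw [Finset.sum_singleton] at h
  have h2 : (fun z => a • ∑ _i ∈ ({()} : Finset Unit), F z) = fun z => a * F z := by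
    funext z
    rw [Finset.sum_singleton, smul_eq_mul]
  rw [h2, smul_eq_mul] at h
  exact h

theorem B8_cd_cont (hg : Geo U δ h c C) {ε : ℝ} {K : Tn n → ℂ}
    (hk : ContDiffOn ℝ 1 K (Tset U δ h ε)) (d : Tn n × Tn n) :
    ContinuousOn (fun q => cd K q d) (Tset U δ h ε) := by
  have h1 := B7_dcont hg hk
  unfold cd
  exact (h1.clm_apply continuousOn_const).add
    ((h1.clm_apply continuousOn_const).const_smul Complex.I)

theorem B8_intζ (hg : Geo U δ h c C) {ε : ℝ} (hε : 0 < ε) {K : Tn n → ℂ}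
    (hk : ContDiffOn ℝ 1 K (Tset U δ h ε)) {W : Set (Ec n)} (hK : Kc U δ ⊆ W) {η : Ec n → V}
    (hη : ContinuousOn η W) {z : Ec n} (hz : z ∈ Om U δ) (X : Ec n) :
    IntegrableOn (fun p : ℝ × Ec n => db (fun ζ' => K (z, p.1, ζ')) p.2 X • η p.2)
      (Icc (0 : ℝ) 1 ×ˢ Om U δ) := by
  have h1 := param_int hg hε (B8_cd_cont hg hk (dζ X)) (int_snd hg hK hη).1 hz
  refine IntegrableOn.congr_fun h1 ?_ (B7_ms hg)
  intro p hp
  have h2 : ((z, p) : Tn n) ∈ Tset U δ h ε := Tset_mem hg hε hp.1 hz (B7_sub U δ hp.2)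
  have h3 := cd_dζ (z := z) (ζ := p.2) (τ := p.1) (B7_da hg hk h2).differentiableAt X
  show cd K (z, p) (dζ X) • η p.2 = db (fun ζ' => K (z, p.1, ζ')) p.2 X • η p.2
  rw [← h3]

theorem B8_intz (hg : Geo U δ h c C) {ε : ℝ} (hε : 0 < ε) {K : Tn n → ℂ}
    (hk : ContDiffOn ℝ 1 K (Tset U δ h ε)) {W : Set (Ec n)} (hK : Kc U δ ⊆ W) {η : Ec n → V}
    (hη : ContinuousOn η W) {z : Ec n} (hz : z ∈ Om U δ) (X : Ec n) :
    IntegrableOn (fun p : ℝ × Ec n => db (fun z' => K (z', p.1, p.2)) z X • η p.2)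
      (Icc (0 : ℝ) 1 ×ˢ Om U δ) := by
  have h1 := param_int hg hε (B8_cd_cont hg hk (dz X)) (int_snd hg hK hη).1 hz
  refine IntegrableOn.congr_fun h1 ?_ (B7_ms hg)
  intro p hp
  have h2 : ((z, p) : Tn n) ∈ Tset U δ h ε := Tset_mem hg hε hp.1 hz (B7_sub U δ hp.2)
  have h3 := cd_dz (z := z) (ζ := p.2) (τ := p.1) (B7_da hg hk h2).differentiableAt X
  show cd K (z, p) (dz X) • η p.2 = db (fun z' => K (z', p.1, p.2)) z X • η p.2
  rw [← h3]

/-- PROOF. `param_c1` with `k p = Ker δ h ε I (fun i => ee (J i)) p.2.1 p.1 p.2.2` (`Ker_c1`) and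
`int_snd`; finite sums, constant multiples. -/
theorem Sop_c1 (hg : Geo U δ h c C) {ε : ℝ} (hε : 0 < ε) {q : ℕ} {η : Fm n (q + 1) V}
    {W : Set (Ec n)} (hK : Kc U δ ⊆ W) (hη : ∀ I, ContinuousOn (η I) W) (J : Fin q → Fin n) :
    ContDiffOn ℝ 1 (Sop U δ h ε η J) (Om U δ) := by
  refine ContDiffOn.const_smul _ ?_
  refine ContDiffOn.sum fun I _ => ?_
  exact param_c1 hg hε
    (k := fun p : Tn n => Ker δ h ε I (fun i => ee (J i)) p.2.1 p.1 p.2.2)
    (Ker_c1 hg ε I _) (int_snd hg hK (hη I)).1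

/-- PROOF. `Ker_permY`, with `(fun i => ee (J (σ i))) = (fun i => ee (J i)) ∘ σ`. -/
theorem Sop_alt (U : Set (Ec n)) (δ : Ec n → ℝ) (h : Ec n → Ec n → Fin n → ℂ) (ε : ℝ) {q : ℕ}
    (η : Fm n (q + 1) V) : AltF (Sop U δ h ε η) := by
  intro σ J z
  show (kn n / ((q + 1).factorial : ℂ)) • ∑ I : Fin (q + 1) → Fin n,
      ∫ p in Icc (0 : ℝ) 1 ×ˢ Om U δ, Ker δ h ε I ((fun i => ee (J i)) ∘ σ) p.1 z p.2 • η I p.2 =
    ((Equiv.Perm.sign σ : ℤ) : ℂ) • (kn n / ((q + 1).factorial : ℂ)) •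
      ∑ I : Fin (q + 1) → Fin n,
      ∫ p in Icc (0 : ℝ) 1 ×ˢ Om U δ, Ker δ h ε I (fun i => ee (J i)) p.1 z p.2 • η I p.2
  have e : ∀ I ∈ (Finset.univ : Finset (Fin (q + 1) → Fin n)),
      ∫ p in Icc (0 : ℝ) 1 ×ˢ Om U δ, Ker δ h ε I ((fun i => ee (J i)) ∘ σ) p.1 z p.2 • η I p.2 =
      ((Equiv.Perm.sign σ : ℤ) : ℂ) • ∫ p in Icc (0 : ℝ) 1 ×ˢ Om U δ,
        Ker δ h ε I (fun i => ee (J i)) p.1 z p.2 • η I p.2 := ?_
  · rw [Finset.sum_congr rfl e, ← Finset.smul_sum, smul_comm]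
  intro I _
  rw [← integral_smul]
  refine integral_congr_ae (Filter.Eventually.of_forall fun p => ?_)
  show Ker δ h ε I ((fun i => ee (J i)) ∘ σ) p.1 z p.2 • η I p.2 =
    ((Equiv.Perm.sign σ : ℤ) : ℂ) • (Ker δ h ε I (fun i => ee (J i)) p.1 z p.2 • η I p.2)
  rw [Ker_permY, smul_smul]

/-- PROOF. `param_db`, the sum over `I` and the constant. -/
theorem db_Sop (hg : Geo U δ h c C) {ε : ℝ} (hε : 0 < ε) {q : ℕ} {η : Fm n (q + 1) V}
    {W : Set (Ec n)} (hK : Kc U δ ⊆ W) (hη : ∀ I, ContinuousOn (η I) W) (J : Fin q → Fin n)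
    {z : Ec n} (hz : z ∈ Om U δ) (X : Ec n) :
    db (Sop U δ h ε η J) z X = (kn n / (q + 1).factorial) • ∑ I : Fin (q + 1) → Fin n,
      ∫ p in Icc (0 : ℝ) 1 ×ˢ Om U δ,
        db (fun z' => Ker δ h ε I (fun i => ee (J i)) p.1 z' p.2) z X • η I p.2 := by
  have h1 : ∀ I ∈ (Finset.univ : Finset (Fin (q + 1) → Fin n)), DifferentiableAt ℝ
      (fun z => ∫ p in Icc (0 : ℝ) 1 ×ˢ Om U δ,
        Ker δ h ε I (fun i => ee (J i)) p.1 z p.2 • η I p.2) z := fun I _ =>
    (param_diff hg hε (k := fun p : Tn n => Ker δ h ε I (fun i => ee (J i)) p.2.1 p.1 p.2.2)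
      (Ker_c1 hg ε I _) (int_snd hg hK (hη I)).1 hz 0).1
  have h2 := B8_db_smul_sum Finset.univ (kn n / ((q + 1).factorial : ℂ)) h1 X
  refine h2.trans ?_
  congr 1
  refine Finset.sum_congr rfl fun I _ => ?_
  exact param_db hg hε (k := fun p : Tn n => Ker δ h ε I (fun i => ee (J i)) p.2.1 p.1 p.2.2)
    (Ker_c1 hg ε I _) (int_snd hg hK (hη I)).1 hz X

/-- `Sop` of `∂̄ η`, after the summation.
PROOF. Exchange the finite sum and the integral (integrability by `param_int`: `dbf η I` is continuous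
on `W`, so `int_snd` applies), `sum_dbf`, and `(q + 1)! = (q + 1) q!`. -/
theorem Sop_dbf (hg : Geo U δ h c C) {ε : ℝ} (hε : 0 < ε) {q : ℕ} {η : Fm n q V}
    {W : Set (Ec n)} (hW : IsOpen W) (hK : Kc U δ ⊆ W) (hη : ∀ I, ContDiffOn ℝ 1 (η I) W)
    (J : Fin q → Fin n) {z : Ec n} (hz : z ∈ Om U δ) :
    Sop U δ h ε (dbf η) J z = ((-1) ^ q * kn n / q.factorial) • ∑ I : Fin q → Fin n,
      ∑ l : Fin n, ∫ p in Icc (0 : ℝ) 1 ×ˢ Om U δ,
        KA δ h ε I (fun i => ee (J i)) l p.1 z p.2 • db (η I) p.2 (ee l) := by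
  have hdb : ∀ (I : Fin q → Fin n) (X : Ec n), ContinuousOn (fun ζ => db (η I) ζ X) W :=
    fun I X => B8_db_cont hW (hη I) X
  have hdbf : ∀ I : Fin (q + 1) → Fin n, ContinuousOn (dbf η I) W := by
    intro I
    unfold dbf
    exact continuousOn_finsetSum _ fun i _ => continuousOn_const.smul (hdb _ _)
  have hi1 : ∀ I ∈ (Finset.univ : Finset (Fin (q + 1) → Fin n)), Integrable
      (fun p : ℝ × Ec n => Ker δ h ε I (fun i => ee (J i)) p.1 z p.2 • dbf η I p.2)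
      (volume.restrict (Icc (0 : ℝ) 1 ×ˢ Om U δ)) := fun I _ =>
    param_int hg hε (k := fun p : Tn n => Ker δ h ε I (fun i => ee (J i)) p.2.1 p.1 p.2.2)
      (Ker_c1 hg ε I _).continuousOn (int_snd hg hK (hdbf I)).1 hz
  have hi2 : ∀ (I : Fin q → Fin n) (l : Fin n), Integrable
      (fun p : ℝ × Ec n => KA δ h ε I (fun i => ee (J i)) l p.1 z p.2 • db (η I) p.2 (ee l))
      (volume.restrict (Icc (0 : ℝ) 1 ×ˢ Om U δ)) := fun I l =>
    param_int hg hε (k := fun p : Tn n => KA δ h ε I (fun i => ee (J i)) l p.2.1 p.1 p.2.2)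
      (KA_c1 hg ε I _ l).continuousOn (int_snd hg hK (hdb I (ee l))).1 hz
  show (kn n / ((q + 1).factorial : ℂ)) • ∑ I : Fin (q + 1) → Fin n,
      ∫ p in Icc (0 : ℝ) 1 ×ˢ Om U δ, Ker δ h ε I (fun i => ee (J i)) p.1 z p.2 • dbf η I p.2 = _
  rw [← integral_finsetSum _ hi1]
  have h1 : ∀ p : ℝ × Ec n, ∑ I : Fin (q + 1) → Fin n,
      Ker δ h ε I (fun i => ee (J i)) p.1 z p.2 • dbf η I p.2 =
      (((q : ℂ) + 1) * (-1) ^ q) • ∑ I : Fin q → Fin n, ∑ l : Fin n,
        KA δ h ε I (fun i => ee (J i)) l p.1 z p.2 • db (η I) p.2 (ee l) := fun p =>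
    sum_dbf δ h ε η (fun i => ee (J i)) p.1 z p.2
  rw [integral_congr_ae (Filter.Eventually.of_forall h1), integral_smul, smul_smul]
  rw [integral_finsetSum _ fun I _ => integrable_finsetSum _ fun l _ => hi2 I l]
  have h2 : kn n / ((q + 1).factorial : ℂ) * (((q : ℂ) + 1) * (-1) ^ q) =
      (-1) ^ q * kn n / (q.factorial : ℂ) := by
    rw [Nat.factorial_succ]
    push_cast
    have h3 : (q.factorial : ℂ) ≠ 0 := by exact_mod_cast Nat.factorial_ne_zero q
    have h4 : (q : ℂ) + 1 ≠ 0 := by exact_mod_cast Nat.succ_ne_zero q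
    field_simp
  rw [h2]
  congr 1
  refine Finset.sum_congr rfl fun I _ => ?_
  rw [integral_finsetSum _ fun l _ => hi2 I l]

/-- Integration by parts in the double integral.
PROOF. Fubini (`setIntegral_prod`, both integrands are integrable: continuous on the compact set
`Icc 0 1 ×ˢ Kc U δ`, see `param_int`; `db (fun ζ' => KA ..) ζ (ee l)` is
`cd (fun p => KA ..) (z, τ, ζ) (dζ (ee l))` by `cd_dζ`, a continuous function on `Tset`), and
`ibp_KA` for each `τ`. -/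
theorem ibp_double (hg : Geo U δ h c C) {ε : ℝ} (hε : 0 < ε) {q : ℕ} (I : Fin q → Fin n)
    (Y : Fin q → Ec n) (l : Fin n) {z : Ec n} (hz : z ∈ Om U δ)
    {W : Set (Ec n)} (hW : IsOpen W) (hK : Kc U δ ⊆ W) {η : Ec n → V} (hη : ContDiffOn ℝ 1 η W) :
    ∫ p in Icc (0 : ℝ) 1 ×ˢ Om U δ, KA δ h ε I Y l p.1 z p.2 • db η p.2 (ee l) =
      -∫ p in Icc (0 : ℝ) 1 ×ˢ Om U δ,
        db (fun ζ' => KA δ h ε I Y l p.1 z ζ') p.2 (ee l) • η p.2 := by
  have hint1 : IntegrableOn (fun p : ℝ × Ec n => KA δ h ε I Y l p.1 z p.2 • db η p.2 (ee l))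
      (Icc (0 : ℝ) 1 ×ˢ Om U δ) :=
    param_int hg hε (k := fun p : Tn n => KA δ h ε I Y l p.2.1 p.1 p.2.2)
      (KA_c1 hg ε I Y l).continuousOn (int_snd hg hK (B8_db_cont hW hη (ee l))).1 hz
  have hint2 : IntegrableOn (fun p : ℝ × Ec n =>
      db (fun ζ' => KA δ h ε I Y l p.1 z ζ') p.2 (ee l) • η p.2) (Icc (0 : ℝ) 1 ×ˢ Om U δ) :=
    B8_intζ hg hε (KA_c1 hg ε I Y l) hK hη.continuousOn hz (ee l)
  have e1 : ∫ p in Icc (0 : ℝ) 1 ×ˢ Om U δ, KA δ h ε I Y l p.1 z p.2 • db η p.2 (ee l) =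
      ∫ τ in Icc (0 : ℝ) 1, ∫ ζ in Om U δ, KA δ h ε I Y l τ z ζ • db η ζ (ee l) :=
    setIntegral_prod _ hint1
  have e2 : ∫ p in Icc (0 : ℝ) 1 ×ˢ Om U δ,
      db (fun ζ' => KA δ h ε I Y l p.1 z ζ') p.2 (ee l) • η p.2 =
      ∫ τ in Icc (0 : ℝ) 1, ∫ ζ in Om U δ,
        db (fun ζ' => KA δ h ε I Y l τ z ζ') ζ (ee l) • η ζ :=
    setIntegral_prod _ hint2
  rw [e1, e2, ← integral_neg]
  refine setIntegral_congr_fun measurableSet_Icc ?_
  intro τ hτ
  exact ibp_KA hg hε hτ I Y l hz hW hK hη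

/-- PROOF. By `kr0_closed`, for `p = (τ, ζ)`:
`∑ l, db (fun ζ' => KA ..) ζ (ee l) = ∂_τ Kr0 - ∑ i, db (fun z' => KB .. i ..) z (Y i)`, where
`∂_τ Kr0 = fderiv ℝ (fun p => Kr0 ..) (z, τ, ζ) (0, 1, 0)`. Multiply by `η p.2` and integrate
(`integral_finsetSum`, integrability by `param_int`), and use `int_dt` with
`k p = Kr0 δ h ε I Y p.2.1 p.1 p.2.2` (`Kr0_c1`). -/
theorem sum_ibp (hg : Geo U δ h c C) {ε : ℝ} (hε : 0 < ε) {q : ℕ} (I : Fin q → Fin n)
    (Y : Fin q → Ec n) {z : Ec n} (hz : z ∈ Om U δ)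
    {W : Set (Ec n)} (hW : IsOpen W) (hK : Kc U δ ⊆ W) {η : Ec n → V} (hη : ContDiffOn ℝ 1 η W) :
    ∑ l : Fin n, ∫ p in Icc (0 : ℝ) 1 ×ˢ Om U δ, KA δ h ε I Y l p.1 z p.2 • db η p.2 (ee l) =
      (∫ ζ in Om U δ, Kr0 δ h ε I Y 0 z ζ • η ζ) - (∫ ζ in Om U δ, Kr0 δ h ε I Y 1 z ζ • η ζ) +
        ∑ i : Fin q, ∫ p in Icc (0 : ℝ) 1 ×ˢ Om U δ,
          db (fun z' => KB δ h ε I Y i p.1 z' p.2) z (Y i) • η p.2 := by
  have hη0 := hη.continuousOn
  have hA : ∀ l ∈ (Finset.univ : Finset (Fin n)), Integrable (fun p : ℝ × Ec n =>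
      db (fun ζ' => KA δ h ε I Y l p.1 z ζ') p.2 (ee l) • η p.2)
      (volume.restrict (Icc (0 : ℝ) 1 ×ˢ Om U δ)) := fun l _ =>
    B8_intζ hg hε (KA_c1 hg ε I Y l) hK hη0 hz (ee l)
  have hB : ∀ i ∈ (Finset.univ : Finset (Fin q)), Integrable (fun p : ℝ × Ec n =>
      db (fun z' => KB δ h ε I Y i p.1 z' p.2) z (Y i) • η p.2)
      (volume.restrict (Icc (0 : ℝ) 1 ×ˢ Om U δ)) := fun i _ =>
    B8_intz hg hε (KB_c1 hg ε I Y i) hK hη0 hz (Y i)
  have hk0 := Kr0_c1 hg ε I Y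
  have hT : Integrable (fun p : ℝ × Ec n =>
      fderiv ℝ (fun p : Tn n => Kr0 δ h ε I Y p.2.1 p.1 p.2.2) (z, p) (0, 1, 0) • η p.2)
      (volume.restrict (Icc (0 : ℝ) 1 ×ˢ Om U δ)) :=
    param_int hg hε (k := fun q' : Tn n =>
      fderiv ℝ (fun p : Tn n => Kr0 δ h ε I Y p.2.1 p.1 p.2.2) q' (0, 1, 0))
      ((B7_dcont hg hk0).clm_apply continuousOn_const) (int_snd hg hK hη0).1 hz
  have e1 : ∑ l : Fin n, ∫ p in Icc (0 : ℝ) 1 ×ˢ Om U δ,
      KA δ h ε I Y l p.1 z p.2 • db η p.2 (ee l) =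
      -∫ p in Icc (0 : ℝ) 1 ×ˢ Om U δ, ∑ l : Fin n,
        db (fun ζ' => KA δ h ε I Y l p.1 z ζ') p.2 (ee l) • η p.2 := by
    rw [integral_finsetSum _ hA, ← Finset.sum_neg_distrib]
    exact Finset.sum_congr rfl fun l _ => ibp_double hg hε I Y l hz hW hK hη
  have e2 : ∫ p in Icc (0 : ℝ) 1 ×ˢ Om U δ, ∑ l : Fin n,
        db (fun ζ' => KA δ h ε I Y l p.1 z ζ') p.2 (ee l) • η p.2 =
      ∫ p in Icc (0 : ℝ) 1 ×ˢ Om U δ,
        (fderiv ℝ (fun p : Tn n => Kr0 δ h ε I Y p.2.1 p.1 p.2.2) (z, p) (0, 1, 0) • η p.2 -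
          ∑ i : Fin q, db (fun z' => KB δ h ε I Y i p.1 z' p.2) z (Y i) • η p.2) := by
    refine setIntegral_congr_fun (B7_ms hg) ?_
    intro p hp
    have h1 : ((z, p) : Tn n) ∈ Tset U δ h ε := Tset_mem hg hε hp.1 hz (B7_sub U δ hp.2)
    have h2 := kr0_closed hg ε I Y hz.1 (B7_sub U δ hp.2).1 p.1
      (aa_ne hg hε hp.1 hz (B7_sub U δ hp.2))
    have h5 := B7_da hg hk0 h1
    have h6 : HasDerivAt (fun τ : ℝ => ((z, τ, p.2) : Tn n)) (0, 1, 0) p.1 :=
      (hasDerivAt_const p.1 z).prodMk ((hasDerivAt_id p.1).prodMk (hasDerivAt_const p.1 p.2))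
    have h7 := HasFDerivAt.comp_hasDerivAt (f := fun τ : ℝ => ((z, τ, p.2) : Tn n)) p.1 h5 h6
    have h8 := h2.unique h7
    show ∑ l : Fin n, db (fun ζ' => KA δ h ε I Y l p.1 z ζ') p.2 (ee l) • η p.2 =
      fderiv ℝ (fun p : Tn n => Kr0 δ h ε I Y p.2.1 p.1 p.2.2) (z, p) (0, 1, 0) • η p.2 -
          ∑ i : Fin q, db (fun z' => KB δ h ε I Y i p.1 z' p.2) z (Y i) • η p.2
    rw [← Finset.sum_smul, ← Finset.sum_smul, ← sub_smul]
    congr 1
    rw [eq_sub_iff_add_eq]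
    exact h8
  rw [e1, e2, integral_sub hT (integrable_finsetSum _ hB), integral_finsetSum _ hB]
  have e3 := int_dt hg hε hk0 hK hη0 hz
  rw [e3]
  abel

/-- PROOF. The rows `rz (q + 1) 1 (Y i)` are `0` (`1 - τ = 0`), and there is at least one. -/
theorem Kr0_one (δ : Ec n → ℝ) (h : Ec n → Ec n → Fin n → ℂ) (ε : ℝ) {q : ℕ}
    (I : Fin (q + 1) → Fin n) (Y : Fin (q + 1) → Ec n) (z ζ : Ec n) :
    Kr0 δ h ε I Y 1 z ζ = 0 := by
  unfold Kr0
  have h1 : Matrix.det (cn (rx δ h ε (q + 1) 1 z ζ)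
      (Fin.append (fun l => rζ δ h ε I 1 z ζ (ee l)) (fun i => rz (q + 1) 1 (Y i)))) = 0 := by
    refine Matrix.det_eq_zero_of_row_eq_zero (Fin.succ (Fin.natAdd n (0 : Fin (q + 1)))) ?_
    intro j
    show cn (rx δ h ε (q + 1) 1 z ζ)
      (Fin.append (fun l => rζ δ h ε I 1 z ζ (ee l)) (fun i => rz (q + 1) 1 (Y i)))
      (Fin.succ (Fin.natAdd n (0 : Fin (q + 1)))) j = 0
    have h2 : cn (rx δ h ε (q + 1) 1 z ζ)
      (Fin.append (fun l => rζ δ h ε I 1 z ζ (ee l)) (fun i => rz (q + 1) 1 (Y i)))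
      (Fin.succ (Fin.natAdd n (0 : Fin (q + 1)))) = rz (q + 1) 1 (Y 0) := by
      unfold cn
      rw [Fin.cons_succ, Fin.append_right]
    rw [h2]
    unfold rz
    have h3 : (fun k => -(1 - ((1 : ℝ) : ℂ)) * (starRingEnd ℂ) ((Y 0) k)) =
        (0 : Fin n → ℂ) := by
      funext k
      show -(1 - ((1 : ℝ) : ℂ)) * (starRingEnd ℂ) ((Y 0) k) = 0
      rw [Complex.ofReal_one, sub_self, neg_zero, zero_mul]
    rw [h3]
    unfold sn
    refine Fin.lastCases ?_ (fun a => ?_) j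
    · rw [Fin.snoc_last]
    · rw [Fin.snoc_castSucc]
      refine Fin.addCases (fun b => ?_) (fun b => ?_) a
      · rw [Fin.append_left]
        rfl
      · rw [Fin.append_right]
        rfl
  rw [h1, mul_zero]

/-- The homotopy formula, in positive degree.
PROOF. `Sop_dbf` and `sum_ibp` with `Y i = ee (J i)` and `Kr0_one`:
`Sop (dbf η) J z = ((-1)^(q+1) kn / (q+1)!) ∑_I [∫ Kr0(τ = 0) η I + ∑_i ∫∫ db_z (KB .. i) (ee (J i)) η I]`
(here `q + 1` is the degree). The first part is `Rop η J z`. By `KB_eq`,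
`KB .. i = (-1)^(q - i) Ker .. I (fun a => ee (J (i.succAbove a)))`, so the second part is
`∑_i (-1)^(q+1) (-1)^(q-i) (kn / (q+1)!) ∑_I ∫∫ db_z (Ker .. (J ∘ i.succAbove)) (ee (J i)) η I
= -∑_i (-1)^i db (Sop η (J ∘ i.succAbove)) z (ee (J i))` by `db_Sop`
(`(-1)^(q + 1) (-1)^(q - i) = -(-1)^i`), which is `-dbf (Sop η) J z`. -/
theorem koppelman (hg : Geo U δ h c C) {ε : ℝ} (hε : 0 < ε) {q : ℕ} {η : Fm n (q + 1) V}
    {W : Set (Ec n)} (hW : IsOpen W) (hK : Kc U δ ⊆ W) (hη : ∀ I, ContDiffOn ℝ 1 (η I) W)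
    (J : Fin (q + 1) → Fin n) {z : Ec n} (hz : z ∈ Om U δ) :
    Rop U δ h ε η J z = dbf (Sop U δ h ε η) J z + Sop U δ h ε (dbf η) J z := by
  have hη0 : ∀ I, ContinuousOn (η I) W := fun I => (hη I).continuousOn
  rw [Sop_dbf hg hε hW hK hη J hz]
  let D : Fin (q + 1) → (Fin (q + 1) → Fin n) → V := fun i I =>
    ∫ p in Icc (0 : ℝ) 1 ×ˢ Om U δ,
      db (fun z' => Ker δ h ε I (fun a => ee (J (i.succAbove a))) p.1 z' p.2) z (ee (J i)) •
        η I p.2
  let A : (Fin (q + 1) → Fin n) → V := fun I =>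
    ∫ ζ in Om U δ, Kr0 δ h ε I (fun i => ee (J i)) 0 z ζ • η I ζ
  have h2 : ∀ I : Fin (q + 1) → Fin n, ∑ l : Fin n, ∫ p in Icc (0 : ℝ) 1 ×ˢ Om U δ,
      KA δ h ε I (fun i => ee (J i)) l p.1 z p.2 • db (η I) p.2 (ee l) =
      A I + ∑ i : Fin (q + 1), ((-1 : ℂ) ^ (q - (i : ℕ))) • D i I := by
    intro I
    rw [sum_ibp hg hε I (fun i => ee (J i)) hz hW hK (hη I)]
    have h3 : ∫ ζ in Om U δ, Kr0 δ h ε I (fun i => ee (J i)) 1 z ζ • η I ζ = 0 := by
      have h4 : ∀ ζ : Ec n, Kr0 δ h ε I (fun i => ee (J i)) 1 z ζ • η I ζ = 0 := by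
        intro ζ
        rw [Kr0_one, zero_smul]
      rw [integral_congr_ae (Filter.Eventually.of_forall h4), integral_zero]
    rw [h3, sub_zero]
    congr 1
    refine Finset.sum_congr rfl fun i _ => ?_
    show _ = ((-1 : ℂ) ^ (q - (i : ℕ))) • ∫ p in Icc (0 : ℝ) 1 ×ˢ Om U δ,
      db (fun z' => Ker δ h ε I (fun a => ee (J (i.succAbove a))) p.1 z' p.2) z (ee (J i)) •
        η I p.2
    rw [← integral_smul]
    refine setIntegral_congr_fun (B7_ms hg) ?_
    intro p hp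
    have h5 : ((z, p) : Tn n) ∈ Tset U δ h ε := Tset_mem hg hε hp.1 hz (B7_sub U δ hp.2)
    have h6 : DifferentiableAt ℝ
        (fun z' => Ker δ h ε I (fun a => ee (J (i.succAbove a))) p.1 z' p.2) z :=
      (B7_slz hg (Ker_c1 hg ε I (fun a => ee (J (i.succAbove a)))) h5).differentiableAt
    have h7 : (fun z' => KB δ h ε I (fun i => ee (J i)) i p.1 z' p.2) = fun z' =>
        (-1) ^ (q - (i : ℕ)) * Ker δ h ε I (fun a => ee (J (i.succAbove a))) p.1 z' p.2 := by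
      funext z'
      exact KB_eq δ h ε I (fun i => ee (J i)) i p.1 z' p.2
    show db (fun z' => KB δ h ε I (fun i => ee (J i)) i p.1 z' p.2) z (ee (J i)) • η I p.2 =
      ((-1 : ℂ) ^ (q - (i : ℕ))) •
        (db (fun z' => Ker δ h ε I (fun a => ee (J (i.succAbove a))) p.1 z' p.2) z (ee (J i)) •
          η I p.2)
    rw [h7, B8_db_const_mul _ h6, smul_smul]
  rw [Finset.sum_congr rfl fun I _ => h2 I]
  have h8 : dbf (Sop U δ h ε η) J z = ∑ i : Fin (q + 1), ((-1 : ℂ) ^ (i : ℕ)) •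
      ((kn n / ((q + 1).factorial : ℂ)) • ∑ I : Fin (q + 1) → Fin n, D i I) := by
    show ∑ i : Fin (q + 1), ((-1 : ℂ) ^ (i : ℕ)) •
      db (Sop U δ h ε η (J ∘ i.succAbove)) z (ee (J i)) = _
    refine Finset.sum_congr rfl fun i _ => ?_
    rw [db_Sop hg hε hK hη0 (J ∘ i.succAbove) hz (ee (J i))]
    rfl
  have h9 : Rop U δ h ε η J z = ((-1) ^ (q + 1) * kn n / ((q + 1).factorial : ℂ)) •
      ∑ I : Fin (q + 1) → Fin n, A I := rfl
  rw [h8, h9, Finset.sum_add_distrib, smul_add]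
  rw [Finset.sum_comm (s := (Finset.univ : Finset (Fin (q + 1) → Fin n)))]
  have h10 : ∑ i : Fin (q + 1), ((-1 : ℂ) ^ (i : ℕ)) •
      ((kn n / ((q + 1).factorial : ℂ)) • ∑ I : Fin (q + 1) → Fin n, D i I) +
      ((-1) ^ (q + 1) * kn n / ((q + 1).factorial : ℂ)) • ∑ i : Fin (q + 1),
        ∑ I : Fin (q + 1) → Fin n, ((-1 : ℂ) ^ (q - (i : ℕ))) • D i I = 0 := by
    rw [Finset.smul_sum, ← Finset.sum_add_distrib]
    refine Finset.sum_eq_zero fun i _ => ?_
    rw [← Finset.smul_sum, smul_smul, smul_smul, ← add_smul]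
    have h11 : (-1 : ℂ) ^ (i : ℕ) * (kn n / ((q + 1).factorial : ℂ)) +
        (-1) ^ (q + 1) * kn n / ((q + 1).factorial : ℂ) * (-1) ^ (q - (i : ℕ)) = 0 := by
      have h12 : (-1 : ℂ) ^ (q - (i : ℕ)) * (-1) ^ (i : ℕ) = (-1) ^ q := by
        rw [← pow_add, Nat.sub_add_cancel (Nat.lt_succ_iff.mp i.2)]
      have h13 : (-1 : ℂ) ^ (i : ℕ) * (-1) ^ (i : ℕ) = 1 := by
        rw [← mul_pow]
        norm_num
      have h14 : (-1 : ℂ) ^ q * (-1) ^ q = 1 := by
        rw [← mul_pow]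
        norm_num
      have h15 : (-1 : ℂ) ^ (q - (i : ℕ)) = (-1) ^ q * (-1) ^ (i : ℕ) := by
        rw [← h12, mul_assoc, h13, mul_one]
      rw [h15, pow_succ]
      have h16 : (-1 : ℂ) ^ q * -1 * kn n / ((q + 1).factorial : ℂ) * ((-1) ^ q * (-1) ^ (i : ℕ)) =
          -(((-1 : ℂ) ^ q * (-1) ^ q) * ((-1) ^ (i : ℕ) * (kn n / ((q + 1).factorial : ℂ)))) := by
        ring
      rw [h16, h14]
      ring
    rw [h11, zero_smul]
  rw [add_left_comm, h10, add_zero]

/-- The homotopy formula for functions.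
PROOF. As `koppelman`, with `q = 0`: `Sop_dbf`, `sum_ibp` (the last sum is empty). The kernel with
`τ = 1` does not depend on `ε` (`w0 = δ ζ` for `τ = 1`), and it is the kernel of `Pop`
(`Fin 0 → _` is a subsingleton). -/
theorem koppelman0 (hg : Geo U δ h c C) {ε : ℝ} (hε : 0 < ε) {N : Ec n → V}
    {W : Set (Ec n)} (hW : IsOpen W) (hK : Kc U δ ⊆ W) (hN : ContDiffOn ℝ 1 N W)
    (J : Fin 0 → Fin n) {z : Ec n} (hz : z ∈ Om U δ) :
    Rop U δ h ε (fun _ : Fin 0 → Fin n => N) J z =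
      Pop U δ h N z + Sop U δ h ε (dbf (fun _ : Fin 0 → Fin n => N)) J z := by
  rw [Sop_dbf hg hε hW hK (η := fun _ : Fin 0 → Fin n => N) (fun _ => hN) J hz]
  have h1 : ∀ I : Fin 0 → Fin n, ∑ l : Fin n, ∫ p in Icc (0 : ℝ) 1 ×ˢ Om U δ,
      KA δ h ε I (fun i => ee (J i)) l p.1 z p.2 • db N p.2 (ee l) =
      (∫ ζ in Om U δ, Kr0 δ h ε I (fun i => ee (J i)) 0 z ζ • N ζ) -
        (∫ ζ in Om U δ, Kr0 δ h ε I (fun i => ee (J i)) 1 z ζ • N ζ) := by
    intro I
    rw [sum_ibp hg hε I (fun i => ee (J i)) hz hW hK hN]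
    rw [Finset.univ_eq_empty (α := Fin 0), Finset.sum_empty, add_zero]
  have h2 : ∀ (I : Fin 0 → Fin n) (ζ : Ec n), Kr0 δ h ε I (fun i => ee (J i)) 1 z ζ =
      Kr0 δ h 1 Fin.elim0 Fin.elim0 1 z ζ := by
    intro I ζ
    have hI : I = Fin.elim0 := Subsingleton.elim _ _
    have hY : (fun i => ee (J i) : Fin 0 → Ec n) = Fin.elim0 := Subsingleton.elim _ _
    have hw : w0 δ ε 1 ζ = w0 δ 1 1 ζ := by
      unfold w0
      ring
    have ha : aa δ h ε 1 z ζ = aa δ h 1 1 z ζ := by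
      unfold aa
      rw [hw]
    have hF : F0 δ h ε 1 z ζ = F0 δ h 1 1 z ζ := by
      unfold F0
      rw [hw, ha]
    have hx : rx δ h ε 0 1 z ζ = rx δ h 1 0 1 z ζ := by
      unfold rx
      rw [hw]
    have hr : ∀ X, rζ δ h ε (Fin.elim0 : Fin 0 → Fin n) 1 z ζ X =
        rζ δ h 1 (Fin.elim0 : Fin 0 → Fin n) 1 z ζ X := by
      intro X
      unfold rζ
      have h3 : (((1 - ((1 : ℝ) : ℂ)) * (2 * (ε : ℂ) ^ 2 * (δ ζ : ℂ)) + ((1 : ℝ) : ℂ)) *
          db (fun y => (δ y : ℂ)) ζ X) =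
          (((1 - ((1 : ℝ) : ℂ)) * (2 * ((1 : ℝ) : ℂ) ^ 2 * (δ ζ : ℂ)) + ((1 : ℝ) : ℂ)) *
          db (fun y => (δ y : ℂ)) ζ X) := by
        rw [Complex.ofReal_one, sub_self, zero_mul, zero_mul]
      rw [h3]
    rw [hI, hY]
    unfold Kr0
    rw [hF, hx]
    have hr2 : (fun l => rζ δ h ε (Fin.elim0 : Fin 0 → Fin n) 1 z ζ (ee l)) =
        fun l => rζ δ h 1 (Fin.elim0 : Fin 0 → Fin n) 1 z ζ (ee l) := by
      funext l
      exact hr (ee l)
    rw [hr2]
  have h4 : ∀ I : Fin 0 → Fin n, ∫ ζ in Om U δ, Kr0 δ h ε I (fun i => ee (J i)) 1 z ζ • N ζ =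
      ∫ ζ in Om U δ, Kr0 δ h 1 Fin.elim0 Fin.elim0 1 z ζ • N ζ := by
    intro I
    refine integral_congr_ae (Filter.Eventually.of_forall fun ζ => ?_)
    show Kr0 δ h ε I (fun i => ee (J i)) 1 z ζ • N ζ = _
    rw [h2 I ζ]
  have h5 : ((-1) ^ 0 * kn n / ((0 : ℕ).factorial : ℂ)) = kn n := by
    rw [pow_zero, one_mul, Nat.factorial_zero, Nat.cast_one, div_one]
  have h6 : Rop U δ h ε (fun _ : Fin 0 → Fin n => N) J z =
      ((-1) ^ 0 * kn n / ((0 : ℕ).factorial : ℂ)) • ∑ I : Fin 0 → Fin n,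
        ∫ ζ in Om U δ, Kr0 δ h ε I (fun i => ee (J i)) 0 z ζ • N ζ := rfl
  have h7 : Pop U δ h N z =
      kn n • ∫ ζ in Om U δ, Kr0 δ h 1 Fin.elim0 Fin.elim0 1 z ζ • N ζ := rfl
  rw [h6, h7, h5]
  rw [Finset.sum_congr rfl fun I _ => (h1 I).trans (by rw [h4 I])]
  rw [Fintype.sum_unique, Fintype.sum_unique, smul_sub]
  abel

end Pool.Agent.MPca0fc2.FD
end
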