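import Mathlib
import Pool.Agent.Lib.MP_ca0fc2_an.FP.P3
import Pool.Agent.Lib.MP_ca0fc2_an.FP.P2

section

/-! Campaign DS, row 3: limits along ultrafilters of bounded holomorphic maps on open subsets of a normed space. -/

set_option autoImplicit false

open Metric Set Filter Topology
open scoped Real

namespace Pool.Agent.MPca0fc2.DS

variable {E V : Type*} [NormedAddCommGroup E] [NormedSpace ℂ E] [NormedAddCommGroup V] [NormedSpace ℂ V]

/-- Schwarz: the derivative of a bounded holomorphic map -/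
theorem fderiv_est {f : E → V} {c : E} {R A : ℝ} (hR : 0 < R) (hd : DifferentiableOn ℂ f (ball c R))
    (hA : ∀ z ∈ ball c R, ‖f z‖ ≤ A) : ‖fderiv ℂ f c‖ ≤ 2 * A / R := by
  refine Complex.norm_fderiv_le_div_of_mapsTo_ball hd (fun z hz => ?_) hR
  rw [mem_closedBall, dist_eq_norm]
  have h1 := hA z hz
  have h2 := hA c (mem_ball_self hR)
  have h3 := norm_sub_le (f z) (f c)
  linarith

/-- second order Schwarz: the first order Taylor formula of a bounded holomorphic map, with a bound which depends only on the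
bound of the map and the radius -/
theorem quad_est {f : E → V} {c : E} {R A : ℝ} (hR : 0 < R) (hd : DifferentiableOn ℂ f (ball c R))
    (hA : ∀ z ∈ ball c R, ‖f z‖ ≤ A) {z : E} (hz : z ∈ ball c R) :
    ‖f z - f c - fderiv ℂ f c (z - c)‖ ≤ 4 * A * (‖z - c‖ / R) ^ 2 := by
  set L := fderiv ℂ f c with hL
  have hc : c ∈ ball c R := mem_ball_self hR
  have hA0 : 0 ≤ A := (norm_nonneg _).trans (hA c hc)
  have hdc : DifferentiableAt ℂ f c := (hd c hc).differentiableAt (isOpen_ball.mem_nhds hc)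
  have hLn : ‖L‖ ≤ 2 * A / R := fderiv_est hR hd hA
  set g : E → V := fun z => f z - L (z - c) with hg
  have hgc : g c = f c := by simp [hg]
  have hgd : DifferentiableOn ℂ g (ball c R) := by
    apply hd.sub
    exact (L.differentiable.comp (differentiable_id.sub_const c)).differentiableOn
  have hmaps : MapsTo g (ball c R) (closedBall (g c) (4 * A)) := by
    intro w hw
    rw [mem_closedBall, dist_eq_norm, hgc]
    have h1 : ‖L (w - c)‖ ≤ 2 * A / R * R := by
      refine (L.le_opNorm _).trans (mul_le_mul hLn ?_ (norm_nonneg _) (by positivity))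
      rw [mem_ball, dist_eq_norm] at hw
      exact hw.le
    have h2 : 2 * A / R * R = 2 * A := by field_simp
    have h3 := hA w hw
    have h4 := hA c hc
    have h5 : ‖g w - f c‖ ≤ ‖f w‖ + ‖L (w - c)‖ + ‖f c‖ := by
      refine (norm_sub_le _ _).trans ?_
      gcongr
      exact norm_sub_le _ _
    linarith
  have hlo : (fun w => g w - g c) =o[𝓝 c] fun w => ‖w - c‖ ^ 1 := by
    have h1 := hdc.hasFDerivAt.isLittleO
    have h2 : (fun w => g w - g c) = fun w => f w - f c - (fderiv ℂ f c) (w - c) := by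
      funext w
      rw [hgc]
      simp only [hg, hL]
      abel
    rw [h2]
    simpa using h1.norm_right
  have key := Complex.dist_le_mul_div_pow_of_mapsTo_ball_of_isLittleO (n := 1) hgd hmaps hlo hz
  rw [dist_eq_norm, dist_eq_norm, hgc] at key
  have h6 : f z - f c - L (z - c) = g z - f c := by
    simp only [hg]
    abel
  rw [h6]
  exact key

/-- Limits of bounded holomorphic maps along ultrafilters, on open subsets of any complex normed space, values in a proper
space; the derivatives converge pointwise as well. -/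
theorem ultra_holo' [ProperSpace V] {ι : Type*} (𝒰 : Ultrafilter ι) {G : ι → E → V} {U : Set E} (hU : IsOpen U)
    {M : ℝ} (hG : ∀ i, DifferentiableOn ℂ (G i) U) (hM : ∀ i, ∀ z ∈ U, ‖G i z‖ ≤ M) :
    ∃ g : E → V, DifferentiableOn ℂ g U ∧ (∀ z ∈ U, ‖g z‖ ≤ M) ∧
      (∀ z ∈ U, Tendsto (fun i => G i z) 𝒰 (𝓝 (g z))) ∧
      ∀ z ∈ U, ∀ v, Tendsto (fun i => fderiv ℂ (G i) z v) 𝒰 (𝓝 (fderiv ℂ g z v)) := by
  have hlim : ∀ (a : ι → V) (C : ℝ), (∀ i, ‖a i‖ ≤ C) → ∃ y : V, ‖y‖ ≤ C ∧ Tendsto a 𝒰 (𝓝 y) := by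
    intro a C ha
    have hc : IsCompact (closedBall (0 : V) C) := isCompact_closedBall 0 C
    obtain ⟨y, hy, hy2⟩ := hc.ultrafilter_le_nhds' (𝒰.map a) (by
      rw [Ultrafilter.mem_map]
      apply Filter.univ_mem'
      intro i
      exact mem_closedBall_zero_iff.mpr (ha i))
    exact ⟨y, mem_closedBall_zero_iff.mp hy, hy2⟩
  classical
  have h1 : ∀ z, z ∈ U → ∃ y : V, ‖y‖ ≤ M ∧ Tendsto (fun i => G i z) 𝒰 (𝓝 y) :=
    fun z hz => hlim (fun i => G i z) M (fun i => hM i z hz)
  choose! g hg1 hg2 using h1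
  have hder : ∀ z₀ ∈ U, ∃ L : E →L[ℂ] V, HasFDerivAt g L z₀ ∧
      ∀ v, Tendsto (fun i => fderiv ℂ (G i) z₀ v) 𝒰 (𝓝 (L v)) := by
    intro z₀ hz₀
    obtain ⟨r, hr, hsub⟩ := Metric.isOpen_iff.mp hU z₀ hz₀
    have hM0 : 0 ≤ M := (norm_nonneg _).trans (hg1 z₀ hz₀)
    have hdi : ∀ i, DifferentiableOn ℂ (G i) (ball z₀ r) := fun i => (hG i).mono hsub
    have hMi : ∀ i, ∀ z ∈ ball z₀ r, ‖G i z‖ ≤ M := fun i z hz => hM i z (hsub hz)
    have hb : ∀ i, ‖fderiv ℂ (G i) z₀‖ ≤ 2 * M / r := fun i => fderiv_est hr (hdi i) (hMi i)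
    have h2 : ∀ v, ∃ y : V, ‖y‖ ≤ 2 * M / r * ‖v‖ ∧ Tendsto (fun i => fderiv ℂ (G i) z₀ v) 𝒰 (𝓝 y) := by
      intro v
      refine hlim _ _ fun i => ?_
      exact ((fderiv ℂ (G i) z₀).le_opNorm v).trans (by gcongr; exact hb i)
    choose L0 hL1 hL2 using h2
    let L : E →L[ℂ] V := LinearMap.mkContinuous
      { toFun := L0
        map_add' := fun x y => by
          refine tendsto_nhds_unique (hL2 (x + y)) ?_
          have := (hL2 x).add (hL2 y)
          simpa using this
        map_smul' := fun c x => by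
          refine tendsto_nhds_unique (hL2 (c • x)) ?_
          have := (hL2 x).const_smul c
          simpa using this } (2 * M / r) hL1
    have hLv : ∀ v, L v = L0 v := fun v => rfl
    refine ⟨L, ?_, fun v => by rw [hLv]; exact hL2 v⟩
    -- the uniform quadratic estimate passes to the limit
    have hquad : ∀ z ∈ ball z₀ r, ‖g z - g z₀ - L (z - z₀)‖ ≤ 4 * M * (‖z - z₀‖ / r) ^ 2 := by
      intro z hz
      have h3 : Tendsto (fun i => ‖G i z - G i z₀ - fderiv ℂ (G i) z₀ (z - z₀)‖) 𝒰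
          (𝓝 ‖g z - g z₀ - L (z - z₀)‖) := by
        apply Tendsto.norm
        rw [hLv]
        exact ((hg2 z (hsub hz)).sub (hg2 z₀ hz₀)).sub (hL2 (z - z₀))
      exact le_of_tendsto h3 (Filter.Eventually.of_forall fun i => quad_est hr (hdi i) (hMi i) hz)
    rw [hasFDerivAt_iff_isLittleO_nhds_zero]
    have hO : (fun h : E => g (z₀ + h) - g z₀ - L h) =O[𝓝 0] fun h : E => ‖h‖ ^ 2 := by
      refine Asymptotics.IsBigO.of_bound (4 * M / r ^ 2) ?_
      filter_upwards [ball_mem_nhds (0 : E) hr] with h hh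
      have h4 : z₀ + h ∈ ball z₀ r := by
        rw [mem_ball, dist_eq_norm, add_sub_cancel_left]
        simpa using hh
      have h5 := hquad _ h4
      rw [add_sub_cancel_left] at h5
      rw [Real.norm_eq_abs, abs_of_nonneg (by positivity)]
      calc ‖g (z₀ + h) - g z₀ - L h‖ ≤ 4 * M * (‖h‖ / r) ^ 2 := h5
        _ = 4 * M / r ^ 2 * ‖h‖ ^ 2 := by ring
    refine hO.trans_isLittleO ?_
    exact Asymptotics.isLittleO_norm_pow_id (by norm_num)
  refine ⟨g, fun z hz => ?_, hg1, hg2, fun z hz v => ?_⟩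
  · obtain ⟨L, hL, -⟩ := hder z hz
    exact hL.differentiableAt.differentiableWithinAt
  · obtain ⟨L, hL, hL2⟩ := hder z hz
    rw [hL.fderiv]
    exact hL2 v

/-- ultralimits of bounded holomorphic functions on the unit ball of a complex normed space -/
theorem ultra_holo_banach {E : Type*} [NormedAddCommGroup E] [NormedSpace ℂ E] {ι : Type*}
    (𝒰 : Ultrafilter ι) {G : ι → E → ℂ} {M : ℝ} (hG : ∀ i, DifferentiableOn ℂ (G i) (ball 0 1))
    (hM : ∀ i, ∀ x ∈ ball (0 : E) 1, ‖G i x‖ ≤ M) :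
    ∃ g : E → ℂ, DifferentiableOn ℂ g (ball 0 1) ∧ (∀ x ∈ ball (0 : E) 1, ‖g x‖ ≤ M) ∧
      ∀ x ∈ ball (0 : E) 1, Tendsto (fun i => G i x) 𝒰 (𝓝 (g x)) := by
  obtain ⟨g, h1, h2, h3, -⟩ := ultra_holo' 𝒰 isOpen_ball hG hM
  exact ⟨g, h1, h2, h3⟩

end Pool.Agent.MPca0fc2.DS
end

section

/-! Campaign DS, row 2 (first half): monomials, uniqueness and holomorphy of monomial expansions. -/

set_option autoImplicit false

open Metric Set Filter Topology

namespace Pool.Agent.MPca0fc2.DS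

/-- monomials -/
def mon {m : ℕ} (z : Fin m → ℂ) (α : Fin m → ℕ) : ℂ := ∏ i, z i ^ α i

theorem mon_cons {m : ℕ} (w : ℂ) (z : Fin m → ℂ) (k : ℕ) (β : Fin m → ℕ) :
    mon (Fin.cons w z : Fin (m + 1) → ℂ) (Fin.cons k β : Fin (m + 1) → ℕ) = w ^ k * mon z β := by
  simp [mon, Fin.prod_univ_succ]

theorem mem_ball_coord {m : ℕ} {z : Fin m → ℂ} {r : ℝ} (hr : 0 < r) :
    z ∈ ball (0 : Fin m → ℂ) r ↔ ∀ i, ‖z i‖ < r := by
  rw [mem_ball_zero_iff, pi_norm_lt_iff hr]

theorem cons_mem_ball {m : ℕ} {w : ℂ} {z : Fin m → ℂ} (hw : ‖w‖ < 1)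
    (hz : z ∈ ball (0 : Fin m → ℂ) 1) : (Fin.cons w z : Fin (m + 1) → ℂ) ∈ ball 0 1 := by
  rw [mem_ball_coord one_pos] at hz ⊢
  intro i
  refine Fin.cases ?_ (fun j => ?_) i
  · simpa using hw
  · simpa using hz j

theorem summable_mon {m : ℕ} {z : Fin m → ℂ} (hz : z ∈ ball (0 : Fin m → ℂ) 1) :
    Summable fun α => ‖mon z α‖ := by
  induction m with
  | zero => exact Summable.of_finite
  | succ m ih =>
    have h0 : ∀ i, ‖z i‖ < 1 := (mem_ball_coord one_pos).1 hz
    have h1 : (fun i : Fin m => z i.succ) ∈ ball (0 : Fin m → ℂ) 1 :=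
      (mem_ball_coord one_pos).2 fun i => h0 _
    have h2 := ih h1
    have h3 : Summable fun k : ℕ => ‖z 0‖ ^ k :=
      summable_geometric_of_lt_one (norm_nonneg _) (h0 0)
    have h4 := h3.mul_of_nonneg h2 (fun _ => by positivity) (fun _ => by positivity)
    rw [← (Fin.consEquiv (fun _ : Fin (m + 1) => ℕ)).summable_iff]
    refine h4.congr fun p => ?_
    have hzc : z = Fin.cons (z 0) (fun i : Fin m => z i.succ) := (Fin.cons_self_tail z).symm
    obtain ⟨k, β⟩ := p
    show _ = ‖mon z (Fin.cons k β : Fin (m + 1) → ℕ)‖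
    conv_rhs => rw [hzc]
    rw [mon_cons, norm_mul, norm_pow]

theorem summable_coef {m : ℕ} {c : (Fin m → ℕ) → ℂ} {A : ℝ} (hc : ∀ α, ‖c α‖ ≤ A)
    {z : Fin m → ℂ} (hz : z ∈ ball (0 : Fin m → ℂ) 1) : Summable fun α => c α * mon z α := by
  refine Summable.of_norm_bounded ((summable_mon hz).mul_left A) fun α => ?_
  rw [norm_mul]
  exact mul_le_mul_of_nonneg_right (hc α) (norm_nonneg _)

/-- the expansion in the first variable -/
theorem tsum_cons {m : ℕ} {c : (Fin (m + 1) → ℕ) → ℂ} {A : ℝ} (hc : ∀ α, ‖c α‖ ≤ A) {w : ℂ}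
    (hw : ‖w‖ < 1) {z : Fin m → ℂ} (hz : z ∈ ball (0 : Fin m → ℂ) 1) :
    HasSum (fun k : ℕ => w ^ k * ∑' β : Fin m → ℕ, c (Fin.cons k β) * mon z β)
      (∑' α, c α * mon (Fin.cons w z : Fin (m + 1) → ℂ) α) := by
  have hs := summable_coef hc (cons_mem_ball hw hz)
  have h1 := (Fin.consEquiv (fun _ : Fin (m + 1) => ℕ)).hasSum_iff.2 hs.hasSum
  have h2 : HasSum (fun p : ℕ × (Fin m → ℕ) =>
      w ^ p.1 * (c (Fin.cons p.1 p.2) * mon z p.2))
      (∑' α, c α * mon (Fin.cons w z : Fin (m + 1) → ℂ) α) := by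
    refine h1.congr_fun fun p => ?_
    obtain ⟨k, β⟩ := p
    show _ = c (Fin.cons k β : Fin (m + 1) → ℕ) * mon (Fin.cons w z : Fin (m + 1) → ℂ)
      (Fin.cons k β : Fin (m + 1) → ℕ)
    rw [mon_cons]; ring
  refine h2.prod_fiberwise fun k => ?_
  exact (summable_coef (c := fun β => c (Fin.cons k β)) (fun β => hc _) hz).hasSum.mul_left (w ^ k)

/-- one variable -/
theorem coef_zero {d : ℕ → ℂ} (h : ∀ w : ℂ, ‖w‖ < 1 → HasSum (fun k => w ^ k * d k) 0) : d = 0 := by
  have h1 : HasFPowerSeriesAt (0 : ℂ → ℂ) (FormalMultilinearSeries.ofScalars ℂ d) 0 := by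
    rw [hasFPowerSeriesAt_iff]
    filter_upwards [ball_mem_nhds (0 : ℂ) one_pos] with w hw
    have := h w (by simpa using hw)
    simpa [smul_eq_mul] using this
  have h2 := h1.eq_zero
  exact (FormalMultilinearSeries.ofScalars_series_eq_zero (E := ℂ) (c := d)).1 h2

theorem expansion_unique {m : ℕ} {c c' : (Fin m → ℕ) → ℂ} {A : ℝ} (hc : ∀ α, ‖c α‖ ≤ A)
    (hc' : ∀ α, ‖c' α‖ ≤ A)
    (h : ∀ z ∈ ball (0 : Fin m → ℂ) 1, ∑' α, c α * mon z α = ∑' α, c' α * mon z α) : c = c' := by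
  induction m with
  | zero =>
    have := h 0 (by simp)
    rw [tsum_fintype, tsum_fintype] at this
    funext α
    have hu : (Finset.univ : Finset (Fin 0 → ℕ)) = {α} :=
      Finset.eq_singleton_iff_unique_mem.2 ⟨Finset.mem_univ _, fun _ _ => Subsingleton.elim _ _⟩
    rw [hu] at this
    simpa only [Finset.sum_singleton, mon, Finset.univ_eq_empty, Finset.prod_empty, mul_one]
      using this
  | succ m ih =>
    have key : ∀ k : ℕ, ∀ z ∈ ball (0 : Fin m → ℂ) 1,
        ∑' β : Fin m → ℕ, c (Fin.cons k β) * mon z β =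
          ∑' β : Fin m → ℕ, c' (Fin.cons k β) * mon z β := by
      intro k z hz
      have h0 : (fun k : ℕ => (∑' β : Fin m → ℕ, c (Fin.cons k β) * mon z β) -
          ∑' β : Fin m → ℕ, c' (Fin.cons k β) * mon z β) = 0 := by
        refine coef_zero fun w hw => ?_
        have h1 := (tsum_cons hc hw hz).sub (tsum_cons hc' hw hz)
        rw [h _ (cons_mem_ball hw hz), sub_self] at h1
        refine h1.congr_fun fun k => ?_
        ring
      exact sub_eq_zero.1 (congrFun h0 k)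
    funext α
    rw [← Fin.cons_self_tail α]
    exact congrFun (ih (c := fun β => c (Fin.cons (α 0) β)) (c' := fun β => c' (Fin.cons (α 0) β))
      (fun β => hc _) (fun β => hc' _) (key (α 0))) (Fin.tail α)

/-- holomorphy of a sum of holomorphic functions with a summable bound, in any normed space -/
theorem differentiableOn_tsum {ι E : Type*} [NormedAddCommGroup E] [NormedSpace ℂ E]
    {f : ι → E → ℂ} {u : ι → ℝ} {c : E} {r : ℝ} (hu : Summable u)
    (hf : ∀ i, DifferentiableOn ℂ (f i) (ball c r)) (hb : ∀ i, ∀ z ∈ ball c r, ‖f i z‖ ≤ u i) :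
    DifferentiableOn ℂ (fun z => ∑' i, f i z) (ball c r) := by
  intro z hz
  obtain ⟨ρ, hρ, hρr⟩ := Metric.isOpen_iff.1 isOpen_ball z hz
  have hsub : ∀ w ∈ ball z (ρ / 2), ball w (ρ / 2) ⊆ ball c r := by
    intro w hw v hv
    apply hρr
    have h1 := mem_ball.1 hw
    have h2 := mem_ball.1 hv
    rw [mem_ball]
    linarith [dist_triangle v w z]
  have hd : ∀ i, ∀ w ∈ ball z (ρ / 2), HasFDerivAt (f i) (fderiv ℂ (f i) w) w := by
    intro i w hw
    have hw' : w ∈ ball c r := hsub w hw (mem_ball_self (by positivity))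
    exact ((hf i).differentiableAt (isOpen_ball.mem_nhds hw')).hasFDerivAt
  have hn : ∀ i, ∀ w ∈ ball z (ρ / 2), ‖fderiv ℂ (f i) w‖ ≤ 4 / ρ * u i := by
    intro i w hw
    have hw' : w ∈ ball c r := hsub w hw (mem_ball_self (by positivity))
    have := Complex.norm_fderiv_le_div_of_mapsTo_ball (f := f i) (c := w) (R₁ := ρ / 2)
      (R₂ := 2 * u i) ((hf i).mono (hsub w hw)) (fun v hv => by
        rw [mem_closedBall, dist_eq_norm]
        have h1 := hb i v (hsub w hw hv)
        have h2 := hb i w hw'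
        linarith [norm_sub_le (f i v) (f i w)]) (by positivity)
    refine this.trans (le_of_eq ?_)
    field_simp
    ring
  have hz0 : z ∈ ball z (ρ / 2) := mem_ball_self (by positivity)
  have h := hasFDerivAt_tsum_of_isPreconnected (𝕜 := ℂ) (f := f) (hu.mul_left (4 / ρ))
    (isOpen_ball (x := z) (ε := ρ / 2)) (convex_ball z (ρ / 2)).isPreconnected hd hn hz0
    (Summable.of_norm_bounded hu fun i => hb i z hz) hz0
  exact h.differentiableAt.differentiableWithinAt

theorem mon_diff {m : ℕ} (α : Fin m → ℕ) : Differentiable ℂ fun z : Fin m → ℂ => mon z α := by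
  unfold mon
  fun_prop

theorem expansion_diff {m : ℕ} {c : (Fin m → ℕ) → ℂ} {A : ℝ} (hc : ∀ α, ‖c α‖ ≤ A) :
    DifferentiableOn ℂ (fun z : Fin m → ℂ => ∑' α, c α * mon z α) (ball 0 1) := by
  intro z hz
  obtain ⟨r, hr1, hr2⟩ := exists_between (mem_ball_zero_iff.1 hz)
  have hr0 : 0 < r := (norm_nonneg z).trans_lt hr1
  have hA : 0 ≤ A := (norm_nonneg _).trans (hc 0)
  have hR : (fun _ : Fin m => (r : ℂ)) ∈ ball (0 : Fin m → ℂ) 1 :=
    (mem_ball_coord one_pos).2 fun i => by simpa [abs_of_pos hr0] using hr2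
  have h : DifferentiableOn ℂ (fun z : Fin m → ℂ => ∑' α, c α * mon z α) (ball 0 r) := by
    refine differentiableOn_tsum (((summable_mon hR).mul_left A)) (fun α => ?_) fun α w hw => ?_
    · exact ((mon_diff α).const_mul (c α)).differentiableOn
    · rw [norm_mul]
      refine mul_le_mul (hc α) ?_ (norm_nonneg _) hA
      unfold mon
      rw [norm_prod, norm_prod]
      refine Finset.prod_le_prod (fun i _ => norm_nonneg _) fun i _ => ?_
      rw [norm_pow, norm_pow]
      refine pow_le_pow_left₀ (norm_nonneg _) ?_ _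
      rw [Complex.norm_real, Real.norm_of_nonneg hr0.le]
      exact ((mem_ball_coord hr0).1 hw i).le
  exact (h.differentiableAt (isOpen_ball.mem_nhds (mem_ball_zero_iff.2 hr1))).differentiableWithinAt

end Pool.Agent.MPca0fc2.DS
end

section

/-! Campaign DS, row 2b: monomial expansions on finite dimensional polydiscs, existence. -/

set_option autoImplicit false

open Metric Set Filter Topology

namespace Pool.Agent.MPca0fc2.DS

/-- the Taylor coefficient of a function of one variable -/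
noncomputable def tay (g : ℂ → ℂ) (k : ℕ) : ℂ := (k.factorial : ℂ)⁻¹ * iteratedDeriv k g 0

theorem tay_hasSum {g : ℂ → ℂ} (hg : DifferentiableOn ℂ g (ball 0 1)) {w : ℂ}
    (hw : w ∈ ball (0 : ℂ) 1) : HasSum (fun k => tay g k * w ^ k) (g w) := by
  have h := Complex.hasSum_taylorSeries_on_ball hg hw
  refine h.congr_fun ?_ |> fun h => h
  intro k
  simp only [sub_zero, smul_eq_mul, tay]
  ring

theorem tay_le {g : ℂ → ℂ} (hg : DifferentiableOn ℂ g (ball 0 1)) {A : ℝ}
    (hA : ∀ w ∈ ball (0 : ℂ) 1, ‖g w‖ ≤ A) (k : ℕ) : ‖tay g k‖ ≤ A := by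
  have key : ∀ R : ℝ, 0 < R → R < 1 → ‖tay g k‖ ≤ A / R ^ k := by
    intro R h0 h1
    have h2 := Complex.norm_iteratedDeriv_le_of_forall_mem_sphere_norm_le k h0
      (hg.diffContOnCl_ball (closedBall_subset_ball h1)) (C := A)
      (fun z hz => hA z (by
        rw [mem_sphere_zero_iff_norm] at hz
        rw [mem_ball_zero_iff, hz]
        exact h1))
    have h3 : (0 : ℝ) < k.factorial := by exact_mod_cast k.factorial_pos
    unfold tay
    rw [norm_mul, norm_inv, Complex.norm_natCast]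
    calc (k.factorial : ℝ)⁻¹ * ‖iteratedDeriv k g 0‖
        ≤ (k.factorial : ℝ)⁻¹ * (k.factorial * A / R ^ k) :=
          mul_le_mul_of_nonneg_left h2 (by positivity)
      _ = A / R ^ k := by field_simp
  have hlim : Tendsto (fun R : ℝ => A / R ^ k) (𝓝[<] 1) (𝓝 (A / 1 ^ k)) := by
    have : ContinuousAt (fun R : ℝ => A / R ^ k) 1 :=
      ContinuousAt.div (by fun_prop) (by fun_prop) (by simp)
    exact this.tendsto.mono_left nhdsWithin_le_nhds
  rw [one_pow, div_one] at hlim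
  refine ge_of_tendsto hlim ?_
  have h1 : ∀ᶠ R : ℝ in 𝓝[<] 1, R ∈ Ioo (0 : ℝ) 1 :=
    Ioo_mem_nhdsLT (by norm_num)
  filter_upwards [h1] with R hR
  exact key R hR.1 hR.2

theorem tay_tail {g : ℂ → ℂ} (hg : DifferentiableOn ℂ g (ball 0 1)) {A : ℝ}
    (hA : ∀ w ∈ ball (0 : ℂ) 1, ‖g w‖ ≤ A) (k : ℕ) {w : ℂ} (hw : w ∈ ball (0 : ℂ) 1) :
    ‖g w - ∑ l ∈ Finset.range k, tay g l * w ^ l‖ ≤ A * ‖w‖ ^ k / (1 - ‖w‖) := by
  have hw' : ‖w‖ < 1 := by rwa [mem_ball_zero_iff] at hw
  have hs := tay_hasSum hg hw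
  have h1 := (hasSum_nat_add_iff' k).2 hs
  have h2 : HasSum (fun l : ℕ => A * ‖w‖ ^ k * ‖w‖ ^ l) (A * ‖w‖ ^ k * (1 - ‖w‖)⁻¹) :=
    (hasSum_geometric_of_lt_one (norm_nonneg w) hw').mul_left _
  rw [← h1.tsum_eq]
  refine (tsum_of_norm_bounded h2 fun l => ?_).trans (le_of_eq (by rw [div_eq_mul_inv]))
  rw [norm_mul, norm_pow, pow_add]
  have h3 := tay_le hg hA (l + k)
  have h4 : (0 : ℝ) ≤ ‖w‖ ^ l * ‖w‖ ^ k := by positivity
  calc ‖tay g (l + k)‖ * (‖w‖ ^ l * ‖w‖ ^ k) ≤ A * (‖w‖ ^ l * ‖w‖ ^ k) :=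
        mul_le_mul_of_nonneg_right h3 h4
    _ = A * ‖w‖ ^ k * ‖w‖ ^ l := by ring

theorem cons_mem {m : ℕ} {w : ℂ} {z : Fin m → ℂ} :
    (Fin.cons w z : Fin (m + 1) → ℂ) ∈ ball (0 : Fin (m + 1) → ℂ) 1 ↔
      w ∈ ball (0 : ℂ) 1 ∧ z ∈ ball (0 : Fin m → ℂ) 1 := by
  simp only [mem_ball_zero_iff, pi_norm_lt_iff one_pos]
  constructor
  · intro h
    exact ⟨by simpa using h 0, fun i => by simpa using h i.succ⟩
  · rintro ⟨h1, h2⟩ i
    refine Fin.cases ?_ (fun i => ?_) i
    · simpa using h1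
    · simpa using h2 i

section

variable {m : ℕ} {H : (Fin (m + 1) → ℂ) → ℂ} {A : ℝ}

theorem slice_diff (hH : DifferentiableOn ℂ H (ball 0 1)) {z : Fin m → ℂ}
    (hz : z ∈ ball (0 : Fin m → ℂ) 1) :
    DifferentiableOn ℂ (fun w : ℂ => H (Fin.cons w z)) (ball 0 1) := by
  refine hH.comp ?_ fun w hw => cons_mem.2 ⟨hw, hz⟩
  refine Differentiable.differentiableOn ?_
  rw [differentiable_pi]
  intro i
  refine Fin.cases ?_ (fun i => ?_) i
  · simpa using differentiable_id
  · simp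

theorem slice_diff' (hH : DifferentiableOn ℂ H (ball 0 1)) {w : ℂ} (hw : w ∈ ball (0 : ℂ) 1) :
    DifferentiableOn ℂ (fun z : Fin m → ℂ => H (Fin.cons w z)) (ball 0 1) := by
  refine hH.comp ?_ fun z hz => cons_mem.2 ⟨hw, hz⟩
  refine Differentiable.differentiableOn ?_
  rw [differentiable_pi]
  intro i
  refine Fin.cases ?_ (fun i => ?_) i
  · simp
  · simp only [Fin.cons_succ]
    exact differentiable_apply i

/-- the Taylor coefficients in the first variable are holomorphic -/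
theorem tay_holo (hH : DifferentiableOn ℂ H (ball 0 1)) (hA : ∀ z ∈ ball (0 : Fin (m + 1) → ℂ) 1,
    ‖H z‖ ≤ A) (k : ℕ) :
    DifferentiableOn ℂ (fun z : Fin m → ℂ => tay (fun w => H (Fin.cons w z)) k) (ball 0 1) := by
  induction k using Nat.strong_induction_on with
  | _ k ih =>
    have hA0 : 0 ≤ A := (norm_nonneg _).trans (hA 0 (mem_ball_self one_pos))
    set wn : ℕ → ℂ := fun n => ((1 / 2 : ℝ) ^ (n + 1) : ℝ) with hwn
    have hnorm : ∀ n, ‖wn n‖ = (1 / 2 : ℝ) ^ (n + 1) := by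
      intro n
      simp only [hwn]
      rw [Complex.norm_real, Real.norm_of_nonneg (by positivity)]
    have hhalf : ∀ n, (1 / 2 : ℝ) ^ (n + 1) ≤ 1 / 2 := by
      intro n
      have := pow_le_one₀ (n := n) (by norm_num : (0 : ℝ) ≤ 1 / 2) (by norm_num)
      rw [pow_succ]
      linarith
    have hwb : ∀ n, wn n ∈ ball (0 : ℂ) 1 := by
      intro n
      rw [mem_ball_zero_iff, hnorm]
      linarith [hhalf n]
    have hw0 : ∀ n, wn n ≠ 0 := by
      intro n
      rw [← norm_pos_iff, hnorm]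
      positivity
    set f : ℕ → (Fin m → ℂ) → ℂ := fun n z => (H (Fin.cons (wn n) z) -
      ∑ l ∈ Finset.range k, tay (fun w => H (Fin.cons w z)) l * wn n ^ l) / wn n ^ k with hf
    have hfd : ∀ n, DifferentiableOn ℂ (f n) (ball 0 1) := by
      intro n
      have h2 : DifferentiableOn ℂ (fun z : Fin m → ℂ => ∑ l ∈ Finset.range k,
          tay (fun w => H (Fin.cons w z)) l * wn n ^ l) (ball 0 1) :=
        DifferentiableOn.fun_sum fun l hl => (ih l (Finset.mem_range.1 hl)).mul_const _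
      have h3 := ((slice_diff' hH (hwb n)).sub h2).mul_const ((wn n ^ k)⁻¹)
      exact h3.congr fun z _ => by simp only [hf, div_eq_mul_inv, Pi.sub_apply]
    have hfc : ∀ n, ∀ z ∈ ball (0 : Fin m → ℂ) 1,
        ‖f n z - tay (fun w => H (Fin.cons w z)) k‖ ≤ 2 * A * (1 / 2 : ℝ) ^ (n + 1) := by
      intro n z hz
      have h1 := tay_tail (slice_diff hH hz) (fun w hw => hA _ (cons_mem.2 ⟨hw, hz⟩)) (k + 1)
        (hwb n)
      have h2 : f n z - tay (fun w => H (Fin.cons w z)) k = (H (Fin.cons (wn n) z) -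
          ∑ l ∈ Finset.range (k + 1), tay (fun w => H (Fin.cons w z)) l * wn n ^ l) /
            wn n ^ k := by
        simp only [hf]
        rw [Finset.sum_range_succ]
        have := pow_ne_zero k (hw0 n)
        field_simp
        ring
      rw [h2, norm_div, norm_pow, div_le_iff₀ (by rw [hnorm]; positivity)]
      refine h1.trans ?_
      have h3 : 0 < ‖wn n‖ := norm_pos_iff.2 (hw0 n)
      have h4 : ‖wn n‖ ≤ 1 / 2 := by rw [hnorm]; exact hhalf n
      rw [div_le_iff₀ (by linarith), ← hnorm n, pow_succ]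
      have h5 : 0 ≤ A * (‖wn n‖ ^ k * ‖wn n‖) := by positivity
      nlinarith
    have hT : DifferentiableOn ℂ (fun z => ∑' n, (f (n + 1) z - f n z)) (ball 0 1) := by
      refine FP.differentiableOn_tsum_ball (fun n => (hfd (n + 1)).sub (hfd n))
        (q := fun _ n => 4 * A * (1 / 2 : ℝ) ^ (n + 1)) (fun ρ _ _ => ?_)
        (fun ρ _ hρ n z hz => ?_)
      · refine Summable.mul_left _ ?_
        exact (summable_nat_add_iff 1).2
          (summable_geometric_of_lt_one (by norm_num) (by norm_num : (1 / 2 : ℝ) < 1))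
      · have hz1 : z ∈ ball (0 : Fin m → ℂ) 1 := ball_subset_ball hρ.le hz
        have h1 := hfc (n + 1) z hz1
        have h2 := hfc n z hz1
        have h3 : f (n + 1) z - f n z = (f (n + 1) z - tay (fun w => H (Fin.cons w z)) k) -
            (f n z - tay (fun w => H (Fin.cons w z)) k) := by ring
        rw [h3]
        refine (norm_sub_le _ _).trans ?_
        have h4 : (1 / 2 : ℝ) ^ (n + 1 + 1) ≤ (1 / 2 : ℝ) ^ (n + 1) :=
          pow_le_pow_of_le_one (by norm_num) (by norm_num) (by omega)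
        nlinarith
    refine ((hfd 0).add hT).congr fun z hz => ?_
    have hlim : Tendsto (fun n => f n z) atTop (𝓝 (tay (fun w => H (Fin.cons w z)) k)) := by
      rw [tendsto_iff_norm_sub_tendsto_zero]
      have h1 : Tendsto (fun n : ℕ => 2 * A * (1 / 2 : ℝ) ^ (n + 1)) atTop (𝓝 (2 * A * 0)) :=
        ((tendsto_pow_atTop_nhds_zero_of_lt_one (by norm_num)
          (by norm_num : (1 / 2 : ℝ) < 1)).comp (tendsto_add_atTop_nat 1)).const_mul _
      rw [mul_zero] at h1
      exact squeeze_zero (fun n => norm_nonneg _) (fun n => hfc n z hz) h1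
    have hsum : HasSum (fun n => f (n + 1) z - f n z)
        (tay (fun w => H (Fin.cons w z)) k - f 0 z) := by
      have hs : Summable fun n => f (n + 1) z - f n z := by
        refine Summable.of_norm_bounded (g := fun n => 4 * A * (1 / 2 : ℝ) ^ (n + 1))
          (Summable.mul_left _ ((summable_nat_add_iff 1).2
            (summable_geometric_of_lt_one (by norm_num) (by norm_num : (1 / 2 : ℝ) < 1))))
          fun n => ?_
        have h1 := hfc (n + 1) z hz
        have h2 := hfc n z hz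
        have h3 : f (n + 1) z - f n z = (f (n + 1) z - tay (fun w => H (Fin.cons w z)) k) -
            (f n z - tay (fun w => H (Fin.cons w z)) k) := by ring
        rw [h3]
        refine (norm_sub_le _ _).trans ?_
        have h4 : (1 / 2 : ℝ) ^ (n + 1 + 1) ≤ (1 / 2 : ℝ) ^ (n + 1) :=
          pow_le_pow_of_le_one (by norm_num) (by norm_num) (by omega)
        nlinarith
      refine (hs.hasSum_iff_tendsto_nat).2 ?_
      simp only [Finset.sum_range_sub (fun n => f n z)]
      exact hlim.sub_const _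
    show _ = f 0 z + ∑' n, (f (n + 1) z - f n z)
    rw [hsum.tsum_eq]
    ring

end

/-- the sums of the monomials -/
theorem s2b_summable : ∀ (m : ℕ) (z : Fin m → ℂ), z ∈ ball (0 : Fin m → ℂ) 1 →
    Summable fun α : Fin m → ℕ => ∏ i, ‖z i‖ ^ α i := by
  intro m
  induction m with
  | zero => intro z _; exact (hasSum_fintype _).summable
  | succ m ih =>
    intro z hz
    have hz' := cons_mem (w := z 0) (z := Fin.tail z)
    rw [Fin.cons_self_tail] at hz'
    obtain ⟨h0, h1⟩ := hz'.1 hz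
    rw [mem_ball_zero_iff] at h0
    have hs := Summable.mul_of_nonneg (summable_geometric_of_lt_one (norm_nonneg (z 0)) h0)
      (ih _ h1) (fun k => by positivity) (fun α => Finset.prod_nonneg fun i _ => by positivity)
    rw [← (Fin.consEquiv fun _ : Fin (m + 1) => ℕ).summable_iff]
    refine hs.congr fun p => ?_
    simp only [Function.comp_apply, Fin.consEquiv, Equiv.coe_fn_mk, Fin.prod_univ_succ,
      Fin.cons_zero, Fin.cons_succ, Fin.tail]

/-- **The power series of a bounded holomorphic function on the polydisc.** -/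
theorem s2b_expand : ∀ (m : ℕ) {H : (Fin m → ℂ) → ℂ} {A : ℝ}, DifferentiableOn ℂ H (ball 0 1) →
    (∀ z ∈ ball (0 : Fin m → ℂ) 1, ‖H z‖ ≤ A) → ∃ a : (Fin m → ℕ) → ℂ, (∀ α, ‖a α‖ ≤ A) ∧
      ∀ z ∈ ball (0 : Fin m → ℂ) 1, HasSum (fun α => a α * ∏ i, z i ^ α i) (H z) := by
  intro m
  induction m with
  | zero =>
    intro H A hH hA
    refine ⟨fun _ => H 0, fun α => hA 0 (mem_ball_self one_pos), fun z _ => ?_⟩
    have hz : z = 0 := Subsingleton.elim _ _
    subst hz
    have := hasSum_fintype (fun α : Fin 0 → ℕ => H 0 * ∏ i, (0 : Fin 0 → ℂ) i ^ α i)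
    simpa using this
  | succ m ih =>
    intro H A hH hA
    have hk : ∀ k : ℕ, ∃ a : (Fin m → ℕ) → ℂ, (∀ α, ‖a α‖ ≤ A) ∧
        ∀ z ∈ ball (0 : Fin m → ℂ) 1, HasSum (fun α => a α * ∏ i, z i ^ α i)
          (tay (fun w => H (Fin.cons w z)) k) := fun k =>
      ih (tay_holo hH hA k) fun z hz =>
        tay_le (slice_diff hH hz) (fun w hw => hA _ (cons_mem.2 ⟨hw, hz⟩)) k
    choose a ha1 ha2 using hk
    refine ⟨fun α => a (α 0) (Fin.tail α), fun α => ha1 _ _, fun z hz => ?_⟩
    have hz' := cons_mem (w := z 0) (z := Fin.tail z)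
    rw [Fin.cons_self_tail] at hz'
    obtain ⟨h0, h1⟩ := hz'.1 hz
    have hA0 : 0 ≤ A := (norm_nonneg _).trans (hA 0 (mem_ball_self one_pos))
    have hsum : Summable fun p : ℕ × (Fin m → ℕ) =>
        a p.1 p.2 * (z 0 ^ p.1 * ∏ i, Fin.tail z i ^ p.2 i) := by
      have hs := Summable.mul_of_nonneg (summable_geometric_of_lt_one (norm_nonneg (z 0))
        (by rwa [mem_ball_zero_iff] at h0)) (s2b_summable m _ h1) (fun k => by positivity)
        (fun α => Finset.prod_nonneg fun i _ => by positivity)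
      refine Summable.of_norm_bounded (hs.mul_left A) fun p => ?_
      rw [norm_mul, norm_mul, norm_pow, norm_prod]
      simp only [norm_pow]
      exact mul_le_mul_of_nonneg_right (ha1 _ _) (by positivity)
    have hval : HasSum (fun p : ℕ × (Fin m → ℕ) =>
        a p.1 p.2 * (z 0 ^ p.1 * ∏ i, Fin.tail z i ^ p.2 i)) (H z) := by
      have h2 := hsum.hasSum
      rw [hsum.tsum_prod] at h2
      have h3 : ∑' (k : ℕ) (α : Fin m → ℕ), a k α * (z 0 ^ k * ∏ i, Fin.tail z i ^ α i) = H z := by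
        have h4 := tay_hasSum (slice_diff hH h1) h0
        simp only [Fin.cons_self_tail] at h4
        rw [← h4.tsum_eq]
        refine tsum_congr fun k => ?_
        have h5 := (ha2 k _ h1).mul_right (z 0 ^ k)
        rw [← h5.tsum_eq]
        refine tsum_congr fun α => ?_
        ring
      rwa [h3] at h2
    rw [← (Fin.consEquiv fun _ : Fin (m + 1) => ℕ).hasSum_iff]
    refine hval.congr_fun ?_ |> fun h => h
    intro p
    simp only [Function.comp_apply, Fin.consEquiv, Equiv.coe_fn_mk, Fin.prod_univ_succ,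
      Fin.cons_zero, Fin.cons_succ, Fin.tail_cons, Fin.tail]

/-- induction on `m`: the coefficients of `z_0^k` are holomorphic and bounded by `A` (Cauchy) -/
theorem exists_expansion {m : ℕ} {h : (Fin m → ℂ) → ℂ} {A : ℝ} (hd : DifferentiableOn ℂ h (ball 0 1))
    (hA : ∀ z ∈ ball (0 : Fin m → ℂ) 1, ‖h z‖ ≤ A) : ∃ c : (Fin m → ℕ) → ℂ, (∀ α, ‖c α‖ ≤ A) ∧
      ∀ z ∈ ball (0 : Fin m → ℂ) 1, HasSum (fun α => c α * mon z α) (h z) :=
  s2b_expand m hd hA

end Pool.Agent.MPca0fc2.DS
end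

section

/-! Campaign DS, row 2: monomial expansions on finite dimensional polydiscs. -/
end

section

/-! Campaign DS, row 1: primes, the point `(2^-s, 3^-s, 5^-s, ..)` of `c₀`, finite sections. -/

set_option autoImplicit false

open Metric Set Filter Topology
open scoped ZeroAtInfty

namespace Pool.Agent.MPca0fc2.DS

open Pool.Agent.MPca0fc2.FP

/-- the primes -/
noncomputable def pr (i : ℕ) : ℕ := Nat.nth Nat.Prime i

theorem pr_prime (i : ℕ) : (pr i).Prime := Nat.prime_nth_prime i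

theorem pr_inj : Function.Injective pr := Nat.nth_injective Nat.infinite_setOfPred_prime

theorem pr_surj {p : ℕ} (hp : p.Prime) : ∃ i, pr i = p := ⟨_, Nat.nth_count hp⟩

theorem pr_ge (i : ℕ) : i + 2 ≤ pr i := Nat.add_two_le_nth_prime i

/-- `∏ p_i^{α_i}` -/
noncomputable def nu {m : ℕ} (α : Fin m → ℕ) : ℕ := ∏ i : Fin m, pr i ^ α i

theorem nu_pos {m : ℕ} (α : Fin m → ℕ) : 0 < nu α :=
  Finset.prod_pos fun i _ => pow_pos (pr_prime i).pos _

theorem nu_fact {m : ℕ} (α : Fin m → ℕ) (i : Fin m) : (nu α).factorization (pr i) = α i := by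
  have h0 : (nu α).factorization = ∑ j : Fin m, (pr j ^ α j).factorization :=
    Nat.factorization_prod fun j _ => pow_ne_zero _ (pr_prime j).ne_zero
  rw [h0, Finsupp.finsetSum_apply, Finset.sum_eq_single i]
  · rw [(pr_prime i).factorization_pow, Finsupp.single_eq_same]
  · intro j _ hj
    rw [(pr_prime j).factorization_pow, Finsupp.single_eq_of_ne]
    intro hc
    exact hj (Fin.ext (pr_inj hc).symm)
  · intro h
    exact absurd (Finset.mem_univ i) h

theorem nu_inj {m : ℕ} : Function.Injective (nu (m := m)) := by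
  intro α β h
  funext i
  rw [← nu_fact α i, h, nu_fact]

theorem nu_add {m : ℕ} (α β : Fin m → ℕ) : nu (α + β) = nu α * nu β := by
  rw [nu, nu, nu, ← Finset.prod_mul_distrib]
  exact Finset.prod_congr rfl fun i _ => pow_add _ _ _

theorem nu_of_factors {m d : ℕ} (hd : d ≠ 0) (h : ∀ p : ℕ, p.Prime → p ∣ d → ∃ i : Fin m, pr i = p) :
    nu (fun i : Fin m => d.factorization (pr i)) = d := by
  refine Nat.eq_of_factorization_eq (nu_pos _).ne' hd fun q => ?_
  by_cases hq : ∃ i : Fin m, pr i = q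
  · obtain ⟨i, rfl⟩ := hq
    rw [nu_fact]
  · have h1 : d.factorization q = 0 := by
      by_cases hp : q.Prime
      · exact Nat.factorization_eq_zero_of_not_dvd fun hc => hq (h q hp hc)
      · exact Nat.factorization_eq_zero_of_not_prime _ hp
    rw [h1]
    by_cases hp : q.Prime
    · refine Nat.factorization_eq_zero_of_not_dvd fun hc => hq ?_
      obtain ⟨i, -, hi⟩ := (hp.prime.dvd_finsetProd_iff _).1 hc
      exact ⟨i, ((Nat.prime_dvd_prime_iff_eq hp (pr_prime i)).1 (hp.dvd_of_dvd_pow hi)).symm⟩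
    · exact Nat.factorization_eq_zero_of_not_prime _ hp

theorem nu_dvd {m : ℕ} {α : Fin m → ℕ} {d : ℕ} (h : d ∣ nu α) : ∃ β : Fin m → ℕ, nu β = d := by
  refine ⟨_, nu_of_factors (fun h0 => (nu_pos α).ne' (Nat.eq_zero_of_zero_dvd (h0 ▸ h))) fun p hp hpd => ?_⟩
  obtain ⟨i, -, hi⟩ := (hp.prime.dvd_finsetProd_iff _).1 (hpd.trans h)
  exact ⟨i, ((Nat.prime_dvd_prime_iff_eq hp (pr_prime i)).1 (hp.dvd_of_dvd_pow hi)).symm⟩

theorem nu_exhaust {n : ℕ} (hn : 0 < n) : ∀ᶠ m in atTop, ∃ α : Fin m → ℕ, nu α = n := by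
  filter_upwards [eventually_ge_atTop n] with m hm
  refine ⟨_, nu_of_factors hn.ne' fun p hp hpd => ?_⟩
  obtain ⟨i, rfl⟩ := pr_surj hp
  have h1 := Nat.le_of_dvd hn hpd
  have h2 := pr_ge i
  exact ⟨⟨i, by omega⟩, rfl⟩

theorem c0_norm_le {x : c0} {b : ℝ} (hb : 0 ≤ b) (h : ∀ i, ‖x i‖ ≤ b) : ‖x‖ ≤ b := by
  rw [← ZeroAtInftyContinuousMap.norm_toBCF_eq_norm, BoundedContinuousFunction.norm_le hb]
  exact h

/-- the right half plane -/
def RHP : Set ℂ := {s | 0 < s.re}

theorem isOpen_RHP : IsOpen RHP := isOpen_lt continuous_const Complex.continuous_re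

theorem norm_pr_cpow (i : ℕ) (s : ℂ) : ‖(pr i : ℂ) ^ (-s)‖ = (pr i : ℝ) ^ (-s.re) := by
  rw [Complex.norm_natCast_cpow_of_pos (pr_prime i).pos, Complex.neg_re]

theorem norm_pr_le {i k : ℕ} (hk : k ≤ i) {s : ℂ} {r : ℝ} (hr : 0 ≤ r) (hs : r ≤ s.re) :
    ‖(pr i : ℂ) ^ (-s)‖ ≤ ((k : ℝ) + 2) ^ (-r) := by
  rw [norm_pr_cpow]
  have h1 : ((k : ℝ) + 2) ≤ (pr i : ℝ) := by
    have h2 : k + 2 ≤ pr i := (Nat.add_le_add_right hk 2).trans (pr_ge i)
    exact_mod_cast h2
  have h3 : (1 : ℝ) ≤ (pr i : ℝ) := le_trans (by have := Nat.cast_nonneg (α := ℝ) k; linarith) h1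
  calc (pr i : ℝ) ^ (-s.re) ≤ (pr i : ℝ) ^ (-r) := Real.rpow_le_rpow_of_exponent_le h3 (by linarith)
    _ ≤ ((k : ℝ) + 2) ^ (-r) := Real.rpow_le_rpow_of_nonpos (by positivity) h1 (by linarith)

theorem tendsto_rpow_nat {r : ℝ} (hr : 0 < r) :
    Tendsto (fun k : ℕ => ((k : ℝ) + 2) ^ (-r)) atTop (𝓝 0) :=
  (tendsto_rpow_neg_atTop hr).comp (tendsto_atTop_add_const_right _ _ tendsto_natCast_atTop_atTop)

/-- the values are the vector of the `p_i^-s` for `Re s > 0` -/
theorem exists_pt (s : ℂ) : ∃ x : c0, 0 < s.re → ∀ i, x i = (pr i : ℂ) ^ (-s) := by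
  by_cases hs : 0 < s.re
  · refine ⟨{ toFun := fun i => (pr i : ℂ) ^ (-s)
              continuous_toFun := continuous_of_discreteTopology
              zero_at_infty' := ?_ }, fun _ i => rfl⟩
    rw [cocompact_eq_cofinite, Nat.cofinite_eq_atTop]
    exact squeeze_zero_norm (fun i => norm_pr_le le_rfl hs.le le_rfl) (tendsto_rpow_nat hs)
  · exact ⟨0, fun h => absurd h hs⟩

/-- `(2^-s, 3^-s, 5^-s, ..)` -/
noncomputable def pt (s : ℂ) : c0 := (exists_pt s).choose

theorem pt_apply {s : ℂ} (hs : s ∈ RHP) (i : ℕ) : pt s i = (pr i : ℂ) ^ (-s) :=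
  (exists_pt s).choose_spec hs i

theorem pt_mem {s : ℂ} (hs : s ∈ RHP) : pt s ∈ ball (0 : c0) 1 := by
  rw [mem_ball_zero_iff]
  have hs' : 0 < s.re := hs
  refine lt_of_le_of_lt (c0_norm_le (b := (((0 : ℕ) : ℝ) + 2) ^ (-s.re)) (by positivity) fun i => ?_) ?_
  · rw [pt_apply hs]
    exact norm_pr_le (Nat.zero_le i) hs'.le le_rfl
  · rw [Real.rpow_neg (by positivity)]
    refine inv_lt_one_of_one_lt₀ (Real.one_lt_rpow (by norm_num) hs')

/-- the section of dimension `m` -/
noncomputable def inc (m : ℕ) (z : Fin m → ℂ) : c0 := ∑ i : Fin m, z i • sg i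

theorem inc_apply {m : ℕ} (z : Fin m → ℂ) (i : ℕ) : inc m z i = if h : i < m then z ⟨i, h⟩ else 0 := by
  have h : inc m z i = coordL i (inc m z) := rfl
  have h2 : ∀ j : Fin m, coordL i (z j • sg j) = z j * (if i = j then 1 else 0) := by
    intro j
    rw [map_smul, smul_eq_mul]
    rfl
  rw [h, inc, map_sum]
  simp only [h2]
  split_ifs with hi
  · rw [Finset.sum_eq_single (⟨i, hi⟩ : Fin m)]
    · simp
    · intro j _ hj
      rw [if_neg, mul_zero]
      intro hc
      exact hj (Fin.ext hc.symm)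
    · intro hc
      exact absurd (Finset.mem_univ _) hc
  · refine Finset.sum_eq_zero fun j _ => ?_
    rw [if_neg, mul_zero]
    intro hc
    exact hi (hc ▸ j.2)

theorem inc_diff (m : ℕ) : Differentiable ℂ (inc m) := by
  have h1 : Differentiable ℂ (fun z : Fin m → ℂ => ∑ i : Fin m, z i • sg (i : ℕ)) := by
    refine Differentiable.fun_sum fun i _ => Differentiable.smul_const ?_ _
    exact differentiable_apply i
  exact h1

theorem inc_norm {m : ℕ} (z : Fin m → ℂ) : ‖inc m z‖ = ‖z‖ := by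
  refine le_antisymm (c0_norm_le (norm_nonneg _) fun i => ?_) ?_
  · rw [inc_apply]
    split_ifs with hi
    · exact norm_le_pi_norm z _
    · rw [norm_zero]
      exact norm_nonneg _
  · refine (pi_norm_le_iff_of_nonneg (norm_nonneg _)).2 fun i => ?_
    have h := coord_le (inc m z) i
    rwa [inc_apply, dif_pos i.2] at h

/-- the finite sections of `x` tend to `x` -/
theorem inc_tendsto (x : c0) : Tendsto (fun m => inc m fun i => x i) atTop (𝓝 x) := by
  have hx : Tendsto (fun i => x i) atTop (𝓝 0) := by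
    have h := x.zero_at_infty'
    rw [cocompact_eq_cofinite, Nat.cofinite_eq_atTop] at h
    exact h
  rw [Metric.tendsto_atTop] at hx ⊢
  intro ε hε
  obtain ⟨N, hN⟩ := hx (ε / 2) (half_pos hε)
  refine ⟨N, fun m hm => ?_⟩
  rw [dist_eq_norm]
  refine lt_of_le_of_lt (c0_norm_le (half_pos hε).le fun i => ?_) (half_lt_self hε)
  have h1 : (inc m (fun i => x i) - x) i = inc m (fun i => x i) i - x i := rfl
  rw [h1, inc_apply]
  split_ifs with hi
  · rw [sub_self, norm_zero]
    exact (half_pos hε).le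
  · have h2 := hN i (hm.trans (not_lt.1 hi))
    rw [dist_zero_right] at h2
    rw [zero_sub, norm_neg]
    exact h2.le

/-- locally uniform limit of `∑ i < m, (pr i)^-s • sg i` -/
theorem pt_diff : DifferentiableOn ℂ pt RHP := by
  have h1 : TendstoLocallyUniformlyOn (fun (m : ℕ) (s : ℂ) => inc m fun i => (pr i : ℂ) ^ (-s)) pt
      atTop RHP := by
    rw [Metric.tendstoLocallyUniformlyOn_iff]
    intro ε hε s₀ hs₀
    have hs₀' : 0 < s₀.re / 2 := half_pos hs₀
    refine ⟨{s | s₀.re / 2 < s.re}, ?_, ?_⟩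
    · refine mem_nhdsWithin_of_mem_nhds ((isOpen_lt continuous_const Complex.continuous_re).mem_nhds ?_)
      exact half_lt_self (show 0 < s₀.re from hs₀)
    · have h2 := (tendsto_rpow_nat hs₀').eventually (gt_mem_nhds (half_pos hε))
      filter_upwards [h2] with m hm s hs
      have hs' : s₀.re / 2 < s.re := hs
      have hsR : s ∈ RHP := hs₀'.trans hs'
      rw [dist_eq_norm]
      refine lt_of_le_of_lt (c0_norm_le (half_pos hε).le fun i => ?_) (half_lt_self hε)
      have h3 : (pt s - inc m fun i => (pr i : ℂ) ^ (-s)) i =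
        pt s i - inc m (fun i => (pr i : ℂ) ^ (-s)) i := rfl
      rw [h3, inc_apply, pt_apply hsR]
      split_ifs with hi
      · rw [sub_self, norm_zero]
        exact (half_pos hε).le
      · rw [sub_zero]
        exact (norm_pr_le (not_lt.1 hi) hs₀'.le hs'.le).trans hm.le
  refine h1.differentiableOn (Eventually.of_forall fun m => ?_) isOpen_RHP
  refine ((inc_diff m).comp_differentiableOn ?_)
  rw [differentiableOn_pi]
  intro i
  have h2 : ((pr i : ℕ) : ℂ) ≠ 0 := Nat.cast_ne_zero.2 (pr_prime i).ne_zero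
  exact fun s _ => ((differentiableAt_id.neg).const_cpow (Or.inl h2)).differentiableWithinAt

end Pool.Agent.MPca0fc2.DS
end
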