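import Pool.Agent.Lib.MP_ca0fc2_an.Mg.G108
import Pool.Agent.Lib.MP_ca0fc2_an.Mg.G099
import Pool.Agent.Lib.MP_ca0fc2_an.Mg.G107

section

/-! Campaign FP, row U: the unit ball of `ℓ²`. -/

set_option autoImplicit false

open Metric Set Filter Topology

namespace Pool.Agent.MPca0fc2.FP

open Pool.Agent.MPca0fc2.PD

/-- `ℓ²` -/
noncomputable abbrev l2 := lp (fun _ : ℕ => ℂ) 2

theorem l2_sq (x : l2) : HasSum (fun i => ‖x i‖ ^ 2) (‖x‖ ^ 2) := by
  have h := lp.hasSum_norm (p := 2) (by norm_num) x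
  simpa using h

/-- the inclusion of `ℂⁿ` -/
noncomputable def jfun (n : ℕ) (v : En n) : l2 := ∑ i : Fin n, lp.single 2 (i : ℕ) (v i)

theorem jfun_apply {n : ℕ} (v : En n) (i : ℕ) : jfun n v i = if h : i < n then v ⟨i, h⟩ else 0 := by
  rw [jfun, lp.coeFn_sum, Finset.sum_apply]
  by_cases h : i < n
  · rw [dif_pos h, Finset.sum_eq_single ⟨i, h⟩]
    · exact lp.single_apply_self _ _ _
    · intro j _ hj
      exact lp.single_apply_ne _ _ _ fun hc => hj (Fin.ext hc.symm)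
    · intro hc
      exact absurd (Finset.mem_univ _) hc
  · rw [dif_neg h]
    refine Finset.sum_eq_zero fun j _ => lp.single_apply_ne _ _ _ fun hc => h (hc ▸ j.2)

theorem norm_jfun {n : ℕ} (v : En n) : ‖jfun n v‖ = ‖v‖ := by
  have h1 : ‖jfun n v‖ ^ 2 = ‖v‖ ^ 2 := by
    rw [EuclideanSpace.norm_sq_eq]
    refine (l2_sq (jfun n v)).unique ?_
    have h2 : (fun i => ‖jfun n v i‖ ^ 2) = fun i => if h : i < n then ‖v ⟨i, h⟩‖ ^ 2 else 0 := by
      funext i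
      rw [jfun_apply]
      split_ifs with h
      · rfl
      · simp
    rw [h2]
    have h3 : ∑ i : Fin n, ‖v i‖ ^ 2 = ∑ i ∈ Finset.range n, if h : i < n then ‖v ⟨i, h⟩‖ ^ 2 else 0 := by
      rw [Finset.sum_range]
      exact Finset.sum_congr rfl fun i _ => by rw [dif_pos i.2]
    rw [h3]
    exact hasSum_sum_of_ne_finset_zero fun i hi => dif_neg fun h => hi (Finset.mem_range.2 h)
  exact (sq_eq_sq₀ (norm_nonneg _) (norm_nonneg _)).1 h1

/-- the inclusion of `ℂⁿ` -/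
noncomputable def jn (n : ℕ) : En n →L[ℂ] l2 :=
  LinearMap.mkContinuous
    { toFun := jfun n
      map_add' := fun v w => by
        rw [jfun, jfun, jfun, ← Finset.sum_add_distrib]
        exact Finset.sum_congr rfl fun i _ => lp.single_add _ _ _ _
      map_smul' := fun c v => by
        rw [jfun, jfun, RingHom.id_apply, Finset.smul_sum]
        exact Finset.sum_congr rfl fun i _ =>
          lp.single_smul (E := fun _ : ℕ => ℂ) (𝕜 := ℂ) 2 (i : ℕ) c (v i) } 1 fun v => by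
    rw [one_mul]
    exact (norm_jfun v).le

theorem jn_def {n : ℕ} (v : En n) : jn n v = jfun n v := rfl

theorem jn_apply {n : ℕ} (v : En n) (i : ℕ) : jn n v i = if h : i < n then v ⟨i, h⟩ else 0 :=
  jfun_apply v i

theorem norm_jn {n : ℕ} (v : En n) : ‖jn n v‖ = ‖v‖ := norm_jfun v

/-- the first `n` coordinates -/
noncomputable def pfun (n : ℕ) (x : l2) : En n := WithLp.toLp 2 fun i : Fin n => x i

theorem norm_pfun_le {n : ℕ} (x : l2) : ‖pfun n x‖ ≤ ‖x‖ := by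
  have h1 : ‖pfun n x‖ ^ 2 ≤ ‖x‖ ^ 2 := by
    rw [EuclideanSpace.norm_sq_eq, ← (l2_sq x).tsum_eq]
    have h3 : ∑ i : Fin n, ‖pfun n x i‖ ^ 2 = ∑ i ∈ Finset.range n, ‖x i‖ ^ 2 := by
      rw [Finset.sum_range]
      rfl
    rw [h3]
    exact (l2_sq x).summable.sum_le_tsum _ fun i _ => sq_nonneg _
  exact le_of_sq_le_sq h1 (norm_nonneg _)

/-- the first `n` coordinates -/
noncomputable def pn (n : ℕ) : l2 →L[ℂ] En n :=
  LinearMap.mkContinuous
    { toFun := pfun n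
      map_add' := fun _ _ => rfl
      map_smul' := fun _ _ => rfl } 1 fun v => by
    rw [one_mul]
    exact norm_pfun_le v

theorem pn_apply {n : ℕ} (x : l2) (i : Fin n) : pn n x i = x i := rfl

theorem norm_pn_le {n : ℕ} (x : l2) : ‖pn n x‖ ≤ ‖x‖ := norm_pfun_le x

theorem pn_jn {n : ℕ} (v : En n) : pn n (jn n v) = v := by
  ext i
  rw [pn_apply, jn_apply, dif_pos i.2]

theorem tendsto_jn_pn (x : l2) : Tendsto (fun n => jn n (pn n x)) atTop (𝓝 x) := by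
  have h1 := (lp.hasSum_single (p := 2) (by norm_num) x).tendsto_sum_nat
  refine h1.congr fun n => ?_
  rw [Finset.sum_range]
  rfl

theorem jn_mem {n : ℕ} {v : En n} (hv : v ∈ ball (0 : En n) 1) : jn n v ∈ ball (0 : l2) 1 := by
  rw [mem_ball_zero_iff] at hv ⊢
  rwa [norm_jn]

theorem pn_mem {n : ℕ} {x : l2} (hx : x ∈ ball (0 : l2) 1) : pn n x ∈ ball (0 : En n) 1 := by
  rw [mem_ball_zero_iff] at hx ⊢
  exact (norm_pn_le x).trans_lt hx

/-- finite dimensional slices of the map `G`, with values in the range of `J` -/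
def HasSlicesJ {n : ℕ} {E F : Type*} [NormedAddCommGroup E] [NormedSpace ℂ E] (J : En n → F)
    (G : E → F) (ρ : ℝ) : Prop :=
  ∃ (r : ℕ → ℕ) (Γ : ∀ k, (Fin (r k) → ℂ) → En n) (τ : ℕ → ℝ) (i : ∀ k, (Fin (r k) → ℂ) → E),
    Good n r Γ ∧ (∀ k, 1 < τ k) ∧ (∀ k, DifferentiableOn ℂ (i k) (ball 0 (τ k))) ∧
    (∀ k, ∀ t ∈ ball (0 : Fin (r k) → ℂ) (τ k), i k t ∈ ball (0 : E) 1) ∧
    ∀ k, ∀ t ∈ ball (0 : Fin (r k) → ℂ) (τ k), G (i k t) = J ((ρ : ℂ) • Γ k t)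

end Pool.Agent.MPca0fc2.FP
end

section

/-! Campaign FP, row U: the projection for one dimension, as a map of `H^∞` of the big ball. -/

set_option autoImplicit false

open Metric Set MeasureTheory Filter Topology
open scoped Real ComplexConjugate

namespace Pool.Agent.MPca0fc2.FP

open Pool.Agent.MPca0fc2.PD

variable {n : ℕ} {E F : Type*} [NormedAddCommGroup E] [NormedSpace ℂ E] [NormedAddCommGroup F]
  [NormedSpace ℂ F]

/-- a contractive linear projection, module map over `φ ↦ φ (J (ρ ·))` -/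
structure IsProjJ (J : En n → F) (G : E → F) (ρ : ℝ) (P : (E → ℂ) → En n → ℂ) : Prop where
  diff : ∀ h, IsH h → DifferentiableOn ℂ (P h) (ball 0 1)
  norm : ∀ h, IsH h → ∀ C : ℝ, (∀ x ∈ ball (0 : E) 1, ‖h x‖ ≤ C) → ∀ w ∈ ball (0 : En n) 1, ‖P h w‖ ≤ C
  add : ∀ h₁ h₂, IsH h₁ → IsH h₂ → ∀ w ∈ ball (0 : En n) 1, P (fun x => h₁ x + h₂ x) w = P h₁ w + P h₂ w
  smul : ∀ (c : ℂ) (h), IsH h → ∀ w ∈ ball (0 : En n) 1, P (fun x => c * h x) w = c * P h w
  one : ∀ w ∈ ball (0 : En n) 1, P (fun _ => 1) w = 1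
  mod : ∀ φ h, IsH φ → IsH h → ∀ w ∈ ball (0 : En n) 1,
    P (fun x => φ (G x) * h x) w = φ (J ((ρ : ℂ) • w)) * P h w

/-- the projection for one dilation -/
theorem exists_projJ_rho (hn : 2 ≤ n) {J : En n →L[ℂ] F} (hJ : ∀ v, ‖J v‖ ≤ ‖v‖) {G : E → F} {ρ : ℝ}
    (hρ : 0 < ρ) (hρ1 : ρ < 1) (hS : HasSlicesJ J G ρ) : ∃ P, IsProjJ J G ρ P := by
  obtain ⟨r, Γ, τ, i, hΓ, hτ, hid, him, hiG⟩ := hS
  obtain ⟨𝒰, h𝒰⟩ : ∃ 𝒰 : Ultrafilter ℕ, (𝒰 : Filter ℕ) ≤ atTop := ⟨Ultrafilter.of atTop, Ultrafilter.of_le _⟩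
  obtain ⟨a, ha⟩ : ∃ a : (E → ℂ) → ℕ → En n → ℂ,
      a = fun h k w => M (r k) fun θ => h (i k (ex θ)) * K w (Γ k (ex θ)) := ⟨_, rfl⟩
  have hhd : ∀ h : E → ℂ, IsH h → ∀ k, DifferentiableOn ℂ (fun t => h (i k t)) (ball 0 (τ k)) :=
    fun h hh k => hh.1.comp (hid k) (him k)
  have hmem : ∀ k (θ : Fin (r k) → ℝ), i k (ex θ) ∈ ball (0 : E) 1 := fun k θ => him k _ (ex_mem (hτ k) θ)
  have hcont : ∀ h : E → ℂ, IsH h → ∀ k, Continuous fun θ : Fin (r k) → ℝ => h (i k (ex θ)) :=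
    fun h hh k => cont_ex (hτ k) (hhd h hh k)
  have had : ∀ h : E → ℂ, IsH h → ∀ k, DifferentiableOn ℂ (a h k) (ball 0 1) := by
    intro h hh k
    rw [ha]
    exact E_diff (hΓ.diff k) (hΓ.eq k) (hcont h hh k)
  have hab : ∀ h : E → ℂ, IsH h → ∀ C : ℝ, (∀ x ∈ ball (0 : E) 1, ‖h x‖ ≤ C) → ∀ k, ∀ w : En n, ‖w‖ < 1 →
      ‖a h k w‖ ≤ C * ((1 - ‖w‖) ^ n)⁻¹ := by
    intro h hh C hC k w hw
    rw [ha]
    exact E_bound (hΓ.diff k) (hΓ.eq k) (hcont h hh k) (fun θ => hC _ (hmem k θ)) hw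
  have hlim : ∀ h : E → ℂ, IsH h → ∀ w ∈ ball (0 : En n) 1,
      Tendsto (fun k => a h k w) 𝒰 (𝓝 (limUnder (𝒰 : Filter ℕ) fun k => a h k w)) := by
    intro h hh w hw
    obtain ⟨C, hC⟩ := hh.2
    exact exists_lim 𝒰 fun k => hab h hh C hC k w (mem_ball_zero_iff.1 hw)
  have hKc : ∀ w ∈ ball (0 : En n) 1, ∀ k, Continuous fun θ : Fin (r k) → ℝ => K w (Γ k (ex θ)) :=
    fun w hw k => K_cont (mem_ball_zero_iff.1 hw) (cont_Γ (hΓ.diff k)) fun θ => (hΓ.eq k θ).le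
  refine ⟨fun h w => limUnder (𝒰 : Filter ℕ) fun k => a h k w, ?_, ?_, ?_, ?_, ?_, ?_⟩
  · -- holomorphic
    intro h hh
    obtain ⟨C, hC⟩ := hh.2
    have hC0 : 0 ≤ C := (norm_nonneg _).trans (hC 0 (mem_ball_self one_pos))
    intro w hw
    have hw1 := mem_ball_zero_iff.1 hw
    obtain ⟨s, hs1, hs2⟩ := exists_between hw1
    have h0s : 0 ≤ ‖w‖ := norm_nonneg w
    have h1 : DifferentiableOn ℂ (fun w => limUnder (𝒰 : Filter ℕ) fun k => a h k w) (ball 0 s) :=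
      ball_eq_of_limUnder isOpen_ball 𝒰 (C := C * ((1 - s) ^ n)⁻¹)
        (by have := sub_pos.2 hs2; positivity)
        (fun k => (had h hh k).mono (ball_subset_ball hs2.le))
        (fun k z hz => by
          have h2 : ‖z‖ < s := mem_ball_zero_iff.1 hz
          refine (hab h hh C hC k z (h2.trans hs2)).trans ?_
          have h3 : 0 < 1 - s := sub_pos.2 hs2
          gcongr)
    exact (h1.differentiableAt (isOpen_ball.mem_nhds (mem_ball_zero_iff.2 hs1))).differentiableWithinAt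
  · -- norm
    intro h hh C hC w hw
    have hC0 : 0 ≤ C := (norm_nonneg _).trans (hC 0 (mem_ball_self one_pos))
    have h1 := L_norm (N := 1) hn hΓ hC0 hτ (h := fun k _ t => h (i k t)) (fun k _ => hhd h hh k)
      (fun k θ => by
        simp only [Finset.univ_unique, Finset.sum_const, Finset.card_singleton, one_smul]
        have := hC _ (hmem k θ)
        gcongr) (mem_ball_zero_iff.1 hw) h𝒰 (g := fun _ => limUnder (𝒰 : Filter ℕ) fun k => a h k w)
      (fun _ => by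
        have := hlim h hh w hw
        rw [ha] at this ⊢
        exact this)
    simp only [Finset.univ_unique, Finset.sum_const, Finset.card_singleton, one_smul] at h1
    exact le_of_sq_le_sq h1 hC0
  · -- additive
    intro h₁ h₂ hh₁ hh₂ w hw
    refine tendsto_nhds_unique (hlim _ (hh₁.add hh₂) w hw) ?_
    refine ((hlim h₁ hh₁ w hw).add (hlim h₂ hh₂ w hw)).congr fun k => ?_
    rw [ha]
    simp only [add_mul]
    have c₁ : Continuous fun θ : Fin (r k) → ℝ => h₁ (i k (ex θ)) * K w (Γ k (ex θ)) :=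
      (hcont h₁ hh₁ k).mul (hKc w hw k)
    have c₂ : Continuous fun θ : Fin (r k) → ℝ => h₂ (i k (ex θ)) * K w (Γ k (ex θ)) :=
      (hcont h₂ hh₂ k).mul (hKc w hw k)
    exact (M_add c₁ c₂).symm
  · -- homogeneous
    intro c h hh w hw
    refine tendsto_nhds_unique (hlim _ ((IsH.const c).mul hh) w hw) ?_
    refine ((hlim h hh w hw).const_mul c).congr fun k => ?_
    rw [ha]
    simp only [mul_assoc]
    rw [M_mul_left]
  · -- the constant function
    intro w hw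
    refine tendsto_nhds_unique (hlim _ (IsH.const 1) w hw) ?_
    refine tendsto_const_nhds.congr fun k => ?_
    rw [ha]
    simp only [one_mul]
    exact (M_K_one (hΓ.diff k) (hΓ.le k) (hΓ.zero k) (mem_ball_zero_iff.1 hw)).symm
  · -- the module property
    intro φ₀ h hφ₀ hh w hw
    obtain ⟨φ, hφdef⟩ : ∃ φ : En n → ℂ, φ = fun y => φ₀ (J y) := ⟨_, rfl⟩
    have hφ : IsH φ := by
      rw [hφdef]
      exact hφ₀.comp J.differentiable.differentiableOn fun x hx => by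
        rw [mem_ball_zero_iff] at hx ⊢
        exact (hJ x).trans_lt hx
    obtain ⟨C, hC⟩ := hh.2
    have hφc : ContinuousOn (fun y : En n => φ ((ρ : ℂ) • y)) (closedBall 0 1) := by
      refine hφ.1.continuousOn.comp (by fun_prop) fun y hy => ?_
      rw [mem_ball_zero_iff, norm_smul, Complex.norm_real, Real.norm_of_nonneg hρ.le]
      have := mem_closedBall_zero_iff.1 hy
      nlinarith [norm_nonneg y]
    have h1 := mod_lim hn hΓ hφc (fun ε hε => pol_dense hφ.1 hρ hρ1 hε) (H := fun k t => h (i k t)) hτ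
      (fun k => hhd h hh k) (fun k θ => hC _ (hmem k θ)) (mem_ball_zero_iff.1 hw)
    have h2 := (h1.mono_left h𝒰).add ((hlim h hh w hw).const_mul (φ ((ρ : ℂ) • w)))
    rw [zero_add] at h2
    have h3 : Tendsto (fun k => a (fun x => φ₀ (G x) * h x) k w) 𝒰
        (𝓝 (φ ((ρ : ℂ) • w) * limUnder (𝒰 : Filter ℕ) fun k => a h k w)) := by
      refine h2.congr fun k => ?_
      rw [ha]
      simp only []
      have h4 : (fun θ : Fin (r k) → ℝ => φ₀ (G (i k (ex θ))) * h (i k (ex θ)) * K w (Γ k (ex θ))) =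
          fun θ => h (i k (ex θ)) * φ ((ρ : ℂ) • Γ k (ex θ)) * K w (Γ k (ex θ)) := by
        funext θ
        rw [hiG k _ (ex_mem (hτ k) θ), hφdef]
        ring
      rw [h4]
      ring
    rw [h3.limUnder_eq, hφdef]

/-- **The projection.** -/
theorem exists_projJ (hn : 2 ≤ n) {J : En n →L[ℂ] F} (hJ : ∀ v, ‖J v‖ ≤ ‖v‖) {G : E → F}
    (hGd : DifferentiableOn ℂ G (ball 0 1)) (hGm : ∀ x ∈ ball (0 : E) 1, G x ∈ ball (0 : F) 1)
    (hS : ∀ ρ, 0 < ρ → ρ < 1 → HasSlicesJ J G ρ) : ∃ P, IsProjJ J G 1 P := by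
  obtain ⟨q, hqdef⟩ : ∃ q : ℕ → ℝ, q = fun i : ℕ => 1 - 1 / ((i : ℝ) + 2) := ⟨_, rfl⟩
  have hq : ∀ i, 0 < q i ∧ q i < 1 := by
    intro i
    have h1 : (0 : ℝ) < (i : ℝ) + 2 := by positivity
    subst hqdef
    constructor
    · simp only []
      rw [sub_pos, div_lt_one h1]
      have : (0 : ℝ) ≤ i := Nat.cast_nonneg i
      linarith
    · have : 0 < 1 / ((i : ℝ) + 2) := by positivity
      simp only []
      linarith
  have hq1 : Tendsto q atTop (𝓝 1) := by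
    subst hqdef
    have h0 : Tendsto (fun i : ℕ => (1 : ℝ) - 1 / ((i : ℝ) + 2)) atTop (𝓝 (1 - 0)) := by
      apply Tendsto.sub tendsto_const_nhds
      have h2 : Tendsto (fun i : ℕ => (i : ℝ) + 2) atTop atTop :=
        tendsto_atTop_add_const_right _ _ tendsto_natCast_atTop_atTop
      exact (tendsto_inv_atTop_zero.comp h2).congr fun i => by simp
    rwa [sub_zero] at h0
  choose P hP using fun m => exists_projJ_rho hn hJ (hq m).1 (hq m).2 (hS (q m) (hq m).1 (hq m).2)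
  obtain ⟨𝒰, h𝒰⟩ : ∃ 𝒰 : Ultrafilter ℕ, (𝒰 : Filter ℕ) ≤ atTop := ⟨Ultrafilter.of atTop, Ultrafilter.of_le _⟩
  have hlim : ∀ h : E → ℂ, IsH h → ∀ w ∈ ball (0 : En n) 1,
      Tendsto (fun m => P m h w) 𝒰 (𝓝 (limUnder (𝒰 : Filter ℕ) fun m => P m h w)) := by
    intro h hh w hw
    obtain ⟨C, hC⟩ := hh.2
    exact exists_lim 𝒰 fun m => (hP m).norm h hh C hC w hw
  refine ⟨fun h w => limUnder (𝒰 : Filter ℕ) fun m => P m h w, ?_, ?_, ?_, ?_, ?_, ?_⟩
  · intro h hh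
    obtain ⟨C, hC⟩ := hh.2
    exact ball_eq_of_limUnder isOpen_ball 𝒰 ((norm_nonneg _).trans (hC 0 (mem_ball_self one_pos)))
      (fun m => (hP m).diff h hh) (fun m w hw => (hP m).norm h hh C hC w hw)
  · intro h hh C hC w hw
    exact le_of_tendsto (hlim h hh w hw).norm (Eventually.of_forall fun m => (hP m).norm h hh C hC w hw)
  · intro h₁ h₂ hh₁ hh₂ w hw
    refine tendsto_nhds_unique (hlim _ (hh₁.add hh₂) w hw) ?_
    exact ((hlim h₁ hh₁ w hw).add (hlim h₂ hh₂ w hw)).congr fun m => ((hP m).add h₁ h₂ hh₁ hh₂ w hw).symm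
  · intro c h hh w hw
    refine tendsto_nhds_unique (hlim _ ((IsH.const c).mul hh) w hw) ?_
    exact ((hlim h hh w hw).const_mul c).congr fun m => ((hP m).smul c h hh w hw).symm
  · intro w hw
    refine tendsto_nhds_unique (hlim _ (IsH.const 1) w hw) ?_
    exact tendsto_const_nhds.congr fun m => ((hP m).one w hw).symm
  · intro φ h hφ hh w hw
    have h1 : Tendsto (fun m => φ (J ((q m : ℂ) • w))) 𝒰 (𝓝 (φ (J w))) := by
      have h2 : Tendsto (fun m : ℕ => (q m : ℂ) • w) atTop (𝓝 w) := by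
        have h3 : Tendsto (fun m : ℕ => ((q m : ℝ) : ℂ)) atTop (𝓝 ((1 : ℝ) : ℂ)) :=
          (Complex.continuous_ofReal.tendsto 1).comp hq1
        have h4 := h3.smul_const w
        simpa using h4
      have hJw : J w ∈ ball (0 : F) 1 := by
        rw [mem_ball_zero_iff] at hw ⊢
        exact (hJ w).trans_lt hw
      have h5 : ContinuousAt φ (J w) := hφ.1.continuousOn.continuousAt (isOpen_ball.mem_nhds hJw)
      exact ((h5.tendsto.comp (J.continuous.tendsto w)).comp h2).mono_left h𝒰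
    have h2 := h1.mul (hlim h hh w hw)
    refine tendsto_nhds_unique (hlim _ ((hφ.comp hGd hGm).mul hh) w hw) ?_
    rw [Complex.ofReal_one, one_smul]
    exact h2.congr fun m => ((hP m).mod φ h hφ hh w hw).symm

end Pool.Agent.MPca0fc2.FP
end

section

/-! Campaign FP, row U: the projection onto `H^∞` of the unit ball of `ℓ²`. -/

set_option autoImplicit false

open Metric Set MeasureTheory Filter Topology
open scoped Real ComplexConjugate

namespace Pool.Agent.MPca0fc2.FP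

open Pool.Agent.MPca0fc2.PD

variable {E F : Type*} [NormedAddCommGroup E] [NormedSpace ℂ E] [NormedAddCommGroup F]
  [NormedSpace ℂ F]

/-- a contractive linear projection of `H^∞` of the ball of `E` onto `H^∞` of the ball of `F`, module map
over `φ ↦ φ ∘ G` -/
structure IsProjF (G : E → F) (P : (E → ℂ) → F → ℂ) : Prop where
  diff : ∀ h, IsH h → DifferentiableOn ℂ (P h) (ball 0 1)
  norm : ∀ h, IsH h → ∀ C : ℝ, (∀ x ∈ ball (0 : E) 1, ‖h x‖ ≤ C) → ∀ w ∈ ball (0 : F) 1, ‖P h w‖ ≤ C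
  add : ∀ h₁ h₂, IsH h₁ → IsH h₂ → ∀ w ∈ ball (0 : F) 1, P (fun x => h₁ x + h₂ x) w = P h₁ w + P h₂ w
  smul : ∀ (c : ℂ) (h), IsH h → ∀ w ∈ ball (0 : F) 1, P (fun x => c * h x) w = c * P h w
  one : ∀ w ∈ ball (0 : F) 1, P (fun _ => 1) w = 1
  mod : ∀ φ h, IsH φ → IsH h → ∀ w ∈ ball (0 : F) 1, P (fun x => φ (G x) * h x) w = φ w * P h w

/-- the values of `P h` determine `P` only through the values of `h` on the ball -/
theorem IsProjF.isH {G : E → F} {P : (E → ℂ) → F → ℂ} (hP : IsProjF G P) {h : E → ℂ} (hh : IsH h) :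
    IsH (P h) := by
  obtain ⟨C, hC⟩ := hh.2
  exact ⟨hP.diff h hh, C, hP.norm h hh C hC⟩

/-- **The limit of the projections.** -/
theorem exists_projF {G : E → l2} (hS : ∀ n, 2 ≤ n → ∀ ρ, 0 < ρ → ρ < 1 → HasSlicesJ (jn n) G ρ)
    (hGd : DifferentiableOn ℂ G (ball 0 1)) (hGm : ∀ x ∈ ball (0 : E) 1, G x ∈ ball (0 : l2) 1) :
    ∃ P, IsProjF G P := by
  have hex : ∀ n, ∃ P, IsProjJ (jn (n + 2)) G 1 P := fun n =>
    exists_projJ (Nat.le_add_left 2 n) (fun v => (norm_jn v).le) hGd hGm (hS (n + 2) (Nat.le_add_left 2 n))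
  choose Q hQ using hex
  obtain ⟨𝒰, h𝒰⟩ : ∃ 𝒰 : Ultrafilter ℕ, (𝒰 : Filter ℕ) ≤ atTop := ⟨Ultrafilter.of atTop, Ultrafilter.of_le _⟩
  have hex2 : ∀ h : E → ℂ, ∃ g : l2 → ℂ, IsH h → DifferentiableOn ℂ g (ball 0 1) ∧
      ∀ x ∈ ball (0 : l2) 1, Tendsto (fun n => Q n h (pn (n + 2) x)) 𝒰 (𝓝 (g x)) := by
    intro h
    by_cases hh : IsH h
    · obtain ⟨C, hC⟩ := hh.2
      obtain ⟨g, h1, -, h3⟩ := Pool.Agent.MPca0fc2.DS.ultra_holo_banach 𝒰
        (G := fun n (x : l2) => Q n h (pn (n + 2) x)) (M := C)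
        (fun n => ((hQ n).diff h hh).comp (pn (n + 2)).differentiable.differentiableOn
          fun x hx => pn_mem hx)
        (fun n x hx => (hQ n).norm h hh C hC _ (pn_mem hx))
      exact ⟨g, fun _ => ⟨h1, h3⟩⟩
    · exact ⟨0, fun hc => absurd hc hh⟩
  choose P hP using hex2
  refine ⟨P, ⟨fun h hh => (hP h hh).1, fun h hh C hC w hw => ?_, fun h₁ h₂ hh₁ hh₂ w hw => ?_,
    fun c h hh w hw => ?_, fun w hw => ?_, fun φ h hφ hh w hw => ?_⟩⟩
  · exact le_of_tendsto ((hP h hh).2 w hw).norm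
      (Eventually.of_forall fun n => (hQ n).norm h hh C hC _ (pn_mem hw))
  · refine tendsto_nhds_unique ((hP _ (hh₁.add hh₂)).2 w hw) ?_
    exact (((hP h₁ hh₁).2 w hw).add ((hP h₂ hh₂).2 w hw)).congr fun n =>
      ((hQ n).add h₁ h₂ hh₁ hh₂ _ (pn_mem hw)).symm
  · refine tendsto_nhds_unique ((hP _ ((IsH.const c).mul hh)).2 w hw) ?_
    exact (((hP h hh).2 w hw).const_mul c).congr fun n => ((hQ n).smul c h hh _ (pn_mem hw)).symm
  · refine tendsto_nhds_unique ((hP _ (IsH.const 1)).2 w hw) ?_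
    exact tendsto_const_nhds.congr fun n => ((hQ n).one _ (pn_mem hw)).symm
  · have h1 : Tendsto (fun n => φ (jn (n + 2) (pn (n + 2) w))) 𝒰 (𝓝 (φ w)) := by
      have h2 : Tendsto (fun n => jn (n + 2) (pn (n + 2) w)) atTop (𝓝 w) :=
        (tendsto_jn_pn w).comp (tendsto_add_atTop_nat 2)
      have h5 : ContinuousAt φ w := hφ.1.continuousOn.continuousAt (isOpen_ball.mem_nhds hw)
      exact (h5.tendsto.comp h2).mono_left h𝒰
    refine tendsto_nhds_unique ((hP _ ((hφ.comp hGd hGm).mul hh)).2 w hw) ?_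
    refine (h1.mul ((hP h hh).2 w hw)).congr fun n => ?_
    have h6 := (hQ n).mod φ h hφ hh _ (pn_mem (n := n + 2) hw)
    rw [Complex.ofReal_one, one_smul] at h6
    exact h6.symm

/-- the projection for each dimension -/
theorem IsProjF.fin {G : E → l2} {P : (E → ℂ) → l2 → ℂ} (hP : IsProjF G P) (n : ℕ) :
    IsProj (fun x => pn n (G x)) 1 fun h w => P h (jn n w) where
  diff h hh := (hP.diff h hh).comp (jn n).differentiable.differentiableOn fun x hx => jn_mem hx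
  norm h hh C hC w hw := hP.norm h hh C hC _ (jn_mem hw)
  add h₁ h₂ hh₁ hh₂ w hw := hP.add h₁ h₂ hh₁ hh₂ _ (jn_mem hw)
  smul c h hh w hw := hP.smul c h hh _ (jn_mem hw)
  one w hw := hP.one _ (jn_mem hw)
  mod φ h hφ hh w hw := by
    rw [Complex.ofReal_one, one_smul]
    have h1 : IsH fun y : l2 => φ (pn n y) :=
      hφ.comp (pn n).differentiable.differentiableOn fun x hx => pn_mem hx
    have h2 := hP.mod _ h h1 hh _ (jn_mem hw)
    rw [pn_jn] at h2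
    exact h2

end Pool.Agent.MPca0fc2.FP
end

section

/-! Campaign FP, row U: the map of the ball of `c₀` into the ball of `ℓ²`. -/

set_option autoImplicit false

open Metric Set Filter Topology
open scoped ZeroAtInfty

namespace Pool.Agent.MPca0fc2.FP

open Pool.Agent.MPca0fc2.PD

variable {F : Type*} [NormedAddCommGroup F] [NormedSpace ℂ F]

/-- the block `t_0 κ Γ(τ t)` -/
noncomputable def blkF {r : ℕ} (Γ : (Fin r → ℂ) → F) (τ κ : ℝ) (t : Fin (r + 1) → ℂ) : F :=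
  (t 0 * (κ : ℂ)) • Γ ((τ : ℂ) • Fin.tail t)

/-- `∑ e_k(s) blk_k(t^(k))` -/
noncomputable def GF {r : ℕ → ℕ} (Γ : ∀ k, (Fin (r k) → ℂ) → F) (τ κ : ℕ → ℝ) (x : c0) : F :=
  ∑' k, stick k (fun i => x (pos (r := r) (Sum.inl i))) •
    blkF (Γ k) (τ k) (κ k) fun l => x (pos (r := r) (Sum.inr ⟨k, l⟩))

section

variable {r : ℕ → ℕ} {Γ : ∀ k, (Fin (r k) → ℂ) → F} {τ κ : ℕ → ℝ}
  (hd : ∀ k, Differentiable ℂ (Γ k)) 
  (hτ : ∀ k, 1 < τ k)
  (hlt : ∀ k, ∀ t ∈ ball (0 : Fin (r k) → ℂ) (τ k), ‖(κ k : ℂ) • Γ k t‖ < 1)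

include hτ hlt in
theorem blkF_lt (k : ℕ) {t : Fin (r k + 1) → ℂ} (ht : ∀ l, ‖t l‖ < 1) :
    ‖blkF (Γ k) (τ k) (κ k) t‖ < 1 := by
  have h1 : (τ k : ℂ) • Fin.tail t ∈ ball (0 : Fin (r k) → ℂ) (τ k) := by
    have hτ0 : 0 < τ k := one_pos.trans (hτ k)
    rw [mem_ball_zero_iff, norm_smul, Complex.norm_real, Real.norm_of_nonneg hτ0.le]
    have h2 : ‖Fin.tail t‖ < 1 := (pi_norm_lt_iff one_pos).2 fun i => ht i.succ
    nlinarith
  have h3 := hlt k _ h1
  rw [blkF, mul_smul, norm_smul]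
  calc ‖t 0‖ * ‖(κ k : ℂ) • Γ k ((τ k : ℂ) • Fin.tail t)‖ ≤ 1 * ‖(κ k : ℂ) • Γ k ((τ k : ℂ) • Fin.tail t)‖ := by
        gcongr
        exact (ht 0).le
    _ < 1 := by rw [one_mul]; exact h3

include hd hτ hlt in
theorem GF_diff [CompleteSpace F] : DifferentiableOn ℂ (GF Γ τ κ) (ball 0 1) := by
  have hco : ∀ i : ℕ, Differentiable ℂ fun x : c0 => x i := coord_diff
  have hq : ∀ ρ : ℝ, 0 < ρ → ρ < 1 → Summable fun k : ℕ => (((1 + ρ) / 2) ^ 2) ^ (k + 1) := by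
    intro ρ h1 h2
    have h3 : ((1 + ρ) / 2) ^ 2 < 1 := by
      have h4 : (1 + ρ) / 2 < 1 := by linarith
      have h5 : 0 ≤ (1 + ρ) / 2 := by linarith
      nlinarith
    exact (summable_nat_add_iff 1).2 (summable_geometric_of_lt_one (by positivity) h3)
  refine differentiableOn_tsum_ball (T := fun k (x : c0) =>
    stick k (fun i => x (pos (r := r) (Sum.inl i))) •
      blkF (Γ k) (τ k) (κ k) fun l => x (pos (r := r) (Sum.inr ⟨k, l⟩))) (fun k => ?_) hq ?_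
  · refine Differentiable.differentiableOn ?_
    have hs1 : Differentiable ℂ fun x : c0 => stick k (fun i => x (pos (r := r) (Sum.inl i))) := by
      unfold stick
      have h0 : Differentiable ℂ fun x : c0 => ((1 + x (pos (r := r) (Sum.inl k))) / 2) ^ 2 := by
        have h5 : Differentiable ℂ fun x : c0 => (1 + x (pos (r := r) (Sum.inl k))) / 2 := by
          simp only [div_eq_mul_inv]
          exact ((hco _).const_add (1 : ℂ)).mul_const _
        exact h5.pow 2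
      have h1 : ∀ i ∈ Finset.range k, Differentiable ℂ fun x : c0 =>
          ((1 - x (pos (r := r) (Sum.inl i))) / 2) ^ 2 := fun i _ => by
        have h5 : Differentiable ℂ fun x : c0 => (1 - x (pos (r := r) (Sum.inl i))) / 2 := by
          simp only [div_eq_mul_inv]
          exact ((hco _).const_sub (1 : ℂ)).mul_const _
        exact h5.pow 2
      have h2 : Differentiable ℂ fun x : c0 =>
          ∏ i ∈ Finset.range k, ((1 - x (pos (r := r) (Sum.inl i))) / 2) ^ 2 := by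
        have h6 : ∀ F : Finset ℕ, F ⊆ Finset.range k → Differentiable ℂ fun x : c0 =>
            ∏ i ∈ F, ((1 - x (pos (r := r) (Sum.inl i))) / 2) ^ 2 := by
          intro F
          induction F using Finset.induction_on with
          | empty => intro _; simp
          | insert a F ha ih =>
            intro hF
            simp only [Finset.prod_insert ha]
            exact (h1 a (hF (Finset.mem_insert_self a F))).mul
              (ih fun i hi => hF (Finset.mem_insert_of_mem hi))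
        exact h6 _ (Finset.Subset.refl _)
      exact h0.mul h2
    have hs2 : Differentiable ℂ fun x : c0 =>
        blkF (Γ k) (τ k) (κ k) fun l => x (pos (r := r) (Sum.inr ⟨k, l⟩)) := by
      unfold blkF
      have h2 : Differentiable ℂ fun x : c0 =>
          (Fin.tail fun l => x (pos (r := r) (Sum.inr ⟨k, l⟩)) : Fin (r k) → ℂ) :=
        differentiable_pi.2 fun l => hco _
      exact ((hco _).mul_const _).smul ((hd k).comp (h2.const_smul (τ k : ℂ)))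
    exact hs1.smul hs2
  · intro ρ h1 h2 k x hx
    rw [mem_ball_zero_iff] at hx
    have hx1 : ∀ i : ℕ, ‖x i‖ ≤ ρ := fun i => (coord_le x i).trans hx.le
    rw [norm_smul]
    have h3 := stick_le (s := fun i => x (pos (r := r) (Sum.inl i))) (fun i => hx1 _) k
    have h4 := blkF_lt hτ hlt k (t := fun l => x (pos (r := r) (Sum.inr ⟨k, l⟩)))
      (fun l => (hx1 _).trans_lt h2)
    calc _ ≤ (((1 + ρ) / 2) ^ 2) ^ (k + 1) * 1 := by gcongr
      _ = _ := mul_one _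

include hτ hlt in
theorem GF_mem {x : c0} (hx : x ∈ ball 0 1) : GF Γ τ κ x ∈ ball 0 1 := by
  rw [mem_ball_zero_iff] at hx ⊢
  have hx1 : ∀ i : ℕ, ‖x i‖ < 1 := fun i => (coord_le x i).trans_lt hx
  exact (stick_ball (fun i => (hx1 _).le)
    (v := fun k => blkF (Γ k) (τ k) (κ k) fun l => x (pos (r := r) (Sum.inr ⟨k, l⟩)))
    (fun k => blkF_lt hτ hlt k fun l => hx1 _)).2

end

theorem GF_iot {r : ℕ → ℕ} (Γ : ∀ k, (Fin (r k) → ℂ) → F) (τ κ : ℕ → ℝ) (k : ℕ) (c : ℂ)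
    (u : Fin (r k) → ℂ) :
    GF Γ τ κ (iot (r := r) k c u) = ((cc k : ℂ) * (c * κ k)) • Γ k ((τ k : ℂ) • u) := by
  unfold GF
  simp only [iot_inl, iot_inr]
  rw [tsum_eq_single k]
  · have h1 : (fun l => bvec (r := r) k c u k l) = Fin.cons c u := bvec_self k c u
    have h2 : (fun i => sk k i) = sk k := rfl
    rw [h1, h2, stick_sk, blkF, Fin.cons_zero, Fin.tail_cons, smul_smul]
  · intro k' hk'
    have h1 : (fun l => bvec (r := r) k c u k' l) = 0 := bvec_ne hk' c u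
    rw [h1, blkF]
    simp


theorem exists_tauF {ρ : ℝ} (hρ : 0 < ρ) (hρ1 : ρ < 1) {r : ℕ} {Γ : (Fin r → ℂ) → F}
    (hd : Differentiable ℂ Γ) (hle : ∀ t, (∀ i, ‖t i‖ ≤ 1) → ‖Γ t‖ ≤ 1) :
    ∃ τ : ℝ, 1 < τ ∧ ∀ t ∈ ball (0 : Fin r → ℂ) τ, ‖(ρ : ℂ) • Γ t‖ < 1 := by
  have hU : IsOpen {t : Fin r → ℂ | ‖(ρ : ℂ) • Γ t‖ < 1} :=
    isOpen_lt (hd.continuous.const_smul (ρ : ℂ)).norm continuous_const
  have hK : closedBall (0 : Fin r → ℂ) 1 ⊆ {t : Fin r → ℂ | ‖(ρ : ℂ) • Γ t‖ < 1} := by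
    intro t ht
    have h1 : ‖Γ t‖ ≤ 1 := hle t fun i => (norm_le_pi_norm t i).trans (mem_closedBall_zero_iff.1 ht)
    show ‖(ρ : ℂ) • Γ t‖ < 1
    rw [norm_smul, Complex.norm_real, Real.norm_of_nonneg hρ.le]
    nlinarith [norm_nonneg (Γ t)]
  obtain ⟨δ, hδ, hδ2⟩ := (isCompact_closedBall (0 : Fin r → ℂ) 1).exists_thickening_subset_open hU hK
  refine ⟨δ + 1, by linarith, fun t ht => ?_⟩
  rw [thickening_closedBall hδ zero_le_one] at hδ2
  exact hδ2 ht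

/-- the slice of the map for one block -/
def Slice (G : c0 → F) (ρ : ℝ) (p : Σ r : ℕ, (Fin r → ℂ) → F) : Prop :=
  ∃ (τ : ℝ) (i : (Fin p.1 → ℂ) → c0), 1 < τ ∧ DifferentiableOn ℂ i (ball 0 τ) ∧
    (∀ t ∈ ball (0 : Fin p.1 → ℂ) τ, i t ∈ ball (0 : c0) 1) ∧
    ∀ t ∈ ball (0 : Fin p.1 → ℂ) τ, G (i t) = (ρ : ℂ) • p.2 t

/-- **The map**, for a sequence of blocks with values in a Banach space. -/
theorem exists_mapF [CompleteSpace F] (D : ℕ → Σ r : ℕ, (Fin r → ℂ) → F)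
    (hd : ∀ b, Differentiable ℂ (D b).2) (hle : ∀ b t, (∀ i, ‖t i‖ ≤ 1) → ‖(D b).2 t‖ ≤ 1) :
    ∃ G : c0 → F, DifferentiableOn ℂ G (ball 0 1) ∧ (∀ x ∈ ball (0 : c0) 1, G x ∈ ball (0 : F) 1) ∧
      ∀ ρ, 0 < ρ → ρ < 1 → ∀ᶠ b in atTop, Slice G ρ (D b) := by
  let r : ℕ → ℕ := fun b => (D b).1
  let Γ : ∀ b, (Fin (r b) → ℂ) → F := fun b => (D b).2
  let κ : ℕ → ℝ := fun k => 1 - 1 / ((k : ℝ) + 2)
  have hκ : ∀ k, 0 < κ k ∧ κ k < 1 := by
    intro k
    have h1 : (0 : ℝ) < (k : ℝ) + 2 := by positivity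
    have h2 : 1 / ((k : ℝ) + 2) < 1 := by
      rw [div_lt_one h1]
      have : (0 : ℝ) ≤ k := Nat.cast_nonneg k
      linarith
    have h3 : 0 < 1 / ((k : ℝ) + 2) := by positivity
    exact ⟨by simp only [κ]; linarith, by simp only [κ]; linarith⟩
  have hκt : Tendsto κ atTop (𝓝 1) := by
    have h1 : Tendsto (fun k : ℕ => ((k : ℝ) + 2)) atTop atTop :=
      tendsto_atTop_add_const_right _ _ tendsto_natCast_atTop_atTop
    have h2 : Tendsto (fun k : ℕ => 1 / ((k : ℝ) + 2)) atTop (𝓝 0) :=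
      tendsto_const_nhds.div_atTop h1
    have h3 := h2.const_sub 1
    rwa [sub_zero] at h3
  have hex : ∀ k, ∃ τ : ℝ, 1 < τ ∧ ∀ t ∈ ball (0 : Fin (r k) → ℂ) τ, ‖(κ k : ℂ) • Γ k t‖ < 1 :=
    fun k => exists_tauF (hκ k).1 (hκ k).2 (hd k) (hle k)
  choose τ hτ1 hτ2 using hex
  refine ⟨GF Γ τ κ, GF_diff hd hτ1 hτ2, fun x hx => GF_mem hτ1 hτ2 hx, fun ρ hρ hρ1 => ?_⟩
  have h1 := cc_tendsto.mul hκt
  rw [mul_one] at h1
  filter_upwards [h1.eventually (Ioi_mem_nhds hρ1)] with k hρk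
  replace hρk : ρ < cc k * κ k := hρk
  have hck := cc_mem k
  have hpos : 0 < cc k * κ k := mul_pos hck.1 (hκ k).1
  have hτ0 : 0 < τ k := one_pos.trans (hτ1 k)
  refine ⟨τ k, fun t => iot (r := r) k ((ρ / (cc k * κ k) : ℝ) : ℂ) (((τ k)⁻¹ : ℝ) • t), hτ1 k,
    ?_, fun t ht => ?_, fun t ht => ?_⟩
  · have h1 := iot_diff (r := r) k ((ρ / (cc k * κ k) : ℝ) : ℂ) (((τ k)⁻¹ : ℝ) : ℂ) (ball 0 (τ k))
    refine h1.congr fun t _ => ?_
    rw [Complex.coe_smul]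
  · rw [mem_ball_zero_iff] at ht ⊢
    have hq : ρ / (cc k * κ k) < 1 := (div_lt_one hpos).2 hρk
    have ht1 : ‖t‖ / τ k < 1 := (div_lt_one hτ0).2 ht
    have h2 : ‖iot (r := r) k ((ρ / (cc k * κ k) : ℝ) : ℂ) (((τ k)⁻¹ : ℝ) • t)‖ ≤
        max (bk k) (max (ρ / (cc k * κ k)) (‖t‖ / τ k)) := by
      refine iot_norm (le_max_left _ _) ?_ fun l => ?_
      · rw [Complex.norm_real, Real.norm_of_nonneg (by positivity)]
        exact (le_max_left _ _).trans (le_max_right _ _)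
      · rw [Pi.smul_apply, norm_smul, Real.norm_of_nonneg (by positivity)]
        refine le_trans ?_ ((le_max_right _ _).trans (le_max_right _ _))
        rw [div_eq_inv_mul]
        exact mul_le_mul_of_nonneg_left (norm_le_pi_norm t l) (by positivity)
    exact h2.trans_lt (max_lt (bk_mem k).2 (max_lt hq ht1))
  · show GF Γ τ κ (iot (r := r) k ((ρ / (cc k * κ k) : ℝ) : ℂ) (((τ k)⁻¹ : ℝ) • t)) = _
    rw [GF_iot]
    have h3 : (τ k : ℂ) • (((τ k)⁻¹ : ℝ) • t) = t := by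
      rw [Complex.coe_smul, smul_smul, mul_inv_cancel₀ hτ0.ne', one_smul]
    have h4 : (cc k : ℂ) * (((ρ / (cc k * κ k) : ℝ) : ℂ) * κ k) = (ρ : ℂ) := by
      rw [← Complex.ofReal_mul, ← Complex.ofReal_mul]
      congr 1
      have h5 : cc k ≠ 0 := hck.1.ne'
      have h6 : κ k ≠ 0 := (hκ k).1.ne'
      field_simp
    rw [h3, h4]

/-- **The map into the ball of `ℓ²`.** -/
theorem exists_map_l2 : ∃ G : c0 → l2, DifferentiableOn ℂ G (ball 0 1) ∧
    (∀ x ∈ ball (0 : c0) 1, G x ∈ ball (0 : l2) 1) ∧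
    ∀ n, 2 ≤ n → ∀ ρ, 0 < ρ → ρ < 1 → HasSlicesJ (jn n) G ρ := by
  have hex : ∀ n : ℕ, ∃ (R : ℕ → ℕ) (Γ : ∀ k, (Fin (R k) → ℂ) → En (n + 2)), GoodU (n + 2) R Γ := by
    intro n
    obtain ⟨R, Γ, h, -⟩ := exists_goodU (n := n + 2) (Nat.le_add_left 2 n)
    exact ⟨R, Γ, h⟩
  choose R Γ hΓ using hex
  let D₀ : ℕ × ℕ → Σ r : ℕ, (Fin r → ℂ) → l2 := fun p => ⟨R p.1 p.2, fun t => jn (p.1 + 2) (Γ p.1 p.2 t)⟩
  obtain ⟨G, hGd, hGm, hG⟩ := exists_mapF (F := l2) (fun b => D₀ (Nat.unpair b))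
    (fun b => (jn _).differentiable.comp ((hΓ _).diff _)) (fun b t ht => by
      show ‖jn _ (Γ _ _ t)‖ ≤ 1
      rw [norm_jn]
      exact (hΓ _).le _ t ht)
  refine ⟨G, hGd, hGm, fun n hn ρ hρ hρ1 => ?_⟩
  obtain ⟨n, rfl⟩ : ∃ n', n = n' + 2 := ⟨n - 2, by omega⟩
  have ht : Tendsto (fun k => Nat.pair n k) atTop atTop :=
    tendsto_atTop_mono (fun k => Nat.right_le_pair n k) tendsto_id
  obtain ⟨k₀, hk₀⟩ := eventually_atTop.1 (ht.eventually (hG ρ hρ hρ1))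
  have hS : ∀ m, Slice G ρ (D₀ (n, m + k₀)) := by
    intro m
    have h1 := hk₀ (m + k₀) (Nat.le_add_left k₀ m)
    rwa [Nat.unpair_pair] at h1
  choose τ i hτ hid him hiG using hS
  exact ⟨fun m => R n (m + k₀), fun m => Γ n (m + k₀), τ, i,
    (hΓ n).comp (tendsto_add_atTop_nat k₀), hτ, hid, him, fun m t ht => by
      rw [hiG m t ht, map_smul]⟩

end Pool.Agent.MPca0fc2.FP
end

section

/-! Campaign FP, row U: solutions on the unit balls of `ℂⁿ`, with the same bound, give a solution on the unit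
ball of `ℓ²`. -/

set_option autoImplicit false

open Metric Set Filter Topology

namespace Pool.Agent.MPca0fc2.FP

open Pool.Agent.MPca0fc2.PD

theorem sol_of_balls {N : ℕ} {f : Fin N → l2 → ℂ} {g : l2 → ℂ} {A : ℝ} (hA : 0 ≤ A)
    (hf : ∀ j, ContinuousOn (f j) (ball 0 1)) (hg : ContinuousOn g (ball 0 1))
    (H : ∀ n, 2 ≤ n → ∃ h : Fin N → En n → ℂ, (∀ j, DifferentiableOn ℂ (h j) (ball 0 1)) ∧
      ∀ x ∈ ball (0 : En n) 1, ∑ j, f j (jn n x) * h j x = g (jn n x) ∧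
        ∑ j, ‖h j x‖ ^ 2 ≤ A ^ 2) :
    ∃ h : Fin N → l2 → ℂ, (∀ j, DifferentiableOn ℂ (h j) (ball 0 1)) ∧
      ∀ x ∈ ball (0 : l2) 1, ∑ j, f j x * h j x = g x ∧ ∑ j, ‖h j x‖ ^ 2 ≤ A ^ 2 := by
  have H2 : ∀ n, ∃ h : Fin N → En (n + 2) → ℂ, (∀ j, DifferentiableOn ℂ (h j) (ball 0 1)) ∧
      ∀ x ∈ ball (0 : En (n + 2)) 1, ∑ j, f j (jn (n + 2) x) * h j x = g (jn (n + 2) x) ∧
        ∑ j, ‖h j x‖ ^ 2 ≤ A ^ 2 := fun n => H (n + 2) (Nat.le_add_left 2 n)
  choose h hh hsol using H2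
  obtain ⟨𝒰, h𝒰⟩ : ∃ 𝒰 : Ultrafilter ℕ, (𝒰 : Filter ℕ) ≤ atTop :=
    ⟨Ultrafilter.of atTop, Ultrafilter.of_le _⟩
  have hcb : ∀ m j x, x ∈ ball (0 : l2) 1 → ‖h m j (pn (m + 2) x)‖ ≤ A := by
    intro m j x hx
    have h1 : ‖h m j (pn (m + 2) x)‖ ^ 2 ≤ A ^ 2 := (Finset.single_le_sum
      (f := fun j => ‖h m j (pn (m + 2) x)‖ ^ 2) (fun _ _ => sq_nonneg _)
      (Finset.mem_univ j)).trans (hsol m _ (pn_mem hx)).2
    exact (sq_le_sq₀ (norm_nonneg _) hA).mp h1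
  have hlim := fun j => Pool.Agent.MPca0fc2.DS.ultra_holo_banach 𝒰
    (G := fun m (x : l2) => h m j (pn (m + 2) x)) (M := A)
    (fun m => (hh m j).comp (pn (m + 2)).differentiable.differentiableOn fun x hx => pn_mem hx)
    (fun m x hx => hcb m j x hx)
  choose k hk _ hklim using hlim
  refine ⟨k, hk, fun x hx => ⟨?_, ?_⟩⟩
  · have hsec : Tendsto (fun n => jn (n + 2) (pn (n + 2) x)) 𝒰 (𝓝 x) :=
      ((tendsto_jn_pn x).comp (tendsto_add_atTop_nat 2)).mono_left h𝒰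
    have h1 : ∀ F : l2 → ℂ, ContinuousOn F (ball 0 1) →
        Tendsto (fun n => F (jn (n + 2) (pn (n + 2) x))) 𝒰 (𝓝 (F x)) := fun F hF =>
      (hF.continuousAt (isOpen_ball.mem_nhds hx)).tendsto.comp hsec
    have h2 : Tendsto (fun m => ∑ j, f j (jn (m + 2) (pn (m + 2) x)) * h m j (pn (m + 2) x)) 𝒰
        (𝓝 (∑ j, f j x * k j x)) :=
      tendsto_finsetSum _ fun j _ => (h1 (f j) (hf j)).mul (hklim j x hx)
    refine tendsto_nhds_unique h2 ((h1 g hg).congr fun m => ?_)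
    exact ((hsol m _ (pn_mem hx)).1).symm
  · have h3 : Tendsto (fun m => ∑ j, ‖h m j (pn (m + 2) x)‖ ^ 2) 𝒰 (𝓝 (∑ j, ‖k j x‖ ^ 2)) :=
      tendsto_finsetSum _ fun j _ => (hklim j x hx).norm.pow 2
    exact le_of_tendsto h3 (Eventually.of_forall fun m => (hsol m _ (pn_mem hx)).2)

end Pool.Agent.MPca0fc2.FP
end
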