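import Pool.Agent.Lib.MP_ca0fc2_an.Mg.G040
import Pool.Agent.Lib.MP_ca0fc2_an.GW.N4
import Pool.Agent.Lib.MP_ca0fc2_an.Mg.G060
import Pool.Agent.Lib.MP_ca0fc2_an.GW.R12
import Pool.Agent.Lib.MP_ca0fc2_an.Mg.G058

section

/-! The corona theorem for data which are near the analytic closure on each cell. -/

set_option autoImplicit false

open Metric Set MeasureTheory Filter Topology

namespace Pool.Agent.MPca0fc2.IND

open Pool.Agent.Lib.MP_ca0fc2_an
open Pool.Agent.MPca0fc2.CXS (LocOn)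

variable {n : ℕ} {Δ : Set (EuclideanSpace ℂ (Fin n))}

/-- PROOF. `G` is in its own hull: for `ε > 0` take the single function `u 0 = g` and `ρ = ε / 2`. -/
theorem sub_hull {A : Set (EuclideanSpace ℂ (Fin n) → ℂ)} (hAH : ∀ a ∈ A, IsHinf Δ a) :
    A ⊆ HullOn Δ A := by
  intro g hg
  refine ⟨hAH g hg, fun ε hε => ⟨1, fun _ => g, ε / 2, half_pos hε, fun _ => hg,
    fun c x z hz w hw => ?_⟩⟩
  have h1 := (connectedComponentIn_subset _ _ hz).2 0
  have h2 := (connectedComponentIn_subset _ _ hw).2 0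
  calc ‖g z - g w‖ = ‖(g z - c 0) - (g w - c 0)‖ := by congr 1; ring
    _ ≤ ‖g z - c 0‖ + ‖g w - c 0‖ := norm_sub_le _ _
    _ ≤ ε := by linarith

/-- The corona theorem for data which are near the analytic closure of the hull and one arbitrary function on each cell; the function may depend on the cell.
PROOF. `A' = HullOn Δ A`; `LocOn Δ A'` (`CXS.locOn_hull`), the functions of `A'` are in `H^∞(Δ)`. By `unimod_of_chars` it is enough to show that for each character `Φ` of `H^∞(Δ)` some `Φ (f j)` is not `0`. Suppose that `Φ (f j) = 0` for all `j`. `ext_of_loc`: `Ext Δ A' Φ`. Let `c i = Φ (a i)`, `Δ₁ = cellOn Δ a c s`, `F`, `η`, `q` as in `hc`; `exists_ext`: `Φ₁` with `Φ₁ (f j) = 0`.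
The functions of `A'` are in `H^∞(Δ₁)`. `q j ∈ AnalyticClosureOn Δ₁ (HullOn Δ₁ A ∪ {F}) ⊆ AnalyticClosureOn Δ₁ (HullOn Δ₁ A' ∪ {F})` (`FD.hullOn_mono`, `FD.analyticClosureOn_mono` in `FD/L3.lean`, `sub_hull`). So `q j` is in the class (`inT_closureE`) and there is `z ∈ Δ₁` with `‖q j z - Φ₁ (q j)‖ < ε` for all `j` (`cluster_E`). The rest as in the proof of `q1_closure` (`INDom.lean`). -/
theorem q1_cells (hΔ : IsOpen Δ) {A : Set (EuclideanSpace ℂ (Fin n) → ℂ)} (hA : LocOn Δ A)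
    (hAH : ∀ a ∈ A, IsHinf Δ a) {N : ℕ} {f : Fin N → EuclideanSpace ℂ (Fin n) → ℂ} {δ : ℝ}
    (hf : ∀ j, IsHinf Δ (f j)) (hδ : ∀ z ∈ Δ, δ ≤ ∑ j, ‖f j z‖ ^ 2) {k : ℕ}
    {a : Fin k → EuclideanSpace ℂ (Fin n) → ℂ} (ha : ∀ i, a i ∈ HullOn Δ A) {s : ℝ} (hs : 0 < s)
    (hc : ∀ c : Fin k → ℂ, ∃ F : EuclideanSpace ℂ (Fin n) → ℂ, IsHinf (cellOn Δ a c s) F ∧
      ∃ (η : ℝ) (q : Fin N → EuclideanSpace ℂ (Fin n) → ℂ), 4 * N * η ^ 2 < δ ∧
        (∀ j, q j ∈ AnalyticClosureOn (cellOn Δ a c s) (HullOn (cellOn Δ a c s) A ∪ {F})) ∧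
        ∀ j, ∀ z ∈ cellOn Δ a c s, ‖f j z - q j z‖ ≤ η) :
    ∃ C : ℝ, SolvableOn f Δ C := by
  classical
  have hA' : LocOn Δ (HullOn Δ A) := CXS.locOn_hull hΔ (fun u hu => (hAH u hu).1) hA
  have hAH' : ∀ b ∈ HullOn Δ A, IsHinf Δ b := fun b hb => hb.1
  refine unimod_of_chars hΔ (fun j => bh_of_hinf (hf j)) (fun Φ => ?_)
  by_contra hcon
  push Not at hcon
  have hE : Ext Δ (HullOn Δ A) Φ := ext_of_loc hA' hAH' Φ
  obtain ⟨F, hF, η, q, hη, hq, hfq⟩ := hc (fun i => Φ.φ (cf (a i)))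
  obtain ⟨Φ₁, hE₁, hΦ₁⟩ := exists_ext hΔ hAH' hE ha hs
  have hsub : cellOn Δ a (fun i => Φ.φ (cf (a i))) s ⊆ Δ := fun z hz => hz.1
  have hopen : IsOpen (cellOn Δ a (fun i => Φ.φ (cf (a i))) s) :=
    CXS.isOpen_cellOn hΔ (fun i => (hAH' _ (ha i)).1) _ _
  generalize cellOn Δ a (fun i => Φ.φ (cf (a i))) s = Δ₁ at *
  have hAH1 : ∀ b ∈ HullOn Δ A, IsHinf Δ₁ b := fun b hb => FD.isHinf_mono hsub (hAH' b hb)
  have hq' : ∀ j, q j ∈ AnalyticClosureOn Δ₁ (HullOn Δ₁ (HullOn Δ A) ∪ {F}) := fun j =>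
    FD.analyticClosureOn_mono (subset_refl _) (union_subset_union_left _ (fun u hu =>
      FD.hullOn_mono (subset_refl _) (sub_hull hAH) hu)) (hq j)
  have hqB : ∀ j, BH Δ₁ (cf (q j)) := fun j => bh_closure (by
    rintro x (hx | hx)
    · exact bh_of_hinf hx.1
    · rw [mem_singleton_iff] at hx
      subst hx
      exact bh_of_hinf hF) _ (hq j)
  have hfB : ∀ j, BH Δ₁ (cf (f j)) := fun j => bh_of_hinf (FD.isHinf_mono hsub (hf j))
  -- a small number
  obtain ⟨ε, hε0, hε⟩ : ∃ ε : ℝ, 0 < ε ∧ N * (2 * η + ε) ^ 2 < δ := by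
    have h1 : Filter.Tendsto (fun ε : ℝ => N * (2 * η + ε) ^ 2) (𝓝[>] 0)
        (𝓝 (N * (2 * η + 0) ^ 2)) := by
      refine (Continuous.tendsto' (by fun_prop) _ _ rfl).mono_left nhdsWithin_le_nhds
    have h2 : N * (2 * η + 0) ^ 2 < δ := by
      have : N * (2 * η + 0) ^ 2 = 4 * N * η ^ 2 := by ring
      rw [this]; exact hη
    obtain ⟨ε, h3, h4⟩ := ((h1.eventually_lt_const h2).and self_mem_nhdsWithin).exists
    exact ⟨ε, h4, h3⟩
  obtain ⟨z, hz, hz1⟩ := cluster_E hAH1 hF hE₁ q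
    (fun j => inT_closureE hopen hAH1 hF hE₁ _ (hq' j)) hε0
  have h3 : ∀ j, ‖f j z‖ ≤ 2 * η + ε := by
    intro j
    have hη0 : 0 ≤ η := (norm_nonneg _).trans (hfq j z hz)
    have hcon1 : Φ₁.φ (cf (f j)) = 0 := by
      rw [hΦ₁ _ (bh_of_hinf (hf j))]
      exact hcon j
    have h4 : ‖Φ₁.φ (cf (q j))‖ ≤ η := by
      have h5 : Φ₁.φ (cf (q j)) = -(Φ₁.φ (fun t z => cf (f j) t z - cf (q j) t z)) := by
        rw [Char.map_sub Φ₁ (hfB j) (hqB j), hcon1]
        ring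
      rw [h5, norm_neg]
      exact Φ₁.bound ((hfB j).sub (hqB j)) hη0 fun _ z hz => hfq j z hz
    have h6 := (hz1 j).le
    have h7 := hfq j z hz
    calc ‖f j z‖ = ‖(f j z - q j z) + (q j z - Φ₁.φ (cf (q j))) + Φ₁.φ (cf (q j))‖ := by
          congr 1; ring
      _ ≤ ‖f j z - q j z‖ + ‖q j z - Φ₁.φ (cf (q j))‖ + ‖Φ₁.φ (cf (q j))‖ := norm_add₃_le
      _ ≤ 2 * η + ε := by linarith
  have h4 : ∑ j, ‖f j z‖ ^ 2 ≤ ∑ _j : Fin N, (2 * η + ε) ^ 2 :=
    Finset.sum_le_sum fun j _ => pow_le_pow_left₀ (norm_nonneg _) (h3 j) 2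
  rw [Finset.sum_const, Finset.card_univ, Fintype.card_fin, nsmul_eq_mul] at h4
  have h5 := hδ z (hsub hz)
  linarith

end Pool.Agent.MPca0fc2.IND
end

section

/-! Pull-back of the relative corona theorem by a holomorphic function. -/

set_option autoImplicit false

open Metric Set MeasureTheory Filter Topology

namespace Pool.Agent.MPca0fc2.RC

open Pool.Agent.Lib.MP_ca0fc2_an

variable {n : ℕ}

/-- PROOF. Let `C` be the constant of `rc_smooth` for `N`, `|M|`, `δ / 2`. For `0 < r < 1` let `K_r = {z ∈ K : ‖π z‖ < r}` and `G_j x = g j (r x)`, holomorphic on the ball of radius `1 / r > 1`, `‖G_j‖ ≤ M` on the closed unit ball. For `z ∈ K_r`, `x = π z / r ∈ ball 0 1`: `∑ ‖G_j x‖² = ∑ ‖g j (π z)‖² ≥ δ > δ / 2`. With the `h_j` of `rc_smooth`: `z ↦ h_j (π z / r)` solves the equation on `K_r`: `SolvableOn _ K_r C` (composition of holomorphic functions; `K_r` is open).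
Take `r = 1 - 1 / (i + 2)`; each point `z` of `K` has a ball which is contained in `K_r` for large `i` (`K` open, `π` continuous, `‖π z‖ < 1`); `FD.solv_exhaust` (`FD/T2.lean`). -/
theorem rc_pull {K : Set (EuclideanSpace ℂ (Fin n))} (hK : IsOpen K)
    {π : EuclideanSpace ℂ (Fin n) → ℂ} (hπ : DifferentiableOn ℂ π K) (hπ1 : ∀ z ∈ K, ‖π z‖ < 1)
    {N : ℕ} {g : Fin N → ℂ → ℂ} (hg : ∀ j, DifferentiableOn ℂ (g j) (ball 0 1)) {M : ℝ}
    (hM : ∀ j, ∀ x ∈ ball (0 : ℂ) 1, ‖g j x‖ ≤ M) {δ : ℝ} (hδ : 0 < δ)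
    (h : ∀ z ∈ K, δ ≤ ∑ j, ‖g j (π z)‖ ^ 2) : ∃ C : ℝ, SolvableOn (fun j z => g j (π z)) K C := by
  classical
  obtain ⟨C, hC⟩ := rc_smooth N M (δ / 2) (half_pos hδ)
  have hr0 : ∀ i : ℕ, 0 < 1 - 1 / ((i : ℝ) + 2) := by
    intro i
    have h1 : (0 : ℝ) ≤ i := Nat.cast_nonneg i
    rw [sub_pos, div_lt_one (by linarith)]
    linarith
  have hr1 : ∀ i : ℕ, 1 - 1 / ((i : ℝ) + 2) < 1 := by
    intro i
    have h1 : (0 : ℝ) ≤ i := Nat.cast_nonneg i
    have h2 : 0 < 1 / ((i : ℝ) + 2) := by positivity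
    linarith
  refine ⟨C, FD.solv_exhaust (E := fun i : ℕ => {z | z ∈ K ∧ ‖π z‖ < 1 - 1 / ((i : ℝ) + 2)}) ?_ ?_⟩
  · intro i
    have hr0i := hr0 i
    have hr1i := hr1 i
    generalize 1 - 1 / ((i : ℝ) + 2) = r at hr0i hr1i
    have hrc : (r : ℂ) ≠ 0 := by
      exact_mod_cast hr0i.ne'
    have hnr : ‖(r : ℂ)‖ = r := by
      rw [Complex.norm_real, Real.norm_of_nonneg hr0i.le]
    have hsmul : ∀ x : ℂ, ‖(r : ℂ) * x‖ = r * ‖x‖ := fun x => by rw [norm_mul, hnr]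
    obtain ⟨u, hu1, hu2, hu3⟩ := hC (1 / r) (fun j x => g j ((r : ℂ) * x))
      (by rw [lt_div_iff₀ hr0i]; linarith)
      (fun j => (hg j).comp (differentiableOn_id.const_mul _) (fun x hx => by
        rw [mem_ball_zero_iff, lt_div_iff₀ hr0i] at hx
        rw [mem_ball_zero_iff]
        change ‖(r : ℂ) * x‖ < 1
        rw [hsmul]
        linarith [mul_comm r ‖x‖]))
      (fun j x hx => hM j _ (by
        rw [mem_closedBall_zero_iff] at hx
        rw [mem_ball_zero_iff, hsmul]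
        have h1 : r * ‖x‖ ≤ r * 1 := mul_le_mul_of_nonneg_left hx hr0i.le
        linarith))
    have hback : ∀ z : EuclideanSpace ℂ (Fin n), (r : ℂ) * (π z / r) = π z := fun z =>
      mul_div_cancel₀ _ hrc
    have hin : ∀ z, z ∈ K → ‖π z‖ < r → π z / r ∈ ball (0 : ℂ) 1 := by
      intro z _ hz
      rw [mem_ball_zero_iff, norm_div, hnr, div_lt_one hr0i]
      exact hz
    have hsum : ∀ z, z ∈ K → δ / 2 < ∑ j, ‖g j ((r : ℂ) * (π z / r))‖ ^ 2 := by
      intro z hz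
      rw [hback]
      linarith [h z hz]
    refine ⟨fun j z => u j (π z / r), fun j => ?_, fun j z hz => ?_, fun z hz => ?_⟩
    · have hπ' : DifferentiableOn ℂ (fun z => π z / (r : ℂ)) {z | z ∈ K ∧ ‖π z‖ < r} := by
        have h1 : DifferentiableOn ℂ π {z | z ∈ K ∧ ‖π z‖ < r} := hπ.mono fun z hz => hz.1
        simpa only [div_eq_mul_inv] using h1.mul_const ((r : ℂ)⁻¹)
      refine (hu1 j).comp hπ' (fun z hz => ?_)
      exact ⟨hin z hz.1 hz.2, hsum z hz.1⟩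
    · exact hu2 j _ (hin z hz.1 hz.2) (hsum z hz.1)
    · have h1 := hu3 _ (hin z hz.1 hz.2) (hsum z hz.1)
      simpa only [hback] using h1
  · intro z hz
    have hlt := hπ1 z hz
    obtain ⟨s, hs1, hs2⟩ := exists_between hlt
    have hcont : ContinuousAt (fun w => ‖π w‖) z :=
      ((hπ z hz).differentiableAt (hK.mem_nhds hz)).continuousAt.norm
    have hev : ∀ᶠ w in 𝓝 z, w ∈ K ∧ ‖π w‖ < s :=
      Filter.Eventually.and (hK.mem_nhds hz) (hcont.eventually (gt_mem_nhds hs1))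
    obtain ⟨ρ, hρ, hb⟩ := Metric.eventually_nhds_iff_ball.1 hev
    obtain ⟨i₀, hi₀⟩ := exists_nat_gt (1 / (1 - s))
    refine ⟨ρ, hρ, i₀, fun i hi w hw => ⟨(hb w hw).1, (hb w hw).2.trans_le ?_⟩⟩
    have h1 : (i₀ : ℝ) ≤ i := by exact_mod_cast hi
    have h2 : 1 / (1 - s) < (i : ℝ) + 2 := by linarith
    have h3 : 0 < 1 - s := by linarith
    have h5 : (0 : ℝ) < (i : ℝ) + 2 := lt_trans (by positivity) h2
    have h4 : 1 / ((i : ℝ) + 2) ≤ 1 - s := by
      rw [div_lt_iff₀ h3] at h2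
      rw [div_le_iff₀ h5]
      linarith [mul_comm (1 - s) ((i : ℝ) + 2)]
    linarith

end Pool.Agent.MPca0fc2.RC
end

section

/-! The property `Ext` for the hull. -/

set_option autoImplicit false

open Metric Set MeasureTheory Filter Topology

namespace Pool.Agent.MPca0fc2.IND

open Pool.Agent.Lib.MP_ca0fc2_an
open Pool.Agent.MPca0fc2.CXS (LocOn)

variable {n : ℕ} {Δ : Set (EuclideanSpace ℂ (Fin n))}

/-- PROOF. Let `w j` be killed by `Φ`, `b i ∈ HullOn Δ A`, `i < k`, and suppose that `w` is solvable on the cell `{z ∈ Δ : ‖b i z - Φ (b i)‖ < ε}` with the constant `C`. `CXS.hull_common` (`CXSLoc.lean`) with `ε / 2`: functions `v j ∈ A` and `r > 0` such that all `b i` vary at most by `ε / 2` on the connected components of the cells of `v` of radius `r`. Let `K = {z ∈ Δ : ‖v j z - Φ (v j)‖ < r}`, an open set, and let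
`W = (w, b i - Φ (b i))` (`Fin.append`), which is killed by `Φ`. `W` is solvable on `K`: by `CXS.solv_comps` (`CXSLoc.lean`; or directly: a function which is holomorphic on each connected component of an open set is holomorphic) it is enough to solve on each component `K'` of `K` with the same constant. If some point `x ∈ K'` has `‖b i x - Φ (b i)‖ ≥ ε / 2 + ...`: precisely, if for all `i` and all `x ∈ K'`
`‖b i x - Φ (b i)‖ < ε` then `K'` is contained in the cell and `w` is solvable on it; otherwise `‖b i x - Φ (b i)‖ ≥ ε` for some `i` and `x ∈ K'`, so `‖b i - Φ (b i)‖ ≥ ε / 2` on `K'` and `1 / (b i - Φ (b i))` is a solution with the constant `2 / ε`. So `W` is solvable on `K` with the constant `max |C| (2 / ε)`, which contradicts `Ext Δ A Φ` for the family `W` and the cell of `v`. -/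
theorem ext_hull (hΔ : IsOpen Δ) {A : Set (EuclideanSpace ℂ (Fin n) → ℂ)}
    (hAH : ∀ a ∈ A, IsHinf Δ a) {Φ : Char Δ Unit} (hE : Ext Δ A Φ) : Ext Δ (HullOn Δ A) Φ := by
  classical
  intro N w hBw hΦw k b hb ε hε C hsol
  have haB : ∀ i, BH Δ (cf (b i)) := fun i => bh_of_hinf (hb i).1
  obtain ⟨v, hv⟩ : ∃ v : Fin k → EuclideanSpace ℂ (Fin n) → ℂ,
    v = fun i z => b i z - Φ.φ (cf (b i)) := ⟨_, rfl⟩
  have hvB : ∀ i, BH Δ (cf (v i)) := fun i => by rw [hv]; exact (haB i).sub (BH.const _)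
  have hv0 : ∀ i, Φ.φ (cf (v i)) = 0 := fun i => by
    have h1 := Char.map_sub Φ (haB i) (BH.const (Φ.φ (cf (b i))))
    rw [Φ.map_const, sub_self] at h1
    rw [hv]
    exact h1
  obtain ⟨f, hf⟩ : ∃ f : Fin (k + N) → EuclideanSpace ℂ (Fin n) → ℂ,
    f = Fin.append v w := ⟨_, rfl⟩
  have hfl : ∀ i, f (Fin.castAdd N i) = v i := fun i => by rw [hf, Fin.append_left]
  have hfr : ∀ j, f (Fin.natAdd k j) = w j := fun j => by rw [hf, Fin.append_right]
  have hfB : ∀ j, BH Δ (cf (f j)) := by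
    intro j
    refine Fin.addCases (fun i => ?_) (fun j => ?_) j
    · rw [hfl]; exact hvB i
    · rw [hfr]; exact hBw j
  have hf0 : ∀ j, Φ.φ (cf (f j)) = 0 := by
    intro j
    refine Fin.addCases (fun i => ?_) (fun j => ?_) j
    · rw [hfl]; exact hv0 i
    · rw [hfr]; exact hΦw j
  obtain ⟨m, u, r, hr, huA, hosc⟩ := CXS.hull_common hb (half_pos hε)
  obtain ⟨B, hB⟩ : ∃ B : ℝ, B = (N : ℝ) * |C| + ((1 : ℕ) : ℝ) * |2 / ε| := ⟨_, rfl⟩
  refine hE (k + N) f hfB hf0 m u huA r hr B ?_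
  refine CXS.solv_comps (CXS.isOpen_cellOn hΔ (fun j => (hAH _ (huA j)).1) _ _) fun x hx => ?_
  have hsub : connectedComponentIn (cellOn Δ u (fun i => Φ.φ (cf (u i))) r) x ⊆ Δ :=
    fun z hz => (connectedComponentIn_subset _ _ hz).1
  by_cases hc : ∀ z ∈ connectedComponentIn (cellOn Δ u (fun i => Φ.φ (cf (u i))) r) x,
      ∀ i, ‖b i z - Φ.φ (cf (b i))‖ < ε
  · refine CXS.solv_sub (CXS.solv_map' (f' := f) (Fin.natAdd k)
      (fun j z _ => by rw [hfr]) hsol) (fun z hz => ⟨hsub hz, hc z hz⟩) ?_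
    rw [hB]
    have : 0 ≤ ((1 : ℕ) : ℝ) * |2 / ε| := by positivity
    linarith
  · push Not at hc
    obtain ⟨y, hy, i, hi⟩ := hc
    have hlow : ∀ z ∈ connectedComponentIn (cellOn Δ u (fun i => Φ.φ (cf (u i))) r) x,
        ε / 2 ≤ ‖v i z‖ := by
      intro z hz
      have h3 : b i y - Φ.φ (cf (b i)) = (b i z - Φ.φ (cf (b i))) - (b i z - b i y) := by ring
      rw [h3] at hi
      have h4 := norm_sub_le (b i z - Φ.φ (cf (b i))) (b i z - b i y)
      have h5 := hosc _ x z hz y hy i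
      rw [hv]
      change ε / 2 ≤ ‖b i z - Φ.φ (cf (b i))‖
      linarith
    have hne : ∀ z ∈ connectedComponentIn (cellOn Δ u (fun i => Φ.φ (cf (u i))) r) x,
        v i z ≠ 0 := by
      intro z hz h0
      have := hlow z hz
      rw [h0, norm_zero] at this
      linarith
    have h2 : SolvableOn (fun (_ : Fin 1) => v i)
        (connectedComponentIn (cellOn Δ u (fun i => Φ.φ (cf (u i))) r) x) (2 / ε) := by
      refine ⟨fun _ z => (v i z)⁻¹, fun _ => ?_, fun _ z hz => ?_, fun z hz => ?_⟩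
      · exact (((hvB i).holo ()).mono hsub).fun_inv hne
      · rw [norm_inv, inv_le_comm₀ (norm_pos_iff.mpr (hne z hz)) (by positivity), inv_div]
        exact hlow z hz
      · rw [Fin.sum_univ_one]
        exact mul_inv_cancel₀ (hne z hz)
    refine CXS.solv_sub (CXS.solv_map' (f' := f) (fun _ : Fin 1 => Fin.castAdd N i)
      (fun j z _ => by rw [hfl]) h2) Subset.rfl ?_
    rw [hB]
    have : 0 ≤ (N : ℝ) * |C| := by positivity
    linarith

end Pool.Agent.MPca0fc2.IND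
end
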