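import Pool.Agent.Lib.MP_ca0fc2_an.GW.M1a
import Pool.Agent.Lib.MP_ca0fc2_an.GW.V3
import Pool.Agent.Lib.MP_ca0fc2_an.Mg.G046
import Pool.Agent.Lib.MP_ca0fc2_an.Mg.G051

section

/-! Convexification near a boundary point. -/

set_option autoImplicit false

open Metric Set MeasureTheory Filter Topology

namespace Pool.Agent.MPca0fc2.GW

open Pool.Agent.MPca0fc2.FD
open Pool.Agent.Lib.MP_ca0fc2_an (SupportData)

variable {n : ℕ}

private noncomputable def M1b_Psi (h : Ec n → Ec n → Fin n → ℂ) (p e z : Ec n) : Ec n :=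
  (z - p) - (∑ k, (h p p k - h z p k) * (z k - p k)) • e

private theorem M1b_hol {U : Set (Ec n)} {h : Ec n → Ec n → Fin n → ℂ}
    (hol : ∀ ζ ∈ U, DifferentiableOn ℂ (fun z => h z ζ) U) {p : Ec n} (hp : p ∈ U) (e : Ec n) :
    DifferentiableOn ℂ (M1b_Psi h p e) U := by
  have h1 := hol p hp
  rw [differentiableOn_pi] at h1
  have h2 : ∀ k : Fin n, DifferentiableOn ℂ (fun z : Ec n => z k - p k) U := by
    intro k
    have : Differentiable ℂ (fun z : Ec n => z k - p k) :=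
      ((EuclideanSpace.proj k : Ec n →L[ℂ] ℂ).differentiable).sub_const _
    exact this.differentiableOn
  have h3 : DifferentiableOn ℂ (fun z : Ec n => ∑ k, (h p p k - h z p k) * (z k - p k)) U := by
    refine DifferentiableOn.fun_sum fun k _ => ?_
    exact ((h1 k).const_sub _).mul (h2 k)
  exact (differentiableOn_id.sub_const p).sub (h3.smul_const e)

private theorem M1b_smooth {U : Set (Ec n)} {h : Ec n → Ec n → Fin n → ℂ} (hU : IsOpen U)
    (dh : ContDiffOn ℝ 2 (fun q : Ec n × Ec n => h q.1 q.2) (U ×ˢ U)) {p : Ec n} (hp : p ∈ U)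
    (e : Ec n) : ContDiffAt ℝ 2 (M1b_Psi h p e) p := by
  have h0 : ContDiffAt ℝ 2 (fun q : Ec n × Ec n => h q.1 q.2) (p, p) :=
    dh.contDiffAt ((hU.prod hU).mem_nhds ⟨hp, hp⟩)
  have h01 : ContDiffAt ℝ 2 (fun z : Ec n => (z, p)) p := contDiffAt_id.prodMk contDiffAt_const
  have h1 : ContDiffAt ℝ 2 (fun z : Ec n => h z p) p :=
    ContDiffAt.comp (g := fun q : Ec n × Ec n => h q.1 q.2) (f := fun z : Ec n => (z, p)) p h0 h01
  rw [contDiffAt_pi] at h1
  have h2 : ∀ k : Fin n, ContDiffAt ℝ 2 (fun z : Ec n => z k - p k) p := by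
    intro k
    have : ContDiff ℝ 2 (fun z : Ec n => z k - p k) :=
      (((EuclideanSpace.proj k : Ec n →L[ℂ] ℂ).restrictScalars ℝ).contDiff).sub contDiff_const
    exact this.contDiffAt
  have h3 : ContDiffAt ℝ 2 (fun z : Ec n => ∑ k, (h p p k - h z p k) * (z k - p k)) p := by
    refine ContDiffAt.sum fun k _ => ?_
    exact (contDiffAt_const.sub (h1 k)).mul (h2 k)
  exact (contDiffAt_id.sub contDiffAt_const).sub (h3.smul contDiffAt_const)

private theorem M1b_deriv {U : Set (Ec n)} {h : Ec n → Ec n → Fin n → ℂ} (hU : IsOpen U)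
    (hol : ∀ ζ ∈ U, DifferentiableOn ℂ (fun z => h z ζ) U) {p : Ec n} (hp : p ∈ U) (e : Ec n) :
    HasFDerivAt (M1b_Psi h p e) (ContinuousLinearMap.id ℝ (Ec n)) p := by
  have h1 := hol p hp
  rw [differentiableOn_pi] at h1
  have h3 : HasFDerivAt (fun z : Ec n => ∑ k, (h p p k - h z p k) * (z k - p k))
      (0 : Ec n →L[ℂ] ℂ) p := by
    have h4 : ∀ k ∈ (Finset.univ : Finset (Fin n)),
        HasFDerivAt (fun z : Ec n => (h p p k - h z p k) * (z k - p k)) (0 : Ec n →L[ℂ] ℂ) p := by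
      intro k _
      have a1 : HasFDerivAt (fun z : Ec n => h p p k - h z p k)
          (-(fderiv ℂ (fun z => h z p k) p)) p :=
        (((h1 k).differentiableAt (hU.mem_nhds hp)).hasFDerivAt).const_sub _
      have a2 : HasFDerivAt (fun z : Ec n => z k - p k) (EuclideanSpace.proj k : Ec n →L[ℂ] ℂ) p :=
        ((EuclideanSpace.proj k : Ec n →L[ℂ] ℂ).hasFDerivAt).sub_const _
      have a3 := a1.mul a2
      refine a3.congr_fderiv ?_
      ext v
      simp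
    have h5 := HasFDerivAt.fun_sum h4
    simpa using h5
  have h6 := (((hasFDerivAt_id p).sub_const p).sub (h3.smul_const e)).restrictScalars ℝ
  refine h6.congr_fderiv ?_
  ext v
  simp

private theorem M1b_lin {h : Ec n → Ec n → Fin n → ℂ} {p e : Ec n}
    (he : ∑ k, h p p k * e k = 1) (z : Ec n) :
    ∑ k, h p p k * (M1b_Psi h p e z) k = -∑ k, h z p k * (p k - z k) := by
  have h1 : ∀ k, (M1b_Psi h p e z) k =
      (z k - p k) - (∑ j, (h p p j - h z p j) * (z j - p j)) * e k := by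
    intro k
    simp [M1b_Psi]
  set s := ∑ j, (h p p j - h z p j) * (z j - p j) with hs
  have h2 : ∑ k, h p p k * (M1b_Psi h p e z) k =
      ∑ k, h p p k * (z k - p k) - s * ∑ k, h p p k * e k := by
    rw [Finset.mul_sum, ← Finset.sum_sub_distrib]
    refine Finset.sum_congr rfl fun k _ => ?_
    rw [h1 k]
    ring
  rw [h2, he, mul_one, hs, ← Finset.sum_sub_distrib, ← Finset.sum_neg_distrib]
  refine Finset.sum_congr rfl fun k _ => ?_
  ring

/-- The coordinate change.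
PROOF. Let `e` be a vector with `∑ h p p k * e k = 1` (`h p p ≠ 0`, since `dρ(p) ≠ 0` and `SupportData.grad`), `F z = ∑ h z p k * (p k - z k)` and `Ψ z = (z - p) - (F z + ∑ h p p k * (z k - p k)) • e`, holomorphic on `U`. `Ψ p = 0`, `dΨ(p) = id` (`F z + ∑ h p p k (z k - p k) = ∑ (h p p k - h z p k)(z k - p k)` has the
derivative `0` at `p`), `∑ h p p k * (Ψ z) k = - F z`. The inverse function theorem over `ℂ` (`ContDiffAt.toOpenPartialHomeomorph` or `HasStrictFDerivAt.toOpenPartialHomeomorph`; `Ψ` is of class `C^1` over `ℂ`, being holomorphic in several variables on an open set: `DifferentiableOn.analyticOnNhd` holds in one variable only, see `hol_c2`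
in `V3.lean` and `VPHol.lean`/`QTAge.lean`; `LV/G1.lean` may have what is needed) gives a local inverse `Φ`, holomorphic near `0`, `Φ 0 = p`. On a small ball `‖dΦ - id‖ ≤ 1/2` and `‖dΨ - id‖ ≤ 1/2`, so `L = 2` works for `lip` (for the second inequality use that `Φ` is a perturbation of the identity on the ball). `opn`: `Φ` is an open partial homeomorphism. -/
theorem coord_change {D U : Set (Ec n)} {ρ : Ec n → ℝ} {h : Ec n → Ec n → Fin n → ℂ} {c : ℝ}
    (hs : SupportData D U ρ h c) {p : Ec n} (hp : p ∈ U) (hρp : ρ p = 0) {r : ℝ} (hr : 0 < r) :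
    ∃ (a : ℝ) (Φ : Ec n → Ec n), 0 < a ∧ a ≤ 1 ∧ DifferentiableOn ℂ Φ (ball 0 a) ∧
      (∀ x ∈ ball (0 : Ec n) a, Φ x ∈ ball p r ∧ Φ x ∈ U) ∧ Φ 0 = p ∧
      (∀ x ∈ ball (0 : Ec n) a, ∀ y ∈ ball (0 : Ec n) a,
        ‖Φ x - Φ y‖ ≤ 2 * ‖x - y‖ ∧ ‖x - y‖ ≤ 2 * ‖Φ x - Φ y‖) ∧
      (∀ S : Set (Ec n), IsOpen S → S ⊆ ball 0 a → IsOpen (Φ '' S)) ∧
      (∃ Ψ : Ec n → Ec n, DifferentiableOn ℂ Ψ (Φ '' ball 0 a) ∧
        ∀ x ∈ ball (0 : Ec n) a, Ψ (Φ x) = x) ∧
      ∀ x ∈ ball (0 : Ec n) a, ∑ k, h (Φ x) p k * (p k - Φ x k) = -∑ k, h p p k * x k := by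
  have hU := hs.opn
  obtain ⟨X₀, hX₀⟩ : ∃ X₀ : Ec n, ∑ k, h p p k * X₀ k ≠ 0 := by
    by_contra hcon
    push Not at hcon
    refine hs.nd p hp hρp ?_
    ext X
    rw [hs.grad p hp X, hcon X]
    simp
  set e : Ec n := (∑ k, h p p k * X₀ k)⁻¹ • X₀ with hedef
  have he : ∑ k, h p p k * e k = 1 := by
    have h1 : ∑ k, h p p k * e k = (∑ k, h p p k * X₀ k)⁻¹ * ∑ k, h p p k * X₀ k := by
      rw [Finset.mul_sum]
      refine Finset.sum_congr rfl fun k _ => ?_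
      simp only [hedef, PiLp.smul_apply, smul_eq_mul]
      ring
    rw [h1, inv_mul_cancel₀ hX₀]
  set Ψ : Ec n → Ec n := M1b_Psi h p e with hΨ
  have hhol : DifferentiableOn ℂ Ψ U := M1b_hol hs.hol hp e
  have hΨp : Ψ p = 0 := by
    simp [hΨ, M1b_Psi]
  have hstrict : HasStrictFDerivAt Ψ
      ((ContinuousLinearEquiv.refl ℝ (Ec n) : Ec n ≃L[ℝ] Ec n) : Ec n →L[ℝ] Ec n) p :=
    (M1b_smooth hU hs.dh hp e).hasStrictFDerivAt' (M1b_deriv hU hs.hol hp e) (by norm_num)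
  obtain ⟨s₀, hs₀, happ₀⟩ := hstrict.approximates_deriv_on_nhds (c := 1 / 2)
    (Or.inr (by norm_num))
  obtain ⟨s, hss, hso, hsp⟩ := _root_.mem_nhds_iff.1
    (Filter.inter_mem hs₀ (Filter.inter_mem (hU.mem_nhds hp) (ball_mem_nhds p hr)))
  have happ : ApproximatesLinearOn Ψ
      ((ContinuousLinearEquiv.refl ℝ (Ec n) : Ec n ≃L[ℝ] Ec n) : Ec n →L[ℝ] Ec n) s (1 / 2) :=
    happ₀.mono_set fun x hx => (hss hx).1
  have hcN : Subsingleton (Ec n) ∨ (1 / 2 : NNReal) <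
      ‖(((ContinuousLinearEquiv.refl ℝ (Ec n)).symm : Ec n ≃L[ℝ] Ec n) : Ec n →L[ℝ] Ec n)‖₊⁻¹ := by
    right
    have h1 : ‖(((ContinuousLinearEquiv.refl ℝ (Ec n)).symm : Ec n ≃L[ℝ] Ec n) :
        Ec n →L[ℝ] Ec n)‖ ≤ 1 := ContinuousLinearMap.norm_id_le
    have hne : Nontrivial (Ec n) := by
      refine ⟨⟨X₀, 0, ?_⟩⟩
      rintro rfl
      exact hX₀ (by simp)
    have h2 : ‖(((ContinuousLinearEquiv.refl ℝ (Ec n)).symm : Ec n ≃L[ℝ] Ec n) :
        Ec n →L[ℝ] Ec n)‖₊ = 1 := by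
      have : ‖(ContinuousLinearMap.id ℝ (Ec n))‖ = 1 := ContinuousLinearMap.norm_id
      exact NNReal.eq this
    rw [h2, inv_one]
    norm_num
  have hlip1 : ∀ x ∈ s, ∀ y ∈ s, ‖Ψ x - Ψ y - (x - y)‖ ≤ 1 / 2 * ‖x - y‖ := by
    intro x hx y hy
    have := happ x hx y hy
    simpa using this
  set H : OpenPartialHomeomorph (Ec n) (Ec n) :=
    happ.toOpenPartialHomeomorph Ψ s hcN hso with hH
  have hHsrc : H.source = s := rfl
  have hHfun : ∀ x, H x = Ψ x := fun x => rfl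
  have hps : p ∈ H.source := by
    rw [hHsrc]
    exact hsp
  have h0t : (0 : Ec n) ∈ H.target := by
    have := H.map_source hps
    rwa [hHfun, hΨp] at this
  obtain ⟨b, hb0, hb⟩ := Metric.isOpen_iff.1 H.open_target 0 h0t
  have hsub : ball (0 : Ec n) (min 1 b) ⊆ H.target :=
    (ball_subset_ball (min_le_right _ _)).trans hb
  have hΦs : ∀ x ∈ H.target, H.symm x ∈ s := by
    intro x hx
    have := H.map_target hx
    rwa [hHsrc] at this
  have hΨΦ : ∀ x ∈ H.target, Ψ (H.symm x) = x := by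
    intro x hx
    have := H.right_inv hx
    rwa [hHfun] at this
  refine ⟨min 1 b, H.symm, lt_min one_pos hb0, min_le_left _ _, ?_, ?_, ?_, ?_, ?_, ?_, ?_⟩
  · intro x hx
    have hxt := hsub hx
    have hz := hΦs x hxt
    have hzU : H.symm x ∈ U := (hss hz).2.1
    have hd : HasFDerivAt Ψ (fderiv ℂ Ψ (H.symm x)) (H.symm x) :=
      (hhol.differentiableAt (hU.mem_nhds hzU)).hasFDerivAt
    have hd2 : HasFDerivAt (fun y => Ψ y - y)
        (fderiv ℂ Ψ (H.symm x) - ContinuousLinearMap.id ℂ (Ec n)) (H.symm x) :=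
      hd.sub (hasFDerivAt_id _)
    have hnorm : ‖fderiv ℂ Ψ (H.symm x) - ContinuousLinearMap.id ℂ (Ec n)‖ ≤ 1 / 2 := by
      refine hd2.le_of_lip' (by norm_num) ?_
      filter_upwards [hso.mem_nhds hz] with y hy
      have := hlip1 y hy _ hz
      rwa [show Ψ y - y - (Ψ (H.symm x) - H.symm x) = Ψ y - Ψ (H.symm x) - (y - H.symm x) by abel]
    have hinj : Function.Injective (fderiv ℂ Ψ (H.symm x) : Ec n →ₗ[ℂ] Ec n) := by
      rw [← LinearMap.ker_eq_bot, LinearMap.ker_eq_bot']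
      intro v hv
      have hv' : fderiv ℂ Ψ (H.symm x) v = 0 := hv
      have h1 := (fderiv ℂ Ψ (H.symm x) - ContinuousLinearMap.id ℂ (Ec n)).le_opNorm v
      have h2 : (fderiv ℂ Ψ (H.symm x) - ContinuousLinearMap.id ℂ (Ec n)) v = -v := by
        simp [hv']
      rw [h2, norm_neg] at h1
      have h3 : ‖fderiv ℂ Ψ (H.symm x) - ContinuousLinearMap.id ℂ (Ec n)‖ * ‖v‖ ≤
          1 / 2 * ‖v‖ := by gcongr
      have h4 := norm_nonneg v
      have h5 : ‖v‖ = 0 := by linarith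
      exact norm_eq_zero.1 h5
    let E₁ : Ec n ≃ₗ[ℂ] Ec n := LinearEquiv.ofInjectiveEndo _ hinj
    let E₂ : Ec n ≃L[ℂ] Ec n := E₁.toContinuousLinearEquiv
    have hE : (E₂ : Ec n →L[ℂ] Ec n) = fderiv ℂ Ψ (H.symm x) := by
      ext v
      rfl
    have hd3 : HasFDerivAt H (E₂ : Ec n →L[ℂ] Ec n) (H.symm x) := by
      rw [hE]
      exact hd
    exact (H.hasFDerivAt_symm hxt hd3).differentiableAt.differentiableWithinAt
  · intro x hx
    have hz := hss (hΦs x (hsub hx))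
    exact ⟨hz.2.2, hz.2.1⟩
  · have := H.left_inv hps
    rwa [hHfun, hΨp] at this
  · intro x hx y hy
    have hx1 := hsub hx
    have hy1 := hsub hy
    have h1 := hlip1 _ (hΦs x hx1) _ (hΦs y hy1)
    rw [hΨΦ x hx1, hΨΦ y hy1] at h1
    have h2 := norm_sub_norm_le (x - y) (H.symm x - H.symm y)
    have h3 := norm_sub_norm_le (H.symm x - H.symm y) (x - y)
    rw [norm_sub_rev (H.symm x - H.symm y) (x - y)] at h3
    have h4 := norm_nonneg (H.symm x - H.symm y)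
    constructor <;> linarith
  · intro S hS hSb
    exact H.isOpen_image_symm_of_subset_target hS (hSb.trans hsub)
  · refine ⟨Ψ, hhol.mono ?_, fun x hx => hΨΦ x (hsub hx)⟩
    rintro _ ⟨x, hx, rfl⟩
    exact (hss (hΦs x (hsub hx))).2.1
  · intro x hx
    have h1 := M1b_lin he (H.symm x)
    have h2 : M1b_Psi h p e (H.symm x) = x := hΨΦ x (hsub hx)
    rw [h2] at h1
    rw [h1, neg_neg]

end Pool.Agent.MPca0fc2.GW
end

section

/-! Convexification near a boundary point. -/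

set_option autoImplicit false

open Metric Set MeasureTheory Filter Topology

namespace Pool.Agent.MPca0fc2.GW

open Pool.Agent.MPca0fc2.FD
open Pool.Agent.Lib.MP_ca0fc2_an (SupportData)

variable {n : ℕ}

private theorem M1c_c3 {F : Ec n → Ec n} {W : Set (Ec n)} (hW : IsOpen W)
    (hF : DifferentiableOn ℂ F W) : ContDiffOn ℝ 3 F W := by
  rw [show (3 : WithTop ℕ∞) = 2 + 1 by norm_num, contDiffOn_succ_iff_fderiv_of_isOpen hW]
  refine ⟨hF.restrictScalars ℝ, by simp, ?_⟩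
  have h1 : ContDiffOn ℝ 2 (fderiv ℂ F) W := FD.hol_c2 hW (FD.hol_fderiv hW hF)
  have h2 : ContDiff ℝ 2 (ContinuousLinearMap.restrictScalarsL ℂ (Ec n) (Ec n) ℝ ℝ) :=
    ContinuousLinearMap.contDiff _
  have h3 := h2.comp_contDiffOn h1
  refine h3.congr fun z hz => ?_
  have h4 : DifferentiableAt ℂ F z := hF.differentiableAt (hW.mem_nhds hz)
  rw [h4.fderiv_restrictScalars ℝ]
  rfl

/-- Convexification.
PROOF. `ρ p = 0` and `p ∈ U` for `p ∈ frontier D` (`sup_closure` in `FD/T1.lean`; `p ∉ D` as `D` is open). `coord_change`; `q = ρ ∘ Φ` is of class `C³` (`Φ` is holomorphic, hence smooth). `SupportData.pos` at `(Φ x, p)`: `0 - ρ (Φ x) + c ‖Φ x - p‖² ≤ 2 Re ∑ h (Φ x) p k (p k - Φ x k) = - 2 Re ∑ h p p k x k`,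
and `‖Φ x - p‖ ≥ ‖x‖ / 2`: `q x ≥ l x + (c / 4) ‖x‖²` with `l x = 2 Re ∑ h p p k x k`. `strong_conv` (with `c₀ = c / 4`), restrict everything to the smaller ball. `dq`: `q` and `l` have the same derivative at `0` (`q - l ≥ 0` has a minimum at `0`), `l ≠ 0`. -/
theorem convexify {D U : Set (Ec n)} {ρ : Ec n → ℝ} {h : Ec n → Ec n → Fin n → ℂ} {c : ℝ}
    (hs : SupportData D U ρ h c) (hρ : ContDiffOn ℝ 3 ρ U) {p : Ec n} (hp : p ∈ frontier D)
    {r : ℝ} (hr : 0 < r) : ∃ (a L c₁ : ℝ) (Φ : Ec n → Ec n), CV U ρ p r a L c₁ Φ := by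
  have hDo : IsOpen D := by
    rw [hs.eq]
    exact hs.dρ.continuousOn.isOpen_inter_preimage hs.opn isOpen_Iio
  have hpc : p ∈ {z | z ∈ U ∧ ρ z ≤ 0} := by
    rw [← sup_closure hs]
    exact hp.1
  have hpU : p ∈ U := hpc.1
  have hpD : p ∉ D := by
    have h1 := hp.2
    rwa [hDo.interior_eq] at h1
  have hρp : ρ p = 0 := by
    refine le_antisymm hpc.2 ?_
    by_contra hcon
    push Not at hcon
    exact hpD (by rw [hs.eq]; exact ⟨hpU, hcon⟩)
  obtain ⟨a, Φ, ha, ha1, hΦ, hmap, hΦ0, hlip, hopn, hinv, hid⟩ := coord_change hs hpU hρp hr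
  have hq3 : ContDiffOn ℝ 3 (fun x => ρ (Φ x)) (ball 0 a) :=
    hρ.comp (M1c_c3 isOpen_ball hΦ) (fun x hx => (hmap x hx).2)
  have hq0 : (fun x => ρ (Φ x)) 0 = 0 := by
    show ρ (Φ 0) = 0
    rw [hΦ0, hρp]
  have h0m : (0 : Ec n) ∈ ball (0 : Ec n) a := mem_ball_self ha
  have hl : ∀ x ∈ ball (0 : Ec n) a,
      (fderiv ℝ ρ p) x + c / 4 * ‖x‖ ^ 2 ≤ (fun x => ρ (Φ x)) x := by
    intro x hx
    have h1 := hs.pos (Φ x) (hmap x hx).2 p hpU
    rw [hid x hx, Complex.neg_re] at h1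
    have h2 := hs.grad p hpU x
    have h3 := (hlip x hx 0 h0m).2
    rw [hΦ0, sub_zero] at h3
    have h4 : ‖p - Φ x‖ = ‖Φ x - p‖ := norm_sub_rev _ _
    rw [h4, hρp] at h1
    have h5 : ‖x‖ ^ 2 ≤ 4 * ‖Φ x - p‖ ^ 2 := by
      have h6 : ‖x‖ ^ 2 ≤ (2 * ‖Φ x - p‖) ^ 2 :=
        pow_le_pow_left₀ (norm_nonneg _) h3 2
      nlinarith
    have h7 := hs.c0
    have h8 : c / 4 * ‖x‖ ^ 2 ≤ c / 4 * (4 * ‖Φ x - p‖ ^ 2) :=
      mul_le_mul_of_nonneg_left h5 (by positivity)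
    show (fderiv ℝ ρ p) x + c / 4 * ‖x‖ ^ 2 ≤ ρ (Φ x)
    rw [h2]
    linarith
  have hc4 : 0 < c / 4 := by have := hs.c0; positivity
  obtain ⟨a', ha', haa, hcv⟩ := strong_conv ha hc4 hq3 (fderiv ℝ ρ p) hq0 hl
  have hsub : ball (0 : Ec n) a' ⊆ ball 0 a := ball_subset_ball haa
  refine ⟨a', 2, c / 4 / 2, Φ, ?_⟩
  refine
    { a0 := ha'
      a1 := haa.trans ha1
      L1 := by norm_num
      c0 := by positivity
      hol := hΦ.mono hsub
      map := fun x hx => hmap x (hsub hx)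
      zero := hΦ0
      lip := fun x hx y hy => hlip x (hsub hx) y (hsub hy)
      opn := fun S hS hSa => hopn S hS (hSa.trans hsub)
      inv := ?_
      q3 := hq3.mono hsub
      q0 := hρp
      dq := ?_
      conv := hcv }
  · obtain ⟨Ψ, hΨ, hΨ'⟩ := hinv
    exact ⟨Ψ, hΨ.mono (image_mono hsub), fun x hx => hΨ' x (hsub hx)⟩
  · have hd : DifferentiableAt ℝ (fun x => ρ (Φ x)) 0 :=
      (hq3.contDiffAt (isOpen_ball.mem_nhds h0m)).differentiableAt (by norm_num)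
    have hmin : IsLocalMin (fun x => ρ (Φ x) - (fderiv ℝ ρ p) x) 0 := by
      filter_upwards [isOpen_ball.mem_nhds h0m] with x hx
      have h1 := hl x hx
      have h2 : 0 ≤ c / 4 * ‖x‖ ^ 2 := by positivity
      have h3 : ρ (Φ 0) = 0 := hq0
      rw [h3, map_zero, sub_zero]
      have h4 : (fderiv ℝ ρ p) x + c / 4 * ‖x‖ ^ 2 ≤ ρ (Φ x) := h1
      linarith
    have hz := hmin.fderiv_eq_zero
    have h5 : HasFDerivAt (fun x => ρ (Φ x) - (fderiv ℝ ρ p) x)
        (fderiv ℝ (fun x => ρ (Φ x)) 0 - fderiv ℝ ρ p) 0 :=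
      hd.hasFDerivAt.sub (fderiv ℝ ρ p).hasFDerivAt
    rw [h5.fderiv, sub_eq_zero] at hz
    rw [hz]
    exact hs.nd p hpU hρp

end Pool.Agent.MPca0fc2.GW
end
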