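import Pool.Agent.Lib.MP_ca0fc2_an.Mg.G052
import Pool.Agent.Lib.MP_ca0fc2_an.FD.B13
import Pool.Agent.Lib.MP_ca0fc2_an.FD.J4
import Pool.Agent.Lib.MP_ca0fc2_an.Mg.G056
import Pool.Agent.Lib.MP_ca0fc2_an.Mg.G045

section

/-! The descent in the Koszul complex. -/

set_option autoImplicit false

open Metric Set MeasureTheory Filter Topology

namespace Pool.Agent.MPca0fc2.FD

variable {n : ℕ} {Y V : Type*} [NormedAddCommGroup Y] [NormedSpace ℂ Y] [NormedAddCommGroup V]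
  [NormedSpace ℂ V] [FiniteDimensional ℂ Y] [FiniteDimensional ℂ V]

/-- the data: a smooth solution `σ` of `F σ = 1`, bounded by the potential -/
structure KD (P : PD n) (U : Set (Ec n)) (δ : Ec n → ℝ) (h : Ec n → Ec n → Fin n → ℂ)
    (F : Ec n → Y →L[ℂ] ℂ) (σ : Ec n → Y) (c C A M C₁ G : ℝ) : Prop where
  geo : Geo U δ h c C
  pg : PG0 P U δ h c C A
  M0 : 0 ≤ M
  C0 : 0 ≤ C₁
  G0 : 0 ≤ G
  F_hol : DifferentiableOn ℂ F (Om U δ)
  F_le : ∀ z ∈ Om U δ, ‖F z‖ ≤ M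
  σ_c2 : ContDiffOn ℝ 2 σ (Om U δ)
  σ_le : ∀ z ∈ Om U δ, ‖σ z‖ ≤ C₁
  dσ : ∀ z ∈ Om U δ, ∀ X, ‖db σ z X‖ ≤ G * Ene P δ z * gau δ h z X
  one : ∀ z ∈ Om U δ, F z (σ z) = 1
  zero : ∀ z ∈ Om U δ, ∀ X, F z (db σ z X) = 0

/-- the statement of the descent in degree `q`, on the domain `{δ > s}` -/
def Desc (K : QT.Car Y V) (P : PD n) (U : Set (Ec n)) (δ : Ec n → ℝ)
    (h : Ec n → Ec n → Fin n → ℂ) (F : Ec n → Y →L[ℂ] ℂ) (σ : Ec n → Y) (q : ℕ) (s B : ℝ) : Prop :=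
  ∀ e : ℝ, 0 < e → ∃ (W : Set (Ec n)) (Ψ : Fm n q V), IsOpen W ∧
    Kc U (fun z => δ z - s) ⊆ W ∧ W ⊆ Om U δ ∧ AltF Ψ ∧ (∀ I, ContDiffOn ℝ 1 (Ψ I) W) ∧
    Bd U (fun z => δ z - s) h P B Ψ ∧
    (∀ z ∈ Om U (fun z => δ z - s), ∀ I, K.c (F z) (Ψ I z) = K.c (F z) (UU K σ q I z)) ∧
    ∀ z ∈ Om U (fun z => δ z - s), ∀ I, ‖dbf Ψ I z‖ ≤ e

/-- `kap` for comparable values of the parameter -/
private theorem K4_kap_double {s s' : ℝ} (hs : 0 ≤ s) (hs' : 0 ≤ s') (hss : s' ≤ 2 * s) (x η : ℂ) :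
    kap s' x η ≤ 2 * kap s x η := by
  unfold kap
  have h1 : (s' / ‖1 - (starRingEnd ℂ) η * x‖) ^ (1 / 4 : ℝ) ≤
      2 * (s / ‖1 - (starRingEnd ℂ) η * x‖) ^ (1 / 4 : ℝ) := by
    calc (s' / ‖1 - (starRingEnd ℂ) η * x‖) ^ (1 / 4 : ℝ)
        ≤ (2 * (s / ‖1 - (starRingEnd ℂ) η * x‖)) ^ (1 / 4 : ℝ) := by
          apply Real.rpow_le_rpow (by positivity)
          · rw [← mul_div_assoc]
            gcongr
          · norm_num
      _ = (2 : ℝ) ^ (1 / 4 : ℝ) * (s / ‖1 - (starRingEnd ℂ) η * x‖) ^ (1 / 4 : ℝ) :=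
          Real.mul_rpow (by norm_num) (by positivity)
      _ ≤ 2 * (s / ‖1 - (starRingEnd ℂ) η * x‖) ^ (1 / 4 : ℝ) := by
          gcongr
          calc (2 : ℝ) ^ (1 / 4 : ℝ) ≤ (2 : ℝ) ^ (1 : ℝ) :=
                Real.rpow_le_rpow_of_exponent_le (by norm_num) (by norm_num)
            _ = 2 := Real.rpow_one 2
  have h2 : 0 ≤ ((1 - ‖η‖ ^ 2) / ‖1 - (starRingEnd ℂ) η * x‖) ^ 2 := sq_nonneg _
  calc ((1 - ‖η‖ ^ 2) / ‖1 - (starRingEnd ℂ) η * x‖) ^ 2 *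
        (s' / ‖1 - (starRingEnd ℂ) η * x‖) ^ (1 / 4 : ℝ)
      ≤ ((1 - ‖η‖ ^ 2) / ‖1 - (starRingEnd ℂ) η * x‖) ^ 2 *
        (2 * (s / ‖1 - (starRingEnd ℂ) η * x‖) ^ (1 / 4 : ℝ)) := by gcongr
    _ = _ := by ring

/-- the potential is nonnegative and bounded, on the whole domain -/
private theorem K4_Ene (n : ℕ) (c C A : ℝ) (R : ℕ) : ∃ E₀ : ℝ, 0 < E₀ ∧ ∀ (U : Set (Ec n))
    (δ : Ec n → ℝ) (h : Ec n → Ec n → Fin n → ℂ) (P : PD n), P.R = R → Geo U δ h c C →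
    PG0 P U δ h c C A → ∀ z ∈ Om U δ, 0 ≤ Ene P δ z ∧ Ene P δ z ≤ E₀ := by
  obtain ⟨C', hC', hE⟩ := Ene_le n (c / 2) C A R
  refine ⟨2 * C', by positivity, ?_⟩
  intro U δ h P hR hg hP z hz
  have hδ : 0 < δ z := hz.2
  refine ⟨?_, ?_⟩
  · unfold Ene
    refine Finset.sum_nonneg fun r _ => Finset.sum_nonneg fun η _ => ?_
    unfold kap
    positivity
  · have hc := hg.c0
    set s : ℝ := min (δ z / 2) (c / 2) with hs
    have hs0 : 0 < s := lt_min (by linarith) (by linarith)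
    have hs1 : s ≤ δ z / 2 := min_le_left _ _
    have hs2 : s ≤ c / 2 := min_le_right _ _
    have hz' : z ∈ Om U (fun z => δ z - s) := ⟨hz.1, by
      show 0 < δ z - s
      linarith⟩
    have h1 := hE U (fun z => δ z - s) h P hR (Geo_shift hg hs0.le hs2) (PG_shift hc hP hs0) z hz'
    have h2 : Ene P δ z ≤ 2 * Ene P (fun z => δ z - s) z := by
      unfold Ene
      rw [Finset.mul_sum]
      refine Finset.sum_le_sum fun r _ => ?_
      rw [Finset.mul_sum]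
      refine Finset.sum_le_sum fun η _ => ?_
      exact K4_kap_double (by linarith) hδ.le (by linarith) _ _
    linarith

private theorem K4_sub0 (δ : Ec n → ℝ) : (fun z => δ z - 0) = δ := by
  funext z
  simp

/-- the bound of the Koszul forms on the smaller domains -/
private theorem K4_UU_bd (K : QT.Car Y V) (c C A M C₁ G : ℝ) (R r : ℕ) (hr : 1 ≤ r) :
    ∃ B : ℝ, 0 ≤ B ∧ ∀ (U : Set (Ec n)) (δ : Ec n → ℝ) (h : Ec n → Ec n → Fin n → ℂ)
      (P : PD n) (F : Ec n → Y →L[ℂ] ℂ) (σ : Ec n → Y), P.R = R → KD P U δ h F σ c C A M C₁ G →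
      ∀ s : ℝ, 0 ≤ s → Bd U (fun z => δ z - s) h P B (UU K σ r) := by
  by_cases hC₁ : 0 ≤ C₁
  swap
  · exact ⟨0, le_rfl, fun U δ h P F σ _ hD => absurd hD.C0 hC₁⟩
  by_cases hG : 0 ≤ G
  swap
  · exact ⟨0, le_rfl, fun U δ h P F σ _ hD => absurd hD.G0 hG⟩
  obtain ⟨E₀, hE₀, hE⟩ := K4_Ene n c C A R
  obtain ⟨B, hB, hU⟩ := UU_bd (n := n) K r hr C₁ G E₀ hC₁ hG
  refine ⟨B, hB, ?_⟩
  intro U δ h P F σ hR hD s hs
  have h1 : Bd U δ h P B (UU K σ r) :=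
    hU U δ h P σ (hE U δ h P hR hD.geo hD.pg) hD.σ_le hD.dσ
  have h2 : Bd U (fun z => δ z - 0) h P B (UU K σ r) := by
    rw [K4_sub0]
    exact h1
  exact Bd_shift hD.pg.sub hs hB hr h2

private theorem K4_db_sub {G₁ G₂ : Ec n → V} {z : Ec n} (h1 : DifferentiableAt ℝ G₁ z)
    (h2 : DifferentiableAt ℝ G₂ z) (X : Ec n) :
    db (fun y => G₁ y - G₂ y) z X = db G₁ z X - db G₂ z X := by
  unfold db
  have h3 : fderiv ℝ (fun y => G₁ y - G₂ y) z = fderiv ℝ G₁ z - fderiv ℝ G₂ z :=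
    fderiv_fun_sub h1 h2
  rw [h3]
  simp only [sub_apply, smul_sub, smul_add]
  abel

private theorem K4_dbf_sub {q : ℕ} {η₁ η₂ : Fm n q V} {z : Ec n}
    (h1 : ∀ I, DifferentiableAt ℝ (η₁ I) z) (h2 : ∀ I, DifferentiableAt ℝ (η₂ I) z)
    (J : Fin (q + 1) → Fin n) :
    dbf (fun I y => η₁ I y - η₂ I y) J z = dbf η₁ J z - dbf η₂ J z := by
  unfold dbf
  rw [← Finset.sum_sub_distrib]
  refine Finset.sum_congr rfl fun i _ => ?_
  rw [K4_db_sub (h1 _) (h2 _), smul_sub]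

private theorem K4_db_cont {G : Ec n → V} {W : Set (Ec n)} (hW : IsOpen W)
    (hG : ContDiffOn ℝ 1 G W) (X : Ec n) : ContinuousOn (fun z => db G z X) W := by
  have h1 : ContinuousOn (fderiv ℝ G) W := hG.continuousOn_fderiv_of_isOpen hW le_rfl
  unfold db
  refine ContinuousOn.const_smul ?_ _
  refine ContinuousOn.add (h1.clm_apply continuousOn_const) ?_
  exact ContinuousOn.const_smul (h1.clm_apply continuousOn_const) _

private theorem K4_dbf_cont {q : ℕ} {η : Fm n q V} {W : Set (Ec n)} (hW : IsOpen W)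
    (hη : ∀ I, ContDiffOn ℝ 1 (η I) W) (J : Fin (q + 1) → Fin n) :
    ContinuousOn (dbf η J) W := by
  have h1 : dbf η J = fun z => ∑ i : Fin (q + 1),
      ((-1 : ℂ) ^ (i : ℕ)) • db (η (J ∘ i.succAbove)) z (ee (J i)) := rfl
  rw [h1]
  refine continuousOn_finsetSum _ fun i _ => ?_
  exact ContinuousOn.const_smul (K4_db_cont hW (hη _) _) _

private theorem K4_c_c1 (K : QT.Car Y V) {F : Ec n → Y →L[ℂ] ℂ} {W : Set (Ec n)} (hW : IsOpen W)
    (hF : DifferentiableOn ℂ F W) {g : Ec n → V} (hg : ContDiffOn ℝ 1 g W) :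
    ContDiffOn ℝ 1 (fun z => K.c (F z) (g z)) W := by
  have h1 : ContDiffOn ℝ 1 F W := (hol_c2 hW hF).of_le (by norm_num)
  have h2 : ContDiffOn ℝ 1 (fun z => (K.c.restrictScalars ℝ) (F z)) W :=
    (K.c.restrictScalars ℝ).contDiff.comp_contDiffOn h1
  have h3 : ContDiffOn ℝ 1 (fun z => (ContinuousLinearMap.restrictScalarsL ℂ V V ℝ ℝ)
      ((K.c.restrictScalars ℝ) (F z))) W :=
    (ContinuousLinearMap.restrictScalarsL ℂ V V ℝ ℝ).contDiff.comp_contDiffOn h2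
  exact h3.clm_apply hg

private theorem K4_c_norm (K : QT.Car Y V) {F : Y →L[ℂ] ℂ} {M : ℝ} (hF : ‖F‖ ≤ M) (x : V) :
    ‖K.c F x‖ ≤ ‖K.c‖ * M * ‖x‖ := by
  calc ‖K.c F x‖ ≤ ‖K.c F‖ * ‖x‖ := ContinuousLinearMap.le_opNorm _ _
    _ ≤ (‖K.c‖ * ‖F‖) * ‖x‖ := by
        gcongr
        exact ContinuousLinearMap.le_opNorm _ _
    _ ≤ ‖K.c‖ * M * ‖x‖ := by gcongr

/-- The start of the descent.
PROOF. `Ψ = UU K σ n`, `W = Om U δ`: `UU_alt`, `UU_c1`, `UU_bd` (with `Ene_le`, for `δ`: note that `Ene_le` is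
stated for `PG`; apply it on `δ - s'` for all small `s' > 0` and let `s' → 0`, `kap` is continuous in `s`;
or apply `UU_bd` on the domain `δ - s` directly: on `Om U (δ - s)` the bound of `dσ` for `δ` is not the bound
for `δ - s`, but it follows from `Bd_shift` for the form `dbf`-like `(I ↦ db σ z (ee (I 0)))` of degree `1`; you may
also use `Bd_shift` for the class with `E₀`: the easiest is: `Bd U δ h P B (UU K σ n)` by `UU_bd` and then
`Bd_shift`, with the bound `E₀` of `Ene P δ` on `Om U δ` from the first way), then `Bd_shift`.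
`dbf (UU K σ n) = K.c F (UU K σ (n + 1)) = 0` by `koszul_eq`, `UU_zero`. -/
theorem desc_start (hn : 2 ≤ n) (K : QT.Car Y V) (c C A M C₁ G : ℝ) (R : ℕ) :
    ∃ B : ℝ, 0 ≤ B ∧ ∀ (U : Set (Ec n)) (δ : Ec n → ℝ) (h : Ec n → Ec n → Fin n → ℂ)
      (P : PD n) (F : Ec n → Y →L[ℂ] ℂ) (σ : Ec n → Y), P.R = R → KD P U δ h F σ c C A M C₁ G →
      ∀ s : ℝ, 0 < s → s ≤ c / 2 → Desc K P U δ h F σ n s B := by
  obtain ⟨B, hB, hU⟩ := K4_UU_bd (n := n) K c C A M C₁ G R n (by omega)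
  refine ⟨B, hB, ?_⟩
  intro U δ h P F σ hR hD s hs hsc e he
  have hopen : IsOpen (Om U δ) := Om_open hD.geo
  have hsub : Om U (fun z => δ z - s) ⊆ Om U δ := fun z hz => ⟨hz.1, by
    have h1 : 0 < δ z - s := hz.2
    linarith⟩
  refine ⟨Om U δ, UU K σ n, hopen, ?_, Subset.rfl, UU_alt K σ n, ?_, ?_, ?_, ?_⟩
  · intro z hz
    refine ⟨hz.1, ?_⟩
    have h1 : 0 ≤ δ z - s := hz.2
    linarith
  · exact fun I => UU_c1 K hopen hD.σ_c2 n I
  · exact hU U δ h P F σ hR hD s hs.le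
  · exact fun z _ I => rfl
  · intro z hz I
    have hz' := hsub hz
    have h1 : dbf (UU K σ n) I z = K.c (F z) (UU K σ (n + 1) I z) :=
      koszul_eq K (hD.σ_c2.contDiffAt (hopen.mem_nhds hz')) (hD.one z hz') (hD.zero z hz') n I
    rw [h1, UU_zero K σ (Nat.lt_succ_self n) I z, map_zero, norm_zero]
    exact he.le

/-- One step of the descent.
PROOF. Let `e' > 0` be given. Notation: `D = δ - s`; `Geo U D h (c/2) C` (`Geo_shift`), `PG P U D h (c/2) C A`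
(`PG_shift`). `Cs` the constant of `Sop_sup` for `c/2`, `q = m + 1`, `s₀ = ς`. Take
`e = e' / (2 ‖K.c‖ M Cs + 1)`, and `Ψ`, `W` from `Desc` in degree `m + 1`. By `Rop_lim` (with `s := ς`, the
tolerance `e' / (2 ‖K.c‖ M + 1)`) choose `ε ∈ (0, 1]`. Let `N = Sop U D h ε Ψ : Fm n m V` and
`Ψ' I z = UU K σ m I z - K.c (F z) (N I z)`, `W' = Om U D`, which contains `Kc U (δ - (s + ς))` (`Om_shift`).
AltF: `UU_alt`, `Sop_alt`. `C¹`: `UU_c1`, `Sop_c1`, `F` is `C¹` (holomorphic: `hol_c2`). `Bd`: `UU_bd` and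
`Bd_shift` for `UU` (see `desc_start`; `m ≥ 1`), `Sop_bd` for `N` on `D` (`q = m`), `Bd_op`, `Bd_shift`,
`Bd_sub`; the constant `B'` depends only on `B` and the parameters. `K.c F Ψ' = K.c F UU` by `cc_zero`.
Finally `dbf Ψ' = K.c F (UU K σ (m+1)) - K.c F (dbf N)` (`koszul_eq`, `dbf_c`, linearity), and by `koppelman`
`dbf N = Rop Ψ - Sop (dbf Ψ)`. As `K.c F (UU K σ (m+1)) = K.c F Ψ`, we get
`dbf Ψ' = K.c F (Ψ - Rop Ψ) + K.c F (Sop (dbf Ψ))`. At the points of `Om U (δ - (s+ς))` we have `ς ≤ D z`,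
so the first term is at most `‖K.c‖ M e' / (2 ‖K.c‖ M + 1) ≤ e' / 2`, and the second at most
`‖K.c‖ M Cs e ≤ e' / 2` (`Sop_sup`; `dbf Ψ` is continuous on `W`). -/
theorem desc_step (hn : 2 ≤ n) (K : QT.Car Y V) (c C A M C₁ G : ℝ) (R m : ℕ) (hm : 1 ≤ m)
    (hmn : m + 1 ≤ n) (B : ℝ) (hB : 0 ≤ B) :
    ∃ B' : ℝ, 0 ≤ B' ∧ ∀ (U : Set (Ec n)) (δ : Ec n → ℝ) (h : Ec n → Ec n → Fin n → ℂ)
      (P : PD n) (F : Ec n → Y →L[ℂ] ℂ) (σ : Ec n → Y), P.R = R → KD P U δ h F σ c C A M C₁ G →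
      ∀ s ς : ℝ, 0 < s → 0 < ς → s + ς ≤ c / 2 → Desc K P U δ h F σ (m + 1) s B →
        Desc K P U δ h F σ m (s + ς) B' := by
  obtain ⟨BU, hBU, hU⟩ := K4_UU_bd (n := n) K c C A M C₁ G R m hm
  obtain ⟨CS, hCS, hS⟩ := Sop_bd (V := V) hn (c / 2) C A R m hm (by omega)
  by_cases hM : 0 ≤ M
  swap
  · exact ⟨0, le_rfl, fun U δ h P F σ _ hD => absurd hD.M0 hM⟩
  set k : ℝ := ‖K.c‖ * M with hk
  have hk0 : 0 ≤ k := mul_nonneg (ContinuousLinearMap.opNorm_nonneg _) hM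
  refine ⟨BU + k * (CS * B), by positivity, ?_⟩
  intro U δ h P F σ hR hD s ς hs hς hsς hDesc e' he'
  have hc := hD.geo.c0
  -- the smaller domain
  set D : Ec n → ℝ := fun z => δ z - s with hDdef
  have hgD : Geo U D h (c / 2) C := Geo_shift hD.geo hs.le (by linarith)
  have hPD : PG P U D h (c / 2) C A := PG_shift hc hD.pg hs
  have hopD : IsOpen (Om U D) := Om_open hgD
  have hop : IsOpen (Om U δ) := Om_open hD.geo
  have hsub : Om U D ⊆ Om U δ := fun z hz => ⟨hz.1, by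
    have h1 : 0 < δ z - s := hz.2
    linarith⟩
  have hsub2 : Om U (fun z => δ z - (s + ς)) ⊆ Om U D := fun z hz => ⟨hz.1, by
    have h1 : 0 < δ z - (s + ς) := hz.2
    show 0 < δ z - s
    linarith⟩
  obtain ⟨Cs, hCs, hSs⟩ := Sop_sup (V := V) hn (c / 2) C (m + 1) hmn ς hς
  have he1 : 0 < e' / (2 * k * Cs + 1) := by positivity
  obtain ⟨W, Ψ, hW, hKW, hWs, hAlt, hC1, hBd, hceq, hdbf⟩ := hDesc _ he1
  have hcont : ∀ I, ContinuousOn (Ψ I) W := fun I => (hC1 I).continuousOn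
  have he2 : 0 < e' / (2 * k + 1) := by positivity
  obtain ⟨ε, hε, hε1, hR'⟩ := Rop_lim (V := V) hgD hKW hcont hAlt hς he2
  have hR1 := hR' ε hε le_rfl
  have hN1 : ∀ I, ContDiffOn ℝ 1 (Sop U D h ε Ψ I) (Om U D) := fun I =>
    Sop_c1 hgD hε hKW hcont I
  have hN2 : ∀ I, ContDiffOn ℝ 1 (fun z => K.c (F z) (Sop U D h ε Ψ I z)) (Om U D) := fun I =>
    K4_c_c1 K hopD (hD.F_hol.mono hsub) (hN1 I)
  have hU1 : ∀ I, ContDiffOn ℝ 1 (UU K σ m I) (Om U D) := fun I =>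
    (UU_c1 K hop hD.σ_c2 m I).mono hsub
  refine ⟨Om U D, fun I z => UU K σ m I z - K.c (F z) (Sop U D h ε Ψ I z), hopD, ?_, hsub, ?_, ?_,
    ?_, ?_, ?_⟩
  · have h1 := Om_shift (U := U) (δ := δ) (s := s) (s' := s + ς) (by linarith)
    exact h1
  · intro τ I z
    show UU K σ m (I ∘ τ) z - K.c (F z) (Sop U D h ε Ψ (I ∘ τ) z) = _ • (_ - _)
    rw [UU_alt K σ m τ I z, Sop_alt U D h ε Ψ τ I z, map_smul, smul_sub]
  · exact fun I => (hU1 I).sub (hN2 I)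
  · have h1 : Bd U (fun z => δ z - (s + ς)) h P BU (UU K σ m) :=
      hU U δ h P F σ hR hD (s + ς) (by linarith)
    have h2 : Bd U D h P (CS * B) (Sop U D h ε Ψ) :=
      hS U D h P hR hgD hPD ε hε hε1 W Ψ B hB hKW hcont hBd
    have h3 : Bd U D h P (k * (CS * B)) (fun I z => K.c (F z) (Sop U D h ε Ψ I z)) := by
      refine Bd_op (L := fun z => K.c (F z)) hk0 h2 ?_
      intro z hz
      calc ‖K.c (F z)‖ ≤ ‖K.c‖ * ‖F z‖ := ContinuousLinearMap.le_opNorm _ _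
        _ ≤ ‖K.c‖ * M := by
            gcongr
            exact hD.F_le z (hsub hz)
    have h4 : Bd U (fun z => δ z - (s + ς)) h P (k * (CS * B))
        (fun I z => K.c (F z) (Sop U D h ε Ψ I z)) :=
      Bd_shift (s := s) hD.pg.sub (by linarith) (by positivity) hm h3
    exact Bd_sub h1 h4
  · intro z _ I
    show K.c (F z) (UU K σ m I z - K.c (F z) (Sop U D h ε Ψ I z)) = _
    rw [map_sub, cc_zero, sub_zero]
  · intro z hz J
    have hzD : z ∈ Om U D := hsub2 hz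
    have hzδ : z ∈ Om U δ := hsub hzD
    have hςz : ς ≤ D z := by
      have h1 : 0 < δ z - (s + ς) := hz.2
      show ς ≤ δ z - s
      linarith
    have hda1 : ∀ I, DifferentiableAt ℝ (UU K σ m I) z := fun I =>
      ((hU1 I).differentiableOn (by norm_num)).differentiableAt (hopD.mem_nhds hzD)
    have hda2 : ∀ I, DifferentiableAt ℝ (fun z => K.c (F z) (Sop U D h ε Ψ I z)) z := fun I =>
      ((hN2 I).differentiableOn (by norm_num)).differentiableAt (hopD.mem_nhds hzD)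
    have hda3 : ∀ I, DifferentiableAt ℝ (Sop U D h ε Ψ I) z := fun I =>
      ((hN1 I).differentiableOn (by norm_num)).differentiableAt (hopD.mem_nhds hzD)
    have hFz : DifferentiableAt ℂ F z :=
      hD.F_hol.differentiableAt (hop.mem_nhds hzδ)
    have e1 : dbf (fun I z => UU K σ m I z - K.c (F z) (Sop U D h ε Ψ I z)) J z =
        dbf (UU K σ m) J z - dbf (fun I z => K.c (F z) (Sop U D h ε Ψ I z)) J z :=
      K4_dbf_sub hda1 hda2 J
    have e2 : dbf (UU K σ m) J z = K.c (F z) (UU K σ (m + 1) J z) :=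
      koszul_eq K (hD.σ_c2.contDiffAt (hop.mem_nhds hzδ)) (hD.one z hzδ) (hD.zero z hzδ) m J
    have e3 : dbf (fun I z => K.c (F z) (Sop U D h ε Ψ I z)) J z =
        K.c (F z) (dbf (Sop U D h ε Ψ) J z) := dbf_c K hFz hda3 J
    have e4 : Rop U D h ε Ψ J z = dbf (Sop U D h ε Ψ) J z + Sop U D h ε (dbf Ψ) J z :=
      koppelman hgD hε hW hKW hC1 J hzD
    have e5 : K.c (F z) (Ψ J z) = K.c (F z) (UU K σ (m + 1) J z) := hceq z hzD J
    have e6 : dbf (Sop U D h ε Ψ) J z = Rop U D h ε Ψ J z - Sop U D h ε (dbf Ψ) J z := by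
      rw [e4]
      abel
    have e7 : dbf (fun I z => UU K σ m I z - K.c (F z) (Sop U D h ε Ψ I z)) J z =
        K.c (F z) (Ψ J z - Rop U D h ε Ψ J z) + K.c (F z) (Sop U D h ε (dbf Ψ) J z) := by
      rw [e1, e2, e3, e6, ← e5, map_sub, map_sub]
      abel
    rw [e7]
    have hFM : ‖F z‖ ≤ M := hD.F_le z hzδ
    have b1 : ‖K.c (F z) (Ψ J z - Rop U D h ε Ψ J z)‖ ≤ e' / 2 := by
      calc ‖K.c (F z) (Ψ J z - Rop U D h ε Ψ J z)‖
          ≤ k * ‖Ψ J z - Rop U D h ε Ψ J z‖ := K4_c_norm K hFM _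
        _ ≤ k * (e' / (2 * k + 1)) := by
            gcongr
            rw [norm_sub_rev]
            exact hR1 J z hzD hςz
        _ ≤ e' / 2 := by
            rw [mul_div_assoc', div_le_div_iff₀ (by positivity) (by norm_num)]
            nlinarith
    have b2 : ‖K.c (F z) (Sop U D h ε (dbf Ψ) J z)‖ ≤ e' / 2 := by
      calc ‖K.c (F z) (Sop U D h ε (dbf Ψ) J z)‖
          ≤ k * ‖Sop U D h ε (dbf Ψ) J z‖ := K4_c_norm K hFM _
        _ ≤ k * (Cs * (e' / (2 * k * Cs + 1))) := by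
            gcongr
            exact hSs U D h hgD ε hε hε1 W (dbf Ψ) _ he1.le hKW
              (fun I => K4_dbf_cont hW hC1 I) (fun I ζ hζ => hdbf ζ hζ I) J z hzD hςz
        _ ≤ e' / 2 := by
            rw [← mul_assoc, mul_div_assoc', div_le_div_iff₀ (by positivity) (by norm_num)]
            nlinarith [mul_nonneg hk0 hCs.le]
    calc ‖K.c (F z) (Ψ J z - Rop U D h ε Ψ J z) + K.c (F z) (Sop U D h ε (dbf Ψ) J z)‖
        ≤ ‖K.c (F z) (Ψ J z - Rop U D h ε Ψ J z)‖ +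
          ‖K.c (F z) (Sop U D h ε (dbf Ψ) J z)‖ := norm_add_le _ _
      _ ≤ e' / 2 + e' / 2 := add_le_add b1 b2
      _ = e' := by ring

/-- The descent to degree one.
PROOF. Induction: for each `k` with `k + 1 ≤ n` there is `B_k` such that
`Desc .. (n - k) ((k + 1) ς) B_k` for all the data and `ς > 0` with `(k + 1) ς ≤ c / 2`: `desc_start` with
`s = ς`, `desc_step` with `m = n - k - 1`, `s = (k + 1) ς`. For `k = n - 1`: degree `1`, `s = n ς`. -/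
theorem desc_one (hn : 2 ≤ n) (K : QT.Car Y V) (c C A M C₁ G : ℝ) (R : ℕ) :
    ∃ B : ℝ, 0 ≤ B ∧ ∀ (U : Set (Ec n)) (δ : Ec n → ℝ) (h : Ec n → Ec n → Fin n → ℂ)
      (P : PD n) (F : Ec n → Y →L[ℂ] ℂ) (σ : Ec n → Y), P.R = R → KD P U δ h F σ c C A M C₁ G →
      ∀ ς : ℝ, 0 < ς → n * ς ≤ c / 2 → Desc K P U δ h F σ 1 (n * ς) B := by
  have key : ∀ k m : ℕ, m + k = n → 1 ≤ m → ∃ B : ℝ, 0 ≤ B ∧ ∀ (U : Set (Ec n)) (δ : Ec n → ℝ)
      (h : Ec n → Ec n → Fin n → ℂ) (P : PD n) (F : Ec n → Y →L[ℂ] ℂ) (σ : Ec n → Y), P.R = R →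
      KD P U δ h F σ c C A M C₁ G →
      ∀ ς : ℝ, 0 < ς → ((k : ℝ) + 1) * ς ≤ c / 2 →
        Desc K P U δ h F σ m (((k : ℝ) + 1) * ς) B := by
    intro k
    induction k with
    | zero =>
      intro m hmk _
      obtain ⟨B, hB, hS⟩ := desc_start hn K c C A M C₁ G R
      have hmn : m = n := by omega
      subst hmn
      refine ⟨B, hB, ?_⟩
      intro U δ h P F σ hR hD ς hς hςc
      have h1 : (((0 : ℕ) : ℝ) + 1) * ς = ς := by
        push_cast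
        ring
      rw [h1] at hςc ⊢
      exact hS U δ h P F σ hR hD ς hς hςc
    | succ k ih =>
      intro m hmk hm
      obtain ⟨B, hB, hI⟩ := ih (m + 1) (by omega) (by omega)
      obtain ⟨B', hB', hI'⟩ := desc_step hn K c C A M C₁ G R m hm (by omega) B hB
      refine ⟨B', hB', ?_⟩
      intro U δ h P F σ hR hD ς hς hςc
      have h1 : (((k + 1 : ℕ) : ℝ) + 1) * ς = ((k : ℝ) + 1) * ς + ς := by
        push_cast
        ring
      rw [h1] at hςc ⊢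
      refine hI' U δ h P F σ hR hD _ ς (by positivity) hς hςc ?_
      exact hI U δ h P F σ hR hD ς hς (by linarith)
  obtain ⟨k, hk⟩ : ∃ k, n = k + 1 := ⟨n - 1, by omega⟩
  obtain ⟨B, hB, hI⟩ := key k 1 (by omega) le_rfl
  refine ⟨B, hB, ?_⟩
  intro U δ h P F σ hR hD ς hς hςc
  have h1 : (n : ℝ) = (k : ℝ) + 1 := by
    rw [hk]
    push_cast
    ring
  rw [h1] at hςc ⊢
  exact hI U δ h P F σ hR hD ς hς hςc

end Pool.Agent.MPca0fc2.FD
end

section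

/-! The end of the descent: the functions. -/

set_option autoImplicit false

open Metric Set MeasureTheory Filter Topology

namespace Pool.Agent.MPca0fc2.FD

variable {n : ℕ} {Y V : Type*} [NormedAddCommGroup Y] [NormedSpace ℂ Y] [NormedAddCommGroup V]
  [NormedSpace ℂ V] [FiniteDimensional ℂ Y] [FiniteDimensional ℂ V]

omit [FiniteDimensional ℂ V] in
theorem K5_db_cont {W : Set (Ec n)} (hW : IsOpen W) {η : Ec n → V} (hη : ContDiffOn ℝ 1 η W)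
    (X : Ec n) : ContinuousOn (fun ζ => db η ζ X) W := by
  have h1 : ContinuousOn (fderiv ℝ η) W := hη.continuousOn_fderiv_of_isOpen hW le_rfl
  unfold db
  exact continuousOn_const.smul ((h1.clm_apply continuousOn_const).add
    (continuousOn_const.smul (h1.clm_apply continuousOn_const)))

omit [FiniteDimensional ℂ V] in
theorem K5_dbf_cont {W : Set (Ec n)} (hW : IsOpen W) {q : ℕ} {η : Fm n q V}
    (hη : ∀ I, ContDiffOn ℝ 1 (η I) W) (J : Fin (q + 1) → Fin n) :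
    ContinuousOn (dbf η J) W := by
  unfold dbf
  exact continuousOn_finsetSum _ fun i _ => continuousOn_const.smul (K5_db_cont hW (hη _) _)

omit [FiniteDimensional ℂ V] in
theorem K5_dbf_zero (η : Fm n 0 V) (N : Ec n → V) (hN : ∀ I, η I = N) (J : Fin 1 → Fin n)
    (z : Ec n) : dbf η J z = db N z (ee (J 0)) := by
  unfold dbf
  rw [Fin.sum_univ_succ, Finset.univ_eq_empty, Finset.sum_empty, add_zero, hN]
  show ((-1 : ℂ) ^ 0) • db N z (ee (J 0)) = _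
  rw [pow_zero, one_smul]

/-- Integration of a form of degree one which is almost closed.
PROOF. `Geo_shift`, `PG_shift`; `D₁ = δ - s`, `D₂ = δ - (s + ς)`. `N = Sop U D₁ h ε Ψ Fin.elim0` (a function), with the
tolerance `e / 2` in `Rop_lim` (`s := ς`; `Kc U D₁ ⊆ W`), `ε ≤ 1`. `Sop_c1`: `N` is `C¹` on `Om U D₁`. By
`koppelman` (`q = 0`) at `z ∈ Om U D₂ ⊆ Om U D₁`: `dbf (Sop Ψ) J z = Rop Ψ J z - Sop (dbf Ψ) J z`, so
`‖dbf (Sop Ψ) J z - Ψ J z‖ ≤ e / 2 + Cs e₁`, with `Cs` of `Sop_sup` (constants `c / 2`, `C`, `q = 1`, `s₀ = ς`;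
`D₁ z ≥ ς` on `Om U D₂`; `dbf Ψ` is continuous on `W`: unfold, derivatives of `C¹` functions), where `e₁` is the bound
of `dbf Ψ`. Finally `db N z X = ∑ k, conj (X k) • db N z (ee k)` (`db_conj_lin`; `X = ∑ X k • ee k`) and
`dbf (fun _ => N) J z = db N z (ee (J 0))` (`Fin 1`), where `fun _ : Fin 0 → Fin n => N` equals `Sop ..`
(`Fin 0 → Fin n` has one element). -/
theorem one_form (hn : 2 ≤ n) (c C : ℝ) (ς : ℝ) (hς : 0 < ς) :
    ∃ Cs : ℝ, 0 < Cs ∧ ∀ (U : Set (Ec n)) (δ : Ec n → ℝ) (h : Ec n → Ec n → Fin n → ℂ),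
      Geo U δ h c C → ∀ s : ℝ, 0 < s → s + ς ≤ c / 2 → ∀ (W : Set (Ec n)) (Ψ : Fm n 1 V),
      IsOpen W → Kc U (fun z => δ z - s) ⊆ W → AltF Ψ → (∀ I, ContDiffOn ℝ 1 (Ψ I) W) →
      ∀ e e₁ : ℝ, 0 < e → (∀ z ∈ Om U (fun z => δ z - s), ∀ I, ‖dbf Ψ I z‖ ≤ e₁) → 0 ≤ e₁ →
      ∃ N : Ec n → V, ContDiffOn ℝ 1 N (Om U (fun z => δ z - s)) ∧
        ∀ z ∈ Om U (fun z => δ z - (s + ς)), ∀ I : Fin 1 → Fin n,
          ‖db N z (ee (I 0)) - Ψ I z‖ ≤ e + Cs * e₁ := by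
  obtain ⟨Cs, hCs, hSop⟩ := Sop_sup (V := V) hn (c / 2) C 1 (by omega) ς hς
  refine ⟨Cs, hCs, ?_⟩
  intro U δ h hg s hs hss W Ψ hW hK hA hΨ e e₁ he hb he₁
  have hg1 : Geo U (fun z => δ z - s) h (c / 2) C := Geo_shift hg hs.le (by linarith)
  have hΨc : ∀ I, ContinuousOn (Ψ I) W := fun I => (hΨ I).continuousOn
  obtain ⟨ε, hε, hε1, hR⟩ := Rop_lim hg1 hK hΨc hA hς he
  refine ⟨Sop U (fun z => δ z - s) h ε Ψ Fin.elim0, Sop_c1 hg1 hε hK hΨc _, ?_⟩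
  rintro z ⟨hzU, hz0⟩ I
  have hz0' : 0 < δ z - (s + ς) := hz0
  have hz : z ∈ Om U (fun z => δ z - s) := ⟨hzU, show 0 < δ z - s by linarith⟩
  have hςz : ς ≤ (fun z => δ z - s) z := show ς ≤ δ z - s by linarith
  have h1 := koppelman hg1 hε hW hK hΨ I hz
  rw [K5_dbf_zero (Sop U (fun z => δ z - s) h ε Ψ) (Sop U (fun z => δ z - s) h ε Ψ Fin.elim0)
    (fun J => by rw [Subsingleton.elim J Fin.elim0]) I z] at h1
  have h2 := hR ε hε le_rfl I z hz hςz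
  have h3 := hSop U (fun z => δ z - s) h hg1 ε hε hε1 W (dbf Ψ) e₁ he₁ hK
    (fun J => K5_dbf_cont hW hΨ J) (fun J ζ hζ => hb ζ hζ J) I z hz hςz
  have h4 : db (Sop U (fun z => δ z - s) h ε Ψ Fin.elim0) z (ee (I 0)) - Ψ I z =
      (Rop U (fun z => δ z - s) h ε Ψ I z - Ψ I z) - Sop U (fun z => δ z - s) h ε (dbf Ψ) I z := by
    rw [h1]
    abel
  rw [h4]
  exact (norm_sub_le _ _).trans (add_le_add h2 h3)

/-- A function with bounded `∂̄` is close to a holomorphic one.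
PROOF. `κ`, `C'` of `SE_bd`. `H = PE P U δ h κ N`, holomorphic by `PE_hol`. For `z ∈ Om U δ`: `wkoppelman` gives
`RE ε N z - PE N z = SE ε N z`, of norm at most `C' B`, for all `ε ∈ (0, 1]`, and `RE ε N z → N z` (`RE_lim`):
`le_of_tendsto` with the filter `𝓝[>] 0` (eventually `0 < ε ≤ 1`). -/
theorem near_hol (hn : 2 ≤ n) (c C A : ℝ) (R : ℕ) :
    ∃ C' : ℝ, 0 < C' ∧ ∀ (U : Set (Ec n)) (δ : Ec n → ℝ) (h : Ec n → Ec n → Fin n → ℂ)
      (P : PD n), P.R = R → Geo U δ h c C → PG P U δ h c C A →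
      ∀ (W : Set (Ec n)) (N : Ec n → V) (B : ℝ), 0 ≤ B → IsOpen W → Kc U δ ⊆ W →
      ContDiffOn ℝ 1 N W → (∀ ζ ∈ Om U δ, ∀ X, ‖db N ζ X‖ ≤ B * Ene P δ ζ * gau δ h ζ X) →
      ∃ H : Ec n → V, DifferentiableOn ℂ H (Om U δ) ∧ ∀ z ∈ Om U δ, ‖N z - H z‖ ≤ C' * B := by
  obtain ⟨κ, C', hκ, hC', hSE⟩ := SE_bd (V := V) hn c C A R
  refine ⟨C', hC', ?_⟩
  intro U δ h P hR hg hP W N B hB hW hK hN hdN
  refine ⟨PE P U δ h κ N, PE_hol hg hP κ hK hN.continuousOn, ?_⟩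
  intro z hz
  have h1 := RE_lim hg hP κ hK hN.continuousOn hz
  have h2 : Tendsto (fun ε => ‖RE P U δ h κ ε N z - PE P U δ h κ N z‖) (𝓝[>] 0)
      (𝓝 ‖N z - PE P U δ h κ N z‖) := (h1.sub_const _).norm
  refine le_of_tendsto h2 ?_
  filter_upwards [Ioc_mem_nhdsGT (zero_lt_one' ℝ)] with ε hε
  have h3 := wkoppelman hg hP κ hε.1 hz hW hK hN
  rw [h3, add_sub_cancel_left]
  exact hSE U δ h P hR hg hP ε hε.1 hε.2 W N B hB hW hK hN hdN z hz

/-- A function with small `∂̄` is close to a holomorphic one.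
PROOF. `H = Pop U δ h N`, holomorphic by `Pop_hol`. `koppelman0`:
`Rop ε N z = Pop N z + Sop ε (dbf N) z`. By `Rop_lim` (with the tolerance `e`; `AltF` is trivial for `q = 0`:
the permutations of `Fin 0` are the identity) choose `ε ≤ 1` with `‖Rop ε N z - N z‖ ≤ e` for `δ z ≥ ς`, and
`‖Sop ε (dbf N) z‖ ≤ Cs e₁` by `Sop_sup` with `q = 0`, `s₀ = ς`. -/
theorem proj_near (hn : 2 ≤ n) (c C : ℝ) (ς : ℝ) (hς : 0 < ς) :
    ∃ Cs : ℝ, 0 < Cs ∧ ∀ (U : Set (Ec n)) (δ : Ec n → ℝ) (h : Ec n → Ec n → Fin n → ℂ),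
      Geo U δ h c C → ∀ (W : Set (Ec n)) (N : Ec n → V), IsOpen W → Kc U δ ⊆ W →
      ContDiffOn ℝ 1 N W → ∀ e e₁ : ℝ, 0 < e → 0 ≤ e₁ →
      (∀ z ∈ Om U δ, ∀ k, ‖db N z (ee k)‖ ≤ e₁) →
      ∃ H : Ec n → V, DifferentiableOn ℂ H (Om U δ) ∧
        ∀ z ∈ Om U δ, ς ≤ δ z → ‖H z - N z‖ ≤ e + Cs * e₁ := by
  obtain ⟨Cs, hCs, hSop⟩ := Sop_sup (V := V) hn c C 0 (Nat.zero_le n) ς hς
  refine ⟨Cs, hCs, ?_⟩
  intro U δ h hg W N hW hK hN e e₁ he he₁ hb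
  refine ⟨Pop U δ h N, Pop_hol hg hK hN.continuousOn, ?_⟩
  have hA : AltF (fun _ : Fin 0 → Fin n => N) := by
    intro σ I z
    rw [Subsingleton.elim σ 1, Equiv.Perm.sign_one]
    simp
  obtain ⟨ε, hε, hε1, hR⟩ := Rop_lim hg hK (η := fun _ : Fin 0 → Fin n => N)
    (fun _ => hN.continuousOn) hA hς he
  intro z hz hςz
  have h1 := koppelman0 hg hε hW hK hN Fin.elim0 hz
  have h2 := hR ε hε le_rfl Fin.elim0 z hz hςz
  have h3 := hSop U δ h hg ε hε hε1 W (dbf (fun _ : Fin 0 → Fin n => N)) e₁ he₁ hK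
    (fun J => K5_dbf_cont hW (fun _ => hN) J) (fun J ζ hζ => by
      rw [K5_dbf_zero _ N (fun _ => rfl) J ζ]
      exact hb ζ hζ (J 0)) Fin.elim0 z hz hςz
  have h4 : Pop U δ h N z - N z = (Rop U δ h ε (fun _ : Fin 0 → Fin n => N) Fin.elim0 z - N z) -
      Sop U δ h ε (dbf (fun _ : Fin 0 → Fin n => N)) Fin.elim0 z := by
    rw [h1]
    abel
  rw [h4]
  exact (norm_sub_le _ _).trans (add_le_add h2 h3)

omit [FiniteDimensional ℂ V] in
theorem K5_db_sum (N : Ec n → V) (z X : Ec n) (t : Finset (Fin n)) :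
    db N z (∑ k ∈ t, X k • ee k) = ∑ k ∈ t, (starRingEnd ℂ) (X k) • db N z (ee k) := by
  classical
  induction t using Finset.induction_on with
  | empty =>
    rw [Finset.sum_empty, Finset.sum_empty]
    unfold db
    rw [smul_zero, map_zero, smul_zero, add_zero, smul_zero]
  | insert a t ha ih =>
    rw [Finset.sum_insert ha, Finset.sum_insert ha, db_conj_lin, ih]

theorem K5_basis (X : Ec n) : ∑ k, X k • ee k = X := by
  ext j
  have h1 : (∑ k, X k • (ee k : Ec n)) j = ∑ k, (X k • (ee k : Ec n)) j := by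
    rw [WithLp.ofLp_sum, Finset.sum_apply]
  rw [h1]
  rw [Finset.sum_eq_single j]
  · show X j * (ee j : Ec n) j = X j
    unfold ee
    rw [PiLp.single_apply, if_pos rfl, mul_one]
  · intro k _ hk
    show X k * (ee k : Ec n) j = 0
    unfold ee
    rw [PiLp.single_apply, if_neg (fun h => hk h.symm), mul_zero]
  · intro h
    exact absurd (Finset.mem_univ j) h

omit [FiniteDimensional ℂ V] in
theorem K5_ev_one (N : Ec n → V) (z X : Ec n) :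
    ev (fun (I : Fin 1 → Fin n) z => db N z (ee (I 0))) z (fun _ => X) = db N z X := by
  have h1 : ev (fun (I : Fin 1 → Fin n) z => db N z (ee (I 0))) z (fun _ => X) =
      ∑ I : Fin 1 → Fin n, (starRingEnd ℂ) (X (I 0)) • db N z (ee (I 0)) := by
    unfold ev
    refine Finset.sum_congr rfl fun I _ => ?_
    rw [Fin.prod_univ_succ, Finset.univ_eq_empty, Finset.prod_empty, mul_one]
  rw [h1]
  have h2 := (Equiv.funUnique (Fin 1) (Fin n)).sum_comp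
    (fun k : Fin n => (starRingEnd ℂ) (X k) • db N z (ee k))
  have h3 : ∀ I : Fin 1 → Fin n, (Equiv.funUnique (Fin 1) (Fin n)) I = I 0 := fun I => rfl
  rw [Finset.sum_congr rfl fun I _ => by rw [h3 I]] at h2
  rw [h2, ← K5_db_sum N z X Finset.univ, K5_basis]

omit [FiniteDimensional ℂ Y] [FiniteDimensional ℂ V] in
theorem K5_c1 (K : QT.Car Y V) {F : Ec n → Y →L[ℂ] ℂ} {W : Set (Ec n)}
    (hF : ContDiffOn ℝ 1 F W) {η : Ec n → V} (hη : ContDiffOn ℝ 1 η W) :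
    ContDiffOn ℝ 1 (fun z => K.c (F z) (η z)) W := by
  have h1 : ContDiffOn ℝ 1 (fun z => K.c (F z)) W :=
    ((K.c.restrictScalars ℝ).contDiff).comp_contDiffOn hF
  have h2 : ContDiffOn ℝ 1
      (fun z => (ContinuousLinearMap.restrictScalarsL ℂ V V ℝ ℝ) (K.c (F z))) W :=
    ((ContinuousLinearMap.restrictScalarsL ℂ V V ℝ ℝ).contDiff).comp_contDiffOn h1
  exact h2.clm_apply hη

omit [FiniteDimensional ℂ V] in
theorem K5_db_sub {f g : Ec n → V} {z : Ec n} (hf : DifferentiableAt ℝ f z)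
    (hg : DifferentiableAt ℝ g z) (X : Ec n) :
    db (fun y => f y - g y) z X = db f z X - db g z X := by
  unfold db
  have h1 : fderiv ℝ (fun y => f y - g y) z = fderiv ℝ f z - fderiv ℝ g z := fderiv_fun_sub hf hg
  rw [h1, sub_apply, sub_apply]
  module

omit [FiniteDimensional ℂ Y] [FiniteDimensional ℂ V] in
theorem K5_cnorm (K : QT.Car Y V) {F : Y →L[ℂ] ℂ} {M : ℝ} (hF : ‖F‖ ≤ M) (x : V) :
    ‖K.c F x‖ ≤ ‖K.c‖ * M * ‖x‖ := by
  refine ((K.c F).le_opNorm x).trans ?_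
  refine mul_le_mul_of_nonneg_right ?_ (norm_nonneg _)
  exact (K.c.le_opNorm F).trans (mul_le_mul_of_nonneg_left hF (norm_nonneg _))

omit [FiniteDimensional ℂ Y] [FiniteDimensional ℂ V] in
theorem K5_UU0 (K : QT.Car Y V) (σ : Ec n → Y) (J : Fin 0 → Fin n) (z : Ec n) :
    UU K σ 0 J z = K.a (σ z) K.Ω := by
  show ((Nat.factorial 0 : ℕ) : ℂ) • K.a (σ z) K.Ω = _
  rw [Nat.factorial_zero, Nat.cast_one, one_smul]

/-- The solution in the Koszul algebra.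
PROOF. Let `B₁` be the constant of `desc_one`, `D₁ = δ - n ς`, `D₂ = δ - (n + 1) ς`, `D₃ = δ - (n + 2) ς`,
`D₄ = δ - (n + 3) ς`. All of them have `Geo .. (c/2) C` and `PG .. (c/2) C A`. Given `e' > 0` small (chosen below,
depending on `e`, `ς` and the constants), `desc_one` gives `Ψ` with `‖dbf Ψ‖ ≤ e₁`, and `one_form` gives `N`, `C¹` on
`Om U D₁ ⊇ Kc U D₂` (`Om_shift`), with `‖db N z (ee (I 0)) - Ψ I z‖ ≤ e'` on `Om U D₂` (take the first tolerance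
`e' / 2` and `e₁ = e' / (2 Cs)`).
`Bd`: `Bd U D₂ h P (B₁ + 1) (dbf N)`: `Ψ` is in `Bd U D₂ h P B₁` (`Bd_shift`), the difference in `Bd U D₂ h P 1` by
`Bd_small` for `e'` small. So `‖db N z X‖ ≤ (B₁ + 1) Ene P D₂ z gau D₂ h z X` for `z ∈ Om U D₂` (for degree one,
`ev (dbf N) z (fun _ => X) = db N z X`). `near_hol` on `D₂`: `H₁` holomorphic on `Om U D₂`,
`‖N - H₁‖ ≤ C' (B₁ + 1)`. Let `H₀ z = UU K σ 0 Fin.elim0 z - K.c (F z) (N z - H₁ z)`, `C¹` on `Om U D₂ ⊇ Kc U D₃`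
(`UU_c1`, `F` and `H₁` are `C¹` there as holomorphic functions, `hol_c2`), `‖H₀‖ ≤ ‖K.a‖ C₁ ‖K.Ω‖ + ‖K.c‖ M C' (B₁ + 1)`,
`K.c (F z) (H₀ z) = K.Ω` (`c_UU0`, `cc_zero`), and
`db H₀ z (ee k) = K.c (F z) (UU K σ 1 ![k] z) - K.c (F z) (db N z (ee k)) = K.c (F z) (Ψ ![k] z - db N z (ee k))`
(`koszul_eq` with `r = 0`, `db_c`, `db` of the holomorphic `H₁` is `0`: `db_hol`, and the property of `Ψ` on `Om U D₁`),
so `‖db H₀ z (ee k)‖ ≤ ‖K.c‖ M e'`. `proj_near` on `D₃` (with `ς`): `H` holomorphic on `Om U D₃ ⊇ Om U D₄`,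
`‖H - H₀‖ ≤ e₂` on `Om U D₄`, with `e₂` as small as we want, in particular `e₂ ≤ 1` and `‖K.c‖ M e₂ ≤ e`. So
`‖H‖ ≤ B := ‖K.a‖ C₁ ‖K.Ω‖ + ‖K.c‖ M C' (B₁ + 1) + 1`, `‖K.c (F z) (H z) - K.Ω‖ ≤ e`. -/
theorem kd_solve (hn : 2 ≤ n) (K : QT.Car Y V) (c C A M C₁ G : ℝ) (R : ℕ) :
    ∃ B : ℝ, 0 ≤ B ∧ ∀ (U : Set (Ec n)) (δ : Ec n → ℝ) (h : Ec n → Ec n → Fin n → ℂ)
      (P : PD n) (F : Ec n → Y →L[ℂ] ℂ) (σ : Ec n → Y), P.R = R → KD P U δ h F σ c C A M C₁ G →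
      ∀ ς : ℝ, 0 < ς → (n + 3) * ς ≤ c / 2 → ∀ e : ℝ, 0 < e → ∃ H : Ec n → V,
        DifferentiableOn ℂ H (Om U (fun z => δ z - (n + 3) * ς)) ∧
        (∀ z ∈ Om U (fun z => δ z - (n + 3) * ς), ‖H z‖ ≤ B) ∧
        ∀ z ∈ Om U (fun z => δ z - (n + 3) * ς), ‖K.c (F z) (H z) - K.Ω‖ ≤ e := by
  obtain ⟨B₁, hB₁, hdesc⟩ := desc_one hn K c C A M C₁ G R
  obtain ⟨C', hC', hnear⟩ := near_hol (V := V) hn (c / 2) C A R
  obtain ⟨Cb, hCb, hsmall⟩ := Bd_small (V := V) n (c / 2) C 1 le_rfl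
  have hX0 : 0 ≤ ‖K.a‖ * |C₁| * ‖K.Ω‖ := by positivity
  have hX1 : 0 ≤ ‖K.c‖ * |M| * (C' * (B₁ + 1)) := by positivity
  refine ⟨‖K.a‖ * |C₁| * ‖K.Ω‖ + ‖K.c‖ * |M| * (C' * (B₁ + 1)) + 1, by linarith, ?_⟩
  intro U δ h P F σ hR hKD ς hς hςc e he
  have hg := hKD.geo
  have hM : |M| = M := abs_of_nonneg hKD.M0
  have hC₁ : |C₁| = C₁ := abs_of_nonneg hKD.C0
  have hc0 : 0 < c := hg.c0
  have hn2 : (2 : ℝ) ≤ n := by exact_mod_cast hn
  have hnς : 0 < (n : ℝ) * ς := mul_pos (by linarith) hς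
  have e3 : ((n : ℝ) + 3) * ς = n * ς + 3 * ς := by ring
  rw [e3] at hςc
  obtain ⟨Cs1, hCs1, hone⟩ := one_form (V := V) hn c C ς hς
  obtain ⟨Cs2, hCs2, hproj⟩ := proj_near (V := V) hn (c / 2) C ς hς
  have hKM : 0 ≤ ‖K.c‖ * M := mul_nonneg (ContinuousLinearMap.opNorm_nonneg K.c) hKD.M0
  -- the small constants
  obtain ⟨e₂, he₂0, he₂1, he₂e⟩ : ∃ e₂ : ℝ, 0 < e₂ ∧ e₂ ≤ 1 ∧ ‖K.c‖ * M * e₂ ≤ e := by
    refine ⟨min 1 (e / (‖K.c‖ * M + 1)), lt_min one_pos (by positivity), min_le_left _ _, ?_⟩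
    have h1 : min 1 (e / (‖K.c‖ * M + 1)) ≤ e / (‖K.c‖ * M + 1) := min_le_right _ _
    have h2 : ‖K.c‖ * M * min 1 (e / (‖K.c‖ * M + 1)) ≤ ‖K.c‖ * M * (e / (‖K.c‖ * M + 1)) :=
      mul_le_mul_of_nonneg_left h1 hKM
    refine h2.trans ?_
    rw [mul_div_assoc', div_le_iff₀ (by linarith)]
    linarith
  obtain ⟨e', he'0, he'1, he'2⟩ : ∃ e' : ℝ, 0 < e' ∧ Cb * e' ≤ 1 ∧
      Cs2 * (‖K.c‖ * M * e') ≤ e₂ / 2 := by
    have hD : 0 < 2 * (Cs2 * (‖K.c‖ * M) + 1) := by positivity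
    refine ⟨min (1 / Cb) (e₂ / (2 * (Cs2 * (‖K.c‖ * M) + 1))),
      lt_min (by positivity) (by positivity), ?_, ?_⟩
    · refine (mul_le_mul_of_nonneg_left (min_le_left _ _) hCb.le).trans ?_
      rw [mul_one_div, div_self hCb.ne']
    · have h1 : min (1 / Cb) (e₂ / (2 * (Cs2 * (‖K.c‖ * M) + 1))) ≤
        e₂ / (2 * (Cs2 * (‖K.c‖ * M) + 1)) := min_le_right _ _
      have h2 : Cs2 * (‖K.c‖ * M * min (1 / Cb) (e₂ / (2 * (Cs2 * (‖K.c‖ * M) + 1)))) ≤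
          Cs2 * (‖K.c‖ * M * (e₂ / (2 * (Cs2 * (‖K.c‖ * M) + 1)))) :=
        mul_le_mul_of_nonneg_left (mul_le_mul_of_nonneg_left h1 hKM) hCs2.le
      refine h2.trans ?_
      have h3 : Cs2 * (‖K.c‖ * M * (e₂ / (2 * (Cs2 * (‖K.c‖ * M) + 1)))) =
          (Cs2 * (‖K.c‖ * M) * e₂) / (2 * (Cs2 * (‖K.c‖ * M) + 1)) := by ring
      rw [h3, div_le_div_iff₀ hD (by norm_num : (0 : ℝ) < 2)]
      have h4 : 0 ≤ Cs2 * (‖K.c‖ * M) := by positivity
      nlinarith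
  have he₁0 : 0 < e' / (2 * Cs1) := by positivity
  obtain ⟨W, Ψ, hW, hKW, hWO, hA, hΨ, hBd, hcΨ, hdΨ⟩ :=
    hdesc U δ h P F σ hR hKD ς hς (by linarith) (e' / (2 * Cs1)) he₁0
  obtain ⟨N, hN, hNΨ⟩ := hone U δ h hg (n * ς) hnς (by linarith) W Ψ hW hKW hA hΨ (e' / 2)
    (e' / (2 * Cs1)) (by linarith) (fun z hz I => hdΨ z hz I) he₁0.le
  have he'' : e' / 2 + Cs1 * (e' / (2 * Cs1)) = e' := by
    field_simp
    ring
  rw [he''] at hNΨ
  -- the domains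
  have hg1 : Geo U (fun z => δ z - n * ς) h (c / 2) C := Geo_shift hg hnς.le (by linarith)
  have hg2 : Geo U (fun z => δ z - (n * ς + ς)) h (c / 2) C :=
    Geo_shift hg (by linarith) (by linarith)
  have hg3 : Geo U (fun z => δ z - (n * ς + 2 * ς)) h (c / 2) C :=
    Geo_shift hg (by linarith) (by linarith)
  have hP2 : PG P U (fun z => δ z - (n * ς + ς)) h (c / 2) C A :=
    PG_shift hc0 hKD.pg (by linarith)
  have hO0 := Om_open hg
  have hO1 := Om_open hg1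
  have hO2 := Om_open hg2
  have hO3 := Om_open hg3
  have hK2 : Kc U (fun z => δ z - (n * ς + ς)) ⊆ Om U (fun z => δ z - n * ς) :=
    Om_shift (by linarith)
  have hK3 : Kc U (fun z => δ z - (n * ς + 2 * ς)) ⊆ Om U (fun z => δ z - (n * ς + ς)) :=
    Om_shift (by linarith)
  have s10 : Om U (fun z => δ z - n * ς) ⊆ Om U δ := by
    rintro z ⟨hz, h0⟩
    have h1 : 0 < δ z - n * ς := h0
    exact ⟨hz, by linarith⟩
  have s21 : Om U (fun z => δ z - (n * ς + ς)) ⊆ Om U (fun z => δ z - n * ς) := by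
    rintro z ⟨hz, h0⟩
    have h1 : 0 < δ z - (n * ς + ς) := h0
    exact ⟨hz, show 0 < δ z - n * ς by linarith⟩
  have s32 : Om U (fun z => δ z - (n * ς + 2 * ς)) ⊆ Om U (fun z => δ z - (n * ς + ς)) := by
    rintro z ⟨hz, h0⟩
    have h1 : 0 < δ z - (n * ς + 2 * ς) := h0
    exact ⟨hz, show 0 < δ z - (n * ς + ς) by linarith⟩
  have s20 := s21.trans s10
  -- the bound of the derivative of `N`
  have hPs : ∀ r, ∀ η ∈ P.S r, ‖η‖ < 1 := hKD.pg.sub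
  have hbd1 : Bd U (fun z => δ z - (n * ς + ς)) h P B₁ Ψ :=
    Bd_shift hPs (by linarith) hB₁ le_rfl hBd
  have hbd2 : Bd U (fun z => δ z - (n * ς + ς)) h P (Cb * e')
      (fun (I : Fin 1 → Fin n) z => db N z (ee (I 0)) - Ψ I z) :=
    hsmall U _ h P A hg2 hP2 _ e' he'0.le fun I z hz => hNΨ z hz I
  have hbd3 := Bd_add hbd1 (Bd_mono hPs he'1 hbd2)
  have hbd4 : Bd U (fun z => δ z - (n * ς + ς)) h P (B₁ + 1)
      (fun (I : Fin 1 → Fin n) z => db N z (ee (I 0))) := by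
    have h1 : (fun (I : Fin 1 → Fin n) (z : Ec n) => Ψ I z + (db N z (ee (I 0)) - Ψ I z)) =
        fun I z => db N z (ee (I 0)) := by
      funext I z
      abel
    rw [h1] at hbd3
    exact hbd3
  have hdN : ∀ ζ ∈ Om U (fun z => δ z - (n * ς + ς)), ∀ X, ‖db N ζ X‖ ≤
      (B₁ + 1) * Ene P (fun z => δ z - (n * ς + ς)) ζ *
        gau (fun z => δ z - (n * ς + ς)) h ζ X := by
    intro ζ hζ X
    have h1 := hbd4 ζ hζ (fun _ => X)
    rw [K5_ev_one, Fin.prod_univ_succ, Finset.univ_eq_empty, Finset.prod_empty, mul_one] at h1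
    exact h1
  obtain ⟨H₁, hH₁, hNH⟩ := hnear U _ h P hR hg2 hP2 (Om U (fun z => δ z - n * ς)) N (B₁ + 1)
    (by linarith) hO1 hK2 hN hdN
  -- the function `H₀`
  have hF1 : ContDiffOn ℝ 1 F (Om U δ) := (hol_c2 hO0 hKD.F_hol).of_le (by norm_num)
  have hH1c : ContDiffOn ℝ 1 H₁ (Om U (fun z => δ z - (n * ς + ς))) :=
    (hol_c2 hO2 hH₁).of_le (by norm_num)
  have hN2 : ContDiffOn ℝ 1 N (Om U (fun z => δ z - (n * ς + ς))) := hN.mono s21
  have hNH1 : ContDiffOn ℝ 1 (fun z => N z - H₁ z) (Om U (fun z => δ z - (n * ς + ς))) :=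
    hN2.sub hH1c
  have hUc : ContDiffOn ℝ 1 (UU K σ 0 Fin.elim0) (Om U (fun z => δ z - (n * ς + ς))) :=
    (UU_c1 K hO0 hKD.σ_c2 0 Fin.elim0).mono s20
  have hcc : ContDiffOn ℝ 1 (fun z => K.c (F z) (N z - H₁ z))
      (Om U (fun z => δ z - (n * ς + ς))) := K5_c1 K (hF1.mono s20) hNH1
  have hH0 : ContDiffOn ℝ 1 (fun z => UU K σ 0 Fin.elim0 z - K.c (F z) (N z - H₁ z))
      (Om U (fun z => δ z - (n * ς + ς))) := hUc.sub hcc
  have hdH0 : ∀ z ∈ Om U (fun z => δ z - (n * ς + ς)), ∀ k,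
      ‖db (fun z => UU K σ 0 Fin.elim0 z - K.c (F z) (N z - H₁ z)) z (ee k)‖ ≤
        ‖K.c‖ * M * e' := by
    intro z hz k
    have hnh := hO2.mem_nhds hz
    have hz0 := s20 hz
    have d1 : DifferentiableAt ℝ (UU K σ 0 Fin.elim0) z :=
      (hUc.differentiableOn one_ne_zero).differentiableAt hnh
    have d2 : DifferentiableAt ℝ (fun z => K.c (F z) (N z - H₁ z)) z :=
      (hcc.differentiableOn one_ne_zero).differentiableAt hnh
    have d3 : DifferentiableAt ℝ (fun z => N z - H₁ z) z :=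
      (hNH1.differentiableOn one_ne_zero).differentiableAt hnh
    have d4 : DifferentiableAt ℝ N z := (hN2.differentiableOn one_ne_zero).differentiableAt hnh
    have d5 : DifferentiableAt ℂ H₁ z := hH₁.differentiableAt hnh
    have d5' : DifferentiableAt ℝ H₁ z :=
      (hH1c.differentiableOn one_ne_zero).differentiableAt hnh
    have d6 : DifferentiableAt ℂ F z := hKD.F_hol.differentiableAt (hO0.mem_nhds hz0)
    have d7 : ContDiffAt ℝ 2 σ z := hKD.σ_c2.contDiffAt (hO0.mem_nhds hz0)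
    rw [K5_db_sub d1 d2, db_c K d6 d3, K5_db_sub d4 d5', db_hol d5, sub_zero]
    have h1 := koszul_eq K d7 (hKD.one z hz0) (hKD.zero z hz0) 0 (fun _ => k)
    rw [K5_dbf_zero (UU K σ 0) (UU K σ 0 Fin.elim0)
      (fun J => by rw [Subsingleton.elim J Fin.elim0])] at h1
    rw [h1, ← hcΨ z (s21 hz) (fun _ => k), ← map_sub]
    refine (K5_cnorm K (hKD.F_le z hz0) _).trans ?_
    refine mul_le_mul_of_nonneg_left ?_ hKM
    rw [norm_sub_rev]
    exact hNΨ z hz (fun _ => k)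
  obtain ⟨H, hH, hHH⟩ := hproj U _ h hg3 (Om U (fun z => δ z - (n * ς + ς)))
    (fun z => UU K σ 0 Fin.elim0 z - K.c (F z) (N z - H₁ z)) hO2 hK3 hH0 (e₂ / 2)
    (‖K.c‖ * M * e') (by linarith) (mul_nonneg hKM he'0.le) (fun z hz k => hdH0 z (s32 hz) k)
  have s43 : Om U (fun z => δ z - (n + 3) * ς) ⊆ Om U (fun z => δ z - (n * ς + 2 * ς)) := by
    rintro z ⟨hz, h0⟩
    have h1 : 0 < δ z - (n + 3) * ς := h0
    exact ⟨hz, show 0 < δ z - (n * ς + 2 * ς) by linarith⟩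
  have hclose : ∀ z ∈ Om U (fun z => δ z - (n + 3) * ς),
      ‖H z - (UU K σ 0 Fin.elim0 z - K.c (F z) (N z - H₁ z))‖ ≤ e₂ := by
    intro z hz
    have h1 : 0 < δ z - (n + 3) * ς := hz.2
    refine (hHH z (s43 hz) (show ς ≤ δ z - (n * ς + 2 * ς) by linarith)).trans ?_
    linarith
  refine ⟨H, hH.mono s43, ?_, ?_⟩
  · intro z hz
    have hz2 := s32 (s43 hz)
    have hz0 := s20 hz2
    have h1 := hclose z hz
    have h2 : ‖H z‖ ≤ ‖H z - (UU K σ 0 Fin.elim0 z - K.c (F z) (N z - H₁ z))‖ +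
        ‖UU K σ 0 Fin.elim0 z - K.c (F z) (N z - H₁ z)‖ := by
      have := norm_add_le (H z - (UU K σ 0 Fin.elim0 z - K.c (F z) (N z - H₁ z)))
        (UU K σ 0 Fin.elim0 z - K.c (F z) (N z - H₁ z))
      rw [sub_add_cancel] at this
      exact this
    have h3 : ‖UU K σ 0 Fin.elim0 z‖ ≤ ‖K.a‖ * C₁ * ‖K.Ω‖ := by
      rw [K5_UU0]
      refine ((K.a (σ z)).le_opNorm _).trans ?_
      refine mul_le_mul_of_nonneg_right ?_ (norm_nonneg _)
      exact (K.a.le_opNorm _).trans (mul_le_mul_of_nonneg_left (hKD.σ_le z hz0) (norm_nonneg _))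
    have h4 : ‖K.c (F z) (N z - H₁ z)‖ ≤ ‖K.c‖ * M * (C' * (B₁ + 1)) :=
      (K5_cnorm K (hKD.F_le z hz0) _).trans (mul_le_mul_of_nonneg_left (hNH z hz2) hKM)
    have h5 := norm_sub_le (UU K σ 0 Fin.elim0 z) (K.c (F z) (N z - H₁ z))
    rw [hM, hC₁]
    linarith
  · intro z hz
    have hz0 := s20 (s32 (s43 hz))
    have h1 : K.c (F z) (UU K σ 0 Fin.elim0 z - K.c (F z) (N z - H₁ z)) = K.Ω := by
      rw [map_sub, c_UU0 K σ z (hKD.one z hz0), cc_zero, sub_zero]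
    have h2 : K.c (F z) (H z) - K.Ω =
        K.c (F z) (H z - (UU K σ 0 Fin.elim0 z - K.c (F z) (N z - H₁ z))) := by
      rw [map_sub, h1]
    rw [h2]
    exact ((K5_cnorm K (hKD.F_le z hz0) _).trans
      (mul_le_mul_of_nonneg_left (hclose z hz) hKM)).trans he₂e

end Pool.Agent.MPca0fc2.FD
end
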