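import Pool.Agent.Lib.MP_ca0fc2_an.GW.C5
import Pool.Agent.Lib.MP_ca0fc2_an.FD.J4
import Pool.Agent.Lib.MP_ca0fc2_an.GW.B13
import Pool.Agent.Lib.MP_ca0fc2_an.Mg.G057

section

/-! The operators and the density `G` (compare `FD/J4.lean`). -/

set_option autoImplicit false

open Metric Set MeasureTheory Filter Topology

namespace Pool.Agent.MPca0fc2.GW

open Pool.Agent.MPca0fc2.FD

variable {n : ℕ} {V : Type*} [NormedAddCommGroup V] [NormedSpace ℂ V] [FiniteDimensional ℂ V]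

/-- powers of a number at least `1 / 2` -/
private theorem J4g_pow {ρ : ℝ} (hρ : 1 ≤ 2 * ρ) {a b : ℕ} (hab : a ≤ b) :
    ρ ^ a ≤ 2 ^ b * ρ ^ b := by
  have h0 : 0 ≤ ρ := by linarith
  rw [← mul_pow]
  calc ρ ^ a ≤ (2 * ρ) ^ a := pow_le_pow_left₀ h0 (by linarith) a
    _ ≤ (2 * ρ) ^ b := pow_le_pow_right₀ hρ hab

private theorem J4g_ev_le {q : ℕ} {η : Fm n q V} {z : Ec n} {e : ℝ} (he : ∀ I, ‖η I z‖ ≤ e)
    (X : Fin q → Ec n) : ‖ev η z X‖ ≤ (n : ℝ) ^ q * e * ∏ i, ‖X i‖ := by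
  unfold ev
  have hP : 0 ≤ ∏ i, ‖X i‖ := Finset.prod_nonneg fun i _ => norm_nonneg _
  calc ‖∑ I : Fin q → Fin n, (∏ i, (starRingEnd ℂ) (X i (I i))) • η I z‖
      ≤ ∑ I : Fin q → Fin n, ‖(∏ i, (starRingEnd ℂ) (X i (I i))) • η I z‖ := norm_sum_le _ _
    _ ≤ ∑ _I : Fin q → Fin n, (∏ i, ‖X i‖) * e := by
        refine Finset.sum_le_sum fun I _ => ?_
        rw [norm_smul]
        refine mul_le_mul ?_ (he I) (norm_nonneg _) hP
        rw [norm_prod]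
        refine Finset.prod_le_prod (fun i _ => norm_nonneg _) fun i _ => ?_
        rw [RCLike.norm_conj]
        exact PiLp.norm_apply_le _ _
    _ = (n : ℝ) ^ q * e * ∏ i, ‖X i‖ := by
        rw [Finset.sum_const, Finset.card_univ, nsmul_eq_mul]
        simp
        ring

private theorem J4g_gau_prod {U : Set (Ec n)} {δ : Ec n → ℝ} {h : Ec n → Ec n → Fin n → ℂ}
    {z : Ec n} (hz : z ∈ Om U δ) {q : ℕ} (X : Fin q → Ec n) :
    ∏ i, ‖X i‖ ≤ (Real.sqrt (δ z)) ^ q * ∏ i, gau δ h z (X i) := by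
  calc ∏ i, ‖X i‖ ≤ ∏ i, (Real.sqrt (δ z) * gau δ h z (X i)) :=
        Finset.prod_le_prod (fun i _ => norm_nonneg _) fun i _ => gau_ge hz.2 _
    _ = (Real.sqrt (δ z)) ^ q * ∏ i, gau δ h z (X i) := by
        rw [Finset.prod_mul_distrib, Finset.prod_const, Finset.card_univ, Fintype.card_fin]

private theorem J4g_ρ {U : Set (Ec n)} {δ : Ec n → ℝ} {h : Ec n → Ec n → Fin n → ℂ} {c C : ℝ}
    (hg : Geo U δ h c C) {z ζ : Ec n} (hz : z ∈ Om U δ) (hζ : ζ ∈ Om U δ) :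
    1 ≤ 2 * (‖vv δ h z ζ‖ / δ ζ) := by
  have h1 := (v_lb hg hz hζ).2.1
  have h2 : 0 < δ ζ := hζ.2
  rw [← mul_div_assoc, le_div_iff₀ h2]
  linarith

/-- two geometric series -/
private theorem J4g_sum_min {V R α : ℝ} (hV : 0 < V) (hR : 0 < R) (hα : 0 < α) :
    Summable (fun l : ℕ => (min (R / 2 ^ l / V) (V / (R / 2 ^ l))) ^ α) ∧
    ∑' l : ℕ, (min (R / 2 ^ l / V) (V / (R / 2 ^ l))) ^ α ≤ 2 / (1 - (1 / 2 : ℝ) ^ α) := by
  set q : ℝ := (1 / 2 : ℝ) ^ α with hq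
  have hq0 : 0 < q := by positivity
  have hq1 : q < 1 := Real.rpow_lt_one (by norm_num) (by norm_num) hα
  have hqp : ∀ k : ℕ, ((1 / 2 : ℝ) ^ k) ^ α = q ^ k := by
    intro k
    rw [hq, ← Real.rpow_natCast, ← Real.rpow_mul (by norm_num), mul_comm,
      Real.rpow_mul (by norm_num), Real.rpow_natCast]
  have hex : ∃ M : ℕ, R / V < 2 ^ M := pow_unbounded_of_one_lt _ (by norm_num)
  classical
  set M := Nat.find hex with hM
  have hM1 : R / V < 2 ^ M := Nat.find_spec hex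
  have hM2 : ∀ l < M, 2 ^ l ≤ R / V := fun l hl => not_lt.1 (Nat.find_min hex hl)
  set f : ℕ → ℝ := fun l => (min (R / 2 ^ l / V) (V / (R / 2 ^ l))) ^ α with hf
  have hf0 : ∀ l, 0 ≤ f l := fun l => by
    rw [hf]; positivity
  have h1 : ∀ l < M, f l ≤ q ^ (M - 1 - l) := by
    intro l hl
    rw [hf, ← hqp]
    refine Real.rpow_le_rpow (by positivity) ?_ hα.le
    refine le_trans (min_le_right _ _) ?_
    have h2 := hM2 (M - 1) (by omega)
    have h3 : (2 : ℝ) ^ (M - 1) = 2 ^ l * 2 ^ (M - 1 - l) := by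
      rw [← pow_add]; congr 1; omega
    rw [h3, le_div_iff₀ hV] at h2
    rw [div_le_iff₀ (by positivity), one_div, inv_pow]
    rw [← div_eq_inv_mul, div_div, le_div_iff₀ (by positivity)]
    calc V * (2 ^ l * 2 ^ (M - 1 - l)) = 2 ^ l * 2 ^ (M - 1 - l) * V := by ring
      _ ≤ R := h2
  have h2 : ∀ l, f (l + M) ≤ q ^ l := by
    intro l
    rw [hf, ← hqp]
    refine Real.rpow_le_rpow (by positivity) ?_ hα.le
    refine le_trans (min_le_left _ _) ?_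
    rw [div_lt_iff₀ hV] at hM1
    rw [div_div, div_le_iff₀ (by positivity), one_div, inv_pow, pow_add]
    calc R ≤ 2 ^ M * V := hM1.le
      _ = (2 ^ l)⁻¹ * (2 ^ l * 2 ^ M * V) := by field_simp
  have hs : Summable (fun l => f (l + M)) :=
    Summable.of_nonneg_of_le (fun l => hf0 _) h2 (summable_geometric_of_lt_one hq0.le hq1)
  have hs' : Summable f := (summable_nat_add_iff M).1 hs
  refine ⟨hs', ?_⟩
  have h3 : ∑' l, f l = ∑ l ∈ Finset.range M, f l + ∑' l, f (l + M) :=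
    (Summable.sum_add_tsum_nat_add M hs').symm
  have h4 : ∑' l, f (l + M) ≤ (1 - q)⁻¹ := by
    rw [← tsum_geometric_of_lt_one hq0.le hq1]
    exact Summable.tsum_le_tsum h2 hs (summable_geometric_of_lt_one hq0.le hq1)
  have h5 : ∑ l ∈ Finset.range M, f l ≤ (1 - q)⁻¹ := by
    calc ∑ l ∈ Finset.range M, f l ≤ ∑ l ∈ Finset.range M, q ^ (M - 1 - l) :=
          Finset.sum_le_sum fun l hl => h1 l (Finset.mem_range.1 hl)
      _ = ∑ l ∈ Finset.range M, q ^ l := Finset.sum_range_reflect (fun l => q ^ l) M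
      _ ≤ ∑' l, q ^ l := (summable_geometric_of_lt_one hq0.le hq1).sum_le_tsum _
          (fun l _ => by positivity)
      _ = (1 - q)⁻¹ := tsum_geometric_of_lt_one hq0.le hq1
  have h6 : ∑' l, f l ≤ (1 - q)⁻¹ + (1 - q)⁻¹ := by rw [h3]; linarith
  calc ∑' l, f l ≤ (1 - q)⁻¹ + (1 - q)⁻¹ := h6
    _ = 2 / (1 - q) := by rw [div_eq_mul_inv]; ring

/-- Two geometric series. PROOF. As `sum_min` of `FD/J2.lean`: if `R / 2^l ≥ V` the term is `(V 2^l / R)^γ`, otherwise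
`(R / (2^l V))^γ`; both families are bounded by geometric sequences with the ratio `2^(-γ)` (compare with the index
`l₀` where `R / 2^l₀ ≈ V`). -/
theorem min_pow_sum {γ : ℝ} (hγ : 0 < γ) : ∃ K : ℝ, 0 < K ∧ ∀ {V R : ℝ}, 0 < V → 0 < R →
    Summable (fun l : ℕ => (min (R / 2 ^ l / V) (V / (R / 2 ^ l))) ^ γ) ∧
    ∑' l : ℕ, (min (R / 2 ^ l / V) (V / (R / 2 ^ l))) ^ γ ≤ K := by
  have hq1 : (1 / 2 : ℝ) ^ γ < 1 := Real.rpow_lt_one (by norm_num) (by norm_num) hγ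
  exact ⟨2 / (1 - (1 / 2 : ℝ) ^ γ), div_pos two_pos (by linarith), fun hV hR =>
    J4g_sum_min hV hR hγ⟩


/-- The unweighted operator is bounded on the classes `Bg`, if the result has positive degree.
Notation: `s = δ ζ`, `t = ‖v(z, ζ)‖`, `δz = δ z`.
PROOF. `Sop_bound` with `Nf = B G`, and `‖Y i‖ ≤ √δz gau(z, Y i)` (`gau_ge`): it is enough that
`∫⁻ Kh ((δz / s)^(q/2) G(ζ)) ≤ C₁ G(z)`. `GD.har`: `G(ζ) ≤ A (t / s)³ (max (s / δz) (δz / s))^(3/8) G(z)`.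
CLAIM: `(δz / s)^(q/2) (t / s)³ (max (s / δz) (δz / s))^(3/8) ≤ C₃ (t / s)^(n+5) (min (s / δz) (δz / s))^(1/8)`.
If `s ≥ δz`: `(δz / s)^(q/2) ≤ (δz / s)^(1/2)` and `(δz / s)^(1/2) (s / δz)^(3/8) = (δz / s)^(1/8)`, `(t / s)³ ≤ C (t / s)^(n+5)`
since `t / s ≥ 1 / 2` (`v_lb`). If `s < δz`: `δz / s ≤ 2 t / s` and `2 t / s ≥ 1`; `(δz / s)^(q/2) (δz / s)^(3/8) (δz / s)^(1/8)
≤ (2 t / s)^(n / 2 + 1 / 2) ≤ (2 t / s)^(n + 2)`. For `s ∈ (C / 2^(l+1), C / 2^l]`,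
`min (s / δz) (δz / s) ≤ 2 min (s_l / δz) (δz / s_l)`, `s_l = C / 2^l`. So `master` (with `R := C`) applies with
`Γ l = C₄ G(z) (min (s_l / δz) (δz / s_l))^(1/8)`, and `∑ Γ l ≤ C₅ G(z)` (two geometric series; the lemma `min_pow_sum` below). -/
theorem Sop_bg (hn : 2 ≤ n) (c C A : ℝ) (q : ℕ) (hq : 1 ≤ q) (hqn : q ≤ n) :
    ∃ C' : ℝ, 0 < C' ∧ ∀ (U : Set (Ec n))
    (δ : Ec n → ℝ) (h : Ec n → Ec n → Fin n → ℂ) (G : Ec n → ℝ), Geo U δ h c C →
    GD U δ h G A → ∀ ε : ℝ, 0 < ε → ε ≤ 1 → ∀ (W : Set (Ec n)) (η : Fm n (q + 1) V) (B : ℝ),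
    0 ≤ B → Kc U δ ⊆ W → (∀ I, ContinuousOn (η I) W) → Bg U δ h G B η →
    Bg U δ h G (C' * B) (Sop U δ h ε η) := by
  by_cases hcC : (0 < c ∧ 1 ≤ C) ∧ 1 ≤ A
  swap
  · exact ⟨1, one_pos, fun U δ h G hG hD => absurd ⟨⟨hG.c0, hG.C1⟩, hD.A1⟩ hcC⟩
  obtain ⟨⟨hc, hC⟩, hA⟩ := hcC
  have hC0 : 0 < C := by linarith
  have hA0 : 0 < A := by linarith
  obtain ⟨C₁, hC₁, hS⟩ := Sop_bound (V := V) hn c C q
  obtain ⟨C₂, hC₂, hM⟩ := master hn c C
  obtain ⟨K, hK0, hKs⟩ := min_pow_sum (γ := 1 / 8) (by norm_num)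
  refine ⟨C₁ * (C₂ * (K * (A * (2 ^ (n + 5) * 2)))), by positivity, ?_⟩
  intro U δ h G hg hG ε hε hε1 W η B hB hK hη hb z hz Y
  have hδz : 0 < δ z := hz.2
  have hG0 : ∀ w ∈ Om U δ, 0 ≤ G w := fun w hw => by
    have h1 := hG.lo w hw
    have h2 : 0 < δ w := hw.2
    have h3 : 0 ≤ (δ w) ^ (1 / 4 : ℝ) := by positivity
    by_contra h4
    rw [not_le] at h4
    nlinarith [mul_pos_of_neg_of_neg h4 (neg_lt_zero.2 hA0)]
  have hEz := hG0 z hz
  have h1 := hS U δ h hg ε hε hε1 W η (fun ζ => B * G ζ) hK hη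
    (fun ζ hζ => mul_nonneg hB (hG0 ζ hζ)) (fun ζ hζ X => hb ζ hζ X) z hz Y
  set D : ℝ := (Real.sqrt (δ z)) ^ q with hD
  have hD0 : 0 < D := by positivity
  have h5 := hM U δ h hg C le_rfl z hz
    (fun ζ => D * (((Real.sqrt (δ ζ))⁻¹) ^ q * (B * G ζ)))
    (fun l => A * (2 ^ (n + 5) * 2) * B * G z *
      (min (C / 2 ^ l / δ z) (δ z / (C / 2 ^ l))) ^ (1 / 8 : ℝ))
    (fun l => by positivity) (by
      intro l ζ hζ hl1 hl2
      have hδ : 0 < δ ζ := hζ.2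
      have hρ := J4g_ρ hg hz hζ
      have hv := v_lb hg hz hζ
      have hEk := hG.har z hz ζ hζ
      set t := ‖vv δ h z ζ‖ with ht
      set ρ := t / δ ζ with hρd
      have hρ0 : 0 < ρ := by linarith
      set s := δ ζ with hs
      set m := (min (C / 2 ^ l / δ z) (δ z / (C / 2 ^ l))) ^ (1 / 8 : ℝ) with hm
      have hm0 : 0 ≤ m := by positivity
      -- the scalar claim
      have hcl : D * ((Real.sqrt s)⁻¹) ^ q * ρ ^ 3 * (max (s / δ z) (δ z / s)) ^ (3 / 8 : ℝ) ≤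
          2 ^ (n + 5) * ρ ^ (n + 5) * (2 * m) := by
        have hms : (min (s / δ z) (δ z / s)) ^ (1 / 8 : ℝ) ≤ 2 * m := by
          have h6 : min (s / δ z) (δ z / s) ≤
              2 * min (C / 2 ^ l / δ z) (δ z / (C / 2 ^ l)) := by
            rw [mul_min_of_nonneg _ _ (by norm_num : (0 : ℝ) ≤ 2)]
            refine le_min ?_ ?_
            · refine (min_le_left _ _).trans ?_
              have h7 : s / δ z ≤ C / 2 ^ l / δ z := by gcongr
              have h8 : 0 ≤ C / 2 ^ l / δ z := by positivity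
              linarith
            · refine (min_le_right _ _).trans ?_
              rw [← mul_div_assoc, div_le_div_iff₀ hδ (by positivity)]
              have h9 : C / 2 ^ l ≤ 2 * s := by
                have h10 : C / 2 ^ (l + 1) = C / 2 ^ l / 2 := by rw [pow_succ]; field_simp
                rw [h10] at hl1
                linarith
              nlinarith
          calc (min (s / δ z) (δ z / s)) ^ (1 / 8 : ℝ) ≤
                (2 * min (C / 2 ^ l / δ z) (δ z / (C / 2 ^ l))) ^ (1 / 8 : ℝ) :=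
                Real.rpow_le_rpow (by positivity) h6 (by norm_num)
            _ = 2 ^ (1 / 8 : ℝ) * m := by rw [Real.mul_rpow (by norm_num) (by positivity)]
            _ ≤ 2 * m := by
                gcongr
                calc (2 : ℝ) ^ (1 / 8 : ℝ) ≤ 2 ^ (1 : ℝ) :=
                      Real.rpow_le_rpow_of_exponent_le (by norm_num) (by norm_num)
                  _ = 2 := Real.rpow_one 2
        have hDs : D * ((Real.sqrt s)⁻¹) ^ q = (Real.sqrt (δ z / s)) ^ q := by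
          rw [hD, ← mul_pow, Real.sqrt_div hδz.le, div_eq_mul_inv]
        rw [hDs]
        rcases le_or_gt (δ z) s with h11 | h11
        · have h12 : min (s / δ z) (δ z / s) = δ z / s := by
            apply min_eq_right
            exact ((div_le_one hδ).2 h11).trans ((one_le_div hδz).2 h11)
          have h12' : max (s / δ z) (δ z / s) = s / δ z := by
            apply max_eq_left
            exact ((div_le_one hδ).2 h11).trans ((one_le_div hδz).2 h11)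
          rw [h12] at hms
          rw [h12']
          have h13 : (Real.sqrt (δ z / s)) ^ q ≤ (δ z / s) ^ (1 / 2 : ℝ) := by
            calc (Real.sqrt (δ z / s)) ^ q ≤ (Real.sqrt (δ z / s)) ^ 1 :=
                  pow_le_pow_of_le_one (Real.sqrt_nonneg _)
                    (Real.sqrt_le_one.2 ((div_le_one hδ).2 h11)) hq
              _ = (δ z / s) ^ (1 / 2 : ℝ) := by rw [pow_one, Real.sqrt_eq_rpow]
          have h14 : (δ z / s) ^ (1 / 2 : ℝ) * (s / δ z) ^ (3 / 8 : ℝ) =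
              (δ z / s) ^ (1 / 8 : ℝ) := by
            have h15 : (s / δ z) = (δ z / s)⁻¹ := by rw [inv_div]
            rw [h15, Real.inv_rpow (by positivity), ← Real.rpow_neg (by positivity),
              ← Real.rpow_add (by positivity)]
            norm_num
          have h16 : ρ ^ 3 ≤ 2 ^ (n + 5) * ρ ^ (n + 5) := J4g_pow hρ (by omega)
          calc (Real.sqrt (δ z / s)) ^ q * ρ ^ 3 * (s / δ z) ^ (3 / 8 : ℝ)
              ≤ (δ z / s) ^ (1 / 2 : ℝ) * ρ ^ 3 * (s / δ z) ^ (3 / 8 : ℝ) := by gcongr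
            _ = ρ ^ 3 * ((δ z / s) ^ (1 / 2 : ℝ) * (s / δ z) ^ (3 / 8 : ℝ)) := by ring
            _ = ρ ^ 3 * (δ z / s) ^ (1 / 8 : ℝ) := by rw [h14]
            _ ≤ (2 ^ (n + 5) * ρ ^ (n + 5)) * (2 * m) := by gcongr
        · have h12 : min (s / δ z) (δ z / s) = s / δ z := by
            apply min_eq_left
            exact ((div_le_one hδz).2 h11.le).trans ((one_le_div hδ).2 h11.le)
          have h12' : max (s / δ z) (δ z / s) = δ z / s := by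
            apply max_eq_right
            exact ((div_le_one hδz).2 h11.le).trans ((one_le_div hδ).2 h11.le)
          rw [h12] at hms
          rw [h12']
          set x := δ z / s with hx
          have hx0 : 0 < x := by positivity
          have hx1 : 1 ≤ x := (one_le_div hδ).2 h11.le
          have hxr : x ≤ 2 * ρ := by
            rw [hx, hρd, ← mul_div_assoc]
            gcongr
            exact hv.1
          have hsx : s / δ z = x⁻¹ := by rw [hx, inv_div]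
          have hsq1 : 1 ≤ Real.sqrt x := Real.one_le_sqrt.2 hx1
          have h13 : (Real.sqrt x) ^ q * x ^ (3 / 8 : ℝ) * x ^ (1 / 8 : ℝ) ≤ x ^ q := by
            have h14 : x ^ (3 / 8 : ℝ) * x ^ (1 / 8 : ℝ) = Real.sqrt x := by
              rw [← Real.rpow_add hx0, Real.sqrt_eq_rpow]
              norm_num
            rw [mul_assoc, h14, ← pow_succ]
            calc (Real.sqrt x) ^ (q + 1) ≤ (Real.sqrt x) ^ (2 * q) :=
                  pow_le_pow_right₀ hsq1 (by omega)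
              _ = x ^ q := by rw [pow_mul, Real.sq_sqrt hx0.le]
          have h15 : x ^ (1 / 8 : ℝ) * (s / δ z) ^ (1 / 8 : ℝ) = 1 := by
            rw [hsx, Real.inv_rpow hx0.le]
            exact mul_inv_cancel₀ (by positivity)
          have h17 : x ^ q * ρ ^ 3 ≤ 2 ^ (n + 5) * ρ ^ (n + 5) := by
            rw [← mul_pow 2 ρ (n + 5)]
            calc x ^ q * ρ ^ 3 ≤ (2 * ρ) ^ q * (2 * ρ) ^ 3 := by
                  gcongr
                  linarith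
              _ = (2 * ρ) ^ (q + 3) := by rw [pow_add]
              _ ≤ (2 * ρ) ^ (n + 5) := pow_le_pow_right₀ hρ (by omega)
          calc (Real.sqrt x) ^ q * ρ ^ 3 * x ^ (3 / 8 : ℝ)
              = (Real.sqrt x) ^ q * ρ ^ 3 * x ^ (3 / 8 : ℝ) *
                (x ^ (1 / 8 : ℝ) * (s / δ z) ^ (1 / 8 : ℝ)) := by rw [h15, mul_one]
            _ = ((Real.sqrt x) ^ q * x ^ (3 / 8 : ℝ) * x ^ (1 / 8 : ℝ)) * ρ ^ 3 *
                (s / δ z) ^ (1 / 8 : ℝ) := by ring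
            _ ≤ x ^ q * ρ ^ 3 * (s / δ z) ^ (1 / 8 : ℝ) := by gcongr
            _ ≤ (2 ^ (n + 5) * ρ ^ (n + 5)) * (2 * m) := by gcongr
      calc D * (((Real.sqrt s)⁻¹) ^ q * (B * G ζ))
          ≤ D * (((Real.sqrt s)⁻¹) ^ q * (B * (A * ρ ^ 3 *
            (max (s / δ z) (δ z / s)) ^ (3 / 8 : ℝ) * G z))) := by
            gcongr
        _ = (D * ((Real.sqrt s)⁻¹) ^ q * ρ ^ 3 * (max (s / δ z) (δ z / s)) ^ (3 / 8 : ℝ)) *
            (A * B * G z) := by ring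
        _ ≤ (2 ^ (n + 5) * ρ ^ (n + 5) * (2 * m)) * (A * B * G z) := by gcongr
        _ = ρ ^ (n + 5) * (A * (2 ^ (n + 5) * 2) * B * G z * m) := by ring)
  obtain ⟨h6, h7⟩ := hKs (V := δ z) (R := C) hδz hC0
  rw [← ENNReal.ofReal_tsum_of_nonneg (fun l => by positivity) (h6.mul_left _), tsum_mul_left,
    ← ENNReal.ofReal_mul hC₂.le] at h5
  have hgau : 0 ≤ ∏ i, gau δ h z (Y i) := Finset.prod_nonneg fun i _ => gau_nonneg hδz _
  have h8 : ENNReal.ofReal (D⁻¹) * ∫⁻ ζ in Om U δ, ENNReal.ofReal (Kh δ h z ζ *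
      (D * (((Real.sqrt (δ ζ))⁻¹) ^ q * (B * G ζ)))) =
      ∫⁻ ζ in Om U δ, ENNReal.ofReal (Kh δ h z ζ *
      (((Real.sqrt (δ ζ))⁻¹) ^ q * (B * G ζ))) := by
    rw [← lintegral_const_mul' _ _ ENNReal.ofReal_ne_top]
    refine lintegral_congr fun ζ => ?_
    rw [← ENNReal.ofReal_mul (by positivity)]
    congr 1
    field_simp
  rw [← h8] at h1
  have h9 : ENNReal.ofReal ‖ev (Sop U δ h ε η) z Y‖ ≤
      ENNReal.ofReal (C₁ * (D * ∏ i, gau δ h z (Y i)) * (D⁻¹ *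
        (C₂ * (A * (2 ^ (n + 5) * 2) * B * G z * K)))) := by
    refine h1.trans ?_
    have h11 : ENNReal.ofReal (C₁ * (D * ∏ i, gau δ h z (Y i)) * (D⁻¹ *
        (C₂ * (A * (2 ^ (n + 5) * 2) * B * G z * K)))) =
        ENNReal.ofReal (C₁ * (D * ∏ i, gau δ h z (Y i))) * (ENNReal.ofReal D⁻¹ *
          ENNReal.ofReal (C₂ * (A * (2 ^ (n + 5) * 2) * B * G z * K))) := by
      rw [ENNReal.ofReal_mul (by positivity), ← ENNReal.ofReal_mul (p := D⁻¹) (by positivity)]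
    rw [h11]
    refine mul_le_mul' (ENNReal.ofReal_le_ofReal ?_) (mul_le_mul_right ?_ _)
    · exact mul_le_mul_of_nonneg_left (J4g_gau_prod (h := h) hz Y) hC₁.le
    · refine h5.trans (ENNReal.ofReal_le_ofReal ?_)
      gcongr
  have h10 := (ENNReal.ofReal_le_ofReal_iff (by positivity)).1 h9
  refine h10.trans (le_of_eq ?_)
  field_simp

/-- PROOF. `wSE_bound` with `Nf = B G`; by `GX.rb`, `1 + δζ t ‖R‖ ≤ (4 + A) (t / s)²` (as `t / s ≥ 1/2`), and by `GX.ex` the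
integrand is at most `Kh (4 + A) (t / s)² B (t / s)⁵ Γ l`, `7 ≤ n + 5`; `master` with `R := C` and `Γ := C Γ`. -/
theorem wSE_bg (hn : 2 ≤ n) (c C A : ℝ) : ∃ C' : ℝ, 0 < C' ∧
    ∀ (U W : Set (Ec n)) (δ : Ec n → ℝ) (h : Ec n → Ec n → Fin n → ℂ) (G : Ec n → ℝ)
    (Q R : Ec n → Ec n → Fin n → ℂ),
    Geo U δ h c C → GD U δ h G A → GX U δ h G Q R C A → WQ W δ Q R → W ⊆ U → Kc U δ ⊆ W →
    ∀ ε : ℝ, 0 < ε → ε ≤ 1 →
    ∀ (W' : Set (Ec n)) (N : Ec n → V) (B : ℝ), 0 ≤ B → IsOpen W' → Kc U δ ⊆ W' →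
    ContDiffOn ℝ 1 N W' → (∀ ζ ∈ Om U δ, ∀ X, ‖db N ζ X‖ ≤ B * G ζ * gau δ h ζ X) →
    ∀ z ∈ Om U δ, ‖wSE Q U δ h ε N z‖ ≤ C' * B := by
  by_cases hcC : (0 < c ∧ 1 ≤ C) ∧ 1 ≤ A
  swap
  · exact ⟨1, one_pos, fun U W δ h G Q R hG hD => absurd ⟨⟨hG.c0, hG.C1⟩, hD.A1⟩ hcC⟩
  obtain ⟨⟨hc, hC⟩, hA⟩ := hcC
  have hC0 : 0 < C := by linarith
  have hA0 : 0 < A := by linarith
  obtain ⟨C₁, hC₁, hS⟩ := wSE_bound (V := V) hn c C
  obtain ⟨C₂, hC₂, hM⟩ := master hn c C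
  refine ⟨C₁ * (C₂ * (2 ^ (n + 5) * (4 + A) * A)), by positivity, ?_⟩
  intro U W δ h G Q R hg hG hX hQ hWU hKW ε hε hε1 W' N B hB hW' hKW' hN hb z hz
  have hG0 : ∀ w ∈ Om U δ, 0 ≤ G w := fun w hw => by
    have h1 := hG.lo w hw
    have h2 : 0 < δ w := hw.2
    have h3 : 0 ≤ (δ w) ^ (1 / 4 : ℝ) := by positivity
    by_contra h4
    rw [not_le] at h4
    nlinarith [mul_pos_of_neg_of_neg h4 (neg_lt_zero.2 hA0)]
  have h1 := hS U W δ h Q R hg hQ hWU hKW ε hε hε1 W' N (fun ζ => B * G ζ) hW' hKW' hN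
    (fun ζ hζ => mul_nonneg hB (hG0 ζ hζ)) (fun ζ hζ X => hb ζ hζ X) z hz
  obtain ⟨Γ, hΓ0, hΓs, hΓ⟩ := hX.ex z hz
  have h5 := hM U δ h hg C le_rfl z hz
    (fun ζ => ‖Complex.exp (wEx Q z ζ)‖ *
          (1 + δ ζ * ‖vv δ h z ζ‖ * ‖R z ζ‖) * (B * G ζ))
    (fun l => 2 ^ (n + 5) * (4 + A) * B * Γ l)
    (fun l => mul_nonneg (by positivity) (hΓ0 l)) (by
      intro l ζ hζ hl1 hl2
      have hδ : 0 < δ ζ := hζ.2
      have hρ := J4g_ρ hg hz hζ
      have hrb := hX.rb z hz ζ hζ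
      have hex := hΓ l ζ hζ hl1 hl2
      set t := ‖vv δ h z ζ‖ with ht
      set ρ := t / δ ζ with hρd
      have hρ0 : 0 < ρ := by linarith
      set s := δ ζ with hs
      set E := ‖Complex.exp (wEx Q z ζ)‖ with hEd
      have hE0 : 0 ≤ E := norm_nonneg _
      have hΓl := hΓ0 l
      have hGζ := hG0 ζ hζ
      have h17 : 1 + s * t * ‖R z ζ‖ ≤ (4 + A) * ρ ^ 2 := by
        have : 1 ≤ (2 * ρ) ^ 2 := one_le_pow₀ hρ
        nlinarith
      have h18 : 0 ≤ E * G ζ := mul_nonneg hE0 hGζ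
      calc E * (1 + s * t * ‖R z ζ‖) * (B * G ζ)
          = (1 + s * t * ‖R z ζ‖) * (B * (E * G ζ)) := by ring
        _ ≤ ((4 + A) * ρ ^ 2) * (B * (ρ ^ 5 * Γ l)) := by gcongr
        _ = ρ ^ 7 * ((4 + A) * B * Γ l) := by ring
        _ ≤ (2 ^ (n + 5) * ρ ^ (n + 5)) * ((4 + A) * B * Γ l) := by
            gcongr
            exact J4g_pow hρ (by omega)
        _ = ρ ^ (n + 5) * (2 ^ (n + 5) * (4 + A) * B * Γ l) := by ring)
  have h6 : ∑' l, ENNReal.ofReal (2 ^ (n + 5) * (4 + A) * B * Γ l) ≤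
      ENNReal.ofReal (2 ^ (n + 5) * (4 + A) * B * A) := by
    have h7 : ∀ l, ENNReal.ofReal (2 ^ (n + 5) * (4 + A) * B * Γ l) =
        ENNReal.ofReal (2 ^ (n + 5) * (4 + A) * B) * ENNReal.ofReal (Γ l) := fun l =>
      ENNReal.ofReal_mul (by positivity)
    simp_rw [h7]
    rw [ENNReal.tsum_mul_left, ENNReal.ofReal_mul (p := 2 ^ (n + 5) * (4 + A) * B) (by positivity)]
    gcongr
  have h8 : ENNReal.ofReal ‖wSE Q U δ h ε N z‖ ≤
      ENNReal.ofReal (C₁ * (C₂ * (2 ^ (n + 5) * (4 + A) * B * A))) := by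
    rw [ENNReal.ofReal_mul hC₁.le, ENNReal.ofReal_mul hC₂.le]
    refine h1.trans ?_
    gcongr
    refine h5.trans ?_
    gcongr
  have h10 := (ENNReal.ofReal_le_ofReal_iff (by positivity)).1 h8
  refine h10.trans (le_of_eq ?_)
  ring

/-- PROOF. `‖ev η z X‖ ≤ n^q e ∏ ‖X i‖ ≤ n^q e (√δ)^q ∏ gau (X i)` (`gau_ge`), and
`(√δ)^q ≤ C^q δ^(1/4) ≤ C^q A G z` for `q ≥ 1` (`δ ≤ C`, `1 ≤ C`; `GD.lo`). (Compare `Bd_small` in `FD/J4.lean`.) -/
theorem Bg_small (n : ℕ) (c C A : ℝ) (q : ℕ) (hq : 1 ≤ q) : ∃ C' : ℝ, 0 < C' ∧ ∀ (U : Set (Ec n))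
    (δ : Ec n → ℝ) (h : Ec n → Ec n → Fin n → ℂ) (G : Ec n → ℝ), Geo U δ h c C →
    GD U δ h G A → ∀ (η : Fm n q V) (e : ℝ), 0 ≤ e → (∀ I, ∀ z ∈ Om U δ, ‖η I z‖ ≤ e) →
    Bg U δ h G (C' * e) η := by
  by_cases hCA : 1 ≤ C ∧ 1 ≤ A
  swap
  · exact ⟨1, one_pos, fun U δ h G hG hD => absurd ⟨hG.C1, hD.A1⟩ hCA⟩
  obtain ⟨hC, hA⟩ := hCA
  refine ⟨(n : ℝ) ^ q * (Real.sqrt C) ^ q * A + 1, by positivity, ?_⟩
  intro U δ h G hg hG η e he hη z hz X
  have hδ : 0 < δ z := hz.2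
  have hgau : 0 ≤ ∏ i, gau δ h z (X i) := Finset.prod_nonneg fun i _ => gau_nonneg hδ _
  have h1 := J4g_ev_le (z := z) (fun I => hη I z hz) X
  have h2 := J4g_gau_prod (h := h) hz X
  have h3 : (Real.sqrt (δ z)) ^ q ≤ (Real.sqrt C) ^ q * (δ z) ^ (1 / 4 : ℝ) := by
    have hC1 : 1 ≤ (Real.sqrt C) ^ q := one_le_pow₀ (Real.one_le_sqrt.2 hC)
    rcases le_or_gt (δ z) 1 with h4 | h4
    · have h5 : Real.sqrt (δ z) ≤ 1 := Real.sqrt_le_one.2 h4
      calc (Real.sqrt (δ z)) ^ q ≤ (Real.sqrt (δ z)) ^ 1 :=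
            pow_le_pow_of_le_one (Real.sqrt_nonneg _) h5 hq
        _ = (δ z) ^ (1 / 2 : ℝ) := by rw [pow_one, Real.sqrt_eq_rpow]
        _ ≤ (δ z) ^ (1 / 4 : ℝ) := Real.rpow_le_rpow_of_exponent_ge hδ h4 (by norm_num)
        _ ≤ (Real.sqrt C) ^ q * (δ z) ^ (1 / 4 : ℝ) := by
            have : 0 ≤ (δ z) ^ (1 / 4 : ℝ) := by positivity
            nlinarith
    · have h5 : 1 ≤ (δ z) ^ (1 / 4 : ℝ) := Real.one_le_rpow h4.le (by norm_num)
      calc (Real.sqrt (δ z)) ^ q ≤ (Real.sqrt C) ^ q := by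
            gcongr
            exact hg.bδ z hz.1
        _ ≤ (Real.sqrt C) ^ q * (δ z) ^ (1 / 4 : ℝ) := by nlinarith
  have h6 := hG.lo z hz
  have hE : 0 ≤ A * G z := le_trans (by positivity) h6
  have hGz : 0 ≤ G z := by
    by_contra h4
    rw [not_le] at h4
    nlinarith
  calc ‖ev η z X‖ ≤ (n : ℝ) ^ q * e * ∏ i, ‖X i‖ := h1
    _ ≤ (n : ℝ) ^ q * e * ((Real.sqrt (δ z)) ^ q * ∏ i, gau δ h z (X i)) := by gcongr
    _ ≤ (n : ℝ) ^ q * e * (((Real.sqrt C) ^ q * (δ z) ^ (1 / 4 : ℝ)) *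
          ∏ i, gau δ h z (X i)) := by gcongr
    _ ≤ (n : ℝ) ^ q * e * (((Real.sqrt C) ^ q * (A * G z)) * ∏ i, gau δ h z (X i)) := by
        gcongr
    _ = ((n : ℝ) ^ q * (Real.sqrt C) ^ q * A) * e * G z * ∏ i, gau δ h z (X i) := by ring
    _ ≤ ((n : ℝ) ^ q * (Real.sqrt C) ^ q * A + 1) * e * G z * ∏ i, gau δ h z (X i) := by
        gcongr
        linarith

end Pool.Agent.MPca0fc2.GW
end

section

/-! A function with `∂̄N` bounded by the density is near a holomorphic function. -/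

set_option autoImplicit false

open Metric Set MeasureTheory Filter Topology

namespace Pool.Agent.MPca0fc2.GW

open Pool.Agent.MPca0fc2.FD

variable {n : ℕ} {V : Type*} [NormedAddCommGroup V] [NormedSpace ℂ V] [FiniteDimensional ℂ V]


/-- PROOF. As `near_hol` of `FD/K5.lean`, with `wSE_bg`, `wPE_hol`, `gkoppelman`, `wRE_lim`: `H = wPE Q U δ h N`. -/
theorem near_holG (hn : 2 ≤ n) (c C A : ℝ) :
    ∃ C' : ℝ, 0 < C' ∧ ∀ (U W : Set (Ec n)) (δ : Ec n → ℝ) (h : Ec n → Ec n → Fin n → ℂ)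
      (G : Ec n → ℝ) (Q R : Ec n → Ec n → Fin n → ℂ), Geo U δ h c C → GD U δ h G A →
      GX U δ h G Q R C A → WQ W δ Q R → W ⊆ U → Kc U δ ⊆ W →
      ∀ (W' : Set (Ec n)) (N : Ec n → V) (B : ℝ), 0 ≤ B → IsOpen W' → Kc U δ ⊆ W' →
      ContDiffOn ℝ 1 N W' → (∀ ζ ∈ Om U δ, ∀ X, ‖db N ζ X‖ ≤ B * G ζ * gau δ h ζ X) →
      ∃ H : Ec n → V, DifferentiableOn ℂ H (Om U δ) ∧ ∀ z ∈ Om U δ, ‖N z - H z‖ ≤ C' * B := by
  obtain ⟨C', hC', hSE⟩ := wSE_bg (V := V) hn c C A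
  refine ⟨C', hC', ?_⟩
  intro U W δ h G Q R hg hG hX hQ hWU hK W' N B hB hW' hK' hN hdN
  refine ⟨wPE Q U δ h N, wPE_hol hg hQ hWU hK hK' hN.continuousOn, ?_⟩
  intro z hz
  have h1 := wRE_lim hg hQ hWU hK hK' hN.continuousOn hz
  have h2 : Tendsto (fun ε => ‖wRE Q U δ h ε N z - wPE Q U δ h N z‖) (𝓝[>] 0)
      (𝓝 ‖N z - wPE Q U δ h N z‖) := (h1.sub_const _).norm
  refine le_of_tendsto h2 ?_
  filter_upwards [Ioc_mem_nhdsGT (zero_lt_one' ℝ)] with ε hε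
  have h3 := gkoppelman hg hQ hWU hK hε.1 hz hW' hK' hN
  rw [h3, add_sub_cancel_left]
  exact hSE U W δ h G Q R hg hG hX hQ hWU hK ε hε.1 hε.2 W' N B hB hW' hK' hN hdN z hz

/-- A function is near its projection, pointwise.
PROOF. `koppelman0` (with `J = Fin.elim0`): `Rop ε N z = Pop N z + Sop ε (dbf N) z` for `ε > 0`. `Sop_bound` with `q = 0`, the form
`dbf (fun _ : Fin 0 → Fin n => N)` (its components `db N · (ee k)` are continuous on `W'`: `K5_db_cont`; `ev (dbf N) z (fun _ => X) = db N z X`: see the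
proof of `near_hol` / `kd_solve` in `FD/K5.lean`, the lemmas `K5_dbf_zero`, `K5_ev_one`): `‖Sop ε (dbf N) z‖ ≤ C' ∫⁻ Kh Nf`. If the integral is
infinite there is nothing to prove. `Rop ε N z → N z` as `ε → 0` (`Rop_lim` with `s := δ z`; `AltF` is trivial in degree `0`: `proj_near` in `FD/K5.lean`). -/
theorem proj_point (hn : 2 ≤ n) (c C : ℝ) :
    ∃ C' : ℝ, 0 < C' ∧ ∀ (U : Set (Ec n)) (δ : Ec n → ℝ) (h : Ec n → Ec n → Fin n → ℂ),
      Geo U δ h c C → ∀ (W' : Set (Ec n)) (N : Ec n → V) (Nf : Ec n → ℝ), IsOpen W' →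
      Kc U δ ⊆ W' → ContDiffOn ℝ 1 N W' → (∀ ζ ∈ Om U δ, 0 ≤ Nf ζ) →
      (∀ ζ ∈ Om U δ, ∀ X, ‖db N ζ X‖ ≤ Nf ζ * gau δ h ζ X) →
      ∀ z ∈ Om U δ, ENNReal.ofReal ‖N z - Pop U δ h N z‖ ≤ ENNReal.ofReal C' *
        ∫⁻ ζ in Om U δ, ENNReal.ofReal (Kh δ h z ζ * Nf ζ) := by
  obtain ⟨C', hC', hSop⟩ := Sop_bound (V := V) hn c C 0
  refine ⟨C', hC', ?_⟩
  intro U δ h hg W' N Nf hW' hK' hN hNf hdN z hz
  have hA : AltF (fun _ : Fin 0 → Fin n => N) := by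
    intro σ I z
    rw [Subsingleton.elim σ 1, Equiv.Perm.sign_one]
    simp
  have hdz : dbf (fun _ : Fin 0 → Fin n => N) =
      fun (I : Fin 1 → Fin n) z => db N z (ee (I 0)) := by
    funext J z
    exact K5_dbf_zero _ N (fun _ => rfl) J z
  have hev : ∀ (η : Fm n 0 V) (Y : Fin 0 → Ec n), ev η z Y = η Fin.elim0 z := by
    intro η Y
    unfold ev
    rw [Fintype.sum_unique, Finset.univ_eq_empty, Finset.prod_empty, one_smul]
    congr 1
  have key : ∀ ε : ℝ, 0 < ε → ε ≤ 1 →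
      ENNReal.ofReal ‖Sop U δ h ε (dbf (fun _ : Fin 0 → Fin n => N)) Fin.elim0 z‖ ≤
        ENNReal.ofReal C' * ∫⁻ ζ in Om U δ, ENNReal.ofReal (Kh δ h z ζ * Nf ζ) := by
    intro ε hε hε1
    have h1 := hSop U δ h hg ε hε hε1 W' (dbf (fun _ : Fin 0 → Fin n => N)) Nf hK'
      (fun J => K5_dbf_cont hW' (fun _ => hN) J) hNf (fun ζ hζ X => by
        rw [hdz]
        have h2 : X = fun _ => X 0 := by
          funext i
          exact congrArg X (Fin.fin_one_eq_zero i)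
        rw [h2, K5_ev_one, Fin.prod_univ_succ, Finset.univ_eq_empty, Finset.prod_empty, mul_one]
        exact hdN ζ hζ _) z hz (fun i => i.elim0)
    rw [hev] at h1
    simpa using h1
  refine ENNReal.le_of_forall_pos_le_add fun e he _ => ?_
  obtain ⟨ε, hε, hε1, hR⟩ := Rop_lim hg hK' (η := fun _ : Fin 0 → Fin n => N)
    (fun _ => hN.continuousOn) hA (s := δ z) hz.2 (e := (e : ℝ)) (by exact_mod_cast he)
  have h1 := koppelman0 hg hε hW' hK' hN Fin.elim0 hz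
  have h2 := hR ε hε le_rfl Fin.elim0 z hz le_rfl
  have h4 : N z - Pop U δ h N z =
      Sop U δ h ε (dbf (fun _ : Fin 0 → Fin n => N)) Fin.elim0 z -
        (Rop U δ h ε (fun _ : Fin 0 → Fin n => N) Fin.elim0 z - N z) := by
    rw [h1]
    abel
  have h5 : ‖N z - Pop U δ h N z‖ ≤
      ‖Sop U δ h ε (dbf (fun _ : Fin 0 → Fin n => N)) Fin.elim0 z‖ + e := by
    rw [h4]
    exact (norm_sub_le _ _).trans (by linarith)
  refine (ENNReal.ofReal_le_ofReal h5).trans ?_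
  rw [ENNReal.ofReal_add (norm_nonneg _) (by positivity), ENNReal.ofReal_coe_nnreal]
  gcongr
  exact key ε hε hε1

end Pool.Agent.MPca0fc2.GW
end
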