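import Pool.Agent.Lib.MP_ca0fc2_an.GW.E1a
import Pool.Agent.Lib.MP_ca0fc2_an.Mg.G029
import Pool.Agent.Lib.MP_ca0fc2_an.Mg.G052
import Pool.Agent.Lib.MP_ca0fc2_an.Mg.G060
import Pool.Agent.Lib.MP_ca0fc2_an.Mg.G001

section

/-! The holomorphic functions near `conj b (uk (k+1) - uk k)`. -/

set_option autoImplicit false

open Metric Set MeasureTheory Filter Topology

namespace Pool.Agent.MPca0fc2.GW

open Pool.Agent.MPca0fc2.FD

variable {n : ℕ} {U : Set (Ec n)} {δ : Ec n → ℝ} {h : Ec n → Ec n → Fin n → ℂ} {c C A : ℝ}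

/-- the factor of the layers -/
private theorem E1b_pt {y x : ℝ} (hy : 0 < y) (hx : 0 < x) :
    (min 1 (y / x)) ^ (31 / 32 : ℝ) * (min 1 x) ^ (2 : ℝ) * (max 1 x) ^ (1 / 4 : ℝ) ≤
      y ^ (1 / 2 : ℝ) * min (x ^ (1 / 4 : ℝ)) ((x ^ (1 / 4 : ℝ))⁻¹) := by
  have hyx : 0 < y / x := by positivity
  have h1 : (min 1 (y / x)) ^ (31 / 32 : ℝ) ≤ y ^ (1 / 2 : ℝ) * x ^ (-(1 / 2) : ℝ) := by
    have e : y ^ (1 / 2 : ℝ) * x ^ (-(1 / 2) : ℝ) = (y / x) ^ (1 / 2 : ℝ) := by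
      rw [Real.rpow_neg hx.le, Real.div_rpow hy.le hx.le, ← div_eq_mul_inv]
    rw [e]
    rcases le_total 1 (y / x) with h | h
    · rw [min_eq_left h, Real.one_rpow]
      exact Real.one_le_rpow h (by norm_num)
    · rw [min_eq_right h]
      exact Real.rpow_le_rpow_of_exponent_ge hyx h (by norm_num)
  have h2 : x ^ (-(1 / 2) : ℝ) * ((min 1 x) ^ (2 : ℝ) * (max 1 x) ^ (1 / 4 : ℝ)) ≤
      min (x ^ (1 / 4 : ℝ)) ((x ^ (1 / 4 : ℝ))⁻¹) := by
    rw [← Real.rpow_neg hx.le]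
    rcases le_total x 1 with h | h
    · rw [min_eq_right h, max_eq_left h, Real.one_rpow, mul_one, ← Real.rpow_add hx]
      refine le_min ?_ ?_
      · exact Real.rpow_le_rpow_of_exponent_ge hx h (by norm_num)
      · exact Real.rpow_le_rpow_of_exponent_ge hx h (by norm_num)
    · rw [min_eq_left h, max_eq_right h, Real.one_rpow, one_mul, ← Real.rpow_add hx]
      refine le_min ?_ ?_
      · exact Real.rpow_le_rpow_of_exponent_le h (by norm_num)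
      · exact Real.rpow_le_rpow_of_exponent_le h (by norm_num)
  have h3 : 0 ≤ (min 1 x) ^ (2 : ℝ) * (max 1 x) ^ (1 / 4 : ℝ) :=
    mul_nonneg (Real.rpow_nonneg (le_min zero_le_one hx.le) _)
      (Real.rpow_nonneg (le_trans zero_le_one (le_max_left _ _)) _)
  calc (min 1 (y / x)) ^ (31 / 32 : ℝ) * (min 1 x) ^ (2 : ℝ) * (max 1 x) ^ (1 / 4 : ℝ)
      = (min 1 (y / x)) ^ (31 / 32 : ℝ) * ((min 1 x) ^ (2 : ℝ) * (max 1 x) ^ (1 / 4 : ℝ)) := by
        ring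
    _ ≤ (y ^ (1 / 2 : ℝ) * x ^ (-(1 / 2) : ℝ)) *
        ((min 1 x) ^ (2 : ℝ) * (max 1 x) ^ (1 / 4 : ℝ)) := mul_le_mul_of_nonneg_right h1 h3
    _ = y ^ (1 / 2 : ℝ) * (x ^ (-(1 / 2) : ℝ) *
        ((min 1 x) ^ (2 : ℝ) * (max 1 x) ^ (1 / 4 : ℝ))) := by ring
    _ ≤ _ := mul_le_mul_of_nonneg_left h2 (Real.rpow_nonneg hy.le _)

/-- a geometric sum in both directions -/
private theorem E1b_geo {q : ℝ} (hq : 0 < q) (hq1 : q < 1) (N : ℕ) : ∀ t : ℝ, 0 < t →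
    ∑ l ∈ Finset.range N, min (t * q ^ l) ((t * q ^ l)⁻¹) ≤
      if t ≤ 1 then t / (1 - q) else 2 / (1 - q) - q / (1 - q) / t := by
  have h1q : 0 < 1 - q := by linarith
  induction N with
  | zero =>
    intro t ht
    rw [Finset.sum_range_zero]
    split_ifs with h
    · positivity
    · have h2 : q / (1 - q) / t ≤ 2 / (1 - q) := by
        rw [div_div]
        rw [div_le_div_iff₀ (by positivity) h1q]
        have h3 : 1 < t := not_le.1 h
        have h4 : q * (1 - q) ≤ 1 * (1 - q) := mul_le_mul_of_nonneg_right hq1.le h1q.le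
        have h5 : (1 - q) * 1 ≤ (1 - q) * t := mul_le_mul_of_nonneg_left h3.le h1q.le
        nlinarith
      linarith
  | succ N ih =>
    intro t ht
    rw [Finset.sum_range_succ']
    have h2 : ∑ l ∈ Finset.range N, min (t * q ^ (l + 1)) ((t * q ^ (l + 1))⁻¹) =
        ∑ l ∈ Finset.range N, min ((t * q) * q ^ l) (((t * q) * q ^ l)⁻¹) := by
      refine Finset.sum_congr rfl fun l _ => ?_
      rw [pow_succ, mul_assoc t q, mul_comm q]
    rw [h2, pow_zero, mul_one]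
    have h3 := ih (t * q) (by positivity)
    by_cases h : t ≤ 1
    · have h4 : t * q ≤ 1 := by nlinarith
      rw [if_pos h4] at h3
      rw [if_pos h]
      have h5 : min t t⁻¹ ≤ t := min_le_left _ _
      have h6 : t * q / (1 - q) + t = t / (1 - q) := by
        field_simp
        ring
      linarith
    · have h' : 1 < t := not_le.1 h
      rw [if_neg h]
      have h5 : min t t⁻¹ ≤ t⁻¹ := min_le_right _ _
      by_cases h4 : t * q ≤ 1
      · rw [if_pos h4] at h3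
        have h6 : t * q / (1 - q) ≤ 1 / (1 - q) := div_le_div_of_nonneg_right h4 h1q.le
        have h7 : t⁻¹ ≤ 1 := inv_le_one_of_one_le₀ h'.le
        have h8 : q / (1 - q) / t ≤ q / (1 - q) := div_le_self (by positivity) h'.le
        have h9 : 2 / (1 - q) - q / (1 - q) = 1 / (1 - q) + 1 := by
          field_simp
          ring
        linarith
      · rw [if_neg h4] at h3
        have h6 : q / (1 - q) / (t * q) = q / (1 - q) / t + t⁻¹ := by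
          field_simp
          ring
        linarith

private theorem E1b_geo' {q : ℝ} (hq : 0 < q) (hq1 : q < 1) (N : ℕ) {t : ℝ} (ht : 0 < t) :
    ∑ l ∈ Finset.range N, min (t * q ^ l) ((t * q ^ l)⁻¹) ≤ 2 / (1 - q) := by
  have h1q : 0 < 1 - q := by linarith
  refine (E1b_geo hq hq1 N t ht).trans ?_
  split_ifs with h
  · exact div_le_div_of_nonneg_right (by linarith) h1q.le
  · have : 0 ≤ q / (1 - q) / t := by positivity
    linarith

/-- The layer sums.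
PROOF. Let `r l = C / 2^l` (so `∑` over the layers of `δ'`), `τ ≥ e / K₀ > 0`. (a) If `r l ≥ τ`: the term is at most `e^(31/32) (r l)^(1/4 - 31/32) τ^(-1/4)`; geometric series in `l` (exponent `1/4 - 31/32 < 0`), its largest term has
`r l ≈ τ`: `K (e / τ)^(31/32)`. (b) If `e ≤ r l < τ`: `(e / r l)^(31/32) (r l / τ)²`, exponent `2 - 31/32 > 0`, geometric, at most `K (e / τ)^(31/32)`. (c) If `r l < e`: `(r l / τ)²`, geometric, at most `K (e / τ)² ≤ K' (e / τ)^(31/32)`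
(`e / τ ≤ K₀`). And `(e / τ)^(31/32) ≤ K (e / τ)^(1/2)`. -/
theorem layer_sum (C K₀ : ℝ) (hC : 1 ≤ C) (hK₀ : 1 ≤ K₀) : ∃ K : ℝ, 1 ≤ K ∧ ∀ (e τ : ℝ), 0 < e → e ≤ K₀ * τ →
    ∑' l : ℕ, ENNReal.ofReal ((min 1 (e / (C / 2 ^ l))) ^ (31 / 32 : ℝ) *
      (min 1 (C / 2 ^ l / τ)) ^ (2 : ℝ) * (max 1 (C / 2 ^ l / τ)) ^ (1 / 4 : ℝ)) ≤
      ENNReal.ofReal (K * (e / τ) ^ (1 / 2 : ℝ)) := by
  obtain ⟨q, hq⟩ : ∃ q : ℝ, q = (1 / 2) ^ (1 / 4 : ℝ) := ⟨_, rfl⟩
  have hq0 : 0 < q := by rw [hq]; positivity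
  have hq1 : q < 1 := by
    rw [hq]
    exact Real.rpow_lt_one (by norm_num) (by norm_num) (by norm_num)
  have h1q : 0 < 1 - q := by linarith
  refine ⟨2 / (1 - q), ?_, ?_⟩
  · rw [le_div_iff₀ h1q]
    linarith
  intro e τ he heτ
  have hτ : 0 < τ := by
    by_contra h
    have h2 := not_lt.1 h
    have h3 : K₀ * τ ≤ 0 := mul_nonpos_of_nonneg_of_nonpos (by linarith) h2
    linarith
  have hC0 : 0 < C := by linarith
  have hy : 0 < e / τ := by positivity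
  refine ENNReal.tsum_le_of_sum_range_le fun N => ?_
  rw [← ENNReal.ofReal_sum_of_nonneg]
  · refine ENNReal.ofReal_le_ofReal ?_
    have h1 : ∀ l ∈ Finset.range N, (min 1 (e / (C / 2 ^ l))) ^ (31 / 32 : ℝ) *
        (min 1 (C / 2 ^ l / τ)) ^ (2 : ℝ) * (max 1 (C / 2 ^ l / τ)) ^ (1 / 4 : ℝ) ≤
        (e / τ) ^ (1 / 2 : ℝ) * min ((C / τ) ^ (1 / 4 : ℝ) * q ^ l)
          (((C / τ) ^ (1 / 4 : ℝ) * q ^ l)⁻¹) := by
      intro l _
      have hx : 0 < C / 2 ^ l / τ := by positivity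
      have h2 := E1b_pt hy hx
      have e1 : e / τ / (C / 2 ^ l / τ) = e / (C / 2 ^ l) := by
        field_simp
      have e2 : (C / 2 ^ l / τ) ^ (1 / 4 : ℝ) = (C / τ) ^ (1 / 4 : ℝ) * q ^ l := by
        have e3 : C / 2 ^ l / τ = C / τ * (1 / 2) ^ l := by
          rw [one_div, inv_pow]
          field_simp
        rw [e3, Real.mul_rpow (by positivity) (by positivity), hq, ← Real.rpow_natCast,
          ← Real.rpow_natCast, ← Real.rpow_mul (by norm_num), ← Real.rpow_mul (by norm_num),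
          mul_comm (l : ℝ)]
      rw [e1, e2] at h2
      exact h2
    refine (Finset.sum_le_sum h1).trans ?_
    rw [← Finset.mul_sum, mul_comm]
    exact mul_le_mul_of_nonneg_right (E1b_geo' hq0 hq1 N (by positivity))
      (Real.rpow_nonneg hy.le _)
  · intro l _
    refine mul_nonneg (mul_nonneg (Real.rpow_nonneg ?_ _) (Real.rpow_nonneg ?_ _))
      (Real.rpow_nonneg ?_ _)
    · exact le_min zero_le_one (by positivity)
    · exact le_min zero_le_one (by positivity)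
    · exact le_trans zero_le_one (le_max_left _ _)

private theorem E1b_Kc {k : ℕ} (hc : 0 < c) :
    Kc U (fun w => δ w + c / 16 * ek k) ⊆ Dk U δ c k := by
  rintro z ⟨hz, h0⟩
  refine ⟨hz, ?_⟩
  have h1 : 0 ≤ δ z + c / 16 * ek k := h0
  have h2 : 0 < c * ek k := mul_pos hc (ek_pos k)
  show 0 < δ z + c / 8 * ek k
  linarith

private theorem E1b_sub {k : ℕ} (hc : 0 < c) :
    Om U (fun w => δ w + c / 16 * ek k) ⊆ Dk U δ c k := fun _ hz =>
  E1b_Kc hc ⟨hz.1, le_of_lt hz.2⟩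

private theorem E1b_sub32 {k : ℕ} (hc : 0 < c) {z : Ec n}
    (hz : z ∈ Om U (fun w => δ w + c / 32 * ek k)) :
    z ∈ Om U (fun w => δ w + c / 16 * ek k) ∧ c / 32 * ek k < δ z + c / 16 * ek k := by
  have h1 : 0 < δ z + c / 32 * ek k := hz.2
  have h2 : 0 < c * ek k := mul_pos hc (ek_pos k)
  have h3 : c / 32 * ek k < δ z + c / 16 * ek k := by linarith
  have h4 : 0 < c / 32 * ek k := by linarith
  exact ⟨⟨hz.1, h4.trans h3⟩, h3⟩

/-- the powers of `x ≥ 1 / 2` -/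
private theorem E1b_pow {x : ℝ} (hx : 1 / 2 ≤ x) (n : ℕ) :
    x ^ (9 / 4 : ℝ) * x ^ 2 ≤ 2 ^ (n + 5) * x ^ (n + 5) := by
  have h0 : 0 < x := by linarith
  have h1 : 1 ≤ 2 * x := by linarith
  have h2 : x ^ (9 / 4 : ℝ) * x ^ 2 ≤ (2 * x) ^ (9 / 4 : ℝ) * (2 * x) ^ 2 := by
    refine mul_le_mul ?_ ?_ (by positivity) (by positivity)
    · exact Real.rpow_le_rpow h0.le (by linarith) (by norm_num)
    · exact pow_le_pow_left₀ h0.le (by linarith) 2
  have h3 : (2 * x) ^ (9 / 4 : ℝ) ≤ (2 * x) ^ (3 : ℕ) := by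
    rw [← Real.rpow_natCast]
    exact Real.rpow_le_rpow_of_exponent_le h1 (by norm_num)
  calc x ^ (9 / 4 : ℝ) * x ^ 2 ≤ (2 * x) ^ (9 / 4 : ℝ) * (2 * x) ^ 2 := h2
    _ ≤ (2 * x) ^ (3 : ℕ) * (2 * x) ^ 2 := mul_le_mul_of_nonneg_right h3 (by positivity)
    _ = (2 * x) ^ 5 := by ring
    _ ≤ (2 * x) ^ (n + 5) := pow_le_pow_right₀ h1 (by omega)
    _ = 2 ^ (n + 5) * x ^ (n + 5) := mul_pow _ _ _

/-- the factor of the data -/
private theorem E1b_fac {e r dζ c : ℝ} (he : 0 < e) (hr : 0 < r) (hc : 0 < c) (hc1 : c ≤ 1)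
    (h1 : c / 8 * e < dζ) (h2 : r / 2 ≤ dζ) :
    (e / dζ) ^ (31 / 32 : ℝ) ≤ 8 / c * (min 1 (e / r)) ^ (31 / 32 : ℝ) := by
  have hd : 0 < dζ := lt_of_lt_of_le (by positivity) h2
  have h8 : 1 ≤ 8 / c := by
    rw [le_div_iff₀ hc]
    linarith
  have h3 : e / dζ ≤ 8 / c * min 1 (e / r) := by
    rcases le_total 1 (e / r) with h | h
    · rw [min_eq_left h, mul_one, div_le_div_iff₀ hd hc]
      nlinarith
    · rw [min_eq_right h]
      have h4 : e / dζ ≤ 2 * (e / r) := by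
        rw [div_le_iff₀ hd]
        have h5 : 2 * (e / r) * (r / 2) = e := by
          field_simp
        have h6 : 2 * (e / r) * (r / 2) ≤ 2 * (e / r) * dζ :=
          mul_le_mul_of_nonneg_left h2 (by positivity)
        linarith
      have h5 : 2 ≤ 8 / c := by
        rw [le_div_iff₀ hc]
        linarith
      exact h4.trans (mul_le_mul_of_nonneg_right h5 (by positivity))
  have hm : 0 ≤ min 1 (e / r) := le_min zero_le_one (by positivity)
  calc (e / dζ) ^ (31 / 32 : ℝ) ≤ (8 / c * min 1 (e / r)) ^ (31 / 32 : ℝ) :=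
        Real.rpow_le_rpow (by positivity) h3 (by norm_num)
    _ = (8 / c) ^ (31 / 32 : ℝ) * (min 1 (e / r)) ^ (31 / 32 : ℝ) :=
        Real.mul_rpow (by positivity) hm
    _ ≤ 8 / c * (min 1 (e / r)) ^ (31 / 32 : ℝ) := by
        refine mul_le_mul_of_nonneg_right ?_ (Real.rpow_nonneg hm _)
        calc (8 / c) ^ (31 / 32 : ℝ) ≤ (8 / c) ^ (1 : ℝ) :=
              Real.rpow_le_rpow_of_exponent_le h8 (by norm_num)
          _ = 8 / c := Real.rpow_one _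

/-- the ratio of the levels -/
private theorem E1b_rat {e r dζ dz c : ℝ} (he : 0 < e) (hc : 0 < c)
    (h1 : c / 8 * e < dz) (h2 : dζ ≤ r + 3 * c / 16 * e) :
    (max 1 (dζ / dz)) ^ (1 / 4 : ℝ) ≤ 5 / 2 * (max 1 (r / dz)) ^ (1 / 4 : ℝ) := by
  have hd : 0 < dz := lt_trans (by positivity) h1
  have hm : 1 ≤ max 1 (r / dz) := le_max_left _ _
  have h3 : max 1 (dζ / dz) ≤ 5 / 2 * max 1 (r / dz) := by
    refine max_le (by linarith) ?_
    rw [div_le_iff₀ hd]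
    have h4 : r ≤ max 1 (r / dz) * dz := by
      have h5 : r / dz * dz ≤ max 1 (r / dz) * dz :=
        mul_le_mul_of_nonneg_right (le_max_right _ _) hd.le
      rwa [div_mul_cancel₀ _ hd.ne'] at h5
    have h5 : dz ≤ max 1 (r / dz) * dz := by
      nlinarith
    nlinarith
  calc (max 1 (dζ / dz)) ^ (1 / 4 : ℝ) ≤ (5 / 2 * max 1 (r / dz)) ^ (1 / 4 : ℝ) :=
        Real.rpow_le_rpow (le_trans zero_le_one (le_max_left _ _)) h3 (by norm_num)
    _ = (5 / 2) ^ (1 / 4 : ℝ) * (max 1 (r / dz)) ^ (1 / 4 : ℝ) :=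
        Real.mul_rpow (by norm_num) (by linarith)
    _ ≤ 5 / 2 * (max 1 (r / dz)) ^ (1 / 4 : ℝ) := by
        refine mul_le_mul_of_nonneg_right ?_ (Real.rpow_nonneg (by linarith) _)
        calc (5 / 2 : ℝ) ^ (1 / 4 : ℝ) ≤ (5 / 2) ^ (1 : ℝ) :=
              Real.rpow_le_rpow_of_exponent_le (by norm_num) (by norm_num)
          _ = 5 / 2 := Real.rpow_one _

/-- the factor gained for small `r` -/
private theorem E1b_gain {r dζ dz v : ℝ} (hr : 0 < r) (hd : 0 < dζ) (hz : 0 < dz)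
    (h1 : dζ ≤ r) (h2 : dζ ≤ 2 * v) (h3 : dz ≤ 14 * v) :
    1 ≤ 196 * ((v / dζ) ^ 2 * (min 1 (r / dz)) ^ (2 : ℝ)) := by
  have hv : 0 < v := by linarith
  have h4 : 1 ≤ 14 * (v / dζ * min 1 (r / dz)) := by
    rcases le_total 1 (r / dz) with h | h
    · rw [min_eq_left h, mul_one]
      have h5 : 1 ≤ 2 * (v / dζ) := by
        rw [← mul_div_assoc, le_div_iff₀ hd]
        linarith
      have h6 : 0 < v / dζ := by positivity
      linarith
    · rw [min_eq_right h]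
      have h5 : 14 * (v / dζ * (r / dz)) = 14 * v * r / (dζ * dz) := by
        field_simp
      rw [h5, le_div_iff₀ (by positivity), one_mul]
      calc dζ * dz ≤ r * (14 * v) := mul_le_mul h1 h3 hz.le hr.le
        _ = 14 * v * r := by ring
  have e : (min 1 (r / dz)) ^ (2 : ℝ) = (min 1 (r / dz)) ^ 2 := by
    rw [← Real.rpow_natCast]
    norm_num
  rw [e]
  calc (1 : ℝ) = 1 ^ 2 := by norm_num
    _ ≤ (14 * (v / dζ * min 1 (r / dz))) ^ 2 := pow_le_pow_left₀ zero_le_one h4 2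
    _ = 196 * ((v / dζ) ^ 2 * (min 1 (r / dz)) ^ 2) := by ring

/-- The projection is near the data.
PROOF. `δ' = δ + (c / 16) ek k`, `Geo U δ' h (c / 2) C` (`CD.lev`), `Kc U δ' ⊆ Dk U δ c k`. `proj_point` for `δ'`: with `gau (dk δ c k) ≤ gau δ'` (`gau_mono`; `δ' ≤ dk δ c k`) and `Nk_db`,
`Nf ζ = K' (ek k / dk ζ)^(31/32) S k ζ`. By `SH.har` with `t = (c / 16) ek k`: `S k ζ ≤ K₀ (|v| / δ' ζ)^(9/4) (max 1 (dk ζ / dk z))^(1/4) S k z`, `v = vv δ' h z ζ`.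
For the layer `C / 2^(l+1) < δ' ζ ≤ C / 2^l =: r`: `ek k / dk ζ ≤ K min 1 (ek k / r)` (`dk ζ ≥ δ' ζ ≥ r / 2`, `dk ζ ≥ (c / 8) ek k`); `max 1 (dk ζ / dk z) ≤ K max 1 (r / dk z)` (`dk ζ ≤ δ' ζ + ek k`, `dk z ≥ (c / 8) ek k`);
and `dk z ≤ K δ' z ≤ 2 K |v|` as `δ' z > (c / 32) ek k`, so `1 ≤ K (|v| / δ' ζ)² (min 1 (r / dk z))²` (`|v| ≥ δ' ζ / 2`, `|v| ≥ dk z / (2 K)`). So
`Nf ζ ≤ (|v| / δ' ζ)^(n+5) Γ l` (`9/4 + 2 ≤ 5`) with `Γ l = K'' S k z (min 1 (ek k / r))^(31/32) (min 1 (r / dk z))² (max 1 (r / dk z))^(1/4)`. `master` (with `R := C`) and `layer_sum`. -/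
theorem Lk_near (hn : 2 ≤ n) (c C M K K₀ : ℝ) : ∃ K' : ℝ, 1 ≤ K' ∧ ∀ (U : Set (Ec n))
    (δ : Ec n → ℝ) (h : Ec n → Ec n → Fin n → ℂ) (u : Ec n → ℂ) (S : ℕ → Ec n → ℝ)
    (b : ℕ → Ec n → ℂ) (ρ : ℝ), CD U δ h c C → DifferentiableOn ℂ u (Om U δ) →
    (∀ z ∈ Om U δ, ‖u z‖ ≤ M) → SH U δ h c S K₀ → BL U δ h c u S b M ρ K →
    ∀ k : ℕ, ∀ z ∈ Om U (fun w => δ w + c / 32 * ek k),
    ‖Lk U δ h c u b k z - Nk u b k z‖ ≤ K' * (ek k / dk δ c k z) ^ (1 / 2 : ℝ) * S k z := by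
  by_cases hcC : 0 < c ∧ c ≤ 1 ∧ 1 ≤ C
  swap
  · exact ⟨1, le_rfl, fun U δ h u S b ρ hD => absurd hD.pos hcC⟩
  obtain ⟨hc, hc1, hC⟩ := hcC
  obtain ⟨K₁, hK₁, hdb⟩ := Nk_db n c C M K
  obtain ⟨C₁, hC₁, hma⟩ := master hn (c / 2) C
  obtain ⟨C₂, hC₂, hpp⟩ := proj_point (V := ℂ) hn (c / 2) C
  obtain ⟨K₂, hK₂, hls⟩ := layer_sum C (8 / c) hC (by rw [le_div_iff₀ hc]; linarith)
  obtain ⟨Kc', hKc'⟩ : ∃ x : ℝ, x = K₁ * (8 / c) * |K₀| * (5 / 2) * 196 * 2 ^ (n + 5) := ⟨_, rfl⟩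
  have hKc0 : 0 ≤ Kc' := by rw [hKc']; positivity
  refine ⟨C₂ * C₁ * Kc' * K₂ + 1, by
    have : 0 ≤ C₂ * C₁ * Kc' * K₂ := by positivity
    linarith, ?_⟩
  intro U δ h u S b ρ hD hu hM hS hb k z hz
  have he := ek_pos k
  have he1 := ek_le_one k
  have hce : 0 < c * ek k := mul_pos hc he
  obtain ⟨hz1, hz2⟩ := E1b_sub32 hc hz
  have hzD := E1b_sub hc hz1
  have ht0 : 0 ≤ c / 16 * ek k := by positivity
  have htc : c / 16 * ek k ≤ c / 2 := by nlinarith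
  have hg : Geo U (fun w => δ w + c / 16 * ek k) h (c / 2) C := hD.lev ht0 htc
  have hSz := hS.nn k z hzD
  have hdz : c / 8 * ek k < dk δ c k z := (Dk_basic hD hzD).2.2.1
  have hdz0 : 0 < dk δ c k z := lt_trans (by positivity) hdz
  have hdz7 : dk δ c k z ≤ 7 * (δ z + c / 16 * ek k) := by
    unfold dk
    linarith
  have hNf0 : ∀ ζ ∈ Om U (fun w => δ w + c / 16 * ek k),
      0 ≤ K₁ * (ek k / dk δ c k ζ) ^ (31 / 32 : ℝ) * S k ζ := by
    intro ζ hζ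
    have h1 := E1b_sub hc hζ
    have h2 : 0 < dk δ c k ζ := lt_trans (by positivity) (Dk_basic hD h1).2.2.1
    exact mul_nonneg (mul_nonneg (by linarith) (Real.rpow_nonneg (by positivity) _))
      (hS.nn k ζ h1)
  have hpt := hpp U (fun w => δ w + c / 16 * ek k) h hg (Dk U δ c k) (Nk u b k)
    (fun ζ => K₁ * (ek k / dk δ c k ζ) ^ (31 / 32 : ℝ) * S k ζ) (Dk_open hD k) (E1b_Kc hc)
    (Nk_c1 hD hu hb k) hNf0 (fun ζ hζ X => by
      have h1 := hdb U δ h u S b ρ hD hu hM hb hS.nn k ζ (E1b_sub hc hζ) X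
      refine h1.trans (mul_le_mul_of_nonneg_left ?_ (hNf0 ζ hζ))
      refine (gau_mono (a := fun w => δ w + c / 16 * ek k) hζ.2 ?_ X).2
      show δ ζ + c / 16 * ek k ≤ dk δ c k ζ
      unfold dk
      linarith) z hz1
  have hmas := hma U (fun w => δ w + c / 16 * ek k) h hg C le_rfl z hz1
    (fun ζ => K₁ * (ek k / dk δ c k ζ) ^ (31 / 32 : ℝ) * S k ζ)
    (fun l => Kc' * S k z * ((min 1 (ek k / (C / 2 ^ l))) ^ (31 / 32 : ℝ) *
      (min 1 (C / 2 ^ l / dk δ c k z)) ^ (2 : ℝ) *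
      (max 1 (C / 2 ^ l / dk δ c k z)) ^ (1 / 4 : ℝ))) (fun l => by
      refine mul_nonneg (mul_nonneg hKc0 hSz) (mul_nonneg (mul_nonneg (Real.rpow_nonneg ?_ _)
        (Real.rpow_nonneg ?_ _)) (Real.rpow_nonneg ?_ _))
      · exact le_min zero_le_one (by positivity)
      · exact le_min zero_le_one (by positivity)
      · exact le_trans zero_le_one (le_max_left _ _)) (fun l ζ hζ hl1 hl2 => by
      have hζD := E1b_sub hc hζ
      have hζ0 : 0 < δ ζ + c / 16 * ek k := hζ.2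
      obtain ⟨r, hr⟩ : ∃ r : ℝ, r = C / 2 ^ l := ⟨_, rfl⟩
      have hr0 : 0 < r := by rw [hr]; positivity
      have hl1' : r / 2 < δ ζ + c / 16 * ek k := by
        have e : C / 2 ^ (l + 1) = r / 2 := by
          rw [hr, pow_succ, div_div]
        rw [← e]
        exact hl1
      have hl2' : δ ζ + c / 16 * ek k ≤ r := by rw [hr]; exact hl2
      rw [← hr]
      have hdζ : c / 8 * ek k < dk δ c k ζ := (Dk_basic hD hζD).2.2.1
      have hdζe : dk δ c k ζ = δ ζ + c / 16 * ek k + 3 * c / 16 * ek k := by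
        unfold dk
        ring
      have hpos := hg.pos z hz1.1 ζ hζ.1
      obtain ⟨v, hv⟩ : ∃ v : ℝ, v = ‖vv (fun w => δ w + c / 16 * ek k) h z ζ‖ := ⟨_, rfl⟩
      have hre : (vv (fun w => δ w + c / 16 * ek k) h z ζ).re ≤ v := by
        rw [hv]
        exact Complex.re_le_norm _
      have hsq : 0 ≤ c / 2 * ‖ζ - z‖ ^ 2 := by positivity
      have hz0 : 0 < δ z + c / 16 * ek k := hz1.2
      have hv1 : δ ζ + c / 16 * ek k ≤ 2 * v := by
        have : δ z + c / 16 * ek k + (δ ζ + c / 16 * ek k) + c / 2 * ‖ζ - z‖ ^ 2 ≤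
          2 * (vv (fun w => δ w + c / 16 * ek k) h z ζ).re := hpos
        linarith
      have hv2 : dk δ c k z ≤ 14 * v := by
        have : δ z + c / 16 * ek k + (δ ζ + c / 16 * ek k) + c / 2 * ‖ζ - z‖ ^ 2 ≤
          2 * (vv (fun w => δ w + c / 16 * ek k) h z ζ).re := hpos
        linarith
      have hv0 : 0 < v := by linarith
      have hhar := hS.har k (c / 16 * ek k) ht0 (by nlinarith) z hz1 ζ hζ
      rw [← hv] at hhar ⊢
      obtain ⟨x, hx⟩ : ∃ x : ℝ, x = v / (δ ζ + c / 16 * ek k) := ⟨_, rfl⟩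
      have hx0 : 0 < x := by rw [hx]; positivity
      have hx1 : 1 / 2 ≤ x := by
        rw [hx, le_div_iff₀ hζ0]
        linarith
      show K₁ * (ek k / dk δ c k ζ) ^ (31 / 32 : ℝ) * S k ζ ≤
        (v / (δ ζ + c / 16 * ek k)) ^ (n + 5) * (Kc' * S k z *
          ((min 1 (ek k / r)) ^ (31 / 32 : ℝ) * (min 1 (r / dk δ c k z)) ^ (2 : ℝ) *
            (max 1 (r / dk δ c k z)) ^ (1 / 4 : ℝ)))
      rw [← hx] at hhar ⊢
      have f1 := E1b_fac he hr0 hc hc1 hdζ (by rw [hdζe]; linarith)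
      have f2 := E1b_rat (r := r) (dζ := dk δ c k ζ) he hc hdz (by rw [hdζe]; linarith)
      have f3 := E1b_gain hr0 hζ0 hdz0 hl2' hv1 hv2
      rw [← hx] at f3
      have f4 := E1b_pow hx1 n
      have hmn1 : 0 ≤ (min 1 (ek k / r)) ^ (31 / 32 : ℝ) :=
        Real.rpow_nonneg (le_min zero_le_one (by positivity)) _
      have hmn2 : 0 ≤ (min 1 (r / dk δ c k z)) ^ (2 : ℝ) :=
        Real.rpow_nonneg (le_min zero_le_one (by positivity)) _
      have hmx : 0 ≤ (max 1 (r / dk δ c k z)) ^ (1 / 4 : ℝ) :=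
        Real.rpow_nonneg (le_trans zero_le_one (le_max_left _ _)) _
      have hmx' : 0 ≤ (max 1 (dk δ c k ζ / dk δ c k z)) ^ (1 / 4 : ℝ) :=
        Real.rpow_nonneg (le_trans zero_le_one (le_max_left _ _)) _
      have hx94 : 0 ≤ x ^ (9 / 4 : ℝ) := Real.rpow_nonneg hx0.le _
      have g1 : S k ζ ≤ |K₀| * x ^ (9 / 4 : ℝ) *
          (5 / 2 * (max 1 (r / dk δ c k z)) ^ (1 / 4 : ℝ)) * S k z := by
        refine hhar.trans (mul_le_mul_of_nonneg_right ?_ hSz)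
        exact mul_le_mul (mul_le_mul_of_nonneg_right (le_abs_self _) hx94) f2 hmx'
          (mul_nonneg (abs_nonneg _) hx94)
      have g0 : 0 ≤ |K₀| * x ^ (9 / 4 : ℝ) *
          (5 / 2 * (max 1 (r / dk δ c k z)) ^ (1 / 4 : ℝ)) * S k z :=
        mul_nonneg (mul_nonneg (mul_nonneg (abs_nonneg _) hx94)
          (mul_nonneg (by norm_num) hmx)) hSz
      calc K₁ * (ek k / dk δ c k ζ) ^ (31 / 32 : ℝ) * S k ζ
          ≤ K₁ * (8 / c * (min 1 (ek k / r)) ^ (31 / 32 : ℝ)) *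
            (|K₀| * x ^ (9 / 4 : ℝ) *
              (5 / 2 * (max 1 (r / dk δ c k z)) ^ (1 / 4 : ℝ)) * S k z) := by
            refine mul_le_mul (mul_le_mul_of_nonneg_left f1 (by linarith)) g1
              (hS.nn k ζ hζD) (mul_nonneg (by linarith) (mul_nonneg (by positivity) hmn1))
        _ = (K₁ * (8 / c * (min 1 (ek k / r)) ^ (31 / 32 : ℝ)) *
            (|K₀| * x ^ (9 / 4 : ℝ) *
              (5 / 2 * (max 1 (r / dk δ c k z)) ^ (1 / 4 : ℝ)) * S k z)) * 1 := by ring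
        _ ≤ (K₁ * (8 / c * (min 1 (ek k / r)) ^ (31 / 32 : ℝ)) *
            (|K₀| * x ^ (9 / 4 : ℝ) *
              (5 / 2 * (max 1 (r / dk δ c k z)) ^ (1 / 4 : ℝ)) * S k z)) *
            (196 * (x ^ 2 * (min 1 (r / dk δ c k z)) ^ (2 : ℝ))) := by
            refine mul_le_mul_of_nonneg_left f3 (mul_nonneg (mul_nonneg (by linarith)
              (mul_nonneg (by positivity) hmn1)) g0)
        _ = (K₁ * (8 / c) * |K₀| * (5 / 2) * 196 * S k z *
            ((min 1 (ek k / r)) ^ (31 / 32 : ℝ) * (min 1 (r / dk δ c k z)) ^ (2 : ℝ) *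
              (max 1 (r / dk δ c k z)) ^ (1 / 4 : ℝ))) * (x ^ (9 / 4 : ℝ) * x ^ 2) := by ring
        _ ≤ (K₁ * (8 / c) * |K₀| * (5 / 2) * 196 * S k z *
            ((min 1 (ek k / r)) ^ (31 / 32 : ℝ) * (min 1 (r / dk δ c k z)) ^ (2 : ℝ) *
              (max 1 (r / dk δ c k z)) ^ (1 / 4 : ℝ))) * (2 ^ (n + 5) * x ^ (n + 5)) := by
            refine mul_le_mul_of_nonneg_left f4 (mul_nonneg (mul_nonneg (by positivity) hSz)
              (mul_nonneg (mul_nonneg hmn1 hmn2) hmx))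
        _ = x ^ (n + 5) * (Kc' * S k z *
          ((min 1 (ek k / r)) ^ (31 / 32 : ℝ) * (min 1 (r / dk δ c k z)) ^ (2 : ℝ) *
            (max 1 (r / dk δ c k z)) ^ (1 / 4 : ℝ))) := by
            rw [hKc']
            ring)
  have hsum := hls (ek k) (dk δ c k z) he (by
    have h1 : 8 / c * (c / 8 * ek k) ≤ 8 / c * dk δ c k z :=
      mul_le_mul_of_nonneg_left hdz.le (by positivity)
    have h2 : 8 / c * (c / 8 * ek k) = ek k := by
      field_simp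
    linarith)
  have hKS : 0 ≤ Kc' * S k z := mul_nonneg hKc0 hSz
  have hrp : 0 ≤ (ek k / dk δ c k z) ^ (1 / 2 : ℝ) := Real.rpow_nonneg (by positivity) _
  have hfin : ENNReal.ofReal ‖Nk u b k z - Lk U δ h c u b k z‖ ≤
      ENNReal.ofReal (C₂ * (C₁ * (Kc' * S k z * (K₂ * (ek k / dk δ c k z) ^ (1 / 2 : ℝ))))) := by
    refine hpt.trans ?_
    rw [ENNReal.ofReal_mul hC₂.le]
    gcongr
    refine hmas.trans ?_
    rw [ENNReal.ofReal_mul hC₁.le]
    gcongr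
    have h1 : ∀ l : ℕ, ENNReal.ofReal (Kc' * S k z *
        ((min 1 (ek k / (C / 2 ^ l))) ^ (31 / 32 : ℝ) *
        (min 1 (C / 2 ^ l / dk δ c k z)) ^ (2 : ℝ) *
        (max 1 (C / 2 ^ l / dk δ c k z)) ^ (1 / 4 : ℝ))) =
        ENNReal.ofReal (Kc' * S k z) * ENNReal.ofReal
        ((min 1 (ek k / (C / 2 ^ l))) ^ (31 / 32 : ℝ) *
        (min 1 (C / 2 ^ l / dk δ c k z)) ^ (2 : ℝ) *
        (max 1 (C / 2 ^ l / dk δ c k z)) ^ (1 / 4 : ℝ)) := fun l => ENNReal.ofReal_mul hKS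
    rw [tsum_congr h1, ENNReal.tsum_mul_left, ENNReal.ofReal_mul hKS]
    gcongr
  rw [norm_sub_rev]
  have h5 := (ENNReal.ofReal_le_ofReal_iff (by positivity)).1 hfin
  refine h5.trans ?_
  have h6 : C₂ * (C₁ * (Kc' * S k z * (K₂ * (ek k / dk δ c k z) ^ (1 / 2 : ℝ)))) =
      C₂ * C₁ * Kc' * K₂ * ((ek k / dk δ c k z) ^ (1 / 2 : ℝ) * S k z) := by ring
  rw [h6]
  have h7 : 0 ≤ (ek k / dk δ c k z) ^ (1 / 2 : ℝ) * S k z := mul_nonneg hrp hSz
  calc C₂ * C₁ * Kc' * K₂ * ((ek k / dk δ c k z) ^ (1 / 2 : ℝ) * S k z)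
      ≤ (C₂ * C₁ * Kc' * K₂ + 1) * ((ek k / dk δ c k z) ^ (1 / 2 : ℝ) * S k z) :=
        mul_le_mul_of_nonneg_right (by linarith) h7
    _ = _ := by ring

/-- PROOF. `Pop_hol` for `δ' = δ + (c / 16) ek k`, `Kc U δ' ⊆ Dk U δ c k`, `Nk_c1`. -/
theorem Lk_hol (hD : CD U δ h c C) {u : Ec n → ℂ} (hu : DifferentiableOn ℂ u (Om U δ)) {M ρ K : ℝ}
    {S : ℕ → Ec n → ℝ} {b : ℕ → Ec n → ℂ} (hb : BL U δ h c u S b M ρ K) (k : ℕ) :
    DifferentiableOn ℂ (Lk U δ h c u b k) (Om U (fun w => δ w + c / 16 * ek k)) := by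
  obtain ⟨hc, hc1, hC⟩ := hD.pos
  have he := ek_pos k
  have he1 := ek_le_one k
  have hg : Geo U (fun w => δ w + c / 16 * ek k) h (c / 2) C :=
    hD.lev (by positivity) (by nlinarith)
  exact Pop_hol hg (E1b_Kc hc) (Nk_c1 hD hu hb k).continuousOn

/-- PROOF. `Lk_near`, `Nk_le`, `SH.le`; `ek k / dk ≤ 8 / c`. -/
theorem Lk_le (hn : 2 ≤ n) (c C M K K₀ : ℝ) : ∃ K' : ℝ, 1 ≤ K' ∧ ∀ (U : Set (Ec n))
    (δ : Ec n → ℝ) (h : Ec n → Ec n → Fin n → ℂ) (u : Ec n → ℂ) (S : ℕ → Ec n → ℝ)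
    (b : ℕ → Ec n → ℂ) (ρ : ℝ), CD U δ h c C → DifferentiableOn ℂ u (Om U δ) →
    (∀ z ∈ Om U δ, ‖u z‖ ≤ M) → SH U δ h c S K₀ → BL U δ h c u S b M ρ K →
    ∀ k : ℕ, ∀ z ∈ Om U (fun w => δ w + c / 32 * ek k),
    ‖Lk U δ h c u b k z‖ ≤ K' * (ek k / dk δ c k z) ^ (1 / 2 : ℝ) := by
  by_cases hcC : 0 < c ∧ c ≤ 1 ∧ 1 ≤ C
  swap
  · exact ⟨1, le_rfl, fun U δ h u S b ρ hD => absurd hD.pos hcC⟩
  obtain ⟨hc, hc1, hC⟩ := hcC
  obtain ⟨K₁, hK₁, hne⟩ := Lk_near hn c C M K K₀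
  obtain ⟨K₂, hK₂, hle⟩ := Nk_le n c C M K
  have h8 : 1 ≤ 8 / c := by
    rw [le_div_iff₀ hc]
    linarith
  refine ⟨K₁ * |K₀| + K₂ * (8 / c), ?_, ?_⟩
  · have h1 : 0 ≤ K₁ * |K₀| := mul_nonneg (by linarith) (abs_nonneg _)
    have h2 : 1 * 1 ≤ K₂ * (8 / c) := mul_le_mul hK₂ h8 zero_le_one (by linarith)
    linarith
  intro U δ h u S b ρ hD hu hM hS hb k z hz
  have he := ek_pos k
  obtain ⟨hz1, hz2⟩ := E1b_sub32 hc hz
  have hzD := E1b_sub hc hz1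
  have hdz : c / 8 * ek k < dk δ c k z := (Dk_basic hD hzD).2.2.1
  have hdz0 : 0 < dk δ c k z := lt_trans (by positivity) hdz
  have h1 := hne U δ h u S b ρ hD hu hM hS hb k z hz
  have h2 := hle U δ h u S b ρ hD hu hM hb k z hzD
  have hy0 : 0 < ek k / dk δ c k z := by positivity
  have hy : ek k / dk δ c k z ≤ 8 / c := by
    rw [div_le_div_iff₀ hdz0 hc]
    linarith
  obtain ⟨y, hyd⟩ : ∃ y : ℝ, y = ek k / dk δ c k z := ⟨_, rfl⟩
  rw [← hyd] at h1 h2 hy0 hy ⊢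
  have hrp : 0 ≤ y ^ (1 / 2 : ℝ) := Real.rpow_nonneg hy0.le _
  have h3 : y ≤ 8 / c * y ^ (1 / 2 : ℝ) := by
    have e : y = y ^ (1 / 2 : ℝ) * y ^ (1 / 2 : ℝ) := by
      rw [← Real.rpow_add hy0]
      norm_num
    have h4 : y ^ (1 / 2 : ℝ) ≤ 8 / c := by
      calc y ^ (1 / 2 : ℝ) ≤ (8 / c) ^ (1 / 2 : ℝ) := Real.rpow_le_rpow hy0.le hy (by norm_num)
        _ ≤ (8 / c) ^ (1 : ℝ) := Real.rpow_le_rpow_of_exponent_le h8 (by norm_num)
        _ = 8 / c := Real.rpow_one _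
    calc y = y ^ (1 / 2 : ℝ) * y ^ (1 / 2 : ℝ) := e
      _ ≤ 8 / c * y ^ (1 / 2 : ℝ) := mul_le_mul_of_nonneg_right h4 hrp
  have h5 : ‖Lk U δ h c u b k z‖ ≤ ‖Lk U δ h c u b k z - Nk u b k z‖ + ‖Nk u b k z‖ := by
    have h6 := norm_add_le (Lk U δ h c u b k z - Nk u b k z) (Nk u b k z)
    rwa [sub_add_cancel] at h6
  have h6 : K₁ * y ^ (1 / 2 : ℝ) * S k z ≤ K₁ * y ^ (1 / 2 : ℝ) * |K₀| :=
    mul_le_mul_of_nonneg_left ((hS.le k z hzD).trans (le_abs_self _))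
      (mul_nonneg (by linarith) hrp)
  have h7 : K₂ * y ≤ K₂ * (8 / c * y ^ (1 / 2 : ℝ)) :=
    mul_le_mul_of_nonneg_left h3 (by linarith)
  calc ‖Lk U δ h c u b k z‖ ≤ K₁ * y ^ (1 / 2 : ℝ) * |K₀| + K₂ * (8 / c * y ^ (1 / 2 : ℝ)) := by
        linarith
    _ = (K₁ * |K₀| + K₂ * (8 / c)) * y ^ (1 / 2 : ℝ) := by ring

end Pool.Agent.MPca0fc2.GW
end

section

/-! The holomorphic functions near `conj b (uk (k+1) - uk k)`. -/

set_option autoImplicit false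

open Metric Set MeasureTheory Filter Topology

namespace Pool.Agent.MPca0fc2.GW

open Pool.Agent.MPca0fc2.FD

variable {n : ℕ} {U : Set (Ec n)} {δ : Ec n → ℝ} {h : Ec n → Ec n → Fin n → ℂ} {c C A : ℝ}

private noncomputable def E1c_seg (t : ℝ) : Ec n × Ec n →L[ℂ] Ec n :=
  ContinuousLinearMap.snd ℂ (Ec n) (Ec n) +
    (t : ℂ) • (ContinuousLinearMap.fst ℂ (Ec n) (Ec n) - ContinuousLinearMap.snd ℂ (Ec n) (Ec n))

private theorem E1c_seg_apply (t : ℝ) (p : Ec n × Ec n) :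
    E1c_seg t p = p.2 + (t : ℂ) • (p.1 - p.2) := rfl

private theorem E1c_seg_norm {t : ℝ} (ht : t ∈ Icc (0 : ℝ) 1) :
    ‖(E1c_seg t : Ec n × Ec n →L[ℂ] Ec n)‖ ≤ 3 := by
  have h1 : ‖ContinuousLinearMap.snd ℂ (Ec n) (Ec n)‖ ≤ 1 := ContinuousLinearMap.norm_snd_le _ _ _
  have h2 : ‖ContinuousLinearMap.fst ℂ (Ec n) (Ec n)‖ ≤ 1 := ContinuousLinearMap.norm_fst_le _ _ _
  have h3 : ‖(t : ℂ)‖ ≤ 1 := by
    rw [Complex.norm_real, Real.norm_eq_abs, abs_of_nonneg ht.1]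
    exact ht.2
  unfold E1c_seg
  refine (norm_add_le _ _).trans ?_
  rw [norm_smul]
  have h4 := norm_sub_le (ContinuousLinearMap.fst ℂ (Ec n) (Ec n))
    (ContinuousLinearMap.snd ℂ (Ec n) (Ec n))
  have h5 : ‖(t : ℂ)‖ * ‖ContinuousLinearMap.fst ℂ (Ec n) (Ec n) -
      ContinuousLinearMap.snd ℂ (Ec n) (Ec n)‖ ≤ 1 * 2 :=
    mul_le_mul h3 (by linarith) (norm_nonneg _) (by norm_num)
  linarith

private theorem E1c_seg_mem {W : Set (Ec n)} (hc : Convex ℝ W) {p : Ec n × Ec n}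
    (hp : p ∈ W ×ˢ W) {t : ℝ} (ht : t ∈ Icc (0 : ℝ) 1) : E1c_seg t p ∈ W := by
  rw [E1c_seg_apply, Complex.coe_smul]
  exact hc.add_smul_sub_mem hp.2 hp.1 ht

private theorem E1c_seg_cont : Continuous fun x : ℝ × (Ec n × Ec n) => E1c_seg x.1 x.2 := by
  have : (fun x : ℝ × (Ec n × Ec n) => E1c_seg x.1 x.2) =
      fun x => x.2.2 + (x.1 : ℂ) • (x.2.1 - x.2.2) := by
    funext x
    exact E1c_seg_apply _ _
  rw [this]
  fun_prop

private theorem E1c_seg_cont' : Continuous fun t : ℝ => (E1c_seg t : Ec n × Ec n →L[ℂ] Ec n) := by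
  unfold E1c_seg
  fun_prop

private theorem E1c_G {W : Set (Ec n)} (hW : IsOpen W) (hc : Convex ℝ W) {q : Ec n → ℂ}
    (hq : DifferentiableOn ℂ q W) :
    DifferentiableOn ℂ (fun p : Ec n × Ec n => ∫ t in (0 : ℝ)..1, fderiv ℂ q (E1c_seg t p))
      (W ×ˢ W) := by
  intro p₀ hp₀
  refine DifferentiableAt.differentiableWithinAt ?_
  have hWW : IsOpen (W ×ˢ W) := hW.prod hW
  obtain ⟨s, hs, hsub⟩ := Metric.nhds_basis_closedBall.mem_iff.1 (hWW.mem_nhds hp₀)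
  set K : Set (Ec n) := (fun x : ℝ × (Ec n × Ec n) => E1c_seg x.1 x.2) '' (Icc 0 1 ×ˢ closedBall p₀ s)
    with hK
  have hKc : IsCompact K := (isCompact_Icc.prod (isCompact_closedBall p₀ s)).image E1c_seg_cont
  have hKW : K ⊆ W := by
    rintro _ ⟨⟨t, p⟩, ⟨ht, hp⟩, rfl⟩
    exact E1c_seg_mem hc (hsub hp) ht
  obtain ⟨M, hM⟩ := hol_d2_bound hW hq hKc hKW
  have hM0 : 0 ≤ M := (norm_nonneg _).trans
    (hM (E1c_seg 0 p₀) ⟨(0, p₀), ⟨⟨le_rfl, zero_le_one⟩, mem_closedBall_self hs.le⟩, rfl⟩).1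
  have hcF := hol_fderiv_cont hW hq
  have hcF' := hol_fderiv_cont hW (hol_fderiv hW hq)
  have hI : ∀ t ∈ uIoc (0 : ℝ) 1, t ∈ Icc (0 : ℝ) 1 := by
    intro t ht
    rw [uIoc_of_le zero_le_one] at ht
    exact ⟨ht.1.le, ht.2⟩
  have hcont1 : ∀ p ∈ W ×ˢ W, ContinuousOn (fun t : ℝ => fderiv ℂ q (E1c_seg t p)) (Icc 0 1) := by
    intro p hp
    refine hcF.comp ?_ (fun t ht => E1c_seg_mem hc hp ht)
    exact (E1c_seg_cont.comp (Continuous.prodMk_left p)).continuousOn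
  have hcont2 : ContinuousOn (fun t : ℝ =>
      (fderiv ℂ (fderiv ℂ q) (E1c_seg t p₀)).comp (E1c_seg t)) (Icc 0 1) := by
    refine ContinuousOn.clm_comp ?_ E1c_seg_cont'.continuousOn
    refine hcF'.comp ?_ (fun t ht => E1c_seg_mem hc hp₀ ht)
    exact (E1c_seg_cont.comp (Continuous.prodMk_left p₀)).continuousOn
  have key := intervalIntegral.hasFDerivAt_integral_of_dominated_of_fderiv_le (𝕜 := ℂ) (μ := volume)
    (a := (0 : ℝ)) (b := 1) (F := fun (p : Ec n × Ec n) (t : ℝ) => fderiv ℂ q (E1c_seg t p))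
    (F' := fun p t => (fderiv ℂ (fderiv ℂ q) (E1c_seg t p)).comp (E1c_seg t)) (x₀ := p₀)
    (s := closedBall p₀ s) (bound := fun _ => M * 3) (closedBall_mem_nhds p₀ hs) ?_ ?_ ?_ ?_ ?_ ?_
  · exact key.differentiableAt
  · filter_upwards [hWW.mem_nhds hp₀] with p hp
    exact ((hcont1 p hp).mono hI).aestronglyMeasurable measurableSet_uIoc
  · refine ContinuousOn.intervalIntegrable ?_
    rw [uIcc_of_le zero_le_one]
    exact hcont1 p₀ hp₀
  · exact (hcont2.mono hI).aestronglyMeasurable measurableSet_uIoc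
  · refine Eventually.of_forall fun t ht p hp => ?_
    have h1 := (hM (E1c_seg t p) ⟨(t, p), ⟨hI t ht, hp⟩, rfl⟩).2.2
    refine (ContinuousLinearMap.opNorm_comp_le _ _).trans ?_
    exact mul_le_mul h1 (E1c_seg_norm (hI t ht)) (norm_nonneg _) hM0
  · exact intervalIntegrable_const
  · refine Eventually.of_forall fun t ht p hp => ?_
    have h1 : E1c_seg t p ∈ W := E1c_seg_mem hc (hsub hp) (hI t ht)
    have h2 : HasFDerivAt (fderiv ℂ q) (fderiv ℂ (fderiv ℂ q) (E1c_seg t p)) (E1c_seg t p) :=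
      ((hol_fderiv hW hq).differentiableAt (hW.mem_nhds h1)).hasFDerivAt
    exact h2.comp p (E1c_seg t).hasFDerivAt

/-- Hefer functions on a convex set, with the bound of the gradient. -/
private theorem E1c_hefer {W : Set (Ec n)} (hW : IsOpen W) (hc : Convex ℝ W) {q : Ec n → ℂ}
    (hq : DifferentiableOn ℂ q W) {B : ℝ} (hB0 : 0 ≤ B) (hB : ∀ y ∈ W, ‖fderiv ℂ q y‖ ≤ B) :
    ∃ H : Ec n → Ec n → Fin n → ℂ,
      DifferentiableOn ℂ (fun p : Ec n × Ec n => H p.1 p.2) (W ×ˢ W) ∧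
      (∀ z ∈ W, ∀ ζ ∈ W, ‖H z ζ‖ ≤ B) ∧
      ∀ z ∈ W, ∀ ζ ∈ W, q z - q ζ = ∑ k, H z ζ k * (z k - ζ k) := by
  refine ⟨fun z ζ k => (∫ t in (0 : ℝ)..1, fderiv ℂ q (E1c_seg t (z, ζ))) (ee k), ?_, ?_, ?_⟩
  · refine differentiableOn_pi.2 fun k => ?_
    exact (E1c_G hW hc hq).clm_apply (differentiableOn_const _)
  · intro z hz ζ hζ
    have hp : (z, ζ) ∈ W ×ˢ W := ⟨hz, hζ⟩
    refine (pi_norm_le_iff_of_nonneg hB0).2 fun k => ?_
    have h1 : ‖∫ t in (0 : ℝ)..1, fderiv ℂ q (E1c_seg t (z, ζ))‖ ≤ B := by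
      have h2 := intervalIntegral.norm_integral_le_of_norm_le_const (a := (0 : ℝ)) (b := 1)
        (f := fun t : ℝ => fderiv ℂ q (E1c_seg t (z, ζ))) (C := B) (fun t ht => by
          rw [uIoc_of_le zero_le_one] at ht
          exact hB _ (E1c_seg_mem hc hp ⟨ht.1.le, ht.2⟩))
      simpa using h2
    have h3 : ‖(ee k : Ec n)‖ = 1 := by
      simp [ee]
    have h4 := ContinuousLinearMap.le_opNorm
      (∫ t in (0 : ℝ)..1, fderiv ℂ q (E1c_seg t (z, ζ))) (ee k)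
    rw [h3, mul_one] at h4
    exact h4.trans h1
  · intro z hz ζ hζ
    have hp : (z, ζ) ∈ W ×ˢ W := ⟨hz, hζ⟩
    have hcont : ContinuousOn (fun t : ℝ => fderiv ℂ q (E1c_seg t (z, ζ))) (Icc 0 1) := by
      refine (hol_fderiv_cont hW hq).comp ?_ (fun t ht => E1c_seg_mem hc hp ht)
      exact (E1c_seg_cont.comp (Continuous.prodMk_left (z, ζ))).continuousOn
    have hint : IntervalIntegrable (fun t : ℝ => fderiv ℂ q (E1c_seg t (z, ζ))) volume 0 1 := by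
      refine ContinuousOn.intervalIntegrable ?_
      rwa [uIcc_of_le zero_le_one]
    have hint2 : IntervalIntegrable (fun t : ℝ => fderiv ℂ q (E1c_seg t (z, ζ)) (z - ζ))
        volume 0 1 := by
      refine ContinuousOn.intervalIntegrable ?_
      rw [uIcc_of_le zero_le_one]
      exact hcont.clm_apply continuousOn_const
    have hder : ∀ t ∈ uIcc (0 : ℝ) 1, HasDerivAt (fun t : ℝ => q (E1c_seg t (z, ζ)))
        (fderiv ℂ q (E1c_seg t (z, ζ)) (z - ζ)) t := by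
      intro t ht
      rw [uIcc_of_le zero_le_one] at ht
      have h1 : E1c_seg t (z, ζ) ∈ W := E1c_seg_mem hc hp ht
      have h2 : HasFDerivAt q (fderiv ℂ q (E1c_seg t (z, ζ))) (E1c_seg t (z, ζ)) :=
        (hq.differentiableAt (hW.mem_nhds h1)).hasFDerivAt
      have h3 : HasDerivAt (fun t : ℝ => E1c_seg t (z, ζ)) (z - ζ) t := by
        have e1 : (fun t : ℝ => E1c_seg t (z, ζ)) = fun t : ℝ => ζ + (t : ℂ) • (z - ζ) := rfl
        rw [e1]
        have e2 : HasDerivAt (fun t : ℝ => (t : ℂ)) 1 t := Complex.ofRealCLM.hasDerivAt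
        have e3 := (e2.smul_const (z - ζ)).const_add ζ
        rwa [one_smul] at e3
      exact (h2.restrictScalars ℝ).comp_hasDerivAt t h3
    have hftc := intervalIntegral.integral_eq_sub_of_hasDerivAt hder hint2
    have e0 : E1c_seg 0 (z, ζ) = ζ := by
      rw [E1c_seg_apply]; simp
    have e1 : E1c_seg 1 (z, ζ) = z := by
      rw [E1c_seg_apply]; simp
    rw [e0, e1] at hftc
    rw [← hftc]
    have h5 : (∫ t in (0 : ℝ)..1, fderiv ℂ q (E1c_seg t (z, ζ)) (z - ζ)) =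
        (∫ t in (0 : ℝ)..1, fderiv ℂ q (E1c_seg t (z, ζ))) (z - ζ) :=
      (ContinuousLinearMap.intervalIntegral_apply hint (z - ζ)).symm
    rw [h5]
    have h6 : z - ζ = ∑ k, (z k - ζ k) • (ee k : Ec n) := by
      ext j
      simp [ee, Pi.single_apply]
    conv_lhs => rw [h6]
    rw [map_sum]
    refine Finset.sum_congr rfl fun k _ => ?_
    rw [map_smul, smul_eq_mul, mul_comm]

/-- Hefer functions with bounds.
PROOF. `Λ z ζ k = (∫₀¹ dL(ζ + t (z - ζ)) dt)(ee k)` (the proof of `hefer_convex` in `FD/L2.lean`: its statement does not contain the bound; copy it for `W = Om U (δ + (c / 32) ek k)`, which is open and convex). The bound: for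
`y ∈ Om U δ` the ball with the centre `y` and the radius `r = (c / (32 L)) ek k` (`L` of `CD_lip`; also `r ≤ c`, so that it is in `U` by `Geo.nb`) is in `W`, so `‖dL(y)‖ ≤ K K' / ek k` (Cauchy's inequality; `Lk_le` bounds `L` on `W` by a constant). `Om U δ` is convex. -/
theorem Lk_hefer (hn : 2 ≤ n) (c C M K K₀ : ℝ) : ∃ K' : ℝ, 1 ≤ K' ∧ ∀ (U : Set (Ec n))
    (δ : Ec n → ℝ) (h : Ec n → Ec n → Fin n → ℂ) (u : Ec n → ℂ) (S : ℕ → Ec n → ℝ)
    (b : ℕ → Ec n → ℂ) (ρ : ℝ), CD U δ h c C → DifferentiableOn ℂ u (Om U δ) →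
    (∀ z ∈ Om U δ, ‖u z‖ ≤ M) → SH U δ h c S K₀ → BL U δ h c u S b M ρ K →
    ∀ k : ℕ, ∃ Λ : Ec n → Ec n → Fin n → ℂ,
      DifferentiableOn ℂ (fun p : Ec n × Ec n => Λ p.1 p.2) (Om U δ ×ˢ Om U δ) ∧
      (∀ z ∈ Om U δ, ∀ ζ ∈ Om U δ, ‖Λ z ζ‖ ≤ K' / ek k) ∧
      ∀ z ∈ Om U δ, ∀ ζ ∈ Om U δ,
        Lk U δ h c u b k z - Lk U δ h c u b k ζ = ∑ j, Λ z ζ j * (z j - ζ j) := by
  obtain ⟨K₁, hK₁, hLe⟩ := Lk_le hn c C M K K₀
  obtain ⟨K₂, hK₂, hSc⟩ := schwarz_iso n (c / 2) C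
  set T : ℝ := K₂ * (K₁ * (32 / (7 * c)) ^ (1 / 2 : ℝ)) * (32 / c) with hT
  refine ⟨max 1 T, le_max_left _ _, ?_⟩
  intro U δ h u S b ρ hD hu hM hS hb k
  have hc0 : 0 < c := hD.pos.1
  have hek := ek_pos k
  have hek1 := ek_le_one k
  have hopen : IsOpen (Om U δ) := by
    have := Om_lev_open hD 0
    rwa [Om_zero] at this
  have hconv : Convex ℝ (Om U δ) := by
    have := Om_lev_convex hD 0
    rwa [Om_zero] at this
  have hsub1 : Om U (fun w => δ w + c / 32 * ek k) ⊆ Om U (fun w => δ w + c / 16 * ek k) := by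
    intro w hw
    refine ⟨hw.1, ?_⟩
    have h1 : 0 < δ w + c / 32 * ek k := hw.2
    have h2 : c / 32 * ek k ≤ c / 16 * ek k := mul_le_mul_of_nonneg_right (by linarith) hek.le
    show 0 < δ w + c / 16 * ek k
    linarith
  have hsub2 : Om U δ ⊆ Om U (fun w => δ w + c / 32 * ek k) := by
    intro w hw
    refine ⟨hw.1, ?_⟩
    have h1 : 0 < δ w := hw.2
    have h2 : 0 < c / 32 * ek k := by positivity
    show 0 < δ w + c / 32 * ek k
    linarith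
  have hhol := (Lk_hol hD hu hb k).mono hsub1
  have ht : c / 32 * ek k ≤ c / 2 := by
    have : c / 32 * ek k ≤ c / 32 * 1 := mul_le_mul_of_nonneg_left hek1 (by positivity)
    linarith
  have hgeo := hD.lev (t := c / 32 * ek k) (by positivity) ht
  have hbd : ∀ z ∈ Om U (fun w => δ w + c / 32 * ek k),
      ‖Lk U δ h c u b k z‖ ≤ K₁ * (32 / (7 * c)) ^ (1 / 2 : ℝ) := by
    intro z hz
    refine (hLe U δ h u S b ρ hD hu hM hS hb k z hz).trans ?_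
    have h1 : 0 < δ z + c / 32 * ek k := hz.2
    have h2 : 7 * c / 32 * ek k ≤ dk δ c k z := by
      unfold dk
      have : 7 * c / 32 * ek k = c / 4 * ek k - c / 32 * ek k := by ring
      linarith
    have h3 : 0 < 7 * c / 32 * ek k := by positivity
    refine mul_le_mul_of_nonneg_left ?_ (by linarith)
    refine Real.rpow_le_rpow (div_nonneg hek.le (h3.le.trans h2)) ?_ (by norm_num)
    calc ek k / dk δ c k z ≤ ek k / (7 * c / 32 * ek k) :=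
          div_le_div_of_nonneg_left hek.le h3 h2
      _ = 32 / (7 * c) := by
          field_simp
  have hgr := hSc U (fun w => δ w + c / 32 * ek k) h hgeo (Lk U δ h c u b k)
    (K₁ * (32 / (7 * c)) ^ (1 / 2 : ℝ)) hhol hbd
  have hK0 : 0 ≤ K₂ * (K₁ * (32 / (7 * c)) ^ (1 / 2 : ℝ)) := by
    have : (0 : ℝ) ≤ (32 / (7 * c)) ^ (1 / 2 : ℝ) := by positivity
    have h1 : 0 ≤ K₁ := by linarith
    positivity
  have hgr2 : ∀ y ∈ Om U δ, ‖fderiv ℂ (Lk U δ h c u b k) y‖ ≤ max 1 T / ek k := by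
    intro y hy
    refine (hgr y (hsub2 hy)).trans ?_
    have h1 : 0 < δ y := hy.2
    have h2 : 0 < c / 32 * ek k := by positivity
    calc K₂ * (K₁ * (32 / (7 * c)) ^ (1 / 2 : ℝ)) / (δ y + c / 32 * ek k)
        ≤ K₂ * (K₁ * (32 / (7 * c)) ^ (1 / 2 : ℝ)) / (c / 32 * ek k) :=
          div_le_div_of_nonneg_left hK0 h2 (by linarith)
      _ = T / ek k := by
          rw [hT]
          field_simp
      _ ≤ max 1 T / ek k := div_le_div_of_nonneg_right (le_max_right _ _) hek.le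
  have hB0 : 0 ≤ max 1 T / ek k :=
    div_nonneg (zero_le_one.trans (le_max_left _ _)) hek.le
  exact E1c_hefer hopen hconv (hhol.mono hsub2) hB0 hgr2

end Pool.Agent.MPca0fc2.GW
end
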