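import Pool.Agent.Lib.MP_ca0fc2_an.GW.P2
import Pool.Agent.Lib.MP_ca0fc2_an.Mg.G027
import Pool.Agent.Lib.MP_ca0fc2_an.GW.V3
import Pool.Agent.Lib.MP_ca0fc2_an.GW.P3a

section

/-! The Carleson condition and the potentials. -/

set_option autoImplicit false

open Metric Set MeasureTheory Filter Topology

namespace Pool.Agent.MPca0fc2.GW

open Pool.Agent.MPca0fc2.FD

variable {n : ℕ} {U : Set (Ec n)} {δ : Ec n → ℝ} {h : Ec n → Ec n → Fin n → ℂ} {c C A : ℝ}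

/-- one term of the potential -/
private noncomputable def P3b_F (V τ : ℝ) : ℝ := τ ^ (1 / 4 : ℝ) / (V ^ 2 + τ ^ 2) ^ (9 / 8 : ℝ)

private theorem P3b_F_nonneg {V τ : ℝ} (hτ : 0 < τ) : 0 ≤ P3b_F V τ := by
  unfold P3b_F
  positivity

private theorem P3b_poti (P : PS n) (δ : Ec n → ℝ) (c : ℝ) (i : ℕ) (w : Ec n) :
    poti P δ c i w = ∑ x, P.w x * P.N x ^ 2 * P3b_F ‖P.V x w‖ (dk δ c i w) := rfl

private theorem P3b_sum (P : PS n) {a : ℝ} {f g : Fin P.R → ℝ} (hw : ∀ x, 0 ≤ P.w x)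
    (hfg : ∀ x, f x ≤ a * g x) :
    ∑ x, P.w x * P.N x ^ 2 * f x ≤ a * ∑ x, P.w x * P.N x ^ 2 * g x := by
  rw [Finset.mul_sum]
  refine Finset.sum_le_sum fun x _ => ?_
  have h0 : 0 ≤ P.w x * P.N x ^ 2 := mul_nonneg (hw x) (sq_nonneg _)
  calc P.w x * P.N x ^ 2 * f x ≤ P.w x * P.N x ^ 2 * (a * g x) :=
        mul_le_mul_of_nonneg_left (hfg x) h0
    _ = _ := by ring

private theorem P3b_pow {S : ℝ} (hS : 0 ≤ S) : (S ^ 2) ^ (9 / 8 : ℝ) = S ^ (9 / 4 : ℝ) := by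
  rw [← Real.rpow_natCast S 2, ← Real.rpow_mul hS]
  norm_num

private theorem P3b_cmp {V τ V' τ' q : ℝ} (_ : 0 ≤ V) (hτ : 0 < τ) (hV' : 0 ≤ V') (hτ' : 0 < τ')
    (hq : 0 ≤ q) (hle : V' + τ' ≤ q * (V + τ)) :
    P3b_F V τ ≤ 4 * q ^ (9 / 4 : ℝ) * (τ / τ') ^ (1 / 4 : ℝ) * P3b_F V' τ' := by
  have hB : 0 < V ^ 2 + τ ^ 2 := by positivity
  have hB' : 0 < V' ^ 2 + τ' ^ 2 := by positivity
  have h1 : V' ^ 2 + τ' ^ 2 ≤ 2 * q ^ 2 * (V ^ 2 + τ ^ 2) := by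
    have a1 : V' ^ 2 + τ' ^ 2 ≤ (V' + τ') ^ 2 := by nlinarith
    have a2 : (V' + τ') ^ 2 ≤ (q * (V + τ)) ^ 2 := pow_le_pow_left₀ (by positivity) hle 2
    have a3 : (q * (V + τ)) ^ 2 ≤ 2 * q ^ 2 * (V ^ 2 + τ ^ 2) := by
      have : (V + τ) ^ 2 ≤ 2 * (V ^ 2 + τ ^ 2) := by nlinarith [sq_nonneg (V - τ)]
      calc (q * (V + τ)) ^ 2 = q ^ 2 * (V + τ) ^ 2 := by ring
        _ ≤ q ^ 2 * (2 * (V ^ 2 + τ ^ 2)) := mul_le_mul_of_nonneg_left this (sq_nonneg q)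
        _ = _ := by ring
    linarith
  have h2 : (V' ^ 2 + τ' ^ 2) ^ (9 / 8 : ℝ) ≤ 4 * q ^ (9 / 4 : ℝ) *
      (V ^ 2 + τ ^ 2) ^ (9 / 8 : ℝ) := by
    calc (V' ^ 2 + τ' ^ 2) ^ (9 / 8 : ℝ) ≤ (2 * q ^ 2 * (V ^ 2 + τ ^ 2)) ^ (9 / 8 : ℝ) :=
          Real.rpow_le_rpow hB'.le h1 (by norm_num)
      _ = 2 ^ (9 / 8 : ℝ) * q ^ (9 / 4 : ℝ) * (V ^ 2 + τ ^ 2) ^ (9 / 8 : ℝ) := by
          rw [Real.mul_rpow (by positivity) hB.le, Real.mul_rpow (by norm_num) (sq_nonneg q),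
            P3b_pow hq]
      _ ≤ _ := by
          refine mul_le_mul_of_nonneg_right ?_ (Real.rpow_nonneg hB.le _)
          refine mul_le_mul_of_nonneg_right ?_ (Real.rpow_nonneg hq _)
          calc (2 : ℝ) ^ (9 / 8 : ℝ) ≤ 2 ^ (2 : ℝ) :=
                Real.rpow_le_rpow_of_exponent_le (by norm_num) (by norm_num)
            _ = 4 := by norm_num
  have hb : 0 < (V ^ 2 + τ ^ 2) ^ (9 / 8 : ℝ) := Real.rpow_pos_of_pos hB _
  have hb' : 0 < (V' ^ 2 + τ' ^ 2) ^ (9 / 8 : ℝ) := Real.rpow_pos_of_pos hB' _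
  have h3 : τ ^ (1 / 4 : ℝ) = (τ / τ') ^ (1 / 4 : ℝ) * τ' ^ (1 / 4 : ℝ) := by
    rw [← Real.mul_rpow (by positivity) hτ'.le, div_mul_cancel₀ _ hτ'.ne']
  unfold P3b_F
  rw [div_le_iff₀ hb, h3]
  have h4 : 0 ≤ (τ / τ') ^ (1 / 4 : ℝ) * τ' ^ (1 / 4 : ℝ) / (V' ^ 2 + τ' ^ 2) ^ (9 / 8 : ℝ) := by
    positivity
  calc (τ / τ') ^ (1 / 4 : ℝ) * τ' ^ (1 / 4 : ℝ)
      = (τ / τ') ^ (1 / 4 : ℝ) * τ' ^ (1 / 4 : ℝ) / (V' ^ 2 + τ' ^ 2) ^ (9 / 8 : ℝ) *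
        (V' ^ 2 + τ' ^ 2) ^ (9 / 8 : ℝ) := by
        rw [div_mul_cancel₀ _ hb'.ne']
    _ ≤ (τ / τ') ^ (1 / 4 : ℝ) * τ' ^ (1 / 4 : ℝ) / (V' ^ 2 + τ' ^ 2) ^ (9 / 8 : ℝ) *
        (4 * q ^ (9 / 4 : ℝ) * (V ^ 2 + τ ^ 2) ^ (9 / 8 : ℝ)) := mul_le_mul_of_nonneg_left h2 h4
    _ = _ := by ring

private theorem P3b_dk_pos (hD : CD U δ h c C) {i k : ℕ} (hik : i ≤ k) {w : Ec n}
    (hw : w ∈ Dk U δ c k) : 0 < dk δ c i w := by
  obtain ⟨hc, -, -⟩ := hD.pos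
  obtain ⟨-, -, h2, -, -⟩ := Dk_basic hD (Dk_anti hD hik hw)
  exact lt_of_le_of_lt (mul_nonneg (by positivity) (ek_pos i).le) h2

private theorem P3b_dδ (hD : CD U δ h c C) : ContDiffOn ℝ 2 δ U := by
  have h1 := hD.geo.dδ.sub (contDiffOn_const (c := c / 2) (n := 2) (𝕜 := ℝ) (s := U))
  refine h1.congr fun z _ => ?_
  simp

/-- PROOF. `dk δ c i w > 0`; `w ↦ ‖V w‖²` is of class `C²` over `ℝ` (`V` is holomorphic: `hol_c2` in `V3.lean`, or directly), and powers of positive functions of class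
`C²` are of class `C²`. -/
theorem poti_c2 (hD : CD U δ h c C) {P : PS n} (hP : PA P U δ h A) {i k : ℕ} (hik : i ≤ k) :
    ContDiffOn ℝ 2 (poti P δ c i) (Dk U δ c k) := by
  have hsub : Dk U δ c k ⊆ U := fun w hw => (Dk_basic hD hw).1
  have hdk : ContDiffOn ℝ 2 (dk δ c i) (Dk U δ c k) := by
    unfold dk
    exact ((P3b_dδ hD).mono hsub).add contDiffOn_const
  have hpos : ∀ w ∈ Dk U δ c k, 0 < dk δ c i w := fun w hw => P3b_dk_pos hD hik hw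
  have e : poti P δ c i = fun w => ∑ x, P.w x * P.N x ^ 2 *
      (dk δ c i w ^ (1 / 4 : ℝ) / (‖P.V x w‖ ^ 2 + dk δ c i w ^ 2) ^ (9 / 8 : ℝ)) := rfl
  rw [e]
  refine ContDiffOn.sum fun x _ => ?_
  refine contDiffOn_const.mul ?_
  have hV : ContDiffOn ℝ 2 (P.V x) (Dk U δ c k) :=
    (hol_c2 hD.geo.opn (hP.hol x)).mono hsub
  have hB : ContDiffOn ℝ 2 (fun w => ‖P.V x w‖ ^ 2 + dk δ c i w ^ 2) (Dk U δ c k) :=
    (hV.norm_sq ℝ).add (hdk.pow 2)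
  have hB0 : ∀ w ∈ Dk U δ c k, 0 < ‖P.V x w‖ ^ 2 + dk δ c i w ^ 2 := by
    intro w hw
    have := hpos w hw
    positivity
  refine ContDiffOn.div (hdk.rpow_const_of_ne fun w hw => (hpos w hw).ne')
    (hB.rpow_const_of_ne fun w hw => (hB0 w hw).ne') fun w hw => ?_
  exact (Real.rpow_pos_of_pos (hB0 w hw) _).ne'

private theorem P3b_deriv {a b : ℝ → ℝ} {a' b' : ℝ} (ha : HasDerivAt a a' 0)
    (hb : HasDerivAt b b' 0) (ha0 : 0 < a 0) (hb0 : 0 < b 0) :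
    HasDerivAt (fun s => a s ^ (1 / 4 : ℝ) / b s ^ (9 / 8 : ℝ))
      (a 0 ^ (1 / 4 : ℝ) / b 0 ^ (9 / 8 : ℝ) * (a' / (4 * a 0) - 9 / 8 * (b' / b 0))) 0 := by
  have h1 := ha.rpow_const (p := (1 / 4 : ℝ)) (Or.inl ha0.ne')
  have h2 := hb.rpow_const (p := (9 / 8 : ℝ)) (Or.inl hb0.ne')
  have hb1 : 0 < b 0 ^ (9 / 8 : ℝ) := Real.rpow_pos_of_pos hb0 _
  have h3 := h1.div h2 hb1.ne'
  refine h3.congr_deriv ?_
  rw [Real.rpow_sub_one ha0.ne', Real.rpow_sub_one hb0.ne']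
  have ha' := ha0.ne'
  have hb' := hb0.ne'
  have hb1' := hb1.ne'
  field_simp

private theorem P3b_line {f : Ec n → ℝ} {f' : Ec n →L[ℝ] ℝ} {w X : Ec n}
    (hf : HasFDerivAt f f' w) : HasDerivAt (fun s : ℝ => f (w + s • X)) (f' X) 0 := by
  have hγ : HasDerivAt (fun s : ℝ => w + s • X) X 0 := by
    have := ((hasDerivAt_id (0 : ℝ)).smul_const X).const_add w
    simpa using this
  have hf2 : HasFDerivAt f f' (w + (0 : ℝ) • X) := by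
    rw [zero_smul, add_zero]
    exact hf
  exact hf2.comp_hasDerivAt (0 : ℝ) hγ

private theorem P3b_lineC {f : Ec n → ℂ} {f' : Ec n →L[ℝ] ℂ} {w X : Ec n}
    (hf : HasFDerivAt f f' w) : HasDerivAt (fun s : ℝ => f (w + s • X)) (f' X) 0 := by
  have hγ : HasDerivAt (fun s : ℝ => w + s • X) X 0 := by
    have := ((hasDerivAt_id (0 : ℝ)).smul_const X).const_add w
    simpa using this
  have hf2 : HasFDerivAt f f' (w + (0 : ℝ) • X) := by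
    rw [zero_smul, add_zero]
    exact hf
  exact hf2.comp_hasDerivAt (0 : ℝ) hγ

/-- The gradient of the potentials.
PROOF. For each `x`: `F = τ^(1/4) (|V|² + τ²)^(-9/8)`, `dF = F ((1/4) dτ / τ - (9/8) (2 Re (conj V dV) + 2 τ dτ) / (|V|² + τ²))`; `|dτ X| = |dδ X| ≤ 2 |hX| ≤ 2 τ gau X`;
`|V| |dV X| ≤ K |V| (|V| + τ) gau X ≤ 2 K (|V|² + τ²) gau X` (`V_tan`). -/
theorem poti_grad (n : ℕ) (c C A : ℝ) : ∃ K : ℝ, 1 ≤ K ∧ ∀ (U : Set (Ec n)) (δ : Ec n → ℝ)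
    (h : Ec n → Ec n → Fin n → ℂ) (P : PS n), CD U δ h c C → PA P U δ h A → ∀ (i : ℕ),
    ∀ w ∈ Dk U δ c i, ∀ X : Ec n,
    ‖fderiv ℝ (poti P δ c i) w X‖ ≤ K * poti P δ c i w * gau (dk δ c i) h w X := by
  obtain ⟨K0, hK0, htan⟩ := V_tan n c C A
  refine ⟨1 / 2 + 9 / 8 * (4 * K0 + 4), by linarith, fun U δ h P hD hP i w hw X => ?_⟩
  have hopn : IsOpen (Dk U δ c i) := Dk_open hD i
  have hwU : w ∈ U := (Dk_basic hD hw).1
  have hτ : 0 < dk δ c i w := P3b_dk_pos hD le_rfl hw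
  set τ := dk δ c i w with hτdef
  set g := gau (dk δ c i) h w X with hg
  have hgX : ‖∑ k, h w w k * X k‖ ≤ τ * g := by
    rw [hg]
    unfold gau
    have hs : 0 ≤ ‖X‖ / Real.sqrt (dk δ c i w) := by positivity
    rw [← hτdef] at hs ⊢
    rw [mul_add, mul_div_cancel₀ _ hτ.ne']
    have : 0 ≤ τ * (‖X‖ / Real.sqrt τ) := mul_nonneg hτ.le hs
    linarith
  have hg0 : 0 ≤ g := by
    have := (norm_nonneg _).trans hgX
    exact nonneg_of_mul_nonneg_right this hτ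
  -- the derivative of `dk`
  have hδd : DifferentiableAt ℝ δ w :=
    ((P3b_dδ hD).contDiffAt (hD.geo.opn.mem_nhds hwU)).differentiableAt (by norm_num)
  have hδX : fderiv ℝ δ w X = -2 * (∑ k, h w w k * X k).re := by
    have h1 := hD.geo.grad w hwU X
    rwa [fderiv_add_const] at h1
  have hdkF : HasFDerivAt (dk δ c i) (fderiv ℝ δ w) w := hδd.hasFDerivAt.add_const _
  have ha := P3b_line (X := X) hdkF
  set a' := fderiv ℝ δ w X with ha'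
  have ha'b : |a'| ≤ 2 * (τ * g) := by
    rw [hδX, abs_mul, abs_neg, abs_of_pos (by norm_num : (0 : ℝ) < 2)]
    refine mul_le_mul_of_nonneg_left ?_ (by norm_num)
    exact (Complex.abs_re_le_norm _).trans hgX
  -- the derivatives of the terms
  have hterm : ∀ x, ∃ D : ℝ, HasDerivAt (fun s : ℝ => P3b_F ‖P.V x (w + s • X)‖
      (dk δ c i (w + s • X))) D 0 ∧
      |D| ≤ (1 / 2 + 9 / 8 * (4 * K0 + 4)) * g * P3b_F ‖P.V x w‖ τ := by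
    intro x
    have hVd : HasFDerivAt (P.V x) ((fderiv ℂ (P.V x) w).restrictScalars ℝ) w :=
      ((hP.hol x).differentiableAt (hD.geo.opn.mem_nhds hwU)).hasFDerivAt.restrictScalars ℝ
    have hVl := P3b_lineC (X := X) hVd
    have hn := hVl.norm_sq
    have hb := hn.add (ha.pow 2)
    have e0 : w + (0 : ℝ) • X = w := by rw [zero_smul, add_zero]
    set V := ‖P.V x w‖ with hV
    have hV0 : 0 ≤ V := norm_nonneg _
    have hB0 : 0 < V ^ 2 + τ ^ 2 := by positivity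
    have hmain := P3b_deriv (a := fun s : ℝ => dk δ c i (w + s • X))
      (b := fun s : ℝ => ‖P.V x (w + s • X)‖ ^ 2 + dk δ c i (w + s • X) ^ 2) ha hb
      (by simp only [e0]; exact hτ) (by simp only [e0]; exact hB0)
    simp only [e0] at hmain
    refine ⟨_, hmain, ?_⟩
    have hVX : V * ‖fderiv ℂ (P.V x) w X‖ ≤ 2 * K0 * (V ^ 2 + τ ^ 2) * g := by
      have h1 := (htan U δ h P hD hP x i w hw X).2
      have h2 : V * (V + τ) ≤ 2 * (V ^ 2 + τ ^ 2) := by nlinarith [sq_nonneg (V - τ)]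
      calc V * ‖fderiv ℂ (P.V x) w X‖ ≤ V * (K0 * (V + τ) * g) :=
            mul_le_mul_of_nonneg_left h1 hV0
        _ = K0 * g * (V * (V + τ)) := by ring
        _ ≤ K0 * g * (2 * (V ^ 2 + τ ^ 2)) :=
            mul_le_mul_of_nonneg_left h2 (mul_nonneg (by linarith) hg0)
        _ = _ := by ring
    have hin : |inner ℝ (P.V x w) (((fderiv ℂ (P.V x) w).restrictScalars ℝ) X)| ≤
        2 * K0 * (V ^ 2 + τ ^ 2) * g :=
      (abs_real_inner_le_norm _ _).trans hVX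
    have hb' : |2 * inner ℝ (P.V x w) (((fderiv ℂ (P.V x) w).restrictScalars ℝ) X) +
        ((2 : ℕ) : ℝ) * dk δ c i w ^ (2 - 1) * a'| ≤ (4 * K0 + 4) * (V ^ 2 + τ ^ 2) * g := by
      refine (abs_add_le _ _).trans ?_
      have h1 : |2 * inner ℝ (P.V x w) (((fderiv ℂ (P.V x) w).restrictScalars ℝ) X)| ≤
          4 * K0 * (V ^ 2 + τ ^ 2) * g := by
        rw [abs_mul, abs_of_pos (by norm_num : (0 : ℝ) < 2)]
        linarith
      have h2 : |((2 : ℕ) : ℝ) * dk δ c i w ^ (2 - 1) * a'| ≤ 4 * (V ^ 2 + τ ^ 2) * g := by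
        have e5 : ((2 : ℕ) : ℝ) * dk δ c i w ^ (2 - 1) * a' = 2 * (τ * a') := by
          rw [← hτdef]
          norm_num
          ring
        rw [e5, abs_mul, abs_mul, abs_of_pos (by norm_num : (0 : ℝ) < 2), abs_of_pos hτ]
        have : τ * |a'| ≤ τ * (2 * (τ * g)) := mul_le_mul_of_nonneg_left ha'b hτ.le
        have h3 : 0 ≤ V ^ 2 * g := mul_nonneg (sq_nonneg V) hg0
        nlinarith
      have e3 : (4 * K0 + 4) * (V ^ 2 + τ ^ 2) * g = 4 * K0 * (V ^ 2 + τ ^ 2) * g +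
        4 * (V ^ 2 + τ ^ 2) * g := by ring
      rw [e3]
      exact add_le_add h1 h2
    have hF0 : 0 ≤ τ ^ (1 / 4 : ℝ) / (V ^ 2 + τ ^ 2) ^ (9 / 8 : ℝ) := P3b_F_nonneg hτ
    have eF : P3b_F V τ = τ ^ (1 / 4 : ℝ) / (V ^ 2 + τ ^ 2) ^ (9 / 8 : ℝ) := rfl
    rw [abs_mul, eF, abs_of_nonneg (by exact hF0), mul_comm]
    refine mul_le_mul_of_nonneg_right ?_ hF0
    refine (abs_sub _ _).trans ?_
    have q1 : |a' / (4 * τ)| ≤ 1 / 2 * g := by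
      rw [abs_div, abs_of_pos (by positivity : (0 : ℝ) < 4 * τ), div_le_iff₀ (by positivity)]
      linarith
    have q2 : |9 / 8 * ((2 * inner ℝ (P.V x w) (((fderiv ℂ (P.V x) w).restrictScalars ℝ) X) +
        ((2 : ℕ) : ℝ) * dk δ c i w ^ (2 - 1) * a') / (V ^ 2 + τ ^ 2))| ≤
        9 / 8 * (4 * K0 + 4) * g := by
      rw [abs_mul, abs_of_pos (by norm_num : (0 : ℝ) < 9 / 8), abs_div, abs_of_pos hB0]
      have q3 : |2 * inner ℝ (P.V x w) (((fderiv ℂ (P.V x) w).restrictScalars ℝ) X) +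
          ((2 : ℕ) : ℝ) * dk δ c i w ^ (2 - 1) * a'| / (V ^ 2 + τ ^ 2) ≤ (4 * K0 + 4) * g := by
        rw [div_le_iff₀ hB0]
        linarith
      linarith
    have e4 : (1 / 2 + 9 / 8 * (4 * K0 + 4)) * g = 1 / 2 * g + 9 / 8 * (4 * K0 + 4) * g := by ring
    rw [e4]
    exact add_le_add q1 q2
  choose D hD1 hD2 using hterm
  have hsum : HasDerivAt (fun s : ℝ => poti P δ c i (w + s • X))
      (∑ x, P.w x * P.N x ^ 2 * D x) 0 := by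
    have h1 := HasDerivAt.fun_sum (u := Finset.univ) (A := fun x (s : ℝ) =>
      P.w x * P.N x ^ 2 * P3b_F ‖P.V x (w + s • X)‖ (dk δ c i (w + s • X)))
      (A' := fun x => P.w x * P.N x ^ 2 * D x) (x := (0 : ℝ))
      fun x _ => (hD1 x).const_mul (P.w x * P.N x ^ 2)
    exact h1
  have hpd : DifferentiableAt ℝ (poti P δ c i) w :=
    ((poti_c2 hD hP (le_refl i)).contDiffAt (hopn.mem_nhds hw)).differentiableAt (by norm_num)
  have hline := P3b_line (X := X) hpd.hasFDerivAt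
  have heq := hline.unique hsum
  rw [heq, Real.norm_eq_abs]
  calc |∑ x, P.w x * P.N x ^ 2 * D x| ≤ ∑ x, |P.w x * P.N x ^ 2 * D x| :=
        Finset.abs_sum_le_sum_abs _ _
    _ ≤ ∑ x, P.w x * P.N x ^ 2 * |D x| := by
        refine Finset.sum_le_sum fun x _ => le_of_eq ?_
        rw [abs_mul, abs_of_nonneg (mul_nonneg (hP.w0 x) (sq_nonneg _))]
    _ ≤ (1 / 2 + 9 / 8 * (4 * K0 + 4)) * g *
        ∑ x, P.w x * P.N x ^ 2 * P3b_F ‖P.V x w‖ τ := P3b_sum P hP.w0 hD2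
    _ = _ := by rw [P3b_poti]; ring

/-- Two points of a level, `v = vv (δ + t)`.
PROOF. `V_two` with the level `i`: `|V z| + dk i z ≤ K (|v| / (δ ζ + t)) (|V ζ| + dk i ζ)`, so `(|V ζ|² + τ_ζ²)^(-9/8) ≤ K' (|v| / (δ ζ + t))^(9/4) (|V z|² + τ_z²)^(-9/8)`. -/
theorem poti_har (n : ℕ) (c C A : ℝ) : ∃ K : ℝ, 1 ≤ K ∧ ∀ (U : Set (Ec n)) (δ : Ec n → ℝ)
    (h : Ec n → Ec n → Fin n → ℂ) (P : PS n), CD U δ h c C → PA P U δ h A → ∀ (i : ℕ)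
    (t : ℝ), 0 ≤ t → t ≤ c / 8 * ek i → ∀ z ∈ Om U (fun w => δ w + t),
    ∀ ζ ∈ Om U (fun w => δ w + t), poti P δ c i ζ ≤
      K * (‖vv (fun w => δ w + t) h z ζ‖ / (δ ζ + t)) ^ (9 / 4 : ℝ) *
        (dk δ c i ζ / dk δ c i z) ^ (1 / 4 : ℝ) * poti P δ c i z := by
  obtain ⟨K0, hK0, htwo⟩ := V_two n c C A
  have hK1 : 1 ≤ K0 ^ (9 / 4 : ℝ) := Real.one_le_rpow hK0 (by norm_num)
  refine ⟨4 * K0 ^ (9 / 4 : ℝ), by linarith, fun U δ h P hD hP i t ht htc z hz ζ hζ => ?_⟩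
  have hmem : ∀ y ∈ Om U (fun w => δ w + t), y ∈ Dk U δ c i := by
    intro y hy
    refine ⟨hy.1, ?_⟩
    have := hy.2
    simp only at this ⊢
    linarith
  have hτz := P3b_dk_pos hD le_rfl (hmem z hz)
  have hτζ := P3b_dk_pos hD le_rfl (hmem ζ hζ)
  have ha : 0 < δ ζ + t := hζ.2
  rw [P3b_poti, P3b_poti]
  refine P3b_sum P hP.w0 fun x => ?_
  have h2 := (htwo U δ h P hD hP x i t ht htc z hz ζ hζ).2
  have hq : 0 ≤ ‖vv (fun w => δ w + t) h z ζ‖ / (δ ζ + t) := by positivity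
  have h3 := P3b_cmp (norm_nonneg (P.V x ζ)) hτζ (norm_nonneg (P.V x z)) hτz
    (mul_nonneg (by linarith) hq) h2
  rw [Real.mul_rpow (by linarith) hq] at h3
  calc _ ≤ _ := h3
    _ = _ := by ring

/-- Neighbouring levels. PROOF. `dk (i+1) ≤ dk i ≤ 3 dk (i+1)` (or `dk_le_pow`). -/
theorem poti_next (n : ℕ) (c C A : ℝ) : ∃ K : ℝ, 1 ≤ K ∧ ∀ (U : Set (Ec n)) (δ : Ec n → ℝ)
    (h : Ec n → Ec n → Fin n → ℂ) (P : PS n), CD U δ h c C → PA P U δ h A → ∀ (i : ℕ),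
    ∀ w ∈ Dk U δ c (i + 1), poti P δ c (i + 1) w ≤ K * poti P δ c i w ∧
      poti P δ c i w ≤ K * poti P δ c (i + 1) w := by
  have h6 : (1 : ℝ) ≤ 6 ^ (9 / 4 : ℝ) := Real.one_le_rpow (by norm_num) (by norm_num)
  refine ⟨4 * 6 ^ (9 / 4 : ℝ), by linarith, fun U δ h P hD hP i w hw => ?_⟩
  have hτ := P3b_dk_pos hD (Nat.le_succ i) hw
  have hτ' := P3b_dk_pos hD (le_refl (i + 1)) hw
  have h1 := dk_anti hD (Nat.le_succ i) w
  have h2 := dk_le_pow hD (Nat.le_succ i) hw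
  have h3 : dk δ c i w ≤ 6 * dk δ c (i + 1) w := by
    have e : i.succ - i = 1 := by omega
    rw [e] at h2
    norm_num at h2
    exact h2
  have h1' : dk δ c (i + 1) w ≤ dk δ c i w := h1
  constructor
  · rw [P3b_poti, P3b_poti]
    refine P3b_sum P hP.w0 fun x => ?_
    have hV := norm_nonneg (P.V x w)
    have h4 := P3b_cmp (q := 6) hV hτ' hV hτ (by norm_num) (by linarith)
    refine h4.trans ?_
    refine mul_le_mul_of_nonneg_right ?_ (P3b_F_nonneg hτ)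
    have h5 : (dk δ c (i + 1) w / dk δ c i w) ^ (1 / 4 : ℝ) ≤ 1 :=
      Real.rpow_le_one (by positivity) ((div_le_one hτ).2 h1') (by norm_num)
    exact mul_le_of_le_one_right (by positivity) h5
  · rw [P3b_poti, P3b_poti]
    refine P3b_sum P hP.w0 fun x => ?_
    have hV := norm_nonneg (P.V x w)
    have h4 := P3b_cmp (q := 1) hV hτ hV hτ' (by norm_num) (by linarith)
    refine h4.trans ?_
    refine mul_le_mul_of_nonneg_right ?_ (P3b_F_nonneg hτ')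
    rw [Real.one_rpow, mul_one]
    refine mul_le_mul_of_nonneg_left ?_ (by norm_num)
    calc (dk δ c i w / dk δ c (i + 1) w) ^ (1 / 4 : ℝ) ≤ 6 ^ (1 / 4 : ℝ) :=
          Real.rpow_le_rpow (by positivity) ((div_le_iff₀ hτ').2 h3) (by norm_num)
      _ ≤ 6 ^ (9 / 4 : ℝ) := Real.rpow_le_rpow_of_exponent_le (by norm_num) (by norm_num)

/-- Deep points. PROOF. `dk i ζ ≤ dk l ζ ≤ δ ζ + ek l ≤ 2 δ ζ ≤ 2 dk i ζ`. -/
theorem poti_deep (n : ℕ) (c C A : ℝ) : ∃ K : ℝ, 1 ≤ K ∧ ∀ (U : Set (Ec n)) (δ : Ec n → ℝ)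
    (h : Ec n → Ec n → Fin n → ℂ) (P : PS n), CD U δ h c C → PA P U δ h A → ∀ (l i : ℕ), l ≤ i →
    ∀ ζ ∈ Om U δ, ek l ≤ δ ζ → poti P δ c i ζ ≤ K * poti P δ c l ζ := by
  have h6 : (1 : ℝ) ≤ 2 ^ (9 / 4 : ℝ) := Real.one_le_rpow (by norm_num) (by norm_num)
  refine ⟨4 * 2 ^ (9 / 4 : ℝ), by linarith, fun U δ h P hD hP l i hli ζ hζ hel => ?_⟩
  obtain ⟨hc, hc1, -⟩ := hD.pos
  have hτ := P3b_dk_pos hD (le_refl i) (Om_sub_Dk hD i hζ)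
  have hτ' := P3b_dk_pos hD (le_refl l) (Om_sub_Dk hD l hζ)
  have h1 := dk_anti hD hli ζ
  have h3 : dk δ c l ζ ≤ 2 * dk δ c i ζ := by
    have a1 : c / 4 * ek l ≤ ek l := mul_le_of_le_one_left (ek_pos l).le (by linarith)
    have a2 : 0 ≤ c / 4 * ek i := mul_nonneg (by positivity) (ek_pos i).le
    unfold dk
    linarith
  rw [P3b_poti, P3b_poti]
  refine P3b_sum P hP.w0 fun x => ?_
  have hV := norm_nonneg (P.V x ζ)
  have h4 := P3b_cmp (q := 2) hV hτ hV hτ' (by norm_num) (by linarith)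
  refine h4.trans ?_
  refine mul_le_mul_of_nonneg_right ?_ (P3b_F_nonneg hτ')
  have h5 : (dk δ c i ζ / dk δ c l ζ) ^ (1 / 4 : ℝ) ≤ 1 :=
    Real.rpow_le_one (by positivity) ((div_le_one hτ').2 h1) (by norm_num)
  exact mul_le_of_le_one_right (by positivity) h5

/-- The potential at a dilated point.
PROOF. `V_dil`: `|V(dil s w)| ≥ (|V w| + τ) / K`, `δ (dil s w) ≤ K τ` (`dil_up`, `s ≤ ek i ≤ K τ`, `δ w ≤ τ`). -/
theorem pz_dil (n : ℕ) (c C A : ℝ) : ∃ K : ℝ, 1 ≤ K ∧ ∀ (U : Set (Ec n)) (δ : Ec n → ℝ)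
    (h : Ec n → Ec n → Fin n → ℂ) (P : PS n), CD U δ h c C → PA P U δ h A → ∀ (i : ℕ),
    ∀ w ∈ Dk U δ c i, ∀ s ∈ Icc (ek (i + 1)) (ek i), pz P δ (dil s w) ≤ K * poti P δ c i w := by
  obtain ⟨K0, hK0, hdil⟩ := V_dil n c C A
  obtain ⟨L, hL, hup⟩ := dil_up n c C
  set K1 : ℝ := 1 + L * (8 / |c|) with hK1
  have hK11 : 1 ≤ K1 := by
    have : 0 ≤ L * (8 / |c|) := by positivity
    linarith
  have h6 : (1 : ℝ) ≤ K1 ^ (1 / 4 : ℝ) := Real.one_le_rpow hK11 (by norm_num)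
  have h7 : (1 : ℝ) ≤ K0 ^ (9 / 4 : ℝ) := Real.one_le_rpow hK0 (by norm_num)
  refine ⟨K1 ^ (1 / 4 : ℝ) * K0 ^ (9 / 4 : ℝ), by nlinarith, fun U δ h P hD hP i w hw s hs => ?_⟩
  obtain ⟨hc, hc1, -⟩ := hD.pos
  rw [abs_of_pos hc] at hK1
  obtain ⟨hwU, -, hw2, hw3, hw4⟩ := Dk_basic hD hw
  have hτ := P3b_dk_pos hD le_rfl hw
  have hs0 : 0 ≤ s := (ek_pos (i + 1)).le.trans hs.1
  have hs1 : s ≤ 1 := hs.2.trans (ek_le_one i)
  obtain ⟨hd1, -⟩ := dil_lo hD hw hs.1 hs1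
  have hδ : δ (dil s w) ≤ K1 * dk δ c i w := by
    have a1 := (hup U δ h hD w (Dk_anti hD (Nat.zero_le i) hw) s ⟨hs0, hs1⟩).1
    have a2 := (abs_le.1 a1).2
    have a3 : ek i ≤ 8 / c * dk δ c i w := by
      rw [div_mul_eq_mul_div, le_div_iff₀ hc]
      linarith
    have a4 : L * s ≤ L * (8 / c * dk δ c i w) :=
      mul_le_mul_of_nonneg_left (hs.2.trans a3) (by linarith)
    have a5 : δ w ≤ dk δ c i w := by
      unfold dk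
      have : 0 ≤ c / 4 * ek i := mul_nonneg (by positivity) (ek_pos i).le
      linarith
    rw [hK1]
    linarith
  rw [P3b_poti]
  unfold pz
  refine P3b_sum P hP.w0 fun x => ?_
  have hV1 := ((hdil U δ h P hD hP x i w hw).2 s hs).1
  obtain ⟨-, -, hVpos⟩ := hP.dom x hd1
  have hB : 0 < ‖P.V x w‖ ^ 2 + dk δ c i w ^ 2 := by positivity
  have hb : 0 < (‖P.V x w‖ ^ 2 + dk δ c i w ^ 2) ^ (9 / 8 : ℝ) := Real.rpow_pos_of_pos hB _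
  have hv : 0 < ‖P.V x (dil s w)‖ ^ (9 / 4 : ℝ) := Real.rpow_pos_of_pos hVpos _
  have h8 : (‖P.V x w‖ ^ 2 + dk δ c i w ^ 2) ^ (9 / 8 : ℝ) ≤
      K0 ^ (9 / 4 : ℝ) * ‖P.V x (dil s w)‖ ^ (9 / 4 : ℝ) := by
    have a1 : ‖P.V x w‖ ^ 2 + dk δ c i w ^ 2 ≤ (K0 * ‖P.V x (dil s w)‖) ^ 2 := by
      have b1 : ‖P.V x w‖ ^ 2 + dk δ c i w ^ 2 ≤ (‖P.V x w‖ + dk δ c i w) ^ 2 := by
        have := mul_nonneg (norm_nonneg (P.V x w)) hτ.le
        nlinarith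
      exact b1.trans (pow_le_pow_left₀ (by positivity) hV1 2)
    have hKV : 0 ≤ K0 * ‖P.V x (dil s w)‖ := mul_nonneg (by linarith) hVpos.le
    calc (‖P.V x w‖ ^ 2 + dk δ c i w ^ 2) ^ (9 / 8 : ℝ)
        ≤ ((K0 * ‖P.V x (dil s w)‖) ^ 2) ^ (9 / 8 : ℝ) :=
          Real.rpow_le_rpow hB.le a1 (by norm_num)
      _ = K0 ^ (9 / 4 : ℝ) * ‖P.V x (dil s w)‖ ^ (9 / 4 : ℝ) := by
          rw [P3b_pow hKV, Real.mul_rpow (by linarith) hVpos.le]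
  have h9 : δ (dil s w) ^ (1 / 4 : ℝ) ≤ K1 ^ (1 / 4 : ℝ) * dk δ c i w ^ (1 / 4 : ℝ) := by
    rw [← Real.mul_rpow (by linarith) hτ.le]
    exact Real.rpow_le_rpow hd1.2.le hδ (by norm_num)
  unfold P3b_F
  rw [div_le_iff₀ hv]
  have h10 : 0 ≤ K1 ^ (1 / 4 : ℝ) * dk δ c i w ^ (1 / 4 : ℝ) := by positivity
  calc δ (dil s w) ^ (1 / 4 : ℝ) ≤ K1 ^ (1 / 4 : ℝ) * dk δ c i w ^ (1 / 4 : ℝ) := h9
    _ = K1 ^ (1 / 4 : ℝ) * dk δ c i w ^ (1 / 4 : ℝ) /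
        (‖P.V x w‖ ^ 2 + dk δ c i w ^ 2) ^ (9 / 8 : ℝ) *
        (‖P.V x w‖ ^ 2 + dk δ c i w ^ 2) ^ (9 / 8 : ℝ) := by rw [div_mul_cancel₀ _ hb.ne']
    _ ≤ K1 ^ (1 / 4 : ℝ) * dk δ c i w ^ (1 / 4 : ℝ) /
        (‖P.V x w‖ ^ 2 + dk δ c i w ^ 2) ^ (9 / 8 : ℝ) *
        (K0 ^ (9 / 4 : ℝ) * ‖P.V x (dil s w)‖ ^ (9 / 4 : ℝ)) :=
      mul_le_mul_of_nonneg_left h8 (div_nonneg h10 hb.le)
    _ = _ := by ring

end Pool.Agent.MPca0fc2.GW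
end

section

/-! The Carleson condition and the potentials. -/

set_option autoImplicit false

open Metric Set MeasureTheory Filter Topology

namespace Pool.Agent.MPca0fc2.GW

open Pool.Agent.MPca0fc2.FD

variable {n : ℕ} {U : Set (Ec n)} {δ : Ec n → ℝ} {h : Ec n → Ec n → Fin n → ℂ} {c C A : ℝ}

private theorem P3c_frac (a d e c : ℝ) (ha : 0 ≤ a) (hc : 0 < c) (hc1 : c ≤ 1) (he : 0 < e)
    (hd1 : c / 4 * e ≤ d) (hd2 : d ≤ 2 * e) :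
    d ^ (1 / 4 : ℝ) / (a ^ 2 + d ^ 2) ^ (9 / 8 : ℝ) ≤
      ((2 : ℝ) ^ (1 / 4 : ℝ) * (2 : ℝ) ^ (9 / 8 : ℝ) / (c / 4) ^ (9 / 4 : ℝ)) *
        (e ^ (1 / 4 : ℝ) / (a + e) ^ (9 / 4 : ℝ)) := by
  have hd : 0 < d := lt_of_lt_of_le (by positivity) hd1
  have hs : 0 < a + e := by linarith
  have h1 : d ^ (1 / 4 : ℝ) ≤ (2 : ℝ) ^ (1 / 4 : ℝ) * e ^ (1 / 4 : ℝ) := by
    rw [← Real.mul_rpow (by norm_num) he.le]
    exact Real.rpow_le_rpow hd.le hd2 (by norm_num)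
  have h2 : (c / 4 * (a + e)) ^ 2 / 2 ≤ a ^ 2 + d ^ 2 := by
    have h3 : c / 4 * (a + e) ≤ a + d := by
      have : c / 4 * a ≤ a := by nlinarith
      nlinarith
    have h4 : (c / 4 * (a + e)) ^ 2 ≤ (a + d) ^ 2 := pow_le_pow_left₀ (by positivity) h3 2
    nlinarith [sq_nonneg (a - d)]
  have h5 : ((c / 4 * (a + e)) ^ 2 / 2) ^ (9 / 8 : ℝ) ≤ (a ^ 2 + d ^ 2) ^ (9 / 8 : ℝ) :=
    Real.rpow_le_rpow (by positivity) h2 (by norm_num)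
  have h6 : ((c / 4 * (a + e)) ^ 2 / 2) ^ (9 / 8 : ℝ) =
      (c / 4) ^ (9 / 4 : ℝ) * (a + e) ^ (9 / 4 : ℝ) / (2 : ℝ) ^ (9 / 8 : ℝ) := by
    rw [Real.div_rpow (by positivity) (by norm_num), ← Real.rpow_natCast _ 2,
      ← Real.rpow_mul (by positivity), ← Real.mul_rpow (by positivity) hs.le]
    norm_num
  rw [h6] at h5
  have p1 : 0 < (2 : ℝ) ^ (9 / 8 : ℝ) := Real.rpow_pos_of_pos (by norm_num) _
  have p2 : 0 < (c / 4) ^ (9 / 4 : ℝ) := Real.rpow_pos_of_pos (by positivity) _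
  have p3 : 0 < (a + e) ^ (9 / 4 : ℝ) := Real.rpow_pos_of_pos hs _
  have p4 : 0 < d ^ (1 / 4 : ℝ) := Real.rpow_pos_of_pos hd _
  have p5 : 0 < (2 : ℝ) ^ (1 / 4 : ℝ) := Real.rpow_pos_of_pos (by norm_num) _
  have p6 : 0 < e ^ (1 / 4 : ℝ) := Real.rpow_pos_of_pos he _
  calc d ^ (1 / 4 : ℝ) / (a ^ 2 + d ^ 2) ^ (9 / 8 : ℝ)
      ≤ ((2 : ℝ) ^ (1 / 4 : ℝ) * e ^ (1 / 4 : ℝ)) /
        ((c / 4) ^ (9 / 4 : ℝ) * (a + e) ^ (9 / 4 : ℝ) / (2 : ℝ) ^ (9 / 8 : ℝ)) := by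
        apply div_le_div₀ (by positivity) h1 (by positivity) h5
    _ = _ := by field_simp

/-- The sum over the levels.
PROOF. For `z ∈ Om U δ` and `j < m`: `(c / 4) ek j ≤ dk j z ≤ 2 ek j`. So `poti j z ≤ K ∑_x w N² ek j^(1/4) / (|V z| + ek j)^(9/4)`. Sum over `j` (`sum_scale` with `a = |V z|`): for the `x` with
`|V z| ≤ c₂ ek l` the sum is at most `K w N² |V z|^(-2)`: this gives `K TT P z (c₂ ek l)`. For the other `x` it is at most `K w N² ek l^(1/4) |V z|^(-9/4) ≤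
K' w N ek l^(1/4) |V z|^(-5/4)` (`PA.dom`), and the sum over these `x` is at most `K''` (depending on `c₂`): `sum_dec` with `τ := c₂ ek l`, `γ = 1/4`, the family of the `x` with
`|V z| > c₂ ek l` (put `μ = 0`, `v = max (|V z|) (c₂ ek l)` for the others), `sum_N` with `- r ≤ 0 < δ z`. -/
theorem sum_poti (n : ℕ) (c C A c₂ : ℝ) (h0 : 0 < c₂) (h1 : c₂ ≤ 1) : ∃ K : ℝ, 1 ≤ K ∧
    ∀ (U : Set (Ec n)) (δ : Ec n → ℝ) (h : Ec n → Ec n → Fin n → ℂ) (P : PS n), CD U δ h c C →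
    PA P U δ h A → ∀ z ∈ Om U δ, ∀ l m : ℕ, l ≤ m → (∀ j, j < m → δ z ≤ ek j) →
    ∑ j ∈ Finset.Ico l m, poti P δ c j z ≤ K * (1 + TT P z (c₂ * ek l)) := by
  obtain ⟨K2, hK2, hsc⟩ := sum_scale
  obtain ⟨K3, hK3, hdec⟩ := sum_dec (γ := 1 / 4) (by norm_num)
  obtain ⟨K4, hK4, hN⟩ := sum_N n c C A
  set K1 : ℝ := (2 : ℝ) ^ (1 / 4 : ℝ) * (2 : ℝ) ^ (9 / 8 : ℝ) / (c / 4) ^ (9 / 4 : ℝ) with hK1
  refine ⟨max 1 (max (K1 * K2) (K1 * K2 * A * (K3 * K4 * c₂ ^ (-(1 / 4) : ℝ)))),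
    le_max_left _ _, ?_⟩
  intro U δ h P hD hP z hz l m hlm hj
  obtain ⟨hc, hc1, hC⟩ := hD.pos
  have hA := hP.A1
  have hδz : 0 < δ z := hz.2
  have hekl := ek_pos l
  have hK1p : 0 < K1 := by
    rw [hK1]
    have p1 : 0 < (2 : ℝ) ^ (9 / 8 : ℝ) := Real.rpow_pos_of_pos (by norm_num) _
    have p2 : 0 < (c / 4) ^ (9 / 4 : ℝ) := Real.rpow_pos_of_pos (by positivity) _
    have p5 : 0 < (2 : ℝ) ^ (1 / 4 : ℝ) := Real.rpow_pos_of_pos (by norm_num) _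
    positivity
  have hTT : 0 ≤ TT P z (c₂ * ek l) := (TT_mono hP z (le_refl (c₂ * ek l))).1
  -- the bound of one level
  have hlev : ∀ j ∈ Finset.Ico l m, poti P δ c j z ≤ ∑ x, P.w x * P.N x ^ 2 *
      (K1 * (((1 / 2 : ℝ) ^ j) ^ (1 / 4 : ℝ) / (‖P.V x z‖ + (1 / 2 : ℝ) ^ j) ^ (9 / 4 : ℝ))) := by
    intro j hjm
    have hjm' := (Finset.mem_Ico.1 hjm).2
    have hδj := hj j hjm'
    have hekj := ek_pos j
    unfold poti pot
    refine Finset.sum_le_sum fun x _ => ?_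
    apply mul_le_mul_of_nonneg_left _ (mul_nonneg (hP.w0 x) (by positivity))
    have h2 : c / 4 * ek j ≤ dk δ c j z := by unfold dk; linarith
    have h3 : dk δ c j z ≤ 2 * ek j := by unfold dk; nlinarith
    have h4 := P3c_frac ‖P.V x z‖ (dk δ c j z) (ek j) c (norm_nonneg _) hc hc1 hekj h2 h3
    exact h4
  refine (Finset.sum_le_sum hlev).trans ?_
  rw [Finset.sum_comm]
  set τ : ℝ := c₂ * ek l with hτ
  have hτp : 0 < τ := mul_pos h0 hekl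
  -- the bound of one function
  have hx : ∀ x : Fin P.R, ∑ j ∈ Finset.Ico l m, P.w x * P.N x ^ 2 *
      (K1 * (((1 / 2 : ℝ) ^ j) ^ (1 / 4 : ℝ) / (‖P.V x z‖ + (1 / 2 : ℝ) ^ j) ^ (9 / 4 : ℝ))) ≤
      K1 * K2 * (if ‖P.V x z‖ ≤ τ then P.w x * (P.N x / ‖P.V x z‖) ^ 2 else 0) +
      K1 * K2 * A * (ek l) ^ (1 / 4 : ℝ) *
        ((if τ < ‖P.V x z‖ then P.w x * P.N x else 0) *
          (max ‖P.V x z‖ τ) ^ (-(1 + (1 / 4 : ℝ)))) := by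
    intro x
    obtain ⟨hNx, _, hV0⟩ := hP.dom x hz
    have hw := hP.w0 x
    have hN0 := hP.N0 x
    rw [← Finset.mul_sum, ← Finset.mul_sum]
    obtain ⟨s1, s2⟩ := hsc ‖P.V x z‖ l m hV0
    set S := ∑ j ∈ Finset.Ico l m,
      ((1 / 2 : ℝ) ^ j) ^ (1 / 4 : ℝ) / (‖P.V x z‖ + (1 / 2 : ℝ) ^ j) ^ (9 / 4 : ℝ) with hS
    have hw2 : 0 ≤ P.w x * P.N x ^ 2 * K1 := by positivity
    by_cases hle : ‖P.V x z‖ ≤ τ
    · rw [if_pos hle, if_neg (not_lt.2 hle), zero_mul, mul_zero, add_zero]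
      have h2 : ‖P.V x z‖ ^ (-2 : ℝ) = 1 / ‖P.V x z‖ ^ 2 := by
        rw [Real.rpow_neg hV0.le, one_div]
        norm_cast
      rw [h2] at s1
      calc P.w x * P.N x ^ 2 * (K1 * S) = (P.w x * P.N x ^ 2 * K1) * S := by ring
        _ ≤ (P.w x * P.N x ^ 2 * K1) * (K2 * (1 / ‖P.V x z‖ ^ 2)) :=
            mul_le_mul_of_nonneg_left s1 hw2
        _ = _ := by field_simp
    · have hlt : τ < ‖P.V x z‖ := not_le.1 hle
      rw [if_neg hle, if_pos hlt, mul_zero, zero_add, max_eq_left hlt.le]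
      have h2 : ‖P.V x z‖ ^ (-(9 / 4) : ℝ) * ‖P.V x z‖ = ‖P.V x z‖ ^ (-(1 + (1 / 4 : ℝ))) := by
        have h3 : ‖P.V x z‖ ^ (-(9 / 4) : ℝ) * ‖P.V x z‖ ^ (1 : ℝ) =
            ‖P.V x z‖ ^ (-(1 + (1 / 4 : ℝ))) := by
          rw [← Real.rpow_add hV0]
          norm_num
        rwa [Real.rpow_one] at h3
      have hp9 : 0 ≤ ‖P.V x z‖ ^ (-(9 / 4) : ℝ) := Real.rpow_nonneg hV0.le _
      have hpe : 0 ≤ (ek l) ^ (1 / 4 : ℝ) := Real.rpow_nonneg hekl.le _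
      have s2' : S ≤ K2 * (ek l) ^ (1 / 4 : ℝ) * ‖P.V x z‖ ^ (-(9 / 4) : ℝ) := s2
      calc P.w x * P.N x ^ 2 * (K1 * S) = (P.w x * P.N x ^ 2 * K1) * S := by ring
        _ ≤ (P.w x * P.N x ^ 2 * K1) *
            (K2 * (ek l) ^ (1 / 4 : ℝ) * ‖P.V x z‖ ^ (-(9 / 4) : ℝ)) :=
            mul_le_mul_of_nonneg_left s2' hw2
        _ = (K1 * K2 * (ek l) ^ (1 / 4 : ℝ) * (P.w x * P.N x) * ‖P.V x z‖ ^ (-(9 / 4) : ℝ)) *
            P.N x := by ring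
        _ ≤ (K1 * K2 * (ek l) ^ (1 / 4 : ℝ) * (P.w x * P.N x) * ‖P.V x z‖ ^ (-(9 / 4) : ℝ)) *
            (A * ‖P.V x z‖) := by
            apply mul_le_mul_of_nonneg_left hNx
            positivity
        _ = K1 * K2 * A * (ek l) ^ (1 / 4 : ℝ) * (P.w x * P.N x *
            (‖P.V x z‖ ^ (-(9 / 4) : ℝ) * ‖P.V x z‖)) := by ring
        _ = _ := by rw [h2]
  refine (Finset.sum_le_sum fun x _ => hx x).trans ?_
  rw [Finset.sum_add_distrib, ← Finset.mul_sum, ← Finset.mul_sum]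
  have hsec := hdec (fun x : Fin P.R => if τ < ‖P.V x z‖ then P.w x * P.N x else 0)
    (fun x => max ‖P.V x z‖ τ) τ K4 hτp (by linarith)
    (by
      intro x
      show 0 ≤ (if τ < ‖P.V x z‖ then P.w x * P.N x else 0)
      split_ifs
      · exact mul_nonneg (hP.w0 x) (hP.N0 x).le
      · exact le_refl _)
    (fun x => le_max_right _ _)
    (by
      intro r hr
      have hr0 : 0 < r := lt_of_lt_of_le hτp hr
      refine le_trans (Finset.sum_le_sum fun x _ => ?_) (hN U δ h P hD hP z hz.1 r hr0 (by linarith))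
      have hwN : 0 ≤ P.w x * P.N x := mul_nonneg (hP.w0 x) (hP.N0 x).le
      show (if max ‖P.V x z‖ τ ≤ r then (if τ < ‖P.V x z‖ then P.w x * P.N x else 0) else 0) ≤ _
      by_cases h2 : ‖P.V x z‖ ≤ r
      · rw [if_pos h2]
        split_ifs
        · exact le_refl _
        · exact hwN
        · exact hwN
      · rw [if_neg h2, if_neg (fun h3 => h2 ((le_max_left _ _).trans h3))])
  have hτr : τ ^ (-(1 / 4) : ℝ) = c₂ ^ (-(1 / 4) : ℝ) * (ek l) ^ (-(1 / 4) : ℝ) :=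
    Real.mul_rpow h0.le hekl.le
  have he1 : (ek l) ^ (1 / 4 : ℝ) * (ek l) ^ (-(1 / 4) : ℝ) = 1 := by
    rw [← Real.rpow_add hekl]
    norm_num
  have hpe : 0 ≤ (ek l) ^ (1 / 4 : ℝ) := Real.rpow_nonneg hekl.le _
  have hsecond : K1 * K2 * A * (ek l) ^ (1 / 4 : ℝ) *
      ∑ x : Fin P.R, ((if τ < ‖P.V x z‖ then P.w x * P.N x else 0) *
          (max ‖P.V x z‖ τ) ^ (-(1 + (1 / 4 : ℝ)))) ≤
      K1 * K2 * A * (K3 * K4 * c₂ ^ (-(1 / 4) : ℝ)) := by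
    calc _ ≤ K1 * K2 * A * (ek l) ^ (1 / 4 : ℝ) * (K3 * K4 * τ ^ (-(1 / 4) : ℝ)) := by
          apply mul_le_mul_of_nonneg_left hsec
          positivity
      _ = K1 * K2 * A * (K3 * K4 * c₂ ^ (-(1 / 4) : ℝ)) *
          ((ek l) ^ (1 / 4 : ℝ) * (ek l) ^ (-(1 / 4) : ℝ)) := by rw [hτr]; ring
      _ = _ := by rw [he1, mul_one]
  have hfirst : K1 * K2 * ∑ x : Fin P.R,
      (if ‖P.V x z‖ ≤ τ then P.w x * (P.N x / ‖P.V x z‖) ^ 2 else 0) = K1 * K2 * TT P z τ := rfl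
  rw [hfirst]
  set M := max 1 (max (K1 * K2) (K1 * K2 * A * (K3 * K4 * c₂ ^ (-(1 / 4) : ℝ)))) with hM
  have hM1 : K1 * K2 ≤ M := (le_max_left _ _).trans (le_max_right _ _)
  have hM2 : K1 * K2 * A * (K3 * K4 * c₂ ^ (-(1 / 4) : ℝ)) ≤ M :=
    (le_max_right _ _).trans (le_max_right _ _)
  have hfin := mul_le_mul_of_nonneg_right hM1 hTT
  have : M * (1 + TT P z τ) = M * TT P z τ + M := by ring
  rw [this]
  exact add_le_add hfin (hsecond.trans hM2)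

end Pool.Agent.MPca0fc2.GW
end
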