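import Pool.Agent.Lib.MP_ca0fc2_an.GW.P3a
import Pool.Agent.Lib.MP_ca0fc2_an.Mg.G031
import Pool.Agent.Lib.MP_ca0fc2_an.GW.U1

section

/-! The density `SS` of the levels. -/

set_option autoImplicit false

open Metric Set MeasureTheory Filter Topology

namespace Pool.Agent.MPca0fc2.GW

open Pool.Agent.MPca0fc2.FD

variable {n : ℕ} {U : Set (Ec n)} {δ : Ec n → ℝ} {h : Ec n → Ec n → Fin n → ℂ} {c C A : ℝ}

/-- PROOF. `vt ^ 128 = 1 / 2`. -/
theorem vt_prop : 0 < vt ∧ vt < 1 ∧ vt ^ 128 = 1 / 2 := by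
  refine ⟨?_, ?_, ?_⟩
  · unfold vt
    exact Real.rpow_pos_of_pos (by norm_num) _
  · unfold vt
    exact Real.rpow_lt_one (by norm_num) (by norm_num) (by norm_num)
  · unfold vt
    rw [← Real.rpow_natCast, ← Real.rpow_mul (by norm_num)]
    norm_num

private theorem P5a_dk_pos (hD : CD U δ h c C) {i k : ℕ} (hik : i ≤ k) {w : Ec n}
    (hw : w ∈ Dk U δ c k) : 0 < dk δ c i w := by
  have h1 := (Dk_basic hD hw).2.2.1
  have h2 := dk_anti hD hik w
  have h3 : 0 < c / 8 * ek k := mul_pos (by linarith [hD.pos.1]) (ek_pos k)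
  linarith

private theorem P5a_geo (k : ℕ) :
    ∑ i ∈ Finset.range (k + 1), vt ^ (2 * (k - i)) ≤ 1 / (1 - vt ^ 2) := by
  obtain ⟨v0, v1, -⟩ := vt_prop
  have hq0 : 0 ≤ vt ^ 2 := sq_nonneg _
  have hq1 : vt ^ 2 < 1 := by nlinarith
  have h1 : ∑ i ∈ Finset.range (k + 1), vt ^ (2 * (k - i)) =
      ∑ j ∈ Finset.range (k + 1), (vt ^ 2) ^ j := by
    rw [← Finset.sum_range_reflect (fun j => (vt ^ 2) ^ j) (k + 1)]
    refine Finset.sum_congr rfl fun i hi => ?_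
    rw [← pow_mul]
    congr 2
  rw [h1, one_div, ← tsum_geometric_of_lt_one hq0 hq1]
  exact (summable_geometric_of_lt_one hq0 hq1).sum_le_tsum _ fun j _ => pow_nonneg hq0 j

private theorem P5a_ratio {x y a : ℝ} (hy : 0 < y) (ha : 0 ≤ a) :
    (x + a) / (y + a) ≤ max 1 (x / y) := by
  have hya : 0 < y + a := by linarith
  rcases le_total x y with hxy | hxy
  · refine le_max_of_le_left ?_
    rw [div_le_one hya]
    linarith
  · refine le_max_of_le_right ?_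
    rw [div_le_div_iff₀ hya hy]
    nlinarith

theorem SQ_nonneg (hD : CD U δ h c C) {P : PS n} (hP : PA P U δ h A) {k : ℕ} {w : Ec n}
    (hw : w ∈ Dk U δ c k) : 0 ≤ SQ P δ c k w := by
  unfold SQ
  refine Finset.sum_nonneg fun i hi => ?_
  refine mul_nonneg (pow_nonneg vt_prop.1.le _) ?_
  have hik : i ≤ k := Nat.lt_succ_iff.1 (Finset.mem_range.1 hi)
  exact pot_nonneg hP _ (P5a_dk_pos hD hik hw).le w

/-- PROOF. `SL.sum` with one term. -/
theorem SL.le {s : ℕ → ℝ} (hs : SL s A) (k : ℕ) : s k ≤ A := by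
  refine le_trans ?_ (hs.sum (k + 1))
  exact Finset.single_le_sum (f := s) (fun i _ => hs.nn i)
    (Finset.mem_range.2 (Nat.lt_succ_self k))

/-- PROOF. `pot_le` for the levels `i ≤ k` (`Dk k ⊆ Dk i`), geometric series. -/
theorem SS_le (n : ℕ) (c C A : ℝ) : ∃ K : ℝ, 1 ≤ K ∧ ∀ (U : Set (Ec n)) (δ : Ec n → ℝ)
    (h : Ec n → Ec n → Fin n → ℂ) (P : PS n) (s : ℕ → ℝ), CD U δ h c C → PA P U δ h A → SL s A →
    ∀ (k : ℕ), ∀ w ∈ Dk U δ c k, 0 ≤ SS P s δ c k w ∧ SS P s δ c k w ≤ K := by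
  obtain ⟨K0, hK0, hpot⟩ := pot_le n c C A
  obtain ⟨v0, v1, -⟩ := vt_prop
  have hq1 : vt ^ 2 < 1 := by nlinarith
  have hq0 : 0 < vt ^ 2 := by positivity
  have hG : 1 ≤ 1 / (1 - vt ^ 2) := by
    rw [le_div_iff₀ (by linarith)]
    linarith
  refine ⟨K0 * (1 / (1 - vt ^ 2)) + |A|, ?_, ?_⟩
  · nlinarith [abs_nonneg A]
  · intro U δ h P s hD hP hs k w hw
    refine ⟨add_nonneg (SQ_nonneg hD hP hw) (hs.nn k), ?_⟩
    unfold SS
    refine add_le_add ?_ ((hs.le k).trans (le_abs_self A))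
    unfold SQ
    have h1 : ∀ i ∈ Finset.range (k + 1), vt ^ (2 * (k - i)) * poti P δ c i w ≤
        vt ^ (2 * (k - i)) * K0 := by
      intro i hi
      have hik : i ≤ k := Nat.lt_succ_iff.1 (Finset.mem_range.1 hi)
      exact mul_le_mul_of_nonneg_left (hpot U δ h P hD hP i w (Dk_anti hD hik hw))
        (pow_nonneg v0.le _)
    refine (Finset.sum_le_sum h1).trans ?_
    rw [← Finset.sum_mul, mul_comm K0]
    exact mul_le_mul_of_nonneg_right (P5a_geo k) (by linarith)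

/-- Two points of a level, `v = vv (δ + t)`.
PROOF. `poti_har` for `i ≤ k` (`t ≤ (c / 8) ek k ≤ (c / 8) ek i`); `dk i ζ / dk i z ≤ max 1 (dk k ζ / dk k z)` (adding the same positive number to numerator and denominator).
For `s k`: `|v| / (δ ζ + t) ≥ 1 / 2` (`v_lb` for `δ + t`). -/
theorem SS_har (n : ℕ) (c C A : ℝ) : ∃ K : ℝ, 1 ≤ K ∧ ∀ (U : Set (Ec n)) (δ : Ec n → ℝ)
    (h : Ec n → Ec n → Fin n → ℂ) (P : PS n) (s : ℕ → ℝ), CD U δ h c C → PA P U δ h A → SL s A →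
    ∀ (k : ℕ) (t : ℝ), 0 ≤ t → t ≤ c / 8 * ek k → ∀ z ∈ Om U (fun w => δ w + t),
    ∀ ζ ∈ Om U (fun w => δ w + t), SS P s δ c k ζ ≤
      K * (‖vv (fun w => δ w + t) h z ζ‖ / (δ ζ + t)) ^ (9 / 4 : ℝ) *
        (max 1 (dk δ c k ζ / dk δ c k z)) ^ (1 / 4 : ℝ) * SS P s δ c k z := by
  obtain ⟨K1, hK1, hhar⟩ := poti_har n c C A
  refine ⟨K1 + 8, by linarith, ?_⟩
  intro U δ h P s hD hP hs k t ht htk z hz ζ hζ
  have hc := hD.pos.1
  have hlev : ∀ y ∈ Om U (fun w => δ w + t), y ∈ Dk U δ c k := by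
    intro y hy
    refine ⟨hy.1, ?_⟩
    have h1 : 0 < δ y + t := hy.2
    change 0 < δ y + c / 8 * ek k
    linarith
  have hzk := hlev z hz
  have hζk := hlev ζ hζ
  have htc : t ≤ c / 2 := by
    have h1 : c / 8 * ek k ≤ c / 8 * 1 :=
      mul_le_mul_of_nonneg_left (ek_le_one k) (by linarith)
    linarith
  obtain ⟨-, hv2, -, hv4⟩ := v_lb (hD.lev ht htc) hz hζ
  have hζt : 0 < δ ζ + t := hζ.2
  set v := ‖vv (fun w => δ w + t) h z ζ‖ with hv
  set ρ := v / (δ ζ + t) with hρ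
  set M := max 1 (dk δ c k ζ / dk δ c k z) with hM
  have hρ1 : 1 / 2 ≤ ρ := by
    rw [hρ, le_div_iff₀ hζt]
    have h1 : δ ζ + t ≤ 2 * v := hv2
    linarith
  have hρ0 : 0 < ρ := by linarith
  have hρp : 0 < ρ ^ (9 / 4 : ℝ) := Real.rpow_pos_of_pos hρ0 _
  have hM1 : 1 ≤ M := le_max_left _ _
  have hMp : 1 ≤ M ^ (1 / 4 : ℝ) := Real.one_le_rpow hM1 (by norm_num)
  have hρ8 : 1 ≤ 8 * ρ ^ (9 / 4 : ℝ) := by
    have h1 : (1 / 2 : ℝ) ^ (9 / 4 : ℝ) ≤ ρ ^ (9 / 4 : ℝ) :=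
      Real.rpow_le_rpow (by norm_num) hρ1 (by norm_num)
    have h2 : (1 / 2 : ℝ) ^ (3 : ℝ) ≤ (1 / 2 : ℝ) ^ (9 / 4 : ℝ) :=
      Real.rpow_le_rpow_of_exponent_ge (by norm_num) (by norm_num) (by norm_num)
    have h3 : (1 / 2 : ℝ) ^ (3 : ℝ) = 1 / 8 := by
      rw [show (3 : ℝ) = ((3 : ℕ) : ℝ) by norm_num, Real.rpow_natCast]
      norm_num
    linarith
  have hterm : ∀ i ∈ Finset.range (k + 1), vt ^ (2 * (k - i)) * poti P δ c i ζ ≤
      K1 * ρ ^ (9 / 4 : ℝ) * M ^ (1 / 4 : ℝ) * (vt ^ (2 * (k - i)) * poti P δ c i z) := by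
    intro i hi
    have hik : i ≤ k := Nat.lt_succ_iff.1 (Finset.mem_range.1 hi)
    have hti : t ≤ c / 8 * ek i :=
      htk.trans (mul_le_mul_of_nonneg_left (ek_anti hik) (by linarith))
    have h1 := hhar U δ h P hD hP i t ht hti z hz ζ hζ
    have hzi := P5a_dk_pos hD hik hzk
    have hζi := P5a_dk_pos hD hik hζk
    have hzk0 := P5a_dk_pos hD le_rfl hzk
    have hr : dk δ c i ζ / dk δ c i z ≤ M := by
      have h2 : dk δ c i ζ = dk δ c k ζ + (c / 4 * ek i - c / 4 * ek k) := by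
        unfold dk
        ring
      have h3 : dk δ c i z = dk δ c k z + (c / 4 * ek i - c / 4 * ek k) := by
        unfold dk
        ring
      rw [h2, h3]
      refine P5a_ratio hzk0 ?_
      have h4 : c / 4 * ek k ≤ c / 4 * ek i :=
        mul_le_mul_of_nonneg_left (ek_anti hik) (by linarith)
      linarith
    have hr0 : 0 ≤ dk δ c i ζ / dk δ c i z := (div_pos hζi hzi).le
    have hrp : (dk δ c i ζ / dk δ c i z) ^ (1 / 4 : ℝ) ≤ M ^ (1 / 4 : ℝ) :=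
      Real.rpow_le_rpow hr0 hr (by norm_num)
    have hpn : 0 ≤ poti P δ c i z := pot_nonneg hP _ hzi.le z
    have h5 : poti P δ c i ζ ≤ K1 * ρ ^ (9 / 4 : ℝ) * M ^ (1 / 4 : ℝ) * poti P δ c i z := by
      refine h1.trans ?_
      refine mul_le_mul_of_nonneg_right ?_ hpn
      exact mul_le_mul_of_nonneg_left hrp (mul_nonneg (by linarith) hρp.le)
    calc vt ^ (2 * (k - i)) * poti P δ c i ζ ≤
          vt ^ (2 * (k - i)) * (K1 * ρ ^ (9 / 4 : ℝ) * M ^ (1 / 4 : ℝ) * poti P δ c i z) :=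
          mul_le_mul_of_nonneg_left h5 (pow_nonneg vt_prop.1.le _)
      _ = _ := by ring
  have hSQ : SQ P δ c k ζ ≤ K1 * ρ ^ (9 / 4 : ℝ) * M ^ (1 / 4 : ℝ) * SQ P δ c k z := by
    unfold SQ
    rw [Finset.mul_sum]
    exact Finset.sum_le_sum hterm
  have hSQn := SQ_nonneg hD hP hzk
  have hsn := hs.nn k
  unfold SS
  have hXM : 1 ≤ 8 * ρ ^ (9 / 4 : ℝ) * M ^ (1 / 4 : ℝ) := by
    nlinarith
  have hX0 : 0 ≤ ρ ^ (9 / 4 : ℝ) * M ^ (1 / 4 : ℝ) := mul_nonneg hρp.le (by linarith)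
  have hs1 : s k ≤ 8 * ρ ^ (9 / 4 : ℝ) * M ^ (1 / 4 : ℝ) * s k := by
    nlinarith
  calc SQ P δ c k ζ + s k ≤ K1 * ρ ^ (9 / 4 : ℝ) * M ^ (1 / 4 : ℝ) * SQ P δ c k z +
        8 * ρ ^ (9 / 4 : ℝ) * M ^ (1 / 4 : ℝ) * s k := add_le_add hSQ hs1
    _ ≤ (K1 + 8) * ρ ^ (9 / 4 : ℝ) * M ^ (1 / 4 : ℝ) * (SQ P δ c k z + s k) := by
        nlinarith [mul_nonneg hX0 hSQn, mul_nonneg hX0 hsn]

/-- PROOF. `SS_har` with `t = 0`. -/
theorem SS_har0 (n : ℕ) (c C A : ℝ) : ∃ K : ℝ, 1 ≤ K ∧ ∀ (U : Set (Ec n)) (δ : Ec n → ℝ)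
    (h : Ec n → Ec n → Fin n → ℂ) (P : PS n) (s : ℕ → ℝ), CD U δ h c C → PA P U δ h A → SL s A →
    ∀ (k : ℕ), ∀ z ∈ Om U δ, ∀ ζ ∈ Om U δ, SS P s δ c k ζ ≤
      K * (‖vv δ h z ζ‖ / δ ζ) ^ (9 / 4 : ℝ) *
        (max 1 (dk δ c k ζ / dk δ c k z)) ^ (1 / 4 : ℝ) * SS P s δ c k z := by
  obtain ⟨K, hK, hhar⟩ := SS_har n c C A
  refine ⟨K, hK, ?_⟩
  intro U δ h P s hD hP hs k z hz ζ hζ
  have hc := hD.pos.1
  have h1 := hhar U δ h P s hD hP hs k 0 le_rfl
    (mul_nonneg (by linarith) (ek_pos k).le) z (by rw [Om_zero]; exact hz) ζ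
    (by rw [Om_zero]; exact hζ)
  simp only [add_zero] at h1
  exact h1

end Pool.Agent.MPca0fc2.GW
end

section

/-! The density `SS` of the levels. -/

set_option autoImplicit false

open Metric Set MeasureTheory Filter Topology

namespace Pool.Agent.MPca0fc2.GW

open Pool.Agent.MPca0fc2.FD

variable {n : ℕ} {U : Set (Ec n)} {δ : Ec n → ℝ} {h : Ec n → Ec n → Fin n → ℂ} {c C A : ℝ}

private theorem P5b_pos (hD : CD U δ h c C) {P : PS n} (hP : PA P U δ h A) {i k : ℕ} (hik : i ≤ k)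
    {w : Ec n} (hw : w ∈ Dk U δ c k) : 0 ≤ poti P δ c i w := by
  have hw' := Dk_anti hD hik hw
  have h1 := (Dk_basic hD hw').2.2.1
  have h2 := ek_pos i
  have h3 := hD.pos.1
  have h4 : 0 < c / 8 * ek i := by positivity
  exact pot_nonneg hP _ (by linarith) w

private theorem P5b_vt : 0 < vt ∧ vt < 1 ∧ 1 / 2 ≤ vt ^ 2 ∧ vt ^ 2 < 1 := by
  obtain ⟨h0, h1, h2⟩ := vt_prop
  refine ⟨h0, h1, ?_, ?_⟩
  · rw [← h2]
    exact pow_le_pow_of_le_one h0.le h1.le (by norm_num)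
  · exact pow_lt_one₀ h0.le h1 (by norm_num)

private theorem P5b_geo (i m : ℕ) :
    ∑ j ∈ Finset.Ico i m, vt ^ (2 * (j - i)) ≤ 1 / (1 - vt ^ 2) := by
  obtain ⟨h0, h1, h2, h3⟩ := P5b_vt
  rw [Finset.sum_Ico_eq_sum_range]
  have h4 : ∀ k ∈ Finset.range (m - i), vt ^ (2 * (i + k - i)) = (vt ^ 2) ^ k := by
    intro k _
    rw [← pow_mul]
    congr 2
    omega
  rw [Finset.sum_congr rfl h4]
  have h5 := Summable.sum_le_tsum (Finset.range (m - i))
    (fun k _ => pow_nonneg (show 0 ≤ vt ^ 2 by positivity) k)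
    (summable_geometric_of_lt_one (by positivity) h3)
  rw [tsum_geometric_of_lt_one (by positivity) h3] at h5
  rwa [one_div]

private theorem P5b_geo' (j l : ℕ) (hl : l ≤ j) :
    ∑ i ∈ Finset.range l, vt ^ (2 * (j - i)) ≤ vt ^ (2 * (j - l)) * (1 / (1 - vt ^ 2)) := by
  obtain ⟨h0, h1, h2, h3⟩ := P5b_vt
  have h4 : ∑ i ∈ Finset.range l, vt ^ (2 * (j - i)) =
      ∑ i ∈ Finset.range l, vt ^ (2 * (j - l)) * vt ^ (2 * ((i + 1) - 0)) := by
    rw [← Finset.sum_range_reflect]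
    refine Finset.sum_congr rfl fun i hi => ?_
    rw [Finset.mem_range] at hi
    rw [← pow_add]
    congr 1
    omega
  rw [h4, ← Finset.mul_sum]
  refine mul_le_mul_of_nonneg_left ?_ (by positivity)
  refine le_trans ?_ (P5b_geo 0 l)
  rw [← Finset.range_eq_Ico]
  refine Finset.sum_le_sum fun i _ => ?_
  exact pow_le_pow_of_le_one h0.le h1.le (by omega)

private theorem P5b_le_SQ (hD : CD U δ h c C) {P : PS n} (hP : PA P U δ h A) {k : ℕ} {w : Ec n}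
    (hw : w ∈ Dk U δ c k) : poti P δ c k w ≤ SQ P δ c k w := by
  obtain ⟨h0, h1, -, -⟩ := P5b_vt
  unfold SQ
  have h2 := Finset.single_le_sum (f := fun i => vt ^ (2 * (k - i)) * poti P δ c i w)
    (s := Finset.range (k + 1)) (a := k)
    (fun i hi => mul_nonneg (pow_nonneg h0.le _)
      (P5b_pos hD hP (Nat.lt_succ_iff.1 (Finset.mem_range.1 hi)) hw))
    (Finset.mem_range.2 (Nat.lt_succ_self k))
  simp only [Nat.sub_self, mul_zero, pow_zero, one_mul] at h2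
  exact h2

private theorem P5b_succ (P : PS n) (k : ℕ) (w : Ec n) :
    SQ P δ c (k + 1) w = vt ^ 2 * SQ P δ c k w + poti P δ c (k + 1) w := by
  unfold SQ
  rw [Finset.sum_range_succ, Finset.mul_sum]
  congr 1
  · refine Finset.sum_congr rfl fun i hi => ?_
    have hi' : i ≤ k := Nat.lt_succ_iff.1 (Finset.mem_range.1 hi)
    rw [← mul_assoc, ← pow_add]
    congr 2
    omega
  · simp

/-- Neighbouring levels.
PROOF. `SQ (k+1) = vt² SQ k + poti (k+1)`, `poti (k+1) ≤ K poti k ≤ K SQ k` (`poti_next`), `SQ k ≤ vt^(-2) SQ (k+1)`; `SL.up`, `SL.dn`. -/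
theorem SS_next (n : ℕ) (c C A : ℝ) : ∃ K : ℝ, 1 ≤ K ∧ ∀ (U : Set (Ec n)) (δ : Ec n → ℝ)
    (h : Ec n → Ec n → Fin n → ℂ) (P : PS n) (s : ℕ → ℝ), CD U δ h c C → PA P U δ h A → SL s A →
    ∀ (k : ℕ), ∀ w ∈ Dk U δ c (k + 1), SS P s δ c (k + 1) w ≤ K * SS P s δ c k w ∧
      SS P s δ c k w ≤ K * SS P s δ c (k + 1) w := by
  obtain ⟨K, hK, hn⟩ := poti_next n c C A
  obtain ⟨v0, v1, v2, v3⟩ := P5b_vt
  refine ⟨2 + K, by linarith, fun U δ h P s hD hP hs k w hw => ?_⟩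
  have hw' := Dk_anti hD (Nat.le_succ k) hw
  obtain ⟨h1, -⟩ := hn U δ h P hD hP k w hw
  have h2 := P5b_le_SQ hD hP hw'
  have h3 := P5b_pos hD hP (le_refl (k + 1)) hw
  have h4 := SQ_nonneg hD hP hw'
  have h5 := SQ_nonneg hD hP hw
  have h6 := P5b_succ (δ := δ) (c := c) P k w
  have s0 := hs.nn k
  have s1 := hs.nn (k + 1)
  have s2 := hs.up k
  have s3 := hs.dn k
  have h7 : K * poti P δ c k w ≤ K * SQ P δ c k w := mul_le_mul_of_nonneg_left h2 (by linarith)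
  have h8 : vt ^ 2 * SQ P δ c k w ≤ 1 * SQ P δ c k w := mul_le_mul_of_nonneg_right v3.le h4
  have h9 : 1 / 2 * SQ P δ c k w ≤ vt ^ 2 * SQ P δ c k w := mul_le_mul_of_nonneg_right v2 h4
  have h10 : 0 ≤ K * s k := by positivity
  have h11 : 0 ≤ K * SQ P δ c (k + 1) w := by positivity
  have h12 : 0 ≤ K * s (k + 1) := by positivity
  unfold SS
  constructor
  · have e : (2 + K) * (SQ P δ c k w + s k) =
        2 * SQ P δ c k w + K * SQ P δ c k w + 2 * s k + K * s k := by ring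
    rw [e]
    linarith
  · have e : (2 + K) * (SQ P δ c (k + 1) w + s (k + 1)) =
        2 * SQ P δ c (k + 1) w + K * SQ P δ c (k + 1) w + 2 * s (k + 1) + K * s (k + 1) := by ring
    rw [e]
    linarith

/-- Deep points.
PROOF. In `SQ j ζ` the terms `i ≤ l` are at most the terms of `SQ l ζ` (`vt^(2(j-i)) ≤ vt^(2(l-i))`), and the terms `l < i ≤ j` are at most `K vt^(2(j-i)) poti l ζ` (`poti_deep`),
`poti l ζ ≤ SQ l ζ`. -/
theorem SS_deep (n : ℕ) (c C A : ℝ) : ∃ K : ℝ, 1 ≤ K ∧ ∀ (U : Set (Ec n)) (δ : Ec n → ℝ)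
    (h : Ec n → Ec n → Fin n → ℂ) (P : PS n) (s : ℕ → ℝ), CD U δ h c C → PA P U δ h A → SL s A →
    ∀ (l j : ℕ), l ≤ j → ∀ ζ ∈ Om U δ, ek l ≤ δ ζ →
    SS P s δ c j ζ ≤ K * SS P s δ c l ζ + s j := by
  obtain ⟨K, hK, hdp⟩ := poti_deep n c C A
  obtain ⟨v0, v1, v2, v3⟩ := P5b_vt
  have hG : 0 < 1 / (1 - vt ^ 2) := by
    apply div_pos one_pos
    linarith
  refine ⟨1 + K * (1 / (1 - vt ^ 2)), by nlinarith, fun U δ h P s hD hP hs l j hlj ζ hζ hel => ?_⟩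
  have hζk : ∀ k, ζ ∈ Dk U δ c k := fun k => Om_sub_Dk hD k hζ
  have h1 : SQ P δ c j ζ = ∑ i ∈ Finset.range (l + 1), vt ^ (2 * (j - i)) * poti P δ c i ζ +
      ∑ i ∈ Finset.Ico (l + 1) (j + 1), vt ^ (2 * (j - i)) * poti P δ c i ζ := by
    unfold SQ
    rw [Finset.sum_range_add_sum_Ico _ (by omega)]
  have h2 : ∑ i ∈ Finset.range (l + 1), vt ^ (2 * (j - i)) * poti P δ c i ζ ≤
      SQ P δ c l ζ := by
    unfold SQ
    refine Finset.sum_le_sum fun i _ => ?_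
    refine mul_le_mul_of_nonneg_right ?_ (P5b_pos hD hP (le_refl i) (hζk i))
    exact pow_le_pow_of_le_one v0.le v1.le (by omega)
  have hpl := P5b_pos hD hP (le_refl l) (hζk l)
  have h3 : ∑ i ∈ Finset.Ico (l + 1) (j + 1), vt ^ (2 * (j - i)) * poti P δ c i ζ ≤
      ∑ i ∈ Finset.Ico (l + 1) (j + 1), vt ^ (2 * (j - i)) * (K * poti P δ c l ζ) := by
    refine Finset.sum_le_sum fun i hi => ?_
    rw [Finset.mem_Ico] at hi
    exact mul_le_mul_of_nonneg_left (hdp U δ h P hD hP l i (by omega) ζ hζ hel)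
      (pow_nonneg v0.le _)
  have h4 : ∑ i ∈ Finset.Ico (l + 1) (j + 1), vt ^ (2 * (j - i)) ≤ 1 / (1 - vt ^ 2) := by
    have h6 : ∑ i ∈ Finset.Ico (l + 1) (j + 1), vt ^ (2 * (j - i)) ≤
        ∑ i ∈ Finset.range (j + 1), vt ^ (2 * (j - i)) := by
      apply Finset.sum_le_sum_of_subset_of_nonneg
      · intro x hx
        rw [Finset.mem_Ico] at hx
        rw [Finset.mem_range]
        omega
      · intro i _ _
        positivity
    refine h6.trans ?_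
    have e : ∑ i ∈ Finset.range (j + 1), vt ^ (2 * (j - i)) =
        ∑ i ∈ Finset.range (j + 1), vt ^ (2 * i) := by
      rw [← Finset.sum_range_reflect (fun i => vt ^ (2 * i)) (j + 1)]
      refine Finset.sum_congr rfl fun i _ => ?_
      congr 2
    rw [e]
    have h7 := P5b_geo 0 (j + 1)
    rw [← Finset.range_eq_Ico] at h7
    exact h7
  rw [← Finset.sum_mul] at h3
  have h5 := mul_le_mul_of_nonneg_right h4 (show 0 ≤ K * poti P δ c l ζ by positivity)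
  have h6 := P5b_le_SQ hD hP (hζk l)
  have h7 : 1 / (1 - vt ^ 2) * (K * poti P δ c l ζ) ≤
      1 / (1 - vt ^ 2) * (K * SQ P δ c l ζ) := by
    refine mul_le_mul_of_nonneg_left (mul_le_mul_of_nonneg_left h6 (by linarith)) hG.le
  have s0 := hs.nn l
  have h8 : 0 ≤ (1 + K * (1 / (1 - vt ^ 2))) * s l := by positivity
  unfold SS
  have e : (1 + K * (1 / (1 - vt ^ 2))) * (SQ P δ c l ζ + s l) + s j =
      SQ P δ c l ζ + 1 / (1 - vt ^ 2) * (K * SQ P δ c l ζ) +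
      (1 + K * (1 / (1 - vt ^ 2))) * s l + s j := by ring
  rw [e]
  linarith

/-- The sum over the levels.
PROOF. `∑_{l ≤ j < m} SQ j z = ∑_{i < m} poti i z ∑_{max i l ≤ j < m} vt^(2(j-i)) ≤ K (∑_{l ≤ i < m} poti i z + ∑_{i < l} vt^(2(l-i)) poti i z)`; `sum_poti`, `pot_le`; `SL.sum`. -/
theorem SS_sum (n : ℕ) (c C A c₂ : ℝ) (h0 : 0 < c₂) (h1 : c₂ ≤ 1) : ∃ K : ℝ, 1 ≤ K ∧
    ∀ (U : Set (Ec n)) (δ : Ec n → ℝ) (h : Ec n → Ec n → Fin n → ℂ) (P : PS n) (s : ℕ → ℝ),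
    CD U δ h c C → PA P U δ h A → SL s A → ∀ z ∈ Om U δ, ∀ l m : ℕ, l ≤ m →
    (∀ j, j < m → δ z ≤ ek j) →
    ∑ j ∈ Finset.Ico l m, SS P s δ c j z ≤ K * (1 + TT P z (c₂ * ek l)) := by
  obtain ⟨K1, hK1, hsp⟩ := sum_poti n c C A c₂ h0 h1
  obtain ⟨K0, hK0, hpl⟩ := pot_le n c C A
  obtain ⟨v0, v1, v2, v3⟩ := P5b_vt
  obtain ⟨G, hG⟩ : ∃ G : ℝ, G = 1 / (1 - vt ^ 2) := ⟨_, rfl⟩
  have hG0 : 0 < G := by
    rw [hG]
    apply div_pos one_pos
    linarith
  refine ⟨1 + |A| + K0 * G ^ 2 + G * K1, ?_, fun U δ h P s hD hP hs z hz l m hlm hj => ?_⟩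
  · have : 0 ≤ |A| := abs_nonneg A
    have : 0 ≤ K0 * G ^ 2 := by positivity
    have : 0 ≤ G * K1 := by positivity
    linarith
  have hzk : ∀ k, z ∈ Dk U δ c k := fun k => Om_sub_Dk hD k hz
  have hTT := (TT_mono hP z (le_refl (c₂ * ek l))).1
  have hp0 : ∀ i, 0 ≤ poti P δ c i z := fun i => P5b_pos hD hP (le_refl i) (hzk i)
  have hs1 : ∑ j ∈ Finset.Ico l m, s j ≤ |A| := by
    refine le_trans ?_ ((hs.sum m).trans (le_abs_self A))
    apply Finset.sum_le_sum_of_subset_of_nonneg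
    · intro x hx
      rw [Finset.mem_Ico] at hx
      exact Finset.mem_range.2 hx.2
    · intro i _ _
      exact hs.nn i
  have hsplit : ∀ j ∈ Finset.Ico l m, SQ P δ c j z =
      ∑ i ∈ Finset.range l, vt ^ (2 * (j - i)) * poti P δ c i z +
      ∑ i ∈ Finset.Ico l (j + 1), vt ^ (2 * (j - i)) * poti P δ c i z := by
    intro j hj
    rw [Finset.mem_Ico] at hj
    unfold SQ
    rw [Finset.sum_range_add_sum_Ico _ (by omega)]
  have hfirst : ∑ j ∈ Finset.Ico l m, ∑ i ∈ Finset.range l, vt ^ (2 * (j - i)) * poti P δ c i z ≤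
      K0 * G ^ 2 := by
    calc ∑ j ∈ Finset.Ico l m, ∑ i ∈ Finset.range l, vt ^ (2 * (j - i)) * poti P δ c i z
        ≤ ∑ j ∈ Finset.Ico l m, ∑ i ∈ Finset.range l, vt ^ (2 * (j - i)) * K0 := by
          refine Finset.sum_le_sum fun j _ => Finset.sum_le_sum fun i _ => ?_
          exact mul_le_mul_of_nonneg_left (hpl U δ h P hD hP i z (hzk i)) (pow_nonneg v0.le _)
      _ ≤ ∑ j ∈ Finset.Ico l m, vt ^ (2 * (j - l)) * G * K0 := by
          refine Finset.sum_le_sum fun j hj => ?_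
          rw [Finset.mem_Ico] at hj
          rw [← Finset.sum_mul]
          refine mul_le_mul_of_nonneg_right ?_ (by linarith)
          have := P5b_geo' j l hj.1
          rwa [← hG] at this
      _ = (∑ j ∈ Finset.Ico l m, vt ^ (2 * (j - l))) * (G * K0) := by
          rw [Finset.sum_mul]
          refine Finset.sum_congr rfl fun j _ => ?_
          ring
      _ ≤ G * (G * K0) := by
          refine mul_le_mul_of_nonneg_right ?_ (by positivity)
          have := P5b_geo l m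
          rwa [← hG] at this
      _ = K0 * G ^ 2 := by ring
  have hsecond : ∑ j ∈ Finset.Ico l m, ∑ i ∈ Finset.Ico l (j + 1),
      vt ^ (2 * (j - i)) * poti P δ c i z ≤ G * (K1 * (1 + TT P z (c₂ * ek l))) := by
    have e1 : ∑ j ∈ Finset.Ico l m, ∑ i ∈ Finset.Ico l (j + 1),
        vt ^ (2 * (j - i)) * poti P δ c i z = ∑ i ∈ Finset.Ico l m, ∑ j ∈ Finset.Ico i m,
        vt ^ (2 * (j - i)) * poti P δ c i z := by
      apply Finset.sum_comm'
      intro x y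
      simp only [Finset.mem_Ico]
      omega
    rw [e1]
    calc ∑ i ∈ Finset.Ico l m, ∑ j ∈ Finset.Ico i m, vt ^ (2 * (j - i)) * poti P δ c i z
        ≤ ∑ i ∈ Finset.Ico l m, G * poti P δ c i z := by
          refine Finset.sum_le_sum fun i _ => ?_
          rw [← Finset.sum_mul]
          refine mul_le_mul_of_nonneg_right ?_ (hp0 i)
          have := P5b_geo i m
          rwa [← hG] at this
      _ = G * ∑ i ∈ Finset.Ico l m, poti P δ c i z := by rw [Finset.mul_sum]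
      _ ≤ _ := mul_le_mul_of_nonneg_left (hsp U δ h P hD hP z hz l m hlm hj) hG0.le
  have htot : ∑ j ∈ Finset.Ico l m, SS P s δ c j z =
      ∑ j ∈ Finset.Ico l m, ∑ i ∈ Finset.range l, vt ^ (2 * (j - i)) * poti P δ c i z +
      ∑ j ∈ Finset.Ico l m, ∑ i ∈ Finset.Ico l (j + 1), vt ^ (2 * (j - i)) * poti P δ c i z +
      ∑ j ∈ Finset.Ico l m, s j := by
    rw [← Finset.sum_add_distrib, ← Finset.sum_add_distrib]
    refine Finset.sum_congr rfl fun j hj => ?_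
    unfold SS
    rw [hsplit j hj]
  rw [htot]
  have h2 : 0 ≤ (1 + |A| + K0 * G ^ 2) * TT P z (c₂ * ek l) := by positivity
  have e : (1 + |A| + K0 * G ^ 2 + G * K1) * (1 + TT P z (c₂ * ek l)) =
      1 + |A| + K0 * G ^ 2 + (1 + |A| + K0 * G ^ 2) * TT P z (c₂ * ek l) +
      G * (K1 * (1 + TT P z (c₂ * ek l))) := by ring
  rw [e]
  linarith

end Pool.Agent.MPca0fc2.GW
end

section

/-! The approximations of a function with a Carleson gradient. -/

set_option autoImplicit false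

open Metric Set MeasureTheory Filter Topology

namespace Pool.Agent.MPca0fc2.GW

open Pool.Agent.MPca0fc2.FD

variable {n : ℕ} {U : Set (Ec n)} {δ : Ec n → ℝ} {h : Ec n → Ec n → Fin n → ℂ} {c C A : ℝ}

/-- a smooth step: `0` on `(-∞, 1]` and `1` on `[2, ∞)` -/
noncomputable def ps (x : ℝ) : ℝ := Real.smoothTransition (x - 1)

/-- the aged approximation: only the increments with a large potential -/
noncomputable def vq (P : PS n) (δ : Ec n → ℝ) (c c₁ : ℝ) (u : Ec n → ℂ) (k : ℕ) (w : Ec n) : ℂ :=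
  u 0 + ∑ i ∈ Finset.range k, ((ps (poti P δ c i w / (c₁ * vt ^ (k - i))) : ℝ) : ℂ) *
    (uk u (i + 1) w - uk u i w)

/-- the Carleson condition for the gradient -/
def CG (P : PS n) (U : Set (Ec n)) (δ : Ec n → ℝ) (h : Ec n → Ec n → Fin n → ℂ) (A p : ℝ)
    (u : Ec n → ℂ) : Prop :=
  ∀ z ∈ Om U δ, ∀ X : Ec n, ‖fderiv ℂ u z X‖ ≤ A * (pz P δ z) ^ (1 / p) * gau δ h z X

/-- PROOF. The derivative of `Real.smoothTransition` is continuous and vanishes outside `[0, 1]`. -/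
theorem ps_prop : ContDiff ℝ 2 ps ∧ (∀ x, 0 ≤ ps x ∧ ps x ≤ 1) ∧ (∀ x, x ≤ 1 → ps x = 0) ∧
    (∀ x, 2 ≤ x → ps x = 1) ∧ ∃ K : ℝ, 0 < K ∧ ∀ x, |deriv ps x| ≤ K ∧
      (x ∉ Ioo (1 : ℝ) 2 → deriv ps x = 0) := by
  have h1 : ContDiff ℝ 2 ps := by
    unfold ps
    exact Real.smoothTransition.contDiff.comp (contDiff_id.sub contDiff_const)
  have h2 : ∀ x, 0 ≤ ps x ∧ ps x ≤ 1 := fun x =>
    ⟨Real.smoothTransition.nonneg _, Real.smoothTransition.le_one _⟩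
  have h3 : ∀ x, x ≤ 1 → ps x = 0 := fun x hx =>
    Real.smoothTransition.zero_of_nonpos (by linarith)
  have h4 : ∀ x, 2 ≤ x → ps x = 1 := fun x hx =>
    Real.smoothTransition.one_of_one_le (by linarith)
  have h5 : ∀ x, x ∉ Ioo (1 : ℝ) 2 → deriv ps x = 0 := by
    intro x hx
    by_cases hx1 : x ≤ 1
    · refine IsLocalMin.deriv_eq_zero (Filter.Eventually.of_forall fun y => ?_)
      rw [h3 x hx1]
      exact (h2 y).1
    · have hx2 : 2 ≤ x := by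
        by_contra hcon
        exact hx ⟨not_le.mp hx1, not_le.mp hcon⟩
      refine IsLocalMax.deriv_eq_zero (Filter.Eventually.of_forall fun y => ?_)
      rw [h4 x hx2]
      exact (h2 y).2
  have h6 : Continuous (deriv ps) := h1.continuous_deriv (by norm_num)
  obtain ⟨K, hK⟩ := (isCompact_Icc (a := (1 : ℝ)) (b := 2)).exists_bound_of_continuousOn
    h6.continuousOn
  refine ⟨h1, h2, h3, h4, |K| + 1, by positivity, fun x => ⟨?_, h5 x⟩⟩
  by_cases hx : x ∈ Ioo (1 : ℝ) 2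
  · have := hK x (Ioo_subset_Icc_self hx)
    rw [Real.norm_eq_abs] at this
    linarith [le_abs_self K]
  · rw [h5 x hx, abs_zero]
    positivity

/-- The increments.
PROOF. `inc_int`: for `s ∈ [ek (i+1), ek i]`: `‖du(dil s w) w‖ ≤ A pz(dil s w)^(1/p) gau(dil s w, w) ≤ K (poti i w)^(1/p) gau (dk i) h w w` (`pz_dil`, `gau_dil`) and `gau (dk i) h w w ≤ K / dk` (`lin_le`, `‖w‖ ≤ C`,
`‖h‖ ≤ C`, `dk ≤ C`), `ek i ≤ (8 / c) dk`. -/
theorem inc_carl (n : ℕ) (c C A p : ℝ) (hp : 1 ≤ p) : ∃ K : ℝ, 1 ≤ K ∧ ∀ (U : Set (Ec n))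
    (δ : Ec n → ℝ) (h : Ec n → Ec n → Fin n → ℂ) (P : PS n) (u : Ec n → ℂ), CD U δ h c C →
    PA P U δ h A → DifferentiableOn ℂ u (Om U δ) → CG P U δ h A p u → ∀ i : ℕ, ∀ w ∈ Dk U δ c i,
    ‖uk u (i + 1) w - uk u i w‖ ≤ K * (poti P δ c i w) ^ (1 / p) := by
  obtain ⟨K1, hK1, H1⟩ := pz_dil n c C A
  obtain ⟨K2, hK2, H2⟩ := gau_dil n c C
  refine ⟨1 + |A| * K1 * K2 * ((n + 1) * C ^ 2) * (8 / |c|), ?_, ?_⟩
  · have : 0 ≤ |A| * K1 * K2 * ((n + 1) * C ^ 2) * (8 / |c|) := by positivity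
    linarith
  intro U δ h P u hD hP hu hG i w hw
  obtain ⟨hc0, hc1, hC1⟩ := hD.pos
  have hA1 : 1 ≤ A := hP.A1
  have hAA : |A| = A := abs_of_pos (by linarith)
  have hcc : |c| = c := abs_of_pos hc0
  obtain ⟨hwU, hδw, hdk, hdkC, hwC⟩ := Dk_basic hD hw
  have hek : 0 < ek i := ek_pos i
  have hdk0 : 0 < dk δ c i w := lt_trans (by positivity) hdk
  have hpot0 : 0 ≤ poti P δ c i w := pot_nonneg hP _ hdk0.le w
  have hp0 : 0 < p := by linarith
  have hp1 : 1 / p ≤ 1 := by rw [div_le_one hp0]; exact hp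
  have hp2 : 0 ≤ 1 / p := by positivity
  have hgw : gau (dk δ c i) h w w ≤ (n + 1) * C ^ 2 / dk δ c i w := by
    unfold gau
    have e1 : ‖∑ k, h w w k * w k‖ ≤ n * C * C := by
      refine (lin_le (h w w) w).trans ?_
      have hh : ‖h w w‖ ≤ C := hD.geo.bh w hwU w hwU
      have : (n : ℝ) * ‖h w w‖ ≤ n * C := mul_le_mul_of_nonneg_left hh (Nat.cast_nonneg n)
      exact mul_le_mul this hwC (norm_nonneg _) (by positivity)
    have e2 : ‖w‖ / Real.sqrt (dk δ c i w) ≤ C ^ 2 / dk δ c i w := by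
      have hsq : 0 < Real.sqrt (dk δ c i w) := Real.sqrt_pos.mpr hdk0
      rw [div_le_div_iff₀ hsq hdk0]
      have e3 : dk δ c i w = Real.sqrt (dk δ c i w) * Real.sqrt (dk δ c i w) :=
        (Real.mul_self_sqrt hdk0.le).symm
      have e4 : Real.sqrt (dk δ c i w) ≤ C := by
        rw [Real.sqrt_le_left (by linarith)]
        nlinarith
      calc ‖w‖ * dk δ c i w = ‖w‖ * Real.sqrt (dk δ c i w) * Real.sqrt (dk δ c i w) := by
            rw [mul_assoc, ← e3]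
        _ ≤ C * C * Real.sqrt (dk δ c i w) := by
            refine mul_le_mul_of_nonneg_right ?_ hsq.le
            exact mul_le_mul hwC e4 hsq.le (by linarith)
        _ = C ^ 2 * Real.sqrt (dk δ c i w) := by ring
    have e5 : ‖∑ k, h w w k * w k‖ / dk δ c i w ≤ n * C * C / dk δ c i w :=
      div_le_div_of_nonneg_right e1 hdk0.le
    calc ‖∑ k, h w w k * w k‖ / dk δ c i w + ‖w‖ / Real.sqrt (dk δ c i w)
        ≤ n * C * C / dk δ c i w + C ^ 2 / dk δ c i w := add_le_add e5 e2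
      _ = (n + 1) * C ^ 2 / dk δ c i w := by ring
  have hB : ∀ s ∈ Icc (ek (i + 1)) (ek i), ‖fderiv ℂ u (dil s w) w‖ ≤
      A * (K1 * (poti P δ c i w) ^ (1 / p)) * (K2 * ((n + 1) * C ^ 2 / dk δ c i w)) := by
    intro s hs
    have hs1 : s ≤ 1 := hs.2.trans (ek_le_one i)
    have hdil := (dil_lo hD hw hs.1 hs1).1
    have f1 := hG (dil s w) hdil w
    have hpz0 : 0 ≤ pz P δ (dil s w) := by
      unfold pz
      refine Finset.sum_nonneg fun x _ => ?_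
      have := hP.w0 x
      have := hdil.2
      positivity
    have f2 : (pz P δ (dil s w)) ^ (1 / p) ≤ K1 * (poti P δ c i w) ^ (1 / p) := by
      calc (pz P δ (dil s w)) ^ (1 / p) ≤ (K1 * poti P δ c i w) ^ (1 / p) :=
            Real.rpow_le_rpow hpz0 (H1 U δ h P hD hP i w hw s hs) hp2
        _ = K1 ^ (1 / p) * (poti P δ c i w) ^ (1 / p) :=
            Real.mul_rpow (by linarith) hpot0
        _ ≤ K1 * (poti P δ c i w) ^ (1 / p) := by
            refine mul_le_mul_of_nonneg_right ?_ (Real.rpow_nonneg hpot0 _)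
            calc K1 ^ (1 / p) ≤ K1 ^ (1 : ℝ) := Real.rpow_le_rpow_of_exponent_le hK1 hp1
              _ = K1 := Real.rpow_one _
    have f3 : gau δ h (dil s w) w ≤ K2 * ((n + 1) * C ^ 2 / dk δ c i w) :=
      (H2 U δ h hD i w hw s hs w).trans (mul_le_mul_of_nonneg_left hgw hK2.le)
    have f4 : 0 ≤ gau δ h (dil s w) w := gau_nonneg hdil.2 w
    refine f1.trans ?_
    refine mul_le_mul (mul_le_mul_of_nonneg_left f2 (by linarith)) f3 f4 ?_
    have := Real.rpow_nonneg hpot0 (1 / p)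
    positivity
  have hfin := inc_int hD hu hw hB
  refine hfin.trans ?_
  have g1 : ek i / dk δ c i w ≤ 8 / c := by
    rw [div_le_div_iff₀ hdk0 hc0]
    linarith
  have hr := Real.rpow_nonneg hpot0 (1 / p)
  have g2 : 0 ≤ A * K1 * K2 * ((n + 1) * C ^ 2) := by positivity
  rw [hAA, hcc]
  calc A * (K1 * (poti P δ c i w) ^ (1 / p)) * (K2 * ((n + 1) * C ^ 2 / dk δ c i w)) * ek i
      = (A * K1 * K2 * ((n + 1) * C ^ 2)) * (ek i / dk δ c i w) *
          (poti P δ c i w) ^ (1 / p) := by ring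
    _ ≤ (A * K1 * K2 * ((n + 1) * C ^ 2)) * (8 / c) * (poti P δ c i w) ^ (1 / p) :=
        mul_le_mul_of_nonneg_right (mul_le_mul_of_nonneg_left g1 g2) hr
    _ ≤ (1 + A * K1 * K2 * ((n + 1) * C ^ 2) * (8 / c)) * (poti P δ c i w) ^ (1 / p) := by
        refine mul_le_mul_of_nonneg_right ?_ hr
        linarith

/-- The approximation.
PROOF. `uk u (k+1) w = u 0 + ∑_{i ≤ k} (uk (i+1) w - uk i w)` (`uk_zero`). The difference is at most the sum of `|uk (i+1) w - uk i w|` over the `i ≤ k` with `poti i w ≤ 2 c₁ vt^(k+1-i)`, at most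
`∑ K (2 c₁ vt^(k+1-i))^(1/p) ≤ K (2 c₁)^(1/p) / (1 - vt^(1/p)) ≤ ρ / 2` if `c₁` is small. -/
theorem vq_near (n : ℕ) (c C A p ρ : ℝ) (hp : 1 ≤ p) (hρ : 0 < ρ) : ∃ c₁ : ℝ, 0 < c₁ ∧ c₁ ≤ 1 ∧
    ∀ (U : Set (Ec n))
    (δ : Ec n → ℝ) (h : Ec n → Ec n → Fin n → ℂ) (P : PS n) (u : Ec n → ℂ), CD U δ h c C →
    PA P U δ h A → DifferentiableOn ℂ u (Om U δ) → CG P U δ h A p u → ∀ k : ℕ, ∀ w ∈ Dk U δ c k,
    ‖vq P δ c c₁ u (k + 1) w - uk u (k + 1) w‖ ≤ ρ / 2 := by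
  obtain ⟨K, hK, HK⟩ := inc_carl n c C A p hp
  obtain ⟨hv0, hv1, -⟩ := vt_prop
  obtain ⟨-, hps, -, hps2, -⟩ := ps_prop
  have hp0 : 0 < p := by linarith
  have hip : 0 < 1 / p := by positivity
  set r : ℝ := vt ^ (1 / p) with hr
  have hr0 : 0 ≤ r := Real.rpow_nonneg hv0.le _
  have hr1 : r < 1 := Real.rpow_lt_one hv0.le hv1 hip
  have h1r : 0 < 1 - r := by linarith
  have hK0 : 0 < K := by linarith
  set Q : ℝ := ρ * (1 - r) / (2 * K) with hQ
  have hQ0 : 0 < Q := by positivity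
  have hQp : 0 < Q ^ p := Real.rpow_pos_of_pos hQ0 p
  refine ⟨min 1 (Q ^ p / 2), lt_min one_pos (by positivity), min_le_left _ _, ?_⟩
  set c₁ : ℝ := min 1 (Q ^ p / 2) with hc₁
  have hc₁0 : 0 < c₁ := lt_min one_pos (by positivity)
  have hc₁Q : (2 * c₁) ^ (1 / p) ≤ Q := by
    have e1 : 2 * c₁ ≤ Q ^ p := by
      have := min_le_right 1 (Q ^ p / 2)
      linarith
    calc (2 * c₁) ^ (1 / p) ≤ (Q ^ p) ^ (1 / p) := Real.rpow_le_rpow (by positivity) e1 hip.le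
      _ = Q := by
          rw [← Real.rpow_mul hQ0.le, mul_one_div_cancel hp0.ne', Real.rpow_one]
  intro U δ h P u hD hP hu hG k w hw
  have hterm : ∀ i ∈ Finset.range (k + 1),
      ‖(((ps (poti P δ c i w / (c₁ * vt ^ (k + 1 - i))) : ℝ) : ℂ) - 1) *
        (uk u (i + 1) w - uk u i w)‖ ≤ K * Q * r ^ (k + 1 - i) := by
    intro i hi
    have hik : i ≤ k := Nat.lt_succ_iff.mp (Finset.mem_range.mp hi)
    have hwi : w ∈ Dk U δ c i := Dk_anti hD hik hw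
    have hdki := (Dk_basic hD hwi).2.2.1
    obtain ⟨hc0, -, -⟩ := hD.pos
    have hek : 0 < ek i := ek_pos i
    have hdk0 : 0 < dk δ c i w := lt_trans (by positivity) hdki
    have hpot0 : 0 ≤ poti P δ c i w := pot_nonneg hP _ hdk0.le w
    have hvp : 0 < vt ^ (k + 1 - i) := pow_pos hv0 _
    have hden : 0 < c₁ * vt ^ (k + 1 - i) := mul_pos hc₁0 hvp
    have hR : 0 ≤ K * Q * r ^ (k + 1 - i) := by positivity
    by_cases hbig : 2 ≤ poti P δ c i w / (c₁ * vt ^ (k + 1 - i))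
    · rw [hps2 _ hbig]
      simpa using hR
    · have hsmall : poti P δ c i w ≤ 2 * c₁ * vt ^ (k + 1 - i) := by
        have := (not_le.mp hbig).le
        rw [div_le_iff₀ hden] at this
        linarith
      have hn1 : ‖(((ps (poti P δ c i w / (c₁ * vt ^ (k + 1 - i))) : ℝ) : ℂ) - 1)‖ ≤ 1 := by
        have e : (((ps (poti P δ c i w / (c₁ * vt ^ (k + 1 - i))) : ℝ) : ℂ) - 1) =
            ((ps (poti P δ c i w / (c₁ * vt ^ (k + 1 - i))) - 1 : ℝ) : ℂ) := by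
          push_cast
          ring
        rw [e, Complex.norm_real, Real.norm_eq_abs, abs_le]
        have := hps (poti P δ c i w / (c₁ * vt ^ (k + 1 - i)))
        constructor <;> linarith [this.1, this.2]
      have hinc := HK U δ h P u hD hP hu hG i w hwi
      rw [norm_mul]
      calc ‖(((ps (poti P δ c i w / (c₁ * vt ^ (k + 1 - i))) : ℝ) : ℂ) - 1)‖ *
            ‖uk u (i + 1) w - uk u i w‖ ≤ 1 * (K * (poti P δ c i w) ^ (1 / p)) :=
            mul_le_mul hn1 hinc (norm_nonneg _) zero_le_one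
        _ ≤ K * (2 * c₁ * vt ^ (k + 1 - i)) ^ (1 / p) := by
            rw [one_mul]
            exact mul_le_mul_of_nonneg_left (Real.rpow_le_rpow hpot0 hsmall hip.le) hK0.le
        _ = K * ((2 * c₁) ^ (1 / p) * r ^ (k + 1 - i)) := by
            rw [Real.mul_rpow (by positivity) hvp.le, hr, ← Real.rpow_natCast vt,
              ← Real.rpow_mul hv0.le, ← Real.rpow_natCast (vt ^ (1 / p)),
              ← Real.rpow_mul hv0.le, mul_comm ((k + 1 - i : ℕ) : ℝ) (1 / p)]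
        _ ≤ K * (Q * r ^ (k + 1 - i)) :=
            mul_le_mul_of_nonneg_left (mul_le_mul_of_nonneg_right hc₁Q (by positivity)) hK0.le
        _ = K * Q * r ^ (k + 1 - i) := by ring
  have htel : uk u (k + 1) w = u 0 + ∑ i ∈ Finset.range (k + 1), (uk u (i + 1) w - uk u i w) := by
    rw [Finset.sum_range_sub (fun i => uk u i w) (k + 1), uk_zero]
    ring
  have hdiff : vq P δ c c₁ u (k + 1) w - uk u (k + 1) w = ∑ i ∈ Finset.range (k + 1),
      (((ps (poti P δ c i w / (c₁ * vt ^ (k + 1 - i))) : ℝ) : ℂ) - 1) *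
        (uk u (i + 1) w - uk u i w) := by
    rw [htel]
    unfold vq
    rw [add_sub_add_left_eq_sub, ← Finset.sum_sub_distrib]
    refine Finset.sum_congr rfl fun i _ => ?_
    ring
  rw [hdiff]
  have hsum : ∑ i ∈ Finset.range (k + 1), r ^ (k + 1 - i) ≤ 1 / (1 - r) := by
    have e1 : ∑ i ∈ Finset.range (k + 1), r ^ (k + 1 - i) =
        ∑ i ∈ Finset.range (k + 1), r ^ (i + 1) := by
      rw [← Finset.sum_range_reflect (fun i => r ^ (i + 1)) (k + 1)]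
      refine Finset.sum_congr rfl fun i hi => ?_
      have hik : i ≤ k := Nat.lt_succ_iff.mp (Finset.mem_range.mp hi)
      congr 1
      omega
    rw [e1]
    have e2 : ∑ i ∈ Finset.range (k + 1), r ^ (i + 1) ≤ ∑ i ∈ Finset.range (k + 1), r ^ i := by
      refine Finset.sum_le_sum fun i _ => ?_
      rw [pow_succ]
      exact mul_le_of_le_one_right (pow_nonneg hr0 i) hr1.le
    refine e2.trans ?_
    rw [geom_sum_eq hr1.ne, ← neg_sub (1 : ℝ) r, ← neg_sub (1 : ℝ) (r ^ (k + 1)), neg_div_neg_eq]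
    refine div_le_div_of_nonneg_right ?_ h1r.le
    have := pow_nonneg hr0 (k + 1)
    linarith
  calc ‖∑ i ∈ Finset.range (k + 1),
      (((ps (poti P δ c i w / (c₁ * vt ^ (k + 1 - i))) : ℝ) : ℂ) - 1) *
        (uk u (i + 1) w - uk u i w)‖
      ≤ ∑ i ∈ Finset.range (k + 1), K * Q * r ^ (k + 1 - i) := norm_sum_le_of_le _ hterm
    _ = K * Q * ∑ i ∈ Finset.range (k + 1), r ^ (k + 1 - i) := by rw [Finset.mul_sum]
    _ ≤ K * Q * (1 / (1 - r)) := mul_le_mul_of_nonneg_left hsum (by positivity)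
    _ = ρ / 2 := by
        rw [hQ]
        field_simp

/-- PROOF. `poti_c2`, `uk_c2`, `ps_prop`. -/
theorem vq_c2 (hD : CD U δ h c C) {P : PS n} (hP : PA P U δ h A) {u : Ec n → ℂ}
    (hu : DifferentiableOn ℂ u (Om U δ)) {c₁ : ℝ} (hc₁ : 0 < c₁) (k : ℕ) :
    ContDiffOn ℝ 2 (vq P δ c c₁ u (k + 1)) (Dk U δ c k) := by
  have hps := ps_prop.1
  have e : vq P δ c c₁ u (k + 1) = fun w => u 0 + ∑ i ∈ Finset.range (k + 1),
      ((ps (poti P δ c i w / (c₁ * vt ^ (k + 1 - i))) : ℝ) : ℂ) *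
        (uk u (i + 1) w - uk u i w) := by
    funext w
    rfl
  rw [e]
  refine contDiffOn_const.add (ContDiffOn.sum fun i hi => ?_)
  have hik : i ≤ k := Nat.lt_succ_iff.mp (Finset.mem_range.mp hi)
  refine ContDiffOn.mul ?_ ((uk_c2 hD hu (by omega)).sub (uk_c2 hD hu (by omega)))
  exact Complex.ofRealCLM.contDiff.comp_contDiffOn
    (hps.comp_contDiffOn ((poti_c2 hD hP hik).div_const _))

end Pool.Agent.MPca0fc2.GW
end
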