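import Pool.Agent.Lib.MP_ca0fc2_an.Mg.G003
import Pool.Agent.Lib.MP_ca0fc2_an.Mg.G060
import Pool.Agent.Lib.MP_ca0fc2_an.Mg.G030
import Pool.Agent.Lib.MP_ca0fc2_an.Mg.G032
import Pool.Agent.Lib.MP_ca0fc2_an.GW.P4
import Pool.Agent.Lib.MP_ca0fc2_an.Mg.G051

section

/-! Holomorphic functions on convex domains: Hefer functions, the tangential derivative of functions with positive
real part. -/

set_option autoImplicit false

open Metric Set MeasureTheory Filter Topology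

namespace Pool.Agent.MPca0fc2.GW

open Pool.Agent.MPca0fc2.FD

variable {n : ℕ}

private noncomputable def M3a_seg (t : ℝ) : Ec n × Ec n →L[ℂ] Ec n :=
  ContinuousLinearMap.snd ℂ (Ec n) (Ec n) +
    (t : ℂ) • (ContinuousLinearMap.fst ℂ (Ec n) (Ec n) - ContinuousLinearMap.snd ℂ (Ec n) (Ec n))

private theorem M3a_seg_apply (t : ℝ) (p : Ec n × Ec n) :
    M3a_seg t p = p.2 + (t : ℂ) • (p.1 - p.2) := rfl

private theorem M3a_seg_norm {t : ℝ} (ht : t ∈ Icc (0 : ℝ) 1) :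
    ‖(M3a_seg t : Ec n × Ec n →L[ℂ] Ec n)‖ ≤ 3 := by
  have h1 : ‖ContinuousLinearMap.snd ℂ (Ec n) (Ec n)‖ ≤ 1 := ContinuousLinearMap.norm_snd_le _ _ _
  have h2 : ‖ContinuousLinearMap.fst ℂ (Ec n) (Ec n)‖ ≤ 1 := ContinuousLinearMap.norm_fst_le _ _ _
  have h3 : ‖(t : ℂ)‖ ≤ 1 := by
    rw [Complex.norm_real, Real.norm_eq_abs, abs_of_nonneg ht.1]
    exact ht.2
  unfold M3a_seg
  refine (norm_add_le _ _).trans ?_
  rw [norm_smul]
  have h4 := norm_sub_le (ContinuousLinearMap.fst ℂ (Ec n) (Ec n))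
    (ContinuousLinearMap.snd ℂ (Ec n) (Ec n))
  have h5 : ‖(t : ℂ)‖ * ‖ContinuousLinearMap.fst ℂ (Ec n) (Ec n) -
      ContinuousLinearMap.snd ℂ (Ec n) (Ec n)‖ ≤ 1 * 2 :=
    mul_le_mul h3 (by linarith) (norm_nonneg _) (by norm_num)
  linarith

private theorem M3a_seg_mem {W : Set (Ec n)} (hc : Convex ℝ W) {p : Ec n × Ec n}
    (hp : p ∈ W ×ˢ W) {t : ℝ} (ht : t ∈ Icc (0 : ℝ) 1) : M3a_seg t p ∈ W := by
  rw [M3a_seg_apply, Complex.coe_smul]
  exact hc.add_smul_sub_mem hp.2 hp.1 ht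

private theorem M3a_seg_cont : Continuous fun x : ℝ × (Ec n × Ec n) => M3a_seg x.1 x.2 := by
  have : (fun x : ℝ × (Ec n × Ec n) => M3a_seg x.1 x.2) =
      fun x => x.2.2 + (x.1 : ℂ) • (x.2.1 - x.2.2) := by
    funext x
    exact M3a_seg_apply _ _
  rw [this]
  fun_prop

private theorem M3a_seg_cont' : Continuous fun t : ℝ => (M3a_seg t : Ec n × Ec n →L[ℂ] Ec n) := by
  unfold M3a_seg
  fun_prop

private theorem M3a_G {W : Set (Ec n)} (hW : IsOpen W) (hc : Convex ℝ W) {q : Ec n → ℂ}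
    (hq : DifferentiableOn ℂ q W) :
    DifferentiableOn ℂ (fun p : Ec n × Ec n => ∫ t in (0 : ℝ)..1, fderiv ℂ q (M3a_seg t p))
      (W ×ˢ W) := by
  intro p₀ hp₀
  refine DifferentiableAt.differentiableWithinAt ?_
  have hWW : IsOpen (W ×ˢ W) := hW.prod hW
  obtain ⟨s, hs, hsub⟩ := Metric.nhds_basis_closedBall.mem_iff.1 (hWW.mem_nhds hp₀)
  set K : Set (Ec n) := (fun x : ℝ × (Ec n × Ec n) => M3a_seg x.1 x.2) '' (Icc 0 1 ×ˢ closedBall p₀ s)
    with hK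
  have hKc : IsCompact K := (isCompact_Icc.prod (isCompact_closedBall p₀ s)).image M3a_seg_cont
  have hKW : K ⊆ W := by
    rintro _ ⟨⟨t, p⟩, ⟨ht, hp⟩, rfl⟩
    exact M3a_seg_mem hc (hsub hp) ht
  obtain ⟨M, hM⟩ := hol_d2_bound hW hq hKc hKW
  have hM0 : 0 ≤ M := (norm_nonneg _).trans
    (hM (M3a_seg 0 p₀) ⟨(0, p₀), ⟨⟨le_rfl, zero_le_one⟩, mem_closedBall_self hs.le⟩, rfl⟩).1
  have hcF := hol_fderiv_cont hW hq
  have hcF' := hol_fderiv_cont hW (hol_fderiv hW hq)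
  have hI : ∀ t ∈ uIoc (0 : ℝ) 1, t ∈ Icc (0 : ℝ) 1 := by
    intro t ht
    rw [uIoc_of_le zero_le_one] at ht
    exact ⟨ht.1.le, ht.2⟩
  have hcont1 : ∀ p ∈ W ×ˢ W, ContinuousOn (fun t : ℝ => fderiv ℂ q (M3a_seg t p)) (Icc 0 1) := by
    intro p hp
    refine hcF.comp ?_ (fun t ht => M3a_seg_mem hc hp ht)
    exact (M3a_seg_cont.comp (Continuous.prodMk_left p)).continuousOn
  have hcont2 : ContinuousOn (fun t : ℝ =>
      (fderiv ℂ (fderiv ℂ q) (M3a_seg t p₀)).comp (M3a_seg t)) (Icc 0 1) := by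
    refine ContinuousOn.clm_comp ?_ M3a_seg_cont'.continuousOn
    refine hcF'.comp ?_ (fun t ht => M3a_seg_mem hc hp₀ ht)
    exact (M3a_seg_cont.comp (Continuous.prodMk_left p₀)).continuousOn
  have key := intervalIntegral.hasFDerivAt_integral_of_dominated_of_fderiv_le (𝕜 := ℂ) (μ := volume)
    (a := (0 : ℝ)) (b := 1) (F := fun (p : Ec n × Ec n) (t : ℝ) => fderiv ℂ q (M3a_seg t p))
    (F' := fun p t => (fderiv ℂ (fderiv ℂ q) (M3a_seg t p)).comp (M3a_seg t)) (x₀ := p₀)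
    (s := closedBall p₀ s) (bound := fun _ => M * 3) (closedBall_mem_nhds p₀ hs) ?_ ?_ ?_ ?_ ?_ ?_
  · exact key.differentiableAt
  · filter_upwards [hWW.mem_nhds hp₀] with p hp
    exact ((hcont1 p hp).mono hI).aestronglyMeasurable measurableSet_uIoc
  · refine ContinuousOn.intervalIntegrable ?_
    rw [uIcc_of_le zero_le_one]
    exact hcont1 p₀ hp₀
  · exact (hcont2.mono hI).aestronglyMeasurable measurableSet_uIoc
  · refine Eventually.of_forall fun t ht p hp => ?_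
    have h1 := (hM (M3a_seg t p) ⟨(t, p), ⟨hI t ht, hp⟩, rfl⟩).2.2
    refine (ContinuousLinearMap.opNorm_comp_le _ _).trans ?_
    exact mul_le_mul h1 (M3a_seg_norm (hI t ht)) (norm_nonneg _) hM0
  · exact intervalIntegrable_const
  · refine Eventually.of_forall fun t ht p hp => ?_
    have h1 : M3a_seg t p ∈ W := M3a_seg_mem hc (hsub hp) (hI t ht)
    have h2 : HasFDerivAt (fderiv ℂ q) (fderiv ℂ (fderiv ℂ q) (M3a_seg t p)) (M3a_seg t p) :=
      ((hol_fderiv hW hq).differentiableAt (hW.mem_nhds h1)).hasFDerivAt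
    exact h2.comp p (M3a_seg t).hasFDerivAt

/-- PROOF. The proof of `hefer_convex` in `FD/L2.lean` with the bound: `Λ z ζ k = (∫₀¹ dF(ζ + t (z - ζ)) dt)(ee k)`, `‖ee k‖ = 1`. -/
theorem hefer_bd {W : Set (Ec n)} (hW : IsOpen W) (hc : Convex ℝ W) {F : Ec n → ℂ} {K : ℝ}
    (hF : DifferentiableOn ℂ F W) (hK : ∀ z ∈ W, ‖fderiv ℂ F z‖ ≤ K) :
    ∃ H : Ec n → Ec n → Fin n → ℂ,
      DifferentiableOn ℂ (fun p : Ec n × Ec n => H p.1 p.2) (W ×ˢ W) ∧
      (∀ z ∈ W, ∀ ζ ∈ W, ‖H z ζ‖ ≤ K) ∧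
      ∀ z ∈ W, ∀ ζ ∈ W, F z - F ζ = ∑ k, H z ζ k * (z k - ζ k) := by
  refine ⟨fun z ζ k => (∫ t in (0 : ℝ)..1, fderiv ℂ F (M3a_seg t (z, ζ))) (ee k), ?_, ?_, ?_⟩
  · refine differentiableOn_pi.2 fun k => ?_
    exact (M3a_G hW hc hF).clm_apply (differentiableOn_const _)
  · intro z hz ζ hζ
    have hK0 : 0 ≤ K := (norm_nonneg _).trans (hK z hz)
    have hp : (z, ζ) ∈ W ×ˢ W := ⟨hz, hζ⟩
    refine (pi_norm_le_iff_of_nonneg hK0).2 fun k => ?_
    have h1 : ‖∫ t in (0 : ℝ)..1, fderiv ℂ F (M3a_seg t (z, ζ))‖ ≤ K * |(1 : ℝ) - 0| := by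
      refine intervalIntegral.norm_integral_le_of_norm_le_const fun t ht => ?_
      rw [uIoc_of_le zero_le_one] at ht
      exact hK _ (M3a_seg_mem hc hp ⟨ht.1.le, ht.2⟩)
    rw [sub_zero, abs_one, mul_one] at h1
    have h2 : ‖(ee k : Ec n)‖ = 1 := by
      unfold ee
      simp
    refine (ContinuousLinearMap.le_opNorm _ _).trans ?_
    rw [h2, mul_one]
    exact h1
  · intro z hz ζ hζ
    have hp : (z, ζ) ∈ W ×ˢ W := ⟨hz, hζ⟩
    have hcont : ContinuousOn (fun t : ℝ => fderiv ℂ F (M3a_seg t (z, ζ))) (Icc 0 1) := by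
      refine (hol_fderiv_cont hW hF).comp ?_ (fun t ht => M3a_seg_mem hc hp ht)
      exact (M3a_seg_cont.comp (Continuous.prodMk_left (z, ζ))).continuousOn
    have hint : IntervalIntegrable (fun t : ℝ => fderiv ℂ F (M3a_seg t (z, ζ))) volume 0 1 := by
      refine ContinuousOn.intervalIntegrable ?_
      rwa [uIcc_of_le zero_le_one]
    have hint2 : IntervalIntegrable (fun t : ℝ => fderiv ℂ F (M3a_seg t (z, ζ)) (z - ζ))
        volume 0 1 := by
      refine ContinuousOn.intervalIntegrable ?_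
      rw [uIcc_of_le zero_le_one]
      exact hcont.clm_apply continuousOn_const
    have hder : ∀ t ∈ uIcc (0 : ℝ) 1, HasDerivAt (fun t : ℝ => F (M3a_seg t (z, ζ)))
        (fderiv ℂ F (M3a_seg t (z, ζ)) (z - ζ)) t := by
      intro t ht
      rw [uIcc_of_le zero_le_one] at ht
      have h1 : M3a_seg t (z, ζ) ∈ W := M3a_seg_mem hc hp ht
      have h2 : HasFDerivAt F (fderiv ℂ F (M3a_seg t (z, ζ))) (M3a_seg t (z, ζ)) :=
        (hF.differentiableAt (hW.mem_nhds h1)).hasFDerivAt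
      have h3 : HasDerivAt (fun t : ℝ => M3a_seg t (z, ζ)) (z - ζ) t := by
        have e1 : (fun t : ℝ => M3a_seg t (z, ζ)) = fun t : ℝ => ζ + (t : ℂ) • (z - ζ) := rfl
        rw [e1]
        have e2 : HasDerivAt (fun t : ℝ => (t : ℂ)) 1 t := Complex.ofRealCLM.hasDerivAt
        have e3 := (e2.smul_const (z - ζ)).const_add ζ
        rwa [one_smul] at e3
      exact (h2.restrictScalars ℝ).comp_hasDerivAt t h3
    have hftc := intervalIntegral.integral_eq_sub_of_hasDerivAt hder hint2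
    have e0 : M3a_seg 0 (z, ζ) = ζ := by
      rw [M3a_seg_apply]; simp
    have e1 : M3a_seg 1 (z, ζ) = z := by
      rw [M3a_seg_apply]; simp
    rw [e0, e1] at hftc
    rw [← hftc]
    have h5 : (∫ t in (0 : ℝ)..1, fderiv ℂ F (M3a_seg t (z, ζ)) (z - ζ)) =
        (∫ t in (0 : ℝ)..1, fderiv ℂ F (M3a_seg t (z, ζ))) (z - ζ) :=
      (ContinuousLinearMap.intervalIntegral_apply hint (z - ζ)).symm
    rw [h5]
    have h6 : z - ζ = ∑ k, (z k - ζ k) • (ee k : Ec n) := by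
      ext j
      simp [ee, Pi.single_apply]
    conv_lhs => rw [h6]
    rw [map_sum]
    refine Finset.sum_congr rfl fun k _ => ?_
    rw [map_smul, smul_eq_mul, mul_comm]

private theorem M3a_cau {V : Type*} [NormedAddCommGroup V] [NormedSpace ℂ V] {F : Ec n → V}
    {r η K : ℝ} (hη : 0 < η) (hF : DifferentiableOn ℂ F (ball 0 (r + η)))
    (hK : ∀ z ∈ ball (0 : Ec n) (r + η), ‖F z‖ ≤ K) (hK0 : 0 ≤ K) :
    ∀ z ∈ ball (0 : Ec n) r, ‖fderiv ℂ F z‖ ≤ K / η := by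
  intro z hz
  have hz' : ‖z‖ < r := by simpa using hz
  refine ContinuousLinearMap.opNorm_le_bound _ (by positivity) fun X => ?_
  by_cases hX : X = 0
  · subst hX
    simp
  have hXn : 0 < ‖X‖ := norm_pos_iff.2 hX
  have hr : 0 < η / ‖X‖ := by positivity
  have hin : ∀ l : ℂ, ‖l‖ ≤ η / ‖X‖ → z + l • X ∈ ball (0 : Ec n) (r + η) := by
    intro l hl
    have hl' : ‖l‖ * ‖X‖ ≤ η := by rwa [le_div_iff₀ hXn] at hl
    rw [mem_ball_zero_iff]
    refine (norm_add_le _ _).trans_lt ?_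
    rw [norm_smul]
    linarith
  have hd : ∀ l : ℂ, ‖l‖ ≤ η / ‖X‖ → DifferentiableAt ℂ (fun l : ℂ => F (z + l • X)) l := by
    intro l hl
    have h1 : DifferentiableAt ℂ F (z + l • X) :=
      hF.differentiableAt (isOpen_ball.mem_nhds (hin l hl))
    have h2 : DifferentiableAt ℂ (fun l : ℂ => z + l • X) l :=
      (differentiableAt_id.smul_const X).const_add z
    exact h1.comp l h2
  have hdc : DiffContOnCl ℂ (fun l : ℂ => F (z + l • X)) (ball 0 (η / ‖X‖)) := by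
    apply DifferentiableOn.diffContOnCl
    rw [closure_ball _ hr.ne']
    intro l hl
    exact (hd l (by simpa using hl)).differentiableWithinAt
  have hcau := Complex.norm_deriv_le_of_forall_mem_sphere_norm_le hr hdc (C := K) (by
    intro l hl
    exact hK _ (hin l (by simpa using (mem_sphere_zero_iff_norm.1 hl).le)))
  have hder : deriv (fun l : ℂ => F (z + l • X)) 0 = fderiv ℂ F z X := by
    have h1 : HasFDerivAt F (fderiv ℂ F z) (z + (0 : ℂ) • X) := by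
      rw [zero_smul, add_zero]
      have h0 := hin 0 (by rw [norm_zero]; exact hr.le)
      rw [zero_smul, add_zero] at h0
      exact (hF.differentiableAt (isOpen_ball.mem_nhds h0)).hasFDerivAt
    have h2 : HasDerivAt (fun l : ℂ => z + l • X) X 0 := by
      simpa using ((hasDerivAt_id (0 : ℂ)).smul_const X).const_add z
    exact (h1.comp_hasDerivAt (0 : ℂ) h2).deriv
  rw [hder] at hcau
  refine hcau.trans (le_of_eq ?_)
  field_simp

/-- Cauchy estimates, uniformly for all functions.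
PROOF. For `‖z‖ < a₂` and `η = (a - a₂) / 4`: `‖dF(z)‖ ≤ K₀ / η` (Cauchy's inequality on complex lines). The function `z ↦ dF(z) X` is holomorphic on the ball of radius `a - η` and bounded by `K₀ ‖X‖ / η` there, so its derivative on the ball of radius `a₂` is at most `K₀ ‖X‖ / η²`; the ball is convex. -/
theorem cauchy_bd (n : ℕ) {a a₂ : ℝ} (h2 : a₂ < a) (K₀ : ℝ) : ∃ K : ℝ, 1 ≤ K ∧ ∀ F : Ec n → ℂ,
    DifferentiableOn ℂ F (ball 0 a) → (∀ z ∈ ball (0 : Ec n) a, ‖F z‖ ≤ K₀) →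
    (∀ z ∈ ball (0 : Ec n) a₂, ‖fderiv ℂ F z‖ ≤ K) ∧
    ∀ z ∈ ball (0 : Ec n) a₂, ∀ ζ ∈ ball (0 : Ec n) a₂,
      ‖fderiv ℂ F z - fderiv ℂ F ζ‖ ≤ K * ‖z - ζ‖ := by
  have hη : 0 < (a - a₂) / 2 := by linarith
  set η : ℝ := (a - a₂) / 2 with hηd
  have hK1 : 0 ≤ |K₀| / η := by positivity
  have hK2 : 0 ≤ |K₀| / η / η := by positivity
  refine ⟨1 + |K₀| / η + |K₀| / η / η, by linarith, fun F hF hK => ?_⟩
  have e1 : a = a₂ + η + η := by rw [hηd]; ring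
  have hF' : DifferentiableOn ℂ F (ball 0 (a₂ + η + η)) := by rwa [← e1]
  have c1 := M3a_cau (r := a₂ + η) hη hF'
    (fun z hz => (hK z (by rwa [← e1] at hz)).trans (le_abs_self K₀)) (abs_nonneg K₀)
  have hsub : ball (0 : Ec n) (a₂ + η) ⊆ ball 0 a := ball_subset_ball (by linarith)
  have hsub2 : ball (0 : Ec n) a₂ ⊆ ball 0 (a₂ + η) := ball_subset_ball (by linarith)
  have hd := hol_fderiv isOpen_ball hF
  have c2 := M3a_cau (r := a₂) hη (hd.mono hsub) c1 hK1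
  refine ⟨fun z hz => (c1 z (hsub2 hz)).trans (by linarith), fun z hz ζ hζ => ?_⟩
  have c3 := (convex_ball (0 : Ec n) a₂).norm_image_sub_le_of_norm_fderiv_le (𝕜 := ℂ)
    (fun w hw => hd.differentiableAt (isOpen_ball.mem_nhds (hsub (hsub2 hw)))) c2 hζ hz
  refine c3.trans ?_
  exact mul_le_mul_of_nonneg_right (by linarith) (norm_nonneg _)

end Pool.Agent.MPca0fc2.GW
end

section

/-! The data of the construction: definitions. -/

set_option autoImplicit false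

open Metric Set MeasureTheory Filter Topology

namespace Pool.Agent.MPca0fc2.GW

open Pool.Agent.MPca0fc2.FD

variable {n d : ℕ}

/-- All the data: potentials `P`, the sequence `s`, functions `u l` with their hysteresis functions `b l`. -/
structure DT (U : Set (Ec n)) (δ : Ec n → ℝ) (h : Ec n → Ec n → Fin n → ℂ) (P : PS n) (s : ℕ → ℝ)
    (u : Fin d → Ec n → ℂ) (b : Fin d → ℕ → Ec n → ℂ) (c C A M ρ K : ℝ) : Prop where
  cd : CD U δ h c C
  pa : PA P U δ h A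
  sl : SL s A
  M1 : 1 ≤ M
  ρ0 : 0 < ρ
  ρM : ρ ≤ M
  hol : ∀ l, DifferentiableOn ℂ (u l) (Om U δ)
  bd : ∀ l, ∀ z ∈ Om U δ, ‖u l z‖ ≤ M
  bl : ∀ l, BL U δ h c (u l) (SS P s δ c) (b l) M ρ K

/-- the jumps -/
noncomputable def Jv (b : Fin d → ℕ → Ec n → ℂ) (j : ℕ) (z : Ec n) : ℝ :=
  ∑ l, ‖b l (j + 1) z - b l j z‖

/-- the factor of the jumps -/
noncomputable def al (σ : ℝ) (j : ℕ) : ℝ := (min (ek j / σ) (σ / ek j)) ^ (3 / 8 : ℝ)

/-- the factor of the densities -/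
noncomputable def be (σ : ℝ) (j : ℕ) : ℝ :=
  if ek j ≤ σ then (ek j / σ) ^ (1 / 16 : ℝ) else (σ / ek j) ^ (3 / 8 : ℝ)

/-- the density at the scale `σ` -/
noncomputable def GS (P : PS n) (s : ℕ → ℝ) (δ : Ec n → ℝ) (c : ℝ) (b : Fin d → ℕ → Ec n → ℂ)
    (J : ℕ) (σ : ℝ) (z : Ec n) : ℝ :=
  σ ^ (1 / 4 : ℝ) + ∑ j ∈ Finset.range J, al σ j * Jv b j z +
    ∑ j ∈ Finset.range (J + 1), be σ j * SS P s δ c j z

/-- the density -/
noncomputable def GG (P : PS n) (s : ℕ → ℝ) (δ : Ec n → ℝ) (c : ℝ) (b : Fin d → ℕ → Ec n → ℂ)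
    (J : ℕ) (z : Ec n) : ℝ := GS P s δ c b J (δ z) z

/-- The weight vector: `κ` times the part of the potentials and `κ'` times the part of the functions `Lk` (`Λ l j` are Hefer functions of
`Lk (u l) (b l) j`). -/
noncomputable def Qv (P : PS n) (δ : Ec n → ℝ) (Λ : Fin d → ℕ → Ec n → Ec n → Fin n → ℂ)
    (J : ℕ) (κ κ' : ℝ) (z ζ : Ec n) (k : Fin n) : ℂ :=
  κ * ∑ x, (P.w x : ℂ) * (th (P.N x) (δ ζ) : ℂ) *
      ((P.N x : ℂ) * P.H x z ζ k / (P.V x z * P.V x ζ)) +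
    κ' * ∑ j ∈ Finset.range J, (th (ek j) (δ ζ) : ℂ) * ∑ l, Λ l j z ζ k

/-- the factor of its `∂̄`-derivative -/
noncomputable def Rv' (P : PS n) (δ : Ec n → ℝ) (Λ : Fin d → ℕ → Ec n → Ec n → Fin n → ℂ)
    (J : ℕ) (κ κ' : ℝ) (z ζ : Ec n) (k : Fin n) : ℂ :=
  κ * ∑ x, (P.w x : ℂ) * (deriv (fun t => th (P.N x) t) (δ ζ) : ℂ) *
      ((P.N x : ℂ) * P.H x z ζ k / (P.V x z * P.V x ζ)) +
    κ' * ∑ j ∈ Finset.range J, (deriv (fun t => th (ek j) t) (δ ζ) : ℂ) * ∑ l, Λ l j z ζ k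

/-- the Hefer functions of the functions `Lk` -/
structure HL (U : Set (Ec n)) (δ : Ec n → ℝ) (h : Ec n → Ec n → Fin n → ℂ) (c : ℝ)
    (u : Fin d → Ec n → ℂ) (b : Fin d → ℕ → Ec n → ℂ)
    (Λ : Fin d → ℕ → Ec n → Ec n → Fin n → ℂ) (K₁ : ℝ) : Prop where
  hol : ∀ l j, DifferentiableOn ℂ (fun p : Ec n × Ec n => Λ l j p.1 p.2) (Om U δ ×ˢ Om U δ)
  bd : ∀ l j, ∀ z ∈ Om U δ, ∀ ζ ∈ Om U δ, ‖Λ l j z ζ‖ ≤ K₁ / ek j
  hef : ∀ l j, ∀ z ∈ Om U δ, ∀ ζ ∈ Om U δ, Lk U δ h c (u l) (b l) j z -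
    Lk U δ h c (u l) (b l) j ζ = ∑ k, Λ l j z ζ k * (z k - ζ k)

end Pool.Agent.MPca0fc2.GW
end

section

/-! The density `GG`. -/

set_option autoImplicit false

open Metric Set MeasureTheory Filter Topology

namespace Pool.Agent.MPca0fc2.GW

open Pool.Agent.MPca0fc2.FD

variable {n d : ℕ} {U : Set (Ec n)} {δ : Ec n → ℝ} {h : Ec n → Ec n → Fin n → ℂ} {P : PS n}
  {s : ℕ → ℝ} {u : Fin d → Ec n → ℂ} {b : Fin d → ℕ → Ec n → ℂ} {c C A M ρ K : ℝ}

private lemma S1a_q {σ σ' : ℝ} (hσ : 0 < σ) (hσ' : 0 < σ') :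
    1 ≤ max (σ / σ') (σ' / σ) ∧ σ ≤ max (σ / σ') (σ' / σ) * σ' ∧
      σ' ≤ max (σ / σ') (σ' / σ) * σ := by
  have h1 : σ / σ' ≤ max (σ / σ') (σ' / σ) := le_max_left _ _
  have h2 : σ' / σ ≤ max (σ / σ') (σ' / σ) := le_max_right _ _
  refine ⟨?_, ?_, ?_⟩
  · rcases le_total σ σ' with h | h
    · exact le_trans ((one_le_div hσ).2 h) h2
    · exact le_trans ((one_le_div hσ').2 h) h1
  · rwa [div_le_iff₀ hσ'] at h1
  · rwa [div_le_iff₀ hσ] at h2

/-- PROOF. The factors: `al σ j ≤ q^(3/8) al σ' j`, `be σ j ≤ q^(3/8) be σ' j` with `q = max (σ / σ') (σ' / σ)`; both are in `[0, 1]`. For `be`: let `x = σ / ek j`, `x' = σ' / ek j`, `f x = x^(-1/16)` for `x ≥ 1` and `x^(3/8)`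
for `x < 1`; `f x / f x' ≤ q^(3/8)` in the four cases. -/
theorem al_be {σ σ' : ℝ} (hσ : 0 < σ) (hσ' : 0 < σ') (j : ℕ) :
    0 ≤ al σ j ∧ al σ j ≤ 1 ∧ 0 ≤ be σ j ∧ be σ j ≤ 1 ∧ al σ j ≤ be σ j ∧
      al σ j ≤ (max (σ / σ') (σ' / σ)) ^ (3 / 8 : ℝ) * al σ' j ∧
      be σ j ≤ (max (σ / σ') (σ' / σ)) ^ (3 / 8 : ℝ) * be σ' j ∧
      al σ j * (max 1 (σ / ek j)) ^ (5 / 16 : ℝ) ≤ be σ j := by
  have he : 0 < ek j := ek_pos j
  obtain ⟨q1, q2, q3⟩ := S1a_q hσ hσ'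
  set q : ℝ := max (σ / σ') (σ' / σ) with hq
  have q0 : 0 < q := by linarith
  -- basic facts for any positive `τ`
  have hm : ∀ τ : ℝ, 0 < τ → 0 < min (ek j / τ) (τ / ek j) ∧ min (ek j / τ) (τ / ek j) ≤ 1 := by
    intro τ hτ
    refine ⟨lt_min (by positivity) (by positivity), ?_⟩
    rcases le_total (ek j) τ with h1 | h1
    · exact (min_le_left _ _).trans ((div_le_one hτ).2 h1)
    · exact (min_le_right _ _).trans ((div_le_one he).2 h1)
  have hal0 : ∀ τ : ℝ, 0 < τ → 0 ≤ al τ j ∧ al τ j ≤ 1 := by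
    intro τ hτ
    obtain ⟨h1, h2⟩ := hm τ hτ
    exact ⟨Real.rpow_nonneg h1.le _, Real.rpow_le_one h1.le h2 (by norm_num)⟩
  have hbe1 : ∀ τ : ℝ, 0 < τ → ek j ≤ τ → be τ j = (ek j / τ) ^ (1 / 16 : ℝ) := by
    intro τ _ h1
    unfold be
    rw [if_pos h1]
  have hbe2 : ∀ τ : ℝ, 0 < τ → ¬ ek j ≤ τ → be τ j = (τ / ek j) ^ (3 / 8 : ℝ) := by
    intro τ _ h1
    unfold be
    rw [if_neg h1]
  have hal1 : ∀ τ : ℝ, 0 < τ → ek j ≤ τ → al τ j = (ek j / τ) ^ (3 / 8 : ℝ) := by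
    intro τ hτ h1
    unfold al
    rw [min_eq_left]
    exact ((div_le_one hτ).2 h1).trans ((one_le_div he).2 h1)
  have hal2 : ∀ τ : ℝ, 0 < τ → ¬ ek j ≤ τ → al τ j = (τ / ek j) ^ (3 / 8 : ℝ) := by
    intro τ hτ h1
    unfold al
    rw [min_eq_right]
    have h2 : τ ≤ ek j := (not_le.1 h1).le
    exact ((div_le_one he).2 h2).trans ((one_le_div hτ).2 h2)
  have hbe0 : ∀ τ : ℝ, 0 < τ → 0 ≤ be τ j ∧ be τ j ≤ 1 := by
    intro τ hτ
    by_cases h1 : ek j ≤ τ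
    · rw [hbe1 τ hτ h1]
      exact ⟨Real.rpow_nonneg (by positivity) _,
        Real.rpow_le_one (by positivity) ((div_le_one hτ).2 h1) (by norm_num)⟩
    · rw [hbe2 τ hτ h1]
      exact ⟨Real.rpow_nonneg (by positivity) _,
        Real.rpow_le_one (by positivity) ((div_le_one he).2 (not_le.1 h1).le) (by norm_num)⟩
  refine ⟨(hal0 σ hσ).1, (hal0 σ hσ).2, (hbe0 σ hσ).1, (hbe0 σ hσ).2, ?_, ?_, ?_, ?_⟩
  · by_cases h1 : ek j ≤ σ
    · rw [hbe1 σ hσ h1, hal1 σ hσ h1]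
      exact Real.rpow_le_rpow_of_exponent_ge (by positivity) ((div_le_one hσ).2 h1) (by norm_num)
    · rw [hbe2 σ hσ h1, hal2 σ hσ h1]
  · unfold al
    rw [← Real.mul_rpow q0.le (hm σ' hσ').1.le]
    refine Real.rpow_le_rpow (hm σ hσ).1.le ?_ (by norm_num)
    rw [mul_min_of_nonneg _ _ q0.le]
    refine min_le_min ?_ ?_
    · rw [div_le_iff₀ hσ]
      have : q * (ek j / σ') * σ = ek j * (q * σ / σ') := by ring
      rw [this]
      have h2 : 1 ≤ q * σ / σ' := (one_le_div hσ').2 q3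
      nlinarith
    · rw [div_le_iff₀ he]
      have : q * (σ' / ek j) * ek j = q * σ' := by field_simp
      rw [this]
      exact q2
  · by_cases h1 : ek j ≤ σ <;> by_cases h2 : ek j ≤ σ'
    · rw [hbe1 σ hσ h1, hbe1 σ' hσ' h2]
      have h3 : (ek j / σ) ^ (1 / 16 : ℝ) ≤ q ^ (1 / 16 : ℝ) * (ek j / σ') ^ (1 / 16 : ℝ) := by
        rw [← Real.mul_rpow q0.le (by positivity)]
        refine Real.rpow_le_rpow (by positivity) ?_ (by norm_num)
        rw [div_le_iff₀ hσ]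
        have : q * (ek j / σ') * σ = ek j * (q * σ / σ') := by ring
        rw [this]
        have h2 : 1 ≤ q * σ / σ' := (one_le_div hσ').2 q3
        nlinarith
      refine h3.trans (mul_le_mul_of_nonneg_right ?_ (Real.rpow_nonneg (by positivity) _))
      exact Real.rpow_le_rpow_of_exponent_le q1 (by norm_num)
    · rw [hbe2 σ' hσ' h2, ← Real.mul_rpow q0.le (by positivity)]
      refine (hbe0 σ hσ).2.trans (Real.one_le_rpow ?_ (by norm_num))
      have : q * (σ' / ek j) = q * σ' / ek j := by ring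
      rw [this, one_le_div he]
      exact h1.trans q2
    · refine (hbe0 σ hσ).2.trans ?_
      rw [hbe1 σ' hσ' h2]
      have h3 : 1 ≤ q * (ek j / σ') := by
        have : q * (ek j / σ') = q * ek j / σ' := by ring
        rw [this, one_le_div hσ']
        exact q3.trans (mul_le_mul_of_nonneg_left (not_le.1 h1).le q0.le)
      calc (1 : ℝ) ≤ (q * (ek j / σ')) ^ (1 / 16 : ℝ) := Real.one_le_rpow h3 (by norm_num)
        _ = q ^ (1 / 16 : ℝ) * (ek j / σ') ^ (1 / 16 : ℝ) := Real.mul_rpow q0.le (by positivity)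
        _ ≤ q ^ (3 / 8 : ℝ) * (ek j / σ') ^ (1 / 16 : ℝ) :=
          mul_le_mul_of_nonneg_right (Real.rpow_le_rpow_of_exponent_le q1 (by norm_num))
            (Real.rpow_nonneg (by positivity) _)
    · rw [hbe2 σ hσ h1, hbe2 σ' hσ' h2, ← Real.mul_rpow q0.le (by positivity)]
      refine Real.rpow_le_rpow (by positivity) ?_ (by norm_num)
      rw [div_le_iff₀ he]
      have : q * (σ' / ek j) * ek j = q * σ' := by field_simp
      rw [this]
      exact q2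
  · by_cases h1 : ek j ≤ σ
    · rw [hbe1 σ hσ h1, hal1 σ hσ h1, max_eq_right ((one_le_div he).2 h1)]
      have h2 : σ / ek j = (ek j / σ)⁻¹ := by rw [inv_div]
      have h3 : 0 < ek j / σ := by positivity
      rw [h2, Real.inv_rpow h3.le, ← Real.rpow_neg h3.le, ← Real.rpow_add h3]
      norm_num
    · rw [hbe2 σ hσ h1, hal2 σ hσ h1, max_eq_left ((div_le_one he).2 (not_le.1 h1).le)]
      simp

private lemma S1a_geo {r : ℝ} (hr0 : 0 < r) (hr1 : r < 1) (m : ℕ) :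
    ∑ i ∈ Finset.range m, r ^ i ≤ 1 / (1 - r) := by
  rw [geom_sum_eq hr1.ne, ← neg_div_neg_eq]
  have h1 : 0 < 1 - r := by linarith
  have h2 : 0 < r ^ m := by positivity
  rw [neg_sub, neg_sub]
  exact div_le_div_of_nonneg_right (by linarith) h1.le

private lemma S1a_be {σ : ℝ} (hσ : 0 < σ) (j m : ℕ)
    (hm : min (ek j / σ) (σ / ek j) ≤ (1 / 2) ^ m) :
    be σ j ≤ ((1 / 2 : ℝ) ^ (1 / 16 : ℝ)) ^ m := by
  have he : 0 < ek j := ek_pos j
  have h0 : 0 < min (ek j / σ) (σ / ek j) := lt_min (by positivity) (by positivity)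
  have h1 : be σ j ≤ (min (ek j / σ) (σ / ek j)) ^ (1 / 16 : ℝ) := by
    unfold be
    split_ifs with h
    · rw [min_eq_left (((div_le_one hσ).2 h).trans ((one_le_div he).2 h))]
    · have h2 : σ ≤ ek j := (not_le.1 h).le
      rw [min_eq_right (((div_le_one he).2 h2).trans ((one_le_div hσ).2 h2))]
      exact Real.rpow_le_rpow_of_exponent_ge (by positivity) ((div_le_one he).2 h2) (by norm_num)
  refine h1.trans ((Real.rpow_le_rpow h0.le hm (by norm_num)).trans (le_of_eq ?_))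
  rw [← Real.rpow_natCast, ← Real.rpow_natCast, ← Real.rpow_mul (by norm_num),
    ← Real.rpow_mul (by norm_num), mul_comm]

/-- PROOF. Geometric series: `ek j = (1/2)^j`. -/
theorem be_sum : ∃ K : ℝ, 1 ≤ K ∧ ∀ (σ : ℝ), 0 < σ → ∀ J : ℕ,
    ∑ j ∈ Finset.range J, be σ j ≤ K := by
  set r : ℝ := (1 / 2 : ℝ) ^ (1 / 16 : ℝ) with hr
  have hr0 : 0 < r := Real.rpow_pos_of_pos (by norm_num) _
  have hr1 : r < 1 := Real.rpow_lt_one (by norm_num) (by norm_num) (by norm_num)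
  have hr2 : 1 ≤ 1 / (1 - r) := by
    rw [one_le_div (by linarith)]
    linarith
  refine ⟨1 / (1 - r) + 1 / (1 - r), by linarith, ?_⟩
  intro σ hσ J
  have hex : ∃ j, ek j ≤ σ := by
    obtain ⟨j, hj⟩ := exists_pow_lt_of_lt_one hσ (show (1 / 2 : ℝ) < 1 by norm_num)
    exact ⟨j, hj.le⟩
  classical
  set j0 := Nat.find hex with hj0
  have hspec : ek j0 ≤ σ := Nat.find_spec hex
  have hmin : ∀ j, j < j0 → σ < ek j := fun j hj => not_le.1 (Nat.find_min hex hj)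
  have hbe0 : ∀ j, 0 ≤ be σ j := fun j => (al_be hσ hσ j).2.2.1
  have hA : ∀ j, j0 ≤ j → be σ j ≤ r ^ (j - j0) := by
    intro j hj
    refine S1a_be hσ j (j - j0) ((min_le_left _ _).trans ?_)
    rw [div_le_iff₀ hσ]
    have h1 : ek j = (1 / 2) ^ (j - j0) * ek j0 := by
      unfold ek
      rw [← pow_add, Nat.sub_add_cancel hj]
    rw [h1]
    exact mul_le_mul_of_nonneg_left hspec (by positivity)
  have hB : ∀ j, j < j0 → be σ j ≤ r ^ (j0 - 1 - j) := by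
    intro j hj
    refine S1a_be hσ j (j0 - 1 - j) ((min_le_right _ _).trans ?_)
    rw [div_le_iff₀ (ek_pos j)]
    have h1 : ek (j0 - 1) = (1 / 2) ^ (j0 - 1 - j) * ek j := by
      unfold ek
      rw [← pow_add, Nat.sub_add_cancel (by omega)]
    rw [← h1]
    exact (hmin (j0 - 1) (by omega)).le
  calc ∑ j ∈ Finset.range J, be σ j ≤ ∑ j ∈ Finset.range (max J j0), be σ j := by
        refine Finset.sum_le_sum_of_subset_of_nonneg ?_ (fun j _ _ => hbe0 j)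
        exact Finset.range_subset_range.2 (le_max_left _ _)
    _ = ∑ j ∈ Finset.range j0, be σ j + ∑ j ∈ Finset.Ico j0 (max J j0), be σ j :=
        (Finset.sum_range_add_sum_Ico _ (le_max_right _ _)).symm
    _ ≤ ∑ j ∈ Finset.range j0, r ^ (j0 - 1 - j) +
          ∑ j ∈ Finset.Ico j0 (max J j0), r ^ (j - j0) := by
        refine add_le_add (Finset.sum_le_sum fun j hj => hB j (Finset.mem_range.1 hj))
          (Finset.sum_le_sum fun j hj => hA j (Finset.mem_Ico.1 hj).1)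
    _ ≤ 1 / (1 - r) + 1 / (1 - r) := by
        refine add_le_add ?_ ?_
        · rw [Finset.sum_range_reflect (fun i => r ^ i) j0]
          exact S1a_geo hr0 hr1 _
        · rw [Finset.sum_Ico_eq_sum_range]
          refine le_trans (le_of_eq ?_) (S1a_geo hr0 hr1 (max J j0 - j0))
          refine Finset.sum_congr rfl fun i _ => ?_
          rw [Nat.add_sub_cancel_left]

/-- PROOF. `BL.bd`. -/
theorem Jv_le (hT : DT U δ h P s u b c C A M ρ K) (j : ℕ) {z : Ec n} (hz : z ∈ Om U δ) :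
    0 ≤ Jv b j z ∧ Jv b j z ≤ 10 * d * M := by
  unfold Jv
  refine ⟨Finset.sum_nonneg fun l _ => norm_nonneg _, ?_⟩
  have h1 : ∀ l ∈ (Finset.univ : Finset (Fin d)), ‖b l (j + 1) z - b l j z‖ ≤ 10 * M := by
    intro l _
    have h2 := (hT.bl l).bd (j + 1) z (Om_sub_Dk hT.cd (j + 1) hz)
    have h3 := (hT.bl l).bd j z (Om_sub_Dk hT.cd j hz)
    have h4 := norm_sub_le (b l (j + 1) z) (b l j z)
    linarith
  refine (Finset.sum_le_sum h1).trans (le_of_eq ?_)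
  rw [Finset.sum_const, Finset.card_univ, Fintype.card_fin, nsmul_eq_mul]
  ring

/-- PROOF. `SS_le`, `SS_har`. -/
theorem DT_SH (n : ℕ) (c C A : ℝ) : ∃ K₀ : ℝ, 1 ≤ K₀ ∧ ∀ (d : ℕ) (U : Set (Ec n))
    (δ : Ec n → ℝ) (h : Ec n → Ec n → Fin n → ℂ) (P : PS n) (s : ℕ → ℝ) (u : Fin d → Ec n → ℂ)
    (b : Fin d → ℕ → Ec n → ℂ) (M ρ K : ℝ), DT U δ h P s u b c C A M ρ K →
    SH U δ h c (SS P s δ c) K₀ := by
  obtain ⟨K1, hK1, hle⟩ := SS_le n c C A
  obtain ⟨K2, hK2, hhar⟩ := SS_har n c C A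
  refine ⟨K1 + K2, by linarith, ?_⟩
  intro d U δ h P s u b M ρ K hT
  refine ⟨?_, ?_, ?_⟩
  · intro k w hw
    exact (hle U δ h P s hT.cd hT.pa hT.sl k w hw).1
  · intro k w hw
    exact (hle U δ h P s hT.cd hT.pa hT.sl k w hw).2.trans (by linarith)
  · intro k t ht htk z hz ζ hζ
    refine (hhar U δ h P s hT.cd hT.pa hT.sl k t ht htk z hz ζ hζ).trans ?_
    have hzk : z ∈ Dk U δ c k := by
      refine ⟨hz.1, ?_⟩
      have h1 : 0 < δ z + t := hz.2
      change 0 < δ z + c / 8 * ek k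
      linarith
    have h0 := (hle U δ h P s hT.cd hT.pa hT.sl k z hzk).1
    have h1 : 0 < δ ζ + t := hζ.2
    refine mul_le_mul_of_nonneg_right (mul_le_mul_of_nonneg_right
      (mul_le_mul_of_nonneg_right (by linarith) ?_) ?_) h0
    · exact Real.rpow_nonneg (div_nonneg (norm_nonneg _) h1.le) _
    · exact Real.rpow_nonneg (le_trans zero_le_one (le_max_left _ _)) _

/-- PROOF. `al_be`, and `σ^(1/4) ≤ q^(1/4) σ'^(1/4) ≤ q^(3/8) σ'^(1/4)`, `q ≥ 1`. The sums are nonnegative (`Jv_le`, `SS_le`). -/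
theorem GS_scale (hT : DT U δ h P s u b c C A M ρ K) (J : ℕ) {z : Ec n} (hz : z ∈ Om U δ)
    {σ σ' : ℝ} (hσ : 0 < σ) (hσ' : 0 < σ') : 0 ≤ GS P s δ c b J σ z ∧
      GS P s δ c b J σ z ≤ (max (σ / σ') (σ' / σ)) ^ (3 / 8 : ℝ) * GS P s δ c b J σ' z := by
  obtain ⟨K1, hK1, hle⟩ := SS_le n c C A
  have hS : ∀ j, 0 ≤ SS P s δ c j z := fun j =>
    (hle U δ h P s hT.cd hT.pa hT.sl j z (Om_sub_Dk hT.cd j hz)).1
  have hJ : ∀ j, 0 ≤ Jv b j z := fun j => (Jv_le hT j hz).1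
  obtain ⟨q1, q2, q3⟩ := S1a_q hσ hσ'
  have q0 : 0 < max (σ / σ') (σ' / σ) := by linarith
  refine ⟨?_, ?_⟩
  · unfold GS
    refine add_nonneg (add_nonneg (Real.rpow_nonneg hσ.le _) ?_) ?_
    · exact Finset.sum_nonneg fun j _ => mul_nonneg (al_be hσ hσ j).1 (hJ j)
    · exact Finset.sum_nonneg fun j _ => mul_nonneg (al_be hσ hσ j).2.2.1 (hS j)
  · unfold GS
    rw [mul_add, mul_add, Finset.mul_sum, Finset.mul_sum]
    refine add_le_add (add_le_add ?_ ?_) ?_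
    · calc σ ^ (1 / 4 : ℝ) ≤ (max (σ / σ') (σ' / σ) * σ') ^ (1 / 4 : ℝ) :=
            Real.rpow_le_rpow hσ.le q2 (by norm_num)
        _ = (max (σ / σ') (σ' / σ)) ^ (1 / 4 : ℝ) * σ' ^ (1 / 4 : ℝ) :=
            Real.mul_rpow q0.le hσ'.le
        _ ≤ (max (σ / σ') (σ' / σ)) ^ (3 / 8 : ℝ) * σ' ^ (1 / 4 : ℝ) :=
            mul_le_mul_of_nonneg_right (Real.rpow_le_rpow_of_exponent_le q1 (by norm_num))
              (Real.rpow_nonneg hσ'.le _)
    · refine Finset.sum_le_sum fun j _ => ?_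
      rw [← mul_assoc]
      exact mul_le_mul_of_nonneg_right (al_be hσ hσ' j).2.2.2.2.2.1 (hJ j)
    · refine Finset.sum_le_sum fun j _ => ?_
      rw [← mul_assoc]
      exact mul_le_mul_of_nonneg_right (al_be hσ hσ' j).2.2.2.2.2.2.1 (hS j)

/-- PROOF. `be_sum`, `Jv_le`, `SS_le`, `al ≤ be`, `σ ≤ C`. -/
theorem GS_le (n d : ℕ) (c C A M : ℝ) : ∃ K' : ℝ, 1 ≤ K' ∧ ∀ (U : Set (Ec n))
    (δ : Ec n → ℝ) (h : Ec n → Ec n → Fin n → ℂ) (P : PS n) (s : ℕ → ℝ) (u : Fin d → Ec n → ℂ)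
    (b : Fin d → ℕ → Ec n → ℂ) (ρ K : ℝ), DT U δ h P s u b c C A M ρ K → ∀ (J : ℕ) (σ : ℝ),
    0 < σ → σ ≤ C → ∀ z ∈ Om U δ, GS P s δ c b J σ z ≤ K' := by
  obtain ⟨K1, hK1, hle⟩ := SS_le n c C A
  obtain ⟨K2, hK2, hbe⟩ := be_sum
  refine ⟨|C| + K2 * (10 * d * |M|) + K2 * K1, ?_, ?_⟩
  · have h1 : 1 ≤ K2 * K1 := by nlinarith
    have h2 : 0 ≤ K2 * (10 * d * |M|) := by positivity
    have h3 := abs_nonneg C
    linarith
  · intro U δ h P s u b ρ K hT J σ hσ hσC z hz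
    have hC := hT.cd.pos.2.2
    have hM := hT.M1
    have hS : ∀ j, 0 ≤ SS P s δ c j z ∧ SS P s δ c j z ≤ K1 := fun j =>
      hle U δ h P s hT.cd hT.pa hT.sl j z (Om_sub_Dk hT.cd j hz)
    have hJ : ∀ j, 0 ≤ Jv b j z ∧ Jv b j z ≤ 10 * d * M := fun j => Jv_le hT j hz
    have hab : ∀ j, 0 ≤ be σ j ∧ al σ j ≤ be σ j := fun j =>
      ⟨(al_be hσ hσ j).2.2.1, (al_be hσ hσ j).2.2.2.2.1⟩
    have hdM : 0 ≤ 10 * (d : ℝ) * M := by positivity
    unfold GS
    refine add_le_add (add_le_add ?_ ?_) ?_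
    · calc σ ^ (1 / 4 : ℝ) ≤ C ^ (1 / 4 : ℝ) := Real.rpow_le_rpow hσ.le hσC (by norm_num)
        _ ≤ C ^ (1 : ℝ) := Real.rpow_le_rpow_of_exponent_le hC (by norm_num)
        _ = C := Real.rpow_one C
        _ ≤ |C| := le_abs_self C
    · calc ∑ j ∈ Finset.range J, al σ j * Jv b j z
          ≤ ∑ j ∈ Finset.range J, be σ j * (10 * d * M) :=
            Finset.sum_le_sum fun j _ => mul_le_mul (hab j).2 (hJ j).2 (hJ j).1 (hab j).1
        _ = (∑ j ∈ Finset.range J, be σ j) * (10 * d * M) := (Finset.sum_mul _ _ _).symm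
        _ ≤ K2 * (10 * d * M) := mul_le_mul_of_nonneg_right (hbe σ hσ J) hdM
        _ = K2 * (10 * d * |M|) := by rw [abs_of_nonneg (by linarith)]
    · calc ∑ j ∈ Finset.range (J + 1), be σ j * SS P s δ c j z
          ≤ ∑ j ∈ Finset.range (J + 1), be σ j * K1 :=
            Finset.sum_le_sum fun j _ => mul_le_mul_of_nonneg_left (hS j).2 (hab j).1
        _ = (∑ j ∈ Finset.range (J + 1), be σ j) * K1 := (Finset.sum_mul _ _ _).symm
        _ ≤ K2 * K1 := mul_le_mul_of_nonneg_right (hbe σ hσ (J + 1)) (by linarith)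

end Pool.Agent.MPca0fc2.GW
end

section

/-! The weight vector. -/

set_option autoImplicit false

open Metric Set MeasureTheory Filter Topology

namespace Pool.Agent.MPca0fc2.GW

open Pool.Agent.MPca0fc2.FD

variable {n d : ℕ} {U : Set (Ec n)} {δ : Ec n → ℝ} {h : Ec n → Ec n → Fin n → ℂ} {P : PS n}
  {s : ℕ → ℝ} {u : Fin d → Ec n → ℂ} {b : Fin d → ℕ → Ec n → ℂ} {c C A M ρ K : ℝ}
  {Λ : Fin d → ℕ → Ec n → Ec n → Fin n → ℂ} {K₁ : ℝ}

private theorem S2_deriv (N s : ℝ) :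
    deriv (fun t => ((th N t : ℝ) : ℂ)) s = ((deriv (th N) s : ℝ) : ℂ) :=
  (((th_smooth N).differentiable two_ne_zero s).hasDerivAt.ofReal_comp).deriv

private theorem S2_reV (hT : DT U δ h P s u b c C A M ρ K) (x : Fin P.R) {z : Ec n}
    (hz : z ∈ Om U δ) : P.V x z ≠ 0 := by
  intro h0
  have h1 := hT.pa.re x z hz
  rw [h0, Complex.zero_re, mul_zero] at h1
  have h2 := hT.pa.N0 x
  have h3 := hz.2
  linarith

private theorem S2_geo (hT : DT U δ h P s u b c C A M ρ K) : Geo U δ h (c / 2) C := CD.geo0 hT.cd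

private theorem S2_open (hT : DT U δ h P s u b c C A M ρ K) : IsOpen (Om U δ) := by
  have := Om_lev_open hT.cd 0
  rwa [Om_zero] at this

private theorem S2_Vc2 (hT : DT U δ h P s u b c C A M ρ K) (x : Fin P.R) :
    ContDiffOn ℝ 2 (P.V x) (Om U δ) :=
  (FD.hol_c2 (S2_geo hT).opn (hT.pa.hol x)).mono fun _ hz => hz.1

private theorem S2_Hc2 (hT : DT U δ h P s u b c C A M ρ K) (x : Fin P.R) (k : Fin n) :
    ContDiffOn ℝ 2 (fun p : Ec n × Ec n => P.H x p.1 p.2 k) (Om U δ ×ˢ Om U δ) := by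
  have h0 : ContDiffOn ℝ 2 (fun p : Ec n × Ec n => P.H x p.1 p.2) (U ×ˢ U) :=
    FD.hol_c2 ((S2_geo hT).opn.prod (S2_geo hT).opn) (hT.pa.Hhol x)
  have h1 := h0.mono
    (prod_mono (fun z hz => hz.1) (fun z hz => hz.1) : Om U δ ×ˢ Om U δ ⊆ U ×ˢ U)
  exact contDiffOn_pi.mp h1 k

private theorem S2_Lc2 (hT : DT U δ h P s u b c C A M ρ K) (hL : HL U δ h c u b Λ K₁)
    (l : Fin d) (j : ℕ) (k : Fin n) :
    ContDiffOn ℝ 2 (fun p : Ec n × Ec n => Λ l j p.1 p.2 k) (Om U δ ×ˢ Om U δ) := by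
  have h0 : ContDiffOn ℝ 2 (fun p : Ec n × Ec n => Λ l j p.1 p.2) (Om U δ ×ˢ Om U δ) :=
    FD.hol_c2 ((S2_open hT).prod (S2_open hT)) (hL.hol l j)
  exact contDiffOn_pi.mp h0 k

private theorem S2_thc2 (hT : DT U δ h P s u b c C A M ρ K) (N : ℝ) :
    ContDiffOn ℝ 2 (fun p : Ec n × Ec n => ((th N (δ p.2) : ℝ) : ℂ)) (Om U δ ×ˢ Om U δ) := by
  have hδ : ContDiffOn ℝ 2 δ (Om U δ) := (S2_geo hT).dδ.mono fun z hz => hz.1
  have h1 : ContDiffOn ℝ 2 (fun p : Ec n × Ec n => δ p.2) (Om U δ ×ˢ Om U δ) :=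
    hδ.comp contDiffOn_snd fun p hp => hp.2
  exact Complex.ofRealCLM.contDiff.comp_contDiffOn ((th_smooth N).comp_contDiffOn h1)

private theorem S2_c2 (hT : DT U δ h P s u b c C A M ρ K) (hL : HL U δ h c u b Λ K₁) (J : ℕ)
    (κ κ' : ℝ) (k : Fin n) :
    ContDiffOn ℝ 2 (fun p : Ec n × Ec n => Qv P δ Λ J κ κ' p.1 p.2 k) (Om U δ ×ˢ Om U δ) := by
  have hV1 : ∀ x, ContDiffOn ℝ 2 (fun p : Ec n × Ec n => P.V x p.1) (Om U δ ×ˢ Om U δ) :=
    fun x => (S2_Vc2 hT x).comp contDiffOn_fst fun p hp => hp.1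
  have hV2 : ∀ x, ContDiffOn ℝ 2 (fun p : Ec n × Ec n => P.V x p.2) (Om U δ ×ˢ Om U δ) :=
    fun x => (S2_Vc2 hT x).comp contDiffOn_snd fun p hp => hp.2
  unfold Qv
  refine ContDiffOn.add (contDiffOn_const.mul (ContDiffOn.sum fun x _ => ?_))
    (contDiffOn_const.mul (ContDiffOn.sum fun j _ => (S2_thc2 hT _).mul
      (ContDiffOn.sum fun l _ => S2_Lc2 hT hL l j k)))
  refine (contDiffOn_const.mul (S2_thc2 hT _)).mul ?_
  simp only [div_eq_mul_inv]
  refine (contDiffOn_const.mul (S2_Hc2 hT x k)).mul (((hV1 x).mul (hV2 x)).inv fun p hp => ?_)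
  exact mul_ne_zero (S2_reV hT x hp.1) (S2_reV hT x hp.2)

private theorem S2_Hz (hT : DT U δ h P s u b c C A M ρ K) (x : Fin P.R) (k : Fin n) {ζ : Ec n}
    (hζ : ζ ∈ Om U δ) : DifferentiableOn ℂ (fun z => P.H x z ζ k) (Om U δ) := by
  have h1 : DifferentiableOn ℂ (fun z => P.H x z ζ) (Om U δ) :=
    (hT.pa.Hhol x).comp (g := fun p : Ec n × Ec n => P.H x p.1 p.2) (f := fun z => (z, ζ))
      ((differentiable_id.prodMk (differentiable_const ζ)).differentiableOn)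
      fun z hz => ⟨hz.1, hζ.1⟩
  exact differentiableOn_pi.mp h1 k

private theorem S2_Lz (hL : HL U δ h c u b Λ K₁) (l : Fin d) (j : ℕ) (k : Fin n) {ζ : Ec n}
    (hζ : ζ ∈ Om U δ) : DifferentiableOn ℂ (fun z => Λ l j z ζ k) (Om U δ) := by
  have h1 : DifferentiableOn ℂ (fun z => Λ l j z ζ) (Om U δ) :=
    (hL.hol l j).comp (g := fun p : Ec n × Ec n => Λ l j p.1 p.2) (f := fun z => (z, ζ))
      ((differentiable_id.prodMk (differentiable_const ζ)).differentiableOn)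
      fun z hz => ⟨hz, hζ⟩
  exact differentiableOn_pi.mp h1 k

/-- the common shape of the weight vector and of its factor -/
private theorem S2_hol (hT : DT U δ h P s u b c C A M ρ K) (hL : HL U δ h c u b Λ K₁) (J : ℕ)
    (κ κ' : ℝ) (g : ℝ → ℂ) (k : Fin n) {ζ : Ec n} (hζ : ζ ∈ Om U δ) :
    DifferentiableOn ℂ (fun z => (κ : ℂ) * ∑ x, (P.w x : ℂ) * g (P.N x) *
      ((P.N x : ℂ) * P.H x z ζ k / (P.V x z * P.V x ζ)) +
      (κ' : ℂ) * ∑ j ∈ Finset.range J, g (ek j) * ∑ l, Λ l j z ζ k) (Om U δ) := by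
  refine DifferentiableOn.add ((differentiableOn_const _).mul (DifferentiableOn.fun_sum
    fun x _ => (differentiableOn_const _).mul ?_)) ((differentiableOn_const _).mul
      (DifferentiableOn.fun_sum fun j _ => (differentiableOn_const _).mul
        (DifferentiableOn.fun_sum fun l _ => S2_Lz hL l j k hζ)))
  have hV : DifferentiableOn ℂ (P.V x) (Om U δ) :=
    (hT.pa.hol x).mono (fun z hz => hz.1 : Om U δ ⊆ U)
  have hne : ∀ z ∈ Om U δ, P.V x z * P.V x ζ ≠ 0 := fun z hz =>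
    mul_ne_zero (S2_reV hT x hz) (S2_reV hT x hζ)
  have h1 : DifferentiableOn ℂ (fun z => (P.N x : ℂ) * P.H x z ζ k) (Om U δ) :=
    (differentiableOn_const _).mul (S2_Hz hT x k hζ)
  have h2 : DifferentiableOn ℂ (fun z => P.V x z * P.V x ζ) (Om U δ) :=
    hV.mul (differentiableOn_const _)
  simp only [div_eq_mul_inv]
  exact h1.mul (h2.fun_inv hne)

private theorem S2_db (hT : DT U δ h P s u b c C A M ρ K) (hL : HL U δ h c u b Λ K₁) (J : ℕ)
    (κ κ' : ℝ) {z ζ : Ec n} (hz : z ∈ Om U δ) (hζ : ζ ∈ Om U δ) (X : Ec n) (k : Fin n) :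
    db (fun y => Qv P δ Λ J κ κ' z y k) ζ X =
      db (fun y => (δ y : ℂ)) ζ X * Rv' P δ Λ J κ κ' z ζ k := by
  have hg := S2_geo hT
  have hU : U ∈ 𝓝 ζ := hg.opn.mem_nhds hζ.1
  have hO : Om U δ ∈ 𝓝 ζ := (S2_open hT).mem_nhds hζ
  have hδ : DifferentiableAt ℝ δ ζ := (hg.dδ.contDiffAt hU).differentiableAt two_ne_zero
  have hth : ∀ N, DifferentiableAt ℝ (fun y => ((th N (δ y) : ℝ) : ℂ)) ζ := fun N =>
    (Complex.ofRealCLM.differentiableAt).comp ζ
      (((th_smooth N).differentiable two_ne_zero _).comp ζ hδ)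
  have hG : ∀ x, DifferentiableAt ℂ (fun y => (P.w x : ℂ) *
      ((P.N x : ℂ) * P.H x z y k / (P.V x z * P.V x y))) ζ := by
    intro x
    have hV : DifferentiableAt ℂ (P.V x) ζ := (hT.pa.hol x).differentiableAt hU
    have hH : DifferentiableAt ℂ (fun y => P.H x z y k) ζ := by
      have h1 : DifferentiableAt ℂ (fun p : Ec n × Ec n => P.H x p.1 p.2) (z, ζ) :=
        (hT.pa.Hhol x).differentiableAt ((hg.opn.prod hg.opn).mem_nhds ⟨hz.1, hζ.1⟩)
      have h2 : DifferentiableAt ℂ (fun y => P.H x z y) ζ :=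
        h1.comp ζ ((differentiableAt_const z).prodMk differentiableAt_id)
      exact differentiableAt_pi.mp h2 k
    have hne : P.V x z * P.V x ζ ≠ 0 := mul_ne_zero (S2_reV hT x hz) (S2_reV hT x hζ)
    have h1 : DifferentiableAt ℂ (fun y => (P.N x : ℂ) * P.H x z y k) ζ :=
      (differentiableAt_const _).mul hH
    have h2 : DifferentiableAt ℂ (fun y => P.V x z * P.V x y) ζ :=
      (differentiableAt_const _).mul hV
    simp only [div_eq_mul_inv]
    exact (differentiableAt_const _).mul (h1.mul (DifferentiableAt.fun_inv h2 hne))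
  have hLd : ∀ j, DifferentiableAt ℂ (fun y => ∑ l, Λ l j z y k) ζ := by
    intro j
    refine DifferentiableAt.fun_sum fun l _ => ?_
    have h1 : DifferentiableAt ℂ (fun p : Ec n × Ec n => Λ l j p.1 p.2) (z, ζ) :=
      (hL.hol l j).differentiableAt (((S2_open hT).prod (S2_open hT)).mem_nhds ⟨hz, hζ⟩)
    have h2 : DifferentiableAt ℂ (fun y => Λ l j z y) ζ :=
      h1.comp ζ ((differentiableAt_const z).prodMk differentiableAt_id)
    exact differentiableAt_pi.mp h2 k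
  have hterm1 : ∀ x, DifferentiableAt ℝ (fun y => ((th (P.N x) (δ y) : ℝ) : ℂ) *
      ((P.w x : ℂ) * ((P.N x : ℂ) * P.H x z y k / (P.V x z * P.V x y)))) ζ := fun x =>
    (hth _).mul ((hG x).restrictScalars ℝ)
  have hterm2 : ∀ j, DifferentiableAt ℝ (fun y => ((th (ek j) (δ y) : ℝ) : ℂ) *
      ∑ l, Λ l j z y k) ζ := fun j => (hth _).mul ((hLd j).restrictScalars ℝ)
  have hs1 : DifferentiableAt ℝ (fun y => ∑ x, ((th (P.N x) (δ y) : ℝ) : ℂ) *
      ((P.w x : ℂ) * ((P.N x : ℂ) * P.H x z y k / (P.V x z * P.V x y)))) ζ :=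
    DifferentiableAt.fun_sum fun x _ => hterm1 x
  have hs2 : DifferentiableAt ℝ (fun y => ∑ j ∈ Finset.range J,
      ((th (ek j) (δ y) : ℝ) : ℂ) * ∑ l, Λ l j z y k) ζ :=
    DifferentiableAt.fun_sum fun j _ => hterm2 j
  have hQ : (fun y => Qv P δ Λ J κ κ' z y k) = fun y =>
      ((κ : ℂ) * ∑ x, ((th (P.N x) (δ y) : ℝ) : ℂ) *
        ((P.w x : ℂ) * ((P.N x : ℂ) * P.H x z y k / (P.V x z * P.V x y)))) +
      ((κ' : ℂ) * ∑ j ∈ Finset.range J, ((th (ek j) (δ y) : ℝ) : ℂ) * ∑ l, Λ l j z y k) := by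
    funext y
    unfold Qv
    congr 2
    refine Finset.sum_congr rfl fun x _ => ?_
    ring
  have hadd : ∀ F G : Ec n → ℂ, DifferentiableAt ℝ F ζ → DifferentiableAt ℝ G ζ →
      db (fun y => F y + G y) ζ X = db F ζ X + db G ζ X := by
    intro F G hF hG
    unfold db
    rw [fderiv_fun_add hF hG]
    simp only [add_apply, smul_eq_mul]
    ring
  rw [hQ, hadd _ _ (hs1.const_mul _) (hs2.const_mul _), B10_db_cmul hs1, B10_db_cmul hs2,
    B10_db_sum _ fun x _ => hterm1 x, B10_db_sum _ fun j _ => hterm2 j]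
  unfold Rv'
  rw [mul_add]
  congr 1
  · rw [mul_left_comm]
    congr 1
    rw [Finset.mul_sum]
    refine Finset.sum_congr rfl fun x _ => ?_
    rw [B10_db_mul (hth _) (hG x), B10_db_th _ hδ, S2_deriv]
    ring
  · rw [mul_left_comm]
    congr 1
    rw [Finset.mul_sum]
    refine Finset.sum_congr rfl fun j _ => ?_
    rw [B10_db_mul (hth _) (hLd j), B10_db_th _ hδ, S2_deriv]
    ring

/-- The regularity.
PROOF. `W = Om U δ` is open. `c2`: `th N ∘ δ` is of class `C²` (`Real.smoothTransition` is smooth), `H`, `Λ`, `V` are holomorphic, hence of class `C²` (on the open set `W ×ˢ W` of `ℂⁿ × ℂⁿ`; a holomorphic function of several variables is analytic: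
see `age_hol_c2` in `QTAge.lean`, stated for a complex inner product space: use `WithLp 2 (Ec n × Ec n)` or the components; the file `FD/B10.lean` has a similar lemma for `QM.Hhol`), `V ≠ 0` on `W` (`PA.re`). `hol`: holomorphic in `z`. `dbQ`: `∂̄_ζ` acts only on `th N (δ ζ)`:
`db (th N ∘ δ) = th'(δ) db δ`; the other factors are holomorphic in `ζ`. -/
theorem Qv_WQ (hT : DT U δ h P s u b c C A M ρ K) (hL : HL U δ h c u b Λ K₁) (J : ℕ) (κ κ' : ℝ) :
    WQ (Om U δ) δ (Qv P δ Λ J κ κ') (Rv' P δ Λ J κ κ') := by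
  refine ⟨S2_open hT, fun k => S2_c2 hT hL J κ κ' k, fun ζ hζ k => ?_,
    fun z hz ζ hζ X k => S2_db hT hL J κ κ' hz hζ X k, fun ζ hζ k => ?_⟩
  · exact S2_hol hT hL J κ κ' (fun N => (th N (δ ζ) : ℂ)) k hζ
  · exact S2_hol hT hL J κ κ' (fun N => (deriv (fun t => th N t) (δ ζ) : ℂ)) k hζ

/-- The exponent.
PROOF. `V z - V ζ = ∑ H_k (z_k - ζ_k)`: `- ∑_k (N H_k / (V z V ζ)) (ζ_k - z_k) = N (V z - V ζ) / (V z V ζ) = N / V ζ - N / V z`; `HL.hef`. -/
theorem Qv_ex (hT : DT U δ h P s u b c C A M ρ K) (hL : HL U δ h c u b Λ K₁) (J : ℕ) (κ κ' : ℝ)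
    {z ζ : Ec n} (hz : z ∈ Om U δ) (hζ : ζ ∈ Om U δ) :
    wEx (Qv P δ Λ J κ κ') z ζ =
      κ * ∑ x, (P.w x : ℂ) * (th (P.N x) (δ ζ) : ℂ) * ((P.N x : ℂ) / P.V x ζ - (P.N x : ℂ) / P.V x z) +
      κ' * ∑ j ∈ Finset.range J, (th (ek j) (δ ζ) : ℂ) * ∑ l,
        (Lk U δ h c (u l) (b l) j z - Lk U δ h c (u l) (b l) j ζ) := by
  have h1 : ∀ x, (P.N x : ℂ) / P.V x ζ - (P.N x : ℂ) / P.V x z =
      ∑ k, ((P.N x : ℂ) * P.H x z ζ k / (P.V x z * P.V x ζ)) * (z k - ζ k) := by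
    intro x
    have hv := hT.pa.hef x z hz.1 ζ hζ.1
    have h2 : ∑ k, ((P.N x : ℂ) * P.H x z ζ k / (P.V x z * P.V x ζ)) * (z k - ζ k) =
        (P.N x : ℂ) / (P.V x z * P.V x ζ) * ∑ k, P.H x z ζ k * (z k - ζ k) := by
      rw [Finset.mul_sum]
      refine Finset.sum_congr rfl fun k _ => ?_
      ring
    have hz0 := S2_reV hT x hz
    have hζ0 := S2_reV hT x hζ
    rw [h2, ← hv]
    field_simp
  unfold wEx Qv
  simp only [h1, hL.hef _ _ z hz ζ hζ]
  have e1 : ∑ x, (P.w x : ℂ) * (th (P.N x) (δ ζ) : ℂ) * ∑ k,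
      ((P.N x : ℂ) * P.H x z ζ k / (P.V x z * P.V x ζ)) * (z k - ζ k) =
      ∑ k, (∑ x, (P.w x : ℂ) * (th (P.N x) (δ ζ) : ℂ) *
        ((P.N x : ℂ) * P.H x z ζ k / (P.V x z * P.V x ζ))) * (z k - ζ k) := by
    simp only [Finset.mul_sum, Finset.sum_mul]
    rw [Finset.sum_comm]
    refine Finset.sum_congr rfl fun k _ => Finset.sum_congr rfl fun x _ => ?_
    ring
  have e2 : ∑ j ∈ Finset.range J, (th (ek j) (δ ζ) : ℂ) * ∑ l, ∑ k, Λ l j z ζ k * (z k - ζ k) =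
      ∑ k, (∑ j ∈ Finset.range J, (th (ek j) (δ ζ) : ℂ) * ∑ l, Λ l j z ζ k) * (z k - ζ k) := by
    have e3 : ∀ j, ∑ l, ∑ k, Λ l j z ζ k * (z k - ζ k) =
        ∑ k, (∑ l, Λ l j z ζ k) * (z k - ζ k) := by
      intro j
      rw [Finset.sum_comm]
      simp only [Finset.sum_mul]
    simp only [e3, Finset.mul_sum (s := (Finset.univ : Finset (Fin n)))]
    rw [Finset.sum_comm]
    refine Finset.sum_congr rfl fun k _ => ?_
    rw [Finset.sum_mul]
    refine Finset.sum_congr rfl fun j _ => ?_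
    ring
  rw [e1, e2, Finset.mul_sum, Finset.mul_sum, ← Finset.sum_add_distrib,
    ← Finset.sum_neg_distrib]
  refine Finset.sum_congr rfl fun k _ => ?_
  ring

/-- The factor `R`.
PROOF. The first part: `r_block` (each component: `‖·‖` is the sup norm). The second part: `|th'| ≤ K / ek j` and only `ek j / 2 ≤ δ ζ ≤ ek j` (`smooth_deriv`), at most two indices `j`; `‖Λ‖ ≤ K₁ / ek j`: at most `K' / (δ ζ)²`, and
`1 ≤ 2 ‖v‖ / δ ζ`. -/
theorem Rv_bd (n d : ℕ) (c C A K₁ : ℝ) : ∃ K' : ℝ, 1 ≤ K' ∧ ∀ (U : Set (Ec n))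
    (δ : Ec n → ℝ) (h : Ec n → Ec n → Fin n → ℂ) (P : PS n) (s : ℕ → ℝ) (u : Fin d → Ec n → ℂ)
    (b : Fin d → ℕ → Ec n → ℂ) (Λ : Fin d → ℕ → Ec n → Ec n → Fin n → ℂ) (M ρ K : ℝ),
    DT U δ h P s u b c C A M ρ K → HL U δ h c u b Λ K₁ → ∀ (J : ℕ) (κ κ' : ℝ),
    0 ≤ κ → κ ≤ 1 → 0 ≤ κ' → κ' ≤ 1 → ∀ z ∈ Om U δ, ∀ ζ ∈ Om U δ,
    δ ζ * ‖vv δ h z ζ‖ * ‖Rv' P δ Λ J κ κ' z ζ‖ ≤ K' * (‖vv δ h z ζ‖ / δ ζ) ^ 2 := by
  obtain ⟨Kr, hKr1, hKr⟩ := r_block n c C A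
  obtain ⟨K₀, hK₀, hth⟩ := smooth_deriv
  refine ⟨Kr + 4 * (K₀ * (d * |K₁|)), ?_, ?_⟩
  · have : 0 ≤ K₀ * (d * |K₁|) := by positivity
    linarith
  intro U δ h P s u b Λ M ρ K hT hL J κ κ' hκ0 hκ1 hκ'0 hκ'1 z hz ζ hζ
  have hg := S2_geo hT
  obtain ⟨-, hv2, -, hv0⟩ := v_lb hg hz hζ
  set t := ‖vv δ h z ζ‖ with ht
  have hs : 0 < δ ζ := hζ.2
  have hB0 : 0 ≤ K₀ * (d * |K₁|) := by positivity
  have hR : ‖Rv' P δ Λ J κ κ' z ζ‖ ≤ Kr * t / (δ ζ) ^ 3 + 2 * (K₀ * (d * |K₁|)) / (δ ζ) ^ 2 := by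
    rw [pi_norm_le_iff_of_nonneg (by positivity)]
    intro k
    unfold Rv'
    refine (norm_add_le _ _).trans (add_le_add ?_ ?_)
    · rw [norm_mul, Complex.norm_real, Real.norm_eq_abs, abs_of_nonneg hκ0]
      refine (mul_le_of_le_one_left (norm_nonneg _) hκ1).trans ?_
      refine (norm_sum_le _ _).trans ((Finset.sum_le_sum fun x _ => ?_).trans
        (hKr U δ h P hT.cd hT.pa z hz ζ hζ))
      rw [S2_deriv, norm_mul, norm_mul, Complex.norm_real, Complex.norm_real, Real.norm_eq_abs,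
        Real.norm_eq_abs, abs_of_nonneg (hT.pa.w0 x), norm_div, norm_mul, norm_mul,
        Complex.norm_real, Real.norm_eq_abs, abs_of_pos (hT.pa.N0 x)]
      refine mul_le_mul_of_nonneg_left ?_ (mul_nonneg (hT.pa.w0 x) (abs_nonneg _))
      refine div_le_div_of_nonneg_right ?_ (by positivity)
      exact mul_le_mul_of_nonneg_left (norm_le_pi_norm _ k) (hT.pa.N0 x).le
    · rw [norm_mul, Complex.norm_real, Real.norm_eq_abs, abs_of_nonneg hκ'0]
      refine (mul_le_of_le_one_left (norm_nonneg _) hκ'1).trans ?_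
      have hterm : ∀ j ∈ Finset.range J, ‖(deriv (fun t => ((th (ek j) t : ℝ) : ℂ)) (δ ζ)) *
          ∑ l, Λ l j z ζ k‖ ≤ if ek j / 2 ≤ δ ζ ∧ δ ζ ≤ ek j then
            K₀ * (d * |K₁|) / (δ ζ) ^ 2 else 0 := by
        intro j _
        have hj : 0 < ek j := ek_pos j
        rw [S2_deriv, norm_mul, Complex.norm_real, Real.norm_eq_abs]
        have h1 : |deriv (th (ek j)) (δ ζ)| ≤
            if ek j / 2 ≤ δ ζ ∧ δ ζ ≤ ek j then K₀ / ek j else 0 := hth (ek j) (δ ζ) hj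
        have h2 : ‖∑ l, Λ l j z ζ k‖ ≤ d * (|K₁| / ek j) := by
          refine (norm_sum_le _ _).trans ((Finset.sum_le_sum fun l _ => ?_).trans_eq
            (by rw [Finset.sum_const, Finset.card_univ, Fintype.card_fin, nsmul_eq_mul] :
              ∑ _l : Fin d, |K₁| / ek j = d * (|K₁| / ek j)))
          refine (norm_le_pi_norm _ k).trans ((hL.bd l j z hz ζ hζ).trans ?_)
          exact div_le_div_of_nonneg_right (le_abs_self _) hj.le
        split_ifs at h1 ⊢ with hc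
        · calc |deriv (th (ek j)) (δ ζ)| * ‖∑ l, Λ l j z ζ k‖
              ≤ (K₀ / ek j) * (d * (|K₁| / ek j)) :=
                mul_le_mul h1 h2 (norm_nonneg _) (by positivity)
            _ = K₀ * (d * |K₁|) / (ek j) ^ 2 := by field_simp
            _ ≤ K₀ * (d * |K₁|) / (δ ζ) ^ 2 := by
                refine div_le_div_of_nonneg_left hB0 (by positivity) ?_
                exact pow_le_pow_left₀ hs.le hc.2 2
        · have h3 : |deriv (th (ek j)) (δ ζ)| = 0 := le_antisymm h1 (abs_nonneg _)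
          rw [h3, zero_mul]
      refine (norm_sum_le _ _).trans ((Finset.sum_le_sum hterm).trans ?_)
      rw [← Finset.sum_filter, Finset.sum_const, nsmul_eq_mul]
      have hcard : ((Finset.range J).filter fun j => ek j / 2 ≤ δ ζ ∧ δ ζ ≤ ek j).card ≤ 2 := by
        set F := (Finset.range J).filter fun j => ek j / 2 ≤ δ ζ ∧ δ ζ ≤ ek j with hF
        rcases F.eq_empty_or_nonempty with h0 | h0
        · rw [h0]; simp
        · have hsub : F ⊆ {F.min' h0, F.min' h0 + 1} := by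
            intro j hj
            have h1 := F.min'_le j hj
            have h2 := (Finset.mem_filter.mp (F.min'_mem h0)).2.1
            have h3 := (Finset.mem_filter.mp hj).2.2
            by_contra h4
            simp only [Finset.mem_insert, Finset.mem_singleton, not_or] at h4
            have h5 : F.min' h0 + 2 ≤ j := by omega
            have h6 := ek_anti h5
            have h7 : ek (F.min' h0 + 2) = ek (F.min' h0) / 2 / 2 := by
              rw [show F.min' h0 + 2 = (F.min' h0 + 1) + 1 by ring, ek_succ, ek_succ]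
            have h8 := ek_pos (F.min' h0)
            linarith
          exact (Finset.card_le_card hsub).trans Finset.card_le_two
      have hcard' : (((Finset.range J).filter fun j => ek j / 2 ≤ δ ζ ∧ δ ζ ≤ ek j).card : ℝ) ≤
          2 := by exact_mod_cast hcard
      calc _ ≤ 2 * (K₀ * (d * |K₁|) / (δ ζ) ^ 2) :=
            mul_le_mul_of_nonneg_right hcard' (by positivity)
        _ = _ := by ring
  have h1 : 1 ≤ 2 * (t / δ ζ) := by
    rw [← mul_div_assoc, le_div_iff₀ hs]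
    linarith
  calc δ ζ * t * ‖Rv' P δ Λ J κ κ' z ζ‖
      ≤ δ ζ * t * (Kr * t / (δ ζ) ^ 3 + 2 * (K₀ * (d * |K₁|)) / (δ ζ) ^ 2) :=
        mul_le_mul_of_nonneg_left hR (by positivity)
    _ = Kr * (t / δ ζ) ^ 2 + 2 * (K₀ * (d * |K₁|)) * (t / δ ζ) := by
        field_simp
    _ ≤ Kr * (t / δ ζ) ^ 2 + 2 * (K₀ * (d * |K₁|)) * (2 * (t / δ ζ) * (t / δ ζ)) := by
        have h2 : t / δ ζ ≤ 2 * (t / δ ζ) * (t / δ ζ) :=
          le_mul_of_one_le_left (by positivity) h1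
        have h3 := mul_le_mul_of_nonneg_left h2
          (by positivity : 0 ≤ 2 * (K₀ * (d * |K₁|)))
        linarith
    _ = (Kr + 4 * (K₀ * (d * |K₁|))) * (t / δ ζ) ^ 2 := by ring

end Pool.Agent.MPca0fc2.GW
end
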