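import Pool.Agent.Lib.MP_ca0fc2_an.Mg.G001
import Pool.Agent.Lib.MP_ca0fc2_an.Mg.G025
import Pool.Agent.Lib.MP_ca0fc2_an.GW.V4b

section

/-! Holomorphic functions on convex domains: Hefer functions, the tangential derivative of functions with positive
real part. -/

set_option autoImplicit false

open Metric Set MeasureTheory Filter Topology

namespace Pool.Agent.MPca0fc2.GW

open Pool.Agent.MPca0fc2.FD

variable {n : ℕ}

private theorem M3b_taylor {U : Set (Ec n)} (hU : IsOpen U) (hc : Convex ℝ U) {V : Ec n → ℂ}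
    {A : ℝ} (hV : DifferentiableOn ℂ V U)
    (hL : ∀ z ∈ U, ∀ ζ ∈ U, ‖fderiv ℂ V z - fderiv ℂ V ζ‖ ≤ A * ‖z - ζ‖) (hA : 0 ≤ A)
    {z y : Ec n} (hz : z ∈ U) (hy : y ∈ U) :
    ‖V y - V z - fderiv ℂ V z (y - z)‖ ≤ A * ‖y - z‖ ^ 2 := by
  have hs : Convex ℝ (U ∩ closedBall z ‖y - z‖) := hc.inter (convex_closedBall _ _)
  have h1 := hs.norm_image_sub_le_of_norm_hasFDerivWithin_le' (𝕜 := ℂ) (f := V)
    (f' := fderiv ℂ V) (φ := fderiv ℂ V z) (C := A * ‖y - z‖) (x := z) (y := y)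
    (fun w hw => ((hV.differentiableAt (hU.mem_nhds hw.1)).hasFDerivAt).hasFDerivWithinAt)
    (fun w hw => by
      refine (hL w hw.1 z hz).trans ?_
      have h2 := hw.2
      rw [mem_closedBall, dist_eq_norm] at h2
      exact mul_le_mul_of_nonneg_left h2 hA)
    ⟨hz, mem_closedBall_self (norm_nonneg _)⟩ ⟨hy, by rw [mem_closedBall, dist_eq_norm]⟩
  refine h1.trans (le_of_eq ?_)
  ring

private theorem M3b_step {U : Set (Ec n)} {δ : Ec n → ℝ} {h : Ec n → Ec n → Fin n → ℂ}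
    {c C K₁ K₂ : ℝ} (hD : CD U δ h c C) (hK₁ : 0 < K₁) (hK₂ : K₂ = K₁ / c + 1)
    (hT : ∀ z ∈ Om U δ, ∀ Y : Ec n, ‖Y‖ < c / 2 →
      z + Y ∈ U ∧ |δ (z + Y) - δ z + 2 * (∑ k, h z z k * Y k).re| ≤ K₁ * ‖Y‖ ^ 2)
    {V : Ec n → ℂ} {A : ℝ} (hA : 0 < A) (hV : DifferentiableOn ℂ V U)
    (hb : ∀ z ∈ U, ‖fderiv ℂ V z‖ ≤ A)
    (hL : ∀ z ∈ U, ∀ ζ ∈ U, ‖fderiv ℂ V z - fderiv ℂ V ζ‖ ≤ A * ‖z - ζ‖)
    (hpos : ∀ z ∈ Om U δ, 0 < (V z).re) {z : Ec n} (hz : z ∈ Om U δ) {X : Ec n} (hX : ‖X‖ ≤ 1)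
    (hS : ∑ k, h z z k * X k = 0) {t : ℝ} (ht : |t| ≤ c / (4 * (1 + K₂))) :
    0 ≤ (V z).re + t * (fderiv ℂ V z X).re +
      (K₂ * A * C + A * (1 + K₂ * C) ^ 2) * t ^ 2 := by
  obtain ⟨hc, hc1, hC⟩ := hD.pos
  have hC0 : 0 < C := by linarith
  have hK₂0 : 1 ≤ K₂ := by
    rw [hK₂]
    have : 0 < K₁ / c := by positivity
    linarith
  have hK₂c : K₂ * c = K₁ + c := by
    rw [hK₂]
    field_simp
  have h4 : 0 < 4 * (1 + K₂) := by positivity
  have ht1 : |t| * (4 * (1 + K₂)) ≤ c := by rwa [le_div_iff₀ h4] at ht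
  have ht0 := abs_nonneg t
  have ht2 : |t| ≤ c / 8 := by nlinarith
  have ht3 : |t| ≤ 1 := by linarith
  have hsq : |t| ^ 2 = t ^ 2 := sq_abs t
  set s : ℝ := K₂ * t ^ 2 with hs
  have hs0 : 0 ≤ s := by positivity
  have hs1 : s < 1 := by
    rw [hs, ← hsq]
    nlinarith
  set Y : Ec n := (t : ℂ) • X with hY
  have hYn : ‖Y‖ ≤ |t| := by
    rw [hY, norm_smul, Complex.norm_real, Real.norm_eq_abs]
    exact mul_le_of_le_one_right ht0 hX
  have hYS : ∑ k, h z z k * Y k = 0 := by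
    have e : ∑ k, h z z k * Y k = (t : ℂ) * ∑ k, h z z k * X k := by
      rw [Finset.mul_sum]
      refine Finset.sum_congr rfl fun k _ => ?_
      rw [hY, PiLp.smul_apply, smul_eq_mul]
      ring
    rw [e, hS, mul_zero]
  obtain ⟨hzY, hδ⟩ := hT z hz Y (by linarith)
  rw [hYS, Complex.zero_re, mul_zero, add_zero] at hδ
  have hδ1 := (abs_le.1 hδ).1
  have hY2 : ‖Y‖ ^ 2 ≤ t ^ 2 := by
    rw [← hsq]
    exact pow_le_pow_left₀ (norm_nonneg _) hYn 2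
  have hY3 : K₁ * ‖Y‖ ^ 2 ≤ K₁ * t ^ 2 := mul_le_mul_of_nonneg_left hY2 hK₁.le
  have hyU := dil_U hD hzY hs0 hs1.le
  have hyc := dil_conc hD hzY hs0 hs1.le
  have hδz := hz.2
  have hyδ : 0 < δ (dil s (z + Y)) := by
    refine lt_of_lt_of_le ?_ hyc
    have h1 : (1 - s) * (δ z - K₁ * t ^ 2) ≤ (1 - s) * δ (z + Y) :=
      mul_le_mul_of_nonneg_left (by linarith) (by linarith)
    have h2 : 0 < (1 - s) * δ z := mul_pos (by linarith) hδz
    have h3 : s * c = K₁ * t ^ 2 + c * t ^ 2 := by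
      rw [hs]
      calc K₂ * t ^ 2 * c = (K₂ * c) * t ^ 2 := by ring
        _ = K₁ * t ^ 2 + c * t ^ 2 := by rw [hK₂c]; ring
    have h5 : 0 ≤ s * (K₁ * t ^ 2) := by positivity
    have h6 : 0 ≤ c * t ^ 2 := by positivity
    nlinarith
  have hyO : dil s (z + Y) ∈ Om U δ := ⟨hyU, hyδ⟩
  have hVy := hpos _ hyO
  set y := dil s (z + Y) with hy
  have hyz : y - z = Y - (s : ℂ) • (z + Y) := by
    have e := dil_sub s (z + Y)
    rw [← hy] at e
    calc y - z = (y - (z + Y)) + Y := by abel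
      _ = Y - (s : ℂ) • (z + Y) := by rw [e]; abel
  have hzYn : ‖z + Y‖ ≤ C := hD.geo.bz _ hzY
  have hsn : ‖(s : ℂ) • (z + Y)‖ ≤ s * C := by
    rw [norm_smul, Complex.norm_real, Real.norm_eq_abs, abs_of_nonneg hs0]
    exact mul_le_mul_of_nonneg_left hzYn hs0
  have hyn : ‖y - z‖ ≤ (1 + K₂ * C) * |t| := by
    rw [hyz]
    refine (norm_sub_le _ _).trans ?_
    have h1 : s * C ≤ K₂ * C * |t| := by
      rw [hs, ← hsq]
      have h2 : |t| ^ 2 ≤ |t| := by nlinarith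
      have h3 := mul_le_mul_of_nonneg_left h2 (show 0 ≤ K₂ * C by positivity)
      calc K₂ * |t| ^ 2 * C = K₂ * C * |t| ^ 2 := by ring
        _ ≤ K₂ * C * |t| := h3
    linarith
  have hyn2 : ‖y - z‖ ^ 2 ≤ (1 + K₂ * C) ^ 2 * t ^ 2 := by
    have h1 := pow_le_pow_left₀ (norm_nonneg _) hyn 2
    rwa [mul_pow, hsq] at h1
  have hta := M3b_taylor hD.geo.opn hD.cvx hV hL hA.le hz.1 hyU
  have hre : (V y - V z - fderiv ℂ V z (y - z)).re ≤ A * ((1 + K₂ * C) ^ 2 * t ^ 2) := by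
    refine ((le_abs_self _).trans (Complex.abs_re_le_norm _)).trans (hta.trans ?_)
    exact mul_le_mul_of_nonneg_left hyn2 hA.le
  have hlin : fderiv ℂ V z (y - z) =
      (t : ℂ) * fderiv ℂ V z X - fderiv ℂ V z ((s : ℂ) • (z + Y)) := by
    rw [hyz, map_sub, hY, map_smul, smul_eq_mul]
  have hsl : -(fderiv ℂ V z ((s : ℂ) • (z + Y))).re ≤ K₂ * A * C * t ^ 2 := by
    refine (neg_le_abs _).trans ((Complex.abs_re_le_norm _).trans ?_)
    refine (ContinuousLinearMap.le_opNorm _ _).trans ?_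
    have h1 := mul_le_mul (hb z hz.1) hsn (norm_nonneg _) hA.le
    refine h1.trans (le_of_eq ?_)
    rw [hs]
    ring
  rw [Complex.sub_re, Complex.sub_re, hlin, Complex.sub_re, Complex.re_ofReal_mul] at hre
  nlinarith

private theorem M3b_tan {U : Set (Ec n)} {δ : Ec n → ℝ} {h : Ec n → Ec n → Fin n → ℂ}
    {c C K₁ K₂ : ℝ} (hD : CD U δ h c C) (hK₁ : 0 < K₁) (hK₂ : K₂ = K₁ / c + 1)
    (hT : ∀ z ∈ Om U δ, ∀ Y : Ec n, ‖Y‖ < c / 2 →
      z + Y ∈ U ∧ |δ (z + Y) - δ z + 2 * (∑ k, h z z k * Y k).re| ≤ K₁ * ‖Y‖ ^ 2)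
    {V : Ec n → ℂ} {A : ℝ} (hA : 0 < A) (hV : DifferentiableOn ℂ V U)
    (hb : ∀ z ∈ U, ‖fderiv ℂ V z‖ ≤ A)
    (hL : ∀ z ∈ U, ∀ ζ ∈ U, ‖fderiv ℂ V z - fderiv ℂ V ζ‖ ≤ A * ‖z - ζ‖)
    (hpos : ∀ z ∈ Om U δ, 0 < (V z).re) {z : Ec n} (hz : z ∈ Om U δ)
    (hτ : Real.sqrt (V z).re ≤ c / (4 * (1 + K₂))) {X : Ec n} (hX : ‖X‖ ≤ 1)
    (hS : ∑ k, h z z k * X k = 0) :
    |(fderiv ℂ V z X).re| ≤
      (1 + (K₂ * A * C + A * (1 + K₂ * C) ^ 2)) * Real.sqrt (V z).re := by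
  set K₄ := K₂ * A * C + A * (1 + K₂ * C) ^ 2 with hK₄
  have hVz := hpos z hz
  set τ := Real.sqrt (V z).re with hτd
  have hτ0 : 0 < τ := Real.sqrt_pos.2 hVz
  have hτ2 : τ ^ 2 = (V z).re := Real.sq_sqrt hVz.le
  have s1 := M3b_step hD hK₁ hK₂ hT hA hV hb hL hpos hz hX hS (t := τ)
    (by rwa [abs_of_pos hτ0])
  have s2 := M3b_step hD hK₁ hK₂ hT hA hV hb hL hpos hz hX hS (t := -τ)
    (by rwa [abs_neg, abs_of_pos hτ0])
  rw [← hK₄, ← hτ2] at s1 s2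
  rw [abs_le]
  constructor
  · refine le_of_mul_le_mul_left ?_ hτ0
    nlinarith
  · refine le_of_mul_le_mul_left ?_ hτ0
    nlinarith

private theorem M3b_tan2 {U : Set (Ec n)} {δ : Ec n → ℝ} {h : Ec n → Ec n → Fin n → ℂ}
    {c C K₁ K₂ : ℝ} (hD : CD U δ h c C) (hK₁ : 0 < K₁) (hK₂ : K₂ = K₁ / c + 1)
    (hT : ∀ z ∈ Om U δ, ∀ Y : Ec n, ‖Y‖ < c / 2 →
      z + Y ∈ U ∧ |δ (z + Y) - δ z + 2 * (∑ k, h z z k * Y k).re| ≤ K₁ * ‖Y‖ ^ 2)
    {V : Ec n → ℂ} {A : ℝ} (hA : 0 < A) (hV : DifferentiableOn ℂ V U)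
    (hb : ∀ z ∈ U, ‖fderiv ℂ V z‖ ≤ A)
    (hL : ∀ z ∈ U, ∀ ζ ∈ U, ‖fderiv ℂ V z - fderiv ℂ V ζ‖ ≤ A * ‖z - ζ‖)
    (hpos : ∀ z ∈ Om U δ, 0 < (V z).re) {z : Ec n} (hz : z ∈ Om U δ)
    (hτ : Real.sqrt (V z).re ≤ c / (4 * (1 + K₂))) {X : Ec n}
    (hS : ∑ k, h z z k * X k = 0) :
    ‖fderiv ℂ V z X‖ ≤
      2 * (1 + (K₂ * A * C + A * (1 + K₂ * C) ^ 2)) * Real.sqrt (V z).re * ‖X‖ := by
  by_cases hX : X = 0
  · subst hX
    simp
  have hXn : 0 < ‖X‖ := norm_pos_iff.2 hX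
  set K₅ := 1 + (K₂ * A * C + A * (1 + K₂ * C) ^ 2) with hK₅
  set τ := Real.sqrt (V z).re with hτd
  -- the scaled vectors
  have main : ∀ l : ℂ, ‖l‖ = 1 → |(l * fderiv ℂ V z X).re| ≤ K₅ * τ * ‖X‖ := by
    intro l hl
    set X₁ : Ec n := (l * ((‖X‖⁻¹ : ℝ) : ℂ)) • X with hX₁
    have n1 : ‖X₁‖ ≤ 1 := by
      rw [hX₁, norm_smul, norm_mul, hl, one_mul, Complex.norm_real, Real.norm_eq_abs,
        abs_of_pos (inv_pos.2 hXn), inv_mul_cancel₀ hXn.ne']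
    have e1 : ∑ k, h z z k * X₁ k = 0 := by
      have e : ∑ k, h z z k * X₁ k = (l * ((‖X‖⁻¹ : ℝ) : ℂ)) * ∑ k, h z z k * X k := by
        rw [Finset.mul_sum]
        refine Finset.sum_congr rfl fun k _ => ?_
        rw [hX₁, PiLp.smul_apply, smul_eq_mul]
        ring
      rw [e, hS, mul_zero]
    have h1 := M3b_tan hD hK₁ hK₂ hT hA hV hb hL hpos hz hτ n1 e1
    rw [← hK₅, ← hτd] at h1
    have e2 : (fderiv ℂ V z X₁).re = ‖X‖⁻¹ * (l * fderiv ℂ V z X).re := by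
      rw [hX₁, map_smul, smul_eq_mul]
      have : l * ((‖X‖⁻¹ : ℝ) : ℂ) * fderiv ℂ V z X =
          ((‖X‖⁻¹ : ℝ) : ℂ) * (l * fderiv ℂ V z X) := by ring
      rw [this, Complex.re_ofReal_mul]
    rw [e2, abs_mul, abs_of_pos (inv_pos.2 hXn), inv_mul_le_iff₀ hXn] at h1
    linarith
  have m1 := main 1 norm_one
  have m2 := main Complex.I Complex.norm_I
  rw [one_mul] at m1
  have e3 : (Complex.I * fderiv ℂ V z X).re = -(fderiv ℂ V z X).im := by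
    simp [Complex.mul_re]
  rw [e3, abs_neg] at m2
  refine (Complex.norm_le_abs_re_add_abs_im _).trans ?_
  linarith

/-- The tangential derivative of a function with positive real part.
PROOF. First let `∑ h z z k * X k = 0`, `‖X‖ ≤ 1`. There are constants `K, t₀ > 0` such that `y(t) = (1 - K t²) • (z + t • X) ∈ Om U δ` for `|t| ≤ t₀`: `z + t X ∈ U` (`Geo.nb` for `δ + c/2`), `δ (z + t X) ≥ δ z - K₁ t²` (`δ_taylor` for the geometry `δ + c / 4`, `CD.lev`), and by concavity (`dil_conc` with `s = K t²`)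
`δ (y t) ≥ (1 - K t²) δ (z + t X) + K t² c > 0` for `K = 2 K₁ / c + 1`. `Re V (y t) ≥ 0` gives `0 ≤ Re V z + t Re (dV(z) X) + K₂ t²` (Taylor, `Vl`; `‖y t - z - t X‖ ≤ K' t²`) for all `|t| ≤ t₀`. If `√(Re V z) ≤ t₀` take `t = ± √(Re V z)`: `|Re dV(z) X| ≤ (1 + K₂) √(Re V z)`. Otherwise `|dV X| ≤ A ≤ (A / t₀) √(Re V z)`. The same for `i X`.
In general: if `δ z ≥ c / 2` then `Re V z ≥ c / (2 A)` and `‖dV X‖ ≤ A ‖X‖` is enough. If `δ z < c / 2`: `c ≤ ‖h z z‖` (`Geo.nd` for `δ + c / 2`; use `CD.lev` with `t = 0` if necessary, constant `c / 2`), decompose `X = X' + X''` with `X'' = (∑ h z z k X k / ‖nv h z‖²) • nv h z` (`nv_prop` in `FD/Q1.lean`), so that `∑ h z z k X' k = 0` and `‖X''‖ ≤ K |hX|`. -/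
theorem tan_pos (n : ℕ) (c C A : ℝ) : ∃ K : ℝ, 1 ≤ K ∧ ∀ (U : Set (Ec n)) (δ : Ec n → ℝ)
    (h : Ec n → Ec n → Fin n → ℂ), CD U δ h c C → ∀ V : Ec n → ℂ, DifferentiableOn ℂ V U →
    (∀ z ∈ U, ‖fderiv ℂ V z‖ ≤ A) →
    (∀ z ∈ U, ∀ ζ ∈ U, ‖fderiv ℂ V z - fderiv ℂ V ζ‖ ≤ A * ‖z - ζ‖) →
    (∀ z ∈ Om U δ, δ z ≤ A * (V z).re) → ∀ z ∈ Om U δ, ∀ X : Ec n,
    ‖fderiv ℂ V z X‖ ≤ K * (‖∑ k, h z z k * X k‖ + Real.sqrt ‖V z‖ * ‖X‖) := by
  by_cases hcC : 0 < c ∧ 1 ≤ C ∧ 0 < A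
  swap
  · refine ⟨1, le_refl _, fun U δ h hD V hV hb hL hA z hz X => ?_⟩
    exfalso
    refine hcC ⟨hD.pos.1, hD.pos.2.2, ?_⟩
    have h1 := hA z hz
    have h2 := hz.2
    have h3 : 0 ≤ A := (norm_nonneg _).trans (hb z hz.1)
    rcases h3.lt_or_eq with h4 | h4
    · exact h4
    · rw [← h4, zero_mul] at h1
      linarith
  obtain ⟨hc, hC, hA0⟩ := hcC
  have hC0 : 0 < C := by linarith
  obtain ⟨K₁, hK₁, hT⟩ := δ_taylor n (c / 2) C
  obtain ⟨K₂, hK₂⟩ : ∃ K₂ : ℝ, K₂ = K₁ / c + 1 := ⟨_, rfl⟩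
  have hK₂0 : 0 < K₂ := by
    rw [hK₂]
    positivity
  have ht₀ : 0 < c / (4 * (1 + K₂)) := by positivity
  set t₀ := c / (4 * (1 + K₂)) with ht₀d
  set K₅ := 1 + (K₂ * A * C + A * (1 + K₂ * C) ^ 2) with hK₅
  have hK₅0 : 0 < K₅ := by positivity
  have hr : 0 < Real.sqrt (c / (2 * A)) := Real.sqrt_pos.2 (by positivity)
  refine ⟨1 + A / t₀ + A / Real.sqrt (c / (2 * A)) + 2 * K₅ + 4 * K₅ / c + 2 * A / c, ?_,
    fun U δ h hD V hV hb hL hA z hz X => ?_⟩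
  · have h1 : 0 ≤ A / t₀ + A / Real.sqrt (c / (2 * A)) + 2 * K₅ + 4 * K₅ / c + 2 * A / c := by
      positivity
    linarith
  have hg0 := hD.geo0
  have hpos : ∀ w ∈ Om U δ, 0 < (V w).re := fun w hw => by
    have h1 := hA w hw
    have h2 := hw.2
    by_contra hcon
    push Not at hcon
    nlinarith
  have hVz := hpos z hz
  set S := ‖∑ k, h z z k * X k‖ with hSd
  have hS0 : 0 ≤ S := norm_nonneg _
  set τ := Real.sqrt (V z).re with hτd
  have hτ0 : 0 < τ := Real.sqrt_pos.2 hVz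
  have hτV : τ ≤ Real.sqrt ‖V z‖ :=
    Real.sqrt_le_sqrt ((le_abs_self _).trans (Complex.abs_re_le_norm _))
  have hXn := norm_nonneg X
  have hdX : ‖fderiv ℂ V z X‖ ≤ A * ‖X‖ :=
    (ContinuousLinearMap.le_opNorm _ _).trans (mul_le_mul_of_nonneg_right (hb z hz.1) hXn)
  -- it is enough to prove the estimate with `τ`
  suffices hsuf : ‖fderiv ℂ V z X‖ ≤
      (1 + A / t₀ + A / Real.sqrt (c / (2 * A)) + 2 * K₅ + 4 * K₅ / c + 2 * A / c) *
        (S + τ * ‖X‖) by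
    refine hsuf.trans ?_
    refine mul_le_mul_of_nonneg_left ?_ (by positivity)
    have := mul_le_mul_of_nonneg_right hτV hXn
    linarith
  have p1 : 0 ≤ A / t₀ := by positivity
  have p2 : 0 ≤ A / Real.sqrt (c / (2 * A)) := by positivity
  have p3 : 0 ≤ 4 * K₅ / c := by positivity
  have p4 : 0 ≤ 2 * A / c := by positivity
  have p5 : 0 ≤ τ * ‖X‖ := by positivity
  have fin1 : ∀ B : ℝ, B ≤ 1 + A / t₀ + A / Real.sqrt (c / (2 * A)) + 2 * K₅ + 4 * K₅ / c +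
      2 * A / c → ‖fderiv ℂ V z X‖ ≤ B * (τ * ‖X‖) → ‖fderiv ℂ V z X‖ ≤
      (1 + A / t₀ + A / Real.sqrt (c / (2 * A)) + 2 * K₅ + 4 * K₅ / c + 2 * A / c) *
        (S + τ * ‖X‖) := by
    intro B hB hx
    refine hx.trans ?_
    have q1 := mul_le_mul_of_nonneg_right hB p5
    refine q1.trans ?_
    refine mul_le_mul_of_nonneg_left ?_ (by positivity)
    linarith
  rcases lt_or_ge t₀ τ with hlt | hle
  · refine fin1 (A / t₀) (by linarith) (hdX.trans ?_)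
    have e : A * ‖X‖ = A / t₀ * (t₀ * ‖X‖) := by field_simp
    rw [e]
    exact mul_le_mul_of_nonneg_left (mul_le_mul_of_nonneg_right hlt.le hXn) p1
  rcases lt_or_ge (δ z) (c / 2) with hlt2 | hge2
  · have hnd : c / 2 ≤ ‖h z z‖ := hg0.nd z hz.1 hz.2 hlt2
    obtain ⟨e1, e2, -⟩ := nv_prop h z
    set N := nv h z with hN
    have hN0 : 0 < ‖N‖ := by linarith
    have hNc : c / 2 ≤ ‖N‖ := hnd.trans e2
    have hNc0 : (((‖N‖ ^ 2 : ℝ)) : ℂ) ≠ 0 := by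
      rw [Ne, Complex.ofReal_eq_zero]
      positivity
    set X₂ : Ec n := ((∑ k, h z z k * X k) / ((‖N‖ ^ 2 : ℝ) : ℂ)) • N with hX₂
    have hn2 : ‖X₂‖ ≤ 2 / c * S := by
      rw [hX₂, norm_smul, norm_div, Complex.norm_real, Real.norm_eq_abs, abs_of_pos (by positivity),
        ← hSd]
      have e : S / ‖N‖ ^ 2 * ‖N‖ = S / ‖N‖ := by field_simp
      rw [e, div_le_iff₀ hN0]
      have e' : 2 / c * S * (c / 2) = S := by field_simp
      have q1 := mul_le_mul_of_nonneg_left hNc (show 0 ≤ 2 / c * S by positivity)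
      rw [e'] at q1
      exact q1
    have hS2 : ∑ k, h z z k * (X - X₂) k = 0 := by
      have e3 : ∑ k, h z z k * X₂ k = ∑ k, h z z k * X k := by
        have e4 : ∑ k, h z z k * X₂ k =
            ((∑ k, h z z k * X k) / ((‖N‖ ^ 2 : ℝ) : ℂ)) * ∑ k, h z z k * N k := by
          rw [Finset.mul_sum]
          refine Finset.sum_congr rfl fun k _ => ?_
          rw [hX₂, PiLp.smul_apply, smul_eq_mul]
          ring
        rw [e4, e1, div_mul_cancel₀ _ hNc0]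
      have e5 : ∑ k, h z z k * (X - X₂) k = ∑ k, h z z k * X k - ∑ k, h z z k * X₂ k := by
        rw [← Finset.sum_sub_distrib]
        refine Finset.sum_congr rfl fun k _ => ?_
        rw [PiLp.sub_apply]
        ring
      rw [e5, e3, sub_self]
    have h1 := M3b_tan2 hD hK₁ hK₂ (hT U δ h hg0) hA0 hV hb hL hpos hz hle hS2
    rw [← hK₅, ← hτd] at h1
    have h2 : ‖fderiv ℂ V z X₂‖ ≤ A * (2 / c * S) :=
      (ContinuousLinearMap.le_opNorm _ _).trans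
        (mul_le_mul (hb z hz.1) hn2 (norm_nonneg _) hA0.le)
    have h3 : ‖X - X₂‖ ≤ ‖X‖ + 2 / c * S := (norm_sub_le _ _).trans (by linarith)
    have h4 : fderiv ℂ V z X = fderiv ℂ V z (X - X₂) + fderiv ℂ V z X₂ := by
      rw [map_sub, sub_add_cancel]
    have hτ1 : τ ≤ 1 := by
      refine hle.trans ?_
      have hc1 := hD.pos.2.1
      rw [ht₀d, div_le_one (by positivity)]
      linarith
    rw [h4]
    refine (norm_add_le _ _).trans ?_
    have h5 : 2 * K₅ * τ * ‖X - X₂‖ ≤ 2 * K₅ * τ * (‖X‖ + 2 / c * S) :=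
      mul_le_mul_of_nonneg_left h3 (by positivity)
    have h6 : 2 * K₅ * τ * (2 / c * S) ≤ 4 * K₅ / c * S := by
      have e : 4 * K₅ / c * S = 2 * K₅ * 1 * (2 / c * S) := by ring
      rw [e]
      refine mul_le_mul_of_nonneg_right ?_ (by positivity)
      exact mul_le_mul_of_nonneg_left hτ1 (by positivity)
    have h7 : A * (2 / c * S) = 2 * A / c * S := by field_simp
    rw [h7] at h2
    have h8 : (1 + A / t₀ + A / Real.sqrt (c / (2 * A)) + 2 * K₅ + 4 * K₅ / c + 2 * A / c) *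
        (S + τ * ‖X‖) = 2 * K₅ * (τ * ‖X‖) + 4 * K₅ / c * S + 2 * A / c * S +
        ((1 + A / t₀ + A / Real.sqrt (c / (2 * A)) + 2 * K₅) * S +
        (1 + A / t₀ + A / Real.sqrt (c / (2 * A)) + 4 * K₅ / c + 2 * A / c) * (τ * ‖X‖)) := by
      ring
    have h9 : 0 ≤ (1 + A / t₀ + A / Real.sqrt (c / (2 * A)) + 2 * K₅) * S +
        (1 + A / t₀ + A / Real.sqrt (c / (2 * A)) + 4 * K₅ / c + 2 * A / c) * (τ * ‖X‖) := by
      positivity
    rw [h8]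
    nlinarith
  · refine fin1 (A / Real.sqrt (c / (2 * A))) (by linarith) (hdX.trans ?_)
    have h1 : c / (2 * A) ≤ (V z).re := by
      rw [div_le_iff₀ (by positivity)]
      have := hA z hz
      linarith
    have h2 : Real.sqrt (c / (2 * A)) ≤ τ := Real.sqrt_le_sqrt h1
    have e : A * ‖X‖ = A / Real.sqrt (c / (2 * A)) * (Real.sqrt (c / (2 * A)) * ‖X‖) := by
      field_simp
    rw [e]
    exact mul_le_mul_of_nonneg_left (mul_le_mul_of_nonneg_right h2 hXn) p2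

end Pool.Agent.MPca0fc2.GW
end

section

/-! The density `GG`. -/

set_option autoImplicit false

open Metric Set MeasureTheory Filter Topology

namespace Pool.Agent.MPca0fc2.GW

open Pool.Agent.MPca0fc2.FD

variable {n d : ℕ} {U : Set (Ec n)} {δ : Ec n → ℝ} {h : Ec n → Ec n → Fin n → ℂ} {P : PS n}
  {s : ℕ → ℝ} {u : Fin d → Ec n → ℂ} {b : Fin d → ℕ → Ec n → ℂ} {c C A M ρ K : ℝ}

private theorem S1b_gau {δ₁ δ₂ : Ec n → ℝ} {h : Ec n → Ec n → Fin n → ℂ} {w : Ec n}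
    (h1 : 0 < δ₁ w) (h2 : 0 < δ₂ w) (h12 : δ₂ w ≤ 2 * δ₁ w) (X : Ec n) :
    gau δ₁ h w X ≤ 2 * gau δ₂ h w X := by
  unfold gau
  have e1 : ‖∑ k, h w w k * X k‖ / δ₁ w ≤ 2 * (‖∑ k, h w w k * X k‖ / δ₂ w) := by
    rw [← mul_div_assoc, div_le_div_iff₀ h1 h2]
    nlinarith [norm_nonneg (∑ k, h w w k * X k)]
  have e2 : ‖X‖ / Real.sqrt (δ₁ w) ≤ 2 * (‖X‖ / Real.sqrt (δ₂ w)) := by
    have s1 : 0 < Real.sqrt (δ₁ w) := Real.sqrt_pos.2 h1
    have s2 : 0 < Real.sqrt (δ₂ w) := Real.sqrt_pos.2 h2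
    have s12 : Real.sqrt (δ₂ w) ≤ 2 * Real.sqrt (δ₁ w) := by
      rw [Real.sqrt_le_left (by positivity), mul_pow, Real.sq_sqrt h1.le]
      linarith
    rw [← mul_div_assoc, div_le_div_iff₀ s1 s2]
    nlinarith [norm_nonneg X]
  linarith

/-- The jumps at two points.
PROOF. `path_cmp` with `f = b l (j+1) - b l j`, `S = SS j`: the gradient bound: `BL.grad` for `j` and `j + 1`, `(dk (j+1) / ek (j+1))^(1/32) ≤ 2 (dk j / ek j)^(1/32)`, `SS (j+1) ≤ K SS j` (`SS_next`), `gau (dk (j+1)) ≤ K gau (dk j)`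
(`dk j ≤ 3 dk (j+1)`, on `Om U δ`); `SS_har0`. Sum over `l`. -/
theorem Jv_cmp (n d : ℕ) (c C A M K : ℝ) (hc : 0 < c) : ∃ K' : ℝ, 1 ≤ K' ∧ ∀ (U : Set (Ec n))
    (δ : Ec n → ℝ) (h : Ec n → Ec n → Fin n → ℂ) (P : PS n) (s : ℕ → ℝ) (u : Fin d → Ec n → ℂ)
    (b : Fin d → ℕ → Ec n → ℂ) (ρ : ℝ), DT U δ h P s u b c C A M ρ K → ∀ (j : ℕ),
    ∀ z ∈ Om U δ, ∀ ζ ∈ Om U δ, Jv b j ζ ≤ Jv b j z +
      K' * (‖vv δ h z ζ‖ / δ ζ) ^ 3 * (max 1 (δ ζ / ek j)) ^ (5 / 16 : ℝ) * SS P s δ c j z := by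
  obtain ⟨K1, hK1, hnext⟩ := SS_next n c C A
  obtain ⟨K2, hK2, hle⟩ := SS_le n c C A
  obtain ⟨K3, hK3, hhar⟩ := SS_har0 n c C A
  obtain ⟨K4, hK4, hpath⟩ := path_cmp n c C (max K3 (max K 0 * (4 * K1 + 1))) hc
  refine ⟨max 1 (d * K4), le_max_left _ _, ?_⟩
  intro U δ h P s u b ρ hT j z hz ζ hζ
  have hD := hT.cd
  have hsub : ∀ k, Om U δ ⊆ Dk U δ c k := fun k => Om_sub_Dk hD k
  have hS0 : ∀ k, ∀ w ∈ Om U δ, 0 ≤ SS P s δ c k w := fun k w hw =>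
    (hle U δ h P s hD hT.pa hT.sl k w (hsub k hw)).1
  have hdkpos : ∀ k, ∀ w ∈ Om U δ, 0 < dk δ c k w := by
    intro k w hw
    have h1 := hw.2
    have h2 := ek_pos k
    unfold dk
    positivity
  have hcd : ∀ l k, ∀ w ∈ Om U δ, DifferentiableAt ℝ (b l k) w := by
    intro l k w hw
    exact (((hT.bl l).c2 k).contDiffAt ((Dk_open hD k).mem_nhds (hsub k hw))).differentiableAt
      (by norm_num)
  have hKm : 0 ≤ max K 0 := le_max_right _ _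
  have hone : ∀ l, ‖(fun w => b l (j + 1) w - b l j w) ζ - (fun w => b l (j + 1) w - b l j w) z‖ ≤
      K4 * (‖vv δ h z ζ‖ / δ ζ) ^ 3 * (max 1 (δ ζ / ek j)) ^ (5 / 16 : ℝ) * SS P s δ c j z := by
    intro l
    refine hpath U δ h hD j (fun w => b l (j + 1) w - b l j w) (SS P s δ c j) ?_ (hS0 j) ?_ ?_ z hz
      ζ hζ
    · intro w hw
      exact ((hcd l (j + 1) w hw).sub (hcd l j w hw)).differentiableWithinAt
    · intro z hz ζ hζ
      refine (hhar U δ h P s hD hT.pa hT.sl j z hz ζ hζ).trans ?_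
      have h1 : 0 ≤ (‖vv δ h z ζ‖ / δ ζ) ^ (9 / 4 : ℝ) :=
        Real.rpow_nonneg (div_nonneg (norm_nonneg _) hζ.2.le) _
      have h2 : 0 ≤ (max 1 (dk δ c j ζ / dk δ c j z)) ^ (1 / 4 : ℝ) :=
        Real.rpow_nonneg (le_trans zero_le_one (le_max_left _ _)) _
      exact mul_le_mul_of_nonneg_right (mul_le_mul_of_nonneg_right (mul_le_mul_of_nonneg_right
        (le_max_left _ _) h1) h2) (hS0 j z hz)
    · intro w hw X
      have e0 := ek_pos j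
      have e1 : ek (j + 1) = ek j / 2 := ek_succ j
      have d0 := hdkpos j w hw
      have d1 := hdkpos (j + 1) w hw
      have d01 : dk δ c (j + 1) w ≤ dk δ c j w := dk_anti hD (Nat.le_succ j) w
      have d10 : dk δ c j w ≤ 2 * dk δ c (j + 1) w := by
        have h1 := hw.2
        unfold dk
        rw [e1]
        linarith
      have hg := S1b_gau (h := h) d1 d0 d10 X
      have g0 : 0 ≤ gau (dk δ c j) h w X := gau_nonneg d0 X
      have g1 : 0 ≤ gau (dk δ c (j + 1)) h w X := gau_nonneg d1 X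
      have hfd : fderiv ℝ (fun w => b l (j + 1) w - b l j w) w X =
          fderiv ℝ (b l (j + 1)) w X - fderiv ℝ (b l j) w X := by
        have h3 : fderiv ℝ (fun w => b l (j + 1) w - b l j w) w =
            fderiv ℝ (b l (j + 1)) w - fderiv ℝ (b l j) w :=
          fderiv_fun_sub (hcd l (j + 1) w hw) (hcd l j w hw)
        rw [h3]
        rfl
      rw [hfd]
      refine (norm_sub_le _ _).trans ?_
      have b1 := (hT.bl l).grad (j + 1) w (hsub (j + 1) hw) X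
      have b0 := (hT.bl l).grad j w (hsub j hw) X
      have r0 : 0 ≤ (dk δ c j w / ek j) ^ (1 / 32 : ℝ) := Real.rpow_nonneg (by positivity) _
      have r1 : (dk δ c (j + 1) w / ek (j + 1)) ^ (1 / 32 : ℝ) ≤
          2 * (dk δ c j w / ek j) ^ (1 / 32 : ℝ) := by
        have h4 : dk δ c (j + 1) w / ek (j + 1) ≤ 2 * (dk δ c j w / ek j) := by
          rw [e1, div_div_eq_mul_div, ← mul_div_assoc, div_le_div_iff_of_pos_right e0]
          linarith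
        have h5 : (dk δ c (j + 1) w / ek (j + 1)) ^ (1 / 32 : ℝ) ≤
            (2 * (dk δ c j w / ek j)) ^ (1 / 32 : ℝ) :=
          Real.rpow_le_rpow (by rw [e1]; positivity) h4 (by norm_num)
        rw [Real.mul_rpow (by norm_num) (by positivity)] at h5
        refine h5.trans (mul_le_mul_of_nonneg_right ?_ r0)
        calc (2 : ℝ) ^ (1 / 32 : ℝ) ≤ 2 ^ (1 : ℝ) :=
              Real.rpow_le_rpow_of_exponent_le (by norm_num) (by norm_num)
          _ = 2 := Real.rpow_one 2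
      have s1 := (hnext U δ h P s hD hT.pa hT.sl j w (hsub (j + 1) hw)).1
      have s0 := hS0 j w hw
      have s0' := hS0 (j + 1) w hw
      have t1 : ‖fderiv ℝ (b l (j + 1)) w X‖ ≤
          max K 0 * (4 * K1) * (dk δ c j w / ek j) ^ (1 / 32 : ℝ) * SS P s δ c j w *
            gau (dk δ c j) h w X := by
        refine b1.trans ?_
        calc K * (dk δ c (j + 1) w / ek (j + 1)) ^ (1 / 32 : ℝ) * SS P s δ c (j + 1) w *
              gau (dk δ c (j + 1)) h w X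
            ≤ max K 0 * (2 * (dk δ c j w / ek j) ^ (1 / 32 : ℝ)) * (K1 * SS P s δ c j w) *
              (2 * gau (dk δ c j) h w X) := by
              have a0 : 0 ≤ (dk δ c (j + 1) w / ek (j + 1)) ^ (1 / 32 : ℝ) :=
                Real.rpow_nonneg (by rw [e1]; positivity) _
              refine mul_le_mul (mul_le_mul ?_ s1 s0' (by positivity)) hg g1 (by positivity)
              exact mul_le_mul (le_max_left _ _) r1 a0 hKm
          _ = _ := by ring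
      have t0 : ‖fderiv ℝ (b l j) w X‖ ≤
          max K 0 * (dk δ c j w / ek j) ^ (1 / 32 : ℝ) * SS P s δ c j w *
            gau (dk δ c j) h w X := by
        refine b0.trans ?_
        exact mul_le_mul_of_nonneg_right (mul_le_mul_of_nonneg_right
          (mul_le_mul_of_nonneg_right (le_max_left _ _) r0) s0) g0
      calc ‖fderiv ℝ (b l (j + 1)) w X‖ + ‖fderiv ℝ (b l j) w X‖
          ≤ (max K 0 * (4 * K1 + 1)) * (dk δ c j w / ek j) ^ (1 / 32 : ℝ) * SS P s δ c j w *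
            gau (dk δ c j) h w X := by
            refine (add_le_add t1 t0).trans (le_of_eq ?_)
            ring
        _ ≤ _ := mul_le_mul_of_nonneg_right (mul_le_mul_of_nonneg_right
          (mul_le_mul_of_nonneg_right (le_max_right _ _) r0) s0) g0
  have hB0 : 0 ≤ (‖vv δ h z ζ‖ / δ ζ) ^ 3 * (max 1 (δ ζ / ek j)) ^ (5 / 16 : ℝ) *
      SS P s δ c j z :=
    mul_nonneg (mul_nonneg (pow_nonneg (div_nonneg (norm_nonneg _) hζ.2.le) _)
      (Real.rpow_nonneg (le_trans zero_le_one (le_max_left _ _)) _)) (hS0 j z hz)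
  unfold Jv
  calc ∑ l, ‖b l (j + 1) ζ - b l j ζ‖
      ≤ ∑ l, (‖b l (j + 1) z - b l j z‖ +
        K4 * (‖vv δ h z ζ‖ / δ ζ) ^ 3 * (max 1 (δ ζ / ek j)) ^ (5 / 16 : ℝ) *
          SS P s δ c j z) := by
        refine Finset.sum_le_sum fun l _ => ?_
        have h1 := hone l
        have h2 := norm_add_le (b l (j + 1) z - b l j z)
          ((b l (j + 1) ζ - b l j ζ) - (b l (j + 1) z - b l j z))
        rw [add_sub_cancel] at h2
        exact h2.trans (add_le_add le_rfl h1)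
    _ = ∑ l, ‖b l (j + 1) z - b l j z‖ + (d * K4) * ((‖vv δ h z ζ‖ / δ ζ) ^ 3 *
        (max 1 (δ ζ / ek j)) ^ (5 / 16 : ℝ) * SS P s δ c j z) := by
        rw [Finset.sum_add_distrib, Finset.sum_const, Finset.card_univ, Fintype.card_fin,
          nsmul_eq_mul]
        ring
    _ ≤ ∑ l, ‖b l (j + 1) z - b l j z‖ + (max 1 (d * K4)) * ((‖vv δ h z ζ‖ / δ ζ) ^ 3 *
        (max 1 (δ ζ / ek j)) ^ (5 / 16 : ℝ) * SS P s δ c j z) :=
        add_le_add le_rfl (mul_le_mul_of_nonneg_right (le_max_right _ _) hB0)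
    _ = _ := by ring

end Pool.Agent.MPca0fc2.GW
end
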