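import Pool.Agent.Lib.MP_ca0fc2_an.Mg.G026
import Pool.Agent.Lib.MP_ca0fc2_an.Mg.G025

section

/-! The density `GG`. -/

set_option autoImplicit false

open Metric Set MeasureTheory Filter Topology

namespace Pool.Agent.MPca0fc2.GW

open Pool.Agent.MPca0fc2.FD

variable {n d : ℕ} {U : Set (Ec n)} {δ : Ec n → ℝ} {h : Ec n → Ec n → Fin n → ℂ} {P : PS n}
  {s : ℕ → ℝ} {u : Fin d → Ec n → ℂ} {b : Fin d → ℕ → Ec n → ℂ} {c C A M ρ K : ℝ}

private theorem S1c_pow {x : ℝ} (hx : 1 / 2 ≤ x) : x ^ (9 / 4 : ℝ) ≤ 2 * x ^ 3 ∧ 1 ≤ 8 * x ^ 3 := by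
  have hx0 : 0 < x := by linarith
  have h3 : (1 / 2 : ℝ) ^ 3 ≤ x ^ 3 := pow_le_pow_left₀ (by norm_num) hx 3
  refine ⟨?_, by norm_num at h3; linarith⟩
  have h1 : x ^ (9 / 4 : ℝ) = x ^ 3 * x ^ (-(3 / 4) : ℝ) := by
    rw [← Real.rpow_natCast x 3, ← Real.rpow_add hx0]
    norm_num
  have h2 : x ^ (-(3 / 4) : ℝ) ≤ 2 := by
    have h4 : x ^ (-(3 / 4) : ℝ) ≤ (1 / 2 : ℝ) ^ (-(3 / 4) : ℝ) :=
      Real.rpow_le_rpow_of_nonpos (by norm_num) hx (by norm_num)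
    refine h4.trans ?_
    have h5 : (1 / 2 : ℝ) ^ (-(3 / 4) : ℝ) = 2 ^ (3 / 4 : ℝ) := by
      rw [one_div, Real.inv_rpow (by norm_num), Real.rpow_neg (by norm_num), inv_inv]
    rw [h5]
    calc (2 : ℝ) ^ (3 / 4 : ℝ) ≤ 2 ^ (1 : ℝ) :=
          Real.rpow_le_rpow_of_exponent_le (by norm_num) (by norm_num)
      _ = 2 := Real.rpow_one 2
  rw [h1, mul_comm 2]
  exact mul_le_mul_of_nonneg_left h2 (by positivity)

private theorem S1c_quarter {x y : ℝ} (hy : 1 ≤ y) (hxy : x ≤ y) :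
    (max 1 x) ^ (1 / 4 : ℝ) ≤ y := by
  have h1 : max 1 x ≤ y := max_le hy hxy
  calc (max 1 x) ^ (1 / 4 : ℝ) ≤ y ^ (1 / 4 : ℝ) :=
        Real.rpow_le_rpow (le_trans zero_le_one (le_max_left _ _)) h1 (by norm_num)
    _ ≤ y ^ (1 : ℝ) := Real.rpow_le_rpow_of_exponent_le hy (by norm_num)
    _ = y := Real.rpow_one y

/-- The density at two points.
PROOF. Notation `t = ‖v(z, ζ)‖`, `σ = δ ζ`, `t / σ ≥ 1 / 2`. The jumps: `Jv_cmp`, `al σ j (max 1 (σ / ek j))^(5/16) ≤ be σ j`. The terms `be σ j SS j ζ` with `ek j > σ` (`SS_har0`): `dk j ζ ≤ 2 ek j ≤ (8 / c) dk j z`, so `SS j ζ ≤ K (t / σ)^(9/4) SS j z`.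
The terms with `ek j ≤ σ`: let `l` be the least index with `ek l ≤ σ` (so `l ≤ j ≤ J`, and `σ ≤ 2 ek l` or `l = 0`, in any case `σ ≤ 2 C ek l`): `SS j ζ ≤ K SS l ζ + s j` (`SS_deep`), `SS l ζ ≤ K (t / σ)^(9/4) (max 1 (dk l ζ / dk l z))^(1/4) SS l z ≤
K' (t / σ)^(9/4) SS l z` (`dk l ζ ≤ σ + ek l ≤ 3 C ek l ≤ K dk l z`); `∑_j be σ j ≤ K` and `be σ l ≥ 1 / K` give `≤ K (t / σ)^(9/4) be σ l SS l z`; and `s j ≤ SS j z` (`SQ ≥ 0`). -/
theorem GS_cmp (n d : ℕ) (c C A M K : ℝ) (hc : 0 < c) : ∃ K' : ℝ, 1 ≤ K' ∧ ∀ (U : Set (Ec n))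
    (δ : Ec n → ℝ) (h : Ec n → Ec n → Fin n → ℂ) (P : PS n) (s : ℕ → ℝ) (u : Fin d → Ec n → ℂ)
    (b : Fin d → ℕ → Ec n → ℂ) (ρ : ℝ), DT U δ h P s u b c C A M ρ K → ∀ (J : ℕ),
    ∀ z ∈ Om U δ, ∀ ζ ∈ Om U δ, GS P s δ c b J (δ ζ) ζ ≤
      K' * (‖vv δ h z ζ‖ / δ ζ) ^ 3 * GS P s δ c b J (δ ζ) z := by
  classical
  obtain ⟨K1, hK1, hJ⟩ := Jv_cmp n d c C A M K hc
  obtain ⟨K2, hK2, hle⟩ := SS_le n c C A
  obtain ⟨K3, hK3, hhar⟩ := SS_har0 n c C A
  obtain ⟨K4, hK4, hdeep⟩ := SS_deep n c C A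
  obtain ⟨K5, hK5, hbe⟩ := be_sum
  obtain ⟨K6, hK6, hD6⟩ : ∃ K6 : ℝ, 1 ≤ K6 ∧ 12 * |C| / c + 8 / c + 1 ≤ K6 :=
    ⟨max 1 (12 * |C| / c + 8 / c + 1), le_max_left _ _, le_max_right _ _⟩
  refine ⟨8 + K1 + 2 * K3 * K6 + (K4 * (2 * K3 * K6)) * K5 * (2 * |C| + 1), ?_, ?_⟩
  · have h1 : 0 ≤ 2 * K3 * K6 := by positivity
    have h2 : 0 ≤ (K4 * (2 * K3 * K6)) * K5 * (2 * |C| + 1) := by positivity
    linarith
  intro U δ h P s u b ρ hT J z hz ζ hζ
  have hD := hT.cd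
  obtain ⟨hc0, hc1, hC1⟩ := CD.pos hD
  have hCC : |C| = C := abs_of_nonneg (by linarith)
  have hsub : ∀ k, Om U δ ⊆ Dk U δ c k := fun k => Om_sub_Dk hD k
  have hS0 : ∀ k, ∀ w ∈ Om U δ, 0 ≤ SS P s δ c k w := fun k w hw =>
    (hle U δ h P s hD hT.pa hT.sl k w (hsub k hw)).1
  obtain ⟨v1, v2, v3, v4⟩ := v_lb hD.geo0 hz hζ
  set σ : ℝ := δ ζ with hσd
  have hσ : 0 < σ := hζ.2
  have hσC : σ ≤ C := by
    have h1 := hD.geo0.bδ ζ hζ.1
    exact h1
  set x : ℝ := ‖vv δ h z ζ‖ / σ with hx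
  have hx2 : 1 / 2 ≤ x := by
    rw [hx, le_div_iff₀ hσ]
    linarith
  obtain ⟨hx94, hx8⟩ := S1c_pow hx2
  have hx0 : 0 < x := by linarith
  have hx3 : 0 < x ^ 3 := by positivity
  have hal : ∀ j, 0 ≤ al σ j ∧ 0 ≤ be σ j ∧ be σ j ≤ 1 ∧
      al σ j * (max 1 (σ / ek j)) ^ (5 / 16 : ℝ) ≤ be σ j := by
    intro j
    obtain ⟨a1, a2, a3, a4, a5, a6, a7, a8⟩ := al_be hσ hσ j
    exact ⟨a1, a3, a4, a8⟩
  -- harmonicity at one level, with comparable depths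
  have hcmp : ∀ j, σ ≤ 2 * C * ek j → SS P s δ c j ζ ≤ 2 * K3 * K6 * x ^ 3 * SS P s δ c j z := by
    intro j hj
    have h1 := hhar U δ h P s hD hT.pa hT.sl j z hz ζ hζ
    have ej := ek_pos j
    have h2 : dk δ c j ζ / dk δ c j z ≤ K6 := by
      have h3 : dk δ c j ζ ≤ 3 * C * ek j := by
        unfold dk
        rw [← hσd]
        nlinarith
      have h4 : c / 4 * ek j ≤ dk δ c j z := by
        unfold dk
        have := hz.2
        linarith
      have h5 : 0 < c / 4 * ek j := by positivity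
      have h6 : dk δ c j ζ / dk δ c j z ≤ (3 * C * ek j) / (c / 4 * ek j) :=
        div_le_div₀ (by positivity) h3 h5 h4
      have h7 : (3 * C * ek j) / (c / 4 * ek j) = 12 * C / c := by
        field_simp
        ring
      rw [h7] at h6
      have h8 : 0 ≤ 8 / c := by positivity
      rw [hCC] at hD6
      linarith
    have h3 := S1c_quarter hK6 h2
    have h4 := hS0 j z hz
    calc SS P s δ c j ζ ≤ K3 * x ^ (9 / 4 : ℝ) *
          (max 1 (dk δ c j ζ / dk δ c j z)) ^ (1 / 4 : ℝ) * SS P s δ c j z := h1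
      _ ≤ K3 * (2 * x ^ 3) * K6 * SS P s δ c j z := by
          refine mul_le_mul_of_nonneg_right ?_ h4
          exact mul_le_mul (mul_le_mul_of_nonneg_left hx94 (by positivity)) h3
            (Real.rpow_nonneg (le_trans zero_le_one (le_max_left _ _)) _) (by positivity)
      _ = _ := by ring
  -- the three parts
  set Sz : ℝ := ∑ j ∈ Finset.range (J + 1), be σ j * SS P s δ c j z with hSz
  have hSz0 : 0 ≤ Sz := Finset.sum_nonneg fun j _ => mul_nonneg (hal j).2.1 (hS0 j z hz)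
  have hJz0 : 0 ≤ ∑ j ∈ Finset.range J, al σ j * Jv b j z :=
    Finset.sum_nonneg fun j _ => mul_nonneg (hal j).1 (Jv_le hT j hz).1
  have hσ4 : 0 ≤ σ ^ (1 / 4 : ℝ) := Real.rpow_nonneg hσ.le _
  have p1 : σ ^ (1 / 4 : ℝ) ≤ 8 * x ^ 3 * σ ^ (1 / 4 : ℝ) := by
    have := mul_le_mul_of_nonneg_right hx8 hσ4
    linarith
  have p2 : ∑ j ∈ Finset.range J, al σ j * Jv b j ζ ≤
      8 * x ^ 3 * ∑ j ∈ Finset.range J, al σ j * Jv b j z + K1 * x ^ 3 * Sz := by
    have q1 : ∑ j ∈ Finset.range J, al σ j * Jv b j ζ ≤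
        ∑ j ∈ Finset.range J, (al σ j * Jv b j z + K1 * x ^ 3 * (be σ j * SS P s δ c j z)) := by
      refine Finset.sum_le_sum fun j _ => ?_
      have r1 := hJ U δ h P s u b ρ hT j z hz ζ hζ
      have r2 := mul_le_mul_of_nonneg_left r1 (hal j).1
      refine r2.trans ?_
      rw [mul_add]
      refine add_le_add le_rfl ?_
      have r3 := (hal j).2.2.2
      have r4 : 0 ≤ K1 * x ^ 3 * SS P s δ c j z :=
        mul_nonneg (by positivity) (hS0 j z hz)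
      calc al σ j * (K1 * x ^ 3 * (max 1 (σ / ek j)) ^ (5 / 16 : ℝ) * SS P s δ c j z)
          = (al σ j * (max 1 (σ / ek j)) ^ (5 / 16 : ℝ)) * (K1 * x ^ 3 * SS P s δ c j z) := by
            ring
        _ ≤ be σ j * (K1 * x ^ 3 * SS P s δ c j z) := mul_le_mul_of_nonneg_right r3 r4
        _ = _ := by ring
    refine q1.trans ?_
    rw [Finset.sum_add_distrib, ← Finset.mul_sum]
    have q2 : ∑ j ∈ Finset.range J, be σ j * SS P s δ c j z ≤ Sz := by
      rw [hSz, Finset.sum_range_succ]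
      have := mul_nonneg (hal J).2.1 (hS0 J z hz)
      linarith
    have q3 := mul_le_mul_of_nonneg_right hx8 hJz0
    refine add_le_add (by linarith) (mul_le_mul_of_nonneg_left q2 (by positivity))
  have p3 : ∑ j ∈ Finset.range (J + 1), be σ j * SS P s δ c j ζ ≤
      (2 * K3 * K6 + (K4 * (2 * K3 * K6)) * K5 * (2 * C + 1) + 8) * x ^ 3 * Sz := by
    by_cases hex : ∃ j, ek j ≤ σ ∧ j ≤ J
    · -- the least deep level
      have hex' : ∃ j, ek j ≤ σ := ⟨hex.choose, hex.choose_spec.1⟩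
      set l := Nat.find hex' with hl
      have hl1 : ek l ≤ σ := Nat.find_spec hex'
      have hlmin : ∀ j, ek j ≤ σ → l ≤ j := fun j hj => Nat.find_min' hex' hj
      have hlJ : l ≤ J := (hlmin _ hex.choose_spec.1).trans hex.choose_spec.2
      have hl2 : σ ≤ 2 * C * ek l := by
        rcases Nat.eq_zero_or_pos l with h0 | h0
        · rw [h0, ek_zero]
          linarith
        · obtain ⟨m, hm⟩ : ∃ m, l = m + 1 := ⟨l - 1, by omega⟩
          have h1 : σ < ek m := by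
            by_contra hcon
            have := hlmin m (not_lt.1 hcon)
            omega
          have h2 : ek m = 2 * ek l := by
            rw [hm, ek_succ]
            ring
          have h3 := ek_pos l
          nlinarith
      have hbel : 1 ≤ (2 * C + 1) * be σ l := by
        have el := ek_pos l
        have h1 : be σ l = (ek l / σ) ^ (1 / 16 : ℝ) := by
          unfold be
          rw [if_pos hl1]
        have h2 : ek l / σ ≤ 1 := (div_le_one hσ).2 hl1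
        have h3 : ek l / σ ≤ (ek l / σ) ^ (1 / 16 : ℝ) := by
          calc ek l / σ = (ek l / σ) ^ (1 : ℝ) := (Real.rpow_one _).symm
            _ ≤ _ := Real.rpow_le_rpow_of_exponent_ge (by positivity) h2 (by norm_num)
        have h4 : 1 ≤ (2 * C + 1) * (ek l / σ) := by
          rw [← mul_div_assoc, le_div_iff₀ hσ]
          nlinarith
        rw [h1]
        exact h4.trans (mul_le_mul_of_nonneg_left h3 (by linarith))
      have hSl : SS P s δ c l z ≤ (2 * C + 1) * Sz := by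
        have h1 : be σ l * SS P s δ c l z ≤ Sz :=
          Finset.single_le_sum (f := fun j => be σ j * SS P s δ c j z)
            (fun j _ => mul_nonneg (hal j).2.1 (hS0 j z hz))
            (Finset.mem_range.2 (Nat.lt_succ_of_le hlJ))
        have h2 := hS0 l z hz
        have h3 := mul_le_mul_of_nonneg_right hbel h2
        have h4 := mul_le_mul_of_nonneg_left h1 (by linarith : (0 : ℝ) ≤ 2 * C + 1)
        linarith
      have hterm : ∀ j ∈ Finset.range (J + 1), be σ j * SS P s δ c j ζ ≤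
          (2 * K3 * K6 + 8) * x ^ 3 * (be σ j * SS P s δ c j z) +
            be σ j * (K4 * (2 * K3 * K6 * x ^ 3 * SS P s δ c l z)) := by
        intro j _
        have b0 := (hal j).2.1
        have s0 := hS0 j z hz
        have sl0 := hS0 l z hz
        by_cases hjσ : ek j ≤ σ
        · have h1 := hdeep U δ h P s hD hT.pa hT.sl l j (hlmin j hjσ) ζ hζ hl1
          have h2 := hcmp l hl2
          have h3 : s j ≤ SS P s δ c j z := by
            have h4 := SQ_nonneg hD hT.pa (hsub j hz)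
            unfold SS
            linarith
          have h5 : SS P s δ c j ζ ≤ K4 * (2 * K3 * K6 * x ^ 3 * SS P s δ c l z) +
              SS P s δ c j z :=
            h1.trans (add_le_add (mul_le_mul_of_nonneg_left h2 (by linarith)) h3)
          have h6 := mul_le_mul_of_nonneg_left h5 b0
          refine h6.trans ?_
          rw [mul_add, add_comm]
          refine add_le_add ?_ le_rfl
          have h7 : 0 ≤ be σ j * SS P s δ c j z := mul_nonneg b0 s0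
          have h8 : 1 ≤ (2 * K3 * K6 + 8) * x ^ 3 := by
            have h9 : 0 ≤ 2 * K3 * K6 * x ^ 3 := by positivity
            linarith
          have h9 := mul_le_mul_of_nonneg_right h8 h7
          linarith
        · have h1 : σ ≤ 2 * C * ek j := by
            have h2 := not_le.1 hjσ
            have h3 := ek_pos j
            nlinarith
          have h2 := mul_le_mul_of_nonneg_left (hcmp j h1) b0
          have h7 : 0 ≤ be σ j * SS P s δ c j z := mul_nonneg b0 s0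
          have h8 : 0 ≤ be σ j * (K4 * (2 * K3 * K6 * x ^ 3 * SS P s δ c l z)) := by
            have : 0 ≤ 2 * K3 * K6 * x ^ 3 * SS P s δ c l z :=
              mul_nonneg (by positivity) sl0
            exact mul_nonneg b0 (mul_nonneg (by linarith) this)
          have h9 : 0 ≤ 8 * x ^ 3 * (be σ j * SS P s δ c j z) := mul_nonneg (by positivity) h7
          calc be σ j * SS P s δ c j ζ ≤ be σ j * (2 * K3 * K6 * x ^ 3 * SS P s δ c j z) := h2
            _ = 2 * K3 * K6 * x ^ 3 * (be σ j * SS P s δ c j z) := by ring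
            _ ≤ _ := by linarith
      refine (Finset.sum_le_sum hterm).trans ?_
      rw [Finset.sum_add_distrib, ← Finset.mul_sum, ← Finset.sum_mul]
      have h1 := hbe σ hσ (J + 1)
      have sl0 := hS0 l z hz
      have h2 : 0 ≤ K4 * (2 * K3 * K6 * x ^ 3 * SS P s δ c l z) :=
        mul_nonneg (by linarith) (mul_nonneg (by positivity) sl0)
      have h3 := mul_le_mul_of_nonneg_right h1 h2
      have h4 : K5 * (K4 * (2 * K3 * K6 * x ^ 3 * SS P s δ c l z)) ≤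
          K5 * (K4 * (2 * K3 * K6 * x ^ 3 * ((2 * C + 1) * Sz))) := by
        refine mul_le_mul_of_nonneg_left (mul_le_mul_of_nonneg_left
          (mul_le_mul_of_nonneg_left hSl (by positivity)) (by linarith)) (by linarith)
      calc (2 * K3 * K6 + 8) * x ^ 3 * ∑ j ∈ Finset.range (J + 1), be σ j * SS P s δ c j z +
            (∑ j ∈ Finset.range (J + 1), be σ j) *
              (K4 * (2 * K3 * K6 * x ^ 3 * SS P s δ c l z))
          ≤ (2 * K3 * K6 + 8) * x ^ 3 * Sz +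
            K5 * (K4 * (2 * K3 * K6 * x ^ 3 * ((2 * C + 1) * Sz))) :=
            add_le_add le_rfl (h3.trans h4)
        _ = _ := by ring
    · -- no deep level
      have hterm : ∀ j ∈ Finset.range (J + 1), be σ j * SS P s δ c j ζ ≤
          2 * K3 * K6 * x ^ 3 * (be σ j * SS P s δ c j z) := by
        intro j hj
        have hjσ : ¬ ek j ≤ σ := fun h1 =>
          hex ⟨j, h1, Nat.lt_succ_iff.1 (Finset.mem_range.1 hj)⟩
        have h1 : σ ≤ 2 * C * ek j := by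
          have h2 := not_le.1 hjσ
          have h3 := ek_pos j
          nlinarith
        have h2 := mul_le_mul_of_nonneg_left (hcmp j h1) (hal j).2.1
        refine h2.trans (le_of_eq ?_)
        ring
      refine (Finset.sum_le_sum hterm).trans ?_
      rw [← Finset.mul_sum]
      refine mul_le_mul_of_nonneg_right ?_ hSz0
      refine mul_le_mul_of_nonneg_right ?_ hx3.le
      have : 0 ≤ (K4 * (2 * K3 * K6)) * K5 * (2 * C + 1) := by positivity
      linarith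
  unfold GS
  rw [hCC]
  have e1 : σ ^ (1 / 4 : ℝ) + ∑ j ∈ Finset.range J, al σ j * Jv b j ζ +
      ∑ j ∈ Finset.range (J + 1), be σ j * SS P s δ c j ζ ≤
      8 * x ^ 3 * σ ^ (1 / 4 : ℝ) +
      (8 * x ^ 3 * ∑ j ∈ Finset.range J, al σ j * Jv b j z + K1 * x ^ 3 * Sz) +
      (2 * K3 * K6 + (K4 * (2 * K3 * K6)) * K5 * (2 * C + 1) + 8) * x ^ 3 * Sz :=
    add_le_add (add_le_add p1 p2) p3
  refine e1.trans ?_
  set W : ℝ := K1 + 2 * K3 * K6 + (K4 * (2 * K3 * K6)) * K5 * (2 * C + 1) with hW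
  have hW0 : 0 ≤ W := by positivity
  have e2 : (8 + K1 + 2 * K3 * K6 + (K4 * (2 * K3 * K6)) * K5 * (2 * C + 1)) = 8 + W := by
    rw [hW]
    ring
  rw [e2]
  have f1 : 0 ≤ W * x ^ 3 * σ ^ (1 / 4 : ℝ) := by positivity
  have f2 : 0 ≤ W * x ^ 3 * ∑ j ∈ Finset.range J, al σ j * Jv b j z :=
    mul_nonneg (by positivity) hJz0
  calc 8 * x ^ 3 * σ ^ (1 / 4 : ℝ) +
      (8 * x ^ 3 * ∑ j ∈ Finset.range J, al σ j * Jv b j z + K1 * x ^ 3 * Sz) +
      (2 * K3 * K6 + (K4 * (2 * K3 * K6)) * K5 * (2 * C + 1) + 8) * x ^ 3 * Sz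
      = 8 * x ^ 3 * σ ^ (1 / 4 : ℝ) +
        8 * x ^ 3 * ∑ j ∈ Finset.range J, al σ j * Jv b j z + (8 + W) * x ^ 3 * Sz := by
        rw [hW]
        ring
    _ ≤ _ := by
        rw [mul_add, mul_add]
        nlinarith

/-- PROOF. `lo`: the first term of `GS`. `up`: `GS_le`. `har`: `GS_cmp`, `GS_scale`. -/
theorem GG_GD (n d : ℕ) (c C A M K : ℝ) (hc : 0 < c) : ∃ A' : ℝ, 1 ≤ A' ∧ ∀ (U : Set (Ec n))
    (δ : Ec n → ℝ) (h : Ec n → Ec n → Fin n → ℂ) (P : PS n) (s : ℕ → ℝ) (u : Fin d → Ec n → ℂ)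
    (b : Fin d → ℕ → Ec n → ℂ) (ρ : ℝ), DT U δ h P s u b c C A M ρ K → ∀ (J : ℕ),
    GD U δ h (GG P s δ c b J) A' := by
  obtain ⟨K1, hK1, hcmp⟩ := GS_cmp n d c C A M K hc
  obtain ⟨K2, hK2, hup⟩ := GS_le n d c C A M
  obtain ⟨K3, hK3, hle⟩ := SS_le n c C A
  refine ⟨max K1 K2, hK1.trans (le_max_left _ _), ?_⟩
  intro U δ h P s u b ρ hT J
  have hD := hT.cd
  have hA1 : 1 ≤ max K1 K2 := hK1.trans (le_max_left _ _)
  have hG0 : ∀ z ∈ Om U δ, 0 ≤ GG P s δ c b J z := fun z hz =>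
    (GS_scale hT J hz hz.2 hz.2).1
  refine ⟨hA1, ?_, ?_, ?_⟩
  · intro z hz
    have h1 : (δ z) ^ (1 / 4 : ℝ) ≤ GG P s δ c b J z := by
      unfold GG GS
      have h2 : 0 ≤ ∑ j ∈ Finset.range J, al (δ z) j * Jv b j z :=
        Finset.sum_nonneg fun j _ => mul_nonneg (al_be hz.2 hz.2 j).1 (Jv_le hT j hz).1
      have h3 : 0 ≤ ∑ j ∈ Finset.range (J + 1), be (δ z) j * SS P s δ c j z :=
        Finset.sum_nonneg fun j _ => mul_nonneg (al_be hz.2 hz.2 j).2.2.1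
          (hle U δ h P s hD hT.pa hT.sl j z (Om_sub_Dk hD j hz)).1
      linarith
    have h2 := mul_le_mul_of_nonneg_right hA1 (hG0 z hz)
    linarith
  · intro z hz
    exact (hup U δ h P s u b ρ K hT J (δ z) hz.2 (hD.geo0.bδ z hz.1) z hz).trans
      (le_max_right _ _)
  · intro z hz ζ hζ
    have h1 := hcmp U δ h P s u b ρ hT J z hz ζ hζ
    have h2 := (GS_scale hT J hz hζ.2 hz.2).2
    have h3 : 0 ≤ (‖vv δ h z ζ‖ / δ ζ) ^ 3 := pow_nonneg (div_nonneg (norm_nonneg _) hζ.2.le) _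
    have h4 : 0 ≤ (max (δ ζ / δ z) (δ z / δ ζ)) ^ (3 / 8 : ℝ) :=
      Real.rpow_nonneg (le_trans (div_nonneg hζ.2.le hz.2.le) (le_max_left _ _)) _
    have h5 := hG0 z hz
    calc GG P s δ c b J ζ ≤ K1 * (‖vv δ h z ζ‖ / δ ζ) ^ 3 * GS P s δ c b J (δ ζ) z := h1
      _ ≤ K1 * (‖vv δ h z ζ‖ / δ ζ) ^ 3 * ((max (δ ζ / δ z) (δ z / δ ζ)) ^ (3 / 8 : ℝ) *
          GS P s δ c b J (δ z) z) := mul_le_mul_of_nonneg_left h2 (by positivity)
      _ = K1 * ((‖vv δ h z ζ‖ / δ ζ) ^ 3 * (max (δ ζ / δ z) (δ z / δ ζ)) ^ (3 / 8 : ℝ) *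
          GG P s δ c b J z) := by
          unfold GG
          ring
      _ ≤ max K1 K2 * ((‖vv δ h z ζ‖ / δ ζ) ^ 3 *
          (max (δ ζ / δ z) (δ z / δ ζ)) ^ (3 / 8 : ℝ) * GG P s δ c b J z) :=
          mul_le_mul_of_nonneg_right (le_max_left _ _) (mul_nonneg (mul_nonneg h3 h4) h5)
      _ = _ := by ring

end Pool.Agent.MPca0fc2.GW
end

section

/-! The exponential weight. -/

set_option autoImplicit false

open Metric Set MeasureTheory Filter Topology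

namespace Pool.Agent.MPca0fc2.GW

open Pool.Agent.MPca0fc2.FD

variable {n d : ℕ} {U : Set (Ec n)} {δ : Ec n → ℝ} {h : Ec n → Ec n → Fin n → ℂ} {P : PS n}
  {s : ℕ → ℝ} {u : Fin d → Ec n → ℂ} {b : Fin d → ℕ → Ec n → ℂ} {c C A M ρ K : ℝ}

/-- The quotient `ek / dk` is at most `4 / c`. -/
private theorem S3_ratio (hc : 0 < c) {z : Ec n} (hz : 0 < δ z) (j : ℕ) :
    0 < ek j / dk δ c j z ∧ ek j / dk δ c j z ≤ 4 / c ∧ ek j / dk δ c j z ≤ ek j / δ z := by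
  have he := ek_pos j
  have hd : dk δ c j z = δ z + c / 4 * ek j := rfl
  have hp : 0 < dk δ c j z := by rw [hd]; positivity
  refine ⟨div_pos he hp, ?_, ?_⟩
  · rw [div_le_div_iff₀ hp hc, hd]
    nlinarith
  · refine div_le_div_of_nonneg_left he.le hz ?_
    rw [hd]
    have : 0 < c / 4 * ek j := by positivity
    linarith

private theorem S3_mem (hc : 0 < c) {z : Ec n} (hz : z ∈ Om U δ) (j : ℕ) :
    z ∈ Om U (fun w => δ w + c / 32 * ek j) := by
  refine ⟨hz.1, ?_⟩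
  have he := ek_pos j
  have := hz.2
  show 0 < δ z + c / 32 * ek j
  positivity

/-- The drift of the functions `Lk` at a point `z`, from the level `l` to the level `m` (`δ z ≤ ek j` for `j < m`).
PROOF. `2 Re Lk ≤ 2 Re Nk + 2 K' (ek j / dk j z)^(1/2) SS j z` (`Lk_near`; `z ∈ Om U δ ⊆ Om U (δ + c/32 ek j)`), `ek j / dk j z ≤ 4 / c`; `BL.gain`: `∑ 2 Re Nk ≤ 150 M² - ρ ∑ |b (j+1) - b j|`. Sum over the functions. -/
theorem drift (hn : 2 ≤ n) (d : ℕ) (c C A M K : ℝ) : ∃ K' : ℝ, 1 ≤ K' ∧ ∀ (U : Set (Ec n))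
    (δ : Ec n → ℝ) (h : Ec n → Ec n → Fin n → ℂ) (P : PS n) (s : ℕ → ℝ) (u : Fin d → Ec n → ℂ)
    (b : Fin d → ℕ → Ec n → ℂ) (ρ : ℝ), DT U δ h P s u b c C A M ρ K → ∀ z ∈ Om U δ,
    ∀ l m : ℕ, l ≤ m → ∑ j ∈ Finset.Ico l m, 2 * (∑ i, Lk U δ h c (u i) (b i) j z).re ≤
      K' - ρ * ∑ j ∈ Finset.Ico l m, Jv b j z + K' * ∑ j ∈ Finset.Ico l m, SS P s δ c j z := by
  obtain ⟨K₀, hK₀, hSH⟩ := DT_SH n c C A
  obtain ⟨K₁, hK₁, hLk⟩ := Lk_near hn c C M K K₀
  refine ⟨1 + d * (150 * M ^ 2) + d * (2 * (K₁ * (4 / |c|) ^ (1 / 2 : ℝ))), ?_, ?_⟩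
  · have h1 : 0 ≤ (d : ℝ) * (150 * M ^ 2) := by positivity
    have h2 : 0 ≤ (d : ℝ) * (2 * (K₁ * (4 / |c|) ^ (1 / 2 : ℝ))) := by positivity
    linarith
  intro U δ h P s u b ρ hT z hz l m hlm
  have hc := hT.cd.pos.1
  rw [abs_of_pos hc]
  have hS := hSH d U δ h P s u b M ρ K hT
  have hz0 := hz.2
  set Q : ℝ := (4 / c) ^ (1 / 2 : ℝ) with hQ
  have hQ0 : 0 ≤ Q := by positivity
  have hSS0 : ∀ j, 0 ≤ SS P s δ c j z := fun j => hS.nn j z (Om_sub_Dk hT.cd j hz)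
  have key : ∀ i : Fin d, ∑ j ∈ Finset.Ico l m, 2 * (Lk U δ h c (u i) (b i) j z).re ≤
      150 * M ^ 2 - ρ * ∑ j ∈ Finset.Ico l m, ‖b i (j + 1) z - b i j z‖ +
        2 * (K₁ * Q) * ∑ j ∈ Finset.Ico l m, SS P s δ c j z := by
    intro i
    have hg := (hT.bl i).gain z hz l m hlm
    have hterm : ∀ j ∈ Finset.Ico l m, 2 * (Lk U δ h c (u i) (b i) j z).re ≤
        2 * ((starRingEnd ℂ) (b i j z) * (uk (u i) (j + 1) z - uk (u i) j z)).re +
          2 * (K₁ * Q) * SS P s δ c j z := by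
      intro j _
      have h1 := hLk U δ h (u i) (SS P s δ c) (b i) ρ hT.cd (hT.hol i) (hT.bd i) hS (hT.bl i) j z
        (S3_mem hc hz j)
      have h2 : (Lk U δ h c (u i) (b i) j z - Nk (u i) (b i) j z).re ≤
          K₁ * Q * SS P s δ c j z := by
        refine (Complex.re_le_norm _).trans (h1.trans ?_)
        obtain ⟨r1, r2, _⟩ := S3_ratio hc hz0 j
        refine mul_le_mul_of_nonneg_right (mul_le_mul_of_nonneg_left ?_ (by linarith)) (hSS0 j)
        exact Real.rpow_le_rpow r1.le r2 (by norm_num)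
      rw [Complex.sub_re] at h2
      have h3 : Nk (u i) (b i) j z =
        (starRingEnd ℂ) (b i j z) * (uk (u i) (j + 1) z - uk (u i) j z) := rfl
      rw [h3] at h2
      linarith
    calc ∑ j ∈ Finset.Ico l m, 2 * (Lk U δ h c (u i) (b i) j z).re
        ≤ ∑ j ∈ Finset.Ico l m,
          (2 * ((starRingEnd ℂ) (b i j z) * (uk (u i) (j + 1) z - uk (u i) j z)).re +
          2 * (K₁ * Q) * SS P s δ c j z) := Finset.sum_le_sum hterm
      _ = ∑ j ∈ Finset.Ico l m,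
          2 * ((starRingEnd ℂ) (b i j z) * (uk (u i) (j + 1) z - uk (u i) j z)).re +
          2 * (K₁ * Q) * ∑ j ∈ Finset.Ico l m, SS P s δ c j z := by
          rw [Finset.sum_add_distrib, Finset.mul_sum]
      _ ≤ _ := by linarith
  have e1 : ∑ j ∈ Finset.Ico l m, 2 * (∑ i, Lk U δ h c (u i) (b i) j z).re =
      ∑ i : Fin d, ∑ j ∈ Finset.Ico l m, 2 * (Lk U δ h c (u i) (b i) j z).re := by
    rw [Finset.sum_comm]
    refine Finset.sum_congr rfl fun j _ => ?_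
    rw [Complex.re_sum, Finset.mul_sum]
  have e2 : ∑ j ∈ Finset.Ico l m, Jv b j z =
      ∑ i : Fin d, ∑ j ∈ Finset.Ico l m, ‖b i (j + 1) z - b i j z‖ := by
    rw [Finset.sum_comm]
    rfl
  rw [e1]
  calc ∑ i : Fin d, ∑ j ∈ Finset.Ico l m, 2 * (Lk U δ h c (u i) (b i) j z).re
      ≤ ∑ i : Fin d, (150 * M ^ 2 - ρ * ∑ j ∈ Finset.Ico l m, ‖b i (j + 1) z - b i j z‖ +
        2 * (K₁ * Q) * ∑ j ∈ Finset.Ico l m, SS P s δ c j z) := Finset.sum_le_sum fun i _ => key i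
    _ = d * (150 * M ^ 2) - ρ * ∑ j ∈ Finset.Ico l m, Jv b j z +
        d * (2 * (K₁ * Q)) * ∑ j ∈ Finset.Ico l m, SS P s δ c j z := by
        rw [Finset.sum_add_distrib, Finset.sum_sub_distrib, Finset.sum_const, Finset.sum_const,
          ← Finset.mul_sum (f := fun i : Fin d => ∑ j ∈ Finset.Ico l m, ‖b i (j + 1) z - b i j z‖),
          ← e2, Finset.card_univ, Fintype.card_fin, nsmul_eq_mul, nsmul_eq_mul]
        ring
    _ ≤ _ := by
        have hs0 : 0 ≤ ∑ j ∈ Finset.Ico l m, SS P s δ c j z := Finset.sum_nonneg fun j _ => hSS0 j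
        have h2 : 0 ≤ (d : ℝ) * (2 * (K₁ * Q)) := by positivity
        have h1 : 0 ≤ (d : ℝ) * (150 * M ^ 2) := by positivity
        have h3 : (d : ℝ) * (2 * (K₁ * Q)) * ∑ j ∈ Finset.Ico l m, SS P s δ c j z ≤
            (1 + d * (150 * M ^ 2) + d * (2 * (K₁ * Q))) *
              ∑ j ∈ Finset.Ico l m, SS P s δ c j z :=
          mul_le_mul_of_nonneg_right (by linarith) hs0
        linarith

/-- the values of the steps -/
private theorem S3_th {σ : ℝ} {l : ℕ} (hl : ek l ≤ σ) (hl' : ∀ j, j < l → σ < ek j) (j : ℕ) :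
    0 ≤ th (ek j) σ ∧ th (ek j) σ ≤ 1 ∧ (l ≤ j → th (ek j) σ = 1) ∧
      (j + 1 < l → th (ek j) σ = 0) := by
  have he := ek_pos j
  refine ⟨Real.smoothTransition.nonneg _, Real.smoothTransition.le_one _, fun hj => ?_, fun hj => ?_⟩
  · refine Real.smoothTransition.one_of_one_le ?_
    have h1 : 1 ≤ σ / ek j := by
      rw [le_div_iff₀ he, one_mul]
      exact (ek_anti hj).trans hl
    linarith
  · refine Real.smoothTransition.zero_of_nonpos ?_
    have h1 : σ < ek (j + 1) := hl' (j + 1) hj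
    rw [ek_succ] at h1
    have h2 : σ / ek j ≤ 1 / 2 := by
      rw [div_le_iff₀ he]
      linarith
    linarith

/-- the ratio `(1/2)^(1/2)` -/
private theorem S3_geo (l J : ℕ) (B : ℝ) (hB : 0 ≤ B) :
    ∑ j ∈ Finset.range J, (if l ≤ j then B * ((1 / 2 : ℝ) ^ (j - l)) ^ (1 / 2 : ℝ) else 0) ≤
      4 * B := by
  have hq0 : (0 : ℝ) ≤ 3 / 4 := by norm_num
  have hq : ((1 / 2 : ℝ)) ^ (1 / 2 : ℝ) ≤ 3 / 4 := by
    have h1 : ((1 / 2 : ℝ)) ^ (1 / 2 : ℝ) ≤ (((3 / 4 : ℝ)) ^ (2 : ℝ)) ^ (1 / 2 : ℝ) := by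
      refine Real.rpow_le_rpow (by norm_num) ?_ (by norm_num)
      norm_num
    rwa [← Real.rpow_mul (by norm_num), show (2 : ℝ) * (1 / 2) = 1 by norm_num, Real.rpow_one]
      at h1
  have hpow : ∀ k : ℕ, (((1 / 2 : ℝ)) ^ k) ^ (1 / 2 : ℝ) ≤ (3 / 4 : ℝ) ^ k := by
    intro k
    rw [← Real.rpow_natCast, ← Real.rpow_mul (by norm_num), mul_comm,
      Real.rpow_mul (by norm_num), Real.rpow_natCast]
    exact pow_le_pow_left₀ (by positivity) hq k
  have hle : ∑ j ∈ Finset.range J, (if l ≤ j then B * ((1 / 2 : ℝ) ^ (j - l)) ^ (1 / 2 : ℝ) else 0) ≤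
      ∑ j ∈ Finset.range J, (if l ≤ j then B * (3 / 4 : ℝ) ^ (j - l) else 0) := by
    refine Finset.sum_le_sum fun j _ => ?_
    split_ifs
    · exact mul_le_mul_of_nonneg_left (hpow _) hB
    · exact le_rfl
  refine hle.trans ?_
  have hind : ∀ J : ℕ, ∑ j ∈ Finset.range J, (if l ≤ j then B * (3 / 4 : ℝ) ^ (j - l) else 0) ≤
      4 * B * (1 - (if l ≤ J then (3 / 4 : ℝ) ^ (J - l) else 1)) := by
    intro J
    induction J with
    | zero =>
      rw [Finset.range_zero, Finset.sum_empty]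
      split_ifs with h0
      · simp
      · simp
    | succ J ih =>
      rw [Finset.sum_range_succ]
      by_cases h1 : l ≤ J
      · rw [if_pos h1] at ih ⊢
        rw [if_pos (by omega)]
        rw [show J + 1 - l = (J - l) + 1 by omega, pow_succ]
        have : 0 ≤ (3 / 4 : ℝ) ^ (J - l) := by positivity
        nlinarith
      · rw [if_neg h1] at ih ⊢
        by_cases h2 : l ≤ J + 1
        · rw [if_pos h2, show J + 1 - l = 0 by omega]
          simp only [pow_zero, sub_self, mul_zero, add_zero] at ih ⊢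
          exact ih
        · rw [if_neg h2]
          simpa using ih
  refine (hind J).trans ?_
  have h0 : 0 ≤ (if l ≤ J then (3 / 4 : ℝ) ^ (J - l) else 1) := by
    split_ifs <;> positivity
  nlinarith

private theorem S3_ekdiv {l j : ℕ} (hlj : l ≤ j) {σ : ℝ} (hl : ek l ≤ σ) :
    ek j / σ ≤ (1 / 2 : ℝ) ^ (j - l) := by
  have h0 := ek_pos l
  rw [div_le_iff₀ (h0.trans_le hl)]
  have h1 : ek j = (1 / 2 : ℝ) ^ (j - l) * ek l := by
    unfold ek
    rw [← pow_add, Nat.sub_add_cancel hlj]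
  rw [h1]
  exact mul_le_mul_of_nonneg_left hl (by positivity)

/-- The part of the exponent with the functions `Lk`. `l` is the least index with `ek l ≤ δ ζ` and `m` the least index with `ek m ≤ δ z`.
PROOF. `th (ek j) (δ ζ) = 1` for `j ≥ l`, `= 0` for `j + 1 < l` (`δ ζ ≤ ek j / 2`), and it is in `[0, 1]`. The terms at `ζ`: `|Lk ζ| ≤ K' (ek j / dk j ζ)^(1/2) ≤ K' (ek j / δ ζ)^(1/2)` (`Lk_le`), for `j ≥ l` geometric with the ratio `2^(-1/2)`, the first term at most `K'`;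
the term `j = l - 1` is at most `K'' ` too. The terms at `z`: `j = l - 1`: bounded. `l ≤ j < J` and `j ≥ m`: `|Lk z| ≤ K' (ek j / δ z)^(1/2)`, geometric, `ek m ≤ δ z`. `l ≤ j < min m J`: `drift`. -/
theorem exp_L (hn : 2 ≤ n) (d : ℕ) (c C A M K : ℝ) : ∃ K' : ℝ, 1 ≤ K' ∧ ∀ (U : Set (Ec n))
    (δ : Ec n → ℝ) (h : Ec n → Ec n → Fin n → ℂ) (P : PS n) (s : ℕ → ℝ) (u : Fin d → Ec n → ℂ)
    (b : Fin d → ℕ → Ec n → ℂ) (ρ : ℝ), DT U δ h P s u b c C A M ρ K → ∀ z ∈ Om U δ,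
    ∀ ζ ∈ Om U δ, ∀ l m J : ℕ, ek l ≤ δ ζ → (∀ j, j < l → δ ζ < ek j) → ek m ≤ δ z →
    (∀ j, j < m → δ z < ek j) →
    ∑ j ∈ Finset.range J, th (ek j) (δ ζ) * (∑ i, (Lk U δ h c (u i) (b i) j z -
      Lk U δ h c (u i) (b i) j ζ)).re ≤
      K' - ρ / 2 * ∑ j ∈ Finset.Ico l (min m J), Jv b j z +
        K' * ∑ j ∈ Finset.Ico l (min m J), SS P s δ c j z := by
  obtain ⟨K₀, hK₀, hSH⟩ := DT_SH n c C A
  obtain ⟨K₂, hK₂, hLk⟩ := Lk_le hn c C M K K₀
  obtain ⟨K₃, hK₃, hdr⟩ := drift hn d c C A M K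
  refine ⟨2 * (d * (K₂ * (4 / |c|) ^ (1 / 2 : ℝ))) + 8 * (d * K₂) + K₃, ?_, ?_⟩
  · have h1 : 0 ≤ 2 * (d * (K₂ * (4 / |c|) ^ (1 / 2 : ℝ))) := by positivity
    have h2 : 0 ≤ 8 * (d * K₂) := by positivity
    linarith
  intro U δ h P s u b ρ hT z hz ζ hζ l m J hl hl' hm hm'
  have hc := hT.cd.pos.1
  rw [abs_of_pos hc]
  have hS := hSH d U δ h P s u b M ρ K hT
  set Q : ℝ := (4 / c) ^ (1 / 2 : ℝ) with hQ
  have hQ0 : 0 ≤ Q := by positivity
  have hK₂0 : 0 ≤ K₂ := by linarith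
  have hSS0 : ∀ j, 0 ≤ SS P s δ c j z := fun j => hS.nn j z (Om_sub_Dk hT.cd j hz)
  have hJv0 : ∀ j, 0 ≤ Jv b j z := fun j => Finset.sum_nonneg fun i _ => norm_nonneg _
  -- the bound of the real parts
  have hL : ∀ w ∈ Om U δ, ∀ j, |(∑ i, Lk U δ h c (u i) (b i) j w).re| ≤
      d * (K₂ * (ek j / dk δ c j w) ^ (1 / 2 : ℝ)) := by
    intro w hw j
    refine (Complex.abs_re_le_norm _).trans ((norm_sum_le _ _).trans ?_)
    calc ∑ i : Fin d, ‖Lk U δ h c (u i) (b i) j w‖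
        ≤ ∑ _i : Fin d, K₂ * (ek j / dk δ c j w) ^ (1 / 2 : ℝ) := by
          refine Finset.sum_le_sum fun i _ => ?_
          exact hLk U δ h (u i) (SS P s δ c) (b i) ρ hT.cd (hT.hol i) (hT.bd i) hS (hT.bl i) j w
            (S3_mem hc hw j)
      _ = _ := by rw [Finset.sum_const, Finset.card_univ, Fintype.card_fin, nsmul_eq_mul]
  have hL1 : ∀ w ∈ Om U δ, ∀ j, |(∑ i, Lk U δ h c (u i) (b i) j w).re| ≤ d * (K₂ * Q) := by
    intro w hw j
    refine (hL w hw j).trans ?_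
    obtain ⟨r1, r2, _⟩ := S3_ratio hc hw.2 j
    exact mul_le_mul_of_nonneg_left (mul_le_mul_of_nonneg_left
      (Real.rpow_le_rpow r1.le r2 (by norm_num)) hK₂0) (Nat.cast_nonneg _)
  have hL2 : ∀ w ∈ Om U δ, ∀ p j, ek p ≤ δ w → p ≤ j →
      |(∑ i, Lk U δ h c (u i) (b i) j w).re| ≤
        d * K₂ * ((1 / 2 : ℝ) ^ (j - p)) ^ (1 / 2 : ℝ) := by
    intro w hw p j hp hpj
    refine (hL w hw j).trans ?_
    obtain ⟨r1, _, r3⟩ := S3_ratio hc hw.2 j
    rw [mul_assoc]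
    exact mul_le_mul_of_nonneg_left (mul_le_mul_of_nonneg_left
      (Real.rpow_le_rpow r1.le (r3.trans (S3_ekdiv hpj hp)) (by norm_num)) hK₂0)
      (Nat.cast_nonneg _)
  set a : ℕ → ℝ := fun j => (∑ i, Lk U δ h c (u i) (b i) j z).re with ha
  set a' : ℕ → ℝ := fun j => (∑ i, Lk U δ h c (u i) (b i) j ζ).re with ha'
  have hterm : ∀ j ∈ Finset.range J, th (ek j) (δ ζ) * (∑ i, (Lk U δ h c (u i) (b i) j z -
      Lk U δ h c (u i) (b i) j ζ)).re ≤
      (if j + 1 = l then 2 * (d * (K₂ * Q)) else 0) +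
      (if l ≤ j then d * K₂ * ((1 / 2 : ℝ) ^ (j - l)) ^ (1 / 2 : ℝ) else 0) +
      (if m ≤ j then d * K₂ * ((1 / 2 : ℝ) ^ (j - m)) ^ (1 / 2 : ℝ) else 0) +
      (if j ∈ Finset.Ico l (min m J) then a j else 0) := by
    intro j hj
    have hjJ : j < J := Finset.mem_range.1 hj
    obtain ⟨t0, t1, t2, t3⟩ := S3_th hl hl' j
    have e : (∑ i, (Lk U δ h c (u i) (b i) j z - Lk U δ h c (u i) (b i) j ζ)).re =
        a j - a' j := by
      rw [Finset.sum_sub_distrib, Complex.sub_re]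
    rw [e]
    have g1 : 0 ≤ (if j + 1 = l then 2 * (d * (K₂ * Q)) else 0) := by
      split_ifs <;> positivity
    have g2 : 0 ≤ (if l ≤ j then d * K₂ * ((1 / 2 : ℝ) ^ (j - l)) ^ (1 / 2 : ℝ) else 0) := by
      split_ifs <;> positivity
    have g3 : 0 ≤ (if m ≤ j then d * K₂ * ((1 / 2 : ℝ) ^ (j - m)) ^ (1 / 2 : ℝ) else 0) := by
      split_ifs <;> positivity
    have b1 := abs_le.1 (hL1 z hz j)
    have b2 := abs_le.1 (hL1 ζ hζ j)
    rcases lt_trichotomy (j + 1) l with h1 | h1 | h1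
    · rw [t3 h1, zero_mul]
      have h4 : j ∉ Finset.Ico l (min m J) := by
        rw [Finset.mem_Ico]; omega
      rw [if_neg h4]
      linarith
    · have h4 : j ∉ Finset.Ico l (min m J) := by
        rw [Finset.mem_Ico]; omega
      rw [if_neg h4, if_pos h1]
      have hab : a j - a' j ≤ 2 * (d * (K₂ * Q)) := by
        change -(d * (K₂ * Q)) ≤ a j ∧ a j ≤ d * (K₂ * Q) at b1
        change -(d * (K₂ * Q)) ≤ a' j ∧ a' j ≤ d * (K₂ * Q) at b2
        linarith [b1.2, b2.1]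
      have h5 : th (ek j) (δ ζ) * (a j - a' j) ≤ 2 * (d * (K₂ * Q)) := by
        have hB : 0 ≤ 2 * (d * (K₂ * Q)) := by positivity
        calc th (ek j) (δ ζ) * (a j - a' j) ≤ th (ek j) (δ ζ) * (2 * (d * (K₂ * Q))) :=
              mul_le_mul_of_nonneg_left hab t0
          _ ≤ 1 * (2 * (d * (K₂ * Q))) := mul_le_mul_of_nonneg_right t1 hB
          _ = _ := one_mul _
      linarith
    · have hlj : l ≤ j := by omega
      rw [t2 hlj, one_mul, if_pos hlj]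
      have c2 := (abs_le.1 (hL2 ζ hζ l j hl hlj)).1
      change -(d * K₂ * ((1 / 2 : ℝ) ^ (j - l)) ^ (1 / 2 : ℝ)) ≤ a' j at c2
      by_cases hmj : m ≤ j
      · have h4 : j ∉ Finset.Ico l (min m J) := by
          rw [Finset.mem_Ico]; omega
        rw [if_neg h4, if_pos hmj]
        have c1 := (abs_le.1 (hL2 z hz m j hm hmj)).2
        change a j ≤ d * K₂ * ((1 / 2 : ℝ) ^ (j - m)) ^ (1 / 2 : ℝ) at c1
        linarith
      · have h4 : j ∈ Finset.Ico l (min m J) := by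
          rw [Finset.mem_Ico]
          refine ⟨hlj, ?_⟩
          rw [lt_min_iff]
          omega
        rw [if_pos h4]
        linarith
  have hsum := Finset.sum_le_sum hterm
  refine hsum.trans ?_
  rw [Finset.sum_add_distrib, Finset.sum_add_distrib, Finset.sum_add_distrib]
  have hdK : (0 : ℝ) ≤ d * K₂ := by positivity
  have s1 : ∑ j ∈ Finset.range J, (if j + 1 = l then 2 * (d * (K₂ * Q)) else 0) ≤
      2 * (d * (K₂ * Q)) := by
    have hB : 0 ≤ 2 * (d * (K₂ * Q)) := by positivity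
    rcases Nat.eq_zero_or_pos l with h0 | h0
    · refine (Finset.sum_eq_zero fun j _ => ?_).trans_le hB
      rw [if_neg (by omega)]
    · have : ∀ j, (if j + 1 = l then 2 * (d * (K₂ * Q)) else 0) =
          (if l - 1 = j then 2 * (d * (K₂ * Q)) else 0) := by
        intro j
        by_cases h1 : j + 1 = l
        · rw [if_pos h1, if_pos (by omega)]
        · rw [if_neg h1, if_neg (by omega)]
      simp_rw [this]
      rw [Finset.sum_ite_eq]
      split_ifs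
      · exact le_rfl
      · exact hB
  have s2 := S3_geo l J (d * K₂) hdK
  have s3 := S3_geo m J (d * K₂) hdK
  have s4 : ∑ j ∈ Finset.range J, (if j ∈ Finset.Ico l (min m J) then a j else 0) =
      ∑ j ∈ Finset.Ico l (min m J), a j := by
    rw [← Finset.sum_filter]
    refine Finset.sum_congr ?_ fun _ _ => rfl
    ext j
    simp only [Finset.mem_filter, Finset.mem_range, Finset.mem_Ico, lt_min_iff]
    tauto
  rw [s4]
  have hSSs : 0 ≤ ∑ j ∈ Finset.Ico l (min m J), SS P s δ c j z :=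
    Finset.sum_nonneg fun j _ => hSS0 j
  have s5 : ∑ j ∈ Finset.Ico l (min m J), a j ≤ K₃ -
      ρ / 2 * ∑ j ∈ Finset.Ico l (min m J), Jv b j z +
        K₃ * ∑ j ∈ Finset.Ico l (min m J), SS P s δ c j z := by
    by_cases hlm : l ≤ min m J
    · have h1 := hdr U δ h P s u b ρ hT z hz l (min m J) hlm
      rw [← Finset.mul_sum] at h1
      change 2 * ∑ j ∈ Finset.Ico l (min m J), a j ≤ _ at h1
      have h2 : 0 ≤ K₃ * ∑ j ∈ Finset.Ico l (min m J), SS P s δ c j z :=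
        mul_nonneg (by linarith) hSSs
      linarith
    · have h1 : Finset.Ico l (min m J) = ∅ := Finset.Ico_eq_empty (by omega)
      rw [h1, Finset.sum_empty, Finset.sum_empty, Finset.sum_empty]
      linarith
  have h6 : K₃ * ∑ j ∈ Finset.Ico l (min m J), SS P s δ c j z ≤
      (2 * (d * (K₂ * Q)) + 8 * (d * K₂) + K₃) *
        ∑ j ∈ Finset.Ico l (min m J), SS P s δ c j z := by
    refine mul_le_mul_of_nonneg_right ?_ hSSs
    have : 0 ≤ 2 * (d * (K₂ * Q)) := by positivity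
    linarith
  linarith

/-- The exponential. `κ` is fixed by the constants, `κ'` is any sufficiently small number.
PROOF. Notation `t = ‖v(z, ζ)‖`, `σ = δ ζ`, `Σ` = sums over `Ico l (min m J)`. `Qv_ex` with the coefficient `2 κ' / ρ` of the second part, `‖exp E‖ = exp (Re E)`. First part (`exp_block`, constant `K₁`): at most `κ (K₁ (1 + log (2 t / σ)) - (1 / K₁) TT P z (σ / K₁))`. Second part
(`exp_L`, constant `K₂`): at most `(2 κ' / ρ) K₂ - κ' Σ Jv + (2 κ' / ρ) K₂ Σ SS`. `SS_sum` with `c₂ = 1 / K₁` (constant `K₃`), as `ek l ≤ σ` and `TT` is monotone: `Σ SS ≤ K₃ (1 + TT P z (σ / K₁))` (if `l ≤ min m J`; otherwise the sums are empty). Take `κ = 1 / K₁` and `κ₀` with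
`κ₀ (2 K₂ / ρ + 1) K₃ ≤ κ / K₁` and `2 κ₀ / ρ ≤ 1`. Then `Re E ≤ K' + log (2 t / σ) - κ' Σ Jv - κ' Σ SS`. -/
theorem exp_le (hn : 2 ≤ n) (d : ℕ) (c C A M K ρ : ℝ) (hρ : 0 < ρ) : ∃ κ κ₀ K' : ℝ, 0 < κ ∧ κ ≤ 1 ∧
    0 < κ₀ ∧ 2 * κ₀ / ρ ≤ 1 ∧ 1 ≤ K' ∧ ∀ κ' : ℝ, 0 < κ' → κ' ≤ κ₀ → ∀ (U : Set (Ec n))
    (δ : Ec n → ℝ) (h : Ec n → Ec n → Fin n → ℂ) (P : PS n) (s : ℕ → ℝ) (u : Fin d → Ec n → ℂ)
    (b : Fin d → ℕ → Ec n → ℂ) (Λ : Fin d → ℕ → Ec n → Ec n → Fin n → ℂ) (K₁ : ℝ),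
    DT U δ h P s u b c C A M ρ K → HL U δ h c u b Λ K₁ → ∀ z ∈ Om U δ,
    ∀ ζ ∈ Om U δ, ∀ l m J : ℕ, ek l ≤ δ ζ → (∀ j, j < l → δ ζ < ek j) → ek m ≤ δ z →
    (∀ j, j < m → δ z < ek j) →
    ‖Complex.exp (wEx (Qv P δ Λ J κ (2 * κ' / ρ)) z ζ)‖ ≤ K' * (‖vv δ h z ζ‖ / δ ζ) *
      Real.exp (-(κ' * ∑ j ∈ Finset.Ico l (min m J), (Jv b j z + SS P s δ c j z))) := by
  obtain ⟨K₁, hK₁, hB⟩ := exp_block n c C A
  obtain ⟨K₂, hK₂, hL⟩ := exp_L hn d c C A M K
  have hK₁0 : 0 < K₁ := by linarith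
  obtain ⟨K₃, hK₃, hS⟩ := SS_sum n c C A (1 / K₁) (by positivity)
    ((div_le_one hK₁0).2 hK₁)
  have hK₂0 : 0 < K₂ := by linarith
  have hK₃0 : 0 < K₃ := by linarith
  have hD : 0 < (2 * K₂ / ρ + 1) * K₃ := by positivity
  refine ⟨1 / K₁, min (1 / K₁ / K₁ / ((2 * K₂ / ρ + 1) * K₃)) (ρ / 2),
    2 * Real.exp (1 + K₂ + 1), by positivity, (div_le_one hK₁0).2 hK₁, ?_, ?_, ?_, ?_⟩
  · exact lt_min (by positivity) (by positivity)
  · rw [div_le_one hρ]
    have := min_le_right (1 / K₁ / K₁ / ((2 * K₂ / ρ + 1) * K₃)) (ρ / 2)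
    linarith
  · have : 1 ≤ Real.exp (1 + K₂ + 1) := Real.one_le_exp (by linarith)
    linarith
  intro κ' hκ' hκ₀ U δ h P s u b Λ Kq hT hΛ z hz ζ hζ l m J hl hl' hm hm'
  have hκa : κ' ≤ 1 / K₁ / K₁ / ((2 * K₂ / ρ + 1) * K₃) := hκ₀.trans (min_le_left _ _)
  have hκb : κ' ≤ ρ / 2 := hκ₀.trans (min_le_right _ _)
  have h1 := hB U δ h P hT.cd hT.pa z hz ζ hζ
  have h2 := hL U δ h P s u b ρ hT z hz ζ hζ l m J hl hl' hm hm'
  have hgeo := hT.cd.geo0
  obtain ⟨_, v2, _, v4⟩ := v_lb hgeo hz hζ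
  have hσ := hζ.2
  set t : ℝ := ‖vv δ h z ζ‖ with ht
  set sJ : ℝ := ∑ j ∈ Finset.Ico l (min m J), Jv b j z with hsJ
  set sS : ℝ := ∑ j ∈ Finset.Ico l (min m J), SS P s δ c j z with hsS
  set T : ℝ := TT P z (δ ζ / K₁) with hTT
  have hT0 : 0 ≤ T := (TT_mono hT.pa z (le_refl (δ ζ / K₁))).1
  have hS0 : sS ≤ K₃ * (1 + T) := by
    by_cases hlm : l ≤ min m J
    · have h3 := hS U δ h P s hT.cd hT.pa hT.sl z hz l (min m J) hlm
        (fun j hj => (hm' j (lt_of_lt_of_le hj (min_le_left _ _))).le)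
      refine h3.trans (mul_le_mul_of_nonneg_left ?_ hK₃0.le)
      have h4 : 1 / K₁ * ek l ≤ δ ζ / K₁ := by
        rw [one_div, inv_mul_eq_div]
        exact div_le_div_of_nonneg_right hl hK₁0.le
      have := (TT_mono hT.pa z h4).2
      linarith
    · have h3 : Finset.Ico l (min m J) = ∅ := Finset.Ico_eq_empty (by omega)
      rw [hsS, h3, Finset.sum_empty]
      positivity
  have hE : (wEx (Qv P δ Λ J (1 / K₁) (2 * κ' / ρ)) z ζ).re =
      1 / K₁ * (∑ x, P.w x * th (P.N x) (δ ζ) * (((P.N x : ℂ) / P.V x ζ).re -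
        ((P.N x : ℂ) / P.V x z).re)) + 2 * κ' / ρ *
      ∑ j ∈ Finset.range J, th (ek j) (δ ζ) * (∑ i, (Lk U δ h c (u i) (b i) j z -
      Lk U δ h c (u i) (b i) j ζ)).re := by
    rw [Qv_ex hT hΛ J (1 / K₁) (2 * κ' / ρ) hz hζ, Complex.add_re]
    congr 1
    · have e1 : ((1 / K₁ : ℝ) : ℂ) * ∑ x, (P.w x : ℂ) * (th (P.N x) (δ ζ) : ℂ) *
          ((P.N x : ℂ) / P.V x ζ - (P.N x : ℂ) / P.V x z) =
          ((1 / K₁ : ℝ) : ℂ) * ∑ x, ((P.w x * th (P.N x) (δ ζ) : ℝ) : ℂ) *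
          ((P.N x : ℂ) / P.V x ζ - (P.N x : ℂ) / P.V x z) := by
        congr 1
        refine Finset.sum_congr rfl fun x _ => ?_
        push_cast
        ring
      rw [e1, Complex.re_ofReal_mul, Complex.re_sum]
      congr 1
      refine Finset.sum_congr rfl fun x _ => ?_
      rw [Complex.re_ofReal_mul, Complex.sub_re]
    · rw [Complex.re_ofReal_mul, Complex.re_sum]
      congr 1
      refine Finset.sum_congr rfl fun j _ => ?_
      rw [Complex.re_ofReal_mul]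
  rw [Complex.norm_exp, hE]
  have hq : 0 < 2 * κ' / ρ := by positivity
  have hq1 : 2 * κ' / ρ ≤ 1 := by
    rw [div_le_one hρ]; linarith
  have p1 : 1 / K₁ * (∑ x, P.w x * th (P.N x) (δ ζ) * (((P.N x : ℂ) / P.V x ζ).re -
        ((P.N x : ℂ) / P.V x z).re)) ≤ 1 + Real.log (2 * t / δ ζ) - 1 / K₁ / K₁ * T := by
    refine (mul_le_mul_of_nonneg_left h1 (by positivity)).trans (le_of_eq ?_)
    field_simp
  have p2 : 2 * κ' / ρ * ∑ j ∈ Finset.range J, th (ek j) (δ ζ) *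
      (∑ i, (Lk U δ h c (u i) (b i) j z - Lk U δ h c (u i) (b i) j ζ)).re ≤
      K₂ - κ' * sJ + 2 * κ' / ρ * K₂ * sS := by
    refine (mul_le_mul_of_nonneg_left h2 hq.le).trans ?_
    have e1 : 2 * κ' / ρ * (K₂ - ρ / 2 * sJ + K₂ * sS) =
        2 * κ' / ρ * K₂ - κ' * sJ + 2 * κ' / ρ * K₂ * sS := by
      field_simp
    rw [e1]
    have : 2 * κ' / ρ * K₂ ≤ 1 * K₂ := mul_le_mul_of_nonneg_right hq1 hK₂0.le
    linarith
  have p3 : κ' * ((2 * K₂ / ρ + 1) * K₃) ≤ 1 / K₁ / K₁ := by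
    rwa [le_div_iff₀ hD] at hκa
  have p4 : (2 * κ' / ρ * K₂ + κ') * sS ≤ 1 / K₁ / K₁ * (1 + T) := by
    have e1 : (2 * κ' / ρ * K₂ + κ') = κ' * (2 * K₂ / ρ + 1) := by ring
    rw [e1]
    calc κ' * (2 * K₂ / ρ + 1) * sS ≤ κ' * (2 * K₂ / ρ + 1) * (K₃ * (1 + T)) :=
          mul_le_mul_of_nonneg_left hS0 (by positivity)
      _ = κ' * ((2 * K₂ / ρ + 1) * K₃) * (1 + T) := by ring
      _ ≤ _ := mul_le_mul_of_nonneg_right p3 (by linarith)
  have p5 : 1 / K₁ / K₁ ≤ 1 := by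
    have h3 : 1 / K₁ ≤ 1 := (div_le_one hK₁0).2 hK₁
    exact (div_le_one hK₁0).2 (h3.trans hK₁)
  have hr : 0 < 2 * t / δ ζ := by positivity
  have hfin : 1 / K₁ * (∑ x, P.w x * th (P.N x) (δ ζ) * (((P.N x : ℂ) / P.V x ζ).re -
        ((P.N x : ℂ) / P.V x z).re)) + 2 * κ' / ρ *
      ∑ j ∈ Finset.range J, th (ek j) (δ ζ) * (∑ i, (Lk U δ h c (u i) (b i) j z -
      Lk U δ h c (u i) (b i) j ζ)).re ≤
      (1 + K₂ + 1) + Real.log (2 * t / δ ζ) + -(κ' * (sJ + sS)) := by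
    have e2 : (2 * κ' / ρ * K₂ + κ') * sS = 2 * κ' / ρ * K₂ * sS + κ' * sS := by ring
    rw [e2] at p4
    have e3 : 1 / K₁ / K₁ * (1 + T) = 1 / K₁ / K₁ + 1 / K₁ / K₁ * T := by ring
    rw [e3] at p4
    have e4 : κ' * (sJ + sS) = κ' * sJ + κ' * sS := by ring
    rw [e4]
    linarith
  refine (Real.exp_le_exp.2 hfin).trans (le_of_eq ?_)
  rw [Real.exp_add, Real.exp_add, Real.exp_log hr, Finset.sum_add_distrib]
  ring

end Pool.Agent.MPca0fc2.GW
end
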