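import Pool.Agent.Lib.MP_ca0fc2_an.Mg.G035
import Pool.Agent.Lib.MP_ca0fc2_an.Mg.G029
import Pool.Agent.Lib.MP_ca0fc2_an.Mg.G058
import Pool.Agent.Lib.MP_ca0fc2_an.Defs

section

/-! The end of the descent with a general density (compare `kd_solve` in `FD/K5.lean`). -/

set_option autoImplicit false

open Metric Set MeasureTheory Filter Topology

namespace Pool.Agent.MPca0fc2.GW

open Pool.Agent.MPca0fc2.FD

variable {n : ℕ} {Y V : Type*} [NormedAddCommGroup Y] [NormedSpace ℂ Y] [NormedAddCommGroup V]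
  [NormedSpace ℂ V] [FiniteDimensional ℂ Y] [FiniteDimensional ℂ V]


private theorem K5b_GD_nonneg {U : Set (Ec n)} {δ : Ec n → ℝ} {h : Ec n → Ec n → Fin n → ℂ}
    {G : Ec n → ℝ} {A : ℝ} (hG : GD U δ h G A) : ∀ z ∈ Om U δ, 0 ≤ G z := by
  intro z hz
  have h1 := hG.lo z hz
  have h2 : 0 ≤ (δ z) ^ (1 / 4 : ℝ) := Real.rpow_nonneg hz.2.le _
  have hA : 0 < A := lt_of_lt_of_le one_pos hG.A1
  by_contra h3
  have h4 : G z < 0 := not_le.mp h3
  have h5 : A * G z < 0 := mul_neg_of_pos_of_neg hA h4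
  linarith

private theorem K5b_GD_mono {U : Set (Ec n)} {δ : Ec n → ℝ} {h : Ec n → Ec n → Fin n → ℂ}
    {G : Ec n → ℝ} {A A' : ℝ} (hG : GD U δ h G A) (hA : A ≤ A') : GD U δ h G A' := by
  have h0 := K5b_GD_nonneg hG
  refine ⟨hG.A1.trans hA, fun z hz => (hG.lo z hz).trans ?_, fun z hz => (hG.up z hz).trans hA,
    fun z hz ζ hζ => (hG.har z hz ζ hζ).trans ?_⟩
  · exact mul_le_mul_of_nonneg_right hA (h0 z hz)
  · have h1 : 0 < δ ζ := hζ.2
    have h2 : 0 < δ z := hz.2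
    have h3 : 0 ≤ (‖vv δ h z ζ‖ / δ ζ) ^ 3 := by positivity
    have h4 : 0 ≤ (max (δ ζ / δ z) (δ z / δ ζ)) ^ (3 / 8 : ℝ) :=
      Real.rpow_nonneg (le_max_of_le_left (by positivity)) _
    exact mul_le_mul_of_nonneg_right (mul_le_mul_of_nonneg_right
      (mul_le_mul_of_nonneg_right hA h3) h4) (h0 z hz)

/-- PROOF. As `kd_solve` of `FD/K5.lean` (copy its proof). `D₂ = δ - (n + 1) ς`: `Geo_shift`, `GD_shift` (`8 A`), `GX_shift` (`512 A`; use the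
constant `512 A` for both, `GD` and `GX` are monotone in `A` as `G ≥ 0`), `WQ_shift` with `W = Om U δ ⊇ Kc U D₂` (`Om_shift` with `s = 0`: `Om U (fun z => δ z - 0) = Om U δ`).
`descG_one`, `one_form`, `Bg_shift`, `Bg_small`, `near_holG` on `D₂`, `proj_near` on `D₃`. -/
theorem kg_solve (hn : 2 ≤ n) (K : QT.Car Y V) (c C A M C₁ G₁ : ℝ) :
    ∃ B : ℝ, 0 ≤ B ∧ ∀ (U : Set (Ec n)) (δ : Ec n → ℝ) (h : Ec n → Ec n → Fin n → ℂ)
      (G : Ec n → ℝ) (Q R : Ec n → Ec n → Fin n → ℂ) (F : Ec n → Y →L[ℂ] ℂ) (σ : Ec n → Y),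
      KG U δ h G Q R F σ c C A M C₁ G₁ →
      ∀ ς : ℝ, 0 < ς → (n + 3) * ς ≤ c / 2 → ∀ e : ℝ, 0 < e → ∃ H : Ec n → V,
        DifferentiableOn ℂ H (Om U (fun z => δ z - (n + 3) * ς)) ∧
        (∀ z ∈ Om U (fun z => δ z - (n + 3) * ς), ‖H z‖ ≤ B) ∧
        ∀ z ∈ Om U (fun z => δ z - (n + 3) * ς), ‖K.c (F z) (H z) - K.Ω‖ ≤ e := by
  obtain ⟨B₁, hB₁, hdesc⟩ := descG_one hn K c C A M C₁ G₁
  obtain ⟨C', hC', hnear⟩ := near_holG (V := V) hn (c / 2) C (512 * A)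
  obtain ⟨Cb, hCb, hsmall⟩ := Bg_small (V := V) n (c / 2) C (512 * A) 1 le_rfl
  have hX0 : 0 ≤ ‖K.a‖ * |C₁| * ‖K.Ω‖ := by positivity
  have hX1 : 0 ≤ ‖K.c‖ * |M| * (C' * (B₁ + 1)) := by positivity
  refine ⟨‖K.a‖ * |C₁| * ‖K.Ω‖ + ‖K.c‖ * |M| * (C' * (B₁ + 1)) + 1, by linarith, ?_⟩
  intro U δ h G Q R F σ hKD ς hς hςc e he
  have hg := hKD.geo
  have hM : |M| = M := abs_of_nonneg hKD.M0
  have hC₁ : |C₁| = C₁ := abs_of_nonneg hKD.C0
  have hc0 : 0 < c := hg.c0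
  have hn2 : (2 : ℝ) ≤ n := by exact_mod_cast hn
  have hnς : 0 < (n : ℝ) * ς := mul_pos (by linarith) hς
  have e3 : ((n : ℝ) + 3) * ς = n * ς + 3 * ς := by ring
  rw [e3] at hςc
  obtain ⟨Cs1, hCs1, hone⟩ := one_form (V := V) hn c C ς hς
  obtain ⟨Cs2, hCs2, hproj⟩ := proj_near (V := V) hn (c / 2) C ς hς
  have hKM : 0 ≤ ‖K.c‖ * M := mul_nonneg (ContinuousLinearMap.opNorm_nonneg K.c) hKD.M0
  -- the small constants
  obtain ⟨e₂, he₂0, he₂1, he₂e⟩ : ∃ e₂ : ℝ, 0 < e₂ ∧ e₂ ≤ 1 ∧ ‖K.c‖ * M * e₂ ≤ e := by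
    refine ⟨min 1 (e / (‖K.c‖ * M + 1)), lt_min one_pos (by positivity), min_le_left _ _, ?_⟩
    have h1 : min 1 (e / (‖K.c‖ * M + 1)) ≤ e / (‖K.c‖ * M + 1) := min_le_right _ _
    have h2 : ‖K.c‖ * M * min 1 (e / (‖K.c‖ * M + 1)) ≤ ‖K.c‖ * M * (e / (‖K.c‖ * M + 1)) :=
      mul_le_mul_of_nonneg_left h1 hKM
    refine h2.trans ?_
    rw [mul_div_assoc', div_le_iff₀ (by linarith)]
    linarith
  obtain ⟨e', he'0, he'1, he'2⟩ : ∃ e' : ℝ, 0 < e' ∧ Cb * e' ≤ 1 ∧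
      Cs2 * (‖K.c‖ * M * e') ≤ e₂ / 2 := by
    have hD : 0 < 2 * (Cs2 * (‖K.c‖ * M) + 1) := by positivity
    refine ⟨min (1 / Cb) (e₂ / (2 * (Cs2 * (‖K.c‖ * M) + 1))),
      lt_min (by positivity) (by positivity), ?_, ?_⟩
    · refine (mul_le_mul_of_nonneg_left (min_le_left _ _) hCb.le).trans ?_
      rw [mul_one_div, div_self hCb.ne']
    · have h1 : min (1 / Cb) (e₂ / (2 * (Cs2 * (‖K.c‖ * M) + 1))) ≤
        e₂ / (2 * (Cs2 * (‖K.c‖ * M) + 1)) := min_le_right _ _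
      have h2 : Cs2 * (‖K.c‖ * M * min (1 / Cb) (e₂ / (2 * (Cs2 * (‖K.c‖ * M) + 1)))) ≤
          Cs2 * (‖K.c‖ * M * (e₂ / (2 * (Cs2 * (‖K.c‖ * M) + 1)))) :=
        mul_le_mul_of_nonneg_left (mul_le_mul_of_nonneg_left h1 hKM) hCs2.le
      refine h2.trans ?_
      have h3 : Cs2 * (‖K.c‖ * M * (e₂ / (2 * (Cs2 * (‖K.c‖ * M) + 1)))) =
          (Cs2 * (‖K.c‖ * M) * e₂) / (2 * (Cs2 * (‖K.c‖ * M) + 1)) := by ring
      rw [h3, div_le_div_iff₀ hD (by norm_num : (0 : ℝ) < 2)]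
      have h4 : 0 ≤ Cs2 * (‖K.c‖ * M) := by positivity
      nlinarith
  have he₁0 : 0 < e' / (2 * Cs1) := by positivity
  obtain ⟨W, Ψ, hW, hKW, hWO, hA, hΨ, hBd, hcΨ, hdΨ⟩ :=
    hdesc U δ h G Q R F σ hKD ς hς (by linarith) (e' / (2 * Cs1)) he₁0
  obtain ⟨N, hN, hNΨ⟩ := hone U δ h hg (n * ς) hnς (by linarith) W Ψ hW hKW hA hΨ (e' / 2)
    (e' / (2 * Cs1)) (by linarith) (fun z hz I => hdΨ z hz I) he₁0.le
  have he'' : e' / 2 + Cs1 * (e' / (2 * Cs1)) = e' := by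
    field_simp
    ring
  rw [he''] at hNΨ
  -- the domains
  have hg1 : Geo U (fun z => δ z - n * ς) h (c / 2) C := Geo_shift hg hnς.le (by linarith)
  have hg2 : Geo U (fun z => δ z - (n * ς + ς)) h (c / 2) C :=
    Geo_shift hg (by linarith) (by linarith)
  have hg3 : Geo U (fun z => δ z - (n * ς + 2 * ς)) h (c / 2) C :=
    Geo_shift hg (by linarith) (by linarith)
  have hG0 : ∀ z ∈ Om U δ, 0 ≤ G z := K5b_GD_nonneg hKD.gd
  have hA0 : 0 ≤ A := zero_le_one.trans hKD.gd.A1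
  have hgd2' : GD U (fun z => δ z - (n * ς + ς)) h (Gs G δ (n * ς + ς)) (8 * A) :=
    GD_shift hg hKD.gd (by linarith) (by linarith)
  have hG2 : ∀ z ∈ Om U (fun z => δ z - (n * ς + ς)), 0 ≤ Gs G δ (n * ς + ς) z :=
    K5b_GD_nonneg hgd2'
  have hgd2 : GD U (fun z => δ z - (n * ς + ς)) h (Gs G δ (n * ς + ς)) (512 * A) :=
    K5b_GD_mono hgd2' (by linarith)
  have hgx2 : GX U (fun z => δ z - (n * ς + ς)) h (Gs G δ (n * ς + ς)) Q R C (512 * A) :=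
    GX_shift hg hKD.gd hKD.gx (by linarith) (by linarith)
  have hwq2 : WQ (Om U δ) (fun z => δ z - (n * ς + ς)) Q R := WQ_shift hKD.wq _
  have hO0 := Om_open hg
  have hO1 := Om_open hg1
  have hO2 := Om_open hg2
  have hO3 := Om_open hg3
  have hK2 : Kc U (fun z => δ z - (n * ς + ς)) ⊆ Om U (fun z => δ z - n * ς) :=
    Om_shift (by linarith)
  have hK3 : Kc U (fun z => δ z - (n * ς + 2 * ς)) ⊆ Om U (fun z => δ z - (n * ς + ς)) :=
    Om_shift (by linarith)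
  have s10 : Om U (fun z => δ z - n * ς) ⊆ Om U δ := by
    rintro z ⟨hz, h0⟩
    have h1 : 0 < δ z - n * ς := h0
    exact ⟨hz, by linarith⟩
  have s21 : Om U (fun z => δ z - (n * ς + ς)) ⊆ Om U (fun z => δ z - n * ς) := by
    rintro z ⟨hz, h0⟩
    have h1 : 0 < δ z - (n * ς + ς) := h0
    exact ⟨hz, show 0 < δ z - n * ς by linarith⟩
  have s32 : Om U (fun z => δ z - (n * ς + 2 * ς)) ⊆ Om U (fun z => δ z - (n * ς + ς)) := by
    rintro z ⟨hz, h0⟩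
    have h1 : 0 < δ z - (n * ς + 2 * ς) := h0
    exact ⟨hz, show 0 < δ z - (n * ς + ς) by linarith⟩
  have s20 := s21.trans s10
  -- the bound of the derivative of `N`
  have hbd1 : Bg U (fun z => δ z - (n * ς + ς)) h (Gs G δ (n * ς + ς)) B₁ Ψ :=
    Bg_shift hG0 hnς.le (by linarith) hB₁ le_rfl hBd
  have hbd2 : Bg U (fun z => δ z - (n * ς + ς)) h (Gs G δ (n * ς + ς)) (Cb * e')
      (fun (I : Fin 1 → Fin n) z => db N z (ee (I 0)) - Ψ I z) :=
    hsmall U _ h _ hg2 hgd2 _ e' he'0.le fun I z hz => hNΨ z hz I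
  have hbd3 := Bg_add hbd1 (Bg_mono hG2 he'1 hbd2)
  have hbd4 : Bg U (fun z => δ z - (n * ς + ς)) h (Gs G δ (n * ς + ς)) (B₁ + 1)
      (fun (I : Fin 1 → Fin n) z => db N z (ee (I 0))) := by
    have h1 : (fun (I : Fin 1 → Fin n) (z : Ec n) => Ψ I z + (db N z (ee (I 0)) - Ψ I z)) =
        fun I z => db N z (ee (I 0)) := by
      funext I z
      abel
    rw [h1] at hbd3
    exact hbd3
  have hdN : ∀ ζ ∈ Om U (fun z => δ z - (n * ς + ς)), ∀ X, ‖db N ζ X‖ ≤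
      (B₁ + 1) * Gs G δ (n * ς + ς) ζ *
        gau (fun z => δ z - (n * ς + ς)) h ζ X := by
    intro ζ hζ X
    have h1 := hbd4 ζ hζ (fun _ => X)
    rw [K5_ev_one, Fin.prod_univ_succ, Finset.univ_eq_empty, Finset.prod_empty, mul_one] at h1
    exact h1
  obtain ⟨H₁, hH₁, hNH⟩ := hnear U (Om U δ) _ h _ Q R hg2 hgd2 hgx2 hwq2 (fun z hz => hz.1)
    (hK2.trans s10) (Om U (fun z => δ z - n * ς)) N (B₁ + 1) (by linarith) hO1 hK2 hN hdN
  -- the function `H₀`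
  have hF1 : ContDiffOn ℝ 1 F (Om U δ) := (hol_c2 hO0 hKD.F_hol).of_le (by norm_num)
  have hH1c : ContDiffOn ℝ 1 H₁ (Om U (fun z => δ z - (n * ς + ς))) :=
    (hol_c2 hO2 hH₁).of_le (by norm_num)
  have hN2 : ContDiffOn ℝ 1 N (Om U (fun z => δ z - (n * ς + ς))) := hN.mono s21
  have hNH1 : ContDiffOn ℝ 1 (fun z => N z - H₁ z) (Om U (fun z => δ z - (n * ς + ς))) :=
    hN2.sub hH1c
  have hUc : ContDiffOn ℝ 1 (UU K σ 0 Fin.elim0) (Om U (fun z => δ z - (n * ς + ς))) :=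
    (UU_c1 K hO0 hKD.σ_c2 0 Fin.elim0).mono s20
  have hcc : ContDiffOn ℝ 1 (fun z => K.c (F z) (N z - H₁ z))
      (Om U (fun z => δ z - (n * ς + ς))) := K5_c1 K (hF1.mono s20) hNH1
  have hH0 : ContDiffOn ℝ 1 (fun z => UU K σ 0 Fin.elim0 z - K.c (F z) (N z - H₁ z))
      (Om U (fun z => δ z - (n * ς + ς))) := hUc.sub hcc
  have hdH0 : ∀ z ∈ Om U (fun z => δ z - (n * ς + ς)), ∀ k,
      ‖db (fun z => UU K σ 0 Fin.elim0 z - K.c (F z) (N z - H₁ z)) z (ee k)‖ ≤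
        ‖K.c‖ * M * e' := by
    intro z hz k
    have hnh := hO2.mem_nhds hz
    have hz0 := s20 hz
    have d1 : DifferentiableAt ℝ (UU K σ 0 Fin.elim0) z :=
      (hUc.differentiableOn one_ne_zero).differentiableAt hnh
    have d2 : DifferentiableAt ℝ (fun z => K.c (F z) (N z - H₁ z)) z :=
      (hcc.differentiableOn one_ne_zero).differentiableAt hnh
    have d3 : DifferentiableAt ℝ (fun z => N z - H₁ z) z :=
      (hNH1.differentiableOn one_ne_zero).differentiableAt hnh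
    have d4 : DifferentiableAt ℝ N z := (hN2.differentiableOn one_ne_zero).differentiableAt hnh
    have d5 : DifferentiableAt ℂ H₁ z := hH₁.differentiableAt hnh
    have d5' : DifferentiableAt ℝ H₁ z :=
      (hH1c.differentiableOn one_ne_zero).differentiableAt hnh
    have d6 : DifferentiableAt ℂ F z := hKD.F_hol.differentiableAt (hO0.mem_nhds hz0)
    have d7 : ContDiffAt ℝ 2 σ z := hKD.σ_c2.contDiffAt (hO0.mem_nhds hz0)
    rw [K5_db_sub d1 d2, db_c K d6 d3, K5_db_sub d4 d5', db_hol d5, sub_zero]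
    have h1 := koszul_eq K d7 (hKD.one z hz0) (hKD.zero z hz0) 0 (fun _ => k)
    rw [K5_dbf_zero (UU K σ 0) (UU K σ 0 Fin.elim0)
      (fun J => by rw [Subsingleton.elim J Fin.elim0])] at h1
    rw [h1, ← hcΨ z (s21 hz) (fun _ => k), ← map_sub]
    refine (K5_cnorm K (hKD.F_le z hz0) _).trans ?_
    refine mul_le_mul_of_nonneg_left ?_ hKM
    rw [norm_sub_rev]
    exact hNΨ z hz (fun _ => k)
  obtain ⟨H, hH, hHH⟩ := hproj U _ h hg3 (Om U (fun z => δ z - (n * ς + ς)))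
    (fun z => UU K σ 0 Fin.elim0 z - K.c (F z) (N z - H₁ z)) hO2 hK3 hH0 (e₂ / 2)
    (‖K.c‖ * M * e') (by linarith) (mul_nonneg hKM he'0.le) (fun z hz k => hdH0 z (s32 hz) k)
  have s43 : Om U (fun z => δ z - (n + 3) * ς) ⊆ Om U (fun z => δ z - (n * ς + 2 * ς)) := by
    rintro z ⟨hz, h0⟩
    have h1 : 0 < δ z - (n + 3) * ς := h0
    exact ⟨hz, show 0 < δ z - (n * ς + 2 * ς) by linarith⟩
  have hclose : ∀ z ∈ Om U (fun z => δ z - (n + 3) * ς),
      ‖H z - (UU K σ 0 Fin.elim0 z - K.c (F z) (N z - H₁ z))‖ ≤ e₂ := by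
    intro z hz
    have h1 : 0 < δ z - (n + 3) * ς := hz.2
    refine (hHH z (s43 hz) (show ς ≤ δ z - (n * ς + 2 * ς) by linarith)).trans ?_
    linarith
  refine ⟨H, hH.mono s43, ?_, ?_⟩
  · intro z hz
    have hz2 := s32 (s43 hz)
    have hz0 := s20 hz2
    have h1 := hclose z hz
    have h2 : ‖H z‖ ≤ ‖H z - (UU K σ 0 Fin.elim0 z - K.c (F z) (N z - H₁ z))‖ +
        ‖UU K σ 0 Fin.elim0 z - K.c (F z) (N z - H₁ z)‖ := by
      have := norm_add_le (H z - (UU K σ 0 Fin.elim0 z - K.c (F z) (N z - H₁ z)))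
        (UU K σ 0 Fin.elim0 z - K.c (F z) (N z - H₁ z))
      rw [sub_add_cancel] at this
      exact this
    have h3 : ‖UU K σ 0 Fin.elim0 z‖ ≤ ‖K.a‖ * C₁ * ‖K.Ω‖ := by
      rw [K5_UU0]
      refine ((K.a (σ z)).le_opNorm _).trans ?_
      refine mul_le_mul_of_nonneg_right ?_ (norm_nonneg _)
      exact (K.a.le_opNorm _).trans (mul_le_mul_of_nonneg_left (hKD.σ_le z hz0) (norm_nonneg _))
    have h4 : ‖K.c (F z) (N z - H₁ z)‖ ≤ ‖K.c‖ * M * (C' * (B₁ + 1)) :=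
      (K5_cnorm K (hKD.F_le z hz0) _).trans (mul_le_mul_of_nonneg_left (hNH z hz2) hKM)
    have h5 := norm_sub_le (UU K σ 0 Fin.elim0 z) (K.c (F z) (N z - H₁ z))
    rw [hM, hC₁]
    linarith
  · intro z hz
    have hz0 := s20 (s32 (s43 hz))
    have h1 : K.c (F z) (UU K σ 0 Fin.elim0 z - K.c (F z) (N z - H₁ z)) = K.Ω := by
      rw [map_sub, c_UU0 K σ z (hKD.one z hz0), cc_zero, sub_zero]
    have h2 : K.c (F z) (H z) - K.Ω =
        K.c (F z) (H z - (UU K σ 0 Fin.elim0 z - K.c (F z) (N z - H₁ z))) := by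
      rw [map_sub, h1]
    rw [h2]
    exact ((K5_cnorm K (hKD.F_le z hz0) _).trans
      (mul_le_mul_of_nonneg_left (hclose z hz) hKM)).trans he₂e

end Pool.Agent.MPca0fc2.GW
end

section

/-! Data which are solvable on the cells of functions with gradients bounded by the density (compare `FD/K6.lean`
and `solv_base` in `FD/T2.lean`). -/

set_option autoImplicit false

open Metric Set MeasureTheory Filter Topology

namespace Pool.Agent.MPca0fc2.GW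

open Pool.Agent.MPca0fc2.FD
open Pool.Agent.Lib.MP_ca0fc2_an

variable {n : ℕ}


private theorem T2_proj {N : ℕ} (j : Fin N) :
    ‖ContinuousLinearMap.proj (R := ℂ) (φ := fun _ : Fin N => ℂ) j‖ ≤ 1 := by
  refine ContinuousLinearMap.opNorm_le_bound _ zero_le_one fun x => ?_
  rw [one_mul]
  exact norm_le_pi_norm x j

private theorem T2_prod {N : ℕ} {f : Fin N → Ec n → ℂ} {σ : Ec n → Fin N → ℂ} {z : Ec n}
    (hf : ∀ j, DifferentiableAt ℂ (f j) z) (hσ : DifferentiableAt ℝ σ z) (X : Ec n) :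
    db (fun y => ∑ j, f j y * σ y j) z X = ∑ j, f j z * db σ z X j := by
  have hσj : ∀ j, HasFDerivAt (fun y => σ y j)
      ((ContinuousLinearMap.proj (R := ℝ) (φ := fun _ : Fin N => ℂ) j).comp (fderiv ℝ σ z)) z :=
    fun j => (hasFDerivAt_pi'.1 hσ.hasFDerivAt) j
  have hfj : ∀ j, HasFDerivAt (f j) (fderiv ℝ (f j) z) z := fun j =>
    ((hf j).restrictScalars ℝ).hasFDerivAt
  have hsum : HasFDerivAt (fun y => ∑ j, f j y * σ y j)
      (∑ j, (f j z • ((ContinuousLinearMap.proj (R := ℝ) (φ := fun _ : Fin N => ℂ) j).comp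
        (fderiv ℝ σ z)) + σ z j • fderiv ℝ (f j) z)) z :=
    HasFDerivAt.fun_sum fun j _ => (hfj j).mul (hσj j)
  have hval : ∀ Y : Ec n, fderiv ℝ (fun y => ∑ j, f j y * σ y j) z Y =
      ∑ j, (f j z * fderiv ℝ σ z Y j + σ z j * fderiv ℝ (f j) z Y) := by
    intro Y
    rw [hsum.fderiv, sum_apply]
    rfl
  have hzero : ∀ j, (2⁻¹ : ℂ) * (fderiv ℝ (f j) z X + Complex.I * fderiv ℝ (f j) z (Complex.I • X))
      = 0 := fun j => db_hol (hf j) X
  unfold db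
  rw [hval, hval]
  simp only [smul_eq_mul, Pi.smul_apply, Pi.add_apply]
  rw [Finset.mul_sum, ← Finset.sum_add_distrib, Finset.mul_sum]
  refine Finset.sum_congr rfl fun j _ => ?_
  linear_combination σ z j * hzero j

private theorem T2_GD_nonneg {U : Set (Ec n)} {δ : Ec n → ℝ} {h : Ec n → Ec n → Fin n → ℂ}
    {G : Ec n → ℝ} {A : ℝ} (hG : GD U δ h G A) : ∀ z ∈ Om U δ, 0 ≤ G z := by
  intro z hz
  have h1 := hG.lo z hz
  have h2 : 0 ≤ (δ z) ^ (1 / 4 : ℝ) := Real.rpow_nonneg hz.2.le _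
  have hA : 0 < A := lt_of_lt_of_le one_pos hG.A1
  by_contra h3
  have h4 : G z < 0 := not_le.mp h3
  have h5 : A * G z < 0 := mul_neg_of_pos_of_neg hA h4
  linarith

private theorem T2_KG {U : Set (Ec n)} {δ : Ec n → ℝ} {h : Ec n → Ec n → Fin n → ℂ}
    {G : Ec n → ℝ} {Q R : Ec n → Ec n → Fin n → ℂ} {N : ℕ} {f : Fin N → Ec n → ℂ}
    {σ : Ec n → Fin N → ℂ} {c C A M C₁ G₁ : ℝ} (hg : Geo U δ h c C) (hgd : GD U δ h G A)
    (hgx : GX U δ h G Q R C A) (hwq : WQ (Om U δ) δ Q R) (hM : 0 ≤ M) (hC₁ : 0 ≤ C₁)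
    (hG₁ : 0 ≤ G₁) (hf : ∀ j, DifferentiableOn ℂ (f j) (Om U δ))
    (hfM : ∀ j, ∀ z ∈ Om U δ, ‖f j z‖ ≤ M) (hσ : ContDiffOn ℝ 2 σ (Om U δ))
    (hσC : ∀ z ∈ Om U δ, ‖σ z‖ ≤ C₁)
    (hdσ : ∀ z ∈ Om U δ, ∀ X, ‖db σ z X‖ ≤ G₁ * G z * gau δ h z X)
    (hone : ∀ z ∈ Om U δ, ∑ j, f j z * σ z j = 1) :
    KG U δ h G Q R (Fr f) σ c C A (N * M) C₁ G₁ := by
  have hopen := Om_open hg
  exact
    { geo := hg
      gd := hgd
      gx := hgx
      wq := hwq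
      M0 := mul_nonneg (Nat.cast_nonneg _) hM
      C0 := hC₁
      G0 := hG₁
      F_hol := by
        unfold Fr
        exact DifferentiableOn.fun_sum fun j _ => (hf j).smul_const _
      F_le := fun z hz => Fr_norm fun j => hfM j z hz
      σ_c2 := hσ
      σ_le := hσC
      dσ := hdσ
      one := by
        intro z hz
        rw [Fr_apply]
        exact hone z hz
      zero := by
        intro z hz X
        have hnh : Om U δ ∈ 𝓝 z := hopen.mem_nhds hz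
        have h1 : (fun y => ∑ j, f j y * σ y j) =ᶠ[𝓝 z] fun _ => (1 : ℂ) := by
          filter_upwards [hnh] with y hy
          exact hone y hy
        have h2 : db (fun y => ∑ j, f j y * σ y j) z X = 0 := by
          unfold db
          rw [h1.fderiv_eq, fderiv_fun_const]
          simp
        rw [T2_prod (fun j => (hf j).differentiableAt hnh)
          ((hσ.differentiableOn (by norm_num)).differentiableAt hnh)] at h2
        rw [Fr_apply]
        exact h2 }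

/-- PROOF. As `sd_solv` of `FD/K6.lean` (`SD_KD` there shows how `KG` for `Fr f` is obtained: the fields `F_hol`, `F_le`, `one`, `zero`), with `kg_solve`. -/
theorem sg_solv (hn : 2 ≤ n) (N : ℕ) (c C A M C₁ G₁ : ℝ) :
    ∃ B : ℝ, ∀ (U : Set (Ec n)) (δ : Ec n → ℝ) (h : Ec n → Ec n → Fin n → ℂ)
      (G : Ec n → ℝ) (Q R : Ec n → Ec n → Fin n → ℂ) (f : Fin N → Ec n → ℂ)
      (σ : Ec n → Fin N → ℂ), Geo U δ h c C → GD U δ h G A → GX U δ h G Q R C A →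
      WQ (Om U δ) δ Q R → 0 ≤ M → 0 ≤ C₁ → 0 ≤ G₁ →
      (∀ j, DifferentiableOn ℂ (f j) (Om U δ)) → (∀ j, ∀ z ∈ Om U δ, ‖f j z‖ ≤ M) →
      ContDiffOn ℝ 2 σ (Om U δ) → (∀ z ∈ Om U δ, ‖σ z‖ ≤ C₁) →
      (∀ z ∈ Om U δ, ∀ X, ‖db σ z X‖ ≤ G₁ * G z * gau δ h z X) →
      (∀ z ∈ Om U δ, ∑ j, f j z * σ z j = 1) → ∀ ς : ℝ, 0 < ς → (n + 3) * ς ≤ c / 2 →
      SolvableOn f (Om U (fun z => δ z - (n + 3) * ς)) B := by
  obtain ⟨V, i1, i2, i3, ⟨K⟩⟩ := QT.exists_car N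
  obtain ⟨B, hB, hsol⟩ := kg_solve hn K c C A (N * M) C₁ G₁
  refine ⟨2 * (‖K.ω‖ * (‖K.c‖ * B)), ?_⟩
  intro U δ h G Q R f σ hg hgd hgx hwq hM hC₁ hG₁ hf hfM hσ hσC hdσ hone ς hς hςc
  have he : (0 : ℝ) < 1 / (2 * ‖K.ω‖ + 2) := by positivity
  obtain ⟨H, hH, hHB, hHe⟩ := hsol U δ h G Q R (Fr f) σ
    (T2_KG hg hgd hgx hwq hM hC₁ hG₁ hf hfM hσ hσC hdσ hone) ς hς hςc _ he
  set D : Set (Ec n) := Om U (fun z => δ z - (n + 3) * ς) with hD
  have hsub : D ⊆ Om U δ := by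
    intro z hz
    refine ⟨hz.1, ?_⟩
    have h1 : 0 < δ z - (n + 3) * ς := hz.2
    have h2 : (0 : ℝ) ≤ (n + 3) * ς := by positivity
    linarith
  let g : Fin N → Ec n → ℂ := fun j z =>
    K.ω (K.c (ContinuousLinearMap.proj (R := ℂ) (φ := fun _ : Fin N => ℂ) j) (H z))
  let s : Ec n → ℂ := fun z => ∑ j, f j z * g j z
  have hs1 : ∀ z, s z = K.ω (K.c (Fr f z) (H z)) := by
    intro z
    change ∑ j, f j z *
      K.ω (K.c (ContinuousLinearMap.proj (R := ℂ) (φ := fun _ : Fin N => ℂ) j) (H z)) = _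
    unfold Fr
    rw [map_sum, sum_apply, map_sum]
    refine Finset.sum_congr rfl fun j _ => ?_
    rw [map_smul, smul_apply, map_smul, smul_eq_mul]
  have hs2 : ∀ z ∈ D, 1 / 2 ≤ ‖s z‖ := by
    intro z hz
    have h1 : ‖s z - 1‖ ≤ 1 / 2 := by
      rw [hs1, ← K.ωΩ, ← map_sub]
      refine (K.ω.le_opNorm _).trans ?_
      refine (mul_le_mul_of_nonneg_left (hHe z hz) (norm_nonneg _)).trans ?_
      rw [mul_one_div, div_le_iff₀ (by positivity)]
      linarith [norm_nonneg K.ω]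
    have h2 : ‖(1 : ℂ)‖ ≤ ‖s z‖ + ‖s z - 1‖ := by
      calc ‖(1 : ℂ)‖ = ‖s z - (s z - 1)‖ := by rw [sub_sub_cancel]
        _ ≤ _ := norm_sub_le _ _
    rw [norm_one] at h2
    linarith
  have hs3 : ∀ z ∈ D, s z ≠ 0 := by
    intro z hz h0
    have := hs2 z hz
    rw [h0, norm_zero] at this
    norm_num at this
  have hg1 : ∀ j, DifferentiableOn ℂ (g j) D := by
    intro j
    exact (K.ω.differentiable.comp (K.c _).differentiable).comp_differentiableOn hH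
  have hg2 : ∀ j, ∀ z ∈ D, ‖g j z‖ ≤ ‖K.ω‖ * (‖K.c‖ * B) := by
    intro j z hz
    refine (K.ω.le_opNorm _).trans (mul_le_mul_of_nonneg_left ?_ (norm_nonneg _))
    refine ((K.c _).le_opNorm _).trans ?_
    have h1 : ‖K.c (ContinuousLinearMap.proj (R := ℂ) (φ := fun _ : Fin N => ℂ) j)‖ ≤ ‖K.c‖ := by
      refine (K.c.le_opNorm _).trans ?_
      calc ‖K.c‖ * ‖ContinuousLinearMap.proj (R := ℂ) (φ := fun _ : Fin N => ℂ) j‖
          ≤ ‖K.c‖ * 1 := mul_le_mul_of_nonneg_left (T2_proj j) K.c.opNorm_nonneg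
        _ = ‖K.c‖ := mul_one _
    exact mul_le_mul h1 (hHB z hz) (norm_nonneg _) K.c.opNorm_nonneg
  have hsd : DifferentiableOn ℂ s D :=
    DifferentiableOn.fun_sum fun j _ => ((hf j).mono hsub).mul (hg1 j)
  have hdiv : ∀ j, DifferentiableOn ℂ (fun z => g j z / s z) D := by
    intro j
    simp only [div_eq_mul_inv]
    exact (hg1 j).mul (hsd.inv hs3)
  refine ⟨fun j z => g j z / s z, hdiv, ?_, ?_⟩
  · intro j z hz
    rw [norm_div, div_le_iff₀ (lt_of_lt_of_le (by norm_num) (hs2 z hz))]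
    have h1 := hg2 j z hz
    have h2 := hs2 z hz
    have h3 : 0 ≤ ‖K.ω‖ * (‖K.c‖ * B) := by positivity
    nlinarith
  · intro z hz
    have h1 : ∑ j, f j z * (g j z / s z) = s z / s z := by
      change _ = (∑ j, f j z * g j z) / s z
      rw [Finset.sum_div]
      exact Finset.sum_congr rfl fun j _ => by rw [mul_div_assoc]
    rw [h1, div_self (hs3 z hz)]

/-- PROOF. As `solv_base` of `FD/T2.lean` (copy its proof), with `sg_solv`. (`G ≥ 0` by `GD.lo`.) -/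
theorem solv_baseG (hn : 2 ≤ n) (N d : ℕ) (c C A M C₁ G₁ r₀ Rb : ℝ) (hr : 0 < r₀) :
    ∃ B : ℝ, ∀ (U : Set (Ec n)) (δ : Ec n → ℝ) (h : Ec n → Ec n → Fin n → ℂ) (G : Ec n → ℝ)
      (Q R : Ec n → Ec n → Fin n → ℂ) (f : Fin N → Ec n → ℂ) (φ : Fin d → Ec n → ℂ),
      Geo U δ h c C → GD U δ h G A → GX U δ h G Q R C A → WQ (Om U δ) δ Q R →
      (∀ j, DifferentiableOn ℂ (f j) (Om U δ)) → (∀ j, ∀ z ∈ Om U δ, ‖f j z‖ ≤ M) →
      (∀ j, ContDiffOn ℝ 2 (φ j) (Om U δ)) → (∀ j, ∀ z ∈ Om U δ, ‖φ j z‖ ≤ Rb) →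
      (∀ j, ∀ z ∈ Om U δ, ∀ X, ‖fderiv ℝ (φ j) z X‖ ≤ G₁ * G z * gau δ h z X) →
      (∀ a ∈ Om U δ, SolvableOn f {w | w ∈ Om U δ ∧ ∀ j, ‖φ j w - φ j a‖ < r₀} C₁) →
      ∀ ς : ℝ, 0 < ς → (n + 3) * ς ≤ c / 2 → SolvableOn f (Om U (fun z => δ z - (n + 3) * ς)) B := by
  classical
  obtain ⟨ι, hι, a, χ, L, hL, hcd, hnn, hle, hsum, hsupp, hlip⟩ :=
    QT.exists_part d (max Rb 0) (r₀ / 4) (by positivity)
  have hPU : QT.PU' a χ (r₀ / 4) L := ⟨hL, hcd, hnn, hle, hsupp, hlip⟩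
  obtain ⟨B, hB⟩ := sg_solv hn N c C A (max M 0) (Fintype.card ι * max C₁ 0)
    (Fintype.card ι * L * max C₁ 0 * max G₁ 0)
  refine ⟨B, ?_⟩
  intro U δ h G Q R f φ hg hgd hgx hwq hf hfM hφ hφR hdφ hloc ς hς hς'
  have hO : IsOpen (Om U δ) := Om_open hg
  unfold SolvableOn at hloc
  choose! g hg1 hg2 hg3 using hloc
  have hφc : ∀ j, ∀ w ∈ Om U δ, ContDiffAt ℝ 2 (φ j) w := fun j w hw =>
    (hφ j).contDiffAt (hO.mem_nhds hw)
  have hEo : ∀ x : Ec n, IsOpen {w | w ∈ Om U δ ∧ ∀ j, ‖φ j w - φ j x‖ < r₀} := by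
    intro x
    rw [isOpen_iff_mem_nhds]
    rintro w ⟨hw, hw2⟩
    have h1 : ∀ᶠ y in 𝓝 w, ∀ j, ‖φ j y - φ j x‖ < r₀ := by
      rw [eventually_all]
      intro j
      have hc : ContinuousAt (fun y => ‖φ j y - φ j x‖) w :=
        ((hφc j w hw).continuousAt.sub continuousAt_const).norm
      exact hc.eventually (gt_mem_nhds (hw2 j))
    filter_upwards [hO.mem_nhds hw, h1] with y hy1 hy2
    exact ⟨hy1, hy2⟩
  let sol : ι → Ec n → Fin N → ℂ := fun i =>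
    if hx : ∃ x, x ∈ Om U δ ∧ ‖(fun j => φ j x) - a i‖ < r₀ / 2 then
      fun w j => g hx.choose j w else fun _ _ => 0
  have hpc : ∀ i, ∀ w ∈ Om U δ, ‖(fun j => φ j w) - a i‖ ≤ r₀ / 4 →
      ‖sol i w‖ ≤ max C₁ 0 ∧ (∀ᶠ x in 𝓝 w, DifferentiableAt ℂ (sol i) x) ∧
        ContDiffAt ℝ 2 (sol i) w ∧ ∑ j, f j w * sol i w j = 1 := by
    intro i w hw hwi
    have hx : ∃ x, x ∈ Om U δ ∧ ‖(fun j => φ j x) - a i‖ < r₀ / 2 :=
      ⟨w, hw, by linarith⟩
    have hsol : sol i = fun w j => g hx.choose j w := dif_pos hx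
    obtain ⟨hx1, hx2⟩ := hx.choose_spec
    set x := hx.choose with hxd
    have hwE : w ∈ {w | w ∈ Om U δ ∧ ∀ j, ‖φ j w - φ j x‖ < r₀} := by
      refine ⟨hw, fun j => ?_⟩
      have h1 : ‖φ j w - a i j‖ ≤ r₀ / 4 :=
        (norm_le_pi_norm ((fun j => φ j w) - a i) j).trans hwi
      have h2 : ‖φ j x - a i j‖ < r₀ / 2 :=
        lt_of_le_of_lt (norm_le_pi_norm ((fun j => φ j x) - a i) j) hx2
      have h3 : φ j w - φ j x = (φ j w - a i j) - (φ j x - a i j) := by ring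
      rw [h3]
      refine lt_of_le_of_lt (norm_sub_le _ _) ?_
      linarith
    have hEn := (hEo x).mem_nhds hwE
    have hd : DifferentiableOn ℂ (sol i) {w | w ∈ Om U δ ∧ ∀ j, ‖φ j w - φ j x‖ < r₀} := by
      rw [hsol]
      exact differentiableOn_pi.2 fun j => hg1 x hx1 j
    refine ⟨?_, ?_, ?_, ?_⟩
    · rw [pi_norm_le_iff_of_nonneg (le_max_right _ _)]
      intro j
      rw [hsol]
      exact (hg2 x hx1 j w hwE).trans (le_max_left _ _)
    · filter_upwards [(hEo x).eventually_mem hwE] with y hy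
      exact hd.differentiableAt ((hEo x).mem_nhds hy)
    · exact (hol_c2 (hEo x) hd).contDiffAt hEn
    · rw [hsol]
      exact hg3 x hx1 w hwE
  have hEne : ∀ z ∈ Om U δ, 0 ≤ G z := T2_GD_nonneg hgd
  have hSD : SolvableOn f (Om U (fun z => δ z - (n + 3) * ς)) B := by
    refine hB U δ h G Q R f (QT.sg χ φ sol) hg hgd hgx hwq (le_max_right _ _) ?_ ?_ hf
      ?_ ?_ ?_ ?_ ?_ ς hς hς'
    · exact mul_nonneg (Nat.cast_nonneg _) (le_max_right _ _)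
    · exact mul_nonneg (mul_nonneg (mul_nonneg (Nat.cast_nonneg _) hL) (le_max_right _ _))
        (le_max_right _ _)
    · exact fun j z hz => (hfM j z hz).trans (le_max_left _ _)
    · intro w hw
      exact (QT.sg_c2 hPU (fun j => hφc j w hw)
        (fun i hi => (hpc i w hw hi).2.2.1)).contDiffWithinAt
    · intro w hw
      exact QT.sg_norm hPU (le_max_right _ _) fun i hi => (hpc i w hw hi).1
    · intro w hw X
      have hgau : 0 ≤ gau δ h w X := gau_nonneg hw.2 X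
      have hg0 : 0 ≤ max G₁ 0 * G w * gau δ h w X :=
        mul_nonneg (mul_nonneg (le_max_right _ _) (hEne w hw)) hgau
      have hb1 : ∀ j, ∀ Y : Ec n, ‖fderiv ℝ (φ j) w Y‖ ≤ max G₁ 0 * G w * gau δ h w Y := by
        intro j Y
        refine (hdφ j w hw Y).trans ?_
        refine mul_le_mul_of_nonneg_right ?_ (gau_nonneg hw.2 Y)
        exact mul_le_mul_of_nonneg_right (le_max_left _ _) (hEne w hw)
      have hIX : gau δ h w (Complex.I • X) = gau δ h w X := by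
        rw [gau_smul, Complex.norm_I, one_mul]
      have h1 := QT.sg_D01 hPU (le_max_right C₁ 0) (fun j => hφc j w hw)
        (fun i hi => ⟨(hpc i w hw hi).1, (hpc i w hw hi).2.1⟩) X hg0
        (fun j => ⟨hb1 j X, by
          have := hb1 j (Complex.I • X)
          rwa [hIX] at this⟩)
      have h2 : QT.D01 (QT.sg χ φ sol) w X = db (QT.sg χ φ sol) w X := rfl
      rw [h2] at h1
      refine h1.trans (le_of_eq ?_)
      ring
    · intro z hz
      have hz1 : ‖(fun j => φ j z)‖ ≤ max Rb 0 := by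
        rw [pi_norm_le_iff_of_nonneg (le_max_right _ _)]
        exact fun j => (hφR j z hz).trans (le_max_left _ _)
      have h1 := hsum _ hz1
      have h2 : ∀ j, f j z * QT.sg χ φ sol z j =
          ∑ i, ((χ i (fun j => φ j z) : ℝ) : ℂ) * (f j z * sol i z j) := by
        intro j
        unfold QT.sg
        rw [Finset.sum_apply, Finset.mul_sum]
        refine Finset.sum_congr rfl fun i _ => ?_
        rw [Pi.smul_apply, smul_eq_mul]
        ring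
      rw [Finset.sum_congr rfl fun j _ => h2 j, Finset.sum_comm]
      have h3 : ∀ i, ∑ j, ((χ i (fun j => φ j z) : ℝ) : ℂ) * (f j z * sol i z j) =
          ((χ i (fun j => φ j z) : ℝ) : ℂ) := by
        intro i
        rw [← Finset.mul_sum]
        by_cases hi : ‖(fun j => φ j z) - a i‖ ≤ r₀ / 4
        · rw [(hpc i z hz hi).2.2.2, mul_one]
        · rw [hsupp i _ (not_le.1 hi).le, Complex.ofReal_zero, zero_mul]
      rw [Finset.sum_congr rfl fun i _ => h3 i, ← Complex.ofReal_sum, h1, Complex.ofReal_one]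
  exact hSD

end Pool.Agent.MPca0fc2.GW
end
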