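import Pool.Agent.Lib.MP_ca0fc2_an.Mg.G032

section

/-! The approximations of a function with a Carleson gradient. -/

set_option autoImplicit false

open Metric Set MeasureTheory Filter Topology

namespace Pool.Agent.MPca0fc2.GW

open Pool.Agent.MPca0fc2.FD

variable {n : ℕ} {U : Set (Ec n)} {δ : Ec n → ℝ} {h : Ec n → Ec n → Fin n → ℂ} {c C A : ℝ}

/-- The gradient.
PROOF. The derivative of the term `i`: `ps' (poti i / (c₁ vt^(k+1-i))) dpoti / (c₁ vt^(k+1-i)) · inc + ps(...) d inc`; both parts vanish unless `poti i w > c₁ vt^(k+1-i)`. The first part: `|ps'| ≤ K`, it vanishes also if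
`poti i ≥ 2 c₁ vt^(k+1-i)`, so `|dpoti X| / (c₁ vt^(k+1-i)) ≤ K poti i gau (dk i) / (c₁ vt^..) ≤ 2 K gau (dk i) h w X` (`poti_grad`), `|inc| ≤ 2 M` (`uk_le`). The second part: `inc_grad`. -/
theorem vq_grad (n : ℕ) (c C A M : ℝ) : ∃ K : ℝ, 1 ≤ K ∧ ∀ (U : Set (Ec n))
    (δ : Ec n → ℝ) (h : Ec n → Ec n → Fin n → ℂ) (P : PS n) (u : Ec n → ℂ), CD U δ h c C →
    PA P U δ h A → DifferentiableOn ℂ u (Om U δ) → (∀ z ∈ Om U δ, ‖u z‖ ≤ M) → ∀ c₁ : ℝ, 0 < c₁ →
    ∀ k : ℕ, ∀ w ∈ Dk U δ c k, ∀ X : Ec n,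
    ‖fderiv ℝ (vq P δ c c₁ u (k + 1)) w X‖ ≤ K * ∑ i ∈ Finset.range (k + 1),
      (if c₁ * vt ^ (k + 1 - i) < poti P δ c i w then 1 else 0) * gau (dk δ c i) h w X := by
  obtain ⟨Kp, hKp, Hp⟩ := poti_grad n c C A
  obtain ⟨Kg, hKg, Hg⟩ := inc_grad n c C
  obtain ⟨hps2, hps01, hps0, -, Ks, hKs, Hs⟩ := ps_prop
  obtain ⟨hv0, hv1, -⟩ := vt_prop
  refine ⟨1 + (2 * Kg * |M| + 2 * |M| * (Ks * (2 * Kp))), ?_, ?_⟩
  · have : 0 ≤ 2 * Kg * |M| + 2 * |M| * (Ks * (2 * Kp)) := by positivity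
    linarith
  intro U δ h P u hD hP hu hM c₁ hc₁ k w hw X
  obtain ⟨hc0, hc1, hC1⟩ := hD.pos
  have hM0 : 0 ≤ M := by
    have hz : (0 : Ec n) ∈ Om U δ := ⟨hD.zero, lt_of_lt_of_le hc0 hD.cen⟩
    exact (norm_nonneg _).trans (hM 0 hz)
  have hMM : |M| = M := abs_of_nonneg hM0
  rw [hMM]
  have hnhds : Dk U δ c k ∈ 𝓝 w := (Dk_open hD k).mem_nhds hw
  set a : ℕ → ℝ := fun i => c₁ * vt ^ (k + 1 - i) with ha
  have ha0 : ∀ i, 0 < a i := fun i => by positivity
  -- the derivatives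
  set D : ℕ → (Ec n →L[ℝ] ℂ) := fun i =>
    ((ps (poti P δ c i w / a i) : ℝ) : ℂ) • (fderiv ℝ (uk u (i + 1)) w - fderiv ℝ (uk u i) w) +
    (uk u (i + 1) w - uk u i w) • (Complex.ofRealCLM.comp
      ((deriv ps (poti P δ c i w / a i) * (a i)⁻¹) • fderiv ℝ (poti P δ c i) w)) with hDdef
  have hder : ∀ i ∈ Finset.range (k + 1), HasFDerivAt
      (fun w => ((ps (poti P δ c i w / (c₁ * vt ^ (k + 1 - i))) : ℝ) : ℂ) *
        (uk u (i + 1) w - uk u i w)) (D i) w := by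
    intro i hi
    have hik : i ≤ k := Nat.lt_succ_iff.mp (Finset.mem_range.mp hi)
    have d1 : HasFDerivAt (poti P δ c i) (fderiv ℝ (poti P δ c i) w) w :=
      (((poti_c2 hD hP hik).contDiffAt hnhds).differentiableAt (by norm_num)).hasFDerivAt
    have d2 : HasFDerivAt (uk u (i + 1)) (fderiv ℝ (uk u (i + 1)) w) w :=
      (((uk_c2 hD hu (Nat.succ_le_succ hik)).contDiffAt hnhds).differentiableAt
        (by norm_num)).hasFDerivAt
    have d3 : HasFDerivAt (uk u i) (fderiv ℝ (uk u i) w) w :=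
      (((uk_c2 hD hu (hik.trans (Nat.le_succ k))).contDiffAt hnhds).differentiableAt
        (by norm_num)).hasFDerivAt
    have d4 : HasDerivAt ps (deriv ps (poti P δ c i w / a i)) (poti P δ c i w / a i) :=
      ((hps2.differentiable (by norm_num)) _).hasDerivAt
    have d5 : HasFDerivAt (fun w => poti P δ c i w / a i) ((a i)⁻¹ • fderiv ℝ (poti P δ c i) w)
        w := by
      have := d1.const_mul (a i)⁻¹
      refine this.congr_of_eventuallyEq (Filter.Eventually.of_forall fun y => ?_)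
      simp only [div_eq_inv_mul]
    have d6 : HasFDerivAt (fun w => ps (poti P δ c i w / a i))
        (deriv ps (poti P δ c i w / a i) • ((a i)⁻¹ • fderiv ℝ (poti P δ c i) w)) w :=
      HasDerivAt.comp_hasFDerivAt (h₂ := ps) (f := fun w => poti P δ c i w / a i) w d4 d5
    have d7 : HasFDerivAt (fun w => ((ps (poti P δ c i w / a i) : ℝ) : ℂ))
        (Complex.ofRealCLM.comp
          (deriv ps (poti P δ c i w / a i) • ((a i)⁻¹ • fderiv ℝ (poti P δ c i) w))) w :=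
      Complex.ofRealCLM.hasFDerivAt.comp w d6
    have d8 := d7.mul (d2.sub d3)
    refine d8.congr_fderiv ?_
    rw [hDdef]
    simp only [smul_smul, Pi.sub_apply]
  have hfd : HasFDerivAt (vq P δ c c₁ u (k + 1)) (∑ i ∈ Finset.range (k + 1), D i) w := by
    have h1 := (HasFDerivAt.fun_sum hder).const_add (u 0)
    exact h1
  rw [hfd.fderiv, sum_apply]
  refine (norm_sum_le _ _).trans ?_
  rw [Finset.mul_sum]
  refine Finset.sum_le_sum fun i hi => ?_
  have hik : i ≤ k := Nat.lt_succ_iff.mp (Finset.mem_range.mp hi)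
  have hwi : w ∈ Dk U δ c i := Dk_anti hD hik hw
  have hdi : 0 < dk δ c i w := by
    have h1 := (Dk_basic hD hwi).2.2.1
    have h2 : 0 < ek i := ek_pos i
    exact lt_trans (by positivity) h1
  have hg0 : 0 ≤ gau (dk δ c i) h w X := gau_nonneg hdi X
  have hDX : D i X = ((ps (poti P δ c i w / a i) : ℝ) : ℂ) *
      (fderiv ℝ (uk u (i + 1)) w X - fderiv ℝ (uk u i) w X) +
      (uk u (i + 1) w - uk u i w) *
        ((((deriv ps (poti P δ c i w / a i) * (a i)⁻¹) * fderiv ℝ (poti P δ c i) w X : ℝ)) : ℂ) := by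
    rw [hDdef]
    simp
  rw [hDX]
  by_cases hcase : c₁ * vt ^ (k + 1 - i) < poti P δ c i w
  · rw [if_pos hcase, one_mul]
    have hx := hps01 (poti P δ c i w / a i)
    have n1 : ‖((ps (poti P δ c i w / a i) : ℝ) : ℂ)‖ ≤ 1 := by
      rw [Complex.norm_real, Real.norm_eq_abs, abs_le]
      constructor <;> linarith [hx.1, hx.2]
    have n2 : ‖fderiv ℝ (uk u (i + 1)) w X - fderiv ℝ (uk u i) w X‖ ≤
        2 * Kg * M * gau (dk δ c i) h w X := by
      have g1 := Hg U δ h hD u M hu hM i (i + 1) (Or.inr rfl) w hwi X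
      have g2 := Hg U δ h hD u M hu hM i i (Or.inl rfl) w hwi X
      refine (norm_sub_le _ _).trans ?_
      linarith
    have n3 : ‖uk u (i + 1) w - uk u i w‖ ≤ 2 * M := by
      have g1 := uk_le hD hM (Nat.succ_le_succ hik) hw
      have g2 := uk_le hD hM (hik.trans (Nat.le_succ k)) hw
      refine (norm_sub_le _ _).trans ?_
      linarith
    have n4 : ‖((((deriv ps (poti P δ c i w / a i) * (a i)⁻¹) *
        fderiv ℝ (poti P δ c i) w X : ℝ)) : ℂ)‖ ≤ Ks * (2 * Kp) * gau (dk δ c i) h w X := by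
      rw [Complex.norm_real, Real.norm_eq_abs, abs_mul, abs_mul, abs_of_pos (inv_pos.mpr (ha0 i))]
      obtain ⟨s1, s2⟩ := Hs (poti P δ c i w / a i)
      by_cases hI : poti P δ c i w / a i ∈ Ioo (1 : ℝ) 2
      · have s3 : poti P δ c i w ≤ 2 * a i := by
          have := hI.2
          rw [div_lt_iff₀ (ha0 i)] at this
          exact this.le
        have s4 := Hp U δ h P hD hP i w hwi X
        rw [Real.norm_eq_abs] at s4
        have s5 : |fderiv ℝ (poti P δ c i) w X| ≤ Kp * (2 * a i) * gau (dk δ c i) h w X := by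
          refine s4.trans (mul_le_mul_of_nonneg_right ?_ hg0)
          exact mul_le_mul_of_nonneg_left s3 (by linarith)
        calc |deriv ps (poti P δ c i w / a i)| * (a i)⁻¹ * |fderiv ℝ (poti P δ c i) w X|
            ≤ Ks * (a i)⁻¹ * (Kp * (2 * a i) * gau (dk δ c i) h w X) :=
              mul_le_mul (mul_le_mul_of_nonneg_right s1 (inv_pos.mpr (ha0 i)).le) s5
                (abs_nonneg _) (mul_nonneg hKs.le (inv_pos.mpr (ha0 i)).le)
          _ = Ks * (2 * Kp) * gau (dk δ c i) h w X := by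
              have := (ha0 i).ne'
              field_simp
      · rw [s2 hI, abs_zero, zero_mul, zero_mul]
        have : 0 < Kp := by linarith
        positivity
    refine (norm_add_le _ _).trans ?_
    rw [norm_mul, norm_mul]
    have m1 : ‖((ps (poti P δ c i w / a i) : ℝ) : ℂ)‖ *
        ‖fderiv ℝ (uk u (i + 1)) w X - fderiv ℝ (uk u i) w X‖ ≤
        1 * (2 * Kg * M * gau (dk δ c i) h w X) :=
      mul_le_mul n1 n2 (norm_nonneg _) zero_le_one
    have m2 : ‖uk u (i + 1) w - uk u i w‖ * ‖((((deriv ps (poti P δ c i w / a i) * (a i)⁻¹) *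
        fderiv ℝ (poti P δ c i) w X : ℝ)) : ℂ)‖ ≤
        2 * M * (Ks * (2 * Kp) * gau (dk δ c i) h w X) :=
      mul_le_mul n3 n4 (norm_nonneg _) (by positivity)
    nlinarith [m1, m2, hg0]
  · rw [if_neg hcase, zero_mul, mul_zero]
    have hle : poti P δ c i w / a i ≤ 1 := by
      rw [div_le_one (ha0 i)]
      exact not_lt.mp hcase
    have e1 : ps (poti P δ c i w / a i) = 0 := hps0 _ hle
    have e2 : deriv ps (poti P δ c i w / a i) = 0 :=
      (Hs (poti P δ c i w / a i)).2 fun hI => absurd hI.1 (not_lt.mpr hle)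
    rw [e1, e2]
    simp

/-- The sum of the gradients, for `w ∈ Dk k`.
PROOF. Sum of `vq_grad` over `l < k` (`w ∈ Dk k ⊆ Dk l`): `≤ K ∑_{i < k} (∑_{i ≤ l < k} 1[c₁ vt^(l+1-i) < poti i w]) gau (dk i) h w X ≤ K ∑_{i < k} (k - i) 1[c₁ vt^(k-i) < poti i w] gau (dk i) h w X`
(`vt^(l+1-i) ≥ vt^(k-i)`), `≤ (K / c₁) ∑_{i<k} (k - i) vt^(-(k-i)) poti i w gau (dk i) h w X`. By `gau_lev` and `lev_ratio`: `gau (dk i) ≤ (dk k / dk i)^(1/2) gau (dk k)`, `(dk k / dk i)^(1/2) ≤ (dk k / dk i)^(1/32) ≤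
(8 / c)^(1/32) (dk k / ek k)^(1/32) (1/2)^((k-i)/32)`, and `(1/2)^((k-i)/32) = vt^(4(k-i))`; `(k - i) vt^(k-i) ≤ K`. So the sum is at most `(K / c₁) (dk k / ek k)^(1/32) ∑ vt^(2(k-i)) poti i w gau (dk k)`. -/
theorem vq_sum (n : ℕ) (c C A M c₁ : ℝ) (hc₁ : 0 < c₁) : ∃ K : ℝ, 1 ≤ K ∧ ∀ (U : Set (Ec n))
    (δ : Ec n → ℝ) (h : Ec n → Ec n → Fin n → ℂ) (P : PS n) (u : Ec n → ℂ), CD U δ h c C →
    PA P U δ h A → DifferentiableOn ℂ u (Om U δ) → (∀ z ∈ Om U δ, ‖u z‖ ≤ M) →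
    ∀ k : ℕ, ∀ w ∈ Dk U δ c k, ∀ X : Ec n,
    ∑ l ∈ Finset.range k, ‖fderiv ℝ (vq P δ c c₁ u (l + 1)) w X‖ ≤
      K * (dk δ c k w / ek k) ^ (1 / 32 : ℝ) * SQ P δ c k w * gau (dk δ c k) h w X := by
  obtain ⟨K1, hK1, H1⟩ := vq_grad n c C A M
  obtain ⟨hv0, hv1, hv128⟩ := vt_prop
  have h1v : 0 < 1 - vt := by linarith
  refine ⟨1 + K1 / c₁ * (8 / |c|) ^ (1 / 32 : ℝ) * (1 / (1 - vt)), ?_, ?_⟩
  · have : 0 ≤ K1 / c₁ * (8 / |c|) ^ (1 / 32 : ℝ) * (1 / (1 - vt)) := by positivity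
    linarith
  intro U δ h P u hD hP hu hM k w hw X
  obtain ⟨hc0, hc1, hC1⟩ := hD.pos
  have hcc : |c| = c := abs_of_pos hc0
  rw [hcc]
  obtain ⟨hwU, hδw, hdk, hdkC, hwC⟩ := Dk_basic hD hw
  have hek : 0 < ek k := ek_pos k
  have hdk0 : 0 < dk δ c k w := lt_trans (by positivity) hdk
  have hg0 : 0 ≤ gau (dk δ c k) h w X := gau_nonneg hdk0 X
  have hdi : ∀ i, i ≤ k → 0 < dk δ c i w := by
    intro i hik
    have h1 := (Dk_basic hD (Dk_anti hD hik hw)).2.2.1
    have h2 : 0 < ek i := ek_pos i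
    exact lt_trans (by positivity) h1
  have hpn : ∀ i, i ≤ k → 0 ≤ poti P δ c i w := fun i hik => pot_nonneg hP _ (hdi i hik).le w
  set b : ℕ → ℝ := fun i => poti P δ c i w / (c₁ * vt ^ (k - i)) * gau (dk δ c i) h w X with hb
  have hterm : ∀ l ∈ Finset.range k, ‖fderiv ℝ (vq P δ c c₁ u (l + 1)) w X‖ ≤
      K1 * ∑ i ∈ Finset.range (l + 1), b i := by
    intro l hl
    have hlk : l < k := Finset.mem_range.mp hl
    refine (H1 U δ h P u hD hP hu hM c₁ hc₁ l w (Dk_anti hD hlk.le hw) X).trans ?_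
    refine mul_le_mul_of_nonneg_left (Finset.sum_le_sum fun i hi => ?_) (by linarith)
    have hil : i ≤ l := Nat.lt_succ_iff.mp (Finset.mem_range.mp hi)
    have hik : i ≤ k := hil.trans hlk.le
    have hgi : 0 ≤ gau (dk δ c i) h w X := gau_nonneg (hdi i hik) X
    refine mul_le_mul_of_nonneg_right ?_ hgi
    have hp := hpn i hik
    split_ifs with hc
    · rw [one_le_div (by positivity)]
      have : vt ^ (k - i) ≤ vt ^ (l + 1 - i) :=
        pow_le_pow_of_le_one hv0.le hv1.le (by omega)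
      have h2 : c₁ * vt ^ (k - i) ≤ c₁ * vt ^ (l + 1 - i) :=
        mul_le_mul_of_nonneg_left this hc₁.le
      linarith
    · positivity
  have hswap : ∀ m : ℕ, ∑ l ∈ Finset.range m, ∑ i ∈ Finset.range (l + 1), b i =
      ∑ i ∈ Finset.range m, ((m - i : ℕ) : ℝ) * b i := by
    intro m
    induction m with
    | zero => simp
    | succ m ih =>
      rw [Finset.sum_range_succ, ih]
      have e1 : ∑ i ∈ Finset.range (m + 1), ((m + 1 - i : ℕ) : ℝ) * b i =
          ∑ i ∈ Finset.range (m + 1), (((m - i : ℕ) : ℝ) * b i + b i) := by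
        refine Finset.sum_congr rfl fun i hi => ?_
        have him : i ≤ m := Nat.lt_succ_iff.mp (Finset.mem_range.mp hi)
        have : m + 1 - i = (m - i) + 1 := by omega
        rw [this]
        push_cast
        ring
      rw [e1, Finset.sum_add_distrib]
      congr 1
      rw [Finset.sum_range_succ]
      simp
  have hgeo : ∀ j : ℕ, (j : ℝ) * vt ^ j ≤ 1 / (1 - vt) := by
    intro j
    have e1 : (j : ℝ) * vt ^ j ≤ ∑ i ∈ Finset.range j, vt ^ i := by
      calc (j : ℝ) * vt ^ j = ∑ _i ∈ Finset.range j, vt ^ j := by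
            rw [Finset.sum_const, Finset.card_range, nsmul_eq_mul]
        _ ≤ ∑ i ∈ Finset.range j, vt ^ i := Finset.sum_le_sum fun i hi =>
            pow_le_pow_of_le_one hv0.le hv1.le (Finset.mem_range.mp hi).le
    refine e1.trans ?_
    rw [le_div_iff₀ h1v, geom_sum_mul_neg]
    have : 0 ≤ vt ^ j := by positivity
    linarith
  have hbi : ∀ i ∈ Finset.range k, ((k - i : ℕ) : ℝ) * b i ≤
      (1 / c₁ * (8 / c) ^ (1 / 32 : ℝ) * (1 / (1 - vt)) * (dk δ c k w / ek k) ^ (1 / 32 : ℝ) *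
        gau (dk δ c k) h w X) * (vt ^ (2 * (k - i)) * poti P δ c i w) := by
    intro i hi
    have hik : i ≤ k := (Finset.mem_range.mp hi).le
    have hp := hpn i hik
    have h2 := gau_lev hD hik hw X
    set r : ℝ := dk δ c k w / dk δ c i w with hr
    have hr0 : 0 < r := div_pos hdk0 (hdi i hik)
    have hr1 : r ≤ 1 := by
      rw [hr, div_le_one (hdi i hik)]
      exact dk_anti hD hik w
    have h3 : Real.sqrt r ≤ r ^ (1 / 32 : ℝ) := by
      rw [Real.sqrt_eq_rpow]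
      exact Real.rpow_le_rpow_of_exponent_ge hr0 hr1 (by norm_num)
    have h4 : r ^ (1 / 32 : ℝ) ≤ (8 / c) ^ (1 / 32 : ℝ) * (dk δ c k w / ek k) ^ (1 / 32 : ℝ) *
        vt ^ (4 * (k - i)) := by
      refine (Real.rpow_le_rpow hr0.le (lev_ratio hD hik hw) (by norm_num)).trans (le_of_eq ?_)
      rw [Real.mul_rpow (by positivity) (by positivity), Real.mul_rpow (by positivity)
        (by positivity)]
      congr 1
      rw [← hv128, ← pow_mul, ← Real.rpow_natCast, ← Real.rpow_mul hv0.le, ← Real.rpow_natCast]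
      congr 1
      push_cast
      ring
    have h5 : gau (dk δ c i) h w X ≤ (8 / c) ^ (1 / 32 : ℝ) *
        (dk δ c k w / ek k) ^ (1 / 32 : ℝ) * vt ^ (4 * (k - i)) * gau (dk δ c k) h w X :=
      h2.trans (mul_le_mul_of_nonneg_right (h3.trans h4) hg0)
    set j := k - i with hj
    have hvj : 0 < vt ^ j := by positivity
    calc (j : ℝ) * b i = (j : ℝ) * (poti P δ c i w / (c₁ * vt ^ j) * gau (dk δ c i) h w X) := rfl
      _ ≤ (j : ℝ) * (poti P δ c i w / (c₁ * vt ^ j) * ((8 / c) ^ (1 / 32 : ℝ) *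
            (dk δ c k w / ek k) ^ (1 / 32 : ℝ) * vt ^ (4 * j) * gau (dk δ c k) h w X)) := by
          refine mul_le_mul_of_nonneg_left (mul_le_mul_of_nonneg_left h5 (by positivity))
            (Nat.cast_nonneg _)
      _ = ((j : ℝ) * vt ^ j) * (1 / c₁ * (8 / c) ^ (1 / 32 : ℝ) *
            (dk δ c k w / ek k) ^ (1 / 32 : ℝ) * gau (dk δ c k) h w X *
            (vt ^ (2 * j) * poti P δ c i w)) := by
          have e1 : vt ^ (4 * j) = vt ^ j * vt ^ j * vt ^ (2 * j) := by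
            rw [← pow_add, ← pow_add]
            congr 1
            ring
          rw [e1]
          field_simp
      _ ≤ (1 / (1 - vt)) * (1 / c₁ * (8 / c) ^ (1 / 32 : ℝ) *
            (dk δ c k w / ek k) ^ (1 / 32 : ℝ) * gau (dk δ c k) h w X *
            (vt ^ (2 * j) * poti P δ c i w)) :=
          mul_le_mul_of_nonneg_right (hgeo j) (by positivity)
      _ = _ := by ring
  have hSQ : ∑ i ∈ Finset.range k, vt ^ (2 * (k - i)) * poti P δ c i w ≤ SQ P δ c k w := by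
    unfold SQ
    rw [Finset.sum_range_succ]
    have := hpn k le_rfl
    have h2 : 0 ≤ vt ^ (2 * (k - k)) * poti P δ c k w := by positivity
    linarith
  have hSQ0 : 0 ≤ SQ P δ c k w := SQ_nonneg hD hP hw
  calc ∑ l ∈ Finset.range k, ‖fderiv ℝ (vq P δ c c₁ u (l + 1)) w X‖
      ≤ ∑ l ∈ Finset.range k, K1 * ∑ i ∈ Finset.range (l + 1), b i := Finset.sum_le_sum hterm
    _ = K1 * ∑ i ∈ Finset.range k, ((k - i : ℕ) : ℝ) * b i := by
        rw [← Finset.mul_sum, hswap k]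
    _ ≤ K1 * ∑ i ∈ Finset.range k, (1 / c₁ * (8 / c) ^ (1 / 32 : ℝ) * (1 / (1 - vt)) *
          (dk δ c k w / ek k) ^ (1 / 32 : ℝ) *
          gau (dk δ c k) h w X) * (vt ^ (2 * (k - i)) * poti P δ c i w) :=
        mul_le_mul_of_nonneg_left (Finset.sum_le_sum hbi) (by linarith)
    _ = K1 / c₁ * (8 / c) ^ (1 / 32 : ℝ) * (1 / (1 - vt)) *
          (dk δ c k w / ek k) ^ (1 / 32 : ℝ) * gau (dk δ c k) h w X *
          ∑ i ∈ Finset.range k, vt ^ (2 * (k - i)) * poti P δ c i w := by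
        rw [← Finset.mul_sum]
        ring
    _ ≤ K1 / c₁ * (8 / c) ^ (1 / 32 : ℝ) * (1 / (1 - vt)) *
          (dk δ c k w / ek k) ^ (1 / 32 : ℝ) * gau (dk δ c k) h w X * SQ P δ c k w :=
        mul_le_mul_of_nonneg_left hSQ (by positivity)
    _ = (K1 / c₁ * (8 / c) ^ (1 / 32 : ℝ) * (1 / (1 - vt))) *
          ((dk δ c k w / ek k) ^ (1 / 32 : ℝ) * SQ P δ c k w * gau (dk δ c k) h w X) := by ring
    _ ≤ (1 + K1 / c₁ * (8 / c) ^ (1 / 32 : ℝ) * (1 / (1 - vt))) *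
          ((dk δ c k w / ek k) ^ (1 / 32 : ℝ) * SQ P δ c k w * gau (dk δ c k) h w X) := by
        refine mul_le_mul_of_nonneg_right ?_ (by positivity)
        linarith
    _ = _ := by ring

end Pool.Agent.MPca0fc2.GW
end

section

/-! The approximations of a function with a Carleson gradient. -/

set_option autoImplicit false

open Metric Set MeasureTheory Filter Topology

namespace Pool.Agent.MPca0fc2.GW

open Pool.Agent.MPca0fc2.FD

variable {n : ℕ} {U : Set (Ec n)} {δ : Ec n → ℝ} {h : Ec n → Ec n → Fin n → ℂ} {c C A : ℝ}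

/-- PROOF. `vq_near`, `vq_c2`, `vq_sum`, `BL_of_VL`. -/
theorem BL_carl (n : ℕ) (c C A p M ρ : ℝ) (hp : 1 ≤ p) (hρ : 0 < ρ) (hρM : ρ ≤ M) : ∃ K : ℝ,
    1 ≤ K ∧ ∀ (U : Set (Ec n))
    (δ : Ec n → ℝ) (h : Ec n → Ec n → Fin n → ℂ) (P : PS n) (u : Ec n → ℂ), CD U δ h c C →
    PA P U δ h A → DifferentiableOn ℂ u (Om U δ) → (∀ z ∈ Om U δ, ‖u z‖ ≤ M) →
    CG P U δ h A p u → ∃ b, BL U δ h c u (SQ P δ c) b M ρ K := by
  obtain ⟨c₁, hc₁, hc₁1, H1⟩ := vq_near n c C A p ρ hp hρ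
  obtain ⟨K, hK, H2⟩ := vq_sum n c C A M c₁ hc₁
  refine ⟨K, hK, ?_⟩
  intro U δ h P u hD hP hu hM hG
  refine BL_of_VL hD hu hM hρ hρM (v := vq P δ c c₁ u) ⟨?_, ?_, ?_, ?_⟩
  · intro w
    simp [vq]
  · intro k
    exact vq_c2 hD hP hu hc₁ k
  · intro k w hw
    exact H1 U δ h P u hD hP hu hG k w hw
  · intro k w hw X
    exact H2 U δ h P u hD hP hu hM k w hw X

end Pool.Agent.MPca0fc2.GW
end
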