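import Pool.Agent.Lib.MP_ca0fc2_an.Mg.G033
import Pool.Agent.Lib.MP_ca0fc2_an.Mg.G027
import Pool.Agent.Lib.MP_ca0fc2_an.Mg.G037
import Pool.Agent.Lib.MP_ca0fc2_an.GW.U3
import Pool.Agent.Lib.MP_ca0fc2_an.Mg.G036
import Pool.Agent.Lib.MP_ca0fc2_an.GW.M4a
import Pool.Agent.Lib.MP_ca0fc2_an.Mg.G026

section

/-! The weight satisfies `GX`. -/

set_option autoImplicit false

open Metric Set MeasureTheory Filter Topology

namespace Pool.Agent.MPca0fc2.GW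

open Pool.Agent.MPca0fc2.FD

variable {n d : ℕ} {U : Set (Ec n)} {δ : Ec n → ℝ} {h : Ec n → Ec n → Fin n → ℂ} {P : PS n}
  {s : ℕ → ℝ} {u : Fin d → Ec n → ℂ} {b : Fin d → ℕ → Ec n → ℂ} {c C A M ρ K : ℝ}

/-- PROOF. The least index `l` with `ek l ≤ σ` exists as `ek l → 0` (`Nat.find`). -/
theorem ek_index {σ : ℝ} (hσ : 0 < σ) : ∃ l : ℕ, ek l ≤ σ ∧ ∀ j, j < l → σ < ek j := by
  classical
  have hex : ∃ l : ℕ, ek l ≤ σ := by
    obtain ⟨l, hl⟩ := exists_pow_lt_of_lt_one hσ (by norm_num : (1 / 2 : ℝ) < 1)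
    exact ⟨l, hl.le⟩
  exact ⟨Nat.find hex, Nat.find_spec hex, fun j hj => not_le.1 (Nat.find_min hex hj)⟩

private theorem S5_ekdiv {l j : ℕ} (hlj : l ≤ j) : ek j / ek l = (1 / 2 : ℝ) ^ (j - l) := by
  have h0 := ek_pos l
  rw [div_eq_iff h0.ne']
  unfold ek
  rw [← pow_add, Nat.sub_add_cancel hlj]

private theorem S5_pow (k : ℕ) {θ : ℝ} (hθ : 1 / 16 ≤ θ) :
    ((1 / 2 : ℝ) ^ k) ^ θ ≤ (1 / 2 : ℝ) ^ ((k : ℝ) / 16) := by
  rw [← Real.rpow_natCast, ← Real.rpow_mul (by norm_num)]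
  refine Real.rpow_le_rpow_of_exponent_ge (by norm_num) (by norm_num) ?_
  have hk : (0 : ℝ) ≤ k := Nat.cast_nonneg k
  nlinarith

private theorem S5_al (l j : ℕ) :
    al (ek l) j ≤ (1 / 2 : ℝ) ^ ((((j - l) + (l - j) : ℕ) : ℝ) / 16) := by
  have h0 := ek_pos l
  have h1 := ek_pos j
  unfold al
  have hm : 0 ≤ min (ek j / ek l) (ek l / ek j) := le_min (by positivity) (by positivity)
  rcases le_total l j with hlj | hlj
  · rw [show (j - l) + (l - j) = j - l by omega]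
    refine (Real.rpow_le_rpow hm (min_le_left _ _) (by norm_num)).trans ?_
    rw [S5_ekdiv hlj]
    exact S5_pow _ (by norm_num)
  · rw [show (j - l) + (l - j) = l - j by omega]
    refine (Real.rpow_le_rpow hm (min_le_right _ _) (by norm_num)).trans ?_
    rw [S5_ekdiv hlj]
    exact S5_pow _ (by norm_num)

private theorem S5_be (l j : ℕ) :
    be (ek l) j ≤ (1 / 2 : ℝ) ^ ((((j - l) + (l - j) : ℕ) : ℝ) / 16) := by
  have h0 := ek_pos l
  have h1 := ek_pos j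
  unfold be
  rcases Nat.lt_or_ge j l with hlj | hlj
  · have h2 : ek l ≤ ek (j + 1) := ek_anti hlj
    rw [ek_succ] at h2
    rw [if_neg (by linarith), show (j - l) + (l - j) = l - j by omega, S5_ekdiv hlj.le]
    exact S5_pow _ (by norm_num)
  · rw [if_pos (ek_anti hlj), show (j - l) + (l - j) = j - l by omega, S5_ekdiv hlj]
    exact S5_pow _ (by norm_num)

private theorem S5_geo (q : ℝ) (hq0 : 0 ≤ q) (hq : q < 1) (m N : ℕ) (B : ℝ) (hB : 0 ≤ B) :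
    ∑ l ∈ Finset.range N, (if m ≤ l then B * q ^ (l - m) else 0) ≤ B / (1 - q) := by
  have h1q : 0 < 1 - q := by linarith
  have hind : ∀ N : ℕ, ∑ l ∈ Finset.range N, (if m ≤ l then B * q ^ (l - m) else 0) =
      B / (1 - q) * (1 - (if m ≤ N then q ^ (N - m) else 1)) := by
    intro N
    induction N with
    | zero =>
      rw [Finset.range_zero, Finset.sum_empty]
      split_ifs with h0
      · simp
      · simp
    | succ N ih =>
      rw [Finset.sum_range_succ, ih]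
      by_cases h1 : m ≤ N
      · rw [if_pos h1, if_pos h1, if_pos (by omega), show N + 1 - m = (N - m) + 1 by omega,
          pow_succ]
        field_simp
        ring
      · rw [if_neg h1, if_neg h1]
        by_cases h2 : m ≤ N + 1
        · rw [if_pos h2, show N + 1 - m = 0 by omega]
          simp
        · rw [if_neg h2]
          simp
  rw [hind N]
  have h0 : 0 ≤ (if m ≤ N then q ^ (N - m) else 1) := by
    split_ifs
    · exact pow_nonneg hq0 _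
    · exact zero_le_one
  have h2 : 0 ≤ B / (1 - q) := by positivity
  nlinarith

private theorem S5_quarter (N : ℕ) : ∑ l ∈ Finset.range N, (ek l) ^ (1 / 4 : ℝ) ≤ 8 := by
  have hq : ((1 / 2 : ℝ)) ^ (1 / 4 : ℝ) ≤ 7 / 8 := by
    have h1 : ((1 / 2 : ℝ)) ^ (1 / 4 : ℝ) ≤ (((7 / 8 : ℝ)) ^ (4 : ℝ)) ^ (1 / 4 : ℝ) := by
      refine Real.rpow_le_rpow (by norm_num) ?_ (by norm_num)
      norm_num
    rwa [← Real.rpow_mul (by norm_num), show (4 : ℝ) * (1 / 4) = 1 by norm_num, Real.rpow_one]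
      at h1
  have hterm : ∀ l ∈ Finset.range N, (ek l) ^ (1 / 4 : ℝ) ≤
      (if 0 ≤ l then 1 * (7 / 8 : ℝ) ^ (l - 0) else 0) := by
    intro l _
    rw [if_pos (Nat.zero_le _), one_mul, Nat.sub_zero]
    unfold ek
    rw [← Real.rpow_natCast, ← Real.rpow_mul (by norm_num), mul_comm,
      Real.rpow_mul (by norm_num), Real.rpow_natCast]
    exact pow_le_pow_left₀ (by positivity) hq l
  refine (Finset.sum_le_sum hterm).trans ?_
  refine (S5_geo (7 / 8) (by norm_num) (by norm_num) 0 N 1 zero_le_one).trans ?_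
  norm_num

/-- The bound of the sum.
PROOF. `g j = Jv j z + SS j z ≤ K₄` (`Jv_le`, `SS_le`) for `j < J`, `g J = SS J z`, `g j = 0` for `j > J` (change `Jv J` to `0`: the sum over `Ico (l+1) (min m J)` contains only `j < J`). `GS (ek l) z ≤ (ek l)^(1/4) + ∑_{j ≤ J} (1/2)^(|j-l|/16) g j`, as `al (ek l) j = (1/2)^(3|j-l|/8)` and
`be (ek l) j ≤ (1/2)^(|j-l|/16)`. The terms `l < m`: `seq_lemma`, and `∑ (ek l)^(1/4) ≤ K`. The terms `l ≥ m`: `GS ≤ K` (`GS_le`; `ek l ≤ 1 ≤ C`), `ek l / δ z`, geometric, `ek m ≤ δ z`. -/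
theorem gam_sum (n d : ℕ) (c C A M : ℝ) : ∃ κ₁ : ℝ, 0 < κ₁ ∧ ∀ κ' : ℝ, 0 < κ' → κ' ≤ κ₁ →
    ∃ K' : ℝ, 1 ≤ K' ∧ ∀ (U : Set (Ec n))
    (δ : Ec n → ℝ) (h : Ec n → Ec n → Fin n → ℂ) (P : PS n) (s : ℕ → ℝ) (u : Fin d → Ec n → ℂ)
    (b : Fin d → ℕ → Ec n → ℂ) (ρ K : ℝ), DT U δ h P s u b c C A M ρ K → ∀ z ∈ Om U δ,
    ∀ m J : ℕ, ek m ≤ δ z →
    ∑' l : ℕ, ENNReal.ofReal (min 1 (ek l / δ z) *
      Real.exp (-(κ' * ∑ j ∈ Finset.Ico (l + 1) (min m J), (Jv b j z + SS P s δ c j z))) *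
      GS P s δ c b J (ek l) z) ≤ ENNReal.ofReal K' := by
  obtain ⟨K₀, hK₀, hSS⟩ := SS_le n c C A
  obtain ⟨K₅, hK₅, hGS⟩ := GS_le n d c C A M
  have hK₄ : 0 < 10 * d * |M| + K₀ := by positivity
  set K₄ : ℝ := 10 * d * |M| + K₀ with hK₄d
  have hlog : 0 < Real.log 2 := Real.log_pos (by norm_num)
  refine ⟨Real.log 2 / 32 / K₄, by positivity, fun κ' hκ' hκ₁ => ?_⟩
  have hκK : κ' * K₄ ≤ Real.log 2 / 32 := by rwa [le_div_iff₀ hK₄] at hκ₁
  obtain ⟨Kq, hKq, hseq⟩ := seq_lemma hκ' hK₄ hκK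
  refine ⟨Kq + 8 + 2 * K₅, by linarith, ?_⟩
  intro U δ h P s u b ρ K hT z hz m J hm
  have hz0 := hz.2
  have hSS0 : ∀ j, 0 ≤ SS P s δ c j z ∧ SS P s δ c j z ≤ K₀ := fun j =>
    hSS U δ h P s hT.cd hT.pa hT.sl j z (Om_sub_Dk hT.cd j hz)
  have hJv0 : ∀ j, 0 ≤ Jv b j z ∧ Jv b j z ≤ 10 * d * |M| := fun j =>
    ⟨(Jv_le hT j hz).1, (Jv_le hT j hz).2.trans
      (mul_le_mul_of_nonneg_left (le_abs_self M) (by positivity))⟩
  set g : ℕ → ℝ := fun j => (if j < J then Jv b j z else 0) +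
    (if j < J + 1 then SS P s δ c j z else 0) with hg
  have hg0 : ∀ j, 0 ≤ g j := by
    intro j
    rw [hg]
    refine add_nonneg ?_ ?_
    · split_ifs
      · exact (hJv0 j).1
      · exact le_rfl
    · split_ifs
      · exact (hSS0 j).1
      · exact le_rfl
  have hg4 : ∀ j, g j ≤ K₄ := by
    intro j
    rw [hg, hK₄d]
    refine add_le_add ?_ ?_
    · split_ifs
      · exact (hJv0 j).2
      · positivity
    · split_ifs
      · exact (hSS0 j).2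
      · linarith
  have hIco : ∀ l, ∑ j ∈ Finset.Ico (l + 1) (min m J), (Jv b j z + SS P s δ c j z) =
      ∑ j ∈ Finset.Ico (l + 1) (min m J), g j := by
    intro l
    refine Finset.sum_congr rfl fun j hj => ?_
    have h1 : j < J := lt_of_lt_of_le (Finset.mem_Ico.1 hj).2 (min_le_right _ _)
    rw [hg]
    simp only
    rw [if_pos h1, if_pos (by omega)]
  set a : ℕ → ℕ → ℝ := fun l j => (1 / 2 : ℝ) ^ ((((j - l) + (l - j) : ℕ) : ℝ) / 16) with ha
  have ha0 : ∀ l j, 0 ≤ a l j := fun l j => by rw [ha]; positivity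
  have hGS1 : ∀ l, GS P s δ c b J (ek l) z ≤ (ek l) ^ (1 / 4 : ℝ) +
      ∑ j ∈ Finset.range (J + 1), a l j * g j := by
    intro l
    unfold GS
    have e1 : ∑ j ∈ Finset.range (J + 1), a l j * g j =
        ∑ j ∈ Finset.range J, a l j * Jv b j z +
          ∑ j ∈ Finset.range (J + 1), a l j * SS P s δ c j z := by
      have e2 : ∀ j ∈ Finset.range (J + 1), a l j * g j =
          (if j < J then a l j * Jv b j z else 0) + a l j * SS P s δ c j z := by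
        intro j hj
        rw [hg]
        simp only
        rw [if_pos (Finset.mem_range.1 hj), mul_add]
        split_ifs
        · rfl
        · rw [mul_zero]
      rw [Finset.sum_congr rfl e2, Finset.sum_add_distrib]
      congr 1
      rw [Finset.sum_range_succ, if_neg (lt_irrefl J), add_zero]
      exact Finset.sum_congr rfl fun j hj => by rw [if_pos (Finset.mem_range.1 hj)]
    rw [e1, ← add_assoc]
    refine add_le_add (add_le_add le_rfl ?_) ?_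
    · exact Finset.sum_le_sum fun j _ => mul_le_mul_of_nonneg_right (S5_al l j) (hJv0 j).1
    · exact Finset.sum_le_sum fun j _ => mul_le_mul_of_nonneg_right (S5_be l j) (hSS0 j).1
  set E : ℕ → ℝ := fun l => Real.exp (-(κ' * ∑ j ∈ Finset.Ico (l + 1) (min m J), g j)) with hE
  have hE0 : ∀ l, 0 ≤ E l := fun l => (Real.exp_pos _).le
  have hE1 : ∀ l, E l ≤ 1 := by
    intro l
    rw [hE]
    refine Real.exp_le_one_iff.2 ?_
    have : 0 ≤ ∑ j ∈ Finset.Ico (l + 1) (min m J), g j := Finset.sum_nonneg fun j _ => hg0 j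
    have := mul_nonneg hκ'.le this
    linarith
  have hag : ∀ l, 0 ≤ ∑ j ∈ Finset.range (J + 1), a l j * g j := fun l =>
    Finset.sum_nonneg fun j _ => mul_nonneg (ha0 l j) (hg0 j)
  have hGS0 : ∀ l, 0 ≤ GS P s δ c b J (ek l) z := fun l =>
    (GS_scale hT J hz (ek_pos l) (ek_pos l)).1
  have hF0 : ∀ l, 0 ≤ min 1 (ek l / δ z) * E l * GS P s δ c b J (ek l) z := by
    intro l
    have h1 : 0 ≤ min 1 (ek l / δ z) := le_min zero_le_one (div_nonneg (ek_pos l).le hz0.le)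
    exact mul_nonneg (mul_nonneg h1 (hE0 l)) (hGS0 l)
  have hterm : ∀ l, min 1 (ek l / δ z) * E l * GS P s δ c b J (ek l) z ≤
      (if l < m then E l * ∑ j ∈ Finset.range (J + 1), a l j * g j else 0) +
      (ek l) ^ (1 / 4 : ℝ) + (if m ≤ l then K₅ * (1 / 2 : ℝ) ^ (l - m) else 0) := by
    intro l
    have hq0 : 0 ≤ (ek l) ^ (1 / 4 : ℝ) := Real.rpow_nonneg (ek_pos l).le _
    rcases Nat.lt_or_ge l m with hlm | hlm
    · rw [if_pos hlm, if_neg (by omega), add_zero]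
      calc min 1 (ek l / δ z) * E l * GS P s δ c b J (ek l) z
          ≤ 1 * E l * GS P s δ c b J (ek l) z := by
            refine mul_le_mul_of_nonneg_right (mul_le_mul_of_nonneg_right (min_le_left _ _)
              (hE0 l)) (hGS0 l)
        _ = E l * GS P s δ c b J (ek l) z := by rw [one_mul]
        _ ≤ E l * ((ek l) ^ (1 / 4 : ℝ) + ∑ j ∈ Finset.range (J + 1), a l j * g j) :=
            mul_le_mul_of_nonneg_left (hGS1 l) (hE0 l)
        _ = E l * ∑ j ∈ Finset.range (J + 1), a l j * g j + E l * (ek l) ^ (1 / 4 : ℝ) := by ring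
        _ ≤ _ := by
            have := mul_le_mul_of_nonneg_right (hE1 l) hq0
            linarith
    · rw [if_neg (by omega), if_pos hlm, zero_add]
      have h1 : ek l / δ z ≤ (1 / 2 : ℝ) ^ (l - m) := by
        rw [← S5_ekdiv hlm]
        exact div_le_div_of_nonneg_left (ek_pos l).le (ek_pos m) hm
      have h2 : GS P s δ c b J (ek l) z ≤ K₅ :=
        hGS U δ h P s u b ρ K hT J (ek l) (ek_pos l)
          ((ek_le_one l).trans hT.cd.pos.2.2) z hz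
      have h3 : min 1 (ek l / δ z) * E l ≤ (1 / 2 : ℝ) ^ (l - m) := by
        calc min 1 (ek l / δ z) * E l ≤ (ek l / δ z) * 1 :=
              mul_le_mul (min_le_right _ _) (hE1 l) (hE0 l) (div_nonneg (ek_pos l).le hz0.le)
          _ ≤ _ := by rw [mul_one]; exact h1
      calc min 1 (ek l / δ z) * E l * GS P s δ c b J (ek l) z
          ≤ (1 / 2 : ℝ) ^ (l - m) * K₅ :=
            mul_le_mul h3 h2 (hGS0 l) (by positivity)
        _ ≤ _ := by rw [mul_comm]; linarith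
  have hpart : ∀ N, ∑ l ∈ Finset.range N, min 1 (ek l / δ z) * E l * GS P s δ c b J (ek l) z ≤
      Kq + 8 + 2 * K₅ := by
    intro N
    refine (Finset.sum_le_sum fun l _ => hterm l).trans ?_
    rw [Finset.sum_add_distrib, Finset.sum_add_distrib]
    refine add_le_add (add_le_add ?_ (S5_quarter N)) ?_
    · rw [← Finset.sum_filter]
      refine le_trans ?_ (hseq g m J hg0 hg4)
      refine Finset.sum_le_sum_of_subset_of_nonneg ?_ ?_
      · intro l hl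
        rw [Finset.mem_filter] at hl
        exact Finset.mem_range.2 hl.2
      · intro l _ _
        exact mul_nonneg (hE0 l) (hag l)
    · refine (S5_geo (1 / 2) (by norm_num) (by norm_num) m N K₅ (by linarith)).trans (le_of_eq ?_)
      ring
  have hrw : ∀ l, min 1 (ek l / δ z) *
      Real.exp (-(κ' * ∑ j ∈ Finset.Ico (l + 1) (min m J), (Jv b j z + SS P s δ c j z))) *
      GS P s δ c b J (ek l) z = min 1 (ek l / δ z) * E l * GS P s δ c b J (ek l) z := by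
    intro l
    rw [hIco l]
  simp_rw [hrw]
  refine ENNReal.tsum_le_of_sum_range_le fun N => ?_
  rw [← ENNReal.ofReal_sum_of_nonneg fun l _ => hF0 l]
  exact ENNReal.ofReal_le_ofReal (hpart N)

/-- The weight.
PROOF. `κ`, `κ₀` of `exp_le`, `κ₁` of `gam_sum`, `κ' = min κ₀ κ₁`; `κ₂ = 2 κ' / ρ`. `rb`: `Rv_bd`. `ex`: let `m` be the least index with `ek m ≤ δ z`, and `Γ l = K min 1 (ek l / δ z) exp(-κ' ∑_{Ico (l+1) (min m J)} g) GS (ek l) z`. Let `C / 2^(l+1) < σ ≤ C / 2^l`, `σ = δ ζ`, `t = ‖v(z, ζ)‖`. The least index `l'` with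
`ek l' ≤ σ` satisfies `l' ≤ l + 1` (`C ≥ 1`), so `exp_le` gives `‖exp‖ ≤ K (t / σ) exp(-κ' ∑_{Ico (l+1) (min m J)} g)`. `GG ζ = GS σ ζ ≤ K (t / σ)³ GS σ z ≤ K' (t / σ)³ GS (ek l) z` (`GS_cmp`, `GS_scale`, `σ / ek l ∈ [C / 2, C]`). And `1 ≤ K (t / σ) min 1 (ek l / δ z)`, as `t ≥ σ / 2`, `t ≥ δ z / 2`,
`σ ≤ C ek l`. The sum: `gam_sum`. -/
theorem GG_GX (hn : 2 ≤ n) (d : ℕ) (c C A M K K₁ ρ : ℝ) (hc : 0 < c) (hρ : 0 < ρ) :
    ∃ κ κ₂ A' : ℝ, 1 ≤ A' ∧ ∀ (U : Set (Ec n))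
    (δ : Ec n → ℝ) (h : Ec n → Ec n → Fin n → ℂ) (P : PS n) (s : ℕ → ℝ) (u : Fin d → Ec n → ℂ)
    (b : Fin d → ℕ → Ec n → ℂ) (Λ : Fin d → ℕ → Ec n → Ec n → Fin n → ℂ),
    DT U δ h P s u b c C A M ρ K → HL U δ h c u b Λ K₁ → ∀ J : ℕ,
    GX U δ h (GG P s δ c b J) (Qv P δ Λ J κ κ₂) (Rv' P δ Λ J κ κ₂) C A' := by
  obtain ⟨κ, κ₀, Ke, hκ, hκ1, hκ₀, hκρ, hKe, hexp⟩ := exp_le hn d c C A M K ρ hρ
  obtain ⟨κ₁, hκ₁, hgam⟩ := gam_sum n d c C A M
  have hκ' : 0 < min κ₀ κ₁ := lt_min hκ₀ hκ₁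
  obtain ⟨Kg, hKg, hgs⟩ := hgam (min κ₀ κ₁) hκ' (min_le_right _ _)
  obtain ⟨Kc, hKc, hcmp⟩ := GS_cmp n d c C A M K hc
  obtain ⟨Kr, hKr, hRv⟩ := Rv_bd n d c C A K₁
  set κ' : ℝ := min κ₀ κ₁ with hκ'd
  have hκ₂1 : 2 * κ' / ρ ≤ 1 := by
    refine le_trans ?_ hκρ
    refine div_le_div_of_nonneg_right ?_ hρ.le
    have : κ' ≤ κ₀ := min_le_left _ _
    linarith
  have hκ₂0 : 0 ≤ 2 * κ' / ρ := by positivity
  refine ⟨κ, 2 * κ' / ρ, Kr + Ke * Kc * (2 * C) ^ 2 * Kg, ?_, ?_⟩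
  · have : 0 ≤ Ke * Kc * (2 * C) ^ 2 * Kg := by positivity
    linarith
  intro U δ h P s u b Λ hT hΛ J
  have hC := hT.cd.pos.2.2
  have hKX : 0 ≤ Ke * Kc * (2 * C) ^ 2 := by positivity
  constructor
  · intro z hz ζ hζ
    refine (hRv U δ h P s u b Λ M ρ K hT hΛ J κ (2 * κ' / ρ) hκ.le hκ1 hκ₂0 hκ₂1 z hz ζ
      hζ).trans ?_
    refine mul_le_mul_of_nonneg_right ?_ (sq_nonneg _)
    have : 0 ≤ Ke * Kc * (2 * C) ^ 2 * Kg := by positivity
    linarith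
  · intro z hz
    have hz0 := hz.2
    obtain ⟨m, hm, hm'⟩ := ek_index hz0
    set F : ℕ → ℝ := fun l => min 1 (ek l / δ z) *
      Real.exp (-(κ' * ∑ j ∈ Finset.Ico (l + 1) (min m J), (Jv b j z + SS P s δ c j z))) *
      GS P s δ c b J (ek l) z with hF
    have hGS0 : ∀ l, 0 ≤ GS P s δ c b J (ek l) z := fun l =>
      (GS_scale hT J hz (ek_pos l) (ek_pos l)).1
    have hmin : ∀ l, 0 ≤ min 1 (ek l / δ z) := fun l =>
      le_min zero_le_one (div_nonneg (ek_pos l).le hz0.le)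
    have hF0 : ∀ l, 0 ≤ F l := fun l =>
      mul_nonneg (mul_nonneg (hmin l) (Real.exp_pos _).le) (hGS0 l)
    have hSH := DT_SH n c C A
    obtain ⟨K₀, _, hSH⟩ := hSH
    have hS := hSH d U δ h P s u b M ρ K hT
    have hg0 : ∀ j, 0 ≤ Jv b j z + SS P s δ c j z := fun j =>
      add_nonneg (Jv_le hT j hz).1 (hS.nn j z (Om_sub_Dk hT.cd j hz))
    refine ⟨fun l => Ke * Kc * (2 * C) ^ 2 * F l, fun l => mul_nonneg hKX (hF0 l), ?_, ?_⟩
    · have h1 := hgs U δ h P s u b ρ K hT z hz m J hm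
      calc ∑' l, ENNReal.ofReal (Ke * Kc * (2 * C) ^ 2 * F l)
          = ENNReal.ofReal (Ke * Kc * (2 * C) ^ 2) * ∑' l, ENNReal.ofReal (F l) := by
            rw [← ENNReal.tsum_mul_left]
            exact tsum_congr fun l => ENNReal.ofReal_mul hKX
        _ ≤ ENNReal.ofReal (Ke * Kc * (2 * C) ^ 2) * ENNReal.ofReal Kg := by gcongr
        _ = ENNReal.ofReal (Ke * Kc * (2 * C) ^ 2 * Kg) := (ENNReal.ofReal_mul hKX).symm
        _ ≤ _ := ENNReal.ofReal_le_ofReal (by linarith)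
    · intro l ζ hζ hlo hup
      have hσ := hζ.2
      obtain ⟨l', hl', hl''⟩ := ek_index hσ
      have hek : ∀ k, ek k = 1 / 2 ^ k := fun k => by
        unfold ek
        rw [one_div_pow]
      have hp : (0 : ℝ) < 2 ^ l := by positivity
      -- `l' ≤ l + 1`
      have hll : l' ≤ l + 1 := by
        by_contra hcon
        have h1 := hl'' (l + 1) (by omega)
        rw [hek] at h1
        have h2 : (1 : ℝ) / 2 ^ (l + 1) ≤ C / 2 ^ (l + 1) :=
          div_le_div_of_nonneg_right hC (by positivity)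
        linarith
      obtain ⟨v1, v2, _, v4⟩ := v_lb hT.cd.geo0 hz hζ
      set t : ℝ := ‖vv δ h z ζ‖ with ht
      have he := hexp κ' hκ' (min_le_left _ _) U δ h P s u b Λ K₁ hT hΛ z hz ζ hζ l' m J hl' hl''
        hm hm'
      have hc1 := hcmp U δ h P s u b ρ hT J z hz ζ hζ
      have hsc := (GS_scale hT J hz hσ (ek_pos l)).2
      have hr : 0 < t / δ ζ := div_pos v4 hσ
      have hr2 : 1 ≤ 2 * (t / δ ζ) := by
        rw [← mul_div_assoc, le_div_iff₀ hσ, one_mul]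
        exact v2
      have hσl : δ ζ ≤ C * ek l := by
        rw [hek, mul_one_div]
        exact hup
      have hlσ : ek l ≤ 2 * δ ζ := by
        rw [hek]
        rw [pow_succ] at hlo
        have h2 : (1 : ℝ) / 2 ^ l ≤ C / 2 ^ l := div_le_div_of_nonneg_right hC hp.le
        have h3 : C / (2 ^ l * 2) = C / 2 ^ l / 2 := by rw [div_div]
        rw [h3] at hlo
        linarith
      have hmax : (max (δ ζ / ek l) (ek l / δ ζ)) ^ (3 / 8 : ℝ) ≤ 2 * C := by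
        have h1 : max (δ ζ / ek l) (ek l / δ ζ) ≤ 2 * C := by
          refine max_le ?_ ?_
          · rw [div_le_iff₀ (ek_pos l)]
            have := mul_pos (lt_of_lt_of_le one_pos hC) (ek_pos l)
            linarith
          · rw [div_le_iff₀ hσ]
            nlinarith
        have h0 : 0 ≤ max (δ ζ / ek l) (ek l / δ ζ) :=
          le_max_of_le_left (div_nonneg hσ.le (ek_pos l).le)
        calc (max (δ ζ / ek l) (ek l / δ ζ)) ^ (3 / 8 : ℝ) ≤ (2 * C) ^ (3 / 8 : ℝ) :=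
              Real.rpow_le_rpow h0 h1 (by norm_num)
          _ ≤ (2 * C) ^ (1 : ℝ) :=
              Real.rpow_le_rpow_of_exponent_le (by linarith) (by norm_num)
          _ = 2 * C := Real.rpow_one _
      have hone : 1 ≤ 2 * C * (t / δ ζ) * min 1 (ek l / δ z) := by
        have hCr : 0 ≤ 2 * C * (t / δ ζ) := by positivity
        rw [mul_min_of_nonneg _ _ hCr]
        refine le_min ?_ ?_
        · rw [mul_one]
          nlinarith
        · have h1 : 2 * C * (t / δ ζ) * (ek l / δ z) = (2 * t / δ z) * (C * ek l / δ ζ) := by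
            field_simp
          rw [h1]
          have h2 : 1 ≤ 2 * t / δ z := by rw [le_div_iff₀ hz0, one_mul]; exact v1
          have h3 : 1 ≤ C * ek l / δ ζ := by rw [le_div_iff₀ hσ, one_mul]; exact hσl
          nlinarith
      set E : ℝ := Real.exp (-(κ' * ∑ j ∈ Finset.Ico (l + 1) (min m J),
        (Jv b j z + SS P s δ c j z))) with hE
      have hE0 : 0 ≤ E := (Real.exp_pos _).le
      have hEE : Real.exp (-(κ' * ∑ j ∈ Finset.Ico l' (min m J),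
          (Jv b j z + SS P s δ c j z))) ≤ E := by
        refine Real.exp_le_exp.2 (neg_le_neg (mul_le_mul_of_nonneg_left ?_ hκ'.le))
        refine Finset.sum_le_sum_of_subset_of_nonneg ?_ fun j _ _ => hg0 j
        exact Finset.Ico_subset_Ico hll le_rfl
      have hG0 := hGS0 l
      have hGG : GG P s δ c b J ζ ≤ Kc * (t / δ ζ) ^ 3 * (2 * C * GS P s δ c b J (ek l) z) := by
        refine hc1.trans ?_
        refine mul_le_mul_of_nonneg_left (hsc.trans ?_) (by positivity)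
        exact mul_le_mul_of_nonneg_right hmax hG0
      have hGGn : 0 ≤ GG P s δ c b J ζ := (GS_scale hT J hζ hσ hσ).1
      calc ‖Complex.exp (wEx (Qv P δ Λ J κ (2 * κ' / ρ)) z ζ)‖ * GG P s δ c b J ζ
          ≤ (Ke * (t / δ ζ) * E) *
            (Kc * (t / δ ζ) ^ 3 * (2 * C * GS P s δ c b J (ek l) z)) := by
            refine mul_le_mul (he.trans ?_) hGG hGGn (by positivity)
            exact mul_le_mul_of_nonneg_left hEE (by positivity)
        _ = Ke * Kc * (2 * C) * (t / δ ζ) ^ 4 * E * GS P s δ c b J (ek l) z * 1 := by ring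
        _ ≤ Ke * Kc * (2 * C) * (t / δ ζ) ^ 4 * E * GS P s δ c b J (ek l) z *
            (2 * C * (t / δ ζ) * min 1 (ek l / δ z)) :=
            mul_le_mul_of_nonneg_left hone (by positivity)
        _ = (t / δ ζ) ^ 5 * (Ke * Kc * (2 * C) ^ 2 * F l) := by
            rw [hF]
            ring

end Pool.Agent.MPca0fc2.GW
end

section

/-! The smooth functions near the data. -/

set_option autoImplicit false

open Metric Set MeasureTheory Filter Topology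

namespace Pool.Agent.MPca0fc2.GW

open Pool.Agent.MPca0fc2.FD

variable {n d : ℕ} {U : Set (Ec n)} {δ : Ec n → ℝ} {h : Ec n → Ec n → Fin n → ℂ} {P : PS n}
  {s : ℕ → ℝ} {u : Fin d → Ec n → ℂ} {b : Fin d → ℕ → Ec n → ℂ} {c C A M ρ K : ℝ}

/-- the smooth function near `u`, with the lag `lam` -/
noncomputable def ph (δ : Ec n → ℝ) (J : ℕ) (lam : ℝ) (b : ℕ → Ec n → ℂ) (z : Ec n) : ℂ :=
  b 0 z + ∑ j ∈ Finset.range J, ((1 - th (2 * lam * ek j) (δ z) : ℝ) : ℂ) * (b (j + 1) z - b j z)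


private theorem S6_tele (f a : ℕ → ℂ) {m J : ℕ} (h1 : 1 ≤ m) (hJ : m ≤ J)
    (h0 : ∀ j, m ≤ j → j < J → a j = 0) (h2 : ∀ j, j + 1 < m → a j = 1) :
    f 0 + ∑ j ∈ Finset.range J, a j * (f (j + 1) - f j) =
      f (m - 1) + a (m - 1) * (f m - f (m - 1)) := by
  obtain ⟨m', rfl⟩ : ∃ m', m = m' + 1 := ⟨m - 1, by omega⟩
  have e1 : ∑ j ∈ Finset.range J, a j * (f (j + 1) - f j) =
      ∑ j ∈ Finset.range (m' + 1), a j * (f (j + 1) - f j) := by
    symm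
    refine Finset.sum_subset (Finset.range_subset_range.2 hJ) fun j hj hj' => ?_
    rw [Finset.mem_range] at hj
    rw [Finset.mem_range, not_lt] at hj'
    rw [h0 j hj' hj, zero_mul]
  have e2 : ∑ j ∈ Finset.range m', a j * (f (j + 1) - f j) = f m' - f 0 := by
    rw [← Finset.sum_range_sub]
    refine Finset.sum_congr rfl fun j hj => ?_
    rw [Finset.mem_range] at hj
    rw [h2 j (by omega), one_mul]
  rw [e1, Finset.sum_range_succ, e2, Nat.add_sub_cancel]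
  ring

private theorem S6_conv {x y : ℂ} {t B : ℝ} (ht0 : 0 ≤ t) (ht1 : t ≤ 1) (hx : ‖x‖ ≤ B)
    (hy : ‖y‖ ≤ B) : ‖x + (t : ℂ) * (y - x)‖ ≤ B := by
  have e : x + (t : ℂ) * (y - x) = ((1 - t : ℝ) : ℂ) * x + (t : ℂ) * y := by
    push_cast; ring
  rw [e]
  refine (norm_add_le _ _).trans ?_
  rw [norm_mul, norm_mul, Complex.norm_real, Complex.norm_real, Real.norm_of_nonneg ht0,
    Real.norm_of_nonneg (by linarith : (0 : ℝ) ≤ 1 - t)]
  nlinarith [norm_nonneg x, norm_nonneg y]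

private theorem S6_rpow {x a : ℝ} (hx : 0 < x) (hx1 : x ≤ 1) (ha : a ≤ 1) :
    x ≤ x ^ a := by
  calc x = x ^ (1 : ℝ) := (Real.rpow_one x).symm
    _ ≤ x ^ a := Real.rpow_le_rpow_of_exponent_ge hx hx1 ha

/-- The values of the coefficients. `th N s = 0` for `s ≤ N / 2` and `= 1` for `s ≥ N`. Let `m` be the least index with `2 lam ek m ≤ σ`, or `J` if this index is larger than `J`.
PROOF. `m ≥ 1` as `2 lam > σ`. For `j ≥ m` (`j < J`): `σ ≥ 2 lam ek m ≥ 2 lam ek j`: the coefficient is `0`. For `j + 2 ≤ m`: `2 lam ek (j+1) > σ`, so `σ < lam ek j`: the coefficient is `1`. So only `j = m - 1` may be different from `0` and `1`. If `m` is the least index with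
`2 lam ek m ≤ σ` then `ek (m-1) = 2 ek m ≤ σ / lam`, and `2 lam ek (m-1) > σ`; if `m = J` and `2 lam ek J > σ`: `ek J ≤ σ / lam` (hypothesis), `ek (J-1) ≤ 2 σ / lam`. -/
theorem th_index {lam σ : ℝ} {J : ℕ} (hσ : 0 < σ) (hl : σ < 2 * lam) (hJ : lam * ek J ≤ σ)
    (hJ1 : 1 ≤ J) : ∃ m : ℕ, 1 ≤ m ∧ m ≤ J ∧ ek m ≤ σ / lam ∧ ek (m - 1) ≤ 2 * σ / lam ∧
      σ / (4 * lam) ≤ ek m ∧ (∀ j, m ≤ j → j < J → th (2 * lam * ek j) σ = 1) ∧
      ∀ j, j + 1 < m → th (2 * lam * ek j) σ = 0 := by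
  classical
  have hlam : 0 < lam := by linarith
  have hex : ∃ m : ℕ, 2 * lam * ek m ≤ σ ∨ J ≤ m := ⟨J, Or.inr le_rfl⟩
  obtain ⟨m, hm, hmin⟩ : ∃ m : ℕ, (2 * lam * ek m ≤ σ ∨ J ≤ m) ∧
      ∀ j, j < m → ¬ (2 * lam * ek j ≤ σ ∨ J ≤ j) :=
    ⟨Nat.find hex, Nat.find_spec hex, fun j hj => Nat.find_min hex hj⟩
  have hm1 : 1 ≤ m := by
    rcases Nat.eq_zero_or_pos m with rfl | h
    · rcases hm with h | h
      · rw [ek_zero] at h; linarith
      · omega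
    · exact h
  have hmJ : m ≤ J := by
    by_contra hcon
    exact hmin J (by omega) (Or.inr le_rfl)
  have hlt : ∀ j, j < m → σ < 2 * lam * ek j := by
    intro j hj
    by_contra hcon
    exact hmin j hj (Or.inl (not_lt.1 hcon))
  have hpm : ek (m - 1) = 2 * ek m := by
    have := ek_succ (m - 1)
    rw [Nat.sub_add_cancel hm1] at this
    linarith
  have hmle : ek m ≤ σ / lam := by
    rw [le_div_iff₀ hlam]
    rcases hm with h | h
    · have := ek_pos m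
      nlinarith
    · have : m = J := le_antisymm hmJ h
      rw [this, mul_comm]; exact hJ
  refine ⟨m, hm1, hmJ, hmle, ?_, ?_, ?_, ?_⟩
  · rw [hpm, mul_div_assoc]; linarith
  · have := hlt (m - 1) (by omega)
    rw [hpm] at this
    rw [div_le_iff₀ (by positivity)]
    nlinarith
  · intro j hj hjJ
    have hj2 : 2 * lam * ek m ≤ σ := by
      rcases hm with h | h
      · exact h
      · omega
    refine th_one (mul_pos (by positivity) (ek_pos j)) (le_trans ?_ hj2)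
    exact mul_le_mul_of_nonneg_left (ek_anti hj) (by positivity)
  · intro j hj
    refine th_zero (mul_pos (by positivity) (ek_pos j)) ?_
    have := hlt (j + 1) hj
    rw [ek_succ] at this
    nlinarith

/-- PROOF. `BL.c2` on `Om U δ ⊆ Dk j`, `th` is smooth in the second variable, `δ` is of class `C²`. -/
theorem ph_c2 (hT : DT U δ h P s u b c C A M ρ K) (J : ℕ) (lam : ℝ) (l : Fin d) :
    ContDiffOn ℝ 2 (ph δ J lam (b l)) (Om U δ) := by
  have hb : ∀ j, ContDiffOn ℝ 2 (b l j) (Om U δ) := fun j =>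
    ((hT.bl l).c2 j).mono (Om_sub_Dk hT.cd j)
  have hδ : ContDiffOn ℝ 2 δ (Om U δ) := hT.cd.geo0.dδ.mono fun z hz => hz.1
  have hco : ∀ N : ℝ, ContDiffOn ℝ 2 (fun z => ((1 - th N (δ z) : ℝ) : ℂ)) (Om U δ) := by
    intro N
    have h1 : ContDiffOn ℝ 2 (fun z => 1 - th N (δ z)) (Om U δ) :=
      contDiffOn_const.sub ((th_smooth N).comp_contDiffOn hδ)
    exact Complex.ofRealCLM.contDiff.comp_contDiffOn h1
  have : ph δ J lam (b l) = fun z => b l 0 z + ∑ j ∈ Finset.range J,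
      ((1 - th (2 * lam * ek j) (δ z) : ℝ) : ℂ) * (b l (j + 1) z - b l j z) := rfl
  rw [this]
  exact (hb 0).add (ContDiffOn.sum fun j _ => (hco _).mul ((hb (j + 1)).sub (hb j)))

/-- PROOF. By `th_index`, `ph = b (m-1) + θ (b m - b (m-1))` with `θ ∈ [0, 1]` at the point `z` (the sum telescopes). `|b j - uk u j| ≤ 4 ρ` (`BL.near`), `|uk u j z - u z| ≤ K M ek j / δ z ≤ 2 K M / lam` for `j = m, m - 1` (`uk_near`). And `|ph| ≤ 5 M` (`BL.bd`). -/
theorem ph_near (n : ℕ) (c C : ℝ) : ∃ K' : ℝ, 1 ≤ K' ∧ ∀ (d : ℕ) (U : Set (Ec n))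
    (δ : Ec n → ℝ) (h : Ec n → Ec n → Fin n → ℂ) (P : PS n) (s : ℕ → ℝ) (u : Fin d → Ec n → ℂ)
    (b : Fin d → ℕ → Ec n → ℂ) (A M ρ K : ℝ), DT U δ h P s u b c C A M ρ K → ∀ (J : ℕ) (lam : ℝ),
    1 ≤ J → C ≤ lam → ∀ z ∈ Om U δ, lam * ek J ≤ δ z → ∀ l : Fin d,
    ‖ph δ J lam (b l) z - u l z‖ ≤ 4 * ρ + K' * M / lam ∧ ‖ph δ J lam (b l) z‖ ≤ 5 * M := by
  obtain ⟨K₀, hK₀, hnear⟩ := uk_near n c C
  refine ⟨2 * K₀ + 1, by linarith, ?_⟩
  intro d U δ h P s u b A M ρ K hT J lam hJ hlam z hz hzJ l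
  have hg := hT.cd.geo0
  have hC1 : 1 ≤ C := hg.C1
  have hlam0 : 0 < lam := by linarith
  have hσ : 0 < δ z := hz.2
  have hσC : δ z ≤ C := hg.bδ z hz.1
  have hM0 : 0 < M := by linarith [hT.M1]
  obtain ⟨m, hm1, hmJ, e1, e2, -, e4, e5⟩ :=
    th_index hσ (by linarith : δ z < 2 * lam) hzJ hJ
  have ht := th_mem (2 * lam * ek (m - 1)) (δ z)
  have hph : ph δ J lam (b l) z = b l (m - 1) z +
      ((1 - th (2 * lam * ek (m - 1)) (δ z) : ℝ) : ℂ) * (b l m z - b l (m - 1) z) := by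
    refine S6_tele (fun j => b l j z) (fun j => ((1 - th (2 * lam * ek j) (δ z) : ℝ) : ℂ))
      hm1 hmJ ?_ ?_
    · intro j hj hjJ
      simp only [e4 j hj hjJ, sub_self, Complex.ofReal_zero]
    · intro j hj
      simp only [e5 j hj, sub_zero, Complex.ofReal_one]
  have hD : ∀ j, z ∈ Dk U δ c j := fun j => Om_sub_Dk hT.cd j hz
  have hn : ∀ j, ek j ≤ 2 * δ z / lam → ‖b l j z - u l z‖ ≤ 4 * ρ + (2 * K₀ + 1) * M / lam := by
    intro j hj
    have h1 : ‖b l j z - uk (u l) j z‖ ≤ 4 * ρ := (hT.bl l).near j z (hD j)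
    have h2 : ‖uk (u l) j z - u l z‖ ≤ K₀ * M * (ek j / δ z) :=
      hnear U δ h hT.cd (u l) M (hT.hol l) (hT.bd l) j z hz
    have h3 : ek j / δ z ≤ 2 / lam := by
      rw [div_le_iff₀ hσ]
      calc ek j ≤ 2 * δ z / lam := hj
        _ = 2 / lam * δ z := by ring
    have h4 : K₀ * M * (ek j / δ z) ≤ K₀ * M * (2 / lam) :=
      mul_le_mul_of_nonneg_left h3 (by positivity)
    have h5 : K₀ * M * (2 / lam) ≤ (2 * K₀ + 1) * M / lam := by
      rw [le_div_iff₀ hlam0]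
      have : K₀ * M * (2 / lam) * lam = 2 * K₀ * M := by field_simp
      rw [this]; nlinarith
    have h6 : ‖b l j z - u l z‖ ≤ ‖b l j z - uk (u l) j z‖ + ‖uk (u l) j z - u l z‖ := by
      rw [← sub_add_sub_cancel (b l j z) (uk (u l) j z) (u l z)]
      exact norm_add_le _ _
    linarith
  have hm' : ek m ≤ 2 * δ z / lam := by
    refine e1.trans ?_
    rw [div_le_div_iff_of_pos_right hlam0]; linarith
  refine ⟨?_, ?_⟩
  · have e : ph δ J lam (b l) z - u l z = (b l (m - 1) z - u l z) +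
        ((1 - th (2 * lam * ek (m - 1)) (δ z) : ℝ) : ℂ) *
          ((b l m z - u l z) - (b l (m - 1) z - u l z)) := by
      rw [hph]; ring
    rw [e]
    exact S6_conv (by linarith) (by linarith) (hn _ e2) (hn _ hm')
  · rw [hph]
    exact S6_conv (by linarith) (by linarith) ((hT.bl l).bd _ z (hD _)) ((hT.bl l).bd _ z (hD _))

private theorem S6_fd (hT : DT U δ h P s u b c C A M ρ K) (J : ℕ) (lam : ℝ) (l : Fin d)
    {z : Ec n} (hz : z ∈ Om U δ) (X : Ec n) :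
    fderiv ℝ (ph δ J lam (b l)) z X = ∑ j ∈ Finset.range J,
      (((1 - th (2 * lam * ek j) (δ z) : ℝ) : ℂ) *
        (fderiv ℝ (b l (j + 1)) z X - fderiv ℝ (b l j) z X) -
      ((deriv (th (2 * lam * ek j)) (δ z) * fderiv ℝ δ z X : ℝ) : ℂ) *
        (b l (j + 1) z - b l j z)) := by
  have hb : ∀ j, HasFDerivAt (b l j) (fderiv ℝ (b l j) z) z := fun j =>
    (((hT.bl l).c2 j).contDiffAt ((Dk_open hT.cd j).mem_nhds (Om_sub_Dk hT.cd j hz))
      |>.differentiableAt (by norm_num)).hasFDerivAt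
  have hδ : HasFDerivAt δ (fderiv ℝ δ z) z :=
    (((hT.cd.geo0.dδ).contDiffAt (hT.cd.geo0.opn.mem_nhds hz.1)).differentiableAt
      (by norm_num)).hasFDerivAt
  have h0 : HasFDerivAt (b l 0) (0 : Ec n →L[ℝ] ℂ) z := by
    have : b l 0 = fun _ => u l 0 := funext fun w => (hT.bl l).b0 w
    rw [this]
    exact hasFDerivAt_const _ _
  have hth : ∀ N : ℝ, HasFDerivAt (fun w => ((1 - th N (δ w) : ℝ) : ℂ))
      (Complex.ofRealCLM.comp (-(deriv (th N) (δ z) • fderiv ℝ δ z))) z := by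
    intro N
    have h1 : HasDerivAt (th N) (deriv (th N) (δ z)) (δ z) :=
      ((th_smooth N).differentiable (by norm_num) (δ z)).hasDerivAt
    have h2 := (h1.comp_hasFDerivAt z hδ).const_sub 1
    exact Complex.ofRealCLM.hasFDerivAt.comp z h2
  have hsum : HasFDerivAt (ph δ J lam (b l)) ((0 : Ec n →L[ℝ] ℂ) + ∑ j ∈ Finset.range J,
      (((1 - th (2 * lam * ek j) (δ z) : ℝ) : ℂ) •
        (fderiv ℝ (b l (j + 1)) z - fderiv ℝ (b l j) z) +
      (b l (j + 1) z - b l j z) •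
        (Complex.ofRealCLM.comp (-(deriv (th (2 * lam * ek j)) (δ z) • fderiv ℝ δ z))))) z := by
    refine h0.add (HasFDerivAt.fun_sum fun j _ => ?_)
    exact (hth _).mul ((hb (j + 1)).sub (hb j))
  rw [hsum.fderiv]
  simp only [ContinuousLinearMap.add_apply, zero_add,
    ContinuousLinearMap.sum_apply, ContinuousLinearMap.smul_apply, ContinuousLinearMap.sub_apply,
    smul_eq_mul, ContinuousLinearMap.comp_apply, ContinuousLinearMap.neg_apply,
    Complex.ofRealCLM_apply]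
  refine Finset.sum_congr rfl fun j _ => ?_
  push_cast
  ring

/-- The gradient.
PROOF. At the point `z`, with `m` of `th_index`: `dph X = (1 - θ) db (m-1) X + θ db m X - ∑_j th'(2 lam ek j)(δ z) (dδ X) (b (j+1) - b j)` (`b 0` is constant; the sum telescopes). `‖db j X‖ ≤ K (dk j / ek j)^(1/32) SS j z gau (dk j) h z X` (`BL.grad`), for `j = m - 1, m`: `dk j / ek j ≤ K_lam` (`σ ≤ 4 lam ek m`), `gau (dk j) ≤ gau δ`
(`gau_mono`), `SS j z ≤ K_lam be σ j SS j z ≤ K_lam GG z` (`be σ j ≥ 1 / K_lam`, as `σ / ek j ∈ [lam / 2, 4 lam]`; `j ≤ J`). `|th'| ≤ K / (2 lam ek j)` only if `lam ek j ≤ σ ≤ 2 lam ek j` (`smooth_deriv`), `|dδ X| ≤ 2 |hX| ≤ 2 σ gau X`, so the last sum is at most `K ∑ |b (j+1) - b j| gau X ≤ K_lam GG z gau X`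
(`al σ j ≥ 1 / K_lam`, `j < J`; at most two indices `j`). -/
theorem ph_grad (n d : ℕ) (c C A M K lam : ℝ) (hlam : C ≤ lam) : ∃ K' : ℝ, 1 ≤ K' ∧ ∀ (U : Set (Ec n))
    (δ : Ec n → ℝ) (h : Ec n → Ec n → Fin n → ℂ) (P : PS n) (s : ℕ → ℝ) (u : Fin d → Ec n → ℂ)
    (b : Fin d → ℕ → Ec n → ℂ) (ρ : ℝ), DT U δ h P s u b c C A M ρ K → ∀ (J : ℕ),
    1 ≤ J → ∀ z ∈ Om U δ, lam * ek J ≤ δ z → ∀ (l : Fin d) (X : Ec n),
    ‖fderiv ℝ (ph δ J lam (b l)) z X‖ ≤ K' * GG P s δ c b J z * gau δ h z X := by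
  obtain ⟨K₀, hK₀, hth⟩ := th_deriv
  obtain ⟨K₃, -, hSH⟩ := DT_SH n c C A
  refine ⟨1 + |K| * (4 * |lam| + 1) * (4 * |lam|) + 4 * K₀ * |lam|, ?_, ?_⟩
  · have h1 : 0 ≤ |K| * (4 * |lam| + 1) * (4 * |lam|) := by positivity
    have h2 : 0 ≤ 4 * K₀ * |lam| := by positivity
    linarith
  intro U δ h P s u b ρ hT J hJ z hz hzJ l X
  have hg := hT.cd.geo0
  have hC1 : 1 ≤ C := hg.C1
  have hc0 : 0 < c := hT.cd.pos.1
  have hc1 : c ≤ 1 := hT.cd.pos.2.1
  have hlam1 : 1 ≤ lam := by linarith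
  have hlam0 : 0 < lam := by linarith
  rw [abs_of_pos hlam0]
  obtain ⟨σ, hσdef⟩ : ∃ σ, σ = δ z := ⟨_, rfl⟩
  have hσ : 0 < σ := by rw [hσdef]; exact hz.2
  have hσC : σ ≤ C := by rw [hσdef]; exact hg.bδ z hz.1
  have hD : ∀ j, z ∈ Dk U δ c j := fun j => Om_sub_Dk hT.cd j hz
  have hg0 : 0 ≤ gau δ h z X := gau_nonneg hz.2 X
  have hS0 : ∀ j, 0 ≤ SS P s δ c j z := fun j =>
    (hSH d U δ h P s u b M ρ K hT).nn j z (hD j)
  have hJ0 : ∀ j, 0 ≤ Jv b j z := fun j => (Jv_le hT j hz).1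
  have hal0 : ∀ j, 0 ≤ al σ j := fun j => (al_be hσ hσ j).1
  have hbe0 : ∀ j, 0 ≤ be σ j := fun j => (al_be hσ hσ j).2.2.1
  have hG1 : ∑ j ∈ Finset.range J, al σ j * Jv b j z ≤ GG P s δ c b J z := by
    have h1 : 0 ≤ σ ^ (1 / 4 : ℝ) := Real.rpow_nonneg hσ.le _
    have h2 : 0 ≤ ∑ j ∈ Finset.range (J + 1), be σ j * SS P s δ c j z :=
      Finset.sum_nonneg fun j _ => mul_nonneg (hbe0 j) (hS0 j)
    rw [GG, GS, ← hσdef]; linarith
  have hG2 : ∀ j, j ≤ J → be σ j * SS P s δ c j z ≤ GG P s δ c b J z := by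
    intro j hj
    have h1 : 0 ≤ σ ^ (1 / 4 : ℝ) := Real.rpow_nonneg hσ.le _
    have h2 : be σ j * SS P s δ c j z ≤
        ∑ j ∈ Finset.range (J + 1), be σ j * SS P s δ c j z :=
      Finset.single_le_sum (f := fun j => be σ j * SS P s δ c j z)
        (fun i _ => mul_nonneg (hbe0 i) (hS0 i))
        (Finset.mem_range.2 (by omega))
    have h3 : 0 ≤ ∑ j ∈ Finset.range J, al σ j * Jv b j z :=
      Finset.sum_nonneg fun j _ => mul_nonneg (hal0 j) (hJ0 j)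
    rw [GG, GS, ← hσdef]; linarith
  have hGG0 : 0 ≤ GG P s δ c b J z :=
    (Finset.sum_nonneg fun j _ => mul_nonneg (hal0 j) (hJ0 j)).trans hG1
  obtain ⟨m, hm1, hmJ, e1, e2, e3, e4, e5⟩ :=
    th_index hσ (by linarith : σ < 2 * lam) (by rw [hσdef]; exact hzJ) hJ
  have ht := th_mem (2 * lam * ek (m - 1)) σ
  -- the gradients of the functions `b`
  have hF : ∀ j, j ≤ J → σ / (4 * lam) ≤ ek j → ek j ≤ 2 * σ / lam →
      ‖fderiv ℝ (b l j) z X‖ ≤
        |K| * (4 * lam + 1) * (4 * lam) * GG P s δ c b J z * gau δ h z X := by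
    intro j hj hlo hup
    have hek := ek_pos j
    have h1 := (hT.bl l).grad j z (hD j) X
    have hdk : δ z ≤ dk δ c j z := by
      have : 0 ≤ c / 4 * ek j := by positivity
      rw [dk]; linarith
    have hga : gau (dk δ c j) h z X ≤ gau δ h z X := (gau_mono hz.2 hdk X).2
    have hga0 : 0 ≤ gau (dk δ c j) h z X := gau_nonneg (hz.2.trans_le hdk) X
    have hlo' : σ ≤ 4 * lam * ek j := by
      rw [div_le_iff₀ (by positivity)] at hlo; linarith
    have hr : (dk δ c j z / ek j) ^ (1 / 32 : ℝ) ≤ 4 * lam + 1 := by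
      have h2 : dk δ c j z / ek j ≤ 4 * lam + 1 := by
        rw [div_le_iff₀ hek, dk, ← hσdef]; nlinarith
      have h3 : 0 ≤ dk δ c j z / ek j := div_nonneg (hz.2.le.trans hdk) hek.le
      refine (Real.rpow_le_rpow h3 h2 (by norm_num)).trans ?_
      calc (4 * lam + 1) ^ (1 / 32 : ℝ) ≤ (4 * lam + 1) ^ (1 : ℝ) :=
            Real.rpow_le_rpow_of_exponent_le (by linarith) (by norm_num)
        _ = 4 * lam + 1 := Real.rpow_one _
    have hr0 : 0 ≤ (dk δ c j z / ek j) ^ (1 / 32 : ℝ) :=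
      Real.rpow_nonneg (div_nonneg (hz.2.le.trans hdk) hek.le) _
    have hbe : 1 ≤ 4 * lam * be σ j := by
      have hx : 1 ≤ 4 * lam * (ek j / σ) := by
        rw [mul_div_assoc', le_div_iff₀ hσ]; linarith
      have hy : 1 ≤ 4 * lam * (σ / ek j) := by
        have h4 : lam * ek j ≤ 2 * σ := by
          rw [le_div_iff₀ hlam0] at hup; linarith
        rw [mul_div_assoc', le_div_iff₀ hek]
        nlinarith
      rw [be]
      split_ifs with hcase
      · refine hx.trans (mul_le_mul_of_nonneg_left ?_ (by positivity))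
        exact S6_rpow (by positivity) ((div_le_one hσ).2 hcase) (by norm_num)
      · refine hy.trans (mul_le_mul_of_nonneg_left ?_ (by positivity))
        exact S6_rpow (by positivity) ((div_le_one hek).2 (not_le.1 hcase).le) (by norm_num)
    have hS : SS P s δ c j z ≤ 4 * lam * GG P s δ c b J z := by
      calc SS P s δ c j z = 1 * SS P s δ c j z := (one_mul _).symm
        _ ≤ 4 * lam * be σ j * SS P s δ c j z := mul_le_mul_of_nonneg_right hbe (hS0 j)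
        _ = 4 * lam * (be σ j * SS P s δ c j z) := by ring
        _ ≤ _ := mul_le_mul_of_nonneg_left (hG2 j hj) (by positivity)
    calc ‖fderiv ℝ (b l j) z X‖ ≤ K * (dk δ c j z / ek j) ^ (1 / 32 : ℝ) * SS P s δ c j z *
          gau (dk δ c j) h z X := h1
      _ ≤ |K| * (dk δ c j z / ek j) ^ (1 / 32 : ℝ) * SS P s δ c j z *
          gau (dk δ c j) h z X := by
        have := le_abs_self K
        have h5 := hS0 j
        gcongr
      _ ≤ |K| * (4 * lam + 1) * (4 * lam * GG P s δ c b J z) * gau δ h z X := by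
        have h5 := hS0 j
        gcongr
      _ = _ := by ring
  -- the first part
  have hF0 : fderiv ℝ (b l 0) z X = 0 := by
    have : b l 0 = fun _ => u l 0 := funext fun w => (hT.bl l).b0 w
    rw [this]
    simp
  have hP1 : ‖∑ j ∈ Finset.range J, ((1 - th (2 * lam * ek j) (δ z) : ℝ) : ℂ) *
      (fderiv ℝ (b l (j + 1)) z X - fderiv ℝ (b l j) z X)‖ ≤
        |K| * (4 * lam + 1) * (4 * lam) * GG P s δ c b J z * gau δ h z X := by
    have htel := S6_tele (fun j => fderiv ℝ (b l j) z X)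
      (fun j => ((1 - th (2 * lam * ek j) σ : ℝ) : ℂ)) hm1 hmJ ?_ ?_
    · rw [← hσdef]
      simp only [hF0, zero_add] at htel
      rw [htel]
      refine S6_conv (by linarith) (by linarith) ?_ ?_
      · refine hF _ (by omega) ?_ e2
        exact e3.trans (ek_anti (Nat.sub_le m 1))
      · refine hF _ hmJ e3 (e1.trans ?_)
        rw [div_le_div_iff_of_pos_right hlam0]; linarith
    · intro j hj hjJ
      simp only [e4 j hj hjJ, sub_self, Complex.ofReal_zero]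
    · intro j hj
      simp only [e5 j hj, sub_zero, Complex.ofReal_one]
  -- the second part
  have hdel : |fderiv ℝ δ z X| ≤ 2 * σ * gau δ h z X := by
    rw [hg.grad z hz.1 X, abs_mul]
    have h1 : |(∑ k, h z z k * X k).re| ≤ ‖∑ k, h z z k * X k‖ := Complex.abs_re_le_norm _
    have h2 : ‖∑ k, h z z k * X k‖ ≤ σ * gau δ h z X := by
      rw [gau, ← hσdef, mul_add, mul_div_cancel₀ _ hσ.ne']
      have : 0 ≤ σ * (‖X‖ / Real.sqrt σ) := by positivity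
      linarith
    have h3 : |(-2 : ℝ)| = 2 := by norm_num
    rw [h3]; linarith
  have hP2 : ‖∑ j ∈ Finset.range J, ((deriv (th (2 * lam * ek j)) (δ z) *
      fderiv ℝ δ z X : ℝ) : ℂ) * (b l (j + 1) z - b l j z)‖ ≤
        4 * K₀ * lam * GG P s δ c b J z * gau δ h z X := by
    refine (norm_sum_le _ _).trans ?_
    have hterm : ∀ j ∈ Finset.range J, ‖((deriv (th (2 * lam * ek j)) (δ z) *
        fderiv ℝ δ z X : ℝ) : ℂ) * (b l (j + 1) z - b l j z)‖ ≤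
          4 * K₀ * lam * gau δ h z X * (al σ j * Jv b j z) := by
      intro j _
      have hek := ek_pos j
      have hN : 0 < 2 * lam * ek j := by positivity
      have hrhs : 0 ≤ 4 * K₀ * lam * gau δ h z X * (al σ j * Jv b j z) :=
        mul_nonneg (by positivity) (mul_nonneg (hal0 j) (hJ0 j))
      obtain ⟨t1, t2, t3⟩ := hth (2 * lam * ek j) σ hN
      rw [norm_mul, Complex.norm_real, Real.norm_eq_abs, abs_mul, ← hσdef]
      rcases lt_or_ge σ (2 * lam * ek j / 2) with hlt | hge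
      · rw [t2 hlt, abs_zero, zero_mul, zero_mul]; exact hrhs
      rcases lt_or_ge (2 * lam * ek j) σ with hlt2 | hge2
      · rw [t3 hlt2, abs_zero, zero_mul, zero_mul]; exact hrhs
      have hd : |deriv (th (2 * lam * ek j)) σ| * |fderiv ℝ δ z X| ≤
          2 * K₀ * gau δ h z X := by
        calc |deriv (th (2 * lam * ek j)) σ| * |fderiv ℝ δ z X| ≤
              K₀ / (2 * lam * ek j) * (2 * σ * gau δ h z X) := by gcongr
          _ ≤ K₀ / (2 * lam * ek j) * (2 * (2 * lam * ek j) * gau δ h z X) := by gcongr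
          _ = 2 * K₀ * gau δ h z X := by field_simp
      have hal : 1 ≤ 2 * lam * al σ j := by
        have hx : 1 ≤ 2 * lam * (ek j / σ) := by
          rw [mul_div_assoc', le_div_iff₀ hσ]; linarith
        have hy : 1 ≤ 2 * lam * (σ / ek j) := by
          rw [mul_div_assoc', le_div_iff₀ hek]
          nlinarith
        have hxy : 1 ≤ 2 * lam * min (ek j / σ) (σ / ek j) := by
          rcases min_choice (ek j / σ) (σ / ek j) with h' | h' <;> rw [h']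
          · exact hx
          · exact hy
        have hpos : 0 < min (ek j / σ) (σ / ek j) :=
          lt_min (div_pos hek hσ) (div_pos hσ hek)
        have hle : min (ek j / σ) (σ / ek j) ≤ 1 := by
          rcases le_total (ek j) σ with h' | h'
          · exact (min_le_left _ _).trans ((div_le_one hσ).2 h')
          · exact (min_le_right _ _).trans ((div_le_one hek).2 h')
        rw [al]
        exact hxy.trans (mul_le_mul_of_nonneg_left (S6_rpow hpos hle (by norm_num))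
          (by positivity))
      have hJj : ‖b l (j + 1) z - b l j z‖ ≤ Jv b j z := by
        rw [Jv]
        exact Finset.single_le_sum (f := fun l => ‖b l (j + 1) z - b l j z‖)
          (fun i _ => norm_nonneg _) (Finset.mem_univ l)
      calc |deriv (th (2 * lam * ek j)) σ| * |fderiv ℝ δ z X| * ‖b l (j + 1) z - b l j z‖ ≤
            2 * K₀ * gau δ h z X * Jv b j z :=
              mul_le_mul hd hJj (norm_nonneg _) (by positivity)
        _ = 2 * K₀ * gau δ h z X * (1 * Jv b j z) := by ring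
        _ ≤ 2 * K₀ * gau δ h z X * (2 * lam * al σ j * Jv b j z) :=
          mul_le_mul_of_nonneg_left (mul_le_mul_of_nonneg_right hal (hJ0 j)) (by positivity)
        _ = _ := by ring
    refine (Finset.sum_le_sum hterm).trans ?_
    rw [← Finset.mul_sum]
    calc 4 * K₀ * lam * gau δ h z X * ∑ j ∈ Finset.range J, al σ j * Jv b j z ≤
          4 * K₀ * lam * gau δ h z X * GG P s δ c b J z :=
        mul_le_mul_of_nonneg_left hG1 (by positivity)
      _ = _ := by ring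
  rw [S6_fd hT J lam l hz X, Finset.sum_sub_distrib]
  refine (norm_sub_le _ _).trans ?_
  have hfin : 0 ≤ GG P s δ c b J z * gau δ h z X := mul_nonneg hGG0 hg0
  calc _ ≤ |K| * (4 * lam + 1) * (4 * lam) * GG P s δ c b J z * gau δ h z X +
        4 * K₀ * lam * GG P s δ c b J z * gau δ h z X := add_le_add hP1 hP2
    _ ≤ _ := by nlinarith

end Pool.Agent.MPca0fc2.GW
end

section

/-! The theorem for finite potentials. -/

set_option autoImplicit false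

open Metric Set MeasureTheory Filter Topology

namespace Pool.Agent.MPca0fc2.GW

open Pool.Agent.MPca0fc2.FD
open Pool.Agent.Lib.MP_ca0fc2_an (SolvableOn)

variable {n d : ℕ}

/-- PROOF. `Lk_hefer` for each `l`, `j` (choice), with `DT_SH`. -/
theorem HL_exists (hn : 2 ≤ n) (d : ℕ) (c C A M K : ℝ) : ∃ K₁ : ℝ, 1 ≤ K₁ ∧ ∀ (U : Set (Ec n))
    (δ : Ec n → ℝ) (h : Ec n → Ec n → Fin n → ℂ) (P : PS n) (s : ℕ → ℝ) (u : Fin d → Ec n → ℂ)
    (b : Fin d → ℕ → Ec n → ℂ) (ρ : ℝ), DT U δ h P s u b c C A M ρ K →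
    ∃ Λ : Fin d → ℕ → Ec n → Ec n → Fin n → ℂ, HL U δ h c u b Λ K₁ := by
  obtain ⟨K₀, hK₀, hSH⟩ := DT_SH n c C A
  obtain ⟨K', hK', hH⟩ := Lk_hefer hn c C M K K₀
  refine ⟨K', hK', ?_⟩
  intro U δ h P s u b ρ hT
  have h1 := hSH d U δ h P s u b M ρ K hT
  have h2 := fun (l : Fin d) (j : ℕ) => hH U δ h (u l) (SS P s δ c) (b l) ρ hT.cd (hT.hol l)
    (hT.bd l) h1 (hT.bl l) j
  choose Λ hΛ1 hΛ2 hΛ3 using h2
  exact ⟨Λ, ⟨hΛ1, hΛ2, hΛ3⟩⟩

private theorem S7_GD_mono {U : Set (Ec n)} {δ : Ec n → ℝ} {h : Ec n → Ec n → Fin n → ℂ}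
    {G : Ec n → ℝ} {A A' : ℝ} (hG : GD U δ h G A) (hA : A ≤ A') : GD U δ h G A' := by
  have hA1 := hG.A1
  have hG0 : ∀ z ∈ Om U δ, 0 ≤ G z := fun z hz => K3_G_nonneg hG hz
  refine
    { A1 := hA1.trans hA
      lo := fun z hz => (hG.lo z hz).trans (mul_le_mul_of_nonneg_right hA (hG0 z hz))
      up := fun z hz => (hG.up z hz).trans hA
      har := ?_ }
  intro z hz ζ hζ
  refine (hG.har z hz ζ hζ).trans ?_
  have h1 : 0 ≤ (‖vv δ h z ζ‖ / δ ζ) ^ 3 := by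
    have := hζ.2
    positivity
  have h2 : 0 ≤ (max (δ ζ / δ z) (δ z / δ ζ)) ^ (3 / 8 : ℝ) := by
    refine Real.rpow_nonneg ?_ _
    exact le_max_of_le_left (div_nonneg hζ.2.le hz.2.le)
  have h3 := hG0 z hz
  gcongr

private theorem S7_GX_mono {U : Set (Ec n)} {δ : Ec n → ℝ} {h : Ec n → Ec n → Fin n → ℂ}
    {G : Ec n → ℝ} {Q R : Ec n → Ec n → Fin n → ℂ} {C A A' : ℝ} (hG : GX U δ h G Q R C A)
    (hA : A ≤ A') : GX U δ h G Q R C A' := by
  refine ⟨?_, ?_⟩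
  · intro z hz ζ hζ
    refine (hG.rb z hz ζ hζ).trans ?_
    have h1 : 0 ≤ (‖vv δ h z ζ‖ / δ ζ) ^ 2 := sq_nonneg _
    exact mul_le_mul_of_nonneg_right hA h1
  · intro z hz
    obtain ⟨Γ, h1, h2, h3⟩ := hG.ex z hz
    exact ⟨Γ, h1, h2.trans (ENNReal.ofReal_le_ofReal hA), h3⟩

private theorem S7_WQ_sub {W W' : Set (Ec n)} {δ : Ec n → ℝ} {Q R : Ec n → Ec n → Fin n → ℂ}
    (hQ : WQ W δ Q R) (hW : W' ⊆ W) (ho : IsOpen W') : WQ W' δ Q R :=
  { opn := ho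
    c2 := fun k => (hQ.c2 k).mono (prod_mono hW hW)
    hol := fun ζ hζ k => (hQ.hol ζ (hW hζ) k).mono hW
    dbQ := fun z hz ζ hζ X k => hQ.dbQ z (hW hz) ζ (hW hζ) X k
    Rhol := fun ζ hζ k => (hQ.Rhol ζ (hW hζ) k).mono hW }

private theorem S7_solv_sub {N : ℕ} {f : Fin N → Ec n → ℂ} {D D' : Set (Ec n)} {C : ℝ}
    (h : SolvableOn f D C) (hD : D' ⊆ D) : SolvableOn f D' C := by
  obtain ⟨g, h1, h2, h3⟩ := h
  exact ⟨g, fun j => (h1 j).mono hD, fun j z hz => h2 j z (hD hz), fun z hz => h3 z (hD hz)⟩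

/-- The solution away from the boundary.
PROOF. `r = r₀ / 2`. `lam ≥ C` so large that `K' M / lam ≤ r₀ / 8` (`ph_near`), and `4 ρ ≤ r₀ / 8`, so `|ph - u| ≤ r₀ / 4` on `{lam ek J ≤ δ}`. Let `J ≥ 1` with `lam ek J ≤ c / 4`; `s₁ = lam ek J`, `δ' = δ - s₁`, `G = GG P s δ c b J`. `Geo U δ h (c/2) C` (`CD.geo0`),
`GD U δ h G A₁` (`GG_GD`), `GX` (`GG_GX`, `HL_exists`), `WQ` (`Qv_WQ`). `GD_shift`, `GX_shift`, `WQ_shift` with the constants `c / 2`, `C`, `A₁` and `s = s₁` (`≤ (c/2)/2`), `Geo_shift` (the constant `c / 4`): for `δ'`, with `Gs G δ s₁` (restrict `WQ (Om U δ)` to `Om U δ'`: the fields are pointwise on `W`; use `Om U δ' ⊆ Om U δ`).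
The gradient: `‖dph X‖ ≤ K' G gau δ X ≤ K' (Gs G δ s₁) gau δ' X` on `Om U δ'` (`gau_mono`: `gau δ ≤ √(δ'/δ) gau δ'`, `(δ'/δ)^(1/2) ≤ (δ'/δ)^(1/4)`). The cells: `{w ∈ Om U δ' | ∀ l, |ph_l w - ph_l a| < r₀ / 2} ⊆ {w ∈ Om U δ | ∀ l, |u_l w - u_l a| < r₀}`. `solv_baseG` with `φ l = ph δ J lam (b l)`, radius `r₀ / 2`, `Rb = 5 M`, for a small
`ς`: `SolvableOn f (Om U (δ' - (n + 3) ς)) B`, where `B` does not depend on `J` and `ς`. -/
theorem fin_J (hn : 2 ≤ n) (N d : ℕ) (c C A M K Mf C₁ r₀ ρ : ℝ) (hc : 0 < c) (hρ : 0 < ρ) (hr : 32 * ρ ≤ r₀) :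
    ∃ B lam : ℝ, 0 < lam ∧ ∀ (U : Set (Ec n))
    (δ : Ec n → ℝ) (h : Ec n → Ec n → Fin n → ℂ) (P : PS n) (s : ℕ → ℝ) (u : Fin d → Ec n → ℂ)
    (b : Fin d → ℕ → Ec n → ℂ) (f : Fin N → Ec n → ℂ), DT U δ h P s u b c C A M ρ K →
    (∀ j, DifferentiableOn ℂ (f j) (Om U δ)) → (∀ j, ∀ z ∈ Om U δ, ‖f j z‖ ≤ Mf) →
    (∀ a ∈ Om U δ, SolvableOn f {w | w ∈ Om U δ ∧ ∀ l, ‖u l w - u l a‖ < r₀} C₁) →
    ∀ J : ℕ, 1 ≤ J → lam * ek J ≤ c / 4 → ∀ ς : ℝ, 0 < ς → (n + 3) * ς ≤ c / 8 →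
      SolvableOn f (Om U (fun z => δ z - lam * ek J - (n + 3) * ς)) B := by
  classical
  obtain ⟨K₁, hK₁, hHL⟩ := HL_exists hn d c C A M K
  obtain ⟨A₁, hA₁, hGD⟩ := GG_GD n d c C A M K hc
  obtain ⟨κ, κ₂, A₂, hA₂, hGX⟩ := GG_GX hn d c C A M K K₁ ρ hc hρ
  obtain ⟨K₃, hK₃, hnear⟩ := ph_near n c C
  have hr0 : 0 < r₀ := by linarith
  set lam : ℝ := max (max C 1) (8 * K₃ * M / r₀) with hlam
  have hlamC : C ≤ lam := (le_max_left _ _).trans (le_max_left _ _)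
  have hlam1 : 1 ≤ lam := (le_max_right _ _).trans (le_max_left _ _)
  have hlam0 : 0 < lam := by linarith
  have hlamK : 8 * K₃ * M / r₀ ≤ lam := le_max_right _ _
  have hlamM : K₃ * M / lam ≤ r₀ / 8 := by
    rw [div_le_iff₀ hlam0]
    rw [div_le_iff₀ hr0] at hlamK
    linarith
  obtain ⟨K₄, hK₄, hgrad⟩ := ph_grad n d c C A M K lam hlamC
  obtain ⟨B, hB⟩ := solv_baseG hn N d (c / 2 / 2) C (512 * max A₁ A₂) Mf C₁ K₄ (r₀ / 2) (5 * M)
    (by linarith)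
  refine ⟨B, lam, hlam0, ?_⟩
  intro U δ h P s u b f hT hf hfM hloc J hJ hJc ς hς hςc
  obtain ⟨Λ, hL⟩ := hHL U δ h P s u b ρ hT
  have hek : 0 < ek J := ek_pos J
  set s₁ : ℝ := lam * ek J with hs₁
  have hs0 : 0 ≤ s₁ := by positivity
  have hsc : s₁ ≤ c / 2 / 2 := by linarith
  have hg : Geo U δ h (c / 2) C := hT.cd.geo0
  have hAm : 1 ≤ max A₁ A₂ := hA₁.trans (le_max_left _ _)
  have hG1 : GD U δ h (GG P s δ c b J) (max A₁ A₂) :=
    S7_GD_mono (hGD U δ h P s u b ρ hT J) (le_max_left _ _)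
  have hX1 : GX U δ h (GG P s δ c b J) (Qv P δ Λ J κ κ₂) (Rv' P δ Λ J κ κ₂) C (max A₁ A₂) :=
    S7_GX_mono (hGX U δ h P s u b Λ hT hL J) (le_max_right _ _)
  have hW1 : WQ (Om U δ) δ (Qv P δ Λ J κ κ₂) (Rv' P δ Λ J κ κ₂) := Qv_WQ hT hL J κ κ₂
  have hg2 : Geo U (fun z => δ z - s₁) h (c / 2 / 2) C := Geo_shift hg hs0 hsc
  have hG2 : GD U (fun z => δ z - s₁) h (Gs (GG P s δ c b J) δ s₁) (512 * max A₁ A₂) :=
    S7_GD_mono (GD_shift hg hG1 hs0 hsc) (by linarith)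
  have hX2 := GX_shift hg hG1 hX1 hs0 hsc
  have hsub : Om U (fun z => δ z - s₁) ⊆ Om U δ := by
    rintro z ⟨hz, h0⟩
    have h0' : 0 < δ z - s₁ := h0
    exact ⟨hz, by linarith⟩
  have hle : ∀ z ∈ Om U (fun z => δ z - s₁), lam * ek J ≤ δ z := by
    rintro z ⟨hz, h0⟩
    have h0' : 0 < δ z - s₁ := h0
    linarith
  have hW2 : WQ (Om U (fun z => δ z - s₁)) (fun z => δ z - s₁) (Qv P δ Λ J κ κ₂)
      (Rv' P δ Λ J κ κ₂) := S7_WQ_sub (WQ_shift hW1 s₁) hsub (Om_open hg2)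
  refine hB U (fun z => δ z - s₁) h (Gs (GG P s δ c b J) δ s₁) (Qv P δ Λ J κ κ₂)
    (Rv' P δ Λ J κ κ₂) f (fun l => ph δ J lam (b l)) hg2 hG2 hX2 hW2
    (fun j => (hf j).mono hsub) (fun j z hz => hfM j z (hsub hz))
    (fun l => (ph_c2 hT J lam l).mono hsub)
    (fun l z hz => (hnear d U δ h P s u b A M ρ K hT J lam hJ hlamC z (hsub hz) (hle z hz) l).2)
    ?_ ?_ ς hς (by linarith)
  · intro l z hz X
    have h1 := hgrad U δ h P s u b ρ hT J hJ z (hsub hz) (hle z hz) l X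
    refine h1.trans ?_
    have hδ : 0 < δ z := (hsub hz).2
    have hδ' : 0 < δ z - s₁ := hz.2
    have hq0 : 0 ≤ (δ z - s₁) / δ z := div_nonneg hδ'.le hδ.le
    have hq1 : (δ z - s₁) / δ z ≤ 1 := by
      rw [div_le_one hδ]
      linarith
    have h2 : gau δ h z X ≤ Real.sqrt ((δ z - s₁) / δ z) * gau (fun z => δ z - s₁) h z X :=
      (gau_mono (a := fun z => δ z - s₁) (b := δ) (h := h) hδ' (by linarith) X).1
    have h3 : Real.sqrt ((δ z - s₁) / δ z) ≤ ((δ z - s₁) / δ z) ^ (1 / 4 : ℝ) := by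
      rw [Real.sqrt_eq_rpow]
      exact Real.rpow_le_rpow_of_exponent_ge' hq0 hq1 (by norm_num) (by norm_num)
    have h4 : 0 ≤ gau (fun z => δ z - s₁) h z X := by
      unfold gau
      have : 0 < (fun z => δ z - s₁) z := hδ'
      positivity
    have h5 : 0 ≤ GG P s δ c b J z := K3_G_nonneg hG1 (hsub hz)
    have h6 : 0 ≤ K₄ := by linarith
    have h7 : gau δ h z X ≤
        ((δ z - s₁) / δ z) ^ (1 / 4 : ℝ) * gau (fun z => δ z - s₁) h z X :=
      h2.trans (mul_le_mul_of_nonneg_right h3 h4)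
    calc K₄ * GG P s δ c b J z * gau δ h z X
        ≤ K₄ * GG P s δ c b J z *
          (((δ z - s₁) / δ z) ^ (1 / 4 : ℝ) * gau (fun z => δ z - s₁) h z X) :=
          mul_le_mul_of_nonneg_left h7 (mul_nonneg h6 h5)
      _ = K₄ * Gs (GG P s δ c b J) δ s₁ z * gau (fun z => δ z - s₁) h z X := by
          unfold Gs
          ring
  · intro a ha
    refine S7_solv_sub (hloc a (hsub ha)) ?_
    rintro w ⟨hw, hw2⟩
    refine ⟨hsub hw, fun l => ?_⟩
    have h1 := (hnear d U δ h P s u b A M ρ K hT J lam hJ hlamC w (hsub hw) (hle w hw) l).1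
    have h2 := (hnear d U δ h P s u b A M ρ K hT J lam hJ hlamC a (hsub ha) (hle a ha) l).1
    have h3 : ‖ph δ J lam (b l) w - ph δ J lam (b l) a‖ < r₀ / 2 := hw2 l
    have h4 : u l w - u l a = -(ph δ J lam (b l) w - u l w) +
        (ph δ J lam (b l) w - ph δ J lam (b l) a) + (ph δ J lam (b l) a - u l a) := by ring
    rw [h4]
    have h5 := norm_add₃_le (a := -(ph δ J lam (b l) w - u l w))
      (b := ph δ J lam (b l) w - ph δ J lam (b l) a) (c := ph δ J lam (b l) a - u l a)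
    rw [norm_neg] at h5
    linarith

/-- PROOF. `fin_J` and `solv_exhaust` (`FD/T2.lean`): `E i = Om U (δ - lam ek (J₀ + i) - (n + 3) ς_i)`, `ς_i → 0`. -/
theorem fin_all (hn : 2 ≤ n) (N d : ℕ) (c C A M K Mf C₁ r₀ ρ : ℝ) (hc : 0 < c) (hρ : 0 < ρ) (hr : 32 * ρ ≤ r₀) :
    ∃ B : ℝ, ∀ (U : Set (Ec n))
    (δ : Ec n → ℝ) (h : Ec n → Ec n → Fin n → ℂ) (P : PS n) (s : ℕ → ℝ) (u : Fin d → Ec n → ℂ)
    (b : Fin d → ℕ → Ec n → ℂ) (f : Fin N → Ec n → ℂ), DT U δ h P s u b c C A M ρ K →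
    (∀ j, DifferentiableOn ℂ (f j) (Om U δ)) → (∀ j, ∀ z ∈ Om U δ, ‖f j z‖ ≤ Mf) →
    (∀ a ∈ Om U δ, SolvableOn f {w | w ∈ Om U δ ∧ ∀ l, ‖u l w - u l a‖ < r₀} C₁) →
      SolvableOn f (Om U δ) B := by
  obtain ⟨B, lam, hlam, hB⟩ := fin_J hn N d c C A M K Mf C₁ r₀ ρ hc hρ hr
  refine ⟨B, ?_⟩
  intro U δ h P s u b f hT hf hfM hloc
  have hek : Tendsto (fun J : ℕ => lam * ek J) atTop (𝓝 0) := by
    have h1 : Tendsto (fun J : ℕ => (1 / 2 : ℝ) ^ J) atTop (𝓝 0) :=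
      tendsto_pow_atTop_nhds_zero_of_lt_one (by norm_num) (by norm_num)
    have h2 := h1.const_mul lam
    rw [mul_zero] at h2
    exact h2
  have hev : ∀ ε : ℝ, 0 < ε → ∃ J₀ : ℕ, ∀ J, J₀ ≤ J → lam * ek J < ε := by
    intro ε hε
    exact eventually_atTop.1 (hek.eventually (gt_mem_nhds hε))
  obtain ⟨J₀, hJ₀⟩ := hev (c / 4) (by linarith)
  have hn3 : (0 : ℝ) < (n : ℝ) + 3 := by positivity
  let ς : ℕ → ℝ := fun i => c / (8 * ((n : ℝ) + 3) * ((i : ℝ) + 1))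
  have hς0 : ∀ i, 0 < ς i := fun i => by
    have : (0 : ℝ) < (i : ℝ) + 1 := by positivity
    positivity
  have hςe : ∀ i, ((n : ℝ) + 3) * ς i = c / 8 / ((i : ℝ) + 1) := by
    intro i
    have : (0 : ℝ) < (i : ℝ) + 1 := by positivity
    change ((n : ℝ) + 3) * (c / (8 * ((n : ℝ) + 3) * ((i : ℝ) + 1))) = _
    field_simp
  have hςc : ∀ i, ((n : ℝ) + 3) * ς i ≤ c / 8 := by
    intro i
    rw [hςe]
    refine div_le_self (by linarith) ?_
    have : (0 : ℝ) ≤ (i : ℝ) := Nat.cast_nonneg i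
    linarith
  have hg : Geo U δ h (c / 2) C := hT.cd.geo0
  refine solv_exhaust
    (E := fun i => Om U (fun z => δ z - lam * ek (J₀ + 1 + i) - ((n : ℝ) + 3) * ς i)) ?_ ?_
  · intro i
    exact hB U δ h P s u b f hT hf hfM hloc (J₀ + 1 + i) (by omega)
      (hJ₀ _ (by omega)).le (ς i) (hς0 i) (hςc i)
  · intro z hz
    obtain ⟨hzU, hzδ⟩ := hz
    have hcont : ContinuousAt δ z :=
      (hg.dδ.continuousOn).continuousAt (hg.opn.mem_nhds hzU)
    have h1 : ∀ᶠ w in 𝓝 z, w ∈ U ∧ δ z / 2 < δ w :=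
      (hg.opn.mem_nhds hzU : U ∈ 𝓝 z) |> fun h2 => by
        filter_upwards [h2, hcont.eventually (lt_mem_nhds (show δ z / 2 < δ z by linarith))]
          with w hw1 hw2
        exact ⟨hw1, hw2⟩
    obtain ⟨r, hr0, hrb⟩ := Metric.eventually_nhds_iff_ball.1 h1
    obtain ⟨J₁, hJ₁⟩ := hev (δ z / 4) (by linarith)
    obtain ⟨i₁, hi₁⟩ := exists_nat_gt (c / 8 / (δ z / 4))
    refine ⟨r, hr0, max J₁ i₁, ?_⟩
    intro i hi w hw
    obtain ⟨hw1, hw2⟩ := hrb w hw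
    refine ⟨hw1, ?_⟩
    have h3 : lam * ek (J₀ + 1 + i) < δ z / 4 :=
      hJ₁ _ (by have := (le_max_left J₁ i₁).trans hi; omega)
    have h4 : ((n : ℝ) + 3) * ς i ≤ δ z / 4 := by
      rw [hςe]
      have h5 : (0 : ℝ) < (i : ℝ) + 1 := by positivity
      rw [div_le_iff₀ h5]
      rw [div_lt_iff₀ (by linarith)] at hi₁
      have h6 : (i₁ : ℝ) ≤ (i : ℝ) := by
        exact_mod_cast (le_max_right J₁ i₁).trans hi
      have h7 : (i₁ : ℝ) * (δ z / 4) ≤ ((i : ℝ) + 1) * (δ z / 4) :=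
        mul_le_mul_of_nonneg_right (by linarith) (by linarith)
      linarith
    change 0 < δ w - lam * ek (J₀ + 1 + i) - ((n : ℝ) + 3) * ς i
    linarith

/-- PROOF. Only the right sides contain `A`; `0 ≤ ‖·‖`, `δ z > 0`; for `re`: `N + δ z ≤ A Re V` implies `Re V > 0` as `A ≥ 1`. -/
theorem PA_mono {P : PS n} {U : Set (Ec n)} {δ : Ec n → ℝ} {h : Ec n → Ec n → Fin n → ℂ} {A A' : ℝ}
    (hP : PA P U δ h A) (hA : A ≤ A') : PA P U δ h A' := by
  have hA1 := hP.A1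
  refine
    { A1 := hA1.trans hA
      hol := hP.hol
      Hhol := hP.Hhol
      Hb := fun x z hz ζ hζ => (hP.Hb x z hz ζ hζ).trans hA
      hef := hP.hef
      Vb := fun x z hz => (hP.Vb x z hz).trans hA
      Vd := fun x z hz => (hP.Vd x z hz).trans hA
      Vl := fun x z hz ζ hζ => (hP.Vl x z hz ζ hζ).trans
        (mul_le_mul_of_nonneg_right hA (norm_nonneg _))
      N0 := hP.N0
      w0 := hP.w0
      re := ?_
      tan := ?_
      carl := fun z hz => (hP.carl z hz).trans hA }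
  · intro x z hz
    have h1 := hP.re x z hz
    have h2 := hP.N0 x
    have h3 : 0 < δ z := hz.2
    have h4 : 0 < A * (P.V x z).re := by linarith
    have h5 : 0 < (P.V x z).re := (mul_pos_iff_of_pos_left (by linarith)).1 h4
    exact h1.trans (mul_le_mul_of_nonneg_right hA h5.le)
  · intro x z hz X
    refine (hP.tan x z hz X).trans (mul_le_mul_of_nonneg_right hA ?_)
    positivity

/-- The theorem for finite potentials.
PROOF. We may assume `1 ≤ M` (replace `M` by `max M 1`) and `0 < C` (otherwise there is no domain). `ρ = min 1 (r₀ / 32)`. For each `l`, `BL_slow` for `ω l` gives `s l`, `A' l`, `K₂ l`; `BL_carl` for `p l` gives `K₁ l`. Let `s = ∑ l, s l` (`SL_sum`), `A₁` = the maximum of `A` and `∑ |A' l|`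
(`PA_mono`, `SL_mono`), `K` = the maximum of all `K₁ l`, `K₂ l`. For each `l` there are functions `b l` with `BL ... (SS P s δ c) (b l) M ρ K` (`BL_mono`: `SQ ≤ SS` and `s l k ≤ s k ≤ SS`, all `≥ 0`). `fin_all`. -/
theorem C_fin (hn : 2 ≤ n) (N d : ℕ) (c C A M Mf C₁ r₀ : ℝ) (hc : 0 < c) (hr : 0 < r₀)
    (p : Fin d → ℝ) (hp : ∀ l, 1 ≤ p l) (ω : Fin d → ℕ → ℝ) (hω : ∀ l i, 0 < ω l i)
    (hs : ∀ l, ∀ b : ℝ, 0 < b → Summable (fun i => Real.exp (-(b / ω l i)))) :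
    ∃ B : ℝ, ∀ (U : Set (Ec n))
    (δ : Ec n → ℝ) (h : Ec n → Ec n → Fin n → ℂ) (P : PS n) (u : Fin d → Ec n → ℂ)
    (f : Fin N → Ec n → ℂ), CD U δ h c C → PA P U δ h A →
    (∀ l, DifferentiableOn ℂ (u l) (Om U δ)) → (∀ l, ∀ z ∈ Om U δ, ‖u l z‖ ≤ M) →
    (∀ l, CG P U δ h A (p l) (u l) ∨ SG U δ c C (ω l) (u l)) →
    (∀ j, DifferentiableOn ℂ (f j) (Om U δ)) → (∀ j, ∀ z ∈ Om U δ, ‖f j z‖ ≤ Mf) →
    (∀ a ∈ Om U δ, SolvableOn f {w | w ∈ Om U δ ∧ ∀ l, ‖u l w - u l a‖ < r₀} C₁) →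
      SolvableOn f (Om U δ) B := by
  classical
  by_cases hC : 0 < C
  swap
  · refine ⟨0, ?_⟩
    intro U δ h P u f hD
    have h1 := hD.pos.2.2
    exact absurd (by linarith) hC
  set M' : ℝ := max M 1 with hM'
  have hM1 : 1 ≤ M' := le_max_right _ _
  have hMM : M ≤ M' := le_max_left _ _
  set ρ : ℝ := min 1 (r₀ / 32) with hρd
  have hρ : 0 < ρ := lt_min one_pos (by linarith)
  have hρM : ρ ≤ M' := (min_le_left _ _).trans hM1
  have hρr : 32 * ρ ≤ r₀ := by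
    have := min_le_right 1 (r₀ / 32)
    linarith
  have h1 := fun l => BL_slow n c C M' ρ hC hρ hρM (ω l) (hω l) (hs l)
  choose s A' K₂ hs1 hK₂ hslow using h1
  have h2 := fun l => BL_carl n c C A (p l) M' ρ (hp l) hρ hρM
  choose K₁ hK₁ hcarl using h2
  have hsl : SL (fun k => ∑ l, s l k) (max A (∑ l, A' l)) :=
    SL_mono (SL_sum hs1) (le_max_right _ _)
  have hsle : ∀ l k, s l k ≤ ∑ l, s l k := fun l k =>
    Finset.single_le_sum (f := fun l => s l k) (fun i _ => (hs1 i).nn k) (Finset.mem_univ l)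
  have hK1le : ∀ l, K₁ l ≤ ∑ l, (K₁ l + K₂ l) := by
    intro l
    have h3 := Finset.single_le_sum (f := fun l => K₁ l + K₂ l)
      (fun i _ => by have := hK₁ i; have := hK₂ i; change 0 ≤ K₁ i + K₂ i; linarith)
      (Finset.mem_univ l)
    have h4 : K₁ l + K₂ l ≤ ∑ l, (K₁ l + K₂ l) := h3
    have := hK₂ l
    linarith
  have hK2le : ∀ l, K₂ l ≤ ∑ l, (K₁ l + K₂ l) := by
    intro l
    have h3 := Finset.single_le_sum (f := fun l => K₁ l + K₂ l)
      (fun i _ => by have := hK₁ i; have := hK₂ i; change 0 ≤ K₁ i + K₂ i; linarith)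
      (Finset.mem_univ l)
    have h4 : K₁ l + K₂ l ≤ ∑ l, (K₁ l + K₂ l) := h3
    have := hK₁ l
    linarith
  obtain ⟨B, hB⟩ := fin_all hn N d c C (max A (∑ l, A' l)) M' (∑ l, (K₁ l + K₂ l)) Mf C₁ r₀ ρ
    hc hρ hρr
  refine ⟨B, ?_⟩
  intro U δ h P u f hD hP hu huM hug hf hfM hloc
  have hPA : PA P U δ h (max A (∑ l, A' l)) := PA_mono hP (le_max_left _ _)
  have huM' : ∀ l, ∀ z ∈ Om U δ, ‖u l z‖ ≤ M' := fun l z hz => (huM l z hz).trans hMM
  have hbl : ∀ l, ∃ b, BL U δ h c (u l) (SS P (fun k => ∑ l, s l k) δ c) b M' ρ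
      (∑ l, (K₁ l + K₂ l)) := by
    intro l
    have hK0 : 0 ≤ ∑ l, (K₁ l + K₂ l) := by
      have := hK1le l
      have := hK₁ l
      linarith
    rcases hug l with h3 | h3
    · obtain ⟨b, hb⟩ := hcarl l U δ h P (u l) hD hP (hu l) (huM' l) h3
      refine ⟨b, BL_mono hD hb (hK1le l) hK0 ?_⟩
      intro k w hw
      have h4 := SQ_nonneg hD hP hw
      refine ⟨h4, ?_⟩
      have h5 : 0 ≤ ∑ l, s l k := Finset.sum_nonneg fun i _ => (hs1 i).nn k
      change SQ P δ c k w ≤ SQ P δ c k w + ∑ l, s l k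
      linarith
    · obtain ⟨b, hb⟩ := hslow l U δ h (u l) hD (hu l) (huM' l) h3
      refine ⟨b, BL_mono hD hb (hK2le l) hK0 ?_⟩
      intro k w hw
      have h4 := SQ_nonneg hD hP hw
      refine ⟨(hs1 l).nn k, ?_⟩
      have h5 := hsle l k
      change s l k ≤ SQ P δ c k w + ∑ l, s l k
      linarith
  choose b hb using hbl
  have hT : DT U δ h P (fun k => ∑ l, s l k) u b c C (max A (∑ l, A' l)) M' ρ
      (∑ l, (K₁ l + K₂ l)) :=
    { cd := hD
      pa := hPA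
      sl := hsl
      M1 := hM1
      ρ0 := hρ
      ρM := hρM
      hol := hu
      bd := huM'
      bl := hb }
  exact hB U δ h P (fun k => ∑ l, s l k) u b f hT hf hfM hloc

end Pool.Agent.MPca0fc2.GW
end

section

/-! The theorem for countable potentials on convex domains. -/

set_option autoImplicit false

open Metric Set MeasureTheory Filter Topology

namespace Pool.Agent.MPca0fc2.GW

open Pool.Agent.MPca0fc2.FD
open Pool.Agent.Lib.MP_ca0fc2_an (SolvableOn)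

variable {n d : ℕ}

/-- countably many functions `V` (compare `PA`) -/
structure PI (U : Set (Ec n)) (δ : Ec n → ℝ) (h : Ec n → Ec n → Fin n → ℂ) (A : ℝ)
    (V : ℕ → Ec n → ℂ) (H : ℕ → Ec n → Ec n → Fin n → ℂ) (N w : ℕ → ℝ) : Prop where
  A1 : 1 ≤ A
  hol : ∀ x, DifferentiableOn ℂ (V x) U
  Hhol : ∀ x, DifferentiableOn ℂ (fun p : Ec n × Ec n => H x p.1 p.2) (U ×ˢ U)
  Hb : ∀ x, ∀ z ∈ U, ∀ ζ ∈ U, ‖H x z ζ‖ ≤ A
  hef : ∀ x, ∀ z ∈ U, ∀ ζ ∈ U, V x z - V x ζ = ∑ k, H x z ζ k * (z k - ζ k)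
  Vb : ∀ x, ∀ z ∈ U, ‖V x z‖ ≤ A
  Vd : ∀ x, ∀ z ∈ U, ‖fderiv ℂ (V x) z‖ ≤ A
  Vl : ∀ x, ∀ z ∈ U, ∀ ζ ∈ U, ‖fderiv ℂ (V x) z - fderiv ℂ (V x) ζ‖ ≤ A * ‖z - ζ‖
  N0 : ∀ x, 0 < N x
  w0 : ∀ x, 0 ≤ w x
  re : ∀ x, ∀ z ∈ Om U δ, N x + δ z ≤ A * (V x z).re
  tan : ∀ x, ∀ z ∈ Om U δ, ∀ X : Ec n, ‖fderiv ℂ (V x) z X‖ ≤
    A * (‖∑ k, h z z k * X k‖ + Real.sqrt ‖V x z‖ * ‖X‖)
  carl : ∀ z ∈ Om U δ, ∀ I : ℕ, ∑ x ∈ Finset.range I, w x * N x * δ z / ‖V x z‖ ^ 2 ≤ A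

/-- the potential of the countable family -/
noncomputable def pzI (δ : Ec n → ℝ) (V : ℕ → Ec n → ℂ) (N w : ℕ → ℝ) (z : Ec n) : ℝ :=
  ∑' x, w x * N x ^ 2 * ((δ z) ^ (1 / 4 : ℝ) / ‖V x z‖ ^ (9 / 4 : ℝ))

/-- the Carleson condition for the gradient of `u`, for some countable family -/
def CI (U : Set (Ec n)) (δ : Ec n → ℝ) (h : Ec n → Ec n → Fin n → ℂ) (A p : ℝ)
    (u : Ec n → ℂ) : Prop :=
  ∃ (V : ℕ → Ec n → ℂ) (H : ℕ → Ec n → Ec n → Fin n → ℂ) (N w : ℕ → ℝ), PI U δ h A V H N w ∧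
    ∀ z ∈ Om U δ, ∀ X : Ec n, ‖fderiv ℂ u z X‖ ≤ A * (pzI δ V N w z) ^ (1 / p) * gau δ h z X

private theorem S8_fields {U : Set (Ec n)} {δ : Ec n → ℝ} {h : Ec n → Ec n → Fin n → ℂ} {A : ℝ}
    {V : ℕ → Ec n → ℂ} {H : ℕ → Ec n → Ec n → Fin n → ℂ} {N w : ℕ → ℝ}
    (hP : PI U δ h A V H N w) (x : ℕ) {z : Ec n} (hz : z ∈ Om U δ) :
    0 < (V x z).re ∧ 0 < ‖V x z‖ ∧ N x ≤ A * ‖V x z‖ ∧ δ z ≤ A * ‖V x z‖ := by
  have hA : 0 < A := by linarith [hP.A1]
  have h1 := hP.re x z hz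
  have h2 := hP.N0 x
  have h3 : 0 < δ z := hz.2
  have h4 : 0 < (V x z).re := by
    by_contra hcon
    have := mul_nonpos_of_nonneg_of_nonpos hA.le (not_lt.1 hcon)
    linarith
  have h5 : (V x z).re ≤ ‖V x z‖ := Complex.re_le_norm _
  have h6 : A * (V x z).re ≤ A * ‖V x z‖ := mul_le_mul_of_nonneg_left h5 hA.le
  exact ⟨h4, h4.trans_le h5, by linarith, by linarith⟩

private theorem S8_PI_mono {U : Set (Ec n)} {δ : Ec n → ℝ} {h : Ec n → Ec n → Fin n → ℂ}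
    {A A' : ℝ} {V : ℕ → Ec n → ℂ} {H : ℕ → Ec n → Ec n → Fin n → ℂ} {N w : ℕ → ℝ}
    (hP : PI U δ h A V H N w) (hA : A ≤ A') : PI U δ h A' V H N w where
  A1 := hP.A1.trans hA
  hol := hP.hol
  Hhol := hP.Hhol
  Hb x z hz ζ hζ := (hP.Hb x z hz ζ hζ).trans hA
  hef := hP.hef
  Vb x z hz := (hP.Vb x z hz).trans hA
  Vd x z hz := (hP.Vd x z hz).trans hA
  Vl x z hz ζ hζ := (hP.Vl x z hz ζ hζ).trans (mul_le_mul_of_nonneg_right hA (norm_nonneg _))
  N0 := hP.N0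
  w0 := hP.w0
  re x z hz := (hP.re x z hz).trans
    (mul_le_mul_of_nonneg_right hA (S8_fields hP x hz).1.le)
  tan x z hz X := (hP.tan x z hz X).trans (mul_le_mul_of_nonneg_right hA (by positivity))
  carl z hz I := (hP.carl z hz I).trans hA

private theorem S8_triv {U : Set (Ec n)} {δ : Ec n → ℝ} {h : Ec n → Ec n → Fin n → ℂ} {C A : ℝ}
    (hC : ∀ z ∈ U, δ z ≤ C) (hC1 : 1 ≤ C) (hA : 1 + C ≤ A) :
    PI U δ h A (fun _ _ => 1) (fun _ _ _ _ => 0) (fun _ => 1) (fun _ => 0) where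
  A1 := by linarith
  hol _ := differentiableOn_const _
  Hhol _ := differentiableOn_const _
  Hb _ z _ ζ _ := by
    have : (fun _ : Fin n => (0 : ℂ)) = 0 := rfl
    rw [this, norm_zero]; linarith
  hef _ z _ ζ _ := by simp
  Vb _ z _ := by rw [norm_one]; linarith
  Vd _ z _ := by
    rw [fderiv_fun_const]
    simp only [Pi.zero_apply, norm_zero]; linarith
  Vl _ z _ ζ _ := by
    rw [fderiv_fun_const]
    simp only [Pi.zero_apply, sub_self, norm_zero]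
    exact mul_nonneg (by linarith) (norm_nonneg _)
  N0 _ := one_pos
  w0 _ := le_rfl
  re _ z hz := by
    have := hC z hz.1
    rw [Complex.one_re]; linarith
  tan _ z hz X := by
    rw [fderiv_fun_const]
    simp only [Pi.zero_apply, ContinuousLinearMap.zero_apply, norm_zero]
    exact mul_nonneg (by linarith) (by positivity)
  carl z hz I := by
    simp only [zero_mul, zero_div, Finset.sum_const_zero]; linarith

private theorem S8_solv_mono {N : ℕ} {f : Fin N → Ec n → ℂ} {D D' : Set (Ec n)} {C : ℝ}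
    (hs : SolvableOn f D C) (hD : D' ⊆ D) : SolvableOn f D' C := by
  obtain ⟨g, h1, h2, h3⟩ := hs
  exact ⟨g, fun j => (h1 j).mono hD, fun j z hz => h2 j z (hD hz), fun z hz => h3 z (hD hz)⟩

/-- The finite families: the first `I` functions of each of the families, and the trivial function `V = 1` (`H = 0`, `N = 1`, `w = 1`). The constant `A' = d A + C + 1 + A`.
PROOF. Let `δ' = δ - ς`; `Om U δ' ⊆ Om U δ`. The index set is `Fin (d * I + 1)` (or any finite type with an equivalence to some `Fin R`). All the fields are inherited, as `δ' ≤ δ` and `A ≤ A'`. The trivial function: `re`: `1 + δ' z ≤ 1 + C ≤ A'`; `carl`: its term is `δ' z ≤ C`. -/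
theorem PI_fin {U : Set (Ec n)} {δ : Ec n → ℝ} {h : Ec n → Ec n → Fin n → ℂ} {c C A : ℝ}
    (hD : CD U δ h c C) (V : Fin d → ℕ → Ec n → ℂ) (H : Fin d → ℕ → Ec n → Ec n → Fin n → ℂ)
    (N w : Fin d → ℕ → ℝ) (hP : ∀ l, PI U δ h A (V l) (H l) (N l) (w l)) (hA : 1 ≤ A) (I : ℕ) {ς : ℝ}
    (hς : 0 ≤ ς) : ∃ P : PS n, PA P U (fun z => δ z - ς) h (d * A + C + 1 + A) ∧
      ∀ (δ₁ : Ec n → ℝ) (z : Ec n), 0 < δ₁ z → (δ₁ z) ^ (1 / 4 : ℝ) + ∑ l, ∑ x ∈ Finset.range I,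
        w l x * N l x ^ 2 * ((δ₁ z) ^ (1 / 4 : ℝ) / ‖V l x z‖ ^ (9 / 4 : ℝ)) = pz P δ₁ z := by
  classical
  have hg := hD.geo0
  have hC1 : 1 ≤ C := hg.C1
  have hdA : 0 ≤ (d : ℝ) * A := by positivity
  obtain ⟨A', hA'⟩ : ∃ A' : ℝ, A' = d * A + C + 1 + A := ⟨_, rfl⟩
  have hAA : A ≤ A' := by linarith
  have hA'1 : 1 ≤ A' := by linarith
  rw [← hA']
  let e : Option (Fin d × Fin I) ≃ Fin (Fintype.card (Option (Fin d × Fin I))) :=
    Fintype.equivFin _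
  let V' : Option (Fin d × Fin I) → Ec n → ℂ := fun o => o.elim (fun _ => 1) (fun q => V q.1 q.2)
  let H' : Option (Fin d × Fin I) → Ec n → Ec n → Fin n → ℂ :=
    fun o => o.elim (fun _ _ _ => 0) (fun q => H q.1 q.2)
  let N' : Option (Fin d × Fin I) → ℝ := fun o => o.elim 1 (fun q => N q.1 q.2)
  let w' : Option (Fin d × Fin I) → ℝ := fun o => o.elim 1 (fun q => w q.1 q.2)
  have hsub : ∀ z, z ∈ Om U (fun z => δ z - ς) → z ∈ Om U δ := fun z hz =>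
    ⟨hz.1, by have := hz.2; simp only at this; linarith⟩
  have htr := S8_triv (n := n) (U := U) (δ := δ) (h := h) (A := A') hg.bδ hC1 (by linarith)
  have hmo := fun l => S8_PI_mono (hP l) hAA
  refine ⟨⟨_, fun r => V' (e.symm r), fun r => H' (e.symm r), fun r => N' (e.symm r),
    fun r => w' (e.symm r)⟩, ?_, ?_⟩
  · refine
      { A1 := hA'1
        hol := fun r => ?_
        Hhol := fun r => ?_
        Hb := fun r => ?_
        hef := fun r => ?_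
        Vb := fun r => ?_
        Vd := fun r => ?_
        Vl := fun r => ?_
        N0 := fun r => ?_
        w0 := fun r => ?_
        re := fun r => ?_
        tan := fun r => ?_
        carl := ?_ }
    · show DifferentiableOn ℂ (V' (e.symm r)) U
      rcases e.symm r with _ | ⟨l, x⟩
      · exact htr.hol 0
      · exact (hmo l).hol x
    · show DifferentiableOn ℂ (fun p : Ec n × Ec n => H' (e.symm r) p.1 p.2) (U ×ˢ U)
      rcases e.symm r with _ | ⟨l, x⟩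
      · exact htr.Hhol 0
      · exact (hmo l).Hhol x
    · show ∀ z ∈ U, ∀ ζ ∈ U, ‖H' (e.symm r) z ζ‖ ≤ A'
      rcases e.symm r with _ | ⟨l, x⟩
      · exact htr.Hb 0
      · exact (hmo l).Hb x
    · show ∀ z ∈ U, ∀ ζ ∈ U, V' (e.symm r) z - V' (e.symm r) ζ =
        ∑ k, H' (e.symm r) z ζ k * (z k - ζ k)
      rcases e.symm r with _ | ⟨l, x⟩
      · exact htr.hef 0
      · exact (hmo l).hef x
    · show ∀ z ∈ U, ‖V' (e.symm r) z‖ ≤ A'
      rcases e.symm r with _ | ⟨l, x⟩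
      · exact htr.Vb 0
      · exact (hmo l).Vb x
    · show ∀ z ∈ U, ‖fderiv ℂ (V' (e.symm r)) z‖ ≤ A'
      rcases e.symm r with _ | ⟨l, x⟩
      · exact htr.Vd 0
      · exact (hmo l).Vd x
    · show ∀ z ∈ U, ∀ ζ ∈ U, ‖fderiv ℂ (V' (e.symm r)) z - fderiv ℂ (V' (e.symm r)) ζ‖ ≤
        A' * ‖z - ζ‖
      rcases e.symm r with _ | ⟨l, x⟩
      · exact htr.Vl 0
      · exact (hmo l).Vl x
    · show 0 < N' (e.symm r)
      rcases e.symm r with _ | ⟨l, x⟩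
      · exact one_pos
      · exact (hmo l).N0 x
    · show 0 ≤ w' (e.symm r)
      rcases e.symm r with _ | ⟨l, x⟩
      · exact zero_le_one
      · exact (hmo l).w0 x
    · show ∀ z ∈ Om U (fun z => δ z - ς), N' (e.symm r) + (δ z - ς) ≤ A' * (V' (e.symm r) z).re
      rcases e.symm r with _ | ⟨l, x⟩
      · intro z hz
        have := htr.re 0 z (hsub z hz)
        exact le_trans (by show 1 + (δ z - ς) ≤ 1 + δ z; linarith) this
      · intro z hz
        have := (hmo l).re x z (hsub z hz)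
        exact le_trans (by show N l x + (δ z - ς) ≤ N l x + δ z; linarith) this
    · show ∀ z ∈ Om U (fun z => δ z - ς), ∀ X : Ec n, ‖fderiv ℂ (V' (e.symm r)) z X‖ ≤
        A' * (‖∑ k, h z z k * X k‖ + Real.sqrt ‖V' (e.symm r) z‖ * ‖X‖)
      rcases e.symm r with _ | ⟨l, x⟩
      · exact fun z hz => htr.tan 0 z (hsub z hz)
      · exact fun z hz => (hmo l).tan x z (hsub z hz)
    · intro z hz
      have hz' := hsub z hz
      have hδz : δ z - ς ≤ C := by have := hg.bδ z hz.1; linarith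
      show ∑ r, w' (e.symm r) * N' (e.symm r) * (δ z - ς) / ‖V' (e.symm r) z‖ ^ 2 ≤ A'
      rw [Equiv.sum_comp e.symm (fun o => w' o * N' o * (δ z - ς) / ‖V' o z‖ ^ 2),
        Fintype.sum_option, Fintype.sum_prod_type]
      have h1 : w' none * N' none * (δ z - ς) / ‖V' none z‖ ^ 2 ≤ C := by
        show (1 : ℝ) * 1 * (δ z - ς) / ‖(1 : ℂ)‖ ^ 2 ≤ C
        rw [norm_one, one_pow, div_one, one_mul, one_mul]; exact hδz
      have h2 : ∑ l : Fin d, ∑ x : Fin I, w' (some (l, x)) * N' (some (l, x)) * (δ z - ς) /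
          ‖V' (some (l, x)) z‖ ^ 2 ≤ d * A := by
        have h3 : ∀ l : Fin d, ∑ x : Fin I, w' (some (l, x)) * N' (some (l, x)) * (δ z - ς) /
            ‖V' (some (l, x)) z‖ ^ 2 ≤ A := by
          intro l
          have h4 := (hP l).carl z hz' I
          rw [Finset.sum_range] at h4
          refine le_trans (Finset.sum_le_sum fun x _ => ?_) h4
          show w l x * N l x * (δ z - ς) / ‖V l x z‖ ^ 2 ≤ w l x * N l x * δ z / ‖V l x z‖ ^ 2
          have h5 : 0 ≤ w l x * N l x := mul_nonneg ((hP l).w0 x) ((hP l).N0 x).le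
          have h6 : w l x * N l x * (δ z - ς) ≤ w l x * N l x * δ z :=
            mul_le_mul_of_nonneg_left (by linarith) h5
          exact div_le_div_of_nonneg_right h6 (by positivity)
        refine (Finset.sum_le_sum fun l _ => h3 l).trans ?_
        rw [Finset.sum_const, Finset.card_univ, Fintype.card_fin, nsmul_eq_mul]
      linarith
  · intro δ₁ z hz
    show _ = ∑ r, w' (e.symm r) * N' (e.symm r) ^ 2 *
      ((δ₁ z) ^ (1 / 4 : ℝ) / ‖V' (e.symm r) z‖ ^ (9 / 4 : ℝ))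
    rw [Equiv.sum_comp e.symm (fun o => w' o * N' o ^ 2 *
      ((δ₁ z) ^ (1 / 4 : ℝ) / ‖V' o z‖ ^ (9 / 4 : ℝ))), Fintype.sum_option,
      Fintype.sum_prod_type]
    congr 1
    · show _ = (1 : ℝ) * 1 ^ 2 * ((δ₁ z) ^ (1 / 4 : ℝ) / ‖(1 : ℂ)‖ ^ (9 / 4 : ℝ))
      rw [norm_one, Real.one_rpow, one_pow, one_mul, one_mul, div_one]
    · refine Finset.sum_congr rfl fun l _ => ?_
      rw [Finset.sum_range]
      rfl

/-- The tails.
PROOF. The Carleson condition at `0` (`δ 0 ≥ c`, `|V 0| ≤ A`): `∑_{x < I} w N ≤ A³ / c`, so `∑ w N` converges. On `{ς ≤ δ z}`: `|V z| ≥ ς / A` and `N ≤ A |V| ≤ A²` (`re`), so the terms of `pzI` are at most `w N A² C^(1/4) (A / ς)^(9/4)`. So the terms are summable, and the tail from `I` on is at most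
`K(ς) ∑_{x ≥ I} w N ≤ ς^(1/4)` for large `I`. -/
theorem PI_tail {U : Set (Ec n)} {δ : Ec n → ℝ} {h : Ec n → Ec n → Fin n → ℂ} {c C A : ℝ}
    (hD : CD U δ h c C) {V : ℕ → Ec n → ℂ} {H : ℕ → Ec n → Ec n → Fin n → ℂ}
    {N w : ℕ → ℝ} (hP : PI U δ h A V H N w) {ς : ℝ} (hς : 0 < ς) : ∃ I₀ : ℕ, ∀ I : ℕ, I₀ ≤ I →
      ∀ z ∈ U, ς ≤ δ z → pzI δ V N w z ≤ ς ^ (1 / 4 : ℝ) + ∑ x ∈ Finset.range I,
        w x * N x ^ 2 * ((δ z) ^ (1 / 4 : ℝ) / ‖V x z‖ ^ (9 / 4 : ℝ)) := by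
  have hg := hD.geo0
  have hC1 : 1 ≤ C := hg.C1
  have hc0 : 0 < c := hD.pos.1
  have hA1 : 1 ≤ A := hP.A1
  have hA0 : 0 < A := by linarith
  have h0 : (0 : Ec n) ∈ Om U δ := ⟨hD.zero, by linarith [hD.cen]⟩
  have hwN : ∀ x, 0 ≤ w x * N x := fun x => mul_nonneg (hP.w0 x) (hP.N0 x).le
  have hsum : Summable fun x => w x * N x := by
    refine summable_of_sum_range_le (c := A ^ 3 / c) hwN fun m => ?_
    have h1 := hP.carl 0 h0 m
    have h2 : c / A ^ 2 * ∑ x ∈ Finset.range m, w x * N x ≤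
        ∑ x ∈ Finset.range m, w x * N x * δ 0 / ‖V x 0‖ ^ 2 := by
      rw [Finset.mul_sum]
      refine Finset.sum_le_sum fun x _ => ?_
      have h3 := (S8_fields hP x h0).2.1
      have h4 := hP.Vb x 0 hD.zero
      have h5 : c / A ^ 2 ≤ δ 0 / ‖V x 0‖ ^ 2 := by
        have h6 : ‖V x 0‖ ^ 2 ≤ A ^ 2 := pow_le_pow_left₀ h3.le h4 2
        exact div_le_div₀ (by linarith [hD.cen]) hD.cen (by positivity) h6
      calc c / A ^ 2 * (w x * N x) ≤ δ 0 / ‖V x 0‖ ^ 2 * (w x * N x) :=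
            mul_le_mul_of_nonneg_right h5 (hwN x)
        _ = _ := by ring
    have h3 : c / A ^ 2 * ∑ x ∈ Finset.range m, w x * N x ≤ A := h2.trans h1
    rw [le_div_iff₀ hc0]
    rw [div_mul_eq_mul_div, div_le_iff₀ (by positivity)] at h3
    nlinarith
  obtain ⟨K, hK⟩ : ∃ K : ℝ, K = A ^ 2 * (C ^ (1 / 4 : ℝ) / (ς / A) ^ (9 / 4 : ℝ)) := ⟨_, rfl⟩
  have hK0 : 0 ≤ K := by rw [hK]; positivity
  have hterm : ∀ z ∈ U, ς ≤ δ z → ∀ x, 0 ≤ w x * N x ^ 2 *
      ((δ z) ^ (1 / 4 : ℝ) / ‖V x z‖ ^ (9 / 4 : ℝ)) ∧ w x * N x ^ 2 *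
      ((δ z) ^ (1 / 4 : ℝ) / ‖V x z‖ ^ (9 / 4 : ℝ)) ≤ K * (w x * N x) := by
    intro z hz hzς x
    have hz' : z ∈ Om U δ := ⟨hz, by linarith⟩
    obtain ⟨-, h1, h2, h3⟩ := S8_fields hP x hz'
    have hN0 := hP.N0 x
    have hw0 := hP.w0 x
    have hδ0 : 0 ≤ (δ z) ^ (1 / 4 : ℝ) := Real.rpow_nonneg hz'.2.le _
    refine ⟨by positivity, ?_⟩
    have h4 : N x ≤ A ^ 2 := by
      have := hP.Vb x z hz
      nlinarith
    have h5 : ς / A ≤ ‖V x z‖ := by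
      rw [div_le_iff₀ hA0]; linarith
    have h6 : (δ z) ^ (1 / 4 : ℝ) / ‖V x z‖ ^ (9 / 4 : ℝ) ≤
        C ^ (1 / 4 : ℝ) / (ς / A) ^ (9 / 4 : ℝ) := by
      refine div_le_div₀ (by positivity) ?_ (by positivity) ?_
      · exact Real.rpow_le_rpow hz'.2.le (hg.bδ z hz) (by norm_num)
      · exact Real.rpow_le_rpow (by positivity) h5 (by norm_num)
    calc w x * N x ^ 2 * ((δ z) ^ (1 / 4 : ℝ) / ‖V x z‖ ^ (9 / 4 : ℝ)) =
          (w x * N x) * (N x * ((δ z) ^ (1 / 4 : ℝ) / ‖V x z‖ ^ (9 / 4 : ℝ))) := by ring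
      _ ≤ (w x * N x) * (A ^ 2 * (C ^ (1 / 4 : ℝ) / (ς / A) ^ (9 / 4 : ℝ))) := by
        refine mul_le_mul_of_nonneg_left ?_ (hwN x)
        exact mul_le_mul h4 h6 (by positivity) (by positivity)
      _ = K * (w x * N x) := by rw [hK]; ring
  have htail := tendsto_sum_nat_add fun x => K * (w x * N x)
  have hς4 : 0 < ς ^ (1 / 4 : ℝ) := Real.rpow_pos_of_pos hς _
  obtain ⟨I₀, hI₀⟩ := Filter.eventually_atTop.1 (htail.eventually (gt_mem_nhds hς4))
  refine ⟨I₀, fun I hI z hz hzς => ?_⟩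
  have hs1 : Summable fun x => K * (w x * N x) := hsum.mul_left K
  have hs2 : Summable fun x => w x * N x ^ 2 *
      ((δ z) ^ (1 / 4 : ℝ) / ‖V x z‖ ^ (9 / 4 : ℝ)) :=
    Summable.of_nonneg_of_le (fun x => (hterm z hz hzς x).1) (fun x => (hterm z hz hzς x).2) hs1
  rw [pzI, ← hs2.sum_add_tsum_nat_add I, add_comm]
  refine add_le_add_left ?_ _
  have h1 : ∑' x, w (x + I) * N (x + I) ^ 2 *
      ((δ z) ^ (1 / 4 : ℝ) / ‖V (x + I) z‖ ^ (9 / 4 : ℝ)) ≤
        ∑' x, K * (w (x + I) * N (x + I)) := by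
    refine Summable.tsum_le_tsum (fun x => (hterm z hz hzς (x + I)).2) ?_ ?_
    · exact (summable_nat_add_iff I).2 hs2
    · exact (summable_nat_add_iff I).2 hs1
  exact h1.trans (hI₀ I hI).le

/-- The condition on the smaller domain.
PROOF. `δ' = δ - ς`, `q = δ' z / δ z ∈ (0, 1]`. `pzI ≤ pz P δ z` by hypothesis; `pz P δ z = q^(-1/4) pz P δ' z`, `gau δ ≤ q^(1/2) gau δ'` (`gau_mono`), and `q^(1/2 - 1/(4p)) ≤ 1`. -/
theorem CG_shift {U : Set (Ec n)} {δ : Ec n → ℝ} {h : Ec n → Ec n → Fin n → ℂ} {A A' p : ℝ}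
    (hp : 1 ≤ p) {P : PS n} {u : Ec n → ℂ} {ς : ℝ} (hς : 0 ≤ ς) (hA : 0 ≤ A) (hAA : A ≤ A')
    (hP : ∀ x, 0 ≤ P.w x)
    (hu : ∀ z ∈ Om U (fun z => δ z - ς), ∀ X : Ec n,
      ‖fderiv ℂ u z X‖ ≤ A * (pz P δ z) ^ (1 / p) * gau δ h z X) :
    CG P U (fun z => δ z - ς) h A' p u := by
  intro z hz X
  have hp0 : 0 < p := by linarith
  have ha : 0 < δ z - ς := hz.2
  have hδ : 0 < δ z := by linarith
  have h1 := hu z hz X
  obtain ⟨q, hq⟩ : ∃ q : ℝ, q = (δ z - ς) / δ z := ⟨_, rfl⟩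
  have hq0 : 0 < q := by rw [hq]; exact div_pos ha hδ
  have hq1 : q ≤ 1 := by rw [hq, div_le_one hδ]; linarith
  have hmul : δ z - ς = q * δ z := by rw [hq]; field_simp
  have hgau := (gau_mono (a := fun z => δ z - ς) (b := δ) (z := z) (h := h) ha
    (by show δ z - ς ≤ δ z; linarith) X).1
  have hgau' : gau δ h z X ≤ q ^ (1 / 2 : ℝ) * gau (fun z => δ z - ς) h z X := by
    rw [← Real.sqrt_eq_rpow, hq]
    exact hgau
  have hg0 : 0 ≤ gau (fun z => δ z - ς) h z X :=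
    gau_nonneg (δ := fun z => δ z - ς) ha X
  have hpz : q ^ (1 / 4 : ℝ) * pz P δ z = pz P (fun z => δ z - ς) z := by
    rw [pz, pz, Finset.mul_sum]
    refine Finset.sum_congr rfl fun x _ => ?_
    simp only [hmul]
    rw [Real.mul_rpow hq0.le hδ.le]
    ring
  have hpz0 : 0 ≤ pz P δ z := by
    rw [pz]
    refine Finset.sum_nonneg fun x _ => ?_
    have := hP x
    positivity
  have hqq : 0 < q ^ (1 / 4 : ℝ) := Real.rpow_pos_of_pos hq0 _
  have h2 : (pz P δ z) ^ (1 / p) * q ^ (1 / 2 : ℝ) ≤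
      (pz P (fun z => δ z - ς) z) ^ (1 / p) := by
    rw [← hpz, Real.mul_rpow hqq.le hpz0, mul_comm]
    refine mul_le_mul_of_nonneg_right ?_ (Real.rpow_nonneg hpz0 _)
    rw [← Real.rpow_mul hq0.le]
    refine Real.rpow_le_rpow_of_exponent_ge hq0 hq1 ?_
    have : 1 / p ≤ 1 := by rw [div_le_one hp0]; exact hp
    linarith
  have hpp : 0 ≤ (pz P δ z) ^ (1 / p) := Real.rpow_nonneg hpz0 _
  calc ‖fderiv ℂ u z X‖ ≤ A * (pz P δ z) ^ (1 / p) * gau δ h z X := h1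
    _ ≤ A * (pz P δ z) ^ (1 / p) * (q ^ (1 / 2 : ℝ) * gau (fun z => δ z - ς) h z X) :=
      mul_le_mul_of_nonneg_left hgau' (mul_nonneg hA hpp)
    _ = A * ((pz P δ z) ^ (1 / p) * q ^ (1 / 2 : ℝ)) * gau (fun z => δ z - ς) h z X := by ring
    _ ≤ A' * (pz P (fun z => δ z - ς) z) ^ (1 / p) * gau (fun z => δ z - ς) h z X := by
      refine mul_le_mul_of_nonneg_right ?_ hg0
      exact mul_le_mul hAA h2 (mul_nonneg hpp (Real.rpow_nonneg hq0.le _)) (hA.trans hAA)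

/-- PROOF. `(c/2)² / (32 C) ek i = c² / (32 C) ek (i + 2)` and `δ z - ς ≤ δ z`, so `ek (i + 2) ‖du‖ ≤ ω (i + 2)`. -/
theorem SG_shift {U : Set (Ec n)} {δ : Ec n → ℝ} {c C : ℝ} {ω : ℕ → ℝ} {u : Ec n → ℂ} {ς : ℝ}
    (hς : 0 ≤ ς) (hu : SG U δ c C ω u) :
    SG U (fun z => δ z - ς) (c / 2) C (fun i => 4 * ω (i + 2)) u := by
  intro i z hz hzi
  have ha : 0 < δ z - ς := hz.2
  have h1 : ek (i + 2) = ek i / 4 := by
    rw [ek_succ, ek_succ]; ring
  have h2 := hu (i + 2) z ⟨hz.1, by linarith⟩ (by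
    rw [h1]
    have h3 : (c / 2) ^ 2 / (32 * C) * ek i ≤ δ z - ς := hzi
    have h4 : (c / 2) ^ 2 / (32 * C) * ek i = c ^ 2 / (32 * C) * (ek i / 4) := by ring
    rw [h4] at h3
    linarith)
  rw [h1] at h2
  show ek i * ‖fderiv ℂ u z‖ ≤ 4 * ω (i + 2)
  linarith

/-- The theorem on convex domains.
PROOF. Let `ς ∈ (0, c / 4]`. For each `l` with `CI` choose the family; for the others the family `V = 1`-type (`V = 1 + C`, `H = 0`, `N = 1`, `w = 0`; the constant is enlarged). `PI_tail` for all `l`: choose `I` (`≥` all `I₀`). `PI_fin`: `P`, constant `A' = d A + C + 1 + A`. For `z ∈ Om U (δ - ς)`: `δ z ≥ ς`, so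
`pzI ≤ pz P δ z`. `CG_shift`: `CG P U (δ - ς) h A' (p l) (u l)`, resp. `SG_shift`. `CD.shift`: `CD U (δ - ς) h (c/2) C`. The cells of `δ - ς` are contained in the cells of `δ`. `C_fin` with the constants `c / 2`, `C`, `A'`, `M`, ..., `4 ω (i + 2)` (summable): `SolvableOn f (Om U (δ - ς)) B` with
`B` independent of `ς`. `solv_exhaust` with `ς = c / (4 (i + 1))`. -/
theorem C_inf (hn : 2 ≤ n) (N d : ℕ) {U : Set (Ec n)} {δ : Ec n → ℝ}
    {h : Ec n → Ec n → Fin n → ℂ} {c C : ℝ} (hD : CD U δ h c C) (A M Mf C₁ r₀ : ℝ) (hr : 0 < r₀)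
    (p : Fin d → ℝ) (hp : ∀ l, 1 ≤ p l) (ω : Fin d → ℕ → ℝ) (hω : ∀ l i, 0 < ω l i)
    (hs : ∀ l, ∀ b : ℝ, 0 < b → Summable (fun i => Real.exp (-(b / ω l i))))
    (u : Fin d → Ec n → ℂ) (f : Fin N → Ec n → ℂ)
    (hu : ∀ l, DifferentiableOn ℂ (u l) (Om U δ)) (huM : ∀ l, ∀ z ∈ Om U δ, ‖u l z‖ ≤ M)
    (hug : ∀ l, CI U δ h A (p l) (u l) ∨ SG U δ c C (ω l) (u l))
    (hf : ∀ j, DifferentiableOn ℂ (f j) (Om U δ)) (hfM : ∀ j, ∀ z ∈ Om U δ, ‖f j z‖ ≤ Mf)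
    (hloc : ∀ a ∈ Om U δ, SolvableOn f {w | w ∈ Om U δ ∧ ∀ l, ‖u l w - u l a‖ < r₀} C₁) :
    ∃ B : ℝ, SolvableOn f (Om U δ) B := by
  classical
  have hg := hD.geo0
  have hC1 : 1 ≤ C := hg.C1
  have hc0 : 0 < c := hD.pos.1
  obtain ⟨A₀, hA₀⟩ : ∃ A₀ : ℝ, A₀ = max A (1 + C) := ⟨_, rfl⟩
  have hAA₀ : A ≤ A₀ := by rw [hA₀]; exact le_max_left _ _
  have hCA₀ : 1 + C ≤ A₀ := by rw [hA₀]; exact le_max_right _ _
  have hA₀0 : 0 ≤ A₀ := by linarith
  have hch : ∀ l, ∃ (V : ℕ → Ec n → ℂ) (H : ℕ → Ec n → Ec n → Fin n → ℂ) (N w : ℕ → ℝ),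
      PI U δ h A₀ V H N w ∧ ((∀ z ∈ Om U δ, ∀ X : Ec n, ‖fderiv ℂ (u l) z X‖ ≤
        A₀ * (pzI δ V N w z) ^ (1 / p l) * gau δ h z X) ∨ SG U δ c C (ω l) (u l)) := by
    intro l
    rcases hug l with hc | hsl
    · obtain ⟨V, H, Nn, w, hPI, hgr⟩ := hc
      refine ⟨V, H, Nn, w, S8_PI_mono hPI hAA₀, Or.inl fun z hz X => (hgr z hz X).trans ?_⟩
      have h1 : 0 ≤ pzI δ V Nn w z := by
        rw [pzI]
        refine tsum_nonneg fun x => ?_
        have h2 := hPI.w0 x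
        have h3 : 0 ≤ (δ z) ^ (1 / 4 : ℝ) := Real.rpow_nonneg hz.2.le _
        positivity
      have h2 : 0 ≤ gau δ h z X := gau_nonneg hz.2 X
      gcongr
    · exact ⟨_, _, _, _, S8_triv hg.bδ hC1 hCA₀, Or.inr hsl⟩
  choose V H Nn w hPI hgr using hch
  obtain ⟨B, hB⟩ := C_fin hn N d (c / 2) C (d * A₀ + C + 1 + A₀) M Mf C₁ r₀ (by linarith) hr p hp
    (fun l i => 4 * ω l (i + 2)) (fun l i => by have := hω l (i + 2); positivity) (fun l b hb => by
      have h1 := hs l (b / 4) (by positivity)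
      have h2 := (summable_nat_add_iff 2).2 h1
      refine h2.congr fun i => ?_
      have h3 := (hω l (i + 2)).ne'
      congr 1
      field_simp)
  refine ⟨B, ?_⟩
  -- the smaller domains
  have hmain : ∀ ς : ℝ, 0 < ς → ς ≤ c / 4 → SolvableOn f (Om U (fun z => δ z - ς)) B := by
    intro ς hς hςc
    have hsub : Om U (fun z => δ z - ς) ⊆ Om U δ := fun z hz =>
      ⟨hz.1, by have : 0 < δ z - ς := hz.2; linarith⟩
    have htl := fun l => PI_tail hD (hPI l) hς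
    choose I₀ hI₀ using htl
    obtain ⟨P, hPA, hPz⟩ := PI_fin hD V H Nn w hPI (by linarith) (Finset.univ.sup I₀) hς.le
    refine hB U (fun z => δ z - ς) h P u f (hD.shift hς.le hςc) hPA (fun l => (hu l).mono hsub)
      (fun l z hz => huM l z (hsub hz)) (fun l => ?_) (fun j => (hf j).mono hsub)
      (fun j z hz => hfM j z (hsub hz)) (fun a ha => ?_)
    · rcases hgr l with hgl | hsl
      · left
        refine CG_shift (hp l) hς.le hA₀0 ?_ hPA.w0 fun z hz X => ?_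
        · have : 0 ≤ (d : ℝ) * A₀ := by positivity
          linarith
        · have hz' := hsub hz
          have hςz : ς ≤ δ z := by have : 0 < δ z - ς := hz.2; linarith
          refine (hgl z hz' X).trans ?_
          have h1 : 0 ≤ pzI δ (V l) (Nn l) (w l) z := by
            rw [pzI]
            refine tsum_nonneg fun x => ?_
            have h2 := (hPI l).w0 x
            have h3 : 0 ≤ (δ z) ^ (1 / 4 : ℝ) := Real.rpow_nonneg hz'.2.le _
            positivity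
          have h2 : 0 ≤ gau δ h z X := gau_nonneg hz'.2 X
          have h3 : pzI δ (V l) (Nn l) (w l) z ≤ pz P δ z := by
            rw [← hPz δ z hz'.2]
            refine (hI₀ l _ (Finset.le_sup (Finset.mem_univ l)) z hz'.1 hςz).trans ?_
            refine add_le_add (Real.rpow_le_rpow hς.le hςz (by norm_num)) ?_
            refine Finset.single_le_sum (f := fun l => ∑ x ∈ Finset.range (Finset.univ.sup I₀),
              w l x * Nn l x ^ 2 * ((δ z) ^ (1 / 4 : ℝ) / ‖V l x z‖ ^ (9 / 4 : ℝ)))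
              (fun i _ => Finset.sum_nonneg fun x _ => ?_) (Finset.mem_univ l)
            have h4 := (hPI i).w0 x
            have h5 : 0 ≤ (δ z) ^ (1 / 4 : ℝ) := Real.rpow_nonneg hz'.2.le _
            positivity
          have h6 : 0 < p l := by linarith [hp l]
          gcongr
      · exact Or.inr (SG_shift hς.le hsl)
    · exact S8_solv_mono (hloc a (hsub ha)) fun w hw => ⟨hsub hw.1, hw.2⟩
  refine solv_exhaust (E := fun i : ℕ => Om U (fun z => δ z - c / (4 * (i + 1)))) (fun i => ?_)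
    fun z hz => ?_
  · refine hmain _ (by positivity) ?_
    refine div_le_div_of_nonneg_left hc0.le (by norm_num) ?_
    have : (0 : ℝ) ≤ i := Nat.cast_nonneg i
    linarith
  · have hcont : ContinuousAt δ z :=
      (hg.dδ.continuousOn).continuousAt (hg.opn.mem_nhds hz.1)
    have hz2 : 0 < δ z := hz.2
    have h1 : ∀ᶠ y in 𝓝 z, δ z / 2 < δ y := hcont.eventually (lt_mem_nhds (by linarith))
    have h2 : ∀ᶠ y in 𝓝 z, y ∈ U := hg.opn.mem_nhds hz.1
    obtain ⟨r, hr0, hball⟩ := Metric.eventually_nhds_iff_ball.1 (h1.and h2)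
    obtain ⟨i₀, hi₀⟩ := exists_nat_gt (c / (2 * δ z))
    refine ⟨r, hr0, i₀, fun i hi y hy => ⟨(hball y hy).2, ?_⟩⟩
    have h3 := (hball y hy).1
    have h4 : (i₀ : ℝ) ≤ i := by exact_mod_cast hi
    have h5 : c / (4 * ((i : ℝ) + 1)) ≤ δ z / 2 := by
      rw [div_lt_iff₀ (by positivity)] at hi₀
      rw [div_le_iff₀ (by positivity)]
      nlinarith
    show 0 < δ y - c / (4 * ((i : ℝ) + 1))
    linarith

end Pool.Agent.MPca0fc2.GW
end

section

/-! The classes of functions in convexifying coordinates. -/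

set_option autoImplicit false

open Metric Set MeasureTheory Filter Topology

namespace Pool.Agent.MPca0fc2.GW

open Pool.Agent.MPca0fc2.FD
open Pool.Agent.Lib.MP_ca0fc2_an

variable {n : ℕ}

/-- The constant may be enlarged. -/
theorem M4b_PI_mono {U : Set (Ec n)} {δ : Ec n → ℝ} {h : Ec n → Ec n → Fin n → ℂ} {A A' : ℝ}
    {V : ℕ → Ec n → ℂ} {H : ℕ → Ec n → Ec n → Fin n → ℂ} {N w : ℕ → ℝ}
    (hP : PI U δ h A V H N w) (hA : A ≤ A') : PI U δ h A' V H N w where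
  A1 := hP.A1.trans hA
  hol := hP.hol
  Hhol := hP.Hhol
  Hb := fun x z hz ζ hζ => (hP.Hb x z hz ζ hζ).trans hA
  hef := hP.hef
  Vb := fun x z hz => (hP.Vb x z hz).trans hA
  Vd := fun x z hz => (hP.Vd x z hz).trans hA
  Vl := fun x z hz ζ hζ => (hP.Vl x z hz ζ hζ).trans
    (mul_le_mul_of_nonneg_right hA (norm_nonneg _))
  N0 := hP.N0
  w0 := hP.w0
  re := fun x z hz => by
    have h1 := hP.re x z hz
    have h2 := hP.N0 x
    have h3 : 0 < δ z := hz.2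
    have h4 : 0 < (V x z).re := by
      by_contra h5
      push Not at h5
      have := mul_nonpos_of_nonneg_of_nonpos (zero_le_one.trans hP.A1) h5
      linarith
    exact h1.trans (mul_le_mul_of_nonneg_right hA h4.le)
  tan := fun x z hz X => (hP.tan x z hz X).trans
    (mul_le_mul_of_nonneg_right hA (by positivity))
  carl := fun z hz I => (hP.carl z hz I).trans hA

/-- The points of the convex domain. -/
theorem M4b_pt {D U : Set (Ec n)} {ρ : Ec n → ℝ} {p : Ec n} {r a L c₁ : ℝ} {Φ : Ec n → Ec n}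
    {q' : Ec n → ℝ} {x₀ : Ec n} {a₁ a₂ c C K : ℝ} {W : Set (Ec n)}
    (hL : LD D U ρ p r a L c₁ Φ q' x₀ a₁ a₂ c C K W) {y : Ec n}
    (hy : y ∈ Om W (fun y => -q' (x₀ + y))) : Φ (x₀ + y) ∈ D ∩ ball p r ∧
      x₀ + y ∈ ball (0 : Ec n) a₂ ∧ 0 < -q' (x₀ + y) ∧
      -q' (x₀ + y) ≤ L * infDist (Φ (x₀ + y)) Dᶜ := by
  have h1 : x₀ + y ∈ ball (0 : Ec n) a₂ := hL.sub hy.1
  have h2 : x₀ + y ∈ ball (0 : Ec n) a := ball_subset_ball hL.a12.2.2.le h1
  have h3 := hL.cmp y hy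
  have h4 := hL.cv.map _ h2
  refine ⟨⟨?_, h4.1⟩, h1, hy.2, h3.2.1.trans (hL.dist _ h2 h3.1).1⟩
  rw [hL.eqD]
  exact ⟨h4.2, h3.1⟩

/-- The families `V i`.
PROOF. `V' i y = V i (Φ (x₀ + y))`, `N' = N`, `w' = w`. `V i ∘ Φ` is holomorphic and bounded by `K₁` on the ball of radius `a`; `cauchy_bd` (translated by `x₀`), `hefer_bd` on the convex open set `W`. `re`: `N + δ ≤ N + |ρ| ≤ L (N + infDist) ≤ L K₁ Re V`. `carl`: `δ ≤ |ρ| ≤ L infDist`. `tan`: `tan_pos`. The constant `A` is the maximum of the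
constants. (`W` is open and convex by `CD`.) -/
theorem fam_PI {D U : Set (Ec n)} {ρ : Ec n → ℝ} {p : Ec n} {r a L c₁ : ℝ} {Φ : Ec n → Ec n}
    {q' : Ec n → ℝ} {x₀ : Ec n} {a₁ a₂ c C K : ℝ} {W : Set (Ec n)}
    (hL : LD D U ρ p r a L c₁ Φ q' x₀ a₁ a₂ c C K W) {K₁ : ℝ} {V : ℕ → Ec n → ℂ} {N w : ℕ → ℝ}
    (hV : CarlFam D (ball p r) K₁ V N w) :
    ∃ (A : ℝ) (H : ℕ → Ec n → Ec n → Fin n → ℂ), PI W (fun y => -q' (x₀ + y))
      (fun _ ζ k => hq q' (x₀ + ζ) k) A (fun i y => V i (Φ (x₀ + y))) H N w := by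
  obtain ⟨Kc, hKc1, hKc⟩ := cauchy_bd n hL.a12.2.2 K₁
  have ha2 : a₂ < a := hL.a12.2.2
  have hL1 : 1 ≤ L := hL.cv.L1
  have hmem : ∀ y ∈ W, x₀ + y ∈ ball (0 : Ec n) a₂ := fun y hy => hL.sub hy
  have hsub : ball (0 : Ec n) a₂ ⊆ ball 0 a := ball_subset_ball ha2.le
  have hF : ∀ i, DifferentiableOn ℂ (fun x => V i (Φ x)) (ball 0 a) := fun i =>
    (hV.hol i).comp hL.cv.hol fun x hx => (hL.cv.map x hx).1
  have hFb : ∀ i, ∀ x ∈ ball (0 : Ec n) a, ‖V i (Φ x)‖ ≤ K₁ := fun i x hx =>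
    hV.bdd i _ (hL.cv.map x hx).1
  have hK10 : 0 ≤ K₁ := (norm_nonneg _).trans (hFb 0 0 (mem_ball_self hL.cv.a0))
  have hG : ∀ i, DifferentiableOn ℂ (fun y => V i (Φ (x₀ + y))) W := fun i =>
    (hF i).comp (s := W) (f := fun y => x₀ + y)
      ((differentiableOn_const _).add differentiableOn_id) fun y hy => hsub (hmem y hy)
  have hfd : ∀ i y, fderiv ℂ (fun y => V i (Φ (x₀ + y))) y =
      fderiv ℂ (fun x => V i (Φ x)) (x₀ + y) := fun i y => fderiv_comp_add_left (f := fun x => V i (Φ x)) x₀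
  have hVd : ∀ i, ∀ z ∈ W, ‖fderiv ℂ (fun y => V i (Φ (x₀ + y))) z‖ ≤ Kc := by
    intro i z hz
    rw [hfd]
    exact (hKc _ (hF i) (hFb i)).1 _ (hmem z hz)
  have hVl : ∀ i, ∀ z ∈ W, ∀ ζ ∈ W, ‖fderiv ℂ (fun y => V i (Φ (x₀ + y))) z -
      fderiv ℂ (fun y => V i (Φ (x₀ + y))) ζ‖ ≤ Kc * ‖z - ζ‖ := by
    intro i z hz ζ hζ
    rw [hfd, hfd]
    have h1 := (hKc _ (hF i) (hFb i)).2 _ (hmem z hz) _ (hmem ζ hζ)
    rwa [add_sub_add_left_eq_sub] at h1
  have hWo : IsOpen W := hL.cd.geo.opn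
  have hWc : Convex ℝ W := hL.cd.cvx
  choose H hH1 hH2 hH3 using fun i => hefer_bd hWo hWc (hG i) (hVd i)
  have hre : ∀ i, ∀ y ∈ Om W (fun y => -q' (x₀ + y)), 0 < (V i (Φ (x₀ + y))).re ∧
      N i + -q' (x₀ + y) ≤ L * K₁ * (V i (Φ (x₀ + y))).re := by
    intro i y hy
    obtain ⟨h1, h2, h3, h4⟩ := M4b_pt hL hy
    have h5 := hV.re i _ h1
    have h6 := (hV.pos i).1
    have h7 : 0 ≤ infDist (Φ (x₀ + y)) Dᶜ := infDist_nonneg
    have h8 : 0 < (V i (Φ (x₀ + y))).re := by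
      by_contra h9
      push Not at h9
      have := mul_nonpos_of_nonneg_of_nonpos hK10 h9
      linarith
    refine ⟨h8, ?_⟩
    have h9 : N i ≤ L * N i := le_mul_of_one_le_left h6.le hL1
    have h10 := mul_le_mul_of_nonneg_left h5 (zero_le_one.trans hL1)
    nlinarith
  obtain ⟨A₀, hA₀⟩ : ∃ A₀ : ℝ, A₀ = Kc + L * K₁ := ⟨_, rfl⟩
  have hLK : 0 ≤ L * K₁ := mul_nonneg (zero_le_one.trans hL1) hK10
  obtain ⟨Kt, hKt1, hKt⟩ := tan_pos n c C A₀
  have hKcA : Kc ≤ A₀ := by rw [hA₀]; linarith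
  have hLKA : L * K₁ ≤ A₀ := by rw [hA₀]; linarith
  have hA0 : A₀ ≤ Kt + A₀ + K₁ := by linarith
  refine ⟨Kt + A₀ + K₁, H, ?_⟩
  constructor
  · linarith
  · exact hG
  · exact hH1
  · intro i z hz ζ hζ
    exact (hH2 i z hz ζ hζ).trans (by linarith)
  · exact hH3
  · intro i z hz
    exact (hFb i _ (hsub (hmem z hz))).trans (by linarith)
  · intro i z hz
    exact (hVd i z hz).trans (by linarith)
  · intro i z hz ζ hζ
    exact (hVl i z hz ζ hζ).trans (mul_le_mul_of_nonneg_right (by linarith) (norm_nonneg _))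
  · exact fun i => (hV.pos i).1
  · exact fun i => (hV.pos i).2
  · intro i z hz
    have h1 := hre i z hz
    exact h1.2.trans (mul_le_mul_of_nonneg_right (by linarith) h1.1.le)
  · intro i z hz X
    have h1 := hKt W _ _ hL.cd _ (hG i) (fun z hz => (hVd i z hz).trans hKcA)
      (fun z hz ζ hζ => (hVl i z hz ζ hζ).trans
        (mul_le_mul_of_nonneg_right hKcA (norm_nonneg _)))
      (fun z hz => by
        have h2 := hre i z hz
        have h3 := (hV.pos i).1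
        have h4 := mul_le_mul_of_nonneg_right hLKA h2.1.le
        linarith [h2.2]) z hz X
    exact h1.trans (mul_le_mul_of_nonneg_right (by linarith) (by positivity))
  · intro z hz I
    obtain ⟨h1, h2, h3, h4⟩ := M4b_pt hL hz
    have h5 := hV.carl _ h1 I
    calc ∑ x ∈ Finset.range I, w x * N x * -q' (x₀ + z) / ‖V x (Φ (x₀ + z))‖ ^ 2
        ≤ ∑ x ∈ Finset.range I, L * (w x * N x * infDist (Φ (x₀ + z)) Dᶜ /
            ‖V x (Φ (x₀ + z))‖ ^ 2) := by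
          refine Finset.sum_le_sum fun x _ => ?_
          rw [← mul_div_assoc]
          refine div_le_div_of_nonneg_right ?_ (by positivity)
          have h6 : 0 ≤ w x * N x := mul_nonneg (hV.pos x).2 (hV.pos x).1.le
          have h7 := mul_le_mul_of_nonneg_left h4 h6
          linarith
      _ = L * ∑ x ∈ Finset.range I, (w x * N x * infDist (Φ (x₀ + z)) Dᶜ /
            ‖V x (Φ (x₀ + z))‖ ^ 2) := by rw [Finset.mul_sum]
      _ ≤ L * K₁ := mul_le_mul_of_nonneg_left h5 (zero_le_one.trans hL1)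
      _ ≤ Kt + A₀ + K₁ := by linarith

/-- The functions with Carleson gradients.
PROOF. `fam_PI`. For `y ∈ Om`, `x = x₀ + y`, `X ≠ 0`, `g = gq (ρ ∘ Φ) x X`: `φ(lam) = Φ (x + (lam ε / g) X)` (`disc_q` for the function `ρ ∘ Φ`, which satisfies `QC`) maps the unit disc into `D ∩ ball p r`. `deriv (u ∘ φ) 0 = (ε / g) d(u ∘ Φ)(x) X`. The sum in the definition of `CarlOn` is `(infDist / δ)^(1/4) pzI(y)`, and `infDist ≤ L |ρ|`. So
`‖d(u ∘ Φ)(x) X‖ ≤ (g / ε) (L |ρ| / δ)^(1/(4p)) pzI^(1/p)`, `g ≤ K √(δ / |ρ|) gau` and `(δ / |ρ|)^(1/2) (|ρ| / δ)^(1/(4p)) ≤ 1`. -/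
theorem carl_CI {D U : Set (Ec n)} {ρ : Ec n → ℝ} {p : Ec n} {r a L c₁ : ℝ} {Φ : Ec n → Ec n}
    {q' : Ec n → ℝ} {x₀ : Ec n} {a₁ a₂ c C K : ℝ} {W : Set (Ec n)}
    (hL : LD D U ρ p r a L c₁ Φ q' x₀ a₁ a₂ c C K W) {u : Ec n → ℂ}
    (hu : u ∈ CarlOn D (ball p r)) : ∃ A p₁ : ℝ, 1 ≤ p₁ ∧ CI W (fun y => -q' (x₀ + y))
      (fun _ ζ k => hq q' (x₀ + ζ) k) A p₁ (fun y => u (Φ (x₀ + y))) := by
  obtain ⟨huH, K₁, p₁, V, N, w, hp₁, hV, hφ⟩ := hu
  obtain ⟨A₁, H, hPI⟩ := fam_PI hL hV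
  have hL1 : 1 ≤ L := hL.cv.L1
  have hL0 : 0 ≤ L := zero_le_one.trans hL1
  have hK0 : 0 ≤ K := zero_le_one.trans hL.K1
  have hsub : ball (0 : Ec n) a₂ ⊆ ball 0 a := ball_subset_ball hL.a12.2.2.le
  have hQC : QC (fun x => ρ (Φ x)) a c₁ :=
    ⟨hL.cv.a0, hL.cv.a1, hL.cv.c0, hL.cv.q3, by
      show ρ (Φ 0) = 0
      rw [hL.cv.zero, hL.cv.q0], hL.cv.dq, hL.cv.conv⟩
  obtain ⟨ε, hε, hdisc⟩ := disc_q hQC hL.a12.2.2
  -- the open set on which `u ∘ Φ` is holomorphic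
  have hSo : IsOpen (ball (0 : Ec n) a ∩ (fun x => ρ (Φ x)) ⁻¹' Iio 0) :=
    hL.cv.q3.continuousOn.isOpen_inter_preimage isOpen_ball isOpen_Iio
  have hSD : ∀ x ∈ ball (0 : Ec n) a ∩ (fun x => ρ (Φ x)) ⁻¹' Iio 0, Φ x ∈ D ∩ ball p r := by
    rintro x ⟨hx, hx'⟩
    have h1 := hL.cv.map x hx
    refine ⟨?_, h1.1⟩
    rw [hL.eqD]
    exact ⟨h1.2, hx'⟩
  have hdiff : DifferentiableOn ℂ (fun x => u (Φ x))
      (ball (0 : Ec n) a ∩ (fun x => ρ (Φ x)) ⁻¹' Iio 0) :=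
    huH.1.comp (hL.cv.hol.mono inter_subset_left) hSD
  have hC0 : 0 ≤ K * L / ε := by positivity
  refine ⟨A₁ + K * L / ε, p₁, hp₁, _, H, N, w, M4b_PI_mono hPI (by linarith), ?_⟩
  intro y hy X
  have hA0 : 0 ≤ A₁ := zero_le_one.trans hPI.A1
  obtain ⟨h1, h2, h3, h4⟩ := M4b_pt hL hy
  have h5 : x₀ + y ∈ ball (0 : Ec n) a := hsub h2
  obtain ⟨h6, h7, h8⟩ := hL.cmp y hy
  have hpz : 0 ≤ pzI (fun y => -q' (x₀ + y)) (fun i y => V i (Φ (x₀ + y))) N w y := by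
    unfold pzI
    refine tsum_nonneg fun i => ?_
    have := (hV.pos i).2
    have h9 : 0 ≤ -q' (x₀ + y) := h3.le
    positivity
  have hgau : 0 ≤ gau (fun y => -q' (x₀ + y)) (fun _ ζ k => hq q' (x₀ + ζ) k) y X := by
    unfold gau
    have h9 : 0 ≤ -q' (x₀ + y) := h3.le
    positivity
  have hfd : fderiv ℂ (fun y => u (Φ (x₀ + y))) y = fderiv ℂ (fun x => u (Φ x)) (x₀ + y) :=
    fderiv_comp_add_left (f := fun x => u (Φ x)) x₀
  by_cases hX : X = 0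
  · subst hX
    rw [map_zero, norm_zero]
    positivity
  obtain ⟨hg, hdd⟩ := hdisc _ h2 h6 X hX
  have h8X := h8 X
  obtain ⟨g, hgdef⟩ : ∃ g : ℝ, g = gq (fun x => ρ (Φ x)) (x₀ + y) X := ⟨_, rfl⟩
  rw [← hgdef] at hg hdd h8X
  have hφ0 : Φ (x₀ + y + ((0 : ℂ) * ((ε / g : ℝ) : ℂ)) • X) = Φ (x₀ + y) := by
    simp
  have hin : ∀ lam ∈ ball (0 : ℂ) 1, x₀ + y + (lam * ((ε / g : ℝ) : ℂ)) • X ∈
      ball (0 : Ec n) a ∩ (fun x => ρ (Φ x)) ⁻¹' Iio 0 := fun lam hlam =>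
    ⟨(hdd lam hlam).1, (hdd lam hlam).2⟩
  have hφ1 := hφ (fun lam : ℂ => Φ (x₀ + y + (lam * ((ε / g : ℝ) : ℂ)) • X))
    (hL.cv.hol.comp (s := ball (0 : ℂ) 1)
      (f := fun lam : ℂ => x₀ + y + (lam * ((ε / g : ℝ) : ℂ)) • X)
      (by fun_prop) fun lam hlam => (hin lam hlam).1)
    (fun lam hlam => hSD _ (hin lam hlam))
  simp only [hφ0] at hφ1
  -- the derivative
  have hder : deriv (fun lam : ℂ => u (Φ (x₀ + y + (lam * ((ε / g : ℝ) : ℂ)) • X))) 0 =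
      ((ε / g : ℝ) : ℂ) * fderiv ℂ (fun x => u (Φ x)) (x₀ + y) X := by
    have h9 : DifferentiableAt ℂ (fun x => u (Φ x)) (x₀ + y) :=
      hdiff.differentiableAt (hSo.mem_nhds ⟨h5, h6⟩)
    have h10 : HasDerivAt (fun lam : ℂ => x₀ + y + (lam * ((ε / g : ℝ) : ℂ)) • X)
        (((ε / g : ℝ) : ℂ) • X) 0 := by
      have h11 : HasDerivAt (fun lam : ℂ => lam * ((ε / g : ℝ) : ℂ)) (((ε / g : ℝ) : ℂ)) 0 := by
        simpa using (hasDerivAt_id (0 : ℂ)).mul_const (((ε / g : ℝ) : ℂ))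
      exact (h11.smul_const X).const_add _
    have h12 : HasFDerivAt (fun x => u (Φ x)) (fderiv ℂ (fun x => u (Φ x)) (x₀ + y))
        ((fun lam : ℂ => x₀ + y + (lam * ((ε / g : ℝ) : ℂ)) • X) 0) := by
      have h13 : (fun lam : ℂ => x₀ + y + (lam * ((ε / g : ℝ) : ℂ)) • X) 0 = x₀ + y := by simp
      rw [h13]
      exact h9.hasFDerivAt
    have h14 := h12.comp_hasDerivAt (0 : ℂ) h10
    have h15 := h14.deriv
    rw [map_smul, smul_eq_mul] at h15
    exact h15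
  rw [hder] at hφ1
  -- the sum
  obtain ⟨I₀, hI₀⟩ : ∃ I₀ : ℝ, I₀ = infDist (Φ (x₀ + y)) Dᶜ := ⟨_, rfl⟩
  obtain ⟨d₀, hd₀⟩ : ∃ d₀ : ℝ, d₀ = -q' (x₀ + y) := ⟨_, rfl⟩
  obtain ⟨ρ₀, hρ₀⟩ : ∃ ρ₀ : ℝ, ρ₀ = |ρ (Φ (x₀ + y))| := ⟨_, rfl⟩
  have hI0 : 0 ≤ I₀ := by rw [hI₀]; exact infDist_nonneg
  have hd0 : 0 < d₀ := by rw [hd₀]; exact h3
  have hdρ : d₀ ≤ ρ₀ := by rw [hd₀, hρ₀]; exact h7
  have hρ0 : 0 < ρ₀ := hd0.trans_le hdρ
  have hIρ : I₀ ≤ L * ρ₀ := by rw [hI₀, hρ₀]; exact (hL.dist _ h5 h6).2.1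
  rw [← hd₀, ← hρ₀] at h8X
  have hsum : ∑' i, w i * N i ^ 2 * (infDist (Φ (x₀ + y)) Dᶜ ^ (1 / 4 : ℝ) /
      ‖V i (Φ (x₀ + y))‖ ^ (9 / 4 : ℝ)) = (I₀ / d₀) ^ (1 / 4 : ℝ) *
      pzI (fun y => -q' (x₀ + y)) (fun i y => V i (Φ (x₀ + y))) N w y := by
    unfold pzI
    rw [← tsum_mul_left, ← hI₀]
    refine tsum_congr fun i => ?_
    show _ = (I₀ / d₀) ^ (1 / 4 : ℝ) * (w i * N i ^ 2 * ((-q' (x₀ + y)) ^ (1 / 4 : ℝ) /
      ‖V i (Φ (x₀ + y))‖ ^ (9 / 4 : ℝ)))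
    rw [← hd₀, Real.div_rpow hI0 hd0.le]
    have h9 : d₀ ^ (1 / 4 : ℝ) ≠ 0 := (Real.rpow_pos_of_pos hd0 _).ne'
    rw [div_mul_eq_mul_div, eq_div_iff h9]
    ring
  rw [hsum] at hφ1
  obtain ⟨P, hP⟩ : ∃ P : ℝ, P = pzI (fun y => -q' (x₀ + y)) (fun i y => V i (Φ (x₀ + y))) N w y :=
    ⟨_, rfl⟩
  rw [← hP] at hφ1 hpz ⊢
  rw [norm_mul, Complex.norm_real, Real.norm_of_nonneg (by positivity : 0 ≤ ε / g), ← hfd] at hφ1
  obtain ⟨T, hT⟩ : ∃ T : ℝ, T = ‖fderiv ℂ (fun y => u (Φ (x₀ + y))) y X‖ := ⟨_, rfl⟩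
  have hT0 : 0 ≤ T := by rw [hT]; exact norm_nonneg _
  rw [← hT] at hφ1 ⊢
  have hp0 : 0 < p₁ := zero_lt_one.trans_le hp₁
  have e1 : ε / g * T ≤ ((I₀ / d₀) ^ (1 / 4 : ℝ) * P) ^ (1 / p₁) := by
    rw [one_div p₁]
    exact (Real.le_rpow_inv_iff_of_pos (by positivity) (by positivity) hp0).mpr hφ1
  have e2 : ((I₀ / d₀) ^ (1 / 4 : ℝ) * P) ^ (1 / p₁) ≤ L * Real.sqrt (ρ₀ / d₀) * P ^ (1 / p₁) := by
    rw [Real.mul_rpow (by positivity) hpz, ← Real.rpow_mul (by positivity)]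
    refine mul_le_mul_of_nonneg_right ?_ (by positivity)
    have h9 : 1 / p₁ ≤ 1 := by
      rw [div_le_one hp0]
      exact hp₁
    have h10 : 0 ≤ 1 / p₁ := by positivity
    have h11 : I₀ / d₀ ≤ L * (ρ₀ / d₀) := by
      rw [← mul_div_assoc]
      exact div_le_div_of_nonneg_right hIρ hd0.le
    have h12 : 1 ≤ ρ₀ / d₀ := by
      rw [le_div_iff₀ hd0]
      linarith
    calc (I₀ / d₀) ^ (1 / 4 * (1 / p₁)) ≤ (L * (ρ₀ / d₀)) ^ (1 / 4 * (1 / p₁)) :=
          Real.rpow_le_rpow (by positivity) h11 (by positivity)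
      _ = L ^ (1 / 4 * (1 / p₁)) * (ρ₀ / d₀) ^ (1 / 4 * (1 / p₁)) :=
          Real.mul_rpow hL0 (by positivity)
      _ ≤ L ^ (1 : ℝ) * (ρ₀ / d₀) ^ (1 / 2 : ℝ) := by
          refine mul_le_mul (Real.rpow_le_rpow_of_exponent_le hL1 (by linarith))
            (Real.rpow_le_rpow_of_exponent_le h12 (by linarith)) (by positivity) (by positivity)
      _ = L * Real.sqrt (ρ₀ / d₀) := by rw [Real.rpow_one, Real.sqrt_eq_rpow]
  have e3 : T ≤ g / ε * (L * Real.sqrt (ρ₀ / d₀) * P ^ (1 / p₁)) := by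
    have h9 := e1.trans e2
    have h10 : T = g / ε * (ε / g * T) := by
      field_simp
    rw [h10]
    exact mul_le_mul_of_nonneg_left h9 (by positivity)
  have e4 : Real.sqrt (d₀ / ρ₀) * Real.sqrt (ρ₀ / d₀) = 1 := by
    rw [← Real.sqrt_mul (by positivity)]
    have h9 : d₀ / ρ₀ * (ρ₀ / d₀) = 1 := by field_simp
    rw [h9, Real.sqrt_one]
  obtain ⟨G, hG⟩ : ∃ G : ℝ, G = gau (fun y => -q' (x₀ + y))
    (fun _ ζ k => hq q' (x₀ + ζ) k) y X := ⟨_, rfl⟩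
  rw [← hG] at h8X hgau ⊢
  have hPp : 0 ≤ P ^ (1 / p₁) := Real.rpow_nonneg hpz _
  calc T ≤ g / ε * (L * Real.sqrt (ρ₀ / d₀) * P ^ (1 / p₁)) := e3
    _ ≤ (K * Real.sqrt (d₀ / ρ₀) * G) / ε * (L * Real.sqrt (ρ₀ / d₀) * P ^ (1 / p₁)) := by
        refine mul_le_mul_of_nonneg_right (div_le_div_of_nonneg_right h8X hε.le) (by positivity)
    _ = K * L / ε * P ^ (1 / p₁) * G * (Real.sqrt (d₀ / ρ₀) * Real.sqrt (ρ₀ / d₀)) := by ring
    _ = K * L / ε * P ^ (1 / p₁) * G := by rw [e4, mul_one]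
    _ ≤ (A₁ + K * L / ε) * P ^ (1 / p₁) * G := by
        refine mul_le_mul_of_nonneg_right (mul_le_mul_of_nonneg_right ?_ hPp) hgau
        linarith

end Pool.Agent.MPca0fc2.GW
end
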