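import Pool.Agent.Lib.MP_ca0fc2_an.Mg.G003
import Pool.Agent.Lib.MP_ca0fc2_an.Mg.G029
import Pool.Agent.Lib.MP_ca0fc2_an.Mg.G057

section

/-! The data of the descent with a general density (compare `FD/K4.lean`). -/

set_option autoImplicit false

open Metric Set MeasureTheory Filter Topology

namespace Pool.Agent.MPca0fc2.GW

open Pool.Agent.MPca0fc2.FD

variable {n : ℕ} {Y V : Type*} [NormedAddCommGroup Y] [NormedSpace ℂ Y] [NormedAddCommGroup V]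
  [NormedSpace ℂ V] [FiniteDimensional ℂ Y] [FiniteDimensional ℂ V]


/-- The data: `σ` is a smooth solution of `F σ = 1`, with `∂̄σ` bounded by the density `G`. -/
structure KG (U : Set (Ec n)) (δ : Ec n → ℝ) (h : Ec n → Ec n → Fin n → ℂ) (G : Ec n → ℝ)
    (Q R : Ec n → Ec n → Fin n → ℂ) (F : Ec n → Y →L[ℂ] ℂ) (σ : Ec n → Y)
    (c C A M C₁ G₁ : ℝ) : Prop where
  geo : Geo U δ h c C
  gd : GD U δ h G A
  gx : GX U δ h G Q R C A
  wq : WQ (Om U δ) δ Q R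
  M0 : 0 ≤ M
  C0 : 0 ≤ C₁
  G0 : 0 ≤ G₁
  F_hol : DifferentiableOn ℂ F (Om U δ)
  F_le : ∀ z ∈ Om U δ, ‖F z‖ ≤ M
  σ_c2 : ContDiffOn ℝ 2 σ (Om U δ)
  σ_le : ∀ z ∈ Om U δ, ‖σ z‖ ≤ C₁
  dσ : ∀ z ∈ Om U δ, ∀ X, ‖db σ z X‖ ≤ G₁ * G z * gau δ h z X
  one : ∀ z ∈ Om U δ, F z (σ z) = 1
  zero : ∀ z ∈ Om U δ, ∀ X, F z (db σ z X) = 0

/-- the statement of the descent in degree `q`, on the domain `{δ > s}` -/
def DescG (K : QT.Car Y V) (U : Set (Ec n)) (δ : Ec n → ℝ)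
    (h : Ec n → Ec n → Fin n → ℂ) (G : Ec n → ℝ) (F : Ec n → Y →L[ℂ] ℂ) (σ : Ec n → Y) (q : ℕ)
    (s B : ℝ) : Prop :=
  ∀ e : ℝ, 0 < e → ∃ (W : Set (Ec n)) (Ψ : Fm n q V), IsOpen W ∧
    Kc U (fun z => δ z - s) ⊆ W ∧ W ⊆ Om U δ ∧ AltF Ψ ∧ (∀ I, ContDiffOn ℝ 1 (Ψ I) W) ∧
    Bg U (fun z => δ z - s) h (Gs G δ s) B Ψ ∧
    (∀ z ∈ Om U (fun z => δ z - s), ∀ I, K.c (F z) (Ψ I z) = K.c (F z) (UU K σ q I z)) ∧
    ∀ z ∈ Om U (fun z => δ z - s), ∀ I, ‖dbf Ψ I z‖ ≤ e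

private theorem K4a_G0 {U : Set (Ec n)} {δ : Ec n → ℝ} {h : Ec n → Ec n → Fin n → ℂ}
    {G : Ec n → ℝ} {A : ℝ} (hG : GD U δ h G A) : ∀ z ∈ Om U δ, 0 ≤ G z := by
  intro z hz
  have h1 : 0 ≤ (δ z) ^ (1 / 4 : ℝ) := Real.rpow_nonneg hz.2.le _
  have h2 := hG.lo z hz
  have h3 := hG.A1
  by_contra hcon
  push Not at hcon
  have h4 : A * G z < 0 := mul_neg_of_pos_of_neg (by linarith) hcon
  linarith

/-- the bound of the Koszul forms on the whole domain -/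
private theorem K4a_bd (K : QT.Car Y V) (A C₁ G₁ : ℝ) (r : ℕ) (hr : 1 ≤ r) (hC : 0 ≤ C₁)
    (hG₁ : 0 ≤ G₁) : ∃ B : ℝ, 0 ≤ B ∧
    ∀ (U : Set (Ec n)) (δ : Ec n → ℝ) (h : Ec n → Ec n → Fin n → ℂ) (G : Ec n → ℝ)
      (σ : Ec n → Y), (∀ z ∈ Om U δ, 0 ≤ G z ∧ G z ≤ A) →
      (∀ z ∈ Om U δ, ‖σ z‖ ≤ C₁) →
      (∀ z ∈ Om U δ, ∀ X, ‖db σ z X‖ ≤ G₁ * G z * gau δ h z X) →
      Bg U δ h G B (UU K σ r) := by
  refine ⟨r.factorial * (‖K.a‖ * C₁) * (‖K.a‖ ^ r * ‖K.Ω‖) * G₁ ^ r * |A| ^ (r - 1),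
    by positivity, ?_⟩
  intro U δ h G σ hE hσ hd z hz X
  obtain ⟨hE0, hE1⟩ := hE z hz
  have hg : ∀ i, 0 ≤ gau δ h z (X i) := fun i => by
    have := hz.2
    unfold gau
    positivity
  rw [ev_UU, norm_smul, Complex.norm_natCast]
  have h1 : ‖K.a (σ z) (pwr K r (fun i => db σ z (X i)))‖ ≤
      ‖K.a‖ * ‖σ z‖ * ‖pwr K r (fun i => db σ z (X i))‖ := K.a.le_opNorm₂ _ _
  have h2 := pwr_norm K (fun i => db σ z (X i))
  have h3 : ∏ i, ‖db σ z (X i)‖ ≤ ∏ i, (G₁ * G z * gau δ h z (X i)) :=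
    Finset.prod_le_prod (fun i _ => norm_nonneg _) (fun i _ => hd z hz (X i))
  have h4 : ∏ i, (G₁ * G z * gau δ h z (X i)) =
      G₁ ^ r * G z ^ r * ∏ i, gau δ h z (X i) := by
    rw [Finset.prod_mul_distrib, Finset.prod_const, Finset.card_univ, Fintype.card_fin, mul_pow]
  have h5 : G z ^ r ≤ |A| ^ (r - 1) * G z := by
    obtain ⟨m, rfl⟩ : ∃ m, r = m + 1 := ⟨r - 1, by omega⟩
    rw [pow_succ, Nat.add_sub_cancel]
    exact mul_le_mul_of_nonneg_right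
      (pow_le_pow_left₀ hE0 (hE1.trans (le_abs_self _)) m) hE0
  have hp : 0 ≤ ∏ i, gau δ h z (X i) := Finset.prod_nonneg fun i _ => hg i
  calc (r.factorial : ℝ) * ‖K.a (σ z) (pwr K r (fun i => db σ z (X i)))‖
      ≤ r.factorial * (‖K.a‖ * ‖σ z‖ * ‖pwr K r (fun i => db σ z (X i))‖) := by gcongr
    _ ≤ r.factorial * (‖K.a‖ * C₁ * (‖K.a‖ ^ r * ‖K.Ω‖ *
        ((G₁ ^ r * (|A| ^ (r - 1) * G z)) * ∏ i, gau δ h z (X i)))) := by
      have h6 : ∏ i, ‖db σ z (X i)‖ ≤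
          (G₁ ^ r * (|A| ^ (r - 1) * G z)) * ∏ i, gau δ h z (X i) := by
        refine h3.trans (h4.le.trans ?_)
        gcongr
      have h7 := hσ z hz
      have h8 : ‖pwr K r (fun i => db σ z (X i))‖ ≤ ‖K.a‖ ^ r * ‖K.Ω‖ *
          ((G₁ ^ r * (|A| ^ (r - 1) * G z)) * ∏ i, gau δ h z (X i)) :=
        h2.trans (mul_le_mul_of_nonneg_left h6 (by positivity))
      gcongr
    _ = _ := by ring

/-- The Koszul forms are bounded by the density.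
PROOF. As `UU_bd` of `FD/K1.lean` (which is stated for `Ene P δ`; copy its proof): `ev_UU`, `pwr_norm`, and
`∏ (G₁ G(z) gau(X i)) = G₁^r G(z)^r ∏ gau ≤ G₁^r A^(r-1) G(z) ∏ gau` for `r ≥ 1`. Then `Bg_zero`, `Bg_shift`. -/
theorem UU_bg (K : QT.Car Y V) (c C A M C₁ G₁ : ℝ) (r : ℕ) (hr : 1 ≤ r) : ∃ B : ℝ, 0 ≤ B ∧
    ∀ (U : Set (Ec n)) (δ : Ec n → ℝ) (h : Ec n → Ec n → Fin n → ℂ) (G : Ec n → ℝ)
      (Q R : Ec n → Ec n → Fin n → ℂ) (F : Ec n → Y →L[ℂ] ℂ) (σ : Ec n → Y),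
      KG U δ h G Q R F σ c C A M C₁ G₁ → ∀ s : ℝ, 0 ≤ s →
      Bg U (fun z => δ z - s) h (Gs G δ s) B (UU K σ r) := by
  by_cases hC₁ : 0 ≤ C₁
  swap
  · exact ⟨0, le_rfl, fun U δ h G Q R F σ hD => absurd hD.C0 hC₁⟩
  by_cases hG₁ : 0 ≤ G₁
  swap
  · exact ⟨0, le_rfl, fun U δ h G Q R F σ hD => absurd hD.G0 hG₁⟩
  obtain ⟨B, hB, hU⟩ := K4a_bd (n := n) K A C₁ G₁ r hr hC₁ hG₁
  refine ⟨B, hB, ?_⟩
  intro U δ h G Q R F σ hD s hs
  have hG0 : ∀ z ∈ Om U δ, 0 ≤ G z := K4a_G0 hD.gd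
  have h1 : Bg U δ h G B (UU K σ r) :=
    hU U δ h G σ (fun z hz => ⟨hG0 z hz, hD.gd.up z hz⟩) hD.σ_le hD.dσ
  exact Bg_shift hG0 le_rfl hs hB hr (Bg_zero h1)

/-- The start of the descent.
PROOF. As `desc_start` of `FD/K4.lean`: `Ψ = UU K σ n`, `W = Om U δ`, `UU_bg`; `dbf (UU K σ n) = K.c F (UU K σ (n + 1)) = 0`. -/
theorem descG_start (hn : 2 ≤ n) (K : QT.Car Y V) (c C A M C₁ G₁ : ℝ) :
    ∃ B : ℝ, 0 ≤ B ∧ ∀ (U : Set (Ec n)) (δ : Ec n → ℝ) (h : Ec n → Ec n → Fin n → ℂ)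
      (G : Ec n → ℝ) (Q R : Ec n → Ec n → Fin n → ℂ) (F : Ec n → Y →L[ℂ] ℂ) (σ : Ec n → Y),
      KG U δ h G Q R F σ c C A M C₁ G₁ →
      ∀ s : ℝ, 0 < s → s ≤ c / 2 → DescG K U δ h G F σ n s B := by
  obtain ⟨B, hB, hU⟩ := UU_bg (n := n) K c C A M C₁ G₁ n (by omega)
  refine ⟨B, hB, ?_⟩
  intro U δ h G Q R F σ hD s hs hsc e he
  have hopen : IsOpen (Om U δ) := Om_open hD.geo
  have hsub : Om U (fun z => δ z - s) ⊆ Om U δ := fun z hz => ⟨hz.1, by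
    have h1 : 0 < δ z - s := hz.2
    linarith⟩
  refine ⟨Om U δ, UU K σ n, hopen, ?_, Subset.rfl, UU_alt K σ n, ?_, ?_, ?_, ?_⟩
  · intro z hz
    refine ⟨hz.1, ?_⟩
    have h1 : 0 ≤ δ z - s := hz.2
    linarith
  · exact fun I => UU_c1 K hopen hD.σ_c2 n I
  · exact hU U δ h G Q R F σ hD s hs.le
  · exact fun z _ I => rfl
  · intro z hz I
    have hz' := hsub hz
    have h1 : dbf (UU K σ n) I z = K.c (F z) (UU K σ (n + 1) I z) :=
      koszul_eq K (hD.σ_c2.contDiffAt (hopen.mem_nhds hz')) (hD.one z hz') (hD.zero z hz') n I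
    rw [h1, UU_zero K σ (Nat.lt_succ_self n) I z, map_zero, norm_zero]
    exact he.le

end Pool.Agent.MPca0fc2.GW
end

section

/-! One step of the descent with a general density (compare `FD/K4.lean`). -/

set_option autoImplicit false

open Metric Set MeasureTheory Filter Topology

namespace Pool.Agent.MPca0fc2.GW

open Pool.Agent.MPca0fc2.FD

variable {n : ℕ} {Y V : Type*} [NormedAddCommGroup Y] [NormedSpace ℂ Y] [NormedAddCommGroup V]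
  [NormedSpace ℂ V] [FiniteDimensional ℂ Y] [FiniteDimensional ℂ V]


private theorem K4b_db_sub {G₁ G₂ : Ec n → V} {z : Ec n} (h1 : DifferentiableAt ℝ G₁ z)
    (h2 : DifferentiableAt ℝ G₂ z) (X : Ec n) :
    db (fun y => G₁ y - G₂ y) z X = db G₁ z X - db G₂ z X := by
  unfold db
  have h3 : fderiv ℝ (fun y => G₁ y - G₂ y) z = fderiv ℝ G₁ z - fderiv ℝ G₂ z :=
    fderiv_fun_sub h1 h2
  rw [h3]
  simp only [sub_apply, smul_sub, smul_add]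
  abel

private theorem K4b_dbf_sub {q : ℕ} {η₁ η₂ : Fm n q V} {z : Ec n}
    (h1 : ∀ I, DifferentiableAt ℝ (η₁ I) z) (h2 : ∀ I, DifferentiableAt ℝ (η₂ I) z)
    (J : Fin (q + 1) → Fin n) :
    dbf (fun I y => η₁ I y - η₂ I y) J z = dbf η₁ J z - dbf η₂ J z := by
  unfold dbf
  rw [← Finset.sum_sub_distrib]
  refine Finset.sum_congr rfl fun i _ => ?_
  rw [K4b_db_sub (h1 _) (h2 _), smul_sub]

private theorem K4b_db_cont {G : Ec n → V} {W : Set (Ec n)} (hW : IsOpen W)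
    (hG : ContDiffOn ℝ 1 G W) (X : Ec n) : ContinuousOn (fun z => db G z X) W := by
  have h1 : ContinuousOn (fderiv ℝ G) W := hG.continuousOn_fderiv_of_isOpen hW le_rfl
  unfold db
  refine ContinuousOn.const_smul ?_ _
  refine ContinuousOn.add (h1.clm_apply continuousOn_const) ?_
  exact ContinuousOn.const_smul (h1.clm_apply continuousOn_const) _

private theorem K4b_dbf_cont {q : ℕ} {η : Fm n q V} {W : Set (Ec n)} (hW : IsOpen W)
    (hη : ∀ I, ContDiffOn ℝ 1 (η I) W) (J : Fin (q + 1) → Fin n) :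
    ContinuousOn (dbf η J) W := by
  have h1 : dbf η J = fun z => ∑ i : Fin (q + 1),
      ((-1 : ℂ) ^ (i : ℕ)) • db (η (J ∘ i.succAbove)) z (ee (J i)) := rfl
  rw [h1]
  refine continuousOn_finsetSum _ fun i _ => ?_
  exact ContinuousOn.const_smul (K4b_db_cont hW (hη _) _) _

private theorem K4b_c_c1 (K : QT.Car Y V) {F : Ec n → Y →L[ℂ] ℂ} {W : Set (Ec n)} (hW : IsOpen W)
    (hF : DifferentiableOn ℂ F W) {g : Ec n → V} (hg : ContDiffOn ℝ 1 g W) :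
    ContDiffOn ℝ 1 (fun z => K.c (F z) (g z)) W := by
  have h1 : ContDiffOn ℝ 1 F W := (hol_c2 hW hF).of_le (by norm_num)
  have h2 : ContDiffOn ℝ 1 (fun z => (K.c.restrictScalars ℝ) (F z)) W :=
    (K.c.restrictScalars ℝ).contDiff.comp_contDiffOn h1
  have h3 : ContDiffOn ℝ 1 (fun z => (ContinuousLinearMap.restrictScalarsL ℂ V V ℝ ℝ)
      ((K.c.restrictScalars ℝ) (F z))) W :=
    (ContinuousLinearMap.restrictScalarsL ℂ V V ℝ ℝ).contDiff.comp_contDiffOn h2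
  exact h3.clm_apply hg

private theorem K4b_c_norm (K : QT.Car Y V) {F : Y →L[ℂ] ℂ} {M : ℝ} (hF : ‖F‖ ≤ M) (x : V) :
    ‖K.c F x‖ ≤ ‖K.c‖ * M * ‖x‖ := by
  calc ‖K.c F x‖ ≤ ‖K.c F‖ * ‖x‖ := ContinuousLinearMap.le_opNorm _ _
    _ ≤ (‖K.c‖ * ‖F‖) * ‖x‖ := by
        gcongr
        exact ContinuousLinearMap.le_opNorm _ _
    _ ≤ ‖K.c‖ * M * ‖x‖ := by gcongr

private theorem K4b_G0 {U : Set (Ec n)} {δ : Ec n → ℝ} {h : Ec n → Ec n → Fin n → ℂ}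
    {G : Ec n → ℝ} {A : ℝ} (hG : GD U δ h G A) : ∀ w ∈ Om U δ, 0 ≤ G w := by
  intro w hw
  have h1 := hG.lo w hw
  have hA : 0 < A := by linarith [hG.A1]
  have h2 : 0 < δ w := hw.2
  have h3 : 0 ≤ (δ w) ^ (1 / 4 : ℝ) := by positivity
  by_contra h4
  rw [not_le] at h4
  nlinarith [mul_pos_of_neg_of_neg h4 (neg_lt_zero.2 hA)]

/-- One step of the descent.
PROOF. As `desc_step` of `FD/K4.lean` (copy its proof; the private lemmas there have to be copied too), with `Geo_shift`,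
`GD_shift` (the constant `8 A`) in place of `PG_shift`, `Sop_bg` (constants `c / 2`, `C`, `8 A`) in place of `Sop_bd`, `UU_bg`,
`Bg_op`, `Bg_shift`, `Bg_sub`. -/
theorem descG_step (hn : 2 ≤ n) (K : QT.Car Y V) (c C A M C₁ G₁ : ℝ) (m : ℕ) (hm : 1 ≤ m)
    (hmn : m + 1 ≤ n) (B : ℝ) (hB : 0 ≤ B) :
    ∃ B' : ℝ, 0 ≤ B' ∧ ∀ (U : Set (Ec n)) (δ : Ec n → ℝ) (h : Ec n → Ec n → Fin n → ℂ)
      (G : Ec n → ℝ) (Q R : Ec n → Ec n → Fin n → ℂ) (F : Ec n → Y →L[ℂ] ℂ) (σ : Ec n → Y),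
      KG U δ h G Q R F σ c C A M C₁ G₁ →
      ∀ s ς : ℝ, 0 < s → 0 < ς → s + ς ≤ c / 2 → DescG K U δ h G F σ (m + 1) s B →
        DescG K U δ h G F σ m (s + ς) B' := by
  obtain ⟨BU, hBU, hU⟩ := UU_bg (n := n) K c C A M C₁ G₁ m hm
  obtain ⟨CS, hCS, hS⟩ := Sop_bg (V := V) hn (c / 2) C (8 * A) m hm (by omega)
  by_cases hM : 0 ≤ M
  swap
  · exact ⟨0, le_rfl, fun U δ h G Q R F σ hD => absurd hD.M0 hM⟩
  set k : ℝ := ‖K.c‖ * M with hk
  have hk0 : 0 ≤ k := mul_nonneg (ContinuousLinearMap.opNorm_nonneg _) hM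
  refine ⟨BU + k * (CS * B), by positivity, ?_⟩
  intro U δ h G Q R F σ hD s ς hs hς hsς hDesc e' he'
  have hc := hD.geo.c0
  -- the smaller domain
  set D : Ec n → ℝ := fun z => δ z - s with hDdef
  have hgD : Geo U D h (c / 2) C := Geo_shift hD.geo hs.le (by linarith)
  have hPD : GD U D h (Gs G δ s) (8 * A) := GD_shift hD.geo hD.gd hs.le (by linarith)
  have hopD : IsOpen (Om U D) := Om_open hgD
  have hop : IsOpen (Om U δ) := Om_open hD.geo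
  have hsub : Om U D ⊆ Om U δ := fun z hz => ⟨hz.1, by
    have h1 : 0 < δ z - s := hz.2
    linarith⟩
  have hsub2 : Om U (fun z => δ z - (s + ς)) ⊆ Om U D := fun z hz => ⟨hz.1, by
    have h1 : 0 < δ z - (s + ς) := hz.2
    show 0 < δ z - s
    linarith⟩
  obtain ⟨Cs, hCs, hSs⟩ := Sop_sup (V := V) hn (c / 2) C (m + 1) hmn ς hς
  have he1 : 0 < e' / (2 * k * Cs + 1) := by positivity
  obtain ⟨W, Ψ, hW, hKW, hWs, hAlt, hC1, hBd, hceq, hdbf⟩ := hDesc _ he1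
  have hcont : ∀ I, ContinuousOn (Ψ I) W := fun I => (hC1 I).continuousOn
  have he2 : 0 < e' / (2 * k + 1) := by positivity
  obtain ⟨ε, hε, hε1, hR'⟩ := Rop_lim (V := V) hgD hKW hcont hAlt hς he2
  have hR1 := hR' ε hε le_rfl
  have hN1 : ∀ I, ContDiffOn ℝ 1 (Sop U D h ε Ψ I) (Om U D) := fun I =>
    Sop_c1 hgD hε hKW hcont I
  have hN2 : ∀ I, ContDiffOn ℝ 1 (fun z => K.c (F z) (Sop U D h ε Ψ I z)) (Om U D) := fun I =>
    K4b_c_c1 K hopD (hD.F_hol.mono hsub) (hN1 I)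
  have hU1 : ∀ I, ContDiffOn ℝ 1 (UU K σ m I) (Om U D) := fun I =>
    (UU_c1 K hop hD.σ_c2 m I).mono hsub
  refine ⟨Om U D, fun I z => UU K σ m I z - K.c (F z) (Sop U D h ε Ψ I z), hopD, ?_, hsub, ?_, ?_,
    ?_, ?_, ?_⟩
  · have h1 := Om_shift (U := U) (δ := δ) (s := s) (s' := s + ς) (by linarith)
    exact h1
  · intro τ I z
    show UU K σ m (I ∘ τ) z - K.c (F z) (Sop U D h ε Ψ (I ∘ τ) z) = _ • (_ - _)
    rw [UU_alt K σ m τ I z, Sop_alt U D h ε Ψ τ I z, map_smul, smul_sub]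
  · exact fun I => (hU1 I).sub (hN2 I)
  · have h1 : Bg U (fun z => δ z - (s + ς)) h (Gs G δ (s + ς)) BU (UU K σ m) :=
      hU U δ h G Q R F σ hD (s + ς) (by linarith)
    have h2 : Bg U D h (Gs G δ s) (CS * B) (Sop U D h ε Ψ) :=
      hS U D h (Gs G δ s) hgD hPD ε hε hε1 W Ψ B hB hKW hcont hBd
    have h3 : Bg U D h (Gs G δ s) (k * (CS * B)) (fun I z => K.c (F z) (Sop U D h ε Ψ I z)) := by
      refine Bg_op (L := fun z => K.c (F z)) hk0 h2 ?_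
      intro z hz
      calc ‖K.c (F z)‖ ≤ ‖K.c‖ * ‖F z‖ := ContinuousLinearMap.le_opNorm _ _
        _ ≤ ‖K.c‖ * M := by
            gcongr
            exact hD.F_le z (hsub hz)
    have h4 : Bg U (fun z => δ z - (s + ς)) h (Gs G δ (s + ς)) (k * (CS * B))
        (fun I z => K.c (F z) (Sop U D h ε Ψ I z)) :=
      Bg_shift (s := s) (K4b_G0 hD.gd) hs.le (by linarith) (by positivity) hm h3
    exact Bg_sub h1 h4
  · intro z _ I
    show K.c (F z) (UU K σ m I z - K.c (F z) (Sop U D h ε Ψ I z)) = _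
    rw [map_sub, cc_zero, sub_zero]
  · intro z hz J
    have hzD : z ∈ Om U D := hsub2 hz
    have hzδ : z ∈ Om U δ := hsub hzD
    have hςz : ς ≤ D z := by
      have h1 : 0 < δ z - (s + ς) := hz.2
      show ς ≤ δ z - s
      linarith
    have hda1 : ∀ I, DifferentiableAt ℝ (UU K σ m I) z := fun I =>
      ((hU1 I).differentiableOn (by norm_num)).differentiableAt (hopD.mem_nhds hzD)
    have hda2 : ∀ I, DifferentiableAt ℝ (fun z => K.c (F z) (Sop U D h ε Ψ I z)) z := fun I =>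
      ((hN2 I).differentiableOn (by norm_num)).differentiableAt (hopD.mem_nhds hzD)
    have hda3 : ∀ I, DifferentiableAt ℝ (Sop U D h ε Ψ I) z := fun I =>
      ((hN1 I).differentiableOn (by norm_num)).differentiableAt (hopD.mem_nhds hzD)
    have hFz : DifferentiableAt ℂ F z :=
      hD.F_hol.differentiableAt (hop.mem_nhds hzδ)
    have e1 : dbf (fun I z => UU K σ m I z - K.c (F z) (Sop U D h ε Ψ I z)) J z =
        dbf (UU K σ m) J z - dbf (fun I z => K.c (F z) (Sop U D h ε Ψ I z)) J z :=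
      K4b_dbf_sub hda1 hda2 J
    have e2 : dbf (UU K σ m) J z = K.c (F z) (UU K σ (m + 1) J z) :=
      koszul_eq K (hD.σ_c2.contDiffAt (hop.mem_nhds hzδ)) (hD.one z hzδ) (hD.zero z hzδ) m J
    have e3 : dbf (fun I z => K.c (F z) (Sop U D h ε Ψ I z)) J z =
        K.c (F z) (dbf (Sop U D h ε Ψ) J z) := dbf_c K hFz hda3 J
    have e4 : Rop U D h ε Ψ J z = dbf (Sop U D h ε Ψ) J z + Sop U D h ε (dbf Ψ) J z :=
      koppelman hgD hε hW hKW hC1 J hzD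
    have e5 : K.c (F z) (Ψ J z) = K.c (F z) (UU K σ (m + 1) J z) := hceq z hzD J
    have e6 : dbf (Sop U D h ε Ψ) J z = Rop U D h ε Ψ J z - Sop U D h ε (dbf Ψ) J z := by
      rw [e4]
      abel
    have e7 : dbf (fun I z => UU K σ m I z - K.c (F z) (Sop U D h ε Ψ I z)) J z =
        K.c (F z) (Ψ J z - Rop U D h ε Ψ J z) + K.c (F z) (Sop U D h ε (dbf Ψ) J z) := by
      rw [e1, e2, e3, e6, ← e5, map_sub, map_sub]
      abel
    rw [e7]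
    have hFM : ‖F z‖ ≤ M := hD.F_le z hzδ
    have b1 : ‖K.c (F z) (Ψ J z - Rop U D h ε Ψ J z)‖ ≤ e' / 2 := by
      calc ‖K.c (F z) (Ψ J z - Rop U D h ε Ψ J z)‖
          ≤ k * ‖Ψ J z - Rop U D h ε Ψ J z‖ := K4b_c_norm K hFM _
        _ ≤ k * (e' / (2 * k + 1)) := by
            gcongr
            rw [norm_sub_rev]
            exact hR1 J z hzD hςz
        _ ≤ e' / 2 := by
            rw [mul_div_assoc', div_le_div_iff₀ (by positivity) (by norm_num)]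
            nlinarith
    have b2 : ‖K.c (F z) (Sop U D h ε (dbf Ψ) J z)‖ ≤ e' / 2 := by
      calc ‖K.c (F z) (Sop U D h ε (dbf Ψ) J z)‖
          ≤ k * ‖Sop U D h ε (dbf Ψ) J z‖ := K4b_c_norm K hFM _
        _ ≤ k * (Cs * (e' / (2 * k * Cs + 1))) := by
            gcongr
            exact hSs U D h hgD ε hε hε1 W (dbf Ψ) _ he1.le hKW
              (fun I => K4b_dbf_cont hW hC1 I) (fun I ζ hζ => hdbf ζ hζ I) J z hzD hςz
        _ ≤ e' / 2 := by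
            rw [← mul_assoc, mul_div_assoc', div_le_div_iff₀ (by positivity) (by norm_num)]
            nlinarith [mul_nonneg hk0 hCs.le]
    calc ‖K.c (F z) (Ψ J z - Rop U D h ε Ψ J z) + K.c (F z) (Sop U D h ε (dbf Ψ) J z)‖
        ≤ ‖K.c (F z) (Ψ J z - Rop U D h ε Ψ J z)‖ +
          ‖K.c (F z) (Sop U D h ε (dbf Ψ) J z)‖ := norm_add_le _ _
      _ ≤ e' / 2 + e' / 2 := add_le_add b1 b2
      _ = e' := by ring

/-- PROOF. As `desc_one` of `FD/K4.lean`: induction with `descG_start` and `descG_step`. -/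
theorem descG_one (hn : 2 ≤ n) (K : QT.Car Y V) (c C A M C₁ G₁ : ℝ) :
    ∃ B : ℝ, 0 ≤ B ∧ ∀ (U : Set (Ec n)) (δ : Ec n → ℝ) (h : Ec n → Ec n → Fin n → ℂ)
      (G : Ec n → ℝ) (Q R : Ec n → Ec n → Fin n → ℂ) (F : Ec n → Y →L[ℂ] ℂ) (σ : Ec n → Y),
      KG U δ h G Q R F σ c C A M C₁ G₁ →
      ∀ ς : ℝ, 0 < ς → n * ς ≤ c / 2 → DescG K U δ h G F σ 1 (n * ς) B := by
  have key : ∀ k m : ℕ, m + k = n → 1 ≤ m → ∃ B : ℝ, 0 ≤ B ∧ ∀ (U : Set (Ec n)) (δ : Ec n → ℝ)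
      (h : Ec n → Ec n → Fin n → ℂ) (G : Ec n → ℝ) (Q R : Ec n → Ec n → Fin n → ℂ)
      (F : Ec n → Y →L[ℂ] ℂ) (σ : Ec n → Y),
      KG U δ h G Q R F σ c C A M C₁ G₁ →
      ∀ ς : ℝ, 0 < ς → ((k : ℝ) + 1) * ς ≤ c / 2 →
        DescG K U δ h G F σ m (((k : ℝ) + 1) * ς) B := by
    intro k
    induction k with
    | zero =>
      intro m hmk _
      obtain ⟨B, hB, hS⟩ := descG_start hn K c C A M C₁ G₁
      have hmn : m = n := by omega
      subst hmn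
      refine ⟨B, hB, ?_⟩
      intro U δ h G Q R F σ hD ς hς hςc
      have h1 : (((0 : ℕ) : ℝ) + 1) * ς = ς := by
        push_cast
        ring
      rw [h1] at hςc ⊢
      exact hS U δ h G Q R F σ hD ς hς hςc
    | succ k ih =>
      intro m hmk hm
      obtain ⟨B, hB, hI⟩ := ih (m + 1) (by omega) (by omega)
      obtain ⟨B', hB', hI'⟩ := descG_step hn K c C A M C₁ G₁ m hm (by omega) B hB
      refine ⟨B', hB', ?_⟩
      intro U δ h G Q R F σ hD ς hς hςc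
      have h1 : (((k + 1 : ℕ) : ℝ) + 1) * ς = ((k : ℝ) + 1) * ς + ς := by
        push_cast
        ring
      rw [h1] at hςc ⊢
      refine hI' U δ h G Q R F σ hD _ ς (by positivity) hς hςc ?_
      exact hI U δ h G Q R F σ hD ς hς (by linarith)
  obtain ⟨k, hk⟩ : ∃ k, n = k + 1 := ⟨n - 1, by omega⟩
  obtain ⟨B, hB, hI⟩ := key k 1 (by omega) le_rfl
  refine ⟨B, hB, ?_⟩
  intro U δ h G Q R F σ hD ς hς hςc
  have h1 : (n : ℝ) = (k : ℝ) + 1 := by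
    rw [hk]
    push_cast
    ring
  rw [h1] at hςc ⊢
  exact hI U δ h G Q R F σ hD ς hς hςc

end Pool.Agent.MPca0fc2.GW
end
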