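import Pool.Agent.Lib.MP_ca0fc2_an.Mg.G003
import Pool.Agent.Lib.MP_ca0fc2_an.Mg.G027

section

/-! Sequences for slowly oscillating functions. -/

set_option autoImplicit false

open Metric Set MeasureTheory Filter Topology

namespace Pool.Agent.MPca0fc2.GW

private theorem U0_geo (i m : ℕ) : ∑ k ∈ Finset.range m, (1 / 2 : ℝ) ^ ((k - i) + (i - k)) ≤ 3 := by
  have h : ∀ m : ℕ, (m ≤ i → ∑ k ∈ Finset.range m, (1 / 2 : ℝ) ^ ((k - i) + (i - k)) ≤
      (1 / 2) ^ (i - m)) ∧ (i ≤ m → ∑ k ∈ Finset.range m, (1 / 2 : ℝ) ^ ((k - i) + (i - k)) ≤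
      3 - 2 * (1 / 2) ^ (m - i)) := by
    intro m
    induction m with
    | zero =>
      refine ⟨fun _ => by simp, fun h => ?_⟩
      have : i = 0 := by omega
      subst this
      norm_num
    | succ m ih =>
      rw [Finset.sum_range_succ]
      refine ⟨fun h => ?_, fun h => ?_⟩
      · have h1 := ih.1 (by omega)
        have h2 : (m - i) + (i - m) = (i - (m + 1)) + 1 := by omega
        have h3 : i - m = (i - (m + 1)) + 1 := by omega
        rw [h2, pow_succ]
        rw [h3, pow_succ] at h1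
        linarith
      · rcases Nat.lt_or_ge m i with hlt | hge
        · have him : i = m + 1 := by omega
          have h1 := ih.1 (by omega)
          have h2 : (m - i) + (i - m) = 1 := by omega
          have h3 : i - m = 1 := by omega
          have h4 : m + 1 - i = 0 := by omega
          rw [h2, h4]
          rw [h3] at h1
          norm_num at h1 ⊢
          linarith
        · have h1 := ih.2 hge
          have h2 : (m - i) + (i - m) = m - i := by omega
          have h3 : m + 1 - i = (m - i) + 1 := by omega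
          rw [h2, h3, pow_succ]
          linarith
  rcases le_total m i with hm | hm
  · exact ((h m).1 hm).trans ((pow_le_one₀ (by norm_num) (by norm_num)).trans (by norm_num))
  · have := (h m).2 hm
    have h2 : (0 : ℝ) ≤ (1 / 2) ^ (m - i) := by positivity
    linarith

private theorem U0_smooth (a : ℕ → ℝ) (ha : ∀ k, 0 ≤ a k) (A : ℝ)
    (hA : ∀ m, ∑ k ∈ Finset.range m, a k ≤ A) : ∃ s : ℕ → ℝ, SL s (3 * A) ∧ ∀ k, a k ≤ s k := by
  have hsum : Summable a := summable_of_sum_range_le ha hA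
  have hts : ∑' i, a i ≤ A := Real.tsum_le_of_sum_range_le ha hA
  have hsk : ∀ k, Summable fun i => (1 / 2 : ℝ) ^ ((k - i) + (i - k)) * a i := by
    intro k
    refine Summable.of_nonneg_of_le (fun i => mul_nonneg (by positivity) (ha i)) (fun i => ?_) hsum
    have h1 : (1 / 2 : ℝ) ^ ((k - i) + (i - k)) ≤ 1 := pow_le_one₀ (by norm_num) (by norm_num)
    have := mul_le_mul_of_nonneg_right h1 (ha i)
    linarith
  refine ⟨fun k => ∑' i, (1 / 2 : ℝ) ^ ((k - i) + (i - k)) * a i, ⟨?_, ?_, ?_, ?_⟩, ?_⟩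
  · intro k
    exact tsum_nonneg fun i => mul_nonneg (by positivity) (ha i)
  · intro m
    rw [← Summable.tsum_finsetSum (fun k _ => hsk k)]
    have h1 : ∀ i, ∑ k ∈ Finset.range m, (1 / 2 : ℝ) ^ ((k - i) + (i - k)) * a i ≤ 3 * a i := by
      intro i
      rw [← Finset.sum_mul]
      exact mul_le_mul_of_nonneg_right (U0_geo i m) (ha i)
    calc ∑' i, ∑ k ∈ Finset.range m, (1 / 2 : ℝ) ^ ((k - i) + (i - k)) * a i
        ≤ ∑' i, 3 * a i := Summable.tsum_le_tsum h1 (summable_sum fun k _ => hsk k)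
          (hsum.mul_left 3)
      _ = 3 * ∑' i, a i := tsum_mul_left
      _ ≤ 3 * A := by linarith
  · intro k
    rw [← tsum_mul_left]
    refine Summable.tsum_le_tsum (fun i => ?_) (hsk _) ((hsk k).mul_left 2)
    rw [← mul_assoc]
    refine mul_le_mul_of_nonneg_right ?_ (ha i)
    rcases Nat.lt_or_ge k i with h | h
    · have h1 : (k - i) + (i - k) = (k + 1 - i + (i - (k + 1))) + 1 := by omega
      rw [h1, pow_succ]
      linarith
    · have h1 : k + 1 - i + (i - (k + 1)) = ((k - i) + (i - k)) + 1 := by omega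
      rw [h1, pow_succ]
      have : (0 : ℝ) ≤ (1 / 2) ^ ((k - i) + (i - k)) := by positivity
      linarith
  · intro k
    rw [← tsum_mul_left]
    refine Summable.tsum_le_tsum (fun i => ?_) (hsk _) ((hsk (k + 1)).mul_left 2)
    rw [← mul_assoc]
    refine mul_le_mul_of_nonneg_right ?_ (ha i)
    rcases Nat.lt_or_ge k i with h | h
    · have h1 : (k - i) + (i - k) = (k + 1 - i + (i - (k + 1))) + 1 := by omega
      rw [h1, pow_succ]
      have : (0 : ℝ) ≤ (1 / 2) ^ (k + 1 - i + (i - (k + 1))) := by positivity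
      linarith
    · have h1 : k + 1 - i + (i - (k + 1)) = ((k - i) + (i - k)) + 1 := by omega
      rw [h1, pow_succ]
      linarith
  · intro k
    have h1 := (hsk k).le_tsum k (fun j _ => mul_nonneg (by positivity) (ha j))
    have h2 : (k - k) + (k - k) = 0 := by omega
    rw [h2, pow_zero, one_mul] at h1
    exact h1

private theorem U0_conv (r : ℝ) (hr0 : 0 ≤ r) (hr1 : r < 1) (e : ℕ → ℝ) (he : ∀ i, 0 ≤ e i)
    (E : ℝ) (hE : ∀ m, ∑ i ∈ Finset.range m, e i ≤ E) (m : ℕ) :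
    ∑ k ∈ Finset.range m, ∑ i ∈ Finset.range k, r ^ (k - i) * e i ≤ E * (1 - r)⁻¹ := by
  have h1 : ∑ k ∈ Finset.range m, ∑ i ∈ Finset.range k, r ^ (k - i) * e i =
      ∑ i ∈ Finset.range m, ∑ k ∈ Finset.Ico (i + 1) m, r ^ (k - i) * e i := by
    apply Finset.sum_comm'
    intro x y
    simp only [Finset.mem_range, Finset.mem_Ico]
    omega
  rw [h1]
  have h2 : ∀ i, ∑ k ∈ Finset.Ico (i + 1) m, r ^ (k - i) * e i ≤ (1 - r)⁻¹ * e i := by
    intro i
    rw [← Finset.sum_mul]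
    refine mul_le_mul_of_nonneg_right ?_ (he i)
    rw [Finset.sum_Ico_eq_sum_range]
    calc ∑ k ∈ Finset.range (m - (i + 1)), r ^ (i + 1 + k - i)
        ≤ ∑ k ∈ Finset.range (m - (i + 1)), r ^ k := by
          refine Finset.sum_le_sum fun k _ => ?_
          exact pow_le_pow_of_le_one hr0 hr1.le (by omega)
      _ ≤ (1 - r)⁻¹ := by
          have := Summable.sum_le_tsum (Finset.range (m - (i + 1)))
            (fun k _ => pow_nonneg hr0 k) (summable_geometric_of_lt_one hr0 hr1)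
          rwa [tsum_geometric_of_lt_one hr0 hr1] at this
  calc ∑ i ∈ Finset.range m, ∑ k ∈ Finset.Ico (i + 1) m, r ^ (k - i) * e i
      ≤ ∑ i ∈ Finset.range m, (1 - r)⁻¹ * e i := Finset.sum_le_sum fun i _ => h2 i
    _ = (1 - r)⁻¹ * ∑ i ∈ Finset.range m, e i := by rw [Finset.mul_sum]
    _ ≤ (1 - r)⁻¹ * E := mul_le_mul_of_nonneg_left (hE m) (inv_nonneg.2 (by linarith))
    _ = _ := mul_comm _ _

/-- The lengths of the windows.
PROOF. `m k` = the largest `m ≤ k` with `∑_{k - m ≤ i < k} ω i ≤ ρ` (`Nat.findGreatest`; `m = 0` is allowed). `m (k+1) ≤ m k + 1`: the window of length `m (k+1) - 1` which ends at `k` is contained in the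
window of length `m (k+1)` which ends at `k + 1`; induction gives `m k ≤ m l + (k - l)`.
Let `a k = (1/2)^(m k / 256)` (real powers). CLAIM: `∑ a k < ∞`. If `m k = k`: `a k = (1/2)^(k/256)`. If `m k < k`: the window of length `m k + 1` has the sum `> ρ`, so it contains `i`
(`k - (m k + 1) ≤ i < k`) with `ω i ≥ ρ / (m k + 1)`, i.e. `m k + 1 ≥ ρ / ω i`; also `k - i ≤ m k + 1`. So `a k ≤ 2 (1/2)^((m k + 1)/512) (1/2)^((m k + 1)/512) ≤
2 (1/2)^((k - i)/512) exp(-b / ω i)`, `b = ρ log 2 / 512`. Hence `a k ≤ (1/2)^(k/256) + 2 ∑_{i < k} (1/2)^((k-i)/512) exp(-b / ω i)`, and the sum over `k` is finite.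
`s k = ∑'_i (1/2)^|k - i| a i` (`|k - i|` = `(k - i) + (i - k)` with natural subtraction): `s (k+1) ≤ 2 s k`, `s k ≤ 2 s (k+1)`, `a k ≤ s k`, and the sum over `k` is at most `3 ∑ a i`. -/
theorem slow_seq (ω : ℕ → ℝ) (hω : ∀ i, 0 < ω i)
    (hs : ∀ b : ℝ, 0 < b → Summable (fun i => Real.exp (-(b / ω i)))) (ρ : ℝ) (hρ : 0 < ρ) :
    ∃ (m : ℕ → ℕ) (s : ℕ → ℝ) (A : ℝ), (∀ k, m k ≤ k) ∧
      (∀ k, ∑ i ∈ Finset.Ico (k - m k) k, ω i ≤ ρ) ∧ (∀ l k, l ≤ k → m k ≤ m l + (k - l)) ∧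
      SL s A ∧ ∀ k, (1 / 2 : ℝ) ^ ((m k : ℝ) / 256) ≤ s k := by
  classical
  obtain ⟨m, hm⟩ : ∃ m : ℕ → ℕ, m = fun k =>
      Nat.findGreatest (fun m => ∑ i ∈ Finset.Ico (k - m) k, ω i ≤ ρ) k := ⟨_, rfl⟩
  have hmk : ∀ k, m k ≤ k := by
    intro k
    rw [hm]
    exact Nat.findGreatest_le k
  have hP : ∀ k, ∑ i ∈ Finset.Ico (k - m k) k, ω i ≤ ρ := by
    intro k
    rw [hm]
    apply Nat.findGreatest_spec (P := fun m => ∑ i ∈ Finset.Ico (k - m) k, ω i ≤ ρ) (m := 0)
      (Nat.zero_le k)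
    simp [hρ.le]
  have hgr : ∀ k j, m k < j → j ≤ k → ρ < ∑ i ∈ Finset.Ico (k - j) k, ω i := by
    intro k j h1 h2
    rw [hm] at h1
    exact not_le.1 (Nat.findGreatest_is_greatest h1 h2)
  have hle : ∀ k j, j ≤ k → ∑ i ∈ Finset.Ico (k - j) k, ω i ≤ ρ → j ≤ m k := by
    intro k j h1 h2
    rw [hm]
    exact Nat.le_findGreatest h1 h2
  have hstep : ∀ k, m (k + 1) ≤ m k + 1 := by
    intro k
    rcases Nat.eq_zero_or_pos (m (k + 1)) with h | h
    · omega
    · have h1 : m (k + 1) - 1 ≤ m k := by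
        apply hle
        · have := hmk (k + 1)
          omega
        · refine le_trans ?_ (hP (k + 1))
          apply Finset.sum_le_sum_of_subset_of_nonneg
          · intro x hx
            rw [Finset.mem_Ico] at hx ⊢
            omega
          · intro i _ _
            exact (hω i).le
      omega
  have hml : ∀ l k, l ≤ k → m k ≤ m l + (k - l) := by
    intro l k hlk
    induction k, hlk using Nat.le_induction with
    | base => omega
    | succ k hlk ih =>
      have := hstep k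
      omega
  -- the sequence
  obtain ⟨r, hr⟩ : ∃ r : ℝ, r = (1 / 2 : ℝ) ^ (1 / 512 : ℝ) := ⟨_, rfl⟩
  have hr0 : 0 < r := by rw [hr]; positivity
  have hr1 : r < 1 := by
    rw [hr]
    exact Real.rpow_lt_one (by norm_num) (by norm_num) (by norm_num)
  obtain ⟨q, hq⟩ : ∃ q : ℝ, q = (1 / 2 : ℝ) ^ (1 / 256 : ℝ) := ⟨_, rfl⟩
  have hq0 : 0 < q := by rw [hq]; positivity
  have hq1 : q < 1 := by
    rw [hq]
    exact Real.rpow_lt_one (by norm_num) (by norm_num) (by norm_num)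
  obtain ⟨b, hb⟩ : ∃ b : ℝ, b = ρ * Real.log 2 / 512 := ⟨_, rfl⟩
  have hb0 : 0 < b := by
    rw [hb]
    have := Real.log_pos one_lt_two
    positivity
  have hsE := hs b hb0
  obtain ⟨E, hE⟩ : ∃ E : ℝ, E = ∑' i, Real.exp (-(b / ω i)) := ⟨_, rfl⟩
  have hEm : ∀ n, ∑ i ∈ Finset.range n, Real.exp (-(b / ω i)) ≤ E := by
    intro n
    rw [hE]
    exact hsE.sum_le_tsum _ fun i _ => (Real.exp_pos _).le
  obtain ⟨a, ha⟩ : ∃ a : ℕ → ℝ, a = fun k => (1 / 2 : ℝ) ^ ((m k : ℝ) / 256) := ⟨_, rfl⟩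
  have ha0 : ∀ k, 0 ≤ a k := by
    intro k
    rw [ha]
    positivity
  have hak : ∀ k, a k ≤ q ^ k + 2 * ∑ i ∈ Finset.range k, r ^ (k - i) * Real.exp (-(b / ω i)) := by
    intro k
    have hSnn : 0 ≤ ∑ i ∈ Finset.range k, r ^ (k - i) * Real.exp (-(b / ω i)) :=
      Finset.sum_nonneg fun i _ => mul_nonneg (pow_nonneg hr0.le _) (Real.exp_pos _).le
    rcases (hmk k).eq_or_lt with h | h
    · have h1 : a k = q ^ k := by
        rw [ha, hq]
        simp only
        rw [h, ← Real.rpow_natCast, ← Real.rpow_mul (by norm_num)]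
        congr 1
        ring
      rw [h1]
      linarith
    · have h1 := hgr k (m k + 1) (Nat.lt_succ_self _) h
      have h2 : ∃ i ∈ Finset.Ico (k - (m k + 1)) k, ρ / ((m k : ℝ) + 1) ≤ ω i := by
        by_contra hcon
        push Not at hcon
        have h3 : ∑ i ∈ Finset.Ico (k - (m k + 1)) k, ω i ≤
            ∑ i ∈ Finset.Ico (k - (m k + 1)) k, ρ / ((m k : ℝ) + 1) :=
          Finset.sum_le_sum fun i hi => (hcon i hi).le
        rw [Finset.sum_const, Nat.card_Ico] at h3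
        have h4 : k - (k - (m k + 1)) = m k + 1 := by omega
        rw [h4, nsmul_eq_mul] at h3
        push_cast at h3
        have h5 : ((m k : ℝ) + 1) * (ρ / ((m k : ℝ) + 1)) = ρ := by
          field_simp
        linarith
      obtain ⟨i, hi, hωi⟩ := h2
      rw [Finset.mem_Ico] at hi
      have hmp : (0 : ℝ) < (m k : ℝ) + 1 := by positivity
      have h3 : ρ / ω i ≤ (m k : ℝ) + 1 := by
        rw [div_le_iff₀ hmp] at hωi
        rw [div_le_iff₀ (hω i)]
        linarith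
      have h4 : a k ≤ 2 * (r ^ (k - i) * Real.exp (-(b / ω i))) := by
        have e1 : a k = (1 / 2 : ℝ) ^ (-(1 / 256 : ℝ)) * ((1 / 2 : ℝ) ^ (((m k : ℝ) + 1) / 512) *
            (1 / 2 : ℝ) ^ (((m k : ℝ) + 1) / 512)) := by
          rw [ha, ← Real.rpow_add (by norm_num), ← Real.rpow_add (by norm_num)]
          show (1 / 2 : ℝ) ^ ((m k : ℝ) / 256) = _
          congr 1
          ring
        have e2 : (1 / 2 : ℝ) ^ (-(1 / 256 : ℝ)) ≤ 2 := by
          have : (1 / 2 : ℝ) ^ (-(1 / 256 : ℝ)) ≤ (1 / 2 : ℝ) ^ (-1 : ℝ) :=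
            Real.rpow_le_rpow_of_exponent_ge (by norm_num) (by norm_num) (by norm_num)
          rw [Real.rpow_neg_one] at this
          norm_num at this ⊢
          exact this
        have e3 : (1 / 2 : ℝ) ^ (((m k : ℝ) + 1) / 512) ≤ r ^ (k - i) := by
          rw [hr, ← Real.rpow_natCast, ← Real.rpow_mul (by norm_num)]
          apply Real.rpow_le_rpow_of_exponent_ge (by norm_num) (by norm_num)
          have : ((k - i : ℕ) : ℝ) ≤ (m k : ℝ) + 1 := by
            have : k - i ≤ m k + 1 := by omega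
            exact_mod_cast this
          linarith
        have e4 : (1 / 2 : ℝ) ^ (((m k : ℝ) + 1) / 512) ≤ Real.exp (-(b / ω i)) := by
          rw [Real.rpow_def_of_pos (by norm_num)]
          apply Real.exp_le_exp.2
          rw [one_div, Real.log_inv, hb]
          have hl := Real.log_pos one_lt_two
          have : ρ * Real.log 2 / 512 / ω i = (Real.log 2 / 512) * (ρ / ω i) := by
            field_simp
          rw [this]
          have h5 := mul_le_mul_of_nonneg_left h3 (show 0 ≤ Real.log 2 / 512 by positivity)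
          linarith
        rw [e1]
        have e5 : (1 / 2 : ℝ) ^ (((m k : ℝ) + 1) / 512) * (1 / 2 : ℝ) ^ (((m k : ℝ) + 1) / 512) ≤
            r ^ (k - i) * Real.exp (-(b / ω i)) :=
          mul_le_mul e3 e4 (by positivity) (pow_nonneg hr0.le _)
        exact mul_le_mul e2 e5 (by positivity) (by norm_num)
      have h5 : r ^ (k - i) * Real.exp (-(b / ω i)) ≤
          ∑ i ∈ Finset.range k, r ^ (k - i) * Real.exp (-(b / ω i)) :=
        Finset.single_le_sum (f := fun i => r ^ (k - i) * Real.exp (-(b / ω i)))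
          (fun i _ => mul_nonneg (pow_nonneg hr0.le _) (Real.exp_pos _).le)
          (Finset.mem_range.2 hi.2)
      have h6 : 0 ≤ q ^ k := pow_nonneg hq0.le k
      linarith
  have hsum : ∀ n, ∑ k ∈ Finset.range n, a k ≤ (1 - q)⁻¹ + 2 * (E * (1 - r)⁻¹) := by
    intro n
    have h1 := U0_conv r hr0.le hr1 (fun i => Real.exp (-(b / ω i))) (fun i => (Real.exp_pos _).le)
      E hEm n
    have h2 : ∑ k ∈ Finset.range n, q ^ k ≤ (1 - q)⁻¹ := by
      have := Summable.sum_le_tsum (Finset.range n)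
        (fun k _ => pow_nonneg hq0.le k) (summable_geometric_of_lt_one hq0.le hq1)
      rwa [tsum_geometric_of_lt_one hq0.le hq1] at this
    calc ∑ k ∈ Finset.range n, a k
        ≤ ∑ k ∈ Finset.range n,
          (q ^ k + 2 * ∑ i ∈ Finset.range k, r ^ (k - i) * Real.exp (-(b / ω i))) :=
          Finset.sum_le_sum fun k _ => hak k
      _ = ∑ k ∈ Finset.range n, q ^ k +
          2 * ∑ k ∈ Finset.range n, ∑ i ∈ Finset.range k, r ^ (k - i) * Real.exp (-(b / ω i)) := by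
          rw [Finset.sum_add_distrib, Finset.mul_sum]
      _ ≤ _ := by linarith
  obtain ⟨s, hs1, hs2⟩ := U0_smooth a ha0 _ hsum
  refine ⟨m, s, _, hmk, hP, hml, hs1, fun k => ?_⟩
  have := hs2 k
  rw [ha] at this
  exact this

/-- The trivial sequence `s = 0`. -/
theorem SL_zero {A : ℝ} (hA : 0 ≤ A) : SL (fun _ => (0 : ℝ)) A :=
  ⟨fun _ => le_rfl, fun m => by simpa using hA, fun _ => by norm_num, fun _ => by norm_num⟩

/-- Finite sums. -/
theorem SL_sum {d : ℕ} {s : Fin d → ℕ → ℝ} {A : Fin d → ℝ} (hs : ∀ i, SL (s i) (A i)) :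
    SL (fun k => ∑ i, s i k) (∑ i, A i) := by
  refine ⟨fun k => Finset.sum_nonneg fun i _ => (hs i).nn k, fun m => ?_, fun k => ?_,
    fun k => ?_⟩
  · rw [Finset.sum_comm]
    exact Finset.sum_le_sum fun i _ => (hs i).sum m
  · rw [Finset.mul_sum]
    exact Finset.sum_le_sum fun i _ => (hs i).up k
  · rw [Finset.mul_sum]
    exact Finset.sum_le_sum fun i _ => (hs i).dn k

theorem SL_mono {s : ℕ → ℝ} {A A' : ℝ} (hs : SL s A) (h : A ≤ A') : SL s A' :=
  ⟨hs.nn, fun m => (hs.sum m).trans h, hs.up, hs.dn⟩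

end Pool.Agent.MPca0fc2.GW
end

section

/-! The estimate of the pairing (Wolff). -/

set_option autoImplicit false

open Metric Set MeasureTheory Filter Topology

namespace Pool.Agent.MPca0fc2.RC

private theorem R5_fd {E : Type} [NormedAddCommGroup E] [NormedSpace ℝ E] {f : ℂ → E} {R : ℝ}
    (hf : ContDiffOn ℝ 2 f (ball 0 R)) (a : ℂ) :
    ContDiffOn ℝ 1 (fun w => fderiv ℝ f w a) (ball 0 R) :=
  (hf.fderiv_of_isOpen isOpen_ball (by norm_num)).clm_apply contDiffOn_const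

private theorem R5_lap {E : Type} [NormedAddCommGroup E] [NormedSpace ℝ E] {f : ℂ → E} {R : ℝ}
    (hf : ContDiffOn ℝ 2 f (ball 0 R)) : ContinuousOn (lap f) (ball 0 R) := by
  have h : ∀ a : ℂ, ContinuousOn (fun z => fderiv ℝ (fun w => fderiv ℝ f w a) z a) (ball 0 R) :=
    fun a => ((R5_fd hf a).continuousOn_fderiv_of_isOpen isOpen_ball le_rfl).clm_apply
      continuousOn_const
  exact (h 1).add (h Complex.I)

private theorem R5_db {b : ℂ → ℂ} {R : ℝ} (hb : ContDiffOn ℝ 2 b (ball 0 R)) {z : ℂ}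
    (hz : z ∈ ball (0 : ℂ) R) : DifferentiableAt ℝ (db b) z := by
  have h : ∀ a : ℂ, DifferentiableAt ℝ (fun w => fderiv ℝ b w a) z := fun a =>
    ((R5_fd hb a).differentiableOn one_ne_zero).differentiableAt (isOpen_ball.mem_nhds hz)
  have h2 : DifferentiableAt ℝ (fun w => fderiv ℝ b w 1 + Complex.I * fderiv ℝ b w Complex.I) z :=
    (h 1).add ((h Complex.I).const_mul Complex.I)
  have h3 : db b = fun w => (2 : ℂ)⁻¹ * (fderiv ℝ b w 1 + Complex.I * fderiv ℝ b w Complex.I) := by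
    funext w
    rw [db, div_eq_inv_mul]
  rw [h3]
  exact h2.const_mul _

private theorem R5_lapu {R : ℝ} {b g : ℂ → ℂ} (hb : ContDiffOn ℝ 2 b (ball 0 R))
    (hg : DifferentiableOn ℂ g (ball 0 R)) {z : ℂ} (hz : z ∈ ball (0 : ℂ) R) :
    lap (fun z => b z * g z) z = 4 * (dz (db b) z * g z + db b z * deriv g z) := by
  have hgr : ContDiffOn ℝ 2 g (ball 0 R) := (hg.contDiffOn isOpen_ball).restrict_scalars ℝ
  have hn : ball (0 : ℂ) R ∈ 𝓝 z := isOpen_ball.mem_nhds hz
  rw [lap_eq ((hb.mul hgr).contDiffAt hn)]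
  have he : db (fun z => b z * g z) =ᶠ[𝓝 z] fun z => db b z * g z := by
    filter_upwards [hn] with w hw
    have hnw : ball (0 : ℂ) R ∈ 𝓝 w := isOpen_ball.mem_nhds hw
    rw [db_mul ((hb.contDiffAt hnw).differentiableAt two_ne_zero)
      ((hgr.contDiffAt hnw).differentiableAt two_ne_zero), db_hol (hg.differentiableAt hnw),
      mul_zero, add_zero]
  have h1 : dz (db fun z => b z * g z) z = dz (fun z => db b z * g z) z := by
    unfold dz
    rw [he.fderiv_eq]
  rw [h1, dz_mul (R5_db hb hz) ((hgr.contDiffAt hn).differentiableAt two_ne_zero),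
    dz_hol (hg.differentiableAt hn)]

/-- PROOF. `green` for `u = b g`, `u 0 = 0`: `av 1 (b g) = JJ (lap (b g))`, `lap (b g) = 4 dz (db (b g)) = 4 (dz (db b) g + db b g')` (`lap_eq`, `db_mul`, `db_hol`, `dz_mul`, `dz_hol`). With `w = ww s g ≥ |g|`: `‖lap (b g)‖ ≤ 4 K lap v w + 4 |db b| |g'|`, and
`|db b| |g'| ≤ (|db b|² w + |g'|² / w) / 2 ≤ (K lap v w + |g'|² / w) / 2`. So `‖av 1 (b g)‖ ≤ 6 K JJ (lap v w) + 2 JJ (|g'|² / w) ≤ (18 K + 2) av 1 w` (`JJ_norm`, `JJ_lin`, `sub_a`, `sub_b`). Let `s → 0`: `w ≤ |g| + √s`, so `av 1 w ≤ av 1 |g| + √s`. -/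
theorem pairing {R : ℝ} (hR : 1 < R) {v : ℂ → ℝ} (hv : ContDiffOn ℝ 2 v (ball 0 R))
    (h0 : ∀ z ∈ closedBall (0 : ℂ) 1, 0 ≤ v z) (h1 : ∀ z ∈ closedBall (0 : ℂ) 1, v z ≤ 1)
    (hl : ∀ z ∈ closedBall (0 : ℂ) 1, 0 ≤ lap v z) {b : ℂ → ℂ} (hb : ContDiffOn ℝ 2 b (ball 0 R))
    {K : ℝ} (hK : 0 ≤ K) (hb1 : ∀ z ∈ closedBall (0 : ℂ) 1, ‖db b z‖ ^ 2 ≤ K * lap v z)
    (hb2 : ∀ z ∈ closedBall (0 : ℂ) 1, ‖dz (db b) z‖ ≤ K * lap v z) {g : ℂ → ℂ}
    (hg : DifferentiableOn ℂ g (ball 0 R)) (hg0 : g 0 = 0) :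
    ‖av 1 (fun z => b z * g z)‖ ≤ (18 * K + 2) * av 1 (fun z => ‖g z‖) := by
  have h1' := h1
  have hs1 : closedBall (0 : ℂ) 1 ⊆ ball 0 R := closedBall_subset_ball hR
  have hsp : sphere (0 : ℂ) 1 ⊆ ball 0 R := sphere_subset_closedBall.trans hs1
  have hgr : ContDiffOn ℝ 2 g (ball 0 R) := (hg.contDiffOn isOpen_ball).restrict_scalars ℝ
  have hgc : ContinuousOn g (ball 0 R) := hg.continuousOn
  have hgd : ContinuousOn (deriv g) (ball 0 R) := (hg.deriv isOpen_ball).continuousOn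
  have hgreen := green hR (hb.mul hgr)
  rw [hg0, mul_zero, sub_zero] at hgreen
  have key : ∀ s : ℝ, 0 < s → ‖av 1 (fun z => b z * g z)‖ ≤
      (18 * K + 2) * (av 1 (fun z => ‖g z‖) + Real.sqrt s) := by
    intro s hs
    have hwp : ∀ z, 0 < ww s g z := fun z => Real.sqrt_pos.2 (by positivity)
    have hwg : ∀ z, ‖g z‖ ≤ ww s g z := fun z => Real.le_sqrt_of_sq_le (by linarith)
    have hwc : ContinuousOn (ww s g) (ball 0 R) :=
      ((hgc.norm.pow 2).add continuousOn_const).sqrt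
    have hlc : ContinuousOn (lap v) (ball 0 R) := R5_lap hv
    have hF1 : ContinuousOn (fun z => lap v z * ww s g z) (closedBall 0 1) :=
      (hlc.mul hwc).mono hs1
    have hF2 : ContinuousOn (fun z => ‖deriv g z‖ ^ 2 / ww s g z) (closedBall 0 1) :=
      ((hgd.norm.pow 2).div hwc fun z _ => (hwp z).ne').mono hs1
    have hFc : ContinuousOn (fun z => 6 * K * (lap v z * ww s g z) +
        2 * (‖deriv g z‖ ^ 2 / ww s g z)) (closedBall 0 1) :=
      (continuousOn_const.mul hF1).add (continuousOn_const.mul hF2)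
    have hle : ∀ z ∈ closedBall (0 : ℂ) 1, ‖lap (fun z => b z * g z) z‖ ≤
        6 * K * (lap v z * ww s g z) + 2 * (‖deriv g z‖ ^ 2 / ww s g z) := by
      intro z hz
      rw [R5_lapu hb hg (hs1 hz)]
      have h2 := hb1 z hz
      have h3 := hb2 z hz
      have h4 := hl z hz
      have hw := hwp z
      have hgw := hwg z
      have hq : 0 ≤ ‖deriv g z‖ ^ 2 / ww s g z := by positivity
      have e1 : ‖dz (db b) z * g z‖ ≤ K * lap v z * ww s g z := by
        rw [norm_mul]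
        exact mul_le_mul h3 hgw (norm_nonneg _) (mul_nonneg hK h4)
      have e2 : ‖db b z * deriv g z‖ ≤ (K * lap v z * ww s g z + ‖deriv g z‖ ^ 2 / ww s g z) / 2 := by
        rw [norm_mul]
        have h5 : 2 * (‖db b z‖ * ‖deriv g z‖) ≤
            ‖db b z‖ ^ 2 * ww s g z + ‖deriv g z‖ ^ 2 / ww s g z := by
          have h6 : 0 ≤ (‖db b z‖ * ww s g z - ‖deriv g z‖) ^ 2 / ww s g z := by positivity
          have h7 : (‖db b z‖ * ww s g z - ‖deriv g z‖) ^ 2 / ww s g z =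
              ‖db b z‖ ^ 2 * ww s g z + ‖deriv g z‖ ^ 2 / ww s g z -
                2 * (‖db b z‖ * ‖deriv g z‖) := by
            field_simp
            ring
          linarith
        have h8 : ‖db b z‖ ^ 2 * ww s g z ≤ K * lap v z * ww s g z :=
          mul_le_mul_of_nonneg_right h2 hw.le
        linarith
      have e3 : ‖4 * (dz (db b) z * g z + db b z * deriv g z)‖ ≤
          4 * (‖dz (db b) z * g z‖ + ‖db b z * deriv g z‖) := by
        rw [norm_mul]
        have : ‖(4 : ℂ)‖ = 4 := by norm_num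
        rw [this]
        exact mul_le_mul_of_nonneg_left (norm_add_le _ _) (by norm_num)
      refine e3.trans ?_
      nlinarith
    have h1 : ‖JJ (lap fun z => b z * g z)‖ ≤ 6 * K * JJ (fun z => lap v z * ww s g z) +
        2 * JJ (fun z => ‖deriv g z‖ ^ 2 / ww s g z) := by
      refine (JJ_norm ((R5_lap (hb.mul hgr)).mono hs1) hFc hle).trans (le_of_eq ?_)
      exact JJ_lin hF1 hF2 (6 * K) 2
    have h2 := sub_a hR hv h0 h1' hl hg hs
    have h3 := sub_b hR hg hs
    have h4 : av 1 (ww s g) ≤ av 1 (fun z => ‖g z‖) + Real.sqrt s := by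
      have h5 : av 1 (ww s g) ≤ av 1 (fun z => (1 : ℝ) • ‖g z‖ + (1 : ℝ) • Real.sqrt s) := by
        refine av_mono (hwc.mono hsp) ?_ fun z _ => ?_
        · exact ((hgc.mono hsp).norm.const_smul (1 : ℝ)).add continuousOn_const
        · rw [one_smul, one_smul]
          refine Real.sqrt_le_iff.2 ⟨by positivity, ?_⟩
          have h6 := Real.sq_sqrt hs.le
          nlinarith [mul_nonneg (norm_nonneg (g z)) (Real.sqrt_nonneg s)]
      rw [av_lin (hgc.mono hsp).norm continuousOn_const, av_const, one_smul, one_smul] at h5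
      exact h5
    have h6 : 0 ≤ 6 * K := by positivity
    have h7 : 6 * K * JJ (fun z => lap v z * ww s g z) ≤ 6 * K * (3 * av 1 (ww s g)) :=
      mul_le_mul_of_nonneg_left h2 h6
    have h8 : (18 * K + 2) * av 1 (ww s g) ≤ (18 * K + 2) * (av 1 (fun z => ‖g z‖) + Real.sqrt s) :=
      mul_le_mul_of_nonneg_left h4 (by positivity)
    rw [← hgreen] at h1
    linarith
  refine le_of_forall_pos_le_add fun ε hε => ?_
  have hC : 0 < 18 * K + 2 := by positivity
  have h := key ((ε / (18 * K + 2)) ^ 2) (by positivity)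
  rw [Real.sqrt_sq (by positivity), mul_add, mul_div_cancel₀ _ hC.ne'] at h
  exact h

end Pool.Agent.MPca0fc2.RC
end

section

/-! Duality. -/

set_option autoImplicit false

open Metric Set MeasureTheory Filter Topology
open scoped ComplexConjugate

namespace Pool.Agent.MPca0fc2.RC

private theorem R7_hb {X : Type} [SeminormedAddCommGroup X] [NormedSpace ℂ X] (P : Submodule ℂ X)
    (b : X) {d : ℝ} (h : ∀ p ∈ P, d ≤ ‖b - p‖) :
    ∃ g : X →ₗ[ℂ] ℂ, (∀ x, ‖g x‖ ≤ ‖x‖) ∧ (∀ p ∈ P, g p = 0) ∧ d ≤ ‖g b‖ := by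
  obtain ⟨g, hg1, hg2⟩ := exists_dual_vector'' ℂ (P.mkQ b : X ⧸ P)
  refine ⟨g.toLinearMap.comp P.mkQ, fun x => ?_, fun p hp => ?_, ?_⟩
  · calc ‖g (P.mkQ x)‖ ≤ ‖g‖ * ‖P.mkQ x‖ := g.le_opNorm _
      _ ≤ 1 * ‖P.mkQ x‖ := mul_le_mul_of_nonneg_right hg1 (norm_nonneg _)
      _ ≤ ‖x‖ := by
        rw [one_mul]
        exact Submodule.Quotient.norm_mk_le P x
  · change g (P.mkQ p) = 0
    have h1 : P.mkQ p = 0 := by
      rw [Submodule.mkQ_apply, Submodule.Quotient.mk_eq_zero]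
      exact hp
    rw [h1, map_zero]
  · change d ≤ ‖g (P.mkQ b)‖
    rw [hg2]
    have h1 : ‖((‖P.mkQ b‖ : ℝ) : ℂ)‖ = ‖P.mkQ b‖ := by
      rw [Complex.norm_real, norm_norm]
    refine le_trans ?_ (le_of_eq h1.symm)
    by_contra hlt
    push Not at hlt
    obtain ⟨m, hm, hm2⟩ := QuotientAddGroup.norm_lt_iff.1 hlt
    have h2 : b - m ∈ P := by
      have h3 : P.mkQ m = P.mkQ b := hm
      rw [← Submodule.Quotient.mk_eq_zero, Submodule.Quotient.mk_sub]
      rw [Submodule.mkQ_apply, Submodule.mkQ_apply] at h3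
      rw [h3, sub_self]
    have h4 := h _ h2
    rw [sub_sub_cancel] at h4
    linarith

/-- A functional which annihilates the polynomials.
PROOF. In the Banach space `X = C(sphere 0 1, ℂ)` let `P` be the subspace of the restrictions of the polynomials. All elements of `P` have distance at least `d` from `b`. The theorem of Hahn-Banach for the closure of `P` (a closed subspace; the norm of the class of `b` in the quotient is at least `d`; `exists_dual_vector` in the quotient, composed with the quotient map `mkQ`, or `Submodule.ClosedComplemented`-free: the functional `lam b + p ↦ lam d` on `span {b} + P` has norm at most `1`, `exists_extension_norm_eq`). -/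
theorem annih {b : ℂ → ℂ} (hb : ContinuousOn b (sphere 0 1)) {d : ℝ} (hd : 0 ≤ d)
    (h : ∀ p : Polynomial ℂ, ∃ z ∈ sphere (0 : ℂ) 1, d ≤ ‖b z - p.eval z‖) :
    ∃ Λ : (ℂ → ℂ) → ℂ,
      (∀ f g : ℂ → ℂ, ContinuousOn f (sphere 0 1) → ContinuousOn g (sphere 0 1) → ∀ c : ℂ,
        Λ (fun z => f z + c * g z) = Λ f + c * Λ g) ∧
      (∀ f g : ℂ → ℂ, ContinuousOn f (sphere 0 1) → ContinuousOn g (sphere 0 1) →
        (∀ z ∈ sphere (0 : ℂ) 1, f z = g z) → Λ f = Λ g) ∧
      (∀ f : ℂ → ℂ, ContinuousOn f (sphere 0 1) → ∀ A : ℝ, (∀ z ∈ sphere (0 : ℂ) 1, ‖f z‖ ≤ A) →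
        ‖Λ f‖ ≤ A) ∧
      (∀ p : Polynomial ℂ, Λ (fun z => p.eval z) = 0) ∧ d ≤ ‖Λ b‖ := by
  classical
  obtain ⟨B, hB⟩ : ∃ B : C(sphere (0 : ℂ) 1, ℂ), ∀ z, B z = b z :=
    ⟨⟨(sphere (0 : ℂ) 1).domRestrict b, hb.domRestrict⟩, fun _ => rfl⟩
  obtain ⟨g, hg1, hg2, hg3⟩ := R7_hb
    (LinearMap.range (Polynomial.toContinuousMapOnAlgHom (R := ℂ) (sphere (0 : ℂ) 1)).toLinearMap)
    B (d := d) (by
      rintro _ ⟨p, rfl⟩
      obtain ⟨z, hz, hz2⟩ := h p
      refine hz2.trans ?_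
      have h1 := ContinuousMap.norm_coe_le_norm
        (B - (Polynomial.toContinuousMapOnAlgHom (R := ℂ) (sphere (0 : ℂ) 1)).toLinearMap p) ⟨z, hz⟩
      refine le_trans (le_of_eq ?_) h1
      rw [ContinuousMap.sub_apply, hB]
      rfl)
  obtain ⟨Λ, hΛ⟩ : ∃ Λ : (ℂ → ℂ) → ℂ, ∀ (f : ℂ → ℂ) (hf : ContinuousOn f (sphere 0 1)),
      Λ f = g ⟨(sphere (0 : ℂ) 1).domRestrict f, hf.domRestrict⟩ := by
    refine ⟨fun f => if hf : ContinuousOn f (sphere 0 1) then
      g ⟨(sphere (0 : ℂ) 1).domRestrict f, hf.domRestrict⟩ else 0, fun f hf => ?_⟩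
    simp only [hf, dif_pos]
  refine ⟨Λ, ?_, ?_, ?_, ?_, ?_⟩
  · intro f k hf hk c
    have h1 : ContinuousOn (fun z => f z + c * k z) (sphere 0 1) :=
      hf.add (continuousOn_const.mul hk)
    rw [hΛ _ h1, hΛ _ hf, hΛ _ hk, ← smul_eq_mul, ← map_smul, ← map_add]
    congr 1
  · intro f k hf hk hfk
    rw [hΛ _ hf, hΛ _ hk]
    congr 1
    ext z
    exact hfk z z.2
  · intro f hf A hA
    rw [hΛ _ hf]
    have hA0 : 0 ≤ A := (norm_nonneg _).trans (hA 1 (by simp))
    refine (hg1 _).trans ?_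
    rw [ContinuousMap.norm_le _ hA0]
    intro z
    exact hA z z.2
  · intro p
    have h1 : ContinuousOn (fun z => p.eval z) (sphere (0 : ℂ) 1) := p.continuous.continuousOn
    rw [hΛ _ h1]
    refine hg2 _ ⟨p, ?_⟩
    ext z
    rfl
  · rw [hΛ _ hb]
    have h1 : (⟨(sphere (0 : ℂ) 1).domRestrict b, hb.domRestrict⟩ : C(sphere (0 : ℂ) 1, ℂ)) = B := by
      ext z
      exact (hB z).symm
    rw [h1]
    exact hg3

private theorem R7_cont {f : ℂ → ℂ} (hf : ContinuousOn f (sphere 0 1)) :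
    Continuous fun t : ℝ => f ((1 : ℝ) * Complex.exp (t * Complex.I)) := by
  refine hf.comp_continuous (by fun_prop) fun t => ?_
  rw [mem_sphere_zero_iff_norm, norm_mul, Complex.norm_exp_ofReal_mul_I, mul_one]
  simp

private theorem R7_av_sum (S : Finset ℕ) (c : ℕ → ℂ) {f : ℕ → ℂ → ℂ}
    (hf : ∀ k ∈ S, ContinuousOn (f k) (sphere 0 1)) :
    av 1 (fun z => ∑ k ∈ S, c k * f k z) = ∑ k ∈ S, c k * av 1 (f k) := by
  unfold av
  rw [intervalIntegral.integral_finsetSum, Finset.smul_sum]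
  · refine Finset.sum_congr rfl fun k _ => ?_
    rw [intervalIntegral.integral_const_mul]
    simp only [Complex.real_smul]
    ring
  · intro k hk
    exact ((R7_cont (hf k hk)).const_mul (c k)).intervalIntegrable _ _

private theorem R7_av_real {f : ℂ → ℝ} :
    av 1 (fun z => ((f z : ℝ) : ℂ)) = ((av 1 f : ℝ) : ℂ) := by
  unfold av
  rw [intervalIntegral.integral_ofReal]
  simp only [Complex.real_smul, smul_eq_mul, Complex.ofReal_mul]

private theorem R7_lin_sum {Λ : (ℂ → ℂ) → ℂ}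
    (h1 : ∀ f g : ℂ → ℂ, ContinuousOn f (sphere 0 1) → ContinuousOn g (sphere 0 1) → ∀ c : ℂ,
        Λ (fun z => f z + c * g z) = Λ f + c * Λ g)
    (h3 : ∀ f : ℂ → ℂ, ContinuousOn f (sphere 0 1) → ∀ A : ℝ,
      (∀ z ∈ sphere (0 : ℂ) 1, ‖f z‖ ≤ A) → ‖Λ f‖ ≤ A)
    (S : Finset ℕ) (c : ℕ → ℂ) {f : ℕ → ℂ → ℂ}
    (hf : ∀ k ∈ S, ContinuousOn (f k) (sphere 0 1)) :
    Λ (fun z => ∑ k ∈ S, c k * f k z) = ∑ k ∈ S, c k * Λ (f k) := by
  classical
  induction S using Finset.induction_on with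
  | empty =>
    have h4 := h3 (fun z => ∑ k ∈ (∅ : Finset ℕ), c k * f k z) (by
      simp only [Finset.sum_empty]
      exact continuousOn_const) 0 (fun z _ => by simp)
    rw [Finset.sum_empty]
    exact norm_le_zero_iff.1 h4
  | insert a S ha ih =>
    have h5 := h1 (fun z => ∑ k ∈ S, c k * f k z) (f a)
      (continuousOn_finsetSum S fun k hk =>
        continuousOn_const.mul (hf k (Finset.mem_insert_of_mem hk)))
      (hf a (Finset.mem_insert_self a S)) (c a)
    rw [ih fun k hk => hf k (Finset.mem_insert_of_mem hk)] at h5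
    rw [Finset.sum_insert ha, add_comm (c a * Λ (f a)), ← h5]
    congr 1
    funext z
    rw [Finset.sum_insert ha, add_comm]

/-- Duality.
PROOF. Suppose that there is no such polynomial: `annih` with `d = C + ε`. For `M ≥ 1` let `ψ = ∑_{1 ≤ k < M} (1 - k/M) Λ(conj z^k) z^k`, a polynomial with `ψ 0 = 0`. For `s` continuous: `Λ (fej M s) = av 1 (s ψ)`, by `fej_eq` (`Λ` annihilates the powers `z^k`, and `conj z` is continuous). So `‖av 1 (s ψ)‖ ≤ sup |s|` (`fej_le`).
With `s = conj ψ / (|ψ|² + t)^(1/2)`, `|s| ≤ 1`: `av 1 (|ψ|² / (|ψ|² + t)^(1/2)) ≤ 1`, and `|ψ| ≤ |ψ|² / (|ψ|² + t)^(1/2) + √t`, so `av 1 |ψ| ≤ 1 + √t` for all `t > 0`, `av 1 |ψ| ≤ 1`. By the hypothesis `‖Λ (fej M b)‖ = ‖av 1 (b ψ)‖ ≤ C`. By `fej_tendsto` `‖Λ (fej M b) - Λ b‖ ≤ ε / 2` for large `M`, so `C + ε ≤ ‖Λ b‖ ≤ C + ε / 2`, a contradiction. -/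
theorem dual {b : ℂ → ℂ} (hb : ContinuousOn b (sphere 0 1)) {C : ℝ} (hC : 0 ≤ C)
    (h : ∀ p : Polynomial ℂ, p.eval 0 = 0 →
      ‖av 1 (fun z => b z * p.eval z)‖ ≤ C * av 1 (fun z => ‖p.eval z‖)) {ε : ℝ} (hε : 0 < ε) :
    ∃ p : Polynomial ℂ, ∀ z ∈ sphere (0 : ℂ) 1, ‖b z - p.eval z‖ ≤ C + ε := by
  classical
  by_contra hcon
  push Not at hcon
  obtain ⟨Λ, hlin, hcongr, hnorm, hpol, hval⟩ := annih hb (d := C + ε) (by linarith)
    fun p => by
      obtain ⟨z, hz, hz2⟩ := hcon p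
      exact ⟨z, hz, hz2.le⟩
  obtain ⟨M₀, hM₀⟩ := fej_tendsto hb (half_pos hε)
  obtain ⟨M, hM, hMpos⟩ : ∃ M : ℕ, M₀ ≤ M ∧ 0 < M := ⟨M₀ + 1, by omega, by omega⟩
  have hconj : ∀ k : ℕ, ContinuousOn (fun z : ℂ => conj z ^ k) (sphere (0 : ℂ) 1) := fun k =>
    (Complex.continuous_conj.pow k).continuousOn
  have hpw : ∀ k : ℕ, ContinuousOn (fun z : ℂ => z ^ k) (sphere (0 : ℂ) 1) := fun k =>
    (continuous_id.pow k).continuousOn
  obtain ⟨ψ, hψ⟩ : ∃ ψ : Polynomial ℂ, ∀ z, ψ.eval z =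
      ∑ k ∈ Finset.Ico 1 M, ((1 - k / M : ℂ) * Λ (fun z => conj z ^ k)) * z ^ k := by
    refine ⟨∑ k ∈ Finset.Ico 1 M, Polynomial.C ((1 - k / M : ℂ) * Λ (fun z => conj z ^ k)) *
      Polynomial.X ^ k, fun z => ?_⟩
    rw [Polynomial.eval_finsetSum]
    refine Finset.sum_congr rfl fun k _ => ?_
    rw [Polynomial.eval_mul, Polynomial.eval_C, Polynomial.eval_pow, Polynomial.eval_X]
  have hψ0 : ψ.eval 0 = 0 := by
    rw [hψ]
    refine Finset.sum_eq_zero fun k hk => ?_
    have : k ≠ 0 := by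
      have := (Finset.mem_Ico.1 hk).1
      omega
    rw [zero_pow this, mul_zero]
  -- the trigonometric polynomial
  have key : ∀ s : ℂ → ℂ, ContinuousOn s (sphere 0 1) →
      ContinuousOn (fej M s) (sphere 0 1) ∧ Λ (fej M s) = av 1 (fun z => s z * ψ.eval z) := by
    intro s hs
    obtain ⟨q, hq⟩ : ∃ q : Polynomial ℂ, ∀ z, q.eval z =
        ∑ k ∈ Finset.range M, (1 - k / M : ℂ) * av 1 (fun w => s w * conj w ^ k) * z ^ k := by
      refine ⟨∑ k ∈ Finset.range M, Polynomial.C ((1 - k / M : ℂ) *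
        av 1 (fun w => s w * conj w ^ k)) * Polynomial.X ^ k, fun z => ?_⟩
      rw [Polynomial.eval_finsetSum]
      refine Finset.sum_congr rfl fun k _ => ?_
      rw [Polynomial.eval_mul, Polynomial.eval_C, Polynomial.eval_pow, Polynomial.eval_X]
    have hR : ContinuousOn (fun z => ∑ k ∈ Finset.Ico 1 M,
        ((1 - k / M : ℂ) * av 1 (fun w => s w * w ^ k)) * conj z ^ k) (sphere 0 1) :=
      continuousOn_finsetSum _ fun k _ => continuousOn_const.mul (hconj k)
    have hq' : ContinuousOn (fun z => q.eval z) (sphere (0 : ℂ) 1) := q.continuous.continuousOn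
    have hT : ∀ z ∈ sphere (0 : ℂ) 1, fej M s z = q.eval z + 1 * ∑ k ∈ Finset.Ico 1 M,
        ((1 - k / M : ℂ) * av 1 (fun w => s w * w ^ k)) * conj z ^ k := by
      intro z hz
      rw [fej_eq hMpos hs hz, hq, one_mul]
    have hTc : ContinuousOn (fun z => q.eval z + 1 * ∑ k ∈ Finset.Ico 1 M,
        ((1 - k / M : ℂ) * av 1 (fun w => s w * w ^ k)) * conj z ^ k) (sphere (0 : ℂ) 1) :=
      hq'.add (continuousOn_const.mul hR)
    have hfc : ContinuousOn (fej M s) (sphere 0 1) := hTc.congr hT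
    refine ⟨hfc, ?_⟩
    rw [hcongr _ _ hfc hTc hT, hlin _ _ hq' hR 1, hpol, zero_add, one_mul,
      R7_lin_sum hlin hnorm (Finset.Ico 1 M) _ fun k _ => hconj k]
    have h6 : (fun z => s z * ψ.eval z) = fun z => ∑ k ∈ Finset.Ico 1 M,
        ((1 - k / M : ℂ) * Λ (fun z => conj z ^ k)) * (s z * z ^ k) := by
      funext z
      rw [hψ, Finset.mul_sum]
      refine Finset.sum_congr rfl fun k _ => ?_
      ring
    rw [h6, R7_av_sum (Finset.Ico 1 M) (fun k => (1 - k / M : ℂ) * Λ (fun z => conj z ^ k))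
      (f := fun k z => s z * z ^ k) fun k _ => hs.mul (hpw k)]
    refine Finset.sum_congr rfl fun k _ => ?_
    ring
  have hbd : ∀ s : ℂ → ℂ, ContinuousOn s (sphere 0 1) → (∀ z ∈ sphere (0 : ℂ) 1, ‖s z‖ ≤ 1) →
      ‖av 1 (fun z => s z * ψ.eval z)‖ ≤ 1 := by
    intro s hs h1
    obtain ⟨h2, h3⟩ := key s hs
    rw [← h3]
    exact hnorm _ h2 1 fun z hz => fej_le hMpos hs h1 hz
  have hψc : Continuous fun z => ψ.eval z := ψ.continuous
  have hψn : ContinuousOn (fun z => ‖ψ.eval z‖) (sphere (0 : ℂ) 1) := hψc.norm.continuousOn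
  have hav : av 1 (fun z => ‖ψ.eval z‖) ≤ 1 := by
    refine le_of_forall_pos_le_add fun δ hδ => ?_
    have hpos : ∀ z, 0 < ‖ψ.eval z‖ ^ 2 + δ ^ 2 := fun z => by positivity
    have hsq : ∀ z, 0 < Real.sqrt (‖ψ.eval z‖ ^ 2 + δ ^ 2) := fun z => Real.sqrt_pos.2 (hpos z)
    have hsc : Continuous fun z => Real.sqrt (‖ψ.eval z‖ ^ 2 + δ ^ 2) := by fun_prop
    have hGc : ContinuousOn (fun z => ‖ψ.eval z‖ ^ 2 / Real.sqrt (‖ψ.eval z‖ ^ 2 + δ ^ 2))
        (sphere (0 : ℂ) 1) :=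
      ((hψc.norm.pow 2).div hsc fun z => (hsq z).ne').continuousOn
    have h1 := hbd (fun z => conj (ψ.eval z) / (Real.sqrt (‖ψ.eval z‖ ^ 2 + δ ^ 2) : ℝ))
      ((Complex.continuous_conj.comp hψc).div (Complex.continuous_ofReal.comp hsc)
        (fun z => Complex.ofReal_ne_zero.2 (hsq z).ne')).continuousOn (fun z _ => by
        rw [norm_div, RCLike.norm_conj, Complex.norm_real, Real.norm_of_nonneg (hsq z).le,
          div_le_one (hsq z)]
        refine Real.le_sqrt_of_sq_le ?_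
        have := sq_nonneg δ
        linarith)
    have h2 : (fun z => conj (ψ.eval z) / (Real.sqrt (‖ψ.eval z‖ ^ 2 + δ ^ 2) : ℝ) *
        ψ.eval z) = fun z => (((‖ψ.eval z‖ ^ 2 / Real.sqrt (‖ψ.eval z‖ ^ 2 + δ ^ 2) : ℝ)) : ℂ) := by
      funext z
      rw [div_mul_eq_mul_div, mul_comm, Complex.mul_conj, Complex.normSq_eq_norm_sq]
      push_cast
      rfl
    rw [h2, R7_av_real, Complex.norm_real] at h1
    have h3 : av 1 (fun z => ‖ψ.eval z‖ ^ 2 / Real.sqrt (‖ψ.eval z‖ ^ 2 + δ ^ 2)) ≤ 1 :=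
      (le_abs_self _).trans h1
    have hKc : ContinuousOn (fun z => (1 : ℝ) • (‖ψ.eval z‖ ^ 2 /
        Real.sqrt (‖ψ.eval z‖ ^ 2 + δ ^ 2)) + (1 : ℝ) • δ) (sphere (0 : ℂ) 1) :=
      ContinuousOn.add (f := fun z => (1 : ℝ) • (‖ψ.eval z‖ ^ 2 /
        Real.sqrt (‖ψ.eval z‖ ^ 2 + δ ^ 2))) (g := fun _ => (1 : ℝ) • δ)
        (hGc.const_smul (1 : ℝ)) continuousOn_const
    have h4 : av 1 (fun z => ‖ψ.eval z‖) ≤
        av 1 (fun z => (1 : ℝ) • (‖ψ.eval z‖ ^ 2 / Real.sqrt (‖ψ.eval z‖ ^ 2 + δ ^ 2)) +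
          (1 : ℝ) • δ) := by
      refine av_mono hψn hKc fun z _ => ?_
      rw [one_smul, one_smul, ← sub_le_iff_le_add, le_div_iff₀ (hsq z)]
      have h5 : Real.sqrt (‖ψ.eval z‖ ^ 2 + δ ^ 2) ≤ ‖ψ.eval z‖ + δ := by
        rw [Real.sqrt_le_left (by positivity)]
        nlinarith [norm_nonneg (ψ.eval z)]
      have h6 : ‖ψ.eval z‖ ≤ Real.sqrt (‖ψ.eval z‖ ^ 2 + δ ^ 2) :=
        Real.le_sqrt_of_sq_le (by nlinarith [sq_nonneg δ])
      nlinarith [norm_nonneg (ψ.eval z), Real.sq_sqrt (hpos z).le, (hsq z).le]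
    rw [av_lin hGc continuousOn_const, av_const, one_smul, one_smul] at h4
    linarith
  have hfin : ‖Λ (fej M b)‖ ≤ C := by
    rw [(key b hb).2]
    refine (h ψ hψ0).trans ?_
    calc C * av 1 (fun z => ‖ψ.eval z‖) ≤ C * 1 := mul_le_mul_of_nonneg_left hav hC
      _ = C := mul_one C
  have hdiff : ‖Λ (fun z => fej M b z + (-1) * b z)‖ ≤ ε / 2 := by
    have hc' : ContinuousOn (fun z => fej M b z + (-1) * b z) (sphere 0 1) :=
      (key b hb).1.add (continuousOn_const.mul hb)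
    refine hnorm _ hc' _ fun z hz => ?_
    have h1 := hM₀ M hM hMpos z hz
    rwa [neg_one_mul, ← sub_eq_add_neg]
  rw [hlin _ _ (key b hb).1 hb (-1)] at hdiff
  have h1 : ‖Λ b‖ ≤ ‖Λ (fej M b)‖ + ‖Λ (fej M b) + -1 * Λ b‖ := by
    have h2 : Λ b = Λ (fej M b) - (Λ (fej M b) + -1 * Λ b) := by ring
    calc ‖Λ b‖ = ‖Λ (fej M b) - (Λ (fej M b) + -1 * Λ b)‖ := by rw [← h2]
      _ ≤ _ := norm_sub_le _ _
  linarith

end Pool.Agent.MPca0fc2.RC
end

section

/-! The maximum principle. -/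

set_option autoImplicit false

open Metric Set MeasureTheory Filter Topology

namespace Pool.Agent.MPca0fc2.RC

private lemma R8_second {ψ ψ' : ℝ → ℝ} {c : ℝ} (h1 : ∀ᶠ t in 𝓝 (0 : ℝ), HasDerivAt ψ (ψ' t) t)
    (h2 : HasDerivAt ψ' c 0) (h : IsLocalMax ψ 0) : c ≤ 0 := by
  by_contra hc
  push Not at hc
  have hd : deriv ψ =ᶠ[𝓝 0] ψ' := h1.mono fun t ht => ht.deriv
  have hdd : deriv (deriv ψ) 0 = c := by
    rw [hd.deriv_eq]
    exact h2.deriv
  have h3 : IsLocalMin ψ 0 := isLocalMin_of_deriv_deriv_pos (by rw [hdd]; exact hc)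
    h.deriv_eq_zero h1.self_of_nhds.continuousAt
  have h4 : ψ =ᶠ[𝓝 0] fun _ => ψ 0 := by
    filter_upwards [h, h3] with t a b using le_antisymm a b
  have h5 : deriv ψ =ᶠ[𝓝 0] fun _ => 0 := by
    have h6 := h4.deriv
    simpa using h6
  have h6 := h5.deriv_eq
  rw [hdd, deriv_const] at h6
  linarith

private lemma R8_line {R : ℝ} {w : ℂ → ℝ} (hw : ContDiffOn ℝ 2 w (ball 0 R)) {z : ℂ}
    (hz : z ∈ ball (0 : ℂ) R) (ε : ℝ) {X : ℂ} (hX : ‖X‖ = 1)
    (hmax : IsLocalMax (fun z => w z + ε * ‖z‖ ^ 2) z) :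
    fderiv ℝ (fun w' => fderiv ℝ w w' X) z X + 2 * ε ≤ 0 := by
  have hline : ∀ t : ℝ, HasDerivAt (fun t : ℝ => z + t • X) X t := by
    intro t
    have h1 : HasDerivAt (fun t : ℝ => t • X) ((1 : ℝ) • X) t :=
      (hasDerivAt_id t).smul_const X
    rw [one_smul] at h1
    exact h1.const_add z
  have hz0 : z + (0 : ℝ) • X = z := by simp
  have hcont : Filter.Tendsto (fun t : ℝ => z + t • X) (𝓝 0) (𝓝 z) := by
    have h1 : Filter.Tendsto (fun t : ℝ => z + t • X) (𝓝 0) (𝓝 (z + (0 : ℝ) • X)) :=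
      (hline 0).continuousAt
    rwa [hz0] at h1
  have hev : ∀ᶠ t : ℝ in 𝓝 0, z + t • X ∈ ball (0 : ℂ) R :=
    hcont (isOpen_ball.mem_nhds hz)
  have hn : ∀ t : ℝ, HasDerivAt (fun t : ℝ => ‖z + t • X‖ ^ 2) (2 * inner ℝ (z + t • X) X) t :=
    fun t => (hline t).norm_sq
  have hn2 : HasDerivAt (fun t : ℝ => 2 * inner ℝ (z + t • X) X) 2 0 := by
    have h1 : HasDerivAt (fun t : ℝ => inner ℝ (z + t • X) X)
        (inner ℝ (z + (0 : ℝ) • X) (0 : ℂ) + inner ℝ X X) 0 :=
      (hline 0).inner ℝ (hasDerivAt_const (0 : ℝ) X)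
    rw [inner_zero_right, zero_add, real_inner_self_eq_norm_sq, hX] at h1
    have h2 := h1.const_mul (2 : ℝ)
    have h3 : (2 : ℝ) * 1 ^ 2 = 2 := by norm_num
    rw [h3] at h2
    exact h2
  have hw1 : ∀ᶠ t : ℝ in 𝓝 0, HasDerivAt (fun t : ℝ => w (z + t • X))
      (fderiv ℝ w (z + t • X) X) t := by
    filter_upwards [hev] with t ht
    have h1 : DifferentiableAt ℝ w (z + t • X) :=
      (hw.contDiffAt (isOpen_ball.mem_nhds ht)).differentiableAt (by norm_num)
    exact h1.hasFDerivAt.comp_hasDerivAt t (hline t)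
  have hw2 : HasDerivAt (fun t : ℝ => fderiv ℝ w (z + t • X) X)
      (fderiv ℝ (fun w' => fderiv ℝ w w' X) z X) 0 := by
    have h1 : ContDiffAt ℝ 2 w z := hw.contDiffAt (isOpen_ball.mem_nhds hz)
    have h2 : ContDiffAt ℝ 1 (fderiv ℝ w) z := h1.fderiv_right (by norm_num)
    have h3 : DifferentiableAt ℝ (fun w' => fderiv ℝ w w' X) z :=
      (h2.differentiableAt (by norm_num)).clm_apply (differentiableAt_const X)
    have h4 : HasFDerivAt (fun w' => fderiv ℝ w w' X) (fderiv ℝ (fun w' => fderiv ℝ w w' X) z)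
        (z + (0 : ℝ) • X) := by
      rw [hz0]
      exact h3.hasFDerivAt
    exact h4.comp_hasDerivAt (0 : ℝ) (hline 0)
  have hψ1 : ∀ᶠ t : ℝ in 𝓝 0, HasDerivAt (fun t : ℝ => w (z + t • X) + ε * ‖z + t • X‖ ^ 2)
      (fderiv ℝ w (z + t • X) X + ε * (2 * inner ℝ (z + t • X) X)) t := by
    filter_upwards [hw1] with t ht
    exact ht.add ((hn t).const_mul ε)
  have hψ2 : HasDerivAt
      (fun t : ℝ => fderiv ℝ w (z + t • X) X + ε * (2 * inner ℝ (z + t • X) X))
      (fderiv ℝ (fun w' => fderiv ℝ w w' X) z X + ε * 2) 0 :=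
    hw2.add (hn2.const_mul ε)
  have hloc : IsLocalMax (fun t : ℝ => w (z + t • X) + ε * ‖z + t • X‖ ^ 2) 0 := by
    have h1 : ∀ᶠ t : ℝ in 𝓝 0, w (z + t • X) + ε * ‖z + t • X‖ ^ 2 ≤ w z + ε * ‖z‖ ^ 2 :=
      hcont.eventually hmax
    have h2 : ∀ᶠ t : ℝ in 𝓝 0, w (z + t • X) + ε * ‖z + t • X‖ ^ 2 ≤
        w (z + (0 : ℝ) • X) + ε * ‖z + (0 : ℝ) • X‖ ^ 2 := by
      rw [hz0]
      exact h1
    exact h2
  have h := R8_second hψ1 hψ2 hloc
  linarith

/-- The maximum principle.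
PROOF. For `ε > 0` let `w' z = w z + ε ‖z‖²`, `lap w' ≥ 4 ε > 0` on the ball. Suppose that the maximum of `w'` over the closed ball is attained at an interior point `z₀`. Then `t ↦ w' (z₀ + t X)` has a local maximum at `0`, so its second derivative at `0`, `D²w'(X, X)`, is at most `0`, for `X = 1` and `X = I`: `lap w' z₀ ≤ 0`, a contradiction. So `w ≤ w' ≤ m + ε` on the closed ball; `ε → 0`. -/
theorem max_lap {R : ℝ} (hR : 1 < R) {w : ℂ → ℝ} (hw : ContDiffOn ℝ 2 w (ball 0 R))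
    (hl : ∀ z ∈ ball (0 : ℂ) 1, 0 ≤ lap w z) {m : ℝ} (hm : ∀ z ∈ sphere (0 : ℂ) 1, w z ≤ m) :
    ∀ z ∈ closedBall (0 : ℂ) 1, w z ≤ m := by
  intro z hz
  refine le_of_forall_pos_le_add fun ε hε => ?_
  have hsub : closedBall (0 : ℂ) 1 ⊆ ball 0 R := closedBall_subset_ball hR
  have hcw : ContinuousOn (fun z => w z + ε * ‖z‖ ^ 2) (closedBall 0 1) :=
    (hw.continuousOn.mono hsub).add (by fun_prop)
  obtain ⟨z₀, hz₀, hmax⟩ := (isCompact_closedBall (0 : ℂ) 1).exists_isMaxOn ⟨z, hz⟩ hcw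
  have hle : w z + ε * ‖z‖ ^ 2 ≤ w z₀ + ε * ‖z₀‖ ^ 2 := hmax hz
  have hz2 : 0 ≤ ε * ‖z‖ ^ 2 := by positivity
  rcases (mem_closedBall_zero_iff.1 hz₀).lt_or_eq with hlt | heq
  · exfalso
    have hzb : z₀ ∈ ball (0 : ℂ) 1 := mem_ball_zero_iff.2 hlt
    have hloc : IsLocalMax (fun z => w z + ε * ‖z‖ ^ 2) z₀ :=
      hmax.isLocalMax (Filter.mem_of_superset (isOpen_ball.mem_nhds hzb) ball_subset_closedBall)
    have h1 := R8_line hw (hsub hz₀) ε (X := 1) (by simp) hloc
    have h2 := R8_line hw (hsub hz₀) ε (X := Complex.I) (by simp) hloc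
    have h3 := hl z₀ hzb
    unfold lap at h3
    linarith
  · have h1 := hm z₀ (mem_sphere_zero_iff_norm.2 heq)
    rw [heq] at hle
    linarith

private lemma R8_lin {R K : ℝ} {c : ℂ} {v : ℂ → ℝ} (hv : ContDiffOn ℝ 2 v (ball 0 R))
    {u : ℂ → ℂ} (hu : ContDiffOn ℝ 2 u (ball 0 R)) {z : ℂ} (hz : z ∈ ball (0 : ℂ) R) (X : ℂ) :
    fderiv ℝ (fun y => fderiv ℝ (fun z => (c * u z).re + K * v z) y X) z X =
      (c * fderiv ℝ (fun y => fderiv ℝ u y X) z X).re +
        K * fderiv ℝ (fun y => fderiv ℝ v y X) z X := by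
  set L : ℂ →L[ℝ] ℝ := Complex.reCLM.comp (ContinuousLinearMap.mul ℝ ℂ c) with hLdef
  have hL : ∀ y, L y = (c * y).re := fun y => rfl
  have hgen : ∀ {f : ℂ → ℂ} {g : ℂ → ℝ} {y : ℂ}, DifferentiableAt ℝ f y → DifferentiableAt ℝ g y →
      fderiv ℝ (fun z => (c * f z).re + K * g z) y X =
        (c * fderiv ℝ f y X).re + K * fderiv ℝ g y X := by
    intro f g y hf hg
    have h1 : HasFDerivAt (fun z => L (f z)) (L.comp (fderiv ℝ f y)) y :=
      L.hasFDerivAt.comp y hf.hasFDerivAt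
    have h2 : HasFDerivAt (fun z => L (f z) + K * g z)
        (L.comp (fderiv ℝ f y) + K • fderiv ℝ g y) y :=
      h1.add (hg.hasFDerivAt.const_mul K)
    have h3 : (fun z => (c * f z).re + K * g z) = fun z => L (f z) + K * g z := rfl
    rw [h3, h2.fderiv]
    simp [hL]
  have hev : (fun y => fderiv ℝ (fun z => (c * u z).re + K * v z) y X) =ᶠ[𝓝 z]
      fun y => (c * fderiv ℝ u y X).re + K * fderiv ℝ v y X := by
    filter_upwards [isOpen_ball.mem_nhds hz] with y hy
    exact hgen ((hu.contDiffAt (isOpen_ball.mem_nhds hy)).differentiableAt (by norm_num))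
      ((hv.contDiffAt (isOpen_ball.mem_nhds hy)).differentiableAt (by norm_num))
  rw [hev.fderiv_eq]
  have hu2 : DifferentiableAt ℝ (fun y => fderiv ℝ u y X) z :=
    (((hu.contDiffAt (isOpen_ball.mem_nhds hz)).fderiv_right (m := 1)
      (by norm_num)).differentiableAt (by norm_num)).clm_apply (differentiableAt_const X)
  have hv2 : DifferentiableAt ℝ (fun y => fderiv ℝ v y X) z :=
    (((hv.contDiffAt (isOpen_ball.mem_nhds hz)).fderiv_right (m := 1)
      (by norm_num)).differentiableAt (by norm_num)).clm_apply (differentiableAt_const X)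
  exact hgen hu2 hv2

/-- PROOF. Let `z₀` be in the closed ball, `c` with `|c| = 1`, `Re (c u z₀) = ‖u z₀‖`, and `w = Re (c u) + K v`. `lap w = Re (c lap u) + K lap v ≥ 0`, `w ≤ A + K` on the sphere. So `‖u z₀‖ ≤ ‖u z₀‖ + K v z₀ = w z₀ ≤ A + K` (`max_lap`). -/
theorem interior {R : ℝ} (hR : 1 < R) {v : ℂ → ℝ} (hv : ContDiffOn ℝ 2 v (ball 0 R))
    (h0 : ∀ z ∈ closedBall (0 : ℂ) 1, 0 ≤ v z) (h1 : ∀ z ∈ closedBall (0 : ℂ) 1, v z ≤ 1)
    {u : ℂ → ℂ} (hu : ContDiffOn ℝ 2 u (ball 0 R)) {K A : ℝ} (hK : 0 ≤ K)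
    (hl : ∀ z ∈ ball (0 : ℂ) 1, ‖lap u z‖ ≤ K * lap v z)
    (hA : ∀ z ∈ sphere (0 : ℂ) 1, ‖u z‖ ≤ A) : ∀ z ∈ closedBall (0 : ℂ) 1, ‖u z‖ ≤ A + K := by
  intro z₀ hz₀
  have hv1 := h1
  have hsub : closedBall (0 : ℂ) 1 ⊆ ball 0 R := closedBall_subset_ball hR
  obtain ⟨c, hc1, hc2⟩ : ∃ c : ℂ, ‖c‖ = 1 ∧ (c * u z₀).re = ‖u z₀‖ := by
    by_cases h : u z₀ = 0
    · exact ⟨1, by simp, by simp [h]⟩
    · have hn : ‖u z₀‖ ≠ 0 := norm_ne_zero_iff.2 h
      refine ⟨(starRingEnd ℂ) (u z₀) / ‖u z₀‖, ?_, ?_⟩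
      · rw [norm_div, RCLike.norm_conj, Complex.norm_real, norm_norm, div_self hn]
      · have h1 : (starRingEnd ℂ) (u z₀) / ‖u z₀‖ * u z₀ = (‖u z₀‖ : ℂ) := by
          have hn' : (‖u z₀‖ : ℂ) ≠ 0 := by exact_mod_cast hn
          rw [div_mul_eq_mul_div, div_eq_iff hn', mul_comm, Complex.mul_conj,
            Complex.normSq_eq_norm_sq]
          push_cast
          ring
        rw [h1, Complex.ofReal_re]
  have hw : ContDiffOn ℝ 2 (fun z => (c * u z).re + K * v z) (ball 0 R) := by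
    have h1 : ContDiffOn ℝ 2 (fun z => c * u z) (ball 0 R) := contDiffOn_const.mul hu
    have h2 : ContDiffOn ℝ 2 (fun z => Complex.reCLM (c * u z)) (ball 0 R) :=
      Complex.reCLM.contDiff.comp_contDiffOn h1
    exact h2.add (contDiffOn_const.mul hv)
  have hlap : ∀ z ∈ ball (0 : ℂ) 1, 0 ≤ lap (fun z => (c * u z).re + K * v z) z := by
    intro z hz
    have hzR : z ∈ ball (0 : ℂ) R := hsub (ball_subset_closedBall hz)
    have h1 : lap (fun z => (c * u z).re + K * v z) z = (c * lap u z).re + K * lap v z := by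
      unfold lap
      rw [R8_lin hv hu hzR 1, R8_lin hv hu hzR Complex.I, mul_add, mul_add, Complex.add_re]
      ring
    rw [h1]
    have h2 := hl z hz
    have h3 : -‖c * lap u z‖ ≤ (c * lap u z).re := by
      have h4 := Complex.abs_re_le_norm (c * lap u z)
      exact (abs_le.1 h4).1
    rw [norm_mul, hc1, one_mul] at h3
    linarith
  have hm : ∀ z ∈ sphere (0 : ℂ) 1, (c * u z).re + K * v z ≤ A + K := by
    intro z hz
    have h1 := hA z hz
    have h2 : (c * u z).re ≤ ‖u z‖ := by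
      have h3 := Complex.re_le_norm (c * u z)
      rw [norm_mul, hc1, one_mul] at h3
      exact h3
    have h4 : K * v z ≤ K * 1 := mul_le_mul_of_nonneg_left (hv1 z (sphere_subset_closedBall hz)) hK
    linarith
  have h := max_lap hR hw hlap hm z₀ hz₀
  have h5 := mul_nonneg hK (h0 z₀ hz₀)
  simp only [hc2] at h
  linarith

end Pool.Agent.MPca0fc2.RC
end

section

/-! The equation `∂̄ b = m` in the plane. -/

set_option autoImplicit false

open Metric Set MeasureTheory Filter Topology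

namespace Pool.Agent.MPca0fc2.RC

private noncomputable def R9_e (t : ℝ) : ℂ := Real.cos t + Real.sin t * Complex.I

private theorem R9_e_cont : Continuous R9_e := by
  unfold R9_e
  fun_prop

private theorem R9_e_deriv (t : ℝ) : HasDerivAt R9_e (Complex.I * R9_e t) t := by
  have h1 : HasDerivAt (fun t : ℝ => (Real.cos t : ℂ)) ((-Real.sin t : ℝ) : ℂ) t :=
    (Real.hasDerivAt_cos t).ofReal_comp
  have h2 : HasDerivAt (fun t : ℝ => (Real.sin t : ℂ)) ((Real.cos t : ℝ) : ℂ) t :=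
    (Real.hasDerivAt_sin t).ofReal_comp
  have h3 := h1.add (h2.mul_const Complex.I)
  have e : ((-Real.sin t : ℝ) : ℂ) + ((Real.cos t : ℝ) : ℂ) * Complex.I =
      Complex.I * R9_e t := by
    unfold R9_e
    push_cast
    linear_combination (-(Complex.sin t)) * Complex.I_sq
  rw [← e]
  exact h3

private theorem R9_e_norm (t : ℝ) : ‖R9_e t‖ = 1 := by
  unfold R9_e
  have : ((Real.cos t : ℂ) + Real.sin t * Complex.I) = Complex.exp (t * Complex.I) := by
    rw [Complex.exp_mul_I, Complex.ofReal_cos, Complex.ofReal_sin]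
  rw [this, Complex.norm_exp_ofReal_mul_I]

private theorem R9_alg (D : ℂ →L[ℝ] ℂ) {r : ℝ} (hr : 0 < r) (t : ℝ) :
    r • ((D 1 + Complex.I * D Complex.I) / 2 / (r * R9_e t)) =
      (1 / 2 : ℂ) * D (R9_e t) + (Complex.I / 2) * D (Complex.I * R9_e t) := by
  have he : R9_e t = Real.cos t • (1 : ℂ) + Real.sin t • Complex.I := by
    unfold R9_e
    simp
  have hie : Complex.I * R9_e t = (-Real.sin t) • (1 : ℂ) + Real.cos t • Complex.I := by
    unfold R9_e
    simp only [Complex.real_smul]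
    push_cast
    linear_combination (Complex.sin t) * Complex.I_sq
  have h1 : D (R9_e t) = Complex.cos t * D 1 + Complex.sin t * D Complex.I := by
    rw [he, map_add, map_smul, map_smul]
    simp only [Complex.real_smul]
    push_cast
    rfl
  have h2 : D (Complex.I * R9_e t) = -Complex.sin t * D 1 + Complex.cos t * D Complex.I := by
    rw [hie, map_add, map_smul, map_smul]
    simp only [Complex.real_smul]
    push_cast
    rfl
  have hne : R9_e t ≠ 0 := by
    intro h0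
    have := R9_e_norm t
    rw [h0, norm_zero] at this
    exact zero_ne_one this
  have hrne : (r : ℂ) ≠ 0 := by exact_mod_cast hr.ne'
  have hinv : (R9_e t) * (Complex.cos t - Complex.sin t * Complex.I) = 1 := by
    unfold R9_e
    push_cast
    have h3 := Complex.cos_sq_add_sin_sq (t : ℂ)
    linear_combination h3 - (Complex.sin t) ^ 2 * Complex.I_sq
  have hinv2 : (R9_e t)⁻¹ = Complex.cos t - Complex.sin t * Complex.I :=
    inv_eq_of_mul_eq_one_right hinv
  rw [h1, h2, Complex.real_smul]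
  have h4 : (r : ℂ) * ((D 1 + Complex.I * D Complex.I) / 2 / (r * R9_e t)) =
      (D 1 + Complex.I * D Complex.I) / 2 * (R9_e t)⁻¹ := by
    field_simp
  rw [h4, hinv2]
  linear_combination (-(Complex.sin t * D Complex.I) / 2) * Complex.I_sq

private theorem R9_comp {φ : ℂ → ℂ} (hφ : ContDiff ℝ 1 φ) (z : ℂ) :
    Continuous (fun p : ℝ × ℝ => fderiv ℝ φ (z + p.1 * R9_e p.2)) := by
  have h1 : Continuous (fderiv ℝ φ) := hφ.continuous_fderiv (by norm_num)
  refine h1.comp ?_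
  have h2 : Continuous (fun p : ℝ × ℝ => R9_e p.2) := R9_e_cont.comp continuous_snd
  fun_prop

private theorem R9_locInt : LocallyIntegrable (fun t : ℂ => t⁻¹) volume := by
  rw [locallyIntegrable_iff]
  intro k hk
  obtain ⟨M, hM⟩ : ∃ M : ℝ, ∀ w ∈ k, ‖w‖ ≤ M := hk.isBounded.exists_norm_le
  have hkM : k ⊆ closedBall (0 : ℂ) |M| := by
    intro w hw
    rw [mem_closedBall_zero_iff]
    exact (hM w hw).trans (le_abs_self M)
  have h1 : IntegrableOn (fun t : ℂ => t⁻¹) (closedBall (0 : ℂ) |M|) volume := by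
    refine ⟨measurable_inv.aestronglyMeasurable, ?_⟩
    rw [hasFiniteIntegral_iff_enorm, ← lintegral_indicator measurableSet_closedBall,
      ← Complex.lintegral_comp_polarCoord_symm]
    have h2 : ∀ p ∈ polarCoord.target, ENNReal.ofReal p.1 •
        (closedBall (0 : ℂ) |M|).indicator (fun a => ‖a⁻¹‖ₑ) (Complex.polarCoord.symm p) ≤
        (Icc 0 |M| ×ˢ Icc (-Real.pi) Real.pi).indicator (fun _ => (1 : ENNReal)) p := by
      intro p hp
      have hp1 : 0 < p.1 := hp.1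
      have hp2 : p.2 ∈ Ioo (-Real.pi) Real.pi := hp.2
      by_cases hmem : Complex.polarCoord.symm p ∈ closedBall (0 : ℂ) |M|
      · rw [indicator_of_mem hmem]
        have hn : ‖Complex.polarCoord.symm p‖ = p.1 := by
          rw [Complex.norm_polarCoord_symm, abs_of_pos hp1]
        have hmem2 : p ∈ Icc 0 |M| ×ˢ Icc (-Real.pi) Real.pi := by
          rw [mem_closedBall_zero_iff, hn] at hmem
          exact ⟨⟨hp1.le, hmem⟩, Ioo_subset_Icc_self hp2⟩
        rw [indicator_of_mem hmem2]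
        have h3 : ‖(Complex.polarCoord.symm p)⁻¹‖ₑ = ENNReal.ofReal (p.1⁻¹) := by
          rw [← ofReal_norm, norm_inv, hn]
        rw [h3, smul_eq_mul, ← ENNReal.ofReal_mul hp1.le, mul_inv_cancel₀ hp1.ne',
          ENNReal.ofReal_one]
      · rw [indicator_of_notMem hmem, smul_zero]
        exact zero_le
    refine lt_of_le_of_lt (setLIntegral_mono' (measurableSet_Ioi.prod measurableSet_Ioo) h2) ?_
    refine lt_of_le_of_lt (setLIntegral_le_lintegral _ _) ?_
    have h4 : MeasurableSet (Icc 0 |M| ×ˢ Icc (-Real.pi) Real.pi) :=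
      measurableSet_Icc.prod measurableSet_Icc
    rw [lintegral_indicator h4, lintegral_const, Measure.restrict_apply_univ, one_mul]
    exact (isCompact_Icc.prod isCompact_Icc).measure_lt_top
  exact h1.mono_set hkM

/-- The formula of Cauchy and Pompeiu for functions with compact support.
PROOF. Polar coordinates around `z`: for `f y = φ (z + y)`, `db φ (z + y) = (1/2) e (∂_r + (i/r) ∂_t) f`, `y = r e`, `e = exp (t I)`, so `db φ (z + y) / y · r = (1/2) (∂_r f + (i/r) ∂_t f)`. The integral over `t` of the second term is `0` (period), and `∫_0^∞ ∂_r f dr = - φ z`. So `∫ db φ (z + y) / y dA = - π φ z` (`Complex.integral_comp_polarCoord_symm` or the measure of polar coordinates in Mathlib). -/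
theorem cauchy_pompeiu {φ : ℂ → ℂ} (hφ : ContDiff ℝ 1 φ) (hc : HasCompactSupport φ) (z : ℂ) :
    ∫ y : ℂ, db φ (z + y) / y = - Real.pi * φ z := by
  have hd : Differentiable ℝ φ := hφ.differentiable (by norm_num)
  obtain ⟨M0, hM0⟩ : ∃ M0 : ℝ, ∀ w ∈ tsupport φ, ‖w‖ ≤ M0 :=
    hc.isCompact.isBounded.exists_norm_le
  set M : ℝ := |M0| + ‖z‖ + 1 with hM
  have hMpos : 0 < M := by positivity
  have hout : ∀ r : ℝ, M ≤ r → ∀ t : ℝ, z + r * R9_e t ∉ tsupport φ := by
    intro r hr t hmem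
    have h1 := hM0 _ hmem
    have h2 : ‖(r : ℂ) * R9_e t‖ = r := by
      rw [norm_mul, R9_e_norm, mul_one, Complex.norm_real, Real.norm_eq_abs,
        abs_of_nonneg (by linarith)]
    have h3 : ‖(r : ℂ) * R9_e t‖ ≤ ‖z + r * R9_e t‖ + ‖z‖ := by
      have : (r : ℂ) * R9_e t = (z + r * R9_e t) - z := by ring
      calc ‖(r : ℂ) * R9_e t‖ = ‖(z + r * R9_e t) - z‖ := by rw [← this]
        _ ≤ _ := norm_sub_le _ _
    have h4 := le_abs_self M0
    rw [h2] at h3
    linarith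
  set g1 : ℝ × ℝ → ℂ := fun p => fderiv ℝ φ (z + p.1 * R9_e p.2) (R9_e p.2) with hg1
  set g2 : ℝ × ℝ → ℂ := fun p => fderiv ℝ φ (z + p.1 * R9_e p.2) (Complex.I * R9_e p.2) with hg2
  have hc1 : Continuous g1 :=
    (R9_comp hφ z).clm_apply (R9_e_cont.comp continuous_snd)
  have hc2 : Continuous g2 :=
    (R9_comp hφ z).clm_apply (continuous_const.mul (R9_e_cont.comp continuous_snd))
  have hS : Ioc 0 M ×ˢ Ioo (-Real.pi) Real.pi ⊆ Icc 0 M ×ˢ Icc (-Real.pi) Real.pi :=
    prod_mono Ioc_subset_Icc_self Ioo_subset_Icc_self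
  have hint : ∀ g : ℝ × ℝ → ℂ, Continuous g →
      IntegrableOn g (Ioc 0 M ×ˢ Ioo (-Real.pi) Real.pi) (volume.prod volume) := by
    intro g hg
    have h1 : IntegrableOn g (Icc 0 M ×ˢ Icc (-Real.pi) Real.pi) (volume.prod volume) :=
      hg.continuousOn.integrableOn_compact (isCompact_Icc.prod isCompact_Icc)
    exact h1.mono_set hS
  have e1 : ∫ y : ℂ, db φ (z + y) / y =
      ∫ p in Ioc 0 M ×ˢ Ioo (-Real.pi) Real.pi,
        ((1 / 2 : ℂ) * g1 p + (Complex.I / 2) * g2 p) := by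
    rw [← Complex.integral_comp_polarCoord_symm]
    have h1 : polarCoord.target = Ioi 0 ×ˢ Ioo (-Real.pi) Real.pi := rfl
    rw [h1]
    have h2 : ∫ p in Ioi (0 : ℝ) ×ˢ Ioo (-Real.pi) Real.pi,
        p.1 • (db φ (z + Complex.polarCoord.symm p) / Complex.polarCoord.symm p) =
        ∫ p in Ioi (0 : ℝ) ×ˢ Ioo (-Real.pi) Real.pi,
        ((1 / 2 : ℂ) * g1 p + (Complex.I / 2) * g2 p) := by
      refine setIntegral_congr_fun (measurableSet_Ioi.prod measurableSet_Ioo) fun p hp => ?_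
      have hp1 : 0 < p.1 := hp.1
      show p.1 • (db φ (z + Complex.polarCoord.symm p) / Complex.polarCoord.symm p) = _
      rw [Complex.polarCoord_symm_apply]
      exact R9_alg (fderiv ℝ φ (z + p.1 * R9_e p.2)) hp1 p.2
    rw [h2]
    refine setIntegral_eq_of_subset_of_forall_sdiff_eq_zero
      (measurableSet_Ioi.prod measurableSet_Ioo) (prod_mono Ioc_subset_Ioi_self subset_rfl) ?_
    intro p hp
    have hpM : M ≤ p.1 := by
      by_contra hcon
      push Not at hcon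
      exact hp.2 ⟨⟨hp.1.1, hcon.le⟩, hp.1.2⟩
    have h3 : fderiv ℝ φ (z + p.1 * R9_e p.2) = 0 := by
      have h4 := hout p.1 hpM p.2
      have h5 : z + p.1 * R9_e p.2 ∉ tsupport (fderiv ℝ φ) :=
        fun hmem => h4 (tsupport_fderiv_subset ℝ hmem)
      exact image_eq_zero_of_notMem_tsupport h5
    simp only [hg1, hg2, h3, zero_apply, mul_zero, add_zero]
  have e2 : ∫ p in Ioc 0 M ×ˢ Ioo (-Real.pi) Real.pi,
        ((1 / 2 : ℂ) * g1 p + (Complex.I / 2) * g2 p) =
      (1 / 2 : ℂ) * (∫ p in Ioc 0 M ×ˢ Ioo (-Real.pi) Real.pi, g1 p) +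
      (Complex.I / 2) * (∫ p in Ioc 0 M ×ˢ Ioo (-Real.pi) Real.pi, g2 p) := by
    rw [integral_add, integral_const_mul, integral_const_mul]
    · exact (hint g1 hc1).const_mul _
    · exact (hint g2 hc2).const_mul _
  have e3 : ∫ p in Ioc 0 M ×ˢ Ioo (-Real.pi) Real.pi, g1 p = (2 * Real.pi : ℝ) • (- φ z) := by
    have h1 : ∫ p in Ioc 0 M ×ˢ Ioo (-Real.pi) Real.pi, g1 p =
        ∫ r in Ioc 0 M, ∫ t in Ioo (-Real.pi) Real.pi, g1 (r, t) :=
      setIntegral_prod g1 (hint g1 hc1)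
    have hsw : Integrable (Function.uncurry fun r t => g1 (r, t))
        ((volume.restrict (Ioc 0 M)).prod (volume.restrict (Ioo (-Real.pi) Real.pi))) := by
      rw [Measure.prod_restrict]
      exact hint g1 hc1
    rw [h1, integral_integral_swap hsw]
    have h2 : ∀ t : ℝ, ∫ r in Ioc 0 M, g1 (r, t) = - φ z := by
      intro t
      rw [← intervalIntegral.integral_of_le hMpos.le]
      have hder : ∀ r ∈ uIcc (0 : ℝ) M, HasDerivAt (fun r : ℝ => φ (z + r * R9_e t))
          (g1 (r, t)) r := by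
        intro r _
        have h3 : HasDerivAt (fun r : ℝ => z + (r : ℂ) * R9_e t) (R9_e t) r := by
          have h4 : HasDerivAt (fun r : ℝ => (r : ℂ)) 1 r := Complex.ofRealCLM.hasDerivAt
          have h5 := (h4.mul_const (R9_e t)).const_add z
          rwa [one_mul] at h5
        exact ((hd _).hasFDerivAt).comp_hasDerivAt r h3
      rw [intervalIntegral.integral_eq_sub_of_hasDerivAt hder]
      · have h6 : φ (z + (M : ℂ) * R9_e t) = 0 :=
          image_eq_zero_of_notMem_tsupport (hout M le_rfl t)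
        rw [h6]
        simp
      · exact (hc1.comp (continuous_id.prodMk continuous_const)).intervalIntegrable _ _
    simp only [h2]
    rw [setIntegral_const]
    congr 1
    rw [Real.volume_real_Ioo_of_le (by linarith [Real.pi_pos])]
    ring
  have e4 : ∫ p in Ioc 0 M ×ˢ Ioo (-Real.pi) Real.pi, g2 p = 0 := by
    have h1 : ∫ p in Ioc 0 M ×ˢ Ioo (-Real.pi) Real.pi, g2 p =
        ∫ r in Ioc 0 M, ∫ t in Ioo (-Real.pi) Real.pi, g2 (r, t) :=
      setIntegral_prod g2 (hint g2 hc2)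
    rw [h1]
    have h2 : ∀ r ∈ Ioc (0 : ℝ) M, ∫ t in Ioo (-Real.pi) Real.pi, g2 (r, t) = 0 := by
      intro r hr
      have hr0 : (r : ℂ) ≠ 0 := by exact_mod_cast hr.1.ne'
      rw [← integral_Ioc_eq_integral_Ioo,
        ← intervalIntegral.integral_of_le (by linarith [Real.pi_pos])]
      have hder : ∀ t ∈ uIcc (-Real.pi) Real.pi,
          HasDerivAt (fun t : ℝ => φ (z + r * R9_e t) / r) (g2 (r, t)) t := by
        intro t _
        have h3 : HasDerivAt (fun t : ℝ => z + (r : ℂ) * R9_e t)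
            ((r : ℂ) * (Complex.I * R9_e t)) t := ((R9_e_deriv t).const_mul (r : ℂ)).const_add z
        have h4 := (((hd _).hasFDerivAt).comp_hasDerivAt t h3).div_const (r : ℂ)
        have h5 : fderiv ℝ φ (z + r * R9_e t) ((r : ℂ) * (Complex.I * R9_e t)) / r =
            g2 (r, t) := by
          have h6 : (r : ℂ) * (Complex.I * R9_e t) = r • (Complex.I * R9_e t) := by
            rw [Complex.real_smul]
          rw [h6, map_smul, Complex.real_smul]
          show (r : ℂ) * fderiv ℝ φ (z + r * R9_e t) (Complex.I * R9_e t) / r =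
            fderiv ℝ φ (z + r * R9_e t) (Complex.I * R9_e t)
          field_simp
        rw [h5] at h4
        exact h4
      rw [intervalIntegral.integral_eq_sub_of_hasDerivAt hder]
      · have h7 : R9_e (-Real.pi) = R9_e Real.pi := by
          unfold R9_e
          simp
        rw [h7, sub_self]
      · exact (hc2.comp (continuous_const.prodMk continuous_id)).intervalIntegrable _ _
    rw [setIntegral_congr_fun measurableSet_Ioc h2]
    simp
  rw [e1, e2, e3, e4, Complex.real_smul]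
  push_cast
  ring

/-- PROOF. `b z = - (1/π) ∫ m (z + y) / y dA(y)`, a convolution of a locally integrable function (`1/y`) with a function of class `C²` with compact support: `b` is of class `C²` and the derivatives may be taken under the integral sign (`HasCompactSupport.contDiff_convolution_right`, `HasCompactSupport.hasFDerivAt_convolution_right`): `db b z = - (1/π) ∫ db m (z + y) / y dA(y) = m z` (`cauchy_pompeiu`). -/
theorem exists_db {m : ℂ → ℂ} (hm : ContDiff ℝ 2 m) (hc : HasCompactSupport m) :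
    ∃ b : ℂ → ℂ, ContDiff ℝ 2 b ∧ ∀ z, db b z = m z := by
  set L : ℂ →L[ℝ] ℂ →L[ℝ] ℂ := ContinuousLinearMap.mul ℝ ℂ with hL
  set f : ℂ → ℂ := fun t => t⁻¹ with hf
  have hloc : LocallyIntegrable f volume := R9_locInt
  have hm1 : ContDiff ℝ 1 m := hm.of_le (by norm_num)
  set c : ℂ → ℂ := MeasureTheory.convolution f m L volume with hcdef
  have hc2 : ContDiff ℝ 2 c := by
    have := hc.contDiff_convolution_right (n := 2) L hloc (by exact_mod_cast hm)
    exact_mod_cast this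
  have hfd : ∀ z X, fderiv ℝ c z X = ∫ t, t⁻¹ * fderiv ℝ m (z - t) X := by
    intro z X
    have h1 := hc.hasFDerivAt_convolution_right L hloc hm1 z
    rw [h1.fderiv, convolution_precompR_apply L hloc (hc.fderiv ℝ)
      (hm1.continuous_fderiv (by norm_num)) z X]
    rfl
  have hI : ∀ z X, Integrable (fun t => t⁻¹ * fderiv ℝ m (z - t) X) := by
    intro z X
    have h1 : HasCompactSupport (fun a => fderiv ℝ m a X) := by
      refine (hc.fderiv ℝ).mono ?_
      intro a ha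
      rw [Function.mem_support] at ha ⊢
      intro h0
      exact ha (by rw [h0]; rfl)
    have h2 : Continuous (fun a => fderiv ℝ m a X) :=
      (hm1.continuous_fderiv (by norm_num)).clm_apply continuous_const
    exact h1.convolutionExists_right L hloc h2 z
  refine ⟨fun z => (1 / Real.pi : ℝ) • c z, hc2.const_smul (1 / Real.pi : ℝ), fun z => ?_⟩
  have hcd : DifferentiableAt ℝ c z := (hc2.differentiable (by norm_num)) z
  have h1 : db (fun z => (1 / Real.pi : ℝ) • c z) z = (1 / Real.pi : ℝ) • db c z := by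
    unfold db
    rw [fderiv_fun_const_smul hcd]
    simp only [smul_apply, Complex.real_smul]
    ring
  have h2 : db c z = ∫ t, t⁻¹ * db m (z - t) := by
    unfold db
    rw [hfd, hfd]
    have h3 : (fun t : ℂ => t⁻¹ * ((fderiv ℝ m (z - t) 1 +
        Complex.I * fderiv ℝ m (z - t) Complex.I) / 2)) =
        fun t => (1 / 2 : ℂ) * (t⁻¹ * fderiv ℝ m (z - t) 1) +
          (Complex.I / 2) * (t⁻¹ * fderiv ℝ m (z - t) Complex.I) := by
      funext t
      ring
    rw [h3, integral_add ((hI z 1).const_mul _) ((hI z Complex.I).const_mul _),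
      integral_const_mul, integral_const_mul]
    ring
  have h4 : ∫ t, t⁻¹ * db m (z - t) = - ∫ y, db m (z + y) / y := by
    rw [← integral_neg_eq_self (fun t => t⁻¹ * db m (z - t)), ← integral_neg]
    refine integral_congr_ae (Eventually.of_forall fun y => ?_)
    show (-y)⁻¹ * db m (z - -y) = -(db m (z + y) / y)
    rw [sub_neg_eq_add, inv_neg]
    ring
  rw [h1, h2, h4, cauchy_pompeiu hm1 hc z, Complex.real_smul]
  have hpi : (Real.pi : ℂ) ≠ 0 := by exact_mod_cast Real.pi_ne_zero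
  push_cast
  field_simp

/-- PROOF. `exists_db` for `χ m`, with a smooth function `χ` which is `1` on `ball 0 R'` and vanishes outside the ball of radius `(R + R') / 2` (`ContDiffBump`). -/
theorem exists_db_disc {R R' : ℝ} (h0 : 0 < R') (h : R' < R) {m : ℂ → ℂ}
    (hm : ContDiffOn ℝ 2 m (ball 0 R)) :
    ∃ b : ℂ → ℂ, ContDiff ℝ 2 b ∧ ∀ z ∈ ball (0 : ℂ) R', db b z = m z := by
  set R'' : ℝ := (R + R') / 2 with hR''
  have hlt1 : R' < R'' := by rw [hR'']; linarith
  have hlt2 : R'' < R := by rw [hR'']; linarith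
  let χ : ContDiffBump (0 : ℂ) := ⟨R', R'', h0, hlt1⟩
  have hχs : HasCompactSupport (χ : ℂ → ℝ) := χ.hasCompactSupport
  have hχt : tsupport (χ : ℂ → ℝ) = closedBall 0 R'' := χ.tsupport_eq
  have hm' : ContDiff ℝ 2 (fun z => χ z • m z) := by
    rw [contDiff_iff_contDiffAt]
    intro z
    by_cases hz : z ∈ ball (0 : ℂ) R
    · exact (χ.contDiffAt).smul ((hm z hz).contDiffAt (isOpen_ball.mem_nhds hz))
    · have hz2 : z ∈ (closedBall (0 : ℂ) R'')ᶜ := by
        intro h2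
        exact hz (closedBall_subset_ball hlt2 h2)
      have hev : (fun z => χ z • m z) =ᶠ[𝓝 z] fun _ => 0 := by
        filter_upwards [isClosed_closedBall.isOpen_compl.mem_nhds hz2] with w hw
        have : χ w = 0 := by
          have h3 : w ∉ tsupport (χ : ℂ → ℝ) := by rw [hχt]; exact hw
          exact image_eq_zero_of_notMem_tsupport h3
        rw [this, zero_smul]
      exact contDiffAt_const.congr_of_eventuallyEq hev
  have hc' : HasCompactSupport (fun z => χ z • m z) := hχs.smul_right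
  obtain ⟨b, hb, hdb⟩ := exists_db hm' hc'
  refine ⟨b, hb, fun z hz => ?_⟩
  rw [hdb z]
  have : χ z = 1 := χ.one_of_mem_closedBall (ball_subset_closedBall hz)
  rw [this, one_smul]

end Pool.Agent.MPca0fc2.RC
end
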