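import Pool.Agent.Lib.MP_ca0fc2_an.Mg.G023

section

/-! Characters of the algebra of bounded holomorphic functions which extend to all the small cells. -/

set_option autoImplicit false

open Metric Set MeasureTheory Filter Topology

namespace Pool.Agent.MPca0fc2.IND

open Pool.Agent.Lib.MP_ca0fc2_an
open Pool.Agent.MPca0fc2.CXS (LocOn)

variable {n : ℕ} {Δ : Set (EuclideanSpace ℂ (Fin n))}

/-- A set `S` of bounded holomorphic functions on `Δ` is free with respect to the values `α` of the functions of `A`: no finite family in `S` is solvable on a cell of functions of `A` around their values. -/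
def Free (Δ : Set (EuclideanSpace ℂ (Fin n))) (A : Set (EuclideanSpace ℂ (Fin n) → ℂ))
    (α : (EuclideanSpace ℂ (Fin n) → ℂ) → ℂ) (S : Set (EuclideanSpace ℂ (Fin n) → ℂ)) : Prop :=
  (∀ g ∈ S, BH Δ (cf g)) ∧ ∀ (N : ℕ) (w : Fin N → EuclideanSpace ℂ (Fin n) → ℂ), (∀ j, w j ∈ S) →
    ∀ (k : ℕ) (a : Fin k → EuclideanSpace ℂ (Fin n) → ℂ), (∀ i, a i ∈ A) → ∀ ε : ℝ, 0 < ε →
      ∀ C : ℝ, ¬ SolvableOn w (cellOn Δ a (fun i => α (a i)) ε) C

/-- PROOF. Zorn's lemma (`zorn_subset_nonempty` or similar): the union of a nonempty chain of free sets is free, since a finite family is contained in one of them. -/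
theorem free_max {A : Set (EuclideanSpace ℂ (Fin n) → ℂ)}
    {α : (EuclideanSpace ℂ (Fin n) → ℂ) → ℂ} {S : Set (EuclideanSpace ℂ (Fin n) → ℂ)}
    (hS : Free Δ A α S) : ∃ M, S ⊆ M ∧ Free Δ A α M ∧ ∀ M', M ⊆ M' → Free Δ A α M' → M' = M := by
  obtain ⟨M, hSM, hMf, hMm⟩ := zorn_subset_nonempty {T | Free Δ A α T} (by
    intro c hc hch hne
    refine ⟨⋃₀ c, ?_, fun s hs => Set.subset_sUnion_of_mem hs⟩
    refine ⟨?_, ?_⟩
    · rintro g ⟨s, hs, hgs⟩
      exact (hc hs).1 g hgs
    · intro N w hw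
      have key : ∀ t : Finset (Fin N), ∃ s ∈ c, ∀ j ∈ t, w j ∈ s := by
        intro t
        induction t using Finset.induction_on with
        | empty =>
          obtain ⟨s, hs⟩ := hne
          exact ⟨s, hs, fun j hj => absurd hj (Finset.notMem_empty j)⟩
        | insert b t _ ih =>
          obtain ⟨s, hs, hst⟩ := ih
          obtain ⟨s', hs', hbs'⟩ := hw b
          rcases hch.total hs hs' with h | h
          · refine ⟨s', hs', fun j hj => ?_⟩
            rcases Finset.mem_insert.1 hj with rfl | hj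
            · exact hbs'
            · exact h (hst j hj)
          · refine ⟨s, hs, fun j hj => ?_⟩
            rcases Finset.mem_insert.1 hj with rfl | hj
            · exact h hbs'
            · exact hst j hj
      obtain ⟨s, hs, hws⟩ := key Finset.univ
      exact (hc hs).2 N w fun j => hws j (Finset.mem_univ j)) S hS
  exact ⟨M, hSM, hMf, fun M' h h' => Set.Subset.antisymm (hMm h' h) h⟩


/-- Families over a finite type are not solvable on the cells. -/
private theorem N2_fam {A : Set (EuclideanSpace ℂ (Fin n) → ℂ)}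
    {α : (EuclideanSpace ℂ (Fin n) → ℂ) → ℂ} {M : Set (EuclideanSpace ℂ (Fin n) → ℂ)}
    (hM : Free Δ A α M) {ι : Type} [Fintype ι] (W : ι → EuclideanSpace ℂ (Fin n) → ℂ)
    (hW : ∀ i, W i ∈ M) (k : ℕ) (a : Fin k → EuclideanSpace ℂ (Fin n) → ℂ) (ha : ∀ i, a i ∈ A)
    (ε : ℝ) (hε : 0 < ε) (H : ι → EuclideanSpace ℂ (Fin n) → ℂ)
    (h1 : ∀ i, DifferentiableOn ℂ (H i) (cellOn Δ a (fun i => α (a i)) ε))
    (h2 : ∀ i, ∃ C, ∀ z ∈ cellOn Δ a (fun i => α (a i)) ε, ‖H i z‖ ≤ C)
    (h3 : ∀ z ∈ cellOn Δ a (fun i => α (a i)) ε, ∑ i, W i z * H i z = 1) : False := by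
  classical
  choose C hC using h2
  obtain ⟨e⟩ : Nonempty (Fin (Fintype.card ι) ≃ ι) := ⟨(Fintype.equivFin ι).symm⟩
  refine hM.2 (Fintype.card ι) (fun j => W (e j)) (fun j => hW _) k a ha ε hε (∑ i, |C i|)
    ⟨fun j => H (e j), fun j => h1 _, fun j z hz => ?_, fun z hz => ?_⟩
  · refine ((hC _ z hz).trans (le_abs_self _)).trans ?_
    exact Finset.single_le_sum (f := fun i => |C i|) (fun _ _ => abs_nonneg _)
      (Finset.mem_univ (e j))
  · rw [← h3 z hz]
    exact Equiv.sum_comp e (fun i => W i z * H i z)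

/-- A maximal free set is an ideal.
PROOF. Let `g = ∑ w i * h i` on `Δ`. The set `insert g M` is free: if a finite family in it is solvable on a cell, then (replacing `g` by `∑ w i * h i`, `h i` bounded) the family of the members in `M` together with the `w i` is solvable on this cell. So `insert g M = M`. (`solv_map'` in `CXSLoc.lean` is useful.) -/
theorem free_ideal {A : Set (EuclideanSpace ℂ (Fin n) → ℂ)}
    {α : (EuclideanSpace ℂ (Fin n) → ℂ) → ℂ} {M : Set (EuclideanSpace ℂ (Fin n) → ℂ)}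
    (hM : Free Δ A α M) (hmax : ∀ M', M ⊆ M' → Free Δ A α M' → M' = M) {N : ℕ}
    {w h : Fin N → EuclideanSpace ℂ (Fin n) → ℂ} (hw : ∀ j, w j ∈ M) (hh : ∀ j, BH Δ (cf (h j)))
    {g : EuclideanSpace ℂ (Fin n) → ℂ} (hg : ∀ z ∈ Δ, g z = ∑ j, w j z * h j z) : g ∈ M := by
  classical
  have hgB : BH Δ (cf g) := by
    refine BH.congr (F := fun t z => ∑ j, cf (w j) t z * cf (h j) t z)
      (BH.sum fun j _ => (hM.1 _ (hw j)).mul (hh j)) fun t z hz => hg z hz
  have hfree : Free Δ A α (insert g M) := by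
    refine ⟨?_, ?_⟩
    · rintro x (rfl | hx)
      · exact hgB
      · exact hM.1 x hx
    · rintro N' w' hw' k a ha ε hε C ⟨H', d1, d2, d3⟩
      have hsub : cellOn Δ a (fun i => α (a i)) ε ⊆ Δ := fun z hz => hz.1
      refine N2_fam hM (ι := {i : Fin N' // w' i ∈ M} ⊕ Fin N)
        (Sum.elim (fun i => w' i.1) w) ?_ k a ha ε hε
        (Sum.elim (fun i => H' i.1) (fun j z =>
          h j z * ∑ i ∈ Finset.univ.filter (fun i => w' i ∉ M), H' i z)) ?_ ?_ ?_
      · rintro (i | j)
        · exact i.2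
        · exact hw j
      · rintro (i | j)
        · exact d1 i.1
        · exact (((hh j).holo ()).mono hsub).fun_mul
            (DifferentiableOn.fun_sum fun i _ => d1 i)
      · rintro (i | j)
        · exact ⟨C, d2 i.1⟩
        · obtain ⟨B, hB0, hB⟩ := (hh j).bdd'
          refine ⟨B * ∑ i ∈ Finset.univ.filter (fun i => w' i ∉ M), C, fun z hz => ?_⟩
          show ‖h j z * ∑ i ∈ Finset.univ.filter (fun i => w' i ∉ M), H' i z‖ ≤ _
          rw [norm_mul]
          refine mul_le_mul (hB () z (hsub hz)) ?_ (norm_nonneg _) hB0.le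
          exact (norm_sum_le _ _).trans (Finset.sum_le_sum fun i _ => d2 i z hz)
      · intro z hz
        have e1 : ∑ i : {i : Fin N' // w' i ∈ M}, w' i.1 z * H' i.1 z =
            ∑ i ∈ Finset.univ.filter (fun i => w' i ∈ M), w' i z * H' i z :=
          (Finset.sum_subtype _ (by simp) (fun i => w' i z * H' i z)).symm
        have e2 : ∑ j, w j z * (h j z * ∑ i ∈ Finset.univ.filter (fun i => w' i ∉ M), H' i z) =
            ∑ i ∈ Finset.univ.filter (fun i => w' i ∉ M), w' i z * H' i z := by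
          have e3 : ∀ j, w j z * (h j z *
              ∑ i ∈ Finset.univ.filter (fun i => w' i ∉ M), H' i z) =
              (w j z * h j z) * ∑ i ∈ Finset.univ.filter (fun i => w' i ∉ M), H' i z :=
            fun j => by ring
          simp only [e3]
          rw [← Finset.sum_mul, ← hg z (hsub hz), Finset.mul_sum]
          refine Finset.sum_congr rfl fun i hi => ?_
          have hi2 := (Finset.mem_filter.1 hi).2
          have hi3 : w' i = g := (hw' i).resolve_right hi2
          rw [hi3]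
        rw [Fintype.sum_sum_type]
        simp only [Sum.elim_inl, Sum.elim_inr]
        rw [e1, e2, Finset.sum_filter_add_sum_filter_not]
        exact d3 z hz
  have := hmax _ (Set.subset_insert g M) hfree
  rw [← this]
  exact Set.mem_insert g M

end Pool.Agent.MPca0fc2.IND
end

section

/-! Characters of the algebra of bounded holomorphic functions which extend to all the small cells. -/

set_option autoImplicit false

open Metric Set MeasureTheory Filter Topology

namespace Pool.Agent.MPca0fc2.IND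

open Pool.Agent.Lib.MP_ca0fc2_an
open Pool.Agent.MPca0fc2.CXS (LocOn)

variable {n : ℕ} {Δ : Set (EuclideanSpace ℂ (Fin n))}

/-- A character does not kill a solvable family. -/
private theorem N2b_char {E : Set (EuclideanSpace ℂ (Fin n))} (Ψ : Char E Unit) {N : ℕ}
    {f : Fin N → EuclideanSpace ℂ (Fin n) → ℂ} (hf : ∀ j, BH E (cf (f j))) {C : ℝ}
    (hs : SolvableOn f E C) (h0 : ∀ j, Ψ.φ (cf (f j)) = 0) : False := by
  obtain ⟨h, hd, hb, hs⟩ := hs
  have hBh : ∀ j, BH E (cf (h j)) := fun j => ⟨fun _ => hd j, C, fun _ z hz => hb j z hz⟩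
  have h1 : Ψ.φ (fun t z => ∑ j ∈ Finset.univ, cf (f j) t z * cf (h j) t z) = 0 := by
    rw [Char.map_sum Ψ fun j _ => (hf j).mul (hBh j)]
    apply Finset.sum_eq_zero
    intro j _
    rw [Ψ.map_mul (hf j) (hBh j), h0, zero_mul]
  have h2 : Ψ.φ (fun t z => ∑ j ∈ Finset.univ, cf (f j) t z * cf (h j) t z) = 1 := by
    rw [Char.congr Ψ (BH.const (Δ := E) (I := Unit) 1) (fun _ z hz => hs z hz), Ψ.map_const]
  rw [h1] at h2
  exact zero_ne_one h2

private theorem N2b_min {ι : Type} (t : Finset ι) {ε : ι → ℝ} (h : ∀ i, 0 < ε i) :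
    ∃ r : ℝ, 0 < r ∧ ∀ i ∈ t, r ≤ ε i := by
  classical
  induction t using Finset.induction_on with
  | empty => exact ⟨1, one_pos, fun i hi => absurd hi (Finset.notMem_empty i)⟩
  | insert a s _ ih =>
    obtain ⟨r, h1, h2⟩ := ih
    refine ⟨min r (ε a), lt_min h1 (h a), fun i hi => ?_⟩
    rcases Finset.mem_insert.mp hi with rfl | hi
    · exact min_le_right _ _
    · exact (min_le_left _ _).trans (h2 i hi)

private theorem N2b_bh_mono {Δ E : Set (EuclideanSpace ℂ (Fin n))}
    {F : EuclideanSpace ℂ (Fin n) → ℂ} (h : BH Δ (cf F)) (hE : E ⊆ Δ) : BH E (cf F) := by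
  obtain ⟨C, hC⟩ := h.bdd
  exact ⟨fun i => (h.holo i).mono hE, C, fun i z hz => hC i z (hE hz)⟩

/-- The data for one value. -/
private theorem N2b_one {A : Set (EuclideanSpace ℂ (Fin n) → ℂ)}
    {α : (EuclideanSpace ℂ (Fin n) → ℂ) → ℂ} {M : Set (EuclideanSpace ℂ (Fin n) → ℂ)}
    (hM : Free Δ A α M) (hmax : ∀ M', M ⊆ M' → Free Δ A α M' → M' = M)
    {G : EuclideanSpace ℂ (Fin n) → ℂ} (hG : BH Δ (cf G)) (hGM : G ∉ M) :
    ∃ (N : ℕ) (W : Fin N → EuclideanSpace ℂ (Fin n) → ℂ) (k : ℕ)
      (a : Fin k → EuclideanSpace ℂ (Fin n) → ℂ) (ε C : ℝ), (∀ j, W j ∈ M) ∧ (∀ i, a i ∈ A) ∧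
      0 < ε ∧ 0 ≤ C ∧
      SolvableOn (Fin.append (fun _ : Fin 1 => G) W) (cellOn Δ a (fun i => α (a i)) ε) C := by
  classical
  by_contra hcon
  apply hGM
  have hfree : Free Δ A α (insert G M) := by
    refine ⟨?_, ?_⟩
    · rintro x (rfl | hx)
      · exact hG
      · exact hM.1 x hx
    · intro N w hw k a ha ε hε C hs
      apply hcon
      obtain ⟨e⟩ : Nonempty (Fin (Fintype.card {i : Fin N // w i ∈ M}) ≃
          {i : Fin N // w i ∈ M}) := ⟨(Fintype.equivFin _).symm⟩
      refine ⟨_, fun j => w (e j).1, k, a, ε, N * |C|, fun j => (e j).2, ha, hε,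
        by positivity, ?_⟩
      refine CXS.solv_map' (fun i => if hi : w i ∈ M then Fin.natAdd 1 (e.symm ⟨i, hi⟩)
        else Fin.castAdd _ 0) (fun i z _ => ?_) hs
      by_cases hi : w i ∈ M
      · simp only [hi, dite_true]
        rw [Fin.append_right, Equiv.apply_symm_apply]
      · simp only [hi, dite_false]
        rw [Fin.append_left, (hw i).resolve_right hi]
  have := hmax _ (Set.subset_insert G M) hfree
  rw [← this]
  exact Set.mem_insert G M

/-- The values modulo a maximal free set.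
PROOF. Suppose that `g - lam ∉ M` for all `lam`. Then, for each `lam`, `insert (g - lam) M` is not free: there are a finite family `w` in `M` and a cell (functions `a`, radius `ε`) such that `w` together with `g - lam` is solvable on the cell, with some constant `C ≥ 0` (if `g - lam` occurs several times in the family, merge it: `solv_map'`). By `solv_pert` the same holds (with `2 C`) for `g - lam'`, `‖lam' - lam‖ ≤ η`.
The closed disc of radius `sup |g| + 1` is covered by finitely many of these discs. Take all the families together (`W`) and the intersection `E` of all the cells (which is a cell: all the functions `a` together, the least `ε`). So for each `lam` in the closed disc the family `(W, g - lam)` is solvable on `E`. `E` is open (`isOpen_cellOn`). Let `Ψ` be a character of `H^∞(E)` (`Char E Unit`), `lam = Ψ g`, `‖lam‖ ≤ sup |g|`; `Ψ (g - lam) = 0`, so some `Ψ (W j) ≠ 0`.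
By `unimod_of_chars` (`INDom.lean`) `W` is solvable on `E`, but `M` is free. -/
theorem free_value (hΔ : IsOpen Δ) {A : Set (EuclideanSpace ℂ (Fin n) → ℂ)}
    (hAH : ∀ a ∈ A, IsHinf Δ a)
    {α : (EuclideanSpace ℂ (Fin n) → ℂ) → ℂ} {M : Set (EuclideanSpace ℂ (Fin n) → ℂ)}
    (hM : Free Δ A α M) (hmax : ∀ M', M ⊆ M' → Free Δ A α M' → M' = M)
    {g : EuclideanSpace ℂ (Fin n) → ℂ} (hg : BH Δ (cf g)) : ∃ lam : ℂ, (fun z => g z - lam) ∈ M := by
  classical
  by_contra hcon
  push Not at hcon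
  obtain ⟨G, hGdef⟩ : ∃ G : ℂ → EuclideanSpace ℂ (Fin n) → ℂ, G = fun lam z => g z - lam :=
    ⟨_, rfl⟩
  have hGB : ∀ lam, BH Δ (cf (G lam)) := fun lam => by
    rw [hGdef]
    exact hg.sub (BH.const _)
  have hGM : ∀ lam, G lam ∉ M := fun lam => by
    rw [hGdef]
    exact hcon lam
  choose N W k a ε C hW ha hε hC hs using fun lam => N2b_one hM hmax (hGB lam) (hGM lam)
  -- perturbation
  have hpert : ∀ lam, ∃ η : ℝ, 0 < η ∧ ∀ lam', ‖lam' - lam‖ ≤ η →
      SolvableOn (Fin.append (fun _ : Fin 1 => G lam') (W lam))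
        (cellOn Δ (a lam) (fun i => α (a lam i)) (ε lam)) (2 * C lam) := by
    intro lam
    refine ⟨1 / (2 * ((1 + N lam : ℕ) * C lam + 1)), ?_, fun lam' hlam => ?_⟩
    · have := hC lam
      positivity
    · have hsub : cellOn Δ (a lam) (fun i => α (a lam i)) (ε lam) ⊆ Δ := fun z hz => hz.1
      have hd : ∀ x, ∀ j, DifferentiableOn ℂ (Fin.append (fun _ : Fin 1 => G x) (W lam) j)
          (cellOn Δ (a lam) (fun i => α (a lam i)) (ε lam)) := by
        intro x j
        refine Fin.addCases (fun i => ?_) (fun j => ?_) j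
        · rw [Fin.append_left]
          exact ((hGB x).holo ()).mono hsub
        · rw [Fin.append_right]
          exact ((hM.1 _ (hW lam j)).holo ()).mono hsub
      refine solv_pert (η := 1 / (2 * ((1 + N lam : ℕ) * C lam + 1))) (hs lam) (hd lam') (hd lam)
        (hC lam) ?_ ?_
      · have h1 : 0 ≤ ((1 + N lam : ℕ) : ℝ) * C lam := mul_nonneg (Nat.cast_nonneg _) (hC lam)
        rw [mul_one_div, div_le_iff₀ (by positivity)]
        linarith
      · intro j
        have hη : 0 ≤ 1 / (2 * (((1 + N lam : ℕ) : ℝ) * C lam + 1)) := by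
          have := hC lam
          positivity
        refine Fin.addCases (fun i => ?_) (fun j => ?_) j
        · intro z _
          rw [Fin.append_left, Fin.append_left, hGdef]
          have : g z - lam - (g z - lam') = lam' - lam := by ring
          show ‖g z - lam - (g z - lam')‖ ≤ _
          rw [this]
          exact hlam
        · intro z _
          rw [Fin.append_right, Fin.append_right, sub_self, norm_zero]
          exact hη
  choose η hη hper using hpert
  obtain ⟨B, hB0, hB⟩ := hg.bdd'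
  obtain ⟨t, -, ht⟩ := (isCompact_closedBall (0 : ℂ) B).elim_nhds_subcover
    (fun l => Metric.ball l (η l)) (fun l _ => Metric.ball_mem_nhds l (hη l))
  obtain ⟨r, hr, hrt⟩ := N2b_min t hε
  obtain ⟨e⟩ : Nonempty (Fin (Fintype.card (Σ l : t, Fin (N l))) ≃ Σ l : t, Fin (N l)) :=
    ⟨(Fintype.equivFin _).symm⟩
  obtain ⟨e'⟩ : Nonempty (Fin (Fintype.card (Σ l : t, Fin (k l))) ≃ Σ l : t, Fin (k l)) :=
    ⟨(Fintype.equivFin _).symm⟩
  obtain ⟨V, hV⟩ : ∃ V : (Σ l : t, Fin (N l)) → EuclideanSpace ℂ (Fin n) → ℂ,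
    V = fun x => W x.1 x.2 := ⟨_, rfl⟩
  obtain ⟨b, hb⟩ : ∃ b : (Σ l : t, Fin (k l)) → EuclideanSpace ℂ (Fin n) → ℂ,
    b = fun x => a x.1 x.2 := ⟨_, rfl⟩
  have hVM : ∀ x, V x ∈ M := fun x => by rw [hV]; exact hW _ _
  have hbA : ∀ x, b x ∈ A := fun x => by rw [hb]; exact ha _ _
  obtain ⟨E, hE⟩ : ∃ E, E = cellOn Δ (fun j => b (e' j)) (fun j => α (b (e' j))) r := ⟨_, rfl⟩
  have hEΔ : E ⊆ Δ := by rw [hE]; exact fun z hz => hz.1
  have hEo : IsOpen E := by
    rw [hE]
    exact CXS.isOpen_cellOn hΔ (fun i => (hAH _ (hbA _)).1) _ _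
  have hEsub : ∀ l ∈ t, E ⊆ cellOn Δ (a l) (fun i => α (a l i)) (ε l) := by
    intro l hl z hz
    rw [hE] at hz
    refine ⟨hz.1, fun i => ?_⟩
    have h1 := hz.2 (e'.symm ⟨⟨l, hl⟩, i⟩)
    simp only [Equiv.apply_symm_apply, hb] at h1
    exact h1.trans_le (hrt l hl)
  have hsol : ∃ C, SolvableOn (fun j => V (e j)) E C := by
    refine unimod_of_chars hEo (fun j => N2b_bh_mono (hM.1 _ (hVM _)) hEΔ) fun Ψ => ?_
    by_contra hall
    push Not at hall
    have hgE : BH E (cf g) := N2b_bh_mono hg hEΔ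
    have hlamB : ‖Ψ.φ (cf g)‖ ≤ B := Ψ.bound hgE hB0.le fun i z hz => hB i z (hEΔ hz)
    have hmem : Ψ.φ (cf g) ∈ Metric.closedBall (0 : ℂ) B := by
      rw [mem_closedBall_zero_iff]
      exact hlamB
    obtain ⟨l, hl⟩ := Set.mem_iUnion.1 (ht hmem)
    obtain ⟨hlt, hl2⟩ := Set.mem_iUnion.1 hl
    rw [Metric.mem_ball, dist_eq_norm] at hl2
    have h1 := CXS.solv_sub (hper l _ hl2.le) (hEsub l hlt) le_rfl
    refine N2b_char Ψ (fun j => ?_) h1 (fun j => ?_)
    · refine Fin.addCases (fun i => ?_) (fun j => ?_) j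
      · rw [Fin.append_left]
        exact N2b_bh_mono (hGB _) hEΔ
      · rw [Fin.append_right]
        exact N2b_bh_mono (hM.1 _ (hW l j)) hEΔ
    · refine Fin.addCases (fun i => ?_) (fun j => ?_) j
      · rw [Fin.append_left, hGdef]
        have h2 := Char.map_sub Ψ hgE (BH.const (Δ := E) (I := Unit) (Ψ.φ (cf g)))
        rw [Ψ.map_const, sub_self] at h2
        exact h2
      · rw [Fin.append_right]
        have h2 := hall (e.symm ⟨⟨l, hlt⟩, j⟩)
        simp only [Equiv.apply_symm_apply, hV] at h2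
        exact h2
  obtain ⟨C', hC'⟩ := hsol
  rw [hE] at hC'
  exact hM.2 _ _ (fun j => hVM (e j)) _ _ (fun j => hbA (e' j)) r hr C' hC'

end Pool.Agent.MPca0fc2.IND
end

section

/-! Characters of the algebra of bounded holomorphic functions which extend to all the small cells. -/

set_option autoImplicit false

open Metric Set MeasureTheory Filter Topology

namespace Pool.Agent.MPca0fc2.IND

open Pool.Agent.Lib.MP_ca0fc2_an
open Pool.Agent.MPca0fc2.CXS (LocOn)

variable {n : ℕ} {Δ : Set (EuclideanSpace ℂ (Fin n))}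

theorem N3_bh_mono {Δ Δ' : Set (EuclideanSpace ℂ (Fin n))} (h : Δ' ⊆ Δ)
    {F : Unit → EuclideanSpace ℂ (Fin n) → ℂ} (hF : BH Δ F) : BH Δ' F := by
  obtain ⟨C, hC⟩ := hF.bdd
  exact ⟨fun i => (hF.holo i).mono h, C, fun i z hz => hC i z (h hz)⟩

/-- a maximal free set gives a character. -/
theorem N3_char (hΔ : IsOpen Δ) {A : Set (EuclideanSpace ℂ (Fin n) → ℂ)}
    (hAH : ∀ a ∈ A, IsHinf Δ a) {α : (EuclideanSpace ℂ (Fin n) → ℂ) → ℂ}
    {M : Set (EuclideanSpace ℂ (Fin n) → ℂ)} (hM : Free Δ A α M)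
    (hmax : ∀ M', M ⊆ M' → Free Δ A α M' → M' = M) :
    ∃ Φ : Char Δ Unit, ∀ g, BH Δ (cf g) → ∀ lam : ℂ, (fun z => g z - lam) ∈ M →
      Φ.φ (cf g) = lam := by
  classical
  have hval : ∀ g : EuclideanSpace ℂ (Fin n) → ℂ, BH Δ (cf g) →
      ∃ lam : ℂ, (fun z => g z - lam) ∈ M := fun g hg => free_value hΔ hAH hM hmax hg
  -- a function which is bounded below is not in `M`
  have hinv : ∀ g : EuclideanSpace ℂ (Fin n) → ℂ, ∀ δ : ℝ, 0 < δ → (∀ z ∈ Δ, δ ≤ ‖g z‖) →
      g ∉ M := by
    intro g δ hδ hg hgM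
    have hne : ∀ z ∈ Δ, g z ≠ 0 := by
      intro z hz h0
      have h1 := hg z hz
      rw [h0, norm_zero] at h1
      linarith
    refine hM.2 1 (fun _ => g) (fun _ => hgM) 0 (fun i => i.elim0) (fun i => i.elim0) 1
      one_pos (1 / δ) ?_
    refine ⟨fun _ z => (g z)⁻¹, fun _ => ?_, fun _ z hz => ?_, fun z hz => ?_⟩
    · refine DifferentiableOn.inv (((hM.1 g hgM).holo ()).mono fun z hz => hz.1) fun z hz => ?_
      exact hne z hz.1
    · rw [norm_inv, one_div]
      exact inv_anti₀ hδ (hg z hz.1)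
    · rw [Fin.sum_univ_one]
      exact mul_inv_cancel₀ (hne z hz.1)
  have hcomb : ∀ w1 w2 h1 h2 g : EuclideanSpace ℂ (Fin n) → ℂ, w1 ∈ M → w2 ∈ M →
      BH Δ (cf h1) → BH Δ (cf h2) → (∀ z ∈ Δ, g z = w1 z * h1 z + w2 z * h2 z) → g ∈ M := by
    intro w1 w2 h1 h2 g hw1 hw2 hh1 hh2 hg
    refine free_ideal hM hmax (w := ![w1, w2]) (h := ![h1, h2]) ?_ ?_ ?_
    · intro j
      fin_cases j
      · exact hw1
      · exact hw2
    · intro j
      fin_cases j
      · exact hh1
      · exact hh2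
    · intro z hz
      rw [Fin.sum_univ_two]
      exact hg z hz
  have h0M : ∀ g : EuclideanSpace ℂ (Fin n) → ℂ, (∀ z ∈ Δ, g z = 0) → g ∈ M := by
    intro g hg
    refine free_ideal hM hmax (N := 0) (w := fun i => i.elim0) (h := fun i => i.elim0)
      (fun j => j.elim0) (fun j => j.elim0) ?_
    intro z hz
    rw [hg z hz, Finset.univ_eq_empty, Finset.sum_empty]
  -- uniqueness
  have huniq : ∀ g : EuclideanSpace ℂ (Fin n) → ℂ, ∀ lam lam' : ℂ, (fun z => g z - lam) ∈ M →
      (fun z => g z - lam') ∈ M → lam = lam' := by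
    intro g lam lam' h1 h2
    by_contra hne
    have h3 : (fun _ : EuclideanSpace ℂ (Fin n) => lam' - lam) ∈ M := by
      refine hcomb _ _ (fun _ => 1) (fun _ => -1) _ h1 h2 (BH.const 1) (BH.const (-1)) ?_
      intro z _
      ring
    refine hinv _ ‖lam' - lam‖ ?_ (fun z _ => le_rfl) h3
    rw [norm_pos_iff, sub_ne_zero]
    exact fun h => hne h.symm
  let val : (EuclideanSpace ℂ (Fin n) → ℂ) → ℂ := fun g =>
    if h : BH Δ (cf g) then (hval g h).choose else 0
  have hval1 : ∀ g, BH Δ (cf g) → (fun z => g z - val g) ∈ M := by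
    intro g hg
    have h1 : val g = (hval g hg).choose := dif_pos hg
    rw [h1]
    exact (hval g hg).choose_spec
  have key : ∀ g, BH Δ (cf g) → ∀ lam : ℂ, (fun z => g z - lam) ∈ M → val g = lam :=
    fun g hg lam hlam => huniq g _ _ (hval1 g hg) hlam
  refine ⟨{ φ := fun F => val (F ())
            map_add := ?_
            map_mul := ?_
            map_const := ?_
            bound := ?_ }, fun g hg lam hlam => key g hg lam hlam⟩
  · intro F G hF hG
    refine key (fun z => F () z + G () z) (hF.add hG) _ ?_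
    refine hcomb _ _ (fun _ => 1) (fun _ => 1) _ (hval1 (F ()) hF) (hval1 (G ()) hG)
      (BH.const 1) (BH.const 1) ?_
    intro z _
    ring
  · intro F G hF hG
    refine key (fun z => F () z * G () z) (hF.mul hG) _ ?_
    refine hcomb _ _ (G ()) (fun _ => val (F ())) _ (hval1 (F ()) hF) (hval1 (G ()) hG)
      hG (BH.const _) ?_
    intro z _
    ring
  · intro c
    refine key (fun _ => c) (BH.const c) _ (h0M _ fun z _ => ?_)
    exact sub_self c
  · intro F hF C hC0 hFC
    by_contra hcon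
    have h1 : C < ‖val (F ())‖ := not_le.1 hcon
    refine hinv _ (‖val (F ())‖ - C) (by linarith) ?_ (hval1 (F ()) hF)
    intro z hz
    have h2 := norm_sub_norm_le (val (F ())) (F () z)
    have h3 := hFC () z hz
    rw [norm_sub_rev] at h2
    linarith

/-- Extension of a character to a cell.
PROOF. Let `Δ₁` be the cell, `α g = Φ.φ (cf g)`, and let `S` be the set of the functions `g` with `BH Δ (cf g)` and `α g = 0`. `S` is free with respect to `Δ₁`, `A`, `α`: a cell of `Δ₁` with respect to functions `b`, with radius `ε'`, contains the cell of `Δ` with respect to `b` and `a`, with the radius `min ε' s`, so this follows from `hE` (`SolvableOn` is inherited by subsets).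
Let `M` be a maximal free set which contains `S` (`free_max`). For each `g` with `BH Δ₁ (cf g)` there is a `lam` with `g - lam ∈ M` (`free_value`), and it is unique: if `g - lam` and `g - lam'` are in `M`, `lam ≠ lam'`, then these two functions are solvable on `Δ₁` (their difference is a constant, not `0`), contradiction. Let `Φ₁ g = lam` (and `0` if not `BH`; the value depends on `g` on `Δ₁` only, by `free_ideal` with `h = 1`).
By `free_ideal`: `Φ₁` is additive and multiplicative (`g g' - lam lam' = (g - lam) g' + lam (g' - lam')`), `Φ₁ c = c` (`0 ∈ M`). Bound: if `‖g‖ ≤ C` on `Δ₁` and `‖lam‖ > C` then `g - lam` is invertible, so it is not in a free set. `Φ₁ g = Φ g` for `BH Δ (cf g)`: `g - Φ g ∈ S ⊆ M`.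
`Ext Δ₁ A Φ₁`: if `Φ₁ (w j) = 0` then `w j ∈ M`; `M` is free, and `Φ₁ a = Φ a` for `a ∈ A`. -/
theorem exists_ext (hΔ : IsOpen Δ) {A : Set (EuclideanSpace ℂ (Fin n) → ℂ)}
    (hAH : ∀ a ∈ A, IsHinf Δ a) {Φ : Char Δ Unit} (hE : Ext Δ A Φ) {k : ℕ}
    {a : Fin k → EuclideanSpace ℂ (Fin n) → ℂ} (ha : ∀ i, a i ∈ A) {s : ℝ} (hs : 0 < s) :
    ∃ Φ₁ : Char (cellOn Δ a (fun i => Φ.φ (cf (a i))) s) Unit,
      Ext (cellOn Δ a (fun i => Φ.φ (cf (a i))) s) A Φ₁ ∧
      ∀ g, BH Δ (cf g) → Φ₁.φ (cf g) = Φ.φ (cf g) := by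
  have hsub : cellOn Δ a (fun i => Φ.φ (cf (a i))) s ⊆ Δ := fun z hz => hz.1
  have hopen : IsOpen (cellOn Δ a (fun i => Φ.φ (cf (a i))) s) :=
    CXS.isOpen_cellOn hΔ (fun i => (hAH _ (ha i)).1) _ _
  have hAH1 : ∀ b ∈ A, IsHinf (cellOn Δ a (fun i => Φ.φ (cf (a i))) s) b := by
    intro b hb
    obtain ⟨h1, K, hK⟩ := hAH b hb
    exact ⟨h1.mono hsub, K, fun z hz => hK z (hsub hz)⟩
  have hS : Free (cellOn Δ a (fun i => Φ.φ (cf (a i))) s) A (fun g => Φ.φ (cf g))
      {g | BH Δ (cf g) ∧ Φ.φ (cf g) = 0} := by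
    refine ⟨fun g hg => N3_bh_mono hsub hg.1, ?_⟩
    intro N w hw k' b hb ε hε C hsol
    refine hE N w (fun j => (hw j).1) (fun j => (hw j).2) (k' + k) (Fin.append b a) ?_
      (min ε s) (lt_min hε hs) C ?_
    · intro i
      refine Fin.addCases (fun j => ?_) (fun j => ?_) i
      · rw [Fin.append_left]
        exact hb j
      · rw [Fin.append_right]
        exact ha j
    · refine CXS.solv_sub hsol ?_ le_rfl
      rintro z ⟨hz1, hz2⟩
      refine ⟨⟨hz1, fun i => ?_⟩, fun i => ?_⟩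
      · have h1 := hz2 (Fin.natAdd k' i)
        simp only [Fin.append_right] at h1
        exact h1.trans_le (min_le_right _ _)
      · have h1 := hz2 (Fin.castAdd k i)
        simp only [Fin.append_left] at h1
        exact h1.trans_le (min_le_left _ _)
  obtain ⟨M, hSM, hM, hmax⟩ := free_max hS
  obtain ⟨Φ₁, hΦ₁⟩ := N3_char hopen hAH1 hM hmax
  have hagree : ∀ g, BH Δ (cf g) → Φ₁.φ (cf g) = Φ.φ (cf g) := by
    intro g hg
    refine hΦ₁ g (N3_bh_mono hsub hg) _ (hSM ⟨?_, ?_⟩)
    · exact hg.sub (BH.const _)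
    · have h1 := Φ.map_sub hg (BH.const (I := Unit) (Δ := Δ) (Φ.φ (cf g)))
      rw [Φ.map_const, sub_self] at h1
      exact h1
  refine ⟨Φ₁, ?_, hagree⟩
  intro N w hw hw0 k' b hb ε hε C
  have e1 : (fun i => Φ₁.φ (cf (b i))) = fun i => Φ.φ (cf (b i)) := by
    funext i
    exact hagree _ (bh_of_hinf (hAH _ (hb i)))
  rw [e1]
  refine hM.2 N w (fun j => ?_) k' b hb ε hε C
  obtain ⟨lam, hlam⟩ := free_value hopen hAH1 hM hmax (hw j)
  have h1 := hΦ₁ (w j) (hw j) lam hlam
  rw [hw0 j] at h1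
  rw [← h1] at hlam
  have h2 : (fun z => w j z - 0) = w j := by
    funext z
    exact sub_zero _
  rwa [h2] at hlam

end Pool.Agent.MPca0fc2.IND
end
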