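import Pool.Agent.Lib.MP_ca0fc2_an.Mg.G061
import Pool.Agent.Lib.MP_ca0fc2_an.Mg.G059
import Pool.Agent.Lib.MP_ca0fc2_an.Mg.G062

section

/-! The Levi polynomial. -/

set_option autoImplicit false

open Metric Set MeasureTheory Filter Topology
open scoped ContDiff

namespace Pool.Agent.MPca0fc2.LV

open Pool.Agent.MPca0fc2.FD (Ec ee)
open Pool.Agent.Lib.MP_ca0fc2_an (leviForm)

variable {n : ℕ}

/-- the Levi polynomial of `ρ` at `p` (with the sign such that its real part is positive inside) -/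
noncomputable def Fp (ρ : Ec n → ℝ) (p z : Ec n) : ℂ :=
  -2 * ∑ j, dr ρ p j * (z j - p j) -
    ∑ j, ∑ k, dj k (fun w => dr ρ w j) p * (z j - p j) * (z k - p k)

/-- PROOF. A polynomial in the coordinates. -/
theorem Fp_hol (ρ : Ec n → ℝ) (p : Ec n) : Differentiable ℂ (Fp ρ p) := by
  have hc : ∀ j, Differentiable ℂ (fun z : Ec n => z j - p j) := fun j =>
    (EuclideanSpace.proj (𝕜 := ℂ) j).differentiable.sub_const (p j)
  unfold Fp
  apply Differentiable.sub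
  · apply Differentiable.const_mul
    apply Differentiable.fun_sum
    intro j _
    exact (hc j).const_mul _
  · apply Differentiable.fun_sum
    intro j _
    apply Differentiable.fun_sum
    intro k _
    exact ((hc j).const_mul _).mul (hc k)

/-- PROOF. Both terms are bounded by a constant times `‖z - p‖` for `‖z - p‖ ≤ 1`. -/
theorem Fp_le (ρ : Ec n → ℝ) (p : Ec n) :
    ∃ C : ℝ, 0 < C ∧ ∀ z ∈ ball p 1, ‖Fp ρ p z‖ ≤ C * ‖z - p‖ := by
  refine ⟨2 * ∑ j, ‖dr ρ p j‖ + ∑ j, ∑ k, ‖dj k (fun w => dr ρ w j) p‖ + 1, by positivity, ?_⟩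
  intro z hz
  have hz1 : ‖z - p‖ ≤ 1 := by
    rw [mem_ball, dist_eq_norm] at hz
    exact hz.le
  have hz0 : 0 ≤ ‖z - p‖ := norm_nonneg _
  have hc : ∀ j, ‖z j - p j‖ ≤ ‖z - p‖ := fun j => PiLp.norm_apply_le (z - p) j
  have h1 : ‖∑ j, dr ρ p j * (z j - p j)‖ ≤ (∑ j, ‖dr ρ p j‖) * ‖z - p‖ := by
    rw [Finset.sum_mul]
    refine (norm_sum_le _ _).trans (Finset.sum_le_sum fun j _ => ?_)
    rw [norm_mul]
    exact mul_le_mul_of_nonneg_left (hc j) (norm_nonneg _)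
  have h2 : ‖∑ j, ∑ k, dj k (fun w => dr ρ w j) p * (z j - p j) * (z k - p k)‖
      ≤ (∑ j, ∑ k, ‖dj k (fun w => dr ρ w j) p‖) * ‖z - p‖ := by
    rw [Finset.sum_mul]
    refine (norm_sum_le _ _).trans (Finset.sum_le_sum fun j _ => ?_)
    rw [Finset.sum_mul]
    refine (norm_sum_le _ _).trans (Finset.sum_le_sum fun k _ => ?_)
    rw [norm_mul, norm_mul]
    calc ‖dj k (fun w => dr ρ w j) p‖ * ‖z j - p j‖ * ‖z k - p k‖
        ≤ ‖dj k (fun w => dr ρ w j) p‖ * ‖z - p‖ * 1 := by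
          apply mul_le_mul (mul_le_mul_of_nonneg_left (hc j) (norm_nonneg _))
            ((hc k).trans hz1) (norm_nonneg _) (by positivity)
      _ = _ := mul_one _
  unfold Fp
  calc ‖-2 * ∑ j, dr ρ p j * (z j - p j) -
        ∑ j, ∑ k, dj k (fun w => dr ρ w j) p * (z j - p j) * (z k - p k)‖
      ≤ ‖-2 * ∑ j, dr ρ p j * (z j - p j)‖ +
        ‖∑ j, ∑ k, dj k (fun w => dr ρ w j) p * (z j - p j) * (z k - p k)‖ := norm_sub_le _ _
    _ ≤ 2 * ((∑ j, ‖dr ρ p j‖) * ‖z - p‖) +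
        (∑ j, ∑ k, ‖dj k (fun w => dr ρ w j) p‖) * ‖z - p‖ := by
        apply add_le_add _ h2
        rw [norm_mul, norm_neg]
        have : ‖(2 : ℂ)‖ = 2 := by norm_num
        rw [this]
        exact mul_le_mul_of_nonneg_left h1 (by norm_num)
    _ ≤ _ := by nlinarith

private theorem P1_basis (X : Ec n) :
    X = ∑ j, ((X j).re • ee j + (X j).im • (Complex.I • ee j)) := by
  ext i
  rw [show (∑ j, ((X j).re • ee j + (X j).im • (Complex.I • ee j)) : Ec n) i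
    = ∑ j, (((X j).re • ee j + (X j).im • (Complex.I • ee j) : Ec n) i) from by
      simp]
  rw [Finset.sum_eq_single i]
  · simp [ee]
  · intro j _ hj
    simp [ee, Ne.symm hj]
  · intro h
    exact absurd (Finset.mem_univ i) h

/-- the functional `D ↦ (D (e_j) - i D (i e_j)) / 2` -/
private noncomputable def P1_N (j : Fin n) : (Ec n →L[ℝ] ℝ) →L[ℝ] ℂ :=
  (2⁻¹ : ℂ) • (Complex.ofRealCLM.comp (ContinuousLinearMap.apply ℝ ℝ (ee j)) -
    Complex.I • Complex.ofRealCLM.comp (ContinuousLinearMap.apply ℝ ℝ (Complex.I • ee j)))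

private theorem P1_N_apply (j : Fin n) (D : Ec n →L[ℝ] ℝ) :
    P1_N j D = ((D (ee j) : ℂ) - Complex.I * (D (Complex.I • ee j) : ℂ)) / 2 := by
  simp [P1_N]
  ring

private theorem P1_dj {ρ : Ec n → ℝ} {p : Ec n} (hρ : ContDiffAt ℝ 2 ρ p) (j k : Fin n) :
    dj k (fun w => dr ρ w j) p =
      ((fderiv ℝ (fderiv ℝ ρ) p (ee k) (ee j) : ℂ)
        - (fderiv ℝ (fderiv ℝ ρ) p (Complex.I • ee k) (Complex.I • ee j) : ℂ)
        - Complex.I * ((fderiv ℝ (fderiv ℝ ρ) p (ee k) (Complex.I • ee j) : ℂ)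
          + (fderiv ℝ (fderiv ℝ ρ) p (Complex.I • ee k) (ee j) : ℂ))) / 4 := by
  have hd : DifferentiableAt ℝ (fderiv ℝ ρ) p :=
    (hρ.fderiv_right (m := 1) (by norm_num)).differentiableAt (by norm_num)
  have h1 : (fun w => dr ρ w j) = fun w => P1_N j (fderiv ℝ ρ w) := by
    funext w
    rw [P1_N_apply]
    rfl
  have h2 : HasFDerivAt (fun w => dr ρ w j) ((P1_N j).comp (fderiv ℝ (fderiv ℝ ρ) p)) p := by
    rw [h1]
    exact (P1_N j).hasFDerivAt.comp p hd.hasFDerivAt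
  unfold dj
  rw [h2.fderiv]
  simp only [ContinuousLinearMap.comp_apply, P1_N_apply]
  have hI : Complex.I * Complex.I = -1 := Complex.I_mul_I
  linear_combination (norm := skip) (0 : ℂ) * hI
  ring_nf
  simp only [Complex.I_sq]
  ring

/-- The real part of the Levi polynomial.
PROOF. `X = z - p`, `B = fderiv ℝ (fderiv ℝ ρ) p`. `2 Re ∑ dr ρ p j * X j = fderiv ℝ ρ p X`, and
`∑_{j,k} ∂_k ∂_j ρ X_j X_k` has the real part `(B (X, X) - B (iX, iX)) / 4` (expand in coordinates, `B` symmetric). -/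
theorem Fp_re {ρ : Ec n → ℝ} {p : Ec n} (hρ : ContDiffAt ℝ 2 ρ p) (z : Ec n) :
    (Fp ρ p z).re = -fderiv ℝ ρ p (z - p) -
      (fderiv ℝ (fderiv ℝ ρ) p (z - p) (z - p) -
        fderiv ℝ (fderiv ℝ ρ) p (Complex.I • (z - p)) (Complex.I • (z - p))) / 4 := by
  set D := fderiv ℝ ρ p with hD
  set B := fderiv ℝ (fderiv ℝ ρ) p with hB
  have hX := P1_basis (z - p)
  have hIX : Complex.I • (z - p) = ∑ j, ((-((z - p) j).im) • ee j
      + ((z - p) j).re • (Complex.I • (ee j : Ec n))) := by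
    have h := P1_basis (Complex.I • (z - p))
    rw [h]
    apply Finset.sum_congr rfl
    intro j _
    simp
  have e1 : D (z - p) = ∑ j, (((z - p) j).re * D (ee j) + ((z - p) j).im * D (Complex.I • ee j)) := by
    conv_lhs => rw [hX]
    rw [map_sum]
    apply Finset.sum_congr rfl
    intro j _
    rw [map_add, map_smul, map_smul, smul_eq_mul, smul_eq_mul]
  have e2 : B (z - p) (z - p) = ∑ j, ∑ k,
      (((z - p) k).re * ((z - p) j).re * B (ee k) (ee j)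
        + ((z - p) k).re * ((z - p) j).im * B (ee k) (Complex.I • ee j)
        + ((z - p) k).im * ((z - p) j).re * B (Complex.I • ee k) (ee j)
        + ((z - p) k).im * ((z - p) j).im * B (Complex.I • ee k) (Complex.I • ee j)) := by
    have hXX : B (z - p) (z - p) = (B (∑ k, (((z - p) k).re • ee k + ((z - p) k).im • (Complex.I • ee k))))
        (∑ j, (((z - p) j).re • ee j + ((z - p) j).im • (Complex.I • ee j))) := by
      rw [← hX]
    rw [hXX, map_sum]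
    apply Finset.sum_congr rfl
    intro j _
    rw [map_sum, sum_apply]
    apply Finset.sum_congr rfl
    intro k _
    simp only [map_add, map_smul, ContinuousLinearMap.add_apply, ContinuousLinearMap.smul_apply,
      smul_eq_mul]
    ring
  have e3 : B (Complex.I • (z - p)) (Complex.I • (z - p)) = ∑ j, ∑ k,
      (((z - p) k).im * ((z - p) j).im * B (ee k) (ee j)
        - ((z - p) k).im * ((z - p) j).re * B (ee k) (Complex.I • ee j)
        - ((z - p) k).re * ((z - p) j).im * B (Complex.I • ee k) (ee j)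
        + ((z - p) k).re * ((z - p) j).re * B (Complex.I • ee k) (Complex.I • ee j)) := by
    rw [hIX, map_sum]
    apply Finset.sum_congr rfl
    intro j _
    rw [map_sum, sum_apply]
    apply Finset.sum_congr rfl
    intro k _
    simp only [map_add, map_smul, ContinuousLinearMap.add_apply, ContinuousLinearMap.smul_apply,
      smul_eq_mul]
    ring
  have e4 : (∑ j, dr ρ p j * (z j - p j)).re = D (z - p) / 2 := by
    rw [e1, Complex.re_sum, Finset.sum_div]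
    apply Finset.sum_congr rfl
    intro j _
    have hj : z j - p j = (z - p) j := rfl
    rw [hj]
    unfold dr
    rw [← hD]
    set x := (z - p) j
    have : ((D (ee j) : ℂ) - Complex.I * (D (Complex.I • ee j) : ℂ)) / 2 * x
        = ((D (ee j) : ℂ) - Complex.I * (D (Complex.I • ee j) : ℂ)) * x * ((1 / 2 : ℝ) : ℂ) := by
      push_cast; ring
    rw [this, Complex.re_mul_ofReal]
    simp only [Complex.mul_re, Complex.sub_re, Complex.sub_im, Complex.mul_im, Complex.ofReal_re,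
      Complex.ofReal_im, Complex.I_re, Complex.I_im]
    ring
  have e5 : (∑ j, ∑ k, dj k (fun w => dr ρ w j) p * (z j - p j) * (z k - p k)).re
      = (B (z - p) (z - p) - B (Complex.I • (z - p)) (Complex.I • (z - p))) / 4 := by
    rw [e2, e3, ← Finset.sum_sub_distrib, Complex.re_sum, Finset.sum_div]
    apply Finset.sum_congr rfl
    intro j _
    rw [← Finset.sum_sub_distrib, Complex.re_sum, Finset.sum_div]
    apply Finset.sum_congr rfl
    intro k _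
    rw [P1_dj hρ, ← hB]
    have hj : z j - p j = (z - p) j := rfl
    have hk : z k - p k = (z - p) k := rfl
    rw [hj, hk]
    set x := (z - p) j
    set y := (z - p) k
    have : ((B (ee k) (ee j) : ℂ) - (B (Complex.I • ee k) (Complex.I • ee j) : ℂ)
        - Complex.I * ((B (ee k) (Complex.I • ee j) : ℂ) + (B (Complex.I • ee k) (ee j) : ℂ))) / 4
          * x * y
        = ((B (ee k) (ee j) : ℂ) - (B (Complex.I • ee k) (Complex.I • ee j) : ℂ)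
        - Complex.I * ((B (ee k) (Complex.I • ee j) : ℂ) + (B (Complex.I • ee k) (ee j) : ℂ)))
          * (x * y) * ((1 / 4 : ℝ) : ℂ) := by
      push_cast; ring
    rw [this, Complex.re_mul_ofReal]
    simp only [Complex.mul_re, Complex.sub_re, Complex.sub_im, Complex.mul_im, Complex.ofReal_re,
      Complex.ofReal_im, Complex.I_re, Complex.I_im, Complex.add_re, Complex.add_im]
    ring
  unfold Fp
  rw [Complex.sub_re, e5]
  have e6 : (-2 * ∑ j, dr ρ p j * (z j - p j)).re = -D (z - p) := by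
    have : (-2 * ∑ j, dr ρ p j * (z j - p j)) = ((-2 : ℝ) : ℂ) * ∑ j, dr ρ p j * (z j - p j) := by
      push_cast; ring
    rw [this, Complex.re_ofReal_mul, e4]
    ring
  rw [e6]

/-- The fundamental estimate.
PROOF. Taylor's formula of order two (`ρ` is `C²` near `p`; e.g. apply the one variable formula to `t ↦ ρ (p + t X)`, or the
mean value theorem twice): `ρ z = ρ p + Dρ X + B (X, X) / 2 + o(‖X‖²)`, `ρ p = 0`, and by `Fp_re`
`Re Fp + ρ z = leviForm ρ p X + o(‖X‖²) ≥ (c / 2) ‖X‖²` near `p`. -/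
theorem Fp_est {U : Set (Ec n)} (hU : IsOpen U) {ρ : Ec n → ℝ} (hρ : ContDiffOn ℝ ∞ ρ U) {p : Ec n}
    (hp : p ∈ U) (hp0 : ρ p = 0) {c : ℝ} (hc : 0 < c)
    (hL : ∀ X : Ec n, c * ‖X‖ ^ 2 ≤ leviForm ρ p X) :
    ∃ r > 0, ball p r ⊆ U ∧ ∀ z ∈ ball p r, c / 2 * ‖z - p‖ ^ 2 ≤ (Fp ρ p z).re + ρ z := by
  have hUn : U ∈ 𝓝 p := hU.mem_nhds hp
  have hat : ContDiffAt ℝ 2 ρ p := (hρ.contDiffAt hUn).of_le
    (show ((2 : ℕ∞) : WithTop ℕ∞) ≤ ((⊤ : ℕ∞) : WithTop ℕ∞) from WithTop.coe_le_coe.2 le_top)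
  have hd : DifferentiableAt ℝ (fderiv ℝ ρ) p :=
    (hat.fderiv_right (m := 1) (by norm_num)).differentiableAt (by norm_num)
  set D := fderiv ℝ ρ p with hD
  set B := fderiv ℝ (fderiv ℝ ρ) p with hB
  have hsym : ∀ X Y, B X Y = B Y X := by
    intro X Y
    exact hat.isSymmSndFDerivAt (by simp [minSmoothness_of_isRCLikeNormedField]) X Y
  -- the derivative is well approximated
  have hlo := hd.hasFDerivAt.isLittleO
  have hev : ∀ᶠ w in 𝓝 p, ‖fderiv ℝ ρ w - D - B (w - p)‖ ≤ c / 2 * ‖w - p‖ := by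
    exact hlo.bound (by positivity)
  obtain ⟨r, hr, hr2⟩ := Metric.mem_nhds_iff.1 (Filter.inter_mem hev hUn)
  refine ⟨r, hr, fun z hz => (hr2 hz).2, ?_⟩
  intro z hz
  set g : Ec n → ℝ := fun w => ρ w - D (w - p) - B (w - p) (w - p) / 2 with hg
  have hdist : ‖z - p‖ < r := by rwa [mem_ball, dist_eq_norm] at hz
  have hsub : closedBall p ‖z - p‖ ⊆ ball p r := closedBall_subset_ball hdist
  have hgd : ∀ w ∈ closedBall p ‖z - p‖, HasFDerivAt g (fderiv ℝ ρ w - D - B (w - p)) w := by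
    intro w hw
    have hwU : w ∈ U := (hr2 (hsub hw)).2
    have hρw : HasFDerivAt ρ (fderiv ℝ ρ w) w :=
      (((hρ.contDiffAt (hU.mem_nhds hwU)).differentiableAt (by simp))).hasFDerivAt
    have h1 : HasFDerivAt (fun w : Ec n => w - p) (ContinuousLinearMap.id ℝ (Ec n)) w :=
      (hasFDerivAt_id w).sub_const p
    have h2 : HasFDerivAt (fun w : Ec n => D (w - p)) D w := by
      have := D.hasFDerivAt.comp w h1
      rw [ContinuousLinearMap.comp_id] at this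
      exact this
    have h3 : HasFDerivAt (fun w : Ec n => B (w - p)) B w := by
      have := B.hasFDerivAt.comp w h1
      rw [ContinuousLinearMap.comp_id] at this
      exact this
    have h4 := h3.clm_apply h1
    have h5 := (hρw.sub h2).sub (h4.mul_const (1 / 2 : ℝ))
    have h6 : g = fun w => ρ w - D (w - p) - B (w - p) (w - p) * (1 / 2) := by
      funext w
      simp only [hg]
      ring
    rw [h6]
    refine h5.congr_fderiv ?_
    ext Y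
    simp only [ContinuousLinearMap.sub_apply, ContinuousLinearMap.smul_apply,
      ContinuousLinearMap.add_apply, ContinuousLinearMap.comp_apply,
      ContinuousLinearMap.flip_apply, ContinuousLinearMap.id_apply, smul_eq_mul]
    rw [hsym Y (w - p)]
    ring
  have hbound : ∀ w ∈ closedBall p ‖z - p‖, ‖fderiv ℝ ρ w - D - B (w - p)‖ ≤ c / 2 * ‖z - p‖ := by
    intro w hw
    refine (hr2 (hsub hw)).1.trans ?_
    apply mul_le_mul_of_nonneg_left _ (by positivity)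
    rwa [mem_closedBall, dist_eq_norm] at hw
  have hmv : ‖g z - g p‖ ≤ c / 2 * ‖z - p‖ * ‖z - p‖ := by
    apply Convex.norm_image_sub_le_of_norm_hasFDerivWithin_le
      (f' := fun w => fderiv ℝ ρ w - D - B (w - p)) (s := closedBall p ‖z - p‖)
    · intro w hw
      exact (hgd w hw).hasFDerivWithinAt
    · exact hbound
    · exact convex_closedBall p _
    · exact mem_closedBall_self (norm_nonneg _)
    · rw [mem_closedBall, dist_eq_norm]
  have hgp : g p = 0 := by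
    simp [hg, hp0]
  rw [hgp, sub_zero, Real.norm_eq_abs] at hmv
  have hgz := (abs_le.1 hmv).1
  rw [Fp_re hat, ← hD, ← hB]
  have hl := hL (z - p)
  unfold leviForm at hl
  rw [← hB] at hl
  simp only [hg] at hgz
  have hsq : ‖z - p‖ ^ 2 = ‖z - p‖ * ‖z - p‖ := sq _
  rw [hsq] at hl ⊢
  linarith

end Pool.Agent.MPca0fc2.LV
end

section

/-! The support functions for the points near one boundary point: algebra. -/

set_option autoImplicit false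

open Metric Set MeasureTheory Filter Topology
open scoped ContDiff

namespace Pool.Agent.MPca0fc2.LV

open Pool.Agent.MPca0fc2.FD (Ec ee)

variable {n : ℕ}

/-- the affine map which moves `ζ` to `p` and the complex tangent plane at `ζ` to the one at `p` -/
noncomputable def wz (ρ : Ec n → ℝ) (p ζ z : Ec n) : Ec n :=
  p + (z - ζ) + (((∑ j, (dr ρ ζ j - dr ρ p j) * (z j - ζ j)) / (∑ k, ‖dr ρ p k‖ ^ 2 : ℝ) : ℂ) •
    (WithLp.toLp 2 fun k => (starRingEnd ℂ) (dr ρ p k) : Ec n))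

/-- the support function -/
noncomputable def hz (ρ : Ec n → ℝ) (p : Ec n) (H : Fin n → Ec n → ℂ) (z ζ : Ec n) (j : Fin n) : ℂ :=
  -(1 / 2) * (H j (wz ρ p ζ z) + (∑ k, H k (wz ρ p ζ z) * (starRingEnd ℂ) (dr ρ p k)) /
    (∑ k, ‖dr ρ p k‖ ^ 2 : ℝ) * (dr ρ ζ j - dr ρ p j))

/-- PROOF. `X = ∑ X_k ee k`, `X_k = a + i b`, `fderiv ℝ ρ z (X_k ee k) = a fderiv (ee k) + b fderiv (I ee k) = 2 Re (dr ρ z k * X_k)`. -/
theorem dr_apply (ρ : Ec n → ℝ) (z X : Ec n) :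
    fderiv ℝ ρ z X = 2 * (∑ k, dr ρ z k * X k).re := by
  have hb : X = ∑ k, ((X k).re • ee k + (X k).im • (Complex.I • ee k) : Ec n) := by
    ext i
    rw [WithLp.ofLp_sum, Finset.sum_apply]
    rw [Finset.sum_eq_single i]
    · simp only [ee, PiLp.add_apply, PiLp.smul_apply, EuclideanSpace.single_apply, if_true]
      rw [Complex.real_smul, Complex.real_smul, smul_eq_mul, mul_one, mul_one]
      exact (Complex.re_add_im (X i)).symm
    · intro k _ hk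
      simp only [ee, PiLp.add_apply, PiLp.smul_apply, EuclideanSpace.single_apply, if_neg hk.symm]
      simp
    · intro h
      exact absurd (Finset.mem_univ i) h
  conv_lhs => rw [hb]
  rw [map_sum, Complex.re_sum, Finset.mul_sum]
  refine Finset.sum_congr rfl fun k _ => ?_
  rw [map_add, map_smul, map_smul, smul_eq_mul, smul_eq_mul]
  have h2 : dr ρ z k = ((fderiv ℝ ρ z (ee k) / 2 : ℝ) : ℂ) -
      Complex.I * ((fderiv ℝ ρ z (Complex.I • ee k) / 2 : ℝ) : ℂ) := by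
    unfold dr
    push_cast
    ring
  rw [h2, Complex.mul_re, Complex.sub_re, Complex.sub_im, Complex.ofReal_re, Complex.ofReal_im,
    Complex.I_mul_re, Complex.I_mul_im, Complex.ofReal_re, Complex.ofReal_im]
  ring

/-- PROOF. If all `dr ρ p k = 0` then `fderiv ℝ ρ p = 0` (`dr_apply`). -/
theorem dr_pos {ρ : Ec n → ℝ} {p : Ec n} (h : fderiv ℝ ρ p ≠ 0) : 0 < ∑ k, ‖dr ρ p k‖ ^ 2 := by
  refine lt_of_le_of_ne (Finset.sum_nonneg fun k _ => sq_nonneg _) fun h0 => h ?_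
  have h1 := (Finset.sum_eq_zero_iff_of_nonneg (fun k _ => sq_nonneg (‖dr ρ p k‖))).1 h0.symm
  have h2 : ∀ k, dr ρ p k = 0 := fun k => by
    have := h1 k (Finset.mem_univ k)
    rwa [sq_eq_zero_iff, norm_eq_zero] at this
  ext X
  rw [dr_apply]
  simp [h2]

/-- PROOF. `(w - p)_k = X_k + conj (dr p k) / N * s`, `X = z - ζ`, `s = ∑ (dr ζ j - dr p j) X_j`, `N = ∑ |dr p k|²`; expand. -/
theorem hz_sum {ρ : Ec n → ℝ} {p : Ec n} {H : Fin n → Ec n → ℂ} (z ζ : Ec n) {g : Ec n → ℂ}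
    (hg : g (wz ρ p ζ z) = ∑ k, H k (wz ρ p ζ z) * (wz ρ p ζ z k - p k)) :
    2 * ∑ k, hz ρ p H z ζ k * (ζ k - z k) = g (wz ρ p ζ z) := by
  have hw : ∀ k, wz ρ p ζ z k - p k = (z k - ζ k) +
      (∑ j, (dr ρ ζ j - dr ρ p j) * (z j - ζ j)) / (∑ k, ‖dr ρ p k‖ ^ 2 : ℝ) *
      (starRingEnd ℂ) (dr ρ p k) := by
    intro k
    simp only [wz, PiLp.add_apply, PiLp.sub_apply, PiLp.smul_apply, smul_eq_mul]
    ring
  rw [hg]
  simp only [hw]
  unfold hz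
  generalize ((∑ k, ‖dr ρ p k‖ ^ 2 : ℝ) : ℂ) = N
  generalize wz ρ p ζ z = w
  generalize hs : ∑ j, (dr ρ ζ j - dr ρ p j) * (z j - ζ j) = s
  generalize hB : ∑ k, H k w * (starRingEnd ℂ) (dr ρ p k) = B
  have e1 : 2 * ∑ k, -(1 / 2) * (H k w + B / N * (dr ρ ζ k - dr ρ p k)) * (ζ k - z k) =
      ∑ k, H k w * (z k - ζ k) + B / N * s := by
    rw [← hs, Finset.mul_sum, Finset.mul_sum, ← Finset.sum_add_distrib]
    refine Finset.sum_congr rfl fun k _ => ?_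
    ring
  have e2 : ∑ k, H k w * ((z k - ζ k) + s / N * (starRingEnd ℂ) (dr ρ p k)) =
      ∑ k, H k w * (z k - ζ k) + B / N * s := by
    rw [← hB, Finset.sum_div, Finset.sum_mul, ← Finset.sum_add_distrib]
    refine Finset.sum_congr rfl fun k _ => ?_
    ring
  rw [e1, e2]

/-- PROOF. `wz ρ p ζ ζ = p`, `H k p = -2 dr ρ p k`. -/
theorem hz_diag {ρ : Ec n → ℝ} {p : Ec n} (hp : fderiv ℝ ρ p ≠ 0) {H : Fin n → Ec n → ℂ}
    (hH : ∀ k, H k p = -2 * dr ρ p k) (ζ : Ec n) (k : Fin n) : hz ρ p H ζ ζ k = dr ρ ζ k := by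
  have hN : ((∑ k, ‖dr ρ p k‖ ^ 2 : ℝ) : ℂ) ≠ 0 := by
    exact_mod_cast (dr_pos hp).ne'
  have hw : wz ρ p ζ ζ = p := by
    simp [wz]
  unfold hz
  rw [hw]
  simp only [hH]
  have h1 : ∑ k, -2 * dr ρ p k * (starRingEnd ℂ) (dr ρ p k) =
      -2 * ((∑ k, ‖dr ρ p k‖ ^ 2 : ℝ) : ℂ) := by
    rw [Complex.ofReal_sum, Finset.mul_sum]
    refine Finset.sum_congr rfl fun k _ => ?_
    rw [mul_assoc, Complex.mul_conj, Complex.normSq_eq_norm_sq]
  rw [h1, mul_div_assoc, div_self hN]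
  ring

/-- The derivative of the peak function at `p`.
PROOF. `f = Re g + ρ ≥ 0 = f p` near `p`, differentiable: `fderiv ℝ f p = 0` (local minimum), so
`Re (fderiv ℂ g p X) = -fderiv ℝ ρ p X` for all `X`; `fderiv ℂ g p X = ∑ H k p * X k` (product rule, `z_k - p_k = 0` at `p`). With
`dr_apply`: `Re (∑ (H k p + 2 dr ρ p k) X k) = 0` for all `X`, so all the coefficients are `0`. -/
theorem peak_deriv {W : Set (Ec n)} {ρ : Ec n → ℝ} {p : Ec n} {g : Ec n → ℂ} {r b : ℝ} (hr : 0 < r)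
    (hb : 0 < b) (hρ : DifferentiableAt ℝ ρ p) (hp0 : ρ p = 0) (hgp : g p = 0)
    (hest : ∀ z ∈ ball p r, b * ‖z - p‖ ^ 2 ≤ (g z).re + ρ z) {H : Fin n → Ec n → ℂ} (hW : W ∈ 𝓝 p)
    (hH : ∀ k, DifferentiableOn ℂ (H k) W) (hgH : ∀ z ∈ W, g z = ∑ k, H k z * (z k - p k)) (k : Fin n) :
    H k p = -2 * dr ρ p k := by
  have hHp : ∀ k, DifferentiableAt ℂ (H k) p := fun k => (hH k).differentiableAt hW
  let pr : Fin n → Ec n →L[ℂ] ℂ := fun k => EuclideanSpace.proj k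
  have h1 : ∀ k, HasFDerivAt (𝕜 := ℂ) (fun z : Ec n => H k z * (z k - p k)) ((H k p) • pr k) p := by
    intro k
    have h2 : HasFDerivAt (𝕜 := ℂ) (fun z : Ec n => z k - p k) (pr k) p :=
      (pr k).hasFDerivAt.sub_const _
    have h3 := (hHp k).hasFDerivAt.mul h2
    refine h3.congr_fderiv ?_
    ext X
    simp
  have h2 : HasFDerivAt (𝕜 := ℂ) (fun z : Ec n => ∑ k, H k z * (z k - p k))
      (∑ k, (H k p) • pr k) p := HasFDerivAt.fun_sum fun k _ => h1 k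
  have h3 : HasFDerivAt (𝕜 := ℂ) g (∑ k, (H k p) • pr k) p := by
    refine h2.congr_of_eventuallyEq ?_
    filter_upwards [hW] with z hz using hgH z hz
  have h4 : HasFDerivAt (𝕜 := ℝ) (fun z => (g z).re + ρ z)
      (Complex.reCLM.comp ((∑ k, (H k p) • pr k).restrictScalars ℝ) + fderiv ℝ ρ p) p :=
    (Complex.reCLM.hasFDerivAt.comp p (h3.restrictScalars ℝ)).add hρ.hasFDerivAt
  have h5 : IsLocalMin (fun z => (g z).re + ρ z) p := by
    filter_upwards [ball_mem_nhds p hr] with z hz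
    rw [hgp, hp0, Complex.zero_re, add_zero]
    exact le_trans (by positivity) (hest z hz)
  have h6 := h5.hasFDerivAt_eq_zero h4
  have h7 : ∀ X : Ec n, (∑ k, (H k p + 2 * dr ρ p k) * X k).re = 0 := by
    intro X
    have h8 := congrArg (fun L => L X) h6
    have h9 : (∑ k, H k p * X k).re + fderiv ℝ ρ p X = 0 := by
      simpa [pr] using h8
    rw [dr_apply] at h9
    rw [← h9]
    simp only [add_mul, Finset.sum_add_distrib, Complex.add_re]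
    congr 1
    simp only [mul_assoc, ← Finset.mul_sum]
    simp
  have h8 := h7 ((starRingEnd ℂ) (H k p + 2 * dr ρ p k) • ee k)
  have h9 : ∑ i, (H i p + 2 * dr ρ p i) *
      ((starRingEnd ℂ) (H k p + 2 * dr ρ p k) • (ee k : Ec n)) i =
      ((‖H k p + 2 * dr ρ p k‖ ^ 2 : ℝ) : ℂ) := by
    rw [Finset.sum_eq_single k]
    · rw [PiLp.smul_apply, ee, EuclideanSpace.single_apply, if_pos rfl, smul_eq_mul, mul_one,
        Complex.mul_conj, Complex.normSq_eq_norm_sq]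
    · intro i _ hi
      rw [PiLp.smul_apply, ee, EuclideanSpace.single_apply, if_neg hi, smul_zero, mul_zero]
    · intro h
      exact absurd (Finset.mem_univ k) h
  rw [h9, Complex.ofReal_re, sq_eq_zero_iff, norm_eq_zero] at h8
  linear_combination h8

end Pool.Agent.MPca0fc2.LV
end

section

/-! The affine maps which move the boundary points. -/

set_option autoImplicit false

open Metric Set MeasureTheory Filter Topology
open scoped ContDiff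

namespace Pool.Agent.MPca0fc2.LV

open Pool.Agent.MPca0fc2.FD (Ec ee)

variable {n : ℕ}

private theorem S2b_coord (X : Ec n) (j : Fin n) : ‖X j‖ ≤ ‖X‖ := PiLp.norm_apply_le X j

private theorem S2b_bound (ρ : Ec n → ℝ) (p ζ z : Ec n) :
    ‖wz ρ p ζ z - p - (z - ζ)‖ ≤ ((∑ j, ‖dr ρ ζ j - dr ρ p j‖) / (∑ k, ‖dr ρ p k‖ ^ 2) *
      ‖(WithLp.toLp 2 fun k => (starRingEnd ℂ) (dr ρ p k) : Ec n)‖) * ‖z - ζ‖ := by
  have h1 : wz ρ p ζ z - p - (z - ζ) =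
      (((∑ j, (dr ρ ζ j - dr ρ p j) * (z j - ζ j)) / (∑ k, ‖dr ρ p k‖ ^ 2 : ℝ) : ℂ) •
    (WithLp.toLp 2 fun k => (starRingEnd ℂ) (dr ρ p k) : Ec n)) := by
    unfold wz
    abel
  rw [h1, norm_smul, norm_div, Complex.norm_real]
  have hN : 0 ≤ ∑ k, ‖dr ρ p k‖ ^ 2 := Finset.sum_nonneg fun k _ => sq_nonneg _
  rw [Real.norm_of_nonneg hN]
  have h2 : ‖∑ j, (dr ρ ζ j - dr ρ p j) * (z j - ζ j)‖ ≤
      (∑ j, ‖dr ρ ζ j - dr ρ p j‖) * ‖z - ζ‖ := by
    rw [Finset.sum_mul]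
    refine (norm_sum_le _ _).trans (Finset.sum_le_sum fun j _ => ?_)
    rw [norm_mul]
    exact mul_le_mul_of_nonneg_left (S2b_coord (z - ζ) j) (norm_nonneg _)
  calc _ ≤ (∑ j, ‖dr ρ ζ j - dr ρ p j‖) * ‖z - ζ‖ / (∑ k, ‖dr ρ p k‖ ^ 2) *
        ‖(WithLp.toLp 2 fun k => (starRingEnd ℂ) (dr ρ p k) : Ec n)‖ := by
        gcongr
    _ = _ := by ring

/-- the affine map is near the translation -/
theorem S2b_near {U : Set (Ec n)} (hU : IsOpen U) {ρ : Ec n → ℝ} (hρ : ContDiffOn ℝ ∞ ρ U) {p : Ec n}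
    (hp : p ∈ U) {κ : ℝ} (hκ : 0 < κ) : ∃ r > 0, ball p r ⊆ U ∧ ∀ ζ ∈ ball p r, ∀ z : Ec n,
      ‖wz ρ p ζ z - p - (z - ζ)‖ ≤ κ * ‖z - ζ‖ := by
  have hc : ContinuousAt (fun ζ => ((∑ j, ‖dr ρ ζ j - dr ρ p j‖) / (∑ k, ‖dr ρ p k‖ ^ 2) *
      ‖(WithLp.toLp 2 fun k => (starRingEnd ℂ) (dr ρ p k) : Ec n)‖)) p := by
    have h1 : ∀ j, ContinuousAt (fun ζ => ‖dr ρ ζ j - dr ρ p j‖) p := fun j =>
      ((((dr_smooth hU hρ j).continuousOn).continuousAt (hU.mem_nhds hp)).sub continuousAt_const).norm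
    have h2 : ContinuousAt (fun ζ => ∑ j, ‖dr ρ ζ j - dr ρ p j‖) p :=
      tendsto_finsetSum _ fun j _ => h1 j
    exact (h2.div_const _).mul_const _
  have h0 : ((∑ j, ‖dr ρ p j - dr ρ p j‖) / (∑ k, ‖dr ρ p k‖ ^ 2) *
      ‖(WithLp.toLp 2 fun k => (starRingEnd ℂ) (dr ρ p k) : Ec n)‖) < κ := by
    simpa using hκ
  have hev := (hc.eventually (gt_mem_nhds h0)).and (hU.mem_nhds hp)
  obtain ⟨r, hr, hball⟩ := Metric.eventually_nhds_iff_ball.1 hev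
  refine ⟨r, hr, fun x hx => (hball x hx).2, fun ζ hζ z => ?_⟩
  exact (S2b_bound ρ p ζ z).trans (mul_le_mul_of_nonneg_right (hball ζ hζ).1.le (norm_nonneg _))

private theorem S2b_first {ρ : Ec n → ℝ} {p : Ec n} (hp1 : fderiv ℝ ρ p ≠ 0) (ζ z : Ec n) :
    fderiv ℝ ρ ζ (z - ζ) = fderiv ℝ ρ p (wz ρ p ζ z - p) := by
  rw [dr_apply, dr_apply]
  congr 2
  have hN := dr_pos hp1
  have hN' : ((∑ k, ‖dr ρ p k‖ ^ 2 : ℝ) : ℂ) ≠ 0 := by
    exact_mod_cast hN.ne'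
  set s : ℂ := (∑ j, (dr ρ ζ j - dr ρ p j) * (z j - ζ j)) / (∑ k, ‖dr ρ p k‖ ^ 2 : ℝ) with hs
  have h1 : ∀ k, (wz ρ p ζ z - p) k = (z - ζ) k + s * (starRingEnd ℂ) (dr ρ p k) := by
    intro k
    have : wz ρ p ζ z - p = (z - ζ) + s • (WithLp.toLp 2 fun k => (starRingEnd ℂ) (dr ρ p k) : Ec n) := by
      unfold wz
      rw [← hs]
      abel
    rw [this]
    rfl
  have h2 : ∑ k, dr ρ p k * (wz ρ p ζ z - p) k = ∑ k, dr ρ p k * (z - ζ) k +
      s * (∑ k, ‖dr ρ p k‖ ^ 2 : ℝ) := by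
    push_cast
    rw [Finset.mul_sum, ← Finset.sum_add_distrib]
    refine Finset.sum_congr rfl fun k _ => ?_
    rw [h1 k, ← Complex.mul_conj']
    ring
  rw [h2, hs, div_mul_cancel₀ _ hN', ← Finset.sum_add_distrib]
  refine Finset.sum_congr rfl fun k _ => ?_
  have : (z - ζ) k = z k - ζ k := rfl
  rw [this]
  ring

/-- The second difference of `ρ` is small.
PROOF. Let `X = z - ζ`, `Y = wz ρ p ζ z - p = X + (small linear map depending on ζ) X`, `‖Y - X‖ ≤ κ(ζ) ‖X‖` with `κ(ζ) → 0` as `ζ → p` (`dr ρ` is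
continuous). First order: `fderiv ℝ ρ ζ X = fderiv ℝ ρ p Y` (`dr_apply`: `∑ dr p k Y_k = ∑ dr p k X_k + ∑ (dr ζ j - dr p j) X_j`). Taylor with the
integral or Lagrange remainder for `t ↦ (ρ (ζ + t X) - ρ ζ) - (ρ (p + t Y) - ρ p)`: the second derivative
`D²ρ(ζ + tX)(X, X) - D²ρ(p + tY)(Y, Y)` is at most `e ‖X‖²` if `ζ, z` are near `p` (uniform continuity of `D²ρ`, `Y` near `X`). Also
`‖Y‖² ≥ (3/4) ‖X‖²` and `‖Y‖ ≤ 2 ‖X‖` near `p`. -/
theorem second_diff {U : Set (Ec n)} (hU : IsOpen U) {ρ : Ec n → ℝ} (hρ : ContDiffOn ℝ ∞ ρ U) {p : Ec n}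
    (hp : p ∈ U) (hp1 : fderiv ℝ ρ p ≠ 0) {e : ℝ} (he : 0 < e) :
    ∃ r > 0, ball p r ⊆ U ∧ ∀ ζ ∈ ball p r, ∀ z ∈ ball p r,
      |ρ z - ρ ζ - ρ (wz ρ p ζ z) + ρ p| ≤ e * ‖z - ζ‖ ^ 2 ∧
      3 / 4 * ‖z - ζ‖ ^ 2 ≤ ‖wz ρ p ζ z - p‖ ^ 2 ∧ ‖wz ρ p ζ z - p‖ ≤ 2 * ‖z - ζ‖ := by
  have hfd : ContDiffOn ℝ ∞ (fderiv ℝ ρ) U := hρ.fderiv_of_isOpen hU (by simp)
  have hfda : ContDiffAt ℝ ∞ (fderiv ℝ ρ) p := hfd.contDiffAt (hU.mem_nhds hp)
  have hstrict : HasStrictFDerivAt (fderiv ℝ ρ) (fderiv ℝ (fderiv ℝ ρ) p) p :=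
    hfda.hasStrictFDerivAt (by simp)
  set A := fderiv ℝ (fderiv ℝ ρ) p with hA
  set η : ℝ := e / 10 with hη
  have hη0 : 0 < η := by positivity
  obtain ⟨r₁, hr₁, hb₁⟩ := Metric.eventually_nhds_iff_ball.1 (hstrict.isLittleO.def hη0)
  have hA' : ∀ x ∈ ball p r₁, ∀ y ∈ ball p r₁,
      ‖fderiv ℝ ρ x - fderiv ℝ ρ y - A (x - y)‖ ≤ η * ‖x - y‖ := by
    intro x hx y hy
    refine hb₁ (x, y) ?_
    rw [← ball_prod_same]
    exact ⟨hx, hy⟩
  set κ : ℝ := min (1 / 8) (e / (6 * (‖A‖ + 1))) with hκ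
  have hA0 : 0 ≤ ‖A‖ := norm_nonneg A
  have hκ0 : 0 < κ := lt_min (by norm_num) (by positivity)
  have hκ1 : κ ≤ 1 / 8 := min_le_left _ _
  have hκ2 : ‖A‖ * κ ≤ e / 6 := by
    have h1 : κ ≤ e / (6 * (‖A‖ + 1)) := min_le_right _ _
    calc ‖A‖ * κ ≤ ‖A‖ * (e / (6 * (‖A‖ + 1))) := mul_le_mul_of_nonneg_left h1 hA0
      _ ≤ (‖A‖ + 1) * (e / (6 * (‖A‖ + 1))) :=
        mul_le_mul_of_nonneg_right (by linarith) (by positivity)
      _ = e / 6 := by field_simp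
  obtain ⟨r₂, hr₂, hb₂, hn₂⟩ := S2b_near hU hρ hp hκ0
  obtain ⟨r₃, hr₃, hb₃⟩ := Metric.isOpen_iff.1 hU p hp
  set r := min (min r₁ r₂) r₃ / 4 with hr
  have hr0 : 0 < r := by
    have : 0 < min (min r₁ r₂) r₃ := lt_min (lt_min hr₁ hr₂) hr₃
    positivity
  have hr4 : 4 * r = min (min r₁ r₂) r₃ := by rw [hr]; ring
  have hr1 : 4 * r ≤ r₁ := hr4.le.trans ((min_le_left _ _).trans (min_le_left _ _))
  have hr2 : 4 * r ≤ r₂ := hr4.le.trans ((min_le_left _ _).trans (min_le_right _ _))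
  have hr3 : 4 * r ≤ r₃ := hr4.le.trans (min_le_right _ _)
  refine ⟨r, hr0, (ball_subset_ball (by linarith)).trans hb₃, fun ζ hζ z hz => ?_⟩
  set X := z - ζ with hX
  set Y := wz ρ p ζ z - p with hY
  have hYX : ‖Y - X‖ ≤ κ * ‖X‖ := hn₂ ζ (ball_subset_ball (by linarith) hζ) z
  have hX0 : 0 ≤ ‖X‖ := norm_nonneg X
  have hX2 : ‖X‖ < 2 * r := by
    have h1 : ‖z - p‖ < r := by simpa [dist_eq_norm] using hz
    have h2 : ‖ζ - p‖ < r := by simpa [dist_eq_norm] using hζ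
    calc ‖X‖ = ‖(z - p) - (ζ - p)‖ := by rw [hX]; congr 1; abel
      _ ≤ ‖z - p‖ + ‖ζ - p‖ := norm_sub_le _ _
      _ < 2 * r := by linarith
  have hYle : ‖Y‖ ≤ (1 + κ) * ‖X‖ := by
    calc ‖Y‖ = ‖(Y - X) + X‖ := by rw [sub_add_cancel]
      _ ≤ ‖Y - X‖ + ‖X‖ := norm_add_le _ _
      _ ≤ (1 + κ) * ‖X‖ := by linarith
  have hYge : (1 - κ) * ‖X‖ ≤ ‖Y‖ := by
    have : ‖X‖ ≤ ‖Y‖ + ‖Y - X‖ := by
      calc ‖X‖ = ‖Y - (Y - X)‖ := by rw [sub_sub_cancel]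
        _ ≤ ‖Y‖ + ‖Y - X‖ := norm_sub_le _ _
    linarith
  have hY2 : ‖Y‖ ≤ 2 * ‖X‖ := hYle.trans (mul_le_mul_of_nonneg_right (by linarith) hX0)
  refine ⟨?_, ?_, hY2⟩
  swap
  · have h1 : 7 / 8 * ‖X‖ ≤ ‖Y‖ :=
      (mul_le_mul_of_nonneg_right (by linarith) hX0).trans hYge
    have h2 : (7 / 8 * ‖X‖) ^ 2 ≤ ‖Y‖ ^ 2 := pow_le_pow_left₀ (by positivity) h1 2
    nlinarith [sq_nonneg ‖X‖]
  -- the second difference
  have hsegX : ∀ t ∈ Icc (0 : ℝ) 1, ζ + t • X ∈ ball p r := by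
    intro t ht
    have := (convex_ball p r) hζ hz (by linarith [ht.2] : (0 : ℝ) ≤ 1 - t) ht.1 (by ring)
    convert this using 1
    rw [hX, smul_sub, sub_smul, one_smul]
    abel
  have hsegY : ∀ t ∈ Icc (0 : ℝ) 1, p + t • Y ∈ ball p (4 * r) := by
    intro t ht
    rw [mem_ball, dist_eq_norm, add_sub_cancel_left, norm_smul, Real.norm_of_nonneg ht.1]
    calc t * ‖Y‖ ≤ 1 * ‖Y‖ := mul_le_mul_of_nonneg_right ht.2 (norm_nonneg _)
      _ < 4 * r := by linarith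
  have hdiff : ∀ x ∈ U, HasFDerivAt ρ (fderiv ℝ ρ x) x := fun x hx =>
    ((hρ.contDiffAt (hU.mem_nhds hx)).differentiableAt (by simp)).hasFDerivAt
  have hXU : ∀ t ∈ Icc (0 : ℝ) 1, ζ + t • X ∈ U := fun t ht =>
    hb₃ (ball_subset_ball (by linarith) (hsegX t ht))
  have hYU : ∀ t ∈ Icc (0 : ℝ) 1, p + t • Y ∈ U := fun t ht =>
    hb₃ (ball_subset_ball (by linarith) (hsegY t ht))
  have hG : ∀ t ∈ Icc (0 : ℝ) 1, HasDerivWithinAt (fun t : ℝ => ρ (ζ + t • X) - ρ (p + t • Y))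
      (fderiv ℝ ρ (ζ + t • X) X - fderiv ℝ ρ (p + t • Y) Y) (Icc 0 1) t := by
    intro t ht
    have h1 : HasDerivAt (fun t : ℝ => ζ + t • X) X t := by
      simpa using ((hasDerivAt_id t).smul_const X).const_add ζ
    have h2 : HasDerivAt (fun t : ℝ => p + t • Y) Y t := by
      simpa using ((hasDerivAt_id t).smul_const Y).const_add p
    exact (((hdiff _ (hXU t ht)).comp_hasDerivAt t h1).sub
      ((hdiff _ (hYU t ht)).comp_hasDerivAt t h2)).hasDerivWithinAt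
  have hfirst : fderiv ℝ ρ ζ X = fderiv ℝ ρ p Y := S2b_first hp1 ζ z
  have hbound : ∀ t ∈ Ico (0 : ℝ) 1,
      ‖fderiv ℝ ρ (ζ + t • X) X - fderiv ℝ ρ (p + t • Y) Y‖ ≤ e * ‖X‖ ^ 2 := by
    intro t ht
    have ht' : t ∈ Icc (0 : ℝ) 1 := ⟨ht.1, ht.2.le⟩
    have ht1 : t ≤ 1 := ht.2.le
    have e1 := hA' _ (ball_subset_ball (by linarith) (hsegX t ht')) ζ
      (ball_subset_ball (by linarith) hζ)
    have e2 := hA' _ (ball_subset_ball hr1 (hsegY t ht')) p (mem_ball_self hr₁)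
    rw [add_sub_cancel_left] at e1 e2
    set E1 := fderiv ℝ ρ (ζ + t • X) - fderiv ℝ ρ ζ - A (t • X) with hE1
    set E2 := fderiv ℝ ρ (p + t • Y) - fderiv ℝ ρ p - A (t • Y) with hE2
    have hid : fderiv ℝ ρ (ζ + t • X) X - fderiv ℝ ρ (p + t • Y) Y =
        E1 X - E2 Y - t * (A (Y - X) X + A Y (Y - X)) := by
      have h1 : E1 X = fderiv ℝ ρ (ζ + t • X) X - fderiv ℝ ρ ζ X - t * A X X := by
        simp [hE1]
      have h2 : E2 Y = fderiv ℝ ρ (p + t • Y) Y - fderiv ℝ ρ p Y - t * A Y Y := by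
        simp [hE2]
      have h3 : A (Y - X) X + A Y (Y - X) = A Y Y - A X X := by
        simp
      rw [h1, h2, h3, hfirst]
      ring
    have n1 : ‖E1 X‖ ≤ η * ‖X‖ ^ 2 := by
      calc ‖E1 X‖ ≤ ‖E1‖ * ‖X‖ := E1.le_opNorm X
        _ ≤ (η * ‖t • X‖) * ‖X‖ := mul_le_mul_of_nonneg_right e1 hX0
        _ ≤ (η * ‖X‖) * ‖X‖ := by
          refine mul_le_mul_of_nonneg_right (mul_le_mul_of_nonneg_left ?_ hη0.le) hX0
          rw [norm_smul, Real.norm_of_nonneg ht.1]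
          exact mul_le_of_le_one_left hX0 ht1
        _ = η * ‖X‖ ^ 2 := by ring
    have n2 : ‖E2 Y‖ ≤ 4 * η * ‖X‖ ^ 2 := by
      calc ‖E2 Y‖ ≤ ‖E2‖ * ‖Y‖ := E2.le_opNorm Y
        _ ≤ (η * ‖t • Y‖) * ‖Y‖ := mul_le_mul_of_nonneg_right e2 (norm_nonneg _)
        _ ≤ (η * ‖Y‖) * ‖Y‖ := by
          refine mul_le_mul_of_nonneg_right (mul_le_mul_of_nonneg_left ?_ hη0.le) (norm_nonneg _)
          rw [norm_smul, Real.norm_of_nonneg ht.1]
          exact mul_le_of_le_one_left (norm_nonneg _) ht1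
        _ = η * ‖Y‖ ^ 2 := by ring
        _ ≤ η * (2 * ‖X‖) ^ 2 := mul_le_mul_of_nonneg_left (pow_le_pow_left₀ (norm_nonneg _) hY2 2) hη0.le
        _ = 4 * η * ‖X‖ ^ 2 := by ring
    have n3 : ‖A (Y - X) X + A Y (Y - X)‖ ≤ e / 2 * ‖X‖ ^ 2 := by
      calc ‖A (Y - X) X + A Y (Y - X)‖ ≤ ‖A (Y - X) X‖ + ‖A Y (Y - X)‖ := norm_add_le _ _
        _ ≤ ‖A‖ * ‖Y - X‖ * ‖X‖ + ‖A‖ * ‖Y‖ * ‖Y - X‖ := add_le_add (A.le_opNorm₂ _ _) (A.le_opNorm₂ _ _)
        _ ≤ ‖A‖ * (κ * ‖X‖) * ‖X‖ + ‖A‖ * (2 * ‖X‖) * (κ * ‖X‖) := by gcongr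
        _ = 3 * (‖A‖ * κ) * ‖X‖ ^ 2 := by ring
        _ ≤ 3 * (e / 6) * ‖X‖ ^ 2 := by gcongr
        _ = e / 2 * ‖X‖ ^ 2 := by ring
    have n4 : ‖t * (A (Y - X) X + A Y (Y - X))‖ ≤ e / 2 * ‖X‖ ^ 2 := by
      rw [norm_mul, Real.norm_of_nonneg ht.1]
      exact (mul_le_of_le_one_left (norm_nonneg _) ht1).trans n3
    rw [hid]
    calc ‖E1 X - E2 Y - t * (A (Y - X) X + A Y (Y - X))‖ ≤ ‖E1 X‖ + ‖E2 Y‖ +
          ‖t * (A (Y - X) X + A Y (Y - X))‖ :=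
          (norm_sub_le _ _).trans (add_le_add_left (norm_sub_le _ _) _)
      _ ≤ η * ‖X‖ ^ 2 + 4 * η * ‖X‖ ^ 2 + e / 2 * ‖X‖ ^ 2 := add_le_add (add_le_add n1 n2) n4
      _ = e * ‖X‖ ^ 2 := by rw [hη]; ring
  have hmv := norm_image_sub_le_of_norm_deriv_le_segment_01' hG hbound
  have hfin : ρ z - ρ ζ - ρ (wz ρ p ζ z) + ρ p =
      (ρ (ζ + (1 : ℝ) • X) - ρ (p + (1 : ℝ) • Y)) - (ρ (ζ + (0 : ℝ) • X) - ρ (p + (0 : ℝ) • Y)) := by
    rw [one_smul, one_smul, zero_smul, zero_smul, add_zero, add_zero, hX, hY, add_sub_cancel,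
      add_sub_cancel]
    ring
  rw [hfin, ← Real.norm_eq_abs]
  exact hmv

/-- PROOF. `wz ρ p ζ z - z = (p - ζ) + (small linear map) (z - ζ)`, and `dr ρ ζ j → dr ρ p j` as `ζ → p`. -/
theorem wz_near {U : Set (Ec n)} (hU : IsOpen U) {ρ : Ec n → ℝ} (hρ : ContDiffOn ℝ ∞ ρ U) {p : Ec n}
    (hp : p ∈ U) {R e : ℝ} (he : 0 < e) : ∃ r > 0, ball p r ⊆ U ∧ ∀ ζ ∈ ball p r, ∀ z ∈ ball (0 : Ec n) R,
      ‖wz ρ p ζ z - z‖ ≤ e := by
  set M : ℝ := |R| + ‖p‖ + 1 with hM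
  have hM0 : 0 < M := by positivity
  obtain ⟨r₂, hr₂, hb₂, hn₂⟩ := S2b_near hU hρ hp (κ := e / (2 * M)) (by positivity)
  refine ⟨min r₂ (min (e / 2) 1), lt_min hr₂ (lt_min (by positivity) one_pos),
    (ball_subset_ball (min_le_left _ _)).trans hb₂, fun ζ hζ z hz => ?_⟩
  have h1 : ‖ζ - p‖ < min r₂ (min (e / 2) 1) := by simpa [dist_eq_norm] using hζ
  have h2 : ‖ζ - p‖ ≤ e / 2 := (h1.le.trans (min_le_right _ _)).trans (min_le_left _ _)
  have h3 : ‖ζ - p‖ ≤ 1 := (h1.le.trans (min_le_right _ _)).trans (min_le_right _ _)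
  have h4 : ‖z‖ < R := by simpa [dist_eq_norm] using hz
  have h5 : ‖z - ζ‖ ≤ M := by
    calc ‖z - ζ‖ = ‖z - p - (ζ - p)‖ := by congr 1; abel
      _ ≤ ‖z - p‖ + ‖ζ - p‖ := norm_sub_le _ _
      _ ≤ ‖z‖ + ‖p‖ + 1 := add_le_add (norm_sub_le _ _) h3
      _ ≤ M := by rw [hM]; linarith [le_abs_self R]
  have h6 := hn₂ ζ (ball_subset_ball (min_le_left _ _) hζ) z
  calc ‖wz ρ p ζ z - z‖ = ‖(wz ρ p ζ z - p - (z - ζ)) - (ζ - p)‖ := by congr 1; abel
    _ ≤ ‖wz ρ p ζ z - p - (z - ζ)‖ + ‖ζ - p‖ := norm_sub_le _ _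
    _ ≤ e / (2 * M) * M + e / 2 := add_le_add (h6.trans (mul_le_mul_of_nonneg_left h5 (by positivity))) h2
    _ = e := by field_simp; ring

end Pool.Agent.MPca0fc2.LV
end

section

/-! The interior correction. -/

set_option autoImplicit false

open Metric Set MeasureTheory Filter Topology
open scoped ContDiff

namespace Pool.Agent.MPca0fc2.LV

open Pool.Agent.MPca0fc2.FD (Ec ee)
open Pool.Agent.Lib.MP_ca0fc2_an (leviForm IsStrictlyPseudoconvex SupportData)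

variable {n : ℕ}

/-- Taylor's formula for a smooth function with compact support. -/
private theorem S3b_taylor {θ : Ec n → ℝ} (hθ : ContDiff ℝ ∞ θ) (hc : HasCompactSupport θ) :
    ∃ L : ℝ, 0 < L ∧ ∀ ζ z, θ ζ - θ z - L * ‖ζ - z‖ ^ 2 ≤ fderiv ℝ θ ζ (ζ - z) := by
  have hθ2 : ContDiff ℝ 2 θ := hθ.of_le (WithTop.coe_le_coe.2 le_top)
  have hd : ContDiff ℝ 1 (fderiv ℝ θ) := hθ2.fderiv_right (by norm_num)
  obtain ⟨C, hC⟩ := ContDiff.lipschitzWith_of_hasCompactSupport (hc.fderiv ℝ) hd (by simp)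
  refine ⟨C + 1, by positivity, fun ζ z => ?_⟩
  have h1 : ‖θ z - θ ζ - fderiv ℝ θ ζ (z - ζ)‖ ≤ (C * ‖z - ζ‖) * ‖z - ζ‖ := by
    refine Convex.norm_image_sub_le_of_norm_fderiv_le' (s := segment ℝ ζ z) (𝕜 := ℝ)
      (fun x _ => hθ.differentiable (by simp) x) (fun x hx => ?_) (convex_segment ζ z)
      (left_mem_segment ℝ ζ z) (right_mem_segment ℝ ζ z)
    refine (hC.norm_sub_le x ζ).trans ?_
    refine mul_le_mul_of_nonneg_left ?_ C.2
    obtain ⟨t, ht, rfl⟩ := (segment_eq_image' ℝ ζ z) ▸ hx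
    rw [add_sub_cancel_left, norm_smul, Real.norm_eq_abs, abs_of_nonneg ht.1]
    exact mul_le_of_le_one_left (norm_nonneg _) ht.2
  have h2 : fderiv ℝ θ ζ (ζ - z) = -(fderiv ℝ θ ζ (z - ζ)) := by
    rw [← map_neg, neg_sub]
  have h3 : ‖ζ - z‖ = ‖z - ζ‖ := norm_sub_rev _ _
  rw [Real.norm_eq_abs, abs_le] at h1
  rw [h2, h3]
  nlinarith [h1.1, h1.2, sq_nonneg ‖z - ζ‖]

/-- The interior correction.
PROOF. `θ z = τ (ρ z) * (‖z‖² - R²)` for `z ∈ D` and `0` outside `D`. Its support is in the compact set `{z ∈ U | ρ z ≤ -ε} ⊆ D`, so it is smooth with compact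
support on the whole space. (1) The second derivative is bounded, so Taylor's formula gives `L`. (2) If `ρ ζ ≤ -(3/2) ε`, `ζ ∈ D`, then
`τ (ρ ζ) = 1`, `θ ζ = ‖ζ‖² - R²`, and its derivative at `ζ` is the one of `‖·‖²` (`θ - (‖·‖² - R²) = (1 - τ)(R² - ‖·‖²) ≥ 0` near `ζ` with
equality at `ζ`, a minimum). For all `z` with `‖z‖ ≤ R`: `θ z ≥ ‖z‖² - R²` (as `0 ≤ τ ≤ 1` and `‖z‖² - R² ≤ 0`), and
`‖z‖² - ‖ζ‖² = 2 Re ⟪ζ, z - ζ⟫ + ‖z - ζ‖²`. -/
theorem theta {D U : Set (Ec n)} {ρ : Ec n → ℝ} {c : ℝ} (h : DS D U ρ c) {ε R : ℝ} (hε : 0 < ε)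
    {φ τ : ℝ → ℝ} (hf : FL ε φ τ) (hR : ∀ z ∈ U, ‖z‖ < R) :
    ∃ (θ : Ec n → ℝ) (L : ℝ), 0 < L ∧ ContDiff ℝ ∞ θ ∧ (∀ z, θ z ≤ 0) ∧
      (∀ z ∈ U, -ε ≤ ρ z → θ z = 0) ∧
      (∀ ζ z, θ ζ - θ z - L * ‖ζ - z‖ ^ 2 ≤ fderiv ℝ θ ζ (ζ - z)) ∧
      ∀ ζ ∈ U, ρ ζ ≤ -(3 / 2 * ε) → ∀ z ∈ U, θ ζ - θ z + ‖ζ - z‖ ^ 2 ≤ fderiv ℝ θ ζ (ζ - z) := by
  classical
  have hsq : ∀ z ∈ U, ‖z‖ ^ 2 - R ^ 2 ≤ 0 := by
    intro z hz
    have h1 := hR z hz
    have h2 := norm_nonneg z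
    nlinarith
  let K : Set (Ec n) := {z | z ∈ U ∧ ρ z ≤ -ε}
  have hKU : K ⊆ U := fun z hz => hz.1
  have hK : IsCompact K := by
    have h1 : K = {z | z ∈ U ∧ ρ z ≤ 0} ∩ ρ ⁻¹' (Set.Iic (-ε)) := by
      ext z
      constructor
      · rintro ⟨h1, h2⟩
        exact ⟨⟨h1, by linarith⟩, h2⟩
      · rintro ⟨⟨h1, _⟩, h2⟩
        exact ⟨h1, h2⟩
    have h2 : ContinuousOn ρ {z | z ∈ U ∧ ρ z ≤ 0} := h.sm.continuousOn.mono fun z hz => hz.1
    rw [h1]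
    exact h.cpt.of_isClosed_subset
      (h2.preimage_isClosed_of_isClosed h.cpt.isClosed isClosed_Iic) Set.inter_subset_left
  let θ : Ec n → ℝ := fun z => if z ∈ U then τ (ρ z) * (‖z‖ ^ 2 - R ^ 2) else 0
  have hθU : ∀ z ∈ U, θ z = τ (ρ z) * (‖z‖ ^ 2 - R ^ 2) := fun z hz => if_pos hz
  have hθ0 : ∀ z, z ∉ K → θ z = 0 := by
    intro z hz
    by_cases hzU : z ∈ U
    · rw [hθU z hzU, hf.τz (ρ z) (by
        by_contra hc
        exact hz ⟨hzU, (not_le.mp hc).le⟩), zero_mul]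
    · exact if_neg hzU
  have hev : ∀ z ∈ U, θ =ᶠ[𝓝 z] fun w => τ (ρ w) * (‖w‖ ^ 2 - R ^ 2) := fun z hz =>
    Filter.eventuallyEq_of_mem (h.opn.mem_nhds hz) fun w hw => hθU w hw
  have hsm : ContDiff ℝ ∞ θ := by
    rw [contDiff_iff_contDiffAt]
    intro z
    by_cases hz : z ∈ U
    · refine ContDiffAt.congr_of_eventuallyEq ?_ (hev z hz)
      have h1 : ContDiffAt ℝ ∞ ρ z := h.sm.contDiffAt (h.opn.mem_nhds hz)
      exact (hf.smτ.contDiffAt.comp z h1).mul ((contDiff_norm_sq ℝ).contDiffAt.sub contDiffAt_const)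
    · have h1 : Kᶜ ∈ 𝓝 z := hK.isClosed.isOpen_compl.mem_nhds fun hc => hz hc.1
      exact contDiffAt_const.congr_of_eventuallyEq
        (Filter.eventuallyEq_of_mem h1 fun w hw => hθ0 w hw)
  have hcs : HasCompactSupport θ := HasCompactSupport.intro hK hθ0
  obtain ⟨L, hL, hL2⟩ := S3b_taylor hsm hcs
  refine ⟨θ, L, hL, hsm, ?_, ?_, hL2, ?_⟩
  · intro z
    by_cases hz : z ∈ U
    · rw [hθU z hz]
      exact mul_nonpos_of_nonneg_of_nonpos (hf.τ0 _) (hsq z hz)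
    · exact (if_neg hz).le
  · intro z hz hρ
    rw [hθU z hz, hf.τz _ hρ, zero_mul]
  · intro ζ hζ hρ z hz
    have hτ1 : τ (ρ ζ) = 1 := hf.τo _ hρ
    have hmin : IsLocalMin (fun w => θ w - (‖w‖ ^ 2 - R ^ 2)) ζ := by
      filter_upwards [h.opn.mem_nhds hζ] with w hw
      rw [hθU ζ hζ, hθU w hw, hτ1]
      have h1 := hf.τ1 (ρ w)
      have h2 := hsq w hw
      nlinarith
    have hd1 : HasFDerivAt (fun w : Ec n => ‖w‖ ^ 2 - R ^ 2) (2 • (innerSL ℝ ζ)) ζ :=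
      (hasStrictFDerivAt_norm_sq ζ).hasFDerivAt.sub_const _
    have hd2 : HasFDerivAt θ (fderiv ℝ θ ζ) ζ :=
      (hsm.differentiable (by simp) ζ).hasFDerivAt
    have hd3 := hmin.hasFDerivAt_eq_zero (hd2.sub hd1)
    have hd4 : fderiv ℝ θ ζ (ζ - z) = 2 * inner ℝ ζ (ζ - z) := by
      rw [sub_eq_zero.mp hd3]
      simp
    have h5 : ‖z‖ ^ 2 = ‖ζ‖ ^ 2 - 2 * inner ℝ ζ (ζ - z) + ‖ζ - z‖ ^ 2 := by
      have := norm_sub_sq_real ζ (ζ - z)
      rw [sub_sub_cancel] at this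
      exact this
    have h6 : ‖z‖ ^ 2 - R ^ 2 ≤ θ z := by
      rw [hθU z hz]
      have h1 := hf.τ1 (ρ z)
      have h2 := hsq z hz
      nlinarith
    rw [hd4, hθU ζ hζ, hτ1]
    linarith

end Pool.Agent.MPca0fc2.LV
end
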