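import Pool.Agent.Lib.MP_ca0fc2_an.Mg.G060
import Pool.Agent.Lib.MP_ca0fc2_an.Mg.G066
import Pool.Agent.Lib.MP_ca0fc2_an.Mg.G070
import Pool.Agent.Lib.MP_ca0fc2_an.LV.P2c
import Pool.Agent.Lib.MP_ca0fc2_an.Mg.G051

section

/-! Extension from a hyperplane, and the Gleason decomposition. -/

set_option autoImplicit false

open Metric Set MeasureTheory Filter Topology
open scoped ContDiff

namespace Pool.Agent.MPca0fc2.LV

open Pool.Agent.MPca0fc2.FD (Ec ee)

variable {n : ℕ}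

/-- Extension of a holomorphic function from a hyperplane section.
PROOF. `Ω₁ = {z ∈ Ω | cE a (tl z) ∈ Ω}`, `Ω₂ = {z ∈ Ω | z 0 ≠ a}`, open with union `Ω` (if `z 0 = a` then `cE a (tl z) = z`). `cousin` for
`G z = h (tl z) / (z 0 - a)`: `G = G₁ - G₂`. Let `H z = h (tl z) - (z 0 - a) * G₁ z` on `Ω₁` and
`H z = -(z 0 - a) * G₂ z` on `Ω₂`; these agree on `Ω₁ ∩ Ω₂`. -/
theorem extension {Ω : Set (Ec (n + 1))} (hΩ : PshEx Ω) (a : ℂ) {h : Ec n → ℂ}
    (hh : DifferentiableOn ℂ h {w : Ec n | cE a w ∈ Ω}) :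
    ∃ H : Ec (n + 1) → ℂ, DifferentiableOn ℂ H Ω ∧ ∀ w : Ec n, cE a w ∈ Ω → H (cE a w) = h w := by
  classical
  obtain ⟨ψ, hψ⟩ := hΩ
  have hopn : IsOpen Ω := hψ.opn
  have hcoord : Differentiable ℂ fun z : Ec (n + 1) => z 0 - a := by fun_prop
  have htl : Differentiable ℂ fun z : Ec (n + 1) => tl z := tl_diff.1
  have hcE : Differentiable ℂ fun w : Ec n => cE a w := (cE_diff a).1
  set Ω₁ : Set (Ec (n + 1)) := {z | z ∈ Ω ∧ cE a (tl z) ∈ Ω} with hΩ₁
  set Ω₂ : Set (Ec (n + 1)) := {z | z ∈ Ω ∧ z 0 - a ≠ 0} with hΩ₂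
  have ho1 : IsOpen Ω₁ := by
    refine hopn.inter (hopn.preimage (f := fun z : Ec (n + 1) => cE a (tl z)) ?_)
    exact hcE.continuous.comp htl.continuous
  have ho2 : IsOpen Ω₂ := by
    refine hopn.inter ?_
    exact isOpen_ne_fun hcoord.continuous continuous_const
  have hun : Ω₁ ∪ Ω₂ = Ω := by
    ext z
    constructor
    · rintro (hz | hz)
      · exact hz.1
      · exact hz.1
    · intro hz
      by_cases h0 : z 0 - a = 0
      · left
        refine ⟨hz, ?_⟩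
        have h1 : a = z 0 := (sub_eq_zero.mp h0).symm
        rw [h1, cE_tl]
        exact hz
      · right
        exact ⟨hz, h0⟩
  have hslice : IsOpen {w : Ec n | cE a w ∈ Ω} := hopn.preimage hcE.continuous
  have hhtl : ∀ z ∈ Ω₁, DifferentiableAt ℂ (fun z : Ec (n + 1) => h (tl z)) z := by
    intro z hz
    have h1 : DifferentiableAt ℂ h (tl z) := hh.differentiableAt (hslice.mem_nhds hz.2)
    exact h1.comp z (htl z)
  have hG : DifferentiableOn ℂ (fun z : Ec (n + 1) => h (tl z) / (z 0 - a)) (Ω₁ ∩ Ω₂) := by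
    intro z hz
    have h1 : DifferentiableAt ℂ (fun z : Ec (n + 1) => h (tl z) / (z 0 - a)) z := by
      simp only [div_eq_mul_inv]
      exact (hhtl z hz.1).mul ((hcoord z).fun_inv hz.2.2)
    exact h1.differentiableWithinAt
  obtain ⟨G₁, G₂, hG1, hG2, hGG⟩ := cousin ⟨ψ, hψ⟩ ho1 ho2 hun hG
  set H : Ec (n + 1) → ℂ := fun z =>
    if z ∈ Ω₁ then h (tl z) - (z 0 - a) * G₁ z else -((z 0 - a) * G₂ z) with hH
  have hH2 : ∀ z ∈ Ω₂, H z = -((z 0 - a) * G₂ z) := by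
    intro z hz
    by_cases hz1 : z ∈ Ω₁
    · have h1 : H z = h (tl z) - (z 0 - a) * G₁ z := if_pos hz1
      have h2 := hGG z ⟨hz1, hz⟩
      rw [div_eq_iff hz.2] at h2
      rw [h1, h2]
      ring
    · exact if_neg hz1
  refine ⟨H, fun z hz => ?_, fun w hw => ?_⟩
  · rw [← hun] at hz
    rcases hz with hz | hz
    · have h1 : DifferentiableAt ℂ (fun z : Ec (n + 1) => h (tl z) - (z 0 - a) * G₁ z) z :=
        (hhtl z hz).sub ((hcoord z).mul (hG1.differentiableAt (ho1.mem_nhds hz)))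
      have h2 : H =ᶠ[𝓝 z] fun z : Ec (n + 1) => h (tl z) - (z 0 - a) * G₁ z := by
        filter_upwards [ho1.mem_nhds hz] with y hy
        exact if_pos hy
      exact (h1.congr_of_eventuallyEq h2).differentiableWithinAt
    · have h1 : DifferentiableAt ℂ (fun z : Ec (n + 1) => -((z 0 - a) * G₂ z)) z :=
        ((hcoord z).mul (hG2.differentiableAt (ho2.mem_nhds hz))).neg
      have h2 : H =ᶠ[𝓝 z] fun z : Ec (n + 1) => -((z 0 - a) * G₂ z) := by
        filter_upwards [ho2.mem_nhds hz] with y hy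
        exact hH2 y hy
      exact (h1.congr_of_eventuallyEq h2).differentiableWithinAt
  · obtain ⟨h1, h2, _⟩ := tl_cE a w
    have hw1 : cE a w ∈ Ω₁ := ⟨hw, by rw [h1]; exact hw⟩
    have h3 : H (cE a w) = h (tl (cE a w)) - ((cE a w) 0 - a) * G₁ (cE a w) := if_pos hw1
    rw [h3, h1, h2, sub_self, zero_mul, sub_zero]

/-- The Gleason decomposition.
PROOF. Induction on `n`. For `n = 0` the space has one point, so `g = 0` on `Ω`, the empty sum. Step: `a = p 0`,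
`Ω_a = {w | cE a w ∈ Ω}` (`psh_slice`), `tl p ∈ Ω_a`; the function `w ↦ g (cE a w)` is holomorphic on `Ω_a` and `0` at `tl p`, so it is
`∑_k h_k w * (w k - (tl p) k)`. `extension` gives `H_k`. `R z = g z - ∑_k H_k z * (z k.succ - p k.succ)` vanishes on the slice;
`division`: `R z = (z 0 - a) * H₀ z`. `Fin.sum_univ_succ`. -/
theorem gleason {Ω : Set (Ec n)} (hΩ : PshEx Ω) {p : Ec n} (hp : p ∈ Ω) {g : Ec n → ℂ}
    (hg : DifferentiableOn ℂ g Ω) (hgp : g p = 0) :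
    ∃ H : Fin n → Ec n → ℂ, (∀ k, DifferentiableOn ℂ (H k) Ω) ∧
      ∀ z ∈ Ω, g z = ∑ k, H k z * (z k - p k) := by
  induction n with
  | zero =>
    refine ⟨fun k => k.elim0, fun k => k.elim0, fun z _ => ?_⟩
    have h1 : z = p := Subsingleton.elim z p
    rw [h1, hgp]
    simp
  | succ n ih =>
    have hopn : IsOpen Ω := by
      obtain ⟨ψ, hψ⟩ := hΩ
      exact hψ.opn
    have hcE : Differentiable ℂ fun w : Ec n => cE (p 0) w := (cE_diff (p 0)).1
    have hpa : cE (p 0) (tl p) = p := cE_tl p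
    have hga : DifferentiableOn ℂ (fun w : Ec n => g (cE (p 0) w)) {w : Ec n | cE (p 0) w ∈ Ω} := by
      intro w hw
      have h1 : DifferentiableAt ℂ g (cE (p 0) w) := hg.differentiableAt (hopn.mem_nhds hw)
      exact (h1.comp w (hcE w)).differentiableWithinAt
    obtain ⟨h, hh1, hh2⟩ := ih (psh_slice hΩ (p 0)) (p := tl p)
      (by show cE (p 0) (tl p) ∈ Ω; rw [hpa]; exact hp) hga
      (by show g (cE (p 0) (tl p)) = 0; rw [hpa]; exact hgp)
    choose H hH1 hH2 using fun k => extension hΩ (p 0) (hh1 k)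
    have hR : DifferentiableOn ℂ
        (fun z : Ec (n + 1) => g z - ∑ k, H k z * (z k.succ - p k.succ)) Ω := by
      refine hg.sub ?_
      refine DifferentiableOn.fun_sum fun k _ => ?_
      refine (hH1 k).mul ?_
      have h1 : Differentiable ℂ fun z : Ec (n + 1) => z k.succ - p k.succ := by fun_prop
      exact h1.differentiableOn
    have hR0 : ∀ w : Ec n, cE (p 0) w ∈ Ω →
        (fun z : Ec (n + 1) => g z - ∑ k, H k z * (z k.succ - p k.succ)) (cE (p 0) w) = 0 := by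
      intro w hw
      obtain ⟨_, _, h3⟩ := tl_cE (p 0) w
      have h4 := hh2 w hw
      show g (cE (p 0) w) - ∑ k, H k (cE (p 0) w) * ((cE (p 0) w) k.succ - p k.succ) = 0
      rw [sub_eq_zero]
      have h5 : g (cE (p 0) w) = ∑ k, h k w * (w k - (tl p) k) := h4
      rw [h5]
      refine Finset.sum_congr rfl fun k _ => ?_
      rw [hH2 k w hw, h3 k]
      rfl
    obtain ⟨H₀, hH₀, hdiv⟩ := division hopn (p 0) hR hR0
    refine ⟨Fin.cons H₀ H, fun k => ?_, fun z hz => ?_⟩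
    · refine Fin.cases ?_ (fun k => ?_) k
      · exact hH₀
      · exact hH1 k
    · rw [Fin.sum_univ_succ]
      simp only [Fin.cons_zero, Fin.cons_succ]
      have h1 := hdiv z hz
      have h2 : g z - ∑ k, H k z * (z k.succ - p k.succ) = (z 0 - p 0) * H₀ z := h1
      rw [sub_eq_iff_eq_add] at h2
      rw [h2]
      ring

end Pool.Agent.MPca0fc2.LV
end

section

/-! The support functions for the points near one boundary point. -/

set_option autoImplicit false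

open Metric Set MeasureTheory Filter Topology
open scoped ContDiff

namespace Pool.Agent.MPca0fc2.LV

open Pool.Agent.MPca0fc2.FD (Ec ee)

variable {n : ℕ}

private theorem S2c_coordC (j : Fin n) : Differentiable ℂ (fun z : Ec n => z j) :=
  (EuclideanSpace.proj (𝕜 := ℂ) j).differentiable

private theorem S2c_coordR (j : Fin n) : ContDiff ℝ 2 (fun z : Ec n => z j) :=
  (EuclideanSpace.proj (𝕜 := ℂ) j).contDiff.restrict_scalars ℝ

private theorem S2c_wz_hol (ρ : Ec n → ℝ) (p ζ : Ec n) : Differentiable ℂ (wz ρ p ζ) := by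
  unfold wz
  have h1 : Differentiable ℂ (fun z : Ec n => ∑ j, (dr ρ ζ j - dr ρ p j) * (z j - ζ j)) := by
    refine Differentiable.fun_sum fun j _ => ?_
    exact ((S2c_coordC j).sub (differentiable_const _)).const_mul _
  have h2 : Differentiable ℂ (fun z : Ec n => (∑ j, (dr ρ ζ j - dr ρ p j) * (z j - ζ j)) /
      ((∑ k, ‖dr ρ p k‖ ^ 2 : ℝ) : ℂ)) := by
    simp only [div_eq_mul_inv]
    exact h1.mul_const _
  exact ((differentiable_const _).add (differentiable_id.sub (differentiable_const _))).add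
    (h2.smul_const _)

private theorem S2c_dr_c2 {U : Set (Ec n)} (hU : IsOpen U) {ρ : Ec n → ℝ}
    (hρ : ContDiffOn ℝ ∞ ρ U) (j : Fin n) : ContDiffOn ℝ 2 (fun z => dr ρ z j) U :=
  (dr_smooth hU hρ j).of_le (WithTop.coe_le_coe.mpr le_top)

private theorem S2c_wz_c2 {U V : Set (Ec n)} (hU : IsOpen U) {ρ : Ec n → ℝ}
    (hρ : ContDiffOn ℝ ∞ ρ U) (p : Ec n) {B : Set (Ec n)} (hB : B ⊆ U) :
    ContDiffOn ℝ 2 (fun q : Ec n × Ec n => wz ρ p q.2 q.1) (V ×ˢ B) := by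
  unfold wz
  have hs : ContDiffOn ℝ 2 (fun q : Ec n × Ec n => q.2) (V ×ˢ B) := contDiff_snd.contDiffOn
  have hd : ∀ j, ContDiffOn ℝ 2 (fun q : Ec n × Ec n => dr ρ q.2 j) (V ×ˢ B) := fun j =>
    (S2c_dr_c2 hU hρ j).comp hs fun q hq => hB hq.2
  have h1 : ContDiffOn ℝ 2 (fun q : Ec n × Ec n => ∑ j, (dr ρ q.2 j - dr ρ p j) * (q.1 j - q.2 j))
      (V ×ˢ B) := by
    refine ContDiffOn.sum fun j _ => ?_
    refine ((hd j).sub contDiffOn_const).mul ?_
    exact (((S2c_coordR j).comp contDiff_fst).sub ((S2c_coordR j).comp contDiff_snd)).contDiffOn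
  have h2 : ContDiffOn ℝ 2 (fun q : Ec n × Ec n =>
      (∑ j, (dr ρ q.2 j - dr ρ p j) * (q.1 j - q.2 j)) / (∑ k, ‖dr ρ p k‖ ^ 2 : ℝ)) (V ×ˢ B) :=
    h1.div_const _
  exact ((contDiffOn_const.add (contDiff_fst.sub contDiff_snd).contDiffOn)).add
    (h2.smul contDiffOn_const)

/-- The support functions for the points near `p`.
PROOF. `peak` gives `W, g, r₀, b`; `ds_small` gives `Ω` with an exhaustion function, `closure D ⊆ Ω ⊆ U ∩ W` (`p ∈ closure D` by `ds_closure`);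
`gleason` gives `H`; `hh = hz ρ p H`. `peak_deriv`, `hz_diag`, `dr_apply`: the condition on the diagonal. `second_diff` with `e = b / 4` gives `r₂` (also `4 r₂ < r₀`, so
`wz ρ p ζ z ∈ ball p r₀` for `ζ, z ∈ ball p r₂`). For `ζ, z ∈ ball p r₂`: `Re g (w) + ρ z - ρ ζ ≥ b ‖w - p‖² + (ρ z - ρ ζ - ρ w + ρ p) ≥ (b / 2) ‖z - ζ‖²`
(`ρ p = 0`): the first case. Far points: on the compact set `closure D \ ball p (r₂ / 2)` the real part of `g` is at least `2 m > 0`; there is `d > 0` such that the closed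
`3 d`-thickening of `closure D` is in `Ω`, `3 d < r₂ / 2`, and `Re g ≥ m` at the points of `Ω` whose distance from `closure D \ ball p (r₂ / 2)` is at most
`2 d` (uniform continuity on a compact set). `V` is the open `d`-thickening of `closure D` and `wz_near` with
`e = d` gives `r ≤ d, r₂ / 4`: for `ζ ∈ ball p r`, `z ∈ V`: `w = wz ρ p ζ z ∈ Ω`, and if `z ∉ ball p r₂`, then `z` is at distance `< d` from a point
of `closure D \ ball p (r₂ / 2)`, `w` at distance `< 2 d`: `Re g w ≥ m`. `hz_sum`. Smoothness: `H k` is holomorphic, so `C²` (`FD.hol_c2`), composed with the smooth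
map `wz` (`dr_smooth`); `ball p r ⊆ V` (`p ∈ closure D`, `r ≤ d`). -/
theorem fam {D U : Set (Ec n)} {ρ : Ec n → ℝ} {c : ℝ} (h : DS D U ρ c) {p : Ec n} (hp : p ∈ U)
    (hp0 : ρ p = 0) : ∃ (V : Set (Ec n)) (r c₁ m : ℝ) (hh : Ec n → Ec n → Fin n → ℂ), IsOpen V ∧
      closure D ⊆ V ∧ V ⊆ U ∧ 0 < r ∧ 0 < c₁ ∧ 0 < m ∧ ball p r ⊆ V ∧
      ContDiffOn ℝ 2 (fun q : Ec n × Ec n => hh q.1 q.2) (V ×ˢ ball p r) ∧
      (∀ ζ ∈ ball p r, DifferentiableOn ℂ (fun z => hh z ζ) V) ∧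
      (∀ ζ ∈ ball p r, ∀ X, fderiv ℝ ρ ζ X = 2 * (∑ k, hh ζ ζ k * X k).re) ∧
      ∀ ζ ∈ ball p r, ∀ z ∈ V, ρ ζ - ρ z + c₁ * ‖ζ - z‖ ^ 2 ≤ 2 * (∑ k, hh z ζ k * (ζ k - z k)).re ∨
        m ≤ 2 * (∑ k, hh z ζ k * (ζ k - z k)).re := by
  obtain ⟨W, g, r₀, b, hW, hDW, hWU, hgW, hgp, hgpos, hr₀, hb, hballW, hest⟩ := peak h hp hp0
  have hpD : p ∈ closure D := by
    rw [ds_closure h]
    exact ⟨hp, hp0.le⟩
  have hDc : IsCompact (closure D) := by
    rw [ds_closure h]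
    exact h.cpt
  obtain ⟨Ω, hPsh, hΩ, hDΩ, hΩUW, -⟩ := ds_small h hW hDW one_pos
  have hΩW : Ω ⊆ W := fun z hz => (hΩUW hz).2
  have hΩU : Ω ⊆ U := fun z hz => (hΩUW hz).1
  have hpΩ : p ∈ Ω := hDΩ hpD
  obtain ⟨H, hH, hgH⟩ := gleason hPsh hpΩ (hgW.mono hΩW) hgp
  have hN : fderiv ℝ ρ p ≠ 0 := h.nd p hp hp0
  have hρd : DifferentiableAt ℝ ρ p :=
    (h.sm.contDiffAt (h.opn.mem_nhds hp)).differentiableAt (by simp)
  have hHp : ∀ k, H k p = -2 * dr ρ p k := fun k =>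
    peak_deriv hr₀ hb hρd hp0 hgp hest (hΩ.mem_nhds hpΩ) hH hgH k
  obtain ⟨r₂', hr₂', hball₂, hsec⟩ := second_diff h.opn h.sm hp hN (e := b / 4) (by linarith)
  set r₂ : ℝ := min r₂' (r₀ / 4) with hr₂def
  have hr₂ : 0 < r₂ := lt_min hr₂' (by linarith)
  have hr₂a : r₂ ≤ r₂' := min_le_left _ _
  have hr₂b : r₂ ≤ r₀ / 4 := min_le_right _ _
  -- far points
  set K : Set (Ec n) := closure D \ ball p (r₂ / 2) with hKdef
  have hK : IsCompact K := hDc.diff isOpen_ball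
  have hgcont : ContinuousOn (fun z => (g z).re) Ω :=
    Complex.continuous_re.comp_continuousOn (hgW.mono hΩW).continuousOn
  obtain ⟨m, hm, hmK⟩ : ∃ m : ℝ, 0 < m ∧ ∀ z ∈ K, m < (g z).re := by
    rcases K.eq_empty_or_nonempty with hKe | hKn
    · exact ⟨1, one_pos, fun z hz => by rw [hKe] at hz; exact absurd hz (by simp)⟩
    · obtain ⟨z₀, hz₀, hmin⟩ := hK.exists_isMinOn hKn
        (hgcont.mono fun z hz => hDΩ hz.1)
      have hz₀p : z₀ ≠ p := by
        rintro rfl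
        exact hz₀.2 (mem_ball_self (by linarith))
      have h1 : 0 < (g z₀).re := hgpos z₀ hz₀.1 hz₀p
      refine ⟨(g z₀).re / 2, by linarith, fun z hz => ?_⟩
      have h2 : (g z₀).re ≤ (g z).re := hmin hz
      linarith
  set N : Set (Ec n) := Ω ∩ (fun z => (g z).re) ⁻¹' Ioi m with hNdef
  have hNo : IsOpen N := hgcont.isOpen_inter_preimage hΩ isOpen_Ioi
  have hKN : K ⊆ N := fun z hz => ⟨hDΩ hz.1, hmK z hz⟩
  obtain ⟨δ, hδ, hδN⟩ := hK.exists_thickening_subset_open hNo hKN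
  obtain ⟨δ', hδ', hδΩ⟩ := hDc.exists_thickening_subset_open hΩ hDΩ
  set d : ℝ := min (δ / 2) (min (δ' / 2) (r₂ / 2)) with hddef
  have hd : 0 < d := lt_min (by linarith) (lt_min (by linarith) (by linarith))
  have hd1 : 2 * d ≤ δ := by
    have : d ≤ δ / 2 := min_le_left _ _
    linarith
  have hd2 : 2 * d ≤ δ' := by
    have : d ≤ δ' / 2 := (min_le_right _ _).trans (min_le_left _ _)
    linarith
  have hd3 : d ≤ r₂ / 2 := (min_le_right _ _).trans (min_le_right _ _)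
  set V : Set (Ec n) := thickening d (closure D) with hVdef
  have hVo : IsOpen V := isOpen_thickening
  have hDV : closure D ⊆ V := self_subset_thickening hd _
  have hVΩ : V ⊆ Ω := (thickening_mono (by linarith) _).trans hδΩ
  obtain ⟨R, hR⟩ : ∃ R : ℝ, V ⊆ ball (0 : Ec n) R := by
    have hVb : Bornology.IsBounded V := hDc.isBounded.thickening
    obtain ⟨R, hR⟩ := hVb.subset_ball (0 : Ec n)
    exact ⟨R, hR⟩
  obtain ⟨r₃, hr₃, hball₃, hnear⟩ := wz_near h.opn h.sm hp (R := R) hd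
  set r : ℝ := min r₃ (min d (r₂ / 4)) with hrdef
  have hr : 0 < r := lt_min hr₃ (lt_min hd (by linarith))
  have hr3 : r ≤ r₃ := min_le_left _ _
  have hrd : r ≤ d := (min_le_right _ _).trans (min_le_left _ _)
  have hrr₂ : r ≤ r₂ / 4 := (min_le_right _ _).trans (min_le_right _ _)
  have hrV : ball p r ⊆ V := by
    intro z hz
    rw [hVdef, mem_thickening_iff]
    exact ⟨p, hpD, (mem_ball.mp hz).trans_le hrd⟩
  have hrU : ball p r ⊆ U := hrV.trans (hVΩ.trans hΩU)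
  -- the points `w`
  have hw : ∀ ζ ∈ ball p r, ∀ z ∈ V, wz ρ p ζ z ∈ Ω ∧
      (z ∉ ball p r₂ → m < (g (wz ρ p ζ z)).re) := by
    intro ζ hζ z hz
    have h1 : ‖wz ρ p ζ z - z‖ ≤ d := hnear ζ (ball_subset_ball hr3 hζ) z (hR hz)
    obtain ⟨y, hy, hzy⟩ := mem_thickening_iff.mp hz
    have h2 : dist (wz ρ p ζ z) y < 2 * d := by
      have h3 := dist_triangle (wz ρ p ζ z) z y
      rw [dist_eq_norm (wz ρ p ζ z) z] at h3
      linarith
    refine ⟨hδΩ (mem_thickening_iff.mpr ⟨y, hy, by linarith⟩), fun hzb => ?_⟩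
    have h4 : y ∈ K := by
      refine ⟨hy, fun hyb => hzb ?_⟩
      rw [mem_ball] at hyb ⊢
      have h5 := dist_triangle z y p
      linarith
    exact (hδN (mem_thickening_iff.mpr ⟨y, h4, by linarith⟩)).2
  have hsum : ∀ ζ ∈ ball p r, ∀ z ∈ V,
      2 * (∑ k, hz ρ p H z ζ k * (ζ k - z k)).re = (g (wz ρ p ζ z)).re := by
    intro ζ hζ z hz'
    have h1 := hz_sum (ρ := ρ) (p := p) (H := H) z ζ (hgH _ (hw ζ hζ z hz').1)
    rw [← h1]
    simp [Complex.mul_re]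
  refine ⟨V, r, b / 2, m, hz ρ p H, hVo, hDV, hVΩ.trans hΩU, hr, by linarith, hm, hrV,
    ?_, ?_, ?_, ?_⟩
  · have hwc := S2c_wz_c2 (V := V) h.opn h.sm p hrU
    have hHc : ∀ k, ContDiffOn ℝ 2 (fun q : Ec n × Ec n => H k (wz ρ p q.2 q.1))
        (V ×ˢ ball p r) := fun k =>
      (FD.hol_c2 hΩ (hH k)).comp hwc fun q hq => (hw q.2 hq.2 q.1 hq.1).1
    have hs : ContDiffOn ℝ 2 (fun q : Ec n × Ec n => q.2) (V ×ˢ ball p r) :=
      contDiff_snd.contDiffOn
    refine contDiffOn_pi.2 fun j => ?_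
    have hdj : ContDiffOn ℝ 2 (fun q : Ec n × Ec n => dr ρ q.2 j) (V ×ˢ ball p r) :=
      (S2c_dr_c2 h.opn h.sm j).comp hs fun q hq => hrU hq.2
    unfold hz
    refine contDiffOn_const.mul ((hHc j).add ?_)
    refine ContDiffOn.mul (ContDiffOn.div_const ?_ _) (hdj.sub contDiffOn_const)
    exact ContDiffOn.sum fun k _ => (hHc k).mul contDiffOn_const
  · intro ζ hζ
    have hHd : ∀ k, DifferentiableOn ℂ (fun z => H k (wz ρ p ζ z)) V := fun k =>
      (hH k).comp (S2c_wz_hol ρ p ζ).differentiableOn fun z hz' => (hw ζ hζ z hz').1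
    refine differentiableOn_pi.2 fun j => ?_
    unfold hz
    have h1 : DifferentiableOn ℂ (fun z => ∑ k, H k (wz ρ p ζ z) *
        (starRingEnd ℂ) (dr ρ p k)) V := DifferentiableOn.fun_sum fun k _ => (hHd k).mul_const _
    have h2 : DifferentiableOn ℂ (fun z => (∑ k, H k (wz ρ p ζ z) *
        (starRingEnd ℂ) (dr ρ p k)) / ((∑ k, ‖dr ρ p k‖ ^ 2 : ℝ) : ℂ)) V := by
      simp only [div_eq_mul_inv]
      exact h1.mul_const _
    exact ((hHd j).add (h2.mul_const _)).const_mul _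
  · intro ζ hζ X
    rw [dr_apply]
    simp_rw [hz_diag hN hHp]
  · intro ζ hζ z hz'
    rw [hsum ζ hζ z hz']
    by_cases hzb : z ∈ ball p r₂
    · left
      have hζb : ζ ∈ ball p r₂ := ball_subset_ball (by linarith) hζ
      obtain ⟨s1, s2, s3⟩ := hsec ζ (ball_subset_ball hr₂a hζb) z (ball_subset_ball hr₂a hzb)
      have hwb : wz ρ p ζ z ∈ ball p r₀ := by
        rw [mem_ball, dist_eq_norm]
        have h1 : ‖z - ζ‖ < 2 * r₂ := by
          have h2 := dist_triangle_right z ζ p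
          rw [mem_ball] at hζb hzb
          rw [← dist_eq_norm]
          linarith
        linarith
      have h3 := hest _ hwb
      have h4 := (abs_le.mp s1).1
      rw [hp0] at h4
      have h5 : b * (3 / 4 * ‖z - ζ‖ ^ 2) ≤ b * ‖wz ρ p ζ z - p‖ ^ 2 :=
        mul_le_mul_of_nonneg_left s2 hb.le
      rw [norm_sub_rev ζ z]
      linarith
    · right
      exact ((hw ζ hζ z hz').2 hzb).le

end Pool.Agent.MPca0fc2.LV
end

section

/-! The support functions for all the points near the boundary. -/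

set_option autoImplicit false

open Metric Set MeasureTheory Filter Topology
open scoped ContDiff

namespace Pool.Agent.MPca0fc2.LV

open Pool.Agent.MPca0fc2.FD (Ec ee)
open Pool.Agent.Lib.MP_ca0fc2_an (leviForm IsStrictlyPseudoconvex SupportData)

variable {n : ℕ}

private theorem S3_min (t : Finset (Ec n)) (f : Ec n → ℝ) (hf : ∀ p ∈ t, 0 < f p) :
    ∃ c > 0, ∀ p ∈ t, c ≤ f p := by
  classical
  induction t using Finset.induction_on with
  | empty => exact ⟨1, one_pos, by simp⟩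
  | insert a s _ ih =>
    obtain ⟨c, hc, h⟩ := ih fun p hp => hf p (Finset.mem_insert_of_mem hp)
    refine ⟨min c (f a), lt_min hc (hf a (Finset.mem_insert_self a s)), fun p hp => ?_⟩
    rcases Finset.mem_insert.1 hp with rfl | hp
    · exact min_le_right _ _
    · exact (min_le_left _ _).trans (h p hp)

/-- The support functions for all the points near the boundary.
PROOF. `B = {z ∈ U | ρ z = 0}` is compact (closed in the compact set `cpt`). `fam` for each `p ∈ B`; finitely many balls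
`ball (p_i) (r_i / 2)` cover `B`. `V` is an open set with compact closure in `⋂ V_i ∩ U` (`U` if there are no `i`), with `closure D ⊆ V` and
`V ⊆ D ∪ ⋃ ball (p_i) (r_i / 2)` (this set is open and contains `closure D = D ∪ B`, `ds_closure`). The compact set
`closure D \ ⋃ ball (p_i) (r_i / 2)` is in `D`, so `ρ ≤ -2 ε < 0` there, so a point `ζ ∈ V` with `-ε < ρ ζ` is in some
`ball (p_i) (r_i / 2)`. Let `a i` be smooth, `0 ≤ a i`, positive on `ball (p_i) (r_i / 2)`, with support in `closedBall (p_i) (3 r_i / 4)` (`ContDiffBump`), and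
`χ i = a i / ∑ a k` on the union of the balls. `hh z ζ = ∑ χ_i ζ * hh_i z ζ` (`hh_i` replaced by `0` outside `ball (p_i) r_i`). The condition `∨`: with
`A = ρ ζ - ρ z + c₁ ‖ζ - z‖²`, `c₁`, `m` the minima of the `c_i`, `m_i`: each term with `χ_i ζ > 0` is `≥ min A m`, so the sum is. -/
theorem fam_all {D U : Set (Ec n)} {ρ : Ec n → ℝ} {c : ℝ} (h : DS D U ρ c) :
    ∃ (V : Set (Ec n)) (ε c₁ m : ℝ) (hh : Ec n → Ec n → Fin n → ℂ), IsOpen V ∧ closure D ⊆ V ∧
      V ⊆ U ∧ 0 < ε ∧ 0 < c₁ ∧ 0 < m ∧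
      ContDiffOn ℝ 2 (fun q : Ec n × Ec n => hh q.1 q.2) (V ×ˢ {ζ | ζ ∈ V ∧ -ε < ρ ζ}) ∧
      (∀ ζ ∈ V, -ε < ρ ζ → DifferentiableOn ℂ (fun z => hh z ζ) V) ∧
      (∀ ζ ∈ V, -ε < ρ ζ → ∀ X, fderiv ℝ ρ ζ X = 2 * (∑ k, hh ζ ζ k * X k).re) ∧
      ∀ ζ ∈ V, -ε < ρ ζ → ∀ z ∈ V,
        ρ ζ - ρ z + c₁ * ‖ζ - z‖ ^ 2 ≤ 2 * (∑ k, hh z ζ k * (ζ k - z k)).re ∨
          m ≤ 2 * (∑ k, hh z ζ k * (ζ k - z k)).re := by
  classical
  have hρc : ContinuousOn ρ U := h.sm.continuousOn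
  have hcl := ds_closure h
  have hclc : IsCompact (closure D) := by rw [hcl]; exact h.cpt
  have hclU : closure D ⊆ U := by rw [hcl]; exact fun z hz => hz.1
  have hDo : IsOpen D := by
    rw [h.eq]
    exact hρc.isOpen_inter_preimage h.opn isOpen_Iio
  have hBc : IsCompact (closure D ∩ {z | ρ z = 0}) := by
    have : IsClosed (closure D ∩ ρ ⁻¹' {0}) :=
      (hρc.mono hclU).preimage_isClosed_of_isClosed isClosed_closure isClosed_singleton
    exact hclc.of_isClosed_subset this inter_subset_left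
  have key : ∀ p : Ec n, p ∈ closure D ∩ {z | ρ z = 0} →
      ∃ (V : Set (Ec n)) (r c₁ m : ℝ) (hh : Ec n → Ec n → Fin n → ℂ), IsOpen V ∧
      closure D ⊆ V ∧ V ⊆ U ∧ 0 < r ∧ 0 < c₁ ∧ 0 < m ∧ ball p r ⊆ V ∧
      ContDiffOn ℝ 2 (fun q : Ec n × Ec n => hh q.1 q.2) (V ×ˢ ball p r) ∧
      (∀ ζ ∈ ball p r, DifferentiableOn ℂ (fun z => hh z ζ) V) ∧
      (∀ ζ ∈ ball p r, ∀ X, fderiv ℝ ρ ζ X = 2 * (∑ k, hh ζ ζ k * X k).re) ∧
      ∀ ζ ∈ ball p r, ∀ z ∈ V, ρ ζ - ρ z + c₁ * ‖ζ - z‖ ^ 2 ≤ 2 * (∑ k, hh z ζ k * (ζ k - z k)).re ∨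
        m ≤ 2 * (∑ k, hh z ζ k * (ζ k - z k)).re :=
    fun p hp => fam h (hclU hp.1) hp.2
  choose! Vf r cf mf H hVo hVD hVU hr hcf hmf hbV hsm hhol hdiag hest using key
  obtain ⟨t, ht, htc⟩ := hBc.elim_nhds_subcover (fun p => ball p (r p / 2))
    fun p hp => ball_mem_nhds p (half_pos (hr p hp))
  obtain ⟨c₁, hc₁, hc₁t⟩ := S3_min t cf fun p hp => hcf p (ht p hp)
  obtain ⟨m, hm, hmt⟩ := S3_min t mf fun p hp => hmf p (ht p hp)
  set T : Set (Ec n) := ⋃ p ∈ t, ball p (r p / 2) with hT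
  have hTo : IsOpen T := isOpen_biUnion fun p _ => isOpen_ball
  -- the number ε
  have hε : ∃ ε > 0, ∀ z ∈ D, z ∉ T → ρ z < -ε := by
    have hKc : IsCompact (closure D \ T) := hclc.diff hTo
    rcases (closure D \ T).eq_empty_or_nonempty with he | hne
    · refine ⟨1, one_pos, fun z hz hzT => ?_⟩
      exact absurd (show z ∈ closure D \ T from ⟨subset_closure hz, hzT⟩) (by rw [he]; simp)
    · obtain ⟨z₀, hz₀, hmax⟩ := hKc.exists_isMaxOn hne
        (hρc.mono (sdiff_subset.trans hclU))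
      have h1 : ρ z₀ ≤ 0 := by
        have := hz₀.1
        rw [hcl] at this
        exact this.2
      have h2 : ρ z₀ ≠ 0 := fun h0 => hz₀.2 (htc ⟨hz₀.1, h0⟩)
      have h3 : ρ z₀ < 0 := lt_of_le_of_ne h1 h2
      refine ⟨-ρ z₀ / 2, by linarith, fun z hz hzT => ?_⟩
      have := hmax (show z ∈ closure D \ T from ⟨subset_closure hz, hzT⟩)
      simp only [mem_ofPred_eq] at this
      linarith
  obtain ⟨ε, hε0, hεD⟩ := hε
  -- the cut-off functions
  have hbump : ∀ p : Ec n, ∃ a : Ec n → ℝ, p ∈ t → ContDiff ℝ 2 a ∧ (∀ x, 0 ≤ a x) ∧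
      (∀ x ∈ ball p (r p / 2), 0 < a x) ∧ (∀ x, 3 * r p / 4 ≤ dist x p → a x = 0) := by
    intro p
    by_cases hp : p ∈ t
    · have hrp := hr p (ht p hp)
      let f : ContDiffBump p := ⟨r p / 2, 3 * r p / 4, by linarith, by linarith⟩
      refine ⟨f, fun _ => ⟨f.contDiff, fun x => f.nonneg, fun x hx => ?_, fun x hx => f.zero_of_le_dist hx⟩⟩
      rw [f.one_of_mem_closedBall (ball_subset_closedBall hx)]
      exact one_pos
    · exact ⟨0, fun h' => absurd h' hp⟩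
  choose a ha using hbump
  have hasm : ∀ p ∈ t, ContDiff ℝ 2 (a p) := fun p hp => (ha p hp).1
  have ha0 : ∀ p ∈ t, ∀ x, 0 ≤ a p x := fun p hp => (ha p hp).2.1
  have hapos : ∀ p ∈ t, ∀ x ∈ ball p (r p / 2), 0 < a p x := fun p hp => (ha p hp).2.2.1
  have haz : ∀ p ∈ t, ∀ x, 3 * r p / 4 ≤ dist x p → a p x = 0 := fun p hp => (ha p hp).2.2.2
  set A : Ec n → ℝ := fun x => ∑ p ∈ t, a p x with hA
  have hAsm : ContDiff ℝ 2 A := ContDiff.sum fun p hp => hasm p hp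
  have hApos : ∀ x ∈ T, 0 < A x := by
    intro x hx
    obtain ⟨p, hp, hxp⟩ := mem_iUnion₂.1 hx
    exact Finset.sum_pos' (fun q hq => ha0 q hq x) ⟨p, hp, hapos p hp x hxp⟩
  have hball : ∀ p ∈ t, ∀ x, a p x ≠ 0 → x ∈ ball p (r p) := by
    intro p hp x hx
    by_contra hcon
    refine hx (haz p hp x ?_)
    have := hr p (ht p hp)
    rw [mem_ball, not_lt] at hcon
    linarith
  set V : Set (Ec n) := (⋂ p ∈ t, Vf p) ∩ (D ∪ T) with hV
  have hVo' : IsOpen V := (isOpen_biInter_finset fun p hp => hVo p (ht p hp)).inter (hDo.union hTo)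
  have hVp : ∀ p ∈ t, V ⊆ Vf p := fun p hp x hx => mem_iInter₂.1 hx.1 p hp
  have hVD' : closure D ⊆ V := by
    intro z hz
    refine ⟨mem_iInter₂.2 fun p hp => hVD p (ht p hp) hz, ?_⟩
    by_cases h0 : ρ z = 0
    · exact Or.inr (htc ⟨hz, h0⟩)
    · left
      rw [hcl] at hz
      rw [h.eq]
      exact ⟨hz.1, lt_of_le_of_ne hz.2 h0⟩
  have hVU' : V ⊆ U := by
    rintro z ⟨-, hz | hz⟩
    · exact hclU (subset_closure hz)
    · obtain ⟨p, hp, hxp⟩ := mem_iUnion₂.1 hz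
      have hrp := hr p (ht p hp)
      exact hVU p (ht p hp) (hbV p (ht p hp) (ball_subset_ball (by linarith) hxp))
  have hVT : ∀ ζ ∈ V, -ε < ρ ζ → ζ ∈ T := by
    rintro ζ ⟨-, hz | hz⟩ hζ
    · by_contra hcon
      have := hεD ζ hz hcon
      linarith
    · exact hz
  have hdiv : ∀ ζ ∈ T, ∑ p ∈ t, a p ζ / A ζ = 1 := by
    intro ζ hζ
    rw [← Finset.sum_div]
    exact div_self (hApos ζ hζ).ne'
  refine ⟨V, ε, c₁, m, fun z ζ k => ∑ p ∈ t, ((a p ζ / A ζ : ℝ) : ℂ) * H p z ζ k, hVo', hVD', hVU',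
    hε0, hc₁, hm, ?_, ?_, ?_, ?_⟩
  · have hS : ∀ q ∈ V ×ˢ {ζ | ζ ∈ V ∧ -ε < ρ ζ}, q.2 ∈ T := fun q hq => hVT _ hq.2.1 hq.2.2
    have hterm : ∀ p ∈ t, ContDiffOn ℝ 2 (fun q : Ec n × Ec n => ((a p q.2 / A q.2 : ℝ) : ℂ) • H p q.1 q.2)
        (V ×ˢ {ζ | ζ ∈ V ∧ -ε < ρ ζ}) := by
      intro p hp q hq
      have hrp := hr p (ht p hp)
      have hAq := hApos q.2 (hS q hq)
      by_cases hqb : q.2 ∈ ball p (r p)
      · have h1 : ContDiffAt ℝ 2 (fun q : Ec n × Ec n => H p q.1 q.2) q :=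
          (hsm p (ht p hp)).contDiffAt (((hVo p (ht p hp)).prod isOpen_ball).mem_nhds
            ⟨hVp p hp hq.1, hqb⟩)
        have h2 : ContDiffAt ℝ 2 (fun q : Ec n × Ec n => a p q.2 / A q.2) q :=
          ((hasm p hp).comp contDiff_snd).contDiffAt.div (hAsm.comp contDiff_snd).contDiffAt hAq.ne'
        have h3 : ContDiffAt ℝ 2 (fun q : Ec n × Ec n => ((a p q.2 / A q.2 : ℝ) : ℂ)) q :=
          Complex.ofRealCLM.contDiff.contDiffAt.comp q h2
        exact (h3.smul h1).contDiffWithinAt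
      · have hev : (fun q : Ec n × Ec n => ((a p q.2 / A q.2 : ℝ) : ℂ) • H p q.1 q.2) =ᶠ[𝓝 q]
            fun _ => 0 := by
          have : {q : Ec n × Ec n | 3 * r p / 4 < dist q.2 p} ∈ 𝓝 q := by
            refine (isOpen_lt continuous_const (continuous_snd.dist continuous_const)).mem_nhds ?_
            rw [mem_ball, not_lt] at hqb
            simp only [mem_ofPred_eq]
            linarith
          filter_upwards [this] with q' hq'
          rw [haz p hp q'.2 (le_of_lt hq')]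
          simp
        exact (contDiffAt_const.congr_of_eventuallyEq hev).contDiffWithinAt
    have hsum := ContDiffOn.sum hterm
    refine hsum.congr fun q _ => ?_
    funext k
    simp [Finset.sum_apply, smul_eq_mul]
  · intro ζ hζ hεζ
    have hterm : ∀ p ∈ t, DifferentiableOn ℂ (fun z => ((a p ζ / A ζ : ℝ) : ℂ) • H p z ζ) V := by
      intro p hp
      by_cases h0 : a p ζ = 0
      · rw [h0]
        simp
      · exact ((hhol p (ht p hp) ζ (hball p hp ζ h0)).mono (hVp p hp)).fun_const_smul _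
    have hsum := DifferentiableOn.fun_sum hterm
    refine hsum.congr fun z _ => ?_
    funext k
    simp [Finset.sum_apply, smul_eq_mul]
  · intro ζ hζ hεζ X
    have hζT := hVT ζ hζ hεζ
    have h1 : ∑ k, (∑ p ∈ t, ((a p ζ / A ζ : ℝ) : ℂ) * H p ζ ζ k) * X k =
        ∑ p ∈ t, ((a p ζ / A ζ : ℝ) : ℂ) * ∑ k, H p ζ ζ k * X k := by
      simp_rw [Finset.sum_mul, Finset.mul_sum]
      rw [Finset.sum_comm]
      exact Finset.sum_congr rfl fun p _ => Finset.sum_congr rfl fun k _ => by ring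
    have h2 : 2 * (∑ k, (∑ p ∈ t, ((a p ζ / A ζ : ℝ) : ℂ) * H p ζ ζ k) * X k).re =
        ∑ p ∈ t, a p ζ / A ζ * (2 * (∑ k, H p ζ ζ k * X k).re) := by
      rw [h1, Complex.re_sum, Finset.mul_sum]
      refine Finset.sum_congr rfl fun p _ => ?_
      rw [Complex.re_ofReal_mul]
      ring
    rw [h2]
    have h3 : ∀ p ∈ t, a p ζ / A ζ * (2 * (∑ k, H p ζ ζ k * X k).re) = a p ζ / A ζ * fderiv ℝ ρ ζ X := by
      intro p hp
      by_cases h0 : a p ζ = 0
      · rw [h0]; simp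
      · rw [hdiag p (ht p hp) ζ (hball p hp ζ h0) X]
    rw [Finset.sum_congr rfl h3, ← Finset.sum_mul, hdiv ζ hζT, one_mul]
  · intro ζ hζ hεζ z hz
    have hζT := hVT ζ hζ hεζ
    have h1 : ∑ k, (∑ p ∈ t, ((a p ζ / A ζ : ℝ) : ℂ) * H p z ζ k) * (ζ k - z k) =
        ∑ p ∈ t, ((a p ζ / A ζ : ℝ) : ℂ) * ∑ k, H p z ζ k * (ζ k - z k) := by
      simp_rw [Finset.sum_mul, Finset.mul_sum]
      rw [Finset.sum_comm]
      exact Finset.sum_congr rfl fun p _ => Finset.sum_congr rfl fun k _ => by ring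
    have h2 : 2 * (∑ k, (∑ p ∈ t, ((a p ζ / A ζ : ℝ) : ℂ) * H p z ζ k) * (ζ k - z k)).re =
        ∑ p ∈ t, a p ζ / A ζ * (2 * (∑ k, H p z ζ k * (ζ k - z k)).re) := by
      rw [h1, Complex.re_sum, Finset.mul_sum]
      refine Finset.sum_congr rfl fun p _ => ?_
      rw [Complex.re_ofReal_mul]
      ring
    rw [← min_le_iff]
    rw [h2]
    have h3 : ∀ p ∈ t, a p ζ / A ζ * min (ρ ζ - ρ z + c₁ * ‖ζ - z‖ ^ 2) m ≤
        a p ζ / A ζ * (2 * (∑ k, H p z ζ k * (ζ k - z k)).re) := by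
      intro p hp
      by_cases h0 : a p ζ = 0
      · rw [h0]; simp
      · refine mul_le_mul_of_nonneg_left ?_ (div_nonneg (ha0 p hp ζ) (hApos ζ hζT).le)
        rcases hest p (ht p hp) ζ (hball p hp ζ h0) z (hVp p hp hz) with h4 | h4
        · refine (min_le_left _ _).trans (le_trans ?_ h4)
          have := mul_le_mul_of_nonneg_right (hc₁t p hp) (sq_nonneg ‖ζ - z‖)
          linarith
        · exact (min_le_right _ _).trans ((hmt p hp).trans h4)
    calc min (ρ ζ - ρ z + c₁ * ‖ζ - z‖ ^ 2) m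
        = ∑ p ∈ t, a p ζ / A ζ * min (ρ ζ - ρ z + c₁ * ‖ζ - z‖ ^ 2) m := by
          rw [← Finset.sum_mul, hdiv ζ hζT, one_mul]
      _ ≤ _ := Finset.sum_le_sum h3

end Pool.Agent.MPca0fc2.LV
end
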