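import Pool.Agent.Lib.MP_ca0fc2_an.Mg.G070
import Pool.Agent.Lib.MP_ca0fc2_an.Mg.G062
import Pool.Agent.Lib.MP_ca0fc2_an.Mg.G066

section

/-! Peak functions: the local data. -/

set_option autoImplicit false

open Metric Set MeasureTheory Filter Topology
open scoped ContDiff

namespace Pool.Agent.MPca0fc2.LV

open Pool.Agent.MPca0fc2.FD (Ec ee)
open Pool.Agent.Lib.MP_ca0fc2_an (leviForm)

variable {n : ℕ}

/-- The local data for the construction of peak functions: `F` near `p`, and `1 / F = G₁ - G₂`. -/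
structure PK (D U : Set (Ec n)) (ρ : Ec n → ℝ) (p : Ec n) (W : Set (Ec n)) (r b C : ℝ)
    (F G₁ G₂ : Ec n → ℂ) : Prop where
  opn : IsOpen W
  DW : closure D ⊆ W
  WU : W ⊆ U
  r0 : 0 < r
  b0 : 0 < b
  C0 : 0 < C
  Fd : Differentiable ℂ F
  Fle : ∀ z ∈ ball p r, ‖F z‖ ≤ C * ‖z - p‖
  Fre : ∀ z ∈ ball p r, b * ‖z - p‖ ^ 2 ≤ (F z).re + ρ z
  G₁d : DifferentiableOn ℂ G₁ (W ∩ ball p r)
  G₂d : DifferentiableOn ℂ G₂ (W \ closedBall p (r / 2))
  F0 : ∀ z ∈ W ∩ ball p r, z ∉ closedBall p (r / 2) → F z ≠ 0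
  eq : ∀ z ∈ W ∩ ball p r, z ∉ closedBall p (r / 2) → (F z)⁻¹ = G₁ z - G₂ z

/-- PROOF. `F = Fp ρ p`, `b = c / 2`, `r ≤ 1` from `Fp_est`, `Fp_le`, `Fp_hol`. Let `e = b (r / 2)²`. `ds_small` with `W = univ`
and `e` gives `Ω` with an exhaustion function, `closure D ⊆ Ω ⊆ U`, `ρ < e` on `Ω`. `W = Ω`. On `Ω ∩ ball p r` outside
`closedBall p (r / 2)`: `Re F ≥ b ‖z - p‖² - ρ z > b (r / 2)² - e = 0`. `cousin` with `Ω₁ = Ω ∩ ball p r`,
`Ω₂ = Ω \ closedBall p (r / 2)`, `G = F⁻¹`. -/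
theorem pk_exists {D U : Set (Ec n)} {ρ : Ec n → ℝ} {c : ℝ} (h : DS D U ρ c) {p : Ec n} (hp : p ∈ U)
    (hp0 : ρ p = 0) : ∃ (W : Set (Ec n)) (r b C : ℝ) (F G₁ G₂ : Ec n → ℂ), PK D U ρ p W r b C F G₁ G₂ := by
  obtain ⟨r₀, hr₀, hrU, hest⟩ := Fp_est h.opn h.sm hp hp0 h.c0 (h.psh p hp)
  obtain ⟨C, hC, hle⟩ := Fp_le ρ p
  have hr : 0 < min r₀ 1 := lt_min hr₀ one_pos
  have hr1 : min r₀ 1 ≤ r₀ := min_le_left _ _
  have hr2 : min r₀ 1 ≤ 1 := min_le_right _ _
  generalize min r₀ 1 = r at hr hr1 hr2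
  have hb : 0 < c / 2 := half_pos h.c0
  have he : 0 < c / 2 * (r / 2) ^ 2 := by positivity
  obtain ⟨Ω, hPE, hΩ, hDΩ, hΩU, hρe⟩ := ds_small h isOpen_univ (subset_univ _) he
  have hest' : ∀ z ∈ ball p r, c / 2 * ‖z - p‖ ^ 2 ≤ (Fp ρ p z).re + ρ z :=
    fun z hz => hest z (ball_subset_ball hr1 hz)
  have hF0 : ∀ z ∈ Ω ∩ ball p r, z ∉ closedBall p (r / 2) → Fp ρ p z ≠ 0 := by
    intro z hz hz2 h0
    have h1 := hest' z hz.2
    rw [h0, Complex.zero_re, zero_add] at h1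
    have h2 := hρe z hz.1
    rw [mem_closedBall, dist_eq_norm, not_le] at hz2
    have h3 : (r / 2) ^ 2 ≤ ‖z - p‖ ^ 2 := pow_le_pow_left₀ (by positivity) hz2.le 2
    have h4 : c / 2 * (r / 2) ^ 2 ≤ c / 2 * ‖z - p‖ ^ 2 := mul_le_mul_of_nonneg_left h3 hb.le
    linarith
  have hu : (Ω ∩ ball p r) ∪ (Ω \ closedBall p (r / 2)) = Ω := by
    ext z
    constructor
    · rintro (hz | hz)
      · exact hz.1
      · exact hz.1
    · intro hz
      by_cases hz2 : z ∈ ball p r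
      · exact Or.inl ⟨hz, hz2⟩
      · refine Or.inr ⟨hz, fun hz3 => hz2 ?_⟩
        rw [mem_closedBall] at hz3
        rw [mem_ball]
        linarith
  have hG : DifferentiableOn ℂ (fun z => (Fp ρ p z)⁻¹)
      ((Ω ∩ ball p r) ∩ (Ω \ closedBall p (r / 2))) := by
    refine DifferentiableOn.fun_inv (Fp_hol ρ p).differentiableOn ?_
    rintro z ⟨hz1, hz2⟩
    exact hF0 z hz1 hz2.2
  obtain ⟨G₁, G₂, hG₁, hG₂, hG12⟩ := cousin hPE (hΩ.inter isOpen_ball)
    (hΩ.sdiff isClosed_closedBall) hu hG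
  refine ⟨Ω, r, c / 2, C, Fp ρ p, G₁, G₂, ?_⟩
  exact {
    opn := hΩ
    DW := hDΩ
    WU := hΩU.trans inter_subset_left
    r0 := hr
    b0 := hb
    C0 := hC
    Fd := Fp_hol ρ p
    Fle := fun z hz => hle z (ball_subset_ball hr2 hz)
    Fre := hest'
    G₁d := hG₁
    G₂d := hG₂
    F0 := hF0
    eq := fun z hz hz2 => hG12 z ⟨hz, hz.1, hz2⟩ }

end Pool.Agent.MPca0fc2.LV
end

section

/-! Peak functions: the construction. -/

set_option autoImplicit false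

open Metric Set MeasureTheory Filter Topology
open scoped ContDiff

namespace Pool.Agent.MPca0fc2.LV

open Pool.Agent.MPca0fc2.FD (Ec ee)
open Pool.Agent.Lib.MP_ca0fc2_an (leviForm)

variable {n : ℕ}

/-- The function built from the data and from `P`: `F / (1 + (P - G₁) F)` near `p`, `1 / (P - G₂)` elsewhere.
PROOF. On `K = closure D` (`ρ ≤ 0` there by `ds_closure`) `Re F ≥ b ‖z - p‖² > 0` in `ball p r`, `z ≠ p`. Let `W' ⊆ W ∩ V` be the set of the points of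
`W ∩ V` which are in `ball p r` with `1 + (P - G₁) F ≠ 0`, or outside `closedBall p (r / 2)` with `P - G₂ ≠ 0`: it is open. (In the
overlap the two conditions are equivalent: `1 + (P - G₁) F = F (F⁻¹ + P - G₁) = F (P - G₂)`.) It contains `K`: for `z ∈ K ∩ ball p r`,
`z ≠ p`, `1 + (P - G₁) F = F (F⁻¹ + P - G₁) ≠ 0` because `F z ≠ 0` and by `h1` the real part of the second factor is positive; at `p`: `F p = 0`
(`Fle`). For `z ∈ K` outside the small ball: `h2`. `g` is well defined, holomorphic on `W'`, `g p = 0`. `Re g > 0` on `K \ {p}`: `1 / g` is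
`F⁻¹ + P - G₁` or `P - G₂`, with positive real part. -/
theorem pk_build {D U : Set (Ec n)} {ρ : Ec n → ℝ} {c : ℝ} (h : DS D U ρ c) {p : Ec n} (hp : p ∈ U)
    (hp0 : ρ p = 0) {W : Set (Ec n)} {r b C : ℝ} {F G₁ G₂ : Ec n → ℂ} (hk : PK D U ρ p W r b C F G₁ G₂)
    {V : Set (Ec n)} (hV : IsOpen V) (hKV : closure D ⊆ V) {P : Ec n → ℂ} (hP : DifferentiableOn ℂ P V)
    (h1 : ∀ z ∈ closure D, z ∈ ball p r → z ≠ p → 0 < ((F z)⁻¹ + P z - G₁ z).re)
    (h2 : ∀ z ∈ closure D, z ∉ closedBall p (r / 2) → 0 < (P z - G₂ z).re) :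
    ∃ (W' : Set (Ec n)) (g : Ec n → ℂ), IsOpen W' ∧ closure D ⊆ W' ∧ W' ⊆ W ∩ V ∧
      DifferentiableOn ℂ g W' ∧ g p = 0 ∧ (∀ z ∈ closure D, z ≠ p → 0 < (g z).re) ∧
      ∀ z ∈ W' ∩ ball p r, 1 + (P z - G₁ z) * F z ≠ 0 ∧
        g z = F z / (1 + (P z - G₁ z) * F z) := by
  classical
  have hKle : ∀ z ∈ closure D, ρ z ≤ 0 := by
    intro z hz
    rw [ds_closure h] at hz
    exact hz.2
  have hFre : ∀ z ∈ closure D, z ∈ ball p r → z ≠ p → 0 < (F z).re := by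
    intro z hz hzr hzp
    have h3 := hk.Fre z hzr
    have h4 := hKle z hz
    have h5 : 0 < ‖z - p‖ := norm_pos_iff.mpr (sub_ne_zero.mpr hzp)
    have h6 : 0 < b * ‖z - p‖ ^ 2 := mul_pos hk.b0 (pow_pos h5 2)
    linarith
  have hFp : F p = 0 := by
    have h3 := hk.Fle p (mem_ball_self hk.r0)
    rw [sub_self, norm_zero, mul_zero] at h3
    exact norm_le_zero_iff.mp h3
  have hid : ∀ z, F z ≠ 0 → 1 + (P z - G₁ z) * F z = F z * ((F z)⁻¹ + P z - G₁ z) := by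
    intro z hz
    field_simp
    ring
  -- the two open sets
  have hO1 : IsOpen {z | z ∈ W ∩ V ∩ ball p r ∧ 1 + (P z - G₁ z) * F z ≠ 0} := by
    have hc : ContinuousOn (fun z => 1 + (P z - G₁ z) * F z) (W ∩ V ∩ ball p r) := by
      refine continuousOn_const.add (ContinuousOn.mul (ContinuousOn.sub ?_ ?_) ?_)
      · exact hP.continuousOn.mono fun z hz => hz.1.2
      · exact hk.G₁d.continuousOn.mono fun z hz => ⟨hz.1.1, hz.2⟩
      · exact hk.Fd.continuous.continuousOn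
    exact hc.isOpen_inter_preimage ((hk.opn.inter hV).inter isOpen_ball) isOpen_compl_singleton
  have hO2 : IsOpen {z | z ∈ (W ∩ V) \ closedBall p (r / 2) ∧ P z - G₂ z ≠ 0} := by
    have hc : ContinuousOn (fun z => P z - G₂ z) ((W ∩ V) \ closedBall p (r / 2)) := by
      refine ContinuousOn.sub ?_ ?_
      · exact hP.continuousOn.mono fun z hz => hz.1.2
      · exact hk.G₂d.continuousOn.mono fun z hz => ⟨hz.1.1, hz.2⟩
    exact hc.isOpen_inter_preimage ((hk.opn.inter hV).sdiff isClosed_closedBall)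
      isOpen_compl_singleton
  set A₁ : Set (Ec n) := {z | z ∈ W ∩ V ∩ ball p r ∧ 1 + (P z - G₁ z) * F z ≠ 0} with hA₁
  set A₂ : Set (Ec n) := {z | z ∈ (W ∩ V) \ closedBall p (r / 2) ∧ P z - G₂ z ≠ 0} with hA₂
  set g : Ec n → ℂ := fun z => if z ∈ ball p r then F z / (1 + (P z - G₁ z) * F z)
    else (P z - G₂ z)⁻¹ with hg
  have hg1 : ∀ z ∈ ball p r, g z = F z / (1 + (P z - G₁ z) * F z) := by
    intro z hz
    rw [hg]
    exact if_pos hz
  have hov : ∀ z ∈ A₂, z ∈ ball p r → F z ≠ 0 ∧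
      1 + (P z - G₁ z) * F z = F z * (P z - G₂ z) := by
    intro z hz hzr
    have h3 := hk.F0 z ⟨hz.1.1.1, hzr⟩ hz.1.2
    have h4 := hk.eq z ⟨hz.1.1.1, hzr⟩ hz.1.2
    refine ⟨h3, ?_⟩
    rw [hid z h3, h4]
    ring
  have hg2 : ∀ z ∈ A₂, g z = (P z - G₂ z)⁻¹ := by
    intro z hz
    by_cases hzr : z ∈ ball p r
    · obtain ⟨h3, h4⟩ := hov z hz hzr
      rw [hg1 z hzr, h4, div_eq_mul_inv, mul_inv, ← mul_assoc, mul_inv_cancel₀ h3, one_mul]
    · rw [hg]
      exact if_neg hzr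
  have hD1 : DifferentiableOn ℂ g A₁ := by
    have h3 : DifferentiableOn ℂ (fun z => F z / (1 + (P z - G₁ z) * F z)) A₁ := by
      simp only [div_eq_mul_inv]
      refine DifferentiableOn.fun_mul hk.Fd.differentiableOn
        (DifferentiableOn.fun_inv ?_ fun z hz => hz.2)
      refine (differentiableOn_const 1).fun_add (DifferentiableOn.fun_mul
        (DifferentiableOn.fun_sub ?_ ?_) hk.Fd.differentiableOn)
      · exact hP.mono fun z hz => hz.1.1.2
      · exact hk.G₁d.mono fun z hz => ⟨hz.1.1.1, hz.1.2⟩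
    exact h3.congr fun z hz => hg1 z hz.1.2
  have hD2 : DifferentiableOn ℂ g A₂ := by
    have h3 : DifferentiableOn ℂ (fun z => (P z - G₂ z)⁻¹) A₂ := by
      refine DifferentiableOn.fun_inv (DifferentiableOn.fun_sub ?_ ?_) fun z hz => hz.2
      · exact hP.mono fun z hz => hz.1.1.2
      · exact hk.G₂d.mono fun z hz => ⟨hz.1.1.1, hz.1.2⟩
    exact h3.congr fun z hz => hg2 z hz
  have hinv : ∀ w : ℂ, 0 < w.re → 0 < (w⁻¹).re := by
    intro w hw
    rw [Complex.inv_re]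
    refine div_pos hw (Complex.normSq_pos.mpr fun h0 => ?_)
    rw [h0, Complex.zero_re] at hw
    exact lt_irrefl _ hw
  have hK1 : ∀ z ∈ closure D, z ∈ ball p r → z ≠ p →
      F z ≠ 0 ∧ (F z)⁻¹ + P z - G₁ z ≠ 0 := by
    intro z hz hzr hzp
    constructor
    · intro h0
      have h3 := hFre z hz hzr hzp
      rw [h0, Complex.zero_re] at h3
      exact lt_irrefl _ h3
    · intro h0
      have h3 := h1 z hz hzr hzp
      rw [h0, Complex.zero_re] at h3
      exact lt_irrefl _ h3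
  refine ⟨A₁ ∪ A₂, g, hO1.union hO2, ?_, ?_, ?_, ?_, ?_, ?_⟩
  · intro z hz
    by_cases hzr : z ∈ ball p r
    · refine Or.inl ⟨⟨⟨hk.DW hz, hKV hz⟩, hzr⟩, ?_⟩
      by_cases hzp : z = p
      · rw [hzp, hFp, mul_zero, add_zero]
        exact one_ne_zero
      · obtain ⟨h3, h4⟩ := hK1 z hz hzr hzp
        rw [hid z h3]
        exact mul_ne_zero h3 h4
    · have h5 : z ∉ closedBall p (r / 2) := by
        intro h6
        rw [mem_closedBall] at h6
        rw [mem_ball, not_lt] at hzr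
        have := hk.r0
        linarith
      refine Or.inr ⟨⟨⟨hk.DW hz, hKV hz⟩, h5⟩, fun h0 => ?_⟩
      have h3 := h2 z hz h5
      rw [h0, Complex.zero_re] at h3
      exact lt_irrefl _ h3
  · rintro z (hz | hz)
    · exact hz.1.1
    · exact hz.1.1
  · rintro z (hz | hz)
    · exact (hD1.differentiableAt (hO1.mem_nhds hz)).differentiableWithinAt
    · exact (hD2.differentiableAt (hO2.mem_nhds hz)).differentiableWithinAt
  · rw [hg1 p (mem_ball_self hk.r0), hFp, zero_div]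
  · intro z hz hzp
    by_cases hzr : z ∈ ball p r
    · obtain ⟨h3, h4⟩ := hK1 z hz hzr hzp
      rw [hg1 z hzr, hid z h3, div_eq_mul_inv, mul_inv, ← mul_assoc, mul_inv_cancel₀ h3, one_mul]
      exact hinv _ (h1 z hz hzr hzp)
    · have h5 : z ∉ closedBall p (r / 2) := by
        intro h6
        rw [mem_closedBall] at h6
        rw [mem_ball, not_lt] at hzr
        have := hk.r0
        linarith
      have h6 : g z = (P z - G₂ z)⁻¹ := by
        rw [hg]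
        exact if_neg hzr
      rw [h6]
      exact hinv _ (h2 z hz h5)
  · rintro z ⟨hz | hz, hzr⟩
    · exact ⟨hz.2, hg1 z hzr⟩
    · obtain ⟨h3, h4⟩ := hov z hz hzr
      refine ⟨?_, hg1 z hzr⟩
      rw [h4]
      exact mul_ne_zero h3 hz.2

end Pool.Agent.MPca0fc2.LV
end
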