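import Pool.Agent.Lib.MP_ca0fc2_an.Mg.G069
import Pool.Agent.Lib.MP_ca0fc2_an.Mg.G070
import Pool.Agent.Lib.MP_ca0fc2_an.Mg.G063

section

/-! The support data. -/

set_option autoImplicit false

open Metric Set MeasureTheory Filter Topology
open scoped ContDiff

namespace Pool.Agent.MPca0fc2.LV

open Pool.Agent.MPca0fc2.FD (Ec ee)
open Pool.Agent.Lib.MP_ca0fc2_an (leviForm IsStrictlyPseudoconvex SupportData)

variable {n : ℕ}

private theorem S3c_sum (a κ : ℝ) (f g : Fin n → ℂ) (X : Ec n) :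
    2 * (∑ k, ((a : ℂ) * f k + (κ : ℂ) * g k) * X k).re =
      a * (2 * (∑ k, f k * X k).re) + κ * (2 * (∑ k, g k * X k).re) := by
  have h1 : ∑ k, ((a : ℂ) * f k + (κ : ℂ) * g k) * X k =
      (a : ℂ) * ∑ k, f k * X k + (κ : ℂ) * ∑ k, g k * X k := by
    rw [Finset.mul_sum, Finset.mul_sum, ← Finset.sum_add_distrib]
    exact Finset.sum_congr rfl fun k _ => by ring
  rw [h1, Complex.add_re, Complex.re_ofReal_mul, Complex.re_ofReal_mul]
  ring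

/-- The support data.
PROOF. `fam_all` gives `V₀, ε₀, c₁, m, hh`. `e = min (ε₀ / 3) (m / 12)`, `fl_exists` for `e` gives `φ, τ`; `R` bounds the norms on `U`; `theta` with
`e` gives `θ`, `L`. `V = {z ∈ V₀ | ρ z < e}`. `ρ' = φ ∘ ρ + κ θ`, `h' z ζ k = φ'(ρ ζ) * hh z ζ k + κ dr θ ζ k` (the first term is `0` if
`ρ ζ ≤ -2 e`; `-2 e > -ε₀`, so it is `C²`: the set `{-ε₀ < ρ ζ}` and the set `{ρ ζ < -2 e + small}`, where it is zero, cover `V`; precisely `φ' = 0` for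
`t ≤ -2 e`, so use the open sets `{ρ ζ > -3 e}` and `{ρ ζ < -2 e}`). `opn`, `eq`, `cpt` (the set is `closure D`), `dρ`, `nd` (`ρ' = ρ` near the points with
`ρ > -e`; `ρ' < 0` where `ρ < 0`). `hol`: clear. `grad`: chain rule, `dr_apply`. `pos`: (a) the part of `φ`: if `ρ ζ ≤ -2 e`: `φ' = 0` and
`φ (ρ ζ) - φ (ρ z) ≤ 0` (`low`). Otherwise, in the first case of the alternative:
`φ' (ρ ζ - ρ z) ≥ φ (ρ ζ) - φ (ρ z)` (`conv`), and `φ' c₁ ‖ζ - z‖²`; in the second: `φ' m ≥ φ' (ρ ζ + 2 e) + φ' m / 2 ≥ φ (ρ ζ) - φ (ρ z) + φ' c₂ ‖ζ - z‖²`, since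
`ρ ζ + 2 e ≤ 3 e ≤ m / 4`, with `c₂ (2 R)² ≤ m / 2`, `c₂ ≤ c₁`. So (a) `≥ φ (ρ ζ) - φ (ρ z) + c₂ φ'(ρ ζ) ‖ζ - z‖²`. (b) the part of `θ`: `κ fderiv ℝ θ ζ (ζ - z)`. If
`ρ ζ ≥ -(3/2) e`: `φ' ≥ 1 / 2`, total `≥ ρ' ζ - ρ' z + (c₂ / 2 - κ L) ‖ζ - z‖²`. Otherwise `≥ ρ' ζ - ρ' z + κ ‖ζ - z‖²`. `κ = c₂ / (4 L)`. -/
theorem support_ds {D U : Set (Ec n)} {ρ : Ec n → ℝ} {c : ℝ} (h : DS D U ρ c) :
    ∃ (U' : Set (Ec n)) (ρ' : Ec n → ℝ) (h' : Ec n → Ec n → Fin n → ℂ) (c' : ℝ),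
      SupportData D U' ρ' h' c' ∧ ContDiffOn ℝ ∞ ρ' U' := by
  obtain ⟨V₀, ε₀, c₁, m, hh, hV₀, hDV, hVU, hε₀, hc₁, hm, hC, hhol, hgr, hpos⟩ := fam_all h
  obtain ⟨e, he, he1, he2⟩ : ∃ e : ℝ, 0 < e ∧ 3 * e ≤ ε₀ ∧ 12 * e ≤ m := by
    refine ⟨min (ε₀ / 3) (m / 12), by positivity, ?_, ?_⟩
    · have := min_le_left (ε₀ / 3) (m / 12)
      linarith
    · have := min_le_right (ε₀ / 3) (m / 12)
      linarith
  obtain ⟨φ, τ, hf⟩ := fl_exists he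
  obtain ⟨R, hR0, hR⟩ : ∃ R : ℝ, 0 < R ∧ ∀ z ∈ U, ‖z‖ < R := by
    obtain ⟨R, hR⟩ := h.bdd.exists_norm_le
    refine ⟨max R 0 + 1, by positivity, fun z hz => ?_⟩
    have := hR z hz
    have := le_max_left R 0
    linarith
  obtain ⟨θ, L, hL, hθs, hθ0, hθz, hθ1, hθ2⟩ := theta h he hf hR
  obtain ⟨c₂, hc₂, hc₂1, hc₂2⟩ : ∃ c₂ : ℝ, 0 < c₂ ∧ c₂ ≤ c₁ ∧ c₂ * (4 * R ^ 2) ≤ m / 2 := by
    refine ⟨min c₁ (m / (8 * R ^ 2)), by positivity, min_le_left _ _, ?_⟩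
    have h1 := min_le_right c₁ (m / (8 * R ^ 2))
    calc min c₁ (m / (8 * R ^ 2)) * (4 * R ^ 2) ≤ m / (8 * R ^ 2) * (4 * R ^ 2) :=
          mul_le_mul_of_nonneg_right h1 (by positivity)
      _ = m / 2 := by field_simp; ring
  obtain ⟨κ, hκ, hκL⟩ : ∃ κ : ℝ, 0 < κ ∧ κ * L = c₂ / 4 :=
    ⟨c₂ / (4 * L), by positivity, by field_simp⟩
  have hρc : ContinuousOn ρ V₀ := h.sm.continuousOn.mono hVU
  have hVo : IsOpen {z | z ∈ V₀ ∧ ρ z < e} := hρc.isOpen_inter_preimage hV₀ isOpen_Iio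
  have hsmd : ContDiff ℝ ∞ (deriv φ) := (contDiff_infty_iff_deriv.1 hf.smφ).2
  have hφ0 : φ 0 = 0 := hf.id 0 (by linarith)
  have hcl := ds_closure h
  -- the sign of the new defining function
  have hneg : ∀ z ∈ U, ρ z < 0 → φ (ρ z) + κ * θ z < 0 := by
    intro z _ hz
    have h1 := hf.neg _ hz
    have h2 := mul_nonpos_of_nonneg_of_nonpos hκ.le (hθ0 z)
    linarith
  have hnn : ∀ z ∈ U, -e ≤ ρ z → φ (ρ z) + κ * θ z = ρ z := by
    intro z hz hρ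
    rw [hf.id _ hρ, hθz z hz hρ, mul_zero, add_zero]
  have hsmρ : ContDiffOn ℝ ∞ (fun z => φ (ρ z) + κ * θ z) {z | z ∈ V₀ ∧ ρ z < e} := by
    refine ContDiffOn.add ?_ ?_
    · exact hf.smφ.comp_contDiffOn (h.sm.mono fun z hz => hVU hz.1)
    · exact (contDiff_const.mul hθs).contDiffOn
  have hdρ : ∀ z ∈ U, DifferentiableAt ℝ ρ z := fun z hz =>
    (h.sm.contDiffAt (h.opn.mem_nhds hz)).differentiableAt (by simp)
  have hdφ : ∀ t, HasDerivAt φ (deriv φ t) t := fun t =>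
    (hf.smφ.differentiable (by simp) t).hasDerivAt
  have hdθ : ∀ z, DifferentiableAt ℝ θ z := fun z => hθs.differentiable (by simp) z
  refine ⟨{z | z ∈ V₀ ∧ ρ z < e}, fun z => φ (ρ z) + κ * θ z,
    fun z ζ k => ((deriv φ (ρ ζ) : ℝ) : ℂ) * hh z ζ k + (κ : ℂ) * dr θ ζ k, min (c₂ / 4) κ,
    ⟨by positivity, hVo, ?_, ?_, ?_, ?_, ?_, ?_, ?_, ?_⟩, hsmρ⟩
  · -- eq
    ext z
    constructor
    · intro hz
      have h1 : z ∈ V₀ := hDV (subset_closure hz)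
      rw [h.eq] at hz
      exact ⟨⟨h1, by linarith [hz.2]⟩, hneg z hz.1 hz.2⟩
    · rintro ⟨⟨h1, h2⟩, h3⟩
      have h3' : φ (ρ z) + κ * θ z < 0 := h3
      have hzU := hVU h1
      rw [h.eq]
      refine ⟨hzU, ?_⟩
      by_contra hc
      rw [not_lt] at hc
      rw [hnn z hzU (by linarith)] at h3'
      linarith
  · -- cpt
    have h1 : {z | z ∈ {z | z ∈ V₀ ∧ ρ z < e} ∧ φ (ρ z) + κ * θ z ≤ 0} =
        {z | z ∈ U ∧ ρ z ≤ 0} := by
      ext z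
      constructor
      · rintro ⟨⟨h1, h2⟩, h3⟩
        have h3' : φ (ρ z) + κ * θ z ≤ 0 := h3
        refine ⟨hVU h1, ?_⟩
        by_contra hc
        rw [not_le] at hc
        rw [hnn z (hVU h1) (by linarith)] at h3'
        linarith
      · intro hz
        have h1 : z ∈ V₀ := hDV (hcl ▸ hz)
        refine ⟨⟨h1, by linarith [hz.2]⟩, ?_⟩
        show φ (ρ z) + κ * θ z ≤ 0
        rcases hz.2.lt_or_eq with h2 | h2
        · exact (hneg z hz.1 h2).le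
        · rw [hnn z hz.1 (by linarith), h2]
    rw [h1]
    exact h.cpt
  · -- dρ
    exact hsmρ.of_le (WithTop.coe_le_coe.2 le_top)
  · -- nd
    rintro z ⟨h1, h2⟩ h3
    have h3' : φ (ρ z) + κ * θ z = 0 := h3
    have hzU := hVU h1
    have h4 : ρ z = 0 := by
      rcases lt_or_ge (ρ z) 0 with h5 | h5
      · exact absurd h3' (hneg z hzU h5).ne
      · rw [← hnn z hzU (by linarith)]
        exact h3'
    have h5 : (fun z => φ (ρ z) + κ * θ z) =ᶠ[𝓝 z] ρ := by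
      have h6 : ∀ᶠ w in 𝓝 z, -e < ρ w :=
        (hdρ z hzU).continuousAt.eventually (lt_mem_nhds (by rw [h4]; linarith))
      filter_upwards [h6, h.opn.mem_nhds hzU] with w hw hwU
      exact hnn w hwU hw.le
    rw [h5.fderiv_eq]
    exact h.nd z hzU h4
  · -- dh
    rw [contDiffOn_pi]
    intro k
    refine ContDiffOn.add ?_ ?_
    · rintro ⟨z, ζ⟩ ⟨⟨hz, _⟩, hζ, hζe⟩
      have hζU := hVU hζ
      refine ContDiffAt.contDiffWithinAt ?_
      rcases lt_or_ge (-(3 * e)) (ρ ζ) with h1 | h1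
      · have h2 : ContDiffAt ℝ 2 (fun q : Ec n × Ec n => hh q.1 q.2 k) (z, ζ) := by
          have h3 : IsOpen {ζ | ζ ∈ V₀ ∧ -ε₀ < ρ ζ} := hρc.isOpen_inter_preimage hV₀ isOpen_Ioi
          exact (contDiffOn_pi.1 hC k).contDiffAt
            ((hV₀.prod h3).mem_nhds ⟨hz, hζ, by linarith⟩)
        have h3 : ContDiffAt ℝ 2 (fun q : Ec n × Ec n => deriv φ (ρ q.2)) (z, ζ) := by
          have h4 : ContDiffAt ℝ 2 ρ ζ :=
            (h.sm.contDiffAt (h.opn.mem_nhds hζU)).of_le (WithTop.coe_le_coe.2 le_top)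
          have h5 : ContDiffAt ℝ 2 (fun q : Ec n × Ec n => ρ q.2) (z, ζ) :=
            ContDiffAt.comp (z, ζ) h4 contDiffAt_snd
          exact (hsmd.of_le (WithTop.coe_le_coe.2 le_top)).contDiffAt.comp (z, ζ) h5
        exact (Complex.ofRealCLM.contDiff.contDiffAt.comp (z, ζ) h3).mul h2
      · refine contDiffAt_const (c := (0 : ℂ)) |>.congr_of_eventuallyEq ?_
        have h2 : ∀ᶠ w in 𝓝 ζ, ρ w < -(2 * e) :=
          (hdρ ζ hζU).continuousAt.eventually (gt_mem_nhds (by linarith))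
        have h3 : ∀ᶠ q : Ec n × Ec n in 𝓝 (z, ζ), ρ q.2 < -(2 * e) :=
          (continuous_snd.tendsto (z, ζ)).eventually h2
        filter_upwards [h3] with q hq
        rw [hf.dz _ hq.le, Complex.ofReal_zero, zero_mul]
    · have h1 : ContDiff ℝ ∞ (fun ζ => dr θ ζ k) := by
        rw [← contDiffOn_univ]
        exact dr_smooth isOpen_univ hθs.contDiffOn k
      have h2 : ContDiff ℝ 2 (fun ζ => dr θ ζ k) := h1.of_le (WithTop.coe_le_coe.2 le_top)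
      exact (contDiff_const.mul (h2.comp contDiff_snd)).contDiffOn
  · -- hol
    rintro ζ ⟨hζ, hζe⟩
    have hsub : {z | z ∈ V₀ ∧ ρ z < e} ⊆ V₀ := fun z hz => hz.1
    rw [differentiableOn_pi]
    intro k
    rcases lt_or_ge (-ε₀) (ρ ζ) with h1 | h1
    · exact ((differentiableOn_pi.1 ((hhol ζ hζ h1).mono hsub) k).const_mul _).add_const _
    · have h2 : deriv φ (ρ ζ) = 0 := hf.dz _ (by linarith)
      simp only [h2, Complex.ofReal_zero, zero_mul, zero_add]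
      exact differentiableOn_const _
  · -- grad
    rintro z ⟨hz, _⟩ X
    have hzU := hVU hz
    have h1 : HasFDerivAt (fun z => φ (ρ z) + κ * θ z)
        (deriv φ (ρ z) • fderiv ℝ ρ z + κ • fderiv ℝ θ z) z :=
      ((hdφ (ρ z)).comp_hasFDerivAt z (hdρ z hzU).hasFDerivAt).add
        ((hdθ z).hasFDerivAt.const_mul κ)
    rw [h1.fderiv, S3c_sum, ← dr_apply]
    show deriv φ (ρ z) * fderiv ℝ ρ z X + κ * fderiv ℝ θ z X = _
    rcases lt_or_ge (-ε₀) (ρ z) with h2 | h2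
    · rw [hgr z hz h2 X]
    · have h3 : deriv φ (ρ z) = 0 := hf.dz _ (by linarith)
      rw [h3, zero_mul, zero_mul]
  · -- pos
    rintro z ⟨hz, _⟩ ζ ⟨hζ, hζe⟩
    have hζU := hVU hζ
    have hzU := hVU hz
    have e1 := S3c_sum (deriv φ (ρ ζ)) κ (hh z ζ) (dr θ ζ) (ζ - z)
    have e2 := dr_apply θ ζ (ζ - z)
    rw [← e2] at e1
    have e3 : ∀ k, (ζ - z) k = ζ k - z k := fun k => rfl
    simp only [e3] at e1
    show φ (ρ ζ) + κ * θ ζ - (φ (ρ z) + κ * θ z) + min (c₂ / 4) κ * ‖ζ - z‖ ^ 2 ≤ _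
    rw [e1]
    have hN : ‖ζ - z‖ ^ 2 ≤ 4 * R ^ 2 := by
      have h1 := norm_sub_le ζ z
      have h2 := hR ζ hζU
      have h3 := hR z hzU
      have h4 := norm_nonneg (ζ - z)
      nlinarith
    have hN0 : 0 ≤ ‖ζ - z‖ ^ 2 := sq_nonneg _
    have hd0 := hf.d0 (ρ ζ)
    have ha : φ (ρ ζ) - φ (ρ z) + c₂ * deriv φ (ρ ζ) * ‖ζ - z‖ ^ 2 ≤
        deriv φ (ρ ζ) * (2 * (∑ k, hh z ζ k * (ζ k - z k)).re) := by
      have hlow := hf.low (ρ ζ) (ρ z)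
      rcases le_or_gt (ρ ζ) (-(2 * e)) with h1 | h1
      · rw [hf.dz _ h1] at hlow ⊢
        linarith
      · rcases hpos ζ hζ (by linarith) z hz with h2 | h2
        · have h3 := hf.conv (ρ ζ) (ρ z)
          have h4 := mul_le_mul_of_nonneg_left h2 hd0
          have h5 : deriv φ (ρ ζ) * (c₂ * ‖ζ - z‖ ^ 2) ≤ deriv φ (ρ ζ) * (c₁ * ‖ζ - z‖ ^ 2) :=
            mul_le_mul_of_nonneg_left (mul_le_mul_of_nonneg_right hc₂1 hN0) hd0
          nlinarith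
        · have h4 := mul_le_mul_of_nonneg_left h2 hd0
          have h5 : deriv φ (ρ ζ) * (ρ ζ + 2 * e) ≤ deriv φ (ρ ζ) * (m / 4) :=
            mul_le_mul_of_nonneg_left (by linarith) hd0
          have h6 : deriv φ (ρ ζ) * (c₂ * ‖ζ - z‖ ^ 2) ≤ deriv φ (ρ ζ) * (m / 2) :=
            mul_le_mul_of_nonneg_left
              ((mul_le_mul_of_nonneg_left hN hc₂.le).trans hc₂2) hd0
          have h7 : 0 ≤ deriv φ (ρ ζ) * m := mul_nonneg hd0 hm.le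
          nlinarith
    have hmin1 : min (c₂ / 4) κ * ‖ζ - z‖ ^ 2 ≤ c₂ / 4 * ‖ζ - z‖ ^ 2 :=
      mul_le_mul_of_nonneg_right (min_le_left _ _) hN0
    have hmin2 : min (c₂ / 4) κ * ‖ζ - z‖ ^ 2 ≤ κ * ‖ζ - z‖ ^ 2 :=
      mul_le_mul_of_nonneg_right (min_le_right _ _) hN0
    rcases le_or_gt (-(3 / 2 * e)) (ρ ζ) with h1 | h1
    · have h2 := hf.dh _ h1
      have h3 := mul_le_mul_of_nonneg_left (hθ1 ζ z) hκ.le
      have h4 : κ * (L * ‖ζ - z‖ ^ 2) = c₂ / 4 * ‖ζ - z‖ ^ 2 := by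
        rw [← mul_assoc, hκL]
      have h5 : c₂ * (1 / 2) * ‖ζ - z‖ ^ 2 ≤ c₂ * deriv φ (ρ ζ) * ‖ζ - z‖ ^ 2 :=
        mul_le_mul_of_nonneg_right (mul_le_mul_of_nonneg_left h2 hc₂.le) hN0
      nlinarith
    · have h3 := mul_le_mul_of_nonneg_left (hθ2 ζ hζU h1.le z hzU) hκ.le
      have h4 : 0 ≤ c₂ * deriv φ (ρ ζ) * ‖ζ - z‖ ^ 2 :=
        mul_nonneg (mul_nonneg hc₂.le hd0) hN0
      nlinarith

end Pool.Agent.MPca0fc2.LV
end

section

/-! Strictly pseudoconvex domains have support functions. -/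

set_option autoImplicit false

open Metric Set MeasureTheory Filter Topology
open scoped ContDiff

namespace Pool.Agent.MPca0fc2.LV

open Pool.Agent.MPca0fc2.FD (Ec ee)
open Pool.Agent.Lib.MP_ca0fc2_an (leviForm IsStrictlyPseudoconvex SupportData)

variable {n : ℕ}

/-- Every strictly pseudoconvex domain with smooth boundary has support data. PROOF. `ds_exists`, `support_ds`. -/
theorem support_of {D : Set (Ec n)} (hD : IsStrictlyPseudoconvex D) :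
    ∃ (U : Set (Ec n)) (ρ : Ec n → ℝ) (h : Ec n → Ec n → Fin n → ℂ) (c : ℝ),
      SupportData D U ρ h c ∧ ContDiffOn ℝ ∞ ρ U := by
  obtain ⟨U, ρ, c, h⟩ := ds_exists hD
  exact support_ds h

end Pool.Agent.MPca0fc2.LV
end
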