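import Pool.Agent.Lib.MP_ca0fc2_an.TB.G4

section

/-! Campaign EQ, growth theorem: definitions. -/

set_option autoImplicit false

open Metric Set Filter Topology

namespace Pool.Agent.MPca0fc2.EQ

open Pool.Agent.MPca0fc2.TB (En Trans Solv)

variable {n N : ℕ}

/-- there is a peak function at the boundary point `q` -/
def PeakAt (D : Set (En n)) (q : En n) : Prop :=
  ∃ (w : En n → ℂ) (c : ℝ), 0 < c ∧ DifferentiableOn ℂ w D ∧ ContinuousOn w (closure D) ∧ w q = 0 ∧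
    ∀ z ∈ closure D, c * ‖z - q‖ ^ 2 ≤ (w z).re

/-- no function near `g` on `D ∩ ball P s` has a solution with a bound of the size `A` there -/
def Bad (D : Set (En n)) (g : En n → En N) (P : En n) (s A : ℝ) : Prop :=
  ∀ (F : En n → En N) (M τ : ℝ), 0 ≤ M → 2 * M ≤ A → τ * M ≤ 1 / 2 →
    (∀ z ∈ D, z ∈ ball P s → ‖F z - g z‖ ≤ τ) → ¬ Solv F (D ∩ ball P s) M

/-- bad data with the value near `c₀` away from the given boundary point -/
def Fam1 (D : Set (En n)) (δ : ℝ) (c₀ : En N) : Prop :=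
  ∀ (P e : En n), Trans D P e → ∀ (A τ s : ℝ), 0 < τ → 0 < s → ∃ g : En n → En N,
    DifferentiableOn ℂ g D ∧ ContinuousOn g (closure D) ∧ (∀ z ∈ closure D, δ ≤ ‖g z‖ ∧ ‖g z‖ ≤ 1) ∧
    (∀ z ∈ closure D, z ∉ ball P s → ‖g z - c₀‖ ≤ τ) ∧ Bad D g P s A

/-- the growth function at the distance of `P` -/
noncomputable def Psi (φ : ℝ → ℝ) (p P : En n) : ℝ := |φ (‖P - p‖ / 2)| + 1

end Pool.Agent.MPca0fc2.EQ
end

section

/-! Campaign EQ, growth theorem, task GR1: the family of bad data. -/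

set_option autoImplicit false

open Metric Set Filter Topology

namespace Pool.Agent.MPca0fc2.EQ

open Pool.Agent.MPca0fc2.TB (En Trans Solv)

variable {n N : ℕ}

private lemma GR1_cs (a b : En N) : ‖∑ j, a j * b j‖ ≤ ‖a‖ * ‖b‖ := by
  refine (norm_sum_le _ _).trans ?_
  have h1 : ∑ j, ‖a j * b j‖ = ∑ j, ‖a j‖ * ‖b j‖ := Finset.sum_congr rfl fun j _ => norm_mul _ _
  rw [h1, EuclideanSpace.norm_eq, EuclideanSpace.norm_eq]
  exact Real.sum_mul_le_sqrt_mul_sqrt _ _ _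

/-- The transplanted data, with a given dilation `k`.
PROOF. This is `TB.step_loc` (TB/G4.lean): copy its proof; there `k` is chosen after `solv_gap`, here `k₀ < k < 1` and the gap are given. Note `g z = f (k • Θ z)` and `c = f (k • (-e))`; the bounds of `g` hold on `closure D` (`‖k • Θ z‖ < 1` there). -/
theorem step_loc_k {D : Set (En n)} {p e : En n} (hT : Trans D p e) {f : En n → En N} (hf : DifferentiableOn ℂ f (ball 0 1)) {a b A : ℝ}
    (hb : ∀ z ∈ ball (0 : En n) 1, a ≤ ‖f z‖ ∧ ‖f z‖ ≤ b) {k₀ k : ℝ} (hk0 : 0 < k₀) (hk : k₀ < k) (hk1 : k < 1)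
    (hgap : ∀ k', k₀ < k' → k' < 1 → ¬ Solv (fun z => f ((k' : ℂ) • z)) (ball 0 1) A) {η s : ℝ} (hη : 0 < η) (hs : 0 < s) :
    ∃ g : En n → En N, DifferentiableOn ℂ g D ∧ ContinuousOn g (closure D) ∧ (∀ z ∈ closure D, a ≤ ‖g z‖ ∧ ‖g z‖ ≤ b) ∧
      (∀ z ∈ closure D, z ∉ ball p s → ‖g z - f ((k : ℂ) • (-e))‖ ≤ η) ∧ Bad D g p s A := by
  obtain ⟨he, hT⟩ := hT
  have hkpos : 0 < k := by linarith
  have hnk : ∀ x : En n, ‖(k : ℂ) • x‖ = k * ‖x‖ := by
    intro x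
    rw [norm_smul, Complex.norm_real, Real.norm_of_nonneg hkpos.le]
  have hmem : (k : ℂ) • (-e) ∈ ball (0 : En n) 1 := by
    rw [mem_ball_zero_iff, hnk, norm_neg, he]
    linarith
  have hcts : ContinuousAt (fun x : En n => f ((k : ℂ) • x)) (-e) := by
    have h1 : ContinuousAt f ((k : ℂ) • (-e)) :=
      hf.continuousOn.continuousAt (isOpen_ball.mem_nhds hmem)
    exact ContinuousAt.comp (f := fun x : En n => (k : ℂ) • x) h1 (continuous_const_smul (k : ℂ)).continuousAt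
  obtain ⟨δ, hδ, hδf⟩ := Metric.continuousAt_iff.mp hcts η hη
  set ε : ℝ := min (1 / 2) (min (δ / 2) (min ((1 - k) / 2) ((k - k₀) / 2))) with hε
  have hε0 : 0 < ε := by
    rw [hε]
    refine lt_min (by norm_num) (lt_min (by linarith) (lt_min (by linarith) (by linarith)))
  have hε1 : ε ≤ 1 / 2 := min_le_left _ _
  have hε2 : ε ≤ δ / 2 := (min_le_right _ _).trans (min_le_left _ _)
  have hε3 : ε ≤ (1 - k) / 2 := (min_le_right _ _).trans ((min_le_right _ _).trans (min_le_left _ _))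
  have hε4 : ε ≤ (k - k₀) / 2 := (min_le_right _ _).trans ((min_le_right _ _).trans (min_le_right _ _))
  have hk2 : k * (1 + ε) < 1 := by nlinarith
  have hk3 : k₀ < k * (1 - ε) := by nlinarith
  obtain ⟨Θ, ψ, hΘd, hΘc, hΘn, hΘf, hψd, hψ⟩ := hT ε hε0 (by linarith) s hs
  have hin : ∀ z ∈ closure D, (k : ℂ) • Θ z ∈ ball (0 : En n) 1 := by
    intro z hz
    rw [mem_ball_zero_iff, hnk]
    have := hΘn z hz
    nlinarith
  refine ⟨fun z => f ((k : ℂ) • Θ z), ?_, ?_, ?_, ?_, ?_⟩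
  · exact hf.comp (hΘd.const_smul (k : ℂ)) fun z hz => hin z (subset_closure hz)
  · exact hf.continuousOn.comp (hΘc.const_smul (k : ℂ)) fun z hz => hin z hz
  · intro z hz
    exact hb _ (hin z hz)
  · intro z hz hzb
    have h1 : s ≤ ‖z - p‖ := by
      rw [mem_ball, dist_eq_norm] at hzb
      exact not_lt.mp hzb
    have h2 := hΘf z hz h1
    have h3 : dist (Θ z) (-e) < δ := by
      rw [dist_eq_norm, sub_neg_eq_add]
      linarith
    have h4 := hδf h3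
    rw [dist_eq_norm] at h4
    exact h4.le
  · intro F M τ hM hMA hτ hFg hS
    obtain ⟨H, hH1, hH2, hH3⟩ := hS
    have hψ' : ∀ ζ ∈ ball (0 : En n) (1 - ε), ψ ζ ∈ D ∩ ball p s := by
      intro ζ hζ
      obtain ⟨h1, h2, -⟩ := hψ ζ hζ
      exact ⟨h1, by rw [mem_ball, dist_eq_norm]; exact h2⟩
    have hlt : k * (1 - ε) < 1 := by nlinarith
    apply hgap (k * (1 - ε)) hk3 hlt
    set u : En n → ℂ := fun ζ => ∑ j, f ((k : ℂ) • ζ) j * H (ψ ζ) j with hu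
    have hinb : ∀ ζ ∈ ball (0 : En n) (1 - ε), (k : ℂ) • ζ ∈ ball (0 : En n) 1 := by
      intro ζ hζ
      rw [mem_ball_zero_iff] at hζ ⊢
      rw [hnk]
      nlinarith [norm_nonneg ζ]
    have hu1 : ∀ ζ ∈ ball (0 : En n) (1 - ε), ‖1 - u ζ‖ ≤ 1 / 2 := by
      intro ζ hζ
      obtain ⟨h1, h2, h3⟩ := hψ ζ hζ
      have h4 := hH3 (ψ ζ) (hψ' ζ hζ)
      have h5 : 1 - u ζ = ∑ j, (F (ψ ζ) - f ((k : ℂ) • Θ (ψ ζ))) j * H (ψ ζ) j := by
        rw [hu, ← h4, ← Finset.sum_sub_distrib, h3]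
        refine Finset.sum_congr rfl fun j _ => ?_
        simp only [PiLp.sub_apply]
        ring
      rw [h5]
      refine (GR1_cs _ _).trans ?_
      have h6 : ‖F (ψ ζ) - f ((k : ℂ) • Θ (ψ ζ))‖ ≤ τ := hFg (ψ ζ) h1 (by
        rw [mem_ball, dist_eq_norm]
        exact h2)
      have h7 := hH2 (ψ ζ) (hψ' ζ hζ)
      calc ‖F (ψ ζ) - f ((k : ℂ) • Θ (ψ ζ))‖ * ‖H (ψ ζ)‖ ≤ τ * M :=
            mul_le_mul h6 h7 (norm_nonneg _) ((norm_nonneg _).trans h6)
        _ ≤ 1 / 2 := hτ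
    have hu2 : ∀ ζ ∈ ball (0 : En n) (1 - ε), 1 / 2 ≤ ‖u ζ‖ := by
      intro ζ hζ
      have h1 := hu1 ζ hζ
      have h2 : (1 : ℝ) ≤ ‖1 - u ζ‖ + ‖u ζ‖ := by
        calc (1 : ℝ) = ‖(1 - u ζ) + u ζ‖ := by simp
          _ ≤ ‖1 - u ζ‖ + ‖u ζ‖ := norm_add_le _ _
      linarith
    have hu3 : ∀ ζ ∈ ball (0 : En n) (1 - ε), u ζ ≠ 0 := by
      intro ζ hζ h0
      have := hu2 ζ hζ
      rw [h0, norm_zero] at this
      linarith
    have hfd : DifferentiableOn ℂ (fun ζ : En n => f ((k : ℂ) • ζ)) (ball 0 (1 - ε)) :=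
      hf.comp ((differentiable_id.const_smul (k : ℂ)).differentiableOn) hinb
    have hHd : DifferentiableOn ℂ (fun ζ : En n => H (ψ ζ)) (ball 0 (1 - ε)) :=
      hH1.comp hψd hψ'
    have hcoord : ∀ {G : En n → En N} {E : Set (En n)}, DifferentiableOn ℂ G E → ∀ j : Fin N,
        DifferentiableOn ℂ (fun ζ => G ζ j) E := by
      intro G E hG j
      exact ((EuclideanSpace.proj j : En N →L[ℂ] ℂ).differentiable.comp_differentiableOn hG)
    have hud : DifferentiableOn ℂ u (ball 0 (1 - ε)) := by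
      apply DifferentiableOn.fun_sum
      intro j _
      exact (hcoord hfd j).mul (hcoord hHd j)
    have hsol : Solv (fun ζ => f ((k : ℂ) • ζ)) (ball 0 (1 - ε)) A := by
      refine ⟨fun ζ => (u ζ)⁻¹ • H (ψ ζ), ?_, ?_, ?_⟩
      · exact (hud.inv hu3).smul hHd
      · intro ζ hζ
        rw [norm_smul, norm_inv]
        have h1 := hu2 ζ hζ
        have h2 : ‖u ζ‖⁻¹ ≤ 2 := by
          rw [inv_le_comm₀ (by linarith) (by norm_num)]
          linarith
        have h3 := hH2 (ψ ζ) (hψ' ζ hζ)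
        calc ‖u ζ‖⁻¹ * ‖H (ψ ζ)‖ ≤ 2 * M := mul_le_mul h2 h3 (norm_nonneg _) (by norm_num)
          _ ≤ A := hMA
      · intro ζ hζ
        have h1 : ∀ j, f ((k : ℂ) • ζ) j * ((u ζ)⁻¹ • H (ψ ζ)) j =
            (u ζ)⁻¹ * (f ((k : ℂ) • ζ) j * H (ψ ζ) j) := by
          intro j
          simp only [PiLp.smul_apply, smul_eq_mul]
          ring
        rw [Finset.sum_congr rfl fun j _ => h1 j, ← Finset.mul_sum]
        exact inv_mul_cancel₀ (hu3 ζ hζ)
    have hfin := TB.solv_scale (by linarith : 0 < 1 - ε) hsol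
    have heq : (fun z : En n => f (((k * (1 - ε) : ℝ) : ℂ) • z)) =
        fun z => (fun ζ => f ((k : ℂ) • ζ)) (((1 - ε : ℝ) : ℂ) • z) := by
      funext z
      show f _ = f _
      rw [smul_smul, Complex.ofReal_mul]
    rw [heq]
    exact hfin

/-- The unitary group is transitive on the unit sphere.
PROOF. Extend `e` and `e₀` to orthonormal bases (`OrthonormalBasis`, e.g. `Orthonormal.exists_orthonormalBasis_extension_of_card_eq` with `Fin n`, both with the vector at the index `⟨0, _⟩`), and `U = b.repr.trans b₀.repr.symm` (`OrthonormalBasis.equiv`). `n ≥ 1` as there is a unit vector. -/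
theorem exists_unitary {e e₀ : En n} (he : ‖e‖ = 1) (he₀ : ‖e₀‖ = 1) : ∃ U : En n ≃ₗᵢ[ℂ] En n, U e = e₀ := by
  have hn0 : 0 < n := by
    rcases Nat.eq_zero_or_pos n with h | h
    · subst h
      exfalso
      rw [Subsingleton.elim e 0, norm_zero] at he
      exact zero_ne_one he
    · exact h
  have key : ∀ v : En n, ‖v‖ = 1 → ∃ b : OrthonormalBasis (Fin n) ℂ (En n), b ⟨0, hn0⟩ = v := by
    intro v hv
    have h1 : Orthonormal ℂ (({(⟨0, hn0⟩ : Fin n)} : Set (Fin n)).domRestrict fun _ => v) := by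
      refine ⟨fun i => hv, fun i j hij => ?_⟩
      exfalso
      apply hij
      have h2 := i.2
      have h3 := j.2
      rw [mem_singleton_iff] at h2 h3
      exact Subtype.ext (h2.trans h3.symm)
    obtain ⟨b, hb⟩ := h1.exists_orthonormalBasis_extension_of_card_eq (by simp)
    exact ⟨b, hb _ (mem_singleton _)⟩
  obtain ⟨b, hb⟩ := key e he
  obtain ⟨b', hb'⟩ := key e₀ he₀
  refine ⟨b.equiv b' (Equiv.refl _), ?_⟩
  rw [← hb, ← hb']
  simp

/-- Solutions are rotated.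
PROOF. If `g` solves for `f ∘ U` on the unit ball, then `g ∘ U.symm` solves for `f` (`‖U z‖ = ‖z‖`). -/
theorem solv_unitary (U : En n ≃ₗᵢ[ℂ] En n) {f : En n → En N} {A : ℝ} (h : Solv (fun z => f (U z)) (ball 0 1) A) : Solv f (ball 0 1) A := by
  obtain ⟨g, h1, h2, h3⟩ := h
  have hm : ∀ z ∈ ball (0 : En n) 1, U.symm z ∈ ball (0 : En n) 1 := by
    intro z hz
    rw [mem_ball_zero_iff] at hz ⊢
    rwa [LinearIsometryEquiv.norm_map]
  refine ⟨fun z => g (U.symm z), ?_, fun z hz => h2 _ (hm z hz), fun z hz => ?_⟩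
  · exact h1.comp U.symm.toContinuousLinearEquiv.differentiable.differentiableOn hm
  · have h4 := h3 _ (hm z hz)
    simp only [LinearIsometryEquiv.apply_symm_apply] at h4
    exact h4

/-- The family of bad data.
PROOF. `f m` for `A = m`, `TB.solv_gap` gives `k₀ m`, `k m = (1 + k₀ m) / 2`; a fixed unit vector `e₀` (`n ≥ 1`); `c m = f m (k m • (-e₀))` is in the compact set `{δ ≤ ‖c‖ ≤ 1}`: a subsequence `m = χ i` tends to `c₀` (`isCompact_closedBall .tendsto_subseq`; `δ ≤ ‖c₀‖` in the limit).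
Given `P`, `e`, `A`, `τ`, `s`: `i` with `χ i ≥ A` and `‖c (χ i) - c₀‖ ≤ τ/2`, `U` with `U e = e₀`, `step_loc_k` for `f' z = f (χ i) (U z)`, `k = k (χ i)`, `η = τ / 2`: the gap: if `Solv (fun z => f' (k' • z)) ..` then, as `f' (k' • z) = f (k' • U z)`, `solv_unitary` for
`fun z => f (k' • z)`. The far value is `f (U (k • (-e))) = f (k • (-e₀))`. `Bad` is monotone in `A` (`A ≤ χ i`). -/
theorem bad_family (hn : 1 ≤ n) {δ : ℝ}
    (hcon : ∀ A : ℝ, ∃ f : En n → En N, DifferentiableOn ℂ f (ball 0 1) ∧ (∀ z ∈ ball (0 : En n) 1, δ ≤ ‖f z‖ ∧ ‖f z‖ ≤ 1) ∧ ¬ Solv f (ball 0 1) A) :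
    ∃ c₀ : En N, δ ≤ ‖c₀‖ ∧ ‖c₀‖ ≤ 1 ∧ ∀ D : Set (En n), Fam1 D δ c₀ := by
  choose f hf hfb hfn using fun m : ℕ => hcon (m : ℝ)
  choose k₀ hk0 hk1 hgap using fun m => TB.solv_gap (hf m) (hfn m)
  obtain ⟨e₀, he₀⟩ : ∃ e₀ : En n, ‖e₀‖ = 1 := ⟨EuclideanSpace.single ⟨0, hn⟩ 1, by simp⟩
  set k : ℕ → ℝ := fun m => (1 + k₀ m) / 2 with hk
  have hk2 : ∀ m, k₀ m < k m := fun m => by
    have := hk1 m
    simp only [hk]
    linarith
  have hk3 : ∀ m, k m < 1 := fun m => by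
    have := hk1 m
    simp only [hk]
    linarith
  set c : ℕ → En N := fun m => f m ((k m : ℂ) • (-e₀)) with hc
  have hmem : ∀ m, ((k m : ℂ) • (-e₀)) ∈ ball (0 : En n) 1 := by
    intro m
    have h1 : 0 < k m := (hk0 m).trans (hk2 m)
    rw [mem_ball_zero_iff, norm_smul, Complex.norm_real, Real.norm_of_nonneg h1.le, norm_neg, he₀,
      mul_one]
    exact hk3 m
  have hcb : ∀ m, δ ≤ ‖c m‖ ∧ ‖c m‖ ≤ 1 := fun m => hfb m _ (hmem m)
  obtain ⟨c₀, hc0, χ, hχ, hχc⟩ := (isCompact_closedBall (0 : En N) 1).tendsto_subseq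
    (x := c) (fun m => by rw [mem_closedBall_zero_iff]; exact (hcb m).2)
  refine ⟨c₀, ?_, mem_closedBall_zero_iff.1 hc0, ?_⟩
  · exact ge_of_tendsto' hχc.norm fun i => (hcb (χ i)).1
  intro D P e hT A τ s hτ hs
  have hev1 : ∀ᶠ i in atTop, ‖c (χ i) - c₀‖ ≤ τ / 2 := by
    have h1 := (Metric.tendsto_nhds.mp hχc) (τ / 2) (half_pos hτ)
    filter_upwards [h1] with i hi
    rw [dist_eq_norm] at hi
    exact hi.le
  have hev2 : ∀ᶠ i in atTop, A ≤ (χ i : ℝ) :=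
    (tendsto_natCast_atTop_atTop.comp hχ.tendsto_atTop).eventually_ge_atTop A
  obtain ⟨i, hi1, hi2⟩ := (hev1.and hev2).exists
  obtain ⟨U, hU⟩ := exists_unitary hT.1 he₀
  have hUb : ∀ z ∈ ball (0 : En n) 1, U z ∈ ball (0 : En n) 1 := by
    intro z hz
    rw [mem_ball_zero_iff] at hz ⊢
    rwa [LinearIsometryEquiv.norm_map]
  obtain ⟨g, hg1, hg2, hg3, hg4, hg5⟩ := step_loc_k hT (f := fun z => f (χ i) (U z))
    ((hf (χ i)).comp U.toContinuousLinearEquiv.differentiable.differentiableOn hUb)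
    (a := δ) (b := 1) (A := (χ i : ℝ)) (fun z hz => hfb (χ i) _ (hUb z hz)) (hk0 (χ i))
    (hk2 (χ i)) (hk3 (χ i)) (fun k' h1 h2 h3 => hgap (χ i) k' h1 h2 (solv_unitary U (by
      have e1 : (fun z : En n => f (χ i) ((k' : ℂ) • U z)) =
          fun z => f (χ i) (U ((k' : ℂ) • z)) := by
        funext z
        rw [map_smul]
      rw [e1]
      exact h3))) (half_pos hτ) hs
  refine ⟨g, hg1, hg2, hg3, fun z hz hzP => ?_, ?_⟩
  · have h1 := hg4 z hz hzP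
    have h2 : f (χ i) (U ((k (χ i) : ℂ) • (-e))) = c (χ i) := by
      rw [map_smul, map_neg, hU]
    rw [h2] at h1
    calc ‖g z - c₀‖ = ‖(g z - c (χ i)) + (c (χ i) - c₀)‖ := by rw [sub_add_sub_cancel]
      _ ≤ ‖g z - c (χ i)‖ + ‖c (χ i) - c₀‖ := norm_add_le _ _
      _ ≤ τ / 2 + τ / 2 := add_le_add h1 hi1
      _ = τ := add_halves τ
  · intro F M τ' hM hMA hτ' hFg
    exact hg5 F M τ' hM (hMA.trans hi2) hτ' hFg

end Pool.Agent.MPca0fc2.EQ
end

section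

/-! Campaign EQ, growth theorem, task GR2: one more bad piece. -/

set_option autoImplicit false

open Metric Set Filter Topology

namespace Pool.Agent.MPca0fc2.EQ

open Pool.Agent.MPca0fc2.TB (En Trans Solv)

variable {n N : ℕ}

/-- One step: a bad piece is inserted near a boundary point `P` in the annulus `{ρ' ≤ ‖z - p‖ < ρ}`.
PROOF. `P ∈ frontier D`, `P ≠ p`, `d = ‖P - p‖ < ρ / 4` from `hacc`, with `e`, `Trans D P e` and the peak function `w`, `c`. `r = d / 4`, `ρ' = min (ρ / 2) (d / 2)`: `ball P r ⊆ {ρ' ≤ ‖z - p‖ < ρ}`. Outside `ball P r`: `Re w ≥ c r²`. Choose `K > 0` with `3 exp (- K c r²) ≤ θ`.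
`W z = exp (- K w z)`: holomorphic on `D`, continuous on `closure D`, `‖W‖ ≤ 1`, `‖W z‖ ≤ θ / 3` outside `ball P r`, `W P = 1`. `a = F P` (`P ∈ closure D`, `‖P - p‖ < ρ`): `‖a - c₀‖ ≤ κ / 8`, `‖a‖ ≤ 2`. `τ = min (κ / 16) (1 / (160 (k + 1) Ψ))`, `Ψ = Psi φ p P ≥ 1`. By continuity
choose `0 < s ≤ r` with `‖W z - 1‖ ≤ τ`, `‖F z - a‖ ≤ τ` on `closure D ∩ ball P s`. `g` from `hfam` with `A = (k + 1) Ψ`, `τ`, `s`. `F' = F + W • (g - a)`.
(i) Outside `ball P r`: `‖F' z - F z‖ ≤ ‖W z‖ (‖g z‖ + ‖a‖) ≤ θ`; this covers `ρ ≤ ‖z - p‖` and `‖z - p‖ < ρ'`. (ii) `‖z - p‖ < ρ`, `z ∉ ball P s`: `‖F' z - c₀‖ ≤ ‖F z - c₀‖ + ‖g z - c₀‖ + ‖c₀ - a‖ ≤ κ/8 + τ + κ/8 ≤ κ/2`.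
(iii) On `ball P s`: `F' z - g z = (F z - a) + (W z - 1) (g z - a)`, the norm is `≤ τ + 3 τ = 4 τ`. -/
theorem gr_step {D : Set (En n)} {p : En n} (hacc : ∀ ε > 0, ∃ q ∈ frontier D, q ≠ p ∧ ‖q - p‖ < ε ∧ (∃ e, Trans D q e) ∧ PeakAt D q)
    (φ : ℝ → ℝ) {δ κ : ℝ} {c₀ : En N} (hκ : 0 < κ) (hκ1 : κ ≤ 1) (hc₀ : ‖c₀‖ ≤ 1) (hfam : Fam1 D δ c₀) {F : En n → En N} (hFd : DifferentiableOn ℂ F D)
    (hFc : ContinuousOn F (closure D)) {ρ θ : ℝ} (hρ : 0 < ρ) (hθ : 0 < θ) (hF : ∀ z ∈ closure D, ‖z - p‖ < ρ → ‖F z - c₀‖ ≤ κ / 8) (k : ℕ) :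
    ∃ (P : En n) (s ρ' : ℝ) (g F' : En n → En N), 0 < s ∧ 0 < ρ' ∧ ρ' ≤ ρ / 2 ∧ s ≤ ‖P - p‖ / 2 ∧ ‖P - p‖ < ρ ∧ P ≠ p ∧
      DifferentiableOn ℂ F' D ∧ ContinuousOn F' (closure D) ∧
      (∀ z ∈ closure D, (ρ ≤ ‖z - p‖ ∨ ‖z - p‖ < ρ') → ‖F' z - F z‖ ≤ θ) ∧
      (∀ z ∈ ball P s, ρ' ≤ ‖z - p‖ ∧ ‖z - p‖ < ρ) ∧
      (∀ z ∈ closure D, ‖z - p‖ < ρ → z ∉ ball P s → ‖F' z - c₀‖ ≤ κ / 2) ∧
      (∀ z ∈ closure D, z ∈ ball P s → ‖F' z - g z‖ ≤ κ / 4 ∧ ‖F' z - g z‖ ≤ 1 / (40 * (k + 1) * Psi φ p P)) ∧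
      (∀ z ∈ closure D, δ ≤ ‖g z‖ ∧ ‖g z‖ ≤ 1) ∧ Bad D g P s ((k + 1) * Psi φ p P) := by
  obtain ⟨P, hPf, hPp, hPρ, ⟨e, he⟩, w, c, hc, hwd, hwc, hwP, hw⟩ := hacc (ρ / 4) (by linarith)
  have hPc : P ∈ closure D := frontier_subset_closure hPf
  set d : ℝ := ‖P - p‖ with hd
  have hd0 : 0 < d := norm_pos_iff.2 (sub_ne_zero.2 hPp)
  have hball : ∀ z ∈ ball P (d / 4), d / 2 ≤ ‖z - p‖ ∧ ‖z - p‖ < ρ := by
    intro z hz
    rw [mem_ball, dist_eq_norm] at hz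
    have h1 : ‖P - p‖ ≤ ‖z - P‖ + ‖z - p‖ := by
      have h2 : P - p = -(z - P) + (z - p) := by abel
      rw [h2]
      refine (norm_add_le _ _).trans ?_
      rw [norm_neg]
    have h3 : ‖z - p‖ ≤ ‖z - P‖ + ‖P - p‖ := by
      have h2 : z - p = (z - P) + (P - p) := by abel
      rw [h2]
      exact norm_add_le _ _
    constructor <;> linarith
  -- the peak function
  set K : ℝ := (3 / θ) / (c * (d / 4) ^ 2) with hK
  have hcd : 0 < c * (d / 4) ^ 2 := by positivity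
  have hK0 : 0 < K := by positivity
  set W : En n → ℂ := fun z => Complex.exp (-(K : ℂ) * w z) with hW
  have hWn : ∀ z, ‖W z‖ = Real.exp (-(K * (w z).re)) := by
    intro z
    have h1 : (-(K : ℂ) * w z).re = -(K * (w z).re) := by
      rw [neg_mul, Complex.neg_re, Complex.re_ofReal_mul]
    rw [hW]
    show ‖Complex.exp (-(K : ℂ) * w z)‖ = _
    rw [Complex.norm_exp, h1]
  have hWd : DifferentiableOn ℂ W D := (hwd.const_mul (-(K : ℂ))).cexp
  have hWc : ContinuousOn W (closure D) := Complex.continuous_exp.comp_continuousOn (continuousOn_const.mul hwc)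
  have hW1 : ∀ z ∈ closure D, ‖W z‖ ≤ 1 := by
    intro z hz
    rw [hWn]
    have h1 := hw z hz
    have h2 : 0 ≤ c * ‖z - P‖ ^ 2 := by positivity
    have h3 : 0 ≤ K * (w z).re := mul_nonneg hK0.le (h2.trans h1)
    exact Real.exp_le_one_iff.2 (by linarith)
  have hWθ : ∀ z ∈ closure D, z ∉ ball P (d / 4) → ‖W z‖ ≤ θ / 3 := by
    intro z hz hzb
    rw [mem_ball, dist_eq_norm, not_lt] at hzb
    rw [hWn]
    have h1 := hw z hz
    have h2 : c * (d / 4) ^ 2 ≤ c * ‖z - P‖ ^ 2 :=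
      mul_le_mul_of_nonneg_left (pow_le_pow_left₀ (by positivity) hzb 2) hc.le
    have h3 : 3 / θ ≤ K * (w z).re := by
      calc 3 / θ = K * (c * (d / 4) ^ 2) := by
            rw [hK]
            field_simp
        _ ≤ K * (w z).re := mul_le_mul_of_nonneg_left (h2.trans h1) hK0.le
    have h4 : 0 < 3 / θ := by positivity
    calc Real.exp (-(K * (w z).re)) ≤ Real.exp (-(3 / θ)) := Real.exp_le_exp.2 (by linarith)
      _ = (Real.exp (3 / θ))⁻¹ := Real.exp_neg _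
      _ ≤ (3 / θ)⁻¹ := by
          refine inv_anti₀ h4 ?_
          have := Real.add_one_le_exp (3 / θ)
          linarith
      _ = θ / 3 := by rw [inv_div]
  have hWP : W P = 1 := by
    rw [hW]
    show Complex.exp (-(K : ℂ) * w P) = 1
    rw [hwP, mul_zero, Complex.exp_zero]
  -- the value of `F` at `P`
  set a : En N := F P with ha
  have hac : ‖a - c₀‖ ≤ κ / 8 := hF P hPc (by linarith)
  have ha2 : ‖a‖ ≤ 2 := by
    have h1 : a = (a - c₀) + c₀ := by abel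
    rw [h1]
    refine (norm_add_le _ _).trans ?_
    linarith
  have hΨ : 1 ≤ Psi φ p P := by
    unfold Psi
    have := abs_nonneg (φ (‖P - p‖ / 2))
    linarith
  set Ψ : ℝ := Psi φ p P with hΨd
  have hkΨ : 0 < ((k : ℝ) + 1) * Ψ := by positivity
  set τ : ℝ := min (κ / 16) (1 / (160 * (((k : ℝ) + 1) * Ψ))) with hτ
  have hτ0 : 0 < τ := lt_min (by positivity) (by positivity)
  have hτ1 : τ ≤ κ / 16 := min_le_left _ _
  have hτ2 : τ ≤ 1 / (160 * (((k : ℝ) + 1) * Ψ)) := min_le_right _ _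
  obtain ⟨s1, hs1, hs1W⟩ := Metric.continuousWithinAt_iff.1 (hWc P hPc) τ hτ0
  obtain ⟨s2, hs2, hs2F⟩ := Metric.continuousWithinAt_iff.1 (hFc P hPc) τ hτ0
  set s : ℝ := min (d / 4) (min s1 s2) with hs
  have hs0 : 0 < s := lt_min (by positivity) (lt_min hs1 hs2)
  have hsr : s ≤ d / 4 := min_le_left _ _
  have hsW : ∀ z ∈ closure D, z ∈ ball P s → ‖W z - 1‖ ≤ τ := by
    intro z hz hzs
    have h1 := hs1W hz (lt_of_lt_of_le (mem_ball.1 hzs) ((min_le_right _ _).trans (min_le_left _ _)))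
    rw [hWP, dist_eq_norm] at h1
    exact h1.le
  have hsF : ∀ z ∈ closure D, z ∈ ball P s → ‖F z - a‖ ≤ τ := by
    intro z hz hzs
    have h1 := hs2F hz (lt_of_lt_of_le (mem_ball.1 hzs) ((min_le_right _ _).trans (min_le_right _ _)))
    rw [dist_eq_norm] at h1
    exact h1.le
  obtain ⟨g, hgd, hgc, hgb, hgs, hbad⟩ := hfam P e he (((k : ℝ) + 1) * Ψ) τ s hτ0 hs0
  have hga : ∀ z ∈ closure D, ‖g z - a‖ ≤ 3 := by
    intro z hz
    refine (norm_sub_le _ _).trans ?_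
    have := (hgb z hz).2
    linarith
  refine ⟨P, s, min (ρ / 2) (d / 2), g, fun z => F z + W z • (g z - a), hs0, lt_min (by linarith) (by linarith),
    min_le_left _ _, by linarith, by linarith, hPp, ?_, ?_, ?_, ?_, ?_, ?_, hgb, hbad⟩
  · exact hFd.add (hWd.smul (hgd.sub_const a))
  · exact hFc.add (hWc.smul (hgc.sub continuousOn_const))
  · intro z hz hzz
    have hzb : z ∉ ball P (d / 4) := by
      intro h1
      have h2 := hball z h1
      rcases hzz with h3 | h3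
      · linarith
      · have := min_le_right (ρ / 2) (d / 2)
        linarith
    have h1 : F z + W z • (g z - a) - F z = W z • (g z - a) := by abel
    show ‖F z + W z • (g z - a) - F z‖ ≤ θ
    rw [h1, norm_smul]
    calc ‖W z‖ * ‖g z - a‖ ≤ (θ / 3) * 3 :=
          mul_le_mul (hWθ z hz hzb) (hga z hz) (norm_nonneg _) (by positivity)
      _ = θ := by ring
  · intro z hzs
    have h1 := hball z (ball_subset_ball hsr hzs)
    exact ⟨(min_le_right _ _).trans h1.1, h1.2⟩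
  · intro z hz hzρ hzs
    have h1 : F z + W z • (g z - a) - c₀ = (F z - c₀) + W z • ((g z - c₀) - (a - c₀)) := by
      rw [sub_sub_sub_cancel_right]
      abel
    show ‖F z + W z • (g z - a) - c₀‖ ≤ κ / 2
    rw [h1]
    have h2 := hF z hz hzρ
    have h3 := hgs z hz hzs
    have h4 : ‖W z • ((g z - c₀) - (a - c₀))‖ ≤ τ + κ / 8 := by
      rw [norm_smul]
      calc ‖W z‖ * ‖(g z - c₀) - (a - c₀)‖ ≤ 1 * (τ + κ / 8) := by
            refine mul_le_mul (hW1 z hz) ((norm_sub_le _ _).trans (add_le_add h3 hac)) (norm_nonneg _) zero_le_one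
        _ = τ + κ / 8 := one_mul _
    refine (norm_add_le _ _).trans ?_
    linarith
  · intro z hz hzs
    have h1 : F z + W z • (g z - a) - g z = (F z - a) + (W z - 1) • (g z - a) := by
      rw [sub_smul, one_smul]
      abel
    have h2 : ‖F z + W z • (g z - a) - g z‖ ≤ 4 * τ := by
      rw [h1]
      refine (norm_add_le _ _).trans ?_
      have h3 := hsF z hz hzs
      have h4 : ‖(W z - 1) • (g z - a)‖ ≤ τ * 3 := by
        rw [norm_smul]
        exact mul_le_mul (hsW z hz hzs) (hga z hz) (norm_nonneg _) hτ0.le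
      linarith
    refine ⟨h2.trans (by linarith), h2.trans ?_⟩
    have h5 : 4 * τ ≤ 4 * (1 / (160 * (((k : ℝ) + 1) * Ψ))) := by linarith
    refine h5.trans (le_of_eq ?_)
    have h6 : (k : ℝ) + 1 ≠ 0 := by positivity
    have h7 : Ψ ≠ 0 := by positivity
    rw [← hΨd]
    field_simp
    norm_num

end Pool.Agent.MPca0fc2.EQ
end
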