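import Pool.Agent.Lib.MP_ca0fc2_an.EQ.D2
import Pool.Agent.Lib.MP_ca0fc2_an.EQ.B5
import Pool.Agent.Lib.MP_ca0fc2_an.EQ.D4

section

/-! Campaign EQ, task D3: the transplanted solution solves the equation approximately. -/

set_option autoImplicit false

open Metric Set Filter Topology

namespace Pool.Agent.MPca0fc2.EQ

open Pool.Agent.MPca0fc2.TB (En)

variable {n N : ℕ}

private theorem D3_kn (n : ℕ) : 4 ≤ kn n := by
  have h : (0 : ℝ) ≤ n := Nat.cast_nonneg n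
  unfold kn
  linarith

/-- The point `ν.inv z` at large heights. -/
private theorem D3_first (T : Tg n) (Cs : ℝ) : ∀ᶠ lam in 𝓝[>] (0 : ℝ), ∀ (sh : ℕ → ℝ) (Sy : Sys T Cs lam sh) (m k : ℕ) (ν : Nd n) (z : En n),
    Sy.Good k ν → DV T lam sh m k ν z → Ts lam (k + 1) ≤ -T.ρ z → ‖ν.inv z‖ < 1 ∧ -T.ρ z ≤ 3 * (1 - ‖ν.inv z‖) ∧ 1 - ‖ν.inv z‖ ≤ -T.ρ z ∧
      ν.Ψ (ν.inv z) = z ∧ ‖ν.inv z - ν.q‖ ≤ (kn n + 1 / 2) * rs lam k := by
  have hkn := D3_kn n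
  have hCs := abs_nonneg Cs
  have ha : 0 < 1 / (4 * ((|Cs| + 1) * kn n)) := by positivity
  filter_upwards [inv_ok T Cs, dz T Cs, dv_zz T, ev_lt one_pos, ev_lt ha] with lam hinv hdz hzz hp hp2
  have hl0 := hp.1
  have hl1 : lam ≤ 1 := hp.2.le
  have hκ : |Cs| * lam * kn n ≤ 1 / 4 := by
    have h1 := hp2.2
    rw [lt_div_iff₀ (by positivity)] at h1
    have h2 : 0 ≤ lam * kn n := by positivity
    nlinarith
  intro sh Sy m k ν z hG hD hT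
  have h1 : rs lam (k + 1) ^ (11 / 5 : ℝ) ≤ 4 * (-T.ρ z) := by
    have h2 : rs lam (k + 1) ^ (11 / 5 : ℝ) ≤ Ts lam (k + 1) :=
      Real.rpow_le_rpow_of_exponent_ge (rs_pos hl0 _) ((rs_le hl0 hl1 _).trans hl1) (by norm_num)
    have h3 := Ts_pos hl0 (k + 1)
    linarith
  obtain ⟨z2, y1, a1, a2⟩ := hdz sh Sy k ν z hG (hzz sh m k ν z hD h1)
  obtain ⟨i1, -, i3, -, -⟩ := hinv sh Sy k ν hG
  have hΨ := (i1 z (by linarith)).2.1
  refine ⟨y1, a1, a2, hΨ, ?_⟩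
  have h4 := (i3 (ν.inv z) ν.q (by linarith) (by rw [Sy.q1 k ν hG]; norm_num)).2
  rw [hΨ] at h4
  have h5 := hD.cen
  have h6 := rs_pos hl0 k
  have h7 : 1 + 2 * Cs * lam ≤ 1 + 2 * (|Cs| * lam) := by
    have := mul_le_mul_of_nonneg_right (le_abs_self Cs) hl0.le
    linarith
  have h8 : 0 ≤ |Cs| * lam := by positivity
  calc ‖ν.inv z - ν.q‖ ≤ (1 + 2 * Cs * lam) * ‖z - ν.Ψ ν.q‖ := h4
    _ ≤ (1 + 2 * (|Cs| * lam)) * ‖z - ν.Ψ ν.q‖ := mul_le_mul_of_nonneg_right h7 (norm_nonneg _)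
    _ ≤ (1 + 2 * (|Cs| * lam)) * (kn n * rs lam k) := mul_le_mul_of_nonneg_left h5 (by linarith)
    _ = (kn n + 2 * (|Cs| * lam * kn n)) * rs lam k := by ring
    _ ≤ (kn n + 1 / 2) * rs lam k := mul_le_mul_of_nonneg_right (by linarith) h6.le

/-- The points of the chain are in the ball, and all maps of the chain nearly agree there.
PROOF. Induction on `m`. `y = ν.inv z` with `Ts (k+1) ≤ -ρ z` (`lo` if `m = 0`): `dv_zz`, `dz`, `ν.Ψ y = z`, `‖y - ν.q‖ ≤ (1 + 2 Cs lam) kn rs k`. Otherwise `dv_next`, and by induction `‖ν'.Ψ y - z‖ ≤ C₁ rs (k+1) rs (k+2)`, `‖y - ν'.q‖ ≤ (kn + 1) rs (k+1)`; `Sy.est`: `‖ν'.Ψ y - ν.Ψ y‖ ≤ Cs (rs k ^ 3 + rs k (kn + 1) rs (k+1))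
≤ (C₁/2) rs k rs (k+1)` (`rs k ^ 3 ≤ rs k rs (k+1)`), `rs (k+1) rs (k+2) ≤ rs k rs (k+1) / 2`. `‖y - ν.q‖ ≤ (1 + 2 Cs lam) (‖ν.Ψ y - z‖ + ‖z - ν.Ψ ν.q‖)`. -/
theorem inch_facts (T : Tg n) (Cs : ℝ) : ∃ C : ℝ, 1 ≤ C ∧ ∀ᶠ lam in 𝓝[>] (0 : ℝ), ∀ (sh : ℕ → ℝ) (Sy : Sys T Cs lam sh) (m k : ℕ) (ν : Nd n) (z y : En n),
    Sy.Good k ν → DV T lam sh m k ν z → InCh T lam sh Sy.nx m k ν z y → ‖y‖ < 1 ∧ -T.ρ z ≤ 3 * (1 - ‖y‖) ∧ 1 - ‖y‖ ≤ -T.ρ z ∧
      ‖ν.Ψ y - z‖ ≤ C * (rs lam k * rs lam (k + 1)) ∧ ‖y - ν.q‖ ≤ (kn n + 1 / 2) * rs lam k := by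
  have hkn := D3_kn n
  have hCs := abs_nonneg Cs
  obtain ⟨C, hC⟩ : ∃ C : ℝ, C = 2 * (|Cs| * (kn n + 3 / 2)) + 1 := ⟨_, rfl⟩
  have hC0 : 0 ≤ |Cs| * (kn n + 3 / 2) := by positivity
  have hC1 : 1 ≤ C := by linarith
  have ha : 0 < 1 / (16 * ((|Cs| + 1) * kn n)) := by positivity
  have hb : 0 < 1 / (8 * C) := by positivity
  refine ⟨C, hC1, ?_⟩
  filter_upwards [D3_first T Cs, inv_ok T Cs, dv_next T Cs, ineqs 2, ev_lt ha, ev_lt hb] with lam hfirst hinv hnext hin hp2 hp3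
  obtain ⟨hl0, hl2, hk⟩ := hin
  have hl1 : lam ≤ 1 := by linarith
  have hκ : |Cs| * lam * kn n ≤ 1 / 16 := by
    have h1 := hp2.2
    rw [lt_div_iff₀ (by positivity)] at h1
    have h2 : 0 ≤ lam * kn n := by positivity
    nlinarith
  have hκ0 : 0 ≤ |Cs| * lam := by positivity
  have hκ1 : |Cs| * lam ≤ 1 / 16 := by nlinarith
  have hCl : C * lam ≤ 1 / 8 := by
    have h1 := hp3.2
    rw [lt_div_iff₀ (by positivity)] at h1
    linarith
  intro sh Sy m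
  have first : ∀ (m k : ℕ) (ν : Nd n) (z : En n), Sy.Good k ν → DV T lam sh m k ν z → Ts lam (k + 1) ≤ -T.ρ z →
      ‖ν.inv z‖ < 1 ∧ -T.ρ z ≤ 3 * (1 - ‖ν.inv z‖) ∧ 1 - ‖ν.inv z‖ ≤ -T.ρ z ∧
        ‖ν.Ψ (ν.inv z) - z‖ ≤ C * (rs lam k * rs lam (k + 1)) ∧ ‖ν.inv z - ν.q‖ ≤ (kn n + 1 / 2) * rs lam k := by
    intro m k ν z hG hD hT
    obtain ⟨h1, h2, h3, h4, h5⟩ := hfirst sh Sy m k ν z hG hD hT
    refine ⟨h1, h2, h3, ?_, h5⟩
    rw [h4, sub_self, norm_zero]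
    have := rs_pos hl0 k
    have := rs_pos hl0 (k + 1)
    positivity
  induction m with
  | zero =>
    intro k ν z y hG hD hy
    rw [InCh] at hy
    subst hy
    exact first 0 k ν z hG hD hD.lo
  | succ m ih =>
    intro k ν z y hG hD hy
    rw [InCh] at hy
    rcases hy with ⟨rfl, hT⟩ | ⟨hT, hy⟩
    · exact first (m + 1) k ν z hG hD hT.le
    · obtain ⟨hD', hG'⟩ := hnext sh Sy m k ν z hG hD hT
      obtain ⟨h1, h2, h3, h4, h5⟩ := ih (k + 1) _ z y hG' hD' hy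
      have hr := rs_pos hl0 k
      have hr1 := rs_pos hl0 (k + 1)
      have hr2 := rs_pos hl0 (k + 1 + 1)
      have hrl := rs_le hl0 hl1 k
      have hrl1 := rs_le hl0 hl1 (k + 1)
      have hhalf : 2 * rs lam (k + 1) ≤ rs lam k := (hk k).2.2.2.2.2.2.2.2.2
      have hhalf' : 2 * rs lam (k + 1 + 1) ≤ rs lam (k + 1) := (hk (k + 1)).2.2.2.2.2.2.2.2.2
      have hsq : rs lam k ^ 2 ≤ rs lam (k + 1) := by
        rw [rs_succ hl0, ← Real.rpow_natCast]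
        exact Real.rpow_le_rpow_of_exponent_ge hr (hrl.trans hl1) (by norm_num)
      have hcube : rs lam k ^ 3 ≤ rs lam k * rs lam (k + 1) := by
        have : rs lam k ^ 3 = rs lam k * rs lam k ^ 2 := by ring
        rw [this]
        exact mul_le_mul_of_nonneg_left hsq hr.le
      have h6 := Sy.est k ν (ck lam sh (k + 1) z) hG y (by linarith)
      set ν' := Sy.nx k ν (ck lam sh (k + 1) z) with hν'
      have h7 : Cs * (rs lam k ^ 3 + rs lam k * ‖y - ν'.q‖) ≤ |Cs| * (kn n + 3 / 2) * (rs lam k * rs lam (k + 1)) := by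
        have h8 : 0 ≤ rs lam k ^ 3 + rs lam k * ‖y - ν'.q‖ := by positivity
        have h9 : rs lam k ^ 3 + rs lam k * ‖y - ν'.q‖ ≤ (kn n + 3 / 2) * (rs lam k * rs lam (k + 1)) := by
          have h10 := mul_le_mul_of_nonneg_left h5 hr.le
          nlinarith
        calc Cs * (rs lam k ^ 3 + rs lam k * ‖y - ν'.q‖) ≤ |Cs| * (rs lam k ^ 3 + rs lam k * ‖y - ν'.q‖) :=
              mul_le_mul_of_nonneg_right (le_abs_self _) h8
          _ ≤ |Cs| * ((kn n + 3 / 2) * (rs lam k * rs lam (k + 1))) := mul_le_mul_of_nonneg_left h9 hCs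
          _ = _ := by ring
      have h11 : ‖ν.Ψ y - z‖ ≤ ‖ν'.Ψ y - ν.Ψ y‖ + ‖ν'.Ψ y - z‖ := by
        have : ν.Ψ y - z = -(ν'.Ψ y - ν.Ψ y) + (ν'.Ψ y - z) := by abel
        rw [this]
        refine (norm_add_le _ _).trans ?_
        rw [norm_neg]
      have h12 : ‖ν.Ψ y - z‖ ≤ C * (rs lam k * rs lam (k + 1)) := by
        have h13 : C * (rs lam (k + 1) * rs lam (k + 1 + 1)) ≤ C * (rs lam k * rs lam (k + 1)) / 2 := by
          have h14 : rs lam (k + 1) * rs lam (k + 1 + 1) ≤ rs lam k * rs lam (k + 1) / 2 := by nlinarith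
          have h15 := mul_le_mul_of_nonneg_left h14 (show 0 ≤ C by linarith)
          linarith
        have h16 : |Cs| * (kn n + 3 / 2) * (rs lam k * rs lam (k + 1)) ≤ C * (rs lam k * rs lam (k + 1)) / 2 := by
          have h17 : |Cs| * (kn n + 3 / 2) ≤ C / 2 := by linarith
          have h18 := mul_le_mul_of_nonneg_right h17 (mul_pos hr hr1).le
          linarith
        linarith
      refine ⟨h1, h2, h3, h12, ?_⟩
      obtain ⟨-, -, i3, -, -⟩ := hinv sh Sy k ν hG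
      have h20 := (i3 y ν.q (by linarith) (by rw [Sy.q1 k ν hG]; norm_num)).2
      have h21 : ‖ν.Ψ y - ν.Ψ ν.q‖ ≤ ‖ν.Ψ y - z‖ + ‖z - ν.Ψ ν.q‖ := by
        have : ν.Ψ y - ν.Ψ ν.q = (ν.Ψ y - z) + (z - ν.Ψ ν.q) := by abel
        rw [this]
        exact norm_add_le _ _
      have h22 := hD.cen
      have h23 : C * (rs lam k * rs lam (k + 1)) ≤ 1 / 8 * rs lam k := by
        have h24 : C * rs lam (k + 1) ≤ 1 / 8 := (mul_le_mul_of_nonneg_left hrl1 (by linarith)).trans hCl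
        have h25 := mul_le_mul_of_nonneg_right h24 hr.le
        linarith
      have h7 : 1 + 2 * Cs * lam ≤ 1 + 2 * (|Cs| * lam) := by
        have := mul_le_mul_of_nonneg_right (le_abs_self Cs) hl0.le
        linarith
      calc ‖y - ν.q‖ ≤ (1 + 2 * Cs * lam) * ‖ν.Ψ y - ν.Ψ ν.q‖ := h20
        _ ≤ (1 + 2 * (|Cs| * lam)) * ‖ν.Ψ y - ν.Ψ ν.q‖ := mul_le_mul_of_nonneg_right h7 (norm_nonneg _)
        _ ≤ (1 + 2 * (|Cs| * lam)) * (1 / 8 * rs lam k + kn n * rs lam k) := mul_le_mul_of_nonneg_left (by linarith) (by linarith)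
        _ = (kn n + 1 / 8 + 1 / 4 * (|Cs| * lam) + 2 * (|Cs| * lam * kn n)) * rs lam k := by ring
        _ ≤ (kn n + 1 / 2) * rs lam k := mul_le_mul_of_nonneg_right (by linarith) hr.le

/-- At the points of the chain the transplanted data agree with the data.
PROOF. Induction on `m`. (a) `y = ν.inv z`, `Ts (k+1) ≤ -ρ z`: `EV lam m k ν 0 y y`: `ge`: `1 - ‖y‖ ≤ rs k / 4`; `up`; `cen`: `‖rad y - ν.q‖ ≤ (1 - ‖y‖) + (kn + 1/2) rs k ≤ (kn + 3/4) rs k`; `near`: `‖y - rad y‖ = 1 - ‖y‖`. `fz_cl`: `θ = 1 - ‖y‖ ≥ -ρ z / 3 ≥ Ts (k+1) / 3`: error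
`C (3 ts (k+1) / Ts (k+1) + rs k ^ 0.3)`, `ts / Ts = rs (k+1) ^ (1/10) ≤ rs k ^ (1/10)`, and `f (ν.Ψ y) = f z`. (b) `-ρ z < 2 Ts (k+1)` and `y` in the chain of `ν'`: `‖ν.Ψ (rad y) - z‖ ≤ 2 (1 - ‖y‖) + ‖ν.Ψ y - z‖ ≤ 4 Ts (k+1) + C rs k rs (k+1) ≤ es rs (k+1)` (`ineqs`): `dch`, last part: `Fz (m+1) k ν 0 y y =
Fz m (k+1) ν' 0 y y` (`cw = 1`, `sw = 0`, `nn = ν'`); induction, `rs (k+1) ^ (1/10) ≤ rs k ^ (1/10)`. -/
theorem inch_fz (T : Tg n) (Cs : ℝ) (N : ℕ) : ∃ C : ℝ, 1 ≤ C ∧ ∀ s > 0, ∀ᶠ lam in 𝓝[>] (0 : ℝ), ∀ (sh : ℕ → ℝ) (Sy : Sys T Cs lam sh) (f : En n → En N) (m k : ℕ) (ν : Nd n) (z y : En n),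
    Dat T s f → Sy.Good k ν → DV T lam sh m k ν z → InCh T lam sh Sy.nx m k ν z y →
    ‖Fz lam sh Sy.nx f m k ν 0 y y - f z‖ ≤ C * rs lam k ^ (1 / 10 : ℝ) := by
  have hkn := D3_kn n
  obtain ⟨C1, hC1, h1⟩ := inch_facts T Cs
  obtain ⟨C2, hC2, h2⟩ := fz_cl T Cs N
  refine ⟨4 * C2, by linarith, fun s hs => ?_⟩
  filter_upwards [h1, h2 s hs, D3_first T Cs, inv_ok T Cs, dch T Cs, dv_next T Cs, ineqs 8, ineqs (2 * C1), ineqs Cs] with lam hfacts hcl hfirst hinv hdch hnext hin hin' hin3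
  obtain ⟨hl0, hl2, hk⟩ := hin
  have hk' := hin'.2.2
  have hCs1 : Cs * lam ≤ 1 := hin3.2.1
  have hl1 : lam ≤ 1 := by linarith
  intro sh Sy f m
  have hrad : ∀ y : En n, 1 / 2 ≤ ‖y‖ → ‖y‖ < 1 → ‖y - rad y‖ = 1 - ‖y‖ ∧ ‖rad y‖ = 1 := by
    intro y hy hy1
    have hy0 : ‖y‖ ≠ 0 := by linarith
    have e1 : ‖rad y‖ = 1 := by
      unfold rad
      rw [norm_smul, norm_inv, norm_norm, inv_mul_cancel₀ hy0]
    refine ⟨?_, e1⟩
    have e2 : y - rad y = (1 - ‖y‖⁻¹ : ℝ) • y := by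
      unfold rad
      rw [sub_smul, one_smul]
    have e3 : 1 - ‖y‖⁻¹ ≤ 0 := by
      have : 1 ≤ ‖y‖⁻¹ := (one_le_inv₀ (by linarith)).2 hy1.le
      linarith
    rw [e2, norm_smul, Real.norm_eq_abs, abs_of_nonpos e3]
    field_simp
    ring
  -- the first case
  have first : ∀ (m k : ℕ) (ν : Nd n) (z : En n), Dat T s f → Sy.Good k ν → DV T lam sh m k ν z → Ts lam (k + 1) ≤ -T.ρ z →
      ‖Fz lam sh Sy.nx f m k ν 0 (ν.inv z) (ν.inv z) - f z‖ ≤ 4 * C2 * rs lam k ^ (1 / 10 : ℝ) := by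
    intro m k ν z hf hG hD hT
    obtain ⟨b1, b2, b3, b4, b5⟩ := hfirst sh Sy m k ν z hG hD hT
    set y := ν.inv z with hy
    have hr := rs_pos hl0 k
    have hrl := rs_le hl0 hl1 k
    have hup := hD.up
    have ht := ts_pos hl0 (k + 1)
    have htl : 8 * ts lam (k + 1) ≤ lam := (hk k).2.2.2.2.2.2.2.2.1
    have htT : 8 * ts lam (k + 1) ≤ Ts lam (k + 1) := (hk k).2.1
    have hTp := Ts_pos hl0 (k + 1)
    have hge : 1 / 2 ≤ ‖y‖ := by linarith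
    obtain ⟨r1, r2⟩ := hrad y hge b1
    have hE : EV lam m k ν 0 y y := by
      refine ⟨b1, hge, le_refl _, ?_, ?_, ?_, ?_⟩
      · linarith
      · have h3 : rad y - ν.q = -(y - rad y) + (y - ν.q) := by abel
        have h4 : ‖rad y - ν.q‖ ≤ ‖y - rad y‖ + ‖y - ν.q‖ := by
          rw [h3]
          refine (norm_add_le _ _).trans ?_
          rw [norm_neg]
        nlinarith
      · rw [r1]
        have := rs_pos hl0 (k + m)
        linarith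
      · intro h0
        rw [h0, norm_zero] at hge
        linarith
    have hc := hcl sh Sy f m k ν 0 y y hf hG hE (by linarith)
    rw [sub_zero, one_smul, one_mul, b4] at hc
    refine hc.trans ?_
    have hy0 : 0 < 1 - ‖y‖ := by linarith
    have e1 : ts lam (k + 1) / (1 - ‖y‖) ≤ 3 * rs lam k ^ (1 / 10 : ℝ) := by
      rw [div_le_iff₀ hy0]
      have e2 : ts lam (k + 1) = rs lam (k + 1) ^ (1 / 10 : ℝ) * Ts lam (k + 1) := by
        unfold ts Ts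
        rw [← Real.rpow_add (rs_pos hl0 _)]
        norm_num
      have e3 : rs lam (k + 1) ^ (1 / 10 : ℝ) ≤ rs lam k ^ (1 / 10 : ℝ) :=
        Real.rpow_le_rpow (rs_pos hl0 _).le (rs_anti hl0 hl1 (Nat.le_succ k)) (by norm_num)
      have e4 : 0 ≤ rs lam (k + 1) ^ (1 / 10 : ℝ) := Real.rpow_nonneg (rs_pos hl0 _).le _
      rw [e2]
      have e5 : Ts lam (k + 1) ≤ 3 * (1 - ‖y‖) := by linarith
      calc rs lam (k + 1) ^ (1 / 10 : ℝ) * Ts lam (k + 1) ≤ rs lam k ^ (1 / 10 : ℝ) * (3 * (1 - ‖y‖)) :=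
            mul_le_mul e3 e5 hTp.le (e4.trans e3)
        _ = _ := by ring
    have e6 : rs lam k ^ (3 / 10 : ℝ) ≤ rs lam k ^ (1 / 10 : ℝ) :=
      Real.rpow_le_rpow_of_exponent_ge hr (hrl.trans hl1) (by norm_num)
    have e7 := mul_le_mul_of_nonneg_left (add_le_add e1 e6) (show 0 ≤ C2 by linarith)
    linarith
  induction m with
  | zero =>
    intro k ν z y hf hG hD hy
    rw [InCh] at hy
    subst hy
    exact first 0 k ν z hf hG hD hD.lo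
  | succ m ih =>
    intro k ν z y hf hG hD hy
    have hy' := hy
    rw [InCh] at hy
    rcases hy with ⟨rfl, hT⟩ | ⟨hT, hy⟩
    · exact first (m + 1) k ν z hf hG hD hT.le
    · obtain ⟨hD', hG'⟩ := hnext sh Sy m k ν z hG hD hT
      obtain ⟨b1, b2, b3, b4, b5⟩ := hfacts sh Sy (m + 1) k ν z y hG hD hy'
      have hr := rs_pos hl0 k
      have hrl := rs_le hl0 hl1 k
      have hup := hD.up
      have hge : 1 / 2 ≤ ‖y‖ := by linarith
      obtain ⟨r1, r2⟩ := hrad y hge b1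
      have hw := hD.leg (k + 1) (Nat.lt_succ_self k) (by omega) hT
      obtain ⟨-, -, hlast⟩ := hdch sh Sy k ν z hG hD.lt hT hw hD.cen
      have hT8 : 8 * Ts lam (k + 1) ≤ es lam (k + 1) * rs lam (k + 1) := (hk k).2.2.1
      have hrr : 2 * C1 * (rs lam k * rs lam (k + 1)) ≤ es lam (k + 1) * rs lam (k + 1) := (hk' k).2.2.2.1
      obtain ⟨-, -, i3, -, -⟩ := hinv sh Sy k ν hG
      have g1 := (i3 (rad y) y (by rw [r2]; norm_num) (by linarith)).1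
      rw [norm_sub_rev (rad y) y, r1] at g1
      have g2 : (1 + Cs * lam) * (1 - ‖y‖) ≤ 2 * (1 - ‖y‖) := mul_le_mul_of_nonneg_right (by linarith) (by linarith)
      have g3 : ‖ν.Ψ (rad y) - z‖ ≤ es lam (k + 1) * rs lam (k + 1) := by
        have g4 : ν.Ψ (rad y) - z = (ν.Ψ (rad y) - ν.Ψ y) + (ν.Ψ y - z) := by abel
        have g5 : ‖ν.Ψ (rad y) - z‖ ≤ ‖ν.Ψ (rad y) - ν.Ψ y‖ + ‖ν.Ψ y - z‖ := by
          rw [g4]
          exact norm_add_le _ _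
        linarith
      obtain ⟨c1, c2, c3⟩ := hlast y g3
      have g6 : Fz lam sh Sy.nx f (m + 1) k ν 0 y y = Fz lam sh Sy.nx f m (k + 1) (Sy.nx k ν (ck lam sh (k + 1) z)) 0 y y := by
        rw [Fz, c1, c2, c3, sub_self, zero_smul, zero_add, one_smul, add_zero]
      rw [g6]
      refine (ih (k + 1) _ z y hf hG' hD' hy).trans ?_
      exact mul_le_mul_of_nonneg_left (Real.rpow_le_rpow (rs_pos hl0 _).le (rs_anti hl0 hl1 (Nat.le_succ k)) (by norm_num)) (by linarith)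

/-- Convexity. PROOF. Induction on `m`: `∑ (f z) j * ((1 - Y) a + Y b) j - 1 = (1 - Y)(∑ (f z) j a j - 1) + Y (∑ (f z) j b j - 1)`; the part `a = H (ν.inv z)` has the weight `0` unless `-ρ z > Ts (k+1)`, the part `b` unless `-ρ z < 2 Ts (k+1)`. -/
theorem inch_conv (T : Tg n) {lam : ℝ} (hl : 0 < lam) (sh : ℕ → ℝ) (nx : ℕ → Nd n → (Fin n → ℤ × ℤ) → Nd n) (H : En n → En N) (m k : ℕ) (ν : Nd n) (z : En n) (a : En N) {ε : ℝ}
    (h : ∀ y, InCh T lam sh nx m k ν z y → ‖∑ j, a j * H y j - 1‖ ≤ ε) :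
    ‖∑ j, a j * Hz T lam sh nx H m k ν z j - 1‖ ≤ ε := by
  induction m generalizing k ν with
  | zero =>
    rw [Hz]
    exact h _ (by rw [InCh])
  | succ m ih =>
    obtain ⟨⟨y0, y1⟩, -, y2, y3, -⟩ := yv_facts T hl (k + 1) z z
    set Y := Yc T lam (k + 1) z with hY
    have hA : Y < 1 → ‖∑ j, a j * H (ν.inv z) j - 1‖ ≤ ε := by
      intro h1
      refine h _ ?_
      rw [InCh]
      refine Or.inl ⟨rfl, ?_⟩
      by_contra h2
      have := y3 (not_lt.1 h2)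
      linarith
    have hB : 0 < Y → ‖∑ j, a j * Hz T lam sh nx H m (k + 1) (nx k ν (ck lam sh (k + 1) z)) z j - 1‖ ≤ ε := by
      intro h1
      refine ih (k + 1) _ fun y hy => h y ?_
      rw [InCh]
      refine Or.inr ⟨?_, hy⟩
      by_contra h2
      have := y2 (not_lt.1 h2)
      linarith
    rw [Hz, ← hY]
    set A := H (ν.inv z) with hAA
    set B := Hz T lam sh nx H m (k + 1) (nx k ν (ck lam sh (k + 1) z)) z with hBB
    have e1 : ∑ j, a j * ((1 - Y) • A + Y • B) j - 1 = ((1 - Y : ℝ) : ℂ) * (∑ j, a j * A j - 1) + (Y : ℂ) * (∑ j, a j * B j - 1) := by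
      have e2 : ∀ j, a j * ((1 - Y) • A + Y • B) j = ((1 - Y : ℝ) : ℂ) * (a j * A j) + (Y : ℂ) * (a j * B j) := by
        intro j
        rw [PiLp.add_apply, PiLp.smul_apply, PiLp.smul_apply, Complex.real_smul, Complex.real_smul]
        ring
      rw [Finset.sum_congr rfl fun j _ => e2 j, Finset.sum_add_distrib, ← Finset.mul_sum, ← Finset.mul_sum]
      push_cast
      ring
    rw [e1]
    rcases eq_or_lt_of_le y0 with h0 | h0
    · have := hA (by linarith)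
      rw [← h0]
      simpa using this
    rcases eq_or_lt_of_le y1 with h1 | h1
    · have := hB h0
      rw [h1]
      simpa using this
    refine (norm_add_le _ _).trans ?_
    rw [norm_mul, norm_mul, Complex.norm_real, Complex.norm_real, Real.norm_of_nonneg y0, Real.norm_of_nonneg (by linarith)]
    have e3 := mul_le_mul_of_nonneg_left (hA h1) (show 0 ≤ 1 - Y by linarith)
    have e4 := mul_le_mul_of_nonneg_left (hB h0) y0
    linarith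

/-- The transplanted solution.
PROOF. `inch_conv` with `a = f z`. For `y` in the chain: `inch_facts` at the root (`Ψ = id`): `‖y - z‖ ≤ C lam lam ^ (6/5)`, so `‖zt e y‖ ≤ ‖y - e‖ ≤ 2 lam ^ (5/2) + C lam ^ (11/5) ≤ lam² / 4`: `FB y y = Fz K 0 root 0 y y` (`c0_facts`: `c0 = 1`, `s0 = 0`). `∑ f z j * H y j - 1 = ∑ (f z - FB y y) j * H y j + (∑ FB y y j * H y j - 1)`:
`≤ C lam ^ (1/10) A + ε` (`inch_fz`, `rs_zero`; Cauchy-Schwarz). -/
theorem hz_sol (T : Tg n) (Cs : ℝ) (N : ℕ) : ∃ C : ℝ, 1 ≤ C ∧ ∀ s > 0, ∀ᶠ lam in 𝓝[>] (0 : ℝ), ∀ (sh : ℕ → ℝ) (Sy : Sys T Cs lam sh) (f H : En n → En N) (A ε : ℝ) (K : ℕ) (z : En n),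
    Dat T s f → 0 ≤ A → (∀ w ∈ ball (0 : En n) 1, ‖H w‖ ≤ A) → (∀ w ∈ ball (0 : En n) 1, ‖∑ j, FB T lam sh Sy.nx f K w w j * H w j - 1‖ ≤ ε) →
    DV T lam sh K 0 (root T.e) z → ‖z - T.e‖ ≤ 2 * lam ^ (5 / 2 : ℝ) →
    ‖∑ j, f z j * Hz T lam sh Sy.nx H K 0 (root T.e) z j - 1‖ ≤ C * A * lam ^ (1 / 10 : ℝ) + ε := by
  obtain ⟨C1, hC1, h1⟩ := inch_facts T Cs
  obtain ⟨C2, hC2, h2⟩ := inch_fz T Cs N
  refine ⟨C2, hC2, fun s hs => ?_⟩
  filter_upwards [h1, h2 s hs, ev_lt one_pos, small' 16 (show (2 : ℝ) < 5 / 2 by norm_num), small' (8 * C1) (show (2 : ℝ) < 11 / 5 by norm_num)] with lam hfacts hfz hp hs1 hs2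
  have hl0 := hp.1
  have hl1 : lam ≤ 1 := hp.2.le
  intro sh Sy f H A ε K z hf hA hH hsol hD hz
  have hG : Sy.Good 0 (root T.e) := Sy.good0
  refine inch_conv T hl0 sh Sy.nx H K 0 (root T.e) z (f z) fun y hy => ?_
  obtain ⟨b1, b2, b3, b4, b5⟩ := hfacts sh Sy K 0 (root T.e) z y hG hD hy
  have hyb : y ∈ ball (0 : En n) 1 := by rw [mem_ball_zero_iff]; exact b1
  have b6 : ‖y - z‖ ≤ C1 * lam ^ (11 / 5 : ℝ) := by
    have e1 : rs lam 0 * rs lam (0 + 1) = lam ^ (11 / 5 : ℝ) := by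
      rw [rs_succ hl0, rs_zero]
      nth_rewrite 1 [← Real.rpow_one lam]
      rw [← Real.rpow_add hl0]
      norm_num
    rw [e1] at b4
    exact b4
  have q1 := hs1 lam hl0 le_rfl
  have q2 := hs2 lam hl0 le_rfl
  have q3 : lam ^ (2 : ℝ) = lam ^ 2 := by norm_cast
  rw [q3] at q1 q2
  have b7 : ‖y - T.e‖ ≤ lam ^ 2 / 4 := by
    have e1 : y - T.e = (y - z) + (z - T.e) := by abel
    have e2 : ‖y - T.e‖ ≤ ‖y - z‖ + ‖z - T.e‖ := by
      rw [e1]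
      exact norm_add_le _ _
    linarith
  have b8 : ‖zt T.e y‖ ≤ lam ^ 2 / 4 := by
    have e1 : zt T.e y = inner ℂ T.e (T.e - y) := by
      unfold zt
      rw [inner_sub_right, inner_self_eq_norm_sq_to_K, T.he]
      norm_num
    rw [e1]
    refine (norm_inner_le_norm _ _).trans ?_
    rw [T.he, one_mul, norm_sub_rev]
    exact b7
  obtain ⟨-, -, -, -, -, -, c1, -, -⟩ := c0_facts hl0 T.e y y
  obtain ⟨c2, c3⟩ := c1 b8
  have hFB : FB T lam sh Sy.nx f K y y = Fz lam sh Sy.nx f K 0 (root T.e) 0 y y := by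
    unfold FB
    rw [c2, c3]
    norm_num
  have h3 := hfz sh Sy f K 0 (root T.e) z y hf hG hD hy
  rw [rs_zero, ← hFB] at h3
  have h4 := hsol y hyb
  have h5 := hH y hyb
  set F := FB T lam sh Sy.nx f K y y with hF
  have e1 : ∑ j, f z j * H y j - 1 = ∑ j, (f z - F) j * H y j + (∑ j, F j * H y j - 1) := by
    have : ∀ j, (f z - F) j * H y j = f z j * H y j - F j * H y j := by
      intro j
      rw [PiLp.sub_apply]
      ring
    rw [Finset.sum_congr rfl fun j _ => this j, Finset.sum_sub_distrib]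
    ring
  have e2 : ‖∑ j, (f z - F) j * H y j‖ ≤ ‖f z - F‖ * ‖H y‖ := by
    refine (norm_sum_le _ _).trans ?_
    simp_rw [norm_mul]
    refine (Real.sum_mul_le_sqrt_mul_sqrt Finset.univ (fun j => ‖(f z - F) j‖) (fun j => ‖H y j‖)).trans (le_of_eq ?_)
    rw [EuclideanSpace.norm_eq, EuclideanSpace.norm_eq]
  rw [e1]
  refine (norm_add_le _ _).trans (add_le_add (e2.trans ?_) h4)
  rw [norm_sub_rev] at h3
  calc ‖f z - F‖ * ‖H y‖ ≤ (C2 * lam ^ (1 / 10 : ℝ)) * A := mul_le_mul h3 h5 (norm_nonneg _) ((norm_nonneg _).trans h3)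
    _ = _ := by ring

end Pool.Agent.MPca0fc2.EQ
end

section

/-! Campaign EQ, task D5: the averaged solution: bound, equation, variation. -/

set_option autoImplicit false

open Metric Set Filter Topology

namespace Pool.Agent.MPca0fc2.EQ

open Pool.Agent.MPca0fc2.TB (En)

variable {n N : ℕ}

private theorem D5_rho_le (T : Tg n) {z : En n} (h : T.C * ‖z - T.e‖ ≤ 1) : |T.ρ z| ≤ 3 * ‖z - T.e‖ := by
  have h0 : T.ρ T.e = 0 := by
    have h1 := T.osc T.e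
    rw [sub_self, norm_zero, T.he] at h1
    norm_num at h1
    exact h1
  have h1 := taylor_one T T.e (z - T.e)
  rw [add_sub_cancel, h0, sub_zero] at h1
  have h2 := fd_le T T.e
  rw [sub_self, norm_zero, mul_zero, add_zero] at h2
  have h3 := (fderiv ℝ T.ρ T.e).le_opNorm (z - T.e)
  have h4 : ‖fderiv ℝ T.ρ T.e‖ * ‖z - T.e‖ ≤ 2 * ‖z - T.e‖ := mul_le_mul_of_nonneg_right h2 (norm_nonneg _)
  have h5 : T.C * ‖z - T.e‖ ^ 2 ≤ 1 * ‖z - T.e‖ := by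
    rw [sq, ← mul_assoc]
    exact mul_le_mul_of_nonneg_right h (norm_nonneg _)
  have h6 : |T.ρ z| ≤ |T.ρ z - (fderiv ℝ T.ρ T.e) (z - T.e)| + |(fderiv ℝ T.ρ T.e) (z - T.e)| := by
    have := abs_add_le (T.ρ z - (fderiv ℝ T.ρ T.e) (z - T.e)) ((fderiv ℝ T.ρ T.e) (z - T.e))
    rwa [sub_add_cancel] at this
  rw [Real.norm_eq_abs] at h3
  linarith

private theorem D5_rho_sub (T : Tg n) {z z' : En n} {d : ℝ} (hd : 3 * T.C * d ≤ 1) (hz : ‖z - T.e‖ ≤ d) (hz' : ‖z' - T.e‖ ≤ d) :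
    |T.ρ z - T.ρ z'| ≤ 3 * ‖z - z'‖ := by
  have hC := T.one_le
  have h1 := taylor_one T z (z' - z)
  rw [add_sub_cancel] at h1
  have h2 := fd_le T z
  have h3 := (fderiv ℝ T.ρ z).le_opNorm (z' - z)
  have h7 : ‖z' - z‖ = ‖z - z'‖ := norm_sub_rev _ _
  rw [h7] at h1 h3
  have h8 : ‖z - z'‖ ≤ 2 * d := by
    calc ‖z - z'‖ = ‖(z - T.e) - (z' - T.e)‖ := by congr 1; abel
      _ ≤ ‖z - T.e‖ + ‖z' - T.e‖ := norm_sub_le _ _
      _ ≤ 2 * d := by linarith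
  have h9 : T.C * ‖z - T.e‖ ≤ T.C * d := mul_le_mul_of_nonneg_left hz (by linarith)
  have h4 : ‖fderiv ℝ T.ρ z‖ * ‖z - z'‖ ≤ (2 + T.C * d) * ‖z - z'‖ := mul_le_mul_of_nonneg_right (by linarith) (norm_nonneg _)
  have h5 : T.C * ‖z - z'‖ ^ 2 ≤ (T.C * (2 * d)) * ‖z - z'‖ := by
    rw [sq, ← mul_assoc]
    exact mul_le_mul_of_nonneg_right (mul_le_mul_of_nonneg_left h8 (by linarith)) (norm_nonneg _)
  have h6 : |T.ρ z - T.ρ z'| ≤ |T.ρ z' - T.ρ z - (fderiv ℝ T.ρ z) (z' - z)| + |(fderiv ℝ T.ρ z) (z' - z)| := by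
    rw [abs_sub_comm (T.ρ z)]
    have := abs_add_le (T.ρ z' - T.ρ z - (fderiv ℝ T.ρ z) (z' - z)) ((fderiv ℝ T.ρ z) (z' - z))
    rwa [sub_add_cancel] at this
  rw [Real.norm_eq_abs] at h3
  have h10 : (3 * T.C * d) * ‖z - z'‖ ≤ 1 * ‖z - z'‖ := mul_le_mul_of_nonneg_right hd (norm_nonneg _)
  nlinarith

/-- PROOF. `up`: `-ρ z ≤ 3 ‖z - e‖ ≤ 3 lam²` (`ρ e = 0` by `osc`, `taylor_one`, `fd_le`), `4 * 3 lam² ≤ lam = rs 0`. `cen`: `root.Ψ = id`, `lam² ≤ kn lam`. `leg`: `Wt_facts`. -/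
theorem ne_dv (T : Tg n) : ∀ᶠ lam in 𝓝[>] (0 : ℝ), ∀ (L K : ℕ) (ω : Fin K → Fin L) (z : En n), 1 ≤ L → 1 ≤ L * es lam K → NE T lam K z → Wt T lam L K ω z ≠ 0 →
    DV T lam (shO L K ω) K 0 (root T.e) z := by
  filter_upwards [Wt_facts T, ev_lt (a := min (1 / 12) (1 / (T.C + 1))) (lt_min (by norm_num) (by have := T.one_le; positivity))] with lam hW hlam L K ω z hL hLe hz hne
  obtain ⟨h0, h1⟩ := hlam
  have hC := T.one_le
  have h2 : lam < 1 / 12 := lt_of_lt_of_le h1 (min_le_left _ _)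
  have h3 : lam < 1 / (T.C + 1) := lt_of_lt_of_le h1 (min_le_right _ _)
  have h4 : T.C * lam ≤ 1 := by
    rw [lt_div_iff₀ (by linarith)] at h3
    nlinarith
  have h5 : lam ^ 2 ≤ lam := by nlinarith
  have h6 : T.C * ‖z - T.e‖ ≤ 1 := by
    have : T.C * ‖z - T.e‖ ≤ T.C * lam := mul_le_mul_of_nonneg_left (hz.near.trans h5) (by linarith)
    linarith
  have h7 := D5_rho_le T h6
  have h8 := neg_abs_le (T.ρ z)
  have h9 := hz.near
  have hk : (1 : ℝ) ≤ kn n := by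
    unfold kn
    have : (0 : ℝ) ≤ n := by positivity
    linarith
  refine ⟨hz.lt, ?_, ?_, ?_, (hW L K hL hLe).2.2.1 ω z hne⟩
  · rw [rs_zero]
    nlinarith
  · rw [zero_add]
    exact hz.lo
  · rw [rs_zero]
    have h10 : (root T.e).Ψ (root T.e).q = T.e := rfl
    rw [h10]
    nlinarith

/-- PROOF. `∑ Wt = 1`, `hz_bd` where `Wt ≠ 0`. -/
theorem hs_bd (T : Tg n) (Cs : ℝ) (N : ℕ) : ∀ᶠ lam in 𝓝[>] (0 : ℝ), ∀ (A : ℝ) (L K : ℕ) (Φ : Fam T Cs lam A L K N) (z : En n), NE T lam K z → ‖hs T Φ z‖ ≤ A := by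
  filter_upwards [Wt_facts T, ne_dv T, hz_bd T Cs N] with lam hW hdv hbd A L K Φ z hz
  obtain ⟨w0, w1, -, -⟩ := hW L K Φ.L1 Φ.Le
  unfold hs
  calc ‖∑ ω, Wt T lam L K ω z • Hz T lam (shO L K ω) (Φ.Sy ω).nx (Φ.H ω) K 0 (root T.e) z‖
      ≤ ∑ ω, ‖Wt T lam L K ω z • Hz T lam (shO L K ω) (Φ.Sy ω).nx (Φ.H ω) K 0 (root T.e) z‖ := norm_sum_le _ _
    _ ≤ ∑ ω, Wt T lam L K ω z * A := by
        refine Finset.sum_le_sum fun ω _ => ?_
        rw [norm_smul, Real.norm_of_nonneg (w0 ω z)]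
        by_cases h : Wt T lam L K ω z = 0
        · rw [h, zero_mul, zero_mul]
        · exact mul_le_mul_of_nonneg_left (hbd (shO L K ω) (Φ.Sy ω) (Φ.H ω) A K 0 (root T.e) z (Φ.bd ω) (Φ.Sy ω).good0
            (hdv L K ω z Φ.L1 Φ.Le hz h)) (w0 ω z)
    _ = A := by rw [← Finset.sum_mul, w1 z, one_mul]

/-- PROOF. `∑_j f z j (hs z) j - 1 = ∑_ω Wt ω (∑_j f z j (Hz ω z) j - 1)`; `hz_sol` where `Wt ≠ 0`. -/
theorem hs_sol (T : Tg n) (Cs : ℝ) (N : ℕ) : ∃ C : ℝ, 1 ≤ C ∧ ∀ s > 0, ∀ᶠ lam in 𝓝[>] (0 : ℝ), ∀ (A ε : ℝ) (L K : ℕ) (Φ : Fam T Cs lam A L K N) (f : En n → En N) (z : En n),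
    Dat T s f → 0 ≤ A → (∀ ω, ∀ w ∈ ball (0 : En n) 1, ‖∑ j, FB T lam (shO L K ω) (Φ.Sy ω).nx f K w w j * Φ.H ω w j - 1‖ ≤ ε) →
    NE T lam K z → ‖z - T.e‖ ≤ 2 * lam ^ (5 / 2 : ℝ) → ‖∑ j, f z j * hs T Φ z j - 1‖ ≤ C * A * lam ^ (1 / 10 : ℝ) + ε := by
  obtain ⟨C, hC1, hC⟩ := hz_sol T Cs N
  refine ⟨C, hC1, fun s hs0 => ?_⟩
  filter_upwards [Wt_facts T, ne_dv T, hC s hs0] with lam hW hdv hsol A ε L K Φ f z hf hA hε hz hn
  obtain ⟨w0, w1, -, -⟩ := hW L K Φ.L1 Φ.Le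
  have key : ∑ j, f z j * hs T Φ z j - 1 =
      ∑ ω, Wt T lam L K ω z • (∑ j, f z j * Hz T lam (shO L K ω) (Φ.Sy ω).nx (Φ.H ω) K 0 (root T.e) z j - 1) := by
    have h1 : ∀ j, hs T Φ z j = ∑ ω, Wt T lam L K ω z • (Hz T lam (shO L K ω) (Φ.Sy ω).nx (Φ.H ω) K 0 (root T.e) z j) := by
      intro j
      unfold hs
      simp
    simp only [h1, smul_sub, Finset.sum_sub_distrib]
    rw [← Finset.sum_smul, w1 z, one_smul]
    congr 1
    simp only [Finset.mul_sum, Finset.smul_sum]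
    rw [Finset.sum_comm]
    refine Finset.sum_congr rfl fun ω _ => Finset.sum_congr rfl fun j _ => ?_
    rw [mul_smul_comm]
  rw [key]
  calc ‖∑ ω, Wt T lam L K ω z • (∑ j, f z j * Hz T lam (shO L K ω) (Φ.Sy ω).nx (Φ.H ω) K 0 (root T.e) z j - 1)‖
      ≤ ∑ ω, ‖Wt T lam L K ω z • (∑ j, f z j * Hz T lam (shO L K ω) (Φ.Sy ω).nx (Φ.H ω) K 0 (root T.e) z j - 1)‖ :=
        norm_sum_le _ _
    _ ≤ ∑ ω, Wt T lam L K ω z * (C * A * lam ^ (1 / 10 : ℝ) + ε) := by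
        refine Finset.sum_le_sum fun ω _ => ?_
        rw [norm_smul, Real.norm_of_nonneg (w0 ω z)]
        by_cases h : Wt T lam L K ω z = 0
        · rw [h, zero_mul, zero_mul]
        · exact mul_le_mul_of_nonneg_left (hsol (shO L K ω) (Φ.Sy ω) f (Φ.H ω) A ε K z hf hA (Φ.bd ω) (hε ω)
            (hdv L K ω z Φ.L1 Φ.Le hz h) hn) (w0 ω z)
    _ = C * A * lam ^ (1 / 10 : ℝ) + ε := by rw [← Finset.sum_mul, w1 z, one_mul]

/-- The variation of a weighted sum.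
PROOF. For each `ω`: `W a - W' a'` is `W (a - a') + (W - W') a'` if `W, W' ≠ 0`; `W a`, `|W| = |W - W'|` if `W' = 0`, etc. -/
theorem sum_var {ι : Type*} [Fintype ι] {E : Type*} [NormedAddCommGroup E] [NormedSpace ℝ E] {W W' : ι → ℝ} {a a' : ι → E} {A B : ℝ} (hA : 0 ≤ A) (hB : 0 ≤ B) (hW : ∀ i, 0 ≤ W i)
    (hW' : ∀ i, 0 ≤ W' i) (h1 : ∑ i, W i = 1) (ha : ∀ i, W i ≠ 0 → ‖a i‖ ≤ A) (ha' : ∀ i, W' i ≠ 0 → ‖a' i‖ ≤ A)
    (h : ∀ i, W i ≠ 0 → W' i ≠ 0 → ‖a i - a' i‖ ≤ B) : ‖∑ i, W i • a i - ∑ i, W' i • a' i‖ ≤ A * ∑ i, |W i - W' i| + B := by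
  rw [← Finset.sum_sub_distrib]
  calc ‖∑ i, (W i • a i - W' i • a' i)‖ ≤ ∑ i, ‖W i • a i - W' i • a' i‖ := norm_sum_le _ _
    _ ≤ ∑ i, (A * |W i - W' i| + W i * B) := by
        refine Finset.sum_le_sum fun i _ => ?_
        have hAd : 0 ≤ A * |W i - W' i| := by positivity
        have hWB : 0 ≤ W i * B := mul_nonneg (hW i) hB
        by_cases h0 : W i = 0
        · by_cases h0' : W' i = 0
          · rw [h0, h0']
            simp
          · have h2 := ha' i h0'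
            rw [h0, zero_smul, zero_sub, norm_neg, norm_smul, Real.norm_of_nonneg (hW' i), zero_mul, add_zero, zero_sub,
              abs_neg, abs_of_nonneg (hW' i), mul_comm A]
            exact mul_le_mul_of_nonneg_left h2 (hW' i)
        · by_cases h0' : W' i = 0
          · have h2 := ha i h0
            have h3 : W i * ‖a i‖ ≤ W i * A := mul_le_mul_of_nonneg_left h2 (hW i)
            rw [h0', zero_smul, sub_zero, norm_smul, Real.norm_of_nonneg (hW i), sub_zero, abs_of_nonneg (hW i)]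
            linarith
          · have h2 : W i • a i - W' i • a' i = W i • (a i - a' i) + (W i - W' i) • a' i := by
              rw [smul_sub, sub_smul]; abel
            rw [h2]
            have h3 : W i * ‖a i - a' i‖ ≤ W i * B := mul_le_mul_of_nonneg_left (h i h0 h0') (hW i)
            have h4 : |W i - W' i| * ‖a' i‖ ≤ |W i - W' i| * A := mul_le_mul_of_nonneg_left (ha' i h0') (abs_nonneg _)
            calc ‖W i • (a i - a' i) + (W i - W' i) • a' i‖ ≤ ‖W i • (a i - a' i)‖ + ‖(W i - W' i) • a' i‖ := norm_add_le _ _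
              _ = W i * ‖a i - a' i‖ + |W i - W' i| * ‖a' i‖ := by
                  rw [norm_smul, norm_smul, Real.norm_of_nonneg (hW i), Real.norm_eq_abs]
              _ ≤ A * |W i - W' i| + W i * B := by linarith
    _ = A * ∑ i, |W i - W' i| + B := by
        rw [Finset.sum_add_distrib, ← Finset.mul_sum, ← Finset.sum_mul, h1, one_mul]

/-- The variation of the averaged solution.
PROOF. `D = -ρ z`, `Δ = ‖z - z'‖`. `sum_var` with `a = Hz`, `hz_bd`, `hz_lip` (`B = C A Δ/D`). The variation of the weights (`Wt_facts`): `|Vc z - Vc z'| ≤ 3 Δ / (2 Ts l)` and `= 0` unless `D ≤ 5 Ts l` (if `D > 5 Ts l` both heights are `≥ 4 Ts l`); `Vc z ≠ 0` only if `D < 4 Ts l`. So the sum is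
`≤ ∑_l (if D ≤ 5 Ts l then (44 n es l * 3 + 4 Ts l / (es l rs l)) Δ / Ts l) ≤ C Δ ∑ (if D/2 ≤ 4 Ts l then 1/Ts l) ≤ 16 C Δ / D` (`ts_sum`; `es l ≤ 1`, `Ts l ≤ es l rs l`). -/
theorem hs_lip (T : Tg n) (Cs : ℝ) (N : ℕ) : ∃ C : ℝ, 1 ≤ C ∧ ∀ᶠ lam in 𝓝[>] (0 : ℝ), ∀ (A : ℝ) (L K : ℕ) (Φ : Fam T Cs lam A L K N) (z z' : En n), 0 ≤ A → NE T lam K z → NE T lam K z' →
    40 * ‖z - z'‖ ≤ -T.ρ z → ‖hs T Φ z - hs T Φ z'‖ ≤ C * A * ‖z - z'‖ / (-T.ρ z) := by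
  obtain ⟨C₁, hC1, hlip⟩ := hz_lip T Cs N
  have hCC := T.one_le
  refine ⟨(1320 * n + 40) + C₁, by have : (0 : ℝ) ≤ n := by positivity
                                   linarith, ?_⟩
  filter_upwards [Wt_facts T, ne_dv T, hz_bd T Cs N, hlip, ts_sum, ineqs 1,
    ev_lt (a := min (1 / 2) (1 / (3 * T.C))) (lt_min (by norm_num) (by positivity))] with lam hW hdv hbd hlip hts hin hlam A L K Φ z z' hA hz hz' h40
  obtain ⟨h0, h1⟩ := hlam
  have h2 : lam < 1 / 2 := lt_of_lt_of_le h1 (min_le_left _ _)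
  have h3 : lam < 1 / (3 * T.C) := lt_of_lt_of_le h1 (min_le_right _ _)
  rw [lt_div_iff₀ (by positivity)] at h3
  obtain ⟨w0, w1, -, wv⟩ := hW L K Φ.L1 Φ.Le
  obtain ⟨D, hD⟩ : ∃ D, D = -T.ρ z := ⟨_, rfl⟩
  obtain ⟨Δ, hΔ⟩ : ∃ Δ, Δ = ‖z - z'‖ := ⟨_, rfl⟩
  have hD0 : 0 < D := by rw [hD]; linarith [hz.lt]
  have hΔ0 : 0 ≤ Δ := by rw [hΔ]; exact norm_nonneg _
  have hl2 : 3 * T.C * lam ^ 2 ≤ 1 := by nlinarith
  have hρ : |T.ρ z - T.ρ z'| ≤ 3 * Δ := by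
    rw [hΔ]
    exact D5_rho_sub T hl2 hz.near hz'.near
  have hB0 : 0 ≤ C₁ * A * Δ / D := by positivity
  -- the variation of the weights
  have hwt : ∑ ω, |Wt T lam L K ω z - Wt T lam L K ω z'| ≤ (132 * n + 4) * Δ * (10 / D) := by
    refine (wv z z').trans ?_
    have hterm : ∀ l ∈ Finset.Ioc 0 K, (88 * n * es lam l * |Vc T lam l z - Vc T lam l z'| +
        4 * Vc T lam l z * (‖z - z'‖ / (es lam l * rs lam l))) ≤
        ((132 * n + 4) * Δ) * (if 4 / 5 * D ≤ 4 * Ts lam l then 1 / Ts lam l else 0) := by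
      intro l hl
      rw [Finset.mem_Ioc] at hl
      obtain ⟨k, rfl⟩ : ∃ k, l = k + 1 := ⟨l - 1, by omega⟩
      have hTs := Ts_pos h0 (k + 1)
      have hes := es_pos h0 (k + 1)
      have hrs := rs_pos h0 (k + 1)
      have i1 : Ts lam (k + 1) ≤ es lam (k + 1) * rs lam (k + 1) := by
        have := (hin.2.2 k).2.2.1
        linarith
      have i2 : es lam (k + 1) ≤ 1 := by
        have := (hin.2.2 (k + 1)).2.2.2.2.2.2.2.1
        linarith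
      obtain ⟨-, ⟨v0, v1⟩, -, -, v4, -, -, v7⟩ := yv_facts T h0 (k + 1) z z'
      obtain ⟨-, -, -, -, v4', -, -, -⟩ := yv_facts T h0 (k + 1) z' z
      rw [← hΔ]
      by_cases hc : 4 / 5 * D ≤ 4 * Ts lam (k + 1)
      · rw [if_pos hc]
        have e1 : |Vc T lam (k + 1) z - Vc T lam (k + 1) z'| ≤ 3 / 2 * (Δ / Ts lam (k + 1)) := by
          refine v7.trans ?_
          rw [div_le_iff₀ (by positivity)]
          have : 3 / 2 * (Δ / Ts lam (k + 1)) * (2 * Ts lam (k + 1)) = 3 * Δ := by field_simp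
          rw [this]
          exact hρ
        have e2 : Δ / (es lam (k + 1) * rs lam (k + 1)) ≤ Δ / Ts lam (k + 1) :=
          div_le_div_of_nonneg_left hΔ0 hTs i1
        have e3 : 0 ≤ Δ / Ts lam (k + 1) := by positivity
        have e4 : 88 * n * es lam (k + 1) * |Vc T lam (k + 1) z - Vc T lam (k + 1) z'| ≤
            88 * n * 1 * (3 / 2 * (Δ / Ts lam (k + 1))) := by
          refine mul_le_mul ?_ e1 (abs_nonneg _) (by positivity)
          exact mul_le_mul_of_nonneg_left i2 (by positivity)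
        have e5 : 4 * Vc T lam (k + 1) z * (Δ / (es lam (k + 1) * rs lam (k + 1))) ≤ 4 * 1 * (Δ / Ts lam (k + 1)) := by
          refine mul_le_mul ?_ e2 (by positivity) (by norm_num)
          linarith
        have e6 : (132 * n + 4) * Δ * (1 / Ts lam (k + 1)) = 132 * n * (Δ / Ts lam (k + 1)) + 4 * (Δ / Ts lam (k + 1)) := by
          ring
        rw [e6]
        linarith
      · rw [if_neg hc, mul_zero]
        push Not at hc
        have hρ' := (abs_le.mp hρ).1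
        have a1 : 4 * Ts lam (k + 1) ≤ -T.ρ z := by rw [← hD]; linarith
        have a2 : 4 * Ts lam (k + 1) ≤ -T.ρ z' := by
          have h4 : 40 * Δ ≤ D := by rw [hΔ, hD]; exact h40
          have h5 : -T.ρ z' ≥ D - 3 * Δ := by
            have := (abs_le.mp hρ).2
            rw [hD]
            linarith
          linarith
        rw [v4 a1, v4' a2]
        simp
    calc ∑ l ∈ Finset.Ioc 0 K, (88 * n * es lam l * |Vc T lam l z - Vc T lam l z'| +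
        4 * Vc T lam l z * (‖z - z'‖ / (es lam l * rs lam l)))
        ≤ ∑ l ∈ Finset.Ioc 0 K, ((132 * n + 4) * Δ) * (if 4 / 5 * D ≤ 4 * Ts lam l then 1 / Ts lam l else 0) :=
          Finset.sum_le_sum hterm
      _ = ((132 * n + 4) * Δ) * ∑ l ∈ Finset.Ioc 0 K, (if 4 / 5 * D ≤ 4 * Ts lam l then 1 / Ts lam l else 0) := by
          rw [Finset.mul_sum]
      _ ≤ ((132 * n + 4) * Δ) * (8 / (4 / 5 * D)) :=
          mul_le_mul_of_nonneg_left (hts _ _ (by positivity)) (by positivity)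
      _ = (132 * n + 4) * Δ * (10 / D) := by
          congr 1
          field_simp
          norm_num
  have hmain := sum_var (W := fun ω => Wt T lam L K ω z) (W' := fun ω => Wt T lam L K ω z')
    (a := fun ω => Hz T lam (shO L K ω) (Φ.Sy ω).nx (Φ.H ω) K 0 (root T.e) z)
    (a' := fun ω => Hz T lam (shO L K ω) (Φ.Sy ω).nx (Φ.H ω) K 0 (root T.e) z')
    hA hB0 (fun ω => w0 ω z) (fun ω => w0 ω z') (w1 z)
    (fun ω h => hbd (shO L K ω) (Φ.Sy ω) (Φ.H ω) A K 0 (root T.e) z (Φ.bd ω) (Φ.Sy ω).good0 (hdv L K ω z Φ.L1 Φ.Le hz h))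
    (fun ω h => hbd (shO L K ω) (Φ.Sy ω) (Φ.H ω) A K 0 (root T.e) z' (Φ.bd ω) (Φ.Sy ω).good0 (hdv L K ω z' Φ.L1 Φ.Le hz' h))
    (fun ω h h' => by
      rw [hΔ, hD]
      exact hlip (shO L K ω) (Φ.Sy ω) (Φ.H ω) A K 0 (root T.e) z z' hA (Φ.hol ω) (Φ.bd ω) (Φ.Sy ω).good0
        (hdv L K ω z Φ.L1 Φ.Le hz h) (hdv L K ω z' Φ.L1 Φ.Le hz' h') h40)
  unfold hs
  rw [← hD, ← hΔ]
  refine hmain.trans ?_
  have h5 : A * ∑ ω, |Wt T lam L K ω z - Wt T lam L K ω z'| ≤ A * ((132 * n + 4) * Δ * (10 / D)) :=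
    mul_le_mul_of_nonneg_left hwt hA
  have h6 : ((1320 * n + 40) + C₁) * A * Δ / D = A * ((132 * n + 4) * Δ * (10 / D)) + C₁ * A * Δ / D := by ring
  rw [h6]
  linarith

end Pool.Agent.MPca0fc2.EQ
end
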