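import Mathlib
import Pool.Agent.Lib.MP_ca0fc2_an.Holo

section

/-! Campaign PD: the polydisc test for bounded solutions on the ball. Definitions. -/

set_option autoImplicit false

open Metric Set MeasureTheory
open scoped Real ComplexConjugate

namespace Pool.Agent.MPca0fc2.PD

/-- `ℂⁿ` with the euclidean norm -/
abbrev En (n : ℕ) := EuclideanSpace ℂ (Fin n)

variable {n : ℕ}

/-- `D v s y = y + (s - 1) ⟨y, v⟩ v` (`inner ℂ v y` is linear in `y`). For `|v| = 1` the maps `D v s` are
unitary for `|s| = 1` and contractions for `|s| ≤ 1`. -/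
noncomputable def D (v : En n) (s : ℂ) (y : En n) : En n := y + ((s - 1) * inner ℂ v y) • v

/-- `G r v z t = D (v 0) (t 0) (D (v 1) (t 1) (.. (D (v (r-1)) (t (r-1)) z)))` -/
noncomputable def G : (r : ℕ) → (Fin r → En n) → En n → (Fin r → ℂ) → En n
  | 0, _, z, _ => z
  | r + 1, v, z, t => D (v 0) (t 0) (G r (Fin.tail v) z (Fin.tail t))

/-- the mean over the torus (functions of the angles) -/
noncomputable def M {X : Type*} [NormedAddCommGroup X] [NormedSpace ℝ X] :
    (r : ℕ) → ((Fin r → ℝ) → X) → X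
  | 0, F => F Fin.elim0
  | r + 1, F => (2 * π)⁻¹ • ∫ s in (0 : ℝ)..2 * π, M r fun θ => F (Fin.cons s θ)

/-- the point `exp (i s)` of the unit circle -/
noncomputable def ec (s : ℝ) : ℂ := Complex.exp (s * Complex.I)

/-- the point of the torus with the angles `θ` -/
noncomputable def ex {r : ℕ} (θ : Fin r → ℝ) : Fin r → ℂ := fun i => ec (θ i)

/-- continuous functions on the torus without negative frequencies in any of the variables -/
structure Ana (r : ℕ) (h : (Fin r → ℝ) → ℂ) : Prop where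
  cont : Continuous h
  neg : ∀ (i : Fin r) (θ : Fin r → ℝ) (m : ℕ),
    ∫ s in (0 : ℝ)..2 * π, h (Function.update θ i s) * ec s ^ (m + 1) = 0

/-- the `j`-th component of `p` along the circle `D v`; the frequency is `j - 1` -/
noncomputable def Q (v : En n) (j : ℕ) (p : En n → ℂ) : En n → ℂ := fun y =>
  ((2 * π)⁻¹ : ℝ) • ∫ s in (0 : ℝ)..2 * π, p (D v (ec s) y) * (ec s * conj (ec s) ^ j)

/-- the sum of the squares of the values at `z` of all components of `p` with frequencies in `[0, K)` -/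
noncomputable def S (K : ℕ) : (r : ℕ) → (Fin r → En n) → (En n → ℂ) → En n → ℝ
  | 0, _, p, z => ‖p z‖ ^ 2
  | r + 1, v, p, z => ∑ j ∈ Finset.range K, S K r (Fin.tail v) (Q (v 0) (j + 1) p) z

/-- the square of the norm in `L²` of the ball -/
noncomputable def Nm (p : En n → ℂ) : ℝ := ∫ y in ball (0 : En n) 1, ‖p y‖ ^ 2

/-- the energy of all components of `p` with frequencies in `[0, K)` -/
noncomputable def En2 (K : ℕ) : (r : ℕ) → (Fin r → En n) → (En n → ℂ) → ℝ
  | 0, _, p => Nm p
  | r + 1, v, p => ∑ j ∈ Finset.range K, En2 K r (Fin.tail v) (Q (v 0) (j + 1) p)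

/-- `⟨u, y⟩ ⟨y, w⟩^k - k / (k + n - 1) |y|² ⟨u, w⟩ ⟨y, w⟩^(k-1)`, `⟨a, b⟩ = ∑ a_j conj (b_j)`: a harmonic
polynomial of bidegree `(k, 1)` -/
noncomputable def P (k : ℕ) (u w : En n) : En n → ℂ := fun y =>
  inner ℂ y u * inner ℂ w y ^ k -
    ((k : ℂ) / (k + n - 1)) * (‖y‖ ^ 2 : ℝ) * inner ℂ w u * inner ℂ w y ^ (k - 1)

/-- the span of the polynomials `P k u w`, `k ≤ R` -/
noncomputable def W (n R : ℕ) : Submodule ℂ (En n → ℂ) :=
  Submodule.span ℂ {p | ∃ k ≤ R, ∃ u w : En n, p = P k u w}

/-- the Szegő kernel, holomorphic in `w`, antiholomorphic in `y` -/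
noncomputable def K (w y : En n) : ℂ := ((1 - inner ℂ y w) ^ n)⁻¹

end Pool.Agent.MPca0fc2.PD
end

section

/-! Campaign PD, row B: the mean over the torus. -/

set_option autoImplicit false

open Metric Set MeasureTheory
open scoped Real ComplexConjugate

namespace Pool.Agent.MPca0fc2.PD

variable {n : ℕ} {X : Type*} [NormedAddCommGroup X] [NormedSpace ℝ X]

omit [NormedSpace ℝ X] in
theorem continuous_cons_pair {Y : Type*} [TopologicalSpace Y] {r : ℕ} {F : Y → (Fin (r + 1) → ℝ) → X}
    (hF : Continuous fun x : Y × (Fin (r + 1) → ℝ) => F x.1 x.2) :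
    Continuous fun x : (Y × ℝ) × (Fin r → ℝ) => F x.1.1 (Fin.cons x.1.2 x.2) := by
  have h : Continuous fun x : (Y × ℝ) × (Fin r → ℝ) => (x.1.1, (Fin.cons x.1.2 x.2 : Fin (r + 1) → ℝ)) := by
    refine Continuous.prodMk (by fun_prop) ?_
    refine continuous_pi fun i => ?_
    refine Fin.cases ?_ (fun j => ?_) i
    · simp only [Fin.cons_zero]; fun_prop
    · simp only [Fin.cons_succ]; fun_prop
  exact hF.comp h

/-- `intervalIntegral.continuous_parametric_intervalIntegral_of_continuous'`, induction on `r` -/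
theorem M_cont {Y : Type*} [TopologicalSpace Y] [FirstCountableTopology Y] {r : ℕ}
    {F : Y → (Fin r → ℝ) → X} (hF : Continuous fun x : Y × (Fin r → ℝ) => F x.1 x.2) :
    Continuous fun y => M r (F y) := by
  induction r generalizing Y with
  | zero =>
    have h : Continuous fun y : Y => (y, (Fin.elim0 : Fin 0 → ℝ)) := by fun_prop
    exact hF.comp h
  | succ r ih =>
    have h1 := ih (Y := Y × ℝ) (F := fun y θ => F y.1 (Fin.cons y.2 θ)) (continuous_cons_pair hF)
    have h2 : Continuous (Function.uncurry fun (y : Y) (s : ℝ) => M r fun θ => F y (Fin.cons s θ)) := h1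
    have h3 := intervalIntegral.continuous_parametric_intervalIntegral_of_continuous' (μ := volume) h2 0 (2 * π)
    exact h3.const_smul _

theorem M_cont_s {r : ℕ} {F : (Fin (r + 1) → ℝ) → X} (hF : Continuous F) :
    Continuous fun s : ℝ => M r fun θ => F (Fin.cons s θ) := by
  refine M_cont (F := fun (s : ℝ) (θ : Fin r → ℝ) => F (Fin.cons s θ)) ?_
  have h : Continuous fun x : ℝ × (Fin r → ℝ) => (Fin.cons x.1 x.2 : Fin (r + 1) → ℝ) := by
    refine continuous_pi fun i => ?_
    refine Fin.cases ?_ (fun j => ?_) i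
    · simp only [Fin.cons_zero]; fun_prop
    · simp only [Fin.cons_succ]; fun_prop
  exact hF.comp h

omit [NormedSpace ℝ X] in
theorem continuous_cons_right {r : ℕ} {F : (Fin (r + 1) → ℝ) → X} (hF : Continuous F) (s : ℝ) :
    Continuous fun θ : Fin r → ℝ => F (Fin.cons s θ) := by
  have h : Continuous fun θ : Fin r → ℝ => (Fin.cons s θ : Fin (r + 1) → ℝ) := by
    refine continuous_pi fun i => ?_
    refine Fin.cases ?_ (fun j => ?_) i
    · simp only [Fin.cons_zero]; fun_prop
    · simp only [Fin.cons_succ]; fun_prop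
  exact hF.comp h

theorem M_add {r : ℕ} {F H : (Fin r → ℝ) → X} (hF : Continuous F) (hH : Continuous H) :
    M r (fun θ => F θ + H θ) = M r F + M r H := by
  induction r with
  | zero => rfl
  | succ r ih =>
    show (2 * π)⁻¹ • (∫ s in (0 : ℝ)..2 * π, M r fun θ => F (Fin.cons s θ) + H (Fin.cons s θ)) =
      (2 * π)⁻¹ • (∫ s in (0 : ℝ)..2 * π, M r fun θ => F (Fin.cons s θ)) +
        (2 * π)⁻¹ • (∫ s in (0 : ℝ)..2 * π, M r fun θ => H (Fin.cons s θ))
    rw [← smul_add, ← intervalIntegral.integral_add ((M_cont_s hF).intervalIntegrable _ _)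
      ((M_cont_s hH).intervalIntegrable _ _)]
    congr 1
    refine intervalIntegral.integral_congr fun s _ => ?_
    exact ih (continuous_cons_right hF s) (continuous_cons_right hH s)

theorem M_sub {r : ℕ} {F H : (Fin r → ℝ) → X} (hF : Continuous F) (hH : Continuous H) :
    M r (fun θ => F θ - H θ) = M r F - M r H := by
  induction r with
  | zero => rfl
  | succ r ih =>
    show (2 * π)⁻¹ • (∫ s in (0 : ℝ)..2 * π, M r fun θ => F (Fin.cons s θ) - H (Fin.cons s θ)) =
      (2 * π)⁻¹ • (∫ s in (0 : ℝ)..2 * π, M r fun θ => F (Fin.cons s θ)) -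
        (2 * π)⁻¹ • (∫ s in (0 : ℝ)..2 * π, M r fun θ => H (Fin.cons s θ))
    rw [← smul_sub, ← intervalIntegral.integral_sub ((M_cont_s hF).intervalIntegrable _ _)
      ((M_cont_s hH).intervalIntegrable _ _)]
    congr 1
    refine intervalIntegral.integral_congr fun s _ => ?_
    exact ih (continuous_cons_right hF s) (continuous_cons_right hH s)

theorem M_zero (r : ℕ) : M r (fun _ => (0 : X)) = 0 := by
  induction r with
  | zero => rfl
  | succ r ih =>
    show (2 * π)⁻¹ • (∫ s in (0 : ℝ)..2 * π, M r fun θ => (0 : X)) = 0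
    rw [ih]
    simp

theorem M_sum {r : ℕ} {ι : Type*} (s : Finset ι) {F : ι → (Fin r → ℝ) → X}
    (hF : ∀ i ∈ s, Continuous (F i)) : M r (fun θ => ∑ i ∈ s, F i θ) = ∑ i ∈ s, M r (F i) := by
  classical
  induction s using Finset.induction_on with
  | empty => simpa using M_zero (X := X) r
  | insert a s ha ih =>
    have h1 : ∀ i ∈ s, Continuous (F i) := fun i hi => hF i (Finset.mem_insert_of_mem hi)
    have h2 : Continuous fun θ => ∑ i ∈ s, F i θ := continuous_finsetSum s h1
    rw [Finset.sum_insert ha, ← ih h1, ← M_add (hF a (Finset.mem_insert_self a s)) h2]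
    congr 1
    funext θ
    rw [Finset.sum_insert ha]

theorem M_const [CompleteSpace X] (r : ℕ) (c : X) : M r (fun _ => c) = c := by
  induction r with
  | zero => rfl
  | succ r ih =>
    show (2 * π)⁻¹ • (∫ s in (0 : ℝ)..2 * π, M r fun θ => c) = c
    rw [ih, intervalIntegral.integral_const, smul_smul, sub_zero, inv_mul_cancel₀, one_smul]
    positivity

theorem M_mul_left (r : ℕ) (c : ℂ) (F : (Fin r → ℝ) → ℂ) : M r (fun θ => c * F θ) = c * M r F := by
  induction r with
  | zero => rfl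
  | succ r ih =>
    show (2 * π)⁻¹ • (∫ s in (0 : ℝ)..2 * π, M r fun θ => c * F (Fin.cons s θ)) =
      c * ((2 * π)⁻¹ • (∫ s in (0 : ℝ)..2 * π, M r fun θ => F (Fin.cons s θ)))
    rw [mul_smul_comm, ← intervalIntegral.integral_const_mul]
    congr 1
    refine intervalIntegral.integral_congr fun s _ => ?_
    exact ih _

theorem M_mul_left' (r : ℕ) (c : ℝ) (F : (Fin r → ℝ) → ℝ) : M r (fun θ => c * F θ) = c * M r F := by
  induction r with
  | zero => rfl
  | succ r ih =>
    show (2 * π)⁻¹ • (∫ s in (0 : ℝ)..2 * π, M r fun θ => c * F (Fin.cons s θ)) =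
      c * ((2 * π)⁻¹ • (∫ s in (0 : ℝ)..2 * π, M r fun θ => F (Fin.cons s θ)))
    rw [mul_smul_comm, ← intervalIntegral.integral_const_mul]
    congr 1
    refine intervalIntegral.integral_congr fun s _ => ?_
    exact ih _

theorem M_conj (r : ℕ) (F : (Fin r → ℝ) → ℂ) : M r (fun θ => conj (F θ)) = conj (M r F) := by
  induction r with
  | zero => rfl
  | succ r ih =>
    show (2 * π)⁻¹ • (∫ s in (0 : ℝ)..2 * π, M r fun θ => conj (F (Fin.cons s θ))) =
      conj ((2 * π)⁻¹ • (∫ s in (0 : ℝ)..2 * π, M r fun θ => F (Fin.cons s θ)))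
    have h1 : (∫ s in (0 : ℝ)..2 * π, M r fun θ => conj (F (Fin.cons s θ))) =
        conj (∫ s in (0 : ℝ)..2 * π, M r fun θ => F (Fin.cons s θ)) := by
      rw [intervalIntegral.integral_of_le (by positivity), intervalIntegral.integral_of_le (by positivity),
        ← integral_conj]
      refine integral_congr_ae (Filter.Eventually.of_forall fun s => ?_)
      exact ih _
    rw [h1, Complex.real_smul, Complex.real_smul, map_mul, Complex.conj_ofReal]

theorem M_nonneg {r : ℕ} {F : (Fin r → ℝ) → ℝ} (h : ∀ θ, 0 ≤ F θ) : 0 ≤ M r F := by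
  induction r with
  | zero => exact h _
  | succ r ih =>
    show 0 ≤ (2 * π)⁻¹ • (∫ s in (0 : ℝ)..2 * π, M r fun θ => F (Fin.cons s θ))
    rw [smul_eq_mul]
    refine mul_nonneg (by positivity) ?_
    exact intervalIntegral.integral_nonneg (by positivity) fun s _ => ih fun θ => h _

theorem M_mono {r : ℕ} {F H : (Fin r → ℝ) → ℝ} (hF : Continuous F) (hH : Continuous H)
    (h : ∀ θ, F θ ≤ H θ) : M r F ≤ M r H := by
  have h1 : 0 ≤ M r (fun θ => H θ - F θ) := M_nonneg fun θ => sub_nonneg.2 (h θ)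
  rw [M_sub hH hF] at h1
  linarith

theorem norm_M_le {r : ℕ} {F : (Fin r → ℝ) → X} (hF : Continuous F) :
    ‖M r F‖ ≤ M r (fun θ => ‖F θ‖) := by
  induction r with
  | zero => exact le_rfl
  | succ r ih =>
    show ‖(2 * π)⁻¹ • (∫ s in (0 : ℝ)..2 * π, M r fun θ => F (Fin.cons s θ))‖ ≤
      (2 * π)⁻¹ • (∫ s in (0 : ℝ)..2 * π, M r fun θ => ‖F (Fin.cons s θ)‖)
    rw [norm_smul, smul_eq_mul, Real.norm_of_nonneg (by positivity : (0 : ℝ) ≤ (2 * π)⁻¹)]
    refine mul_le_mul_of_nonneg_left ?_ (by positivity)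
    refine (intervalIntegral.norm_integral_le_integral_norm (by positivity)).trans ?_
    refine intervalIntegral.integral_mono_on (by positivity) ((M_cont_s hF).norm.intervalIntegrable _ _)
      ((M_cont_s hF.norm).intervalIntegrable _ _) fun s _ => ?_
    exact ih (continuous_cons_right hF s)

theorem M_swap {r : ℕ} {F : ℝ → (Fin r → ℝ) → X} (hF : Continuous fun x : ℝ × (Fin r → ℝ) => F x.1 x.2)
    (a b : ℝ) : M r (fun θ => ∫ s in a..b, F s θ) = ∫ s in a..b, M r (F s) := by
  induction r with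
  | zero => rfl
  | succ r ih =>
    show (2 * π)⁻¹ • (∫ u in (0 : ℝ)..2 * π, M r fun θ => ∫ s in a..b, F s (Fin.cons u θ)) =
      ∫ s in a..b, (2 * π)⁻¹ • (∫ u in (0 : ℝ)..2 * π, M r fun θ => F s (Fin.cons u θ))
    rw [intervalIntegral.integral_smul]
    congr 1
    have h0 : Continuous fun x : (ℝ × ℝ) × (Fin r → ℝ) => F x.1.1 (Fin.cons x.1.2 x.2) :=
      continuous_cons_pair hF
    have h1 : (∫ u in (0 : ℝ)..2 * π, M r fun θ => ∫ s in a..b, F s (Fin.cons u θ)) =
        ∫ u in (0 : ℝ)..2 * π, ∫ s in a..b, M r fun θ => F s (Fin.cons u θ) := by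
      refine intervalIntegral.integral_congr fun u _ => ?_
      refine ih (F := fun s θ => F s (Fin.cons u θ)) ?_
      have h : Continuous fun x : ℝ × (Fin r → ℝ) => (((x.1, u), x.2) : (ℝ × ℝ) × (Fin r → ℝ)) := by
        fun_prop
      exact h0.comp h
    rw [h1]
    have h2 : Continuous fun x : ℝ × ℝ => M r fun θ => F x.1 (Fin.cons x.2 θ) :=
      M_cont (Y := ℝ × ℝ) (F := fun y θ => F y.1 (Fin.cons y.2 θ)) h0
    refine intervalIntegral_intervalIntegral_swap ?_
    have h3 : Continuous (Function.uncurry fun (u s : ℝ) => M r fun θ => F s (Fin.cons u θ)) :=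
      h2.comp continuous_swap
    have h4 : IntegrableOn (Function.uncurry fun (u s : ℝ) => M r fun θ => F s (Fin.cons u θ))
        (uIcc 0 (2 * π) ×ˢ uIcc a b) :=
      h3.continuousOn.integrableOn_compact (isCompact_uIcc.prod isCompact_uIcc)
    exact h4.mono_set (Set.prod_mono uIoc_subset_uIcc uIoc_subset_uIcc)

/-! ### means of holomorphic functions over the torus -/

theorem ec_eq (s : ℝ) : ec s = circleMap 0 1 s := by
  simp [ec, circleMap]

/-- the mean value property in one variable -/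
theorem mean_one {ρ : ℝ} (hρ : 1 < ρ) {h : ℂ → ℂ} (hh : DifferentiableOn ℂ h (ball 0 ρ)) :
    ((2 * π)⁻¹ : ℝ) • ∫ s in (0 : ℝ)..2 * π, h (ec s) = h 0 := by
  have hsub : closedBall (0 : ℂ) 1 ⊆ ball 0 ρ := closedBall_subset_ball hρ
  have hd : DiffContOnCl ℂ h (ball (0 : ℂ) |1|) := by
    rw [abs_one]
    exact ⟨hh.mono (ball_subset_closedBall.trans hsub),
      hh.continuousOn.mono (closure_ball_subset_closedBall.trans hsub)⟩
  have h1 := hd.circleAverage
  rw [Real.circleAverage_def] at h1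
  rw [← h1]
  congr 2
  funext s
  rw [ec_eq]

theorem norm_ex_lt {r : ℕ} {ρ : ℝ} (hρ : 1 < ρ) (θ : Fin r → ℝ) : ex θ ∈ ball (0 : Fin r → ℂ) ρ := by
  rw [mem_ball_zero_iff, pi_norm_lt_iff (by linarith)]
  intro i
  have h1 : ‖ex θ i‖ = 1 := by
    show ‖ec (θ i)‖ = 1
    rw [ec, Complex.norm_exp_ofReal_mul_I]
  rw [h1]
  exact hρ

theorem continuous_ex' {r : ℕ} : Continuous (ex : (Fin r → ℝ) → Fin r → ℂ) := by
  unfold ex ec
  fun_prop

/-- means of holomorphic families are holomorphic -/
theorem M_diff {E : Type*} [NormedAddCommGroup E] [NormedSpace ℂ E] [FiniteDimensional ℂ E] {r : ℕ}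
    {U : Set E} (hU : IsOpen U) {F : E → (Fin r → ℝ) → ℂ}
    (hc : ContinuousOn (fun x : E × (Fin r → ℝ) => F x.1 x.2) (U ×ˢ univ))
    (hF : ∀ θ, DifferentiableOn ℂ (fun w => F w θ) U) :
    DifferentiableOn ℂ (fun w => M r (F w)) U := by
  induction r with
  | zero =>
    simp only [M]
    exact hF _
  | succ r ih =>
    have hproper : ProperSpace E := FiniteDimensional.proper ℂ E
    -- the inner mean
    have hcons : Continuous fun x : (ℝ × (Fin r → ℝ)) => (Fin.cons x.1 x.2 : Fin (r + 1) → ℝ) := by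
      refine continuous_pi fun i => ?_
      refine Fin.cases ?_ (fun j => ?_) i
      · simpa using continuous_fst
      · simp only [Fin.cons_succ]
        exact (continuous_apply j).comp continuous_snd
    have hin : ∀ s : ℝ, DifferentiableOn ℂ (fun w => M r fun θ => F w (Fin.cons s θ)) U := by
      intro s
      refine ih (F := fun w θ => F w (Fin.cons s θ)) ?_ (fun θ => hF _)
      have h1 : ContinuousOn (fun x : E × (Fin r → ℝ) =>
          ((x.1, (Fin.cons s x.2 : Fin (r + 1) → ℝ)) : E × (Fin (r + 1) → ℝ))) (U ×ˢ univ) := by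
        refine Continuous.continuousOn ?_
        exact continuous_fst.prodMk (hcons.comp (continuous_const.prodMk continuous_snd))
      exact hc.comp h1 (fun x hx => ⟨hx.1, mem_univ _⟩)
    have hcont : Continuous fun x : U × ℝ => M r fun θ => F (x.1 : E) (Fin.cons x.2 θ) := by
      refine M_cont (F := fun (x : U × ℝ) θ => F (x.1 : E) (Fin.cons x.2 θ)) ?_
      have h1 : Continuous (fun y : (U × ℝ) × (Fin r → ℝ) =>
          (((y.1.1 : E), (Fin.cons y.1.2 y.2 : Fin (r + 1) → ℝ)) : E × (Fin (r + 1) → ℝ))) := by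
        have h2 : Continuous fun y : (U × ℝ) × (Fin r → ℝ) => ((y.1.1 : E)) := by fun_prop
        have h3 : Continuous fun y : (U × ℝ) × (Fin r → ℝ) => (y.1.2, y.2) := by fun_prop
        exact h2.prodMk (hcons.comp h3)
      have h4 := hc.comp_continuous h1 (fun y => ⟨y.1.1.2, mem_univ _⟩)
      exact h4
    intro z₀ hz₀
    obtain ⟨δ, hδ, hball⟩ := Metric.isOpen_iff.1 hU z₀ hz₀
    have hcb : closedBall z₀ (δ / 2) ⊆ U := (closedBall_subset_ball (by linarith)).trans hball
    -- bound
    have hon : ContinuousOn (fun x : E × ℝ => M r fun θ => F x.1 (Fin.cons x.2 θ)) (U ×ˢ univ) := by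
      rw [continuousOn_iff_continuous_domRestrict]
      have h5 : Continuous fun x : (U ×ˢ (univ : Set ℝ) : Set (E × ℝ)) =>
          ((⟨(x : E × ℝ).1, x.2.1⟩, (x : E × ℝ).2) : U × ℝ) := by
        refine Continuous.prodMk ?_ (continuous_snd.comp continuous_subtype_val)
        exact Continuous.subtype_mk (continuous_fst.comp continuous_subtype_val) _
      exact hcont.comp h5
    obtain ⟨C, hC⟩ := (((isCompact_closedBall z₀ (δ / 2)).prod
      (isCompact_Icc (a := (0 : ℝ)) (b := 2 * π))).exists_bound_of_continuousOn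
        (hon.mono (prod_mono hcb (subset_univ _))))
    have hpi : (0 : ℝ) ≤ 2 * π := by positivity
    have key : DifferentiableAt ℂ (fun w => ∫ s in Ioc (0 : ℝ) (2 * π),
        M r fun θ => F w (Fin.cons s θ)) z₀ := by
      refine Pool.Agent.Lib.MP_ca0fc2_an.differentiableAt_integral (r := δ / 2) (by linarith)
        (g := fun _ => C) ?_ ?_ ?_ ?_
      · exact Filter.Eventually.of_forall fun s => (hin s).mono (ball_subset_closedBall.trans hcb)
      · intro z hz
        have hz' : z ∈ U := hcb (ball_subset_closedBall hz)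
        have h6 : Continuous fun s : ℝ => M r fun θ => F z (Fin.cons s θ) :=
          hcont.comp (Continuous.prodMk (continuous_const (y := (⟨z, hz'⟩ : U))) continuous_id)
        exact h6.aestronglyMeasurable
      · exact integrable_const _
      · rw [ae_restrict_iff' measurableSet_Ioc]
        exact Filter.Eventually.of_forall fun s hs z hz =>
          hC (z, s) ⟨ball_subset_closedBall hz, Ioc_subset_Icc_self hs⟩
    have h7 : DifferentiableAt ℂ (fun w => M (r + 1) (F w)) z₀ := by
      have e : (fun w => M (r + 1) (F w)) = fun w => ((((2 * π)⁻¹ : ℝ)) : ℂ) *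
          ∫ s in Ioc (0 : ℝ) (2 * π), M r fun θ => F w (Fin.cons s θ) := by
        funext w
        rw [M, intervalIntegral.integral_of_le hpi, Complex.real_smul]
      rw [e]
      exact key.const_mul _
    exact h7.differentiableWithinAt

/-- the mean value property -/
theorem M_mean {r : ℕ} {ρ : ℝ} (hρ : 1 < ρ) {H : (Fin r → ℂ) → ℂ}
    (hH : DifferentiableOn ℂ H (ball 0 ρ)) : M r (fun θ => H (ex θ)) = H 0 := by
  induction r with
  | zero =>
    simp only [M]
    congr 1
    exact Subsingleton.elim _ _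
  | succ r ih =>
    have hec : ∀ s : ℝ, ‖ec s‖ = 1 := by
      intro s
      rw [ec, Complex.norm_exp_ofReal_mul_I]
    have hmem : ∀ (z : ℂ) (t : Fin r → ℂ), ‖z‖ < ρ → t ∈ ball (0 : Fin r → ℂ) ρ →
        (Fin.cons z t : Fin (r + 1) → ℂ) ∈ ball (0 : Fin (r + 1) → ℂ) ρ := by
      intro z t hz ht
      rw [mem_ball_zero_iff, pi_norm_lt_iff (by linarith)] at ht ⊢
      intro i
      refine Fin.cases ?_ (fun j => ?_) i
      · simpa using hz
      · simpa using ht j
    have hcons1 : ∀ z : ℂ, Differentiable ℂ fun t : Fin r → ℂ => (Fin.cons z t : Fin (r + 1) → ℂ) := by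
      intro z
      rw [differentiable_pi]
      intro i
      refine Fin.cases ?_ (fun j => ?_) i
      · simp
      · simp only [Fin.cons_succ]
        exact differentiable_apply j
    have hcons2 : ∀ t : Fin r → ℂ, Differentiable ℂ fun z : ℂ => (Fin.cons z t : Fin (r + 1) → ℂ) := by
      intro t
      rw [differentiable_pi]
      intro i
      refine Fin.cases ?_ (fun j => ?_) i
      · simp
      · simp
    have hex : ∀ (s : ℝ) (θ : Fin r → ℝ),
        ex (Fin.cons s θ : Fin (r + 1) → ℝ) = (Fin.cons (ec s) (ex θ) : Fin (r + 1) → ℂ) := by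
      intro s θ
      funext i
      refine Fin.cases ?_ (fun j => ?_) i
      · simp [ex]
      · simp [ex]
    have h1 : ∀ s : ℝ, M r (fun θ => H (ex (Fin.cons s θ : Fin (r + 1) → ℝ))) =
        H (Fin.cons (ec s) 0) := by
      intro s
      have h2 := ih (H := fun t => H (Fin.cons (ec s) t)) (hH.comp (hcons1 _).differentiableOn
        (fun t ht => hmem _ _ (by rw [hec]; exact hρ) ht))
      rw [← h2]
      congr 1
      funext θ
      rw [hex]
    rw [M]
    simp only [h1]
    have h3 := mean_one hρ (h := fun z => H (Fin.cons z 0)) (hH.comp (hcons2 _).differentiableOn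
        (fun z hz => hmem _ _ (mem_ball_zero_iff.1 hz) (mem_ball_self (by linarith))))
    rw [h3]
    congr 1
    funext i
    refine Fin.cases ?_ (fun j => ?_) i
    · simp
    · simp

/-- Cauchy's theorem in each variable -/
theorem ana_of_hol {r : ℕ} {ρ : ℝ} (hρ : 1 < ρ) {H : (Fin r → ℂ) → ℂ}
    (hH : DifferentiableOn ℂ H (ball 0 ρ)) : Ana r (fun θ => H (ex θ)) := by
  refine ⟨?_, ?_⟩
  · exact hH.continuousOn.comp_continuous continuous_ex' (norm_ex_lt hρ)
  · intro i θ m
    have hupd : Differentiable ℂ fun z : ℂ => Function.update (ex θ) i z := by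
      rw [differentiable_pi]
      intro j
      by_cases hj : j = i
      · subst hj
        simp
      · simp [hj]
    have hmaps : MapsTo (fun z : ℂ => Function.update (ex θ) i z) (ball 0 ρ)
        (ball (0 : Fin r → ℂ) ρ) := by
      intro z hz
      have h0 := norm_ex_lt hρ θ
      rw [mem_ball_zero_iff, pi_norm_lt_iff (by linarith)] at h0
      show Function.update (ex θ) i z ∈ ball (0 : Fin r → ℂ) ρ
      rw [mem_ball_zero_iff, pi_norm_lt_iff (by linarith)]
      intro j
      by_cases hj : j = i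
      · subst hj
        simpa using hz
      · rw [Function.update_of_ne hj]
        exact h0 j
    have hd : DifferentiableOn ℂ (fun z : ℂ => H (Function.update (ex θ) i z) * z ^ (m + 1))
        (ball 0 ρ) := (hH.comp hupd.differentiableOn hmaps).mul
          (differentiable_id.pow (m + 1)).differentiableOn
    have h1 := mean_one hρ hd
    simp only [zero_pow (Nat.succ_ne_zero m), mul_zero] at h1
    have h2 : ((2 * π)⁻¹ : ℝ) ≠ 0 := by positivity
    have h3 := (smul_eq_zero_iff_right h2).1 h1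
    have e : ∀ s : ℝ, ex (Function.update θ i s) = Function.update (ex θ) i (ec s) := by
      intro s
      funext j
      by_cases hj : j = i
      · subst hj
        simp [ex]
      · simp [ex, hj]
    simp only [e]
    exact h3

end Pool.Agent.MPca0fc2.PD
end

section

/-! Campaign PD, row A: the maps `D` and `G`. -/

set_option autoImplicit false

open Metric Set MeasureTheory
open scoped Real ComplexConjugate

namespace Pool.Agent.MPca0fc2.PD

variable {n : ℕ}

theorem D_norm_sq {v : En n} (hv : ‖v‖ = 1) (s : ℂ) (y : En n) :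
    ‖D v s y‖ ^ 2 = ‖y‖ ^ 2 + (‖s‖ ^ 2 - 1) * ‖(inner ℂ v y : ℂ)‖ ^ 2 := by
  have h1 := @norm_add_sq ℂ (En n) _ _ _ y (((s - 1) * inner ℂ v y) • v)
  have h2 : ((inner ℂ v y : ℂ)) * inner ℂ y v = ((‖(inner ℂ v y : ℂ)‖ ^ 2 : ℝ) : ℂ) := by
    rw [← inner_conj_symm y v, Complex.mul_conj, Complex.normSq_eq_norm_sq]
  have h3 : (inner ℂ y (((s - 1) * inner ℂ v y) • v) : ℂ) = (s - 1) * ((‖(inner ℂ v y : ℂ)‖ ^ 2 : ℝ) : ℂ) := by
    rw [inner_smul_right, mul_assoc, h2]
  have h4 : RCLike.re (inner ℂ y (((s - 1) * inner ℂ v y) • v) : ℂ) = (s.re - 1) * ‖(inner ℂ v y : ℂ)‖ ^ 2 := by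
    rw [h3]
    show ((s - 1) * ((‖(inner ℂ v y : ℂ)‖ ^ 2 : ℝ) : ℂ)).re = _
    rw [Complex.re_mul_ofReal, Complex.sub_re, Complex.one_re]
  have h5 : ‖s - 1‖ ^ 2 = ‖s‖ ^ 2 - 2 * s.re + 1 := by
    rw [← Complex.normSq_eq_norm_sq, ← Complex.normSq_eq_norm_sq, Complex.normSq_apply, Complex.normSq_apply]
    simp
    ring
  unfold D
  rw [h1, h4, norm_smul, norm_mul, hv, mul_one, mul_pow, h5]
  ring

theorem D_norm_le {v : En n} (hv : ‖v‖ = 1) {s : ℂ} (hs : ‖s‖ ≤ 1) (y : En n) : ‖D v s y‖ ≤ ‖y‖ := by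
  refine le_of_sq_le_sq ?_ (norm_nonneg y)
  rw [D_norm_sq hv]
  have h1 : ‖s‖ ^ 2 ≤ 1 := pow_le_one₀ (norm_nonneg s) hs
  nlinarith [sq_nonneg ‖(inner ℂ v y : ℂ)‖]

theorem D_norm_eq {v : En n} (hv : ‖v‖ = 1) {s : ℂ} (hs : ‖s‖ = 1) (y : En n) : ‖D v s y‖ = ‖y‖ := by
  have h1 := D_norm_sq hv s y
  rw [hs] at h1
  have h2 : ‖D v s y‖ ^ 2 = ‖y‖ ^ 2 := by rw [h1]; ring
  exact (pow_left_inj₀ (norm_nonneg _) (norm_nonneg _) two_ne_zero).1 h2

theorem D_isometry {v : En n} (hv : ‖v‖ = 1) {s : ℂ} (hs : ‖s‖ = 1) :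
    ∃ U : En n ≃ₗᵢ[ℂ] En n, ∀ y, U y = D v s y := by
  let L : En n →ₗ[ℂ] En n :=
    { toFun := fun y => D v s y
      map_add' := fun a b => by
        simp only [D, inner_add_right, mul_add, add_smul]
        abel
      map_smul' := fun c a => by
        simp only [D, inner_smul_right, RingHom.id_apply, smul_add, smul_smul]
        congr 2
        ring }
  let I : En n →ₗᵢ[ℂ] En n := { L with norm_map' := fun y => D_norm_eq hv hs y }
  exact ⟨I.toLinearIsometryEquiv rfl, fun y => rfl⟩

theorem D_diff (v : En n) : Differentiable ℂ (fun x : ℂ × En n => D v x.1 x.2) := by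
  unfold D
  have h : Differentiable ℂ (fun x : ℂ × En n => (inner ℂ v x.2 : ℂ)) :=
    (innerSL ℂ v).differentiable.comp differentiable_snd
  fun_prop

theorem G_norm_le {r : ℕ} {v : Fin r → En n} (hv : ∀ i, ‖v i‖ = 1) (z : En n) {t : Fin r → ℂ}
    (ht : ∀ i, ‖t i‖ ≤ 1) : ‖G r v z t‖ ≤ ‖z‖ := by
  induction r with
  | zero => exact le_rfl
  | succ r ih =>
    refine (D_norm_le (hv 0) (ht 0) _).trans ?_
    exact ih (fun i => hv i.succ) (fun i => ht i.succ)

theorem G_norm_eq {r : ℕ} {v : Fin r → En n} (hv : ∀ i, ‖v i‖ = 1) (z : En n) {t : Fin r → ℂ}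
    (ht : ∀ i, ‖t i‖ = 1) : ‖G r v z t‖ = ‖z‖ := by
  induction r with
  | zero => rfl
  | succ r ih =>
    refine (D_norm_eq (hv 0) (ht 0) _).trans ?_
    exact ih (fun i => hv i.succ) (fun i => ht i.succ)

theorem G_diff (r : ℕ) (v : Fin r → En n) (z : En n) : Differentiable ℂ (G r v z) := by
  induction r with
  | zero => exact differentiable_const z
  | succ r ih =>
    have h1 : Differentiable ℂ (fun t : Fin (r + 1) → ℂ => (t 0, G r (Fin.tail v) z (Fin.tail t))) := by
      refine Differentiable.prodMk (differentiable_apply 0) ?_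
      refine (ih (Fin.tail v)).comp ?_
      refine differentiable_pi.2 fun i => ?_
      exact differentiable_apply (i.succ)
    exact (D_diff (v 0)).comp h1

/-- `D v 0` is the projection along `v` -/
theorem G_zero {r : ℕ} {v : Fin (r + 1) → En n} (hv : ∀ i, ‖v i‖ = 1) :
    G (r + 1) v (v (Fin.last r)) 0 = 0 := by
  have h0 : ∀ w : En n, D w 0 (0 : En n) = 0 := by
    intro w
    simp [D]
  induction r with
  | zero =>
    show D (v 0) 0 (v (Fin.last 0)) = 0
    have h1 : (inner ℂ (v 0) (v (Fin.last 0)) : ℂ) = 1 := by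
      have : (Fin.last 0) = (0 : Fin 1) := rfl
      rw [this, inner_self_eq_norm_sq_to_K, hv 0]
      simp
    simp only [D, h1]
    have : (Fin.last 0) = (0 : Fin 1) := rfl
    rw [this]
    simp
  | succ r ih =>
    have h1 := ih (v := Fin.tail v) (fun i => hv i.succ)
    show D (v 0) 0 (G (r + 1) (Fin.tail v) (v (Fin.last (r + 1))) (Fin.tail (0 : Fin (r + 2) → ℂ))) = 0
    have h2 : Fin.tail (0 : Fin (r + 2) → ℂ) = 0 := rfl
    have h3 : v (Fin.last (r + 1)) = Fin.tail v (Fin.last r) := rfl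
    rw [h2, h3, h1]
    exact h0 _

theorem norm_ec (s : ℝ) : ‖ec s‖ = 1 := by
  unfold ec
  exact Complex.norm_exp_ofReal_mul_I s

theorem norm_ex {r : ℕ} (θ : Fin r → ℝ) (i : Fin r) : ‖ex θ i‖ = 1 := norm_ec _

theorem continuous_ec : Continuous ec := by
  unfold ec
  fun_prop

theorem continuous_ex {r : ℕ} : Continuous (ex : (Fin r → ℝ) → Fin r → ℂ) := by
  refine continuous_pi fun i => ?_
  exact continuous_ec.comp (continuous_apply i)

theorem ex_cons {r : ℕ} (s : ℝ) (θ : Fin r → ℝ) :
    ex (Fin.cons s θ : Fin (r + 1) → ℝ) = Fin.cons (ec s) (ex θ) := by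
  funext i
  refine Fin.cases ?_ (fun j => ?_) i
  · rfl
  · rfl

end Pool.Agent.MPca0fc2.PD
end
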