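import Pool.Agent.Lib.MP_ca0fc2_an.Mg.G100
import Pool.Agent.Lib.MP_ca0fc2_an.Mg.G099

section

/-! Campaign DS, row 4: vertical means. -/

set_option autoImplicit false

open Metric Set Filter Topology MeasureTheory
open scoped Real

namespace Pool.Agent.MPca0fc2.DS

/-- the mean over `[-T, T]` -/
noncomputable def mean (T : ℝ) (φ : ℝ → ℂ) : ℂ :=
  ((2 * π)⁻¹ : ℝ) • ∫ θ in (0 : ℝ)..2 * π, φ (T * (θ / π - 1))

theorem s4_mean_cont (T : ℝ) {φ : ℝ → ℂ} (hφ : Continuous φ) :
    Continuous fun θ : ℝ => φ (T * (θ / π - 1)) :=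
  hφ.comp (continuous_const.mul ((continuous_id.div_const π).sub continuous_const))

theorem mean_le {T : ℝ} {φ κ : ℝ → ℂ} {k : ℝ → ℝ} {A : ℝ} (hA0 : 0 ≤ A) (hφ : Continuous φ)
    (hκ : Continuous κ) (hk : Continuous k) (hκk : ∀ t, ‖κ t‖ ≤ k t) (hA : ∀ t, ‖φ t‖ ≤ A) :
    ‖mean T (fun t => φ t * κ t)‖ ≤ A * ‖mean T (fun t => (k t : ℂ))‖ := by
  have h2π : (0 : ℝ) ≤ 2 * π := by positivity
  have hc : Continuous fun θ : ℝ => k (T * (θ / π - 1)) :=
    hk.comp (continuous_const.mul ((continuous_id.div_const π).sub continuous_const))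
  have hk0 : ∀ t, 0 ≤ k t := fun t => (norm_nonneg _).trans (hκk t)
  have h1 : mean T (fun t => (k t : ℂ)) =
      (((2 * π)⁻¹ * ∫ θ in (0 : ℝ)..2 * π, k (T * (θ / π - 1)) : ℝ) : ℂ) := by
    unfold mean
    rw [intervalIntegral.integral_ofReal, Complex.real_smul, ← Complex.ofReal_mul]
  have h2 : 0 ≤ (2 * π)⁻¹ * ∫ θ in (0 : ℝ)..2 * π, k (T * (θ / π - 1)) :=
    mul_nonneg (by positivity) (intervalIntegral.integral_nonneg h2π fun θ _ => hk0 _)
  rw [h1, Complex.norm_real, Real.norm_of_nonneg h2]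
  unfold mean
  rw [norm_smul, Real.norm_of_nonneg (by positivity : (0 : ℝ) ≤ (2 * π)⁻¹)]
  have h3 : ‖∫ θ in (0 : ℝ)..2 * π, φ (T * (θ / π - 1)) * κ (T * (θ / π - 1))‖ ≤
      ∫ θ in (0 : ℝ)..2 * π, A * k (T * (θ / π - 1)) := by
    refine intervalIntegral.norm_integral_le_of_norm_le h2π (Filter.Eventually.of_forall
      fun θ _ => ?_) ((continuous_const.mul hc).intervalIntegrable _ _)
    rw [norm_mul]
    exact mul_le_mul (hA _) (hκk _) (norm_nonneg _) hA0
  rw [intervalIntegral.integral_const_mul] at h3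
  calc (2 * π)⁻¹ * ‖∫ θ in (0 : ℝ)..2 * π, φ (T * (θ / π - 1)) * κ (T * (θ / π - 1))‖
      ≤ (2 * π)⁻¹ * (A * ∫ θ in (0 : ℝ)..2 * π, k (T * (θ / π - 1))) :=
        mul_le_mul_of_nonneg_left h3 (by positivity)
    _ = A * ((2 * π)⁻¹ * ∫ θ in (0 : ℝ)..2 * π, k (T * (θ / π - 1))) := by ring

/-- the mean of an exponential -/
theorem mean_exp_le (T l : ℝ) : ‖mean T fun t => Complex.exp (l * t * Complex.I)‖ ≤ 1 := by
  unfold mean
  rw [norm_smul, Real.norm_of_nonneg (by positivity : (0 : ℝ) ≤ (2 * π)⁻¹)]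
  have h1 : ‖∫ θ in (0 : ℝ)..2 * π, Complex.exp (l * ((T * (θ / π - 1) : ℝ) : ℂ) * Complex.I)‖ ≤
      1 * |2 * π - 0| := by
    refine intervalIntegral.norm_integral_le_of_norm_le_const fun θ _ => ?_
    rw [← Complex.ofReal_mul, Complex.norm_exp_ofReal_mul_I]
  rw [sub_zero, abs_of_nonneg (by positivity), one_mul] at h1
  calc (2 * π)⁻¹ * ‖∫ θ in (0 : ℝ)..2 * π,
        Complex.exp (l * ((T * (θ / π - 1) : ℝ) : ℂ) * Complex.I)‖
      ≤ (2 * π)⁻¹ * (2 * π) := mul_le_mul_of_nonneg_left h1 (by positivity)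
    _ = 1 := inv_mul_cancel₀ (by positivity)

theorem mean_exp_le' {T l : ℝ} (hT : 0 < T) (hl : l ≠ 0) :
    ‖mean T fun t => Complex.exp (l * t * Complex.I)‖ ≤ 1 / (|l| * T) := by
  have hπ : (π : ℂ) ≠ 0 := by exact_mod_cast Real.pi_ne_zero
  have hc : ((l * T / π : ℝ) : ℂ) * Complex.I ≠ 0 := by
    refine mul_ne_zero ?_ Complex.I_ne_zero
    exact_mod_cast div_ne_zero (mul_ne_zero hl hT.ne') Real.pi_ne_zero
  have h1 : (∫ θ in (0 : ℝ)..2 * π, Complex.exp (l * ((T * (θ / π - 1) : ℝ) : ℂ) * Complex.I)) =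
      Complex.exp (((-(l * T) : ℝ) : ℂ) * Complex.I) *
        ((Complex.exp (((l * T / π : ℝ) : ℂ) * Complex.I * ((2 * π : ℝ) : ℂ)) -
          Complex.exp (((l * T / π : ℝ) : ℂ) * Complex.I * ((0 : ℝ) : ℂ))) /
            (((l * T / π : ℝ) : ℂ) * Complex.I)) := by
    rw [← integral_exp_mul_complex hc, ← intervalIntegral.integral_const_mul]
    refine intervalIntegral.integral_congr fun θ _ => ?_
    rw [← Complex.exp_add]
    congr 1
    push_cast
    field_simp
    ring
  unfold mean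
  rw [h1, norm_smul, norm_mul, Complex.norm_exp_ofReal_mul_I, one_mul, norm_div, norm_mul,
    Complex.norm_I, mul_one, Complex.norm_real, Real.norm_eq_abs, Real.norm_eq_abs]
  have h2 : ‖Complex.exp (((l * T / π : ℝ) : ℂ) * Complex.I * ((2 * π : ℝ) : ℂ)) -
      Complex.exp (((l * T / π : ℝ) : ℂ) * Complex.I * ((0 : ℝ) : ℂ))‖ ≤ 2 := by
    refine (norm_sub_le _ _).trans ?_
    have e1 : ((l * T / π : ℝ) : ℂ) * Complex.I * ((2 * π : ℝ) : ℂ) =
        ((l * T / π * (2 * π) : ℝ) : ℂ) * Complex.I := by push_cast; ring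
    have e2 : ((l * T / π : ℝ) : ℂ) * Complex.I * ((0 : ℝ) : ℂ) = ((0 : ℝ) : ℂ) * Complex.I := by
      push_cast; ring
    rw [e1, e2, Complex.norm_exp_ofReal_mul_I, Complex.norm_exp_ofReal_mul_I]
    norm_num
  have h3 : |l * T / π| = |l| * T / π := by
    rw [abs_div, abs_mul, abs_of_pos hT, abs_of_pos Real.pi_pos]
  have hlp : 0 < |l| := abs_pos.2 hl
  rw [h3, abs_of_pos (by positivity : (0 : ℝ) < (2 * π)⁻¹)]
  calc (2 * π)⁻¹ * (‖Complex.exp (((l * T / π : ℝ) : ℂ) * Complex.I * ((2 * π : ℝ) : ℂ)) -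
          Complex.exp (((l * T / π : ℝ) : ℂ) * Complex.I * ((0 : ℝ) : ℂ))‖ / (|l| * T / π))
      ≤ (2 * π)⁻¹ * (2 / (|l| * T / π)) := by gcongr
    _ = 1 / (|l| * T) := by
        field_simp

theorem mean_zero (T : ℝ) : (mean T fun t => Complex.exp (((0 : ℝ) : ℂ) * t * Complex.I)) = 1 := by
  unfold mean
  simp only [Complex.ofReal_zero, zero_mul, Complex.exp_zero]
  rw [intervalIntegral.integral_const, sub_zero, smul_smul, inv_mul_cancel₀ (by positivity), one_smul]

/-- dominated convergence for series, `mean T (exp (i λ t)) = sin (λ T) / (λ T)` -/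
theorem mean_tsum {X : Type*} [Countable X] {c : X → ℂ} {lam : X → ℝ}
    (hc : Summable fun x => ‖c x‖) :
    Tendsto (fun T : ℕ => mean ((T : ℝ) + 1) fun t => ∑' x, c x * Complex.exp (lam x * t * Complex.I))
      atTop (𝓝 (∑' x, if lam x = 0 then c x else 0)) := by
  have h1 : ∀ T : ℝ, (mean T fun t => ∑' x, c x * Complex.exp (lam x * t * Complex.I)) =
      ∑' x, c x * mean T fun t => Complex.exp (lam x * t * Complex.I) := by
    intro T
    have h2 : HasSum (fun x => ∫ θ in (0 : ℝ)..2 * π,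
        c x * Complex.exp (lam x * ((T * (θ / π - 1) : ℝ) : ℂ) * Complex.I))
        (∫ θ in (0 : ℝ)..2 * π,
          ∑' x, c x * Complex.exp (lam x * ((T * (θ / π - 1) : ℝ) : ℂ) * Complex.I)) := by
      refine intervalIntegral.hasSum_integral_of_dominated_convergence (fun x _ => ‖c x‖)
        (fun x => ?_) (fun x => Filter.Eventually.of_forall fun θ _ => ?_)
        (Filter.Eventually.of_forall fun θ _ => hc) ?_ (Filter.Eventually.of_forall fun θ _ => ?_)
      · refine Continuous.aestronglyMeasurable ?_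
        fun_prop
      · rw [norm_mul, ← Complex.ofReal_mul, Complex.norm_exp_ofReal_mul_I, mul_one]
      · exact intervalIntegrable_const
      · refine Summable.hasSum (Summable.of_norm_bounded hc fun x => ?_)
        rw [norm_mul, ← Complex.ofReal_mul, Complex.norm_exp_ofReal_mul_I, mul_one]
    have h3 := h2.const_smul ((2 * π)⁻¹ : ℝ)
    unfold mean
    rw [← h3.tsum_eq]
    refine tsum_congr fun x => ?_
    rw [intervalIntegral.integral_const_mul]
    exact (mul_smul_comm _ _ _).symm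
  simp only [h1]
  refine tendsto_tsum_of_dominated_convergence (bound := fun x => ‖c x‖) hc (fun x => ?_)
    (Filter.Eventually.of_forall fun T x => ?_)
  · by_cases hl : lam x = 0
    · rw [if_pos hl, hl]
      simp only [mean_zero, mul_one]
      exact tendsto_const_nhds
    · rw [if_neg hl, ← mul_zero (c x)]
      refine Tendsto.const_mul _ ?_
      refine squeeze_zero_norm (a := fun T : ℕ => 1 / (|lam x| * ((T : ℝ) + 1))) (fun T =>
        mean_exp_le' (by positivity) hl) ?_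
      have h4 : Tendsto (fun T : ℕ => |lam x| * ((T : ℝ) + 1)) atTop atTop :=
        Tendsto.const_mul_atTop (abs_pos.2 hl)
          (tendsto_atTop_add_const_right _ _ tendsto_natCast_atTop_atTop)
      exact (tendsto_const_nhds (x := (1 : ℝ))).div_atTop h4
  · rw [norm_mul]
    exact mul_le_of_le_one_right (norm_nonneg _) (mean_exp_le _ _)

/-- `PD.M_diff` with `r = 1` -/
theorem mean_diff {U : Set ℂ} (hU : IsOpen U) (T : ℝ) {Φ : ℂ → ℝ → ℂ}
    (hc : ContinuousOn (fun x : ℂ × ℝ => Φ x.1 x.2) (U ×ˢ univ))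
    (hd : ∀ t, DifferentiableOn ℂ (fun s => Φ s t) U) :
    DifferentiableOn ℂ (fun s => mean T (Φ s)) U := by
  have h := PD.M_diff (r := 1) hU (F := fun s (θ : Fin 1 → ℝ) => Φ s (T * (θ 0 / π - 1))) ?_
    (fun θ => hd _)
  · have e : (fun s => mean T (Φ s)) = fun s => PD.M 1 fun (θ : Fin 1 → ℝ) => Φ s (T * (θ 0 / π - 1)) := by
      funext s
      simp only [PD.M, mean, Fin.cons_zero]
    rw [e]
    exact h
  · have h1 : ContinuousOn (fun x : ℂ × (Fin 1 → ℝ) => ((x.1, T * (x.2 0 / π - 1)) : ℂ × ℝ))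
        (U ×ˢ univ) := by
      refine Continuous.continuousOn ?_
      fun_prop
    exact hc.comp h1 fun x hx => ⟨hx.1, mem_univ _⟩

end Pool.Agent.MPca0fc2.DS
end

section

/-! Campaign DS, row 7, first part: the Dirichlet series as a limit of the sums over the smooth
numbers. -/

set_option autoImplicit false

open Metric Set Filter Topology
open scoped ZeroAtInfty

namespace Pool.Agent.MPca0fc2.DS

open Pool.Agent.MPca0fc2.FP

theorem mon_pr {m : ℕ} (s : ℂ) (α : Fin m → ℕ) :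
    mon (fun i : Fin m => (pr i : ℂ) ^ (-s)) α = (nu α : ℂ) ^ (-s) := by
  have h : ∀ F : Finset (Fin m), ∏ i ∈ F, ((pr i : ℂ) ^ (-s)) ^ α i =
      ((∏ i ∈ F, pr i ^ α i : ℕ) : ℂ) ^ (-s) := by
    intro F
    classical
    induction F using Finset.induction_on with
    | empty => simp
    | insert i F hi ih =>
      rw [Finset.prod_insert hi, Finset.prod_insert hi, ih, Nat.cast_mul,
        Complex.natCast_mul_natCast_cpow, Nat.cast_pow]
      congr 1
      rw [← Complex.natCast_cpow_natCast_mul, Complex.cpow_nat_mul]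
  exact h Finset.univ

theorem term_nu {m : ℕ} {a : ℕ → ℂ} (s : ℂ) (α : Fin m → ℕ) :
    a (nu α) * mon (fun i : Fin m => (pr i : ℂ) ^ (-s)) α = LSeries.term a s (nu α) := by
  rw [mon_pr, LSeries.term_of_ne_zero (nu_pos α).ne', Complex.cpow_neg, div_eq_mul_inv]

/-- `∑_α a (nu α) mon (p_i^-s) α` is the sum over the `p_m`-smooth numbers; dominated convergence
for `Re s > 1`. -/
theorem smooth_tendsto {a : ℕ → ℂ} {A : ℝ} (ha : ∀ n, n ≠ 0 → ‖a n‖ ≤ A) {s : ℂ} (hs : 1 < s.re) :
    Tendsto (fun m : ℕ => ∑' α : Fin m → ℕ, a (nu α) * mon (fun i : Fin m => (pr i : ℂ) ^ (-s)) α)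
      atTop (𝓝 (LSeries a s)) := by
  classical
  have h1 : ∀ m : ℕ, ∑' α : Fin m → ℕ, a (nu α) * mon (fun i : Fin m => (pr i : ℂ) ^ (-s)) α =
      ∑' n : ℕ, (range (nu (m := m))).indicator (LSeries.term a s) n := by
    intro m
    rw [← tsum_subtype, tsum_congr fun α => term_nu s α]
    exact (tsum_range (f := LSeries.term a s) (nu_inj (m := m))).symm
  simp only [h1]
  have hsum : Summable fun n : ℕ => ‖LSeries.term a s n‖ :=
    (LSeriesSummable_of_le_const_mul_rpow (x := 1) (by linarith)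
      ⟨A, fun n hn => by simpa using ha n hn⟩ : LSeriesSummable a s).norm
  refine tendsto_tsum_of_dominated_convergence hsum ?_ ?_
  · intro n
    rcases Nat.eq_zero_or_pos n with h0 | hn
    · refine tendsto_const_nhds.congr fun m => ?_
      subst h0
      rw [indicator_apply, LSeries.term_zero, ite_self]
    · refine tendsto_const_nhds.congr' ?_
      filter_upwards [nu_exhaust hn] with m hm
      rw [indicator_of_mem]
      exact hm
  · exact Eventually.of_forall fun m n => by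
      rw [norm_indicator_eq_indicator_norm]
      exact indicator_le_self' (fun _ _ => norm_nonneg _) n

end Pool.Agent.MPca0fc2.DS
end

section

/-! Campaign DS, row 8a: the coefficients of the finite sections. -/

set_option autoImplicit false

open Metric Set Filter Topology
open scoped ZeroAtInfty

namespace Pool.Agent.MPca0fc2.DS

open Pool.Agent.MPca0fc2.FP

/-- extension by zero of a point of the section of dimension `m` -/
theorem s8_inc_snoc {m : ℕ} (z : Fin m → ℂ) : inc (m + 1) (Fin.snoc z 0) = inc m z := by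
  unfold inc
  rw [Fin.sum_univ_castSucc]
  simp

theorem s8_mem {m : ℕ} {z : Fin m → ℂ} (hz : z ∈ ball (0 : Fin m → ℂ) 1) :
    (Fin.snoc z 0 : Fin (m + 1) → ℂ) ∈ ball (0 : Fin (m + 1) → ℂ) 1 := by
  rw [mem_ball_zero_iff, pi_norm_lt_iff one_pos] at hz ⊢
  intro i
  refine Fin.lastCases ?_ (fun j => ?_) i
  · simp
  · simpa using hz j

theorem s8_mon_snoc {m : ℕ} (z : Fin m → ℂ) (α : Fin (m + 1) → ℕ) :
    mon (Fin.snoc z 0 : Fin (m + 1) → ℂ) α = mon z (fun i => α i.castSucc) * 0 ^ α (Fin.last m) := by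
  unfold mon
  rw [Fin.prod_univ_castSucc]
  simp

theorem s8_snoc_inj {m : ℕ} : Function.Injective (fun α : Fin m → ℕ => (Fin.snoc α 0 : Fin (m + 1) → ℕ)) := by
  intro α β h
  funext i
  have := congrFun h i.castSucc
  simpa using this

theorem s8_nu_snoc {m : ℕ} (α : Fin m → ℕ) : nu (Fin.snoc α 0 : Fin (m + 1) → ℕ) = nu α := by
  unfold nu
  rw [Fin.prod_univ_castSucc]
  simp

/-- all coefficients of the finite sections -/
theorem exists_coef {H : c0 → ℂ} {A : ℝ} (hH : DifferentiableOn ℂ H (ball 0 1))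
    (hA : ∀ x ∈ ball (0 : c0) 1, ‖H x‖ ≤ A) : ∃ a : ℕ → ℂ, (∀ n, ‖a n‖ ≤ A) ∧
      ∀ (m : ℕ) (z : Fin m → ℂ), z ∈ ball (0 : Fin m → ℂ) 1 →
        HasSum (fun α => a (nu α) * mon z α) (H (inc m z)) := by
  have hA0 : 0 ≤ A := (norm_nonneg _).trans (hA 0 (mem_ball_self one_pos))
  have hmem : ∀ (m : ℕ) (z : Fin m → ℂ), z ∈ ball (0 : Fin m → ℂ) 1 → inc m z ∈ ball (0 : c0) 1 := by
    intro m z hz
    rw [mem_ball_zero_iff] at hz ⊢
    rwa [inc_norm]
  have hex : ∀ m : ℕ, ∃ c : (Fin m → ℕ) → ℂ, (∀ α, ‖c α‖ ≤ A) ∧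
      ∀ z ∈ ball (0 : Fin m → ℂ) 1, HasSum (fun α => c α * mon z α) (H (inc m z)) := by
    intro m
    refine exists_expansion (h := fun z => H (inc m z)) ?_ fun z hz => hA _ (hmem m z hz)
    exact hH.comp (inc_diff m).differentiableOn fun z hz => hmem m z hz
  choose c hcA hc using hex
  -- compatibility
  have hcomp : ∀ (m : ℕ) (α : Fin m → ℕ), c (m + 1) (Fin.snoc α 0) = c m α := by
    intro m
    have h1 : (fun α : Fin m → ℕ => c (m + 1) (Fin.snoc α 0)) = c m := by
      refine expansion_unique (A := A) (fun α => hcA _ _) (hcA m) fun z hz => ?_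
      rw [(hc m z hz).tsum_eq]
      have h2 := hc (m + 1) (Fin.snoc z 0) (s8_mem hz)
      rw [s8_inc_snoc] at h2
      have h3 : HasSum ((fun β : Fin (m + 1) → ℕ => c (m + 1) β * mon (Fin.snoc z 0 : Fin (m + 1) → ℂ) β) ∘
          fun α : Fin m → ℕ => (Fin.snoc α 0 : Fin (m + 1) → ℕ)) (H (inc m z)) := by
        refine (s8_snoc_inj.hasSum_iff ?_).2 h2
        intro β hβ
        have h4 : β (Fin.last m) ≠ 0 := by
          intro h0
          refine hβ ⟨fun i => β i.castSucc, ?_⟩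
          funext i
          refine Fin.lastCases ?_ (fun j => ?_) i
          · simp [h0]
          · simp
        rw [s8_mon_snoc, zero_pow h4]
        simp
      rw [← h3.tsum_eq]
      refine tsum_congr fun α => ?_
      simp [s8_mon_snoc]
    intro α
    exact congrFun h1 α
  -- the family on finitely supported sequences
  have hstep : ∀ (f : ℕ → ℕ) (m : ℕ), (∀ i, m ≤ i → f i = 0) → ∀ k, m ≤ k →
      c k (fun i : Fin k => f i) = c m (fun i : Fin m => f i) ∧
        nu (fun i : Fin k => f i) = nu (fun i : Fin m => f i) := by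
    intro f m hf k hk
    induction k, hk using Nat.le_induction with
    | base => exact ⟨rfl, rfl⟩
    | succ k hk ih =>
      have h1 : (fun i : Fin (k + 1) => f i) = Fin.snoc (fun i : Fin k => f i) 0 := by
        funext i
        refine Fin.lastCases ?_ (fun j => ?_) i
        · simp [hf k hk]
        · simp
      rw [h1, hcomp, s8_nu_snoc]
      exact ih
  have hwd : ∀ (m k : ℕ) (α : Fin m → ℕ) (β : Fin k → ℕ), nu α = nu β → c m α = c k β := by
    intro m k α β h
    obtain ⟨f, hf⟩ : ∃ f : ℕ → ℕ, f = fun i => if h : i < m then α ⟨i, h⟩ else 0 := ⟨_, rfl⟩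
    obtain ⟨g, hg⟩ : ∃ g : ℕ → ℕ, g = fun i => if h : i < k then β ⟨i, h⟩ else 0 := ⟨_, rfl⟩
    have hfα : (fun i : Fin m => f i) = α := by
      funext i
      simp [hf]
    have hgβ : (fun i : Fin k => g i) = β := by
      funext i
      simp [hg]
    have hf0 : ∀ i, m ≤ i → f i = 0 := by
      intro i hi
      simp [hf, not_lt.2 hi]
    have hg0 : ∀ i, k ≤ i → g i = 0 := by
      intro i hi
      simp [hg, not_lt.2 hi]
    obtain ⟨h1, h2⟩ := hstep f m hf0 (max m k) (le_max_left _ _)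
    obtain ⟨h3, h4⟩ := hstep g k hg0 (max m k) (le_max_right _ _)
    rw [hfα] at h1 h2
    rw [hgβ] at h3 h4
    have h5 : (fun i : Fin (max m k) => f i) = fun i : Fin (max m k) => g i := by
      refine nu_inj ?_
      rw [h2, h4, h]
    rw [← h1, ← h3, h5]
  have hval : ∀ n : ℕ, ∃ v : ℂ, ‖v‖ ≤ A ∧ ∀ (m : ℕ) (α : Fin m → ℕ), nu α = n → c m α = v := by
    intro n
    by_cases h : ∃ (m : ℕ) (α : Fin m → ℕ), nu α = n
    · obtain ⟨k, β, hβ⟩ := h
      exact ⟨c k β, hcA k β, fun m α hα => hwd _ _ _ _ (hα.trans hβ.symm)⟩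
    · exact ⟨0, by simpa using hA0, fun m α hα => absurd ⟨m, α, hα⟩ h⟩
  choose a haA ha using hval
  refine ⟨a, haA, fun m z hz => ?_⟩
  have h1 : (fun α : Fin m → ℕ => a (nu α) * mon z α) = fun α => c m α * mon z α := by
    funext α
    rw [ha (nu α) m α rfl]
  rw [h1]
  exact hc m z hz

end Pool.Agent.MPca0fc2.DS
end
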