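import Pool.Agent.Lib.MP_ca0fc2_an.Mg.G100

section

/-! Campaign PD, row E, second half. -/

set_option autoImplicit false

open Metric Set MeasureTheory
open scoped Real ComplexConjugate

namespace Pool.Agent.MPca0fc2.PD

variable {n : ℕ}

/-- the field of `P k u w` -/
noncomputable def fld (k : ℕ) (u w : En n) (y : En n) : En n :=
  inner ℂ w y ^ k • u -
    (((k : ℂ) / (k + n - 1)) * inner ℂ w u * inner ℂ w y ^ (k - 1)) • y

theorem hasFDerivAt_inner (w y : En n) :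
    HasFDerivAt (fun y : En n => inner ℂ w y) (innerSL ℂ w : En n →L[ℂ] ℂ) y :=
  (innerSL ℂ w : En n →L[ℂ] ℂ).hasFDerivAt

theorem fld_diff (k : ℕ) (u w : En n) : Differentiable ℂ (fld k u w) := by
  have h : Differentiable ℂ (fun y : En n => inner ℂ w y) := fun y =>
    (hasFDerivAt_inner w y).differentiableAt
  unfold fld
  exact ((h.pow k).smul_const u).sub (((h.pow (k - 1)).const_mul _).smul differentiable_id)

theorem fld_inner (k : ℕ) (u w y : En n) : P k u w y = inner ℂ y (fld k u w y) := by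
  have e : (inner ℂ y y : ℂ) = ((‖y‖ ^ 2 : ℝ) : ℂ) := by
    rw [inner_self_eq_norm_sq_to_K]
    push_cast
    rfl
  unfold P fld
  rw [inner_sub_right, inner_smul_right, inner_smul_right, e]
  ring

theorem sum_conj_mul (w u : En n) : ∑ a, inner ℂ w (EuclideanSpace.single a (1 : ℂ)) * u a =
    inner ℂ w u := by
  rw [PiLp.inner_apply]
  refine Finset.sum_congr rfl fun a _ => ?_
  rw [EuclideanSpace.inner_single_right]
  simp [mul_comm]

theorem fld_div (hn : 2 ≤ n) (k : ℕ) (u w y : En n) :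
    ∑ a, fderiv ℂ (fld k u w) y (EuclideanSpace.single a 1) a = 0 := by
  set c : ℂ := ((k : ℂ) / (k + n - 1)) * inner ℂ w u with hc
  have h0 := hasFDerivAt_inner w y
  have h1 : HasFDerivAt (fun y : En n => inner ℂ w y ^ k)
      ((k * inner ℂ w y ^ (k - 1)) • (innerSL ℂ w : En n →L[ℂ] ℂ)) y := by
    have := h0.pow k
    simpa [smul_smul] using this
  have h2 : HasFDerivAt (fun y : En n => inner ℂ w y ^ (k - 1))
      (((k - 1 : ℕ) * inner ℂ w y ^ (k - 1 - 1)) • (innerSL ℂ w : En n →L[ℂ] ℂ)) y := by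
    have := h0.pow (k - 1)
    simpa [smul_smul] using this
  have h3 := (h1.smul_const u).sub ((h2.const_mul c).smul (hasFDerivAt_id y))
  have e : fld k u w = ((fun y => inner ℂ w y ^ k • u) -
      (fun y => c * inner ℂ w y ^ (k - 1)) • id) := by
    funext z
    rfl
  rw [e, h3.fderiv]
  have hs : ∀ a : Fin n, (EuclideanSpace.single a (1 : ℂ)) a = 1 := fun a => by simp
  have hterm : ∀ a : Fin n,
      ((((k * inner ℂ w y ^ (k - 1)) • (innerSL ℂ w : En n →L[ℂ] ℂ)).smulRight u -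
      ((c * inner ℂ w y ^ (k - 1)) • ContinuousLinearMap.id ℂ (En n) +
        (c • (((k - 1 : ℕ) * inner ℂ w y ^ (k - 1 - 1)) • (innerSL ℂ w : En n →L[ℂ] ℂ))).smulRight
          (id y))) (EuclideanSpace.single a 1)) a =
      k * inner ℂ w y ^ (k - 1) * (inner ℂ w (EuclideanSpace.single a (1 : ℂ)) * u a) -
        (c * inner ℂ w y ^ (k - 1) + c * ((k - 1 : ℕ) * inner ℂ w y ^ (k - 1 - 1)) *
          (inner ℂ w (EuclideanSpace.single a (1 : ℂ)) * y a)) := by
    intro a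
    simp [mul_assoc]
  rw [Finset.sum_congr rfl fun a _ => hterm a, Finset.sum_sub_distrib, Finset.sum_add_distrib,
    ← Finset.mul_sum, ← Finset.mul_sum (f := fun a => inner ℂ w (EuclideanSpace.single a (1 : ℂ)) *
      y a), sum_conj_mul, sum_conj_mul, Finset.sum_const,
    Finset.card_univ, Fintype.card_fin, nsmul_eq_mul]
  rcases Nat.eq_zero_or_pos k with h | h
  · subst h
    simp [hc]
  · have hk : ((k - 1 : ℕ) : ℂ) = k - 1 := by push_cast [Nat.cast_sub h]; ring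
    have hne : (k : ℂ) + n - 1 ≠ 0 := by
      have h1 : ((k + n - 1 : ℕ) : ℂ) = (k : ℂ) + n - 1 := by
        rw [Nat.cast_sub (by omega)]
        push_cast
        ring
      rw [← h1]
      exact_mod_cast (by omega : k + n - 1 ≠ 0)
    have hpow : ((k : ℂ) - 1) * (inner ℂ w y ^ (k - 1 - 1) * inner ℂ w y) =
        (k - 1) * inner ℂ w y ^ (k - 1) := by
      rcases Nat.lt_or_ge 1 k with h5 | h5
      · rw [← pow_succ, show k - 1 - 1 + 1 = k - 1 by omega]
      · have : k = 1 := by omega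
        subst this
        simp
    rw [hk, hc]
    have e2 : (k : ℂ) / (k + n - 1) * inner ℂ w u * (((k : ℂ) - 1) * inner ℂ w y ^ (k - 1 - 1)) *
        inner ℂ w y = (k : ℂ) / (k + n - 1) * inner ℂ w u *
          (((k : ℂ) - 1) * (inner ℂ w y ^ (k - 1 - 1) * inner ℂ w y)) := by ring
    rw [e2, hpow]
    field_simp
    ring

theorem W_field (hn : 2 ≤ n) {R : ℕ} {p : En n → ℂ} (hp : p ∈ W n R) :
    ∃ g : En n → En n, Differentiable ℂ g ∧ (∀ y, p y = inner ℂ y (g y)) ∧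
      ∀ y, ∑ a, fderiv ℂ g y (EuclideanSpace.single a 1) a = 0 := by
  unfold W at hp
  induction hp using Submodule.span_induction with
  | mem p hp =>
    obtain ⟨k, -, u, w, rfl⟩ := hp
    exact ⟨fld k u w, fld_diff k u w, fld_inner k u w, fld_div hn k u w⟩
  | zero => exact ⟨fun _ => 0, by fun_prop, fun y => by simp, fun y => by simp⟩
  | add p q _ _ hp hq =>
    obtain ⟨g, g1, g2, g3⟩ := hp
    obtain ⟨h, h1, h2, h3⟩ := hq
    refine ⟨g + h, g1.add h1, fun y => ?_, fun y => ?_⟩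
    · rw [Pi.add_apply, Pi.add_apply, inner_add_right, g2, h2]
    · rw [fderiv_add (g1 y) (h1 y)]
      have : ∀ a : Fin n, ((fderiv ℂ g y + fderiv ℂ h y) (EuclideanSpace.single a 1)) a =
          (fderiv ℂ g y (EuclideanSpace.single a 1)) a +
            (fderiv ℂ h y (EuclideanSpace.single a 1)) a := fun a => rfl
      rw [Finset.sum_congr rfl fun a _ => this a, Finset.sum_add_distrib, g3, h3, add_zero]
  | smul c p _ hp =>
    obtain ⟨g, g1, g2, g3⟩ := hp
    refine ⟨c • g, g1.const_smul c, fun y => ?_, fun y => ?_⟩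
    · rw [Pi.smul_apply, Pi.smul_apply, inner_smul_right, g2, smul_eq_mul]
    · rw [fderiv_const_smul (g1 y)]
      have : ∀ a : Fin n, ((c • fderiv ℂ g y) (EuclideanSpace.single a 1)) a =
          c * (fderiv ℂ g y (EuclideanSpace.single a 1)) a := fun a => rfl
      rw [Finset.sum_congr rfl fun a _ => this a, ← Finset.mul_sum, g3, mul_zero]

/-- the frequency `-1` -/
theorem Q_neg' {p : En n → ℂ} {g : En n → En n} (hg : Differentiable ℂ g)
    (hpg : ∀ y, p y = inner ℂ y (g y)) (v y : En n) :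
    Q v 0 p y = inner ℂ y v * inner ℂ v (g (D v 0 y)) := by
  have hD : ∀ s : ℂ, D v s y = D v 0 y + (s * inner ℂ v y) • v := by
    intro s
    unfold D
    rw [add_assoc, ← add_smul]
    congr 2
    ring
  have hdiff : Differentiable ℂ (fun s : ℂ => g (D v s y)) := by
    refine hg.comp ?_
    have : (fun s : ℂ => D v s y) = fun s : ℂ => D v 0 y + (s * inner ℂ v y) • v := funext hD
    rw [this]
    fun_prop
  have key : ∀ s : ℝ, p (D v (ec s) y) * (ec s * conj (ec s) ^ 0) =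
      ec s * inner ℂ (D v 0 y) (g (D v (ec s) y)) +
        inner ℂ y v * inner ℂ v (g (D v (ec s) y)) := by
    intro s
    have hs : conj (ec s) * ec s = 1 := by
      unfold ec
      rw [← Complex.exp_conj, ← Complex.exp_add]
      simp
    rw [hpg, pow_zero, mul_one]
    have e1 : inner ℂ (D v (ec s) y) (g (D v (ec s) y)) = inner ℂ (D v 0 y) (g (D v (ec s) y)) +
        conj (ec s) * inner ℂ y v * inner ℂ v (g (D v (ec s) y)) := by
      conv_lhs => rw [hD (ec s)]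
      rw [inner_add_left, inner_smul_left, map_mul, inner_conj_symm]
      conv_rhs => rw [hD (ec s)]
    rw [e1]
    linear_combination (inner ℂ y v * inner ℂ v (g (D v (ec s) y))) * hs
  have hav : ∀ f : ℂ → ℂ, Differentiable ℂ f →
      ((2 * π)⁻¹ : ℝ) • ∫ s in (0 : ℝ)..2 * π, f (ec s) = f 0 := by
    intro f hf
    have := (hf.diffContOnCl (s := ball (0 : ℂ) |(1 : ℝ)|)).circleAverage
    rw [Real.circleAverage_def] at this
    rw [← this]
    congr 1
    refine intervalIntegral.integral_congr fun s _ => ?_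
    simp [ec, circleMap]
  have hd1 : Differentiable ℂ fun s : ℂ => s * inner ℂ (D v 0 y) (g (D v s y)) :=
    differentiable_id.mul ((innerSL ℂ (D v 0 y) : En n →L[ℂ] ℂ).differentiable.comp hdiff)
  have hd2 : Differentiable ℂ fun s : ℂ => inner ℂ y v * inner ℂ v (g (D v s y)) :=
    ((innerSL ℂ v : En n →L[ℂ] ℂ).differentiable.comp hdiff).const_mul _
  have hec : Continuous ec := by
    unfold ec
    fun_prop
  unfold Q
  simp only [key]
  rw [intervalIntegral.integral_add, smul_add, hav _ hd1, hav _ hd2, zero_mul, zero_add]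
  · exact (hd1.continuous.comp hec).intervalIntegrable _ _
  · exact (hd2.continuous.comp hec).intervalIntegrable _ _

/-- the frequency `-1`: `Q v 0 p y = conj ⟨y, v⟩ ⟨g (y - ⟨y, v⟩ v), v⟩` -/
theorem Q_neg {R : ℕ} {p : En n → ℂ} (_hp : p ∈ W n R) {g : En n → En n} (hg : Differentiable ℂ g)
    (hpg : ∀ y, p y = inner ℂ y (g y)) {v : En n} (_hv : ‖v‖ = 1) (y : En n) :
    Q v 0 p y = inner ℂ y v * inner ℂ v (g (D v 0 y)) :=
  Q_neg' hg hpg v y

theorem field_zero (hn : 2 ≤ n) {g : En n → En n} (hg : Differentiable ℂ g)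
    (hdiv : ∀ y, ∑ a, fderiv ℂ g y (EuclideanSpace.single a 1) a = 0)
    (h : ∀ v : En n, ‖v‖ = 1 → ∀ y ∈ ball (0 : En n) 1, inner ℂ y v * inner ℂ v (g (D v 0 y)) = (0 : ℂ)) :
    ∀ y ∈ ball (0 : En n) 1, g y = 0 := by
  -- orthogonality
  have h1 : ∀ u ∈ ball (0 : En n) 1, ∀ v : En n, inner ℂ v u = 0 → inner ℂ v (g u) = 0 := by
    intro u hu v hvu
    rcases eq_or_ne v 0 with rfl | hv
    · simp
    set v' : En n := ((‖v‖ : ℂ)⁻¹) • v with hv'
    have hnv : ‖v‖ ≠ 0 := norm_ne_zero_iff.mpr hv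
    have hv1 : ‖v'‖ = 1 := by
      rw [hv', norm_smul, norm_inv, Complex.norm_real, norm_norm, inv_mul_cancel₀ hnv]
    have hvu' : inner ℂ v' u = 0 := by rw [hv', inner_smul_left, hvu, mul_zero]
    have hu1 : ‖u‖ < 1 := by simpa using hu
    set δ : ℝ := (1 - ‖u‖) / 2 with hδ
    have hδ0 : 0 < δ := by rw [hδ]; linarith
    have hy : u + (δ : ℂ) • v' ∈ ball (0 : En n) 1 := by
      rw [mem_ball_zero_iff]
      calc ‖u + (δ : ℂ) • v'‖ ≤ ‖u‖ + ‖(δ : ℂ) • v'‖ := norm_add_le _ _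
        _ = ‖u‖ + δ := by
          rw [norm_smul, hv1, mul_one, Complex.norm_real, Real.norm_eq_abs, abs_of_pos hδ0]
        _ < 1 := by rw [hδ]; linarith
    have h2 := h v' hv1 _ hy
    have hvv : inner ℂ v' v' = (1 : ℂ) := by
      rw [inner_self_eq_norm_sq_to_K, hv1]
      simp
    have e1 : D v' 0 (u + (δ : ℂ) • v') = u := by
      unfold D
      rw [inner_add_right, inner_smul_right, hvu', hvv]
      simp
    rw [e1, inner_add_left, inner_smul_left, hvv] at h2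
    have h3 : inner ℂ u v' = (0 : ℂ) := by rw [← inner_conj_symm, hvu', map_zero]
    rw [h3] at h2
    have h4 : inner ℂ v' (g u) = (0 : ℂ) := by
      have hne : ((0 : ℂ) + conj (δ : ℂ) * 1) ≠ 0 := by
        simp only [zero_add, mul_one, Complex.conj_ofReal]
        exact_mod_cast hδ0.ne'
      exact (mul_eq_zero.mp h2).resolve_left hne
    rw [hv', inner_smul_left] at h4
    refine (mul_eq_zero.mp h4).resolve_left ?_
    simpa using hnv
  -- proportionality
  have h2 : ∀ u ∈ ball (0 : En n) 1, ∀ a b : Fin n, g u a * u b = g u b * u a := by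
    intro u hu a b
    rcases eq_or_ne a b with rfl | hab
    · rfl
    have h3 := h1 u hu (EuclideanSpace.single a (conj (u b)) - EuclideanSpace.single b (conj (u a)))
      (by
        rw [inner_sub_left, EuclideanSpace.inner_single_left, EuclideanSpace.inner_single_left]
        simp
        ring)
    rw [inner_sub_left, EuclideanSpace.inner_single_left, EuclideanSpace.inner_single_left] at h3
    simp only [starRingEnd_self_apply] at h3
    linear_combination h3
  have hga : ∀ a (y : En n), HasFDerivAt (fun y => g y a)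
      ((EuclideanSpace.proj a : En n →L[ℂ] ℂ).comp (fderiv ℂ g y)) y := by
    intro a y
    exact (EuclideanSpace.proj a : En n →L[ℂ] ℂ).hasFDerivAt.comp y (hg y).hasFDerivAt
  have hua : ∀ b (y : En n), HasFDerivAt (fun y : En n => y b)
      (EuclideanSpace.proj b : En n →L[ℂ] ℂ) y := by
    intro b y
    exact (EuclideanSpace.proj b : En n →L[ℂ] ℂ).hasFDerivAt
  have h3 : ∀ u ∈ ball (0 : En n) 1, ∀ a : Fin n,
      fderiv ℂ g u u a + (n - 1) * g u a = 0 := by
    intro u hu a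
    have e1 : ∀ b : Fin n, g u a * (1 : ℂ) + u b * (fderiv ℂ g u (EuclideanSpace.single b 1)) a =
        g u b * (EuclideanSpace.single b (1 : ℂ) : En n) a +
          u a * (fderiv ℂ g u (EuclideanSpace.single b 1)) b := by
      intro b
      have f1 : HasFDerivAt (fun y : En n => g y a * y b) _ u := (hga a u).mul (hua b u)
      have f2 : HasFDerivAt (fun y : En n => g y b * y a) _ u := (hga b u).mul (hua a u)
      have f3 : (fun y => g y a * y b) =ᶠ[nhds u] fun y => g y b * y a := by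
        filter_upwards [isOpen_ball.mem_nhds hu] with y hy using h2 y hy a b
      have f4 := f3.fderiv_eq (𝕜 := ℂ)
      rw [f1.fderiv, f2.fderiv] at f4
      have f5 := congrArg (fun L : En n →L[ℂ] ℂ => L (EuclideanSpace.single b 1)) f4
      simpa using f5
    have e2 := Finset.sum_congr rfl fun b (_ : b ∈ Finset.univ) => e1 b
    rw [Finset.sum_add_distrib, Finset.sum_add_distrib, ← Finset.mul_sum (a := u a), hdiv,
      mul_zero, add_zero] at e2
    have e3 : ∑ b : Fin n, g u b * (EuclideanSpace.single b (1 : ℂ) : En n) a = g u a := by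
      rw [Finset.sum_eq_single a]
      · simp
      · intro b _ hb
        simp [hb.symm]
      · simp
    have e4 : ∑ b : Fin n, u b * (fderiv ℂ g u (EuclideanSpace.single b 1)) a =
        (fderiv ℂ g u u) a := by
      have e5 : u = ∑ b : Fin n, u b • (EuclideanSpace.single b (1 : ℂ) : En n) := by
        ext i
        simp [Finset.sum_apply, Pi.single_apply]
      conv_rhs => rw [show fderiv ℂ g u u = fderiv ℂ g u (∑ b : Fin n, u b •
        (EuclideanSpace.single b (1 : ℂ) : En n)) by rw [← e5]]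
      rw [map_sum]
      simp
    rw [e3, e4] at e2
    simp only [mul_one, Finset.sum_const, Finset.card_univ, Fintype.card_fin, nsmul_eq_mul] at e2
    linear_combination e2
  -- rays
  intro u hu
  have hu1 : ‖u‖ < 1 := by simpa using hu
  set φ : ℝ → En n := fun τ => ((τ : ℂ) ^ (n - 1)) • g ((τ : ℂ) • u) with hφ
  have hline : ∀ τ : ℝ, HasDerivAt (fun τ : ℝ => (τ : ℂ) • u) u τ := by
    intro τ
    have := (Complex.ofRealCLM.hasDerivAt (x := τ)).smul_const u
    simpa using this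
  have hderiv : ∀ τ : ℝ, HasDerivAt φ (((n - 1 : ℕ) * (τ : ℂ) ^ (n - 1 - 1)) • g ((τ : ℂ) • u) +
      ((τ : ℂ) ^ (n - 1)) • fderiv ℂ g ((τ : ℂ) • u) u) τ := by
    intro τ
    have d1 : HasDerivAt (fun τ : ℝ => (τ : ℂ) ^ (n - 1))
        ((n - 1 : ℕ) * (τ : ℂ) ^ (n - 1 - 1)) τ := by
      have : HasDerivAt (fun τ : ℝ => (τ : ℂ) ^ (n - 1)) _ τ :=
        (Complex.ofRealCLM.hasDerivAt (x := τ)).pow (n - 1)
      simpa using this
    have d2 : HasDerivAt (fun τ : ℝ => g ((τ : ℂ) • u)) (fderiv ℂ g ((τ : ℂ) • u) u) τ := by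
      have := ((hg ((τ : ℂ) • u)).hasFDerivAt.restrictScalars ℝ).comp_hasDerivAt τ (hline τ)
      exact this
    have := d1.smul d2
    rw [add_comm]
    exact this
  have hzero : ∀ τ ∈ Set.Ico (0 : ℝ) 1, HasDerivWithinAt φ 0 (Set.Ici τ) τ := by
    intro τ hτ
    have hb : (τ : ℂ) • u ∈ ball (0 : En n) 1 := by
      rw [mem_ball_zero_iff, norm_smul, Complex.norm_real, Real.norm_eq_abs, abs_of_nonneg hτ.1]
      nlinarith [norm_nonneg u, hτ.1, hτ.2]
    have e0 : ((n - 1 : ℕ) * (τ : ℂ) ^ (n - 1 - 1)) • g ((τ : ℂ) • u) +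
      ((τ : ℂ) ^ (n - 1)) • fderiv ℂ g ((τ : ℂ) • u) u = 0 := by
      have hp : (τ : ℂ) ^ (n - 1) = (τ : ℂ) ^ (n - 1 - 1) * τ := by
        rw [← pow_succ, show n - 1 - 1 + 1 = n - 1 by omega]
      ext a
      have := h3 _ hb a
      rw [map_smul] at this
      have hc : ((n - 1 : ℕ) : ℂ) = n - 1 := by
        rw [Nat.cast_sub (by omega)]
        simp
      simp only [PiLp.add_apply, PiLp.smul_apply, smul_eq_mul, PiLp.zero_apply] at this ⊢
      rw [hp, hc]
      linear_combination (τ : ℂ) ^ (n - 1 - 1) * this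
    have := (hderiv τ).hasDerivWithinAt (s := Set.Ici τ)
    rw [e0] at this
    exact this
  have hcont : ContinuousOn φ (Set.Icc 0 1) := fun τ _ =>
    (hderiv τ).continuousAt.continuousWithinAt
  have hconst := constant_of_has_deriv_right_zero hcont hzero 1 ⟨zero_le_one, le_rfl⟩
  have e1 : φ 1 = g u := by simp [hφ]
  have e2 : φ 0 = 0 := by
    simp only [hφ, Complex.ofReal_zero]
    rw [zero_pow (by omega), zero_smul]
  rw [← e1, hconst, e2]

theorem kernel_zero (hn : 2 ≤ n) {R : ℕ} {p : En n → ℂ} (hp : p ∈ W n R)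
    (h : ∀ v : En n, ‖v‖ = 1 → ∀ y ∈ ball (0 : En n) 1, Q v 0 p y = 0) :
    ∀ y, p y = 0 := by
  obtain ⟨g, g1, g2, g3⟩ := W_field hn hp
  have h1 := field_zero hn g1 g3 fun v hv y hy => by
    rw [← Q_neg' g1 g2 v y]
    exact h v hv y hy
  intro y
  have h2 : g y = 0 := by
    have hd : Differentiable ℂ fun s : ℂ => g (s • y) := g1.comp (by fun_prop)
    have hz : (fun s : ℂ => g (s • y)) =ᶠ[nhds 0] 0 := by
      have hc : Continuous fun s : ℂ => s • y := by fun_prop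
      have : (fun s : ℂ => s • y) ⁻¹' ball 0 1 ∈ nhds (0 : ℂ) :=
        hc.continuousAt.preimage_mem_nhds (isOpen_ball.mem_nhds (by simp))
      filter_upwards [this] with s hs using h1 _ hs
    have ha : AnalyticOnNhd ℂ (fun s : ℂ => g (s • y)) Set.univ :=
      hd.differentiableOn.analyticOnNhd isOpen_univ
    have := ha.eqOn_zero_of_preconnected_of_eventuallyEq_zero isPreconnected_univ
      (Set.mem_univ 0) hz (Set.mem_univ 1)
    simpa using this
  rw [g2, h2, inner_zero_right]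

end Pool.Agent.MPca0fc2.PD
end

section

/-! Campaign PD, row I, first part: the Szegő kernel. -/

set_option autoImplicit false

open Metric Set MeasureTheory Filter Topology
open scoped Real ComplexConjugate

namespace Pool.Agent.MPca0fc2.PD

variable {n : ℕ}

theorem norm_inner_lt {w y : En n} (h : ‖w‖ * ‖y‖ < 1) : ‖(inner ℂ y w : ℂ)‖ < 1 :=
  lt_of_le_of_lt (norm_inner_le_norm y w) (by rwa [mul_comm])

/-- `K w y = ∑ c_k ⟨w, y⟩^k`, `c_k = choose (k + n - 1) (n - 1)` (`hasSum_choose_mul_geometric_of_norm_lt_one`) -/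
theorem K_hasSum (hn : 2 ≤ n) {w y : En n} (h : ‖w‖ * ‖y‖ < 1) :
    HasSum (fun k : ℕ => ((k + (n - 1)).choose (n - 1) : ℂ) * (inner ℂ y w : ℂ) ^ k) (K w y) := by
  have h1 := hasSum_choose_mul_geometric_of_norm_lt_one (n - 1) (norm_inner_lt h)
  have h2 : n - 1 + 1 = n := by omega
  rw [h2, one_div] at h1
  exact h1

theorem one_sub_norm_le {w y : En n} (hy : ‖y‖ ≤ 1) : 1 - ‖w‖ ≤ ‖1 - (inner ℂ y w : ℂ)‖ := by
  have h1 : ‖(inner ℂ y w : ℂ)‖ ≤ ‖w‖ :=
    (norm_inner_le_norm y w).trans (by nlinarith [norm_nonneg w, norm_nonneg y])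
  have h2 := norm_sub_norm_le (1 : ℂ) (inner ℂ y w : ℂ)
  rw [norm_one] at h2
  linarith

theorem one_sub_ne {w y : En n} (hw : ‖w‖ < 1) (hy : ‖y‖ ≤ 1) : 1 - (inner ℂ y w : ℂ) ≠ 0 := by
  have := one_sub_norm_le (w := w) hy
  intro h
  rw [h, norm_zero] at this
  linarith

theorem K_norm_le {w y : En n} (hw : ‖w‖ < 1) (hy : ‖y‖ ≤ 1) : ‖K w y‖ ≤ ((1 - ‖w‖) ^ n)⁻¹ := by
  have h1 := one_sub_norm_le (w := w) hy
  rw [K, norm_inv, norm_pow]
  exact inv_anti₀ (pow_pos (by linarith) n) (pow_le_pow_left₀ (by linarith) h1 n)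

theorem K_cont {X : Type*} [TopologicalSpace X] {w : En n} (hw : ‖w‖ < 1) {g : X → En n}
    (hg : Continuous g) (h : ∀ x, ‖g x‖ ≤ 1) : Continuous fun x => K w (g x) := by
  have h1 : Continuous fun x => (1 - (inner ℂ (g x) w : ℂ)) ^ n := by fun_prop
  exact h1.inv₀ fun x => pow_ne_zero n (one_sub_ne hw (h x))

/-- `c_k k / (k + n - 1) = c_{k-1}` -/
theorem choose_rec (hn : 2 ≤ n) {k : ℕ} (hk : 1 ≤ k) :
    ((k + (n - 1)).choose (n - 1) : ℂ) * ((k : ℂ) / (k + n - 1)) =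
      ((k - 1 + (n - 1)).choose (n - 1) : ℂ) := by
  obtain ⟨m, rfl⟩ : ∃ m, n = m + 2 := ⟨n - 2, by omega⟩
  obtain ⟨j, rfl⟩ : ∃ j, k = j + 1 := ⟨k - 1, by omega⟩
  have h1 := Nat.choose_mul_succ_eq (j + (m + 1)) (m + 1)
  have h2 : j + (m + 1) + 1 - (m + 1) = j + 1 := by omega
  rw [h2] at h1
  have h3 : ((j + (m + 1)).choose (m + 1) : ℂ) * ((j + (m + 1) + 1 : ℕ) : ℂ) =
      ((j + (m + 1) + 1).choose (m + 1) : ℂ) * ((j + 1 : ℕ) : ℂ) := by exact_mod_cast h1
  have h4 : j + 1 + (m + 2 - 1) = j + (m + 1) + 1 := by omega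
  have h5 : j + 1 - 1 + (m + 2 - 1) = j + (m + 1) := by omega
  have h6 : m + 2 - 1 = m + 1 := by omega
  rw [h4, h5, h6]
  have h7 : (((j + 1 : ℕ) : ℂ) + ((m + 2 : ℕ) : ℂ) - 1) = ((j + (m + 1) + 1 : ℕ) : ℂ) := by
    push_cast
    ring
  rw [h7]
  have h8 : ((j + (m + 1) + 1 : ℕ) : ℂ) ≠ 0 := Nat.cast_ne_zero.2 (Nat.succ_ne_zero (j + (m + 1)))
  rw [← mul_div_assoc, div_eq_iff h8, ← h3]

/-- the coefficients of the kernel -/
noncomputable def ck (n k : ℕ) : ℂ := ((k + (n - 1)).choose (n - 1) : ℂ)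

theorem P_conj {k : ℕ} (u w : En n) {y : En n} (hy : ‖y‖ = 1) :
    conj (P k u w y) = inner ℂ u y * inner ℂ y w ^ k -
      ((k : ℂ) / (k + n - 1)) * inner ℂ u w * inner ℂ y w ^ (k - 1) := by
  have h1 : conj ((k : ℂ) / (k + n - 1)) = (k : ℂ) / (k + n - 1) := by
    rw [map_div₀, map_sub, map_add, map_one, Complex.conj_natCast, Complex.conj_natCast]
  rw [P, map_sub, map_mul, map_mul, map_mul, map_mul, map_pow, map_pow, h1, hy]
  simp only [inner_conj_symm, one_pow, Complex.ofReal_one, map_one, mul_one]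

/-- the series for `(⟨y, u⟩ - ⟨w, u⟩) K w y` on the sphere -/
theorem ser (hn : 2 ≤ n) {u w y : En n} (hw : ‖w‖ < 1) (hy : ‖y‖ = 1) :
    HasSum (fun k : ℕ => ck n k * conj (P k u w y))
      (inner ℂ u y * K w y - inner ℂ u w * K w y) := by
  have hlt : ‖w‖ * ‖y‖ < 1 := by rw [hy, mul_one]; exact hw
  have h1 := (K_hasSum hn hlt).mul_left (inner ℂ u y : ℂ)
  have h2 : HasSum (fun k : ℕ => ck n k * (((k : ℂ) / (k + n - 1)) * (inner ℂ y w : ℂ) ^ (k - 1)))
      (K w y) := by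
    have h3 : HasSum (fun k : ℕ => ck n (k + 1) * ((((k + 1 : ℕ) : ℂ) / (((k + 1 : ℕ) : ℂ) + n - 1)) *
        (inner ℂ y w : ℂ) ^ (k + 1 - 1))) (K w y) := by
      refine (K_hasSum hn hlt).congr_fun ?_
      intro k
      have h4 := choose_rec hn (k := k + 1) (by omega)
      rw [ck, ← mul_assoc, h4]
      simp
    have h4 := (hasSum_nat_add_iff (f := fun k : ℕ => ck n k * (((k : ℂ) / (k + n - 1)) *
      (inner ℂ y w : ℂ) ^ (k - 1))) 1).1 h3
    simpa using h4
  have h5 := h1.sub (h2.mul_left (inner ℂ u w : ℂ))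
  refine h5.congr_fun fun k => ?_
  rw [P_conj u w hy, ck]
  ring

theorem P_bound {k : ℕ} (hn : 2 ≤ n) {u w y : En n} (hy : ‖y‖ = 1) :
    ‖conj (P k u w y)‖ ≤ 2 * ‖u‖ * ‖w‖ ^ k := by
  rw [P_conj u w hy]
  have h1 : ‖(inner ℂ u y : ℂ)‖ ≤ ‖u‖ := by
    have := norm_inner_le_norm (𝕜 := ℂ) u y
    rwa [hy, mul_one] at this
  have h2 : ‖(inner ℂ y w : ℂ)‖ ≤ ‖w‖ := by
    have := norm_inner_le_norm (𝕜 := ℂ) y w
    rwa [hy, one_mul] at this
  have h3 : ‖(inner ℂ u y : ℂ) * inner ℂ y w ^ k‖ ≤ ‖u‖ * ‖w‖ ^ k := by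
    rw [norm_mul, norm_pow]
    gcongr
  have h4 : ‖((k : ℂ) / (k + n - 1)) * inner ℂ u w * inner ℂ y w ^ (k - 1)‖ ≤ ‖u‖ * ‖w‖ ^ k := by
    rcases Nat.eq_zero_or_pos k with rfl | hk
    · simp
    have h5 : ‖((k : ℂ) / (k + n - 1))‖ ≤ 1 := by
      have h6 : ((k : ℂ) + n - 1) = (((k : ℝ) + n - 1 : ℝ) : ℂ) := by push_cast; ring
      have hn' : (2 : ℝ) ≤ n := by exact_mod_cast hn
      have hk' : (0 : ℝ) < k := by exact_mod_cast hk
      rw [h6, norm_div, Complex.norm_real, Complex.norm_natCast, Real.norm_of_nonneg (by linarith),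
        div_le_one (by linarith)]
      linarith
    have h6 : ‖(inner ℂ u w : ℂ)‖ ≤ ‖u‖ * ‖w‖ := norm_inner_le_norm u w
    have h7 : ‖w‖ ^ k = ‖w‖ * ‖w‖ ^ (k - 1) := by
      rw [← pow_succ']
      congr 1
      omega
    rw [norm_mul, norm_mul, norm_pow, h7]
    calc ‖((k : ℂ) / (k + n - 1))‖ * ‖(inner ℂ u w : ℂ)‖ * ‖(inner ℂ y w : ℂ)‖ ^ (k - 1) ≤
          1 * (‖u‖ * ‖w‖) * ‖w‖ ^ (k - 1) := by gcongr
      _ = ‖u‖ * (‖w‖ * ‖w‖ ^ (k - 1)) := by ring
  calc ‖(inner ℂ u y : ℂ) * inner ℂ y w ^ k -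
      ((k : ℂ) / (k + n - 1)) * inner ℂ u w * inner ℂ y w ^ (k - 1)‖ ≤ _ := norm_sub_le _ _
    _ ≤ ‖u‖ * ‖w‖ ^ k + ‖u‖ * ‖w‖ ^ k := add_le_add h3 h4
    _ = 2 * ‖u‖ * ‖w‖ ^ k := by ring

/-- uniform approximation of the kernel identity by finite sums -/
theorem approx (hn : 2 ≤ n) (u : En n) {w : En n} (hw : ‖w‖ < 1) {ε : ℝ} (hε : 0 < ε) :
    ∃ m : ℕ, ∀ y : En n, ‖y‖ = 1 → ‖(inner ℂ u y * K w y - inner ℂ u w * K w y) -
      ∑ k ∈ Finset.range m, ck n k * conj (P k u w y)‖ ≤ ε := by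
  have hs : Summable fun k : ℕ => 2 * ‖u‖ * (((k + (n - 1)).choose (n - 1) : ℝ) * ‖w‖ ^ k) := by
    have h1 := hasSum_choose_mul_geometric_of_norm_lt_one (𝕜 := ℝ) (n - 1) (r := ‖w‖)
      (by rwa [norm_norm])
    exact h1.summable.mul_left _
  have h2 := tendstoUniformlyOn_tsum_nat (f := fun (k : ℕ) (y : En n) => ck n k * conj (P k u w y)) hs
    (s := {y : En n | ‖y‖ = 1}) (fun k y hy => by
      rw [norm_mul, ck, Complex.norm_natCast]
      have := P_bound (k := k) hn (u := u) (w := w) hy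
      calc ((k + (n - 1)).choose (n - 1) : ℝ) * ‖conj (P k u w y)‖ ≤
            ((k + (n - 1)).choose (n - 1) : ℝ) * (2 * ‖u‖ * ‖w‖ ^ k) := by gcongr
        _ = _ := by ring)
  rw [Metric.tendstoUniformlyOn_iff] at h2
  obtain ⟨m, hm⟩ := (h2 ε hε).exists
  refine ⟨m, fun y hy => ?_⟩
  have h3 := hm y hy
  rw [(ser hn hw hy).tsum_eq, dist_eq_norm] at h3
  exact h3.le

end Pool.Agent.MPca0fc2.PD
end

section

/-! Campaign PD, row L: the means against the kernel. -/

set_option autoImplicit false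

open Metric Set MeasureTheory Filter Topology
open scoped Real ComplexConjugate

namespace Pool.Agent.MPca0fc2.PD

variable {n N : ℕ}

/-- `conj (K w (Γ t))` is holomorphic near the closed polydisc, `1` at `0` -/
theorem M_K_one {r : ℕ} {Γ : (Fin r → ℂ) → En n} (hd : Differentiable ℂ Γ)
    (hle : ∀ t, (∀ i, ‖t i‖ ≤ 1) → ‖Γ t‖ ≤ 1) (h0 : Γ 0 = 0) {w : En n} (hw : ‖w‖ < 1) :
    M r (fun θ => K w (Γ (ex θ))) = 1 := by
  have hlin : Differentiable ℂ fun t : Fin r → ℂ => (inner ℂ w (Γ t) : ℂ) :=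
    (innerSL ℂ w).differentiable.comp hd
  have hopen : IsOpen {t : Fin r → ℂ | ‖(inner ℂ w (Γ t) : ℂ)‖ < 1} :=
    isOpen_lt hlin.continuous.norm continuous_const
  have hsub : closedBall (0 : Fin r → ℂ) 1 ⊆ {t : Fin r → ℂ | ‖(inner ℂ w (Γ t) : ℂ)‖ < 1} := by
    intro t ht
    have h1 : ∀ i, ‖t i‖ ≤ 1 := fun i => (norm_le_pi_norm t i).trans (mem_closedBall_zero_iff.1 ht)
    have h2 := norm_inner_le_norm (𝕜 := ℂ) w (Γ t)
    have h3 := hle t h1
    have h4 : ‖w‖ * ‖Γ t‖ ≤ ‖w‖ * 1 := mul_le_mul_of_nonneg_left h3 (norm_nonneg w)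
    show ‖(inner ℂ w (Γ t) : ℂ)‖ < 1
    linarith
  obtain ⟨δ, hδ, hth⟩ := (isCompact_closedBall (0 : Fin r → ℂ) 1).exists_thickening_subset_open hopen hsub
  have hball : ball (0 : Fin r → ℂ) (1 + δ) ⊆ {t : Fin r → ℂ | ‖(inner ℂ w (Γ t) : ℂ)‖ < 1} := by
    rw [add_comm, ← thickening_closedBall hδ zero_le_one]
    exact hth
  have hH : DifferentiableOn ℂ (fun t : Fin r → ℂ => ((1 - (inner ℂ w (Γ t) : ℂ)) ^ n)⁻¹)
      (ball 0 (1 + δ)) := by
    refine DifferentiableOn.inv ?_ ?_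
    · exact (((differentiable_const (1 : ℂ)).sub hlin).pow n).differentiableOn
    · intro t ht h1
      have h2 : ‖(inner ℂ w (Γ t) : ℂ)‖ < 1 := hball ht
      have h3 : 1 - (inner ℂ w (Γ t) : ℂ) = 0 := by
        by_contra h4
        exact pow_ne_zero n h4 h1
      have h4 : (inner ℂ w (Γ t) : ℂ) = 1 := (sub_eq_zero.1 h3).symm
      rw [h4, norm_one] at h2
      exact lt_irrefl _ h2
  have h1 := M_mean (by linarith : (1 : ℝ) < 1 + δ) hH
  have h2 : (fun θ : Fin r → ℝ => K w (Γ (ex θ))) =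
      fun θ => conj ((fun t : Fin r → ℂ => ((1 - (inner ℂ w (Γ t) : ℂ)) ^ n)⁻¹) (ex θ)) := by
    funext θ
    simp only [K, map_inv₀, map_pow, map_sub, map_one, inner_conj_symm]
  rw [h2, M_conj r, h1, h0]
  simp

theorem K_contOn {r : ℕ} {Γ : (Fin r → ℂ) → En n} (hd : Differentiable ℂ Γ) (he : ∀ θ, ‖Γ (ex θ)‖ = 1)
    {h : (Fin r → ℝ) → ℂ} (hh : Continuous h) :
    ContinuousOn (fun x : En n × (Fin r → ℝ) => h x.2 * K x.1 (Γ (ex x.2))) (ball 0 1 ×ˢ univ) := by
  have h1 : Continuous fun x : En n × (Fin r → ℝ) => Γ (ex x.2) :=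
    hd.continuous.comp (continuous_ex.comp continuous_snd)
  have h2 : Continuous fun x : En n × (Fin r → ℝ) => (1 - (inner ℂ (Γ (ex x.2)) x.1 : ℂ)) ^ n := by
    have h3 : Continuous fun x : En n × (Fin r → ℝ) => (inner ℂ (Γ (ex x.2)) x.1 : ℂ) :=
      h1.inner continuous_fst
    exact (continuous_const.sub h3).pow n
  refine (hh.comp continuous_snd).continuousOn.mul ?_
  refine ContinuousOn.inv₀ h2.continuousOn ?_
  intro x hx
  exact pow_ne_zero n (one_sub_ne (mem_ball_zero_iff.1 hx.1) (he x.2).le)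

theorem E_diff {r : ℕ} {Γ : (Fin r → ℂ) → En n} (hd : Differentiable ℂ Γ) (he : ∀ θ, ‖Γ (ex θ)‖ = 1)
    {h : (Fin r → ℝ) → ℂ} (hh : Continuous h) :
    DifferentiableOn ℂ (fun w : En n => M r (fun θ => h θ * K w (Γ (ex θ)))) (ball 0 1) := by
  refine M_diff isOpen_ball (F := fun (w : En n) θ => h θ * K w (Γ (ex θ))) (K_contOn hd he hh) ?_
  intro θ
  refine DifferentiableOn.const_mul ?_ _
  refine DifferentiableOn.inv ?_ ?_
  · have h1 : Differentiable ℂ fun w : En n => (inner ℂ (Γ (ex θ)) w : ℂ) :=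
      (innerSL ℂ (Γ (ex θ))).differentiable
    exact (((differentiable_const (1 : ℂ)).sub h1).pow n).differentiableOn
  · intro w hw
    exact pow_ne_zero n (one_sub_ne (mem_ball_zero_iff.1 hw) (he θ).le)

theorem E_bound {r : ℕ} {Γ : (Fin r → ℂ) → En n} (hd : Differentiable ℂ Γ) (he : ∀ θ, ‖Γ (ex θ)‖ = 1)
    {h : (Fin r → ℝ) → ℂ} (hh : Continuous h) {A : ℝ} (hA : ∀ θ, ‖h θ‖ ≤ A) {w : En n} (hw : ‖w‖ < 1) :
    ‖M r (fun θ => h θ * K w (Γ (ex θ)))‖ ≤ A * ((1 - ‖w‖) ^ n)⁻¹ := by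
  have hΓ : Continuous fun θ : Fin r → ℝ => Γ (ex θ) := hd.continuous.comp continuous_ex
  have hK : Continuous fun θ : Fin r → ℝ => K w (Γ (ex θ)) := K_cont hw hΓ fun θ => (he θ).le
  have hF : Continuous fun θ : Fin r → ℝ => h θ * K w (Γ (ex θ)) := hh.mul hK
  refine (norm_M_le hF).trans ?_
  have h1 : M r (fun _ : Fin r → ℝ => A * ((1 - ‖w‖) ^ n)⁻¹) = A * ((1 - ‖w‖) ^ n)⁻¹ := M_const r _
  rw [← h1]
  refine M_mono hF.norm continuous_const fun θ => ?_
  rw [norm_mul]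
  have hA0 : 0 ≤ A := (norm_nonneg _).trans (hA θ)
  exact mul_le_mul (hA θ) (K_norm_le hw (he θ).le) (norm_nonneg _) hA0

end Pool.Agent.MPca0fc2.PD
end
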