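import Pool.Agent.Lib.MP_ca0fc2_an.Mg.G100
import Pool.Agent.Lib.MP_ca0fc2_an.Mg.G105

section

/-! Campaign PD, row W: the finite dimensional spaces `W n R`. -/

set_option autoImplicit false

open Metric Set MeasureTheory
open scoped Real ComplexConjugate

namespace Pool.Agent.MPca0fc2.PD

variable {n : ℕ}

theorem P_mem {k R : ℕ} (hk : k ≤ R) (u w : En n) : P k u w ∈ W n R :=
  Submodule.subset_span ⟨k, hk, u, w, rfl⟩

theorem W_mono {R R' : ℕ} (h : R ≤ R') : W n R ≤ W n R' :=
  Submodule.span_mono fun _ ⟨k, hk, u, w, e⟩ => ⟨k, hk.trans h, u, w, e⟩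

theorem P_comp (k : ℕ) (u w : En n) (U : En n ≃ₗᵢ[ℂ] En n) (y : En n) :
    P k u w (U y) = P k (U.symm u) (U.symm w) y := by
  have h1 : (inner ℂ (U y) u : ℂ) = inner ℂ y (U.symm u) := by
    rw [← U.inner_map_map y (U.symm u), U.apply_symm_apply]
  have h2 : (inner ℂ w (U y) : ℂ) = inner ℂ (U.symm w) y := by
    rw [← U.inner_map_map (U.symm w) y, U.apply_symm_apply]
  have h3 : (inner ℂ w u : ℂ) = inner ℂ (U.symm w) (U.symm u) := by
    rw [← U.inner_map_map (U.symm w) (U.symm u), U.apply_symm_apply, U.apply_symm_apply]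
  unfold P
  rw [h1, h2, h3, U.norm_map]

theorem W_comp {R : ℕ} {p : En n → ℂ} (hp : p ∈ W n R) (U : En n ≃ₗᵢ[ℂ] En n) :
    (fun y => p (U y)) ∈ W n R := by
  unfold W at hp
  induction hp using Submodule.span_induction with
  | mem p hp =>
    obtain ⟨k, hk, u, w, rfl⟩ := hp
    have h : (fun y => P k u w (U y)) = P k (U.symm u) (U.symm w) := funext fun y => P_comp k u w U y
    rw [h]
    exact P_mem hk _ _
  | zero => exact (W n R).zero_mem
  | add p q _ _ hp hq => exact (W n R).add_mem hp hq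
  | smul c p _ hp => exact (W n R).smul_mem c hp

theorem P_cont (k : ℕ) (u w : En n) : Continuous (P k u w) := by
  unfold P
  fun_prop

theorem W_cont {R : ℕ} {p : En n → ℂ} (hp : p ∈ W n R) : Continuous p := by
  unfold W at hp
  induction hp using Submodule.span_induction with
  | mem p hp =>
    obtain ⟨k, hk, u, w, rfl⟩ := hp
    exact P_cont k u w
  | zero => exact continuous_const
  | add p q _ _ hp hq => exact hp.add hq
  | smul c p _ hp => exact hp.const_smul c

/-- the span of `1`, the coordinates and their conjugates -/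
noncomputable def W_N (n : ℕ) : Submodule ℂ (En n → ℂ) :=
  Submodule.span ℂ ({1} ∪ (Set.range fun (i : Fin n) => fun y : En n => y i) ∪
    Set.range fun (i : Fin n) => fun y : En n => conj (y i))

theorem W_N_fg (n : ℕ) : (W_N n).FG :=
  Submodule.fg_span (((Set.finite_singleton _).union (Set.finite_range _)).union (Set.finite_range _))

theorem W_N_one : (1 : En n → ℂ) ∈ W_N n :=
  Submodule.subset_span (Or.inl (Or.inl rfl))

theorem W_N_coord (i : Fin n) : (fun y : En n => y i) ∈ W_N n :=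
  Submodule.subset_span (Or.inl (Or.inr ⟨i, rfl⟩))

theorem W_N_conj (i : Fin n) : (fun y : En n => conj (y i)) ∈ W_N n :=
  Submodule.subset_span (Or.inr ⟨i, rfl⟩)

theorem W_N_pow_le {a b : ℕ} (h : a ≤ b) : (W_N n) ^ a ≤ (W_N n) ^ b := by
  have h1 : (1 : Submodule ℂ (En n → ℂ)) ≤ W_N n := by
    rw [Submodule.one_le]
    exact W_N_one
  exact pow_le_pow_right' h1 h

theorem W_N_left (u : En n) : (fun y : En n => (inner ℂ y u : ℂ)) ∈ W_N n := by
  have h : (fun y : En n => (inner ℂ y u : ℂ)) = ∑ i : Fin n, u i • fun y : En n => conj (y i) := by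
    funext y
    simp [PiLp.inner_apply, Finset.sum_apply]
  rw [h]
  exact Submodule.sum_mem _ fun i _ => Submodule.smul_mem _ _ (W_N_conj i)

theorem W_N_right (w : En n) : (fun y : En n => (inner ℂ w y : ℂ)) ∈ W_N n := by
  have h : (fun y : En n => (inner ℂ w y : ℂ)) = ∑ i : Fin n, conj (w i) • fun y : En n => y i := by
    funext y
    simp [PiLp.inner_apply, Finset.sum_apply, mul_comm]
  rw [h]
  exact Submodule.sum_mem _ fun i _ => Submodule.smul_mem _ _ (W_N_coord i)

theorem W_N_sq : (fun y : En n => ((‖y‖ ^ 2 : ℝ) : ℂ)) ∈ (W_N n) ^ 2 := by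
  have h : (fun y : En n => ((‖y‖ ^ 2 : ℝ) : ℂ)) =
      ∑ i : Fin n, (fun y : En n => conj (y i)) * fun y : En n => y i := by
    funext y
    rw [EuclideanSpace.norm_sq_eq]
    simp only [Finset.sum_apply, Pi.mul_apply]
    push_cast
    refine Finset.sum_congr rfl fun i _ => ?_
    rw [Complex.conj_mul']
  rw [h, pow_two]
  exact Submodule.sum_mem _ fun i _ => Submodule.mul_mem_mul (W_N_conj i) (W_N_coord i)

theorem P_mem_pow {k : ℕ} (u w : En n) : P k u w ∈ (W_N n) ^ (k + 2) := by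
  have hw : ∀ j : ℕ, (fun y : En n => (inner ℂ w y : ℂ) ^ j) ∈ (W_N n) ^ j := by
    intro j
    exact Submodule.pow_mem_pow _ (W_N_right w) j
  have h1 : (fun y : En n => (inner ℂ y u : ℂ) * inner ℂ w y ^ k) ∈ (W_N n) ^ (k + 2) := by
    refine W_N_pow_le (a := 1 + k) (by omega) ?_
    rw [pow_add, pow_one]
    exact Submodule.mul_mem_mul (W_N_left u) (hw k)
  have h2 : (fun y : En n => ((‖y‖ ^ 2 : ℝ) : ℂ) * inner ℂ w y ^ (k - 1)) ∈ (W_N n) ^ (k + 2) := by
    refine W_N_pow_le (a := 2 + (k - 1)) (by omega) ?_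
    rw [pow_add]
    exact Submodule.mul_mem_mul W_N_sq (hw (k - 1))
  have h3 : P k u w = (fun y : En n => (inner ℂ y u : ℂ) * inner ℂ w y ^ k) -
      (((k : ℂ) / (k + n - 1)) * inner ℂ w u) •
        fun y : En n => ((‖y‖ ^ 2 : ℝ) : ℂ) * inner ℂ w y ^ (k - 1) := by
    funext y
    simp only [P, Pi.sub_apply, Pi.smul_apply, smul_eq_mul]
    ring
  rw [h3]
  exact Submodule.sub_mem _ h1 (Submodule.smul_mem _ _ h2)

/-- contained in the range of the linear map `c ↦ ∑ c conj(y_a) y_{i_1} .. y_{i_k}` from the finite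
dimensional space of coefficients (`Finset.prod_univ_sum` for `(∑ conj(w_i) y_i)^k`) -/
theorem W_fin (n R : ℕ) : FiniteDimensional ℂ (W n R) := by
  have h : W n R ≤ (W_N n) ^ (R + 2) := by
    unfold W
    rw [Submodule.span_le]
    rintro p ⟨k, hk, u, w, rfl⟩
    exact W_N_pow_le (by omega) (P_mem_pow u w)
  have h2 : FiniteDimensional ℂ ((W_N n) ^ (R + 2) : Submodule ℂ (En n → ℂ)) :=
    Module.Finite.iff_fg.2 ((W_N_fg n).pow _)
  exact Submodule.finiteDimensional_of_le h

/-- the polynomial of `P k u w (D v s y) s` in `s` -/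
noncomputable def W_pol (k : ℕ) (u w v y : En n) : Polynomial ℂ :=
  (Polynomial.C (inner ℂ y u - conj (inner ℂ v y) * inner ℂ v u) * Polynomial.X +
      Polynomial.C (conj (inner ℂ v y) * inner ℂ v u)) *
    (Polynomial.C (inner ℂ w y - inner ℂ v y * inner ℂ w v) +
      Polynomial.C (inner ℂ v y * inner ℂ w v) * Polynomial.X) ^ k -
  Polynomial.C (((k : ℂ) / (k + n - 1)) * (‖y‖ ^ 2 : ℝ) * inner ℂ w u) * Polynomial.X *
    (Polynomial.C (inner ℂ w y - inner ℂ v y * inner ℂ w v) +
      Polynomial.C (inner ℂ v y * inner ℂ w v) * Polynomial.X) ^ (k - 1)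

theorem W_CX_deg (a : ℂ) : (Polynomial.C a * Polynomial.X).natDegree ≤ 1 :=
  (Polynomial.natDegree_C_mul_le a Polynomial.X).trans Polynomial.natDegree_X_le

theorem W_pol_deg {k R : ℕ} (hk : k ≤ R) (u w v y : En n) : (W_pol k u w v y).natDegree < R + 2 := by
  have h1 : ∀ a b : ℂ, (Polynomial.C a + Polynomial.C b * Polynomial.X).natDegree ≤ 1 := by
    intro a b
    refine (Polynomial.natDegree_add_le _ _).trans (max_le (by simp) (W_CX_deg b))
  have h2 : ∀ a b : ℂ, (Polynomial.C a * Polynomial.X + Polynomial.C b).natDegree ≤ 1 := by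
    intro a b
    refine (Polynomial.natDegree_add_le _ _).trans (max_le (W_CX_deg a) (by simp))
  have h3 : ∀ (a b : ℂ) (j : ℕ), ((Polynomial.C a + Polynomial.C b * Polynomial.X) ^ j).natDegree ≤ j := by
    intro a b j
    refine (Polynomial.natDegree_pow_le).trans ?_
    exact (Nat.mul_le_mul_left j (h1 a b)).trans (by omega)
  have h4 : (W_pol k u w v y).natDegree ≤ k + 1 := by
    unfold W_pol
    refine (Polynomial.natDegree_sub_le _ _).trans (max_le ?_ ?_)
    · refine Polynomial.natDegree_mul_le.trans ?_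
      have := h2 (inner ℂ y u - conj (inner ℂ v y) * inner ℂ v u) (conj (inner ℂ v y) * inner ℂ v u)
      have := h3 (inner ℂ w y - inner ℂ v y * inner ℂ w v) (inner ℂ v y * inner ℂ w v) k
      omega
    · refine Polynomial.natDegree_mul_le.trans ?_
      have := W_CX_deg (((k : ℂ) / (k + n - 1)) * (‖y‖ ^ 2 : ℝ) * inner ℂ w u)
      have := h3 (inner ℂ w y - inner ℂ v y * inner ℂ w v) (inner ℂ v y * inner ℂ w v) (k - 1)
      omega
  omega

theorem W_pol_eval (k : ℕ) (u w : En n) {v : En n} (hv : ‖v‖ = 1) {s : ℂ} (hs : ‖s‖ = 1) (y : En n) :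
    P k u w (D v s y) = conj s * (W_pol k u w v y).eval s := by
  have hss : conj s * s = 1 := by
    rw [Complex.conj_mul', hs]
    norm_num
  have h1 : (inner ℂ (D v s y) u : ℂ) =
      conj s * ((inner ℂ y u - conj (inner ℂ v y) * inner ℂ v u) * s + conj (inner ℂ v y) * inner ℂ v u) := by
    unfold D
    rw [inner_add_left, inner_smul_left, map_mul, map_sub, map_one]
    linear_combination (-(inner ℂ y u - conj (inner ℂ v y) * inner ℂ v u)) * hss
  have h2 : (inner ℂ w (D v s y) : ℂ) =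
      (inner ℂ w y - inner ℂ v y * inner ℂ w v) + inner ℂ v y * inner ℂ w v * s := by
    unfold D
    rw [inner_add_right, inner_smul_right]
    ring
  have h3 : ‖D v s y‖ = ‖y‖ := D_norm_eq hv hs y
  unfold P W_pol
  rw [h1, h2, h3]
  simp only [Polynomial.eval_sub, Polynomial.eval_mul, Polynomial.eval_add, Polynomial.eval_C,
    Polynomial.eval_X, Polynomial.eval_pow]
  linear_combination (((k : ℂ) / (k + n - 1)) * (‖y‖ ^ 2 : ℝ) * inner ℂ w u *
    ((inner ℂ w y - inner ℂ v y * inner ℂ w v) + inner ℂ v y * inner ℂ w v * s) ^ (k - 1)) * hss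

/-- `p (D v s y)` is a trigonometric polynomial in `s`, `|s| = 1`, with frequencies in `[-1, R]` -/
theorem W_trig {R : ℕ} {p : En n → ℂ} (hp : p ∈ W n R) {v : En n} (hv : ‖v‖ = 1) :
    ∃ q : ℕ → En n → ℂ, ∀ (s : ℂ) (y : En n), ‖s‖ = 1 →
      p (D v s y) = ∑ j ∈ Finset.range (R + 2), s ^ j * conj s * q j y := by
  unfold W at hp
  induction hp using Submodule.span_induction with
  | mem p hp =>
    obtain ⟨k, hk, u, w, rfl⟩ := hp
    refine ⟨fun j y => (W_pol k u w v y).coeff j, fun s y hs => ?_⟩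
    rw [W_pol_eval k u w hv hs y, Polynomial.eval_eq_sum_range' (W_pol_deg hk u w v y), Finset.mul_sum]
    exact Finset.sum_congr rfl fun j _ => by ring
  | zero => exact ⟨fun _ _ => 0, fun s y _ => by simp⟩
  | add p q _ _ hp hq =>
    obtain ⟨a, ha⟩ := hp
    obtain ⟨b, hb⟩ := hq
    refine ⟨fun j y => a j y + b j y, fun s y hs => ?_⟩
    rw [Pi.add_apply, ha s y hs, hb s y hs, ← Finset.sum_add_distrib]
    exact Finset.sum_congr rfl fun j _ => by ring
  | smul c p _ hp =>
    obtain ⟨a, ha⟩ := hp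
    refine ⟨fun j y => c * a j y, fun s y hs => ?_⟩
    rw [Pi.smul_apply, ha s y hs, smul_eq_mul, Finset.mul_sum]
    exact Finset.sum_congr rfl fun j _ => by ring

theorem W_ec_norm (s : ℝ) : ‖ec s‖ = 1 := norm_ec s

theorem W_ec_conj (s : ℝ) : conj (ec s) * ec s = 1 := by
  rw [Complex.conj_mul', W_ec_norm]
  norm_num

theorem W_ec_pow (s : ℝ) (l j : ℕ) :
    ec s ^ l * conj (ec s) ^ j = Complex.exp ((((l : ℂ) - j) * Complex.I) * s) := by
  have h : conj (ec s) = Complex.exp (-(s * Complex.I)) := by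
    unfold ec
    rw [← Complex.exp_conj]
    congr 1
    simp
  rw [h]
  unfold ec
  rw [← Complex.exp_nat_mul, ← Complex.exp_nat_mul, ← Complex.exp_add]
  congr 1
  ring

theorem W_orth (l j : ℕ) :
    ((2 * π)⁻¹ : ℝ) • ∫ s in (0 : ℝ)..2 * π, ec s ^ l * conj (ec s) ^ j = if l = j then 1 else 0 := by
  have h0 : (fun s : ℝ => ec s ^ l * conj (ec s) ^ j) =
      fun s : ℝ => Complex.exp ((((l : ℂ) - j) * Complex.I) * s) := funext fun s => W_ec_pow s l j
  rw [h0]
  split_ifs with h
  · subst h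
    have h1 : (fun s : ℝ => Complex.exp ((((l : ℂ) - l) * Complex.I) * s)) = fun _ => 1 := by
      funext s
      simp
    rw [h1, intervalIntegral.integral_const]
    have hpi : (2 * π : ℝ) ≠ 0 := by positivity
    rw [smul_smul, sub_zero, inv_mul_cancel₀ hpi, one_smul]
  · have hc : ((l : ℂ) - j) * Complex.I ≠ 0 := by
      refine mul_ne_zero ?_ Complex.I_ne_zero
      intro hh
      exact h (by exact_mod_cast sub_eq_zero.1 hh)
    rw [integral_exp_mul_complex hc]
    have h2 : Complex.exp ((((l : ℂ) - j) * Complex.I) * ((2 * π : ℝ) : ℂ)) = 1 := by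
      rw [Complex.exp_eq_one_iff]
      refine ⟨(l : ℤ) - j, ?_⟩
      push_cast
      ring
    rw [h2]
    simp

theorem Q_of_trig {R : ℕ} {p : En n → ℂ} {v : En n} {q : ℕ → En n → ℂ}
    (hq : ∀ (s : ℂ) (y : En n), ‖s‖ = 1 →
      p (D v s y) = ∑ j ∈ Finset.range (R + 2), s ^ j * conj s * q j y) (j : ℕ) (y : En n) :
    Q v j p y = if j < R + 2 then q j y else 0 := by
  have h1 : (fun s : ℝ => p (D v (ec s) y) * (ec s * conj (ec s) ^ j)) =
      fun s : ℝ => ∑ l ∈ Finset.range (R + 2), (ec s ^ l * conj (ec s) ^ j) * q l y := by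
    funext s
    rw [hq (ec s) y (W_ec_norm s), Finset.sum_mul]
    refine Finset.sum_congr rfl fun l _ => ?_
    linear_combination (ec s ^ l * conj (ec s) ^ j * q l y) * W_ec_conj s
  unfold Q
  rw [h1, intervalIntegral.integral_finsetSum]
  · rw [Finset.smul_sum]
    have h2 : ∀ l ∈ Finset.range (R + 2),
        ((2 * π)⁻¹ : ℝ) • ∫ s in (0 : ℝ)..2 * π, (ec s ^ l * conj (ec s) ^ j) * q l y =
          (if l = j then 1 else 0) * q l y := by
      intro l _
      rw [intervalIntegral.integral_mul_const, ← smul_mul_assoc, W_orth]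
    rw [Finset.sum_congr rfl h2]
    simp [Finset.sum_ite_eq', ite_mul]
  · intro l _
    refine Continuous.intervalIntegrable ?_ _ _
    have := continuous_ec
    fun_prop

/-- the coefficients are the functions `Q v j p` (orthogonality of the exponentials on `[0, 2π]`) -/
theorem Q_expand {R : ℕ} {p : En n → ℂ} (hp : p ∈ W n R) {v : En n} (hv : ‖v‖ = 1) (s : ℂ)
    (hs : ‖s‖ = 1) (y : En n) :
    p (D v s y) = ∑ j ∈ Finset.range (R + 2), s ^ j * conj s * Q v j p y := by
  obtain ⟨q, hq⟩ := W_trig hp hv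
  rw [hq s y hs]
  refine Finset.sum_congr rfl fun j hj => ?_
  rw [Q_of_trig hq j y, if_pos (Finset.mem_range.1 hj)]

theorem W_roots {N : ℕ} (hN : N ≠ 0) {l j : ℕ} (hl : l < N) (hj : j < N) :
    ∑ m ∈ Finset.range N, (Complex.exp (2 * π * Complex.I / N) ^ m) ^ l *
      conj (Complex.exp (2 * π * Complex.I / N) ^ m) ^ j = if l = j then (N : ℂ) else 0 := by
  set ζ := Complex.exp (2 * π * Complex.I / N) with hζ
  have hprim : IsPrimitiveRoot ζ N := Complex.isPrimitiveRoot_exp N hN
  have hnorm : ‖ζ‖ = 1 := hprim.norm'_eq_one hN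
  have hcc : conj ζ * ζ = 1 := by
    rw [Complex.conj_mul', hnorm]
    norm_num
  have h1 : ∀ m ∈ Finset.range N, (ζ ^ m) ^ l * conj (ζ ^ m) ^ j = (ζ ^ l * conj ζ ^ j) ^ m := by
    intro m _
    rw [map_pow, mul_pow, ← pow_mul, ← pow_mul, ← pow_mul, ← pow_mul, mul_comm m l, mul_comm m j]
  rw [Finset.sum_congr rfl h1]
  split_ifs with h
  · subst h
    have h2 : ζ ^ l * conj ζ ^ l = 1 := by
      rw [← mul_pow, mul_comm, hcc, one_pow]
    rw [h2]
    simp
  · have h3 : ζ ^ l * conj ζ ^ j ≠ 1 := by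
      intro h4
      apply h
      refine hprim.pow_inj hl hj ?_
      have h5 : ζ ^ l * conj ζ ^ j * ζ ^ j = ζ ^ l := by
        rw [mul_assoc, ← mul_pow, hcc, one_pow, mul_one]
      rw [← h5, h4, one_mul]
    have h6 : (ζ ^ l * conj ζ ^ j) ^ N = 1 := by
      rw [mul_pow, ← pow_mul, ← pow_mul, mul_comm l N, mul_comm j N, pow_mul, pow_mul, hprim.pow_eq_one,
        ← map_pow, hprim.pow_eq_one]
      simp
    have h7 := mul_geom_sum (ζ ^ l * conj ζ ^ j) N
    rw [h6, sub_self] at h7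
    rcases mul_eq_zero.1 h7 with h8 | h8
    · exact absurd (sub_eq_zero.1 h8) h3
    · exact h8

/-- means over the roots of unity of order `R + 2` of the functions `p (D v s y)`, which are in `W n R` by
`W_comp` (`Q v j p = 0` for `j ≥ R + 2`) -/
theorem Q_mem {R : ℕ} {p : En n → ℂ} (hp : p ∈ W n R) {v : En n} (hv : ‖v‖ = 1) (j : ℕ) :
    Q v j p ∈ W n R := by
  obtain ⟨q, hq⟩ := W_trig hp hv
  by_cases hj : j < R + 2
  · have hN : (R + 2 : ℕ) ≠ 0 := by omega
    set ζ := Complex.exp (2 * π * Complex.I / (R + 2 : ℕ)) with hζ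
    have hprim : IsPrimitiveRoot ζ (R + 2) := Complex.isPrimitiveRoot_exp (R + 2) hN
    have hnorm : ‖ζ‖ = 1 := hprim.norm'_eq_one hN
    have hm : ∀ m : ℕ, ‖ζ ^ m‖ = 1 := fun m => by rw [norm_pow, hnorm, one_pow]
    have hcc : ∀ m : ℕ, conj (ζ ^ m) * ζ ^ m = 1 := fun m => by
      rw [Complex.conj_mul', hm]
      norm_num
    have h1 : Q v j p = (((R + 2 : ℕ) : ℂ)⁻¹) • ∑ m ∈ Finset.range (R + 2),
        (ζ ^ m * conj (ζ ^ m) ^ j) • fun y => p (D v (ζ ^ m) y) := by
      funext y
      rw [Q_of_trig hq j y, if_pos hj, Pi.smul_apply, Finset.sum_apply]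
      have h2 : ∀ m ∈ Finset.range (R + 2),
          ((ζ ^ m * conj (ζ ^ m) ^ j) • fun y => p (D v (ζ ^ m) y)) y =
            ∑ l ∈ Finset.range (R + 2), ((ζ ^ m) ^ l * conj (ζ ^ m) ^ j) * q l y := by
        intro m _
        rw [Pi.smul_apply, hq (ζ ^ m) y (hm m), smul_eq_mul, Finset.mul_sum]
        refine Finset.sum_congr rfl fun l _ => ?_
        linear_combination ((ζ ^ m) ^ l * conj (ζ ^ m) ^ j * q l y) * hcc m
      rw [Finset.sum_congr rfl h2, Finset.sum_comm]
      have h3 : ∀ l ∈ Finset.range (R + 2),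
          ∑ m ∈ Finset.range (R + 2), ((ζ ^ m) ^ l * conj (ζ ^ m) ^ j) * q l y =
            (if l = j then ((R + 2 : ℕ) : ℂ) else 0) * q l y := by
        intro l hl
        rw [← Finset.sum_mul, W_roots hN (Finset.mem_range.1 hl) hj]
      rw [Finset.sum_congr rfl h3]
      have h4 : ((R + 2 : ℕ) : ℂ) ≠ 0 := by exact_mod_cast hN
      simp only [ite_mul, zero_mul, Finset.sum_ite_eq', Finset.mem_range, if_pos hj, smul_eq_mul]
      rw [← mul_assoc, inv_mul_cancel₀ h4, one_mul]
    rw [h1]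
    refine Submodule.smul_mem _ _ (Submodule.sum_mem _ fun m _ => Submodule.smul_mem _ _ ?_)
    obtain ⟨U, hU⟩ := D_isometry hv (hm m)
    have h5 : (fun y => p (D v (ζ ^ m) y)) = fun y => p (U y) := funext fun y => by rw [hU]
    rw [h5]
    exact W_comp hp U
  · have h1 : Q v j p = 0 := by
      funext y
      rw [Q_of_trig hq j y, if_neg hj, Pi.zero_apply]
    rw [h1]
    exact (W n R).zero_mem

end Pool.Agent.MPca0fc2.PD
end

section

/-! Campaign PD, row C: the main inequality. -/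

set_option autoImplicit false

open Metric Set MeasureTheory
open scoped Real ComplexConjugate

namespace Pool.Agent.MPca0fc2.PD

variable {n : ℕ}

theorem ec_mul_conj (s : ℝ) : ec s * conj (ec s) = 1 := by
  rw [Complex.mul_conj, Complex.normSq_eq_norm_sq, norm_ec]; norm_num

theorem conj_ec (s : ℝ) : conj (ec s) = Complex.exp (-(s * Complex.I)) := by
  rw [ec, ← Complex.exp_conj]; simp

theorem int_exp_zero {c : ℤ} (hc : c ≠ 0) :
    ∫ s in (0 : ℝ)..2 * π, Complex.exp ((c : ℂ) * Complex.I * s) = 0 := by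
  have hc' : ((c : ℂ) * Complex.I) ≠ 0 := mul_ne_zero (by exact_mod_cast hc) Complex.I_ne_zero
  rw [integral_exp_mul_complex hc']
  have : Complex.exp ((c : ℂ) * Complex.I * ((2 * π : ℝ) : ℂ)) = 1 := by
    have := Complex.exp_int_mul_two_pi_mul_I c
    rw [← this]; congr 1; push_cast; ring
  rw [this]; simp

theorem int_ec (j k : ℕ) :
    ∫ s in (0 : ℝ)..2 * π, ec s ^ j * conj (ec s) ^ k = if j = k then ((2 * π : ℝ) : ℂ) else 0 := by
  split_ifs with h
  · subst h
    simp_rw [← mul_pow, ec_mul_conj, one_pow]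
    simp
  · have h' : ((j : ℤ) - k) ≠ 0 := by omega
    rw [← int_exp_zero h']
    refine intervalIntegral.integral_congr fun s _ => ?_

    rw [conj_ec, ec, ← Complex.exp_nat_mul, ← Complex.exp_nat_mul, ← Complex.exp_add]
    congr 1; push_cast; ring

/-- Bessel's inequality on the circle -/
theorem bessel {g : ℝ → ℂ} (hg : Continuous g) (K : ℕ) :
    ∑ j ∈ Finset.range K, ‖((2 * π)⁻¹ : ℝ) • ∫ s in (0 : ℝ)..2 * π, g s * conj (ec s) ^ j‖ ^ 2 ≤
      (2 * π)⁻¹ • ∫ s in (0 : ℝ)..2 * π, ‖g s‖ ^ 2 := by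
  have hpi : (0 : ℝ) < 2 * π := by positivity
  set c : ℕ → ℂ := fun j => ((2 * π)⁻¹ : ℝ) • ∫ s in (0 : ℝ)..2 * π, g s * conj (ec s) ^ j with hc
  have hec : Continuous ec := continuous_ec
  have hcc : Continuous fun s => conj (ec s) := Complex.continuous_conj.comp hec
  set P : ℝ → ℂ := fun s => ∑ j ∈ Finset.range K, c j * ec s ^ j with hP
  have hPc : Continuous P := by
    apply continuous_finsetSum; intro j _; exact continuous_const.mul (hec.pow j)
  have hcP : ∀ s, conj (P s) = ∑ j ∈ Finset.range K, conj (c j) * conj (ec s) ^ j := by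
    intro s; simp [hP, map_sum]
  have hI : ∀ j, ∫ s in (0 : ℝ)..2 * π, g s * conj (ec s) ^ j = ((2 * π : ℝ) : ℂ) * c j := by
    intro j
    rw [hc]; simp only [Complex.real_smul]
    rw [← mul_assoc, ← Complex.ofReal_mul, mul_inv_cancel₀ hpi.ne']; simp
  have hJ : ∀ j ∈ Finset.range K, ∫ s in (0 : ℝ)..2 * π, P s * conj (ec s) ^ j =
      ((2 * π : ℝ) : ℂ) * c j := by
    intro j hj
    have : ∀ s, P s * conj (ec s) ^ j = ∑ k ∈ Finset.range K, c k * (ec s ^ k * conj (ec s) ^ j) := by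
      intro s; rw [hP]; simp only; rw [Finset.sum_mul]; refine Finset.sum_congr rfl fun k _ => ?_; ring
    simp_rw [this]
    rw [intervalIntegral.integral_finsetSum]
    · simp_rw [intervalIntegral.integral_const_mul, int_ec]
      rw [Finset.sum_eq_single j]
      · simp; ring
      · intro k _ hkj; simp [hkj]
      · intro h; exact absurd hj h
    · intro k _
      exact (continuous_const.mul ((hec.pow k).mul (hcc.pow j))).intervalIntegrable _ _
  have key : ∀ f : ℝ → ℂ, Continuous f → (∀ j ∈ Finset.range K,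
      ∫ s in (0 : ℝ)..2 * π, f s * conj (ec s) ^ j = ((2 * π : ℝ) : ℂ) * c j) →
      ∫ s in (0 : ℝ)..2 * π, f s * conj (P s) =
        ((2 * π * ∑ j ∈ Finset.range K, ‖c j‖ ^ 2 : ℝ) : ℂ) := by
    intro f hf h
    have : ∀ s, f s * conj (P s) = ∑ j ∈ Finset.range K, conj (c j) * (f s * conj (ec s) ^ j) := by
      intro s; rw [hcP, Finset.mul_sum]; refine Finset.sum_congr rfl fun k _ => ?_; ring
    simp_rw [this]
    rw [intervalIntegral.integral_finsetSum]
    · simp_rw [intervalIntegral.integral_const_mul]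
      rw [Finset.sum_congr rfl fun j hj => by rw [h j hj]]
      push_cast
      rw [Finset.mul_sum]
      refine Finset.sum_congr rfl fun j _ => ?_
      have : ((‖c j‖ : ℝ) : ℂ) ^ 2 = c j * conj (c j) := by
        rw [Complex.mul_conj, Complex.normSq_eq_norm_sq]; push_cast; ring
      rw [this]; ring
    · intro k _
      exact (continuous_const.mul (hf.mul (hcc.pow k))).intervalIntegrable _ _
  have hgP := key g hg fun j _ => hI j
  have hPP := key P hPc hJ
  have hPg : ∫ s in (0 : ℝ)..2 * π, P s * conj (g s) =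
      ((2 * π * ∑ j ∈ Finset.range K, ‖c j‖ ^ 2 : ℝ) : ℂ) := by
    have h1 : ∫ s in (0 : ℝ)..2 * π, P s * conj (g s) = conj (∫ s in (0 : ℝ)..2 * π, g s * conj (P s)) := by
      rw [intervalIntegral.integral_of_le hpi.le, intervalIntegral.integral_of_le hpi.le, ← integral_conj]
      refine integral_congr_ae (Filter.Eventually.of_forall fun s => ?_)
      simp [mul_comm]
    rw [h1, hgP, Complex.conj_ofReal]
  have hcg : Continuous fun s => conj (g s) := Complex.continuous_conj.comp hg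
  have hcPc : Continuous fun s => conj (P s) := Complex.continuous_conj.comp hPc
  have hnn : 0 ≤ ∫ s in (0 : ℝ)..2 * π, ‖g s - P s‖ ^ 2 :=
    intervalIntegral.integral_nonneg hpi.le fun s _ => by positivity
  have hsq : ∀ z : ℂ, ((‖z‖ ^ 2 : ℝ) : ℂ) = z * conj z := by
    intro z; rw [Complex.mul_conj, Complex.normSq_eq_norm_sq]
  have hE : ((∫ s in (0 : ℝ)..2 * π, ‖g s - P s‖ ^ 2 : ℝ) : ℂ) =
      ((∫ s in (0 : ℝ)..2 * π, ‖g s‖ ^ 2 : ℝ) : ℂ) - ((2 * π * ∑ j ∈ Finset.range K, ‖c j‖ ^ 2 : ℝ) : ℂ) := by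
    rw [← intervalIntegral.integral_ofReal, ← intervalIntegral.integral_ofReal]
    have e1 : ∀ s, ((‖g s - P s‖ ^ 2 : ℝ) : ℂ) =
        ((‖g s‖ ^ 2 : ℝ) : ℂ) - g s * conj (P s) - P s * conj (g s) + P s * conj (P s) := by
      intro s; rw [hsq, hsq, map_sub]; ring
    simp_rw [e1]
    have i1 : IntervalIntegrable (fun s => ((‖g s‖ ^ 2 : ℝ) : ℂ)) volume 0 (2 * π) :=
      (Complex.continuous_ofReal.comp (hg.norm.pow 2)).intervalIntegrable _ _
    have i2 : IntervalIntegrable (fun s => g s * conj (P s)) volume 0 (2 * π) :=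
      (hg.mul hcPc).intervalIntegrable _ _
    have i3 : IntervalIntegrable (fun s => P s * conj (g s)) volume 0 (2 * π) :=
      (hPc.mul hcg).intervalIntegrable _ _
    have i4 : IntervalIntegrable (fun s => P s * conj (P s)) volume 0 (2 * π) :=
      (hPc.mul hcPc).intervalIntegrable _ _
    rw [intervalIntegral.integral_add ((i1.sub i2).sub i3) i4,
      intervalIntegral.integral_sub (i1.sub i2) i3, intervalIntegral.integral_sub i1 i2, hgP, hPg, hPP]
    ring
  have hE' : ∫ s in (0 : ℝ)..2 * π, ‖g s - P s‖ ^ 2 =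
      (∫ s in (0 : ℝ)..2 * π, ‖g s‖ ^ 2) - 2 * π * ∑ j ∈ Finset.range K, ‖c j‖ ^ 2 := by
    exact_mod_cast hE
  have : 2 * π * ∑ j ∈ Finset.range K, ‖c j‖ ^ 2 ≤ ∫ s in (0 : ℝ)..2 * π, ‖g s‖ ^ 2 := by linarith
  rw [smul_eq_mul, inv_mul_eq_div, le_div_iff₀ hpi, mul_comm]
  exact this

theorem S_nonneg (K r : ℕ) (v : Fin r → En n) (p : En n → ℂ) (z : En n) : 0 ≤ S K r v p z := by
  induction r generalizing p with
  | zero => simp only [S]; positivity
  | succ r ih => simp only [S]; exact Finset.sum_nonneg fun j _ => ih _ _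

theorem continuous_cons {r : ℕ} :
    Continuous fun x : ℝ × (Fin r → ℝ) => (Fin.cons x.1 x.2 : Fin (r + 1) → ℝ) := by
  refine continuous_pi fun i => ?_
  refine Fin.cases ?_ (fun j => ?_) i
  · simpa using continuous_fst
  · simp only [Fin.cons_succ]; exact (continuous_apply j).comp continuous_snd

theorem update_cons_succ {r : ℕ} (s : ℝ) (θ : Fin r → ℝ) (i : Fin r) (u : ℝ) :
    (Fin.cons s (Function.update θ i u) : Fin (r + 1) → ℝ) =
      Function.update (Fin.cons s θ : Fin (r + 1) → ℝ) i.succ u := by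
  rw [Fin.cons_update]

theorem update_cons_zero {r : ℕ} (s : ℝ) (θ : Fin r → ℝ) (u : ℝ) :
    Function.update (Fin.cons s θ : Fin (r + 1) → ℝ) 0 u = Fin.cons u θ := by
  rw [Fin.update_cons_zero]

/-- the Fourier coefficients of `h` in the first variable are in the class -/
theorem ana_coef {r : ℕ} {h : (Fin (r + 1) → ℝ) → ℂ} (hh : Ana (r + 1) h) (j : ℕ) :
    Ana r (fun θ => ((2 * π)⁻¹ : ℝ) • ∫ s in (0 : ℝ)..2 * π, h (Fin.cons s θ) * conj (ec s) ^ j) := by
  have hec : Continuous ec := continuous_ec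
  have hcc : Continuous fun s => conj (ec s) := Complex.continuous_conj.comp hec
  have hpi : (0 : ℝ) ≤ 2 * π := by positivity
  constructor
  · have : Continuous fun x : (Fin r → ℝ) × ℝ => h (Fin.cons x.2 x.1) * conj (ec x.2) ^ j := by
      refine Continuous.mul ?_ ((hcc.comp continuous_snd).pow j)
      exact hh.cont.comp (continuous_cons.comp continuous_swap)
    exact (intervalIntegral.continuous_parametric_intervalIntegral_of_continuous'
      (μ := volume) (f := fun (θ : Fin r → ℝ) (s : ℝ) => h (Fin.cons s θ) * conj (ec s) ^ j) this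
      0 (2 * π)).const_smul ((2 * π)⁻¹ : ℝ)
  · intro i θ m
    have e : ∀ u, (((2 * π)⁻¹ : ℝ) • ∫ s in (0 : ℝ)..2 * π,
        h (Fin.cons s (Function.update θ i u)) * conj (ec s) ^ j) * ec u ^ (m + 1) =
        ((2 * π)⁻¹ : ℝ) • ∫ s in (0 : ℝ)..2 * π,
          h (Function.update (Fin.cons s θ : Fin (r + 1) → ℝ) i.succ u) * ec u ^ (m + 1) * conj (ec s) ^ j := by
      intro u
      rw [smul_mul_assoc, ← intervalIntegral.integral_mul_const]
      congr 1
      refine intervalIntegral.integral_congr fun s _ => ?_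
      rw [update_cons_succ]; ring
    simp_rw [e]
    rw [intervalIntegral.integral_smul]
    have hF : Continuous fun x : ℝ × ℝ =>
        h (Function.update (Fin.cons x.2 θ : Fin (r + 1) → ℝ) i.succ x.1) * ec x.1 ^ (m + 1) *
          conj (ec x.2) ^ j := by
      refine Continuous.mul (Continuous.mul (hh.cont.comp ?_) ((hec.comp continuous_fst).pow _))
        ((hcc.comp continuous_snd).pow j)
      refine Continuous.update ?_ i.succ continuous_fst
      exact continuous_cons.comp (continuous_snd.prodMk continuous_const)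
    rw [intervalIntegral_intervalIntegral_swap (F := fun u s =>
        h (Function.update (Fin.cons s θ : Fin (r + 1) → ℝ) i.succ u) * ec u ^ (m + 1) * conj (ec s) ^ j)]
    · have : ∀ s, ∫ u in (0 : ℝ)..2 * π,
          h (Function.update (Fin.cons s θ : Fin (r + 1) → ℝ) i.succ u) * ec u ^ (m + 1) * conj (ec s) ^ j = 0 := by
        intro s
        rw [intervalIntegral.integral_mul_const, hh.neg i.succ (Fin.cons s θ) m, zero_mul]
      simp_rw [this]; simp
    · have : IntegrableOn (Function.uncurry fun u s : ℝ =>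
          h (Function.update (Fin.cons s θ : Fin (r + 1) → ℝ) i.succ u) * ec u ^ (m + 1) * conj (ec s) ^ j)
          (Icc 0 (2 * π) ×ˢ Icc 0 (2 * π)) :=
        hF.continuousOn.integrableOn_compact (isCompact_Icc.prod isCompact_Icc)
      refine this.mono_set ?_
      rw [uIoc_of_le hpi]
      exact prod_mono Ioc_subset_Icc_self Ioc_subset_Icc_self

/-- **Main inequality.** Induction on `r`, with Q_expand, Q_mem, bessel, ana_coef, M_swap and Cauchy-Schwarz for
the finite sum over the frequencies; the frequency `-1` drops out because `h` is analytic. -/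
theorem main_ineq {R r : ℕ} {v : Fin r → En n} (hv : ∀ i, ‖v i‖ = 1) {p : En n → ℂ} (hp : p ∈ W n R)
    {h : (Fin r → ℝ) → ℂ} (hh : Ana r h) (z : En n) :
    ‖M r (fun θ => h θ * conj (p (G r v z (ex θ))))‖ ^ 2 ≤
      M r (fun θ => ‖h θ‖ ^ 2) * S (R + 1) r v p z := by
  induction r generalizing p with
  | zero =>
    simp only [M, S, G, norm_mul, RCLike.norm_conj, mul_pow]
    exact le_rfl
  | succ r ih =>
    have hec : Continuous ec := continuous_ec
    have hcc : Continuous fun s => conj (ec s) := Complex.continuous_conj.comp hec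
    have hpi : (0 : ℝ) < 2 * π := by positivity
    set v' : Fin r → En n := Fin.tail v with hv'
    have hv1 : ∀ i, ‖v' i‖ = 1 := fun i => hv i.succ
    have hv0 : ‖v 0‖ = 1 := hv 0
    set q : ℕ → En n → ℂ := fun j => Q (v 0) j p with hq
    have hqm : ∀ j, q j ∈ W n R := fun j => Q_mem hp hv0 j
    set Y : (Fin r → ℝ) → En n := fun θ => G r v' z (ex θ) with hY
    have hYc : Continuous Y := (G_diff r v' z).continuous.comp continuous_ex
    have hqY : ∀ j, Continuous fun θ => conj (q j (Y θ)) := fun j =>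
      Complex.continuous_conj.comp ((W_cont (hqm j)).comp hYc)
    -- Fourier coefficients of `h`
    set a : ℕ → (Fin r → ℝ) → ℂ := fun j θ =>
      ((2 * π)⁻¹ : ℝ) • ∫ s in (0 : ℝ)..2 * π, h (Fin.cons s θ) * conj (ec s) ^ j with ha
    have haA : ∀ j, Ana r (a j) := fun j => ana_coef hh j
    have hcons : ∀ s (θ : Fin r → ℝ), h (Fin.cons s θ : Fin (r + 1) → ℝ) *
        conj (p (G (r + 1) v z (ex (Fin.cons s θ : Fin (r + 1) → ℝ)))) =
        ∑ j ∈ Finset.range (R + 2), (h (Fin.cons s θ) * (conj (ec s) ^ j * ec s)) * conj (q j (Y θ)) := by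
      intro s θ
      have h1 : G (r + 1) v z (ex (Fin.cons s θ : Fin (r + 1) → ℝ)) = D (v 0) (ec s) (Y θ) := by
        rw [ex_cons]; simp only [G, Fin.cons_zero, Fin.tail_cons]; rfl
      rw [h1, Q_expand hp hv0 (ec s) (norm_ec s) (Y θ), map_sum, Finset.mul_sum]
      refine Finset.sum_congr rfl fun j _ => ?_
      simp only [map_mul, map_pow, Complex.conj_conj, hq]
      ring
    have hterm : ∀ j, Continuous fun x : ℝ × (Fin r → ℝ) =>
        (h (Fin.cons x.1 x.2) * (conj (ec x.1) ^ j * ec x.1)) * conj (q j (Y x.2)) := by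
      intro j
      refine Continuous.mul (Continuous.mul (hh.cont.comp continuous_cons)
        (((hcc.comp continuous_fst).pow j).mul (hec.comp continuous_fst))) ((hqY j).comp continuous_snd)
    have hterm1 : ∀ j s, Continuous fun θ : Fin r → ℝ =>
        (h (Fin.cons s θ) * (conj (ec s) ^ j * ec s)) * conj (q j (Y θ)) := fun j s =>
      (hterm j).comp (continuous_const.prodMk continuous_id)
    -- the coefficient of the `j`-th component
    have hint : ∀ j θ, ((2 * π)⁻¹ : ℝ) • ∫ s in (0 : ℝ)..2 * π,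
        (h (Fin.cons s θ) * (conj (ec s) ^ j * ec s)) * conj (q j (Y θ)) =
        (match j with
          | 0 => 0
          | j + 1 => a j θ * conj (q (j + 1) (Y θ))) := by
      intro j θ
      rw [intervalIntegral.integral_mul_const]
      cases j with
      | zero =>
        have h0 := hh.neg 0 (Fin.cons 0 θ) 0
        simp_rw [update_cons_zero] at h0
        have : ∫ s in (0 : ℝ)..2 * π, h (Fin.cons s θ) * (conj (ec s) ^ 0 * ec s) = 0 := by
          rw [← h0]; refine intervalIntegral.integral_congr fun s _ => ?_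
          simp
        rw [this]; simp
      | succ j =>
        have : ∀ s, h (Fin.cons s θ : Fin (r + 1) → ℝ) * (conj (ec s) ^ (j + 1) * ec s) =
            h (Fin.cons s θ : Fin (r + 1) → ℝ) * conj (ec s) ^ j := by
          intro s; rw [pow_succ, mul_assoc, mul_comm (conj (ec s)) (ec s), ec_mul_conj, mul_one]
        simp_rw [this]
        rw [← smul_mul_assoc]
    have hsum : M (r + 1) (fun θ => h θ * conj (p (G (r + 1) v z (ex θ)))) =
        ∑ j ∈ Finset.range (R + 1), M r (fun θ => a j θ * conj (q (j + 1) (Y θ))) := by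
      have e1 : M (r + 1) (fun θ => h θ * conj (p (G (r + 1) v z (ex θ)))) =
          ((2 * π)⁻¹ : ℝ) • ∫ s in (0 : ℝ)..2 * π, ∑ j ∈ Finset.range (R + 2),
            M r (fun θ => (h (Fin.cons s θ) * (conj (ec s) ^ j * ec s)) * conj (q j (Y θ))) := by
        simp only [M]
        congr 1
        refine intervalIntegral.integral_congr fun s _ => ?_
        rw [← M_sum _ fun j _ => hterm1 j s]
        congr 1
        funext θ
        exact hcons s θ
      have e2 : ∀ j, ((2 * π)⁻¹ : ℝ) • ∫ s in (0 : ℝ)..2 * π,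
          M r (fun θ => (h (Fin.cons s θ) * (conj (ec s) ^ j * ec s)) * conj (q j (Y θ))) =
          M r (fun θ => ((2 * π)⁻¹ : ℝ) • ∫ s in (0 : ℝ)..2 * π,
            (h (Fin.cons s θ) * (conj (ec s) ^ j * ec s)) * conj (q j (Y θ))) := by
        intro j
        rw [← M_swap (hterm j)]
        simp only [Complex.real_smul]
        rw [M_mul_left]
      rw [e1, intervalIntegral.integral_finsetSum, Finset.smul_sum]
      · simp_rw [e2, hint]
        rw [Finset.sum_range_succ']
        simp only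
        have : M r (fun _ : Fin r → ℝ => (0 : ℂ)) = 0 := M_const r 0
        rw [this, add_zero]
      · intro j _
        exact (M_cont (hterm j)).intervalIntegrable _ _
    rw [hsum]
    have hle : ‖∑ j ∈ Finset.range (R + 1), M r (fun θ => a j θ * conj (q (j + 1) (Y θ)))‖ ^ 2 ≤
        (∑ j ∈ Finset.range (R + 1), ‖M r (fun θ => a j θ * conj (q (j + 1) (Y θ)))‖) ^ 2 := by
      gcongr; exact norm_sum_le _ _
    refine hle.trans ?_
    have hcs := Finset.sum_sq_le_sum_mul_sum_of_sq_le_mul (Finset.range (R + 1))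
      (r := fun j => ‖M r (fun θ => a j θ * conj (q (j + 1) (Y θ)))‖)
      (f := fun j => M r (fun θ => ‖a j θ‖ ^ 2))
      (g := fun j => S (R + 1) r v' (q (j + 1)) z)
      (fun j _ => M_nonneg fun θ => by positivity)
      (fun j _ => S_nonneg _ _ _ _ _)
      (fun j _ => ih hv1 (hqm (j + 1)) (haA j))
    refine hcs.trans ?_
    have hS : ∑ j ∈ Finset.range (R + 1), S (R + 1) r v' (q (j + 1)) z = S (R + 1) (r + 1) v p z := by
      simp only [S, hq, hv']
    rw [hS]
    refine mul_le_mul_of_nonneg_right ?_ (S_nonneg _ _ _ _ _)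
    have haa : ∀ j, Continuous fun θ => ‖a j θ‖ ^ 2 := fun j => (haA j).cont.norm.pow 2
    rw [← M_sum _ fun j _ => haa j]
    have hhc : Continuous fun x : ℝ × (Fin r → ℝ) => ‖h (Fin.cons x.1 x.2 : Fin (r + 1) → ℝ)‖ ^ 2 :=
      (hh.cont.comp continuous_cons).norm.pow 2
    have e3 : M (r + 1) (fun θ => ‖h θ‖ ^ 2) =
        M r (fun θ => (2 * π)⁻¹ • ∫ s in (0 : ℝ)..2 * π, ‖h (Fin.cons s θ : Fin (r + 1) → ℝ)‖ ^ 2) := by
      simp only [M, smul_eq_mul]
      rw [← M_swap hhc, M_mul_left']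
    rw [e3]
    refine M_mono ?_ ?_ fun θ => ?_
    · exact continuous_finsetSum _ fun j _ => haa j
    · exact (intervalIntegral.continuous_parametric_intervalIntegral_of_continuous'
        (μ := volume) (f := fun (θ : Fin r → ℝ) (s : ℝ) => ‖h (Fin.cons s θ : Fin (r + 1) → ℝ)‖ ^ 2)
        (hhc.comp continuous_swap) 0 (2 * π)).const_smul ((2 * π)⁻¹ : ℝ)
    · exact bessel (hh.cont.comp (continuous_cons.comp (continuous_id.prodMk continuous_const))) (R + 1)

end Pool.Agent.MPca0fc2.PD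
end

section

/-! Campaign PD, row E: the energy. -/

set_option autoImplicit false

open Metric Set MeasureTheory
open scoped Real ComplexConjugate

namespace Pool.Agent.MPca0fc2.PD

variable {n : ℕ}

/-- unitary maps preserve the volume (`LinearIsometryEquiv.measurePreserving`) -/
theorem Nm_comp {p : En n → ℂ} (U : En n ≃ₗᵢ[ℂ] En n) : Nm (fun y => p (U y)) = Nm p := by
  let V : En n ≃ₗᵢ[ℝ] En n :=
    { U.toLinearEquiv.restrictScalars ℝ with norm_map' := fun y => U.norm_map y }
  have h1 : MeasurePreserving V volume volume := V.measurePreserving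
  have h2 : (fun y => U y) = V := rfl
  unfold Nm
  have h3 : ball (0 : En n) 1 = V ⁻¹' (ball 0 1) := by
    ext y
    simp only [mem_preimage, mem_ball_zero_iff]
    rw [V.norm_map]
  conv_lhs => rw [h3]
  exact h1.setIntegral_preimage_emb V.toHomeomorph.measurableEmbedding (fun y => ‖p y‖ ^ 2) (ball 0 1)

theorem Nm_nonneg (p : En n → ℂ) : 0 ≤ Nm p := integral_nonneg fun y => sq_nonneg _

theorem E_integrable {p : En n → ℂ} (hp : Continuous p) :
    IntegrableOn (fun y => ‖p y‖ ^ 2) (ball (0 : En n) 1) := by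
  have h1 : IntegrableOn (fun y => ‖p y‖ ^ 2) (closedBall (0 : En n) 1) :=
    (hp.norm.pow 2).continuousOn.integrableOn_compact (isCompact_closedBall 0 1)
  exact h1.mono_set ball_subset_closedBall

/-- Parseval's identity with the roots of unity of order `R + 2` -/
theorem E_parseval_roots {R : ℕ} (q : ℕ → ℂ) :
    ∑ m ∈ Finset.range (R + 2), ‖∑ j ∈ Finset.range (R + 2),
      (Complex.exp (2 * π * Complex.I / (R + 2 : ℕ)) ^ m) ^ j *
        conj (Complex.exp (2 * π * Complex.I / (R + 2 : ℕ)) ^ m) * q j‖ ^ 2 =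
      (R + 2 : ℕ) * ∑ j ∈ Finset.range (R + 2), ‖q j‖ ^ 2 := by
  set ζ := Complex.exp (2 * π * Complex.I / (R + 2 : ℕ)) with hζ
  have hN : (R + 2 : ℕ) ≠ 0 := by omega
  have hprim : IsPrimitiveRoot ζ (R + 2) := Complex.isPrimitiveRoot_exp (R + 2) hN
  have hnorm : ‖ζ‖ = 1 := hprim.norm'_eq_one hN
  have h1 : ∀ m : ℕ, ((‖∑ j ∈ Finset.range (R + 2), (ζ ^ m) ^ j * conj (ζ ^ m) * q j‖ ^ 2 : ℝ) : ℂ) =
      ∑ i ∈ Finset.range (R + 2), ∑ j ∈ Finset.range (R + 2),
        (q i * conj (q j)) * ((ζ ^ m) ^ i * conj (ζ ^ m) ^ j) := by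
    intro m
    have hm : ζ ^ m * conj (ζ ^ m) = 1 := by
      rw [Complex.mul_conj, Complex.normSq_eq_norm_sq, norm_pow, hnorm]
      simp
    rw [← Complex.normSq_eq_norm_sq, ← Complex.mul_conj, map_sum, Finset.sum_mul_sum]
    refine Finset.sum_congr rfl fun i _ => Finset.sum_congr rfl fun j _ => ?_
    simp only [map_mul, map_pow, Complex.conj_conj]
    have hm' : ζ ^ m * conj ζ ^ m = 1 := by rw [← hm, map_pow]
    calc _ = (ζ ^ m * conj ζ ^ m) * (q i * conj (q j) * ((ζ ^ m) ^ i * (conj ζ ^ m) ^ j)) := by ring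
      _ = _ := by rw [hm', one_mul]
  have h2 : ((∑ m ∈ Finset.range (R + 2), ‖∑ j ∈ Finset.range (R + 2),
      (ζ ^ m) ^ j * conj (ζ ^ m) * q j‖ ^ 2 : ℝ) : ℂ) =
      (((R + 2 : ℕ) * ∑ j ∈ Finset.range (R + 2), ‖q j‖ ^ 2 : ℝ) : ℂ) := by
    rw [Complex.ofReal_sum]
    simp_rw [h1]
    rw [Finset.sum_comm]
    have h3 : ∀ i ∈ Finset.range (R + 2), (∑ m ∈ Finset.range (R + 2), ∑ j ∈ Finset.range (R + 2),
        (q i * conj (q j)) * ((ζ ^ m) ^ i * conj (ζ ^ m) ^ j)) = (R + 2 : ℕ) * ((‖q i‖ ^ 2 : ℝ) : ℂ) := by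
      intro i hi
      rw [Finset.sum_comm]
      have h4 : ∀ j ∈ Finset.range (R + 2), (∑ m ∈ Finset.range (R + 2),
          (q i * conj (q j)) * ((ζ ^ m) ^ i * conj (ζ ^ m) ^ j)) =
          if i = j then (R + 2 : ℕ) * ((‖q i‖ ^ 2 : ℝ) : ℂ) else 0 := by
        intro j hj
        rw [← Finset.mul_sum, W_roots hN (Finset.mem_range.1 hi) (Finset.mem_range.1 hj)]
        split_ifs with h
        · subst h
          rw [Complex.mul_conj, Complex.normSq_eq_norm_sq, mul_comm]
        · rw [mul_zero]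
      rw [Finset.sum_congr rfl h4, Finset.sum_ite_eq, if_pos hi]
    rw [Finset.sum_congr rfl h3, ← Finset.mul_sum]
    push_cast
    rfl
  exact_mod_cast h2

/-- Parseval: mean over `s` in the circle of `Nm (p (D v s ·)) = Nm p` (or over the roots of unity of order `R + 2`) -/
theorem parseval {R : ℕ} {p : En n → ℂ} (hp : p ∈ W n R) {v : En n} (hv : ‖v‖ = 1) :
    ∑ j ∈ Finset.range (R + 2), Nm (Q v j p) = Nm p := by
  set ζ := Complex.exp (2 * π * Complex.I / (R + 2 : ℕ)) with hζ
  have hN : (R + 2 : ℕ) ≠ 0 := by omega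
  have hprim : IsPrimitiveRoot ζ (R + 2) := Complex.isPrimitiveRoot_exp (R + 2) hN
  have hnorm : ‖ζ‖ = 1 := hprim.norm'_eq_one hN
  have hnm : ∀ m : ℕ, ‖ζ ^ m‖ = 1 := fun m => by rw [norm_pow, hnorm, one_pow]
  have h1 : ∀ m : ℕ, Nm (fun y => p (D v (ζ ^ m) y)) = Nm p := by
    intro m
    obtain ⟨U, hU⟩ := D_isometry hv (hnm m)
    have : (fun y => p (D v (ζ ^ m) y)) = fun y => p (U y) := by
      funext y
      rw [hU]
    rw [this, Nm_comp]
  have h2 : ∀ y : En n, ∑ m ∈ Finset.range (R + 2), ‖p (D v (ζ ^ m) y)‖ ^ 2 =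
      (R + 2 : ℕ) * ∑ j ∈ Finset.range (R + 2), ‖Q v j p y‖ ^ 2 := by
    intro y
    rw [← E_parseval_roots (R := R) (fun j => Q v j p y)]
    refine Finset.sum_congr rfl fun m _ => ?_
    rw [Q_expand hp hv (ζ ^ m) (hnm m) y]
  have h3 : ∀ m, IntegrableOn (fun y => ‖p (D v (ζ ^ m) y)‖ ^ 2) (ball (0 : En n) 1) := by
    intro m
    refine E_integrable (p := fun y => p (D v (ζ ^ m) y)) ((W_cont hp).comp ?_)
    exact (D_diff v).continuous.comp (by fun_prop : Continuous fun y : En n => ((ζ ^ m, y) : ℂ × En n))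
  have h4 : ∀ j, IntegrableOn (fun y => ‖Q v j p y‖ ^ 2) (ball (0 : En n) 1) := fun j =>
    E_integrable (W_cont (Q_mem hp hv j))
  have h5 : (R + 2 : ℕ) * Nm p = (R + 2 : ℕ) * ∑ j ∈ Finset.range (R + 2), Nm (Q v j p) := by
    calc (R + 2 : ℕ) * Nm p = ∑ m ∈ Finset.range (R + 2), Nm (fun y => p (D v (ζ ^ m) y)) := by
          rw [Finset.sum_congr rfl fun m _ => h1 m, Finset.sum_const, Finset.card_range, nsmul_eq_mul]
      _ = ∫ y in ball (0 : En n) 1, ∑ m ∈ Finset.range (R + 2), ‖p (D v (ζ ^ m) y)‖ ^ 2 := by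
          rw [integral_finsetSum _ fun m _ => h3 m]
          rfl
      _ = ∫ y in ball (0 : En n) 1, (R + 2 : ℕ) * ∑ j ∈ Finset.range (R + 2), ‖Q v j p y‖ ^ 2 := by
          simp_rw [h2]
      _ = (R + 2 : ℕ) * ∑ j ∈ Finset.range (R + 2), Nm (Q v j p) := by
          rw [integral_const_mul, integral_finsetSum _ fun j _ => h4 j]
          rfl
  have h6 : ((R + 2 : ℕ) : ℝ) ≠ 0 := Nat.cast_ne_zero.2 hN
  exact (mul_left_cancel₀ h6 h5).symm

end Pool.Agent.MPca0fc2.PD
end
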