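import Pool.Agent.Lib.MP_ca0fc2_an.Mg.G099
import Pool.Agent.Lib.MP_ca0fc2_an.Mg.G101
import Pool.Agent.Lib.MP_ca0fc2_an.Mg.G073
import Pool.Agent.Lib.MP_ca0fc2_an.Mg.G104

section

/-! Campaign DS, row 5: continuation of the means, the bound of the coefficients. -/

set_option autoImplicit false

open Metric Set Filter Topology MeasureTheory
open scoped Real

namespace Pool.Agent.MPca0fc2.DS

theorem s5_mem {s : ℂ} (hs : s ∈ RHP) (t : ℝ) : s + t * Complex.I ∈ RHP := by
  have h : 0 < s.re := hs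
  show 0 < (s + t * Complex.I).re
  simpa using h

theorem s5_convex : Convex ℝ RHP := convex_halfSpace_re_gt 0

/-- If the means of `F(s + it) κ(t)` tend to `E s` for `Re s > σ`, where `|κ| ≤ k` and the mean of `k` is `1`, then
`|E| ≤ A` on the right half plane: the means are holomorphic in `s` (`mean_diff`), bounded by
`A mean k`; ultralimit in `T` (`SL.ultra_holo`), identity theorem. -/
theorem mean_cont {F : ℂ → ℂ} {A : ℝ} (hF : DifferentiableOn ℂ F RHP) (hA : ∀ s ∈ RHP, ‖F s‖ ≤ A)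
    {κ : ℝ → ℂ} {k : ℝ → ℝ} (hκ : Continuous κ) (hk : Continuous k) (hκk : ∀ t, ‖κ t‖ ≤ k t)
    (hk1 : Tendsto (fun T : ℕ => mean ((T : ℝ) + 1) fun t => (k t : ℂ)) atTop (𝓝 1))
    {E : ℂ → ℂ} (hE : DifferentiableOn ℂ E RHP) {σ : ℝ}
    (hlim : ∀ s : ℂ, σ < s.re → 0 < s.re →
      Tendsto (fun T : ℕ => mean ((T : ℝ) + 1) fun t => F (s + t * Complex.I) * κ t) atTop (𝓝 (E s))) :
    ∀ s ∈ RHP, ‖E s‖ ≤ A := by
  have hA0 : 0 ≤ A := (norm_nonneg _).trans (hA 1 (by show 0 < (1 : ℂ).re; simp))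
  obtain ⟨G, hG⟩ : ∃ G : ℕ → ℂ → ℂ, ∀ T s, G T s =
      mean ((T : ℝ) + 1) fun t => F (s + t * Complex.I) * κ t := ⟨_, fun _ _ => rfl⟩
  have hGd : ∀ T, DifferentiableOn ℂ (G T) RHP := by
    intro T
    have h1 : G T = fun s => mean ((T : ℝ) + 1) ((fun (s : ℂ) (t : ℝ) =>
        F (s + t * Complex.I) * κ t) s) := funext fun s => hG T s
    rw [h1]
    refine mean_diff isOpen_RHP _ ?_ ?_
    · refine ContinuousOn.mul (hF.continuousOn.comp ?_ ?_) (hκ.comp continuous_snd).continuousOn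
      · exact (Continuous.continuousOn (by fun_prop))
      · rintro ⟨s, t⟩ ⟨hs, -⟩
        exact s5_mem hs t
    · intro t
      refine DifferentiableOn.mul_const (hF.comp ?_ ?_) _
      · exact (differentiable_id.add_const _).differentiableOn
      · intro s hs
        exact s5_mem hs t
  have hGb : ∀ T, ∀ s ∈ RHP, ‖G T s‖ ≤ A * ‖mean ((T : ℝ) + 1) fun t => (k t : ℂ)‖ := by
    intro T s hs
    rw [hG]
    refine mean_le hA0 ?_ hκ hk hκk fun t => hA _ (s5_mem hs t)
    rw [continuous_iff_continuousAt]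
    intro t
    have h1 : ContinuousAt F (s + t * Complex.I) :=
      (hF.differentiableAt (isOpen_RHP.mem_nhds (s5_mem hs t))).continuousAt
    exact ContinuousAt.comp (f := fun t : ℝ => s + t * Complex.I) h1 (by fun_prop)
  have hk2 : Tendsto (fun T : ℕ => A * ‖mean ((T : ℝ) + 1) fun t => (k t : ℂ)‖) atTop (𝓝 A) := by
    have h1 := (hk1.norm).const_mul A
    rwa [norm_one, mul_one] at h1
  obtain ⟨M, hM⟩ := hk2.bddAbove_range
  have hM' : ∀ T : ℕ, A * ‖mean ((T : ℝ) + 1) fun t => (k t : ℂ)‖ ≤ M := fun T => hM ⟨T, rfl⟩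
  have hM0 : 0 ≤ M := (mul_nonneg hA0 (norm_nonneg _)).trans (hM' 0)
  obtain ⟨g, hgd, -, hgt⟩ := SL.ultra_holo (hyperfilter ℕ) isOpen_RHP hM0 hGd
    fun T s hs => (hGb T s hs).trans (hM' T)
  have hle : (hyperfilter ℕ : Filter ℕ) ≤ atTop := by
    rw [← Nat.cofinite_eq_atTop]
    exact hyperfilter_le_cofinite
  have hgA : ∀ s ∈ RHP, ‖g s‖ ≤ A := by
    intro s hs
    refine le_of_tendsto_of_tendsto (hgt s hs).norm (hk2.mono_left hle) ?_
    exact Filter.Eventually.of_forall fun T => hGb T s hs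
  have heq : ∀ s : ℂ, σ < s.re → 0 < s.re → E s = g s := by
    intro s h1 h2
    have h3 := (hlim s h1 h2).mono_left hle
    refine tendsto_nhds_unique h3 ?_
    have h4 := hgt s h2
    refine h4.congr fun T => hG T s
  obtain ⟨z₀, hz₀⟩ : ∃ z₀ : ℂ, z₀ = ((max σ 0 + 1 : ℝ) : ℂ) := ⟨_, rfl⟩
  have hz₀re : z₀.re = max σ 0 + 1 := by rw [hz₀, Complex.ofReal_re]
  have hσ1 : σ < z₀.re := by rw [hz₀re]; linarith [le_max_left σ 0]
  have hσ2 : 0 < z₀.re := by rw [hz₀re]; linarith [le_max_right σ 0]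
  have hEA : AnalyticOnNhd ℂ E RHP := hE.analyticOnNhd isOpen_RHP
  have hgAn : AnalyticOnNhd ℂ g RHP := hgd.analyticOnNhd isOpen_RHP
  have hev : E =ᶠ[𝓝 z₀] g := by
    have h1 : {s : ℂ | σ < s.re} ∈ 𝓝 z₀ :=
      (isOpen_lt continuous_const Complex.continuous_re).mem_nhds hσ1
    have h2 : {s : ℂ | 0 < s.re} ∈ 𝓝 z₀ :=
      (isOpen_lt continuous_const Complex.continuous_re).mem_nhds hσ2
    filter_upwards [h1, h2] with s hs1 hs2
    exact heq s hs1 hs2
  have hfin := hEA.eqOn_of_preconnected_of_eventuallyEq hgAn s5_convex.isPreconnected hσ2 hev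
  intro s hs
  rw [hfin hs]
  exact hgA s hs

theorem s5_mean_one (T : ℕ) : mean ((T : ℝ) + 1) (fun _ => (((1 : ℝ) : ℝ) : ℂ)) = 1 := by
  unfold mean
  rw [intervalIntegral.integral_const, sub_zero, smul_smul, inv_mul_cancel₀ (by positivity),
    one_smul, Complex.ofReal_one]

/-- `κ t = n^(it)`, `k = 1`, `E s = a_n n^-s`; then `s → 0`. -/
theorem coef_bound {F : ℂ → ℂ} {A : ℝ} (hF : DifferentiableOn ℂ F RHP) (hA : ∀ s ∈ RHP, ‖F s‖ ≤ A)
    {a : ℕ → ℂ} {σ : ℝ} (ha : ∀ s : ℂ, σ < s.re → LSeriesHasSum a s (F s)) {n : ℕ} (hn : n ≠ 0) :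
    ‖a n‖ ≤ A := by
  have hnC : (n : ℂ) ≠ 0 := Nat.cast_ne_zero.mpr hn
  have hEd : Differentiable ℂ fun s : ℂ => a n * (n : ℂ) ^ (-s) := by
    intro s
    refine DifferentiableAt.const_mul ?_ _
    exact (differentiableAt_id.neg).const_cpow (Or.inl hnC)
  have hmain : ∀ s ∈ RHP, ‖a n * (n : ℂ) ^ (-s)‖ ≤ A := by
    refine mean_cont (κ := fun t => Complex.exp (Real.log n * t * Complex.I)) (k := fun _ => 1)
      (σ := σ) hF hA (by fun_prop) continuous_const ?_ ?_ hEd.differentiableOn ?_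
    · intro t
      have h1 : (Real.log n * t * Complex.I : ℂ) = ((Real.log n * t : ℝ) : ℂ) * Complex.I := by
        push_cast
        ring
      rw [h1, Complex.norm_exp_ofReal_mul_I]
    · refine tendsto_const_nhds.congr fun T => ?_
      exact (s5_mean_one T).symm
    · intro s hs1 hs2
      have hsum : Summable fun j => ‖LSeries.term a s j‖ := (ha s hs1).summable.norm
      have h1 := mean_tsum (c := LSeries.term a s) (lam := fun j : ℕ => Real.log n - Real.log j) hsum
      have h2 : (∑' j : ℕ, if Real.log n - Real.log j = 0 then LSeries.term a s j else 0) =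
          a n * (n : ℂ) ^ (-s) := by
        rw [tsum_eq_single n]
        · rw [if_pos (sub_self _), LSeries.term_of_ne_zero hn, Complex.cpow_neg, div_eq_mul_inv]
        · intro j hj
          rcases Nat.eq_zero_or_pos j with h0 | h0
          · rw [h0, LSeries.term_zero, ite_self]
          · rw [if_neg]
            intro h3
            apply hj
            have h4 : Real.log j = Real.log n := by linarith
            have h5 := Real.log_injOn_pos (Set.mem_Ioi.mpr (by exact_mod_cast h0))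
              (Set.mem_Ioi.mpr (by exact_mod_cast Nat.pos_of_ne_zero hn)) h4
            exact_mod_cast h5
      rw [h2] at h1
      refine h1.congr fun T => ?_
      congr 1
      funext t
      have h3 : σ < (s + t * Complex.I).re := by simpa using hs1
      have h4 : F (s + t * Complex.I) = ∑' j, LSeries.term a (s + t * Complex.I) j :=
        (ha _ h3).tsum_eq.symm
      rw [h4, ← tsum_mul_right]
      refine tsum_congr fun j => ?_
      rcases Nat.eq_zero_or_pos j with h0 | h0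
      · rw [h0, LSeries.term_zero, LSeries.term_zero, zero_mul, zero_mul]
      · have hjC : (j : ℂ) ≠ 0 := Nat.cast_ne_zero.mpr h0.ne'
        have h5 : (j : ℂ) ^ ((t : ℂ) * Complex.I) = Complex.exp (Real.log j * t * Complex.I) := by
          rw [Complex.cpow_def_of_ne_zero hjC, ← Complex.natCast_log]
          congr 1
          ring
        have h6 : Complex.exp ((Real.log n - Real.log j : ℝ) * t * Complex.I) =
            Complex.exp (Real.log n * t * Complex.I) / Complex.exp (Real.log j * t * Complex.I) := by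
          rw [← Complex.exp_sub]
          congr 1
          push_cast
          ring
        rw [LSeries.term_of_ne_zero h0.ne', LSeries.term_of_ne_zero h0.ne', Complex.cpow_add _ _ hjC,
          h5, h6]
        have h7 := Complex.exp_ne_zero (Real.log j * t * Complex.I)
        have h8 : (j : ℂ) ^ s ≠ 0 := by
          rw [Complex.cpow_def_of_ne_zero hjC]
          exact Complex.exp_ne_zero _
        field_simp
  have hlim : Tendsto (fun x : ℝ => ‖a n * (n : ℂ) ^ (-(x : ℂ))‖) (𝓝[>] 0) (𝓝 ‖a n‖) := by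
    have h1 : Continuous fun x : ℝ => ‖a n * (n : ℂ) ^ (-(x : ℂ))‖ :=
      (hEd.continuous.comp Complex.continuous_ofReal).norm
    have h2 := (h1.tendsto 0).mono_left (nhdsWithin_le_nhds (s := Set.Ioi (0 : ℝ)))
    simpa using h2
  refine le_of_tendsto hlim ?_
  filter_upwards [self_mem_nhdsWithin] with x hx
  exact hmain x (by show 0 < ((x : ℂ)).re; simpa using hx)

end Pool.Agent.MPca0fc2.DS
end

section

/-! Campaign DS, row 6: the bound of the finite sections. -/

set_option autoImplicit false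

open Metric Set Filter Topology MeasureTheory
open scoped Real ComplexConjugate

namespace Pool.Agent.MPca0fc2.DS

/-- `∑_j z^j N_j^(it)` -/
noncomputable def V {m : ℕ} (z : Fin m → ℂ) (t : ℝ) : ℂ :=
  ∑' j : Fin m → ℕ, mon z j * Complex.exp (Real.log (nu j) * t * Complex.I)

/-- the kernel `∏ (1 - |z_i|²) |V|²` -/
noncomputable def ker {m : ℕ} (z : Fin m → ℂ) (t : ℝ) : ℝ := (∏ i, (1 - ‖z i‖ ^ 2)) * ‖V z t‖ ^ 2

/-- geometric series -/
theorem tsum_mon : ∀ {m : ℕ} {z : Fin m → ℂ}, z ∈ ball (0 : Fin m → ℂ) 1 →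
    ∑' α, mon z α = ∏ i, (1 - z i)⁻¹ := by
  intro m
  induction m with
  | zero =>
    intro z _
    rw [tsum_eq_single default (fun b hb => absurd (Subsingleton.elim _ _) hb)]
    simp [mon]
  | succ m ih =>
    intro z hz
    have h0 : ∀ i, ‖z i‖ < 1 := (mem_ball_coord one_pos).1 hz
    have h1 : (fun i : Fin m => z i.succ) ∈ ball (0 : Fin m → ℂ) 1 :=
      (mem_ball_coord one_pos).2 fun i => h0 _
    have h2 := tsum_cons (c := fun _ => 1) (A := 1) (fun _ => by simp) (h0 0) h1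
    have hzc : (Fin.cons (z 0) (fun i : Fin m => z i.succ) : Fin (m + 1) → ℂ) = z :=
      Fin.cons_self_tail z
    rw [hzc] at h2
    simp only [one_mul, ih h1] at h2
    have h3 := (hasSum_geometric_of_norm_lt_one (h0 0)).mul_right (∏ i : Fin m, (1 - z i.succ)⁻¹)
    rw [h2.unique h3, Fin.prod_univ_succ]

theorem s6_sq_mem {m : ℕ} {z : Fin m → ℂ} (hz : z ∈ ball (0 : Fin m → ℂ) 1) :
    (fun i => ((‖z i‖ ^ 2 : ℝ) : ℂ)) ∈ ball (0 : Fin m → ℂ) 1 := by
  rw [mem_ball_coord one_pos] at hz ⊢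
  intro i
  have h := hz i
  rw [Complex.norm_real, Real.norm_of_nonneg (sq_nonneg _)]
  nlinarith [norm_nonneg (z i)]

theorem s6_mon_sq {m : ℕ} (z : Fin m → ℂ) (α : Fin m → ℕ) :
    mon (fun i => ((‖z i‖ ^ 2 : ℝ) : ℂ)) α = mon z α * conj (mon z α) := by
  rw [Complex.mul_conj, Complex.normSq_eq_norm_sq]
  simp only [mon, norm_prod, norm_pow]
  push_cast
  rw [← Finset.prod_pow]
  exact Finset.prod_congr rfl fun i _ => by ring

/-- the constant -/
noncomputable def cst {m : ℕ} (z : Fin m → ℂ) : ℂ := ((∏ i, (1 - ‖z i‖ ^ 2) : ℝ) : ℂ)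

theorem s6_one {m : ℕ} {z : Fin m → ℂ} (hz : z ∈ ball (0 : Fin m → ℂ) 1) :
    ∑' α, cst z * (mon z α * conj (mon z α)) = 1 := by
  have h0 : ∀ i, ‖z i‖ < 1 := (mem_ball_coord one_pos).1 hz
  rw [tsum_mul_left]
  have h1 := tsum_mon (s6_sq_mem hz)
  simp only [s6_mon_sq] at h1
  rw [h1, cst]
  push_cast
  rw [← Finset.prod_mul_distrib]
  refine Finset.prod_eq_one fun i _ => ?_
  have h2 : (1 - (‖z i‖ : ℂ) ^ 2) ≠ 0 := by
    have h3 : (1 - ‖z i‖ ^ 2 : ℝ) ≠ 0 := by
      have := h0 i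
      nlinarith [norm_nonneg (z i)]
    exact_mod_cast h3
  exact mul_inv_cancel₀ h2

theorem s6_exp_norm (x t : ℝ) : ‖Complex.exp (x * t * Complex.I)‖ = 1 := by
  rw [← Complex.ofReal_mul, Complex.norm_exp_ofReal_mul_I]

theorem s6_conj_exp (x t : ℝ) :
    conj (Complex.exp (x * t * Complex.I)) = Complex.exp (-(x * t * Complex.I)) := by
  rw [← Complex.exp_conj]
  congr 1
  simp [Complex.conj_ofReal]

theorem s6_V_summable {m : ℕ} {z : Fin m → ℂ} (hz : z ∈ ball (0 : Fin m → ℂ) 1) (t : ℝ) :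
    Summable fun j : Fin m → ℕ => ‖mon z j * Complex.exp (Real.log (nu j) * t * Complex.I)‖ := by
  refine (summable_mon hz).congr fun j => ?_
  rw [norm_mul, s6_exp_norm, mul_one]

/-- coefficients of the kernel -/
noncomputable def kc {m : ℕ} (z : Fin m → ℂ) (x : (Fin m → ℕ) × (Fin m → ℕ)) : ℂ :=
  cst z * (mon z x.1 * conj (mon z x.2))

theorem s6_kc_summable {m : ℕ} {z : Fin m → ℂ} (hz : z ∈ ball (0 : Fin m → ℂ) 1) :
    Summable fun x => ‖kc z x‖ := by
  have h1 := (summable_mon hz).mul_of_nonneg (summable_mon hz) (fun _ => norm_nonneg _)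
    (fun _ => norm_nonneg _)
  refine (h1.mul_left ‖cst z‖).congr fun x => ?_
  rw [kc, norm_mul, norm_mul, RCLike.norm_conj]

theorem s6_ker {m : ℕ} {z : Fin m → ℂ} (hz : z ∈ ball (0 : Fin m → ℂ) 1) (t : ℝ) :
    (ker z t : ℂ) = ∑' x : (Fin m → ℕ) × (Fin m → ℕ),
      kc z x * Complex.exp ((Real.log (nu x.1) - Real.log (nu x.2) : ℝ) * t * Complex.I) := by
  have h1 : (ker z t : ℂ) = cst z * (V z t * conj (V z t)) := by
    rw [Complex.mul_conj, Complex.normSq_eq_norm_sq, ker, cst]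
    push_cast
    rfl
  have hs := s6_V_summable hz t
  have h2 : conj (V z t) = ∑' l : Fin m → ℕ, conj (mon z l) *
      Complex.exp (-(Real.log (nu l) * t * Complex.I)) := by
    rw [V, Complex.conj_tsum]
    refine tsum_congr fun l => ?_
    rw [map_mul, s6_conj_exp]
  have hs2 : Summable fun l : Fin m → ℕ => ‖conj (mon z l) *
      Complex.exp (-(Real.log (nu l) * t * Complex.I))‖ := by
    refine hs.congr fun l => ?_
    rw [norm_mul, norm_mul, RCLike.norm_conj, ← s6_conj_exp, RCLike.norm_conj]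
  rw [h1, h2, V, tsum_mul_tsum_of_summable_norm hs hs2, ← tsum_mul_left]
  refine tsum_congr fun x => ?_
  have h3 : Complex.exp ((Real.log (nu x.1) - Real.log (nu x.2) : ℝ) * t * Complex.I) =
      Complex.exp (Real.log (nu x.1) * t * Complex.I) *
        Complex.exp (-(Real.log (nu x.2) * t * Complex.I)) := by
    rw [← Complex.exp_add]
    congr 1
    push_cast
    ring
  rw [h3, kc]
  ring

theorem s6_log_inj {a b : ℕ} (ha : 0 < a) (hb : 0 < b) (h : Real.log a = Real.log b) : a = b := by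
  have h5 := Real.log_injOn_pos (Set.mem_Ioi.mpr (by exact_mod_cast ha))
    (Set.mem_Ioi.mpr (by exact_mod_cast hb)) h
  exact_mod_cast h5

/-- index set `(j, l)`, frequency `log N_j - log N_l` -/
theorem ker_mean {m : ℕ} {z : Fin m → ℂ} (hz : z ∈ ball (0 : Fin m → ℂ) 1) :
    Tendsto (fun T : ℕ => mean ((T : ℝ) + 1) fun t => (ker z t : ℂ)) atTop (𝓝 1) := by
  have h1 := mean_tsum (c := kc z)
    (lam := fun x : (Fin m → ℕ) × (Fin m → ℕ) => Real.log (nu x.1) - Real.log (nu x.2))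
    (s6_kc_summable hz)
  simp only [← s6_ker hz] at h1
  have h2 : (∑' x : (Fin m → ℕ) × (Fin m → ℕ),
      if Real.log (nu x.1) - Real.log (nu x.2) = 0 then kc z x else 0) = 1 := by
    have hg : Function.Injective fun j : Fin m → ℕ => (j, j) := fun a b h => congrArg Prod.fst h
    rw [← hg.tsum_eq]
    · simp only [sub_self, if_true]
      exact s6_one hz
    · intro x hx
      rw [Function.mem_support] at hx
      by_cases h : Real.log (nu x.1) - Real.log (nu x.2) = 0
      · have h3 := nu_inj (s6_log_inj (nu_pos _) (nu_pos _) (sub_eq_zero.1 h))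
        exact ⟨x.1, Prod.ext rfl h3⟩
      · exact absurd (if_neg h) hx
  rw [h2] at h1
  exact h1

theorem s6_mon_add {m : ℕ} (z : Fin m → ℂ) (α β : Fin m → ℕ) : mon z (α + β) = mon z α * mon z β := by
  rw [mon, mon, mon, ← Finset.prod_mul_distrib]
  exact Finset.prod_congr rfl fun i _ => pow_add _ _ _

theorem s6_mon_le {m : ℕ} {z : Fin m → ℂ} (hz : z ∈ ball (0 : Fin m → ℂ) 1) (α : Fin m → ℕ) :
    ‖mon z α‖ ≤ 1 := by
  have h0 : ∀ i, ‖z i‖ < 1 := (mem_ball_coord one_pos).1 hz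
  rw [mon, norm_prod]
  refine Finset.prod_le_one (fun i _ => norm_nonneg _) fun i _ => ?_
  rw [norm_pow]
  exact pow_le_one₀ (norm_nonneg _) (h0 i).le

theorem s6_term {a : ℕ → ℂ} {s : ℂ} {t : ℝ} (k : ℕ) :
    LSeries.term a (s + t * Complex.I) k =
      LSeries.term a s k * Complex.exp (-(Real.log k * t * Complex.I)) := by
  rcases Nat.eq_zero_or_pos k with h0 | h0
  · rw [h0, LSeries.term_zero, LSeries.term_zero, zero_mul]
  · have hjC : (k : ℂ) ≠ 0 := Nat.cast_ne_zero.mpr h0.ne'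
    have h5 : (k : ℂ) ^ ((t : ℂ) * Complex.I) = Complex.exp (Real.log k * t * Complex.I) := by
      rw [Complex.cpow_def_of_ne_zero hjC, ← Complex.natCast_log]
      congr 1
      ring
    rw [LSeries.term_of_ne_zero h0.ne', LSeries.term_of_ne_zero h0.ne', Complex.cpow_add _ _ hjC,
      h5, Complex.exp_neg]
    have h7 := Complex.exp_ne_zero (Real.log k * t * Complex.I)
    have h8 : (k : ℂ) ^ s ≠ 0 := by
      rw [Complex.cpow_def_of_ne_zero hjC]
      exact Complex.exp_ne_zero _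
    field_simp

/-- index set `(j, l, k)`, frequency `log N_j - log N_l - log k`; `N_j = k N_l` iff `k = N_α`, `j = l + α` -/
theorem ker_lim {m : ℕ} {z : Fin m → ℂ} (hz : z ∈ ball (0 : Fin m → ℂ) 1) {a : ℕ → ℂ} {F : ℂ → ℂ} {s : ℂ}
    {σ : ℝ} (ha : ∀ s : ℂ, σ < s.re → LSeriesHasSum a s (F s)) (hs : σ < s.re) :
    Tendsto (fun T : ℕ => mean ((T : ℝ) + 1) fun t => F (s + t * Complex.I) * (ker z t : ℂ)) atTop
      (𝓝 (∑' α : Fin m → ℕ, a (nu α) * (nu α : ℂ) ^ (-s) * mon z α)) := by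
  have hsum : Summable fun k => ‖LSeries.term a s k‖ := (ha s hs).summable.norm
  have hk := s6_kc_summable hz
  have hd : Summable fun x : ℕ × ((Fin m → ℕ) × (Fin m → ℕ)) =>
      ‖LSeries.term a s x.1 * kc z x.2‖ := by
    refine (hsum.mul_of_nonneg hk (fun _ => norm_nonneg _) (fun _ => norm_nonneg _)).congr
      fun x => ?_
    rw [norm_mul]
  have h1 := mean_tsum (c := fun x : ℕ × ((Fin m → ℕ) × (Fin m → ℕ)) =>
      LSeries.term a s x.1 * kc z x.2)
    (lam := fun x => Real.log (nu x.2.1) - Real.log (nu x.2.2) - Real.log x.1) hd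
  have h2 : ∀ t : ℝ, F (s + t * Complex.I) * (ker z t : ℂ) =
      ∑' x : ℕ × ((Fin m → ℕ) × (Fin m → ℕ)), LSeries.term a s x.1 * kc z x.2 *
        Complex.exp ((Real.log (nu x.2.1) - Real.log (nu x.2.2) - Real.log x.1 : ℝ) * t *
          Complex.I) := by
    intro t
    have h3 : σ < (s + t * Complex.I).re := by simpa using hs
    have h4 : F (s + t * Complex.I) = ∑' k, LSeries.term a s k *
        Complex.exp (-(Real.log k * t * Complex.I)) := by
      rw [← (ha _ h3).tsum_eq]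
      exact tsum_congr fun k => s6_term k
    rw [h4, s6_ker hz, tsum_mul_tsum_of_summable_norm]
    · refine tsum_congr fun x => ?_
      have h5 : Complex.exp ((Real.log (nu x.2.1) - Real.log (nu x.2.2) - Real.log x.1 : ℝ) * t *
          Complex.I) = Complex.exp (-(Real.log x.1 * t * Complex.I)) *
          Complex.exp ((Real.log (nu x.2.1) - Real.log (nu x.2.2) : ℝ) * t * Complex.I) := by
        rw [← Complex.exp_add]
        congr 1
        push_cast
        ring
      rw [h5]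
      ring
    · refine hsum.congr fun k => ?_
      rw [norm_mul, ← s6_conj_exp, RCLike.norm_conj, s6_exp_norm, mul_one]
    · refine hk.congr fun x => ?_
      rw [norm_mul, s6_exp_norm, mul_one]
  simp only [h2]
  convert h1 using 2
  have hg : Function.Injective fun p : (Fin m → ℕ) × (Fin m → ℕ) => (nu p.1, (p.2 + p.1, p.2)) := by
    intro p q h
    have h5 : nu p.1 = nu q.1 := congrArg Prod.fst h
    have h6 : p.2 = q.2 := congrArg (fun x => x.2.2) h
    exact Prod.ext (nu_inj h5) h6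
  rw [← hg.tsum_eq]
  · have hf : Summable fun α : Fin m → ℕ => ‖a (nu α) * (nu α : ℂ) ^ (-s) * mon z α‖ := by
      refine Summable.of_nonneg_of_le (fun _ => norm_nonneg _) (fun α => ?_)
        (hsum.comp_injective nu_inj)
      rw [norm_mul]
      refine (mul_le_of_le_one_right (norm_nonneg _) (s6_mon_le hz α)).trans (le_of_eq ?_)
      rw [Function.comp_apply, LSeries.term_of_ne_zero (nu_pos α).ne', Complex.cpow_neg,
        div_eq_mul_inv]
    have hgs : Summable fun l : Fin m → ℕ => ‖cst z * (mon z l * conj (mon z l))‖ :=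
      hk.comp_injective (i := fun l => (l, l)) (fun a b h => congrArg Prod.fst h)
    have h6 := tsum_mul_tsum_of_summable_norm hf hgs
    rw [s6_one hz, mul_one] at h6
    rw [h6]
    refine tsum_congr fun p => ?_
    have h7 : Real.log (nu (p.2 + p.1)) - Real.log (nu p.2) - Real.log (nu p.1) = 0 := by
      rw [nu_add]
      push_cast
      rw [Real.log_mul (by exact_mod_cast (nu_pos p.2).ne') (by exact_mod_cast (nu_pos p.1).ne')]
      ring
    simp only [h7, if_true]
    rw [kc, LSeries.term_of_ne_zero (nu_pos p.1).ne', Complex.cpow_neg, s6_mon_add]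
    ring
  · intro x hx
    rw [Function.mem_support] at hx
    by_cases h : Real.log (nu x.2.1) - Real.log (nu x.2.2) - Real.log x.1 = 0
    · rw [if_pos h] at hx
      have hx1 : 0 < x.1 := by
        rcases Nat.eq_zero_or_pos x.1 with h0 | h0
        · exact absurd (by rw [h0, LSeries.term_zero, zero_mul]) hx
        · exact h0
      have h8 : nu x.2.1 = nu x.2.2 * x.1 := by
        refine s6_log_inj (nu_pos _) (Nat.mul_pos (nu_pos _) hx1) ?_
        push_cast
        rw [Real.log_mul (by exact_mod_cast (nu_pos x.2.2).ne') (by exact_mod_cast hx1.ne')]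
        linarith
      obtain ⟨α, hα⟩ := nu_dvd (α := x.2.1) (d := x.1) ⟨nu x.2.2, by rw [h8, mul_comm]⟩
      refine ⟨(α, x.2.2), ?_⟩
      have h9 : x.2.1 = x.2.2 + α := by
        apply nu_inj
        rw [nu_add, hα, h8]
      exact Prod.ext hα (Prod.ext h9.symm rfl)
    · exact absurd (if_neg h) hx

theorem s6_V_cont {m : ℕ} {z : Fin m → ℂ} (hz : z ∈ ball (0 : Fin m → ℂ) 1) : Continuous (V z) := by
  unfold V
  refine continuous_tsum (fun j => by fun_prop) (summable_mon hz) fun j t => ?_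
  rw [norm_mul, s6_exp_norm, mul_one]

theorem s6_ker_nonneg {m : ℕ} {z : Fin m → ℂ} (hz : z ∈ ball (0 : Fin m → ℂ) 1) (t : ℝ) :
    0 ≤ ker z t := by
  have h0 : ∀ i, ‖z i‖ < 1 := (mem_ball_coord one_pos).1 hz
  refine mul_nonneg (Finset.prod_nonneg fun i _ => ?_) (sq_nonneg _)
  have := h0 i
  nlinarith [norm_nonneg (z i)]

theorem s6_cpow_le {n : ℕ} (hn : 0 < n) {s : ℂ} (hs : 0 ≤ s.re) : ‖(n : ℂ) ^ (-s)‖ ≤ 1 := by
  rw [Complex.norm_natCast_cpow_of_pos hn, Complex.neg_re]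
  exact Real.rpow_le_one_of_one_le_of_nonpos (by exact_mod_cast hn) (neg_nonpos.2 hs)

/-- `mean_cont` with `E s = ∑ a (nu α) (nu α)^-s mon z α` (holomorphic for `Re s > 0` since `|a| ≤ A` by
`coef_bound`), then `s → 0`. -/
theorem section_bound {F : ℂ → ℂ} {A : ℝ} (hF : DifferentiableOn ℂ F RHP) (hA : ∀ s ∈ RHP, ‖F s‖ ≤ A)
    {a : ℕ → ℂ} {σ : ℝ} (ha : ∀ s : ℂ, σ < s.re → LSeriesHasSum a s (F s)) {m : ℕ} {z : Fin m → ℂ}
    (hz : z ∈ ball (0 : Fin m → ℂ) 1) : ‖∑' α : Fin m → ℕ, a (nu α) * mon z α‖ ≤ A := by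
  have hcoef : ∀ α : Fin m → ℕ, ‖a (nu α)‖ ≤ A := fun α => coef_bound hF hA ha (nu_pos α).ne'
  have hle : ∀ (s : ℂ), 0 ≤ s.re → ∀ α : Fin m → ℕ,
      ‖a (nu α) * (nu α : ℂ) ^ (-s) * mon z α‖ ≤ A * ‖mon z α‖ := by
    intro s hs α
    have hA0 : 0 ≤ A := (norm_nonneg _).trans (hcoef α)
    rw [norm_mul, norm_mul]
    refine mul_le_mul_of_nonneg_right ?_ (norm_nonneg _)
    calc ‖a (nu α)‖ * ‖(nu α : ℂ) ^ (-s)‖ ≤ A * 1 :=
          mul_le_mul (hcoef α) (s6_cpow_le (nu_pos α) hs) (norm_nonneg _) hA0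
      _ = A := mul_one A
  have hsumm : Summable fun α : Fin m → ℕ => A * ‖mon z α‖ := (summable_mon hz).mul_left A
  have hdα : ∀ α : Fin m → ℕ, Differentiable ℂ fun s : ℂ => a (nu α) * (nu α : ℂ) ^ (-s) * mon z α := by
    intro α s
    refine DifferentiableAt.mul_const (DifferentiableAt.const_mul ?_ _) _
    exact (differentiableAt_id.neg).const_cpow (Or.inl (Nat.cast_ne_zero.mpr (nu_pos α).ne'))
  have hEd : DifferentiableOn ℂ (fun s : ℂ => ∑' α : Fin m → ℕ, a (nu α) * (nu α : ℂ) ^ (-s) * mon z α)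
      RHP :=
    Complex.differentiableOn_tsum_of_summable_norm hsumm (fun α => (hdα α).differentiableOn) isOpen_RHP
      fun α s hs => hle s (le_of_lt hs) α
  have hmain := mean_cont (κ := fun t => (ker z t : ℂ)) (k := ker z) (σ := σ) hF hA
    (Complex.continuous_ofReal.comp (continuous_const.mul ((s6_V_cont hz).norm.pow 2)))
    (continuous_const.mul ((s6_V_cont hz).norm.pow 2))
    (fun t => by rw [Complex.norm_real, Real.norm_of_nonneg (s6_ker_nonneg hz t)])
    (ker_mean hz) hEd (fun s hs1 _ => ker_lim hz ha hs1)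
  have hlim : Tendsto (fun x : ℝ => ∑' α : Fin m → ℕ, a (nu α) * (nu α : ℂ) ^ (-(x : ℂ)) * mon z α)
      (𝓝[>] 0) (𝓝 (∑' α : Fin m → ℕ, a (nu α) * mon z α)) := by
    refine tendsto_tsum_of_dominated_convergence hsumm (fun α => ?_) ?_
    · have h1 : Continuous fun x : ℝ => a (nu α) * (nu α : ℂ) ^ (-(x : ℂ)) * mon z α :=
        (hdα α).continuous.comp Complex.continuous_ofReal
      have h2 := (h1.tendsto 0).mono_left (nhdsWithin_le_nhds (s := Set.Ioi (0 : ℝ)))
      simpa using h2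
    · filter_upwards [self_mem_nhdsWithin] with x hx α
      exact hle x (by simpa using le_of_lt hx) α
  refine le_of_tendsto hlim.norm ?_
  filter_upwards [self_mem_nhdsWithin] with x hx
  exact hmain x (by show 0 < ((x : ℂ)).re; simpa using hx)

end Pool.Agent.MPca0fc2.DS
end

section

/-! Campaign PD, row F: compactness. -/

set_option autoImplicit false

open Metric Set MeasureTheory
open scoped Real ComplexConjugate

namespace Pool.Agent.MPca0fc2.PD

variable {n : ℕ}

/-- a continuous function with `Nm p = 0` vanishes on the ball -/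
theorem Nm_zero {p : En n → ℂ} (hp : Continuous p) (h : Nm p = 0) : ∀ y ∈ ball (0 : En n) 1, p y = 0 := by
  have hc : Continuous fun y : En n => ‖p y‖ ^ 2 := hp.norm.pow 2
  have hint : IntegrableOn (fun y : En n => ‖p y‖ ^ 2) (ball (0 : En n) 1) :=
    (hc.locallyIntegrable.integrableOn_isCompact (isCompact_closedBall (0 : En n) 1)).mono_set
      ball_subset_closedBall
  have h1 : (fun y : En n => ‖p y‖ ^ 2) =ᵐ[volume.restrict (ball (0 : En n) 1)] fun _ => 0 :=
    (setIntegral_eq_zero_iff_of_nonneg_ae (ae_of_all _ fun y => sq_nonneg _) hint).mp h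
  intro y hy
  have h2 := MeasureTheory.Measure.eqOn_open_of_ae_eq h1 isOpen_ball hc.continuousOn
    continuousOn_const hy
  have h3 : ‖p y‖ ^ 2 = 0 := h2
  exact norm_eq_zero.mp (pow_eq_zero_iff (two_ne_zero)|>.mp h3)

/-- comparison of two quadratic forms on a finite dimensional space of continuous functions -/
theorem quad_compare {V : Submodule ℂ (En n → ℂ)} [FiniteDimensional ℂ V] {q₁ q₂ : (En n → ℂ) → ℝ}
    (h1 : ∀ (m : ℕ) (b : Fin m → V), Continuous fun c : Fin m → ℂ => q₁ (∑ i, c i • (b i : En n → ℂ)))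
    (h2 : ∀ (m : ℕ) (b : Fin m → V), Continuous fun c : Fin m → ℂ => q₂ (∑ i, c i • (b i : En n → ℂ)))
    (h3 : ∀ (c : ℂ) (p : En n → ℂ), q₁ (c • p) = ‖c‖ ^ 2 * q₁ p)
    (h4 : ∀ (c : ℂ) (p : En n → ℂ), q₂ (c • p) = ‖c‖ ^ 2 * q₂ p)
    (h5 : ∀ p ∈ V, 0 ≤ q₁ p) (h6 : ∀ p ∈ V, p ≠ 0 → 0 < q₂ p) :
    ∃ C, 0 ≤ C ∧ ∀ p ∈ V, q₁ p ≤ C * q₂ p := by
  have _ := h5
  let m := Module.finrank ℂ V
  let b : Module.Basis (Fin m) ℂ V := Module.finBasis ℂ V
  have hrep : ∀ p : V, (p : En n → ℂ) = ∑ i, b.repr p i • (b i : En n → ℂ) := by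
    intro p
    conv_lhs => rw [← b.sum_repr p]
    rw [Submodule.coe_sum]
    rfl
  have hmem : ∀ c : Fin m → ℂ, ∑ i, c i • (b i : En n → ℂ) ∈ V := fun c =>
    V.sum_mem fun i _ => V.smul_mem _ (b i).2
  have hne : ∀ c : Fin m → ℂ, c ≠ 0 → ∑ i, c i • (b i : En n → ℂ) ≠ 0 := by
    intro c hc h0
    apply hc
    have h7 : ∑ i, c i • b i = 0 := by
      apply Subtype.ext
      rw [Submodule.coe_sum]
      exact h0
    funext i
    exact Fintype.linearIndependent_iff.mp b.linearIndependent c h7 i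
  have hcont : ContinuousOn (fun c : Fin m → ℂ => q₁ (∑ i, c i • (b i : En n → ℂ)) /
      q₂ (∑ i, c i • (b i : En n → ℂ))) (sphere (0 : Fin m → ℂ) 1) := by
    refine (h1 m fun i => b i).continuousOn.div (h2 m fun i => b i).continuousOn fun c hc => ?_
    refine (h6 _ (hmem c) (hne c ?_)).ne'
    rintro rfl
    rw [mem_sphere, dist_self] at hc
    exact zero_ne_one hc
  obtain ⟨C, hC⟩ := (isCompact_sphere (0 : Fin m → ℂ) 1).exists_bound_of_continuousOn hcont
  refine ⟨max C 0, le_max_right _ _, fun p hp => ?_⟩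
  obtain ⟨c, hc⟩ : ∃ c : Fin m → ℂ, p = ∑ i, c i • (b i : En n → ℂ) :=
    ⟨fun i => b.repr ⟨p, hp⟩ i, hrep ⟨p, hp⟩⟩
  by_cases h0 : c = 0
  · have hp0 : p = (0 : ℂ) • p := by
      rw [zero_smul, hc, h0]
      simp
    rw [hp0, h3, h4]
    simp
  · have hcn : 0 < ‖c‖ := norm_pos_iff.mpr h0
    obtain ⟨d, hd⟩ : ∃ d : Fin m → ℂ, d = ((‖c‖⁻¹ : ℝ) : ℂ) • c := ⟨_, rfl⟩
    have hds : d ∈ sphere (0 : Fin m → ℂ) 1 := by
      rw [mem_sphere, dist_zero_right, hd, norm_smul, Complex.norm_real, norm_inv, norm_norm,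
        inv_mul_cancel₀ hcn.ne']
    have hpd : p = ((‖c‖ : ℝ) : ℂ) • ∑ i, d i • (b i : En n → ℂ) := by
      rw [hc, Finset.smul_sum]
      refine Finset.sum_congr rfl fun i _ => ?_
      rw [smul_smul, hd, Pi.smul_apply, smul_eq_mul, ← mul_assoc, ← Complex.ofReal_mul,
        mul_inv_cancel₀ hcn.ne', Complex.ofReal_one, one_mul]
    have hd0 : d ≠ 0 := by
      rintro rfl
      rw [mem_sphere, dist_self] at hds
      exact zero_ne_one hds
    have hq2 : 0 < q₂ (∑ i, d i • (b i : En n → ℂ)) := h6 _ (hmem d) (hne d hd0)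
    have h7 : q₁ (∑ i, d i • (b i : En n → ℂ)) ≤ max C 0 * q₂ (∑ i, d i • (b i : En n → ℂ)) := by
      rw [← div_le_iff₀ hq2]
      exact (le_abs_self _).trans ((hC d hds).trans (le_max_left _ _))
    rw [hpd, h3, h4, ← mul_left_comm]
    exact mul_le_mul_of_nonneg_left h7 (sq_nonneg _)

/-! ### auxiliary lemmas -/

theorem F_Q_int {v : En n} {j : ℕ} {p : En n → ℂ} (hp : Continuous p) (y : En n) :
    IntervalIntegrable (fun s : ℝ => p (D v (ec s) y) * (ec s * conj (ec s) ^ j)) volume 0 (2 * π) := by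
  apply Continuous.intervalIntegrable
  have hD : Continuous fun s : ℝ => D v (ec s) y := by
    have h1 := (D_diff v).continuous.comp
      ((continuous_ec.prodMk continuous_const) : Continuous fun s : ℝ => ((ec s, y) : ℂ × En n))
    exact h1
  exact (hp.comp hD).mul (continuous_ec.mul ((Complex.continuous_conj.comp continuous_ec).pow j))

theorem F_Q_smul (v : En n) (j : ℕ) (c : ℂ) (p : En n → ℂ) : Q v j (c • p) = c • Q v j p := by
  funext y
  change ((2 * π)⁻¹ : ℝ) • ∫ s in (0 : ℝ)..2 * π, (c • p (D v (ec s) y)) * (ec s * conj (ec s) ^ j) =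
    c • (((2 * π)⁻¹ : ℝ) • ∫ s in (0 : ℝ)..2 * π, p (D v (ec s) y) * (ec s * conj (ec s) ^ j))
  have h1 : ∀ s : ℝ, (c • p (D v (ec s) y)) * (ec s * conj (ec s) ^ j) =
      c • (p (D v (ec s) y) * (ec s * conj (ec s) ^ j)) := fun s => smul_mul_assoc _ _ _
  simp only [h1]
  rw [intervalIntegral.integral_smul, smul_comm]

theorem F_Q_add (v : En n) (j : ℕ) {p q : En n → ℂ} (hp : Continuous p) (hq : Continuous q) :
    Q v j (p + q) = Q v j p + Q v j q := by
  funext y
  change ((2 * π)⁻¹ : ℝ) • ∫ s in (0 : ℝ)..2 * π,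
      (p (D v (ec s) y) + q (D v (ec s) y)) * (ec s * conj (ec s) ^ j) =
    (((2 * π)⁻¹ : ℝ) • ∫ s in (0 : ℝ)..2 * π, p (D v (ec s) y) * (ec s * conj (ec s) ^ j)) +
      (((2 * π)⁻¹ : ℝ) • ∫ s in (0 : ℝ)..2 * π, q (D v (ec s) y) * (ec s * conj (ec s) ^ j))
  simp only [add_mul]
  rw [intervalIntegral.integral_add (F_Q_int hp y) (F_Q_int hq y), smul_add]

theorem F_Q_sum (v : En n) (j : ℕ) {m : ℕ} (c : Fin m → ℂ) {b : Fin m → En n → ℂ}
    (hb : ∀ i, Continuous (b i)) : Q v j (∑ i, c i • b i) = ∑ i, c i • Q v j (b i) := by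
  have h1 : ∀ s : Finset (Fin m), Continuous (∑ i ∈ s, c i • b i) ∧
      Q v j (∑ i ∈ s, c i • b i) = ∑ i ∈ s, c i • Q v j (b i) := by
    intro s
    induction s using Finset.induction_on with
    | empty =>
      rw [Finset.sum_empty, Finset.sum_empty]
      refine ⟨continuous_const, ?_⟩
      have h2 := F_Q_smul v j 0 (0 : En n → ℂ)
      rwa [zero_smul, zero_smul] at h2
    | insert i s hi ih =>
      rw [Finset.sum_insert hi, Finset.sum_insert hi]
      have h2 : Continuous (c i • b i) := (hb i).const_smul (c i)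
      exact ⟨h2.add ih.1, by rw [F_Q_add v j h2 ih.1, F_Q_smul, ih.2]⟩
  exact (h1 Finset.univ).2

theorem F_Nm_smul (c : ℂ) (p : En n → ℂ) : Nm (c • p) = ‖c‖ ^ 2 * Nm p := by
  have h1 : ∀ y, ‖(c • p) y‖ ^ 2 = ‖c‖ ^ 2 * ‖p y‖ ^ 2 := fun y => by
    rw [Pi.smul_apply, norm_smul, mul_pow]
  rw [Nm, Nm, ← integral_const_mul]
  exact integral_congr_ae (ae_of_all _ h1)

theorem F_Nm_cont {m : ℕ} {b : Fin m → En n → ℂ} (hb : ∀ i, Continuous (b i)) :
    Continuous fun c : Fin m → ℂ => Nm (∑ i, c i • b i) := by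
  have h1 : ∀ p : En n → ℂ, Nm p = ∫ y in closedBall (0 : En n) 1, ‖p y‖ ^ 2 := by
    intro p
    rw [Nm]
    refine setIntegral_congr_set ?_
    refine (ball_subset_closedBall).eventuallyLE.antisymm ?_
    rw [← sphere_union_ball]
    have h2 : volume (sphere (0 : En n) 1) = 0 := by
      exact Measure.addHaar_sphere_of_ne_zero volume _ one_ne_zero
    exact (union_ae_eq_right_of_ae_eq_empty (ae_eq_empty.mpr h2)).le
  simp only [h1]
  refine continuous_parametric_integral_of_continuous (f := fun (c : Fin m → ℂ) (y : En n) =>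
    ‖(∑ i, c i • b i) y‖ ^ 2) ?_ (isCompact_closedBall _ _)
  have h3 : ∀ (c : Fin m → ℂ) (y : En n), (∑ i, c i • b i) y = ∑ i, c i * b i y := by
    intro c y
    rw [Finset.sum_apply]
    rfl
  have h4 : Function.uncurry (fun (c : Fin m → ℂ) (y : En n) => ‖(∑ i, c i • b i) y‖ ^ 2) =
      fun x : (Fin m → ℂ) × En n => ‖∑ i, x.1 i * b i x.2‖ ^ 2 := by
    funext x
    rw [Function.uncurry, h3]
  rw [h4]
  refine (Continuous.norm ?_).pow 2
  exact continuous_finsetSum _ fun i _ =>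
    ((continuous_apply i).comp continuous_fst).mul ((hb i).comp continuous_snd)

theorem F_pos (hn : 2 ≤ n) {R : ℕ} {p : En n → ℂ} (hp : p ∈ W n R) (h0 : p ≠ 0) : 0 < Nm p := by
  rcases (Nm_nonneg p).lt_or_eq with h | h
  · exact h
  · exfalso
    apply h0
    have h1 := Nm_zero (W_cont hp) h.symm
    funext y
    refine kernel_zero hn hp (fun v hv y hy => ?_) y
    rw [Q]
    have h2 : ∀ s : ℝ, p (D v (ec s) y) * (ec s * conj (ec s) ^ 0) = 0 := by
      intro s
      have h3 : D v (ec s) y ∈ ball (0 : En n) 1 := by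
        rw [mem_ball_zero_iff, D_norm_eq hv (norm_ec s)]
        exact mem_ball_zero_iff.mp hy
      rw [h1 _ h3, zero_mul]
    simp only [h2]
    rw [intervalIntegral.integral_zero, smul_zero]

section Sup

open scoped Pointwise

theorem F_sSup_smul (c : ℂ) (p : En n → ℂ) :
    sSup ((fun z => ‖(c • p) z‖ ^ 2) '' closedBall (0 : En n) 1) =
      ‖c‖ ^ 2 * sSup ((fun z => ‖p z‖ ^ 2) '' closedBall (0 : En n) 1) := by
  have h1 : (fun z => ‖(c • p) z‖ ^ 2) '' closedBall (0 : En n) 1 =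
      (‖c‖ ^ 2) • ((fun z => ‖p z‖ ^ 2) '' closedBall (0 : En n) 1) := by
    rw [← Set.image_smul, Set.image_image]
    refine Set.image_congr fun z _ => ?_
    rw [Pi.smul_apply, norm_smul, mul_pow, smul_eq_mul]
  rw [h1, Real.sSup_smul_of_nonneg (sq_nonneg _), smul_eq_mul]

end Sup

/-- finitely many directions suffice -/
theorem exists_dirs (hn : 2 ≤ n) (R : ℕ) : ∃ (V : Finset (En n)) (c : ℝ), 0 < c ∧ V.Nonempty ∧
    (∀ v ∈ V, ‖v‖ = 1) ∧ ∀ p ∈ W n R, c * Nm p ≤ ∑ v ∈ V, Nm (Q v 0 p) := by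
  classical
  have _ := W_fin n R
  -- the kernels
  obtain ⟨N, hN⟩ : ∃ N : En n → Submodule ℂ (W n R), ∀ v p, p ∈ N v ↔
      ∀ y ∈ ball (0 : En n) 1, Q v 0 (p : En n → ℂ) y = 0 := by
    refine ⟨fun v =>
      { carrier := {p | ∀ y ∈ ball (0 : En n) 1, Q v 0 (p : En n → ℂ) y = 0}
        add_mem' := ?_
        zero_mem' := ?_
        smul_mem' := ?_ }, fun v p => Iff.rfl⟩
    · intro p q hp hq y hy
      rw [Submodule.coe_add, F_Q_add v 0 (W_cont p.2) (W_cont q.2), Pi.add_apply, hp y hy, hq y hy,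
        add_zero]
    · intro y _
      have h1 := F_Q_smul v 0 0 (0 : En n → ℂ)
      rw [zero_smul, zero_smul] at h1
      rw [Submodule.coe_zero, h1]
      rfl
    · intro c p hp y hy
      rw [Submodule.coe_smul, F_Q_smul, Pi.smul_apply, hp y hy, smul_zero]
  -- a unit vector
  obtain ⟨v₀, hv₀⟩ : ∃ v₀ : En n, ‖v₀‖ = 1 :=
    ⟨EuclideanSpace.single ⟨0, by omega⟩ 1, by rw [PiLp.norm_single, norm_one]⟩
  obtain ⟨M', ⟨V, hV1, hV2, rfl⟩, hmin⟩ := IsArtinian.set_has_minimal
    {I : Submodule ℂ (W n R) | ∃ V : Finset (En n), V.Nonempty ∧ (∀ v ∈ V, ‖v‖ = 1) ∧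
      V.inf N = I} ⟨_, {v₀}, Finset.singleton_nonempty _, by simpa using hv₀, rfl⟩
  have hker : ∀ p ∈ W n R, (∀ v ∈ V, ∀ y ∈ ball (0 : En n) 1, Q v 0 p y = 0) → p = 0 := by
    intro p hp hpV
    have h1 : (⟨p, hp⟩ : W n R) ∈ V.inf N := by
      rw [Submodule.mem_finsetInf]
      exact fun v hv => (hN v _).mpr (hpV v hv)
    funext y
    refine kernel_zero hn hp (fun v hv => ?_) y
    have h2 : V.inf N ≤ N v := by
      have h3 : (insert v V).inf N ≤ V.inf N := Finset.inf_mono (Finset.subset_insert v V)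
      have h4 : ¬ (insert v V).inf N < V.inf N := hmin _ ⟨insert v V, Finset.insert_nonempty _ _,
        fun w hw => by
          rcases Finset.mem_insert.mp hw with rfl | hw
          · exact hv
          · exact hV2 w hw, rfl⟩
      have h5 : (insert v V).inf N = V.inf N := by
        by_contra h6
        exact h4 (lt_of_le_of_ne h3 h6)
      rw [← h5]
      exact Finset.inf_le (Finset.mem_insert_self v V)
    exact (hN v _).mp (h2 h1)
  obtain ⟨C, hC0, hC⟩ := quad_compare (V := W n R) (q₁ := Nm)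
    (q₂ := fun p => ∑ v ∈ V, Nm (Q v 0 p))
    (fun m b => F_Nm_cont fun i => W_cont (b i).2)
    (fun m b => by
      refine continuous_finsetSum _ fun v hv => ?_
      have h1 : ∀ c : Fin m → ℂ, Q v 0 (∑ i, c i • (b i : En n → ℂ)) =
          ∑ i, c i • Q v 0 (b i : En n → ℂ) := fun c => F_Q_sum v 0 c fun i => W_cont (b i).2
      simp only [h1]
      exact F_Nm_cont fun i => W_cont (Q_mem (b i).2 (hV2 v hv) 0))
    F_Nm_smul
    (fun c p => by
      rw [Finset.mul_sum]
      refine Finset.sum_congr rfl fun v _ => ?_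
      rw [F_Q_smul, F_Nm_smul])
    (fun p _ => Nm_nonneg p)
    (fun p hp h0 => by
      have h1 : 0 ≤ ∑ v ∈ V, Nm (Q v 0 p) := Finset.sum_nonneg fun v _ => Nm_nonneg _
      rcases h1.lt_or_eq with h | h
      · exact h
      · exfalso
        apply h0
        refine hker p hp fun v hv => ?_
        have h2 := (Finset.sum_eq_zero_iff_of_nonneg fun v _ => Nm_nonneg _).mp h.symm v hv
        exact Nm_zero (W_cont (Q_mem hp (hV2 v hv) 0)) h2)
  have hC1 : (0 : ℝ) < C + 1 := by linarith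
  refine ⟨V, (C + 1)⁻¹, inv_pos.mpr hC1, hV1, hV2, fun p hp => ?_⟩
  rw [inv_mul_le_iff₀ hC1]
  refine (hC p hp).trans ?_
  exact mul_le_mul_of_nonneg_right (by linarith) (Finset.sum_nonneg fun v _ => Nm_nonneg _)

theorem sup_le (hn : 2 ≤ n) (R : ℕ) : ∃ C, 0 ≤ C ∧ ∀ p ∈ W n R, ∀ z : En n, ‖z‖ ≤ 1 →
    ‖p z‖ ^ 2 ≤ C * Nm p := by
  have _ := W_fin n R
  have hbdd : ∀ p : En n → ℂ, Continuous p →
      BddAbove ((fun z => ‖p z‖ ^ 2) '' closedBall (0 : En n) 1) := fun p hp =>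
    ((isCompact_closedBall _ _).image (hp.norm.pow 2)).bddAbove
  obtain ⟨C, hC0, hC⟩ := quad_compare (V := W n R)
    (q₁ := fun p => sSup ((fun z => ‖p z‖ ^ 2) '' closedBall (0 : En n) 1)) (q₂ := Nm)
    (fun m b => by
      have h4 : Continuous (Function.uncurry fun (c : Fin m → ℂ) (z : En n) =>
          ‖(∑ i, c i • (b i : En n → ℂ)) z‖ ^ 2) := by
        have h3 : ∀ (c : Fin m → ℂ) (y : En n), (∑ i, c i • (b i : En n → ℂ)) y =
            ∑ i, c i * (b i : En n → ℂ) y := by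
          intro c y
          rw [Finset.sum_apply]
          rfl
        have h5 : (Function.uncurry fun (c : Fin m → ℂ) (z : En n) =>
            ‖(∑ i, c i • (b i : En n → ℂ)) z‖ ^ 2) =
            fun x : (Fin m → ℂ) × En n => ‖∑ i, x.1 i * (b i : En n → ℂ) x.2‖ ^ 2 := by
          funext x
          rw [Function.uncurry, h3]
        rw [h5]
        refine (Continuous.norm ?_).pow 2
        exact continuous_finsetSum _ fun i _ =>
          ((continuous_apply i).comp continuous_fst).mul ((W_cont (b i).2).comp continuous_snd)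
      exact (isCompact_closedBall (0 : En n) 1).continuous_sSup h4)
    (fun m b => F_Nm_cont fun i => W_cont (b i).2)
    F_sSup_smul
    F_Nm_smul
    (fun p _ => Real.sSup_nonneg (by
      rintro _ ⟨z, _, rfl⟩
      exact sq_nonneg _))
    (fun p hp h0 => F_pos hn hp h0)
  refine ⟨C, hC0, fun p hp z hz => ?_⟩
  refine le_trans ?_ (hC p hp)
  exact le_csSup (hbdd p (W_cont hp)) ⟨z, mem_closedBall_zero_iff.mpr hz, rfl⟩

end Pool.Agent.MPca0fc2.PD
end

section

/-! Campaign PD, row H: the maps `Γ` with asymptotic orthogonality. -/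

set_option autoImplicit false

open Metric Set MeasureTheory Filter Topology
open scoped Real ComplexConjugate

namespace Pool.Agent.MPca0fc2.PD

variable {n : ℕ}

/-- one step: for each finite family in `W n R` some direction reduces the energy of the frequencies `≥ 0` by
the factor `1 - c` (`exists_dirs`, `parseval`, the best `v` in `V`); `c ≤ 1` may be assumed -/
theorem step (hn : 2 ≤ n) (R : ℕ) : ∃ c : ℝ, 0 < c ∧ c ≤ 1 ∧ ∀ (ι : Type) (_ : Fintype ι)
    (p : ι → En n → ℂ), (∀ i, p i ∈ W n R) → ∃ v : En n, ‖v‖ = 1 ∧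
      ∑ i, ∑ j ∈ Finset.range (R + 1), Nm (Q v (j + 1) (p i)) ≤ (1 - c) * ∑ i, Nm (p i) := by
  obtain ⟨V, c, hc, hV1, hV2, hV3⟩ := exists_dirs hn R
  have hcard : (0 : ℝ) < V.card := by exact_mod_cast Finset.card_pos.mpr hV1
  refine ⟨min (c / V.card) 1, lt_min (div_pos hc hcard) one_pos, min_le_right _ _, ?_⟩
  intro ι _ p hp
  have hT : 0 ≤ ∑ i, Nm (p i) := Finset.sum_nonneg fun i _ => Nm_nonneg _
  obtain ⟨v, hv, hle⟩ : ∃ v ∈ V, c / V.card * ∑ i, Nm (p i) ≤ ∑ i, Nm (Q v 0 (p i)) := by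
    apply Finset.exists_le_of_sum_le hV1
    rw [Finset.sum_const, nsmul_eq_mul, ← mul_assoc, mul_div_cancel₀ _ hcard.ne', Finset.sum_comm,
      Finset.mul_sum]
    exact Finset.sum_le_sum fun i _ => hV3 _ (hp i)
  refine ⟨v, hV2 v hv, ?_⟩
  have h1 : ∀ i, ∑ j ∈ Finset.range (R + 1), Nm (Q v (j + 1) (p i)) =
      Nm (p i) - Nm (Q v 0 (p i)) := by
    intro i
    have h2 := parseval (hp i) (hV2 v hv)
    rw [Finset.sum_range_succ'] at h2
    linarith
  rw [Finset.sum_congr rfl fun i _ => h1 i, Finset.sum_sub_distrib]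
  have h3 : min (c / V.card) 1 * ∑ i, Nm (p i) ≤ c / V.card * ∑ i, Nm (p i) :=
    mul_le_mul_of_nonneg_right (min_le_left _ _) hT
  linarith

/-- iteration of `step` -/
theorem H_iter {R : ℕ} {c : ℝ} (hc1 : c ≤ 1) (hstep : ∀ (ι : Type) (_ : Fintype ι)
    (p : ι → En n → ℂ), (∀ i, p i ∈ W n R) → ∃ v : En n, ‖v‖ = 1 ∧
      ∑ i, ∑ j ∈ Finset.range (R + 1), Nm (Q v (j + 1) (p i)) ≤ (1 - c) * ∑ i, Nm (p i)) (k : ℕ) :
    ∀ (ι : Type) (_ : Fintype ι) (p : ι → En n → ℂ), (∀ i, p i ∈ W n R) →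
      ∃ v : Fin k → En n, (∀ i, ‖v i‖ = 1) ∧
        ∑ i, En2 (R + 1) k v (p i) ≤ (1 - c) ^ k * ∑ i, Nm (p i) := by
  induction k with
  | zero =>
    intro ι _ p _
    refine ⟨Fin.elim0, fun i => i.elim0, ?_⟩
    rw [pow_zero, one_mul]
    exact le_rfl
  | succ k ih =>
    intro ι _ p hp
    obtain ⟨v₀, hv₀, h1⟩ := hstep ι _ p hp
    obtain ⟨v, hv, h2⟩ := ih (ι × Fin (R + 1)) inferInstance
      (fun x => Q v₀ ((x.2 : ℕ) + 1) (p x.1)) fun x => Q_mem (hp x.1) hv₀ _
    have h0 : 0 ≤ 1 - c := by linarith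
    refine ⟨Fin.cons v₀ v, fun i => ?_, ?_⟩
    · refine Fin.cases ?_ (fun j => ?_) i
      · rw [Fin.cons_zero]
        exact hv₀
      · rw [Fin.cons_succ]
        exact hv j
    · have h3 : ∀ i, En2 (R + 1) (k + 1) (Fin.cons v₀ v : Fin (k + 1) → En n) (p i) =
          ∑ j : Fin (R + 1), En2 (R + 1) k v (Q v₀ ((j : ℕ) + 1) (p i)) := by
        intro i
        rw [En2, Fin.tail_cons, Fin.cons_zero, Finset.sum_range]
      rw [Finset.sum_congr rfl fun i _ => h3 i]
      have h4 : ∑ i, ∑ j : Fin (R + 1), En2 (R + 1) k v (Q v₀ ((j : ℕ) + 1) (p i)) =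
          ∑ x : ι × Fin (R + 1), En2 (R + 1) k v (Q v₀ ((x.2 : ℕ) + 1) (p x.1)) := by
        rw [Fintype.sum_prod_type]
      have h5 : ∑ x : ι × Fin (R + 1), Nm (Q v₀ ((x.2 : ℕ) + 1) (p x.1)) ≤
          (1 - c) * ∑ i, Nm (p i) := by
        rw [Fintype.sum_prod_type]
        refine le_trans (le_of_eq ?_) h1
        refine Finset.sum_congr rfl fun i _ => ?_
        exact (Finset.sum_range fun j => Nm (Q v₀ (j + 1) (p i))).symm
      rw [h4]
      refine h2.trans ?_
      rw [pow_succ, mul_assoc]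
      exact mul_le_mul_of_nonneg_left h5 (pow_nonneg h0 k)

theorem decay (hn : 2 ≤ n) (R : ℕ) {ι : Type} [Fintype ι] (p : ι → En n → ℂ) (hp : ∀ i, p i ∈ W n R)
    {ε : ℝ} (hε : 0 < ε) : ∃ (r : ℕ) (v : Fin (r + 1) → En n), (∀ i, ‖v i‖ = 1) ∧
      ∑ i, En2 (R + 1) (r + 1) v (p i) ≤ ε := by
  obtain ⟨c, hc, hc1, hstep⟩ := step hn R
  have hT : 0 ≤ ∑ i, Nm (p i) := Finset.sum_nonneg fun i _ => Nm_nonneg _
  have h0 : 0 ≤ 1 - c := by linarith
  have h1 : 1 - c < 1 := by linarith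
  have hT1 : 0 < ∑ i, Nm (p i) + 1 := by linarith
  obtain ⟨k, hk⟩ := exists_pow_lt_of_lt_one (div_pos hε hT1) h1
  obtain ⟨v, hv, hle⟩ := H_iter hc1 hstep (k + 1) ι _ p hp
  refine ⟨k, v, hv, hle.trans ?_⟩
  have h2 : (1 - c) ^ (k + 1) ≤ (1 - c) ^ k := pow_le_pow_of_le_one h0 h1.le (Nat.le_succ k)
  have h3 : (1 - c) ^ (k + 1) * ∑ i, Nm (p i) ≤ (1 - c) ^ k * (∑ i, Nm (p i) + 1) :=
    mul_le_mul h2 (by linarith) hT (pow_nonneg h0 k)
  refine h3.trans ?_
  rw [← le_div_iff₀ hT1]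
  exact hk.le

theorem S_le {R : ℕ} {C : ℝ} (hC : ∀ p ∈ W n R, ∀ z : En n, ‖z‖ ≤ 1 → ‖p z‖ ^ 2 ≤ C * Nm p) {r : ℕ}
    {v : Fin r → En n} (hv : ∀ i, ‖v i‖ = 1) {p : En n → ℂ} (hp : p ∈ W n R) {z : En n} (hz : ‖z‖ ≤ 1) :
    S (R + 1) r v p z ≤ C * En2 (R + 1) r v p := by
  induction r generalizing p with
  | zero => exact hC p hp z hz
  | succ r ih =>
    rw [S, En2, Finset.mul_sum]
    exact Finset.sum_le_sum fun j _ => ih (fun i => hv i.succ) (Q_mem hp (hv 0) (j + 1))

/-- Maps `Γ` of polydiscs into the closed ball. `G (r+1) v (v (last))` with `decay` for bases of the spaces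
`W n k`, `k ≤ R`, and `ε = 1 / ((C_R + 1) (R + 1))`. -/
structure Good (n : ℕ) (r : ℕ → ℕ) (Γ : ∀ R, (Fin (r R) → ℂ) → En n) : Prop where
  diff : ∀ R, Differentiable ℂ (Γ R)
  le : ∀ R t, (∀ i, ‖t i‖ ≤ 1) → ‖Γ R t‖ ≤ 1
  eq : ∀ R θ, ‖Γ R (ex θ)‖ = 1
  zero : ∀ R, Γ R 0 = 0
  orth : ∀ (h : ∀ R, (Fin (r R) → ℝ) → ℂ) (A : ℝ), (∀ R, Ana (r R) (h R)) → (∀ R θ, ‖h R θ‖ ≤ A) →
    ∀ (k : ℕ) (u w : En n), Tendsto (fun R => M (r R) fun θ => h R θ * conj (P k u w (Γ R (ex θ))))
      atTop (𝓝 0)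

theorem H_En2_nonneg (K r : ℕ) (v : Fin r → En n) (p : En n → ℂ) : 0 ≤ En2 K r v p := by
  induction r generalizing p with
  | zero => exact Nm_nonneg p
  | succ r ih =>
    rw [En2]
    exact Finset.sum_nonneg fun j _ => ih _ _

/-- one stage of the construction -/
theorem H_stage (hn : 2 ≤ n) (R : ℕ) (m : ℕ → ℕ) (b : ∀ k, Fin (m k) → En n → ℂ)
    (hb : ∀ k i, b k i ∈ W n k) :
    ∃ (r : ℕ) (v : Fin (r + 1) → En n), (∀ i, ‖v i‖ = 1) ∧
      ∀ k ≤ R, ∀ i, S (R + 1) (r + 1) v (b k i) (v (Fin.last r)) ≤ 1 / (R + 1) := by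
  obtain ⟨C, hC0, hC⟩ := sup_le hn R
  have hC1 : 0 < C + 1 := by linarith
  have hR1 : (0 : ℝ) < R + 1 := by positivity
  obtain ⟨r, v, hv, hle⟩ := decay hn R (ι := Σ k : Fin (R + 1), Fin (m k))
    (fun x => b x.1 x.2) (fun x => W_mono (Nat.le_of_lt_succ x.1.2) (hb _ _))
    (ε := 1 / ((C + 1) * (R + 1))) (by positivity)
  refine ⟨r, v, hv, fun k hk i => ?_⟩
  obtain ⟨x, hx⟩ : ∃ x : (Σ k : Fin (R + 1), Fin (m k)), b x.1 x.2 = b k i :=
    ⟨⟨⟨k, Nat.lt_succ_of_le hk⟩, i⟩, rfl⟩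
  have h1 : En2 (R + 1) (r + 1) v (b k i) ≤ 1 / ((C + 1) * (R + 1)) := by
    obtain ⟨f, hf⟩ : ∃ f : (Σ k : Fin (R + 1), Fin (m k)) → ℝ,
        ∀ x, f x = En2 (R + 1) (r + 1) v (b x.1 x.2) := ⟨_, fun _ => rfl⟩
    simp only [← hf] at hle
    rw [← hx, ← hf]
    refine le_trans (Finset.single_le_sum (fun y _ => ?_) (Finset.mem_univ x)) hle
    rw [hf]
    exact H_En2_nonneg _ _ _ _
  refine (S_le hC hv (W_mono hk (hb k i)) (hv (Fin.last r)).le).trans ?_
  have h2 : C * En2 (R + 1) (r + 1) v (b k i) ≤ (C + 1) * (1 / ((C + 1) * (R + 1))) :=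
    mul_le_mul (by linarith) h1 (H_En2_nonneg _ _ _ _) hC1.le
  refine h2.trans (le_of_eq ?_)
  field_simp

theorem exists_good (hn : 2 ≤ n) : ∃ (r : ℕ → ℕ) (Γ : ∀ R, (Fin (r R) → ℂ) → En n), Good n r Γ := by
  -- bases
  obtain ⟨m, b, hb, hspan⟩ : ∃ (m : ℕ → ℕ) (b : ∀ k, Fin (m k) → En n → ℂ),
      (∀ k i, b k i ∈ W n k) ∧ ∀ k, ∀ p ∈ W n k, ∃ c : Fin (m k) → ℂ, p = ∑ i, c i • b k i := by
    have h1 : ∀ k, ∃ (m : ℕ) (b : Fin m → En n → ℂ), (∀ i, b i ∈ W n k) ∧
        ∀ p ∈ W n k, ∃ c : Fin m → ℂ, p = ∑ i, c i • b i := by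
      intro k
      have _ := W_fin n k
      let bas := Module.finBasis ℂ (W n k)
      refine ⟨Module.finrank ℂ (W n k), fun i => (bas i : En n → ℂ), fun i => (bas i).2,
        fun p hp => ⟨fun i => bas.repr ⟨p, hp⟩ i, ?_⟩⟩
      have h2 := congrArg (Subtype.val) (bas.sum_repr ⟨p, hp⟩)
      rw [Submodule.coe_sum] at h2
      exact h2.symm
    choose m b h2 h3 using h1
    exact ⟨m, b, h2, h3⟩
  choose r v hv hS using fun R => H_stage hn R m b hb
  have hΓn : ∀ R t, (∀ i, ‖t i‖ ≤ 1) →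
      ‖G (r R + 1) (v R) (v R (Fin.last (r R))) t‖ ≤ 1 := fun R t ht =>
    (G_norm_le (hv R) _ ht).trans (hv R _).le
  refine ⟨fun R => r R + 1, fun R => G (r R + 1) (v R) (v R (Fin.last (r R))), ?_, hΓn, ?_, ?_, ?_⟩
  · exact fun R => G_diff _ _ _
  · intro R θ
    rw [G_norm_eq (hv R) _ (norm_ex θ)]
    exact hv R _
  · exact fun R => G_zero (hv R)
  · intro h A hh hA k u w
    have hA0 : 0 ≤ A := (norm_nonneg _).trans (hA 0 0)
    -- continuity
    have hΓc : ∀ R, Continuous fun θ : Fin (r R + 1) → ℝ =>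
        G (r R + 1) (v R) (v R (Fin.last (r R))) (ex θ) := fun R =>
      (G_diff _ _ _).continuous.comp continuous_ex
    have hcont : ∀ R, ∀ p : En n → ℂ, Continuous p → Continuous fun θ : Fin (r R + 1) → ℝ =>
        h R θ * conj (p (G (r R + 1) (v R) (v R (Fin.last (r R))) (ex θ))) := fun R p hp =>
      (hh R).cont.mul (Complex.continuous_conj.comp (hp.comp (hΓc R)))
    -- the elements of the basis
    have hbas : ∀ i, Tendsto (fun R => M (r R + 1) fun θ => h R θ *
        conj (b k i (G (r R + 1) (v R) (v R (Fin.last (r R))) (ex θ)))) atTop (𝓝 0) := by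
      intro i
      have h1 : ∀ R, k ≤ R → ‖M (r R + 1) fun θ => h R θ *
          conj (b k i (G (r R + 1) (v R) (v R (Fin.last (r R))) (ex θ)))‖ ^ 2 ≤
            A ^ 2 * (1 / (R + 1)) := by
        intro R hR
        have h2 := main_ineq (hv R) (W_mono hR (hb k i)) (hh R) (v R (Fin.last (r R)))
        refine h2.trans ?_
        have h3 : M (r R + 1) (fun θ => ‖h R θ‖ ^ 2) ≤ A ^ 2 := by
          have h4 := M_mono (F := fun θ => ‖h R θ‖ ^ 2) (H := fun _ => A ^ 2)
            ((hh R).cont.norm.pow 2) continuous_const fun θ =>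
              pow_le_pow_left₀ (norm_nonneg _) (hA R θ) 2
          rwa [M_const] at h4
        exact mul_le_mul h3 (hS R k hR i) (S_nonneg _ _ _ _ _) (sq_nonneg A)
      have h5 : Tendsto (fun R : ℕ => A ^ 2 * (1 / ((R : ℝ) + 1))) atTop (𝓝 0) := by
        have h6 := (tendsto_one_div_add_atTop_nhds_zero_nat (𝕜 := ℝ)).const_mul (A ^ 2)
        rwa [mul_zero] at h6
      have h7 : Tendsto (fun R => ‖M (r R + 1) fun θ => h R θ *
          conj (b k i (G (r R + 1) (v R) (v R (Fin.last (r R))) (ex θ)))‖ ^ 2) atTop (𝓝 0) := by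
        refine tendsto_of_tendsto_of_tendsto_of_le_of_le' tendsto_const_nhds h5
          (Eventually.of_forall fun R => sq_nonneg _) ?_
        filter_upwards [eventually_ge_atTop k] with R hR
        exact h1 R hR
      rw [tendsto_zero_iff_norm_tendsto_zero]
      have h8 := (Real.continuous_sqrt.tendsto 0).comp h7
      rw [Real.sqrt_zero] at h8
      refine h8.congr fun R => ?_
      exact Real.sqrt_sq (norm_nonneg _)
    -- the linear combination
    obtain ⟨c, hc⟩ := hspan k _ (P_mem le_rfl u w)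
    have h9 : ∀ R, (M (r R + 1) fun θ => h R θ *
        conj (P k u w (G (r R + 1) (v R) (v R (Fin.last (r R))) (ex θ)))) =
          ∑ i, conj (c i) * M (r R + 1) fun θ => h R θ *
            conj (b k i (G (r R + 1) (v R) (v R (Fin.last (r R))) (ex θ))) := by
      intro R
      have h10 : (fun θ : Fin (r R + 1) → ℝ => h R θ *
          conj (P k u w (G (r R + 1) (v R) (v R (Fin.last (r R))) (ex θ)))) = fun θ =>
            ∑ i, conj (c i) * (h R θ *
              conj (b k i (G (r R + 1) (v R) (v R (Fin.last (r R))) (ex θ)))) := by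
        funext θ
        rw [hc, Finset.sum_apply, map_sum, Finset.mul_sum]
        refine Finset.sum_congr rfl fun i _ => ?_
        rw [Pi.smul_apply, smul_eq_mul, map_mul]
        ring
      rw [h10, M_sum]
      · exact Finset.sum_congr rfl fun i _ => M_mul_left _ _ _
      · exact fun i _ => continuous_const.mul (hcont R _ (W_cont (hb k i)))
    have h11 : Tendsto (fun R => ∑ i, conj (c i) * M (r R + 1) fun θ => h R θ *
        conj (b k i (G (r R + 1) (v R) (v R (Fin.last (r R))) (ex θ)))) atTop (𝓝 0) := by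
      have h12 : Tendsto (fun R => ∑ i, conj (c i) * M (r R + 1) fun θ => h R θ *
          conj (b k i (G (r R + 1) (v R) (v R (Fin.last (r R))) (ex θ)))) atTop
            (𝓝 (∑ i : Fin (m k), conj (c i) * 0)) :=
        tendsto_finsetSum _ fun i _ => (hbas i).const_mul _
      simpa using h12
    exact h11.congr fun R => (h9 R).symm

end Pool.Agent.MPca0fc2.PD
end

section

/-! Campaign PD, row H2: the maps `Γ` are affine in each variable, and every subsequence is good. -/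

set_option autoImplicit false

open Metric Set MeasureTheory Filter Topology
open scoped Real ComplexConjugate

namespace Pool.Agent.MPca0fc2.PD

variable {n : ℕ}

/-- `G` is affine in each variable. -/
def MultiAffine {r : ℕ} (G : (Fin r → ℂ) → En n) : Prop :=
  ∀ (i : Fin r) (t : Fin r → ℂ), ∃ a b : En n, ∀ s : ℂ, G (Function.update t i s) = a + s • b

theorem D_lin (v : En n) (t s : ℂ) (a b : En n) : D v t (a + s • b) = D v t a + s • D v t b := by
  simp only [D, inner_add_right, inner_smul_right]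
  module

theorem G_affine (r : ℕ) (v : Fin r → En n) (z : En n) : MultiAffine (G r v z) := by
  induction r with
  | zero => exact fun i => i.elim0
  | succ r ih =>
    intro i t
    refine Fin.cases ?_ (fun j => ?_) i
    · refine ⟨G r (Fin.tail v) z (Fin.tail t) -
        (inner ℂ (v 0) (G r (Fin.tail v) z (Fin.tail t)) : ℂ) • v 0,
        (inner ℂ (v 0) (G r (Fin.tail v) z (Fin.tail t)) : ℂ) • v 0, fun s => ?_⟩
      rw [G, Function.update_self, Fin.tail_update_zero, D]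
      module
    · obtain ⟨a, b, hab⟩ := ih (Fin.tail v) j (Fin.tail t)
      refine ⟨D (v 0) (t 0) a, D (v 0) (t 0) b, fun s => ?_⟩
      rw [G, Function.update_of_ne (Fin.succ_ne_zero j).symm, Fin.tail_update_succ, hab, D_lin]

/-- Maps of polydiscs into the closed ball, with a uniform rate. -/
structure GoodU (n : ℕ) (r : ℕ → ℕ) (Γ : ∀ R, (Fin (r R) → ℂ) → En n) : Prop where
  diff : ∀ R, Differentiable ℂ (Γ R)
  le : ∀ R t, (∀ i, ‖t i‖ ≤ 1) → ‖Γ R t‖ ≤ 1
  eq : ∀ R θ, ‖Γ R (ex θ)‖ = 1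
  zero : ∀ R, Γ R 0 = 0
  orthU : ∀ (k : ℕ) (u w : En n), ∃ ε : ℕ → ℝ, Tendsto ε atTop (𝓝 0) ∧
    ∀ R (h : (Fin (r R) → ℝ) → ℂ) (A : ℝ), Ana (r R) h → (∀ θ, ‖h θ‖ ≤ A) →
      ‖M (r R) fun θ => h θ * conj (P k u w (Γ R (ex θ)))‖ ≤ A * ε R

/-- Subsequences. -/
theorem GoodU.comp {r : ℕ → ℕ} {Γ : ∀ R, (Fin (r R) → ℂ) → En n} (hΓ : GoodU n r Γ) {φ : ℕ → ℕ}
    (hφ : Tendsto φ atTop atTop) : Good n (fun m => r (φ m)) (fun m => Γ (φ m)) where
  diff m := hΓ.diff (φ m)
  le m := hΓ.le (φ m)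
  eq m := hΓ.eq (φ m)
  zero m := hΓ.zero (φ m)
  orth h A hh hA k u w := by
    obtain ⟨ε, hε, hle⟩ := hΓ.orthU k u w
    have h1 : Tendsto (fun m => A * ε (φ m)) atTop (𝓝 0) := by
      have h2 := (hε.comp hφ).const_mul A
      rwa [mul_zero] at h2
    exact squeeze_zero_norm (fun m => hle (φ m) (h m) A (hh m) (hA m)) h1

theorem GoodU.good {r : ℕ → ℕ} {Γ : ∀ R, (Fin (r R) → ℂ) → En n} (hΓ : GoodU n r Γ) :
    Good n r Γ := hΓ.comp tendsto_id

theorem exists_goodU (hn : 2 ≤ n) : ∃ (r : ℕ → ℕ) (Γ : ∀ R, (Fin (r R) → ℂ) → En n),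
    GoodU n r Γ ∧ ∀ R, MultiAffine (Γ R) := by
  -- bases
  obtain ⟨m, b, hb, hspan⟩ : ∃ (m : ℕ → ℕ) (b : ∀ k, Fin (m k) → En n → ℂ),
      (∀ k i, b k i ∈ W n k) ∧ ∀ k, ∀ p ∈ W n k, ∃ c : Fin (m k) → ℂ, p = ∑ i, c i • b k i := by
    have h1 : ∀ k, ∃ (m : ℕ) (b : Fin m → En n → ℂ), (∀ i, b i ∈ W n k) ∧
        ∀ p ∈ W n k, ∃ c : Fin m → ℂ, p = ∑ i, c i • b i := by
      intro k
      have _ := W_fin n k
      let bas := Module.finBasis ℂ (W n k)
      refine ⟨Module.finrank ℂ (W n k), fun i => (bas i : En n → ℂ), fun i => (bas i).2,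
        fun p hp => ⟨fun i => bas.repr ⟨p, hp⟩ i, ?_⟩⟩
      have h2 := congrArg (Subtype.val) (bas.sum_repr ⟨p, hp⟩)
      rw [Submodule.coe_sum] at h2
      exact h2.symm
    choose m b h2 h3 using h1
    exact ⟨m, b, h2, h3⟩
  choose r v hv hS using fun R => H_stage hn R m b hb
  have hΓn : ∀ R t, (∀ i, ‖t i‖ ≤ 1) →
      ‖G (r R + 1) (v R) (v R (Fin.last (r R))) t‖ ≤ 1 := fun R t ht =>
    (G_norm_le (hv R) _ ht).trans (hv R _).le
  refine ⟨fun R => r R + 1, fun R => G (r R + 1) (v R) (v R (Fin.last (r R))),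
    ⟨?_, hΓn, ?_, ?_, ?_⟩, fun R => G_affine _ _ _⟩
  · exact fun R => G_diff _ _ _
  · intro R θ
    rw [G_norm_eq (hv R) _ (norm_ex θ)]
    exact hv R _
  · exact fun R => G_zero (hv R)
  · intro k u w
    have hPc : Continuous (P k u w) := W_cont (P_mem le_rfl u w)
    obtain ⟨B, hB⟩ := (isCompact_closedBall (0 : En n) 1).exists_bound_of_continuousOn
      hPc.continuousOn
    obtain ⟨c, hc⟩ := hspan k _ (P_mem le_rfl u w)
    -- continuity
    have hΓc : ∀ R, Continuous fun θ : Fin (r R + 1) → ℝ =>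
        G (r R + 1) (v R) (v R (Fin.last (r R))) (ex θ) := fun R =>
      (G_diff _ _ _).continuous.comp continuous_ex
    have hcont : ∀ R, ∀ h : (Fin (r R + 1) → ℝ) → ℂ, Continuous h → ∀ p : En n → ℂ, Continuous p →
        Continuous fun θ : Fin (r R + 1) → ℝ =>
          h θ * conj (p (G (r R + 1) (v R) (v R (Fin.last (r R))) (ex θ))) := fun R h hh p hp =>
      hh.mul (Complex.continuous_conj.comp (hp.comp (hΓc R)))
    refine ⟨fun R => if k ≤ R then (∑ i, ‖c i‖) * Real.sqrt (1 / ((R : ℝ) + 1)) else |B|, ?_, ?_⟩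
    · have h1 : Tendsto (fun R : ℕ => (∑ i, ‖c i‖) * Real.sqrt (1 / ((R : ℝ) + 1))) atTop (𝓝 0) := by
        have h2 := (Real.continuous_sqrt.tendsto 0).comp
          (tendsto_one_div_add_atTop_nhds_zero_nat (𝕜 := ℝ))
        rw [Real.sqrt_zero] at h2
        have h3 := h2.const_mul (∑ i, ‖c i‖)
        rwa [mul_zero] at h3
      refine h1.congr' ?_
      filter_upwards [eventually_ge_atTop k] with R hR
      rw [if_pos hR]
    · intro R h A hh hA
      have hA0 : 0 ≤ A := (norm_nonneg _).trans (hA 0)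
      dsimp only
      by_cases hR : k ≤ R
      · rw [if_pos hR]
        -- the elements of the basis
        have hbas : ∀ i, ‖M (r R + 1) fun θ => h θ *
            conj (b k i (G (r R + 1) (v R) (v R (Fin.last (r R))) (ex θ)))‖ ≤
              A * Real.sqrt (1 / ((R : ℝ) + 1)) := by
          intro i
          have h2 := main_ineq (hv R) (W_mono hR (hb k i)) hh (v R (Fin.last (r R)))
          have h3 : M (r R + 1) (fun θ => ‖h θ‖ ^ 2) ≤ A ^ 2 := by
            have h4 := M_mono (F := fun θ => ‖h θ‖ ^ 2) (H := fun _ => A ^ 2)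
              (hh.cont.norm.pow 2) continuous_const fun θ =>
                pow_le_pow_left₀ (norm_nonneg _) (hA θ) 2
            rwa [M_const] at h4
          have h5 : ‖M (r R + 1) fun θ => h θ *
              conj (b k i (G (r R + 1) (v R) (v R (Fin.last (r R))) (ex θ)))‖ ^ 2 ≤
                A ^ 2 * (1 / ((R : ℝ) + 1)) :=
            h2.trans (mul_le_mul h3 (hS R k hR i) (S_nonneg _ _ _ _ _) (sq_nonneg A))
          have h6 := Real.sqrt_le_sqrt h5
          rwa [Real.sqrt_sq (norm_nonneg _), Real.sqrt_mul (sq_nonneg A), Real.sqrt_sq hA0] at h6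
        have h9 : (M (r R + 1) fun θ => h θ *
            conj (P k u w (G (r R + 1) (v R) (v R (Fin.last (r R))) (ex θ)))) =
              ∑ i, conj (c i) * M (r R + 1) fun θ => h θ *
                conj (b k i (G (r R + 1) (v R) (v R (Fin.last (r R))) (ex θ))) := by
          have h10 : (fun θ : Fin (r R + 1) → ℝ => h θ *
              conj (P k u w (G (r R + 1) (v R) (v R (Fin.last (r R))) (ex θ)))) = fun θ =>
                ∑ i, conj (c i) * (h θ *
                  conj (b k i (G (r R + 1) (v R) (v R (Fin.last (r R))) (ex θ)))) := by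
            funext θ
            rw [hc, Finset.sum_apply, map_sum, Finset.mul_sum]
            refine Finset.sum_congr rfl fun i _ => ?_
            rw [Pi.smul_apply, smul_eq_mul, map_mul]
            ring
          rw [h10, M_sum]
          · exact Finset.sum_congr rfl fun i _ => M_mul_left _ _ _
          · exact fun i _ => continuous_const.mul (hcont R h hh.cont _ (W_cont (hb k i)))
        rw [h9]
        refine (norm_sum_le _ _).trans ?_
        rw [Finset.sum_mul, Finset.mul_sum]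
        refine Finset.sum_le_sum fun i _ => ?_
        rw [norm_mul, RCLike.norm_conj]
        refine (mul_le_mul_of_nonneg_left (hbas i) (norm_nonneg (c i))).trans (le_of_eq ?_)
        ring
      · rw [if_neg hR]
        have h1 : Continuous fun θ : Fin (r R + 1) → ℝ => h θ *
            conj (P k u w (G (r R + 1) (v R) (v R (Fin.last (r R))) (ex θ))) :=
          hcont R h hh.cont _ hPc
        refine (norm_M_le h1).trans ?_
        have h2 := M_mono (F := fun θ => ‖h θ *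
            conj (P k u w (G (r R + 1) (v R) (v R (Fin.last (r R))) (ex θ)))‖)
          (H := fun _ => A * |B|) h1.norm continuous_const fun θ => by
            rw [norm_mul, RCLike.norm_conj]
            refine mul_le_mul (hA θ) ?_ (norm_nonneg _) hA0
            refine (hB _ ?_).trans (le_abs_self B)
            rw [mem_closedBall_zero_iff]
            exact hΓn R _ fun i => (norm_ex θ i).le
        rwa [M_const] at h2

end Pool.Agent.MPca0fc2.PD
end
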