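import Pool.Agent.Lib.MP_ca0fc2_an.Mg.G102
import Pool.Agent.Lib.MP_ca0fc2_an.Mg.G105
import Pool.Agent.Lib.MP_ca0fc2_an.Holo
import Pool.Agent.Lib.MP_ca0fc2_an.Mg.G049
import Pool.Agent.Lib.MP_ca0fc2_an.Mg.G131

section

/-! Campaign PD, row I: the means `M (h K(w, Γ))` are asymptotically multiplicative over functions of `Γ`. -/

set_option autoImplicit false

open Metric Set MeasureTheory Filter Topology
open scoped Real ComplexConjugate

namespace Pool.Agent.MPca0fc2.PD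

variable {n : ℕ}

theorem cont_gam {r : ℕ} {Γ : (Fin r → ℂ) → En n} (hΓ : Differentiable ℂ Γ) :
    Continuous fun θ : Fin r → ℝ => Γ (ex θ) := hΓ.continuous.comp continuous_ex

/-- linear functions: the series for `K`, termwise `Good.orth` for `P k u w` (its conjugate on the sphere is
`⟨y, u⟩ ⟨w, y⟩^k - k/(k+n-1) ⟨w, u⟩ ⟨w, y⟩^(k-1)`), `choose_rec` and a tail estimate
(`tendsto_tsum_of_dominated_convergence`). -/
theorem mod_lin (hn : 2 ≤ n) {r : ℕ → ℕ} {Γ : ∀ R, (Fin (r R) → ℂ) → En n} (hΓ : Good n r Γ)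
    {h : ∀ R, (Fin (r R) → ℝ) → ℂ} {A : ℝ} (hh : ∀ R, Ana (r R) (h R)) (hA : ∀ R θ, ‖h R θ‖ ≤ A)
    (u : En n) {w : En n} (hw : ‖w‖ < 1) :
    Tendsto (fun R => M (r R) (fun θ => h R θ * inner ℂ u (Γ R (ex θ)) * K w (Γ R (ex θ))) -
      inner ℂ u w * M (r R) (fun θ => h R θ * K w (Γ R (ex θ)))) atTop (𝓝 0) := by
  have hA0 : 0 ≤ A := (norm_nonneg _).trans (hA 0 fun _ => 0)
  have hcΓ : ∀ R, Continuous fun θ : Fin (r R) → ℝ => Γ R (ex θ) := fun R => cont_gam (hΓ.diff R)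
  have hcK : ∀ R, Continuous fun θ : Fin (r R) → ℝ => K w (Γ R (ex θ)) := fun R =>
    K_cont hw (hcΓ R) fun θ => (hΓ.eq R θ).le
  have hcP : ∀ R k, Continuous fun θ : Fin (r R) → ℝ => conj (P k u w (Γ R (ex θ))) := fun R k =>
    Complex.continuous_conj.comp ((W_cont (P_mem le_rfl u w)).comp (hcΓ R))
  have hcu : ∀ R, Continuous fun θ : Fin (r R) → ℝ => (inner ℂ u (Γ R (ex θ)) : ℂ) := fun R =>
    continuous_const.inner (hcΓ R)
  rw [Metric.tendsto_atTop]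
  intro ε hε
  obtain ⟨m, hm⟩ := approx hn u hw (ε := ε / (2 * (A + 1))) (by positivity)
  -- the finite sum tends to zero
  have hfin : Tendsto (fun R => ∑ k ∈ Finset.range m,
      ck n k * M (r R) (fun θ => h R θ * conj (P k u w (Γ R (ex θ))))) atTop (𝓝 0) := by
    have : Tendsto (fun R => ∑ k ∈ Finset.range m,
      ck n k * M (r R) (fun θ => h R θ * conj (P k u w (Γ R (ex θ))))) atTop
        (𝓝 (∑ k ∈ Finset.range m, ck n k * 0)) :=
      tendsto_finsetSum _ fun k _ => (hΓ.orth h A hh hA k u w).const_mul _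
    simpa using this
  obtain ⟨R₀, hR₀⟩ := (Metric.tendsto_atTop.1 hfin) (ε / 2) (by positivity)
  refine ⟨R₀, fun R hR => ?_⟩
  have h1 := hR₀ R hR
  rw [dist_zero_right] at h1 ⊢
  -- the error term
  obtain ⟨Er, hEr⟩ : ∃ Er : (Fin (r R) → ℝ) → ℂ, Er = fun θ =>
      (inner ℂ u (Γ R (ex θ)) * K w (Γ R (ex θ)) - inner ℂ u w * K w (Γ R (ex θ))) -
      ∑ k ∈ Finset.range m, ck n k * conj (P k u w (Γ R (ex θ))) := ⟨_, rfl⟩
  have hEc : Continuous Er := by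
    rw [hEr]
    exact (((hcu R).mul (hcK R)).sub (continuous_const.mul (hcK R))).sub
      (continuous_finsetSum _ fun k _ => continuous_const.mul (hcP R k))
  have hEb : ∀ θ, ‖Er θ‖ ≤ ε / (2 * (A + 1)) := fun θ => by
    rw [hEr]
    exact hm _ (hΓ.eq R θ)
  have c1 : Continuous fun θ : Fin (r R) → ℝ => h R θ * inner ℂ u (Γ R (ex θ)) * K w (Γ R (ex θ)) :=
    ((hh R).cont.mul (hcu R)).mul (hcK R)
  have c2 : Continuous fun θ : Fin (r R) → ℝ => inner ℂ u w * (h R θ * K w (Γ R (ex θ))) :=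
    continuous_const.mul ((hh R).cont.mul (hcK R))
  have c3 : Continuous fun θ : Fin (r R) → ℝ =>
      ∑ k ∈ Finset.range m, ck n k * (h R θ * conj (P k u w (Γ R (ex θ)))) :=
    continuous_finsetSum _ fun k _ => continuous_const.mul ((hh R).cont.mul (hcP R k))
  have c4 : Continuous fun θ : Fin (r R) → ℝ => h R θ * Er θ := (hh R).cont.mul hEc
  have hid : M (r R) (fun θ => h R θ * inner ℂ u (Γ R (ex θ)) * K w (Γ R (ex θ))) -
      inner ℂ u w * M (r R) (fun θ => h R θ * K w (Γ R (ex θ))) =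
      (∑ k ∈ Finset.range m, ck n k * M (r R) (fun θ => h R θ * conj (P k u w (Γ R (ex θ))))) +
        M (r R) (fun θ => h R θ * Er θ) := by
    have e1 : inner ℂ u w * M (r R) (fun θ => h R θ * K w (Γ R (ex θ))) =
        M (r R) (fun θ => inner ℂ u w * (h R θ * K w (Γ R (ex θ)))) := (M_mul_left _ _ _).symm
    have e2 : (∑ k ∈ Finset.range m, ck n k * M (r R) (fun θ => h R θ * conj (P k u w (Γ R (ex θ))))) =
        M (r R) (fun θ => ∑ k ∈ Finset.range m, ck n k * (h R θ * conj (P k u w (Γ R (ex θ))))) := by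
      have e4 := M_sum (r := r R) (Finset.range m)
        (F := fun k θ => ck n k * (h R θ * conj (P k u w (Γ R (ex θ)))))
        fun k _ => continuous_const.mul ((hh R).cont.mul (hcP R k))
      rw [e4]
      exact Finset.sum_congr rfl fun k _ => (M_mul_left _ _ _).symm
    rw [e1, e2, ← M_sub c1 c2, ← M_add c3 c4]
    congr 1
    funext θ
    have e3 : (∑ k ∈ Finset.range m, ck n k * (h R θ * conj (P k u w (Γ R (ex θ))))) =
        h R θ * ∑ k ∈ Finset.range m, ck n k * conj (P k u w (Γ R (ex θ))) := by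
      rw [Finset.mul_sum]
      exact Finset.sum_congr rfl fun k _ => by ring
    rw [e3, hEr]
    ring
  have h2 : ‖M (r R) (fun θ => h R θ * Er θ)‖ ≤ A * (ε / (2 * (A + 1))) := by
    refine (norm_M_le c4).trans ?_
    refine (M_mono (F := fun θ => ‖h R θ * Er θ‖) c4.norm continuous_const
      (H := fun _ => A * (ε / (2 * (A + 1)))) fun θ => ?_).trans_eq (M_const _ _)
    rw [norm_mul]
    exact mul_le_mul (hA R θ) (hEb θ) (norm_nonneg _) hA0
  have h3 : A * (ε / (2 * (A + 1))) < ε / 2 := by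
    rw [show A * (ε / (2 * (A + 1))) = ε / 2 * (A / (A + 1)) by field_simp]
    have : A / (A + 1) < 1 := by rw [div_lt_one (by linarith)]; linarith
    nlinarith
  rw [hid]
  calc _ ≤ ‖∑ k ∈ Finset.range m, ck n k * M (r R) (fun θ => h R θ * conj (P k u w (Γ R (ex θ))))‖ +
        ‖M (r R) (fun θ => h R θ * Er θ)‖ := norm_add_le _ _
    _ < ε / 2 + ε / 2 := add_lt_add_of_lt_of_le h1 (h2.trans h3.le)
    _ = ε := by ring

/-- the algebra of the polynomials -/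
noncomputable def Pol (n : ℕ) : Subalgebra ℂ (En n → ℂ) :=
  Algebra.adjoin ℂ (range fun u : En n => fun y : En n => (inner ℂ u y : ℂ))

theorem Pol_diff {φ : En n → ℂ} (hφ : φ ∈ Pol n) : Differentiable ℂ φ := by
  refine Algebra.adjoin_induction (p := fun φ _ => Differentiable ℂ φ) ?_ ?_ ?_ ?_ hφ
  · rintro x ⟨u, rfl⟩
    exact (innerSL ℂ u).differentiable
  · intro c
    exact differentiable_const c
  · intro x y _ _ hx hy
    exact hx.add hy
  · intro x y _ _ hx hy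
    exact hx.mul hy

theorem Pol_bdd {φ : En n → ℂ} (hφ : φ ∈ Pol n) : ∃ C, ∀ y ∈ closedBall (0 : En n) 1, ‖φ y‖ ≤ C :=
  (isCompact_closedBall (0 : En n) 1).exists_bound_of_continuousOn (Pol_diff hφ).continuous.continuousOn

/-- the means `M (H φ(Γ) K(w, Γ)) - φ(w) M (H K(w, Γ))` tend to zero -/
def ModP {r : ℕ → ℕ} (Γ : ∀ R, (Fin (r R) → ℂ) → En n) (ρ : ℕ → ℝ) (w : En n) (φ : En n → ℂ) : Prop :=
  ∀ (H : ∀ R, (Fin (r R) → ℂ) → ℂ) (A : ℝ), (∀ R, DifferentiableOn ℂ (H R) (ball 0 (ρ R))) →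
    (∀ R θ, ‖H R (ex θ)‖ ≤ A) →
    Tendsto (fun R => M (r R) (fun θ => H R (ex θ) * φ (Γ R (ex θ)) * K w (Γ R (ex θ))) -
      φ w * M (r R) (fun θ => H R (ex θ) * K w (Γ R (ex θ)))) atTop (𝓝 0)

theorem modP_const {r : ℕ → ℕ} {Γ : ∀ R, (Fin (r R) → ℂ) → En n} {ρ : ℕ → ℝ} {w : En n} (c : ℂ) :
    ModP Γ ρ w (fun _ => c) := by
  intro H A hH hA
  have h1 : (fun R => M (r R) (fun θ => H R (ex θ) * c * K w (Γ R (ex θ))) -
      c * M (r R) (fun θ => H R (ex θ) * K w (Γ R (ex θ)))) = fun _ => 0 := by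
    funext R
    have e1 : (fun θ : Fin (r R) → ℝ => H R (ex θ) * c * K w (Γ R (ex θ))) =
        fun θ => c * (H R (ex θ) * K w (Γ R (ex θ))) := by
      funext θ
      ring
    rw [e1, M_mul_left, sub_self]
  show Tendsto (fun R => M (r R) (fun θ => H R (ex θ) * c * K w (Γ R (ex θ))) -
      c * M (r R) (fun θ => H R (ex θ) * K w (Γ R (ex θ)))) atTop (𝓝 0)
  rw [h1]
  exact tendsto_const_nhds

theorem modP_add {r : ℕ → ℕ} {Γ : ∀ R, (Fin (r R) → ℂ) → En n} (hΓ : Good n r Γ) {ρ : ℕ → ℝ}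
    (hρ : ∀ R, 1 < ρ R) {w : En n} (hw : ‖w‖ < 1) {x y : En n → ℂ} (hx : Continuous x)
    (hy : Continuous y) (hpx : ModP Γ ρ w x) (hpy : ModP Γ ρ w y) : ModP Γ ρ w (fun z => x z + y z) := by
  intro H A hH hA
  have h1 := (hpx H A hH hA).add (hpy H A hH hA)
  rw [add_zero] at h1
  refine h1.congr fun R => ?_
  have hcΓ : Continuous fun θ : Fin (r R) → ℝ => Γ R (ex θ) := cont_gam (hΓ.diff R)
  have hcK : Continuous fun θ : Fin (r R) → ℝ => K w (Γ R (ex θ)) :=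
    K_cont hw hcΓ fun θ => (hΓ.eq R θ).le
  have hcH : Continuous fun θ : Fin (r R) → ℝ => H R (ex θ) := (ana_of_hol (hρ R) (hH R)).cont
  have c1 : Continuous fun θ : Fin (r R) → ℝ => H R (ex θ) * x (Γ R (ex θ)) * K w (Γ R (ex θ)) :=
    (hcH.mul (hx.comp hcΓ)).mul hcK
  have c2 : Continuous fun θ : Fin (r R) → ℝ => H R (ex θ) * y (Γ R (ex θ)) * K w (Γ R (ex θ)) :=
    (hcH.mul (hy.comp hcΓ)).mul hcK
  have e1 : (fun θ : Fin (r R) → ℝ => H R (ex θ) * (x (Γ R (ex θ)) + y (Γ R (ex θ))) *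
      K w (Γ R (ex θ))) = fun θ => H R (ex θ) * x (Γ R (ex θ)) * K w (Γ R (ex θ)) +
        H R (ex θ) * y (Γ R (ex θ)) * K w (Γ R (ex θ)) := by
    funext θ
    ring
  rw [e1, M_add c1 c2]
  ring

theorem modP_mul {r : ℕ → ℕ} {Γ : ∀ R, (Fin (r R) → ℂ) → En n} (hΓ : Good n r Γ) {ρ : ℕ → ℝ}
    {w : En n} {x y : En n → ℂ} (hx : Differentiable ℂ x)
    (hpx : ModP Γ ρ w x) (hpy : ModP Γ ρ w y) : ModP Γ ρ w (fun z => x z * y z) := by
  intro H A hH hA
  obtain ⟨C, hC⟩ := (isCompact_closedBall (0 : En n) 1).exists_bound_of_continuousOn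
    hx.continuous.continuousOn
  have hA0 : 0 ≤ A := (norm_nonneg _).trans (hA 0 fun _ => 0)
  have h1 := hpy (fun R t => H R t * x (Γ R t)) (A * C)
    (fun R => (hH R).mul (hx.comp (hΓ.diff R)).differentiableOn) (fun R θ => by
      rw [norm_mul]
      exact mul_le_mul (hA R θ) (hC _ (mem_closedBall_zero_iff.2 (hΓ.eq R θ).le)) (norm_nonneg _) hA0)
  have h2 := (hpx H A hH hA).const_mul (y w)
  have h3 := h1.add h2
  rw [mul_zero, add_zero] at h3
  refine h3.congr fun R => ?_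
  have e1 : (fun θ : Fin (r R) → ℝ => H R (ex θ) * (x (Γ R (ex θ)) * y (Γ R (ex θ))) *
      K w (Γ R (ex θ))) = fun θ => H R (ex θ) * x (Γ R (ex θ)) * y (Γ R (ex θ)) *
        K w (Γ R (ex θ)) := by
    funext θ
    ring
  rw [e1]
  ring

theorem modP_pol (hn : 2 ≤ n) {r : ℕ → ℕ} {Γ : ∀ R, (Fin (r R) → ℂ) → En n} (hΓ : Good n r Γ)
    {φ : En n → ℂ} (hφ : φ ∈ Pol n) {ρ : ℕ → ℝ} (hρ : ∀ R, 1 < ρ R) {w : En n} (hw : ‖w‖ < 1) :
    ModP Γ ρ w φ := by
  refine Algebra.adjoin_induction (p := fun φ _ => ModP Γ ρ w φ) ?_ ?_ ?_ ?_ hφ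
  · rintro x ⟨u, rfl⟩ H A hH hA
    exact mod_lin hn hΓ (h := fun R θ => H R (ex θ)) (fun R => ana_of_hol (hρ R) (hH R)) hA u hw
  · intro c
    exact modP_const c
  · intro x y hx hy hpx hpy
    exact modP_add hΓ hρ hw (Pol_diff hx).continuous (Pol_diff hy).continuous hpx hpy
  · intro x y hx hy hpx hpy
    exact modP_mul hΓ (Pol_diff hx) hpx hpy

/-- polynomials: `Algebra.adjoin_induction`; products: `h` is replaced by `h φ(Γ)`, which is holomorphic near the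
closed polydisc -/
theorem mod_pol (hn : 2 ≤ n) {r : ℕ → ℕ} {Γ : ∀ R, (Fin (r R) → ℂ) → En n} (hΓ : Good n r Γ)
    {φ : En n → ℂ} (hφ : φ ∈ Pol n) {H : ∀ R, (Fin (r R) → ℂ) → ℂ} {ρ : ℕ → ℝ} {A : ℝ}
    (hρ : ∀ R, 1 < ρ R) (hH : ∀ R, DifferentiableOn ℂ (H R) (ball 0 (ρ R)))
    (hA : ∀ R θ, ‖H R (ex θ)‖ ≤ A) {w : En n} (hw : ‖w‖ < 1) :
    Tendsto (fun R => M (r R) (fun θ => H R (ex θ) * φ (Γ R (ex θ)) * K w (Γ R (ex θ))) -
      φ w * M (r R) (fun θ => H R (ex θ) * K w (Γ R (ex θ)))) atTop (𝓝 0) :=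
  modP_pol hn hΓ hφ hρ hw H A hH hA

/-- uniform limits of polynomials on the closed ball -/
theorem mod_lim (hn : 2 ≤ n) {r : ℕ → ℕ} {Γ : ∀ R, (Fin (r R) → ℂ) → En n} (hΓ : Good n r Γ)
    {φ : En n → ℂ} (hc : ContinuousOn φ (closedBall 0 1))
    (hφ : ∀ ε > 0, ∃ ψ ∈ Pol n, ∀ y ∈ closedBall (0 : En n) 1, ‖φ y - ψ y‖ ≤ ε)
    {H : ∀ R, (Fin (r R) → ℂ) → ℂ} {ρ : ℕ → ℝ} {A : ℝ}
    (hρ : ∀ R, 1 < ρ R) (hH : ∀ R, DifferentiableOn ℂ (H R) (ball 0 (ρ R)))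
    (hA : ∀ R θ, ‖H R (ex θ)‖ ≤ A) {w : En n} (hw : ‖w‖ < 1) :
    Tendsto (fun R => M (r R) (fun θ => H R (ex θ) * φ (Γ R (ex θ)) * K w (Γ R (ex θ))) -
      φ w * M (r R) (fun θ => H R (ex θ) * K w (Γ R (ex θ)))) atTop (𝓝 0) := by
  have hA0 : 0 ≤ A := (norm_nonneg _).trans (hA 0 fun _ => 0)
  have hcΓ : ∀ R, Continuous fun θ : Fin (r R) → ℝ => Γ R (ex θ) := fun R => cont_gam (hΓ.diff R)
  have hcK : ∀ R, Continuous fun θ : Fin (r R) → ℝ => K w (Γ R (ex θ)) := fun R =>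
    K_cont hw (hcΓ R) fun θ => (hΓ.eq R θ).le
  set B : ℝ := ((1 - ‖w‖) ^ n)⁻¹ with hB
  have hB0 : 0 ≤ B := inv_nonneg.2 (pow_nonneg (by linarith) n)
  rw [Metric.tendsto_atTop]
  intro ε hε
  obtain ⟨ψ, hψ, hψ1⟩ := hφ (ε / (4 * (A + 1) * (B + 1))) (by positivity)
  obtain ⟨R₀, hR₀⟩ := (Metric.tendsto_atTop.1 (mod_pol hn hΓ hψ hρ hH hA hw)) (ε / 2) (by positivity)
  refine ⟨R₀, fun R hR => ?_⟩
  have h1 := hR₀ R hR
  rw [dist_zero_right] at h1 ⊢
  have hcH := (ana_of_hol (hρ R) (hH R)).cont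
  have hcφ : Continuous fun θ : Fin (r R) → ℝ => φ (Γ R (ex θ)) :=
    hc.comp_continuous (hcΓ R) fun θ => mem_closedBall_zero_iff.2 (hΓ.eq R θ).le
  have hcψ : Continuous fun θ : Fin (r R) → ℝ => ψ (Γ R (ex θ)) := (Pol_diff hψ).continuous.comp (hcΓ R)
  have c1 : Continuous fun θ : Fin (r R) → ℝ => H R (ex θ) * ψ (Γ R (ex θ)) * K w (Γ R (ex θ)) :=
    (hcH.mul hcψ).mul (hcK R)
  have c2 : Continuous fun θ : Fin (r R) → ℝ =>
      H R (ex θ) * (φ (Γ R (ex θ)) - ψ (Γ R (ex θ))) * K w (Γ R (ex θ)) :=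
    (hcH.mul (hcφ.sub hcψ)).mul (hcK R)
  have c3 : Continuous fun θ : Fin (r R) → ℝ => H R (ex θ) * K w (Γ R (ex θ)) := hcH.mul (hcK R)
  have e1 : M (r R) (fun θ => H R (ex θ) * φ (Γ R (ex θ)) * K w (Γ R (ex θ))) =
      M (r R) (fun θ => H R (ex θ) * ψ (Γ R (ex θ)) * K w (Γ R (ex θ))) +
      M (r R) (fun θ => H R (ex θ) * (φ (Γ R (ex θ)) - ψ (Γ R (ex θ))) * K w (Γ R (ex θ))) := by
    rw [← M_add c1 c2]
    congr 1
    funext θ
    ring
  set η : ℝ := ε / (4 * (A + 1) * (B + 1)) with hη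
  have hη0 : 0 ≤ η := by positivity
  have h2 : ‖M (r R) (fun θ => H R (ex θ) * (φ (Γ R (ex θ)) - ψ (Γ R (ex θ))) * K w (Γ R (ex θ)))‖ ≤
      A * η * B := by
    refine (norm_M_le c2).trans ?_
    refine (M_mono (F := fun θ => ‖H R (ex θ) * (φ (Γ R (ex θ)) - ψ (Γ R (ex θ))) * K w (Γ R (ex θ))‖)
      c2.norm continuous_const (H := fun _ => A * η * B) fun θ => ?_).trans_eq (M_const _ _)
    rw [norm_mul, norm_mul]
    exact mul_le_mul (mul_le_mul (hA R θ) (hψ1 _ (mem_closedBall_zero_iff.2 (hΓ.eq R θ).le))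
      (norm_nonneg _) hA0) (K_norm_le hw (hΓ.eq R θ).le) (norm_nonneg _) (by positivity)
  have h3 : ‖M (r R) (fun θ => H R (ex θ) * K w (Γ R (ex θ)))‖ ≤ A * B := by
    refine (norm_M_le c3).trans ?_
    refine (M_mono (F := fun θ => ‖H R (ex θ) * K w (Γ R (ex θ))‖) c3.norm continuous_const
      (H := fun _ => A * B) fun θ => ?_).trans_eq (M_const _ _)
    rw [norm_mul]
    exact mul_le_mul (hA R θ) (K_norm_le hw (hΓ.eq R θ).le) (norm_nonneg _) hA0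
  have h4 : ‖ψ w - φ w‖ ≤ η := by
    rw [norm_sub_rev]
    exact hψ1 w (mem_closedBall_zero_iff.2 hw.le)
  have h5 : A * B * η ≤ ε / 4 := by
    have h6 : A * B ≤ (A + 1) * (B + 1) := by nlinarith
    have h7 : (A + 1) * (B + 1) * η = ε / 4 := by
      rw [hη]
      field_simp
    calc A * B * η ≤ (A + 1) * (B + 1) * η := by gcongr
      _ = ε / 4 := h7
  have e2 : M (r R) (fun θ => H R (ex θ) * φ (Γ R (ex θ)) * K w (Γ R (ex θ))) -
      φ w * M (r R) (fun θ => H R (ex θ) * K w (Γ R (ex θ))) =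
      (M (r R) (fun θ => H R (ex θ) * ψ (Γ R (ex θ)) * K w (Γ R (ex θ))) -
        ψ w * M (r R) (fun θ => H R (ex θ) * K w (Γ R (ex θ)))) +
      (M (r R) (fun θ => H R (ex θ) * (φ (Γ R (ex θ)) - ψ (Γ R (ex θ))) * K w (Γ R (ex θ))) +
        (ψ w - φ w) * M (r R) (fun θ => H R (ex θ) * K w (Γ R (ex θ)))) := by
    rw [e1]
    ring
  rw [e2]
  have h6 : ‖(ψ w - φ w) * M (r R) (fun θ => H R (ex θ) * K w (Γ R (ex θ)))‖ ≤ η * (A * B) := by
    rw [norm_mul]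
    exact mul_le_mul h4 h3 (norm_nonneg _) hη0
  have h7 := norm_add_le (M (r R) (fun θ => H R (ex θ) * (φ (Γ R (ex θ)) - ψ (Γ R (ex θ))) *
    K w (Γ R (ex θ)))) ((ψ w - φ w) * M (r R) (fun θ => H R (ex θ) * K w (Γ R (ex θ))))
  refine lt_of_le_of_lt (norm_add_le _ _) ?_
  nlinarith

end Pool.Agent.MPca0fc2.PD
end

section

/-! Campaign PD, row J: polynomial approximation on the closed ball. -/

set_option autoImplicit false

open Metric Set MeasureTheory Filter Topology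
open scoped Real ComplexConjugate

namespace Pool.Agent.MPca0fc2.PD

variable {n : ℕ}

/-- homogeneity of the derivative -/
theorem J_fderiv_smul {k : ℕ} {g : En n → ℂ} (hg : DifferentiableOn ℂ g (ball 0 1))
    (hh : ∀ y ∈ ball (0 : En n) 1, ∀ ζ : ℂ, ζ ≠ 0 → ‖ζ‖ ≤ 1 → g (ζ • y) = ζ ^ (k + 1) * g y)
    {y : En n} (hy : y ∈ ball (0 : En n) 1) {ζ : ℂ} (h0 : ζ ≠ 0) (h1 : ‖ζ‖ ≤ 1) (v : En n) :
    fderiv ℂ g (ζ • y) v = ζ ^ k * fderiv ℂ g y v := by
  have hm : ∀ z ∈ ball (0 : En n) 1, ζ • z ∈ ball (0 : En n) 1 := fun z hz => DA.hom_mem hz h1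
  have d1 : HasFDerivAt g (fderiv ℂ g (ζ • y)) (ζ • y) :=
    (hg.differentiableAt (isOpen_ball.mem_nhds (hm y hy))).hasFDerivAt
  have d2 : HasFDerivAt g (fderiv ℂ g y) y :=
    (hg.differentiableAt (isOpen_ball.mem_nhds hy)).hasFDerivAt
  have d3 : HasFDerivAt (fun z : En n => ζ • z) (ζ • ContinuousLinearMap.id ℂ (En n)) y :=
    (hasFDerivAt_id y).const_smul ζ
  have d4 : HasFDerivAt (fun z : En n => g (ζ • z))
      ((fderiv ℂ g (ζ • y)).comp (ζ • ContinuousLinearMap.id ℂ (En n))) y := d1.comp y d3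
  have d5 : HasFDerivAt (fun z : En n => ζ ^ (k + 1) * g z) (ζ ^ (k + 1) • fderiv ℂ g y) y :=
    d2.const_mul _
  have d6 : (fun z : En n => g (ζ • z)) =ᶠ[𝓝 y] fun z : En n => ζ ^ (k + 1) * g z := by
    filter_upwards [isOpen_ball.mem_nhds hy] with z hz
    exact hh z hz ζ h0 h1
  have d7 := (d5.congr_of_eventuallyEq d6).unique d4
  have d8 := congrArg (fun L : En n →L[ℂ] ℂ => L v) d7
  simp only [_root_.smul_apply, smul_eq_mul, ContinuousLinearMap.comp_apply,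
    ContinuousLinearMap.id_apply, map_smul] at d8
  have d9 : ζ * fderiv ℂ g (ζ • y) v = ζ * (ζ ^ k * fderiv ℂ g y v) := by
    rw [← d8]
    ring
  exact mul_left_cancel₀ h0 d9

/-- a homogeneous holomorphic function is a polynomial -/
theorem J_hom (k : ℕ) : ∀ g : En n → ℂ, DifferentiableOn ℂ g (ball 0 1) →
    (∀ y ∈ ball (0 : En n) 1, ∀ ζ : ℂ, ζ ≠ 0 → ‖ζ‖ ≤ 1 → g (ζ • y) = ζ ^ k * g y) →
    ∃ ψ ∈ Pol n, (∀ y ∈ ball (0 : En n) 1, g y = ψ y) ∧
      ∀ (y : En n) (ζ : ℂ), ψ (ζ • y) = ζ ^ k * ψ y := by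
  induction k with
  | zero =>
    intro g hg hh
    refine ⟨fun _ => g 0, (Pol n).algebraMap_mem (g 0), fun y hy => ?_, fun y ζ => by simp⟩
    have h1 : Tendsto (fun m : ℕ => ((1 : ℂ) / ((m : ℂ) + 1)) • y) atTop (𝓝 0) := by
      have := (tendsto_one_div_add_atTop_nhds_zero_nat (𝕜 := ℂ)).smul_const y
      rwa [zero_smul] at this
    have h2 : Tendsto g (𝓝 0) (𝓝 (g 0)) :=
      (hg.continuousOn.continuousAt (ball_mem_nhds 0 one_pos))
    have h3 := h2.comp h1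
    have h4 : (fun m : ℕ => g (((1 : ℂ) / ((m : ℂ) + 1)) • y)) = fun _ => g y := by
      funext m
      have h5 : ((m : ℂ) + 1) ≠ 0 := by exact_mod_cast Nat.succ_ne_zero m
      rw [hh y hy _ (by simp [h5]) ?_, pow_zero, one_mul]
      rw [norm_div, norm_one]
      have h6 : ‖(m : ℂ) + 1‖ = (m : ℝ) + 1 := by
        have : ((m : ℂ) + 1) = (((m : ℝ) + 1 : ℝ) : ℂ) := by push_cast; rfl
        rw [this, Complex.norm_real, Real.norm_eq_abs, abs_of_nonneg (by positivity)]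
      rw [h6, div_le_one (by positivity)]
      have : (0 : ℝ) ≤ m := Nat.cast_nonneg m
      linarith
    have h5 : Tendsto (fun _ : ℕ => g y) atTop (𝓝 (g 0)) := by
      rw [← h4]
      exact h3
    exact tendsto_nhds_unique tendsto_const_nhds h5
  | succ k ih =>
    intro g hg hh
    -- boundedness
    have hsub : closedBall (0 : En n) (1 / 2) ⊆ ball (0 : En n) 1 :=
      closedBall_subset_ball (by norm_num)
    obtain ⟨M, hM⟩ := (isCompact_closedBall (0 : En n) (1 / 2)).exists_bound_of_continuousOn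
      (hg.continuousOn.mono hsub)
    have hn2 : ‖(1 / 2 : ℂ)‖ = 1 / 2 := by norm_num
    have hhalf : ∀ y ∈ ball (0 : En n) 1, (1 / 2 : ℂ) • y ∈ closedBall (0 : En n) (1 / 2) := by
      intro y hy
      rw [mem_ball_zero_iff] at hy
      rw [mem_closedBall_zero_iff, norm_smul, hn2]
      linarith
    have hb : ∀ y ∈ ball (0 : En n) 1, ‖g y‖ ≤ 2 ^ (k + 1) * M := by
      intro y hy
      have h1 := hh y hy (1 / 2) (by norm_num) (by rw [hn2]; norm_num)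
      have h2 := hM _ (hhalf y hy)
      rw [h1, norm_mul, norm_pow, hn2] at h2
      have h3 : ‖g y‖ = 2 ^ (k + 1) * ((1 / 2) ^ (k + 1) * ‖g y‖) := by
        rw [← mul_assoc, ← mul_pow]
        norm_num
      rw [h3]
      exact mul_le_mul_of_nonneg_left h2 (by positivity)
    have key : ∀ i : Fin n, ∃ ψ ∈ Pol n,
        (∀ y ∈ ball (0 : En n) 1, fderiv ℂ g y (EuclideanSpace.single i 1) = ψ y) ∧
        ∀ (y : En n) (ζ : ℂ), ψ (ζ • y) = ζ ^ k * ψ y := fun i =>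
      ih (fun y => fderiv ℂ g y (EuclideanSpace.single i 1))
        (Lib.MP_ca0fc2_an.differentiableOn_fderiv_apply isOpen_ball hg hb _)
        (fun y hy ζ h0 h1 => J_fderiv_smul hg hh hy h0 h1 _)
    choose ψ hψ1 hψ2 hψ3 using key
    refine ⟨fun y => ((k : ℂ) + 1)⁻¹ * ∑ i, inner ℂ (EuclideanSpace.single i (1 : ℂ)) y * ψ i y,
      ?_, ?_, ?_⟩
    · have h1 : (fun y : En n => ((k : ℂ) + 1)⁻¹ *
          ∑ i, inner ℂ (EuclideanSpace.single i (1 : ℂ)) y * ψ i y) =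
          ((k : ℂ) + 1)⁻¹ • ∑ i, (fun y : En n => (inner ℂ (EuclideanSpace.single i (1 : ℂ)) y : ℂ)) *
            ψ i := by
        funext y
        simp [Finset.sum_apply, Pi.smul_apply, Pi.mul_apply]
      rw [h1]
      refine Subalgebra.smul_mem _ (Subalgebra.sum_mem _ fun i _ => ?_) _
      exact Subalgebra.mul_mem _ (Algebra.subset_adjoin ⟨_, rfl⟩) (hψ1 i)
    · intro y hy
      -- Euler
      have e1 : fderiv ℂ g ((1 / 2 : ℂ) • y) y = ((k : ℂ) + 1) * (1 / 2) ^ k * g y := by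
        have hm : (1 / 2 : ℂ) • y ∈ ball (0 : En n) 1 := hsub (hhalf y hy)
        have d1 : HasFDerivAt g (fderiv ℂ g ((1 / 2 : ℂ) • y)) ((1 / 2 : ℂ) • y) :=
          (hg.differentiableAt (isOpen_ball.mem_nhds hm)).hasFDerivAt
        have d2 : HasDerivAt (fun ζ : ℂ => ζ • y) ((1 : ℂ) • y) (1 / 2) :=
          (hasDerivAt_id (1 / 2 : ℂ)).smul_const y
        have d3 := d1.comp_hasDerivAt (1 / 2 : ℂ) d2
        have d4 : HasDerivAt (fun ζ : ℂ => ζ ^ (k + 1) * g y)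
            ((((k + 1 : ℕ) : ℂ) * (1 / 2) ^ k) * g y) (1 / 2) := by
          have := (hasDerivAt_pow (k + 1) (1 / 2 : ℂ)).mul_const (g y)
          simpa using this
        have d5 : (g ∘ fun ζ : ℂ => ζ • y) =ᶠ[𝓝 (1 / 2)] fun ζ : ℂ => ζ ^ (k + 1) * g y := by
          have h5 : ball (1 / 2 : ℂ) (1 / 2) ∈ 𝓝 (1 / 2 : ℂ) := ball_mem_nhds _ (by norm_num)
          filter_upwards [h5] with ζ hζ
          rw [mem_ball, dist_eq_norm] at hζ
          have h6 : ζ ≠ 0 := by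
            intro h
            rw [h, zero_sub, norm_neg, hn2] at hζ
            exact lt_irrefl _ hζ
          have h7 : ‖ζ‖ ≤ 1 := by
            have h8 : ζ = (ζ - 1 / 2) + 1 / 2 := by ring
            rw [h8]
            refine (norm_add_le _ _).trans ?_
            rw [hn2]
            linarith
          exact hh y hy ζ h6 h7
        have d6 := (d4.congr_of_eventuallyEq d5).unique d3
        rw [one_smul] at d6
        rw [← d6]
        push_cast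
        ring
      have e2 : fderiv ℂ g ((1 / 2 : ℂ) • y) y = (1 / 2) ^ k * fderiv ℂ g y y :=
        J_fderiv_smul hg hh hy (by norm_num) (by rw [hn2]; norm_num) y
      have e3 : fderiv ℂ g y y = ((k : ℂ) + 1) * g y := by
        have h1 : ((1 / 2 : ℂ)) ^ k ≠ 0 := pow_ne_zero _ (by norm_num)
        refine mul_left_cancel₀ h1 ?_
        rw [← e2, e1]
        ring
      have e4 : y = ∑ i, y i • EuclideanSpace.single i (1 : ℂ) := by
        have := (EuclideanSpace.basisFun (Fin n) ℂ).sum_repr y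
        simpa using this.symm
      have e5 : fderiv ℂ g y y = ∑ i, y i * fderiv ℂ g y (EuclideanSpace.single i 1) := by
        conv_lhs => rw [e4, map_sum]
        have : fderiv ℂ g (∑ i, y i • EuclideanSpace.single i (1 : ℂ)) = fderiv ℂ g y := by
          rw [← e4]
        rw [this]
        simp [map_smul]
      have e6 : ((k : ℂ) + 1) ≠ 0 := by exact_mod_cast Nat.succ_ne_zero k
      have e7 : ∑ i, inner ℂ (EuclideanSpace.single i (1 : ℂ)) y * ψ i y =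
          ((k : ℂ) + 1) * g y := by
        rw [← e3, e5]
        refine Finset.sum_congr rfl fun i _ => ?_
        rw [hψ2 i y hy, EuclideanSpace.inner_single_left, map_one, one_mul]
      have e8 : ((k : ℂ) + 1)⁻¹ * ∑ i, inner ℂ (EuclideanSpace.single i (1 : ℂ)) y * ψ i y =
          g y := by
        rw [e7, ← mul_assoc, inv_mul_cancel₀ e6, one_mul]
      exact e8.symm
    · intro y ζ
      simp only [hψ3, inner_smul_right, Finset.mul_sum]
      refine Finset.sum_congr rfl fun i _ => ?_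
      ring

/-- Taylor expansion: `f (ρ y)` is a uniform limit of polynomials on the closed ball. -/
theorem pol_dense {f : En n → ℂ} (hf : DifferentiableOn ℂ f (ball 0 1)) {ρ : ℝ} (hρ : 0 < ρ)
    (hρ1 : ρ < 1) {ε : ℝ} (hε : 0 < ε) :
    ∃ ψ ∈ Pol n, ∀ y ∈ closedBall (0 : En n) 1, ‖f ((ρ : ℂ) • y) - ψ y‖ ≤ ε := by
  obtain ⟨σ, hσ, hσ1⟩ := exists_between hρ1
  have hσ0 : 0 < σ := hρ.trans hσ
  -- the homogeneous parts
  have hk : ∀ k : ℕ, ∃ ψ ∈ Pol n, (∀ y ∈ ball (0 : En n) 1, DA.hp f k y = ψ y) ∧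
      ∀ (y : En n) (ζ : ℂ), ψ (ζ • y) = ζ ^ k * ψ y := fun k =>
    J_hom k (DA.hp f k) (DA.hp_diff hf k) fun y hy ζ _ h1 => DA.hp_smul hf k hy h1
  choose ψ hψ1 hψ2 hψ3 using hk
  have hsub : closedBall (0 : En n) σ ⊆ ball (0 : En n) 1 := closedBall_subset_ball hσ1
  obtain ⟨M, hM⟩ := (isCompact_closedBall (0 : En n) σ).exists_bound_of_continuousOn
    (hf.continuousOn.mono hsub)
  have hM0 : 0 ≤ M := (norm_nonneg _).trans (hM 0 (mem_closedBall_self hσ0.le))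
  have hmem : ∀ y ∈ closedBall (0 : En n) 1, (σ : ℂ) • y ∈ closedBall (0 : En n) σ := by
    intro y hy
    rw [mem_closedBall_zero_iff] at hy ⊢
    rw [norm_smul, Complex.norm_real, Real.norm_eq_abs, abs_of_pos hσ0]
    exact mul_le_of_le_one_right hσ0.le hy
  -- bound of the parts
  have hpb : ∀ k, ∀ y ∈ closedBall (0 : En n) 1, ‖DA.hp f k ((σ : ℂ) • y)‖ ≤ M := by
    intro k y hy
    have h1 : ∀ t ∈ Set.uIoc (0 : ℝ) (2 * Real.pi),
        ‖Complex.exp (-(k * t * Complex.I)) *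
          f (Complex.exp (t * Complex.I) • ((σ : ℂ) • y))‖ ≤ M := by
      intro t _
      rw [norm_mul, DA.hom_exp_norm, one_mul]
      refine hM _ ?_
      have := hmem y hy
      rw [mem_closedBall_zero_iff] at this ⊢
      rwa [norm_smul, DA.hom_exp_norm', one_mul]
    have h2 := intervalIntegral.norm_integral_le_of_norm_le_const h1
    rw [sub_zero, abs_of_pos Real.two_pi_pos] at h2
    unfold DA.hp
    rw [norm_mul, norm_inv]
    have h3 : ‖(2 * Real.pi : ℂ)‖ = 2 * Real.pi := by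
      simp [abs_of_pos Real.pi_pos]
    rw [h3]
    have h4 : (0 : ℝ) < 2 * Real.pi := Real.two_pi_pos
    calc (2 * Real.pi)⁻¹ * ‖∫ t in (0 : ℝ)..(2 * Real.pi),
          Complex.exp (-(k * t * Complex.I)) * f (Complex.exp (t * Complex.I) • ((σ : ℂ) • y))‖
        ≤ (2 * Real.pi)⁻¹ * (M * (2 * Real.pi)) := by gcongr
      _ = M := by field_simp
  set q : ℝ := ρ / σ with hq
  have hq0 : 0 < q := div_pos hρ hσ0
  have hq1 : q < 1 := (div_lt_one hσ0).2 hσ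
  -- the number of terms
  have hlim : Tendsto (fun m : ℕ => M * (q ^ m / (1 - q))) atTop (𝓝 0) := by
    have := ((tendsto_pow_atTop_nhds_zero_of_lt_one hq0.le hq1).div_const (1 - q)).const_mul M
    simpa using this
  obtain ⟨m, hm⟩ := (hlim.eventually_le_const hε).exists
  refine ⟨∑ k ∈ Finset.range m, (((ρ : ℝ) : ℂ) ^ k) • ψ k,
    Subalgebra.sum_mem _ fun k _ => Subalgebra.smul_mem _ (hψ1 k) _, fun y hy => ?_⟩
  have hy' := hmem y hy
  have hs := DA.hp_sum hf (hsub hy') (ζ := (q : ℂ))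
    (by rw [Complex.norm_real, Real.norm_eq_abs, abs_of_pos hq0]; exact hq1.le)
  have h1 : (q : ℂ) • ((σ : ℂ) • y) = (ρ : ℂ) • y := by
    rw [smul_smul, ← Complex.ofReal_mul, hq, div_mul_cancel₀ _ hσ0.ne']
  rw [h1] at hs
  have h2 : ∀ k, (q : ℂ) ^ k * DA.hp f k ((σ : ℂ) • y) = ((ρ : ℂ) ^ k) * ψ k y := by
    intro k
    rw [hψ2 k _ (hsub hy'), hψ3, ← mul_assoc, ← mul_pow, ← Complex.ofReal_mul, hq,
      div_mul_cancel₀ _ hσ0.ne']
  have h3 : (∑ k ∈ Finset.range m, (((ρ : ℝ) : ℂ) ^ k) • ψ k) y =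
      ∑ k ∈ Finset.range m, (q : ℂ) ^ k * DA.hp f k ((σ : ℂ) • y) := by
    rw [Finset.sum_apply]
    exact Finset.sum_congr rfl fun k _ => (h2 k).symm
  have h4 : ∀ k, ‖(q : ℂ) ^ k * DA.hp f k ((σ : ℂ) • y)‖ ≤ M * q ^ k := by
    intro k
    rw [norm_mul, norm_pow, Complex.norm_real, Real.norm_eq_abs, abs_of_pos hq0, mul_comm]
    exact mul_le_mul_of_nonneg_right (hpb k y hy) (by positivity)
  have h5 : f ((ρ : ℂ) • y) - ∑ k ∈ Finset.range m, (q : ℂ) ^ k * DA.hp f k ((σ : ℂ) • y) =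
      ∑' k, (q : ℂ) ^ (k + m) * DA.hp f (k + m) ((σ : ℂ) • y) := by
    rw [← hs.tsum_eq, ← hs.summable.sum_add_tsum_nat_add m]
    ring
  rw [h3, h5]
  have hg : HasSum (fun k => M * q ^ (k + m)) (M * (q ^ m / (1 - q))) := by
    have h6 := (hasSum_geometric_of_lt_one hq0.le hq1).mul_left (M * q ^ m)
    have h7 : (fun k : ℕ => M * q ^ (k + m)) = fun k => M * q ^ m * q ^ k := by
      funext k
      rw [pow_add]
      ring
    have h8 : M * q ^ m * (1 - q)⁻¹ = M * (q ^ m / (1 - q)) := by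
      rw [div_eq_mul_inv]
      ring
    rw [h7, ← h8]
    exact h6
  exact (tsum_of_norm_bounded hg fun k => h4 (k + m)).trans hm

/-- the function `y ↦ conj (K w y)` is `f (ρ y)` for some holomorphic `f` on the ball -/
theorem K_dense {w : En n} (hw : ‖w‖ < 1) {ε : ℝ} (hε : 0 < ε) :
    ∃ ψ ∈ Pol n, ∀ y ∈ closedBall (0 : En n) 1, ‖conj (K w y) - ψ y‖ ≤ ε := by
  obtain ⟨ρ, hρ, hρ1⟩ := exists_between hw
  have hρ0 : 0 < ρ := (norm_nonneg w).trans_lt hρ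
  have hf : DifferentiableOn ℂ (fun y : En n => ((1 - (ρ : ℂ)⁻¹ * inner ℂ w y) ^ n)⁻¹)
      (ball 0 1) := by
    intro y hy
    rw [mem_ball_zero_iff] at hy
    have h1 : (1 - (ρ : ℂ)⁻¹ * inner ℂ w y) ≠ 0 := by
      intro h
      have h2 : ‖(ρ : ℂ)⁻¹ * inner ℂ w y‖ < 1 := by
        rw [norm_mul, norm_inv, Complex.norm_real, Real.norm_eq_abs, abs_of_pos hρ0]
        have h3 := norm_inner_le_norm (𝕜 := ℂ) w y
        have h4 : ‖w‖ * ‖y‖ ≤ ‖w‖ := mul_le_of_le_one_right (norm_nonneg _) hy.le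
        calc ρ⁻¹ * ‖(inner ℂ w y : ℂ)‖ ≤ ρ⁻¹ * ‖w‖ :=
              mul_le_mul_of_nonneg_left (h3.trans h4) (by positivity)
          _ < 1 := by
              rw [inv_mul_lt_iff₀ hρ0, mul_one]
              exact hρ
      rw [← sub_eq_zero.1 h, norm_one] at h2
      exact lt_irrefl _ h2
    have h2 : DifferentiableAt ℂ (fun y : En n => (inner ℂ w y : ℂ)) y :=
      (innerSL ℂ w).differentiableAt
    exact (((h2.const_mul _).const_sub 1).pow n).inv (pow_ne_zero _ h1) |>.differentiableWithinAt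
  obtain ⟨ψ, h1, h2⟩ := pol_dense hf hρ0 hρ1 hε
  refine ⟨ψ, h1, fun y hy => ?_⟩
  have h3 := h2 y hy
  have h4 : conj (K w y) = ((1 - (ρ : ℂ)⁻¹ * inner ℂ w ((ρ : ℂ) • y)) ^ n)⁻¹ := by
    have h5 : (ρ : ℂ) ≠ 0 := by exact_mod_cast hρ0.ne'
    rw [inner_smul_right, ← mul_assoc, inv_mul_cancel₀ h5, one_mul]
    unfold K
    rw [map_inv₀, map_pow, map_sub, map_one, inner_conj_symm]
  rw [h4]
  exact h3

end Pool.Agent.MPca0fc2.PD
end

section


/-! Campaign PD, row L: the norm and the equation of the limits. -/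

set_option autoImplicit false

open Metric Set MeasureTheory Filter Topology
open scoped Real ComplexConjugate

namespace Pool.Agent.MPca0fc2.PD

variable {n N : ℕ}

theorem ex_mem {r : ℕ} {τ : ℝ} (hτ : 1 < τ) (θ : Fin r → ℝ) : ex θ ∈ ball (0 : Fin r → ℂ) τ := by
  rw [mem_ball_zero_iff]
  refine lt_of_le_of_lt ?_ hτ
  exact (pi_norm_le_iff_of_nonneg zero_le_one).2 fun i => (norm_ex θ i).le

theorem cont_ex {r : ℕ} {τ : ℝ} (hτ : 1 < τ) {H : (Fin r → ℂ) → ℂ}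
    (hH : DifferentiableOn ℂ H (ball 0 τ)) : Continuous fun θ : Fin r → ℝ => H (ex θ) := by
  rw [continuous_iff_continuousAt]
  intro θ
  have h1 : ContinuousAt H (ex θ) := hH.continuousOn.continuousAt (isOpen_ball.mem_nhds (ex_mem hτ θ))
  exact ContinuousAt.comp (f := fun θ : Fin r → ℝ => ex θ) h1 continuous_ex.continuousAt

theorem cont_Γ {r : ℕ} {Γ : (Fin r → ℂ) → En n} (hd : Differentiable ℂ Γ) :
    Continuous fun θ : Fin r → ℝ => Γ (ex θ) := hd.continuous.comp continuous_ex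

theorem comp_le {h : Fin N → ℂ} {A : ℝ} (hA : 0 ≤ A) (h2 : ∑ j, ‖h j‖ ^ 2 ≤ A ^ 2) (j : Fin N) :
    ‖h j‖ ≤ A := by
  refine le_of_sq_le_sq ?_ hA
  exact (Finset.single_le_sum (f := fun j => ‖h j‖ ^ 2) (fun _ _ => sq_nonneg _) (Finset.mem_univ j)).trans h2

theorem M_ofReal (r : ℕ) (F : (Fin r → ℝ) → ℝ) : M r (fun θ => ((F θ : ℝ) : ℂ)) = ((M r F : ℝ) : ℂ) := by
  induction r with
  | zero => rfl
  | succ r ih =>
    show (2 * π)⁻¹ • (∫ s in (0 : ℝ)..2 * π, M r fun θ => ((F (Fin.cons s θ) : ℝ) : ℂ)) =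
      (((2 * π)⁻¹ • (∫ s in (0 : ℝ)..2 * π, M r fun θ => F (Fin.cons s θ)) : ℝ) : ℂ)
    have h1 : (∫ s in (0 : ℝ)..2 * π, M r fun θ => ((F (Fin.cons s θ) : ℝ) : ℂ)) =
        ((∫ s in (0 : ℝ)..2 * π, M r fun θ => F (Fin.cons s θ) : ℝ) : ℂ) := by
      rw [← intervalIntegral.integral_ofReal]
      refine intervalIntegral.integral_congr fun s _ => ?_
      exact ih _
    rw [h1, Complex.real_smul, smul_eq_mul, Complex.ofReal_mul]

theorem sum_mul_norm_le (a b : Fin N → ℂ) :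
    ‖∑ j, a j * b j‖ ≤ √(∑ j, ‖a j‖ ^ 2) * √(∑ j, ‖b j‖ ^ 2) := by
  refine (norm_sum_le _ _).trans ?_
  simp only [norm_mul]
  exact Real.sum_mul_le_sqrt_mul_sqrt _ _ _

/-- the norm of the limits -/
theorem L_norm (hn : 2 ≤ n) {r : ℕ → ℕ} {Γ : ∀ R, (Fin (r R) → ℂ) → En n} (hΓ : Good n r Γ)
    {A : ℝ} (hA : 0 ≤ A) {τ : ℕ → ℝ} {h : ∀ R, Fin N → (Fin (r R) → ℂ) → ℂ} (hτ : ∀ R, 1 < τ R)
    (hd : ∀ R j, DifferentiableOn ℂ (h R j) (ball 0 (τ R)))
    (hb : ∀ R θ, ∑ j, ‖h R j (ex θ)‖ ^ 2 ≤ A ^ 2) {w : En n} (hw : ‖w‖ < 1)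
    {𝒰 : Filter ℕ} [𝒰.NeBot] (h𝒰 : 𝒰 ≤ atTop) {g : Fin N → ℂ}
    (hg : ∀ j, Tendsto (fun R => M (r R) fun θ => h R j (ex θ) * K w (Γ R (ex θ))) 𝒰 (𝓝 (g j))) :
    ∑ j, ‖g j‖ ^ 2 ≤ A ^ 2 := by
  have hΓle : ∀ R (θ : Fin (r R) → ℝ), ‖Γ R (ex θ)‖ ≤ 1 := fun R θ => (hΓ.eq R θ).le
  have hKc : ∀ R, Continuous fun θ : Fin (r R) → ℝ => K w (Γ R (ex θ)) := fun R =>
    K_cont hw (cont_Γ (hΓ.diff R)) (hΓle R)
  have hφc : ContinuousOn (fun y : En n => conj (K w y)) (closedBall 0 1) := by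
    refine Complex.continuous_conj.comp_continuousOn ?_
    unfold K
    refine ContinuousOn.inv₀ (by fun_prop) fun y hy => ?_
    exact pow_ne_zero n (one_sub_ne hw (mem_closedBall_zero_iff.1 hy))
  have hφa : ∀ ε > 0, ∃ ψ ∈ Pol n, ∀ y ∈ closedBall (0 : En n) 1, ‖conj (K w y) - ψ y‖ ≤ ε :=
    fun ε hε => K_dense hw hε
  -- `H = 1`
  have e1 := mod_lim hn hΓ hφc hφa (H := fun R _ => 1) (ρ := fun _ => 2) (A := 1) (fun _ => one_lt_two)
    (fun R => differentiableOn_const 1) (fun R θ => by simp) hw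
  have e2 : ∀ R, M (r R) (fun θ => (1 : ℂ) * K w (Γ R (ex θ))) = 1 := by
    intro R
    simp only [one_mul]
    exact M_K_one (hΓ.diff R) (hΓ.le R) (hΓ.zero R) hw
  simp only [e2, mul_one] at e1
  have e3 : Tendsto (fun R => M (r R) (fun θ => (1 : ℂ) * conj (K w (Γ R (ex θ))) * K w (Γ R (ex θ)))) atTop
      (𝓝 (conj (K w w))) := by
    have := e1.add_const (conj (K w w))
    simpa using this
  have e4 : ∀ R, M (r R) (fun θ => (1 : ℂ) * conj (K w (Γ R (ex θ))) * K w (Γ R (ex θ))) =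
      ((M (r R) (fun θ => ‖K w (Γ R (ex θ))‖ ^ 2) : ℝ) : ℂ) := by
    intro R
    rw [← M_ofReal]
    congr 1
    funext θ
    rw [one_mul, Complex.conj_mul', Complex.ofReal_pow]
  have e6 : Tendsto (fun R => M (r R) (fun θ => ‖K w (Γ R (ex θ))‖ ^ 2)) atTop (𝓝 ‖K w w‖) := by
    simp only [e4] at e3
    have h1 := e3.norm
    rw [RCLike.norm_conj] at h1
    refine h1.congr fun R => ?_
    rw [Complex.norm_real, Real.norm_of_nonneg]
    exact M_nonneg fun θ => sq_nonneg _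
  -- the limits for `h`
  have e5 : ∀ j, Tendsto (fun R => M (r R) (fun θ => h R j (ex θ) * conj (K w (Γ R (ex θ))) *
      K w (Γ R (ex θ)))) 𝒰 (𝓝 (conj (K w w) * g j)) := by
    intro j
    have := mod_lim hn hΓ hφc hφa (H := fun R => h R j) hτ (fun R => hd R j)
      (fun R θ => comp_le hA (hb R θ) j) hw
    have h2 := (this.mono_left h𝒰).add ((hg j).const_mul (conj (K w w)))
    simpa using h2
  have hcont : ∀ R j, Continuous fun θ : Fin (r R) → ℝ =>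
      h R j (ex θ) * conj (K w (Γ R (ex θ))) * K w (Γ R (ex θ)) := fun R j =>
    ((cont_ex (hτ R) (hd R j)).mul (Complex.continuous_conj.comp (hKc R))).mul (hKc R)
  have key : ∀ R, ‖∑ j, conj (g j) * M (r R) (fun θ => h R j (ex θ) * conj (K w (Γ R (ex θ))) *
      K w (Γ R (ex θ)))‖ ≤ √(∑ j, ‖g j‖ ^ 2) * A * M (r R) (fun θ => ‖K w (Γ R (ex θ))‖ ^ 2) := by
    intro R
    have h1 : ∑ j, conj (g j) * M (r R) (fun θ => h R j (ex θ) * conj (K w (Γ R (ex θ))) *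
        K w (Γ R (ex θ))) = M (r R) (fun θ => ∑ j, conj (g j) * (h R j (ex θ) *
        conj (K w (Γ R (ex θ))) * K w (Γ R (ex θ)))) := by
      rw [M_sum Finset.univ (F := fun j θ => conj (g j) * (h R j (ex θ) *
        conj (K w (Γ R (ex θ))) * K w (Γ R (ex θ)))) (fun j _ => continuous_const.mul (hcont R j))]
      refine Finset.sum_congr rfl fun j _ => ?_
      rw [M_mul_left]
    have h2 : Continuous fun θ : Fin (r R) → ℝ => ∑ j, conj (g j) * (h R j (ex θ) *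
        conj (K w (Γ R (ex θ))) * K w (Γ R (ex θ))) :=
      continuous_finsetSum _ fun j _ => continuous_const.mul (hcont R j)
    rw [h1, ← M_mul_left']
    refine (norm_M_le h2).trans (M_mono h2.norm (continuous_const.mul ((hKc R).norm.pow 2)) fun θ => ?_)
    have h3 : ∑ j, conj (g j) * (h R j (ex θ) * conj (K w (Γ R (ex θ))) * K w (Γ R (ex θ))) =
        (∑ j, conj (g j) * h R j (ex θ)) * (conj (K w (Γ R (ex θ))) * K w (Γ R (ex θ))) := by
      rw [Finset.sum_mul]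
      refine Finset.sum_congr rfl fun j _ => ?_
      ring
    rw [h3, norm_mul, norm_mul, RCLike.norm_conj, ← sq]
    refine mul_le_mul_of_nonneg_right ?_ (sq_nonneg _)
    refine (sum_mul_norm_le _ _).trans ?_
    simp only [RCLike.norm_conj]
    refine mul_le_mul_of_nonneg_left ?_ (Real.sqrt_nonneg _)
    rw [Real.sqrt_le_left hA]
    exact hb R θ
  have lim1 : Tendsto (fun R => ‖∑ j, conj (g j) * M (r R) (fun θ => h R j (ex θ) *
      conj (K w (Γ R (ex θ))) * K w (Γ R (ex θ)))‖) 𝒰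
      (𝓝 ‖∑ j, conj (g j) * (conj (K w w) * g j)‖) :=
    (tendsto_finsetSum _ fun j _ => (e5 j).const_mul (conj (g j))).norm
  have lim2 := (e6.mono_left h𝒰).const_mul (√(∑ j, ‖g j‖ ^ 2) * A)
  have h4 := le_of_tendsto_of_tendsto' lim1 lim2 key
  have h5 : ∑ j, conj (g j) * (conj (K w w) * g j) = conj (K w w) * ((∑ j, ‖g j‖ ^ 2 : ℝ) : ℂ) := by
    rw [Complex.ofReal_sum, Finset.mul_sum]
    refine Finset.sum_congr rfl fun j _ => ?_
    rw [mul_left_comm, Complex.conj_mul', Complex.ofReal_pow]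
  have hS : 0 ≤ ∑ j, ‖g j‖ ^ 2 := Finset.sum_nonneg fun j _ => sq_nonneg _
  rw [h5, norm_mul, RCLike.norm_conj, Complex.norm_real, Real.norm_of_nonneg hS] at h4
  have hK0 : 0 < ‖K w w‖ := by
    rw [norm_pos_iff]
    exact inv_ne_zero (pow_ne_zero n (one_sub_ne hw hw.le))
  have h6 : ∑ j, ‖g j‖ ^ 2 ≤ √(∑ j, ‖g j‖ ^ 2) * A := by
    have h7 : ‖K w w‖ * (∑ j, ‖g j‖ ^ 2) ≤ ‖K w w‖ * (√(∑ j, ‖g j‖ ^ 2) * A) := by
      linarith
    exact le_of_mul_le_mul_left h7 hK0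
  have h8 : √(∑ j, ‖g j‖ ^ 2) ≤ A := by
    rcases (Real.sqrt_nonneg (∑ j, ‖g j‖ ^ 2)).eq_or_lt with h9 | h9
    · rw [← h9]
      exact hA
    · have h10 : √(∑ j, ‖g j‖ ^ 2) * √(∑ j, ‖g j‖ ^ 2) ≤ √(∑ j, ‖g j‖ ^ 2) * A := by
        rw [Real.mul_self_sqrt hS]
        exact h6
      exact le_of_mul_le_mul_left h10 h9
  calc ∑ j, ‖g j‖ ^ 2 = √(∑ j, ‖g j‖ ^ 2) ^ 2 := (Real.sq_sqrt hS).symm
    _ ≤ A ^ 2 := by gcongr

/-- the equation of the limits -/
theorem L_eqn (hn : 2 ≤ n) {r : ℕ → ℕ} {Γ : ∀ R, (Fin (r R) → ℂ) → En n} (hΓ : Good n r Γ)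
    {f : Fin N → En n → ℂ} (hf : ∀ j, DifferentiableOn ℂ (f j) (ball 0 1))
    {A : ℝ} (hA : 0 ≤ A) {ρ : ℝ} (hρ : 0 < ρ) (hρ1 : ρ < 1) {τ : ℕ → ℝ}
    {h : ∀ R, Fin N → (Fin (r R) → ℂ) → ℂ} (hτ : ∀ R, 1 < τ R)
    (hd : ∀ R j, DifferentiableOn ℂ (h R j) (ball 0 (τ R)))
    (hb : ∀ R θ, ∑ j, ‖h R j (ex θ)‖ ^ 2 ≤ A ^ 2)
    (he : ∀ R θ, ∑ j, f j ((ρ : ℂ) • Γ R (ex θ)) * h R j (ex θ) = 1) {w : En n} (hw : ‖w‖ < 1)
    {𝒰 : Filter ℕ} [𝒰.NeBot] (h𝒰 : 𝒰 ≤ atTop) {g : Fin N → ℂ}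
    (hg : ∀ j, Tendsto (fun R => M (r R) fun θ => h R j (ex θ) * K w (Γ R (ex θ))) 𝒰 (𝓝 (g j))) :
    ∑ j, f j ((ρ : ℂ) • w) * g j = 1 := by
  have hΓle : ∀ R (θ : Fin (r R) → ℝ), ‖Γ R (ex θ)‖ ≤ 1 := fun R θ => (hΓ.eq R θ).le
  have hKc : ∀ R, Continuous fun θ : Fin (r R) → ℝ => K w (Γ R (ex θ)) := fun R =>
    K_cont hw (cont_Γ (hΓ.diff R)) (hΓle R)
  have hφc : ∀ j, ContinuousOn (fun y : En n => f j ((ρ : ℂ) • y)) (closedBall 0 1) := by
    intro j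
    refine (hf j).continuousOn.comp (by fun_prop) fun y hy => ?_
    rw [mem_ball_zero_iff, norm_smul, Complex.norm_real, Real.norm_of_nonneg hρ.le]
    have := mem_closedBall_zero_iff.1 hy
    nlinarith [norm_nonneg y]
  have hfc : ∀ R j, Continuous fun θ : Fin (r R) → ℝ => f j ((ρ : ℂ) • Γ R (ex θ)) := by
    intro R j
    exact ContinuousOn.comp_continuous (g := fun y : En n => f j ((ρ : ℂ) • y)) (hφc j)
      (cont_Γ (hΓ.diff R)) fun θ => mem_closedBall_zero_iff.2 (hΓle R θ)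
  have e1 : ∀ j, Tendsto (fun R => M (r R) (fun θ => h R j (ex θ) * f j ((ρ : ℂ) • Γ R (ex θ)) *
      K w (Γ R (ex θ)))) 𝒰 (𝓝 (f j ((ρ : ℂ) • w) * g j)) := by
    intro j
    have := mod_lim hn hΓ (hφc j) (fun ε hε => pol_dense (hf j) hρ hρ1 hε) (H := fun R => h R j) hτ
      (fun R => hd R j) (fun R θ => comp_le hA (hb R θ) j) hw
    have h2 := (this.mono_left h𝒰).add ((hg j).const_mul (f j ((ρ : ℂ) • w)))
    simpa using h2
  have e2 : ∀ R, ∑ j, M (r R) (fun θ => h R j (ex θ) * f j ((ρ : ℂ) • Γ R (ex θ)) *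
      K w (Γ R (ex θ))) = 1 := by
    intro R
    rw [← M_sum Finset.univ (F := fun j θ => h R j (ex θ) * f j ((ρ : ℂ) • Γ R (ex θ)) *
      K w (Γ R (ex θ))) (fun j _ => ((cont_ex (hτ R) (hd R j)).mul (hfc R j)).mul (hKc R))]
    refine Eq.trans ?_ (M_K_one (hΓ.diff R) (hΓ.le R) (hΓ.zero R) hw)
    congr 1
    funext θ
    rw [← Finset.sum_mul]
    have h1 : ∑ j, h R j (ex θ) * f j ((ρ : ℂ) • Γ R (ex θ)) = 1 := by
      rw [← he R θ]
      exact Finset.sum_congr rfl fun j _ => mul_comm _ _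
    rw [h1, one_mul]
  have e3 := tendsto_finsetSum (Finset.univ : Finset (Fin N)) fun j _ => e1 j
  simp only [e2] at e3
  exact (tendsto_nhds_unique e3 tendsto_const_nhds)

end Pool.Agent.MPca0fc2.PD
end
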