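import Pool.Agent.Lib.MP_ca0fc2_an.Mg.G099
import Pool.Agent.Lib.MP_ca0fc2_an.Mg.G102
import Pool.Agent.Lib.MP_ca0fc2_an.Mg.G101
import Pool.Agent.Lib.MP_ca0fc2_an.Mg.G106
import Pool.Agent.Lib.MP_ca0fc2_an.Mg.G107
import Pool.Agent.Lib.MP_ca0fc2_an.Mg.G080

section

/-! Campaign DS, row 7: Bohr's theorem, backward. -/

set_option autoImplicit false

open Metric Set Filter Topology
open scoped ZeroAtInfty

namespace Pool.Agent.MPca0fc2.DS

open Pool.Agent.MPca0fc2.FP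

/-- the first `m` coordinates, as a continuous linear map -/
noncomputable def proj (m : ℕ) : c0 →L[ℂ] (Fin m → ℂ) :=
  LinearMap.mkContinuous
    { toFun := fun x i => x (i : ℕ)
      map_add' := fun x y => by
        funext i
        simp
      map_smul' := fun c x => by
        funext i
        simp } 1 (fun x => by
      rw [one_mul]
      refine (pi_norm_le_iff_of_nonneg (norm_nonneg x)).2 fun i => ?_
      exact coord_le x i)

theorem proj_apply (m : ℕ) (x : c0) (i : Fin m) : proj m x i = x (i : ℕ) := rfl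

theorem proj_mem (m : ℕ) {x : c0} (hx : x ∈ ball (0 : c0) 1) : proj m x ∈ ball (0 : Fin m → ℂ) 1 := by
  rw [mem_ball_zero_iff] at hx ⊢
  refine lt_of_le_of_lt ?_ hx
  refine (pi_norm_le_iff_of_nonneg (norm_nonneg x)).2 fun i => ?_
  exact coord_le x i

/-- the right half plane is convex -/
theorem convex_RHP : Convex ℝ RHP := convex_halfSpace_re_gt 0

/-- two holomorphic functions on the right half plane which agree far to the right are equal -/
theorem eq_of_eq_right {F₁ F₂ : ℂ → ℂ} (h₁ : DifferentiableOn ℂ F₁ RHP) (h₂ : DifferentiableOn ℂ F₂ RHP) {σ : ℝ}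
    (h : ∀ s : ℂ, σ < s.re → 0 < s.re → F₁ s = F₂ s) : ∀ s ∈ RHP, F₁ s = F₂ s := by
  have a1 : AnalyticOnNhd ℂ F₁ RHP := h₁.analyticOnNhd isOpen_RHP
  have a2 : AnalyticOnNhd ℂ F₂ RHP := h₂.analyticOnNhd isOpen_RHP
  set s₀ : ℂ := ((max σ 0 + 1 : ℝ) : ℂ) with hs₀
  have hre : s₀.re = max σ 0 + 1 := by rw [hs₀, Complex.ofReal_re]
  have h0 : s₀ ∈ RHP := by
    change 0 < s₀.re
    rw [hre]
    have := le_max_right σ 0
    linarith
  have hev : F₁ =ᶠ[𝓝 s₀] F₂ := by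
    have hopen : IsOpen {s : ℂ | max σ 0 < s.re} := isOpen_lt continuous_const Complex.continuous_re
    have hmem : s₀ ∈ {s : ℂ | max σ 0 < s.re} := by
      change max σ 0 < s₀.re
      rw [hre]
      linarith
    filter_upwards [hopen.mem_nhds hmem] with s hs
    exact h s ((le_max_left _ _).trans_lt hs) ((le_max_right _ _).trans_lt hs)
  exact fun s hs => a1.eqOn_of_preconnected_of_eventuallyEq a2 convex_RHP.isPreconnected h0 hev hs

/-- `H` = ultralimit of `x ↦ ∑_α a (nu α) mon (x_0, .., x_(m-1)) α`; identity theorem on the right half plane -/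
theorem bohr_backward {F : ℂ → ℂ} {A : ℝ} (hF : DifferentiableOn ℂ F RHP) (hA : ∀ s ∈ RHP, ‖F s‖ ≤ A)
    {a : ℕ → ℂ} {σ : ℝ} (ha : ∀ s : ℂ, σ < s.re → LSeriesHasSum a s (F s)) :
    ∃ H : c0 → ℂ, DifferentiableOn ℂ H (ball 0 1) ∧ (∀ x ∈ ball (0 : c0) 1, ‖H x‖ ≤ A) ∧
      ∀ s ∈ RHP, F s = H (pt s) := by
  have hcoef : ∀ n, n ≠ 0 → ‖a n‖ ≤ A := fun n hn => coef_bound hF hA ha hn
  have hcα : ∀ (m : ℕ) (α : Fin m → ℕ), ‖a (nu α)‖ ≤ A := fun m α => hcoef _ (nu_pos α).ne'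
  set Hm : ℕ → c0 → ℂ := fun m x => ∑' α : Fin m → ℕ, a (nu α) * mon (proj m x) α with hHm
  have hd : ∀ m, DifferentiableOn ℂ (Hm m) (ball 0 1) := by
    intro m
    have h1 := expansion_diff (m := m) (c := fun α => a (nu α)) (hcα m)
    exact h1.comp (proj m).differentiable.differentiableOn fun x hx => proj_mem m hx
  have hb : ∀ m, ∀ x ∈ ball (0 : c0) 1, ‖Hm m x‖ ≤ A := fun m x hx =>
    section_bound hF hA ha (proj_mem m hx)
  obtain ⟨H, h1, h2, h3⟩ := ultra_holo_banach (Ultrafilter.of (atTop : Filter ℕ)) hd hb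
  refine ⟨H, h1, h2, ?_⟩
  have hcomp : DifferentiableOn ℂ (fun s => H (pt s)) RHP := h1.comp pt_diff fun s hs => pt_mem hs
  refine eq_of_eq_right hF hcomp (σ := max σ 1) fun s hs hs0 => ?_
  have hs1 : 1 < s.re := (le_max_right _ _).trans_lt hs
  have hsσ : σ < s.re := (le_max_left _ _).trans_lt hs
  have hsR : s ∈ RHP := hs0
  have h4 : Tendsto (fun m => Hm m (pt s)) (Ultrafilter.of (atTop : Filter ℕ)) (𝓝 (LSeries a s)) := by
    have h5 := (smooth_tendsto hcoef hs1).mono_left (Ultrafilter.of_le (f := (atTop : Filter ℕ)))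
    refine h5.congr fun m => ?_
    have h6 : proj m (pt s) = fun i : Fin m => (pr i : ℂ) ^ (-s) := by
      funext i
      rw [proj_apply, pt_apply hsR]
    simp only [hHm, h6]
  have h7 := tendsto_nhds_unique h4 (h3 _ (pt_mem hsR))
  rw [← h7]
  exact ((ha s hsσ).LSeries_eq).symm

end Pool.Agent.MPca0fc2.DS
end

section

/-! Campaign DS, row 8: Bohr's theorem, forward, and uniqueness. -/

set_option autoImplicit false

open Metric Set Filter Topology
open scoped ZeroAtInfty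

namespace Pool.Agent.MPca0fc2.DS

open Pool.Agent.MPca0fc2.FP

/-- the sections of a holomorphic function converge -/
theorem tendsto_sections {H : c0 → ℂ} (hH : DifferentiableOn ℂ H (ball 0 1)) {x : c0} (hx : x ∈ ball (0 : c0) 1) :
    Tendsto (fun m => H (inc m (proj m x))) atTop (𝓝 (H x)) := by
  have h1 : ContinuousAt H x := ((hH x hx).differentiableAt (isOpen_ball.mem_nhds hx)).continuousAt
  exact h1.tendsto.comp (inc_tendsto x)

/-- the coefficients of a bounded holomorphic function on the ball of `c₀` are the coefficients of the Dirichlet series -/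
theorem forward_aux {H : c0 → ℂ} {A : ℝ} (hH : DifferentiableOn ℂ H (ball 0 1)) {a : ℕ → ℂ} (ha : ∀ n, ‖a n‖ ≤ A)
    (hsum : ∀ (m : ℕ) (z : Fin m → ℂ), z ∈ ball (0 : Fin m → ℂ) 1 →
      HasSum (fun α => a (nu α) * mon z α) (H (inc m z))) {s : ℂ} (hs : 1 < s.re) :
    LSeriesHasSum a s (H (pt s)) := by
  have hsR : s ∈ RHP := by
    change 0 < s.re
    linarith
  have hsm : LSeriesSummable a s := LSeriesSummable_of_bounded_of_one_lt_re (fun n _ => ha n) hs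
  have h1 := tendsto_sections hH (pt_mem hsR)
  have h2 := smooth_tendsto (a := a) (A := A) (fun n _ => ha n) hs
  have h3 : (fun m : ℕ => ∑' α : Fin m → ℕ, a (nu α) * mon (fun i : Fin m => (pr i : ℂ) ^ (-s)) α) =
      fun m => H (inc m (proj m (pt s))) := by
    funext m
    rw [← (hsum m _ (proj_mem m (pt_mem hsR))).tsum_eq]
    have h6 : proj m (pt s) = fun i : Fin m => (pr i : ℂ) ^ (-s) := by
      funext i
      rw [proj_apply, pt_apply hsR]
    rw [h6]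
  rw [h3] at h2
  have h4 := tendsto_nhds_unique h2 h1
  rw [← h4]
  exact hsm.LSeriesHasSum

theorem bohr_forward {H : c0 → ℂ} {A : ℝ} (hH : DifferentiableOn ℂ H (ball 0 1))
    (hA : ∀ x ∈ ball (0 : c0) 1, ‖H x‖ ≤ A) :
    ∃ a : ℕ → ℂ, ∀ s : ℂ, 1 < s.re → LSeriesHasSum a s (H (pt s)) := by
  obtain ⟨a, ha, hsum⟩ := exists_coef hH hA
  exact ⟨a, fun s hs => forward_aux hH ha hsum hs⟩

theorem bohr_unique {H : c0 → ℂ} {A : ℝ} (hH : DifferentiableOn ℂ H (ball 0 1))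
    (hA : ∀ x ∈ ball (0 : c0) 1, ‖H x‖ ≤ A) (h0 : ∀ s ∈ RHP, H (pt s) = 0) :
    ∀ x ∈ ball (0 : c0) 1, H x = 0 := by
  obtain ⟨a, ha, hsum⟩ := exists_coef hH hA
  have h1 : (fun x : ℝ => LSeries a x) =ᶠ[atTop] 0 := by
    filter_upwards [eventually_gt_atTop (1 : ℝ)] with x hx
    have hx' : 1 < (x : ℂ).re := by simpa using hx
    have h2 := (forward_aux hH ha hsum hx').LSeries_eq
    rw [h2, h0 _ (by change 0 < (x : ℂ).re; linarith)]
    rfl
  have habs : LSeries.abscissaOfAbsConv a ≠ ⊤ := by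
    have h3 : LSeriesSummable a (2 : ℂ) :=
      LSeriesSummable_of_bounded_of_one_lt_re (fun n _ => ha n) (by norm_num)
    have h4 := h3.abscissaOfAbsConv_le
    exact (h4.trans_lt (EReal.coe_lt_top _)).ne
  have h5 : ∀ n ≠ 0, a n = 0 := (LSeries_eventually_eq_zero_iff'.1 h1).resolve_right habs
  intro x hx
  have h6 : ∀ m, H (inc m (proj m x)) = 0 := by
    intro m
    rw [← (hsum m _ (proj_mem m hx)).tsum_eq]
    have h7 : (fun α : Fin m → ℕ => a (nu α) * mon (proj m x) α) = fun _ => 0 := by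
      funext α
      rw [h5 _ (nu_pos α).ne', zero_mul]
    rw [h7, tsum_zero]
  have h8 := tendsto_sections hH hx
  simp only [h6] at h8
  exact (tendsto_nhds_unique h8 tendsto_const_nhds)

end Pool.Agent.MPca0fc2.DS
end

section

/-! Campaign PD: the polydisc test with a fixed sequence of maps. -/

set_option autoImplicit false

open Metric Set MeasureTheory Filter Topology
open scoped Real ComplexConjugate

namespace Pool.Agent.MPca0fc2.PD

variable {n N : ℕ}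

/-- the test maps -/
noncomputable def GG {r : ℕ} (ρ τ : ℝ) (Γ : (Fin r → ℂ) → En n) : (Fin (r + 1) → ℂ) → En n :=
  fun t => (t 0 * (ρ : ℂ)) • Γ ((τ : ℂ) • Fin.tail t)

theorem GG_affine {r : ℕ} (ρ τ : ℝ) {Γ : (Fin r → ℂ) → En n} (hΓ : MultiAffine Γ) :
    MultiAffine (GG ρ τ Γ) := by
  intro l t
  refine Fin.cases ?_ (fun l => ?_) l
  · refine ⟨0, (ρ : ℂ) • Γ ((τ : ℂ) • Fin.tail t), fun s => ?_⟩
    simp only [GG, Function.update_self, Fin.tail_update_zero, mul_smul, zero_add]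
  · obtain ⟨a, b, h⟩ := hΓ l ((τ : ℂ) • Fin.tail t)
    refine ⟨(t 0 * (ρ : ℂ)) • a, (t 0 * (ρ : ℂ) * τ) • b, fun s => ?_⟩
    have h1 : (τ : ℂ) • Fin.tail (Function.update t l.succ s) =
        Function.update ((τ : ℂ) • Fin.tail t) l ((τ : ℂ) * s) := by
      rw [Fin.tail_update_succ]
      funext i
      by_cases hi : i = l
      · subst hi
        simp
      · simp [Function.update_of_ne hi]
    simp only [GG]
    rw [h1, h, Function.update_of_ne (Fin.succ_ne_zero l).symm, smul_add, smul_smul, smul_smul]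
    congr 2
    ring

theorem GG_diff {r : ℕ} (ρ τ : ℝ) {Γ : (Fin r → ℂ) → En n} (hΓ : Differentiable ℂ Γ) :
    Differentiable ℂ (GG ρ τ Γ) := by
  have h0 : Differentiable ℂ fun t : Fin (r + 1) → ℂ => (Fin.tail t : Fin r → ℂ) :=
    differentiable_pi.2 fun i => differentiable_apply i.succ
  have h1 : Differentiable ℂ fun t : Fin (r + 1) → ℂ => (τ : ℂ) • (Fin.tail t : Fin r → ℂ) :=
    h0.const_smul (τ : ℂ)
  have h2 : Differentiable ℂ fun t : Fin (r + 1) → ℂ => t 0 * (ρ : ℂ) :=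
    (differentiable_apply 0).mul_const _
  exact h2.smul (hΓ.comp h1)

theorem GG_mem {r : ℕ} {ρ τ : ℝ} (hτ : 0 < τ) {Γ : (Fin r → ℂ) → En n}
    (h : ∀ t ∈ ball (0 : Fin r → ℂ) τ, ‖(ρ : ℂ) • Γ t‖ < 1) {t : Fin (r + 1) → ℂ}
    (ht : t ∈ ball (0 : Fin (r + 1) → ℂ) 1) : GG ρ τ Γ t ∈ ball (0 : En n) 1 := by
  rw [mem_ball_zero_iff] at ht ⊢
  have h0 : ‖t 0‖ < 1 := (norm_le_pi_norm t 0).trans_lt ht
  have h1 : (τ : ℂ) • Fin.tail t ∈ ball (0 : Fin r → ℂ) τ := by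
    rw [mem_ball_zero_iff, norm_smul, Complex.norm_real, Real.norm_of_nonneg hτ.le]
    have h2 : ‖Fin.tail t‖ < 1 := (pi_norm_lt_iff one_pos).2 fun i =>
      (norm_le_pi_norm t i.succ).trans_lt ht
    nlinarith
  have h3 := h _ h1
  rw [GG, mul_smul, norm_smul]
  calc ‖t 0‖ * ‖(ρ : ℂ) • Γ ((τ : ℂ) • Fin.tail t)‖ ≤ ‖t 0‖ * 1 := by gcongr
    _ < 1 := by linarith

/-- a solution for the test map gives one for the dilations -/
theorem fam_data {f : Fin N → En n → ℂ} {A ρ ρk τ : ℝ} (hρ : 0 < ρ) (hk : ρ < ρk) (hτ : 1 < τ) {r : ℕ}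
    {Γ : (Fin r → ℂ) → En n} (H : PSolv (fun j t => f j (GG ρk τ Γ t)) A) :
    ∃ h : Fin N → (Fin r → ℂ) → ℂ, (∀ j, DifferentiableOn ℂ (h j) (ball 0 τ)) ∧
      (∀ θ, ∑ j, ‖h j (ex θ)‖ ^ 2 ≤ A ^ 2) ∧ ∀ θ, ∑ j, f j ((ρ : ℂ) • Γ (ex θ)) * h j (ex θ) = 1 := by
  obtain ⟨h0, hh1, hh2⟩ := H
  have hρk : 0 < ρk := hρ.trans hk
  have hτ0 : 0 < τ := one_pos.trans hτ
  have hτc : (τ : ℂ) ≠ 0 := Complex.ofReal_ne_zero.2 hτ0.ne'
  have hρc : (ρk : ℂ) ≠ 0 := Complex.ofReal_ne_zero.2 hρk.ne'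
  let c : (Fin r → ℂ) → Fin (r + 1) → ℂ := fun t => Fin.cons ((ρ : ℂ) / ρk) ((τ : ℂ)⁻¹ • t)
  have hc : ∀ t ∈ ball (0 : Fin r → ℂ) τ, c t ∈ ball (0 : Fin (r + 1) → ℂ) 1 := by
    intro t ht
    rw [mem_ball_zero_iff] at ht ⊢
    refine (pi_norm_lt_iff one_pos).2 fun i => ?_
    refine Fin.cases ?_ (fun i => ?_) i
    · simp only [c, Fin.cons_zero]
      rw [norm_div, Complex.norm_real, Complex.norm_real, Real.norm_of_nonneg hρ.le,
        Real.norm_of_nonneg hρk.le, div_lt_one hρk]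
      exact hk
    · simp only [c, Fin.cons_succ, Pi.smul_apply, smul_eq_mul]
      rw [norm_mul, norm_inv, Complex.norm_real, Real.norm_of_nonneg hτ0.le, inv_mul_lt_iff₀ hτ0, mul_one]
      exact (norm_le_pi_norm t i).trans_lt ht
  have hcd : Differentiable ℂ c := by
    refine differentiable_pi.2 fun i => ?_
    refine Fin.cases ?_ (fun i => ?_) i
    · simp only [c, Fin.cons_zero]
      exact differentiable_const _
    · simp only [c, Fin.cons_succ, Pi.smul_apply, smul_eq_mul]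
      exact (differentiable_apply i).const_mul _
  have hcG : ∀ t, GG ρk τ Γ (c t) = (ρ : ℂ) • Γ t := by
    intro t
    simp only [GG, c, Fin.cons_zero, Fin.tail_cons, smul_smul, mul_inv_cancel₀ hτc, one_smul,
      div_mul_cancel₀ _ hρc]
  refine ⟨fun j t => h0 j (c t), fun j => (hh1 j).comp hcd.differentiableOn hc,
    fun θ => (hh2 _ (hc _ (ex_mem hτ θ))).2, fun θ => ?_⟩
  have h1 := (hh2 _ (hc _ (ex_mem hτ θ))).1
  simp only [hcG] at h1
  exact h1

/-- one dilation -/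
theorem fam_ball (hn : 2 ≤ n) {r : ℕ → ℕ} {Γ : ∀ R, (Fin (r R) → ℂ) → En n} (hΓ : Good n r Γ)
    {f : Fin N → En n → ℂ} (hf : ∀ j, DifferentiableOn ℂ (f j) (ball 0 1))
    {A : ℝ} (hA : 0 ≤ A) {ρ s : ℝ} (hρ : 0 < ρ) (hρ1 : ρ < 1) (hs1 : s < 1) {ρk τ : ℕ → ℝ}
    (hk : ∀ R, ρ < ρk R) (hτ : ∀ R, 1 < τ R)
    (H : ∀ R, PSolv (fun j t => f j (GG (ρk R) (τ R) (Γ R) t)) A) :
    TB.Solv (fun z => WithLp.toLp 2 fun j => f j ((ρ : ℂ) • z)) (ball (0 : En n) s) A := by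
  choose h hd hb he using fun R => fam_data hρ (hk R) (hτ R) (H R)
  set 𝒰 : Ultrafilter ℕ := Ultrafilter.of atTop with h𝒰
  have hle : (𝒰 : Filter ℕ) ≤ atTop := Ultrafilter.of_le _
  have hs' : ball (0 : En n) s ⊆ ball 0 1 := ball_subset_ball hs1.le
  have hw : ∀ z ∈ ball (0 : En n) s, ‖z‖ < 1 := fun z hz => mem_ball_zero_iff.1 (hs' hz)
  have key : ∀ j : Fin N, ∃ g : En n → ℂ, DifferentiableOn ℂ g (ball 0 s) ∧
      (∀ z ∈ ball (0 : En n) s, ‖g z‖ ≤ A * ((1 - s) ^ n)⁻¹) ∧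
      ∀ z ∈ ball (0 : En n) s, Tendsto (fun R => M (r R) fun θ => h R j (ex θ) * K z (Γ R (ex θ))) 𝒰
        (𝓝 (g z)) := fun j =>
    SL.ultra_holo 𝒰 (G := fun R z => M (r R) fun θ => h R j (ex θ) * K z (Γ R (ex θ))) isOpen_ball
      (by have := sub_pos.2 hs1; positivity)
      (fun R => (E_diff (hΓ.diff R) (hΓ.eq R) (cont_ex (hτ R) (hd R j))).mono hs')
      (fun R z hz => by
        refine (E_bound (hΓ.diff R) (hΓ.eq R) (cont_ex (hτ R) (hd R j))
          (fun θ => comp_le hA (hb R θ) j) (hw z hz)).trans ?_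
        have h1 : 0 < 1 - s := sub_pos.2 hs1
        have h2 : ‖z‖ < s := mem_ball_zero_iff.1 hz
        gcongr)
  choose g hg1 hg2 hg3 using key
  refine ⟨fun z => WithLp.toLp 2 fun j => g j z, ?_, ?_, ?_⟩
  · exact differentiableOn_euclidean.2 fun j => hg1 j
  · intro z hz
    have h1 := L_norm hn hΓ hA hτ hd hb (hw z hz) hle (g := fun j => g j z) fun j => hg3 j z hz
    refine le_of_sq_le_sq ?_ hA
    rw [EuclideanSpace.norm_sq_eq]
    exact h1
  · intro z hz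
    exact L_eqn hn hΓ hf hA hρ hρ1 hτ hd hb he (hw z hz) hle (g := fun j => g j z) fun j => hg3 j z hz

/-- solutions on the ball of `ℂⁿ` -/
def BSolv {n N : ℕ} (f : Fin N → En n → ℂ) (A : ℝ) : Prop :=
  ∃ h : Fin N → En n → ℂ, (∀ j, DifferentiableOn ℂ (h j) (ball 0 1)) ∧
    ∀ z ∈ ball (0 : En n) 1, ∑ j, f j z * h j z = 1 ∧ ∑ j, ‖h j z‖ ^ 2 ≤ A ^ 2

theorem BSolv.comp {f : Fin N → En n → ℂ} {A : ℝ} (h : BSolv f A) {r : ℕ} {G : (Fin r → ℂ) → En n}
    (hG : DifferentiableOn ℂ G (ball 0 1)) (hm : ∀ t ∈ ball (0 : Fin r → ℂ) 1, G t ∈ ball (0 : En n) 1) :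
    PSolv (fun j t => f j (G t)) A := by
  obtain ⟨h, h1, h2⟩ := h
  exact ⟨fun j t => h j (G t), fun j => (h1 j).comp hG hm, fun t ht => h2 _ (hm t ht)⟩

/-- **The polydisc test**: a fixed sequence of maps, affine in each variable, decides the solvability of all
corona problems on the ball, with the exact constants; any subsequence suffices. -/
theorem polydisc_family (hn : 2 ≤ n) : ∃ (r : ℕ → ℕ) (G : ∀ k, (Fin (r k) → ℂ) → En n),
    (∀ k, MultiAffine (G k)) ∧ (∀ k, Differentiable ℂ (G k)) ∧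
    (∀ k, ∀ t ∈ ball (0 : Fin (r k) → ℂ) 1, G k t ∈ ball (0 : En n) 1) ∧
    ∀ (N : ℕ) (f : Fin N → En n → ℂ), (∀ j, DifferentiableOn ℂ (f j) (ball 0 1)) → ∀ A, 0 ≤ A →
      (∃ᶠ k in atTop, PSolv (fun j t => f j (G k t)) A) → BSolv f A := by
  obtain ⟨r, Γ, hΓ, hm⟩ := exists_goodU hn
  obtain ⟨q, hqdef⟩ : ∃ q : ℕ → ℝ, q = fun i : ℕ => 1 - 1 / ((i : ℝ) + 2) := ⟨_, rfl⟩
  have hq : ∀ i, 0 < q i ∧ q i < 1 := by
    intro i
    have h1 : (0 : ℝ) < (i : ℝ) + 2 := by positivity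
    subst hqdef
    constructor
    · simp only []
      rw [sub_pos, div_lt_one h1]
      have : (0 : ℝ) ≤ i := Nat.cast_nonneg i
      linarith
    · have : 0 < 1 / ((i : ℝ) + 2) := by positivity
      simp only []
      linarith
  have hq1 : Tendsto q atTop (𝓝 1) := by
    subst hqdef
    have h0 : Tendsto (fun i : ℕ => (1 : ℝ) - 1 / ((i : ℝ) + 2)) atTop (𝓝 (1 - 0)) := by
      apply Tendsto.sub tendsto_const_nhds
      have h2 : Tendsto (fun i : ℕ => (i : ℝ) + 2) atTop atTop :=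
        tendsto_atTop_add_const_right _ _ tendsto_natCast_atTop_atTop
      exact (tendsto_inv_atTop_zero.comp h2).congr fun i => by simp
    rwa [sub_zero] at h0
  choose τ hτ hτ2 using fun R => exists_tau (hq R).1 (hq R).2 (hΓ.diff R) (hΓ.le R)
  refine ⟨fun k => r k + 1, fun k => GG (q k) (τ k) (Γ k), fun k => GG_affine _ _ (hm k),
    fun k => GG_diff _ _ (hΓ.diff k), fun k t ht => GG_mem (one_pos.trans (hτ k)) (hτ2 k) ht, ?_⟩
  intro N f hf A hA hfr
  let F : En n → En N := fun z => WithLp.toLp 2 fun j => f j z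
  have hF : DifferentiableOn ℂ F (ball 0 1) := differentiableOn_euclidean.2 fun j => hf j
  have hk1 : Tendsto (fun i => q i * q i) atTop (𝓝 1) := by
    have := hq1.mul hq1
    rwa [one_mul] at this
  have hsol : ∀ i, TB.Solv (fun z => F (((q i * q i : ℝ) : ℂ) • z)) (ball 0 1) A := by
    intro i
    obtain ⟨φ, hφ, hφ2⟩ := extraction_of_frequently_atTop
      (hfr.and_eventually (hq1.eventually (Ioi_mem_nhds (hq i).2)))
    have h1 := fam_ball hn (hΓ.comp hφ.tendsto_atTop) hf hA (hq i).1 (hq i).2 (s := q i) (hq i).2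
      (ρk := fun m => q (φ m)) (τ := fun m => τ (φ m)) (fun m => (hφ2 m).2) (fun m => hτ _)
      (fun m => (hφ2 m).1)
    have h2 := TB.solv_scale (hq i).1 h1
    have h3 : (fun z : En n => F (((q i * q i : ℝ) : ℂ) • z)) = fun z : En n =>
        (WithLp.toLp 2 fun j => f j (((q i : ℝ) : ℂ) • (((q i : ℝ) : ℂ) • z)) : En N) := by
      funext z
      simp only [F, smul_smul, Complex.ofReal_mul]
    rw [h3]
    exact h2
  obtain ⟨h, hh1, hh2, hh3⟩ := TB.limit_solv hF (k := fun i => q i * q i)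
    (fun i => ⟨mul_pos (hq i).1 (hq i).1, by nlinarith [(hq i).1, (hq i).2]⟩) hk1 hsol
  refine ⟨fun j z => h z j, fun j => differentiableOn_euclidean.1 hh1 j, fun z hz => ⟨hh3 z hz, ?_⟩⟩
  have h1 := hh2 z hz
  rw [← EuclideanSpace.norm_sq_eq]
  gcongr

/-- the four forms of the test -/
theorem polydisc_tfae (hn : 2 ≤ n) : ∃ (r : ℕ → ℕ) (G : ∀ k, (Fin (r k) → ℂ) → En n),
    (∀ k, MultiAffine (G k)) ∧ (∀ k, Differentiable ℂ (G k)) ∧
    (∀ k, ∀ t ∈ ball (0 : Fin (r k) → ℂ) 1, G k t ∈ ball (0 : En n) 1) ∧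
    ∀ (N : ℕ) (f : Fin N → En n → ℂ), (∀ j, DifferentiableOn ℂ (f j) (ball 0 1)) → ∀ A, 0 ≤ A →
      List.TFAE [
        BSolv f A,
        ∀ (r : ℕ) (G : (Fin r → ℂ) → En n), DifferentiableOn ℂ G (ball 0 1) →
          (∀ t ∈ ball (0 : Fin r → ℂ) 1, G t ∈ ball (0 : En n) 1) → PSolv (fun j t => f j (G t)) A,
        ∀ k, PSolv (fun j t => f j (G k t)) A,
        ∃ᶠ k in atTop, PSolv (fun j t => f j (G k t)) A] := by
  obtain ⟨r, G, ha, hd, hm, h⟩ := polydisc_family hn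
  refine ⟨r, G, ha, hd, hm, fun N f hf A hA => ?_⟩
  tfae_have 1 → 2 := fun h1 r G hG hGm => h1.comp hG hGm
  tfae_have 2 → 3 := fun h2 k => h2 _ _ (hd k).differentiableOn (hm k)
  tfae_have 3 → 4 := fun h3 => Frequently.of_forall h3
  tfae_have 4 → 1 := h N f hf A hA
  tfae_finish

/-- the polydisc test with all maps -/
theorem polydisc_test (hn : 2 ≤ n) {f : Fin N → En n → ℂ}
    (hf : ∀ j, DifferentiableOn ℂ (f j) (ball 0 1)) {A : ℝ} (hA : 0 ≤ A)
    (H : ∀ (r : ℕ) (G : (Fin r → ℂ) → En n), DifferentiableOn ℂ G (ball 0 1) →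
      (∀ t ∈ ball (0 : Fin r → ℂ) 1, G t ∈ ball (0 : En n) 1) → PSolv (fun j t => f j (G t)) A) :
    ∃ h : Fin N → En n → ℂ, (∀ j, DifferentiableOn ℂ (h j) (ball 0 1)) ∧
      ∀ z ∈ ball (0 : En n) 1, ∑ j, f j z * h j z = 1 ∧ ∑ j, ‖h j z‖ ^ 2 ≤ A ^ 2 := by
  obtain ⟨r, G, -, hd, hm, h⟩ := polydisc_family hn
  exact h N f hf A hA (Frequently.of_forall fun k => H _ _ (hd k).differentiableOn (hm k))

end Pool.Agent.MPca0fc2.PD
end
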