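import Pool.Agent.Lib.MP_ca0fc2_an.Mg.G109
import Pool.Agent.Lib.MP_ca0fc2_an.FP.P7
import Pool.Agent.Lib.MP_ca0fc2_an.FP.P3

section

/-! Campaign FP, row U: the map and the projection for the unit ball of `ℓ²`. -/

set_option autoImplicit false

open Metric Set Filter Topology

namespace Pool.Agent.MPca0fc2.FP

open Pool.Agent.MPca0fc2.PD

/-- **The map and the projection for the ball of `ℓ²`.** -/
theorem exists_proj_l2 : ∃ (G : c0 → l2) (P : (c0 → ℂ) → l2 → ℂ), DifferentiableOn ℂ G (ball 0 1) ∧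
    (∀ x ∈ ball (0 : c0) 1, G x ∈ ball (0 : l2) 1) ∧ IsProjF G P := by
  obtain ⟨G, hGd, hGm, hS⟩ := exists_map_l2
  obtain ⟨P, hP⟩ := exists_projF hS hGd hGm
  exact ⟨G, P, hGd, hGm, hP⟩

/-- **One map for all dimensions.** -/
theorem exists_universal : ∃ (G : c0 → l2) (P : (c0 → ℂ) → l2 → ℂ), DifferentiableOn ℂ G (ball 0 1) ∧
    (∀ x ∈ ball (0 : c0) 1, G x ∈ ball (0 : l2) 1) ∧ IsProjF G P ∧
    ∀ n, DifferentiableOn ℂ (fun x => pn n (G x)) (ball 0 1) ∧
      (∀ x ∈ ball (0 : c0) 1, pn n (G x) ∈ ball (0 : En n) 1) ∧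
      IsProj (fun x => pn n (G x)) 1 fun h w => P h (jn n w) := by
  obtain ⟨G, P, hGd, hGm, hP⟩ := exists_proj_l2
  exact ⟨G, P, hGd, hGm, hP, fun n => ⟨(pn n).differentiable.comp_differentiableOn hGd,
    fun x hx => pn_mem (hGm x hx), hP.fin n⟩⟩

end Pool.Agent.MPca0fc2.FP
end

section

/-! Campaign FP, rows V: one solvable problem gives uniform bounds, on the balls of `ℓ²` and of `c₀`. -/

set_option autoImplicit false

open Metric Set Filter Topology

namespace Pool.Agent.MPca0fc2.FP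

open Pool.Agent.MPca0fc2.PD

/-- `∑ f_j h_j = 1` has a holomorphic solution on `U` with `|h| ≤ A`. -/
def VSol {E : Type*} [NormedAddCommGroup E] [NormedSpace ℂ E] {N : ℕ} (f : E → En N) (U : Set E)
    (A : ℝ) : Prop :=
  ∃ h : E → En N, DifferentiableOn ℂ h U ∧ ∀ x ∈ U, ∑ j, f x j * h x j = 1 ∧ ‖h x‖ ≤ A

/-- The corona theorem for `N` functions on the unit ball of `E`. -/
def VCor (N : ℕ) (E : Type*) [NormedAddCommGroup E] [NormedSpace ℂ E] : Prop :=
  ∀ f : E → En N, DifferentiableOn ℂ f (ball 0 1) → (∃ C, ∀ x ∈ ball (0 : E) 1, ‖f x‖ ≤ C) →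
    (∃ δ > 0, ∀ x ∈ ball (0 : E) 1, δ ≤ ‖f x‖) → ∃ A, VSol f (ball 0 1) A

/-- The corona theorem for `N` functions on the unit ball of `E`, with the bound `A` for the lower bound
`δ`. -/
def VUnif (N : ℕ) (E : Type*) [NormedAddCommGroup E] [NormedSpace ℂ E] (δ A : ℝ) : Prop :=
  ∀ f : E → En N, DifferentiableOn ℂ f (ball 0 1) → (∀ x ∈ ball (0 : E) 1, δ ≤ ‖f x‖ ∧ ‖f x‖ ≤ 1) →
    VSol f (ball 0 1) A

variable {E : Type*} [NormedAddCommGroup E] [NormedSpace ℂ E] {N : ℕ}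

theorem VSol.mono {f : E → En N} {U V : Set E} {A B : ℝ} (h : VSol f U A) (hVU : V ⊆ U) (hAB : A ≤ B) :
    VSol f V B := by
  obtain ⟨h, h1, h2⟩ := h
  exact ⟨h, h1.mono hVU, fun x hx => ⟨(h2 x (hVU hx)).1, (h2 x (hVU hx)).2.trans hAB⟩⟩

/-- Schwarz's lemma. PROOF. Restrict to the disc `z ↦ f (z • (x / ‖x‖))`, `|z| < 1`; `f - f 0` is bounded by 2
and zero at zero: `Complex.norm_dslope_le_div_of_mapsTo_ball`/`dist_le_div_mul_dist_of_mapsTo_ball`. -/
theorem schwarz {f : E → En N} (hf : DifferentiableOn ℂ f (ball 0 1)) (hb : ∀ x ∈ ball (0 : E) 1, ‖f x‖ ≤ 1)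
    {x : E} (hx : x ∈ ball (0 : E) 1) : ‖f x - f 0‖ ≤ 2 * ‖x‖ := by
  have h0 : (0 : E) ∈ ball (0 : E) 1 := mem_ball_self one_pos
  have h := Complex.dist_le_div_mul_dist_of_mapsTo_ball (R₁ := 1) (R₂ := 2) hf (fun y hy => by
    rw [mem_closedBall, dist_eq_norm]
    exact (norm_sub_le _ _).trans (by linarith [hb y hy, hb 0 h0])) hx
  rw [dist_eq_norm, dist_eq_norm, sub_zero] at h
  linarith

/-- PROOF. `h i` on `ball 0 (q i)`, `q i = 1 - 1 / (i + 2)`; `x ↦ h i (q i • x)` solves for `f (q i • x)` on the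
unit ball; an ultralimit by `DS.ultra_holo_banach` (or `ultra_ball` of P7), `f` is continuous. -/
theorem vsol_of_smaller {f : E → En N} (hf : DifferentiableOn ℂ f (ball 0 1)) {A : ℝ}
    (h : ∀ r : ℝ, 0 < r → r < 1 → VSol f (ball 0 r) A) : VSol f (ball 0 1) A := by
  have hq0 : ∀ i : ℕ, 0 < 1 - 1 / ((i : ℝ) + 2) := fun i => by
    have h1 : (0 : ℝ) < (i : ℝ) + 2 := by positivity
    have h2 : 1 / ((i : ℝ) + 2) < 1 := by
      rw [div_lt_one h1]
      have : (0 : ℝ) ≤ i := Nat.cast_nonneg i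
      linarith
    linarith
  have hq1 : ∀ i : ℕ, 1 - 1 / ((i : ℝ) + 2) < 1 := fun i => by
    have h1 : (0 : ℝ) < 1 / ((i : ℝ) + 2) := by positivity
    linarith
  choose H hH1 hH2 using fun i : ℕ => h _ (hq0 i) (hq1 i)
  have hmaps : ∀ i : ℕ, ∀ x ∈ ball (0 : E) 1,
      ((1 - 1 / ((i : ℝ) + 2) : ℝ) : ℂ) • x ∈ ball (0 : E) (1 - 1 / ((i : ℝ) + 2)) := by
    intro i x hx
    rw [mem_ball_zero_iff] at hx ⊢
    rw [norm_smul, Complex.norm_real, Real.norm_of_nonneg (hq0 i).le]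
    nlinarith [hq0 i]
  obtain ⟨g, hg1, hg2, hg3, -⟩ := DS.ultra_holo' (Filter.hyperfilter ℕ) (isOpen_ball (x := (0 : E)) (ε := 1))
    (G := fun i x => H i (((1 - 1 / ((i : ℝ) + 2) : ℝ) : ℂ) • x)) (M := A)
    (fun i => (hH1 i).comp (by fun_prop) (hmaps i)) (fun i x hx => (hH2 i _ (hmaps i x hx)).2)
  refine ⟨g, hg1, fun x hx => ⟨?_, hg2 x hx⟩⟩
  have hq : Tendsto (fun i : ℕ => ((1 - 1 / ((i : ℝ) + 2) : ℝ) : ℂ) • x) atTop (𝓝 x) := by
    have h1 : Tendsto (fun i : ℕ => 1 - 1 / ((i : ℝ) + 2)) atTop (𝓝 (1 - 0)) := by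
      refine tendsto_const_nhds.sub ?_
      refine tendsto_const_nhds.div_atTop ?_
      exact tendsto_atTop_add_const_right _ _ tendsto_natCast_atTop_atTop
    have h2 : Tendsto (fun i : ℕ => ((1 - 1 / ((i : ℝ) + 2) : ℝ) : ℂ)) atTop (𝓝 ((1 - 0 : ℝ) : ℂ)) :=
      (Complex.continuous_ofReal.tendsto _).comp h1
    have h3 := h2.smul_const x
    simpa using h3
  have hfx : Tendsto (fun i : ℕ => f (((1 - 1 / ((i : ℝ) + 2) : ℝ) : ℂ) • x))
      (Filter.hyperfilter ℕ : Filter ℕ) (𝓝 (f x)) :=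
    (((hf.differentiableAt (isOpen_ball.mem_nhds hx)).continuousAt.tendsto).comp hq).mono_left
      Nat.hyperfilter_le_atTop
  have hco : ∀ j : Fin N, Continuous fun v : En N => v j := fun j =>
    (EuclideanSpace.proj (𝕜 := ℂ) j).continuous
  have hsum : Tendsto (fun i : ℕ => ∑ j, f (((1 - 1 / ((i : ℝ) + 2) : ℝ) : ℂ) • x) j *
      H i (((1 - 1 / ((i : ℝ) + 2) : ℝ) : ℂ) • x) j) (Filter.hyperfilter ℕ : Filter ℕ)
      (𝓝 (∑ j, f x j * g x j)) :=
    tendsto_finsetSum _ fun j _ =>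
      (((hco j).tendsto _).comp hfx).mul (((hco j).tendsto _).comp (hg3 x hx))
  refine tendsto_nhds_unique hsum ?_
  refine tendsto_const_nhds.congr fun i => ?_
  exact (hH2 i _ (hmaps i x hx)).1.symm

end Pool.Agent.MPca0fc2.FP
end

section

/-! Campaign FP, row V1: gluing infinitely many data on the unit ball of a normed space. -/

set_option autoImplicit false

open Metric Set Filter Topology

namespace Pool.Agent.MPca0fc2.FP

open Pool.Agent.MPca0fc2.PD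

variable {E : Type*} [NormedAddCommGroup E] [NormedSpace ℂ E] {N : ℕ}

/-- the norm of the centre -/
theorem V1_norm (k : ℕ) : ‖((k : ℂ) + 1) * Complex.I‖ = (k : ℝ) + 1 := by
  have h : ((k : ℂ) + 1) = (((k : ℝ) + 1 : ℝ) : ℂ) := by push_cast; rfl
  rw [norm_mul, Complex.norm_I, mul_one, h, Complex.norm_real, Real.norm_of_nonneg (by positivity)]

/-- the discs are disjoint -/
theorem V1_disj {w : ℂ} {j k : ℕ} (hj : ‖w - ((j : ℂ) + 1) * Complex.I‖ < 1 / 3)
    (hk : ‖w - ((k : ℂ) + 1) * Complex.I‖ < 1 / 3) : j = k := by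
  have h1 : ‖(((j : ℝ) - (k : ℝ) : ℝ) : ℂ) * Complex.I‖ < 1 := by
    have h2 : (((j : ℝ) - (k : ℝ) : ℝ) : ℂ) * Complex.I =
        (w - ((k : ℂ) + 1) * Complex.I) - (w - ((j : ℂ) + 1) * Complex.I) := by
      push_cast
      ring
    rw [h2]
    refine (norm_sub_le _ _).trans_lt ?_
    linarith
  rw [norm_mul, Complex.norm_I, mul_one, Complex.norm_real, Real.norm_eq_abs, abs_lt] at h1
  have h3 : (j : ℤ) - k < 1 := by
    have := h1.2
    exact_mod_cast this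
  have h4 : -1 < (j : ℤ) - k := by
    have := h1.1
    exact_mod_cast this
  omega

/-- PROOF (copy of `TB.glue`, TB/G2.lean, with `‖W x - (k + 1) i‖ < 1/3` for the balls). `F = c₀ + ∑' k, (g k - c k)`. The
discs `|w - (k + 1) i| < 1/3` are disjoint, so each `x` is in at most one of the sets; off them the terms are `≤ η k`.
Holomorphic: `differentiableOn_tsum_ball` (P3) with `q ρ k = if (k : ℝ) + 1 ≤ R ρ + 1/3 then 3 else η k` (`‖c k‖ ≤ ‖c₀‖ + η k`; or any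
bound of the finitely many first terms). (i) `x` in the `k`-th set: `F x - g k x = (c₀ - c k) + ∑_{j ≠ k}` has the norm
`≤ η k + ∑_{j ≠ k} η j ≤ η₀`; `x` in no set: `‖F x - c₀‖ ≤ η₀`. (ii) Given `τ`: `∑_{j ≥ J} η j ≤ τ/3`, and for the finitely many
`j < J` use `hinf j` (`‖W x‖ ≥ k + 1 - 1/3` is large). -/
theorem glueW {W : E → ℂ} (hWb : ∀ ρ, 0 < ρ → ρ < 1 → ∃ R, ∀ x ∈ ball (0 : E) ρ, ‖W x‖ ≤ R)
    {g : ℕ → E → En N} {c : ℕ → En N} {c₀ : En N} {η : ℕ → ℝ} {η₀ : ℝ}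
    (hg : ∀ k, DifferentiableOn ℂ (g k) (ball 0 1)) (hg1 : ∀ k, ∀ x ∈ ball (0 : E) 1, ‖g k x‖ ≤ 1)
    (hη : ∀ k, 0 ≤ η k) (hη1 : HasSum η η₀) (hc : ∀ k, ‖c k - c₀‖ ≤ η k)
    (hoff : ∀ k : ℕ, ∀ x ∈ ball (0 : E) 1, 1 / 3 ≤ ‖W x - ((k : ℂ) + 1) * Complex.I‖ → ‖g k x - c k‖ ≤ η k)
    (hinf : ∀ k, ∀ τ > 0, ∃ R : ℝ, ∀ x ∈ ball (0 : E) 1, R ≤ ‖W x‖ → ‖g k x - c k‖ ≤ τ) :
    ∃ F : E → En N, DifferentiableOn ℂ F (ball 0 1) ∧
      (∀ x ∈ ball (0 : E) 1, (∃ k, ‖F x - g k x‖ ≤ 2 * η₀) ∨ ‖F x - c₀‖ ≤ 2 * η₀) ∧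
      ∀ τ > 0, ∃ K : ℕ, ∀ k : ℕ, K ≤ k → ∀ x ∈ ball (0 : E) 1,
        ‖W x - ((k : ℂ) + 1) * Complex.I‖ < 1 / 3 → ‖F x - g k x‖ ≤ τ := by
  have hη0 : 0 ≤ η₀ := hη1.nonneg hη
  -- off the sets
  have hT : ∀ k : ℕ, ∀ x ∈ ball (0 : E) 1, ¬ ‖W x - ((k : ℂ) + 1) * Complex.I‖ < 1 / 3 →
      ‖g k x - c k‖ ≤ η k := fun k x hx h => hoff k x hx (not_lt.1 h)
  have hdis : ∀ (k : ℕ) (x : E), ‖W x - ((k : ℂ) + 1) * Complex.I‖ < 1 / 3 → ∀ j : ℕ, j ≠ k →
      ¬ ‖W x - ((j : ℂ) + 1) * Complex.I‖ < 1 / 3 := fun k x hk j hjk hj => hjk (V1_disj hj hk)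
  -- summability
  have hsum : ∀ x ∈ ball (0 : E) 1, Summable fun k => g k x - c k := by
    intro x hx
    by_cases hxb : ∃ k : ℕ, ‖W x - ((k : ℂ) + 1) * Complex.I‖ < 1 / 3
    · obtain ⟨k0, hk0⟩ := hxb
      refine Summable.of_norm_bounded_eventually_nat hη1.summable ?_
      filter_upwards [eventually_gt_atTop k0] with k hk
      exact hT k x hx (hdis k0 x hk0 k (by omega))
    · exact Summable.of_norm_bounded hη1.summable fun k => hT k x hx fun h => hxb ⟨k, h⟩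
  -- the rest of the series at a point of the `k`-th set
  have hrest : ∀ (k : ℕ), ∀ x ∈ ball (0 : E) 1, ‖W x - ((k : ℂ) + 1) * Complex.I‖ < 1 / 3 →
      (∀ j, ‖(if j = k then 0 else g j x - c j)‖ ≤ (if j = k then 0 else η j)) ∧
      c₀ + ∑' k, (g k x - c k) - g k x = (c₀ - c k) + ∑' j, (if j = k then 0 else g j x - c j) := by
    intro k x hx hxb
    refine ⟨fun j => ?_, ?_⟩
    · by_cases e : j = k
      · rw [if_pos e, if_pos e, norm_zero]
      · rw [if_neg e, if_neg e]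
        exact hT j x hx (hdis k x hxb j e)
    · rw [(hsum x hx).tsum_eq_add_tsum_ite k]
      abel
  refine ⟨fun x => c₀ + ∑' k, (g k x - c k), ?_, ?_, ?_⟩
  · -- holomorphic
    have hex : ∀ ρ : ℝ, ∃ R : ℝ, 0 < ρ → ρ < 1 → ∀ x ∈ ball (0 : E) ρ, ‖W x‖ ≤ R := by
      intro ρ
      by_cases h : 0 < ρ ∧ ρ < 1
      · obtain ⟨R, hR⟩ := hWb ρ h.1 h.2
        exact ⟨R, fun _ _ => hR⟩
      · exact ⟨0, fun h1 h2 => absurd ⟨h1, h2⟩ h⟩
    choose R hR using hex
    refine DifferentiableOn.const_add c₀ ?_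
    refine differentiableOn_tsum_ball (T := fun k x => g k x - c k) (fun k => (hg k).sub_const _)
      (q := fun ρ k => η k + if (k : ℝ) + 1 ≤ R ρ + 1 / 3 then 1 + ‖c₀‖ else 0) ?_ ?_
    · intro ρ _ _
      refine hη1.summable.add ?_
      refine summable_of_ne_finset_zero (s := Finset.range (⌈R ρ + 1 / 3⌉₊ + 1)) fun k hk => ?_
      rw [Finset.mem_range, not_lt] at hk
      refine if_neg fun h => ?_
      have h1 := Nat.le_ceil (R ρ + 1 / 3)
      have h2 : (⌈R ρ + 1 / 3⌉₊ : ℝ) + 1 ≤ (k : ℝ) := by exact_mod_cast hk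
      linarith
    · intro ρ h0 h1 k x hx
      have hx1 : x ∈ ball (0 : E) 1 := ball_subset_ball h1.le hx
      by_cases hk : ‖W x - ((k : ℂ) + 1) * Complex.I‖ < 1 / 3
      · have h2 : (k : ℝ) + 1 ≤ R ρ + 1 / 3 := by
          rw [← V1_norm k]
          have h3 : ((k : ℂ) + 1) * Complex.I = W x - (W x - ((k : ℂ) + 1) * Complex.I) := by ring
          rw [h3]
          refine (norm_sub_le _ _).trans ?_
          have := hR ρ h0 h1 x hx
          linarith
        simp only [if_pos h2]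
        refine (norm_sub_le _ _).trans ?_
        have h4 : ‖c k‖ ≤ ‖c₀‖ + η k := by
          have h5 : c k = c₀ + (c k - c₀) := by abel
          rw [h5]
          exact (norm_add_le _ _).trans (add_le_add_right (hc k) _)
        have := hg1 k x hx1
        linarith
      · refine (hT k x hx1 hk).trans ?_
        have : 0 ≤ if (k : ℝ) + 1 ≤ R ρ + 1 / 3 then 1 + ‖c₀‖ else 0 := by
          split_ifs
          · positivity
          · exact le_rfl
        linarith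
  · -- (i)
    intro x hx
    by_cases hxb : ∃ k : ℕ, ‖W x - ((k : ℂ) + 1) * Complex.I‖ < 1 / 3
    · obtain ⟨k, hk⟩ := hxb
      refine Or.inl ⟨k, ?_⟩
      obtain ⟨h1, h2⟩ := hrest k x hx hk
      change ‖c₀ + ∑' k, (g k x - c k) - g k x‖ ≤ _
      rw [h2]
      refine (norm_add_le _ _).trans ?_
      have h3 : ‖c₀ - c k‖ ≤ η₀ := by
        rw [norm_sub_rev]
        exact (hc k).trans (le_hasSum hη1 k fun j _ => hη j)
      have h4 : ‖∑' j, (if j = k then 0 else g j x - c j)‖ ≤ η₀ := by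
        refine tsum_of_norm_bounded hη1 fun j => (h1 j).trans ?_
        split_ifs
        · exact hη j
        · exact le_rfl
      linarith
    · refine Or.inr ?_
      change ‖c₀ + ∑' k, (g k x - c k) - c₀‖ ≤ _
      rw [add_sub_cancel_left]
      have h4 : ‖∑' k, (g k x - c k)‖ ≤ η₀ :=
        tsum_of_norm_bounded hη1 fun k => hT k x hx fun h => hxb ⟨k, h⟩
      linarith
  · -- (ii)
    intro τ hτ
    have htail : Tendsto (fun J => ∑' k, η (k + J)) atTop (𝓝 0) := tendsto_sum_nat_add η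
    obtain ⟨J, hJ⟩ := (htail.eventually (gt_mem_nhds (show (0 : ℝ) < τ / 3 by positivity))).exists
    have hτ' : (0 : ℝ) < τ / (3 * ((J : ℝ) + 1)) := by positivity
    choose r hr using fun j : ℕ => hinf j _ hτ'
    obtain ⟨K, hK⟩ : ∃ K : ℕ, ∀ k : ℕ, K ≤ k → J ≤ k ∧ ∀ j ∈ Finset.range J, r j ≤ (k : ℝ) + 1 - 1 / 3 := by
      refine ⟨max J (⌈∑ j ∈ Finset.range J, |r j|⌉₊), fun k hk => ⟨(le_max_left _ _).trans hk, fun j hj => ?_⟩⟩
      have h1 : ((⌈∑ j ∈ Finset.range J, |r j|⌉₊ : ℕ) : ℝ) ≤ k := by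
        exact_mod_cast (le_max_right _ _).trans hk
      have h2 := Nat.le_ceil (∑ j ∈ Finset.range J, |r j|)
      have h3 : |r j| ≤ ∑ j ∈ Finset.range J, |r j| :=
        Finset.single_le_sum (f := fun j => |r j|) (fun _ _ => abs_nonneg _) hj
      have h4 := le_abs_self (r j)
      linarith
    refine ⟨K, fun k hk x hx hxb => ?_⟩
    obtain ⟨hJk, hKr⟩ := hK k hk
    obtain ⟨h1, h2⟩ := hrest k x hx hxb
    change ‖c₀ + ∑' k, (g k x - c k) - g k x‖ ≤ _
    rw [h2]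
    have hWx : (k : ℝ) + 1 - 1 / 3 ≤ ‖W x‖ := by
      have h3 : ((k : ℂ) + 1) * Complex.I = W x - (W x - ((k : ℂ) + 1) * Complex.I) := by ring
      have h4 := norm_sub_le (W x) (W x - ((k : ℂ) + 1) * Complex.I)
      rw [← h3, V1_norm] at h4
      linarith
    have hsJ : Summable fun i => η (i + J) := (summable_nat_add_iff J).2 hη1.summable
    have h3 : ‖c₀ - c k‖ ≤ τ / 3 := by
      rw [norm_sub_rev]
      refine (hc k).trans (le_trans ?_ hJ.le)
      have h5 := hsJ.le_tsum (k - J) fun j _ => hη _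
      rwa [Nat.sub_add_cancel hJk] at h5
    have hs1 : Summable fun j => (if j = k then 0 else g j x - c j) := by
      refine Summable.of_norm_bounded hη1.summable fun j => (h1 j).trans ?_
      split_ifs
      · exact hη j
      · exact le_rfl
    have h4 : ‖∑' j, (if j = k then 0 else g j x - c j)‖ ≤ τ / 3 + τ / 3 := by
      rw [← hs1.sum_add_tsum_nat_add J]
      refine (norm_add_le _ _).trans (add_le_add ?_ ?_)
      · refine (norm_sum_le _ _).trans ?_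
        have h5 : ∀ j ∈ Finset.range J, ‖(if j = k then 0 else g j x - c j)‖ ≤ τ / (3 * ((J : ℝ) + 1)) := by
          intro j hj
          split_ifs
          · rw [norm_zero]
            exact hτ'.le
          · exact hr j x hx ((hKr j hj).trans hWx)
        refine (Finset.sum_le_sum h5).trans ?_
        rw [Finset.sum_const, Finset.card_range, nsmul_eq_mul]
        rw [mul_div_assoc', div_le_div_iff₀ (by positivity) (by positivity)]
        nlinarith
      · refine (tsum_of_norm_bounded hsJ.hasSum fun i => (h1 (i + J)).trans ?_).trans hJ.le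
        split_ifs
        · exact hη _
        · exact le_rfl
    refine (norm_add_le _ _).trans ?_
    linarith

end Pool.Agent.MPca0fc2.FP
end
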