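import Pool.Agent.Lib.MP_ca0fc2_an.Mg.G110

section

/-! Campaign FP, row V2: solutions on the sets. -/

set_option autoImplicit false

open Metric Set Filter Topology

namespace Pool.Agent.MPca0fc2.FP

open Pool.Agent.MPca0fc2.PD

variable {E : Type*} [NormedAddCommGroup E] [NormedSpace ℂ E] {N : ℕ}

/-- The Cauchy-Schwarz inequality for the bilinear form. -/
theorem v2_norm_sum_mul_le (a b : En N) : ‖∑ j, a j * b j‖ ≤ ‖a‖ * ‖b‖ := by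
  calc ‖∑ j, a j * b j‖ ≤ ∑ j, ‖a j‖ * ‖b j‖ := by
        refine (norm_sum_le _ _).trans (Finset.sum_le_sum fun j _ => ?_)
        rw [norm_mul]
    _ ≤ √(∑ j, ‖a j‖ ^ 2) * √(∑ j, ‖b j‖ ^ 2) := Real.sum_mul_le_sqrt_mul_sqrt _ _ _
    _ = ‖a‖ * ‖b‖ := by rw [EuclideanSpace.norm_eq, EuclideanSpace.norm_eq]

/-- PROOF. `F` of `glueW`: `‖F x‖ ≤ 1 + ‖c₀‖ + 2 η₀`, `‖F x‖ ≥ δ - 2 η₀ - ..≥ δ / 4` (`‖c₀‖ ≥ δ - η 0`, `η 0 ≤ η₀`). So the corona theorem gives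
`H`, `‖H‖ ≤ M₀`. `τ := 1 / (2 (|M₀| + 1))`: for `k ≥ K`, on the `k`-th set `∑ g_k,j H_j = 1 - ∑ (F - g_k)_j H_j =: u`, `|1 - u| ≤ τ M₀ ≤ 1/2`
(Cauchy-Schwarz: `|∑ a_j b_j| ≤ ‖a‖ ‖b‖`), so `u ≠ 0`, `h := u⁻¹ • H`, `‖h‖ ≤ 2 M₀`. (`u` is holomorphic on the set, which is a
subset of the ball; `DifferentiableOn` on the subset is restriction.) -/
theorem solv_slab (hcor : VCor N E) {W : E → ℂ}
    (hWb : ∀ ρ, 0 < ρ → ρ < 1 → ∃ R, ∀ x ∈ ball (0 : E) ρ, ‖W x‖ ≤ R)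
    {g : ℕ → E → En N} {c : ℕ → En N} {c₀ : En N} {η : ℕ → ℝ} {η₀ δ : ℝ}
    (hg : ∀ k, DifferentiableOn ℂ (g k) (ball 0 1))
    (hg1 : ∀ k, ∀ x ∈ ball (0 : E) 1, δ ≤ ‖g k x‖ ∧ ‖g k x‖ ≤ 1)
    (hη : ∀ k, 0 ≤ η k) (hη1 : HasSum η η₀) (hηδ : 4 * η₀ < δ) (hc : ∀ k, ‖c k - c₀‖ ≤ η k)
    (hcδ : ∀ k, δ ≤ ‖c k‖)
    (hoff : ∀ k : ℕ, ∀ x ∈ ball (0 : E) 1, 1 / 3 ≤ ‖W x - ((k : ℂ) + 1) * Complex.I‖ → ‖g k x - c k‖ ≤ η k)
    (hinf : ∀ k, ∀ τ > 0, ∃ R : ℝ, ∀ x ∈ ball (0 : E) 1, R ≤ ‖W x‖ → ‖g k x - c k‖ ≤ τ) :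
    ∃ (M : ℝ) (K : ℕ), ∀ k : ℕ, K ≤ k →
      VSol (g k) {x | x ∈ ball (0 : E) 1 ∧ ‖W x - ((k : ℂ) + 1) * Complex.I‖ < 1 / 3} M := by
  obtain ⟨F, hF, hF1, hF2⟩ := glueW hWb hg (fun k x hx => (hg1 k x hx).2) hη hη1 hc hoff hinf
  have hη0 : η 0 ≤ η₀ := le_hasSum hη1 0 fun j _ => hη j
  have hη0' : 0 ≤ η₀ := (hη 0).trans hη0
  have hδ : 0 < δ := by linarith
  have hc0 : δ - η₀ ≤ ‖c₀‖ := by
    have h1 := hcδ 0
    have h2 := hc 0
    have h3 : ‖c 0‖ ≤ ‖c 0 - c₀‖ + ‖c₀‖ := by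
      have := norm_add_le (c 0 - c₀) c₀
      rwa [sub_add_cancel] at this
    linarith
  have hup : ∀ x ∈ ball (0 : E) 1, ‖F x‖ ≤ 1 + ‖c₀‖ + 2 * η₀ := by
    intro x hx
    rcases hF1 x hx with ⟨k, hk⟩ | h
    · have h1 : ‖F x‖ ≤ ‖F x - g k x‖ + ‖g k x‖ := by
        have := norm_add_le (F x - g k x) (g k x)
        rwa [sub_add_cancel] at this
      have h2 := (hg1 k x hx).2
      have h3 := norm_nonneg c₀
      linarith
    · have h1 : ‖F x‖ ≤ ‖F x - c₀‖ + ‖c₀‖ := by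
        have := norm_add_le (F x - c₀) c₀
        rwa [sub_add_cancel] at this
      linarith
  have hlow : ∀ x ∈ ball (0 : E) 1, δ / 4 ≤ ‖F x‖ := by
    intro x hx
    rcases hF1 x hx with ⟨k, hk⟩ | h
    · have h1 : ‖g k x‖ ≤ ‖F x - g k x‖ + ‖F x‖ := by
        have := norm_add_le (g k x - F x) (F x)
        rwa [sub_add_cancel, norm_sub_rev] at this
      have h2 := (hg1 k x hx).1
      linarith
    · have h1 : ‖c₀‖ ≤ ‖F x - c₀‖ + ‖F x‖ := by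
        have := norm_add_le (c₀ - F x) (F x)
        rwa [sub_add_cancel, norm_sub_rev] at this
      linarith
  obtain ⟨A, H, hH, hH1⟩ := hcor F hF ⟨_, hup⟩ ⟨δ / 4, by positivity, hlow⟩
  have hA : 0 ≤ A := (norm_nonneg _).trans (hH1 0 (mem_ball_self one_pos)).2
  obtain ⟨K, hK⟩ := hF2 (1 / (2 * (A + 1))) (by positivity)
  refine ⟨2 * A, K, fun k hk => ?_⟩
  set S : Set E := {x | x ∈ ball (0 : E) 1 ∧ ‖W x - ((k : ℂ) + 1) * Complex.I‖ < 1 / 3} with hS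
  have hSb : S ⊆ ball (0 : E) 1 := fun x hx => hx.1
  have hsum : ∀ x ∈ S, ‖1 - ∑ j, g k x j * H x j‖ ≤ 1 / 2 := by
    intro x hx
    have h1 := hH1 x hx.1
    have h2 : 1 - ∑ j, g k x j * H x j = ∑ j, (F x - g k x) j * H x j := by
      rw [← h1.1, ← Finset.sum_sub_distrib]
      refine Finset.sum_congr rfl fun j _ => ?_
      rw [PiLp.sub_apply]
      ring
    rw [h2]
    refine (v2_norm_sum_mul_le _ _).trans ?_
    have h3 := hK k hk x hx.1 hx.2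
    calc ‖F x - g k x‖ * ‖H x‖ ≤ 1 / (2 * (A + 1)) * A :=
          mul_le_mul h3 h1.2 (norm_nonneg _) (by positivity)
      _ ≤ 1 / 2 := by
          rw [div_mul_eq_mul_div, one_mul, div_le_div_iff₀ (by positivity) (by norm_num)]
          linarith
  have hu : ∀ x ∈ S, 1 / 2 ≤ ‖∑ j, g k x j * H x j‖ := by
    intro x hx
    have h1 := hsum x hx
    have h2 := norm_sub_norm_le (1 : ℂ) (1 - ∑ j, g k x j * H x j)
    rw [sub_sub_cancel, norm_one] at h2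
    linarith
  have hu0 : ∀ x ∈ S, ∑ j, g k x j * H x j ≠ 0 := by
    intro x hx h0
    have := hu x hx
    rw [h0, norm_zero] at this
    norm_num at this
  refine ⟨fun x => (∑ j, g k x j * H x j)⁻¹ • H x, ?_, ?_⟩
  · have hgS : DifferentiableOn ℂ (g k) S := (hg k).mono hSb
    have hHS : DifferentiableOn ℂ H S := hH.mono hSb
    have h1 : DifferentiableOn ℂ (fun x => ∑ j, g k x j * H x j) S := by
      refine DifferentiableOn.fun_sum fun j _ => ?_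
      exact ((differentiableOn_euclidean.1 hgS) j).mul ((differentiableOn_euclidean.1 hHS) j)
    exact (h1.inv hu0).smul hHS
  · intro x hx
    refine ⟨?_, ?_⟩
    · have h1 : ∑ j, g k x j * ((∑ j, g k x j * H x j)⁻¹ • H x) j =
          (∑ j, g k x j * H x j)⁻¹ * ∑ j, g k x j * H x j := by
        rw [Finset.mul_sum]
        refine Finset.sum_congr rfl fun j _ => ?_
        rw [PiLp.smul_apply, smul_eq_mul]
        ring
      rw [h1]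
      exact inv_mul_cancel₀ (hu0 x hx)
    · rw [norm_smul, norm_inv]
      have h1 := (hH1 x hx.1).2
      have h2 : ‖∑ j, g k x j * H x j‖⁻¹ ≤ 2 := by
        rw [inv_le_comm₀ (lt_of_lt_of_le (by norm_num) (hu x hx)) (by norm_num)]
        have := hu x hx
        linarith
      exact mul_le_mul h2 h1 (norm_nonneg _) (by norm_num)

end Pool.Agent.MPca0fc2.FP
end

section

/-! Campaign FP, row V3: from the corona theorem to uniform bounds. -/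

set_option autoImplicit false

open Metric Set Filter Topology

namespace Pool.Agent.MPca0fc2.FP

open Pool.Agent.MPca0fc2.PD

/-- Maps `Φ : ball → ball` which are small off the set `|W - (k + 1) i| < 1/3`, with sections `Ψ` (up to the factor
`1 - a`) into this set. -/
structure Blocks (E : Type*) [NormedAddCommGroup E] [NormedSpace ℂ E] (W : E → ℂ)
    (Φ Ψ : ℝ → ℕ → E → E) : Prop where
  bdd : ∀ ρ, 0 < ρ → ρ < 1 → ∃ R, ∀ x ∈ ball (0 : E) ρ, ‖W x‖ ≤ R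
  diffΦ : ∀ a k, 0 < a → a < 1 → DifferentiableOn ℂ (Φ a k) (ball 0 1)
  memΦ : ∀ a k, 0 < a → a < 1 → ∀ x ∈ ball (0 : E) 1, Φ a k x ∈ ball (0 : E) 1
  off : ∀ (a : ℝ) (k : ℕ), 0 < a → a < 1 → ∀ x ∈ ball (0 : E) 1,
    1 / 3 ≤ ‖W x - ((k : ℂ) + 1) * Complex.I‖ → ‖Φ a k x‖ ≤ a
  inf : ∀ a k, 0 < a → a < 1 → ∀ τ > 0, ∃ R : ℝ, ∀ x ∈ ball (0 : E) 1, R ≤ ‖W x‖ → ‖Φ a k x‖ ≤ τ
  diffΨ : ∀ a k, 0 < a → a < 1 → DifferentiableOn ℂ (Ψ a k) (ball 0 1)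
  memΨ : ∀ a k, 0 < a → a < 1 → ∀ x ∈ ball (0 : E) 1, Ψ a k x ∈ ball (0 : E) 1
  slab : ∀ (a : ℝ) (k : ℕ), 0 < a → a < 1 → ∀ x ∈ ball (0 : E) 1,
    ‖W (Ψ a k x) - ((k : ℂ) + 1) * Complex.I‖ < 1 / 3
  inv : ∀ (a : ℝ) (k : ℕ), 0 < a → a < 1 → ∀ x ∈ ball (0 : E) 1, Φ a k (Ψ a k x) = ((1 - a : ℝ) : ℂ) • x

variable {E : Type*} [NormedAddCommGroup E] [NormedSpace ℂ E] {N : ℕ}

/-- PROOF. By contradiction (also `δ ≤ 1`, else there are no data: `0 ∈ ball`). For `k : ℕ` there are `f k`, `δ ≤ ‖f k‖ ≤ 1`, without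
a solution on the ball with the bound `k`; by `vsol_of_smaller` there is `0 < r k < 1` without a solution on `ball 0 (r k)` with
the bound `k`. `f k 0 ∈ closedBall 0 1` (compact), so `f (χ k) 0 → c₀` with `‖f (χ k) 0 - c₀‖ ≤ η k := δ / 16 * (1/2)^k`
(`extraction_forall_of_eventually`, see EQ/C3.lean lines 107-130), `χ` strictly monotone. `a k := min (η k / 2) (1 - r (χ k))` (in `(0, 1)`),
`g k := f (χ k) ∘ Φ (a k) k`, `c k := f (χ k) 0`: `hoff`, `hinf` by `schwarz` (`‖g k x - c k‖ ≤ 2 ‖Φ x‖`). `solv_slab`: `M`, `K`. For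
`k ≥ K`, `k ≥ M` compose with `Ψ (a k) k`: `x ↦ h (Ψ x)` solves `f (χ k) ((1 - a k) • x)` on the unit ball with the bound `M`, so
`y ↦ h (Ψ ((1 - a k)⁻¹ • y))` solves `f (χ k)` on `ball 0 (1 - a k) ⊇ ball 0 (r (χ k))` with the bound `M ≤ k ≤ χ k`. Contradiction. -/
theorem unif_of_cor {W : E → ℂ} {Φ Ψ : ℝ → ℕ → E → E} (hB : Blocks E W Φ Ψ) (hcor : VCor N E) {δ : ℝ}
    (hδ : 0 < δ) : ∃ A, VUnif N E δ A := by
  by_contra hno
  push Not at hno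
  -- data without solutions with the bound `k`
  have h1 : ∀ k : ℕ, ∃ f : E → En N, DifferentiableOn ℂ f (ball 0 1) ∧
      (∀ x ∈ ball (0 : E) 1, δ ≤ ‖f x‖ ∧ ‖f x‖ ≤ 1) ∧
      ∃ r : ℝ, 0 < r ∧ r < 1 ∧ ¬ VSol f (ball 0 r) k := by
    intro k
    have h2 := hno (k : ℝ)
    unfold VUnif at h2
    push Not at h2
    obtain ⟨f, hf, hfb, hns⟩ := h2
    refine ⟨f, hf, hfb, ?_⟩
    by_contra hall
    push Not at hall
    exact hns (vsol_of_smaller hf hall)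
  choose f hf hfb r hr0 hr1 hns using h1
  have h0 : (0 : E) ∈ ball (0 : E) 1 := mem_ball_self one_pos
  have hδ1 : δ ≤ 1 := (hfb 0 0 h0).1.trans (hfb 0 0 h0).2
  obtain ⟨η, hη⟩ : ∃ η : ℕ → ℝ, ∀ k, η k = δ / 16 * (1 / 2) ^ k := ⟨_, fun _ => rfl⟩
  have hηpos : ∀ k, 0 < η k := fun k => by rw [hη]; positivity
  have hηle : ∀ k, η k ≤ 1 / 16 := by
    intro k
    rw [hη]
    have h3 : ((1 : ℝ) / 2) ^ k ≤ 1 := pow_le_one₀ (by norm_num) (by norm_num)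
    have h4 : (0 : ℝ) ≤ (1 / 2) ^ k := by positivity
    nlinarith
  have hηsum : HasSum η (δ / 8) := by
    have h3 := (hasSum_geometric_two).mul_left (δ / 16)
    have h4 : δ / 16 * 2 = δ / 8 := by ring
    rw [h4] at h3
    exact h3.congr_fun fun k => by rw [hη]
  -- a subsequence with convergent values at zero
  obtain ⟨c₀, -, φ, hφ, hφt⟩ := (isCompact_closedBall (0 : En N) 1).tendsto_subseq
    (x := fun k => f k 0) (fun k => mem_closedBall_zero_iff.2 (hfb k 0 h0).2)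
  obtain ⟨ψ, hψ, hψη⟩ := extraction_forall_of_eventually (P := fun n k => ‖f (φ k) 0 - c₀‖ ≤ η n)
    (fun n => by
      have h3 := (tendsto_iff_norm_sub_tendsto_zero.1 hφt).eventually (Iio_mem_nhds (hηpos n))
      filter_upwards [h3] with k hk
      exact le_of_lt hk)
  obtain ⟨χ, hχ⟩ : ∃ χ : ℕ → ℕ, χ = fun k => φ (ψ k) := ⟨_, rfl⟩
  have hχm : StrictMono χ := by
    rw [hχ]
    exact hφ.comp hψ
  have hc : ∀ k, ‖f (χ k) 0 - c₀‖ ≤ η k := by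
    intro k
    rw [hχ]
    exact hψη k
  obtain ⟨a, ha⟩ : ∃ a : ℕ → ℝ, ∀ k, a k = min (η k / 2) (1 - r (χ k)) := ⟨_, fun _ => rfl⟩
  have ha0 : ∀ k, 0 < a k := fun k => by
    rw [ha]
    exact lt_min (half_pos (hηpos k)) (sub_pos.2 (hr1 _))
  have haη : ∀ k, 2 * a k ≤ η k := fun k => by
    have := min_le_left (η k / 2) (1 - r (χ k))
    rw [← ha] at this
    linarith
  have har : ∀ k, r (χ k) ≤ 1 - a k := fun k => by
    have := min_le_right (η k / 2) (1 - r (χ k))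
    rw [← ha] at this
    linarith
  have ha1 : ∀ k, a k < 1 := fun k => by
    have h3 := haη k
    have h4 := hηle k
    linarith
  -- Schwarz
  have hs : ∀ (k : ℕ) (x : E), x ∈ ball (0 : E) 1 →
      ‖f (χ k) (Φ (a k) k x) - f (χ k) 0‖ ≤ 2 * ‖Φ (a k) k x‖ := fun k x hx =>
    schwarz (hf _) (fun y hy => (hfb _ y hy).2) (hB.memΦ _ _ (ha0 k) (ha1 k) x hx)
  obtain ⟨M, K, hMK⟩ := solv_slab hcor (W := W) hB.bdd (g := fun k x => f (χ k) (Φ (a k) k x))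
    (c := fun k => f (χ k) 0) (c₀ := c₀) (η := η) (η₀ := δ / 8) (δ := δ)
    (fun k => (hf _).comp (hB.diffΦ _ _ (ha0 k) (ha1 k)) (hB.memΦ _ _ (ha0 k) (ha1 k)))
    (fun k x hx => hfb _ _ (hB.memΦ _ _ (ha0 k) (ha1 k) x hx))
    (fun k => (hηpos k).le) hηsum (by linarith) hc (fun k => (hfb _ 0 h0).1)
    (fun k x hx hW => by
      refine (hs k x hx).trans ?_
      have h3 := hB.off (a k) k (ha0 k) (ha1 k) x hx hW
      have h4 := haη k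
      linarith)
    (fun k τ hτ => by
      obtain ⟨R, hR⟩ := hB.inf (a k) k (ha0 k) (ha1 k) (τ / 2) (half_pos hτ)
      refine ⟨R, fun x hx hx2 => (hs k x hx).trans ?_⟩
      have h3 := hR x hx hx2
      linarith)
  obtain ⟨k, hkM⟩ := exists_nat_ge M
  obtain ⟨m, hm⟩ : ∃ m, m = max K k := ⟨_, rfl⟩
  have hmK : K ≤ m := hm ▸ le_max_left _ _
  have hmM : M ≤ (χ m : ℝ) := by
    refine hkM.trans ?_
    have h3 : k ≤ χ m := (hm ▸ le_max_right K k : k ≤ m).trans (hχm.le_apply)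
    exact_mod_cast h3
  obtain ⟨h, hh, hhs⟩ := hMK m hmK
  refine hns (χ m) ?_
  have hpos : 0 < 1 - a m := sub_pos.2 (ha1 m)
  have hposC : ((1 - a m : ℝ) : ℂ) ≠ 0 := Complex.ofReal_ne_zero.2 hpos.ne'
  have hsc : ∀ y ∈ ball (0 : E) (1 - a m), (((1 - a m : ℝ) : ℂ)⁻¹) • y ∈ ball (0 : E) 1 := by
    intro y hy
    rw [mem_ball_zero_iff] at hy ⊢
    rw [norm_smul, norm_inv, Complex.norm_real, Real.norm_of_nonneg hpos.le, inv_mul_lt_iff₀ hpos,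
      mul_one]
    exact hy
  have hsol : VSol (f (χ m)) (ball 0 (1 - a m)) M := by
    refine ⟨fun y => h (Ψ (a m) m ((((1 - a m : ℝ) : ℂ)⁻¹) • y)), ?_, fun y hy => ?_⟩
    · refine hh.comp ((hB.diffΨ _ _ (ha0 m) (ha1 m)).comp
        (differentiable_id.const_smul (((1 - a m : ℝ) : ℂ)⁻¹)).differentiableOn hsc) ?_
      intro y hy
      exact ⟨hB.memΨ _ _ (ha0 m) (ha1 m) _ (hsc y hy), hB.slab _ _ (ha0 m) (ha1 m) _ (hsc y hy)⟩
    · have h3 := hhs (Ψ (a m) m ((((1 - a m : ℝ) : ℂ)⁻¹) • y))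
        ⟨hB.memΨ _ _ (ha0 m) (ha1 m) _ (hsc y hy), hB.slab _ _ (ha0 m) (ha1 m) _ (hsc y hy)⟩
      have h4 := hB.inv (a m) m (ha0 m) (ha1 m) _ (hsc y hy)
      rw [smul_smul, mul_inv_cancel₀ hposC, one_smul] at h4
      simp only [h4] at h3
      exact h3
  exact hsol.mono (ball_subset_ball (har m)) hmM

/-- PROOF. Scale by a constant. -/
theorem cor_of_unif (h : ∀ δ > 0, ∃ A, VUnif N E δ A) : VCor N E := by
  rintro f hf ⟨C, hC⟩ ⟨δ, hδ, hδf⟩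
  obtain ⟨D, hD⟩ : ∃ D : ℝ, D = max C 1 := ⟨_, rfl⟩
  have hD0 : 0 < D := hD ▸ lt_of_lt_of_le one_pos (le_max_right C 1)
  have hCD : C ≤ D := hD ▸ le_max_left C 1
  obtain ⟨A, hA⟩ := h (δ / D) (div_pos hδ hD0)
  have hn : ∀ x, ‖((D⁻¹ : ℝ) : ℂ) • f x‖ = ‖f x‖ / D := fun x => by
    rw [norm_smul, Complex.norm_real, Real.norm_of_nonneg (inv_nonneg.2 hD0.le), div_eq_inv_mul]
  obtain ⟨k, hk, hks⟩ := hA (fun x => ((D⁻¹ : ℝ) : ℂ) • f x) (hf.const_smul ((D⁻¹ : ℝ) : ℂ) :) (fun x hx => by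
    rw [hn]
    exact ⟨div_le_div_of_nonneg_right (hδf x hx) hD0.le, (div_le_one hD0).2 ((hC x hx).trans hCD)⟩)
  refine ⟨D⁻¹ * A, fun x => ((D⁻¹ : ℝ) : ℂ) • k x, (hk.const_smul ((D⁻¹ : ℝ) : ℂ) :),
    fun x hx => ⟨?_, ?_⟩⟩
  · rw [← (hks x hx).1]
    refine Finset.sum_congr rfl fun j _ => ?_
    simp only [PiLp.smul_apply, smul_eq_mul]
    ring
  · rw [norm_smul, Complex.norm_real, Real.norm_of_nonneg (inv_nonneg.2 hD0.le)]
    exact mul_le_mul_of_nonneg_left (hks x hx).2 (inv_nonneg.2 hD0.le)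

end Pool.Agent.MPca0fc2.FP
end
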