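import Mathlib
import Pool.Agent.Lib.MP_ca0fc2_an.LS.F
import Pool.Agent.Lib.MP_ca0fc2_an.SGHDefs

section

/-! Campaign OV (omitted values): the definitions. -/

set_option autoImplicit false

open Metric Set MeasureTheory Filter Topology

namespace Pool.Agent.MPca0fc2.OV

/-- compact sets of positive logarithmic capacity: `K` carries a probability measure whose logarithmic
potential is bounded from below off `K` -/
def PosCap (K : Set ℂ) : Prop :=
  IsCompact K ∧ ∃ (μ : Measure ℂ) (B : ℝ), IsProbabilityMeasure μ ∧ μ Kᶜ = 0 ∧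
    ∀ t ∉ K, -B ≤ ∫ a, Real.log ‖t - a‖ ∂μ

/-- the disc automorphism `ζ ↦ (a - ζ) / (1 - ā ζ)` -/
noncomputable def mob (a ζ : ℂ) : ℂ := (a - ζ) / (1 - (starRingEnd ℂ) a * ζ)

/-- the point `2 b / (1 + |b|²)` -/
noncomputable def nu (b : ℂ) : ℂ := 2 * b / ((1 + ‖b‖ ^ 2 : ℝ) : ℂ)

/-- `x - a y` is not small, for all `a` in `K` -/
def Away (K : Set ℂ) (η : ℝ) (x y : ℂ) : Prop :=
  0 < ‖x‖ + ‖y‖ ∧ ∀ a ∈ K, η * (‖x‖ + ‖y‖) ≤ ‖x - a * y‖

/-- the homogeneous Bezout equation `x u + y v = 1` on `V`, `|u|, |v| ≤ C / (|x| + |y|)` -/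
def Pair {E : Type*} [NormedAddCommGroup E] [NormedSpace ℂ E] (V : Set E) (x y : E → ℂ) (C : ℝ) :
    Prop :=
  ∃ u v : E → ℂ, DifferentiableOn ℂ u V ∧ DifferentiableOn ℂ v V ∧
    (∀ z ∈ V, x z * u z + y z * v z = 1) ∧
    ∀ z ∈ V, ‖u z‖ * (‖x z‖ + ‖y z‖) ≤ C ∧ ‖v z‖ * (‖x z‖ + ‖y z‖) ≤ C

end Pool.Agent.MPca0fc2.OV
end

section

/-! Campaign OV, row H1: cells over the points of the spectrum. -/

set_option autoImplicit false

open Metric Set MeasureTheory Filter Topology
open Pool.Agent.Lib.MP_ca0fc2_an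
open Pool.Agent.MPca0fc2.LS (fib exists_cell)

namespace Pool.Agent.MPca0fc2.OV

section general

variable {X : Type*} [PseudoMetricSpace X] {D : Set X} {p : X} {T : Set (X → ℂ)}
  {U : Ultrafilter X}

theorem fib_le_nhds : fib D p T U ≤ 𝓝[D] p := inf_le_left

theorem preimage_mem_fib {u : X → ℂ} (hu : u ∈ T) {c : ℂ} (hc : Tendsto u U (𝓝 c)) {s : Set ℂ}
    (hs : s ∈ 𝓝 c) : u ⁻¹' s ∈ fib D p T U := by
  refine (inf_le_right (a := 𝓝[D] p) : fib D p T U ≤ _) ?_
  exact mem_iInf_of_mem ⟨(u, c), hu, hc⟩ (preimage_mem_comap hs)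

/-- the cells belong to the filter -/
theorem cell_mem_fib {m : ℕ} {u : Fin m → X → ℂ} {c : Fin m → ℂ} {ε : ℝ} (hε : 0 < ε)
    (hu : ∀ i, u i ∈ T) (hc : ∀ i, Tendsto (u i) U (𝓝 (c i))) :
    {z | z ∈ D ∩ ball p ε ∧ ∀ i, ‖u i z - c i‖ < ε} ∈ fib D p T U := by
  have h1 : D ∩ ball p ε ∈ fib D p T U :=
    fib_le_nhds (inter_mem_nhdsWithin D (ball_mem_nhds p hε))
  have h2 : ∀ i, {z | ‖u i z - c i‖ < ε} ∈ fib D p T U := fun i => by
    have h3 := preimage_mem_fib (D := D) (p := p) (hu i) (hc i) (ball_mem_nhds (c i) hε)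
    refine mem_of_superset h3 fun z hz => ?_
    have h4 : dist (u i z) (c i) < ε := hz
    rwa [dist_eq_norm] at h4
  have h3 : (⋂ i, {z | ‖u i z - c i‖ < ε}) ∈ fib D p T U := iInter_mem.2 h2
  refine mem_of_superset (inter_mem h1 h3) fun z hz => ⟨hz.1, fun i => ?_⟩
  exact mem_iInter.1 hz.2 i

end general

end Pool.Agent.MPca0fc2.OV
end

section

/-! Campaign OV: polynomials in the data. -/

set_option autoImplicit false

open Metric Set Filter Topology

namespace Pool.Agent.MPca0fc2.OV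

section

variable {E : Type*} [NormedAddCommGroup E] [NormedSpace ℂ E]

/-- bounded holomorphic functions -/
def HB (W : Set E) (g : E → ℂ) : Prop := DifferentiableOn ℂ g W ∧ ∃ B : ℝ, ∀ y ∈ W, ‖g y‖ ≤ B

variable {W : Set E} {f g : E → ℂ}

theorem HB.const (W : Set E) (c : ℂ) : HB W fun _ => c :=
  ⟨differentiableOn_const c, ‖c‖, fun _ _ => le_rfl⟩

theorem HB.add (hf : HB W f) (hg : HB W g) : HB W fun y => f y + g y := by
  obtain ⟨h1, A, hA⟩ := hf
  obtain ⟨h2, B, hB⟩ := hg
  exact ⟨h1.add h2, A + B, fun y hy => (norm_add_le _ _).trans (add_le_add (hA y hy) (hB y hy))⟩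

theorem HB.mul (hf : HB W f) (hg : HB W g) : HB W fun y => f y * g y := by
  obtain ⟨h1, A, hA⟩ := hf
  obtain ⟨h2, B, hB⟩ := hg
  refine ⟨h1.mul h2, A * B, fun y hy => ?_⟩
  rw [norm_mul]
  exact mul_le_mul (hA y hy) (hB y hy) (norm_nonneg _) ((norm_nonneg _).trans (hA y hy))

theorem HB.sub (hf : HB W f) (hg : HB W g) : HB W fun y => f y - g y := by
  obtain ⟨h1, A, hA⟩ := hf
  obtain ⟨h2, B, hB⟩ := hg
  exact ⟨h1.sub h2, A + B, fun y hy => (norm_sub_le _ _).trans (add_le_add (hA y hy) (hB y hy))⟩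

theorem HB.inv (hf : HB W f) {ε : ℝ} (hε : 0 < ε) (h : ∀ y ∈ W, ε ≤ ‖f y‖) :
    HB W fun y => (f y)⁻¹ := by
  refine ⟨hf.1.inv fun y hy h0 => ?_, ε⁻¹, fun y hy => ?_⟩
  · have h1 := h y hy
    rw [h0, norm_zero] at h1
    linarith
  · rw [norm_inv]
    exact inv_anti₀ hε (h y hy)

theorem HB.sum {ι : Type*} (s : Finset ι) {F : ι → E → ℂ} (h : ∀ i ∈ s, HB W (F i)) :
    HB W fun y => ∑ i ∈ s, F i y := by
  classical
  induction s using Finset.induction_on with
  | empty => simpa using HB.const W 0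
  | insert a s ha ih =>
    simp only [Finset.sum_insert ha]
    exact (h a (Finset.mem_insert_self a s)).add (ih fun i hi => h i (Finset.mem_insert_of_mem hi))

theorem HB.poly {N : ℕ} {f : Fin N → E → ℂ} (hf : ∀ j, HB W (f j))
    (P : MvPolynomial (Fin N) ℂ) : HB W fun z => MvPolynomial.eval (fun j => f j z) P := by
  induction P using MvPolynomial.induction_on with
  | C a =>
    simp only [MvPolynomial.eval_C]
    exact HB.const W a
  | add p q hp hq =>
    simp only [map_add]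
    exact hp.add hq
  | mul_X p i hp =>
    simp only [map_mul, MvPolynomial.eval_X]
    exact hp.mul (hf i)

end

section algebra

variable {N : ℕ}

/-- a polynomial without constant term is in the ideal of the coordinates -/
theorem coord_split (P : MvPolynomial (Fin N) ℂ) :
    ∃ A : Fin N → MvPolynomial (Fin N) ℂ, ∀ x : Fin N → ℂ,
      MvPolynomial.eval x P = MvPolynomial.eval 0 P + ∑ j, x j * MvPolynomial.eval x (A j) := by
  induction P using MvPolynomial.induction_on with
  | C a => exact ⟨fun _ => 0, fun x => by simp⟩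
  | add p q hp hq =>
    obtain ⟨A, hA⟩ := hp
    obtain ⟨B, hB⟩ := hq
    refine ⟨fun j => A j + B j, fun x => ?_⟩
    simp only [map_add, mul_add, Finset.sum_add_distrib]
    rw [hA x, hB x]
    ring
  | mul_X p i hp =>
    refine ⟨fun j => if j = i then p else 0, fun x => ?_⟩
    have h : ∑ j, x j * MvPolynomial.eval x (if j = i then p else 0) =
        x i * MvPolynomial.eval x p := by
      rw [Finset.sum_eq_single i]
      · simp
      · intro j _ hj
        simp [hj]
      · simp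
    rw [h]
    simp [mul_comm]

/-- a polynomial which is one at the origin and zero at the other points of a finite set -/
theorem exists_sep (S : Finset (Fin N → ℂ)) : ∃ e : MvPolynomial (Fin N) ℂ,
    MvPolynomial.eval 0 e = 1 ∧ ∀ s ∈ S, s ≠ 0 → MvPolynomial.eval s e = 0 := by
  classical
  induction S using Finset.induction_on with
  | empty => exact ⟨1, by simp, fun s hs => absurd hs (Finset.notMem_empty s)⟩
  | insert a S ha ih =>
    obtain ⟨e, he0, he⟩ := ih
    by_cases h0 : a = 0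
    · refine ⟨e, he0, fun s hs hs0 => ?_⟩
      rcases Finset.mem_insert.1 hs with h | h
      · exact absurd (h.trans h0) hs0
      · exact he s h hs0
    · obtain ⟨l, hl⟩ := Function.ne_iff.1 h0
      rw [Pi.zero_apply] at hl
      refine ⟨e * (1 - MvPolynomial.C (a l)⁻¹ * MvPolynomial.X l), ?_, fun s hs hs0 => ?_⟩
      · rw [map_mul, he0]
        simp
      · rw [map_mul]
        rcases Finset.mem_insert.1 hs with h | h
        · have : MvPolynomial.eval s (1 - MvPolynomial.C (a l)⁻¹ * MvPolynomial.X l) = 0 := by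
            rw [h]
            simp only [map_sub, map_one, map_mul, MvPolynomial.eval_C, MvPolynomial.eval_X]
            rw [inv_mul_cancel₀ hl, sub_self]
          rw [this, mul_zero]
        · rw [he s h hs0, zero_mul]

/-- the idempotent of the origin modulo polynomials with finitely many common zeros -/
theorem exists_idem {ι : Type*} [Fintype ι] (P : ι → MvPolynomial (Fin N) ℂ)
    (hfin : {x : Fin N → ℂ | ∀ i, MvPolynomial.eval x (P i) = 0}.Finite) :
    ∃ (U : MvPolynomial (Fin N) ℂ) (A : ι → MvPolynomial (Fin N) ℂ),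
      MvPolynomial.eval 0 U = 1 ∧
      (∀ x : Fin N → ℂ, (∀ i, MvPolynomial.eval x (P i) = 0) → x ≠ 0 →
        MvPolynomial.eval x U = 0) ∧ U * (1 - U) = ∑ i, A i * P i := by
  classical
  obtain ⟨e, he0, he⟩ := exists_sep hfin.toFinset
  have hv : e * (1 - e) ∈ MvPolynomial.vanishingIdeal ℂ
      (MvPolynomial.zeroLocus ℂ (Ideal.span (Set.range P))) := by
    rw [MvPolynomial.mem_vanishingIdeal_iff]
    intro x hx
    rw [MvPolynomial.mem_zeroLocus_iff] at hx
    have h1 : ∀ i, MvPolynomial.eval x (P i) = 0 := by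
      intro i
      have h2 := hx (P i) (Ideal.subset_span ⟨i, rfl⟩)
      exact (DFunLike.congr_fun (MvPolynomial.coe_aeval_eq_eval x) (P i)).symm.trans h2
    refine (DFunLike.congr_fun (MvPolynomial.coe_aeval_eq_eval x) (e * (1 - e))).trans ?_
    rw [map_mul, map_sub, map_one]
    by_cases hx0 : x = 0
    · rw [hx0, he0, sub_self, mul_zero]
    · rw [he x (hfin.mem_toFinset.2 h1) hx0, zero_mul]
  rw [MvPolynomial.vanishingIdeal_zeroLocus_eq_radical] at hv
  obtain ⟨M, hM⟩ := hv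
  have hM1 : (e * (1 - e)) ^ (M + 1) ∈ Ideal.span (Set.range P) := by
    rw [pow_succ]
    exact Ideal.mul_mem_right _ _ hM
  obtain ⟨U, hU⟩ : ∃ U : MvPolynomial (Fin N) ℂ, U = 1 - (1 - e ^ (M + 1)) ^ (M + 1) := ⟨_, rfl⟩
  have h1 : e ^ (M + 1) ∣ U := by
    have h := sub_dvd_pow_sub_pow 1 (1 - e ^ (M + 1)) (M + 1)
    rwa [one_pow, sub_sub_cancel, ← hU] at h
  have h2 : (1 - e) ^ (M + 1) ∣ 1 - U := by
    have h := sub_dvd_pow_sub_pow 1 e (M + 1)
    rw [one_pow] at h
    have h' := pow_dvd_pow_of_dvd h (M + 1)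
    rwa [hU, sub_sub_cancel]
  have h3 : U * (1 - U) ∈ Ideal.span (Set.range P) := by
    have h := mul_dvd_mul h1 h2
    rw [← mul_pow] at h
    exact Ideal.mem_of_dvd _ h hM1
  rw [Ideal.mem_span_range_iff_exists_fun] at h3
  obtain ⟨A, hA⟩ := h3
  refine ⟨U, A, ?_, fun x hx hx0 => ?_, hA.symm⟩
  · rw [hU, map_sub, map_one, map_pow, map_sub, map_one, map_pow, he0, one_pow, sub_self,
      zero_pow (Nat.succ_ne_zero M), sub_zero]
  · rw [hU, map_sub, map_one, map_pow, map_sub, map_one, map_pow,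
      he x (hfin.mem_toFinset.2 hx) hx0, zero_pow (Nat.succ_ne_zero M), sub_zero, one_pow, sub_self]

end algebra

/-- the small solution of `r (1 - r) = t` -/
noncomputable def rt (t : ℂ) : ℂ := (1 - (1 - 4 * t) ^ (2⁻¹ : ℂ)) / 2

theorem rt_eq (t : ℂ) : rt t * (1 - rt t) = t := by
  have h : ((1 - 4 * t) ^ (2⁻¹ : ℂ)) ^ 2 = 1 - 4 * t := by
    have := Complex.cpow_nat_inv_pow (1 - 4 * t) (two_ne_zero)
    exact_mod_cast this
  unfold rt
  linear_combination (-1 / 4) * h

theorem rt_den (t : ℂ) : 1 / 2 ≤ ‖1 - rt t‖ := by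
  have h : 0 ≤ ((1 - 4 * t) ^ (2⁻¹ : ℂ)).re := by
    rw [Complex.cpow_inv_two_re]
    exact Real.sqrt_nonneg _
  have h1 : 1 / 2 ≤ (1 - rt t).re := by
    unfold rt
    have : (1 - (1 - (1 - 4 * t) ^ (2⁻¹ : ℂ)) / 2).re =
        1 / 2 + ((1 - 4 * t) ^ (2⁻¹ : ℂ)).re / 2 := by
      simp only [Complex.sub_re, Complex.one_re, Complex.div_ofNat_re]
      ring
    rw [this]
    linarith
  exact h1.trans (Complex.re_le_norm _)

theorem rt_bound (t : ℂ) : ‖rt t‖ ≤ 2 * ‖t‖ := by
  have h1 := rt_den t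
  have h2 : ‖rt t‖ * ‖1 - rt t‖ = ‖t‖ := by rw [← norm_mul, rt_eq]
  nlinarith [norm_nonneg (rt t)]

theorem rt_diff {t : ℂ} (ht : ‖t‖ < 1 / 4) : DifferentiableAt ℂ rt t := by
  have h0 : (1 - 4 * t) ∈ Complex.slitPlane := by
    left
    have h1 : (4 * t).re ≤ ‖4 * t‖ := Complex.re_le_norm _
    rw [norm_mul] at h1
    have h2 : ‖(4 : ℂ)‖ = 4 := by simp
    rw [h2] at h1
    rw [Complex.sub_re, Complex.one_re]
    linarith
  have h2 : DifferentiableAt ℂ (fun t : ℂ => (1 - 4 * t) ^ (2⁻¹ : ℂ)) t := by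
    refine DifferentiableAt.cpow ?_ (differentiableAt_const _) h0
    fun_prop
  unfold rt
  exact ((differentiableAt_const _).sub h2).div_const 2

section main

/-- **Polynomials in the data.** `P i`, `R j` polynomials without constant term with finitely many
common zeros. If the functions `R j (f)` are small on `C` and division by the functions `P i (f)` is
possible on `C` (or there is only one of them), then `f` has bounded solutions on `C`. -/
theorem poly_core {N : ℕ} {ι τ : Type} [Fintype ι] [Fintype τ] (P : ι → MvPolynomial (Fin N) ℂ)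
    (R : τ → MvPolynomial (Fin N) ℂ) (hP0 : ∀ i, MvPolynomial.eval 0 (P i) = 0)
    (hR0 : ∀ j, MvPolynomial.eval 0 (R j) = 0)
    (hfin : {x : Fin N → ℂ | (∀ i, MvPolynomial.eval x (P i) = 0) ∧
      ∀ j, MvPolynomial.eval x (R j) = 0}.Finite) {δ : ℝ} (hδ : 0 < δ) (M : ℝ) :
    ∃ ε > 0, ∀ (E : Type) [NormedAddCommGroup E] [NormedSpace ℂ E] (C : Set E)
      (f : Fin N → E → ℂ), (∀ l, DifferentiableOn ℂ (f l) C) →
      (∀ l, ∀ z ∈ C, ‖f l z‖ ≤ M) → (∀ z ∈ C, ∃ l, δ ≤ ‖f l z‖) →
      (∀ j, ∀ z ∈ C, ‖MvPolynomial.eval (fun l => f l z) (R j)‖ ≤ ε) →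
      (Subsingleton ι ∨ ∀ (G : E → ℂ) (T : ℝ), 0 ≤ T → HB C G →
        (∀ z ∈ C, ‖G z‖ ≤ T * ∑ i, ‖MvPolynomial.eval (fun l => f l z) (P i)‖) →
        ∃ k : ι → E → ℂ, (∀ i, HB C (k i)) ∧
          ∀ z ∈ C, ∑ i, MvPolynomial.eval (fun l => f l z) (P i) * k i z = G z) →
      ∃ h : Fin N → E → ℂ, (∀ l, DifferentiableOn ℂ (h l) C) ∧
        (∃ B : ℝ, ∀ l, ∀ z ∈ C, ‖h l z‖ ≤ B) ∧ ∀ z ∈ C, ∑ l, f l z * h l z = 1 := by
  classical
  obtain ⟨U, A', hU1, hU0, hUA⟩ := exists_idem (ι := ι ⊕ τ) (Sum.elim P R) (by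
    refine hfin.subset fun x hx => ⟨fun i => hx (Sum.inl i), fun j => hx (Sum.inr j)⟩)
  obtain ⟨A, hA⟩ : ∃ A : ι → MvPolynomial (Fin N) ℂ, A = fun i => A' (Sum.inl i) := ⟨_, rfl⟩
  obtain ⟨B, hB⟩ : ∃ B : τ → MvPolynomial (Fin N) ℂ, B = fun j => A' (Sum.inr j) := ⟨_, rfl⟩
  have hUAB : ∀ x : Fin N → ℂ, MvPolynomial.eval x U * (1 - MvPolynomial.eval x U) =
      ∑ i, MvPolynomial.eval x (A i) * MvPolynomial.eval x (P i) +
        ∑ j, MvPolynomial.eval x (B j) * MvPolynomial.eval x (R j) := by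
    intro x
    have h := congrArg (MvPolynomial.eval x) hUA
    rw [Fintype.sum_sum_type] at h
    simp only [map_mul, map_sub, map_one, map_add, map_sum, Sum.elim_inl, Sum.elim_inr] at h
    rw [hA, hB]
    exact h
  have hcont : ∀ q : MvPolynomial (Fin N) ℂ, Continuous fun y : Fin N → ℂ =>
      ‖MvPolynomial.eval y q‖ := fun q => (MvPolynomial.continuous_eval q).norm
  -- bounds on the ball
  have hbd : ∀ q : MvPolynomial (Fin N) ℂ, ∃ b : ℝ, 0 ≤ b ∧ ∀ x : Fin N → ℂ, ‖x‖ ≤ |M| →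
      ‖MvPolynomial.eval x q‖ ≤ b := by
    intro q
    obtain ⟨b, hb⟩ := (isCompact_closedBall (0 : Fin N → ℂ) |M|).exists_bound_of_continuousOn
      (MvPolynomial.continuous_eval q).continuousOn
    exact ⟨|b|, abs_nonneg b, fun x hx => (hb x (mem_closedBall_zero_iff.2 hx)).trans
      (le_abs_self b)⟩
  choose bd hbd0 hbd using hbd
  -- the lower bound
  obtain ⟨κ, hκ, hκ1⟩ : ∃ κ > 0, ∀ x : Fin N → ℂ, ‖x‖ ≤ |M| → (∃ l, δ ≤ ‖x l‖) →
      1 / 2 ≤ ‖MvPolynomial.eval x U‖ →
      κ ≤ ∑ i, ‖MvPolynomial.eval x (P i)‖ + ∑ j, ‖MvPolynomial.eval x (R j)‖ := by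
    obtain ⟨K, hK⟩ : ∃ K : Set (Fin N → ℂ), K = (closedBall 0 |M| ∩ ⋃ l, {x | δ ≤ ‖x l‖}) ∩
      {x | 1 / 2 ≤ ‖MvPolynomial.eval x U‖} := ⟨_, rfl⟩
    have hKc : IsCompact K := by
      rw [hK]
      refine ((isCompact_closedBall _ _).inter_right (isClosed_iUnion_of_finite fun l => ?_)).inter_right
        (isClosed_le continuous_const (hcont U))
      exact isClosed_le continuous_const (continuous_apply l).norm
    have h2 : Continuous fun x : Fin N → ℂ =>
        ∑ i, ‖MvPolynomial.eval x (P i)‖ + ∑ j, ‖MvPolynomial.eval x (R j)‖ :=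
      (continuous_finsetSum _ fun i _ => hcont (P i)).add
        (continuous_finsetSum _ fun j _ => hcont (R j))
    have hpos : ∀ x ∈ K, 0 < ∑ i, ‖MvPolynomial.eval x (P i)‖ +
        ∑ j, ‖MvPolynomial.eval x (R j)‖ := by
      intro x hx
      rw [hK] at hx
      have ha : 0 ≤ ∑ i, ‖MvPolynomial.eval x (P i)‖ := Finset.sum_nonneg fun i _ => norm_nonneg _
      have hb : 0 ≤ ∑ j, ‖MvPolynomial.eval x (R j)‖ := Finset.sum_nonneg fun i _ => norm_nonneg _
      refine lt_of_le_of_ne (add_nonneg ha hb) fun h0 => ?_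
      have hP : ∀ i, MvPolynomial.eval x (P i) = 0 := fun i => by
        have h3 := (Finset.sum_eq_zero_iff_of_nonneg fun i _ => norm_nonneg
          (MvPolynomial.eval x (P i))).1 (by linarith) i (Finset.mem_univ i)
        exact norm_eq_zero.1 h3
      have hR : ∀ j, MvPolynomial.eval x (R j) = 0 := fun j => by
        have h3 := (Finset.sum_eq_zero_iff_of_nonneg fun i _ => norm_nonneg
          (MvPolynomial.eval x (R i))).1 (by linarith) j (Finset.mem_univ j)
        exact norm_eq_zero.1 h3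
      have hx0 : x ≠ 0 := by
        rintro rfl
        obtain ⟨l, hl⟩ := mem_iUnion.1 hx.1.2
        have hl' : δ ≤ ‖(0 : Fin N → ℂ) l‖ := hl
        rw [Pi.zero_apply, norm_zero] at hl'
        linarith
      have h4 := hU0 x (fun i => by rcases i with i | j; exacts [hP i, hR j]) hx0
      have h5 : 1 / 2 ≤ ‖MvPolynomial.eval x U‖ := hx.2
      rw [h4, norm_zero] at h5
      linarith
    rcases K.eq_empty_or_nonempty with he | hne
    · refine ⟨1, one_pos, fun x hx1 hx2 hx3 => ?_⟩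
      have : x ∈ K := by
        rw [hK]
        exact ⟨⟨mem_closedBall_zero_iff.2 hx1, mem_iUnion.2 hx2⟩, hx3⟩
      rw [he] at this
      exact absurd this (notMem_empty x)
    · obtain ⟨y, hy, hmin⟩ := hKc.exists_isMinOn hne h2.continuousOn
      refine ⟨_, hpos y hy, fun x hx1 hx2 hx3 => hmin ?_⟩
      rw [hK]
      exact ⟨⟨mem_closedBall_zero_iff.2 hx1, mem_iUnion.2 hx2⟩, hx3⟩
  -- the constants
  obtain ⟨b, hb⟩ : ∃ b : ℝ, b = ∑ j, bd (B j) := ⟨_, rfl⟩
  have hb0 : 0 ≤ b := by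
    rw [hb]
    exact Finset.sum_nonneg fun j _ => hbd0 _
  obtain ⟨ε, hε, hεb, hεκ⟩ : ∃ ε > 0, b * ε ≤ 1 / 16 ∧ (Fintype.card τ : ℝ) * ε ≤ κ / 2 := by
    obtain ⟨m, hm⟩ : ∃ m : ℕ, m = Fintype.card τ := ⟨_, rfl⟩
    rw [← hm]
    refine ⟨min (1 / (16 * (b + 1))) (κ / (2 * (m + 1))), by positivity, ?_, ?_⟩
    · calc b * min (1 / (16 * (b + 1))) (κ / (2 * (m + 1)))
          ≤ (b + 1) * (1 / (16 * (b + 1))) :=
            mul_le_mul (by linarith) (min_le_left _ _) (by positivity) (by positivity)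
        _ = 1 / 16 := by field_simp
    · calc (m : ℝ) * min (1 / (16 * (b + 1))) (κ / (2 * (m + 1)))
          ≤ (m + 1) * (κ / (2 * (m + 1))) :=
            mul_le_mul (by linarith) (min_le_right _ _) (by positivity) (by positivity)
        _ = κ / 2 := by field_simp
  refine ⟨ε, hε, fun E _ _ C f hf hfM hfδ hRε hg => ?_⟩
  have hfb : ∀ l, HB C (f l) := fun l => ⟨hf l, M, hfM l⟩
  have hpol : ∀ q : MvPolynomial (Fin N) ℂ, HB C fun z => MvPolynomial.eval (fun l => f l z) q :=
    fun q => HB.poly hfb q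
  have hxM : ∀ z ∈ C, ‖(fun l => f l z)‖ ≤ |M| := fun z hz =>
    (pi_norm_le_iff_of_nonneg (abs_nonneg M)).2 fun l => (hfM l z hz).trans (le_abs_self M)
  obtain ⟨c, hc⟩ : ∃ c : E → ℂ, c = fun z => ∑ j, MvPolynomial.eval (fun l => f l z) (B j) *
    MvPolynomial.eval (fun l => f l z) (R j) := ⟨_, rfl⟩
  have hcb : HB C c := by
    rw [hc]
    exact HB.sum _ fun j _ => (hpol (B j)).mul (hpol (R j))
  have hcs : ∀ z ∈ C, ‖c z‖ ≤ 1 / 16 := by
    intro z hz
    refine le_trans ?_ hεb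
    rw [hc, hb, Finset.sum_mul]
    refine (norm_sum_le _ _).trans (Finset.sum_le_sum fun j _ => ?_)
    rw [norm_mul]
    exact mul_le_mul (hbd _ _ (hxM z hz)) (hRε j z hz) (norm_nonneg _) (hbd0 _)
  obtain ⟨ρ, hρ⟩ : ∃ ρ : E → ℂ, ρ = fun z => rt (c z) := ⟨_, rfl⟩
  have hρs : ∀ z ∈ C, ‖ρ z‖ ≤ 1 / 8 := by
    intro z hz
    rw [hρ]
    have h1 := rt_bound (c z)
    have h2 := hcs z hz
    linarith
  have hρb : HB C ρ := by
    refine ⟨fun z hz => ?_, 1 / 8, hρs⟩
    have h2 := hcs z hz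
    rw [hρ]
    exact (rt_diff (show ‖c z‖ < 1 / 4 by linarith)).comp_differentiableWithinAt z (hcb.1 z hz)
  have hρe : ∀ z, ρ z * (1 - ρ z) = c z := fun z => by
    rw [hρ]
    exact rt_eq (c z)
  have hρd : ∀ z, 1 / 2 ≤ ‖1 - ρ z‖ := fun z => by
    rw [hρ]
    exact rt_den (c z)
  obtain ⟨u, hu⟩ : ∃ u : E → ℂ, u = fun z => MvPolynomial.eval (fun l => f l z) U := ⟨_, rfl⟩
  have hub : HB C u := by
    rw [hu]
    exact hpol U
  obtain ⟨G, hG⟩ : ∃ G : E → ℂ, G = fun z => u z - ρ z := ⟨_, rfl⟩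
  have hGb : HB C G := by
    rw [hG]
    exact hub.sub hρb
  have hGe : ∀ z, G z * (1 - ρ z - u z) = ∑ i, MvPolynomial.eval (fun l => f l z) (A i) *
      MvPolynomial.eval (fun l => f l z) (P i) := by
    intro z
    have h1 := hUAB fun l => f l z
    have h2 := hρe z
    rw [hc] at h2
    rw [hG]
    beta_reduce at h2 ⊢
    rw [hu]
    beta_reduce
    linear_combination h1 - h2
  have hlow : ∀ z ∈ C, ‖1 - ρ z - u z‖ < 1 / 4 →
      κ / 2 ≤ ∑ i, ‖MvPolynomial.eval (fun l => f l z) (P i)‖ := by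
    intro z hz hlt
    have h1 : 1 / 2 ≤ ‖u z‖ := by
      have h2 : ‖(1 : ℂ)‖ ≤ ‖1 - ρ z - u z‖ + ‖ρ z‖ + ‖u z‖ := by
        calc ‖(1 : ℂ)‖ = ‖(1 - ρ z - u z) + ρ z + u z‖ := by congr 1; ring
          _ ≤ _ := norm_add₃_le
      rw [norm_one] at h2
      have := hρs z hz
      linarith
    have h2 := hκ1 (fun l => f l z) (hxM z hz) (hfδ z hz) (by rw [hu] at h1; exact h1)
    have h3 : ∑ j, ‖MvPolynomial.eval (fun l => f l z) (R j)‖ ≤ (Fintype.card τ : ℝ) * ε := by
      refine (Finset.sum_le_sum fun j _ => hRε j z hz).trans ?_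
      simp
    linarith
  obtain ⟨D, hD⟩ := hGb.2
  have hD0 : ∀ z ∈ C, 0 ≤ D := fun z hz => (norm_nonneg _).trans (hD z hz)
  -- the bound of `G`
  obtain ⟨T, hT0, hT⟩ : ∃ T : ℝ, 0 ≤ T ∧ ∀ z ∈ C,
      ‖G z‖ ≤ T * ∑ i, ‖MvPolynomial.eval (fun l => f l z) (P i)‖ := by
    refine ⟨4 * ∑ i, bd (A i) + 2 * |D| / κ, add_nonneg (mul_nonneg (by norm_num)
      (Finset.sum_nonneg fun i _ => hbd0 _)) (by positivity), fun z hz => ?_⟩
    have hs0 : 0 ≤ ∑ i, ‖MvPolynomial.eval (fun l => f l z) (P i)‖ :=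
      Finset.sum_nonneg fun i _ => norm_nonneg _
    have ha0 : 0 ≤ ∑ i, bd (A i) := Finset.sum_nonneg fun i _ => hbd0 _
    by_cases hlt : ‖1 - ρ z - u z‖ < 1 / 4
    · have h1 := hlow z hz hlt
      have h2 : |D| ≤ 2 * |D| / κ * ∑ i, ‖MvPolynomial.eval (fun l => f l z) (P i)‖ := by
        calc |D| = 2 * |D| / κ * (κ / 2) := by field_simp
          _ ≤ _ := mul_le_mul_of_nonneg_left h1 (by positivity)
      have h3 : 0 ≤ 4 * ∑ i, bd (A i) * ∑ i, ‖MvPolynomial.eval (fun l => f l z) (P i)‖ := by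
        refine mul_nonneg (by norm_num) ?_
        exact Finset.sum_nonneg fun i _ => mul_nonneg (hbd0 _) hs0
      have h4 : 0 ≤ 4 * (∑ i, bd (A i)) * ∑ i, ‖MvPolynomial.eval (fun l => f l z) (P i)‖ := by
        positivity
      calc ‖G z‖ ≤ |D| := (hD z hz).trans (le_abs_self D)
        _ ≤ _ := h2
        _ ≤ _ := by rw [add_mul]; linarith
    · push Not at hlt
      have h1 := congrArg norm (hGe z)
      rw [norm_mul] at h1
      have h2 : ‖∑ i, MvPolynomial.eval (fun l => f l z) (A i) *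
          MvPolynomial.eval (fun l => f l z) (P i)‖ ≤
          (∑ i, bd (A i)) * ∑ i, ‖MvPolynomial.eval (fun l => f l z) (P i)‖ := by
        rw [Finset.sum_mul]
        refine (norm_sum_le _ _).trans (Finset.sum_le_sum fun i _ => ?_)
        rw [norm_mul]
        exact mul_le_mul (hbd _ _ (hxM z hz)) (Finset.single_le_sum
          (f := fun i => ‖MvPolynomial.eval (fun l => f l z) (P i)‖)
          (fun _ _ => norm_nonneg _) (Finset.mem_univ i)) (norm_nonneg _) (hbd0 _)
      have h3 : ‖G z‖ * (1 / 4) ≤ ‖G z‖ * ‖1 - ρ z - u z‖ :=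
        mul_le_mul_of_nonneg_left hlt (norm_nonneg _)
      have h4 : 0 ≤ 2 * |D| / κ * ∑ i, ‖MvPolynomial.eval (fun l => f l z) (P i)‖ := by
        positivity
      rw [add_mul]
      linarith
  -- `G` as a combination of the `P i (f)`
  obtain ⟨k, hk, hkG⟩ : ∃ k : ι → E → ℂ, (∀ i, HB C (k i)) ∧ ∀ z ∈ C,
      ∑ i, MvPolynomial.eval (fun l => f l z) (P i) * k i z = G z := by
    rcases hg with hr | hdiv
    · rcases isEmpty_or_nonempty ι with h0 | ⟨⟨i0⟩⟩
      · refine ⟨fun i => isEmptyElim i, fun i => isEmptyElim i, fun z hz => ?_⟩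
        have h1 := hT z hz
        simp only [Finset.univ_eq_empty, Finset.sum_empty, mul_zero] at h1 ⊢
        exact (norm_le_zero_iff.1 h1).symm
      · have hsum : ∀ F : ι → ℂ, ∑ i, F i = F i0 := fun F => Fintype.sum_subsingleton F i0
        have hsum' : ∀ F : ι → ℝ, ∑ i, F i = F i0 := fun F => Fintype.sum_subsingleton F i0
        simp only [hsum, hsum'] at hGe hlow ⊢
        obtain ⟨p, hp⟩ : ∃ p : E → ℂ, p = fun z => MvPolynomial.eval (fun l => f l z) (P i0) :=
          ⟨_, rfl⟩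
        obtain ⟨a, ha⟩ : ∃ a : E → ℂ, a = fun z => MvPolynomial.eval (fun l => f l z) (A i0) :=
          ⟨_, rfl⟩
        have hpb : HB C p := by rw [hp]; exact hpol _
        have hab : HB C a := by rw [ha]; exact hpol _
        have hGe' : ∀ z, G z * (1 - ρ z - u z) = a z * p z := by
          intro z
          rw [ha, hp]
          exact hGe z
        have hlow' : ∀ z ∈ C, ‖1 - ρ z - u z‖ < 1 / 4 → κ / 2 ≤ ‖p z‖ := by
          intro z hz h
          rw [hp]
          exact hlow z hz h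
        have hdb : HB C fun z => 1 - ρ z - u z := ((HB.const C 1).sub hρb).sub hub
        obtain ⟨q, hq⟩ : ∃ q : E → ℂ, q = fun z => if ‖1 - ρ z - u z‖ < 1 / 8 then G z / p z
          else a z / (1 - ρ z - u z) := ⟨_, rfl⟩
        have hq1 : ∀ z ∈ C, ‖1 - ρ z - u z‖ < 1 / 4 → q z = G z / p z := by
          intro z hz h
          have hp0 : p z ≠ 0 := fun h0 => by
            have := hlow' z hz h
            rw [h0, norm_zero] at this
            linarith
          rw [hq]
          beta_reduce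
          split_ifs with h8
          · rfl
          · have hd0 : 1 - ρ z - u z ≠ 0 := fun h0 => by
              rw [h0, norm_zero] at h8
              exact h8 (by norm_num)
            rw [div_eq_div_iff hd0 hp0, hGe' z]
        have hq2 : ∀ z ∈ C, 1 / 8 ≤ ‖1 - ρ z - u z‖ → q z = a z / (1 - ρ z - u z) := by
          intro z _ h
          rw [hq]
          beta_reduce
          rw [if_neg (not_lt.2 h)]
        have hqd : DifferentiableOn ℂ q C := by
          intro z hz
          have hcn : ContinuousWithinAt (fun z => ‖1 - ρ z - u z‖) C z :=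
            (hdb.1 z hz).continuousWithinAt.norm
          by_cases h : ‖1 - ρ z - u z‖ < 1 / 4
          · have hp0 : p z ≠ 0 := fun h0 => by
              have := hlow' z hz h
              rw [h0, norm_zero] at this
              linarith
            have h1 : DifferentiableWithinAt ℂ (fun z => G z * (p z)⁻¹) C z :=
              (hGb.1 z hz).mul ((hpb.1 z hz).inv hp0)
            refine h1.congr_of_eventuallyEq ?_ (by rw [hq1 z hz h, div_eq_mul_inv])
            filter_upwards [self_mem_nhdsWithin, hcn.eventually (gt_mem_nhds h)] with x hx hx'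
            rw [hq1 x hx hx', div_eq_mul_inv]
          · push Not at h
            have hd0 : 1 - ρ z - u z ≠ 0 := fun h0 => by
              rw [h0, norm_zero] at h
              linarith
            have h1 : DifferentiableWithinAt ℂ (fun z => a z * (1 - ρ z - u z)⁻¹) C z :=
              (hab.1 z hz).mul ((hdb.1 z hz).inv hd0)
            refine h1.congr_of_eventuallyEq ?_ (by rw [hq2 z hz (by linarith), div_eq_mul_inv])
            filter_upwards [self_mem_nhdsWithin, hcn.eventually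
              (lt_mem_nhds (show 1 / 8 < ‖1 - ρ z - u z‖ by linarith))] with x hx hx'
            rw [hq2 x hx hx'.le, div_eq_mul_inv]
        obtain ⟨a', ha'⟩ := hab.2
        refine ⟨fun _ => q, fun _ => ⟨hqd, 2 * |D| / κ + 4 * |a'|, fun z hz => ?_⟩,
          fun z hz => ?_⟩
        · show ‖q z‖ ≤ _
          by_cases h : ‖1 - ρ z - u z‖ < 1 / 4
          · rw [hq1 z hz h, norm_div]
            have h1 := hlow' z hz h
            have h2 : ‖G z‖ / ‖p z‖ ≤ |D| / (κ / 2) :=
              div_le_div₀ (abs_nonneg D) ((hD z hz).trans (le_abs_self D)) (by positivity) h1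
            have h3 : |D| / (κ / 2) = 2 * |D| / κ := by field_simp
            have h4 : 0 ≤ |a'| := abs_nonneg _
            linarith
          · push Not at h
            rw [hq2 z hz (by linarith), norm_div]
            have h2 : ‖a z‖ / ‖1 - ρ z - u z‖ ≤ |a'| / (1 / 4) :=
              div_le_div₀ (abs_nonneg a') ((ha' z hz).trans (le_abs_self a')) (by norm_num) h
            have h3 : |a'| / (1 / 4) = 4 * |a'| := by ring
            have h4 : 0 ≤ 2 * |D| / κ := by positivity
            linarith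
        · show MvPolynomial.eval (fun l => f l z) (P i0) * q z = G z
          have hpz : MvPolynomial.eval (fun l => f l z) (P i0) = p z := by rw [hp]
          rw [hpz]
          by_cases h : ‖1 - ρ z - u z‖ < 1 / 4
          · have hp0 : p z ≠ 0 := fun h0 => by
              have := hlow' z hz h
              rw [h0, norm_zero] at this
              linarith
            rw [hq1 z hz h]
            exact mul_div_cancel₀ _ hp0
          · push Not at h
            have hd0 : 1 - ρ z - u z ≠ 0 := fun h0 => by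
              rw [h0, norm_zero] at h
              linarith
            rw [hq2 z hz (by linarith), ← mul_div_assoc, mul_comm (p z), ← hGe' z]
            exact mul_div_cancel_right₀ _ hd0
    · exact hdiv G T hT0 hGb hT
  -- the solution
  choose Pc hPc using fun i => coord_split (P i)
  choose Rc hRc using fun j => coord_split (R j)
  obtain ⟨V, hV⟩ := coord_split (1 - U)
  have hinv : HB C fun z => (1 - ρ z)⁻¹ :=
    ((HB.const C 1).sub hρb).inv (by norm_num : (0 : ℝ) < 1 / 2) fun z _ => hρd z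
  obtain ⟨h, hh⟩ : ∃ h : Fin N → E → ℂ, h = fun l z =>
    MvPolynomial.eval (fun l => f l z) (V l) +
      (∑ j, MvPolynomial.eval (fun l => f l z) (B j) *
        MvPolynomial.eval (fun l => f l z) (Rc j l)) * (1 - ρ z)⁻¹ +
      ∑ i, MvPolynomial.eval (fun l => f l z) (Pc i l) * k i z := ⟨_, rfl⟩
  have hhb : ∀ l, HB C (h l) := by
    intro l
    rw [hh]
    exact ((hpol (V l)).add ((HB.sum _ fun j _ => (hpol (B j)).mul (hpol (Rc j l))).mul hinv)).add
      (HB.sum _ fun i _ => (hpol (Pc i l)).mul (hk i))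
  choose Bh hBh using fun l => (hhb l).2
  refine ⟨h, fun l => (hhb l).1, ⟨∑ l, |Bh l|, fun l z hz => (hBh l z hz).trans
    ((le_abs_self _).trans (Finset.single_le_sum (f := fun l => |Bh l|)
      (fun _ _ => abs_nonneg _) (Finset.mem_univ l)))⟩, fun z hz => ?_⟩
  have e1 : ∑ l, f l z * MvPolynomial.eval (fun l => f l z) (V l) = 1 - u z := by
    have h1 := hV fun l => f l z
    rw [map_sub, map_one, map_sub, map_one, hU1, sub_self, zero_add] at h1
    rw [hu]
    exact h1.symm
  have e2 : ∀ j, ∑ l, f l z * MvPolynomial.eval (fun l => f l z) (Rc j l) =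
      MvPolynomial.eval (fun l => f l z) (R j) := by
    intro j
    have h1 := hRc j fun l => f l z
    rw [hR0, zero_add] at h1
    exact h1.symm
  have e3 : ∀ i, ∑ l, f l z * MvPolynomial.eval (fun l => f l z) (Pc i l) =
      MvPolynomial.eval (fun l => f l z) (P i) := by
    intro i
    have h1 := hPc i fun l => f l z
    rw [hP0, zero_add] at h1
    exact h1.symm
  have e4 : ∑ l, f l z * ((∑ j, MvPolynomial.eval (fun l => f l z) (B j) *
      MvPolynomial.eval (fun l => f l z) (Rc j l)) * (1 - ρ z)⁻¹) = ρ z := by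
    have h1 : ∑ l, f l z * ((∑ j, MvPolynomial.eval (fun l => f l z) (B j) *
        MvPolynomial.eval (fun l => f l z) (Rc j l)) * (1 - ρ z)⁻¹) =
        (∑ j, MvPolynomial.eval (fun l => f l z) (B j) *
          MvPolynomial.eval (fun l => f l z) (R j)) * (1 - ρ z)⁻¹ := by
      calc _ = ∑ l, ∑ j, MvPolynomial.eval (fun l => f l z) (B j) *
            (f l z * MvPolynomial.eval (fun l => f l z) (Rc j l)) * (1 - ρ z)⁻¹ := by
            refine Finset.sum_congr rfl fun l _ => ?_
            rw [Finset.sum_mul, Finset.mul_sum]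
            exact Finset.sum_congr rfl fun j _ => by ring
        _ = ∑ j, ∑ l, MvPolynomial.eval (fun l => f l z) (B j) *
            (f l z * MvPolynomial.eval (fun l => f l z) (Rc j l)) * (1 - ρ z)⁻¹ :=
            Finset.sum_comm
        _ = _ := by
            rw [Finset.sum_mul]
            refine Finset.sum_congr rfl fun j _ => ?_
            rw [← Finset.sum_mul, ← Finset.mul_sum, e2 j]
    have h2 : ρ z * (1 - ρ z) = ∑ j, MvPolynomial.eval (fun l => f l z) (B j) *
        MvPolynomial.eval (fun l => f l z) (R j) := by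
      rw [hρe z, hc]
    have h3 : (1 - ρ z) ≠ 0 := fun h0 => by
      have := hρd z
      rw [h0, norm_zero] at this
      linarith
    rw [h1, ← h2, mul_assoc, mul_inv_cancel₀ h3, mul_one]
  have e5 : ∑ l, f l z * ∑ i, MvPolynomial.eval (fun l => f l z) (Pc i l) * k i z = G z := by
    rw [← hkG z hz]
    calc _ = ∑ l, ∑ i, (f l z * MvPolynomial.eval (fun l => f l z) (Pc i l)) * k i z := by
          refine Finset.sum_congr rfl fun l _ => ?_
          rw [Finset.mul_sum]
          exact Finset.sum_congr rfl fun i _ => by ring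
      _ = ∑ i, ∑ l, (f l z * MvPolynomial.eval (fun l => f l z) (Pc i l)) * k i z :=
          Finset.sum_comm
      _ = _ := by
          refine Finset.sum_congr rfl fun i _ => ?_
          rw [← Finset.sum_mul, e3 i]
  calc ∑ l, f l z * h l z = ∑ l, (f l z * MvPolynomial.eval (fun l => f l z) (V l) +
        f l z * ((∑ j, MvPolynomial.eval (fun l => f l z) (B j) *
          MvPolynomial.eval (fun l => f l z) (Rc j l)) * (1 - ρ z)⁻¹) +
        f l z * ∑ i, MvPolynomial.eval (fun l => f l z) (Pc i l) * k i z) := by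
        refine Finset.sum_congr rfl fun l _ => ?_
        rw [hh]
        ring
    _ = (1 - u z) + ρ z + G z := by
        rw [Finset.sum_add_distrib, Finset.sum_add_distrib, e1, e4, e5]
    _ = 1 := by
        rw [hG]
        ring

end main

/-- `P i` polynomials without constant term with finitely many common zeros. If on a set `C` the functions
`P i (f)`, `i ∉ J`, are nearly constant, and division by the functions `P i (f)`, `i ∈ J`, is possible, then
`f` has bounded solutions on `C`. -/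
theorem poly_cell_div {N M : ℕ} {P : Fin M → MvPolynomial (Fin N) ℂ}
    (h0 : ∀ i, MvPolynomial.eval 0 (P i) = 0)
    (hfin : {x : Fin N → ℂ | ∀ i, MvPolynomial.eval x (P i) = 0}.Finite) {δ B : ℝ} (hδ : 0 < δ) :
    ∃ ε > 0, ∀ {n : ℕ} {C : Set (EuclideanSpace ℂ (Fin n))}
      {f : Fin N → EuclideanSpace ℂ (Fin n) → ℂ}, (∀ j, DifferentiableOn ℂ (f j) C) →
      (∀ z ∈ C, ∀ j, ‖f j z‖ ≤ B) → (∀ z ∈ C, δ ≤ ∑ j, ‖f j z‖ ^ 2) → ∀ (J : Finset (Fin M))
      (c : Fin M → ℂ), (∀ i, i ∉ J → ∀ z ∈ C,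
        ‖MvPolynomial.eval (fun j => f j z) (P i) - c i‖ < ε) →
      (2 ≤ J.card → ∀ (G : EuclideanSpace ℂ (Fin n) → ℂ) (T : ℝ), 0 ≤ T → HB C G →
        (∀ z ∈ C, ‖G z‖ ≤ T * ∑ i ∈ J, ‖MvPolynomial.eval (fun j => f j z) (P i)‖) →
        ∃ k : Fin M → EuclideanSpace ℂ (Fin n) → ℂ, (∀ i, HB C (k i)) ∧
          ∀ z ∈ C, ∑ i ∈ J, MvPolynomial.eval (fun j => f j z) (P i) * k i z = G z) →
      ∃ g : Fin N → EuclideanSpace ℂ (Fin n) → ℂ,
        (∀ j, Pool.Agent.Lib.MP_ca0fc2_an.IsHinf C (g j)) ∧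
        ∀ z ∈ C, ∑ j, f j z * g j z = 1 := by
  classical
  obtain ⟨δ', hδ', hδ'N⟩ : ∃ δ' > 0, N * δ' ^ 2 < δ := by
    refine ⟨√(δ / (N + 1)), Real.sqrt_pos.2 (by positivity), ?_⟩
    rw [Real.sq_sqrt (by positivity)]
    have h1 : (N : ℝ) * (δ / (N + 1)) = N / (N + 1) * δ := by field_simp
    rw [h1]
    have h2 : (N : ℝ) / (N + 1) < 1 := by
      rw [div_lt_one (by positivity)]
      linarith
    nlinarith
  have hcore := fun J : Finset (Fin M) => poly_core (ι := {i // i ∈ J}) (τ := {i // i ∉ J})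
    (fun i => P i.1) (fun i => P i.1) (fun i => h0 i.1) (fun i => h0 i.1)
    (hfin.subset fun x hx i => by
      by_cases hi : i ∈ J
      · exact hx.1 ⟨i, hi⟩
      · exact hx.2 ⟨i, hi⟩) hδ' B
  choose e he hcore using hcore
  obtain ⟨ε, hε, hεe⟩ : ∃ ε > 0, ∀ J, 3 * ε ≤ e J := by
    refine ⟨(Finset.univ.inf' Finset.univ_nonempty e) / 3,
      div_pos ((Finset.lt_inf'_iff _).2 fun J _ => he J) (by norm_num), fun J => ?_⟩
    have := Finset.inf'_le e (Finset.mem_univ J)
    linarith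
  refine ⟨ε, hε, fun {n C f} hf hB hd J c hc hJ => ?_⟩
  by_cases hbig : ∃ i, i ∉ J ∧ 2 * ε ≤ ‖c i‖
  · obtain ⟨i, hi, hci⟩ := hbig
    have hfb : ∀ l, HB C (f l) := fun l => ⟨hf l, B, fun z hz => hB z hz l⟩
    obtain ⟨A, hA⟩ := coord_split (P i)
    have hlow : ∀ z ∈ C, ε ≤ ‖MvPolynomial.eval (fun j => f j z) (P i)‖ := by
      intro z hz
      have h1 := hc i hi z hz
      have h2 : ‖c i‖ ≤ ‖MvPolynomial.eval (fun j => f j z) (P i)‖ +
          ‖MvPolynomial.eval (fun j => f j z) (P i) - c i‖ := by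
        calc ‖c i‖ = ‖MvPolynomial.eval (fun j => f j z) (P i) -
              (MvPolynomial.eval (fun j => f j z) (P i) - c i)‖ := by congr 1; ring
          _ ≤ _ := norm_sub_le _ _
      linarith
    refine ⟨fun l z => MvPolynomial.eval (fun j => f j z) (A l) *
      (MvPolynomial.eval (fun j => f j z) (P i))⁻¹, fun l =>
        (HB.poly hfb (A l)).mul ((HB.poly hfb (P i)).inv hε hlow), fun z hz => ?_⟩
    have h1 := hA fun j => f j z
    rw [h0, zero_add] at h1
    have h2 : MvPolynomial.eval (fun j => f j z) (P i) ≠ 0 := fun h => by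
      have := hlow z hz
      rw [h, norm_zero] at this
      linarith
    calc ∑ l, f l z * (MvPolynomial.eval (fun j => f j z) (A l) *
          (MvPolynomial.eval (fun j => f j z) (P i))⁻¹)
        = (∑ l, f l z * MvPolynomial.eval (fun j => f j z) (A l)) *
            (MvPolynomial.eval (fun j => f j z) (P i))⁻¹ := by
          rw [Finset.sum_mul]
          exact Finset.sum_congr rfl fun l _ => by ring
      _ = 1 := by
          rw [← h1]
          exact mul_inv_cancel₀ h2
  push Not at hbig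
  obtain ⟨g, hg1, ⟨K, hg2⟩, hg3⟩ := hcore J _ C f hf (fun l z hz => hB z hz l) (by
      intro z hz
      by_contra hcon
      push Not at hcon
      have h1 : ∑ j, ‖f j z‖ ^ 2 ≤ N * δ' ^ 2 := by
        calc ∑ j, ‖f j z‖ ^ 2 ≤ ∑ _j : Fin N, δ' ^ 2 :=
              Finset.sum_le_sum fun j _ => pow_le_pow_left₀ (norm_nonneg _) (hcon j).le 2
          _ = N * δ' ^ 2 := by simp
      have h2 := hd z hz
      linarith) (by
      intro i z hz
      have h1 := hc i.1 i.2 z hz
      have h2 := hbig i.1 i.2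
      have h3 := hεe J
      calc ‖MvPolynomial.eval (fun j => f j z) (P i.1)‖
          = ‖(MvPolynomial.eval (fun j => f j z) (P i.1) - c i.1) + c i.1‖ := by congr 1; ring
        _ ≤ ‖MvPolynomial.eval (fun j => f j z) (P i.1) - c i.1‖ + ‖c i.1‖ := norm_add_le _ _
        _ ≤ e J := by linarith) (by
      rcases Nat.lt_or_ge J.card 2 with hcard | hcard
      · left
        have h1 : J.card ≤ 1 := by omega
        rw [Finset.card_le_one_iff] at h1
        exact ⟨fun a b => Subtype.ext (h1 a.2 b.2)⟩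
      · right
        intro G T hT0 hG hT
        obtain ⟨k, hk, hk1⟩ := hJ hcard G T hT0 hG fun z hz => by
          have h1 := hT z hz
          rwa [Finset.sum_coe_sort J fun i => ‖MvPolynomial.eval (fun l => f l z) (P i)‖] at h1
        refine ⟨fun i => k i.1, fun i => hk i.1, fun z hz => ?_⟩
        rw [← hk1 z hz]
        exact Finset.sum_coe_sort J fun i => MvPolynomial.eval (fun j => f j z) (P i) * k i z)
  exact ⟨g, fun j => ⟨hg1 j, K, hg2 j⟩, hg3⟩

end Pool.Agent.MPca0fc2.OV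
end

section

/-! Campaign OV, row S: compact sets of positive capacity, subsets on which the radius is uniform. -/

set_option autoImplicit false

open Metric Set MeasureTheory Filter Topology

namespace Pool.Agent.MPca0fc2.OV

/-- compact sets of positive logarithmic capacity: `K` carries a probability measure with bounded
logarithmic potential -/
def CapPos (K : Set ℂ) : Prop :=
  IsCompact K ∧ ∃ (μ : Measure ℂ) (B : ℝ), IsProbabilityMeasure μ ∧ μ Kᶜ = 0 ∧
    ∀ t : ℂ, Integrable (fun a => Real.log ‖t - a‖) μ ∧ -B ≤ ∫ a, Real.log ‖t - a‖ ∂μ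

theorem CapPos.posCap {K : Set ℂ} (h : CapPos K) : PosCap K := by
  obtain ⟨hK, μ, B, hμ, h0, hB⟩ := h
  exact ⟨hK, μ, B, hμ, h0, fun t _ => (hB t).2⟩

/-- a compact part of positive measure has positive capacity -/
theorem capPos_part {K K' : Set ℂ} {μ : Measure ℂ} [IsProbabilityMeasure μ] {B : ℝ}
    (hK : IsCompact K) (h0 : μ Kᶜ = 0)
    (hB : ∀ t : ℂ, Integrable (fun a => Real.log ‖t - a‖) μ ∧ -B ≤ ∫ a, Real.log ‖t - a‖ ∂μ)
    (hK' : IsCompact K') (hsub : K' ⊆ K) (hpos : 0 < μ K') : CapPos K' := by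
  have hfin : μ K' ≠ ⊤ := measure_ne_top _ _
  have hm : MeasurableSet K' := hK'.measurableSet
  obtain ⟨R, hR⟩ := hK.isBounded.exists_norm_le
  set m : ℝ := (μ K').toReal with hmdef
  have hm0 : 0 < m := ENNReal.toReal_pos hpos.ne' hfin
  refine ⟨hK', (μ K')⁻¹ • μ.restrict K', (|B| + 2 * (|R| + 1)) / m + (2 * (|R| + 1)), ⟨?_⟩, ?_, fun t => ?_⟩
  · rw [Measure.smul_apply, Measure.restrict_apply_univ, smul_eq_mul,
      ENNReal.inv_mul_cancel hpos.ne' hfin]
  · rw [Measure.smul_apply, Measure.restrict_apply hm.compl, compl_inter_self, measure_empty,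
      smul_zero]
  · obtain ⟨hi, hl⟩ := hB t
    refine ⟨(hi.restrict (s := K')).smul_measure (ENNReal.inv_ne_top.mpr hpos.ne'), ?_⟩
    rw [integral_smul_measure, ENNReal.toReal_inv, smul_eq_mul, ← hmdef]
    have hae : ∀ᵐ a ∂μ, a ∈ K := by
      rw [ae_iff]
      exact h0
    have hneg : 0 ≤ (|B| + 2 * (|R| + 1)) / m + 2 * (|R| + 1) := by positivity
    by_cases ht : |R| + 1 ≤ ‖t‖
    · have h1 : 0 ≤ ∫ a in K', Real.log ‖t - a‖ ∂μ := by
        refine setIntegral_nonneg hm fun a ha => Real.log_nonneg ?_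
        have h2 := norm_sub_norm_le t a
        have h3 := hR a (hsub ha)
        linarith [le_abs_self R]
      have h2 : 0 ≤ m⁻¹ * ∫ a in K', Real.log ‖t - a‖ ∂μ := mul_nonneg (by positivity) h1
      linarith
    · push Not at ht
      have h1 : ∫ a in K', Real.log ‖t - a‖ ∂μ =
          (∫ a, Real.log ‖t - a‖ ∂μ) - ∫ a in K'ᶜ, Real.log ‖t - a‖ ∂μ := by
        rw [← integral_add_compl hm hi]
        ring
      have h2 : ∫ a in K'ᶜ, Real.log ‖t - a‖ ∂μ ≤ 2 * (|R| + 1) := by
        have h3 : ∫ a in K'ᶜ, Real.log ‖t - a‖ ∂μ ≤ ∫ _ in K'ᶜ, (2 * (|R| + 1)) ∂μ := by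
          refine integral_mono_ae hi.restrict (integrable_const _) ?_
          filter_upwards [ae_restrict_of_ae hae] with a ha
          have h4 := Real.log_le_self (norm_nonneg (t - a))
          have h5 := norm_sub_le t a
          have h6 := hR a ha
          linarith [le_abs_self R]
        refine h3.trans ?_
        rw [integral_const, smul_eq_mul]
        have h7 : (μ.restrict K'ᶜ).real univ ≤ 1 := by
          rw [measureReal_def, Measure.restrict_apply_univ]
          exact ENNReal.toReal_le_of_le_ofReal zero_le_one (by simpa using prob_le_one)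
        have h8 : 0 ≤ 2 * (|R| + 1) := by positivity
        nlinarith
      have h3 : -(|B| + 2 * (|R| + 1)) ≤ ∫ a in K', Real.log ‖t - a‖ ∂μ := by
        rw [h1]
        linarith [le_abs_self B]
      have h4 : m⁻¹ * -(|B| + 2 * (|R| + 1)) ≤ m⁻¹ * ∫ a in K', Real.log ‖t - a‖ ∂μ :=
        mul_le_mul_of_nonneg_left h3 (by positivity)
      have h5 : m⁻¹ * -(|B| + 2 * (|R| + 1)) = -((|B| + 2 * (|R| + 1)) / m) := by
        field_simp
      have h6 : 0 ≤ 2 * (|R| + 1) := by positivity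
      linarith

/-- if `x - a y` has no zeros near `p` for each `a` in a compact set `K` of positive capacity, then it has
no zeros in a fixed neighbourhood of `p` for all `a` in a compact subset of positive capacity -/
theorem capPos_near {n : ℕ} {D : Set (EuclideanSpace ℂ (Fin n))} (hD : IsOpen D)
    {x y : EuclideanSpace ℂ (Fin n) → ℂ} (hx : ContinuousOn x D) (hy : ContinuousOn y D)
    (p : EuclideanSpace ℂ (Fin n)) {K : Set ℂ} (hK : CapPos K)
    (h : ∀ a ∈ K, ∃ r > 0, ∀ z ∈ D ∩ ball p r, x z - a * y z ≠ 0) :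
    ∃ K' ⊆ K, CapPos K' ∧ ∃ r > 0, ∀ a ∈ K', ∀ z ∈ D ∩ ball p r, x z - a * y z ≠ 0 := by
  obtain ⟨hKc, μ, B, hμ, h0, hB⟩ := hK
  set O : ℕ → Set (EuclideanSpace ℂ (Fin n)) := fun m => D ∩ ball p (1 / ((m : ℝ) + 1)) with hO
  set F : ℕ → Set ℂ := fun m => {a | ∀ z ∈ O m, x z - a * y z ≠ 0} with hF
  have hOo : ∀ m, IsOpen (O m) := fun m => hD.inter isOpen_ball
  -- measurability
  have hclosed : ∀ C : Set (EuclideanSpace ℂ (Fin n)), IsCompact C → C ⊆ D →
      IsClosed {a : ℂ | ∃ z ∈ C, x z - a * y z = 0} := by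
    intro C hC hCD
    have : CompactSpace C := isCompact_iff_compactSpace.mp hC
    have h1 : IsClosed {q : ℂ × C | x q.2 - q.1 * y q.2 = 0} := by
      have hxc : Continuous fun z : C => x z := (hx.mono hCD).domRestrict
      have hyc : Continuous fun z : C => y z := (hy.mono hCD).domRestrict
      exact isClosed_eq ((hxc.comp continuous_snd).sub
        (continuous_fst.mul (hyc.comp continuous_snd))) continuous_const
    have h2 := isClosedMap_fst_of_compactSpace _ h1
    convert h2 using 1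
    ext a
    constructor
    · rintro ⟨z, hz, he⟩
      exact ⟨(a, ⟨z, hz⟩), he, rfl⟩
    · rintro ⟨⟨b, z⟩, he, rfl⟩
      exact ⟨z, z.2, he⟩
  have hmeas : ∀ m, MeasurableSet (F m) := by
    intro m
    obtain ⟨C, hC, hCO⟩ : ∃ C : ℕ → Set (EuclideanSpace ℂ (Fin n)), (∀ k, IsCompact (C k)) ∧
        ∀ z, z ∈ O m ↔ ∃ k, z ∈ C k := by
      obtain ⟨G, hGc, hGs, hGU, hGm⟩ := (hOo m).exists_iUnion_isClosed
      refine ⟨fun k => G k ∩ closedBall 0 k, fun k =>
        (isCompact_closedBall _ _).inter_left (hGc k), fun z => ⟨fun hz => ?_, ?_⟩⟩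
      · rw [← hGU] at hz
        obtain ⟨j, hj⟩ := mem_iUnion.mp hz
        obtain ⟨k, hk⟩ := exists_nat_ge ‖z‖
        refine ⟨max j k, hGm (le_max_left _ _) hj, ?_⟩
        rw [mem_closedBall_zero_iff]
        exact hk.trans (by exact_mod_cast le_max_right _ _)
      · rintro ⟨k, hk, -⟩
        exact hGs k hk
    have h1 : (F m)ᶜ = ⋃ k, {a : ℂ | ∃ z ∈ C k, x z - a * y z = 0} := by
      ext a
      simp only [hF, mem_compl_iff, mem_ofPred_eq, mem_iUnion, hCO]
      push Not
      constructor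
      · rintro ⟨z, ⟨k, hk⟩, he⟩
        exact ⟨k, z, hk, he⟩
      · rintro ⟨k, z, hz, he⟩
        exact ⟨z, ⟨k, hz⟩, he⟩
    rw [← MeasurableSet.compl_iff, h1]
    refine MeasurableSet.iUnion fun k => (hclosed _ (hC k) fun z hz => ?_).measurableSet
    exact ((hCO z).mpr ⟨k, hz⟩).1
  -- a set of positive measure
  obtain ⟨m, hm⟩ : ∃ m, 0 < μ (K ∩ F m) := by
    by_contra hcon
    push Not at hcon
    have h1 : μ (⋃ m, K ∩ F m) = 0 :=
      measure_iUnion_null fun m => le_antisymm (hcon m) zero_le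
    have h2 : K ⊆ ⋃ m, K ∩ F m := by
      intro a ha
      obtain ⟨r, hr, hz⟩ := h a ha
      obtain ⟨m, hm⟩ := exists_nat_one_div_lt hr
      refine mem_iUnion.mpr ⟨m, ha, fun z hz' => hz z ⟨hz'.1, ball_subset_ball hm.le hz'.2⟩⟩
    have h3 : μ K = 0 := measure_mono_null h2 h1
    have h4 : μ univ ≤ μ K + μ Kᶜ := by
      rw [← union_compl_self K]
      exact measure_union_le _ _
    rw [measure_univ, h3, h0, add_zero] at h4
    exact absurd h4 (by simp)
  obtain ⟨K', hK'sub, hK'c, hK'pos⟩ := (hKc.measurableSet.inter (hmeas m)).exists_lt_isCompact hm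
  refine ⟨K', fun a ha => (hK'sub ha).1, capPos_part hKc h0 hB hK'c (fun a ha => (hK'sub ha).1)
    hK'pos, 1 / ((m : ℝ) + 1), by positivity, fun a ha z hz => (hK'sub ha).2 z hz⟩

end Pool.Agent.MPca0fc2.OV
end
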