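import Pool.Agent.Lib.MP_ca0fc2_an.Mg.G112
import Pool.Agent.Lib.MP_ca0fc2_an.Holo

section

/-! Campaign OV, row Y0: bounded holomorphic functions extend over the zero set of a holomorphic function
(Riemann's extension theorem). -/

set_option autoImplicit false

open Metric Set MeasureTheory Filter Topology
open Pool.Agent.Lib.MP_ca0fc2_an

namespace Pool.Agent.MPca0fc2.OV

/-- finite sets are removable for bounded holomorphic functions of one variable -/
theorem rem_finite {S : Set ℂ} (hS : S.Finite) {M : ℝ} : ∀ {U : Set ℂ}, IsOpen U →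
    ∀ {f : ℂ → ℂ}, DifferentiableOn ℂ f (U \ S) → (∀ t ∈ U \ S, ‖f t‖ ≤ M) →
    ∃ g : ℂ → ℂ, DifferentiableOn ℂ g U ∧ (∀ t ∈ U, ‖g t‖ ≤ M) ∧ ∀ t ∈ U \ S, g t = f t := by
  induction S, hS using Set.Finite.induction_on with
  | empty =>
    intro U hU f hf hM
    rw [sdiff_empty] at hf hM
    refine ⟨f, hf, hM, fun t _ => rfl⟩
  | @insert a S ha hS ih =>
    intro U hU f hf hM
    have hU' : IsOpen (U \ {a}) := hU.sdiff isClosed_singleton
    have hsub : (U \ {a}) \ S = U \ insert a S := by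
      ext t
      simp only [Set.mem_sdiff, mem_singleton_iff, mem_insert_iff, not_or]
      tauto
    obtain ⟨g, hg, hgM, hgf⟩ := ih hU' (hsub ▸ hf) (hsub ▸ hM)
    by_cases haU : a ∈ U
    · obtain ⟨g', hg'⟩ : ∃ g' : ℂ → ℂ, g' = Function.update g a (limUnder (𝓝[≠] a) g) := ⟨_, rfl⟩
      have hd : DifferentiableOn ℂ g' U := by
        rw [hg']
        refine Complex.differentiableOn_update_limUnder_of_bddAbove (hU.mem_nhds haU) hg ?_
        refine ⟨M, ?_⟩
        rintro _ ⟨t, ht, rfl⟩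
        exact hgM t ht
      have hne : ∀ t, t ≠ a → g' t = g t := fun t ht => by
        rw [hg', Function.update_of_ne ht]
      refine ⟨g', hd, fun t ht => ?_, fun t ht => ?_⟩
      · rcases eq_or_ne t a with rfl | h
        · have h1 : Tendsto (fun s => ‖g' s‖) (𝓝[≠] t) (𝓝 ‖g' t‖) :=
            ((hd.differentiableAt (hU.mem_nhds haU)).continuousAt.norm.tendsto).mono_left
              nhdsWithin_le_nhds
          refine le_of_tendsto h1 ?_
          have h2 : U ∈ 𝓝[≠] t := mem_nhdsWithin_of_mem_nhds (hU.mem_nhds haU)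
          filter_upwards [h2, self_mem_nhdsWithin] with s hs hs'
          rw [hne s hs']
          exact hgM s ⟨hs, hs'⟩
        · rw [hne t h]
          exact hgM t ⟨ht, h⟩
      · have h1 : t ≠ a := fun h => ht.2 (h ▸ mem_insert _ _)
        rw [hne t h1]
        exact hgf t (hsub ▸ ht)
    · have h1 : U \ {a} = U := sdiff_singleton_eq_self haU
      rw [h1] at hg hgM hgf
      refine ⟨g, hg, hgM, fun t ht => hgf t ⟨ht.1, fun h => ht.2 (mem_insert_of_mem _ h)⟩⟩

variable {E : Type*} [NormedAddCommGroup E] [NormedSpace ℂ E]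

/-- the local extension -/
theorem ext_local {W : Set E} (hW : IsOpen W) {Y φ : E → ℂ} (hY : DifferentiableOn ℂ Y W)
    (hφ : DifferentiableOn ℂ φ {z | z ∈ W ∧ Y z ≠ 0}) {M : ℝ}
    (hM : ∀ z ∈ W, Y z ≠ 0 → ‖φ z‖ ≤ M) {z₀ : E} (hz₀ : z₀ ∈ W) (h0 : ∃ᶠ w in 𝓝 z₀, Y w ≠ 0) :
    ∃ ρ > 0, ∃ ψ : E → ℂ, DifferentiableOn ℂ ψ (ball z₀ ρ) ∧
      ∀ z ∈ ball z₀ ρ, z ∈ W ∧ (Y z ≠ 0 → ψ z = φ z) := by
  obtain ⟨δ', hδ', hδ'W⟩ := Metric.isOpen_iff.1 hW z₀ hz₀
  obtain ⟨δ, hδ, hδW⟩ : ∃ δ > 0, ball z₀ (2 * δ) ⊆ W :=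
    ⟨δ' / 2, half_pos hδ', by rw [mul_div_cancel₀ _ two_ne_zero]; exact hδ'W⟩
  obtain ⟨w, hw0, hw⟩ := (h0.and_eventually (ball_mem_nhds z₀ hδ)).exists
  obtain ⟨v, hv⟩ : ∃ v : E, v = w - z₀ := ⟨_, rfl⟩
  have hvδ : ‖v‖ < δ := by
    rw [hv, ← dist_eq_norm]
    exact hw
  have hmem : ∀ z ∈ ball z₀ δ, ∀ t : ℂ, ‖t‖ < 1 → z + t • v ∈ W := by
    intro z hz t ht
    refine hδW ?_
    rw [mem_ball, dist_eq_norm] at hz ⊢
    have h1 : z + t • v - z₀ = (z - z₀) + t • v := by abel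
    rw [h1]
    refine (norm_add_le _ _).trans_lt ?_
    rw [norm_smul]
    nlinarith [norm_nonneg v, norm_nonneg t]
  have hmem0 : ∀ t : ℂ, ‖t‖ < 2 → z₀ + t • v ∈ W := by
    intro t ht
    refine hδW ?_
    rw [mem_ball, dist_eq_norm, add_sub_cancel_left, norm_smul]
    nlinarith [norm_nonneg v, norm_nonneg t]
  have hYd : ∀ z ∈ W, DifferentiableAt ℂ Y z := fun z hz => hY.differentiableAt (hW.mem_nhds hz)
  have hOo : IsOpen {z | z ∈ W ∧ Y z ≠ 0} :=
    hY.continuousOn.isOpen_inter_preimage hW isOpen_ne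
  -- a radius without zeros
  obtain ⟨r, hr0, hr1, hr⟩ : ∃ r : ℝ, 0 < r ∧ r < 1 ∧ ∀ t : ℂ, ‖t‖ = r → Y (z₀ + t • v) ≠ 0 := by
    have hfin : {t : ℂ | t ∈ closedBall (0 : ℂ) 1 ∧ Y (z₀ + t • v) = 0}.Finite := by
      by_contra hinf
      obtain ⟨x, hx, hacc⟩ := Set.Infinite.exists_accPt_of_subset_isCompact hinf
        (isCompact_closedBall (0 : ℂ) 1) fun t ht => ht.1
      have hd : DifferentiableOn ℂ (fun t : ℂ => Y (z₀ + t • v)) (ball 0 2) := fun t ht => by
        refine DifferentiableAt.differentiableWithinAt ?_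
        have h1 : DifferentiableAt ℂ Y (z₀ + t • v) := hYd _ (hmem0 t (mem_ball_zero_iff.1 ht))
        have h2 : DifferentiableAt ℂ (fun t : ℂ => z₀ + t • v) t := by fun_prop
        exact DifferentiableAt.comp (g := Y) t h1 h2
      have hx2 : x ∈ ball (0 : ℂ) 2 := by
        rw [mem_ball_zero_iff]
        have := mem_closedBall_zero_iff.1 hx
        linarith
      have hfr : ∃ᶠ t in 𝓝[≠] x, (fun t : ℂ => Y (z₀ + t • v)) t = 0 := by
        rw [accPt_iff_frequently_nhdsNE] at hacc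
        exact hacc.mono fun t ht => ht.2
      have h3 := (hd.analyticOnNhd isOpen_ball).eqOn_zero_of_preconnected_of_frequently_eq_zero
        (convex_ball (0 : ℂ) 2).isPreconnected hx2 hfr
      have h4 : (1 : ℂ) ∈ ball (0 : ℂ) 2 := by simp
      have h5 := h3 h4
      rw [hv] at h5
      simp only [one_smul, add_sub_cancel, Pi.zero_apply] at h5
      exact hw0 h5
    have h1 : (Ioo (0 : ℝ) 1 \ ((fun t : ℂ => ‖t‖) '' _)).Nonempty :=
      ((Ioo_infinite (zero_lt_one (α := ℝ))).sdiff (hfin.image fun t : ℂ => ‖t‖)).nonempty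
    obtain ⟨r, hr, hr'⟩ := h1
    refine ⟨r, hr.1, hr.2, fun t ht h => hr' ⟨t, ⟨mem_closedBall_zero_iff.2 ?_, h⟩, ht⟩⟩
    rw [ht]
    exact hr.2.le
  -- no zeros on the circles for nearby points
  have hcirc : ∀ᶠ z in 𝓝 z₀, ∀ t ∈ sphere (0 : ℂ) r, Y (z + t • v) ≠ 0 := by
    refine (isCompact_sphere (0 : ℂ) r).eventually_forall_of_forall_eventually fun t ht => ?_
    have h1 : ContinuousAt (fun q : E × ℂ => Y (q.1 + q.2 • v)) (z₀, t) := by
      have h2 : ContinuousAt Y (z₀ + t • v) :=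
        (hYd _ (hmem0 t (by rw [mem_sphere_zero_iff_norm.1 ht]; linarith))).continuousAt
      have h3 : ContinuousAt (fun q : E × ℂ => q.1 + q.2 • v) (z₀, t) := by fun_prop
      exact ContinuousAt.comp (g := Y) (f := fun q : E × ℂ => q.1 + q.2 • v) h2 h3
    exact h1.eventually_ne (hr t (mem_sphere_zero_iff_norm.1 ht))
  obtain ⟨ρ', hρ', hρc⟩ := Metric.eventually_nhds_iff_ball.1 hcirc
  obtain ⟨ρ, hρ, hρ1, hρ2⟩ : ∃ ρ > 0, ρ ≤ ρ' ∧ ρ ≤ δ :=
    ⟨min ρ' δ, lt_min hρ' hδ, min_le_left _ _, min_le_right _ _⟩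
  have hcm : ∀ z ∈ ball z₀ ρ, ∀ θ : ℝ,
      z + circleMap 0 r θ • v ∈ W ∧ Y (z + circleMap 0 r θ • v) ≠ 0 := by
    intro z hz θ
    have h1 : ‖circleMap 0 r θ‖ = r := by
      rw [norm_circleMap_zero, abs_of_pos hr0]
    exact ⟨hmem z (ball_subset_ball hρ2 hz) _ (by rw [h1]; exact hr1),
      hρc z (ball_subset_ball hρ1 hz) _ (mem_sphere_zero_iff_norm.2 h1)⟩
  refine ⟨ρ, hρ, fun z => (2 * Real.pi)⁻¹ • ∫ θ in 0..2 * Real.pi, φ (z + circleMap 0 r θ • v), ?_,
    fun z hz => ⟨hδW (ball_subset_ball (by linarith) hz), fun hYz => ?_⟩⟩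
  · -- holomorphic
    intro z hz
    refine DifferentiableAt.differentiableWithinAt ?_
    obtain ⟨s, hs, hsub⟩ := Metric.isOpen_iff.1 isOpen_ball z hz
    have h1 : DifferentiableAt ℂ (fun z => ∫ θ in Ioc 0 (2 * Real.pi),
        φ (z + circleMap 0 r θ • v)) z := by
      refine differentiableAt_integral hs (g := fun _ => M) ?_ ?_ (integrable_const _) ?_
      · refine Eventually.of_forall fun θ y hy => ?_
        refine DifferentiableAt.differentiableWithinAt ?_
        have h2 : DifferentiableAt ℂ φ (y + circleMap 0 r θ • v) :=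
          hφ.differentiableAt (hOo.mem_nhds (hcm y (hsub hy) θ))
        have h3 : DifferentiableAt ℂ (fun y : E => y + circleMap 0 r θ • v) y := by fun_prop
        exact DifferentiableAt.comp (g := φ) y h2 h3
      · intro y hy
        refine Continuous.aestronglyMeasurable ?_
        rw [continuous_iff_continuousAt]
        intro θ
        have h2 : ContinuousAt φ (y + circleMap 0 r θ • v) :=
          (hφ.differentiableAt (hOo.mem_nhds (hcm y (hsub hy) θ))).continuousAt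
        have h3 : ContinuousAt (fun θ : ℝ => y + circleMap 0 r θ • v) θ := by fun_prop
        exact ContinuousAt.comp (g := φ) h2 h3
      · refine Eventually.of_forall fun θ y hy => ?_
        exact hM _ (hcm y (hsub hy) θ).1 (hcm y (hsub hy) θ).2
    have h4 : (fun z : E => (2 * Real.pi)⁻¹ • ∫ θ in 0..2 * Real.pi, φ (z + circleMap 0 r θ • v)) =
        fun z => (2 * Real.pi)⁻¹ • ∫ θ in Ioc 0 (2 * Real.pi), φ (z + circleMap 0 r θ • v) := by
      funext z
      rw [intervalIntegral.integral_of_le (by positivity)]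
    rw [h4]
    exact h1.const_smul ((2 * Real.pi)⁻¹ : ℝ)
  · -- equal to `φ`
    have hzW : ∀ t ∈ ball (0 : ℂ) 1, z + t • v ∈ W := fun t ht =>
      hmem z (ball_subset_ball hρ2 hz) t (mem_ball_zero_iff.1 ht)
    have hdY : DifferentiableOn ℂ (fun t : ℂ => Y (z + t • v)) (ball 0 1) := fun t ht => by
      refine DifferentiableAt.differentiableWithinAt ?_
      have h1 : DifferentiableAt ℂ Y (z + t • v) := hYd _ (hzW t ht)
      have h2 : DifferentiableAt ℂ (fun t : ℂ => z + t • v) t := by fun_prop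
      exact DifferentiableAt.comp (g := Y) t h1 h2
    obtain ⟨s, hs⟩ : ∃ s : ℝ, s = (r + 1) / 2 := ⟨_, rfl⟩
    have hrs : r < s := by rw [hs]; linarith
    have hs1 : s < 1 := by rw [hs]; linarith
    have hfin : {t : ℂ | t ∈ closedBall (0 : ℂ) s ∧ Y (z + t • v) = 0}.Finite := by
      by_contra hinf
      obtain ⟨x, hx, hacc⟩ := Set.Infinite.exists_accPt_of_subset_isCompact hinf
        (isCompact_closedBall (0 : ℂ) s) fun t ht => ht.1
      have hx2 : x ∈ ball (0 : ℂ) 1 := by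
        rw [mem_ball_zero_iff]
        have := mem_closedBall_zero_iff.1 hx
        linarith
      have hfr : ∃ᶠ t in 𝓝[≠] x, (fun t : ℂ => Y (z + t • v)) t = 0 := by
        rw [accPt_iff_frequently_nhdsNE] at hacc
        exact hacc.mono fun t ht => ht.2
      have h3 := (hdY.analyticOnNhd isOpen_ball).eqOn_zero_of_preconnected_of_frequently_eq_zero
        (convex_ball (0 : ℂ) 1).isPreconnected hx2 hfr
      have h4 : (0 : ℂ) ∈ ball (0 : ℂ) 1 := by simp
      have h5 := h3 h4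
      simp only [zero_smul, add_zero, Pi.zero_apply] at h5
      exact hYz h5
    have hdφ : DifferentiableOn ℂ (fun t : ℂ => φ (z + t • v))
        (ball 0 s \ {t : ℂ | t ∈ closedBall (0 : ℂ) s ∧ Y (z + t • v) = 0}) := fun t ht => by
      refine DifferentiableAt.differentiableWithinAt ?_
      have h0 : Y (z + t • v) ≠ 0 := fun h => ht.2 ⟨ball_subset_closedBall ht.1, h⟩
      have h1 : DifferentiableAt ℂ φ (z + t • v) :=
        hφ.differentiableAt (hOo.mem_nhds ⟨hzW t (ball_subset_ball hs1.le ht.1), h0⟩)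
      have h2 : DifferentiableAt ℂ (fun t : ℂ => z + t • v) t := by fun_prop
      exact DifferentiableAt.comp (g := φ) t h1 h2
    obtain ⟨g, hg, -, hgφ⟩ := rem_finite hfin isOpen_ball hdφ (M := M) fun t ht =>
      hM _ (hzW t (ball_subset_ball hs1.le ht.1)) fun h => ht.2 ⟨ball_subset_closedBall ht.1, h⟩
    have hcl : DiffContOnCl ℂ g (ball 0 |r|) := by
      rw [abs_of_pos hr0]
      exact hg.diffContOnCl_ball (closedBall_subset_ball hrs)
    have h1 := hcl.circleAverage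
    rw [Real.circleAverage_def] at h1
    have h2 : g 0 = φ z := by
      have h3 := hgφ 0 ⟨mem_ball_self (hr0.trans hrs), fun h => hYz (by simpa using h.2)⟩
      rw [h3, zero_smul, add_zero]
    rw [h2] at h1
    refine Eq.trans ?_ h1
    beta_reduce
    congr 1
    refine intervalIntegral.integral_congr fun θ _ => ?_
    have h4 : ‖circleMap 0 r θ‖ = r := by
      rw [norm_circleMap_zero, abs_of_pos hr0]
    refine (hgφ _ ⟨mem_ball_zero_iff.2 (by rw [h4]; exact hrs), fun h => ?_⟩).symm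
    exact (hcm z hz θ).2 h.2

/-- **Riemann's extension theorem.** -/
theorem riemann_ext {E : Type*} [NormedAddCommGroup E] [NormedSpace ℂ E] [FiniteDimensional ℂ E]
    {W : Set E} (hW : IsOpen W) {h : E → ℂ} (hh : DifferentiableOn ℂ h W)
    (hd : ∀ z ∈ W, z ∈ closure {w ∈ W | h w ≠ 0}) {φ : E → ℂ}
    (hφ : DifferentiableOn ℂ φ {w ∈ W | h w ≠ 0})
    (hb : ∀ z ∈ W, ∃ r > 0, ∃ M : ℝ, ∀ w ∈ W, w ∈ ball z r → h w ≠ 0 → ‖φ w‖ ≤ M) :
    ∃ ψ : E → ℂ, DifferentiableOn ℂ ψ W ∧ ∀ z ∈ W, h z ≠ 0 → ψ z = φ z := by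
  have hY0 : ∀ z ∈ W, ∃ᶠ w in 𝓝 z, h w ≠ 0 := fun z hz =>
    (mem_closure_iff_frequently.1 (hd z hz)).mono fun w hw => hw.2
  have hloc : ∀ z : E, ∀ hz : z ∈ W, ∃ ρ > 0, ∃ ψ : E → ℂ, DifferentiableOn ℂ ψ (ball z ρ) ∧
      ∀ z' ∈ ball z ρ, z' ∈ W ∧ (h z' ≠ 0 → ψ z' = φ z') := by
    intro z hz
    obtain ⟨r, hr, M, hM⟩ := hb z hz
    obtain ⟨ρ, hρ, ψ, hψ, h1⟩ := ext_local (hW.inter isOpen_ball) (hh.mono inter_subset_left)
      (hφ.mono fun w hw => ⟨hw.1.1, hw.2⟩) (M := M) (fun w hw h0 => hM w hw.1 hw.2 h0)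
      (show z ∈ W ∩ ball z r from ⟨hz, mem_ball_self hr⟩) (hY0 z hz)
    exact ⟨ρ, hρ, ψ, hψ, fun z' hz' => ⟨(h1 z' hz').1.1, (h1 z' hz').2⟩⟩
  choose! ρ hρ ψ hψ h' using hloc
  obtain ⟨F, hF⟩ : ∃ F : E → Filter E, F = fun z => 𝓝[{w | h w ≠ 0}] z := ⟨_, rfl⟩
  have hNe : ∀ z ∈ W, (F z).NeBot := fun z hz => by
    rw [hF]
    exact mem_closure_iff_nhdsWithin_neBot.1 (mem_closure_iff_frequently.2 (hY0 z hz))
  have hlim : ∀ z ∈ W, ∀ z' ∈ ball z (ρ z), limUnder (F z') φ = ψ z z' := by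
    intro z hz z' hz'
    have hz'W := (h' z hz z' hz').1
    have := hNe z' hz'W
    refine Tendsto.limUnder_eq ?_
    have h1 : Tendsto (ψ z) (𝓝 z') (𝓝 (ψ z z')) :=
      ((hψ z hz).differentiableAt (isOpen_ball.mem_nhds hz')).continuousAt
    have h2 : Tendsto (ψ z) (F z') (𝓝 (ψ z z')) := by
      rw [hF]
      exact h1.mono_left nhdsWithin_le_nhds
    refine h2.congr' ?_
    rw [hF]
    filter_upwards [self_mem_nhdsWithin, mem_nhdsWithin_of_mem_nhds (isOpen_ball.mem_nhds hz')] with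
      w hw hw'
    exact (h' z hz w hw').2 hw
  refine ⟨fun z => limUnder (F z) φ, fun z hz => ?_, fun z hz hYz => ?_⟩
  · refine DifferentiableAt.differentiableWithinAt ?_
    have h1 : DifferentiableAt ℂ (ψ z) z :=
      (hψ z hz).differentiableAt (ball_mem_nhds z (hρ z hz))
    refine h1.congr_of_eventuallyEq ?_
    filter_upwards [ball_mem_nhds z (hρ z hz)] with z' hz'
    exact hlim z hz z' hz'
  · show limUnder (F z) φ = φ z
    rw [hlim z hz z (mem_ball_self (hρ z hz))]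
    exact (h' z hz z (mem_ball_self (hρ z hz))).2 hYz

/-- a holomorphic function which splits the pair `X, Y`: `|φ| ≤ C |X| / (|X| + |Y|)` and
`|1 - φ| ≤ C |Y| / (|X| + |Y|)` -/
def Cut {E : Type*} [NormedAddCommGroup E] [NormedSpace ℂ E] (V : Set E) (X Y : E → ℂ) (C : ℝ) :
    Prop :=
  ∃ φ : E → ℂ, DifferentiableOn ℂ φ V ∧ ∀ z ∈ V, ‖φ z‖ ≤ C ∧
    ‖φ z‖ * (‖X z‖ + ‖Y z‖) ≤ C * ‖X z‖ ∧ ‖1 - φ z‖ * (‖X z‖ + ‖Y z‖) ≤ C * ‖Y z‖

end Pool.Agent.MPca0fc2.OV
end

section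

/-! Campaign OV, part F2: families, with cutoffs. -/

set_option autoImplicit false

open Metric Set MeasureTheory Filter Topology

namespace Pool.Agent.MPca0fc2.OV

theorem Cut.mono {E : Type*} [NormedAddCommGroup E] [NormedSpace ℂ E] {V W : Set E} {X Y : E → ℂ}
    {C : ℝ} (h : Cut W X Y C) (hVW : V ⊆ W) : Cut V X Y C := by
  obtain ⟨φ, h1, h2⟩ := h
  exact ⟨φ, h1.mono hVW, fun z hz => h2 z (hVW hz)⟩

/-- If all pairs of functions `f i` have cutoffs, there is a partition of unity by holomorphic functions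
`Φ i` with `|Φ i| |f k| ≤ C |f i|`. Induction over the finite set: for a new index `k` and the cutoffs
`φ_i` of `f i, f k` put `Φ' i = Φ i * φ_i`, `Φ' k = ∑ Φ i * (1 - φ_i)`. -/
theorem partition {E ι : Type*} [NormedAddCommGroup E] [NormedSpace ℂ E] [DecidableEq ι] {V : Set E}
    {f : ι → E → ℂ} (G : Finset ι) (hG : G.Nonempty)
    (hp : ∀ i ∈ G, ∀ j ∈ G, i ≠ j → ∃ C, Cut V (f i) (f j) C) :
    ∃ (Φ : ι → E → ℂ) (C : ℝ), 0 ≤ C ∧ (∀ i, DifferentiableOn ℂ (Φ i) V) ∧
      (∀ z ∈ V, ∑ i ∈ G, Φ i z = 1) ∧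
      ∀ z ∈ V, ∀ i ∈ G, ‖Φ i z‖ ≤ C ∧ ∀ k ∈ G, ‖Φ i z‖ * ‖f k z‖ ≤ C * ‖f i z‖ := by
  induction G using Finset.induction_on with
  | empty => exact absurd hG Finset.not_nonempty_empty
  | insert k G hk ih =>
    rcases G.eq_empty_or_nonempty with rfl | hG'
    · refine ⟨fun _ _ => 1, 1, zero_le_one, fun _ => differentiableOn_const _, fun z _ => by simp,
        fun z _ i hi => ⟨by simp, fun j hj => ?_⟩⟩
      have hi' : i = k := by simpa using hi
      have hj' : j = k := by simpa using hj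
      rw [hi', hj', norm_one]
    obtain ⟨Φ, C, hC, hΦ, h1, h2⟩ := ih hG' fun i hi j hj hij =>
      hp i (Finset.mem_insert_of_mem hi) j (Finset.mem_insert_of_mem hj) hij
    have hne : ∀ i ∈ G, i ≠ k := fun i hi h => hk (h ▸ hi)
    have hp' : ∀ i, ∃ (φ : E → ℂ) (C' : ℝ), DifferentiableOn ℂ φ V ∧
        (i ∈ G → ∀ z ∈ V, ‖φ z‖ ≤ C' ∧ ‖φ z‖ * (‖f i z‖ + ‖f k z‖) ≤ C' * ‖f i z‖ ∧
          ‖1 - φ z‖ * (‖f i z‖ + ‖f k z‖) ≤ C' * ‖f k z‖) := by
      intro i
      by_cases hi : i ∈ G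
      · obtain ⟨C', φ, hφ, e1⟩ :=
          hp i (Finset.mem_insert_of_mem hi) k (Finset.mem_insert_self k G) (hne i hi)
        exact ⟨φ, C', hφ, fun _ => e1⟩
      · exact ⟨0, 0, differentiableOn_const 0, fun h => absurd h hi⟩
    choose φ C' hφ hφ' using hp'
    obtain ⟨K, hK⟩ : ∃ K : ℝ, K = ∑ i ∈ G, |C' i| := ⟨_, rfl⟩
    have hCK : ∀ i ∈ G, C' i ≤ K := fun i hi => by
      rw [hK]
      exact (le_abs_self _).trans (Finset.single_le_sum (f := fun i => |C' i|)
        (fun _ _ => abs_nonneg _) hi)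
    have hK0 : 0 ≤ K := by
      rw [hK]
      exact Finset.sum_nonneg fun _ _ => abs_nonneg _
    -- the bounds of the cutoffs
    have b1 : ∀ z ∈ V, ∀ i ∈ G, ‖φ i z‖ ≤ K ∧ ‖φ i z‖ * ‖f k z‖ ≤ K * ‖f i z‖ ∧
        ‖1 - φ i z‖ ≤ 1 + K ∧ ‖1 - φ i z‖ * ‖f i z‖ ≤ K * ‖f k z‖ := by
      intro z hz i hi
      obtain ⟨e1, e2, e3⟩ := hφ' i hi z hz
      have e4 := hCK i hi
      have n1 := norm_nonneg (φ i z)
      have n2 := norm_nonneg (1 - φ i z)
      have n3 := norm_nonneg (f i z)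
      have n4 := norm_nonneg (f k z)
      have e5 : ‖1 - φ i z‖ ≤ 1 + ‖φ i z‖ := by
        have := norm_sub_le (1 : ℂ) (φ i z)
        rwa [norm_one] at this
      refine ⟨e1.trans e4, ?_, by linarith, ?_⟩ <;> nlinarith
    have hcard : (0 : ℝ) ≤ (G.card : ℝ) := Nat.cast_nonneg _
    refine ⟨fun j => if j = k then fun z => ∑ i ∈ G, Φ i z * (1 - φ i z)
      else fun z => Φ j z * φ j z, C * K + G.card * (C * (1 + K)), by positivity, ?_, ?_, ?_⟩
    · intro j
      by_cases hj : j = k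
      · simp only [if_pos hj]
        exact DifferentiableOn.fun_sum fun i _ => (hΦ i).mul ((differentiableOn_const 1).sub (hφ i))
      · simp only [if_neg hj]
        exact (hΦ j).mul (hφ j)
    · intro z hz
      rw [Finset.sum_insert hk]
      simp only [if_true]
      have e1 : ∑ i ∈ G, (if i = k then fun z => ∑ i ∈ G, Φ i z * (1 - φ i z)
          else fun z => Φ i z * φ i z) z = ∑ i ∈ G, Φ i z * φ i z := by
        refine Finset.sum_congr rfl fun i hi => ?_
        rw [if_neg (hne i hi)]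
      rw [e1, ← Finset.sum_add_distrib]
      refine (Finset.sum_congr rfl fun i _ => ?_).trans (h1 z hz)
      ring
    · intro z hz i hi
      have hCK2 : 0 ≤ C * K := mul_nonneg hC hK0
      by_cases hik : i = k
      · simp only [if_pos hik]
        rw [hik]
        have hs : ∀ a B : ℝ, 0 ≤ a → (∀ i ∈ G, ‖Φ i z * (1 - φ i z)‖ * a ≤ C * (1 + K) * B) →
            ‖∑ i ∈ G, Φ i z * (1 - φ i z)‖ * a ≤ G.card * (C * (1 + K)) * B := by
          intro a B ha hB
          calc ‖∑ i ∈ G, Φ i z * (1 - φ i z)‖ * a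
              ≤ (∑ i ∈ G, ‖Φ i z * (1 - φ i z)‖) * a :=
                mul_le_mul_of_nonneg_right (norm_sum_le _ _) ha
            _ = ∑ i ∈ G, ‖Φ i z * (1 - φ i z)‖ * a := Finset.sum_mul _ _ _
            _ ≤ ∑ _i ∈ G, C * (1 + K) * B := Finset.sum_le_sum hB
            _ = G.card * (C * (1 + K)) * B := by rw [Finset.sum_const, nsmul_eq_mul]; ring
        refine ⟨?_, fun j hj => ?_⟩
        · have e1 := hs 1 1 zero_le_one fun i hi => by
            rw [mul_one, mul_one, norm_mul]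
            exact mul_le_mul (h2 z hz i hi).1 (b1 z hz i hi).2.2.1 (norm_nonneg _) hC
          rw [mul_one, mul_one] at e1
          linarith
        · have e1 := hs ‖f j z‖ ‖f k z‖ (norm_nonneg _) fun i hi => by
            rw [norm_mul]
            obtain ⟨c1, c2⟩ := h2 z hz i hi
            obtain ⟨-, -, c3, c4⟩ := b1 z hz i hi
            have n3 := norm_nonneg (f k z)
            rcases Finset.mem_insert.1 hj with hjk | hjG
            · rw [hjk]
              exact mul_le_mul_of_nonneg_right (mul_le_mul c1 c3 (norm_nonneg _) hC) n3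
            · calc ‖Φ i z‖ * ‖1 - φ i z‖ * ‖f j z‖ = (‖Φ i z‖ * ‖f j z‖) * ‖1 - φ i z‖ := by ring
                _ ≤ (C * ‖f i z‖) * ‖1 - φ i z‖ :=
                  mul_le_mul_of_nonneg_right (c2 j hjG) (norm_nonneg _)
                _ = C * (‖1 - φ i z‖ * ‖f i z‖) := by ring
                _ ≤ C * (K * ‖f k z‖) := mul_le_mul_of_nonneg_left c4 hC
                _ ≤ C * (1 + K) * ‖f k z‖ := by
                  have : 0 ≤ C * ‖f k z‖ := mul_nonneg hC n3
                  linarith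
          have n3 : 0 ≤ C * K * ‖f k z‖ := mul_nonneg hCK2 (norm_nonneg _)
          calc _ ≤ G.card * (C * (1 + K)) * ‖f k z‖ := e1
            _ ≤ _ := by linarith
      · simp only [if_neg hik]
        have hiG : i ∈ G := (Finset.mem_insert.1 hi).resolve_left hik
        obtain ⟨c1, c2⟩ := h2 z hz i hiG
        obtain ⟨c3, c4, -, -⟩ := b1 z hz i hiG
        have hn : 0 ≤ (G.card : ℝ) * (C * (1 + K)) := by positivity
        refine ⟨?_, fun j hj => ?_⟩
        · rw [norm_mul]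
          have := mul_le_mul c1 c3 (norm_nonneg _) hC
          linarith
        · rw [norm_mul]
          have e1 : ‖Φ i z‖ * ‖φ i z‖ * ‖f j z‖ ≤ C * K * ‖f i z‖ := by
            rcases Finset.mem_insert.1 hj with hjk | hjG
            · rw [hjk]
              calc ‖Φ i z‖ * ‖φ i z‖ * ‖f k z‖ = ‖Φ i z‖ * (‖φ i z‖ * ‖f k z‖) := by ring
                _ ≤ C * (K * ‖f i z‖) := mul_le_mul c1 c4 (by positivity) hC
                _ = C * K * ‖f i z‖ := by ring
            · calc ‖Φ i z‖ * ‖φ i z‖ * ‖f j z‖ = (‖Φ i z‖ * ‖f j z‖) * ‖φ i z‖ := by ring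
                _ ≤ (C * ‖f i z‖) * K := mul_le_mul (c2 j hjG) c3 (norm_nonneg _) (by positivity)
                _ = C * K * ‖f i z‖ := by ring
          have : 0 ≤ (G.card : ℝ) * (C * (1 + K)) * ‖f i z‖ := by positivity
          linarith

end Pool.Agent.MPca0fc2.OV
end
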