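import Pool.Agent.Lib.MP_ca0fc2_an.Mg.G112

section

/-! Campaign OV, row C1: discretization of the potential. -/

set_option autoImplicit false

open Metric Set MeasureTheory Filter Topology

namespace Pool.Agent.MPca0fc2.OV

theorem PosCap.nonempty {K : Set ℂ} (hK : PosCap K) : K.Nonempty := by
  obtain ⟨-, μ, B, hμ, hK0, -⟩ := hK
  rw [nonempty_iff_ne_empty]
  rintro rfl
  rw [compl_empty, measure_univ] at hK0
  exact one_ne_zero hK0

/-- disjoint measurable pieces of small balls with centres in `K` -/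
private theorem C1_pieces {K : Set ℂ} (hK : IsCompact K) {η : ℝ} (hη : 0 < η) :
    ∃ (m : ℕ) (b : Fin m → ℂ) (A : Fin m → Set ℂ), (∀ i, b i ∈ K) ∧ (∀ i, MeasurableSet (A i)) ∧
      (∀ i j, i ≠ j → Disjoint (A i) (A j)) ∧ (∀ i, A i ⊆ ball (b i) η) ∧ K ⊆ ⋃ i, A i := by
  classical
  obtain ⟨t, htK, ht⟩ := hK.elim_nhds_subcover (fun x => ball x η) fun x _ => ball_mem_nhds x hη
  obtain ⟨e⟩ : Nonempty (t ≃ Fin t.card) := ⟨t.equivFin⟩
  refine ⟨t.card, fun i => (e.symm i : ℂ), fun i => ball (e.symm i : ℂ) η \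
    ⋃ j ∈ {j | j < i}, ball (e.symm j : ℂ) η, fun i => htK _ (e.symm i).2, fun i => ?_,
    fun i j hij => ?_, fun i => sdiff_subset, fun x hx => ?_⟩
  · exact measurableSet_ball.diff ((isOpen_biUnion fun j _ => isOpen_ball).measurableSet)
  · rw [Set.disjoint_left]
    rintro x ⟨hx1, hx2⟩ ⟨hx3, hx4⟩
    rcases lt_or_gt_of_ne hij with h | h
    · exact hx4 (mem_iUnion₂.2 ⟨i, h, hx1⟩)
    · exact hx2 (mem_iUnion₂.2 ⟨j, h, hx3⟩)
  · obtain ⟨b, hb, hxb⟩ := mem_iUnion₂.1 (ht hx)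
    have hne : (Finset.univ.filter fun i : Fin t.card => x ∈ ball (e.symm i : ℂ) η).Nonempty :=
      ⟨e ⟨b, hb⟩, by simpa using hxb⟩
    obtain ⟨i, hi, hmin⟩ := Finset.exists_min_image _ id hne
    refine mem_iUnion.2 ⟨i, (Finset.mem_filter.1 hi).2, fun hcon => ?_⟩
    obtain ⟨j, hj, hxj⟩ := mem_iUnion₂.1 hcon
    exact absurd (hmin j (Finset.mem_filter.2 ⟨Finset.mem_univ _, hxj⟩)) (not_le.2 hj)

/-- a small change of the argument of the logarithm -/
private theorem C1_log {p q η : ℝ} (hη : 0 < η) (hp : η ≤ p) (hq : η ≤ q) (h : |p - q| ≤ η) :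
    Real.log p ≤ Real.log q + 1 := by
  have hq0 : 0 < q := hη.trans_le hq
  have hp0 : 0 < p := hη.trans_le hp
  have h1 : Real.log (p / q) ≤ p / q - 1 := Real.log_le_sub_one_of_pos (div_pos hp0 hq0)
  rw [Real.log_div hp0.ne' hq0.ne'] at h1
  have h2 : p / q - 1 ≤ 1 := by
    rw [div_sub_one hq0.ne', div_le_one hq0]
    exact (le_abs_self _).trans (h.trans hq)
  linarith

/-- the discretization of the potential -/
private theorem C1_disc {K : Set ℂ} (hK : IsCompact K) {μ : Measure ℂ} [IsProbabilityMeasure μ]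
    (hμ : μ Kᶜ = 0) {η : ℝ} (hη : 0 < η) : ∃ (m : ℕ) (a : Fin m → ℂ) (w : Fin m → ℝ),
      (∀ i, a i ∈ K) ∧ (∀ i, 0 ≤ w i) ∧ ∑ i, w i = 1 ∧ ∀ t : ℂ, (∀ a ∈ K, η ≤ ‖t - a‖) →
        ∫ a, Real.log ‖t - a‖ ∂μ ≤ ∑ i, w i * Real.log ‖t - a i‖ + 1 := by
  obtain ⟨m, b, A, hb, hA, hd, hAb, hKA⟩ := C1_pieces hK hη
  have hcov : ∀ᵐ a ∂μ, a ∈ ⋃ i, A i := by
    rw [ae_iff]
    exact measure_mono_null (fun x hx => fun h => hx (hKA h)) hμ
  have haeK : ∀ᵐ a ∂μ, a ∈ K := by
    rw [ae_iff]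
    exact hμ
  have hsum : ∑ i, μ.real (A i) = 1 := by
    rw [← measureReal_iUnion_fintype (fun i j hij => hd i j hij) hA]
    have h1 : μ (⋃ i, A i) = 1 := by
      rw [← measure_univ (μ := μ)]
      exact measure_congr (by filter_upwards [hcov] with a ha; exact eq_true ha)
    rw [measureReal_def, h1, ENNReal.toReal_one]
  refine ⟨m, b, fun i => μ.real (A i), hb, fun i => measureReal_nonneg, hsum, fun t ht => ?_⟩
  obtain ⟨R, hR⟩ := hK.isBounded.exists_norm_le
  have hmeas : Measurable fun a : ℂ => Real.log ‖t - a‖ :=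
    Real.measurable_log.comp ((measurable_const.sub measurable_id).norm)
  have hint : Integrable (fun a : ℂ => Real.log ‖t - a‖) μ := by
    refine Integrable.of_bound hmeas.aestronglyMeasurable (|Real.log η| + |Real.log (‖t‖ + |R| + 1)|)
      ?_
    filter_upwards [haeK] with a ha
    have h1 := ht a ha
    have h2 : ‖t - a‖ ≤ ‖t‖ + |R| + 1 := by
      have := hR a ha
      linarith [norm_sub_le t a, le_abs_self R]
    rw [Real.norm_eq_abs, abs_le]
    have h3 : Real.log η ≤ Real.log ‖t - a‖ := Real.log_le_log hη h1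
    have h4 : Real.log ‖t - a‖ ≤ Real.log (‖t‖ + |R| + 1) :=
      Real.log_le_log (hη.trans_le h1) h2
    exact ⟨by linarith [neg_abs_le (Real.log η), abs_nonneg (Real.log (‖t‖ + |R| + 1))],
      by linarith [le_abs_self (Real.log (‖t‖ + |R| + 1)), abs_nonneg (Real.log η)]⟩
  have h1 : ∫ a, Real.log ‖t - a‖ ∂μ = ∑ i, ∫ a in A i, Real.log ‖t - a‖ ∂μ := by
    rw [← integral_iUnion_fintype hA (fun i j hij => hd i j hij) (fun i => hint.integrableOn),
      Measure.restrict_eq_self_of_ae_mem hcov]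
  rw [h1]
  have h2 : ∀ i, ∫ a in A i, Real.log ‖t - a‖ ∂μ ≤
      μ.real (A i) * (Real.log ‖t - b i‖ + 1) := by
    intro i
    have h3 : ∫ a in A i, Real.log ‖t - a‖ ∂μ ≤
        ∫ _a in A i, (Real.log ‖t - b i‖ + 1) ∂μ := by
      refine integral_mono_ae hint.integrableOn (integrable_const _) ?_
      filter_upwards [ae_restrict_mem (hA i), ae_restrict_of_ae haeK] with a ha haK
      refine C1_log hη (ht a haK) (ht (b i) (hb i)) ?_
      have h4 : |‖t - a‖ - ‖t - b i‖| ≤ ‖(t - a) - (t - b i)‖ := abs_norm_sub_norm_le _ _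
      refine h4.trans ?_
      have h5 := hAb i ha
      rw [mem_ball, dist_eq_norm] at h5
      rw [show (t - a) - (t - b i) = -(a - b i) by ring, norm_neg]
      exact h5.le
    rw [setIntegral_const, smul_eq_mul] at h3
    exact h3
  calc ∑ i, ∫ a in A i, Real.log ‖t - a‖ ∂μ
      ≤ ∑ i, μ.real (A i) * (Real.log ‖t - b i‖ + 1) := Finset.sum_le_sum fun i _ => h2 i
    _ = ∑ i, μ.real (A i) * Real.log ‖t - b i‖ + 1 := by
        simp only [mul_add, mul_one, Finset.sum_add_distrib, hsum]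

/-- PROOF. `K ⊆ closedBall 0 R`, `R ≥ 1`. Cover `K` by finitely many sets of diameter `< η / 2` (or so), make them
disjoint and measurable, `w i` = mass, `a i` a point of `K` in the piece (drop pieces which do not meet `K`). For
`t = x / y` with `|t - a| ≥ η` on `K`: `|log |t - a| - log |t - a'|| ≤ |a - a'| / (η / 2) ≤ 1`, so the sum is within `1` of
`∫ log |t - a| dμ ≥ -B`. Homogeneous: if `|x| ≥ 2 R |y|` directly, else `y ≠ 0` and `|x| + |y| ≤ (1 + 2 R) |y|`. Upper bound: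
`|x - a y| ≤ R (|x| + |y|)`. -/
theorem posCap_finite {K : Set ℂ} (hK : PosCap K) : ∃ B : ℝ, ∀ η > 0, ∃ (m : ℕ) (a : Fin m → ℂ)
    (w : Fin m → ℝ), (∀ i, a i ∈ K) ∧ (∀ i, 0 ≤ w i) ∧ ∑ i, w i = 1 ∧
    ∀ x y : ℂ, Away K η x y →
      |∑ i, w i * Real.log ‖x - a i * y‖ - Real.log (‖x‖ + ‖y‖)| ≤ B := by
  obtain ⟨hKc, μ, B, hμ, hμK, hB⟩ := hK
  obtain ⟨R, hR1, hR⟩ : ∃ R : ℝ, 1 ≤ R ∧ ∀ a ∈ K, ‖a‖ ≤ R := by
    obtain ⟨R, hR⟩ := hKc.isBounded.exists_norm_le
    exact ⟨max R 1, le_max_right _ _, fun a ha => (hR a ha).trans (le_max_left _ _)⟩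
  have hR0 : 0 < R := by linarith
  refine ⟨|B| + 1 + Real.log R + Real.log 3 + Real.log (1 + 2 * R), fun η hη => ?_⟩
  obtain ⟨m, a, w, ha, hw, hw1, h⟩ := C1_disc hKc hμK hη
  refine ⟨m, a, w, ha, hw, hw1, fun x y ⟨hs, hxy⟩ => ?_⟩
  have hlR : 0 ≤ Real.log R := Real.log_nonneg hR1
  have hl3 : 0 ≤ Real.log 3 := Real.log_nonneg (by norm_num)
  have hlR2 : 0 ≤ Real.log (1 + 2 * R) := Real.log_nonneg (by linarith)
  have hpos : ∀ i, 0 < ‖x - a i * y‖ := fun i =>
    (mul_pos hη hs).trans_le (hxy (a i) (ha i))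
  -- sums with weights
  have hup : ∀ c : ℝ, (∀ i, Real.log ‖x - a i * y‖ ≤ c) →
      ∑ i, w i * Real.log ‖x - a i * y‖ ≤ c := by
    intro c hc
    calc ∑ i, w i * Real.log ‖x - a i * y‖ ≤ ∑ i, w i * c :=
          Finset.sum_le_sum fun i _ => mul_le_mul_of_nonneg_left (hc i) (hw i)
      _ = c := by rw [← Finset.sum_mul, hw1, one_mul]
  have hdn : ∀ c : ℝ, (∀ i, c ≤ Real.log ‖x - a i * y‖) →
      c ≤ ∑ i, w i * Real.log ‖x - a i * y‖ := by
    intro c hc
    calc c = ∑ i, w i * c := by rw [← Finset.sum_mul, hw1, one_mul]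
      _ ≤ ∑ i, w i * Real.log ‖x - a i * y‖ :=
          Finset.sum_le_sum fun i _ => mul_le_mul_of_nonneg_left (hc i) (hw i)
  rw [abs_le]
  refine ⟨?_, ?_⟩
  · rcases le_or_gt (2 * R * ‖y‖) ‖x‖ with hc | hc
    · have h1 : Real.log (‖x‖ + ‖y‖) - Real.log 3 ≤ ∑ i, w i * Real.log ‖x - a i * y‖ := by
        refine hdn _ fun i => ?_
        rw [← Real.log_div hs.ne' (by norm_num)]
        refine Real.log_le_log (by positivity) ?_
        have h2 : ‖a i * y‖ ≤ R * ‖y‖ := by
          rw [norm_mul]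
          exact mul_le_mul_of_nonneg_right (hR _ (ha i)) (norm_nonneg _)
        have h3 : ‖x‖ - ‖a i * y‖ ≤ ‖x - a i * y‖ := norm_sub_norm_le _ _
        have h4 : ‖y‖ ≤ ‖x‖ / 2 := by
          have : 2 * ‖y‖ ≤ 2 * R * ‖y‖ := by nlinarith [norm_nonneg y]
          linarith
        linarith
      linarith [abs_nonneg B]
    · have hy : y ≠ 0 := by
        rintro rfl
        rw [norm_zero, mul_zero] at hc
        linarith [norm_nonneg x]
      have hy0 : 0 < ‖y‖ := norm_pos_iff.2 hy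
      have ht : ∀ a' ∈ K, η ≤ ‖x / y - a'‖ := by
        intro a' ha'
        have h1 := hxy a' ha'
        have h2 : x - a' * y = y * (x / y - a') := by field_simp
        rw [h2, norm_mul] at h1
        have h3 : η * ‖y‖ ≤ η * (‖x‖ + ‖y‖) := by nlinarith [norm_nonneg x]
        have h4 : ‖y‖ * η ≤ ‖y‖ * ‖x / y - a'‖ := by linarith
        exact le_of_mul_le_mul_left h4 hy0
      have htK : x / y ∉ K := fun hmem => by
        have := ht _ hmem
        rw [sub_self, norm_zero] at this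
        linarith
      have h1 := h (x / y) ht
      have h2 := hB (x / y) htK
      have h3 : ∑ i, w i * Real.log ‖x - a i * y‖ =
          Real.log ‖y‖ + ∑ i, w i * Real.log ‖x / y - a i‖ := by
        have h4 : ∀ i, w i * Real.log ‖x - a i * y‖ =
            w i * Real.log ‖y‖ + w i * Real.log ‖x / y - a i‖ := by
          intro i
          have h5 : x - a i * y = y * (x / y - a i) := by field_simp
          rw [h5, norm_mul, Real.log_mul hy0.ne' (hη.trans_le (ht _ (ha i))).ne']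
          ring
        rw [Finset.sum_congr rfl fun i _ => h4 i, Finset.sum_add_distrib, ← Finset.sum_mul, hw1,
          one_mul]
      have h4 : Real.log (‖x‖ + ‖y‖) ≤ Real.log (1 + 2 * R) + Real.log ‖y‖ := by
        rw [← Real.log_mul (by linarith) hy0.ne']
        refine Real.log_le_log hs ?_
        nlinarith
      rw [h3]
      linarith [le_abs_self B]
  · have h1 : ∑ i, w i * Real.log ‖x - a i * y‖ ≤ Real.log R + Real.log (‖x‖ + ‖y‖) := by
      refine hup _ fun i => ?_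
      rw [← Real.log_mul hR0.ne' hs.ne']
      refine Real.log_le_log (hpos i) ?_
      have h2 : ‖a i * y‖ ≤ R * ‖y‖ := by
        rw [norm_mul]
        exact mul_le_mul_of_nonneg_right (hR _ (ha i)) (norm_nonneg _)
      have h3 : ‖x - a i * y‖ ≤ ‖x‖ + ‖a i * y‖ := norm_sub_le _ _
      nlinarith [norm_nonneg x, norm_nonneg y]
    linarith [abs_nonneg B]

end Pool.Agent.MPca0fc2.OV
end

section

/-! Campaign OV, row S2: compact sets of positive capacity contain perfect ones. -/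

set_option autoImplicit false

open Metric Set MeasureTheory Filter Topology

namespace Pool.Agent.MPca0fc2.OV

/-- a measure with bounded logarithmic potential has no atoms -/
theorem pot_noatom {K : Set ℂ} {μ : Measure ℂ} [IsProbabilityMeasure μ] {B : ℝ}
    (hK : IsCompact K) (h0 : μ Kᶜ = 0)
    (hB : ∀ t : ℂ, Integrable (fun a => Real.log ‖t - a‖) μ ∧ -B ≤ ∫ a, Real.log ‖t - a‖ ∂μ)
    (a : ℂ) : μ {a} = 0 := by
  by_contra hne
  have hpos : 0 < μ {a} := pos_iff_ne_zero.2 hne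
  obtain ⟨R, hR⟩ := hK.isBounded.exists_norm_le
  set m : ℝ := (μ {a}).toReal with hmdef
  have hm0 : 0 < m := ENNReal.toReal_pos hpos.ne' (measure_ne_top _ _)
  set C : ℝ := ‖a‖ + 1 + |R| with hC
  have hC0 : 0 ≤ C := by positivity
  obtain ⟨s, hs0, hs1, hs⟩ : ∃ s : ℝ, 0 < s ∧ s ≤ 1 ∧ m * Real.log s + C < -B := by
    refine ⟨Real.exp (-(|B| + C + 1) / m), Real.exp_pos _, ?_, ?_⟩
    · rw [Real.exp_le_one_iff]
      exact div_nonpos_of_nonpos_of_nonneg (by linarith [abs_nonneg B]) hm0.le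
    · rw [Real.log_exp, mul_div_cancel₀ _ hm0.ne']
      linarith [le_abs_self B]
  obtain ⟨hi, hl⟩ := hB (a + s)
  have hms : MeasurableSet ({a} : Set ℂ) := measurableSet_singleton a
  have h1 : ∫ b in ({a} : Set ℂ), Real.log ‖a + s - b‖ ∂μ = m * Real.log s := by
    rw [Measure.restrict_singleton, integral_smul_measure, integral_dirac, smul_eq_mul,
      ← hmdef, add_sub_cancel_left, Complex.norm_real, Real.norm_of_nonneg hs0.le]
  have hae : ∀ᵐ b ∂μ, b ∈ K := by
    rw [ae_iff]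
    exact h0
  have h2 : ∫ b in ({a} : Set ℂ)ᶜ, Real.log ‖a + s - b‖ ∂μ ≤ C := by
    have h3 : ∫ b in ({a} : Set ℂ)ᶜ, Real.log ‖a + s - b‖ ∂μ ≤ ∫ _ in ({a} : Set ℂ)ᶜ, C ∂μ := by
      refine integral_mono_ae hi.restrict (integrable_const _) ?_
      filter_upwards [ae_restrict_of_ae hae] with b hb
      have h4 := Real.log_le_self (norm_nonneg (a + s - b))
      have h5 := norm_sub_le (a + s) b
      have h6 := norm_add_le a (s : ℂ)
      have h7 := hR b hb
      rw [Complex.norm_real, Real.norm_of_nonneg hs0.le] at h6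
      show Real.log ‖a + s - b‖ ≤ C
      linarith [le_abs_self R]
    refine h3.trans ?_
    rw [integral_const, smul_eq_mul]
    have h7 : (μ.restrict ({a} : Set ℂ)ᶜ).real univ ≤ 1 := by
      rw [measureReal_def, Measure.restrict_apply_univ]
      exact ENNReal.toReal_le_of_le_ofReal zero_le_one (by simpa using prob_le_one)
    nlinarith
  have h3 := integral_add_compl hms hi
  rw [h1] at h3
  linarith

/-- the compact sets of positive capacity contain perfect sets of positive capacity -/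
theorem capPos_perfect {K : Set ℂ} (hK : CapPos K) : ∃ K' ⊆ K, PosCap K' ∧ CapPos K' ∧
    ∀ a ∈ K', ∀ ε > 0, {b | b ∈ K' ∧ ‖b - a‖ < ε}.Infinite := by
  obtain ⟨hKc, μ, B, hμ, h0, hB⟩ := hK
  have hatom := pot_noatom hKc h0 hB
  obtain ⟨K', hK'⟩ : ∃ K' : Set ℂ, K' = {a | a ∈ K ∧ ∀ ε > 0, 0 < μ (ball a ε)} := ⟨_, rfl⟩
  have hsub : K' ⊆ K := by
    rw [hK']
    exact fun a ha => ha.1
  have hclosed : IsClosed {a : ℂ | ∀ ε > 0, 0 < μ (ball a ε)} := by
    rw [← isOpen_compl_iff, Metric.isOpen_iff]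
    intro a ha
    simp only [mem_compl_iff, mem_ofPred_eq] at ha
    push Not at ha
    obtain ⟨ε, hε, h1⟩ := ha
    refine ⟨ε / 2, half_pos hε, fun b hb hcon => ?_⟩
    have h2 := hcon (ε / 2) (half_pos hε)
    refine absurd (h2.trans_le ((measure_mono ?_).trans h1)) (lt_irrefl _)
    intro c hc
    rw [mem_ball] at hb hc ⊢
    linarith [dist_triangle c b a]
  have hcomp : IsCompact K' := by
    rw [hK']
    exact hKc.inter_right hclosed
  have hnull : μ K'ᶜ = 0 := by
    have h1 : μ {a : ℂ | ∀ ε > 0, 0 < μ (ball a ε)}ᶜ = 0 := by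
      refine measure_null_of_locally_null _ fun a ha => ?_
      simp only [mem_compl_iff, mem_ofPred_eq] at ha
      push Not at ha
      obtain ⟨ε, hε, h1⟩ := ha
      exact ⟨ball a ε, mem_nhdsWithin_of_mem_nhds (ball_mem_nhds a hε),
        le_antisymm h1 zero_le⟩
    have h2 : K'ᶜ ⊆ Kᶜ ∪ {a : ℂ | ∀ ε > 0, 0 < μ (ball a ε)}ᶜ := by
      intro a ha
      by_contra hcon
      rw [mem_union, not_or, notMem_compl_iff, notMem_compl_iff] at hcon
      refine ha ?_
      rw [hK']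
      exact hcon
    exact measure_mono_null h2 (measure_union_null h0 h1)
  have hpos : 0 < μ K' := by
    have h4 : μ univ ≤ μ K' + μ K'ᶜ := by
      rw [← union_compl_self K']
      exact measure_union_le _ _
    rw [measure_univ, hnull, add_zero] at h4
    exact zero_lt_one.trans_le h4
  have hcap := capPos_part hKc h0 hB hcomp hsub hpos
  refine ⟨K', hsub, hcap.posCap, hcap, fun a ha ε hε hfin => ?_⟩
  have h1 : μ {b | b ∈ K' ∧ ‖b - a‖ < ε} = 0 := by
    rw [← biUnion_of_singleton {b | b ∈ K' ∧ ‖b - a‖ < ε}]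
    exact (measure_biUnion_null_iff hfin.countable).2 fun b _ => hatom b
  have h2 : μ (ball a ε) ≤ μ {b | b ∈ K' ∧ ‖b - a‖ < ε} + μ K'ᶜ := by
    refine (measure_mono fun b hb => ?_).trans (measure_union_le _ _)
    by_cases hbK : b ∈ K'
    · left
      exact ⟨hbK, by rwa [mem_ball, dist_eq_norm] at hb⟩
    · right
      exact hbK
  have h3 : 0 < μ (ball a ε) := by
    rw [hK'] at ha
    exact ha.2 ε hε
  rw [h1, hnull, add_zero] at h2
  exact absurd (h3.trans_le h2) (lt_irrefl _)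

end Pool.Agent.MPca0fc2.OV
end
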