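import Mathlib
import Pool.Agent.Lib.MP_ca0fc2_an.Mg.G073
import Pool.Agent.Lib.MP_ca0fc2_an.Mg.G112
import Pool.Agent.Lib.MP_ca0fc2_an.CoronaDisc
import Pool.Agent.Lib.MP_ca0fc2_an.Mg.G114

section

/-! Campaign OV: factorisation of a holomorphic function through the disc (the universal covering of the set of its
values), by an extremal problem. -/

set_option autoImplicit false

open Metric Set Filter Topology

namespace Pool.Agent.MPca0fc2.OV

/-- A zero-free holomorphic function on a convex open set has a holomorphic logarithm. -/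
theorem exists_log {E : Type*} [NormedAddCommGroup E] [NormedSpace ℂ E] [NormedSpace ℝ E]
    {V : Set E} (hV : IsOpen V) (hc : Convex ℝ V) {F : E → ℂ} (hF : DifferentiableOn ℂ F V)
    (h0 : ∀ z ∈ V, F z ≠ 0) :
    ∃ g : E → ℂ, DifferentiableOn ℂ g V ∧ ∀ z ∈ V, Complex.exp (g z) = F z := by
  rcases V.eq_empty_or_nonempty with hne | hne
  · exact ⟨fun _ => 0, by rw [hne]; exact differentiableOn_empty, fun z hz => by simp [hne] at hz⟩
  have hs : IsSimplyConnected V := by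
    have : ContractibleSpace V := hc.contractibleSpace hne
    exact (inferInstance : SimplyConnectedSpace V)
  obtain ⟨g, hgc, hg⟩ := Complex.exists_continuousOn_eqOn_exp_comp hs hV hF.continuousOn
    (by rintro ⟨z, hz, hz0⟩; exact h0 z hz hz0)
  have hg' : ∀ z ∈ V, Complex.exp (g z) = F z := fun z hz => hg hz
  refine ⟨g, fun z hz => ?_, hg'⟩
  have hgz : ContinuousAt g z := hgc.continuousAt (hV.mem_nhds hz)
  have hFz : DifferentiableAt ℂ F z := hF.differentiableAt (hV.mem_nhds hz)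
  have h1 : ∀ᶠ x in 𝓝 z, ‖g x - g z‖ < 1 := by
    have h2 : Tendsto (fun x => g x - g z) (𝓝 z) (𝓝 0) := by
      have := (hgz.tendsto).sub_const (g z)
      rwa [sub_self] at this
    exact h2.norm.eventually_lt_const (by simp)
  have h3 : ∀ᶠ x in 𝓝 z, g x = Complex.log (F x / F z) + g z := by
    filter_upwards [h1, hV.mem_nhds hz] with x hx hxV
    have h4 : F x / F z = Complex.exp (g x - g z) := by
      rw [Complex.exp_sub, hg' x hxV, hg' z hz]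
    rw [h4, Complex.log_exp, sub_add_cancel]
    · have := (abs_le.1 (Complex.abs_im_le_norm (g x - g z))).1
      linarith [Real.pi_gt_three]
    · have := (abs_le.1 (Complex.abs_im_le_norm (g x - g z))).2
      linarith [Real.pi_gt_three]
  have h5 : DifferentiableAt ℂ (fun x => Complex.log (F x / F z) + g z) z := by
    have h6 : DifferentiableAt ℂ (fun x => F x / F z) z := by
      simp only [div_eq_mul_inv]
      exact hFz.mul_const _
    refine (h6.clog ?_).add_const _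
    rw [div_self (h0 z hz)]
    exact Complex.one_mem_slitPlane
  exact (h5.congr_of_eventuallyEq h3).differentiableWithinAt

/-- Moebius transformations of the disc -/
noncomputable def mb (a z : ℂ) : ℂ := (z - a) / (1 - (starRingEnd ℂ) a * z)

theorem mb_den {a z : ℂ} (ha : ‖a‖ < 1) (hz : ‖z‖ < 1) : 1 - (starRingEnd ℂ) a * z ≠ 0 := by
  intro h
  have h1 : (starRingEnd ℂ) a * z = 1 := by linear_combination -h
  have h2 : ‖(starRingEnd ℂ) a * z‖ < 1 := by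
    rw [norm_mul, RCLike.norm_conj]
    nlinarith [norm_nonneg a, norm_nonneg z]
  rw [h1, norm_one] at h2
  exact lt_irrefl _ h2

theorem mb_sq_norm (a z : ℂ) :
    ‖1 - (starRingEnd ℂ) a * z‖ ^ 2 - ‖z - a‖ ^ 2 = (1 - ‖a‖ ^ 2) * (1 - ‖z‖ ^ 2) := by
  simp only [← Complex.normSq_eq_norm_sq, Complex.normSq_apply, Complex.sub_re, Complex.sub_im,
    Complex.mul_re, Complex.mul_im, Complex.conj_re, Complex.conj_im, Complex.one_re, Complex.one_im]
  ring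

theorem mb_lt {a z : ℂ} (ha : ‖a‖ < 1) (hz : ‖z‖ < 1) : ‖mb a z‖ < 1 := by
  have h1 := mb_sq_norm a z
  have h2 : 0 < ‖1 - (starRingEnd ℂ) a * z‖ := norm_pos_iff.2 (mb_den ha hz)
  have h3 : 0 < (1 - ‖a‖ ^ 2) * (1 - ‖z‖ ^ 2) := by
    apply mul_pos <;> nlinarith [norm_nonneg a, norm_nonneg z]
  unfold mb
  rw [norm_div, div_lt_one h2]
  nlinarith [norm_nonneg (z - a)]

theorem mb_self (a : ℂ) : mb a a = 0 := by
  unfold mb
  rw [sub_self, zero_div]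

theorem mb_zero_left (z : ℂ) : mb 0 z = z := by
  unfold mb
  simp

theorem mb_neg {a z : ℂ} (ha : ‖a‖ < 1) (hz : ‖z‖ < 1) : mb (-a) (mb a z) = z := by
  have h1 := mb_den ha hz
  have h2 : 1 - (starRingEnd ℂ) a * a ≠ 0 := mb_den ha ha
  unfold mb
  rw [map_neg]
  generalize (starRingEnd ℂ) a = b at h1 h2 ⊢
  have h3 : (1 : ℂ) - -b * ((z - a) / (1 - b * z)) = (1 - b * a) / (1 - b * z) := by
    rw [eq_div_iff h1, sub_mul, mul_assoc, div_mul_cancel₀ _ h1]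
    ring
  have h4 : (z - a) / (1 - b * z) - -a = z * (1 - b * a) / (1 - b * z) := by
    rw [eq_div_iff h1, sub_mul, div_mul_cancel₀ _ h1]
    ring
  rw [h3, h4, div_div_div_cancel_right₀ h1, mul_div_assoc, div_self h2, mul_one]

theorem mb_eq_zero {a z : ℂ} (ha : ‖a‖ < 1) (hz : ‖z‖ < 1) : mb a z = 0 ↔ z = a := by
  constructor
  · intro h
    have := mb_neg ha hz
    rw [h] at this
    unfold mb at this
    simpa using this.symm
  · rintro rfl
    exact mb_self z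

theorem mb_holo {a : ℂ} (ha : ‖a‖ < 1) : DifferentiableOn ℂ (mb a) (ball 0 1) := by
  intro z hz
  have hz' : ‖z‖ < 1 := by simpa using hz
  have h1 : DifferentiableAt ℂ (fun z : ℂ => z - a) z := differentiableAt_id.sub_const _
  have h2 : DifferentiableAt ℂ (fun z : ℂ => 1 - (starRingEnd ℂ) a * z) z :=
    (differentiableAt_const _).sub (differentiableAt_id.const_mul _)
  exact (h1.div h2 (mb_den ha hz')).differentiableWithinAt

/-- the square and the hyperbolic distance -/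
theorem mb_sqr (s t : ℂ) : mb (t ^ 2) (s ^ 2) = mb t s * mb (-t) s := by
  unfold mb
  rw [div_mul_div_comm, map_pow, map_neg]
  congr 1 <;> ring

/-- invariance -/
theorem mb_inv {a s t : ℂ} (ha : ‖a‖ < 1) (hs : ‖s‖ < 1) (ht : ‖t‖ < 1) :
    ‖mb (mb a t) (mb a s)‖ = ‖mb t s‖ := by
  have h1 := mb_den ha hs
  have h2 := mb_den ha ht
  have h2' : (1 : ℂ) - a * (starRingEnd ℂ) t ≠ 0 := by
    intro h
    apply h2
    have := congrArg (starRingEnd ℂ) h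
    simpa using this
  have h3 := mb_den ht hs
  have h4 : (1 : ℂ) - (starRingEnd ℂ) a * a ≠ 0 := mb_den ha ha
  have h5 : mb (mb a t) (mb a s) =
      mb t s * ((1 - a * (starRingEnd ℂ) t) / (1 - (starRingEnd ℂ) a * t)) := by
    unfold mb
    simp only [map_div₀, map_sub, map_mul, map_one, Complex.conj_conj]
    generalize (starRingEnd ℂ) a = b at h1 h2 h2' h3 h4 ⊢
    generalize (starRingEnd ℂ) t = t' at h1 h2 h2' h3 h4 ⊢
    have h6 : (s - a) / (1 - b * s) - (t - a) / (1 - b * t) =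
        (s - t) * (1 - b * a) / ((1 - b * s) * (1 - b * t)) := by
      rw [div_sub_div _ _ h1 h2]
      congr 1
      ring
    have h7 : 1 - (t' - b) / (1 - a * t') * ((s - a) / (1 - b * s)) =
        (1 - t' * s) * (1 - b * a) / ((1 - a * t') * (1 - b * s)) := by
      rw [div_mul_div_comm, eq_div_iff (mul_ne_zero h2' h1), sub_mul,
        div_mul_cancel₀ _ (mul_ne_zero h2' h1)]
      ring
    rw [h6, h7, div_div_div_eq, div_mul_div_comm, div_eq_div_iff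
      (mul_ne_zero (mul_ne_zero h1 h2) (mul_ne_zero h3 h4)) (mul_ne_zero h3 h2)]
    ring
  rw [h5, norm_mul, norm_div]
  have h8 : ‖1 - a * (starRingEnd ℂ) t‖ = ‖1 - (starRingEnd ℂ) a * t‖ := by
    rw [← RCLike.norm_conj (1 - a * (starRingEnd ℂ) t)]
    congr 1
    simp
  rw [h8, div_self (norm_ne_zero_iff.2 h2), mul_one]

section Pairs

variable {E : Type*} [NormedAddCommGroup E] [NormedSpace ℂ E]

/-- the competing pairs of the extremal problem -/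
structure PG (V : Set E) (P₀ : E → ℂ) (z₀ : E) (P : E → ℂ) (G : ℂ → ℂ) : Prop where
  hP : DifferentiableOn ℂ P V
  bP : ∀ z ∈ V, ‖P z‖ < 1
  zero : P z₀ = 0
  hG : DifferentiableOn ℂ G (ball 0 1)
  bG : ∀ s ∈ ball (0 : ℂ) 1, ‖G s‖ ≤ 1
  eq : ∀ z ∈ V, G (P z) = P₀ z

/-- there is a pair -/
theorem pair_exists {V : Set E} {P₀ : E → ℂ} {z₀ : E} (hz₀ : z₀ ∈ V)
    (hP : DifferentiableOn ℂ P₀ V) (hb : ∀ z ∈ V, ‖P₀ z‖ < 1) :
    ∃ P G, PG V P₀ z₀ P G := by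
  have ha := hb z₀ hz₀
  refine ⟨fun z => mb (P₀ z₀) (P₀ z), mb (-(P₀ z₀)), ?_, fun z hz => mb_lt ha (hb z hz), mb_self _,
    mb_holo (by rwa [norm_neg]), fun s hs => (mb_lt (by rwa [norm_neg]) (by simpa using hs)).le,
    fun z hz => mb_neg ha (hb z hz)⟩
  exact (mb_holo ha).comp hP fun z hz => by simpa using hb z hz

/-- the improvement by a square root -/
theorem pair_step [NormedSpace ℝ E] {V : Set E} (hV : IsOpen V) (hc : Convex ℝ V) {P₀ : E → ℂ}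
    {z₀ z₁ : E} (hz₀ : z₀ ∈ V) (hz₁ : z₁ ∈ V) (hne : P₀ z₀ ≠ P₀ z₁) {P : E → ℂ} {G : ℂ → ℂ}
    (h : PG V P₀ z₀ P G) {s₁ : ℂ} (hs₁ : s₁ ∈ ball (0 : ℂ) 1) (hmis : G s₁ ∉ P₀ '' V) :
    ∃ P' G', PG V P₀ z₀ P' G' ∧ ‖P z₁‖ < ‖P' z₁‖ := by
  have hs₁' : ‖s₁‖ < 1 := by simpa using hs₁
  have hR0 : ∀ z ∈ V, mb s₁ (P z) ≠ 0 := by
    intro z hz h0
    rw [mb_eq_zero hs₁' (h.bP z hz)] at h0
    exact hmis ⟨z, hz, by rw [← h.eq z hz, h0]⟩
  have hR : DifferentiableOn ℂ (fun z => mb s₁ (P z)) V :=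
    (mb_holo hs₁').comp h.hP fun z hz => by simpa using h.bP z hz
  obtain ⟨g, hg, hge⟩ := exists_log hV hc hR hR0
  set Q : E → ℂ := fun z => Complex.exp (g z / 2) with hQ
  have hQ2 : ∀ z ∈ V, Q z ^ 2 = mb s₁ (P z) := by
    intro z hz
    rw [← hge z hz, hQ, sq, ← Complex.exp_add]
    congr 1
    ring
  have hQb : ∀ z ∈ V, ‖Q z‖ < 1 := by
    intro z hz
    have h1 : ‖Q z‖ ^ 2 < 1 := by
      rw [← norm_pow, hQ2 z hz]
      exact mb_lt hs₁' (h.bP z hz)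
    nlinarith [norm_nonneg (Q z)]
  have hQd : DifferentiableOn ℂ Q V := by
    have h1 : DifferentiableOn ℂ (fun z => g z / 2) V := by
      simp only [div_eq_mul_inv]
      exact hg.mul_const _
    exact h1.cexp
  have ht := hQb z₀ hz₀
  have ht' : ‖-Q z₀‖ < 1 := by rwa [norm_neg]
  have hs₁n : ‖-s₁‖ < 1 := by rwa [norm_neg]
  refine ⟨fun z => mb (Q z₀) (Q z), fun s => G (mb (-s₁) ((mb (-Q z₀) s) ^ 2)), ⟨?_, ?_, mb_self _,
    ?_, ?_, ?_⟩, ?_⟩
  · exact (mb_holo ht).comp hQd fun z hz => by simpa using hQb z hz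
  · exact fun z hz => mb_lt ht (hQb z hz)
  · have h1 : MapsTo (fun s => (mb (-Q z₀) s) ^ 2) (ball 0 1) (ball 0 1) := by
      intro s hs
      have h2 : ‖mb (-Q z₀) s‖ < 1 := mb_lt ht' (by simpa using hs)
      rw [mem_ball_zero_iff, norm_pow]
      nlinarith [norm_nonneg (mb (-Q z₀) s)]
    have h3 : MapsTo (mb (-s₁)) (ball 0 1) (ball 0 1) := fun s hs => by
      rw [mem_ball_zero_iff]
      exact mb_lt hs₁n (by simpa using hs)
    exact h.hG.comp ((mb_holo hs₁n).comp ((mb_holo ht').pow 2) h1) (h3.comp h1)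
  · intro s hs
    have h2 : ‖mb (-Q z₀) s‖ < 1 := mb_lt ht' (by simpa using hs)
    have h3 : ‖(mb (-Q z₀) s) ^ 2‖ < 1 := by
      rw [norm_pow]
      nlinarith [norm_nonneg (mb (-Q z₀) s)]
    exact h.bG _ (by rw [mem_ball_zero_iff]; exact mb_lt hs₁n h3)
  · intro z hz
    show G (mb (-s₁) ((mb (-Q z₀) (mb (Q z₀) (Q z))) ^ 2)) = P₀ z
    rw [mb_neg ht (hQb z hz), hQ2 z hz, mb_neg hs₁' (h.bP z hz), h.eq z hz]
  · have h1 : ‖P z₁‖ = ‖mb (Q z₀) (Q z₁)‖ * ‖mb (-Q z₀) (Q z₁)‖ := by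
      rw [← norm_mul, ← mb_sqr, hQ2 z₀ hz₀, hQ2 z₁ hz₁,
        mb_inv hs₁' (h.bP z₁ hz₁) (h.bP z₀ hz₀), h.zero, mb_zero_left]
    have h2 : P z₁ ≠ 0 := by
      intro h0
      apply hne
      rw [← h.eq z₀ hz₀, ← h.eq z₁ hz₁, h0, h.zero]
    have h3 : 0 < ‖P z₁‖ := norm_pos_iff.2 h2
    have h4 : ‖mb (-Q z₀) (Q z₁)‖ < 1 := mb_lt ht' (hQb z₁ hz₁)
    have h5 : 0 < ‖mb (Q z₀) (Q z₁)‖ := by
      by_contra hcon
      have h6 : ‖mb (Q z₀) (Q z₁)‖ = 0 := le_antisymm (not_lt.1 hcon) (norm_nonneg _)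
      rw [h1, h6, zero_mul] at h3
      exact lt_irrefl _ h3
    show ‖P z₁‖ < ‖mb (Q z₀) (Q z₁)‖
    rw [h1]
    nlinarith

/-- the extremal pair -/
theorem pair_max [NormedSpace ℝ E] [FiniteDimensional ℂ E] {V : Set E} (hV : IsOpen V)
    (hc : Convex ℝ V) {P₀ : E → ℂ} {z₀ z₁ : E} (hz₀ : z₀ ∈ V) (hz₁ : z₁ ∈ V)
    (hP : DifferentiableOn ℂ P₀ V) (hb : ∀ z ∈ V, ‖P₀ z‖ < 1) :
    ∃ P G, PG V P₀ z₀ P G ∧ ∀ P' G', PG V P₀ z₀ P' G' → ‖P' z₁‖ ≤ ‖P z₁‖ := by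
  set S : Set ℝ := {r | ∃ P G, PG V P₀ z₀ P G ∧ r = ‖P z₁‖} with hS
  obtain ⟨P₁, G₁, h₁⟩ := pair_exists hz₀ hP hb
  have hSn : S.Nonempty := ⟨_, P₁, G₁, h₁, rfl⟩
  have hSb : BddAbove S := ⟨1, by
    rintro r ⟨P, G, h, rfl⟩
    exact (h.bP z₁ hz₁).le⟩
  obtain ⟨u, -, hu, huS⟩ := exists_seq_tendsto_sSup hSn hSb
  choose P G h huP using huS
  set 𝒰 : Ultrafilter ℕ := Ultrafilter.of atTop with h𝒰
  have hle : (𝒰 : Filter ℕ) ≤ atTop := Ultrafilter.of_le _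
  obtain ⟨Q, hQd, hQb, hQt⟩ := SL.ultra_holo 𝒰 hV zero_le_one (fun i => (h i).hP)
    (fun i z hz => ((h i).bP z hz).le)
  obtain ⟨K, hKd, hKb, hKt⟩ := SL.ultra_holo 𝒰 isOpen_ball zero_le_one (fun i => (h i).hG)
    (fun i z hz => (h i).bG z hz)
  have hQ0 : Q z₀ = 0 := by
    have h1 := hQt z₀ hz₀
    simp only [fun i => (h i).zero] at h1
    exact tendsto_nhds_unique h1 tendsto_const_nhds
  have hQlt : ∀ z ∈ V, ‖Q z‖ < 1 := by
    intro z hz
    refine lt_of_le_of_ne (hQb z hz) fun h1 => ?_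
    have h2 := Complex.norm_eqOn_of_isPreconnected_of_isMaxOn hc.isPreconnected hV hQd hz
      (fun x hx => by
        show ‖Q x‖ ≤ ‖Q z‖
        rw [h1]
        exact hQb x hx) hz₀
    have h3 : ‖Q z₀‖ = ‖Q z‖ := h2
    rw [hQ0, norm_zero, h1] at h3
    exact zero_ne_one h3
  refine ⟨Q, K, ⟨hQd, hQlt, hQ0, hKd, hKb, fun z hz => ?_⟩, fun P' G' h' => ?_⟩
  · -- the equation
    have hw := hQlt z hz
    have hwb : Q z ∈ ball (0 : ℂ) 1 := by simpa using hw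
    have hR : 0 < 1 - ‖Q z‖ := by linarith
    have hsub : ball (Q z) (1 - ‖Q z‖) ⊆ ball 0 1 := by
      intro x hx
      rw [mem_ball, dist_eq_norm] at hx
      rw [mem_ball_zero_iff]
      have : x = Q z + (x - Q z) := by ring
      rw [this]
      exact (norm_add_le _ _).trans_lt (by linarith)
    have h1 : ∀ᶠ i in (𝒰 : Filter ℕ), P i z ∈ ball (Q z) (1 - ‖Q z‖) :=
      (hQt z hz).eventually (ball_mem_nhds _ hR)
    have h2 : ∀ᶠ i in (𝒰 : Filter ℕ), dist (P₀ z) (G i (Q z)) ≤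
        3 / (1 - ‖Q z‖) * dist (P i z) (Q z) := by
      filter_upwards [h1] with i hi
      rw [← (h i).eq z hz]
      refine Complex.dist_le_div_mul_dist_of_mapsTo_ball ((h i).hG.mono hsub) ?_ hi
      intro x hx
      have h3 := (h i).bG x (hsub hx)
      have h4 := (h i).bG (Q z) hwb
      show G i x ∈ closedBall (G i (Q z)) 3
      rw [mem_closedBall, dist_eq_norm]
      exact (norm_sub_le _ _).trans (by linarith)
    have h3 : Tendsto (fun i => dist (P₀ z) (G i (Q z))) 𝒰 (𝓝 0) := by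
      refine squeeze_zero' (Eventually.of_forall fun i => dist_nonneg) h2 ?_
      have h4 : Tendsto (fun i => dist (P i z) (Q z)) 𝒰 (𝓝 0) := by
        have := (hQt z hz).dist (tendsto_const_nhds (x := Q z))
        rwa [dist_self] at this
      have := h4.const_mul (3 / (1 - ‖Q z‖))
      rwa [mul_zero] at this
    have h5 : Tendsto (fun i => dist (P₀ z) (G i (Q z))) 𝒰 (𝓝 (dist (P₀ z) (K (Q z)))) :=
      tendsto_const_nhds.dist (hKt (Q z) hwb)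
    exact (dist_eq_zero.1 (tendsto_nhds_unique h5 h3)).symm
  · have h1 : ‖P' z₁‖ ≤ sSup S := le_csSup hSb ⟨P', G', h', rfl⟩
    have h2 : Tendsto (fun i => ‖P i z₁‖) 𝒰 (𝓝 ‖Q z₁‖) := (hQt z₁ hz₁).norm
    have h3 : Tendsto (fun i => ‖P i z₁‖) 𝒰 (𝓝 (sSup S)) := by
      refine Tendsto.congr huP ?_
      exact hu.mono_left hle
    rw [tendsto_nhds_unique h2 h3]
    exact h1

/-- FACTORISATION. A holomorphic function `P₀` from a convex open set `V` to the disc is `G ∘ P` with `P` holomorphic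
from `V` to the disc and `G` holomorphic on the disc, and `G` has only the values which `P₀` has on `V`. -/
theorem factor [NormedSpace ℝ E] [FiniteDimensional ℂ E] {V : Set E} (hV : IsOpen V)
    (hc : Convex ℝ V) (hne : V.Nonempty) {P₀ : E → ℂ} (hP : DifferentiableOn ℂ P₀ V)
    (hb : ∀ z ∈ V, ‖P₀ z‖ < 1) :
    ∃ (P : E → ℂ) (G : ℂ → ℂ), DifferentiableOn ℂ P V ∧ (∀ z ∈ V, ‖P z‖ < 1) ∧
      DifferentiableOn ℂ G (ball 0 1) ∧ (∀ s ∈ ball (0 : ℂ) 1, ‖G s‖ < 1 ∧ G s ∈ P₀ '' V) ∧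
      ∀ z ∈ V, G (P z) = P₀ z := by
  obtain ⟨z₀, hz₀⟩ := hne
  by_cases hconst : ∀ z ∈ V, P₀ z = P₀ z₀
  · refine ⟨fun _ => 0, fun _ => P₀ z₀, differentiableOn_const _, fun z _ => by simp,
      differentiableOn_const _, fun s _ => ⟨hb z₀ hz₀, z₀, hz₀, rfl⟩, fun z hz => (hconst z hz).symm⟩
  push Not at hconst
  obtain ⟨z₁, hz₁, hne1⟩ := hconst
  obtain ⟨P, G, h, hmax⟩ := pair_max hV hc hz₀ hz₁ hP hb
  have hval : ∀ s ∈ ball (0 : ℂ) 1, G s ∈ P₀ '' V := by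
    intro s hs
    by_contra hcon
    obtain ⟨P', G', h', hlt⟩ := pair_step hV hc hz₀ hz₁ hne1.symm h hs hcon
    exact absurd (hmax P' G' h') (not_le.2 hlt)
  refine ⟨P, G, h.hP, h.bP, h.hG, fun s hs => ⟨?_, hval s hs⟩, h.eq⟩
  obtain ⟨z, hz, hzs⟩ := hval s hs
  rw [← hzs]
  exact hb z hz

end Pairs

end Pool.Agent.MPca0fc2.OV
end

section

/-! Campaign OV, row B: factorization of a pair through the disc. -/

set_option autoImplicit false

open Metric Set MeasureTheory Filter Topology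

namespace Pool.Agent.MPca0fc2.OV

theorem factor_pair {n : ℕ} {V : Set (EuclideanSpace ℂ (Fin n))} (hV : IsOpen V)
    (hc : Convex ℝ V) (hne : V.Nonempty) {K : Set ℂ}
    (hK : IsCompact K) (hKne : K.Nonempty) {η : ℝ} (hη : 0 < η)
    {x y : EuclideanSpace ℂ (Fin n) → ℂ}
    (hx : DifferentiableOn ℂ x V) (hy : DifferentiableOn ℂ y V)
    (h : ∀ z ∈ V, Away K η (x z) (y z)) :
    ∃ (P : EuclideanSpace ℂ (Fin n) → ℂ) (X Y : ℂ → ℂ) (κ : EuclideanSpace ℂ (Fin n) → ℂ)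
      (η' : ℝ), DifferentiableOn ℂ P V ∧
      (∀ z ∈ V, ‖P z‖ < 1) ∧ DifferentiableOn ℂ X (ball 0 1) ∧ DifferentiableOn ℂ Y (ball 0 1) ∧
      0 < η' ∧
      (∀ ζ ∈ ball (0 : ℂ) 1, Away K η' (X ζ) (Y ζ)) ∧ DifferentiableOn ℂ κ V ∧
      ∀ z ∈ V, κ z ≠ 0 ∧ x z = κ z * X (P z) ∧ y z = κ z * Y (P z) := by
  obtain ⟨a₀, ha₀⟩ := hKne
  obtain ⟨R, hR0, hR⟩ : ∃ R : ℝ, 0 ≤ R ∧ ∀ a ∈ K, ‖a‖ ≤ R := by
    obtain ⟨R, hR⟩ := hK.isBounded.exists_norm_le
    exact ⟨R, (norm_nonneg _).trans (hR a₀ ha₀), hR⟩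
  set τ : ℝ := η / 2 with hτ
  have hτ0 : 0 < τ := by positivity
  have hτc : (τ : ℂ) ≠ 0 := by exact_mod_cast hτ0.ne'
  set d : EuclideanSpace ℂ (Fin n) → ℂ := fun z => x z - a₀ * y z with hd
  have hdd : DifferentiableOn ℂ d V := hx.sub (hy.const_mul _)
  have hdl : ∀ z ∈ V, η * (‖x z‖ + ‖y z‖) ≤ ‖d z‖ := fun z hz => (h z hz).2 a₀ ha₀
  have hdp : ∀ z ∈ V, 0 < ‖d z‖ := fun z hz =>
    lt_of_lt_of_le (mul_pos hη (h z hz).1) (hdl z hz)
  have hd0 : ∀ z ∈ V, d z ≠ 0 := fun z hz => norm_pos_iff.mp (hdp z hz)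
  have hdu : ∀ z ∈ V, ‖d z‖ ≤ (1 + R) * (‖x z‖ + ‖y z‖) := by
    intro z hz
    have h1 : ‖d z‖ ≤ ‖x z‖ + ‖a₀‖ * ‖y z‖ := by
      rw [← norm_mul]; exact norm_sub_le _ _
    have h2 : ‖a₀‖ * ‖y z‖ ≤ R * ‖y z‖ := mul_le_mul_of_nonneg_right (hR a₀ ha₀) (norm_nonneg _)
    nlinarith [norm_nonneg (x z), norm_nonneg (y z), mul_nonneg hR0 (norm_nonneg (x z))]
  set P₀ : EuclideanSpace ℂ (Fin n) → ℂ := fun z => τ * y z / d z with hP₀
  have hP₀d : DifferentiableOn ℂ P₀ V := by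
    simp only [hP₀, div_eq_mul_inv]
    exact (hy.const_mul (τ : ℂ)).mul (hdd.inv hd0)
  have hP₀n : ∀ z ∈ V, ‖P₀ z‖ < 1 := by
    intro z hz
    have h1 : ‖P₀ z‖ = τ * ‖y z‖ / ‖d z‖ := by
      rw [hP₀]
      simp only [norm_div, norm_mul, Complex.norm_real, Real.norm_eq_abs, abs_of_pos hτ0]
    rw [h1, div_lt_iff₀ (hdp z hz)]
    have h2 := hdl z hz
    have h3 : η * ‖y z‖ ≤ η * (‖x z‖ + ‖y z‖) :=
      mul_le_mul_of_nonneg_left (by linarith [norm_nonneg (x z)]) hη.le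
    have h4 := hdp z hz
    rw [hτ]
    linarith
  set e₁ : ℝ := η / (1 + R) with he₁
  have he₁0 : 0 < e₁ := by positivity
  have hkey : ∀ z ∈ V, ∀ a ∈ K, e₁ ≤ ‖1 - (a - a₀) * P₀ z / τ‖ := by
    intro z hz a ha
    have h1 : 1 - (a - a₀) * P₀ z / τ = (x z - a * y z) / d z := by
      have := hd0 z hz
      rw [hP₀]
      field_simp
      rw [hd]
      ring
    rw [h1, norm_div, le_div_iff₀ (hdp z hz)]
    have h2 := (h z hz).2 a ha
    have h3 := hdu z hz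
    calc e₁ * ‖d z‖ ≤ e₁ * ((1 + R) * (‖x z‖ + ‖y z‖)) := mul_le_mul_of_nonneg_left h3 he₁0.le
      _ = η * (‖x z‖ + ‖y z‖) := by rw [he₁]; field_simp
      _ ≤ _ := h2
  obtain ⟨P, G, hP, hP1, hG, hG1, hGP⟩ := factor hV hc hne hP₀d hP₀n
  refine ⟨P, fun ζ => τ + a₀ * G ζ, G, fun z => d z / τ, τ * e₁ / (τ + R + 1), hP, hP1,
    (hG.const_mul a₀).const_add _, hG, by positivity, ?_,
    by simpa only [div_eq_mul_inv] using hdd.mul_const _, ?_⟩
  · intro ζ hζ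
    obtain ⟨h1, z, hz, hzG⟩ := hG1 ζ hζ
    have h2 : ‖(τ : ℂ) + a₀ * G ζ‖ ≤ τ + R := by
      refine (norm_add_le _ _).trans ?_
      rw [Complex.norm_real, Real.norm_eq_abs, abs_of_pos hτ0, norm_mul]
      have := mul_le_mul (hR a₀ ha₀) h1.le (norm_nonneg _) hR0
      linarith
    show 0 < ‖(τ : ℂ) + a₀ * G ζ‖ + ‖G ζ‖ ∧ ∀ a ∈ K, τ * e₁ / (τ + R + 1) *
      (‖(τ : ℂ) + a₀ * G ζ‖ + ‖G ζ‖) ≤ ‖(τ : ℂ) + a₀ * G ζ - a * G ζ‖
    refine ⟨?_, fun a ha => ?_⟩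
    · rcases eq_or_ne (G ζ) 0 with h0 | h0
      · rw [h0, mul_zero, add_zero, norm_zero, add_zero, norm_pos_iff]
        exact hτc
      · exact add_pos_of_nonneg_of_pos (norm_nonneg _) (norm_pos_iff.mpr h0)
    · have h3 := hkey z hz a ha
      rw [hzG] at h3
      have h4 : (τ : ℂ) + a₀ * G ζ - a * G ζ = τ * (1 - (a - a₀) * G ζ / τ) := by
        field_simp
        ring
      rw [h4, norm_mul, Complex.norm_real, Real.norm_eq_abs, abs_of_pos hτ0]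
      have h5 : 0 < τ + R + 1 := by positivity
      calc τ * e₁ / (τ + R + 1) * (‖(τ : ℂ) + a₀ * G ζ‖ + ‖G ζ‖)
          ≤ τ * e₁ / (τ + R + 1) * (τ + R + 1) :=
            mul_le_mul_of_nonneg_left (by linarith) (by positivity)
        _ = τ * e₁ := by field_simp
        _ ≤ _ := mul_le_mul_of_nonneg_left h3 hτ0.le
  · intro z hz
    have h1 := hd0 z hz
    refine ⟨div_ne_zero h1 hτc, ?_, ?_⟩
    · show x z = d z / τ * (τ + a₀ * G (P z))
      rw [hGP z hz, hP₀]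
      field_simp
      rw [hd]
      ring
    · show y z = d z / τ * G (P z)
      rw [hGP z hz, hP₀]
      field_simp

end Pool.Agent.MPca0fc2.OV
end

section

/-! Campaign OV, row C2: the homogeneous Bezout equation on the disc. -/

set_option autoImplicit false

open Metric Set MeasureTheory Filter Topology

namespace Pool.Agent.MPca0fc2.OV

/-- The homogeneous Bezout equation on the disc. With logarithms `l i` of `X - a i Y` and `g = ∑ w i l i`, the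
functions `X exp (-g)`, `Y exp (-g)` are bounded corona data, with constants depending on `K` only. -/
theorem pair_disc {K : Set ℂ} (hK : PosCap K) : ∃ C : ℝ, ∀ (X Y : ℂ → ℂ) (η : ℝ), 0 < η →
    DifferentiableOn ℂ X (ball 0 1) → DifferentiableOn ℂ Y (ball 0 1) →
    (∀ ζ ∈ ball (0 : ℂ) 1, Away K η (X ζ) (Y ζ)) → Pair (ball 0 1) X Y C := by
  obtain ⟨B, hB⟩ := posCap_finite hK
  obtain ⟨Kc, hKc, hcor⟩ := Pool.Agent.MPca0fc2.corona_disc_unif (Fin 2) (Real.exp B)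
    (d := Real.exp (-B) ^ 2 / 2) (by positivity)
  refine ⟨Kc * Real.exp B, fun X Y η hη hX hY hA => ?_⟩
  obtain ⟨m, a, w, ha, hw, hw1, hlog⟩ := hB η hη
  have hne : ∀ i, ∀ ζ ∈ ball (0 : ℂ) 1, X ζ - a i * Y ζ ≠ 0 := by
    intro i ζ hζ h0
    obtain ⟨hs, h⟩ := hA ζ hζ
    have h1 := h (a i) (ha i)
    rw [h0, norm_zero] at h1
    have h2 : 0 < η * (‖X ζ‖ + ‖Y ζ‖) := mul_pos hη hs
    linarith
  have hex : ∀ i, ∃ l : ℂ → ℂ, DifferentiableOn ℂ l (ball 0 1) ∧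
      ∀ ζ ∈ ball (0 : ℂ) 1, Complex.exp (l ζ) = X ζ - a i * Y ζ := fun i =>
    exists_log isOpen_ball (convex_ball 0 1) (hX.sub (hY.const_mul (a i))) (hne i)
  choose l hl hle using hex
  obtain ⟨g, hg⟩ : ∃ g : ℂ → ℂ, g = fun ζ => ∑ i, (w i : ℂ) * l i ζ := ⟨_, rfl⟩
  have hgd : DifferentiableOn ℂ g (ball 0 1) := by
    rw [hg]
    exact DifferentiableOn.fun_sum fun i _ => (hl i).const_mul _
  have hgre : ∀ ζ ∈ ball (0 : ℂ) 1, (g ζ).re = ∑ i, w i * Real.log ‖X ζ - a i * Y ζ‖ := by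
    intro ζ hζ
    rw [hg, Complex.re_sum]
    refine Finset.sum_congr rfl fun i _ => ?_
    rw [Complex.re_ofReal_mul, ← hle i ζ hζ, Complex.norm_exp, Real.log_exp]
  have hkey : ∀ ζ ∈ ball (0 : ℂ) 1,
      Real.exp (-B) ≤ Real.exp (-(g ζ).re) * (‖X ζ‖ + ‖Y ζ‖) ∧
      Real.exp (-(g ζ).re) * (‖X ζ‖ + ‖Y ζ‖) ≤ Real.exp B := by
    intro ζ hζ
    have hs := (hA ζ hζ).1
    have h1 := abs_le.1 (hlog _ _ (hA ζ hζ))
    rw [← hgre ζ hζ] at h1
    have h2 : Real.exp (-(g ζ).re) * (‖X ζ‖ + ‖Y ζ‖) =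
        Real.exp (-(g ζ).re + Real.log (‖X ζ‖ + ‖Y ζ‖)) := by
      rw [Real.exp_add, Real.exp_log hs]
    rw [h2]
    exact ⟨Real.exp_le_exp.2 (by linarith [h1.2]), Real.exp_le_exp.2 (by linarith [h1.1])⟩
  have hnorm : ∀ ζ, ‖Complex.exp (-g ζ)‖ = Real.exp (-(g ζ).re) := by
    intro ζ
    rw [Complex.norm_exp, Complex.neg_re]
  have hed : DifferentiableOn ℂ (fun ζ => Complex.exp (-g ζ)) (ball 0 1) := hgd.neg.cexp
  obtain ⟨h, hh1, hh2, hh3⟩ := hcor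
    ![fun ζ => X ζ * Complex.exp (-g ζ), fun ζ => Y ζ * Complex.exp (-g ζ)]
    (by
      intro j
      fin_cases j
      · exact hX.mul hed
      · exact hY.mul hed)
    (by
      intro j ζ hζ
      have h1 := (hkey ζ hζ).2
      have h2 := Real.exp_pos (-(g ζ).re)
      fin_cases j
      · change ‖X ζ * Complex.exp (-g ζ)‖ ≤ _
        rw [norm_mul, hnorm]
        nlinarith [norm_nonneg (Y ζ)]
      · change ‖Y ζ * Complex.exp (-g ζ)‖ ≤ _
        rw [norm_mul, hnorm]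
        nlinarith [norm_nonneg (X ζ)])
    (by
      intro ζ hζ
      have h1 := (hkey ζ hζ).1
      have h2 := Real.exp_pos (-(g ζ).re)
      rw [Fin.sum_univ_two]
      change _ ≤ ‖X ζ * Complex.exp (-g ζ)‖ ^ 2 + ‖Y ζ * Complex.exp (-g ζ)‖ ^ 2
      rw [norm_mul, norm_mul, hnorm]
      have h3 : 0 < Real.exp (-B) := Real.exp_pos _
      have h4 : Real.exp (-B) ^ 2 ≤ (Real.exp (-(g ζ).re) * (‖X ζ‖ + ‖Y ζ‖)) ^ 2 :=
        pow_le_pow_left₀ h3.le h1 2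
      nlinarith [sq_nonneg (‖X ζ‖ * Real.exp (-(g ζ).re) - ‖Y ζ‖ * Real.exp (-(g ζ).re))])
  refine ⟨fun ζ => Complex.exp (-g ζ) * h 0 ζ, fun ζ => Complex.exp (-g ζ) * h 1 ζ,
    hed.mul (hh1 0), hed.mul (hh1 1), ?_, ?_⟩
  · intro ζ hζ
    have h1 := hh3 ζ hζ
    rw [Fin.sum_univ_two] at h1
    change X ζ * Complex.exp (-g ζ) * h 0 ζ + Y ζ * Complex.exp (-g ζ) * h 1 ζ = 1 at h1
    linear_combination h1
  · intro ζ hζ
    have h1 := (hkey ζ hζ).2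
    have h2 := hh2 0 ζ hζ
    have h3 := hh2 1 ζ hζ
    have h4 : ∀ j, ‖Complex.exp (-g ζ) * h j ζ‖ * (‖X ζ‖ + ‖Y ζ‖) ≤ Kc * Real.exp B := by
      intro j
      rw [norm_mul, hnorm]
      calc Real.exp (-(g ζ).re) * ‖h j ζ‖ * (‖X ζ‖ + ‖Y ζ‖)
          = ‖h j ζ‖ * (Real.exp (-(g ζ).re) * (‖X ζ‖ + ‖Y ζ‖)) := by ring
        _ ≤ Kc * Real.exp B := mul_le_mul (hh2 j ζ hζ) h1
            (mul_nonneg (Real.exp_pos _).le (add_nonneg (norm_nonneg _) (norm_nonneg _))) hKc.le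
    exact ⟨h4 0, h4 1⟩

end Pool.Agent.MPca0fc2.OV
end
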