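import Pool.Agent.Lib.MP_ca0fc2_an.Mg.G115
import Pool.Agent.Lib.MP_ca0fc2_an.Mg.G114
import Pool.Agent.Lib.MP_ca0fc2_an.Mg.G073

section

/-! Campaign OV, row C3: the homogeneous Bezout equation on convex sets, for pairs which are `Away K η`. -/

set_option autoImplicit false

open Metric Set MeasureTheory Filter Topology

namespace Pool.Agent.MPca0fc2.OV

/-- The solution on the disc is pulled back by the factorization. -/
theorem pair_eta {K : Set ℂ} (hK : PosCap K) : ∃ C : ℝ, ∀ {n : ℕ} (V : Set (EuclideanSpace ℂ (Fin n)))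
    (x y : EuclideanSpace ℂ (Fin n) → ℂ) (η : ℝ), IsOpen V → Convex ℝ V → 0 < η →
    DifferentiableOn ℂ x V → DifferentiableOn ℂ y V → (∀ z ∈ V, Away K η (x z) (y z)) →
    Pair V x y C := by
  obtain ⟨C, hC⟩ := pair_disc hK
  refine ⟨C, fun {n} V x y η hV hc hη hx hy h => ?_⟩
  rcases V.eq_empty_or_nonempty with he | hne
  · subst he
    exact ⟨fun _ => 0, fun _ => 0, differentiableOn_empty, differentiableOn_empty,
      fun z hz => absurd hz (notMem_empty z), fun z hz => absurd hz (notMem_empty z)⟩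
  obtain ⟨P, X, Y, κ, η', hP, hP1, hX, hY, hη', hXY, hκ, hfac⟩ :=
    factor_pair hV hc hne hK.1 hK.nonempty hη hx hy h
  obtain ⟨u, v, hu, hv, huv, hb⟩ := hC X Y η' hη' hX hY hXY
  have hPm : MapsTo P V (ball 0 1) := fun z hz => by simpa using hP1 z hz
  have hκi : DifferentiableOn ℂ (fun z => (κ z)⁻¹) V := hκ.inv fun z hz => (hfac z hz).1
  refine ⟨fun z => (κ z)⁻¹ * u (P z), fun z => (κ z)⁻¹ * v (P z),
    hκi.mul (hu.comp hP hPm), hκi.mul (hv.comp hP hPm), fun z hz => ?_, fun z hz => ?_⟩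
  · obtain ⟨h0, h1, h2⟩ := hfac z hz
    rw [h1, h2]
    calc κ z * X (P z) * ((κ z)⁻¹ * u (P z)) + κ z * Y (P z) * ((κ z)⁻¹ * v (P z))
        = (κ z * (κ z)⁻¹) * (X (P z) * u (P z) + Y (P z) * v (P z)) := by ring
      _ = 1 := by rw [mul_inv_cancel₀ h0, huv _ (hPm hz), one_mul]
  · obtain ⟨h0, h1, h2⟩ := hfac z hz
    have h3 : 0 < ‖κ z‖ := norm_pos_iff.2 h0
    have key : ∀ t : ℂ, ‖(κ z)⁻¹ * t‖ * (‖x z‖ + ‖y z‖) = ‖t‖ * (‖X (P z)‖ + ‖Y (P z)‖) := by
      intro t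
      rw [h1, h2, norm_mul, norm_mul, norm_mul, norm_inv]
      field_simp
    rw [key, key]
    exact hb _ (hPm hz)

end Pool.Agent.MPca0fc2.OV
end

section

/-! Campaign OV, row D: exhaustion of convex sets. -/

set_option autoImplicit false

open Metric Set MeasureTheory Filter Topology

namespace Pool.Agent.MPca0fc2.OV

/-- limits of locally bounded holomorphic functions along ultrafilters. PROOF. `SL.ultra_holo` on small balls
(replace `G k` by `0` for the bad `k`). -/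
theorem ultra_holo_loc {E : Type*} [NormedAddCommGroup E] [NormedSpace ℂ E] [FiniteDimensional ℂ E]
    {ι : Type*} (𝒰 : Ultrafilter ι) {G : ι → E → ℂ} {V : Set E}
    (hG : ∀ i, DifferentiableOn ℂ (G i) V)
    (hb : ∀ z ∈ V, ∃ r > 0, ∃ M : ℝ, ball z r ⊆ V ∧ ∀ᶠ i in 𝒰, ∀ w ∈ ball z r, ‖G i w‖ ≤ M) :
    ∃ g : E → ℂ, DifferentiableOn ℂ g V ∧ ∀ z ∈ V, Tendsto (fun i => G i z) 𝒰 (𝓝 (g z)) := by
  classical
  have key : ∀ z ∈ V, ∃ r > 0, ball z r ⊆ V ∧ ∃ g : E → ℂ, DifferentiableOn ℂ g (ball z r) ∧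
      ∀ w ∈ ball z r, Tendsto (fun i => G i w) 𝒰 (𝓝 (g w)) := by
    intro z hz
    obtain ⟨r, hr, M, hrV, hM⟩ := hb z hz
    obtain ⟨g, hg1, -, hg3⟩ := Pool.Agent.MPca0fc2.SL.ultra_holo 𝒰
      (G := fun i => if (∀ w ∈ ball z r, ‖G i w‖ ≤ M) then G i else fun _ => 0)
      (U := ball z r) isOpen_ball (M := |M|) (abs_nonneg M) (fun i => by
        split_ifs
        · exact (hG i).mono hrV
        · exact differentiableOn_const _) (fun i w hw => by
        split_ifs with h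
        · exact (h w hw).trans (le_abs_self M)
        · rw [norm_zero]
          exact abs_nonneg M)
    refine ⟨r, hr, hrV, g, hg1, fun w hw => (hg3 w hw).congr' ?_⟩
    filter_upwards [hM] with i hi
    rw [if_pos hi]
  choose! r hr hrV g hg hgl using key
  refine ⟨fun z => g z z, fun z hz => ?_, fun z hz => hgl z hz z (mem_ball_self (hr z hz))⟩
  have h1 : ∀ w ∈ ball z (r z), g w w = g z w := fun w hw =>
    tendsto_nhds_unique (hgl w (hrV z hz hw) w (mem_ball_self (hr w (hrV z hz hw))))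
      (hgl z hz w hw)
  have h2 : DifferentiableAt ℂ (g z) z :=
    (hg z hz z (mem_ball_self (hr z hz))).differentiableAt (ball_mem_nhds z (hr z hz))
  refine (h2.congr_of_eventuallyEq ?_).differentiableWithinAt
  filter_upwards [ball_mem_nhds z (hr z hz)] with w hw
  exact h1 w hw

/-- PROOF. `V` bounded convex, `z₀ ∈ V`, dilations `z ↦ z₀ + s (z - z₀)`, `s < 1`: the closure of the image is compact in
`V`, so `x_s, y_s` are `Away K η_s` (compactness of `image × K`, `x - a y ≠ 0`). `pair_eta`, and `s → 1` with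
`ultra_holo_loc` (`|x_s| + |y_s|` is locally bounded from below for `s` near `1`). -/
theorem pair_convex {K : Set ℂ} (hK : PosCap K) : ∃ C : ℝ, ∀ {n : ℕ}
    (V : Set (EuclideanSpace ℂ (Fin n))) (x y : EuclideanSpace ℂ (Fin n) → ℂ), IsOpen V →
    Convex ℝ V → Bornology.IsBounded V → DifferentiableOn ℂ x V → DifferentiableOn ℂ y V →
    (∀ a ∈ K, ∀ z ∈ V, x z - a * y z ≠ 0) → Pair V x y C := by
  classical
  obtain ⟨C, hC⟩ := pair_eta hK
  refine ⟨C, fun {n} V x y hV hc hVb hx hy h => ?_⟩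
  rcases V.eq_empty_or_nonempty with rfl | ⟨z₀, hz₀⟩
  · exact ⟨fun _ => 0, fun _ => 0, differentiableOn_empty, differentiableOn_empty,
      fun z hz => absurd hz (notMem_empty z), fun z hz => absurd hz (notMem_empty z)⟩
  obtain ⟨a₀, ha₀⟩ := hK.nonempty
  -- no common zeros
  have hpos : ∀ z ∈ V, 0 < ‖x z‖ + ‖y z‖ := by
    intro z hz
    by_contra hcon
    have h1 : ‖x z‖ = 0 := le_antisymm (by linarith [norm_nonneg (y z)]) (norm_nonneg _)
    have h2 : ‖y z‖ = 0 := le_antisymm (by linarith [norm_nonneg (x z)]) (norm_nonneg _)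
    refine h a₀ ha₀ z hz ?_
    rw [norm_eq_zero.1 h1, norm_eq_zero.1 h2, mul_zero, sub_zero]
  have hxc : ContinuousOn x V := hx.continuousOn
  have hyc : ContinuousOn y V := hy.continuousOn
  -- the dilations
  obtain ⟨s, hsdef⟩ : ∃ s : ℕ → ℝ, s = fun k : ℕ => 1 - 1 / ((k : ℝ) + 2) := ⟨_, rfl⟩
  have hs0 : ∀ k, 0 < s k := by
    intro k
    rw [hsdef]
    have h1 : 1 / ((k : ℝ) + 2) < 1 := by
      rw [div_lt_one (by positivity)]
      have : (0 : ℝ) ≤ k := Nat.cast_nonneg k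
      linarith
    simpa using h1
  have hs1 : ∀ k, s k < 1 := by
    intro k
    rw [hsdef]
    have h1 : 0 < 1 / ((k : ℝ) + 2) := by positivity
    simpa using h1
  have hslim : Tendsto s atTop (𝓝 1) := by
    rw [hsdef]
    have h1 : Tendsto (fun k : ℕ => 1 / ((k : ℝ) + 2)) atTop (𝓝 0) := by
      have h2 := (tendsto_one_div_add_atTop_nhds_zero_nat (𝕜 := ℝ)).comp (tendsto_add_atTop_nat 1)
      refine h2.congr fun k => ?_
      simp only [Function.comp_apply, Nat.cast_add, Nat.cast_one]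
      ring
    have h3 := h1.const_sub 1
    rwa [sub_zero] at h3
  obtain ⟨Δ, hΔ⟩ : ∃ Δ : ℕ → EuclideanSpace ℂ (Fin n) → EuclideanSpace ℂ (Fin n),
      Δ = fun k z => z₀ + (s k : ℂ) • (z - z₀) := ⟨_, rfl⟩
  have hΔr : ∀ k z, Δ k z = z₀ + (s k) • (z - z₀) := by
    intro k z
    rw [hΔ]
    beta_reduce
    rw [Complex.coe_smul]
  have hΔd : ∀ k, Differentiable ℂ (Δ k) := by
    intro k
    rw [hΔ]
    intro z
    exact ((differentiableAt_id.sub_const z₀).const_smul (s k : ℂ)).const_add z₀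
  have hΔcl : ∀ k, ∀ z ∈ closure V, Δ k z ∈ V := by
    intro k z hz
    rw [hΔr]
    have h1 := hc.add_smul_sub_mem_interior' hz (by rwa [hV.interior_eq])
      (t := 1 - s k) ⟨by linarith [hs1 k], by linarith [hs0 k]⟩
    rw [hV.interior_eq] at h1
    have h2 : z + (1 - s k) • (z₀ - z) = z₀ + s k • (z - z₀) := by module
    rwa [h2] at h1
  have hΔV : ∀ k, MapsTo (Δ k) V V := fun k z hz => hΔcl k z (subset_closure hz)
  have hcpt : IsCompact (closure V) := hVb.isCompact_closure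
  -- the functions on the smaller sets
  have haway : ∀ k, ∃ η > 0, ∀ z ∈ V, Away K η (x (Δ k z)) (y (Δ k z)) := by
    intro k
    have hQ : IsCompact (Δ k '' closure V) := hcpt.image (hΔd k).continuous
    have hQV : Δ k '' closure V ⊆ V := by
      rintro _ ⟨z, hz, rfl⟩
      exact hΔcl k z hz
    obtain ⟨F, hF⟩ : ∃ F : EuclideanSpace ℂ (Fin n) × ℂ → ℝ,
        F = fun q => ‖x q.1 - q.2 * y q.1‖ / (‖x q.1‖ + ‖y q.1‖) := ⟨_, rfl⟩
    have hfst : ContinuousOn (Prod.fst : EuclideanSpace ℂ (Fin n) × ℂ → _)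
        ((Δ k '' closure V) ×ˢ K) := continuous_fst.continuousOn
    have hx1 : ContinuousOn (fun q : EuclideanSpace ℂ (Fin n) × ℂ => x q.1)
        ((Δ k '' closure V) ×ˢ K) := hxc.comp hfst fun q hq => hQV hq.1
    have hy1 : ContinuousOn (fun q : EuclideanSpace ℂ (Fin n) × ℂ => y q.1)
        ((Δ k '' closure V) ×ˢ K) := hyc.comp hfst fun q hq => hQV hq.1
    have hFc : ContinuousOn F ((Δ k '' closure V) ×ˢ K) := by
      rw [hF]
      refine ContinuousOn.div ((hx1.sub (continuous_snd.continuousOn.mul hy1)).norm)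
        (hx1.norm.add hy1.norm) fun q hq => (hpos _ (hQV hq.1)).ne'
    obtain ⟨q, hq, hmin⟩ := (hQ.prod hK.1).exists_isMinOn
      ⟨(Δ k z₀, a₀), ⟨⟨z₀, subset_closure hz₀, rfl⟩, ha₀⟩⟩ hFc
    have hq0 : 0 < F q := by
      rw [hF]
      exact div_pos (norm_pos_iff.2 (h q.2 hq.2 q.1 (hQV hq.1))) (hpos _ (hQV hq.1))
    refine ⟨F q, hq0, fun z hz => ⟨hpos _ (hΔV k hz), fun a ha => ?_⟩⟩
    have h1 : F q ≤ F (Δ k z, a) := hmin ⟨⟨z, subset_closure hz, rfl⟩, ha⟩
    rw [hF] at h1 ⊢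
    beta_reduce at h1 ⊢
    rwa [← le_div_iff₀ (hpos _ (hΔV k hz))]
  have hsol : ∀ k, Pair V (fun z => x (Δ k z)) (fun z => y (Δ k z)) C := by
    intro k
    obtain ⟨η, hη, hA⟩ := haway k
    exact hC V _ _ η hV hc hη (hx.comp (hΔd k).differentiableOn (hΔV k))
      (hy.comp (hΔd k).differentiableOn (hΔV k)) hA
  choose u v hu hv huv hb using hsol
  -- the limit
  set 𝒰 : Ultrafilter ℕ := Ultrafilter.of atTop with h𝒰
  have hle : (𝒰 : Filter ℕ) ≤ atTop := Ultrafilter.of_le _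
  have hΔlim : ∀ z, Tendsto (fun k => Δ k z) atTop (𝓝 z) := by
    intro z
    have h1 : Tendsto (fun k => z₀ + (s k) • (z - z₀)) atTop (𝓝 (z₀ + (1 : ℝ) • (z - z₀))) :=
      (hslim.smul_const _).const_add _
    rw [one_smul, add_sub_cancel] at h1
    exact h1.congr fun k => (hΔr k z).symm
  -- local lower bounds
  have hlow : ∀ z ∈ V, ∃ r > 0, ∃ c > 0, ball z r ⊆ V ∧ ∀ᶠ k in atTop, ∀ w ∈ ball z r,
      c ≤ ‖x (Δ k w)‖ + ‖y (Δ k w)‖ := by
    intro z hz
    obtain ⟨R, hR, hRV⟩ := Metric.isOpen_iff.1 hV z hz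
    have hsub : closedBall z (R / 2) ⊆ V :=
      (closedBall_subset_ball (by linarith)).trans hRV
    obtain ⟨w₁, hw₁, hmin⟩ := (isCompact_closedBall z (R / 2)).exists_isMinOn
      ⟨z, mem_closedBall_self (by linarith)⟩ ((hxc.mono hsub).norm.add (hyc.mono hsub).norm)
    refine ⟨R / 4, by linarith, ‖x w₁‖ + ‖y w₁‖, hpos _ (hsub hw₁),
      (ball_subset_ball (by linarith)).trans hRV, ?_⟩
    obtain ⟨M, hM⟩ : ∃ M, M = R / 4 + ‖z - z₀‖ + 1 := ⟨_, rfl⟩
    have hM0 : 0 < M := by rw [hM]; positivity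
    have h1 : ∀ᶠ k in atTop, 1 - s k < R / (4 * M) := by
      have h2 : Tendsto (fun k => 1 - s k) atTop (𝓝 0) := by
        have := hslim.const_sub 1
        rwa [sub_self] at this
      exact h2.eventually (gt_mem_nhds (by positivity))
    filter_upwards [h1] with k hk w hw
    have h2 : Δ k w ∈ closedBall z (R / 2) := by
      rw [mem_closedBall, dist_eq_norm, hΔr]
      have h3 : z₀ + s k • (w - z₀) - z = (w - z) - (1 - s k) • (w - z₀) := by module
      rw [h3]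
      have h4 : ‖w - z‖ < R / 4 := by
        rw [← dist_eq_norm]
        exact hw
      have h5 : ‖w - z₀‖ ≤ M := by
        calc ‖w - z₀‖ = ‖(w - z) + (z - z₀)‖ := by congr 1; abel
          _ ≤ ‖w - z‖ + ‖z - z₀‖ := norm_add_le _ _
          _ ≤ M := by rw [hM]; linarith
      have h6 : ‖(1 - s k) • (w - z₀)‖ ≤ R / 4 := by
        rw [norm_smul, Real.norm_of_nonneg (by linarith [hs1 k])]
        calc (1 - s k) * ‖w - z₀‖ ≤ R / (4 * M) * M :=
              mul_le_mul hk.le h5 (norm_nonneg _) (by positivity)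
          _ = R / 4 := by field_simp
      calc ‖(w - z) - (1 - s k) • (w - z₀)‖ ≤ ‖w - z‖ + ‖(1 - s k) • (w - z₀)‖ := norm_sub_le _ _
        _ ≤ R / 2 := by linarith
    exact hmin h2
  have hC0 : 0 ≤ C := by
    refine le_trans ?_ (hb 0 z₀ hz₀).1
    positivity
  have hloc : ∀ g : ℕ → EuclideanSpace ℂ (Fin n) → ℂ,
      (∀ k, ∀ z ∈ V, ‖g k z‖ * (‖x (Δ k z)‖ + ‖y (Δ k z)‖) ≤ C) →
      ∀ z ∈ V, ∃ r > 0, ∃ M : ℝ, ball z r ⊆ V ∧ ∀ᶠ k in (𝒰 : Filter ℕ), ∀ w ∈ ball z r,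
        ‖g k w‖ ≤ M := by
    intro g hg z hz
    obtain ⟨r, hr, c, hc0, hrV, hev⟩ := hlow z hz
    refine ⟨r, hr, C / c, hrV, ?_⟩
    filter_upwards [hle hev] with k hk w hw
    have h1 := hg k w (hrV hw)
    have h2 := hk w hw
    rw [le_div_iff₀ hc0]
    exact (mul_le_mul_of_nonneg_left h2 (norm_nonneg _)).trans h1
  obtain ⟨U, hU, hUl⟩ := ultra_holo_loc 𝒰 hu (hloc u fun k z hz => (hb k z hz).1)
  obtain ⟨W, hW, hWl⟩ := ultra_holo_loc 𝒰 hv (hloc v fun k z hz => (hb k z hz).2)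
  have hxl : ∀ z ∈ V, Tendsto (fun k => x (Δ k z)) 𝒰 (𝓝 (x z)) := fun z hz =>
    ((hxc.continuousAt (hV.mem_nhds hz)).tendsto.comp (hΔlim z)).mono_left hle
  have hyl : ∀ z ∈ V, Tendsto (fun k => y (Δ k z)) 𝒰 (𝓝 (y z)) := fun z hz =>
    ((hyc.continuousAt (hV.mem_nhds hz)).tendsto.comp (hΔlim z)).mono_left hle
  refine ⟨U, W, hU, hW, fun z hz => ?_, fun z hz => ⟨?_, ?_⟩⟩
  · have h1 := ((hxl z hz).mul (hUl z hz)).add ((hyl z hz).mul (hWl z hz))
    refine tendsto_nhds_unique h1 (tendsto_const_nhds.congr fun k => ?_)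
    exact (huv k z hz).symm
  · have h1 := ((hUl z hz).norm).mul ((hxl z hz).norm.add (hyl z hz).norm)
    exact le_of_tendsto h1 (Eventually.of_forall fun k => (hb k z hz).1)
  · have h1 := ((hWl z hz).norm).mul ((hxl z hz).norm.add (hyl z hz).norm)
    exact le_of_tendsto h1 (Eventually.of_forall fun k => (hb k z hz).2)

end Pool.Agent.MPca0fc2.OV
end
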