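import Pool.Agent.Lib.MP_ca0fc2_an.Mg.G112
import Pool.Agent.Lib.MP_ca0fc2_an.Mg.G113
import Pool.Agent.Lib.MP_ca0fc2_an.OV.Z2

section

/-! Campaign OV, part P2: polynomials in the data, with cutoffs. -/

set_option autoImplicit false

open Metric Set Filter Topology

namespace Pool.Agent.MPca0fc2.OV

/-- **Division.** If all pairs of functions `f i` have cutoffs on the open set `V`, then a bounded
holomorphic function `G` with `|G| ≤ T ∑ |f i|` is a combination of the `f i` with bounded coefficients. -/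
theorem cut_div {E ι : Type*} [NormedAddCommGroup E] [NormedSpace ℂ E] [FiniteDimensional ℂ E]
    [DecidableEq ι] {V : Set E} (hV : IsOpen V) {f : ι → E → ℂ} (hf : ∀ i, DifferentiableOn ℂ (f i) V)
    (J : Finset ι) (hJ : J.Nonempty) (hp : ∀ i ∈ J, ∀ j ∈ J, i ≠ j → ∃ C, Cut V (f i) (f j) C)
    {G : E → ℂ} {T : ℝ} (hT0 : 0 ≤ T) (hG : DifferentiableOn ℂ G V)
    (hT : ∀ z ∈ V, ‖G z‖ ≤ T * ∑ i ∈ J, ‖f i z‖) :
    ∃ k : ι → E → ℂ, (∀ i, HB V (k i)) ∧ ∀ z ∈ V, ∑ i ∈ J, f i z * k i z = G z := by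
  obtain ⟨Φ, C, hC, hΦ, h1, h2⟩ := partition J hJ hp
  have hdiv : ∀ i, ∃ k : E → ℂ, HB V k ∧ (i ∈ J → ∀ z ∈ V, G z * Φ i z = f i z * k z) := by
    intro i
    by_cases hi : i ∈ J
    · obtain ⟨q, hq, hq1, hq2⟩ := div_of_le hV (hG.mul (hΦ i)) (hf i)
        (C := T * (J.card * C)) (by positivity) (fun z hz => by
          rw [Pi.mul_apply, norm_mul]
          calc ‖G z‖ * ‖Φ i z‖ ≤ (T * ∑ k ∈ J, ‖f k z‖) * ‖Φ i z‖ :=
                mul_le_mul_of_nonneg_right (hT z hz) (norm_nonneg _)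
            _ = T * ∑ k ∈ J, ‖Φ i z‖ * ‖f k z‖ := by
                rw [mul_assoc, Finset.sum_mul]
                congr 1
                exact Finset.sum_congr rfl fun k _ => mul_comm _ _
            _ ≤ T * (J.card * (C * ‖f i z‖)) := by
                refine mul_le_mul_of_nonneg_left ?_ hT0
                refine (Finset.sum_le_sum fun k hk => (h2 z hz i hi).2 k hk).trans ?_
                rw [Finset.sum_const, nsmul_eq_mul]
            _ = T * (J.card * C) * ‖f i z‖ := by ring)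
      exact ⟨q, ⟨hq, _, hq1⟩, fun _ z hz => hq2 z hz⟩
    · exact ⟨fun _ => 0, HB.const V 0, fun h => absurd h hi⟩
  choose k hk hk1 using hdiv
  refine ⟨k, hk, fun z hz => ?_⟩
  calc ∑ i ∈ J, f i z * k i z = ∑ i ∈ J, G z * Φ i z :=
        Finset.sum_congr rfl fun i hi => (hk1 i hi z hz).symm
    _ = G z := by rw [← Finset.mul_sum, h1 z hz, mul_one]

/-- **The cells**, with cutoffs. `P i` polynomials without constant term with finitely many common zeros.
If on an open set `C` the functions `P i (f)`, `i ∉ J`, are nearly constant, and all pairs of functions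
`P i (f)`, `i ∈ J`, have cutoffs, then `f` has bounded solutions on `C`. -/
theorem poly_cell' {N M : ℕ} {P : Fin M → MvPolynomial (Fin N) ℂ}
    (h0 : ∀ i, MvPolynomial.eval 0 (P i) = 0)
    (hfin : {x : Fin N → ℂ | ∀ i, MvPolynomial.eval x (P i) = 0}.Finite) {δ B : ℝ} (hδ : 0 < δ) :
    ∃ ε > 0, ∀ {n : ℕ} {C : Set (EuclideanSpace ℂ (Fin n))}
      {f : Fin N → EuclideanSpace ℂ (Fin n) → ℂ}, IsOpen C → (∀ j, DifferentiableOn ℂ (f j) C) →
      (∀ z ∈ C, ∀ j, ‖f j z‖ ≤ B) → (∀ z ∈ C, δ ≤ ∑ j, ‖f j z‖ ^ 2) → ∀ (J : Finset (Fin M))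
      (c : Fin M → ℂ), (∀ i, i ∉ J → ∀ z ∈ C,
        ‖MvPolynomial.eval (fun j => f j z) (P i) - c i‖ < ε) →
      (∀ i ∈ J, ∀ k ∈ J, i ≠ k → ∃ K, Cut C (fun z => MvPolynomial.eval (fun j => f j z) (P i))
        (fun z => MvPolynomial.eval (fun j => f j z) (P k)) K) →
      ∃ g : Fin N → EuclideanSpace ℂ (Fin n) → ℂ,
        (∀ j, Pool.Agent.Lib.MP_ca0fc2_an.IsHinf C (g j)) ∧
        ∀ z ∈ C, ∑ j, f j z * g j z = 1 := by
  obtain ⟨ε, hε, h⟩ := poly_cell_div h0 hfin (B := B) hδ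
  refine ⟨ε, hε, fun {n C f} hC hf hB hd J c hc hJ => h hf hB hd J c hc fun hcard G T hT0 hG hT => ?_⟩
  have hP : ∀ i, DifferentiableOn ℂ (fun z => MvPolynomial.eval (fun j => f j z) (P i)) C :=
    fun i => (HB.poly (fun l => (⟨hf l, B, fun z hz => hB z hz l⟩ : HB C (f l))) (P i)).1
  exact cut_div hC hP J (Finset.card_pos.1 (by omega)) hJ hT0 hG.1 hT

end Pool.Agent.MPca0fc2.OV
end

section

/-! Campaign OV, row U: convex domains, bounds which depend only on the omitted sets. -/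

set_option autoImplicit false

open Metric Set MeasureTheory Filter Topology

namespace Pool.Agent.MPca0fc2.OV

/-- the partition of unity of the cut off functions, with a uniform constant -/
theorem partition_unif (C : ℝ) (hC : 0 ≤ C) : ∀ N : ℕ, ∃ K : ℝ, 0 ≤ K ∧
    ∀ {E : Type} [NormedAddCommGroup E] [NormedSpace ℂ E] (V : Set E) (F : Fin (N + 1) → E → ℂ),
      (∀ i k, i < k → Cut V (F i) (F k) C) →
      ∃ Φ : Fin (N + 1) → E → ℂ, (∀ i, DifferentiableOn ℂ (Φ i) V) ∧ (∀ z ∈ V, ∑ i, Φ i z = 1) ∧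
        ∀ z ∈ V, ∀ i, ‖Φ i z‖ ≤ K ∧ ∀ k, ‖Φ i z‖ * ‖F k z‖ ≤ K * ‖F i z‖ := by
  intro N
  induction N with
  | zero =>
    refine ⟨1, zero_le_one, fun {E} _ _ V F _ => ⟨fun _ _ => 1, fun _ => differentiableOn_const _,
      fun z _ => by simp, fun z _ i => ⟨by simp, fun k => ?_⟩⟩⟩
    have hki : k = i := Fin.ext (by omega)
    rw [hki, norm_one]
  | succ N ih =>
    obtain ⟨K, hK, h⟩ := ih
    refine ⟨(N + 2) * K * (1 + C), by positivity, fun {E} _ _ V F hF => ?_⟩
    obtain ⟨Φ, h1, h2, h3⟩ := h V (fun i => F i.castSucc) fun i k hik =>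
      hF _ _ (Fin.castSucc_lt_castSucc_iff.2 hik)
    choose φ hφ hφ' using fun i : Fin (N + 1) => hF i.castSucc (Fin.last _) (Fin.castSucc_lt_last i)
    refine ⟨Fin.snoc (α := fun _ => E → ℂ) (fun i z => Φ i z * φ i z)
      fun z => ∑ i, Φ i z * (1 - φ i z), fun i => ?_, fun z hz => ?_, fun z hz i => ?_⟩
    · refine Fin.lastCases ?_ (fun i => ?_) i
      · rw [Fin.snoc_last]
        exact DifferentiableOn.fun_sum fun i _ => (h1 i).mul ((hφ i).const_sub 1)
      · rw [Fin.snoc_castSucc]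
        exact (h1 i).mul (hφ i)
    · rw [Fin.sum_univ_castSucc]
      simp only [Fin.snoc_castSucc, Fin.snoc_last]
      rw [← Finset.sum_add_distrib]
      refine Eq.trans (Finset.sum_congr rfl fun i _ => ?_) (h2 z hz)
      ring
    · -- the estimates
      have hNK : K * (1 + C) ≤ (N + 2) * K * (1 + C) := by
        have h4 : 0 ≤ K * (1 + C) := by positivity
        have h5 : (0 : ℝ) ≤ N := Nat.cast_nonneg N
        nlinarith
      have hb : ∀ i, ‖1 - φ i z‖ ≤ 1 + C := fun i => by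
        refine (norm_sub_le _ _).trans ?_
        rw [norm_one]
        linarith [(hφ' i z hz).1]
      have hlow : ∀ i, ‖φ i z‖ * ‖F (Fin.last _) z‖ ≤ C * ‖F i.castSucc z‖ := fun i =>
        le_trans (mul_le_mul_of_nonneg_left (by linarith [norm_nonneg (F i.castSucc z)])
          (norm_nonneg _)) (hφ' i z hz).2.1
      have hlow' : ∀ i, ‖1 - φ i z‖ * ‖F i.castSucc z‖ ≤ C * ‖F (Fin.last _) z‖ := fun i =>
        le_trans (mul_le_mul_of_nonneg_left (by linarith [norm_nonneg (F (Fin.last _) z)])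
          (norm_nonneg _)) (hφ' i z hz).2.2
      refine Fin.lastCases ?_ (fun i => ?_) i
      · simp only [Fin.snoc_last]
        have hs : ∀ c : ℝ, (∀ i, ‖Φ i z * (1 - φ i z)‖ * c ≤ K * (1 + C) * ‖F (Fin.last _) z‖) → 0 ≤ c →
            ‖∑ i, Φ i z * (1 - φ i z)‖ * c ≤ (N + 2) * K * (1 + C) * ‖F (Fin.last _) z‖ := by
          intro c hc hc0
          calc ‖∑ i, Φ i z * (1 - φ i z)‖ * c ≤ (∑ i, ‖Φ i z * (1 - φ i z)‖) * c :=
                mul_le_mul_of_nonneg_right (norm_sum_le _ _) hc0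
            _ = ∑ i, ‖Φ i z * (1 - φ i z)‖ * c := Finset.sum_mul _ _ _
            _ ≤ ∑ _i : Fin (N + 1), K * (1 + C) * ‖F (Fin.last _) z‖ :=
                Finset.sum_le_sum fun i _ => hc i
            _ = (N + 1) * (K * (1 + C) * ‖F (Fin.last _) z‖) := by simp
            _ ≤ _ := by
                have h4 : 0 ≤ K * (1 + C) * ‖F (Fin.last _) z‖ := by positivity
                nlinarith
        refine ⟨?_, fun k => Fin.lastCases (hs _ (fun i => ?_) (norm_nonneg _))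
          (fun k => hs _ (fun i => ?_) (norm_nonneg _)) k⟩
        · refine (norm_sum_le _ _).trans ?_
          calc ∑ i, ‖Φ i z * (1 - φ i z)‖ ≤ ∑ _i : Fin (N + 1), K * (1 + C) := by
                refine Finset.sum_le_sum fun i _ => ?_
                rw [norm_mul]
                exact mul_le_mul (h3 z hz i).1 (hb i) (norm_nonneg _) hK
            _ = (N + 1) * (K * (1 + C)) := by simp
            _ ≤ _ := by
                have h4 : 0 ≤ K * (1 + C) := by positivity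
                nlinarith
        · rw [norm_mul]
          exact mul_le_mul_of_nonneg_right (mul_le_mul (h3 z hz i).1 (hb i) (norm_nonneg _) hK)
            (norm_nonneg _)
        · rw [norm_mul]
          calc ‖Φ i z‖ * ‖1 - φ i z‖ * ‖F k.castSucc z‖
              = (‖Φ i z‖ * ‖F k.castSucc z‖) * ‖1 - φ i z‖ := by ring
            _ ≤ (K * ‖F i.castSucc z‖) * ‖1 - φ i z‖ :=
                mul_le_mul_of_nonneg_right ((h3 z hz i).2 k) (norm_nonneg _)
            _ = K * (‖1 - φ i z‖ * ‖F i.castSucc z‖) := by ring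
            _ ≤ K * (C * ‖F (Fin.last _) z‖) := mul_le_mul_of_nonneg_left (hlow' i) hK
            _ ≤ _ := by
                have h4 : 0 ≤ K * ‖F (Fin.last (N + 1)) z‖ := by positivity
                nlinarith
      · simp only [Fin.snoc_castSucc]
        rw [norm_mul]
        refine ⟨?_, fun k => Fin.lastCases ?_ (fun k => ?_) k⟩
        · refine le_trans (mul_le_mul (h3 z hz i).1 (hφ' i z hz).1 (norm_nonneg _) hK) ?_
          exact le_trans (mul_le_mul_of_nonneg_left (by linarith) hK) hNK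
        · calc ‖Φ i z‖ * ‖φ i z‖ * ‖F (Fin.last _) z‖
              = ‖Φ i z‖ * (‖φ i z‖ * ‖F (Fin.last _) z‖) := by ring
            _ ≤ K * (C * ‖F i.castSucc z‖) :=
                mul_le_mul (h3 z hz i).1 (hlow i) (by positivity) hK
            _ = K * C * ‖F i.castSucc z‖ := by ring
            _ ≤ _ := mul_le_mul_of_nonneg_right
                (le_trans (mul_le_mul_of_nonneg_left (by linarith) hK) hNK) (norm_nonneg _)
        · calc ‖Φ i z‖ * ‖φ i z‖ * ‖F k.castSucc z‖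
              = (‖Φ i z‖ * ‖F k.castSucc z‖) * ‖φ i z‖ := by ring
            _ ≤ (K * ‖F i.castSucc z‖) * C :=
                mul_le_mul ((h3 z hz i).2 k) (hφ' i z hz).1 (norm_nonneg _) (by positivity)
            _ = K * C * ‖F i.castSucc z‖ := by ring
            _ ≤ _ := mul_le_mul_of_nonneg_right
                (le_trans (mul_le_mul_of_nonneg_left (by linarith) hK) hNK) (norm_nonneg _)

theorem Cut.mono_const {E : Type*} [NormedAddCommGroup E] [NormedSpace ℂ E] {V : Set E}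
    {X Y : E → ℂ} {C C' : ℝ} (hCC : C ≤ C') (h : Cut V X Y C) : Cut V X Y C' := by
  obtain ⟨φ, h1, h2⟩ := h
  refine ⟨φ, h1, fun z hz => ?_⟩
  obtain ⟨h3, h4, h5⟩ := h2 z hz
  exact ⟨h3.trans hCC, h4.trans (mul_le_mul_of_nonneg_right hCC (norm_nonneg _)),
    h5.trans (mul_le_mul_of_nonneg_right hCC (norm_nonneg _))⟩

/-- **Uniform bounds on convex domains.** Let `K j k`, `j < k`, be compact sets of positive capacity. There
is a constant `C` such that for every bounded convex domain `V` of every `ℂⁿ` and all holomorphic `f_j` on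
`V` with `|f| ≥ δ` such that the quotients `f_j / f_k` omit the sets `K j k` there are holomorphic `h_j`
with `∑ f_j h_j = 1` and `|h_j| ≤ C / δ`. -/
theorem convex_bound {N : ℕ} (K : Fin N → Fin N → Set ℂ) (hK : ∀ j k, j < k → CapPos (K j k)) :
    ∃ C : ℝ, ∀ (n : ℕ) (V : Set (EuclideanSpace ℂ (Fin n)))
      (f : Fin N → EuclideanSpace ℂ (Fin n) → ℂ) (δ : ℝ), IsOpen V → Convex ℝ V →
      Bornology.IsBounded V → 0 < δ → (∀ j, DifferentiableOn ℂ (f j) V) →
      (∀ z ∈ V, δ ^ 2 ≤ ∑ j, ‖f j z‖ ^ 2) →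
      (∀ j k, j < k → ∀ a ∈ K j k, ∀ z ∈ V, f k z ≠ 0 → f j z ≠ a * f k z) →
      ∃ h : Fin N → EuclideanSpace ℂ (Fin n) → ℂ, (∀ j, DifferentiableOn ℂ (h j) V) ∧
        (∀ j, ∀ z ∈ V, ‖h j z‖ ≤ C / δ) ∧ ∀ z ∈ V, ∑ j, f j z * h j z = 1 := by
  classical
  rcases N with _ | N
  · refine ⟨0, fun n V f δ _ _ _ hδ _ hf _ => ⟨fun j => Fin.elim0 j, fun j => Fin.elim0 j,
      fun j => Fin.elim0 j, fun z hz => ?_⟩⟩
    have h1 := hf z hz
    simp only [Finset.univ_eq_empty, Finset.sum_empty] at h1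
    exact absurd h1 (not_le.2 (by positivity))
  -- the constants of the pairs
  have hpair : ∀ q : Fin (N + 1) × Fin (N + 1), ∃ C : ℝ, q.1 < q.2 → ∀ {n : ℕ}
      (V : Set (EuclideanSpace ℂ (Fin n))) (X Y : EuclideanSpace ℂ (Fin n) → ℂ), IsOpen V →
      Convex ℝ V → Bornology.IsBounded V → DifferentiableOn ℂ X V → DifferentiableOn ℂ Y V →
      (∀ a ∈ K q.1 q.2, ∀ z ∈ V, Y z ≠ 0 → X z ≠ a * Y z) → Cut V X Y C := by
    intro q
    by_cases hq : q.1 < q.2
    · obtain ⟨K', hsub, hK', -, hinf⟩ := capPos_perfect (hK q.1 q.2 hq)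
      obtain ⟨C, hC⟩ := cut_convex hK' hinf
      exact ⟨C, fun _ {n} V X Y h1 h2 h3 h4 h5 h6 => hC V X Y h1 h2 h3 h4 h5
        fun a ha z hz hz0 h7 => h6 a (hsub ha) z hz hz0 (sub_eq_zero.1 h7)⟩
    · exact ⟨0, fun h => absurd h hq⟩
  choose c hc using hpair
  obtain ⟨C, hC0, hC⟩ : ∃ C : ℝ, 0 ≤ C ∧ ∀ q, c q ≤ C :=
    ⟨∑ q, |c q|, Finset.sum_nonneg fun q _ => abs_nonneg _, fun q => (le_abs_self _).trans
      (Finset.single_le_sum (f := fun q => |c q|) (fun _ _ => abs_nonneg _) (Finset.mem_univ q))⟩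
  obtain ⟨B, hB, hpart⟩ := partition_unif C hC0 N
  refine ⟨B * (N + 1), fun n V f δ hV hc' hVb hδ hf hlow hom => ?_⟩
  obtain ⟨Φ, h1, h2, h3⟩ := hpart V f fun i k hik =>
    (hc (i, k) hik V (f i) (f k) hV hc' hVb (hf i) (hf k) (hom i k hik)).mono_const (hC _)
  -- a large function
  have hbig : ∀ z ∈ V, ∃ k, δ ≤ (N + 1) * ‖f k z‖ := by
    intro z hz
    by_contra hcon
    push Not at hcon
    have h4 : ∑ j, ‖f j z‖ ^ 2 < δ ^ 2 := by
      have h5 : ∀ j, ‖f j z‖ ^ 2 ≤ (δ / (N + 1)) ^ 2 := fun j => by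
        refine pow_le_pow_left₀ (norm_nonneg _) ?_ 2
        rw [le_div_iff₀ (by positivity)]
        linarith [hcon j]
      have h6 : ‖f 0 z‖ ^ 2 < (δ / (N + 1)) ^ 2 := by
        refine pow_lt_pow_left₀ ?_ (norm_nonneg _) two_ne_zero
        rw [lt_div_iff₀ (by positivity)]
        linarith [hcon 0]
      calc ∑ j, ‖f j z‖ ^ 2 < ∑ _j : Fin (N + 1), (δ / (N + 1)) ^ 2 :=
            Finset.sum_lt_sum (fun j _ => h5 j) ⟨0, Finset.mem_univ _, h6⟩
        _ = (N + 1) * (δ / (N + 1)) ^ 2 := by simp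
        _ = δ ^ 2 / (N + 1) := by field_simp
        _ ≤ δ ^ 2 := div_le_self (by positivity) (by linarith [(Nat.cast_nonneg N : (0 : ℝ) ≤ N)])
    exact absurd (hlow z hz) (not_le.2 h4)
  have hdiv : ∀ i, ∃ q : EuclideanSpace ℂ (Fin n) → ℂ, DifferentiableOn ℂ q V ∧
      (∀ z ∈ V, ‖q z‖ ≤ B * (N + 1) / δ) ∧ ∀ z ∈ V, Φ i z = f i z * q z := by
    intro i
    refine div_of_le hV (h1 i) (hf i) (by positivity) fun z hz => ?_
    obtain ⟨k, hk⟩ := hbig z hz
    have h4 := (h3 z hz i).2 k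
    have h5 : δ * ‖Φ i z‖ ≤ B * (N + 1) * ‖f i z‖ := by
      calc δ * ‖Φ i z‖ ≤ ((N + 1) * ‖f k z‖) * ‖Φ i z‖ :=
            mul_le_mul_of_nonneg_right hk (norm_nonneg _)
        _ = (N + 1) * (‖Φ i z‖ * ‖f k z‖) := by ring
        _ ≤ (N + 1) * (B * ‖f i z‖) := mul_le_mul_of_nonneg_left h4 (by positivity)
        _ = _ := by ring
    rw [div_mul_eq_mul_div, le_div_iff₀ hδ]
    linarith
  choose q hq1 hq2 hq3 using hdiv
  refine ⟨q, hq1, hq2, fun z hz => ?_⟩
  rw [← h2 z hz]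
  exact Finset.sum_congr rfl fun i _ => (hq3 i z hz).symm

end Pool.Agent.MPca0fc2.OV
end
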