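import Pool.Agent.Lib.MP_ca0fc2_an.SGHDefs
import Pool.Agent.Lib.MP_ca0fc2_an.Mg.G112

section

/-! Campaign OV, row Y2: small cells are open. -/

set_option autoImplicit false

open Metric Set Filter Topology
open Pool.Agent.Lib.MP_ca0fc2_an

namespace Pool.Agent.MPca0fc2.OV

/-- the cells with a small radius are open -/
theorem cell_open {n m : ℕ} {D : Set (EuclideanSpace ℂ (Fin n))} (hD : IsOpen D)
    {p : EuclideanSpace ℂ (Fin n)} {u : Fin m → EuclideanSpace ℂ (Fin n) → ℂ}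
    (hu : ∀ i, ∃ r > 0, IsHinf (D ∩ ball p r) (u i)) (c : Fin m → ℂ) {ε : ℝ} (hε : 0 < ε) :
    ∃ e > 0, e ≤ ε ∧ IsOpen {z | z ∈ D ∩ ball p e ∧ ∀ i, ‖u i z - c i‖ < ε} := by
  choose r hr hur using hu
  obtain ⟨e, he, heε, her⟩ : ∃ e > 0, e ≤ ε ∧ ∀ i, e ≤ r i := by
    rcases isEmpty_or_nonempty (Fin m) with h | h
    · exact ⟨ε, hε, le_rfl, fun i => isEmptyElim i⟩
    · refine ⟨min ε (Finset.univ.inf' Finset.univ_nonempty r), lt_min hε ?_, min_le_left _ _,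
        fun i => (min_le_right _ _).trans (Finset.inf'_le r (Finset.mem_univ i))⟩
      exact (Finset.lt_inf'_iff _).2 fun i _ => hr i
  refine ⟨e, he, heε, ?_⟩
  have ho : IsOpen (D ∩ ball p e) := hD.inter isOpen_ball
  rw [isOpen_iff_mem_nhds]
  rintro z ⟨hz, hzu⟩
  have h1 : ∀ i, ∀ᶠ w in 𝓝 z, ‖u i w - c i‖ < ε := by
    intro i
    have h2 : ContinuousAt (u i) z := by
      have hz' : z ∈ D ∩ ball p (r i) := ⟨hz.1, ball_subset_ball (her i) hz.2⟩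
      exact ((hur i).1.differentiableAt ((hD.inter isOpen_ball).mem_nhds hz')).continuousAt
    exact ((h2.sub continuousAt_const).norm.tendsto).eventually (Iio_mem_nhds (hzu i))
  filter_upwards [ho.mem_nhds hz, eventually_all.2 h1] with w hw hw'
  exact ⟨hw, hw'⟩

end Pool.Agent.MPca0fc2.OV
end

section

/-! Campaign OV, row R: pairs which omit a set which is not removable for bounded holomorphic functions. -/

set_option autoImplicit false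

open Metric Set MeasureTheory Filter Topology

namespace Pool.Agent.MPca0fc2.OV

/-- compact sets which are not removable for bounded holomorphic functions: there is a nonconstant
bounded holomorphic function on the complement -/
def NonRem (K : Set ℂ) : Prop :=
  IsCompact K ∧ ∃ b : ℂ → ℂ, DifferentiableOn ℂ b Kᶜ ∧ (∃ M, ∀ z ∉ K, ‖b z‖ ≤ M) ∧
    ∃ z ∉ K, ∃ w ∉ K, b z ≠ b w

private theorem R_slope {S : Set ℂ} (hS : IsOpen S) {γ : ℂ → ℂ} (hγ : DifferentiableOn ℂ γ S)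
    {M : ℝ} (hM : ∀ s ∈ S, ‖γ s‖ ≤ M) {s₀ : ℂ} (hs₀ : s₀ ∈ S) (h0 : γ s₀ = 0) :
    ∃ (g : ℂ → ℂ) (C : ℝ), DifferentiableOn ℂ g S ∧ (∀ s, γ s = (s - s₀) * g s) ∧
      ∀ s ∈ S, ‖g s‖ * (1 + ‖s‖) ≤ C := by
  have hgd : DifferentiableOn ℂ (dslope γ s₀) S :=
    (Complex.differentiableOn_dslope (hS.mem_nhds hs₀)).mpr hγ
  have hM0 : 0 ≤ M := (norm_nonneg _).trans (hM s₀ hs₀)
  obtain ⟨ρ, hρ, hρS⟩ := Metric.nhds_basis_closedBall.mem_iff.mp (hS.mem_nhds hs₀)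
  obtain ⟨m, hm⟩ := (isCompact_closedBall s₀ ρ).exists_bound_of_continuousOn
    (hgd.continuousOn.mono hρS)
  have hm0 : 0 ≤ m := (norm_nonneg _).trans (hm s₀ (mem_closedBall_self hρ.le))
  refine ⟨dslope γ s₀, m * (1 + ‖s₀‖ + ρ) + M * ((1 + ‖s₀‖) / ρ + 1), hgd, fun s => ?_,
    fun s hs => ?_⟩
  · rcases eq_or_ne s s₀ with rfl | hne
    · rw [sub_self, zero_mul, h0]
    · rw [dslope_of_ne _ hne, slope_def_field, h0, sub_zero]
      field_simp [sub_ne_zero.mpr hne]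
  · have hns : ‖s‖ ≤ ‖s₀‖ + ‖s - s₀‖ := by
      have := norm_add_le s₀ (s - s₀)
      rwa [add_sub_cancel] at this
    by_cases hb : s ∈ closedBall s₀ ρ
    · have h1 : ‖s - s₀‖ ≤ ρ := by rwa [← dist_eq_norm]
      have h2 : ‖dslope γ s₀ s‖ * (1 + ‖s‖) ≤ m * (1 + ‖s₀‖ + ρ) :=
        mul_le_mul (hm s hb) (by linarith) (by positivity) hm0
      have h3 : 0 ≤ M * ((1 + ‖s₀‖) / ρ + 1) := by positivity
      linarith
    · have h1 : ρ < ‖s - s₀‖ := by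
        rw [mem_closedBall, dist_eq_norm, not_le] at hb
        exact hb
      have hpos : 0 < ‖s - s₀‖ := hρ.trans h1
      have hne : s ≠ s₀ := fun h => by rw [h, sub_self, norm_zero] at hpos; exact hpos.false
      have h2 : ‖dslope γ s₀ s‖ = ‖γ s‖ / ‖s - s₀‖ := by
        rw [dslope_of_ne _ hne, slope_def_field, h0, sub_zero, norm_div]
      have h3 : ‖dslope γ s₀ s‖ * (1 + ‖s‖) ≤ M * ((1 + ‖s₀‖) / ρ + 1) := by
        rw [h2]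
        have h4 : ‖γ s‖ / ‖s - s₀‖ ≤ M / ‖s - s₀‖ := div_le_div_of_nonneg_right (hM s hs) hpos.le
        have h5 : (1 + ‖s‖) / ‖s - s₀‖ ≤ (1 + ‖s₀‖) / ρ + 1 := by
          have h6 : (1 + ‖s‖) / ‖s - s₀‖ ≤ (1 + ‖s₀‖ + ‖s - s₀‖) / ‖s - s₀‖ :=
            div_le_div_of_nonneg_right (by linarith) hpos.le
          have h7 : (1 + ‖s₀‖ + ‖s - s₀‖) / ‖s - s₀‖ = (1 + ‖s₀‖) / ‖s - s₀‖ + 1 := by
            field_simp
          have h8 : (1 + ‖s₀‖) / ‖s - s₀‖ ≤ (1 + ‖s₀‖) / ρ :=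
            div_le_div_of_nonneg_left (by positivity) hρ h1.le
          linarith
        calc ‖γ s‖ / ‖s - s₀‖ * (1 + ‖s‖) ≤ M / ‖s - s₀‖ * (1 + ‖s‖) :=
              mul_le_mul_of_nonneg_right h4 (by positivity)
          _ = M * ((1 + ‖s‖) / ‖s - s₀‖) := by ring
          _ ≤ M * ((1 + ‖s₀‖) / ρ + 1) := mul_le_mul_of_nonneg_left h5 hM0
      have h9 : 0 ≤ m * (1 + ‖s₀‖ + ρ) := by positivity
      linarith

theorem pair_removable {E : Type*} [NormedAddCommGroup E] [NormedSpace ℂ E] {W : Set E}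
    {x y : E → ℂ} (hx : DifferentiableOn ℂ x W) (hy : DifferentiableOn ℂ y W) {K : Set ℂ}
    (hK : NonRem K) (h : ∀ a ∈ K, ∀ z ∈ W, x z - a * y z ≠ 0) : ∃ C, Pair W x y C := by
  obtain ⟨hKc, b, hb, ⟨M, hM⟩, p₀, hp₀, p₁, hp₁, hne⟩ := hK
  -- `K` is not empty
  have hKne : K.Nonempty := by
    rw [nonempty_iff_ne_empty]
    rintro rfl
    rw [compl_empty, differentiableOn_univ] at hb
    refine hne (hb.apply_eq_apply_of_bounded ?_ p₀ p₁)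
    rw [isBounded_iff_forall_norm_le]
    refine ⟨M, ?_⟩
    rintro _ ⟨z, rfl⟩
    exact hM z (notMem_empty z)
  obtain ⟨a₀, ha₀⟩ := hKne
  obtain ⟨R, hR⟩ := hKc.isBounded.exists_norm_le
  have hcl : IsOpen Kᶜ := hKc.isClosed.isOpen_compl
  have hc0 : b p₁ - b p₀ ≠ 0 := sub_ne_zero.mpr hne.symm
  -- the normalized function
  set B : ℂ → ℂ := fun z => (b z - b p₀) / (b p₁ - b p₀) with hB
  have hBd : DifferentiableOn ℂ B Kᶜ := (hb.sub_const _).div_const _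
  have hBM : ∀ z ∉ K, ‖B z‖ ≤ 2 * M / ‖b p₁ - b p₀‖ := by
    intro z hz
    rw [hB]
    simp only [norm_div]
    refine div_le_div_of_nonneg_right ?_ (norm_nonneg _)
    have := norm_sub_le (b z) (b p₀)
    linarith [hM z hz, hM p₀ hp₀]
  -- the coordinate `s = 1 / (t - a₀)`
  set S : Set ℂ := {s | s ≠ 0 → a₀ + s⁻¹ ∉ K} with hS
  have hS0 : (0 : ℂ) ∈ S := fun h => absurd rfl h
  have hSo : IsOpen S := by
    rw [isOpen_iff_mem_nhds]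
    intro s hs
    rcases eq_or_ne s 0 with rfl | hs0
    · have hpos : 0 < (|R| + ‖a₀‖ + 1)⁻¹ := by positivity
      filter_upwards [ball_mem_nhds (0 : ℂ) hpos] with t ht ht0 htK
      have h1 : ‖t‖ < (|R| + ‖a₀‖ + 1)⁻¹ := by simpa using ht
      have h2 : |R| + ‖a₀‖ + 1 < ‖t‖⁻¹ := by
        rw [lt_inv_comm₀ (by positivity) (norm_pos_iff.mpr ht0)]
        exact h1
      have h3 : ‖t‖⁻¹ ≤ ‖a₀ + t⁻¹‖ + ‖a₀‖ := by
        have := norm_sub_le (a₀ + t⁻¹) a₀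
        rwa [add_sub_cancel_left, norm_inv] at this
      linarith [hR _ htK, le_abs_self R]
    · have h1 : ContinuousAt (fun t : ℂ => a₀ + t⁻¹) s :=
        continuousAt_const.add (continuousAt_inv₀ hs0)
      filter_upwards [h1.eventually_mem (hcl.mem_nhds (hs hs0))] with t ht _
      exact ht
  set L : ℂ := limUnder (𝓝[≠] (0 : ℂ)) (fun s : ℂ => B (a₀ + s⁻¹)) with hL
  set γ : ℂ → ℂ := Function.update (fun s : ℂ => B (a₀ + s⁻¹)) 0 L with hγ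
  have hγ1 : ∀ s, s ≠ 0 → γ s = B (a₀ + s⁻¹) := fun s hs => by
    rw [hγ, Function.update_of_ne hs]
  have hγd : DifferentiableOn ℂ γ S := by
    refine Complex.differentiableOn_update_limUnder_of_bddAbove (hSo.mem_nhds hS0) ?_ ?_
    · intro s hs
      have hs0 : s ≠ 0 := hs.2
      have h1 : DifferentiableAt ℂ B (a₀ + s⁻¹) := hBd.differentiableAt (hcl.mem_nhds (hs.1 hs0))
      exact (h1.comp s ((differentiableAt_inv hs0).const_add a₀)).differentiableWithinAt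
    · refine ⟨2 * M / ‖b p₁ - b p₀‖, ?_⟩
      rintro _ ⟨s, hs, rfl⟩
      exact hBM _ (hs.1 hs.2)
  have hγM : ∀ s ∈ S, ‖γ s‖ ≤ 2 * M / ‖b p₁ - b p₀‖ + ‖γ 0‖ := by
    intro s hs
    have hM0 : 0 ≤ 2 * M / ‖b p₁ - b p₀‖ := (norm_nonneg _).trans (hBM p₀ hp₀)
    rcases eq_or_ne s 0 with rfl | hs0
    · linarith
    · rw [hγ1 s hs0]
      linarith [hBM _ (hs hs0), norm_nonneg (γ 0)]
  -- the two points
  have hpt : ∀ q ∉ K, q - a₀ ≠ 0 ∧ (q - a₀)⁻¹ ∈ S ∧ γ (q - a₀)⁻¹ = B q := by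
    intro q hq
    have h1 : q - a₀ ≠ 0 := sub_ne_zero.mpr fun h => hq (h ▸ ha₀)
    have h2 : a₀ + ((q - a₀)⁻¹)⁻¹ = q := by rw [inv_inv]; ring
    refine ⟨h1, fun _ => by rw [h2]; exact hq, ?_⟩
    rw [hγ1 _ (inv_ne_zero h1), h2]
  obtain ⟨hq₀, hs₀, hγ₀⟩ := hpt p₀ hp₀
  obtain ⟨hq₁, hs₁, hγ₁⟩ := hpt p₁ hp₁
  obtain ⟨g₀, C₀, hg₀, hg₀e, hC₀⟩ := R_slope hSo hγd hγM hs₀ (by
    rw [hγ₀, hB]; simp)
  obtain ⟨g₁, C₁, hg₁, hg₁e, hC₁⟩ := R_slope hSo (γ := fun s => 1 - γ s)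
    (M := 1 + (2 * M / ‖b p₁ - b p₀‖ + ‖γ 0‖)) (hγd.const_sub 1) (fun s hs => by
      have := norm_sub_le (1 : ℂ) (γ s)
      rw [norm_one] at this
      linarith [hγM s hs]) hs₁ (by
    show 1 - γ (p₁ - a₀)⁻¹ = 0
    rw [hγ₁, hB]; field_simp; simp)
  -- the solution
  set d : E → ℂ := fun z => x z - a₀ * y z with hd
  have hdd : DifferentiableOn ℂ d W := hx.sub (hy.const_mul _)
  have hd0 : ∀ z ∈ W, d z ≠ 0 := fun z hz => h a₀ ha₀ z hz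
  set s : E → ℂ := fun z => y z * (d z)⁻¹ with hs
  have hdi : DifferentiableOn ℂ (fun z => (d z)⁻¹) W := hdd.inv hd0
  have hsd : DifferentiableOn ℂ s W := hy.mul hdi
  have hsS : MapsTo s W S := by
    intro z hz hs0 hcon
    have hy0 : y z ≠ 0 := fun h0 => hs0 (by rw [hs]; simp [h0])
    refine h _ hcon z hz ?_
    have := hd0 z hz
    have h1 : a₀ + (s z)⁻¹ = x z / y z := by
      rw [hs]
      simp only [mul_inv, inv_inv]
      field_simp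
      rw [hd]
      ring
    rw [h1]
    field_simp
    ring
  set u₀ : E → ℂ := fun z => -(g₀ (s z) * (d z)⁻¹ * (p₀ - a₀)⁻¹) with hu₀
  set u₁ : E → ℂ := fun z => -(g₁ (s z) * (d z)⁻¹ * (p₁ - a₀)⁻¹) with hu₁
  have hu₀d : DifferentiableOn ℂ u₀ W := (((hg₀.comp hsd hsS).mul hdi).mul_const _).neg
  have hu₁d : DifferentiableOn ℂ u₁ W := (((hg₁.comp hsd hsS).mul hdi).mul_const _).neg
  have hxe : ∀ z ∈ W, x z = d z * (1 + a₀ * s z) := by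
    intro z hz
    have := hd0 z hz
    rw [hs]
    field_simp
    rw [hd]
    ring
  have hye : ∀ z ∈ W, y z = d z * s z := by
    intro z hz
    have := hd0 z hz
    rw [hs]
    field_simp
  have hsz : ∀ z ∈ W, ‖x z‖ + ‖y z‖ ≤ ‖d z‖ * ((2 + ‖a₀‖) * (1 + ‖s z‖)) := by
    intro z hz
    have h1 : ‖x z‖ ≤ ‖d z‖ * (1 + ‖a₀‖ * ‖s z‖) := by
      rw [hxe z hz, norm_mul]
      refine mul_le_mul_of_nonneg_left ?_ (norm_nonneg _)
      have := norm_add_le (1 : ℂ) (a₀ * s z)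
      rwa [norm_one, norm_mul] at this
    have h2 : ‖y z‖ = ‖d z‖ * ‖s z‖ := by rw [← norm_mul, ← hye z hz]
    rw [h2]
    have h3 := norm_nonneg (d z)
    have h4 := norm_nonneg (s z)
    have h5 := norm_nonneg a₀
    nlinarith [mul_nonneg h3 h4, mul_nonneg h3 h5]
  have hbound : ∀ (g : ℂ → ℂ) (C : ℝ) (q : ℂ), q - a₀ ≠ 0 →
      (∀ s ∈ S, ‖g s‖ * (1 + ‖s‖) ≤ C) → ∀ z ∈ W,
      ‖-(g (s z) * (d z)⁻¹ * (q - a₀)⁻¹)‖ * (‖x z‖ + ‖y z‖) ≤ C * (2 + ‖a₀‖) * ‖(q - a₀)⁻¹‖ := by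
    intro g C q hq hC z hz
    rw [norm_neg, norm_mul, norm_mul, norm_inv (d z)]
    have h1 := hsz z hz
    have h2 := hC (s z) (hsS hz)
    have h3 : 0 < ‖d z‖ := norm_pos_iff.mpr (hd0 z hz)
    calc ‖g (s z)‖ * ‖d z‖⁻¹ * ‖(q - a₀)⁻¹‖ * (‖x z‖ + ‖y z‖)
        ≤ ‖g (s z)‖ * ‖d z‖⁻¹ * ‖(q - a₀)⁻¹‖ * (‖d z‖ * ((2 + ‖a₀‖) * (1 + ‖s z‖))) :=
          mul_le_mul_of_nonneg_left h1 (by positivity)
      _ = (‖g (s z)‖ * (1 + ‖s z‖)) * ((2 + ‖a₀‖) * ‖(q - a₀)⁻¹‖) := by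
          field_simp
      _ ≤ C * ((2 + ‖a₀‖) * ‖(q - a₀)⁻¹‖) := mul_le_mul_of_nonneg_right h2 (by positivity)
      _ = _ := by ring
  have hX₀ : ∀ z ∈ W, (x z - p₀ * y z) * u₀ z = γ (s z) := by
    intro z hz
    have := hd0 z hz
    rw [hg₀e (s z), hu₀]
    have h1 : x z - p₀ * y z = d z * (1 - (p₀ - a₀) * s z) := by
      nth_rw 1 [hxe z hz]
      nth_rw 1 [hye z hz]
      ring
    rw [h1]
    field_simp
    ring
  have hX₁ : ∀ z ∈ W, (x z - p₁ * y z) * u₁ z = 1 - γ (s z) := by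
    intro z hz
    have := hd0 z hz
    have h2 : 1 - γ (s z) = (s z - (p₁ - a₀)⁻¹) * g₁ (s z) := hg₁e (s z)
    rw [h2, hu₁]
    have h1 : x z - p₁ * y z = d z * (1 - (p₁ - a₀) * s z) := by
      nth_rw 1 [hxe z hz]
      nth_rw 1 [hye z hz]
      ring
    rw [h1]
    field_simp
    ring
  have hb₀ := hbound g₀ C₀ p₀ hq₀ hC₀
  have hb₁ := hbound g₁ C₁ p₁ hq₁ hC₁
  obtain ⟨A₀, hA₀⟩ : ∃ A : ℝ, A = C₀ * (2 + ‖a₀‖) * ‖(p₀ - a₀)⁻¹‖ := ⟨_, rfl⟩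
  obtain ⟨A₁, hA₁⟩ : ∃ A : ℝ, A = C₁ * (2 + ‖a₀‖) * ‖(p₁ - a₀)⁻¹‖ := ⟨_, rfl⟩
  rw [← hA₀] at hb₀
  rw [← hA₁] at hb₁
  refine ⟨(1 + ‖p₀‖) * |A₀| + (1 + ‖p₁‖) * |A₁|, fun z => u₀ z + u₁ z,
    fun z => -(p₀ * u₀ z) - p₁ * u₁ z, hu₀d.add hu₁d,
    (hu₀d.const_mul _).neg.sub (hu₁d.const_mul _), fun z hz => ?_, fun z hz => ⟨?_, ?_⟩⟩
  · linear_combination hX₀ z hz + hX₁ z hz
  · have h1 := norm_add_le (u₀ z) (u₁ z)
    have h2 : ‖u₀ z + u₁ z‖ * (‖x z‖ + ‖y z‖) ≤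
        ‖u₀ z‖ * (‖x z‖ + ‖y z‖) + ‖u₁ z‖ * (‖x z‖ + ‖y z‖) := by
      rw [← add_mul]
      exact mul_le_mul_of_nonneg_right h1 (by positivity)
    have h3 := hb₀ z hz
    have h4 := hb₁ z hz
    have h5 := le_abs_self A₀
    have h6 := le_abs_self A₁
    have h7 : 0 ≤ ‖p₀‖ * |A₀| := by positivity
    have h8 : 0 ≤ ‖p₁‖ * |A₁| := by positivity
    simp only [hu₀, hu₁] at h2 h3 h4 ⊢
    linarith
  · have h1 : ‖-(p₀ * u₀ z) - p₁ * u₁ z‖ ≤ ‖p₀‖ * ‖u₀ z‖ + ‖p₁‖ * ‖u₁ z‖ := by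
      refine (norm_sub_le _ _).trans (le_of_eq ?_)
      rw [norm_neg, norm_mul, norm_mul]
    have h2 : ‖-(p₀ * u₀ z) - p₁ * u₁ z‖ * (‖x z‖ + ‖y z‖) ≤
        ‖p₀‖ * (‖u₀ z‖ * (‖x z‖ + ‖y z‖)) + ‖p₁‖ * (‖u₁ z‖ * (‖x z‖ + ‖y z‖)) := by
      refine (mul_le_mul_of_nonneg_right h1 (by positivity)).trans (le_of_eq ?_)
      ring
    have h3 : ‖p₀‖ * (‖u₀ z‖ * (‖x z‖ + ‖y z‖)) ≤ ‖p₀‖ * |A₀| :=
      mul_le_mul_of_nonneg_left ((hb₀ z hz).trans (le_abs_self _)) (norm_nonneg _)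
    have h4 : ‖p₁‖ * (‖u₁ z‖ * (‖x z‖ + ‖y z‖)) ≤ ‖p₁‖ * |A₁| :=
      mul_le_mul_of_nonneg_left ((hb₁ z hz).trans (le_abs_self _)) (norm_nonneg _)
    have h5 := abs_nonneg A₀
    have h6 := abs_nonneg A₁
    linarith

end Pool.Agent.MPca0fc2.OV
end
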