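import Pool.Agent.Lib.MP_ca0fc2_an.Mg.G112

section

/-! Campaign OV, row W1: compact sets of positive area have positive capacity. -/

set_option autoImplicit false

open Metric Set MeasureTheory Filter Topology
open scoped ENNReal

namespace Pool.Agent.MPca0fc2.OV

/-- the negative part of the logarithm is integrable in the plane -/
private theorem W1_neg (t : ℂ) :
    ∫⁻ a, ENNReal.ofReal (max 0 (-Real.log ‖t - a‖)) ≤ ENNReal.ofReal Real.pi := by
  have hm : Measurable fun a : ℂ => max 0 (-Real.log ‖t - a‖) :=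
    measurable_const.max
      (Real.measurable_log.comp ((measurable_const.sub measurable_id).norm)).neg
  have hnn : 0 ≤ᵐ[volume] fun a : ℂ => max 0 (-Real.log ‖t - a‖) :=
    Eventually.of_forall fun a => le_max_left _ _
  rw [lintegral_eq_lintegral_meas_lt volume hnn hm.aemeasurable]
  have h1 : ∀ s ∈ Ioi (0 : ℝ), volume {a : ℂ | s < max 0 (-Real.log ‖t - a‖)} ≤
      ENNReal.ofReal (Real.pi * Real.exp (-s)) := by
    intro s hs
    have hs0 : 0 < s := hs
    have h2 : {a : ℂ | s < max 0 (-Real.log ‖t - a‖)} ⊆ ball t (Real.exp (-s)) := by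
      intro a ha
      have h3 : s < -Real.log ‖t - a‖ := by
        rcases lt_max_iff.1 (show s < max 0 (-Real.log ‖t - a‖) from ha) with h | h
        · linarith
        · exact h
      have h4 : ‖t - a‖ ≠ 0 := by
        intro h0
        rw [h0, Real.log_zero] at h3
        linarith
      have h5 : 0 < ‖t - a‖ := lt_of_le_of_ne (norm_nonneg _) (Ne.symm h4)
      rw [mem_ball, dist_comm, dist_eq_norm, ← Real.log_lt_iff_lt_exp h5]
      linarith
    refine (measure_mono h2).trans ?_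
    rw [Complex.volume_ball, mul_comm, ENNReal.ofReal_mul Real.pi_pos.le]
    have h6 : (NNReal.pi : ℝ≥0∞) = ENNReal.ofReal Real.pi := by
      rw [← NNReal.coe_real_pi, ENNReal.ofReal_coe_nnreal]
    rw [h6]
    gcongr
    rw [← ENNReal.ofReal_pow (Real.exp_pos _).le]
    refine ENNReal.ofReal_le_ofReal ?_
    have h7 : Real.exp (-s) ≤ 1 := Real.exp_le_one_iff.2 (by linarith)
    nlinarith [Real.exp_pos (-s)]
  calc ∫⁻ s in Ioi (0 : ℝ), volume {a : ℂ | s < max 0 (-Real.log ‖t - a‖)}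
      ≤ ∫⁻ s in Ioi (0 : ℝ), ENNReal.ofReal (Real.pi * Real.exp (-s)) :=
        setLIntegral_mono' measurableSet_Ioi h1
    _ = ENNReal.ofReal (∫ s in Ioi (0 : ℝ), Real.pi * Real.exp (-s)) := by
        rw [ofReal_integral_eq_lintegral_ofReal]
        · exact (integrableOn_exp_neg_Ioi 0).const_mul _
        · exact Eventually.of_forall fun s => by positivity
    _ = ENNReal.ofReal Real.pi := by
        rw [integral_const_mul, integral_exp_neg_Ioi_zero, mul_one]

/-- a compact set of positive area carries a probability measure with bounded logarithmic potential -/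
theorem potential_of_volume {K : Set ℂ} (hK : IsCompact K) (h : volume K ≠ 0) :
    ∃ (μ : Measure ℂ) (B : ℝ), IsProbabilityMeasure μ ∧ μ Kᶜ = 0 ∧
      ∀ t, Integrable (fun a => Real.log ‖t - a‖) μ ∧ -B ≤ ∫ a, Real.log ‖t - a‖ ∂μ := by
  obtain ⟨κ, hκ⟩ : ∃ κ, κ = volume K := ⟨_, rfl⟩
  have hκ0 : κ ≠ 0 := by rw [hκ]; exact h
  have hκt : κ ≠ ∞ := by rw [hκ]; exact hK.measure_lt_top.ne
  obtain ⟨μ, hμ⟩ : ∃ μ : Measure ℂ, μ = κ⁻¹ • volume.restrict K := ⟨_, rfl⟩
  have hμK : μ Kᶜ = 0 := by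
    rw [hμ, Measure.smul_apply, Measure.restrict_apply hK.measurableSet.compl, compl_inter_self,
      measure_empty, smul_zero]
  have haeK : ∀ᵐ a ∂μ, a ∈ K := by
    rw [ae_iff]
    exact hμK
  obtain ⟨R, hR⟩ := hK.isBounded.exists_norm_le
  refine ⟨μ, (κ⁻¹ * ENNReal.ofReal Real.pi).toReal, ?_, hμK, fun t => ?_⟩
  · constructor
    rw [hμ, Measure.smul_apply, Measure.restrict_apply_univ, ← hκ, smul_eq_mul,
      ENNReal.inv_mul_cancel hκ0 hκt]
  have hfin : κ⁻¹ * ENNReal.ofReal Real.pi ≠ ∞ :=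
    ENNReal.mul_ne_top (ENNReal.inv_ne_top.2 hκ0) ENNReal.ofReal_ne_top
  have hprob : IsProbabilityMeasure μ := by
    constructor
    rw [hμ, Measure.smul_apply, Measure.restrict_apply_univ, ← hκ, smul_eq_mul,
      ENNReal.inv_mul_cancel hκ0 hκt]
  have hmeas : Measurable fun a : ℂ => Real.log ‖t - a‖ :=
    Real.measurable_log.comp ((measurable_const.sub measurable_id).norm)
  have hneg : ∫⁻ a, ENNReal.ofReal (max 0 (-Real.log ‖t - a‖)) ∂μ ≤
      κ⁻¹ * ENNReal.ofReal Real.pi := by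
    rw [hμ, lintegral_smul_measure, smul_eq_mul]
    gcongr
    exact (lintegral_mono' Measure.restrict_le_self le_rfl).trans (W1_neg t)
  have hnegm : Measurable fun a : ℂ => max 0 (-Real.log ‖t - a‖) := measurable_const.max hmeas.neg
  have hnn : 0 ≤ᵐ[μ] fun a : ℂ => max 0 (-Real.log ‖t - a‖) :=
    Eventually.of_forall fun a => le_max_left _ _
  have hnegi : Integrable (fun a : ℂ => max 0 (-Real.log ‖t - a‖)) μ := by
    refine ⟨hnegm.aestronglyMeasurable, ?_⟩
    rw [hasFiniteIntegral_iff_ofReal hnn]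
    exact hneg.trans_lt hfin.lt_top
  have hposi : Integrable (fun a : ℂ => max 0 (Real.log ‖t - a‖)) μ := by
    refine Integrable.of_bound (measurable_const.max hmeas).aestronglyMeasurable
      (Real.log (‖t‖ + |R| + 1)) ?_
    filter_upwards [haeK] with a ha
    have h0 : 0 ≤ Real.log (‖t‖ + |R| + 1) :=
      Real.log_nonneg (by linarith [norm_nonneg t, abs_nonneg R])
    rw [Real.norm_of_nonneg (le_max_left _ _)]
    refine max_le h0 ?_
    rcases (norm_nonneg (t - a)).eq_or_lt with h1 | h1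
    · rw [← h1, Real.log_zero]
      exact h0
    · refine Real.log_le_log h1 ?_
      linarith [norm_sub_le t a, hR a ha, le_abs_self R]
  have hsplit : ∀ a, Real.log ‖t - a‖ =
      max 0 (Real.log ‖t - a‖) - max 0 (-Real.log ‖t - a‖) := by
    intro a
    rcases le_total 0 (Real.log ‖t - a‖) with h1 | h1
    · rw [max_eq_right h1, max_eq_left (by linarith), sub_zero]
    · rw [max_eq_left h1, max_eq_right (by linarith)]
      ring
  have hint : Integrable (fun a : ℂ => Real.log ‖t - a‖) μ :=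
    (hposi.sub hnegi).congr (Eventually.of_forall fun a => (hsplit a).symm)
  refine ⟨hint, ?_⟩
  have h1 : ∫ a, Real.log ‖t - a‖ ∂μ =
      ∫ a, max 0 (Real.log ‖t - a‖) ∂μ - ∫ a, max 0 (-Real.log ‖t - a‖) ∂μ := by
    rw [← integral_sub hposi hnegi]
    exact integral_congr_ae (Eventually.of_forall hsplit)
  have h2 : 0 ≤ ∫ a, max 0 (Real.log ‖t - a‖) ∂μ := integral_nonneg fun a => le_max_left _ _
  have h3 : ∫ a, max 0 (-Real.log ‖t - a‖) ∂μ ≤ (κ⁻¹ * ENNReal.ofReal Real.pi).toReal := by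
    rw [integral_eq_lintegral_of_nonneg_ae hnn hnegm.aestronglyMeasurable]
    exact ENNReal.toReal_mono hfin hneg
  rw [h1]
  linarith

theorem posCap_of_volume {K : Set ℂ} (hK : IsCompact K) (h : volume K ≠ 0) : PosCap K := by
  obtain ⟨μ, B, h1, h2, h3⟩ := potential_of_volume hK h
  exact ⟨hK, μ, B, h1, h2, fun t _ => (h3 t).2⟩

end Pool.Agent.MPca0fc2.OV
end

section

/-! Campaign OVN (necessity of positive capacity): the definitions. -/

set_option autoImplicit false

open Metric Set MeasureTheory Filter Topology Real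

namespace Pool.Agent.MPca0fc2.OVN

/-- `log (1 + |z|²)` -/
noncomputable def EL (z : ℂ) : ℝ := Real.log (1 + ‖z‖ ^ 2)

/-- the average of `EL` over the circle with centre `z` and radius `ρ` -/
noncomputable def AL (z : ℂ) (ρ : ℝ) : ℝ :=
  Real.log ((1 + ‖z‖ ^ 2 + ρ ^ 2 +
    Real.sqrt ((1 + ‖z‖ ^ 2 + ρ ^ 2) ^ 2 - 4 * ρ ^ 2 * ‖z‖ ^ 2)) / 2)

/-- polynomials which map the closed unit disc into the complement of `K`, and `0` to `z₀` -/
def PDisc (K : Set ℂ) (z₀ : ℂ) (P : Polynomial ℂ) : Prop :=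
  P.eval 0 = z₀ ∧ ∀ t : ℂ, ‖t‖ ≤ 1 → P.eval t ∉ K

/-- all entire functions which map the disc into the complement of `K` have solutions on the disc with the
pointwise bound `C` -/
def HomSol (K : Set ℂ) (C : ℝ) : Prop :=
  ∀ w : ℂ → ℂ, Differentiable ℂ w → (∀ ζ ∈ ball (0 : ℂ) 1, w ζ ∉ K) →
    ∃ u v : ℂ → ℂ, DifferentiableOn ℂ u (ball 0 1) ∧ DifferentiableOn ℂ v (ball 0 1) ∧
      (∀ ζ ∈ ball (0 : ℂ) 1, w ζ * u ζ + v ζ = 1) ∧
      ∀ ζ ∈ ball (0 : ℂ) 1, ‖u ζ‖ * (1 + ‖w ζ‖) ≤ C ∧ ‖v ζ‖ * (1 + ‖w ζ‖) ≤ C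

end Pool.Agent.MPca0fc2.OVN
end
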