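import Pool.Agent.Lib.MP_ca0fc2_an.Mg.G119

section

/-! Campaign OV, row W2: bases in sets of positive measure. -/

set_option autoImplicit false

open Metric Set MeasureTheory Filter Topology
open scoped ENNReal

namespace Pool.Agent.MPca0fc2.OV

variable {N : ℕ}

/-- Almost every point `b` of `A` has the property that `b - t v` is in `A` for a set of positive measure
of numbers `t`. -/
theorem null_dir {A : Set (Fin N → ℂ)} (hA : MeasurableSet A) (v : Fin N → ℂ) :
    volume {b | b ∈ A ∧ volume {t : ℂ | b - t • v ∈ A} = 0} = 0 := by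
  obtain ⟨S, hS⟩ : ∃ S : Set ((Fin N → ℂ) × ℂ), S = {q | q.1 - q.2 • v ∈ A} := ⟨_, rfl⟩
  have hsub : Measurable fun q : (Fin N → ℂ) × ℂ => q.1 - q.2 • v :=
    (continuous_fst.sub (continuous_snd.smul continuous_const)).measurable
  have hSm : MeasurableSet S := by
    rw [hS]
    exact hsub hA
  obtain ⟨Z, hZ⟩ : ∃ Z : Set (Fin N → ℂ),
      Z = {b | b ∈ A ∧ volume {t : ℂ | b - t • v ∈ A} = 0} := ⟨_, rfl⟩
  have hZm : MeasurableSet Z := by
    rw [hZ]
    refine hA.inter ?_
    have h1 : Measurable fun b : Fin N → ℂ => volume (Prod.mk b ⁻¹' S) :=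
      measurable_measure_prodMk_left hSm
    have h2 : MeasurableSet {b : Fin N → ℂ | volume (Prod.mk b ⁻¹' S) = 0} :=
      h1 (measurableSet_singleton 0)
    rw [hS] at h2
    exact h2
  rw [← hZ]
  -- the slices in the direction of `v` are null
  have hnull : ∀ b : Fin N → ℂ, volume {t : ℂ | b - t • v ∈ Z} = 0 := by
    intro b
    rcases ({t : ℂ | b - t • v ∈ Z}).eq_empty_or_nonempty with h | ⟨t', ht'⟩
    · rw [h, measure_empty]
    · have h1 : b - t' • v ∈ Z := ht'
      rw [hZ] at h1
      have h2 : {t : ℂ | b - t • v ∈ A} =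
          (fun t => t - t') ⁻¹' {s : ℂ | (b - t' • v) - s • v ∈ A} := by
        ext t
        show b - t • v ∈ A ↔ (b - t' • v) - (t - t') • v ∈ A
        rw [show (b - t' • v) - (t - t') • v = b - t • v by module]
      have h3 : volume {t : ℂ | b - t • v ∈ A} = 0 := by
        have h4 := measure_preimage_add_right (volume : Measure ℂ) (-t')
          {s : ℂ | (b - t' • v) - s • v ∈ A}
        simp only [← sub_eq_add_neg] at h4
        rw [h2, h4]
        exact h1.2
      refine measure_mono_null (fun t ht => ?_) h3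
      have h4 : b - t • v ∈ Z := ht
      rw [hZ] at h4
      exact h4.1
  -- Fubini
  obtain ⟨S', hS'⟩ : ∃ S' : Set ((Fin N → ℂ) × ℂ),
      S' = {q | q.1 - q.2 • v ∈ Z} ∩ {q | q.2 ∈ ball (0 : ℂ) 1} := ⟨_, rfl⟩
  have hS'm : MeasurableSet S' := by
    rw [hS']
    exact (hsub hZm).inter (measurable_snd measurableSet_ball)
  have h1 : (volume.prod volume) S' = 0 := by
    rw [Measure.prod_apply hS'm, lintegral_eq_zero_iff (measurable_measure_prodMk_left hS'm)]
    refine Eventually.of_forall fun b => ?_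
    refine measure_mono_null (fun t ht => ?_) (hnull b)
    rw [hS'] at ht
    exact ht.1
  have h2 : (volume.prod volume) S' = volume Z * volume (ball (0 : ℂ) 1) := by
    rw [Measure.prod_apply_symm hS'm]
    have h3 : ∀ t : ℂ, volume ((fun b : Fin N → ℂ => (b, t)) ⁻¹' S') =
        (ball (0 : ℂ) 1).indicator (fun _ => volume Z) t := by
      intro t
      by_cases ht : t ∈ ball (0 : ℂ) 1
      · rw [indicator_of_mem ht]
        have h4 : (fun b : Fin N → ℂ => (b, t)) ⁻¹' S' = (fun b => b - t • v) ⁻¹' Z := by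
          ext b
          rw [hS']
          exact ⟨fun h => h.1, fun h => ⟨h, ht⟩⟩
        have h5 := measure_preimage_add_right (volume : Measure (Fin N → ℂ)) (-(t • v)) Z
        simp only [← sub_eq_add_neg] at h5
        rw [h4, h5]
      · rw [indicator_of_notMem ht]
        have h4 : (fun b : Fin N → ℂ => (b, t)) ⁻¹' S' = ∅ := by
          ext b
          rw [hS']
          exact ⟨fun h => ht h.2, fun h => absurd h (notMem_empty b)⟩
        rw [h4, measure_empty]
    rw [lintegral_congr h3, lintegral_indicator measurableSet_ball, setLIntegral_const]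
  rw [h1] at h2
  rcases mul_eq_zero.1 h2.symm with h3 | h3
  · exact h3
  · exact absurd h3 (measure_ball_pos volume (0 : ℂ) one_pos).ne'

/-- a set of positive measure contains linearly independent vectors such that the lines through two of
them meet the set in a set of positive measure -/
theorem exists_vectors {A : Set (Fin N → ℂ)} (hA : MeasurableSet A) (hA0 : volume A ≠ 0) :
    ∀ m : ℕ, m ≤ N → ∃ b : Fin m → (Fin N → ℂ), LinearIndependent ℂ b ∧
      ∀ i k, i < k → volume {t : ℂ | b k - t • b i ∈ A} ≠ 0 := by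
  intro m
  induction m with
  | zero => exact fun _ => ⟨fun i => i.elim0, linearIndependent_empty_type, fun i => i.elim0⟩
  | succ m ih =>
    intro hm
    obtain ⟨b, hb, hbA⟩ := ih (by omega)
    -- the bad set is null
    have hspan : volume ((Submodule.span ℂ (range b) : Submodule ℂ (Fin N → ℂ)) :
        Set (Fin N → ℂ)) = 0 := by
      have h1 : Submodule.span ℂ (range b) ≠ ⊤ := by
        intro h
        have h2 := finrank_span_le_card (R := ℂ) (range b)
        rw [h, finrank_top, Module.finrank_fin_fun] at h2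
        have h3 : (range b).toFinset.card ≤ m := by
          rw [toFinset_range]
          exact (Finset.card_image_le).trans (by simp)
        omega
      have h2 : (Submodule.span ℂ (range b)).restrictScalars ℝ ≠ ⊤ := by
        intro h
        refine h1 (eq_top_iff.2 fun x _ => ?_)
        have h3 : x ∈ (Submodule.span ℂ (range b)).restrictScalars ℝ := by
          rw [h]
          exact Submodule.mem_top
        exact h3
      exact Measure.addHaar_submodule volume _ h2
    have hbad : volume ((⋃ i : Fin m, {x | x ∈ A ∧ volume {t : ℂ | x - t • b i ∈ A} = 0}) ∪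
        ((Submodule.span ℂ (range b) : Submodule ℂ (Fin N → ℂ)) : Set (Fin N → ℂ))) = 0 := by
      rw [measure_union_null_iff]
      exact ⟨measure_iUnion_null fun i => null_dir hA (b i), hspan⟩
    obtain ⟨x, hxA, hx⟩ : ∃ x ∈ A, x ∉
        ((⋃ i : Fin m, {x | x ∈ A ∧ volume {t : ℂ | x - t • b i ∈ A} = 0}) ∪
        ((Submodule.span ℂ (range b) : Submodule ℂ (Fin N → ℂ)) : Set (Fin N → ℂ))) := by
      by_contra hcon
      push Not at hcon
      exact hA0 (measure_mono_null (fun x hx => hcon x hx) hbad)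
    rw [mem_union, not_or] at hx
    refine ⟨Fin.snoc b x, linearIndependent_finSnoc.2 ⟨hb, hx.2⟩, fun i k hik => ?_⟩
    induction k using Fin.lastCases with
    | last =>
      induction i using Fin.lastCases with
      | last => exact absurd hik (lt_irrefl _)
      | cast i =>
        rw [Fin.snoc_last, Fin.snoc_castSucc]
        intro h0
        exact hx.1 (mem_iUnion.2 ⟨i, hxA, h0⟩)
    | cast k =>
      induction i using Fin.lastCases with
      | last => exact absurd hik (not_lt.2 (Fin.le_last _))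
      | cast i =>
        rw [Fin.snoc_castSucc, Fin.snoc_castSucc]
        exact hbA i k (Fin.castSucc_lt_castSucc_iff.1 hik)

/-- the set of the inverses of a set of positive area has positive area -/
theorem inv_volume {S T : Set ℂ} (hS : volume S ≠ 0) (h : ∀ t ∈ S, t ≠ 0 → t⁻¹ ∈ T) :
    volume T ≠ 0 := by
  intro hT
  have h1 : volume ((fun t : ℂ => t⁻¹) '' (T \ {0})) = 0 := by
    refine addHaar_image_eq_zero_of_differentiableOn_of_addHaar_eq_zero volume (fun t ht => ?_)
      (measure_mono_null sdiff_subset hT)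
    exact ((differentiableAt_inv (𝕜 := ℂ) ht.2).restrictScalars ℝ).differentiableWithinAt
  have h2 : volume ((fun t : ℂ => t⁻¹) '' (T \ {0}) ∪ {0}) = 0 := by
    rw [measure_union_null_iff]
    exact ⟨h1, measure_singleton 0⟩
  refine hS (measure_mono_null (fun t ht => ?_) h2)
  rcases eq_or_ne t 0 with h0 | h0
  · exact Or.inr h0
  · exact Or.inl ⟨t⁻¹, ⟨h t ht h0, inv_ne_zero h0⟩, inv_inv t⟩

/-- a basis in a conic set of positive measure, with compact sets of positive area in the lines through
two of the vectors -/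
theorem exists_basis {A : Set (Fin N → ℂ)} (hA : MeasurableSet A) (hA0 : volume A ≠ 0)
    (hc : ∀ a ∈ A, ∀ c : ℂ, c ≠ 0 → c • a ∈ A) :
    ∃ b : Fin N → (Fin N → ℂ), LinearIndependent ℂ b ∧
      ∀ i k, i ≠ k → ∃ K : Set ℂ, IsCompact K ∧ volume K ≠ 0 ∧ ∀ t ∈ K, b i - t • b k ∈ A := by
  obtain ⟨b, hb, h⟩ := exists_vectors hA hA0 N le_rfl
  have hpos : ∀ i k, i ≠ k → volume {t : ℂ | b i - t • b k ∈ A} ≠ 0 := by
    intro i k hik
    rcases lt_or_gt_of_ne hik with hlt | hlt
    · refine inv_volume (h i k hlt) fun t ht h0 => ?_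
      have h1 : b k - t • b i ∈ A := ht
      have h2 : b i - t⁻¹ • b k = (-t⁻¹) • (b k - t • b i) := by
        rw [smul_sub, smul_smul, neg_mul, inv_mul_cancel₀ h0, neg_smul, neg_smul, one_smul]
        abel
      show b i - t⁻¹ • b k ∈ A
      rw [h2]
      exact hc _ h1 _ (neg_ne_zero.2 (inv_ne_zero h0))
    · exact h k i hlt
  refine ⟨b, hb, fun i k hik => ?_⟩
  have hm : MeasurableSet {t : ℂ | b i - t • b k ∈ A} := by
    have h1 : Measurable fun t : ℂ => b i - t • b k :=
      (continuous_const.sub (continuous_id.smul continuous_const)).measurable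
    exact h1 hA
  obtain ⟨K, hKs, hK, hK0⟩ := hm.exists_lt_isCompact (μ := volume)
    (pos_iff_ne_zero.2 (hpos i k hik))
  exact ⟨K, hK, hK0.ne', fun t ht => hKs ht⟩

end Pool.Agent.MPca0fc2.OV
end

section

/-! Campaign OV, row W3: almost every linear combination has a zero. -/

set_option autoImplicit false

open Metric Set MeasureTheory Filter Topology
open scoped ENNReal

namespace Pool.Agent.MPca0fc2.OV

variable {N : ℕ} {E : Type*} [NormedAddCommGroup E] [NormedSpace ℂ E] [FiniteDimensional ℂ E]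

omit [NormedSpace ℂ E] [FiniteDimensional ℂ E] in
/-- the vectors `a` such that `∑ a_j f_j` has a zero on a compact set form a closed set -/
theorem closed_zeros {K : Set E} (hK : IsCompact K) {f : Fin N → E → ℂ}
    (hf : ∀ j, ContinuousOn (f j) K) :
    IsClosed {a : Fin N → ℂ | ∃ z ∈ K, ∑ j, a j * f j z = 0} := by
  have : CompactSpace K := isCompact_iff_compactSpace.1 hK
  have h1 : IsClosed {q : (Fin N → ℂ) × K | ∑ j, q.1 j * f j (q.2 : E) = 0} := by
    refine isClosed_eq (continuous_finsetSum _ fun j _ => ?_) continuous_const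
    exact ((continuous_apply j).comp continuous_fst).mul
      ((continuousOn_iff_continuous_domRestrict.1 (hf j)).comp continuous_snd)
  have h2 := isClosedMap_fst_of_compactSpace (X := Fin N → ℂ) (Y := K) _ h1
  have h3 : {a : Fin N → ℂ | ∃ z ∈ K, ∑ j, a j * f j z = 0} =
      Prod.fst '' {q : (Fin N → ℂ) × K | ∑ j, q.1 j * f j (q.2 : E) = 0} := by
    ext a
    constructor
    · rintro ⟨z, hz, h⟩
      exact ⟨(a, ⟨z, hz⟩), h, rfl⟩
    · rintro ⟨⟨a', z⟩, h, rfl⟩
      exact ⟨z, z.2, h⟩
  rw [h3]
  exact h2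

/-- the vectors `a` such that `∑ a_j f_j` has a zero on an open set form a Borel set -/
theorem measurable_zeros {S : Set E} (hS : IsOpen S) {f : Fin N → E → ℂ}
    (hf : ∀ j, ContinuousOn (f j) S) :
    MeasurableSet {a : Fin N → ℂ | ∃ z ∈ S, ∑ j, a j * f j z = 0} := by
  have : ProperSpace E := FiniteDimensional.proper ℂ E
  obtain ⟨F, hF, hFS, hFU, -⟩ := hS.exists_iUnion_isClosed
  have h1 : {a : Fin N → ℂ | ∃ z ∈ S, ∑ j, a j * f j z = 0} =
      ⋃ n : ℕ, ⋃ m : ℕ, {a : Fin N → ℂ | ∃ z ∈ F n ∩ closedBall 0 m, ∑ j, a j * f j z = 0} := by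
    ext a
    constructor
    · rintro ⟨z, hz, h⟩
      rw [← hFU] at hz
      obtain ⟨n, hn⟩ := mem_iUnion.1 hz
      obtain ⟨m, hm⟩ := exists_nat_ge ‖z‖
      exact mem_iUnion.2 ⟨n, mem_iUnion.2 ⟨m, z, ⟨hn, mem_closedBall_zero_iff.2 hm⟩, h⟩⟩
    · intro h
      obtain ⟨n, hn⟩ := mem_iUnion.1 h
      obtain ⟨m, z, hz, h0⟩ := mem_iUnion.1 hn
      exact ⟨z, hFS n hz.1, h0⟩
  rw [h1]
  refine MeasurableSet.iUnion fun n => MeasurableSet.iUnion fun m => ?_
  exact (closed_zeros ((isCompact_closedBall 0 _).inter_left (hF n))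
    fun j => (hf j).mono fun z hz => hFS n hz.1).measurableSet

/-- If in every basis two of the linear combinations `g_i = ∑ b_ij f_j` are such that every compact set of
positive area contains a number `t` such that `g_i - t g_k` has a zero, then almost every linear
combination has a zero. -/
theorem ae_zero {S : Set E} (hS : IsOpen S) {f : Fin N → E → ℂ} (hf : ∀ j, ContinuousOn (f j) S)
    (h : ∀ b : Fin N → (Fin N → ℂ), LinearIndependent ℂ b → ∃ i k, i ≠ k ∧
      ∀ K : Set ℂ, IsCompact K → volume K ≠ 0 →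
        ∃ t ∈ K, ∃ z ∈ S, (∑ j, b i j * f j z) - t * ∑ j, b k j * f j z = 0) :
    ∀ᵐ a : Fin N → ℂ, ∃ z ∈ S, ∑ j, a j * f j z = 0 := by
  rw [ae_iff]
  by_contra hcon
  obtain ⟨A, hA⟩ : ∃ A : Set (Fin N → ℂ), A = {a | ¬ ∃ z ∈ S, ∑ j, a j * f j z = 0} := ⟨_, rfl⟩
  rw [← hA] at hcon
  have hAm : MeasurableSet A := by
    rw [hA]
    exact (measurable_zeros hS hf).compl
  have hAc : ∀ a ∈ A, ∀ c : ℂ, c ≠ 0 → c • a ∈ A := by
    intro a ha c hc
    rw [hA] at ha ⊢
    rintro ⟨z, hz, h0⟩
    refine ha ⟨z, hz, ?_⟩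
    have h1 : ∑ j, (c • a) j * f j z = c * ∑ j, a j * f j z := by
      rw [Finset.mul_sum]
      refine Finset.sum_congr rfl fun j _ => ?_
      rw [Pi.smul_apply, smul_eq_mul, mul_assoc]
    rw [h1] at h0
    exact (mul_eq_zero.1 h0).resolve_left hc
  obtain ⟨b, hb, hbK⟩ := exists_basis hAm hcon hAc
  obtain ⟨i, k, hik, hK⟩ := h b hb
  obtain ⟨K, hKc, hK0, hKA⟩ := hbK i k hik
  obtain ⟨t, ht, z, hz, h0⟩ := hK K hKc hK0
  have h1 := hKA t ht
  rw [hA] at h1
  refine h1 ⟨z, hz, ?_⟩
  rw [← h0, Finset.mul_sum, ← Finset.sum_sub_distrib]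
  refine Finset.sum_congr rfl fun j _ => ?_
  rw [Pi.sub_apply, Pi.smul_apply, smul_eq_mul]
  ring

/-- linear forms with linearly independent coefficients have no common zero off the origin -/
theorem forms_zero {b : Fin N → (Fin N → ℂ)} (hb : LinearIndependent ℂ b) {w : Fin N → ℂ}
    (h : ∀ i, ∑ j, b i j * w j = 0) : w = 0 := by
  have h1 : IsUnit (Matrix.of b) := by
    rw [← Matrix.linearIndependent_rows_iff_isUnit]
    exact hb
  have h2 : Function.Injective (Matrix.of b).mulVec := Matrix.mulVec_injective_iff_isUnit.2 h1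
  refine h2 ?_
  rw [Matrix.mulVec_zero]
  ext i
  exact h i

end Pool.Agent.MPca0fc2.OV
end
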