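import Pool.Agent.Lib.MP_ca0fc2_an.Holo

section

/-! Bounded holomorphic functions and contour integrals. -/

set_option autoImplicit false

open Metric Set Filter Topology MeasureTheory

namespace Pool.Agent.MPca0fc2.LS

variable {E : Type*} [NormedAddCommGroup E] [NormedSpace ℂ E]

/-- bounded holomorphic functions -/
def Hb (W : Set E) (g : E → ℂ) : Prop := DifferentiableOn ℂ g W ∧ ∃ B : ℝ, ∀ y ∈ W, ‖g y‖ ≤ B

variable {W : Set E} {f g : E → ℂ}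

theorem Hb.const (W : Set E) (c : ℂ) : Hb W fun _ => c :=
  ⟨differentiableOn_const c, ‖c‖, fun _ _ => le_rfl⟩

theorem Hb.add (hf : Hb W f) (hg : Hb W g) : Hb W fun y => f y + g y := by
  obtain ⟨h1, A, hA⟩ := hf
  obtain ⟨h2, B, hB⟩ := hg
  exact ⟨h1.add h2, A + B, fun y hy => (norm_add_le _ _).trans (add_le_add (hA y hy) (hB y hy))⟩

theorem Hb.mul (hf : Hb W f) (hg : Hb W g) : Hb W fun y => f y * g y := by
  obtain ⟨h1, A, hA⟩ := hf
  obtain ⟨h2, B, hB⟩ := hg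
  refine ⟨h1.mul h2, A * B, fun y hy => ?_⟩
  rw [norm_mul]
  exact mul_le_mul (hA y hy) (hB y hy) (norm_nonneg _) ((norm_nonneg _).trans (hA y hy))

theorem Hb.neg (hf : Hb W f) : Hb W fun y => -f y := by
  obtain ⟨h1, A, hA⟩ := hf
  exact ⟨h1.neg, A, fun y hy => by rw [norm_neg]; exact hA y hy⟩

theorem Hb.sub (hf : Hb W f) (hg : Hb W g) : Hb W fun y => f y - g y := by
  obtain ⟨h1, A, hA⟩ := hf
  obtain ⟨h2, B, hB⟩ := hg
  exact ⟨h1.sub h2, A + B, fun y hy => (norm_sub_le _ _).trans (add_le_add (hA y hy) (hB y hy))⟩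

theorem Hb.inv (hf : Hb W f) {ε : ℝ} (hε : 0 < ε) (h : ∀ y ∈ W, ε ≤ ‖f y‖) :
    Hb W fun y => (f y)⁻¹ := by
  refine ⟨hf.1.inv fun y hy h0 => ?_, ε⁻¹, fun y hy => ?_⟩
  · have h1 := h y hy
    rw [h0, norm_zero] at h1
    linarith
  · rw [norm_inv]
    exact inv_anti₀ hε (h y hy)

theorem Hb.mono {W' : Set E} (hf : Hb W f) (h : W' ⊆ W) : Hb W' f :=
  ⟨hf.1.mono h, hf.2.choose, fun y hy => hf.2.choose_spec y (h hy)⟩

theorem Hb.congr (hf : Hb W f) (h : ∀ y ∈ W, g y = f y) : Hb W g :=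
  ⟨hf.1.congr h, hf.2.choose, fun y hy => by rw [h y hy]; exact hf.2.choose_spec y hy⟩

theorem Hb.sum {ι : Type*} (s : Finset ι) {F : ι → E → ℂ} (h : ∀ i ∈ s, Hb W (F i)) :
    Hb W fun y => ∑ i ∈ s, F i y := by
  classical
  induction s using Finset.induction_on with
  | empty => simpa using Hb.const W 0
  | insert a s ha ih =>
    simp only [Finset.sum_insert ha]
    exact (h a (Finset.mem_insert_self a s)).add (ih fun i hi => h i (Finset.mem_insert_of_mem hi))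

theorem Hb.prod {ι : Type*} (s : Finset ι) {F : ι → E → ℂ} (h : ∀ i ∈ s, Hb W (F i)) :
    Hb W fun y => ∏ i ∈ s, F i y := by
  classical
  induction s using Finset.induction_on with
  | empty => simpa using Hb.const W 1
  | insert a s ha ih =>
    simp only [Finset.prod_insert ha]
    exact (h a (Finset.mem_insert_self a s)).mul (ih fun i hi => h i (Finset.mem_insert_of_mem hi))

theorem Hb.pow (hf : Hb W f) (k : ℕ) : Hb W fun y => f y ^ k := by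
  have h := Hb.prod (Finset.range k) (F := fun _ : ℕ => f) (W := W) fun _ _ => hf
  exact h.congr fun y _ => by simp

/-- circle integrals with a parameter -/
theorem Hb.circle {ρ : ℝ} (hρ : 0 < ρ) (hW : IsOpen W) {F : ℂ → E → ℂ} {B : ℝ}
    (hF : ∀ ζ ∈ sphere (0 : ℂ) ρ, DifferentiableOn ℂ (F ζ) W)
    (hc : ∀ y ∈ W, ContinuousOn (fun ζ => F ζ y) (sphere (0 : ℂ) ρ))
    (hb : ∀ ζ ∈ sphere (0 : ℂ) ρ, ∀ y ∈ W, ‖F ζ y‖ ≤ B) :
    Hb W fun y => ∮ ζ in C(0, ρ), F ζ y := by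
  refine ⟨fun y hy => ?_, 2 * Real.pi * ρ * B, fun y hy => ?_⟩
  · obtain ⟨r, hr, hrW⟩ := Metric.isOpen_iff.1 hW y hy
    have e : (fun y => ∮ ζ in C(0, ρ), F ζ y) = fun y => ∫ θ in Ioc 0 (2 * Real.pi),
        deriv (circleMap 0 ρ) θ • F (circleMap 0 ρ θ) y := by
      funext y
      unfold circleIntegral
      rw [intervalIntegral.integral_of_le Real.two_pi_pos.le]
    rw [e]
    have hm : ∀ θ : ℝ, circleMap 0 ρ θ ∈ sphere (0 : ℂ) ρ := fun θ =>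
      circleMap_mem_sphere _ hρ.le θ
    have hcont : ∀ z ∈ W, Continuous fun θ : ℝ => F (circleMap 0 ρ θ) z := fun z hz =>
      (hc z hz).comp_continuous (continuous_circleMap 0 ρ) hm
    refine (Pool.Agent.Lib.MP_ca0fc2_an.differentiableAt_integral
      (μ := volume.restrict (Ioc 0 (2 * Real.pi))) hr (g := fun _ => ρ * B) ?_ ?_ ?_
      ?_).differentiableWithinAt
    · refine Eventually.of_forall fun θ => ?_
      have h1 := (hF _ (hm θ)).mono hrW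
      exact h1.const_smul (deriv (circleMap 0 ρ) θ)
    · intro z hz
      have h1 : Continuous (deriv (circleMap 0 ρ)) := by
        have : deriv (circleMap 0 ρ) = fun θ => circleMap 0 ρ θ * Complex.I := by
          funext θ
          rw [deriv_circleMap]
        rw [this]
        exact (continuous_circleMap 0 ρ).mul continuous_const
      exact (h1.smul (hcont z (hrW hz))).aestronglyMeasurable
    · exact integrable_const _
    · refine Eventually.of_forall fun θ z hz => ?_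
      rw [norm_smul, deriv_circleMap, norm_mul, Complex.norm_I, mul_one]
      have h1 : ‖circleMap 0 ρ θ‖ = ρ := by
        rw [norm_circleMap_zero, abs_of_pos hρ]
      rw [h1]
      exact mul_le_mul_of_nonneg_left (hb _ (hm θ) z (hrW hz)) hρ.le
  · exact circleIntegral.norm_integral_le_of_norm_le_const hρ.le fun ζ hζ => hb ζ hζ y hy

end Pool.Agent.MPca0fc2.LS
end

section

/-! The function which separates the small zeros of a polynomial from the other ones. -/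

set_option autoImplicit false

open Metric Set Filter Topology MeasureTheory

namespace Pool.Agent.MPca0fc2.LS

variable {E : Type*} [NormedAddCommGroup E] [NormedSpace ℂ E]

/-- the divided difference `(φ ζ - φ x) / (ζ - x)` -/
noncomputable def dd (φ : Polynomial ℂ) (ζ x : ℂ) : ℂ :=
  ∑ k ∈ Finset.range (φ.natDegree + 1), φ.coeff k * ∑ i ∈ Finset.range k, ζ ^ i * x ^ (k - 1 - i)

/-- `(dd ζ x - dd ζ 0) / x` -/
noncomputable def dt (φ : Polynomial ℂ) (ζ x : ℂ) : ℂ :=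
  ∑ k ∈ Finset.range (φ.natDegree + 1), φ.coeff k *
    ∑ i ∈ Finset.range (k - 1), ζ ^ i * x ^ (k - 2 - i)

theorem dd_mul (φ : Polynomial ℂ) (ζ x : ℂ) : dd φ ζ x * (ζ - x) = φ.eval ζ - φ.eval x := by
  unfold dd
  rw [Polynomial.eval_eq_sum_range, Polynomial.eval_eq_sum_range, Finset.sum_mul,
    ← Finset.sum_sub_distrib]
  refine Finset.sum_congr rfl fun k _ => ?_
  rw [mul_assoc, geom_sum₂_mul]
  ring

theorem dd_split (φ : Polynomial ℂ) (ζ x : ℂ) : dd φ ζ x = dd φ ζ 0 + x * dt φ ζ x := by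
  unfold dd dt
  rw [Finset.mul_sum, ← Finset.sum_add_distrib]
  refine Finset.sum_congr rfl fun k _ => ?_
  rcases Nat.eq_zero_or_pos k with hk | hk
  · subst hk
    simp
  obtain ⟨m, rfl⟩ : ∃ m, k = m + 1 := ⟨k - 1, by omega⟩
  rw [Finset.sum_range_succ, Finset.sum_range_succ]
  have h1 : ∀ i ∈ Finset.range m, ζ ^ i * x ^ (m + 1 - 1 - i) =
      x * (ζ ^ i * x ^ (m + 1 - 2 - i)) := by
    intro i hi
    have hi' := Finset.mem_range.1 hi
    have e1 : m + 1 - 1 - i = (m + 1 - 2 - i) + 1 := by omega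
    rw [e1, pow_succ]
    ring
  have h2 : ∀ i ∈ Finset.range m, ζ ^ i * (0 : ℂ) ^ (m + 1 - 1 - i) = 0 := by
    intro i hi
    have hi' := Finset.mem_range.1 hi
    rw [zero_pow (by omega), mul_zero]
  rw [Finset.sum_congr rfl h1, Finset.sum_congr rfl h2, ← Finset.mul_sum, Finset.sum_const_zero]
  have e2 : m + 1 - 1 - m = 0 := by omega
  have e3 : m + 1 - 1 = m := by omega
  rw [e2, pow_zero, pow_zero, e3]
  ring

theorem dd_cont (φ : Polynomial ℂ) (x : ℂ) : Continuous fun ζ => dd φ ζ x := by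
  unfold dd
  fun_prop

theorem dt_cont (φ : Polynomial ℂ) (x : ℂ) : Continuous fun ζ => dt φ ζ x := by
  unfold dt
  fun_prop

theorem dd_diff (φ : Polynomial ℂ) (ζ : ℂ) : Differentiable ℂ fun x => dd φ ζ x := by
  unfold dd
  fun_prop

theorem dt_diff (φ : Polynomial ℂ) (ζ : ℂ) : Differentiable ℂ fun x => dt φ ζ x := by
  unfold dt
  fun_prop

theorem dd_bound (φ : Polynomial ℂ) (ρ B : ℝ) : ∃ K : ℝ, ∀ ζ x : ℂ, ‖ζ‖ ≤ ρ → ‖x‖ ≤ B →
    ‖dd φ ζ x‖ ≤ K := by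
  have hc : Continuous fun p : ℂ × ℂ => dd φ p.1 p.2 := by
    unfold dd
    fun_prop
  obtain ⟨K, hK⟩ := ((isCompact_closedBall (0 : ℂ) ρ).prod
    (isCompact_closedBall (0 : ℂ) B)).exists_bound_of_continuousOn hc.continuousOn
  exact ⟨K, fun ζ x h1 h2 => hK (ζ, x) ⟨mem_closedBall_zero_iff.2 h1, mem_closedBall_zero_iff.2 h2⟩⟩

theorem dt_bound (φ : Polynomial ℂ) (ρ B : ℝ) : ∃ K : ℝ, ∀ ζ x : ℂ, ‖ζ‖ ≤ ρ → ‖x‖ ≤ B →
    ‖dt φ ζ x‖ ≤ K := by
  have hc : Continuous fun p : ℂ × ℂ => dt φ p.1 p.2 := by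
    unfold dt
    fun_prop
  obtain ⟨K, hK⟩ := ((isCompact_closedBall (0 : ℂ) ρ).prod
    (isCompact_closedBall (0 : ℂ) B)).exists_bound_of_continuousOn hc.continuousOn
  exact ⟨K, fun ζ x h1 h2 => hK (ζ, x) ⟨mem_closedBall_zero_iff.2 h1, mem_closedBall_zero_iff.2 h2⟩⟩

variable {φ : Polynomial ℂ} {ρ η : ℝ} {W : Set E} {ξ γ : E → ℂ}

/-- the denominator -/
theorem den_low (hη : ∀ ζ ∈ sphere (0 : ℂ) ρ, η ≤ ‖φ.eval ζ‖) {c : ℂ} (hc : ‖c‖ ≤ η / 3) {ζ : ℂ}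
    (hζ : ζ ∈ sphere (0 : ℂ) ρ) : 2 * η / 3 ≤ ‖φ.eval ζ - c‖ := by
  have h1 := hη ζ hζ
  have h2 := norm_sub_norm_le (φ.eval ζ) c
  linarith

theorem den_ne (h0 : 0 < η) (hη : ∀ ζ ∈ sphere (0 : ℂ) ρ, η ≤ ‖φ.eval ζ‖) {c : ℂ}
    (hc : ‖c‖ ≤ η / 3) {ζ : ℂ} (hζ : ζ ∈ sphere (0 : ℂ) ρ) : φ.eval ζ - c ≠ 0 := by
  intro h
  have h1 := den_low hη hc hζ
  rw [h, norm_zero] at h1
  linarith

/-- the unnormalized function -/
noncomputable def E0 (φ : Polynomial ℂ) (ρ : ℝ) (x c : ℂ) : ℂ :=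
  (2 * Real.pi * Complex.I : ℂ)⁻¹ * ∮ ζ in C(0, ρ), dd φ ζ x / (φ.eval ζ - c)

/-- its difference quotient in `x` -/
noncomputable def T0 (φ : Polynomial ℂ) (ρ : ℝ) (x c : ℂ) : ℂ :=
  (2 * Real.pi * Complex.I : ℂ)⁻¹ * ∮ ζ in C(0, ρ), dt φ ζ x / (φ.eval ζ - c)

/-- its quotient outside the disc -/
noncomputable def R0 (φ : Polynomial ℂ) (ρ : ℝ) (x c : ℂ) : ℂ :=
  (2 * Real.pi * Complex.I : ℂ)⁻¹ * ∮ ζ in C(0, ρ), ((ζ - x) * (φ.eval ζ - c))⁻¹

theorem E0_split (hρ : 0 < ρ) (h0 : 0 < η) (hη : ∀ ζ ∈ sphere (0 : ℂ) ρ, η ≤ ‖φ.eval ζ‖) {x c : ℂ}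
    (hc : ‖c‖ ≤ η / 3) : E0 φ ρ x c = E0 φ ρ 0 c + x * T0 φ ρ x c := by
  have hd : ContinuousOn (fun ζ => φ.eval ζ - c) (sphere (0 : ℂ) ρ) :=
    (φ.continuous.sub continuous_const).continuousOn
  have hne : ∀ ζ ∈ sphere (0 : ℂ) ρ, φ.eval ζ - c ≠ 0 := fun ζ hζ => den_ne h0 hη hc hζ
  have i1 : CircleIntegrable (fun ζ => dd φ ζ 0 / (φ.eval ζ - c)) 0 ρ :=
    ((dd_cont φ 0).continuousOn.div hd hne).circleIntegrable hρ.le
  have i2 : CircleIntegrable (fun ζ => x * (dt φ ζ x / (φ.eval ζ - c))) 0 ρ :=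
    (continuousOn_const.mul ((dt_cont φ x).continuousOn.div hd hne)).circleIntegrable hρ.le
  unfold E0 T0
  have h1 : ∀ ζ ∈ sphere (0 : ℂ) ρ, dd φ ζ x / (φ.eval ζ - c) =
      dd φ ζ 0 / (φ.eval ζ - c) + x * (dt φ ζ x / (φ.eval ζ - c)) := by
    intro ζ _
    rw [dd_split]
    ring
  rw [circleIntegral.integral_congr hρ.le h1, circleIntegral.integral_add i1 i2,
    circleIntegral.integral_const_mul]
  ring

theorem E0_zero (hρ : 0 < ρ) (h0 : 0 < η) (hη : ∀ ζ ∈ sphere (0 : ℂ) ρ, η ≤ ‖φ.eval ζ‖)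
    (hφ : φ.eval 0 = 0) {c : ℂ} (hc : ‖c‖ ≤ η / 3) : 1 / 2 ≤ ‖E0 φ ρ 0 c‖ := by
  have hd : ContinuousOn (fun ζ => φ.eval ζ - c) (sphere (0 : ℂ) ρ) :=
    (φ.continuous.sub continuous_const).continuousOn
  have hne : ∀ ζ ∈ sphere (0 : ℂ) ρ, φ.eval ζ - c ≠ 0 := fun ζ hζ => den_ne h0 hη hc hζ
  have hζ0 : ∀ ζ ∈ sphere (0 : ℂ) ρ, ζ ≠ 0 := fun ζ hζ h => by
    rw [h, mem_sphere_zero_iff_norm, norm_zero] at hζ
    linarith
  have hnρ : ∀ ζ ∈ sphere (0 : ℂ) ρ, ‖ζ‖ = ρ := fun ζ hζ => mem_sphere_zero_iff_norm.1 hζ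
  have hinv : ContinuousOn (fun ζ : ℂ => ζ⁻¹) (sphere (0 : ℂ) ρ) :=
    continuousOn_id.inv₀ fun ζ hζ => hζ0 ζ hζ
  have i1 : CircleIntegrable (fun ζ : ℂ => (ζ - 0)⁻¹) 0 ρ := by
    simp only [sub_zero]
    exact hinv.circleIntegrable hρ.le
  have i2 : CircleIntegrable (fun ζ => ζ⁻¹ * (c / (φ.eval ζ - c))) 0 ρ :=
    (hinv.mul (continuousOn_const.div hd hne)).circleIntegrable hρ.le
  have h1 : ∀ ζ ∈ sphere (0 : ℂ) ρ, dd φ ζ 0 / (φ.eval ζ - c) =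
      (ζ - 0)⁻¹ + ζ⁻¹ * (c / (φ.eval ζ - c)) := by
    intro ζ hζ
    have h2 := dd_mul φ ζ 0
    rw [hφ, sub_zero, sub_zero] at h2
    have h3 := hne ζ hζ
    have h4 := hζ0 ζ hζ
    have h5 : dd φ ζ 0 = φ.eval ζ * ζ⁻¹ := by
      rw [← h2]
      field_simp
    rw [h5, sub_zero]
    field_simp
    ring
  have h2 : E0 φ ρ 0 c = 1 + (2 * Real.pi * Complex.I : ℂ)⁻¹ *
      ∮ ζ in C(0, ρ), ζ⁻¹ * (c / (φ.eval ζ - c)) := by
    unfold E0
    rw [circleIntegral.integral_congr hρ.le h1, circleIntegral.integral_add i1 i2,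
      circleIntegral.integral_sub_inv_of_mem_ball (mem_ball_self hρ), mul_add,
      inv_mul_cancel₀ Complex.two_pi_I_ne_zero]
  have h3 : ‖∮ ζ in C(0, ρ), ζ⁻¹ * (c / (φ.eval ζ - c))‖ ≤ 2 * Real.pi * ρ * (ρ⁻¹ * (1 / 2)) := by
    refine circleIntegral.norm_integral_le_of_norm_le_const hρ.le fun ζ hζ => ?_
    rw [norm_mul, norm_inv, hnρ ζ hζ]
    refine mul_le_mul_of_nonneg_left ?_ (inv_nonneg.2 hρ.le)
    rw [norm_div]
    have h4 := den_low hη hc hζ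
    rw [div_le_iff₀ (by linarith)]
    linarith
  have h4 : ‖(2 * Real.pi * Complex.I : ℂ)⁻¹‖ = (2 * Real.pi)⁻¹ := by
    rw [norm_inv, norm_mul, norm_mul, Complex.norm_I, mul_one, Complex.norm_real,
      Real.norm_of_nonneg Real.pi_pos.le]
    norm_num
  have h5 : ‖(2 * Real.pi * Complex.I : ℂ)⁻¹ * ∮ ζ in C(0, ρ), ζ⁻¹ * (c / (φ.eval ζ - c))‖ ≤
      1 / 2 := by
    rw [norm_mul, h4]
    calc (2 * Real.pi)⁻¹ * ‖∮ ζ in C(0, ρ), ζ⁻¹ * (c / (φ.eval ζ - c))‖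
        ≤ (2 * Real.pi)⁻¹ * (2 * Real.pi * ρ * (ρ⁻¹ * (1 / 2))) :=
          mul_le_mul_of_nonneg_left h3 (by positivity)
      _ = 1 / 2 := by
          field_simp
  rw [h2]
  have h6 := norm_sub_norm_le (1 : ℂ) (-((2 * Real.pi * Complex.I : ℂ)⁻¹ *
    ∮ ζ in C(0, ρ), ζ⁻¹ * (c / (φ.eval ζ - c))))
  rw [norm_one, norm_neg, sub_neg_eq_add] at h6
  linarith

theorem E0_out (hρ : 0 < ρ) (h0 : 0 < η) (hη : ∀ ζ ∈ sphere (0 : ℂ) ρ, η ≤ ‖φ.eval ζ‖) {x c : ℂ}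
    (hc : ‖c‖ ≤ η / 3) (hx : ρ < ‖x‖) : E0 φ ρ x c = -(φ.eval x - c) * R0 φ ρ x c := by
  have hd : ContinuousOn (fun ζ => φ.eval ζ - c) (sphere (0 : ℂ) ρ) :=
    (φ.continuous.sub continuous_const).continuousOn
  have hne : ∀ ζ ∈ sphere (0 : ℂ) ρ, φ.eval ζ - c ≠ 0 := fun ζ hζ => den_ne h0 hη hc hζ
  have hζx : ∀ ζ ∈ closedBall (0 : ℂ) ρ, ζ - x ≠ 0 := fun ζ hζ h => by
    rw [mem_closedBall_zero_iff, sub_eq_zero.1 h] at hζ
    linarith
  have hsub : sphere (0 : ℂ) ρ ⊆ closedBall 0 ρ := sphere_subset_closedBall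
  have hinv : ContinuousOn (fun ζ : ℂ => (ζ - x)⁻¹) (closedBall (0 : ℂ) ρ) :=
    (continuousOn_id.sub continuousOn_const).inv₀ fun ζ hζ => hζx ζ hζ
  have i1 : CircleIntegrable (fun ζ : ℂ => (ζ - x)⁻¹) 0 ρ :=
    (hinv.mono hsub).circleIntegrable hρ.le
  have i2 : CircleIntegrable (fun ζ => (φ.eval x - c) * ((ζ - x) * (φ.eval ζ - c))⁻¹) 0 ρ := by
    refine ContinuousOn.circleIntegrable hρ.le (continuousOn_const.mul (ContinuousOn.inv₀
      (((continuousOn_id.sub continuousOn_const)).mul hd) fun ζ hζ => ?_))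
    exact mul_ne_zero (hζx ζ (hsub hζ)) (hne ζ hζ)
  have h1 : ∀ ζ ∈ sphere (0 : ℂ) ρ, dd φ ζ x / (φ.eval ζ - c) =
      (ζ - x)⁻¹ - (φ.eval x - c) * ((ζ - x) * (φ.eval ζ - c))⁻¹ := by
    intro ζ hζ
    have h2 := dd_mul φ ζ x
    have h3 := hne ζ hζ
    have h4 := hζx ζ (hsub hζ)
    have h5 : dd φ ζ x = (φ.eval ζ - φ.eval x) * (ζ - x)⁻¹ := by
      rw [← h2]
      field_simp
    rw [h5]
    field_simp
    ring
  have h2 : ∮ ζ in C(0, ρ), (ζ - x)⁻¹ = 0 := by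
    refine DiffContOnCl.circleIntegral_eq_zero hρ.le ?_
    refine ⟨fun ζ hζ => ?_, ?_⟩
    · exact ((differentiableAt_id.sub_const x).inv
        (hζx ζ (ball_subset_closedBall hζ))).differentiableWithinAt
    · rw [closure_ball _ hρ.ne']
      exact hinv
  unfold E0 R0
  rw [circleIntegral.integral_congr hρ.le h1, circleIntegral.integral_sub i1 i2, h2,
    circleIntegral.integral_const_mul]
  ring

end Pool.Agent.MPca0fc2.LS
end

section

/-! The separating function of a holomorphic family of polynomials. -/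

set_option autoImplicit false

open Metric Set Filter Topology MeasureTheory

namespace Pool.Agent.MPca0fc2.LS

variable {E : Type*} [NormedAddCommGroup E] [NormedSpace ℂ E]
variable {φ : Polynomial ℂ} {ρ η : ℝ} {W : Set E} {ξ γ : E → ℂ}

theorem E0_hb (hρ : 0 < ρ) (h0 : 0 < η) (hη : ∀ ζ ∈ sphere (0 : ℂ) ρ, η ≤ ‖φ.eval ζ‖)
    (hW : IsOpen W) (hξ : Hb W ξ) (hγ : Hb W γ) (hγη : ∀ y ∈ W, ‖γ y‖ ≤ η / 3) :
    Hb W fun y => E0 φ ρ (ξ y) (γ y) := by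
  obtain ⟨h1, B, hB⟩ := hξ
  obtain ⟨K, hK⟩ := dd_bound φ ρ B
  refine (Hb.const W _).mul (Hb.circle (B := K / (2 * η / 3)) hρ hW ?_ ?_ ?_)
  · intro ζ hζ
    have a1 : DifferentiableOn ℂ (fun y => dd φ ζ (ξ y)) W :=
      (dd_diff φ ζ).comp_differentiableOn h1
    have a2 : DifferentiableOn ℂ (fun y => φ.eval ζ - γ y) W :=
      (differentiableOn_const _).sub hγ.1
    simp only [div_eq_mul_inv]
    exact a1.mul (a2.inv fun y hy => den_ne h0 hη (hγη y hy) hζ)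
  · intro y hy
    exact (dd_cont φ _).continuousOn.div (φ.continuous.sub continuous_const).continuousOn
      fun ζ hζ => den_ne h0 hη (hγη y hy) hζ
  · intro ζ hζ y hy
    have h2 := hK ζ (ξ y) (mem_sphere_zero_iff_norm.1 hζ).le (hB y hy)
    have h3 := den_low hη (hγη y hy) hζ
    rw [norm_div]
    exact div_le_div₀ ((norm_nonneg _).trans h2) h2 (by linarith) h3

theorem T0_hb (hρ : 0 < ρ) (h0 : 0 < η) (hη : ∀ ζ ∈ sphere (0 : ℂ) ρ, η ≤ ‖φ.eval ζ‖)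
    (hW : IsOpen W) (hξ : Hb W ξ) (hγ : Hb W γ) (hγη : ∀ y ∈ W, ‖γ y‖ ≤ η / 3) :
    Hb W fun y => T0 φ ρ (ξ y) (γ y) := by
  obtain ⟨h1, B, hB⟩ := hξ
  obtain ⟨K, hK⟩ := dt_bound φ ρ B
  refine (Hb.const W _).mul (Hb.circle (B := K / (2 * η / 3)) hρ hW ?_ ?_ ?_)
  · intro ζ hζ
    have a1 : DifferentiableOn ℂ (fun y => dt φ ζ (ξ y)) W :=
      (dt_diff φ ζ).comp_differentiableOn h1
    have a2 : DifferentiableOn ℂ (fun y => φ.eval ζ - γ y) W :=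
      (differentiableOn_const _).sub hγ.1
    simp only [div_eq_mul_inv]
    exact a1.mul (a2.inv fun y hy => den_ne h0 hη (hγη y hy) hζ)
  · intro y hy
    exact (dt_cont φ _).continuousOn.div (φ.continuous.sub continuous_const).continuousOn
      fun ζ hζ => den_ne h0 hη (hγη y hy) hζ
  · intro ζ hζ y hy
    have h2 := hK ζ (ξ y) (mem_sphere_zero_iff_norm.1 hζ).le (hB y hy)
    have h3 := den_low hη (hγη y hy) hζ
    rw [norm_div]
    exact div_le_div₀ ((norm_nonneg _).trans h2) h2 (by linarith) h3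

theorem R0_hb (hρ : 0 < ρ) (h0 : 0 < η) (hη : ∀ ζ ∈ sphere (0 : ℂ) ρ, η ≤ ‖φ.eval ζ‖)
    (hW : IsOpen W) (hξ : Hb W ξ) (hγ : Hb W γ) (hγη : ∀ y ∈ W, ‖γ y‖ ≤ η / 3) {ρ' : ℝ}
    (hρ' : ρ < ρ') (hξρ : ∀ y ∈ W, ρ' ≤ ‖ξ y‖) : Hb W fun y => R0 φ ρ (ξ y) (γ y) := by
  have hlow : ∀ ζ ∈ sphere (0 : ℂ) ρ, ∀ y ∈ W, (ρ' - ρ) * (2 * η / 3) ≤
      ‖(ζ - ξ y) * (φ.eval ζ - γ y)‖ := by
    intro ζ hζ y hy
    rw [norm_mul]
    have h1 := den_low hη (hγη y hy) hζ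
    have h2 := norm_sub_norm_le (ξ y) ζ
    rw [norm_sub_rev, mem_sphere_zero_iff_norm.1 hζ] at h2
    have h3 := hξρ y hy
    exact mul_le_mul (by linarith) h1 (by linarith) (norm_nonneg _)
  have hpos : 0 < (ρ' - ρ) * (2 * η / 3) := mul_pos (by linarith) (by linarith)
  have hne : ∀ ζ ∈ sphere (0 : ℂ) ρ, ∀ y ∈ W, (ζ - ξ y) * (φ.eval ζ - γ y) ≠ 0 := by
    intro ζ hζ y hy h
    have h1 := hlow ζ hζ y hy
    rw [h, norm_zero] at h1
    linarith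
  refine (Hb.const W _).mul (Hb.circle (B := ((ρ' - ρ) * (2 * η / 3))⁻¹) hρ hW ?_ ?_ ?_)
  · intro ζ hζ
    exact DifferentiableOn.inv (((differentiableOn_const _).sub hξ.1).mul
      ((differentiableOn_const _).sub hγ.1)) fun y hy => hne ζ hζ y hy
  · intro y hy
    exact ContinuousOn.inv₀ ((continuousOn_id.sub continuousOn_const).mul
      (φ.continuous.sub continuous_const).continuousOn) fun ζ hζ => hne ζ hζ y hy
  · intro ζ hζ y hy
    rw [norm_inv]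
    exact inv_anti₀ hpos (hlow ζ hζ y hy)

/-- the separating function -/
theorem pack (hρ : 0 < ρ) (h0 : 0 < η) (hη : ∀ ζ ∈ sphere (0 : ℂ) ρ, η ≤ ‖φ.eval ζ‖)
    (hφ : φ.eval 0 = 0) (hW : IsOpen W) (hξ : Hb W ξ) (hγ : Hb W γ)
    (hγη : ∀ y ∈ W, ‖γ y‖ ≤ η / 3) : ∃ e t : E → ℂ, Hb W e ∧ Hb W t ∧
      (∀ y ∈ W, e y = 1 - ξ y * t y) ∧ ∀ (ρ' : ℝ) (W' : Set E), ρ < ρ' → W' ⊆ W → IsOpen W' →
      (∀ y ∈ W', ρ' ≤ ‖ξ y‖) → ∃ r : E → ℂ, Hb W' r ∧
        ∀ y ∈ W', e y = (φ.eval (ξ y) - γ y) * r y := by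
  have hz : Hb W fun y => E0 φ ρ 0 (γ y) := E0_hb hρ h0 hη hW (Hb.const W 0) hγ hγη
  have hlow : ∀ y ∈ W, 1 / 2 ≤ ‖E0 φ ρ 0 (γ y)‖ := fun y hy => E0_zero hρ h0 hη hφ (hγη y hy)
  have hne : ∀ y ∈ W, E0 φ ρ 0 (γ y) ≠ 0 := fun y hy h => by
    have h1 := hlow y hy
    rw [h, norm_zero] at h1
    linarith
  have hi : Hb W fun y => (E0 φ ρ 0 (γ y))⁻¹ := hz.inv (by norm_num) hlow
  refine ⟨fun y => E0 φ ρ (ξ y) (γ y) * (E0 φ ρ 0 (γ y))⁻¹,
    fun y => -(T0 φ ρ (ξ y) (γ y) * (E0 φ ρ 0 (γ y))⁻¹), (E0_hb hρ h0 hη hW hξ hγ hγη).mul hi,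
    ((T0_hb hρ h0 hη hW hξ hγ hγη).mul hi).neg, fun y hy => ?_, fun ρ' W' h1 h2 h3 h4 => ?_⟩
  · dsimp only
    rw [E0_split hρ h0 hη (hγη y hy)]
    have h5 := hne y hy
    field_simp
    ring
  · refine ⟨fun y => -(R0 φ ρ (ξ y) (γ y) * (E0 φ ρ 0 (γ y))⁻¹),
      ((R0_hb hρ h0 hη h3 (hξ.mono h2) (hγ.mono h2) (fun y hy => hγη y (h2 hy)) h1 h4).mul
        (hi.mono h2)).neg, fun y hy => ?_⟩
    dsimp only
    rw [E0_out hρ h0 hη (hγη y (h2 hy)) (h1.trans_le (h4 y hy))]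
    ring

end Pool.Agent.MPca0fc2.LS
end

section

/-! Bounded solutions for functions near an algebraic curve. -/

set_option autoImplicit false

open Metric Set Filter Topology MeasureTheory

namespace Pool.Agent.MPca0fc2.LS

variable {E : Type*} [NormedAddCommGroup E] [NormedSpace ℂ E]

/-- `y l` bounded holomorphic functions on `W`, at each point one of them is larger than `ρ'`; `p = ∑ y l Q l`;
`φ l (y l) - c l = p A l` with small `c l`. Then `∑ y l G l = 1` for some bounded holomorphic `G l`. -/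
theorem assemble {N : ℕ} {W : Set E} (hW : IsOpen W) {y A c Q : Fin N → E → ℂ} {p : E → ℂ}
    {φ : Fin N → Polynomial ℂ} {ρ ρ' : ℝ} {η : Fin N → ℝ} (hρ : 0 < ρ) (hρ' : ρ < ρ')
    (hy : ∀ l, Hb W (y l)) (hA : ∀ l, Hb W (A l)) (hc : ∀ l, Hb W (c l)) (hQ : ∀ l, Hb W (Q l))
    (hp : ∀ z ∈ W, p z = ∑ l, y l z * Q l z) (h0 : ∀ l, 0 < η l)
    (hη : ∀ l, ∀ ζ ∈ sphere (0 : ℂ) ρ, η l ≤ ‖(φ l).eval ζ‖) (hφ : ∀ l, (φ l).eval 0 = 0)
    (hcη : ∀ l, ∀ z ∈ W, ‖c l z‖ ≤ η l / 3)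
    (hrel : ∀ l, ∀ z ∈ W, (φ l).eval (y l z) - c l z = p z * A l z)
    (hbig : ∀ z ∈ W, ∃ l, ρ' < ‖y l z‖) :
    ∃ G : Fin N → E → ℂ, (∀ l, Hb W (G l)) ∧ ∀ z ∈ W, ∑ l, y l z * G l z = 1 := by
  classical
  choose e t he ht het hr using fun l => pack hρ (h0 l) (hη l) (hφ l) hW (hy l) (hc l) (hcη l)
  obtain ⟨V, hV⟩ : ∃ V : Fin N → Set E, ∀ l, V l = W ∩ {z | ρ' < ‖y l z‖} := ⟨_, fun _ => rfl⟩
  have hVW : ∀ l, V l ⊆ W := fun l => by rw [hV]; exact inter_subset_left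
  have hVo : ∀ l, IsOpen (V l) := by
    intro l
    rw [hV]
    exact (hy l).1.continuousOn.norm.isOpen_inter_preimage hW isOpen_Ioi
  have hVy : ∀ l, ∀ z ∈ V l, ρ' ≤ ‖y l z‖ := by
    intro l z hz
    rw [hV] at hz
    exact hz.2.le
  choose r hrb hre using fun l => hr l ρ' (V l) hρ' (hVW l) (hVo l) (hVy l)
  have hep : ∀ l, ∀ z ∈ V l, e l z = p z * (A l z * r l z) := by
    intro l z hz
    rw [hre l z hz, hrel l z (hVW l hz)]
    ring
  obtain ⟨k, hk⟩ : ∃ k : Fin N → E → ℂ, ∀ l z, k l z =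
    A l z * r l z * ∏ j ∈ Finset.univ.erase l, e j z := ⟨_, fun _ _ => rfl⟩
  have hkb : ∀ l, Hb (V l) (k l) := by
    intro l
    refine ((((hA l).mono (hVW l)).mul (hrb l)).mul
      (Hb.prod (Finset.univ.erase l) fun j _ => (he j).mono (hVW l))).congr fun z _ => ?_
    rw [hk]
  have hkk : ∀ l l' z, z ∈ V l → z ∈ V l' → k l z = k l' z := by
    intro l l' z h1 h2
    by_cases hll : l = l'
    · rw [hll]
    rw [hk, hk, ← Finset.mul_prod_erase (Finset.univ.erase l) (fun j => e j z)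
        (Finset.mem_erase.2 ⟨fun h => hll h.symm, Finset.mem_univ l'⟩),
      ← Finset.mul_prod_erase (Finset.univ.erase l') (fun j => e j z)
        (Finset.mem_erase.2 ⟨hll, Finset.mem_univ l⟩), hep l z h1, hep l' z h2,
      Finset.erase_right_comm]
    ring
  have hkp : ∀ l, ∀ z ∈ V l, ∏ j, e j z = p z * k l z := by
    intro l z hz
    rw [← Finset.mul_prod_erase Finset.univ (fun j => e j z) (Finset.mem_univ l), hep l z hz, hk]
    ring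
  obtain ⟨h, hh⟩ : ∃ h : E → ℂ, ∀ l, ∀ z ∈ V l, h z = k l z := by
    refine ⟨fun z => if H : ∃ l, z ∈ V l then k H.choose z else 0, fun l z hz => ?_⟩
    have H : ∃ l, z ∈ V l := ⟨l, hz⟩
    simp only [H, dif_pos]
    exact hkk _ _ z H.choose_spec hz
  have hbig' : ∀ z ∈ W, ∃ l, z ∈ V l := by
    intro z hz
    obtain ⟨l, hl⟩ := hbig z hz
    refine ⟨l, ?_⟩
    rw [hV]
    exact ⟨hz, hl⟩
  have hhb : Hb W h := by
    choose B hB using fun l => (hkb l).2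
    refine ⟨fun z hz => ?_, ∑ l, |B l|, fun z hz => ?_⟩
    · obtain ⟨l, hl⟩ := hbig' z hz
      have h1 : DifferentiableAt ℂ (k l) z := ((hkb l).1 z hl).differentiableAt ((hVo l).mem_nhds hl)
      refine (h1.congr_of_eventuallyEq ?_).differentiableWithinAt
      filter_upwards [(hVo l).mem_nhds hl] with x hx
      exact hh l x hx
    · obtain ⟨l, hl⟩ := hbig' z hz
      rw [hh l z hl]
      exact (hB l z hl).trans ((le_abs_self _).trans (Finset.single_le_sum (f := fun l => |B l|)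
        (fun _ _ => abs_nonneg _) (Finset.mem_univ l)))
  refine ⟨fun l z => Q l z * h z + t l z * ∏ j ∈ Finset.univ.filter (· < l), (1 - y j z * t j z),
    fun l => ((hQ l).mul hhb).add ((ht l).mul (Hb.prod _ fun j _ =>
      (Hb.const W 1).sub ((hy j).mul (ht j)))), fun z hz => ?_⟩
  have h1 := Finset.prod_one_sub_ordered Finset.univ fun l => y l z * t l z
  have h2 : ∏ l, (1 - y l z * t l z) = ∏ l, e l z :=
    Finset.prod_congr rfl fun l _ => (het l z hz).symm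
  obtain ⟨l, hl⟩ := hbig' z hz
  rw [h2, hkp l z hl, ← hh l z hl, hp z hz] at h1
  calc ∑ l, y l z * (Q l z * h z + t l z * ∏ j ∈ Finset.univ.filter (· < l), (1 - y j z * t j z))
      = (∑ l, y l z * Q l z) * h z +
          ∑ l, y l z * t l z * ∏ j ∈ Finset.univ.filter (· < l), (1 - y j z * t j z) := by
        rw [Finset.sum_mul, ← Finset.sum_add_distrib]
        refine Finset.sum_congr rfl fun l _ => ?_
        ring
    _ = 1 := by
        rw [h1]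
        ring

end Pool.Agent.MPca0fc2.LS
end
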