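import Mathlib
import Pool.Agent.Lib.MP_ca0fc2_an.Mg.G122
import Pool.Agent.Lib.MP_ca0fc2_an.EQ.GR4
import Pool.Agent.Lib.MP_ca0fc2_an.TB.J1

section

set_option autoImplicit false

open Metric Set Filter Topology
open scoped InnerProductSpace

namespace Pool.Agent.MPca0fc2.TH

open Pool.Agent.MPca0fc2.TB

private theorem B1_cauchy {E G : Type*} [NormedAddCommGroup E] [InnerProductSpace ℂ E]
    [NormedAddCommGroup G] [InnerProductSpace ℂ G] {Q : E → G} {R B r : ℝ} (hr : 0 < r) {z : E}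
    (hQ : DifferentiableOn ℂ Q (ball 0 R)) (hz : ‖z‖ + r ≤ R)
    (hB : ∀ w ∈ ball (0 : E) R, ‖w - z‖ < r → ‖Q w - Q z‖ ≤ B) (v : E) :
    ‖fderiv ℂ Q z v‖ ≤ B / r * ‖v‖ := by
  rcases eq_or_ne v 0 with rfl | hv0
  · simp
  have hv : 0 < ‖v‖ := norm_pos_iff.mpr hv0
  have hin : ∀ x ∈ ball (0 : ℂ) (r / ‖v‖), z + x • v ∈ ball (0 : E) R ∧ ‖z + x • v - z‖ < r := by
    intro x hx
    rw [mem_ball_zero_iff, lt_div_iff₀ hv] at hx
    have h1 : ‖x • v‖ < r := by rwa [norm_smul]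
    have h2 := norm_add_le z (x • v)
    refine ⟨?_, ?_⟩
    · rw [mem_ball_zero_iff]; linarith
    · rwa [add_sub_cancel_left]
  obtain ⟨F, hF⟩ : ∃ F : ℂ → G, F = fun x => Q (z + x • v) := ⟨_, rfl⟩
  have hFd : DifferentiableOn ℂ F (ball 0 (r / ‖v‖)) := by
    rw [hF]
    exact hQ.comp ((differentiable_id.smul_const v).const_add z).differentiableOn
      fun x hx => (hin x hx).1
  have hF0 : F 0 = Q z := by rw [hF]; simp
  have hmaps : MapsTo F (ball 0 (r / ‖v‖)) (closedBall (F 0) B) := by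
    intro x hx
    rw [mem_closedBall, dist_eq_norm, hF0, hF]
    exact hB _ (hin x hx).1 (hin x hx).2
  have hder := Complex.norm_deriv_le_div_of_mapsTo_ball hFd hmaps (by positivity)
  have hzR : z ∈ ball (0 : E) R := by rw [mem_ball_zero_iff]; linarith
  have hfd : deriv F 0 = fderiv ℂ Q z v := by
    have h1 : HasFDerivAt Q (fderiv ℂ Q z) (z + (0 : ℂ) • v) := by
      rw [zero_smul, add_zero]
      exact (hQ.differentiableAt (isOpen_ball.mem_nhds hzR)).hasFDerivAt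
    have h2 : HasDerivAt (fun x : ℂ => z + x • v) v 0 := by
      simpa using ((hasDerivAt_id (0 : ℂ)).smul_const v).const_add z
    have h3 := h1.comp_hasDerivAt (0 : ℂ) h2
    rw [hF]
    exact h3.deriv
  rw [hfd] at hder
  refine hder.trans (le_of_eq ?_)
  field_simp

private theorem B1_orth {n : ℕ} (hn : 2 ≤ n) (p : En n) :
    ∃ P : En n, ‖P‖ = 1 ∧ ⟪p, P⟫_ℂ = 0 := by
  have h : (ℂ ∙ p)ᗮ ≠ ⊥ := by
    intro h
    rw [Submodule.orthogonal_eq_bot_iff] at h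
    have h1 : Module.finrank ℂ (ℂ ∙ p) ≤ 1 := finrank_span_le_card ({p} : Set (En n)) |>.trans (by simp)
    rw [h, finrank_top, finrank_euclideanSpace_fin] at h1
    omega
  obtain ⟨v, hv, hv0⟩ := Submodule.exists_mem_ne_zero_of_ne_bot h
  have hn0 : ‖v‖ ≠ 0 := norm_ne_zero_iff.2 hv0
  refine ⟨((‖v‖⁻¹ : ℝ) : ℂ) • v, ?_, ?_⟩
  · rw [norm_smul, Complex.norm_real, norm_inv, norm_norm, inv_mul_cancel₀ hn0]
  · rw [inner_smul_right, Submodule.mem_orthogonal_singleton_iff_inner_right.1 hv, mul_zero]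

private theorem B1_far {n : ℕ} {p P : En n} (hp : ‖p‖ = 1) (hP : ‖P‖ = 1) (h : ⟪p, P⟫_ℂ = 0) :
    p ∉ ball P (1 / 2) := by
  intro hm
  rw [mem_ball, dist_eq_norm] at hm
  have h1 : ‖p - P‖ ^ 2 = 2 := by
    rw [@norm_sub_sq ℂ, h, hp, hP]
    norm_num
  nlinarith [norm_nonneg (p - P)]

/-- Bad data on a larger ball. PROOF. Copy the proof of `SH.bad_fam` (SH/B1.lean; its private lemmas too,
renamed): there `H` is holomorphic and bounded by `B` on `ball 0 R`, `R > 1`, `H (± p) = c₀`. With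
`R₁ = (1 + R)/2` the derivative is bounded by `2 B/(R - R₁)` on `ball 0 R₁` (`B1_cauchy`), so `H` is
Lipschitz there (`Convex.norm_image_sub_le_of_norm_fderiv_le`); the size bounds on `ball 0 R₂`,
`1 < R₂ ≤ R₁`, `L (R₂ - 1) ≤ κ`, by comparison of `z` with `z / ‖z‖` or `z/R₂` (use `κ/2` in place of `κ` for the
bounds on the closed unit ball). -/
theorem bad_fam2 {n N : ℕ} (hn : 2 ≤ n) {δ₀ : ℝ} (hδ : 0 < δ₀)
    (hcon : ∀ A : ℝ, ∃ f : En n → En N, DifferentiableOn ℂ f (ball 0 1) ∧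
      (∀ z ∈ ball (0 : En n) 1, δ₀ ≤ ‖f z‖ ∧ ‖f z‖ ≤ 1) ∧ ¬ Solv f (ball 0 1) A)
    {p : En n} (hp : ‖p‖ = 1) : ∃ c₀ : En N, δ₀ ≤ ‖c₀‖ ∧ ‖c₀‖ ≤ 1 ∧ ∀ κ : ℝ, 0 < κ →
      ∀ M : ℝ, 0 ≤ M → ∃ (H : En n → En N) (L R k : ℝ), 1 ≤ L ∧ 1 < R ∧ 0 < k ∧ k < 1 ∧
        DifferentiableOn ℂ H (ball 0 R) ∧
        (∀ z ∈ ball (0 : En n) R, δ₀ - κ ≤ ‖H z‖ ∧ ‖H z‖ ≤ 1 + κ) ∧
        (∀ z ∈ ball (0 : En n) R, ‖fderiv ℂ H z‖ ≤ L) ∧
        (∀ z ∈ ball (0 : En n) R, ‖H z - c₀‖ ≤ L * ‖z - p‖) ∧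
        (∀ z ∈ ball (0 : En n) R, ‖H z - c₀‖ ≤ L * ‖z + p‖) ∧ ¬ Solv H (ball 0 k) M := by
  obtain ⟨c₀, hc0, hc1, hFam⟩ := EQ.bad_family (n := n) (N := N) (by omega) hcon
  refine ⟨c₀, hc0, hc1, ?_⟩
  intro κ hκ M hM
  obtain ⟨P, hP, hpP⟩ := B1_orth hn p
  have hcl : closure (ball (0 : En n) 1) = closedBall 0 1 := closure_ball _ one_ne_zero
  have hfr : P ∈ frontier (ball (0 : En n) 1) := by
    rw [frontier_ball _ one_ne_zero, mem_sphere_zero_iff_norm, hP]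
  obtain ⟨U, ρ₀, hh, c, hs, -⟩ := LV.support_of_domain (TB.isStrictlyPscDomain_ball (n := n))
  obtain ⟨e, hT⟩ := TB.trans_of_support hs hfr
  obtain ⟨τ, hτ0, hτ1, hτ2⟩ : ∃ τ : ℝ, 0 < τ ∧ 5 * τ ≤ κ / 2 ∧ 5 * τ * M ≤ 1 / 2 := by
    refine ⟨min (κ / 10) (1 / (10 * (M + 1))), lt_min (by positivity) (by positivity), ?_, ?_⟩
    · have := min_le_left (κ / 10) (1 / (10 * (M + 1)))
      linarith
    · have h1 := min_le_right (κ / 10) (1 / (10 * (M + 1)))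
      have h2 : 5 * min (κ / 10) (1 / (10 * (M + 1))) * M ≤ 5 * (1 / (10 * (M + 1))) * M := by
        gcongr
      refine h2.trans ?_
      have h3 : 5 * (1 / (10 * (M + 1))) * M = M / (M + 1) / 2 := by
        field_simp
        ring
      rw [h3]
      have h4 : M / (M + 1) ≤ 1 := by
        rw [div_le_one (by linarith)]
        linarith
      linarith
  obtain ⟨g, hg1, hg2, hg3, hg4, hg5⟩ := hFam (ball 0 1) P e hT (2 * M) τ (1 / 2) hτ0 (by norm_num)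
  rw [hcl] at hg2 hg3 hg4
  -- uniform continuity
  have huc : UniformContinuousOn g (closedBall (0 : En n) 1) :=
    (isCompact_closedBall (0 : En n) 1).uniformContinuousOn_of_continuous hg2
  rw [Metric.uniformContinuousOn_iff] at huc
  obtain ⟨η, hη, hηg⟩ := huc τ hτ0
  obtain ⟨r, hr0, hr1, hrη⟩ : ∃ r : ℝ, 0 < r ∧ r < 1 ∧ 1 - r < η := by
    refine ⟨1 - min (η / 2) (1 / 2), ?_, ?_, ?_⟩
    · have := min_le_right (η / 2) (1 / 2 : ℝ)
      linarith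
    · have : 0 < min (η / 2) (1 / 2 : ℝ) := lt_min (by linarith) (by norm_num)
      linarith
    · have := min_le_left (η / 2) (1 / 2 : ℝ)
      linarith
  obtain ⟨G, hG⟩ : ∃ G : En n → En N, G = fun z => g ((r : ℂ) • z) := ⟨_, rfl⟩
  have hnr : ∀ z : En n, ‖(r : ℂ) • z‖ = r * ‖z‖ := by
    intro z
    rw [norm_smul, Complex.norm_real, Real.norm_of_nonneg hr0.le]
  have hGg : ∀ z ∈ closedBall (0 : En n) 1, ‖G z - g z‖ ≤ τ := by
    intro z hz
    have hz' := mem_closedBall_zero_iff.1 hz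
    have h1 : (r : ℂ) • z ∈ closedBall (0 : En n) 1 := by
      rw [mem_closedBall_zero_iff, hnr]
      nlinarith [norm_nonneg z]
    have h2 : dist ((r : ℂ) • z) z < η := by
      have h3 : (r : ℂ) • z - z = ((r - 1 : ℝ) : ℂ) • z := by
        rw [Complex.ofReal_sub, Complex.ofReal_one, sub_smul, one_smul]
      rw [dist_eq_norm, h3, norm_smul, Complex.norm_real, Real.norm_eq_abs, abs_of_nonpos (by linarith)]
      nlinarith [norm_nonneg z]
    have h4 := hηg _ h1 _ hz h2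
    rw [dist_eq_norm] at h4
    rw [hG]
    exact h4.le
  have hpc : p ∈ closedBall (0 : En n) 1 := by rw [mem_closedBall_zero_iff, hp]
  have hmc : -p ∈ closedBall (0 : En n) 1 := by rw [mem_closedBall_zero_iff, norm_neg, hp]
  have hfp : p ∉ ball P (1 / 2) := B1_far hp hP hpP
  have hfm : -p ∉ ball P (1 / 2) := B1_far (by rw [norm_neg, hp]) hP (by rw [inner_neg_left, hpP, neg_zero])
  have hGp : ‖c₀ - G p‖ ≤ 2 * τ := by
    have h1 := hg4 p hpc hfp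
    have h2 := hGg p hpc
    rw [norm_sub_rev] at h1 h2
    calc ‖c₀ - G p‖ = ‖(c₀ - g p) + (g p - G p)‖ := by rw [sub_add_sub_cancel]
      _ ≤ ‖c₀ - g p‖ + ‖g p - G p‖ := norm_add_le _ _
      _ ≤ 2 * τ := by linarith
  have hGm : ‖c₀ - G (-p)‖ ≤ 2 * τ := by
    have h1 := hg4 (-p) hmc hfm
    have h2 := hGg (-p) hmc
    rw [norm_sub_rev] at h1 h2
    calc ‖c₀ - G (-p)‖ = ‖(c₀ - g (-p)) + (g (-p) - G (-p))‖ := by rw [sub_add_sub_cancel]
      _ ≤ ‖c₀ - g (-p)‖ + ‖g (-p) - G (-p)‖ := norm_add_le _ _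
      _ ≤ 2 * τ := by linarith
  obtain ⟨H, hH⟩ : ∃ H : En n → En N, H = fun z => G z + ((1 + ⟪p, z⟫_ℂ) / 2) • (c₀ - G p) +
      ((1 - ⟪p, z⟫_ℂ) / 2) • (c₀ - G (-p)) := ⟨_, rfl⟩
  have hpp : ⟪p, p⟫_ℂ = 1 := by
    rw [inner_self_eq_norm_sq_to_K, hp]
    norm_num
  have hHp : H p = c₀ := by
    rw [hH]
    simp only [hpp, sub_self, zero_div, zero_smul, add_zero]
    norm_num
  have hHm : H (-p) = c₀ := by
    rw [hH]
    simp only [inner_neg_right, hpp]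
    norm_num
  have hip : ∀ z ∈ closedBall (0 : En n) 1, ‖⟪p, z⟫_ℂ‖ ≤ 1 := by
    intro z hz
    have h1 := norm_inner_le_norm (𝕜 := ℂ) p z
    rw [hp, one_mul] at h1
    exact h1.trans (mem_closedBall_zero_iff.1 hz)
  have hHg : ∀ z ∈ closedBall (0 : En n) 1, ‖H z - g z‖ ≤ 5 * τ := by
    intro z hz
    have h1 := hip z hz
    have h2 : ‖(1 + ⟪p, z⟫_ℂ) / 2‖ ≤ 1 := by
      rw [norm_div, Complex.norm_ofNat]
      have := norm_add_le (1 : ℂ) ⟪p, z⟫_ℂ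
      rw [norm_one] at this
      linarith
    have h3 : ‖(1 - ⟪p, z⟫_ℂ) / 2‖ ≤ 1 := by
      rw [norm_div, Complex.norm_ofNat]
      have := norm_sub_le (1 : ℂ) ⟪p, z⟫_ℂ
      rw [norm_one] at this
      linarith
    have h4 : H z - g z = (G z - g z) + ((1 + ⟪p, z⟫_ℂ) / 2) • (c₀ - G p) +
        ((1 - ⟪p, z⟫_ℂ) / 2) • (c₀ - G (-p)) := by
      rw [hH]
      dsimp only
      abel
    rw [h4]
    calc ‖(G z - g z) + ((1 + ⟪p, z⟫_ℂ) / 2) • (c₀ - G p) + ((1 - ⟪p, z⟫_ℂ) / 2) • (c₀ - G (-p))‖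
        ≤ ‖G z - g z‖ + ‖((1 + ⟪p, z⟫_ℂ) / 2) • (c₀ - G p)‖ + ‖((1 - ⟪p, z⟫_ℂ) / 2) • (c₀ - G (-p))‖ :=
          norm_add₃_le
      _ ≤ τ + 1 * (2 * τ) + 1 * (2 * τ) := by
          rw [norm_smul, norm_smul]
          gcongr
          · exact hGg z hz
      _ = 5 * τ := by ring
  -- `H` is holomorphic on a larger ball
  obtain ⟨R, hR⟩ : ∃ R : ℝ, R = 1 / r := ⟨_, rfl⟩
  have hR1 : 1 < R := by
    rw [hR, lt_div_iff₀ hr0]
    linarith
  have hrR : r * R = 1 := by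
    rw [hR]
    field_simp
  have hinR : ∀ z ∈ ball (0 : En n) R, (r : ℂ) • z ∈ ball (0 : En n) 1 := by
    intro z hz
    rw [mem_ball_zero_iff] at hz ⊢
    rw [hnr, ← hrR]
    exact mul_lt_mul_of_pos_left hz hr0
  have hGd : DifferentiableOn ℂ G (ball 0 R) := by
    rw [hG]
    exact hg1.comp ((differentiable_id.const_smul (r : ℂ)).differentiableOn) hinR
  have hin : Differentiable ℂ fun z : En n => ⟪p, z⟫_ℂ := (innerSL ℂ p).differentiable
  have hd1 : Differentiable ℂ fun z : En n => (1 + ⟪p, z⟫_ℂ) / 2 := by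
    have h1 : (fun z : En n => (1 + ⟪p, z⟫_ℂ) / 2) = fun z : En n => (1 + ⟪p, z⟫_ℂ) * (2 : ℂ)⁻¹ := by
      funext z
      rw [div_eq_mul_inv]
    rw [h1]
    exact (hin.const_add (1 : ℂ)).mul_const ((2 : ℂ)⁻¹)
  have hd2 : Differentiable ℂ fun z : En n => (1 - ⟪p, z⟫_ℂ) / 2 := by
    have h1 : (fun z : En n => (1 - ⟪p, z⟫_ℂ) / 2) = fun z : En n => (1 - ⟪p, z⟫_ℂ) * (2 : ℂ)⁻¹ := by
      funext z
      rw [div_eq_mul_inv]
    rw [h1]
    exact (hin.const_sub (1 : ℂ)).mul_const ((2 : ℂ)⁻¹)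
  have hHd : DifferentiableOn ℂ H (ball 0 R) := by
    rw [hH]
    refine (hGd.add ?_).add ?_
    · exact (hd1.smul_const _).differentiableOn
    · exact (hd2.smul_const _).differentiableOn
  have hHb : ∀ z ∈ ball (0 : En n) R, ‖H z‖ ≤ 1 + (1 + R) * (2 * τ) + (1 + R) * (2 * τ) := by
    intro z hz
    have hz' := mem_ball_zero_iff.1 hz
    have h1 : ‖⟪p, z⟫_ℂ‖ ≤ R := by
      have h1 := norm_inner_le_norm (𝕜 := ℂ) p z
      rw [hp, one_mul] at h1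
      linarith
    have h2 : ‖(1 + ⟪p, z⟫_ℂ) / 2‖ ≤ 1 + R := by
      rw [norm_div, Complex.norm_ofNat]
      have := norm_add_le (1 : ℂ) ⟪p, z⟫_ℂ
      rw [norm_one] at this
      linarith
    have h3 : ‖(1 - ⟪p, z⟫_ℂ) / 2‖ ≤ 1 + R := by
      rw [norm_div, Complex.norm_ofNat]
      have := norm_sub_le (1 : ℂ) ⟪p, z⟫_ℂ
      rw [norm_one] at this
      linarith
    have h4 : ‖G z‖ ≤ 1 := by
      rw [hG]
      exact (hg3 _ (ball_subset_closedBall (hinR z hz))).2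
    rw [hH]
    dsimp only
    calc ‖G z + ((1 + ⟪p, z⟫_ℂ) / 2) • (c₀ - G p) + ((1 - ⟪p, z⟫_ℂ) / 2) • (c₀ - G (-p))‖
        ≤ ‖G z‖ + ‖((1 + ⟪p, z⟫_ℂ) / 2) • (c₀ - G p)‖ + ‖((1 - ⟪p, z⟫_ℂ) / 2) • (c₀ - G (-p))‖ :=
          norm_add₃_le
      _ ≤ 1 + (1 + R) * (2 * τ) + (1 + R) * (2 * τ) := by
          rw [norm_smul, norm_smul]
          gcongr
  obtain ⟨B, hB⟩ : ∃ B : ℝ, B = 1 + (1 + R) * (2 * τ) + (1 + R) * (2 * τ) := ⟨_, rfl⟩
  rw [← hB] at hHb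
  have hB0 : 0 ≤ B := by
    rw [hB]
    positivity
  obtain ⟨R₁, hR₁⟩ : ∃ R₁ : ℝ, R₁ = (1 + R) / 2 := ⟨_, rfl⟩
  have hR₁1 : 1 < R₁ := by rw [hR₁]; linarith
  have hR₁R : R₁ < R := by rw [hR₁]; linarith
  obtain ⟨L, hL⟩ : ∃ L : ℝ, L = max 1 ((B + B) / (R - R₁)) := ⟨_, rfl⟩
  have hL1 : 1 ≤ L := by
    rw [hL]
    exact le_max_left _ _
  have hL0 : 0 < L := by linarith
  have hder : ∀ z ∈ closedBall (0 : En n) R₁, ‖fderiv ℂ H z‖ ≤ L := by
    intro z hz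
    refine ContinuousLinearMap.opNorm_le_bound _ hL0.le fun v => ?_
    have hz' := mem_closedBall_zero_iff.1 hz
    have hzR : z ∈ ball (0 : En n) R := by
      rw [mem_ball_zero_iff]
      linarith
    have h1 := B1_cauchy (Q := H) (R := R) (B := B + B) (r := R - R₁) (by linarith) (z := z) hHd
      (by linarith)
      (fun w hw _ => (norm_sub_le _ _).trans (add_le_add (hHb w hw) (hHb z hzR))) v
    refine h1.trans ?_
    refine mul_le_mul_of_nonneg_right ?_ (norm_nonneg v)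
    rw [hL]
    exact le_max_right _ _
  have hda : ∀ z ∈ closedBall (0 : En n) R₁, DifferentiableAt ℂ H z := by
    intro z hz
    have hz' := mem_closedBall_zero_iff.1 hz
    refine hHd.differentiableAt (isOpen_ball.mem_nhds ?_)
    rw [mem_ball_zero_iff]
    linarith
  have hlip : ∀ x ∈ closedBall (0 : En n) R₁, ∀ y ∈ closedBall (0 : En n) R₁,
      ‖H y - H x‖ ≤ L * ‖y - x‖ := fun x hx y hy =>
    (convex_closedBall (0 : En n) R₁).norm_image_sub_le_of_norm_fderiv_le (𝕜 := ℂ) hda hder hx hy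
  have hHd1 : DifferentiableOn ℂ H (ball 0 1) := hHd.mono (ball_subset_ball hR1.le)
  have hns : ¬ Solv H (ball 0 1) M := by
    intro hS
    refine hg5 H M (5 * τ) hM le_rfl hτ2 (fun z hz _ => hHg z (ball_subset_closedBall hz)) ?_
    obtain ⟨h, h1, h2, h3⟩ := hS
    exact ⟨h, h1.mono inter_subset_left, fun z hz => h2 z hz.1, fun z hz => h3 z hz.1⟩
  obtain ⟨k₀, hk0, hk1, hgap⟩ := TB.solv_gap hHd1 hns
  -- the radius `R₂`
  obtain ⟨R₂, hR₂1, hR₂R, hR₂L⟩ : ∃ R₂ : ℝ, 1 < R₂ ∧ R₂ ≤ R₁ ∧ L * (R₂ - 1) ≤ κ / 2 := by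
    refine ⟨min R₁ (1 + κ / (2 * L)), lt_min hR₁1 ?_, min_le_left _ _, ?_⟩
    · have : 0 < κ / (2 * L) := by positivity
      linarith
    · have h1 : min R₁ (1 + κ / (2 * L)) - 1 ≤ κ / (2 * L) := by
        have := min_le_right R₁ (1 + κ / (2 * L))
        linarith
      calc L * (min R₁ (1 + κ / (2 * L)) - 1) ≤ L * (κ / (2 * L)) :=
            mul_le_mul_of_nonneg_left h1 hL0.le
        _ = κ / 2 := by
            field_simp
  have hR₂c : ∀ z ∈ ball (0 : En n) R₂, z ∈ closedBall (0 : En n) R₁ := by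
    intro z hz
    rw [mem_ball_zero_iff] at hz
    rw [mem_closedBall_zero_iff]
    linarith
  have h1c : ∀ z ∈ closedBall (0 : En n) 1, z ∈ closedBall (0 : En n) R₁ :=
    fun z hz => closedBall_subset_closedBall hR₁1.le hz
  have hbd1 : ∀ z ∈ closedBall (0 : En n) 1, δ₀ - κ / 2 ≤ ‖H z‖ ∧ ‖H z‖ ≤ 1 + κ / 2 := by
    intro z hz
    have h1 := hHg z hz
    have h2 := hg3 z hz
    have h3 : ‖g z‖ ≤ ‖H z‖ + ‖H z - g z‖ := by
      have := norm_sub_le (H z) (H z - g z)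
      rwa [sub_sub_cancel] at this
    have h4 : ‖H z‖ ≤ ‖g z‖ + ‖H z - g z‖ := by
      have := norm_add_le (g z) (H z - g z)
      rwa [add_sub_cancel] at this
    exact ⟨by linarith [h2.1], by linarith [h2.2]⟩
  refine ⟨H, L, R₂, (1 + k₀) / 2, hL1, hR₂1, by linarith, by linarith,
    hHd.mono (ball_subset_ball (by linarith)), fun z hz => ?_,
    fun z hz => hder z (hR₂c z hz), fun z hz => ?_, fun z hz => ?_, fun hS => ?_⟩
  · have hz' := mem_ball_zero_iff.1 hz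
    have hR₂0 : 0 < R₂ := by linarith
    obtain ⟨w, hw⟩ : ∃ w : En n, w = ((R₂⁻¹ : ℝ) : ℂ) • z := ⟨_, rfl⟩
    have hw1 : w ∈ closedBall (0 : En n) 1 := by
      rw [mem_closedBall_zero_iff, hw, norm_smul, Complex.norm_real, norm_inv,
        Real.norm_of_nonneg hR₂0.le, inv_mul_le_iff₀ hR₂0]
      linarith
    have hzw : ‖z - w‖ ≤ R₂ - 1 := by
      have h1 : z - w = ((1 - R₂⁻¹ : ℝ) : ℂ) • z := by
        rw [hw, Complex.ofReal_sub, Complex.ofReal_one, sub_smul, one_smul]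
      have h2 : 0 ≤ 1 - R₂⁻¹ := by
        have := inv_le_one_of_one_le₀ hR₂1.le
        linarith
      rw [h1, norm_smul, Complex.norm_real, Real.norm_of_nonneg h2]
      calc (1 - R₂⁻¹) * ‖z‖ ≤ (1 - R₂⁻¹) * R₂ := mul_le_mul_of_nonneg_left hz'.le h2
        _ = R₂ - 1 := by
            field_simp
    have h3 : ‖H z - H w‖ ≤ κ / 2 :=
      (hlip w (h1c w hw1) z (hR₂c z hz)).trans
        ((mul_le_mul_of_nonneg_left hzw hL0.le).trans hR₂L)
    have h4 := hbd1 w hw1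
    have h5 : ‖H w‖ ≤ ‖H z‖ + ‖H z - H w‖ := by
      have := norm_sub_le (H z) (H z - H w)
      rwa [sub_sub_cancel] at this
    have h6 : ‖H z‖ ≤ ‖H w‖ + ‖H z - H w‖ := by
      have := norm_add_le (H w) (H z - H w)
      rwa [add_sub_cancel] at this
    exact ⟨by linarith [h4.1], by linarith [h4.2]⟩
  · have := hlip p (h1c p hpc) z (hR₂c z hz)
    rwa [hHp] at this
  · have := hlip (-p) (h1c (-p) hmc) z (hR₂c z hz)
    rwa [hHm, sub_neg_eq_add] at this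
  · refine hgap ((1 + k₀) / 2) (by linarith) (by linarith) ?_
    exact TB.solv_scale (by linarith) hS

end Pool.Agent.MPca0fc2.TH
end

section

set_option autoImplicit false

open Metric Set Filter Topology
open scoped InnerProductSpace

namespace Pool.Agent.MPca0fc2.TH

open Pool.Agent.MPca0fc2.TB

/-- The choice of the scales. PROOF. As `SH.exists_blk` (SH/B5.lean). `bad_fam2` with `M = j` gives
`H j, L j, R j, k j`; `m j = max 1 (max (2/(1 - k j)) ((K L j 4^(j+1)/κ)²))`. For each `j` the conditions `rR`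
(`hCh.up`), `ri` (`hCh.inv`), `lamb` (`hlam`) hold for all `r j ∈ (0, c j)`, and
`K max (L i) (L j) √(m i m j) x ≤ κ/4^(j+1)` for `i ≤ j`, `x ∈ (0, c j)`; `c j ≤ 1`;
`r 0 = c 0 / 2`, `r (j + 1) = r j c (j+1) / 2`. -/
theorem exists_blk2 {n N : ℕ} (hn : 2 ≤ n) {D : Set (En n)} {p e : En n} {W : En n → ℂ}
    {Θ : ℝ → En n → En n} {s K : ℝ} (hCh : Chart D p e W Θ s K) {δ₀ : ℝ} (hδ : 0 < δ₀)
    (hcon : ∀ A : ℝ, ∃ f : En n → En N, DifferentiableOn ℂ f (ball 0 1) ∧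
      (∀ z ∈ ball (0 : En n) 1, δ₀ ≤ ‖f z‖ ∧ ‖f z‖ ≤ 1) ∧ ¬ Solv f (ball 0 1) A)
    {lam : ℝ → ℝ} (hlam : Tendsto lam (𝓝[>] 0) atTop) {κ : ℝ} (hκ : 0 < κ) (hκ1 : κ ≤ 1)
    {C : ℝ} (hC : 0 < C) :
    ∃ (c₀ : En N) (H : ℕ → En n → En N) (L R m k r : ℕ → ℝ),
      Blk2 D e W Θ K δ₀ κ C c₀ lam H L R m k r := by
  obtain ⟨c₀, hc1, hc2, hfam⟩ := bad_fam2 hn hδ hcon hCh.e1
  choose H L R k hL hR1 hk0 hk1 hhol hbd hdr hlp hlm hns using
    fun j : ℕ => hfam κ hκ (j : ℝ) (Nat.cast_nonneg j)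
  have hK : 1 ≤ K := hCh.K1
  obtain ⟨m, hm⟩ : ∃ m : ℕ → ℝ, ∀ j, m j =
      max 1 (max (2 / (1 - k j)) ((K * L j * 4 ^ (j + 1) / κ) ^ 2)) := ⟨_, fun j => rfl⟩
  have hm1 : ∀ j, 1 ≤ m j := fun j => by rw [hm]; exact le_max_left _ _
  have hm2 : ∀ j, 2 / (1 - k j) ≤ m j := fun j => by
    rw [hm]; exact (le_max_left _ _).trans (le_max_right _ _)
  have hm3 : ∀ j, (K * L j * 4 ^ (j + 1) / κ) ^ 2 ≤ m j := fun j => by
    rw [hm]; exact (le_max_right _ _).trans (le_max_right _ _)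
  -- the thresholds
  have hth : ∀ j : ℕ, ∃ c : ℝ, 0 < c ∧ c ≤ 1 ∧ ∀ x ∈ Ioo (0 : ℝ) c,
      (∀ z ∈ closure D, ‖Θ x z‖ < R j) ∧
      (∃ ψ : En n → En n, DifferentiableOn ℂ ψ (ball 0 (k j)) ∧
        ∀ y ∈ ball (0 : En n) (k j), ψ y ∈ D ∧ Θ x (ψ y) = y ∧
          (1 - k j) / 2 * x ^ 2 ≤ ‖W (ψ y)‖ ∧ ‖W (ψ y)‖ ≤ 2 / (1 - k j) * x ^ 2) ∧
      (C * (κ + K * L j) ^ 2 ≤ lam (C * (m j * x ^ 2))) ∧
      ∀ i ∈ Finset.range (j + 1),
        K * max (L i) (L j) * (√(m i * m j) * x) ≤ κ / 4 ^ (j + 1) := by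
    intro j
    have hmj : 0 < m j := by linarith [hm1 j]
    obtain ⟨a, ha0, ha⟩ := hCh.up (R j) (hR1 j)
    obtain ⟨b, hb0, hb⟩ := hCh.inv (k j) (hk0 j) (hk1 j)
    have t1 : Tendsto (fun x : ℝ => C * (m j * x ^ 2)) (𝓝[>] 0) (𝓝[>] 0) := by
      apply tendsto_nhdsWithin_iff.mpr
      refine ⟨?_, ?_⟩
      · have : Tendsto (fun x : ℝ => C * (m j * x ^ 2)) (𝓝 0) (𝓝 (C * (m j * 0 ^ 2))) :=
          (continuous_const.mul (continuous_const.mul (continuous_id.pow 2))).tendsto 0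
        rw [zero_pow two_ne_zero, mul_zero, mul_zero] at this
        exact this.mono_left nhdsWithin_le_nhds
      · filter_upwards [self_mem_nhdsWithin] with x hx
        have hx' : (0 : ℝ) < x := hx
        exact mul_pos hC (mul_pos hmj (pow_pos hx' 2))
    have e1 : ∀ᶠ x in 𝓝[>] (0 : ℝ), C * (κ + K * L j) ^ 2 ≤ lam (C * (m j * x ^ 2)) :=
      (hlam.comp t1).eventually_ge_atTop _
    have e3 : ∀ᶠ x in 𝓝[>] (0 : ℝ), ∀ i ∈ Finset.range (j + 1),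
        K * max (L i) (L j) * (√(m i * m j) * x) ≤ κ / 4 ^ (j + 1) := by
      rw [Filter.eventually_all_finset]
      intro i hi
      have t3 : Tendsto (fun x : ℝ => K * max (L i) (L j) * (√(m i * m j) * x)) (𝓝 0)
          (𝓝 (K * max (L i) (L j) * (√(m i * m j) * 0))) :=
        (continuous_const.mul (continuous_const.mul continuous_id)).tendsto 0
      rw [mul_zero, mul_zero] at t3
      have hpos : (0 : ℝ) < κ / 4 ^ (j + 1) := by positivity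
      have := (t3.mono_left (nhdsWithin_le_nhds (s := Ioi 0))).eventually_lt_const hpos
      filter_upwards [this] with x hx
      exact hx.le
    obtain ⟨u, hu0, hu⟩ := mem_nhdsGT_iff_exists_Ioo_subset.mp (Filter.inter_mem e1 e3)
    have hu0' : (0 : ℝ) < u := hu0
    refine ⟨min (min u 1) (min a b), lt_min (lt_min hu0' one_pos) (lt_min ha0 hb0),
      (min_le_left _ _).trans (min_le_right _ _), ?_⟩
    intro x hx
    have hxu : x < u := hx.2.trans_le ((min_le_left _ _).trans (min_le_left _ _))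
    have hxa : x < a := hx.2.trans_le ((min_le_right _ _).trans (min_le_left _ _))
    have hxb : x < b := hx.2.trans_le ((min_le_right _ _).trans (min_le_right _ _))
    have h := hu (show x ∈ Ioo (0 : ℝ) u from ⟨hx.1, hxu⟩)
    exact ⟨ha x hx.1 hxa, hb x hx.1 hxb, h.1, h.2⟩
  choose c hc0 hcl hc using hth
  obtain ⟨r, hr0, hrsucc⟩ : ∃ r : ℕ → ℝ, r 0 = c 0 / 2 ∧
      ∀ j, r (j + 1) = r j * (c (j + 1) / 2) :=
    ⟨fun j => Nat.rec (c 0 / 2) (fun j x => x * (c (j + 1) / 2)) j, rfl, fun j => rfl⟩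
  have hrpos : ∀ j, 0 < r j := by
    intro j
    induction j with
    | zero => rw [hr0]; exact half_pos (hc0 0)
    | succ j ih => rw [hrsucc]; exact mul_pos ih (half_pos (hc0 _))
  have hanti : Antitone r := by
    apply antitone_nat_of_succ_le
    intro j
    have h1 := hrpos j
    have h2 := hcl (j + 1)
    have h3 := hrsucc j
    nlinarith
  have hrlt1 : ∀ j, r j < 1 := fun j => by
    have h1 := hanti (Nat.zero_le j)
    have h2 := hcl 0
    linarith [hr0]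
  have hrc : ∀ j, r j ∈ Ioo (0 : ℝ) (c j) := by
    intro j
    refine ⟨hrpos j, ?_⟩
    rcases j with _ | j
    · linarith [hc0 0, hr0]
    · have h1 := hrpos j
      have h2 := hc0 (j + 1)
      have h3 := hrlt1 j
      have h4 := hrsucc j
      nlinarith
  have hrr : ∀ i j, i < j → r j / r i ∈ Ioo (0 : ℝ) (c j) := by
    intro i j hij
    refine ⟨div_pos (hrpos j) (hrpos i), ?_⟩
    rcases j with _ | j
    · omega
    · rw [div_lt_iff₀ (hrpos i)]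
      have h1 := hanti (Nat.lt_succ_iff.mp hij)
      have h2 := hc0 (j + 1)
      have h3 := hrpos i
      have h4 := hrpos j
      have h5 := hrsucc j
      nlinarith
  refine ⟨c₀, H, L, R, m, k, r, ?_⟩
  refine ⟨hκ, hκ1, ⟨hc1, hc2⟩, hL, hm1, fun j => ⟨hk0 j, hk1 j⟩, hhol, hbd, hdr, hlp, hlm,
    hns, hm2, ?_, fun j => ⟨hrpos j, hrlt1 j⟩, fun j => (hc j _ (hrc j)).1,
    fun j => (hc j _ (hrc j)).2.1, fun j => (hc j _ (hrc j)).2.2.1, ?_⟩
  · intro j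
    have h1 : K * L j * 4 ^ (j + 1) / κ ≤ √(m j) := Real.le_sqrt_of_sq_le (hm3 j)
    have h4 : (0 : ℝ) < 4 ^ (j + 1) := by positivity
    rw [div_mul_eq_mul_div, le_div_iff₀ h4]
    rw [div_le_iff₀ hκ] at h1
    linarith
  · intro i j hij
    exact (hc j _ (hrr i j hij)).2.2.2 i (Finset.mem_range.mpr (by omega))

end Pool.Agent.MPca0fc2.TH
end
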