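import Pool.Agent.Lib.MP_ca0fc2_an.Mg.G122

section

set_option autoImplicit false

open Metric Set Filter Topology
open scoped InnerProductSpace

namespace Pool.Agent.MPca0fc2.TH

open Pool.Agent.MPca0fc2.TB

variable {n : ℕ}

/-- second order Taylor formula in one variable -/
private theorem F1_one {g : ℂ → ℂ} {R : ℝ} (hR : 1 < R) (hg : DifferentiableOn ℂ g (ball 0 R))
    (hb : ∀ w ∈ ball (0 : ℂ) R, ‖g w - g 0‖ ≤ 1) : ‖g 1 - g 0 - deriv g 0‖ ≤ 2 / R ^ 2 := by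
  have hR0 : 0 < R := by linarith
  have h0 : (0 : ℂ) ∈ ball (0 : ℂ) R := mem_ball_self hR0
  have h1 : (1 : ℂ) ∈ ball (0 : ℂ) R := by simpa using hR
  have hmaps : MapsTo g (ball 0 R) (closedBall (g 0) 1) := fun w hw => by
    rw [mem_closedBall, dist_eq_norm]
    exact hb w hw
  have hq : ∀ w ∈ ball (0 : ℂ) R, ‖dslope g 0 w‖ ≤ 1 / R := fun w hw =>
    Complex.norm_dslope_le_div_of_mapsTo_ball hg hmaps hw
  have hqd : DifferentiableOn ℂ (dslope g 0) (ball 0 R) :=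
    (Complex.differentiableOn_dslope (isOpen_ball.mem_nhds h0)).2 hg
  have hmaps2 : MapsTo (dslope g 0) (ball 0 R) (closedBall (dslope g 0 0) (2 / R)) := fun w hw => by
    rw [mem_closedBall, dist_eq_norm]
    refine (norm_sub_le _ _).trans ?_
    have e1 : 2 / R = 1 / R + 1 / R := by ring
    rw [e1]
    exact add_le_add (hq w hw) (hq 0 h0)
  have h2 := Complex.dist_le_div_mul_dist_of_mapsTo_ball hqd hmaps2 h1
  have e2 : dslope g 0 1 = g 1 - g 0 := by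
    rw [dslope_of_ne _ one_ne_zero, slope_def_module]
    simp
  rw [dist_eq_norm, dslope_same, e2, dist_zero_right, norm_one, mul_one] at h2
  refine h2.trans (le_of_eq ?_)
  field_simp

/-- second order Taylor formula -/
private theorem F1_taylor {p : En n} {F : En n → ℂ} {t : ℝ} (ht : 0 < t)
    (hF : DifferentiableOn ℂ F (ball p t)) (hF0 : F p = 0) :
    ∃ A > 0, ∃ ρ > 0, ρ ≤ t ∧ ∀ v : En n, ‖v‖ < ρ → ‖F (p + v) - fderiv ℂ F p v‖ ≤ A * ‖v‖ ^ 2 := by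
  have hp : DifferentiableAt ℂ F p := hF.differentiableAt (ball_mem_nhds p ht)
  obtain ⟨a, ha, hab⟩ := Metric.continuousAt_iff.1 hp.continuousAt 1 one_pos
  obtain ⟨b, hb⟩ : ∃ b, b = min a t := ⟨_, rfl⟩
  have hb0 : 0 < b := hb ▸ lt_min ha ht
  have hba : b ≤ a := hb ▸ min_le_left _ _
  have hbt : b ≤ t := hb ▸ min_le_right _ _
  refine ⟨2 / b ^ 2, by positivity, b, hb0, hbt, fun v hv => ?_⟩
  rcases eq_or_ne v 0 with rfl | hv0
  · simp [hF0]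
  have hvn : 0 < ‖v‖ := norm_pos_iff.2 hv0
  have hmem : ∀ w ∈ ball (0 : ℂ) (b / ‖v‖), p + w • v ∈ ball p b := fun w hw => by
    rw [mem_ball_zero_iff, lt_div_iff₀ hvn] at hw
    rw [mem_ball, dist_eq_norm, add_sub_cancel_left, norm_smul]
    exact hw
  have hline : ∀ w : ℂ, HasDerivAt (fun w : ℂ => p + w • v) v w := fun w => by
    simpa using ((hasDerivAt_id w).smul_const v).const_add p
  have hg : DifferentiableOn ℂ (fun w : ℂ => F (p + w • v)) (ball 0 (b / ‖v‖)) := by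
    refine (hF.mono (ball_subset_ball hbt)).comp ?_ hmem
    exact fun w _ => (hline w).differentiableAt.differentiableWithinAt
  have key := F1_one (g := fun w : ℂ => F (p + w • v)) ((one_lt_div hvn).2 hv) hg ?_
  · have e1 : deriv (fun w : ℂ => F (p + w • v)) 0 = fderiv ℂ F p v := by
      have h1 : HasFDerivAt F (fderiv ℂ F p) (p + (0 : ℂ) • v) := by
        rw [zero_smul, add_zero]
        exact hp.hasFDerivAt
      exact (HasFDerivAt.comp_hasDerivAt (0 : ℂ) h1 (hline 0)).deriv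
    simp only [e1, one_smul, zero_smul, add_zero, hF0, sub_zero] at key
    refine key.trans (le_of_eq ?_)
    field_simp
  · intro w hw
    have h1 := hab (lt_of_lt_of_le (mem_ball.1 (hmem w hw)) hba)
    simp only [zero_smul, add_zero]
    rw [← dist_eq_norm]
    exact h1.le

/-- A holomorphic function with positive real part on `D` near `p` and `F p = 0` is dominated by `W`.
PROOF. `l` from `h.lin`. Taylor: `‖F z - F' (z - p)‖ ≤ A ‖z - p‖²` near `p`, `F' = fderiv ℂ F p`. Claim: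
`l v = 0` implies `F' v = 0`. Let `l u = 1`; for small real `t ≠ 0` (both signs) `z = p + t v + M t² u`
with `M > 0` large satisfies `K ‖z - p‖² < Re l (z - p) = M t²`, so `z ∈ D` and
`0 < Re F z ≤ t Re F' v + M t² Re F' u + A ‖z - p‖²`; dividing by `t → 0±`, `Re F' v = 0`; the same for
`I v`. So `F' = b l`, and `‖F z‖ ≤ |b| ‖l (z - p)‖ + A ‖z - p‖² ≤ (|b| + A) K ‖W z‖`. -/
theorem F_le {D : Set (En n)} {p e : En n} {W : En n → ℂ} {Θ : ℝ → En n → En n} {s K : ℝ}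
    (h : Chart D p e W Θ s K) {F : En n → ℂ} {t : ℝ} (ht : 0 < t)
    (hF : DifferentiableOn ℂ F (ball p t)) (hF0 : F p = 0)
    (hF1 : ∀ z ∈ D ∩ ball p t, 0 < (F z).re) :
    ∃ C > 0, ∃ t' > 0, ∀ z ∈ D ∩ ball p t', ‖F z‖ ≤ C * ‖W z‖ := by
  obtain ⟨l, hl0, hl1, hl2⟩ := h.lin
  obtain ⟨A, hA, ρ, hρ, hρt, hT⟩ := F1_taylor ht hF hF0
  obtain ⟨F', hF'⟩ : ∃ F' : En n →L[ℂ] ℂ, F' = fderiv ℂ F p := ⟨_, rfl⟩
  rw [← hF'] at hT
  have hK : 0 < K := by linarith [h.K1]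
  have hs := h.s0
  -- a vector with `l u = 1`
  obtain ⟨w, hw⟩ : ∃ w, l w ≠ 0 := by
    by_contra hcon
    push Not at hcon
    exact hl0 (ContinuousLinearMap.ext hcon)
  obtain ⟨u, hu⟩ : ∃ u : En n, u = (l w)⁻¹ • w := ⟨_, rfl⟩
  have hlu : l u = 1 := by
    rw [hu, map_smul, smul_eq_mul, inv_mul_cancel₀ hw]
  -- one inequality
  have hre : ∀ v : En n, l v = 0 → 0 ≤ (F' v).re := by
    intro v hv
    by_contra hneg
    push Not at hneg
    obtain ⟨M, hM⟩ : ∃ M : ℝ, M = K * (‖v‖ + 1) ^ 2 + 1 := ⟨_, rfl⟩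
    have hM0 : 0 < M := by rw [hM]; positivity
    obtain ⟨B, hB⟩ : ∃ B : ℝ, B = M * ‖F' u‖ + A * (‖v‖ + 1) ^ 2 := ⟨_, rfl⟩
    have hB0 : 0 ≤ B := by rw [hB]; positivity
    obtain ⟨q, hq⟩ : ∃ q : ℝ, q = -(F' v).re := ⟨_, rfl⟩
    have hq0 : 0 < q := by rw [hq]; linarith
    -- the parameter
    obtain ⟨τ, hτ0, hτ1, hτ2, hτ3⟩ : ∃ τ : ℝ, 0 < τ ∧ M * τ * ‖u‖ ≤ 1 ∧
        τ * (‖v‖ + 1) < min s ρ ∧ τ * B < q := by
      have hm : 0 < min s ρ := lt_min hs hρ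
      obtain ⟨a1, ha1⟩ : ∃ a : ℝ, a = 1 / (M * ‖u‖ + 1) := ⟨_, rfl⟩
      obtain ⟨a2, ha2⟩ : ∃ a : ℝ, a = min s ρ / (2 * (‖v‖ + 1)) := ⟨_, rfl⟩
      obtain ⟨a3, ha3⟩ : ∃ a : ℝ, a = q / (B + 1) := ⟨_, rfl⟩
      have h1 : 0 < a1 := by rw [ha1]; positivity
      have h2 : 0 < a2 := by rw [ha2]; positivity
      have h3 : 0 < a3 := by rw [ha3]; positivity
      refine ⟨min a1 (min a2 a3), lt_min h1 (lt_min h2 h3), ?_, ?_, ?_⟩
      · have h4 : min a1 (min a2 a3) ≤ a1 := min_le_left _ _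
        have h5 : M * min a1 (min a2 a3) * ‖u‖ ≤ M * a1 * ‖u‖ := by gcongr
        refine h5.trans ?_
        have e1 : M * a1 * ‖u‖ = M * ‖u‖ / (M * ‖u‖ + 1) := by rw [ha1]; ring
        rw [e1, div_le_one (by positivity)]
        linarith
      · have h4 : min a1 (min a2 a3) ≤ a2 := (min_le_right _ _).trans (min_le_left _ _)
        have h5 : min a1 (min a2 a3) * (‖v‖ + 1) ≤ a2 * (‖v‖ + 1) := by gcongr
        refine lt_of_le_of_lt h5 ?_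
        have e1 : a2 * (‖v‖ + 1) = min s ρ / 2 := by rw [ha2]; field_simp
        rw [e1]
        linarith
      · have h4 : min a1 (min a2 a3) ≤ a3 := (min_le_right _ _).trans (min_le_right _ _)
        have h5 : min a1 (min a2 a3) * B ≤ a3 * B := by gcongr
        refine lt_of_le_of_lt h5 ?_
        rw [ha3, div_mul_eq_mul_div, div_lt_iff₀ (by positivity)]
        nlinarith
    obtain ⟨y, hy⟩ : ∃ y : En n, y = (τ : ℂ) • v + ((M * τ ^ 2 : ℝ) : ℂ) • u := ⟨_, rfl⟩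
    have hyn : ‖y‖ ≤ τ * (‖v‖ + 1) := by
      rw [hy]
      refine (norm_add_le _ _).trans ?_
      rw [norm_smul, norm_smul, Complex.norm_real, Complex.norm_real, Real.norm_of_nonneg hτ0.le,
        Real.norm_of_nonneg (by positivity)]
      have e1 : M * τ ^ 2 * ‖u‖ = τ * (M * τ * ‖u‖) := by ring
      rw [e1, mul_add, mul_one]
      have := mul_le_mul_of_nonneg_left hτ1 hτ0.le
      linarith
    have hys : ‖y‖ < s := lt_of_le_of_lt hyn (lt_of_lt_of_le hτ2 (min_le_left _ _))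
    have hyρ : ‖y‖ < ρ := lt_of_le_of_lt hyn (lt_of_lt_of_le hτ2 (min_le_right _ _))
    have hly : (l y).re = M * τ ^ 2 := by
      rw [hy, map_add, map_smul, map_smul, hv, hlu, smul_zero, zero_add, smul_eq_mul, mul_one,
        Complex.ofReal_re]
    have hyD : p + y ∈ D := by
      refine hl1 _ ?_ ?_
      · rw [add_sub_cancel_left]; exact hys
      · rw [add_sub_cancel_left, hly]
        have h4 : ‖y‖ ^ 2 ≤ (τ * (‖v‖ + 1)) ^ 2 := pow_le_pow_left₀ (norm_nonneg _) hyn 2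
        have h5 : K * ‖y‖ ^ 2 ≤ K * (τ * (‖v‖ + 1)) ^ 2 := mul_le_mul_of_nonneg_left h4 hK.le
        refine lt_of_le_of_lt h5 ?_
        have e1 : K * (τ * (‖v‖ + 1)) ^ 2 = (M - 1) * τ ^ 2 := by rw [hM]; ring
        rw [e1]
        have : 0 < τ ^ 2 := by positivity
        nlinarith
    have hyb : p + y ∈ ball p t := by
      rw [mem_ball, dist_eq_norm, add_sub_cancel_left]
      exact lt_of_lt_of_le hyρ hρt
    have hpos := hF1 _ ⟨hyD, hyb⟩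
    have hTy := hT y hyρ
    have h6 : (F (p + y)).re - (F' y).re ≤ A * ‖y‖ ^ 2 := by
      have h7 := Complex.re_le_norm (F (p + y) - F' y)
      rw [Complex.sub_re] at h7
      exact h7.trans hTy
    have h8 : (F' y).re = τ * (F' v).re + M * τ ^ 2 * (F' u).re := by
      rw [hy, map_add, map_smul, map_smul, smul_eq_mul, smul_eq_mul, Complex.add_re,
        Complex.re_ofReal_mul, Complex.re_ofReal_mul]
    have h9 : (F' u).re ≤ ‖F' u‖ := Complex.re_le_norm _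
    have h10 : A * ‖y‖ ^ 2 ≤ A * (τ * (‖v‖ + 1)) ^ 2 :=
      mul_le_mul_of_nonneg_left (pow_le_pow_left₀ (norm_nonneg _) hyn 2) hA.le
    have h11 : M * τ ^ 2 * (F' u).re ≤ M * τ ^ 2 * ‖F' u‖ :=
      mul_le_mul_of_nonneg_left h9 (by positivity)
    have h12 : 0 < τ * (-q + τ * B) := by
      have e1 : τ * (-q + τ * B) = τ * (F' v).re + M * τ ^ 2 * ‖F' u‖ +
          A * (τ * (‖v‖ + 1)) ^ 2 := by rw [hq, hB]; ring
      rw [e1]
      linarith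
    have h13 : 0 < -q + τ * B := (mul_pos_iff_of_pos_left hτ0).1 h12
    linarith
  have hker : ∀ v : En n, l v = 0 → F' v = 0 := by
    intro v hv
    have h1 := hre v hv
    have h2 := hre (-v) (by rw [map_neg, hv, neg_zero])
    have h3 := hre (Complex.I • v) (by rw [map_smul, hv, smul_zero])
    have h4 := hre (-(Complex.I • v)) (by rw [map_neg, map_smul, hv, smul_zero, neg_zero])
    rw [map_neg, Complex.neg_re] at h2
    rw [map_smul, smul_eq_mul, Complex.I_mul_re] at h3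
    rw [map_neg, map_smul, smul_eq_mul, Complex.neg_re, Complex.I_mul_re] at h4
    apply Complex.ext
    · rw [Complex.zero_re]; linarith
    · rw [Complex.zero_im]; linarith
  have hdom : ∀ v : En n, ‖F' v‖ ≤ ‖F' u‖ * ‖l v‖ := by
    intro v
    have h1 : F' (v - l v • u) = 0 := by
      apply hker
      rw [map_sub, map_smul, hlu, smul_eq_mul, mul_one, sub_self]
    rw [map_sub, map_smul, sub_eq_zero] at h1
    rw [h1, norm_smul, mul_comm]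
  refine ⟨(‖F' u‖ + A) * K + 1, by positivity, min ρ s, lt_min hρ hs, fun z hz => ?_⟩
  obtain ⟨hzD, hzb⟩ := hz
  rw [mem_ball, dist_eq_norm] at hzb
  have hzρ : ‖z - p‖ < ρ := lt_of_lt_of_le hzb (min_le_left _ _)
  have hzs : ‖z - p‖ < s := lt_of_lt_of_le hzb (min_le_right _ _)
  have hzc : z ∈ closure D := subset_closure hzD
  have h1 := hT (z - p) hzρ
  rw [add_sub_cancel] at h1
  have h2 := hl2 z hzc hzs
  have h3 := h.Wq z hzc
  have h4 := hdom (z - p)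
  have h5 : ‖F z‖ ≤ ‖F z - F' (z - p)‖ + ‖F' (z - p)‖ := by
    have := norm_add_le (F z - F' (z - p)) (F' (z - p))
    rwa [sub_add_cancel] at this
  have h6 : ‖F' u‖ * ‖l (z - p)‖ ≤ ‖F' u‖ * (K * ‖W z‖) :=
    mul_le_mul_of_nonneg_left h2 (norm_nonneg _)
  have h7 : A * ‖z - p‖ ^ 2 ≤ A * (K * ‖W z‖) := mul_le_mul_of_nonneg_left h3 hA.le
  have h8 := norm_nonneg (W z)
  calc ‖F z‖ ≤ A * (K * ‖W z‖) + ‖F' u‖ * (K * ‖W z‖) := by linarith
    _ ≤ ((‖F' u‖ + A) * K + 1) * ‖W z‖ := by nlinarith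

end Pool.Agent.MPca0fc2.TH
end

section

set_option autoImplicit false

open Metric Set Filter Topology
open scoped InnerProductSpace

namespace Pool.Agent.MPca0fc2.TH

open Pool.Agent.MPca0fc2.TB

variable {n : ℕ} {D : Set (En n)} {p : En n} {W : En n → ℂ} {S : En n →L[ℂ] En n} {e : En n}
  {κ C : ℝ}

private theorem G2_N {Y : ℂ} (hY : 0 ≤ Y.re) : 1 ≤ ‖1 + Y‖ ∧ ‖Y‖ ≤ ‖1 + Y‖ := by
  have h1 : ‖1 + Y‖ ^ 2 = 1 + 2 * Y.re + ‖Y‖ ^ 2 := by
    rw [← Complex.normSq_eq_norm_sq, ← Complex.normSq_eq_norm_sq, Complex.normSq_apply,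
      Complex.normSq_apply]
    simp only [Complex.add_re, Complex.add_im, Complex.one_re, Complex.one_im]
    ring
  have h2 := norm_nonneg (1 + Y)
  have h3 := norm_nonneg Y
  constructor
  · nlinarith
  · nlinarith

/-- the size of the tangential part -/
private theorem G2_x (h : SG D p W S e κ C) {r : ℝ} (hr : 0 < r) {z : En n} (hz : z ∈ closure D) :
    0 ≤ (W z / (r : ℂ) ^ 2).re ∧ ‖W z / (r : ℂ) ^ 2‖ = (√‖W z‖ / r) ^ 2 ∧
      ‖(r : ℂ)⁻¹ • S (z - p)‖ ≤ ‖S‖ / √κ * (√‖W z‖ / r) := by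
  have hκ := h.κ0
  have h1 := h.pos z hz
  have h2 : ‖(r : ℂ)‖ = r := by rw [Complex.norm_real, Real.norm_of_nonneg hr.le]
  refine ⟨?_, ?_, ?_⟩
  · rw [← Complex.ofReal_pow, Complex.div_ofReal_re]
    exact div_nonneg (le_trans (by positivity) h1) (by positivity)
  · rw [norm_div, norm_pow, h2, div_pow, Real.sq_sqrt (norm_nonneg _)]
  · have h3 : ‖z - p‖ ≤ √‖W z‖ / √κ := by
      rw [le_div_iff₀ (Real.sqrt_pos.2 hκ)]
      apply Real.le_sqrt_of_sq_le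
      rw [mul_pow, Real.sq_sqrt hκ.le, mul_comm]
      exact h1.trans (Complex.re_le_norm _)
    rw [norm_smul, norm_inv, h2]
    calc r⁻¹ * ‖S (z - p)‖ ≤ r⁻¹ * (‖S‖ * (√‖W z‖ / √κ)) := by
          refine mul_le_mul_of_nonneg_left ?_ (by positivity)
          exact (S.le_opNorm _).trans (mul_le_mul_of_nonneg_left h3 (norm_nonneg _))
      _ = _ := by ring

/-- Values. PROOF. `Y = W z / r²`, `x = r⁻¹ S (z - p)`; `cay e Y x - e = (-2Y/(1+Y)) e + (2/(1+Y)) x`,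
`|1+Y| ≥ max 1 |Y| ≥ √|Y|`, `|x| ≤ ‖S‖ ‖z-p‖ / r ≤ ‖S‖ √(Re W/κ) / r ≤ C' √|Y|`; `cay_far`. -/
theorem th_val (h : SG D p W S e κ C) : ∃ K : ℝ, 1 ≤ K ∧ ∀ r, 0 < r → ∀ z ∈ closure D,
    ‖Th p W S e r z - e‖ ≤ K * (√‖W z‖ / r) ∧
    (z ≠ p → ‖Th p W S e r z + e‖ ≤ K * (r / √‖W z‖)) := by
  have hκ := h.κ0
  obtain ⟨A, hA⟩ : ∃ A, A = ‖S‖ / √κ := ⟨_, rfl⟩
  have hA0 : 0 ≤ A := by rw [hA]; positivity
  refine ⟨2 * (1 + A), by linarith, fun r hr z hz => ?_⟩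
  obtain ⟨h1, h2, h3⟩ := G2_x h hr hz
  rw [← hA] at h3
  obtain ⟨Y, hY⟩ : ∃ Y, Y = W z / (r : ℂ) ^ 2 := ⟨_, rfl⟩
  obtain ⟨x, hx⟩ : ∃ x, x = (r : ℂ)⁻¹ • S (z - p) := ⟨_, rfl⟩
  obtain ⟨t, ht⟩ : ∃ t, t = √‖W z‖ / r := ⟨_, rfl⟩
  have ht0 : 0 ≤ t := by rw [ht]; positivity
  rw [← hY] at h1 h2
  rw [← hx] at h3
  rw [← ht] at h2 h3
  obtain ⟨hN1, hN2⟩ := G2_N h1
  have hN0 : 0 < ‖1 + Y‖ := by linarith
  have hne : 1 + Y ≠ 0 := norm_pos_iff.1 hN0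
  have hTh : Th p W S e r z = cay e Y x := by rw [Th, hY, hx]
  rw [h2] at hN2
  have hxt : ‖x‖ / ‖1 + Y‖ ≤ A * t := by
    rw [div_le_iff₀ hN0]
    nlinarith [mul_nonneg hA0 ht0]
  rw [hTh]
  constructor
  · rw [← ht]
    have e1 : cay e Y x - e = (-(2 * Y / (1 + Y))) • e + (2 / (1 + Y)) • x := by
      rw [cay]
      have e2 : (1 - Y) / (1 + Y) = 1 + -(2 * Y / (1 + Y)) := by
        field_simp
        ring
      rw [e2, add_smul, one_smul]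
      abel
    have e3 : ‖Y‖ / ‖1 + Y‖ ≤ t := by
      rw [div_le_iff₀ hN0, h2]
      rcases le_total t 1 with h4 | h4
      · nlinarith
      · nlinarith
    rw [e1]
    calc ‖(-(2 * Y / (1 + Y))) • e + (2 / (1 + Y)) • x‖
        ≤ ‖(-(2 * Y / (1 + Y))) • e‖ + ‖(2 / (1 + Y)) • x‖ := norm_add_le _ _
      _ = 2 * (‖Y‖ / ‖1 + Y‖) + 2 * (‖x‖ / ‖1 + Y‖) := by
          rw [norm_smul, norm_smul, h.e1, norm_neg, norm_div, norm_div, norm_mul,
            Complex.norm_ofNat]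
          ring
      _ ≤ 2 * t + 2 * (A * t) := by linarith
      _ = _ := by ring
  · intro hzp
    have hW0 : 0 < ‖W z‖ := by
      have h4 := h.pos z hz
      have h5 : 0 < ‖z - p‖ := norm_pos_iff.2 (sub_ne_zero.2 hzp)
      have h6 : 0 < κ * ‖z - p‖ ^ 2 := by positivity
      linarith [Complex.re_le_norm (W z)]
    have ht0' : 0 < t := by rw [ht]; exact div_pos (Real.sqrt_pos.2 hW0) hr
    have e0 : r / √‖W z‖ = 1 / t := by rw [ht, one_div_div]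
    rw [e0]
    refine (cay_far h.e1 h1).trans ?_
    have e1 : 1 / ‖1 + Y‖ ≤ 1 / t := by
      apply one_div_le_one_div_of_le ht0'
      rcases le_total t 1 with h4 | h4
      · linarith
      · nlinarith
    have e2 : ‖x‖ / ‖1 + Y‖ ≤ A * (1 / t) := by
      rw [div_le_iff₀ hN0]
      calc ‖x‖ ≤ A * t := h3
        _ = A * (1 / t) * t ^ 2 := by field_simp
        _ ≤ A * (1 / t) * ‖1 + Y‖ := mul_le_mul_of_nonneg_left hN2 (by positivity)
    calc 2 * (1 + ‖x‖) / ‖1 + Y‖ = 2 * (1 / ‖1 + Y‖) + 2 * (‖x‖ / ‖1 + Y‖) := by ring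
      _ ≤ 2 * (1 / t) + 2 * (A * (1 / t)) := by linarith
      _ = _ := by ring

private theorem G2_min {t A N : ℝ} (ht : 0 < t) (hA : 0 ≤ A) (hN1 : 1 ≤ N) (hN2 : t ^ 2 ≤ N) :
    t ^ 2 * (1 + A * t) / N ^ 2 ≤ (1 + A) * min t (1 / t) ∧ t / N ≤ min t (1 / t) := by
  have hN0 : 0 < N := by linarith
  have hAt : 0 ≤ A * t := mul_nonneg hA ht.le
  constructor
  · rcases le_total t 1 with h | h
    · have h1 : t ≤ 1 / t := by
        rw [le_div_iff₀ ht]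
        nlinarith
      rw [min_eq_left h1, div_le_iff₀ (by positivity)]
      have h2 : 1 + A * t ≤ 1 + A := by nlinarith
      have h3 : 1 ≤ N ^ 2 := by nlinarith
      calc t ^ 2 * (1 + A * t) ≤ t * (1 + A) := by nlinarith [mul_nonneg ht.le hAt]
        _ = (1 + A) * t * 1 := by ring
        _ ≤ (1 + A) * t * N ^ 2 := mul_le_mul_of_nonneg_left h3 (by positivity)
    · have h1 : 1 / t ≤ t := by
        rw [div_le_iff₀ ht]
        nlinarith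
      rw [min_eq_right h1, div_le_iff₀ (by positivity)]
      have h3 : (t ^ 2) ^ 2 ≤ N ^ 2 := pow_le_pow_left₀ (by positivity) hN2 2
      calc t ^ 2 * (1 + A * t) ≤ t ^ 2 * ((1 + A) * t) := by nlinarith [sq_nonneg t]
        _ = (1 + A) * (1 / t) * (t ^ 2) ^ 2 := by field_simp
        _ ≤ (1 + A) * (1 / t) * N ^ 2 := mul_le_mul_of_nonneg_left h3 (by positivity)
  · apply le_min
    · exact div_le_self ht.le hN1
    · rw [div_le_div_iff₀ hN0 ht]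
      nlinarith

/-- Derivatives. PROOF. With `Y = W/r²`, `x = r⁻¹ S (z - p)`, `y = |Y|`, `u = √(d/|W|)`: the derivative of
`cay e Y x` is `-2 Y'/(1+Y)² • (e + x) + 2/(1+Y) • x'`; `|Y'| ≤ K √(d |W|)/r² = K u y`,
`|x'| ≤ ‖S‖ K √d / r = ‖S‖ K u √y`, `|x| ≤ C' √y`. So the norm is at most
`u (2 K y (1 + C' √y)/|1+Y|² + 2 ‖S‖ K √y/|1+Y|)`, at most `K' u √y` if `y ≤ 1` (`|1+Y| ≥ 1`) and
`K' u / √y` if `1 ≤ y` (`|1+Y| ≥ y`); `√y = √|W| / r`. -/
theorem th_grad (h : SG D p W S e κ C) {s K : ℝ} (hK : 1 ≤ K)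
    (hdisc : ∀ φ : ℂ → En n, DifferentiableOn ℂ φ (ball 0 1) →
      (∀ x ∈ ball (0 : ℂ) 1, φ x ∈ D ∩ ball p s) →
      ‖deriv φ 0‖ ≤ K * √(infDist (φ 0) Dᶜ) ∧
      ‖deriv (fun x => W (φ x)) 0‖ ≤ K * √(infDist (φ 0) Dᶜ * ‖W (φ 0)‖)) (hD : IsOpen D)
    (hpD : p ∉ D) :
    ∃ K' : ℝ, 1 ≤ K' ∧ ∀ r, 0 < r → ∀ φ : ℂ → En n, DifferentiableOn ℂ φ (ball 0 1) →
      (∀ x ∈ ball (0 : ℂ) 1, φ x ∈ D ∩ ball p s) →
      ‖deriv (fun x => Th p W S e r (φ x)) 0‖ ≤ K' * √(infDist (φ 0) Dᶜ / ‖W (φ 0)‖) *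
        min (√‖W (φ 0)‖ / r) (r / √‖W (φ 0)‖) := by
  have hκ := h.κ0
  obtain ⟨A, hA⟩ : ∃ A, A = ‖S‖ / √κ := ⟨_, rfl⟩
  have hA0 : 0 ≤ A := by rw [hA]; positivity
  have hS0 : 0 ≤ ‖S‖ := norm_nonneg _
  refine ⟨2 * K * (1 + A) + 2 * ‖S‖ * K, ?_, fun r hr φ hφ hφD => ?_⟩
  · have : 0 ≤ 2 * ‖S‖ * K := by positivity
    nlinarith
  have h0m : (0 : ℂ) ∈ ball (0 : ℂ) 1 := mem_ball_self one_pos
  have hx0 := hφD 0 h0m
  have hzc : φ 0 ∈ closure D := subset_closure hx0.1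
  have hzp : φ 0 ≠ p := fun hh => hpD (hh ▸ hx0.1)
  obtain ⟨hd1, hd2⟩ := hdisc φ hφ hφD
  obtain ⟨h1, h2, h3⟩ := G2_x h hr hzc
  rw [← hA] at h3
  have hW0 : 0 < ‖W (φ 0)‖ := by
    have h4 := h.pos _ hzc
    have h5 : 0 < ‖φ 0 - p‖ := norm_pos_iff.2 (sub_ne_zero.2 hzp)
    have h6 : 0 < κ * ‖φ 0 - p‖ ^ 2 := by positivity
    linarith [Complex.re_le_norm (W (φ 0))]
  -- the derivatives
  have hrC : (r : ℂ) ≠ 0 := by exact_mod_cast hr.ne'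
  have hrn : ‖(r : ℂ)‖ = r := by rw [Complex.norm_real, Real.norm_of_nonneg hr.le]
  obtain ⟨w', hw'⟩ : ∃ w', w' = deriv (fun x => W (φ x)) 0 := ⟨_, rfl⟩
  obtain ⟨X, hX⟩ : ∃ X, X = deriv φ 0 := ⟨_, rfl⟩
  have hφ0 : HasDerivAt φ X 0 := by
    rw [hX]
    exact (hφ.differentiableAt (isOpen_ball.mem_nhds h0m)).hasDerivAt
  have hWφ : HasDerivAt (fun x => W (φ x)) w' 0 := by
    have e1 : HasFDerivAt W (fderiv ℂ W (φ 0)) (φ 0) :=
      (h.hol.differentiableAt (hD.mem_nhds hx0.1)).hasFDerivAt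
    have e2 : HasDerivAt (fun x => W (φ x)) (fderiv ℂ W (φ 0) X) 0 :=
      e1.comp_hasDerivAt (0 : ℂ) hφ0
    rw [hw']
    exact e2.differentiableAt.hasDerivAt
  have hYd : HasDerivAt (fun x => W (φ x) / (r : ℂ) ^ 2) (w' / (r : ℂ) ^ 2) 0 := hWφ.div_const _
  have hxd : HasDerivAt (fun x => (r : ℂ)⁻¹ • S (φ x - p)) ((r : ℂ)⁻¹ • S X) 0 := by
    have e1 : HasDerivAt (fun x => S (φ x - p)) (S X) 0 :=
      (S.hasFDerivAt (x := φ 0 - p)).comp_hasDerivAt (0 : ℂ) (hφ0.sub_const p)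
    exact e1.const_smul ((r : ℂ)⁻¹)
  obtain ⟨Y, hY⟩ : ∃ Y, Y = W (φ 0) / (r : ℂ) ^ 2 := ⟨_, rfl⟩
  obtain ⟨x, hx⟩ : ∃ x, x = (r : ℂ)⁻¹ • S (φ 0 - p) := ⟨_, rfl⟩
  rw [← hY] at h1 h2
  rw [← hx] at h3
  obtain ⟨hN1, hN2⟩ := G2_N h1
  have hN0 : 0 < ‖1 + Y‖ := by linarith
  have hne : 1 + Y ≠ 0 := norm_pos_iff.1 hN0
  have hder : HasDerivAt (fun t => Th p W S e r (φ t))
      ((-(2 * (w' / (r : ℂ) ^ 2) / (1 + Y) ^ 2)) • (e + x) + (2 / (1 + Y)) • ((r : ℂ)⁻¹ • S X)) 0 := by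
    have e1 : HasDerivAt (fun t => (1 - W (φ t) / (r : ℂ) ^ 2) / (1 + W (φ t) / (r : ℂ) ^ 2))
        (-(2 * (w' / (r : ℂ) ^ 2) / (1 + Y) ^ 2)) 0 := by
      have := (hYd.const_sub 1).fun_div (hYd.const_add 1) (by rw [← hY]; exact hne)
      refine this.congr_deriv ?_
      rw [← hY]
      field_simp
      ring
    have e2 : HasDerivAt (fun t => 2 / (1 + W (φ t) / (r : ℂ) ^ 2))
        (-(2 * (w' / (r : ℂ) ^ 2) / (1 + Y) ^ 2)) 0 := by
      have := (hasDerivAt_const (0 : ℂ) (2 : ℂ)).fun_div (hYd.const_add 1)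
        (by rw [← hY]; exact hne)
      refine this.congr_deriv ?_
      rw [← hY]
      field_simp
      ring
    have e3 := (e1.smul_const e).fun_add (e2.fun_smul hxd)
    refine e3.congr_deriv ?_
    rw [← hY, ← hx, smul_add]
    abel
  rw [hder.deriv]
  -- the estimate
  obtain ⟨w, hw⟩ : ∃ w, w = ‖W (φ 0)‖ := ⟨_, rfl⟩
  obtain ⟨d, hd⟩ : ∃ d, d = infDist (φ 0) Dᶜ := ⟨_, rfl⟩
  obtain ⟨t, ht⟩ : ∃ t, t = √w / r := ⟨_, rfl⟩
  obtain ⟨u, hu⟩ : ∃ u, u = √(d / w) := ⟨_, rfl⟩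
  rw [← hw] at hW0 h2 h3 hd2 ⊢
  rw [← hd] at hd1 hd2 ⊢
  rw [← ht] at h2 h3 ⊢
  rw [← hu]
  rw [← hX] at hd1
  rw [← hw'] at hd2
  have hsw : 0 < √w := Real.sqrt_pos.2 hW0
  have ht0 : 0 < t := by rw [ht]; exact div_pos hsw hr
  have hu0 : 0 ≤ u := by rw [hu]; exact Real.sqrt_nonneg _
  have hd0 : 0 ≤ d := by rw [hd]; exact infDist_nonneg
  have e0 : r / √w = 1 / t := by rw [ht, one_div_div]
  rw [e0]
  have hsd : √d = u * √w := by
    rw [hu, ← Real.sqrt_mul (by positivity)]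
    congr 1
    field_simp
  have hsdw : √(d * w) = u * w := by
    rw [Real.sqrt_mul hd0, hsd, mul_assoc, Real.mul_self_sqrt hW0.le]
  have hY' : ‖w' / (r : ℂ) ^ 2‖ ≤ K * u * t ^ 2 := by
    rw [norm_div, norm_pow, hrn, div_le_iff₀ (by positivity)]
    rw [hsdw] at hd2
    refine hd2.trans (le_of_eq ?_)
    rw [ht, div_pow, Real.sq_sqrt hW0.le]
    field_simp
  have hx' : ‖(r : ℂ)⁻¹ • S X‖ ≤ ‖S‖ * K * u * t := by
    rw [norm_smul, norm_inv, hrn]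
    rw [hsd] at hd1
    calc r⁻¹ * ‖S X‖ ≤ r⁻¹ * (‖S‖ * (K * (u * √w))) := by
          refine mul_le_mul_of_nonneg_left ?_ (by positivity)
          exact (S.le_opNorm _).trans (mul_le_mul_of_nonneg_left hd1 hS0)
      _ = _ := by rw [ht]; ring
  rw [h2] at hN2
  obtain ⟨m1, m2⟩ := G2_min ht0 hA0 hN1 hN2
  obtain ⟨μ, hμ⟩ : ∃ μ, μ = min t (1 / t) := ⟨_, rfl⟩
  rw [← hμ] at m1 m2 ⊢
  obtain ⟨N, hN⟩ : ∃ N, N = ‖1 + Y‖ := ⟨_, rfl⟩
  rw [← hN] at m1 m2 hN0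
  have hex : ‖e + x‖ ≤ 1 + A * t := by
    refine (norm_add_le _ _).trans ?_
    rw [h.e1]
    linarith
  calc ‖(-(2 * (w' / (r : ℂ) ^ 2) / (1 + Y) ^ 2)) • (e + x) + (2 / (1 + Y)) • ((r : ℂ)⁻¹ • S X)‖
      ≤ ‖(-(2 * (w' / (r : ℂ) ^ 2) / (1 + Y) ^ 2)) • (e + x)‖ +
        ‖(2 / (1 + Y)) • ((r : ℂ)⁻¹ • S X)‖ := norm_add_le _ _
    _ = 2 * ‖w' / (r : ℂ) ^ 2‖ / N ^ 2 * ‖e + x‖ + 2 / N * ‖(r : ℂ)⁻¹ • S X‖ := by
        rw [norm_smul, norm_smul, norm_neg, norm_div, norm_div, norm_mul, norm_pow,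
          Complex.norm_ofNat, ← hN]
    _ ≤ 2 * (K * u * t ^ 2) / N ^ 2 * (1 + A * t) + 2 / N * (‖S‖ * K * u * t) := by
        have hK0 : 0 ≤ K := by linarith
        gcongr
    _ = 2 * K * u * (t ^ 2 * (1 + A * t) / N ^ 2) + 2 * ‖S‖ * K * u * (t / N) := by ring
    _ ≤ 2 * K * u * ((1 + A) * μ) + 2 * ‖S‖ * K * u * μ := by
        have hK0 : 0 ≤ K := by linarith
        gcongr
    _ = _ := by ring

end Pool.Agent.MPca0fc2.TH
end
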