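import Pool.Agent.Lib.MP_ca0fc2_an.Mg.G122
import Pool.Agent.Lib.MP_ca0fc2_an.GW.I6
import Pool.Agent.Lib.MP_ca0fc2_an.Mg.G124
import Pool.Agent.Lib.MP_ca0fc2_an.TH.G3
import Pool.Agent.Lib.MP_ca0fc2_an.Mg.G074

section

set_option autoImplicit false

open Metric Set Filter Topology
open scoped InnerProductSpace

namespace Pool.Agent.MPca0fc2.TH

open Pool.Agent.MPca0fc2.TB
open Pool.Agent.Lib.MP_ca0fc2_an (SupportData)

variable {n : ℕ}

/-- The derivatives along discs of a peak function. PROOF. `GW.disc_kob` and `GW.rho_le_dist` give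
`‖φ' 0‖² ≤ L d / c`. `GW.bb_disc` with `k = 1`, `Q z = EuclideanSpace.single 0 (exp (- W z))`:
`‖Q z‖ = exp (- Re W z) < 1`; `BB (Q x) Y ^ 2 ≥ ‖Y‖² / (1 - ‖Q x‖²)² ·` (for `k = 1` equality), so
`‖Y‖² ≤ K d (1 - ‖Q x‖²)`, `‖Y‖ = exp (- Re W) |(W ∘ φ)' 0|`, `1 - exp (- 2 Re W) ≤ 2 Re W ≤ 2 |W|`,
and `Re W` is bounded on `ball p s'`. -/
theorem disc_W (hn : 1 ≤ n) {D U : Set (En n)} {ρ : En n → ℝ} {h : En n → En n → Fin n → ℂ}
    {c : ℝ} (hs : SupportData D U ρ h c) {p : En n} {s s' : ℝ} (hs0 : 0 < s') (hss : s' < s)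
    {W : En n → ℂ} (hW : DifferentiableOn ℂ W (ball p s)) (hW1 : ∀ z ∈ D ∩ ball p s, 0 < (W z).re) :
    ∃ K : ℝ, 1 ≤ K ∧ ∀ φ : ℂ → En n, DifferentiableOn ℂ φ (ball 0 1) →
      (∀ x ∈ ball (0 : ℂ) 1, φ x ∈ D ∩ ball p s') →
      ‖deriv φ 0‖ ≤ K * √(infDist (φ 0) Dᶜ) ∧
      ‖deriv (fun x => W (φ x)) 0‖ ≤ K * √(infDist (φ 0) Dᶜ * ‖W (φ 0)‖) := by
  obtain ⟨L, hL1, hL⟩ := GW.rho_le_dist hn hs
  have hc := hs.c0
  -- the bound of `W`
  have hcb : closedBall p s' ⊆ ball p s := closedBall_subset_ball hss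
  obtain ⟨M, hM⟩ := (isCompact_closedBall p s').exists_bound_of_continuousOn
    (hW.continuousOn.mono hcb)
  -- the map to the disc
  obtain ⟨g, hg⟩ : ∃ g : En n → ℂ, g = fun z => Complex.exp (-W z) := ⟨_, rfl⟩
  have hgd : DifferentiableOn ℂ g (ball p s) := by
    rw [hg]
    exact Complex.differentiable_exp.comp_differentiableOn hW.neg
  obtain ⟨Q, hQ⟩ : ∃ Q : En n → En 1, Q = fun z => g z • EuclideanSpace.single 0 (1 : ℂ) :=
    ⟨_, rfl⟩
  have hs1 : ‖(EuclideanSpace.single 0 (1 : ℂ) : En 1)‖ = 1 := by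
    rw [PiLp.norm_single, norm_one]
  have hQd : DifferentiableOn ℂ Q (ball p s) := by
    rw [hQ]
    exact hgd.smul_const _
  have hgn : ∀ z, ‖g z‖ = Real.exp (-(W z).re) := by
    intro z
    rw [hg]
    simp only [Complex.norm_exp, Complex.neg_re]
  have hQn : ∀ z, ‖Q z‖ = Real.exp (-(W z).re) := by
    intro z
    rw [hQ]
    simp only []
    rw [norm_smul, hs1, mul_one, hgn]
  have hQ1 : ∀ z ∈ D ∩ ball p s, ‖Q z‖ < 1 := by
    intro z hz
    rw [hQn, Real.exp_lt_one_iff]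
    linarith [hW1 z hz]
  obtain ⟨K₀, hK₀, hbb⟩ := GW.bb_disc hn hs hss hQd hQ1
  obtain ⟨K, hK⟩ : ∃ K : ℝ, K = 1 + √(L / c) + √(2 * K₀ * Real.exp (2 * |M|)) := ⟨_, rfl⟩
  have h1 : 0 ≤ √(L / c) := Real.sqrt_nonneg _
  have h2 : 0 ≤ √(2 * K₀ * Real.exp (2 * |M|)) := Real.sqrt_nonneg _
  refine ⟨K, by linarith, fun φ hφ hφD => ?_⟩
  have h0m : (0 : ℂ) ∈ ball (0 : ℂ) 1 := mem_ball_self one_pos
  have hx := hφD 0 h0m
  have hxs : φ 0 ∈ D ∩ ball p s := ⟨hx.1, ball_subset_ball hss.le hx.2⟩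
  obtain ⟨d, hd⟩ : ∃ d, d = infDist (φ 0) Dᶜ := ⟨_, rfl⟩
  obtain ⟨hρ, hd0, -⟩ := hL (φ 0) hx.1
  rw [← hd] at hρ hd0 ⊢
  constructor
  · obtain ⟨-, h4⟩ := GW.disc_kob hs hφ fun x hx => (hφD x hx).1
    have h5 : ‖deriv φ 0‖ ^ 2 ≤ L / c * d := by
      rw [div_mul_eq_mul_div, le_div_iff₀ hc]
      linarith
    have h6 : ‖deriv φ 0‖ ≤ √(L / c * d) := Real.le_sqrt_of_sq_le h5
    rw [Real.sqrt_mul (by positivity)] at h6
    refine h6.trans (mul_le_mul_of_nonneg_right ?_ (Real.sqrt_nonneg _))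
    linarith
  · have h3 := hbb φ hφ hφD
    rw [← hd] at h3
    have hQx := hQ1 _ hxs
    rw [CP.BB_sq hQx] at h3
    obtain ⟨X, hX⟩ : ∃ X, X = deriv φ 0 := ⟨_, rfl⟩
    have hφ0 : HasDerivAt φ X 0 := by
      rw [hX]
      exact (hφ.differentiableAt (isOpen_ball.mem_nhds h0m)).hasDerivAt
    have hWx : HasFDerivAt W (fderiv ℂ W (φ 0)) (φ 0) :=
      (hW.differentiableAt (isOpen_ball.mem_nhds hxs.2)).hasFDerivAt
    have hder : deriv (fun x => W (φ x)) 0 = fderiv ℂ W (φ 0) X :=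
      (hWx.comp_hasDerivAt (0 : ℂ) hφ0).deriv
    have hgx : HasFDerivAt g (Complex.exp (-W (φ 0)) • -fderiv ℂ W (φ 0)) (φ 0) := by
      rw [hg]
      exact hWx.neg.cexp
    have hQx' : fderiv ℂ Q (φ 0) X =
        (-(Complex.exp (-W (φ 0)) * fderiv ℂ W (φ 0) X)) • EuclideanSpace.single 0 (1 : ℂ) := by
      have e1 : HasFDerivAt Q ((Complex.exp (-W (φ 0)) • -fderiv ℂ W (φ 0)).smulRight
          (EuclideanSpace.single 0 (1 : ℂ) : En 1)) (φ 0) := by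
        rw [hQ]
        exact hgx.smul_const _
      rw [e1.fderiv, ContinuousLinearMap.smulRight_apply]
      congr 1
      simp
    obtain ⟨a, ha⟩ : ∃ a, a = (W (φ 0)).re := ⟨_, rfl⟩
    have ha0 : 0 < a := by rw [ha]; exact hW1 _ hxs
    obtain ⟨w, hw⟩ : ∃ w, w = ‖fderiv ℂ W (φ 0) X‖ := ⟨_, rfl⟩
    have hYn : ‖fderiv ℂ Q (φ 0) X‖ = Real.exp (-a) * w := by
      rw [hQx', norm_smul, hs1, mul_one, norm_neg, norm_mul, Complex.norm_exp, Complex.neg_re,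
        ← ha, ← hw]
    have hin : ‖⟪Q (φ 0), fderiv ℂ Q (φ 0) X⟫_ℂ‖ = Real.exp (-a) * (Real.exp (-a) * w) := by
      have e2 : Q (φ 0) = g (φ 0) • EuclideanSpace.single 0 (1 : ℂ) := by rw [hQ]
      rw [e2, hQx', inner_smul_left, inner_smul_right, inner_self_eq_norm_sq_to_K, hs1]
      rw [norm_mul, norm_mul, norm_neg, norm_mul, RCLike.norm_conj, hgn, Complex.norm_exp,
        Complex.neg_re, ← ha, ← hw]
      simp
    obtain ⟨q, hq⟩ : ∃ q, q = Real.exp (-a) := ⟨_, rfl⟩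
    have hq0 : 0 < q := by rw [hq]; exact Real.exp_pos _
    have hq1 : q < 1 := by rw [hq, Real.exp_lt_one_iff]; linarith
    have hqq : 0 < 1 - q ^ 2 := by nlinarith
    rw [← hX, hYn, hin, hQn, ← ha, ← hq] at h3
    have h4 : (q * w) ^ 2 / (1 - q ^ 2) + (q * (q * w)) ^ 2 / (1 - q ^ 2) ^ 2 =
        (q * w) ^ 2 / (1 - q ^ 2) ^ 2 := by
      field_simp
      ring
    rw [h4] at h3
    have h5 : (q * w) ^ 2 ≤ K₀ * (d * (1 - q ^ 2)) := by
      rw [div_le_iff₀ (by positivity)] at h3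
      refine h3.trans (le_of_eq ?_)
      field_simp
    have h6 : 1 - q ^ 2 ≤ 2 * a := by
      have e1 : q ^ 2 = Real.exp (-(2 * a)) := by
        rw [hq, ← Real.exp_nat_mul]
        congr 1
        push_cast
        ring
      rw [e1]
      have := Real.add_one_le_exp (-(2 * a))
      linarith
    have haW : a ≤ ‖W (φ 0)‖ := by rw [ha]; exact Complex.re_le_norm _
    have haM : a ≤ |M| := haW.trans ((hM _ (ball_subset_closedBall hx.2)).trans (le_abs_self M))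
    have h7 : w ^ 2 ≤ 2 * K₀ * Real.exp (2 * |M|) * (d * ‖W (φ 0)‖) := by
      have e1 : (q * w) ^ 2 ≤ K₀ * (d * (2 * a)) := h5.trans (by gcongr)
      have e2 : w ^ 2 = Real.exp (2 * a) * (q * w) ^ 2 := by
        rw [hq, mul_pow, ← mul_assoc, ← Real.exp_nat_mul, ← Real.exp_add]
        have : 2 * a + ((2 : ℕ) : ℝ) * -a = 0 := by push_cast; ring
        rw [this, Real.exp_zero, one_mul]
      rw [e2]
      calc Real.exp (2 * a) * (q * w) ^ 2 ≤ Real.exp (2 * |M|) * (K₀ * (d * (2 * ‖W (φ 0)‖))) := by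
            refine mul_le_mul (Real.exp_le_exp.2 (by linarith)) (e1.trans (by gcongr))
              (by positivity) (Real.exp_pos _).le
        _ = _ := by ring
    rw [hder, ← hw]
    have hw0 : 0 ≤ w := by rw [hw]; exact norm_nonneg _
    have h8 : w ≤ √(2 * K₀ * Real.exp (2 * |M|) * (d * ‖W (φ 0)‖)) := Real.le_sqrt_of_sq_le h7
    rw [Real.sqrt_mul (by positivity)] at h8
    refine h8.trans (mul_le_mul_of_nonneg_right ?_ (Real.sqrt_nonneg _))
    linarith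

end Pool.Agent.MPca0fc2.TH
end

section

set_option autoImplicit false

open Metric Set Filter Topology
open scoped InnerProductSpace

namespace Pool.Agent.MPca0fc2.TH

open Pool.Agent.MPca0fc2.TB
open Pool.Agent.Lib.MP_ca0fc2_an (SupportData)

variable {n : ℕ}

/-- `TB.sg_of_tp` with more information near `p`. -/
theorem sg_near {D : Set (En n)} {p : En n} {w : En n → ℂ} {B : En n →L[ℝ] En n →L[ℝ] ℝ}
    {V : Set (En n)} {r c : ℝ} (h : TP D p w B V r c) :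
    ∃ (W : En n → ℂ) (S : En n →L[ℂ] En n) (e : En n) (κ C : ℝ), SG D p W S e κ C ∧
      ∃ s > 0, DifferentiableOn ℂ W (ball p s) ∧ ∃ (K : ℝ) (l : En n →L[ℂ] ℂ), 1 ≤ K ∧ l ≠ 0 ∧
        (∀ z, ‖z - p‖ < s → K * ‖z - p‖ ^ 2 < (l (z - p)).re → z ∈ D) ∧
        ∀ z ∈ closure D, ‖z - p‖ < s → ‖l (z - p)‖ ≤ K * ‖W z‖ := by
  obtain ⟨S, e, C₀, hC₀, he, horth, hS, hker⟩ := exists_S h.symm h.c0 h.Bpos h.dw
  obtain ⟨m, hm, hpos⟩ := wm_pos h
  obtain ⟨hhol, hcont, C₁, hC₁, hb⟩ := wm_reg h hm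
  obtain ⟨C₂, hC₂, a, ha, G, hG, hG'⟩ := wm_inv h hm hker
  have l0 : C₀ ≤ max C₀ (max C₁ C₂) := le_max_left _ _
  have l1 : C₁ ≤ max C₀ (max C₁ C₂) := le_trans (le_max_left _ _) (le_max_right _ _)
  have l2 : C₂ ≤ max C₀ (max C₁ C₂) := le_trans (le_max_right _ _) (le_max_right _ _)
  have lq : ∀ z, C₀ * (‖Wm B w p m z‖ * ‖z - p‖) ≤
      max C₀ (max C₁ C₂) * (‖Wm B w p m z‖ * ‖z - p‖) := fun z =>
    mul_le_mul_of_nonneg_right l0 (by positivity)
  refine ⟨Wm B w p m, S, e, c / 2, max C₀ (max C₁ C₂),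
    { e1 := he
      orth := horth
      κ0 := half_pos h.c0
      C0 := lt_of_lt_of_le hC₀ l0
      bdd := fun z hz => (hb z hz).1.trans l1
      hol := hhol
      cont := hcont
      pos := hpos
      Wb := fun z hz => (hb z hz).2.trans (mul_le_mul_of_nonneg_right l1 (norm_nonneg _))
      up := fun ε hε => by
        obtain ⟨s, hs, hs'⟩ := wm_up h hm hC₀ hS ε hε
        exact ⟨s, hs, fun z hz hz' => (hs' z hz hz').trans (by linarith [lq z])⟩
      low := fun ε hε => by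
        obtain ⟨s, hs, hs'⟩ := wm_low h hm hC₀ hS ε hε
        exact ⟨s, hs, fun z hz hz' => hs' z hz (by linarith [lq z])⟩
      inv := ⟨a, ha, G, hG, fun y hy => ⟨(hG' y hy).1,
        (hG' y hy).2.trans (mul_le_mul_of_nonneg_right l2 (norm_nonneg _))⟩⟩ }, ?_⟩
  have hpV : V ∈ 𝓝 p := Filter.mem_of_superset (ball_mem_nhds p h.r0) h.bV
  have hwd : DifferentiableAt ℂ w p := h.hol.differentiableAt hpV
  have hwc : ContinuousAt w p := hwd.continuousAt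
  have hne : ∀ᶠ z in 𝓝 p, (1 : ℂ) + (m : ℂ) * w z ≠ 0 := by
    have h1 : ContinuousAt (fun z => (1 : ℂ) + (m : ℂ) * w z) p :=
      continuousAt_const.add (continuousAt_const.mul hwc)
    apply h1.eventually_ne
    rw [h.w0]
    simp
  obtain ⟨s₁, hs₁, hsb⟩ := Metric.eventually_nhds_iff_ball.mp
    (hne.and (show ∀ᶠ z in 𝓝 p, z ∈ V from hpV))
  obtain ⟨he1, he2⟩ := eh_diff (B := B) h.symm
  have hsV : ball p s₁ ⊆ V := fun z hz => (hsb z hz).2
  have hWd : DifferentiableOn ℂ (Wm B w p m) (ball p s₁) := by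
    have hWeq : Wm B w p m = fun z => w z - Eh B (z - p) * (1 + (m : ℂ) * w z)⁻¹ := by
      funext z
      simp [Wm, div_eq_mul_inv]
    rw [hWeq]
    have h1 : DifferentiableOn ℂ w (ball p s₁) := h.hol.mono hsV
    have h2 : DifferentiableOn ℂ (fun z => Eh B (z - p)) (ball p s₁) :=
      (he1.comp (differentiable_id.sub_const p)).differentiableOn
    have h3 : DifferentiableOn ℂ (fun z => 1 + (m : ℂ) * w z) (ball p s₁) :=
      (h1.const_mul _).const_add _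
    exact h1.sub (h2.mul (h3.inv fun z hz => (hsb z hz).1))
  obtain ⟨A, hA, s₂, hs₂, hn⟩ := wm_near h hm
  obtain ⟨s₃, hs₃, hloc⟩ := h.loc2 1 one_pos
  have hc := h.c0
  obtain ⟨K, hK⟩ : ∃ K : ℝ, K = ‖B‖ + 1 + A + 2 * A / (c / 2) := ⟨_, rfl⟩
  have hK1 : 0 ≤ 2 * A / (c / 2) := by positivity
  have hB0 : 0 ≤ ‖B‖ := B.opNorm_nonneg
  refine ⟨min s₁ (min s₂ s₃), lt_min hs₁ (lt_min hs₂ hs₃), hWd.mono (ball_subset_ball
    (min_le_left _ _)), K, fderiv ℂ w p, by linarith, h.dw, fun z hz hlt => ?_, fun z hzD hz => ?_⟩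
  · have hz2 : ‖z - p‖ < s₂ := hz.trans_le ((min_le_right _ _).trans (min_le_left _ _))
    have hz3 : ‖z - p‖ < s₃ := hz.trans_le ((min_le_right _ _).trans (min_le_right _ _))
    refine hloc z hz3 ?_
    have h1 := (hn z hz2).1
    have h2 : (fderiv ℂ w p (z - p)).re - (w z).re ≤ A * ‖z - p‖ ^ 2 := by
      have h3 := Complex.re_le_norm (fderiv ℂ w p (z - p) - w z)
      rw [Complex.sub_re, norm_sub_rev] at h3
      linarith
    have h3 : B (z - p) (z - p) ≤ ‖B‖ * ‖z - p‖ ^ 2 := by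
      have h4 := B.le_opNorm₂ (z - p) (z - p)
      have h5 := le_abs_self (B (z - p) (z - p))
      rw [Real.norm_eq_abs] at h4
      calc B (z - p) (z - p) ≤ ‖B‖ * ‖z - p‖ * ‖z - p‖ := h5.trans h4
        _ = _ := by ring
    have h4 : K * ‖z - p‖ ^ 2 = ‖B‖ * ‖z - p‖ ^ 2 + 1 * ‖z - p‖ ^ 2 + A * ‖z - p‖ ^ 2 +
        2 * A / (c / 2) * ‖z - p‖ ^ 2 := by rw [hK]; ring
    have h5 : 0 ≤ 2 * A / (c / 2) * ‖z - p‖ ^ 2 := mul_nonneg hK1 (sq_nonneg _)
    linarith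
  · have hz2 : ‖z - p‖ < s₂ := hz.trans_le ((min_le_right _ _).trans (min_le_left _ _))
    obtain ⟨h1, h2, -⟩ := hn z hz2
    have h3 := (hpos z hzD).trans (Complex.re_le_norm _)
    have h4 : ‖z - p‖ ^ 2 ≤ ‖Wm B w p m z‖ / (c / 2) := by
      rw [le_div_iff₀ (by positivity)]
      linarith
    have h5 : ‖fderiv ℂ w p (z - p)‖ ≤ ‖Wm B w p m z‖ + 2 * A * ‖z - p‖ ^ 2 := by
      have e1 : fderiv ℂ w p (z - p) = Wm B w p m z + (w z - Wm B w p m z) +
          -(w z - fderiv ℂ w p (z - p)) := by ring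
      rw [e1]
      refine norm_add₃_le.trans ?_
      rw [norm_neg]
      linarith
    have h6 : 2 * A * ‖z - p‖ ^ 2 ≤ 2 * A * (‖Wm B w p m z‖ / (c / 2)) := by gcongr
    have h7 : 0 ≤ ‖Wm B w p m z‖ := norm_nonneg _
    calc _ ≤ ‖Wm B w p m z‖ + 2 * A * (‖Wm B w p m z‖ / (c / 2)) := by linarith
      _ = (1 + 2 * A / (c / 2)) * ‖Wm B w p m z‖ := by ring
      _ ≤ K * ‖Wm B w p m z‖ := by
          refine mul_le_mul_of_nonneg_right ?_ h7
          rw [hK]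
          linarith

/-- The chart at a boundary point. -/
theorem exists_chart (hn : 1 ≤ n) {D U : Set (En n)} {ρ : En n → ℝ} {h : En n → En n → Fin n → ℂ}
    {c : ℝ} (hs : SupportData D U ρ h c) {p : En n} (hp : p ∈ frontier D) :
    ∃ (e : En n) (W : En n → ℂ) (Θ : ℝ → En n → En n) (s K : ℝ), Chart D p e W Θ s K := by
  obtain ⟨r, hpk⟩ := pk_of_support hs hp
  obtain ⟨B, hB⟩ := tp_of_pk hpk
  obtain ⟨W, S, e, κ, C, hSG, s, hs0, hWd, K₀, l, hK₀, hl0, hl1, hl2⟩ := sg_near hB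
  have hopen : IsOpen D := hB.dopn
  have hpD : p ∉ D := by
    intro hh
    have := hp.2
    rw [hopen.interior_eq] at this
    exact this hh
  have hκ := hSG.κ0
  have hC0 := hSG.C0
  have hWpos : ∀ z ∈ D ∩ ball p s, 0 < (W z).re := by
    intro z hz
    have h1 : 0 < ‖z - p‖ := norm_pos_iff.2 (sub_ne_zero.2 fun hh => hpD (hh ▸ hz.1))
    have h2 := hSG.pos z (subset_closure hz.1)
    have h3 : 0 < κ * ‖z - p‖ ^ 2 := by positivity
    linarith
  obtain ⟨K₁, hK₁, hdisc⟩ := disc_W hn hs (p := p) (s := s) (s' := s / 2) (by linarith)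
    (by linarith) hWd hWpos
  obtain ⟨K₂, hK₂, hval⟩ := th_val hSG
  obtain ⟨K₃, hK₃, hgrad⟩ := th_grad hSG hK₁ hdisc hopen hpD
  obtain ⟨K, hK⟩ : ∃ K : ℝ, K = K₀ + K₂ + K₃ + 1 / κ + C * C := ⟨_, rfl⟩
  have hk1 : 0 < 1 / κ := by positivity
  have hk2 : 0 < C * C := by positivity
  have b0 : K₀ ≤ K := by linarith
  have b2 : K₂ ≤ K := by linarith
  have b3 : K₃ ≤ K := by linarith
  have b4 : 1 / κ ≤ K := by linarith
  have b5 : C * C ≤ K := by linarith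
  refine ⟨e, W, Th p W S e, s / 2, K, ?_⟩
  refine ⟨hSG.e1, by linarith, by linarith, hopen, hSG.cont, fun z hz => ?_, fun z hz => ?_,
    fun r hr => (th_reg hSG hr).1, fun r hr => (th_reg hSG hr).2, fun r hr z hz => ?_,
    fun r hr z hz hzp => ?_, fun R hR => ?_, fun r hr φ hφ hφD => ?_, fun k hk hk1 => ?_,
    l, hl0, fun z hz hlt => ?_, fun z hzD hz => ?_⟩
  · have h1 := (hSG.pos z hz).trans (Complex.re_le_norm _)
    calc ‖z - p‖ ^ 2 = 1 / κ * (κ * ‖z - p‖ ^ 2) := by field_simp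
      _ ≤ 1 / κ * ‖W z‖ := by gcongr
      _ ≤ K * ‖W z‖ := mul_le_mul_of_nonneg_right b4 (norm_nonneg _)
  · exact (hSG.Wb z hz).trans ((mul_le_mul_of_nonneg_left (hSG.bdd z hz) hC0.le).trans b5)
  · exact ((hval r hr z hz).1).trans (mul_le_mul_of_nonneg_right b2 (by positivity))
  · exact ((hval r hr z hz).2 hzp).trans (mul_le_mul_of_nonneg_right b2 (by positivity))
  · obtain ⟨r₀, hr₀, h1⟩ := th_up hSG (ε := R - 1) (by linarith)
    exact ⟨r₀, hr₀, fun r hr hr1 z hz => by linarith [h1 r hr hr1 z hz]⟩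
  · refine (hgrad r hr φ hφ hφD).trans ?_
    have h1 : 0 ≤ min (√‖W (φ 0)‖ / r) (r / √‖W (φ 0)‖) :=
      le_min (by positivity) (by positivity)
    gcongr
  · exact th_inv2 hSG hk hk1
  · exact hl1 z (by linarith) (lt_of_le_of_lt (mul_le_mul_of_nonneg_right b0 (sq_nonneg _)) hlt)
  · exact (hl2 z hzD (by linarith)).trans (mul_le_mul_of_nonneg_right b0 (norm_nonneg _))

end Pool.Agent.MPca0fc2.TH
end
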