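import Pool.Agent.Lib.MP_ca0fc2_an.Mg.G122
import Pool.Agent.Lib.MP_ca0fc2_an.EQ.GR3

section

set_option autoImplicit false

open Metric Set Filter Topology
open scoped InnerProductSpace

namespace Pool.Agent.MPca0fc2.TH

open Pool.Agent.MPca0fc2.TB

variable {n N : ℕ} {D : Set (En n)} {p e : En n} {W : En n → ℂ} {Θ : ℝ → En n → En n}
  {s K δ₀ κ C : ℝ} {c₀ : En N} {lam : ℝ → ℝ} {H : ℕ → En n → En N} {L R m k r : ℕ → ℝ}

private theorem S1_pos (hCh : Chart D p e W Θ s K) {z : En n} (hz : z ∈ closure D) (hzp : z ≠ p) :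
    0 < ‖W z‖ := by
  have h1 := hCh.Wq z hz
  have h2 : 0 < ‖z - p‖ ^ 2 := by
    have : 0 < ‖z - p‖ := norm_pos_iff.mpr (sub_ne_zero.mpr hzp)
    positivity
  have h3 : 0 < K * ‖W z‖ := lt_of_lt_of_le h2 h1
  have hK : 0 < K := zero_lt_one.trans_le hCh.K1
  exact (mul_pos_iff_of_pos_left hK).mp h3

private theorem S1_mem (h : Blk2 D e W Θ K δ₀ κ C c₀ lam H L R m k r) (j : ℕ) {z : En n}
    (hz : z ∈ closure D) : Θ (r j) z ∈ ball (0 : En n) (R j) := by
  rw [mem_ball_zero_iff]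
  exact h.rR j z hz

private theorem S1_est (hCh : Chart D p e W Θ s K) (h : Blk2 D e W Θ K δ₀ κ C c₀ lam H L R m k r)
    (j : ℕ) {z : En n} (hz : z ∈ closure D) (hzp : z ≠ p) :
    ‖H j (Θ (r j) z) - c₀‖ ≤ K * L j * min (√‖W z‖ / r j) (r j / √‖W z‖) := by
  have hm := S1_mem h j hz
  have hL : 0 ≤ L j := zero_le_one.trans (h.L1 j)
  have hK : 0 ≤ K := zero_le_one.trans hCh.K1
  rcases min_choice (√‖W z‖ / r j) (r j / √‖W z‖) with h0 | h0
  · rw [h0]
    calc _ ≤ L j * ‖Θ (r j) z - e‖ := h.lp j _ hm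
      _ ≤ L j * (K * (√‖W z‖ / r j)) :=
          mul_le_mul_of_nonneg_left (hCh.near (r j) (h.r0 j).1 z hz) hL
      _ = _ := by ring
  · rw [h0]
    calc _ ≤ L j * ‖Θ (r j) z + e‖ := h.lm j _ hm
      _ ≤ L j * (K * (r j / √‖W z‖)) :=
          mul_le_mul_of_nonneg_left (hCh.far (r j) (h.r0 j).1 z hz hzp) hL
      _ = _ := by ring

private theorem S1_near {w r m x : ℝ} (hr : 0 < r) (hm : 0 < m) (h : w ≤ m * x ^ 2)
    (hx : 0 ≤ x) : √w / r ≤ √m * (x / r) := by
  have h1 : √w ≤ √m * x := by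
    rw [← Real.sqrt_sq hx, ← Real.sqrt_mul hm.le]
    exact Real.sqrt_le_sqrt h
  calc √w / r ≤ (√m * x) / r := div_le_div_of_nonneg_right h1 hr.le
    _ = _ := by ring

private theorem S1_far {w m x y : ℝ} (hw : 0 < w) (hx : 0 < x) (hy : 0 < y) (hm : 0 < m)
    (h : x ^ 2 / m ≤ w) : y / √w ≤ √m * (y / x) := by
  have hsw : 0 < √w := Real.sqrt_pos.mpr hw
  have h1 : x ≤ √m * √w := by
    rw [← Real.sqrt_sq hx.le, ← Real.sqrt_mul hm.le]
    apply Real.sqrt_le_sqrt
    rw [div_le_iff₀ hm] at h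
    linarith
  rw [div_le_iff₀ hsw]
  have h2 : y * 1 ≤ y * ((√m * √w) / x) := by
    apply mul_le_mul_of_nonneg_left _ hy.le
    rw [le_div_iff₀ hx]
    linarith
  calc y = y * 1 := by ring
    _ ≤ y * ((√m * √w) / x) := h2
    _ = _ := by ring

/-- Sizes. PROOF. As `SH.blk_size`, `SH.blk_sep`, `SH.blk_sum` (SH/B6.lean), with `√‖W z‖ / r j` in place of
`√(aa p z / d j)` (`hCh.near`, `hCh.far`, `h.rR`, `h.lp`, `h.lm`). The second and third claims: `sep`; the
last one: `‖W z‖ ≥ η ^ 2 / K` if `‖z - p‖ ≥ η` (`hCh.Wq`), `sep 0 j`. -/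
theorem blk2_size (hCh : Chart D p e W Θ s K) (h : Blk2 D e W Θ K δ₀ κ C c₀ lam H L R m k r) :
    (∀ j, ∀ z ∈ closure D, z ≠ p → 0 < ‖W z‖ ∧
      ‖H j (Θ (r j) z) - c₀‖ ≤ K * L j * min (√‖W z‖ / r j) (r j / √‖W z‖)) ∧
    (∀ j, ∀ z ∈ closure D, z ≠ p → (m j * r j ^ 2 ≤ ‖W z‖ ∨ ‖W z‖ ≤ r j ^ 2 / m j) →
      K * L j * min (√‖W z‖ / r j) (r j / √‖W z‖) ≤ κ / 4 ^ (j + 1)) ∧
    (∀ i j, i < j → ∀ z ∈ closure D, z ≠ p →
      (‖W z‖ ≤ m j * r j ^ 2 → K * L i * min (√‖W z‖ / r i) (r i / √‖W z‖) ≤ κ / 4 ^ (j + 1)) ∧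
      (r i ^ 2 / m i ≤ ‖W z‖ → K * L j * min (√‖W z‖ / r j) (r j / √‖W z‖) ≤ κ / 4 ^ (j + 1))) ∧
    ∀ η > 0, ∃ A : ℝ, 0 ≤ A ∧ ∀ j, ∀ z ∈ closure D, η ≤ ‖z - p‖ →
      K * L j * min (√‖W z‖ / r j) (r j / √‖W z‖) ≤ A * (1 / 4) ^ j := by
  have hK : 1 ≤ K := hCh.K1
  have hK0 : 0 < K := zero_lt_one.trans_le hK
  refine ⟨fun j z hz hzp => ⟨S1_pos hCh hz hzp, S1_est hCh h j hz hzp⟩,
    fun j z hz hzp hw => ?_, fun i j hij z hz hzp => ⟨fun hw => ?_, fun hw => ?_⟩,
    fun η hη => ?_⟩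
  · have hW := S1_pos hCh hz hzp
    have hL : 0 ≤ L j := zero_le_one.trans (h.L1 j)
    have hm : 0 < m j := zero_lt_one.trans_le (h.m1 j)
    have hr := (h.r0 j).1
    have hsm : 0 < √(m j) := Real.sqrt_pos.mpr hm
    have key : min (√‖W z‖ / r j) (r j / √‖W z‖) ≤ 1 / √(m j) := by
      rcases hw with hw | hw
      · refine (min_le_right _ _).trans ?_
        have h1 := S1_far (w := ‖W z‖) (m := 1 / m j) (x := r j) (y := r j) hW hr hr (by positivity)
          (by rw [div_div_eq_mul_div, div_one, mul_comm]; exact hw)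
        rw [div_self hr.ne', mul_one, Real.sqrt_div zero_le_one, Real.sqrt_one] at h1
        exact h1
      · refine (min_le_left _ _).trans ?_
        have h1 := S1_near (w := ‖W z‖) (r := r j) (m := 1 / m j) (x := r j) hr (by positivity)
          (by rw [one_div, inv_mul_eq_div]; exact hw) hr.le
        rw [div_self hr.ne', mul_one, Real.sqrt_div zero_le_one, Real.sqrt_one] at h1
        exact h1
    calc K * L j * min (√‖W z‖ / r j) (r j / √‖W z‖) ≤ K * L j * (1 / √(m j)) :=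
          mul_le_mul_of_nonneg_left key (by positivity)
      _ = K * L j / √(m j) := by ring
      _ ≤ _ := by
          rw [div_le_iff₀ hsm]
          exact h.mL j
  · have hW := S1_pos hCh hz hzp
    have hmi : 1 ≤ m i := h.m1 i
    have hmj : 1 ≤ m j := h.m1 j
    have hmj0 : 0 < m j := by linarith
    have hri := (h.r0 i).1
    have hrj := (h.r0 j).1
    have hLi : 0 ≤ L i := zero_le_one.trans (h.L1 i)
    have h1 := S1_near (w := ‖W z‖) (r := r i) (m := m j) (x := r j) hri hmj0 hw hrj.le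
    have h2 : √(m j) ≤ √(m i * m j) := Real.sqrt_le_sqrt (by nlinarith)
    have h3 : 0 ≤ r j / r i := by positivity
    calc K * L i * min (√‖W z‖ / r i) (r i / √‖W z‖) ≤ K * L i * (√(m j) * (r j / r i)) :=
          mul_le_mul_of_nonneg_left ((min_le_left _ _).trans h1) (by positivity)
      _ ≤ K * L i * (√(m i * m j) * (r j / r i)) := by gcongr
      _ ≤ K * max (L i) (L j) * (√(m i * m j) * (r j / r i)) := by
          gcongr
          exact le_max_left _ _
      _ ≤ _ := h.sep i j hij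
  · have hW := S1_pos hCh hz hzp
    have hmi : 1 ≤ m i := h.m1 i
    have hmj : 1 ≤ m j := h.m1 j
    have hmi0 : 0 < m i := by linarith
    have hri := (h.r0 i).1
    have hrj := (h.r0 j).1
    have hLj : 0 ≤ L j := zero_le_one.trans (h.L1 j)
    have h1 := S1_far (w := ‖W z‖) (m := m i) (x := r i) (y := r j) hW hri hrj hmi0 hw
    have h2 : √(m i) ≤ √(m i * m j) := Real.sqrt_le_sqrt (by nlinarith)
    have h3 : 0 ≤ r j / r i := by positivity
    calc K * L j * min (√‖W z‖ / r j) (r j / √‖W z‖) ≤ K * L j * (√(m i) * (r j / r i)) :=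
          mul_le_mul_of_nonneg_left ((min_le_right _ _).trans h1) (by positivity)
      _ ≤ K * L j * (√(m i * m j) * (r j / r i)) := by gcongr
      _ ≤ K * max (L i) (L j) * (√(m i * m j) * (r j / r i)) := by
          gcongr
          exact le_max_right _ _
      _ ≤ _ := h.sep i j hij
  · have hL0 : 1 ≤ L 0 := h.L1 0
    refine ⟨(K * L 0 + 1) * (√K / η), by positivity, fun j z hz hzη => ?_⟩
    have hzp : z ≠ p := by
      rintro rfl
      rw [sub_self, norm_zero] at hzη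
      linarith
    have hW := S1_pos hCh hz hzp
    have hrj := (h.r0 j).1
    have hLj : 1 ≤ L j := h.L1 j
    have hW2 : η ^ 2 / K ≤ ‖W z‖ := by
      rw [div_le_iff₀ hK0]
      have h1 := hCh.Wq z hz
      have h2 : η ^ 2 ≤ ‖z - p‖ ^ 2 := pow_le_pow_left₀ hη.le hzη 2
      linarith
    have h1 := S1_far (w := ‖W z‖) (m := K) (x := η) (y := r j) hW hη hrj hK0 hW2
    have h6 : K * L j * r j ≤ (K * L 0 + 1) * (1 / 4) ^ j := by
      rcases Nat.eq_zero_or_pos j with hj | hj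
      · subst hj
        have h7 : r 0 ≤ 1 := (h.r0 0).2.le
        have h8 : K * L 0 * r 0 ≤ K * L 0 * 1 := mul_le_mul_of_nonneg_left h7 (by positivity)
        rw [pow_zero, mul_one]
        linarith
      · have h7 := h.sep 0 j hj
        have hm0 : 1 ≤ m 0 := h.m1 0
        have hmj : 1 ≤ m j := h.m1 j
        have hr00 := (h.r0 0).1
        have hr01 := (h.r0 0).2
        have h8 : (1 : ℝ) ≤ √(m 0 * m j) := by
          rw [Real.one_le_sqrt]
          exact one_le_mul_of_one_le_of_one_le hm0 hmj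
        have h9 : r j ≤ r j / r 0 := by
          rw [le_div_iff₀ hr00]
          nlinarith
        have h10 : r j ≤ √(m 0 * m j) * (r j / r 0) := by
          have h11 : 0 ≤ r j / r 0 := by positivity
          nlinarith
        have h12 : K * L j * r j ≤ K * max (L 0) (L j) * (√(m 0 * m j) * (r j / r 0)) := by
          have h13 : L j ≤ max (L 0) (L j) := le_max_right _ _
          gcongr
        refine (h12.trans h7).trans ?_
        calc κ / 4 ^ (j + 1) ≤ 1 / 4 ^ j := by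
              apply div_le_div₀ zero_le_one h.κ1 (by positivity)
              exact pow_le_pow_right₀ (by norm_num) (Nat.le_succ j)
          _ = 1 * (1 / 4) ^ j := by rw [one_mul, one_div_pow]
          _ ≤ _ := by
              apply mul_le_mul_of_nonneg_right _ (by positivity)
              have : 0 ≤ K * L 0 := by positivity
              linarith
    have h14 : 0 ≤ √K / η := by positivity
    calc K * L j * min (√‖W z‖ / r j) (r j / √‖W z‖) ≤ K * L j * (√K * (r j / η)) :=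
          mul_le_mul_of_nonneg_left ((min_le_right _ _).trans h1) (by positivity)
      _ = (K * L j * r j) * (√K / η) := by ring
      _ ≤ ((K * L 0 + 1) * (1 / 4) ^ j) * (√K / η) := mul_le_mul_of_nonneg_right h6 h14
      _ = _ := by ring

end Pool.Agent.MPca0fc2.TH
end

section

set_option autoImplicit false

open Metric Set Filter Topology
open scoped InnerProductSpace

namespace Pool.Agent.MPca0fc2.TH

open Pool.Agent.MPca0fc2.TB

variable {n N : ℕ} {D : Set (En n)} {p e : En n} {W : En n → ℂ} {Θ : ℝ → En n → En n}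
  {s K δ₀ κ C : ℝ} {c₀ : En N} {lam : ℝ → ℝ} {H : ℕ → En n → En N} {L R m k r : ℕ → ℝ}

/-- A normally convergent series of holomorphic functions of several variables is holomorphic
(copy of a private lemma of EQ/GR3). -/
private theorem S2_tsum {U : Set (En n)} (hU : IsOpen U) {h : ℕ → En n → En N}
    {u : ℕ → ℝ} (hu : Summable u) (hh : ∀ k, DifferentiableOn ℂ (h k) U)
    (hb : ∀ k, ∀ z ∈ U, ‖h k z‖ ≤ u k)
    (hu0 : ∀ k, 0 ≤ u k) : DifferentiableOn ℂ (fun z => ∑' k, h k z) U := by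
  rw [differentiableOn_euclidean]
  intro i
  set 𝒰 : Ultrafilter ℕ := Ultrafilter.of atTop with h𝒰
  have hle : (𝒰 : Filter ℕ) ≤ atTop := Ultrafilter.of_le _
  have hG : ∀ m, DifferentiableOn ℂ (fun z => ∑ k ∈ Finset.range m, (h k z) i) U := fun m =>
    DifferentiableOn.fun_sum fun k _ => (differentiableOn_euclidean.1 (hh k)) i
  have hM : ∀ m, ∀ z ∈ U, ‖∑ k ∈ Finset.range m, (h k z) i‖ ≤ ∑' k, u k := by
    intro m z hz
    refine (norm_sum_le _ _).trans ?_
    refine (Finset.sum_le_sum fun k _ => (PiLp.norm_apply_le (h k z) i).trans (hb k z hz)).trans ?_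
    exact hu.sum_le_tsum _ fun k _ => hu0 k
  obtain ⟨g, hg1, -, hg3⟩ := Pool.Agent.MPca0fc2.SL.ultra_holo 𝒰 hU (tsum_nonneg hu0) hG hM
  refine hg1.congr fun z hz => ?_
  have hs : Summable fun k => h k z := Summable.of_norm_bounded hu fun k => hb k z hz
  have h1 : Tendsto (fun m => ∑ k ∈ Finset.range m, h k z) atTop (𝓝 (∑' k, h k z)) :=
    hs.hasSum.tendsto_sum_nat
  have h2 : Tendsto (fun m => ∑ k ∈ Finset.range m, (h k z) i) atTop (𝓝 ((∑' k, h k z) i)) := by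
    have h3 := ((EuclideanSpace.proj (𝕜 := ℂ) i : StrongDual ℂ (En N)).continuous.tendsto
      (∑' k, h k z)).comp h1
    refine h3.congr fun m => ?_
    simp only [Function.comp]
    rw [map_sum]
    rfl
  exact tendsto_nhds_unique (h2.mono_left hle) (hg3 z hz)

/-- The data: holomorphic on `D`, continuous on `closure D \ {p}`. PROOF. `blk2_size` (first and last part),
normal convergence on `closure D \ ball p η` (as SH/B7a.lean for the holomorphy; `continuousOn_tsum` for the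
continuity). -/
theorem fD_reg (hpD : p ∉ D) (hCh : Chart D p e W Θ s K)
    (h : Blk2 D e W Θ K δ₀ κ C c₀ lam H L R m k r) :
    DifferentiableOn ℂ (fD c₀ Θ H r) D ∧ ContinuousOn (fD c₀ Θ H r) (closure D \ {p}) ∧
      ∀ z ∈ closure D, z ≠ p → Summable fun j => H j (Θ (r j) z) - c₀ := by
  obtain ⟨hs1, -, -, hs4⟩ := blk2_size hCh h
  have hgeo : Summable fun j : ℕ => (1 / 4 : ℝ) ^ j :=
    summable_geometric_of_lt_one (by norm_num) (by norm_num)
  have hbd : ∀ η > 0, ∃ A : ℝ, 0 ≤ A ∧ ∀ j, ∀ z ∈ closure D, η ≤ ‖z - p‖ →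
      ‖H j (Θ (r j) z) - c₀‖ ≤ A * (1 / 4) ^ j := by
    intro η hη
    obtain ⟨A, hA, hb⟩ := hs4 η hη
    refine ⟨A, hA, fun j z hz hzη => ?_⟩
    have hzp : z ≠ p := by
      rintro rfl
      rw [sub_self, norm_zero] at hzη
      linarith
    exact (hs1 j z hz hzp).2.trans (hb j z hz hzη)
  have hpos : ∀ z : En n, z ≠ p → 0 < ‖z - p‖ := fun z hz => norm_pos_iff.mpr (sub_ne_zero.mpr hz)
  have hball : ∀ j, ∀ z ∈ closure D, Θ (r j) z ∈ ball (0 : En n) (R j) := by
    intro j z hz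
    rw [mem_ball_zero_iff]
    exact h.rR j z hz
  have hopen : ∀ η : ℝ, IsOpen {w : En n | η < ‖w - p‖} := fun η =>
    isOpen_lt continuous_const ((continuous_id.sub continuous_const).norm)
  refine ⟨?_, ?_, ?_⟩
  · intro z hz
    have hzp : z ≠ p := fun h0 => hpD (h0 ▸ hz)
    have hη : 0 < ‖z - p‖ / 2 := half_pos (hpos z hzp)
    obtain ⟨A, hA, hb⟩ := hbd _ hη
    have hU : IsOpen (D ∩ {w : En n | ‖z - p‖ / 2 < ‖w - p‖}) := hCh.opn.inter (hopen _)
    have hzU : z ∈ D ∩ {w : En n | ‖z - p‖ / 2 < ‖w - p‖} := ⟨hz, half_lt_self (hpos z hzp)⟩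
    have hdiff : ∀ j, DifferentiableOn ℂ (fun z => H j (Θ (r j) z) - c₀) D := by
      intro j
      have h1 : DifferentiableOn ℂ (fun z => H j (Θ (r j) z)) D :=
        (h.hol j).comp (hCh.hol (r j) (h.r0 j).1) fun w hw => hball j w (subset_closure hw)
      exact h1.sub_const c₀
    have hD : DifferentiableOn ℂ (fun z => ∑' j, (H j (Θ (r j) z) - c₀))
        (D ∩ {w : En n | ‖z - p‖ / 2 < ‖w - p‖}) :=
      S2_tsum hU (u := fun j => A * (1 / 4) ^ j) (hgeo.mul_left _)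
        (fun j => (hdiff j).mono inter_subset_left)
        (fun j w hw => hb j w (subset_closure hw.1) (le_of_lt hw.2))
        (fun j => by positivity)
    have h1 : DifferentiableAt ℂ (fun z => ∑' j, (H j (Θ (r j) z) - c₀)) z :=
      hD.differentiableAt (hU.mem_nhds hzU)
    have h2 : DifferentiableAt ℂ (fD c₀ Θ H r) z := (differentiableAt_const c₀).add h1
    exact h2.differentiableWithinAt
  · intro z hz
    have hzp : z ≠ p := hz.2
    have hη : 0 < ‖z - p‖ / 2 := half_pos (hpos z hzp)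
    obtain ⟨A, hA, hb⟩ := hbd _ hη
    have hcont : ∀ j, ContinuousOn (fun z => H j (Θ (r j) z) - c₀) (closure D) := by
      intro j
      have h1 : ContinuousOn (fun z => H j (Θ (r j) z)) (closure D) :=
        (h.hol j).continuousOn.comp (hCh.cont (r j) (h.r0 j).1) fun w hw => hball j w hw
      exact h1.sub continuousOn_const
    have hC : ContinuousOn (fun z => ∑' j, (H j (Θ (r j) z) - c₀))
        (closure D ∩ {w : En n | ‖z - p‖ / 2 < ‖w - p‖}) :=
      continuousOn_tsum (fun j => (hcont j).mono inter_subset_left) (hgeo.mul_left A)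
        fun j w hw => hb j w hw.1 (le_of_lt hw.2)
    have h1 : ContinuousWithinAt (fD c₀ Θ H r)
        (closure D ∩ {w : En n | ‖z - p‖ / 2 < ‖w - p‖}) z :=
      continuousWithinAt_const.add (hC z ⟨hz.1, half_lt_self (hpos z hzp)⟩)
    refine h1.mono_of_mem_nhdsWithin ?_
    have h2 : {w : En n | ‖z - p‖ / 2 < ‖w - p‖} ∈ 𝓝 z :=
      (hopen _).mem_nhds (half_lt_self (hpos z hzp))
    exact inter_mem (mem_of_superset self_mem_nhdsWithin sdiff_subset) (mem_nhdsWithin_of_mem_nhds h2)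
  · intro z hz hzp
    obtain ⟨A, hA, hb⟩ := hbd _ (hpos z hzp)
    exact Summable.of_norm_bounded (hgeo.mul_left A) fun j => hb j z hz le_rfl

/-- a geometric bound of a series -/
private theorem S2_geo {T : ℕ → En N} {a : ℝ}
    (hT : ∀ i, ‖T i‖ ≤ a / 2 / 2 ^ i) : ‖∑' i, T i‖ ≤ a :=
  tsum_of_norm_bounded (hasSum_geometric_two' a) hT

/-- all terms but one are small -/
private theorem S2_one {T : ℕ → En N} (hs : Summable T) {a : ℝ} (ha : 0 ≤ a) (j : ℕ)
    (hT : ∀ i, i ≠ j → ‖T i‖ ≤ a / 2 / 2 ^ i) (c v : En N) (hv : T j = v - c) :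
    ‖(c + ∑' i, T i) - v‖ ≤ a := by
  rw [hs.tsum_eq_add_tsum_ite j, hv]
  have e : (c + (v - c + ∑' i, ite (i = j) 0 (T i))) - v = ∑' i, ite (i = j) 0 (T i) := by abel
  rw [e]
  refine S2_geo fun i => ?_
  by_cases hij : i = j
  · rw [if_pos hij, norm_zero]; positivity
  · rw [if_neg hij]; exact hT i hij

private theorem S2_pow {κ : ℝ} (hκ : 0 < κ) (i : ℕ) : κ / 4 ^ (i + 1) ≤ κ / 2 / 2 ^ i := by
  rw [div_div]
  refine div_le_div_of_nonneg_left hκ.le (by positivity) ?_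
  have h1 : (2 : ℝ) * 2 ^ i = 2 ^ (i + 1) := by ring
  rw [h1]
  exact pow_le_pow_left₀ (by norm_num) (by norm_num) _

private theorem S2_pow2 {κ : ℝ} (hκ : 0 < κ) {i j : ℕ} (h : i ≤ j) :
    κ / 4 ^ (j + 1) ≤ κ / 2 ^ j / 2 / 2 ^ i := by
  rw [div_div, div_div]
  refine div_le_div_of_nonneg_left hκ.le (by positivity) ?_
  have h1 : (2 : ℝ) ^ j * (2 * 2 ^ i) = 2 ^ (i + j + 1) := by ring
  have h2 : (4 : ℝ) ^ (j + 1) = 2 ^ (2 * (j + 1)) := by rw [pow_mul]; norm_num
  rw [h1, h2]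
  exact pow_le_pow_right₀ (by norm_num) (by omega)

private theorem S2_pow3 {κ : ℝ} (hκ : 0 < κ) {i j : ℕ} (h : j ≤ i) :
    κ / 4 ^ (i + 1) ≤ κ / 2 ^ j / 2 / 2 ^ i := by
  rw [div_div, div_div]
  refine div_le_div_of_nonneg_left hκ.le (by positivity) ?_
  have h1 : (2 : ℝ) ^ j * (2 * 2 ^ i) = 2 ^ (i + j + 1) := by ring
  have h2 : (4 : ℝ) ^ (i + 1) = 2 ^ (2 * (i + 1)) := by rw [pow_mul]; norm_num
  rw [h1, h2]
  exact pow_le_pow_right₀ (by norm_num) (by omega)

/-- The size of the data. PROOF. As `SH.fB_size` (SH/B7b.lean). -/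
theorem fD_size (hpD : p ∉ D) (hCh : Chart D p e W Θ s K)
    (h : Blk2 D e W Θ K δ₀ κ C c₀ lam H L R m k r) :
    (∀ z ∈ D, δ₀ - 2 * κ ≤ ‖fD c₀ Θ H r z‖ ∧ ‖fD c₀ Θ H r z‖ ≤ 1 + 2 * κ) ∧
      ∀ j, ∀ z ∈ D, r j ^ 2 / m j ≤ ‖W z‖ → ‖W z‖ ≤ m j * r j ^ 2 →
        ‖fD c₀ Θ H r z - H j (Θ (r j) z)‖ ≤ κ / 2 ^ j := by
  obtain ⟨hs1, hs2, hs3, -⟩ := blk2_size hCh h
  have hκ := h.κ0
  have hsum := (fD_reg hpD hCh h).2.2
  have hcl : ∀ z ∈ D, z ∈ closure D := fun z hz => subset_closure hz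
  have hne : ∀ z ∈ D, z ≠ p := fun z hz h0 => hpD (h0 ▸ hz)
  have approx : ∀ j, ∀ z ∈ D, r j ^ 2 / m j ≤ ‖W z‖ → ‖W z‖ ≤ m j * r j ^ 2 →
        ‖fD c₀ Θ H r z - H j (Θ (r j) z)‖ ≤ κ / 2 ^ j := by
    intro j z hz h1 h2
    have hz' := hcl z hz
    have hzp := hne z hz
    refine S2_one (T := fun i => H i (Θ (r i) z) - c₀) (hsum z hz' hzp) (by positivity) j ?_ c₀ _ rfl
    intro i hij
    refine (hs1 i z hz' hzp).2.trans ?_
    rcases lt_or_gt_of_ne hij with hlt | hgt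
    · exact ((hs3 i j hlt z hz' hzp).1 h2).trans (S2_pow2 hκ hlt.le)
    · exact ((hs3 j i hgt z hz' hzp).2 h1).trans (S2_pow3 hκ hgt.le)
  refine ⟨fun z hz => ?_, approx⟩
  have hz' := hcl z hz
  have hzp := hne z hz
  by_cases hw : ∃ j, r j ^ 2 / m j ≤ ‖W z‖ ∧ ‖W z‖ ≤ m j * r j ^ 2
  · obtain ⟨j, h1, h2⟩ := hw
    have h3 := approx j z hz h1 h2
    have h4 : κ / 2 ^ j ≤ κ := div_le_self hκ.le (one_le_pow₀ (by norm_num))
    have hb : Θ (r j) z ∈ ball (0 : En n) (R j) := by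
      rw [mem_ball_zero_iff]
      exact h.rR j z hz'
    have h5 := h.bd j _ hb
    have h6 := abs_le.1 (abs_norm_sub_norm_le (fD c₀ Θ H r z) (H j (Θ (r j) z)))
    constructor <;> linarith [h6.1, h6.2]
  · push Not at hw
    have h3 : ‖∑' i, (H i (Θ (r i) z) - c₀)‖ ≤ κ := by
      refine S2_geo fun i => ?_
      refine le_trans ?_ (S2_pow hκ i)
      refine (hs1 i z hz' hzp).2.trans ?_
      by_cases h1 : r i ^ 2 / m i ≤ ‖W z‖
      · exact hs2 i z hz' hzp (Or.inl (hw i h1).le)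
      · exact hs2 i z hz' hzp (Or.inr (not_le.1 h1).le)
    have h6 := abs_le.1 (abs_norm_sub_norm_le (fD c₀ Θ H r z) c₀)
    have h7 : fD c₀ Θ H r z - c₀ = ∑' i, (H i (Θ (r i) z) - c₀) := by
      rw [fD, add_sub_cancel_left]
    rw [h7] at h6
    have h8 := h.c0
    constructor <;> linarith [h6.1, h6.2, h8.1, h8.2]

end Pool.Agent.MPca0fc2.TH
end
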